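import Pool.Agent.MP_2339ce_nt.Q2.CovT
import Pool.Agent.MP_2339ce_nt.Q2.NC.L1
import Pool.Agent.MP_2339ce_nt.Q2.NC.L2
import Pool.Agent.MP_2339ce_nt.Q2.NC.L3
import Pool.Agent.MP_2339ce_nt.Q2.NC.L4
import Pool.Agent.MP_2339ce_nt.Q2.NC.L5
import Pool.Agent.MP_2339ce_nt.Q2.NC.L6
import Pool.Agent.MP_2339ce_nt.Q2.NC.L7
import Pool.Agent.MP_2339ce_nt.Q2.NC.L8
import Pool.Agent.MP_2339ce_nt.Q2.NC.L9
import Pool.Agent.MP_2339ce_nt.Q2.NC.L10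

/-! Project Q2: the regions that the sieve covers. -/

set_option autoImplicit false

noncomputable section

namespace Pool.Agent.MP_2339ce_nt.Q2.Top

def regT : Ct :=
  .nd 65 (.nd 17 (.nd 16 (.lf NR.L1) (.lf NR.L2)) (.nd 32 (.lf NR.L3) (.nd 33 (.lf NR.L4) (.lf
  NR.L5)))) (.nd 129 (.nd 128 (.lf NR.L6) (.lf NR.L7)) (.nd 182 (.lf NR.L8) (.nd 220 (.lf NR.L9)
  (.lf NR.L10))))

end Pool.Agent.MP_2339ce_nt.Q2.Top
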