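import Pool.Agent.MP_2339ce_nt.Q2.NRList
import Pool.Agent.MP_2339ce_nt.Q2.NRReg

/-! Project Q2, top: the rectangles lie in the regions. -/

set_option autoImplicit false

namespace Pool.Agent.MP_2339ce_nt.Q2.Top

open TB

theorem cov0 : covC regT rg0 = true := by decide +kernel

theorem cov1 : covC regT rg1 = true := by decide +kernel

theorem cov2 : covC regT rg2 = true := by decide +kernel

theorem cov3 : covC regT rg3 = true := by decide +kernel

theorem cov4 : covC regT rg4 = true := by decide +kernel

theorem cov5 : covC regT rg5 = true := by decide +kernel

theorem cov6 : covC regT rg6 = true := by decide +kernel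

theorem cov7 : covC regT rg7 = true := by decide +kernel

theorem cov8 : covC regT rg8 = true := by decide +kernel

theorem cov9 : covC regT rg9 = true := by decide +kernel

theorem cov10 : covC regT rg10 = true := by decide +kernel

theorem cov11 : covC regT rg11 = true := by decide +kernel

end Pool.Agent.MP_2339ce_nt.Q2.Top
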