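import Pool.Agent.MP_2339ce_nt.Q2.TCFast

/-! Project Q2, block TE: the checks that the data modules run. -/

set_option autoImplicit false

noncomputable section

namespace Pool.Agent.MP_2339ce_nt.Q2.TB

/-- a compressed form with its masks and absorbing terms -/
structure Cm where
  C : CF
  mP : ℕ
  mE : ℕ
  R : List Tm

def cmpAll (h : ℕ) (P E : List Tm) (L : List Cm) : Bool :=
  allA (fun x => Nat.beq x.C.h h && cmpOK2 P E x.C.B x.mP x.mE x.R x.C.P x.C.E) L

def subRc (x y : Rc) : Bool :=
  Nat.ble x.x1 y.x1 && Nat.ble y.x0 x.x0 && Nat.ble x.R y.R && Nat.ble y.N1 x.N1 &&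
    Nat.ble x.N2 y.N2 && Nat.ble y.a1 x.a1 && Nat.ble x.a2 y.a2

def subAll (r1 r2 : List Rc) : Bool := r1.all fun x => r2.any fun y => subRc x y

def topD (cfs : List CF) (wt : List Wn) (rs : List Rc) (T : Tr2) (B : Bx) : Bool :=
  chkD2 cfs wt T B && subAll (rectsD T []) rs

/-- data of a window for `e` -/
structure Ew where
  pr : ℕ
  B : Bx
  lo : Lf
  hi : Lf
  ws : List Wd

def Ew.wn (x : Ew) : Wn := eWn x.pr x.B x.lo x.hi

def eAll (cfs : List CF) (L : List Ew) : Bool := allA (fun x => eOK2 cfs x.B x.lo x.hi x.ws) L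

/-- all the members of a list have the property -/
def AO {α : Type} (p : α → Prop) (L : List α) : Prop :=
  @List.rec α (fun _ => Prop) True (fun x _ ih => p x ∧ ih) L

theorem AO_iff {α : Type} (p : α → Prop) (L : List α) : AO p L ↔ ∀ x ∈ L, p x := by
  induction L with
  | nil => exact ⟨fun _ _ h => absurd h List.not_mem_nil, fun _ => trivial⟩
  | cons x L ih =>
    rw [List.forall_mem_cons, ← ih]
    rfl

end Pool.Agent.MP_2339ce_nt.Q2.TB
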