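import Pool.Agent.MP_2339ce_nt.Q2.NRReg
import Pool.Agent.MP_2339ce_nt.Q2.TEDef
import Pool.Agent.MP_2339ce_nt.Q2.NC.A1
import Pool.Agent.MP_2339ce_nt.Q2.NC.A2
import Pool.Agent.MP_2339ce_nt.Q2.NC.A3
import Pool.Agent.MP_2339ce_nt.Q2.NC.A4
import Pool.Agent.MP_2339ce_nt.Q2.NC.A5
import Pool.Agent.MP_2339ce_nt.Q2.NC.A6
import Pool.Agent.MP_2339ce_nt.Q2.NC.A7
import Pool.Agent.MP_2339ce_nt.Q2.NC.A8
import Pool.Agent.MP_2339ce_nt.Q2.NC.A9
import Pool.Agent.MP_2339ce_nt.Q2.NC.A10

/-! Project Q2, top: the sieve has run for every `N`. -/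

set_option autoImplicit false

namespace Pool.Agent.MP_2339ce_nt.Q2.Top

open NR

/-- the sieve has run on the region of `N` -/
def Ran (N : ℕ) : Prop := OkQ ckI (regT.get N) N 1 1099511627776 0 34359738368 1 1099511627776

theorem ran0 : TB.AO Ran
    [1, 3, 4, 5, 7, 8, 9, 11, 12, 13, 15, 16, 17, 19, 20, 21, 23, 24, 25, 27, 28, 29, 31, 32] :=
  ⟨q1, q3, q4, q5, q7, q8, q9, q11, q12, q13, q15, q16, q17, q19, q20, q21, q23, q24, q25, q27,
    q28, q29, q31, q32, trivial⟩

theorem ran1 : TB.AO Ran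
    [33, 35, 36, 37, 39, 40, 41, 43, 44, 45, 47, 48, 49, 51, 52, 53, 55, 56, 57, 59, 60, 61, 63,
      64] :=
  ⟨q33, q35, q36, q37, q39, q40, q41, q43, q44, q45, q47, q48, q49, q51, q52, q53, q55, q56,
    q57, q59, q60, q61, q63, q64, trivial⟩

theorem ran2 : TB.AO Ran
    [65, 67, 68, 69, 71, 72, 73, 75, 76, 77, 79, 80, 81, 83, 84, 85, 87, 88, 89, 91, 92, 93, 95,
      96] :=
  ⟨q65, q67, q68, q69, q71, q72, q73, q75, q76, q77, q79, q80, q81, q83, q84, q85, q87, q88,
    q89, q91, q92, q93, q95, q96, trivial⟩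

theorem ran3 : TB.AO Ran
    [97, 99, 100, 101, 103, 104, 105, 107, 108, 109, 111, 112, 113, 115, 116, 117, 119, 120,
      121, 123, 124, 125, 127, 128] :=
  ⟨q97, q99, q100, q101, q103, q104, q105, q107, q108, q109, q111, q112, q113, q115, q116, q117,
    q119, q120, q121, q123, q124, q125, q127, q128, trivial⟩

theorem ran4 : TB.AO Ran
    [129, 131, 132, 133, 135, 136, 137, 139, 140, 141, 143, 144, 145, 147, 148, 149, 151, 152,
      153, 155, 156, 157, 159, 160] :=
  ⟨q129, q131, q132, q133, q135, q136, q137, q139, q140, q141, q143, q144, q145, q147, q148,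
    q149, q151, q152, q153, q155, q156, q157, q159, q160, trivial⟩

theorem ran5 : TB.AO Ran
    [161, 163, 164, 165, 167, 168, 169, 171, 172, 173, 175, 176, 177, 179, 180, 181, 183, 184,
      185, 187, 188, 189, 191, 192] :=
  ⟨q161, q163, q164, q165, q167, q168, q169, q171, q172, q173, q175, q176, q177, q179, q180,
    q181, q183, q184, q185, q187, q188, q189, q191, q192, trivial⟩

theorem ran6 : TB.AO Ran
    [193, 195, 196, 197, 199, 200, 201, 203, 204, 205, 207, 208, 209, 211, 212, 213, 215, 216,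
      217, 219, 220, 221, 223, 224] :=
  ⟨q193, q195, q196, q197, q199, q200, q201, q203, q204, q205, q207, q208, q209, q211, q212,
    q213, q215, q216, q217, q219, q220, q221, q223, q224, trivial⟩

theorem ran7 : TB.AO Ran
    [225, 227, 228, 229, 231, 232, 233, 235, 236, 237, 239, 240, 241, 243, 244, 245, 247, 248,
      249, 251, 252, 253] :=
  ⟨q225, q227, q228, q229, q231, q232, q233, q235, q236, q237, q239, q240, q241, q243, q244,
    q245, q247, q248, q249, q251, q252, q253, trivial⟩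

theorem ran (N : ℕ) (h1 : 1 ≤ N) (h2 : N ≤ 254) (h3 : N % 4 ≠ 2) : Ran N := by
  by_cases k0 : N ≤ 32
  · exact (TB.AO_iff _ _).1 ran0 N (by simp only [List.mem_cons]; omega)
  by_cases k1 : N ≤ 64
  · exact (TB.AO_iff _ _).1 ran1 N (by simp only [List.mem_cons]; omega)
  by_cases k2 : N ≤ 96
  · exact (TB.AO_iff _ _).1 ran2 N (by simp only [List.mem_cons]; omega)
  by_cases k3 : N ≤ 128
  · exact (TB.AO_iff _ _).1 ran3 N (by simp only [List.mem_cons]; omega)
  by_cases k4 : N ≤ 160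
  · exact (TB.AO_iff _ _).1 ran4 N (by simp only [List.mem_cons]; omega)
  by_cases k5 : N ≤ 192
  · exact (TB.AO_iff _ _).1 ran5 N (by simp only [List.mem_cons]; omega)
  by_cases k6 : N ≤ 224
  · exact (TB.AO_iff _ _).1 ran6 N (by simp only [List.mem_cons]; omega)
  exact (TB.AO_iff _ _).1 ran7 N (by simp only [List.mem_cons]; omega)

end Pool.Agent.MP_2339ce_nt.Q2.Top
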