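import Pool.Agent.MP_2339ce_nt.Q2.CovT
import Pool.Agent.MP_2339ce_nt.Q2.G.AO
import Pool.Agent.MP_2339ce_nt.Q2.G.T0
import Pool.Agent.MP_2339ce_nt.Q2.G.T1
import Pool.Agent.MP_2339ce_nt.Q2.G.T2
import Pool.Agent.MP_2339ce_nt.Q2.G.T3
import Pool.Agent.MP_2339ce_nt.Q2.G.T4
import Pool.Agent.MP_2339ce_nt.Q2.G.T5
import Pool.Agent.MP_2339ce_nt.Q2.G.T6
import Pool.Agent.MP_2339ce_nt.Q2.G.T7
import Pool.Agent.MP_2339ce_nt.Q2.G.T8
import Pool.Agent.MP_2339ce_nt.Q2.G.T9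
import Pool.Agent.MP_2339ce_nt.Q2.G.T10

/-! Project Q2: generated data. -/

set_option autoImplicit false
set_option maxRecDepth 100000

noncomputable section

namespace Pool.Agent.MP_2339ce_nt.Q2.TB

theorem tk {rs : List Rc} {L : List ℕ} {st fin : List Bx} (h : topK pl0 CT WT ST rs L st fin = true)
    (k : AO (fun B => Sem false B rs) fin) : AO (fun B => Sem false B rs) st :=
  topK_ok pl0_ok CT_ok WT_ok ST_ok h k

theorem yb00_1 : Sem false b00_1 rs0 :=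
  (tk kt00_0 <| tk kt00_1 <| tk kt00_2 <| trivial).1

theorem yb00_4 : Sem false b00_4 rs1 :=
  (tk kt00_3 <| trivial).1

theorem yb00_5 : Sem false b00_5 rs2 :=
  (tk kt00_4 <| tk kt00_5 <| trivial).1

theorem yb00_3 : Sem false b00_3 (rs1 ++ rs2) := nd_ok false b00_3 1 99 _ _ yb00_4 yb00_5
theorem yb00_7 : Sem false b00_7 rs3 :=
  (tk kt00_6 <| tk kt00_7 <| trivial).1

theorem yb00_9 : Sem false b00_9 rs4 :=
  (tk kt00_8 <| trivial).1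

theorem yb00_10 : Sem false b00_10 rs5 :=
  (tk kt00_9 <| tk kt00_10 <| trivial).1

theorem yb00_8 : Sem false b00_8 (rs4 ++ rs5) := nd_ok false b00_8 1 158 _ _ yb00_9 yb00_10
theorem yb00_6 : Sem false b00_6 (rs3 ++ (rs4 ++ rs5)) := nd_ok false b00_6 1 101 _ _ yb00_7 yb00_8
theorem yb00_2 : Sem false b00_2 ((rs1 ++ rs2) ++ (rs3 ++ (rs4 ++ rs5))) := nd_ok false b00_2 1 100 _ _ yb00_3 yb00_6
theorem yb00_0 : Sem false b00_0 (rs0 ++ ((rs1 ++ rs2) ++ (rs3 ++ (rs4 ++ rs5)))) := nd_ok false b00_0 1 1 _ _ yb00_1 yb00_2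
theorem yb01_3 : Sem false b01_3 rs6 :=
  (tk kt01_0 <| trivial).1

theorem yb01_4 : Sem false b01_4 rs7 :=
  (tk kt01_1 <| tk kt01_2 <| trivial).1

theorem yb01_2 : Sem false b01_2 (rs6 ++ rs7) := nd_ok false b01_2 1 199 _ _ yb01_3 yb01_4
theorem yb01_6 : Sem false b01_6 rs8 :=
  (tk kt01_3 <| tk kt01_4 <| trivial).1

theorem yb01_8 : Sem false b01_8 rs9 :=
  (tk kt01_5 <| trivial).1

theorem yb01_10 : Sem false b01_10 rs10 :=
  (tk kt01_6 <| tk kt01_7 <| trivial).1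

theorem yb01_12 : Sem false b01_12 rs11 :=
  (tk kt01_8 <| trivial).1

theorem yb01_14 : Sem false b01_14 rs12 :=
  (tk kt01_9 <| tk kt01_10 <| trivial).1

theorem yb01_16 : Sem false b01_16 rs13 :=
  (tk kt01_11 <| trivial).1

theorem yb01_18 : Sem false b01_18 rs14 :=
  (tk kt01_12 <| tk kt01_13 <| trivial).1

theorem yb01_21 : Sem false b01_21 rs15 :=
  (tk kt01_14 <| trivial).1

theorem yb01_22 : Sem false b01_22 rs16 :=
  (tk kt01_15 <| tk kt01_16 <| trivial).1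

theorem yb01_20 : Sem false b01_20 (rs15 ++ rs16) := nd_ok false b01_20 1 299 _ _ yb01_21 yb01_22
theorem yb01_23 : Sem false b01_23 rs17 :=
  (tk kt01_17 <| tk kt01_18 <| trivial).1

theorem yb01_19 : Sem false b01_19 ((rs15 ++ rs16) ++ rs17) := nd_ok false b01_19 1 300 _ _ yb01_20 yb01_23
theorem yb01_17 : Sem false b01_17 (rs14 ++ ((rs15 ++ rs16) ++ rs17)) := nd_ok false b01_17 1 282 _ _ yb01_18 yb01_19
theorem yb01_15 : Sem false b01_15 (rs13 ++ (rs14 ++ ((rs15 ++ rs16) ++ rs17))) := nd_ok false b01_15 1 280 _ _ yb01_16 yb01_17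
theorem yb01_13 : Sem false b01_13 (rs12 ++ (rs13 ++ (rs14 ++ ((rs15 ++ rs16) ++ rs17)))) := nd_ok false b01_13 1 260 _ _ yb01_14 yb01_15
theorem yb01_11 : Sem false b01_11 (rs11 ++ (rs12 ++ (rs13 ++ (rs14 ++ ((rs15 ++ rs16) ++ rs17))))) := nd_ok false b01_11 1 258 _ _ yb01_12 yb01_13
theorem yb01_9 : Sem false b01_9 (rs10 ++ (rs11 ++ (rs12 ++ (rs13 ++ (rs14 ++ ((rs15 ++ rs16) ++ rs17)))))) := nd_ok false b01_9 1 234 _ _ yb01_10 yb01_11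
theorem yb01_7 : Sem false b01_7 (rs9 ++ (rs10 ++ (rs11 ++ (rs12 ++ (rs13 ++ (rs14 ++ ((rs15 ++ rs16) ++ rs17))))))) := nd_ok false b01_7 1 232 _ _ yb01_8 yb01_9
theorem yb01_5 : Sem false b01_5 (rs8 ++ (rs9 ++ (rs10 ++ (rs11 ++ (rs12 ++ (rs13 ++ (rs14 ++ ((rs15 ++ rs16) ++ rs17)))))))) := nd_ok false b01_5 1 201 _ _ yb01_6 yb01_7
theorem yb01_1 : Sem false b01_1 ((rs6 ++ rs7) ++ (rs8 ++ (rs9 ++ (rs10 ++ (rs11 ++ (rs12 ++ (rs13 ++ (rs14 ++ ((rs15 ++ rs16) ++ rs17))))))))) := nd_ok false b01_1 1 200 _ _ yb01_2 yb01_5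
theorem yb01_24 : Sem false b01_24 rs18 :=
  (tk kt01_19 <| tk kt01_20 <| trivial).1

theorem yb01_0 : Sem false b01_0 (((rs6 ++ rs7) ++ (rs8 ++ (rs9 ++ (rs10 ++ (rs11 ++ (rs12 ++ (rs13 ++ (rs14 ++ ((rs15 ++ rs16) ++ rs17))))))))) ++ rs18) := nd_ok false b01_0 1 301 _ _ yb01_1 yb01_24
theorem yb02_1 : Sem false b02_1 rs19 :=
  (tk kt02_0 <| tk kt02_1 <| trivial).1

theorem yb02_2 : Sem false b02_2 rs20 :=
  (tk kt02_2 <| tk kt02_3 <| trivial).1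

theorem yb02_0 : Sem false b02_0 (rs19 ++ rs20) := nd_ok false b02_0 1 410 _ _ yb02_1 yb02_2
theorem yb03_1 : Sem false b03_1 rs21 :=
  (tk kt03_0 <| tk kt03_1 <| trivial).1

theorem yb03_3 : Sem false b03_3 rs22 :=
  (tk kt03_2 <| tk kt03_3 <| trivial).1

theorem yb03_4 : Sem false b03_4 rs23 :=
  (tk kt03_4 <| trivial).1

theorem yb03_2 : Sem false b03_2 (rs22 ++ rs23) := nd_ok false b03_2 1 700 _ _ yb03_3 yb03_4
theorem yb03_0 : Sem false b03_0 (rs21 ++ (rs22 ++ rs23)) := nd_ok false b03_0 1 600 _ _ yb03_1 yb03_2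
theorem yb04_1 : Sem false b04_1 rs24 :=
  (tk kt04_0 <| trivial).1

theorem yb04_3 : Sem false b04_3 rs25 :=
  (tk kt04_1 <| tk kt04_2 <| tk kt04_3 <| trivial).1

theorem yb04_5 : Sem false b04_5 rs26 :=
  (tk kt04_4 <| tk kt04_5 <| tk kt04_6 <| trivial).1

theorem yb04_6 : Sem false b04_6 rs27 :=
  (tk kt04_7 <| tk kt04_8 <| trivial).1

theorem yb04_4 : Sem false b04_4 (rs26 ++ rs27) := nd_ok false b04_4 1 1100 _ _ yb04_5 yb04_6
theorem yb04_2 : Sem false b04_2 (rs25 ++ (rs26 ++ rs27)) := nd_ok false b04_2 1 1000 _ _ yb04_3 yb04_4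
theorem yb04_0 : Sem false b04_0 (rs24 ++ (rs25 ++ (rs26 ++ rs27))) := nd_ok false b04_0 1 900 _ _ yb04_1 yb04_2
theorem yb05_1 : Sem false b05_1 rs28 :=
  (tk kt05_0 <| tk kt05_1 <| trivial).1

theorem yb05_3 : Sem false b05_3 rs29 :=
  (tk kt05_2 <| trivial).1

theorem yb05_5 : Sem false b05_5 rs30 :=
  (tk kt05_3 <| trivial).1

theorem yb05_6 : Sem false b05_6 rs31 :=
  (tk kt05_4 <| trivial).1

theorem yb05_4 : Sem false b05_4 (rs30 ++ rs31) := nd_ok false b05_4 1 1500 _ _ yb05_5 yb05_6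
theorem yb05_2 : Sem false b05_2 (rs29 ++ (rs30 ++ rs31)) := nd_ok false b05_2 1 1400 _ _ yb05_3 yb05_4
theorem yb05_0 : Sem false b05_0 (rs28 ++ (rs29 ++ (rs30 ++ rs31))) := nd_ok false b05_0 1 1300 _ _ yb05_1 yb05_2
theorem yb06_0 : Sem false b06_0 rs32 :=
  (tk kt06_0 <| trivial).1

theorem yb10_1 : Sem false b10_1 rs33 :=
  (tk kt10_0 <| tk kt10_1 <| tk kt10_2 <| tk kt10_3 <| tk kt10_4 <| tk kt10_5 <|
    tk kt10_6 <| tk kt10_7 <| tk kt10_8 <| tk kt10_9 <| tk kt10_10 <| tk kt10_11 <|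
    tk kt10_12 <| tk kt10_13 <| tk kt10_14 <| tk kt10_15 <| tk kt10_16 <| tk kt10_17 <|
    tk kt10_18 <| tk kt10_19 <| tk kt10_20 <| tk kt10_21 <| tk kt10_22 <| trivial).1

theorem yb10_4 : Sem false b10_4 rs34 :=
  (tk kt10_23 <| trivial).1

theorem yb10_5 : Sem false b10_5 rs35 :=
  (tk kt10_24 <| tk kt10_25 <| tk kt10_26 <| tk kt10_27 <| tk kt10_28 <| tk kt10_29 <|
    tk kt10_30 <| tk kt10_31 <| tk kt10_32 <| tk kt10_33 <| tk kt10_34 <| tk kt10_35 <|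
    tk kt10_36 <| trivial).1

theorem yb10_3 : Sem false b10_3 (rs34 ++ rs35) := nd_ok false b10_3 1 99 _ _ yb10_4 yb10_5
theorem yb10_7 : Sem false b10_7 rs36 :=
  (tk kt10_37 <| tk kt10_38 <| tk kt10_39 <| tk kt10_40 <| tk kt10_41 <| tk kt10_42 <|
    tk kt10_43 <| tk kt10_44 <| tk kt10_45 <| tk kt10_46 <| tk kt10_47 <| tk kt10_48 <|
    tk kt10_49 <| trivial).1

theorem yb10_9 : Sem false b10_9 rs37 :=
  (tk kt10_50 <| trivial).1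

theorem yb10_10 : Sem false b10_10 rs38 :=
  (tk kt10_51 <| tk kt10_52 <| tk kt10_53 <| tk kt10_54 <| tk kt10_55 <| tk kt10_56 <|
    tk kt10_57 <| tk kt10_58 <| tk kt10_59 <| tk kt10_60 <| tk kt10_61 <| trivial).1

theorem yb10_8 : Sem false b10_8 (rs37 ++ rs38) := nd_ok false b10_8 1 158 _ _ yb10_9 yb10_10
theorem yb10_6 : Sem false b10_6 (rs36 ++ (rs37 ++ rs38)) := nd_ok false b10_6 1 101 _ _ yb10_7 yb10_8
theorem yb10_2 : Sem false b10_2 ((rs34 ++ rs35) ++ (rs36 ++ (rs37 ++ rs38))) := nd_ok false b10_2 1 100 _ _ yb10_3 yb10_6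
theorem yb11_3 : Sem false b11_3 rs39 :=
  (tk kt11_0 <| trivial).1

theorem yb11_4 : Sem false b11_4 rs40 :=
  (tk kt11_1 <| tk kt11_2 <| tk kt11_3 <| tk kt11_4 <| tk kt11_5 <| tk kt11_6 <|
    tk kt11_7 <| tk kt11_8 <| tk kt11_9 <| trivial).1

theorem yb11_2 : Sem false b11_2 (rs39 ++ rs40) := nd_ok false b11_2 1 199 _ _ yb11_3 yb11_4
theorem yb11_6 : Sem false b11_6 rs41 :=
  (tk kt11_10 <| tk kt11_11 <| tk kt11_12 <| tk kt11_13 <| tk kt11_14 <| tk kt11_15 <|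
    tk kt11_16 <| tk kt11_17 <| tk kt11_18 <| tk kt11_19 <| trivial).1

theorem yb11_8 : Sem false b11_8 rs42 :=
  (tk kt11_20 <| trivial).1

theorem yb11_10 : Sem false b11_10 rs43 :=
  (tk kt11_21 <| tk kt11_22 <| tk kt11_23 <| tk kt11_24 <| tk kt11_25 <| tk kt11_26 <|
    tk kt11_27 <| tk kt11_28 <| trivial).1

theorem yb11_12 : Sem false b11_12 rs44 :=
  (tk kt11_29 <| trivial).1

theorem yb11_14 : Sem false b11_14 rs45 :=
  (tk kt11_30 <| tk kt11_31 <| tk kt11_32 <| tk kt11_33 <| tk kt11_34 <| tk kt11_35 <|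
    tk kt11_36 <| trivial).1

theorem yb11_16 : Sem false b11_16 rs46 :=
  (tk kt11_37 <| trivial).1

theorem yb11_18 : Sem false b11_18 rs47 :=
  (tk kt11_38 <| tk kt11_39 <| tk kt11_40 <| tk kt11_41 <| tk kt11_42 <| tk kt11_43 <|
    tk kt11_44 <| trivial).1

theorem yb11_21 : Sem false b11_21 rs48 :=
  (tk kt11_45 <| trivial).1

theorem yb11_22 : Sem false b11_22 rs49 :=
  (tk kt11_46 <| tk kt11_47 <| tk kt11_48 <| tk kt11_49 <| tk kt11_50 <| tk kt11_51 <|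
    trivial).1

theorem yb11_20 : Sem false b11_20 (rs48 ++ rs49) := nd_ok false b11_20 1 299 _ _ yb11_21 yb11_22
theorem yb11_23 : Sem false b11_23 rs50 :=
  (tk kt11_52 <| tk kt11_53 <| tk kt11_54 <| tk kt11_55 <| tk kt11_56 <| tk kt11_57 <|
    trivial).1

theorem yb11_19 : Sem false b11_19 ((rs48 ++ rs49) ++ rs50) := nd_ok false b11_19 1 300 _ _ yb11_20 yb11_23
theorem yb11_17 : Sem false b11_17 (rs47 ++ ((rs48 ++ rs49) ++ rs50)) := nd_ok false b11_17 1 282 _ _ yb11_18 yb11_19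
theorem yb11_15 : Sem false b11_15 (rs46 ++ (rs47 ++ ((rs48 ++ rs49) ++ rs50))) := nd_ok false b11_15 1 280 _ _ yb11_16 yb11_17
theorem yb11_13 : Sem false b11_13 (rs45 ++ (rs46 ++ (rs47 ++ ((rs48 ++ rs49) ++ rs50)))) := nd_ok false b11_13 1 260 _ _ yb11_14 yb11_15
theorem yb11_11 : Sem false b11_11 (rs44 ++ (rs45 ++ (rs46 ++ (rs47 ++ ((rs48 ++ rs49) ++ rs50))))) := nd_ok false b11_11 1 258 _ _ yb11_12 yb11_13
theorem yb11_24 : Sem false b11_24 rs51 :=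
  (tk kt11_58 <| tk kt11_59 <| tk kt11_60 <| tk kt11_61 <| tk kt11_62 <| tk kt11_63 <|
    trivial).1

theorem yb12_1 : Sem false b12_1 rs52 :=
  (tk kt12_0 <| tk kt12_1 <| tk kt12_2 <| tk kt12_3 <| tk kt12_4 <| tk kt12_5 <|
    tk kt12_6 <| tk kt12_7 <| tk kt12_8 <| tk kt12_9 <| tk kt12_10 <| tk kt12_11 <|
    tk kt12_12 <| tk kt12_13 <| tk kt12_14 <| trivial).1

theorem yb12_2 : Sem false b12_2 rs53 :=
  (tk kt12_15 <| tk kt12_16 <| tk kt12_17 <| tk kt12_18 <| tk kt12_19 <| tk kt12_20 <|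
    tk kt12_21 <| tk kt12_22 <| tk kt12_23 <| tk kt12_24 <| tk kt12_25 <| tk kt12_26 <|
    tk kt12_27 <| trivial).1

theorem yb12_0 : Sem false b12_0 (rs52 ++ rs53) := nd_ok false b12_0 1 410 _ _ yb12_1 yb12_2
theorem yb13_1 : Sem false b13_1 rs54 :=
  (tk kt13_0 <| tk kt13_1 <| tk kt13_2 <| tk kt13_3 <| tk kt13_4 <| tk kt13_5 <|
    tk kt13_6 <| tk kt13_7 <| tk kt13_8 <| tk kt13_9 <| tk kt13_10 <| trivial).1

theorem yb13_3 : Sem false b13_3 rs55 :=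
  (tk kt13_11 <| tk kt13_12 <| tk kt13_13 <| tk kt13_14 <| tk kt13_15 <| tk kt13_16 <|
    tk kt13_17 <| tk kt13_18 <| tk kt13_19 <| trivial).1

theorem yb13_4 : Sem false b13_4 rs56 :=
  (tk kt13_20 <| tk kt13_21 <| tk kt13_22 <| tk kt13_23 <| tk kt13_24 <| tk kt13_25 <|
    trivial).1

theorem yb13_2 : Sem false b13_2 (rs55 ++ rs56) := nd_ok false b13_2 1 700 _ _ yb13_3 yb13_4
theorem yb13_0 : Sem false b13_0 (rs54 ++ (rs55 ++ rs56)) := nd_ok false b13_0 1 600 _ _ yb13_1 yb13_2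
theorem yb14_1 : Sem false b14_1 rs57 :=
  (tk kt14_0 <| tk kt14_1 <| tk kt14_2 <| trivial).1

theorem yb14_3 : Sem false b14_3 rs58 :=
  (tk kt14_3 <| tk kt14_4 <| tk kt14_5 <| tk kt14_6 <| tk kt14_7 <| tk kt14_8 <|
    tk kt14_9 <| tk kt14_10 <| tk kt14_11 <| tk kt14_12 <| tk kt14_13 <| tk kt14_14 <|
    tk kt14_15 <| tk kt14_16 <| tk kt14_17 <| tk kt14_18 <| tk kt14_19 <| tk kt14_20 <|
    tk kt14_21 <| tk kt14_22 <| tk kt14_23 <| tk kt14_24 <| tk kt14_25 <| tk kt14_26 <|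
    trivial).1

theorem yb14_5 : Sem false b14_5 rs59 :=
  (tk kt14_27 <| tk kt14_28 <| tk kt14_29 <| tk kt14_30 <| tk kt14_31 <| tk kt14_32 <|
    tk kt14_33 <| tk kt14_34 <| tk kt14_35 <| tk kt14_36 <| tk kt14_37 <| tk kt14_38 <|
    tk kt14_39 <| tk kt14_40 <| tk kt14_41 <| tk kt14_42 <| tk kt14_43 <| tk kt14_44 <|
    tk kt14_45 <| tk kt14_46 <| tk kt14_47 <| tk kt14_48 <| tk kt14_49 <| tk kt14_50 <|
    tk kt14_51 <| tk kt14_52 <| trivial).1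

theorem yb14_6 : Sem false b14_6 rs60 :=
  (tk kt14_53 <| tk kt14_54 <| tk kt14_55 <| tk kt14_56 <| tk kt14_57 <| tk kt14_58 <|
    tk kt14_59 <| tk kt14_60 <| tk kt14_61 <| tk kt14_62 <| tk kt14_63 <| tk kt14_64 <|
    tk kt14_65 <| tk kt14_66 <| tk kt14_67 <| tk kt14_68 <| tk kt14_69 <| tk kt14_70 <|
    tk kt14_71 <| tk kt14_72 <| tk kt14_73 <| trivial).1

theorem yb14_4 : Sem false b14_4 (rs59 ++ rs60) := nd_ok false b14_4 1 1100 _ _ yb14_5 yb14_6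
theorem yb14_2 : Sem false b14_2 (rs58 ++ (rs59 ++ rs60)) := nd_ok false b14_2 1 1000 _ _ yb14_3 yb14_4
theorem yb14_0 : Sem false b14_0 (rs57 ++ (rs58 ++ (rs59 ++ rs60))) := nd_ok false b14_0 1 900 _ _ yb14_1 yb14_2
theorem yb15_1 : Sem false b15_1 rs61 :=
  (tk kt15_0 <| tk kt15_1 <| tk kt15_2 <| tk kt15_3 <| tk kt15_4 <| tk kt15_5 <|
    tk kt15_6 <| tk kt15_7 <| tk kt15_8 <| tk kt15_9 <| tk kt15_10 <| tk kt15_11 <|
    tk kt15_12 <| trivial).1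

theorem yb15_3 : Sem false b15_3 rs62 :=
  (tk kt15_13 <| tk kt15_14 <| tk kt15_15 <| tk kt15_16 <| tk kt15_17 <| tk kt15_18 <|
    tk kt15_19 <| tk kt15_20 <| tk kt15_21 <| trivial).1

theorem yb15_5 : Sem false b15_5 rs63 :=
  (tk kt15_22 <| tk kt15_23 <| tk kt15_24 <| tk kt15_25 <| tk kt15_26 <| tk kt15_27 <|
    tk kt15_28 <| tk kt15_29 <| tk kt15_30 <| tk kt15_31 <| trivial).1

theorem yb15_7 : Sem false b15_7 rs64 :=
  (tk kt15_32 <| tk kt15_33 <| tk kt15_34 <| tk kt15_35 <| tk kt15_36 <| tk kt15_37 <|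
    tk kt15_38 <| tk kt15_39 <| trivial).1

theorem yb15_8 : Sem false b15_8 rs65 :=
  (tk kt15_40 <| tk kt15_41 <| tk kt15_42 <| tk kt15_43 <| trivial).1

theorem yb15_6 : Sem false b15_6 (rs64 ++ rs65) := nd_ok false b15_6 1 1600 _ _ yb15_7 yb15_8
theorem yb15_4 : Sem false b15_4 (rs63 ++ (rs64 ++ rs65)) := nd_ok false b15_4 1 1500 _ _ yb15_5 yb15_6
theorem yb15_2 : Sem false b15_2 (rs62 ++ (rs63 ++ (rs64 ++ rs65))) := nd_ok false b15_2 1 1400 _ _ yb15_3 yb15_4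
theorem yb15_0 : Sem false b15_0 (rs61 ++ (rs62 ++ (rs63 ++ (rs64 ++ rs65)))) := nd_ok false b15_0 1 1300 _ _ yb15_1 yb15_2
theorem yb16_0 : Sem false b16_0 rs66 :=
  (tk kt16_0 <| tk kt16_1 <| tk kt16_2 <| trivial).1

theorem ya05 : Sem false a05 ((rs28 ++ (rs29 ++ (rs30 ++ rs31))) ++ rs32) := nd_ok false a05 1 1700 _ _ yb05_0 yb06_0
theorem ya04 : Sem false a04 ((rs24 ++ (rs25 ++ (rs26 ++ rs27))) ++ ((rs28 ++ (rs29 ++ (rs30 ++ rs31))) ++ rs32)) := nd_ok false a04 1 1200 _ _ yb04_0 ya05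
theorem ya03 : Sem false a03 ((rs21 ++ (rs22 ++ rs23)) ++ ((rs24 ++ (rs25 ++ (rs26 ++ rs27))) ++ ((rs28 ++ (rs29 ++ (rs30 ++ rs31))) ++ rs32))) := nd_ok false a03 1 800 _ _ yb03_0 ya04
theorem ya02 : Sem false a02 ((rs19 ++ rs20) ++ ((rs21 ++ (rs22 ++ rs23)) ++ ((rs24 ++ (rs25 ++ (rs26 ++ rs27))) ++ ((rs28 ++ (rs29 ++ (rs30 ++ rs31))) ++ rs32)))) := nd_ok false a02 1 500 _ _ yb02_0 ya03
theorem ya01 : Sem false a01 ((((rs6 ++ rs7) ++ (rs8 ++ (rs9 ++ (rs10 ++ (rs11 ++ (rs12 ++ (rs13 ++ (rs14 ++ ((rs15 ++ rs16) ++ rs17))))))))) ++ rs18) ++ ((rs19 ++ rs20) ++ ((rs21 ++ (rs22 ++ rs23)) ++ ((rs24 ++ (rs25 ++ (rs26 ++ rs27))) ++ ((rs28 ++ (rs29 ++ (rs30 ++ rs31))) ++ rs32))))) := nd_ok false a01 1 320 _ _ yb01_0 ya02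
theorem ya00 : Sem false a00 ((rs0 ++ ((rs1 ++ rs2) ++ (rs3 ++ (rs4 ++ rs5)))) ++ ((((rs6 ++ rs7) ++ (rs8 ++ (rs9 ++ (rs10 ++ (rs11 ++ (rs12 ++ (rs13 ++ (rs14 ++ ((rs15 ++ rs16) ++ rs17))))))))) ++ rs18) ++ ((rs19 ++ rs20) ++ ((rs21 ++ (rs22 ++ rs23)) ++ ((rs24 ++ (rs25 ++ (rs26 ++ rs27))) ++ ((rs28 ++ (rs29 ++ (rs30 ++ rs31))) ++ rs32)))))) := nd_ok false a00 1 160 _ _ yb00_0 ya01
theorem ya15 : Sem false a15 ((rs61 ++ (rs62 ++ (rs63 ++ (rs64 ++ rs65)))) ++ rs66) := nd_ok false a15 1 1700 _ _ yb15_0 yb16_0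
theorem ya14 : Sem false a14 ((rs57 ++ (rs58 ++ (rs59 ++ rs60))) ++ ((rs61 ++ (rs62 ++ (rs63 ++ (rs64 ++ rs65)))) ++ rs66)) := nd_ok false a14 1 1200 _ _ yb14_0 ya15

theorem semAll (T : Top.Ct)
    (h0 : Top.covC T rg0 = true)
    (h1 : Top.covC T rg1 = true)
    (h2 : Top.covC T rg2 = true)
    (h3 : Top.covC T rg3 = true)
    (h4 : Top.covC T rg4 = true)
    (h5 : Top.covC T rg5 = true)
    (h6 : Top.covC T rg6 = true)
    (h7 : Top.covC T rg7 = true)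
    (h8 : Top.covC T rg8 = true)
    (h9 : Top.covC T rg9 = true)
    (h10 : Top.covC T rg10 = true)
    (h11 : Top.covC T rg11 = true)
    : Top.SemT T root :=
  (Top.semT_nd (B := root) 0 601 (Top.semT_of (rs := rg11) ya00 h11)
    (Top.semT_nd (B := a10) 1 160 (Top.semT_nd (B := b10_0) 1 1 (Top.semT_of (rs := rg0) yb10_1 h0)
    (Top.semT_of (rs := rg1) yb10_2 h1))
    (Top.semT_nd (B := a11) 1 320 (Top.semT_nd (B := b11_0) 1 301 (Top.semT_nd (B := b11_1) 1 200 (Top.semT_of (rs := rg6) yb11_2 h6)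
    (Top.semT_nd (B := b11_5) 1 201 (Top.semT_of (rs := rg5) yb11_6 h5)
    (Top.semT_nd (B := b11_7) 1 232 (Top.semT_of (rs := rg4) yb11_8 h4)
    (Top.semT_nd (B := b11_9) 1 234 (Top.semT_of (rs := rg2) yb11_10 h2)
    (Top.semT_of (rs := rg3) yb11_11 h3)))))
    (Top.semT_of (rs := rg7) yb11_24 h7))
    (Top.semT_nd (B := a12) 1 500 (Top.semT_of (rs := rg10) yb12_0 h10)
    (Top.semT_nd (B := a13) 1 800 (Top.semT_of (rs := rg8) yb13_0 h8)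
    (Top.semT_of (rs := rg9) ya14 h9))))))

end Pool.Agent.MP_2339ce_nt.Q2.TB
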