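import Pool.Agent.MP_2339ce_nt.Q2.RJ
import Pool.Agent.MP_2339ce_nt.Q2.RS
import Pool.Agent.MP_2339ce_nt.Q2.Reg.R0
import Pool.Agent.MP_2339ce_nt.Q2.Reg.R1
import Pool.Agent.MP_2339ce_nt.Q2.Reg.R2
import Pool.Agent.MP_2339ce_nt.Q2.Reg.R3
import Pool.Agent.MP_2339ce_nt.Q2.Reg.R4
import Pool.Agent.MP_2339ce_nt.Q2.Reg.R5
import Pool.Agent.MP_2339ce_nt.Q2.Reg.R6
import Pool.Agent.MP_2339ce_nt.Q2.Reg.R7
import Pool.Agent.MP_2339ce_nt.Q2.Reg.R8
import Pool.Agent.MP_2339ce_nt.Q2.Reg.R9
import Pool.Agent.MP_2339ce_nt.Q2.Reg.R10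
import Pool.Agent.MP_2339ce_nt.Q2.Reg.R11
import Pool.Agent.MP_2339ce_nt.Q2.Reg.R12
import Pool.Agent.MP_2339ce_nt.Q2.Reg.R13
import Pool.Agent.MP_2339ce_nt.Q2.Reg.R14
import Pool.Agent.MP_2339ce_nt.Q2.Reg.R15
import Pool.Agent.MP_2339ce_nt.Q2.Reg.R16
import Pool.Agent.MP_2339ce_nt.Q2.Reg.R17
import Pool.Agent.MP_2339ce_nt.Q2.Reg.R18
import Pool.Agent.MP_2339ce_nt.Q2.Reg.R19
import Pool.Agent.MP_2339ce_nt.Q2.Reg.R20
import Pool.Agent.MP_2339ce_nt.Q2.Reg.R21
import Pool.Agent.MP_2339ce_nt.Q2.Reg.R22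
import Pool.Agent.MP_2339ce_nt.Q2.Reg.R23
import Pool.Agent.MP_2339ce_nt.Q2.Reg.R24
import Pool.Agent.MP_2339ce_nt.Q2.Reg.R25
import Pool.Agent.MP_2339ce_nt.Q2.Reg.R26
import Pool.Agent.MP_2339ce_nt.Q2.Reg.R27
import Pool.Agent.MP_2339ce_nt.Q2.Reg.R28
import Pool.Agent.MP_2339ce_nt.Q2.Reg.R29
import Pool.Agent.MP_2339ce_nt.Q2.Reg.R30
import Pool.Agent.MP_2339ce_nt.Q2.Reg.R31
import Pool.Agent.MP_2339ce_nt.Q2.Reg.R32
import Pool.Agent.MP_2339ce_nt.Q2.Reg.R33
import Pool.Agent.MP_2339ce_nt.Q2.Reg.R34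
import Pool.Agent.MP_2339ce_nt.Q2.Reg.R35
import Pool.Agent.MP_2339ce_nt.Q2.Reg.R36

/-! Block REG: the result. -/

set_option autoImplicit false
set_option maxRecDepth 100000

namespace Pool.Agent.MP_2339ce_nt.Q2.RG

theorem mm0 : cs0 ∈ csT := List.getElem_mem (l := csT) (n := 0) (by decide)

theorem k0t : tck cs0 436074685 64 T0x0 J0 = true := by decide +kernel

theorem mm1 : cs1 ∈ csT := List.getElem_mem (l := csT) (n := 1) (by decide)

theorem k1t : tck cs1 436074685 64 T1x0 J1 = true := by decide +kernel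

theorem mm2 : cs2 ∈ csT := List.getElem_mem (l := csT) (n := 2) (by decide)

theorem k2t : tck cs2 436074685 85 T2x0 J2 = true := by decide +kernel

theorem mm3 : cs3 ∈ csT := List.getElem_mem (l := csT) (n := 3) (by decide)

theorem k3t : tck cs3 436074685 106 T3x0 J3 = true := by decide +kernel

theorem mm4 : cs4 ∈ csT := List.getElem_mem (l := csT) (n := 4) (by decide)

theorem k4t : tck cs4 436074685 128 T4x0 J4 = true := by decide +kernel

theorem mm5 : cs5 ∈ csT := List.getElem_mem (l := csT) (n := 5) (by decide)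

theorem k5t : tck cs5 24296004000 154 T5x0 J5 = true := by decide +kernel

theorem mm6 : cs6 ∈ csT := List.getElem_mem (l := csT) (n := 6) (by decide)

theorem k6t : tck cs6 24296004000 181 T6x0 J6 = true := by decide +kernel

theorem mm7 : cs7 ∈ csT := List.getElem_mem (l := csT) (n := 7) (by decide)

theorem k7t : tck cs7 24296004000 430 T7x0 J7 = true := by decide +kernel

theorem mm8 : cs8 ∈ csT := List.getElem_mem (l := csT) (n := 8) (by decide)

theorem k8t : tck cs8 41719418556 487 T8x0 J8 = true := by decide +kernel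

theorem mm9 : cs9 ∈ csT := List.getElem_mem (l := csT) (n := 9) (by decide)

theorem k9t : tck cs9 41719418556 760 T9x0 J9 = true := by decide +kernel

theorem mm10 : cs10 ∈ csT := List.getElem_mem (l := csT) (n := 10) (by decide)

theorem k10t : tck cs10 143275403201 1160 T10x0 J10 = true := by decide +kernel

theorem mm11 : cs11 ∈ csT := List.getElem_mem (l := csT) (n := 11) (by decide)

theorem k11t : tck cs11 143275403201 1243 T11x0 J11 = true := by decide +kernel

theorem mm12 : cs12 ∈ csT := List.getElem_mem (l := csT) (n := 12) (by decide)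

theorem k12t : tck cs12 492045236319 1871 T12x0 J12 = true := by decide +kernel

theorem mm13 : cs13 ∈ csT := List.getElem_mem (l := csT) (n := 13) (by decide)

theorem k13t : tck cs13 492045236319 1978 T13x0 J13 = true := by decide +kernel

theorem mm14 : cs14 ∈ csT := List.getElem_mem (l := csT) (n := 14) (by decide)

theorem k14t : tck cs14 1450814290838 2936 T14x0 J14 = true := by decide +kernel

theorem mm15 : cs15 ∈ csT := List.getElem_mem (l := csT) (n := 15) (by decide)

theorem k15t : tck cs15 1450814290838 3061 T15x0 J15 = true := by decide +kernel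

theorem mm16 : cs16 ∈ csT := List.getElem_mem (l := csT) (n := 16) (by decide)

theorem k16t : tck cs16 3153300937809 3191 T16x0 J16 = true := by decide +kernel

theorem mm17 : cs17 ∈ csT := List.getElem_mem (l := csT) (n := 17) (by decide)

theorem k17t : tck cs17 3153300937809 4672 T17x0 J17 = true := by decide +kernel

theorem mm18 : cs18 ∈ csT := List.getElem_mem (l := csT) (n := 18) (by decide)

theorem k18t : tck cs18 5803257163349 4803 T18x0 J18 = true := by decide +kernel

theorem mm19 : cs19 ∈ csT := List.getElem_mem (l := csT) (n := 19) (by decide)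

theorem k19t : tck cs19 5803257163349 4973 T19x0 J19 = true := by decide +kernel

theorem mm20 : cs20 ∈ csT := List.getElem_mem (l := csT) (n := 20) (by decide)

theorem k20t : tck cs20 9427419075206 5113 T20x0 J20 = true := by decide +kernel

theorem mm21 : cs21 ∈ csT := List.getElem_mem (l := csT) (n := 21) (by decide)

theorem k21t : tck cs21 9427419075206 7383 T21x0 J21 = true := by decide +kernel

theorem mm22 : cs22 ∈ csT := List.getElem_mem (l := csT) (n := 22) (by decide)

theorem k22t : tck cs22 16188112345575 7590 T22x0 J22 = true := by decide +kernel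

theorem mm23 : cs23 ∈ csT := List.getElem_mem (l := csT) (n := 23) (by decide)

theorem k23t : tck cs23 16188112345575 7750 T23x0 J23 = true := by decide +kernel

theorem mm24 : cs24 ∈ csT := List.getElem_mem (l := csT) (n := 24) (by decide)

theorem k24t : tck cs24 27414416489230 7912 T24x0 J24 = true := by decide +kernel

theorem mm25 : cs25 ∈ csT := List.getElem_mem (l := csT) (n := 25) (by decide)

theorem k25t : tck cs25 27414416489230 8023 T25x0 J25 = true := by decide +kernel

theorem mm26 : cs26 ∈ csT := List.getElem_mem (l := csT) (n := 26) (by decide)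

theorem k26t : tck cs26 27414416489230 8192 T26x0 J26 = true := by decide +kernel

theorem o1 : Out csT 1 :=
  out3 mm0 k0t (by decide +kernel) (rdA 1) (fo64 1) (foB 1)
    t1x0

theorem o3 : Out csT 3 :=
  out0 mm1 k1t (by decide +kernel) (rdB 3 (by decide)) 
    t3x0

theorem o4 : Out csT 4 :=
  out3 mm1 k1t (by decide +kernel) (rdB 4 (by decide)) (fo64 4) (foB 4)
    t4x0

theorem o5 : Out csT 5 :=
  out1 mm2 k2t (by decide +kernel) (rdA 5) (foA 5)
    t5x0

theorem o7 : Out csT 7 :=
  out1 mm2 k2t (by decide +kernel) (rdA 7) (foB 7)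
    t7x0

theorem o8 : Out csT 8 :=
  out0 mm3 k3t (by decide +kernel) (rdB 8 (by decide)) 
    t8x0

theorem o9 : Out csT 9 :=
  out1 mm3 k3t (by decide +kernel) (rdA 9) (fo64 9)
    t9x0

theorem o11 : Out csT 11 :=
  out0 mm3 k3t (by decide +kernel) (rdB 11 (by decide)) 
    t11x0

theorem o12 : Out csT 12 :=
  out1 mm4 k4t (by decide +kernel) (rdC 12 (by decide)) (foA 12)
    t12x0

theorem o13 : Out csT 13 :=
  out3 mm4 k4t (by decide +kernel) (rdA 13) (foA 13) (foB 13)
    t13x0

theorem o15 : Out csT 15 :=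
  out0 mm4 k4t (by decide +kernel) (rdA 15) 
    t15x0

theorem o16 : Out csT 16 :=
  out1 mm4 k4t (by decide +kernel) (rdA 16) (foB 16)
    t16x0

theorem o17 : Out csT 17 :=
  out1 mm5 k5t (by decide +kernel) (rdA 17) (fo64 17)
    t17x0

theorem o19 : Out csT 19 :=
  out1 mm5 k5t (by decide +kernel) (rdB 19 (by decide)) (foB 19)
    t19x0

theorem o20 : Out csT 20 :=
  out1 mm5 k5t (by decide +kernel) (rdB 20 (by decide)) (fo64 20)
    t20x0

theorem o21 : Out csT 21 :=
  out1 mm5 k5t (by decide +kernel) (rdA 21) (foA 21)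
    t21x0

theorem o23 : Out csT 23 :=
  out0 mm5 k5t (by decide +kernel) (rdA 23) 
    t23x0

theorem o24 : Out csT 24 :=
  out0 mm6 k6t (by decide +kernel) (rdB 24 (by decide)) 
    t24x0

theorem o25 : Out csT 25 :=
  out3 mm6 k6t (by decide +kernel) (rdA 25) (fo64 25) (foB 25)
    t25x0

theorem o27 : Out csT 27 :=
  out0 mm6 k6t (by decide +kernel) (rdB 27 (by decide)) 
    t27x0

theorem o28 : Out csT 28 :=
  out1 mm6 k6t (by decide +kernel) (rdA 28) (foB 28)
    t28x0

theorem o29 : Out csT 29 :=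
  out1 mm6 k6t (by decide +kernel) (rdA 29) (foA 29)
    t29x0

theorem o31 : Out csT 31 :=
  out1 mm6 k6t (by decide +kernel) (rdA 31) (foB 31)
    t31x0

theorem o32 : Out csT 32 :=
  out0 mm6 k6t (by decide +kernel) (rdA 32) 
    t32x0

theorem o33 : Out csT 33 :=
  out1 mm7 k7t (by decide +kernel) (rdA 33) (fo64 33)
    t33x0

theorem o35 : Out csT 35 :=
  out0 mm7 k7t (by decide +kernel) (rdB 35 (by decide)) 
    t35x0

theorem o36 : Out csT 36 :=
  out1 mm7 k7t (by decide +kernel) (rdB 36 (by decide)) (fo64 36)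
    t36x0

theorem o37 : Out csT 37 :=
  out3 mm7 k7t (by decide +kernel) (rdA 37) (foA 37) (foB 37)
    t37x0

theorem o39 : Out csT 39 :=
  out0 mm7 k7t (by decide +kernel) (rdA 39) 
    t39x0

theorem o40 : Out csT 40 :=
  out1 mm7 k7t (by decide +kernel) (rdB 40 (by decide)) (foB 40)
    t40x0

theorem o41 : Out csT 41 :=
  out1 mm7 k7t (by decide +kernel) (rdA 41) (fo64 41)
    t41x0

theorem o43 : Out csT 43 :=
  out1 mm7 k7t (by decide +kernel) (rdB 43 (by decide)) (foB 43)
    t43x0

theorem o44 : Out csT 44 :=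
  out1 mm7 k7t (by decide +kernel) (rdC 44 (by decide)) (foA 44)
    t44x0

theorem o45 : Out csT 45 :=
  out1 mm7 k7t (by decide +kernel) (rdA 45) (foA 45)
    t45x0

theorem o47 : Out csT 47 :=
  out0 mm8 k8t (by decide +kernel) (rdA 47) 
    t47x0

theorem o48 : Out csT 48 :=
  out0 mm8 k8t (by decide +kernel) (rdA 48) 
    t48x0

theorem o49 : Out csT 49 :=
  out3 mm8 k8t (by decide +kernel) (rdA 49) (fo64 49) (foB 49)
    t49x0

theorem o51 : Out csT 51 :=
  out0 mm8 k8t (by decide +kernel) (rdB 51 (by decide)) 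
    t51x0

theorem o52 : Out csT 52 :=
  out3 mm8 k8t (by decide +kernel) (rdB 52 (by decide)) (fo64 52) (foB 52)
    t52x0

theorem o53 : Out csT 53 :=
  out1 mm8 k8t (by decide +kernel) (rdA 53) (foA 53)
    t53x0

theorem o55 : Out csT 55 :=
  out1 mm8 k8t (by decide +kernel) (rdA 55) (foB 55)
    t55x0

theorem o56 : Out csT 56 :=
  out0 mm8 k8t (by decide +kernel) (rdB 56 (by decide)) 
    t56x0

theorem o57 : Out csT 57 :=
  out1 mm8 k8t (by decide +kernel) (rdA 57) (fo64 57)
    t57x0

theorem o59 : Out csT 59 :=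
  out0 mm9 k9t (by decide +kernel) (rdB 59 (by decide)) 
    t59x0

theorem o60 : Out csT 60 :=
  out0 mm9 k9t (by decide +kernel) (rdA 60) 
    (ch2 t60x0 t60x1)

theorem o61 : Out csT 61 :=
  out3 mm9 k9t (by decide +kernel) (rdA 61) (foA 61) (foB 61)
    t61x0

theorem o63 : Out csT 63 :=
  out0 mm9 k9t (by decide +kernel) (rdA 63) 
    t63x0

theorem o64 : Out csT 64 :=
  out1 mm9 k9t (by decide +kernel) (rdA 64) (foB 64)
    t64x0

theorem o65 : Out csT 65 :=
  out1 mm9 k9t (by decide +kernel) (rdA 65) (fo64 65)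
    t65x0

theorem o67 : Out csT 67 :=
  out1 mm9 k9t (by decide +kernel) (rdB 67 (by decide)) (foB 67)
    t67x0

theorem o68 : Out csT 68 :=
  out1 mm9 k9t (by decide +kernel) (rdB 68 (by decide)) (fo64 68)
    t68x0

theorem o69 : Out csT 69 :=
  out1 mm9 k9t (by decide +kernel) (rdA 69) (foA 69)
    t69x0

theorem o71 : Out csT 71 :=
  out0 mm10 k10t (by decide +kernel) (rdA 71) 
    t71x0

theorem o72 : Out csT 72 :=
  out0 mm10 k10t (by decide +kernel) (rdB 72 (by decide)) 
    t72x0

theorem o73 : Out csT 73 :=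
  out3 mm10 k10t (by decide +kernel) (rdA 73) (fo64 73) (foB 73)
    t73x0

theorem o75 : Out csT 75 :=
  out0 mm10 k10t (by decide +kernel) (rdB 75 (by decide)) 
    t75x0

theorem o76 : Out csT 76 :=
  out3 mm10 k10t (by decide +kernel) (rdC 76 (by decide)) (foA 76) (foB 76)
    t76x0

theorem o77 : Out csT 77 :=
  out1 mm10 k10t (by decide +kernel) (rdA 77) (foA 77)
    t77x0

theorem o79 : Out csT 79 :=
  out1 mm10 k10t (by decide +kernel) (rdA 79) (foB 79)
    t79x0

theorem o80 : Out csT 80 :=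
  out0 mm10 k10t (by decide +kernel) (rdA 80) 
    (ch2 t80x0 t80x1)

theorem o81 : Out csT 81 :=
  out1 mm10 k10t (by decide +kernel) (rdA 81) (fo64 81)
    t81x0

theorem o83 : Out csT 83 :=
  out0 mm11 k11t (by decide +kernel) (rdB 83 (by decide)) 
    t83x0

theorem o84 : Out csT 84 :=
  out1 mm11 k11t (by decide +kernel) (rdB 84 (by decide)) (fo64 84)
    t84x0

theorem o85 : Out csT 85 :=
  out3 mm11 k11t (by decide +kernel) (rdA 85) (foA 85) (foB 85)
    t85x0

theorem o87 : Out csT 87 :=
  out0 mm11 k11t (by decide +kernel) (rdA 87) 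
    t87x0

theorem o88 : Out csT 88 :=
  out1 mm11 k11t (by decide +kernel) (rdB 88 (by decide)) (foB 88)
    t88x0

theorem o89 : Out csT 89 :=
  out1 mm11 k11t (by decide +kernel) (rdA 89) (fo64 89)
    t89x0

theorem o91 : Out csT 91 :=
  out1 mm11 k11t (by decide +kernel) (rdB 91 (by decide)) (foB 91)
    t91x0

theorem o92 : Out csT 92 :=
  out0 mm11 k11t (by decide +kernel) (rdA 92) 
    t92x0

theorem o93 : Out csT 93 :=
  out1 mm11 k11t (by decide +kernel) (rdA 93) (foA 93)
    t93x0

theorem o95 : Out csT 95 :=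
  out0 mm12 k12t (by decide +kernel) (rdA 95) 
    (ch2 t95x0 t95x1)

theorem o96 : Out csT 96 :=
  out0 mm12 k12t (by decide +kernel) (rdA 96) 
    t96x0

theorem o97 : Out csT 97 :=
  out3 mm12 k12t (by decide +kernel) (rdA 97) (fo64 97) (foB 97)
    t97x0

theorem o99 : Out csT 99 :=
  out0 mm12 k12t (by decide +kernel) (rdB 99 (by decide)) 
    t99x0

theorem o100 : Out csT 100 :=
  out3 mm12 k12t (by decide +kernel) (rdB 100 (by decide)) (fo64 100) (foB 100)
    t100x0

theorem o101 : Out csT 101 :=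
  out1 mm12 k12t (by decide +kernel) (rdA 101) (foA 101)
    t101x0

theorem o103 : Out csT 103 :=
  out1 mm12 k12t (by decide +kernel) (rdA 103) (foB 103)
    t103x0

theorem o104 : Out csT 104 :=
  out0 mm12 k12t (by decide +kernel) (rdB 104 (by decide)) 
    (ch2 t104x0 t104x1)

theorem o105 : Out csT 105 :=
  out1 mm12 k12t (by decide +kernel) (rdA 105) (fo64 105)
    t105x0

theorem o107 : Out csT 107 :=
  out0 mm13 k13t (by decide +kernel) (rdB 107 (by decide)) 
    t107x0

theorem o108 : Out csT 108 :=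
  out1 mm13 k13t (by decide +kernel) (rdC 108 (by decide)) (foA 108)
    t108x0

theorem o109 : Out csT 109 :=
  out3 mm13 k13t (by decide +kernel) (rdA 109) (foA 109) (foB 109)
    t109x0

theorem o111 : Out csT 111 :=
  out0 mm13 k13t (by decide +kernel) (rdA 111) 
    t111x0

theorem o112 : Out csT 112 :=
  out1 mm13 k13t (by decide +kernel) (rdA 112) (foB 112)
    (ch2 t112x0 t112x1)

theorem o113 : Out csT 113 :=
  out1 mm13 k13t (by decide +kernel) (rdA 113) (fo64 113)
    t113x0

theorem o115 : Out csT 115 :=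
  out1 mm13 k13t (by decide +kernel) (rdB 115 (by decide)) (foB 115)
    t115x0

theorem o116 : Out csT 116 :=
  out1 mm13 k13t (by decide +kernel) (rdB 116 (by decide)) (fo64 116)
    t116x0

theorem o117 : Out csT 117 :=
  out1 mm13 k13t (by decide +kernel) (rdA 117) (foA 117)
    t117x0

theorem o119 : Out csT 119 :=
  out0 mm14 k14t (by decide +kernel) (rdA 119) 
    t119x0

theorem o120 : Out csT 120 :=
  out0 mm14 k14t (by decide +kernel) (rdB 120 (by decide)) 
    (ch2 t120x0 t120x1)

theorem o121 : Out csT 121 :=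
  out3 mm14 k14t (by decide +kernel) (rdA 121) (fo64 121) (foB 121)
    t121x0

theorem o123 : Out csT 123 :=
  out0 mm14 k14t (by decide +kernel) (rdB 123 (by decide)) 
    t123x0

theorem o124 : Out csT 124 :=
  out1 mm14 k14t (by decide +kernel) (rdA 124) (foB 124)
    t124x0

theorem o125 : Out csT 125 :=
  out1 mm14 k14t (by decide +kernel) (rdA 125) (foA 125)
    t125x0

theorem o127 : Out csT 127 :=
  out1 mm14 k14t (by decide +kernel) (rdA 127) (foB 127)
    t127x0

theorem o128 : Out csT 128 :=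
  out0 mm14 k14t (by decide +kernel) (rdA 128) 
    (ch2 t128x0 t128x1)

theorem o129 : Out csT 129 :=
  out1 mm14 k14t (by decide +kernel) (rdA 129) (fo64 129)
    t129x0

theorem o131 : Out csT 131 :=
  out0 mm15 k15t (by decide +kernel) (rdB 131 (by decide)) 
    t131x0

theorem o132 : Out csT 132 :=
  out1 mm15 k15t (by decide +kernel) (rdB 132 (by decide)) (fo64 132)
    t132x0

theorem o133 : Out csT 133 :=
  out3 mm15 k15t (by decide +kernel) (rdA 133) (foA 133) (foB 133)
    t133x0

theorem o135 : Out csT 135 :=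
  out0 mm15 k15t (by decide +kernel) (rdA 135) 
    (ch2 t135x0 t135x1)

theorem o136 : Out csT 136 :=
  out1 mm15 k15t (by decide +kernel) (rdB 136 (by decide)) (foB 136)
    t136x0

theorem o137 : Out csT 137 :=
  out1 mm15 k15t (by decide +kernel) (rdA 137) (fo64 137)
    t137x0

theorem o139 : Out csT 139 :=
  out1 mm15 k15t (by decide +kernel) (rdB 139 (by decide)) (foB 139)
    t139x0

theorem o140 : Out csT 140 :=
  out1 mm15 k15t (by decide +kernel) (rdC 140 (by decide)) (foA 140)
    t140x0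

theorem o141 : Out csT 141 :=
  out1 mm15 k15t (by decide +kernel) (rdA 141) (foA 141)
    t141x0

theorem o143 : Out csT 143 :=
  out0 mm16 k16t (by decide +kernel) (rdA 143) 
    (ch2 t143x0 t143x1)

theorem o144 : Out csT 144 :=
  out0 mm16 k16t (by decide +kernel) (rdA 144) 
    t144x0

theorem o145 : Out csT 145 :=
  out3 mm16 k16t (by decide +kernel) (rdA 145) (fo64 145) (foB 145)
    t145x0

theorem o147 : Out csT 147 :=
  out0 mm16 k16t (by decide +kernel) (rdB 147 (by decide)) 
    (ch2 t147x0 t147x1)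

theorem o148 : Out csT 148 :=
  out3 mm16 k16t (by decide +kernel) (rdB 148 (by decide)) (fo64 148) (foB 148)
    t148x0

theorem o149 : Out csT 149 :=
  out1 mm16 k16t (by decide +kernel) (rdA 149) (foA 149)
    t149x0

theorem o151 : Out csT 151 :=
  out1 mm16 k16t (by decide +kernel) (rdA 151) (foB 151)
    t151x0

theorem o152 : Out csT 152 :=
  out0 mm16 k16t (by decide +kernel) (rdB 152 (by decide)) 
    t152x0

theorem o153 : Out csT 153 :=
  out1 mm16 k16t (by decide +kernel) (rdA 153) (fo64 153)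
    (ch2 t153x0 t153x1)

theorem o155 : Out csT 155 :=
  out0 mm17 k17t (by decide +kernel) (rdB 155 (by decide)) 
    t155x0

theorem o156 : Out csT 156 :=
  out0 mm17 k17t (by decide +kernel) (rdA 156) 
    t156x0

theorem o157 : Out csT 157 :=
  out3 mm17 k17t (by decide +kernel) (rdA 157) (foA 157) (foB 157)
    t157x0

theorem o159 : Out csT 159 :=
  out0 mm17 k17t (by decide +kernel) (rdA 159) 
    (ch2 t159x0 t159x1)

theorem o160 : Out csT 160 :=
  out1 mm17 k17t (by decide +kernel) (rdA 160) (foB 160)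
    t160x0

theorem o161 : Out csT 161 :=
  out1 mm17 k17t (by decide +kernel) (rdA 161) (fo64 161)
    t161x0

theorem o163 : Out csT 163 :=
  out1 mm17 k17t (by decide +kernel) (rdB 163 (by decide)) (foB 163)
    t163x0

theorem o164 : Out csT 164 :=
  out1 mm17 k17t (by decide +kernel) (rdB 164 (by decide)) (fo64 164)
    (ch2 t164x0 t164x1)

theorem o165 : Out csT 165 :=
  out1 mm17 k17t (by decide +kernel) (rdA 165) (foA 165)
    t165x0

theorem o167 : Out csT 167 :=
  out0 mm18 k18t (by decide +kernel) (rdA 167) 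
    t167x0

theorem o168 : Out csT 168 :=
  out0 mm18 k18t (by decide +kernel) (rdB 168 (by decide)) 
    (ch2 t168x0 t168x1)

theorem o169 : Out csT 169 :=
  out3 mm18 k18t (by decide +kernel) (rdA 169) (fo64 169) (foB 169)
    t169x0

theorem o171 : Out csT 171 :=
  out0 mm18 k18t (by decide +kernel) (rdB 171 (by decide)) 
    t171x0

theorem o172 : Out csT 172 :=
  out3 mm18 k18t (by decide +kernel) (rdC 172 (by decide)) (foA 172) (foB 172)
    t172x0

theorem o173 : Out csT 173 :=
  out1 mm18 k18t (by decide +kernel) (rdA 173) (foA 173)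
    t173x0

theorem o175 : Out csT 175 :=
  out1 mm18 k18t (by decide +kernel) (rdA 175) (foB 175)
    (ch2 t175x0 t175x1)

theorem o176 : Out csT 176 :=
  out0 mm18 k18t (by decide +kernel) (rdA 176) 
    t176x0

theorem o177 : Out csT 177 :=
  out1 mm19 k19t (by decide +kernel) (rdA 177) (fo64 177)
    t177x0

theorem o179 : Out csT 179 :=
  out0 mm19 k19t (by decide +kernel) (rdB 179 (by decide)) 
    (ch2 t179x0 t179x1)

theorem o180 : Out csT 180 :=
  out1 mm19 k19t (by decide +kernel) (rdB 180 (by decide)) (fo64 180)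
    t180x0

theorem o181 : Out csT 181 :=
  out3 mm19 k19t (by decide +kernel) (rdA 181) (foA 181) (foB 181)
    t181x0

theorem o183 : Out csT 183 :=
  out0 mm19 k19t (by decide +kernel) (rdA 183) 
    t183x0

theorem o184 : Out csT 184 :=
  out1 mm19 k19t (by decide +kernel) (rdB 184 (by decide)) (foB 184)
    (ch2 t184x0 t184x1)

theorem o185 : Out csT 185 :=
  out1 mm19 k19t (by decide +kernel) (rdA 185) (fo64 185)
    t185x0

theorem o187 : Out csT 187 :=
  out1 mm19 k19t (by decide +kernel) (rdB 187 (by decide)) (foB 187)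
    t187x0

theorem o188 : Out csT 188 :=
  out0 mm20 k20t (by decide +kernel) (rdA 188) 
    (ch2 t188x0 t188x1)

theorem o189 : Out csT 189 :=
  out1 mm20 k20t (by decide +kernel) (rdA 189) (foA 189)
    t189x0

theorem o191 : Out csT 191 :=
  out0 mm20 k20t (by decide +kernel) (rdA 191) 
    (ch2 t191x0 t191x1)

theorem o192 : Out csT 192 :=
  out0 mm20 k20t (by decide +kernel) (rdA 192) 
    t192x0

theorem o193 : Out csT 193 :=
  out3 mm20 k20t (by decide +kernel) (rdA 193) (fo64 193) (foB 193)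
    t193x0

theorem o195 : Out csT 195 :=
  out0 mm20 k20t (by decide +kernel) (rdB 195 (by decide)) 
    (ch2 t195x0 t195x1)

theorem o196 : Out csT 196 :=
  out3 mm20 k20t (by decide +kernel) (rdB 196 (by decide)) (fo64 196) (foB 196)
    t196x0

theorem o197 : Out csT 197 :=
  out1 mm20 k20t (by decide +kernel) (rdA 197) (foA 197)
    t197x0

theorem o199 : Out csT 199 :=
  out1 mm21 k21t (by decide +kernel) (rdA 199) (foB 199)
    t199x0

theorem o200 : Out csT 200 :=
  out0 mm21 k21t (by decide +kernel) (rdB 200 (by decide)) 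
    (ch2 t200x0 t200x1)

theorem o201 : Out csT 201 :=
  out1 mm21 k21t (by decide +kernel) (rdA 201) (fo64 201)
    t201x0

theorem o203 : Out csT 203 :=
  out0 mm21 k21t (by decide +kernel) (rdB 203 (by decide)) 
    t203x0

theorem o204 : Out csT 204 :=
  out1 mm21 k21t (by decide +kernel) (rdC 204 (by decide)) (foA 204)
    (ch2 t204x0 t204x1)

theorem o205 : Out csT 205 :=
  out3 mm21 k21t (by decide +kernel) (rdA 205) (foA 205) (foB 205)
    t205x0

theorem o207 : Out csT 207 :=
  out0 mm21 k21t (by decide +kernel) (rdA 207) 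
    t207x0

theorem o208 : Out csT 208 :=
  out1 mm22 k22t (by decide +kernel) (rdA 208) (foB 208)
    (ch2 t208x0 t208x1)

theorem o209 : Out csT 209 :=
  out1 mm22 k22t (by decide +kernel) (rdA 209) (fo64 209)
    t209x0

theorem o211 : Out csT 211 :=
  out1 mm22 k22t (by decide +kernel) (rdB 211 (by decide)) (foB 211)
    t211x0

theorem o212 : Out csT 212 :=
  out1 mm22 k22t (by decide +kernel) (rdB 212 (by decide)) (fo64 212)
    t212x0

theorem o213 : Out csT 213 :=
  out1 mm22 k22t (by decide +kernel) (rdA 213) (foA 213)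
    (ch2 t213x0 t213x1)

theorem o215 : Out csT 215 :=
  out0 mm22 k22t (by decide +kernel) (rdA 215) 
    (ch2 t215x0 t215x1)

theorem o216 : Out csT 216 :=
  out0 mm22 k22t (by decide +kernel) (rdB 216 (by decide)) 
    t216x0

theorem o217 : Out csT 217 :=
  out3 mm22 k22t (by decide +kernel) (rdA 217) (fo64 217) (foB 217)
    t217x0

theorem o219 : Out csT 219 :=
  out0 mm23 k23t (by decide +kernel) (rdB 219 (by decide)) 
    (ch2 t219x0 t219x1)

theorem o220 : Out csT 220 :=
  out1 mm23 k23t (by decide +kernel) (rdA 220) (foB 220)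
    t220x0

theorem o221 : Out csT 221 :=
  out1 mm23 k23t (by decide +kernel) (rdA 221) (foA 221)
    t221x0

theorem o223 : Out csT 223 :=
  out1 mm23 k23t (by decide +kernel) (rdA 223) (foB 223)
    (ch2 t223x0 t223x1)

theorem o224 : Out csT 224 :=
  out0 mm23 k23t (by decide +kernel) (rdA 224) 
    (ch2 t224x0 t224x1)

theorem o225 : Out csT 225 :=
  out1 mm23 k23t (by decide +kernel) (rdA 225) (fo64 225)
    t225x0

theorem o227 : Out csT 227 :=
  out0 mm23 k23t (by decide +kernel) (rdB 227 (by decide)) 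
    t227x0

theorem o228 : Out csT 228 :=
  out1 mm24 k24t (by decide +kernel) (rdB 228 (by decide)) (fo64 228)
    t228x0

theorem o229 : Out csT 229 :=
  out3 mm24 k24t (by decide +kernel) (rdA 229) (foA 229) (foB 229)
    (ch2 t229x0 t229x1)

theorem o231 : Out csT 231 :=
  out0 mm24 k24t (by decide +kernel) (rdA 231) 
    (ch2 t231x0 t231x1)

theorem o232 : Out csT 232 :=
  out1 mm24 k24t (by decide +kernel) (rdB 232 (by decide)) (foB 232)
    t232x0

theorem o233 : Out csT 233 :=
  out1 mm24 k24t (by decide +kernel) (rdA 233) (fo64 233)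
    t233x0

theorem o235 : Out csT 235 :=
  out1 mm24 k24t (by decide +kernel) (rdB 235 (by decide)) (foB 235)
    t235x0

theorem o236 : Out csT 236 :=
  out1 mm24 k24t (by decide +kernel) (rdC 236 (by decide)) (foA 236)
    (ch2 t236x0 t236x1)

theorem o237 : Out csT 237 :=
  out1 mm25 k25t (by decide +kernel) (rdA 237) (foA 237)
    t237x0

theorem o239 : Out csT 239 :=
  out0 mm25 k25t (by decide +kernel) (rdA 239) 
    (ch2 t239x0 t239x1)

theorem o240 : Out csT 240 :=
  out0 mm25 k25t (by decide +kernel) (rdA 240) 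
    (ch2 t240x0 t240x1)

theorem o241 : Out csT 241 :=
  out3 mm25 k25t (by decide +kernel) (rdA 241) (fo64 241) (foB 241)
    t241x0

theorem o243 : Out csT 243 :=
  out0 mm25 k25t (by decide +kernel) (rdB 243 (by decide)) 
    t243x0

theorem o244 : Out csT 244 :=
  out3 mm25 k25t (by decide +kernel) (rdB 244 (by decide)) (fo64 244) (foB 244)
    t244x0

theorem o245 : Out csT 245 :=
  out1 mm25 k25t (by decide +kernel) (rdA 245) (foA 245)
    (ch2 t245x0 t245x1)

theorem o247 : Out csT 247 :=
  out1 mm26 k26t (by decide +kernel) (rdA 247) (foB 247)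
    t247x0

theorem o248 : Out csT 248 :=
  out0 mm26 k26t (by decide +kernel) (rdB 248 (by decide)) 
    (ch2 t248x0 t248x1)

theorem o249 : Out csT 249 :=
  out1 mm26 k26t (by decide +kernel) (rdA 249) (fo64 249)
    t249x0

theorem o251 : Out csT 251 :=
  out0 mm26 k26t (by decide +kernel) (rdB 251 (by decide)) 
    t251x0

theorem o252 : Out csT 252 :=
  out0 mm26 k26t (by decide +kernel) (rdA 252) 
    (ch2 t252x0 t252x1)

theorem o253 : Out csT 253 :=
  out3 mm26 k26t (by decide +kernel) (rdA 253) (foA 253) (foB 253)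
    t253x0

theorem regAll : ∀ N : ℕ, 1 ≤ N → N ≤ 254 → N % 4 ≠ 2 → Out csT N
  | 0, h, _, _ => absurd h (by decide)
  | 1, _, _, _ => o1
  | 2, _, _, h => absurd rfl h
  | 3, _, _, _ => o3
  | 4, _, _, _ => o4
  | 5, _, _, _ => o5
  | 6, _, _, h => absurd rfl h
  | 7, _, _, _ => o7
  | 8, _, _, _ => o8
  | 9, _, _, _ => o9
  | 10, _, _, h => absurd rfl h
  | 11, _, _, _ => o11
  | 12, _, _, _ => o12
  | 13, _, _, _ => o13
  | 14, _, _, h => absurd rfl h
  | 15, _, _, _ => o15
  | 16, _, _, _ => o16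
  | 17, _, _, _ => o17
  | 18, _, _, h => absurd rfl h
  | 19, _, _, _ => o19
  | 20, _, _, _ => o20
  | 21, _, _, _ => o21
  | 22, _, _, h => absurd rfl h
  | 23, _, _, _ => o23
  | 24, _, _, _ => o24
  | 25, _, _, _ => o25
  | 26, _, _, h => absurd rfl h
  | 27, _, _, _ => o27
  | 28, _, _, _ => o28
  | 29, _, _, _ => o29
  | 30, _, _, h => absurd rfl h
  | 31, _, _, _ => o31
  | 32, _, _, _ => o32
  | 33, _, _, _ => o33
  | 34, _, _, h => absurd rfl h
  | 35, _, _, _ => o35
  | 36, _, _, _ => o36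
  | 37, _, _, _ => o37
  | 38, _, _, h => absurd rfl h
  | 39, _, _, _ => o39
  | 40, _, _, _ => o40
  | 41, _, _, _ => o41
  | 42, _, _, h => absurd rfl h
  | 43, _, _, _ => o43
  | 44, _, _, _ => o44
  | 45, _, _, _ => o45
  | 46, _, _, h => absurd rfl h
  | 47, _, _, _ => o47
  | 48, _, _, _ => o48
  | 49, _, _, _ => o49
  | 50, _, _, h => absurd rfl h
  | 51, _, _, _ => o51
  | 52, _, _, _ => o52
  | 53, _, _, _ => o53
  | 54, _, _, h => absurd rfl h
  | 55, _, _, _ => o55
  | 56, _, _, _ => o56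
  | 57, _, _, _ => o57
  | 58, _, _, h => absurd rfl h
  | 59, _, _, _ => o59
  | 60, _, _, _ => o60
  | 61, _, _, _ => o61
  | 62, _, _, h => absurd rfl h
  | 63, _, _, _ => o63
  | 64, _, _, _ => o64
  | 65, _, _, _ => o65
  | 66, _, _, h => absurd rfl h
  | 67, _, _, _ => o67
  | 68, _, _, _ => o68
  | 69, _, _, _ => o69
  | 70, _, _, h => absurd rfl h
  | 71, _, _, _ => o71
  | 72, _, _, _ => o72
  | 73, _, _, _ => o73
  | 74, _, _, h => absurd rfl h
  | 75, _, _, _ => o75
  | 76, _, _, _ => o76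
  | 77, _, _, _ => o77
  | 78, _, _, h => absurd rfl h
  | 79, _, _, _ => o79
  | 80, _, _, _ => o80
  | 81, _, _, _ => o81
  | 82, _, _, h => absurd rfl h
  | 83, _, _, _ => o83
  | 84, _, _, _ => o84
  | 85, _, _, _ => o85
  | 86, _, _, h => absurd rfl h
  | 87, _, _, _ => o87
  | 88, _, _, _ => o88
  | 89, _, _, _ => o89
  | 90, _, _, h => absurd rfl h
  | 91, _, _, _ => o91
  | 92, _, _, _ => o92
  | 93, _, _, _ => o93
  | 94, _, _, h => absurd rfl h
  | 95, _, _, _ => o95
  | 96, _, _, _ => o96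
  | 97, _, _, _ => o97
  | 98, _, _, h => absurd rfl h
  | 99, _, _, _ => o99
  | 100, _, _, _ => o100
  | 101, _, _, _ => o101
  | 102, _, _, h => absurd rfl h
  | 103, _, _, _ => o103
  | 104, _, _, _ => o104
  | 105, _, _, _ => o105
  | 106, _, _, h => absurd rfl h
  | 107, _, _, _ => o107
  | 108, _, _, _ => o108
  | 109, _, _, _ => o109
  | 110, _, _, h => absurd rfl h
  | 111, _, _, _ => o111
  | 112, _, _, _ => o112
  | 113, _, _, _ => o113
  | 114, _, _, h => absurd rfl h
  | 115, _, _, _ => o115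
  | 116, _, _, _ => o116
  | 117, _, _, _ => o117
  | 118, _, _, h => absurd rfl h
  | 119, _, _, _ => o119
  | 120, _, _, _ => o120
  | 121, _, _, _ => o121
  | 122, _, _, h => absurd rfl h
  | 123, _, _, _ => o123
  | 124, _, _, _ => o124
  | 125, _, _, _ => o125
  | 126, _, _, h => absurd rfl h
  | 127, _, _, _ => o127
  | 128, _, _, _ => o128
  | 129, _, _, _ => o129
  | 130, _, _, h => absurd rfl h
  | 131, _, _, _ => o131
  | 132, _, _, _ => o132
  | 133, _, _, _ => o133
  | 134, _, _, h => absurd rfl h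
  | 135, _, _, _ => o135
  | 136, _, _, _ => o136
  | 137, _, _, _ => o137
  | 138, _, _, h => absurd rfl h
  | 139, _, _, _ => o139
  | 140, _, _, _ => o140
  | 141, _, _, _ => o141
  | 142, _, _, h => absurd rfl h
  | 143, _, _, _ => o143
  | 144, _, _, _ => o144
  | 145, _, _, _ => o145
  | 146, _, _, h => absurd rfl h
  | 147, _, _, _ => o147
  | 148, _, _, _ => o148
  | 149, _, _, _ => o149
  | 150, _, _, h => absurd rfl h
  | 151, _, _, _ => o151
  | 152, _, _, _ => o152
  | 153, _, _, _ => o153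
  | 154, _, _, h => absurd rfl h
  | 155, _, _, _ => o155
  | 156, _, _, _ => o156
  | 157, _, _, _ => o157
  | 158, _, _, h => absurd rfl h
  | 159, _, _, _ => o159
  | 160, _, _, _ => o160
  | 161, _, _, _ => o161
  | 162, _, _, h => absurd rfl h
  | 163, _, _, _ => o163
  | 164, _, _, _ => o164
  | 165, _, _, _ => o165
  | 166, _, _, h => absurd rfl h
  | 167, _, _, _ => o167
  | 168, _, _, _ => o168
  | 169, _, _, _ => o169
  | 170, _, _, h => absurd rfl h
  | 171, _, _, _ => o171
  | 172, _, _, _ => o172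
  | 173, _, _, _ => o173
  | 174, _, _, h => absurd rfl h
  | 175, _, _, _ => o175
  | 176, _, _, _ => o176
  | 177, _, _, _ => o177
  | 178, _, _, h => absurd rfl h
  | 179, _, _, _ => o179
  | 180, _, _, _ => o180
  | 181, _, _, _ => o181
  | 182, _, _, h => absurd rfl h
  | 183, _, _, _ => o183
  | 184, _, _, _ => o184
  | 185, _, _, _ => o185
  | 186, _, _, h => absurd rfl h
  | 187, _, _, _ => o187
  | 188, _, _, _ => o188
  | 189, _, _, _ => o189
  | 190, _, _, h => absurd rfl h
  | 191, _, _, _ => o191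
  | 192, _, _, _ => o192
  | 193, _, _, _ => o193
  | 194, _, _, h => absurd rfl h
  | 195, _, _, _ => o195
  | 196, _, _, _ => o196
  | 197, _, _, _ => o197
  | 198, _, _, h => absurd rfl h
  | 199, _, _, _ => o199
  | 200, _, _, _ => o200
  | 201, _, _, _ => o201
  | 202, _, _, h => absurd rfl h
  | 203, _, _, _ => o203
  | 204, _, _, _ => o204
  | 205, _, _, _ => o205
  | 206, _, _, h => absurd rfl h
  | 207, _, _, _ => o207
  | 208, _, _, _ => o208
  | 209, _, _, _ => o209
  | 210, _, _, h => absurd rfl h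
  | 211, _, _, _ => o211
  | 212, _, _, _ => o212
  | 213, _, _, _ => o213
  | 214, _, _, h => absurd rfl h
  | 215, _, _, _ => o215
  | 216, _, _, _ => o216
  | 217, _, _, _ => o217
  | 218, _, _, h => absurd rfl h
  | 219, _, _, _ => o219
  | 220, _, _, _ => o220
  | 221, _, _, _ => o221
  | 222, _, _, h => absurd rfl h
  | 223, _, _, _ => o223
  | 224, _, _, _ => o224
  | 225, _, _, _ => o225
  | 226, _, _, h => absurd rfl h
  | 227, _, _, _ => o227
  | 228, _, _, _ => o228
  | 229, _, _, _ => o229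
  | 230, _, _, h => absurd rfl h
  | 231, _, _, _ => o231
  | 232, _, _, _ => o232
  | 233, _, _, _ => o233
  | 234, _, _, h => absurd rfl h
  | 235, _, _, _ => o235
  | 236, _, _, _ => o236
  | 237, _, _, _ => o237
  | 238, _, _, h => absurd rfl h
  | 239, _, _, _ => o239
  | 240, _, _, _ => o240
  | 241, _, _, _ => o241
  | 242, _, _, h => absurd rfl h
  | 243, _, _, _ => o243
  | 244, _, _, _ => o244
  | 245, _, _, _ => o245
  | 246, _, _, h => absurd rfl h
  | 247, _, _, _ => o247
  | 248, _, _, _ => o248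
  | 249, _, _, _ => o249
  | 250, _, _, h => absurd rfl h
  | 251, _, _, _ => o251
  | 252, _, _, _ => o252
  | 253, _, _, _ => o253
  | 254, _, _, h => absurd rfl h
  | _ + 255, _, h, _ => absurd h (by omega)

end Pool.Agent.MP_2339ce_nt.Q2.RG
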