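import Pool.Agent.MP_2339ce_nt.Q2.Top6
import Pool.Agent.MP_2339ce_nt.Q2.RFin
import Pool.Agent.MP_2339ce_nt.Q2.NRRan
import Pool.Agent.MP_2339ce_nt.Q2.NRCov
import Pool.Agent.MP_2339ce_nt.Q2.NRSem

/-! Project Q2: the theorem. -/

set_option autoImplicit false

namespace Pool.Agent.MP_2339ce_nt.Q2.Top

theorem main : IsGreatest {n : ℤ | n ≤ -1 ∧ ∃ s : Finset ℤ, s.card = 5 ∧ (∀ a ∈ s, a ≠ 0) ∧
    ∀ a ∈ s, ∀ b ∈ s, a ≠ b → IsSquare (a * b + n)} (-255) :=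
  all RG.regAll fun N h1 h2 h3 => lstJ h1 h2 (TB.semAll regT cov0 cov1 cov2 cov3 cov4 cov5 cov6
    cov7 cov8 cov9 cov10 cov11) (ran N h1 h2 h3)

end Pool.Agent.MP_2339ce_nt.Q2.Top
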