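import Pool.Agent.MP_2339ce_nt.Q2.EQ

/-! Project EX: further quadruples. -/

set_option autoImplicit false
set_option maxRecDepth 100000

namespace Pool.Agent.MP_2339ce_nt.EX

def x141 : List Q4 := [
  (1, 6541, 31825, 67222)]

def x145 : List Q4 := [
  (1, 5474, 352981, 446369)]

def x152 : List Q4 := [
  (1, 1596, 51681, 71441)]

def x157 : List Q4 := [
  (1, 782, 54913, 68801)]

def x161 : List Q4 := [
  (1, 7905, 58242, 109061)]

def x165 : List Q4 := [
  (1, 8446, 55861, 107749)]

def x189 : List Q4 := [
  (1, 1150, 30465, 43453), (5, 1881, 76670, 102569)]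

def x208 : List Q4 := [
  (1, 2912, 131977, 174097)]

def x209 : List Q4 := [
  (7, 1635, 74087, 97734)]

def x221 : List Q4 := [
  (1, 621, 30150, 39425)]

def x225 : List Q4 := [
  (1, 14625, 157834, 268549), (1, 16354, 85489, 176625)]

def x233 : List Q4 := [
  (1, 30509, 30858, 122733)]

def x237 : List Q4 := [
  (1, 14878, 501501, 689137), (1, 31566, 31921, 126973)]

def x241 : List Q4 := [
  (1, 32641, 33002, 131285)]

def x245 : List Q4 := [
  (1, 33734, 34101, 135669)]

def x249 : List Q4 := [
  (1, 34845, 35218, 140125)]

def x253 : List Q4 := [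
  (1, 35974, 36353, 144653)]

def QX : List (List Q4) := [
  [], [], [], [], [], [], [], [], [], [], [], [], [], [], [], [], [], [], [], [], [], [], [], [],
  [], [], [], [], [], [], [], [], [], [], [], [], [], [], [], [], [], [], [], [], [], [], [], [],
  [], [], [], [], [], [], [], [], [], [], [], [], [], [], [], [], [], [], [], [], [], [], [], [],
  [], [], [], [], [], [], [], [], [], [], [], [], [], [], [], [], [], [], [], [], [], [], [], [],
  [], [], [], [], [], [], [], [], [], [], [], [], [], [], [], [], [], [], [], [], [], [], [], [],
  [], [], [], [], [], [], [], [], [], [], [], [], [], [], [], [], [], [], [], [], [], x141, [], [],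
  [], x145, [], [], [], [], [], [], x152, [], [], [], [], x157, [], [], [], x161, [], [], [], x165,
  [], [], [], [], [], [], [], [], [], [], [], [], [], [], [], [], [], [], [], [], [], [], [], x189,
  [], [], [], [], [], [], [], [], [], [], [], [], [], [], [], [], [], [], x208, x209, [], [], [],
  [], [], [], [], [], [], [], [], x221, [], [], [], x225, [], [], [], [], [], [], [], x233, [], [],
  [], x237, [], [], [], x241, [], [], [], x245, [], [], [], x249, [], [], [], x253, []]

/-- all the listed quadruples for `N` -/
noncomputable def qf (N : ℕ) : List Q4 := nth QX N ++ ql N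

end Pool.Agent.MP_2339ce_nt.EX
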