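import Pool.Agent.MP_2339ce_nt.Q2.RProg
import Pool.Agent.MP_2339ce_nt.Q2.EQb

/-! Project Q2: the check of one triple that the sieve calls. -/

set_option autoImplicit false

noncomputable section

namespace Pool.Agent.MP_2339ce_nt.Q2.Top

/-- all `d ≤ Y ^ 2 b ^ 3 c` that extend `a, b, c` are listed -/
def ckG (Y W N a b c r s t : ℕ) : Bool :=
  RG.gen N W a b c r s t (Nat.mul (Nat.mul Y (Nat.add t (nat_lit 16)))
    (Nat.pow (Nat.add r (nat_lit 16)) (nat_lit 2))) (EX.inL (EX.qf N) a b c)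

end Pool.Agent.MP_2339ce_nt.Q2.Top

end
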