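import Pool.Agent.MP_2339ce_nt.Q2.RProg
import Pool.Agent.MP_2339ce_nt.Q2.EQb

/-! Project Q2: the check of one triple that the sieve calls, for `d ≤ 2 ^ 25 (N b c) ^ 2`. -/

set_option autoImplicit false

noncomputable section

namespace Pool.Agent.MP_2339ce_nt.Q2.Top

/-- `k x`, with `x` computed first -/
def fr (x : ℕ) (k : ℕ → Bool) : Bool :=
  @Nat.rec (fun _ => Bool) false (fun n _ => k n) (Nat.succ x)

/-- the bound for `√(a d - N)` -/
def gH (N a t : ℕ) : ℕ :=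
  Nat.mul (Nat.shiftLeft (Nat.mul (nat_lit 11586) N) (Nat.div (Nat.log2 a) (nat_lit 2)))
    (Nat.pow (Nat.add t (nat_lit 16)) (nat_lit 2))

/-- the precision -/
def wH (b c G : ℕ) : ℕ :=
  Nat.shiftLeft (Nat.mul (Nat.mul G G) (Nat.succ (Nat.div c b))) (nat_lit 64)

/-- all `d ≤ 2 ^ 25 (N b c) ^ 2` that extend `a, b, c` are listed -/
def ckH (N a b c r s t : ℕ) : Bool :=
  fr (gH N a t) fun G => fr (wH b c G) fun W =>
    RG.gen N W a b c r s t G (EX.inL (EX.qf N) a b c)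

end Pool.Agent.MP_2339ce_nt.Q2.Top

end
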