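import Pool.Agent.MP_2339ce_nt.Q2.NRSpec

/-! Block NR: bit patterns and the lists of moduli. -/

set_option autoImplicit false

noncomputable section

namespace Pool.Agent.MP_2339ce_nt.NR

namespace Bit

theorem ones_eq (n : ℕ) : ones n = 2 ^ n - 1 := by
  show 1 <<< n - 1 = _
  rw [Nat.one_shiftLeft]

theorem ones_bit (n k : ℕ) : (ones n).testBit k = true ↔ k < n := by
  rw [ones_eq, Nat.testBit_two_pow_sub_one, decide_eq_true_iff]

def R (p : ℕ) : ℕ → ℕ
  | 0 => 0
  | c + 1 => 2 ^ p * R p c + 1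

theorem R_mul (p c : ℕ) : (2 ^ p - 1) * R p c + 1 = 2 ^ (p * c) := by
  induction c with
  | zero => simp [R]
  | succ c ih =>
    obtain ⟨q, hq⟩ : ∃ q, 2 ^ p = q + 1 := ⟨2 ^ p - 1, by have := Nat.two_pow_pos p; omega⟩
    rw [R, Nat.mul_succ p, Nat.pow_add, ← ih, hq, Nat.add_sub_cancel]
    simp only [Nat.mul_add, Nat.add_mul, Nat.mul_one, Nat.one_mul, Nat.mul_assoc]
    have : q * (q * R p c) = q * (R p c * q) := by rw [Nat.mul_comm (R p c)]
    omega

theorem rep_eq {p : ℕ} (hp : 1 ≤ p) (c : ℕ) : rep p c = R p c := by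
  show ones (p * c) / ones p = _
  have h : 1 < 2 ^ p := Nat.one_lt_two_pow (by omega)
  rw [ones_eq, ones_eq, ← R_mul, Nat.add_sub_cancel, Nat.mul_div_cancel_left _ (by omega)]

theorem R_bit {p w : ℕ} (hw : w < 2 ^ p) (c : ℕ) : ∀ k, k < p * c → w.testBit (k % p) = true →
    (w * R p c).testBit k = true := by
  induction c with
  | zero => intro k hk; omega
  | succ c ih =>
    intro k hk h
    rw [R, Nat.mul_add, Nat.mul_one, Nat.mul_left_comm, Nat.testBit_two_pow_mul_add _ hw]
    rw [Nat.mul_succ] at hk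
    split_ifs with h1
    · rwa [Nat.mod_eq_of_lt h1] at h
    · exact ih _ (by omega) (by rwa [← Nat.mod_eq_sub_mod (by omega)])

theorem hor_bit (W j k : ℕ) (f : ℕ → ℕ) (hk : k < W) (h : (f j).testBit k = true) (n : ℕ)
    (hj : j < n) : (hor W f n).testBit (W * j + k) = true := by
  induction n with
  | zero => omega
  | succ n ih =>
    show (((ones W &&& f n) <<< (W * n)) ||| hor W f n).testBit _ = true
    rw [Nat.testBit_or, Bool.or_eq_true]
    rcases Nat.lt_succ_iff_lt_or_eq.1 hj with h1 | rfl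
    · exact Or.inr (ih h1)
    · left
      rw [Nat.testBit_shiftLeft, Nat.add_sub_cancel_left, Nat.testBit_and, (ones_bit W k).2 hk, h]
      simp

def D (n m : ℕ) : ℕ → ℕ → ℕ :=
  @Nat.rec (fun _ => ℕ → ℕ → ℕ) (fun _ _ => ones n) (fun _ ih P T =>
    @Bool.rec (fun _ => ℕ) (ih (Nat.mul 2 P) (Nat.lor T (Nat.shiftLeft T P))) (Nat.land (ones n) T)
      (Nat.ble n P)) m

theorem D_bit {n k : ℕ} (hk : k < n) (m : ℕ) : ∀ P T, 0 < P → T.testBit (k % P) = true →
    (D n m P T).testBit k = true := by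
  induction m with
  | zero => exact fun _ _ _ _ => (ones_bit n k).2 hk
  | succ m ih =>
    intro P T hP h
    show (@Bool.rec (fun _ => ℕ) (D n m (2 * P) (T ||| T <<< P)) (ones n &&& T)
      (Nat.ble n P)).testBit k = true
    cases e : Nat.ble n P with
    | true =>
      have h1 : n ≤ P := Nat.le_of_ble_eq_true e
      show (ones n &&& T).testBit k = true
      rw [Nat.mod_eq_of_lt (by omega)] at h
      rw [Nat.testBit_and, (ones_bit n k).2 hk, h]
      rfl
    | false =>
      refine ih (2 * P) _ (by omega) ?_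
      have h1 : k % (2 * P) % P = k % P := Nat.mod_mul_left_mod k 2 P
      have h2 : k % (2 * P) < 2 * P := Nat.mod_lt _ (by omega)
      rw [Nat.testBit_or, Bool.or_eq_true]
      by_cases h3 : k % (2 * P) < P
      · left
        rwa [← h1, Nat.mod_eq_of_lt h3] at h
      · right
        rw [← h1, Nat.mod_eq_sub_mod (by omega), Nat.mod_eq_of_lt (by omega)] at h
        rw [Nat.testBit_shiftLeft, h]
        simpa using h3

theorem pick {F : ML → Prop} {x y : ML} {b : Bool} (h0 : F x) (h1 : b = true → F y) :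
    F (@Bool.rec (fun _ => ML) x y b) := by
  cases b
  exacts [h0, h1 rfl]

end Bit

open Bit

theorem bit_ok : S_BIT := by
  refine ⟨ones_bit, fun p Q k => ?_, fun p len w k hp hw hk h => ?_,
    fun W n j k f hj hk h => hor_bit W j k f hk h n hj, fun n P T k hP hk h => D_bit hk 40 P T hP h⟩
  · have h1 : cut p Q k ≤ ones p := Nat.and_le_left
    have := Nat.two_pow_pos p
    rw [ones_eq] at h1
    omega
  · show (w * rep p (len / p + 2)).testBit k = true
    rw [rep_eq hp]
    refine R_bit hw _ k ?_ h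
    have := Nat.lt_mul_div_succ len (show 0 < p from hp)
    rw [Nat.mul_add] at this ⊢
    omega

theorem stp_ok : S_STP := by
  refine ⟨fun M Z lo pd l => ?_, fun M pd pd' l hp => ?_, fun M pd m l => ?_⟩
  · induction l with
    | nil => exact fun _ => trivial
    | cons p I T S Q L t ih =>
      rintro ⟨⟨h1, h2, h3⟩, h4⟩
      have h5 := ih h4
      refine pick (F := Stp M pd) h5 fun e => ?_
      have h6 : p ≤ pd := by
        cases e' : Nat.ble p pd with
        | true => exact Nat.le_of_ble_eq_true e'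
        | false => rw [e'] at e; exact absurd e Bool.false_ne_true
      refine pick (F := Stp M pd) (pick (F := Stp M pd) h5 fun e' => ?_) fun _ => h5
      exact ⟨⟨h1, h2, h3, h6, Nat.mod_lt _ (by omega), Nat.eq_of_beq_eq_true e'⟩, h5⟩
  · induction l with
    | nil => exact fun _ => trivial
    | cons p I T S Q L t ih =>
      rintro ⟨⟨h1, h2, h3, h4, h5⟩, h6⟩
      exact ⟨⟨h1, h2, h3, h4.trans hp, h5⟩, ih h6⟩
  · induction l with
    | nil => exact fun _ => ⟨trivial, trivial⟩
    | cons p I T S Q L t ih =>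
      rintro ⟨h1, h2⟩
      obtain ⟨h3, h4⟩ := ih h2
      exact pick (F := fun l => Stp M pd l ∧ l.All fun p _ _ _ _ _ => p ∣ m) ⟨h3, h4⟩
        fun e => ⟨⟨h1, h3⟩, Nat.dvd_of_mod_eq_zero (Nat.eq_of_beq_eq_true e), h4⟩

end Pool.Agent.MP_2339ce_nt.NR
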