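import Mathlib.Data.Nat.ModEq
import Mathlib.Data.Int.ModEq
import Mathlib.Data.Nat.Bitwise
import Pool.Agent.MP_2339ce_nt.Q2.NRTab

/-! Block NR: the row statements. -/

set_option autoImplicit false

noncomputable section

namespace Pool.Agent.MP_2339ce_nt.NR

def ML.All (F : ℕ → ℕ → ℕ → ℕ → ℕ → ℕ → Prop) : ML → Prop
  | ML.nil => True
  | ML.cons p I T S Q L t => F p I T S Q L ∧ ML.All F t

def PL.All (F : ℕ → ℕ → ℕ → Prop) : PL → Prop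
  | PL.nil => True
  | PL.cons p i B t => F p i B ∧ PL.All F t

def RowOk (p T S Q : ℕ) : Prop := ∀ g d j z : ℕ, g < p → j < p →
  z ^ 2 ≡ g * j ^ 2 + d [MOD p] → (rowp p T S Q g d).testBit j = true

def LinOk (p L : ℕ) : Prop := ∀ i j z : ℕ, i < p → j < p →
  z ^ 2 ≡ i * j [MOD p] → (cut p L i).testBit j = true

def Good (l : ML) : Prop := l.All fun p _ T S Q L => 2 ≤ p ∧ RowOk p T S Q ∧ LinOk p L

/-- good tables, moduli up to `pd`, with the inverse of `M` -/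
def Stp (M pd : ℕ) (l : ML) : Prop := l.All fun p i T S Q L =>
  2 ≤ p ∧ RowOk p T S Q ∧ LinOk p L ∧ p ≤ pd ∧ i < p ∧ M * i % p = 1

/-- the bit `n` is set in all the shifted patterns -/
def Hit (u n : ℕ) (l : PL) : Prop := l.All fun p i B => B.testBit (u * i % p + n) = true

def Sq (A1 B1 A2 B2 Q1 Q2 h v : ℕ) : Prop :=
  ∃ z : ℤ, z ^ 2 = ((h : ℤ) ^ 2 + A1 - B1) * ((v : ℤ) ^ 2 + A2 - B2) + Q1 - Q2

/-- a triple, with `x = a t - r s` -/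
structure Tp (N a b c r s t x : ℕ) : Prop where
  hN : 0 < N
  ha : 0 < a
  hab : a < b
  hbc : b < c
  hr : r ^ 2 + N = a * b
  hs : s ^ 2 + N = a * c
  ht : t ^ 2 + N = b * c
  hx : x + r * s = a * t

/-- `|2 r x - N s|` -/
def ww (N r s x : ℕ) : ℕ := ab (2 * (r * x)) (N * s)

/-- the coordinate along which a job is cut into residue classes -/
def vv (lv : ℕ) (o : Bool) (N r s x : ℕ) : ℕ :=
  if lv = 0 then (if o = true then r else x)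
  else if lv = 1 then (if o = true then ww N r s x else x)
  else (if o = true then r else ww N r s x)

/-- the check holds for all triples in the box with `x ≠ N` -/
def Ok (ck : Ck) (N P mk a1 a2 r0 r1 x0 x1 : ℕ) : Prop :=
  ∀ a b c r s t x : ℕ, Tp N a b c r s t x → el P mk a = true → x ≠ N → a1 ≤ a → a < a2 →
    r0 ≤ r → r < r1 → x0 ≤ x → x < x1 → ck N a b c r s t = true

/-- the same for some of the residue classes -/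
def OkT (ck : Ck) (N P mk lv : ℕ) (o : Bool) (m a1 a2 r0 r1 x0 x1 u0 u1 : ℕ) : Prop :=
  ∀ a b c r s t x : ℕ, Tp N a b c r s t x → el P mk a = true → x ≠ N → a1 ≤ a → a < a2 →
    r0 ≤ r → r < r1 → x0 ≤ x → x < x1 → u0 ≤ vv lv o N r s x % (a * m) / a →
    vv lv o N r s x % (a * m) / a < u1 → ck N a b c r s t = true

def S_TAB : Prop := Good mA

def S_STP : Prop :=
  (∀ (M Z lo pd : ℕ) (l : ML), Good l → Stp M pd (stp M Z lo pd l)) ∧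
  (∀ (M pd pd' : ℕ) (l : ML), pd ≤ pd' → Stp M pd l → Stp M pd' l) ∧
  ∀ (M pd m : ℕ) (l : ML), Stp M pd l →
    Stp M pd (whl m l) ∧ (whl m l).All fun p _ _ _ _ _ => p ∣ m

def S_BIT : Prop :=
  (∀ n k : ℕ, (ones n).testBit k = true ↔ k < n) ∧
  (∀ p Q k : ℕ, cut p Q k < 2 ^ p) ∧
  (∀ p len w k : ℕ, 1 ≤ p → w < 2 ^ p → k < len + p → w.testBit (k % p) = true →
    (per p len w).testBit k = true) ∧
  (∀ (W n j k : ℕ) (f : ℕ → ℕ), j < n → k < W → (f j).testBit k = true →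
    (hor W f n).testBit (W * j + k) = true) ∧
  ∀ n P T k : ℕ, 0 < P → k < n → T.testBit (k % P) = true → (dbl n P T).testBit k = true

def S_EXT : Prop :=
  (∀ (u n : ℕ) (l : PL) (acc : ℕ), Hit u n l → acc.testBit n = true →
    (ands u l acc).testBit n = true ∧ (an0 u l acc).testBit n = true) ∧
  (∀ (f : ℕ → Bool) (U acc n : ℕ), ext f U acc = true → acc.testBit n = true → f n = true) ∧
  (∀ (f : ℕ → Bool) (s z : ℕ), sqf f s (z ^ 2) = true → f z = true) ∧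
  (∀ (f : ℕ → Bool) (t0 n t : ℕ), rng f t0 n = true → t0 ≤ t → t < t0 + n → f t = true) ∧
  (∀ M H h : ℕ, 0 < M → H ≤ h →
    H ≤ fst M H (h % M) ∧ ∃ k, h = fst M H (h % M) + M * k) ∧
  ∀ p A B : ℕ, 0 < p → df p A B < p ∧ (df p A B : ℤ) ≡ A - B [ZMOD p]

def S_CLS : Prop :=
  (∀ (a δ E s len pd j z : ℕ) (l : ML) (f : ℕ → Bool), Stp a pd l → E ≤ len →
    rts a δ E s (lin len l) f = true → z ^ 2 = a * j + δ → j < E → f z = true) ∧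
  ∀ (a A B len pd h : ℕ) (l : ML) (f : ℕ → Bool), 0 < a → Stp a pd l → a / 4 + 1 ≤ len →
    cls a (df a B A) (lin len l) f = true → (a : ℤ) ∣ (h : ℤ) ^ 2 + A - B → f (h % a) = true

def S_RW : Prop := ∀ p T S Q M m2 A1 B1 A2 B2 Q1 Q2 h v k v' : ℕ, 2 ≤ p → RowOk p T S Q →
  Sq A1 B1 A2 B2 Q1 Q2 h v → h ≡ M * k [MOD p] → v ≡ v' [MOD p] → m2 ≡ M * M [MOD p] →
    rw1 p T S Q m2 (df p A1 B1) (df p A2 B2) (df p Q1 Q2) v' < 2 ^ p ∧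
    (rw1 p T S Q m2 (df p A1 B1) (df p A2 B2) (df p Q1 Q2) v').testBit (k % p) = true

def S_QROW : Prop := ∀ (M pd len A1 B1 A2 B2 Q1 Q2 h v u k v' : ℕ) (l : ML), Stp M pd l →
  Sq A1 B1 A2 B2 Q1 Q2 h v → k < len →
  (l.All fun p _ _ _ _ _ => h ≡ u + M * k [MOD p] ∧ v ≡ v' [MOD p]) →
    Hit u k (qrow M len A1 B1 A2 B2 Q1 Q2 v' l)

def S_BASE : Prop := ∀ (M pd K J J' A1 B1 A2 B2 Q1 Q2 h v k j : ℕ) (l : ML), Stp M pd l →
  Sq A1 B1 A2 B2 Q1 Q2 (h + M * k) (v + M * j) → k < K → j < J' → j < J →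
    Hit h ((K + pd) * j + k)
      (shf (K + pd) (ones ((K + pd) * J')) v (base M (K + pd) J A1 B1 A2 B2 Q1 Q2 l))

def S_RECT : Prop := ∀ (ml : ML) (p0 pd pl : ℕ) (test : ℕ → ℕ → Bool)
  (a m H0 H1 V0 V1 A1 B1 A2 B2 Q1 Q2 Z t0 tn h v : ℕ), Good ml →
  rect ml p0 pd pl test a m H0 H1 V0 V1 A1 B1 A2 B2 Q1 Q2 Z t0 tn = true →
  H0 ≤ h → h < H1 → V0 ≤ v → v < V1 → (a : ℤ) ∣ (h : ℤ) ^ 2 + A1 - B1 →
  (a : ℤ) ∣ (v : ℤ) ^ 2 + A2 - B2 → Sq A1 B1 A2 B2 Q1 Q2 h v →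
  t0 ≤ v % (a * m) / a → v % (a * m) / a < t0 + tn → test h v = true

def S_ROWS : Prop := ∀ (ml : ML) (pd pl : ℕ) (test : ℕ → ℕ → Bool) (N a R x0 x1 Z r x : ℕ),
  Good ml → rows ml pd pl test N a R x0 x1 Z = true → r < R → x0 ≤ x → x < x1 → x ≠ N →
  (a : ℤ) ∣ (r : ℤ) ^ 2 + N - (0 : ℕ) → (a : ℤ) ∣ (x : ℤ) ^ 2 + (0 : ℕ) - (N * N : ℕ) →
  Sq N 0 0 (N * N) (a * a * (N * N)) 0 r x → test r x = true

def S_ALG : Prop := ∀ N a b c r s t x : ℕ, Tp N a b c r s t x →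
  (∃ Y : ℕ, N * s = r * x + Y ∧ Y ^ 2 + (r ^ 2 + N) * N ^ 2 = (r ^ 2 + N) * x ^ 2 + a ^ 2 * N ^ 2) ∧
  (a : ℤ) ∣ (r : ℤ) ^ 2 + N - (0 : ℕ) ∧ (a : ℤ) ∣ (x : ℤ) ^ 2 + (0 : ℕ) - (N * N : ℕ) ∧
  (a : ℤ) ∣ (ww N r s x : ℤ) ^ 2 + cb N - (0 : ℕ) ∧
  Sq N 0 0 (N * N) (a * a * (N * N)) 0 r x ∧
  Sq (cb N) 0 0 (N * N) (a * a * (N * cb N)) 0 (ww N r s x) x ∧
  Sq N 0 (cb N) 0 0 (a * a * cb N) r (ww N r s x)

def S_TST : Prop := ∀ N a b c r s t x : ℕ, Tp N a b c r s t x →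
  (∀ (ck : Ck) (r0 r1 x0 x1 : ℕ), t0 ck N a r0 r1 x0 x1 r x = true → x ≠ N → r0 ≤ r → r < r1 →
    x0 ≤ x → x < x1 → ck N a b c r s t = true) ∧
  (∀ f : ℕ → ℕ → Bool, tA f N a (ww N r s x) x = true → f r x = true) ∧
  ∀ f : ℕ → ℕ → Bool, tB f N a r (ww N r s x) = true → f r x = true

def S_WB : Prop := ∀ N a b c r s t x r0 r1 x0 x1 Wb : ℕ, Tp N a b c r s t x →
  wOK N r0 r1 x0 x1 Wb = true → r0 ≤ r → r < r1 → x0 ≤ x → x < x1 → ww N r s x < Wb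

def S_JOB : Prop := ∀ (ck : Ck) (ml : ML) (N P mk : ℕ) (j : Jb) (a1 a2 r0 r1 x0 x1 u0 u1 : ℕ),
  Good ml → jbT ck ml N P mk j a1 a2 r0 r1 x0 x1 u0 u1 = true →
    OkT ck N P mk j.lv j.o j.m a1 a2 r0 r1 x0 x1 u0 u1

def S_RUN : Prop := ∀ (ck : Ck) (ml : ML) (N P mk : ℕ) (pl : Pl) (a1 a2 r0 r1 x0 x1 : ℕ),
  Good ml → run ck ml N P mk pl a1 a2 r0 r1 x0 x1 = true → Ok ck N P mk a1 a2 r0 r1 x0 x1

def R_CLS : Prop := S_BIT → S_EXT → S_CLS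

def R_RW : Prop := S_BIT → S_EXT → S_RW ∧ S_QROW

def R_BASE : Prop := S_BIT → S_RW → S_BASE

def R_RECT : Prop := S_STP → S_BIT → S_EXT → S_CLS → S_QROW → S_BASE → S_RECT

def R_ROWS : Prop := S_STP → S_BIT → S_EXT → S_CLS → S_QROW → S_ROWS

def R_TST : Prop := S_EXT → S_ALG → S_TST

def R_WB : Prop := S_ALG → S_WB

def R_JOB : Prop := S_EXT → S_RECT → S_ROWS → S_ALG → S_TST → S_WB → S_JOB ∧ S_RUN

end Pool.Agent.MP_2339ce_nt.NR
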