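import Mathlib.Tactic.Ring
import Pool.Agent.MP_2339ce_nt.Q2.NRSpec

/-! Block NR, row EXT: the elementary loops. -/

set_option autoImplicit false

noncomputable section

namespace Pool.Agent.MP_2339ce_nt.NR

namespace Ext

theorem both_iff (x y : Bool) : both x y = true ↔ x = true ∧ y = true := by
  cases x <;> cases y <;> simp [both]

theorem orr_iff (x y : Bool) : orr x y = true ↔ x = true ∨ y = true := by
  cases x <;> cases y <;> simp [orr]

theorem bit_land {acc B s n : ℕ} (h1 : acc.testBit n = true) (h2 : B.testBit (s + n) = true) :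
    (Nat.land acc (Nat.shiftRight B s)).testBit n = true := by
  show (acc &&& (B >>> s)).testBit n = true
  rw [Nat.testBit_and, Nat.testBit_shiftRight, h1, h2]
  rfl

theorem ands_ok (u n : ℕ) (l : PL) : ∀ acc : ℕ, Hit u n l → acc.testBit n = true →
    (ands u l acc).testBit n = true := by
  induction l with
  | nil => intro acc _ h; exact h
  | cons p i B t ih =>
    intro acc hH h
    have hne : Nat.beq acc 0 = false := by
      cases acc with
      | zero => simp at h
      | succ k => rfl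
    have e : ands u (PL.cons p i B t) acc = @Bool.rec (fun _ => ℕ)
        (ands u t (Nat.land acc (Nat.shiftRight B (Nat.mod (Nat.mul u i) p)))) 0
        (Nat.beq acc 0) := rfl
    rw [e, hne]
    exact ih _ hH.2 (bit_land h hH.1)

theorem an0_ok (u n : ℕ) (l : PL) : ∀ acc : ℕ, Hit u n l → acc.testBit n = true →
    (an0 u l acc).testBit n = true := by
  induction l with
  | nil => intro acc _ h; exact h
  | cons p i B t ih =>
    intro acc hH h
    exact ih _ hH.2 (bit_land h hH.1)

theorem ext_aux (f : ℕ → Bool) (g : ℕ → ℕ) (n F : ℕ) : ∀ acc : ℕ,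
    @Nat.rec (fun _ => ℕ → Bool) (fun acc => Nat.beq acc 0)
      (fun _ ih acc => orr (Nat.beq acc 0) (ex2 f ih acc (g acc))) F acc = true →
    acc.testBit n = true → f n = true := by
  induction F with
  | zero =>
    intro acc h hb
    have h0 : acc = 0 := Nat.eq_of_beq_eq_true h
    rw [h0] at hb
    simp at hb
  | succ F ih =>
    intro acc h hb
    rcases (orr_iff _ _).1 h with h0 | h1
    · have h0 : acc = 0 := Nat.eq_of_beq_eq_true h0
      rw [h0] at hb
      simp at hb
    · obtain ⟨h2, h3⟩ := (both_iff _ _).1 h1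
      by_cases hn : g acc = n
      · rw [← hn]
        exact h2
      · refine ih _ h3 ?_
        show (acc ^^^ (1 <<< g acc)).testBit n = true
        rw [Nat.testBit_xor, hb, Nat.one_shiftLeft, Nat.testBit_two_pow_of_ne hn]
        rfl

theorem sq2_ok (f : ℕ → Bool) (z s : ℕ) (h : sq2 f (z ^ 2) s = true) : f z = true := by
  unfold sq2 at h
  cases hb : Nat.beq (Nat.mul s s) (z ^ 2) with
  | true =>
    rw [hb] at h
    have h1 : s * s = z ^ 2 := Nat.eq_of_beq_eq_true hb
    have h2 : s = z := Nat.mul_self_inj.1 (by rw [h1, pow_two])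
    rw [← h2]
    exact h
  | false =>
    rw [hb] at h
    obtain ⟨h1, h2⟩ := (both_iff _ _).1 h
    have h1 : s * s ≤ z ^ 2 := Nat.le_of_ble_eq_true h1
    have h2 : z ^ 2 < (s + 1) * (s + 1) := by
      rw [Nat.blt_eq] at h2
      exact h2
    have h3 : s * s ≠ z ^ 2 := Nat.ne_of_beq_eq_false hb
    rw [pow_two] at h1 h2 h3
    have h4 : s ≤ z := Nat.mul_self_le_mul_self_iff.1 h1
    have h5 : z < s + 1 := Nat.mul_self_lt_mul_self_iff.1 h2
    have h6 : s = z := by omega
    exact absurd (by rw [h6]) h3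

theorem rng_ok (f : ℕ → Bool) (t0 t n : ℕ) : rng f t0 n = true → t0 ≤ t → t < t0 + n →
    f t = true := by
  induction n with
  | zero => intro _ h1 h2; omega
  | succ n ih =>
    intro h h1 h2
    obtain ⟨h3, h4⟩ := (both_iff _ _).1 h
    by_cases e : t = t0 + n
    · rw [e]
      exact h3
    · exact ih h4 h1 (by omega)

theorem fst_ok (M H h : ℕ) (hM : 0 < M) (hH : H ≤ h) :
    H ≤ fst M H (h % M) ∧ ∃ k, h = fst M H (h % M) + M * k := by
  have hu : h % M < M := Nat.mod_lt _ hM
  have e : fst M H (h % M) = h % M + M * ((H + (M - 1) - h % M) / M) := rfl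
  rw [e]
  have h1 := Nat.div_add_mod (H + (M - 1) - h % M) M
  have h2 := Nat.mod_lt (H + (M - 1) - h % M) hM
  have h3 := Nat.div_add_mod h M
  refine ⟨by omega, ?_⟩
  have h4 : (H + (M - 1) - h % M) / M ≤ h / M := by
    apply Nat.le_of_lt_succ
    rw [Nat.div_lt_iff_lt_mul hM, Nat.succ_mul, Nat.mul_comm]
    omega
  obtain ⟨k, hk⟩ := Nat.exists_eq_add_of_le h4
  refine ⟨k, ?_⟩
  rw [hk, Nat.mul_add] at h3
  omega

theorem df_ok (p A B : ℕ) (hp : 0 < p) : df p A B < p ∧ (df p A B : ℤ) ≡ A - B [ZMOD p] := by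
  have e : df p A B = (A + (p - 1) * B) % p := rfl
  rw [e]
  refine ⟨Nat.mod_lt _ hp, ?_⟩
  obtain ⟨q, rfl⟩ : ∃ q, p = q + 1 := ⟨p - 1, by omega⟩
  rw [Nat.add_sub_cancel, Int.natCast_mod]
  refine (Int.mod_modEq _ _).trans ?_
  refine (Int.modEq_iff_dvd.2 ⟨-(B : ℤ), ?_⟩)
  push_cast
  ring

end Ext

theorem ext_ok : S_EXT :=
  ⟨fun u n l acc h1 h2 => ⟨Ext.ands_ok u n l acc h1 h2, Ext.an0_ok u n l acc h1 h2⟩,
    fun f U acc n h1 h2 => Ext.ext_aux f (og U) n 10000000 acc h1 h2,
    fun f _ z h => Ext.sq2_ok f z _ h,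
    fun f t0 n t => Ext.rng_ok f t0 t n,
    Ext.fst_ok, Ext.df_ok⟩

end Pool.Agent.MP_2339ce_nt.NR
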