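import Pool.Agent.MP_2339ce_nt.Q2.NRSpec

/-! Block NR: the tables are correct. -/

set_option autoImplicit false

noncomputable section

namespace Pool.Agent.MP_2339ce_nt.NR

namespace Tab2

def bt (x n : ℕ) : Bool := Nat.beq (Nat.land 1 (Nat.shiftRight x n)) 1

/-- the mask of the squares of the numbers below `n`, modulo `p` -/
def sqm (p n : ℕ) : ℕ :=
  @Nat.rec (fun _ => ℕ) 0 (fun z r => Nat.lor (tw (Nat.mod (Nat.mul z z) p)) r) n

def c1 (p T S R M n : ℕ) : Bool :=
  rng (fun g => both (bt M (Nat.mod (lk T g) p))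
    (both (Nat.beq (lk S g) (Nat.mul (Nat.div (lk S g) p) p))
      (both (Nat.blt (Nat.div (lk S g) p) n)
        (Nat.beq (Nat.mod (Nat.mul g (lk T g)) p) (lk R (Nat.div (lk S g) p)))))) 0 p

def c2 (p Q R M n : ℕ) : Bool :=
  rng (fun k => rng (fun d => rng (fun j =>
    imp (bt M (Nat.mod (Nat.add (Nat.mul (lk R k) (Nat.mul j j)) d) p))
      (bt (cut p Q (Nat.add (Nat.mul k p) d)) j)) 0 p) 0 p) 0 n

def c3 (p L M : ℕ) : Bool :=
  rng (fun i => rng (fun j => imp (bt M (Nat.mod (Nat.mul i j) p)) (bt (cut p L i) j)) 0 p) 0 p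

def chk (p T S Q L R M n : ℕ) : Bool :=
  both (Nat.ble 2 p) (both (Nat.beq (sqm p p) M)
    (both (c1 p T S R M n) (both (c2 p Q R M n) (c3 p L M))))

theorem both_iff (x y : Bool) : both x y = true ↔ x = true ∧ y = true := by
  cases x <;> cases y <;> simp [both]

theorem imp_mp {x y : Bool} (h : imp x y = true) (hx : x = true) : y = true := by
  subst hx; exact h

theorem rng_all {f : ℕ → Bool} {n : ℕ} (h : rng f 0 n = true) (t : ℕ) (ht : t < n) :
    f t = true := by
  induction n with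
  | zero => exact absurd ht (Nat.not_lt_zero _)
  | succ n ih =>
    have h' : both (f (Nat.add 0 n)) (rng f 0 n) = true := h
    rw [both_iff] at h'
    rcases Nat.lt_succ_iff_lt_or_eq.mp ht with h1 | h1
    · exact ih h'.2 h1
    · have h2 := h'.1
      rw [Nat.add_eq, Nat.zero_add] at h2
      rw [h1]; exact h2

theorem bt_iff (x n : ℕ) : bt x n = true ↔ x.testBit n = true := by
  show Nat.beq (1 &&& (x >>> n)) 1 = true ↔ ((1 &&& (x >>> n)) != 0) = true
  rw [Nat.beq_eq, Nat.one_and_eq_mod_two]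
  rcases Nat.mod_two_eq_zero_or_one (x >>> n) with h | h <;> simp [h]

theorem sqm_iff (p n x : ℕ) : (sqm p n).testBit x = true ↔ ∃ z, z < n ∧ z * z % p = x := by
  induction n with
  | zero =>
    show (0 : ℕ).testBit x = true ↔ _
    simp
  | succ n ih =>
    show ((1 <<< (n * n % p)) ||| sqm p n).testBit x = true ↔ _
    rw [Nat.testBit_or, Bool.or_eq_true, ih, Nat.one_shiftLeft, Nat.testBit_two_pow,
      decide_eq_true_iff]
    constructor
    · rintro (h | ⟨z, hz, h⟩)
      · exact ⟨n, Nat.lt_succ_self n, h⟩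
      · exact ⟨z, Nat.lt_succ_of_lt hz, h⟩
    · rintro ⟨z, hz, h⟩
      rcases Nat.lt_succ_iff_lt_or_eq.mp hz with h1 | h1
      · exact Or.inr ⟨z, h1, h⟩
      · exact Or.inl (h1 ▸ h)

theorem sq_bit {p z y : ℕ} (hp : 2 ≤ p) (h : z * z ≡ y [MOD p]) :
    bt (sqm p p) (y % p) = true := by
  rw [bt_iff, sqm_iff]
  refine ⟨z % p, Nat.mod_lt _ (by omega), ?_⟩
  rw [← Nat.mul_mod]; exact h

theorem good_cons {p I T S Q L : ℕ} (R M n : ℕ) {t : ML} (h : chk p T S Q L R M n = true)
    (ht : Good t) : Good (ML.cons p I T S Q L t) := by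
  unfold chk at h
  simp only [both_iff, Nat.ble_eq, Nat.beq_eq] at h
  obtain ⟨hp, hM, h1, h2, h3⟩ := h
  subst hM
  refine ⟨⟨hp, ?_, ?_⟩, ht⟩
  · intro g d j z hg hj hz
    have a1 := rng_all h1 g hg
    simp only [both_iff, Nat.blt_eq, Nat.beq_eq] at a1
    obtain ⟨b1, b2, b3, b4⟩ := a1
    replace b4 : g * lk T g % p = lk R (Nat.div (lk S g) p) := b4
    rw [bt_iff, sqm_iff] at b1
    obtain ⟨s, -, hs⟩ := b1
    have hd : d * lk T g % p < p := Nat.mod_lt _ (by omega)
    have a2 := rng_all (rng_all (rng_all h2 _ b3) _ hd) j hj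
    have e : z * s * (z * s) ≡ lk R (Nat.div (lk S g) p) * (j * j) + d * lk T g % p [MOD p] := by
      have e1 : s * s ≡ lk T g [MOD p] := hs
      have e2 : z * s * (z * s) = z ^ 2 * (s * s) := by rw [Nat.pow_two]; ac_rfl
      have e3 : (g * j ^ 2 + d) * lk T g = g * lk T g * (j * j) + d * lk T g := by
        rw [Nat.pow_two, Nat.add_mul]; ac_rfl
      rw [e2, ← b4]
      refine (hz.mul e1).trans ?_
      rw [e3]
      exact ((Nat.mod_modEq _ _).symm.mul_right _).add (Nat.mod_modEq _ _).symm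
    have a3 := imp_mp a2 (sq_bit hp e)
    rw [bt_iff] at a3
    show (cut p Q (lk S g + d * lk T g % p)).testBit j = true
    rw [b2]
    exact a3
  · intro i j z hi hj hz
    have a2 := rng_all (rng_all h3 i hi) j hj
    rw [Nat.pow_two] at hz
    exact (bt_iff _ _).mp (imp_mp a2 (sq_bit hp hz))

theorem k17 : chk 17 zt17 zs17 zq17 zl17 0x30100 0x1a317 3 = true := by
  decide +kernel

theorem g17 {t : ML} (h : Good t) : Good (zc17 t) := good_cons _ _ _ k17 h

theorem k19 : chk 19 zt19 zs19 zq19 zl19 0x20100 0x30af3 3 = true := by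
  decide +kernel

theorem g19 {t : ML} (h : Good t) : Good (zc19 t) := good_cons _ _ _ k19 h

theorem k23 : chk 23 zt23 zs23 zq23 zl23 0x50100 0x5335f 3 = true := by
  decide +kernel

theorem g23 {t : ML} (h : Good t) : Good (zc23 t) := good_cons _ _ _ k23 h

theorem k29 : chk 29 zt29 zs29 zq29 zl29 0x20100 0x13d122f3 3 = true := by
  decide +kernel

theorem g29 {t : ML} (h : Good t) : Good (zc29 t) := good_cons _ _ _ k29 h

theorem k31 : chk 31 zt31 zs31 zq31 zl31 0x30100 0x121d47b7 3 = true := by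
  decide +kernel

theorem g31 {t : ML} (h : Good t) : Good (zc31 t) := good_cons _ _ _ k31 h

theorem k37 : chk 37 zt37 zs37 zq37 zl37 0x20100 0x165e211e9b 3 = true := by
  decide +kernel

theorem g37 {t : ML} (h : Good t) : Good (zc37 t) := good_cons _ _ _ k37 h

theorem k41 : chk 41 zt41 zs41 zq41 zl41 0x30100 0x1b382b50737 3 = true := by
  decide +kernel

theorem g41 {t : ML} (h : Good t) : Good (zc41 t) := good_cons _ _ _ k41 h

theorem k43 : chk 43 zt43 zs43 zq43 zl43 0x20100 0x35883a3ee53 3 = true := by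
  decide +kernel

theorem g43 {t : ML} (h : Good t) : Good (zc43 t) := good_cons _ _ _ k43 h

theorem k47 : chk 47 zt47 zs47 zq47 zl47 0x50100 0x4351b2753df 3 = true := by
  decide +kernel

theorem g47 {t : ML} (h : Good t) : Good (zc47 t) := good_cons _ _ _ k47 h

theorem k53 : chk 53 zt53 zs53 zq53 zl53 0x20100 0x12dd703303aed3 3 = true := by
  decide +kernel

theorem g53 {t : ML} (h : Good t) : Good (zc53 t) := good_cons _ _ _ k53 h

theorem k59 : chk 59 zt59 zs59 zq59 zl59 0x20100 0x22b62183e7b92bb 3 = true := by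
  decide +kernel

theorem g59 {t : ML} (h : Good t) : Good (zc59 t) := good_cons _ _ _ k59 h

theorem k61 : chk 61 zt61 zs61 zq61 zl61 0x20100 0x1713e6940a59f23b 3 = true := by
  decide +kernel

theorem g61 {t : ML} (h : Good t) : Good (zc61 t) := good_cons _ _ _ k61 h

theorem k67 : chk 67 zt67 zs67 zq67 zl67 0x20100 0x359c281ba27ebc653 3 = true := by
  decide +kernel

theorem g67 {t : ML} (h : Good t) : Good (zc67 t) := good_cons _ _ _ k67 h

theorem k71 : chk 71 zt71 zs71 zq71 zl71 0x70100 0x1164729716b1d977f 3 = true := by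
  decide +kernel

theorem g71 {t : ML} (h : Good t) : Good (zc71 t) := good_cons _ _ _ k71 h

theorem k73 : chk 73 zt73 zs73 zq73 zl73 0x50100 0x1eb22c742790b8d135f 3 = true := by
  decide +kernel

theorem g73 {t : ML} (h : Good t) : Good (zc73 t) := good_cons _ _ _ k73 h

theorem k79 : chk 79 zt79 zs79 zq79 zl79 0x30100 0x130b409e755186fd2f37 3 = true := by
  decide +kernel

theorem g79 {t : ML} (h : Good t) : Good (zc79 t) := good_cons _ _ _ k79 h

theorem k83 : chk 83 zt83 zs83 zq83 zl83 0x20100 0x26873a80b1372fea31e9b 3 = true := by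
  decide +kernel

theorem g83 {t : ML} (h : Good t) : Good (zc83 t) := good_cons _ _ _ k83 h

theorem k89 : chk 89 zt89 zs89 zq89 zl89 0x30100 0x1b3c3b902a6b59502770f37 3 = true := by
  decide +kernel

theorem g89 {t : ML} (h : Good t) : Good (zc89 t) := good_cons _ _ _ k89 h

theorem k97 : chk 97 zt97 zs97 zq97 zl97 0x50100 0x1eb628b476067981b8b451b5f 3 = true := by
  decide +kernel

theorem g97 {t : ML} (h : Good t) : Good (zc97 t) := good_cons _ _ _ k97 h

theorem k101 : chk 101 zt101 zs101 zq101 zl101 0x20100 0x1391b7f0d30552a832c3fb6273 3 = true := by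
  decide +kernel

theorem g101 {t : ML} (h : Good t) : Good (zc101 t) := good_cons _ _ _ k101 h

theorem k103 : chk 103 zt103 zs103 zq103 zl103 0x30100 0x16380e9115bd964257768fe397 3 = true := by
  decide +kernel

theorem g103 {t : ML} (h : Good t) : Good (zc103 t) := good_cons _ _ _ k103 h

theorem k107 : chk 107 zt107 zs107 zq107 zl107 0x20100 0x27816ea9821633397be6a897e1b 3 = true := by
  decide +kernel

theorem g107 {t : ML} (h : Good t) : Good (zc107 t) := good_cons _ _ _ k107 h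

theorem k109 : chk 109 zt109 zs109 zq109 zl109 0x20100 0x1752639f4e85b003685cbe7192bb 3 = true := by
  decide +kernel

theorem g109 {t : ML} (h : Good t) : Good (zc109 t) := good_cons _ _ _ k109 h

theorem k113 : chk 113 zt113 zs113 zq113 zl113 0x30100 0x1a75e89ae2121f33e1211d645eb97 3 = true := by
  decide +kernel

theorem g113 {t : ML} (h : Good t) : Good (zc113 t) := good_cons _ _ _ k113 h

theorem k127 : chk 127 zt127 zs127 zq127 zl127 0x30100 0x172a099c419697f17016967dc66fab17 3 = true := by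
  decide +kernel

theorem g127 {t : ML} (h : Good t) : Good (zc127 t) := good_cons _ _ _ k127 h

theorem k13 : chk 13 zt13 zs13 zq13 zl13 0x20100 0x161b 3 = true := by
  decide +kernel

theorem g13 {t : ML} (h : Good t) : Good (zc13 t) := good_cons _ _ _ k13 h

theorem k11 : chk 11 zt11 zs11 zq11 zl11 0x20100 0x23b 3 = true := by
  decide +kernel

theorem g11 {t : ML} (h : Good t) : Good (zc11 t) := good_cons _ _ _ k11 h

theorem k7 : chk 7 zt7 zs7 zq7 zl7 0x30100 0x17 3 = true := by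
  decide +kernel

theorem g7 {t : ML} (h : Good t) : Good (zc7 t) := good_cons _ _ _ k7 h

theorem k16 : chk 16 zt16 zs16 zq16 zl16 0xe0c0a080706050403020100 0x213 12 = true := by
  decide +kernel

theorem g16 {t : ML} (h : Good t) : Good (zc16 t) := good_cons _ _ _ k16 h

theorem k5 : chk 5 zt5 zs5 zq5 zl5 0x20100 0x13 3 = true := by
  decide +kernel

theorem g5 {t : ML} (h : Good t) : Good (zc5 t) := good_cons _ _ _ k5 h

theorem k9 : chk 9 zt9 zs9 zq9 zl9 0x603020100 0x93 5 = true := by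
  decide +kernel

theorem g9 {t : ML} (h : Good t) : Good (zc9 t) := good_cons _ _ _ k9 h

theorem k8 : chk 8 zt8 zs8 zq8 zl8 0x706050403020100 0x13 8 = true := by
  decide +kernel

theorem g8 {t : ML} (h : Good t) : Good (zc8 t) := good_cons _ _ _ k8 h

theorem k3 : chk 3 zt3 zs3 zq3 zl3 0x20100 0x3 3 = true := by
  decide +kernel

theorem g3 {t : ML} (h : Good t) : Good (zc3 t) := good_cons _ _ _ k3 h

theorem k4 : chk 4 zt4 zs4 zq4 zl4 0x3020100 0x3 4 = true := by
  decide +kernel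

theorem g4 {t : ML} (h : Good t) : Good (zc4 t) := good_cons _ _ _ k4 h

end Tab2

theorem tab_ok : S_TAB :=
  (Tab2.g17 (Tab2.g19 (Tab2.g23 (Tab2.g29 (Tab2.g31 (Tab2.g37 (Tab2.g41 (Tab2.g43 (Tab2.g47 (Tab2.g53 (Tab2.g59 (Tab2.g61 (Tab2.g67 (Tab2.g71 (Tab2.g73 (Tab2.g79 (Tab2.g83 (Tab2.g89 (Tab2.g97 (Tab2.g101 (Tab2.g103 (Tab2.g107 (Tab2.g109 (Tab2.g113 (Tab2.g127 (Tab2.g13 (Tab2.g11 (Tab2.g7 (Tab2.g16 (Tab2.g5 (Tab2.g9 (Tab2.g8 (Tab2.g3 (Tab2.g4 trivial))))))))))))))))))))))))))))))))))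

end Pool.Agent.MP_2339ce_nt.NR
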