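import Pool.Agent.MP_2339ce_nt.Q2.RSpec

/-! Block REG, row CAND: the test of one lattice point and of one value. -/

set_option autoImplicit false

namespace Pool.Agent.MP_2339ce_nt.Q2.RG

namespace Cand

theorem core {N a b c d E X Y Z x y z w m n : ℤ} (hN : 0 < N) (ab : a < b)
    (bc : b < c) (X0 : 0 < X) (Y0 : 0 ≤ Y) (y0 : 0 ≤ y)
    (w0 : 0 < w) (eX : X ^ 2 = a * E + N ^ 2) (eY : Y ^ 2 = b * E + N ^ 2)
    (eZ : Z ^ 2 = c * E + N ^ 2) (ex : x ^ 2 + N = a * d) (ey : y ^ 2 + N = b * d)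
    (ez : z ^ 2 + N = c * d) (h1 : N * m = w * (X * y - Y * x)) (h2 : N * n = w * (X * z - Z * x)) :
    0 < (c - a) * Y * m - (b - a) * Z * n ∧ N * ((b - a) * (n * n) - (c - a) * (m * m)) =
      x * (2 * w * ((c - a) * Y * m - (b - a) * Z * n)) := by
  have f1 : (c - a) * Y ^ 2 = (c - b) * X ^ 2 + (b - a) * Z ^ 2 := by rw [eX, eY, eZ]; ring
  have f2 : (c - a) * y ^ 2 = (c - b) * x ^ 2 + (b - a) * z ^ 2 := by
    linear_combination (c - a) * ey - (c - b) * ex - (b - a) * ez
  have ne : X * z - Z * x ≠ 0 := fun h => by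
    have e : a * ((X * z - Z * x) * (X * z + Z * x)) = N * (c - a) * (N * x ^ 2 + X ^ 2) := by
      linear_combination (a * z ^ 2 - N * (c - a)) * eX - a * x ^ 2 * eZ +
        a * (a * E + N ^ 2) * ez - (a * (c * E + N ^ 2) + N ^ 2 * (c - a)) * ex
    have : 0 < N * (c - a) * (N * x ^ 2 + X ^ 2) :=
      mul_pos (mul_pos hN (by linarith)) (by positivity)
    rw [← e, h] at this
    simp at this
  have f3 : ((c - a) * Y * y) ^ 2 - ((c - b) * X * x + (b - a) * Z * z) ^ 2 =
      (c - b) * (b - a) * (X * z - Z * x) ^ 2 := by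
    linear_combination (c - a) * y ^ 2 * f1 + ((c - b) * X ^ 2 + (b - a) * Z ^ 2) * f2
  have f4 : 0 < (c - b) * (b - a) * (X * z - Z * x) ^ 2 :=
    mul_pos (mul_pos (by linarith) (by linarith)) (by positivity)
  have f5 : (c - b) * X * x + (b - a) * Z * z < (c - a) * Y * y :=
    lt_of_pow_lt_pow_left₀ 2 (mul_nonneg (mul_nonneg (by linarith) Y0) y0) (by linarith)
  have g1 : N * ((c - a) * Y * m - (b - a) * Z * n) =
      w * X * ((c - a) * Y * y - ((c - b) * X * x + (b - a) * Z * z)) := by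
    linear_combination (c - a) * Y * h1 - (b - a) * Z * h2 - w * x * f1
  refine ⟨(mul_pos_iff_of_pos_left hN).1 ?_, mul_left_cancel₀ hN.ne' ?_⟩
  · rw [g1]
    exact mul_pos (mul_pos w0 X0) (by linarith)
  · linear_combination (b - a) * (N * n + w * (X * z - Z * x)) * h2 -
      (c - a) * (N * m + w * (X * y - Y * x)) * h1 - 2 * w * x * g1 - w ^ 2 * x ^ 2 * f1 -
      w ^ 2 * X ^ 2 * f2

theorem nq_sq (z s : ℕ) : nq (z ^ 2) s = false := by
  unfold nq DQ.SR.btw
  generalize DQ.SR.nw (z ^ 2) (nat_lit 60) s = k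
  cases h1 : Nat.ble (Nat.succ (Nat.pow k 2)) (z ^ 2)
  · rfl
  cases h2 : Nat.ble (Nat.succ (z ^ 2)) (Nat.pow (Nat.succ k) 2)
  · rfl
  have a1 : k ^ 2 < z ^ 2 := Nat.le_of_ble_eq_true h1
  have a2 : z ^ 2 < (k + 1) ^ 2 := Nat.le_of_ble_eq_true h2
  have b1 := lt_of_pow_lt_pow_left₀ 2 (Nat.zero_le _) a1
  have b2 := lt_of_pow_lt_pow_left₀ 2 (Nat.zero_le _) a2
  omega

theorem c2_mul {F : ℕ → Bool} {x v : ℕ} (hv : 0 < v) (h : c2 F (x * v) v = true) : F x = true := by
  have e1 : Nat.mod (x * v) v = 0 := Nat.mul_mod_left x v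
  have e2 : Nat.div (x * v) v = x := Nat.mul_div_cancel x hv
  unfold c2 at h
  rw [e1, e2] at h
  exact h

end Cand

open Cand

theorem cand_ok : S_CAND := by
  intro N a b c r s t d x y z u v F ⟨n1, _, ab, bc, hr, hs, ht⟩ ⟨_, hx, hy, hz⟩ hu hv h
  have a0 : 0 < a := Nat.pos_of_ne_zero fun e => by rw [e, zero_mul] at hr; omega
  have lt : r * s < a * t := lt_of_pow_lt_pow_left₀ 2 (Nat.zero_le _) (by
    zify at n1 ab bc hr hs ht a0 ⊢
    have e : ((a : ℤ) * t) ^ 2 - (r * s) ^ 2 = N * (r ^ 2 + a * (c - a)) := by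
      linear_combination a ^ 2 * ht - s ^ 2 * hr - (a * b - N) * hs - N * hr
    have : (0 : ℤ) < N * (r ^ 2 + a * (c - a)) :=
      mul_pos (by linarith) (add_pos_of_nonneg_of_pos (by positivity) (mul_pos a0 (by linarith)))
    linarith)
  have ac : a ≤ c := by omega
  have X0 : 0 < a * t + r * s := by omega
  change c2 F (N * ((b - a) * ((v * t + u * (c - a)) * (v * t + u * (c - a))) -
      (c - a) * ((v * (b - a) + u * t) * (v * (b - a) + u * t))))
    (2 * (a * t - r * s) * ((c - a) * (b * s + r * t) * (v * (b - a) + u * t) -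
      (b - a) * (c * r + s * t) * (v * t + u * (c - a)))) = true at h
  unfold uu at hu
  unfold vv at hv
  obtain ⟨k1, k2⟩ := core (N := N) (a := a) (b := b) (c := c) (d := d)
    (E := 2 * a * b * c + 2 * r * s * t - N * (a + b + c)) (X := a * t + r * s)
    (Y := b * s + r * t) (Z := c * r + s * t) (x := x) (y := y) (z := z) (w := a * t - r * s)
    (m := v * (b - a) + u * t) (n := v * t + u * (c - a)) (by exact_mod_cast n1)
    (by exact_mod_cast ab) (by exact_mod_cast bc) (by exact_mod_cast X0) (by positivity)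
    (by positivity)
    (sub_pos.2 (by exact_mod_cast lt))
    (by zify at hr hs ht; linear_combination a ^ 2 * ht + s ^ 2 * hr + (a * b - N) * hs)
    (by zify at hr hs ht; linear_combination b ^ 2 * hs + t ^ 2 * hr + (a * b - N) * ht)
    (by zify at hr hs ht; linear_combination c ^ 2 * hr + t ^ 2 * hs + (a * c - N) * ht)
    (by exact_mod_cast hx) (by exact_mod_cast hy) (by exact_mod_cast hz)
    (by
      zify at hr hs ht
      rw [← hu, ← hv]
      linear_combination (y * (N - a ^ 2) + x * r * a) * ht + (y * s ^ 2 - x * s * t) * hr +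
        (y * (a * b - N) - x * r * b) * hs)
    (by
      zify at hr hs ht
      rw [← hu, ← hv]
      linear_combination (z * (N - a ^ 2) + x * s * a) * ht + (z * s ^ 2 - x * s * c) * hr +
        (z * (a * b - N) - x * r * t) * hs)
  have l1 : (b - a) * (c * r + s * t) * (v * t + u * (c - a)) <
      (c - a) * (b * s + r * t) * (v * (b - a) + u * t) := by
    zify [ab.le, ac]
    linarith
  have l2 : (c - a) * ((v * (b - a) + u * t) * (v * (b - a) + u * t)) ≤
      (b - a) * ((v * t + u * (c - a)) * (v * t + u * (c - a))) := by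
    zify [ab.le, ac]
    have w0 : (0 : ℤ) < a * t - r * s := sub_pos.2 (by exact_mod_cast lt)
    exact sub_nonneg.1 ((mul_nonneg_iff_of_pos_left (c := (N : ℤ)) (by exact_mod_cast n1)).1
      (k2 ▸ by positivity))
  refine c2_mul (Nat.mul_pos (by omega) (Nat.sub_pos_of_lt l1)) (Eq.subst
    (motive := fun q => c2 F q _ = true) ?_ h)
  zify [ab.le, ac, l1.le, l2, lt.le]
  exact k2

theorem fin_ok : S_FIN := by
  refine ⟨fun N aW a b c R S d x y z I n1 ⟨cd, hx, hy, hz⟩ h => ?_, fun F l k x h h1 h2 => ?_⟩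
  · have a0 : 0 < a := Nat.pos_of_ne_zero fun e => by rw [e, zero_mul] at hx; omega
    have e0 : Nat.add (Nat.mul x x) N = d * a := by rw [mul_comm d, ← hx, sq]; rfl
    have e1 : Nat.mod (d * a) a = 0 := Nat.mul_mod_left d a
    have e2 : Nat.div (d * a) a = d := Nat.mul_div_cancel d a0
    have e3 : Nat.sub (Nat.mul c d) N = z ^ 2 := Nat.sub_eq_of_eq_add hz.symm
    have e4 : Nat.sub (Nat.mul b d) N = y ^ 2 := Nat.sub_eq_of_eq_add hy.symm
    have e5 : Nat.ble d c = false := by
      cases e : Nat.ble d c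
      · rfl
      · exact absurd (Nat.le_of_ble_eq_true e) (by omega)
    unfold fin fi1 at h
    rw [e0, e1, e2] at h
    unfold fi2 at h
    rw [e3, e4, e5, nq_sq, nq_sq] at h
    exact h
  · induction k with
    | zero => omega
    | succ k ih =>
      change an (F (l + k)) (all F l k) = true at h
      unfold an at h
      cases e : F (l + k) <;> rw [e] at h
      · exact absurd h (by simp)
      · rcases Nat.lt_or_ge x (l + k) with g | g
        · exact ih h g
        · rw [show x = l + k by omega, e]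

end Pool.Agent.MP_2339ce_nt.Q2.RG
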