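import Pool.Agent.MP_2339ce_nt.Q2.Fb

/-! Block REG: the extensions of a triple by one Euclidean algorithm; the program. -/

set_option autoImplicit false

noncomputable section

namespace Pool.Agent.MP_2339ce_nt.Q2.RG

open Pool.Agent.MP_2339ce_nt.DQ.SR (nw btw)

abbrev B2 := ℕ → ℕ → Bool

abbrev B6 := ℕ → ℕ → ℕ → ℕ → ℕ → ℕ → Bool

/-! ### square roots -/

def nt (n x : ℕ) : ℕ := (Nat.div (Nat.add x (Nat.div n x)) (nat_lit 2))

def rl (n f : ℕ) : ℕ → ℕ :=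
  @Nat.rec (fun _ => ℕ → ℕ) (fun _ => (nat_lit 0))
    (fun _ ih x => (@Bool.rec (fun _ => ℕ) (ih (nt n x)) (Nat.sub x (nat_lit 1)) (Nat.ble (Nat.pow
      (Nat.sub x (nat_lit 1)) (nat_lit 2)) n))) f

def ro1 (n x : ℕ) : ℕ :=
  (@Bool.rec (fun _ => ℕ) (rl n (nat_lit 60) (nt n (Nat.div (Nat.add (Nat.div (Nat.add x (Nat.div n
    x)) (nat_lit 2)) (Nat.div n (Nat.div (Nat.add x (Nat.div n x)) (nat_lit 2)))) (nat_lit 2))))
    (Nat.sub (Nat.div (Nat.add (Nat.div (Nat.add x (Nat.div n x)) (nat_lit 2)) (Nat.div n (Nat.div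
    (Nat.add x (Nat.div n x)) (nat_lit 2)))) (nat_lit 2)) (nat_lit 1)) (Nat.ble (Nat.pow (Nat.sub
    (Nat.div (Nat.add (Nat.div (Nat.add x (Nat.div n x)) (nat_lit 2)) (Nat.div n (Nat.div (Nat.add
    x (Nat.div n x)) (nat_lit 2)))) (nat_lit 2)) (nat_lit 1)) (nat_lit 2)) n))

/-- zero, or `√(r ^ 2 + N) W` up to two -/
def root (N W r : ℕ) : ℕ := (ro1 (Nat.mul (Nat.add (Nat.mul r r) N) (Nat.mul W W)) (Nat.add
  (Nat.mul r W) (Nat.div (Nat.mul N W) (Nat.add r r))))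

def root0 (N W r : ℕ) : ℕ := (ro1 (Nat.mul (Nat.add (Nat.mul r r) N) (Nat.mul W W)) (Nat.add
  (Nat.mul r W) (Nat.div (Nat.mul N W) (Nat.succ (Nat.add r r)))))

/-! ### the fast test -/

def e1 (H : ℕ) (k l : B2) (n m : ℕ) : Bool :=
  (@Bool.rec (fun _ => Bool) (l m (Nat.mod n m)) (k m (Nat.mod n m)) (Nat.ble (Nat.mod n m) H))

def e2 (H : ℕ) (k l : B2) (n m : ℕ) : Bool :=
  (@Bool.rec (fun _ => Bool) (l (Nat.mod n m) (Nat.mod m (Nat.mod n m))) (k (Nat.mod n m) (Nat.mod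
    m (Nat.mod n m))) (Nat.ble (Nat.mod m (Nat.mod n m)) H))

def e3 (H : ℕ) (k l : B2) (n m : ℕ) : Bool :=
  (@Bool.rec (fun _ => Bool) (l (Nat.mod m (Nat.mod n m)) (Nat.mod (Nat.mod n m) (Nat.mod m
    (Nat.mod n m)))) (k (Nat.mod m (Nat.mod n m)) (Nat.mod (Nat.mod n m) (Nat.mod m (Nat.mod n
    m)))) (Nat.ble (Nat.mod (Nat.mod n m) (Nat.mod m (Nat.mod n m))) H))

def e4 (H : ℕ) (k l : B2) (n m : ℕ) : Bool :=
  (@Bool.rec (fun _ => Bool) (l (Nat.mod (Nat.mod n m) (Nat.mod m (Nat.mod n m))) (Nat.mod (Nat.mod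
    m (Nat.mod n m)) (Nat.mod (Nat.mod n m) (Nat.mod m (Nat.mod n m))))) (k (Nat.mod (Nat.mod n m)
    (Nat.mod m (Nat.mod n m))) (Nat.mod (Nat.mod m (Nat.mod n m)) (Nat.mod (Nat.mod n m) (Nat.mod m
    (Nat.mod n m))))) (Nat.ble (Nat.mod (Nat.mod m (Nat.mod n m)) (Nat.mod (Nat.mod n m) (Nat.mod m
    (Nat.mod n m)))) H))

def j4 (l : B2) (n m : ℕ) : Bool := (l (Nat.mod (Nat.mod n m) (Nat.mod m (Nat.mod n m))) (Nat.mod
  (Nat.mod m (Nat.mod n m)) (Nat.mod (Nat.mod n m) (Nat.mod m (Nat.mod n m)))))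

def no : B2 := fun _ _ => false

def k2 (T : ℕ) (_n m : ℕ) : Bool := (Nat.ble (Nat.succ T) m)

def hi2 (H : ℕ) (k : B2) (n m : ℕ) : Bool :=
  (j4 (j4 (e2 H k (e2 H k (e2 H k (e4 H k (e4 H k (e4 H k (e4 H k no)))))))) n m)

/-- the upper range -/
def hi (N n1 C U Q g n m : ℕ) : Bool :=
  (hi2 (Nat.div (Nat.div (Nat.mul (nat_lit 3) n1) (nat_lit 4)) Q) (k2 (Nat.mul (nat_lit 4) (Nat.add
    (Nat.div (Nat.mul C (Nat.succ N)) g) U))) n m)

def k1 (T : ℕ) (l : B2) (n m : ℕ) : Bool := (@Bool.rec (fun _ => Bool) false (@Bool.rec (fun _ =>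
  Bool) false (l n m) (Nat.ble (Nat.succ (Nat.mul (nat_lit 4) T)) n)) (Nat.ble (Nat.succ T) m))

def p2 (H : ℕ) (k : B2) (n m : ℕ) : Bool :=
  (e3 H k (e1 H k (e1 H k (e1 H k (e1 H k (e1 H k (e2 H k (e2 H k no))))))) n m)

def p1 (N s C X n1 n2 E Q1 Q2 : ℕ) : Bool :=
  (p2 (Nat.div (Nat.div (Nat.mul (nat_lit 3) n1) (nat_lit 4)) Q1) (k1 (Nat.add (Nat.div (Nat.mul C
    (Nat.add (Nat.mul N (Nat.mul s s)) (Nat.mul X X))) (Nat.pow s (nat_lit 3))) (Nat.mul (Nat.add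
    Q1 Q2) E)) (hi N n1 C (Nat.mul (Nat.add Q1 Q2) E) Q2 X)) n1 (Nat.mod n2 n1))

def f2 (N aW s C X G q0 n1 n2 e : ℕ) : Bool :=
  (p1 N s C X n1 n2 (Nat.mul e (Nat.add (Nat.div (Nat.add n2 e) n1) (nat_lit 2))) (Nat.add (Nat.div
    (Nat.mul (Nat.add X (nat_lit 16)) (Nat.add n1 e)) aW) q0) (Nat.add (Nat.div (Nat.mul (Nat.add G
    (nat_lit 16)) (Nat.add n1 e)) aW) q0))

def f4 (N C X n1 n2 E Q g : ℕ) : Bool := (@Bool.rec (fun _ => Bool) false (hi N n1 C (Nat.mul Q E)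
  Q g n1 (Nat.mod n2 n1)) (Nat.ble X g))

def f3 (N aW s C X G D n1 n2 e : ℕ) : Bool :=
  (@Bool.rec (fun _ => Bool) (f2 N aW s C X G (Nat.add (Nat.div D s) (nat_lit 2)) n1 n2 e) true
    (@Bool.rec (fun _ => Bool) false (@Bool.rec (fun _ => Bool) false (f4 N C X n1 n2 (Nat.mul e
    (Nat.add (Nat.div (Nat.add n2 e) n1) (nat_lit 2))) (Nat.add (Nat.div (Nat.mul (Nat.add G
    (nat_lit 16)) (Nat.add n1 e)) aW) (nat_lit 2)) (Nat.sub (Nat.div aW (Nat.mul (nat_lit 2)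
    (Nat.succ (Nat.add n1 e)))) (nat_lit 16))) (Nat.ble (nat_lit 1) n1)) (Nat.ble (Nat.add D D)
    s)))

def nn1 (aW a b s t R S : ℕ) : ℕ := (Nat.sub (Nat.mul t R) (Nat.add (Nat.mul s aW) (Nat.mul
  (Nat.sub b a) (Nat.add S (nat_lit 2)))))

def nn2 (aW a c r t R S : ℕ) : ℕ := (Nat.sub (Nat.mul t S) (Nat.add (Nat.mul r aW) (Nat.mul
  (Nat.sub c a) (Nat.add R (nat_lit 2)))))

/-! ### the slow test -/

def nq (n x : ℕ) : Bool := (btw n (nw n (nat_lit 60) x))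

def fi2 (N aW b c R S : ℕ) (I : ℕ → Bool) (x d : ℕ) : Bool :=
  (@Bool.rec (fun _ => Bool) (@Bool.rec (fun _ => Bool) (@Bool.rec (fun _ => Bool) (I d) true (nq
    (Nat.sub (Nat.mul c d) N) (Nat.succ (Nat.div (Nat.mul (Nat.add x (nat_lit 16)) (Nat.add S
    (nat_lit 2))) aW)))) true (nq (Nat.sub (Nat.mul b d) N) (Nat.succ (Nat.div (Nat.mul (Nat.add x
    (nat_lit 16)) (Nat.add R (nat_lit 2))) aW)))) true (Nat.ble d c))

def fi1 (N aW a b c R S : ℕ) (I : ℕ → Bool) (x y : ℕ) : Bool :=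
  (@Bool.rec (fun _ => Bool) true (fi2 N aW b c R S I x (Nat.div y a)) (Nat.beq (Nat.mod y a)
    (nat_lit 0)))

/-- the test of one value of `x` -/
def fin (N aW a b c R S : ℕ) (I : ℕ → Bool) (x : ℕ) : Bool :=
  (fi1 N aW a b c R S I x (Nat.add (Nat.mul x x) N))

def c2 (F : ℕ → Bool) (u v : ℕ) : Bool := (@Bool.rec (fun _ => Bool) true (F (Nat.div u v))
  (Nat.beq (Nat.mod u v) (nat_lit 0)))

def c1 (N ba ca x2 Y Z : ℕ) (F : ℕ → Bool) (u v : ℕ) : Bool :=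
  (c2 F (Nat.mul N (Nat.sub (Nat.mul ba (Nat.mul v v)) (Nat.mul ca (Nat.mul u u)))) (Nat.mul x2
    (Nat.sub (Nat.mul Y u) (Nat.mul Z v))))

/-- the test of one lattice point -/
def cand (N ba ca t x2 Y Z : ℕ) (F : ℕ → Bool) (u v : ℕ) : Bool :=
  (c1 N ba ca x2 Y Z F (Nat.add (Nat.mul v ba) (Nat.mul u t)) (Nat.add (Nat.mul v t) (Nat.mul u
    ca)))

def an (p r : Bool) : Bool := (@Bool.rec (fun _ => Bool) false r p)

/-- `F x` for `l ≤ x < l + k` -/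
def all (F : ℕ → Bool) (l k : ℕ) : Bool :=
  @Nat.rec (fun _ => Bool) true (fun j r => (an (F (Nat.add l j)) r)) k

def mn (x y : ℕ) : ℕ := (Nat.sub x (Nat.sub x y))

def en2 (K : B2) (q1 p1 u v l h : ℕ) : Bool :=
  (all (fun j => (K (Nat.add u (Nat.mul j q1)) (Nat.add v (Nat.mul j p1)))) l (Nat.sub (Nat.succ h)
    l))

def en1 (K : B2) (T Q m q1 p1 y u v : ℕ) : Bool :=
  (en2 K q1 p1 u v (Nat.succ (Nat.div (Nat.sub y (Nat.succ T)) m)) (mn (Nat.div (Nat.add y T) m)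
    (Nat.div (Nat.sub Q u) q1)))

def enum (K : B2) (n1 T Q n m q q1 p p1 : ℕ) : Bool :=
  (@Bool.rec (fun _ => Bool) false (all (fun i => (en1 K T Q m q1 p1 (Nat.mul i n) (Nat.mul i q)
    (Nat.mul i p))) (nat_lit 0) (Nat.succ (Nat.div (Nat.add (Nat.mul T q1) (Nat.mul m Q)) n1)))
    (Nat.ble (nat_lit 1) m))

def a2 (ih : B6) (n m q q1 p p1 k : ℕ) : Bool := (ih m (Nat.mod n m) q1 (Nat.add q (Nat.mul k q1))
  p1 (Nat.add p (Nat.mul k p1)))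

def adv (T Q : ℕ) (k : B6) (f : ℕ) : B6 :=
  @Nat.rec (fun _ => B6) (fun _ _ _ _ _ _ => false)
    (fun _ ih n m q q1 p p1 =>
      (@Bool.rec (fun _ => Bool) (@Bool.rec (fun _ => Bool) (k n m q q1 p p1) (a2 ih n m q q1 p p1
        (Nat.div n m)) (Nat.ble q1 Q)) (k n m q q1 p p1) (Nat.ble m T))) f

def k3 (K : B2) (n1 : ℕ) (ih : ℕ → B6) (g T Q n m q q1 p p1 : ℕ) : Bool :=
  (@Bool.rec (fun _ => Bool) false (ih (Nat.succ g) n m q q1 p p1) (@Bool.rec (fun _ => Bool) true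
    (enum K n1 T Q n m q q1 p p1) (Nat.ble q1 Q)))

def s4 (K : B2) (n1 : ℕ) (ih : ℕ → B6) (n m q q1 p p1 g Q T : ℕ) : Bool :=
  (@Bool.rec (fun _ => Bool) false (adv T Q (k3 K n1 ih g T Q) (nat_lit 400) n m q q1 p p1)
    (Nat.ble (Nat.succ T) n))

def s3 (K : B2) (n1 E : ℕ) (ih : ℕ → B6) (n m q q1 p p1 T g Q : ℕ) : Bool :=
  (s4 K n1 ih n m q q1 p p1 g Q (Nat.add T (Nat.mul Q E)))

def s2 (K : B2) (n1 ne aW E : ℕ) (ih : ℕ → B6) (n m q q1 p p1 q0 T g : ℕ) : Bool :=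
  (s3 K n1 E ih n m q q1 p p1 T g (Nat.add (Nat.div (Nat.mul (Nat.add g (nat_lit 16)) ne) aW) q0))

def s1 (K : B2) (n1 ne aW E X D G : ℕ) (ih : ℕ → B6) (g n m q q1 p p1 T : ℕ) : Bool :=
  (s2 K n1 ne aW E ih n m q q1 p p1 (Nat.add (Nat.div D g) (nat_lit 2)) T (mn (@Bool.rec (fun _ =>
    ℕ) X G (Nat.ble X g)) (Nat.add (Nat.add g g) (Nat.sub (Nat.div aW (Nat.mul (nat_lit 16) T))
    (Nat.add g g)))))

def spc (K : B2) (N n1 ne aW E C X D G Q w f : ℕ) : ℕ → B6 :=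
  @Nat.rec (fun _ => ℕ → B6) (fun _ _ _ _ _ _ _ => false)
    (fun _ ih g n m q q1 p p1 =>
      (@Bool.rec (fun _ => Bool) (@Bool.rec (fun _ => Bool) (@Bool.rec (fun _ => Bool) (s1 K n1 ne
        aW E X D G ih g n m q q1 p p1 (Nat.div (Nat.mul C (Nat.add (Nat.mul N (Nat.mul g g))
        (Nat.mul X X))) (Nat.pow g (nat_lit 3)))) true (@Bool.rec (fun _ => Bool) false (hi N n1 C
        (Nat.mul Q E) Q g n m) (Nat.ble X g))) (ih w n m q q1 p p1) (@Bool.rec (fun _ => Bool)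
        false (Nat.ble (Nat.add D D) g) (Nat.ble (Nat.succ g) w))) true (Nat.ble (Nat.succ G) g)))
        f

def st2 (ih : ℕ → ℕ) (g : ℕ) : ℕ := (ih (Nat.succ (Nat.add g (Nat.div g (nat_lit 4)))))

/-- the start of the Euclidean part -/
def sta (N n1 C X D w f : ℕ) : ℕ → ℕ :=
  @Nat.rec (fun _ => ℕ → ℕ) (fun g => g)
    (fun _ ih g => (@Bool.rec (fun _ => ℕ) (@Bool.rec (fun _ => ℕ) (st2 ih g) g (@Bool.rec (fun _
      => Bool) false (Nat.ble (Nat.add D D) g) (Nat.ble (Nat.succ g) w))) g (Nat.ble (Nat.mul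
      (nat_lit 2) (Nat.div (Nat.mul C (Nat.add (Nat.mul N (Nat.mul g g)) (Nat.mul X X))) (Nat.pow g
      (nat_lit 3)))) n1))) f

def w4 (K : B2) (F : ℕ → Bool) (N aW s C X D G n1 n2 e w g : ℕ) : Bool :=
  (@Bool.rec (fun _ => Bool) false (@Bool.rec (fun _ => Bool) false (spc K N n1 (Nat.add n1 e) aW
    (Nat.mul e (Nat.add (Nat.div (Nat.add n2 e) n1) (nat_lit 2))) C X D G (Nat.add (Nat.div
    (Nat.mul (Nat.add G (nat_lit 16)) (Nat.add n1 e)) aW) (Nat.add (Nat.div D s) (nat_lit 2))) w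
    (nat_lit 300) g n1 n2 (nat_lit 0) (nat_lit 1) (nat_lit 1) (nat_lit 0)) (all F s (Nat.sub g s)))
    (Nat.ble g (Nat.add s (nat_lit 20000))))

def w3 (K : B2) (F : ℕ → Bool) (N aW s C X D G n1 n2 e w : ℕ) : Bool :=
  (w4 K F N aW s C X D G n1 n2 e w (sta N n1 C X D w (nat_lit 60) s))

def w2 (K : B2) (F : ℕ → Bool) (N aW s C X D G n1 n2 e : ℕ) : Bool :=
  (@Bool.rec (fun _ => Bool) false (@Bool.rec (fun _ => Bool) false (@Bool.rec (fun _ => Bool)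
    false (w3 K F N aW s C X D G n1 n2 e (Nat.sub (Nat.div aW (Nat.mul (nat_lit 2) (Nat.succ
    (Nat.add n1 e)))) (nat_lit 16))) (Nat.ble (Nat.mul C N) (Nat.mul (nat_lit 4) aW))) (Nat.ble
    (nat_lit 1) n2)) (Nat.ble (nat_lit 1) n1))

def dd (N a b s : ℕ) : ℕ := (Nat.succ (Nat.div (Nat.mul (Nat.mul (Nat.sub b a) N) a) (Nat.mul
  (nat_lit 2) s)))

def w1 (N aW a b c r s t R S C X G : ℕ) (F : ℕ → Bool) : Bool :=
  (w2 (cand N (Nat.sub b a) (Nat.sub c a) t (Nat.mul (nat_lit 2) (Nat.sub (Nat.mul a t) (Nat.mul r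
    s))) (Nat.mul (Nat.sub c a) (Nat.add (Nat.mul b s) (Nat.mul r t))) (Nat.mul (Nat.sub b a)
    (Nat.add (Nat.mul c r) (Nat.mul s t))) F) F N aW s C X (dd N a b s) G (nn1 aW a b s t R S) (nn2
    aW a c r t R S) (Nat.mul (nat_lit 2) (Nat.add t c)))

def slow (N aW a b c r s t R S C X G : ℕ) (I : ℕ → Bool) : Bool :=
  (w1 N aW a b c r s t R S C X G (fin N aW a b c R S I))

/-- the constant of the error term -/
def cG (N W a b c r s t : ℕ) : ℕ :=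
  (Nat.succ (Nat.div (Nat.mul (Nat.mul (Nat.sub (Nat.mul a t) (Nat.mul r s)) (Nat.mul (Nat.mul
    (Nat.sub b a) (Nat.sub c a)) (Nat.sub c b))) (Nat.mul (Nat.pow N (nat_lit 3)) W)) (Nat.mul
    (Nat.mul (nat_lit 16) (Nat.mul b c)) (Nat.mul (Nat.mul (Nat.add (Nat.mul a t) (Nat.mul r s))
    (Nat.add (Nat.mul b s) (Nat.mul r t))) (Nat.add (Nat.mul c r) (Nat.mul s t))))))

def g3 (N aW a b c r s t G : ℕ) (I : ℕ → Bool) (R S C X : ℕ) : Bool :=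
  (@Bool.rec (fun _ => Bool) (@Bool.rec (fun _ => Bool) (FB.fb N b c a c (Nat.mul (nat_lit 2)
    (Nat.succ (Nat.div (Nat.mul (Nat.add G (nat_lit 16)) (Nat.add s (nat_lit 16))) a))) (FB.gl N)
    I) true (slow N aW a b c r s t R S C X G I)) true (f3 N aW s C X G (dd N a b s) (nn1 aW a b s t
    R S) (nn2 aW a c r t R S) (Nat.mul (nat_lit 2) (Nat.add t c))))

/-- `I d` holds for all `d > c` that extend `a, b, c` with `a d - N = x ^ 2`, `x ≤ G` -/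
def gen (N W a b c r s t G : ℕ) (I : ℕ → Bool) : Bool :=
  (@Bool.rec (fun _ => Bool) (g3 N (Nat.mul a W) a b c r s t G I (root0 N W r) (root0 N W s) (cG N
    W a b c r s t) (Nat.add (Nat.mul a t) (Nat.mul r s))) true (Nat.ble b a))

/-- the residues of `a, b, c` modulo `m` are marked in `M` -/
def flt (m M a b c : ℕ) : Bool :=
  (Nat.beq (Nat.mod (Nat.shiftRight (Nat.mod (Nat.shiftRight M (Nat.mul (Nat.mod a m) (Nat.mul m
    m))) (Nat.pow (nat_lit 2) (Nat.mul m m))) (Nat.add (Nat.mul (Nat.mod b m) m) (Nat.mod c m)))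
    (nat_lit 2)) (nat_lit 1))

def fl0 (_a _b _c : ℕ) : Bool := false

def fl2 (m M m' M' a b c : ℕ) : Bool := (@Bool.rec (fun _ => Bool) (flt m' M' a b c) true (flt m M
  a b c))

/-- the test of a regular triple -/
def nd (N W CN G : ℕ) (fl : ℕ → ℕ → ℕ → Bool) (I : ℕ → ℕ → ℕ → ℕ → Bool) (a r b s t c R S : ℕ) :
    Bool :=
  (@Bool.rec (fun _ => Bool) (@Bool.rec (fun _ => Bool) (@Bool.rec (fun _ => Bool) (gen N W a b c r
    s t G (I a b c)) true (slow N (Nat.mul a W) a b c r s t R S (Nat.succ (Nat.div (Nat.mul CN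
    (Nat.sub b a)) (Nat.pow (Nat.mul r t) (nat_lit 3)))) (Nat.mul (Nat.add a a) t) G (I a b c)))
    true (f2 N (Nat.mul a W) s (Nat.succ (Nat.div (Nat.mul CN (Nat.sub b a)) (Nat.pow (Nat.mul r t)
    (nat_lit 3)))) (Nat.mul (Nat.add a a) t) G (Nat.add (Nat.div N (nat_lit 2)) (nat_lit 2))
    (Nat.sub (Nat.mul t R) (Nat.add (Nat.mul s (Nat.mul a W)) (Nat.mul (Nat.sub b a) (Nat.add S
    (nat_lit 2))))) (Nat.sub (Nat.mul t S) (Nat.add (Nat.mul r (Nat.mul a W)) (Nat.mul (Nat.sub c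
    a) (Nat.add R (nat_lit 2))))) (Nat.mul (nat_lit 2) (Nat.add t c)))) true (fl a b c))

/-! ### the tree of the regular triples -/

inductive TL : Type
  | nil : TL
  | cons (A B : ℕ) (k : TL) : TL

inductive SK : Type
  | nil : SK
  | cons (a r b R B : ℕ) (L : TL) (k : SK) : SK

abbrev Nd := ℕ → ℕ → ℕ → ℕ → ℕ → ℕ → ℕ → ℕ → Bool

abbrev Lp := ℕ → ℕ → ℕ → ℕ → ℕ → TL → SK → Bool

def dr (a : ℕ) (L : TL) : TL :=
  @TL.rec (fun _ => TL) TL.nil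
    (fun A B k ih => @Bool.rec (fun _ => TL) ih (TL.cons A B k) (Nat.ble a A)) L

def cmp (k : SK) : ℕ → Bool :=
  @SK.rec (fun _ => ℕ → Bool) (fun _ => true) (fun a r _ _ _ _ _ ih S =>
    (@Bool.rec (fun _ => Bool) false (@Bool.rec (fun _ => Bool) false (ih (Nat.div S (nat_lit
      1099511627776))) (Nat.beq r (Nat.mod S (nat_lit 1048576)))) (Nat.beq a (Nat.mod (Nat.div S
      (nat_lit 1048576)) (nat_lit 1048576))))) k

def pop (ih : Lp) (k : SK) : Bool :=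
  @SK.rec (fun _ => Bool) true (fun a r b R B L k' _ => ih a r b R B L k') k

def t3 (ro : ℕ → ℕ) (ih : Lp) (a b s t c S B : ℕ) (k : SK) (L : TL) : Bool :=
  @TL.rec (fun _ => Bool) (ih a s c S B TL.nil k) (fun _ B' _ _ =>
    @Bool.rec (fun _ => Bool) (ih a s c S B TL.nil k)
      (ih b t c (ro t) B' L (SK.cons a s c S B L k)) (Nat.ble c B')) L

def t2 (Am : ℕ) (ro : ℕ → ℕ) (nd : Nd) (ih : Lp) (a r b R B : ℕ) (L : TL) (k : SK) (s t c S : ℕ) :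
    Bool :=
  @Bool.rec (fun _ => Bool) false
    (@Bool.rec (fun _ => Bool) (pop ih k)
      (@TL.rec (fun _ => Bool) (ih a s c S B TL.nil k) (fun _ _ _ _ =>
        @Bool.rec (fun _ => Bool) (ih a s c S B TL.nil k) (t3 ro ih a b s t c S B k (dr b L))
          (Nat.ble b Am)) L) (Nat.ble c B))
    (nd a r b s t c R S)

def loop (Am : ℕ) (ro : ℕ → ℕ) (nd : Nd) (S' f : ℕ) : Lp :=
  @Nat.rec (fun _ => Lp) (fun a r b R B L k => cmp (SK.cons a r b R B L k) S')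
    (fun _ ih a r b R B L k =>
      (t2 Am ro nd ih a r b R B L k (Nat.add a r) (Nat.add b r) (Nat.add (Nat.add a r) (Nat.add b
        r)) (ro (Nat.add a r)))) f

def hB (L : TL) : ℕ := @TL.rec (fun _ => ℕ) (nat_lit 0) (fun _ B _ _ => B) L

def d2 (N : ℕ) (ro : ℕ → ℕ) (k : SK) (a r : ℕ) (L : TL) : SK :=
  (SK.cons a r (Nat.div (Nat.add (Nat.mul r r) N) a) (ro r) (hB L) L k)

def d1 (N : ℕ) (ro : ℕ → ℕ) (T : TL) (k : SK) (a r : ℕ) : SK := (d2 N ro k a r (dr a T))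

def dec (N : ℕ) (ro : ℕ → ℕ) (T : TL) (f : ℕ) : ℕ → SK :=
  @Nat.rec (fun _ => ℕ → SK) (fun _ => SK.nil) (fun _ ih S =>
    @Bool.rec (fun _ => SK)
      (d1 N ro T (ih (Nat.div S (nat_lit 1099511627776))) (Nat.mod (Nat.div S (nat_lit 1048576))
        (nat_lit 1048576)) (Nat.mod S (nat_lit 1048576)))
      SK.nil (Nat.beq S (nat_lit 0))) f

/-- treat `F` triples from the stack `S`; the stack `S'` remains -/
def run (N Am : ℕ) (ro : ℕ → ℕ) (nd : Nd) (T : TL) (F S S' : ℕ) : Bool :=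
  (@Bool.rec (fun _ => Bool) false (pop (loop Am ro nd S' F) (dec N ro T (nat_lit 100) S)) (Nat.ble
    (Nat.succ S) (Nat.pow (nat_lit 2) (nat_lit 4000))))

def ps (N a S r : ℕ) : ℕ :=
  (@Bool.rec (fun _ => ℕ) S (@Bool.rec (fun _ => ℕ) S (Nat.add (Nat.mul S (nat_lit 1099511627776))
    (Nat.add (Nat.mul a (nat_lit 1048576)) r)) (Nat.ble (Nat.mul a a) (Nat.add (Nat.mul r r) N)))
    (Nat.beq (Nat.mod (Nat.add (Nat.mul r r) N) a) (nat_lit 0)))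

/-- the stack of the reduced forms -/
def roots (N : ℕ) : ℕ :=
  @Nat.rec (fun _ => ℕ) (nat_lit 0) (fun a S => @Nat.rec (fun _ => ℕ) S (fun r S1 => ps N a S1 r)
    a) (nat_lit 130)

def step (N G Am : ℕ) (fl : ℕ → ℕ → ℕ → Bool) (I : ℕ → ℕ → ℕ → ℕ → Bool) (T : TL) (F S S' : ℕ) :
    Bool :=
  (run N Am (root N (Nat.pow (nat_lit 2) (nat_lit 128))) (nd N (Nat.pow (nat_lit 2) (nat_lit 128))
    (Nat.succ (Nat.div (Nat.mul (Nat.pow N (nat_lit 4)) (Nat.pow (nat_lit 2) (nat_lit 128)))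
    (nat_lit 64))) G fl I) T F S S')

/-- the table of a staircase -/
def toT (st : List (ℕ × ℕ)) : TL :=
  @List.rec (ℕ × ℕ) (fun _ => TL) TL.nil (fun u _ ih => TL.cons u.1 u.2 ih) st

/-- first entries at most `Am`, second entries decreasing from `B` -/
def anti (Am : ℕ) : List (ℕ × ℕ) → ℕ → Bool
  | [], _ => true
  | u :: l, B => Nat.ble u.1 Am && Nat.ble u.2 B && anti Am l u.2

/-- a chain of steps -/
def Ch (f : ℕ → ℕ → ℕ → Bool) (S S' : ℕ) : Prop :=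
  ∀ P : ℕ → Prop, (∀ F s s', f F s s' = true → P s' → P s) → P S' → P S

theorem ch0 {f : ℕ → ℕ → ℕ → Bool} {S : ℕ} : Ch f S S := fun _ _ h => h

theorem ch1 {f : ℕ → ℕ → ℕ → Bool} {S S'' : ℕ} (F S' : ℕ) (h : f F S S' = true)
    (k : Ch f S' S'') : Ch f S S'' := fun P hP h' => hP F S S' h (k P hP h')

theorem ch2 {f : ℕ → ℕ → ℕ → Bool} {S S' S'' : ℕ} (h : Ch f S S') (k : Ch f S' S'') :
    Ch f S S'' := fun P hP h' => h P hP (k P hP h')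

end Pool.Agent.MP_2339ce_nt.Q2.RG

end
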