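import Mathlib.Analysis.SpecialFunctions.Sqrt
import Pool.Agent.MP_2339ce_nt.Q2.RProg
import Pool.Agent.MP_2339ce_nt.Q2.EQb

/-! Block REG: the row statements. -/

set_option autoImplicit false

namespace Pool.Agent.MP_2339ce_nt.Q2.RG

/-- a triple -/
structure Tr (N a b c r s t : ℕ) : Prop where
  n1 : 1 ≤ N
  n2 : N ≤ 256
  ab : a < b
  bc : b < c
  hr : r ^ 2 + N = a * b
  hs : s ^ 2 + N = a * c
  ht : t ^ 2 + N = b * c

/-- a larger fourth element -/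
structure Ex (N a b c d x y z : ℕ) : Prop where
  cd : c < d
  hx : x ^ 2 + N = a * d
  hy : y ^ 2 + N = b * d
  hz : z ^ 2 + N = c * d

def uu (a b s t x y z : ℕ) : ℤ := t * y - s * x - (b - a) * z

def vv (a c r t x y z : ℕ) : ℤ := t * z - r * x - (c - a) * y

def al (a b s t : ℕ) (ρ σ : ℝ) : ℝ := t * ρ - s * a - (b - a) * σ

def bt (a c r t : ℕ) (ρ σ : ℝ) : ℝ := t * σ - r * a - (c - a) * ρ

def RV (R n : ℕ) : Prop := R = 0 ∨ (R ^ 2 ≤ n ∧ n < (R + 2) ^ 2)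

/-- the constant `C` is large enough -/
def CV (N W a b c r s t C : ℕ) : Prop :=
  (a * t - r * s) * ((b - a) * (c - a) * (c - b)) * (N ^ 3 * W) ≤
    C * (16 * (b * c) * ((a * t + r * s) * (b * s + r * t) * (c * r + s * t)))

/-- the facts about the lattice point with coordinates `u`, `v` -/
structure KF (N aW n1 n2 e C X D s x : ℕ) (u v : ℤ) : Prop where
  u1 : 1 ≤ u
  s1 : 1 ≤ s
  sx : s ≤ x
  qN : ∀ h : ℕ, x ≤ h → u ≤ ((h + 16) * (n1 + e) / aW + (N / 2 + 2) : ℕ)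
  qD : ∀ g h : ℕ, 1 ≤ g → g ≤ x → x ≤ h → u ≤ ((h + 16) * (n1 + e) / aW + (D / g + 2) : ℕ)
  sk : ∀ g : ℕ, g ≤ x → D + D ≤ g → aW / (2 * (n1 + e + 1)) - 16 ≤ x
  d1 : 1 ≤ D
  tl : ∀ g Q : ℕ, 1 ≤ g → g ≤ x → u ≤ Q → |n2 * u - n1 * v| ≤
    (C * (N * (g * g) + X * X) / g ^ 3 + Q * (e * ((n2 + e) / n1 + 2)) : ℕ)
  th : ∀ g Q : ℕ, 1 ≤ g → X ≤ g → g ≤ x → u ≤ Q → |n2 * u - n1 * v| ≤
    (C * (N + 1) / g + Q * (e * ((n2 + e) / n1 + 2)) : ℕ)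
  x1 : 1 ≤ X

/-- the invariant of the Euclidean algorithm -/
def Iv (n1 n2 n m : ℕ) : Prop := ∃ q q1 : ℕ, n * q1 + m * q = n1 ∧
  ∀ u v : ℤ, ∃ i j : ℤ, u = i * q + j * q1 ∧ |n2 * u - n1 * v| = |i * n - j * m|

def NoP (n1 n2 Q T : ℕ) : Prop := ∀ u v : ℤ, 1 ≤ u → u ≤ Q → (T : ℤ) < |n2 * u - n1 * v|

def S_POL : Prop := ∀ a b c E D k l X Y Z x y z : ℝ, a < b → b < c → 0 ≤ X → 0 ≤ Y → 0 ≤ Z →
  0 ≤ x → 0 ≤ y → 0 ≤ z → X ^ 2 = a * E + k → Y ^ 2 = b * E + k → Z ^ 2 = c * E + k →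
  x ^ 2 = a * D + l → y ^ 2 = b * D + l → z ^ 2 = c * D + l →
    0 ≤ (c - a) * Y * y - (c - b) * X * x - (b - a) * Z * z ∧
    8 * (X * Y * Z) * (x * y * z) * ((c - a) * Y * y - (c - b) * X * x - (b - a) * Z * z) ≤
      (b - a) * (c - a) * (c - b) * (k * D - l * E) ^ 2

def S_DET : Prop := ∀ (N a b c r s t d x y z : ℕ) (ρ σ : ℝ), Tr N a b c r s t →
  Ex N a b c d x y z → 0 ≤ ρ → 0 ≤ σ → ρ ^ 2 = a * b → σ ^ 2 = a * c →
    16 * ((b : ℝ) * c) * ((a * t + r * s) * (b * s + r * t) * (c * r + s * t)) * x ^ 3 *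
        |bt a c r t ρ σ * uu a b s t x y z - al a b s t ρ σ * vv a c r t x y z| ≤
      ((a : ℝ) * t - r * s) * ((b - a) * (c - a) * (c - b)) * N ^ 3 *
        (N * x ^ 2 + (a * t + r * s) ^ 2)

def S_UB : Prop := ∀ (N a b c r s t d x y z : ℕ) (ρ σ lam : ℝ), Tr N a b c r s t →
  Ex N a b c d x y z → 0 ≤ ρ → 0 ≤ σ → 0 ≤ lam → ρ ^ 2 = a * b → σ ^ 2 = a * c →
  lam ^ 2 = a * d →
    1 ≤ uu a b s t x y z ∧ 1 ≤ s ∧ s ≤ x ∧ b - a ≤ z ∧ x * s ≤ a * z ∧ r * s < a * t ∧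
    2 * (a : ℝ) * z * uu a b s t x y z ≤ 2 * z * lam * al a b s t ρ σ + a * (b - a) * N

def S_LIN : Prop := ∀ N W a b c r s t d x y z R S C X : ℕ, Tr N a b c r s t →
  Ex N a b c d x y z → RV R (a * b * (W * W)) → RV S (a * c * (W * W)) →
  1 ≤ nn1 (a * W) a b s t R S → 1 ≤ nn2 (a * W) a c r t R S → CV N W a b c r s t C →
  a * t + r * s ≤ X →
    KF N (a * W) (nn1 (a * W) a b s t R S) (nn2 (a * W) a c r t R S) (2 * (t + c)) C X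
      (dd N a b s) s x (uu a b s t x y z) (vv a c r t x y z)

def S_ROOT : Prop := ∀ N W r : ℕ, RV (root N W r) ((r ^ 2 + N) * (W * W)) ∧
  RV (root0 N W r) ((r ^ 2 + N) * (W * W)) ∧ root N W 0 = 0

def S_CV : Prop :=
  (∀ N W a b c r s t : ℕ, Tr N a b c r s t → CV N W a b c r s t (cG N W a b c r s t)) ∧
  ∀ N W a b r : ℕ, Tr N a b (a + r + (b + r)) r (a + r) (b + r) → 1 ≤ r →
    CV N W a b (a + r + (b + r)) r (a + r) (b + r)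
        ((N ^ 4 * W / 64 + 1) * (b - a) / (r * (b + r)) ^ 3 + 1) ∧
      a * (b + r) + r * (a + r) ≤ (a + a) * (b + r)

def S_HI : Prop := ∀ N n1 n2 C U Q g n m : ℕ, hi N n1 C U Q g n m = true → Iv n1 n2 n m →
  NoP n1 n2 Q (C * (N + 1) / g + U)

def S_F2 : Prop := ∀ N aW s C X G q0 n1 n2 e : ℕ, f2 N aW s C X G q0 n1 n2 e = true → 1 ≤ q0 →
  1 ≤ n1 ∧ 1 ≤ n2 ∧ ∀ (D x : ℕ) (u v : ℤ), KF N aW n1 n2 e C X D s x u v →
    (∀ h : ℕ, x ≤ h → u ≤ ((h + 16) * (n1 + e) / aW + q0 : ℕ)) → G < x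

def S_F3 : Prop := ∀ N aW s C X G D n1 n2 e : ℕ, f3 N aW s C X G D n1 n2 e = true →
  1 ≤ n1 ∧ 1 ≤ n2 ∧ ∀ (x : ℕ) (u v : ℤ), KF N aW n1 n2 e C X D s x u v → G < x

def S_CAND : Prop := ∀ (N a b c r s t d x y z u v : ℕ) (F : ℕ → Bool), Tr N a b c r s t →
  Ex N a b c d x y z → uu a b s t x y z = u → vv a c r t x y z = v →
  cand N (b - a) (c - a) t (2 * (a * t - r * s)) ((c - a) * (b * s + r * t))
    ((b - a) * (c * r + s * t)) F u v = true → F x = true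

def S_FIN : Prop :=
  (∀ (N aW a b c R S d x y z : ℕ) (I : ℕ → Bool), 1 ≤ N → Ex N a b c d x y z →
    fin N aW a b c R S I x = true → I d = true) ∧
  ∀ (F : ℕ → Bool) (l k x : ℕ), all F l k = true → l ≤ x → x < l + k → F x = true

def S_W2 : Prop := ∀ (K : B2) (F : ℕ → Bool) (N aW s C X D G n1 n2 e : ℕ),
  w2 K F N aW s C X D G n1 n2 e = true → 1 ≤ n1 ∧ 1 ≤ n2 ∧
    ∀ (x : ℕ) (u v : ℤ), KF N aW n1 n2 e C X D s x u v → x ≤ G →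
      F x = true ∨ ∃ u' v' : ℕ, u = u' ∧ v = v' ∧ K u' v' = true

def S_GEN : Prop := ∀ (N W a b c r s t G d x y z : ℕ) (I : ℕ → Bool),
  gen N W a b c r s t G I = true → Tr N a b c r s t → Ex N a b c d x y z → x ≤ G → I d = true

/-- a valid value of `root` -/
def RO (N W r R : ℕ) : Prop := RV R ((r ^ 2 + N) * (W * W)) ∧ (r = 0 → R = 0)

def S_ND : Prop := ∀ (N W G a r b R S d x y z : ℕ) (fl : ℕ → ℕ → ℕ → Bool)
  (I : ℕ → ℕ → ℕ → ℕ → Bool),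
  nd N W (N ^ 4 * W / 64 + 1) G fl I a r b (a + r) (b + r) (a + r + (b + r)) R S = true →
  1 ≤ N → N ≤ 256 → a < b → r ^ 2 + N = a * b → RO N W r R → RO N W (a + r) S →
  Ex N a b (a + r + (b + r)) d x y z → x ≤ G →
    fl a b (a + r + (b + r)) = true ∨ I a b (a + r + (b + r)) d = true

def S_TREE : Prop := ∀ (N Am : ℕ) (ro : ℕ → ℕ) (nd : Nd) (T : TL) (Bd : ℕ → ℕ → ℕ → Prop)
  (P : ℕ → ℕ → Prop), 1 ≤ N → N ≤ 256 → (∀ r, P r (ro r)) →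
  (∀ a r b R S, nd a r b (a + r) (b + r) (a + r + (b + r)) R S = true → r ^ 2 + N = a * b →
    P r R → P (a + r) S → ¬ Bd a r b) →
  (∀ a r b, Bd a r b → a ≤ Am) →
  (∀ a0 a r b, Bd a r b → a0 ≤ a → b ≤ hB (dr a0 T)) →
  Ch (run N Am ro nd T) (roots N) 0 → ∀ a r b, r ^ 2 + N = a * b → a < b → ¬ Bd a r b

/-- `p q - N` is a square -/
def Sq (N p q : ℕ) : Prop := ∃ x : ℕ, x ^ 2 + N = p * q

/-- the filter rejects no part of a quintuple -/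
def FO (N : ℕ) (fl : ℕ → ℕ → ℕ → Bool) : Prop := ∀ a b c d e : ℕ, Sq N a d → Sq N b d →
  Sq N c d → Sq N a e → Sq N b e → Sq N c e → Sq N d e → fl a b c = false

/-- regular triples under a staircase, as parts of quintuples -/
def RegE (N G : ℕ) (st : List (ℕ × ℕ)) : Prop := ∀ a b c d e r s t x y z : ℕ,
  Tr N a b c r s t → Ex N a b c d x y z → c = a + b + 2 * r →
    (∃ u ∈ st, a ≤ u.1 ∧ b ≤ u.2) → x ≤ G → Sq N a e → Sq N b e → Sq N c e → Sq N d e →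
      EX.inL (EX.qf N) a b c d = true

def S_REG : Prop := ∀ (N G Am B : ℕ) (st : List (ℕ × ℕ)) (fl : ℕ → ℕ → ℕ → Bool), 1 ≤ N →
  N ≤ 256 → anti Am st B = true → FO N fl →
  Ch (step N G Am fl (EX.inL (EX.qf N)) (toT st)) (roots N) 0 → RegE N G st

def R_REG : Prop := S_ROOT → S_ND → S_TREE → S_REG
def R_DET : Prop := S_POL → S_DET
def R_LIN : Prop := S_DET → S_UB → S_LIN
def R_EU : Prop := S_HI ∧ S_F2 ∧ S_F3
def R_CAND : Prop := S_POL → S_CAND ∧ S_FIN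
def R_W2 : Prop := S_HI → S_FIN → S_W2
def R_GEN : Prop := S_LIN → S_ROOT → S_CV → S_F2 → S_F3 → S_CAND → S_FIN → S_W2 → S_GEN ∧ S_ND

end Pool.Agent.MP_2339ce_nt.Q2.RG
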