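import Mathlib.Tactic.LinearCombination
import Mathlib.Tactic.Linarith
import Mathlib.Tactic.Positivity
import Mathlib.Tactic.Ring
import Pool.Agent.MP_2339ce_nt.Q2.RSpec

/-! Block REG: rows POL and DET. -/

set_option autoImplicit false

namespace Pool.Agent.MP_2339ce_nt.Q2.RG

namespace Det

theorem le_sq {u v : ℝ} (hu : 0 ≤ u) (hv : 0 ≤ v) (h : u ^ 2 ≤ v ^ 2) : u ≤ v :=
  (pow_le_pow_iff_left₀ hu hv two_ne_zero).1 h

theorem heron (p o e : ℝ) (hp : 0 ≤ p) (ho : 0 ≤ o) (he : 0 ≤ e) :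
    8 * p * (p + o + e) * o * e ≤
      (p ^ 2) ^ 2 + ((p + o + e) ^ 2) ^ 2 + (o ^ 2) ^ 2 - 2 * p ^ 2 * (p + o + e) ^ 2 -
        2 * p ^ 2 * o ^ 2 - 2 * (p + o + e) ^ 2 * o ^ 2 := by
  have h : (p ^ 2) ^ 2 + ((p + o + e) ^ 2) ^ 2 + (o ^ 2) ^ 2 - 2 * p ^ 2 * (p + o + e) ^ 2 -
        2 * p ^ 2 * o ^ 2 - 2 * (p + o + e) ^ 2 * o ^ 2 - 8 * p * (p + o + e) * o * e =
      e * (e * (4 * p ^ 2 + 4 * p * o + 4 * o ^ 2) + 4 * e ^ 2 * (p + o) + e ^ 3) := by ring
  have h2 : 0 ≤ e * (e * (4 * p ^ 2 + 4 * p * o + 4 * o ^ 2) + 4 * e ^ 2 * (p + o) + e ^ 3) := by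
    positivity
  linarith

theorem gram (f g h X Y Z x y z A R S : ℝ) (h0 : g * Y * Y - f * X * X - h * Z * Z = 0)
    (h1 : g * y * y - f * x * x - h * z * z = 0) (h2 : g * R * R - f * A * A - h * S * S = 0) :
    h * g * f * (X * (y * S - z * R) + Y * (z * A - x * S) + Z * (x * R - y * A)) ^ 2 =
      2 * ((g * Y * y - f * X * x - h * Z * z) * (g * Y * R - f * X * A - h * Z * S) *
        (g * R * y - f * A * x - h * S * z)) := by
  have e : h * g * f * (X * (y * S - z * R) + Y * (z * A - x * S) + Z * (x * R - y * A)) ^ 2 =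
      2 * ((g * Y * y - f * X * x - h * Z * z) * (g * Y * R - f * X * A - h * Z * S) *
        (g * R * y - f * A * x - h * S * z)) +
      (g * Y * Y - f * X * X - h * Z * Z) * (g * y * y - f * x * x - h * z * z) *
        (g * R * R - f * A * A - h * S * S) -
      (g * Y * Y - f * X * X - h * Z * Z) * (g * R * y - f * A * x - h * S * z) ^ 2 -
      (g * y * y - f * x * x - h * z * z) * (g * Y * R - f * X * A - h * Z * S) ^ 2 -
      (g * R * R - f * A * A - h * S * S) * (g * Y * y - f * X * x - h * Z * z) ^ 2 := by ring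
  rw [e, h0, h1, h2]
  ring

theorem fin3 (V P p Q e1 e2 e3 D k1 k2 k3 : ℝ) (hV : 0 < V) (hP : 0 ≤ P) (hp : 0 ≤ p)
    (hQ : 0 ≤ Q) (n2 : 0 ≤ e2) (n3 : 0 ≤ e3) (m1 : 0 ≤ k1) (m2 : 0 ≤ k2) (m3 : 0 ≤ k3)
    (hg : V * D ^ 2 = 2 * (e1 * e2 * e3)) (b1 : 8 * P * p * e1 ≤ V * k1 ^ 2)
    (b2 : 8 * P * Q * e2 ≤ V * k2 ^ 2) (b3 : 8 * Q * p * e3 ≤ V * k3 ^ 2) :
    16 * P * p * Q * |D| ≤ V * (k1 * k2 * k3) := by
  have c1 : (8 * P * p * e1) * (8 * P * Q * e2) ≤ (V * k1 ^ 2) * (V * k2 ^ 2) :=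
    mul_le_mul b1 b2 (by positivity) (by positivity)
  have c2 : (8 * P * p * e1) * (8 * P * Q * e2) * (8 * Q * p * e3) ≤
      (V * k1 ^ 2) * (V * k2 ^ 2) * (V * k3 ^ 2) :=
    mul_le_mul c1 b3 (by positivity) (by positivity)
  apply le_sq (by positivity) (by positivity)
  apply le_of_mul_le_mul_left _ hV
  have e : V * (16 * P * p * Q * |D|) ^ 2 =
      (8 * P * p * e1) * (8 * P * Q * e2) * (8 * Q * p * e3) := by
    rw [mul_pow, sq_abs]
    linear_combination (16 * P * p * Q) ^ 2 * hg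
  rw [e]
  refine c2.trans (le_of_eq ?_)
  ring

end Det

theorem pol : S_POL := by
  intro a b c E D k l X Y Z x y z hab hbc hX hY hZ hx hy hz eX eY eZ ex ey ez
  have h1 : 0 < b - a := sub_pos.2 hab
  have h2 : 0 < c - b := sub_pos.2 hbc
  have h3 : 0 < c - a := by linarith
  have hp : 0 ≤ (c - b) * X * x := by positivity
  have hq : 0 ≤ (c - a) * Y * y := by positivity
  have ho : 0 ≤ (b - a) * Z * z := by positivity
  have g1 : (c - a) * Y ^ 2 = (c - b) * X ^ 2 + (b - a) * Z ^ 2 := by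
    rw [eX, eY, eZ]; ring
  have g2 : (c - a) * y ^ 2 = (c - b) * x ^ 2 + (b - a) * z ^ 2 := by
    rw [ex, ey, ez]; ring
  have g3 : ((c - a) * Y * y) ^ 2 = ((c - b) * X * x + (b - a) * Z * z) ^ 2 +
      (c - b) * (b - a) * (X * z - Z * x) ^ 2 := by
    have : ((c - a) * Y * y) ^ 2 = ((c - a) * Y ^ 2) * ((c - a) * y ^ 2) := by ring
    rw [this, g1, g2]; ring
  have g4 : (c - b) * X * x + (b - a) * Z * z ≤ (c - a) * Y * y := by
    apply Det.le_sq (by positivity) hq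
    have : 0 ≤ (c - b) * (b - a) * (X * z - Z * x) ^ 2 := by positivity
    linarith
  have he : 0 ≤ (c - a) * Y * y - (c - b) * X * x - (b - a) * Z * z := by linarith
  refine ⟨he, ?_⟩
  have hh := Det.heron _ _ _ hp ho he
  have q0 : (c - b) * X * x + (b - a) * Z * z +
      ((c - a) * Y * y - (c - b) * X * x - (b - a) * Z * z) = (c - a) * Y * y := by ring
  rw [q0] at hh
  have p2 : ((c - b) * X * x) ^ 2 = (c - b) ^ 2 * (a * E + k) * (a * D + l) := by
    rw [← eX, ← ex]; ring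
  have q2 : ((c - a) * Y * y) ^ 2 = (c - a) ^ 2 * (b * E + k) * (b * D + l) := by
    rw [← eY, ← ey]; ring
  have o2 : ((b - a) * Z * z) ^ 2 = (b - a) ^ 2 * (c * E + k) * (c * D + l) := by
    rw [← eZ, ← ez]; ring
  rw [p2, q2, o2] at hh
  have hV : 0 < (b - a) * (c - a) * (c - b) := by positivity
  apply le_of_mul_le_mul_left _ hV
  refine le_trans (le_of_eq ?_) (hh.trans (le_of_eq ?_))
  · ring
  · ring

namespace Det

theorem real (N a b c r s t d x y z ρ σ : ℝ) (hN : 0 < N) (ha : 0 < a) (hab : a < b)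
    (hbc : b < c) (hd : 0 ≤ d) (r0 : 0 ≤ r) (s0 : 0 ≤ s) (t0 : 0 ≤ t) (x0 : 0 ≤ x) (y0 : 0 ≤ y)
    (z0 : 0 ≤ z) (hr : r ^ 2 + N = a * b) (hs : s ^ 2 + N = a * c) (ht : t ^ 2 + N = b * c)
    (hx : x ^ 2 + N = a * d) (hy : y ^ 2 + N = b * d) (hz : z ^ 2 + N = c * d)
    (ρ0 : 0 ≤ ρ) (σ0 : 0 ≤ σ) (hρ : ρ ^ 2 = a * b) (hσ : σ ^ 2 = a * c) :
    16 * (b * c) * ((a * t + r * s) * (b * s + r * t) * (c * r + s * t)) * x ^ 3 *
        |(t * σ - r * a - (c - a) * ρ) * (t * y - s * x - (b - a) * z) -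
          (t * ρ - s * a - (b - a) * σ) * (t * z - r * x - (c - a) * y)| ≤
      (a * t - r * s) * ((b - a) * (c - a) * (c - b)) * N ^ 3 *
        (N * x ^ 2 + (a * t + r * s) ^ 2) := by
  have hb : 0 < b := ha.trans hab
  have hc : 0 < c := hb.trans hbc
  have h1 : 0 < b - a := sub_pos.2 hab
  have h2 : 0 < c - b := sub_pos.2 hbc
  have h3 : 0 < c - a := by linarith
  have hV : 0 < (b - a) * (c - a) * (c - b) := by positivity
  have er : r ^ 2 = a * b - N := by linarith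
  have es : s ^ 2 = a * c - N := by linarith
  have et : t ^ 2 = b * c - N := by linarith
  obtain ⟨E, hE⟩ : ∃ E, E = 2 * a * b * c + 2 * r * s * t - N * (a + b + c) := ⟨_, rfl⟩
  obtain ⟨X, hX⟩ : ∃ X, X = a * t + r * s := ⟨_, rfl⟩
  obtain ⟨Y, hY⟩ : ∃ Y, Y = b * s + r * t := ⟨_, rfl⟩
  obtain ⟨Z, hZ⟩ : ∃ Z, Z = c * r + s * t := ⟨_, rfl⟩
  have X0 : 0 ≤ X := by rw [hX]; positivity
  have Y0 : 0 ≤ Y := by rw [hY]; positivity
  have Z0 : 0 ≤ Z := by rw [hZ]; positivity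
  have eX : X ^ 2 = a * E + N ^ 2 := by
    rw [hX, hE]; linear_combination a ^ 2 * et + s ^ 2 * er + (a * b - N) * es
  have eY : Y ^ 2 = b * E + N ^ 2 := by
    rw [hY, hE]; linear_combination b ^ 2 * es + t ^ 2 * er + (a * b - N) * et
  have eZ : Z ^ 2 = c * E + N ^ 2 := by
    rw [hZ, hE]; linear_combination c ^ 2 * er + t ^ 2 * es + (a * c - N) * et
  have ex : x ^ 2 = a * d + -N := by linarith
  have ey : y ^ 2 = b * d + -N := by linarith
  have ez : z ^ 2 = c * d + -N := by linarith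
  have ea : a ^ 2 = a * a + 0 := by ring
  have eρ : ρ ^ 2 = b * a + 0 := by linarith
  have eσ : σ ^ 2 = c * a + 0 := by linarith
  obtain ⟨-, b1⟩ := pol a b c E d (N ^ 2) (-N) X Y Z x y z hab hbc X0 Y0 Z0 x0 y0 z0
    eX eY eZ ex ey ez
  obtain ⟨n2, b2⟩ := pol a b c E a (N ^ 2) 0 X Y Z a ρ σ hab hbc X0 Y0 Z0 ha.le ρ0 σ0
    eX eY eZ ea eρ eσ
  obtain ⟨n3, b3⟩ := pol a b c a d 0 (-N) a ρ σ x y z hab hbc ha.le ρ0 σ0 x0 y0 z0
    ea eρ eσ ex ey ez
  have hg := gram (c - b) (c - a) (b - a) X Y Z x y z a ρ σ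
    (by linear_combination (c - a) * eY - (c - b) * eX - (b - a) * eZ)
    (by linear_combination (c - a) * ey - (c - b) * ex - (b - a) * ez)
    (by linear_combination (c - a) * eρ - (b - a) * eσ)
  have k1 : a * (N ^ 2 * d - -N * E) = N * (N * x ^ 2 + X ^ 2) := by
    linear_combination -N ^ 2 * ex - N * eX
  have m1 : 0 ≤ N ^ 2 * d - -N * E := by
    have : 0 ≤ a * (N ^ 2 * d - -N * E) := by rw [k1]; positivity
    exact (mul_nonneg_iff_of_pos_left ha).1 this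
  have m2 : 0 ≤ N ^ 2 * a - 0 * E := by rw [zero_mul, sub_zero]; positivity
  have m3 : 0 ≤ 0 * d - -N * a := by
    have : 0 * d - -N * a = N * a := by ring
    rw [this]; positivity
  have hf := fin3 _ (X * Y * Z) (x * y * z) (a * ρ * σ) _ _ _ _ _ _ _ hV (by positivity)
    (by positivity) (by positivity) n2 n3 m1 m2 m3 hg b1 b2 b3
  obtain ⟨D, hD⟩ : ∃ D, D = X * (y * σ - z * ρ) + Y * (z * a - x * σ) + Z * (x * ρ - y * a) :=
    ⟨_, rfl⟩
  rw [← hD] at hf
  have hf2 : 16 * (X * Y * Z) * (x * |D|) * ((ρ * y) * (σ * z)) ≤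
      (b - a) * (c - a) * (c - b) * (N ^ 4 * (N * x ^ 2 + X ^ 2)) := by
    apply le_of_mul_le_mul_left _ ha
    refine le_trans (le_of_eq ?_) (hf.trans (le_of_eq ?_))
    · ring
    · linear_combination ((b - a) * (c - a) * (c - b) * N ^ 3 * a) * k1
  have u1 : b * x ≤ ρ * y := by
    apply le_sq (by positivity) (by positivity)
    have : (ρ * y) ^ 2 - (b * x) ^ 2 = b * (N * (b - a)) := by
      rw [mul_pow, mul_pow, eρ, ex, ey]; ring
    have h' : 0 ≤ b * (N * (b - a)) := by positivity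
    linarith
  have u2 : c * x ≤ σ * z := by
    apply le_sq (by positivity) (by positivity)
    have : (σ * z) ^ 2 - (c * x) ^ 2 = c * (N * (c - a)) := by
      rw [mul_pow, mul_pow, eσ, ex, ez]; ring
    have h' : 0 ≤ c * (N * (c - a)) := by positivity
    linarith
  have u3 : (b * x) * (c * x) ≤ (ρ * y) * (σ * z) :=
    mul_le_mul u1 u2 (by positivity) (by positivity)
  have u4 : 16 * (X * Y * Z) * (x * |D|) * ((b * x) * (c * x)) ≤
      (b - a) * (c - a) * (c - b) * (N ^ 4 * (N * x ^ 2 + X ^ 2)) :=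
    (mul_le_mul_of_nonneg_left u3 (by positivity)).trans hf2
  have w0 : 0 ≤ a * t - r * s := by
    have : r * s ≤ a * t := by
      apply le_sq (by positivity) (by positivity)
      have : (a * t) ^ 2 - (r * s) ^ 2 = N * (r ^ 2 + a * (c - a)) := by
        rw [mul_pow, mul_pow, er, es, et]; ring
      have h' : 0 ≤ N * (r ^ 2 + a * (c - a)) := by positivity
      linarith
    linarith
  have w1 : N * (t ^ 2 - (b - a) * (c - a)) = (a * t - r * s) * X := by
    rw [hX]; linear_combination (N - a ^ 2) * et + s ^ 2 * er + (a * b - N) * es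
  have w2 : N * (r * (b - a) + s * t) = (a * t - r * s) * Y := by
    rw [hY]; linear_combination s * t * er + r * b * es - a * r * et
  have w3 : N * (s * (c - a) + r * t) = (a * t - r * s) * Z := by
    rw [hZ]; linear_combination r * t * es + s * c * er - a * s * et
  obtain ⟨e, he⟩ : ∃ e, e = (t * σ - r * a - (c - a) * ρ) * (t * y - s * x - (b - a) * z) -
      (t * ρ - s * a - (b - a) * σ) * (t * z - r * x - (c - a) * y) := ⟨_, rfl⟩
  have w4 : N * e = (a * t - r * s) * D := by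
    rw [he, hD]
    linear_combination (y * σ - z * ρ) * w1 + (z * a - x * σ) * w2 + (x * ρ - y * a) * w3
  have w5 : N * |e| = (a * t - r * s) * |D| := by
    have := congrArg abs w4
    rwa [abs_mul, abs_mul, abs_of_pos hN, abs_of_nonneg w0] at this
  rw [← he, ← hX, ← hY, ← hZ]
  apply le_of_mul_le_mul_left _ hN
  refine le_trans (le_of_eq ?_) ((mul_le_mul_of_nonneg_left u4 w0).trans (le_of_eq ?_))
  · linear_combination (16 * (b * c) * (X * Y * Z) * x ^ 3) * w5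
  · ring

end Det

theorem det : S_DET := by
  intro N a b c r s t d x y z ρ σ hT hE ρ0 σ0 hρ hσ
  have hN : (0 : ℝ) < N := by exact_mod_cast hT.n1
  have ha : (0 : ℝ) < a := by
    have h1 := hT.hr
    have h2 := hT.n1
    have : 0 < a := Nat.pos_of_ne_zero (by rintro rfl; omega)
    exact_mod_cast this
  have h := Det.real N a b c r s t d x y z ρ σ hN ha (by exact_mod_cast hT.ab)
    (by exact_mod_cast hT.bc) (Nat.cast_nonneg _) (Nat.cast_nonneg _) (Nat.cast_nonneg _)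
    (Nat.cast_nonneg _) (Nat.cast_nonneg _) (Nat.cast_nonneg _) (Nat.cast_nonneg _)
    (by exact_mod_cast hT.hr) (by exact_mod_cast hT.hs) (by exact_mod_cast hT.ht)
    (by exact_mod_cast hE.hx) (by exact_mod_cast hE.hy) (by exact_mod_cast hE.hz) ρ0 σ0 hρ hσ
  unfold bt al uu vv
  push_cast
  exact h

end Pool.Agent.MP_2339ce_nt.Q2.RG
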