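import Pool.Agent.MP_2339ce_nt.Q2.RSpec

/-! Block REG: the Euclidean algorithm. -/

set_option autoImplicit false

namespace Pool.Agent.MP_2339ce_nt.Q2.RG

theorem iv_start (n1 n2 : ℕ) : Iv n1 n2 n1 (n2 % n1) := by
  refine ⟨0, 1, by simp, fun u v => ⟨v - (n2 / n1 : ℕ) * u, u, by simp, ?_⟩⟩
  have h : (n2 : ℤ) = n1 * (n2 / n1 : ℕ) + (n2 % n1 : ℕ) := by
    exact_mod_cast (Nat.div_add_mod n2 n1).symm
  rw [abs_sub_comm]
  congr 1
  linear_combination (-u) * h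

theorem iv_step {n1 n2 n m : ℕ} (h : Iv n1 n2 n m) : Iv n1 n2 m (n % m) := by
  obtain ⟨q, q1, h1, h2⟩ := h
  have e := Nat.div_add_mod n m
  refine ⟨q1, q + n / m * q1, ?_, fun u v => ?_⟩
  · rw [← h1]
    generalize n / m = k at e
    generalize n % m = r at e
    subst e
    ring
  · obtain ⟨i, j, h3, h4⟩ := h2 u v
    have e' : (n : ℤ) = m * (n / m : ℕ) + (n % m : ℕ) := by exact_mod_cast e.symm
    refine ⟨j - i * (n / m : ℕ), i, ?_, ?_⟩
    · rw [h3, Nat.cast_add, Nat.cast_mul]; ring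
    · rw [h4, abs_sub_comm]
      congr 1
      linear_combination (-i) * e'

namespace Eu

theorem rec_true {p q b : Bool} (h : @Bool.rec (fun _ => Bool) p q b = true) :
    (b = false ∧ p = true) ∨ (b = true ∧ q = true) := by
  cases b
  · exact Or.inl ⟨rfl, h⟩
  · exact Or.inr ⟨rfl, h⟩

theorem rec_and {q b : Bool} (h : @Bool.rec (fun _ => Bool) false q b = true) :
    b = true ∧ q = true :=
  (rec_true h).resolve_left fun h => Bool.false_ne_true h.2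

theorem four {n1 Q m : ℕ} (h : m ≤ 3 * n1 / 4 / Q) : 4 * (m * Q) ≤ 3 * n1 := by
  have h1 : m * Q ≤ 3 * n1 / 4 := (Nat.mul_le_mul_right Q h).trans (Nat.div_mul_le_self _ _)
  omega

theorem jz {j : ℤ} {m T : ℕ} (h : |j * m| ≤ T) (hm : T < m) : j = 0 := by
  by_contra hj
  have h1 : 1 ≤ |j| := Int.one_le_abs hj
  rw [abs_mul, abs_of_nonneg (Int.natCast_nonneg m)] at h
  have h2 : (T : ℤ) < m := by exact_mod_cast hm
  nlinarith

theorem finA {n1 n2 n m Q T : ℕ} (h : Iv n1 n2 n m) (h1 : T < m) (h2 : 4 * T < n)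
    (h3 : m ≤ 3 * n1 / 4 / Q) : NoP n1 n2 Q T := by
  intro u v hu hQ
  obtain ⟨q, q1, e, h4⟩ := h
  obtain ⟨i, j, h5, h6⟩ := h4 u v
  rw [h6]
  by_contra hn
  rw [not_lt] at hn
  have h7 : (4 : ℤ) * (m * Q) ≤ 3 * n1 := by exact_mod_cast four h3
  have e' : (n : ℤ) * q1 + m * q = n1 := by exact_mod_cast e
  have hm : (T : ℤ) < m := by exact_mod_cast h1
  have hn' : 4 * (T : ℤ) < n := by exact_mod_cast h2
  have hT : (0 : ℤ) ≤ T := Int.natCast_nonneg T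
  have hq : (0 : ℤ) ≤ q := Int.natCast_nonneg q
  have hq1 : (0 : ℤ) ≤ q1 := Int.natCast_nonneg q1
  by_cases hi : i = 0
  · subst hi
    rw [zero_mul, zero_sub, abs_neg] at hn
    rw [jz hn h1] at h5
    omega
  · have h8 : i * n1 = (i * n - j * m) * q1 + m * u := by rw [h5, ← e']; ring
    have h9 : (n1 : ℤ) ≤ |i * n1| := by
      rw [abs_mul, abs_of_nonneg (Int.natCast_nonneg n1)]
      exact le_mul_of_one_le_left (Int.natCast_nonneg n1) (Int.one_le_abs hi)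
    have h10 : |i * n1| ≤ T * q1 + m * Q := by
      rw [h8]
      refine (abs_add_le _ _).trans (add_le_add ?_ ?_)
      · rw [abs_mul, abs_of_nonneg hq1]
        exact mul_le_mul_of_nonneg_right hn hq1
      · rw [abs_of_nonneg (mul_nonneg (by omega) (by omega))]
        exact mul_le_mul_of_nonneg_left hQ (by omega)
    have h11 : (1 : ℤ) ≤ m * Q := by nlinarith
    have h12 : (0 : ℤ) ≤ m * q := mul_nonneg (by omega) hq
    rcases eq_or_lt_of_le hq1 with h13 | h13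
    · rw [← h13] at h10
      omega
    · nlinarith

theorem finB {n1 n2 n m Q T : ℕ} (h : Iv n1 n2 n m) (h0 : m ≤ n ∨ n = 0) (h1 : 4 * T < m)
    (h3 : m ≤ 3 * n1 / 4 / Q) : NoP n1 n2 Q T := by
  rcases h0 with h0 | rfl
  · exact finA h (by omega) (by omega) h3
  intro u v hu hQ
  obtain ⟨q, q1, e, h4⟩ := h
  obtain ⟨i, j, h5, h6⟩ := h4 u v
  rw [h6]
  by_contra hn
  rw [not_lt, Nat.cast_zero, mul_zero, zero_sub, abs_neg] at hn
  rw [jz hn (by omega), zero_mul, add_zero] at h5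
  have h7 := four h3
  rw [← e, zero_mul, zero_add] at h7
  have h8 : 4 * Q ≤ 3 * q := by
    refine Nat.le_of_mul_le_mul_left (?_ : m * (4 * Q) ≤ m * (3 * q)) (by omega)
    rw [Nat.mul_left_comm m 4, Nat.mul_left_comm m 3]
    exact h7
  have h9 : (4 : ℤ) * Q ≤ 3 * q := by exact_mod_cast h8
  have hq : (0 : ℤ) ≤ q := Int.natCast_nonneg q
  have hi : 1 ≤ i := by
    by_contra hi
    nlinarith
  nlinarith

/-- the test succeeds at some step -/
def Gd (n1 n2 H : ℕ) (k l : B2) : Prop := ∀ n m, Iv n1 n2 n m → l n m = true →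
  ∃ n' m', Iv n1 n2 n' m' ∧ (m' ≤ n' ∨ n' = 0) ∧ m' ≤ H ∧ k n' m' = true

variable {n1 n2 H : ℕ} {k l : B2}

theorem gd0 : Gd n1 n2 H k no := fun _ _ _ h => absurd h Bool.false_ne_true

theorem gd1 (h : Gd n1 n2 H k l) : Gd n1 n2 H k (e1 H k l) := fun n m hi he => by
  rcases rec_true he with ⟨-, h2⟩ | ⟨h1, h2⟩
  · exact h _ _ (iv_step hi) h2
  · refine ⟨_, _, iv_step hi, ?_, Nat.le_of_ble_eq_true h1, h2⟩
    rcases Nat.eq_zero_or_pos m with h0 | h0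
    · exact Or.inr h0
    · exact Or.inl (Nat.mod_lt n h0).le

theorem gd2 (h : Gd n1 n2 H k l) : Gd n1 n2 H k (e2 H k l) := fun _ _ hi he =>
  gd1 h _ _ (iv_step hi) he

theorem gd3 (h : Gd n1 n2 H k l) : Gd n1 n2 H k (e3 H k l) := fun _ _ hi he =>
  gd2 h _ _ (iv_step hi) he

theorem gd4 (h : Gd n1 n2 H k l) : Gd n1 n2 H k (e4 H k l) := fun _ _ hi he =>
  gd3 h _ _ (iv_step hi) he

theorem gdj (h : Gd n1 n2 H k l) : Gd n1 n2 H k (j4 l) := fun _ _ hi he =>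
  h _ _ (iv_step (iv_step (iv_step (iv_step hi)))) he

theorem nop_pos {Q T : ℕ} (h : NoP n1 n2 Q T) (hQ : 1 ≤ Q) : 1 ≤ n2 := by
  have h1 := h 1 0 le_rfl (by exact_mod_cast hQ)
  rw [mul_one, mul_zero, sub_zero, abs_of_nonneg (Int.natCast_nonneg n2)] at h1
  omega

theorem nop_ne {Q T T' : ℕ} {u v : ℤ} (h : NoP n1 n2 Q T) (h1 : 1 ≤ u) (h2 : u ≤ Q)
    (h3 : |n2 * u - n1 * v| ≤ T') (h4 : T' ≤ T) : False := by
  have h5 := h u v h1 h2
  omega

end Eu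

open Eu

theorem hi_ok : S_HI := by
  intro N n1 n2 C U Q g n m h hi
  obtain ⟨n', m', a, b, c, d⟩ :=
    gdj (gdj (gd2 (gd2 (gd2 (gd4 (gd4 (gd4 (gd4 gd0)))))))) n m hi h
  exact finB a b (Nat.le_of_ble_eq_true d) c

theorem f2_ok : S_F2 := by
  intro N aW s C X G q0 n1 n2 e h hq
  obtain ⟨n, m, a, -, c, d⟩ :=
    gd3 (gd1 (gd1 (gd1 (gd1 (gd1 (gd2 (gd2 gd0))))))) n1 (n2 % n1) (iv_start n1 n2) h
  obtain ⟨d1, d2⟩ := rec_and d
  obtain ⟨d2, d3⟩ := rec_and d2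
  have d1 := Nat.le_of_ble_eq_true d1
  have p1 := finA a d1 (Nat.le_of_ble_eq_true d2) c
  have p2 := hi_ok _ _ _ _ _ _ _ _ _ d3 a
  refine ⟨?_, nop_pos p1 (hq.trans (Nat.le_add_left _ _)), fun D x u v K hu => ?_⟩
  · by_contra h0
    obtain rfl : n1 = 0 := by omega
    have c' : m ≤ 0 / _ := c
    rw [Nat.zero_div] at c'
    exact absurd (d1.trans c') (Nat.not_succ_le_zero _)
  · by_contra hx
    rw [not_lt] at hx
    rcases le_total x X with h1 | h1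
    · exact nop_ne p1 K.u1 (hu X h1) (K.tl s _ K.s1 K.sx (hu X h1))
        (Nat.add_le_add_left (Nat.mul_le_mul_right _ (Nat.le_add_right _ _)) _)
    · exact nop_ne p2 K.u1 (hu G hx) (K.th X _ K.x1 le_rfl h1 (hu G hx))
        (Nat.add_le_add_left (Nat.mul_le_mul_right _ (Nat.le_add_left _ _)) _)

theorem f3_ok : S_F3 := by
  intro N aW s C X G D n1 n2 e h
  rcases rec_true h with ⟨-, h⟩ | ⟨h, -⟩
  · obtain ⟨a, b, c⟩ := f2_ok _ _ _ _ _ _ _ _ _ _ h (Nat.le_add_left 1 _)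
    exact ⟨a, b, fun x u v K => c D x u v K fun g hg => K.qD s g K.s1 K.sx hg⟩
  · obtain ⟨d1, d2⟩ := rec_and h
    obtain ⟨d2, d3⟩ := rec_and d2
    obtain ⟨d3, d4⟩ := rec_and d3
    have d1 : D + D ≤ s := Nat.le_of_ble_eq_true d1
    have d3 : X ≤ aW / (2 * (n1 + e + 1)) - 16 := Nat.le_of_ble_eq_true d3
    have p := hi_ok _ _ n2 _ _ _ _ _ _ d4 (iv_start n1 n2)
    refine ⟨Nat.le_of_ble_eq_true d2, nop_pos p (Nat.le_add_left 1 _), fun x u v K => ?_⟩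
    by_contra hx
    rw [not_lt] at hx
    have h1 := K.sx
    have h2 := K.d1
    have h3 := K.qD x G (K.s1.trans h1) le_rfl hx
    rw [Nat.div_eq_of_lt (show D < x by omega), zero_add] at h3
    exact nop_ne p K.u1 h3 (K.th _ _ (K.x1.trans d3) d3 (K.sk s h1 d1) h3) le_rfl

theorem eu : R_EU := ⟨hi_ok, f2_ok, f3_ok⟩

end Pool.Agent.MP_2339ce_nt.Q2.RG
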