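import Pool.Agent.MP_2339ce_nt.DQ.Srch

/-! Block FB: an exact list of the extensions of a pair, the program. -/

set_option autoImplicit false

noncomputable section

namespace Pool.Agent.MP_2339ce_nt.Q2.FB

open Pool.Agent.MP_2339ce_nt.DQ.SR (nw nsq)

abbrev S4 := ℕ → ℕ → ℕ → ℕ → Bool

abbrev S5 := ℕ → ℕ → ℕ → ℕ → ℕ → Bool

def an (p r : Bool) : Bool := @Bool.rec (fun _ => Bool) false r p

def hit2 (Q : ℕ) (T : ℕ → Bool) (y : ℕ) : Bool :=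
  @Bool.rec (fun _ => Bool) true (T (Nat.div y Q)) (Nat.beq (Nat.mod y Q) 0)

def hit1 (M Q Z : ℕ) (T : ℕ → Bool) (w : ℕ) : Bool :=
  @Bool.rec (fun _ => Bool) true (hit2 Q T (Nat.add (Nat.mul w w) M)) (Nat.ble w Z)

/-- test `((g x) ^ 2 + M) / Q` for the `g` in `gs` with `m g ^ 2 = M` -/
def hit (M Q Z : ℕ) (gs : List ℕ) (T : ℕ → Bool) (m x : ℕ) : Bool :=
  @Bool.rec (fun _ => Bool) true
    (@List.rec ℕ (fun _ => Bool) true (fun g _ r =>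
      @Bool.rec (fun _ => Bool) r (an (hit1 M Q Z T (Nat.mul g x)) r)
        (Nat.beq (Nat.mul m (Nat.mul g g)) M)) gs) (Nat.beq (Nat.mod M m) 0)

def t2 (M : ℕ) (R : ℕ → ℕ → Bool) (ih : S5) (A B C x1 x2 m : ℕ) : Bool :=
  @Bool.rec (fun _ => Bool) true
    (an (R m (Nat.add x1 x2)) (an (ih A (Nat.add B (Nat.mul 2 A)) m x1 (Nat.add x1 x2))
      (ih m (Nat.add B (Nat.mul 2 C)) C (Nat.add x1 x2) x2))) (Nat.ble m M)

/-- the values of the form `A i ^ 2 + B i j + C j ^ 2` -/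
def tree (M : ℕ) (R : ℕ → ℕ → Bool) (f : ℕ) : S5 :=
  @Nat.rec (fun _ => S5) (fun _ _ _ _ _ => false)
    (fun _ ih A B C x1 x2 => t2 M R ih A B C x1 x2 (Nat.add (Nat.add A B) C)) f

def unit (M : ℕ) (R : ℕ → ℕ → Bool) (C A A1 x y : ℕ) : Bool :=
  an (R A1 y) (tree M R 100000 A (Nat.add (Nat.add A A1) C) A1 x y)

def val (E T C S : ℕ) : ℕ := Nat.div (Nat.add E (Nat.mul S (Nat.sub T S))) C

def fl (M : ℕ) (R : ℕ → ℕ → Bool) (C : ℕ) (ih : S5) (A n A1 x S1 B y : ℕ) : Bool :=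
  an (unit M R C A B x y) (ih B S1 (Nat.pred n) A1 y)

def fr (M : ℕ) (R : ℕ → ℕ → Bool) (C x2 : ℕ) (ih : S5) (A S A1 x m B y : ℕ) : Bool :=
  an (unit M R C B A1 y (Nat.add y x2)) (ih A S m B x)

/-- the values of `A i ^ 2 + (2 S - T) i j - C j ^ 2` for `j ≤ n i` -/
def fan (M E T : ℕ) (R : ℕ → ℕ → Bool) (C x2 f : ℕ) : S5 :=
  @Nat.rec (fun _ => S5) (fun _ _ _ _ _ => false)
    (fun _ ih A S n A1 x =>
      @Bool.rec (fun _ => Bool)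
        (@Bool.rec (fun _ => Bool)
          (@Bool.rec (fun _ => Bool) true
            (fr M R C x2 ih A S A1 x (Nat.pred n) (val E T C (Nat.sub S (Nat.mul C (Nat.pred n))))
              (Nat.add x (Nat.mul (Nat.pred n) x2))) (Nat.ble A1 M))
          (fl M R C ih A n A1 x (Nat.sub S C) (val E T C (Nat.sub S C)) (Nat.add x x2))
          (Nat.ble A M)) true (Nat.beq n 0)) f

def rare (M E T : ℕ) (R : ℕ → ℕ → Bool) (A x1 y2 S1 C l S2 A1 : ℕ) (r : Bool) : Bool :=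
  @Bool.rec (fun _ => Bool)
    (an (fan M E T R C y2 100000 A S1 l A1 x1)
      (@Bool.rec (fun _ => Bool) r (Nat.ble T (Nat.mul 2 S2)) (Nat.beq A1 0)))
    (an (Nat.ble T S1) (tree M R 100000 A T 0 x1 y2)) (Nat.beq C 0)

def r4 (M E T : ℕ) (R : ℕ → ℕ → Bool) (A x1 y2 S1 C l S2 A1 : ℕ) (r : Bool) : Bool :=
  @Bool.rec (fun _ => Bool)
    (@Bool.rec (fun _ => Bool) r (rare M E T R A x1 y2 S1 C l S2 A1 r) (Nat.ble A1 M))
    (rare M E T R A x1 y2 S1 C l S2 A1 r) (Nat.ble A M)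

def r3 (M E T : ℕ) (R : ℕ → ℕ → Bool) (ih : S4) (A x1 y2 S1 C l S2 A1 : ℕ) : Bool :=
  r4 M E T R A x1 y2 S1 C l S2 A1 (ih A1 S2 (Nat.add x1 (Nat.mul l y2)) y2)

def r2 (M E T : ℕ) (R : ℕ → ℕ → Bool) (ih : S4) (A x1 y2 S1 C r : ℕ) : Bool :=
  r3 M E T R ih A x1 y2 S1 C (Nat.div S1 C) (Nat.sub T r) (val E T C r)

def r1 (M E T : ℕ) (R : ℕ → ℕ → Bool) (ih : S4) (A x1 y2 S1 C : ℕ) : Bool :=
  r2 M E T R ih A x1 y2 S1 C (Nat.mod S1 C)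

def r0 (M E T : ℕ) (R : ℕ → ℕ → Bool) (ih : S4) (A x1 y2 r : ℕ) : Bool :=
  r1 M E T R ih A x1 y2 (Nat.sub T r) (val E T A r)

/-- the values of `A i ^ 2 - (2 S - T) i j - C j ^ 2`, `A C = E + S (T - S)` -/
def riv (M E T Z : ℕ) (R : ℕ → ℕ → Bool) (f : ℕ) : S4 :=
  @Nat.rec (fun _ => S4) (fun _ _ _ _ => false)
    (fun _ ih A S x1 x2 => @Bool.rec (fun _ => Bool) true
      (r0 M E T R ih A x1 (Nat.add x2 (Nat.mul (Nat.div S A) x1)) (Nat.mod S A))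
      (Nat.ble x1 Z)) f

def side (K : ℕ) (V : S4) (P C m x x2 : ℕ) : Bool :=
  an (Nat.ble P (Nat.add K C)) (an (Nat.ble C (Nat.add K P))
    (V m (Nat.sub (Nat.add K C) P) x x2))

def spl (K : ℕ) (R : ℕ → ℕ → Bool) (V : S4) (A P C x1 x2 m x : ℕ) : Bool :=
  an (R m x) (an (side K V P C m x x2) (side K V P A m x x1))

def n2 (ih : S5) (A P C x1 x2 k : ℕ) : Bool :=
  an (Nat.ble (Nat.mul A k) P)
    (an (Nat.ble (Nat.mul (Nat.mul 2 P) k) (Nat.add C (Nat.mul (Nat.mul A k) k)))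
      (ih A (Nat.sub P (Nat.mul A k))
        (Nat.sub (Nat.add C (Nat.mul (Nat.mul A k) k)) (Nat.mul (Nat.mul 2 P) k)) x1
        (Nat.add x2 (Nat.mul k x1))))

/-- the values of `- A i ^ 2 + 2 P i j - C j ^ 2` -/
def nn (K : ℕ) (R : ℕ → ℕ → Bool) (V : S4) (f : ℕ) : S5 :=
  @Nat.rec (fun _ => S5) (fun _ _ _ _ _ => false)
    (fun _ ih A P C x1 x2 => @Bool.rec (fun _ => Bool)
      (spl K R V A P C x1 x2 (Nat.sub (Nat.mul 2 P) (Nat.add A C)) (Nat.add x1 x2))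
      (@Bool.rec (fun _ => Bool) (ih C P A x2 x1)
        (n2 ih A P C x1 x2 (Nat.succ (Nat.div (Nat.sub P (Nat.add A (Nat.succ K))) A)))
        (Nat.ble A C)) (Nat.ble (Nat.mul 2 P) (Nat.add A C))) f

def dv1 (U : S5) (P h g : ℕ) : Bool := U (Nat.mul h h) P (Nat.mul g g) h g

/-- all divisors `h < H` of `D` -/
def dvs (U : S5) (D P H : ℕ) : Bool :=
  @Nat.rec (fun _ => Bool) true (fun h r =>
    @Bool.rec (fun _ => Bool) r (an (dv1 U P h (Nat.div D h)) r) (Nat.beq (Nat.mod D h) 0)) H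

def e2 (M Z : ℕ) (R : ℕ → ℕ → Bool) (D P F K H : ℕ) : Bool :=
  an (Nat.ble (Nat.mul K K) F) (an (Nat.ble (Nat.succ D) (Nat.mul H H))
    (dvs (nn K R (riv M (Nat.sub F (Nat.mul K K)) (Nat.mul 2 K) Z R 100000) 100000) D P H))

def e1 (M Z : ℕ) (R : ℕ → ℕ → Bool) (D P F : ℕ) : Bool :=
  e2 M Z R D P F (nw F 300 P) (Nat.succ (nw D 300 (Nat.add 33 (Nat.div D 128))))

/-- `T d` holds for all `d` with `p d - N = y ^ 2`, `q d - N = z ^ 2`, `2 z ≤ Z` -/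
def ext (N p q Z : ℕ) (gs : List ℕ) (T : ℕ → Bool) : Bool :=
  e1 (Nat.mul 4 N) Z (hit (Nat.mul 4 N) (Nat.mul 4 q) Z gs T) (Nat.sub q p) (Nat.add p q)
    (Nat.mul 4 (Nat.mul p q))

/-- the `g < 33` with `g ^ 2 ∣ 4 N` -/
def gl (N : ℕ) : List ℕ :=
  @Nat.rec (fun _ => List ℕ) [] (fun g r =>
    @Bool.rec (fun _ => List ℕ) r (g :: r) (Nat.beq (Nat.mod (Nat.mul 4 N) (Nat.mul g g)) 0)) 33

def tst (N w c : ℕ) (I : ℕ → Bool) (d : ℕ) : Bool :=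
  @Bool.rec (fun _ => Bool)
    (@Bool.rec (fun _ => Bool) (I d) true (nsq (Nat.sub (Nat.mul w d) N))) true (Nat.ble d c)

/-- `I d` holds for all `d > c` that extend `p, q, w` with `q d - N = z ^ 2`, `2 z ≤ Z` -/
def fb (N p q w c Z : ℕ) (gs : List ℕ) (I : ℕ → Bool) : Bool := ext N p q Z gs (tst N w c I)

def S_FB : Prop := ∀ (N p q w c Z d x y z : ℕ) (gs : List ℕ) (I : ℕ → Bool),
  fb N p q w c Z gs I = true → (∀ g, g * g ∣ 4 * N → g ∈ gs) → 0 < N → p < q →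
    x ^ 2 + N = w * d → y ^ 2 + N = p * d → z ^ 2 + N = q * d → c < d → 2 * z ≤ Z → I d = true

def S_EXT : Prop := ∀ (N p q Z d y z : ℕ) (gs : List ℕ) (T : ℕ → Bool),
  ext N p q Z gs T = true → (∀ g, g * g ∣ 4 * N → g ∈ gs) → 0 < N → p < q →
    y ^ 2 + N = p * d → z ^ 2 + N = q * d → 2 * z ≤ Z → T d = true

def S_GL : Prop := ∀ N g : ℕ, 0 < N → N ≤ 256 → g * g ∣ 4 * N → g ∈ gl N

end Pool.Agent.MP_2339ce_nt.Q2.FB

end
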