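import Mathlib.Tactic.Linarith
import Mathlib.Tactic.Ring
import Mathlib.Tactic.LinearCombination
import Mathlib.Tactic.Positivity
import Mathlib.Data.Nat.GCD.Basic
import Pool.Agent.MP_2339ce_nt.DQ.TSR3
import Pool.Agent.MP_2339ce_nt.Q2.Fb

/-! Block FB: correctness of the list of extensions. -/

set_option autoImplicit false

namespace Pool.Agent.MP_2339ce_nt.Q2.FB

theorem brec {α : Type} (x y : α) (b : Bool) :
    @Bool.rec (fun _ => α) x y b = if b = true then y else x := by cases b <;> rfl

theorem an_iff {p r : Bool} : an p r = true ↔ p = true ∧ r = true := by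
  cases p <;> simp [an]

theorem val_spec {E T C S B : ℕ} (m : ℕ) (hC : 0 < C) (hS : S ≤ T) (hm : C * m ≤ S)
    (h : (C : ℤ) * B = E + S * (T - S)) :
    (val E T C (S - C * m) : ℤ) = B + m * (2 * S - T) - m ^ 2 * C := by
  obtain ⟨r, rfl⟩ := Nat.exists_eq_add_of_le hm
  obtain ⟨u, rfl⟩ := Nat.exists_eq_add_of_le hS
  rw [Nat.add_sub_cancel_left]
  show (((E + r * (C * m + r + u - r)) / C : ℕ) : ℤ) = _
  rw [show C * m + r + u - r = C * m + u by omega]
  push_cast at h ⊢
  refine Int.ediv_eq_of_eq_mul_right (by omega) ?_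
  linear_combination -h

section goal

variable {M W : ℕ} {G : Prop} {R : ℕ → ℕ → Bool}
  (hR : ∀ m g x, R m x = true → m * (g * g) = M → W = g * x → G)

include hR

theorem tree_ok (f : ℕ) : ∀ A B C x1 x2 i j : ℕ, tree M R f A B C x1 x2 = true → 1 ≤ i → 1 ≤ j →
    A * i ^ 2 + B * i * j + C * j ^ 2 = M → W = i * x1 + j * x2 → G := by
  induction f with
  | zero => exact fun _ _ _ _ _ _ _ h => Bool.noConfusion (show false = true from h)
  | succ f ih =>
    intro A B C x1 x2 i j ht hi hj h hx
    have h1 : A ≤ A * i ^ 2 := Nat.le_mul_of_pos_right _ (Nat.pow_pos hi)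
    have h2 : C ≤ C * j ^ 2 := Nat.le_mul_of_pos_right _ (Nat.pow_pos hj)
    have h3 : B ≤ B * i * j :=
      (Nat.le_mul_of_pos_right _ hi).trans (Nat.le_mul_of_pos_right _ hj)
    have ht' : @Bool.rec (fun _ => Bool) true (an (R (A + B + C) (x1 + x2))
      (an (tree M R f A (B + 2 * A) (A + B + C) x1 (x1 + x2))
        (tree M R f (A + B + C) (B + 2 * C) C (x1 + x2) x2))) (Nat.ble (A + B + C) M) = true := ht
    rw [brec, if_pos (Nat.ble_eq_true_of_le (by omega)), an_iff, an_iff] at ht'
    obtain ⟨k1, k2, k3⟩ := ht'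
    rcases Nat.lt_trichotomy i j with e | rfl | e
    · obtain ⟨k, rfl⟩ := Nat.exists_eq_add_of_le e.le
      exact ih _ _ _ _ _ i k k3 hi (by omega) (by rw [← h]; ring) (by rw [hx]; ring)
    · exact hR _ i _ k1 (by rw [← h]; ring) (by rw [hx]; ring)
    · obtain ⟨k, rfl⟩ := Nat.exists_eq_add_of_le e.le
      exact ih _ _ _ _ _ k j k2 (by omega) hj (by rw [← h]; ring) (by rw [hx]; ring)

theorem unit_ok {C A B x x2 i j : ℕ} {β : ℤ} (hu : unit M R C A B x (x + x2) = true) (hj : 1 ≤ j)
    (hij : j ≤ i) (hB : (B : ℤ) = A + β - C) (h : (A : ℤ) * i ^ 2 + β * i * j - C * j ^ 2 = M)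
    (hx : W = i * x + j * x2) : G := by
  obtain ⟨k1, k2⟩ := an_iff.1 hu
  obtain ⟨k, rfl⟩ := Nat.exists_eq_add_of_le hij
  push_cast at h
  rcases Nat.eq_zero_or_pos k with rfl | hk
  · refine hR _ j _ k1 ?_ (by rw [hx]; ring)
    have : (B : ℤ) * (j * j) = M := by
      rw [hB]
      push_cast at h
      linarith
    exact_mod_cast this
  · refine tree_ok hR _ _ _ _ _ _ k j k2 hk hj ?_ (by rw [hx]; show _ = k * x + j * (x + x2); ring)
    have : (A : ℤ) * k ^ 2 + (A + B + C) * k * j + B * j ^ 2 = M := by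
      rw [hB]
      linarith
    show A * k ^ 2 + (A + B + C) * k * j + B * j ^ 2 = M
    exact_mod_cast this

omit hR in
theorem conc {A B C n i j : ℕ} {β : ℤ} (hA : M < A) (hB : M < B) (hj : 1 ≤ j) (hn : j ≤ n * i)
    (e : (B : ℤ) = A + n * β - n ^ 2 * C) (h : (A : ℤ) * i ^ 2 + β * i * j - C * j ^ 2 = M) :
    False := by
  obtain ⟨u, hu⟩ := Nat.exists_eq_add_of_le hn
  have hu' : (u : ℤ) = n * i - j := by
    have : (n : ℤ) * i = j + u := by exact_mod_cast hu
    linarith
  have k1 : (n : ℤ) * M = A * i * u + B * i * j + n * C * j * u := by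
    rw [← h, e, hu']
    ring
  have k2 : n * M = A * i * u + B * i * j + n * C * j * u := by exact_mod_cast k1
  have hi : 1 ≤ i := Nat.pos_of_mul_pos_left (show 0 < n * i by omega)
  have hn : 1 ≤ n := Nat.pos_of_mul_pos_right (show 0 < n * i by omega)
  have k3 : (M + 1) * i * u ≤ A * i * u := Nat.mul_le_mul_right _ (Nat.mul_le_mul_right _ hA)
  have k4 : (M + 1) * i * j ≤ B * i * j := Nat.mul_le_mul_right _ (Nat.mul_le_mul_right _ hB)
  have k5 : (M + 1) * i * u + (M + 1) * i * j = (M + 1) * n * (i * i) := by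
    rw [← Nat.mul_add, Nat.add_comm u, ← hu]
    ring
  have k6 : (M + 1) * n ≤ (M + 1) * n * (i * i) := Nat.le_mul_of_pos_right _ (Nat.mul_pos hi hi)
  have k7 : (M + 1) * n = n * M + n := by ring
  omega

theorem fan_ok {E T C x2 : ℕ} (hC : 0 < C) (f : ℕ) : ∀ A S n B x i j : ℕ,
    fan M E T R C x2 f A S n B x = true → S ≤ T → C * n ≤ S → (C : ℤ) * A = E + S * (T - S) →
    (B : ℤ) = A + n * (2 * S - T) - n ^ 2 * C → 1 ≤ j → j ≤ n * i →
    (A : ℤ) * i ^ 2 + (2 * S - T) * i * j - C * j ^ 2 = M → W = i * x + j * x2 → G := by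
  induction f with
  | zero => exact fun _ _ _ _ _ _ _ h => Bool.noConfusion (show false = true from h)
  | succ f ih =>
    intro A S n B x i j ht hS hn hA hB hj hij h hx
    obtain ⟨m, rfl⟩ : ∃ m, n = m + 1 := by
      rcases n with _ | m
      · omega
      · exact ⟨m, rfl⟩
    have ht' : @Bool.rec (fun _ => Bool) (@Bool.rec (fun _ => Bool) true
      (an (unit M R C (val E T C (S - C * m)) B (x + m * x2) (x + m * x2 + x2))
        (fan M E T R C x2 f A S m (val E T C (S - C * m)) x)) (Nat.ble B M))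
      (an (unit M R C A (val E T C (S - C)) x (x + x2))
        (fan M E T R C x2 f (val E T C (S - C)) (S - C) m B (x + x2))) (Nat.ble A M) = true := ht
    rw [brec, brec] at ht'
    simp only [Nat.ble_eq] at ht'
    have hm : C * m + C ≤ S := by rwa [Nat.mul_succ] at hn
    push_cast at hB
    split_ifs at ht' with c1 c2
    · obtain ⟨k1, k2⟩ := an_iff.1 ht'
      have v := val_spec 1 hC hS (by omega) hA
      rw [Nat.mul_one] at v
      rcases Nat.lt_or_ge i j with e | e
      · obtain ⟨k, rfl⟩ := Nat.exists_eq_add_of_le e.le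
        have hs : ((S - C : ℕ) : ℤ) = S - C := by omega
        rw [Nat.succ_mul] at hij
        refine ih _ _ _ _ _ i k k2 (by omega) (by omega) ?_ ?_ (by omega) (by omega) ?_
          (by rw [hx]; ring)
        · rw [v, hs]
          push_cast
          linear_combination hA
        · rw [v, hs, hB]
          push_cast
          ring
        · rw [v, hs, ← h]
          push_cast
          ring
      · exact unit_ok hR k1 hj e (β := 2 * S - T) (by rw [v]; push_cast; ring) h hx
    · obtain ⟨k1, k2⟩ := an_iff.1 ht'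
      have v := val_spec m hC hS (by omega) hA
      rcases Nat.lt_or_ge (m * i) j with e | e
      · obtain ⟨k, rfl⟩ := Nat.exists_eq_add_of_le e.le
        rw [Nat.succ_mul] at hij
        refine unit_ok hR k1 (i := i) (j := k) (by omega) (by omega) (β := 2 * S - T - 2 * m * C)
          (by rw [v, hB]; ring) ?_ (by rw [hx]; ring)
        rw [v, ← h]
        push_cast
        ring
      · exact ih _ _ _ _ _ i j k2 hS (by omega) hA v hj e h hx
    · exact (conc (n := m + 1) (B := B) (by omega) (by omega) hj hij (by push_cast; exact hB)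
        h).elim

theorem riv_ok {E T Z : ℕ} (hM : 0 < M) (hZ : W ≤ Z) (f : ℕ) : ∀ A S C x1 x2 i j : ℕ,
    riv M E T Z R f A S x1 x2 = true → 0 < A → S ≤ T → (A : ℤ) * C = E + S * (T - S) → 1 ≤ i →
    1 ≤ j → (A : ℤ) * i ^ 2 - (2 * S - T) * i * j - C * j ^ 2 = M → W = i * x1 + j * x2 → G := by
  induction f with
  | zero => exact fun _ _ _ _ _ _ _ h => Bool.noConfusion (show false = true from h)
  | succ f ih =>
    intro A S C x1 x2 i j ht hA hS hC hi hj h hx
    have h1 : x1 ≤ i * x1 := Nat.le_mul_of_pos_left _ hi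
    have ht' : @Bool.rec (fun _ => Bool) true (r0 M E T R (riv M E T Z R f) A x1
      (x2 + S / A * x1) (S % A)) (Nat.ble x1 Z) = true := ht
    rw [brec, if_pos (Nat.ble_eq_true_of_le (by omega))] at ht'
    have v := val_spec (S / A) hA hS (Nat.mul_div_le S A) hC
    have e1 := Nat.div_add_mod S A
    rw [show S - A * (S / A) = S % A by omega] at v
    change r1 M E T R _ A x1 _ (T - S % A) (val E T A (S % A)) = true at ht'
    generalize val E T A (S % A) = D at *
    generalize S / A = k at *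
    generalize S % A = r at *
    obtain ⟨U, hU⟩ := Nat.exists_eq_add_of_le (show r ≤ T by omega)
    rw [show T - r = U by omega] at ht'
    have e2 : (U : ℤ) = T - S + A * k := by
      have : (A : ℤ) * k + r = S := by exact_mod_cast e1
      have : (T : ℤ) = r + U := by exact_mod_cast hU
      linarith
    have hik : k * j < i := by
      by_contra hn
      obtain ⟨u, hu⟩ := Nat.exists_eq_add_of_le (Nat.le_of_not_lt hn)
      have hu' : (u : ℤ) = k * j - i := by
        have : (k : ℤ) * j = i + u := by exact_mod_cast hu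
        linarith
      have k1 : (k : ℤ) * M + C * j * u + D * i * j + k * A * i * u = 0 := by
        rw [← h, v, hu']
        ring
      have k2 : k * M + C * j * u + D * i * j + k * A * i * u = 0 := by exact_mod_cast k1
      have : 0 < k * M := Nat.mul_pos (Nat.pos_of_mul_pos_right (show 0 < k * j by omega)) hM
      omega
    obtain ⟨i, rfl⟩ := Nat.exists_eq_add_of_le hik.le
    replace hi : 1 ≤ i := by omega
    have h' : (A : ℤ) * i ^ 2 + (2 * U - T) * i * j - D * j ^ 2 = M := by
      rw [← h, v, e2]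
      push_cast
      ring
    have hD : (D : ℤ) * A = E + U * (T - U) := by
      rw [v, e2]
      linear_combination hC
    have hx' : W = i * x1 + j * (x2 + k * x1) := by
      rw [hx]
      ring
    generalize x2 + k * x1 = y2 at *
    have hUT : U ≤ T := by omega
    change r4 M E T R A x1 y2 U D (U / D) (T - U % D) (val E T D (U % D))
      (riv M E T Z R f (val E T D (U % D)) (T - U % D) (x1 + U / D * y2) y2) = true at ht'
    rcases Nat.eq_zero_or_pos D with rfl | hD0
    · have hr : rare M E T R A x1 y2 U 0 (U / 0) (T - U % 0) (val E T 0 (U % 0))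
          (riv M E T Z R f (val E T 0 (U % 0)) (T - U % 0) (x1 + U / 0 * y2) y2) = true := by
        unfold r4 at ht'
        rw [brec, brec] at ht'
        have : val E T 0 (U % 0) = 0 := Nat.div_zero _
        split_ifs at ht' with c1 c2
        · exact ht'
        · exact ht'
        · exact absurd (Nat.ble_eq_true_of_le (by omega)) c2
      obtain ⟨k1, k2⟩ := an_iff.1 (show an (Nat.ble T U) (tree M R 100000 A T 0 x1 y2) = true
        from hr)
      have : U = T := Nat.le_antisymm hUT (Nat.le_of_ble_eq_true k1)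
      subst this
      refine tree_ok hR _ _ _ _ _ _ i j k2 hi hj ?_ hx'
      have : (A : ℤ) * i ^ 2 + U * i * j + 0 * j ^ 2 = M := by
        push_cast at h'
        linarith
      exact_mod_cast this
    have w := val_spec (U / D) hD0 hUT (Nat.mul_div_le U D) hD
    have e3 := Nat.div_add_mod U D
    have e4 := Nat.mul_div_le U D
    rw [show U - D * (U / D) = U % D by omega] at w
    generalize val E T D (U % D) = B at *
    generalize U / D = l at *
    generalize U % D = s at *
    obtain ⟨V, hV⟩ := Nat.exists_eq_add_of_le (show s ≤ T by omega)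
    rw [show T - s = V by omega] at ht'
    have e5 : (V : ℤ) = T - U + D * l := by
      have : (D : ℤ) * l + s = U := by exact_mod_cast e3
      have : (T : ℤ) = s + V := by exact_mod_cast hV
      linarith
    have key : (j ≤ l * i → G) ∧ (riv M E T Z R f B V (x1 + l * y2) y2 = true ∧ 0 < B ∨
        B = 0 ∧ T ≤ 2 * V) := by
      have hr : rare M E T R A x1 y2 U D l V B (riv M E T Z R f B V (x1 + l * y2) y2) = true →
          (j ≤ l * i → G) ∧ (riv M E T Z R f B V (x1 + l * y2) y2 = true ∧ 0 < B ∨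
            B = 0 ∧ T ≤ 2 * V) := by
        intro hr
        unfold rare at hr
        rw [brec, brec, if_neg (by rw [Nat.beq_eq]; omega), an_iff] at hr
        refine ⟨fun e => fan_ok hR hD0 _ _ _ _ _ _ i j hr.1 hUT e4 hD w hj e h' hx', ?_⟩
        have k2 := hr.2
        simp only [Nat.beq_eq] at k2
        split_ifs at k2 with c
        · exact Or.inr ⟨c, Nat.le_of_ble_eq_true k2⟩
        · exact Or.inl ⟨k2, by omega⟩
      unfold r4 at ht'
      rw [brec, brec] at ht'
      simp only [Nat.ble_eq] at ht'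
      split_ifs at ht' with c1 c2
      · exact hr ht'
      · exact hr ht'
      · exact ⟨fun e => (conc (by omega) (by omega) hj e w h').elim, Or.inl ⟨ht', by omega⟩⟩
    rcases Nat.lt_or_ge (l * i) j with e | e
    · obtain ⟨j, rfl⟩ := Nat.exists_eq_add_of_le e.le
      have h2 : (B : ℤ) * i ^ 2 - (2 * V - T) * i * j - D * j ^ 2 = M := by
        rw [← h', w, e5]
        push_cast
        ring
      rcases key.2 with ⟨k1, k2⟩ | ⟨rfl, k2⟩
      · refine ih _ _ D _ _ i j k1 k2 (by omega) ?_ hi (by omega) h2 (by rw [hx']; ring)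
        rw [w, e5]
        linear_combination hD
      · have k3 : (0 : ℤ) ≤ (2 * V - T) * i * j := by
          have : (0 : ℤ) ≤ 2 * V - T := by omega
          positivity
        have k4 : (0 : ℤ) ≤ D * j ^ 2 := by positivity
        push_cast at h2
        have : (0 : ℤ) < M := by omega
        linarith
    · exact key.1 e

theorem side_ok {E K Z f A P C x1 x2 i j m : ℕ} (hM : 0 < M) (hZ : W ≤ Z)
    (ht : side K (riv M E (2 * K) Z R f) P C m (x1 + x2) x2 = true) (hm : 0 < m)
    (e : (m : ℤ) = 2 * P - A - C) (hP : (P : ℤ) ^ 2 = K ^ 2 + E + A * C) (hi : 1 ≤ i) (hij : i < j)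
    (h : -(A : ℤ) * i ^ 2 + 2 * P * i * j - C * j ^ 2 = M) (hx : W = i * x1 + j * x2) : G := by
  obtain ⟨k1, k2⟩ := an_iff.1 ht
  obtain ⟨k2, k3⟩ := an_iff.1 k2
  have k1 : P ≤ K + C := Nat.le_of_ble_eq_true k1
  have k2 : C ≤ K + P := Nat.le_of_ble_eq_true k2
  obtain ⟨j, rfl⟩ := Nat.exists_eq_add_of_le hij.le
  have hs : ((K + C - P : ℕ) : ℤ) = K + C - P := by omega
  refine riv_ok hR hM hZ f m (K + C - P) C _ _ i j k3 hm (by omega) ?_ hi (by omega) ?_
    (by rw [hx]; ring)
  · rw [hs, e]
    push_cast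
    linear_combination hP
  · rw [hs, e, ← h]
    push_cast
    ring

theorem nn_ok {E K Z g : ℕ} (hM : 0 < M) (hZ : W ≤ Z) (f : ℕ) : ∀ A P C x1 x2 i j : ℕ,
    nn K R (riv M E (2 * K) Z R g) f A P C x1 x2 = true → (P : ℤ) ^ 2 = K ^ 2 + E + A * C →
    1 ≤ i → 1 ≤ j → -(A : ℤ) * i ^ 2 + 2 * P * i * j - C * j ^ 2 = M → W = i * x1 + j * x2 →
    G := by
  induction f with
  | zero => exact fun _ _ _ _ _ _ _ h => Bool.noConfusion (show false = true from h)
  | succ f ih =>
    intro A P C x1 x2 i j ht hP hi hj h hx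
    have ht' : @Bool.rec (fun _ => Bool)
      (spl K R (riv M E (2 * K) Z R g) A P C x1 x2 (2 * P - (A + C)) (x1 + x2))
      (@Bool.rec (fun _ => Bool) (nn K R (riv M E (2 * K) Z R g) f C P A x2 x1)
        (n2 (nn K R (riv M E (2 * K) Z R g) f) A P C x1 x2 ((P - (A + (K + 1))) / A + 1))
        (Nat.ble A C)) (Nat.ble (2 * P) (A + C)) = true := ht
    rw [brec, brec] at ht'
    simp only [Nat.ble_eq] at ht'
    split_ifs at ht' with c1 c2
    · generalize (P - (A + (K + 1))) / A + 1 = k at ht'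
      obtain ⟨k1, k2⟩ := an_iff.1 ht'
      obtain ⟨k2, k3⟩ := an_iff.1 k2
      obtain ⟨Q, hQ⟩ := Nat.exists_eq_add_of_le (show A * k ≤ P from Nat.le_of_ble_eq_true k1)
      obtain ⟨D, hD⟩ := Nat.exists_eq_add_of_le
        (show 2 * P * k ≤ C + A * k * k from Nat.le_of_ble_eq_true k2)
      change nn K R _ f A (P - A * k) (C + A * k * k - 2 * P * k) x1 (x2 + k * x1) = true at k3
      rw [show P - A * k = Q by omega, show C + A * k * k - 2 * P * k = D by omega] at k3
      have e1 : (Q : ℤ) = P - A * k := by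
        have : (P : ℤ) = A * k + Q := by exact_mod_cast hQ
        linarith
      have e2 : (D : ℤ) = C + A * k * k - 2 * P * k := by
        have : (C : ℤ) + A * k * k = 2 * P * k + D := by exact_mod_cast hD
        linarith
      rcases Nat.lt_or_ge (k * j) i with e | e
      · obtain ⟨i, rfl⟩ := Nat.exists_eq_add_of_le e.le
        refine ih _ _ _ _ _ i j k3 ?_ (by omega) hj ?_ (by rw [hx]; ring)
        · rw [e1, e2]
          linear_combination hP
        · rw [e1, e2, ← h]
          push_cast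
          ring
      · obtain ⟨u, hu⟩ := Nat.exists_eq_add_of_le e
        have hu' : (u : ℤ) = k * j - i := by
          have : (k : ℤ) * j = i + u := by exact_mod_cast hu
          linarith
        have k4 : (M : ℤ) + A * u ^ 2 + 2 * Q * u * j + D * j ^ 2 = 0 := by
          rw [← h, e1, e2, hu']
          ring
        have k5 : M + A * u ^ 2 + 2 * Q * u * j + D * j ^ 2 = 0 := by exact_mod_cast k4
        omega
    · exact ih _ _ _ _ _ j i ht' (by rw [hP]; ring) hj hi (by rw [← h]; ring) (by rw [hx]; ring)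
    · obtain ⟨k1, k2⟩ := an_iff.1 ht'
      obtain ⟨k2, k3⟩ := an_iff.1 k2
      have e : ((2 * P - (A + C) : ℕ) : ℤ) = 2 * P - A - C := by omega
      rcases Nat.lt_trichotomy i j with c | rfl | c
      · exact side_ok hR hM hZ k2 (by omega) e hP hi c h hx
      · refine hR _ i _ k1 ?_ (by rw [hx]; ring)
        have : ((2 * P - (A + C) : ℕ) : ℤ) * (i * i) = M := by
          rw [e, ← h]
          ring
        exact_mod_cast this
      · rw [Nat.add_comm x1] at k3
        exact side_ok hR (A := C) hM hZ k3 (by omega) (by rw [e]; ring) (by rw [hP]; ring) hj c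
          (by rw [← h]; ring) (by rw [hx]; ring)

end goal

theorem dvs_ok {U : S5} {D P h g : ℕ} (h0 : 0 < h) (e : D = h * g) (H : ℕ) :
    dvs U D P H = true → h < H → U (h * h) P (g * g) h g = true := by
  induction H with
  | zero => exact fun _ c => absurd c (Nat.not_lt_zero _)
  | succ H ih =>
    intro ht c
    have ht' : @Bool.rec (fun _ => Bool) (dvs U D P H) (an (dv1 U P H (D / H)) (dvs U D P H))
      (Nat.beq (D % H) 0) = true := ht
    rw [brec] at ht'
    simp only [Nat.beq_eq] at ht'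
    rcases Nat.lt_succ_iff_lt_or_eq.1 c with c | rfl
    · split_ifs at ht'
      · exact ih (an_iff.1 ht').2 c
      · exact ih ht' c
    · rw [if_pos (e ▸ Nat.mul_mod_right h g), e, Nat.mul_div_cancel_left g h0] at ht'
      exact (an_iff.1 ht').1

theorem hit_ok {M Q Z d m g x : ℕ} {gs : List ℕ} {T : ℕ → Bool} (hQ : 0 < Q) (hg : g ∈ gs)
    (ht : hit M Q Z gs T m x = true) (h : m * (g * g) = M) (hZ : g * x ≤ Z)
    (hd : g * x * (g * x) + M = Q * d) : T d = true := by
  unfold hit at ht
  rw [brec, if_pos (by rw [Nat.beq_eq, ← h]; exact Nat.mul_mod_right _ _)] at ht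
  induction gs with
  | nil => exact absurd hg List.not_mem_nil
  | cons k gs ih =>
    change @Bool.rec (fun _ => Bool) _ (an (hit1 M Q Z T (k * x)) _) (Nat.beq (m * (k * k)) M) =
      true at ht
    rw [brec] at ht
    simp only [Nat.beq_eq] at ht
    rcases List.mem_cons.1 hg with rfl | hk
    · rw [if_pos h] at ht
      have k1 : @Bool.rec (fun _ => Bool) true (@Bool.rec (fun _ => Bool) true
        (T ((g * x * (g * x) + M) / Q)) (Nat.beq ((g * x * (g * x) + M) % Q) 0))
        (Nat.ble (g * x) Z) = true := (an_iff.1 ht).1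
      rwa [brec, brec, if_pos (Nat.ble_eq_true_of_le hZ), hd, Nat.mul_mod_right,
        if_pos (Nat.beq_refl 0), Nat.mul_div_cancel_left d hQ] at k1
    · split_ifs at ht
      · exact ih hk (an_iff.1 ht).2
      · exact ih hk ht

theorem split {D d u v : ℕ} (hd : 0 < d) (e : u * v = D * d) :
    ∃ X Y h g, d = X * Y ∧ u = h * X ∧ v = g * Y ∧ D = h * g := by
  obtain ⟨X, Y, ⟨h, rfl⟩, ⟨g, rfl⟩, rfl⟩ :=
    (Nat.dvd_mul (k := d) (m := u) (n := v)).1 ⟨D, by rw [e, Nat.mul_comm]⟩
  refine ⟨X, Y, h, g, rfl, Nat.mul_comm _ _, Nat.mul_comm _ _, ?_⟩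
  exact Nat.eq_of_mul_eq_mul_right hd (by rw [← e]; ring)

theorem ext_ok : S_EXT := by
  intro N p q Z d y z gs T ht hgs hN hpq hy hz hZ
  obtain ⟨D, rfl⟩ := Nat.exists_eq_add_of_le hpq.le
  have hd : 0 < d := Nat.pos_of_mul_pos_left (show 0 < p * d by omega)
  have hyz : y ≤ z := by
    by_contra c
    have : z ^ 2 ≤ y ^ 2 := Nat.pow_le_pow_left (by omega) 2
    have : 0 < D * d := Nat.mul_pos (by omega) hd
    rw [Nat.add_mul] at hz
    omega
  obtain ⟨u, rfl⟩ := Nat.exists_eq_add_of_le hyz
  have k0 : u * (2 * y + u) = D * d := by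
    have : (y + u) ^ 2 = y ^ 2 + u * (2 * y + u) := by ring
    rw [Nat.add_mul] at hz
    omega
  change e1 (4 * N) Z (hit (4 * N) (4 * (p + D)) Z gs T) (p + D - p) (p + (p + D))
    (4 * (p * (p + D))) = true at ht
  rw [Nat.add_sub_cancel_left] at ht
  unfold e1 at ht
  generalize DQ.SR.nw (4 * (p * (p + D))) 300 _ = K at ht
  generalize (DQ.SR.nw D 300 _).succ = H at ht
  obtain ⟨k1, k2⟩ := an_iff.1 ht
  obtain ⟨k2, k3⟩ := an_iff.1 k2
  obtain ⟨E, hE⟩ := Nat.exists_eq_add_of_le
    (show K * K ≤ 4 * (p * (p + D)) from Nat.le_of_ble_eq_true k1)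
  have k2 : D < H * H := Nat.le_of_ble_eq_true k2
  change dvs (nn K _ (riv _ (4 * (p * (p + D)) - K * K) (2 * K) Z _ _) _) D _ H = true at k3
  rw [show 4 * (p * (p + D)) - K * K = E by omega] at k3
  have main : ∀ X Y h g, h ≤ g → d = X * Y → 2 * (y + u) = X * h + Y * g → D = h * g →
      (h * X) ^ 2 + (g * Y) ^ 2 = u ^ 2 + (2 * y + u) ^ 2 → T d = true := by
    intro X Y h g c e1 e2 e3 e4
    have h0 : 0 < h := Nat.pos_of_mul_pos_right (show 0 < h * g by omega)
    have hH : h < H := by
      by_contra c'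
      have : H * H ≤ h * g := Nat.mul_le_mul (by omega) (by omega)
      omega
    refine nn_ok (M := 4 * N) (W := 2 * (y + u)) (fun m g x a1 a2 a3 =>
      hit_ok (Q := 4 * (p + D)) (by omega) (hgs g ⟨m, ?_⟩) a1 a2 (a3 ▸ hZ) ?_) (by omega) hZ _ _ _ _ _ _ X Y (dvs_ok h0 e3 H k3 hH) ?_
      (Nat.pos_of_mul_pos_right (show 0 < X * Y by omega))
      (Nat.pos_of_mul_pos_left (show 0 < X * Y by omega)) ?_ e2
    · rw [← a2, Nat.mul_comm]
    · show g * x * (g * x) + 4 * N = 4 * (p + D) * d
      rw [← a3, Nat.mul_assoc 4 (p + D), ← hz]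
      ring
    · have a1 : (4 : ℤ) * (p * (p + D)) = K * K + E := by exact_mod_cast hE
      have a2 : (D : ℤ) = h * g := by exact_mod_cast e3
      push_cast
      linear_combination a1 + (D + h * g) * a2
    · have a1 : ((h : ℤ) * X) ^ 2 + (g * Y) ^ 2 = u ^ 2 + (2 * y + u) ^ 2 := by exact_mod_cast e4
      have a2 : (y : ℤ) ^ 2 + N = p * (X * Y) := by exact_mod_cast e1 ▸ hy
      have a3 : ((y : ℤ) + u) ^ 2 + N = (p + D) * (X * Y) := by exact_mod_cast e1 ▸ hz
      show _ = ((4 * N : ℕ) : ℤ)
      push_cast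
      linear_combination -a1 - 2 * a2 - 2 * a3
  obtain ⟨X, Y, h, g, e1, e2, e3, e4⟩ := split hd k0
  rcases Nat.le_total h g with c | c
  · exact main X Y h g c e1 (by rw [Nat.mul_comm X, Nat.mul_comm Y, ← e2, ← e3]; ring) e4
      (by rw [← e2, ← e3])
  · exact main Y X g h c (by rw [e1, Nat.mul_comm])
      (by rw [Nat.mul_comm X, Nat.mul_comm Y, ← e2, ← e3]; ring) (by rw [e4, Nat.mul_comm])
      (by rw [← e2, ← e3]; ring)

theorem fb_ok : S_FB := by
  intro N p q w c Z d x y z gs I ht hgs hN hpq hx hy hz hc hZ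
  have h : @Bool.rec (fun _ => Bool) (@Bool.rec (fun _ => Bool) (I d) true
      (DQ.SR.nsq (w * d - N))) true (Nat.ble d c) = true :=
    ext_ok N p q Z d y z gs _ ht hgs hN hpq hy hz hZ
  rwa [brec, brec, if_neg (by rw [Nat.ble_eq]; omega), show w * d - N = x ^ 2 by omega,
    if_neg (DQ.SR.nsq_sq x)] at h

theorem gl_ok : S_GL := by
  intro N g h0 h1 h
  have h2 : g < 33 := by
    by_contra c
    have : 33 * 33 ≤ g * g := Nat.mul_le_mul (by omega) (by omega)
    have := Nat.le_of_dvd (by omega) h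
    omega
  unfold gl
  generalize 33 = n at h2
  induction n with
  | zero => omega
  | succ n ih =>
    show _ ∈ @Bool.rec (fun _ => List ℕ) _ _ (Nat.beq (4 * N % (n * n)) 0)
    rw [brec]
    simp only [Nat.beq_eq]
    rcases Nat.lt_succ_iff_lt_or_eq.1 h2 with c | rfl
    · split_ifs
      · exact List.mem_cons_of_mem _ (ih c)
      · exact ih c
    · rw [if_pos (Nat.mod_eq_zero_of_dvd h)]
      exact List.mem_cons_self

end Pool.Agent.MP_2339ce_nt.Q2.FB
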