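import Pool.Agent.MP_2339ce_nt.Q2.RSpec
import Pool.Agent.MP_2339ce_nt.Q2.FbP

/-! Block REG, row GEN: the tests of one triple. -/

set_option autoImplicit false

namespace Pool.Agent.MP_2339ce_nt.Q2.RG

namespace Gen

theorem br {x p : Bool} (h : @Bool.rec (fun _ => Bool) x true p = true) : p = true ∨ x = true := by
  cases p
  exacts [Or.inr h, Or.inl rfl]

theorem slow_ok (h1 : S_LIN) (h6 : S_CAND) (h7 : S_FIN) (h8 : S_W2)
    {N W a b c r s t R S C X G d x y z : ℕ} {I : ℕ → Bool}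
    (h : slow N (a * W) a b c r s t R S C X G I = true) (T : Tr N a b c r s t)
    (E : Ex N a b c d x y z) (hR : RV R (a * b * (W * W))) (hS : RV S (a * c * (W * W)))
    (hC : 1 ≤ nn1 (a * W) a b s t R S → CV N W a b c r s t C ∧ a * t + r * s ≤ X) (hx : x ≤ G) :
    I d = true := by
  obtain ⟨n1, n2, k⟩ := h8 _ _ _ _ _ _ _ _ _ _ _ _ h
  refine h7.1 N (a * W) a b c R S d x y z I T.n1 E ?_
  rcases k x _ _ (h1 N W a b c r s t d x y z R S C X T E hR hS n1 n2 (hC n1).1 (hC n1).2) hx with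
    u | ⟨u, v, e1, e2, e3⟩
  · exact u
  · exact h6 N a b c r s t d x y z u v _ T E e1 e2 e3

theorem apos {N a b r : ℕ} (n1 : 1 ≤ N) (h : r ^ 2 + N = a * b) : 0 < a :=
  Nat.pos_of_ne_zero fun e => by rw [e, zero_mul] at h; omega

theorem zle {N a b c r s t d x y z G : ℕ} (T : Tr N a b c r s t) (E : Ex N a b c d x y z)
    (hx : x ≤ G) : z ≤ (G + 16) * (s + 16) / a := by
  rw [Nat.le_div_iff_mul_le (apos T.n1 T.hr)]
  refine le_of_pow_le_pow_left₀ two_ne_zero (Nat.zero_le _) ?_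
  have n2 := T.n2
  have h1 : x ^ 2 + N ≤ (G + 16) ^ 2 := by nlinarith [Nat.pow_le_pow_left hx 2]
  have h2 : s ^ 2 + N ≤ (s + 16) ^ 2 := by nlinarith [Nat.zero_le s]
  calc (z * a) ^ 2 ≤ (z ^ 2 + N) * a ^ 2 := by
        rw [mul_pow]; exact Nat.mul_le_mul_right _ (Nat.le_add_right _ _)
    _ = (x ^ 2 + N) * (s ^ 2 + N) := by rw [E.hz, E.hx, T.hs]; ring
    _ ≤ (G + 16) ^ 2 * (s + 16) ^ 2 := Nat.mul_le_mul h1 h2
    _ = _ := (mul_pow _ _ _).symm

end Gen

open Gen in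
theorem gen_ok : R_GEN := by
  intro h1 h2 h3 h4 h5 h6 h7 h8
  have hg : S_GEN := by
    intro N W a b c r s t G d x y z I h T E hx
    have hR : RV (root0 N W r) (a * b * (W * W)) := T.hr ▸ (h2 N W r).2.1
    have hS : RV (root0 N W s) (a * c * (W * W)) := T.hs ▸ (h2 N W s).2.1
    rcases br h with u | u
    · exact absurd (Nat.le_of_ble_eq_true u) (not_le.2 T.ab)
    rcases br u with u | u
    · obtain ⟨n1, n2, k⟩ := h5 _ _ _ _ _ _ _ _ _ _ u
      exact absurd (k x _ _ (h1 N W a b c r s t d x y z _ _ _ _ T E hR hS n1 n2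
        (h3.1 N W a b c r s t T) le_rfl)) (not_lt.2 hx)
    rcases br u with u | u
    · exact slow_ok h1 h6 h7 h8 u T E hR hS (fun _ => ⟨h3.1 N W a b c r s t T, le_rfl⟩) hx
    · exact FB.fb_ok N b c a c _ d x y z _ I u (fun g => FB.gl_ok N g T.n1 T.n2) T.n1 T.bc E.hx E.hy
        E.hz E.cd (Nat.mul_le_mul_left 2 (Nat.le_succ_of_le (zle T E hx)))
  refine ⟨hg, fun N W G a r b R S d x y z fl I h n1 n2 ab hr oR oS E hx => ?_⟩
  have a0 := apos n1 hr
  have T : Tr N a b (a + r + (b + r)) r (a + r) (b + r) :=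
    ⟨n1, n2, ab, by omega, hr, by nlinarith, by nlinarith⟩
  have hR : RV R (a * b * (W * W)) := hr ▸ oR.1
  have hS : RV S (a * (a + r + (b + r)) * (W * W)) := T.hs ▸ oS.1
  have hC := fun k : 1 ≤ nn1 (a * W) a b (a + r) (b + r) R S => h3.2 N W a b r T
    (Nat.pos_of_ne_zero fun e => by
      rw [oR.2 e] at k
      exact absurd (k.trans (Nat.sub_le _ _)) (by simp))
  refine (br h).imp_right fun u => ?_
  rcases br u with u | u
  · obtain ⟨m1, m2, k⟩ := h4 _ _ _ _ _ _ _ _ _ _ u (Nat.le_add_left 1 _)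
    have K := h1 N W a b _ r _ _ d x y z R S _ _ T E hR hS m1 m2 (hC m1).1 (hC m1).2
    exact absurd (k _ x _ _ K K.qN) (not_lt.2 hx)
  rcases br u with u | u
  · exact slow_ok h1 h6 h7 h8 u T E hR hS hC hx
  · exact hg N W a b _ r _ _ G d x y z _ u T E hx

end Pool.Agent.MP_2339ce_nt.Q2.RG
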