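import Mathlib.Tactic.Linarith
import Mathlib.Tactic.Positivity
import Mathlib.Tactic.FieldSimp
import Pool.Agent.MP_2339ce_nt.Q2.RSpec

/-! Block REG, row LIN: from the real estimates to the facts on the lattice point. -/

set_option autoImplicit false

namespace Pool.Agent.MP_2339ce_nt.Q2.RG

namespace Lin

theorem flr {P M : ℕ} {y : ℝ} (hM : 1 ≤ M) (h : y * M ≤ P) : y < ((P / M : ℕ) : ℝ) + 1 := by
  have h1 : (P : ℝ) < (P / M : ℕ) * M + M := by exact_mod_cast Nat.lt_div_mul_add (a := P) hM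
  have h2 : (0 : ℝ) < M := by exact_mod_cast hM
  exact lt_of_mul_lt_mul_right (by linarith) h2.le

theorem rt {R n : ℕ} {y : ℝ} (h : RV R n) (h0 : R ≠ 0) (hy : 0 ≤ y) (e : y ^ 2 = n) :
    (R : ℝ) ≤ y ∧ y ≤ R + 2 := by
  obtain ⟨h1, h2⟩ := h.resolve_left h0
  have k1 : (R : ℝ) ^ 2 ≤ n := by exact_mod_cast h1
  have k2 : (n : ℝ) ≤ (R + 2) ^ 2 := by exact_mod_cast h2.le
  exact ⟨(pow_le_pow_iff_left₀ (by positivity) hy two_ne_zero).1 (e ▸ k1),
    (pow_le_pow_iff_left₀ hy (by positivity) two_ne_zero).1 (e ▸ k2)⟩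

theorem tri {n1 n2 e k A B u v : ℝ} (u1 : 0 ≤ u) (h1 : 0 < n1) (h2 : 0 ≤ n2) (a1 : n1 ≤ A)
    (a2 : A ≤ n1 + e) (b1 : n2 ≤ B) (b2 : B ≤ n2 + e) (k1 : 1 ≤ k) (k2 : n2 ≤ n1 * k) :
    |n2 * u - n1 * v| ≤ u * (e * k) + |B * u - A * v| := by
  have e0 : 0 ≤ e := by linarith
  have i1 : |n2 * (A - n1) - n1 * (B - n2)| ≤ n1 * (e * k) := by
    have p1 : n2 * (A - n1) ≤ n1 * k * e :=
      mul_le_mul k2 (by linarith) (by linarith) (by positivity)
    have p2 : n1 * (B - n2) ≤ n1 * (e * k) :=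
      mul_le_mul_of_nonneg_left (by nlinarith) h1.le
    have p3 : 0 ≤ n2 * (A - n1) := mul_nonneg h2 (by linarith)
    have p4 : 0 ≤ n1 * (B - n2) := mul_nonneg h1.le (by linarith)
    exact abs_le.2 ⟨by linarith, by linarith⟩
  have A0 : 0 < A := by linarith
  have i2 : A * |n2 * u - n1 * v| ≤ n1 * (u * (e * k) + |B * u - A * v|) := by
    rw [← abs_of_pos A0, ← abs_mul, abs_of_pos A0,
      show A * (n2 * u - n1 * v) = u * (n2 * (A - n1) - n1 * (B - n2)) + n1 * (B * u - A * v) by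
        ring]
    refine (abs_add_le _ _).trans ?_
    rw [abs_mul, abs_mul, abs_of_nonneg u1, abs_of_pos h1]
    linarith [mul_le_mul_of_nonneg_left i1 u1]
  exact le_of_mul_le_mul_left
    (i2.trans (mul_le_mul_of_nonneg_right a1 (by positivity))) A0

theorem core {N aW n1 n2 e C X D s x : ℕ} {u v : ℤ} {A B θ : ℝ} (u1 : 1 ≤ u) (s1 : 1 ≤ s)
    (sx : s ≤ x) (d1 : 1 ≤ D) (x1 : 1 ≤ X) (w1 : 1 ≤ aW) (m1 : 1 ≤ n1) (e1 : 1 ≤ e)
    (a1 : (n1 : ℝ) ≤ A) (a2 : A ≤ n1 + e) (b1 : (n2 : ℝ) ≤ B) (b2 : B ≤ n2 + e)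
    (ep : |B * u - A * v| * x ^ 3 ≤ C * (N * x ^ 2 + X ^ 2))
    (ub : (u - θ) * aW ≤ (x + 16) * A) (t0 : 0 ≤ θ) (t1 : 2 * θ ≤ N) (t2 : θ * x < D) :
    KF N aW n1 n2 e C X D s x u v := by
  have U1 : (1 : ℝ) ≤ u := by exact_mod_cast u1
  have X0 : (0 : ℝ) < x := by exact_mod_cast (by omega : 0 < x)
  have q0 : ∀ h : ℕ, x ≤ h → u - θ < (((h + 16) * (n1 + e) / aW : ℕ) : ℝ) + 1 := fun h hh => by
    have : (x : ℝ) ≤ h := by exact_mod_cast hh
    refine flr w1 (ub.trans ?_)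
    push_cast
    exact mul_le_mul (by linarith) a2 (le_trans (by positivity) a1) (by positivity)
  have fin : ∀ P M Q : ℕ, 1 ≤ M → |B * u - A * v| * M ≤ P → u ≤ Q →
      |n2 * u - n1 * v| ≤ ((P / M + Q * (e * ((n2 + e) / n1 + 2)) : ℕ) : ℤ) := fun P M Q hM h hQ => by
    have f1 := flr hM h
    have f2 : n2 ≤ n1 * ((n2 + e) / n1 + 1) := by
      have := Nat.lt_mul_div_succ (n2 + e) (show 0 < n1 by omega)
      omega
    generalize P / M = F at *
    generalize (n2 + e) / n1 = k at *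
    have f3 := tri (k := k + 1) (v := v) (le_trans zero_le_one U1) (by exact_mod_cast m1)
      (by positivity) a1 a2 b1 b2 (by simp) (by exact_mod_cast f2)
    have Q1 : (u : ℝ) ≤ Q := by exact_mod_cast hQ
    have E1 : (1 : ℝ) ≤ e := by exact_mod_cast e1
    have f4 : (u : ℝ) * (e * (k + 1)) ≤ Q * (e * (k + 1)) :=
      mul_le_mul_of_nonneg_right Q1 (by positivity)
    have f5 : (1 : ℝ) ≤ Q * e := one_le_mul_of_one_le_of_one_le (U1.trans Q1) E1
    have : |(n2 : ℝ) * u - n1 * v| ≤ F + Q * (e * (k + 2)) := by linarith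
    exact_mod_cast this
  have X3 : (0 : ℝ) < (x : ℝ) ^ 3 := by positivity
  refine ⟨u1, s1, sx, fun h hh => ?_, fun g h g1 g2 hh => ?_, fun g g1 g2 => ?_, d1,
    fun g Q g1 g2 hQ => fin _ _ Q (Nat.one_le_pow _ _ g1) ?_ hQ,
    fun g Q g1 g2 g3 hQ => fin _ _ Q g1 ?_ hQ, x1⟩
  · have f1 := q0 h hh
    have f2 := flr (P := N) (M := 2) (y := θ) (by omega) (by push_cast; linarith)
    generalize (h + 16) * (n1 + e) / aW = F at *
    generalize N / 2 = H at *
    have : (u : ℝ) ≤ F + (H + 2) := by linarith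
    exact_mod_cast this
  · have f1 := q0 h hh
    have G : (g : ℝ) ≤ x := by exact_mod_cast g2
    have f2 := flr (P := D) (y := θ) g1 ((mul_le_mul_of_nonneg_left G t0).trans t2.le)
    generalize (h + 16) * (n1 + e) / aW = F at *
    generalize D / g = H at *
    have : (u : ℝ) ≤ F + (H + 2) := by linarith
    exact_mod_cast this
  · have G : (D : ℝ) + D ≤ x := by exact_mod_cast g2.trans g1
    have f1 : 2 * θ < 1 := lt_of_mul_lt_mul_right (by linarith) X0.le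
    have f2 : (aW : ℝ) ≤ 2 * (n1 + e + 1) * (x + 16) := by
      have p1 : 1 / 2 * (aW : ℝ) ≤ (u - θ) * aW :=
        mul_le_mul_of_nonneg_right (by linarith) (by positivity)
      have p2 : ((x : ℝ) + 16) * A ≤ (x + 16) * (n1 + e + 1) :=
        mul_le_mul_of_nonneg_left (by linarith) (by positivity)
      linarith
    have f3 : aW ≤ 2 * (n1 + e + 1) * (x + 16) := by exact_mod_cast f2
    have := Nat.div_le_of_le_mul f3
    omega
  · have G : (g : ℝ) ≤ x := by exact_mod_cast g2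
    have G0 : (0 : ℝ) ≤ g := by positivity
    push_cast
    refine le_of_mul_le_mul_right ?_ X3
    have p1 := mul_le_mul_of_nonneg_right ep (pow_nonneg G0 3)
    have p2 : (g : ℝ) ^ 3 ≤ x ^ 3 := pow_le_pow_left₀ G0 G 3
    have p3 : ((N : ℝ) * x ^ 2 + X ^ 2) * g ^ 3 ≤ (N * (g * g) + X * X) * x ^ 3 := by
      linarith only [mul_le_mul_of_nonneg_left G (show (0 : ℝ) ≤ N * (g * g) * x ^ 2 by positivity),
        mul_le_mul_of_nonneg_left p2 (show (0 : ℝ) ≤ X * X by positivity)]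
    linarith only [p1, mul_le_mul_of_nonneg_left p3 (show (0 : ℝ) ≤ C by positivity)]
  · have G : (g : ℝ) ≤ x := by exact_mod_cast g3
    have G0 : (0 : ℝ) ≤ g := by positivity
    have G1 : (X : ℝ) ≤ x := by exact_mod_cast g2.trans g3
    push_cast
    refine le_of_mul_le_mul_right ?_ X3
    have p1 := mul_le_mul_of_nonneg_right ep G0
    have p2 : (X : ℝ) ^ 2 ≤ x ^ 2 := pow_le_pow_left₀ (by positivity) G1 2
    have p3 : ((N : ℝ) * x ^ 2 + X ^ 2) * g ≤ (N + 1) * x ^ 3 := by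
      linarith only [mul_le_mul_of_nonneg_left G (show (0 : ℝ) ≤ (N + 1) * x ^ 2 by positivity),
        mul_le_mul_of_nonneg_right p2 G0]
    linarith only [p1, mul_le_mul_of_nonneg_left p3 (show (0 : ℝ) ≤ C by positivity)]

theorem near {t k m R S : ℕ} {y w c : ℝ} (h : 1 ≤ t * R - (m + k * (S + 2))) (r1 : (R : ℝ) ≤ y)
    (r2 : y ≤ R + 2) (s1 : (S : ℝ) ≤ w) (s2 : w ≤ S + 2) (hk : (k : ℝ) ≤ c) :
    ((t * R - (m + k * (S + 2)) : ℕ) : ℝ) ≤ t * y - m - k * w ∧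
      t * y - m - k * w ≤ ((t * R - (m + k * (S + 2)) : ℕ) : ℝ) + 2 * (t + c) := by
  rw [Nat.cast_sub (by omega)]
  push_cast
  have T : (0 : ℝ) ≤ t := by positivity
  have K : (0 : ℝ) ≤ k := by positivity
  constructor
  · linarith [mul_le_mul_of_nonneg_left r1 T, mul_le_mul_of_nonneg_left s2 K]
  · linarith [mul_le_mul_of_nonneg_left r2 T, mul_le_mul_of_nonneg_left s1 K]

end Lin

open Lin in
theorem lin : R_LIN := by
  intro hd hu N W a b c r s t d x y z R S C X T E hR hS m1 m2 cv hX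
  obtain ⟨ρ, ρ0, ρ2⟩ : ∃ ρ : ℝ, 0 ≤ ρ ∧ ρ ^ 2 = a * b :=
    ⟨_, Real.sqrt_nonneg _, Real.sq_sqrt (by positivity)⟩
  obtain ⟨σ, σ0, σ2⟩ : ∃ σ : ℝ, 0 ≤ σ ∧ σ ^ 2 = a * c :=
    ⟨_, Real.sqrt_nonneg _, Real.sq_sqrt (by positivity)⟩
  obtain ⟨l, l0, l2⟩ : ∃ l : ℝ, 0 ≤ l ∧ l ^ 2 = a * d :=
    ⟨_, Real.sqrt_nonneg _, Real.sq_sqrt (by positivity)⟩
  have det := hd N a b c r s t d x y z ρ σ T E ρ0 σ0 ρ2 σ2
  obtain ⟨u1, s1, sx, bz, xs, rs, ub⟩ := hu N a b c r s t d x y z ρ σ l T E ρ0 σ0 l0 ρ2 σ2 l2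
  have ab := T.ab
  have bc := T.bc
  change 1 ≤ t * R - (s * (a * W) + (b - a) * (S + 2)) at m1
  change 1 ≤ t * S - (r * (a * W) + (c - a) * (R + 2)) at m2
  have R0 : R ≠ 0 := by rintro rfl; simp at m1
  have S0 : S ≠ 0 := by rintro rfl; simp at m2
  have W1 : 1 ≤ W := by
    rcases Nat.eq_zero_or_pos W with rfl | h
    · exact absurd (by simpa using (hR.resolve_left R0).1) R0
    · exact h
  have t1 : 1 ≤ t ∧ 1 ≤ a := by
    constructor <;> refine Nat.pos_of_ne_zero ?_ <;> rintro rfl <;> simp at rs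
  have W0 : (0 : ℝ) ≤ W := by positivity
  obtain ⟨r1, r2⟩ := rt (y := ρ * W) hR R0 (by positivity) (by push_cast; rw [mul_pow, ρ2]; ring)
  obtain ⟨q1, q2⟩ := rt (y := σ * W) hS S0 (by positivity) (by push_cast; rw [mul_pow, σ2]; ring)
  obtain ⟨a1, a2⟩ := near (c := c) m1 r1 r2 q1 q2 (by exact_mod_cast (by omega : b - a ≤ c))
  obtain ⟨b1, b2⟩ := near (c := c) m2 q1 q2 r1 r2 (by exact_mod_cast (by omega : c - a ≤ c))
  have eA : (t : ℝ) * (ρ * W) - (s * (a * W) : ℕ) - (b - a : ℕ) * (σ * W) = al a b s t ρ σ * W := by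
    rw [Nat.cast_sub ab.le, al]; push_cast; ring
  have eB : (t : ℝ) * (σ * W) - (r * (a * W) : ℕ) - (c - a : ℕ) * (ρ * W) = bt a c r t ρ σ * W := by
    rw [Nat.cast_sub (ab.trans bc).le, bt]; push_cast; ring
  rw [eA] at a1 a2
  rw [eB] at b1 b2
  have z0 : (0 : ℝ) < z := by exact_mod_cast (by omega : 0 < z)
  have s0 : (0 : ℝ) < s := by exact_mod_cast s1
  have a0 : (0 : ℝ) < a := by exact_mod_cast t1.2
  have t0 : (0 : ℝ) < t := by exact_mod_cast t1.1
  have b0 : (0 : ℝ) < b := by exact_mod_cast (by omega : 0 < b)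
  have c0 : (0 : ℝ) < c := by exact_mod_cast (by omega : 0 < c)
  have ba : (0 : ℝ) ≤ (b : ℝ) - a := sub_nonneg.2 (by exact_mod_cast ab.le)
  have bz' : (b : ℝ) - a ≤ z := by rw [← Nat.cast_sub ab.le]; exact_mod_cast bz
  obtain ⟨θ, θ0, hθ⟩ : ∃ θ : ℝ, 0 ≤ θ ∧ θ * (2 * z) = (b - a) * N :=
    ⟨(b - a) * N / (2 * z), by positivity, div_mul_cancel₀ _ (by positivity)⟩
  refine core (A := al a b s t ρ σ * W) (B := bt a c r t ρ σ * W) (θ := θ) u1 s1 sx
    (Nat.succ_pos _) (by omega) (Nat.mul_pos t1.2 W1) m1 (by omega) a1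
    (by push_cast; exact a2) b1 (by push_cast; exact b2) ?_ ?_ θ0 ?_ ?_
  · unfold CV at cv
    have cv' := (Nat.cast_le (α := ℝ)).2 cv
    simp only [Nat.cast_mul, Nat.cast_sub rs.le, Nat.cast_sub ab.le, Nat.cast_sub bc.le,
      Nat.cast_sub (ab.trans bc).le, Nat.cast_pow, Nat.cast_add, Nat.cast_ofNat] at cv'
    have X1 : (a : ℝ) * t + r * s ≤ X := by exact_mod_cast hX
    have X2 : ((a : ℝ) * t + r * s) ^ 2 ≤ X ^ 2 := pow_le_pow_left₀ (by positivity) X1 2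
    have dn : (0 : ℝ) < 16 * (b * c) * ((a * t + r * s) * (b * s + r * t) * (c * r + s * t)) := by
      positivity
    rw [show bt a c r t ρ σ * W * (uu a b s t x y z) - al a b s t ρ σ * W * (vv a c r t x y z) =
      W * (bt a c r t ρ σ * (uu a b s t x y z) - al a b s t ρ σ * (vv a c r t x y z)) by ring,
      abs_mul, abs_of_nonneg W0]
    have p1 := mul_le_mul_of_nonneg_left det W0
    have p2 := mul_le_mul_of_nonneg_right cv'
      (show (0 : ℝ) ≤ N * x ^ 2 + (a * t + r * s) ^ 2 by positivity)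
    generalize (16 : ℝ) * (b * c) * ((a * t + r * s) * (b * s + r * t) * (c * r + s * t)) = Dn at *
    generalize ((a : ℝ) * t - r * s) * ((b - a) * (c - a) * (c - b)) = V at *
    generalize ((a : ℝ) * t + r * s) ^ 2 = X0 at *
    refine le_trans (le_of_mul_le_mul_left (a := Dn) (by linarith only [p1, p2]) dn)
      (mul_le_mul_of_nonneg_left (add_le_add le_rfl X2) (by positivity))
  · have lx : l ≤ x + 16 := by
      have h1 : (x : ℝ) ^ 2 + N = a * d := by exact_mod_cast E.hx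
      have h2 : (N : ℝ) ≤ 256 := by exact_mod_cast T.n2
      have h3 : (0 : ℝ) ≤ x := by positivity
      exact (pow_le_pow_iff_left₀ l0 (by positivity) two_ne_zero).1
        (by linarith only [h1, h2, h3, l2])
    have A0 : 0 ≤ al a b s t ρ σ * W := le_trans (by positivity) a1
    refine le_trans ?_ (mul_le_mul_of_nonneg_right lx A0)
    push_cast
    refine le_of_mul_le_mul_left (a := 2 * (z : ℝ)) ?_ (by linarith only [z0])
    have p1 := mul_le_mul_of_nonneg_right ub W0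
    have p2 : θ * (2 * z) * (a * W) = (b - a) * N * (a * W) := by rw [hθ]
    linarith only [p1, p2]
  · refine le_of_mul_le_mul_right ?_ z0
    linarith only [hθ, mul_le_mul_of_nonneg_right bz' (show (0 : ℝ) ≤ N by positivity)]
  · have xs' : (x : ℝ) * s ≤ a * z := by exact_mod_cast xs
    have := flr (P := (b - a) * N * a) (M := 2 * s) (y := θ * x) (by omega) (by
      rw [Nat.cast_mul, Nat.cast_mul, Nat.cast_mul, Nat.cast_sub ab.le, ← hθ]
      push_cast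
      linarith only [mul_le_mul_of_nonneg_left xs' θ0])
    change _ < (((b - a) * N * a / (2 * s) + 1 : ℕ) : ℝ)
    rwa [Nat.cast_succ]

end Pool.Agent.MP_2339ce_nt.Q2.RG
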