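import Pool.Agent.MP_2339ce_nt.Q2.RSpec

/-! Block REG: regular triples under a staircase. -/

set_option autoImplicit false

namespace Pool.Agent.MP_2339ce_nt.Q2.RG

namespace Reg

theorem anti_ok (Am : ℕ) (st : List (ℕ × ℕ)) : ∀ B, anti Am st B = true → ∀ u ∈ st,
    u.1 ≤ Am ∧ u.2 ≤ B ∧ ∀ a0, a0 ≤ u.1 → u.2 ≤ hB (dr a0 (toT st)) := by
  induction st with
  | nil => intro B _ u hu; cases hu
  | cons v l ih =>
    intro B h u hu
    simp only [anti, Bool.and_eq_true, Nat.ble_eq] at h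
    obtain ⟨⟨h1, h2⟩, h3⟩ := h
    have e : ∀ a0, dr a0 (toT (v :: l)) = @Bool.rec (fun _ => TL) (dr a0 (toT l))
        (TL.cons v.1 v.2 (toT l)) (Nat.ble a0 v.1) := fun _ => rfl
    rcases List.mem_cons.1 hu with rfl | hu
    · refine ⟨h1, h2, fun a0 h4 => ?_⟩
      rw [e, Nat.ble_eq_true_of_le h4]
      exact le_rfl
    · obtain ⟨h4, h5, h6⟩ := ih _ h3 u hu
      refine ⟨h4, h5.trans h2, fun a0 h7 => ?_⟩
      rw [e]
      cases Nat.ble a0 v.1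
      · exact h6 a0 h7
      · exact h5

/-- a regular triple with an extension that is not in the list -/
def Bd (N G : ℕ) (st : List (ℕ × ℕ)) (I : ℕ → ℕ → ℕ → ℕ → Bool) (a r b : ℕ) : Prop :=
  a < b ∧ ∃ d e x y z : ℕ, (∃ u ∈ st, a ≤ u.1 ∧ b ≤ u.2) ∧ Ex N a b (a + r + (b + r)) d x y z ∧
    x ≤ G ∧ Sq N a e ∧ Sq N b e ∧ Sq N (a + r + (b + r)) e ∧ Sq N d e ∧
    ¬ I a b (a + r + (b + r)) d = true

theorem main (h1 : S_ROOT) (h2 : S_ND) (h3 : S_TREE) (N W G Am B : ℕ) (st : List (ℕ × ℕ))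
    (fl : ℕ → ℕ → ℕ → Bool) (I : ℕ → ℕ → ℕ → ℕ → Bool) (n1 : 1 ≤ N) (n2 : N ≤ 256)
    (ha : anti Am st B = true) (hf : FO N fl)
    (hc : Ch (run N Am (root N W) (nd N W (N ^ 4 * W / 64 + 1) G fl I) (toT st)) (roots N) 0) :
    ∀ a r b, r ^ 2 + N = a * b → a < b → ¬ Bd N G st I a r b := by
  refine h3 N Am (root N W) _ (toT st) (Bd N G st I) (RO N W) n1 n2
    (fun r => ⟨(h1 N W r).1, fun h => by rw [h]; exact (h1 N W 0).2.2⟩) ?_ ?_ ?_ hc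
  · rintro a r b R S hn hr hR hS ⟨ab, d, e, x, y, z, -, hE, hx, s1, s2, s3, s4, hI⟩
    rcases h2 N W G a r b R S d x y z fl I hn n1 n2 ab hr hR hS hE hx with h | h
    · rw [hf a b _ d e ⟨x, hE.hx⟩ ⟨y, hE.hy⟩ ⟨z, hE.hz⟩ s1 s2 s3 s4] at h
      cases h
    · exact hI h
  · rintro a r b ⟨-, d, e, x, y, z, ⟨u, hu, h4, -⟩, -⟩
    exact h4.trans (anti_ok Am st B ha u hu).1
  · rintro a0 a r b ⟨-, d, e, x, y, z, ⟨u, hu, h4, h5⟩, -⟩ h6
    exact h5.trans ((anti_ok Am st B ha u hu).2.2 a0 (h6.trans h4))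

end Reg

theorem reg_ok : R_REG := by
  intro h1 h2 h3 N G Am B st fl n1 n2 ha hf hc a b c d e r s t x y z hT hE hcc hu hx s1 s2 s3 s4
  have e1 : c = a + r + (b + r) := by omega
  subst e1
  by_contra hI
  exact Reg.main h1 h2 h3 N (Nat.pow (nat_lit 2) (nat_lit 128)) G Am B st fl (EX.inL (EX.qf N))
    n1 n2 ha hf hc a r b hT.hr hT.ab ⟨hT.ab, d, e, x, y, z, hu, hE, hx, s1, s2, s3, s4, hI⟩

end Pool.Agent.MP_2339ce_nt.Q2.RG
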