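import Pool.Agent.MP_2339ce_nt.Q2.RSpec

/-! Block REG: the square roots and the constant. -/

set_option autoImplicit false

namespace Pool.Agent.MP_2339ce_nt.Q2.RG

namespace Root

theorem nt_eq (n x : ℕ) : nt n x = (x + n / x) / 2 := rfl

theorem nt_lt (n : ℕ) {x : ℕ} (hx : 0 < x) : n < (nt n x + 1) ^ 2 := by
  have h1 : n < x * (n / x + 1) := Nat.lt_mul_div_succ n hx
  have h2 : x + (n / x + 1) ≤ 2 * (nt n x + 1) := by rw [nt_eq]; omega
  generalize n / x + 1 = q at h1 h2
  generalize nt n x + 1 = y at h2 ⊢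
  have h3 := Nat.mul_le_mul h2 h2
  zify at h1 h3 ⊢
  nlinarith [sq_nonneg ((x : ℤ) - q)]

theorem rl_succ (n f x : ℕ) : rl n (f + 1) x =
    @Bool.rec (fun _ => ℕ) (rl n f (nt n x)) (x - 1) (Nat.ble ((x - 1) ^ 2) n) := rfl

theorem rl_ok (n f : ℕ) : ∀ x, RV (rl n f (nt n x)) n := by
  induction f with
  | zero => exact fun _ => Or.inl rfl
  | succ f ih =>
    intro x
    rw [rl_succ]
    cases hb : Nat.ble ((nt n x - 1) ^ 2) n
    · exact ih _
    · show RV (nt n x - 1) n
      rcases Nat.eq_zero_or_pos (nt n x - 1) with h | h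
      · exact Or.inl h
      · refine Or.inr ⟨Nat.le_of_ble_eq_true hb, ?_⟩
        rw [show nt n x - 1 + 2 = nt n x + 1 by omega]
        refine nt_lt n (Nat.pos_of_ne_zero ?_)
        rintro rfl
        simp [nt_eq] at h

theorem ro1_eq (n x : ℕ) : ro1 n x = rl n (60 + 1) (nt n (nt n x)) := by
  rw [rl_succ]; rfl

end Root

open Root

theorem root_ok : S_ROOT := by
  intro N W r
  have e : Nat.mul (Nat.add (Nat.mul r r) N) (Nat.mul W W) = (r ^ 2 + N) * (W * W) := by
    rw [sq]; rfl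
  refine ⟨?_, ?_, ?_⟩
  · rw [root, ro1_eq, e]; exact rl_ok _ _ _
  · rw [root0, ro1_eq, e]; exact rl_ok _ _ _
  · have h0 : Nat.add (Nat.mul 0 W) (Nat.div (Nat.mul N W) (Nat.add 0 0)) = 0 := by
      show 0 * W + N * W / 0 = 0
      simp
    have h1 : ∀ n, nt n 0 = 0 := fun n => by simp [nt_eq]
    rw [root, ro1_eq, h0, h1, h1, rl_succ]
    cases hb : Nat.ble ((0 - 1) ^ 2) _
    · exact absurd (Nat.zero_le _) (Nat.not_le_of_not_ble_eq_true (by rw [← Bool.not_eq_true] at hb; exact hb))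
    · rfl

theorem cv_ok : S_CV := by
  refine ⟨fun N W a b c r s t h => ?_, fun N W a b r h hr => ⟨?_, ?_⟩⟩
  · obtain ⟨n1, -, ab, bc, hr, hs, ht⟩ := h
    have ha : 0 < a := Nat.pos_of_ne_zero (by rintro rfl; omega)
    have h1 : a * b < a * c := Nat.mul_lt_mul_of_pos_left bc ha
    have h2 : a * c < b * c := Nat.mul_lt_mul_of_pos_right ab (by omega)
    have s0 : 0 < s := Nat.pos_of_ne_zero (by rintro rfl; omega)
    have t0 : 0 < t := Nat.pos_of_ne_zero (by rintro rfl; omega)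
    have b0 : 0 < b := by omega
    have c0 : 0 < c := by omega
    have h3 : 0 < 16 * (b * c) * ((a * t + r * s) * (b * s + r * t) * (c * r + s * t)) := by
      positivity
    exact (Nat.lt_mul_div_succ _ h3).le.trans (Nat.mul_comm _ _).le
  · have hN := h.hr
    have ht := h.ht
    have e1 : a * (b + r) - r * (a + r) = N := by
      rw [show a * (b + r) = r * (a + r) + N by nlinarith, Nat.add_sub_cancel_left]
    have h1 : N ^ 4 * W ≤ 64 * (N ^ 4 * W / 64 + 1) := by omega
    have h2 := (Nat.lt_mul_div_succ ((N ^ 4 * W / 64 + 1) * (b - a))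
      (show 0 < (r * (b + r)) ^ 3 by positivity)).le
    unfold CV
    rw [e1, show a + r + (b + r) - a = b + 2 * r by omega,
      show a + r + (b + r) - b = a + 2 * r by omega]
    generalize (N ^ 4 * W / 64 + 1) * (b - a) / (r * (b + r)) ^ 3 + 1 = C at h2 ⊢
    generalize N ^ 4 * W / 64 + 1 = Q at h1 h2
    have x1 : 2 * (r * (a + r)) ≤ a * (b + r) + r * (a + r) := by nlinarith
    have x2 : 2 * (r * (b + r)) ≤ b * (a + r) + r * (b + r) := by nlinarith
    have x3 : 2 * (r * (a + r + (b + r))) ≤ (a + r + (b + r)) * r + (a + r) * (b + r) := by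
      nlinarith
    have x4 : (b + r) ^ 2 ≤ b * (a + r + (b + r)) := by omega
    have x5 : (b + 2 * r) * (a + 2 * r) ≤ (a + r + (b + r)) * (2 * (a + r)) :=
      Nat.mul_le_mul (by omega) (by omega)
    calc N * ((b - a) * (b + 2 * r) * (a + 2 * r)) * (N ^ 3 * W)
        = N ^ 4 * W * (b - a) * ((b + 2 * r) * (a + 2 * r)) := by ring
      _ ≤ 64 * Q * (b - a) * ((a + r + (b + r)) * (2 * (a + r))) :=
          Nat.mul_le_mul (Nat.mul_le_mul_right _ h1) x5
      _ = 64 * (Q * (b - a)) * ((a + r + (b + r)) * (2 * (a + r))) := by ring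
      _ ≤ 64 * ((r * (b + r)) ^ 3 * C) * ((a + r + (b + r)) * (2 * (a + r))) :=
          Nat.mul_le_mul_right _ (Nat.mul_le_mul_left _ h2)
      _ = C * (16 * (b + r) ^ 2 * (2 * (r * (a + r)) * (2 * (r * (b + r))) *
          (2 * (r * (a + r + (b + r)))))) := by ring
      _ ≤ _ := Nat.mul_le_mul_left _ (Nat.mul_le_mul (Nat.mul_le_mul_left _ x4)
          (Nat.mul_le_mul (Nat.mul_le_mul x1 x2) x3))
  · have hN := h.hr
    nlinarith

end Pool.Agent.MP_2339ce_nt.Q2.RG
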