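import Mathlib.Tactic.LinearCombination
import Mathlib.Tactic.Positivity
import Mathlib.Tactic.FieldSimp
import Mathlib.Tactic.Linarith
import Pool.Agent.MP_2339ce_nt.Q2.RSpec

/-! Block REG, row UB: bounds for the first coordinate. -/

set_option autoImplicit false

namespace Pool.Agent.MP_2339ce_nt.Q2.RG

namespace Ub

theorem all {N a b c d r s t x y z ρ σ A : ℝ} (n0 : 0 < N) (a0 : 0 < a) (ab : a < b) (bc : b < c)
    (cd : c < d) (s0 : 0 ≤ s) (t0 : 0 ≤ t) (x0 : 0 ≤ x) (y0 : 0 ≤ y) (z0 : 0 ≤ z) (r0 : 0 ≤ ρ)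
    (A0 : 0 ≤ A) (hr : r ^ 2 + N = a * b) (hs : s ^ 2 + N = a * c) (ht : t ^ 2 + N = b * c)
    (hx : x ^ 2 + N = a * d) (hy : y ^ 2 + N = b * d) (hz : z ^ 2 + N = c * d)
    (e1 : ρ ^ 2 = a * b) (e2 : σ ^ 2 = a * c) (e3 : A ^ 2 = a * d) :
    0 < t * y - s * x - (b - a) * z ∧ 0 < s ∧ s ≤ x ∧ b - a ≤ z ∧ x * s ≤ a * z ∧ r * s < a * t ∧
      2 * a * z * (t * y - s * x - (b - a) * z) ≤
        2 * z * A * (t * ρ - s * a - (b - a) * σ) + a * (b - a) * N := by
  have p1 := sub_pos.2 ab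
  have p2 := sub_pos.2 bc
  have p3 := sub_pos.2 cd
  have c0 : 0 < c := by linarith
  have d0 : 0 < d := by linarith
  have q1 := mul_pos a0 p1
  have q2 := mul_pos a0 p2
  have q3 := mul_pos a0 p3
  have rr := sq_nonneg r
  have st : s ≤ t := le_of_pow_le_pow_left₀ two_ne_zero t0 (by linarith [mul_pos c0 p1])
  have xy : x ≤ y := le_of_pow_le_pow_left₀ two_ne_zero y0 (by linarith [mul_pos d0 p1])
  have sp : 0 < s := lt_of_pow_lt_pow_left₀ 2 s0 (by linarith)
  have sx : s ≤ x := le_of_pow_le_pow_left₀ two_ne_zero x0 (by linarith)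
  refine ⟨?_, sp, sx, le_of_pow_le_pow_left₀ two_ne_zero z0 (by nlinarith),
    le_of_pow_le_pow_left₀ two_ne_zero (by positivity) ?_,
    lt_of_pow_lt_pow_left₀ 2 (by positivity) ?_, ?_⟩
  · refine sub_pos.2 (lt_of_pow_lt_pow_left₀ 2 (sub_nonneg.2 (mul_le_mul st xy x0 t0)) ?_)
    have : (t * y - s * x) ^ 2 = ((b - a) * z) ^ 2 + (s * y - t * x) ^ 2 + N * (b - a) ^ 2 := by
      linear_combination (y ^ 2 - x ^ 2) * (ht - hs) + c * (b - a) * (hy - hx) - (b - a) ^ 2 * hz
    have := mul_pos n0 (pow_pos p1 2)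
    have := sq_nonneg (s * y - t * x)
    linarith
  · have : (a * z) ^ 2 = (x * s) ^ 2 + N * (a * d + a * c - a ^ 2 - N) := by
      linear_combination a ^ 2 * hz - s ^ 2 * hx - (a * d - N) * hs
    have := mul_pos n0 (show 0 < a * d + a * c - a ^ 2 - N by linarith)
    linarith
  · have : (a * t) ^ 2 = (r * s) ^ 2 + N * (a * b + a * c - a ^ 2 - N) := by
      linear_combination a ^ 2 * ht - s ^ 2 * hr - (a * b - N) * hs
    have := mul_pos n0 (show 0 < a * b + a * c - a ^ 2 - N by linarith)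
    linarith
  · obtain ⟨B, hB⟩ : ∃ B, A * ρ = a * B := ⟨A * ρ / a, by field_simp⟩
    obtain ⟨C, hC⟩ : ∃ C, A * σ = a * C := ⟨A * σ / a, by field_simp⟩
    have B0 : 0 ≤ B := nonneg_of_mul_nonneg_right (hB ▸ mul_nonneg A0 r0) a0
    have B2 : B ^ 2 = b * d := mul_left_cancel₀ (pow_pos a0 2).ne' (by
      linear_combination -(A * ρ + a * B) * hB + A ^ 2 * e1 + a * b * e3)
    have C2 : C ^ 2 = c * d := mul_left_cancel₀ (pow_pos a0 2).ne' (by
      linear_combination -(A * σ + a * C) * hC + A ^ 2 * e2 + a * c * e3)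
    have k1 : s * B ≤ t * A := le_of_pow_le_pow_left₀ two_ne_zero (by positivity) (by
      have : (t * A) ^ 2 = (s * B) ^ 2 + N * (b - a) * d := by
        linear_combination t ^ 2 * e3 - s ^ 2 * B2 + a * d * ht - b * d * hs
      have := mul_pos (mul_pos n0 p1) d0
      linarith)
    have k2 : s * y ≤ t * x := le_of_pow_le_pow_left₀ two_ne_zero (by positivity) (by
      have : (t * x) ^ 2 = (s * y) ^ 2 + N * (b - a) * (d - c) := by
        linear_combination t ^ 2 * hx - s ^ 2 * hy + (a * d - N) * ht - (b * d - N) * hs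
      have := mul_pos (mul_pos n0 p1) p3
      linarith)
    have k3 : 0 ≤ t * (B - y) - s * (A - x) := by
      refine nonneg_of_mul_nonneg_right (a := (A + x) * (B + y)) ?_
        (mul_pos (by linarith) (by linarith))
      have : (A + x) * (B + y) * (t * (B - y) - s * (A - x)) = N * (t * (A + x) - s * (B + y)) := by
        linear_combination t * (A + x) * (B2 - hy) - s * (B + y) * (e3 - hx)
      rw [this]
      exact mul_nonneg n0.le (by linarith)
    have k4 := mul_nonneg (mul_nonneg a0.le z0) k3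
    have k5 := mul_nonneg q1.le (sq_nonneg (C - z))
    linear_combination 2 * k4 + k5 - 2 * z * t * hB + 2 * z * (b - a) * hC + a * (b - a) * (C2 - hz)

end Ub

theorem ub : S_UB := by
  intro N a b c r s t d x y z ρ σ lam h h' r0 _ A0 e1 e2 e3
  have a0 : 0 < a := Nat.pos_of_ne_zero fun e => by
    have := h.hr
    have := h.n1
    rw [e, zero_mul] at *
    omega
  obtain ⟨k1, k2, k3, k4, k5, k6, k7⟩ := Ub.all (N := N) (a := a) (b := b) (c := c) (d := d)
    (r := r) (s := s) (t := t) (x := x) (y := y) (z := z) (by exact_mod_cast h.n1)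
    (by exact_mod_cast a0) (by exact_mod_cast h.ab) (by exact_mod_cast h.bc)
    (by exact_mod_cast h'.cd) s.cast_nonneg t.cast_nonneg x.cast_nonneg y.cast_nonneg z.cast_nonneg
    r0 A0 (by exact_mod_cast h.hr) (by exact_mod_cast h.hs) (by exact_mod_cast h.ht)
    (by exact_mod_cast h'.hx) (by exact_mod_cast h'.hy) (by exact_mod_cast h'.hz) e1 e2 e3
  have hu : ((uu a b s t x y z : ℤ) : ℝ) = t * y - s * x - (b - a) * z := by
    unfold uu; push_cast; rfl
  refine ⟨?_, by exact_mod_cast k2, by exact_mod_cast k3, ?_, by exact_mod_cast k5,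
    by exact_mod_cast k6, hu ▸ k7⟩
  · rw [← hu] at k1
    exact_mod_cast k1
  · rw [sub_le_iff_le_add] at k4
    exact Nat.sub_le_iff_le_add.2 (by exact_mod_cast k4)

end Pool.Agent.MP_2339ce_nt.Q2.RG
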