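import Mathlib.Tactic.Linarith
import Mathlib.Tactic.Ring
import Mathlib.Tactic.Zify
import Pool.Agent.MP_2339ce_nt.Q2.RSpec

/-! Block REG: the tracked Euclidean algorithm and the enumeration of lattice points. -/

set_option autoImplicit false

namespace Pool.Agent.MP_2339ce_nt.Q2.RG

namespace W2

theorem br {p q b : Bool} (h : @Bool.rec (fun _ => Bool) p q b = true) :
    (b = false ∧ p = true) ∨ (b = true ∧ q = true) := by
  cases b
  · exact Or.inl ⟨rfl, h⟩
  · exact Or.inr ⟨rfl, h⟩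

theorem bf {q b : Bool} (h : @Bool.rec (fun _ => Bool) false q b = true) :
    b = true ∧ q = true := by
  rcases br h with h | h
  · exact absurd h.2 (by decide)
  · exact h

theorem ble_t {x y : ℕ} (h : Nat.ble x y = true) : x ≤ y := Nat.le_of_ble_eq_true h

theorem ble_f {x y : ℕ} (h : Nat.ble x y = false) : y < x := by
  by_contra h'
  rw [Nat.ble_eq_true_of_le (Nat.le_of_not_lt h')] at h
  exact absurd h (by decide)

/-- the invariant of the tracked algorithm -/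
def Jv (n1 n2 n m q q1 p p1 : ℕ) : Prop := n * q1 + m * q = n1 ∧
  ∀ u v : ℤ, ∃ i j : ℤ, u = i * q + j * q1 ∧ v = i * p + j * p1 ∧
    |n2 * u - n1 * v| = |i * n - j * m|

theorem jv_start (n1 n2 : ℕ) : Jv n1 n2 n1 n2 0 1 1 0 :=
  ⟨by omega, fun u v => ⟨v, u, by simp, by simp, by
    rw [abs_sub_comm, mul_comm v, mul_comm u]⟩⟩

theorem jv_step {n1 n2 n m q q1 p p1 : ℕ} (h : Jv n1 n2 n m q q1 p p1) :
    Jv n1 n2 m (n % m) q1 (q + n / m * q1) p1 (p + n / m * p1) := by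
  have e := Nat.div_add_mod n m
  generalize n / m = k at e ⊢
  generalize n % m = r at e ⊢
  subst e
  refine ⟨by rw [← h.1]; ring, fun u v => ?_⟩
  obtain ⟨i, j, h1, h2, h3⟩ := h.2 u v
  refine ⟨j - i * k, i, by rw [h1]; push_cast; ring, by rw [h2]; push_cast; ring, ?_⟩
  rw [h3, abs_sub_comm]
  refine congrArg abs ?_
  push_cast
  ring

theorem Jv.iv {n1 n2 n m q q1 p p1 : ℕ} (h : Jv n1 n2 n m q q1 p p1) : Iv n1 n2 n m :=
  ⟨q, q1, h.1, fun u v => by
    obtain ⟨i, j, h1, -, h3⟩ := h.2 u v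
    exact ⟨i, j, h1, h3⟩⟩

/-- the second part of `S_FIN` -/
def AL : Prop := ∀ (F : ℕ → Bool) (l k x : ℕ), all F l k = true → l ≤ x → x < l + k → F x = true

theorem en1_ok (hA : AL) {K : B2} {T Q m q1 p1 y u v j : ℕ}
    (h : en1 K T Q m q1 p1 y u v = true) (hm : 1 ≤ m) (hq : 1 ≤ q1) (hj : 1 ≤ j)
    (h1 : y ≤ j * m + T) (h2 : j * m ≤ y + T) (h3 : u + j * q1 ≤ Q) :
    K (u + j * q1) (v + j * p1) = true := by
  have h' : all (fun j => K (u + j * q1) (v + j * p1)) ((y - (T + 1)) / m + 1)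
      ((y + T) / m - ((y + T) / m - (Q - u) / q1) + 1 - ((y - (T + 1)) / m + 1)) = true := h
  have a0 : 1 ≤ j * m := Nat.mul_pos hj hm
  have a1 : (y - (T + 1)) / m < j := (Nat.div_lt_iff_lt_mul hm).2 (by omega)
  have a2 : j ≤ (y + T) / m := (Nat.le_div_iff_mul_le hm).2 h2
  have a3 : j ≤ (Q - u) / q1 := (Nat.le_div_iff_mul_le hq).2 (by omega)
  exact hA _ _ _ j h' a1 (by omega)

theorem enum_ok (hA : AL) {K : B2} {n1 n2 T Q n m q q1 p p1 : ℕ} (hJ : Jv n1 n2 n m q q1 p p1)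
    (hn : 1 ≤ n1) (hq : 1 ≤ q1) (hT : T < n)
    (h : q1 ≤ Q → enum K n1 T Q n m q q1 p p1 = true) {u v : ℤ} (u1 : 1 ≤ u) (uQ : u ≤ Q)
    (hd : |n2 * u - n1 * v| ≤ T) : ∃ u' v' : ℕ, u = u' ∧ v = v' ∧ K u' v' = true := by
  obtain ⟨i, j, h1, h2, h3⟩ := hJ.2 u v
  rw [h3, abs_le] at hd
  have hT' : (T : ℤ) < n := by exact_mod_cast hT
  have q0 : (0 : ℤ) ≤ q := Int.natCast_nonneg q
  have m0 : (0 : ℤ) ≤ m := Int.natCast_nonneg m
  have n0 : (0 : ℤ) ≤ n := Int.natCast_nonneg n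
  have hq' : (1 : ℤ) ≤ q1 := by exact_mod_cast hq
  have j1 : 1 ≤ j := by
    by_contra hj
    have hj' : j ≤ 0 := by omega
    have i1 : 1 ≤ i := by
      by_contra hi
      have : i ≤ 0 := by omega
      nlinarith
    nlinarith
  have i0 : 0 ≤ i := by
    by_contra hi
    have : i ≤ -1 := by omega
    nlinarith
  obtain ⟨i, rfl⟩ := Int.eq_ofNat_of_zero_le i0
  obtain ⟨j, rfl⟩ := Int.eq_ofNat_of_zero_le (show 0 ≤ j by omega)
  have j1' : 1 ≤ j := by exact_mod_cast j1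
  have c1 : i * q + j * q1 ≤ Q := by
    have : ((i * q + j * q1 : ℕ) : ℤ) ≤ Q := by push_cast; omega
    exact_mod_cast this
  have c2 : i * n ≤ j * m + T := by
    have : ((i * n : ℕ) : ℤ) ≤ (j * m + T : ℕ) := by push_cast; omega
    exact_mod_cast this
  have c3 : j * m ≤ i * n + T := by
    have : ((j * m : ℕ) : ℤ) ≤ (i * n + T : ℕ) := by push_cast; omega
    exact_mod_cast this
  have c4 : q1 ≤ Q := by
    have : q1 ≤ j * q1 := Nat.le_mul_of_pos_left _ j1'
    omega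
  obtain ⟨b1, b2⟩ := bf (h c4)
  have hm : 1 ≤ m := ble_t b1
  have b3 : all (fun i => en1 K T Q m q1 p1 (i * n) (i * q) (i * p)) 0
      ((T * q1 + m * Q) / n1 + 1) = true := b2
  have c5 : i ≤ (T * q1 + m * Q) / n1 := by
    rw [Nat.le_div_iff_mul_le hn, ← hJ.1]
    have d1 := Nat.mul_le_mul_right q1 c2
    have d2 := Nat.mul_le_mul_left m c1
    nlinarith
  have b4 := hA _ _ _ i b3 (Nat.zero_le _) (by omega)
  exact ⟨i * q + j * q1, i * p + j * p1, by rw [h1]; push_cast; ring, by rw [h2]; push_cast; ring,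
    en1_ok hA b4 hm hq j1' c2 c3 c1⟩

theorem adv_ok {n1 n2 T Q : ℕ} {k : B6} (hn : 1 ≤ n1) (f : ℕ) : ∀ n m q q1 p p1 : ℕ,
    adv T Q k f n m q q1 p p1 = true → Jv n1 n2 n m q q1 p p1 → T < n → (q1 = 0 → T < m) →
      ∃ n' m' q' q1' p' p1' : ℕ, Jv n1 n2 n' m' q' q1' p' p1' ∧ T < n' ∧ 1 ≤ q1' ∧
        k n' m' q' q1' p' p1' = true := by
  induction f with
  | zero => intro n m q q1 p p1 h; exact absurd (show false = true from h) (by decide)
  | succ f ih =>
    intro n m q q1 p p1 h hJ hT h0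
    have h' : @Bool.rec (fun _ => Bool) (@Bool.rec (fun _ => Bool) (k n m q q1 p p1)
        (adv T Q k f m (n % m) q1 (q + n / m * q1) p1 (p + n / m * p1)) (Nat.ble q1 Q))
        (k n m q q1 p p1) (Nat.ble m T) = true := h
    rcases br h' with ⟨a1, a2⟩ | ⟨a1, a2⟩
    · have a3 := ble_f a1
      rcases br a2 with ⟨b1, b2⟩ | ⟨-, b2⟩
      · have := ble_f b1
        exact ⟨n, m, q, q1, p, p1, hJ, hT, by omega, b2⟩
      · refine ih _ _ _ _ _ _ b2 (jv_step hJ) a3 fun e => ?_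
        have e1 : q = 0 := by omega
        have e2 : n / m * q1 = 0 := by omega
        have e3 := hJ.1
        rcases Nat.mul_eq_zero.1 e2 with e4 | e4
        · have := Nat.div_add_mod n m
          rw [e4] at this
          omega
        · rw [e1, e4] at e3
          omega
    · have := ble_t a1
      exact ⟨n, m, q, q1, p, p1, hJ, hT, by omega, a2⟩

theorem spc_ok (hH : S_HI) (hA : AL) {K : B2} {N aW n1 n2 e C X D G s x : ℕ} {u v : ℤ}
    (hK : KF N aW n1 n2 e C X D s x u v) (hG : x ≤ G) (hn : 1 ≤ n1) (f : ℕ) :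
    ∀ g n m q q1 p p1 : ℕ, spc K N n1 (n1 + e) aW (e * ((n2 + e) / n1 + 2)) C X D G
      ((G + 16) * (n1 + e) / aW + (D / s + 2)) (aW / (2 * (n1 + e + 1)) - 16) f g n m q q1 p p1 =
        true → Jv n1 n2 n m q q1 p p1 → 1 ≤ q1 → 1 ≤ g → g ≤ x →
      ∃ u' v' : ℕ, u = u' ∧ v = v' ∧ K u' v' = true := by
  have hQ := hK.qD s G hK.s1 hK.sx hG
  have hw := hK.sk
  have hl := hK.tl
  have hh := hK.th
  generalize (G + 16) * (n1 + e) / aW + (D / s + 2) = Q at hQ ⊢
  generalize aW / (2 * (n1 + e + 1)) - 16 = w at hw ⊢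
  generalize e * ((n2 + e) / n1 + 2) = E at hl hh ⊢
  induction f with
  | zero => intro g n m q q1 p p1 h; exact absurd (show false = true from h) (by decide)
  | succ f ih =>
    intro g n m q q1 p p1 h hJ hq g1 gx
    have h' : @Bool.rec (fun _ => Bool) (@Bool.rec (fun _ => Bool) (@Bool.rec (fun _ => Bool)
        (s1 K n1 (n1 + e) aW E X D G (spc K N n1 (n1 + e) aW E C X D G Q w f) g n m q q1 p p1
          (C * (N * (g * g) + X * X) / g ^ 3)) true
        (@Bool.rec (fun _ => Bool) false (hi N n1 C (Q * E) Q g n m) (Nat.ble X g)))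
        (spc K N n1 (n1 + e) aW E C X D G Q w f w n m q q1 p p1)
        (@Bool.rec (fun _ => Bool) false (Nat.ble (D + D) g) (Nat.ble (g + 1) w))) true
        (Nat.ble (G + 1) g) = true := h
    rcases br h' with ⟨-, a2⟩ | ⟨a1, -⟩
    · rcases br a2 with ⟨-, b2⟩ | ⟨b1, b2⟩
      · rcases br b2 with ⟨-, c2⟩ | ⟨c1, -⟩
        · obtain ⟨y, c3⟩ : ∃ y, s2 K n1 (n1 + e) aW E (spc K N n1 (n1 + e) aW E C X D G Q w f)
              n m q q1 p p1 (D / g + 2) (C * (N * (g * g) + X * X) / g ^ 3) y = true := ⟨_, c2⟩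
          have c4 : s4 K n1 (spc K N n1 (n1 + e) aW E C X D G Q w f) n m q q1 p p1 y
              ((y + 16) * (n1 + e) / aW + (D / g + 2)) (C * (N * (g * g) + X * X) / g ^ 3 +
                ((y + 16) * (n1 + e) / aW + (D / g + 2)) * E) = true := c3
          have c5 := hK.qD g y g1 gx
          generalize (y + 16) * (n1 + e) / aW + (D / g + 2) = Q' at c4 c5
          have c6 := hl g Q' g1 gx
          generalize C * (N * (g * g) + X * X) / g ^ 3 + Q' * E = T at c4 c6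
          obtain ⟨d1, d2⟩ := bf c4
          obtain ⟨n', m', q', q1', p', p1', e1, e2, e3, e4⟩ :=
            adv_ok hn _ _ _ _ _ _ _ d2 hJ (ble_t d1) (by omega)
          obtain ⟨e5, e6⟩ := bf e4
          rcases Nat.lt_or_ge y x with hy | hy
          · exact ih _ _ _ _ _ _ _ e6 e1 e3 (Nat.succ_pos y) hy
          · refine enum_ok hA e1 hn e3 e2 (fun hh' => ?_) hK.u1 (c5 hy) (c6 (c5 hy))
            rcases br e5 with ⟨f1, -⟩ | ⟨-, f2⟩
            · have := ble_f f1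
              omega
            · exact f2
        · obtain ⟨d1, d2⟩ := bf c1
          exact absurd (hh g Q g1 (ble_t d1) gx hQ)
            (not_le.2 (hH _ _ n2 _ _ _ _ _ _ d2 hJ.iv u v hK.u1 hQ))
      · obtain ⟨d1, d2⟩ := bf b1
        have := ble_t d1
        exact ih _ _ _ _ _ _ _ b2 hJ hq (by omega) (hw g gx (ble_t d2))
    · have := ble_t a1
      omega

theorem sta_ge (N n1 C X D w f : ℕ) : ∀ g, g ≤ sta N n1 C X D w f g := by
  induction f with
  | zero => exact fun g => le_refl g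
  | succ f ih =>
    intro g
    have key : ∀ (b c : Bool) (y : ℕ), g ≤ y →
        g ≤ @Bool.rec (fun _ => ℕ) (@Bool.rec (fun _ => ℕ) y g b) g c := fun b c y h => by
      cases b <;> cases c <;> first | exact h | exact le_refl g
    exact key _ _ (sta N n1 C X D w f (g + g / 4 + 1)) (le_trans (by omega) (ih _))

end W2

open W2 in
theorem w2_ok : R_W2 := by
  intro hH hF K F N aW s C X D G n1 n2 e h
  obtain ⟨a1, h1⟩ := bf h
  obtain ⟨a2, h2⟩ := bf h1
  obtain ⟨-, h3⟩ := bf h2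
  refine ⟨ble_t a1, ble_t a2, fun x u v hK hG => ?_⟩
  obtain ⟨g, hg, h4⟩ : ∃ g, s ≤ g ∧
      w4 K F N aW s C X D G n1 n2 e (aW / (2 * (n1 + e + 1)) - 16) g = true :=
    ⟨_, sta_ge _ _ _ _ _ _ _ _, h3⟩
  obtain ⟨-, h5⟩ := bf h4
  obtain ⟨h6, h7⟩ := bf h5
  have h8 : all F s (g - s) = true := h6
  have s1 := hK.s1
  have sx := hK.sx
  rcases Nat.lt_or_ge x g with hx | hx
  · exact Or.inl (hF.2 F s _ x h8 sx (by omega))
  · exact Or.inr (spc_ok hH hF.2 hK hG (ble_t a1) 300 g n1 n2 0 1 1 0 h7 (jv_start n1 n2)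
      (le_refl 1) (by omega) hx)

end Pool.Agent.MP_2339ce_nt.Q2.RG
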