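import Pool.Agent.MP_2339ce_nt.Q2.RTree
import Pool.Agent.MP_2339ce_nt.Q2.RW2
import Pool.Agent.MP_2339ce_nt.Q2.RLin
import Pool.Agent.MP_2339ce_nt.Q2.REu
import Pool.Agent.MP_2339ce_nt.Q2.RDet
import Pool.Agent.MP_2339ce_nt.Q2.RUb
import Pool.Agent.MP_2339ce_nt.Q2.RCand
import Pool.Agent.MP_2339ce_nt.Q2.RRoot
import Pool.Agent.MP_2339ce_nt.Q2.RGen
import Pool.Agent.MP_2339ce_nt.Q2.RReg
import Pool.Agent.MP_2339ce_nt.Q2.RFlt

/-! Block REG: the rows put together. -/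

set_option autoImplicit false

namespace Pool.Agent.MP_2339ce_nt.Q2.RG

theorem gen_nd : S_GEN ∧ S_ND :=
  gen_ok (lin det ub) root_ok cv_ok eu.2.1 eu.2.2 cand_ok fin_ok (w2_ok eu.1 fin_ok)

theorem s_gen : S_GEN := gen_nd.1

theorem s_reg : S_REG := reg_ok root_ok gen_nd.2 tree_ok

end Pool.Agent.MP_2339ce_nt.Q2.RG
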