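import Pool.Agent.MP_2339ce_nt.Q2.RMed
import Pool.Agent.MP_2339ce_nt.Q2.RAll

/-! Block REG: the medium test is sound. -/

set_option autoImplicit false

namespace Pool.Agent.MP_2339ce_nt.Q2.RG

open W2 Eu

namespace Med

def Ge (n1 n2 H : ℕ) (k l : B2) : Prop := ∀ n m, Iv n1 n2 n m → l n m = true →
  ∃ n' m', Iv n1 n2 n' m' ∧ m' ≤ H ∧ k n' m' = true

theorem ech_ok {n1 n2 H : ℕ} {k : B2} : Ge n1 n2 H k (ech H k) := fun n m hi he => by
  rcases br he with ⟨-, h⟩ | ⟨h1, h2⟩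
  · obtain ⟨n', m', a, -, c, d⟩ := gd2 (gd2 (gd2 (gd2 (gd2 (gd2 (gd2 (gd2 (gd2 (gd2
      (gd4 (gd4 (gd4 gd0)))))))))))) n m hi h
    exact ⟨n', m', a, c, d⟩
  · exact ⟨n, m, hi, ble_t h1, h2⟩

theorem up_ok {N aW n1 n2 e C X D s x G q0 U : ℕ} {u v : ℤ}
    (hK : KF N aW n1 n2 e C X D s x u v) (hG : x ≤ G)
    (hq : ∀ h : ℕ, x ≤ h → u ≤ ((h + 16) * (n1 + e) / aW + q0 : ℕ))
    (hU : ((G + 16) * (n1 + e) / aW + q0) * (e * ((n2 + e) / n1 + 2)) ≤ U) (f : ℕ) :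
    ∀ g n m : ℕ, up N n1 (n1 + e) aW C U G q0 f g n m = true → Iv n1 n2 n m → X ≤ g → g ≤ x →
      False := by
  induction f with
  | zero => intro g n m h; exact absurd (show false = true from h) (by decide)
  | succ f ih =>
    intro g n m h hI hX gx
    obtain ⟨y, hy, h1⟩ : ∃ y, y ≤ G ∧ u2 n1 (n1 + e) aW G q0 (up N n1 (n1 + e) aW C U G q0 f) g n m
      (C * (N + 1) / g + U) y = true := ⟨_, Nat.sub_le _ _, h⟩
    obtain ⟨a1, a2⟩ := bf h1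
    obtain ⟨n', m', b1, b2, b3⟩ := ech_ok n m hI a2
    obtain ⟨c1, c2⟩ := bf b3
    obtain ⟨c3, c4⟩ := bf c2
    have gy : g ≤ y := ble_t a1
    rcases Nat.lt_or_ge y x with hx | hx
    · rcases br c4 with ⟨-, d⟩ | ⟨d, -⟩
      · exact ih y n' m' d b1 (hX.trans gy) hx.le
      · have := ble_t d
        omega
    · have k1 := hq y hx
      have k2 : ((y + 16) * (n1 + e) / aW + q0) * (e * ((n2 + e) / n1 + 2)) ≤ U :=
        (Nat.mul_le_mul_right _ (Nat.add_le_add_right (Nat.div_le_div_right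
          (Nat.mul_le_mul_right _ (Nat.add_le_add_right hy 16))) _)).trans hU
      exact nop_ne (finA (Q := (y + 16) * (n1 + e) / aW + q0) b1 (ble_t c1) (ble_t c3) b2) hK.u1 k1
        (hK.th g _ (hK.x1.trans hX) hX gx k1) (Nat.add_le_add_left k2 _)

theorem md_ok {K : B2} {N aW s C X G q0 n1 n2 e : ℕ} (h : md K N aW s C X G q0 n1 n2 e = true) :
    1 ≤ n1 ∧ 1 ≤ n2 ∧ ∀ (D x : ℕ) (u v : ℤ), KF N aW n1 n2 e C X D s x u v →
      (∀ h : ℕ, x ≤ h → u ≤ ((h + 16) * (n1 + e) / aW + q0 : ℕ)) → x ≤ G →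
        ∃ u' v' : ℕ, u = u' ∧ v = v' ∧ K u' v' = true := by
  obtain ⟨-, h1⟩ := bf h
  obtain ⟨a1, h2⟩ := bf h1
  obtain ⟨a2, h3⟩ := bf h2
  refine ⟨ble_t a1, ble_t a2, fun D x u v hK hq hG => ?_⟩
  have h4 : m1 K N aW s C X G q0 n1 n2 (n1 + e) ((X + 16) * (n1 + e) / aW + q0)
    (((X + 16) * (n1 + e) / aW + q0 + ((G + 16) * (n1 + e) / aW + q0)) *
      (e * ((n2 + e) / n1 + 2))) = true := h3
  have hu := fun U hU => up_ok (U := U) hK hG hq hU 10 X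
  have hl := hK.tl s ((X + 16) * (n1 + e) / aW + q0) hK.s1 hK.sx
  have hQ := hq X
  generalize (X + 16) * (n1 + e) / aW + q0 = Q at h4 hl hQ
  generalize (G + 16) * (n1 + e) / aW + q0 = Q' at h4 hu
  generalize e * ((n2 + e) / n1 + 2) = E at h4 hu hl
  have h5 : m2 K N aW C X G q0 n1 n2 (n1 + e) Q ((Q + Q') * E)
    (C * (N * (s * s) + X * X) / s ^ 3 + (Q + Q') * E) = true := h4
  obtain ⟨b1, h6⟩ := bf h5
  obtain ⟨-, h7⟩ := bf h6
  obtain ⟨n, m, q, q1, p, p1, e1, e2, e3, e4⟩ :=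
    adv_ok (ble_t a1) _ _ _ _ _ _ _ h7 (jv_start n1 n2) (ble_t b1) (fun h => absurd h one_ne_zero)
  obtain ⟨e5, e6⟩ := bf e4
  rcases Nat.lt_or_ge X x with hx | hx
  · exact (hu _ (Nat.mul_le_mul_right _ (Nat.le_add_left _ _)) n m e5 e1.iv le_rfl hx.le).elim
  · refine enum_ok fin_ok.2 e1 (ble_t a1) e3 e2 (fun hh => ?_) hK.u1 (hQ hx) ((hl (hQ hx)).trans ?_)
    · rcases br e6 with ⟨f1, -⟩ | ⟨-, f2⟩
      · have := ble_f f1
        omega
      · exact f2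
    · exact_mod_cast Nat.add_le_add_left (Nat.mul_le_mul_right E (Nat.le_add_right Q Q')) _

end Med

theorem sl2_ok {N W a b c r s t R S C X G d x y z : ℕ} {I : ℕ → Bool}
    (h : sl2 N (a * W) a b c r s t R S C X G I = true) (T : Tr N a b c r s t)
    (E : Ex N a b c d x y z) (hR : RV R (a * b * (W * W))) (hS : RV S (a * c * (W * W)))
    (hC : 1 ≤ nn1 (a * W) a b s t R S → CV N W a b c r s t C ∧ a * t + r * s ≤ X) (hx : x ≤ G) :
    I d = true := by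
  rcases Gen.br h with h | h
  · obtain ⟨n1, n2, k⟩ := Med.md_ok h
    have K := lin det ub N W a b c r s t d x y z R S C X T E hR hS n1 n2 (hC n1).1 (hC n1).2
    obtain ⟨u, v, e1, e2, e3⟩ := k _ x _ _ K K.qN hx
    exact fin_ok.1 N (a * W) a b c R S d x y z I T.n1 E
      (cand_ok N a b c r s t d x y z u v _ T E e1 e2 e3)
  · exact Gen.slow_ok (lin det ub) cand_ok fin_ok (w2_ok eu.1 fin_ok) h T E hR hS hC hx

/-- what a test of a regular triple has to satisfy -/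
def NdOk (N W G : ℕ) (fl : ℕ → ℕ → ℕ → Bool) (I : ℕ → ℕ → ℕ → ℕ → Bool) (nd : Nd) : Prop :=
  ∀ a r b R S d x y z : ℕ, nd a r b (a + r) (b + r) (a + r + (b + r)) R S = true → a < b →
    r ^ 2 + N = a * b → RO N W r R → RO N W (a + r) S → Ex N a b (a + r + (b + r)) d x y z →
      x ≤ G → fl a b (a + r + (b + r)) = true ∨ I a b (a + r + (b + r)) d = true

theorem regG {N W G Am B : ℕ} {st : List (ℕ × ℕ)} {fl : ℕ → ℕ → ℕ → Bool} {nd : Nd} (n1 : 1 ≤ N)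
    (n2 : N ≤ 256) (ha : anti Am st B = true) (hf : FO N fl)
    (h2 : NdOk N W G fl (EX.inL (EX.qf N)) nd)
    (hc : Ch (run N Am (root N W) nd (toT st)) (roots N) 0) : RegE N G st := by
  intro a b c d e r s t x y z hT hE hcc hu hx s1 s2 s3 s4
  obtain rfl : c = a + r + (b + r) := by omega
  by_contra hI
  refine tree_ok N Am (root N W) _ (toT st) (Reg.Bd N G st (EX.inL (EX.qf N))) (RO N W) n1 n2
    (fun r => ⟨(root_ok N W r).1, fun h => by rw [h]; exact (root_ok N W 0).2.2⟩) ?_ ?_ ?_ hc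
    a r b hT.hr hT.ab ⟨hT.ab, d, e, x, y, z, hu, hE, hx, s1, s2, s3, s4, hI⟩
  · rintro a r b R S hn hr hR hS ⟨ab, d, e, x, y, z, -, hE, hx, s1, s2, s3, s4, hI⟩
    rcases h2 a r b R S d x y z hn ab hr hR hS hE hx with h | h
    · rw [hf a b _ d e ⟨x, hE.hx⟩ ⟨y, hE.hy⟩ ⟨z, hE.hz⟩ s1 s2 s3 s4] at h
      cases h
    · exact hI h
  · rintro a r b ⟨-, d, e, x, y, z, ⟨u, hu, h4, -⟩, -⟩
    exact h4.trans (Reg.anti_ok Am st B ha u hu).1
  · rintro a0 a r b ⟨-, d, e, x, y, z, ⟨u, hu, h4, h5⟩, -⟩ h6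
    exact h5.trans ((Reg.anti_ok Am st B ha u hu).2.2 a0 (h6.trans h4))

theorem nd2_ok {N W G : ℕ} {fl : ℕ → ℕ → ℕ → Bool} {I : ℕ → ℕ → ℕ → ℕ → Bool} (n1 : 1 ≤ N)
    (n2 : N ≤ 256) : NdOk N W G fl I (nd2 N W (N ^ 4 * W / 64 + 1) G fl I) := by
  intro a r b R S d x y z h ab hr oR oS E hx
  have a0 := Gen.apos n1 hr
  have T : Tr N a b (a + r + (b + r)) r (a + r) (b + r) :=
    ⟨n1, n2, ab, by omega, hr, by nlinarith, by nlinarith⟩
  have hR : RV R (a * b * (W * W)) := hr ▸ oR.1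
  have hS : RV S (a * (a + r + (b + r)) * (W * W)) := T.hs ▸ oS.1
  have hC := fun k : 1 ≤ nn1 (a * W) a b (a + r) (b + r) R S => cv_ok.2 N W a b r T
    (Nat.pos_of_ne_zero fun e => by
      rw [oR.2 e] at k
      exact absurd (k.trans (Nat.sub_le _ _)) (by simp))
  refine (Gen.br h).imp_right fun u => ?_
  rcases Gen.br u with u | u
  · obtain ⟨m1, m2, k⟩ := eu.2.1 _ _ _ _ _ _ _ _ _ _ u (Nat.le_add_left 1 _)
    have K := lin det ub N W a b _ r _ _ d x y z R S _ _ T E hR hS m1 m2 (hC m1).1 (hC m1).2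
    exact absurd (k _ x _ _ K K.qN) (not_lt.2 hx)
  rcases Gen.br u with u | u
  · exact sl2_ok u T E hR hS hC hx
  · exact s_gen N W a b _ r _ _ G d x y z _ u T E hx

theorem s_reg2 (N G Am B : ℕ) (st : List (ℕ × ℕ)) (fl : ℕ → ℕ → ℕ → Bool) (n1 : 1 ≤ N)
    (n2 : N ≤ 256) (ha : anti Am st B = true) (hf : FO N fl)
    (hc : Ch (step2 N G Am fl (EX.inL (EX.qf N)) (toT st)) (roots N) 0) : RegE N G st :=
  regG (W := Nat.pow (nat_lit 2) (nat_lit 136)) n1 n2 ha hf (nd2_ok n1 n2) hc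

end Pool.Agent.MP_2339ce_nt.Q2.RG
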