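import Pool.Agent.MP_2339ce_nt.Q2.CkI
import Pool.Agent.MP_2339ce_nt.Q2.RMedP
import Pool.Agent.MP_2339ce_nt.Q2.NRBit
import Pool.Agent.MP_2339ce_nt.Q2.NRExt
import Pool.Agent.MP_2339ce_nt.Q2.NRTab2

/-! Project Q2: the cheaper check of one triple is sound. -/

set_option autoImplicit false

namespace Pool.Agent.MP_2339ce_nt.Q2.CI

open RG RG.W2

theorem mx_eq (x y : ℕ) : mx x y = x + (y - x) := rfl

theorem rt_ok (N W P r : ℕ) : RV (rt N W (W * W) P r) (P * (W * W)) := by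
  have e : ∀ n x, ro2 n (nt n x) = rl n (60 + 1) (nt n x) := fun n x => by
    rw [Root.rl_succ]; rfl
  unfold rt ro3
  rw [e]
  exact Root.rl_ok _ _ _

/-- the lattice point passes the test -/
def Hit (K : B2) (u v : ℤ) : Prop := ∃ u' v' : ℕ, u = u' ∧ v = v' ∧ K u' v' = true

theorem le_jp (D w g : ℕ) : g ≤ jp D w g := by
  unfold jp
  cases Nat.ble (Nat.add D D) g
  · exact le_rfl
  · exact Nat.le_add_right _ _

theorem rows_ok {K : B2} {n1 n2 T U V : ℕ} (h : rows K n1 n2 T U V = true) (hn : 1 ≤ n1)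
    {u v : ℤ} (u1 : 1 ≤ u) (Uu : U ≤ u) (uV : u ≤ V) (hd : |n2 * u - n1 * v| ≤ T) : Hit K u v := by
  obtain ⟨a1, a2⟩ := bf h
  have a3 : T < n2 := ble_t a1
  rw [abs_le] at hd
  lift u to ℕ using by omega
  have a4 : n2 ≤ u * n2 := Nat.le_mul_of_pos_left _ (by omega)
  have a5 : (0 : ℤ) < n1 * v := by
    zify at a3 a4
    linarith
  lift v to ℕ using (pos_of_mul_pos_right a5 (Int.natCast_nonneg n1)).le
  have b1 : all (fun v => K u v) ((u * n2 - (T + 1)) / n1 + 1)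
      ((u * n2 + T) / n1 + 1 - ((u * n2 - (T + 1)) / n1 + 1)) = true :=
    fin_ok.2 _ U (V + 1 - U) u a2 (by omega) (by omega)
  have c1 : u * n2 ≤ v * n1 + T := by
    zify
    linarith
  have c2 : v * n1 ≤ u * n2 + T := by
    zify
    linarith
  have b2 : (u * n2 - (T + 1)) / n1 < v := (Nat.div_lt_iff_lt_mul hn).2 (by omega)
  have b3 : v ≤ (u * n2 + T) / n1 := (Nat.le_div_iff_mul_le hn).2 c2
  exact ⟨u, v, rfl, rfl, fin_ok.2 _ _ _ v b1 b2 (by omega)⟩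

theorem em1_ok {K : B2} {T U V m q1 p1 y u v j : ℕ} (h : em1 K T U V m q1 p1 y u v = true)
    (hm : 1 ≤ m) (hq : 1 ≤ q1) (hj : 1 ≤ j) (h1 : y ≤ j * m + T) (h2 : j * m ≤ y + T)
    (h3 : u + j * q1 ≤ V) (h4 : U ≤ u + j * q1) : K (u + j * q1) (v + j * p1) = true := by
  have h' : all (fun j => K (u + j * q1) (v + j * p1))
      (mx ((y - (T + 1)) / m + 1) ((U + (q1 - 1) - u) / q1))
      ((y + T) / m - ((y + T) / m - (V - u) / q1) + 1 -
        mx ((y - (T + 1)) / m + 1) ((U + (q1 - 1) - u) / q1)) = true := h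
  have a0 : 1 ≤ j * m := Nat.mul_pos hj hm
  have a1 : (y - (T + 1)) / m < j := (Nat.div_lt_iff_lt_mul hm).2 (by omega)
  have a2 : j ≤ (y + T) / m := (Nat.le_div_iff_mul_le hm).2 h2
  have a3 : j ≤ (V - u) / q1 := (Nat.le_div_iff_mul_le hq).2 (by omega)
  have a4 : (U + (q1 - 1) - u) / q1 < j + 1 :=
    (Nat.div_lt_iff_lt_mul hq).2 (by rw [Nat.add_mul]; omega)
  rw [mx_eq] at h'
  exact fin_ok.2 _ _ _ j h' (by omega) (by omega)

theorem em0_ok {K : B2} {n1 n2 T U V n m q q1 p p1 : ℕ} (hJ : Jv n1 n2 n m q q1 p p1)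
    (hn : 1 ≤ n1) (hq : 1 ≤ q1) (hT : T < n)
    (h : q1 ≤ V → em0 K n1 T U V n m q q1 p p1 = true) {u v : ℤ} (u1 : 1 ≤ u) (Uu : U ≤ u)
    (uV : u ≤ V) (hd : |n2 * u - n1 * v| ≤ T) : Hit K u v := by
  obtain ⟨i, j, h1, h2, h3⟩ := hJ.2 u v
  rw [h3, abs_le] at hd
  have hT' : (T : ℤ) < n := by exact_mod_cast hT
  have q0 : (0 : ℤ) ≤ q := Int.natCast_nonneg q
  have m0 : (0 : ℤ) ≤ m := Int.natCast_nonneg m
  have n0 : (0 : ℤ) ≤ n := Int.natCast_nonneg n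
  have hq' : (1 : ℤ) ≤ q1 := by exact_mod_cast hq
  have j1 : 1 ≤ j := by
    by_contra hj
    have hj' : j ≤ 0 := by omega
    have i1 : 1 ≤ i := by
      by_contra hi
      have : i ≤ 0 := by omega
      nlinarith
    nlinarith
  have i0 : 0 ≤ i := by
    by_contra hi
    have : i ≤ -1 := by omega
    nlinarith
  obtain ⟨i, rfl⟩ := Int.eq_ofNat_of_zero_le i0
  obtain ⟨j, rfl⟩ := Int.eq_ofNat_of_zero_le (show 0 ≤ j by omega)
  have j1' : 1 ≤ j := by exact_mod_cast j1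
  have c0 : U ≤ i * q + j * q1 := by
    zify
    omega
  have c1 : i * q + j * q1 ≤ V := by
    zify
    omega
  have c2 : i * n ≤ j * m + T := by
    zify
    omega
  have c3 : j * m ≤ i * n + T := by
    zify
    omega
  have c4 : q1 ≤ V := by
    have : q1 ≤ j * q1 := Nat.le_mul_of_pos_left _ j1'
    omega
  obtain ⟨b1, b2⟩ := bf (h c4)
  have c5 : i ≤ (T * q1 + m * V) / n1 := by
    rw [Nat.le_div_iff_mul_le hn, ← hJ.1]
    have d1 := Nat.mul_le_mul_right q1 c2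
    have d2 := Nat.mul_le_mul_left m c1
    nlinarith
  have b4 := fin_ok.2 _ 0 ((T * q1 + m * V) / n1 + 1) i b2 (Nat.zero_le _) (by omega)
  exact ⟨i * q + j * q1, i * p + j * p1, by rw [h1]; push_cast; ring, by rw [h2]; push_cast; ring,
    em1_ok b4 (ble_t b1) hq j1' c2 c3 c1 c0⟩

section

variable {K : B2} {N aW n1 n2 e C X D s x G : ℕ} {u v : ℤ}

theorem jp_le (hK : KF N aW n1 n2 e C X D s x u v) {g : ℕ} (gx : g ≤ x) :
    jp D (ww aW n1 e) g ≤ x := by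
  unfold jp
  cases hb : Nat.ble (Nat.add D D) g
  · exact gx
  · have := hK.sk g gx (ble_t hb)
    change g + (aW / (2 * (n1 + e + 1)) - 16 - g) ≤ x
    omega

theorem up2_ok {q0 U : ℕ} (hK : KF N aW n1 n2 e C X D s x u v) (hG : x ≤ G)
    (hq : ∀ h : ℕ, x ≤ h → u ≤ ((h + 16) * (n1 + e) / aW + q0 : ℕ))
    (hU : ((G + 16) * (n1 + e) / aW + q0) * (e * ((n2 + e) / n1 + 2)) ≤ U) (f : ℕ) :
    ∀ g n m : ℕ, up2 N n1 (n1 + e) aW C (X * X) U G q0 f g n m = true → Iv n1 n2 n m → 1 ≤ g →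
      g ≤ x → False := by
  induction f with
  | zero => intro g n m h; exact absurd (show false = true from h) (by decide)
  | succ f ih =>
    intro g n m h hI g1 gx
    obtain ⟨y, hy, h1⟩ : ∃ y, y ≤ G ∧ u2 n1 (n1 + e) aW G q0
      (up2 N n1 (n1 + e) aW C (X * X) U G q0 f) g n m (tt N C (X * X) g + U) y = true :=
      ⟨mn G (aW / (256 * (tt N C (X * X) g + U))), Nat.sub_le _ _, h⟩
    obtain ⟨a1, a2⟩ := bf h1
    obtain ⟨n', m', b1, b2, b3⟩ := Med.ech_ok n m hI a2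
    obtain ⟨c1, c2⟩ := bf b3
    obtain ⟨c3, c4⟩ := bf c2
    have gy : g ≤ y := ble_t a1
    rcases Nat.lt_or_ge y x with hx | hx
    · rcases br c4 with ⟨-, d⟩ | ⟨d, -⟩
      · exact ih y n' m' d b1 (g1.trans gy) hx.le
      · have := ble_t d
        omega
    · have k1 := hq y hx
      have k2 : ((y + 16) * (n1 + e) / aW + q0) * (e * ((n2 + e) / n1 + 2)) ≤ U :=
        (Nat.mul_le_mul_right _ (Nat.add_le_add_right (Nat.div_le_div_right
          (Nat.mul_le_mul_right _ (Nat.add_le_add_right hy 16))) _)).trans hU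
      exact Eu.nop_ne (Eu.finA (Q := (y + 16) * (n1 + e) / aW + q0) b1 (ble_t c1) (ble_t c3) b2)
        hK.u1 k1 (hK.tl g _ g1 gx k1) (Nat.add_le_add_left k2 _)

theorem y0_ok (h : y0 N s aW C X G D n1 n2 e = true) : 1 ≤ n1 ∧ 1 ≤ n2 ∧
    ∀ (x : ℕ) (u v : ℤ), KF N aW n1 n2 e C X D s x u v → x ≤ G → False := by
  obtain ⟨a1, h1⟩ := bf h
  obtain ⟨a2, h2⟩ := bf h1
  refine ⟨ble_t a1, ble_t a2, fun x u v hK hG => ?_⟩
  have g1 := hK.s1.trans (le_jp D (ww aW n1 e) s)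
  have gx := jp_le hK hK.sx
  exact up2_ok hK hG (fun h hh => hK.qD _ h g1 gx hh) le_rfl 12 _ _ _ h2 (iv_start n1 n2) g1 gx

theorem lat_ok {g Q : ℕ} (hK : KF N aW n1 n2 e C X D s x u v) (hn : 1 ≤ n1) (g1 : 1 ≤ g)
    (gx : g ≤ x) (hQ : u ≤ Q) (f : ℕ) : ∀ U n m q q1 p p1 : ℕ,
      lat K N n1 n2 (n1 + e) aW C (X * X) (Q * (e * ((n2 + e) / n1 + 2))) g (D / g + 2) Q f
        U n m q q1 p p1 = true → Jv n1 n2 n m q q1 p p1 → 1 ≤ q1 → U ≤ u → Hit K u v := by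
  have hx := hK.qD g x g1 gx le_rfl
  have hl := fun k a b => hK.tl k Q a b hQ
  generalize Q * (e * ((n2 + e) / n1 + 2)) = E at hl ⊢
  generalize D / g + 2 = q0 at hx ⊢
  induction f with
  | zero => intro U n m q q1 p p1 h; exact absurd (show false = true from h) (by decide)
  | succ f ih =>
    intro U n m q q1 p p1 h hJ hq hU
    rcases br h with ⟨a1, -⟩ | ⟨-, a2⟩
    · have := ble_f a1
      omega
    have k1 : (U - (q0 + 1)) * aW / (n1 + e) ≤ x + 16 := Nat.div_le_of_le_mul (by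
      rw [Nat.mul_comm (n1 + e)]
      refine le_trans (Nat.mul_le_mul_right aW ?_) (Nat.div_mul_le_self _ aW)
      generalize (x + 16) * (n1 + e) / aW = y at hx ⊢
      omega)
    have k2 := hl (g + ((U - (q0 + 1)) * aW / (n1 + e) - 16 - g)) (by omega) (by omega)
    obtain ⟨T, V, k3, k4⟩ : ∃ T V : ℕ, |n2 * u - n1 * v| ≤ T ∧ l3 K n1 n2
      (lat K N n1 n2 (n1 + e) aW C (X * X) E g q0 Q f) U n m q q1 p p1 T V = true := ⟨_, _, k2, a2⟩
    rcases br k4 with ⟨-, b2⟩ | ⟨b1, b2⟩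
    · obtain ⟨c1, c2⟩ := bf b2
      rcases le_or_gt u V with d | d
      · exact rows_ok c1 hn hK.u1 hU d k3
      · exact ih (V + 1) _ _ _ _ _ _ c2 hJ hq (by omega)
    · obtain ⟨n', m', q', q1', p', p1', e1, e2, e3, e4⟩ :=
        adv_ok hn _ _ _ _ _ _ _ b2 hJ (ble_t b1) (by omega)
      obtain ⟨e5, e6⟩ := bf e4
      rcases le_or_gt u V with d | d
      · refine em0_ok e1 hn e3 e2 (fun hh => ?_) hK.u1 hU d k3
        rcases br e5 with ⟨f1, -⟩ | ⟨-, f2⟩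
        · have := ble_f f1
          omega
        · exact f2
      · exact ih (V + 1) _ _ _ _ _ _ e6 e1 e3 (by omega)

theorem z0_ok {F : ℕ → ℕ → Bool} (h : z0 K F N s aW C X G D n1 n2 e = true) : 1 ≤ n1 ∧ 1 ≤ n2 ∧
    ∀ (x : ℕ) (u v : ℤ), KF N aW n1 n2 e C X D s x u v → x ≤ G →
      (∃ k, F s k = true ∧ x < s + k) ∨ Hit K u v := by
  obtain ⟨a1, h1⟩ := bf h
  obtain ⟨a2, h2⟩ := bf h1
  refine ⟨ble_t a1, ble_t a2, fun x u v hK hG => ?_⟩
  obtain ⟨g, h3⟩ : ∃ g, z3 K F N s n1 n2 (n1 + e) aW C (X * X) (ee n1 n2 e) G D (ww aW n1 e) g =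
    true := ⟨_, (bf h2).2⟩
  obtain ⟨b1, b2⟩ := bf h3
  have sx := hK.sx
  rcases Nat.lt_or_ge x g with hx | hx
  · rcases br b1 with ⟨-, c⟩ | ⟨c, -⟩
    · exact Or.inl ⟨g - s, c, by omega⟩
    · have := ble_t c
      omega
  · obtain ⟨c1, c2⟩ := bf b2
    have gx := jp_le hK hx
    exact Or.inr (lat_ok hK (ble_t a1) (ble_t c1) gx (hK.qD _ G (ble_t c1) gx hG) 200 1 _ _ _ _ _ _
      (bf c2).2 (jv_start n1 n2) le_rfl hK.u1)

end

/-- the tables are correct -/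
def SL.Ok : SL → Prop
  | SL.nil => True
  | SL.cons p T S Q t => (∃ I L, NR.Good (NR.ML.cons p I T S Q L NR.ML.nil)) ∧ SL.Ok t

open NR.Tab2 in
theorem mS_ok : mS.Ok :=
  ⟨⟨_, _, g13 trivial⟩, ⟨_, _, g11 trivial⟩, ⟨_, _, g7 trivial⟩, ⟨_, _, g16 trivial⟩,
    ⟨_, _, g5 trivial⟩, ⟨_, _, g9 trivial⟩, ⟨_, _, g17 trivial⟩, ⟨_, _, g19 trivial⟩,
    ⟨_, _, g23 trivial⟩, ⟨_, _, g29 trivial⟩, ⟨_, _, g31 trivial⟩, ⟨_, _, g37 trivial⟩,
    ⟨_, _, g41 trivial⟩, ⟨_, _, g43 trivial⟩, ⟨_, _, g47 trivial⟩, trivial⟩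

theorem row_bit {p T S Q A B x0 n y : ℕ} (hp : 2 ≤ p) (h : NR.RowOk p T S Q)
    (e : y ^ 2 = A * (x0 + n) ^ 2 + B) :
    (NR.rowp p T S Q (A % p) B).testBit ((x0 % p + n) % p) = true := by
  refine h _ _ _ y (Nat.mod_lt _ (by omega)) (Nat.mod_lt _ (by omega)) ?_
  rw [e, Nat.mod_add_mod]
  exact ((Nat.mod_modEq _ _).symm.mul ((Nat.mod_modEq _ _).symm.pow 2)).add_right B

theorem sv_ok {A1 B1 A2 B2 len x0 n y z : ℕ} (h1 : y ^ 2 = A1 * (x0 + n) ^ 2 + B1)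
    (h2 : z ^ 2 = A2 * (x0 + n) ^ 2 + B2) (hn : n < len) (l : SL) : l.Ok → ∀ acc : ℕ,
      acc.testBit n = true → (sv A1 B1 A2 B2 len x0 l acc).testBit n = true := by
  induction l with
  | nil => exact fun _ _ h => h
  | cons p T S Q t ih =>
    rintro ⟨⟨I, L, ⟨hp, hr, -⟩, -⟩, ht⟩ acc h
    have hne : Nat.beq acc 0 = false := by
      cases acc with
      | zero => simp at h
      | succ k => rfl
    have e : sv A1 B1 A2 B2 len x0 (SL.cons p T S Q t) acc = @Bool.rec (fun _ => ℕ)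
        (sv A1 B1 A2 B2 len x0 t (Nat.land acc (Nat.shiftRight (NR.per p len
          (NR.rowp p T S Q (A1 % p) B1 &&& NR.rowp p T S Q (A2 % p) B2)) (x0 % p)))) 0
        (Nat.beq acc 0) := rfl
    rw [e, hne]
    have := Nat.mod_lt x0 (show 0 < p by omega)
    refine ih ht _ (NR.Ext.bit_land h (NR.bit_ok.2.2.1 p len _ _ (by omega)
      (Nat.and_le_left.trans_lt (NR.bit_ok.2.1 _ _ _)) (by omega) ?_))
    rw [Nat.testBit_and, row_bit hp hr h1, row_bit hp hr h2]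
    rfl

theorem sc_ok {F : ℕ → Bool} {N a b c r s t d x y z x0 len : ℕ} (h : sc F N a b c x0 len = true)
    (T : Tr N a b c r s t) (E : Ex N a b c d x y z) (h1 : x0 ≤ x) (h2 : x < x0 + len) :
    F x = true := by
  obtain ⟨n, rfl⟩ := Nat.exists_eq_add_of_le h1
  have ab := T.ab.le
  have ac := ab.trans T.bc.le
  have hx := E.hx
  have hy := E.hy
  have hz := E.hz
  refine NR.ext_ok.2.1 _ _ _ n h (sv_ok (y := a * y) (z := a * z) ?_ ?_ (by omega) mS mS_ok _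
    ((NR.bit_ok.1 _ _).2 (by omega)))
  · change _ = a * b * (x0 + n) ^ 2 + a * N * (b - a)
    zify [ab] at hx hy ⊢
    linear_combination a ^ 2 * hy - a * b * hx
  · change _ = a * c * (x0 + n) ^ 2 + a * N * (c - a)
    zify [ac] at hx hz ⊢
    linear_combination a ^ 2 * hz - a * c * hx

theorem h0_ok {N a b c r s t G d x y z : ℕ} {I : ℕ → Bool} (h : h0 N a b c r s t G I = true)
    (T : Tr N a b c r s t) (E : Ex N a b c d x y z) (hx : x ≤ G) : I d = true := by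
  obtain ⟨W, h1⟩ : ∃ W, h1 N a b c r s t G W I = true := ⟨_, h⟩
  have L := fun k1 k2 => lin det ub N W a b c r s t d x y z _ _ _ _ T E (rt_ok N W (a * b) r)
    (rt_ok N W (a * c) s) k1 k2 (cv_ok.1 N W a b c r s t T) le_rfl
  rcases Gen.br h1 with k | k
  · obtain ⟨k1, k2, k3⟩ := f3_ok _ _ _ _ _ _ _ _ _ _ (bf k).2
    exact absurd (k3 x _ _ (L k1 k2)) (not_lt.2 hx)
  rcases Gen.br k with k | k
  · obtain ⟨k1, k2, k3⟩ := y0_ok k
    exact (k3 x _ _ (L k1 k2) hx).elim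
  rcases Gen.br k with k | k
  · obtain ⟨k1, k2, k3⟩ := z0_ok k
    refine fin_ok.1 N (a * W) a b c (rt N W (W * W) (a * b) r) (rt N W (W * W) (a * c) s) d x y z I
      T.n1 E ?_
    rcases k3 x _ _ (L k1 k2) hx with ⟨l, e1, e2⟩ | ⟨u, v, e1, e2, e3⟩
    · exact sc_ok e1 T E (L k1 k2).sx e2
    · exact cand_ok N a b c r s t d x y z u v _ T E e1 e2 e3
  · exact FB.fb_ok N b c a c _ d x y z _ I k (fun g => FB.gl_ok N g T.n1 T.n2) T.n1 T.bc E.hx E.hy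
      E.hz E.cd (Nat.mul_le_mul_left 2 (Nat.le_succ_of_le (Gen.zle T E hx)))

end Pool.Agent.MP_2339ce_nt.Q2.CI
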