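import Mathlib.Data.Nat.Basic

/-! Project Q2: a rectangle is covered by a list of boxes. -/

set_option autoImplicit false

noncomputable section

namespace Pool.Agent.MP_2339ce_nt.Q2.Top

/-- the box `a1 ≤ a < a2`, `r < R`, `x0 ≤ x < x1` -/
structure B5 where
  a1 : ℕ
  a2 : ℕ
  R : ℕ
  x0 : ℕ
  x1 : ℕ

def B5.Mem (B : B5) (a r x : ℕ) : Prop :=
  B.a1 ≤ a ∧ a < B.a2 ∧ r < B.R ∧ B.x0 ≤ x ∧ x < B.x1

def it (t e c : Bool) : Bool := @Bool.rec (fun _ => Bool) e t c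

def fnd (a x : ℕ) (k : B5 → Bool) (L : List B5) : Bool :=
  @List.rec B5 (fun _ => Bool) false
    (fun B _ r => it (it (k B) r (Nat.ble B.x0 x)) r (Nat.ble B.a1 a && Nat.blt a B.a2 &&
      Nat.blt x B.x1)) L

def cv (L : List B5) (f : ℕ) : ℕ → ℕ → ℕ → ℕ → Bool :=
  @Nat.rec (fun _ => ℕ → ℕ → ℕ → ℕ → Bool) (fun _ _ _ _ => false) (fun _ ih a1 a2 x0 x1 =>
    it true (it true (fnd a1 x0 (fun B => it (ih a1 (Nat.min a2 B.a2) B.x1 x1) false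
      (ih B.a2 a2 x0 x1)) L) (Nat.ble x1 x0)) (Nat.ble a2 a1)) f

def fl (a1 a2 R x0 x1 : ℕ) (k : List B5 → Bool) (S : List B5) : List B5 → Bool :=
  @List.rec B5 (fun _ => List B5 → Bool) k (fun v _ r A =>
    @Bool.rec (fun _ => Bool) (@Bool.rec (fun _ => Bool) (@Bool.rec (fun _ => Bool)
      (@Bool.rec (fun _ => Bool) (@Bool.rec (fun _ => Bool) (r (v :: A)) (r A) (Nat.ble v.R R))
        (r A) (Nat.ble v.x1 x0)) (r A) (Nat.ble x1 v.x0)) (r A) (Nat.ble v.a2 a1)) (r A)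
          (Nat.ble a2 v.a1)) S

/-- the boxes of `L` cover `a1 ≤ a < a2`, `r ≤ R`, `x0 ≤ x < x1` -/
def cov (L : List B5) (a1 a2 R x0 x1 : ℕ) : Bool :=
  fl a1 a2 R x0 x1 (fun M => cv M 5000 a1 a2 x0 x1) L []

theorem it_t {t e c : Bool} (h : it t e c = true) :
    (c = true ∧ t = true) ∨ (c = false ∧ e = true) := by
  cases c
  exacts [Or.inr ⟨rfl, h⟩, Or.inl ⟨rfl, h⟩]

theorem fnd_ok {a x : ℕ} {k : B5 → Bool} {L : List B5} (h : fnd a x k L = true) :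
    ∃ B ∈ L, B.a1 ≤ a ∧ B.x0 ≤ x ∧ k B = true := by
  induction L with
  | nil => exact absurd h Bool.false_ne_true
  | cons B L ih =>
    have k1 : fnd a x k L = true → ∃ C ∈ B :: L, C.a1 ≤ a ∧ C.x0 ≤ x ∧ k C = true := fun g =>
      (ih g).imp fun _ g => ⟨List.mem_cons_of_mem _ g.1, g.2⟩
    rcases it_t h with ⟨h1, h2⟩ | h
    · rcases it_t h2 with ⟨h2, h3⟩ | h
      · simp only [Bool.and_eq_true, Nat.ble_eq] at h1 h2
        exact ⟨B, List.mem_cons_self, h1.1.1, h2, h3⟩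
      · exact k1 h.2
    · exact k1 h.2

theorem cv_ok {L : List B5} {a x : ℕ} (f : ℕ) : ∀ a1 a2 x0 x1, cv L f a1 a2 x0 x1 = true →
    a1 ≤ a → a < a2 → x0 ≤ x → x < x1 →
      ∃ B ∈ L, B.a1 ≤ a ∧ a < B.a2 ∧ B.x0 ≤ x ∧ x < B.x1 := by
  induction f with
  | zero => exact fun _ _ _ _ h => absurd h Bool.false_ne_true
  | succ f ih =>
    intro a1 a2 x0 x1 h k1 k2 k3 k4
    rcases it_t h with ⟨h, -⟩ | ⟨-, h⟩
    · have := Nat.le_of_ble_eq_true h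
      omega
    rcases it_t h with ⟨h, -⟩ | ⟨-, h⟩
    · have := Nat.le_of_ble_eq_true h
      omega
    obtain ⟨B, b1, b2, b3, h⟩ := fnd_ok h
    rcases it_t h with ⟨h1, h2⟩ | ⟨-, h⟩
    · by_cases g : a < B.a2
      · by_cases g' : x < B.x1
        · exact ⟨B, b1, by omega, g, by omega, g'⟩
        · exact ih _ _ _ _ h2 k1 (Nat.lt_min.2 ⟨k2, g⟩) (by omega) k4
      · exact ih _ _ _ _ h1 (by omega) k2 k3 k4
    · exact absurd h Bool.false_ne_true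

theorem fl_ok {a1 a2 R x0 x1 : ℕ} {k : List B5 → Bool} (S : List B5) : ∀ A,
    fl a1 a2 R x0 x1 k S A = true → ∃ M, k M = true ∧ ∀ B ∈ M, B ∈ A ∨ (B ∈ S ∧ R < B.R) := by
  induction S with
  | nil => exact fun A h => ⟨A, h, fun _ h => Or.inl h⟩
  | cons v S ih =>
    intro A h
    have k1 : fl a1 a2 R x0 x1 k S A = true →
        ∃ M, k M = true ∧ ∀ B ∈ M, B ∈ A ∨ (B ∈ v :: S ∧ R < B.R) := fun g =>
      (ih A g).imp fun _ g => ⟨g.1, fun B hB => (g.2 B hB).imp_right fun g =>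
        ⟨List.mem_cons_of_mem _ g.1, g.2⟩⟩
    iterate 4
      rcases it_t h with h | ⟨-, h⟩
      · exact k1 h.2
    rcases it_t h with h | ⟨e, h⟩
    · exact k1 h.2
    obtain ⟨M, h1, h2⟩ := ih _ h
    refine ⟨M, h1, fun B hB => ?_⟩
    rcases h2 B hB with g | g
    · rcases List.mem_cons.1 g with rfl | g
      · exact Or.inr ⟨List.mem_cons_self, Nat.lt_of_not_le fun g =>
          Bool.false_ne_true (e.symm.trans (Nat.ble_eq_true_of_le g))⟩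
      · exact Or.inl g
    · exact Or.inr ⟨List.mem_cons_of_mem _ g.1, g.2⟩

theorem cov_ok {L : List B5} {a1 a2 R x0 x1 a r x : ℕ} (h : cov L a1 a2 R x0 x1 = true)
    (k1 : a1 ≤ a) (k2 : a < a2) (k3 : r ≤ R) (k4 : x0 ≤ x) (k5 : x < x1) :
    ∃ B ∈ L, B.Mem a r x := by
  obtain ⟨M, h1, h2⟩ := fl_ok _ _ h
  obtain ⟨B, b1, b2, b3, b4, b5⟩ := cv_ok _ _ _ _ _ h1 k1 k2 k4 k5
  obtain ⟨g1, g2⟩ := (h2 B b1).resolve_left List.not_mem_nil
  exact ⟨B, g1, b2, b3, by omega, b4, b5⟩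

end Pool.Agent.MP_2339ce_nt.Q2.Top

end
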