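import Pool.Agent.MP_2339ce_nt.Q2.Top
import Pool.Agent.MP_2339ce_nt.Q2.Cov
import Pool.Agent.MP_2339ce_nt.Q2.Msk
import Pool.Agent.MP_2339ce_nt.Q2.NRSpec

/-! Project Q2, top: from the sieve to the list. -/

set_option autoImplicit false

namespace Pool.Agent.MP_2339ce_nt.Q2.Top

open TB

/-- the rectangles of `rs` that meet `M1 ≤ N ≤ M2` are covered by the boxes of `L` -/
noncomputable def covK (rs : List Rc) (M1 M2 : ℕ) (L : List B5) : Bool :=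
  @List.rec Rc (fun _ => Bool) true (fun ρ _ r => it r false (it true (it true
    (cov L (Nat.max ρ.a1 1) (Nat.succ ρ.a2) ρ.R (Nat.max ρ.x0 1) (Nat.succ ρ.x1))
    (Nat.blt M2 ρ.N1)) (Nat.blt ρ.N2 M1))) rs

/-- every point of `rs` lies in a box of `L` -/
def Cvd (rs : List Rc) (N : ℕ) (L : List B5) : Prop :=
  ∀ a r w, 1 ≤ a → 1 ≤ w → InR rs N a r w → ∃ B ∈ L, B.Mem a r w

theorem covK_ok {rs : List Rc} {M1 M2 N : ℕ} {L : List B5} (h : covK rs M1 M2 L = true)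
    (h1 : M1 ≤ N) (h2 : N ≤ M2) : Cvd rs N L := by
  rintro a r w ha hw ⟨ρ, hρ, k1, k2, k3, k4, k5, k6, k7⟩
  induction rs with
  | nil => exact absurd hρ List.not_mem_nil
  | cons σ rs ih =>
    rcases it_t h with ⟨g, h⟩ | ⟨-, h⟩
    · rcases List.mem_cons.1 hρ with rfl | hρ
      · rcases it_t g with ⟨g, -⟩ | ⟨-, g⟩
        · rw [Nat.blt_eq] at g
          omega
        rcases it_t g with ⟨g, -⟩ | ⟨-, g⟩
        · rw [Nat.blt_eq] at g
          omega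
        exact cov_ok g (Nat.max_le.2 ⟨k3, ha⟩) (Nat.lt_succ_of_le k4) k5 (Nat.max_le.2 ⟨k6, hw⟩)
          (Nat.lt_succ_of_le k7)
      · exact ih h hρ
    · exact absurd h Bool.false_ne_true

theorem Cvd.app {r1 r2 : List Rc} {N : ℕ} {L : List B5} (h1 : Cvd r1 N L) (h2 : Cvd r2 N L) :
    Cvd (r1 ++ r2) N L := by
  rintro a r w ha hw ⟨ρ, hρ, k⟩
  exact (List.mem_append.1 hρ).elim (fun g => h1 a r w ha hw ⟨ρ, g, k⟩)
    fun g => h2 a r w ha hw ⟨ρ, g, k⟩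

/-- the check of one triple is sound for `d ≤ D a b c` -/
def CkOk (ck : NR.Ck) (N : ℕ) (D : ℕ → ℕ → ℕ → ℕ) : Prop := ∀ a b c d r s t x y z : ℕ,
  Nq N a b c d r s t x y z → d ≤ D a b c → ck N a b c r s t = true →
    EX.inL (EX.qf N) a b c d = true

theorem sq_of {N u v : ℕ} (h : IsSquare ((u : ℤ) * v + -(N : ℤ))) : Msk.Sq N u v := hh h

theorem pw {N a b c d : ℕ} {e : ℤ} (h : DQ.Qt (-(N : ℤ)) a b c d e) :
    [a, b, c, d, e.toNat].Pairwise (Msk.Sq N) := by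
  have h1 := h.a0
  have h2 := h.ab
  have h3 := h.bc
  have h4 := h.cd
  have h5 := h.de
  lift e to ℕ using by omega
  simp only [Int.toNat_natCast, List.pairwise_cons, List.forall_mem_cons, List.not_mem_nil,
    IsEmpty.forall_iff, implies_true, and_true, List.Pairwise.nil]
  exact ⟨⟨sq_of h.s1, sq_of h.s2, sq_of h.s3, sq_of h.s4⟩, ⟨sq_of h.s5, sq_of h.s6, sq_of h.s7⟩,
    ⟨sq_of h.s8, sq_of h.s9⟩, sq_of h.s10⟩

theorem el_ok {N a b c d : ℕ} {e : ℤ} (hN : N ≤ 254) (h : DQ.Qt (-(N : ℤ)) a b c d e) :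
    NR.el (Msk.PP N) (Msk.mk N) a = true := by
  have h1 := Nat.eq_of_beq_eq_true (Msk.mk_ok rfl (pw h))
  have h2 := Msk.PP_ok (by omega) (sq_of h.s1)
  change NR.both (Nat.beq (1 &&& (Msk.mk N >>> (a % 64))) 1) (Nat.beq (Nat.gcd a _) 1) = true
  rw [Nat.one_and_eq_mod_two, h2]
  change Msk.mk N >>> (a % 64) % 2 = 1 at h1
  rw [h1]
  rfl

theorem wne {N a b c d r s t x y z w : ℕ} (h : Nq N a b c d r s t x y z) (hw : w + r * s = a * t)
    (hc : c ≠ a + b + 2 * r) : 0 < a ∧ 1 ≤ w ∧ w ≠ N := by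
  have h1 := h.hr
  have h2 := h.hs
  have h3 := h.ht
  have h4 := h.ab
  have h5 := h.bc
  have h6 := h.hN
  have ha : 0 < a := Nat.pos_of_ne_zero fun g => by
    rw [g] at h1
    omega
  have rs : r < s := lt_of_pow_lt_pow_left₀ 2 (Nat.zero_le s) (by
    have := Nat.mul_lt_mul_of_pos_left h5 ha
    omega)
  zify at h1 h2 h3 h4 h5 h6 hw hc rs
  have e : (w : ℤ) ^ 2 + 2 * w * r * s = N * ((s : ℤ) ^ 2 + r ^ 2 + N - a ^ 2) := by
    linear_combination ((w : ℤ) + r * s + a * t) * hw + (a : ℤ) ^ 2 * h3 -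
      ((s : ℤ) ^ 2 + N) * h1 - (a : ℤ) * b * h2
  refine ⟨ha, Nat.pos_of_ne_zero fun g => ?_, fun g => hc ?_⟩
  · have ha' : (0 : ℤ) < a := by exact_mod_cast ha
    have : (0 : ℤ) < N * ((s : ℤ) ^ 2 + r ^ 2 + N - a ^ 2) := mul_pos h6 (by nlinarith)
    rw [← e, g] at this
    simp at this
  · have ha' : (0 : ℤ) < a := by exact_mod_cast ha
    rw [g] at e
    have e2 : ((s : ℤ) - r - a) * (s - r + a) = 0 :=
      mul_left_cancel₀ h6.ne' (by linear_combination -e)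
    have e3 : (s : ℤ) = r + a := by
      rcases mul_eq_zero.1 e2 with g | g <;> linarith
    rw [e3] at h2
    exact mul_left_cancel₀ ha'.ne' (by linear_combination h1 - h2)

theorem lstS {N : ℕ} {rs : List Rc} {D : ℕ → ℕ → ℕ → ℕ} {ck : NR.Ck} {L : List B5} (hN : N ≤ 254)
    (h2 : Sem false root rs) (h3 : ∀ ρ ∈ rs, ρ.R ≤ 2 ^ 34)
    (h4 : ∀ (a b c d : ℕ) (e : ℤ), DQ.Qt (-(N : ℤ)) a b c d e → a * b ≤ 2 ^ 70 → d ≤ D a b c)
    (h5 : Cvd rs N L) (h6 : CkOk ck N D)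
    (h7 : ∀ B ∈ L, NR.Ok ck N (Msk.PP N) (Msk.mk N) B.a1 B.a2 0 B.R B.x0 B.x1) : Lst false N := by
  intro q e hq hQ hr
  obtain ⟨ρ, hρ, k1, k2, k3, k4, k5, k6⟩ := h2 q e (by omega) hQ hr (root_ok q (by omega))
  obtain ⟨k6, k7⟩ := k6 rfl
  have k8 := hr.2 rfl
  obtain ⟨a, b, c, d, r, s, t, x, y, z, ea, eb, ec, ed, er, es, et, -, h⟩ := nat q N hq
  obtain ⟨w, hw⟩ := Nat.exists_eq_add_of_le (wpos h)
  rw [ea, er, es, et] at k6 k7
  rw [hq, ea, eb, ec, ed] at hQ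
  rw [ea, eb, ec, ed]
  have k9 : (a * t : ℤ) = r * s + w := by exact_mod_cast hw
  have k10 : r ^ 2 ≤ (2 ^ 34) ^ 2 := Nat.pow_le_pow_left (le_trans (by omega) (h3 ρ hρ)) 2
  have k11 : w + r * s = a * t := by omega
  obtain ⟨w1, w2, w3⟩ := wne h k11 (by omega)
  obtain ⟨B, hB, b1, b2, b3, b4, b5⟩ := h5 a r w w1 w2
    ⟨ρ, hρ, by omega, by omega, by omega, by omega, by omega, by omega, by omega⟩
  refine h6 a b c d r s t x y z h (h4 a b c d e hQ ?_) (h7 B hB a b c r s t w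
    ⟨h.hN, w1, h.ab, h.bc, h.hr, h.hs, h.ht, k11⟩ (el_ok hN hQ) w3 b1 b2 (Nat.zero_le r) b3 b4 b5)
  rw [← h.hr]
  omega

/-- no quintuple if the mask is empty -/
theorem no0 {N : ℕ} (h0 : N % 4 = 2) (a b c d e : ℤ) : ¬ DQ.Qt (-(N : ℤ)) a b c d e := by
  intro h
  have h1 := h.a0
  have h2 := h.ab
  have h3 := h.bc
  have h4 := h.cd
  lift a to ℕ using by omega
  lift b to ℕ using by omega
  lift c to ℕ using by omega
  lift d to ℕ using by omega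
  have k := Msk.mk_ok rfl (pw h)
  have k2 : ∀ i < 16, Msk.mk (4 * i + 2) = 0 := by decide +kernel
  have k3 := k2 (N % 64 / 4) (by omega)
  rw [show 4 * (N % 64 / 4) + 2 = N % 64 by omega, show Msk.mk (N % 64) = Msk.mk N from
    congrArg (fun t => Msk.TM >>> (64 * t) % _) (Nat.mod_mod N 64)] at k3
  rw [k3] at k
  have k4 : 0 >>> (a % 64) % 2 = 1 := Nat.eq_of_beq_eq_true k
  simp at k4

end Pool.Agent.MP_2339ce_nt.Q2.Top
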