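import Pool.Agent.MP_2339ce_nt.Q2.NRH
import Pool.Agent.MP_2339ce_nt.Q2.Top2

/-! Project Q2, top: the rectangles lie in the regions that the sieve covers. -/

set_option autoImplicit false

noncomputable section

namespace Pool.Agent.MP_2339ce_nt.Q2.Top

open TB NR

/-- a search tree in `N` with regions at the leaves -/
inductive Ct : Type
  | lf (L : Lt) : Ct
  | nd (c : ℕ) (l u : Ct) : Ct

/-- the region of `N` -/
def Ct.get (N : ℕ) (T : Ct) : Lt :=
  @Ct.rec (fun _ => Lt) (fun L => L)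
    (fun c _ _ il iu => @Bool.rec (fun _ => Lt) il iu (Nat.ble c N)) T

/-- `L` contains `a1 ≤ a ≤ a2`, `r ≤ R`, `x ≤ w ≤ x1` -/
def cvT (a1 a2 R x1 : ℕ) (L : Lt) : ℕ → Bool :=
  @Lt.rec (fun _ => ℕ → Bool) (fun _ => false)
    (fun S y0 y1 _ ih x => @Bool.rec (fun _ => Bool) (@Bool.rec (fun _ => Bool) (ih x)
      (@Bool.rec (fun _ => Bool) (@Bool.rec (fun _ => Bool) true (ih y1) (Nat.ble y1 x1)) (ih x)
        (Nat.ble S R)) (Nat.ble y0 x)) (ih x) (Nat.ble y1 x))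
    (fun c _ _ il iu x => @Bool.rec (fun _ => Bool) (@Bool.rec (fun _ => Bool) (il x)
      (@Bool.rec (fun _ => Bool) false (iu x) (il x)) (Nat.ble c a2)) (iu x) (Nat.ble c a1)) L

def cvC (N1 N2 : ℕ) (f : Lt → Bool) (T : Ct) : Bool :=
  @Ct.rec (fun _ => Bool) f
    (fun c _ _ il iu => @Bool.rec (fun _ => Bool) (@Bool.rec (fun _ => Bool) il
      (@Bool.rec (fun _ => Bool) false iu il) (Nat.ble c N2)) iu (Nat.ble c N1)) T

def cvR (T : Ct) (ρ : Rc) : Bool :=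
  @Rc.rec (fun _ => Bool) (fun N1 N2 a1 a2 R x0 x1 => @Bool.rec (fun _ => Bool)
    (@Bool.rec (fun _ => Bool) (cvC N1 N2 (fun L => cvT a1 a2 R x1 L
      (@Bool.rec (fun _ => ℕ) (nat_lit 1) x0 (Nat.ble (nat_lit 1) x0))) T) false
        (Nat.ble (nat_lit 1099511627776) x1)) false (Nat.ble (nat_lit 34359738368) R)) ρ

/-- the rectangles of `rs` lie in the regions of `T` -/
def covC (T : Ct) (rs : List Rc) : Bool :=
  @List.rec Rc (fun _ => Bool) true
    (fun ρ _ ih => @Bool.rec (fun _ => Bool) false ih (cvR T ρ)) rs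

theorem br {f t c : Bool} (h : @Bool.rec (fun _ => Bool) f t c = true) :
    (c = false ∧ f = true) ∨ (c = true ∧ t = true) := by
  cases c
  exacts [Or.inl ⟨rfl, h⟩, Or.inr ⟨rfl, h⟩]

theorem bf {x y : ℕ} (h : Nat.ble x y = false) : y < x :=
  Nat.lt_of_not_le fun q => Bool.false_ne_true (h.symm.trans (Nat.ble_eq_true_of_le q))

theorem cvT_ok {a1 a2 R x1 a r w : ℕ} (k1 : a1 ≤ a) (k2 : a ≤ a2) (k3 : r ≤ R) (k4 : w ≤ x1)
    (L : Lt) : ∀ x, cvT a1 a2 R x1 L x = true → x ≤ w → L.Mem a r w := by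
  induction L with
  | nil => exact fun _ h => absurd h Bool.false_ne_true
  | st S y0 y1 t ih =>
    intro x h k5
    rcases br h with ⟨-, h⟩ | ⟨-, h⟩
    swap
    · exact Or.inr (ih x h k5)
    rcases br h with ⟨-, h⟩ | ⟨g1, h⟩
    · exact Or.inr (ih x h k5)
    rcases br h with ⟨g2, h⟩ | ⟨-, h⟩
    swap
    · exact Or.inr (ih x h k5)
    have g1 := Nat.le_of_ble_eq_true g1
    have g2 := bf g2
    rcases Nat.lt_or_ge w y1 with g | g
    · exact Or.inl ⟨by omega, by omega, g⟩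
    rcases br h with ⟨g3, -⟩ | ⟨-, h⟩
    · have := bf g3
      omega
    · exact Or.inr (ih y1 h g)
  | nd c l u il iu =>
    intro x h k5
    rcases br h with ⟨-, h⟩ | ⟨g, h⟩
    swap
    · exact Or.inr ⟨(Nat.le_of_ble_eq_true g).trans k1, iu x h k5⟩
    rcases br h with ⟨g, h⟩ | ⟨-, h⟩
    · exact Or.inl ⟨lt_of_le_of_lt k2 (bf g), il x h k5⟩
    rcases br h with ⟨-, h⟩ | ⟨g, h⟩
    · exact absurd h Bool.false_ne_true
    · exact (Nat.lt_or_ge a c).imp (fun q => ⟨q, il x g k5⟩) fun q => ⟨q, iu x h k5⟩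

theorem cvC_ok {N1 N2 N : ℕ} {f : Lt → Bool} (k1 : N1 ≤ N) (k2 : N ≤ N2) (T : Ct)
    (h : cvC N1 N2 f T = true) : f (T.get N) = true := by
  induction T with
  | lf L => exact h
  | nd c l u il iu =>
    change f (@Bool.rec (fun _ => Lt) (l.get N) (u.get N) (Nat.ble c N)) = true
    cases e : Nat.ble c N
    · have e := bf e
      rcases br h with ⟨-, h⟩ | ⟨g, -⟩
      · rcases br h with ⟨-, h⟩ | ⟨-, h⟩
        · exact il h
        rcases br h with ⟨-, h⟩ | ⟨g, -⟩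
        · exact absurd h Bool.false_ne_true
        · exact il g
      · have := Nat.le_of_ble_eq_true g
        omega
    · have e := Nat.le_of_ble_eq_true e
      rcases br h with ⟨-, h⟩ | ⟨-, h⟩
      · rcases br h with ⟨g, -⟩ | ⟨-, h⟩
        · have := bf g
          omega
        rcases br h with ⟨-, h⟩ | ⟨-, h⟩
        · exact absurd h Bool.false_ne_true
        · exact iu h
      · exact iu h

/-- every point of `rs` lies in the region of its `N` -/
def CvC (T : Ct) (rs : List Rc) : Prop := ∀ N a r w, 1 ≤ w → InR rs N a r w →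
  (T.get N).Mem a r w ∧ r < 34359738368 ∧ w < 1099511627776

theorem covC_ok {T : Ct} {rs : List Rc} (h : covC T rs = true) : CvC T rs := by
  rintro N a r w hw ⟨ρ, hρ, k1, k2, k3, k4, k5, k6, k7⟩
  induction rs with
  | nil => exact absurd hρ List.not_mem_nil
  | cons σ rs ih =>
    rcases br h with ⟨-, h⟩ | ⟨g, h⟩
    · exact absurd h Bool.false_ne_true
    rcases List.mem_cons.1 hρ with rfl | hρ
    swap
    · exact ih h hρ
    obtain ⟨N1, N2, a1, a2, R, x0, x1⟩ := ρ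
    rcases br g with ⟨g1, g⟩ | ⟨-, g⟩
    swap
    · exact absurd g Bool.false_ne_true
    rcases br g with ⟨g2, g⟩ | ⟨-, g⟩
    swap
    · exact absurd g Bool.false_ne_true
    refine ⟨cvT_ok k3 k4 k5 k7 _ _ (cvC_ok k1 k2 T g) ?_, lt_of_le_of_lt k5 (bf g1),
      lt_of_le_of_lt k7 (bf g2)⟩
    cases Nat.ble (nat_lit 1) x0
    exacts [hw, k6]

theorem CvC.app {T : Ct} {r1 r2 : List Rc} (h1 : CvC T r1) (h2 : CvC T r2) : CvC T (r1 ++ r2) := by
  rintro N a r w hw ⟨ρ, hρ, k⟩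
  exact (List.mem_append.1 hρ).elim (fun g => h1 N a r w hw ⟨ρ, g, k⟩)
    fun g => h2 N a r w hw ⟨ρ, g, k⟩

/-- a list in pieces of given lengths -/
theorem CvC.cut {T : Ct} {rs : List Rc} (i n : ℕ) (h1 : covC T ((rs.drop i).take n) = true)
    (h2 : CvC T (rs.drop (i + n))) : CvC T (rs.drop i) := by
  rw [← List.take_append_drop n (rs.drop i), List.drop_drop]
  exact (covC_ok h1).app h2

/-- every quintuple of the box with a triple that is not regular lies in the region of its `N` -/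
def SemT (T : Ct) (B : Bx) : Prop := ∃ rs, Sem false B rs ∧ CvC T rs

theorem semT_nd {T : Ct} {B : Bx} (ax t : ℕ) (h1 : SemT T (B.lft ax t)) (h2 : SemT T (B.rgt ax t)) :
    SemT T B :=
  h1.elim fun r1 h1 => h2.elim fun r2 h2 =>
    ⟨r1 ++ r2, nd_ok false B ax t r1 r2 h1.1 h2.1, h1.2.app h2.2⟩

theorem semT_of {T : Ct} {B : Bx} {rs : List Rc} (h1 : Sem false B rs) (h2 : covC T rs = true) :
    SemT T B := ⟨rs, h1, covC_ok h2⟩

theorem lstT {N : ℕ} {D : ℕ → ℕ → ℕ → ℕ} {ck : NR.Ck} {T : Ct} (hN : N ≤ 254) (h2 : SemT T root)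
    (h4 : ∀ (a b c d : ℕ) (e : ℤ), DQ.Qt (-(N : ℤ)) a b c d e → a * b ≤ 2 ^ 70 → d ≤ D a b c)
    (h6 : CkOk ck N D)
    (h7 : OkQ ck (T.get N) N 1 1099511627776 0 34359738368 1 1099511627776) : Lst false N := by
  intro q e hq hQ hr
  obtain ⟨rs, h2, h5⟩ := h2
  obtain ⟨ρ, hρ, k1, k2, k3, k4, k5, k6⟩ := h2 q e (by omega) hQ hr (root_ok q (by omega))
  obtain ⟨k6, k7⟩ := k6 rfl
  have k8 := hr.2 rfl
  obtain ⟨a, b, c, d, r, s, t, x, y, z, ea, eb, ec, ed, er, es, et, -, h⟩ := nat q N hq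
  obtain ⟨w, hw⟩ := Nat.exists_eq_add_of_le (wpos h)
  rw [ea, er, es, et] at k6 k7
  rw [hq, ea, eb, ec, ed] at hQ
  rw [ea, eb, ec, ed]
  have k9 : (a * t : ℤ) = r * s + w := by exact_mod_cast hw
  have k11 : w + r * s = a * t := by omega
  obtain ⟨w1, w2, w3⟩ := wne h k11 (by omega)
  obtain ⟨b1, b2, b3⟩ := h5 N a r w w2
    ⟨ρ, hρ, by omega, by omega, by omega, by omega, by omega, by omega, by omega⟩
  have k10 : r ^ 2 ≤ 34359738367 ^ 2 := Nat.pow_le_pow_left (by omega) 2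
  have k12 : a * b ≤ 2 ^ 70 := by
    rw [← h.hr]
    omega
  have k13 : a < 1099511627776 := Nat.lt_of_not_le fun g => by
    have := Nat.mul_le_mul g (g.trans h.ab.le)
    omega
  exact h6 a b c d r s t x y z h (h4 a b c d e hQ k12) (h7 a b c r s t w
    ⟨h.hN, w1, h.ab, h.bc, h.hr, h.hs, h.ht, k11⟩ (el_ok hN hQ) w3 b1 w1 k13 (Nat.zero_le r) b2
    w2 b3)

end Pool.Agent.MP_2339ce_nt.Q2.Top
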