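import Pool.Agent.MP_2339ce_nt.Q2.TCSpec

/-! Project Q2, block TC: chains of windows and the use of the bound for the fourth element. -/

set_option autoImplicit false

noncomputable section

namespace Pool.Agent.MP_2339ce_nt.Q2.TB

theorem chain_isP (e : ℤ) : isP e = true ↔ 0 < e := by
  cases e with
  | ofNat n =>
    show Nat.ble 1 n = true ↔ (0 : ℤ) < (n : ℤ)
    rw [Nat.ble_eq]
    omega
  | negSucc n =>
    show false = true ↔ (0 : ℤ) < Int.negSucc n
    have := Int.negSucc_lt_zero n
    constructor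
    · intro h
      exact absurd h (by decide)
    · intro h
      omega

theorem chain_isP_false (e : ℤ) (h : isP e = false) : e ≤ 0 := by
  by_contra hc
  have h1 : isP e = true := (chain_isP e).2 (by omega)
  rw [h] at h1
  exact absurd h1 (by decide)

theorem chain_getD {α : Type} (l : List α) (j : ℕ) (d : α) (h : j < l.length) :
    l.getD j d ∈ l := by
  rw [List.getD_eq_getElem?_getD, List.getElem?_eq_getElem h, Option.getD_some]
  exact List.getElem_mem h

theorem chain_neg_v (s : Af) (N a b c d : ℤ) :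
    (Af.neg s).v N a b c d = - s.v N a b c d := by
  simp only [Af.v, Af.neg]
  push_cast
  ring

/-- one window is empty -/
theorem chain_wd (h1 : S_WIN) (h2 : S_AFL) (h3 : S_HW) (reg : Bool) (cfs : List CF) (B : Bx)
    (U : Us) (lo : Lf) (w : Wd) (q : Qd) (hc : ∀ C ∈ cfs, C.Ok)
    (hr : reg = true → q.c = q.a + q.b + 2 * q.r) (hB : B.Mem q.N q.a q.b q.c) (hU : U.Ok q)
    (hw0 : wdOK reg cfs B U lo w = true) (hlo : lo.val q.N q.a q.b q.c ≤ 600 * lg q.d)
    (hhi : 600 * lg q.d ≤ w.hi.val q.N q.a q.b q.c) : False := by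
  unfold wdOK at hw0
  cases hty : Nat.beq w.ty 0 with
  | true =>
    rw [hty] at hw0
    have hw1 : (Nat.blt w.id cfs.length &&
        winOK (cfs.getD w.id cf0) B lo w.hi w.s w.g) = true := hw0
    rw [Bool.and_eq_true] at hw1
    obtain ⟨ha, hb⟩ := hw1
    have hlt : w.id < cfs.length := by
      rw [Nat.blt_eq] at ha
      exact ha
    have hm : cfs.getD w.id cf0 ∈ cfs := chain_getD cfs w.id cf0 hlt
    exact h1 _ B lo w.hi w.s w.g q (hc _ hm) hb ⟨hB, hlo, hhi⟩
  | false =>
    rw [hty] at hw0
    have hw1 : hwOK reg w.id B U lo w.hi = true := hw0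
    unfold hwOK at hw1
    rw [Bool.and_eq_true, Bool.or_eq_true, List.all_eq_true] at hw1
    obtain ⟨ha, hb⟩ := hw1
    refine h3 w.id q ?_ ?_
    · rcases ha with ha | ha
      · exact Or.inr (hr ha)
      · rw [Nat.ble_eq] at ha
        exact Or.inl ha
    · intro x hx
      have hx1 := hb x hx
      cases hk : isP x.k with
      | true =>
        rw [hk] at hx1
        have hx2 : le0 B (afL U x w.hi) = true := hx1
        have hp : (0 : ℝ) ≤ (x.k : ℝ) := by
          have := (chain_isP x.k).1 hk
          exact_mod_cast this.le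
        exact (h2 B U x w.hi q hB hU (mul_le_mul_of_nonneg_left hhi hp)).1 hx2
      | false =>
        rw [hk] at hx1
        have hx2 : le0 B (afL U x lo) = true := hx1
        have hp : (x.k : ℝ) ≤ 0 := by
          have := chain_isP_false x.k hk
          exact_mod_cast this
        exact (h2 B U x lo q hB hU (mul_le_mul_of_nonpos_left hlo hp)).1 hx2

theorem chain_ok (h1 : S_WIN) (h2 : S_AFL) (h3 : S_HW) : S_CHAIN := by
  intro reg cfs B U ws lo q hc hr hB hU
  induction ws generalizing lo with
  | nil =>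
    intro _ hlo
    exact hlo
  | cons w ws ih =>
    intro hch hlo
    have hch1 : @Bool.rec (fun _ => Bool) false (chainOK reg cfs B U ws w.hi)
        (wdOK reg cfs B U lo w) = true := hch
    cases hw0 : wdOK reg cfs B U lo w with
    | false =>
      rw [hw0] at hch1
      exact absurd (show false = true from hch1) (by decide)
    | true =>
      rw [hw0] at hch1
      have hch2 : chainOK reg cfs B U ws w.hi = true := hch1
      show (lastHi ws w.hi).val q.N q.a q.b q.c ≤ 600 * lg q.d
      rcases le_total (600 * lg q.d) (w.hi.val q.N q.a q.b q.c) with hhi | hhi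
      · exact (chain_wd h1 h2 h3 reg cfs B U lo w q hc hr hB hU hw0 hlo hhi).elim
      · exact ih w.hi hch2 hhi

theorem hpc_ok (h0 : S_HPW) (h2 : S_AFL) : S_HPC := by
  intro wt ix pr i B U D q e hwt hN hQ hB hU hD hok
  unfold hpOK at hok
  rw [Bool.and_eq_true, List.all_eq_true] at hok
  obtain ⟨hix, hok⟩ := hok
  unfold hpOK2 at hok
  rw [Bool.and_eq_true, List.all_eq_true, List.all_eq_true] at hok
  obtain ⟨hs, hl⟩ := hok
  have hws : ∀ w ∈ (ix.map fun j => wt.getD j wn0), w.Ok := by
    intro w hw1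
    obtain ⟨j, hj, rfl⟩ := List.mem_map.1 hw1
    have hlt : j < wt.length := by
      have := hix j hj
      rw [Nat.blt_eq] at this
      exact this
    exact hwt _ (chain_getD wt j wn0 hlt)
  obtain ⟨M, hM, hM0⟩ := h0 _ pr i q.N q.a q.b q.c q.d e hws q.hN hN hQ (by
    intro s hs0
    have hs1 := hs s hs0
    rw [Bool.and_eq_true, Bool.not_eq_true'] at hs1
    obtain ⟨ha, hb⟩ := hs1
    have hp : (((Af.neg s).k : ℤ) : ℝ) ≤ 0 := by
      have h5 : (Af.neg s).k ≤ 0 := chain_isP_false _ ha
      exact_mod_cast h5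
    have h6 := (h2 B U (Af.neg s) D q hB hU (mul_le_mul_of_nonpos_left hD hp)).1 hb
    rw [chain_neg_v] at h6
    linarith)
  have hM1 := hl M hM
  rw [Bool.and_eq_true, Bool.not_eq_true'] at hM1
  obtain ⟨ha, hb⟩ := hM1
  have hp : ((M.k : ℤ) : ℝ) ≤ 0 := by
    have h5 : M.k ≤ 0 := chain_isP_false _ ha
    exact_mod_cast h5
  have h6 := (h2 B U M D q hB hU (mul_le_mul_of_nonpos_left hD hp)).2 hb
  linarith

end Pool.Agent.MP_2339ce_nt.Q2.TB
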