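import Pool.Agent.MP_2339ce_nt.Q2.TCSpec
import Mathlib.Tactic.Linarith
import Mathlib.Tactic.Positivity

/-! Project Q2, block TC, row DF: bounds of the differences. -/

set_option autoImplicit false

namespace Pool.Agent.MP_2339ce_nt.Q2.TB

namespace DfA

theorem lg_le {A B : ℝ} (hA : 0 < A) (h : A ≤ B) : lg A ≤ lg B :=
  Real.logb_le_logb_of_le (by norm_num) hA h

theorem le_of_lg {A B : ℝ} (hA : 0 < A) (hB : 0 < B) (h : lg A ≤ lg B) : A ≤ B :=
  (Real.logb_le_logb (by norm_num) hA hB).1 h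

theorem lg_mul {A B : ℝ} (hA : 0 < A) (hB : 0 < B) : lg (A * B) = lg A + lg B :=
  Real.logb_mul hA.ne' hB.ne'

theorem lg_pow (A : ℝ) (n : ℕ) : lg (A ^ n) = n * lg A := Real.logb_pow 2 A n

theorem lg_two : lg 2 = 1 := Real.logb_self_eq_one (by norm_num)

theorem lg_up {A B : ℝ} {n s : ℕ} (hA : 0 < A) (h : 2 ^ s * A ^ n ≤ B ^ n) :
    s + n * lg A ≤ n * lg B := by
  have h1 := lg_le (by positivity) h
  rw [lg_mul (by positivity) (by positivity), lg_pow, lg_pow, lg_pow, lg_two] at h1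
  linarith

theorem lg_dn {A B : ℝ} {n s : ℕ} (hA : 0 < A) (hB : 0 < B) (h : A ^ n ≤ 2 ^ s * B ^ n) :
    n * lg A ≤ s + n * lg B := by
  have h1 := lg_le (by positivity) h
  rw [lg_mul (by positivity) (by positivity), lg_pow, lg_pow, lg_pow, lg_two] at h1
  linarith

theorem kok {x y : ℝ} (hy : 0 < y) (hxy : y < x) {f : Bool} {t u v k : ℕ}
    (ht : f = false → 100 * (lg x - lg y) ≤ t) (h : kOK f t u v k = true) :
    600 * lg (x - y) ≤ -(k : ℝ) + 600 * lg x := by
  have hd : 0 < x - y := by linarith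
  have hx : 0 < x := by linarith
  simp only [kOK, Bool.or_eq_true, Bool.and_eq_true, Nat.beq_eq, Nat.ble_eq,
    Bool.not_eq_true'] at h
  rcases h with h | ⟨⟨⟨⟨h1, h2⟩, h3⟩, h4⟩, h5⟩
  · have h6 := lg_le hd (show x - y ≤ x by linarith)
    subst h
    simp only [Nat.cast_zero]
    linarith
  · have hv : (0 : ℝ) < v := by exact_mod_cast h2
    have hvu : (v : ℝ) ≤ u := by exact_mod_cast h3
    have hu : (0 : ℝ) < u := by linarith
    have h4' : (2 : ℝ) ^ t * (v : ℝ) ^ 100 ≤ (u : ℝ) ^ 100 := by exact_mod_cast h4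
    have h5' : (2 : ℝ) ^ k * ((u : ℝ) - v) ^ 600 ≤ (u : ℝ) ^ 600 := by
      rw [mul_comm, ← Nat.cast_sub h3]
      exact_mod_cast h5
    have h6 := lg_up hv h4'
    have h13 := fun h : (0 : ℝ) < (u : ℝ) - v => lg_up h h5'
    clear h4 h5 h4' h5'
    have h7 := ht h1
    have h8 : x * v ≤ y * u := by
      refine le_of_lg (by positivity) (by positivity) ?_
      rw [lg_mul hx hv, lg_mul hy hu]
      push_cast at h6
      linarith
    have h9 : (x - y) * u ≤ ((u : ℝ) - v) * x := by linarith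
    have h10 : (0 : ℝ) < (u : ℝ) - v := by
      have h11 : 0 < ((u : ℝ) - v) * x := lt_of_lt_of_le (by positivity) h9
      exact (mul_pos_iff_of_pos_right hx).1 h11
    have h11 := lg_le (by positivity) h9
    rw [lg_mul hd hu, lg_mul h10 hx] at h11
    have h12 := h13 h10
    push_cast at h12
    linarith

theorem reg {a b r u v : ℝ} {q w k : ℕ} (ha : 0 < a) (hb : 0 < b) (hr : 0 ≤ r)
    (hrr : r ^ 2 ≤ a * b) (hu : 0 < u) (hv : 0 ≤ v) (hq : (q : ℝ) ≤ 100 * (lg b - lg a))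
    (h1 : u ^ 200 ≤ 2 ^ q * v ^ 200) (h2 : (u + v) ^ 200 ≤ 2 ^ w * u ^ 200)
    (h3 : (2 * u + v) ^ 600 ≤ 2 ^ k * (2 * u) ^ 600) :
    100 * (lg (a + b + 2 * r) - lg b) ≤ w ∧
      600 * lg (a + 2 * r) ≤ 600 + k + 300 * lg a + 300 * lg b := by
  have hv' : 0 < v := by
    rcases hv.eq_or_lt with h | h
    · subst h
      have h4 : 0 < u ^ 200 := by positivity
      simp only [ne_eq, OfNat.ofNat_ne_zero, not_false_eq_true, zero_pow, mul_zero] at h1
      exact absurd h1 (not_le.2 h4)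
    · exact h
  have g1 := lg_dn hu hv' h1
  have g2 := lg_dn (by positivity) hu h2
  have g3 := lg_dn (by positivity) (by positivity) h3
  rw [lg_mul (by norm_num) hu, lg_two] at g3
  clear h1 h2 h3
  push_cast at g1 g2 g3
  have e1 : a * u ^ 2 ≤ b * v ^ 2 := by
    refine le_of_lg (by positivity) (by positivity) ?_
    rw [lg_mul ha (by positivity), lg_mul hb (by positivity), lg_pow, lg_pow]
    push_cast
    linarith
  have e2 : r * u ≤ b * v := by
    refine (abs_le_of_sq_le_sq' ?_ (by positivity)).2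
    have e3 : r ^ 2 * u ^ 2 ≤ a * b * u ^ 2 := mul_le_mul_of_nonneg_right hrr (by positivity)
    have e4 : b * (a * u ^ 2) ≤ b * (b * v ^ 2) := mul_le_mul_of_nonneg_left e1 hb.le
    nlinarith
  constructor
  · have e3 : (a + b + 2 * r) * u ^ 2 ≤ b * (u + v) ^ 2 := by
      have e4 : u * (r * u) ≤ u * (b * v) := mul_le_mul_of_nonneg_left e2 hu.le
      nlinarith
    have e4 := lg_le (by positivity) e3
    rw [lg_mul (by positivity) (by positivity), lg_mul hb (by positivity), lg_pow, lg_pow] at e4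
    push_cast at e4
    linarith
  · have e3 : ((a + 2 * r) * u) ^ 2 ≤ a * b * (2 * u + v) ^ 2 := by
      have e4 : a * u * (r * u) ≤ a * u * (b * v) := mul_le_mul_of_nonneg_left e2 (by positivity)
      have e5 : a * (a * u ^ 2) ≤ a * (b * v ^ 2) := mul_le_mul_of_nonneg_left e1 ha.le
      have e6 : r ^ 2 * u ^ 2 ≤ a * b * u ^ 2 := mul_le_mul_of_nonneg_right hrr (by positivity)
      nlinarith
    have e4 := lg_le (by positivity) e3
    rw [lg_pow, lg_mul (by positivity) hu, lg_mul (by positivity) (by positivity),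
      lg_mul ha hb, lg_pow] at e4
    push_cast at e4
    linarith

end DfA

open DfA in
theorem df_ok : S_DF := by
  intro reg B D q hreg hB h
  have ha : (0 : ℝ) < q.a := by have := q.ha; exact_mod_cast (by omega : 0 < q.a)
  have hab : (q.a : ℝ) < q.b := by exact_mod_cast q.hb
  have hbc : (q.b : ℝ) < q.c := by exact_mod_cast q.hc
  have hb : (0 : ℝ) < q.b := by linarith
  have h3 : 600 * lg (q.c - q.a : ℤ) ≤ (⟨0, 0, 0, 0, 6⟩ : Lf).val q.N q.a q.b q.c := by
    have h4 := lg_le (show (0 : ℝ) < (q.c : ℝ) - q.a by linarith)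
      (show (q.c : ℝ) - q.a ≤ q.c by linarith)
    simp only [Lf.val]
    push_cast
    linarith
  simp only [dfOK, Bool.and_eq_true] at h
  obtain ⟨h1, h2⟩ := h
  have h4 : 600 * lg (q.b - q.a : ℤ) ≤ (⟨-(D.k1 : ℤ), 0, 0, 6, 0⟩ : Lf).val q.N q.a q.b q.c := by
    have h5 := kok ha hab hB.q2 h1
    simp only [Lf.val]
    push_cast
    linarith
  cases reg with
  | false =>
    refine ⟨hB, h4, ?_, h3⟩
    have h5 := kok hb hbc hB.w2 h2
    show 600 * lg (q.c - q.b : ℤ) ≤ (⟨-(D.k2 : ℤ), 0, 0, 0, 6⟩ : Lf).val q.N q.a q.b q.c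
    simp only [Lf.val]
    push_cast
    linarith
  | true =>
    have h2' : (Nat.ble 1 D.u2 && Nat.ble (D.u2 ^ 200) (2 ^ B.q1 * D.v2 ^ 200) &&
        Nat.ble ((D.u2 + D.v2) ^ 200) (2 ^ D.w2 * D.u2 ^ 200) &&
        Nat.ble ((2 * D.u2 + D.v2) ^ 600) (2 ^ D.k2 * (2 * D.u2) ^ 600)) = true := h2
    simp only [Bool.and_eq_true, Nat.ble_eq] at h2'
    obtain ⟨⟨⟨g1, g2⟩, g3⟩, g4⟩ := h2'
    have hc : (q.c : ℝ) = q.a + q.b + 2 * q.r := by exact_mod_cast hreg rfl
    have hrr : (q.r : ℝ) ^ 2 ≤ q.a * q.b := by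
      have g5 := q.hr
      have g6 := q.hN
      exact_mod_cast (by linarith only [g5, g6] : q.r ^ 2 ≤ q.a * q.b)
    obtain ⟨e1, e2⟩ := DfA.reg (u := D.u2) (v := D.v2) (w := D.w2) (k := D.k2) ha hb
      (by exact_mod_cast q.r0) hrr (by exact_mod_cast g1) (Nat.cast_nonneg _) hB.q1
      (by exact_mod_cast g2) (by exact_mod_cast g3) (by exact_mod_cast g4)
    clear g2 g3 g4 h2 h1
    refine ⟨⟨hB.L1, hB.L2, hB.p1, hB.p2, hB.q1, hB.q2, hB.w1, fun _ => ?_⟩, h4, ?_, h3⟩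
    · rw [← hc] at e1
      exact e1
    · show 600 * lg (q.c - q.b : ℤ) ≤ (⟨600 + (D.k2 : ℤ), 0, 3, 3, 0⟩ : Lf).val q.N q.a q.b q.c
      simp only [Lf.val]
      push_cast
      rw [show (q.c : ℝ) - q.b = q.a + 2 * q.r by linarith]
      linarith

end Pool.Agent.MP_2339ce_nt.Q2.TB
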