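import Pool.Agent.MP_2339ce_nt.Q2.TBSpec

/-! Project Q2: the sums `sumU`, `sumL` computed with natural numbers only. -/

set_option autoImplicit false

noncomputable section

namespace Pool.Agent.MP_2339ce_nt.Q2.TB

/-- evaluate `x` before it is passed on -/
def frc {α : Type} (x : ℕ) (k : ℕ → α) : α :=
  @Nat.rec (fun _ => α) (k 0) (fun n _ => k n) (Nat.succ x)

def posN (e : ℤ) : ℕ := @Int.rec (fun _ => ℕ) (fun n => n) (fun _ => 0) e
def negN (e : ℤ) : ℕ := @Int.rec (fun _ => ℕ) (fun _ => 0) (fun n => Nat.succ n) e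

/-- one half (positive or negative parts) of a linear form on a box -/
structure Hf where
  V : ℕ
  N : ℕ
  p : ℕ
  q : ℕ
  w : ℕ

def hf (B : Bx) (m eN ea eb ec : ℕ) : Hf :=
  frc eN fun n => frc ec fun w => frc (Nat.add eb w) fun q => frc (Nat.add ea q) fun p =>
    frc (Nat.add (Nat.add m (Nat.mul p B.p1)) (Nat.add (Nat.mul q B.q1) (Nat.mul w B.w1)))
      fun V => ⟨V, n, p, q, w⟩

def hfP (B : Bx) (g : Lf) : Hf := hf B (posN g.m) (posN g.eN) (posN g.ea) (posN g.eb) (posN g.ec)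
def hfN (B : Bx) (g : Lf) : Hf := hf B (negN g.m) (negN g.eN) (negN g.ea) (negN g.eb) (negN g.ec)
def hfS (B : Bx) (s : Tm) : Hf :=
  hf B (Nat.mul 2400 s.m) (Nat.mul 12 s.m) (Nat.mul 6 s.i) (Nat.mul 6 s.j) (Nat.mul 6 s.k)

def dd (f : Bool) (lo hi : ℕ) : ℕ := @Bool.rec (fun _ => ℕ) (Nat.sub hi lo) 1 f

def selW (f : Bool) (k : (ℕ → ℕ → ℕ) → ℕ) : ℕ :=
  @Bool.rec (fun _ => ℕ) (k fun T _ => T) (k Nat.mul) f

def wf (B : Bx) : Bool :=
  Nat.ble B.L1 B.L2 && (B.fp || Nat.ble B.p1 B.p2) && (B.fq || Nat.ble B.q1 B.q2) &&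
    (B.fw || Nat.ble B.w1 B.w2)

/-- the constants of a box, evaluated once -/
def cst (B : Bx) (L : ℕ)
    (k : (ℕ → ℕ → ℕ) → (ℕ → ℕ → ℕ) → (ℕ → ℕ → ℕ) → ℕ → ℕ → ℕ → ℕ → ℕ → ℕ → ℕ → ℕ → ℕ) : ℕ :=
  frc (Nat.mul 6 B.p1) fun a => frc (Nat.add a (Nat.mul 6 B.q1)) fun b =>
  frc (Nat.add b (Nat.mul 6 B.w1)) fun g => frc (Nat.mul 12 L) fun e =>
  frc (Nat.mul 12 (Nat.sub B.L2 B.L1)) fun DN => frc (Nat.mul 6 (dd B.fp B.p1 B.p2)) fun Dp =>
  frc (Nat.mul 6 (dd B.fq B.q1 B.q2)) fun Dq => frc (Nat.mul 6 (dd B.fw B.w1 B.w2)) fun Dw =>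
  selW B.fp fun wp => selW B.fq fun wq => selW B.fw fun ww => k wp wq ww a b g e DN Dp Dq Dw

structure Pre where
  C : ℕ
  Cn : ℕ
  KN : ℕ
  Kp : ℕ
  Kq : ℕ
  Kw : ℕ

def preU2 (B : Bx) (n : ℕ) (X Y S : Hf) : Pre :=
  frc (Nat.add (Nat.add 4848149 S.V) (Nat.mul n (Nat.add X.V (Nat.mul X.N B.L2)))) fun c1 =>
  frc (Nat.add (Nat.mul S.N B.L2) (Nat.mul n (Nat.add Y.V (Nat.mul Y.N B.L2)))) fun c2 =>
  frc (Nat.mul (Nat.sub (Nat.add S.N (Nat.mul n Y.N)) (Nat.mul n X.N)) (Nat.sub B.L2 B.L1))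
    fun kN =>
  frc (Nat.mul (Nat.sub (Nat.add S.p (Nat.mul n X.p)) (Nat.mul n Y.p)) (dd B.fp B.p1 B.p2))
    fun kp =>
  frc (Nat.mul (Nat.sub (Nat.add S.q (Nat.mul n X.q)) (Nat.mul n Y.q)) (dd B.fq B.q1 B.q2))
    fun kq =>
  frc (Nat.mul (Nat.sub (Nat.add S.w (Nat.mul n X.w)) (Nat.mul n Y.w)) (dd B.fw B.w1 B.w2))
    fun kw => ⟨c1, c2, kN, kp, kq, kw⟩

def preU (B : Bx) (lo hi : Lf) (s : Tm) (l : ℕ) : Pre :=
  @Bool.rec (fun _ => Pre) (preU2 B (Nat.sub s.l l) (hfP B hi) (hfN B hi) (hfS B s))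
    (preU2 B (Nat.sub l s.l) (hfN B lo) (hfP B lo) (hfS B s)) (Nat.ble s.l l)

def ub2 (c F : ℕ) : ℕ :=
  @Bool.rec (fun _ => ℕ) (nat_lit 4722366482869645213696)
    (Nat.succ (Nat.shiftRight (Nat.shiftLeft (Nat.mul c (Nat.mod (Nat.shiftRight
      (nat_lit 79883173738251535317398965124222089232384)
      (Nat.mul (nat_lit 17) (Nat.mod F (nat_lit 8)))) (nat_lit 131072))) (nat_lit 100))
      (Nat.sub (nat_lit 4100) (Nat.div F (nat_lit 8))))) (Nat.ble F (nat_lit 32800))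

def tmU2 (wp wq ww : ℕ → ℕ → ℕ) (c P Tp Tq Tw N : ℕ) : ℕ :=
  ub2 c (Nat.div (Nat.sub (Nat.add P (Nat.add (Nat.add
    (wp Tp (Nat.add N (nat_lit 4920150))) (wq Tq (Nat.add N (nat_lit 4920150))))
    (ww Tw (Nat.add N (nat_lit 4920150))))) N) (nat_lit 150))

def tmU (wp wq ww : ℕ → ℕ → ℕ) (a b g e DN Dp Dq Dw : ℕ) (c i j k m C Cn KN Kp Kq Kw : ℕ) : ℕ :=
  tmU2 wp wq ww c (Nat.add (Nat.add C (Nat.mul m e)) (Nat.sub KN (Nat.mul m DN)))
    (Nat.sub Kp (Nat.mul (Nat.add i (Nat.add j k)) Dp)) (Nat.sub Kq (Nat.mul (Nat.add j k) Dq))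
    (Nat.sub Kw (Nat.mul k Dw))
    (Nat.add (Nat.add (Nat.add Cn (Nat.mul m (nat_lit 2400))) (Nat.mul i a))
      (Nat.add (Nat.mul j b) (Nat.mul k g)))

def loopU (pr : ℕ → Pre) (L : List Tm) (wp wq ww : ℕ → ℕ → ℕ) (a b g e DN Dp Dq Dw : ℕ) : ℕ :=
  @List.rec Tm (fun _ => ℕ) 0 (fun t _ r => Nat.add
    (@Tm.rec (fun _ => ℕ) (fun c _ i j k l m => @Pre.rec (fun _ => ℕ)
      (tmU wp wq ww a b g e DN Dp Dq Dw (Int.natAbs c) i j k m) (pr l)) t) r) L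

def sumU2 (B : Bx) (lo hi : Lf) (s : Tm) (L : List Tm) : ℕ :=
  @Bool.rec (fun _ => ℕ) (sumU B lo hi s L) (cst B B.L2 (loopU (preU B lo hi s) L)) (wf B)

structure PreL where
  C : ℕ
  Cn : ℕ
  KN : ℕ
  Kp : ℕ
  Jp : ℕ
  Kq : ℕ
  Jq : ℕ
  Kw : ℕ
  Jw : ℕ

def preL2 (B : Bx) (n : ℕ) (X Y S : Hf) : PreL :=
  frc (Nat.add (Nat.add 4848150 S.V) (Nat.mul n (Nat.add X.V (Nat.mul X.N B.L1)))) fun c1 =>
  frc (Nat.add (Nat.mul S.N B.L1) (Nat.mul n (Nat.add Y.V (Nat.mul Y.N B.L1)))) fun c2 =>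
  frc (Nat.mul (Nat.sub (Nat.add S.N (Nat.mul n Y.N)) (Nat.mul n X.N)) (Nat.sub B.L2 B.L1))
    fun kN =>
  frc (Nat.mul (Nat.add S.p (Nat.mul n X.p)) (dd B.fp B.p1 B.p2)) fun kp =>
  frc (Nat.mul (Nat.mul n Y.p) (dd B.fp B.p1 B.p2)) fun jp =>
  frc (Nat.mul (Nat.add S.q (Nat.mul n X.q)) (dd B.fq B.q1 B.q2)) fun kq =>
  frc (Nat.mul (Nat.mul n Y.q) (dd B.fq B.q1 B.q2)) fun jq =>
  frc (Nat.mul (Nat.add S.w (Nat.mul n X.w)) (dd B.fw B.w1 B.w2)) fun kw =>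
  frc (Nat.mul (Nat.mul n Y.w) (dd B.fw B.w1 B.w2)) fun jw => ⟨c1, c2, kN, kp, jp, kq, jq, kw, jw⟩

def preL (B : Bx) (lo hi : Lf) (s : Tm) (l : ℕ) : PreL :=
  @Bool.rec (fun _ => PreL) (preL2 B (Nat.sub s.l l) (hfP B lo) (hfN B lo) (hfS B s))
    (preL2 B (Nat.sub l s.l) (hfN B hi) (hfP B hi) (hfS B s)) (Nat.ble s.l l)

def lb2 (c F : ℕ) : ℕ :=
  Nat.shiftRight (Nat.shiftLeft (Nat.mul c (Nat.mod (Nat.shiftRight
    (nat_lit 79882509119183001772628217789575199129600)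
    (Nat.mul (nat_lit 17) (Nat.mod F (nat_lit 8)))) (nat_lit 131072))) (nat_lit 100))
    (Nat.sub (nat_lit 4100) (Nat.div F (nat_lit 8)))

def tmL2 (wp wq ww : ℕ → ℕ → ℕ) (c P Tp Tq Tw N : ℕ) : ℕ :=
  @Nat.rec (fun _ => ℕ) 0 (fun F _ => lb2 c F) (Nat.div (Nat.sub P
    (Nat.add N (Nat.add (Nat.add (wp Tp P) (wq Tq P)) (ww Tw P)))) (nat_lit 150))

def tmL (wp wq ww : ℕ → ℕ → ℕ) (a b g e DN Dp Dq Dw : ℕ)
    (c i j k m C Cn KN Kp Jp Kq Jq Kw Jw : ℕ) : ℕ :=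
  tmL2 wp wq ww c (Nat.add C (Nat.mul m e))
    (Nat.sub (Nat.add (Nat.mul (Nat.add i (Nat.add j k)) Dp) Jp) Kp)
    (Nat.sub (Nat.add (Nat.mul (Nat.add j k) Dq) Jq) Kq) (Nat.sub (Nat.add (Nat.mul k Dw) Jw) Kw)
    (Nat.add (Nat.add (Nat.add (Nat.add Cn (Nat.mul m (nat_lit 2400))) (Nat.mul i a))
      (Nat.add (Nat.mul j b) (Nat.mul k g))) (Nat.sub KN (Nat.mul m DN)))

def loopL (pr : ℕ → PreL) (L : List Tm) (wp wq ww : ℕ → ℕ → ℕ) (a b g e DN Dp Dq Dw : ℕ) : ℕ :=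
  @List.rec Tm (fun _ => ℕ) 0 (fun t _ r => Nat.add
    (@Tm.rec (fun _ => ℕ) (fun c _ i j k l m => @PreL.rec (fun _ => ℕ)
      (tmL wp wq ww a b g e DN Dp Dq Dw (Int.natAbs c) i j k m) (pr l)) t) r) L

def sumL2 (B : Bx) (lo hi : Lf) (s : Tm) (L : List Tm) : ℕ :=
  @Bool.rec (fun _ => ℕ) (sumL B lo hi s L) (cst B B.L1 (loopL (preL B lo hi s) L)) (wf B)

namespace Fast

theorem frc_eq {α : Type} (x : ℕ) (k : ℕ → α) : frc x k = k x := rfl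

def wt (f : Bool) (T H : ℕ) : ℕ := @Bool.rec (fun _ => ℕ) T (Nat.mul T H) f

theorem selW_eq (f : Bool) (k : (ℕ → ℕ → ℕ) → ℕ) : selW f k = k (wt f) := by cases f <;> rfl

theorem pn (e : ℤ) : (posN e : ℤ) - negN e = e := by
  cases e with
  | ofNat n => show ((n : ℕ) : ℤ) - ((0 : ℕ) : ℤ) = Int.ofNat n; simp
  | negSucc n => show ((0 : ℕ) : ℤ) - ((n + 1 : ℕ) : ℤ) = Int.negSucc n; omega

theorem isP_iff (e : ℤ) : isP e = true ↔ 0 < e := by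
  cases e with
  | ofNat n =>
    show Nat.ble 1 n = true ↔ (0 : ℤ) < (n : ℕ)
    rw [Nat.ble_eq]; omega
  | negSucc n =>
    show false = true ↔ 0 < Int.negSucc n
    constructor
    · intro h; cases h
    · intro h; omega

theorem up_eq (e : ℤ) (lo hi : ℕ) :
    up e lo hi = e * lo + (e.toNat : ℤ) * ((hi : ℤ) - lo) := by
  cases e with
  | ofNat n =>
    show ((n * hi : ℕ) : ℤ) = ((n : ℕ) : ℤ) * lo + ((n : ℕ) : ℤ) * ((hi : ℤ) - lo)
    push_cast; ring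
  | negSucc n =>
    show Int.negOfNat ((n + 1) * lo) = _
    rw [Int.negOfNat_eq, Int.ofNat_eq_natCast, Int.toNat_negSucc, Int.negSucc_eq]
    push_cast; ring

/-- one coordinate of the box -/
theorem coord (f : Bool) (lo hi T H : ℕ) (e : ℤ) (h : (f || Nat.ble lo hi) = true)
    (hT : T = e.toNat * dd f lo hi) :
    ((f && isP e) = true → H ≤ wt f T H) ∧
    ((f && isP e) = false → (wt f T H : ℤ) = up e lo hi - e * lo) := by
  rw [up_eq]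
  cases f with
  | false =>
    have h1 : lo ≤ hi := Nat.le_of_ble_eq_true (by simpa using h)
    refine ⟨fun h2 => by simp at h2, fun _ => ?_⟩
    show (T : ℤ) = _
    rw [hT]
    show ((e.toNat * (hi - lo) : ℕ) : ℤ) = _
    push_cast [h1]; ring
  | true =>
    have e1 : T = e.toNat := by rw [hT]; exact Nat.mul_one _
    have e2 : wt true T H = T * H := rfl
    rw [Bool.true_and, e2]
    constructor
    · intro h2
      have := (isP_iff e).1 h2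
      exact Nat.le_mul_of_pos_left H (by omega)
    · intro h2
      have h3 : ¬ 0 < e := fun h4 => by rw [(isP_iff e).2 h4] at h2; cases h2
      have h5 : e.toNat = 0 := by omega
      rw [e1, h5]; simp

theorem tabU (r : ℕ) (h : r < 8) :
    (79883173738251535317398965124222089232384 >>> (17 * r)) % 131072 = tU r := by
  revert r
  decide +kernel

theorem tabL (r : ℕ) (h : r < 8) :
    (79882509119183001772628217789575199129600 >>> (17 * r)) % 131072 = tL r := by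
  revert r
  decide +kernel

theorem ub2_le (c F : ℕ) (h : F ≤ 32800) : ub2 c F = ubN c F := by
  unfold ub2 ubN
  rw [Nat.ble_eq_true_of_le h]
  exact congrArg (fun z => Nat.succ (Nat.shiftRight (Nat.shiftLeft (Nat.mul c z) 100)
    (Nat.sub 4100 (Nat.div F 8)))) (tabU (F % 8) (Nat.mod_lt _ (by norm_num)))

theorem ub2_gt (c F : ℕ) (h : 32800 < F) : ub2 c F = Nat.pow 2 72 := by
  unfold ub2
  cases h1 : Nat.ble F (nat_lit 32800) with
  | false => rfl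
  | true => exact absurd (Nat.le_of_ble_eq_true h1) (Nat.not_le.2 h)

theorem lb2_eq (c F : ℕ) : lb2 c F = lbN c F :=
  congrArg (fun z => Nat.shiftRight (Nat.shiftLeft (Nat.mul c z) 100)
    (Nat.sub 4100 (Nat.div F 8))) (tabL (F % 8) (Nat.mod_lt _ (by norm_num)))

theorem shr0 (c a b k : ℕ) : ((c * 2 ^ a) <<< b) >>> (k + (a + b)) = c >>> k := by
  rw [Nat.shiftLeft_eq, Nat.shiftRight_eq_div_pow, Nat.shiftRight_eq_div_pow, mul_assoc,
    ← pow_add, pow_add 2 k, Nat.mul_div_mul_right _ _ (Nat.two_pow_pos _)]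

theorem ub2_eq (c P N : ℕ) (X : ℤ) (h : (P : ℤ) - N = X + 4848149) :
    ub2 c ((P - N) / 150) = ubX c X := by
  unfold ubX
  have e0 : Int.add X 4848000 = X + 4848000 := rfl
  rw [e0]
  cases hY : X + 4848000 with
  | ofNat n =>
    rw [Int.ofNat_eq_natCast] at hY
    have e1 : P - N = n + 149 := by omega
    rw [e1]
    show _ = @Bool.rec (fun _ => ℕ) (Nat.pow 2 72) (ubN c ((n + 149) / 150)) (Nat.ble n 4920000)
    cases h1 : Nat.ble n 4920000 with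
    | true =>
      have := Nat.le_of_ble_eq_true h1
      exact ub2_le _ _ (by omega)
    | false =>
      have : ¬ n ≤ 4920000 := fun h2 => by rw [Nat.ble_eq_true_of_le h2] at h1; cases h1
      exact ub2_gt _ _ (by omega)
  | negSucc n =>
    have e1 : (P - N) / 150 = 0 := by omega
    rw [e1, ub2_le _ _ (by norm_num)]
    exact congrArg Nat.succ (shr0 c 16 100 3984)

theorem lb_eq (c P N : ℕ) (X : ℤ) (h : (P : ℤ) - N = X + 4848150) :
    @Nat.rec (fun _ => ℕ) 0 (fun F _ => lb2 c F) ((P - N) / 150) = lbX c X := by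
  unfold lbX
  have e0 : Int.add X 4848000 = X + 4848000 := rfl
  rw [e0]
  cases hY : X + 4848000 with
  | ofNat n =>
    rw [Int.ofNat_eq_natCast] at hY
    have e1 : (P - N) / 150 = n / 150 + 1 := by omega
    rw [e1]
    exact lb2_eq _ _
  | negSucc n =>
    have e1 : (P - N) / 150 = 0 := by omega
    rw [e1]
    rfl

theorem wf_iff {B : Bx} (h : wf B = true) : B.L1 ≤ B.L2 ∧ (B.fp || Nat.ble B.p1 B.p2) = true ∧
    (B.fq || Nat.ble B.q1 B.q2) = true ∧ (B.fw || Nat.ble B.w1 B.w2) = true := by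
  unfold wf at h
  simp only [Bool.and_eq_true] at h
  exact ⟨Nat.le_of_ble_eq_true h.1.1.1, h.1.1.2, h.1.2, h.2⟩

theorem tmU2_eq (B : Bx) (h : wf B = true) (c P Tp Tq Tw N : ℕ) (m eN cp cq cw : ℤ)
    (hp : Tp = cp.toNat * dd B.fp B.p1 B.p2) (hq : Tq = cq.toNat * dd B.fq B.q1 B.q2)
    (hw : Tw = cw.toNat * dd B.fw B.w1 B.w2)
    (hP : (P : ℤ) - N = m + up eN B.L1 B.L2 + cp * B.p1 + cq * B.q1 + cw * B.w1 + 4848149) :
    tmU2 (wt B.fp) (wt B.fq) (wt B.fw) c P Tp Tq Tw N =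
      @Bool.rec (fun _ => ℕ) (ubX c (sup3 B m eN cp cq cw)) (Nat.pow 2 72) (bad3 B cp cq cw) := by
  obtain ⟨-, h2, h3, h4⟩ := wf_iff h
  have c1 := coord _ _ _ _ (N + 4920150) _ h2 hp
  have c2 := coord _ _ _ _ (N + 4920150) _ h3 hq
  have c3 := coord _ _ _ _ (N + 4920150) _ h4 hw
  show ub2 c ((P + (wt B.fp Tp (N + 4920150) + wt B.fq Tq (N + 4920150) +
    wt B.fw Tw (N + 4920150)) - N) / 150) = _
  cases hb : bad3 B cp cq cw with
  | true =>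
    unfold bad3 at hb
    simp only [Bool.or_eq_true] at hb
    refine ub2_gt _ _ ?_
    rcases hb with (hb | hb) | hb
    · have := c1.1 hb; omega
    · have := c2.1 hb; omega
    · have := c3.1 hb; omega
  | false =>
    unfold bad3 at hb
    simp only [Bool.or_eq_false_iff] at hb
    refine ub2_eq _ _ _ _ ?_
    have e1 := c1.2 hb.1.1
    have e2 := c2.2 hb.1.2
    have e3 := c3.2 hb.2
    show _ = m + up eN B.L1 B.L2 + up cp B.p1 B.p2 + up cq B.q1 B.q2 + up cw B.w1 B.w2 + 4848149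
    push_cast
    linarith

theorem tmL2_eq (B : Bx) (h : wf B = true) (c P Tp Tq Tw N : ℕ) (m eN cp cq cw : ℤ)
    (hp : Tp = cp.toNat * dd B.fp B.p1 B.p2) (hq : Tq = cq.toNat * dd B.fq B.q1 B.q2)
    (hw : Tw = cw.toNat * dd B.fw B.w1 B.w2)
    (hP : (P : ℤ) - N = -(m + up eN B.L1 B.L2 + cp * B.p1 + cq * B.q1 + cw * B.w1) + 4848150) :
    tmL2 (wt B.fp) (wt B.fq) (wt B.fw) c P Tp Tq Tw N =
      @Bool.rec (fun _ => ℕ) (lbX c (Int.neg (sup3 B m eN cp cq cw))) 0 (bad3 B cp cq cw) := by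
  obtain ⟨-, h2, h3, h4⟩ := wf_iff h
  have c1 := coord _ _ _ _ P _ h2 hp
  have c2 := coord _ _ _ _ P _ h3 hq
  have c3 := coord _ _ _ _ P _ h4 hw
  show @Nat.rec (fun _ => ℕ) 0 (fun F _ => lb2 c F)
    ((P - (N + (wt B.fp Tp P + wt B.fq Tq P + wt B.fw Tw P))) / 150) = _
  cases hb : bad3 B cp cq cw with
  | true =>
    unfold bad3 at hb
    simp only [Bool.or_eq_true] at hb
    have e : (P - (N + (wt B.fp Tp P + wt B.fq Tq P + wt B.fw Tw P))) / 150 = 0 := by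
      rcases hb with (hb | hb) | hb
      · have := c1.1 hb; omega
      · have := c2.1 hb; omega
      · have := c3.1 hb; omega
    rw [e]
    rfl
  | false =>
    unfold bad3 at hb
    simp only [Bool.or_eq_false_iff] at hb
    refine lb_eq _ _ _ _ ?_
    have e1 := c1.2 hb.1.1
    have e2 := c2.2 hb.1.2
    have e3 := c3.2 hb.2
    show _ = -(m + up eN B.L1 B.L2 + up cp B.p1 B.p2 + up cq B.q1 B.q2 + up cw B.w1 B.w2) + 4848150
    push_cast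
    linarith

theorem tr1 (A Z S k d : ℕ) (e : ℤ) (h : e = A - Z - k * S) :
    (A - Z) * d - S * (k * d) = e.toNat * d := by
  have : e.toNat = A - Z - S * k := by
    have : ((S * k : ℕ) : ℤ) = k * S := by push_cast; ring
    omega
  rw [this, Nat.sub_mul (A - Z), mul_assoc]

theorem tr2 (A Z S k d : ℕ) (e : ℤ) (h : e = k * S + Z - A) :
    S * (k * d) + Z * d - A * d = e.toNat * d := by
  have : e.toNat = S * k + Z - A := by
    have : ((S * k : ℕ) : ℤ) = k * S := by push_cast; ring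
    omega
  rw [this, Nat.sub_mul, Nat.add_mul, mul_assoc]

theorem up_hi (e : ℤ) (lo hi : ℕ) (h : lo ≤ hi) :
    up e lo hi = e * hi + (((-e).toNat * (hi - lo) : ℕ) : ℤ) := by
  rw [up_eq]
  have : (e.toNat : ℤ) = e + (-e).toNat := by omega
  push_cast [h]
  rw [this]; ring

theorem up_lo (e : ℤ) (lo hi : ℕ) (h : lo ≤ hi) :
    up e lo hi = e * lo + ((e.toNat * (hi - lo) : ℕ) : ℤ) := by
  rw [up_eq]
  push_cast [h]
  ring

theorem termU (B : Bx) (h : wf B = true) (c i j k m n : ℕ) (s : Tm) (f : Lf)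
    (Xm XN Xa Xb Xc Ym YN Ya Yb Yc : ℕ)
    (h0 : f.m = n * ((Xm : ℤ) - Ym) - 2400 * ((m : ℤ) - s.m))
    (h1 : f.eN = n * ((XN : ℤ) - YN) + 12 * ((m : ℤ) - s.m))
    (h2 : f.ea = n * ((Xa : ℤ) - Ya) + 6 * ((s.i : ℤ) - i))
    (h3 : f.eb = n * ((Xb : ℤ) - Yb) + 6 * ((s.j : ℤ) - j))
    (h4 : f.ec = n * ((Xc : ℤ) - Yc) + 6 * ((s.k : ℤ) - k)) :
    @Pre.rec (fun _ => ℕ) (tmU (wt B.fp) (wt B.fq) (wt B.fw) (6 * B.p1) (6 * B.p1 + 6 * B.q1)
      (6 * B.p1 + 6 * B.q1 + 6 * B.w1) (12 * B.L2) (12 * (B.L2 - B.L1)) (6 * dd B.fp B.p1 B.p2)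
      (6 * dd B.fq B.q1 B.q2) (6 * dd B.fw B.w1 B.w2) c i j k m)
      (preU2 B n (hf B Xm XN Xa Xb Xc) (hf B Ym YN Ya Yb Yc) (hfS B s)) = ubT B c f := by
  refine tmU2_eq B h _ _ _ _ _ _ f.m f.eN (f.ea + (f.eb + f.ec)) (f.eb + f.ec) f.ec
    (tr1 _ _ _ 6 _ _ ?_) (tr1 _ _ _ 6 _ _ ?_) (tr1 _ _ _ 6 _ _ ?_) ?_
  · simp only [hf, hfS, frc_eq, Nat.add_eq, Nat.mul_eq]
    push_cast; rw [h2, h3, h4]; ring
  · simp only [hf, hfS, frc_eq, Nat.add_eq, Nat.mul_eq]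
    push_cast; rw [h3, h4]; ring
  · simp only [hf, hfS, frc_eq, Nat.add_eq, Nat.mul_eq]
    push_cast; rw [h4]; ring
  · rw [up_hi _ _ _ (wf_iff h).1,
      ← tr1 (12 * s.m + n * YN) (n * XN) m 12 (B.L2 - B.L1) (-f.eN) (by push_cast; rw [h1]; ring)]
    simp only [hf, hfS, frc_eq, Nat.add_eq, Nat.mul_eq, Nat.sub_eq]
    generalize (12 * s.m + n * YN - n * XN) * (B.L2 - B.L1) - m * (12 * (B.L2 - B.L1)) = T
    push_cast; rw [h0, h1, h2, h3, h4]; ring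

theorem termL (B : Bx) (h : wf B = true) (c i j k m n : ℕ) (s : Tm) (f : Lf)
    (Xm XN Xa Xb Xc Ym YN Ya Yb Yc : ℕ)
    (h0 : f.m = n * ((Xm : ℤ) - Ym) - 2400 * ((m : ℤ) - s.m))
    (h1 : f.eN = n * ((XN : ℤ) - YN) + 12 * ((m : ℤ) - s.m))
    (h2 : f.ea = n * ((Xa : ℤ) - Ya) + 6 * ((s.i : ℤ) - i))
    (h3 : f.eb = n * ((Xb : ℤ) - Yb) + 6 * ((s.j : ℤ) - j))
    (h4 : f.ec = n * ((Xc : ℤ) - Yc) + 6 * ((s.k : ℤ) - k)) :
    @PreL.rec (fun _ => ℕ) (tmL (wt B.fp) (wt B.fq) (wt B.fw) (6 * B.p1) (6 * B.p1 + 6 * B.q1)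
      (6 * B.p1 + 6 * B.q1 + 6 * B.w1) (12 * B.L1) (12 * (B.L2 - B.L1)) (6 * dd B.fp B.p1 B.p2)
      (6 * dd B.fq B.q1 B.q2) (6 * dd B.fw B.w1 B.w2) c i j k m)
      (preL2 B n (hf B Xm XN Xa Xb Xc) (hf B Ym YN Ya Yb Yc) (hfS B s)) = lbT B c f := by
  refine tmL2_eq B h _ _ _ _ _ _ (-f.m) (-f.eN) (-f.ea + (-f.eb + -f.ec)) (-f.eb + -f.ec) (-f.ec)
    (tr2 _ _ _ 6 _ _ ?_) (tr2 _ _ _ 6 _ _ ?_) (tr2 _ _ _ 6 _ _ ?_) ?_
  · simp only [hf, hfS, frc_eq, Nat.add_eq, Nat.mul_eq]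
    push_cast; rw [h2, h3, h4]; ring
  · simp only [hf, hfS, frc_eq, Nat.add_eq, Nat.mul_eq]
    push_cast; rw [h3, h4]; ring
  · simp only [hf, hfS, frc_eq, Nat.add_eq, Nat.mul_eq]
    push_cast; rw [h4]; ring
  · rw [up_lo _ _ _ (wf_iff h).1,
      ← tr1 (12 * s.m + n * YN) (n * XN) m 12 (B.L2 - B.L1) (-f.eN) (by push_cast; rw [h1]; ring)]
    simp only [hf, hfS, frc_eq, Nat.add_eq, Nat.mul_eq, Nat.sub_eq]
    generalize (12 * s.m + n * YN - n * XN) * (B.L2 - B.L1) - m * (12 * (B.L2 - B.L1)) = T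
    push_cast; rw [h0, h1, h2, h3, h4]; ring

/-- the coefficients of `fq2` -/
theorem fq2_co (g : Lf) (u : ℤ) (s t : Tm) (f : Lf)
    (hf : f = fq2 g u (Int.mul 12 (Int.subNatNat t.m s.m)) (Int.mul 6 (Int.subNatNat s.i t.i))
      (Int.mul 6 (Int.subNatNat s.j t.j)) (Int.mul 6 (Int.subNatNat s.k t.k))) :
    f.m = u * g.m - 2400 * ((t.m : ℤ) - s.m) ∧ f.eN = u * g.eN + 12 * ((t.m : ℤ) - s.m) ∧
    f.ea = u * g.ea + 6 * ((s.i : ℤ) - t.i) ∧ f.eb = u * g.eb + 6 * ((s.j : ℤ) - t.j) ∧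
    f.ec = u * g.ec + 6 * ((s.k : ℤ) - t.k) := by
  subst hf
  simp only [fq2, Int.subNatNat_eq_coe, Int.add_def, Int.mul_def]
  refine ⟨?_, ?_, ?_, ?_, ?_⟩
  · show u * g.m - 200 * (12 * ((t.m : ℤ) - s.m)) = _
    ring
  all_goals ring

theorem sgn1 (a b : ℕ) (e : ℤ) (h : b ≤ a) :
    Int.subNatNat a b * e = ((a - b : ℕ) : ℤ) * ((posN e : ℤ) - negN e) := by
  rw [pn, Int.subNatNat_eq_coe]; push_cast [h]; ring

theorem sgn2 (a b : ℕ) (e : ℤ) (h : a ≤ b) :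
    Int.subNatNat a b * e = ((b - a : ℕ) : ℤ) * ((negN e : ℤ) - posN e) := by
  have := pn e
  have e1 : (negN e : ℤ) - posN e = -e := by omega
  rw [e1, Int.subNatNat_eq_coe]; push_cast [h]; ring

end Fast

open Fast

theorem sumU2_eq : sumU2 = sumU := by
  funext B lo hi s L
  unfold sumU2
  cases h : wf B with
  | false => rfl
  | true =>
    show cst B B.L2 (loopU (preU B lo hi s) L) = _
    simp only [cst, frc_eq, selW_eq]
    induction L with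
    | nil => rfl
    | cons t L ih =>
      refine congrArg₂ Nat.add ?_ ih
      obtain ⟨c, key, i, j, k, l, m⟩ := t
      show @Pre.rec (fun _ => ℕ) _ (preU B lo hi s l) = _
      unfold preU fq
      cases h1 : Nat.ble s.l l with
      | true =>
        have h2 := Nat.le_of_ble_eq_true h1
        obtain ⟨e0, e1, e2, e3, e4⟩ :=
          fq2_co lo (Int.subNatNat s.l l) s ⟨c, key, i, j, k, l, m⟩ _ rfl
        exact termU B h _ i j k m _ s _ _ _ _ _ _ _ _ _ _ _ (by rw [e0, sgn2 _ _ _ h2]; rfl)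
          (by rw [e1, sgn2 _ _ _ h2]; rfl) (by rw [e2, sgn2 _ _ _ h2]; rfl) (by rw [e3, sgn2 _ _ _ h2]; rfl)
          (by rw [e4, sgn2 _ _ _ h2]; rfl)
      | false =>
        have h2 : l ≤ s.l := by
          by_contra h3
          rw [Nat.ble_eq_true_of_le (by omega)] at h1; cases h1
        obtain ⟨e0, e1, e2, e3, e4⟩ :=
          fq2_co hi (Int.subNatNat s.l l) s ⟨c, key, i, j, k, l, m⟩ _ rfl
        exact termU B h _ i j k m _ s _ _ _ _ _ _ _ _ _ _ _ (by rw [e0, sgn1 _ _ _ h2]; rfl)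
          (by rw [e1, sgn1 _ _ _ h2]; rfl) (by rw [e2, sgn1 _ _ _ h2]; rfl) (by rw [e3, sgn1 _ _ _ h2]; rfl)
          (by rw [e4, sgn1 _ _ _ h2]; rfl)

theorem sumL2_eq : sumL2 = sumL := by
  funext B lo hi s L
  unfold sumL2
  cases h : wf B with
  | false => rfl
  | true =>
    show cst B B.L1 (loopL (preL B lo hi s) L) = _
    simp only [cst, frc_eq, selW_eq]
    induction L with
    | nil => rfl
    | cons t L ih =>
      refine congrArg₂ Nat.add ?_ ih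
      obtain ⟨c, key, i, j, k, l, m⟩ := t
      show @PreL.rec (fun _ => ℕ) _ (preL B lo hi s l) = _
      unfold preL fq
      cases h1 : Nat.ble s.l l with
      | true =>
        have h2 := Nat.le_of_ble_eq_true h1
        obtain ⟨e0, e1, e2, e3, e4⟩ :=
          fq2_co hi (Int.subNatNat s.l l) s ⟨c, key, i, j, k, l, m⟩ _ rfl
        exact termL B h _ i j k m _ s _ _ _ _ _ _ _ _ _ _ _ (by rw [e0, sgn2 _ _ _ h2]; rfl)
          (by rw [e1, sgn2 _ _ _ h2]; rfl) (by rw [e2, sgn2 _ _ _ h2]; rfl) (by rw [e3, sgn2 _ _ _ h2]; rfl)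
          (by rw [e4, sgn2 _ _ _ h2]; rfl)
      | false =>
        have h2 : l ≤ s.l := by
          by_contra h3
          rw [Nat.ble_eq_true_of_le (by omega)] at h1; cases h1
        obtain ⟨e0, e1, e2, e3, e4⟩ :=
          fq2_co lo (Int.subNatNat s.l l) s ⟨c, key, i, j, k, l, m⟩ _ rfl
        exact termL B h _ i j k m _ s _ _ _ _ _ _ _ _ _ _ _ (by rw [e0, sgn1 _ _ _ h2]; rfl)
          (by rw [e1, sgn1 _ _ _ h2]; rfl) (by rw [e2, sgn1 _ _ _ h2]; rfl) (by rw [e3, sgn1 _ _ _ h2]; rfl)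
          (by rw [e4, sgn1 _ _ _ h2]; rfl)

end Pool.Agent.MP_2339ce_nt.Q2.TB
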