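import Pool.Agent.MP_2339ce_nt.Q2.TCSpec
import Pool.Agent.MP_2339ce_nt.Q2.TCFastA

/-! Project Q2: the tests `le0`, `lt0` of `afL` computed with natural numbers only. -/

set_option autoImplicit false

noncomputable section

namespace Pool.Agent.MP_2339ce_nt.Q2.TB

/-- a linear form with the bias `b` added to its coefficients -/
structure Bi where
  mp : ℕ
  mn : ℕ
  N : ℕ
  p : ℕ
  q : ℕ
  w : ℕ
  b : ℕ

def bi2 (a0 a1 a2 a3 a4 b0 b1 b2 b3 b4 : ℕ) : Bi :=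
  frc a0 fun mp => frc b0 fun mn => frc (Nat.add a1 (Nat.add b2 (Nat.add b3 b4))) fun N =>
  frc (Nat.add (Nat.add a2 (Nat.add a3 a4)) b1) fun p =>
  frc (Nat.add (Nat.add a3 a4) (Nat.add b1 b2)) fun q =>
  frc (Nat.add a4 (Nat.add (Nat.add b1 b2) b3)) fun w =>
  frc (Nat.add b1 (Nat.add b2 (Nat.add b3 b4))) fun b => ⟨mp, mn, N, p, q, w, b⟩

def biP (g : Lf) : Bi :=
  bi2 (posN g.m) (posN g.eN) (posN g.ea) (posN g.eb) (posN g.ec)
    (negN g.m) (negN g.eN) (negN g.ea) (negN g.eb) (negN g.ec)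

def biN (g : Lf) : Bi :=
  bi2 (negN g.m) (negN g.eN) (negN g.ea) (negN g.eb) (negN g.ec)
    (posN g.m) (posN g.eN) (posN g.ea) (posN g.eb) (posN g.ec)

structure Xi where
  kp : ℕ
  kn : ℕ
  e1 : ℕ
  e2 : ℕ
  e3 : ℕ
  mp : ℕ
  mn : ℕ
  N : ℕ
  p : ℕ
  q : ℕ
  w : ℕ
  b : ℕ

def xi (x : Af) : Xi :=
  frc (posN x.k) fun kp => frc (negN x.k) fun kn => frc (posN x.e1) fun e1 =>
  frc (posN x.e2) fun e2 => frc (posN x.e3) fun e3 =>
  @Bi.rec (fun _ => Xi) (fun mp mn N p q w b => frc (Nat.mul 6 mp) fun mp => frc (Nat.mul 6 mn)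
    fun mn => frc (Nat.mul 6 N) fun N => frc (Nat.mul 6 p) fun p => frc (Nat.mul 6 q) fun q =>
    frc (Nat.mul 6 w) fun w => frc (Nat.mul 6 b) fun b => ⟨kp, kn, e1, e2, e3, mp, mn, N, p, q, w, b⟩)
    (biP ⟨x.m, x.eN, x.ea, x.eb, x.ec⟩)

def selB (f : Bool) (k : (ℕ → ℕ → ℕ) → Bool) : Bool :=
  @Bool.rec (fun _ => Bool) (k fun T _ => T) (k Nat.mul) f

def core2 (wp wq ww : ℕ → ℕ → ℕ) (P Tp Tq Tw M : ℕ) : Bool :=
  Nat.ble (Nat.add P (Nat.add (Nat.add (wp Tp (Nat.succ M)) (wq Tq (Nat.succ M)))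
    (ww Tw (Nat.succ M)))) M

def core (wp wq ww : ℕ → ℕ → ℕ) (L1 p1 q1 w1 S dL dp dq dw δ : ℕ) (mp mn N p q w b : ℕ) : Bool :=
  core2 wp wq ww (Nat.add (Nat.add (Nat.add (Nat.add mp δ) (Nat.mul N L1))
      (Nat.add (Nat.mul p p1) (Nat.add (Nat.mul q q1) (Nat.mul w w1)))) (Nat.mul (Nat.sub N b) dL))
    (Nat.mul (Nat.sub p b) dp) (Nat.mul (Nat.sub q b) dq) (Nat.mul (Nat.sub w b) dw)
    (Nat.add mn (Nat.mul b S))

/-- the test of a form on a box, with the constants of the box evaluated once -/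
def cstA (B : Bx) (δ : ℕ) (k : (ℕ → ℕ → ℕ → ℕ → ℕ → ℕ → ℕ → Bool) → Bool) : Bool :=
  frc B.L1 fun L1 => frc B.p1 fun p1 => frc B.q1 fun q1 => frc B.w1 fun w1 =>
  frc (Nat.add (Nat.add L1 p1) (Nat.add q1 w1)) fun S => frc (Nat.sub B.L2 L1) fun dL =>
  frc (dd B.fp p1 B.p2) fun dp => frc (dd B.fq q1 B.q2) fun dq => frc (dd B.fw w1 B.w2) fun dw =>
  frc δ fun δ => selB B.fp fun wp => selB B.fq fun wq => selB B.fw fun ww =>
  k (core wp wq ww L1 p1 q1 w1 S dL dp dq dw δ)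

def mix (K : ℕ → ℕ → ℕ → ℕ → ℕ → ℕ → ℕ → Bool)
    (a0 a1 a2 a3 a4 a5 a6 b0 b1 b2 b3 b4 b5 b6 c0 c1 c2 c3 c4 c5 c6 : ℕ)
    (e1 e2 e3 x0 x1 x2 x3 x4 x5 x6 n d0 d1 d2 d3 d4 d5 d6 : ℕ) : Bool :=
  K (Nat.add (Nat.add (Nat.add x0 (Nat.mul n d0)) (Nat.mul e1 a0))
      (Nat.add (Nat.mul e2 b0) (Nat.mul e3 c0)))
    (Nat.add (Nat.add (Nat.add x1 (Nat.mul n d1)) (Nat.mul e1 a1))
      (Nat.add (Nat.mul e2 b1) (Nat.mul e3 c1)))
    (Nat.add (Nat.add (Nat.add x2 (Nat.mul n d2)) (Nat.mul e1 a2))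
      (Nat.add (Nat.mul e2 b2) (Nat.mul e3 c2)))
    (Nat.add (Nat.add (Nat.add x3 (Nat.mul n d3)) (Nat.mul e1 a3))
      (Nat.add (Nat.mul e2 b3) (Nat.mul e3 c3)))
    (Nat.add (Nat.add (Nat.add x4 (Nat.mul n d4)) (Nat.mul e1 a4))
      (Nat.add (Nat.mul e2 b4) (Nat.mul e3 c4)))
    (Nat.add (Nat.add (Nat.add x5 (Nat.mul n d5)) (Nat.mul e1 a5))
      (Nat.add (Nat.mul e2 b5) (Nat.mul e3 c5)))
    (Nat.add (Nat.add (Nat.add x6 (Nat.mul n d6)) (Nat.mul e1 a6))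
      (Nat.add (Nat.mul e2 b6) (Nat.mul e3 c6)))

def tstX (M : ℕ → ℕ → ℕ → ℕ → ℕ → ℕ → ℕ → ℕ → ℕ → ℕ → ℕ → ℕ → ℕ → ℕ → ℕ → ℕ → ℕ → ℕ → Bool)
    (ok : Bool) (lo hi : Bi) (x : Af) : Bool :=
  @Xi.rec (fun _ => Bool) (fun kp kn e1 e2 e3 x0 x1 x2 x3 x4 x5 x6 =>
    @Bool.rec (fun _ => Bool) (@Bi.rec (fun _ => Bool) (M e1 e2 e3 x0 x1 x2 x3 x4 x5 x6 kn) lo)
      (@Bool.rec (fun _ => Bool) false
        (@Bi.rec (fun _ => Bool) (M e1 e2 e3 x0 x1 x2 x3 x4 x5 x6 kp) hi) ok) (Nat.ble 1 kp)) (xi x)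

/-- the slow test -/
def tstS (δ : ℕ) (ok : Bool) (B : Bx) (U : Us) (lo hi : Lf) (x : Af) : Bool :=
  (ok || !isP x.k) && (!bad B (afL U x (@Bool.rec (fun _ => Lf) lo hi (isP x.k))) &&
    !isP (Int.add (sup B (afL U x (@Bool.rec (fun _ => Lf) lo hi (isP x.k)))) (Int.ofNat δ)))

/-- pass the test on to `k` -/
def tstA (δ : ℕ) (ok : Bool) (B : Bx) (U : Us) (lo hi : Lf) (k : (Af → Bool) → Bool) : Bool :=
  @Bool.rec (fun _ => Bool) (k (tstS δ ok B U lo hi))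
    (cstA B δ fun K => @Bi.rec (fun _ => Bool) (fun a0 a1 a2 a3 a4 a5 a6 =>
      @Bi.rec (fun _ => Bool) (fun b0 b1 b2 b3 b4 b5 b6 =>
      @Bi.rec (fun _ => Bool) (fun c0 c1 c2 c3 c4 c5 c6 =>
        k (tstX (mix K a0 a1 a2 a3 a4 a5 a6 b0 b1 b2 b3 b4 b5 b6 c0 c1 c2 c3 c4 c5 c6) ok
          (biN lo) (biP hi))) (biP U.U3)) (biP U.U2)) (biP U.U1)) (wf B)

def allA {α : Type} (t : α → Bool) (L : List α) : Bool :=
  @List.rec α (fun _ => Bool) true (fun x _ r => @Bool.rec (fun _ => Bool) false r (t x)) L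

def crossA (t : Af → Bool) (hs ls : List Af) : Bool :=
  allA (fun h => allA (fun l => t (Af.sub l h)) ls) hs

def goA (t : Af → Bool) (pr i : ℕ) (ws : List Wn) : List Af → Bool :=
  @List.rec Wn (fun _ => List Af → Bool) (fun hs => allA t (go pr i [] hs))
    (fun w _ ih hs => @Bool.rec (fun _ => Bool) false (ih w.hi) (crossA t hs w.lo)) ws

def hwOK2 (reg : Bool) (i : ℕ) (B : Bx) (U : Us) (lo hi : Lf) : Bool :=
  (reg || Nat.ble i 4) && tstA 0 true B U lo hi fun t => allA t (hw i)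

def hpF (ws : List Wn) (pr i : ℕ) (B : Bx) (U : Us) (D : Lf) : Bool :=
  (tstA 0 false B U D D fun t => allA (fun w => allA (fun s => t (Af.neg s)) w.sd) ws) &&
    tstA 1 false B U D D fun t =>
      @Bool.rec (fun _ => Bool) false (goA t pr i ws [g5]) (allA t start)

def hpOKF (wt : List Wn) (ix : List ℕ) (pr i : ℕ) (B : Bx) (U : Us) (D : Lf) : Bool :=
  (ix.all fun j => Nat.blt j wt.length) && hpF (ix.map fun j => wt.getD j wn0) pr i B U D

namespace Fast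

theorem selB_eq (f : Bool) (k : (ℕ → ℕ → ℕ) → Bool) : selB f k = k (wt f) := by cases f <;> rfl

/-- the record `X` stands for the form `f` -/
def Rep (X : Bi) (f : Lf) : Prop :=
  (X.mp : ℤ) - X.mn = f.m ∧ (X.N : ℤ) - X.b = f.eN ∧ (X.p : ℤ) - X.b = f.ea + (f.eb + f.ec) ∧
    (X.q : ℤ) - X.b = f.eb + f.ec ∧ (X.w : ℤ) - X.b = f.ec

theorem repP (g : Lf) : Rep (biP g) g := by
  have h0 := pn g.m
  have h1 := pn g.eN
  have h2 := pn g.ea
  have h3 := pn g.eb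
  have h4 := pn g.ec
  simp only [Rep, biP, bi2, frc_eq, Nat.add_eq]
  omega

theorem repN (g : Lf) : Rep (biN g) g.neg := by
  have h0 := pn g.m
  have h1 := pn g.eN
  have h2 := pn g.ea
  have h3 := pn g.eb
  have h4 := pn g.ec
  show Rep _ ⟨-g.m, -g.eN, -g.ea, -g.eb, -g.ec⟩
  simp only [Rep, biN, bi2, frc_eq, Nat.add_eq]
  omega

theorem notP (e : ℤ) (a b : ℕ) (h : (a : ℤ) - b = e) : Nat.ble a b = !isP e := by
  cases h1 : isP e with
  | true =>
    have := (isP_iff e).1 h1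
    cases h2 : Nat.ble a b with
    | false => rfl
    | true => have := Nat.le_of_ble_eq_true h2; omega
  | false =>
    have : ¬ 0 < e := fun h2 => by rw [(isP_iff e).2 h2] at h1; cases h1
    exact Nat.ble_eq_true_of_le (by omega)

theorem core_eq (B : Bx) (h : wf B = true) (δ : ℕ) (X : Bi) (f : Lf) (r : Rep X f) :
    core (wt B.fp) (wt B.fq) (wt B.fw) B.L1 B.p1 B.q1 B.w1 (B.L1 + B.p1 + (B.q1 + B.w1))
      (B.L2 - B.L1) (dd B.fp B.p1 B.p2) (dd B.fq B.q1 B.q2) (dd B.fw B.w1 B.w2) δ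
      X.mp X.mn X.N X.p X.q X.w X.b =
      (!bad B f && !isP (Int.add (sup B f) (Int.ofNat δ))) := by
  obtain ⟨h1, h2, h3, h4⟩ := wf_iff h
  obtain ⟨r0, r1, r2, r3, r4⟩ := r
  have t1 : X.N - X.b = f.eN.toNat := by omega
  have t2 : X.p - X.b = (f.ea + (f.eb + f.ec)).toNat := by omega
  have t3 : X.q - X.b = (f.eb + f.ec).toNat := by omega
  have t4 : X.w - X.b = f.ec.toNat := by omega
  simp only [core, core2, Nat.add_eq, Nat.mul_eq, Nat.sub_eq, Nat.succ_eq_add_one, t1, t2, t3, t4]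
  generalize hM : X.mn + X.b * (B.L1 + B.p1 + (B.q1 + B.w1)) = M
  have c1 := coord _ _ _ _ (M + 1) (f.ea + (f.eb + f.ec)) h2 rfl
  have c2 := coord _ _ _ _ (M + 1) (f.eb + f.ec) h3 rfl
  have c3 := coord _ _ _ _ (M + 1) f.ec h4 rfl
  have eb : bad B f = bad3 B (f.ea + (f.eb + f.ec)) (f.eb + f.ec) f.ec := rfl
  rw [eb]
  cases hb : bad3 B (f.ea + (f.eb + f.ec)) (f.eb + f.ec) f.ec with
  | true =>
    unfold bad3 at hb
    simp only [Bool.or_eq_true] at hb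
    rw [Bool.not_true, Bool.false_and, ← Bool.not_eq_true, Nat.ble_eq]
    rcases hb with (hb | hb) | hb
    · have := c1.1 hb; omega
    · have := c2.1 hb; omega
    · have := c3.1 hb; omega
  | false =>
    unfold bad3 at hb
    simp only [Bool.or_eq_false_iff] at hb
    rw [Bool.not_false, Bool.true_and]
    refine notP _ _ _ ?_
    have e1 := c1.2 hb.1.1
    have e2 := c2.2 hb.1.2
    have e3 := c3.2 hb.2
    have e0 := up_lo f.eN _ _ h1
    show _ = f.m + up f.eN B.L1 B.L2 + up (f.ea + (f.eb + f.ec)) B.p1 B.p2 +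
      up (f.eb + f.ec) B.q1 B.q2 + up f.ec B.w1 B.w2 + (δ : ℤ)
    generalize f.eN.toNat * (B.L2 - B.L1) = T at e0 ⊢
    have eM : (M : ℤ) = X.mn + X.b * (B.L1 + B.p1 + (B.q1 + B.w1)) := by
      rw [← hM]; push_cast; ring
    push_cast
    rw [e1, e2, e3, e0, eM, ← r0, ← r1, ← r4]
    rw [← r4] at r2 r3
    rw [← r2, ← r3]
    ring

theorem pp_eq (e : ℤ) : pp e = posN e := by cases e <;> rfl

theorem ble_pos (e : ℤ) : Nat.ble 1 (posN e) = isP e := by cases e <;> rfl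

theorem rep_mix (U : Us) (x : Af) (D D' : Lf) (n : ℕ) (Y : Bi) (r : Rep Y D')
    (h0 : x.k * D.m = n * D'.m) (h1 : x.k * D.eN = n * D'.eN) (h2 : x.k * D.ea = n * D'.ea)
    (h3 : x.k * D.eb = n * D'.eb) (h4 : x.k * D.ec = n * D'.ec) (X A B C : Bi)
    (rx : Rep X ⟨x.m, x.eN, x.ea, x.eb, x.ec⟩) (ra : Rep A U.U1) (rb : Rep B U.U2)
    (rc : Rep C U.U3) :
    Rep ⟨6 * X.mp + n * Y.mp + posN x.e1 * A.mp + (posN x.e2 * B.mp + posN x.e3 * C.mp),
      6 * X.mn + n * Y.mn + posN x.e1 * A.mn + (posN x.e2 * B.mn + posN x.e3 * C.mn),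
      6 * X.N + n * Y.N + posN x.e1 * A.N + (posN x.e2 * B.N + posN x.e3 * C.N),
      6 * X.p + n * Y.p + posN x.e1 * A.p + (posN x.e2 * B.p + posN x.e3 * C.p),
      6 * X.q + n * Y.q + posN x.e1 * A.q + (posN x.e2 * B.q + posN x.e3 * C.q),
      6 * X.w + n * Y.w + posN x.e1 * A.w + (posN x.e2 * B.w + posN x.e3 * C.w),
      6 * X.b + n * Y.b + posN x.e1 * A.b + (posN x.e2 * B.b + posN x.e3 * C.b)⟩ (afL U x D) := by
  obtain ⟨y0, y1, y2, y3, y4⟩ := r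
  obtain ⟨x0, x1, x2, x3, x4⟩ := rx
  obtain ⟨a0, a1, a2, a3, a4⟩ := ra
  obtain ⟨b0, b1, b2, b3, b4⟩ := rb
  obtain ⟨c0, c1, c2, c3, c4⟩ := rc
  simp only [Rep, afL, Lf.add, Lf.smul, Int.add_def, Int.mul_def, pp_eq] at *
  push_cast
  refine ⟨?_, ?_, ?_, ?_, ?_⟩
  · linear_combination 6 * x0 + n * y0 + posN x.e1 * a0 + posN x.e2 * b0 + posN x.e3 * c0 - h0
  · linear_combination 6 * x1 + n * y1 + posN x.e1 * a1 + posN x.e2 * b1 + posN x.e3 * c1 - h1
  · linear_combination 6 * x2 + n * y2 + posN x.e1 * a2 + posN x.e2 * b2 + posN x.e3 * c2 - h2 -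
      h3 - h4
  · linear_combination 6 * x3 + n * y3 + posN x.e1 * a3 + posN x.e2 * b3 + posN x.e3 * c3 - h3 - h4
  · linear_combination 6 * x4 + n * y4 + posN x.e1 * a4 + posN x.e2 * b4 + posN x.e3 * c4 - h4

theorem kpos {e : ℤ} (h : isP e = true) (z : ℤ) : e * z = posN e * z := by
  cases e with
  | ofNat n => rfl
  | negSucc n => cases h

theorem kneg {e : ℤ} (h : isP e = false) (z : ℤ) : e * z = negN e * Int.neg z := by
  have h1 := pn e
  have h2 : posN e = 0 := by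
    rw [← ble_pos] at h
    by_contra h3
    rw [Nat.ble_eq_true_of_le (by omega)] at h; cases h
  show _ = (negN e : ℤ) * -z
  rw [h2] at h1
  linear_combination (-z) * h1

theorem tstA_eq (δ : ℕ) (ok : Bool) (B : Bx) (U : Us) (lo hi : Lf) (k : (Af → Bool) → Bool) :
    tstA δ ok B U lo hi k = k (tstS δ ok B U lo hi) := by
  unfold tstA
  cases h : wf B with
  | false => rfl
  | true =>
    show cstA B δ _ = _
    simp only [cstA, frc_eq, selB_eq]
    refine congrArg k (funext fun x => ?_)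
    unfold tstS
    show @Bool.rec (fun _ => Bool) _ _ (Nat.ble 1 (posN x.k)) = _
    rw [ble_pos]
    cases hk : isP x.k with
    | true =>
      cases ok with
      | false => rfl
      | true =>
        exact core_eq B h δ _ _ (rep_mix U x hi hi _ _ (repP hi) (kpos hk _) (kpos hk _)
          (kpos hk _) (kpos hk _) (kpos hk _) _ _ _ _ (repP _) (repP _) (repP _) (repP _))
    | false =>
      rw [Bool.not_false, Bool.or_true, Bool.true_and]
      exact core_eq B h δ _ _ (rep_mix U x lo lo.neg _ _ (repN lo) (kneg hk _) (kneg hk _)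
        (kneg hk _) (kneg hk _) (kneg hk _) _ _ _ _ (repP _) (repP _) (repP _) (repP _))

theorem rec_and (a b : Bool) : @Bool.rec (fun _ => Bool) false b a = (a && b) := by cases a <;> rfl

theorem allA_eq {α : Type} (t : α → Bool) (L : List α) : allA t L = L.all t := by
  induction L with
  | nil => rfl
  | cons x L ih => rw [List.all_cons, ← ih, ← rec_and]; rfl

theorem crossA_eq (t : Af → Bool) (hs ls : List Af) : crossA t hs ls = (cross hs ls).all t := by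
  simp only [crossA, cross, allA_eq, List.all_flatMap, List.all_map, Function.comp_def]

theorem goA_eq (t : Af → Bool) (pr i : ℕ) (ws : List Wn) (hs : List Af) :
    goA t pr i ws hs = (go pr i ws hs).all t := by
  induction ws generalizing hs with
  | nil => exact allA_eq t (go pr i [] hs)
  | cons w ws ih => rw [go, List.all_append, ← crossA_eq, ← ih, ← rec_and]; rfl

theorem tst0 (B : Bx) (U : Us) (lo hi : Lf) (ok : Bool) (x : Af) : tstS 0 ok B U lo hi x =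
    ((ok || !isP x.k) && le0 B (afL U x (@Bool.rec (fun _ => Lf) lo hi (isP x.k)))) := by
  unfold tstS le0
  rw [Int.add_def]
  simp

theorem same_rec (D : Lf) (b : Bool) : @Bool.rec (fun _ => Lf) D D b = D := by cases b <;> rfl

end Fast

open Fast

theorem hwOK2_eq : hwOK2 = hwOK := by
  funext reg i B U lo hi
  simp only [hwOK2, hwOK, tstA_eq, allA_eq]
  congr 2
  funext x
  rw [tst0]
  rfl

theorem hpF_eq : hpF = hpOK2 := by
  funext ws pr i B U D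
  simp only [hpF, hpOK2, tstA_eq, allA_eq, goA_eq, rec_and, sidesW, linksW, List.all_flatMap]
  rw [← List.all_append]
  congr 1
  · congr 1
    funext w
    congr 1
    funext s
    rw [tst0, same_rec]
    rfl
  · congr 1
    funext M
    unfold tstS
    rw [same_rec]
    rfl

theorem hpOKF_eq : hpOKF = hpOK := by
  funext wt ix pr i B U D
  rw [hpOKF, hpF_eq]
  rfl

end Pool.Agent.MP_2339ce_nt.Q2.TB
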