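import Pool.Agent.MP_2339ce_nt.Q2.TCSpec

/-! Project Q2, block TC: the cover tree. -/

set_option autoImplicit false

namespace Pool.Agent.MP_2339ce_nt.Q2.TB

namespace Tree

theorem lgm {x y : ℝ} (h : 0 < x) (k : x ≤ y) : lg x ≤ lg y :=
  Real.logb_le_logb_of_le one_lt_two h k

theorem split {B : Bx} {N a b c : ℤ} (h : B.Mem N a b c) (ax t : ℕ) :
    (B.lft ax t).Mem N a b c ∨ (B.rgt ax t).Mem N a b c := by
  rcases ax with _ | _ | _ | ax
  · exact (le_total _ _).imp (fun k => { h with L2 := k }) fun k => { h with L1 := k }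
  · exact (le_total _ _).imp (fun k => { h with p2 := fun _ => k }) fun k => { h with p1 := k }
  · exact (le_total _ _).imp (fun k => { h with q2 := fun _ => k }) fun k => { h with q1 := k }
  · exact (le_total _ _).imp (fun k => { h with w2 := fun _ => k }) fun k => { h with w1 := k }

theorem sub (T : Tr) : ∀ acc, acc ⊆ rects T acc := by
  induction T with
  | nd _ _ _ _ il ir => exact fun acc => List.Subset.trans (ir acc) (il _)
  | fn => exact fun acc => List.subset_cons_self _ _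
  | _ => exact fun acc => List.Subset.refl _

theorem mono {reg : Bool} {B : Bx} {r r' : List Rc} (h : Sem reg B r) (k : r ⊆ r') :
    Sem reg B r' := fun q e h1 h2 h3 h4 => let ⟨ρ, j1, j2⟩ := h q e h1 h2 h3 h4; ⟨ρ, k j1, j2⟩

theorem nd {reg : Bool} {B : Bx} {ax t : ℕ} {r : List Rc} (h : Sem reg (B.lft ax t) r)
    (h' : Sem reg (B.rgt ax t) r) : Sem reg B r :=
  fun q e h1 h2 h3 h4 => (split h4 ax t).elim (h q e h1 h2 h3) (h' q e h1 h2 h3)

end Tree

open Tree

theorem nd_ok : S_ND := fun _ _ _ _ _ _ h h' =>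
  nd (mono h (List.subset_append_left _ _)) (mono h' (List.subset_append_right _ _))

theorem tree_ok (h1 : S_CHAIN) (h2 : S_HPC) (h3 : S_DF) (h4 : S_RC) (h5 : S_GP) : S_TREE := by
  intro reg cfs wt T B acc hc hw
  induction T generalizing B acc with
  | nd ax t l r il ir =>
    intro h
    change @Bool.rec (fun _ => Bool) false (chk reg cfs wt r (B.rgt ax t))
      (chk reg cfs wt l (B.lft ax t)) = true at h
    cases e : chk reg cfs wt l (B.lft ax t) with
    | false => rw [e] at h; exact absurd h Bool.false_ne_true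
    | true => rw [e] at h; exact nd (il _ _ e) (mono (ir _ acc h) (sub l _))
  | cl D ws ix pr i =>
    intro h q e j1 j2 j3 j4
    change clOK reg cfs wt B D ws ix pr i = true at h
    simp only [clOK, Bool.and_eq_true] at h
    obtain ⟨k1, k2⟩ := h3 reg B D q j3.1 j4 h.1.1
    have k3 : lg q.c ≤ lg q.d := lgm (by exact_mod_cast j2.a0.trans (j2.ab.trans j2.bc))
      (by exact_mod_cast j2.cd.le)
    exact (h2 wt ix pr i _ _ _ q e hw j1 j2 k1 k2 (h1 reg cfs _ _ ws lfc q hc j3.1 k1 k2 h.1.2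
      (by simp only [lfc, Lf.val]; push_cast; linarith)) h.2).elim
  | fn ρ u v u' v' => exact fun h q e _ _ _ j => ⟨ρ, List.mem_cons_self, h4 reg B ρ u v u' v' q j h⟩
  | gp => exact fun h q e j1 _ j3 j4 => ((h5 reg B q j1 j3 j4).1 h).elim
  | em ax n => exact fun h q e j1 _ j3 j4 => ((h5 reg B q j1 j3 j4).2 ax n h).elim

theorem root_ok : S_ROOT := by
  intro q h
  have n1 : (1 : ℝ) ≤ q.N := by exact_mod_cast q.hN
  have a1 : (1 : ℝ) ≤ q.a := by exact_mod_cast q.ha
  have ab : (q.a : ℝ) ≤ q.b := by exact_mod_cast q.hb.le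
  have bc : (q.b : ℝ) ≤ q.c := by exact_mod_cast q.hc.le
  have k1 : 0 ≤ lg q.N := Real.logb_nonneg one_lt_two n1
  have k2 : 0 ≤ lg q.a := Real.logb_nonneg one_lt_two a1
  have k3 := lgm (by linarith) ab
  have k4 := lgm (by linarith) bc
  have k5 : lg ((q.N : ℝ) ^ 100) ≤ lg (2 ^ 799) := lgm (by positivity)
    ((pow_le_pow_left₀ (by linarith) (by exact_mod_cast h : (q.N : ℝ) ≤ 254) 100).trans
      (by exact_mod_cast (by decide +kernel : 254 ^ 100 ≤ 2 ^ 799)))
  rw [lg, lg, Real.logb_pow, Real.logb_pow, Real.logb_self_eq_one one_lt_two, mul_one] at k5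
  refine ⟨?_, by exact_mod_cast k5, ?_, nofun, ?_, nofun, ?_, nofun⟩ <;>
    simp only [root, Nat.cast_zero] <;> linarith

end Pool.Agent.MP_2339ce_nt.Q2.TB
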