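import Pool.Agent.MP_2339ce_nt.Q2.TCAfl
import Pool.Agent.MP_2339ce_nt.Q2.TCChain
import Pool.Agent.MP_2339ce_nt.Q2.TCDf
import Pool.Agent.MP_2339ce_nt.Q2.TCFastB
import Pool.Agent.MP_2339ce_nt.Q2.TCTree

/-! Project Q2, block DB: a bound for the fourth element; the tree of boxes. -/

set_option autoImplicit false

noncomputable section

namespace Pool.Agent.MP_2339ce_nt.Q2.TB.DB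

inductive Tb where
  | nd (ax cut : ℕ) (l r : Tb) : Tb
  | cl (D : Df) (ix : List ℕ) (pr i : ℕ) : Tb
  | out : Tb

def chk (wt : List Wn) (cap : ℕ) (V : Lf) (T : Tb) : Bx → Bool :=
  @Tb.rec (fun _ => Bx → Bool)
    (fun ax t _ _ il ir B => @Bool.rec (fun _ => Bool) false (ir (B.rgt ax t)) (il (B.lft ax t)))
    (fun D ix pr i B => dfOK false B D && hpOKF wt ix pr i B (dfU false D) V)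
    (fun B => Nat.blt cap (2 * B.p1 + B.q1)) T

theorem chk_ok (h0 : S_HPW) {wt : List Wn} (hw : ∀ w ∈ wt, w.Ok) {cap : ℕ} {V : Lf} (q : Qd)
    {e : ℤ} (hN : q.N ≤ 256) (hQ : DQ.Qt (-q.N) q.a q.b q.c q.d e)
    (hc : 100 * (lg q.a + lg q.b) ≤ cap) (hV : V.val q.N q.a q.b q.c ≤ 600 * lg q.d) (T : Tb) :
    ∀ B : Bx, B.Mem q.N q.a q.b q.c → chk wt cap V T B = true → False := by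
  induction T with
  | nd ax t l r il ir =>
    intro B m h
    change @Bool.rec (fun _ => Bool) false (chk wt cap V r (B.rgt ax t))
      (chk wt cap V l (B.lft ax t)) = true at h
    cases k : chk wt cap V l (B.lft ax t) with
    | false => rw [k] at h; exact Bool.false_ne_true h
    | true => rw [k] at h; exact (Tree.split m ax t).elim (il _ · k) (ir _ · h)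
  | cl D ix pr i =>
    intro B m h
    change (dfOK false B D && hpOKF wt ix pr i B (dfU false D) V) = true at h
    rw [hpOKF_eq, Bool.and_eq_true] at h
    exact hpc_ok h0 afl_ok wt ix pr i B _ V q e hw hN hQ m (df_ok false B D q nofun m h.1).2 hV h.2
  | out =>
    intro B m h
    have k : (cap : ℝ) < 2 * B.p1 + B.q1 := by
      exact_mod_cast (Nat.blt_eq ▸ h : cap < 2 * B.p1 + B.q1)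
    linarith [m.p1, m.q1]

theorem rt {n : ℤ} (h : IsSquare n) : ∃ r : ℤ, 0 ≤ r ∧ r ^ 2 = n := by
  obtain ⟨r, rfl⟩ := h
  exact ⟨|r|, abs_nonneg r, by rw [sq_abs, sq]⟩

theorem toQd {N a b c d e : ℤ} (hN : 1 ≤ N) (h : DQ.Qt (-N) a b c d e) :
    ∃ q : Qd, q.N = N ∧ q.a = a ∧ q.b = b ∧ q.c = c ∧ q.d = d := by
  obtain ⟨r, r0, hr⟩ := rt h.s1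
  obtain ⟨s, s0, hs⟩ := rt h.s2
  obtain ⟨t, t0, ht⟩ := rt h.s5
  obtain ⟨x, x0, hx⟩ := rt h.s3
  obtain ⟨y, y0, hy⟩ := rt h.s6
  obtain ⟨z, z0, hz⟩ := rt h.s8
  exact ⟨⟨N, a, b, c, d, r, s, t, x, y, z, hN, h.a0, h.ab, h.bc, h.cd, r0, s0, t0, x0, y0, z0,
    hr, hs, ht, hx, hy, hz⟩, rfl, rfl, rfl, rfl, rfl⟩

def wt : List Wn := [
  ⟨[⟨0, -59, 0, -1, 1, 0, 0, 0, 0⟩], [⟨3, 1011, 2, 0, 0, 0, 6, 6, 6⟩, ⟨3, 1011, 2, 0, 10, 0, 0, 2,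
    6⟩], [⟨11, 1164, -14, 4, 4, 4, -6, -6, -6⟩]⟩,
  ⟨[], [⟨3, 1940, 2, 0, 0, 0, 6, 0, 0⟩, ⟨3, 1300, 2, 4, 0, 0, 2, 0, 0⟩], [⟨7, 1060, -10, 4, 4, 0,
    -6, 0, 0⟩]⟩,
  ⟨[⟨0, -201, 0, -1, 1, 0, 0, 0, 0⟩], [⟨5, 1790, 2, 0, 6, 0, 4, 0, 0⟩, ⟨5, 920, 2, 8, 0, 0, 2, 0,
    0⟩], [⟨9, 1110, -14, 4, 6, 0, -8, 0, 0⟩]⟩,
  ⟨[], [⟨5, 1620, 2, 0, 8, 0, 2, 0, 0⟩, ⟨5, 2720, 2, 6, 2, 0, 2, 0, 0⟩], [⟨9, 1110, -14, 6, 4, 0,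
    -8, 0, 0⟩]⟩,
  ⟨[⟨0, -597, 0, -1, 1, 0, 0, 0, 0⟩], [⟨5, 970, 2, 0, 2, 0, 10, 0, 0⟩, ⟨5, 1830, 2, 8, 2, 0, 2, 0,
    0⟩, ⟨8, 1120, -7, 3, 4, 0, 0, 0, 0⟩], [⟨11, 1600, -16, 6, 6, 0, -10, 0, 0⟩]⟩,
  ⟨[], [⟨5, 970, 2, 0, 2, 0, 10, 0, 0⟩, ⟨5, 1830, 2, 8, 2, 0, 2, 0, 0⟩, ⟨8, 1300, -7, 3, 4, 0, 0,
    0, 0⟩], [⟨11, 1600, -16, 6, 6, 0, -10, 0, 0⟩]⟩,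
  ⟨[⟨0, 99, 0, 1, -1, 0, 0, 0, 0⟩], [⟨5, 970, 2, 0, 2, 0, 10, 0, 0⟩, ⟨5, 1830, 2, 8, 2, 0, 2, 0,
    0⟩], [⟨11, 1600, -16, 6, 6, 0, -10, 0, 0⟩]⟩,
  ⟨[], [⟨7, 2370, 2, 0, 12, 0, 6, 0, 0⟩, ⟨7, 3520, 2, 12, 4, 0, 2, 0, 0⟩], [⟨15, 1680, -22, 8, 8,
    0, -14, 0, 0⟩]⟩,
  ⟨[⟨0, -597, 0, -1, 1, 0, 0, 0, 0⟩], [⟨9, 3400, 2, 0, 6, 0, 16, 0, 0⟩, ⟨9, 2300, 2, 16, 4, 0, 2,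
    0, 0⟩], [⟨17, 1980, -26, 8, 10, 0, -16, 0, 0⟩]⟩,
  ⟨[], [⟨9, 4060, 2, 0, 6, 0, 16, 0, 0⟩, ⟨9, 3430, 2, 14, 6, 0, 2, 0, 0⟩], [⟨17, 1980, -26, 10, 8,
    0, -16, 0, 0⟩]⟩,
  ⟨[], [⟨11, 5130, 2, 0, 8, 0, 18, 0, 0⟩, ⟨11, 4010, 2, 20, 4, 0, 2, 0, 0⟩], [⟨19, 1750, -30, 8,
    12, 0, -18, 0, 0⟩]⟩,
  ⟨[], [⟨11, 4480, 2, 0, 8, 0, 22, 0, 0⟩, ⟨11, 3840, 2, 20, 8, 0, 2, 0, 0⟩], [⟨23, 2920, -34, 12,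
    12, 0, -22, 0, 0⟩]⟩,
  ⟨[], [⟨13, 4750, 2, 0, 10, 0, 24, 0, 0⟩, ⟨13, 3020, 2, 10, 22, 0, 2, 0, 0⟩, ⟨19, 3270, -18, 18,
    11, 0, -11, 0, 0⟩], [⟨25, 2620, -38, 12, 14, 0, -24, 0, 0⟩]⟩,
  ⟨[⟨0, -597, 0, -1, 1, 0, 0, 0, 0⟩], [⟨13, 3220, 2, 0, 24, 0, 12, 0, 0⟩, ⟨13, 4860, 2, 24, 10, 0,
    2, 0, 0⟩, ⟨20, 3030, -19, 7, 12, 0, 0, 0, 0⟩], [⟨27, 2760, -40, 14, 14, 0, -26, 0, 0⟩]⟩,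
  ⟨[], [⟨15, 4270, 2, 0, 28, 0, 14, 0, 0⟩, ⟨15, 6030, 2, 28, 12, 0, 2, 0, 0⟩], [⟨31, 2710, -46,
    16, 16, 0, -30, 0, 0⟩]⟩,
  ⟨[], [⟨19, 5670, 2, 0, 32, 0, 18, 0, 0⟩, ⟨19, 7050, 2, 36, 12, 0, 2, 0, 0⟩], [⟨35, 2960, -54,
    16, 20, 0, -34, 0, 0⟩]⟩,
  ⟨[], [⟨19, 7270, 2, 0, 16, 0, 38, 0, 0⟩, ⟨19, 6630, 2, 36, 16, 0, 2, 0, 0⟩], [⟨39, 3690, -58,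
    20, 20, 0, -38, 0, 0⟩]⟩,
  ⟨[], [⟨23, 9040, 2, 0, 20, 0, 46, 0, 0⟩, ⟨23, 8410, 2, 44, 20, 0, 2, 0, 0⟩], [⟨47, 4110, -70,
    24, 24, 0, -46, 0, 0⟩]⟩,
  ⟨[], [⟨27, 10600, 2, 0, 24, 0, 54, 0, 0⟩, ⟨27, 9970, 2, 52, 24, 0, 2, 0, 0⟩], [⟨55, 4760, -82,
    28, 28, 0, -54, 0, 0⟩]⟩,
  ⟨[], [⟨31, 9020, 2, 0, 60, 0, 30, 0, 0⟩, ⟨31, 12000, 2, 60, 28, 0, 2, 0, 0⟩], [⟨63, 5570, -94,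
    32, 32, 0, -62, 0, 0⟩]⟩,
  ⟨[⟨0, -597, 0, -1, 1, 0, 0, 0, 0⟩], [⟨37, 14360, 2, 0, 34, 0, 72, 0, 0⟩, ⟨37, 13950, 2, 72, 32,
    0, 2, 0, 0⟩], [⟨73, 5610, -110, 36, 38, 0, -72, 0, 0⟩]⟩,
  ⟨[], [⟨39, 10970, 2, 0, 76, 0, 38, 0, 0⟩, ⟨39, 14550, 2, 76, 36, 0, 2, 0, 0⟩], [⟨79, 7420, -118,
    40, 40, 0, -78, 0, 0⟩]⟩,
  ⟨[], [⟨3, 1940, 2, 0, 0, 0, 0, 6, 0⟩, ⟨3, 1300, 2, 0, 4, 0, 0, 2, 0⟩], [⟨7, 1060, -10, 0, 4, 4,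
    0, -6, 0⟩]⟩,
  ⟨[], [⟨5, 1790, 2, 0, 0, 6, 0, 4, 0⟩, ⟨5, 920, 2, 0, 8, 0, 0, 2, 0⟩, ⟨7, 1030, -6, 0, 6, 3, 0,
    -3, 0⟩], [⟨9, 1110, -14, 0, 4, 6, 0, -8, 0⟩]⟩,
  ⟨[⟨0, -597, 0, 0, -1, 1, 0, 0, 0⟩], [⟨5, 1790, 2, 0, 0, 6, 0, 4, 0⟩, ⟨5, 920, 2, 0, 8, 0, 0, 2,
    0⟩], [⟨9, 1110, -14, 0, 4, 6, 0, -8, 0⟩]⟩,
  ⟨[], [⟨5, 970, 2, 0, 0, 2, 0, 10, 0⟩, ⟨5, 1830, 2, 0, 8, 2, 0, 2, 0⟩, ⟨8, 1300, -7, 0, 3, 4, 0,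
    0, 0⟩], [⟨11, 1600, -16, 0, 6, 6, 0, -10, 0⟩]⟩,
  ⟨[⟨0, -201, 0, 0, -1, 1, 0, 0, 0⟩], [⟨5, 970, 2, 0, 0, 2, 0, 10, 0⟩, ⟨5, 1470, 2, 0, 2, 8, 0, 2,
    0⟩], [⟨11, 1600, -16, 0, 6, 6, 0, -10, 0⟩, ⟨8, 1090, -7, 0, 3, 4, 0, 0, 0⟩]⟩,
  ⟨[], [⟨7, 2370, 2, 0, 0, 12, 0, 6, 0⟩, ⟨7, 3520, 2, 0, 12, 4, 0, 2, 0⟩], [⟨15, 1680, -22, 0, 8,
    8, 0, -14, 0⟩]⟩,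
  ⟨[], [⟨9, 2670, 2, 0, 0, 16, 0, 6, 0⟩, ⟨9, 4060, 2, 0, 14, 6, 0, 2, 0⟩], [⟨17, 1980, -26, 0, 10,
    8, 0, -16, 0⟩]⟩,
  ⟨[], [⟨9, 2640, 2, 0, 0, 6, 0, 18, 0⟩, ⟨9, 3510, 2, 0, 16, 6, 0, 2, 0⟩, ⟨14, 2400, -13, 0, 5, 8,
    0, 0, 0⟩], [⟨19, 2120, -28, 0, 10, 10, 0, -18, 0⟩]⟩,
  ⟨[], [⟨11, 4480, 2, 0, 0, 8, 0, 22, 0⟩, ⟨11, 3020, 2, 0, 8, 20, 0, 2, 0⟩], [⟨23, 2920, -34, 0,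
    12, 12, 0, -22, 0⟩]⟩,
  ⟨[], [⟨13, 4750, 2, 0, 0, 10, 0, 24, 0⟩, ⟨13, 3860, 2, 0, 24, 8, 0, 2, 0⟩, ⟨19, 3270, -18, 0,
    18, 11, 0, -11, 0⟩], [⟨25, 2620, -38, 0, 12, 14, 0, -24, 0⟩]⟩,
  ⟨[], [⟨15, 6030, 2, 0, 0, 12, 0, 30, 0⟩, ⟨15, 4270, 2, 0, 12, 28, 0, 2, 0⟩], [⟨31, 2710, -46, 0,
    16, 16, 0, -30, 0⟩]⟩,
  ⟨[], [⟨19, 7500, 2, 0, 0, 16, 0, 34, 0⟩, ⟨19, 6420, 2, 0, 36, 12, 0, 2, 0⟩], [⟨35, 2960, -54, 0,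
    16, 20, 0, -34, 0⟩]⟩,
  ⟨[], [⟨19, 7270, 2, 0, 0, 16, 0, 38, 0⟩, ⟨19, 6630, 2, 0, 36, 16, 0, 2, 0⟩], [⟨39, 3690, -58, 0,
    20, 20, 0, -38, 0⟩]⟩,
  ⟨[], [⟨23, 6670, 2, 0, 0, 44, 0, 22, 0⟩, ⟨23, 9040, 2, 0, 44, 20, 0, 2, 0⟩], [⟨47, 4110, -70, 0,
    24, 24, 0, -46, 0⟩]⟩,
  ⟨[], [⟨27, 7930, 2, 0, 0, 52, 0, 26, 0⟩, ⟨27, 10600, 2, 0, 52, 24, 0, 2, 0⟩], [⟨55, 4760, -82,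
    0, 28, 28, 0, -54, 0⟩]⟩,
  ⟨[], [⟨31, 12000, 2, 0, 0, 28, 0, 62, 0⟩, ⟨31, 11360, 2, 0, 60, 28, 0, 2, 0⟩], [⟨63, 5570, -94,
    0, 32, 32, 0, -62, 0⟩]⟩,
  ⟨[⟨0, -597, 0, -1, 0, 1, 0, 0, 0⟩], [⟨5, 610, 2, 0, 0, 8, 0, 0, 4⟩, ⟨5, 1630, 2, 8, 0, 2, 0, 0,
    2⟩], [⟨11, 1580, -16, 6, 0, 6, 0, 0, -10⟩, ⟨8, 1100, -7, 3, 0, 4, 0, 0, 0⟩]⟩,
  ⟨[], [⟨3, 870, 2, 6, 0, 0, 2, 4, 2⟩, ⟨3, 870, 2, 0, 6, 0, 2, 2, 4⟩, ⟨6, 623, -5, 2, 2, 1, 0, 0,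
    0⟩], [⟨9, 1206, -12, 4, 4, 2, -6, -4, -4⟩]⟩]

def t0 : Tb :=
  (.nd 1 3501 (.nd 2 7001 (.nd 2 2333 (.nd 3 300 (.nd 2 777 (.nd 2 259 (.nd 1 1167 (.nd 3 150 (.nd
    2 129 (.nd 2 64
  (.cl ⟨1596, 1024, 888, 2897, 1024, 377, 0⟩ [1, 39, 6, 7, 9, 29, 11, 12, 14] 0 4)
  (.cl ⟨2504, 1024, 455, 2897, 1024, 377, 0⟩ [22, 0, 25, 27, 28, 29, 30, 31, 32] 0 4))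
  (.cl ⟨6166, 1024, 157, 2897, 1024, 377, 0⟩ [22, 0, 25, 27, 28, 29, 30, 31, 32, 16] 0 5)) (.nd 2
    129 (.nd 2 64
  (.cl ⟨1596, 1024, 888, 8193, 1024, 115, 0⟩ [1, 39, 6, 7, 9, 11, 12] 0 3)
  (.cl ⟨2504, 1024, 455, 8193, 1024, 115, 0⟩ [1, 0, 25, 7, 9, 29, 11, 12, 14] 0 4))
  (.cl ⟨6166, 1024, 157, 8193, 1024, 115, 0⟩ [1, 0, 25, 7, 28, 10, 11, 12, 14] 0 4))) (.nd 2 129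
    (.nd 2 64
  (.cl ⟨1596, 1024, 888, 8193, 1024, 115, 0⟩ [1, 39, 6, 7, 9, 10, 11, 12, 14, 15] 0 4)
  (.cl ⟨2504, 1024, 455, 8193, 1024, 115, 0⟩ [1, 0, 25, 7, 9, 29, 11, 12, 14, 15] 0 4))
  (.cl ⟨6166, 1024, 157, 8193, 1024, 115, 0⟩ [22, 0, 25, 7, 28, 29, 30, 31, 14, 15, 16] 0 5)))
    (.nd 1 1167 (.nd 3 150
  (.cl ⟨0, 0, 0, 2897, 1024, 377, 0⟩ [22, 0, 25, 27, 28, 29, 30, 31, 32, 16, 34] 1 5) (.nd 3 225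
  (.cl ⟨0, 0, 0, 4871, 1024, 204, 0⟩ [22, 0, 25, 7, 9, 28, 29, 30, 31, 32, 16, 17] 0 6)
  (.cl ⟨0, 0, 0, 8193, 1024, 115, 0⟩ [1, 0, 5, 25, 7, 9, 28, 10, 11, 12, 14, 15, 34] 0 5)))
  (.cl ⟨0, 0, 0, 8193, 1024, 115, 0⟩ [22, 0, 5, 25, 7, 28, 29, 30, 31, 14, 32, 15, 34, 17] 0 6)))
    (.nd 1 1167 (.nd 3 150
  (.cl ⟨0, 0, 0, 2897, 1024, 377, 0⟩ [22, 0, 5, 25, 27, 28, 29, 30, 31, 32, 15, 34] 1 5) (.nd 3 225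
  (.cl ⟨0, 0, 0, 4871, 1024, 204, 0⟩ [22, 0, 4, 25, 7, 27, 28, 29, 30, 31, 32, 15, 34, 35] 1 6)
  (.cl ⟨0, 0, 0, 8193, 1024, 115, 0⟩ [1, 22, 0, 4, 25, 7, 27, 28, 10, 29, 30, 31, 14, 32, 15, 34,
    35, 36] 1 7))) (.nd 3 150 (.nd 2 1555
  (.cl ⟨0, 0, 0, 2897, 1024, 377, 0⟩ [22, 0, 4, 25, 27, 28, 29, 30, 31, 32, 15, 34] 1 5) (.nd 3 75
    (.nd 1 2334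
  (.cl ⟨0, 0, 0, 1723, 1024, 780, 0⟩ [22, 0, 4, 25, 27, 28, 29, 30, 31, 32, 15] 1 4) (.nd 1 2917
    (.nd 2 1944
  (.cl ⟨0, 0, 0, 1723, 1024, 780, 0⟩ [22, 0, 4, 25, 27, 28, 29, 30, 31, 32, 15] 1 4)
  (.cl ⟨0, 0, 0, 1723, 1024, 780, 0⟩ [22, 0, 23, 4, 25, 27, 28, 29, 30, 31, 32, 33] 1 4)) .out))
  (.cl ⟨0, 0, 0, 2897, 1024, 377, 0⟩ [22, 39, 2, 38, 4, 25, 27, 28, 29, 30, 31, 32, 33, 34] 1 5)))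
  (.cl ⟨0, 0, 0, 8193, 1024, 115, 0⟩ [22, 39, 2, 38, 4, 25, 7, 9, 28, 29, 30, 31, 14, 32, 15, 34,
    35] 1 6)))) (.nd 2 777 (.nd 2 259 (.nd 3 900
  (.cl ⟨6166, 1024, 157, 0, 0, 0, 0⟩ [1, 39, 3, 26, 5, 7, 9, 10, 11, 12, 14, 15] 0 4) (.nd 1 1167
    (.nd 3 2100 (.nd 2 129 (.nd 2 64
  (.cl ⟨1596, 1024, 888, 0, 0, 0, 0⟩ [1, 6, 7, 9] 0 2)
  (.cl ⟨2504, 1024, 455, 0, 0, 0, 0⟩ [1, 3, 0, 5, 7, 9, 11] 0 3))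
  (.cl ⟨6166, 1024, 157, 0, 0, 0, 0⟩ [1, 3, 0, 5, 7, 9, 11] 0 3))
  (.cl ⟨6166, 1024, 157, 0, 0, 0, 0⟩ [1, 3, 5, 7, 9] 0 2)) (.nd 3 2100
  (.cl ⟨6166, 1024, 157, 0, 0, 0, 0⟩ [1, 3, 26, 5, 7, 9, 10, 11, 12] 0 3) (.nd 3 4500 (.nd 3 3300
    (.nd 1 2334 (.nd 3 2700
  (.cl ⟨6166, 1024, 157, 0, 0, 0, 0⟩ [1, 3, 26, 5, 7, 9] 0 2)
  (.cl ⟨6166, 1024, 157, 0, 0, 0, 0⟩ [1, 3, 5, 7, 9] 0 2))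
  (.cl ⟨6166, 1024, 157, 0, 0, 0, 0⟩ [1, 3, 26, 5, 7, 9, 11] 0 3))
  (.cl ⟨6166, 1024, 157, 0, 0, 0, 0⟩ [1, 3, 5, 7, 9] 0 2))
  (.cl ⟨6166, 1024, 157, 0, 0, 0, 0⟩ [1, 3, 5, 7, 9] 0 2))))) (.nd 3 900
  (.cl ⟨0, 0, 0, 0, 0, 0, 0⟩ [1, 0, 26, 5, 25, 7, 9, 28, 10, 11, 12, 14, 15, 16] 0 5) (.nd 1 1167
    (.nd 0 266
  (.cl ⟨0, 0, 0, 0, 0, 0, 0⟩ [1, 2, 5, 7, 9, 11] 0 3) (.nd 3 2100 (.nd 3 1500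
  (.cl ⟨0, 0, 0, 0, 0, 0, 0⟩ [1, 39, 0, 5, 7, 9, 10, 11, 12] 0 3) (.nd 1 389
  (.cl ⟨0, 0, 0, 0, 0, 0, 0⟩ [1, 2, 0, 5, 7, 9] 0 2) (.nd 1 778
  (.cl ⟨0, 0, 0, 0, 0, 0, 0⟩ [1, 2, 0, 5, 7, 9, 11] 0 3)
  (.cl ⟨0, 0, 0, 0, 0, 0, 0⟩ [1, 2, 26, 5, 7, 9, 11, 14] 0 3)))) (.nd 3 4500 (.nd 3 3300 (.nd 3
    2700 (.nd 1 389
  (.cl ⟨0, 0, 0, 0, 0, 0, 0⟩ [1, 2, 5, 7, 9] 0 2) (.nd 1 778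
  (.cl ⟨0, 0, 0, 0, 0, 0, 0⟩ [1, 2, 5, 7, 9] 0 2) (.nd 3 2400 (.nd 2 518
  (.cl ⟨0, 0, 0, 0, 0, 0, 0⟩ [1, 2, 5, 7, 9] 0 2)
  (.cl ⟨0, 0, 0, 0, 0, 0, 0⟩ [1, 2, 38, 5, 7, 9] 0 2))
  (.cl ⟨0, 0, 0, 0, 0, 0, 0⟩ [1, 2, 5, 7, 9] 0 2))))
  (.cl ⟨0, 0, 0, 0, 0, 0, 0⟩ [1, 2, 5, 7, 9] 0 2))
  (.cl ⟨0, 0, 0, 0, 0, 0, 0⟩ [1, 2, 5, 7, 9] 0 2))
  (.cl ⟨0, 0, 0, 0, 0, 0, 0⟩ [1, 2, 5, 7] 0 2)))) (.nd 3 2100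
  (.cl ⟨0, 0, 0, 0, 0, 0, 0⟩ [1, 39, 0, 26, 5, 7, 9, 10, 11, 12, 14, 15] 0 4) (.nd 3 4500 (.nd 1
    2334 (.nd 3 3300 (.nd 3 2700
  (.cl ⟨0, 0, 0, 0, 0, 0, 0⟩ [1, 2, 26, 5, 7, 9, 11] 0 3) (.nd 1 1750
  (.cl ⟨0, 0, 0, 0, 0, 0, 0⟩ [1, 2, 5, 7, 9] 0 2)
  (.cl ⟨0, 0, 0, 0, 0, 0, 0⟩ [1, 2, 26, 5, 7, 9] 0 2)))
  (.cl ⟨0, 0, 0, 0, 0, 0, 0⟩ [1, 2, 5, 7, 9] 0 2))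
  (.cl ⟨0, 0, 0, 0, 0, 0, 0⟩ [1, 2, 26, 5, 7, 9, 11, 12] 0 3))
  (.cl ⟨0, 0, 0, 0, 0, 0, 0⟩ [1, 2, 5, 7, 9] 0 2)))))) (.nd 3 900
  (.cl ⟨0, 0, 0, 0, 0, 0, 0⟩ [1, 22, 0, 26, 4, 25, 7, 27, 8, 28, 10, 29, 11, 12, 13, 14, 32, 15,
    16, 34, 17, 35, 18, 36, 19, 37, 20, 21] 0 10) (.nd 1 1167 (.nd 3 2100 (.nd 2 1555 (.nd 3 1500
  (.cl ⟨0, 0, 0, 0, 0, 0, 0⟩ [1, 22, 39, 0, 26, 4, 25, 7, 9, 28, 10, 11, 12, 14, 15] 0 4) (.nd 0 266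
  (.cl ⟨0, 0, 0, 0, 0, 0, 0⟩ [1, 2, 26, 4, 7, 8, 11, 12] 0 3) (.nd 0 532
  (.cl ⟨0, 0, 0, 0, 0, 0, 0⟩ [1, 39, 3, 0, 23, 4, 7, 8, 10, 11, 12] 0 3) (.nd 1 389 (.nd 2 1166
    (.nd 2 971
  (.cl ⟨0, 0, 0, 0, 0, 0, 0⟩ [1, 3, 0, 4, 7, 8, 11] 0 3)
  (.cl ⟨0, 0, 0, 0, 0, 0, 0⟩ [1, 39, 2, 24, 4, 7, 8, 11, 14] 0 3))
  (.cl ⟨0, 0, 0, 0, 0, 0, 0⟩ [1, 39, 2, 24, 4, 7, 8, 10, 11, 12] 0 3)) (.nd 1 778 (.nd 2 1166 (.nd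
    3 1800
  (.cl ⟨0, 0, 0, 0, 0, 0, 0⟩ [1, 39, 0, 4, 7, 8, 11, 12] 0 3) (.nd 1 583 (.nd 2 971
  (.cl ⟨0, 0, 0, 0, 0, 0, 0⟩ [1, 2, 0, 4, 7, 8] 0 2) (.nd 3 1950
  (.cl ⟨0, 0, 0, 0, 0, 0, 0⟩ [1, 2, 26, 4, 7, 8, 11] 0 3) (.nd 2 1068 (.nd 1 486 (.nd 2 1019
  (.cl ⟨0, 0, 0, 0, 0, 0, 0⟩ [1, 2, 0, 4, 7, 8] 0 2)
  (.cl ⟨0, 0, 0, 0, 0, 0, 0⟩ [1, 2, 38, 4, 7, 8] 0 2))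
  (.cl ⟨0, 0, 0, 0, 0, 0, 0⟩ [1, 2, 26, 4, 7, 8] 0 2))
  (.cl ⟨0, 0, 0, 0, 0, 0, 0⟩ [1, 2, 38, 4, 7, 8, 11] 0 3))))
  (.cl ⟨0, 0, 0, 0, 0, 0, 0⟩ [1, 2, 26, 4, 7, 8, 11, 14] 0 3)))
  (.cl ⟨0, 0, 0, 0, 0, 0, 0⟩ [1, 39, 2, 26, 4, 7, 8, 10, 11, 12] 0 3))
  (.cl ⟨0, 0, 0, 0, 0, 0, 0⟩ [1, 39, 2, 26, 4, 7, 8, 10, 11, 12, 14] 0 4))))))
  (.cl ⟨0, 0, 0, 0, 0, 0, 0⟩ [1, 22, 39, 2, 24, 4, 25, 7, 8, 28, 10, 11, 12, 13, 14, 32, 16, 34,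
    17] 0 6)) (.nd 3 4500 (.nd 2 1555 (.nd 3 3300 (.nd 0 266
  (.cl ⟨0, 0, 0, 0, 0, 0, 0⟩ [1, 2, 4, 7, 8, 11] 0 3) (.nd 0 532
  (.cl ⟨0, 0, 0, 0, 0, 0, 0⟩ [1, 3, 24, 4, 7, 8, 11, 14] 0 3) (.nd 3 2700 (.nd 1 389 (.nd 2 1166
    (.nd 3 2400 (.nd 2 971
  (.cl ⟨0, 0, 0, 0, 0, 0, 0⟩ [1, 2, 4, 7, 8] 0 2)
  (.cl ⟨0, 0, 0, 0, 0, 0, 0⟩ [1, 3, 24, 4, 7, 8] 0 2))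
  (.cl ⟨0, 0, 0, 0, 0, 0, 0⟩ [1, 2, 4, 7, 8] 0 2))
  (.cl ⟨0, 0, 0, 0, 0, 0, 0⟩ [1, 2, 24, 4, 7, 8, 11] 0 3)) (.nd 1 778 (.nd 2 1166 (.nd 3 2400 (.nd
    0 665
  (.cl ⟨0, 0, 0, 0, 0, 0, 0⟩ [1, 2, 4, 7, 8] 0 2) (.nd 1 583 (.nd 2 971
  (.cl ⟨0, 0, 0, 0, 0, 0, 0⟩ [1, 2, 4, 7, 8] 0 2) (.nd 3 2250 (.nd 2 1068 (.nd 1 486
  (.cl ⟨0, 0, 0, 0, 0, 0, 0⟩ [1, 2, 4, 7, 8] 0 2) (.nd 3 2175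
  (.cl ⟨0, 0, 0, 0, 0, 0, 0⟩ [1, 2, 38, 4, 7, 8] 0 2)
  (.cl ⟨0, 0, 0, 0, 0, 0, 0⟩ [1, 2, 4, 7, 8] 0 2)))
  (.cl ⟨0, 0, 0, 0, 0, 0, 0⟩ [1, 2, 23, 4, 7, 8] 0 2))
  (.cl ⟨0, 0, 0, 0, 0, 0, 0⟩ [1, 2, 4, 7, 8] 0 2))) (.nd 3 2250
  (.cl ⟨0, 0, 0, 0, 0, 0, 0⟩ [1, 2, 38, 4, 7, 8, 11] 0 3) (.nd 2 971
  (.cl ⟨0, 0, 0, 0, 0, 0, 0⟩ [1, 2, 4, 7, 8] 0 2) (.nd 2 1068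
  (.cl ⟨0, 0, 0, 0, 0, 0, 0⟩ [1, 2, 4, 7, 8] 0 2)
  (.cl ⟨0, 0, 0, 0, 0, 0, 0⟩ [1, 2, 38, 4, 7, 8] 0 2))))))
  (.cl ⟨0, 0, 0, 0, 0, 0, 0⟩ [1, 2, 4, 7, 8] 0 2))
  (.cl ⟨0, 0, 0, 0, 0, 0, 0⟩ [1, 2, 24, 4, 7, 8, 11, 12] 0 3)) (.nd 2 1166 (.nd 3 2400
  (.cl ⟨0, 0, 0, 0, 0, 0, 0⟩ [1, 2, 26, 4, 7, 8, 11] 0 3) (.nd 3 2550
  (.cl ⟨0, 0, 0, 0, 0, 0, 0⟩ [1, 2, 38, 4, 7, 8] 0 2)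
  (.cl ⟨0, 0, 0, 0, 0, 0, 0⟩ [1, 2, 4, 7, 8] 0 2)))
  (.cl ⟨0, 0, 0, 0, 0, 0, 0⟩ [1, 2, 38, 4, 7, 8, 11, 12] 0 3)))) (.nd 1 389
  (.cl ⟨0, 0, 0, 0, 0, 0, 0⟩ [1, 2, 4, 7, 8] 0 2) (.nd 1 778
  (.cl ⟨0, 0, 0, 0, 0, 0, 0⟩ [1, 2, 4, 7, 8] 0 2) (.nd 2 1166
  (.cl ⟨0, 0, 0, 0, 0, 0, 0⟩ [1, 2, 4, 7, 8] 0 2) (.nd 2 1360
  (.cl ⟨0, 0, 0, 0, 0, 0, 0⟩ [1, 2, 4, 7, 8] 0 2)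
  (.cl ⟨0, 0, 0, 0, 0, 0, 0⟩ [1, 3, 24, 4, 7, 8, 11] 0 3))))))))
  (.cl ⟨0, 0, 0, 0, 0, 0, 0⟩ [1, 2, 4, 7, 8] 0 2))
  (.cl ⟨0, 0, 0, 0, 0, 0, 0⟩ [1, 39, 2, 24, 4, 7, 8, 10, 11, 12, 14] 0 4))
  (.cl ⟨0, 0, 0, 0, 0, 0, 0⟩ [1, 2, 4, 7, 8] 0 2))) (.nd 3 2100
  (.cl ⟨0, 0, 0, 0, 0, 0, 0⟩ [1, 39, 2, 26, 4, 25, 7, 8, 28, 10, 11, 12, 13, 14, 32, 15, 16, 34] 0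
    5) (.nd 3 4500 (.nd 1 2334 (.nd 0 266
  (.cl ⟨0, 0, 0, 0, 0, 0, 0⟩ [1, 3, 24, 4, 7, 8, 10, 11, 12] 0 3) (.nd 3 3300 (.nd 2 1555 (.nd 3
    2700
  (.cl ⟨0, 0, 0, 0, 0, 0, 0⟩ [1, 2, 26, 4, 7, 8, 10, 11, 12] 0 3) (.nd 1 1750 (.nd 2 1166 (.nd 3
    3000
  (.cl ⟨0, 0, 0, 0, 0, 0, 0⟩ [1, 2, 26, 4, 7, 8] 0 2)
  (.cl ⟨0, 0, 0, 0, 0, 0, 0⟩ [1, 2, 4, 7, 8] 0 2))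
  (.cl ⟨0, 0, 0, 0, 0, 0, 0⟩ [1, 2, 38, 4, 7, 8, 11, 14] 0 3))
  (.cl ⟨0, 0, 0, 0, 0, 0, 0⟩ [1, 2, 26, 4, 7, 8, 11, 12] 0 3)))
  (.cl ⟨0, 0, 0, 0, 0, 0, 0⟩ [1, 39, 2, 26, 4, 7, 8, 10, 11, 12, 14] 0 4)) (.nd 2 1555 (.nd 3 3900
    (.nd 1 1750
  (.cl ⟨0, 0, 0, 0, 0, 0, 0⟩ [1, 2, 4, 7, 8] 0 2)
  (.cl ⟨0, 0, 0, 0, 0, 0, 0⟩ [1, 2, 26, 4, 7, 8, 11] 0 3))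
  (.cl ⟨0, 0, 0, 0, 0, 0, 0⟩ [1, 2, 4, 7, 8] 0 2)) (.nd 2 1944 (.nd 3 3900 (.nd 1 1750 (.nd 1 1458
  (.cl ⟨0, 0, 0, 0, 0, 0, 0⟩ [1, 3, 24, 4, 7, 8, 11] 0 3)
  (.cl ⟨0, 0, 0, 0, 0, 0, 0⟩ [1, 2, 26, 4, 7, 8, 11] 0 3))
  (.cl ⟨0, 0, 0, 0, 0, 0, 0⟩ [1, 2, 26, 4, 7, 8, 11, 12] 0 3))
  (.cl ⟨0, 0, 0, 0, 0, 0, 0⟩ [1, 2, 4, 7, 8] 0 2))
  (.cl ⟨0, 0, 0, 0, 0, 0, 0⟩ [1, 2, 24, 4, 7, 8, 11, 12] 0 3)))))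
  (.cl ⟨0, 0, 0, 0, 0, 0, 0⟩ [1, 39, 2, 26, 4, 7, 8, 10, 11, 12, 14, 15] 0 4)) (.nd 1 2334
  (.cl ⟨0, 0, 0, 0, 0, 0, 0⟩ [1, 2, 4, 7, 8] 0 2) (.nd 2 1555
  (.cl ⟨0, 0, 0, 0, 0, 0, 0⟩ [1, 2, 4, 7, 8] 0 2) (.nd 1 2917 (.nd 2 1944
  (.cl ⟨0, 0, 0, 0, 0, 0, 0⟩ [1, 2, 4, 7, 8] 0 2) (.nd 1 2625
  (.cl ⟨0, 0, 0, 0, 0, 0, 0⟩ [1, 2, 4, 7, 8, 11] 0 3) .out)) .out))))))))) (.nd 3 300 (.nd 3 150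
  (.cl ⟨0, 0, 0, 2897, 1024, 377, 0⟩ [22, 0, 23, 4, 25, 27, 28, 29, 30, 31, 32, 33, 34] 1 5)
  (.cl ⟨0, 0, 0, 8193, 1024, 115, 0⟩ [1, 22, 0, 38, 4, 25, 7, 27, 28, 29, 30, 31, 14, 32, 15, 33,
    34, 35] 1 5)) (.nd 2 4667 (.nd 1 1167 (.nd 3 900 (.nd 2 3500 (.nd 3 600
  (.cl ⟨0, 0, 0, 0, 0, 0, 0⟩ [1, 22, 0, 26, 4, 25, 7, 27, 28, 10, 29, 30, 31, 14, 32, 15, 16, 34,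
    17, 35, 18, 36, 37] 1 8)
  (.cl ⟨0, 0, 0, 0, 0, 0, 0⟩ [1, 22, 0, 26, 4, 25, 7, 27, 8, 28, 10, 11, 12, 13, 14, 32, 15, 16,
    34, 17, 35, 18, 36, 19, 37, 20, 21] 0 10))
  (.cl ⟨0, 0, 0, 0, 0, 0, 0⟩ [1, 22, 0, 26, 4, 25, 7, 27, 28, 10, 29, 30, 31, 14, 32, 15, 16, 34,
    17, 35, 18, 36, 19, 37] 1 8)) (.nd 3 2100 (.nd 3 1500 (.nd 3 1200 (.nd 3 1050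
  (.cl ⟨0, 0, 0, 0, 0, 0, 0⟩ [1, 22, 0, 26, 4, 25, 7, 27, 8, 28, 10, 11, 12, 13, 14, 32, 15, 16,
    34, 17, 35, 18, 36, 19, 37, 20, 21] 0 10)
  (.cl ⟨0, 0, 0, 0, 0, 0, 0⟩ [1, 22, 3, 24, 4, 25, 7, 27, 8, 28, 10, 11, 12, 13, 14, 32, 15, 16,
    34, 17, 35, 18, 36, 19, 37, 20] 0 9))
  (.cl ⟨0, 0, 0, 0, 0, 0, 0⟩ [1, 22, 2, 26, 4, 25, 7, 27, 8, 28, 10, 11, 12, 13, 14, 32, 15, 16,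
    34, 17, 35, 18, 36, 19] 0 8))
  (.cl ⟨0, 0, 0, 0, 0, 0, 0⟩ [1, 22, 2, 26, 4, 25, 7, 8, 28, 10, 11, 12, 13, 14, 32, 15, 16, 34,
    17, 35, 18] 0 7)) (.nd 3 4500 (.nd 3 3300 (.nd 2 3500 (.nd 3 2700
  (.cl ⟨0, 0, 0, 0, 0, 0, 0⟩ [1, 22, 2, 24, 4, 25, 7, 8, 28, 10, 11, 12, 14, 15] 0 4)
  (.cl ⟨0, 0, 0, 0, 0, 0, 0⟩ [1, 22, 2, 24, 4, 7, 8, 10, 11, 12, 14, 15] 0 4))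
  (.cl ⟨0, 0, 0, 0, 0, 0, 0⟩ [1, 22, 2, 24, 4, 25, 7, 8, 28, 10, 11, 12, 13, 14, 32, 16, 34, 17] 0
    6))
  (.cl ⟨0, 0, 0, 0, 0, 0, 0⟩ [1, 22, 2, 24, 4, 25, 7, 8, 10, 11, 12, 14, 15] 0 4)) (.nd 3 9300
    (.nd 3 6900 (.nd 3 5700
  (.cl ⟨0, 0, 0, 0, 0, 0, 0⟩ [1, 39, 2, 24, 4, 7, 8, 10, 11, 12] 0 3) (.nd 2 3500
  (.cl ⟨0, 0, 0, 0, 0, 0, 0⟩ [1, 2, 4, 7, 8] 0 2)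
  (.cl ⟨0, 0, 0, 0, 0, 0, 0⟩ [1, 2, 24, 4, 7, 8, 11, 12] 0 3)))
  (.cl ⟨0, 0, 0, 0, 0, 0, 0⟩ [1, 2, 4, 7, 8] 0 2))
  (.cl ⟨0, 0, 0, 0, 0, 0, 0⟩ [1, 2, 4, 7, 8] 0 2))))) (.nd 3 900
  (.cl ⟨0, 0, 0, 0, 0, 0, 0⟩ [1, 22, 0, 26, 4, 25, 7, 27, 28, 10, 29, 30, 31, 14, 32, 15, 16, 34,
    17, 35, 18, 36, 19, 37] 1 8) (.nd 1 2334 (.nd 3 2100 (.nd 2 3500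
  (.cl ⟨0, 0, 0, 0, 0, 0, 0⟩ [1, 22, 39, 2, 26, 4, 25, 7, 8, 28, 10, 11, 12, 13, 14, 32, 15, 16,
    34, 17, 35, 18] 0 7) (.nd 3 1500 (.nd 1 1750 (.nd 2 4083
  (.cl ⟨0, 0, 0, 0, 0, 0, 0⟩ [1, 22, 39, 2, 26, 4, 25, 7, 8, 28, 10, 11, 12, 13, 14, 32, 15, 16,
    34, 17, 35, 18, 36, 19] 0 8) (.nd 3 1200 (.nd 3 1050
  (.cl ⟨0, 0, 0, 0, 0, 0, 0⟩ [1, 22, 0, 26, 4, 25, 7, 8, 28, 10, 11, 12, 13, 14, 32, 15, 16, 34,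
    17, 35, 18, 36, 19, 37] 0 8)
  (.cl ⟨0, 0, 0, 0, 0, 0, 0⟩ [1, 22, 3, 26, 4, 25, 7, 8, 28, 10, 11, 12, 13, 14, 32, 15, 16, 34,
    17, 35, 18, 36, 19] 0 8))
  (.cl ⟨0, 0, 0, 0, 0, 0, 0⟩ [1, 22, 2, 26, 4, 25, 7, 8, 28, 10, 11, 12, 13, 14, 32, 15, 16, 34,
    17, 35, 18, 19] 0 7)))
  (.cl ⟨0, 0, 0, 0, 0, 0, 0⟩ [1, 22, 39, 2, 26, 4, 25, 7, 8, 28, 10, 11, 12, 13, 14, 32, 15, 16,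
    34, 17, 35, 18, 36, 19] 0 8))
  (.cl ⟨0, 0, 0, 0, 0, 0, 0⟩ [1, 22, 2, 26, 4, 25, 7, 8, 28, 10, 11, 12, 13, 14, 32, 15, 16, 34,
    17, 35] 0 6))) (.nd 3 4500
  (.cl ⟨0, 0, 0, 0, 0, 0, 0⟩ [1, 22, 2, 24, 4, 25, 7, 8, 28, 10, 11, 12, 13, 14, 32, 15, 16, 34] 0
    5) (.nd 3 9300
  (.cl ⟨0, 0, 0, 0, 0, 0, 0⟩ [1, 39, 2, 24, 4, 7, 8, 10, 11, 12] 0 3)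
  (.cl ⟨0, 0, 0, 0, 0, 0, 0⟩ [1, 2, 4, 7, 8] 0 2)))) .out))) (.nd 1 1167 (.nd 3 900
  (.cl ⟨0, 0, 0, 0, 0, 0, 0⟩ [1, 22, 0, 26, 4, 25, 7, 27, 28, 10, 29, 30, 31, 14, 32, 15, 33, 34,
    17, 35, 18, 36, 37] 1 7) (.nd 3 2100 (.nd 3 1500 (.nd 0 266
  (.cl ⟨0, 0, 0, 0, 0, 0, 0⟩ [1, 22, 2, 26, 4, 25, 7, 27, 28, 10, 29, 11, 12, 13, 14, 32, 15, 16,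
    34, 17, 35, 18, 36, 19, 37, 20, 21] 1 9) (.nd 2 5834 (.nd 3 1200 (.nd 3 1050
  (.cl ⟨0, 0, 0, 0, 0, 0, 0⟩ [1, 22, 0, 26, 4, 25, 7, 27, 28, 10, 29, 30, 31, 14, 32, 15, 16, 34,
    17, 35, 18, 36, 19, 37] 1 8)
  (.cl ⟨0, 0, 0, 0, 0, 0, 0⟩ [1, 22, 3, 24, 4, 25, 7, 27, 28, 10, 29, 11, 12, 13, 14, 32, 15, 16,
    34, 17, 35, 18, 36, 19, 37, 20, 21] 1 9))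
  (.cl ⟨0, 0, 0, 0, 0, 0, 0⟩ [1, 22, 2, 26, 4, 25, 7, 27, 8, 28, 10, 11, 12, 13, 14, 32, 15, 16,
    34, 17, 35, 18, 36, 19, 37, 20, 21] 0 10)) (.nd 3 1200 (.nd 3 1050
  (.cl ⟨0, 0, 0, 0, 0, 0, 0⟩ [1, 22, 0, 26, 4, 25, 7, 27, 28, 10, 29, 30, 31, 14, 32, 15, 16, 34,
    17, 35, 18, 36, 19] 1 7)
  (.cl ⟨0, 0, 0, 0, 0, 0, 0⟩ [1, 22, 3, 24, 4, 25, 7, 27, 28, 10, 29, 30, 31, 14, 32, 15, 16, 34,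
    17, 35, 18, 36, 19, 37] 1 8))
  (.cl ⟨0, 0, 0, 0, 0, 0, 0⟩ [1, 22, 2, 26, 4, 25, 7, 27, 28, 10, 29, 11, 12, 13, 14, 32, 15, 16,
    34, 17, 35, 18, 36, 19, 37, 20, 21] 1 9))))
  (.cl ⟨0, 0, 0, 0, 0, 0, 0⟩ [1, 22, 2, 26, 4, 25, 7, 27, 8, 28, 10, 11, 12, 13, 14, 32, 15, 16,
    34, 17, 35, 18, 36, 19, 37, 20, 21] 0 10)) (.nd 3 4500 (.nd 3 3300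
  (.cl ⟨0, 0, 0, 0, 0, 0, 0⟩ [1, 22, 2, 38, 4, 25, 7, 8, 28, 10, 11, 12, 13, 14, 32, 15, 16, 34,
    17, 35, 18, 36, 19] 0 8)
  (.cl ⟨0, 0, 0, 0, 0, 0, 0⟩ [1, 22, 2, 24, 4, 25, 7, 8, 28, 10, 11, 12, 13, 14, 32, 16, 34, 17] 0
    6)) (.nd 3 9300 (.nd 3 6900 (.nd 3 5700 (.nd 2 5834
  (.cl ⟨0, 0, 0, 0, 0, 0, 0⟩ [1, 22, 2, 24, 4, 7, 8, 10, 11, 12, 14, 15] 0 4) (.nd 3 5100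
  (.cl ⟨0, 0, 0, 0, 0, 0, 0⟩ [1, 22, 2, 24, 4, 25, 7, 8, 28, 10, 11, 12, 14, 15] 0 4)
  (.cl ⟨0, 0, 0, 0, 0, 0, 0⟩ [1, 22, 2, 24, 4, 7, 8, 10, 11, 12, 14, 15] 0 4)))
  (.cl ⟨0, 0, 0, 0, 0, 0, 0⟩ [1, 22, 2, 24, 4, 7, 8, 10, 11, 12, 14, 15] 0 4))
  (.cl ⟨0, 0, 0, 0, 0, 0, 0⟩ [1, 22, 2, 24, 4, 7, 8, 10, 11, 12] 0 3))
  (.cl ⟨0, 0, 0, 0, 0, 0, 0⟩ [1, 2, 4, 7, 8, 11] 0 3))))) .out)))) .out) .out)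

theorem t0_ok : chk wt 7000 ⟨15000, 12, 0, 12, 12⟩ t0 root = true := by decide +kernel

theorem db0 (h0 : S_HPW) (hw : ∀ w ∈ wt, w.Ok) {N a b c d e : ℤ} (h1 : 1 ≤ N) (h2 : N ≤ 254)
    (h : DQ.Qt (-N) a b c d e) (h3 : a * b ≤ 2 ^ 70) : d ≤ 2 ^ 25 * (N * b * c) ^ 2 := by
  obtain ⟨q, rfl, rfl, rfl, rfl, rfl⟩ := toQd h1 h
  have n0 : (0 : ℝ) < q.N := by exact_mod_cast h1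
  have a0 : (0 : ℝ) < q.a := by exact_mod_cast h.a0
  have b0 : (0 : ℝ) < q.b := by exact_mod_cast h.a0.trans h.ab
  have c0 : (0 : ℝ) < q.c := by exact_mod_cast (h.a0.trans h.ab).trans h.bc
  refine le_of_not_ge fun k => chk_ok h0 hw q (by omega) h ?_ ?_ t0 root (root_ok q h2) t0_ok
  · have := Tree.lgm (mul_pos a0 b0) (by exact_mod_cast h3 : (q.a * q.b : ℝ) ≤ 2 ^ 70)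
    rw [lg, lg, Real.logb_mul a0.ne' b0.ne', Real.logb_pow, Real.logb_self_eq_one one_lt_two] at this
    simp only [lg]
    push_cast at this ⊢
    linarith
  · have := Tree.lgm (by positivity)
      (by exact_mod_cast k : (2 ^ 25 * (q.N * q.b * q.c) ^ 2 : ℝ) ≤ q.d)
    rw [lg, Real.logb_mul (by positivity) (by positivity), Real.logb_pow, Real.logb_pow,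
      Real.logb_mul (by positivity) c0.ne', Real.logb_mul n0.ne' b0.ne',
      Real.logb_self_eq_one one_lt_two] at this
    simp only [Lf.val, lg] at this ⊢
    push_cast at this ⊢
    linarith

end Pool.Agent.MP_2339ce_nt.Q2.TB.DB
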