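import Pool.Agent.MP_2339ce_nt.Q2.HA3
import Pool.Agent.MP_2339ce_nt.Q2.DBT

/-! Project Q2, block DB: a bound for the fourth element. -/

set_option autoImplicit false

namespace Pool.Agent.MP_2339ce_nt.Q2.TB.DB

def wtE : List El3 := [
  .old 0 0,
  .fm 2 ⟨0, 1, 2, 2, 0, 1, 1, 1000, 5, 45, 950, 1000, 1000, 0, 194, 130, -106, 0, 0⟩,
  .fm 2 ⟨0, 2, 2, 3, 5, 0, 1, 250, 50, 1000, 950, 1000, 1000, 201, 179, 92, -111, 0, 0⟩,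
  .fm 2 ⟨0, 2, 3, 2, 0, 0, 1, 1000, 45, 5, 950, 1000, 1000, 0, 162, 272, -111, 0, 0⟩,
  .fm 6 ⟨0, 2, 3, 3, 2, 1, 1, 16, 1000, 50, 950, 1000, 1000, 597, 97, 183, -160, 112, 0⟩,
  .fm 6 ⟨0, 2, 3, 3, 1, 1, 1, 1000, 1000, 50, 950, 1000, 1000, 0, 97, 183, -160, 130, 0⟩,
  .fm 6 ⟨0, 2, 3, 3, 7, 1, 1, 1000, 1000, 50, 950, 1000, 1000, 0, 97, 183, -160, 0, 0⟩,
  .fm 4 ⟨0, 3, 4, 4, 0, 0, 1, 1000, 45, 5, 950, 1000, 1000, 0, 237, 352, -168, 0, 0⟩,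
  .fm 10 ⟨0, 4, 4, 5, 5, 1, 1, 16, 50, 1000, 950, 1000, 1000, 597, 340, 230, -198, 0, 0⟩,
  .fm 10 ⟨0, 4, 5, 4, 0, 1, 1, 1000, 5, 45, 950, 1000, 1000, 0, 406, 343, -198, 0, 0⟩,
  .fm 4 ⟨0, 5, 4, 6, 0, 1, 1, 1000, 5, 45, 950, 1000, 1000, 0, 513, 401, -175, 0, 0⟩,
  .fm 84 ⟨0, 5, 6, 6, 0, 1, 1, 1000, 5, 45, 950, 1000, 1000, 0, 448, 384, -292, 0, 0⟩,
  .fm 28 ⟨0, 6, 6, 7, 1, 1, 0, 1000, 100, 1000, 900, 1000, 1000, 0, 475, 302, -262, 0, 327⟩,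
  .fm 28 ⟨0, 6, 7, 7, 2, 0, 1, 16, 1000, 100, 900, 1000, 1000, 597, 322, 486, -276, 303, 0⟩,
  .fm 24 ⟨0, 7, 8, 8, 0, 0, 1, 1000, 450, 50, 500, 1000, 1000, 0, 427, 603, -271, 0, 0⟩,
  .fm 44 ⟨0, 9, 8, 10, 0, 0, 1, 1000, 450, 50, 500, 1000, 1000, 0, 567, 705, -296, 0, 0⟩,
  .fm 220 ⟨0, 9, 10, 10, 0, 1, 1, 1000, 50, 450, 500, 1000, 1000, 0, 727, 663, -369, 0, 0⟩,
  .fm 312 ⟨0, 11, 12, 12, 0, 1, 1, 1000, 50, 450, 500, 1000, 1000, 0, 904, 841, -411, 0, 0⟩,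
  .fm 952 ⟨0, 13, 14, 14, 0, 1, 1, 1000, 50, 450, 500, 1000, 1000, 0, 1060, 997, -476, 0, 0⟩,
  .fm 5168 ⟨0, 15, 16, 16, 0, 0, 1, 1000, 450, 50, 500, 1000, 1000, 0, 902, 1200, -557, 0, 0⟩,
  .fm 1748 ⟨0, 18, 18, 19, 5, 1, 1, 16, 500, 1000, 500, 1000, 1000, 597, 1436, 1395, -561, 0, 0⟩,
  .fm 354200 ⟨0, 19, 20, 20, 0, 0, 1, 1000, 450, 50, 500, 1000, 1000, 0, 1097, 1455, -742, 0, 0⟩,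
  .fm 2 ⟨1, 1, 2, 2, 0, 1, 1, 1000, 5, 45, 950, 1000, 1000, 0, 194, 130, -106, 0, 0⟩,
  .fm 2 ⟨1, 2, 2, 3, 1, 0, 1, 1000, 50, 1000, 950, 1000, 1000, 0, 179, 92, -111, 0, 103⟩,
  .fm 2 ⟨1, 2, 2, 3, 5, 0, 1, 16, 50, 1000, 950, 1000, 1000, 597, 179, 92, -111, 0, 0⟩,
  .fm 6 ⟨1, 2, 3, 3, 1, 1, 1, 1000, 1000, 50, 950, 1000, 1000, 0, 97, 183, -160, 130, 0⟩,
  .fm 6 ⟨1, 2, 3, 3, 4, 1, 0, 250, 1000, 50, 950, 1000, 1000, 201, 97, 147, -160, 109, 0⟩,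
  .fm 4 ⟨1, 3, 4, 4, 0, 0, 1, 1000, 45, 5, 950, 1000, 1000, 0, 237, 352, -168, 0, 0⟩,
  .fm 10 ⟨1, 4, 5, 4, 0, 0, 1, 1000, 45, 5, 950, 1000, 1000, 0, 267, 406, -198, 0, 0⟩,
  .fm 10 ⟨1, 4, 5, 5, 1, 1, 1, 1000, 1000, 50, 950, 1000, 1000, 0, 264, 351, -212, 240, 0⟩,
  .fm 84 ⟨1, 5, 6, 6, 0, 1, 0, 1000, 5, 45, 950, 1000, 1000, 0, 448, 302, -292, 0, 0⟩,
  .fm 28 ⟨1, 6, 6, 7, 1, 1, 1, 1000, 100, 1000, 900, 1000, 1000, 0, 475, 386, -262, 0, 327⟩,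
  .fm 24 ⟨1, 7, 8, 8, 0, 1, 0, 1000, 50, 450, 500, 1000, 1000, 0, 603, 427, -271, 0, 0⟩,
  .fm 44 ⟨1, 9, 8, 10, 0, 1, 1, 1000, 50, 450, 500, 1000, 1000, 0, 750, 642, -296, 0, 0⟩,
  .fm 220 ⟨1, 9, 10, 10, 0, 1, 1, 1000, 50, 450, 500, 1000, 1000, 0, 727, 663, -369, 0, 0⟩,
  .fm 312 ⟨1, 11, 12, 12, 0, 0, 1, 1000, 450, 50, 500, 1000, 1000, 0, 667, 904, -411, 0, 0⟩,
  .fm 952 ⟨1, 13, 14, 14, 0, 0, 1, 1000, 450, 50, 500, 1000, 1000, 0, 793, 1060, -476, 0, 0⟩,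
  .fm 5168 ⟨1, 15, 16, 16, 0, 1, 1, 1000, 50, 450, 500, 1000, 1000, 0, 1200, 1136, -557, 0, 0⟩,
  .fm 6 ⟨2, 2, 3, 3, 4, 0, 1, 16, 1000, 100, 900, 1000, 1000, 597, 61, 163, -158, 110, 0⟩,
  .q 4]

theorem wt_ok : ∀ w ∈ wt, w.Ok := tab_ok3 wtE (by decide +kernel) (by decide +kernel)

theorem dbound {N a b c d e : ℤ} (h1 : 1 ≤ N) (h2 : N ≤ 254) (h : DQ.Qt (-N) a b c d e)
    (h3 : a * b ≤ 2 ^ 70) : d ≤ 2 ^ 25 * (N * b * c) ^ 2 := db0 allW wt_ok h1 h2 h h3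

/-- the form for natural numbers: `m` is any number with `a ≤ m ^ 2` -/
theorem xbound {N a b c d x m : ℕ} {e : ℤ} (h1 : 1 ≤ N) (h2 : N ≤ 254)
    (h : DQ.Qt (-(N : ℤ)) a b c d e) (h3 : a * b ≤ 2 ^ 70) (hx : x ^ 2 + N = a * d)
    (hm : a ≤ m ^ 2) : x ≤ 5793 * N * m * b * c := by
  have k : d ≤ 2 ^ 25 * (N * b * c) ^ 2 := by
    exact_mod_cast dbound (by exact_mod_cast h1) (by exact_mod_cast h2) h (by exact_mod_cast h3)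
  refine (Nat.pow_le_pow_iff_left two_ne_zero).1 ?_
  calc x ^ 2 ≤ a * d := by omega
    _ ≤ m ^ 2 * (5793 ^ 2 * (N * b * c) ^ 2) :=
      Nat.mul_le_mul hm (k.trans (Nat.mul_le_mul_right _ (by norm_num)))
    _ = _ := by ring

end Pool.Agent.MP_2339ce_nt.Q2.TB.DB
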