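import Pool.Agent.MP_2339ce_nt.Q2.ESpec
import Pool.Agent.MP_2339ce_nt.DQ.TSR3

/-! Project EX, row ALL: the check of one quadruple and of a list of quadruples. -/

set_option autoImplicit false

namespace Pool.Agent.MP_2339ce_nt.EX

open DQ.SR

namespace ALL

theorem br_or {x b : Bool} (h : br x true b = true) : b = true ∨ x = true := by
  cases b
  · exact Or.inr h
  · exact Or.inl rfl

theorem br_br {x y b : Bool} (h : br x y b = true) : x = true ∨ (b = true ∧ y = true) := by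
  cases b
  · exact Or.inl h
  · exact Or.inr ⟨rfl, h⟩

theorem nsq_of {D : ℕ} (h : nsq D = true) : NSq D := fun z hz => nsq_sq z (by rw [hz]; exact h)

theorem gdp_spec {N p q r s x y : ℕ} (h : gdp N p q r s x y = true) :
    (∃ t, x * x + N = p * t ∧ (t = p ∨ t = q ∨ t = r ∨ t = s)) ∧
      4 * y ^ 2 ≤ (N * (q - p)) ^ 2 * (p * r) ∧ (2 * (p * y)) ^ 2 * (p * r) ≤ 2 ^ 80 := by
  obtain ⟨h1, h⟩ := rec_and h
  obtain ⟨h2, h⟩ := rec_and h
  refine ⟨?_, ?_, ?_⟩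
  · rcases br_or h with h | h
    · exact ⟨p, Nat.eq_of_beq_eq_true h, Or.inl rfl⟩
    rcases br_or h with h | h
    · exact ⟨q, Nat.eq_of_beq_eq_true h, Or.inr (Or.inl rfl)⟩
    rcases br_or h with h | h
    · exact ⟨r, Nat.eq_of_beq_eq_true h, Or.inr (Or.inr (Or.inl rfl))⟩
    · exact ⟨s, Nat.eq_of_beq_eq_true h, Or.inr (Or.inr (Or.inr rfl))⟩
  · rw [pow_two y]
    exact Nat.le_of_ble_eq_true h2
  · exact (Nat.le_of_ble_eq_true h1).trans (by norm_num)

theorem sg_sq {sg : ℕ} (h : sg ≤ 1) (x : ℤ) : ((1 - 2 * (sg : ℤ)) * x) ^ 2 = x ^ 2 := by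
  rcases Nat.le_one_iff_eq_zero_or_eq_one.1 h with rfl | rfl
  · simp
  · push_cast
    ring

theorem base {N p D e t X x sg : ℕ} {a b : ℤ} {u : ℤ√(D : ℤ)} (hp : 0 < p) (hs : sg ≤ 1)
    (hX : X ^ 2 + N = p * e) (hx : x * x + N = p * t)
    (h : zs D a X = u ^ (gg * 0) * zs D b ((1 - 2 * sg) * x)) : e = t := by
  rw [Nat.mul_zero, pow_zero, one_mul] at h
  have h1 : (X : ℤ) = (1 - 2 * sg) * x := congrArg Zsqrtd.im h
  have h2 : (X : ℤ) ^ 2 = (x : ℤ) ^ 2 := by rw [h1, sg_sq hs]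
  have h3 : X ^ 2 = x ^ 2 := by exact_mod_cast h2
  apply Nat.eq_of_mul_eq_mul_left hp
  rw [← hX, ← hx, h3, pow_two]

theorem chkT (hS : S_SEQ) (hT : S_T2L) : S_CHK := by
  intro N p q r s U w V z h e he1 he2 he3 he4
  obtain ⟨X, hX⟩ := he1
  rcases br_br h with h | ⟨-, h⟩
  · obtain ⟨n1, h⟩ := rec_and h
    obtain ⟨n2, h⟩ := rec_and h
    obtain ⟨n3, h⟩ := rec_and h
    obtain ⟨s1, s2⟩ := rec_and h
    obtain ⟨Y, hY⟩ := id he2
    obtain ⟨Z, hZ⟩ := id he3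
    obtain ⟨hN, hp, hpq, hU, T, m, sg, x, y, a1, a2, a3, a4, a5⟩ :=
      hS N p q r s U w e X Y _ s1 hX hY he3 he4
    obtain ⟨-, -, hpr, hV, T', n, sg', x', y', b1, b2, b3, b4, b5⟩ :=
      hS N p r q s V z e X Z _ s2 hX hZ he2 he4
    obtain ⟨⟨t, c1, c2⟩, c3, c4⟩ := gdp_spec a4
    obtain ⟨⟨t', d1, d2⟩, d3, d4⟩ := gdp_spec b4
    rcases Nat.eq_zero_or_pos m with rfl | hm
    · rw [base hp a2 hX c1 a5]
      exact c2
    rcases Nat.eq_zero_or_pos n with rfl | hn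
    · rw [base hp b2 hX d1 b5]
      tauto
    refine (hT p q r T U T' V m n y y' (N * (q - p)) (N * (r - p)) _ _ X _ _ hp (nsq_of n1)
      (nsq_of n2) (nsq_of n3) hU hV a1 b1 hm hn (Nat.mul_pos hN (Nat.sub_pos_of_lt hpq))
      (Nat.mul_pos hN (Nat.sub_pos_of_lt hpr)) ?_ ?_ c3 d3 c4 d4 a5 b5).elim
    · rw [sg_sq a2]
      exact_mod_cast a3
    · rw [sg_sq b2]
      exact_mod_cast b3
  · obtain ⟨Y, hY⟩ := he2
    obtain ⟨-, -, -, -, T, m, sg, x, y, -, -, -, a4, -⟩ :=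
      hS N p q r s U w e X Y _ h hX hY he3 he4
    exact Bool.noConfusion a4

theorem sel_mem (t : Q4) (i : ℕ) :
    sel t i = t.1 ∨ sel t i = t.2.1 ∨ sel t i = t.2.2.1 ∨ sel t i = t.2.2.2 := by
  unfold sel
  generalize Nat.beq (Nat.mod i 4) 2 = b1
  generalize Nat.beq (Nat.mod i 4) 0 = b2
  generalize Nat.ble (Nat.mod i 4) 1 = b3
  cases b1 <;> cases b2 <;> cases b3 <;> simp

theorem lst (hC : S_CHK) : S_ALL := by
  intro N L
  induction L with
  | nil => intro C a b c d _ h; exact Bool.noConfusion h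
  | cons t L ih =>
    intro C a b c d h1 h2
    cases C with
    | nil => exact Bool.noConfusion h1
    | cons k C =>
      obtain ⟨h3, h4⟩ := rec_and h1
      rcases br_br h2 with h2 | ⟨e4, h2⟩
      · exact ih C a b c d h4 h2
      rcases br_br h2 with h2 | ⟨e3, h2⟩
      · exact ih C a b c d h4 h2
      rcases br_br h2 with h2 | ⟨e2, h2⟩
      · exact ih C a b c d h4 h2
      rcases br_br h2 with h2 | ⟨e1, -⟩
      · exact ih C a b c d h4 h2
      rw [← Nat.eq_of_beq_eq_true e1, ← Nat.eq_of_beq_eq_true e2, ← Nat.eq_of_beq_eq_true e3,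
        ← Nat.eq_of_beq_eq_true e4]
      intro e g1 g2 g3 g4
      have hH : ∀ i, H N e (sel t i) := fun i => by
        rcases sel_mem t i with h | h | h | h <;> rw [h] <;> assumption
      rcases hC _ _ _ _ _ _ _ _ _ h3 e (hH _) (hH _) (hH _) (hH _) with h | h | h | h <;>
        rw [h] <;> exact sel_mem t _

end ALL

theorem allT : R_ALL := fun hS hT => ⟨ALL.chkT hS hT, ALL.lst (ALL.chkT hS hT)⟩

end Pool.Agent.MP_2339ce_nt.EX
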