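import Pool.Agent.MP_2339ce_nt.DQ.Srch

/-! Project EX: the check that a listed quadruple has no fifth element. -/

set_option autoImplicit false

noncomputable section

namespace Pool.Agent.MP_2339ce_nt.EX

open DQ.SR

/-- `if b then y else x` -/
abbrev br (x y b : Bool) : Bool := @Bool.rec (fun _ => Bool) x y b

/-- `true` only if `(-1) ^ s` times the Jacobi symbol of `a` and `n` is `-1` -/
def jac (f : ℕ) : ℕ → ℕ → ℕ → Bool :=
  @Nat.rec (fun _ => ℕ → ℕ → ℕ → Bool) (fun _ _ _ => false) (fun _ ih a n s =>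
    br (br (ih (Nat.mod n a) a (Nat.add s (Nat.mul (Nat.div a 2) (Nat.div n 2))))
        (Nat.beq (Nat.mod s 2) 1) (Nat.beq a 1))
      (ih (Nat.div a 2) n (Nat.add s (Nat.shiftRight 40 (Nat.mod n 8))))
      (Nat.beq (Nat.mod a 2) 0)) f

def up2 (D P : ℕ) (ih : ℕ → ℕ → ℕ → ℕ → ℕ → Bool) (t u T U e T2 U2 : ℕ) : Bool :=
  br (ih (Nat.mod (Nat.add (Nat.mul t T) (Nat.mul D (Nat.mul u U))) P)
      (Nat.mod (Nat.add (Nat.mul t U) (Nat.mul u T)) P) T2 U2 (Nat.div e 2))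
    (ih t u T2 U2 (Nat.div e 2)) (Nat.beq (Nat.mod e 2) 0)

/-- `k t' u'` where `t' + u' √D` is `(t + u √D) (T + U √D) ^ e` modulo `P` -/
def up (D P : ℕ) (k : ℕ → ℕ → Bool) (f : ℕ) : ℕ → ℕ → ℕ → ℕ → ℕ → Bool :=
  @Nat.rec (fun _ => ℕ → ℕ → ℕ → ℕ → ℕ → Bool) (fun _ _ _ _ _ => false) (fun _ ih t u T U e =>
    br (up2 D P ih t u T U e (Nat.mod (Nat.add (Nat.mul T T) (Nat.mul D (Nat.mul U U))) P)
      (Nat.mod (Nat.mul 2 (Nat.mul T U)) P)) (k t u) (Nat.beq e 0)) f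

def pm (P t u : ℕ) : Bool :=
  br false (br (Nat.beq (Nat.succ t) P) true (Nat.beq t 1)) (Nat.beq u 0)

def dr2 (P c d k w : ℕ) : Bool :=
  br (jac 60 (Nat.mod (Nat.add (Nat.mul d w) k) P) P 0) true
    (jac 60 (Nat.mod (Nat.add (Nat.mul c w) k) P) P 0)

def dr (P N c d k x : ℕ) : Bool := dr2 P c d k (Nat.add (Nat.mul x x) N)

/-- keep the `s` of `L` that pass the test modulo `P` -/
def flt (D P N c d k o a b T U : ℕ) (L : List ℕ) : List ℕ :=
  @List.rec ℕ (fun _ => List ℕ) [] (fun s _ r => @Bool.rec (fun _ => List ℕ) (s :: r) r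
    (up D P (fun _ u => dr P N c d k u) 60 b a T U (Nat.mod s o))) L

/-- the `s + j M`, `j < q`, `s` in `L` -/
def lft (M q : ℕ) (L : List ℕ) : List ℕ :=
  @List.rec ℕ (fun _ => List ℕ) [] (fun s _ r =>
    @Nat.rec (fun _ => List ℕ) r (fun j r' => Nat.add s (Nat.mul j M) :: r') q) L

def tst (ih : ℕ → List ℕ → Bool) (N p c d x y sg M : ℕ) (L : List ℕ) (P o D T U : ℕ) : Bool :=
  br false (ih M (flt D P N (Nat.mod (Nat.mul p c) P) (Nat.mod (Nat.mul p d) P)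
    (Nat.mod (Nat.mul (Nat.mul (Nat.mul p p) N) (Nat.pred P)) P) o
    (Nat.mod (Nat.mul x (Nat.add 1 (Nat.mul sg (Nat.mul 2 (Nat.pred P))))) P)
    (Nat.mod (Nat.mul p y) P) T U L))
    (up D P (pm P) 60 1 0 T U o)

def gg : ℕ := 1396755360

def allz (L : List ℕ) : Bool :=
  @List.rec ℕ (fun _ => Bool) true (fun s _ r => br false r (Nat.beq (Nat.mod s gg) 0)) L

def rn2 (ih : ℕ → List ℕ → Bool) (N p c d D T U x y sg M : ℕ) (L : List ℕ) (P : ℕ) : Bool :=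
  br (tst ih N p c d x y sg M L P (Nat.gcd M (Nat.mul P (Nat.pred (Nat.mul P P)))) (Nat.mod D P)
      (Nat.mod T P) (Nat.mod U P))
    (ih (Nat.mul (Nat.succ (Nat.div P 2)) M) (lft M (Nat.succ (Nat.div P 2)) L))
    (Nat.beq (Nat.mod P 2) 0)

/-- the sieve: `w` is the program in base `65536` -/
def run (N p c d D T U x y sg : ℕ) (gd : Bool) (f : ℕ) : ℕ → ℕ → List ℕ → Bool :=
  @Nat.rec (fun _ => ℕ → ℕ → List ℕ → Bool) (fun _ _ _ => false) (fun _ ih w M L =>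
    @List.rec ℕ (fun _ => Bool) true (fun _ _ _ =>
      br (rn2 (ih (Nat.div w 65536)) N p c d D T U x y sg M L (Nat.mod w 65536))
        (br false (br false (allz L) (Nat.beq (Nat.mod M gg) 0)) gd) (Nat.beq w 0)) L) f

def isq (n : ℕ) : ℕ := nw n 40 (Nat.pow 2 (Nat.succ (Nat.div (Nat.log2 n) 2)))

def bs3 (N p q c d D T U w M v x y : ℕ) (gd : Bool) : Bool :=
  br false (br false (br false (run N p c d D T U x y 1 gd 200 w 1 [0])
      (run N p c d D T U x y 0 gd 200 w 1 [0]))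
    (Nat.beq (Nat.mul p (Nat.mul y y)) (Nat.add (Nat.mul q (Nat.mul x x)) M)))
    (Nat.beq (Nat.add (Nat.mul x x) 3) v)

def bs2 (N p q c d D T U w M : ℕ) (gd : ℕ → ℕ → Bool) (v x y : ℕ) : Bool :=
  bs3 N p q c d D T U w M v x y (gd x y)

def bs1 (N p q c d D T U w M : ℕ) (gd : ℕ → ℕ → Bool) (v x : ℕ) : Bool :=
  bs2 N p q c d D T U w M gd v x (isq (Nat.div (Nat.add (Nat.mul q (Nat.mul x x)) M) p))

def bs (N p q c d D T U w M : ℕ) (gd : ℕ → ℕ → Bool) (v : ℕ) : Bool :=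
  bs1 N p q c d D T U w M gd v (isq (Nat.sub v 3))

/-- the `g` from `1` to `n` with `g ^ 2 ∣ M` -/
def gl2 (M n : ℕ) : List ℕ :=
  @Nat.rec (fun _ => List ℕ) [] (fun i r => @Bool.rec (fun _ => List ℕ) r (Nat.succ i :: r)
    (Nat.beq (Nat.mod M (Nat.pow (Nat.succ i) 2)) 0)) n

def alb (k : ℕ → Bool) (Y : ℕ) (L : List ℕ) : Bool :=
  @List.rec ℕ (fun _ => Bool) true (fun v _ r => br false r (br true (k v) (Nat.ble v Y))) L

def sq3 (k : ℕ → Bool) (p q M X n : ℕ) : Bool :=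
  br false (br false
      (alb k (Nat.add (Nat.mul X X) 3)
        (river 1 M X (Nat.add p q) (gl2 M n) 1000000 p (Nat.add p q) q 0 1 []))
      (br (k 3) true (br true (nsq (Nat.div M p)) (Nat.beq (Nat.mod M p) 0))))
    (Nat.ble (Nat.succ M) (Nat.pow (Nat.succ n) 2))

def sq2 (N p q c d U w : ℕ) (gd : ℕ → ℕ → Bool) (D T M X : ℕ) : Bool :=
  br false (br false (sq3 (bs N p q c d D T U w M gd) p q M X (isq M))
      (Nat.ble (Nat.succ (Nat.mul (Nat.mul U U) (Nat.mul p M)))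
        (Nat.mul (Nat.mul 2 (Nat.succ T)) (Nat.pow (Nat.succ X) 2))))
    (Nat.beq (Nat.mul T T) (Nat.succ (Nat.mul D (Nat.mul U U))))

def sq1 (N p q c d U w : ℕ) (gd : ℕ → ℕ → Bool) (D T M : ℕ) : Bool :=
  sq2 N p q c d U w gd D T M
    (isq (Nat.div (Nat.mul (Nat.mul U U) (Nat.mul p M)) (Nat.mul 2 (Nat.succ T))))

/-- the check for the pair `p < q`, the other two elements `c, d`, the unit `T + U √(p q)` -/
def seq (N p q c d U w : ℕ) (gd : ℕ → ℕ → Bool) : Bool :=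
  br false (br false (br false
    (sq1 N p q c d U w gd (Nat.mul p q) (isq (Nat.succ (Nat.mul (Nat.mul p q) (Nat.mul U U))))
      (Nat.mul N (Nat.sub q p))) (Nat.ble 1 U)) (Nat.ble (Nat.succ p) q)) (Nat.ble 1 (Nat.mul N p))

/-- a base point that belongs to an element of the quadruple, and is small -/
def gdp (N p q r s x y : ℕ) : Bool :=
  br false (br false
    (br (br (br (Nat.beq (Nat.add (Nat.mul x x) N) (Nat.mul p s)) true
      (Nat.beq (Nat.add (Nat.mul x x) N) (Nat.mul p r))) true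
      (Nat.beq (Nat.add (Nat.mul x x) N) (Nat.mul p q))) true
      (Nat.beq (Nat.add (Nat.mul x x) N) (Nat.mul p p)))
    (Nat.ble (Nat.mul 4 (Nat.mul y y)) (Nat.mul (Nat.pow (Nat.mul N (Nat.sub q p)) 2) (Nat.mul p r))))
    (Nat.ble (Nat.mul (Nat.pow (Nat.mul 2 (Nat.mul p y)) 2) (Nat.mul p r)) 1208925819614629174706176)

/-- the check for the quadruple `p, q, r, s`: one pair if `V = 0`, else two pairs -/
def chk (N p q r s U w V z : ℕ) : Bool :=
  br (br false (br false (br false (br false (seq N p r q s V z (gdp N p r q s))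
      (seq N p q r s U w (gdp N p q r s))) (nsq (Nat.mul q r))) (nsq (Nat.mul p r)))
      (nsq (Nat.mul p q)))
    (seq N p q r s U w (fun _ _ => false)) (Nat.beq V 0)

abbrev Q4 := ℕ × ℕ × ℕ × ℕ

/-- the element number `i % 4` of `t` -/
def sel (t : Q4) (i : ℕ) : ℕ :=
  @Bool.rec (fun _ => ℕ)
    (@Bool.rec (fun _ => ℕ) t.2.2.2 t.2.2.1 (Nat.beq (Nat.mod i 4) 2))
    (@Bool.rec (fun _ => ℕ) t.2.1 t.1 (Nat.beq (Nat.mod i 4) 0)) (Nat.ble (Nat.mod i 4) 1)

/-- the check for a list of quadruples; a certificate is `(order, U, w, V, z)` -/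
def allc (N : ℕ) (L : List Q4) : List (ℕ × Q4) → Bool :=
  @List.rec Q4 (fun _ => List (ℕ × Q4) → Bool) (fun _ => true) (fun t _ r C =>
    @List.rec (ℕ × Q4) (fun _ => Bool) false (fun c C' _ => br false (r C')
      (chk N (sel t c.1) (sel t (Nat.div c.1 4)) (sel t (Nat.div c.1 16)) (sel t (Nat.div c.1 64))
        c.2.1 c.2.2.1 c.2.2.2.1 c.2.2.2.2)) C) L

/-- `(a, b, c, d)` is in `L` -/
def inL (L : List Q4) (a b c d : ℕ) : Bool :=
  @List.rec Q4 (fun _ => Bool) false (fun t _ r => br r (br r (br r (br r true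
    (Nat.beq t.1 a)) (Nat.beq t.2.1 b)) (Nat.beq t.2.2.1 c)) (Nat.beq t.2.2.2 d)) L

end Pool.Agent.MP_2339ce_nt.EX

end
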