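import Mathlib.NumberTheory.Zsqrtd.Basic
import Mathlib.Data.Int.ModEq
import Mathlib.Algebra.MvPolynomial.Eval
import Mathlib.LinearAlgebra.Matrix.Determinant.Basic
import Mathlib.Analysis.SpecialFunctions.Log.Basic
import Pool.Agent.MP_2339ce_nt.Q2.EChk

/-! Project EX: the row statements. -/

set_option autoImplicit false

noncomputable section

namespace Pool.Agent.MP_2339ce_nt.EX

open Finset

/-- `a e - N` is a square -/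
def H (N e a : ℕ) : Prop := ∃ x : ℕ, x ^ 2 + N = a * e

def NoFifth (N a b c d : ℕ) : Prop :=
  ∀ e, H N e a → H N e b → H N e c → H N e d → e = a ∨ e = b ∨ e = c ∨ e = d

/-- `a + b √D` -/
def zs (D : ℕ) (a b : ℤ) : ℤ√(D : ℤ) := ⟨a, b⟩

def NSq (D : ℕ) : Prop := ∀ z : ℕ, z ^ 2 ≠ D

def S_JAC : Prop := ∀ (f a n : ℕ) (w : ℤ), n % 2 = 1 → (a : ℤ) ≡ w ^ 2 [ZMOD n] →
  jac f a n 0 = false

def S_UP : Prop := ∀ (E D P : ℕ) (k : ℕ → ℕ → Bool) (f t u T U e : ℕ), D ≡ E [MOD P] →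
  up D P k f t u T U e = true →
    ∃ t' u' : ℕ, k t' u' = true ∧ (P : ℤ√(E : ℤ)) ∣ zs E t' u' - zs E t u * zs E T U ^ e

def S_RUN : Prop := ∀ (N p D c d T U x y sg e m X : ℕ) (Y : ℤ) (gd : Bool) (f w M : ℕ)
  (L : List ℕ), X ^ 2 + N = p * e → H N e c → H N e d →
  zs D Y X = zs D T U ^ m * zs D (p * y) ((1 - 2 * sg) * x) →
  run N p c d D T U x y sg gd f w M L = true → (∃ s ∈ L, ∃ k, m = s + k * M) →
    gd = true ∧ gg ∣ m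

def S_DESC : Prop := ∀ p q M T U X Y : ℕ, 0 < p → 0 < M → 0 < U →
  T ^ 2 = p * q * U ^ 2 + 1 → p * Y ^ 2 = q * X ^ 2 + M →
    ∃ m sg x y : ℕ, sg ≤ 1 ∧ p * y ^ 2 = q * x ^ 2 + M ∧ 2 * (T + 1) * x ^ 2 ≤ U ^ 2 * (p * M) ∧
      zs (p * q) (p * Y) X = zs (p * q) T U ^ m * zs (p * q) (p * y) ((1 - 2 * sg) * x)

def S_LIST : Prop := ∀ (k : ℕ → Bool) (p q M X n x y : ℕ), 0 < M → sq3 k p q M X n = true →
  k 0 = false → p * y ^ 2 = q * x ^ 2 + M → x ≤ X → k (x ^ 2 + 3) = true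

def S_SEQ : Prop := ∀ (N p q c d U w e X Y : ℕ) (gd : ℕ → ℕ → Bool),
  seq N p q c d U w gd = true → X ^ 2 + N = p * e → Y ^ 2 + N = q * e → H N e c → H N e d →
    0 < N ∧ 0 < p ∧ p < q ∧ 0 < U ∧ ∃ T m sg x y : ℕ, T ^ 2 = p * q * U ^ 2 + 1 ∧ sg ≤ 1 ∧
      p * y ^ 2 = q * x ^ 2 + N * (q - p) ∧ gd x y = true ∧
      zs (p * q) (p * Y) X = zs (p * q) T U ^ (gg * m) * zs (p * q) (p * y) ((1 - 2 * sg) * x)

/-- the four evaluations at `(± A, ± B)` -/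
def ev (A B : ℝ) (j : Fin 4) : MvPolynomial (Fin 2) ℤ →+* ℝ :=
  MvPolynomial.eval₂Hom (Int.castRingHom ℝ) ![![A, A, -A, -A] j, ![B, -B, B, -B] j]

def S_LV : Prop := ∀ (p q r : ℕ) (A B : ℝ), 0 < p → A ^ 2 = p * q → B ^ 2 = p * r →
  NSq (p * q) → NSq (p * r) → NSq (q * r) → ∀ (F : MvPolynomial (Fin 2) ℤ) (j : Fin 4),
    ev A B j F ≠ 0 → 1 ≤ ∏ i, |ev A B i F|

def S_ZL : Prop := ∀ (θ β : ℝ) (g K L C S : ℕ) (c : Fin K × Fin L → ℝ), 0 < θ → θ ≠ 1 →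
  β ≠ 0 → C ≤ g → K * L ≤ C * S →
  (∀ ρ σ : ℕ, ρ < L + C → σ < S →
    ∑ i, c i * (((ρ + g * σ).choose i.1 : ℝ) * (θ ^ ρ * β ^ σ) ^ (i.2 : ℕ)) = 0) → c = 0

def S_MN : Prop := ∀ (ι κ : Type) [Fintype ι] [DecidableEq ι] [Fintype κ] (A : Matrix ι κ ℝ),
  (∀ c : ι → ℝ, Matrix.vecMul c A = 0 → c = 0) → ∃ f : ι → κ, (A.submatrix id f).det ≠ 0

def S_AN : Prop := ∀ (ι J : Type) [Fintype ι] [DecidableEq ι] [Fintype J] (C : Matrix ι J ℝ)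
  (V : Matrix J ι ℝ) (wt : J → ℕ) (r M : ℝ), 1 ≤ r → (∀ j i, |V j i| ≤ 1) →
  (∀ j j', wt j = wt j' → wt j < Fintype.card ι → j = j') →
  (∀ i, ∑ j, |C i j| * r ^ wt j ≤ M) →
    |(C * V).det| * r ^ (Fintype.card ι * (Fintype.card ι - 1) / 2) ≤
      (Fintype.card ι).factorial * M ^ Fintype.card ι

def S_BIN : Prop :=
  (∀ (v k Z : ℕ) (y : ℝ), v < Z → ∑ n ∈ range Z,
    (y ^ k * (n.choose k * (y - 1) ^ (n - k))) * (v.choose n : ℝ) = v.choose k * y ^ v) ∧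
  (∀ (k Z : ℕ) (x u : ℝ), 0 ≤ x → 0 ≤ u → ∑ n ∈ range Z,
    (n.choose k * u ^ (n - k)) * (x ^ n / n.factorial) ≤ x ^ k / k.factorial * Real.exp (x * u)) ∧
  ∀ k S : ℕ, k ≤ 4000 * S → ((gg * S : ℕ) : ℝ) ^ k / k.factorial ≤ Real.exp (56000 * S)

/-- the entry in the row `i` at the node `ρ + gg σ` -/
def ent {R : Type} [CommRing R] (θ a b : R) (S : ℕ) (i : Fin (4000 * S) × Fin 100) (ρ σ : ℕ) : R :=
  ((ρ + gg * σ).choose i.1 : ℕ) * (θ ^ ρ * b ^ σ * a ^ (S - σ)) ^ (i.2 : ℕ)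

def S_UP0 : Prop := ∀ (θ a b h : ℝ) (S : ℕ) (ρ σ : Fin (4000 * S) × Fin 100 → ℕ), 2 ≤ h →
  (S : ℝ) ≤ 1000 * h + 1 → 1 ≤ S → 1 ≤ a → a ≤ Real.exp 28 → 1 ≤ b → b ≤ Real.exp 28 → 0 < θ →
  |gg * Real.log θ - Real.log b + Real.log a| ≤ Real.exp (30 - gg * h) →
  (∀ c, ρ c < gg) → (∀ c, σ c < S) →
    |(Matrix.of fun i c => ent θ a b S i (ρ c) (σ c)).det| *
        Real.exp 3 ^ (400000 * S * (400000 * S - 1) / 2) ≤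
      (400000 * S).factorial * Real.exp (232000 * S) ^ (400000 * S)

def S_CORE : Prop := ∀ (R : Type) [CommRing R] (φ : Fin 4 → R →+* ℝ) (θ a b : R) (h : ℝ),
  (∀ F, φ 0 F ≠ 0 → 1 ≤ ∏ j, |φ j F|) → 2 ≤ h → (∀ j, |φ j θ| ≤ Real.exp h) →
  (∀ j, |φ j a| ≤ Real.exp 28) → (∀ j, |φ j b| ≤ Real.exp 28) → 1 ≤ φ 0 a → 1 ≤ φ 0 b →
  0 < φ 0 θ → φ 0 θ ≠ 1 →
  |gg * Real.log (φ 0 θ) - Real.log (φ 0 b) + Real.log (φ 0 a)| ≤ Real.exp (30 - gg * h) → False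

def S_T2L : Prop := ∀ (p q r T U T' U' m n y y' M M' : ℕ) (x x' X Y Z : ℤ), 0 < p →
  NSq (p * q) → NSq (p * r) → NSq (q * r) → 0 < U → 0 < U' → T ^ 2 = p * q * U ^ 2 + 1 →
  T' ^ 2 = p * r * U' ^ 2 + 1 → 0 < m → 0 < n → 0 < M → 0 < M' →
  (p : ℤ) * y ^ 2 = q * x ^ 2 + M → (p : ℤ) * y' ^ 2 = r * x' ^ 2 + M' →
  4 * y ^ 2 ≤ M ^ 2 * (p * r) → 4 * y' ^ 2 ≤ M' ^ 2 * (p * q) →
  (2 * (p * y)) ^ 2 * (p * r) ≤ 2 ^ 80 → (2 * (p * y')) ^ 2 * (p * q) ≤ 2 ^ 80 →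
  zs (p * q) Y X = zs (p * q) T U ^ (gg * m) * zs (p * q) (p * y) x →
  zs (p * r) Z X = zs (p * r) T' U' ^ (gg * n) * zs (p * r) (p * y') x' → False

def S_CHK : Prop := ∀ N p q r s U w V z : ℕ, chk N p q r s U w V z = true → NoFifth N p q r s

def S_ALL : Prop := ∀ (N : ℕ) (L : List Q4) (C : List (ℕ × Q4)) (a b c d : ℕ),
  allc N L C = true → inL L a b c d = true → NoFifth N a b c d

def R_RUN : Prop := S_JAC → S_UP → S_RUN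

def R_SEQ : Prop := S_DESC → S_LIST → S_RUN → S_SEQ

def R_UP0 : Prop := S_AN → S_BIN → S_UP0

def R_CORE : Prop := S_ZL → S_MN → S_BIN → S_UP0 → S_CORE

def R_T2L : Prop := S_LV → S_CORE → S_T2L

def R_ALL : Prop := S_SEQ → S_T2L → S_CHK ∧ S_ALL

end Pool.Agent.MP_2339ce_nt.EX

end
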