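import Mathlib.LinearAlgebra.Matrix.AbsoluteValue
import Pool.Agent.MP_2339ce_nt.Q2.ESpec

/-! Project EX, row AN: the weighted bound for the determinant of a product. -/

set_option autoImplicit false

namespace Pool.Agent.MP_2339ce_nt.EX

open Finset

namespace AN

theorem range_le (s : Finset ℕ) : s.card * (s.card - 1) ≤ 2 * ∑ t ∈ s, t := by
  induction s using Finset.induction_on_max with
  | empty => simp
  | insert a s ha ih =>
    have hn : a ∉ s := fun h => lt_irrefl _ (ha a h)
    have hc : s.card ≤ a := by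
      have : s ⊆ range a := fun x hx => mem_range.2 (ha x hx)
      simpa using card_le_card this
    rw [card_insert_of_notMem hn, sum_insert hn, Nat.add_sub_cancel]
    rcases Nat.eq_zero_or_pos s.card with h | h
    · rw [h]; simp
    · obtain ⟨k, hk⟩ : ∃ k, s.card = k + 1 := ⟨s.card - 1, by omega⟩
      rw [hk] at ih hc ⊢
      rw [Nat.add_sub_cancel] at ih
      nlinarith

theorem wsum {ι : Type} [Fintype ι] [DecidableEq ι] (g : ι → ℕ)
    (hg : ∀ i i', g i = g i' → g i < Fintype.card ι → i = i') :
    Fintype.card ι * (Fintype.card ι - 1) / 2 ≤ ∑ i, g i := by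
  set n := Fintype.card ι with hn
  set s : Finset ι := univ.filter fun i => g i < n with hs
  have hi : Set.InjOn g s := fun i hi i' _ h => hg i i' h (by simpa [hs] using hi)
  have h1 := range_le (s.image g)
  rw [card_image_of_injOn hi, sum_image hi] at h1
  have h2 : (sᶜ).card * n ≤ ∑ i ∈ sᶜ, g i := by
    have := card_nsmul_le_sum (sᶜ) g n fun i hi => by simpa [hs] using hi
    simpa using this
  have h3 : s.card + (sᶜ).card = n := card_add_card_compl s
  rw [← sum_add_sum_compl s]
  apply Nat.div_le_of_le_mul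
  rcases Nat.eq_zero_or_pos s.card with h | h
  · rw [h, zero_add] at h3
    rw [h3] at h2
    have : n * (n - 1) ≤ n * n := Nat.mul_le_mul_left _ (Nat.sub_le _ _)
    omega
  · obtain ⟨k, hk⟩ : ∃ k, s.card = k + 1 := ⟨s.card - 1, by omega⟩
    rw [hk] at h1 h3
    rw [Nat.add_sub_cancel] at h1
    have h4 : n - 1 = k + (sᶜ).card := by omega
    rw [h4]
    rw [← h3] at h2 ⊢
    nlinarith

theorem expand {ι J : Type} [Fintype ι] [DecidableEq ι] [Fintype J] (C : Matrix ι J ℝ)
    (V : Matrix J ι ℝ) :
    (C * V).det = ∑ f : ι → J, (∏ i, C i (f i)) * (V.submatrix f id).det := by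
  have e : C * V = fun i => ∑ j, C i j • V j := by
    ext i k
    simp [Matrix.mul_apply]
  have h := (Matrix.detRowAlternating (n := ι) (R := ℝ)).toMultilinearMap.map_sum
    (fun i j => C i j • V j)
  rw [e]
  refine h.trans (sum_congr rfl fun f _ => ?_)
  exact (Matrix.detRowAlternating (n := ι) (R := ℝ)).toMultilinearMap.map_smul_univ
    (fun i => C i (f i)) (fun i => V (f i))

end AN

theorem anT : S_AN := by
  intro ι J _ _ _ C V wt r M hr hV hw hM
  have r0 : 0 ≤ r := by linarith
  have key : ∀ f : ι → J, |(∏ i, C i (f i)) * (V.submatrix f id).det| *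
      r ^ (Fintype.card ι * (Fintype.card ι - 1) / 2) ≤
      (Fintype.card ι).factorial * ∏ i, (|C i (f i)| * r ^ wt (f i)) := by
    intro f
    by_cases hf : Function.Injective f
    · have h1 : |(V.submatrix f id).det| ≤ (Fintype.card ι).factorial := by
        have := Matrix.det_le (A := V.submatrix f id) (abv := AbsoluteValue.abs) (x := (1 : ℝ))
          fun i j => hV _ _
        simpa using this
      have h2 : r ^ (Fintype.card ι * (Fintype.card ι - 1) / 2) ≤ r ^ ∑ i, wt (f i) :=
        pow_le_pow_right₀ hr (AN.wsum _ fun i i' h h' => hf (hw _ _ h h'))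
      rw [abs_mul, prod_mul_distrib, prod_pow_eq_pow_sum, ← abs_prod]
      calc _ ≤ |∏ i, C i (f i)| * (Fintype.card ι).factorial * r ^ ∑ i, wt (f i) := by gcongr
        _ = _ := by ring
    · obtain ⟨i, i', h, hne⟩ := Function.not_injective_iff.1 hf
      have : (V.submatrix f id).det = 0 :=
        Matrix.det_zero_of_row_eq hne (by ext k; simp [h])
      rw [this, mul_zero, abs_zero, zero_mul]
      exact mul_nonneg (Nat.cast_nonneg _) (prod_nonneg fun i _ => by positivity)
  rw [AN.expand]
  calc _ ≤ (∑ f : ι → J, |(∏ i, C i (f i)) * (V.submatrix f id).det|) *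
        r ^ (Fintype.card ι * (Fintype.card ι - 1) / 2) := by
        gcongr
        exact abs_sum_le_sum_abs _ _
    _ ≤ ∑ f : ι → J, (Fintype.card ι).factorial * ∏ i, (|C i (f i)| * r ^ wt (f i)) := by
        rw [sum_mul]
        exact sum_le_sum fun f _ => key f
    _ = (Fintype.card ι).factorial * ∏ i, ∑ j, |C i j| * r ^ wt j := by
        rw [← mul_sum, Fintype.prod_sum]
    _ ≤ _ := by
        refine mul_le_mul_of_nonneg_left ?_ (Nat.cast_nonneg _)
        rw [← card_univ, ← prod_const]
        exact prod_le_prod (fun i _ => sum_nonneg fun j _ => by positivity) fun i _ => hM i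

end Pool.Agent.MP_2339ce_nt.EX
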