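import Mathlib.Analysis.Complex.ExponentialBounds
import Mathlib.Data.Nat.Choose.Cast
import Pool.Agent.MP_2339ce_nt.Q2.ESpec

/-! Project EX: binomial identities and bounds. -/

set_option autoImplicit false

namespace Pool.Agent.MP_2339ce_nt.EX

open Finset

namespace BIN

theorem low (k : ℕ) (f : ℕ → ℝ) (g : ℕ → ℝ) (c : ℝ) :
    ∑ n ∈ range k, c * (n.choose k * f n) * g n = 0 :=
  sum_eq_zero fun n hn => by rw [Nat.choose_eq_zero_of_lt (mem_range.1 hn)]; simp

theorem b1 (v k Z : ℕ) (y : ℝ) (h : v < Z) : ∑ n ∈ range Z,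
    (y ^ k * (n.choose k * (y - 1) ^ (n - k))) * (v.choose n : ℝ) = v.choose k * y ^ v := by
  rw [← sum_subset (range_subset_range.2 (Nat.succ_le_of_lt h)) fun n _ hn => by
    rw [Nat.choose_eq_zero_of_lt (n := v) (by simpa using hn)]; simp]
  rcases lt_or_ge v k with hk | hk
  · rw [Nat.choose_eq_zero_of_lt hk, Nat.cast_zero, zero_mul]
    exact sum_eq_zero fun n hn => by
      rw [Nat.choose_eq_zero_of_lt (n := n) (by have := mem_range.1 hn; omega)]; simp
  obtain ⟨w, rfl⟩ := Nat.exists_eq_add_of_le hk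
  have e : y ^ w = ∑ j ∈ range (w + 1), (y - 1) ^ j * (w.choose j : ℝ) := by
    simpa using add_pow (y - 1) 1 w
  rw [Nat.succ_eq_add_one, add_assoc, sum_range_add, low, zero_add, pow_add, e, mul_sum, mul_sum]
  refine sum_congr rfl fun j _ => ?_
  have := congrArg (Nat.cast : ℕ → ℝ) (Nat.choose_mul (n := k + w) (Nat.le_add_right k j))
  simp only [Nat.add_sub_cancel_left, Nat.cast_mul] at this ⊢
  linear_combination y ^ k * (y - 1) ^ j * this

theorem b2 (k Z : ℕ) (x u : ℝ) (hx : 0 ≤ x) (hu : 0 ≤ u) : ∑ n ∈ range Z,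
    (n.choose k * u ^ (n - k)) * (x ^ n / n.factorial) ≤ x ^ k / k.factorial * Real.exp (x * u) := by
  refine (sum_le_sum_of_subset_of_nonneg (range_subset_range.2 (Nat.le_add_left Z k))
    fun n _ _ => by positivity).trans ?_
  have h0 := low k (fun n => u ^ (n - k)) (fun n => x ^ n / n.factorial) 1
  simp only [one_mul] at h0
  rw [sum_range_add, h0, zero_add]
  refine le_trans (le_of_eq ?_) (mul_le_mul_of_nonneg_left
    (Real.sum_le_exp_of_nonneg (mul_nonneg hx hu) Z) (by positivity))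
  rw [mul_sum]
  refine sum_congr rfl fun j _ => ?_
  rw [Nat.cast_add_choose, Nat.add_sub_cancel_left, pow_add, mul_pow]
  field_simp

theorem e13 : (349189 : ℝ) ≤ Real.exp 13 := by
  have h : (2.7 : ℝ) ^ 13 ≤ Real.exp 1 ^ 13 :=
    pow_le_pow_left₀ (by norm_num) (le_trans (by norm_num) Real.exp_one_gt_d9.le) 13
  rw [← Real.exp_nat_mul, mul_one, Nat.cast_ofNat] at h
  exact le_trans (by norm_num) h

theorem b3 (g k S : ℕ) (hg : g ≤ 349189 * 4000) (h : k ≤ 4000 * S) :
    ((g * S : ℕ) : ℝ) ^ k / k.factorial ≤ Real.exp (56000 * S) := by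
  have h1 : ((g * S : ℕ) : ℝ) ≤ Real.exp 13 * (4000 * S) := by
    have : ((g * S : ℕ) : ℝ) ≤ ((349189 * 4000 * S : ℕ) : ℝ) :=
      Nat.cast_le.2 (Nat.mul_le_mul_right S hg)
    refine this.trans (le_trans (le_of_eq ?_) (mul_le_mul_of_nonneg_right e13 (by positivity)))
    push_cast; ring
  have h2 : (k : ℝ) ≤ 4000 * S := by exact_mod_cast h
  calc _ ≤ (Real.exp 13 * (4000 * S)) ^ k / k.factorial := by gcongr
    _ = Real.exp (k * 13) * ((4000 * S : ℝ) ^ k / k.factorial) := by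
      rw [mul_pow, Real.exp_nat_mul, mul_div_assoc]
    _ ≤ Real.exp (4000 * S * 13) * Real.exp (4000 * S) := by
      gcongr
      exact Real.pow_div_factorial_le_exp _ (by positivity) k
    _ = _ := by rw [← Real.exp_add]; congr 1; ring

end BIN

theorem binT : S_BIN :=
  ⟨BIN.b1, BIN.b2, fun k S h => BIN.b3 gg k S (by unfold gg; norm_num) h⟩

end Pool.Agent.MP_2339ce_nt.EX
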