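import Mathlib.LinearAlgebra.Matrix.AbsoluteValue
import Mathlib.Data.Nat.Choose.Bounds
import Pool.Agent.MP_2339ce_nt.Q2.ESpec

/-! Project EX: the interpolation determinant. -/

set_option autoImplicit false

namespace Pool.Agent.MP_2339ce_nt.EX

open Finset Real

namespace CORE

theorem map_ent {R : Type} [CommRing R] (f : R →+* ℝ) (θ a b : R) (S : ℕ)
    (i : Fin (4000 * S) × Fin 100) (ρ σ : ℕ) :
    f (ent θ a b S i ρ σ) = ent (f θ) (f a) (f b) S i ρ σ := by
  simp only [ent, map_mul, map_pow, map_natCast]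

theorem gg_ge : 400100 ≤ gg := by decide

theorem triv (hB : S_BIN) {θ a b h : ℝ} {S : ℕ} (i : Fin (4000 * S) × Fin 100) {ρ σ : ℕ}
    (h0 : 0 ≤ h) (hS : 1000 * h ≤ S) (hθ : |θ| ≤ exp h) (ha : |a| ≤ exp 28) (hb : |b| ≤ exp 28)
    (hρ : ρ < 400100) (hσ : σ < S) : |ent θ a b S i ρ σ| ≤ exp (98810 * S) := by
  have hv : ρ + gg * σ ≤ gg * S :=
    le_trans (by have := gg_ge; rw [Nat.mul_succ]; omega) (Nat.mul_le_mul_left gg hσ)
  have h1 : (((ρ + gg * σ).choose i.1 : ℕ) : ℝ) ≤ exp (56000 * S) :=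
    (Nat.choose_le_pow_div _ _).trans (le_trans (div_le_div_of_nonneg_right
      (pow_le_pow_left₀ (Nat.cast_nonneg _) (Nat.cast_le.2 hv) _) (Nat.cast_nonneg _))
      (hB.2.2 i.1 S i.1.2.le))
  have hρ' : (ρ : ℝ) ≤ 400100 := by exact_mod_cast hρ.le
  have hS0 : (0 : ℝ) ≤ S := Nat.cast_nonneg _
  have h2 : |θ ^ ρ * b ^ σ * a ^ (S - σ)| ≤ exp (4281 / 10 * S) := by
    rw [abs_mul, abs_mul, abs_pow, abs_pow, abs_pow]
    refine le_trans (mul_le_mul (mul_le_mul (pow_le_pow_left₀ (abs_nonneg _) hθ _)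
      (pow_le_pow_left₀ (abs_nonneg _) hb _) (by positivity) (by positivity))
      (pow_le_pow_left₀ (abs_nonneg _) ha _) (by positivity) (by positivity)) ?_
    rw [← exp_nat_mul, ← exp_nat_mul, ← exp_nat_mul, ← exp_add, ← exp_add, exp_le_exp,
      Nat.cast_sub hσ.le]
    nlinarith [mul_le_mul_of_nonneg_right hρ' h0]
  have h3 : |θ ^ ρ * b ^ σ * a ^ (S - σ)| ^ (i.2 : ℕ) ≤ exp (42810 * S) := by
    refine (pow_le_pow_left₀ (abs_nonneg _) h2 _).trans ?_
    rw [← exp_nat_mul, exp_le_exp]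
    have : ((i.2 : ℕ) : ℝ) ≤ 100 := by exact_mod_cast i.2.2.le
    nlinarith [mul_le_mul_of_nonneg_right this hS0]
  unfold ent
  rw [abs_mul, abs_pow, Nat.abs_cast]
  refine (mul_le_mul h1 h3 (by positivity) (by positivity)).trans ?_
  rw [← exp_add, exp_le_exp]
  linarith

theorem fact_le {S : ℕ} (hS : 1 ≤ S) :
    (((400000 * S).factorial : ℕ) : ℝ) ≤ exp (10000 * S) ^ (400000 * S) := by
  have h1 : (1 : ℝ) ≤ S := by exact_mod_cast hS
  have h2 : ((400000 * S : ℕ) : ℝ) ≤ exp (10000 * S) := by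
    have := add_one_le_exp (5000 * (S : ℝ))
    have e : exp (10000 * (S : ℝ)) = exp (5000 * S) * exp (5000 * S) := by
      rw [← exp_add]; congr 1; ring
    rw [e]
    push_cast
    nlinarith
  refine le_trans ?_ (pow_le_pow_left₀ (Nat.cast_nonneg _) h2 _)
  exact_mod_cast Nat.factorial_le_pow _

theorem fin {S : ℕ} (hS : 1 ≤ S) {x y : ℝ} (hy0 : 0 ≤ y) (h : 1 ≤ x * y)
    (hx : x * exp 3 ^ (400000 * S * (400000 * S - 1) / 2) ≤
      (400000 * S).factorial * exp (232000 * S) ^ (400000 * S))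
    (hy : y ≤ ((400000 * S).factorial * exp (98810 * S) ^ (400000 * S)) ^ 3) : False := by
  have hf := fact_le hS
  have e : 400000 * S * (400000 * S - 1) / 2 = 200000 * S * (400000 * S - 1) := by
    rw [show 400000 * S * (400000 * S - 1) = 2 * (200000 * S * (400000 * S - 1)) by ring,
      Nat.mul_div_cancel_left _ (by norm_num)]
  rw [e] at hx
  generalize (((400000 * S).factorial : ℕ) : ℝ) = F at hf hx hy
  have k1 := hx.trans (mul_le_mul_of_nonneg_right hf (by positivity))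
  have hF : 0 ≤ F * exp (98810 * S) ^ (400000 * S) := by
    by_contra hn
    have := Odd.pow_neg (show Odd 3 by decide) (not_le.1 hn)
    linarith
  have k2 := hy.trans (pow_le_pow_left₀ hF (mul_le_mul_of_nonneg_right hf (by positivity)) 3)
  have k3 : exp 3 ^ (200000 * S * (400000 * S - 1)) ≤
      x * exp 3 ^ (200000 * S * (400000 * S - 1)) * y := by
    rw [mul_right_comm x]
    exact le_mul_of_one_le_left (by positivity) h
  have k4 := k3.trans (mul_le_mul k1 k2 hy0 (by positivity))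
  simp only [← exp_nat_mul, ← exp_add, exp_le_exp] at k4
  rw [Nat.cast_mul, Nat.cast_sub (by omega)] at k4
  push_cast at k4
  have h1 : (1 : ℝ) ≤ S := by exact_mod_cast hS
  nlinarith

end CORE

open CORE in
theorem coreT : R_CORE := by
  intro hZ hM hB hU R _ φ θ a b h hL h2 hθ ha hb ha1 hb1 hθ0 hθ1 hτ
  obtain ⟨S, hS1, hS2⟩ : ∃ S : ℕ, 1000 * h ≤ S ∧ (S : ℝ) ≤ 1000 * h + 1 :=
    ⟨⌈1000 * h⌉₊, Nat.le_ceil _, (Nat.ceil_lt_add_one (by linarith)).le⟩
  have hS : 1 ≤ S := by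
    have : (1 : ℝ) ≤ S := by linarith
    exact_mod_cast this
  have ha0 : φ 0 a ≠ 0 := by linarith
  have hb0 : φ 0 b ≠ 0 := by linarith
  obtain ⟨f, hf⟩ := hM (Fin (4000 * S) × Fin 100) (Fin 400100 × Fin S)
    (Matrix.of fun i c => ent (φ 0 θ) (φ 0 a) (φ 0 b) S i c.1 c.2) (fun c hc => by
      have := hZ (φ 0 θ) (φ 0 b / φ 0 a) gg (4000 * S) 100 400000 S
        (fun i => c i * (φ 0 a ^ S) ^ (i.2 : ℕ)) hθ0 hθ1 (div_ne_zero hb0 ha0)
        (le_trans (by norm_num) gg_ge) (by omega) (fun ρ σ hρ hσ => by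
          refine Eq.trans (sum_congr rfl fun i _ => ?_) (congrFun hc (⟨ρ, hρ⟩, ⟨σ, hσ⟩))
          have e : φ 0 θ ^ ρ * φ 0 b ^ σ * φ 0 a ^ (S - σ) =
              φ 0 a ^ S * (φ 0 θ ^ ρ * (φ 0 b / φ 0 a) ^ σ) := by
            rw [pow_sub₀ _ ha0 hσ.le, div_pow]
            field_simp
          show _ = c i * ent (φ 0 θ) (φ 0 a) (φ 0 b) S i ρ σ
          unfold ent
          rw [e, mul_pow (φ 0 a ^ S)]
          ring)
      funext i
      exact (mul_eq_zero.1 (congrFun this i)).resolve_right (pow_ne_zero _ (pow_ne_zero _ ha0)))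
  have hd : ∀ j, φ j (Matrix.of fun i c => ent θ a b S i (f c).1 (f c).2).det =
      (Matrix.of fun i c => ent (φ j θ) (φ j a) (φ j b) S i (f c).1 (f c).2).det := fun j => by
    rw [RingHom.map_det]
    congr 1
    ext i c
    exact map_ent _ _ _ _ _ _ _ _
  have h1 := hL (Matrix.of fun i c => ent θ a b S i (f c).1 (f c).2).det (by rw [hd]; exact hf)
  have hu := hU (φ 0 θ) (φ 0 a) (φ 0 b) h S (fun c => (f c).1) (fun c => (f c).2) h2 hS2 hS ha1
    ((le_abs_self _).trans (ha 0)) hb1 ((le_abs_self _).trans (hb 0)) hθ0 hτ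
    (fun c => lt_of_lt_of_le (f c).1.2 gg_ge) (fun c => (f c).2.2)
  have ht : ∀ j, |φ j (Matrix.of fun i c => ent θ a b S i (f c).1 (f c).2).det| ≤
      (400000 * S).factorial * exp (98810 * S) ^ (400000 * S) := fun j => by
    rw [hd]
    have := Matrix.det_le (abv := AbsoluteValue.abs)
      (A := Matrix.of fun i c => ent (φ j θ) (φ j a) (φ j b) S i (f c).1 (f c).2)
      (fun i c => triv hB i (by linarith) hS1 (hθ j) (ha j) (hb j) (f c).1.2 (f c).2.2)
    rw [Fintype.card_prod, Fintype.card_fin, Fintype.card_fin, nsmul_eq_mul,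
      show 4000 * S * 100 = 400000 * S by ring] at this
    exact this
  rw [Fin.prod_univ_succ] at h1
  rw [← hd] at hu
  refine fin hS (prod_nonneg fun _ _ => abs_nonneg _) h1 hu ?_
  have := prod_le_prod (s := univ) (fun _ _ => abs_nonneg _) (fun (j : Fin 3) _ => ht j.succ)
  rwa [prod_const, card_univ, Fintype.card_fin] at this

end Pool.Agent.MP_2339ce_nt.EX
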