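import Pool.Agent.MP_2339ce_nt.Q2.ESpec

/-! Project EX, row DESC: descent to a small base point. -/

set_option autoImplicit false

namespace Pool.Agent.MP_2339ce_nt.EX

namespace DESC

theorem step (p q T U X Y : ℕ) (hT : (T : ℤ) ^ 2 = p * q * U ^ 2 + 1) :
    zs (p * q) (p * Y) X =
      zs (p * q) T U * zs (p * q) (p * ((T : ℤ) * Y - U * q * X)) ((T : ℤ) * X - U * p * Y) := by
  ext
  · simp only [zs, Zsqrtd.re_mul]
    push_cast
    linear_combination (-(p : ℤ) * Y) * hT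
  · simp only [zs, Zsqrtd.im_mul]
    linear_combination (-(X : ℤ)) * hT

end DESC

theorem descT : S_DESC := by
  intro p q M T U X
  induction X using Nat.strong_induction_on with
  | _ X ih =>
  intro Y hp hM hU hT hY
  by_cases h0 : 2 * (T + 1) * X ^ 2 ≤ U ^ 2 * (p * M)
  · exact ⟨0, 0, X, Y, by omega, hY, h0, by simp⟩
  have hT' : (T : ℤ) ^ 2 = p * q * U ^ 2 + 1 := by exact_mod_cast hT
  have hY' : (p : ℤ) * Y ^ 2 = q * X ^ 2 + M := by exact_mod_cast hY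
  have h0' : (U : ℤ) ^ 2 * (p * M) < 2 * (T + 1) * X ^ 2 := by exact_mod_cast not_le.1 h0
  have hp' : (0 : ℤ) < p := by exact_mod_cast hp
  have hpos : (0 : ℤ) < U ^ 2 * (p * M) := by positivity
  have hT1 : (1 : ℤ) ≤ T := by
    have : T ≠ 0 := by
      rintro rfl
      simp at hT
    exact_mod_cast Nat.one_le_iff_ne_zero.2 this
  have hs := DESC.step p q T U X Y hT'
  have hn : (p : ℤ) * ((T : ℤ) * Y - U * q * X) ^ 2 = q * ((T : ℤ) * X - U * p * Y) ^ 2 + M := by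
    linear_combination ((p : ℤ) * Y ^ 2 - q * X ^ 2) * hT' + hY'
  have hy : (0 : ℤ) ≤ (T : ℤ) * Y - U * q * X := by
    have h1 : ((U : ℤ) * q * X) ^ 2 ≤ ((T : ℤ) * Y) ^ 2 := by
      refine le_of_mul_le_mul_left ?_ hp'
      have h2 : (p : ℤ) * ((T : ℤ) * Y) ^ 2 =
          p * ((U : ℤ) * q * X) ^ 2 + (q * X ^ 2 + T ^ 2 * M) := by
        linear_combination (T : ℤ) ^ 2 * hY' + (q : ℤ) * X ^ 2 * hT'
      have h3 : (0 : ℤ) ≤ q * X ^ 2 + T ^ 2 * M := by positivity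
      linarith
    have := (pow_le_pow_iff_left₀ (by positivity) (by positivity) two_ne_zero).1 h1
    linarith
  have hW : ((U : ℤ) * p * Y) ^ 2 = (T ^ 2 - 1) * X ^ 2 + U ^ 2 * (p * M) := by
    linear_combination (U : ℤ) ^ 2 * p * hY' - (X : ℤ) ^ 2 * hT'
  obtain ⟨y, hyy⟩ := Int.eq_ofNat_of_zero_le hy
  rw [hyy] at hs hn
  by_cases hx : (0 : ℤ) ≤ (T : ℤ) * X - U * p * Y
  · obtain ⟨x, hxx⟩ := Int.eq_ofNat_of_zero_le hx
    have h1 : (((T : ℤ) - 1) * X) ^ 2 < ((U : ℤ) * p * Y) ^ 2 := by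
      have : (0 : ℤ) ≤ (T - 1) * X ^ 2 := mul_nonneg (by linarith) (by positivity)
      nlinarith
    have h2 : ((T : ℤ) - 1) * X < (U : ℤ) * p * Y := lt_of_pow_lt_pow_left₀ 2 (by positivity) h1
    have h3 : x < X := by
      have : (x : ℤ) < X := by linarith
      exact_mod_cast this
    rw [hxx] at hs hn
    obtain ⟨m, sg, x', y', a, b, c, d⟩ := ih x h3 y hp hM hU hT (by exact_mod_cast hn)
    exact ⟨m + 1, sg, x', y', a, b, c, by rw [hs, d, pow_succ']; ring⟩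
  · obtain ⟨x, hxx⟩ := Int.eq_ofNat_of_zero_le (show (0 : ℤ) ≤ U * p * Y - (T : ℤ) * X by linarith)
    have hx2 : (T : ℤ) * X - U * p * Y = -x := by linarith
    have h1 : ((U : ℤ) * p * Y) ^ 2 < (((T : ℤ) + 1) * X) ^ 2 := by nlinarith
    have h2 : (U : ℤ) * p * Y < ((T : ℤ) + 1) * X := lt_of_pow_lt_pow_left₀ 2 (by positivity) h1
    have h3 : (X : ℤ) = -T * x + U * p * y := by
      rw [← hxx, ← hyy]
      linear_combination (-(X : ℤ)) * hT'
    have h4 : ((T : ℤ) + 1) * x ≤ U * p * y := by linarith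
    have h5 : (((T : ℤ) + 1) * x) ^ 2 ≤ ((U : ℤ) * p * y) ^ 2 :=
      pow_le_pow_left₀ (by positivity) h4 2
    rw [hx2] at hs hn
    have h6 : ((U : ℤ) * p * y) ^ 2 = (T ^ 2 - 1) * x ^ 2 + U ^ 2 * (p * M) := by
      linear_combination (U : ℤ) ^ 2 * p * hn - (x : ℤ) ^ 2 * hT'
    refine ⟨1, 1, x, y, le_rfl, ?_, ?_, ?_⟩
    · have : (p : ℤ) * y ^ 2 = q * x ^ 2 + M := by linear_combination hn
      exact_mod_cast this
    · have : 2 * ((T : ℤ) + 1) * x ^ 2 ≤ U ^ 2 * (p * M) := by nlinarith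
      exact_mod_cast this
    · rw [hs, pow_one]
      congr 2
      push_cast
      ring

end Pool.Agent.MP_2339ce_nt.EX
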