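import Mathlib.NumberTheory.LegendreSymbol.JacobiSymbol
import Pool.Agent.MP_2339ce_nt.Q2.ESpec

/-! Project EX: the Jacobi symbol test never rejects a square. -/

set_option autoImplicit false

namespace Pool.Agent.MP_2339ce_nt.EX

namespace JAC

theorem step (f a n s : ℕ) : jac (f + 1) a n s =
    br (br (jac f (n % a) a (s + a / 2 * (n / 2))) (Nat.beq (s % 2) 1) (Nat.beq a 1))
      (jac f (a / 2) n (s + 40 >>> (n % 8))) (Nat.beq (a % 2) 0) := rfl

theorem beq_f {a b : ℕ} (h : a ≠ b) : Nat.beq a b = false := by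
  cases e : Nat.beq a b
  · rfl
  · exact absurd (Nat.eq_of_beq_eq_true e) h

theorem inv (f : ℕ) : ∀ a n s : ℕ, n % 2 = 1 → jac f a n s = true →
    (-1) ^ s * jacobiSym a n = -1 := by
  induction f with
  | zero => intro a n s _ h; exact absurd h Bool.false_ne_true
  | succ f ih =>
    intro a n s hn h
    rw [step] at h
    by_cases h2 : a % 2 = 0
    · rw [h2] at h
      have k := ih _ _ _ hn h
      have e := jacobiSym.even_odd (a := (a : ℤ)) (b := n) (by omega) hn
      rw [pow_add, show ((a / 2 : ℕ) : ℤ) = (a : ℤ) / 2 by omega] at k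
      have hc : n % 8 = 1 ∨ n % 8 = 3 ∨ n % 8 = 5 ∨ n % 8 = 7 := by omega
      rw [← e]
      refine Eq.trans ?_ k
      rcases hc with u | u | u | u <;> rw [u] <;> norm_num [Nat.shiftRight_eq_div_pow]
    · rw [beq_f h2] at h
      by_cases h1 : a = 1
      · subst h1
        have h' : Nat.beq (s % 2) 1 = true := h
        have := Nat.eq_of_beq_eq_true h'
        rw [Nat.cast_one, jacobiSym.one_left, mul_one, (Nat.odd_iff.2 this).neg_one_pow]
      · rw [beq_f h1] at h
        have k := ih _ _ _ (by omega) h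
        rw [jacobiSym.quadratic_reciprocity (Nat.odd_iff.2 (by omega)) (Nat.odd_iff.2 hn),
          jacobiSym.mod_left n a, ← mul_assoc, ← pow_add]
        exact_mod_cast k

end JAC

theorem jacT : S_JAC := by
  intro f a n w hn hw
  cases h : jac f a n 0
  · rfl
  · have k := JAC.inv f a n 0 hn h
    rw [pow_zero, one_mul, jacobiSym.mod_left' hw, jacobiSym.pow_left] at k
    have := sq_nonneg (jacobiSym w n)
    omega

end Pool.Agent.MP_2339ce_nt.EX
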