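import Pool.Agent.MP_2339ce_nt.Q2.ESpec
import Pool.Agent.MP_2339ce_nt.DQ.TSR2
import Pool.Agent.MP_2339ce_nt.DQ.TSR3

set_option autoImplicit false

namespace Pool.Agent.MP_2339ce_nt.EX

open DQ.SR

namespace LIST

theorem gl2_mem (M i : ℕ) (h : M % (i + 1) ^ 2 = 0) (n : ℕ) (hi : i < n) : i + 1 ∈ gl2 M n := by
  induction n with
  | zero => omega
  | succ n ih =>
    show _ ∈ @Bool.rec (fun _ => List ℕ) (gl2 M n) _ _
    rw [TSR2.brec]
    simp only [Nat.beq_eq]
    by_cases e : i = n
    · subst e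
      rw [if_pos (show Nat.mod M (Nat.pow (Nat.succ i) 2) = 0 from h)]
      exact List.mem_cons_self
    · split_ifs
      · exact List.mem_cons_of_mem _ (ih (by omega))
      · exact ih (by omega)

theorem alb_mem {k : ℕ → Bool} {Y v : ℕ} {L : List ℕ} (h : alb k Y L = true) (hv : v ∈ L)
    (hY : v ≤ Y) : k v = true := by
  have := all_rec (fun v => br true (k v) (Nat.ble v Y)) L h v hv
  rwa [Nat.ble_eq_true_of_le hY] at this

end LIST

theorem listT : S_LIST := by
  intro k p q M X n x y hM h h0 he hx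
  obtain ⟨h1, h2⟩ := rec_and h
  obtain ⟨h3, h4⟩ := rec_and h2
  have h5 : M + 1 ≤ (n + 1) ^ 2 := Nat.le_of_ble_eq_true h1
  rcases Nat.eq_zero_or_pos x with rfl | hx1
  · have e : M = p * y ^ 2 := by omega
    have hp : 0 < p := Nat.pos_of_mul_pos_right (e ▸ hM)
    have e1 : Nat.beq (Nat.mod M p) 0 = true := by
      rw [Nat.beq_eq, e]
      exact Nat.mul_mod_right p _
    have e2 : nsq (Nat.div M p) = false := by
      rw [show Nat.div M p = y ^ 2 from e ▸ Nat.mul_div_cancel_left _ hp]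
      exact Bool.eq_false_iff.2 (nsq_sq y)
    rw [e1, e2] at h3
    exact h3
  have hy : 1 ≤ y := by
    rcases Nat.eq_zero_or_pos y with rfl | h
    · have : p * 0 ^ 2 = 0 := by ring
      omega
    · exact h
  have hY : x ^ 2 + 3 ≤ X * X + 3 := by
    rw [Nat.pow_two]
    exact Nat.add_le_add_right (Nat.mul_le_mul hx hx) 3
  have key := fun f => TSR2.river_mem (a := 1) (K := p + q) (d := x ^ 2 + 3) (gs := gl2 M n)
    Nat.one_pos (Nat.one_mul _).symm (fun g _ hg => by
      have k1 : g * g ≤ M := Nat.le_of_dvd hM hg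
      have k2 : 0 < g := Nat.pos_of_mul_pos_left (Nat.pos_of_dvd_of_pos hg hM)
      have k3 : g < n + 1 := by
        by_contra hn
        have : (n + 1) * (n + 1) ≤ g * g := Nat.mul_le_mul (by omega) (by omega)
        rw [Nat.pow_two] at h5
        omega
      obtain ⟨i, rfl⟩ : ∃ i, g = i + 1 := ⟨g - 1, by omega⟩
      refine LIST.gl2_mem M i ?_ n (by omega)
      rw [Nat.pow_two]
      exact Nat.mod_eq_zero_of_dvd hg) hM hx f p (p + q) q 0 1 y x [] hy hx1
    (by omega) (by ring) (by push_cast; nlinarith [sq_nonneg ((p : ℤ) - q)])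
  rcases key _ with m | m
  · exact absurd (LIST.alb_mem h4 m (Nat.zero_le _)) (by rw [h0]; exact Bool.false_ne_true)
  · exact LIST.alb_mem h4 m hY

end Pool.Agent.MP_2339ce_nt.EX
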