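import Pool.Agent.MP_2339ce_nt.Q2.ESpec

/-! Project EX, row LV: the norm of a nonzero element of the biquadratic order. -/

set_option autoImplicit false

noncomputable section

namespace Pool.Agent.MP_2339ce_nt.EX

namespace LV

theorem nsq_zero {D : ℕ} (h : NSq D) {u v : ℤ} (e : u ^ 2 = v ^ 2 * D) : v = 0 := by
  by_contra hv
  have h1 : v ∣ u := (Int.pow_dvd_pow_iff (by norm_num : (2 : ℕ) ≠ 0)).1 ⟨D, e⟩
  obtain ⟨k, rfl⟩ := h1
  have h2 : k ^ 2 = (D : ℤ) := by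
    have h3 : v ^ 2 * k ^ 2 = v ^ 2 * D := by rw [← e]; ring
    exact mul_left_cancel₀ (pow_ne_zero 2 hv) h3
  apply h k.natAbs
  have h4 : ((k.natAbs ^ 2 : ℕ) : ℤ) = D := by
    rw [← h2]; push_cast; exact sq_abs k
  exact_mod_cast h4

theorem rep (P R : ℤ) (F : MvPolynomial (Fin 2) ℤ) : ∃ a b c d : ℤ, ∀ A B : ℝ,
    A ^ 2 = P → B ^ 2 = R → MvPolynomial.eval₂Hom (Int.castRingHom ℝ) ![A, B] F =
      a + b * A + c * B + d * (A * B) := by
  induction F using MvPolynomial.induction_on with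
  | C a => exact ⟨a, 0, 0, 0, fun A B _ _ => by simp⟩
  | add F G hF hG =>
    obtain ⟨a, b, c, d, h⟩ := hF
    obtain ⟨a', b', c', d', h'⟩ := hG
    refine ⟨a + a', b + b', c + c', d + d', fun A B hA hB => ?_⟩
    rw [map_add, h A B hA hB, h' A B hA hB]
    push_cast
    ring
  | mul_X F n hF =>
    obtain ⟨a, b, c, d, h⟩ := hF
    rcases (by revert n; decide : n = 0 ∨ n = 1) with rfl | rfl
    · refine ⟨b * P, a, d * P, c, fun A B hA hB => ?_⟩
      rw [map_mul, h A B hA hB, MvPolynomial.eval₂Hom_X']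
      push_cast
      rw [← hA]
      show _ * A = _
      ring
    · refine ⟨c * R, d * R, a, b, fun A B hA hB => ?_⟩
      rw [map_mul, h A B hA hB, MvPolynomial.eval₂Hom_X']
      push_cast
      rw [← hB]
      show _ * B = _
      ring

theorem zero_of (p q r : ℕ) (hp : 0 < p) (h1 : NSq (p * q)) (h2 : NSq (p * r))
    (h3 : NSq (q * r)) (a b c d P R : ℤ) (hP : P = p * q) (hR : R = p * r)
    (h : (a ^ 2 + c ^ 2 * R - P * (b ^ 2 + d ^ 2 * R)) ^ 2 =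
      (2 * a * c - 2 * P * b * d) ^ 2 * R) : a = 0 ∧ b = 0 ∧ c = 0 ∧ d = 0 := by
  have hP' : ((p * q : ℕ) : ℤ) = P := by rw [hP]; push_cast; ring
  have hR' : ((p * r : ℕ) : ℤ) = R := by rw [hR]; push_cast; ring
  have hp' : (p : ℤ) ≠ 0 := by exact_mod_cast hp.ne'
  have hP0 : P ≠ 0 := fun e => h1 0 (by rw [← hP'] at e; exact_mod_cast e.symm)
  have hR0 : R ≠ 0 := fun e => h2 0 (by rw [← hR'] at e; exact_mod_cast e.symm)
  have e1 := nsq_zero h2 (hR' ▸ h)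
  have g2 : (a ^ 2 + b ^ 2 * P - R * (c ^ 2 + d ^ 2 * P)) ^ 2 =
      (2 * a * b - 2 * R * c * d) ^ 2 * P := by linear_combination h
  have e2 := nsq_zero h1 (hP' ▸ g2)
  have g3 : (a ^ 2 + d ^ 2 * (P * R) - b ^ 2 * P - c ^ 2 * R) ^ 2 =
      (2 * a * d - 2 * b * c) ^ 2 * (P * R) := by linear_combination h
  have g4 : (a ^ 2 + d ^ 2 * (P * R) - b ^ 2 * P - c ^ 2 * R) ^ 2 =
      (p * (2 * a * d - 2 * b * c)) ^ 2 * ((q * r : ℕ) : ℤ) := by
    rw [g3, hP, hR]; push_cast; ring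
  have e3 := (mul_eq_zero.1 (nsq_zero h3 g4)).resolve_left hp'
  rw [e1] at h
  rw [e2] at g2
  rw [e3] at g3
  have k1 := pow_eq_zero_iff (two_ne_zero) |>.1 (h.trans (by ring))
  have k2 := pow_eq_zero_iff (two_ne_zero) |>.1 (g2.trans (by ring))
  have k3 := pow_eq_zero_iff (two_ne_zero) |>.1 (g3.trans (by ring))
  have hab : a ^ 2 = b ^ 2 * ((p * q : ℕ) : ℤ) := by rw [hP']; linarith
  have hb : b = 0 := nsq_zero h1 hab
  have ha : a = 0 := pow_eq_zero_iff (two_ne_zero) |>.1 (hab.trans (by rw [hb]; ring))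
  subst ha hb
  have hc : c ^ 2 * R = 0 := by linarith
  have hd : d ^ 2 * (P * R) = 0 := by linarith
  exact ⟨rfl, rfl, pow_eq_zero_iff (two_ne_zero) |>.1 ((mul_eq_zero.1 hc).resolve_right hR0),
    pow_eq_zero_iff (two_ne_zero) |>.1 ((mul_eq_zero.1 hd).resolve_right (mul_ne_zero hP0 hR0))⟩

end LV

theorem lvT : S_LV := by
  intro p q r A B hp hA hB h1 h2 h3 F j hj
  obtain ⟨a, b, c, d, h⟩ := LV.rep (p * q) (p * r) F
  have hA' : A ^ 2 = ((p * q : ℤ) : ℝ) := by rw [hA]; push_cast; ring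
  have hB' : B ^ 2 = ((p * r : ℤ) : ℝ) := by rw [hB]; push_cast; ring
  have hA2 : (-A) ^ 2 = ((p * q : ℤ) : ℝ) := by rw [neg_sq, hA']
  have hB2 : (-B) ^ 2 = ((p * r : ℤ) : ℝ) := by rw [neg_sq, hB']
  have f0 : ev A B 0 F = _ := h A B hA' hB'
  have f1 : ev A B 1 F = _ := h A (-B) hA' hB2
  have f2 : ev A B 2 F = _ := h (-A) B hA2 hB'
  have f3 : ev A B 3 F = _ := h (-A) (-B) hA2 hB2
  generalize hP : (p * q : ℤ) = P at hA'
  generalize hR : (p * r : ℤ) = R at hB'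
  have hN : ∏ i, |ev A B i F| = |(((a ^ 2 + c ^ 2 * R - P * (b ^ 2 + d ^ 2 * R)) ^ 2 -
      (2 * a * c - 2 * P * b * d) ^ 2 * R : ℤ) : ℝ)| := by
    rw [Fin.prod_univ_four, ← abs_mul, ← abs_mul, ← abs_mul, f0, f1, f2, f3]
    push_cast
    rw [← hA', ← hB']
    exact congrArg _ (by ring)
  rw [hN, ← Int.cast_abs]
  have hne : (a ^ 2 + c ^ 2 * R - P * (b ^ 2 + d ^ 2 * R)) ^ 2 -
      (2 * a * c - 2 * P * b * d) ^ 2 * R ≠ 0 := by
    intro e
    obtain ⟨rfl, rfl, rfl, rfl⟩ :=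
      LV.zero_of p q r hp h1 h2 h3 a b c d P R hP.symm hR.symm (sub_eq_zero.1 e)
    apply hj
    rcases (by decide : ∀ i : Fin 4, i = 0 ∨ i = 1 ∨ i = 2 ∨ i = 3) j with rfl | rfl | rfl | rfl
    · rw [f0]; simp
    · rw [f1]; simp
    · rw [f2]; simp
    · rw [f3]; simp
  exact_mod_cast Int.one_le_abs hne

end Pool.Agent.MP_2339ce_nt.EX

end
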