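import Mathlib.LinearAlgebra.Matrix.ToLinearEquiv
import Mathlib.LinearAlgebra.Matrix.DotProduct
import Pool.Agent.MP_2339ce_nt.Q2.ESpec

/-! Project EX: a matrix with independent rows has a nonzero maximal minor. -/

set_option autoImplicit false

namespace Pool.Agent.MP_2339ce_nt.EX

open Finset Matrix

theorem mnT : S_MN := by
  intro ι κ _ _ _ A h
  classical
  by_contra hc
  push Not at hc
  have e : (A * Aᵀ).det = ∑ f : ι → κ, (A.submatrix id f).det * ∏ i, A i (f i) := by
    simp only [det_apply', mul_apply, prod_univ_sum, mul_sum, Fintype.piFinset_univ,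
      transpose_apply, submatrix_apply, id, sum_mul, prod_mul_distrib, mul_assoc]
    rw [sum_comm]
  simp only [hc, zero_mul, sum_const_zero] at e
  obtain ⟨c, h0, h1⟩ := exists_vecMul_eq_zero_iff.2 e
  refine h0 (h c (dotProduct_self_eq_zero.1 ?_))
  have := congrArg (· ⬝ᵥ c) h1
  simp only [zero_dotProduct] at this
  rwa [← vecMul_vecMul, ← dotProduct_mulVec, mulVec_transpose] at this

end Pool.Agent.MP_2339ce_nt.EX
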