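import Mathlib.RingTheory.Ideal.Quotient.Defs
import Pool.Agent.MP_2339ce_nt.Q2.ESpec

/-! Project EX, row RUN: soundness of the modular sieve. -/

set_option autoImplicit false

namespace Pool.Agent.MP_2339ce_nt.EX

namespace RUN

theorem br_eq (x y b : Bool) : br x y b = if b = true then y else x := by cases b <;> rfl

theorem br_and {p r : Bool} (h : br false r p = true) : p = true ∧ r = true := by
  cases p
  · exact Bool.noConfusion (show false = true from h)
  · exact ⟨rfl, h⟩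

theorem allz_dvd {L : List ℕ} (h : allz L = true) {s : ℕ} (hs : s ∈ L) : gg ∣ s := by
  induction L with
  | nil => cases hs
  | cons a L ih =>
    obtain ⟨h1, h2⟩ := br_and (show br false (allz L) (Nat.beq (a % gg) 0) = true from h)
    rcases List.mem_cons.1 hs with rfl | hs
    · exact Nat.dvd_of_mod_eq_zero (Nat.eq_of_beq_eq_true h1)
    · exact ih h2 hs

theorem rec_mem (s M : ℕ) (r : List ℕ) (q z : ℕ) (h : z ∈ r ∨ ∃ j, j < q ∧ z = s + j * M) :
    z ∈ @Nat.rec (fun _ => List ℕ) r (fun j r' => Nat.add s (Nat.mul j M) :: r') q := by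
  induction q with
  | zero =>
    rcases h with h | ⟨j, hj, _⟩
    · exact h
    · omega
  | succ q ih =>
    rcases h with h | ⟨j, hj, e⟩
    · exact List.mem_cons_of_mem _ (ih (Or.inl h))
    · rcases Nat.lt_succ_iff_lt_or_eq.1 hj with c | rfl
      · exact List.mem_cons_of_mem _ (ih (Or.inr ⟨j, c, e⟩))
      · exact e ▸ List.mem_cons_self

theorem lft_mem {M q s j : ℕ} {L : List ℕ} (hs : s ∈ L) (hj : j < q) : s + j * M ∈ lft M q L := by
  induction L with
  | nil => cases hs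
  | cons a L ih =>
    refine rec_mem a M (lft M q L) q _ ?_
    rcases List.mem_cons.1 hs with rfl | hs
    · exact Or.inr ⟨j, hj, rfl⟩
    · exact Or.inl (ih hs)

theorem flt_mem {D P N c d k o a b T U s : ℕ} {L : List ℕ} (hs : s ∈ L)
    (h : up D P (fun _ u => dr P N c d k u) 60 b a T U (s % o) ≠ true) :
    s ∈ flt D P N c d k o a b T U L := by
  induction L with
  | nil => cases hs
  | cons t L ih =>
    show s ∈ @Bool.rec (fun _ => List ℕ) (t :: flt D P N c d k o a b T U L)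
      (flt D P N c d k o a b T U L) (up D P (fun _ u => dr P N c d k u) 60 b a T U (t % o))
    rcases List.mem_cons.1 hs with rfl | hs
    · rw [Bool.eq_false_iff.2 h]
      exact List.mem_cons_self
    · cases up D P (fun _ u => dr P N c d k u) 60 b a T U (t % o)
      · exact List.mem_cons_of_mem _ (ih hs)
      · exact ih hs

theorem zs_dvd {D P : ℕ} {a b a' b' : ℤ} (h1 : a' ≡ a [ZMOD P]) (h2 : b' ≡ b [ZMOD P]) :
    (P : ℤ√(D : ℤ)) ∣ zs D a b - zs D a' b' := by
  obtain ⟨i, hi⟩ := h1.dvd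
  obtain ⟨j, hj⟩ := h2.dvd
  refine ⟨⟨i, j⟩, Zsqrtd.ext ?_ ?_⟩ <;> simp [zs, hi, hj]

theorem im_dvd {D P : ℕ} {a b a' b' : ℤ} (h : (P : ℤ√(D : ℤ)) ∣ zs D a b - zs D a' b') :
    (P : ℤ) ∣ b - b' := by
  obtain ⟨w, hw⟩ := h
  exact ⟨w.im, by simpa [zs] using congrArg Zsqrtd.im hw⟩

theorem mod_eq (a P : ℕ) : ((a % P : ℕ) : ℤ) ≡ a [ZMOD P] := by
  rw [Int.natCast_mod]
  exact Int.mod_modEq _ _

/-- the Jacobi test fails on a true solution -/
theorem jac_false (hJ : S_JAC) {P N p c e X u : ℕ} (hP : P % 2 = 1) (hX : X ^ 2 + N = p * e)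
    (hc : H N e c) (hu : (P : ℤ) ∣ (u : ℤ) ^ 2 - X ^ 2) :
    jac 60 ((p * c % P * (u * u + N) + p * p * N * (P - 1) % P) % P) P 0 = false := by
  obtain ⟨z, hz⟩ := hc
  refine hJ _ _ _ (p * z) hP ((mod_eq _ _).trans ?_)
  obtain ⟨Q, rfl⟩ : ∃ Q, P = Q + 1 := ⟨P - 1, by omega⟩
  push_cast [-Int.natCast_mod]
  refine (((mod_eq _ _).mul_right _).add (mod_eq _ _)).trans (Int.modEq_iff_dvd.2 ?_)
  obtain ⟨i, hi⟩ := hu
  have a1 : (X : ℤ) ^ 2 + N = p * e := by exact_mod_cast hX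
  have a2 : (z : ℤ) ^ 2 + N = c * e := by exact_mod_cast hz
  refine ⟨-(p * c * i) - p * p * N, ?_⟩
  push_cast at hi ⊢
  linear_combination p * p * a2 - p * c * hi - p * c * a1

end RUN

open RUN

theorem runT : R_RUN := by
  intro hJ hU N p D c d T U x y sg e m X Y gd f w M L hX hc hd hm
  induction f generalizing w M L with
  | zero => exact fun h => Bool.noConfusion (show false = true from h)
  | succ f ih =>
    rintro h ⟨s, hs, k, hk⟩
    have h' : br (rn2 (run N p c d D T U x y sg gd f (w / 65536)) N p c d D T U x y sg M L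
        (w % 65536)) (br false (br false (allz L) (Nat.beq (M % gg) 0)) gd) (Nat.beq w 0) =
        true := by
      cases L with
      | nil => cases hs
      | cons a L => exact h
    rw [br_eq] at h'
    split_ifs at h'
    · obtain ⟨h1, h2⟩ := br_and h'
      obtain ⟨h2, h3⟩ := br_and h2
      exact ⟨h1, hk ▸ Nat.dvd_add (allz_dvd h3 hs)
        ((Nat.dvd_of_mod_eq_zero (Nat.eq_of_beq_eq_true h2)).mul_left k)⟩
    generalize w % 65536 = P at h'
    unfold rn2 at h'
    rw [br_eq] at h'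
    split_ifs at h' with hP
    · refine ih _ _ _ h' ⟨_, lft_mem (j := k % (P / 2 + 1)) hs (Nat.mod_lt _ (Nat.succ_pos _)),
        k / (P / 2 + 1), ?_⟩
      show m = s + k % (P / 2 + 1) * M + k / (P / 2 + 1) * ((P / 2 + 1) * M)
      rw [hk]
      conv_lhs => rw [← Nat.mod_add_div k (P / 2 + 1)]
      ring
    have hP : P % 2 = 1 := by
      have : P % 2 ≠ 0 := fun e => hP (Nat.beq_eq ▸ e)
      omega
    obtain ⟨j, hj⟩ : Nat.gcd M (Nat.mul P (Nat.pred (Nat.mul P P))) ∣ M := Nat.gcd_dvd_left _ _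
    generalize Nat.gcd M (Nat.mul P (Nat.pred (Nat.mul P P))) = o at h' hj
    obtain ⟨h1, h2⟩ := br_and h'
    refine ih _ _ _ h2 ⟨s, flt_mem hs fun h3 => ?_, k, hk⟩
    obtain ⟨t, u, a1, a2⟩ := hU D _ P _ _ _ _ _ _ _ (Nat.mod_modEq D P) h1
    obtain ⟨t', u', b1, b2⟩ := hU D _ P _ _ _ _ _ _ _ (Nat.mod_modEq D P) h3
    have c1 := zs_dvd (D := D) (mod_eq T P) (mod_eq U P)
    have c2 : (P : ℤ√(D : ℤ)) ∣ zs D (p * y) ((1 - 2 * sg) * x) -
        zs D (p * y % P : ℕ) (x * (1 + sg * (2 * (P - 1))) % P : ℕ) := by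
      refine zs_dvd ((mod_eq _ _).trans (by rw [Nat.cast_mul])) ((mod_eq _ _).trans ?_)
      obtain ⟨Q, rfl⟩ : ∃ Q, P = Q + 1 := ⟨P - 1, by omega⟩
      rw [Nat.add_sub_cancel]
      exact Int.modEq_iff_dvd.2 ⟨-(2 * sg * x), by push_cast; ring⟩
    change _ ∣ _ - zs D (1 : ℕ) (0 : ℕ) * zs D (T % P : ℕ) (U % P : ℕ) ^ o at a2
    change _ ∣ _ - zs D (p * y % P : ℕ) (x * (1 + sg * (2 * (P - 1))) % P : ℕ) *
      zs D (T % P : ℕ) (U % P : ℕ) ^ (s % o) at b2
    rw [← Ideal.mem_span_singleton, ← Ideal.Quotient.eq] at a2 b2 c1 c2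
    have d1 : Ideal.Quotient.mk (Ideal.span {(P : ℤ√(D : ℤ))}) (zs D t u) = 1 ∨
        Ideal.Quotient.mk (Ideal.span {(P : ℤ√(D : ℤ))}) (zs D t u) = -1 := by
      obtain ⟨e1, e2⟩ := br_and a1
      rw [Nat.eq_of_beq_eq_true e1]
      rw [br_eq] at e2
      split_ifs at e2 with e3
      · rw [Nat.eq_of_beq_eq_true e3]
        exact Or.inl rfl
      · refine Or.inr (Ideal.Quotient.eq.2 (Ideal.mem_span_singleton.2 ?_) : _ =
          Ideal.Quotient.mk _ (zs D (-1) 0))
        refine zs_dvd (Int.modEq_iff_dvd.2 ⟨1, ?_⟩) (by simp)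
        rw [← Nat.eq_of_beq_eq_true e2]
        push_cast
        ring
    have d0 : zs D (1 : ℕ) (0 : ℕ) = 1 := rfl
    rw [d0, one_mul, map_pow, ← c1] at a2
    rw [map_mul, map_pow, ← c1, ← c2] at b2
    have d2 : m = s % o + o * (s / o + k * j) := by
      rw [hk, hj, Nat.mul_add, ← Nat.add_assoc, Nat.mod_add_div]
      ring
    have d3 := congrArg (Ideal.Quotient.mk (Ideal.span {(P : ℤ√(D : ℤ))})) hm
    rw [map_mul, map_pow, d2, pow_add, pow_mul, ← a2, mul_right_comm, mul_comm (_ ^ (s % o)),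
      ← b2] at d3
    have d4 : (P : ℤ) ∣ (u' : ℤ) ^ 2 - X ^ 2 := by
      have d5 : Ideal.Quotient.mk (Ideal.span {(P : ℤ√(D : ℤ))}) (zs D t u) ^ (s / o + k * j) = 1 ∨
          Ideal.Quotient.mk (Ideal.span {(P : ℤ√(D : ℤ))}) (zs D t u) ^ (s / o + k * j) = -1 := by
        rcases d1 with e | e <;> rw [e]
        · exact Or.inl (one_pow _)
        · exact neg_one_pow_eq_or _ _
      rw [sq_sub_sq]
      rcases d5 with e | e <;> rw [e] at d3
      · rw [mul_one] at d3
        exact (im_dvd (Ideal.mem_span_singleton.1 (Ideal.Quotient.eq.1 d3.symm))).mul_left _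
      · rw [mul_neg_one, ← neg_eq_iff_eq_neg, ← map_neg] at d3
        have := im_dvd (a' := -Y) (b' := -X)
          (Ideal.mem_span_singleton.1 (Ideal.Quotient.eq.1 d3.symm))
        rw [sub_neg_eq_add] at this
        exact this.mul_right _
    have f1 := jac_false hJ hP hX hc d4
    have f2 := jac_false hJ hP hX hd d4
    change br (jac 60 ((p * d % P * (u' * u' + N) + p * p * N * (P - 1) % P) % P) P 0) true
      (jac 60 ((p * c % P * (u' * u' + N) + p * p * N * (P - 1) % P) % P) P 0) = true at b1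
    rw [f1, f2] at b1
    exact Bool.noConfusion b1

end Pool.Agent.MP_2339ce_nt.EX
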