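import Mathlib.Tactic.Linarith
import Mathlib.Tactic.Ring
import Pool.Agent.MP_2339ce_nt.Q2.ESpec

/-! Project EX: the check for one pair. -/

set_option autoImplicit false

namespace Pool.Agent.MP_2339ce_nt.EX

namespace SEQ

theorem ra {p r : Bool} (h : br false r p = true) : p = true ∧ r = true := by
  cases p
  · exact Bool.noConfusion (show false = true from h)
  · exact ⟨rfl, h⟩

theorem b3 {N p q c d D T U w M v x y f : ℕ} {gd : Bool}
    (h : br false (br false (br false (run N p c d D T U x y 1 gd f w 1 [0])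
      (run N p c d D T U x y 0 gd f w 1 [0]))
    (Nat.beq (Nat.mul p (Nat.mul y y)) (Nat.add (Nat.mul q (Nat.mul x x)) M)))
    (Nat.beq (Nat.add (Nat.mul x x) 3) v) = true) :
    x * x + 3 = v ∧ p * (y * y) = q * (x * x) + M ∧
      ∀ sg ≤ 1, run N p c d D T U x y sg gd f w 1 [0] = true := by
  obtain ⟨h1, h⟩ := ra h
  obtain ⟨h2, h⟩ := ra h
  obtain ⟨h3, h4⟩ := ra h
  refine ⟨Nat.eq_of_beq_eq_true h1, Nat.eq_of_beq_eq_true h2, fun sg hs => ?_⟩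
  rcases Nat.le_one_iff_eq_zero_or_eq_one.1 hs with rfl | rfl
  · exact h3
  · exact h4

theorem bb {N p q c d D T U w M v : ℕ} {gd : ℕ → ℕ → Bool}
    (h : bs N p q c d D T U w M gd v = true) : ∃ x y f, x * x + 3 = v ∧
      p * (y * y) = q * (x * x) + M ∧
      ∀ sg ≤ 1, run N p c d D T U x y sg (gd x y) f w 1 [0] = true :=
  ⟨_, _, _, b3 h⟩

theorem s2 {N p q c d U w D T M X : ℕ} {gd : ℕ → ℕ → Bool}
    (h : sq2 N p q c d U w gd D T M X = true) : T * T = D * (U * U) + 1 ∧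
      U * U * (p * M) + 1 ≤ 2 * (T + 1) * (X + 1) ^ 2 ∧
      ∃ n, sq3 (bs N p q c d D T U w M gd) p q M X n = true := by
  obtain ⟨h1, h⟩ := ra h
  obtain ⟨h2, h⟩ := ra h
  exact ⟨Nat.eq_of_beq_eq_true h1, Nat.le_of_ble_eq_true h2, _, h⟩

theorem s0 {N p q c d U w : ℕ} {gd : ℕ → ℕ → Bool} (h : seq N p q c d U w gd = true) :
    1 ≤ N * p ∧ p + 1 ≤ q ∧ 1 ≤ U ∧
      ∃ T X, sq2 N p q c d U w gd (p * q) T (N * (q - p)) X = true := by
  obtain ⟨h1, h⟩ := ra h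
  obtain ⟨h2, h⟩ := ra h
  obtain ⟨h3, h⟩ := ra h
  exact ⟨Nat.le_of_ble_eq_true h1, Nat.le_of_ble_eq_true h2, Nat.le_of_ble_eq_true h3, _, _, h⟩

end SEQ

theorem seqT : R_SEQ := by
  intro desc lst rn N p q c d U w e X Y gd h hX hY hc hd
  obtain ⟨h1, h2, h3, T, X0, h⟩ := SEQ.s0 h
  obtain ⟨h4, h5, n, h⟩ := SEQ.s2 h
  have hN : 0 < N := Nat.pos_of_mul_pos_right h1
  have hp : 0 < p := Nat.pos_of_mul_pos_left h1
  have hM : 0 < N * (q - p) := Nat.mul_pos hN (by omega)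
  have hT : T ^ 2 = p * q * U ^ 2 + 1 := by rw [sq, sq]; exact h4
  have hE : p * Y ^ 2 = q * X ^ 2 + N * (q - p) := by
    obtain ⟨r, rfl⟩ := Nat.exists_eq_add_of_le (show p ≤ q by omega)
    rw [Nat.add_sub_cancel_left]
    have a : p * (Y ^ 2 + N) = (p + r) * (X ^ 2 + N) := by rw [hX, hY]; ring
    nlinarith [a]
  obtain ⟨m, sg, x, y, g1, g2, g3, g4⟩ := desc p q _ T U X Y hp hM h3 hT hE
  have hx : x ≤ X0 := by
    have a : 2 * (T + 1) * x ^ 2 < 2 * (T + 1) * (X0 + 1) ^ 2 := by rw [sq U] at g3; omega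
    exact Nat.le_of_lt_succ (lt_of_pow_lt_pow_left₀ 2 (Nat.zero_le _) (Nat.lt_of_mul_lt_mul_left a))
  have k0 : bs N p q c d (p * q) T U w (N * (q - p)) gd 0 = false := by
    rw [← Bool.not_eq_true]
    intro k
    obtain ⟨x, -, -, a, -⟩ := SEQ.bb k
    omega
  obtain ⟨x', y', f, a1, a2, a3⟩ := SEQ.bb (lst _ p q _ X0 n x y hM h k0 g2 hx)
  obtain rfl : x' = x := Nat.mul_self_inj.1 (by rw [sq] at a1; omega)
  obtain rfl : y' = y := Nat.mul_self_inj.1 (Nat.eq_of_mul_eq_mul_left hp (by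
    rw [a2, ← sq, ← sq, g2]))
  obtain ⟨b1, m', rfl⟩ := rn N p (p * q) c d T U x' y' sg e m X (p * Y) (gd x' y') f w 1 [0] hX hc hd
    g4 (a3 sg g1) ⟨0, List.mem_singleton_self 0, m, by omega⟩
  exact ⟨hN, hp, h2, h3, T, m', sg, x', y', hT, g1, g2, b1, g4⟩

end Pool.Agent.MP_2339ce_nt.EX
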