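import Mathlib.Analysis.Complex.ExponentialBounds
import Mathlib.Analysis.SpecialFunctions.Sqrt
import Pool.Agent.MP_2339ce_nt.Q2.ESpec

/-! Project EX, row T2L: the two logarithm estimate applied to two Pell sequences. -/

set_option autoImplicit false

noncomputable section

namespace Pool.Agent.MP_2339ce_nt.EX

open Finset

namespace T2L

theorem lift_eq {D : ℕ} {A : ℝ} (hA : A ^ 2 = D) {Y X T U a b : ℤ} {k : ℕ}
    (h : zs D Y X = zs D T U ^ k * zs D a b) :
    (Y : ℝ) + X * A = ((T : ℝ) + U * A) ^ k * ((a : ℝ) + b * A) := by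
  have := congrArg (Zsqrtd.lift (R := ℝ) (d := (D : ℤ)) ⟨A, by rw [← sq, hA]; simp⟩) h
  simpa [map_mul, map_pow, zs, Zsqrtd.lift_apply_apply] using this

theorem two_le {D : ℕ} (h : NSq D) : 2 ≤ D := by
  by_contra hc
  have : D = 0 ∨ D = 1 := by omega
  rcases this with rfl | rfl
  · exact h 0 rfl
  · exact h 1 rfl

theorem side {p q r T U y M k : ℕ} {x X Y : ℤ} {A B : ℝ} (hp : 0 < p) (hA0 : 0 < A)
    (hB0 : 0 < B) (hA : A ^ 2 = (p * q : ℕ)) (hB : B ^ 2 = (p * r : ℕ)) (hq : NSq (p * q))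
    (hU : 0 < U) (hT : T ^ 2 = p * q * U ^ 2 + 1) (hM : 0 < M)
    (hy : (p : ℤ) * y ^ 2 = q * x ^ 2 + M) (h4 : 4 * y ^ 2 ≤ M ^ 2 * (p * r))
    (h80 : (2 * (p * y)) ^ 2 * (p * r) ≤ 2 ^ 80)
    (hz : zs (p * q) Y X = zs (p * q) T U ^ k * zs (p * q) (p * y) x) :
    3 ≤ (T : ℝ) + U * A ∧ ((T : ℝ) + U * A) * (T - U * A) = 1 ∧
      0 < (p : ℝ) * y + x * A ∧ 0 < (p : ℝ) * y - x * A ∧
      ((p : ℝ) * y + x * A) * B ≤ 2 ^ 40 ∧ ((p : ℝ) * y - x * A) * B ≤ 2 ^ 40 ∧
      1 ≤ ((p : ℝ) * y + x * A) * B ∧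
      (Y : ℝ) + X * A = ((T : ℝ) + U * A) ^ k * ((p : ℝ) * y + x * A) ∧
      (Y : ℝ) - X * A = ((T : ℝ) - U * A) ^ k * ((p : ℝ) * y - x * A) := by
  have h2 := two_le hq
  have hT2 : 2 ≤ T := by
    by_contra hc
    have h1 : T ^ 2 ≤ 1 := by
      have : T = 0 ∨ T = 1 := by omega
      rcases this with rfl | rfl <;> norm_num
    have : 0 < p * q * U ^ 2 := by positivity
    omega
  have hA1 : 1 ≤ A := by
    have : (2 : ℝ) ≤ (p * q : ℕ) := by exact_mod_cast h2
    nlinarith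
  have hTr : (T : ℝ) ^ 2 = A ^ 2 * U ^ 2 + 1 := by rw [hA]; exact_mod_cast hT
  have hU1 : (1 : ℝ) ≤ U := by exact_mod_cast hU
  have hT1 : (2 : ℝ) ≤ T := by exact_mod_cast hT2
  have hp1 : (1 : ℝ) ≤ p := by exact_mod_cast hp
  have hM1 : (1 : ℝ) ≤ M := by exact_mod_cast hM
  have hyr : (p : ℝ) * y ^ 2 = q * x ^ 2 + M := by exact_mod_cast hy
  have hy0 : (0 : ℝ) ≤ (p : ℝ) * y := by positivity
  have hpr : ((p : ℝ) * y + x * A) * ((p : ℝ) * y - x * A) = p * M := by
    have : ((p : ℝ) * y + x * A) * ((p : ℝ) * y - x * A) = p * (p * y ^ 2) - x ^ 2 * A ^ 2 := by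
      ring
    rw [this, hyr, hA]; push_cast; ring
  have hpM : (0 : ℝ) < p * M := by positivity
  have hab : |(x : ℝ) * A| < p * y := by
    apply abs_lt_of_sq_lt_sq _ hy0
    nlinarith
  obtain ⟨hl, hr⟩ := abs_lt.1 hab
  have h40 : 2 * ((p : ℝ) * y) * B ≤ 2 ^ 40 := by
    apply (pow_le_pow_iff_left₀ (by positivity) (by positivity) two_ne_zero).1
    have : (2 * ((p : ℝ) * y) * B) ^ 2 = ((2 * (p * y)) ^ 2 * (p * r) : ℕ) := by
      rw [mul_pow, hB]; push_cast; ring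
    rw [this, ← pow_mul]
    exact_mod_cast h80
  have h2y : 2 * (y : ℝ) ≤ M * B := by
    apply (pow_le_pow_iff_left₀ (by positivity) (by positivity) two_ne_zero).1
    have : ((M : ℝ) * B) ^ 2 = (M ^ 2 * (p * r) : ℕ) := by
      rw [mul_pow, hB]; push_cast; ring
    rw [this, show (2 * (y : ℝ)) ^ 2 = (4 * y ^ 2 : ℕ) by push_cast; ring]
    exact_mod_cast h4
  have hm : 0 < (p : ℝ) * y - x * A := by linarith
  have hle : (p : ℝ) * y - x * A ≤ p * M * B := by
    have := mul_le_mul_of_nonneg_left h2y (by linarith : (0 : ℝ) ≤ p)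
    linarith
  refine ⟨by nlinarith, by nlinarith, by linarith, hm, ?_, ?_, ?_, ?_, ?_⟩
  · exact le_trans (mul_le_mul_of_nonneg_right (by linarith) hB0.le) h40
  · exact le_trans (mul_le_mul_of_nonneg_right (by linarith) hB0.le) h40
  · apply le_of_mul_le_mul_right _ hm
    calc 1 * ((p : ℝ) * y - x * A) ≤ p * M * B := by linarith
      _ = ((p : ℝ) * y + x * A) * B * ((p : ℝ) * y - x * A) := by rw [← hpr]; ring
  · have := lift_eq hA hz
    push_cast at this
    exact this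
  · have := lift_eq (A := -A) (by rw [neg_sq]; exact hA) hz
    push_cast at this
    simpa [sub_eq_add_neg] using this

theorem log_le {u v : ℝ} (hu : 0 < u) (hv : 0 < v) : Real.log u - Real.log v ≤ (u - v) / v := by
  rw [← Real.log_div hu.ne' hv.ne', sub_div, div_self hv.ne']
  exact Real.log_le_sub_one_of_pos (div_pos hu hv)

/-- the logarithms of two large numbers that are very close -/
theorem close {al be a b s t K : ℝ} (hK : 1 ≤ K) (hal : 2 * K ≤ al) (hbe : 2 * K ≤ be)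
    (ha : 1 ≤ a) (hb : 1 ≤ b) (hs0 : 0 ≤ s) (hs : s ≤ K) (ht0 : 0 ≤ t) (ht : t ≤ K)
    (h : al * a - be * b = s / al - t / be) :
    |Real.log (al * a) - Real.log (be * b)| ≤ 4 * K / (al * be) := by
  have al0 : 0 < al := by linarith
  have be0 : 0 < be := by linarith
  have hu : al ≤ al * a := le_mul_of_one_le_right al0.le ha
  have hv : be ≤ be * b := le_mul_of_one_le_right be0.le hb
  have s0 : 0 ≤ s / al := by positivity
  have t0 : 0 ≤ t / be := by positivity
  have s1 : s / al ≤ 1 / 2 := by rw [div_le_iff₀ al0]; linarith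
  have t1 : t / be ≤ 1 / 2 := by rw [div_le_iff₀ be0]; linarith
  have s2 : s / al ≤ K / al := by gcongr
  have t2 : t / be ≤ K / be := by gcongr
  generalize al * a = u at *
  generalize be * b = v at *
  have u0 : 0 < u := by linarith
  have v0 : 0 < v := by linarith
  rw [abs_le]
  constructor
  · have := log_le v0 u0
    have h2 : (v - u) / u ≤ 4 * K / (al * be) := by
      calc (v - u) / u ≤ (K / be) / al := by
            apply div_le_div₀ (by positivity) (by linarith) al0 hu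
        _ = K / (al * be) := by field_simp
        _ ≤ 4 * K / (al * be) := by gcongr; linarith
    linarith
  · have := log_le u0 v0
    have h2 : (u - v) / v ≤ 4 * K / (al * be) := by
      calc (u - v) / v ≤ (K / al) / be := by
            apply div_le_div₀ (by positivity) (by linarith) be0 hv
        _ = K / (al * be) := by field_simp
        _ ≤ 4 * K / (al * be) := by gcongr; linarith
    linarith

theorem exp_ge (k : ℕ) : (2.7 : ℝ) ^ k ≤ Real.exp k := by
  rw [← Real.exp_one_pow]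
  exact pow_le_pow_left₀ (by norm_num) (le_trans (by norm_num) Real.exp_one_gt_d9.le) k

theorem e28 : (2 : ℝ) ^ 40 ≤ Real.exp 28 :=
  le_trans (by norm_num : (2 : ℝ) ^ 40 ≤ 2.7 ^ 28) (by exact_mod_cast exp_ge 28)

theorem e30 : 4 * (2 : ℝ) ^ 40 ≤ Real.exp 30 :=
  le_trans (by norm_num : 4 * (2 : ℝ) ^ 40 ≤ 2.7 ^ 30) (by exact_mod_cast exp_ge 30)

theorem e2 : Real.exp 2 ≤ 9 := by
  have h : Real.exp 2 = Real.exp 1 ^ 2 := by rw [Real.exp_one_pow]; norm_num
  rw [h]
  have := Real.exp_one_lt_d9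
  have := Real.exp_pos 1
  nlinarith

theorem big {e : ℝ} {g m : ℕ} (he : 3 ≤ e) (hg : 41 ≤ g) (hm : 0 < m) :
    2 * (2 : ℝ) ^ 40 ≤ e ^ (g * m) :=
  calc 2 * (2 : ℝ) ^ 40 = 2 ^ 41 := by norm_num
    _ ≤ e ^ 41 := pow_le_pow_left₀ (by norm_num) (by linarith) 41
    _ ≤ e ^ (g * m) := pow_le_pow_right₀ (by linarith) (le_trans hg (Nat.le_mul_of_pos_right g hm))

theorem g41 : 41 ≤ gg := by decide

theorem ab1 {s t B K : ℝ} (hB : 0 < B) (hs : 0 < s) (h : s * B ≤ K) (ht : t = B ∨ t = -B) :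
    |s * t| ≤ K := by
  rcases ht with rfl | rfl
  · rw [abs_of_pos (by positivity)]; exact h
  · rw [mul_neg, abs_neg, abs_of_pos (by positivity)]; exact h

theorem inv_le {e f : ℝ} (he : 3 ≤ e) (h : e * f = 1) : 0 < f ∧ f ≤ e := by
  have : 0 < f := by
    by_contra hc
    nlinarith
  exact ⟨this, by nlinarith⟩

theorem evC (A B : ℝ) (j : Fin 4) (z : ℤ) : ev A B j (MvPolynomial.C z) = z := by
  rw [ev, MvPolynomial.eval₂Hom_C]; rfl

theorem ev0 (A B : ℝ) (j : Fin 4) : ev A B j (MvPolynomial.X 0) = ![A, A, -A, -A] j := by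
  rw [ev, MvPolynomial.eval₂Hom_X']; rfl

theorem ev1 (A B : ℝ) (j : Fin 4) : ev A B j (MvPolynomial.X 1) = ![B, -B, B, -B] j := by
  rw [ev, MvPolynomial.eval₂Hom_X']; rfl

end T2L

open T2L MvPolynomial in
theorem t2lT : R_T2L := by
  intro hLV hC p q r T U T' U' m n y y' M M' x x' X0 Y Z hp hq hr hqr hU hU' hT hT' hm hn hM hM'
    hy hy' h4 h4' h80 h80' hz hz'
  have hq2 := two_le hq
  have hr2 := two_le hr
  obtain ⟨A, hA0, hA⟩ : ∃ A : ℝ, 0 < A ∧ A ^ 2 = (p * q : ℕ) :=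
    ⟨√(p * q : ℕ), Real.sqrt_pos.2 (by exact_mod_cast (by omega : 0 < p * q)),
      Real.sq_sqrt (by positivity)⟩
  obtain ⟨B, hB0, hB⟩ : ∃ B : ℝ, 0 < B ∧ B ^ 2 = (p * r : ℕ) :=
    ⟨√(p * r : ℕ), Real.sqrt_pos.2 (by exact_mod_cast (by omega : 0 < p * r)),
      Real.sq_sqrt (by positivity)⟩
  obtain ⟨a1, a2, a3, a4, a5, a6, a7, a8, a9⟩ :=
    side hp hA0 hB0 hA hB hq hU hT hM hy h4 h80 hz
  obtain ⟨b1, b2, b3, b4, b5, b6, b7, b8, b9⟩ :=
    side hp hB0 hA0 hB hA hr hU' hT' hM' hy' h4' h80' hz'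
  have lv := hLV p q r A B hp (by rw [hA]; push_cast; ring) (by rw [hB]; push_cast; ring) hq hr hqr
  obtain ⟨c1, c2⟩ := inv_le a1 a2
  obtain ⟨d1, d2⟩ := inv_le b1 b2
  have hg := g41
  generalize hgg : gg = g at hg a8 a9 b8 b9
  set e := (T : ℝ) + U * A with he
  set e' := (T : ℝ) - U * A with he'
  set f := (T' : ℝ) + U' * B with hf
  set f' := (T' : ℝ) - U' * B with hf'
  have e0 : 0 < e := by linarith
  have f0 : 0 < f := by linarith
  have h9 : 9 ≤ e ^ m * f ^ n := by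
    have h1 : e ≤ e ^ m := le_self_pow₀ (by linarith) hm.ne'
    have h2 : f ≤ f ^ n := le_self_pow₀ (by linarith) hn.ne'
    nlinarith
  let θ : MvPolynomial (Fin 2) ℤ :=
    (C (T : ℤ) + C (U : ℤ) * X 0) ^ m * (C (T' : ℤ) - C (U' : ℤ) * X 1) ^ n
  let a : MvPolynomial (Fin 2) ℤ := (C ((p : ℤ) * y) + C x * X 0) * X 1
  let b : MvPolynomial (Fin 2) ℤ := (C ((p : ℤ) * y') + C x' * X 1) * X 0
  have t0 : ev A B 0 θ = e ^ m * f' ^ n := by
    simp only [θ, map_mul, map_pow, map_add, map_sub, evC, ev0, ev1]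
    simp [he, hf']
  have t1 : ev A B 1 θ = e ^ m * f ^ n := by
    simp only [θ, map_mul, map_pow, map_add, map_sub, evC, ev0, ev1]
    simp [he, hf]
  have t2 : ev A B 2 θ = e' ^ m * f' ^ n := by
    simp only [θ, map_mul, map_pow, map_add, map_sub, evC, ev0, ev1]
    simp [he', hf', sub_eq_add_neg]
  have t3 : ev A B 3 θ = e' ^ m * f ^ n := by
    simp only [θ, map_mul, map_pow, map_add, map_sub, evC, ev0, ev1]
    simp [he', hf, sub_eq_add_neg]
  have u0 : ev A B 0 a = ((p : ℝ) * y + x * A) * B := by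
    simp only [a, map_mul, map_add, evC, ev0, ev1]
    simp
  have u1 : ev A B 1 a = ((p : ℝ) * y + x * A) * (-B) := by
    simp only [a, map_mul, map_add, evC, ev0, ev1]
    simp
  have u2 : ev A B 2 a = ((p : ℝ) * y - x * A) * B := by
    simp only [a, map_mul, map_add, evC, ev0, ev1]
    simp [sub_eq_add_neg]
  have u3 : ev A B 3 a = ((p : ℝ) * y - x * A) * (-B) := by
    simp only [a, map_mul, map_add, evC, ev0, ev1]
    simp [sub_eq_add_neg]
  have v0 : ev A B 0 b = ((p : ℝ) * y' + x' * B) * A := by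
    simp only [b, map_mul, map_add, evC, ev0, ev1]
    simp
  have v1 : ev A B 1 b = ((p : ℝ) * y' - x' * B) * A := by
    simp only [b, map_mul, map_add, evC, ev0, ev1]
    simp [sub_eq_add_neg]
  have v2 : ev A B 2 b = ((p : ℝ) * y' + x' * B) * (-A) := by
    simp only [b, map_mul, map_add, evC, ev0, ev1]
    simp
  have v3 : ev A B 3 b = ((p : ℝ) * y' - x' * B) * (-A) := by
    simp only [b, map_mul, map_add, evC, ev0, ev1]
    simp [sub_eq_add_neg]
  have hpos : 0 < e ^ m * f ^ n := by positivity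
  have key : ∀ s t : ℝ, 0 < s → s ≤ e → 0 < t → t ≤ f →
      |s ^ m * t ^ n| ≤ Real.exp (Real.log (e ^ m * f ^ n)) := fun s t s0 s1 t0 t1 => by
    rw [Real.exp_log hpos, abs_of_pos (by positivity)]
    gcongr
  refine hC _ (ev A B) θ a b (Real.log (e ^ m * f ^ n)) (fun F => lv F 0) ?_ ?_ ?_ ?_ ?_ ?_ ?_ ?_ ?_
  · rw [Real.le_log_iff_exp_le hpos]; exact le_trans e2 h9
  · intro j
    fin_cases j
    · exact t0 ▸ key _ _ e0 le_rfl d1 d2
    · exact t1 ▸ key _ _ e0 le_rfl f0 le_rfl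
    · exact t2 ▸ key _ _ c1 c2 d1 d2
    · exact t3 ▸ key _ _ c1 c2 f0 le_rfl
  · intro j
    refine le_trans ?_ e28
    fin_cases j
    · exact u0 ▸ ab1 hB0 a3 a5 (.inl rfl)
    · exact u1 ▸ ab1 hB0 a3 a5 (.inr rfl)
    · exact u2 ▸ ab1 hB0 a4 a6 (.inl rfl)
    · exact u3 ▸ ab1 hB0 a4 a6 (.inr rfl)
  · intro j
    refine le_trans ?_ e28
    fin_cases j
    · exact v0 ▸ ab1 hA0 b3 b5 (.inl rfl)
    · exact v1 ▸ ab1 hA0 b4 b6 (.inl rfl)
    · exact v2 ▸ ab1 hA0 b3 b5 (.inr rfl)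
    · exact v3 ▸ ab1 hA0 b4 b6 (.inr rfl)
  · rw [u0]; exact a7
  · rw [v0]; exact b7
  · rw [t0]; positivity
  · intro h1
    have := lv (θ - 1) 1 (by rw [map_sub, map_one, t1]; linarith)
    rw [prod_eq_zero (mem_univ 0) (by rw [map_sub, map_one, h1, sub_self, abs_zero])] at this
    linarith
  · rw [t0, u0, v0, hgg]
    have al0 : 0 < e ^ (g * m) := by positivity
    have be0 : 0 < f ^ (g * n) := by positivity
    have ee : e' = e⁻¹ := eq_inv_of_mul_eq_one_right a2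
    have ff : f' = f⁻¹ := eq_inv_of_mul_eq_one_right b2
    have cl := close (al := e ^ (g * m)) (be := f ^ (g * n)) (K := 2 ^ 40) (by norm_num)
      (big a1 hg hm) (big b1 hg hn) a7 b7 (mul_pos a4 hB0).le a6 (mul_pos b4 hA0).le b6 (by
        rw [ee, inv_pow] at a9
        rw [ff, inv_pow] at b9
        rw [← mul_assoc, ← mul_assoc, ← a8, ← b8, div_eq_inv_mul, div_eq_inv_mul, ← mul_assoc,
          ← mul_assoc, ← a9, ← b9]
        ring)
    rw [Real.log_mul al0.ne' (by linarith), Real.log_mul be0.ne' (by linarith)] at cl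
    have l1 : (g : ℝ) * Real.log (e ^ m * f' ^ n) =
        Real.log (e ^ (g * m)) - Real.log (f ^ (g * n)) := by
      rw [Real.log_mul (by positivity) (by positivity), ff]
      simp only [Real.log_pow, Real.log_inv]
      push_cast
      ring
    have l2 : Real.exp (30 - g * Real.log (e ^ m * f ^ n)) =
        Real.exp 30 / (e ^ (g * m) * f ^ (g * n)) := by
      rw [Real.exp_sub, ← Real.log_pow, Real.exp_log (by positivity), mul_pow, ← pow_mul,
        ← pow_mul, mul_comm m, mul_comm n]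
    rw [l1, l2]
    refine le_trans (le_of_eq ?_) (le_trans cl ?_)
    · rw [show ∀ s t u v : ℝ, s - t - u + v = s + v - (t + u) from fun _ _ _ _ => by ring]
    · exact div_le_div_of_nonneg_right e30 (by positivity)

end Pool.Agent.MP_2339ce_nt.EX

end
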