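import Mathlib.Algebra.Polynomial.Taylor
import Mathlib.Algebra.Polynomial.Roots
import Mathlib.RingTheory.Polynomial.Pochhammer
import Mathlib.LinearAlgebra.Vandermonde
import Mathlib.LinearAlgebra.Matrix.ToLinearEquiv
import Pool.Agent.MP_2339ce_nt.Q2.ESpec

/-! Project EX: the zero lemma. -/

set_option autoImplicit false

namespace Pool.Agent.MP_2339ce_nt.EX

open Finset Polynomial

namespace ZL

theorem coeff_prod {ι : Type} (s : Finset ι) (f : ι → ℝ[X]) (n : ι → ℕ)
    (h : ∀ i, (f i).natDegree ≤ n i) :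
    (∏ i ∈ s, f i).coeff (∑ i ∈ s, n i) = ∏ i ∈ s, (f i).coeff (n i) := by
  classical
  induction s using Finset.induction_on with
  | empty => simp
  | insert a s ha ih =>
    rw [prod_insert ha, prod_insert ha, sum_insert ha, coeff_mul_add_eq_of_natDegree_le (h a)
      ((natDegree_prod_le _ _).trans (sum_le_sum fun i _ => h i)), ih]

theorem core {t : ℕ} (q : Fin t → ℝ[X]) (w : Fin t → ℝ) (hq : ∀ i, q i ≠ 0)
    (hw : Function.Injective w) : ∃ D : ℝ[X], D ≠ 0 ∧ D.natDegree ≤ ∑ i, (q i).natDegree ∧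
      ∀ (x : ℝ) (v : Fin t → ℝ), v ≠ 0 →
        (∀ j : Fin t, ∑ i, w i ^ (j : ℕ) * (q i).eval (x + (j : ℕ)) * v i = 0) → D.eval x = 0 := by
  have hd : ∀ (j : ℕ) i, (C (w i ^ j) * taylor (j : ℝ) (q i)).natDegree ≤ (q i).natDegree :=
    fun j i => (natDegree_C_mul_le _ _).trans (natDegree_taylor _ _).le
  refine ⟨(Matrix.of fun j i : Fin t => C (w i ^ (j : ℕ)) * taylor ((j : ℕ) : ℝ) (q i)).det,
    fun h => ?_, ?_, fun x v hv h => ?_⟩
  · have e := congrArg (coeff · (∑ i, (q i).natDegree)) h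
    have e' : (Matrix.of fun j i : Fin t =>
        (q i).leadingCoeff * (Matrix.vandermonde w).transpose j i).det = 0 := by
      rw [Matrix.det_apply] at e ⊢
      simp only [finsetSum_coeff, coeff_smul, Matrix.of_apply, coeff_zero] at e
      refine (sum_congr rfl fun σ _ => ?_).trans e
      rw [coeff_prod _ _ _ fun i => hd _ i]
      refine congrArg _ (prod_congr rfl fun i _ => ?_)
      rw [coeff_C_mul, coeff_taylor_natDegree, mul_comm]
      rfl
    rw [Matrix.det_mul_row, Matrix.det_transpose] at e'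
    exact mul_ne_zero (prod_ne_zero_iff.2 fun i _ => leadingCoeff_ne_zero.2 (hq i))
      (Matrix.det_vandermonde_ne_zero_iff.2 hw) e'
  · rw [Matrix.det_apply]
    exact natDegree_sum_le_of_forall_le _ _ fun σ _ => (natDegree_smul_le _ _).trans
      ((natDegree_prod_le _ _).trans (sum_le_sum fun i _ => hd _ i))
  · rw [← coe_evalRingHom, RingHom.map_det]
    refine Matrix.exists_mulVec_eq_zero_iff.1 ⟨v, hv, funext fun j => ?_⟩
    simpa [Matrix.mulVec, dotProduct, taylor_eval] using h j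

theorem tri {K : ℕ} (c : Fin K → ℝ) (h : ∀ v : ℕ, ∑ k, c k * (v.choose k : ℝ) = 0) (k : Fin K) :
    c k = 0 := by
  induction k using WellFoundedLT.induction with
  | ind k ih =>
    have e := h k
    rw [sum_eq_single k] at e
    · simpa using e
    · intro i _ hi
      rcases lt_or_gt_of_ne hi with h1 | h1
      · rw [ih i h1, zero_mul]
      · rw [Nat.choose_eq_zero_of_lt h1, Nat.cast_zero, mul_zero]
    · simp

end ZL

theorem zlT : S_ZL := by
  classical
  intro θ β g K L C' S c θ0 θ1 β0 hC hK h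
  obtain ⟨q, hq⟩ : ∃ q : Fin L → ℝ[X], ∀ l,
      q l = ∑ k : Fin K, C (c (k, l) / (k : ℕ).factorial) * descPochhammer ℝ k := ⟨_, fun _ => rfl⟩
  have ev : ∀ l (v : ℕ), (q l).eval (v : ℝ) = ∑ k, c (k, l) * (v.choose k : ℝ) := fun l v => by
    rw [hq, eval_finsetSum]
    refine sum_congr rfl fun k _ => ?_
    rw [eval_mul, eval_C, Nat.cast_choose_eq_descPochhammer_div]
    ring
  have dg : ∀ l, (q l).natDegree ≤ K - 1 := fun l => by
    rw [hq]
    refine natDegree_sum_le_of_forall_le _ _ fun k _ => (natDegree_C_mul_le _ _).trans ?_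
    rw [descPochhammer_natDegree]
    omega
  suffices z : ∀ l, q l = 0 from funext fun i =>
    ZL.tri (fun k => c (k, i.2)) (fun v => by rw [← ev, z, eval_zero]) i.1
  by_contra hn
  obtain ⟨l₀, hl₀⟩ := not_forall.1 hn
  have K0 : 0 < K := Nat.pos_of_ne_zero fun e => hl₀ (by subst e; simp [hq])
  let e := (Fintype.equivFin {l // q l ≠ 0}).symm
  have ht : Fintype.card {l // q l ≠ 0} ≤ L :=
    (Fintype.card_subtype_le _).trans (Fintype.card_fin L).le
  obtain ⟨D, D0, D1, D2⟩ := ZL.core (fun i => q (e i)) (fun i => θ ^ ((e i).1 : ℕ))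
    (fun i => (e i).2) fun a b x =>
      e.injective (Subtype.ext (Fin.ext (pow_right_injective₀ θ0 θ1 x)))
  refine D0 (eq_zero_of_natDegree_lt_card_of_eval_eq_zero D
    (f := fun x : Fin C' × Fin S => (((x.1 : ℕ) + g * x.2 : ℕ) : ℝ)) (fun a b x => ?_)
    (fun x => D2 _ (fun i => (θ ^ (x.1 : ℕ) * β ^ (x.2 : ℕ)) ^ ((e i).1 : ℕ)) (fun z => ?_)
      fun j => ?_) ?_)
  · have x' : (a.1 : ℕ) + g * a.2 = b.1 + g * b.2 := Nat.cast_injective x
    have y : (a.1 : ℕ) = b.1 := by
      have := congrArg (· % g) x'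
      simpa only [Nat.add_mul_mod_self_left, Nat.mod_eq_of_lt (a.1.2.trans_le hC),
        Nat.mod_eq_of_lt (b.1.2.trans_le hC)] using this
    rw [y] at x'
    exact Prod.ext (Fin.ext y) (Fin.ext (Nat.eq_of_mul_eq_mul_left
      ((Nat.zero_le _).trans_lt (a.1.2.trans_le hC)) (Nat.add_left_cancel x')))
  · exact pow_ne_zero _ (mul_ne_zero (pow_ne_zero _ θ0.ne') (pow_ne_zero _ β0))
      (congrFun z (e.symm ⟨l₀, hl₀⟩))
  · have h1 := h (x.1 + j) x.2 (by omega) x.2.2
    rw [Fintype.sum_prod_type_right] at h1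
    simp only [← mul_assoc, ← sum_mul, ← ev] at h1
    refine (Fintype.sum_of_injective (fun i => (e i).1) (Subtype.val_injective.comp e.injective)
      _ _ (fun l hl => ?_) fun i => ?_).trans h1
    · rw [not_not.1 fun y : q l ≠ 0 => hl ⟨e.symm ⟨l, y⟩, by simp⟩, eval_zero, zero_mul]
    · rw [← Nat.cast_add, add_right_comm, pow_add, ← pow_mul, mul_comm ((e i).1 : ℕ), pow_mul]
      simp only [mul_pow]
      ring
  · rw [Fintype.card_prod, Fintype.card_fin, Fintype.card_fin]
    have h1 := D1.trans (sum_le_card_nsmul _ _ _ fun i _ => dg _)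
    rw [card_univ, Fintype.card_fin, smul_eq_mul] at h1
    have h2 : 0 < L := l₀.pos
    obtain ⟨K, rfl⟩ := Nat.exists_eq_add_of_lt K0
    simp only [zero_add, Nat.add_sub_cancel] at h1 hK
    nlinarith

end Pool.Agent.MP_2339ce_nt.EX
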