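import Pool.Agent.MP_2339ce_nt.Q2.ENth
import Pool.Agent.MP_2339ce_nt.Q2.EJAC
import Pool.Agent.MP_2339ce_nt.Q2.EUP2
import Pool.Agent.MP_2339ce_nt.Q2.ERUN
import Pool.Agent.MP_2339ce_nt.Q2.EDESC
import Pool.Agent.MP_2339ce_nt.Q2.ELIST
import Pool.Agent.MP_2339ce_nt.Q2.ESEQ
import Pool.Agent.MP_2339ce_nt.Q2.ELV
import Pool.Agent.MP_2339ce_nt.Q2.EZL
import Pool.Agent.MP_2339ce_nt.Q2.EMN
import Pool.Agent.MP_2339ce_nt.Q2.EAN
import Pool.Agent.MP_2339ce_nt.Q2.EBIN
import Pool.Agent.MP_2339ce_nt.Q2.EUP0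
import Pool.Agent.MP_2339ce_nt.Q2.ECORE
import Pool.Agent.MP_2339ce_nt.Q2.ET2L
import Pool.Agent.MP_2339ce_nt.Q2.EALL

/-! Project EX: the soundness of the check. -/

set_option autoImplicit false

namespace Pool.Agent.MP_2339ce_nt.EX

theorem all0 : S_CHK ∧ S_ALL := allT (seqT descT listT (runT jacT upT2))
  (t2lT lvT (coreT zlT mnT binT (up0T anT binT)))

def Gd (N : ℕ) (L : List Q4) : Prop := ∀ a b c d, inL L a b c d = true → NoFifth N a b c d

theorem gk {N : ℕ} {L : List Q4} {C : List (ℕ × Q4)} (h : allc N L C = true) : Gd N L :=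
  fun a b c d => all0.2 N L C a b c d h

theorem gnil {N : ℕ} : Gd N [] := fun _ _ _ _ h => absurd h Bool.false_ne_true

theorem inL_app {a b c d : ℕ} (L M : List Q4) (h : inL (L ++ M) a b c d = true) :
    inL L a b c d = true ∨ inL M a b c d = true := by
  induction L with
  | nil => exact Or.inr h
  | cons t L ih =>
    have e : ∀ K : List Q4, inL (t :: K) a b c d = br (inL K a b c d) (br (inL K a b c d)
      (br (inL K a b c d) (br (inL K a b c d) true (Nat.beq t.1 a)) (Nat.beq t.2.1 b))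
        (Nat.beq t.2.2.1 c)) (Nat.beq t.2.2.2 d) := fun _ => rfl
    rw [List.cons_append, e] at h
    rw [e]
    revert h
    cases Nat.beq t.1 a <;> cases Nat.beq t.2.1 b <;> cases Nat.beq t.2.2.1 c <;>
      cases Nat.beq t.2.2.2 d <;> first | exact ih | exact fun _ => Or.inl rfl

theorem gapp {N : ℕ} {L M : List Q4} (h : Gd N L) (k : Gd N M) : Gd N (L ++ M) :=
  fun a b c d e => (inL_app L M e).elim (h a b c d) (k a b c d)

def AllG (L : List (List Q4)) : ℕ → Prop :=
  @List.rec (List Q4) (fun _ => ℕ → Prop) (fun _ => True) (fun h _ r i => Gd i h ∧ r (i + 1)) L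

theorem ext1 (L : List (List Q4)) : ∀ i n, AllG L i → Gd (i + n) (nth L n) := by
  induction L with
  | nil => exact fun _ _ _ => gnil
  | cons t L ih =>
    intro i n h
    cases n with
    | zero => exact h.1
    | succ n =>
      rw [show i + (n + 1) = i + 1 + n by omega]
      exact ih (i + 1) n h.2

theorem ext0 {L : List (List Q4)} (h : AllG L 0) (N : ℕ) : Gd N (nth L N) := by
  have := ext1 L 0 N h
  rwa [Nat.zero_add] at this

end Pool.Agent.MP_2339ce_nt.EX
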