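import Pool.Agent.MP_2339ce_nt.Q2.EK1
import Pool.Agent.MP_2339ce_nt.Q2.EK2
import Pool.Agent.MP_2339ce_nt.Q2.EK3
import Pool.Agent.MP_2339ce_nt.Q2.EK4
import Pool.Agent.MP_2339ce_nt.Q2.EK5
import Pool.Agent.MP_2339ce_nt.Q2.EK6
import Pool.Agent.MP_2339ce_nt.Q2.EK7
import Pool.Agent.MP_2339ce_nt.Q2.EK8
import Pool.Agent.MP_2339ce_nt.Q2.EK9
import Pool.Agent.MP_2339ce_nt.Q2.EK10
import Pool.Agent.MP_2339ce_nt.Q2.EK11
import Pool.Agent.MP_2339ce_nt.Q2.EK12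
import Pool.Agent.MP_2339ce_nt.Q2.EAll2

/-! Project EX: no listed quadruple has a fifth element. -/

set_option autoImplicit false
set_option maxRecDepth 100000

namespace Pool.Agent.MP_2339ce_nt.EX

theorem allG : AllG QQ 0 := ⟨
  gnil, gnil, gnil, gnil, gnil, (gk k5_0), gnil, (gk k7_0), (gk k8_0), (gk k9_0), gnil, (gk k11_0),
  (gk k12_0), (gk k13_0), gnil, (gk k15_0), (gk k16_0), (gk k17_0), gnil, (gk k19_0), (gk k20_0),
  (gk k21_0), gnil, (gk k23_0), (gk k24_0), (gk k25_0), gnil, (gk k27_0), (gk k28_0), (gk k29_0),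
  gnil, (gk k31_0), (gk k32_0), (gk k33_0), gnil, gapp (gk k35_0) (gk k35_1), (gk k36_0),
  (gk k37_0), gnil, (gk k39_0), (gk k40_0), (gk k41_0), gnil, (gk k43_0), (gk k44_0), (gk k45_0),
  gnil, (gk k47_0), (gk k48_0), (gk k49_0), gnil, (gk k51_0), (gk k52_0), (gk k53_0), gnil,
  gapp (gk k55_0) (gk k55_1), (gk k56_0), (gk k57_0), gnil, (gk k59_0), (gk k60_0), (gk k61_0),
  gnil, gapp (gk k63_0) (gapp (gk k63_1) (gk k63_2)), (gk k64_0), (gk k65_0), gnil, (gk k67_0),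
  (gk k68_0), gapp (gk k69_0) (gk k69_1), gnil, (gk k71_0), (gk k72_0), (gk k73_0), gnil,
  (gk k75_0), (gk k76_0), (gk k77_0), gnil, (gk k79_0), gapp (gk k80_0) (gk k80_1), (gk k81_0),
  gnil, (gk k83_0), (gk k84_0), (gk k85_0), gnil, (gk k87_0), (gk k88_0), (gk k89_0), gnil,
  gapp (gk k91_0) (gapp (gk k91_1) (gk k91_2)), (gk k92_0), (gk k93_0), gnil,
  gapp (gk k95_0) (gapp (gk k95_1) (gk k95_2)), (gk k96_0), (gk k97_0), gnil,
  gapp (gk k99_0) (gapp (gk k99_1) (gapp (gk k99_2) (gk k99_3))), (gk k100_0), (gk k101_0), gnil,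
  (gk k103_0), gapp (gk k104_0) (gapp (gk k104_1) (gk k104_2)), gapp (gk k105_0) (gk k105_1), gnil,
  (gk k107_0), (gk k108_0), (gk k109_0), gnil, gapp (gk k111_0) (gk k111_1),
  gapp (gk k112_0) (gk k112_1), (gk k113_0), gnil, gapp (gk k115_0) (gapp (gk k115_1) (gk k115_2)),
  (gk k116_0), (gk k117_0), gnil,
  gapp (gk k119_0) (gapp (gk k119_1) (gapp (gk k119_2) (gk k119_3))), (gk k120_0), (gk k121_0),
  gnil, (gk k123_0), (gk k124_0), gapp (gk k125_0) (gk k125_1), gnil, (gk k127_0),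
  gapp (gk k128_0) (gk k128_1), (gk k129_0), gnil, (gk k131_0), (gk k132_0), (gk k133_0), gnil,
  gapp (gk k135_0) (gk k135_1), (gk k136_0), (gk k137_0), gnil, gapp (gk k139_0) (gk k139_1),
  gapp (gk k140_0) (gapp (gk k140_1) (gk k140_2)), (gk k141_0), gnil,
  gapp (gk k143_0) (gapp (gk k143_1) (gapp (gk k143_2) (gapp (gk k143_3) (gapp (gk k143_4) (gapp (gk k143_5) (gk k143_6)))))),
  gapp (gk k144_0) (gapp (gk k144_1) (gk k144_2)), gapp (gk k145_0) (gk k145_1), gnil,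
  gapp (gk k147_0) (gk k147_1), (gk k148_0), (gk k149_0), gnil, (gk k151_0),
  gapp (gk k152_0) (gapp (gk k152_1) (gk k152_2)),
  gapp (gk k153_0) (gapp (gk k153_1) (gapp (gk k153_2) (gapp (gk k153_3) (gapp (gk k153_4) (gk k153_5))))),
  gnil, (gk k155_0), gapp (gk k156_0) (gk k156_1), gapp (gk k157_0) (gk k157_1), gnil,
  gapp (gk k159_0) (gk k159_1), gapp (gk k160_0) (gapp (gk k160_1) (gk k160_2)),
  gapp (gk k161_0) (gapp (gk k161_1) (gapp (gk k161_2) (gapp (gk k161_3) (gk k161_4)))), gnil,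
  (gk k163_0), (gk k164_0), gapp (gk k165_0) (gapp (gk k165_1) (gk k165_2)), gnil, (gk k167_0),
  (gk k168_0), (gk k169_0), gnil,
  gapp (gk k171_0) (gapp (gk k171_1) (gapp (gk k171_2) (gk k171_3))), (gk k172_0), (gk k173_0),
  gnil, gapp (gk k175_0) (gk k175_1),
  gapp (gk k176_0) (gapp (gk k176_1) (gapp (gk k176_2) (gapp (gk k176_3) (gk k176_4)))),
  (gk k177_0), gnil, gapp (gk k179_0) (gk k179_1), (gk k180_0), gapp (gk k181_0) (gk k181_1), gnil,
  (gk k183_0), (gk k184_0), gapp (gk k185_0) (gk k185_1), gnil, (gk k187_0),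
  gapp (gk k188_0) (gk k188_1),
  gapp (gk k189_0) (gapp (gk k189_1) (gapp (gk k189_2) (gapp (gk k189_3) (gk k189_4)))), gnil,
  gapp (gk k191_0) (gk k191_1), gapp (gk k192_0) (gapp (gk k192_1) (gk k192_2)), (gk k193_0), gnil,
  gapp (gk k195_0) (gapp (gk k195_1) (gapp (gk k195_2) (gapp (gk k195_3) (gapp (gk k195_4) (gk k195_5))))),
  (gk k196_0), gapp (gk k197_0) (gk k197_1), gnil, gapp (gk k199_0) (gk k199_1),
  gapp (gk k200_0) (gapp (gk k200_1) (gk k200_2)), gapp (gk k201_0) (gk k201_1), gnil,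
  gapp (gk k203_0) (gapp (gk k203_1) (gk k203_2)), gapp (gk k204_0) (gk k204_1),
  gapp (gk k205_0) (gapp (gk k205_1) (gk k205_2)), gnil,
  gapp (gk k207_0) (gapp (gk k207_1) (gapp (gk k207_2) (gk k207_3))), gapp (gk k208_0) (gk k208_1),
  gapp (gk k209_0) (gapp (gk k209_1) (gapp (gk k209_2) (gapp (gk k209_3) (gapp (gk k209_4) (gapp (gk k209_5) (gapp (gk k209_6) (gapp (gk k209_7) (gk k209_8)))))))),
  gnil, (gk k211_0), (gk k212_0), gapp (gk k213_0) (gk k213_1), gnil,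
  gapp (gk k215_0) (gapp (gk k215_1) (gapp (gk k215_2) (gk k215_3))),
  gapp (gk k216_0) (gapp (gk k216_1) (gk k216_2)),
  gapp (gk k217_0) (gapp (gk k217_1) (gapp (gk k217_2) (gapp (gk k217_3) (gapp (gk k217_4) (gapp (gk k217_5) (gk k217_6)))))),
  gnil, gapp (gk k219_0) (gapp (gk k219_1) (gk k219_2)),
  gapp (gk k220_0) (gapp (gk k220_1) (gapp (gk k220_2) (gk k220_3))),
  gapp (gk k221_0) (gapp (gk k221_1) (gapp (gk k221_2) (gapp (gk k221_3) (gapp (gk k221_4) (gapp (gk k221_5) (gapp (gk k221_6) (gapp (gk k221_7) (gapp (gk k221_8) (gk k221_9))))))))),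
  gnil, (gk k223_0),
  gapp (gk k224_0) (gapp (gk k224_1) (gapp (gk k224_2) (gapp (gk k224_3) (gapp (gk k224_4) (gapp (gk k224_5) (gapp (gk k224_6) (gapp (gk k224_7) (gk k224_8)))))))),
  gapp (gk k225_0) (gapp (gk k225_1) (gapp (gk k225_2) (gapp (gk k225_3) (gapp (gk k225_4) (gk k225_5))))),
  gnil, (gk k227_0), (gk k228_0), gapp (gk k229_0) (gapp (gk k229_1) (gk k229_2)), gnil,
  gapp (gk k231_0) (gapp (gk k231_1) (gapp (gk k231_2) (gapp (gk k231_3) (gapp (gk k231_4) (gapp (gk k231_5) (gapp (gk k231_6) (gapp (gk k231_7) (gapp (gk k231_8) (gapp (gk k231_9) (gk k231_10)))))))))),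
  (gk k232_0), (gk k233_0), gnil, (gk k235_0), gapp (gk k236_0) (gk k236_1),
  gapp (gk k237_0) (gapp (gk k237_1) (gk k237_2)), gnil, gapp (gk k239_0) (gk k239_1),
  gapp (gk k240_0) (gapp (gk k240_1) (gapp (gk k240_2) (gapp (gk k240_3) (gapp (gk k240_4) (gk k240_5))))),
  (gk k241_0), gnil, gapp (gk k243_0) (gapp (gk k243_1) (gapp (gk k243_2) (gk k243_3))),
  (gk k244_0), gapp (gk k245_0) (gapp (gk k245_1) (gk k245_2)), gnil, gapp (gk k247_0) (gk k247_1),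
  gapp (gk k248_0) (gapp (gk k248_1) (gk k248_2)), gapp (gk k249_0) (gk k249_1), gnil,
  gapp (gk k251_0) (gapp (gk k251_1) (gk k251_2)),
  gapp (gk k252_0) (gapp (gk k252_1) (gapp (gk k252_2) (gapp (gk k252_3) (gapp (gk k252_4) (gapp (gk k252_5) (gapp (gk k252_6) (gk k252_7))))))),
  gapp (gk k253_0) (gapp (gk k253_1) (gk k253_2)), gnil, trivial⟩

theorem ext (N a b c d : ℕ) (h : inL (ql N) a b c d = true) : NoFifth N a b c d :=
  ext0 allG N a b c d h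

end Pool.Agent.MP_2339ce_nt.EX
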