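import Pool.Agent.MP_2339ce_nt.Q2.EQb

/-! Project EX: the check, part 14. -/

set_option autoImplicit false
set_option maxRecDepth 100000

namespace Pool.Agent.MP_2339ce_nt.EX

theorem ky0 : allc 237 [(1, 14878, 501501, 689137)] [
    (201, 499830049944813003907079563047979254829470123749919011113037812050318608804096798032188179979773610902520538057713758304416804930416975189414175228098686073394720217050802510347894655776577155966522952070259441586401973860062871684233415165303429133832438546226350034330831608508273767587925713929181924123671453920841127301565051578598590690408517797697501986002079989018727908160093136145270066701911144142888793132744165007416, 424276521087383240706, 0, 0)] = true := by decide +kernel

theorem ky1 : allc 237 [(1, 31566, 31921, 126973)] [
    (201, 169545200818666625308263826590619641887382233723087274647262092302320735809550541871235719597987836064913913980272863925660209624303910678016187610488179468470181261688265681067929202433086036943069549080464316403140488378561879384335906350526749383110453107725844092456688032175330476786573306118227557158553344001756265422590675070520373773027398535165063728533402576271136133467739315777158192212612886867085354479792526740716014899939791385204066794468843967402126701302757173950646755834241749914323353087829046751166660281387120250152990316115730251901724483024604721854553399577699357821653729853600935238196062663416828534922582387809257923582437018854295610151687291673051109725512130535600757108708893928580661823914789931188615620363141989309232685118098001760567383062766190298880534774727127612444710969647135098359873405519488818108223398502910797407610435322942307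387302968605106390827358129709241149295875041037825393032840305817267584486088322188930321498942247250260580393133754842120644694932930124530420322110553896663993571927880800879870477071812256581831939308232960247471287775470689072260535464676403032279789788392984024862895353831153052993552223715583790370902166961890762522322636969946481296759161783938609704858465907325059533169044726420605247280374282858041352030639637382159861277450822320805939698379396467170090881551112281383054030114835505944480357533948347640306152464966078692425272777232562793505419902969465385724783093897916765158087491388985247296484652449243549585778314957389189963176164818942669126026043032996417874736623528044768228378992515419897476621963670088232496005028149011139710576060995795976858698311767582612977707547347695233059732103913106607143994397638319682414262088355758009785301884416934753323502804092852310457020742792389354188620531933865870921881402368448249235865987678898728896049996023420649489715594146412806127193061750023407817410716962869225740402632829898911598688196869561958633387023010885976018674040967937139763808391555328690891585918974377489817294249382352704714354852058269816563987879714931518462653612780542941374310283467296271286374769996985468887048711512342974444358463040376924656068304535517247211196794805843051045288303856055714611074238646205949530990865098824603898900847019653279242830984798443508705483111513655463686931866695150732702422156619219342883214212590056177307294585003823673384708431278174226040150634008236648731594173075288015661594881990862908924401640818527648619823607193531091596957448957670137093535978551158006975393156689176864676038540105240744697532475562881619680088364805961067177652312322552444814450659357695869084368355406084242829940027884833631109578304934043256144948689401688917468909753576009684970001132766103308950292487613795101165252395298175040670585718104457924710691450974580338911600473780976898792246626281084724736465632113289580404468274149095264760529992187908658791919892990,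 15993432207833603543269032761894629408773, 0, 0)] = true := by decide +kernel

end Pool.Agent.MP_2339ce_nt.EX
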