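import Pool.Agent.MP_2339ce_nt.Q2.EFin
import Pool.Agent.MP_2339ce_nt.Q2.EK13
import Pool.Agent.MP_2339ce_nt.Q2.EK14

/-! Project EX: no listed quadruple has a fifth element. -/

set_option autoImplicit false
set_option maxRecDepth 100000

namespace Pool.Agent.MP_2339ce_nt.EX

theorem gx237 : Gd 237 x237 := gapp (gk ky0) (gk ky1)

theorem allX : AllG QX 0 := ⟨
  gnil, gnil, gnil, gnil, gnil, gnil, gnil, gnil, gnil, gnil, gnil, gnil, gnil, gnil, gnil, gnil,
  gnil, gnil, gnil, gnil, gnil, gnil, gnil, gnil, gnil, gnil, gnil, gnil, gnil, gnil, gnil, gnil,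
  gnil, gnil, gnil, gnil, gnil, gnil, gnil, gnil, gnil, gnil, gnil, gnil, gnil, gnil, gnil, gnil,
  gnil, gnil, gnil, gnil, gnil, gnil, gnil, gnil, gnil, gnil, gnil, gnil, gnil, gnil, gnil, gnil,
  gnil, gnil, gnil, gnil, gnil, gnil, gnil, gnil, gnil, gnil, gnil, gnil, gnil, gnil, gnil, gnil,
  gnil, gnil, gnil, gnil, gnil, gnil, gnil, gnil, gnil, gnil, gnil, gnil, gnil, gnil, gnil, gnil,
  gnil, gnil, gnil, gnil, gnil, gnil, gnil, gnil, gnil, gnil, gnil, gnil, gnil, gnil, gnil, gnil,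
  gnil, gnil, gnil, gnil, gnil, gnil, gnil, gnil, gnil, gnil, gnil, gnil, gnil, gnil, gnil, gnil,
  gnil, gnil, gnil, gnil, gnil, gnil, gnil, gnil, gnil, gnil, gnil, gnil, gnil, (gk kx141), gnil,
  gnil, gnil, (gk kx145), gnil, gnil, gnil, gnil, gnil, gnil, (gk kx152), gnil, gnil, gnil, gnil,
  (gk kx157), gnil, gnil, gnil, (gk kx161), gnil, gnil, gnil, (gk kx165), gnil, gnil, gnil, gnil,
  gnil, gnil, gnil, gnil, gnil, gnil, gnil, gnil, gnil, gnil, gnil, gnil, gnil, gnil, gnil, gnil,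
  gnil, gnil, gnil, (gk kx189), gnil, gnil, gnil, gnil, gnil, gnil, gnil, gnil, gnil, gnil, gnil,
  gnil, gnil, gnil, gnil, gnil, gnil, gnil, (gk kx208), (gk kx209), gnil, gnil, gnil, gnil, gnil,
  gnil, gnil, gnil, gnil, gnil, gnil, (gk kx221), gnil, gnil, gnil, (gk kx225), gnil, gnil, gnil,
  gnil, gnil, gnil, gnil, (gk kx233), gnil, gnil, gnil, gx237, gnil, gnil, gnil, (gk kx241),
  gnil, gnil, gnil, (gk kx245), gnil, gnil, gnil, (gk kx249), gnil, gnil, gnil, (gk kx253), gnil,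
  trivial⟩

theorem gdf (N : ℕ) : Gd N (qf N) := gapp (ext0 allX N) (ext N)

theorem extf (N a b c d : ℕ) (h : inL (qf N) a b c d = true) : NoFifth N a b c d :=
  gdf N a b c d h

end Pool.Agent.MP_2339ce_nt.EX
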