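import Pool.Agent.MP_2339ce_nt.Q2.EChk

/-! Project EX: lookup in a list of lists. -/

set_option autoImplicit false

namespace Pool.Agent.MP_2339ce_nt.EX

/-- the entry number `n` of `L` -/
noncomputable def nth (L : List (List Q4)) : ℕ → List Q4 :=
  @List.rec (List Q4) (fun _ => ℕ → List Q4) (fun _ => [])
    (fun h _ r n => @Nat.rec (fun _ => List Q4) h (fun m _ => r m) n) L

end Pool.Agent.MP_2339ce_nt.EX
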