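import Pool.Agent.MP_2339ce_nt.Q2.ESpec

/-! Project EX: powers in a quadratic ring modulo `P`. -/

set_option autoImplicit false

namespace Pool.Agent.MP_2339ce_nt.EX

namespace UP

theorem key {E D P : ℕ} (h : D ≡ E [MOD P]) (t u T U : ℕ) :
    (P : ℤ√(E : ℤ)) ∣ zs E ((t * T + D * (u * U)) % P : ℕ) ((t * U + u * T) % P : ℕ) -
      zs E t u * zs E T U := by
  have h1 : (P : ℤ) ∣ ((t * T + D * (u * U)) % P : ℕ) - ((t * T + E * (u * U) : ℕ) : ℤ) :=
    (((Nat.mod_modEq _ _).trans ((h.mul_right _).add_left _)).symm).dvd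
  have h2 : (P : ℤ) ∣ ((t * U + u * T) % P : ℕ) - ((t * U + u * T : ℕ) : ℤ) :=
    (Nat.mod_modEq _ _).symm.dvd
  rw [← Int.cast_natCast (R := ℤ√(E : ℤ)) P, Zsqrtd.intCast_dvd]
  generalize (t * T + D * (u * U)) % P = a at h1 ⊢
  generalize (t * U + u * T) % P = b at h2 ⊢
  constructor
  · convert h1 using 1
    simp only [zs, Zsqrtd.re_sub, Zsqrtd.re_mul]
    push_cast
    ring
  · convert h2 using 1
    simp only [zs, Zsqrtd.im_sub, Zsqrtd.im_mul]
    push_cast
    ring

theorem step {R : Type} [CommRing R] {P a b b' c c' : R} (n : ℕ) (h : P ∣ a - b' * c' ^ n)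
    (hb : P ∣ b' - b) (hc : P ∣ c' - c) : P ∣ a - b * c ^ n := by
  have e : a - b * c ^ n = (a - b' * c' ^ n) + (b' - b) * c' ^ n + b * (c' ^ n - c ^ n) := by ring
  rw [e]
  exact (h.add (hb.mul_right _)).add ((hc.trans (sub_dvd_pow_sub_pow _ _ _)).mul_left _)

end UP

theorem upT : S_UP := by
  intro E D P k f t u T U e h
  induction f generalizing t u T U e with
  | zero => exact fun h' => absurd (show false = true from h') Bool.false_ne_true
  | succ f ih =>
    intro h0
    have h' : br (up2 D P (up D P k f) t u T U e ((T * T + D * (U * U)) % P) ((2 * (T * U)) % P))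
      (k t u) (Nat.beq e 0) = true := h0
    have hs := UP.key h T U T U
    rw [show T * U + U * T = 2 * (T * U) by ring] at hs
    cases he : Nat.beq e 0 with
    | true =>
      rw [he] at h'
      obtain rfl := Nat.eq_of_beq_eq_true he
      exact ⟨t, u, h', by simp⟩
    | false =>
      rw [he] at h'
      have h2 : br (up D P k f ((t * T + D * (u * U)) % P) ((t * U + u * T) % P)
          ((T * T + D * (U * U)) % P) ((2 * (T * U)) % P) (e / 2))
        (up D P k f t u ((T * T + D * (U * U)) % P) ((2 * (T * U)) % P) (e / 2))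
        (Nat.beq (e % 2) 0) = true := h'
      cases hp : Nat.beq (e % 2) 0 with
      | true =>
        rw [hp] at h2
        obtain ⟨t', u', a, b⟩ := ih _ _ _ _ _ h2
        refine ⟨t', u', a, ?_⟩
        have := UP.step _ b (show _ ∣ _ - zs E t u by simp) hs
        rwa [← sq, ← pow_mul, show 2 * (e / 2) = e by
          have := Nat.eq_of_beq_eq_true hp
          omega] at this
      | false =>
        rw [hp] at h2
        obtain ⟨t', u', a, b⟩ := ih _ _ _ _ _ h2
        refine ⟨t', u', a, ?_⟩
        have := UP.step _ b (UP.key h t u T U) hs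
        rwa [← sq, ← pow_mul, mul_assoc, ← pow_succ', show 2 * (e / 2) + 1 = e by
          have := Nat.ne_of_beq_eq_false hp
          omega] at this

end Pool.Agent.MP_2339ce_nt.EX
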