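import Mathlib.Analysis.Complex.ExponentialBounds
import Mathlib.Data.Nat.Choose.Bounds
import Pool.Agent.MP_2339ce_nt.Q2.ESpec

/-! Project EX, row UP0: the analytic upper bound of the interpolation determinant. -/

set_option autoImplicit false

noncomputable section

namespace Pool.Agent.MP_2339ce_nt.EX

open Finset

namespace UP0

theorem ggR : ((gg : ℕ) : ℝ) = 1396755360 := by
  unfold gg; norm_num

theorem exp3 : Real.exp 3 ≤ 27 := by
  have h : Real.exp 3 = Real.exp 1 ^ 3 := by rw [← Real.exp_nat_mul]; norm_num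
  have h1 : Real.exp 1 ≤ 3 := by have := Real.exp_one_lt_d9; linarith
  rw [h]
  calc Real.exp 1 ^ 3 ≤ 3 ^ 3 := pow_le_pow_left₀ (Real.exp_pos 1).le h1 3
    _ = 27 := by norm_num

theorem pow_le_exp {x u : ℝ} (hx : 0 ≤ x) (h : x ≤ Real.exp u) (n : ℕ) :
    x ^ n ≤ Real.exp (n * u) := by
  rw [Real.exp_nat_mul]; exact pow_le_pow_left₀ hx h n

theorem ent_eq (θ a b : ℝ) (S : ℕ) (i : Fin (4000 * S) × Fin 100) (ρ σ : ℕ) (hθ : 0 < θ)
    (ha : 0 < a) (hb : 0 < b) (hσ : σ < S) :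
    ent θ a b S i ρ σ = a ^ (S * (i.2 : ℕ)) * (((ρ + gg * σ).choose i.1 : ℕ) *
      (θ ^ (i.2 : ℕ)) ^ (ρ + gg * σ)) *
      Real.exp (-(((i.2 : ℕ) : ℝ) * σ * (gg * Real.log θ - Real.log b + Real.log a))) := by
  obtain ⟨d, hd⟩ : ∃ d, S = σ + d := ⟨S - σ, by omega⟩
  have hs : S - σ = d := by omega
  have hS : (S : ℝ) = σ + d := by rw [hd]; push_cast; ring
  unfold ent
  rw [hs]
  generalize (i.2 : ℕ) = l
  generalize (((ρ + gg * σ).choose i.1 : ℕ) : ℝ) = c
  obtain ⟨t, rfl⟩ : ∃ t, θ = Real.exp t := ⟨_, (Real.exp_log hθ).symm⟩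
  obtain ⟨al, rfl⟩ : ∃ t, a = Real.exp t := ⟨_, (Real.exp_log ha).symm⟩
  obtain ⟨be, rfl⟩ : ∃ t, b = Real.exp t := ⟨_, (Real.exp_log hb).symm⟩
  simp only [Real.log_exp, ← Real.exp_nat_mul, ← Real.exp_add]
  rw [mul_comm (Real.exp _) (c * _), mul_assoc, mul_assoc, ← Real.exp_add, ← Real.exp_add]
  congr 2
  push_cast
  rw [hS]
  ring

theorem choose_le (v n Z : ℕ) (hv : v < Z) :
    |(v.choose n : ℝ) * ((n.factorial : ℝ) / (Z : ℝ) ^ n)| ≤ 1 := by
  have hZ : (0 : ℝ) < Z := by exact_mod_cast (by omega : 0 < Z)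
  have hf : (0 : ℝ) < n.factorial := by exact_mod_cast n.factorial_pos
  have h1 : (v.choose n : ℝ) ≤ (v : ℝ) ^ n / n.factorial := by
    exact_mod_cast Nat.choose_le_pow_div (α := ℝ) n v
  have h2 : (v : ℝ) ^ n ≤ (Z : ℝ) ^ n :=
    pow_le_pow_left₀ (Nat.cast_nonneg _) (by exact_mod_cast hv.le) n
  rw [abs_of_nonneg (by positivity), ← mul_div_assoc, div_le_one (by positivity)]
  rw [le_div_iff₀ hf] at h1
  linarith

end UP0

open UP0

theorem up0T : R_UP0 := by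
  intro hAN hBIN θ a b h S ρ σ hh hS h1S ha1 ha hb1 hb hθ hτ hρ hσ
  obtain ⟨hB1, hB2, hB3⟩ := hBIN
  have hg := ggR
  have hS1 : (1 : ℝ) ≤ S := by exact_mod_cast h1S
  have ha0 : 0 < a := by linarith
  have hb0 : 0 < b := by linarith
  have hla : 0 ≤ Real.log a ∧ Real.log a ≤ 28 :=
    ⟨Real.log_nonneg ha1, (Real.log_le_iff_le_exp ha0).2 ha⟩
  have hlb : 0 ≤ Real.log b ∧ Real.log b ≤ 28 :=
    ⟨Real.log_nonneg hb1, (Real.log_le_iff_le_exp hb0).2 hb⟩
  have hent := fun i c => ent_eq θ a b S i (ρ c) (σ c) hθ ha0 hb0 (hσ c)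
  obtain ⟨t, rfl⟩ : ∃ t, θ = Real.exp t := ⟨_, (Real.exp_log hθ).symm⟩
  rw [Real.log_exp] at hτ hent
  obtain ⟨τ, hτd⟩ : ∃ τ, τ = gg * t - Real.log b + Real.log a := ⟨_, rfl⟩
  rw [← hτd] at hτ hent
  have hτ1 : |τ| ≤ 1 := hτ.trans (Real.exp_le_one_iff.2 (by rw [hg]; linarith))
  have ht : (gg : ℝ) * |t| ≤ 29 := by
    have h1 := abs_le.1 hτ1
    have h2 : |(gg : ℝ) * t| ≤ 29 := abs_le.2 ⟨by linarith [h1.1, hla.2, hlb.1],
      by linarith [h1.2, hla.1, hlb.2]⟩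
    rwa [abs_mul, abs_of_nonneg (Nat.cast_nonneg gg)] at h2
  have hcard : Fintype.card (Fin (4000 * S) × Fin 100) = 400000 * S := by
    rw [Fintype.card_prod, Fintype.card_fin, Fintype.card_fin]; ring
  obtain ⟨Z, hZd⟩ : ∃ Z : ℕ, Z = gg * S := ⟨_, rfl⟩
  have hZR : (Z : ℝ) = gg * S := by rw [hZd]; push_cast; ring
  have hv : ∀ c, ρ c + gg * σ c < Z := fun c => by
    have h1 : gg * (σ c + 1) ≤ gg * S := Nat.mul_le_mul_left _ (hσ c)
    have h2 := hρ c
    rw [hZd]; rw [Nat.mul_succ] at h1; omega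
  have hZ0 : (0 : ℝ) < Z := by rw [hZR, hg]; linarith
  have hl : ∀ i : Fin (4000 * S) × Fin 100, ((i.2 : ℕ) : ℝ) ≤ 100 := fun i => by
    exact_mod_cast i.2.2.le
  have hk : ∀ i : Fin (4000 * S) × Fin 100, ((i.1 : ℕ) : ℝ) ≤ 4000 * S := fun i => by
    exact_mod_cast i.1.2.le
  have hlt : ∀ i : Fin (4000 * S) × Fin 100, (gg : ℝ) * |((i.2 : ℕ) : ℝ) * t| ≤ 2900 := fun i => by
    rw [abs_mul, abs_of_nonneg (Nat.cast_nonneg _)]
    have h1 : ((i.2 : ℕ) : ℝ) * ((gg : ℝ) * |t|) ≤ 100 * 29 :=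
      mul_le_mul (hl i) ht (by positivity) (by norm_num)
    linarith
  have hlt1 : ∀ i : Fin (4000 * S) × Fin 100, |((i.2 : ℕ) : ℝ) * t| ≤ 1 := fun i => by
    have := hlt i; rw [hg] at this; linarith
  have hy : ∀ i : Fin (4000 * S) × Fin 100,
      Real.exp t ^ (i.2 : ℕ) = Real.exp (((i.2 : ℕ) : ℝ) * t) := fun i =>
    (Real.exp_nat_mul _ _).symm
  have haS : ∀ i : Fin (4000 * S) × Fin 100, a ^ (S * (i.2 : ℕ)) ≤ Real.exp (2800 * S) :=
    fun i => (pow_le_exp ha0.le ha _).trans (Real.exp_le_exp.2 (by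
      push_cast; nlinarith [hl i]))
  have hZk : ∀ i : Fin (4000 * S) × Fin 100,
      (Z : ℝ) ^ (i.1 : ℕ) / (i.1 : ℕ).factorial ≤ Real.exp (56000 * S) := fun i => by
    rw [hZd]; exact hB3 _ S i.1.2.le
  obtain ⟨W, hW⟩ : ∃ W : ℝ, W = Real.exp (61700 * S - 1200000 * S) := ⟨_, rfl⟩
  have hW0 : 0 < W := by rw [hW]; exact Real.exp_pos _
  have key := hAN (Fin (4000 * S) × Fin 100) (Fin Z ⊕ (Fin (4000 * S) × Fin 100))
    (Matrix.of fun i j => Sum.elim
      (fun n : Fin Z => a ^ (S * (i.2 : ℕ)) * ((Real.exp t ^ (i.2 : ℕ)) ^ (i.1 : ℕ) *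
        (((n : ℕ).choose i.1 : ℝ) * (Real.exp t ^ (i.2 : ℕ) - 1) ^ ((n : ℕ) - i.1))) *
        ((Z : ℝ) ^ (n : ℕ) / (n : ℕ).factorial))
      (fun i' => if i = i' then W else 0) j)
    (Matrix.of fun j c => Sum.elim
      (fun n : Fin Z => ((ρ c + gg * σ c).choose n : ℝ) *
        (((n : ℕ).factorial : ℝ) / (Z : ℝ) ^ (n : ℕ)))
      (fun i : Fin (4000 * S) × Fin 100 => a ^ (S * (i.2 : ℕ)) *
        (((ρ c + gg * σ c).choose i.1 : ℕ) * (Real.exp t ^ (i.2 : ℕ)) ^ (ρ c + gg * σ c)) *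
        (Real.exp (-(((i.2 : ℕ) : ℝ) * σ c * τ)) - 1) / W) j)
    (Sum.elim (fun n => (n : ℕ)) (fun _ => 400000 * S)) (Real.exp 3) (Real.exp (232000 * S))
    (Real.one_le_exp (by norm_num)) ?_ ?_ ?_
  · rw [hcard] at key
    refine le_of_eq_of_le ?_ key
    congr 3
    ext i c
    rw [Matrix.mul_apply, Fintype.sum_sum_type]
    simp only [Matrix.of_apply, Sum.elim_inl, Sum.elim_inr, ite_mul, zero_mul, sum_ite_eq,
      mem_univ, if_true]
    rw [hent, mul_div_cancel₀ _ hW0.ne']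
    have h1 := hB1 (ρ c + gg * σ c) i.1 Z (Real.exp t ^ (i.2 : ℕ)) (hv c)
    rw [← Fin.sum_univ_eq_sum_range (fun n => ((Real.exp t ^ (i.2 : ℕ)) ^ (i.1 : ℕ) *
      ((n.choose i.1 : ℝ) * (Real.exp t ^ (i.2 : ℕ) - 1) ^ (n - i.1))) *
      ((ρ c + gg * σ c).choose n : ℝ))] at h1
    rw [mul_sub, mul_one, ← h1, mul_sum]
    rw [eq_comm, ← add_sub_assoc, add_comm, add_sub_assoc, add_eq_left, sub_eq_zero]
    refine sum_congr rfl fun n _ => ?_
    have hf : (((n : ℕ).factorial : ℕ) : ℝ) ≠ 0 := by exact_mod_cast (Nat.factorial_pos _).ne'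
    field_simp
  · rintro (n | i) c
    · exact choose_le _ _ _ (hv c)
    · simp only [Matrix.of_apply, Sum.elim_inr]
      have hσR : ((σ c : ℕ) : ℝ) ≤ S := by exact_mod_cast (hσ c).le
      have hvR : ((ρ c + gg * σ c : ℕ) : ℝ) ≤ Z := by exact_mod_cast (hv c).le
      have e1 : (((ρ c + gg * σ c).choose i.1 : ℕ) : ℝ) ≤ Real.exp (56000 * S) := by
        refine le_trans ?_ (hZk i)
        refine le_trans (by exact_mod_cast Nat.choose_le_pow_div (α := ℝ) i.1 (ρ c + gg * σ c)) ?_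
        exact div_le_div_of_nonneg_right
          (by exact_mod_cast Nat.pow_le_pow_left (hv c).le _) (Nat.cast_nonneg _)
      have e2 : (Real.exp t ^ (i.2 : ℕ)) ^ (ρ c + gg * σ c) ≤ Real.exp (2900 * S) := by
        rw [hy, ← Real.exp_nat_mul]
        refine Real.exp_le_exp.2 ?_
        calc _ ≤ ((ρ c + gg * σ c : ℕ) : ℝ) * |((i.2 : ℕ) : ℝ) * t| :=
              mul_le_mul_of_nonneg_left (le_abs_self _) (Nat.cast_nonneg _)
          _ ≤ Z * |((i.2 : ℕ) : ℝ) * t| := mul_le_mul_of_nonneg_right hvR (abs_nonneg _)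
          _ = S * (gg * |((i.2 : ℕ) : ℝ) * t|) := by rw [hZR]; ring
          _ ≤ S * 2900 := mul_le_mul_of_nonneg_left (hlt i) (Nat.cast_nonneg _)
          _ = _ := by ring
      have e3 : 2 * |-(((i.2 : ℕ) : ℝ) * σ c * τ)| ≤ Real.exp (-(1200000 * S)) := by
        rw [abs_neg, abs_mul, abs_of_nonneg (by positivity : (0 : ℝ) ≤ ((i.2 : ℕ) : ℝ) * σ c)]
        have f1 : ((i.2 : ℕ) : ℝ) * σ c ≤ 100 * S :=
          mul_le_mul (hl i) hσR (Nat.cast_nonneg _) (by norm_num)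
        have f2 : 200 * (S : ℝ) ≤ Real.exp (200 * S) := by
          linarith [Real.add_one_le_exp (200 * (S : ℝ))]
        calc _ = (2 * (((i.2 : ℕ) : ℝ) * σ c)) * |τ| := by ring
          _ ≤ Real.exp (200 * S) * Real.exp (30 - gg * h) :=
              mul_le_mul (by linarith) hτ (abs_nonneg _) (Real.exp_pos _).le
          _ ≤ _ := by
              rw [← Real.exp_add, hg]; exact Real.exp_le_exp.2 (by linarith)
      have e4 : |Real.exp (-(((i.2 : ℕ) : ℝ) * σ c * τ)) - 1| ≤ Real.exp (-(1200000 * S)) := by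
        refine (Real.abs_exp_sub_one_le ?_).trans e3
        have : Real.exp (-(1200000 * (S : ℝ))) ≤ 1 := Real.exp_le_one_iff.2 (by linarith)
        linarith
      rw [abs_div, abs_of_pos hW0, div_le_one hW0, abs_mul, abs_of_nonneg (by positivity)]
      calc _ ≤ Real.exp (2800 * S) * (Real.exp (56000 * S) * Real.exp (2900 * S)) *
            Real.exp (-(1200000 * S)) := by
            gcongr
            exact haS i
        _ = W := by
            rw [hW, ← Real.exp_add, ← Real.exp_add, ← Real.exp_add]; congr 1; ring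
  · rw [hcard]
    rintro (n | i) (n' | i') h1 h2
    · exact congrArg Sum.inl (Fin.ext h1)
    · exact absurd h2 (by simp only [Sum.elim_inl, Sum.elim_inr] at h1 ⊢; omega)
    · exact absurd h2 (lt_irrefl _)
    · exact absurd h2 (lt_irrefl _)
  · intro i
    rw [Fintype.sum_sum_type]
    simp only [Matrix.of_apply, Sum.elim_inl, Sum.elim_inr]
    have s2 : ∑ i' : Fin (4000 * S) × Fin 100, |if i = i' then W else 0| *
        Real.exp 3 ^ (400000 * S) = Real.exp (61700 * S) := by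
      rw [sum_eq_single i (fun i' _ hne => by rw [if_neg hne.symm, abs_zero, zero_mul])
        (fun hh => absurd (mem_univ _) hh), if_pos rfl, abs_of_pos hW0, hW, ← Real.exp_nat_mul,
        ← Real.exp_add]
      congr 1; push_cast; ring
    rw [s2]
    obtain ⟨y, hyd⟩ : ∃ y, y = Real.exp t ^ (i.2 : ℕ) := ⟨_, rfl⟩
    have hy0 : 0 < y := by rw [hyd]; positivity
    have hyk : y ^ (i.1 : ℕ) ≤ Real.exp (4000 * S) := by
      refine (pow_le_exp (u := 1) hy0.le ?_ _).trans (Real.exp_le_exp.2 (by linarith [hk i]))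
      rw [hyd, hy]; exact Real.exp_le_exp.2 ((le_abs_self _).trans (hlt1 i))
    have hu : (gg : ℝ) * |y - 1| ≤ 5800 := by
      have f1 : |y - 1| ≤ 2 * |((i.2 : ℕ) : ℝ) * t| := by
        rw [hyd, hy]; exact Real.abs_exp_sub_one_le (hlt1 i)
      have f2 := hlt i
      rw [hg] at f2 ⊢; linarith
    rw [← hyd]
    have s1 := hB2 i.1 Z (Z * Real.exp 3) |y - 1| (by positivity) (abs_nonneg _)
    rw [← Fin.sum_univ_eq_sum_range (fun n => ((n.choose i.1 : ℝ) * |y - 1| ^ (n - i.1)) *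
      ((Z * Real.exp 3) ^ n / n.factorial))] at s1
    have s3 : ∑ n : Fin Z, |a ^ (S * (i.2 : ℕ)) * (y ^ (i.1 : ℕ) *
        (((n : ℕ).choose i.1 : ℝ) * (y - 1) ^ ((n : ℕ) - i.1))) *
        ((Z : ℝ) ^ (n : ℕ) / (n : ℕ).factorial)| * Real.exp 3 ^ (n : ℕ) =
        a ^ (S * (i.2 : ℕ)) * y ^ (i.1 : ℕ) * ∑ n : Fin Z, (((n : ℕ).choose i.1 : ℝ) *
          |y - 1| ^ ((n : ℕ) - i.1)) * ((Z * Real.exp 3) ^ (n : ℕ) / (n : ℕ).factorial) := by
      rw [mul_sum]
      refine sum_congr rfl fun n _ => ?_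
      rw [abs_mul, abs_mul, abs_mul, abs_mul, abs_pow (y - 1), abs_of_pos (pow_pos ha0 _),
        abs_of_pos (pow_pos hy0 _), abs_of_nonneg (Nat.cast_nonneg _),
        abs_of_nonneg (by positivity : (0 : ℝ) ≤ (Z : ℝ) ^ (n : ℕ) / (n : ℕ).factorial), mul_pow]
      ring
    rw [s3]
    have s4 : (Z * Real.exp 3) ^ (i.1 : ℕ) / (i.1 : ℕ).factorial ≤
        Real.exp (56000 * S) * Real.exp (12000 * S) := by
      rw [mul_pow, mul_div_right_comm]
      refine mul_le_mul (hZk i) ?_ (by positivity) (Real.exp_pos _).le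
      rw [← Real.exp_nat_mul]; exact Real.exp_le_exp.2 (by linarith [hk i])
    have s5 : Real.exp (Z * Real.exp 3 * |y - 1|) ≤ Real.exp (156600 * S) := by
      refine Real.exp_le_exp.2 ?_
      calc _ = S * (Real.exp 3 * (gg * |y - 1|)) := by rw [hZR]; ring
        _ ≤ S * (27 * 5800) := mul_le_mul_of_nonneg_left
            (mul_le_mul exp3 hu (by positivity) (by norm_num)) (Nat.cast_nonneg _)
        _ = _ := by ring
    have s6 : a ^ (S * (i.2 : ℕ)) * y ^ (i.1 : ℕ) * ∑ n : Fin Z, (((n : ℕ).choose i.1 : ℝ) *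
          |y - 1| ^ ((n : ℕ) - i.1)) * ((Z * Real.exp 3) ^ (n : ℕ) / (n : ℕ).factorial) ≤
        Real.exp (231400 * S) := by
      calc _ ≤ Real.exp (2800 * S) * Real.exp (4000 * S) *
            (Real.exp (56000 * S) * Real.exp (12000 * S) * Real.exp (156600 * S)) := by
            refine mul_le_mul (mul_le_mul (haS i) hyk (by positivity) (Real.exp_pos _).le)
              (s1.trans (mul_le_mul s4 s5 (Real.exp_pos _).le (by positivity)))
              (sum_nonneg fun n _ => by positivity) (by positivity)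
        _ = _ := by simp only [← Real.exp_add]; congr 1; ring
    have s7 : Real.exp (61700 * S) ≤ Real.exp (231400 * (S : ℝ)) :=
      Real.exp_le_exp.2 (by linarith)
    have s8 : Real.exp (232000 * (S : ℝ)) = Real.exp (600 * S) * Real.exp (231400 * S) := by
      rw [← Real.exp_add]; congr 1; ring
    have s9 : 2 ≤ Real.exp (600 * (S : ℝ)) := by linarith [Real.add_one_le_exp (600 * (S : ℝ))]
    rw [s8]
    nlinarith [Real.exp_pos (231400 * (S : ℝ))]

end Pool.Agent.MP_2339ce_nt.EX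

end
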