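import Pool.Agent.MP_2339ce_nt.DQ.NNZC

/-! `D(-N)`-quintuples, block HP: non-vanishing for pairs of ratio at most `1.99`. -/

set_option autoImplicit false

noncomputable section

namespace Pool.Agent.MP_2339ce_nt.Q2

open DQ PowerSeries Real Sgn NNZC

theorem fin2 {s S R T f0 fq fp t z b w r c : ℝ} (hs : |s| = 1) (hS : 0 < s * S) (hq : 0 < fq)
    (h0 : |f0 - fq| ≤ 5001 / 10000 * b) (hR : |R| ≤ z) (hp : w / 2 ≤ fq - fp)
    (ht : 9999 / 10000 ≤ t) (hT : c * r * z ≤ -s * T) (w0 : 0 ≤ w) (c0 : 998 / 1000 ≤ c)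
    (hr : 100 / 99 * b ≤ w * r) (b0 : 0 ≤ b) (r0 : 0 ≤ r) :
    fq * S + (f0 - fq) * R + (fp - fq) * (t * T) ≠ 0 := by
  intro e
  have z0 : 0 ≤ z := (abs_nonneg _).trans hR
  have a1 : |s * ((f0 - fq) * R)| ≤ 5001 / 10000 * b * z := by
    rw [abs_mul, hs, one_mul, abs_mul]
    exact mul_le_mul h0 hR (abs_nonneg _) (by positivity)
  have a2 : w / 2 * (9999 / 10000 * (998 / 1000 * r * z)) ≤ (fq - fp) * (t * (-s * T)) :=
    mul_le_mul hp (mul_le_mul ht (le_trans (by gcongr) hT) (by positivity) (by linarith))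
      (by positivity) (by linarith)
  have a3 : 100 / 99 * b * z ≤ w * r * z := by gcongr
  have a4 := mul_pos hq hS
  have a5 := neg_abs_le (s * ((f0 - fq) * R))
  have a6 := mul_nonneg b0 z0
  have a7 : fq * (s * S) + s * ((f0 - fq) * R) + (fq - fp) * (t * (-s * T)) = 0 := by
    linear_combination s * e
  linarith

theorem nzc2 (h : S_MAIN) (ρ k : ℕ) (N p q d e : ℝ) (k2 : 2 ≤ k) (k1 : k ≤ ρ + 1) (hρ : ρ ≤ 10)
    (N0 : 0 < N) (p1 : 1 ≤ p) (pq : p < q) (qd : q < d) (de : d ≤ e) (big : 10000 * N ≤ d)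
    (cl : 100 * q ≤ 199 * p) : ww ρ (ρ + 1) k p q d e (-N) (-N) (-N) ≠ 0 := by
  obtain ⟨j, rfl⟩ : ∃ j, k = j + 2 := ⟨k - 2, by omega⟩
  have p0 : 0 < p := by linarith
  have q0 : 0 < q := by linarith
  have d0 : 0 < d := by linarith
  have e0 : 0 < e := by linarith
  have x0 : 0 < 1 / d := by positivity
  have lt : N / q < N / p := div_lt_div_of_pos_left N0 p0 pq
  have B0 : 0 < N / q := by positivity
  have sm : ∀ z : ℝ, d ≤ z → N / p / z ≤ 1 / 10000 := fun z hz => by
    rw [div_div, div_le_div_iff₀ (mul_pos p0 (d0.trans_le hz)) (by norm_num)]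
    nlinarith
  have c9 : 100 * (N / p - N / q) ≤ 99 * (N / q) := by
    have : 100 * (N / p) ≤ 199 * (N / q) := by
      rw [← mul_div_assoc, ← mul_div_assoc, div_le_div_iff₀ p0 q0]
      nlinarith
    linarith
  have dq : N / d ≤ N / q := div_le_div_of_nonneg_left N0.le q0 qd.le
  have d1 : 0 < N / d / e := by positivity
  rw [ww, SS, zero_mul, add_zero, sqrt_one, ← div_div, ← div_div, ← div_div]
  simp only [neg_div]
  generalize N / p = A at *
  generalize N / q = B at *
  have W0 : 0 < A - B := by linarith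
  have s1 : A * (1 / d) ≤ 1 / 10000 := by simpa only [mul_one_div] using sm d le_rfl
  have s2 := sm e de
  have s3 : B * (1 / d) ≤ A * (1 / d) := by gcongr
  have s4 : B / e ≤ A / e := by gcongr
  have s5 : N / d / e ≤ B / e := by gcongr
  have s6 : 0 < B * (1 / d) := by positivity
  obtain ⟨m1, -, m3, -⟩ := h ρ (ρ + 1) (j + 2) (ρ + 1) (ρ + (ρ + 1) + (j + 2)) (1 / 10000) (1 / d) 0
    (-B) (-A) ⟨x0, by linarith, by linarith, by norm_num, by norm_num,
      by rw [neg_mul, abs_neg, abs_of_pos s6]; linarith,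
      by rw [neg_mul, abs_neg, abs_of_pos (by linarith)]; exact s1⟩
    (by omega) (by omega) (by omega) (by omega) (by omega)
  have m4 := lt_of_lt_of_le (by positivity) m3
  have es : (-1 : ℝ) ^ (ρ + 1 + (j + 2)) = -(-1) ^ (ρ + (ρ + 1) + (j + 2) + ρ + 1) := by
    rw [show ρ + (ρ + 1) + (j + 2) + ρ + 1 = ρ + 1 + (j + 2) + 1 + 2 * ρ by ring, pow_add _ _ (2 * ρ),
      pow_mul, pow_succ _ (ρ + 1 + (j + 2))]
    simp
  have lo := low ρ (j + 2) (ρ + 1) (c := 9999 / 10000) x0.le B0 lt (by linarith) (by norm_num)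
    (by linarith)
  rw [es] at lo
  have r1 : 100 / 99 ≤ B / (A - B) := by rw [le_div_iff₀ W0]; linarith
  have key := fin2 (f0 := √(1 + -(N / d / e))) (fq := √(1 + -(B / e))) (fp := √(1 + -(A / e)))
    (t := √(1 + -A * (1 / d))) (b := B / e) (w := A / e - B / e) (abs_neg_one_pow _) m4
    (sqrt_pos.2 (by linarith)) ((TSIZE3.sqrt_sub (by linarith) (by linarith)).trans (by
      rw [neg_sub_neg, abs_of_nonneg (by linarith)]; linarith))
    (up ρ (j + 2) (ρ + 1) x0.le (by linarith) B0) (sqrt_low (by linarith) s4 (by linarith))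
    (le_sqrt_of_sq_le (by linarith)) lo (by linarith)
    (le_trans (by norm_num) (pow_le_pow_of_le_one (by norm_num) (by norm_num) hρ)) (by
      have a : 1 ≤ (B / (A - B)) ^ j := one_le_pow₀ (by linarith)
      rw [show (A / e - B / e) * (B / (A - B)) ^ (j + 2) =
        (B / (A - B)) ^ j * (B / (A - B)) * (B / e) by rw [pow_add, ← sub_div]; field_simp]
      have b : 100 / 99 ≤ (B / (A - B)) ^ j * (B / (A - B)) := by nlinarith
      gcongr) (by positivity) (by positivity)
  refine fun z => key ?_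
  rw [SS, zero_mul, add_zero, sqrt_one]
  linear_combination z

end Pool.Agent.MP_2339ce_nt.Q2

end
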