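import Mathlib.Data.Int.Notation
import Mathlib.Data.Nat.Notation

/-! `D(-N)`-quintuples, block HP: the upper bound for the fourth element, data. -/

set_option autoImplicit false

namespace Pool.Agent.MP_2339ce_nt.Q2

/-- a monomial, written in binary logarithms; the constant is in units of `1 / 100` -/
structure Af where
  (k m eN ea eb ec e1 e2 e3 : ℤ)

def Af.sub (x y : Af) : Af :=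
  ⟨x.k - y.k, x.m - y.m, x.eN - y.eN, x.ea - y.ea, x.eb - y.eb, x.ec - y.ec, x.e1 - y.e1,
    x.e2 - y.e2, x.e3 - y.e3⟩

/-- a monomial in the pair number `pr`: `(a, b)`, `(b, c)` or `(a, c)` -/
def pairAf (pr : ℕ) (k m eN eP eQ eD : ℤ) : Af :=
  match pr with
  | 0 => ⟨k, m, eN, eP, eQ, 0, eD, 0, 0⟩
  | 1 => ⟨k, m, eN, 0, eP, eQ, 0, eD, 0⟩
  | _ => ⟨k, m, eN, eP, 0, eQ, 0, 0, eD⟩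

def loN (pr ρ kp kq : ℕ) (m1 : ℤ) : Af :=
  pairAf pr (2 * ρ + 1) (100 * m1) 2 0 (2 * (ρ + kp + kq) - 6) 2

def hiN (pr ρ kp kq : ℕ) (m2 : ℤ) : Af :=
  pairAf pr (2 * (kp + kq) - 1) (-(100 * m2)) (-(2 * (ρ + kp + kq))) (2 * kp) (2 * kq)
    (2 - 2 * (kp + kq))

/-- side conditions, lower ends and upper ends of an excluded interval for `lg e` -/
structure Wn where
  (sd lo hi : List Af)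

/-- type, multiplicities and constants of a form -/
structure Sh where
  (ty ρ kp kq : ℕ)
  (m1 m2 : ℤ)

def tb : List Sh :=
  [⟨3, 0, 0, 0, 0, 0⟩, ⟨2, 0, 0, 0, 0, 0⟩, ⟨4, 2, 3, 3, 16, -8⟩, ⟨0, 1, 2, 2, 9, -6⟩,
   ⟨0, 2, 1, 2, 14, -2⟩, ⟨0, 2, 3, 2, 14, -7⟩, ⟨1, 2, 3, 3, 16, -8⟩, ⟨0, 3, 2, 2, 19, -3⟩,
   ⟨0, 3, 2, 4, 23, -7⟩, ⟨0, 3, 4, 2, 19, -7⟩, ⟨0, 3, 4, 4, 23, -10⟩, ⟨1, 3, 4, 3, 21, -9⟩,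
   ⟨0, 4, 3, 4, 29, -8⟩, ⟨0, 4, 5, 4, 29, -11⟩, ⟨1, 4, 5, 3, 26, -9⟩, ⟨1, 4, 5, 5, 31, -12⟩,
   ⟨0, 5, 4, 4, 34, -8⟩, ⟨0, 5, 4, 6, 38, -11⟩, ⟨0, 5, 6, 4, 34, -11⟩, ⟨0, 5, 6, 6, 39, -14⟩,
   ⟨1, 5, 6, 5, 37, -13⟩, ⟨0, 6, 5, 6, 44, -11⟩, ⟨0, 6, 7, 6, 44, -14⟩, ⟨1, 6, 7, 5, 42, -13⟩,
   ⟨1, 6, 7, 7, 46, -16⟩, ⟨0, 7, 6, 6, 50, -12⟩, ⟨0, 7, 6, 8, 54, -15⟩, ⟨0, 7, 8, 6, 50, -15⟩,
   ⟨0, 7, 8, 8, 54, -18⟩, ⟨1, 7, 8, 7, 52, -16⟩, ⟨0, 8, 7, 8, 60, -15⟩, ⟨0, 8, 9, 8, 60, -18⟩,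
   ⟨1, 8, 9, 7, 58, -17⟩, ⟨1, 8, 9, 9, 62, -19⟩, ⟨0, 9, 8, 8, 66, -15⟩, ⟨0, 9, 8, 10, 70, -18⟩,
   ⟨0, 9, 10, 8, 66, -18⟩, ⟨0, 9, 10, 10, 70, -21⟩, ⟨1, 9, 10, 9, 68, -20⟩,
   ⟨0, 10, 9, 10, 76, -18⟩, ⟨0, 10, 11, 10, 76, -21⟩, ⟨1, 10, 11, 9, 73, -20⟩,
   ⟨1, 10, 11, 11, 78, -22⟩, ⟨0, 11, 10, 10, 81, -19⟩, ⟨0, 11, 10, 12, 85, -22⟩,
   ⟨0, 11, 12, 10, 81, -22⟩, ⟨0, 11, 12, 12, 85, -24⟩, ⟨0, 12, 11, 12, 91, -22⟩,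
   ⟨0, 12, 13, 12, 91, -24⟩, ⟨0, 13, 12, 12, 97, -22⟩, ⟨0, 13, 12, 14, 101, -25⟩,
   ⟨0, 13, 14, 12, 97, -25⟩, ⟨0, 13, 14, 14, 101, -27⟩, ⟨0, 14, 13, 14, 107, -25⟩,
   ⟨0, 14, 15, 14, 107, -28⟩, ⟨0, 15, 14, 14, 113, -25⟩, ⟨0, 15, 14, 16, 117, -28⟩,
   ⟨0, 15, 16, 14, 113, -28⟩, ⟨0, 15, 16, 16, 117, -31⟩, ⟨0, 16, 15, 16, 123, -28⟩,
   ⟨0, 16, 17, 16, 123, -31⟩, ⟨0, 17, 16, 16, 129, -29⟩, ⟨0, 17, 16, 18, 133, -31⟩,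
   ⟨0, 17, 18, 16, 129, -31⟩, ⟨0, 17, 18, 18, 133, -34⟩, ⟨0, 18, 17, 18, 139, -32⟩,
   ⟨0, 18, 19, 18, 139, -34⟩, ⟨0, 19, 18, 18, 145, -32⟩, ⟨0, 19, 18, 20, 149, -34⟩,
   ⟨0, 19, 20, 18, 145, -34⟩, ⟨0, 19, 20, 20, 149, -37⟩, ⟨0, 20, 19, 20, 155, -35⟩,
   ⟨0, 20, 21, 20, 155, -37⟩, ⟨0, 21, 20, 20, 161, -35⟩, ⟨0, 21, 20, 22, 165, -38⟩,
   ⟨0, 21, 22, 20, 161, -38⟩, ⟨0, 21, 22, 22, 165, -40⟩, ⟨0, 22, 21, 22, 171, -38⟩,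
   ⟨0, 22, 23, 22, 171, -40⟩, ⟨0, 23, 22, 22, 176, -38⟩, ⟨0, 23, 22, 24, 181, -41⟩,
   ⟨0, 23, 24, 22, 176, -41⟩, ⟨0, 23, 24, 24, 181, -43⟩, ⟨0, 24, 23, 24, 186, -41⟩,
   ⟨0, 24, 25, 24, 186, -44⟩]

def Sh.wn (s : Sh) (pr : ℕ) : Wn :=
  match s.ty with
  | 0 => ⟨[], [loN pr s.ρ s.kp s.kq s.m1], [hiN pr s.ρ s.kp s.kq s.m2]⟩
  | 1 => ⟨[pairAf pr 0 99 0 1 (-1) 0], [loN pr s.ρ s.kp s.kq s.m1], [hiN pr s.ρ s.kp s.kq s.m2]⟩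
  | 2 => ⟨[pairAf pr 0 58 0 1 (-1) 0], [pairAf pr 3 723 2 0 2 2], [pairAf pr 5 480 (-8) 4 2 (-4)]⟩
  | 3 => ⟨[pairAf 0 0 (-59) 0 (-1) 1 0],
      [⟨3, 1011, 2, 0, 0, 0, 6, 6, 6⟩, ⟨3, 1011, 2, 0, 10, 0, 0, 2, 6⟩],
      [⟨11, 1164, -14, 4, 4, 4, -6, -6, -6⟩]⟩
  | _ => ⟨[pairAf 0 0 (-93) 0 (-1) 1 0, pairAf 1 0 (-93) 0 (-1) 1 0],
      [loN 0 2 3 3 16, loN 2 2 3 3 16], [hiN 0 2 3 3 (-8), hiN 2 2 3 3 (-8)]⟩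

/-- the window number `j` of the table, for the pair number `pr` -/
def wn (x : ℕ × ℕ) : Wn := (tb.getD x.2 ⟨3, 0, 0, 0, 0, 0⟩).wn x.1

def tlo (pr i : ℕ) : Af := loN pr (2 * i + 1) (2 * i + 2) (2 * i + 2) (17 * i + 11)

def thi (pr i : ℕ) : Af := hiN pr (2 * i + 1) (2 * i + 2) (2 * i + 2) (9 * i + 7)

def cross (hs ls : List Af) : List Af := hs.flatMap fun h => ls.map fun l => l.sub h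

/-- the links of a chain of windows that ends with the tail `(pr, i)` -/
def go (pr i : ℕ) : List Wn → List Af → List Af
  | [], hs => bif hs.isEmpty then [] else (tlo pr (i + 1)).sub (thi pr i) :: cross hs [tlo pr i]
  | w :: ws, hs => cross hs w.lo ++ go pr i ws w.hi

def start : List Af :=
  [⟨-1, 1329, 1, 0, 0, 0, 0, 0, 0⟩, ⟨-1, 0, 1, 0, 0, 1, 0, 0, 0⟩, ⟨-1, 665, 0, 0, 0, 1, 0, 0, 0⟩,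
    ⟨-1, 750, 2, 1, -1, 1, 0, 0, 0⟩]

def g5 : Af := ⟨5, 796, -6, 2, 2, 2, -2, -2, -2⟩

def linksW (ws : List Wn) (pr i : ℕ) : List Af := start ++ go pr i ws [g5]

def sidesW (ws : List Wn) : List Af := ws.flatMap Wn.sd

/-- a chain: a list of (pair, number in the table), and the pair and the index of the tail -/
structure Ch where
  fs : List (ℕ × ℕ)
  (pr i : ℕ)

def Ch.links (x : Ch) : List Af := linksW (x.fs.map wn) x.pr x.i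

def Ch.sides (x : Ch) : List Af := sidesW (x.fs.map wn)

end Pool.Agent.MP_2339ce_nt.Q2
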