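import Pool.Agent.MP_2339ce_nt.DQ.SpecN
import Pool.Agent.MP_2339ce_nt.Q2.HD

/-! `D(-N)`-quintuples, block HP: the upper bound for the fourth element, statements. -/

set_option autoImplicit false

namespace Pool.Agent.MP_2339ce_nt.Q2

open DQ

noncomputable def Af.v (x : Af) (N a b c d : ℤ) : ℝ :=
  x.k * lg d + x.m / 100 + x.eN * lg N + x.ea * lg a + x.eb * lg b + x.ec * lg c +
    x.e1 * lg (b - a) + x.e2 * lg (c - b) + x.e3 * lg (c - a)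

/-- a valid window -/
def Wn.Ok (w : Wn) : Prop := ∀ N a b c d e : ℤ, 1 ≤ N → N ≤ 256 → Qt (-N) a b c d e →
  10000 * N ≤ d → 100 * c ≤ d → (∀ s ∈ w.sd, 0 ≤ s.v N a b c d) →
    (∃ l ∈ w.lo, lg e ≤ l.v N a b c d) ∨ ∃ h ∈ w.hi, h.v N a b c d ≤ lg e

def S_HPW : Prop := ∀ (ws : List Wn) (pr i : ℕ) (N a b c d e : ℤ), (∀ w ∈ ws, w.Ok) → 1 ≤ N →
  N ≤ 256 → Qt (-N) a b c d e → (∀ s ∈ sidesW ws, 0 ≤ s.v N a b c d) →
    ∃ M ∈ linksW ws pr i, 0 ≤ M.v N a b c d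

def S_HP : Prop := ∀ (x : Ch) (N a b c d e : ℤ), 1 ≤ N → N ≤ 256 → Qt (-N) a b c d e →
  (∀ s ∈ x.sides, 0 ≤ s.v N a b c d) → ∃ M ∈ x.links, 0 ≤ M.v N a b c d

end Pool.Agent.MP_2339ce_nt.Q2
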