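import Pool.Agent.MP_2339ce_nt.DQ.TNQ
import Pool.Agent.MP_2339ce_nt.Q2.SpecH

/-! `D(-N)`-quintuples, block HP: chains of valid windows. -/

set_option autoImplicit false

namespace Pool.Agent.MP_2339ce_nt.Q2

open DQ TNQ

def pp (pr : ℕ) (a b : ℤ) : ℤ :=
  match pr with
  | 1 => b
  | _ => a

def qq (pr : ℕ) (b c : ℤ) : ℤ :=
  match pr with
  | 0 => b
  | _ => c

variable {N a b c d e : ℤ}

theorem pair_v (pr : ℕ) (k m eN eP eQ eD : ℤ) : (pairAf pr k m eN eP eQ eD).v N a b c d =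
    k * lg d + m / 100 + eN * lg N + eP * lg (pp pr a b) + eQ * lg (qq pr b c) +
      eD * lg (qq pr b c - pp pr a b) := by
  rcases pr with _ | _ | pr <;> simp only [pairAf, Af.v, pp, qq] <;> push_cast <;> ring

theorem sub_v (x y : Af) : (x.sub y).v N a b c d = x.v N a b c d - y.v N a b c d := by
  simp only [Af.sub, Af.v]; push_cast; ring

theorem cf (H : Qt (-N) a b c d e) (h1 : 1 ≤ N) (h2 : 10000 * N ≤ d) (pr : ℕ) :
    CfN N (pp pr a b) (qq pr b c) d e := by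
  have := H.a0; have := H.ab; have := H.bc; have := H.cd
  rcases pr with _ | _ | pr
  · exact ⟨h1, H.a0, H.ab, H.bc.trans H.cd, H.de.le, h2, H.s3, H.s4, H.s6, H.s7, H.s10⟩
  · exact ⟨h1, H.a0.trans H.ab, H.bc, H.cd, H.de.le, h2, H.s6, H.s7, H.s8, H.s9, H.s10⟩
  · exact ⟨h1, H.a0, H.ab.trans H.bc, H.cd, H.de.le, h2, H.s3, H.s4, H.s8, H.s9, H.s10⟩

theorem dn_v {pr ρ kp kq : ℕ} {m1 m2 : ℤ}
    (h : DN (lg N) (lg (pp pr a b)) (lg (qq pr b c)) (lg (qq pr b c - pp pr a b)) (lg d) (lg e)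
      ρ kp kq m1 m2) :
    lg e ≤ (loN pr ρ kp kq m1).v N a b c d ∨ (hiN pr ρ kp kq m2).v N a b c d ≤ lg e := by
  rw [loN, hiN, pair_v, pair_v]
  push_cast
  rcases h with h | h
  · left; linarith
  · right; linarith

theorem good_w (h1 : S_WINN) (h2 : S_NZ) {p q : ℤ} {ρ kp kq : ℕ} {m1 m2 : ℤ} (C : CfN N p q d e)
    (g : Good ρ kp kq) (o : OkN ρ kp kq m1 m2) :
    DN (lg N) (lg p) (lg q) (lg (q - p)) (lg d) (lg e) ρ kp kq m1 m2 := by
  refine h1 ρ kp kq m1 m2 N p q d e o C ?_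
  have := C.pq; have := C.qd; have := C.big; have n1 := C.n1
  have ha : |-N| ≤ N := by rw [abs_neg, abs_of_pos (by omega)]
  have k := h2 ρ kp kq N p q d e (-N) (-N) (-N) g ⟨C.p0, C.pq, by omega, C.de, ha, ha,
    Or.inl ⟨by nlinarith, by nlinarith, by omega⟩, C.pd, C.pe, C.sd, C.se, C.sq⟩
  simpa using k

theorem lg_nn {a : ℤ} (h : 0 < a) : 0 ≤ lg a := by
  have := le_lg (a := a) 1 0 (by rw [pow_zero, pow_one]; omega)
  simpa using this

theorem tail (h1 : S_WINN) (h2 : S_NZ) (hT : S_TAILN) (H : Qt (-N) a b c d e) (n1 : 1 ≤ N)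
    (big : 10000 * N ≤ d) (pr i₀ : ℕ)
    (k1 : ((tlo pr (i₀ + 1)).sub (thi pr i₀)).v N a b c d < 0)
    (k2 : (tlo pr i₀).v N a b c d < lg e) : False := by
  have C := cf H n1 big pr
  have w : ∀ i : ℕ, lg e ≤ (tlo pr i).v N a b c d ∨ (thi pr i).v N a b c d ≤ lg e := fun i =>
    dn_v (good_w h1 h2 C ⟨(hT i).toAdm, ⟨i + 1, by ring⟩, ⟨2 * i + 1, by ring⟩, by omega⟩ (hT i))
  have l1 := lg_nn C.p0
  have l2 := lgm C.p0 C.pq.le
  have l3 := lg_nn (sub_pos.2 C.pq)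
  have l4 := lg_nn (show 0 < N by omega)
  have l5 := lg_nn (C.p0.trans (C.pq.trans C.qd))
  rw [sub_v] at k1
  simp only [tlo, thi, loN, hiN, pair_v] at k1 k2 w
  generalize lg (pp pr a b) = P, lg (qq pr b c - pp pr a b) = δ, lg (qq pr b c) = Q, lg N = L,
    lg d = D, lg e = E at *
  push_cast at k1 k2 w
  have i0 : (0 : ℝ) ≤ i₀ := Nat.cast_nonneg _
  have h0 : 0 ≤ 4 * D + 4 * P - 8 * Q - 8 * δ - 12 * L - 26 := by
    by_contra x
    have := mul_nonneg i0 (show 0 ≤ -(4 * D + 4 * P - 8 * Q - 8 * δ - 12 * L - 26) by linarith)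
    linarith
  have key : ∀ i : ℕ, i₀ ≤ i →
      (4 * i + 3) * D + (12 * i + 4) * Q + 2 * δ + 2 * L + (17 * i + 11) < E := by
    intro i hi
    induction i, hi using Nat.le_induction with
    | base => linarith
    | succ i hi ih =>
      have h4 : (4 * D + 4 * P - 8 * Q - 8 * δ - 12 * L - 26) * i₀ ≤
          (4 * D + 4 * P - 8 * Q - 8 * δ - 12 * L - 26) * i :=
        mul_le_mul_of_nonneg_left (by exact_mod_cast hi) h0
      rcases w i with k | k <;> push_cast <;> linarith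
  obtain ⟨n, hn⟩ := exists_nat_gt E
  have h5 := key (n + i₀) (Nat.le_add_left _ _)
  have n0 : (0 : ℝ) ≤ n := Nat.cast_nonneg _
  have h6 := mul_nonneg (add_nonneg n0 i0) l5
  have h7 := mul_nonneg (add_nonneg n0 i0) (l1.trans l2)
  push_cast at h5
  linarith

theorem mem_cross {hs ls : List Af} {h l : Af} (x : h ∈ hs) (y : l ∈ ls) : l.sub h ∈ cross hs ls :=
  List.mem_flatMap.2 ⟨h, x, List.mem_map.2 ⟨l, y, rfl⟩⟩

theorem go_ok (h1 : S_WINN) (h2 : S_NZ) (hT : S_TAILN) (H : Qt (-N) a b c d e) (n1 : 1 ≤ N)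
    (big : 10000 * N ≤ d) (pr i : ℕ) (ws : List Wn) (hs : List Af)
    (hw : ∀ w ∈ ws, (∃ l ∈ w.lo, lg e ≤ l.v N a b c d) ∨ ∃ h ∈ w.hi, h.v N a b c d ≤ lg e)
    (k : ∃ h ∈ hs, h.v N a b c d ≤ lg e) : ∃ M ∈ go pr i ws hs, 0 ≤ M.v N a b c d := by
  induction ws generalizing hs with
  | nil =>
    obtain ⟨h, x, y⟩ := k
    by_contra z
    push Not at z
    rw [go, List.isEmpty_eq_false_iff.2 (List.ne_nil_of_mem x), cond_false] at z
    have z1 := z _ List.mem_cons_self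
    have z2 := z _ (List.mem_cons_of_mem _ (mem_cross x List.mem_cons_self))
    rw [sub_v] at z2
    exact tail h1 h2 hT H n1 big pr i z1 (by linarith)
  | cons w ws ih =>
    rcases hw w List.mem_cons_self with ⟨l, x, y⟩ | z
    · obtain ⟨h, u, v⟩ := k
      exact ⟨_, List.mem_append_left _ (mem_cross u x), by rw [sub_v]; linarith⟩
    · obtain ⟨M, x, y⟩ := ih w.hi (fun w' h => hw w' (List.mem_cons_of_mem _ h)) z
      exact ⟨M, List.mem_append_right _ x, y⟩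

theorem quadN (a0 : 0 < a) (ab : a < b) (bc : b < c) (cd : c < d)
    (s1 : IsSquare (a * b + -N)) (s2 : IsSquare (a * c + -N)) (s3 : IsSquare (b * c + -N))
    (s4 : IsSquare (a * d + -N)) (s5 : IsSquare (b * d + -N)) (s6 : IsSquare (c * d + -N)) :
    ∃ q : Qd N, q.a = a ∧ q.b = b ∧ q.c = c ∧ q.d = d := by
  have root : ∀ {u : ℤ}, IsSquare (u + -N) → ∃ r : ℤ, 0 ≤ r ∧ r ^ 2 = u - N := fun ⟨r, hr⟩ =>
    ⟨|r|, abs_nonneg r, by rw [sq_abs]; linear_combination -hr⟩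
  obtain ⟨r, r0, hr⟩ := root s1
  obtain ⟨s, s0, hs⟩ := root s2
  obtain ⟨t, t0, ht⟩ := root s3
  obtain ⟨x, x0, hx⟩ := root s4
  obtain ⟨y, y0, hy⟩ := root s5
  obtain ⟨z, z0, hz⟩ := root s6
  exact ⟨⟨⟨a, b, c, r, s, t, a0, ab, bc, r0, s0, t0, hr, hs, ht⟩, d, x, y, z, cd, x0, y0, z0,
    hx, hy, hz⟩, rfl, rfl, rfl, rfl⟩

theorem hpW (h1 : S_WINN) (h2 : S_NZ) (hT : S_TAILN) (h3 : S_ST) (h4 : S_G5N) : S_HPW := by
  intro ws pr i N a b c d e hw n1 n2 H sd
  have a0 := H.a0; have ab := H.ab; have bc := H.bc; have cd := H.cd; have de := H.de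
  have N0 : 0 < N := by omega
  have b0 : 0 < b := by omega
  have c0 : 0 < c := by omega
  have d0 : 0 < d := by omega
  have e0 : 0 < e := by omega
  have st : ∀ M ∈ start, 0 ≤ M.v N a b c d → ∃ M ∈ linksW ws pr i, 0 ≤ M.v N a b c d :=
    fun M x y => ⟨M, List.mem_append_left _ x, y⟩
  rcases le_or_gt (10000 * N) d with s1 | s1
  swap
  · refine st ⟨-1, 1329, 1, 0, 0, 0, 0, 0, 0⟩ (by simp [start]) ?_
    have k := lgm d0 s1.le
    have n := lg_le (a := 10000) 100 1329 (by norm_num) (by decide +kernel)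
    rw [lg_mul (by norm_num) N0] at k
    simp only [Af.v]; push_cast at n ⊢; linarith
  rcases le_or_gt (N * c) d with s2 | s2
  swap
  · refine st ⟨-1, 0, 1, 0, 0, 1, 0, 0, 0⟩ (by simp [start]) ?_
    have k := lgm d0 s2.le
    rw [lg_mul N0 c0] at k
    simp only [Af.v]; push_cast; linarith
  rcases le_or_gt (100 * c) d with s3 | s3
  swap
  · refine st ⟨-1, 665, 0, 0, 0, 1, 0, 0, 0⟩ (by simp [start]) ?_
    have k := lgm d0 s3.le
    have n := lg_le (a := 100) 100 665 (by norm_num) (by decide +kernel)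
    rw [lg_mul (by norm_num) c0] at k
    simp only [Af.v]; push_cast at n ⊢; linarith
  rcases le_or_gt (180 * N ^ 2 * a * c) (b * d) with s4 | s4
  swap
  · refine st ⟨-1, 750, 2, 1, -1, 1, 0, 0, 0⟩ (by simp [start]) ?_
    have k := lgm (by positivity) s4.le
    have n := lg_le (a := 180) 100 750 (by norm_num) (by decide +kernel)
    rw [lg_mul b0 d0, lg_mul (by positivity) c0, lg_mul (by positivity) a0,
      lg_mul (by norm_num) (by positivity), lg_pow] at k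
    simp only [Af.v]; push_cast at n k ⊢; linarith
  obtain ⟨q, e1, e2, e3, e4⟩ := quadN b0 bc cd de H.s5 H.s6 H.s8 H.s7 H.s9 H.s10
  have k1 := h3 N q n1 (by rw [e2, e3]; exact s2) (by rw [e3]; exact s1)
  rw [e1, e3, e4] at k1
  have k2 : 9 * a * b * c * d ^ 2 ≤ N ^ 2 * e := by
    have u : 180 * N ^ 2 * a * c * (b * d ^ 2) ≤ b * d * (b * d ^ 2) := by gcongr
    exact le_of_mul_le_mul_left (a := 20 * N ^ 2) (by linarith) (by positivity)
  have k3 := lgm (by positivity) (h4 N a b c d e n2 (cf H n1 s1 0) (cf H n1 s1 1) k2)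
  have p1 : 0 < b - a := by omega
  have p2 : 0 < c - a := by omega
  have p3 : 0 < c - b := by omega
  rw [lg_mul (by positivity) (by positivity), lg_mul (by positivity) e0,
    lg_mul (by norm_num) (by positivity), lg_mul (by positivity) (by positivity), lg_pow, lg_pow,
    lg_pow, lg_pow, lg_mul (by positivity) c0, lg_mul a0 b0, lg_mul (by positivity) p3,
    lg_mul p1 p2] at k3
  have n := le_lg (a := 250) 100 796 (by decide +kernel)
  obtain ⟨M, x, y⟩ := go_ok h1 h2 hT H n1 s1 pr i ws [g5]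
    (fun w h => hw w h N a b c d e n1 n2 H s1 s3 fun s x => sd s (List.mem_flatMap.2 ⟨w, h, x⟩))
    ⟨g5, List.mem_cons_self, by simp only [g5, Af.v]; push_cast at n k3 ⊢; linarith⟩
  exact ⟨M, List.mem_append_right _ x, y⟩

end Pool.Agent.MP_2339ce_nt.Q2
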