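import Pool.Agent.MP_2339ce_nt.Q2.HD

/-! `D(-N)`-quintuples, block HP: sharp windows and half windows, data. -/

set_option autoImplicit false

namespace Pool.Agent.MP_2339ce_nt.Q2

/-- a form with three nodes; weights are in units of `1 / 1000`, constants in units of `1 / 10` -/
structure Fm2 where
  (pr ρ kp kq nz v0 vp lam th0 thp thm ph0 php tau : ℕ)
  (m0 mp mm n0 n1 : ℤ)

namespace Fm2

variable (f : Fm2)

def sg : ℕ := f.ρ + f.kp + f.kq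

def lo0 : Af :=
  if f.v0 = 0 then pairAf f.pr (2 * f.ρ + 1) (10 * f.m0) 2 0 (2 * (f.ρ + f.kp - 1)) (2 * (f.kq - 1))
  else pairAf f.pr (2 * f.ρ + 1) (10 * f.m0) 2 0 (2 * (f.ρ - 1)) (2 * (f.kp + f.kq - 1))

def lop : Af :=
  if f.vp = 0 then
    pairAf f.pr (2 * f.ρ + 1) (10 * f.mp) 2 (2 * (f.kq - 2)) (2 * (f.ρ + f.kp - 1)) 2
  else pairAf f.pr (2 * f.ρ + 1) (10 * f.mp) 2 (2 * (f.ρ + f.kq - 1)) (2 * (f.kp - 2)) 2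

def top : Af :=
  pairAf f.pr (2 * (f.kp + f.kq) - 1) (-(10 * f.mm)) (-(2 * f.sg)) (2 * f.kp) (2 * f.kq)
    (2 - 2 * (f.kp + f.kq))

def mid0 : Af := pairAf f.pr f.sg (10 * f.n0) (1 - f.sg) f.kp (f.kq + f.ρ - 1) 0

def midp : Af :=
  pairAf f.pr f.sg (10 * f.n1) (1 - f.sg) (f.sg - 1) (f.kp + f.kq - 2) (2 - f.kp - f.kq)

def midf : Af := pairAf f.pr f.sg (10 * f.n1) (1 - f.sg) (f.sg - 1) 0 0

def far : Af := pairAf f.pr 0 (-f.tau) 0 (-1) 1 0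

/-- the error at the node `0` has the sign opposite to the main term -/
def o0 : Bool := (f.kp + f.kq + f.ρ) % 2 == 0

/-- the error at the node of the smaller element has the sign opposite to the main term -/
def op : Bool := (f.kp + f.ρ) % 2 == 0

def wn : Wn :=
  match f.nz with
  | 0 => ⟨[], [f.lo0, f.lop], [f.top]⟩
  | 1 => ⟨[], f.lo0 :: f.lop :: ((bif f.o0 then [f.mid0] else []) ++ bif f.op then [f.midp] else []),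
      [f.top]⟩
  | 2 => ⟨[f.far],
      f.lo0 :: f.lop :: ((bif f.o0 then [f.mid0] else []) ++ bif f.op then [f.midf] else []),
      [f.top]⟩
  | 3 => ⟨[], [f.lo0, f.lop], [f.top, f.mid0]⟩
  | 4 => ⟨[f.far], [f.lo0, f.lop], [f.top, f.mid0]⟩
  | 5 => ⟨[f.far], [f.lo0, f.lop], [f.top]⟩
  | 6 => ⟨[], [f.lo0, f.lop], [f.top, f.midp]⟩
  | _ => ⟨[pairAf f.pr 0 99 0 1 (-1) 0], [f.lo0, f.lop], [f.top]⟩

end Fm2

def q122 : Af := ⟨9, 1237, -12, 2, 4, 4, -4, -6, -4⟩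

/-- upper halves of two forms with four nodes -/
def wq : ℕ → Wn
  | 0 => ⟨[], [⟨6, 782, -5, 1, 2, 2, 0, 0, 0⟩, ⟨6, 782, -5, 1, 5, 2, -1, -2, 0⟩,
      ⟨6, 782, -5, 1, 2, 5, 0, -2, -1⟩], [q122]⟩
  | 1 => ⟨[pairAf 0 0 (-200) 0 (-1) 1 0, pairAf 1 0 (-200) 0 (-1) 1 0],
      [⟨6, 785, -5, 1, 2, 2, 0, 0, 0⟩], [q122]⟩
  | 2 => ⟨[pairAf 0 0 (-93) 0 (-1) 1 0, pairAf 1 0 (-93) 0 (-1) 1 0],
      [⟨6, 953, -5, 1, 2, 2, 0, 0, 0⟩], [q122]⟩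
  | 3 => ⟨[pairAf 0 0 (-200) 0 (-1) 1 0], [⟨6, 811, -5, 1, 2, 4, 0, -2, 0⟩], [q122]⟩
  | _ => ⟨[], [⟨3, 870, 2, 6, 0, 0, 2, 4, 2⟩, ⟨3, 870, 2, 0, 6, 0, 2, 2, 4⟩,
      ⟨6, 623, -5, 2, 2, 1, 0, 0, 0⟩], [⟨9, 1206, -12, 4, 4, 2, -6, -4, -4⟩]⟩

end Pool.Agent.MP_2339ce_nt.Q2
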