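import Pool.Agent.MP_2339ce_nt.Q2.SpecH
import Pool.Agent.MP_2339ce_nt.Q2.HD2

/-! `D(-N)`-quintuples, block HP: sharp windows and half windows, statements. -/

set_option autoImplicit false

noncomputable section

namespace Pool.Agent.MP_2339ce_nt.Q2

open DQ Real

/-- the main term -/
def tm (ρ kp kq : ℕ) (N p q d e : ℝ) : ℝ :=
  √(1 + -N / (q * e)) * SS ρ (1 / d) 0 (-N / q) (-N / p) (ρ + 1) kq kp 1 1 1

/-- the error at the node `0` -/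
def t0 (ρ kp kq : ℕ) (N p q d e : ℝ) : ℝ :=
  (√(1 + -N / (d * e)) - √(1 + -N / (q * e))) * rs ρ (1 / d) 0 (-N / q) (-N / p) (ρ + 1) kq kp

/-- the error at the node `-N / p` -/
def tp (ρ kp kq : ℕ) (N p q d e : ℝ) : ℝ :=
  (√(1 + -N / (p * e)) - √(1 + -N / (q * e))) *
    (√(1 + -N / p * (1 / d)) * rs ρ (1 / d) (-N / p) 0 (-N / q) kp (ρ + 1) kq)

structure Rg (ρ kp kq : ℕ) (N p q d e : ℝ) : Prop extends Adm ρ kp kq where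
  k2 : 2 ≤ kq
  big : ρ + 1 ≤ kp + kq
  n0 : 0 < N
  one : 1 ≤ p
  pq : p < q
  qd : 100 * q ≤ d
  de : d ≤ e
  nd : 10000 * N ≤ d

def eta (σ : ℕ) : ℝ := (1001 / 1000) ^ σ

/-- the main term from both sides, and the first upper bounds -/
def S_TA : Prop := ∀ (ρ kp kq : ℕ) (N p q d e : ℝ), Rg ρ kp kq N p q d e →
  be ρ (ρ + kp + kq) / eta (ρ + kp + kq) / d ^ (ρ + kp + kq) ≤
      (-1) ^ (kp + kq + 1) * tm ρ kp kq N p q d e ∧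
    (-1) ^ (kp + kq + 1) * tm ρ kp kq N p q d e ≤
      be ρ (ρ + kp + kq) * eta (ρ + kp + kq) / d ^ (ρ + kp + kq) ∧
    |t0 ρ kp kq N p q d e| ≤ eta (ρ + kp + kq) / 2 * ((ρ + kq - 1).choose ρ : ℕ) *
      ((q / N) ^ (ρ + kq - 1) * (p * q / (N * (q - p))) ^ kp / e) ∧
    |tp ρ kp kq N p q d e| ≤ eta (ρ + kp + kq) / 2 * ((kp + kq - 2).choose (kp - 1) : ℕ) *
      ((q / N) ^ (ρ + 1) * (p * q / (N * (q - p))) ^ (kp + kq - 2) / e)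

/-- lower bounds for the errors -/
def S_TL : Prop := ∀ (ρ kp kq : ℕ) (N p q d e : ℝ), Rg ρ kp kq N p q d e →
  49 / 100 / eta (ρ + kp + kq) * ((ρ + kq - 1).choose ρ : ℕ) *
      ((q / N) ^ (ρ + kq - 1) * (p / N) ^ kp / e) ≤ (-1) ^ ρ * t0 ρ kp kq N p q d e ∧
    1 / 2 / eta (ρ + kp + kq) * ((kp + kq - 2).choose (kp - 1) : ℕ) *
      ((p / N) ^ (ρ + 1) * (p * q / (N * (q - p))) ^ (kp + kq - 2) / e) ≤
      (-1) ^ (ρ + kq) * tp ρ kp kq N p q d e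

/-- the second upper bounds -/
def S_TU : Prop := ∀ (ρ kp kq : ℕ) (N p q d e : ℝ), Rg ρ kp kq N p q d e →
  |t0 ρ kp kq N p q d e| ≤ eta (ρ + kp + kq) / 2 * ((ρ + kp + kq - 1).choose ρ : ℕ) *
      ((q / N) ^ (ρ + kq - 1) * (p / N) ^ kp / e) ∧
    |tp ρ kp kq N p q d e| ≤ eta (ρ + kp + kq) / 2 * ((ρ + kp + kq - 1).choose (kp - 1) : ℕ) *
      ((p / N) ^ (ρ + 1) * (p * q / (N * (q - p))) ^ (kp + kq - 2) / e)

/-- the main term of the forms with three double nodes `0`, `β`, `γ` and a simple node `α` -/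
def i7 (x α β γ : ℝ) : ℝ :=
  (3 / 2 * x + 1 / α + 2 / β + 2 / γ) / (-α * β ^ 2 * γ ^ 2) +
  √(1 + β * x) * (3 / 2 * x - (1 + β * x) * (2 / β + 1 / (β - α) + 2 / (β - γ))) /
    (β ^ 2 * (β - α) * (β - γ) ^ 2) +
  √(1 + γ * x) * (3 / 2 * x - (1 + γ * x) * (2 / γ + 1 / (γ - α) + 2 / (γ - β))) /
    (γ ^ 2 * (γ - α) * (γ - β) ^ 2) +
  √(1 + α * x) * (1 + α * x) / (α * (α - β) * (α - γ)) ^ 2

def S_I7 : Prop := ∀ x α β γ : ℝ, 0 < x → α < 0 → β < 0 → γ < 0 → α ≠ β → α ≠ γ → β ≠ γ →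
  -α * x ≤ 1 / 10000 → -β * x ≤ 1 / 10000 → -γ * x ≤ 1 / 10000 →
  683 / 100000 * x ^ 6 ≤ i7 x α β γ ∧ i7 x α β γ ≤ 685 / 100000 * x ^ 6

def S_Q122 : Prop := ∀ N a b c d e : ℤ, CfN N a b d e → CfN N b c d e → 100 * c ≤ d →
  N ^ 5 * ((b - a) * (c - b) ^ 2 * (c - a)) * e ≤ 75 * (a * b ^ 2 * c ^ 2) * d ^ 6 *
      ((b - a) * (c - b) ^ 2 * (c - a) + (c - a) * b ^ 3 + (b - a) * c ^ 3) ∨
    5300 * (a * b ^ 2 * c ^ 2) ^ 2 * d ^ 9 ≤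
      N ^ 12 * ((b - a) ^ 2 * (c - b) ^ 3 * (c - a) ^ 2) ^ 2 * e

def S_Q221 : Prop := ∀ N a b c d e : ℤ, CfN N a b d e → CfN N b c d e → 100 * c ≤ d →
  N ^ 5 * e ≤ 75 * (a ^ 2 * b ^ 2 * c) * d ^ 6 ∨
    e ≤ 410 * N ^ 2 * ((b - a) * (c - b) ^ 2 * (c - a) * a ^ 3) ^ 2 * d ^ 3 ∨
    e ≤ 410 * N ^ 2 * ((b - a) * (c - b) * (c - a) ^ 2 * b ^ 3) ^ 2 * d ^ 3 ∨
    4300 * (a ^ 2 * b ^ 2 * c) ^ 2 * d ^ 9 ≤
      N ^ 12 * ((b - a) ^ 3 * (c - b) ^ 2 * (c - a) ^ 2) ^ 2 * e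

def S_WQ : Prop := ∀ j : ℕ, (wq j).Ok

namespace Fm2

variable (f : Fm2)

def et : ℚ := (1001 / 1000) ^ f.sg
def bq : ℚ := beQ f.ρ f.sg
def c0 : ℚ := ((f.ρ + f.kq - 1).choose f.ρ : ℕ)
def c0b : ℚ := ((f.sg - 1).choose f.ρ : ℕ)
def cp : ℚ := ((f.kp + f.kq - 2).choose (f.kp - 1) : ℕ)
def cpb : ℚ := ((f.sg - 1).choose (f.kp - 1) : ℕ)
def lm : ℚ := f.lam / 1000

def Base : Prop :=
  (1 ≤ f.kp ∧ f.kp ≤ f.ρ + 1 ∧ 2 ≤ f.kq ∧ f.kq ≤ f.ρ + 1 ∧ f.ρ + 1 ≤ f.kp + f.kq) ∧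
  (0 < f.th0 ∧ 0 < f.thp ∧ 0 < f.thm ∧
    f.thm + (bif f.o0 then 0 else f.th0) + (bif f.op then 0 else f.thp) ≤ 1000 ∧
    (bif f.o0 then f.th0 else 0) + (bif f.op then f.thp else 0) ≤ 1000) ∧
  (f.et / 2 * 4 ^ f.ρ * (if f.v0 = 0 then f.c0 else f.c0b) * 1000 / f.th0) ^ 20 ≤ 2 ^ f.m0 ∧
  (f.et / 2 * 4 ^ f.ρ * (if f.vp = 0 then f.cp else f.cpb) * 1000 / f.thp) ^ 20 ≤ 2 ^ f.mp ∧
  (f.et * 4 ^ f.ρ * f.bq * 1000 / f.thm) ^ 20 ≤ 2 ^ f.mm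

def Far : Prop := 0 < f.lam ∧ f.lam < 1000 ∧ 1000 ^ 100 < 2 ^ f.tau * f.lam ^ 100

/-- a bound for the ratio of the two errors of a far pair -/
def rat : ℚ := f.et ^ 2 * f.cpb * 50 / (49 * f.c0) * f.lm ^ (f.ρ + f.kq - 1) /
  (1 - f.lm) ^ (f.kp + f.kq - 2)

def Ph : Prop := 0 < f.ph0 ∧ 0 < f.php ∧
  (bif f.o0 then f.ph0 else 0) + (bif f.op then f.php else 0) ≤ 1000

def N1 : Prop := f.Ph ∧
  (f.o0 = true → (f.et ^ 2 * f.c0b * 500 / (f.bq * f.ph0)) ^ 10 ≤ 2 ^ f.n0) ∧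
  (f.op = true → (f.et ^ 2 * f.cpb * 500 / (f.bq * f.php)) ^ 10 ≤ 2 ^ f.n1)

def N2 : Prop := f.Far ∧ f.Ph ∧
  (f.o0 = true → (f.et ^ 2 * min f.c0b (f.c0 / (1 - f.lm) ^ f.kp) * 500 / (f.bq * f.ph0)) ^ 10 ≤
    2 ^ f.n0) ∧
  (f.op = true → (f.et ^ 2 * f.cpb * 500 / (f.bq * f.php * (1 - f.lm) ^ (f.kp + f.kq - 2))) ^ 10 ≤
    2 ^ f.n1)

def N3 : Prop := f.o0 = true ∧ f.op = true ∧
  2 ^ f.n0 ≤ (49 / 100 * f.c0 / (f.et ^ 2 * f.bq)) ^ 10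

def N4 : Prop := f.Far ∧ f.o0 = true ∧ f.op = false ∧ f.rat < 1 ∧
  2 ^ f.n0 ≤ ((1 - f.rat) * (49 / 100 * f.c0) / (f.et ^ 2 * f.bq)) ^ 10

def N5 : Prop := f.Far ∧ f.o0 = false ∧ f.rat ≤ 1

def N6 : Prop := f.o0 = true ∧ f.op = true ∧ 2 ^ f.n1 ≤ (f.cp / (2 * f.et ^ 2 * f.bq)) ^ 10

def Good : Prop := f.Base ∧ (f.nz = 0 → f.o0 = false ∧ f.op = false) ∧ (f.nz = 1 → f.N1) ∧
  (f.nz = 2 → f.N2) ∧ (f.nz = 3 → f.N3) ∧ (f.nz = 4 → f.N4) ∧ (f.nz = 5 → f.N5) ∧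
  (f.nz = 6 → f.N6) ∧ (7 ≤ f.nz → f.kp = f.ρ + 1 ∧ f.ρ ≤ 10)

instance : Decidable f.Base := by unfold Base; infer_instance
instance : Decidable f.Far := by unfold Far; infer_instance
instance : Decidable f.Ph := by unfold Ph; infer_instance
instance : Decidable f.N1 := by unfold N1; infer_instance
instance : Decidable f.N2 := by unfold N2; infer_instance
instance : Decidable f.N3 := by unfold N3; infer_instance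
instance : Decidable f.N4 := by unfold N4; infer_instance
instance : Decidable f.N5 := by unfold N5; infer_instance
instance : Decidable f.N6 := by unfold N6; infer_instance
instance : Decidable f.Good := by unfold Good; infer_instance

end Fm2

def S_FM2 : Prop := ∀ f : Fm2, f.Good → f.wn.Ok

end Pool.Agent.MP_2339ce_nt.Q2

end
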