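import Pool.Agent.MP_2339ce_nt.DQ.NF121
import Pool.Agent.MP_2339ce_nt.DQ.NF4
import Pool.Agent.MP_2339ce_nt.DQ.NG5N
import Pool.Agent.MP_2339ce_nt.DQ.NINTN
import Pool.Agent.MP_2339ce_nt.DQ.NSIZEN
import Pool.Agent.MP_2339ce_nt.DQ.NST
import Pool.Agent.MP_2339ce_nt.DQ.NWINN
import Pool.Agent.MP_2339ce_nt.DQ.TBND3
import Pool.Agent.MP_2339ce_nt.Q2.HC
import Pool.Agent.MP_2339ce_nt.Q2.HW

/-! `D(-N)`-quintuples, block HP: the windows of the table are valid. -/

set_option autoImplicit false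

namespace Pool.Agent.MP_2339ce_nt.Q2

open DQ TNQ

theorem allWin : S_WINN := winN intN (sizeN main bnd3 be3)

theorem allW : S_HPW := hpW allWin (nz main sgn) tailN stN g5N

def Sh.Num (s : Sh) : Prop := (1 ≤ s.kp ∧ s.kp ≤ s.ρ + 1 ∧ 2 ≤ s.kq ∧ s.kq ≤ s.ρ + 1) ∧
  4 * epN s.ρ s.kp s.kq ^ 2 ≤ 2 ^ s.m1 ∧ 4 * muN s.ρ s.kp s.kq ^ 2 ≤ 2 ^ s.m2

theorem Sh.Num.ok {s : Sh} (h : s.Num) : OkN s.ρ s.kp s.kq s.m1 s.m2 :=
  ⟨⟨h.1.1, h.1.2.1, by have := h.1.2.2.1; omega, h.1.2.2.2⟩, h.1.2.2.1, h.2.1, h.2.2⟩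

theorem tb_ok : ∀ s ∈ tb, (s.ty = 0 → s.kq % 2 = 0 ∧ (s.kp + s.ρ) % 2 = 1 ∧ s.ρ + 1 ≤ s.kp + s.kq) ∧
    (s.ty = 1 → s.kp = s.ρ + 1 ∧ s.ρ ≤ 10) ∧ (s.ty ≤ 1 → s.Num) := by
  unfold Sh.Num
  decide +kernel

theorem ratio {p q : ℤ} (u v : ℤ) (n m : ℕ) (p0 : 0 < p) (q0 : 0 < q) (u0 : 0 < u) (v0 : 0 < v)
    (h : 2 ^ m * u ^ n < v ^ n) (k : n * lg q ≤ n * lg p + m) : u * q ≤ v * p := by
  by_contra x
  have k1 := lgm (by positivity) (not_le.1 x).le
  have k2 : lg (2 ^ m * u ^ n) < lg (v ^ n) :=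
    Real.logb_lt_logb one_lt_two (by positivity) (by exact_mod_cast h)
  rw [lg_mul v0 p0, lg_mul u0 q0] at k1
  rw [lg_mul (by positivity) (by positivity), lg_pow, lg_pow, lg_pow, lg_two] at k2
  have k3 := mul_le_mul_of_nonneg_left k1 (Nat.cast_nonneg (α := ℝ) n)
  linarith

theorem ratio' {p q : ℤ} (u v : ℤ) (n m : ℕ) (p0 : 0 < p) (q0 : 0 < q) (u0 : 0 < u) (v0 : 0 < v)
    (h : v ^ n < 2 ^ m * u ^ n) (k : n * lg p + m ≤ n * lg q) : v * p ≤ u * q := by
  by_contra x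
  have k1 := lgm (by positivity) (not_le.1 x).le
  have k2 : lg (v ^ n) < lg (2 ^ m * u ^ n) :=
    Real.logb_lt_logb one_lt_two (by positivity) (by exact_mod_cast h)
  rw [lg_mul v0 p0, lg_mul u0 q0] at k1
  rw [lg_mul (by positivity) (by positivity), lg_pow, lg_pow, lg_pow, lg_two] at k2
  have k3 := mul_le_mul_of_nonneg_left k1 (Nat.cast_nonneg (α := ℝ) n)
  linarith

theorem one {x y E : ℝ} {f : Af → ℝ} {l h : Af} (k : E ≤ x ∨ y ≤ E) (e1 : x ≤ f l) (e2 : f h ≤ y) :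
    (∃ z ∈ [l], E ≤ f z) ∨ ∃ z ∈ [h], f z ≤ E :=
  k.imp (fun k => ⟨l, List.mem_cons_self, k.trans e1⟩) fun k => ⟨h, List.mem_cons_self, e2.trans k⟩

theorem w0 (pr : ℕ) (s : Sh) (o : s.Num)
    (g : s.kq % 2 = 0 ∧ (s.kp + s.ρ) % 2 = 1 ∧ s.ρ + 1 ≤ s.kp + s.kq) :
    Wn.Ok ⟨[], [loN pr s.ρ s.kp s.kq s.m1], [hiN pr s.ρ s.kp s.kq s.m2]⟩ := by
  intro N a b c d e n1 _ H big _ _
  exact one (f := fun z => z.v N a b c d) (dn_v (good_w allWin (nz main sgn) (cf H n1 big pr)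
    ⟨o.ok.toAdm, Nat.even_iff.2 g.1, Nat.odd_iff.2 g.2.1, g.2.2⟩ o.ok)) le_rfl le_rfl

theorem w1 (pr : ℕ) (s : Sh) (o : s.Num) (g : s.kp = s.ρ + 1 ∧ s.ρ ≤ 10) :
    Wn.Ok ⟨[pairAf pr 0 99 0 1 (-1) 0], [loN pr s.ρ s.kp s.kq s.m1], [hiN pr s.ρ s.kp s.kq s.m2]⟩ := by
  intro N a b c d e n1 _ H big _ sd
  have C := cf H n1 big pr
  have k := sd _ List.mem_cons_self
  rw [pair_v] at k
  have k1 := ratio 100 199 100 99 C.p0 (C.p0.trans C.pq) (by norm_num) (by norm_num)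
    (by decide +kernel) (by push_cast at k ⊢; linarith)
  refine one (f := fun z => z.v N a b c d) (dn_v (allWin _ _ _ _ _ _ _ _ _ _ o.ok C ?_))
    le_rfl le_rfl
  rw [g.1]
  exact nzc2 main _ _ _ _ _ _ _ o.1.2.2.1 o.1.2.2.2 g.2 (by exact_mod_cast n1)
    (by exact_mod_cast C.p0) (by exact_mod_cast C.pq) (by exact_mod_cast C.qd)
    (by exact_mod_cast C.de) (by exact_mod_cast big) (by exact_mod_cast k1)

theorem w2 (pr : ℕ) : Wn.Ok ⟨[pairAf pr 0 58 0 1 (-1) 0], [pairAf pr 3 723 2 0 2 2],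
    [pairAf pr 5 480 (-8) 4 2 (-4)]⟩ := by
  intro N a b c d e n1 _ H big _ sd
  have C := cf H n1 big pr
  have k := sd _ List.mem_cons_self
  rw [pair_v] at k
  have p0 := C.p0
  have q0 := p0.trans C.pq
  have d0 := q0.trans C.qd
  have e0 := d0.trans_le C.de
  have N0 : 0 < N := n1
  have r0 := sub_pos.2 C.pq
  have k1 := ratio 2 3 100 58 p0 q0 (by norm_num) (by norm_num)
    (by decide +kernel) (by push_cast at k ⊢; linarith)
  have m1 := lg_le (a := 150) 100 723 (by norm_num) (by decide +kernel)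
  have m2 := le_lg (a := 28) 100 480 (by decide +kernel)
  refine one (f := fun z => z.v N a b c d) ((f121 main intN N _ _ d e C k1).imp (fun x => ?_)
    fun x => ?_) le_rfl le_rfl <;> simp only [pair_v] <;> have y := lgm (by positivity) x <;>
    rw [lg_mul (by positivity) (by positivity), lg_mul (by positivity) (by positivity),
      lg_mul (by positivity) (by positivity), lg_mul (by positivity) (by positivity)] at y
  · rw [lg_pow, lg_pow, lg_pow, lg_pow] at y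
    push_cast at y m1 ⊢; linarith
  · rw [lg_mul (by positivity) (by positivity), lg_pow, lg_pow, lg_pow, lg_pow, lg_pow] at y
    push_cast at y m2 ⊢; linarith

theorem w3' (hI : S_I4) : Wn.Ok ⟨[pairAf 0 0 (-59) 0 (-1) 1 0],
    [⟨3, 1011, 2, 0, 0, 0, 6, 6, 6⟩, ⟨3, 1011, 2, 0, 10, 0, 0, 2, 6⟩],
    [⟨11, 1164, -14, 4, 4, 4, -6, -6, -6⟩]⟩ := by
  intro N a b c d e n1 _ H big _ sd
  have k := sd _ List.mem_cons_self
  simp only [pairAf, Af.v] at k
  have a0 := H.a0; have ab := H.ab; have bc := H.bc; have cd := H.cd; have de := H.de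
  have N0 : 0 < N := by omega
  have b0 : 0 < b := by omega
  have c0 : 0 < c := by omega
  have d0 : 0 < d := by omega
  have e0 : 0 < e := by omega
  have p1 : 0 < b - a := by omega
  have p2 : 0 < c - a := by omega
  have p3 : 0 < c - b := by omega
  have k1 := ratio' 2 3 100 59 a0 b0 (by norm_num) (by norm_num)
    (by decide +kernel) (by push_cast at k ⊢; linarith)
  have m1 := lg_le (a := 1100) 100 1011 (by norm_num) (by decide +kernel)
  have m2 := le_lg (a := 3200) 100 1164 (by decide +kernel)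
  have eV : lg ((b - a) * (c - a) * (c - b)) = lg (b - a) + lg (c - a) + lg (c - b) := by
    rw [lg_mul (by positivity) p3, lg_mul p1 p2]
  rcases f4 hI N a b c d e (cf H n1 big 0) (cf H n1 big 1) (by nlinarith) with x | x | x <;>
    have y := lgm (by positivity) x
  · refine Or.inl ⟨_, List.mem_cons_self, ?_⟩
    rw [lg_mul (by positivity) (by positivity), lg_mul (by positivity) (by positivity),
      lg_mul (by positivity) (by positivity), lg_pow, lg_pow, lg_pow, eV] at y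
    simp only [Af.v]; push_cast at y m1 ⊢; linarith
  · refine Or.inl ⟨_, List.mem_cons_of_mem _ List.mem_cons_self, ?_⟩
    rw [lg_mul (by positivity) (by positivity), lg_mul (by positivity) (by positivity),
      lg_mul (by positivity) (by positivity), lg_pow, lg_pow, lg_pow, lg_mul (by positivity) p3,
      lg_mul (by positivity) (by positivity), lg_pow, lg_pow] at y
    simp only [Af.v]; push_cast at y m1 ⊢; linarith
  · refine Or.inr ⟨_, List.mem_cons_self, ?_⟩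
    rw [lg_mul (by positivity) (by positivity), lg_mul (by positivity) (by positivity),
      lg_mul (by positivity) e0, lg_mul (by positivity) (by positivity), lg_pow, lg_pow, lg_pow,
      lg_pow, eV, lg_mul (by positivity) c0, lg_mul a0 b0] at y
    simp only [Af.v]; push_cast at y m2 ⊢; linarith

theorem w4 : Wn.Ok ⟨[pairAf 0 0 (-93) 0 (-1) 1 0, pairAf 1 0 (-93) 0 (-1) 1 0],
    [loN 0 2 3 3 16, loN 2 2 3 3 16], [hiN 0 2 3 3 (-8), hiN 2 2 3 3 (-8)]⟩ := by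
  intro N a b c d e n1 _ H big hc sd
  have k := sd _ List.mem_cons_self
  have k' := sd _ (List.mem_cons_of_mem _ List.mem_cons_self)
  simp only [pairAf, Af.v] at k k'
  have a0 := H.a0; have ab := H.ab; have bc := H.bc
  have k1 := ratio' (q := b) 10 19 100 93 a0 (by omega) (by norm_num) (by norm_num)
    (by decide +kernel) (by push_cast at k ⊢; linarith)
  have k2 := ratio' (p := b) (q := c) 10 19 100 93 (by omega) (by omega) (by norm_num) (by norm_num)
    (by decide +kernel) (by push_cast at k' ⊢; linarith)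
  have o : OkN 2 3 3 16 (-8) := (tb_ok ⟨1, 2, 3, 3, 16, -8⟩ (by simp [tb])).2.2 le_rfl |>.ok
  rcases nz4 main (-N) a b c d e (by omega) a0 k1 k2 hc
    (by rw [abs_neg, abs_of_pos (by omega)]; omega) H.de.le with u | u
  · rcases dn_v (pr := 0) (c := c) (allWin _ _ _ _ _ _ _ _ _ _ o (cf H n1 big 0)
      (by simpa [pp, qq] using u)) with x | x
    · exact Or.inl ⟨_, List.mem_cons_self, x⟩
    · exact Or.inr ⟨_, List.mem_cons_self, x⟩
  · rcases dn_v (pr := 2) (b := b) (allWin _ _ _ _ _ _ _ _ _ _ o (cf H n1 big 2)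
      (by simpa [pp, qq] using u)) with x | x
    · exact Or.inl ⟨_, List.mem_cons_of_mem _ List.mem_cons_self, x⟩
    · exact Or.inr ⟨_, List.mem_cons_of_mem _ List.mem_cons_self, x⟩

theorem wn_ok (hI : S_I4) (x : ℕ × ℕ) : (wn x).Ok := by
  have m : tb.getD x.2 ⟨3, 0, 0, 0, 0, 0⟩ ∈ tb := by
    rw [List.getD_eq_getElem?_getD]
    rcases h : tb[x.2]? with _ | s
    · simp [tb]
    · exact List.mem_of_getElem? h
  rw [wn]
  generalize tb.getD x.2 ⟨3, 0, 0, 0, 0, 0⟩ = s at m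
  obtain ⟨g0, g1, g2⟩ := tb_ok s m
  unfold Sh.wn
  split
  · rename_i h; exact w0 _ s (g2 (by omega)) (g0 h)
  · rename_i h; exact w1 _ s (g2 (by omega)) (g1 h)
  · exact w2 _
  · exact w3' hI
  · exact w4

theorem hp (hI : S_I4) : S_HP := fun x N a b c d e n1 n2 H sd =>
  allW _ x.pr x.i N a b c d e
    (fun w h => by obtain ⟨y, -, rfl⟩ := List.mem_map.1 h; exact wn_ok hI y) n1 n2 H sd

end Pool.Agent.MP_2339ce_nt.Q2
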