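import Pool.Agent.MP_2339ce_nt.Q2.SpecH2
import Pool.Agent.MP_2339ce_nt.DQ.NSIZEN

/-! `D(-N)`-quintuples, block HP: the main term from both sides and the first error bounds. -/

set_option autoImplicit false

noncomputable section

namespace Pool.Agent.MP_2339ce_nt.Q2

open DQ Real

namespace HTA

theorem alg0 {a b : ℕ} {N q e W C E κ : ℝ} (N0 : 0 < N) (q0 : 0 < q) (e0 : 0 < e) (W0 : 0 < W) :
    κ * (N / (q * e)) * (C * E / ((N / q) ^ (a + 1) * W ^ b)) =
      κ * E * C * ((q / N) ^ a * W⁻¹ ^ b / e) := by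
  simp only [div_pow, inv_pow]
  field_simp
  ring

theorem algp {a b : ℕ} {N q e W C E κ : ℝ} (N0 : 0 < N) (q0 : 0 < q) (e0 : 0 < e) (W0 : 0 < W) :
    κ * (W / e) * (1 * (C * E / (W ^ (b + 1) * (N / q) ^ a))) =
      κ * E * C * ((q / N) ^ a * W⁻¹ ^ b / e) := by
  simp only [div_pow, inv_pow]
  field_simp
  ring

theorem low {σ : ℕ} (hσ : 1 ≤ σ) :
    (1 + 1 / 10000 : ℝ) ^ σ ≤ 9999 / 10000 * (1001 / 1000) ^ σ := by
  obtain ⟨s, rfl⟩ : ∃ s, σ = s + 1 := ⟨σ - 1, by omega⟩
  have a : (1 + 1 / 10000 : ℝ) ^ s ≤ (1001 / 1000) ^ s :=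
    pow_le_pow_left₀ (by norm_num) (by norm_num) s
  have b : (0 : ℝ) ≤ (1001 / 1000) ^ s := by positivity
  rw [pow_succ, pow_succ]
  linarith

end HTA

open TSIZE3 NSIZEN HTA in
theorem ta (h1 : S_MAIN) (h2 : S_BND3) : S_TA := by
  intro ρ kp kq N p q d e hS
  have N0 := hS.n0
  have p1 := hS.one
  have pq := hS.pq
  have qd' := hS.qd
  have de := hS.de
  have big := hS.nd
  obtain ⟨i, rfl⟩ : ∃ i, kp = i + 1 := ⟨kp - 1, by have := hS.p1; omega⟩
  obtain ⟨j, rfl⟩ : ∃ j, kq = j + 2 := ⟨kq - 2, by have := hS.k2; omega⟩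
  have hi : i ≤ ρ := by have := hS.p2; omega
  have p0 : 0 < p := by linarith
  have q0 : 0 < q := by linarith
  have qd : q ≤ d := by linarith
  have d0 : 0 < d := by linarith
  have e0 : 0 < e := by linarith
  have D0 : 0 < q - p := by linarith
  have x0 : 0 < 1 / d := by positivity
  have ge : ∀ y z : ℝ, 1 ≤ y → d ≤ z → N / (y * z) ≤ 1 / 10000 := fun y z hy hz =>
    smallN N0 ((big.trans hz).trans (le_mul_of_one_le_left (d0.le.trans hz) hy))
  have q1 : 1 ≤ q := by linarith
  have d1 : 1 ≤ d := by linarith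
  have spd := ge p d p1 le_rfl
  have sqd := ge q d q1 le_rfl
  have spe := ge p e p1 de
  have sqe := ge q e q1 de
  have sde := ge d e d1 de
  have epd : -N / p * (1 / d) = -(N / (p * d)) := by field_simp
  have eqd : -N / q * (1 / d) = -(N / (q * d)) := by field_simp
  have ppd : 0 < N / (p * d) := by positivity
  have pqd : 0 < N / (q * d) := by positivity
  have pqe : 0 < N / (q * e) := by positivity
  have pde : 0 < N / (d * e) := by positivity
  have lt3 : N / q < N / p := div_lt_div_of_pos_left N0 p0 pq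
  have p3q : 0 < N / q := by positivity
  have eD : N / p - N / q = N * (q - p) / (p * q) := by field_simp
  have pD : 0 < N * (q - p) / (p * q) := by positivity
  have hn : Nod (1 / 10000) (1 / d) 0 (-N / q) (-N / p) :=
    ⟨x0, by rw [neg_div]; linarith, by rw [neg_div, neg_div]; linarith, by norm_num, by norm_num,
      by rw [eqd, abs_neg, abs_of_pos pqd]; exact sqd,
      by rw [epd, abs_neg, abs_of_pos ppd]; exact spd⟩
  have hm := main_abs h1 (ρ := ρ) (k := ρ + 1) (l := j + 2) (m := i + 1)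
    (σ := ρ + (i + 1) + (j + 2)) hn (by omega) (by omega) (by omega) (by omega) (by omega)
  obtain ⟨b0, -, lo, -⟩ := h1 ρ (ρ + 1) (j + 2) (i + 1) (ρ + (i + 1) + (j + 2)) _ _ _ _ _ hn
    (by omega) (by omega) (by omega) (by omega) (by omega)
  have sg : (-1 : ℝ) ^ (ρ + (i + 1) + (j + 2) + ρ + 1) = (-1) ^ (i + 1 + (j + 2) + 1) := by
    rw [show ρ + (i + 1) + (j + 2) + ρ + 1 = 2 * ρ + (i + 1 + (j + 2) + 1) by ring, pow_add,
      pow_mul, neg_one_sq, one_pow, one_mul]
  rw [sg] at lo
  have a1 : |0 - -N / q| = N / q := by rw [neg_div, zero_sub, neg_neg, abs_of_pos p3q]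
  have a2 : |0 - -N / p| = N / p := by
    rw [neg_div, zero_sub, neg_neg, abs_of_pos (p3q.trans lt3)]
  have a3 : |-N / p - -N / q| = N * (q - p) / (p * q) := by
    rw [abs_sub_comm, neg_div, neg_div, neg_sub_neg, eD, abs_of_pos pD]
  have a4 : |-N / p - 0| = N / p := by rw [abs_sub_comm, a2]
  have r0 := h2 ρ (ρ + 1) (j + 2) (i + 1) (1 / d) 0 (-N / q) (-N / p) (by omega) le_rfl (by omega)
    x0 (by norm_num) (by norm_num) (by rw [a1]; exact p3q) (by rw [a1, a2]; exact lt3)
  have rp := h2 ρ (i + 1) (j + 2) (ρ + 1) (1 / d) (-N / p) (-N / q) 0 (by omega) (by omega)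
    (by omega) x0 (by rw [epd]; linarith) (by rw [epd]; linarith) (by rw [a3]; exact pD)
    (by rw [a3, a4]; linarith)
  rw [a1, a2, eD, show ρ + 1 + (j + 2) - 2 = ρ + j + 1 by omega, Nat.add_sub_cancel,
    show ρ + 1 + (j + 2) - 1 = ρ + j + 1 + 1 by omega] at r0
  rw [a3, a4, show N / p - N * (q - p) / (p * q) = N / q by linarith, rs_comm,
    show i + 1 + (j + 2) - 2 = i + j + 1 by omega, Nat.add_sub_cancel,
    show i + 1 + (j + 2) - 1 = i + j + 1 + 1 by omega] at rp
  have f1 : |√(1 + -N / (d * e)) - √(1 + -N / (q * e))| ≤ 5001 / 10000 * (N / (q * e)) := by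
    refine (sqrt_sub (by rw [neg_div]; linarith) (by rw [neg_div]; linarith)).trans ?_
    have : N / (d * e) ≤ N / (q * e) := by gcongr
    rw [neg_div, neg_div, neg_sub_neg, abs_of_nonneg (by linarith)]
    linarith
  have f2 : |√(1 + -N / (p * e)) - √(1 + -N / (q * e))| ≤
      5001 / 10000 * (N * (q - p) / (p * q) / e) := by
    refine (sqrt_sub (by rw [neg_div]; linarith) (by rw [neg_div]; linarith)).trans (le_of_eq ?_)
    rw [← div_div, ← div_div, ← sub_div, abs_div _ e, abs_of_pos e0, a3]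
  have n1 := etaN (ρ := ρ) (σ := ρ + (i + 1) + (j + 2)) (u := 1 / d * (N / q)) (by positivity)
    (by rw [show 1 / d * (N / q) = N / (q * d) by field_simp]; exact sqd) (by omega)
  have n2 := etaN (ρ := ρ) (σ := ρ + (i + 1) + (j + 2)) (u := 1 / d * (N * (q - p) / (p * q)))
    (by positivity) (by
      refine le_trans ?_ spd
      rw [show N / (p * d) = 1 / d * (N / p) by field_simp]
      exact mul_le_mul_of_nonneg_left (by linarith) x0.le) (by omega)
  have fq : (9999 / 10000 : ℝ) ≤ √(1 + -N / (q * e)) :=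
    le_sqrt_of_sq_le (by rw [neg_div]; linarith)
  refine ⟨?_, ?_, ?_, ?_⟩
  · rw [tm, mul_left_comm, eta]
    refine le_trans ?_ (mul_le_mul fq lo (by positivity) (sqrt_nonneg _))
    have hl := low (σ := ρ + (i + 1) + (j + 2)) (by omega)
    generalize ρ + (i + 1) + (j + 2) = σ at hl b0 ⊢
    rw [one_div_pow, div_div, mul_comm _ (d ^ σ), ← div_div, mul_one_div, ← mul_div_assoc,
      div_le_div_iff₀ (by positivity) (by positivity), mul_comm (9999 / 10000 : ℝ), mul_assoc]
    exact mul_le_mul_of_nonneg_left hl (by positivity)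
  · refine (le_abs_self _).trans ?_
    rw [abs_mul, abs_neg_one_pow, one_mul, tm, abs_mul, eta]
    refine (mul_le_mul (sqrt_le (u := -N / (q * e)) (by rw [neg_div]; linarith))
      hm (abs_nonneg _) zero_le_one).trans (le_of_eq ?_)
    rw [one_div_pow]
    ring
  · rw [t0, abs_mul, eta, show ρ + (j + 2) - 1 = ρ + j + 1 by omega]
    refine (mul_le_mul f1 r0 (abs_nonneg _) (by positivity)).trans ?_
    rw [alg0 N0 q0 e0 pD, inv_div]
    refine mul_le_mul_of_nonneg_right (mul_le_mul_of_nonneg_right (by linarith) (by positivity))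
      (by positivity)
  · rw [tp, abs_mul, eta, show i + 1 + (j + 2) - 2 = i + j + 1 by omega, Nat.add_sub_cancel]
    refine (mul_le_mul f2 ((abs_mul _ _).trans_le (mul_le_mul
      (sqrt_le (u := -N / p * (1 / d)) (by rw [epd]; linarith)) rp (abs_nonneg _) zero_le_one))
      (abs_nonneg _) (by positivity)).trans ?_
    rw [algp N0 q0 e0 pD, inv_div]
    refine mul_le_mul_of_nonneg_right (mul_le_mul_of_nonneg_right (by linarith) (by positivity))
      (by positivity)

end Pool.Agent.MP_2339ce_nt.Q2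

end
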