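import Mathlib.RingTheory.PowerSeries.WellKnown
import Pool.Agent.MP_2339ce_nt.DQ.NNZC
import Pool.Agent.MP_2339ce_nt.Q2.SpecH2

/-! `D(-N)`-quintuples, block HP, row TL: lower bounds for the errors. -/

set_option autoImplicit false

noncomputable section

namespace Pool.Agent.MP_2339ce_nt.Q2

open DQ DQ.Sgn DQ.NNZC PowerSeries Real

namespace HTL

theorem coeff_J (B : ℝ) (n k : ℕ) :
    coeff n (J B ^ (k + 1)) = ((n + k).choose n : ℕ) * B⁻¹ ^ (n + k + 1) := by
  have e : J B = C B⁻¹ * rescale B⁻¹ (PowerSeries.mk 1) := by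
    ext m
    rw [coeff_C_mul, coeff_rescale, J, coeff_mk, coeff_mk, Pi.one_apply]
    ring
  rw [e, mul_pow, ← map_pow, ← map_pow, mk_one_pow_eq_mk_choose_add, coeff_C_mul, coeff_rescale,
    coeff_mk, add_comm k n, Nat.choose_symm_add]
  ring

theorem C_le {A : ℝ} (hA : 0 < A) : Le (C A⁻¹) (J A) := fun n => by
  rw [coeff_C, J, coeff_mk]
  split_ifs with h
  · rw [h, zero_add, pow_one]
  · positivity

theorem two {A B : ℝ} (hA : 0 < A) (hB : 0 < B) (n k m : ℕ) :
    ((n + k).choose n : ℕ) * B⁻¹ ^ (n + k + 1) * A⁻¹ ^ m ≤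
      coeff n (J B ^ (k + 1) * J A ^ m) := by
  have c : NN (C A⁻¹) := NN.const (by positivity)
  have := Le.mul (f := J B ^ (k + 1)) (fun _ => le_rfl) ((C_le hA).pow c m)
    ((J_nn hB).pow _) (c.pow m) n
  rwa [← map_pow, coeff_mul_C, coeff_J] at this

theorem step {x B c : ℝ} (hx : 0 < x) (hB : 0 < B) (c1 : c ≤ 1 + -B * x) :
    Le (C c * J B) ((C (1 + 0 * x) + C (-x) * X) * J B) := fun n => by
  have e : (C (1 + 0 * x) + C (-x) * X) * J B = C (1 + -B * x) * J B + C x := by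
    have h2 := J_mul hB.ne'
    simp only [map_add, map_mul, map_neg, map_one, map_zero] at h2 ⊢
    linear_combination C x * h2
  rw [e, map_add, coeff_C_mul, coeff_C_mul]
  have a := NN.const hx.le n
  have b := mul_le_mul_of_nonneg_right c1 (J_nn hB n)
  linarith

theorem low0 (ρ k m : ℕ) {x A B c : ℝ} (hx : 0 < x) (hA : 0 < A) (hB : 0 < B) (c0 : 0 ≤ c)
    (ca : c ≤ 1 + -A * x) (cb : c ≤ 1 + -B * x) (h : ρ + 1 ≤ m + (k + 1)) :
    c ^ (ρ + 1) * (((ρ + k).choose ρ : ℕ) * B⁻¹ ^ (ρ + k + 1) * A⁻¹ ^ m) ≤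
      (-1) ^ ρ * rs ρ x 0 (-B) (-A) (ρ + 1) (k + 1) m := by
  have one : (1 : ℝ) + 0 * x ≠ 0 := by simp
  refine (mul_le_mul_of_nonneg_left (two hA hB ρ k m) (pow_nonneg c0 _)).trans ?_
  rw [rs, Nat.add_sub_cancel, ← coeff_rescale, map_mul (rescale _), map_mul (rescale _),
    map_pow (rescale _), map_pow (rescale _), zero_sub, zero_sub, neg_neg, neg_neg,
    iv_res hB.ne', iv_res hA.ne', gs_res _ _ _ one]
  generalize k + 1 = l at h
  obtain ⟨i, j, l', m', hij, rfl, rfl⟩ : ∃ i j l' m', ρ + 1 = i + j ∧ l = i + l' ∧ m = j + m' :=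
    ⟨min l (ρ + 1), ρ + 1 - min l (ρ + 1), l - min l (ρ + 1), m - (ρ + 1 - min l (ρ + 1)),
      by omega, by omega, by omega⟩
  have hH : Le (C 1) (bs (-1 / 2) (-1) (-x) (1 + 0 * x)) := fun n => by
    rw [bs, coeff_mk, coeff_C, zero_mul, add_zero, one_zpow, mul_one]
    split_ifs with hn
    · rw [hn, Ring.choose_zero_right, pow_zero, mul_one]
    · exact choose_alt x hx.le n
  have nb := (NN.const c0).mul (J_nn hB)
  have na := (NN.const c0).mul (J_nn hA)
  have n1 : NN (C 1) := NN.const zero_le_one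
  have := (((((step hx hB cb).pow nb i).mul ((step hx hA ca).pow na j) (nb.pow i)
    (na.pow j)).mul hH ((nb.pow i).mul (na.pow j)) n1).mul
      (f' := J B ^ l' * J A ^ m') (fun _ => le_rfl) (((nb.pow i).mul (na.pow j)).mul n1)
      (((J_nn hB).pow l').mul ((J_nn hA).pow m'))) ρ
  rw [hij, ← coeff_C_mul]
  refine le_trans (le_of_eq ?_) (this.trans (le_of_eq ?_))
  · congr 1
    rw [map_pow, map_one, mul_pow, mul_pow]
    ring
  · congr 1
    rw [mul_pow, mul_pow]
    ring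

theorem lowp (ρ k m : ℕ) {x A B c : ℝ} (hx : 0 < x) (hB : 0 < B) (hA : B < A) (c0 : 0 ≤ c)
    (ca : c ≤ 1 + -A * x) (h : m ≤ ρ) :
    c ^ ρ * (((m + k).choose m : ℕ) * (A - B)⁻¹ ^ (m + k + 1) * A⁻¹ ^ (ρ + 1)) ≤
      (-1) ^ (ρ + 1 + (k + 1)) * rs ρ x (-A) 0 (-B) (m + 1) (ρ + 1) (k + 1) := by
  have hW : 0 < A - B := by linarith
  have A0 : 0 < A := by linarith
  have e : (-1) ^ (ρ + 1 + (k + 1)) * rs ρ x (-A) 0 (-B) (m + 1) (ρ + 1) (k + 1) =
      coeff m (gs ρ x (-A) * (J (A - B) ^ (k + 1) * J A ^ (ρ + 1))) := by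
    rw [rs, Nat.add_sub_cancel, sub_zero, show -A - -B = -(A - B) by ring, iv_neg A0.ne',
      iv_neg hW.ne', ← coeff_C_mul, neg_pow (J A), neg_pow (J _), map_pow, map_neg, map_one]
    congr 1
    have a : ∀ n : ℕ, (-1 : ℝ⟦X⟧) ^ n * (-1) ^ n = 1 := fun n => by rw [← mul_pow]; simp
    rw [pow_add (-1 : ℝ⟦X⟧) (ρ + 1)]
    linear_combination (gs ρ x (-A) * (J (A - B) ^ (k + 1) * J A ^ (ρ + 1))) *
      ((-1 : ℝ⟦X⟧) ^ (k + 1) * (-1) ^ (k + 1) * a (ρ + 1) + a (k + 1))
  have n := ((J_nn hW).pow (k + 1)).mul ((J_nn A0).pow (ρ + 1))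
  rw [e, coeff_mul]
  refine le_trans ?_ (Finset.single_le_sum (a := (0, m)) (fun p hp => mul_nonneg ?_ (n _))
    (Finset.mem_antidiagonal.2 (zero_add m)))
  · refine mul_le_mul ?_ (two A0 hW m k (ρ + 1)) (by positivity) ?_
    · rw [gs, coeff_mk, Ring.choose_zero_right, pow_zero, Nat.cast_zero, sub_zero, zpow_natCast,
        one_mul, one_mul]
      exact pow_le_pow_left₀ c0 ca ρ
    · rw [gs, coeff_mk, Ring.choose_zero_right, pow_zero, one_mul, one_mul]
      exact zpow_nonneg (c0.trans ca) _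
  · have hp' : (p.1 : ℝ) ≤ ρ := Nat.cast_le.2 ((fst_le hp).trans h)
    rw [gs, coeff_mk]
    exact mul_nonneg (mul_nonneg (choose_nn _ _ (by linarith)) (by positivity))
      (zpow_nonneg (c0.trans ca) _)

theorem eta_le {ρ σ : ℕ} (h : ρ + 1 ≤ σ) : (eta σ)⁻¹ ≤ (9999 / 10000) ^ (ρ + 1) := by
  rw [eta, ← inv_pow]
  exact (pow_le_pow_of_le_one (by norm_num) (by norm_num) h).trans
    (pow_le_pow_left₀ (by norm_num) (by norm_num) _)

end HTL

open HTL in
theorem tl : S_TL := by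
  intro ρ kp kq N p q d e h
  obtain ⟨m, rfl⟩ : ∃ m, kp = m + 1 := ⟨kp - 1, by have := h.p1; omega⟩
  obtain ⟨k, rfl⟩ : ∃ k, kq = k + 1 := ⟨kq - 1, by have := h.q1; omega⟩
  have N0 := h.n0
  have p1 := h.one
  have pq := h.pq
  have qd := h.qd
  have de := h.de
  have nd := h.nd
  have p0 : 0 < p := by linarith
  have q0 : 0 < q := by linarith
  have d0 : 0 < d := by linarith
  have e0 : 0 < e := by linarith
  have x0 : 0 < 1 / d := by positivity
  have lt : N / q < N / p := div_lt_div_of_pos_left N0 p0 pq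
  have B0 : 0 < N / q := by positivity
  have sm : ∀ z : ℝ, d ≤ z → N / p / z ≤ 1 / 10000 := fun z hz => by
    rw [div_div, div_le_div_iff₀ (mul_pos p0 (d0.trans_le hz)) (by norm_num)]
    nlinarith
  have dq : 100 * (N / d) ≤ N / q := by
    rw [← mul_div_assoc, div_le_div_iff₀ d0 q0]
    nlinarith
  have d1 : 0 < N / d := by positivity
  have i1 : q / N = (N / q)⁻¹ := (inv_div _ _).symm
  have i2 : p / N = (N / p)⁻¹ := (inv_div _ _).symm
  have i3 : p * q / (N * (q - p)) = (N / p - N / q)⁻¹ := by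
    rw [div_sub_div _ _ p0.ne' q0.ne', inv_div]
    congr 1
    ring
  have et := eta_le (ρ := ρ) (σ := ρ + (m + 1) + (k + 1)) (by omega)
  rw [t0, tp, i1, i2, i3, ← div_div, ← div_div, ← div_div, show ρ + (k + 1) - 1 = ρ + k by omega,
    show m + 1 + (k + 1) - 2 = m + k by omega, Nat.add_sub_cancel]
  simp only [neg_div]
  generalize N / p = A at *
  generalize N / q = B at *
  generalize N / d = D at *
  have A0 : 0 < A := by linarith
  have W0 : 0 < A - B := by linarith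
  have s1 : A * (1 / d) ≤ 1 / 10000 := by simpa only [mul_one_div] using sm d le_rfl
  have s2 := sm e de
  have s3 : B * (1 / d) ≤ A * (1 / d) := by gcongr
  have s4 : B / e ≤ A / e := by gcongr
  have s5 : 100 * (D / e) ≤ B / e := by rw [← mul_div_assoc]; gcongr
  have s6 : 0 < D / e := by positivity
  have s7 : 0 < B / e := by positivity
  generalize (eta (ρ + (m + 1) + (k + 1))) = η at *
  constructor
  · have l := low0 ρ k (m + 1) (c := 9999 / 10000) x0 A0 B0 (by norm_num) (by linarith)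
      (by linarith) h.big
    have f : 49 / 100 * (B / e) ≤ √(1 + -(D / e)) - √(1 + -(B / e)) :=
      le_trans (by linarith) (sqrt_low (by linarith) (by linarith) s6.le)
    have g := mul_le_mul f l (by positivity) (le_trans (by positivity) f)
    rw [mul_left_comm]
    refine le_trans ?_ g
    calc _ = 49 / 100 * (B / e) * (η⁻¹ *
          (((ρ + k).choose ρ : ℕ) * B⁻¹ ^ (ρ + k + 1) * A⁻¹ ^ (m + 1))) := by
          rw [pow_succ B⁻¹]; field_simp
      _ ≤ _ := by gcongr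
  · have l := lowp ρ k m (c := 9999 / 10000) x0 B0 lt (by norm_num) (by linarith)
      (by have := h.p2; omega)
    have f : (A / e - B / e) / 2 ≤ √(1 + -(B / e)) - √(1 + -(A / e)) :=
      sqrt_low (by linarith) s4 s7.le
    have t : 9999 / 10000 ≤ √(1 + -A * (1 / d)) := le_sqrt_of_sq_le (by linarith)
    have f0 : 0 ≤ (A / e - B / e) / 2 := by linarith
    have g := mul_le_mul f (mul_le_mul t l (by positivity) (sqrt_nonneg _)) (by positivity)
      (f0.trans f)
    refine le_trans ?_ (g.trans_eq (by ring))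
    calc _ = (A / e - B / e) / 2 * (η⁻¹ *
          (((m + k).choose m : ℕ) * (A - B)⁻¹ ^ (m + k + 1) * A⁻¹ ^ (ρ + 1))) := by
          rw [pow_succ (A - B)⁻¹, ← sub_div]; field_simp
      _ ≤ (A / e - B / e) / 2 * ((9999 / 10000) ^ (ρ + 1) *
          (((m + k).choose m : ℕ) * (A - B)⁻¹ ^ (m + k + 1) * A⁻¹ ^ (ρ + 1))) := by gcongr
      _ = _ := by ring

end Pool.Agent.MP_2339ce_nt.Q2

end
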