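import Pool.Agent.MP_2339ce_nt.Q2.SpecH2
import Pool.Agent.MP_2339ce_nt.DQ.NNZC
import Pool.Agent.MP_2339ce_nt.DQ.NSIZEN

/-! `D(-N)`-quintuples, block HP: the second upper bounds for the errors. -/

set_option autoImplicit false

noncomputable section

namespace Pool.Agent.MP_2339ce_nt.Q2

open DQ PowerSeries Real DQ.Sgn DQ.NNZC

namespace HTU

theorem gs_nn {ρ h : ℕ} {x α : ℝ} (hx : 0 ≤ x) (h1 : 0 ≤ 1 + α * x) (hh : h ≤ ρ) :
    0 ≤ coeff h (gs ρ x α) := by
  have h' : (h : ℝ) ≤ ρ := Nat.cast_le.2 hh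
  rw [gs, coeff_mk]
  exact mul_nonneg (mul_nonneg (choose_nn _ _ (by linarith)) (pow_nonneg hx _)) (zpow_nonneg h1 _)

theorem mono {ρ n : ℕ} {x α : ℝ} (hx : 0 ≤ x) (h1 : 0 ≤ 1 + α * x) (hn : n ≤ ρ) {F G : ℝ⟦X⟧}
    (h : Le F G) : coeff n (gs ρ x α * F) ≤ coeff n (gs ρ x α * G) := by
  rw [coeff_mul, coeff_mul]
  exact Finset.sum_le_sum fun p hp =>
    mul_le_mul_of_nonneg_left (h _) (gs_nn hx h1 ((fst_le hp).trans hn))

theorem absneg {ρ n l m : ℕ} {x α β γ a b : ℝ} (hx : 0 ≤ x) (h1 : 0 ≤ 1 + α * x) (hn : n ≤ ρ)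
    (hb : 0 < b) (ha : 0 < a) (eb : α - β = -b) (ea : α - γ = -a) :
    |rs ρ x α β γ (n + 1) l m| = coeff n (gs ρ x α * (J b ^ l * J a ^ m)) := by
  have e : rs ρ x α β γ (n + 1) l m = (-1) ^ (l + m) * coeff n (gs ρ x α * (J b ^ l * J a ^ m)) := by
    rw [rs, Nat.add_sub_cancel, eb, ea, iv_neg hb.ne', iv_neg ha.ne', ← coeff_C_mul,
      neg_pow (J a), neg_pow (J b), map_pow, map_neg, map_one]
    congr 1
    ring
  have n0 : 0 ≤ coeff n (gs ρ x α * (J b ^ l * J a ^ m)) := by
    have := mono hx h1 hn (F := 0) (G := J b ^ l * J a ^ m) fun k => by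
      simpa using ((J_nn hb).pow l).mul ((J_nn ha).pow m) k
    simpa using this
  rw [e, abs_mul, abs_neg_one_pow, one_mul, abs_of_nonneg n0]

theorem J_up {a b : ℝ} (hb : 0 < b) (h : b ≤ a) : Le (J a) (C (b / a) * J b) := fun n => by
  have ha : 0 < a := hb.trans_le h
  have := J_le hb h n
  rw [coeff_C_mul] at this ⊢
  calc coeff n (J a) = b / a * (a / b * coeff n (J a)) := by field_simp
    _ ≤ _ := mul_le_mul_of_nonneg_left this (by positivity)

theorem core (h2 : S_BND3) {ρ n l m : ℕ} {x α a b : ℝ} (hx : 0 < x) (h1 : 0 ≤ 1 + α * x)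
    (h0 : α * x ≤ 0) (hn : n ≤ ρ) (hb : 0 < b) (h : b ≤ a) :
    coeff n (gs ρ x α * (J b ^ (l + 1) * J a ^ m)) ≤
      (b / a) ^ m * (((n + l + m).choose n : ℕ) * (1 + x * b) ^ (ρ + 1) / b ^ (n + l + m + 1)) := by
  have ha : 0 < a := hb.trans_le h
  have l1 : Le (J b ^ (l + 1) * J a ^ m) (J b ^ (l + 1) * (C (b / a) * J b) ^ m) :=
    Le.mul (fun _ => le_rfl) ((J_up hb h).pow (J_nn ha) m) ((J_nn hb).pow _) ((J_nn ha).pow m)
  refine (mono hx.le h1 hn l1).trans ?_
  have e : gs ρ x α * (J b ^ (l + 1) * (C (b / a) * J b) ^ m) =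
      C ((b / a) ^ m) * (gs ρ x α * (J b ^ (l + 1 + m) * J (2 * b) ^ 0)) := by
    rw [map_pow]; ring
  rw [e, coeff_C_mul, ← absneg (β := α + b) (γ := α + 2 * b) hx.le h1 hn hb (by positivity)
    (by ring) (by ring)]
  refine mul_le_mul_of_nonneg_left ?_ (by positivity)
  have a1 : |α - (α + b)| = b := by rw [sub_add_cancel_left, abs_neg, abs_of_pos hb]
  have a2 : |α - (α + 2 * b)| = 2 * b := by
    rw [sub_add_cancel_left, abs_neg, abs_of_pos (by positivity)]
  have := h2 ρ (n + 1) (l + 1 + m) 0 x α (α + b) (α + 2 * b) (by omega) (by omega) (by omega) hx h1 h0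
    (by rw [a1]; exact hb) (by rw [a1, a2]; linarith)
  rwa [a1, pow_zero, mul_one, Nat.add_sub_cancel, show n + 1 + (l + 1 + m) - 2 = n + l + m by omega,
    show n + 1 + (l + 1 + m) - 1 = n + l + m + 1 by omega] at this

theorem Z_eq (ρ k m : ℕ) (x A B : ℝ) :
    Z ρ k m x A B = coeff ρ (gs ρ x 0 * (J B ^ k * J A ^ m)) := by
  rw [Z, coeff_mul]
  refine Finset.sum_congr rfl fun p _ => ?_
  rw [gs, coeff_mk, zero_mul, add_zero, one_zpow, mul_one]

end HTU

open HTU TSIZE3 NSIZEN in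
theorem tu (h2 : S_BND3) : S_TU := by
  intro ρ kp kq N p q d e hR
  obtain ⟨hS, k2, -, N0, p1, pq, qd', de, big⟩ := hR
  obtain ⟨i, rfl⟩ : ∃ i, kp = i + 1 := ⟨kp - 1, by have := hS.p1; omega⟩
  obtain ⟨j, rfl⟩ : ∃ j, kq = j + 2 := ⟨kq - 2, by omega⟩
  have hi : i ≤ ρ := by have := hS.p2; omega
  have p0 : 0 < p := by linarith
  have q0 : 0 < q := by linarith
  have qd : q < d := by linarith
  have d0 : 0 < d := by linarith
  have e0 : 0 < e := by linarith
  have D0 : 0 < q - p := by linarith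
  have x0 : 0 < 1 / d := by positivity
  have ge : ∀ y z : ℝ, 1 ≤ y → d ≤ z → N / (y * z) ≤ 1 / 10000 := fun y z hy hz =>
    smallN N0 ((big.trans hz).trans (le_mul_of_one_le_left (d0.le.trans hz) hy))
  have q1 : 1 ≤ q := by linarith
  have d1 : 1 ≤ d := by linarith
  have spd := ge p d p1 le_rfl
  have sqd := ge q d q1 le_rfl
  have spe := ge p e p1 de
  have sqe := ge q e q1 de
  have sde := ge d e d1 de
  have epd : -N / p * (1 / d) = -(N / (p * d)) := by field_simp
  have ppd : 0 < N / (p * d) := by positivity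
  have pqe : 0 < N / (q * e) := by positivity
  have pde : 0 < N / (d * e) := by positivity
  have lt3 : N / q < N / p := div_lt_div_of_pos_left N0 p0 pq
  have p3q : 0 < N / q := by positivity
  have p3p : 0 < N / p := by positivity
  have eD : N / p - N / q = N * (q - p) / (p * q) := by field_simp
  have pD : 0 < N * (q - p) / (p * q) := by positivity
  have a3 : |-N / p - -N / q| = N * (q - p) / (p * q) := by
    rw [abs_sub_comm, neg_div, neg_div, neg_sub_neg, eD, abs_of_pos pD]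
  have f1 : |√(1 + -N / (d * e)) - √(1 + -N / (q * e))| ≤ 5001 / 10000 * (N / (q * e)) := by
    refine (sqrt_sub (by rw [neg_div]; linarith) (by rw [neg_div]; linarith)).trans ?_
    have : N / (d * e) ≤ N / (q * e) := by gcongr
    rw [neg_div, neg_div, neg_sub_neg, abs_of_nonneg (by linarith)]
    linarith
  have f2 : |√(1 + -N / (p * e)) - √(1 + -N / (q * e))| ≤
      5001 / 10000 * (N * (q - p) / (p * q) / e) := by
    refine (sqrt_sub (by rw [neg_div]; linarith) (by rw [neg_div]; linarith)).trans (le_of_eq ?_)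
    rw [← div_div, ← div_div, ← sub_div, abs_div _ e, abs_of_pos e0, a3]
  have n1 := etaN (ρ := ρ) (σ := ρ + (i + 1) + (j + 2)) (u := 1 / d * (N / q)) (by positivity)
    (by rw [show 1 / d * (N / q) = N / (q * d) by field_simp]; exact sqd) (by omega)
  have n2 := etaN (ρ := ρ) (σ := ρ + (i + 1) + (j + 2)) (u := 1 / d * (N * (q - p) / (p * q)))
    (by positivity) (by
      refine le_trans ?_ spd
      rw [show N / (p * d) = 1 / d * (N / p) by field_simp]
      exact mul_le_mul_of_nonneg_left (by linarith) x0.le) (by omega)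
  constructor
  · have r0 := (up ρ (j + 2) (i + 1) x0.le p3p p3q).trans ((Z_eq _ _ _ _ _ _).trans_le
      (core h2 (l := j + 1) x0 (by norm_num) (by norm_num) le_rfl p3q lt3.le))
    rw [← neg_div, ← neg_div] at r0
    rw [t0, abs_mul, eta, show ρ + (i + 1) + (j + 2) - 1 = ρ + (j + 1) + (i + 1) by omega,
      show ρ + (j + 2) - 1 = ρ + j + 1 by omega]
    refine (mul_le_mul f1 r0 (abs_nonneg _) (by positivity)).trans ?_
    refine le_trans (le_of_eq ?_) ((mul_le_mul_of_nonneg_right n1 (show 0 ≤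
      (((ρ + (j + 1) + (i + 1)).choose ρ : ℕ) : ℝ) *
        ((q / N) ^ (ρ + j + 1) * (p / N) ^ (i + 1) / e) by positivity)).trans (le_of_eq ?_))
    · simp only [div_pow]
      field_simp
      ring
    · ring
  · have rp := (absneg (ρ := ρ) (n := i) (l := ρ + 1) (m := j + 2) (α := -N / p) (β := 0)
      (γ := -N / q) x0.le (by rw [epd]; linarith) hi p3p pD (by ring)
      (by rw [← eD]; ring)).trans_le ((congrArg _ (congrArg _ (mul_comm _ _))).trans_le
        (core h2 (l := j + 1) x0 (by rw [epd]; linarith) (by rw [epd]; linarith) hi pD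
          (by linarith)))
    rw [tp, abs_mul, abs_mul, eta, show ρ + (i + 1) + (j + 2) - 1 = i + (j + 1) + (ρ + 1) by omega,
      show i + 1 + (j + 2) - 2 = i + j + 1 by omega, Nat.add_sub_cancel]
    refine (mul_le_mul f2 (mul_le_mul (sqrt_le (u := -N / p * (1 / d)) (by rw [epd]; linarith)) rp
      (abs_nonneg _) zero_le_one) (by positivity) (by positivity)).trans ?_
    refine le_trans (le_of_eq ?_) ((mul_le_mul_of_nonneg_right n2 (show 0 ≤
      (((i + (j + 1) + (ρ + 1)).choose i : ℕ) : ℝ) *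
        ((p / N) ^ (ρ + 1) * (p * q / (N * (q - p))) ^ (i + j + 1) / e) by positivity)).trans
      (le_of_eq ?_))
    · generalize (1 + 1 / d * (N * (q - p) / (p * q))) ^ (ρ + 1) = E
      generalize q - p = D at *
      simp only [div_pow, mul_pow]
      field_simp
      ring
    · ring

end Pool.Agent.MP_2339ce_nt.Q2

end
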