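import Pool.Agent.MP_2339ce_nt.DQ.NI4
import Pool.Agent.MP_2339ce_nt.Q2.HFM
import Pool.Agent.MP_2339ce_nt.Q2.HP
import Pool.Agent.MP_2339ce_nt.Q2.HTA
import Pool.Agent.MP_2339ce_nt.Q2.HTL
import Pool.Agent.MP_2339ce_nt.Q2.HTU

/-! `D(-N)`-quintuples, block HP: assembly of the windows with three nodes. -/

set_option autoImplicit false

namespace Pool.Agent.MP_2339ce_nt.Q2

open DQ

theorem allHP : S_HP := hp i4b

theorem allWn (x : ℕ × ℕ) : (wn x).Ok := wn_ok i4b x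

theorem allFm : S_FM2 := fm2 (ta main bnd3) tl (tu bnd3)

end Pool.Agent.MP_2339ce_nt.Q2
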