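import Pool.Agent.MP_2339ce_nt.Q2.SpecH2

/-! The main term of the forms with three double nodes and a simple node. -/

set_option autoImplicit false

namespace Pool.Agent.MP_2339ce_nt.Q2

open Real

namespace HI7

/-- The numerator. -/
def pp (r s t : ℝ) : ℝ :=
  s * (t * (1 + t * (3 + t * (3 + t * 1))) + s * (t * (3 + t * (7 + t * 3)) + s * (t * (3 + t * 3) +
    s * (t * 1)))) + r * (t * (2 + t * (6 + t * (6 + t * 2))) + s * (2 + t * (14 + t * (26 + t *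
    (14 + t * 2))) + s * (6 + t * (26 + t * (26 + t * 6)) + s * (6 + t * (14 + t * 6) + s *
    (2 + t * 2)))) + r * (1 + t * (7 + t * (13 + t * (7 + t * 1))) + s * (7 + t * (28 + t *
    (28 + t * 7)) + s * (13 + t * (28 + t * 13) + s * (7 + t * 7 + s * 1))) + r * (2 + t *
    (8 + t * (8 + t * 2)) + s * (8 + t * (18 + t * 8) + s * (8 + t * 8 + s * 2)) + r *
    (1 + t * (3 + t * 1) + s * (3 + t * 3 + s * 1)))))

/-- The cleared sum. -/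
def top (r s t A B C a b d : ℝ) : ℝ :=
  -((3 * A * B * C + 2 * B * C + 4 * A * C + 4 * A * B) * (a ^ 2 * b ^ 2 * d ^ 3)) +
    s * (-(3 * B * a * d) - 2 * (1 + B) * (-(2 * a * d) + B * d - 2 * B * a)) *
      (A ^ 2 * C ^ 3 * b ^ 2) -
    t * (3 * C * b * d - 2 * (1 + C) * (2 * b * d - C * d - 2 * C * b)) * (A ^ 2 * B ^ 3 * a ^ 2) +
    2 * r * (1 + A) * (B ^ 3 * C ^ 3 * d ^ 3)

theorem ident (r s t : ℝ) :
    top r s t (r ^ 2 - 1) (s ^ 2 - 1) (t ^ 2 - 1) (r ^ 2 - s ^ 2) (r ^ 2 - t ^ 2) (s ^ 2 - t ^ 2) =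
      (r - 1) ^ 2 * (s - 1) ^ 3 * (t - 1) ^ 3 * (r - s) ^ 2 * (r - t) ^ 2 * (s - t) ^ 3 *
        pp r s t := by
  unfold top pp
  ring

theorem frac {x α β γ r s t : ℝ} (hx : x ≠ 0) (ha : α ≠ 0) (hb : β ≠ 0) (hc : γ ≠ 0)
    (hab : α - β ≠ 0) (hac : α - γ ≠ 0) (hbc : β - γ ≠ 0) :
    (3 / 2 * x + 1 / α + 2 / β + 2 / γ) / (-α * β ^ 2 * γ ^ 2) +
      s * (3 / 2 * x - (1 + β * x) * (2 / β + 1 / (β - α) + 2 / (β - γ))) /
        (β ^ 2 * (β - α) * (β - γ) ^ 2) +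
      t * (3 / 2 * x - (1 + γ * x) * (2 / γ + 1 / (γ - α) + 2 / (γ - β))) /
        (γ ^ 2 * (γ - α) * (γ - β) ^ 2) +
      r * (1 + α * x) / (α * (α - β) * (α - γ)) ^ 2 =
      x ^ 6 * (top r s t (α * x) (β * x) (γ * x) ((α - β) * x) ((α - γ) * x) ((β - γ) * x) /
        (2 * ((α * x) ^ 2 * (β * x) ^ 3 * (γ * x) ^ 3 * ((α - β) * x) ^ 2 * ((α - γ) * x) ^ 2 *
          ((β - γ) * x) ^ 3))) := by
  rw [show β - α = -(α - β) by ring, show γ - α = -(α - γ) by ring, show γ - β = -(β - γ) by ring]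
  generalize α - β = a at *
  generalize α - γ = b at *
  generalize β - γ = d at *
  unfold top
  field_simp
  ring

theorem root {y : ℝ} (h0 : y ≤ 0) (h1 : -y ≤ 1 / 10000) :
    99994 / 100000 ≤ √(1 + y) ∧ √(1 + y) ≤ 1 ∧ y = √(1 + y) ^ 2 - 1 :=
  ⟨le_sqrt_of_sq_le (by linarith), sqrt_le_one.2 (by linarith),
    by rw [sq_sqrt (by linarith)]; ring⟩

theorem quo {P Q : ℝ} (p0 : 4478 / 10 ≤ P) (p1 : P ≤ 448) (q0 : 32730 ≤ Q) (q1 : Q ≤ 32768) :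
    683 / 100000 ≤ P / (2 * Q) ∧ P / (2 * Q) ≤ 685 / 100000 :=
  ⟨by rw [le_div_iff₀ (by linarith)]; linarith, by rw [div_le_iff₀ (by linarith)]; linarith⟩

theorem bnd {r s t : ℝ} (r1 : 99994 / 100000 ≤ r) (r2 : r ≤ 1) (s1 : 99994 / 100000 ≤ s)
    (s2 : s ≤ 1) (t1 : 99994 / 100000 ≤ t) (t2 : t ≤ 1) :
    683 / 100000 ≤ pp r s t / (2 * ((1 + r) ^ 2 * (1 + s) ^ 3 * (1 + t) ^ 3 * (r + s) ^ 2 *
      (r + t) ^ 2 * (s + t) ^ 3)) ∧
    pp r s t / (2 * ((1 + r) ^ 2 * (1 + s) ^ 3 * (1 + t) ^ 3 * (r + s) ^ 2 *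
      (r + t) ^ 2 * (s + t) ^ 3)) ≤ 685 / 100000 := by
  have r0 : 0 ≤ r := by linarith
  have s0 : 0 ≤ s := by linarith
  have t0 : 0 ≤ t := by linarith
  refine quo ?_ ?_ ?_ ?_
  · refine le_trans (b := pp (99994 / 100000) (99994 / 100000) (99994 / 100000))
      (by norm_num [pp]) ?_
    unfold pp
    gcongr
  · refine le_of_le_of_eq (b := pp 1 1 1) ?_ (by norm_num [pp])
    unfold pp
    gcongr
  · refine le_trans (b := (199988 / 100000 : ℝ) ^ 2 * (199988 / 100000) ^ 3 * (199988 / 100000) ^ 3 *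
      (199988 / 100000) ^ 2 * (199988 / 100000) ^ 2 * (199988 / 100000) ^ 3) (by norm_num) ?_
    gcongr <;> linarith
  · refine le_of_le_of_eq (b := (2 : ℝ) ^ 2 * 2 ^ 3 * 2 ^ 3 * 2 ^ 2 * 2 ^ 2 * 2 ^ 3) ?_ (by norm_num)
    gcongr <;> linarith

theorem core {r s t A B C a b d : ℝ} (r1 : 99994 / 100000 ≤ r) (r2 : r ≤ 1) (r3 : A = r ^ 2 - 1)
    (s1 : 99994 / 100000 ≤ s) (s2 : s ≤ 1) (s3 : B = s ^ 2 - 1) (t1 : 99994 / 100000 ≤ t)
    (t2 : t ≤ 1) (t3 : C = t ^ 2 - 1) (ea : a = A - B) (eb : b = A - C) (ed : d = B - C)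
    (h : A ^ 2 * B ^ 3 * C ^ 3 * a ^ 2 * b ^ 2 * d ^ 3 ≠ 0) :
    683 / 100000 ≤ top r s t A B C a b d / (2 * (A ^ 2 * B ^ 3 * C ^ 3 * a ^ 2 * b ^ 2 * d ^ 3)) ∧
      top r s t A B C a b d / (2 * (A ^ 2 * B ^ 3 * C ^ 3 * a ^ 2 * b ^ 2 * d ^ 3)) ≤
        685 / 100000 := by
  have ea' : a = r ^ 2 - s ^ 2 := by rw [ea, r3, s3]; ring
  have eb' : b = r ^ 2 - t ^ 2 := by rw [eb, r3, t3]; ring
  have ed' : d = s ^ 2 - t ^ 2 := by rw [ed, s3, t3]; ring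
  have e1 : top r s t A B C a b d =
      (r - 1) ^ 2 * (s - 1) ^ 3 * (t - 1) ^ 3 * (r - s) ^ 2 * (r - t) ^ 2 * (s - t) ^ 3 *
        pp r s t := by
    rw [r3, s3, t3, ea', eb', ed', ident]
  have e2 : A ^ 2 * B ^ 3 * C ^ 3 * a ^ 2 * b ^ 2 * d ^ 3 =
      (r - 1) ^ 2 * (s - 1) ^ 3 * (t - 1) ^ 3 * (r - s) ^ 2 * (r - t) ^ 2 * (s - t) ^ 3 *
        ((1 + r) ^ 2 * (1 + s) ^ 3 * (1 + t) ^ 3 * (r + s) ^ 2 * (r + t) ^ 2 * (s + t) ^ 3) := by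
    rw [show a = (r - s) * (r + s) by rw [ea']; ring, show b = (r - t) * (r + t) by rw [eb']; ring,
      show d = (s - t) * (s + t) by rw [ed']; ring, show A = (r - 1) * (1 + r) by rw [r3]; ring,
      show B = (s - 1) * (1 + s) by rw [s3]; ring, show C = (t - 1) * (1 + t) by rw [t3]; ring]
    simp only [mul_pow]
    ac_rfl
  rw [e2] at h
  rw [e1, e2, mul_left_comm 2, mul_div_mul_left _ _ (left_ne_zero_of_mul h)]
  exact bnd r1 r2 s1 s2 t1 t2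

end HI7

open HI7 in
theorem i7b : S_I7 := by
  intro x α β γ hx ha hb hc hab hac hbc h1 h2 h3
  obtain ⟨r1, r2, r3⟩ := root (y := α * x) (mul_neg_of_neg_of_pos ha hx).le (by linarith)
  obtain ⟨s1, s2, s3⟩ := root (y := β * x) (mul_neg_of_neg_of_pos hb hx).le (by linarith)
  obtain ⟨t1, t2, t3⟩ := root (y := γ * x) (mul_neg_of_neg_of_pos hc hx).le (by linarith)
  have n0 := hx.ne'
  have n1 := ha.ne
  have n2 := hb.ne
  have n3 := hc.ne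
  have n4 := sub_ne_zero.2 hab
  have n5 := sub_ne_zero.2 hac
  have n6 := sub_ne_zero.2 hbc
  obtain ⟨l, u⟩ := core r1 r2 r3 s1 s2 s3 t1 t2 t3 (sub_mul α β x) (sub_mul α γ x) (sub_mul β γ x)
    (by positivity)
  have x6 := (pow_pos hx 6).le
  rw [i7, frac n0 n1 n2 n3 n4 n5 n6, mul_comm _ (x ^ 6), mul_comm _ (x ^ 6)]
  exact ⟨mul_le_mul_of_nonneg_left l x6, mul_le_mul_of_nonneg_left u x6⟩

end Pool.Agent.MP_2339ce_nt.Q2
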