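import Pool.Agent.MP_2339ce_nt.Q2.SpecH2
import Pool.Agent.MP_2339ce_nt.DQ.NF4

/-! Block HP: the form with double nodes `0`, `b`, `c` and a simple node `a`. -/

set_option autoImplicit false

namespace Pool.Agent.MP_2339ce_nt.Q2

open DQ Real

namespace HQ122

def k0 {R : Type} [CommRing R] (N a b c d : R) : R :=
  (b - a) ^ 2 * (c - b) ^ 3 * (c - a) ^ 2 * (3 * N - 2 * d * (a + 2 * b + 2 * c))

def ka {R : Type} [CommRing R] (N a b c d : R) : R :=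
  2 * (a * d - N) * (a ^ 3 * (c - b) ^ 3)

def kb {R : Type} [CommRing R] (N a b c d : R) : R :=
  b ^ 2 * (c - a) ^ 2 * (3 * N * (b - a) * (c - b) +
    2 * (b * d - N) * (2 * (b - a) * (c - b) - a * (c - b) + 2 * c * (b - a)))

def kc {R : Type} [CommRing R] (N a b c d : R) : R :=
  c ^ 2 * (b - a) ^ 2 * (3 * N * (c - a) * (c - b) +
    2 * (c * d - N) * (2 * (c - a) * (c - b) - a * (c - b) - 2 * b * (c - a)))

theorem ident {N a b c d : ℝ} (hN : N ≠ 0) (a0 : a ≠ 0) (b0 : b ≠ 0) (c0 : c ≠ 0) (d0 : d ≠ 0)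
    (ab : b - a ≠ 0) (ac : c - a ≠ 0) (bc : c - b ≠ 0) :
    2 * d * N ^ 6 * ((b - a) ^ 2 * (c - b) ^ 3 * (c - a) ^ 2) / (a * b ^ 2 * c ^ 2) *
      i7 (1 / d) (-N / a) (-N / b) (-N / c) =
    k0 N a b c d + b * √(1 + -N / b * (1 / d)) * kb N a b c d +
      c * √(1 + -N / c * (1 / d)) * kc N a b c d + a * √(1 + -N / a * (1 / d)) * ka N a b c d := by
  have e1 : -N / a - -N / b = -N * (b - a) / (a * b) := by field_simp; ring
  have e2 : -N / a - -N / c = -N * (c - a) / (a * c) := by field_simp; ring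
  have e3 : -N / b - -N / a = N * (b - a) / (a * b) := by field_simp; ring
  have e4 : -N / b - -N / c = -N * (c - b) / (b * c) := by field_simp; ring
  have e5 : -N / c - -N / a = N * (c - a) / (a * c) := by field_simp; ring
  have e6 : -N / c - -N / b = N * (c - b) / (b * c) := by field_simp; ring
  rw [i7, e1, e2, e3, e4, e5, e6, k0, ka, kb, kc]
  generalize √(1 + -N / a * (1 / d)) = s
  generalize √(1 + -N / b * (1 / d)) = t
  generalize √(1 + -N / c * (1 / d)) = u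
  generalize b - a = p at *
  generalize c - a = q at *
  generalize c - b = r at *
  rw [mul_add, mul_add, mul_add]
  refine congrArg₂ _ (congrArg₂ _ (congrArg₂ _ ?_ ?_) ?_) ?_ <;> (field_simp; ring)

/-- the weight of the error at one node -/
theorem vb {N i d e s f : ℝ} (N0 : 0 < N) (i0 : 0 < i) (d0 : 0 < d) (de : d ≤ e) (s0 : 0 ≤ s)
    (f0 : 0 ≤ f) (hs : s ^ 2 = 1 + -N / i * (1 / d)) (hf : f ^ 2 = 1 + -N / (i * e)) :
    0 ≤ 2 * e * ((1 - f) * i * s) ∧ 2 * e * ((1 - f) * i * s) ≤ 2 * N ∧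
      |2 * e * ((1 - f) * i * s) * (i * d - N) - N * (i * d)| ≤ 2 * N ^ 2 := by
  have e0 : 0 < e := by linarith
  have D0 : 0 < i * d := by positivity
  have E0 : 0 < i * e := by positivity
  have DE : i * d ≤ i * e := by gcongr
  have h1 : s ^ 2 * (i * d) = i * d - N := by rw [hs]; field_simp; ring
  have h2 : f ^ 2 * (i * e) = i * e - N := by rw [hf]; field_simp; ring
  have e1 : 2 * e * ((1 - f) * i * s) = 2 * ((1 - f) * (i * e)) * s := by ring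
  rw [e1]
  generalize i * d = D at *
  generalize i * e = E at *
  have s1 : s ≤ 1 := by
    by_contra h
    have : 1 * D ≤ s ^ 2 * D := by gcongr; nlinarith
    linarith
  have f1 : f ≤ 1 := by
    by_contra h
    have : 1 * E ≤ f ^ 2 * E := by gcongr; nlinarith
    linarith
  have g0 : 0 ≤ 1 - f := by linarith
  obtain ⟨t, ht⟩ : ∃ t, t = (1 - f) * E := ⟨_, rfl⟩
  have t0 : 0 ≤ t := by rw [ht]; positivity
  have t1 : t * (1 + f) = N := by rw [ht]; linear_combination -h2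
  have t2 : t ≤ N := by nlinarith
  have t3 : N ≤ 2 * t := by nlinarith
  have t4 : (1 - f) * D ≤ N := le_trans (by rw [ht]; gcongr) t2
  have t5 : 2 * t * D ≤ N * D + N ^ 2 := by
    have : t * ((1 - f) * D) ≤ N * N := by gcongr
    linear_combination this + D * t1
  rw [← ht, ← h1]
  have ts : t * s ≤ N * 1 := by gcongr
  have s2 : s ^ 2 ≤ 1 := by nlinarith
  have s3 : s * s ^ 2 ≤ 1 * 1 := by gcongr
  have s4 : s ^ 2 * s ^ 2 ≤ s * s ^ 2 := by gcongr; nlinarith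
  refine ⟨by positivity, by linarith, abs_le.2 ⟨?_, ?_⟩⟩
  · have u1 : N * D * (s ^ 2 * s ^ 2) ≤ 2 * t * D * (s * s ^ 2) := by gcongr
    have u2 : N * D * (2 * s ^ 2 - 1) ≤ N * D * (s ^ 2 * s ^ 2) := by
      gcongr; nlinarith [sq_nonneg (s ^ 2 - 1)]
    linear_combination u1 + u2 - 2 * N * h1
  · have u1 : 2 * t * D * (s * s ^ 2) ≤ 2 * t * D * (1 * 1) := by gcongr
    nlinarith [sq_nonneg N]

theorem prod_bd {m δ M B : ℝ} (hm : |m| ≤ M) (hδ : |δ| ≤ B) : -(M * B) ≤ m * δ ∧ m * δ ≤ M * B := by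
  refine abs_le.1 ?_
  rw [abs_mul]
  exact mul_le_mul hm hδ (abs_nonneg _) ((abs_nonneg _).trans hm)

/-- the total error -/
theorem err {N a b c d U Va Vb Vc : ℝ} (N0 : 0 < N) (ha : 1 ≤ a) (ab : a + 1 ≤ b) (bc : b + 1 ≤ c)
    (cd : 100 * c ≤ d) (hd : 10000 * N ≤ d) (U0 : 0 ≤ U) (U1 : U * d ≤ 2 * N)
    (a2 : |Va * (a * d - N) - N * (a * d)| ≤ 2 * N ^ 2)
    (b0 : 0 ≤ Vb) (b1 : Vb ≤ 2 * N) (b2 : |Vb * (b * d - N) - N * (b * d)| ≤ 2 * N ^ 2)
    (c0 : 0 ≤ Vc) (c1 : Vc ≤ 2 * N) (c2 : |Vc * (c * d - N) - N * (c * d)| ≤ 2 * N ^ 2) :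
    0 ≤ U * k0 N a b c d + Vb * kb N a b c d + Vc * kc N a b c d + Va * ka N a b c d ∧
      U * k0 N a b c d + Vb * kb N a b c d + Vc * kc N a b c d + Va * ka N a b c d ≤
        2004 / 1000 * (N * d) * ((b - a) * (c - b) * (c - a) *
          ((b - a) * (c - b) ^ 2 * (c - a) + (c - a) * b ^ 3 + (b - a) * c ^ 3)) := by
  obtain ⟨p, hp⟩ : ∃ p, p = b - a := ⟨_, rfl⟩
  obtain ⟨q, hq⟩ : ∃ q, q = c - a := ⟨_, rfl⟩
  obtain ⟨r, hr⟩ : ∃ r, r = c - b := ⟨_, rfl⟩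
  have key : a * (a ^ 3 * r ^ 3) + b * (b ^ 2 * q ^ 2 * (2 * p * r - a * r + 2 * c * p)) +
      c * (c ^ 2 * p ^ 2 * (2 * q * r - a * r - 2 * b * q)) =
      p ^ 2 * r ^ 3 * q ^ 2 + p * r * q ^ 2 * b ^ 3 + p ^ 2 * r * q * c ^ 3 := by
    rw [hp, hq, hr]; ring
  rw [k0, ka, kb, kc, ← hp, ← hq, ← hr]
  have p1 : 1 ≤ p := by linarith
  have q1 : 1 ≤ q := by linarith
  have r1 : 1 ≤ r := by linarith
  have rq : r ≤ q := by linarith
  have hb : 1 ≤ b := by linarith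
  have hc : 1 ≤ c := by linarith
  have ab' : a ≤ b := by linarith
  have bc' : b ≤ c := by linarith
  have ac' : a ≤ c := by linarith
  have cb : c ≤ 2 * (b * r) := by nlinarith
  have a0 : 0 < a := by linarith
  have b0' : 0 < b := by linarith
  have c0' : 0 < c := by linarith
  have p0 : 0 < p := by linarith
  have q0 : 0 < q := by linarith
  have r0 : 0 < r := by linarith
  have d0 : 0 < d := by linarith
  have x1 : a ^ 3 * r ^ 3 ≤ p * r * q ^ 2 * b ^ 3 :=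
    calc _ = 1 * r * r ^ 2 * a ^ 3 := by ring
      _ ≤ _ := by gcongr
  have x2 : b ^ 2 * q ^ 2 * (p * r) ≤ p * r * q ^ 2 * b ^ 3 :=
    calc _ = b ^ 2 * q ^ 2 * (p * r) * 1 := by ring
      _ ≤ b ^ 2 * q ^ 2 * (p * r) * b := by gcongr
      _ = _ := by ring
  have x3 : b ^ 2 * q ^ 2 * (a * r) ≤ p * r * q ^ 2 * b ^ 3 :=
    calc _ = b ^ 2 * q ^ 2 * r * a * 1 := by ring
      _ ≤ b ^ 2 * q ^ 2 * r * b * p := by gcongr
      _ = _ := by ring
  have x4 : b ^ 2 * q ^ 2 * (c * p) ≤ 2 * (p * r * q ^ 2 * b ^ 3) :=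
    calc _ ≤ b ^ 2 * q ^ 2 * (2 * (b * r) * p) := by gcongr
      _ = _ := by ring
  have y2 : c ^ 2 * p ^ 2 * (q * r) ≤ p ^ 2 * r * q * c ^ 3 :=
    calc _ = c ^ 2 * p ^ 2 * (q * r) * 1 := by ring
      _ ≤ c ^ 2 * p ^ 2 * (q * r) * c := by gcongr
      _ = _ := by ring
  have y3 : c ^ 2 * p ^ 2 * (a * r) ≤ p ^ 2 * r * q * c ^ 3 :=
    calc _ = c ^ 2 * p ^ 2 * r * a * 1 := by ring
      _ ≤ c ^ 2 * p ^ 2 * r * c * q := by gcongr
      _ = _ := by ring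
  have y4 : c ^ 2 * p ^ 2 * (b * q) ≤ p ^ 2 * r * q * c ^ 3 :=
    calc _ = c ^ 2 * p ^ 2 * q * b * 1 := by ring
      _ ≤ c ^ 2 * p ^ 2 * q * c * r := by gcongr
      _ = _ := by ring
  have z1 : 0 < a ^ 3 * r ^ 3 := by positivity
  have z2 : 0 < b ^ 2 * q ^ 2 * (p * r) := by positivity
  have z3 : 0 < b ^ 2 * q ^ 2 * (a * r) := by positivity
  have z4 : 0 < b ^ 2 * q ^ 2 * (c * p) := by positivity
  have z5 : 0 < c ^ 2 * p ^ 2 * (q * r) := by positivity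
  have z6 : 0 < c ^ 2 * p ^ 2 * (a * r) := by positivity
  have z7 : 0 < c ^ 2 * p ^ 2 * (b * q) := by positivity
  have ma : |a ^ 3 * r ^ 3| ≤ p * r * q ^ 2 * b ^ 3 := abs_le.2 ⟨by linarith, x1⟩
  have mb : |b ^ 2 * q ^ 2 * (2 * p * r - a * r + 2 * c * p)| ≤ 7 * (p * r * q ^ 2 * b ^ 3) :=
    abs_le.2 ⟨by linarith, by linarith⟩
  have mc : |c ^ 2 * p ^ 2 * (2 * q * r - a * r - 2 * b * q)| ≤ 5 * (p ^ 2 * r * q * c ^ 3) :=
    abs_le.2 ⟨by linarith, by linarith⟩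
  obtain ⟨la, ua⟩ := prod_bd ma a2
  obtain ⟨lb, ub⟩ := prod_bd mb b2
  obtain ⟨lc, uc⟩ := prod_bd mc c2
  have w1 : 0 ≤ N * (Vb * (b ^ 2 * q ^ 2 * (p * r))) := by positivity
  have w2 : N * (Vb * (b ^ 2 * q ^ 2 * (p * r))) ≤ N * (2 * N * (p * r * q ^ 2 * b ^ 3)) := by
    gcongr
  have w3 : 0 ≤ N * (Vc * (c ^ 2 * p ^ 2 * (q * r))) := by positivity
  have w4 : N * (Vc * (c ^ 2 * p ^ 2 * (q * r))) ≤ N * (2 * N * (p ^ 2 * r * q * c ^ 3)) := by
    gcongr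
  have X0 : 0 < p ^ 2 * r ^ 3 * q ^ 2 := by positivity
  have Xb : 0 < p * r * q ^ 2 * b ^ 3 := by positivity
  have Xc : 0 < p ^ 2 * r * q * c ^ 3 := by positivity
  have eS : p * r * q * (p * r ^ 2 * q + q * b ^ 3 + p * c ^ 3) =
      p ^ 2 * r ^ 3 * q ^ 2 + p * r * q ^ 2 * b ^ 3 + p ^ 2 * r * q * c ^ 3 := by ring
  have eE : U * (p ^ 2 * r ^ 3 * q ^ 2 * (3 * N - 2 * d * (a + 2 * b + 2 * c))) +
      Vb * (b ^ 2 * q ^ 2 * (3 * N * p * r + 2 * (b * d - N) * (2 * p * r - a * r + 2 * c * p))) +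
      Vc * (c ^ 2 * p ^ 2 * (3 * N * q * r + 2 * (c * d - N) * (2 * q * r - a * r - 2 * b * q))) +
      Va * (2 * (a * d - N) * (a ^ 3 * r ^ 3)) =
      -(U * (2 * d * (a + 2 * b + 2 * c) - 3 * N) * (p ^ 2 * r ^ 3 * q ^ 2)) +
      2 * (N * d) * (p ^ 2 * r ^ 3 * q ^ 2 + p * r * q ^ 2 * b ^ 3 + p ^ 2 * r * q * c ^ 3) +
      2 * (a ^ 3 * r ^ 3 * (Va * (a * d - N) - N * (a * d))) +
      2 * (b ^ 2 * q ^ 2 * (2 * p * r - a * r + 2 * c * p) * (Vb * (b * d - N) - N * (b * d))) +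
      2 * (c ^ 2 * p ^ 2 * (2 * q * r - a * r - 2 * b * q) * (Vc * (c * d - N) - N * (c * d))) +
      3 * (N * (Vb * (b ^ 2 * q ^ 2 * (p * r)))) + 3 * (N * (Vc * (c ^ 2 * p ^ 2 * (q * r)))) := by
    linear_combination 2 * (N * d) * key
  have g1 : d * 1 ≤ d * (a + 2 * b + 2 * c) := by gcongr; linarith
  have g2 : 0 ≤ U * (2 * d * (a + 2 * b + 2 * c) - 3 * N) := mul_nonneg U0 (by linarith)
  have g3 : U * (2 * d * (a + 2 * b + 2 * c) - 3 * N) ≤ N * d / 5 := by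
    have h1 : U * d * (a + 2 * b + 2 * c) ≤ 2 * N * (d / 20) := by gcongr; linarith
    have h2 : 0 ≤ U * N := by positivity
    linarith
  rw [eE, eS]
  generalize U * (2 * d * (a + 2 * b + 2 * c) - 3 * N) = G at *
  generalize a ^ 3 * r ^ 3 * (Va * (a * d - N) - N * (a * d)) = A at *
  generalize b ^ 2 * q ^ 2 * (2 * p * r - a * r + 2 * c * p) * (Vb * (b * d - N) - N * (b * d)) = B
    at *
  generalize c ^ 2 * p ^ 2 * (2 * q * r - a * r - 2 * b * q) * (Vc * (c * d - N) - N * (c * d)) = C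
    at *
  generalize N * (Vb * (b ^ 2 * q ^ 2 * (p * r))) = B' at *
  generalize N * (Vc * (c ^ 2 * p ^ 2 * (q * r))) = C' at *
  generalize p ^ 2 * r ^ 3 * q ^ 2 = X at *
  generalize p * r * q ^ 2 * b ^ 3 = Y at *
  generalize p ^ 2 * r * q * c ^ 3 = Z at *
  have n1 : 10000 * N * (N * Y) ≤ d * (N * Y) := by gcongr
  have n2 : 10000 * N * (N * Z) ≤ d * (N * Z) := by gcongr
  have n3 : 0 ≤ G * X := by positivity
  have n4 : G * X ≤ N * d / 5 * X := by gcongr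
  have n5 : 0 < N * d * X := by positivity
  have n6 : 0 < N * d * Y := by positivity
  have n7 : 0 < N * d * Z := by positivity
  constructor <;> linarith

theorem core (h : S_I7) {N a b c d e w ya yb yc W : ℝ} (N0 : 0 < N) (ha : 1 ≤ a) (ab : a + 1 ≤ b)
    (bc : b + 1 ≤ c) (cd : 100 * c ≤ d) (de : d ≤ e) (hd : 10000 * N ≤ d)
    (w0 : 0 ≤ w) (w2 : w ^ 2 = d * e - N)
    (ya0 : 0 ≤ ya) (ya2 : ya ^ 2 = (a * d - N) * (a * e - N))
    (yb0 : 0 ≤ yb) (yb2 : yb ^ 2 = (b * d - N) * (b * e - N))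
    (yc0 : 0 ≤ yc) (yc2 : yc ^ 2 = (c * d - N) * (c * e - N))
    (hW : W = k0 N a b c d * w + ka N a b c d * ya + kb N a b c d * yb + kc N a b c d * yc)
    (hf : 75 * (a * b ^ 2 * c ^ 2) * d ^ 6 *
      ((b - a) * (c - b) ^ 2 * (c - a) + (c - a) * b ^ 3 + (b - a) * c ^ 3) <
      N ^ 5 * ((b - a) * (c - b) ^ 2 * (c - a)) * e) :
    0 < W ∧ (1 ≤ W → 5300 * (a * b ^ 2 * c ^ 2) ^ 2 * d ^ 9 ≤
      N ^ 12 * ((b - a) ^ 2 * (c - b) ^ 3 * (c - a) ^ 2) ^ 2 * e) := by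
  have p : 0 < b - a := by linarith
  have q : 0 < c - a := by linarith
  have r : 0 < c - b := by linarith
  have d0 : 0 < d := by linarith
  have e0 : 0 < e := by linarith
  have a0 : 0 < a := by linarith
  have b0 : 0 < b := by linarith
  have c0 : 0 < c := by linarith
  have sm : ∀ {i y : ℝ}, 1 ≤ i → d ≤ y → -(1 / 10000) ≤ -N / (i * y) ∧ -N / (i * y) ≤ 0 :=
    fun {i y} hi hy => by
    have : 1 * d ≤ i * y := by gcongr
    have : 0 < i * y := by linarith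
    rw [neg_div, neg_le_neg_iff, div_le_div_iff₀ this (by norm_num), neg_nonpos]
    exact ⟨by linarith, by positivity⟩
  have eq : ∀ i : ℝ, -N / i * (1 / d) = -N / (i * d) := fun i => by rw [div_mul_div_comm, mul_one]
  have b1 : 1 ≤ b := by linarith
  have c1 : 1 ≤ c := by linarith
  have d1 : 1 ≤ d := by linarith
  obtain ⟨ρ, ρ0, hρ⟩ : ∃ ρ : ℝ, 0 < ρ ∧ ρ ^ 2 = d * e :=
    ⟨√(d * e), sqrt_pos.2 (by positivity), sq_sqrt (by positivity)⟩
  have n1 : ∀ {i : ℝ}, 1 ≤ i → 0 ≤ 1 + -N / i * (1 / d) := fun hi => by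
    rw [eq]; linarith [(sm hi le_rfl).1]
  have n2 : ∀ {i : ℝ}, 1 ≤ i → 0 ≤ 1 + -N / (i * e) := fun hi => by linarith [(sm hi de).1]
  have pe : ∀ {i y : ℝ}, 1 ≤ i → 0 ≤ y → y ^ 2 = (i * d - N) * (i * e - N) →
      y = i * ρ * √(1 + -N / i * (1 / d)) * √(1 + -N / (i * e)) := fun {i y} hi y0 hy =>
    NF4.prod_eq (by linarith) d0 e0 (n1 hi) (n2 hi) ρ0.le hρ y0 hy
  have ew : w = ρ * √(1 + -N / (d * e)) := by
    refine (pow_left_inj₀ w0 (by positivity) two_ne_zero).1 ?_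
    rw [w2, mul_pow, sq_sqrt (n2 d1), hρ]
    field_simp
    ring
  have lt : ∀ {i j : ℝ}, 0 < i → i < j → -N / i ≠ -N / j := fun {i j} hi hj => by
    refine ne_of_lt ?_
    rw [neg_div, neg_div, neg_lt_neg_iff]; gcongr
  have ng : ∀ {i : ℝ}, 0 < i → -N / i < 0 := fun hi => by rw [neg_div, neg_lt_zero]; positivity
  have sl : ∀ {i : ℝ}, 1 ≤ i → -(-N / i) * (1 / d) ≤ 1 / 10000 := fun hi => by
    rw [neg_mul, eq]; linarith [(sm hi le_rfl).1]
  obtain ⟨i1, i2⟩ := h (1 / d) (-N / a) (-N / b) (-N / c) (by positivity) (ng a0) (ng b0) (ng c0)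
    (lt a0 (by linarith)) (lt a0 (by linarith)) (lt b0 (by linarith)) (sl ha) (sl b1) (sl c1)
  have id := ident N0.ne' a0.ne' b0.ne' c0.ne' d0.ne' p.ne' q.ne' r.ne'
  have vv : ∀ {i : ℝ} (hi : 1 ≤ i), _ := fun {i} hi =>
    vb N0 (show 0 < i by linarith) d0 de (sqrt_nonneg _) (sqrt_nonneg _) (sq_sqrt (n1 hi))
      (sq_sqrt (n2 hi))
  have f1 := NF4.sqrt_le1 (sm d1 de).2
  have f0 := sqrt_nonneg (1 + -N / (d * e))
  have f2 : √(1 + -N / (d * e)) ^ 2 * (d * e) = d * e - N := by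
    rw [sq_sqrt (n2 d1)]; field_simp; ring
  have U0 : 0 ≤ 2 * e * (1 - √(1 + -N / (d * e))) := mul_nonneg (by linarith) (by linarith)
  have U1 : 2 * e * (1 - √(1 + -N / (d * e))) * d ≤ 2 * N := by
    generalize √(1 + -N / (d * e)) = f at *
    have : f ^ 2 * (d * e) ≤ f * (d * e) := by gcongr; nlinarith
    linarith
  obtain ⟨r1, r2⟩ := err N0 ha ab bc cd hd U0 U1 (vv ha).2.2 (vv b1).1 (vv b1).2.1 (vv b1).2.2
    (vv c1).1 (vv c1).2.1 (vv c1).2.2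
  rw [ew, pe ha ya0 ya2, pe b1 yb0 yb2, pe c1 yc0 yc2] at hW
  clear vv f1 f0 f2 U0 U1 ew pe
  generalize √(1 + -N / a * (1 / d)) = sa at *
  generalize √(1 + -N / b * (1 / d)) = sb at *
  generalize √(1 + -N / c * (1 / d)) = sc at *
  generalize √(1 + -N / (a * e)) = fa at *
  generalize √(1 + -N / (b * e)) = fb at *
  generalize √(1 + -N / (c * e)) = fc at *
  generalize √(1 + -N / (d * e)) = f0 at *
  generalize i7 (1 / d) (-N / a) (-N / b) (-N / c) = I at *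
  generalize k0 N a b c d = K0 at *
  generalize ka N a b c d = Ka at *
  generalize kb N a b c d = Kb at *
  generalize kc N a b c d = Kc at *
  have eX : (b - a) ^ 2 * (c - b) ^ 3 * (c - a) ^ 2 =
      (b - a) * (c - b) * (c - a) * ((b - a) * (c - b) ^ 2 * (c - a)) := by ring
  have T0 : 0 < (b - a) * (c - b) * (c - a) := by positivity
  have X0 : 0 < (b - a) * (c - b) ^ 2 * (c - a) := by positivity
  have P0 : 0 < a * b ^ 2 * c ^ 2 := by positivity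
  rw [eX] at id ⊢
  generalize (b - a) * (c - b) ^ 2 * (c - a) + (c - a) * b ^ 3 + (b - a) * c ^ 3 = Y at *
  generalize (b - a) * (c - b) ^ 2 * (c - a) = X at *
  generalize (b - a) * (c - b) * (c - a) = T at *
  generalize a * b ^ 2 * c ^ 2 = P at *
  obtain ⟨E, hE⟩ : ∃ E, E = 2 * e * (1 - f0) * K0 + 2 * e * ((1 - fb) * b * sb) * Kb +
    2 * e * ((1 - fc) * c * sc) * Kc + 2 * e * ((1 - fa) * a * sa) * Ka := ⟨_, rfl⟩
  rw [← hE] at r1 r2
  have eW : W = ρ * (2 * d * N ^ 6 * (T * X) / P * I - E / (2 * e)) := by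
    rw [id, hW, hE]; field_simp; ring
  obtain ⟨M, hM⟩ : ∃ M, M = N ^ 6 * (T * X) / (P * d ^ 5) := ⟨_, rfl⟩
  have M0 : 0 < M := by rw [hM]; positivity
  have m1 : 1366 / 100000 * M ≤ 2 * d * N ^ 6 * (T * X) / P * I :=
    calc _ = 2 * d * N ^ 6 * (T * X) / P * (683 / 100000 * (1 / d) ^ 6) := by
          rw [hM]; field_simp; ring
      _ ≤ _ := by gcongr
  have m2 : 2 * d * N ^ 6 * (T * X) / P * I ≤ 137 / 10000 * M :=
    calc _ ≤ 2 * d * N ^ 6 * (T * X) / P * (685 / 100000 * (1 / d) ^ 6) := by gcongr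
      _ = _ := by rw [hM]; field_simp; ring
  have m3 : 0 ≤ E / (2 * e) := by positivity
  have m4 : E / (2 * e) ≤ 1336 / 100000 * M := by
    have hY : Y ≤ N ^ 5 * X * e / (75 * P * d ^ 6) := by
      rw [le_div_iff₀ (by positivity)]; linarith
    calc _ ≤ 2004 / 1000 * (N * d) * (T * (N ^ 5 * X * e / (75 * P * d ^ 6))) / (2 * e) := by
          gcongr
          exact r2.trans (by gcongr)
      _ = _ := by rw [hM]; field_simp; ring
  refine ⟨by rw [eW]; exact mul_pos ρ0 (by linarith), fun hw => ?_⟩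
  have h1 : 1 ≤ ρ * (137 / 10000 * M) := hw.trans (by rw [eW]; gcongr; linarith)
  have h2 := pow_le_pow_left₀ (by norm_num) h1 2
  have h3 : (ρ * (137 / 10000 * M)) ^ 2 =
      (137 / 10000) ^ 2 * (N ^ 12 * (T * X) ^ 2 * e) / (P ^ 2 * d ^ 9) := by
    rw [mul_pow, hρ, hM]; field_simp
  rw [h3, le_div_iff₀ (by positivity)] at h2
  have : 0 < N ^ 12 * (T * X) ^ 2 * e := by positivity
  linarith

end HQ122

open HQ122 in
theorem q122b (h : S_I7) : S_Q122 := by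
  intro N a b c d e h1 h2 hc
  refine or_iff_not_imp_left.2 fun hf => ?_
  obtain ⟨w, w0, w2⟩ := NF4.root h1.sq
  obtain ⟨x, x0, x2⟩ := NF4.root h1.pd
  obtain ⟨x', x0', x2'⟩ := NF4.root h1.pe
  obtain ⟨y, y0, y2⟩ := NF4.root h1.sd
  obtain ⟨y', y0', y2'⟩ := NF4.root h1.se
  obtain ⟨z, z0, z2⟩ := NF4.root h2.sd
  obtain ⟨z', z0', z2'⟩ := NF4.root h2.se
  have pr : ∀ {i s t : ℤ}, s ^ 2 = i * d - N → t ^ 2 = i * e - N →
      ((s * t : ℤ) : ℝ) ^ 2 = (i * d - N) * (i * e - N) := fun {i s t} hs ht => by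
    have : (s * t) ^ 2 = (i * d - N) * (i * e - N) := by rw [mul_pow, hs, ht]
    exact_mod_cast this
  obtain ⟨k1, k2⟩ := core h (N := N) (a := a) (b := b) (c := c) (d := d) (e := e) (w := w)
    (ya := (x * x' : ℤ)) (yb := (y * y' : ℤ)) (yc := (z * z' : ℤ))
    (W := (k0 N a b c d * w + ka N a b c d * (x * x') + kb N a b c d * (y * y') +
      kc N a b c d * (z * z') : ℤ))
    (by exact_mod_cast h1.n1) (by exact_mod_cast h1.p0) (by exact_mod_cast h1.pq)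
    (by exact_mod_cast h2.pq) (by exact_mod_cast hc) (by exact_mod_cast h1.de)
    (by exact_mod_cast h1.big) (by exact_mod_cast w0) (by exact_mod_cast w2)
    (by exact_mod_cast mul_nonneg x0 x0') (pr x2 x2') (by exact_mod_cast mul_nonneg y0 y0')
    (pr y2 y2') (by exact_mod_cast mul_nonneg z0 z0') (pr z2 z2')
    (by simp only [k0, ka, kb, kc]; push_cast; ring) (by exact_mod_cast not_le.1 hf)
  have k4 : ∀ W : ℤ, (0 : ℝ) < W → (1 : ℝ) ≤ W := fun W hW => by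
    have : 0 < W := by exact_mod_cast hW
    exact_mod_cast this
  have k3 := k2 (k4 _ k1)
  exact_mod_cast k3

end Pool.Agent.MP_2339ce_nt.Q2
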