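import Pool.Agent.MP_2339ce_nt.Q2.HQ122

/-! Block HP: the form with double nodes `0`, `a`, `b` and a simple node `c`. -/

set_option autoImplicit false

namespace Pool.Agent.MP_2339ce_nt.Q2

open DQ Real

namespace HQ221

def k0 {R : Type} [CommRing R] (N a b c d : R) : R :=
  (b - a) ^ 3 * (c - b) ^ 2 * (c - a) ^ 2 * (3 * N - 2 * d * (2 * a + 2 * b + c))

def ka {R : Type} [CommRing R] (N a b c d : R) : R :=
  -(a ^ 2 * (c - b) ^ 2 * (3 * N * (b - a) * (c - a) +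
    2 * (a * d - N) * (2 * (b - a) * (c - a) + c * (b - a) + 2 * b * (c - a))))

def kb {R : Type} [CommRing R] (N a b c d : R) : R :=
  -(b ^ 2 * (c - a) ^ 2 * (3 * N * (b - a) * (c - b) +
    2 * (b * d - N) * (2 * (b - a) * (c - b) + c * (b - a) - 2 * a * (c - b))))

def kc {R : Type} [CommRing R] (N a b c d : R) : R :=
  2 * (c * d - N) * (c ^ 3 * (b - a) ^ 3)

theorem ident {N a b c d : ℝ} (hN : N ≠ 0) (a0 : a ≠ 0) (b0 : b ≠ 0) (c0 : c ≠ 0) (d0 : d ≠ 0)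
    (ab : b - a ≠ 0) (ac : c - a ≠ 0) (bc : c - b ≠ 0) :
    2 * d * N ^ 6 * ((b - a) ^ 3 * (c - b) ^ 2 * (c - a) ^ 2) / (a ^ 2 * b ^ 2 * c) *
      i7 (1 / d) (-N / c) (-N / a) (-N / b) =
    k0 N a b c d + a * √(1 + -N / a * (1 / d)) * ka N a b c d +
      b * √(1 + -N / b * (1 / d)) * kb N a b c d + c * √(1 + -N / c * (1 / d)) * kc N a b c d := by
  have e1 : -N / a - -N / b = -N * (b - a) / (a * b) := by field_simp; ring
  have e2 : -N / a - -N / c = -N * (c - a) / (a * c) := by field_simp; ring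
  have e3 : -N / b - -N / a = N * (b - a) / (a * b) := by field_simp; ring
  have e4 : -N / b - -N / c = -N * (c - b) / (b * c) := by field_simp; ring
  have e5 : -N / c - -N / a = N * (c - a) / (a * c) := by field_simp; ring
  have e6 : -N / c - -N / b = N * (c - b) / (b * c) := by field_simp; ring
  rw [i7, e1, e2, e3, e4, e5, e6, k0, ka, kb, kc]
  generalize √(1 + -N / a * (1 / d)) = s
  generalize √(1 + -N / b * (1 / d)) = t
  generalize √(1 + -N / c * (1 / d)) = u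
  generalize b - a = p at *
  generalize c - a = q at *
  generalize c - b = r at *
  rw [mul_add, mul_add, mul_add]
  refine congrArg₂ _ (congrArg₂ _ (congrArg₂ _ ?_ ?_) ?_) ?_ <;> (field_simp; ring)

/-- the total error -/
theorem err {N a b c d U Va Vb Vc : ℝ} (N0 : 0 < N) (ha : 1 ≤ a) (ab : a + 1 ≤ b) (bc : b + 1 ≤ c)
    (cd : 100 * c ≤ d) (hd : 10000 * N ≤ d) (U0 : 0 ≤ U) (U1 : U * d ≤ 2 * N)
    (a0 : 0 ≤ Va) (a1 : Va ≤ 2 * N) (a2 : |Va * (a * d - N) - N * (a * d)| ≤ 2 * N ^ 2)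
    (b0 : 0 ≤ Vb) (b1 : Vb ≤ 2 * N) (b2 : |Vb * (b * d - N) - N * (b * d)| ≤ 2 * N ^ 2)
    (c2 : |Vc * (c * d - N) - N * (c * d)| ≤ 2 * N ^ 2) :
    -(2004 / 1000 * (N * d) * ((b - a) * (c - b) ^ 2 * (c - a) * a ^ 3 +
        (b - a) * (c - b) * (c - a) ^ 2 * b ^ 3)) ≤
        U * k0 N a b c d + Va * ka N a b c d + Vb * kb N a b c d + Vc * kc N a b c d ∧
      U * k0 N a b c d + Va * ka N a b c d + Vb * kb N a b c d + Vc * kc N a b c d ≤
        2004 / 1000 * (N * d) * ((b - a) ^ 3 * (c - b) ^ 2 * (c - a) ^ 2) := by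
  obtain ⟨p, hp⟩ : ∃ p, p = b - a := ⟨_, rfl⟩
  obtain ⟨q, hq⟩ : ∃ q, q = c - a := ⟨_, rfl⟩
  obtain ⟨r, hr⟩ : ∃ r, r = c - b := ⟨_, rfl⟩
  have key : c * (c ^ 3 * p ^ 3) - a * (a ^ 2 * r ^ 2 * (2 * p * q + c * p + 2 * b * q)) -
      b * (b ^ 2 * q ^ 2 * (2 * p * r + c * p - 2 * a * r)) =
      p ^ 3 * r ^ 2 * q ^ 2 - p * r ^ 2 * q * a ^ 3 - p * r * q ^ 2 * b ^ 3 := by
    rw [hp, hq, hr]; ring
  rw [k0, ka, kb, kc, ← hp, ← hq, ← hr]
  have p1 : 1 ≤ p := by linarith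
  have q1 : 1 ≤ q := by linarith
  have r1 : 1 ≤ r := by linarith
  have rq : r ≤ q := by linarith
  have pq : p ≤ q := by linarith
  have hb : 1 ≤ b := by linarith
  have hc : 1 ≤ c := by linarith
  have ab' : a ≤ b := by linarith
  have cb : c ≤ 2 * (b * r) := by nlinarith
  have ca : c ≤ 2 * (a * q) := by nlinarith
  have ba : b ≤ 2 * (a * p) := by nlinarith
  have a0' : 0 < a := by linarith
  have b0' : 0 < b := by linarith
  have c0' : 0 < c := by linarith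
  have p0 : 0 < p := by linarith
  have q0 : 0 < q := by linarith
  have r0 : 0 < r := by linarith
  have d0 : 0 < d := by linarith
  have c3 : c ^ 3 ≤ 4 * (b ^ 3 + r ^ 3) := by
    have e : c = b + r := by linarith
    have : 0 ≤ (b + r) * (b - r) ^ 2 := by positivity
    rw [e]; nlinarith
  have x1 : p ^ 3 * r ^ 3 ≤ p ^ 3 * r ^ 2 * q ^ 2 :=
    calc _ = p ^ 3 * r ^ 2 * (r * 1) := by ring
      _ ≤ p ^ 3 * r ^ 2 * (q * q) := by gcongr
      _ = _ := by ring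
  have x1' : p ^ 3 * b ^ 3 ≤ p * r * q ^ 2 * b ^ 3 :=
    calc _ = p * 1 * p ^ 2 * b ^ 3 := by ring
      _ ≤ _ := by gcongr
  have x1'' : c ^ 3 * p ^ 3 ≤ 4 * (p ^ 3 * r ^ 2 * q ^ 2 + p * r * q ^ 2 * b ^ 3) :=
    calc _ ≤ 4 * (b ^ 3 + r ^ 3) * p ^ 3 := by gcongr
      _ ≤ _ := by linarith
  have x2 : b ^ 2 * q ^ 2 * (p * r) ≤ p * r * q ^ 2 * b ^ 3 :=
    calc _ = b ^ 2 * q ^ 2 * (p * r) * 1 := by ring
      _ ≤ b ^ 2 * q ^ 2 * (p * r) * b := by gcongr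
      _ = _ := by ring
  have x3 : b ^ 2 * q ^ 2 * (a * r) ≤ p * r * q ^ 2 * b ^ 3 :=
    calc _ = b ^ 2 * q ^ 2 * r * a * 1 := by ring
      _ ≤ b ^ 2 * q ^ 2 * r * b * p := by gcongr
      _ = _ := by ring
  have x4 : b ^ 2 * q ^ 2 * (c * p) ≤ 2 * (p * r * q ^ 2 * b ^ 3) :=
    calc _ ≤ b ^ 2 * q ^ 2 * (2 * (b * r) * p) := by gcongr
      _ = _ := by ring
  have y2 : a ^ 2 * r ^ 2 * (p * q) ≤ p * r ^ 2 * q * a ^ 3 :=
    calc _ = a ^ 2 * r ^ 2 * (p * q) * 1 := by ring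
      _ ≤ a ^ 2 * r ^ 2 * (p * q) * a := by gcongr
      _ = _ := by ring
  have y3 : a ^ 2 * r ^ 2 * (c * p) ≤ 2 * (p * r ^ 2 * q * a ^ 3) :=
    calc _ ≤ a ^ 2 * r ^ 2 * (2 * (a * q) * p) := by gcongr
      _ = _ := by ring
  have y4 : a ^ 2 * r ^ 2 * (b * q) ≤ 2 * (p * r ^ 2 * q * a ^ 3) :=
    calc _ ≤ a ^ 2 * r ^ 2 * (2 * (a * p) * q) := by gcongr
      _ = _ := by ring
  have z1 : 0 < c ^ 3 * p ^ 3 := by positivity
  have z2 : 0 < b ^ 2 * q ^ 2 * (p * r) := by positivity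
  have z3 : 0 < b ^ 2 * q ^ 2 * (a * r) := by positivity
  have z4 : 0 < b ^ 2 * q ^ 2 * (c * p) := by positivity
  have z5 : 0 < a ^ 2 * r ^ 2 * (p * q) := by positivity
  have z6 : 0 < a ^ 2 * r ^ 2 * (c * p) := by positivity
  have z7 : 0 < a ^ 2 * r ^ 2 * (b * q) := by positivity
  have mc : |c ^ 3 * p ^ 3| ≤ 4 * (p ^ 3 * r ^ 2 * q ^ 2 + p * r * q ^ 2 * b ^ 3) :=
    abs_le.2 ⟨by linarith, x1''⟩
  have mb : |b ^ 2 * q ^ 2 * (2 * p * r + c * p - 2 * a * r)| ≤ 4 * (p * r * q ^ 2 * b ^ 3) :=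
    abs_le.2 ⟨by linarith, by linarith⟩
  have ma : |a ^ 2 * r ^ 2 * (2 * p * q + c * p + 2 * b * q)| ≤ 8 * (p * r ^ 2 * q * a ^ 3) :=
    abs_le.2 ⟨by linarith, by linarith⟩
  obtain ⟨la, ua⟩ := HQ122.prod_bd ma a2
  obtain ⟨lb, ub⟩ := HQ122.prod_bd mb b2
  obtain ⟨lc, uc⟩ := HQ122.prod_bd mc c2
  have w1 : 0 ≤ N * (Vb * (b ^ 2 * q ^ 2 * (p * r))) := by positivity
  have w2 : N * (Vb * (b ^ 2 * q ^ 2 * (p * r))) ≤ N * (2 * N * (p * r * q ^ 2 * b ^ 3)) := by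
    gcongr
  have w3 : 0 ≤ N * (Va * (a ^ 2 * r ^ 2 * (p * q))) := by positivity
  have w4 : N * (Va * (a ^ 2 * r ^ 2 * (p * q))) ≤ N * (2 * N * (p * r ^ 2 * q * a ^ 3)) := by
    gcongr
  have X0 : 0 < p ^ 3 * r ^ 2 * q ^ 2 := by positivity
  have Xb : 0 < p * r * q ^ 2 * b ^ 3 := by positivity
  have Xa : 0 < p * r ^ 2 * q * a ^ 3 := by positivity
  have eE : U * (p ^ 3 * r ^ 2 * q ^ 2 * (3 * N - 2 * d * (2 * a + 2 * b + c))) +
      Va * -(a ^ 2 * r ^ 2 * (3 * N * p * q + 2 * (a * d - N) * (2 * p * q + c * p + 2 * b * q))) +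
      Vb * -(b ^ 2 * q ^ 2 * (3 * N * p * r + 2 * (b * d - N) * (2 * p * r + c * p - 2 * a * r))) +
      Vc * (2 * (c * d - N) * (c ^ 3 * p ^ 3)) =
      -(U * (2 * d * (2 * a + 2 * b + c) - 3 * N) * (p ^ 3 * r ^ 2 * q ^ 2)) +
      2 * (N * d) * (p ^ 3 * r ^ 2 * q ^ 2 - p * r ^ 2 * q * a ^ 3 - p * r * q ^ 2 * b ^ 3) +
      2 * (c ^ 3 * p ^ 3 * (Vc * (c * d - N) - N * (c * d))) -
      2 * (b ^ 2 * q ^ 2 * (2 * p * r + c * p - 2 * a * r) * (Vb * (b * d - N) - N * (b * d))) -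
      2 * (a ^ 2 * r ^ 2 * (2 * p * q + c * p + 2 * b * q) * (Va * (a * d - N) - N * (a * d))) -
      3 * (N * (Vb * (b ^ 2 * q ^ 2 * (p * r)))) - 3 * (N * (Va * (a ^ 2 * r ^ 2 * (p * q)))) := by
    linear_combination 2 * (N * d) * key
  have g1 : d * 1 ≤ d * (2 * a + 2 * b + c) := by gcongr; linarith
  have g2 : 0 ≤ U * (2 * d * (2 * a + 2 * b + c) - 3 * N) := mul_nonneg U0 (by linarith)
  have g3 : U * (2 * d * (2 * a + 2 * b + c) - 3 * N) ≤ N * d / 5 := by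
    have h1 : U * d * (2 * a + 2 * b + c) ≤ 2 * N * (d / 20) := by gcongr; linarith
    have h2 : 0 ≤ U * N := by positivity
    linarith
  rw [eE]
  generalize U * (2 * d * (2 * a + 2 * b + c) - 3 * N) = G at *
  generalize c ^ 3 * p ^ 3 * (Vc * (c * d - N) - N * (c * d)) = C at *
  generalize b ^ 2 * q ^ 2 * (2 * p * r + c * p - 2 * a * r) * (Vb * (b * d - N) - N * (b * d)) = B
    at *
  generalize a ^ 2 * r ^ 2 * (2 * p * q + c * p + 2 * b * q) * (Va * (a * d - N) - N * (a * d)) = A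
    at *
  generalize N * (Vb * (b ^ 2 * q ^ 2 * (p * r))) = B' at *
  generalize N * (Va * (a ^ 2 * r ^ 2 * (p * q))) = A' at *
  generalize p ^ 3 * r ^ 2 * q ^ 2 = X at *
  generalize p * r * q ^ 2 * b ^ 3 = Y at *
  generalize p * r ^ 2 * q * a ^ 3 = Z at *
  have n0 : 10000 * N * (N * X) ≤ d * (N * X) := by gcongr
  have n1 : 10000 * N * (N * Y) ≤ d * (N * Y) := by gcongr
  have n2 : 10000 * N * (N * Z) ≤ d * (N * Z) := by gcongr
  have n3 : 0 ≤ G * X := by positivity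
  have n4 : G * X ≤ N * d / 5 * X := by gcongr
  have n5 : 0 < N * d * X := by positivity
  have n6 : 0 < N * d * Y := by positivity
  have n7 : 0 < N * d * Z := by positivity
  constructor <;> linarith

theorem small {N d e ρ Y : ℝ} (e0 : 0 < e) (d0 : 0 < d) (hρ : ρ ^ 2 = d * e)
    (h : 1 / 20 ≤ ρ * (1002 / 1000 * (N * d) * Y / e)) : e ≤ 410 * N ^ 2 * Y ^ 2 * d ^ 3 := by
  have h2 := pow_le_pow_left₀ (by norm_num) h 2
  have h3 : (ρ * (1002 / 1000 * (N * d) * Y / e)) ^ 2 =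
      (1002 / 1000) ^ 2 * (N ^ 2 * Y ^ 2 * d ^ 3) / e := by
    rw [mul_pow, hρ]; field_simp
  rw [h3, le_div_iff₀ e0] at h2
  have : 0 ≤ N ^ 2 * Y ^ 2 * d ^ 3 := by positivity
  linarith

theorem core (h : S_I7) {N a b c d e w ya yb yc W : ℝ} (N0 : 0 < N) (ha : 1 ≤ a) (ab : a + 1 ≤ b)
    (bc : b + 1 ≤ c) (cd : 100 * c ≤ d) (de : d ≤ e) (hd : 10000 * N ≤ d)
    (w0 : 0 ≤ w) (w2 : w ^ 2 = d * e - N)
    (ya0 : 0 ≤ ya) (ya2 : ya ^ 2 = (a * d - N) * (a * e - N))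
    (yb0 : 0 ≤ yb) (yb2 : yb ^ 2 = (b * d - N) * (b * e - N))
    (yc0 : 0 ≤ yc) (yc2 : yc ^ 2 = (c * d - N) * (c * e - N))
    (hW : W = k0 N a b c d * w + ka N a b c d * ya + kb N a b c d * yb + kc N a b c d * yc)
    (hf : 75 * (a ^ 2 * b ^ 2 * c) * d ^ 6 < N ^ 5 * e) :
    0 < W ∧ (1 ≤ W →
      e ≤ 410 * N ^ 2 * ((b - a) * (c - b) ^ 2 * (c - a) * a ^ 3) ^ 2 * d ^ 3 ∨
      e ≤ 410 * N ^ 2 * ((b - a) * (c - b) * (c - a) ^ 2 * b ^ 3) ^ 2 * d ^ 3 ∨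
      4300 * (a ^ 2 * b ^ 2 * c) ^ 2 * d ^ 9 ≤
        N ^ 12 * ((b - a) ^ 3 * (c - b) ^ 2 * (c - a) ^ 2) ^ 2 * e) := by
  have p : 0 < b - a := by linarith
  have q : 0 < c - a := by linarith
  have r : 0 < c - b := by linarith
  have d0 : 0 < d := by linarith
  have e0 : 0 < e := by linarith
  have a0 : 0 < a := by linarith
  have b0 : 0 < b := by linarith
  have c0 : 0 < c := by linarith
  have sm : ∀ {i y : ℝ}, 1 ≤ i → d ≤ y → -(1 / 10000) ≤ -N / (i * y) ∧ -N / (i * y) ≤ 0 :=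
    fun {i y} hi hy => by
    have : 1 * d ≤ i * y := by gcongr
    have : 0 < i * y := by linarith
    rw [neg_div, neg_le_neg_iff, div_le_div_iff₀ this (by norm_num), neg_nonpos]
    exact ⟨by linarith, by positivity⟩
  have eq : ∀ i : ℝ, -N / i * (1 / d) = -N / (i * d) := fun i => by rw [div_mul_div_comm, mul_one]
  have b1 : 1 ≤ b := by linarith
  have c1 : 1 ≤ c := by linarith
  have d1 : 1 ≤ d := by linarith
  obtain ⟨ρ, ρ0, hρ⟩ : ∃ ρ : ℝ, 0 < ρ ∧ ρ ^ 2 = d * e :=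
    ⟨√(d * e), sqrt_pos.2 (by positivity), sq_sqrt (by positivity)⟩
  have n1 : ∀ {i : ℝ}, 1 ≤ i → 0 ≤ 1 + -N / i * (1 / d) := fun hi => by
    rw [eq]; linarith [(sm hi le_rfl).1]
  have n2 : ∀ {i : ℝ}, 1 ≤ i → 0 ≤ 1 + -N / (i * e) := fun hi => by linarith [(sm hi de).1]
  have pe : ∀ {i y : ℝ}, 1 ≤ i → 0 ≤ y → y ^ 2 = (i * d - N) * (i * e - N) →
      y = i * ρ * √(1 + -N / i * (1 / d)) * √(1 + -N / (i * e)) := fun {i y} hi y0 hy =>
    NF4.prod_eq (by linarith) d0 e0 (n1 hi) (n2 hi) ρ0.le hρ y0 hy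
  have ew : w = ρ * √(1 + -N / (d * e)) := by
    refine (pow_left_inj₀ w0 (by positivity) two_ne_zero).1 ?_
    rw [w2, mul_pow, sq_sqrt (n2 d1), hρ]
    field_simp
    ring
  have lt : ∀ {i j : ℝ}, 0 < i → i < j → -N / i ≠ -N / j := fun {i j} hi hj => by
    refine ne_of_lt ?_
    rw [neg_div, neg_div, neg_lt_neg_iff]; gcongr
  have ng : ∀ {i : ℝ}, 0 < i → -N / i < 0 := fun hi => by rw [neg_div, neg_lt_zero]; positivity
  have sl : ∀ {i : ℝ}, 1 ≤ i → -(-N / i) * (1 / d) ≤ 1 / 10000 := fun hi => by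
    rw [neg_mul, eq]; linarith [(sm hi le_rfl).1]
  obtain ⟨i1, i2⟩ := h (1 / d) (-N / c) (-N / a) (-N / b) (by positivity) (ng c0) (ng a0) (ng b0)
    (lt a0 (by linarith)).symm (lt b0 (by linarith)).symm (lt a0 (by linarith)) (sl c1) (sl ha)
    (sl b1)
  have id := ident N0.ne' a0.ne' b0.ne' c0.ne' d0.ne' p.ne' q.ne' r.ne'
  have vv : ∀ {i : ℝ} (hi : 1 ≤ i), _ := fun {i} hi =>
    HQ122.vb N0 (show 0 < i by linarith) d0 de (sqrt_nonneg _) (sqrt_nonneg _) (sq_sqrt (n1 hi))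
      (sq_sqrt (n2 hi))
  have f1 := NF4.sqrt_le1 (sm d1 de).2
  have f0 := sqrt_nonneg (1 + -N / (d * e))
  have f2 : √(1 + -N / (d * e)) ^ 2 * (d * e) = d * e - N := by
    rw [sq_sqrt (n2 d1)]; field_simp; ring
  have U0 : 0 ≤ 2 * e * (1 - √(1 + -N / (d * e))) := mul_nonneg (by linarith) (by linarith)
  have U1 : 2 * e * (1 - √(1 + -N / (d * e))) * d ≤ 2 * N := by
    generalize √(1 + -N / (d * e)) = f at *
    have : f ^ 2 * (d * e) ≤ f * (d * e) := by gcongr; nlinarith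
    linarith
  obtain ⟨r1, r2⟩ := err N0 ha ab bc cd hd U0 U1 (vv ha).1 (vv ha).2.1 (vv ha).2.2 (vv b1).1
    (vv b1).2.1 (vv b1).2.2 (vv c1).2.2
  rw [ew, pe ha ya0 ya2, pe b1 yb0 yb2, pe c1 yc0 yc2] at hW
  clear vv f1 f0 f2 U0 U1 ew pe
  generalize √(1 + -N / a * (1 / d)) = sa at *
  generalize √(1 + -N / b * (1 / d)) = sb at *
  generalize √(1 + -N / c * (1 / d)) = sc at *
  generalize √(1 + -N / (a * e)) = fa at *
  generalize √(1 + -N / (b * e)) = fb at *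
  generalize √(1 + -N / (c * e)) = fc at *
  generalize √(1 + -N / (d * e)) = f0 at *
  generalize i7 (1 / d) (-N / c) (-N / a) (-N / b) = I at *
  generalize k0 N a b c d = K0 at *
  generalize ka N a b c d = Ka at *
  generalize kb N a b c d = Kb at *
  generalize kc N a b c d = Kc at *
  have X0 : 0 < (b - a) ^ 3 * (c - b) ^ 2 * (c - a) ^ 2 := by positivity
  have P0 : 0 < a ^ 2 * b ^ 2 * c := by positivity
  generalize (b - a) ^ 3 * (c - b) ^ 2 * (c - a) ^ 2 = X at *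
  generalize (b - a) * (c - b) ^ 2 * (c - a) * a ^ 3 = Ya at *
  generalize (b - a) * (c - b) * (c - a) ^ 2 * b ^ 3 = Yb at *
  generalize a ^ 2 * b ^ 2 * c = P at *
  obtain ⟨E, hE⟩ : ∃ E, E = 2 * e * (1 - f0) * K0 + 2 * e * ((1 - fa) * a * sa) * Ka +
    2 * e * ((1 - fb) * b * sb) * Kb + 2 * e * ((1 - fc) * c * sc) * Kc := ⟨_, rfl⟩
  rw [← hE] at r1 r2
  have eW : W = ρ * (2 * d * N ^ 6 * X / P * I - E / (2 * e)) := by
    rw [id, hW, hE]; field_simp; ring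
  obtain ⟨M, hM⟩ : ∃ M, M = N ^ 6 * X / (P * d ^ 5) := ⟨_, rfl⟩
  have M0 : 0 < M := by rw [hM]; positivity
  have m1 : 1366 / 100000 * M ≤ 2 * d * N ^ 6 * X / P * I :=
    calc _ = 2 * d * N ^ 6 * X / P * (683 / 100000 * (1 / d) ^ 6) := by
          rw [hM]; field_simp; ring
      _ ≤ _ := by gcongr
  have m2 : 2 * d * N ^ 6 * X / P * I ≤ 137 / 10000 * M :=
    calc _ ≤ 2 * d * N ^ 6 * X / P * (685 / 100000 * (1 / d) ^ 6) := by gcongr
      _ = _ := by rw [hM]; field_simp; ring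
  have m3 : -(E / (2 * e)) ≤
      1002 / 1000 * (N * d) * Ya / e + 1002 / 1000 * (N * d) * Yb / e := by
    have : 1002 / 1000 * (N * d) * Ya / e + 1002 / 1000 * (N * d) * Yb / e =
        2004 / 1000 * (N * d) * (Ya + Yb) / (2 * e) := by field_simp; ring
    rw [this, ← neg_div]
    gcongr
    linarith
  have m4 : E / (2 * e) ≤ 1336 / 100000 * M := by
    have hY : 1 ≤ N ^ 5 * e / (75 * P * d ^ 6) := by
      rw [le_div_iff₀ (by positivity)]; linarith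
    calc _ ≤ 2004 / 1000 * (N * d) * (X * (N ^ 5 * e / (75 * P * d ^ 6))) / (2 * e) := by
          gcongr
          refine r2.trans ?_
          gcongr
          exact le_mul_of_one_le_right X0.le hY
      _ = _ := by rw [hM]; field_simp; ring
  refine ⟨by rw [eW]; exact mul_pos ρ0 (by linarith), fun hw => ?_⟩
  have h1 : 1 ≤ ρ * (137 / 10000 * M + (1002 / 1000 * (N * d) * Ya / e +
      1002 / 1000 * (N * d) * Yb / e)) := hw.trans (by rw [eW]; gcongr; linarith)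
  by_cases ca : 1 / 20 ≤ ρ * (1002 / 1000 * (N * d) * Ya / e)
  · exact .inl (small e0 d0 hρ ca)
  by_cases cb : 1 / 20 ≤ ρ * (1002 / 1000 * (N * d) * Yb / e)
  · exact .inr (.inl (small e0 d0 hρ cb))
  refine .inr (.inr ?_)
  have h0 : 9 / 10 ≤ ρ * (137 / 10000 * M) := by
    rw [mul_add, mul_add] at h1
    linarith [not_le.1 ca, not_le.1 cb]
  have h2 := pow_le_pow_left₀ (by norm_num) h0 2
  have h3 : (ρ * (137 / 10000 * M)) ^ 2 =
      (137 / 10000) ^ 2 * (N ^ 12 * X ^ 2 * e) / (P ^ 2 * d ^ 9) := by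
    rw [mul_pow, hρ, hM]; field_simp
  rw [h3, le_div_iff₀ (by positivity)] at h2
  have : 0 < N ^ 12 * X ^ 2 * e := by positivity
  linarith

end HQ221

open HQ221 in
theorem q221b (h : S_I7) : S_Q221 := by
  intro N a b c d e h1 h2 hc
  refine or_iff_not_imp_left.2 fun hf => ?_
  obtain ⟨w, w0, w2⟩ := NF4.root h1.sq
  obtain ⟨x, x0, x2⟩ := NF4.root h1.pd
  obtain ⟨x', x0', x2'⟩ := NF4.root h1.pe
  obtain ⟨y, y0, y2⟩ := NF4.root h1.sd
  obtain ⟨y', y0', y2'⟩ := NF4.root h1.se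
  obtain ⟨z, z0, z2⟩ := NF4.root h2.sd
  obtain ⟨z', z0', z2'⟩ := NF4.root h2.se
  have pr : ∀ {i s t : ℤ}, s ^ 2 = i * d - N → t ^ 2 = i * e - N →
      ((s * t : ℤ) : ℝ) ^ 2 = (i * d - N) * (i * e - N) := fun {i s t} hs ht => by
    have : (s * t) ^ 2 = (i * d - N) * (i * e - N) := by rw [mul_pow, hs, ht]
    exact_mod_cast this
  obtain ⟨k1, k2⟩ := core h (N := N) (a := a) (b := b) (c := c) (d := d) (e := e) (w := w)
    (ya := (x * x' : ℤ)) (yb := (y * y' : ℤ)) (yc := (z * z' : ℤ))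
    (W := (k0 N a b c d * w + ka N a b c d * (x * x') + kb N a b c d * (y * y') +
      kc N a b c d * (z * z') : ℤ))
    (by exact_mod_cast h1.n1) (by exact_mod_cast h1.p0) (by exact_mod_cast h1.pq)
    (by exact_mod_cast h2.pq) (by exact_mod_cast hc) (by exact_mod_cast h1.de)
    (by exact_mod_cast h1.big) (by exact_mod_cast w0) (by exact_mod_cast w2)
    (by exact_mod_cast mul_nonneg x0 x0') (pr x2 x2') (by exact_mod_cast mul_nonneg y0 y0')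
    (pr y2 y2') (by exact_mod_cast mul_nonneg z0 z0') (pr z2 z2')
    (by simp only [k0, ka, kb, kc]; push_cast; ring) (by exact_mod_cast not_le.1 hf)
  have k4 : ∀ W : ℤ, (0 : ℝ) < W → (1 : ℝ) ≤ W := fun W hW => by
    have : 0 < W := by exact_mod_cast hW
    exact_mod_cast this
  have k3 := k2 (k4 _ k1)
  exact_mod_cast k3

end Pool.Agent.MP_2339ce_nt.Q2
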