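import Pool.Agent.MP_2339ce_nt.Q2.HW
import Pool.Agent.MP_2339ce_nt.Q2.SpecH2

/-! `D(-N)`-quintuples, block HP: the half windows of the forms with four nodes. -/

set_option autoImplicit false

namespace Pool.Agent.MP_2339ce_nt.Q2

open DQ TNQ

namespace HWQ

variable {N a b c d e : ℤ}

theorem rat {p q : ℤ} (u v : ℤ) (m : ℕ) (q0 : 0 < q) (u0 : 0 < u) (v0 : 0 < v) (p0 : 0 < p)
    (h : v ^ 100 ≤ 2 ^ m * u ^ 100) (k : 100 * lg p + m ≤ 100 * lg q) : v * p ≤ u * q := by
  by_contra x
  have k1 : lg (u * q) < lg (v * p) :=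
    Real.logb_lt_logb one_lt_two (by positivity) (by exact_mod_cast not_le.1 x)
  have k2 := lgm (by positivity) h
  rw [lg_mul v0 p0, lg_mul u0 q0] at k1
  rw [lg_mul (by positivity) (by positivity), lg_pow, lg_pow, lg_pow, lg_two] at k2
  push_cast at k2
  linarith

theorem core (h1 : S_Q122) (n1 : 1 ≤ N) (H : Qt (-N) a b c d e) (big : 10000 * N ≤ d)
    (hc : 100 * c ≤ d) (K : ℤ) (m : ℕ) {M : ℤ} (K0 : 0 < K) (M0 : 0 < M) (hK : K ^ 100 ≤ 2 ^ m)
    (h : 75 * ((b - a) * (c - b) ^ 2 * (c - a) + (c - a) * b ^ 3 + (b - a) * c ^ 3) ≤ K * M)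
    {ls : List Af} (l : Af) (hl : l ∈ ls) (e1 : 6 * lg d + m / 100 - 5 * lg N + lg a + 2 * lg b +
      2 * lg c + lg M - lg (b - a) - 2 * lg (c - b) - lg (c - a) ≤ l.v N a b c d) :
    (∃ l ∈ ls, lg e ≤ l.v N a b c d) ∨ ∃ h ∈ [q122], h.v N a b c d ≤ lg e := by
  have a0 := H.a0; have ab := H.ab; have bc := H.bc; have cd := H.cd; have de := H.de
  have N0 : 0 < N := by omega
  have b0 : 0 < b := by omega
  have c0 : 0 < c := by omega
  have d0 : 0 < d := by omega
  have e0 : 0 < e := by omega
  have p1 : 0 < b - a := by omega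
  have p2 : 0 < c - a := by omega
  have p3 : 0 < c - b := by omega
  have m1 := lg_le 100 m K0 hK
  have m2 := le_lg (a := 5300) 100 1237 (by decide +kernel)
  refine (h1 N a b c d e (cf H n1 big 0) (cf H n1 big 1) hc).imp (fun x => ⟨l, hl, ?_⟩)
    fun x => ⟨_, List.mem_cons_self, ?_⟩
  · have y := lgm (b := a * b ^ 2 * c ^ 2 * d ^ 6 * (K * M)) (by positivity)
      (x.trans (le_of_eq_of_le (by ring)
        (mul_le_mul_of_nonneg_left h (by positivity : 0 ≤ a * b ^ 2 * c ^ 2 * d ^ 6))))
    simp (disch := positivity) only [lg_mul, lg_pow] at y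
    push_cast at y m1; linarith
  · have y := lgm (by positivity) x
    simp (disch := positivity) only [lg_mul, lg_pow] at y
    simp only [q122, Af.v]; push_cast at y m2 ⊢; linarith

end HWQ

open HWQ in
theorem wqb (h1 : S_Q122) (h2 : S_Q221) : S_WQ := by
  intro j N a b c d e n1 _ H big hc sd
  have a0 := H.a0; have ab := H.ab; have bc := H.bc; have cd := H.cd; have de := H.de
  have N0 : 0 < N := by omega
  have b0 : 0 < b := by omega
  have c0 : 0 < c := by omega
  have d0 : 0 < d := by omega
  have e0 : 0 < e := by omega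
  have p1 : 0 < b - a := by omega
  have p2 : 0 < c - a := by omega
  have p3 : 0 < c - b := by omega
  have eX : lg ((b - a) * (c - b) ^ 2 * (c - a)) = lg (b - a) + 2 * lg (c - b) + lg (c - a) := by
    simp (disch := positivity) only [lg_mul, lg_pow]; push_cast; rfl
  have X0 : 0 < (b - a) * (c - b) ^ 2 * (c - a) := by positivity
  have two : ∀ u v : ℤ, ∀ m : ℕ, 0 < u → 0 < v → v ^ 100 ≤ 2 ^ m * u ^ 100 →
      (0 ≤ (pairAf 0 0 (-m) 0 (-1) 1 0).v N a b c d → v * a ≤ u * b) ∧
      (0 ≤ (pairAf 1 0 (-m) 0 (-1) 1 0).v N a b c d → v * b ≤ u * c) := fun u v m u0 v0 h =>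
    ⟨fun k => rat u v m b0 u0 v0 a0 h (by
      simp only [pairAf, Af.v] at k; push_cast at k; linarith),
    fun k => rat u v m c0 u0 v0 b0 h (by
      simp only [pairAf, Af.v] at k; push_cast at k; linarith)⟩
  have cube : ∀ r s t : ℤ, 0 ≤ r → 0 ≤ s → ∀ x y z : ℤ, 0 ≤ x → r * x ≤ y → s * x ≤ t * z →
      r ^ 2 * s * x ^ 3 ≤ t * (y ^ 2 * z) := fun r s t r0 s0 x y z x0 k1 k2 =>
    le_of_eq_of_le (by ring) ((mul_le_mul (pow_le_pow_left₀ (by positivity) k1 2) k2
      (by positivity) (by positivity)).trans_eq (by ring))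
  rcases j with _ | _ | _ | _ | j
  · rcases le_total ((c - a) * b ^ 3) ((b - a) * (c - b) ^ 2 * (c - a)) with k1 | k1 <;>
      rcases le_total ((b - a) * c ^ 3) ((b - a) * (c - b) ^ 2 * (c - a)) with k2 | k2 <;>
      rcases le_total ((b - a) * c ^ 3) ((c - a) * b ^ 3) with k3 | k3 <;> first
      | exact core h1 n1 H big hc 225 782 (by norm_num) X0 (by decide +kernel) (by omega) _
          List.mem_cons_self (by rw [eX]; simp only [Af.v]; push_cast; linarith)
      | exact core h1 n1 H big hc 225 782 (M := (c - a) * b ^ 3) (by norm_num) (by positivity)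
          (by decide +kernel) (by omega) _ (List.mem_cons_of_mem _ List.mem_cons_self) (by
            rw [lg_mul p2 (by positivity), lg_pow]; simp only [Af.v]; push_cast; linarith)
      | exact core h1 n1 H big hc 225 782 (M := (b - a) * c ^ 3) (by norm_num) (by positivity)
          (by decide +kernel) (by omega) _
          (List.mem_cons_of_mem _ (List.mem_cons_of_mem _ List.mem_cons_self)) (by
            rw [lg_mul p1 (by positivity), lg_pow]; simp only [Af.v]; push_cast; linarith)
  · obtain ⟨k1, k2⟩ := two 1 4 200 one_pos (by norm_num) (by decide +kernel)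
    have k1 := k1 (sd _ List.mem_cons_self)
    have k2 := k2 (sd _ (List.mem_cons_of_mem _ List.mem_cons_self))
    have k3 := mul_le_mul_of_nonneg_left (cube 3 3 4 (by norm_num) (by norm_num) b (c - b) (b - a)
      b0.le (by omega) (by omega)) p2.le
    have k4 := mul_le_mul_of_nonneg_left (cube 3 15 16 (by norm_num) (by norm_num) c (4 * (c - b))
      (c - a) c0.le (by omega) (by omega)) p1.le
    exact core h1 n1 H big hc 229 785 (by norm_num) X0 (by decide +kernel) (by linarith) _
      List.mem_cons_self (by rw [eX]; simp only [Af.v]; push_cast; linarith)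
  · obtain ⟨k1, k2⟩ := two 10 19 93 (by norm_num) (by norm_num) (by decide +kernel)
    have k1 := k1 (sd _ List.mem_cons_self)
    have k2 := k2 (sd _ (List.mem_cons_of_mem _ List.mem_cons_self))
    have k3 := mul_le_mul_of_nonneg_left (cube 9 9 19 (by norm_num) (by norm_num) b (10 * (c - b))
      (b - a) b0.le (by omega) (by omega)) p2.le
    have k4 := mul_le_mul_of_nonneg_left (cube 9 261 361 (by norm_num) (by norm_num) c
      (19 * (c - b)) (c - a) c0.le (by omega) (by omega)) p1.le
    exact core h1 n1 H big hc 735 953 (by norm_num) X0 (by decide +kernel) (by linarith) _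
      List.mem_cons_self (by rw [eX]; simp only [Af.v]; push_cast; linarith)
  · have k1 := (two 1 4 200 one_pos (by norm_num) (by decide +kernel)).1 (sd _ List.mem_cons_self)
    have k2 := mul_le_mul_of_nonneg_left (pow_le_pow_left₀ p3.le (by omega : c - b ≤ c) 2)
      (mul_pos p1 p2).le
    have k3 := mul_le_mul_of_nonneg_left (mul_le_mul (pow_le_pow_left₀ b0.le bc.le 2)
      (by omega : 3 * b ≤ 4 * (b - a)) (by positivity) (by positivity)) p2.le
    have k4 := mul_le_mul_of_nonneg_left (by omega : 3 * c ≤ 4 * (c - a))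
      (by positivity : 0 ≤ (b - a) * c ^ 2)
    exact core h1 n1 H big hc 275 811 (M := (b - a) * (c - a) * c ^ 2) (by norm_num) (by positivity)
      (by decide +kernel) (by linarith) _ List.mem_cons_self (by
        rw [lg_mul (by positivity) (by positivity), lg_mul p1 p2, lg_pow]
        simp only [Af.v]; push_cast; linarith)
  · have m1 := lg_le (a := 410) 100 870 (by norm_num) (by decide +kernel)
    have m2 := lg_le (a := 75) 100 623 (by norm_num) (by decide +kernel)
    have m3 := le_lg (a := 4300) 100 1206 (by decide +kernel)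
    rcases h2 N a b c d e (cf H n1 big 0) (cf H n1 big 1) hc with x | x | x | x <;>
      have y := lgm (by positivity) x <;>
      simp (disch := positivity) only [lg_mul, lg_pow] at y
    · refine Or.inl ⟨_, List.mem_cons_of_mem _ (List.mem_cons_of_mem _ List.mem_cons_self), ?_⟩
      simp only [Af.v]; push_cast at y m2 ⊢; linarith
    · refine Or.inl ⟨_, List.mem_cons_self, ?_⟩
      simp only [Af.v]; push_cast at y m1 ⊢; linarith
    · refine Or.inl ⟨_, List.mem_cons_of_mem _ List.mem_cons_self, ?_⟩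
      simp only [Af.v]; push_cast at y m1 ⊢; linarith
    · refine Or.inr ⟨_, List.mem_cons_self, ?_⟩
      simp only [Af.v]; push_cast at y m3 ⊢; linarith

end Pool.Agent.MP_2339ce_nt.Q2
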