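import Pool.Agent.MP_2339ce_nt.Q2.HA1
import Pool.Agent.MP_2339ce_nt.Q2.HI7
import Pool.Agent.MP_2339ce_nt.Q2.HQ122
import Pool.Agent.MP_2339ce_nt.Q2.HQ221
import Pool.Agent.MP_2339ce_nt.Q2.HWQ

/-! `D(-N)`-quintuples, block HP: tables of valid windows. -/

set_option autoImplicit false

namespace Pool.Agent.MP_2339ce_nt.Q2

deriving instance DecidableEq for Af, Wn

theorem allWq : S_WQ := wqb (q122b i7b) (q221b i7b)

/-- the description of a window -/
inductive El where
  | old (pr j : ℕ)
  | q (j : ℕ)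
  | fm (f : Fm2)

def El.wn : El → Wn
  | .old pr j => Q2.wn (pr, j)
  | .q j => wq j
  | .fm f => f.wn

noncomputable def El.good : El → Bool
  | .fm f => decide f.Good
  | _ => true

theorem El.ok (x : El) (h : x.good = true) : x.wn.Ok := by
  cases x with
  | old pr j => exact allWn _
  | q j => exact allWq j
  | fm f => exact allFm f (of_decide_eq_true h)

theorem tab_ok {l : List Wn} (t : List El) (h1 : t.all El.good = true) (h2 : l = t.map El.wn) :
    ∀ w ∈ l, w.Ok := by
  subst h2
  intro w h
  obtain ⟨x, y, rfl⟩ := List.mem_map.1 h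
  exact x.ok (List.all_eq_true.1 h1 x y)

end Pool.Agent.MP_2339ce_nt.Q2
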