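import Mathlib.RingTheory.PowerSeries.WellKnown
import Pool.Agent.MP_2339ce_nt.DQ.NINTN
import Pool.Agent.MP_2339ce_nt.DQ.NWINN

/-! `D(-N)`-quintuples, block HP: common factors of the coefficients of the forms. -/

set_option autoImplicit false

noncomputable section

namespace Pool.Agent.MP_2339ce_nt.Q2

open DQ DQ.INT DQ.NINTN PowerSeries Real

def nm (ρ h : ℕ) : ℕ := Nat.rec 1 (fun i x => x * (2 * ρ + 1 - 2 * i)) h

def dn (h : ℕ) : ℕ := Nat.rec 1 (fun i x => x * (2 * i + 2)) h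

def bn (l i : ℕ) : ℕ := Nat.rec 1 (fun j x => x * (l + j + 1) / (j + 1)) i

def allLe (n : ℕ) (f : ℕ → Bool) : Bool := Nat.rec (f 0) (fun j x => f (j + 1) && x) n

def ct1 (z y l m n : ℕ) : Bool := allLe n fun i => Nat.beq (z * bn l i * bn m (n - i) % y) 0

def Ct (ρ k l m g : ℕ) : Prop :=
  allLe k (fun h => ct1 (4 ^ ρ * nm ρ h) (dn h * g) l m (k - h)) = true

instance (ρ k l m g : ℕ) : Decidable (Ct ρ k l m g) := by unfold Ct; infer_instance

/-- `g` divides all coefficients of the form -/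
def Cont (ρ kp kq g : ℕ) : Prop := 0 < g ∧ Ct ρ ρ (kq - 1) (kp - 1) g ∧
  Ct ρ (kq - 1) ρ (kp - 1) g ∧ Ct ρ (kp - 1) ρ (kq - 1) g

instance (ρ kp kq g : ℕ) : Decidable (Cont ρ kp kq g) := by unfold Cont; infer_instance

namespace HG

theorem allLe_le {n : ℕ} {f : ℕ → Bool} (h : allLe n f = true) : ∀ i ≤ n, f i = true := by
  induction n with
  | zero => intro i hi; rw [Nat.le_zero.1 hi]; exact h
  | succ n ih =>
    have h' : (f (n + 1) && allLe n f) = true := h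
    rw [Bool.and_eq_true] at h'
    intro i hi
    rcases Nat.of_le_succ hi with k | k
    · exact ih h'.2 i k
    · rw [k]; exact h'.1

theorem bn_eq (l i : ℕ) : bn l i = (l + i).choose l := by
  induction i with
  | zero => simp [bn]
  | succ i ih =>
    change bn l i * (l + i + 1) / (i + 1) = _
    rw [ih, Nat.choose_mul_succ_eq, show l + i + 1 - l = i + 1 by omega,
      Nat.mul_div_cancel _ (Nat.succ_pos i), add_assoc]

theorem dn_pos (h : ℕ) : 0 < dn h := by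
  induction h with
  | zero => exact one_pos
  | succ h ih => exact Nat.mul_pos ih (Nat.succ_pos _)

theorem cq_eq (ρ h : ℕ) (hh : h ≤ ρ) : Ring.choose ((ρ : ℝ) + 1 / 2) h = nm ρ h / dn h := by
  induction h with
  | zero => simp [nm, dn]
  | succ h ih =>
    have k := INT.choose_step ((ρ : ℝ) + 1 / 2) h
    have p : (0 : ℝ) < dn h := by exact_mod_cast dn_pos h
    change _ = ((nm ρ h * (2 * ρ + 1 - 2 * h) : ℕ) : ℝ) / ((dn h * (2 * h + 2) : ℕ) : ℝ)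
    rw [ih (by omega)] at k
    push_cast [Nat.cast_sub (show 2 * h ≤ 2 * ρ + 1 by omega)]
    rw [eq_div_iff (by positivity)]
    generalize Ring.choose ((ρ : ℝ) + 1 / 2) (h + 1) = y at k
    field_simp at k
    linarith

theorem civ {c w : ℝ} (hc : c ≠ 0) (u : ℤ) (hw : w = u * c) (l n : ℕ) :
    coeff n ((C c * iv c) ^ (l + 1)) * w ^ n = (bn l n : ℕ) * (-(u : ℝ)) ^ n := by
  have e : C c * iv c = rescale (-c⁻¹) (PowerSeries.mk 1) := by
    ext m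
    rw [coeff_C_mul, iv_eq hc, coeff_rescale, coeff_mk, coeff_mk, Pi.one_apply]
    field_simp
  rw [e, ← map_pow, mk_one_pow_eq_mk_choose_add, coeff_rescale, coeff_mk, bn_eq, hw,
    mul_right_comm, ← mul_pow, mul_comm]
  congr 2
  field_simp

theorem gen2 (ρ k l m g : ℕ) (hk : k ≤ ρ) (g0 : 0 < g) (H : Ct ρ k l m g) {r d : ℤ} (a m0 u1 u2 : ℤ) (hr : 0 < r)
    (hd : 0 < d) {w β γ : ℝ} (h1 : (a : ℝ) / r - β ≠ 0) (h2 : (a : ℝ) / r - γ ≠ 0)
    (hw : w = m0 / r) (hw1 : w = u1 * (a / r - β)) (hw2 : w = u2 * (a / r - γ)) :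
    4 ^ ρ / g * (((r : ℝ) * d) ^ ρ * (a / r - β) ^ (l + 1) * (a / r - γ) ^ (m + 1) *
      rs ρ (1 / d) (a / r) β γ (k + 1) (l + 1) (m + 1) * w ^ k) ∈ ZR := by
  have r0 : (r : ℝ) ≠ 0 := by exact_mod_cast hr.ne'
  have d0 : (d : ℝ) ≠ 0 := by exact_mod_cast hd.ne'
  have e : C (((r : ℝ) * d) ^ ρ) * gs ρ (1 / d) (a / r) *
      ((C ((a : ℝ) / r - β) * iv (a / r - β)) ^ (l + 1) *
        (C ((a : ℝ) / r - γ) * iv (a / r - γ)) ^ (m + 1)) =
      C (((r : ℝ) * d) ^ ρ * (a / r - β) ^ (l + 1) * (a / r - γ) ^ (m + 1)) *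
        (gs ρ (1 / d) (a / r) * iv (a / r - β) ^ (l + 1) * iv (a / r - γ) ^ (m + 1)) := by
    rw [map_mul, map_mul, map_pow C ((a : ℝ) / r - β), map_pow C ((a : ℝ) / r - γ), mul_pow, mul_pow]
    ring
  rw [rs, Nat.add_sub_cancel, ← coeff_C_mul, ← e, coeff_mul, Finset.sum_mul, Finset.mul_sum]
  refine sum_mem fun x hx => ?_
  rw [coeff_mul _ (_ ^ (l + 1)), Finset.mul_sum, Finset.sum_mul, Finset.mul_sum]
  refine sum_mem fun y hy => ?_
  obtain ⟨h, n⟩ := x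
  obtain ⟨i, j⟩ := y
  obtain rfl : h + n = k := Finset.mem_antidiagonal.1 hx
  obtain rfl : i + j = n := Finset.mem_antidiagonal.1 hy
  obtain ⟨t, rfl⟩ : ∃ t, ρ = h + t := Nat.exists_eq_add_of_le (by omega)
  have z := Nat.eq_of_beq_eq_true (allLe_le (allLe_le H h (by omega)) i (by omega))
  rw [show h + (i + j) - h - i = j by omega] at z
  obtain ⟨s, z0⟩ := Nat.dvd_of_mod_eq_zero z
  have z1 := congrArg (Nat.cast : ℕ → ℝ) z0
  have z2 : (0 : ℝ) < dn h := by exact_mod_cast dn_pos h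
  have z3 : (0 : ℝ) < g := by exact_mod_cast g0
  have c1 := civ h1 u1 hw1 l i
  have c2 := civ h2 u2 hw2 m j
  dsimp only
  generalize coeff i ((C ((a : ℝ) / r - β) * iv (a / r - β)) ^ (l + 1)) = X at c1
  generalize coeff j ((C ((a : ℝ) / r - γ) * iv (a / r - γ)) ^ (m + 1)) = Y at c2
  have c3 : coeff h (C (((r : ℝ) * d) ^ (h + t)) * gs (h + t) (1 / d) (a / r)) * w ^ h =
      nm (h + t) h / dn h * ((r * d + a) ^ t * m0 ^ h) := by
    have e1 : ((h + t : ℕ) : ℤ) - h = (t : ℕ) := by push_cast; ring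
    have e3 : (1 + (a : ℝ) / r * (1 / d)) = (r * d + a) / (r * d) := by field_simp
    rw [coeff_C_mul, gs, coeff_mk, hw, e1, zpow_natCast, e3, cq_eq _ _ (by omega)]
    simp only [div_pow, mul_pow, pow_add, one_pow]
    field_simp
  generalize coeff h (C (((r : ℝ) * d) ^ (h + t)) * gs (h + t) (1 / d) (a / r)) = Z at c3
  have : (4 : ℝ) ^ (h + t) / g * (Z * (X * Y) * w ^ (h + (i + j))) =
      s * (((r * d + a) ^ t * m0 ^ h) * ((-(u1 : ℝ)) ^ i * (-(u2 : ℝ)) ^ j)) := by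
    rw [show Z * (X * Y) * w ^ (h + (i + j)) = Z * w ^ h * (X * w ^ i * (Y * w ^ j)) by ring,
      c1, c2, c3]
    push_cast at z1
    rw [show (s : ℝ) = 4 ^ (h + t) * nm (h + t) h * bn l i * bn m j / (dn h * g) by
      rw [z1]; field_simp]
    ring
  rw [this]
  exact mul_mem (natCast_mem _ s) (mul_mem (mul_mem (pow_mem (add_mem (mul_mem (int_mem r) (int_mem d))
    (int_mem a)) _) (pow_mem (int_mem m0) _)) (mul_mem (pow_mem (neg_mem (int_mem u1)) _)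
    (pow_mem (neg_mem (int_mem u2)) _)))

theorem side (ρ a b g : ℕ) (N p q d : ℤ) (h3 : b ≤ ρ) (g0 : 0 < g) (H : Ct ρ b ρ a g)
    (hN : 0 < N) (hp : 0 < p) (hq : 0 < q) (hd : 0 < d) (h0 : q ≠ p) :
    scN ρ (a + 1) (b + 1) N p q d / g *
      rs ρ (1 / d) (-N / q) 0 (-N / p) (b + 1) (ρ + 1) (a + 1) / q ∈ ZR := by
  obtain ⟨j, rfl⟩ := Nat.exists_eq_add_of_le h3
  have p0 : (p : ℝ) ≠ 0 := by exact_mod_cast hp.ne'
  have q0 : (q : ℝ) ≠ 0 := by exact_mod_cast hq.ne'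
  have n0 : (N : ℝ) ≠ 0 := by exact_mod_cast hN.ne'
  have D0 : (q : ℝ) - p ≠ 0 := by exact_mod_cast sub_ne_zero.2 h0
  have e1 : ((-N : ℤ) : ℝ) / q - -N / p = N * (q - p) / (p * q) := by push_cast; field_simp; ring
  have h := gen2 (b + j) b (b + j) a g (Nat.le_add_right _ _) g0 H (-N) (-N * (q - p))
    (q - p) (-p) hq hd (w := -1 * (N * (q - p) / q)) (β := 0) (γ := -N / p)
    (by rw [sub_zero, Int.cast_neg]; exact div_ne_zero (neg_ne_zero.2 n0) q0)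
    (by rw [e1]; exact div_ne_zero (mul_ne_zero n0 D0) (mul_ne_zero p0 q0))
    (by push_cast; ring) (by push_cast; ring) (by rw [e1]; push_cast; field_simp)
  rw [e1, sub_zero, Int.cast_neg] at h
  generalize rs (b + j) (1 / d) (-N / q) 0 (-N / p) (b + 1) (b + j + 1) (a + 1) = R at h ⊢
  have h' := mul_mem h (mul_mem (sg_mem (j + 1)) (pow_mem (int_mem q) a))
  have e7 : ∀ n : ℕ, ((-1 : ℝ)) ^ n * (-1) ^ n = 1 := fun n => by rw [← mul_pow]; simp
  have e8 := e7 b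
  have e9 := e7 j
  convert h' using 1
  rw [scN, show a + 1 + (b + 1) - 1 = a + b + 1 by omega,
    show (-N : ℝ) / q = -1 * (N / q) by ring]
  generalize (q : ℝ) - p = D
  simp only [div_pow, mul_pow, pow_add, pow_one]
  generalize ((-1 : ℝ)) ^ b = x at e8 ⊢
  generalize ((-1 : ℝ)) ^ j = y at e9 ⊢
  refine (show ∀ v : ℝ, v = v * (x * x) * (y * y) from fun v => by
    rw [e8, e9, mul_one, mul_one]) _ |>.trans ?_
  field_simp

theorem zero (ρ a b g : ℕ) (N p q d : ℤ) (g0 : 0 < g) (H : Ct ρ ρ b a g) (hN : 0 < N) (hp : 0 < p)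
    (hq : 0 < q) (hd : 0 < d) : scN ρ (a + 1) (b + 1) N p q d / g *
      rs ρ (1 / d) 0 (-N / q) (-N / p) (ρ + 1) (b + 1) (a + 1) ∈ ZR := by
  have p0 : (p : ℝ) ≠ 0 := by exact_mod_cast hp.ne'
  have q0 : (q : ℝ) ≠ 0 := by exact_mod_cast hq.ne'
  have n0 : (N : ℝ) ≠ 0 := by exact_mod_cast hN.ne'
  have z : ∀ x : ℝ, ((0 : ℤ) : ℝ) / ((1 : ℤ) : ℝ) - -N / x = N / x := fun x => by simp [neg_div]
  have h := gen2 ρ ρ b a g le_rfl g0 H 0 N q p one_pos hd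
    (w := N) (β := -N / q) (γ := -N / p)
    (by rw [z]; exact div_ne_zero n0 q0) (by rw [z]; exact div_ne_zero n0 p0)
    (by simp) (by rw [z]; field_simp) (by rw [z]; field_simp)
  rw [z, z, Int.cast_zero, Int.cast_one, zero_div, one_mul] at h
  generalize rs ρ (1 / d) 0 (-N / q) (-N / p) (ρ + 1) (b + 1) (a + 1) = R at h ⊢
  convert mul_mem h (pow_mem (sub_mem (int_mem q) (int_mem p)) (a + 1 + (b + 1) - 1)) using 1
  rw [scN]
  generalize ((q : ℝ) - p) ^ (a + 1 + (b + 1) - 1) = E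
  simp only [div_pow, pow_add]
  field_simp

end HG

theorem int_g {ρ kp kq g : ℕ} {N p q d e : ℤ} (a : Adm ρ kp kq) (H : Cont ρ kp kq g)
    (c : CfN N p q d e) : ∃ i : ℤ,
      √((d : ℝ) * e) * (scN ρ kp kq N p q d / g * ww ρ kp kq p q d e (-N) (-N) (-N)) = i := by
  have q0 : 0 < q := c.p0.trans c.pq
  have hd : 0 < d := q0.trans c.qd
  obtain ⟨kp, rfl⟩ := Nat.exists_eq_add_of_le' a.p1
  obtain ⟨kq, rfl⟩ := Nat.exists_eq_add_of_le' a.q1
  obtain ⟨i1, e1⟩ := HG.zero ρ kp kq g N p q d H.1 H.2.1 c.n1 c.p0 q0 hd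
  obtain ⟨i2, e2⟩ := HG.side ρ kp kq g N p q d (by have := a.q2; omega) H.1 H.2.2.1 c.n1 c.p0 q0
    hd c.pq.ne'
  obtain ⟨i3, e3⟩ := mul_mem (sg_mem (kp + 1 + (kq + 1) - 1)) (HG.side ρ kq kp g N q p d
    (by have := a.p2; omega) H.1 H.2.2.2 c.n1 q0 c.p0 hd c.pq.ne)
  rw [← mul_div_assoc, ← mul_assoc, ← mul_div_assoc, ← swap] at e3
  simp only [eq_intCast] at e1 e2 e3
  have p1 : (0 : ℝ) < p := by exact_mod_cast c.p0
  have q1 : (0 : ℝ) < q := by exact_mod_cast q0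
  have d1 : (0 : ℝ) < d := by exact_mod_cast hd
  have e0 : (0 : ℝ) < e := by exact_mod_cast hd.trans_le c.de
  obtain ⟨z0, f0⟩ := DICH.sq_int c.sq
  obtain ⟨z1, f1⟩ := DICH.sq_int c.se
  obtain ⟨z2, f2⟩ := DICH.sq_int c.sd
  obtain ⟨z3, f3⟩ := DICH.sq_int c.pe
  obtain ⟨z4, f4⟩ := DICH.sq_int c.pd
  push_cast at f0 f1 f2 f3 f4
  have g0 := DICH.one (n := -N) (mul_pos d1 e0)
  have g1 := DICH.two (n := -N) q1 d1 e0
  have g2 := DICH.two (n := -N) p1 d1 e0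
  rw [f0] at g0
  rw [f1, f2] at g1
  rw [f3, f4] at g2
  refine ⟨z0 * i1 + z1 * z2 * i2 + z3 * z4 * i3, ?_⟩
  push_cast
  rw [e1, e2, e3, ← g0, ww, SS, zero_mul, add_zero, sqrt_one]
  generalize scN ρ (kp + 1) (kq + 1) N p q d / g = S
  linear_combination (S * rs ρ (1 / d) (-N / q) 0 (-N / p) (kq + 1) (ρ + 1) (kp + 1)) * g1 +
    (S * rs ρ (1 / d) (-N / p) 0 (-N / q) (kp + 1) (ρ + 1) (kq + 1)) * g2

end Pool.Agent.MP_2339ce_nt.Q2

end
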