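import Pool.Agent.MP_2339ce_nt.Q2.HFM
import Pool.Agent.MP_2339ce_nt.Q2.HG

/-! `D(-N)`-quintuples, block HP: windows of forms divided by their content. -/

set_option autoImplicit false

noncomputable section

namespace Pool.Agent.MP_2339ce_nt.Q2

open DQ TNQ Real

namespace Fm2

variable (f : Fm2)

def Base3 (g : ℕ) : Prop :=
  (1 ≤ f.kp ∧ f.kp ≤ f.ρ + 1 ∧ 2 ≤ f.kq ∧ f.kq ≤ f.ρ + 1 ∧ f.ρ + 1 ≤ f.kp + f.kq) ∧
  (0 < f.th0 ∧ 0 < f.thp ∧ 0 < f.thm ∧
    f.thm + (bif f.o0 then 0 else f.th0) + (bif f.op then 0 else f.thp) ≤ 1000 ∧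
    (bif f.o0 then f.th0 else 0) + (bif f.op then f.thp else 0) ≤ 1000) ∧
  (f.et / 2 * (4 ^ f.ρ / g) * (if f.v0 = 0 then f.c0 else f.c0b) * 1000 / f.th0) ^ 20 ≤
    2 ^ f.m0 ∧
  (f.et / 2 * (4 ^ f.ρ / g) * (if f.vp = 0 then f.cp else f.cpb) * 1000 / f.thp) ^ 20 ≤
    2 ^ f.mp ∧
  (f.et * (4 ^ f.ρ / g) * f.bq * 1000 / f.thm) ^ 20 ≤ 2 ^ f.mm

def Good3 (g : ℕ) : Prop := (f.Base3 g ∧ Cont f.ρ f.kp f.kq g) ∧
  (f.nz = 0 → f.o0 = false ∧ f.op = false) ∧ (f.nz = 1 → f.N1) ∧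
  (f.nz = 2 → f.N2) ∧ (f.nz = 3 → f.N3) ∧ (f.nz = 4 → f.N4) ∧ (f.nz = 5 → f.N5) ∧
  (f.nz = 6 → f.N6) ∧ (7 ≤ f.nz → f.kp = f.ρ + 1 ∧ f.ρ ≤ 10)

instance (g : ℕ) : Decidable (f.Base3 g) := by unfold Base3; infer_instance
instance (g : ℕ) : Decidable (f.Good3 g) := by unfold Good3; infer_instance

end Fm2

open HFM Fm2 in
theorem fm3 (hA : S_TA) (hL : S_TL) (hU : S_TU) (g : ℕ) : ∀ f : Fm2, f.Good3 g → f.wn.Ok := by
  rintro ⟨pr, ρ, kp, kq, nz, v0, vp, lam, th0, thp, thm, ph0, php, tau, m0, mp, mm, n0, n1⟩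
    ⟨⟨⟨⟨k1, k2, k3, k4, k5⟩, ⟨t1, t2, t3, w1, w2⟩, b0, bp, bm⟩, ct⟩,
      g0, g1, g2, g3, g4, g5, g6, g7⟩
    N a b c d e N1 _ H big hc sd
  obtain ⟨i, rfl⟩ : ∃ i, kp = i + 1 := ⟨kp - 1, by dsimp only at k1; omega⟩
  obtain ⟨j, rfl⟩ : ∃ j, kq = j + 2 := ⟨kq - 2, by dsimp only at k3; omega⟩
  have C := cf H N1 big pr
  have hq : 100 * qq pr b c ≤ d := by
    have := H.bc
    rcases pr with _ | pr <;> simp only [qq] <;> omega
  have pv := pair_v (N := N) (a := a) (b := b) (c := c) (d := d) pr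
  set f : Fm2 := ⟨pr, ρ, i + 1, j + 2, nz, v0, vp, lam, th0, thp, thm, ph0, php, tau, m0, mp, mm,
    n0, n1⟩ with hf
  have F : (f.ρ = ρ ∧ f.kp = i + 1 ∧ f.kq = j + 2) ∧ (f.m0 = m0 ∧ f.mp = mp ∧ f.mm = mm ∧
      f.n0 = n0 ∧ f.n1 = n1) ∧ (f.th0 = th0 ∧ f.thp = thp ∧ f.thm = thm ∧ f.ph0 = ph0 ∧
      f.php = php) ∧ f.tau = tau :=
    ⟨⟨rfl, rfl, rfl⟩, ⟨rfl, rfl, rfl, rfl, rfl⟩, ⟨rfl, rfl, rfl, rfl, rfl⟩, rfl⟩
  simp only [F] at b0 bp bm
  generalize pp pr a b = p, qq pr b c = q at C hq pv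
  have N0 : (0 : ℝ) < N := by exact_mod_cast N1
  have p1 : (1 : ℝ) ≤ p := by exact_mod_cast C.p0
  have pq : (p : ℝ) < q := by exact_mod_cast C.pq
  have qd : (q : ℝ) < d := by exact_mod_cast C.qd
  have de : (d : ℝ) ≤ e := by exact_mod_cast C.de
  have p0 : (0 : ℝ) < p := by linarith
  have q0 : (0 : ℝ) < q := by linarith
  have d0 : (0 : ℝ) < d := by linarith
  have e0 : (0 : ℝ) < e := by linarith
  have D0 : (0 : ℝ) < q - p := by linarith
  have ad : Adm ρ (i + 1) (j + 2) := ⟨k1, k2, by omega, k4⟩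
  have R : Rg ρ (i + 1) (j + 2) N p q d e :=
    ⟨ad, k3, k5, N0, p1, pq, by exact_mod_cast hq, de, by exact_mod_cast big⟩
  obtain ⟨a1, a2, a3, a4⟩ := hA _ _ _ _ _ _ _ _ R
  obtain ⟨a5, a6⟩ := hL _ _ _ _ _ _ _ _ R
  obtain ⟨a7, a8⟩ := hU _ _ _ _ _ _ _ _ R
  have sp := split ρ (i + 1) (j + 2) N p q d e
  obtain ⟨z, hz⟩ := int_g ad ct C
  have g0' : (0 : ℝ) < g := by exact_mod_cast ct.1
  have eE : eta (ρ + (i + 1) + (j + 2)) = (f.et : ℝ) := by rw [eta, et]; push_cast; rfl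
  have eB : be ρ (ρ + (i + 1) + (j + 2)) = (f.bq : ℝ) := be3 _ _
  have c1 : (((ρ + (j + 2) - 1).choose ρ : ℕ) : ℝ) = f.c0 := by rw [c0]; push_cast; rfl
  have c2 : (((ρ + (i + 1) + (j + 2) - 1).choose ρ : ℕ) : ℝ) = f.c0b := by rw [c0b]; push_cast; rfl
  have c3 : (((i + 1 + (j + 2) - 2).choose (i + 1 - 1) : ℕ) : ℝ) = f.cp := by
    rw [cp]; push_cast; rfl
  have c4 : (((ρ + (i + 1) + (j + 2) - 1).choose (i + 1 - 1) : ℕ) : ℝ) = f.cpb := by
    rw [cpb]; push_cast; rfl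
  have E0 : (0 : ℝ) < f.et := by rw [← eE, eta]; positivity
  have C1 : (0 : ℝ) < f.c0 := c1 ▸ Nat.cast_pos.2 (Nat.choose_pos (by omega))
  have C3 : (0 : ℝ) < f.cp := c3 ▸ Nat.cast_pos.2 (Nat.choose_pos (by omega))
  have C4 : (0 : ℝ) < f.cpb := c4 ▸ Nat.cast_pos.2 (Nat.choose_pos (by omega))
  have B0 : (0 : ℝ) < f.bq := by exact_mod_cast bq_pos _ _
  rw [eE] at a1 a2 a3 a4 a5 a6 a7 a8
  rw [eB] at a1 a2
  rw [c1] at a3 a5
  rw [c3] at a4 a6
  rw [c2] at a7
  rw [c4] at a8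
  rw [show ρ + (j + 2) - 1 = ρ + j + 1 by omega] at a3 a5 a7
  rw [show i + 1 + (j + 2) - 2 = i + j + 1 by omega] at a4 a6 a8
  rw [scN, show i + 1 + (j + 2) - 1 = i + j + 2 by omega] at hz
  have lδ : lg (q - p) = logb 2 ((q : ℝ) - p) := by rw [lg]; push_cast; rfl
  have lu : logb 2 ((q : ℝ) / N) = lg q - lg N := logb_div q0.ne' N0.ne'
  have lv : logb 2 ((p : ℝ) / N) = lg p - lg N := logb_div p0.ne' N0.ne'
  have lw : logb 2 ((p : ℝ) * q / (N * (q - p))) = lg p + lg q - lg N - lg (q - p) := by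
    rw [logb_div (by positivity) (by positivity), logb_mul p0.ne' q0.ne', logb_mul N0.ne' D0.ne',
      lδ, lg, lg, lg]
    ring
  have r0 : 0 < √((d : ℝ) * e) := sqrt_pos.2 (by positivity)
  have lr : logb 2 √((d : ℝ) * e) = (lg d + lg e) / 2 := by
    rw [sqrt_eq_rpow, logb_rpow_eq_mul_logb_of_pos (by positivity), logb_mul d0.ne' e0.ne', lg, lg]
    ring
  obtain ⟨G, hG⟩ : ∃ G : ℝ, G = √((d : ℝ) * e) * (d ^ ρ * N ^ (ρ + (i + 1) + (j + 2)) *
    (q - p) ^ (i + j + 2) / (p ^ (i + 1) * q ^ (j + 2))) := ⟨_, rfl⟩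
  have G0 : 0 < G := by rw [hG]; positivity
  have lG : logb 2 G = (lg d + lg e) / 2 + ρ * lg d + (ρ + i + j + 3) * lg N +
      (i + j + 2) * lg (q - p) - (i + 1) * lg p - (j + 2) * lg q := by
    rw [hG, logb_mul r0.ne' (by positivity), lr, logb_div (by positivity) (by positivity),
      logb_mul (by positivity) (by positivity), logb_mul (by positivity) (by positivity),
      logb_mul (by positivity) (by positivity), logb_pow, logb_pow, logb_pow, logb_pow, logb_pow,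
      lδ, lg, lg, lg, lg, lg]
    push_cast
    ring
  have hz' : 4 ^ ρ / g * G * ww ρ (i + 1) (j + 2) p q d e (-N) (-N) (-N) = z := by
    rw [← hz, hG]; ring
  have u0 : 0 < (q : ℝ) / N := by positivity
  have v0' : 0 < (p : ℝ) / N := by positivity
  have w0 : 0 < (p : ℝ) * q / (N * (q - p)) := by positivity
  have fr : f.Far → 0 ≤ f.far.v N a b c d → (0 : ℝ) < f.lm ∧ (f.lm : ℝ) < 1 ∧
      (p : ℝ) / N ≤ f.lm * (q / N) ∧ (p : ℝ) * q / (N * (q - p)) ≤ p / N / (1 - f.lm) := by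
    rintro ⟨x1, x2, x3⟩ k
    rw [far, pv] at k
    simp only [F] at k
    have k1 := rat2 (p := p) (q := q) lam 1000 100 tau C.p0 (C.p0.trans C.pq)
      (by exact_mod_cast x1) (by norm_num) (by exact_mod_cast x3) (by push_cast at k ⊢; linarith)
    have k2 : (1000 : ℝ) * p ≤ lam * q := by exact_mod_cast k1
    have e1 : (f.lm : ℝ) = lam / 1000 := by rw [lm]; push_cast; rfl
    have y1 : (0 : ℝ) < lam := by exact_mod_cast x1
    have y2 : (lam : ℝ) < 1000 := by exact_mod_cast x2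
    rw [e1]
    refine ⟨by positivity, by linarith, ?_, ?_⟩
    · rw [← mul_div_assoc]; gcongr; linarith
    · rw [div_div, div_le_div_iff₀ (by positivity) (mul_pos N0 (by linarith))]
      have := mul_le_mul_of_nonneg_left k2 (mul_pos p0 N0).le
      linarith
  have lX : ∀ (x y : ℝ) (m n : ℕ), 0 < x → 0 < y →
      logb 2 (x ^ m * y ^ n / e) = m * logb 2 x + n * logb 2 y - lg e := fun x y m n hx hy => by
    rw [logb_div (by positivity) e0.ne', logb_mul (by positivity) (by positivity), logb_pow,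
      logb_pow, lg]
  have x1 := lX _ _ (ρ + j + 1) (i + 1) u0 w0
  have x2 := lX _ _ (ρ + j + 1) (i + 1) u0 v0'
  have x3 := lX _ _ (ρ + 1) (i + j + 1) u0 w0
  have x4 := lX _ _ (ρ + 1) (i + j + 1) v0' w0
  have x5 : logb 2 (((p : ℝ) / N) ^ (ρ + i + j + 2) / e) =
      (ρ + i + j + 2 : ℕ) * logb 2 ((p : ℝ) / N) - lg e := by
    rw [logb_div (by positivity) e0.ne', logb_pow, lg]
  have x6 : logb 2 (1 / (d : ℝ) ^ (ρ + (i + 1) + (j + 2))) = -((ρ + i + j + 3) * lg d) := by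
    rw [one_div, logb_inv, logb_pow, lg]; push_cast; ring
  have fx := fun l : ℝ => farX (e := e) (l := l) i j ρ u0 v0' w0 e0
  rw [lu, lw] at x1 x3
  rw [lu, lv] at x2
  rw [lv, lw] at x4
  rw [lv] at x5
  rw [div_eq_mul_one_div _ ((d : ℝ) ^ _)] at a1 a2
  have P1 : 0 < ((q : ℝ) / N) ^ (ρ + j + 1) * (p * q / (N * (q - p))) ^ (i + 1) / e := by positivity
  have P2 : 0 < ((q : ℝ) / N) ^ (ρ + j + 1) * (p / N) ^ (i + 1) / e := by positivity
  have P3 : 0 < ((q : ℝ) / N) ^ (ρ + 1) * (p * q / (N * (q - p))) ^ (i + j + 1) / e := by positivity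
  have P4 : 0 < ((p : ℝ) / N) ^ (ρ + 1) * (p * q / (N * (q - p))) ^ (i + j + 1) / e := by positivity
  have P5 : 0 < ((p : ℝ) / N) ^ (ρ + i + j + 2) / e := by positivity
  have P6 : 0 < 1 / (d : ℝ) ^ (ρ + (i + 1) + (j + 2)) := by positivity
  have nzc := fun h : f.kp = f.ρ + 1 ∧ f.ρ ≤ 10 => nzc2 main ρ (j + 2) N p q d e k3 k4 h.2 N0 p1 pq
    qd de R.nd
  have ab : ∀ (n : ℕ) (t : ℝ), (-1) ^ n * t ≤ |t| := fun n t =>
    (le_abs_self _).trans (by rw [abs_mul, abs_neg_one_pow, one_mul])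
  replace a3 := (ab ρ _).trans a3
  replace a7 := (ab ρ _).trans a7
  replace a4 := (ab (ρ + (j + 2)) _).trans a4
  replace a8 := (ab (ρ + (j + 2)) _).trans a8
  generalize ((q : ℝ) / N) ^ (ρ + j + 1) * (p * q / (N * (q - p))) ^ (i + 1) / e = X1 at *
  generalize ((q : ℝ) / N) ^ (ρ + j + 1) * (p / N) ^ (i + 1) / e = X2 at *
  generalize ((q : ℝ) / N) ^ (ρ + 1) * (p * q / (N * (q - p))) ^ (i + j + 1) / e = X3 at *
  generalize ((p : ℝ) / N) ^ (ρ + 1) * (p * q / (N * (q - p))) ^ (i + j + 1) / e = X4 at *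
  generalize ((p : ℝ) / N) ^ (ρ + i + j + 2) / e = X5 at *
  generalize 1 / (d : ℝ) ^ (ρ + (i + 1) + (j + 2)) = X6 at *
  generalize (-1 : ℝ) ^ ρ * t0 ρ (i + 1) (j + 2) N p q d e = A at *
  generalize (-1 : ℝ) ^ (ρ + (j + 2)) * tp ρ (i + 1) (j + 2) N p q d e = B at *
  generalize (-1 : ℝ) ^ (i + 1 + (j + 2) + 1) * tm ρ (i + 1) (j + 2) N p q d e = M at *
  change _ = M + (bif f.o0 then -A else A) + (bif f.op then -B else B) at sp
  clear hz hG lX ab lr lu lv lw lδ c1 c2 c3 c4 eE eB r0 u0 v0' w0 hq hA hL hU H k1 k2 k5 big hc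
  have m0' : 0 < f.bq / f.et * X6 := by positivity
  have A0 : 0 ≤ A := le_trans (by positivity) a5
  have B0' : 0 ≤ B := le_trans (by positivity) a6
  have es : ((f.sg : ℕ) : ℝ) = ρ + i + j + 3 := by rw [sg]; simp only [F]; push_cast; ring
  have v1 : f.top.v N a b c d = (2 * (i + j) + 5) * lg d - mm / 10 - 2 * (ρ + i + j + 3) * lg N +
      2 * (i + 1) * lg p + 2 * (j + 2) * lg q - 2 * (i + j + 2) * lg (q - p) := by
    rw [top, pv]; simp only [F]; push_cast; rw [es]; ring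
  have v2 : f.mid0.v N a b c d = (ρ + i + j + 3) * lg d + n0 / 10 - (ρ + i + j + 2) * lg N +
      (i + 1) * lg p + (ρ + j + 1) * lg q := by
    rw [mid0, pv]; simp only [F]; push_cast; rw [es]; ring
  have v3 : f.midp.v N a b c d = (ρ + i + j + 3) * lg d + n1 / 10 - (ρ + i + j + 2) * lg N +
      (ρ + i + j + 2) * lg p + (i + j + 1) * lg q - (i + j + 1) * lg (q - p) := by
    rw [midp, pv]; simp only [F]; push_cast; rw [es]; ring
  have v4 : f.midf.v N a b c d = (ρ + i + j + 3) * lg d + n1 / 10 - (ρ + i + j + 2) * lg N +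
      (ρ + i + j + 2) * lg p := by
    rw [midf, pv]; simp only [F]; push_cast; rw [es]; ring
  have int : ww ρ (i + 1) (j + 2) p q d e (-N) (-N) (-N) ≠ 0 → lg e ≤ f.lo0.v N a b c d ∨
      lg e ≤ f.lop.v N a b c d ∨ f.top.v N a b c d ≤ lg e := by
    intro hw
    have F0 : (0 : ℝ) < 4 ^ ρ / g * G := by positivity
    have z0 : z ≠ 0 := by
      rintro rfl
      exact mul_ne_zero F0.ne' hw (by simpa using hz')
    have z1 : (1 : ℝ) ≤ |(z : ℝ)| := by exact_mod_cast Int.one_le_abs z0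
    have z2 : 1 ≤ |4 ^ ρ / g * G * ((-1) ^ (i + 1 + (j + 2) + 1) *
        ww ρ (i + 1) (j + 2) p q d e (-N) (-N) (-N))| := by
      rwa [mul_left_comm, abs_mul, abs_neg_one_pow, one_mul, hz']
    have T1 : (0 : ℝ) < th0 := by exact_mod_cast t1
    have T2 : (0 : ℝ) < thp := by exact_mod_cast t2
    have T3 : (0 : ℝ) < thm := by exact_mod_cast t3
    have lm : ∀ X : ℝ, 0 < X → logb 2 (G * X) = logb 2 G + logb 2 X := fun X h =>
      logb_mul G0.ne' h.ne'
    rcases core (M := 4 ^ ρ / g * G * M) (A := 4 ^ ρ / g * G * A) (B := 4 ^ ρ / g * G * B) (o0 := f.o0)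
      (op := f.op) (mul_nonneg F0.le (m0'.le.trans a1)) (by positivity) (by positivity)
      (by rw [sp]; cases f.o0 <;> cases f.op <;> simp only [cond_true, cond_false] <;> ring) z2 w1 w2
      with k | k | k
    · have := lg1 bm (mul_pos G0 P6) one_pos (by
        push_cast
        rw [div_mul_eq_mul_div, le_div_iff₀ T3]
        have := mul_le_mul_of_nonneg_left a2 F0.le
        linarith only [this, k])
      rw [lm _ P6, lG, x6, logb_one] at this
      push_cast at this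
      exact Or.inr (Or.inr (by rw [v1]; linarith only [this]))
    · left
      rw [lo0]
      split_ifs at b0 ⊢
      · have := lg1 b0 (mul_pos G0 P1) one_pos (by
          push_cast
          rw [div_mul_eq_mul_div, le_div_iff₀ T1]
          have := mul_le_mul_of_nonneg_left a3 F0.le
          linarith only [this, k])
        rw [lm _ P1, lG, x1, logb_one] at this
        rw [pv]; simp only [F]; push_cast at this ⊢; linarith only [this]
      · have := lg1 b0 (mul_pos G0 P2) one_pos (by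
          push_cast
          rw [div_mul_eq_mul_div, le_div_iff₀ T1]
          have := mul_le_mul_of_nonneg_left a7 F0.le
          linarith only [this, k])
        rw [lm _ P2, lG, x2, logb_one] at this
        rw [pv]; simp only [F]; push_cast at this ⊢; linarith only [this]
    · right; left
      rw [lop]
      split_ifs at bp ⊢
      · have := lg1 bp (mul_pos G0 P3) one_pos (by
          push_cast
          rw [div_mul_eq_mul_div, le_div_iff₀ T2]
          have := mul_le_mul_of_nonneg_left a4 F0.le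
          linarith only [this, k])
        rw [lm _ P3, lG, x3, logb_one] at this
        rw [pv]; simp only [F]; push_cast at this ⊢; linarith only [this]
      · have := lg1 bp (mul_pos G0 P4) one_pos (by
          push_cast
          rw [div_mul_eq_mul_div, le_div_iff₀ T2]
          have := mul_le_mul_of_nonneg_left a8 F0.le
          linarith only [this, k])
        rw [lm _ P4, lG, x4, logb_one] at this
        rw [pv]; simp only [F]; push_cast at this ⊢; linarith only [this]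
  clear b0 bp bm w1 w2 t1 t2 t3 lG hz' x1 x3 v1 a4 G0 p1 pq qd de p0 q0 d0 e0 D0 N0 R ad
  have fin : ∀ L U : List Af, (0 = M + (bif f.o0 then -A else A) + (bif f.op then -B else B) →
      ww ρ (i + 1) (j + 2) p q d e (-N) (-N) (-N) = 0 →
      (∃ l ∈ L, lg e ≤ l.v N a b c d) ∨ ∃ h ∈ U, h.v N a b c d ≤ lg e) →
      (∃ l ∈ f.lo0 :: f.lop :: L, lg e ≤ l.v N a b c d) ∨
        ∃ h ∈ f.top :: U, h.v N a b c d ≤ lg e := by
    intro L U k
    by_cases hw : ww ρ (i + 1) (j + 2) p q d e (-N) (-N) (-N) = 0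
    · rw [hw, mul_zero] at sp
      exact (k sp hw).imp (fun ⟨l, x, y⟩ => ⟨l, by simp [x], y⟩) fun ⟨l, x, y⟩ => ⟨l, by simp [x], y⟩
    · rcases int hw with x | x | x
      · exact Or.inl ⟨_, by simp, x⟩
      · exact Or.inl ⟨_, by simp, x⟩
      · exact Or.inr ⟨_, by simp, x⟩
  have u1 : ∀ x : ℚ, 0 < ph0 → A ≤ f.et / 2 * x * X2 →
      (f.et ^ 2 * x * 500 / (f.bq * ph0)) ^ 10 ≤ 2 ^ n0 →
      ph0 * (f.bq / f.et * X6) ≤ 1000 * A → lg e ≤ f.mid0.v N a b c d := by
    intro x y h1 h2 h3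
    have y' : (0 : ℝ) < ph0 := by exact_mod_cast y
    have := lg1 h2 P2 P6 (by
      push_cast
      rw [div_mul_eq_mul_div, le_div_iff₀ (by positivity)]
      rw [div_mul_eq_mul_div, ← mul_div_assoc, div_le_iff₀ E0] at h3
      have := mul_le_mul_of_nonneg_right h1 E0.le
      linarith)
    rw [x2, x6] at this
    rw [v2]; push_cast at this; linarith only [this]
  have u2 : ∀ (x : ℚ) (X : ℝ), 0 < php → 0 < X → 0 < x → B ≤ f.et / 2 * f.cpb * (X / x) →
      (f.et ^ 2 * f.cpb * 500 / (f.bq * php * x)) ^ 10 ≤ 2 ^ n1 →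
      php * (f.bq / f.et * X6) ≤ 1000 * B → 10 * logb 2 X6 ≤ n1 + 10 * logb 2 X := by
    intro x X y X0 x0 h1 h2 h3
    have y' : (0 : ℝ) < php := by exact_mod_cast y
    have x' : (0 : ℝ) < x := by exact_mod_cast x0
    have := lg1 h2 X0 P6 (by
      push_cast
      rw [div_mul_eq_mul_div, le_div_iff₀ (by positivity)]
      rw [div_mul_eq_mul_div, ← mul_div_assoc, div_le_iff₀ E0] at h3
      rw [← mul_div_assoc, le_div_iff₀ x'] at h1
      have h4 := mul_le_mul_of_nonneg_right h1 E0.le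
      have h5 := mul_le_mul_of_nonneg_right h3 x'.le
      linarith)
    exact_mod_cast this
  have u3 : ∀ x : ℚ, (0 : ℝ) < x → x * (49 / 100 / f.et * f.c0 * X2) ≤ M →
      2 ^ n0 ≤ (x * (49 / 100 * f.c0) / (f.et ^ 2 * f.bq)) ^ 10 → f.mid0.v N a b c d ≤ lg e := by
    intro x x0 h1 h2
    have := lg2 (y := X6) h2 P2 (by push_cast; positivity) (by
      push_cast
      rw [div_mul_eq_mul_div, div_le_iff₀ (by positivity)]
      have h3 := mul_le_mul_of_nonneg_right (h1.trans a2) E0.le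
      rw [show (x : ℝ) * (49 / 100 / f.et * f.c0 * X2) * f.et = x * (49 / 100 * f.c0) * X2 by
        field_simp] at h3
      linarith)
    rw [x2, x6] at this
    rw [v2]; push_cast at this; linarith only [this]
  have u4 : f.Far → 0 ≤ f.far.v N a b c d → B ≤ f.rat * (49 / 100 / f.et * f.c0 * X2) := by
    intro h1 h2
    obtain ⟨y1, y2, y3, y4⟩ := fr h1 h2
    obtain ⟨-, y5, y6⟩ := fx _ y2 y3 y4
    have y7 : (0 : ℝ) < 1 - f.lm := by linarith
    calc B ≤ f.et / 2 * f.cpb * (f.lm ^ (ρ + j + 1) * X2 / (1 - f.lm) ^ (i + j + 1)) :=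
          a8.trans (by gcongr; exact y5.trans (by gcongr))
      _ = _ := by
        rw [rat]
        simp only [F]
        rw [show ρ + (j + 2) - 1 = ρ + j + 1 by omega, show i + 1 + (j + 2) - 2 = i + j + 1 by omega]
        push_cast
        field_simp
        ring
  obtain h | h | h | h | h | h | h | h :
    nz = 0 ∨ nz = 1 ∨ nz = 2 ∨ nz = 3 ∨ nz = 4 ∨ nz = 5 ∨ nz = 6 ∨ 7 ≤ nz := by omega
  · subst h
    refine fin [] [] fun k _ => ?_
    rw [(g0 rfl).1, (g0 rfl).2, cond_false, cond_false] at k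
    linarith
  · subst h
    obtain ⟨⟨y1, y2, y3⟩, y4, y5⟩ := g1 rfl
    refine fin _ [] fun k _ => Or.inl ?_
    rcases upper m0' a1 A0 B0' k y3 with ⟨x, y⟩ | ⟨x, y⟩
    · exact ⟨_, by simp [x], u1 _ y1 a7 (y4 x) y⟩
    · have := u2 1 X4 y2 P4 one_pos (by simpa using a8) (by rw [mul_one]; exact y5 x) y
      rw [x4, x6] at this
      exact ⟨f.midp, by simp [x], by rw [v3]; push_cast at this; linarith only [this]⟩
  · subst h
    obtain ⟨y0, ⟨y1, y2, y3⟩, y4, y5⟩ := g2 rfl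
    obtain ⟨s1, s2, s3, s4⟩ := fr y0 (sd _ List.mem_cons_self)
    obtain ⟨s5, s6, -⟩ := fx _ s2 s3 s4
    have s7 : (0 : ℝ) < 1 - f.lm := by linarith
    refine fin _ [] fun k _ => Or.inl ?_
    rcases upper m0' a1 A0 B0' k y3 with ⟨x, y⟩ | ⟨x, y⟩
    · refine ⟨_, by simp [x], u1 _ y1 ?_ (y4 x) y⟩
      rcases min_choice f.c0b (f.c0 / (1 - f.lm) ^ f.kp) with s | s <;> rw [s]
      · exact a7
      · refine a3.trans ((mul_le_mul_of_nonneg_left s5 (by positivity)).trans (le_of_eq ?_))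
        simp only [F]
        push_cast
        ring
    · have := u2 ((1 - f.lm) ^ (i + j + 1)) X5 y2 P5 (pow_pos (by exact_mod_cast s7) _)
        (a8.trans (by push_cast; gcongr))
        (by rw [show i + j + 1 = i + 1 + (j + 2) - 2 by omega]; exact y5 x) y
      rw [x5, x6] at this
      exact ⟨f.midf, by simp [x], by rw [v4]; push_cast at this; linarith only [this]⟩
  · subst h
    obtain ⟨y1, y2, y3⟩ := g3 rfl
    refine fin [] _ fun k _ => Or.inr ⟨_, List.mem_cons_self, u3 1 (by simp) ?_ (by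
      rw [one_mul]; exact y3)⟩
    rw [y1, y2, cond_true, cond_true] at k
    push_cast
    linarith
  · subst h
    obtain ⟨y0, y1, y2, y3, y4⟩ := g4 rfl
    have s := u4 y0 (sd _ List.mem_cons_self)
    have y5 : (f.rat : ℝ) < 1 := by exact_mod_cast y3
    refine fin [] _ fun k _ => Or.inr ⟨_, List.mem_cons_self, u3 _ (by push_cast; linarith) ?_ y4⟩
    rw [y1, y2, cond_true, cond_false] at k
    push_cast
    linarith
  · subst h
    obtain ⟨y0, y1, y3⟩ := g5 rfl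
    have s := u4 y0 (sd _ List.mem_cons_self)
    have y5 : (f.rat : ℝ) ≤ 1 := by exact_mod_cast y3
    have y6 := mul_le_of_le_one_left (show 0 ≤ 49 / 100 / (f.et : ℝ) * f.c0 * X2 by positivity) y5
    refine fin [] [] fun k _ => ?_
    rw [y1, cond_false] at k
    cases h : f.op <;> rw [h] at k <;> simp only [cond_true, cond_false] at k <;> linarith
  · subst h
    obtain ⟨y1, y2, y3⟩ := g6 rfl
    refine fin [] _ fun k _ => Or.inr ⟨_, List.mem_cons_self, ?_⟩
    rw [y1, y2, cond_true, cond_true] at k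
    have := lg2 (y := X6) y3 P4 (by push_cast; positivity) (by
      push_cast
      rw [div_mul_eq_mul_div, div_le_iff₀ (by positivity)]
      have h3 := mul_le_mul_of_nonneg_right (a6.trans ((show B ≤ M by linarith).trans a2)) E0.le
      rw [show 1 / 2 / (f.et : ℝ) * f.cp * X4 * f.et = 1 / 2 * f.cp * X4 by field_simp] at h3
      linarith)
    rw [x4, x6] at this
    simp only [F] at this
    rw [v3]; push_cast at this; linarith only [this]
  · obtain ⟨k, rfl⟩ := Nat.exists_eq_add_of_le' h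
    have y := g7 h
    refine fin [] [] fun _ hw => ?_
    have s := sd _ List.mem_cons_self
    rw [pv] at s
    have s1 := rat1 100 199 100 99 C.p0 (C.p0.trans C.pq) (by norm_num) (by norm_num)
      (by decide +kernel) (by push_cast at s ⊢; linarith)
    rw [show i + 1 = ρ + 1 from y.1] at hw
    exact (nzc y (by exact_mod_cast s1) hw).elim

end Pool.Agent.MP_2339ce_nt.Q2

end
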