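import Pool.Agent.MP_2339ce_nt.Q2.SpecH4
import Pool.Agent.MP_2339ce_nt.Q2.HTL
import Pool.Agent.MP_2339ce_nt.Q2.HTU

/-! `D(-N)`-quintuples, block HP, shifted forms: the error at the node `0`. -/

set_option autoImplicit false

noncomputable section

namespace Pool.Agent.MP_2339ce_nt.Q2

open DQ DQ.Sgn DQ.NNZC PowerSeries Real

namespace HJ0

theorem rc_mul (A B c : ℝ) (F : ℕ → ℕ → ℝ) (j kp kq : ℕ) :
    rc A B (fun k l => c * F k l) j kp kq = c * rc A B F j kp kq := by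
  induction j generalizing kp kq with
  | zero => rfl
  | succ j ih => rw [rc, rc, ih, ih]; ring

theorem upJ (ρ n j k m : ℕ) {x A B : ℝ} (hx : 0 ≤ x) (hA : 0 < A) (hB : 0 < B) :
    |coeff ρ (G0 ρ n j x * iv B ^ k * iv A ^ m)| ≤ (n.choose j : ℕ) * Z ρ k m x A B := by
  rw [mul_assoc, coeff_mul, Z, Finset.mul_sum]
  refine (Finset.abs_sum_le_sum_abs _ _).trans (Finset.sum_le_sum fun p hp => ?_)
  have e : J B ^ k * J A ^ m = rescale (-1 : ℝ) (iv B ^ k * iv A ^ m) := by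
    rw [map_mul, map_pow, map_pow, iv_res hB.ne', iv_res hA.ne']
  have n0 := ((J_nn hB).pow k).mul ((J_nn hA).pow m) p.2
  have e2 : |coeff p.2 (iv B ^ k * iv A ^ m)| = coeff p.2 (J B ^ k * J A ^ m) := by
    rw [← abs_of_nonneg n0, e, coeff_rescale, abs_mul, abs_neg_one_pow, one_mul]
  have g := g_nn hx hp
  have c : (((n - p.1).choose j : ℕ) : ℝ) ≤ (n.choose j : ℕ) :=
    Nat.cast_le.2 (Nat.choose_le_choose j (Nat.sub_le _ _))
  rw [abs_mul, e2, G0, coeff_mk, mul_right_comm, abs_of_nonneg (by positivity), ← mul_assoc,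
    mul_comm (_ * x ^ p.1)]
  exact mul_le_mul_of_nonneg_right (mul_le_mul_of_nonneg_right c g) n0

open HTL in
theorem lowJ (r n k m : ℕ) {x A B c : ℝ} (hx : 0 < x) (hA : 0 < A) (hB : 0 < B) (c0 : 0 ≤ c)
    (ca : c ≤ 1 + -A * x) (cb : c ≤ 1 + -B * x) (h : r + 1 ≤ m + (k + 1)) :
    c ^ (r + 1) * (((n + k).choose n : ℕ) * B⁻¹ ^ (n + k + 1) * A⁻¹ ^ m) ≤
      (-1) ^ n * rs r x 0 (-B) (-A) (n + 1) (k + 1) m := by
  have one : (1 : ℝ) + 0 * x ≠ 0 := by simp
  refine (mul_le_mul_of_nonneg_left (two hA hB n k m) (pow_nonneg c0 _)).trans ?_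
  rw [rs, Nat.add_sub_cancel, ← coeff_rescale, map_mul (rescale _), map_mul (rescale _),
    map_pow (rescale _), map_pow (rescale _), zero_sub, zero_sub, neg_neg, neg_neg,
    iv_res hB.ne', iv_res hA.ne', gs_res _ _ _ one]
  generalize k + 1 = l at h
  obtain ⟨i, j, l', m', hij, rfl, rfl⟩ : ∃ i j l' m', r + 1 = i + j ∧ l = i + l' ∧ m = j + m' :=
    ⟨min l (r + 1), r + 1 - min l (r + 1), l - min l (r + 1), m - (r + 1 - min l (r + 1)),
      by omega, by omega, by omega⟩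
  have hH : Le (C 1) (bs (-1 / 2) (-1) (-x) (1 + 0 * x)) := fun n => by
    rw [bs, coeff_mk, coeff_C, zero_mul, add_zero, one_zpow, mul_one]
    split_ifs with hn
    · rw [hn, Ring.choose_zero_right, pow_zero, mul_one]
    · exact choose_alt x hx.le n
  have nb := (NN.const c0).mul (J_nn hB)
  have na := (NN.const c0).mul (J_nn hA)
  have n1 : NN (C 1) := NN.const zero_le_one
  have := (((((step hx hB cb).pow nb i).mul ((step hx hA ca).pow na j) (nb.pow i)
    (na.pow j)).mul hH ((nb.pow i).mul (na.pow j)) n1).mul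
      (f' := J B ^ l' * J A ^ m') (fun _ => le_rfl) (((nb.pow i).mul (na.pow j)).mul n1)
      (((J_nn hB).pow l').mul ((J_nn hA).pow m'))) n
  rw [hij, ← coeff_C_mul]
  refine le_trans (le_of_eq ?_) (this.trans (le_of_eq ?_))
  · congr 1
    rw [map_pow, map_one, mul_pow, mul_pow]
    ring
  · congr 1
    rw [mul_pow, mul_pow]
    ring

theorem cj_nn {ρ m j i : ℕ} (h1 : j ≤ m + 1) (h2 : i ≤ ρ) : 0 ≤ cj ρ m j i := by
  have a : ((j - i : ℕ) : ℝ) ≤ (m + 1 : ℕ) := Nat.cast_le.2 (by omega)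
  have b : (i : ℝ) ≤ ρ := Nat.cast_le.2 h2
  push_cast at a
  exact mul_nonneg (choose_nn _ _ (by linarith)) (choose_nn _ _ (by linarith))

end HJ0

open HJ0 in
theorem j0b (h1 : S_JID) (h2 : S_BND3) : S_J0 := by
  intro ρ kp kq j N p q d e h
  obtain ⟨m, rfl⟩ : ∃ m, kp = m + 1 := ⟨kp - 1, by have := h.p1; omega⟩
  obtain ⟨k, rfl⟩ : ∃ k, kq = k + 1 := ⟨kq - 1, by have := h.q1; omega⟩
  have N0 := h.n0
  have p1 := h.one
  have pq := h.pq
  have qd := h.qd
  have de := h.de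
  have nd := h.nd
  have jp := h.jp
  have big := h.big
  have p0 : 0 < p := by linarith
  have q0 : 0 < q := by linarith
  have d0 : 0 < d := by linarith
  have e0 : 0 < e := by linarith
  have x0 : 0 < 1 / d := by positivity
  have lt : N / q < N / p := div_lt_div_of_pos_left N0 p0 pq
  have B0 : 0 < N / q := by positivity
  have sm : ∀ z : ℝ, d ≤ z → N / p / z ≤ 1 / 10000 := fun z hz => by
    rw [div_div, div_le_div_iff₀ (mul_pos p0 (d0.trans_le hz)) (by norm_num)]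
    nlinarith
  have dq : 100 * (N / d) ≤ N / q := by
    rw [← mul_div_assoc, div_le_div_iff₀ d0 q0]
    nlinarith
  have d1 : 0 < N / d := by positivity
  have i1 : q / N = (N / q)⁻¹ := (inv_div _ _).symm
  have i2 : p / N = (N / p)⁻¹ := (inv_div _ _).symm
  have i3 : p * q / (N * (q - p)) = (N / p - N / q)⁻¹ := by
    rw [div_sub_div _ _ p0.ne' q0.ne', inv_div]
    congr 1
    ring
  have et := HTL.eta_le (ρ := ρ) (σ := ρ + (m + 1) + (k + 1) + j) (by omega)
  simp only [t0J, t0, neg_div, nJ]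
  rw [rc_mul, i1, i2, i3, ← div_div, ← div_div, show ρ + (k + 1) - 1 = ρ + k by omega,
    show ρ + (m + 1) + (k + 1) - 1 = ρ + k + (m + 1) by omega]
  generalize N / p = A at *
  generalize N / q = B at *
  generalize N / d = D at *
  have A0 : 0 < A := by linarith
  have W0 : 0 < A - B := by linarith
  have s1 : A * (1 / d) ≤ 1 / 10000 := by simpa only [mul_one_div] using sm d le_rfl
  have s2 := sm e de
  have s3 : B * (1 / d) ≤ A * (1 / d) := by gcongr
  have s4 : B / e ≤ A / e := by gcongr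
  have s5 : 100 * (D / e) ≤ B / e := by rw [← mul_div_assoc]; gcongr
  have s6 : 0 < D / e := by positivity
  have s7 : 0 < B / e := by positivity
  obtain ⟨r1, r2, -, -, r3⟩ := h1 ρ j (m + 1) (k + 1) (1 / d) A B (by omega) (by omega) (by omega)
    A0.ne' B0.ne' lt.ne' (by linarith) (by linarith)
  have u := upJ ρ (ρ + (m + 1) + (k + 1) + j - 1) j (k + 1) (m + 1) x0.le A0 B0
  rw [← r1] at u
  have n1 := NSIZEN.etaN (ρ := ρ) (σ := ρ + (m + 1) + (k + 1) + j) (u := 1 / d * B)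
    (by positivity) (by linarith) (by omega)
  rw [← eta] at n1
  have f1 : |√(1 + -(D / e)) - √(1 + -(B / e))| ≤ 5001 / 10000 * (B / e) := by
    refine (TSIZE3.sqrt_sub (by linarith) (by linarith)).trans ?_
    rw [neg_sub_neg, abs_of_nonneg (by linarith)]
    linarith
  have z2 := (HTU.Z_eq _ _ _ _ _ _).trans_le (HTU.core h2 (ρ := ρ) (n := ρ) (l := k) (m := m + 1)
    (α := 0) x0 (by norm_num) (by norm_num) le_rfl B0 lt.le)
  have z1 := h2 ρ (ρ + 1) (k + 1) (m + 1) (1 / d) 0 B A (by omega) le_rfl (by omega) x0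
    (by norm_num) (by norm_num) (by rw [zero_sub, abs_neg, abs_of_pos B0]; exact B0)
    (by rw [zero_sub, zero_sub, abs_neg, abs_neg, abs_of_pos B0, abs_of_pos A0]; exact lt)
  rw [HTU.absneg x0.le (by norm_num) le_rfl B0 A0 (zero_sub B) (zero_sub A), ← HTU.Z_eq, zero_sub,
    zero_sub, abs_neg, abs_neg, abs_of_pos B0, abs_of_pos A0, Nat.add_sub_cancel,
    show ρ + 1 + (k + 1) - 2 = ρ + k by omega, show ρ + 1 + (k + 1) - 1 = ρ + k + 1 by omega] at z1
  have l : ∀ i ∈ Finset.range (j + 1), cj ρ (m + 1 + (k + 1) + j - 2) j i * ((9999 / 10000) ^ (ρ + 1) *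
      (((ρ + k).choose ρ : ℕ) * B⁻¹ ^ (ρ + k + 1) * A⁻¹ ^ (m + 1))) ≤ (-1) ^ ρ *
      (cj ρ (m + 1 + (k + 1) + j - 2) j i * rs (ρ - i) (1 / d) 0 (-B) (-A) (ρ + 1) (k + 1) (m + 1)) :=
    fun i hi => by
      have := Finset.mem_range.1 hi
      rw [mul_left_comm ((-1 : ℝ) ^ ρ)]
      refine mul_le_mul_of_nonneg_left (le_trans ?_ (lowJ (ρ - i) ρ k (m + 1) (c := 9999 / 10000)
        x0 A0 B0 (by norm_num) (by linarith) (by linarith) (by omega))) (cj_nn (by omega) (by omega))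
      exact mul_le_mul_of_nonneg_right
        (pow_le_pow_of_le_one (by norm_num) (by norm_num) (by omega)) (by positivity)
  have l2 := Finset.sum_le_sum l
  rw [← Finset.sum_mul, ← Finset.mul_sum, r3, ← r2] at l2
  push_cast
  generalize rc A B (fun k l => rs ρ (1 / d) 0 (-B) (-A) (ρ + 1) l k) j (m + 1) (k + 1) = R at *
  have c0 : (0 : ℝ) ≤ ((ρ + (m + 1) + (k + 1) + j - 1).choose j : ℕ) := Nat.cast_nonneg _
  generalize (((ρ + (m + 1) + (k + 1) + j - 1).choose j : ℕ) : ℝ) = c at *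
  generalize eta (ρ + (m + 1) + (k + 1) + j) = η at *
  generalize (1 + 1 / d * B) ^ (ρ + 1) = E at *
  have key : ∀ y w : ℝ, 0 ≤ w → Z ρ (k + 1) (m + 1) (1 / d) A B ≤ y → B / e * y = E * w →
      |(√(1 + -(D / e)) - √(1 + -(B / e))) * R| ≤ η / 2 * (c * w) := fun y w w0 a b => by
    rw [abs_mul]
    refine (mul_le_mul f1 (u.trans (mul_le_mul_of_nonneg_left a c0)) (abs_nonneg _)
      (by positivity)).trans ?_
    have := mul_le_mul_of_nonneg_right n1 (mul_nonneg c0 w0)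
    linear_combination this + 5001 / 10000 * c * b
  refine ⟨?_, (key _ (((ρ + k).choose ρ : ℕ) * (B⁻¹ ^ (ρ + k) * (A - B)⁻¹ ^ (m + 1) / e))
    (by positivity) z1 ?_).trans_eq (by ring),
    (key _ (((ρ + k + (m + 1)).choose ρ : ℕ) * (B⁻¹ ^ (ρ + k) * A⁻¹ ^ (m + 1) / e))
      (by positivity) z2 ?_).trans_eq (by ring)⟩
  · have f : 49 / 100 * (B / e) ≤ √(1 + -(D / e)) - √(1 + -(B / e)) :=
      le_trans (by linarith) (sqrt_low (by linarith) (by linarith) s6.le)
    have g := mul_le_mul f l2 (by positivity) (le_trans (by positivity) f)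
    refine le_trans ?_ (g.trans_eq (mul_left_comm _ _ _))
    calc _ = 49 / 100 * (B / e) * (c * (η⁻¹ *
          (((ρ + k).choose ρ : ℕ) * B⁻¹ ^ (ρ + k + 1) * A⁻¹ ^ (m + 1)))) := by
          rw [pow_succ B⁻¹]; field_simp
      _ ≤ _ := by gcongr
  · generalize A - B = W at *
    simp only [inv_pow]
    field_simp
    ring
  · simp only [inv_pow, div_pow]
    field_simp
    ring

end Pool.Agent.MP_2339ce_nt.Q2

end
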