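import Pool.Agent.MP_2339ce_nt.Q2.HD4
import Pool.Agent.MP_2339ce_nt.Q2.HG
import Pool.Agent.MP_2339ce_nt.Q2.SpecH2

/-! `D(-N)`-quintuples, block HP: shifted forms, statements. -/

set_option autoImplicit false

noncomputable section

namespace Pool.Agent.MP_2339ce_nt.Q2

open DQ Real PowerSeries

/-- a positive combination of the values `F (kp + i) (kq + j - i)` -/
def rc {K : Type} [Field K] (A B : K) (F : ℕ → ℕ → K) : ℕ → ℕ → ℕ → K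
  | 0, kp, kq => F kp kq
  | j + 1, kp, kq => (kp * A * rc A B F j (kp + 1) kq + kq * B * rc A B F j kp (kq + 1)) / (j + 1)

def cj (ρ m j i : ℕ) : ℝ := Ring.choose ((m : ℝ) + 1 / 2) (j - i) * Ring.choose ((ρ : ℝ) + 1 / 2) i

def G0 (ρ n j : ℕ) (x : ℝ) : ℝ⟦X⟧ :=
  PowerSeries.mk fun h => Ring.choose ((ρ : ℝ) + 1 / 2) h * ((n - h).choose j : ℕ) * x ^ h

/-- the residues of the shifted forms -/
def S_JID : Prop := ∀ (ρ j kp kq : ℕ) (x A B : ℝ), 1 ≤ kp → 1 ≤ kq → j ≤ ρ → A ≠ 0 → B ≠ 0 →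
  A ≠ B → 1 + -A * x ≠ 0 → 1 + -B * x ≠ 0 →
  rc A B (fun k l => rs ρ x 0 (-B) (-A) (ρ + 1) l k) j kp kq =
      coeff ρ (G0 ρ (ρ + kp + kq + j - 1) j x * iv B ^ kq * iv A ^ kp) ∧
    rc A B (fun k l => rs ρ x 0 (-B) (-A) (ρ + 1) l k) j kp kq = ∑ i ∈ Finset.range (j + 1),
      cj ρ (kp + kq + j - 2) j i * rs (ρ - i) x 0 (-B) (-A) (ρ + 1) kq kp ∧
    rc A B (fun k l => rs ρ x (-B) 0 (-A) l (ρ + 1) k) j kp kq = ∑ i ∈ Finset.range (j + 1),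
      cj ρ (kp + kq + j - 2) j i * rs (ρ - i) x (-B) 0 (-A) kq (ρ + 1) kp ∧
    rc A B (fun k l => rs ρ x (-A) 0 (-B) k (ρ + 1) l) j kp kq = ∑ i ∈ Finset.range (j + 1),
      cj ρ (kp + kq + j - 2) j i * rs (ρ - i) x (-A) 0 (-B) kp (ρ + 1) kq ∧
    ∑ i ∈ Finset.range (j + 1), cj ρ (kp + kq + j - 2) j i =
      ((ρ + kp + kq + j - 1).choose j : ℕ)

def wwJ (ρ kp kq j : ℕ) (N p q d e : ℝ) : ℝ :=
  rc (N / p) (N / q) (fun k l => ww ρ k l p q d e (-N) (-N) (-N)) j kp kq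

def tmJ (ρ kp kq j : ℕ) (N p q d e : ℝ) : ℝ :=
  rc (N / p) (N / q) (fun k l => tm ρ k l N p q d e) j kp kq

def t0J (ρ kp kq j : ℕ) (N p q d e : ℝ) : ℝ :=
  rc (N / p) (N / q) (fun k l => t0 ρ k l N p q d e) j kp kq

def tpJ (ρ kp kq j : ℕ) (N p q d e : ℝ) : ℝ :=
  rc (N / p) (N / q) (fun k l => tp ρ k l N p q d e) j kp kq

structure RgJ (ρ kp kq j : ℕ) (N p q d e : ℝ) : Prop extends Rg ρ kp kq N p q d e where
  jp : kp + j ≤ ρ + 1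
  jq : kq + j ≤ ρ + 1

def nJ (ρ kp kq j : ℕ) : ℕ := (ρ + kp + kq + j - 1).choose j

/-- the main term -/
def S_JM : Prop := ∀ (ρ kp kq j : ℕ) (N p q d e : ℝ) (l : ℚ), RgJ ρ kp kq j N p q d e →
  p ≤ l * q →
  wwJ ρ kp kq j N p q d e =
      tmJ ρ kp kq j N p q d e + t0J ρ kp kq j N p q d e + tpJ ρ kp kq j N p q d e ∧
    be ρ (ρ + kp + kq + j) * ((kp + j - 1).choose j : ℕ) / eta (ρ + kp + kq + j) *
      ((N / p) ^ j / d ^ (ρ + kp + kq + j)) ≤ (-1) ^ (kp + kq + j + 1) * tmJ ρ kp kq j N p q d e ∧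
    (-1) ^ (kp + kq + j + 1) * tmJ ρ kp kq j N p q d e ≤
      be ρ (ρ + kp + kq + j) * (rc (1 : ℚ) l (fun _ _ => 1) j kp kq : ℚ) * eta (ρ + kp + kq + j) *
        ((N / p) ^ j / d ^ (ρ + kp + kq + j))

/-- the error at the node `0` -/
def S_J0 : Prop := ∀ (ρ kp kq j : ℕ) (N p q d e : ℝ), RgJ ρ kp kq j N p q d e →
  49 / 100 / eta (ρ + kp + kq + j) * (nJ ρ kp kq j * (ρ + kq - 1).choose ρ : ℕ) *
      ((q / N) ^ (ρ + kq - 1) * (p / N) ^ kp / e) ≤ (-1) ^ ρ * t0J ρ kp kq j N p q d e ∧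
    |t0J ρ kp kq j N p q d e| ≤ eta (ρ + kp + kq + j) / 2 *
      (nJ ρ kp kq j * (ρ + kq - 1).choose ρ : ℕ) *
      ((q / N) ^ (ρ + kq - 1) * (p * q / (N * (q - p))) ^ kp / e) ∧
    |t0J ρ kp kq j N p q d e| ≤ eta (ρ + kp + kq + j) / 2 *
      (nJ ρ kp kq j * (ρ + kp + kq - 1).choose ρ : ℕ) * ((q / N) ^ (ρ + kq - 1) * (p / N) ^ kp / e)

/-- the error at the node `-N / p` -/
def S_JP : Prop := ∀ (ρ kp kq j : ℕ) (N p q d e : ℝ), RgJ ρ kp kq j N p q d e →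
  1 / 2 / eta (ρ + kp + kq + j) * (nJ ρ kp kq j * (kp + kq - 2).choose (kp - 1) : ℕ) *
      ((p / N) ^ (ρ + 1) * (p * q / (N * (q - p))) ^ (kp + kq - 2) / e) ≤
      (-1) ^ (ρ + kq) * tpJ ρ kp kq j N p q d e ∧
    |tpJ ρ kp kq j N p q d e| ≤ eta (ρ + kp + kq + j) / 2 *
      (nJ ρ kp kq j * (kp + kq - 2).choose (kp - 1) : ℕ) *
      ((q / N) ^ (ρ + 1) * (p * q / (N * (q - p))) ^ (kp + kq - 2) / e) ∧
    |tpJ ρ kp kq j N p q d e| ≤ eta (ρ + kp + kq + j) / 2 *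
      (nJ ρ kp kq j * (ρ + kp + kq - 1).choose (kp - 1) : ℕ) *
      ((p / N) ^ (ρ + 1) * (p * q / (N * (q - p))) ^ (kp + kq - 2) / e)

def CtJ0 (ρ kp kq j g : ℕ) : Prop := allLe ρ (fun h =>
  ct1 (4 ^ ρ * nm ρ h * bn j (ρ + kp + kq - 1 - h)) (dn h * g) (kq - 1) (kp - 1) (ρ - h)) = true

def CtJ1 (ρ k l j g : ℕ) : Prop := allLe j (fun i => allLe (k - 1) fun h =>
  ct1 (4 ^ ρ * nm (k + l + j - 2) (j - i) * nm ρ i * nm (ρ - i) h)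
    (dn (j - i) * dn i * dn h * g) ρ (l - 1) (k - 1 - h)) = true

/-- `g` divides all coefficients of the shifted form -/
def ContJ (ρ kp kq j g : ℕ) : Prop :=
  0 < g ∧ CtJ0 ρ kp kq j g ∧ CtJ1 ρ kq kp j g ∧ CtJ1 ρ kp kq j g

instance (ρ kp kq j g : ℕ) : Decidable (ContJ ρ kp kq j g) := by
  unfold ContJ CtJ0 CtJ1; infer_instance

def S_JINT : Prop := ∀ (ρ kp kq j g : ℕ) (N p q d e : ℤ), 1 ≤ kp → 1 ≤ kq → kp + j ≤ ρ + 1 →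
  kq + j ≤ ρ + 1 → ContJ ρ kp kq j g → CfN N p q d e →
  ∃ i : ℤ, √((d : ℝ) * e) * (scN ρ kp kq N p q d / g * wwJ ρ kp kq j N p q d e) = i

end Pool.Agent.MP_2339ce_nt.Q2

end
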