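import Mathlib.RingTheory.PowerSeries.Derivative
import Pool.Agent.MP_2339ce_nt.Q2.SpecH4

/-! `D(-N)`-quintuples, block HP: the residues of the shifted forms. -/

set_option autoImplicit false

noncomputable section

namespace Pool.Agent.MP_2339ce_nt.Q2

open DQ Real PowerSeries

namespace HJID

/-- the operator `z d / dz` at the node `ν` -/
def th (ν : ℝ) (g : ℝ⟦X⟧) : ℝ⟦X⟧ := (C ν + X) * derivative ℝ g

theorem cth (ν : ℝ) (g : ℝ⟦X⟧) (m : ℕ) :
    coeff m (th ν g) = ν * (m + 1) * coeff (m + 1) g + m * coeff m g := by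
  rw [th, add_mul, map_add, coeff_C_mul, coeff_derivative]
  rcases m with _ | m
  · simp [mul_comm]
  · rw [coeff_succ_X_mul, coeff_derivative]; push_cast; ring

theorem ivm {c : ℝ} (h : c ≠ 0) : (C c + X) * iv c = 1 :=
  PowerSeries.mul_inv_cancel _ (by simpa using h)

theorem div_ (c : ℝ) (a : ℕ) : derivative ℝ (iv c ^ a) = -(C (a : ℝ) * iv c ^ (a + 1)) := by
  have h : derivative ℝ (iv c) = -(iv c ^ 2) := by
    rw [iv, derivative_inv', map_add, derivative_C, derivative_X]; ring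
  induction a with
  | zero => simp
  | succ a ih =>
    rw [pow_succ, Derivation.leibniz, ih, h, smul_eq_mul, smul_eq_mul]
    push_cast
    rw [map_add, map_one]; ring

theorem step (f : ℝ⟦X⟧) {ν β γ : ℝ} (h1 : ν - β ≠ 0) (h2 : ν - γ ≠ 0) (m a b : ℕ) :
    ((m : ℝ) + a + b) * coeff m (f * iv (ν - β) ^ a * iv (ν - γ) ^ b) -
        coeff m (th ν f * iv (ν - β) ^ a * iv (ν - γ) ^ b) =
      -ν * (m + 1) * coeff (m + 1) (f * iv (ν - β) ^ a * iv (ν - γ) ^ b) -
        a * β * coeff m (f * iv (ν - β) ^ (a + 1) * iv (ν - γ) ^ b) -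
        b * γ * coeff m (f * iv (ν - β) ^ a * iv (ν - γ) ^ (b + 1)) := by
  have e1 := ivm h1
  have e2 := ivm h2
  rw [map_sub] at e1 e2
  have e : th ν (f * iv (ν - β) ^ a * iv (ν - γ) ^ b) =
      th ν f * iv (ν - β) ^ a * iv (ν - γ) ^ b -
        C ((a : ℝ) + b) * (f * iv (ν - β) ^ a * iv (ν - γ) ^ b) -
        C ((a : ℝ) * β) * (f * iv (ν - β) ^ (a + 1) * iv (ν - γ) ^ b) -
        C ((b : ℝ) * γ) * (f * iv (ν - β) ^ a * iv (ν - γ) ^ (b + 1)) := by
    rw [th, th, Derivation.leibniz, Derivation.leibniz, div_, div_, map_add, map_mul, map_mul]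
    simp only [smul_eq_mul]
    linear_combination (-(C (a : ℝ) * (f * iv (ν - β) ^ a * iv (ν - γ) ^ b))) * e1 -
      (C (b : ℝ) * (f * iv (ν - β) ^ a * iv (ν - γ) ^ b)) * e2
  have k := cth ν (f * iv (ν - β) ^ a * iv (ν - γ) ^ b) m
  rw [e, map_sub, map_sub, map_sub, coeff_C_mul, coeff_C_mul, coeff_C_mul] at k
  linear_combination -k

theorem thg (r : ℕ) {x ν : ℝ} (h : 1 + ν * x ≠ 0) :
    th ν (gs (r + 1) x ν) = C ((r : ℝ) + 3 / 2) * (gs (r + 1) x ν - gs r x ν) := by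
  ext m
  rw [cth, coeff_C_mul, map_sub]
  simp only [gs, coeff_mk]
  have e0 : ((r + 1 : ℕ) : ℝ) + 1 / 2 = ((r : ℝ) + 1 / 2) + 1 := by push_cast; ring
  have e1 : ((r + 1 : ℕ) : ℤ) - ((m + 1 : ℕ) : ℤ) = r - m := by push_cast; ring
  have e2 : ((r + 1 : ℕ) : ℤ) - (m : ℤ) = r - m + 1 := by push_cast; ring
  have k1 := INT.choose_step ((r : ℝ) + 1 / 2 + 1) m
  have k2 := INT.choose_step ((r : ℝ) + 1 / 2) m
  have k3 := Ring.choose_succ_succ ((r : ℝ) + 1 / 2) m
  rw [e0, e1, e2, zpow_add_one₀ h]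
  generalize (1 + ν * x) ^ ((r : ℤ) - m) = w
  linear_combination (ν * x ^ (m + 1) * w) * k1 +
    (x ^ m * w) * (k1 - k2 - ((m : ℝ) + 1) * k3)

theorem rss (r : ℕ) {x ν β γ : ℝ} (h : 1 + ν * x ≠ 0) (h1 : ν - β ≠ 0) (h2 : ν - γ ≠ 0)
    (m a b : ℕ) :
    ((m : ℝ) + a + b - (r + 3 / 2)) * rs (r + 1) x ν β γ (m + 1) a b +
        (r + 3 / 2) * rs r x ν β γ (m + 1) a b =
      -ν * (m + 1) * rs (r + 1) x ν β γ (m + 1 + 1) a b -
        a * β * rs (r + 1) x ν β γ (m + 1) (a + 1) b -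
        b * γ * rs (r + 1) x ν β γ (m + 1) a (b + 1) := by
  have k := step (gs (r + 1) x ν) h1 h2 m a b
  rw [thg r h, mul_assoc (C _), mul_assoc (C _), coeff_C_mul, sub_mul, sub_mul, map_sub] at k
  simp only [rs, Nat.add_sub_cancel]
  linear_combination k

/-- the lowering form of the combination -/
theorem low (ρ : ℕ) (A B : ℝ) (R : ℕ → ℕ → ℕ → ℝ)
    (H : ∀ r k l : ℕ, 1 ≤ k → 1 ≤ l → ((ρ : ℝ) + k + l - (r + 3 / 2)) * R (r + 1) k l +
      (r + 3 / 2) * R r k l = k * A * R (r + 1) (k + 1) l + l * B * R (r + 1) k (l + 1))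
    (j : ℕ) : ∀ k l : ℕ, 1 ≤ k → 1 ≤ l → j ≤ ρ →
      rc A B (R ρ) j k l = ∑ i ∈ Finset.range (j + 1), cj ρ (k + l + j - 2) j i * R (ρ - i) k l := by
  induction j with
  | zero => intro k l _ _ _; simp [rc, cj]
  | succ j ih =>
    intro k l hk hl hj
    obtain ⟨m, hm⟩ : ∃ m, k + l + j = m + 1 := ⟨k + l + j - 1, by omega⟩
    have hm' : (k : ℝ) + l + j = m + 1 := by exact_mod_cast hm
    rw [rc, ih (k + 1) l (by omega) hl (by omega), ih k (l + 1) hk (by omega) (by omega),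
      show k + 1 + l + j - 2 = m by omega, show k + (l + 1) + j - 2 = m by omega,
      show k + l + (j + 1) - 2 = m by omega, div_eq_iff (by positivity), Finset.mul_sum,
      Finset.mul_sum, ← Finset.sum_add_distrib, Finset.sum_mul]
    have e : ∑ i ∈ Finset.range (j + 1 + 1), cj ρ m (j + 1) i * R (ρ - i) k l * ((j : ℝ) + 1) =
        ∑ i ∈ Finset.range (j + 1 + 1), ((j : ℝ) + 1 - i) * (cj ρ m (j + 1) i * R (ρ - i) k l) +
        ∑ i ∈ Finset.range (j + 1 + 1), (i : ℝ) * (cj ρ m (j + 1) i * R (ρ - i) k l) := by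
      rw [← Finset.sum_add_distrib]
      exact Finset.sum_congr rfl fun i _ => by ring
    rw [e, Finset.sum_range_succ _ (j + 1), Finset.sum_range_succ' _ (j + 1)]
    push_cast
    rw [sub_self, zero_mul, zero_mul, add_zero, add_zero, ← Finset.sum_add_distrib]
    refine Finset.sum_congr rfl fun i hi => ?_
    obtain ⟨t, rfl⟩ : ∃ t, j = i + t := ⟨j - i, by have := Finset.mem_range.1 hi; omega⟩
    obtain ⟨r, rfl⟩ : ∃ r, ρ = i + r + 1 := ⟨ρ - i - 1, by omega⟩
    have k0 := H r k l hk hl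
    have k1 := INT.choose_step ((m : ℝ) + 1 / 2) t
    have k2 := INT.choose_step (((i + r + 1 : ℕ) : ℝ) + 1 / 2) i
    simp only [cj]
    rw [show i + r + 1 - i = r + 1 by omega, show i + r + 1 - (i + 1) = r by omega,
      show i + t - i = t by omega, show i + t + 1 - i = t + 1 by omega,
      show i + t + 1 - (i + 1) = t by omega]
    generalize Ring.choose (((i + r + 1 : ℕ) : ℝ) + 1 / 2) i = u at k2 ⊢
    generalize Ring.choose (((i + r + 1 : ℕ) : ℝ) + 1 / 2) (i + 1) = u' at k2 ⊢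
    push_cast at k0 k2 hm' ⊢
    linear_combination (-(Ring.choose ((m : ℝ) + 1 / 2) t * u)) * k0 -
      (u * R (r + 1) k l) * k1 - (Ring.choose ((m : ℝ) + 1 / 2) t * R r k l) * k2 +
      (Ring.choose ((m : ℝ) + 1 / 2) t * u * R (r + 1) k l) * hm'

theorem cut {f g : ℝ⟦X⟧} (P Q : ℝ⟦X⟧) (n : ℕ) (h : ∀ i ≤ n, coeff i f = coeff i g) :
    coeff n (f * P * Q) = coeff n (g * P * Q) := by
  rw [mul_assoc, mul_assoc, coeff_mul, coeff_mul]
  refine Finset.sum_congr rfl fun p hp => ?_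
  rw [h p.1 (by have := Finset.mem_antidiagonal.1 hp; omega)]

theorem zero (ρ : ℕ) (x : ℝ) {A B : ℝ} (hA : A ≠ 0) (hB : B ≠ 0) (j : ℕ) : ∀ k l : ℕ, 1 ≤ k →
    rc A B (fun k l => rs ρ x 0 (-B) (-A) (ρ + 1) l k) j k l =
      coeff ρ (G0 ρ (ρ + k + l + j - 1) j x * iv B ^ l * iv A ^ k) := by
  induction j with
  | zero =>
    intro k l _
    simp only [rc, rs, Nat.add_sub_cancel, zero_sub, neg_neg]
    refine cut _ _ _ fun i _ => ?_
    simp [gs, G0]
  | succ j ih =>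
    intro k l hk
    have k0 := step (G0 ρ (ρ + k + l + j) j x) (ν := 0) (β := -B) (γ := -A) (by simpa using hB)
      (by simpa using hA) ρ l k
    simp only [zero_sub, neg_neg] at k0
    have k1 := cut (f := C ((ρ : ℝ) + l + k) * G0 ρ (ρ + k + l + j) j x -
      th 0 (G0 ρ (ρ + k + l + j) j x)) (g := C ((j : ℝ) + 1) * G0 ρ (ρ + k + l + j) (j + 1) x)
      (iv B ^ l) (iv A ^ k) ρ fun i hi => by
        obtain ⟨t, ht⟩ : ∃ t, ρ + k + l = i + t := ⟨ρ + k + l - i, by omega⟩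
        have ht' : (ρ : ℝ) + k + l = i + t := by exact_mod_cast ht
        have e : (((t + j).choose (j + 1) : ℕ) : ℝ) * (j + 1) = ((t + j).choose j : ℕ) * t := by
          have := Nat.choose_succ_right_eq (t + j) j
          rw [Nat.add_sub_cancel] at this
          exact_mod_cast this
        rw [map_sub, cth, coeff_C_mul, coeff_C_mul]
        simp only [G0, coeff_mk]
        rw [show ρ + k + l + j - i = t + j by omega]
        linear_combination (-(Ring.choose ((ρ : ℝ) + 1 / 2) i * x ^ i)) * e +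
          (Ring.choose ((ρ : ℝ) + 1 / 2) i * x ^ i * ((t + j).choose j : ℕ)) * ht'
    rw [sub_mul, sub_mul, map_sub, mul_assoc (C _), mul_assoc (C _), mul_assoc (C _),
      mul_assoc (C _), coeff_C_mul, coeff_C_mul] at k1
    rw [rc, ih (k + 1) l (by omega), ih k (l + 1) hk, div_eq_iff (by positivity),
      show ρ + (k + 1) + l + j - 1 = ρ + k + l + j by omega,
      show ρ + k + (l + 1) + j - 1 = ρ + k + l + j by omega,
      show ρ + k + l + (j + 1) - 1 = ρ + k + l + j by omega]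
    linear_combination k1 - k0

theorem vdm (ρ m j : ℕ) :
    ∑ i ∈ Finset.range (j + 1), cj ρ m j i = ((ρ + m + 1).choose j : ℕ) := by
  rw [← Ring.choose_natCast (R := ℝ),
    show ((ρ + m + 1 : ℕ) : ℝ) = ((ρ : ℝ) + 1 / 2) + ((m : ℝ) + 1 / 2) by push_cast; ring,
    Ring.add_choose_eq j (Commute.all _ _), Finset.Nat.sum_antidiagonal_eq_sum_range_succ_mk]
  exact Finset.sum_congr rfl fun i _ => mul_comm _ _

end HJID

open HJID in
theorem jid : S_JID := by
  intro ρ j kp kq x A B hp hq hj hA hB hAB h1 h2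
  have a0 : (0 : ℝ) - -A ≠ 0 := by simpa using hA
  have b0 : (0 : ℝ) - -B ≠ 0 := by simpa using hB
  have a1 : -A - 0 ≠ 0 := by simpa using hA
  have b1 : -B - 0 ≠ 0 := by simpa using hB
  have ab : -A - -B ≠ 0 := fun h => hAB (by linarith)
  have ba : -B - -A ≠ 0 := fun h => hAB (by linarith)
  refine ⟨zero ρ x hA hB j kp kq hp,
    low ρ A B (fun r k l => rs r x 0 (-B) (-A) (ρ + 1) l k) (fun r k l _ _ => ?_) j kp kq hp hq hj,
    low ρ A B (fun r k l => rs r x (-B) 0 (-A) l (ρ + 1) k) (fun r k l _ hl => ?_) j kp kq hp hq hj,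
    low ρ A B (fun r k l => rs r x (-A) 0 (-B) k (ρ + 1) l) (fun r k l hk _ => ?_) j kp kq hp hq hj,
    ?_⟩
  · have k0 := rss r (x := x) (ν := 0) (by simp) b0 a0 ρ l k
    linear_combination k0
  · obtain ⟨m, rfl⟩ : ∃ m, l = m + 1 := ⟨l - 1, by omega⟩
    have k0 := rss r h2 b1 ba m (ρ + 1) k
    push_cast at k0 ⊢
    linear_combination k0
  · obtain ⟨m, rfl⟩ : ∃ m, k = m + 1 := ⟨k - 1, by omega⟩
    have k0 := rss r h1 a1 ab m (ρ + 1) l
    push_cast at k0 ⊢
    linear_combination k0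
  · rw [vdm, show ρ + (kp + kq + j - 2) + 1 = ρ + kp + kq + j - 1 by omega]

end Pool.Agent.MP_2339ce_nt.Q2

end
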