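import Pool.Agent.MP_2339ce_nt.Q2.SpecH4

/-! `D(-N)`-quintuples, block HP: integrality of the shifted forms. -/

set_option autoImplicit false

noncomputable section

namespace Pool.Agent.MP_2339ce_nt.Q2

open DQ DQ.INT DQ.NINTN PowerSeries Real

namespace HJINT

open HG

theorem lin (A B u v w : ℝ) (F G H : ℕ → ℕ → ℝ) (j kp kq : ℕ) :
    rc A B (fun k l => u * F k l + v * G k l + w * H k l) j kp kq =
      u * rc A B F j kp kq + v * rc A B G j kp kq + w * rc A B H j kp kq := by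
  induction j generalizing kp kq with
  | zero => rfl
  | succ j ih => simp only [rc, ih]; ring

theorem gen3 (k l m : ℕ) (z y : ℕ → ℕ) (hy : ∀ h, 0 < y h)
    (H : ∀ h ≤ k, ct1 (z h) (y h) l m (k - h) = true) (f : ℝ⟦X⟧) {S w c₁ c₂ : ℝ} (u1 u2 : ℤ)
    (h1 : c₁ ≠ 0) (h2 : c₂ ≠ 0) (hw1 : w = u1 * c₁) (hw2 : w = u2 * c₂)
    (hf : ∀ h ≤ k, ∃ n ∈ ZR, S * coeff h f * w ^ h = z h / y h * n) :
    S * (c₁ ^ (l + 1) * c₂ ^ (m + 1) * coeff k (f * iv c₁ ^ (l + 1) * iv c₂ ^ (m + 1)) * w ^ k) ∈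
      ZR := by
  have e : f * ((C c₁ * iv c₁) ^ (l + 1) * (C c₂ * iv c₂) ^ (m + 1)) =
      C (c₁ ^ (l + 1) * c₂ ^ (m + 1)) * (f * iv c₁ ^ (l + 1) * iv c₂ ^ (m + 1)) := by
    rw [map_mul, map_pow C c₁, map_pow C c₂, mul_pow, mul_pow]
    ring
  rw [← coeff_C_mul, ← e, coeff_mul, Finset.sum_mul, Finset.mul_sum]
  refine sum_mem fun x hx => ?_
  rw [coeff_mul _ (_ ^ (l + 1)), Finset.mul_sum, Finset.sum_mul, Finset.mul_sum]
  refine sum_mem fun y' hy' => ?_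
  obtain ⟨h, n⟩ := x
  obtain ⟨i, j⟩ := y'
  obtain rfl : h + n = k := Finset.mem_antidiagonal.1 hx
  obtain rfl : i + j = n := Finset.mem_antidiagonal.1 hy'
  have z' := Nat.eq_of_beq_eq_true (allLe_le (H h (by omega)) i (by omega))
  rw [show h + (i + j) - h - i = j by omega] at z'
  obtain ⟨s, z0⟩ := Nat.dvd_of_mod_eq_zero z'
  have z1 := congrArg (Nat.cast : ℕ → ℝ) z0
  have z2 : (0 : ℝ) < y h := by exact_mod_cast hy h
  have c1 := civ h1 u1 hw1 l i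
  have c2 := civ h2 u2 hw2 m j
  obtain ⟨n, hn, c3⟩ := hf h (by omega)
  dsimp only
  generalize coeff i ((C c₁ * iv c₁) ^ (l + 1)) = X at c1
  generalize coeff j ((C c₂ * iv c₂) ^ (m + 1)) = Y at c2
  generalize coeff h f = Z at c3
  have : S * (Z * (X * Y) * w ^ (h + (i + j))) =
      s * (n * ((-(u1 : ℝ)) ^ i * (-(u2 : ℝ)) ^ j)) := by
    rw [show S * (Z * (X * Y) * w ^ (h + (i + j))) = S * Z * w ^ h * (X * w ^ i * (Y * w ^ j)) by
      ring, c1, c2, c3]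
    push_cast at z1
    rw [show (s : ℝ) = z h * bn l i * bn m j / y h by rw [z1]; field_simp]
    ring
  rw [this]
  exact mul_mem (natCast_mem _ s) (mul_mem hn (mul_mem (pow_mem (neg_mem (int_mem u1)) _)
    (pow_mem (neg_mem (int_mem u2)) _)))

theorem zero (ρ a b j g : ℕ) (N p q d : ℤ) (g0 : 0 < g) (H : CtJ0 ρ (a + 1) (b + 1) j g)
    (hN : 0 < N) (hp : 0 < p) (hq : 0 < q) (hd : 0 < d) : scN ρ (a + 1) (b + 1) N p q d / g *
      coeff ρ (G0 ρ (ρ + (a + 1) + (b + 1) + j - 1) j (1 / d) * iv (N / q) ^ (b + 1) *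
        iv (N / p) ^ (a + 1)) ∈ ZR := by
  have p0 : (p : ℝ) ≠ 0 := by exact_mod_cast hp.ne'
  have q0 : (q : ℝ) ≠ 0 := by exact_mod_cast hq.ne'
  have n0 : (N : ℝ) ≠ 0 := by exact_mod_cast hN.ne'
  have d0 : (d : ℝ) ≠ 0 := by exact_mod_cast hd.ne'
  have z3 : (0 : ℝ) < g := by exact_mod_cast g0
  have h := gen3 ρ b a _ _ (fun h => Nat.mul_pos (dn_pos h) g0) (allLe_le H)
    (G0 ρ (ρ + (a + 1) + (b + 1) + j - 1) j (1 / d)) (S := 4 ^ ρ / g * d ^ ρ) (w := N)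
    (c₁ := N / q) (c₂ := N / p) q p (div_ne_zero n0 q0) (div_ne_zero n0 p0) (by field_simp)
    (by field_simp) fun h hh => by
      obtain ⟨t, rfl⟩ := Nat.exists_eq_add_of_le hh
      refine ⟨_, mul_mem (pow_mem (int_mem d) t) (pow_mem (int_mem N) h), ?_⟩
      have z2 : (0 : ℝ) < dn h := by exact_mod_cast dn_pos h
      rw [G0, coeff_mk, cq_eq _ _ hh, bn_eq, show j + (h + t + (a + 1) + (b + 1) - 1 - h) =
        h + t + (a + 1) + (b + 1) + j - 1 - h by omega]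
      push_cast
      simp only [div_pow, pow_add, one_pow]
      field_simp
  generalize coeff ρ (G0 ρ (ρ + (a + 1) + (b + 1) + j - 1) j (1 / d) * iv ((N : ℝ) / q) ^ (b + 1) *
    iv ((N : ℝ) / p) ^ (a + 1)) = R at h ⊢
  convert mul_mem h (pow_mem (sub_mem (int_mem q) (int_mem p)) (a + 1 + (b + 1) - 1)) using 1
  rw [scN]
  generalize ((q : ℝ) - p) ^ (a + 1 + (b + 1) - 1) = E
  simp only [div_pow, pow_add]
  field_simp

theorem side1 (ρ a b j g i : ℕ) (N p q d : ℤ) (h3 : b + j ≤ ρ) (hi : i ≤ j) (g0 : 0 < g)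
    (H : CtJ1 ρ (b + 1) (a + 1) j g) (hN : 0 < N) (hp : 0 < p) (hq : 0 < q) (hd : 0 < d)
    (h0 : q ≠ p) : scN ρ (a + 1) (b + 1) N p q d / g * (cj ρ (b + 1 + (a + 1) + j - 2) j i *
      rs (ρ - i) (1 / d) (-N / q) 0 (-N / p) (b + 1) (ρ + 1) (a + 1)) / q ∈ ZR := by
  have p0 : (p : ℝ) ≠ 0 := by exact_mod_cast hp.ne'
  have q0 : (q : ℝ) ≠ 0 := by exact_mod_cast hq.ne'
  have n0 : (N : ℝ) ≠ 0 := by exact_mod_cast hN.ne'
  have d0 : (d : ℝ) ≠ 0 := by exact_mod_cast hd.ne'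
  have z3 : (0 : ℝ) < g := by exact_mod_cast g0
  have D0 : (q : ℝ) - p ≠ 0 := by exact_mod_cast sub_ne_zero.2 h0
  have e1 : (-N : ℝ) / q - -N / p = N * (q - p) / (p * q) := by field_simp; ring
  have h := gen3 b ρ a _ _ (fun h => Nat.mul_pos (Nat.mul_pos (Nat.mul_pos (dn_pos (j - i))
    (dn_pos i)) (dn_pos h)) g0) (allLe_le (allLe_le H i hi)) (gs (ρ - i) (1 / d) (-N / q))
    (S := 4 ^ ρ / g * (q * d) ^ ρ * cj ρ (b + 1 + (a + 1) + j - 2) j i)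
    (w := -1 * (N * (q - p) / q)) (c₁ := -N / q - 0) (c₂ := -N / q - -N / p) (q - p) (-p)
    (by rw [sub_zero]; exact div_ne_zero (neg_ne_zero.2 n0) q0)
    (by rw [e1]; exact div_ne_zero (mul_ne_zero n0 D0) (mul_ne_zero p0 q0))
    (by push_cast; ring) (by rw [e1]; push_cast; field_simp) fun h hh => by
      obtain ⟨t, rfl⟩ : ∃ t, ρ = i + h + t := Nat.exists_eq_add_of_le (by omega)
      refine ⟨_, mul_mem (mul_mem (pow_mem (mul_mem (int_mem q) (int_mem d)) i)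
        (pow_mem (sub_mem (mul_mem (int_mem q) (int_mem d)) (int_mem N)) t))
        (pow_mem (neg_mem (mul_mem (int_mem N) (sub_mem (int_mem q) (int_mem p)))) h), ?_⟩
      have z2 : ∀ h, (0 : ℝ) < dn h := fun h => by exact_mod_cast dn_pos h
      have z4 := z2 h
      have z5 := z2 i
      have z6 := z2 (j - i)
      have e2 : ((h + t : ℕ) : ℤ) - h = (t : ℕ) := by push_cast; ring
      have e3 : (1 + (-N : ℝ) / q * (1 / d)) = (q * d - N) / (q * d) := by field_simp; ring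
      have e4 : -1 * ((N : ℝ) * (q - p) / q) = -(N * (q - p)) / q := by ring
      rw [show i + h + t - i = h + t by omega, gs, coeff_mk, e2, zpow_natCast, e3, e4, cj,
        cq_eq _ h (by omega), cq_eq _ i (by omega), cq_eq _ (j - i) (by omega)]
      push_cast
      generalize -((N : ℝ) * (q - p)) = M
      simp only [div_pow, mul_pow, pow_add, one_pow]
      field_simp
  change _ * (_ * rs (ρ - i) (1 / d) (-N / q) 0 (-N / p) (b + 1) (ρ + 1) (a + 1) * _) ∈ _ at h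
  rw [e1, sub_zero] at h
  generalize rs (ρ - i) (1 / d) (-N / q) 0 (-N / p) (b + 1) (ρ + 1) (a + 1) = R at h ⊢
  generalize cj ρ (b + 1 + (a + 1) + j - 2) j i = c at h ⊢
  obtain ⟨j, rfl⟩ := Nat.exists_eq_add_of_le (show b ≤ ρ by omega)
  have h' := mul_mem h (mul_mem (sg_mem (j + 1)) (pow_mem (int_mem q) a))
  have e7 : ∀ n : ℕ, ((-1 : ℝ)) ^ n * (-1) ^ n = 1 := fun n => by rw [← mul_pow]; simp
  have e8 := e7 b
  have e9 := e7 j
  convert h' using 1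
  rw [scN, show a + 1 + (b + 1) - 1 = a + b + 1 by omega,
    show (-N : ℝ) / q = -1 * (N / q) by ring]
  generalize (q : ℝ) - p = D
  simp only [div_pow, mul_pow, pow_add, pow_one]
  generalize ((-1 : ℝ)) ^ b = x at e8 ⊢
  generalize ((-1 : ℝ)) ^ j = y at e9 ⊢
  refine (show ∀ v : ℝ, v = v * (x * x) * (y * y) from fun v => by
    rw [e8, e9, mul_one, mul_one]) _ |>.trans ?_
  field_simp

theorem side (ρ a b j g : ℕ) (N p q d : ℤ) (h3 : b + j ≤ ρ) (g0 : 0 < g)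
    (H : CtJ1 ρ (b + 1) (a + 1) j g) (hN : 0 < N) (hp : 0 < p) (hq : 0 < q) (hd : 0 < d)
    (h0 : q ≠ p) : scN ρ (a + 1) (b + 1) N p q d / g * (∑ i ∈ Finset.range (j + 1),
      cj ρ (b + 1 + (a + 1) + j - 2) j i *
        rs (ρ - i) (1 / d) (-N / q) 0 (-N / p) (b + 1) (ρ + 1) (a + 1)) / q ∈ ZR := by
  rw [Finset.mul_sum, Finset.sum_div]
  exact sum_mem fun i hi => side1 ρ a b j g i N p q d h3
    (Nat.lt_succ_iff.1 (Finset.mem_range.1 hi)) g0 H hN hp hq hd h0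

end HJINT

theorem jint (h : S_JID) : S_JINT := by
  intro ρ kp kq j g N p q d e a1 a2 a3 a4 H c
  have q0 : 0 < q := c.p0.trans c.pq
  have hd : 0 < d := q0.trans c.qd
  have p1 : (0 : ℝ) < p := by exact_mod_cast c.p0
  have q1 : (0 : ℝ) < q := by exact_mod_cast q0
  have d1 : (0 : ℝ) < d := by exact_mod_cast hd
  have e0 : (0 : ℝ) < e := by exact_mod_cast hd.trans_le c.de
  have n1 : (1 : ℝ) ≤ N := by exact_mod_cast c.n1
  have pq : (p : ℝ) < q := by exact_mod_cast c.pq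
  have bg : 10000 * (N : ℝ) ≤ d := by exact_mod_cast c.big
  have nz : ∀ r : ℤ, 0 < r → 1 + -((N : ℝ) / r) * (1 / d) ≠ 0 := fun r hr => by
    have r1 : (1 : ℝ) ≤ r := by exact_mod_cast hr
    have : (N : ℝ) / r * (1 / d) < 1 := by
      rw [div_mul_div_comm, div_lt_one (by positivity)]
      nlinarith
    linarith [neg_mul ((N : ℝ) / r) (1 / d)]
  obtain ⟨k0, -, k1, k2, -⟩ := h ρ j kp kq (1 / d) (N / p) (N / q) a1 a2 (by omega)
    (by positivity) (by positivity) (ne_of_gt (by gcongr)) (nz p c.p0) (nz q q0)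
  simp only [← neg_div] at k0 k1 k2
  obtain ⟨kp, rfl⟩ := Nat.exists_eq_add_of_le' a1
  obtain ⟨kq, rfl⟩ := Nat.exists_eq_add_of_le' a2
  obtain ⟨i1, e1⟩ := HJINT.zero ρ kp kq j g N p q d H.1 H.2.1 c.n1 c.p0 q0 hd
  obtain ⟨i2, e2⟩ := HJINT.side ρ kp kq j g N p q d (by omega) H.1 H.2.2.1 c.n1 c.p0 q0
    hd c.pq.ne'
  obtain ⟨i3, e3⟩ := mul_mem (sg_mem (kp + 1 + (kq + 1) - 1)) (HJINT.side ρ kq kp j g N q p d
    (by omega) H.1 H.2.2.2 c.n1 q0 c.p0 hd c.pq.ne)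
  rw [← mul_div_assoc, ← mul_assoc, ← mul_div_assoc, ← swap, ← k2] at e3
  rw [add_comm (kq + 1) (kp + 1), ← k1] at e2
  rw [← k0] at e1
  simp only [eq_intCast] at e1 e2 e3
  obtain ⟨z0, f0⟩ := DICH.sq_int c.sq
  obtain ⟨z1, f1⟩ := DICH.sq_int c.se
  obtain ⟨z2, f2⟩ := DICH.sq_int c.sd
  obtain ⟨z3, f3⟩ := DICH.sq_int c.pe
  obtain ⟨z4, f4⟩ := DICH.sq_int c.pd
  push_cast at f0 f1 f2 f3 f4
  have g0 := DICH.one (n := -N) (mul_pos d1 e0)
  have g1 := DICH.two (n := -N) q1 d1 e0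
  have g2 := DICH.two (n := -N) p1 d1 e0
  rw [f0] at g0
  rw [f1, f2] at g1
  rw [f3, f4] at g2
  refine ⟨z0 * i1 + z1 * z2 * i2 + z3 * z4 * i3, ?_⟩
  push_cast
  rw [e1, e2, e3, ← g0, wwJ]
  simp only [ww, SS, zero_mul, add_zero, sqrt_one, one_mul, ← mul_assoc]
  rw [HJINT.lin]
  generalize scN ρ (kp + 1) (kq + 1) N p q d / g = S
  generalize rc ((N : ℝ) / p) (N / q) (fun k l => rs ρ (1 / d) (-N / q) 0 (-N / p) l (ρ + 1) k) j
    (kp + 1) (kq + 1) = R1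
  generalize rc ((N : ℝ) / p) (N / q) (fun k l => rs ρ (1 / d) (-N / p) 0 (-N / q) k (ρ + 1) l) j
    (kp + 1) (kq + 1) = R2
  linear_combination (S * R1) * g1 + (S * R2) * g2

end Pool.Agent.MP_2339ce_nt.Q2

end
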