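import Pool.Agent.MP_2339ce_nt.Q2.SpecH4

/-! `D(-N)`-quintuples, block HP: the main term of the shifted forms. -/

set_option autoImplicit false

noncomputable section

namespace Pool.Agent.MP_2339ce_nt.Q2

open DQ Real

namespace HJM

theorem add3 (A B : ℝ) (F G H : ℕ → ℕ → ℝ) (j kp kq : ℕ) :
    rc A B (fun k l => F k l + G k l + H k l) j kp kq =
      rc A B F j kp kq + rc A B G j kp kq + rc A B H j kp kq := by
  induction j generalizing kp kq with
  | zero => rfl
  | succ j ih => simp only [rc, ih]; ring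

theorem mul (A B c : ℝ) (F : ℕ → ℕ → ℝ) (j kp kq : ℕ) :
    rc A B (fun k l => c * F k l) j kp kq = c * rc A B F j kp kq := by
  induction j generalizing kp kq with
  | zero => rfl
  | succ j ih => simp only [rc, ih]; ring

theorem mono {A B : ℝ} (hA : 0 ≤ A) (hB : 0 ≤ B) {F G : ℕ → ℕ → ℝ} (j kp kq : ℕ)
    (h : ∀ k l, kp ≤ k → kq ≤ l → k + l = kp + kq + j → F k l ≤ G k l) :
    rc A B F j kp kq ≤ rc A B G j kp kq := by
  induction j generalizing kp kq with
  | zero => exact h kp kq le_rfl le_rfl rfl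
  | succ j ih =>
    have h1 := ih (kp + 1) kq fun k l a b c => h k l (by omega) b (by omega)
    have h2 := ih kp (kq + 1) fun k l a b c => h k l a (by omega) (by omega)
    simp only [rc]
    gcongr

theorem low {A B : ℝ} (hA : 0 ≤ A) (hB : 0 ≤ B) (j kp kq : ℕ) :
    ((kp + j - 1).choose j : ℕ) * A ^ j ≤ rc A B (fun _ _ => 1) j kp kq := by
  induction j generalizing kp kq with
  | zero => simp [rc]
  | succ j ih =>
    have h1 := mul_le_mul_of_nonneg_left (ih (kp + 1) kq) (by positivity : 0 ≤ kp * A)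
    have h2 : 0 ≤ kq * B * rc A B (fun _ _ => 1) j kp (kq + 1) :=
      mul_nonneg (by positivity) (le_trans (by positivity) (ih kp (kq + 1)))
    have h3 := congrArg (Nat.cast : ℕ → ℝ) (Nat.choose_succ_right_eq (kp + j) j)
    rw [show kp + 1 + j - 1 = kp + j by omega] at h1
    rw [Nat.add_sub_cancel] at h3
    rw [rc, show kp + (j + 1) - 1 = kp + j by omega, le_div_iff₀ (by positivity)]
    push_cast at h3
    calc _ = kp * A * (((kp + j).choose j : ℕ) * A ^ j) := by
          linear_combination A ^ (j + 1) * h3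
      _ ≤ _ := by linarith

theorem up {A B : ℝ} {l : ℚ} (hA : 0 ≤ A) (hB : 0 ≤ B) (h : B ≤ l * A) (j kp kq : ℕ) :
    rc A B (fun _ _ => 1) j kp kq ≤ A ^ j * (rc (1 : ℚ) l (fun _ _ => 1) j kp kq : ℚ) := by
  induction j generalizing kp kq with
  | zero => simp [rc]
  | succ j ih =>
    have h0 : 0 ≤ rc A B (fun _ _ => 1) j kp (kq + 1) :=
      le_trans (by positivity) (low hA hB j kp (kq + 1))
    have h1 := ih (kp + 1) kq
    have h2 := ih kp (kq + 1)
    have h3 := hB.trans h
    simp only [rc]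
    calc _ ≤ (kp * A * (A ^ j * (rc (1 : ℚ) l (fun _ _ => 1) j (kp + 1) kq : ℚ)) +
          kq * (l * A) * (A ^ j * (rc (1 : ℚ) l (fun _ _ => 1) j kp (kq + 1) : ℚ))) / (j + 1) := by
          gcongr
      _ = _ := by push_cast; ring

end HJM

theorem jm (hA : S_TA) : S_JM := by
  intro ρ kp kq j N p q d e l h hl
  have p0 : 0 < p := one_pos.trans_le h.one
  have q0 : 0 < q := p0.trans h.pq
  have d0 : 0 < d := by linarith [h.qd]
  have a0 : 0 ≤ N / p := (div_pos h.n0 p0).le
  have b0 : 0 ≤ N / q := (div_pos h.n0 q0).le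
  have ab : N / q ≤ l * (N / p) := by
    rw [← mul_div_assoc, div_le_div_iff₀ q0 p0]
    nlinarith [h.n0]
  have e0 : 0 < eta (ρ + kp + kq + j) := by unfold eta; positivity
  have c0 : 0 ≤ be ρ (ρ + kp + kq + j) := abs_nonneg _
  have key : ∀ k l, kp ≤ k → kq ≤ l → k + l = kp + kq + j →
      be ρ (ρ + kp + kq + j) / eta (ρ + kp + kq + j) / d ^ (ρ + kp + kq + j) * 1 ≤
        (-1) ^ (kp + kq + j + 1) * tm ρ k l N p q d e ∧
      (-1) ^ (kp + kq + j + 1) * tm ρ k l N p q d e ≤
        be ρ (ρ + kp + kq + j) * eta (ρ + kp + kq + j) / d ^ (ρ + kp + kq + j) * 1 := by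
    intro k l a b c
    have := h.jp
    have := h.jq
    have := h.p1
    have := h.k2
    have := h.big
    have t := hA ρ k l N p q d e ⟨⟨by omega, by omega, by omega, by omega⟩, by omega, by omega,
      h.n0, h.one, h.pq, h.qd, h.de, h.nd⟩
    rw [show ρ + k + l = ρ + kp + kq + j by omega, c] at t
    rw [mul_one, mul_one]
    exact ⟨t.1, t.2.1⟩
  have k1 := HJM.mono a0 b0 j kp kq fun k l a b c => (key k l a b c).1
  have k2 := HJM.mono a0 b0 j kp kq fun k l a b c => (key k l a b c).2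
  rw [HJM.mul, HJM.mul] at k1 k2
  refine ⟨?_, le_trans ?_ k1, k2.trans ?_⟩
  · rw [tmJ, t0J, tpJ, ← HJM.add3, wwJ]
    congr 1
    funext k l
    rw [ww, tm, t0, tp, SS, SS, zero_mul, add_zero, sqrt_one]
    ring
  · refine le_trans (le_of_eq (by ring))
      (mul_le_mul_of_nonneg_left (HJM.low a0 b0 j kp kq) (by positivity))
  · refine le_trans (mul_le_mul_of_nonneg_left (HJM.up a0 b0 ab j kp kq) (by positivity))
      (le_of_eq (by ring))

end Pool.Agent.MP_2339ce_nt.Q2

end
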