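import Pool.Agent.MP_2339ce_nt.Q2.SpecH4
import Pool.Agent.MP_2339ce_nt.Q2.HTA
import Pool.Agent.MP_2339ce_nt.Q2.HTL
import Pool.Agent.MP_2339ce_nt.Q2.HTU

/-! `D(-N)`-quintuples, block HP, row JP: the error of the shifted forms at the node `-N / p`. -/

set_option autoImplicit false

noncomputable section

namespace Pool.Agent.MP_2339ce_nt.Q2

open DQ DQ.Sgn DQ.NNZC PowerSeries Real

namespace HJP

theorem rc_mul (A B c : ℝ) (F : ℕ → ℕ → ℝ) (j kp kq : ℕ) :
    rc A B (fun k l => c * F k l) j kp kq = c * rc A B F j kp kq := by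
  induction j generalizing kp kq with
  | zero => rfl
  | succ j ih => rw [rc, rc, ih, ih]; ring

theorem cj_nn {ρ m j i : ℕ} (h1 : j ≤ m) (h2 : j ≤ ρ) (hi : i ∈ Finset.range (j + 1)) :
    0 ≤ cj ρ m j i := by
  have hi' : i ≤ j := Nat.lt_succ_iff.1 (Finset.mem_range.1 hi)
  have a : ((j - i : ℕ) : ℝ) ≤ m := Nat.cast_le.2 (by omega)
  have b : (i : ℝ) ≤ ρ := Nat.cast_le.2 (by omega)
  exact mul_nonneg (choose_nn _ _ (by linarith)) (choose_nn _ _ (by linarith))

theorem sum_low {s : Finset ℕ} {c F : ℕ → ℝ} {n lo σ : ℝ} (hc : ∀ i ∈ s, 0 ≤ c i)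
    (hn : ∑ i ∈ s, c i = n) (h : ∀ i ∈ s, lo ≤ σ * F i) : n * lo ≤ σ * ∑ i ∈ s, c i * F i := by
  rw [← hn, Finset.sum_mul, Finset.mul_sum]
  refine Finset.sum_le_sum fun i hi => ?_
  rw [mul_left_comm]
  exact mul_le_mul_of_nonneg_left (h i hi) (hc i hi)

theorem sum_up {s : Finset ℕ} {c F : ℕ → ℝ} {n u : ℝ} (hc : ∀ i ∈ s, 0 ≤ c i)
    (hn : ∑ i ∈ s, c i = n) (h : ∀ i ∈ s, |F i| ≤ u) : |∑ i ∈ s, c i * F i| ≤ n * u := by
  rw [← hn, Finset.sum_mul]
  refine (Finset.abs_sum_le_sum_abs _ _).trans (Finset.sum_le_sum fun i hi => ?_)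
  rw [abs_mul, abs_of_nonneg (hc i hi)]
  exact mul_le_mul_of_nonneg_left (h i hi) (hc i hi)

theorem lowq (r n k m : ℕ) {x A B c : ℝ} (hx : 0 < x) (hB : 0 < B) (hA : B < A) (c0 : 0 ≤ c)
    (ca : c ≤ 1 + -A * x) (h : m ≤ r) :
    c ^ r * (((m + k).choose m : ℕ) * (A - B)⁻¹ ^ (m + k + 1) * A⁻¹ ^ n) ≤
      (-1) ^ (n + (k + 1)) * rs r x (-A) 0 (-B) (m + 1) n (k + 1) := by
  have hW : 0 < A - B := by linarith
  have A0 : 0 < A := by linarith
  have e : (-1) ^ (n + (k + 1)) * rs r x (-A) 0 (-B) (m + 1) n (k + 1) =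
      coeff m (gs r x (-A) * (J (A - B) ^ (k + 1) * J A ^ n)) := by
    rw [rs, Nat.add_sub_cancel, sub_zero, show -A - -B = -(A - B) by ring, iv_neg A0.ne',
      iv_neg hW.ne', ← coeff_C_mul, neg_pow (J A), neg_pow (J _), map_pow, map_neg, map_one]
    congr 1
    have a : ∀ n : ℕ, (-1 : ℝ⟦X⟧) ^ n * (-1) ^ n = 1 := fun n => by rw [← mul_pow]; simp
    rw [pow_add (-1 : ℝ⟦X⟧) n]
    linear_combination (gs r x (-A) * (J (A - B) ^ (k + 1) * J A ^ n)) *
      ((-1 : ℝ⟦X⟧) ^ (k + 1) * (-1) ^ (k + 1) * a n + a (k + 1))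
  have nn := ((J_nn hW).pow (k + 1)).mul ((J_nn A0).pow n)
  rw [e, coeff_mul]
  refine le_trans ?_ (Finset.single_le_sum (a := (0, m)) (fun p hp => mul_nonneg ?_ (nn _))
    (Finset.mem_antidiagonal.2 (zero_add m)))
  · refine mul_le_mul ?_ (HTL.two A0 hW m k n) (by positivity) ?_
    · rw [gs, coeff_mk, Ring.choose_zero_right, pow_zero, Nat.cast_zero, sub_zero, zpow_natCast,
        one_mul, one_mul]
      exact pow_le_pow_left₀ c0 ca r
    · exact HTU.gs_nn hx.le (c0.trans ca) (Nat.zero_le r)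
  · exact HTU.gs_nn hx.le (c0.trans ca) ((fst_le hp).trans h)

theorem upa (h2 : S_BND3) {ρ r k m : ℕ} {x A B : ℝ} (hx : 0 < x) (hB : 0 < B) (hA : B < A)
    (ca : 0 ≤ 1 + -A * x) (h : m ≤ r) (hr : r ≤ ρ) :
    |rs r x (-A) 0 (-B) (m + 1) (ρ + 1) (k + 1)| ≤ ((m + k).choose m : ℕ) *
      (1 + x * (A - B)) ^ (ρ + 1) / ((A - B) ^ (m + k + 1) * B ^ (ρ + 1)) := by
  have hW : 0 < A - B := by linarith
  have A0 : 0 < A := by linarith
  have a3 : |-A - -B| = A - B := by rw [abs_sub_comm, neg_sub_neg, abs_of_pos hW]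
  have a4 : |-A - 0| = A := by rw [sub_zero, abs_neg, abs_of_pos A0]
  have rp := h2 r (m + 1) (k + 1) (ρ + 1) x (-A) (-B) 0 (by omega) (by omega) (by omega) hx ca
    (by nlinarith) (by rw [a3]; exact hW) (by rw [a3, a4]; linarith)
  rw [a3, a4, show A - (A - B) = B by ring, rs_comm, show m + 1 + (k + 1) - 2 = m + k by omega,
    Nat.add_sub_cancel, show m + 1 + (k + 1) - 1 = m + k + 1 by omega] at rp
  refine rp.trans ?_
  have : (1 + x * (A - B)) ^ (r + 1) ≤ (1 + x * (A - B)) ^ (ρ + 1) :=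
    pow_le_pow_right₀ (by nlinarith) (by omega)
  gcongr

theorem upb (h2 : S_BND3) {ρ r k m : ℕ} {x A B : ℝ} (hx : 0 < x) (hB : 0 < B) (hA : B < A)
    (ca : 0 ≤ 1 + -A * x) (h : m ≤ r) (hr : r ≤ ρ) :
    |rs r x (-A) 0 (-B) (m + 1) (ρ + 1) (k + 1)| ≤ ((A - B) / A) ^ (ρ + 1) *
      (((m + k + (ρ + 1)).choose m : ℕ) * (1 + x * (A - B)) ^ (ρ + 1) /
        (A - B) ^ (m + k + (ρ + 1) + 1)) := by
  have hW : 0 < A - B := by linarith
  have A0 : 0 < A := by linarith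
  have rp := (HTU.absneg (ρ := r) (n := m) (l := ρ + 1) (m := k + 1) (α := -A) (β := 0)
    (γ := -B) hx.le ca h A0 hW (by ring) (by ring)).trans_le
      ((congrArg _ (congrArg _ (mul_comm _ _))).trans_le
        (HTU.core h2 (l := k) hx ca (by nlinarith) h hW (by linarith)))
  refine rp.trans ?_
  have : (1 + x * (A - B)) ^ (r + 1) ≤ (1 + x * (A - B)) ^ (ρ + 1) :=
    pow_le_pow_right₀ (by nlinarith) (by omega)
  gcongr

end HJP

open HJP in
theorem jpb (h : S_JID) (h2 : S_BND3) : S_JP := by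
  intro ρ kp kq j N p q d e hR
  obtain ⟨m, rfl⟩ : ∃ m, kp = m + 1 := ⟨kp - 1, by have := hR.p1; omega⟩
  obtain ⟨k, rfl⟩ : ∃ k, kq = k + 1 := ⟨kq - 1, by have := hR.q1; omega⟩
  have jp := hR.jp
  have N0 := hR.n0
  have p1 := hR.one
  have pq := hR.pq
  have qd := hR.qd
  have de := hR.de
  have nd := hR.nd
  have p0 : 0 < p := by linarith
  have q0 : 0 < q := by linarith
  have d0 : 0 < d := by linarith
  have e0 : 0 < e := by linarith
  have x0 : 0 < 1 / d := by positivity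
  have lt : N / q < N / p := div_lt_div_of_pos_left N0 p0 pq
  have B0 : 0 < N / q := by positivity
  have sm : ∀ z : ℝ, d ≤ z → N / p / z ≤ 1 / 10000 := fun z hz => by
    rw [div_div, div_le_div_iff₀ (mul_pos p0 (d0.trans_le hz)) (by norm_num)]
    nlinarith
  have i1 : q / N = (N / q)⁻¹ := (inv_div _ _).symm
  have i2 : p / N = (N / p)⁻¹ := (inv_div _ _).symm
  have i3 : p * q / (N * (q - p)) = (N / p - N / q)⁻¹ := by
    rw [div_sub_div _ _ p0.ne' q0.ne', inv_div]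
    congr 1
    ring
  have et := HTL.eta_le (ρ := ρ) (σ := ρ + (m + 1) + (k + 1) + j) (by omega)
  have ef : (fun k l => tp ρ k l N p q d e) = fun k l =>
      ((√(1 + -(N / p / e)) - √(1 + -(N / q / e))) * √(1 + -(N / p) * (1 / d))) *
        rs ρ (1 / d) (-(N / p)) 0 (-(N / q)) k (ρ + 1) l := by
    funext k l
    rw [tp, ← div_div, ← div_div]
    simp only [neg_div]
    ring
  rw [tpJ, ef, rc_mul, i1, i2, i3, show m + 1 + (k + 1) - 2 = m + k by omega, Nat.add_sub_cancel,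
    show ρ + (m + 1) + (k + 1) - 1 = m + k + (ρ + 1) by omega, Nat.cast_mul, Nat.cast_mul]
  generalize N / p = A at *
  generalize N / q = B at *
  have A0 : 0 < A := by linarith
  have W0 : 0 < A - B := by linarith
  have s1 : A * (1 / d) ≤ 1 / 10000 := by simpa only [mul_one_div] using sm d le_rfl
  have s2 := sm e de
  have s3 : B * (1 / d) ≤ A * (1 / d) := by gcongr
  have s4 : B / e ≤ A / e := by gcongr
  have s7 : 0 < B / e := by positivity
  have s8 : 0 < B * (1 / d) := by positivity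
  obtain ⟨-, -, -, hs, hn⟩ := h ρ j (m + 1) (k + 1) (1 / d) A B (by omega) (by omega) (by omega)
    A0.ne' B0.ne' lt.ne' (by linarith) (by linarith)
  rw [hs]
  have hc : ∀ i ∈ Finset.range (j + 1), 0 ≤ cj ρ (m + 1 + (k + 1) + j - 2) j i :=
    fun i hi => cj_nn (by omega) (by omega) hi
  have hm : ∀ i ∈ Finset.range (j + 1), m ≤ ρ - i := fun i hi => by
    have := Finset.mem_range.1 hi; omega
  have n2 := NSIZEN.etaN (ρ := ρ) (σ := ρ + (m + 1) + (k + 1) + j) (u := 1 / d * (A - B))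
    (by positivity) (by linarith) (by omega)
  have f2 : |√(1 + -(A / e)) - √(1 + -(B / e))| ≤ 5001 / 10000 * ((A - B) / e) := by
    refine (TSIZE3.sqrt_sub (by linarith) (by linarith)).trans (le_of_eq ?_)
    rw [abs_sub_comm, neg_sub_neg, abs_of_nonneg (by linarith), sub_div]
  have f3 : |(√(1 + -(A / e)) - √(1 + -(B / e))) * √(1 + -A * (1 / d))| ≤
      5001 / 10000 * ((A - B) / e) := by
    rw [abs_mul]
    exact (mul_le_mul f2 (TSIZE3.sqrt_le (u := -A * (1 / d)) (by linarith)) (abs_nonneg _)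
      (by positivity)).trans_eq (mul_one _)
  have nn : (0 : ℝ) ≤ nJ ρ (m + 1) (k + 1) j := Nat.cast_nonneg _
  change _ = (nJ ρ (m + 1) (k + 1) j : ℝ) at hn
  generalize (nJ ρ (m + 1) (k + 1) j : ℝ) = n at *
  refine ⟨?_, ?_, ?_⟩
  · have l := sum_low (σ := (-1) ^ (ρ + 1 + (k + 1)))
      (F := fun i => rs (ρ - i) (1 / d) (-A) 0 (-B) (m + 1) (ρ + 1) (k + 1))
      (lo := (9999 / 10000) ^ ρ *
        (((m + k).choose m : ℕ) * (A - B)⁻¹ ^ (m + k + 1) * A⁻¹ ^ (ρ + 1))) hc hn fun i hi => by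
        refine le_trans ?_ (lowq (ρ - i) (ρ + 1) k m (c := 9999 / 10000) x0 B0 lt (by norm_num)
          (by linarith) (hm i hi))
        exact mul_le_mul_of_nonneg_right
          (pow_le_pow_of_le_one (by norm_num) (by norm_num) (Nat.sub_le _ _)) (by positivity)
    have f : (A / e - B / e) / 2 ≤ √(1 + -(B / e)) - √(1 + -(A / e)) :=
      sqrt_low (by linarith) s4 s7.le
    have t : 9999 / 10000 ≤ √(1 + -A * (1 / d)) := le_sqrt_of_sq_le (by linarith)
    have f0 : 0 ≤ (A / e - B / e) / 2 := by linarith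
    have g := mul_le_mul f (mul_le_mul t l (by positivity) (sqrt_nonneg _)) (by positivity)
      (f0.trans f)
    refine le_trans ?_ (g.trans_eq (by ring))
    generalize (eta (ρ + (m + 1) + (k + 1) + j)) = η at *
    calc _ = (A / e - B / e) / 2 * (η⁻¹ * (n *
          (((m + k).choose m : ℕ) * (A - B)⁻¹ ^ (m + k + 1) * A⁻¹ ^ (ρ + 1)))) := by
          rw [pow_succ (A - B)⁻¹, ← sub_div]; field_simp
      _ ≤ (A / e - B / e) / 2 * ((9999 / 10000) ^ (ρ + 1) * (n *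
          (((m + k).choose m : ℕ) * (A - B)⁻¹ ^ (m + k + 1) * A⁻¹ ^ (ρ + 1)))) := by gcongr
      _ = _ := by ring
  · have u := sum_up (F := fun i => rs (ρ - i) (1 / d) (-A) 0 (-B) (m + 1) (ρ + 1) (k + 1))
      hc hn fun i hi => upa h2 x0 B0 lt (by linarith) (hm i hi) (Nat.sub_le _ _)
    rw [abs_mul, eta]
    refine (mul_le_mul f3 u (abs_nonneg _) (by positivity)).trans ?_
    refine le_trans (le_of_eq ?_) ((mul_le_mul_of_nonneg_right n2 (show 0 ≤
      n * (((m + k).choose m : ℕ) : ℝ) * (B⁻¹ ^ (ρ + 1) * (A - B)⁻¹ ^ (m + k) / e) by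
        positivity)).trans (le_of_eq ?_))
    · generalize (1 + 1 / d * (A - B)) ^ (ρ + 1) = E
      generalize A - B = W at *
      simp only [inv_pow]
      field_simp
      ring
    · ring
  · have u := sum_up (F := fun i => rs (ρ - i) (1 / d) (-A) 0 (-B) (m + 1) (ρ + 1) (k + 1))
      hc hn fun i hi => upb h2 x0 B0 lt (by linarith) (hm i hi) (Nat.sub_le _ _)
    rw [abs_mul, eta]
    refine (mul_le_mul f3 u (abs_nonneg _) (by positivity)).trans ?_
    refine le_trans (le_of_eq ?_) ((mul_le_mul_of_nonneg_right n2 (show 0 ≤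
      n * (((m + k + (ρ + 1)).choose m : ℕ) : ℝ) * (A⁻¹ ^ (ρ + 1) * (A - B)⁻¹ ^ (m + k) / e) by
        positivity)).trans (le_of_eq ?_))
    · generalize (1 + 1 / d * (A - B)) ^ (ρ + 1) = E
      generalize A - B = W at *
      simp only [inv_pow, div_pow]
      field_simp
      ring
    · ring

end Pool.Agent.MP_2339ce_nt.Q2

end
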