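import Pool.Agent.MP_2339ce_nt.Q2.HB4
import Pool.Agent.MP_2339ce_nt.Q2.HJ0
import Pool.Agent.MP_2339ce_nt.Q2.HJID
import Pool.Agent.MP_2339ce_nt.Q2.HJINT
import Pool.Agent.MP_2339ce_nt.Q2.HJM
import Pool.Agent.MP_2339ce_nt.Q2.HJP

/-! `D(-N)`-quintuples, block HP: tables of valid windows, with shifted forms. -/

set_option autoImplicit false

namespace Pool.Agent.MP_2339ce_nt.Q2

open DQ

theorem allJ : S_J := ⟨jm (ta main bnd3), j0b jid bnd3, jpb jid bnd3, jint jid⟩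

theorem tab_ok4 {l : List Wn} (t : List El4) (h1 : t.all El4.good = true) (h2 : l = t.map El4.wn) :
    ∀ w ∈ l, w.Ok :=
  tab_okJ t h1 h2 allJ

end Pool.Agent.MP_2339ce_nt.Q2
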