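import Pool.Agent.MP_2339ce_nt.Q2.HD2

/-! `D(-N)`-quintuples, block HP: windows without upper end, data. -/

set_option autoImplicit false

namespace Pool.Agent.MP_2339ce_nt.Q2

def tf (pr i : ℕ) (u v : ℤ) : Fm2 :=
  ⟨pr, 2 * i + 1, 2 * i + 2, 2 * i + 2, 0, 0, 0, 1000, 250, 250, 500, 1000, 1000, 0, u, u, v, 0, 0⟩

/-- the window of all forms `tf pr j`, `i ≤ j` -/
def sw (pr i : ℕ) (u v : ℤ) : Wn :=
  ⟨[pairAf pr (4 * i) (-(10 * (u + v) + 1611)) (-(12 * i + 12)) (4 * i + 4) (-(4 * i + 8))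
      (-(12 * i + 12)),
    pairAf pr (4 * i) (-(10 * (u + v) + 1611)) (-(12 * i + 12)) 0 (-(4 * i + 8)) (-(8 * i + 8)),
    pairAf pr 4 (-1310) (-12) 4 (-4) (-12), pairAf pr 4 (-1310) (-12) 0 (-4) (-8)],
    [(tf pr i u v).lo0, (tf pr i u v).lop], []⟩

end Pool.Agent.MP_2339ce_nt.Q2
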