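import Pool.Agent.MP_2339ce_nt.Q2.HA1
import Pool.Agent.MP_2339ce_nt.Q2.HD5

/-! `D(-N)`-quintuples, block HP: windows without upper end are valid. -/

set_option autoImplicit false

noncomputable section

namespace Pool.Agent.MP_2339ce_nt.Q2

open DQ TNQ Real

namespace HT5

theorem be_s (ρ σ : ℕ) : beQ ρ (σ + 1) = beQ ρ σ * (|(ρ : ℚ) + 1 / 2 - σ| / (σ + 1)) := by
  rw [beQ, Finset.prod_range_succ, abs_div, abs_of_pos (by positivity : (0 : ℚ) < σ + 1)]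
  rfl

theorem be_d (ρ σ : ℕ) : beQ (ρ + 1) (σ + 1) * (σ + 1) = beQ ρ σ * (ρ + 3 / 2) := by
  induction σ with
  | zero =>
    rw [be_s]
    simp only [beQ, Finset.prod_range_zero]
    push_cast
    rw [sub_zero, abs_of_pos (by positivity)]
    ring
  | succ σ ih =>
    rw [be_s (ρ + 1), be_s ρ]
    push_cast
    rw [show (ρ : ℚ) + 1 + 1 / 2 - (σ + 1) = ρ + 1 / 2 - σ by ring]
    generalize |(ρ : ℚ) + 1 / 2 - σ| = y
    field_simp
    linear_combination (2 * y) * ih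

theorem be_le (ρ : ℕ) : beQ (ρ + 1) (3 * ρ + 5) ≤ 4 / 27 * beQ ρ (3 * ρ + 2) := by
  have h0 := (HFM.bq_pos ρ (3 * ρ + 2)).le
  have h1 := be_d ρ (3 * ρ + 2)
  have r0 : (0 : ℚ) ≤ ρ := Nat.cast_nonneg _
  rw [be_s, be_s, eq_div_of_mul_eq (by positivity) h1]
  push_cast
  rw [abs_of_neg (by linarith), abs_of_neg (by linarith)]
  generalize beQ ρ (3 * ρ + 2) = x at h0
  rw [mul_div_assoc, mul_assoc, mul_assoc, mul_comm (4 / 27)]
  refine mul_le_mul_of_nonneg_left ?_ h0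
  rw [div_mul_div_comm, div_mul_div_comm, div_le_iff₀ (by positivity)]
  have := mul_nonneg r0 r0
  linarith

def ee (ρ : ℕ) : ℚ := (1001 / 1000) ^ (3 * ρ + 2) / 2 * 4 ^ ρ * (ρ.centralBinom : ℕ) * 1000 / 250

def mv (ρ : ℕ) : ℚ := (1001 / 1000) ^ (3 * ρ + 2) * 4 ^ ρ * beQ ρ (3 * ρ + 2) * 1000 / 500

theorem ee_le (ρ : ℕ) : ee (ρ + 1) ≤ (1001 / 1000) ^ 3 * 16 * ee ρ := by
  have h : (ρ + 1).centralBinom ≤ 4 * ρ.centralBinom := by
    refine Nat.le_of_mul_le_mul_left ?_ ρ.succ_pos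
    rw [Nat.succ_mul_centralBinom_succ, ← mul_assoc]
    exact Nat.mul_le_mul_right _ (by omega)
  have h' : (((ρ + 1).centralBinom : ℕ) : ℚ) ≤ 4 * (ρ.centralBinom : ℕ) := by exact_mod_cast h
  calc ee (ρ + 1) ≤ (1001 / 1000) ^ (3 * (ρ + 1) + 2) / 2 * 4 ^ (ρ + 1) *
        (4 * (ρ.centralBinom : ℕ)) * 1000 / 250 := by unfold ee; gcongr
    _ = _ := by unfold ee; ring

theorem mu_le (ρ : ℕ) : mv (ρ + 1) ≤ (1001 / 1000) ^ 3 * (16 / 27) * mv ρ := by
  have h := be_le ρ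
  calc mv (ρ + 1) ≤ (1001 / 1000) ^ (3 * (ρ + 1) + 2) * 4 ^ (ρ + 1) *
        (4 / 27 * beQ ρ (3 * ρ + 2)) * 1000 / 500 := by unfold mv; gcongr; exact h
    _ = _ := by unfold mv; ring

theorem step {x y z c : ℚ} {u k : ℤ} (z0 : 0 ≤ z) (c0 : 0 ≤ c) (h1 : y ≤ c * x) (h2 : z ≤ c * y)
    (h3 : c ^ 40 ≤ 2 ^ k) (h : x ^ 20 ≤ 2 ^ u) : z ^ 20 ≤ 2 ^ (u + k) := by
  calc z ^ 20 ≤ (c * (c * x)) ^ 20 := by gcongr; exact h2.trans (by gcongr)
    _ = x ^ 20 * c ^ 40 := by ring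
    _ ≤ 2 ^ u * 2 ^ k := by gcongr
    _ = _ := (zpow_add₀ two_ne_zero _ _).symm

theorem good (pr i : ℕ) (u v : ℤ) (h1 : ee (2 * i + 1) ^ 20 ≤ 2 ^ u)
    (h2 : mv (2 * i + 1) ^ 20 ≤ 2 ^ v) : (tf pr i u v).Good := by
  have o0 : (tf pr i u v).o0 = false := by simp only [Fm2.o0, tf, beq_eq_false_iff_ne]; omega
  have op : (tf pr i u v).op = false := by simp only [Fm2.op, tf, beq_eq_false_iff_ne]; omega
  have sg : (tf pr i u v).sg = 3 * (2 * i + 1) + 2 := by simp only [Fm2.sg, tf]; omega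
  refine ⟨⟨?_, ?_, ?_, ?_, ?_⟩, fun _ => ⟨o0, op⟩, ?_⟩
  · simp only [tf]; omega
  · rw [o0, op]; simp [tf]
  · rw [Fm2.et, sg, Fm2.c0]
    simp only [tf, if_true]
    rw [show 2 * i + 1 + (2 * i + 2) - 1 = 2 * (2 * i + 1) by omega]
    exact h1
  · rw [Fm2.et, sg, Fm2.cp]
    simp only [tf, if_true]
    rw [show 2 * i + 2 + (2 * i + 2) - 2 = 2 * (2 * i + 1) by omega]
    exact h1
  · rw [Fm2.et, Fm2.bq, sg]
    exact h2
  · simp [tf]

end HT5

open HT5 in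
theorem sw_ok (pr i : ℕ) (u v : ℤ) (h1 : ee (2 * i + 1) ^ 20 ≤ 2 ^ u)
    (h2 : mv (2 * i + 1) ^ 20 ≤ 2 ^ v) : (sw pr i u v).Ok := by
  intro N a b c d e n1 n2 H big hc sd
  have G : ∀ t : ℕ, ee (2 * (i + t) + 1) ^ 20 ≤ 2 ^ (u + 161 * t) ∧
      mv (2 * (i + t) + 1) ^ 20 ≤ 2 ^ (v - 30 * t) := by
    intro t
    induction t with
    | zero => simpa using ⟨h1, h2⟩
    | succ t ih =>
      have x := step (k := 161) (by unfold ee; positivity) (by positivity) (ee_le _) (ee_le _)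
        (by norm_num) ih.1
      have y := step (k := -30) (by have := (HFM.bq_pos (2 * (i + t) + 1 + 1 + 1)
        (3 * (2 * (i + t) + 1 + 1 + 1) + 2)).le; unfold mv; positivity) (by positivity) (mu_le _)
        (mu_le _) (by norm_num) ih.2
      push_cast
      rw [show u + 161 * ((t : ℤ) + 1) = u + 161 * t + 161 by ring,
        show v - 30 * ((t : ℤ) + 1) = v - 30 * t + -30 by ring]
      exact ⟨x, y⟩
  have w := fun t : ℕ => allFm _ (good pr (i + t) _ _ (G t).1 (G t).2) N a b c d e n1 n2 H big hc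
    (fun s h => absurd h List.not_mem_nil)
  have C := cf H n1 big pr
  have l1 := lg_nn C.p0
  have l2 := lg_nn (C.p0.trans C.pq)
  have l3 := lg_nn (sub_pos.2 C.pq)
  have l4 := lg_nn (show 0 < N by omega)
  have l5 : 1 ≤ lg d := by
    have := lgm (show (0 : ℤ) < 2 by norm_num) (show 2 ≤ d by omega)
    rwa [lg_two] at this
  left
  by_contra z
  simp only [sw, Fm2.wn, tf, Fm2.lo0, Fm2.lop, Fm2.top, Fm2.sg, if_true, List.mem_cons,
    List.not_mem_nil, or_false, forall_eq_or_imp, forall_eq, exists_eq_or_imp, exists_eq_left,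
    pair_v, not_or, not_le] at sd w z
  generalize lg (pp pr a b) = P, lg (qq pr b c - pp pr a b) = δ, lg (qq pr b c) = Q, lg N = L,
    lg d = D, lg e = E at *
  push_cast at sd w z
  obtain ⟨s1, s2, s3, s4⟩ := sd
  have key : ∀ t : ℕ, (4 * (i + t) + 3) * D + (u + 161 * t) / 10 + 2 * L + (8 * (i + t) + 4) * Q +
        (4 * (i + t) + 2) * δ < E ∧
      (4 * (i + t) + 3) * D + (u + 161 * t) / 10 + 2 * L + 4 * (i + t) * P + (8 * (i + t) + 4) * Q +
        2 * δ < E := by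
    intro t
    induction t with
    | zero => push_cast; constructor <;> linarith [z.1, z.2]
    | succ t ih =>
      have t0 : (0 : ℝ) ≤ t := Nat.cast_nonneg _
      have h3 := mul_nonneg t0 s3
      have h4 := mul_nonneg t0 s4
      obtain ⟨k1, k2⟩ := ih
      push_cast
      rcases w t with (k | k) | k
      · linarith
      · linarith
      · constructor <;> linarith
  obtain ⟨n, hn⟩ := exists_nat_gt (E - u / 10)
  have h5 := (key n).1
  have n0 : (0 : ℝ) ≤ n := Nat.cast_nonneg _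
  have i0 : (0 : ℝ) ≤ i := Nat.cast_nonneg _
  have h6 := mul_nonneg (add_nonneg i0 n0) (zero_le_one.trans l5)
  have h7 := mul_nonneg (add_nonneg i0 n0) l2
  have h8 := mul_nonneg (add_nonneg i0 n0) l3
  linarith

end Pool.Agent.MP_2339ce_nt.Q2

end
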