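import Pool.Agent.MP_2339ce_nt.Q2.HT6a

/-! `D(-N)`-quintuples, block HP: the dense window without upper end is valid. -/

set_option autoImplicit false

noncomputable section

namespace Pool.Agent.MP_2339ce_nt.Q2

open DQ TNQ Real

namespace HT6

theorem fin {x K κ : ℚ} {s u : ℤ} (i : ℕ) (x0 : 0 ≤ x) (_ : 0 ≤ κ) (h : x ≤ K * κ ^ i)
    (hK : K ^ 20 ≤ 2 ^ u) (hκ : κ ^ 20 ≤ 2 ^ s) : x ^ 20 ≤ 2 ^ (s * i + u) := by
  calc x ^ 20 ≤ (K * κ ^ i) ^ 20 := by gcongr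
    _ = (κ ^ 20) ^ i * K ^ 20 := by ring
    _ ≤ (2 ^ s) ^ i * 2 ^ u := by gcongr
    _ = _ := by rw [zpow_add₀ two_ne_zero, zpow_mul, zpow_natCast]

theorem ea0 (ρ k j : ℕ) : 0 ≤ ea ρ k j := by unfold ea; positivity

theorem ka : (284 : ℚ) ^ 20 ≤ 2 ^ (163 : ℤ) := by norm_num

theorem kb : (1961 / 5000 : ℚ) ^ 20 ≤ 2 ^ (-27 : ℤ) := by norm_num

theorem cc_eq (i : ℕ) : cc i = ((4 * i + 2).choose (2 * i + 1) : ℕ) := by
  rw [cc, Nat.centralBinom, show 2 * (2 * i + 1) = 4 * i + 2 by ring]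

def uq (n : ℕ) : ℚ := (1001 / 1000) ^ 5 * 8 * 198 / (3 * n + 1) ^ 2

def vq (n : ℕ) : ℚ := (1001 / 1000) ^ 7 * 32 * (8 / 81) * (1199 / 1000) * (4 * n + 4) /
  (n * (4 * n + 1))

theorem g1 (pr i : ℕ) (hi : 2 ≤ i) :
    (tg pr (2 * i + 1) (2 * i) (163 * i + 193) (-27 * i + 86)).Good4 2 1 := by
  have i0 : (0 : ℚ) ≤ i := Nat.cast_nonneg _
  have em : ma (2 * i + 1) (2 * i) 2 = (1001 / 1000) ^ 3 * 16 * yy i := by
    rw [ma, yy, bb, show 2 * i + 1 + 2 * i + 2 * i + 2 = 6 * i + 3 by ring,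
      show (16 : ℚ) = 4 ^ 2 by norm_num, ← pow_mul]
    simp only [rc]
    push_cast; ring
  refine good _ _ _ _ _ _ (by omega) (by omega) (by omega) (by omega)
    (fin (K := (1001 / 1000) ^ 3 * 4 * 198) i (ea0 _ _ _) (by norm_num) ?_ (by norm_num) ka)
    (fin (K := (1001 / 1000) ^ 3 * 16 * (1199 / 1000)) i ?_ (by norm_num) ?_ (by norm_num) kb)
  · have h1 : (6 * i + 2).choose 2 = (3 * i + 1) * (6 * i + 1) := by
      rw [Nat.choose_two_right, show (6 * i + 2) * (6 * i + 2 - 1) = (3 * i + 1) * (6 * i + 1) * 2 by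
        rw [show 6 * i + 2 - 1 = 6 * i + 1 by omega]; ring, Nat.mul_div_cancel _ two_pos]
    have h2 : 4 * (4 * i).choose (2 * i + 1) ≤ (4 * i + 2).choose (2 * i + 1) := by
      have a1 := Nat.choose_le_middle (2 * i + 1) (4 * i)
      have a2 := Nat.choose_succ_succ' (4 * i + 1) (2 * i)
      have a3 := Nat.choose_succ_succ' (4 * i) (2 * i)
      have a4 := Nat.choose_symm_half (2 * i)
      rw [show 4 * i / 2 = 2 * i by omega] at a1
      rw [show 2 * (2 * i) + 1 = 4 * i + 1 by ring] at a4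
      rw [show 4 * i + 2 = 4 * i + 1 + 1 by ring]
      omega
    have h3 : (4 : ℚ) * ((4 * i).choose (2 * i + 1) : ℕ) ≤ cc i := by
      rw [cc_eq]; exact_mod_cast h2
    rw [mul_assoc, mul_assoc]
    refine le_trans ?_ (mul_le_mul_of_nonneg_left (mul_le_mul_of_nonneg_left (xx_le i)
      (by norm_num)) (by norm_num))
    rw [ea, xx, show 2 * i + 1 + 2 * i + 2 * i + 2 = 6 * i + 3 by ring,
      show 6 * i + 3 - 1 = 6 * i + 2 by omega, show 2 * i + 1 + 2 * i - 1 = 4 * i by omega, h1,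
      show (16 : ℚ) = 4 ^ 2 by norm_num, ← pow_mul]
    push_cast
    calc _ = (1001 / 1000 : ℚ) ^ (6 * i + 3) * 2 * 4 ^ (2 * i) * (3 * i + 1) *
          ((6 * i + 1) * (4 * ((4 * i).choose (2 * i + 1) : ℕ))) := by ring
      _ ≤ (1001 / 1000 : ℚ) ^ (6 * i + 3) * 2 * 4 ^ (2 * i) * (3 * i + 1) *
          ((6 * i + 2) * cc i) := by gcongr; norm_num
      _ = _ := by ring
  · have := bb0 i
    rw [em, yy]; positivity
  · rw [em, mul_assoc _ (1199 / 1000 : ℚ)]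
    exact mul_le_mul_of_nonneg_left (yy_le i) (by norm_num)

theorem bb_le {i : ℕ} (hi : 2 ≤ i) : (1001 / 1000) ^ (6 * i) * 4 ^ (2 * i) * bb i ≤
    1199 / 1000 * (1961 / 5000) ^ i / (i * (4 * i + 1)) := by
  have i2 : (2 : ℚ) ≤ i := by exact_mod_cast hi
  rw [le_div_iff₀ (by positivity), pow_mul 4, show (4 : ℚ) ^ 2 = 16 by norm_num]
  exact yy_le i

theorem cc_le (i : ℕ) : (1001 / 1000) ^ (6 * i) * 4 ^ (2 * i) * cc i ≤
    198 * 284 ^ i / (3 * i + 1) ^ 2 := by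
  rw [le_div_iff₀ (by positivity), pow_mul 4, show (4 : ℚ) ^ 2 = 16 by norm_num]
  exact xx_le i

theorem b2_le (i : ℕ) : beQ (2 * i + 1) (6 * i + 5) ≤ bb i * (4 / 9) := by
  have i0 : (0 : ℚ) ≤ i := Nat.cast_nonneg _
  rw [b2]
  refine mul_le_mul_of_nonneg_left ?_ (bb0 i)
  rw [div_le_iff₀ (by positivity), ← sub_nonneg]
  ring_nf
  positivity

theorem g2 (pr n i : ℕ) (u : ℤ) (hn : 2 ≤ n) (hi : n ≤ i) (hu : uq n ^ 20 ≤ 2 ^ u) :
    (tg pr (2 * i + 1) (2 * i + 2) (163 * i + u) (-27 * i + -41)).Good4 0 1 := by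
  have n2 : (2 : ℚ) ≤ n := by exact_mod_cast hn
  have ni : (n : ℚ) ≤ i := by exact_mod_cast hi
  have b0 := (HFM.bq_pos (2 * i + 1) (6 * i + 5)).le
  have em : ma (2 * i + 1) (2 * i + 2) 0 = (1001 / 1000) ^ 5 * 8 *
      ((1001 / 1000) ^ (6 * i) * 4 ^ (2 * i) * beQ (2 * i + 1) (6 * i + 5)) := by
    rw [ma, show 2 * i + 1 + (2 * i + 2) + (2 * i + 2) + 0 = 6 * i + 5 by ring]
    simp only [rc]
    ring
  refine good _ _ _ _ _ _ (by omega) (by omega) (by omega) (by omega)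
    (fin i (ea0 _ _ _) (by norm_num) ?_ hu ka)
    (fin (K := (1001 / 1000) ^ 5 * 8 * (4 / 9) * (1199 / 1000) / 18) i (by rw [em]; positivity)
      (by norm_num) ?_ (by norm_num) kb)
  · rw [ea, show 2 * i + 1 + (2 * i + 2) + (2 * i + 2) + 0 = 6 * i + 5 by ring,
      show 2 * i + 1 + (2 * i + 2) - 1 = 4 * i + 2 by omega, ← cc_eq, Nat.choose_zero_right]
    calc _ = (1001 / 1000 : ℚ) ^ 5 * 8 * ((1001 / 1000) ^ (6 * i) * 4 ^ (2 * i) * cc i) := by
          push_cast; ring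
      _ ≤ (1001 / 1000 : ℚ) ^ 5 * 8 * (198 * 284 ^ i / (3 * n + 1) ^ 2) := by
          gcongr; exact (cc_le i).trans (by gcongr)
      _ = _ := by rw [uq]; ring
  · rw [em]
    calc _ ≤ (1001 / 1000 : ℚ) ^ 5 * 8 * ((1001 / 1000) ^ (6 * i) * 4 ^ (2 * i) *
          (bb i * (4 / 9))) := by gcongr; exact b2_le i
      _ = (1001 / 1000 : ℚ) ^ 5 * 8 * (4 / 9) * ((1001 / 1000) ^ (6 * i) * 4 ^ (2 * i) * bb i) := by
          ring
      _ ≤ (1001 / 1000 : ℚ) ^ 5 * 8 * (4 / 9) * (1199 / 1000 * (1961 / 5000) ^ i / 18) := by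
          gcongr; exact (bb_le (hn.trans hi)).trans (by gcongr; nlinarith)
      _ = _ := by ring

theorem g3 (pr n i : ℕ) (v : ℤ) (hn : 2 ≤ n) (hi : n ≤ i) (hv : vq n ^ 20 ≤ 2 ^ v) :
    (tg pr (2 * i + 2) (2 * i + 2) (163 * i + 244) (-27 * i + v)).Good4 1 1 := by
  have n2 : (2 : ℚ) ≤ n := by exact_mod_cast hn
  have ni : (n : ℚ) ≤ i := by exact_mod_cast hi
  have b0 := (HFM.bq_pos (2 * i + 2) (6 * i + 7)).le
  have em : ma (2 * i + 2) (2 * i + 2) 1 = (1001 / 1000) ^ 7 * 32 * (4 * i + 4) *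
      ((1001 / 1000) ^ (6 * i) * 4 ^ (2 * i) * beQ (2 * i + 2) (6 * i + 7)) := by
    rw [ma, show 2 * i + 2 + (2 * i + 2) + (2 * i + 2) + 1 = 6 * i + 7 by ring]
    simp only [rc]
    push_cast; ring
  refine good _ _ _ _ _ _ (by omega) (by omega) (by omega) (by omega)
    (fin (K := (1001 / 1000) ^ 7 * 64 * 198 * (18 / 49)) i (ea0 _ _ _) (by norm_num) ?_
      (by norm_num) ka) (fin i (by rw [em]; positivity) (by norm_num) ?_ hv kb)
  · have h2 : (4 * i + 3).choose (2 * i + 2) ≤ 2 * (4 * i + 2).choose (2 * i + 1) := by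
      have a1 := Nat.choose_le_middle (2 * i + 1 + 1) (4 * i + 2)
      have a2 := Nat.choose_succ_succ' (4 * i + 2) (2 * i + 1)
      rw [show (4 * i + 2) / 2 = 2 * i + 1 by omega] at a1
      rw [show 4 * i + 3 = 4 * i + 2 + 1 by ring, show 2 * i + 2 = 2 * i + 1 + 1 by ring]
      omega
    have h3 : (((4 * i + 3).choose (2 * i + 2) : ℕ) : ℚ) ≤ 2 * cc i := by
      rw [cc_eq]; exact_mod_cast h2
    rw [ea, show 2 * i + 2 + (2 * i + 2) + (2 * i + 2) + 1 = 6 * i + 7 by ring,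
      show 2 * i + 2 + (2 * i + 2) - 1 = 4 * i + 3 by omega, Nat.choose_one_right,
      show 6 * i + 7 - 1 = 6 * i + 6 by omega]
    calc _ ≤ (1001 / 1000 : ℚ) ^ (6 * i + 7) * 2 * 4 ^ (2 * i + 2) *
          ((6 * i + 6 : ℕ) * (2 * cc i)) := by gcongr
      _ = (1001 / 1000 : ℚ) ^ 7 * 64 * (6 * i + 6) *
          ((1001 / 1000) ^ (6 * i) * 4 ^ (2 * i) * cc i) := by push_cast; ring
      _ ≤ (1001 / 1000 : ℚ) ^ 7 * 64 * (6 * i + 6) * (198 * 284 ^ i / (3 * i + 1) ^ 2) := by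
          gcongr; exact cc_le i
      _ = (1001 / 1000 : ℚ) ^ 7 * 64 * 198 * ((6 * i + 6) / (3 * i + 1) ^ 2) * 284 ^ i := by ring
      _ ≤ _ := by
          have : (6 * (i : ℚ) + 6) / (3 * i + 1) ^ 2 ≤ 18 / 49 := by
            rw [div_le_iff₀ (by positivity)]
            nlinarith
          gcongr _ * ?_ * _
  · have h4 : beQ (2 * i + 2) (6 * i + 7) ≤ bb i * (4 / 9) * (2 / 9) := by
      have i0 : (0 : ℚ) ≤ i := Nat.cast_nonneg _
      rw [b3]
      refine mul_le_mul (b2_le i) ?_ (by positivity) (by have := bb0 i; positivity)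
      rw [div_le_iff₀ (by positivity), ← sub_nonneg]
      ring_nf
      positivity
    have h5 : (4 * (i : ℚ) + 4) / (i * (4 * i + 1)) ≤ (4 * n + 4) / (n * (4 * n + 1)) := by
      obtain ⟨t, ht, e⟩ : ∃ t : ℚ, 0 ≤ t ∧ (i : ℚ) = n + t := ⟨i - n, by linarith, by ring⟩
      rw [e, div_le_div_iff₀ (by positivity) (by positivity), ← sub_nonneg]
      ring_nf
      positivity
    rw [em]
    calc _ ≤ (1001 / 1000 : ℚ) ^ 7 * 32 * (4 * i + 4) * ((1001 / 1000) ^ (6 * i) * 4 ^ (2 * i) *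
          (bb i * (4 / 9) * (2 / 9))) := by gcongr
      _ = (1001 / 1000 : ℚ) ^ 7 * 32 * (8 / 81) * (4 * i + 4) *
          ((1001 / 1000) ^ (6 * i) * 4 ^ (2 * i) * bb i) := by ring
      _ ≤ (1001 / 1000 : ℚ) ^ 7 * 32 * (8 / 81) * (4 * i + 4) *
          (1199 / 1000 * (1961 / 5000) ^ i / (i * (4 * i + 1))) := by
          gcongr; exact bb_le (hn.trans hi)
      _ = (1001 / 1000 : ℚ) ^ 7 * 32 * (8 / 81) * (1199 / 1000) *
          ((4 * i + 4) / (i * (4 * i + 1))) * (1961 / 5000) ^ i := by ring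
      _ ≤ (1001 / 1000 : ℚ) ^ 7 * 32 * (8 / 81) * (1199 / 1000) *
          ((4 * n + 4) / (n * (4 * n + 1))) * (1961 / 5000) ^ i := by gcongr
      _ = _ := by rw [vq]; ring

def Num (i : ℕ) (u v : ℤ) : Prop :=
  2 ≤ i ∧ -86 ≤ u ∧ -100 ≤ v ∧ uq i ^ 20 ≤ 2 ^ u ∧ vq i ^ 20 ≤ 2 ^ v

instance (i : ℕ) (u v : ℤ) : Decidable (Num i u v) := by unfold Num; infer_instance

end HT6

open HT6 in
theorem tw_ok (pr i : ℕ) (u v : ℤ) (h : Num i u v) : (tw pr i u v).Ok := by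
  obtain ⟨hi, u0, v0, hu, hv⟩ := h
  intro N a b c d e n1 n2 H big hc sd
  have F := fun J (f : Fm2) (g : f.Good4 J 1) =>
    fm4 allJ.1 allJ.2.1 allJ.2.2.1 allJ.2.2.2 J 1 f g N a b c d e n1 n2 H big hc
  have w1 := fun t : ℕ => F _ _ (g1 pr (i + t) (by omega)) fun s h => absurd h List.not_mem_nil
  have w2 := fun t : ℕ => F _ _ (g2 pr i (i + t) u hi (by omega) hu)
    fun s h => absurd h List.not_mem_nil
  have w3 := fun t : ℕ => F _ _ (g3 pr i (i + t) v hi (by omega) hv)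
    fun s h => absurd h List.not_mem_nil
  have C := cf H n1 big pr
  have l1 := lg_nn C.p0
  have l2 := lgm C.p0 C.pq.le
  have l3 := lg_nn (sub_pos.2 C.pq)
  have l4 := lg_nn (show 0 < N by omega)
  have l5 := lg_nn (C.p0.trans (C.pq.trans C.qd))
  left
  by_contra z
  simp only [tw, Fm2.wnJ, tg, Fm2.lo0, Fm2.lop, Fm2.topJ, Fm2.sg, if_true, List.mem_cons,
    List.not_mem_nil, or_false, forall_eq_or_imp, forall_eq, exists_eq_or_imp, exists_eq_left,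
    pair_v, not_or, not_le] at sd w1 w2 w3 z
  generalize lg (pp pr a b) = P, lg (qq pr b c - pp pr a b) = δ, lg (qq pr b c) = Q, lg N = L,
    lg d = D, lg e = E at *
  push_cast at sd w1 w2 w3 z
  obtain ⟨s1, s2, s3, s4⟩ := sd
  have u1 : (-86 : ℝ) ≤ u := by exact_mod_cast u0
  have v1 : (-100 : ℝ) ≤ v := by exact_mod_cast v0
  have i2 : (2 : ℝ) ≤ i := by exact_mod_cast hi
  have ha : 0 ≤ 4 * D + 4 * P - 4 * Q - 12 * δ - 12 * L - 68 / 5 :=
    (mul_nonneg_iff_of_pos_left (c := (i : ℝ)) (by linarith)).1 (by linarith)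
  have hb : 0 ≤ 4 * D - 4 * Q - 8 * δ - 12 * L - 68 / 5 :=
    (mul_nonneg_iff_of_pos_left (c := (i : ℝ)) (by linarith)).1 (by linarith)
  have key : ∀ t : ℕ, (4 * (i + t) + 3) * D + (163 * (i + t) + 193) / 10 + 2 * L +
        8 * (i + t) * Q + (4 * (i + t) - 2) * δ < E ∧
      (4 * (i + t) + 3) * D + (163 * (i + t) + 193) / 10 + 2 * L + (4 * (i + t) - 4) * P +
        8 * (i + t) * Q + 2 * δ < E := by
    intro t
    induction t with
    | zero => push_cast; constructor <;> linarith [z.1, z.2]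
    | succ t ih =>
      have t0 : (0 : ℝ) ≤ t := Nat.cast_nonneg _
      have h3 := mul_nonneg t0 ha
      have h4 := mul_nonneg t0 hb
      obtain ⟨k1, k2⟩ := ih
      push_cast
      rcases w1 t with (k | k) | k
      · linarith
      · linarith
      rcases w2 t with (m | m) | m
      · linarith
      · linarith
      rcases w3 t with (n | n) | n
      · linarith
      · linarith
      · constructor <;> linarith
  obtain ⟨n, hn⟩ := exists_nat_gt E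
  have h5 := (key n).1
  have n0 : (0 : ℝ) ≤ n := Nat.cast_nonneg _
  have h6 := mul_nonneg (show 0 ≤ 4 * ((i : ℝ) + n) + 3 by linarith) l5
  have h7 := mul_nonneg (show 0 ≤ 8 * ((i : ℝ) + n) by linarith) (l1.trans l2)
  have h8 := mul_nonneg (show 0 ≤ 4 * ((i : ℝ) + n) - 2 by linarith) l3
  linarith

end Pool.Agent.MP_2339ce_nt.Q2

end
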