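import Pool.Agent.MP_2339ce_nt.Q2.HA4
import Pool.Agent.MP_2339ce_nt.Q2.HT5
import Pool.Agent.MP_2339ce_nt.Q2.HT6

/-! `D(-N)`-quintuples, block HP: tables of valid windows, with the dense tail. -/

set_option autoImplicit false

namespace Pool.Agent.MP_2339ce_nt.Q2

open DQ

inductive El6 where
  | old (pr j : ℕ)
  | q (j : ℕ)
  | fm (g : ℕ) (f : Fm2)
  | fj (j g : ℕ) (f : Fm2)
  | sw (pr i : ℕ) (u v : ℤ)
  | tw (pr i : ℕ) (u v : ℤ)

def El6.wn : El6 → Wn
  | .old pr j => Q2.wn (pr, j)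
  | .q j => wq j
  | .fm _ f => f.wn
  | .fj j _ f => f.wnJ j
  | .sw pr i u v => Q2.sw pr i u v
  | .tw pr i u v => Q2.tw pr i u v

noncomputable def El6.good : El6 → Bool
  | .fm g f => decide (f.Good3 g)
  | .fj j g f => decide (f.Good4 j g)
  | .sw _ i u v => decide (HT5.ee (2 * i + 1) ^ 20 ≤ 2 ^ u ∧ HT5.mv (2 * i + 1) ^ 20 ≤ 2 ^ v)
  | .tw _ i u v => decide (HT6.Num i u v)
  | _ => true

theorem El6.ok (x : El6) (h : x.good = true) : x.wn.Ok := by
  cases x with
  | old pr j => exact allWn _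
  | q j => exact allWq j
  | fm g f => exact (El4.fm g f).ok allJ h
  | fj j g f => exact (El4.fj j g f).ok allJ h
  | sw pr i u v => exact sw_ok pr i u v (of_decide_eq_true h).1 (of_decide_eq_true h).2
  | tw pr i u v => exact tw_ok pr i u v (of_decide_eq_true h)

theorem tab_ok6 {l : List Wn} (t : List El6) (h1 : t.all El6.good = true) (h2 : l = t.map El6.wn) :
    ∀ w ∈ l, w.Ok := by
  subst h2
  intro w h
  obtain ⟨x, y, rfl⟩ := List.mem_map.1 h
  exact x.ok (List.all_eq_true.1 h1 x y)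

end Pool.Agent.MP_2339ce_nt.Q2
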