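import Pool.Agent.MP_2339ce_nt.Q2.HJ0
import Pool.Agent.MP_2339ce_nt.Q2.HJM
import Pool.Agent.MP_2339ce_nt.Q2.HJP
import Pool.Agent.MP_2339ce_nt.DQ.TBND3

/-! `D(-N)`-quintuples, block HP: shifted forms with small multiplicities. -/

set_option autoImplicit false

noncomputable section

namespace Pool.Agent.MP_2339ce_nt.Q2

open DQ DQ.Sgn DQ.NNZC PowerSeries Real

structure RgK (ρ kp kq j : ℕ) (N p q d e : ℝ) : Prop extends Adm ρ kp kq where
  n0 : 0 < N
  one : 1 ≤ p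
  pq : p < q
  qd : 100 * q ≤ d
  de : d ≤ e
  nd : 10000 * N ≤ d
  jp : kp + j ≤ ρ + 1
  jq : kq + j ≤ ρ + 1
  sm : ρ ≤ 1000

/-- the main term -/
def S_KM : Prop := ∀ (ρ kp kq j : ℕ) (N p q d e : ℝ) (l : ℚ), RgK ρ kp kq j N p q d e →
  p ≤ l * q →
  wwJ ρ kp kq j N p q d e =
      tmJ ρ kp kq j N p q d e + t0J ρ kp kq j N p q d e + tpJ ρ kp kq j N p q d e ∧
    be ρ (ρ + kp + kq + j) * ((kp + j - 1).choose j : ℕ) / eta (ρ + kp + kq + j) *
      ((N / p) ^ j / d ^ (ρ + kp + kq + j)) ≤ (-1) ^ (kp + kq + j + 1) * tmJ ρ kp kq j N p q d e ∧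
    (-1) ^ (kp + kq + j + 1) * tmJ ρ kp kq j N p q d e ≤
      be ρ (ρ + kp + kq + j) * (rc (1 : ℚ) l (fun _ _ => 1) j kp kq : ℚ) * eta (ρ + kp + kq + j) *
        ((N / p) ^ j / d ^ (ρ + kp + kq + j))

/-- the error at the node `0` -/
def S_K0 : Prop := ∀ (ρ kp kq j : ℕ) (N p q d e : ℝ), RgK ρ kp kq j N p q d e →
  49 / 100 / eta (ρ + kp + kq + j) * (nJ ρ kp kq j * (ρ + kq - 1).choose ρ : ℕ) *
      ((q / N) ^ (ρ + kq - 1) * (p / N) ^ kp / e) ≤ (-1) ^ ρ * t0J ρ kp kq j N p q d e ∧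
    |t0J ρ kp kq j N p q d e| ≤ eta (ρ + kp + kq + j) / 2 *
      (nJ ρ kp kq j * (ρ + kq - 1).choose ρ : ℕ) *
      ((q / N) ^ (ρ + kq - 1) * (p * q / (N * (q - p))) ^ kp / e) ∧
    |t0J ρ kp kq j N p q d e| ≤ eta (ρ + kp + kq + j) / 2 *
      (nJ ρ kp kq j * (ρ + kp + kq - 1).choose ρ : ℕ) * ((q / N) ^ (ρ + kq - 1) * (p / N) ^ kp / e)

/-- the error at the node `-N / p` -/
def S_KP : Prop := ∀ (ρ kp kq j : ℕ) (N p q d e : ℝ), RgK ρ kp kq j N p q d e →
  1 / 2 / eta (ρ + kp + kq + j) * (nJ ρ kp kq j * (kp + kq - 2).choose (kp - 1) : ℕ) *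
      ((p / N) ^ (ρ + 1) * (p * q / (N * (q - p))) ^ (kp + kq - 2) / e) ≤
      (-1) ^ (ρ + kq) * tpJ ρ kp kq j N p q d e ∧
    |tpJ ρ kp kq j N p q d e| ≤ eta (ρ + kp + kq + j) / 2 *
      (nJ ρ kp kq j * (kp + kq - 2).choose (kp - 1) : ℕ) *
      ((q / N) ^ (ρ + 1) * (p * q / (N * (q - p))) ^ (kp + kq - 2) / e) ∧
    |tpJ ρ kp kq j N p q d e| ≤ eta (ρ + kp + kq + j) / 2 *
      (nJ ρ kp kq j * (ρ + kp + kq - 1).choose (kp - 1) : ℕ) *
      ((p / N) ^ (ρ + 1) * (p * q / (N * (q - p))) ^ (kp + kq - 2) / e)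

open TSIZE3 NSIZEN HTA in
theorem taK (h1 : S_MAIN) (ρ kp kq : ℕ) (N p q d e : ℝ) (k1 : 1 ≤ kp) (k2 : 1 ≤ kq) (N0 : 0 < N)
    (p1 : 1 ≤ p) (pq : p < q) (qd' : 100 * q ≤ d) (de : d ≤ e) (big : 10000 * N ≤ d) :
    be ρ (ρ + kp + kq) / eta (ρ + kp + kq) / d ^ (ρ + kp + kq) ≤
      (-1) ^ (kp + kq + 1) * tm ρ kp kq N p q d e ∧
    (-1) ^ (kp + kq + 1) * tm ρ kp kq N p q d e ≤
      be ρ (ρ + kp + kq) * eta (ρ + kp + kq) / d ^ (ρ + kp + kq) := by
  obtain ⟨i, rfl⟩ : ∃ i, kp = i + 1 := ⟨kp - 1, by omega⟩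
  obtain ⟨j, rfl⟩ : ∃ j, kq = j + 1 := ⟨kq - 1, by omega⟩
  have p0 : 0 < p := by linarith
  have q0 : 0 < q := by linarith
  have qd : q ≤ d := by linarith
  have d0 : 0 < d := by linarith
  have e0 : 0 < e := by linarith
  have D0 : 0 < q - p := by linarith
  have x0 : 0 < 1 / d := by positivity
  have ge : ∀ y z : ℝ, 1 ≤ y → d ≤ z → N / (y * z) ≤ 1 / 10000 := fun y z hy hz =>
    smallN N0 ((big.trans hz).trans (le_mul_of_one_le_left (d0.le.trans hz) hy))
  have q1 : 1 ≤ q := by linarith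
  have d1 : 1 ≤ d := by linarith
  have spd := ge p d p1 le_rfl
  have sqd := ge q d q1 le_rfl
  have spe := ge p e p1 de
  have sqe := ge q e q1 de
  have sde := ge d e d1 de
  have epd : -N / p * (1 / d) = -(N / (p * d)) := by field_simp
  have eqd : -N / q * (1 / d) = -(N / (q * d)) := by field_simp
  have ppd : 0 < N / (p * d) := by positivity
  have pqd : 0 < N / (q * d) := by positivity
  have pqe : 0 < N / (q * e) := by positivity
  have pde : 0 < N / (d * e) := by positivity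
  have lt3 : N / q < N / p := div_lt_div_of_pos_left N0 p0 pq
  have p3q : 0 < N / q := by positivity
  have eD : N / p - N / q = N * (q - p) / (p * q) := by field_simp
  have pD : 0 < N * (q - p) / (p * q) := by positivity
  have hn : Nod (1 / 10000) (1 / d) 0 (-N / q) (-N / p) :=
    ⟨x0, by rw [neg_div]; linarith, by rw [neg_div, neg_div]; linarith, by norm_num, by norm_num,
      by rw [eqd, abs_neg, abs_of_pos pqd]; exact sqd,
      by rw [epd, abs_neg, abs_of_pos ppd]; exact spd⟩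
  have hm := main_abs h1 (ρ := ρ) (k := ρ + 1) (l := j + 1) (m := i + 1)
    (σ := ρ + (i + 1) + (j + 1)) hn (by omega) (by omega) (by omega) (by omega) (by omega)
  obtain ⟨b0, -, lo, -⟩ := h1 ρ (ρ + 1) (j + 1) (i + 1) (ρ + (i + 1) + (j + 1)) _ _ _ _ _ hn
    (by omega) (by omega) (by omega) (by omega) (by omega)
  have sg : (-1 : ℝ) ^ (ρ + (i + 1) + (j + 1) + ρ + 1) = (-1) ^ (i + 1 + (j + 1) + 1) := by
    rw [show ρ + (i + 1) + (j + 1) + ρ + 1 = 2 * ρ + (i + 1 + (j + 1) + 1) by ring, pow_add,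
      pow_mul, neg_one_sq, one_pow, one_mul]
  rw [sg] at lo
  have fq : (9999 / 10000 : ℝ) ≤ √(1 + -N / (q * e)) :=
    le_sqrt_of_sq_le (by rw [neg_div]; linarith)
  refine ⟨?_, ?_⟩
  · rw [tm, mul_left_comm, eta]
    refine le_trans ?_ (mul_le_mul fq lo (by positivity) (sqrt_nonneg _))
    have hl := low (σ := ρ + (i + 1) + (j + 1)) (by omega)
    generalize ρ + (i + 1) + (j + 1) = σ at hl b0 ⊢
    rw [one_div_pow, div_div, mul_comm _ (d ^ σ), ← div_div, mul_one_div, ← mul_div_assoc,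
      div_le_div_iff₀ (by positivity) (by positivity), mul_comm (9999 / 10000 : ℝ), mul_assoc]
    exact mul_le_mul_of_nonneg_left hl (by positivity)
  · refine (le_abs_self _).trans ?_
    rw [abs_mul, abs_neg_one_pow, one_mul, tm, abs_mul, eta]
    refine (mul_le_mul (sqrt_le (u := -N / (q * e)) (by rw [neg_div]; linarith))
      hm (abs_nonneg _) zero_le_one).trans (le_of_eq ?_)
    rw [one_div_pow]
    ring

theorem km (hA : S_MAIN) : S_KM := by
  intro ρ kp kq j N p q d e l h hl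
  have p0 : 0 < p := one_pos.trans_le h.one
  have q0 : 0 < q := p0.trans h.pq
  have d0 : 0 < d := by linarith [h.qd]
  have a0 : 0 ≤ N / p := (div_pos h.n0 p0).le
  have b0 : 0 ≤ N / q := (div_pos h.n0 q0).le
  have ab : N / q ≤ l * (N / p) := by
    rw [← mul_div_assoc, div_le_div_iff₀ q0 p0]
    nlinarith [h.n0]
  have e0 : 0 < eta (ρ + kp + kq + j) := by unfold eta; positivity
  have c0 : 0 ≤ be ρ (ρ + kp + kq + j) := abs_nonneg _
  have key : ∀ k l, kp ≤ k → kq ≤ l → k + l = kp + kq + j →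
      be ρ (ρ + kp + kq + j) / eta (ρ + kp + kq + j) / d ^ (ρ + kp + kq + j) * 1 ≤
        (-1) ^ (kp + kq + j + 1) * tm ρ k l N p q d e ∧
      (-1) ^ (kp + kq + j + 1) * tm ρ k l N p q d e ≤
        be ρ (ρ + kp + kq + j) * eta (ρ + kp + kq + j) / d ^ (ρ + kp + kq + j) * 1 := by
    intro k l a b c
    have t := taK hA ρ k l N p q d e (h.p1.trans a) (h.q1.trans b) h.n0 h.one h.pq h.qd h.de h.nd
    rw [show ρ + k + l = ρ + kp + kq + j by omega, c] at t
    rw [mul_one, mul_one]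
    exact t
  have k1 := HJM.mono a0 b0 j kp kq fun k l a b c => (key k l a b c).1
  have k2 := HJM.mono a0 b0 j kp kq fun k l a b c => (key k l a b c).2
  rw [HJM.mul, HJM.mul] at k1 k2
  refine ⟨?_, le_trans ?_ k1, k2.trans ?_⟩
  · rw [tmJ, t0J, tpJ, ← HJM.add3, wwJ]
    congr 1
    funext k l
    rw [ww, tm, t0, tp, SS, SS, zero_mul, add_zero, sqrt_one]
    ring
  · refine le_trans (le_of_eq (by ring))
      (mul_le_mul_of_nonneg_left (HJM.low a0 b0 j kp kq) (by positivity))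
  · refine le_trans (mul_le_mul_of_nonneg_left (HJM.up a0 b0 ab j kp kq) (by positivity))
      (le_of_eq (by ring))

open HJP in
theorem kpb (h : S_JID) (h2 : S_BND3) : S_KP := by
  intro ρ kp kq j N p q d e hR
  obtain ⟨m, rfl⟩ : ∃ m, kp = m + 1 := ⟨kp - 1, by have := hR.p1; omega⟩
  obtain ⟨k, rfl⟩ : ∃ k, kq = k + 1 := ⟨kq - 1, by have := hR.q1; omega⟩
  have jp := hR.jp
  have N0 := hR.n0
  have p1 := hR.one
  have pq := hR.pq
  have qd := hR.qd
  have de := hR.de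
  have nd := hR.nd
  have p0 : 0 < p := by linarith
  have q0 : 0 < q := by linarith
  have d0 : 0 < d := by linarith
  have e0 : 0 < e := by linarith
  have x0 : 0 < 1 / d := by positivity
  have lt : N / q < N / p := div_lt_div_of_pos_left N0 p0 pq
  have B0 : 0 < N / q := by positivity
  have sm : ∀ z : ℝ, d ≤ z → N / p / z ≤ 1 / 10000 := fun z hz => by
    rw [div_div, div_le_div_iff₀ (mul_pos p0 (d0.trans_le hz)) (by norm_num)]
    nlinarith
  have i1 : q / N = (N / q)⁻¹ := (inv_div _ _).symm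
  have i2 : p / N = (N / p)⁻¹ := (inv_div _ _).symm
  have i3 : p * q / (N * (q - p)) = (N / p - N / q)⁻¹ := by
    rw [div_sub_div _ _ p0.ne' q0.ne', inv_div]
    congr 1
    ring
  have et := HTL.eta_le (ρ := ρ) (σ := ρ + (m + 1) + (k + 1) + j) (by omega)
  have ef : (fun k l => tp ρ k l N p q d e) = fun k l =>
      ((√(1 + -(N / p / e)) - √(1 + -(N / q / e))) * √(1 + -(N / p) * (1 / d))) *
        rs ρ (1 / d) (-(N / p)) 0 (-(N / q)) k (ρ + 1) l := by
    funext k l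
    rw [tp, ← div_div, ← div_div]
    simp only [neg_div]
    ring
  rw [tpJ, ef, rc_mul, i1, i2, i3, show m + 1 + (k + 1) - 2 = m + k by omega, Nat.add_sub_cancel,
    show ρ + (m + 1) + (k + 1) - 1 = m + k + (ρ + 1) by omega, Nat.cast_mul, Nat.cast_mul]
  generalize N / p = A at *
  generalize N / q = B at *
  have A0 : 0 < A := by linarith
  have W0 : 0 < A - B := by linarith
  have s1 : A * (1 / d) ≤ 1 / 10000 := by simpa only [mul_one_div] using sm d le_rfl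
  have s2 := sm e de
  have s3 : B * (1 / d) ≤ A * (1 / d) := by gcongr
  have s4 : B / e ≤ A / e := by gcongr
  have s7 : 0 < B / e := by positivity
  have s8 : 0 < B * (1 / d) := by positivity
  obtain ⟨-, -, -, hs, hn⟩ := h ρ j (m + 1) (k + 1) (1 / d) A B (by omega) (by omega) (by omega)
    A0.ne' B0.ne' lt.ne' (by linarith) (by linarith)
  rw [hs]
  have hc : ∀ i ∈ Finset.range (j + 1), 0 ≤ cj ρ (m + 1 + (k + 1) + j - 2) j i :=
    fun i hi => cj_nn (by omega) (by omega) hi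
  have hm : ∀ i ∈ Finset.range (j + 1), m ≤ ρ - i := fun i hi => by
    have := Finset.mem_range.1 hi; omega
  have n2 := NSIZEN.etaN (ρ := ρ) (σ := ρ + (m + 1) + (k + 1) + j) (u := 1 / d * (A - B))
    (by positivity) (by linarith) (by omega)
  have f2 : |√(1 + -(A / e)) - √(1 + -(B / e))| ≤ 5001 / 10000 * ((A - B) / e) := by
    refine (TSIZE3.sqrt_sub (by linarith) (by linarith)).trans (le_of_eq ?_)
    rw [abs_sub_comm, neg_sub_neg, abs_of_nonneg (by linarith), sub_div]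
  have f3 : |(√(1 + -(A / e)) - √(1 + -(B / e))) * √(1 + -A * (1 / d))| ≤
      5001 / 10000 * ((A - B) / e) := by
    rw [abs_mul]
    exact (mul_le_mul f2 (TSIZE3.sqrt_le (u := -A * (1 / d)) (by linarith)) (abs_nonneg _)
      (by positivity)).trans_eq (mul_one _)
  have nn : (0 : ℝ) ≤ nJ ρ (m + 1) (k + 1) j := Nat.cast_nonneg _
  change _ = (nJ ρ (m + 1) (k + 1) j : ℝ) at hn
  generalize (nJ ρ (m + 1) (k + 1) j : ℝ) = n at *
  refine ⟨?_, ?_, ?_⟩
  · have l := sum_low (σ := (-1) ^ (ρ + 1 + (k + 1)))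
      (F := fun i => rs (ρ - i) (1 / d) (-A) 0 (-B) (m + 1) (ρ + 1) (k + 1))
      (lo := (9999 / 10000) ^ ρ *
        (((m + k).choose m : ℕ) * (A - B)⁻¹ ^ (m + k + 1) * A⁻¹ ^ (ρ + 1))) hc hn fun i hi => by
        refine le_trans ?_ (lowq (ρ - i) (ρ + 1) k m (c := 9999 / 10000) x0 B0 lt (by norm_num)
          (by linarith) (hm i hi))
        exact mul_le_mul_of_nonneg_right
          (pow_le_pow_of_le_one (by norm_num) (by norm_num) (Nat.sub_le _ _)) (by positivity)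
    have f : (A / e - B / e) / 2 ≤ √(1 + -(B / e)) - √(1 + -(A / e)) :=
      sqrt_low (by linarith) s4 s7.le
    have t : 9999 / 10000 ≤ √(1 + -A * (1 / d)) := le_sqrt_of_sq_le (by linarith)
    have f0 : 0 ≤ (A / e - B / e) / 2 := by linarith
    have g := mul_le_mul f (mul_le_mul t l (by positivity) (sqrt_nonneg _)) (by positivity)
      (f0.trans f)
    refine le_trans ?_ (g.trans_eq (by ring))
    generalize (eta (ρ + (m + 1) + (k + 1) + j)) = η at *
    calc _ = (A / e - B / e) / 2 * (η⁻¹ * (n *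
          (((m + k).choose m : ℕ) * (A - B)⁻¹ ^ (m + k + 1) * A⁻¹ ^ (ρ + 1)))) := by
          rw [pow_succ (A - B)⁻¹, ← sub_div]; field_simp
      _ ≤ (A / e - B / e) / 2 * ((9999 / 10000) ^ (ρ + 1) * (n *
          (((m + k).choose m : ℕ) * (A - B)⁻¹ ^ (m + k + 1) * A⁻¹ ^ (ρ + 1)))) := by gcongr
      _ = _ := by ring
  · have u := sum_up (F := fun i => rs (ρ - i) (1 / d) (-A) 0 (-B) (m + 1) (ρ + 1) (k + 1))
      hc hn fun i hi => upa h2 x0 B0 lt (by linarith) (hm i hi) (Nat.sub_le _ _)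
    rw [abs_mul, eta]
    refine (mul_le_mul f3 u (abs_nonneg _) (by positivity)).trans ?_
    refine le_trans (le_of_eq ?_) ((mul_le_mul_of_nonneg_right n2 (show 0 ≤
      n * (((m + k).choose m : ℕ) : ℝ) * (B⁻¹ ^ (ρ + 1) * (A - B)⁻¹ ^ (m + k) / e) by
        positivity)).trans (le_of_eq ?_))
    · generalize (1 + 1 / d * (A - B)) ^ (ρ + 1) = E
      generalize A - B = W at *
      simp only [inv_pow]
      field_simp
      ring
    · ring
  · have u := sum_up (F := fun i => rs (ρ - i) (1 / d) (-A) 0 (-B) (m + 1) (ρ + 1) (k + 1))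
      hc hn fun i hi => upb h2 x0 B0 lt (by linarith) (hm i hi) (Nat.sub_le _ _)
    rw [abs_mul, eta]
    refine (mul_le_mul f3 u (abs_nonneg _) (by positivity)).trans ?_
    refine le_trans (le_of_eq ?_) ((mul_le_mul_of_nonneg_right n2 (show 0 ≤
      n * (((m + k + (ρ + 1)).choose m : ℕ) : ℝ) * (A⁻¹ ^ (ρ + 1) * (A - B)⁻¹ ^ (m + k) / e) by
        positivity)).trans (le_of_eq ?_))
    · generalize (1 + 1 / d * (A - B)) ^ (ρ + 1) = E
      generalize A - B = W at *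
      simp only [inv_pow, div_pow]
      field_simp
      ring
    · ring

theorem T_le {B : ℝ} (hB : 0 < B) {F : ℝ⟦X⟧} (hF : NN F) (n h : ℕ) :
    coeff n (J B * F) ≤ B ^ h * coeff (n + h) (J B * F) := by
  have s : ∀ n, coeff n (J B * F) ≤ B * coeff (n + 1) (J B * F) := fun n => by
    have e : C B * (J B * F) = F + X * (J B * F) := by linear_combination F * J_mul hB.ne'
    have e1 := congrArg (coeff (n + 1)) e
    rw [coeff_C_mul, map_add, coeff_succ_X_mul] at e1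
    linarith [hF (n + 1)]
  induction h with
  | zero => simp
  | succ h ih =>
    rw [pow_succ, mul_assoc]
    exact ih.trans (mul_le_mul_of_nonneg_left (s _) (by positivity))

theorem eta_two {ρ σ : ℕ} {u : ℝ} (h0 : 0 ≤ u) (h : u ≤ 1 / 10000) (hρ : ρ ≤ 1000)
    (hσ : ρ + 1 ≤ σ) : (eta σ)⁻¹ ≤ 2 - (1 + u) ^ (ρ + 1) := by
  have r : (ρ : ℝ) ≤ 1000 := by exact_mod_cast hρ
  have r0 : (0 : ℝ) ≤ ρ := Nat.cast_nonneg _
  have b1 := one_add_mul_le_pow (show (-2 : ℝ) ≤ 1 / 1000 by norm_num) (ρ + 1)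
  have b2 := one_add_mul_le_pow (show (-2 : ℝ) ≤ -u by linarith) (ρ + 1)
  have b3 : (1 + u) ^ (ρ + 1) * (1 + -u) ^ (ρ + 1) ≤ 1 := by
    rw [← mul_pow]
    exact pow_le_one₀ (mul_nonneg (by linarith) (by linarith)) (by nlinarith)
  have b4 : (1 + 1 / 1000 : ℝ) ^ (ρ + 1) ≤ eta σ := by
    rw [eta, show (1001 / 1000 : ℝ) = 1 + 1 / 1000 by norm_num]
    exact pow_le_pow_right₀ (by norm_num) hσ
  have b5 : 0 ≤ (1 + u) ^ (ρ + 1) := by positivity
  push_cast at b1 b2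
  have b6 := mul_le_mul_of_nonneg_left h (show (0 : ℝ) ≤ ρ + 1 by linarith)
  have b7 := (mul_le_mul_of_nonneg_left (show 1 - (ρ + 1) / 10000 ≤ (1 + -u) ^ (ρ + 1) by linarith)
    b5).trans b3
  generalize (1 + u) ^ (ρ + 1) = E at *
  have b8 : E ≤ 1 + (ρ + 1) / 5000 := by nlinarith
  rw [inv_le_iff_one_le_mul₀ (by linarith)]
  refine le_trans ?_ (mul_le_mul (show 1 - (ρ + 1) / 5000 ≤ 2 - E by linarith) (b1.trans b4)
    (by linarith) (by linarith))
  nlinarith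

theorem lowG (ρ n j k m : ℕ) {x A B c : ℝ} (hx : 0 ≤ x) (hA : 0 < A) (hB : 0 < B) (c0 : 0 ≤ c)
    (hc : c ≤ 2 - (1 + x * B) ^ (ρ + 1)) :
    (n.choose j : ℕ) * (c * (((ρ + k).choose ρ : ℕ) * B⁻¹ ^ (ρ + k + 1) * A⁻¹ ^ m)) ≤
      (-1) ^ ρ * coeff ρ (G0 ρ n j x * iv B ^ (k + 1) * iv A ^ m) := by
  have e : J B ^ (k + 1) * J A ^ m = rescale (-1 : ℝ) (iv B ^ (k + 1) * iv A ^ m) := by
    rw [map_mul, map_pow, map_pow, iv_res hB.ne', iv_res hA.ne']
  have t1 := HTL.two hA hB ρ k m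
  have t2 : ∀ i ≤ ρ, coeff (ρ - i) (J B ^ (k + 1) * J A ^ m) ≤
      B ^ i * coeff ρ (J B ^ (k + 1) * J A ^ m) := fun i hi => by
    have := T_le hB (((J_nn hB).pow k).mul ((J_nn hA).pow m)) (ρ - i) i
    rwa [← mul_assoc, ← pow_succ', Nat.sub_add_cancel hi] at this
  have t3 := ((J_nn hB).pow (k + 1)).mul ((J_nn hA).pow m)
  have e2 : ∀ i, coeff i (iv B ^ (k + 1) * iv A ^ m) =
      (-1) ^ i * coeff i (J B ^ (k + 1) * J A ^ m) := fun i => by
    rw [e, coeff_rescale, ← mul_assoc, ← mul_pow]; simp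
  have b := add_pow (x * B) 1 (ρ + 1)
  rw [Finset.sum_range_succ, Finset.sum_range_succ', add_comm (x * B)] at b
  rw [mul_assoc (G0 ρ n j x), coeff_mul, Finset.Nat.sum_antidiagonal_eq_sum_range_succ
    (fun i l => coeff i (G0 ρ n j x) * coeff l (iv B ^ (k + 1) * iv A ^ m)), Finset.sum_range_succ',
    mul_add, Finset.mul_sum]
  simp only [e2]
  generalize J B ^ (k + 1) * J A ^ m = T at *
  have c1 : (0 : ℝ) ≤ (n.choose j : ℕ) := Nat.cast_nonneg _
  have s : ∀ i ∈ Finset.range ρ, -((n.choose j : ℕ) * coeff ρ T) *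
      ((x * B) ^ (i + 1) * 1 ^ (ρ + 1 - (i + 1)) * ((ρ + 1).choose (i + 1) : ℕ)) ≤
      (-1) ^ ρ * (coeff (i + 1) (G0 ρ n j x) * ((-1) ^ (ρ - (i + 1)) * coeff (ρ - (i + 1)) T)) := by
    intro i hi
    have hi' : i + 1 ≤ ρ := Finset.mem_range.1 hi
    refine le_trans ?_ (neg_abs_le _)
    rw [neg_mul, neg_le_neg_iff, abs_mul, abs_neg_one_pow, one_mul, abs_mul, abs_mul,
      abs_neg_one_pow, one_mul, abs_of_nonneg (t3 _), G0, coeff_mk, abs_mul, abs_mul, Nat.abs_cast,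
      abs_of_nonneg (pow_nonneg hx _)]
    have c2 : (((n - (i + 1)).choose j : ℕ) : ℝ) ≤ (n.choose j : ℕ) :=
      Nat.cast_le.2 (Nat.choose_le_choose j (Nat.sub_le _ _))
    have c3 := TBND3.ch ρ (i + 1) (by omega)
    have c4 := t2 _ hi'
    have c5 := t3 (ρ - (i + 1))
    calc _ ≤ ((ρ + 1).choose (i + 1) : ℕ) * (n.choose j : ℕ) * x ^ (i + 1) *
          (B ^ (i + 1) * coeff ρ T) := by gcongr
      _ = _ := by ring
  have s2 := Finset.sum_le_sum s
  rw [← Finset.mul_sum] at s2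
  have z : (-1) ^ ρ * (coeff 0 (G0 ρ n j x) * ((-1) ^ (ρ - 0) * coeff (ρ - 0) T)) =
      (n.choose j : ℕ) * coeff ρ T := by
    rw [G0, coeff_mk, Nat.sub_zero, Nat.sub_zero, mul_left_comm, ← mul_assoc ((-1 : ℝ) ^ ρ),
      ← mul_pow]
    simp
  rw [z]
  have w := mul_nonneg c1 (t3 ρ)
  have y : 0 ≤ (x * B) ^ (ρ + 1) * 1 ^ (ρ + 1 - (ρ + 1)) * ((ρ + 1).choose (ρ + 1) : ℕ) := by
    positivity
  simp only [pow_zero, Nat.choose_zero_right, Nat.cast_one, one_pow, mul_one] at b s2 y ⊢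
  have v := mul_le_mul_of_nonneg_left (show c ≤ 1 - ∑ i ∈ Finset.range ρ,
    (x * B) ^ (i + 1) * ((ρ + 1).choose (i + 1) : ℕ) by linarith) w
  have u := mul_le_mul_of_nonneg_left (mul_le_mul_of_nonneg_left t1 c0) c1
  linarith

open HJ0 in
theorem k0b (h1 : S_JID) (h2 : S_BND3) : S_K0 := by
  intro ρ kp kq j N p q d e h
  obtain ⟨m, rfl⟩ : ∃ m, kp = m + 1 := ⟨kp - 1, by have := h.p1; omega⟩
  obtain ⟨k, rfl⟩ : ∃ k, kq = k + 1 := ⟨kq - 1, by have := h.q1; omega⟩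
  have N0 := h.n0
  have p1 := h.one
  have pq := h.pq
  have qd := h.qd
  have de := h.de
  have nd := h.nd
  have jp := h.jp
  have hρ := h.sm
  have p0 : 0 < p := by linarith
  have q0 : 0 < q := by linarith
  have d0 : 0 < d := by linarith
  have e0 : 0 < e := by linarith
  have x0 : 0 < 1 / d := by positivity
  have lt : N / q < N / p := div_lt_div_of_pos_left N0 p0 pq
  have B0 : 0 < N / q := by positivity
  have sm : ∀ z : ℝ, d ≤ z → N / p / z ≤ 1 / 10000 := fun z hz => by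
    rw [div_div, div_le_div_iff₀ (mul_pos p0 (d0.trans_le hz)) (by norm_num)]
    nlinarith
  have dq : 100 * (N / d) ≤ N / q := by
    rw [← mul_div_assoc, div_le_div_iff₀ d0 q0]
    nlinarith
  have d1 : 0 < N / d := by positivity
  have i1 : q / N = (N / q)⁻¹ := (inv_div _ _).symm
  have i2 : p / N = (N / p)⁻¹ := (inv_div _ _).symm
  have i3 : p * q / (N * (q - p)) = (N / p - N / q)⁻¹ := by
    rw [div_sub_div _ _ p0.ne' q0.ne', inv_div]
    congr 1
    ring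
  have et : 0 < eta (ρ + (m + 1) + (k + 1) + j) := by unfold eta; positivity
  simp only [t0J, t0, neg_div, nJ]
  rw [rc_mul, i1, i2, i3, ← div_div, ← div_div, show ρ + (k + 1) - 1 = ρ + k by omega,
    show ρ + (m + 1) + (k + 1) - 1 = ρ + k + (m + 1) by omega]
  generalize N / p = A at *
  generalize N / q = B at *
  generalize N / d = D at *
  have A0 : 0 < A := by linarith
  have W0 : 0 < A - B := by linarith
  have s1 : A * (1 / d) ≤ 1 / 10000 := by simpa only [mul_one_div] using sm d le_rfl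
  have s2 := sm e de
  have s3 : B * (1 / d) ≤ A * (1 / d) := by gcongr
  have s4 : B / e ≤ A / e := by gcongr
  have s5 : 100 * (D / e) ≤ B / e := by rw [← mul_div_assoc]; gcongr
  have s6 : 0 < D / e := by positivity
  have s7 : 0 < B / e := by positivity
  obtain ⟨r1, -⟩ := h1 ρ j (m + 1) (k + 1) (1 / d) A B (by omega) (by omega) (by omega)
    A0.ne' B0.ne' lt.ne' (by linarith) (by linarith)
  have u := upJ ρ (ρ + (m + 1) + (k + 1) + j - 1) j (k + 1) (m + 1) x0.le A0 B0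
  rw [← r1] at u
  have n1 := NSIZEN.etaN (ρ := ρ) (σ := ρ + (m + 1) + (k + 1) + j) (u := 1 / d * B)
    (by positivity) (by linarith) (by omega)
  rw [← eta] at n1
  have f1 : |√(1 + -(D / e)) - √(1 + -(B / e))| ≤ 5001 / 10000 * (B / e) := by
    refine (TSIZE3.sqrt_sub (by linarith) (by linarith)).trans ?_
    rw [neg_sub_neg, abs_of_nonneg (by linarith)]
    linarith
  have z2 := (HTU.Z_eq _ _ _ _ _ _).trans_le (HTU.core h2 (ρ := ρ) (n := ρ) (l := k) (m := m + 1)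
    (α := 0) x0 (by norm_num) (by norm_num) le_rfl B0 lt.le)
  have z1 := h2 ρ (ρ + 1) (k + 1) (m + 1) (1 / d) 0 B A (by omega) le_rfl (by omega) x0
    (by norm_num) (by norm_num) (by rw [zero_sub, abs_neg, abs_of_pos B0]; exact B0)
    (by rw [zero_sub, zero_sub, abs_neg, abs_neg, abs_of_pos B0, abs_of_pos A0]; exact lt)
  rw [HTU.absneg x0.le (by norm_num) le_rfl B0 A0 (zero_sub B) (zero_sub A), ← HTU.Z_eq, zero_sub,
    zero_sub, abs_neg, abs_neg, abs_of_pos B0, abs_of_pos A0, Nat.add_sub_cancel,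
    show ρ + 1 + (k + 1) - 2 = ρ + k by omega, show ρ + 1 + (k + 1) - 1 = ρ + k + 1 by omega] at z1
  have l2 := lowG ρ (ρ + (m + 1) + (k + 1) + j - 1) j k (m + 1) x0.le A0 B0
    (c := (eta (ρ + (m + 1) + (k + 1) + j))⁻¹) (by unfold eta; positivity)
    (eta_two (by positivity) (by linarith) hρ (by omega))
  rw [← r1] at l2
  push_cast
  generalize rc A B (fun k l => rs ρ (1 / d) 0 (-B) (-A) (ρ + 1) l k) j (m + 1) (k + 1) = R at *
  have c0 : (0 : ℝ) ≤ ((ρ + (m + 1) + (k + 1) + j - 1).choose j : ℕ) := Nat.cast_nonneg _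
  generalize (((ρ + (m + 1) + (k + 1) + j - 1).choose j : ℕ) : ℝ) = c at *
  generalize eta (ρ + (m + 1) + (k + 1) + j) = η at *
  generalize (1 + 1 / d * B) ^ (ρ + 1) = E at *
  have key : ∀ y w : ℝ, 0 ≤ w → Z ρ (k + 1) (m + 1) (1 / d) A B ≤ y → B / e * y = E * w →
      |(√(1 + -(D / e)) - √(1 + -(B / e))) * R| ≤ η / 2 * (c * w) := fun y w w0 a b => by
    rw [abs_mul]
    refine (mul_le_mul f1 (u.trans (mul_le_mul_of_nonneg_left a c0)) (abs_nonneg _)
      (by positivity)).trans ?_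
    have := mul_le_mul_of_nonneg_right n1 (mul_nonneg c0 w0)
    linear_combination this + 5001 / 10000 * c * b
  refine ⟨?_, (key _ (((ρ + k).choose ρ : ℕ) * (B⁻¹ ^ (ρ + k) * (A - B)⁻¹ ^ (m + 1) / e))
    (by positivity) z1 ?_).trans_eq (by ring),
    (key _ (((ρ + k + (m + 1)).choose ρ : ℕ) * (B⁻¹ ^ (ρ + k) * A⁻¹ ^ (m + 1) / e))
      (by positivity) z2 ?_).trans_eq (by ring)⟩
  · have f : 49 / 100 * (B / e) ≤ √(1 + -(D / e)) - √(1 + -(B / e)) :=
      le_trans (by linarith) (sqrt_low (by linarith) (by linarith) s6.le)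
    have g := mul_le_mul f l2 (by positivity) (le_trans (by positivity) f)
    refine le_trans ?_ (g.trans_eq (mul_left_comm _ _ _))
    calc _ = 49 / 100 * (B / e) * (c * (η⁻¹ *
          (((ρ + k).choose ρ : ℕ) * B⁻¹ ^ (ρ + k + 1) * A⁻¹ ^ (m + 1)))) := by
          rw [pow_succ B⁻¹]; field_simp
      _ ≤ _ := le_rfl
  · generalize A - B = W at *
    simp only [inv_pow]
    field_simp
    ring
  · simp only [inv_pow, div_pow]
    field_simp
    ring

end Pool.Agent.MP_2339ce_nt.Q2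

end
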