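import Pool.Agent.MP_2339ce_nt.Q2.HD7
import Pool.Agent.MP_2339ce_nt.Q2.SpecH4

/-! `D(-N)`-quintuples, block HP: exact sizes and one more pole, statements. -/

set_option autoImplicit false

noncomputable section

namespace Pool.Agent.MP_2339ce_nt.Q2

open DQ Real

def pl {K : Type} [Field K] (n k m : ℕ) (x : K) : K :=
  ∑ i ∈ Finset.range (n + 1), ((n - i + k).choose k * (i + m).choose m : ℕ) * x ^ i

structure RgL (ρ kp kq j : ℕ) (N p q d e : ℝ) : Prop where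
  p1 : 1 ≤ kp
  q1 : 1 ≤ kq
  jr : j ≤ ρ
  jp : kp + j ≤ ρ + 2
  sm : ρ ≤ 1000
  n0 : 0 < N
  one : 1 ≤ p
  pq : p < q
  qd : 100 * q ≤ d
  de : d ≤ e
  nd : 10000 * N ≤ d

/-- the main term -/
def S_LM : Prop := ∀ (ρ kp kq j : ℕ) (N p q d e : ℝ) (l₁ l₂ : ℚ), RgL ρ kp kq j N p q d e →
  0 ≤ l₁ → l₁ * q ≤ p → p ≤ l₂ * q →
  wwJ ρ kp kq j N p q d e =
      tmJ ρ kp kq j N p q d e + t0J ρ kp kq j N p q d e + tpJ ρ kp kq j N p q d e ∧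
    be ρ (ρ + kp + kq + j) * (rc (1 : ℚ) l₁ (fun _ _ => 1) j kp kq : ℚ) / eta (ρ + kp + kq + j) *
      ((N / p) ^ j / d ^ (ρ + kp + kq + j)) ≤ (-1) ^ (kp + kq + j + 1) * tmJ ρ kp kq j N p q d e ∧
    (-1) ^ (kp + kq + j + 1) * tmJ ρ kp kq j N p q d e ≤
      be ρ (ρ + kp + kq + j) * (rc (1 : ℚ) l₂ (fun _ _ => 1) j kp kq : ℚ) * eta (ρ + kp + kq + j) *
        ((N / p) ^ j / d ^ (ρ + kp + kq + j)) ∧
    (0 : ℚ) < rc (1 : ℚ) l₁ (fun _ _ => 1) j kp kq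

/-- the error at the node `0` -/
def S_L0 : Prop := ∀ (ρ kp kq j : ℕ) (N p q d e : ℝ), RgL ρ kp kq j N p q d e →
  99 / 200 / eta (ρ + kp + kq + j) * (nJ ρ kp kq j * pl ρ (kq - 1) (kp - 1) (p / q)) *
      ((q / N) ^ (ρ + kq - 1) * (p / N) ^ kp / e) ≤ (-1) ^ ρ * t0J ρ kp kq j N p q d e ∧
    (-1) ^ ρ * t0J ρ kp kq j N p q d e ≤
      eta (ρ + kp + kq + j) / 2 * (nJ ρ kp kq j * pl ρ (kq - 1) (kp - 1) (p / q)) *
        ((q / N) ^ (ρ + kq - 1) * (p / N) ^ kp / e)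

/-- the error at the node `-N / p` -/
def S_LP : Prop := ∀ (ρ kp kq j : ℕ) (N p q d e : ℝ), RgL ρ kp kq j N p q d e →
  1 / 2 / eta (ρ + kp + kq + j) * (nJ ρ kp kq j * pl (kp - 1) (kq - 1) ρ (1 - p / q)) *
      ((p / N) ^ (ρ + 1) * (p * q / (N * (q - p))) ^ (kp + kq - 2) / e) ≤
      (-1) ^ (ρ + kq) * tpJ ρ kp kq j N p q d e ∧
    (-1) ^ (ρ + kq) * tpJ ρ kp kq j N p q d e ≤
      eta (ρ + kp + kq + j) / 2 * (nJ ρ kp kq j * pl (kp - 1) (kq - 1) ρ (1 - p / q)) *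
        ((p / N) ^ (ρ + 1) * (p * q / (N * (q - p))) ^ (kp + kq - 2) / e)

def CtL0 (ρ kp kq j g : ℕ) : Prop := allLe ρ (fun h =>
  ct1 (4 ^ (ρ + 1) * nm ρ h * bn j (ρ + kp + kq - 1 - h)) (dn h * g) (kq - 1) (kp - 1) (ρ - h)) = true

def CtL1 (ρ k l j g : ℕ) : Prop := allLe j (fun i => allLe (k - 1) fun h =>
  ct1 (4 ^ (ρ + 1) * nm (k + l + j - 2) (j - i) * nm ρ i * nm (ρ - i) h)
    (dn (j - i) * dn i * dn h * g) ρ (l - 1) (k - 1 - h)) = true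

/-- `g` divides four times every coefficient of the form -/
def ContL (ρ kp kq j g : ℕ) : Prop :=
  0 < g ∧ CtL0 ρ kp kq j g ∧ CtL1 ρ kq kp j g ∧ CtL1 ρ kp kq j g

instance (ρ kp kq j g : ℕ) : Decidable (ContL ρ kp kq j g) := by
  unfold ContL CtL0 CtL1; infer_instance

def S_LINT : Prop := ∀ (ρ kp kq j s t g : ℕ) (N p q d e : ℤ), 1 ≤ kp → 1 ≤ kq → j ≤ ρ → s ≤ 1 →
  t ≤ 1 → kp + j ≤ ρ + 1 + s → kq + j ≤ ρ + 1 + t → ContL ρ kp kq j g → CfN N p q d e →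
  ∃ i : ℤ, √((p : ℝ) * d - N) ^ s * √((q : ℝ) * d - N) ^ t *
    (√((d : ℝ) * e) * (4 * scN ρ kp kq N p q d / g * wwJ ρ kp kq j N p q d e)) = i

end Pool.Agent.MP_2339ce_nt.Q2

end
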