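import Pool.Agent.MP_2339ce_nt.Q2.HFM4
import Pool.Agent.MP_2339ce_nt.Q2.SpecH7

/-! `D(-N)`-quintuples, block HP: the windows for a range of the ratio are valid. -/

set_option autoImplicit false

noncomputable section

namespace Pool.Agent.MP_2339ce_nt.Q2

open DQ TNQ Real

namespace Fi

variable (f : Fi)

def et : ℚ := (1001 / 1000) ^ f.sg
def l1 : ℚ := f.la / 10000
def l2 : ℚ := if f.lb < 10000 then f.lb / 10000 else 1
def ml : ℚ := beQ f.ρ f.sg * rc 1 f.l1 (fun _ _ => 1) f.j f.kp f.kq / f.et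
def mu : ℚ := beQ f.ρ f.sg * rc 1 f.l2 (fun _ _ => 1) f.j f.kp f.kq * f.et
def rt (l : ℚ) : ℚ := if f.v = 0 then l ^ (f.ρ + f.kq - 1) / (1 - l) ^ (f.kp + f.kq - 2) else 1
def ri (l : ℚ) : ℚ := if f.v = 0 then 1 else (1 - l) ^ (f.kp + f.kq - 2) / l ^ (f.ρ + f.kq - 1)
def nq : ℚ := nJ f.ρ f.kp f.kq f.j
def a1 : ℚ := 99 / 200 / f.et * (f.nq * pl f.ρ (f.kq - 1) (f.kp - 1) f.l1) * f.ri f.l2
def a2 : ℚ := f.et / 2 * (f.nq * pl f.ρ (f.kq - 1) (f.kp - 1) f.l2) * f.ri f.l1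
def b1 : ℚ := 1 / 2 / f.et * (f.nq * pl (f.kp - 1) (f.kq - 1) f.ρ (1 - f.l2)) * f.rt f.l1
def b2 : ℚ := f.et / 2 * (f.nq * pl (f.kp - 1) (f.kq - 1) f.ρ (1 - f.l1)) * f.rt f.l2
def o0 : Bool := (f.kp + f.kq + f.j + f.ρ) % 2 == 0
def op : Bool := (f.kp + f.j + f.ρ) % 2 == 0
def e1 : ℚ := (bif f.o0 then -f.a2 else f.a1) + bif f.op then -f.b2 else f.b1
def e2 : ℚ := (bif f.o0 then -f.a1 else f.a2) + bif f.op then -f.b1 else f.b2

def Good (g : ℕ) : Prop :=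
  (1 ≤ f.kp ∧ 1 ≤ f.kq ∧ f.j ≤ f.ρ ∧ f.s ≤ 1 ∧ f.t ≤ 1 ∧ f.kp + f.j ≤ f.ρ + 1 + f.s ∧
    f.kq + f.j ≤ f.ρ + 1 + f.t ∧ f.ρ ≤ 1000 ∧ 0 < f.th ∧ f.th < 1000) ∧
  ContL f.ρ f.kp f.kq f.j g ∧
  ((f.lb < 10000 → 0 < f.lb ∧ 10000 ^ 100 < 2 ^ f.tb * f.lb ^ 100) ∧
    (0 < f.la → 2 ^ f.ta * f.la ^ 100 < 10000 ^ 100) ∧ (f.v = 0 → f.lb < 10000) ∧
    (f.v ≠ 0 → 0 < f.la)) ∧
  (4 ^ (f.ρ + 1) / g * max (f.e2 * 1000 / (1000 - f.th)) (-f.e1)) ^ 20 ≤ 2 ^ f.m0 ∧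
  (4 ^ (f.ρ + 1) / g * f.mu * 1000 / f.th) ^ 20 ≤ 2 ^ f.mm ∧
  (f.ty = 0 → 0 ≤ f.e1) ∧ (f.ty = 1 → (-f.e1 / f.ml) ^ 100 ≤ 2 ^ f.n0) ∧
  (2 ≤ f.ty → f.e2 < 0 ∧ 2 ^ f.n0 ≤ (-f.e2 / f.mu) ^ 100)

instance (g : ℕ) : Decidable (f.Good g) := by unfold Good; infer_instance

theorem sd_eq : f.wn.sd = f.sd := by
  unfold wn
  split <;> rfl

end Fi

namespace HFI

theorem pl_mono (n k m : ℕ) {x y : ℝ} (h0 : 0 ≤ x) (h : x ≤ y) : pl n k m x ≤ pl n k m y :=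
  Finset.sum_le_sum fun i _ => by gcongr

theorem pl_nn (n k m : ℕ) {x : ℝ} (h0 : 0 ≤ x) : 0 ≤ pl n k m x :=
  Finset.sum_nonneg fun i _ => by positivity

theorem pl_cast (n k m : ℕ) (x : ℚ) : ((pl n k m x : ℚ) : ℝ) = pl n k m (x : ℝ) := by
  simp only [pl]; push_cast; rfl

theorem sq_le {p d N : ℝ} (s : ℕ) (N0 : 0 < N) (h : N < p * d) :
    0 < √(p * d - N) ^ s ∧ √(p * d - N) ^ s ≤ √(p * d) ^ s :=
  ⟨pow_pos (sqrt_pos.2 (by linarith)) s,
    pow_le_pow_left₀ (sqrt_nonneg _) (sqrt_le_sqrt (by linarith)) s⟩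

theorem lg_sq {p d : ℤ} (s : ℕ) (p0 : 0 < p) (d0 : 0 < d) :
    logb 2 (√((p : ℝ) * d) ^ s) = s * ((lg p + lg d) / 2) := by
  have p1 : (0 : ℝ) < p := by exact_mod_cast p0
  have d1 : (0 : ℝ) < d := by exact_mod_cast d0
  rw [logb_pow, sqrt_eq_rpow, logb_rpow_eq_mul_logb_of_pos (by positivity), logb_mul p1.ne' d1.ne',
    lg, lg]
  ring

/-- both errors in terms of one monomial -/
theorem base {A B X2 X4 l₁ l₂ a₁ a₂ b₁ b₂ : ℝ} {n m v : ℕ} (a0 : 0 ≤ a₁) (b0 : 0 ≤ b₁)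
    (P2 : 0 < X2) (P4 : 0 < X4) (h1 : a₁ * X2 ≤ A) (h2 : A ≤ a₂ * X2) (h3 : b₁ * X4 ≤ B)
    (h4 : B ≤ b₂ * X4) (k1 : l₁ ^ n * X2 ≤ (1 - l₁) ^ m * X4) (k2 : (1 - l₂) ^ m * X4 ≤ l₂ ^ n * X2)
    (u1 : l₁ < 1) (u2 : 0 < l₂) (w1 : v = 0 → l₂ < 1) (w2 : v ≠ 0 → 0 < l₁) :
    (a₁ * (if v = 0 then 1 else (1 - l₂) ^ m / l₂ ^ n) * (if v = 0 then X2 else X4) ≤ A ∧
      A ≤ a₂ * (if v = 0 then 1 else (1 - l₁) ^ m / l₁ ^ n) * (if v = 0 then X2 else X4)) ∧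
    b₁ * (if v = 0 then l₁ ^ n / (1 - l₁) ^ m else 1) * (if v = 0 then X2 else X4) ≤ B ∧
      B ≤ b₂ * (if v = 0 then l₂ ^ n / (1 - l₂) ^ m else 1) * (if v = 0 then X2 else X4) := by
  have a2 : 0 ≤ a₂ := a0.trans (le_of_mul_le_mul_right (h1.trans h2) P2)
  have b2 : 0 ≤ b₂ := b0.trans (le_of_mul_le_mul_right (h3.trans h4) P4)
  split_ifs with h
  · have c1 : 0 < (1 - l₁) ^ m := pow_pos (by linarith) m
    have c2 : 0 < (1 - l₂) ^ m := pow_pos (by linarith [w1 h]) m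
    refine ⟨⟨by rwa [mul_one], by rwa [mul_one]⟩, le_trans ?_ h3, h4.trans ?_⟩ <;>
      rw [mul_assoc, div_mul_eq_mul_div]
    · exact mul_le_mul_of_nonneg_left ((div_le_iff₀' c1).2 k1) b0
    · exact mul_le_mul_of_nonneg_left ((le_div_iff₀' c2).2 k2) b2
  · have c1 : 0 < l₁ ^ n := pow_pos (w2 h) n
    have c2 : 0 < l₂ ^ n := pow_pos u2 n
    refine ⟨⟨le_trans ?_ h1, h2.trans ?_⟩, by rwa [mul_one], by rwa [mul_one]⟩ <;>
      rw [mul_assoc, div_mul_eq_mul_div]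
    · exact mul_le_mul_of_nonneg_left ((div_le_iff₀' c2).2 k2) a0
    · exact mul_le_mul_of_nonneg_left ((le_div_iff₀' c1).2 k1) a2

theorem ratio {u v w e x l₁ l₂ : ℝ} (i j ρ : ℕ) (u0 : 0 < u) (w0 : 0 < w) (e0 : 0 < e) (x0 : 0 < x)
    (x1 : x < 1) (h1 : v = x * u) (h2 : v = (1 - x) * w) (l0 : 0 ≤ l₁) (k1 : l₁ ≤ x) (k2 : x ≤ l₂)
    (k3 : l₂ ≤ 1) :
    l₁ ^ (ρ + j) * (u ^ (ρ + j) * v ^ (i + 1) / e) ≤
        (1 - l₁) ^ (i + j) * (v ^ (ρ + 1) * w ^ (i + j) / e) ∧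
      (1 - l₂) ^ (i + j) * (v ^ (ρ + 1) * w ^ (i + j) / e) ≤
        l₂ ^ (ρ + j) * (u ^ (ρ + j) * v ^ (i + 1) / e) := by
  have v0 : 0 < v := by rw [h1]; positivity
  have e1 : x ^ (ρ + j) * (u ^ (ρ + j) * v ^ (i + 1) / e) =
      (1 - x) ^ (i + j) * (v ^ (ρ + 1) * w ^ (i + j) / e) := by
    calc _ = (x * u) ^ (ρ + j) * v ^ (i + 1) / e := by rw [mul_pow]; ring
      _ = v ^ (ρ + 1) * ((1 - x) * w) ^ (i + j) / e := by rw [← h1, ← h2]; ring
      _ = _ := by rw [mul_pow]; ring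
  have y1 : 0 ≤ 1 - x := by linarith
  have y2 : 0 ≤ 1 - l₂ := by linarith
  constructor
  · calc _ ≤ x ^ (ρ + j) * (u ^ (ρ + j) * v ^ (i + 1) / e) := by gcongr
      _ ≤ _ := by rw [e1]; gcongr
  · calc _ ≤ (1 - x) ^ (i + j) * (v ^ (ρ + 1) * w ^ (i + j) / e) := by gcongr
      _ ≤ _ := by rw [← e1]; gcongr

theorem core {Y M E F F' X m₂ e₁ e₂ θ : ℝ} (hY : Y = M + E) (M0 : 0 ≤ M) (F0 : 0 < F) (hF : F ≤ F')
    (X0 : 0 < X) (h : 1 ≤ |F * Y|) (h1 : e₁ * X ≤ E) (h2 : E ≤ e₂ * X) (h3 : M ≤ m₂) (t0 : 0 < θ)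
    (t1 : θ < 1000) :
    1 ≤ F' * m₂ * 1000 / θ ∨ 1 ≤ F' * X * max (e₂ * 1000 / (1000 - θ)) (-e₁) := by
  have F1 : 0 < F' := F0.trans_le hF
  have h' : 1 ≤ |F' * Y| := h.trans (by
    rw [abs_mul, abs_mul, abs_of_pos F0, abs_of_pos F1]; gcongr)
  have a1 := mul_le_mul_of_nonneg_left h1 F1.le
  have a2 := mul_le_mul_of_nonneg_left h2 F1.le
  have a3 := mul_le_mul_of_nonneg_left h3 F1.le
  have a4 := mul_nonneg F1.le M0
  have b1 := mul_le_mul_of_nonneg_left (le_max_left (e₂ * 1000 / (1000 - θ)) (-e₁)) (mul_pos F1 X0).le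
  have b2 := mul_le_mul_of_nonneg_left (le_max_right (e₂ * 1000 / (1000 - θ)) (-e₁)) (mul_pos F1 X0).le
  rw [hY, mul_add] at h'
  rcases le_abs.1 h' with k | k
  · rcases le_total θ (F' * m₂ * 1000) with x | x
    · exact Or.inl ((one_le_div t0).2 x)
    · refine Or.inr (le_trans ?_ b1)
      rw [← mul_div_assoc, le_div_iff₀ (by linarith)]
      linarith
  · exact Or.inr (by linarith)

end HFI

open HFM HFI Fi in
theorem fi_ok (hM : S_LM) (hA : S_L0) (hU : S_LP) (hL : S_LINT) (g : ℕ) :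
    ∀ f : Fi, f.Good g → f.wn.Ok := by
  rintro ⟨pr, ρ, kp, kq, J, s, t, v, ty, la, lb, ta, tb, th, m0, mm, n0⟩
    ⟨⟨k1, k2, k3, k4, k5, k6, k7, k8, t1, t2⟩, ct, ⟨w1, w2, w3, w4⟩, b0, bm, g0, g1, g2⟩
    N a b c d e N1 _ H big hc sd
  obtain ⟨i, rfl⟩ : ∃ i, kp = i + 1 := ⟨kp - 1, by dsimp only at k1; omega⟩
  obtain ⟨j, rfl⟩ : ∃ j, kq = j + 1 := ⟨kq - 1, by dsimp only at k2; omega⟩
  have C := cf H N1 big pr
  have hq : 100 * qq pr b c ≤ d := by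
    have := H.bc
    rcases pr with _ | pr <;> simp only [qq] <;> omega
  have pv := pair_v (N := N) (a := a) (b := b) (c := c) (d := d) pr
  rw [sd_eq] at sd
  set f : Fi := ⟨pr, ρ, i + 1, j + 1, J, s, t, v, ty, la, lb, ta, tb, th, m0, mm, n0⟩ with hf
  have F : (f.ρ = ρ ∧ f.kp = i + 1 ∧ f.kq = j + 1 ∧ f.j = J ∧ f.s = s ∧ f.t = t) ∧
      (f.m0 = m0 ∧ f.mm = mm ∧ f.n0 = n0) ∧ f.la = la ∧ f.lb = lb ∧ f.ta = ta ∧ f.tb = tb ∧
      f.th = th ∧ f.v = v ∧ f.ty = ty :=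
    ⟨⟨rfl, rfl, rfl, rfl, rfl, rfl⟩, ⟨rfl, rfl, rfl⟩, rfl, rfl, rfl, rfl, rfl, rfl, rfl⟩
  simp only [F] at k3 k4 k5 k6 k7 k8 t1 t2 ct w1 w2 w3 w4 b0 bm g0 g1 g2
  generalize pp pr a b = p, qq pr b c = q at C hq pv
  have N0 : (0 : ℝ) < N := by exact_mod_cast N1
  have p1 : (1 : ℝ) ≤ p := by exact_mod_cast C.p0
  have pq : (p : ℝ) < q := by exact_mod_cast C.pq
  have qd : (q : ℝ) < d := by exact_mod_cast C.qd
  have de : (d : ℝ) ≤ e := by exact_mod_cast C.de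
  have bg : 10000 * (N : ℝ) ≤ d := by exact_mod_cast big
  have p0 : (0 : ℝ) < p := by linarith
  have q0 : (0 : ℝ) < q := by linarith
  have d0 : (0 : ℝ) < d := by linarith
  have e0 : (0 : ℝ) < e := by linarith
  have D0 : (0 : ℝ) < q - p := by linarith
  have R : RgL ρ (i + 1) (j + 1) J N p q d e :=
    ⟨k1, k2, k3, by omega, k8, N0, p1, pq, by exact_mod_cast hq, de, bg⟩
  obtain ⟨z, hz⟩ := hL ρ (i + 1) (j + 1) J s t g N p q d e k1 k2 k3 k4 k5 k6 k7 ct C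
  rw [scN, show i + 1 + (j + 1) - 1 = i + j + 1 by omega] at hz
  have g0' : (0 : ℝ) < g := by exact_mod_cast ct.1
  have x0 : 0 < (p : ℝ) / q := by positivity
  have x1 : (p : ℝ) / q < 1 := (div_lt_one q0).2 pq
  have L1 : (f.l1 : ℝ) = la / 10000 := by rw [l1]; push_cast; rfl
  have y0 : (0 : ℝ) ≤ f.l1 := by rw [L1]; positivity
  have y1 : (f.l1 : ℝ) ≤ p / q := by
    rcases Nat.eq_zero_or_pos la with h | h
    · rw [L1, h]; simpa using x0.le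
    · have k := sd f.near (List.mem_append_right _ (by
        rw [show Nat.blt 0 f.la = true from Nat.blt_eq.mpr h]; exact List.mem_cons_self))
      rw [near, pv] at k
      simp only [F] at k
      have k' := rat1 (p := p) (q := q) la 10000 100 ta C.p0 (C.p0.trans C.pq)
        (by exact_mod_cast h) (by norm_num) (by exact_mod_cast w2 h) (by push_cast at k ⊢; linarith)
      have k'' : (la : ℝ) * q ≤ 10000 * p := by exact_mod_cast k'
      rw [L1, div_le_div_iff₀ (by norm_num) q0]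
      linarith
  have y2 : (p : ℝ) / q ≤ f.l2 ∧ (f.l2 : ℝ) ≤ 1 ∧ (lb < 10000 → (f.l2 : ℝ) < 1) := by
    rw [Fi.l2]
    simp only [F]
    split_ifs with h
    · have k := sd f.far (List.mem_append_left _ (by
        rw [show Nat.blt f.lb 10000 = true from Nat.blt_eq.mpr h]; exact List.mem_cons_self))
      rw [far, pv] at k
      simp only [F] at k
      have k' := rat2 (p := p) (q := q) lb 10000 100 tb C.p0 (C.p0.trans C.pq)
        (by exact_mod_cast (w1 h).1) (by norm_num) (by exact_mod_cast (w1 h).2)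
        (by push_cast at k ⊢; linarith)
      have k'' : (10000 : ℝ) * p ≤ lb * q := by exact_mod_cast k'
      have h' : (lb : ℝ) < 10000 := by exact_mod_cast h
      push_cast
      refine ⟨?_, by linarith, fun _ => by linarith⟩
      rw [div_le_div_iff₀ q0 (by norm_num)]
      linarith
    · exact ⟨by simpa using x1.le, by simp, fun k => absurd k h⟩
  obtain ⟨y2, y3, y4⟩ := y2
  obtain ⟨a0, a1', a2', a9⟩ := hM _ _ _ _ _ _ _ _ _ f.l1 f.l2 R (by exact_mod_cast y0)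
    ((le_div_iff₀ q0).1 y1) ((div_le_iff₀ q0).1 y2)
  obtain ⟨a3, a4⟩ := hA _ _ _ _ _ _ _ _ _ R
  obtain ⟨a5, a6⟩ := hU _ _ _ _ _ _ _ _ _ R
  have sp := splitJ ρ (i + 1) (j + 1) J (tmJ ρ (i + 1) (j + 1) J N p q d e)
    (t0J ρ (i + 1) (j + 1) J N p q d e) (tpJ ρ (i + 1) (j + 1) J N p q d e)
  rw [← a0] at sp
  have eE : eta (ρ + (i + 1) + (j + 1) + J) = (f.et : ℝ) := by rw [eta, et]; push_cast; rfl
  have eB : be ρ (ρ + (i + 1) + (j + 1) + J) = (beQ ρ f.sg : ℚ) := be3 _ _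
  have E0 : (0 : ℝ) < f.et := by rw [← eE, eta]; positivity
  have eL : ((beQ ρ f.sg : ℚ) : ℝ) * (rc (1 : ℚ) f.l1 (fun _ _ => 1) J (i + 1) (j + 1) : ℚ) / f.et =
      f.ml := by rw [ml]; push_cast; rfl
  have eU : ((beQ ρ f.sg : ℚ) : ℝ) * (rc (1 : ℚ) f.l2 (fun _ _ => 1) J (i + 1) (j + 1) : ℚ) * f.et =
      f.mu := by rw [Fi.mu]; push_cast; rfl
  have M0 : (0 : ℝ) < f.ml := by
    rw [← eL]
    exact div_pos (mul_pos (by exact_mod_cast bq_pos _ _) (by exact_mod_cast a9)) E0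
  rw [eE] at a1' a2' a3 a4 a5 a6
  rw [eB, eL] at a1'
  rw [eB, eU] at a2'
  rw [show ρ + (j + 1) - 1 = ρ + j by omega, Nat.add_sub_cancel, Nat.add_sub_cancel] at a3 a4
  rw [show i + 1 + (j + 1) - 2 = i + j by omega, Nat.add_sub_cancel, Nat.add_sub_cancel] at a5 a6
  have u0 : 0 < (q : ℝ) / N := by positivity
  have v0 : 0 < (p : ℝ) / N := by positivity
  have w0 : 0 < (p : ℝ) * q / (N * (q - p)) := by positivity
  have P2 : 0 < ((q : ℝ) / N) ^ (ρ + j) * (p / N) ^ (i + 1) / e := by positivity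
  have P4 : 0 < ((p : ℝ) / N) ^ (ρ + 1) * (p * q / (N * (q - p))) ^ (i + j) / e := by positivity
  have P6 : 0 < ((N : ℝ) / p) ^ J / (d : ℝ) ^ (ρ + (i + 1) + (j + 1) + J) := by positivity
  obtain ⟨r1, r2⟩ := ratio (v := p / N) i j ρ u0 w0 e0 x0 x1 (by field_simp) (by field_simp) y0 y1
    y2 y3
  have n0' : (0 : ℝ) ≤ nJ ρ (i + 1) (j + 1) J := Nat.cast_nonneg _
  have c1 := pl_mono ρ j i y0 y1
  have c2 := pl_mono ρ j i x0.le y2
  have c3 := pl_mono i j ρ (sub_nonneg.2 y3) (sub_le_sub_left y2 1)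
  have c4 := pl_mono i j ρ (sub_nonneg.2 x1.le) (sub_le_sub_left y1 1)
  have c5 := pl_nn ρ j i y0
  have c6 := pl_nn i j ρ (sub_nonneg.2 y3)
  have bs := base (v := v) (a₁ := 99 / 200 / f.et * (nJ ρ (i + 1) (j + 1) J * pl ρ j i (f.l1 : ℝ)))
    (a₂ := f.et / 2 * (nJ ρ (i + 1) (j + 1) J * pl ρ j i (f.l2 : ℝ)))
    (b₁ := 1 / 2 / f.et * (nJ ρ (i + 1) (j + 1) J * pl i j ρ (1 - f.l2 : ℝ)))
    (b₂ := f.et / 2 * (nJ ρ (i + 1) (j + 1) J * pl i j ρ (1 - f.l1 : ℝ)))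
    (by positivity) (by positivity) P2 P4 (le_trans (by gcongr) a3) (a4.trans (by gcongr))
    (le_trans (by gcongr) a5) (a6.trans (by gcongr)) r1 r2 (y1.trans_lt x1) (x0.trans_le y2)
    (fun h => y4 (w3 h)) fun h => by
      have : (0 : ℝ) < la := by exact_mod_cast w4 h
      rw [L1]; positivity
  have eI : ∀ l : ℚ, (if v = 0 then (1 : ℝ) else (1 - l) ^ (i + j) / l ^ (ρ + j)) = f.ri l :=
    fun l => by
      rw [ri]; simp only [F]
      rw [show ρ + (j + 1) - 1 = ρ + j by omega, show i + 1 + (j + 1) - 2 = i + j by omega]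
      split_ifs <;> push_cast <;> rfl
  have eT : ∀ l : ℚ, (if v = 0 then (l : ℝ) ^ (ρ + j) / (1 - l) ^ (i + j) else 1) = f.rt l :=
    fun l => by
      rw [rt]; simp only [F]
      rw [show ρ + (j + 1) - 1 = ρ + j by omega, show i + 1 + (j + 1) - 2 = i + j by omega]
      split_ifs <;> push_cast <;> rfl
  rw [eI, eI, eT, eT] at bs
  have lδ : lg (q - p) = logb 2 ((q : ℝ) - p) := by rw [lg]; push_cast; rfl
  have lu : logb 2 ((q : ℝ) / N) = lg q - lg N := logb_div q0.ne' N0.ne'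
  have lv : logb 2 ((p : ℝ) / N) = lg p - lg N := logb_div p0.ne' N0.ne'
  have lw : logb 2 ((p : ℝ) * q / (N * (q - p))) = lg p + lg q - lg N - lg (q - p) := by
    rw [logb_div (by positivity) (by positivity), logb_mul p0.ne' q0.ne', logb_mul N0.ne' D0.ne',
      lδ, lg, lg, lg]
    ring
  have lX : ∀ (x y : ℝ) (m n : ℕ), 0 < x → 0 < y →
      logb 2 (x ^ m * y ^ n / e) = m * logb 2 x + n * logb 2 y - lg e := fun x y m n hx hy => by
    rw [logb_div (by positivity) e0.ne', logb_mul (by positivity) (by positivity), logb_pow,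
      logb_pow, lg]
  have x2 := lX _ _ (ρ + j) (i + 1) u0 v0
  have x4 := lX _ _ (ρ + 1) (i + j) v0 w0
  rw [lu, lv] at x2
  rw [lv, lw] at x4
  have x6 : logb 2 (((N : ℝ) / p) ^ J / (d : ℝ) ^ (ρ + (i + 1) + (j + 1) + J)) =
      J * (lg N - lg p) - (ρ + i + j + 2 + J) * lg d := by
    rw [logb_div (by positivity) (by positivity), logb_pow, logb_pow, logb_div N0.ne' p0.ne', lg, lg,
      lg]
    push_cast
    ring
  have r0 : 0 < √((d : ℝ) * e) := sqrt_pos.2 (by positivity)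
  have lr : logb 2 √((d : ℝ) * e) = (lg d + lg e) / 2 := by
    rw [sqrt_eq_rpow, logb_rpow_eq_mul_logb_of_pos (by positivity), logb_mul d0.ne' e0.ne', lg, lg]
    ring
  obtain ⟨G, hG⟩ : ∃ G : ℝ, G = √((d : ℝ) * e) * (d ^ ρ * N ^ (ρ + (i + 1) + (j + 1)) *
    (q - p) ^ (i + j + 1) / (p ^ (i + 1) * q ^ (j + 1))) := ⟨_, rfl⟩
  have G0 : 0 < G := by rw [hG]; positivity
  have lG : logb 2 G = (lg d + lg e) / 2 + ρ * lg d + (ρ + i + j + 2) * lg N +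
      (i + j + 1) * lg (q - p) - (i + 1) * lg p - (j + 1) * lg q := by
    rw [hG, logb_mul r0.ne' (by positivity), lr, logb_div (by positivity) (by positivity),
      logb_mul (by positivity) (by positivity), logb_mul (by positivity) (by positivity),
      logb_mul (by positivity) (by positivity), logb_pow, logb_pow, logb_pow, logb_pow, logb_pow,
      lδ, lg, lg, lg, lg, lg]
    push_cast
    ring
  obtain ⟨s1, s2⟩ := sq_le (p := p) (d := d) s N0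
    ((by linarith only [N0, bg] : (N : ℝ) < d).trans_le (le_mul_of_one_le_left d0.le p1))
  obtain ⟨s3, s4⟩ := sq_le (p := q) (d := d) t N0
    ((by linarith only [N0, bg] : (N : ℝ) < d).trans_le (le_mul_of_one_le_left d0.le (p1.trans pq.le)))
  have s5 := lg_sq s C.p0 (show 0 < d by exact_mod_cast d0)
  have s6 := lg_sq t (C.p0.trans C.pq) (show 0 < d by exact_mod_cast d0)
  have s7 := s1.trans_le s2
  have s8 := s3.trans_le s4
  have hz' : 4 ^ (ρ + 1) / g * (√((p : ℝ) * d - N) ^ s * √((q : ℝ) * d - N) ^ t * G) *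
      wwJ ρ (i + 1) (j + 1) J N p q d e = z := by
    rw [← hz, hG]; ring
  generalize √((p : ℝ) * d - N) ^ s = S1 at *
  generalize √((q : ℝ) * d - N) ^ t = S2 at *
  generalize √((p : ℝ) * d) ^ s = T1 at *
  generalize √((q : ℝ) * d) ^ t = T2 at *
  have lH : logb 2 (T1 * T2 * G) = s * ((lg p + lg d) / 2) + t * ((lg q + lg d) / 2) + logb 2 G := by
    rw [logb_mul (by positivity) G0.ne', logb_mul s7.ne' s8.ne', s5, s6]
  have H0 : 0 < T1 * T2 * G := by positivity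
  have es : ((f.sg : ℕ) : ℝ) = ρ + i + j + 2 + J := by rw [sg]; simp only [F]; push_cast; ring
  generalize ((q : ℝ) / N) ^ (ρ + j) * (p / N) ^ (i + 1) / e = X2 at *
  generalize ((p : ℝ) / N) ^ (ρ + 1) * (p * q / (N * (q - p))) ^ (i + j) / e = X4 at *
  generalize ((N : ℝ) / p) ^ J / (d : ℝ) ^ (ρ + (i + 1) + (j + 1) + J) = X6 at *
  have vX : 0 < (if v = 0 then X2 else X4) ∧
      f.lo.v N a b c d = m0 / 10 + lg e + 2 * (logb 2 (T1 * T2 * G) +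
        logb 2 (if v = 0 then X2 else X4)) ∧
      f.mid.v N a b c d = n0 / 100 + lg e + logb 2 (if v = 0 then X2 else X4) - logb 2 X6 := by
    rw [lo, mid, lH, lG, x6]
    simp only [F]
    split_ifs
    · refine ⟨P2, ?_, ?_⟩ <;> rw [pv, x2] <;> push_cast <;> [ring; (rw [es]; ring)]
    · refine ⟨P4, ?_, ?_⟩ <;> rw [pv, x4] <;> push_cast <;> [ring; (rw [es]; ring)]
  have vT : f.top.v N a b c d = -(mm / 10) + lg e - 2 * (logb 2 (T1 * T2 * G) + logb 2 X6) := by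
    rw [top, lH, lG, x6, pv]; simp only [F]; push_cast; rw [es]; ring
  generalize (if v = 0 then X2 else X4) = X at *
  obtain ⟨X0, vL, vM⟩ := vX
  generalize (-1 : ℝ) ^ ρ * t0J ρ (i + 1) (j + 1) J N p q d e = A at *
  generalize (-1 : ℝ) ^ (ρ + (j + 1)) * tpJ ρ (i + 1) (j + 1) J N p q d e = B at *
  generalize (-1 : ℝ) ^ (i + 1 + (j + 1) + J + 1) * tmJ ρ (i + 1) (j + 1) J N p q d e = M at *
  change _ = M + (bif f.o0 then -A else A) + (bif f.op then -B else B) at sp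
  have eb : (f.a1 * X ≤ A ∧ A ≤ f.a2 * X) ∧ f.b1 * X ≤ B ∧ B ≤ f.b2 * X := by
    rw [a1, a2, b1, b2, nq]
    simp only [F, Nat.add_sub_cancel]
    push_cast [pl_cast]
    exact bs
  have ee : (f.e1 : ℝ) * X ≤ (bif f.o0 then -A else A) + (bif f.op then -B else B) ∧
      (bif f.o0 then -A else A) + (bif f.op then -B else B) ≤ f.e2 * X := by
    rw [e1, e2]
    obtain ⟨⟨h1, h2⟩, h3, h4⟩ := eb
    cases f.o0 <;> cases f.op <;> simp only [cond_true, cond_false] <;> push_cast <;>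
      constructor <;> linarith
  rw [add_assoc M] at sp
  generalize (bif f.o0 then -A else A) + (bif f.op then -B else B) = E at sp ee
  have m0' : 0 < f.ml * X6 := by positivity
  have fin : ∀ L U : List Af, (0 = M + E →
      (∃ l ∈ L, lg e ≤ l.v N a b c d) ∨ ∃ h ∈ U, h.v N a b c d ≤ lg e) →
      (∃ l ∈ f.lo :: L, lg e ≤ l.v N a b c d) ∨ ∃ h ∈ f.top :: U, h.v N a b c d ≤ lg e := by
    intro L U k
    by_cases hw : wwJ ρ (i + 1) (j + 1) J N p q d e = 0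
    · rw [hw, mul_zero] at sp
      exact (k sp).imp (fun ⟨l, x, y⟩ => ⟨l, by simp [x], y⟩) fun ⟨l, x, y⟩ => ⟨l, by simp [x], y⟩
    have F0 : (0 : ℝ) < 4 ^ (ρ + 1) / g * (S1 * S2 * G) := by positivity
    have z0 : z ≠ 0 := by
      rintro rfl
      exact mul_ne_zero F0.ne' hw (by simpa using hz')
    have z1 : (1 : ℝ) ≤ |(z : ℝ)| := by exact_mod_cast Int.one_le_abs z0
    have z2 : 1 ≤ |4 ^ (ρ + 1) / g * (S1 * S2 * G) * ((-1) ^ (i + 1 + (j + 1) + J + 1) *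
        wwJ ρ (i + 1) (j + 1) J N p q d e)| := by
      rwa [mul_left_comm, abs_mul, abs_neg_one_pow, one_mul, hz']
    rcases HFI.core (F' := 4 ^ (ρ + 1) / g * (T1 * T2 * G)) (θ := th) sp (m0'.le.trans a1') F0
      (by gcongr) X0 z2 ee.1 ee.2 a2' (by exact_mod_cast t1) (by exact_mod_cast t2) with k | k
    · have := lg1 bm (mul_pos H0 P6) one_pos (k.trans_eq (by push_cast; ring))
      rw [logb_mul H0.ne' P6.ne', logb_one] at this
      push_cast at this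
      exact Or.inr ⟨_, List.mem_cons_self, by rw [vT]; linarith only [this]⟩
    · have := lg1 b0 (mul_pos H0 X0) one_pos (k.trans_eq (by push_cast; ring))
      rw [logb_mul H0.ne' X0.ne', logb_one] at this
      push_cast at this
      exact Or.inl ⟨_, List.mem_cons_self, by rw [vL]; linarith only [this]⟩
  obtain h | h | h : ty = 0 ∨ ty = 1 ∨ 2 ≤ ty := by omega
  · subst h
    refine fin [] [] fun k => ?_
    have y : (0 : ℝ) ≤ f.e1 := by exact_mod_cast g0 rfl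
    have := mul_nonneg y X0.le
    linarith [ee.1]
  · subst h
    refine fin _ [] fun k => Or.inl ⟨_, List.mem_cons_self, ?_⟩
    have := lg1 (g1 rfl) X0 P6 (by
      push_cast
      rw [div_mul_eq_mul_div, le_div_iff₀ M0]
      linarith [ee.1])
    push_cast at this
    rw [vM]; linarith only [this]
  · obtain ⟨k, rfl⟩ := Nat.exists_eq_add_of_le' h
    obtain ⟨y, y'⟩ := g2 h
    have y'' : (f.e2 : ℝ) < 0 := by exact_mod_cast y
    have U0 : (0 : ℝ) < f.mu := (mul_pos_iff_of_pos_right P6).1 (m0'.trans_le (a1'.trans a2'))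
    refine fin [] _ fun k => Or.inr ⟨_, List.mem_cons_self, ?_⟩
    have := lg2 (y := X6) y' X0 (by push_cast; exact div_pos (by linarith) U0) (by
      push_cast
      rw [div_mul_eq_mul_div, div_le_iff₀ U0]
      linarith [ee.2])
    push_cast at this
    rw [vM]; linarith only [this]

end Pool.Agent.MP_2339ce_nt.Q2

end
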