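import Pool.Agent.MP_2339ce_nt.Q2.SpecH7
import Pool.Agent.MP_2339ce_nt.Q2.HK

/-! `D(-N)`-quintuples, block HP: the exact size of the error at the node `0`. -/

set_option autoImplicit false

noncomputable section

namespace Pool.Agent.MP_2339ce_nt.Q2

open DQ DQ.Sgn DQ.NNZC PowerSeries Real

namespace HL0

theorem coeff_pl {x y : ℝ} (hx : x ≠ 0) (hy : y ≠ 0) (n k m : ℕ) :
    coeff n (J x ^ (k + 1) * J y ^ (m + 1)) =
      x⁻¹ ^ (n + k + 1) * y⁻¹ ^ (m + 1) * pl n k m (x / y) := by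
  rw [mul_comm, coeff_mul, Finset.Nat.sum_antidiagonal_eq_sum_range_succ
    (fun i l => coeff i (J y ^ (m + 1)) * coeff l (J x ^ (k + 1))), pl, Finset.mul_sum]
  refine Finset.sum_congr rfl fun i hi => ?_
  obtain ⟨l, rfl⟩ := Nat.exists_eq_add_of_le (Nat.lt_succ_iff.1 (Finset.mem_range.1 hi))
  rw [HTL.coeff_J, HTL.coeff_J, Nat.add_sub_cancel_left, Nat.choose_symm_add, Nat.choose_symm_add,
    Nat.cast_mul]
  simp only [inv_pow, div_pow]
  field_simp
  ring

theorem Z_le (ρ k m : ℕ) {x A B : ℝ} (hx : 0 ≤ x) (hA : 0 < A) (hB : 0 < B) :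
    Z ρ (k + 1) m x A B ≤ (1 + x * B) ^ (ρ + 1) * coeff ρ (J B ^ (k + 1) * J A ^ m) := by
  have t3 := ((J_nn hB).pow (k + 1)).mul ((J_nn hA).pow m)
  rw [Z, Finset.Nat.sum_antidiagonal_eq_sum_range_succ (fun i l =>
    Ring.choose ((ρ : ℝ) + 1 / 2) i * x ^ i * coeff l (J B ^ (k + 1) * J A ^ m)), add_comm 1,
    add_pow, Finset.sum_range_succ _ (ρ + 1), add_mul, Finset.sum_mul]
  refine le_add_of_le_of_nonneg (Finset.sum_le_sum fun i hi => ?_)
    (mul_nonneg (by positivity) (t3 _))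
  have hi' : i ≤ ρ := Nat.lt_succ_iff.1 (Finset.mem_range.1 hi)
  have t2 := T_le hB (((J_nn hB).pow k).mul ((J_nn hA).pow m)) (ρ - i) i
  rw [← mul_assoc, ← pow_succ', Nat.sub_add_cancel hi'] at t2
  have c3 := (le_abs_self _).trans (TBND3.ch ρ i (by omega))
  have c5 := t3 (ρ - i)
  calc _ ≤ ((ρ + 1).choose i : ℕ) * x ^ i * (B ^ i * coeff ρ (J B ^ (k + 1) * J A ^ m)) := by
        gcongr
    _ = _ := by ring

theorem lowG' (ρ n j k m : ℕ) {x A B c : ℝ} (hx : 0 ≤ x) (hA : 0 < A) (hB : 0 < B)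
    (hc : c ≤ 2 - (1 + x * B) ^ (ρ + 1)) :
    (n.choose j : ℕ) * (c * coeff ρ (J B ^ (k + 1) * J A ^ m)) ≤
      (-1) ^ ρ * coeff ρ (G0 ρ n j x * iv B ^ (k + 1) * iv A ^ m) := by
  have e : J B ^ (k + 1) * J A ^ m = rescale (-1 : ℝ) (iv B ^ (k + 1) * iv A ^ m) := by
    rw [map_mul, map_pow, map_pow, iv_res hB.ne', iv_res hA.ne']
  have t2 : ∀ i ≤ ρ, coeff (ρ - i) (J B ^ (k + 1) * J A ^ m) ≤
      B ^ i * coeff ρ (J B ^ (k + 1) * J A ^ m) := fun i hi => by
    have := T_le hB (((J_nn hB).pow k).mul ((J_nn hA).pow m)) (ρ - i) i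
    rwa [← mul_assoc, ← pow_succ', Nat.sub_add_cancel hi] at this
  have t3 := ((J_nn hB).pow (k + 1)).mul ((J_nn hA).pow m)
  have e2 : ∀ i, coeff i (iv B ^ (k + 1) * iv A ^ m) =
      (-1) ^ i * coeff i (J B ^ (k + 1) * J A ^ m) := fun i => by
    rw [e, coeff_rescale, ← mul_assoc, ← mul_pow]; simp
  have b := add_pow (x * B) 1 (ρ + 1)
  rw [Finset.sum_range_succ, Finset.sum_range_succ', add_comm (x * B)] at b
  rw [mul_assoc (G0 ρ n j x), coeff_mul _ (G0 ρ n j x), Finset.Nat.sum_antidiagonal_eq_sum_range_succ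
    (fun i l => coeff i (G0 ρ n j x) * coeff l (iv B ^ (k + 1) * iv A ^ m)), Finset.sum_range_succ',
    mul_add, Finset.mul_sum]
  simp only [e2]
  generalize J B ^ (k + 1) * J A ^ m = T at *
  have c1 : (0 : ℝ) ≤ (n.choose j : ℕ) := Nat.cast_nonneg _
  have s : ∀ i ∈ Finset.range ρ, -((n.choose j : ℕ) * coeff ρ T) *
      ((x * B) ^ (i + 1) * 1 ^ (ρ + 1 - (i + 1)) * ((ρ + 1).choose (i + 1) : ℕ)) ≤
      (-1) ^ ρ * (coeff (i + 1) (G0 ρ n j x) * ((-1) ^ (ρ - (i + 1)) * coeff (ρ - (i + 1)) T)) := by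
    intro i hi
    have hi' : i + 1 ≤ ρ := Finset.mem_range.1 hi
    refine le_trans ?_ (neg_abs_le _)
    rw [neg_mul, neg_le_neg_iff, abs_mul, abs_neg_one_pow, one_mul, abs_mul, abs_mul,
      abs_neg_one_pow, one_mul, abs_of_nonneg (t3 _), G0, coeff_mk, abs_mul, abs_mul, Nat.abs_cast,
      abs_of_nonneg (pow_nonneg hx _)]
    have c2 : (((n - (i + 1)).choose j : ℕ) : ℝ) ≤ (n.choose j : ℕ) :=
      Nat.cast_le.2 (Nat.choose_le_choose j (Nat.sub_le _ _))
    have c3 := TBND3.ch ρ (i + 1) (by omega)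
    have c4 := t2 _ hi'
    have c5 := t3 (ρ - (i + 1))
    calc _ ≤ ((ρ + 1).choose (i + 1) : ℕ) * (n.choose j : ℕ) * x ^ (i + 1) *
          (B ^ (i + 1) * coeff ρ T) := by gcongr
      _ = _ := by ring
  have s2 := Finset.sum_le_sum s
  rw [← Finset.mul_sum] at s2
  have z : (-1) ^ ρ * (coeff 0 (G0 ρ n j x) * ((-1) ^ (ρ - 0) * coeff (ρ - 0) T)) =
      (n.choose j : ℕ) * coeff ρ T := by
    rw [G0, coeff_mk, Nat.sub_zero, Nat.sub_zero, mul_left_comm, ← mul_assoc ((-1 : ℝ) ^ ρ),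
      ← mul_pow]
    simp
  rw [z]
  have w := mul_nonneg c1 (t3 ρ)
  have y : 0 ≤ (x * B) ^ (ρ + 1) * 1 ^ (ρ + 1 - (ρ + 1)) * ((ρ + 1).choose (ρ + 1) : ℕ) := by
    positivity
  simp only [pow_zero, Nat.choose_zero_right, Nat.cast_one, one_pow, mul_one] at b s2 y ⊢
  have v := mul_le_mul_of_nonneg_left (show c ≤ 1 - ∑ i ∈ Finset.range ρ,
    (x * B) ^ (i + 1) * ((ρ + 1).choose (i + 1) : ℕ) by linarith) w
  linarith

end HL0

open HJ0 in
theorem l0b (h1 : S_JID) : S_L0 := by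
  intro ρ kp kq j N p q d e h
  obtain ⟨m, rfl⟩ : ∃ m, kp = m + 1 := ⟨kp - 1, by have := h.p1; omega⟩
  obtain ⟨k, rfl⟩ : ∃ k, kq = k + 1 := ⟨kq - 1, by have := h.q1; omega⟩
  have N0 := h.n0
  have p1 := h.one
  have pq := h.pq
  have qd := h.qd
  have de := h.de
  have nd := h.nd
  have jr := h.jr
  have hρ := h.sm
  have p0 : 0 < p := by linarith
  have q0 : 0 < q := by linarith
  have d0 : 0 < d := by linarith
  have e0 : 0 < e := by linarith
  have x0 : 0 < 1 / d := by positivity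
  have lt : N / q < N / p := div_lt_div_of_pos_left N0 p0 pq
  have B0 : 0 < N / q := by positivity
  have sm : ∀ z : ℝ, d ≤ z → N / p / z ≤ 1 / 10000 := fun z hz => by
    rw [div_div, div_le_div_iff₀ (mul_pos p0 (d0.trans_le hz)) (by norm_num)]
    nlinarith
  have dq : 100 * (N / d) ≤ N / q := by
    rw [← mul_div_assoc, div_le_div_iff₀ d0 q0]
    nlinarith
  have d1 : 0 < N / d := by positivity
  have i1 : q / N = (N / q)⁻¹ := (inv_div _ _).symm
  have i2 : p / N = (N / p)⁻¹ := (inv_div _ _).symm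
  have i3 : p / q = N / q / (N / p) := by field_simp
  have et : 0 < eta (ρ + (m + 1) + (k + 1) + j) := by unfold eta; positivity
  simp only [t0J, t0, neg_div, nJ]
  rw [rc_mul, i1, i2, i3, ← div_div, ← div_div, show ρ + (k + 1) - 1 = ρ + k by omega,
    Nat.add_sub_cancel, Nat.add_sub_cancel]
  generalize N / p = A at *
  generalize N / q = B at *
  generalize N / d = D at *
  have A0 : 0 < A := by linarith
  have s1 : A * (1 / d) ≤ 1 / 10000 := by simpa only [mul_one_div] using sm d le_rfl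
  have s2 := sm e de
  have s3 : B * (1 / d) ≤ A * (1 / d) := by gcongr
  have s4 : B / e ≤ A / e := by gcongr
  have s5 : 100 * (D / e) ≤ B / e := by rw [← mul_div_assoc]; gcongr
  have s6 : 0 < D / e := by positivity
  have s7 : 0 < B / e := by positivity
  obtain ⟨r1, -⟩ := h1 ρ j (m + 1) (k + 1) (1 / d) A B (by omega) (by omega) (by omega)
    A0.ne' B0.ne' lt.ne' (by linarith) (by linarith)
  have u := upJ ρ (ρ + (m + 1) + (k + 1) + j - 1) j (k + 1) (m + 1) x0.le A0 B0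
  rw [← r1] at u
  have n1 := NSIZEN.etaN (ρ := ρ) (σ := ρ + (m + 1) + (k + 1) + j) (u := 1 / d * B)
    (by positivity) (by linarith) (by omega)
  rw [← eta] at n1
  have f1 : |√(1 + -(D / e)) - √(1 + -(B / e))| ≤ 5001 / 10000 * (B / e) := by
    refine (TSIZE3.sqrt_sub (by linarith) (by linarith)).trans ?_
    rw [neg_sub_neg, abs_of_nonneg (by linarith)]
    linarith
  have z := HL0.Z_le ρ k (m + 1) x0.le A0 B0
  have l2 := HL0.lowG' ρ (ρ + (m + 1) + (k + 1) + j - 1) j k (m + 1) x0.le A0 B0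
    (c := (eta (ρ + (m + 1) + (k + 1) + j))⁻¹)
    (eta_two (by positivity) (by linarith) hρ (by omega))
  rw [← r1, HL0.coeff_pl B0.ne' A0.ne'] at l2
  rw [HL0.coeff_pl B0.ne' A0.ne'] at z
  have P0 : 0 ≤ pl ρ k m (B / A) := Finset.sum_nonneg fun _ _ => by positivity
  generalize pl ρ k m (B / A) = P at *
  generalize rc A B (fun k l => rs ρ (1 / d) 0 (-B) (-A) (ρ + 1) l k) j (m + 1) (k + 1) = R at *
  have c0 : (0 : ℝ) ≤ ((ρ + (m + 1) + (k + 1) + j - 1).choose j : ℕ) := Nat.cast_nonneg _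
  generalize (((ρ + (m + 1) + (k + 1) + j - 1).choose j : ℕ) : ℝ) = c at *
  generalize eta (ρ + (m + 1) + (k + 1) + j) = η at *
  generalize (1 + 1 / d * B) ^ (ρ + 1) = E at *
  refine ⟨?_, (le_abs_self _).trans ?_⟩
  · have f : 99 / 200 * (B / e) ≤ √(1 + -(D / e)) - √(1 + -(B / e)) :=
      le_trans (by linarith) (sqrt_low (by linarith) (by linarith) s6.le)
    have g := mul_le_mul f l2 (by positivity) (le_trans (by positivity) f)
    refine le_trans (le_of_eq ?_) (g.trans_eq (mul_left_comm _ _ _))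
    rw [pow_succ B⁻¹]; field_simp
  · rw [abs_mul, abs_neg_one_pow, one_mul, abs_mul]
    refine (mul_le_mul f1 (u.trans (mul_le_mul_of_nonneg_left z c0)) (abs_nonneg _)
      (by positivity)).trans (le_trans (le_of_eq ?_) ((mul_le_mul_of_nonneg_right n1
        (show 0 ≤ c * P * (B⁻¹ ^ (ρ + k) * A⁻¹ ^ (m + 1) / e) by positivity)).trans_eq (by ring)))
    rw [pow_succ B⁻¹]; field_simp

end Pool.Agent.MP_2339ce_nt.Q2

end
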