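import Pool.Agent.MP_2339ce_nt.Q2.SpecH7
import Pool.Agent.MP_2339ce_nt.Q2.HJINT

/-! `D(-N)`-quintuples, block HP: integrality of the shifted forms with one more pole. -/

set_option autoImplicit false

noncomputable section

namespace Pool.Agent.MP_2339ce_nt.Q2

open DQ DQ.INT DQ.NINTN PowerSeries Real

namespace HLINT

open HG HJINT

theorem cq_eq' (ρ h : ℕ) (hh : h ≤ ρ + 1) : Ring.choose ((ρ : ℝ) + 1 / 2) h = nm ρ h / dn h := by
  induction h with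
  | zero => simp [nm, dn]
  | succ h ih =>
    have k := INT.choose_step ((ρ : ℝ) + 1 / 2) h
    have p : (0 : ℝ) < dn h := by exact_mod_cast dn_pos h
    change _ = ((nm ρ h * (2 * ρ + 1 - 2 * h) : ℕ) : ℝ) / ((dn h * (2 * h + 2) : ℕ) : ℝ)
    rw [ih (by omega)] at k
    push_cast [Nat.cast_sub (show 2 * h ≤ 2 * ρ + 1 by omega)]
    rw [eq_div_iff (by positivity)]
    generalize Ring.choose ((ρ : ℝ) + 1 / 2) (h + 1) = y at k
    field_simp at k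
    linarith

theorem zero (ρ a b j g : ℕ) (N p q d : ℤ) (g0 : 0 < g) (H : CtL0 ρ (a + 1) (b + 1) j g)
    (hN : 0 < N) (hp : 0 < p) (hq : 0 < q) (hd : 0 < d) : 4 * scN ρ (a + 1) (b + 1) N p q d / g *
      coeff ρ (G0 ρ (ρ + (a + 1) + (b + 1) + j - 1) j (1 / d) * iv (N / q) ^ (b + 1) *
        iv (N / p) ^ (a + 1)) ∈ ZR := by
  have p0 : (p : ℝ) ≠ 0 := by exact_mod_cast hp.ne'
  have q0 : (q : ℝ) ≠ 0 := by exact_mod_cast hq.ne'
  have n0 : (N : ℝ) ≠ 0 := by exact_mod_cast hN.ne'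
  have d0 : (d : ℝ) ≠ 0 := by exact_mod_cast hd.ne'
  have z3 : (0 : ℝ) < g := by exact_mod_cast g0
  have h := gen3 ρ b a _ _ (fun h => Nat.mul_pos (dn_pos h) g0) (allLe_le H)
    (G0 ρ (ρ + (a + 1) + (b + 1) + j - 1) j (1 / d)) (S := 4 ^ (ρ + 1) / g * d ^ ρ) (w := N)
    (c₁ := N / q) (c₂ := N / p) q p (div_ne_zero n0 q0) (div_ne_zero n0 p0) (by field_simp)
    (by field_simp) fun h hh => by
      obtain ⟨t, rfl⟩ := Nat.exists_eq_add_of_le hh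
      refine ⟨_, mul_mem (pow_mem (int_mem d) t) (pow_mem (int_mem N) h), ?_⟩
      have z2 : (0 : ℝ) < dn h := by exact_mod_cast dn_pos h
      rw [G0, coeff_mk, cq_eq _ _ hh, bn_eq, show j + (h + t + (a + 1) + (b + 1) - 1 - h) =
        h + t + (a + 1) + (b + 1) + j - 1 - h by omega]
      push_cast
      simp only [div_pow, pow_add, one_pow]
      field_simp
  generalize coeff ρ (G0 ρ (ρ + (a + 1) + (b + 1) + j - 1) j (1 / d) * iv ((N : ℝ) / q) ^ (b + 1) *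
    iv ((N : ℝ) / p) ^ (a + 1)) = R at h ⊢
  convert mul_mem h (pow_mem (sub_mem (int_mem q) (int_mem p)) (a + 1 + (b + 1) - 1)) using 1
  rw [scN]
  generalize ((q : ℝ) - p) ^ (a + 1 + (b + 1) - 1) = E
  simp only [div_pow, pow_add]
  field_simp

theorem side1 (ρ a b j g i t : ℕ) (N p q d : ℤ) (ht : t ≤ 1) (h3 : b + j ≤ ρ + t) (hj : j ≤ ρ)
    (hi : i ≤ j) (g0 : 0 < g) (H : CtL1 ρ (b + 1) (a + 1) j g) (hN : 0 < N) (hp : 0 < p)
    (hq : 0 < q) (hd : 0 < d) (h0 : q ≠ p) (Y0 : (q : ℝ) * d - N ≠ 0) :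
    ((q : ℝ) * d - N) ^ t * (4 * scN ρ (a + 1) (b + 1) N p q d / g *
      (cj ρ (b + 1 + (a + 1) + j - 2) j i *
        rs (ρ - i) (1 / d) (-N / q) 0 (-N / p) (b + 1) (ρ + 1) (a + 1)) / q) ∈ ZR := by
  have p0 : (p : ℝ) ≠ 0 := by exact_mod_cast hp.ne'
  have q0 : (q : ℝ) ≠ 0 := by exact_mod_cast hq.ne'
  have n0 : (N : ℝ) ≠ 0 := by exact_mod_cast hN.ne'
  have d0 : (d : ℝ) ≠ 0 := by exact_mod_cast hd.ne'
  have z3 : (0 : ℝ) < g := by exact_mod_cast g0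
  have D0 : (q : ℝ) - p ≠ 0 := by exact_mod_cast sub_ne_zero.2 h0
  have e1 : (-N : ℝ) / q - -N / p = N * (q - p) / (p * q) := by field_simp; ring
  have h := gen3 b ρ a _ _ (fun h => Nat.mul_pos (Nat.mul_pos (Nat.mul_pos (dn_pos (j - i))
    (dn_pos i)) (dn_pos h)) g0) (allLe_le (allLe_le H i hi)) (gs (ρ - i) (1 / d) (-N / q))
    (S := (q * d - N) ^ t * (4 ^ (ρ + 1) / g * (q * d) ^ ρ * cj ρ (b + 1 + (a + 1) + j - 2) j i))
    (w := -1 * (N * (q - p) / q)) (c₁ := -N / q - 0) (c₂ := -N / q - -N / p) (q - p) (-p)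
    (by rw [sub_zero]; exact div_ne_zero (neg_ne_zero.2 n0) q0)
    (by rw [e1]; exact div_ne_zero (mul_ne_zero n0 D0) (mul_ne_zero p0 q0))
    (by push_cast; ring) (by rw [e1]; push_cast; field_simp) fun h hh => by
      obtain ⟨r, rfl⟩ : ∃ r, ρ = i + r := Nat.exists_eq_add_of_le (by omega)
      obtain ⟨u, hu⟩ : ∃ u, r + t = h + u := Nat.exists_eq_add_of_le (by omega)
      refine ⟨_, mul_mem (mul_mem (pow_mem (mul_mem (int_mem q) (int_mem d)) i)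
        (pow_mem (sub_mem (mul_mem (int_mem q) (int_mem d)) (int_mem N)) u))
        (pow_mem (neg_mem (mul_mem (int_mem N) (sub_mem (int_mem q) (int_mem p)))) h), ?_⟩
      have z2 : ∀ h, (0 : ℝ) < dn h := fun h => by exact_mod_cast dn_pos h
      have z4 := z2 h
      have z5 := z2 i
      have z6 := z2 (j - i)
      have e2 : (r : ℤ) - h = (u : ℕ) - (t : ℕ) := by omega
      have e3 : (1 + (-N : ℝ) / q * (1 / d)) = (q * d - N) / (q * d) := by field_simp; ring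
      have e4 : -1 * ((N : ℝ) * (q - p) / q) = -(N * (q - p)) / q := by ring
      have e5 : ((q : ℝ) * d) ^ (i + r) = (q * d) ^ i * ((q * d) ^ h * (q * d) ^ u) / (q * d) ^ t := by
        rw [← pow_add, ← hu, pow_add, pow_add]
        field_simp
      rw [show i + r - i = r by omega, gs, coeff_mk, e2, e3,
        zpow_sub₀ (div_ne_zero Y0 (mul_ne_zero q0 d0)), zpow_natCast, zpow_natCast, e4, cj,
        cq_eq' _ h (by omega), cq_eq _ i (by omega), cq_eq _ (j - i) (by omega), e5]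
      push_cast
      generalize -((N : ℝ) * (q - p)) = M
      generalize (q : ℝ) * d - N = Y at Y0
      simp only [div_pow, mul_pow, one_pow]
      field_simp
  change _ * (_ * rs (ρ - i) (1 / d) (-N / q) 0 (-N / p) (b + 1) (ρ + 1) (a + 1) * _) ∈ _ at h
  rw [e1, sub_zero] at h
  generalize rs (ρ - i) (1 / d) (-N / q) 0 (-N / p) (b + 1) (ρ + 1) (a + 1) = R at h ⊢
  generalize cj ρ (b + 1 + (a + 1) + j - 2) j i = c at h ⊢
  generalize ((q : ℝ) * d - N) ^ t = Y at h ⊢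
  have h' := mul_mem h (mul_mem (mul_mem (sg_mem (ρ + 1)) (sg_mem b)) (pow_mem (int_mem q) a))
  have e7 : ∀ n : ℕ, ((-1 : ℝ)) ^ n * (-1) ^ n = 1 := fun n => by rw [← mul_pow]; simp
  have e8 := e7 b
  have e9 := e7 ρ
  convert h' using 1
  rw [scN, show a + 1 + (b + 1) - 1 = a + b + 1 by omega,
    show (-N : ℝ) / q = -1 * (N / q) by ring]
  generalize (q : ℝ) - p = D
  simp only [div_pow, mul_pow, pow_add, pow_one]
  generalize ((-1 : ℝ)) ^ b = x at e8 ⊢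
  generalize ((-1 : ℝ)) ^ ρ = y at e9 ⊢
  refine (show ∀ v : ℝ, v = v * (x * x) * (y * y) from fun v => by
    rw [e8, e9, mul_one, mul_one]) _ |>.trans ?_
  field_simp

theorem side (ρ a b j g t : ℕ) (N p q d : ℤ) (ht : t ≤ 1) (h3 : b + j ≤ ρ + t) (hj : j ≤ ρ)
    (g0 : 0 < g) (H : CtL1 ρ (b + 1) (a + 1) j g) (hN : 0 < N) (hp : 0 < p) (hq : 0 < q)
    (hd : 0 < d) (h0 : q ≠ p) (Y0 : (q : ℝ) * d - N ≠ 0) :
    ((q : ℝ) * d - N) ^ t * (4 * scN ρ (a + 1) (b + 1) N p q d / g *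
      (∑ i ∈ Finset.range (j + 1), cj ρ (b + 1 + (a + 1) + j - 2) j i *
        rs (ρ - i) (1 / d) (-N / q) 0 (-N / p) (b + 1) (ρ + 1) (a + 1)) / q) ∈ ZR := by
  rw [Finset.mul_sum, Finset.sum_div, Finset.mul_sum]
  exact sum_mem fun i hi => side1 ρ a b j g i t N p q d ht h3 hj
    (Nat.lt_succ_iff.1 (Finset.mem_range.1 hi)) g0 H hN hp hq hd h0 Y0

theorem pw {Y y : ℝ} {t : ℕ} (ht : t ≤ 1) (h0 : 0 < Y) (h : √Y = y) :
    y ^ t * y = y ^ (1 - t) * Y ^ t := by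
  rw [← mul_self_sqrt h0.le, h]
  interval_cases t <;> simp

end HLINT

theorem lint (h : S_JID) : S_LINT := by
  intro ρ kp kq j s t g N p q d e a1 a2 a0 hs ht a3 a4 H c
  have q0 : 0 < q := c.p0.trans c.pq
  have hd : 0 < d := q0.trans c.qd
  have p1 : (0 : ℝ) < p := by exact_mod_cast c.p0
  have q1 : (0 : ℝ) < q := by exact_mod_cast q0
  have d1 : (0 : ℝ) < d := by exact_mod_cast hd
  have e0 : (0 : ℝ) < e := by exact_mod_cast hd.trans_le c.de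
  have n1 : (1 : ℝ) ≤ N := by exact_mod_cast c.n1
  have pq : (p : ℝ) < q := by exact_mod_cast c.pq
  have bg : 10000 * (N : ℝ) ≤ d := by exact_mod_cast c.big
  have nz : ∀ r : ℤ, 0 < r → 1 + -((N : ℝ) / r) * (1 / d) ≠ 0 := fun r hr => by
    have r1 : (1 : ℝ) ≤ r := by exact_mod_cast hr
    have : (N : ℝ) / r * (1 / d) < 1 := by
      rw [div_mul_div_comm, div_lt_one (by positivity)]
      nlinarith
    linarith [neg_mul ((N : ℝ) / r) (1 / d)]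
  have ny : ∀ r : ℤ, 0 < r → 0 < (r : ℝ) * d - N := fun r hr => by
    have r1 : (1 : ℝ) ≤ r := by exact_mod_cast hr
    nlinarith
  obtain ⟨k0, -, k1, k2, -⟩ := h ρ j kp kq (1 / d) (N / p) (N / q) a1 a2 a0
    (by positivity) (by positivity) (ne_of_gt (by gcongr)) (nz p c.p0) (nz q q0)
  simp only [← neg_div] at k0 k1 k2
  obtain ⟨kp, rfl⟩ := Nat.exists_eq_add_of_le' a1
  obtain ⟨kq, rfl⟩ := Nat.exists_eq_add_of_le' a2
  obtain ⟨i1, e1⟩ := HLINT.zero ρ kp kq j g N p q d H.1 H.2.1 c.n1 c.p0 q0 hd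
  obtain ⟨i2, e2⟩ := HLINT.side ρ kp kq j g t N p q d ht (by omega) a0 H.1 H.2.2.1 c.n1 c.p0 q0
    hd c.pq.ne' (ny q q0).ne'
  obtain ⟨i3, e3⟩ := mul_mem (sg_mem (kp + 1 + (kq + 1) - 1)) (HLINT.side ρ kq kp j g s N q p d
    hs (by omega) a0 H.1 H.2.2.2 c.n1 q0 c.p0 hd c.pq.ne (ny p c.p0).ne')
  rw [← k2] at e3
  rw [add_comm (kq + 1) (kp + 1), ← k1] at e2
  rw [← k0] at e1
  simp only [eq_intCast] at e1 e2 e3
  rw [mul_left_comm, ← mul_div_assoc _ _ (p : ℝ), ← mul_assoc ((-1 : ℝ) ^ _), ← mul_div_assoc _ _ (g : ℝ),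
    mul_left_comm ((-1 : ℝ) ^ _), ← swap] at e3
  obtain ⟨z0, f0⟩ := DICH.sq_int c.sq
  obtain ⟨z1, f1⟩ := DICH.sq_int c.se
  obtain ⟨z2, f2⟩ := DICH.sq_int c.sd
  obtain ⟨z3, f3⟩ := DICH.sq_int c.pe
  obtain ⟨z4, f4⟩ := DICH.sq_int c.pd
  push_cast at f0 f1 f2 f3 f4
  have g0 := DICH.one (n := -N) (mul_pos d1 e0)
  have g1 := DICH.two (n := -N) q1 d1 e0
  have g2 := DICH.two (n := -N) p1 d1 e0
  rw [f0] at g0
  rw [f1, f2] at g1
  rw [f3, f4] at g2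
  rw [← sub_eq_add_neg] at f2 f4
  have w2 := HLINT.pw ht (ny q q0) f2
  have w4 := HLINT.pw hs (ny p c.p0) f4
  refine ⟨z4 ^ s * z2 ^ t * z0 * i1 + z4 ^ s * z1 * z2 ^ (1 - t) * i2 +
    z2 ^ t * z3 * z4 ^ (1 - s) * i3, ?_⟩
  push_cast
  rw [e1, e2, e3, ← g0, wwJ, f2, f4]
  simp only [ww, SS, zero_mul, add_zero, sqrt_one, one_mul, ← mul_assoc]
  rw [HJINT.lin]
  generalize 4 * scN ρ (kp + 1) (kq + 1) N p q d / g = S
  generalize rc ((N : ℝ) / p) (N / q) (fun k l => rs ρ (1 / d) (-N / q) 0 (-N / p) l (ρ + 1) k) j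
    (kp + 1) (kq + 1) = R1
  generalize rc ((N : ℝ) / p) (N / q) (fun k l => rs ρ (1 / d) (-N / p) 0 (-N / q) k (ρ + 1) l) j
    (kp + 1) (kq + 1) = R2
  linear_combination (z4 ^ s * z2 ^ t * S * R1) * g1 + (z4 ^ s * z2 ^ t * S * R2) * g2 +
    (z4 ^ s * z1 * S * R1 / q) * w2 + (z2 ^ t * z3 * S * R2 / p) * w4

end Pool.Agent.MP_2339ce_nt.Q2

end
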