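import Pool.Agent.MP_2339ce_nt.Q2.SpecH7
import Pool.Agent.MP_2339ce_nt.Q2.HK

/-! `D(-N)`-quintuples, block HP: the main term with exact sizes. -/

set_option autoImplicit false

noncomputable section

namespace Pool.Agent.MP_2339ce_nt.Q2

open DQ Real

namespace HLM

theorem nn {l : ℚ} (hl : 0 ≤ l) (j kp kq : ℕ) : 0 ≤ rc (1 : ℚ) l (fun _ _ => 1) j kp kq := by
  induction j generalizing kp kq with
  | zero => simp [rc]
  | succ j ih =>
    have h1 := ih (kp + 1) kq
    have h2 := ih kp (kq + 1)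
    simp only [rc]
    positivity

theorem pos {l : ℚ} (hl : 0 ≤ l) (j kp kq : ℕ) (h : 1 ≤ kp) :
    0 < rc (1 : ℚ) l (fun _ _ => 1) j kp kq := by
  induction j generalizing kp kq with
  | zero => simp [rc]
  | succ j ih =>
    have h1 := ih (kp + 1) kq (by omega)
    have h2 := nn hl j kp (kq + 1)
    have h3 : (0 : ℚ) < kp := Nat.cast_pos.2 h
    simp only [rc]
    positivity

theorem down {A B : ℝ} {l : ℚ} (hA : 0 ≤ A) (hl : 0 ≤ l) (h : l * A ≤ B) (j kp kq : ℕ) :
    A ^ j * (rc (1 : ℚ) l (fun _ _ => 1) j kp kq : ℚ) ≤ rc A B (fun _ _ => 1) j kp kq := by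
  induction j generalizing kp kq with
  | zero => simp [rc]
  | succ j ih =>
    have h0 : (0 : ℝ) ≤ (rc (1 : ℚ) l (fun _ _ => 1) j kp (kq + 1) : ℚ) :=
      Rat.cast_nonneg.2 (nn hl j kp (kq + 1))
    have h1 := ih (kp + 1) kq
    have h2 := ih kp (kq + 1)
    have h4 : (0 : ℝ) ≤ l := Rat.cast_nonneg.2 hl
    have h3 : 0 ≤ B := le_trans (by positivity) h
    simp only [rc]
    calc _ = (kp * A * (A ^ j * (rc (1 : ℚ) l (fun _ _ => 1) j (kp + 1) kq : ℚ)) +
          kq * (l * A) * (A ^ j * (rc (1 : ℚ) l (fun _ _ => 1) j kp (kq + 1) : ℚ))) / (j + 1) := by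
          push_cast; ring
      _ ≤ _ := by gcongr

end HLM

theorem lmb (hA : S_MAIN) : S_LM := by
  intro ρ kp kq j N p q d e l₁ l h l0 hl₁ hl
  have p0 : 0 < p := one_pos.trans_le h.one
  have q0 : 0 < q := p0.trans h.pq
  have d0 : 0 < d := by linarith [h.qd]
  have a0 : 0 ≤ N / p := (div_pos h.n0 p0).le
  have b0 : 0 ≤ N / q := (div_pos h.n0 q0).le
  have ab : N / q ≤ l * (N / p) := by
    rw [← mul_div_assoc, div_le_div_iff₀ q0 p0]
    nlinarith [h.n0]
  have ba : l₁ * (N / p) ≤ N / q := by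
    rw [← mul_div_assoc, div_le_div_iff₀ p0 q0]
    nlinarith [h.n0]
  have e0 : 0 < eta (ρ + kp + kq + j) := by unfold eta; positivity
  have c0 : 0 ≤ be ρ (ρ + kp + kq + j) := abs_nonneg _
  have key : ∀ k l, kp ≤ k → kq ≤ l → k + l = kp + kq + j →
      be ρ (ρ + kp + kq + j) / eta (ρ + kp + kq + j) / d ^ (ρ + kp + kq + j) * 1 ≤
        (-1) ^ (kp + kq + j + 1) * tm ρ k l N p q d e ∧
      (-1) ^ (kp + kq + j + 1) * tm ρ k l N p q d e ≤
        be ρ (ρ + kp + kq + j) * eta (ρ + kp + kq + j) / d ^ (ρ + kp + kq + j) * 1 := by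
    intro k l a b c
    have t := taK hA ρ k l N p q d e (h.p1.trans a) (h.q1.trans b) h.n0 h.one h.pq h.qd h.de h.nd
    rw [show ρ + k + l = ρ + kp + kq + j by omega, c] at t
    rw [mul_one, mul_one]
    exact t
  have k1 := HJM.mono a0 b0 j kp kq fun k l a b c => (key k l a b c).1
  have k2 := HJM.mono a0 b0 j kp kq fun k l a b c => (key k l a b c).2
  rw [HJM.mul, HJM.mul] at k1 k2
  refine ⟨?_, le_trans ?_ k1, k2.trans ?_, HLM.pos l0 j kp kq h.p1⟩
  · rw [tmJ, t0J, tpJ, ← HJM.add3, wwJ]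
    congr 1
    funext k l
    rw [ww, tm, t0, tp, SS, SS, zero_mul, add_zero, sqrt_one]
    ring
  · refine le_trans (le_of_eq (by ring))
      (mul_le_mul_of_nonneg_left (HLM.down a0 l0 ba j kp kq) (by positivity))
  · refine le_trans (mul_le_mul_of_nonneg_left (HJM.up a0 b0 ab j kp kq) (by positivity))
      (le_of_eq (by ring))

end Pool.Agent.MP_2339ce_nt.Q2

end
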