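import Pool.Agent.MP_2339ce_nt.Q2.SpecH7
import Pool.Agent.MP_2339ce_nt.Q2.HK

/-! `D(-N)`-quintuples, block HP, row LP: the exact size of the error at the node `-N / p`. -/

set_option autoImplicit false

noncomputable section

namespace Pool.Agent.MP_2339ce_nt.Q2

open DQ DQ.Sgn DQ.NNZC PowerSeries Real

namespace HLP

theorem coeffT {A W : ℝ} (hW : W ≠ 0) (n k r : ℕ) :
    coeff n (J W ^ (k + 1) * J A ^ (r + 1)) =
      W⁻¹ ^ (n + k + 1) * A⁻¹ ^ (r + 1) * pl n k r (W / A) := by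
  rw [mul_comm (J W ^ (k + 1)), coeff_mul, Finset.Nat.sum_antidiagonal_eq_sum_range_succ
    (fun i l => coeff i (J A ^ (r + 1)) * coeff l (J W ^ (k + 1))), pl, Finset.mul_sum]
  refine Finset.sum_congr rfl fun i hi => ?_
  obtain ⟨a, rfl⟩ : ∃ a, n = i + a := ⟨n - i, by have := Finset.mem_range.1 hi; omega⟩
  rw [HTL.coeff_J, HTL.coeff_J, Nat.add_sub_cancel_left, Nat.choose_symm_add (a := i),
    Nat.choose_symm_add (a := a), Nat.cast_mul, div_eq_mul_inv, mul_pow]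
  have e : W⁻¹ ^ i * W ^ i = 1 := by rw [← mul_pow, inv_mul_cancel₀ hW, one_pow]
  have e2 : W⁻¹ ^ (i + a + k + 1) = W⁻¹ ^ i * W⁻¹ ^ (a + k + 1) := by ring
  rw [e2]
  linear_combination (-(((a + k).choose k : ℕ) : ℝ) * (((i + r).choose r : ℕ) : ℝ) *
    W⁻¹ ^ (a + k + 1) * A⁻¹ ^ (i + r + 1)) * e

theorem sgn (r n k m : ℕ) {x A B : ℝ} (hB : 0 < B) (hA : B < A) :
    (-1) ^ (n + (k + 1)) * rs r x (-A) 0 (-B) (m + 1) n (k + 1) =
      coeff m (gs r x (-A) * (J (A - B) ^ (k + 1) * J A ^ n)) := by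
  have hW : 0 < A - B := by linarith
  have A0 : 0 < A := by linarith
  rw [rs, Nat.add_sub_cancel, sub_zero, show -A - -B = -(A - B) by ring, iv_neg A0.ne',
    iv_neg hW.ne', ← coeff_C_mul, neg_pow (J A), neg_pow (J _), map_pow, map_neg, map_one]
  congr 1
  have a : ∀ n : ℕ, (-1 : ℝ⟦X⟧) ^ n * (-1) ^ n = 1 := fun n => by rw [← mul_pow]; simp
  rw [pow_add (-1 : ℝ⟦X⟧) n]
  linear_combination (gs r x (-A) * (J (A - B) ^ (k + 1) * J A ^ n)) *
    ((-1 : ℝ⟦X⟧) ^ (k + 1) * (-1) ^ (k + 1) * a n + a (k + 1))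

theorem gs_nn {r h : ℕ} {x α : ℝ} (hx : 0 ≤ x) (h1 : 0 ≤ 1 + α * x) (hh : h ≤ r + 1) :
    0 ≤ coeff h (gs r x α) := by
  have h' : (h : ℝ) ≤ r + 1 := by exact_mod_cast hh
  rw [gs, coeff_mk]
  exact mul_nonneg (mul_nonneg (choose_nn _ _ (by linarith)) (pow_nonneg hx _)) (zpow_nonneg h1 _)

theorem gs_le {r h : ℕ} {x α c : ℝ} (hx : 0 ≤ x) (c0 : 0 < c) (h1 : c ≤ 1 + α * x)
    (h2 : α * x ≤ 0) (hh : h ≤ r + 1) :
    coeff h (gs r x α) ≤ ((r + 1).choose h : ℕ) * x ^ h * c⁻¹ := by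
  have y0 : 0 < 1 + α * x := c0.trans_le h1
  have a : (1 + α * x) ^ ((r : ℤ) - h) ≤ c⁻¹ := by
    refine (zpow_le_zpow_right_of_le_one₀ y0 (by linarith)
      (show (-1 : ℤ) ≤ (r : ℤ) - h by omega)).trans ?_
    rw [zpow_neg_one]
    exact inv_anti₀ c0 h1
  have b := (le_abs_self _).trans (TBND3.ch r h hh)
  rw [gs, coeff_mk]
  exact mul_le_mul (mul_le_mul_of_nonneg_right b (pow_nonneg hx _)) a (zpow_nonneg y0.le _)
    (by positivity)

theorem low {r m : ℕ} {x α c : ℝ} {T : ℝ⟦X⟧} (hT : NN T) (hx : 0 ≤ x) (c0 : 0 ≤ c)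
    (h1 : c ≤ 1 + α * x) (h : m ≤ r + 1) : c ^ r * coeff m T ≤ coeff m (gs r x α * T) := by
  rw [coeff_mul]
  refine le_trans ?_ (Finset.single_le_sum (a := (0, m)) (fun p hp => mul_nonneg ?_ (hT _))
    (Finset.mem_antidiagonal.2 (zero_add m)))
  · refine mul_le_mul_of_nonneg_right ?_ (hT m)
    rw [gs, coeff_mk, Ring.choose_zero_right, pow_zero, Nat.cast_zero, sub_zero, zpow_natCast,
      one_mul, one_mul]
    exact pow_le_pow_left₀ c0 h1 r
  · exact gs_nn hx (c0.trans h1) ((fst_le hp).trans h)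

theorem up {r m : ℕ} {x α c W : ℝ} {F : ℝ⟦X⟧} (hF : NN F) (hW : 0 < W) (hx : 0 ≤ x) (c0 : 0 < c)
    (h1 : c ≤ 1 + α * x) (h2 : α * x ≤ 0) (h : m ≤ r + 1) :
    coeff m (gs r x α * (J W * F)) ≤ (1 + x * W) ^ (r + 1) * c⁻¹ * coeff m (J W * F) := by
  have hT := (J_nn hW).mul hF
  have t2 : ∀ i ≤ m, coeff (m - i) (J W * F) ≤ W ^ i * coeff m (J W * F) := fun i hi => by
    have := T_le hW hF (m - i) i
    rwa [Nat.sub_add_cancel hi] at this
  generalize J W * F = T at *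
  rw [coeff_mul, Finset.Nat.sum_antidiagonal_eq_sum_range_succ
    (fun i l => coeff i (gs r x α) * coeff l T), add_comm 1, add_pow, Finset.sum_mul,
    Finset.sum_mul]
  have t0 := hT m
  refine le_trans (Finset.sum_le_sum fun i hi => ?_) (Finset.sum_le_sum_of_subset_of_nonneg
    (Finset.range_subset_range.2 (Nat.succ_le_succ h)) fun i _ _ => by positivity)
  have hi' : i ≤ m := Nat.lt_succ_iff.1 (Finset.mem_range.1 hi)
  refine (mul_le_mul (gs_le hx c0 h1 h2 (hi'.trans h)) (t2 i hi') (hT _) (by positivity)).trans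
    (le_of_eq ?_)
  ring

theorem eta_up {ρ σ : ℕ} {u : ℝ} (h0 : 0 ≤ u) (h : u ≤ 1 / 10000) (hσ : ρ + 2 ≤ σ) :
    5001 / 10000 * ((1 + u) ^ (ρ + 1) * (9999 / 10000)⁻¹) ≤ eta σ / 2 := by
  have a : (1 + u) ^ (ρ + 1) ≤ (1001 / 1000 : ℝ) ^ (ρ + 1) :=
    pow_le_pow_left₀ (by linarith) (by linarith) _
  have b : (1001 / 1000 : ℝ) ^ (ρ + 1 + 1) ≤ eta σ := pow_le_pow_right₀ (by norm_num) hσ
  have c : (0 : ℝ) ≤ (1001 / 1000 : ℝ) ^ (ρ + 1) := by positivity
  rw [pow_succ] at b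
  rw [show (9999 / 10000 : ℝ)⁻¹ = 10000 / 9999 by norm_num]
  linarith

end HLP

open HJP HLP in
theorem lpb (h : S_JID) : S_LP := by
  intro ρ kp kq j N p q d e hR
  obtain ⟨m, rfl⟩ : ∃ m, kp = m + 1 := ⟨kp - 1, by have := hR.p1; omega⟩
  obtain ⟨k, rfl⟩ : ∃ k, kq = k + 1 := ⟨kq - 1, by have := hR.q1; omega⟩
  have jp := hR.jp
  have jr := hR.jr
  have N0 := hR.n0
  have p1 := hR.one
  have pq := hR.pq
  have qd := hR.qd
  have de := hR.de
  have nd := hR.nd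
  have p0 : 0 < p := by linarith
  have q0 : 0 < q := by linarith
  have d0 : 0 < d := by linarith
  have e0 : 0 < e := by linarith
  have x0 : 0 < 1 / d := by positivity
  have lt : N / q < N / p := div_lt_div_of_pos_left N0 p0 pq
  have B0 : 0 < N / q := by positivity
  have sm : ∀ z : ℝ, d ≤ z → N / p / z ≤ 1 / 10000 := fun z hz => by
    rw [div_div, div_le_div_iff₀ (mul_pos p0 (d0.trans_le hz)) (by norm_num)]
    nlinarith
  have i2 : p / N = (N / p)⁻¹ := (inv_div _ _).symm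
  have i3 : p * q / (N * (q - p)) = (N / p - N / q)⁻¹ := by
    rw [div_sub_div _ _ p0.ne' q0.ne', inv_div]
    congr 1
    ring
  have i4 : 1 - p / q = (N / p - N / q) / (N / p) := by field_simp
  have et := HTL.eta_le (ρ := ρ) (σ := ρ + (m + 1) + (k + 1) + j) (by omega)
  have ef : (fun k l => tp ρ k l N p q d e) = fun k l =>
      ((√(1 + -(N / p / e)) - √(1 + -(N / q / e))) * √(1 + -(N / p) * (1 / d))) *
        rs ρ (1 / d) (-(N / p)) 0 (-(N / q)) k (ρ + 1) l := by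
    funext k l
    rw [tp, ← div_div, ← div_div]
    simp only [neg_div]
    ring
  rw [tpJ, ef, rc_mul, i2, i3, i4, show m + 1 + (k + 1) - 2 = m + k by omega, Nat.add_sub_cancel,
    Nat.add_sub_cancel]
  generalize N / p = A at *
  generalize N / q = B at *
  have A0 : 0 < A := by linarith
  have W0 : 0 < A - B := by linarith
  have s1 : A * (1 / d) ≤ 1 / 10000 := by simpa only [mul_one_div] using sm d le_rfl
  have s2 := sm e de
  have s3 : B * (1 / d) ≤ A * (1 / d) := by gcongr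
  have s4 : B / e ≤ A / e := by gcongr
  have s7 : 0 < B / e := by positivity
  have s8 : 0 < B * (1 / d) := by positivity
  obtain ⟨-, -, -, hs, hn⟩ := h ρ j (m + 1) (k + 1) (1 / d) A B (by omega) (by omega) (by omega)
    A0.ne' B0.ne' lt.ne' (by linarith) (by linarith)
  rw [hs]
  have hc : ∀ i ∈ Finset.range (j + 1), 0 ≤ cj ρ (m + 1 + (k + 1) + j - 2) j i :=
    fun i hi => cj_nn (by omega) (by omega) hi
  have hm : ∀ i ∈ Finset.range (j + 1), m ≤ ρ - i + 1 := fun i hi => by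
    have := Finset.mem_range.1 hi; omega
  have n2 := eta_up (ρ := ρ) (σ := ρ + (m + 1) + (k + 1) + j) (u := 1 / d * (A - B))
    (by positivity) (by linarith) (by omega)
  have f2 : √(1 + -(B / e)) - √(1 + -(A / e)) ≤ 5001 / 10000 * ((A - B) / e) := by
    refine (le_abs_self _).trans ((TSIZE3.sqrt_sub (by linarith) (by linarith)).trans
      (le_of_eq ?_))
    rw [neg_sub_neg, abs_of_nonneg (by linarith), sub_div]
  have f : (A / e - B / e) / 2 ≤ √(1 + -(B / e)) - √(1 + -(A / e)) :=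
    sqrt_low (by linarith) s4 s7.le
  have f0 : 0 ≤ (A / e - B / e) / 2 := by linarith
  have t : 9999 / 10000 ≤ √(1 + -A * (1 / d)) := le_sqrt_of_sq_le (by linarith)
  have t' : √(1 + -A * (1 / d)) ≤ 1 :=
    (le_abs_self _).trans (TSIZE3.sqrt_le (u := -A * (1 / d)) (by linarith))
  have nn : (0 : ℝ) ≤ nJ ρ (m + 1) (k + 1) j := Nat.cast_nonneg _
  change _ = (nJ ρ (m + 1) (k + 1) j : ℝ) at hn
  generalize (nJ ρ (m + 1) (k + 1) j : ℝ) = n at *
  have nT := ((J_nn W0).pow (k + 1)).mul ((J_nn A0).pow (ρ + 1))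
  have cT := coeffT (A := A) W0.ne' m k ρ
  have T0 := nT m
  have l := sum_low (σ := (-1) ^ (ρ + 1 + (k + 1)))
    (F := fun i => rs (ρ - i) (1 / d) (-A) 0 (-B) (m + 1) (ρ + 1) (k + 1))
    (lo := (9999 / 10000) ^ ρ * coeff m (J (A - B) ^ (k + 1) * J A ^ (ρ + 1))) hc hn fun i hi => by
      rw [sgn _ _ _ _ B0 lt]
      refine le_trans ?_ (low (c := 9999 / 10000) nT x0.le (by norm_num) (by linarith) (hm i hi))
      exact mul_le_mul_of_nonneg_right
        (pow_le_pow_of_le_one (by norm_num) (by norm_num) (Nat.sub_le _ _)) T0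
  have u := sum_low (σ := -(-1) ^ (ρ + 1 + (k + 1)))
    (F := fun i => rs (ρ - i) (1 / d) (-A) 0 (-B) (m + 1) (ρ + 1) (k + 1))
    (lo := -((1 + 1 / d * (A - B)) ^ (ρ + 1) * (9999 / 10000)⁻¹ *
      coeff m (J (A - B) ^ (k + 1) * J A ^ (ρ + 1)))) hc hn fun i hi => by
      rw [neg_mul, neg_le_neg_iff, sgn _ _ _ _ B0 lt]
      have := up (r := ρ - i) (α := -A) (c := 9999 / 10000)
        (((J_nn W0).pow k).mul ((J_nn A0).pow (ρ + 1))) W0 x0.le (by norm_num) (by linarith)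
        (by linarith) (hm i hi)
      rw [← mul_assoc (J (A - B)), ← pow_succ'] at this
      refine this.trans (mul_le_mul_of_nonneg_right (mul_le_mul_of_nonneg_right
        (pow_le_pow_right₀ ?_ (by omega)) (by norm_num)) T0)
      have : 0 ≤ 1 / d * (A - B) := by positivity
      linarith
  rw [neg_mul, mul_neg, neg_le_neg_iff] at u
  have eT : (A - B) / e * coeff m (J (A - B) ^ (k + 1) * J A ^ (ρ + 1)) =
      pl m k ρ ((A - B) / A) * (A⁻¹ ^ (ρ + 1) * (A - B)⁻¹ ^ (m + k) / e) := by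
    rw [cT, pow_succ (A - B)⁻¹]
    field_simp
  generalize coeff m (J (A - B) ^ (k + 1) * J A ^ (ρ + 1)) = T at *
  generalize ∑ i ∈ Finset.range (j + 1), cj ρ (m + 1 + (k + 1) + j - 2) j i *
    rs (ρ - i) (1 / d) (-A) 0 (-B) (m + 1) (ρ + 1) (k + 1) = R at *
  generalize (eta (ρ + (m + 1) + (k + 1) + j)) = η at *
  have R0 : 0 ≤ (-1) ^ (ρ + 1 + (k + 1)) * R := le_trans (by positivity) l
  have e1 : ∀ z : ℝ, z * (n * pl m k ρ ((A - B) / A)) * (A⁻¹ ^ (ρ + 1) * (A - B)⁻¹ ^ (m + k) / e) =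
      z * (n * ((A - B) / e * T)) := fun z => by rw [eT]; ring
  rw [e1, e1]
  constructor
  · have g := mul_le_mul f (mul_le_mul t l (by positivity) (sqrt_nonneg _)) (by positivity)
      (f0.trans f)
    refine le_trans ?_ (g.trans_eq (by ring))
    calc _ = (A / e - B / e) / 2 * (η⁻¹ * (n * T)) := by rw [sub_div]; ring
      _ ≤ (A / e - B / e) / 2 * ((9999 / 10000) ^ (ρ + 1) * (n * T)) := by gcongr
      _ = _ := by ring
  · have g := mul_le_mul f2 (mul_le_mul t' u R0 zero_le_one) (mul_nonneg (sqrt_nonneg _) R0)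
      (by positivity)
    refine le_trans (le_of_eq (by ring)) (g.trans ?_)
    refine le_trans (le_of_eq (by ring)) (mul_le_mul_of_nonneg_right n2
      (show 0 ≤ n * ((A - B) / e * T) by positivity))

end Pool.Agent.MP_2339ce_nt.Q2

end
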