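import Pool.Agent.MP_2339ce_nt.Q2.HA4
import Pool.Agent.MP_2339ce_nt.Q2.HFI
import Pool.Agent.MP_2339ce_nt.Q2.HFM5
import Pool.Agent.MP_2339ce_nt.Q2.HL0
import Pool.Agent.MP_2339ce_nt.Q2.HLINT
import Pool.Agent.MP_2339ce_nt.Q2.HLM
import Pool.Agent.MP_2339ce_nt.Q2.HLP
import Pool.Agent.MP_2339ce_nt.Q2.HT5
import Pool.Agent.MP_2339ce_nt.Q2.HT6

/-! `D(-N)`-quintuples, block HP: tables of valid windows, with windows for a range of the ratio. -/

set_option autoImplicit false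

namespace Pool.Agent.MP_2339ce_nt.Q2

open DQ

inductive El8 where
  | old (pr j : ℕ)
  | q (j : ℕ)
  | fm (g : ℕ) (f : Fm2)
  | fj (j g : ℕ) (f : Fm2)
  | fi (g : ℕ) (f : Fi)
  | sw (pr i : ℕ) (u v : ℤ)
  | tw (pr i : ℕ) (u v : ℤ)

def El8.wn : El8 → Wn
  | .old pr j => Q2.wn (pr, j)
  | .q j => wq j
  | .fm _ f => f.wn
  | .fj j _ f => f.wnJ j
  | .fi _ f => f.wn
  | .sw pr i u v => Q2.sw pr i u v
  | .tw pr i u v => Q2.tw pr i u v

noncomputable def El8.good : El8 → Bool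
  | .fm g f => decide (f.Good3 g)
  | .fj j g f => decide (f.Good5 j g)
  | .sw _ i u v => decide (HT5.ee (2 * i + 1) ^ 20 ≤ 2 ^ u ∧ HT5.mv (2 * i + 1) ^ 20 ≤ 2 ^ v)
  | .fi g f => decide (f.Good g)
  | .tw _ i u v => decide (HT6.Num i u v)
  | _ => true

theorem El8.ok (x : El8) (h : x.good = true) : x.wn.Ok := by
  cases x with
  | old pr j => exact allWn _
  | q j => exact allWq j
  | fm g f => exact (El4.fm g f).ok allJ h
  | fj j g f =>
    exact fm5 (km main) (k0b jid bnd3) (kpb jid bnd3) (jint jid) j g f (of_decide_eq_true h)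
  | fi g f =>
    exact fi_ok (lmb main) (l0b jid) (lpb jid) (lint jid) g f (of_decide_eq_true h)
  | sw pr i u v => exact sw_ok pr i u v (of_decide_eq_true h).1 (of_decide_eq_true h).2
  | tw pr i u v => exact tw_ok pr i u v (of_decide_eq_true h)

theorem tab_ok8 {l : List Wn} (t : List El8) (h1 : t.all El8.good = true) (h2 : l = t.map El8.wn) :
    ∀ w ∈ l, w.Ok := by
  subst h2
  intro w h
  obtain ⟨x, y, rfl⟩ := List.mem_map.1 h
  exact x.ok (List.all_eq_true.1 h1 x y)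

end Pool.Agent.MP_2339ce_nt.Q2
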