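import Pool.Agent.MP_2339ce_nt.Q2.HZ2

/-! `D(-N)`-quintuples, block HP: the window of the form `(2; 3, 3)` for `q` near `2 p`. -/

set_option autoImplicit false

noncomputable section

namespace Pool.Agent.MP_2339ce_nt.Q2

open DQ TNQ Real

def Fi.zw (f : Fi) : Wn :=
  ⟨f.sd ++ [pairAf f.pr 1 (-700) 0 0 (-2) 0], [f.lo, pairAf f.pr 7 1653 (-7) 3 5 0],
    [f.top, pairAf f.pr 8 1430 (-7) 3 3 0]⟩

def Fi.GoodZ (f : Fi) : Prop :=
  f.ρ = 2 ∧ f.kp = 3 ∧ f.kq = 3 ∧ f.j = 0 ∧ 4600 ≤ f.la ∧ f.lb ≤ 5500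

instance (f : Fi) : Decidable f.GoodZ := by unfold Fi.GoodZ; infer_instance

open HFM HFI Fi in
theorem fz_ok (hM : S_LM) (hA : S_L0) (hU : S_LP) (hL : S_LINT) (hJ : S_JID) (g : ℕ) :
    ∀ f : Fi, f.Good g → f.GoodZ → f.zw.Ok := by
  rintro ⟨pr, ρ, kp, kq, J, s, t, v, ty, la, lb, ta, tb, th, m0, mm, n0⟩
    ⟨⟨k1, k2, k3, k4, k5, k6, k7, k8, t1, t2⟩, ct, ⟨w1, w2, w3, w4⟩, b0, bm, g0, g1, g2⟩
    ⟨z1, z2, z3, z4, z5, z6⟩ N a b c d e N1 _ H big hc sd'
  obtain ⟨i, rfl⟩ : ∃ i, kp = i + 1 := ⟨kp - 1, by dsimp only at k1; omega⟩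
  obtain ⟨j, rfl⟩ : ∃ j, kq = j + 1 := ⟨kq - 1, by dsimp only at k2; omega⟩
  have C := cf H N1 big pr
  have hq : 100 * qq pr b c ≤ d := by
    have := H.bc
    rcases pr with _ | pr <;> simp only [qq] <;> omega
  have pv := pair_v (N := N) (a := a) (b := b) (c := c) (d := d) pr
  have hN : N ≤ pp pr a b * qq pr b c := by
    have := H.s1.nonneg; have := H.s2.nonneg; have := H.s5.nonneg
    rcases pr with _ | _ | pr <;> simp only [pp, qq] <;> linarith
  have sd := fun s hs => sd' s (List.mem_append_left _ hs)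
  have sz := sd' _ (List.mem_append_right _ List.mem_cons_self)
  set f : Fi := ⟨pr, ρ, i + 1, j + 1, J, s, t, v, ty, la, lb, ta, tb, th, m0, mm, n0⟩ with hf
  have F : (f.ρ = ρ ∧ f.kp = i + 1 ∧ f.kq = j + 1 ∧ f.j = J ∧ f.s = s ∧ f.t = t) ∧
      (f.m0 = m0 ∧ f.mm = mm ∧ f.n0 = n0) ∧ f.la = la ∧ f.lb = lb ∧ f.ta = ta ∧ f.tb = tb ∧
      f.th = th ∧ f.v = v ∧ f.ty = ty :=
    ⟨⟨rfl, rfl, rfl, rfl, rfl, rfl⟩, ⟨rfl, rfl, rfl⟩, rfl, rfl, rfl, rfl, rfl, rfl, rfl⟩
  simp only [F] at k3 k4 k5 k6 k7 k8 t1 t2 ct w1 w2 w3 w4 b0 bm z1 z2 z3 z4 z5 z6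
  rw [pv] at sz
  generalize pp pr a b = p, qq pr b c = q at C hq pv hN sz
  have N0 : (0 : ℝ) < N := by exact_mod_cast N1
  have p1 : (1 : ℝ) ≤ p := by exact_mod_cast C.p0
  have pq : (p : ℝ) < q := by exact_mod_cast C.pq
  have qd : (q : ℝ) < d := by exact_mod_cast C.qd
  have de : (d : ℝ) ≤ e := by exact_mod_cast C.de
  have bg : 10000 * (N : ℝ) ≤ d := by exact_mod_cast big
  have p0 : (0 : ℝ) < p := by linarith
  have q0 : (0 : ℝ) < q := by linarith
  have d0 : (0 : ℝ) < d := by linarith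
  have e0 : (0 : ℝ) < e := by linarith
  have D0 : (0 : ℝ) < q - p := by linarith
  have R : RgL ρ (i + 1) (j + 1) J N p q d e :=
    ⟨k1, k2, k3, by omega, k8, N0, p1, pq, by exact_mod_cast hq, de, bg⟩
  obtain ⟨z, hz⟩ := hL ρ (i + 1) (j + 1) J s t g N p q d e k1 k2 k3 k4 k5 k6 k7 ct C
  rw [scN, show i + 1 + (j + 1) - 1 = i + j + 1 by omega] at hz
  have g0' : (0 : ℝ) < g := by exact_mod_cast ct.1
  have x0 : 0 < (p : ℝ) / q := by positivity
  have x1 : (p : ℝ) / q < 1 := (div_lt_one q0).2 pq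
  have L1 : (f.l1 : ℝ) = la / 10000 := by rw [l1]; push_cast; rfl
  have y0 : (0 : ℝ) ≤ f.l1 := by rw [L1]; positivity
  have y1 : (f.l1 : ℝ) ≤ p / q := by
    rcases Nat.eq_zero_or_pos la with h | h
    · rw [L1, h]; simpa using x0.le
    · have k := sd f.near (List.mem_append_right _ (by
        rw [show Nat.blt 0 f.la = true from Nat.blt_eq.mpr h]; exact List.mem_cons_self))
      rw [near, pv] at k
      simp only [F] at k
      have k' := rat1 (p := p) (q := q) la 10000 100 ta C.p0 (C.p0.trans C.pq)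
        (by exact_mod_cast h) (by norm_num) (by exact_mod_cast w2 h) (by push_cast at k ⊢; linarith)
      have k'' : (la : ℝ) * q ≤ 10000 * p := by exact_mod_cast k'
      rw [L1, div_le_div_iff₀ (by norm_num) q0]
      linarith
  have y2 : (p : ℝ) / q ≤ f.l2 ∧ (f.l2 : ℝ) ≤ 1 ∧ (lb < 10000 → (f.l2 : ℝ) < 1) := by
    rw [Fi.l2]
    simp only [F]
    split_ifs with h
    · have k := sd f.far (List.mem_append_left _ (by
        rw [show Nat.blt f.lb 10000 = true from Nat.blt_eq.mpr h]; exact List.mem_cons_self))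
      rw [far, pv] at k
      simp only [F] at k
      have k' := rat2 (p := p) (q := q) lb 10000 100 tb C.p0 (C.p0.trans C.pq)
        (by exact_mod_cast (w1 h).1) (by norm_num) (by exact_mod_cast (w1 h).2)
        (by push_cast at k ⊢; linarith)
      have k'' : (10000 : ℝ) * p ≤ lb * q := by exact_mod_cast k'
      have h' : (lb : ℝ) < 10000 := by exact_mod_cast h
      push_cast
      refine ⟨?_, by linarith, fun _ => by linarith⟩
      rw [div_le_div_iff₀ q0 (by norm_num)]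
      linarith
    · exact ⟨by simpa using x1.le, by simp, fun k => absurd k h⟩
  obtain ⟨y2, y3, y4⟩ := y2
  have Z : wwJ ρ (i + 1) (j + 1) J N p q d e = 0 →
      lg e ≤ (pairAf pr 7 1653 (-7) 3 5 0).v N a b c d ∨
        (pairAf pr 8 1430 (-7) 3 3 0).v N a b c d ≤ lg e := by
    intro k
    rw [z1, z2, z3, z4] at k
    have c1 : (4600 : ℝ) ≤ la := by exact_mod_cast z5
    have c2 : (lb : ℝ) ≤ 5500 := by exact_mod_cast z6
    have c3 : (f.l2 : ℝ) = lb / 10000 := by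
      rw [Fi.l2]; simp only [F]; rw [if_pos (by omega)]; push_cast; rfl
    have c4 := (le_div_iff₀ q0).1 (show (46 : ℝ) / 100 ≤ p / q by linarith only [c1, y1, L1])
    have c5 := (div_le_iff₀ q0).1 (show (p : ℝ) / q ≤ 55 / 100 by linarith only [c2, y2, c3])
    have c6 : (128 : ℝ) * q ^ 2 ≤ d := by
      rw [← logb_le_logb one_lt_two (by positivity) d0, logb_mul (by norm_num) (by positivity),
        logb_pow, show (128 : ℝ) = 2 ^ 7 by norm_num, logb_pow, logb_self_eq_one one_lt_two]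
      simp only [lg] at sz
      push_cast at sz ⊢
      linarith only [sz]
    have c7 : (q : ℝ) ≤ 2 * p ∨ 2 * (p : ℝ) + 1 ≤ q := by
      rcases le_or_gt q (2 * p) with h | h
      · exact Or.inl (by exact_mod_cast h)
      · exact Or.inr (by exact_mod_cast h)
    have lx : ∀ m n : ℕ, logb 2 ((d : ℝ) ^ m * p ^ 3 * q ^ n) = m * lg d + 3 * lg p + n * lg q :=
      fun m n => by
        rw [logb_mul (by positivity) (by positivity), logb_mul (by positivity) (by positivity),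
          logb_pow, logb_pow, logb_pow, lg, lg, lg]
        push_cast; ring
    have ly : logb 2 ((e : ℝ) * N ^ 7) = lg e + 7 * lg N := by
      rw [logb_mul e0.ne' (by positivity), logb_pow, lg, lg]
      push_cast; ring
    refine (zero233 hM hJ ⟨by norm_num, by norm_num, by norm_num, by norm_num, by norm_num, N0, p1,
      pq, R.qd, de, bg⟩ (by exact_mod_cast hN) (by linarith only [c4]) (by linarith only [c5]) c6 c7
      k).imp (fun h => ?_) fun h => ?_
    · have := lg1 (x := (d : ℝ) ^ 7 * p ^ 3 * q ^ 5) (y := (e : ℝ) * N ^ 7) (c := 94080) (n := 100)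
        (m := 1653) (by decide +kernel) (by positivity) (by positivity) (by exact_mod_cast h)
      rw [lx, ly] at this
      rw [pv]; push_cast at this ⊢; linarith only [this]
    · have := lg2 (x := (d : ℝ) ^ 8 * p ^ 3 * q ^ 3) (y := (e : ℝ) * N ^ 7) (c := 20216) (n := 100)
        (m := 1430) (by decide +kernel) (by positivity) (by norm_num) (by exact_mod_cast h)
      rw [lx, ly] at this
      rw [pv]; push_cast at this ⊢; linarith only [this]
  obtain ⟨a0, a1', a2', a9⟩ := hM _ _ _ _ _ _ _ _ _ f.l1 f.l2 R (by exact_mod_cast y0)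
    ((le_div_iff₀ q0).1 y1) ((div_le_iff₀ q0).1 y2)
  obtain ⟨a3, a4⟩ := hA _ _ _ _ _ _ _ _ _ R
  obtain ⟨a5, a6⟩ := hU _ _ _ _ _ _ _ _ _ R
  have sp := splitJ ρ (i + 1) (j + 1) J (tmJ ρ (i + 1) (j + 1) J N p q d e)
    (t0J ρ (i + 1) (j + 1) J N p q d e) (tpJ ρ (i + 1) (j + 1) J N p q d e)
  rw [← a0] at sp
  have eE : eta (ρ + (i + 1) + (j + 1) + J) = (f.et : ℝ) := by rw [eta, et]; push_cast; rfl
  have eB : be ρ (ρ + (i + 1) + (j + 1) + J) = (beQ ρ f.sg : ℚ) := be3 _ _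
  have E0 : (0 : ℝ) < f.et := by rw [← eE, eta]; positivity
  have eL : ((beQ ρ f.sg : ℚ) : ℝ) * (rc (1 : ℚ) f.l1 (fun _ _ => 1) J (i + 1) (j + 1) : ℚ) / f.et =
      f.ml := by rw [ml]; push_cast; rfl
  have eU : ((beQ ρ f.sg : ℚ) : ℝ) * (rc (1 : ℚ) f.l2 (fun _ _ => 1) J (i + 1) (j + 1) : ℚ) * f.et =
      f.mu := by rw [Fi.mu]; push_cast; rfl
  have M0 : (0 : ℝ) < f.ml := by
    rw [← eL]
    exact div_pos (mul_pos (by exact_mod_cast bq_pos _ _) (by exact_mod_cast a9)) E0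
  rw [eE] at a1' a2' a3 a4 a5 a6
  rw [eB, eL] at a1'
  rw [eB, eU] at a2'
  rw [show ρ + (j + 1) - 1 = ρ + j by omega, Nat.add_sub_cancel, Nat.add_sub_cancel] at a3 a4
  rw [show i + 1 + (j + 1) - 2 = i + j by omega, Nat.add_sub_cancel, Nat.add_sub_cancel] at a5 a6
  have u0 : 0 < (q : ℝ) / N := by positivity
  have v0 : 0 < (p : ℝ) / N := by positivity
  have w0 : 0 < (p : ℝ) * q / (N * (q - p)) := by positivity
  have P2 : 0 < ((q : ℝ) / N) ^ (ρ + j) * (p / N) ^ (i + 1) / e := by positivity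
  have P4 : 0 < ((p : ℝ) / N) ^ (ρ + 1) * (p * q / (N * (q - p))) ^ (i + j) / e := by positivity
  have P6 : 0 < ((N : ℝ) / p) ^ J / (d : ℝ) ^ (ρ + (i + 1) + (j + 1) + J) := by positivity
  obtain ⟨r1, r2⟩ := ratio (v := p / N) i j ρ u0 w0 e0 x0 x1 (by field_simp) (by field_simp) y0 y1
    y2 y3
  have n0' : (0 : ℝ) ≤ nJ ρ (i + 1) (j + 1) J := Nat.cast_nonneg _
  have c1 := pl_mono ρ j i y0 y1
  have c2 := pl_mono ρ j i x0.le y2
  have c3 := pl_mono i j ρ (sub_nonneg.2 y3) (sub_le_sub_left y2 1)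
  have c4 := pl_mono i j ρ (sub_nonneg.2 x1.le) (sub_le_sub_left y1 1)
  have c5 := pl_nn ρ j i y0
  have c6 := pl_nn i j ρ (sub_nonneg.2 y3)
  have bs := base (v := v) (a₁ := 99 / 200 / f.et * (nJ ρ (i + 1) (j + 1) J * pl ρ j i (f.l1 : ℝ)))
    (a₂ := f.et / 2 * (nJ ρ (i + 1) (j + 1) J * pl ρ j i (f.l2 : ℝ)))
    (b₁ := 1 / 2 / f.et * (nJ ρ (i + 1) (j + 1) J * pl i j ρ (1 - f.l2 : ℝ)))
    (b₂ := f.et / 2 * (nJ ρ (i + 1) (j + 1) J * pl i j ρ (1 - f.l1 : ℝ)))
    (by positivity) (by positivity) P2 P4 (le_trans (by gcongr) a3) (a4.trans (by gcongr))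
    (le_trans (by gcongr) a5) (a6.trans (by gcongr)) r1 r2 (y1.trans_lt x1) (x0.trans_le y2)
    (fun h => y4 (w3 h)) fun h => by
      have : (0 : ℝ) < la := by exact_mod_cast w4 h
      rw [L1]; positivity
  have eI : ∀ l : ℚ, (if v = 0 then (1 : ℝ) else (1 - l) ^ (i + j) / l ^ (ρ + j)) = f.ri l :=
    fun l => by
      rw [ri]; simp only [F]
      rw [show ρ + (j + 1) - 1 = ρ + j by omega, show i + 1 + (j + 1) - 2 = i + j by omega]
      split_ifs <;> push_cast <;> rfl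
  have eT : ∀ l : ℚ, (if v = 0 then (l : ℝ) ^ (ρ + j) / (1 - l) ^ (i + j) else 1) = f.rt l :=
    fun l => by
      rw [rt]; simp only [F]
      rw [show ρ + (j + 1) - 1 = ρ + j by omega, show i + 1 + (j + 1) - 2 = i + j by omega]
      split_ifs <;> push_cast <;> rfl
  rw [eI, eI, eT, eT] at bs
  have lδ : lg (q - p) = logb 2 ((q : ℝ) - p) := by rw [lg]; push_cast; rfl
  have lu : logb 2 ((q : ℝ) / N) = lg q - lg N := logb_div q0.ne' N0.ne'
  have lv : logb 2 ((p : ℝ) / N) = lg p - lg N := logb_div p0.ne' N0.ne'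
  have lw : logb 2 ((p : ℝ) * q / (N * (q - p))) = lg p + lg q - lg N - lg (q - p) := by
    rw [logb_div (by positivity) (by positivity), logb_mul p0.ne' q0.ne', logb_mul N0.ne' D0.ne',
      lδ, lg, lg, lg]
    ring
  have lX : ∀ (x y : ℝ) (m n : ℕ), 0 < x → 0 < y →
      logb 2 (x ^ m * y ^ n / e) = m * logb 2 x + n * logb 2 y - lg e := fun x y m n hx hy => by
    rw [logb_div (by positivity) e0.ne', logb_mul (by positivity) (by positivity), logb_pow,
      logb_pow, lg]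
  have x2 := lX _ _ (ρ + j) (i + 1) u0 v0
  have x4 := lX _ _ (ρ + 1) (i + j) v0 w0
  rw [lu, lv] at x2
  rw [lv, lw] at x4
  have x6 : logb 2 (((N : ℝ) / p) ^ J / (d : ℝ) ^ (ρ + (i + 1) + (j + 1) + J)) =
      J * (lg N - lg p) - (ρ + i + j + 2 + J) * lg d := by
    rw [logb_div (by positivity) (by positivity), logb_pow, logb_pow, logb_div N0.ne' p0.ne', lg, lg,
      lg]
    push_cast
    ring
  have r0 : 0 < √((d : ℝ) * e) := sqrt_pos.2 (by positivity)
  have lr : logb 2 √((d : ℝ) * e) = (lg d + lg e) / 2 := by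
    rw [sqrt_eq_rpow, logb_rpow_eq_mul_logb_of_pos (by positivity), logb_mul d0.ne' e0.ne', lg, lg]
    ring
  obtain ⟨G, hG⟩ : ∃ G : ℝ, G = √((d : ℝ) * e) * (d ^ ρ * N ^ (ρ + (i + 1) + (j + 1)) *
    (q - p) ^ (i + j + 1) / (p ^ (i + 1) * q ^ (j + 1))) := ⟨_, rfl⟩
  have G0 : 0 < G := by rw [hG]; positivity
  have lG : logb 2 G = (lg d + lg e) / 2 + ρ * lg d + (ρ + i + j + 2) * lg N +
      (i + j + 1) * lg (q - p) - (i + 1) * lg p - (j + 1) * lg q := by
    rw [hG, logb_mul r0.ne' (by positivity), lr, logb_div (by positivity) (by positivity),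
      logb_mul (by positivity) (by positivity), logb_mul (by positivity) (by positivity),
      logb_mul (by positivity) (by positivity), logb_pow, logb_pow, logb_pow, logb_pow, logb_pow,
      lδ, lg, lg, lg, lg, lg]
    push_cast
    ring
  obtain ⟨s1, s2⟩ := sq_le (p := p) (d := d) s N0
    ((by linarith only [N0, bg] : (N : ℝ) < d).trans_le (le_mul_of_one_le_left d0.le p1))
  obtain ⟨s3, s4⟩ := sq_le (p := q) (d := d) t N0
    ((by linarith only [N0, bg] : (N : ℝ) < d).trans_le (le_mul_of_one_le_left d0.le (p1.trans pq.le)))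
  have s5 := lg_sq s C.p0 (show 0 < d by exact_mod_cast d0)
  have s6 := lg_sq t (C.p0.trans C.pq) (show 0 < d by exact_mod_cast d0)
  have s7 := s1.trans_le s2
  have s8 := s3.trans_le s4
  have hz' : 4 ^ (ρ + 1) / g * (√((p : ℝ) * d - N) ^ s * √((q : ℝ) * d - N) ^ t * G) *
      wwJ ρ (i + 1) (j + 1) J N p q d e = z := by
    rw [← hz, hG]; ring
  generalize √((p : ℝ) * d - N) ^ s = S1 at *
  generalize √((q : ℝ) * d - N) ^ t = S2 at *
  generalize √((p : ℝ) * d) ^ s = T1 at *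
  generalize √((q : ℝ) * d) ^ t = T2 at *
  have lH : logb 2 (T1 * T2 * G) = s * ((lg p + lg d) / 2) + t * ((lg q + lg d) / 2) + logb 2 G := by
    rw [logb_mul (by positivity) G0.ne', logb_mul s7.ne' s8.ne', s5, s6]
  have H0 : 0 < T1 * T2 * G := by positivity
  have es : ((f.sg : ℕ) : ℝ) = ρ + i + j + 2 + J := by rw [sg]; simp only [F]; push_cast; ring
  generalize ((q : ℝ) / N) ^ (ρ + j) * (p / N) ^ (i + 1) / e = X2 at *
  generalize ((p : ℝ) / N) ^ (ρ + 1) * (p * q / (N * (q - p))) ^ (i + j) / e = X4 at *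
  generalize ((N : ℝ) / p) ^ J / (d : ℝ) ^ (ρ + (i + 1) + (j + 1) + J) = X6 at *
  have vX : 0 < (if v = 0 then X2 else X4) ∧
      f.lo.v N a b c d = m0 / 10 + lg e + 2 * (logb 2 (T1 * T2 * G) +
        logb 2 (if v = 0 then X2 else X4)) ∧
      f.mid.v N a b c d = n0 / 100 + lg e + logb 2 (if v = 0 then X2 else X4) - logb 2 X6 := by
    rw [lo, mid, lH, lG, x6]
    simp only [F]
    split_ifs
    · refine ⟨P2, ?_, ?_⟩ <;> rw [pv, x2] <;> push_cast <;> [ring; (rw [es]; ring)]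
    · refine ⟨P4, ?_, ?_⟩ <;> rw [pv, x4] <;> push_cast <;> [ring; (rw [es]; ring)]
  have vT : f.top.v N a b c d = -(mm / 10) + lg e - 2 * (logb 2 (T1 * T2 * G) + logb 2 X6) := by
    rw [top, lH, lG, x6, pv]; simp only [F]; push_cast; rw [es]; ring
  generalize (if v = 0 then X2 else X4) = X at *
  obtain ⟨X0, vL, vM⟩ := vX
  generalize (-1 : ℝ) ^ ρ * t0J ρ (i + 1) (j + 1) J N p q d e = A at *
  generalize (-1 : ℝ) ^ (ρ + (j + 1)) * tpJ ρ (i + 1) (j + 1) J N p q d e = B at *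
  generalize (-1 : ℝ) ^ (i + 1 + (j + 1) + J + 1) * tmJ ρ (i + 1) (j + 1) J N p q d e = M at *
  change _ = M + (bif f.o0 then -A else A) + (bif f.op then -B else B) at sp
  have eb : (f.a1 * X ≤ A ∧ A ≤ f.a2 * X) ∧ f.b1 * X ≤ B ∧ B ≤ f.b2 * X := by
    rw [a1, a2, b1, b2, nq]
    simp only [F, Nat.add_sub_cancel]
    push_cast [pl_cast]
    exact bs
  have ee : (f.e1 : ℝ) * X ≤ (bif f.o0 then -A else A) + (bif f.op then -B else B) ∧
      (bif f.o0 then -A else A) + (bif f.op then -B else B) ≤ f.e2 * X := by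
    rw [e1, e2]
    obtain ⟨⟨h1, h2⟩, h3, h4⟩ := eb
    cases f.o0 <;> cases f.op <;> simp only [cond_true, cond_false] <;> push_cast <;>
      constructor <;> linarith
  rw [add_assoc M] at sp
  generalize (bif f.o0 then -A else A) + (bif f.op then -B else B) = E at sp ee
  have m0' : 0 < f.ml * X6 := by positivity
  have fin : ∀ L U : List Af, (wwJ ρ (i + 1) (j + 1) J N p q d e = 0 →
      (∃ l ∈ L, lg e ≤ l.v N a b c d) ∨ ∃ h ∈ U, h.v N a b c d ≤ lg e) →
      (∃ l ∈ f.lo :: L, lg e ≤ l.v N a b c d) ∨ ∃ h ∈ f.top :: U, h.v N a b c d ≤ lg e := by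
    intro L U k
    by_cases hw : wwJ ρ (i + 1) (j + 1) J N p q d e = 0
    · exact (k hw).imp (fun ⟨l, x, y⟩ => ⟨l, by simp [x], y⟩) fun ⟨l, x, y⟩ => ⟨l, by simp [x], y⟩
    have F0 : (0 : ℝ) < 4 ^ (ρ + 1) / g * (S1 * S2 * G) := by positivity
    have z0 : z ≠ 0 := by
      rintro rfl
      exact mul_ne_zero F0.ne' hw (by simpa using hz')
    have z1 : (1 : ℝ) ≤ |(z : ℝ)| := by exact_mod_cast Int.one_le_abs z0
    have z2 : 1 ≤ |4 ^ (ρ + 1) / g * (S1 * S2 * G) * ((-1) ^ (i + 1 + (j + 1) + J + 1) *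
        wwJ ρ (i + 1) (j + 1) J N p q d e)| := by
      rwa [mul_left_comm, abs_mul, abs_neg_one_pow, one_mul, hz']
    rcases HFI.core (F' := 4 ^ (ρ + 1) / g * (T1 * T2 * G)) (θ := th) sp (m0'.le.trans a1') F0
      (by gcongr) X0 z2 ee.1 ee.2 a2' (by exact_mod_cast t1) (by exact_mod_cast t2) with k | k
    · have := lg1 bm (mul_pos H0 P6) one_pos (k.trans_eq (by push_cast; ring))
      rw [logb_mul H0.ne' P6.ne', logb_one] at this
      push_cast at this
      exact Or.inr ⟨_, List.mem_cons_self, by rw [vT]; linarith only [this]⟩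
    · have := lg1 b0 (mul_pos H0 X0) one_pos (k.trans_eq (by push_cast; ring))
      rw [logb_mul H0.ne' X0.ne', logb_one] at this
      push_cast at this
      exact Or.inl ⟨_, List.mem_cons_self, by rw [vL]; linarith only [this]⟩
  exact fin _ _ fun k => (Z k).imp (fun h => ⟨_, List.mem_cons_self, h⟩)
    fun h => ⟨_, List.mem_cons_self, h⟩

end Pool.Agent.MP_2339ce_nt.Q2

end
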