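import Pool.Agent.MP_2339ce_nt.Q2.HA8
import Pool.Agent.MP_2339ce_nt.Q2.HZ3

/-! `D(-N)`-quintuples, block HP: tables of valid windows, with the window for `q` near `2 p`. -/

set_option autoImplicit false

namespace Pool.Agent.MP_2339ce_nt.Q2

open DQ

theorem zw_ok (g : ℕ) (f : Fi) (h : (decide (f.Good g) && decide f.GoodZ) = true) : f.zw.Ok :=
  fz_ok (lmb main) (l0b jid) (lpb jid) (lint jid) jid g f
    (of_decide_eq_true (Bool.and_eq_true_iff.1 h).1) (of_decide_eq_true (Bool.and_eq_true_iff.1 h).2)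

inductive El9 where
  | old (pr j : ℕ)
  | q (j : ℕ)
  | fm (g : ℕ) (f : Fm2)
  | fj (j g : ℕ) (f : Fm2)
  | fi (g : ℕ) (f : Fi)
  | fz (g : ℕ) (f : Fi)
  | sw (pr i : ℕ) (u v : ℤ)
  | tw (pr i : ℕ) (u v : ℤ)

def El9.wn : El9 → Wn
  | .old pr j => Q2.wn (pr, j)
  | .q j => wq j
  | .fm _ f => f.wn
  | .fj j _ f => f.wnJ j
  | .fi _ f => f.wn
  | .fz _ f => f.zw
  | .sw pr i u v => Q2.sw pr i u v
  | .tw pr i u v => Q2.tw pr i u v

noncomputable def El9.good : El9 → Bool
  | .fm g f => (El8.fm g f).good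
  | .fj j g f => (El8.fj j g f).good
  | .fi g f => (El8.fi g f).good
  | .fz g f => decide (f.Good g) && decide f.GoodZ
  | .sw pr i u v => (El8.sw pr i u v).good
  | .tw pr i u v => (El8.tw pr i u v).good
  | _ => true

theorem El9.ok (x : El9) (h : x.good = true) : x.wn.Ok := by
  cases x with
  | old pr j => exact (El8.old pr j).ok rfl
  | q j => exact (El8.q j).ok rfl
  | fm g f => exact (El8.fm g f).ok h
  | fj j g f => exact (El8.fj j g f).ok h
  | fi g f => exact (El8.fi g f).ok h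
  | fz g f => exact zw_ok g f h
  | sw pr i u v => exact (El8.sw pr i u v).ok h
  | tw pr i u v => exact (El8.tw pr i u v).ok h

theorem tab_ok9 {l : List Wn} (t : List El9) (h1 : t.all El9.good = true) (h2 : l = t.map El9.wn) :
    ∀ w ∈ l, w.Ok := by
  subst h2
  intro w h
  obtain ⟨x, y, rfl⟩ := List.mem_map.1 h
  exact x.ok (List.all_eq_true.1 h1 x y)

end Pool.Agent.MP_2339ce_nt.Q2
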