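import Pool.Agent.MP_2339ce_nt.Q2.HFM
import Pool.Agent.MP_2339ce_nt.Q2.SpecH4

/-! `D(-N)`-quintuples, block HP: windows of shifted forms. -/

set_option autoImplicit false

noncomputable section

namespace Pool.Agent.MP_2339ce_nt.Q2

open DQ TNQ Real

namespace Fm2

variable (f : Fm2) (J : ℕ)

def etJ : ℚ := (1001 / 1000) ^ (f.sg + J)
def bqJ : ℚ := beQ f.ρ (f.sg + J)
def c0J : ℚ := (nJ f.ρ f.kp f.kq J * (f.ρ + f.kq - 1).choose f.ρ : ℕ)
def c0bJ : ℚ := (nJ f.ρ f.kp f.kq J * (f.sg - 1).choose f.ρ : ℕ)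
def cpJ : ℚ := (nJ f.ρ f.kp f.kq J * (f.kp + f.kq - 2).choose (f.kp - 1) : ℕ)
def cpbJ : ℚ := (nJ f.ρ f.kp f.kq J * (f.sg - 1).choose (f.kp - 1) : ℕ)
def lJ : ℚ := if f.lam < 1000 ∧ f.nz < 7 then f.lm else 1
def bl : ℚ := f.bqJ J * ((f.kp + J - 1).choose J : ℕ)
def bu : ℚ := f.bqJ J * rc 1 f.lJ (fun _ _ => 1) J f.kp f.kq

def Base4 (g : ℕ) : Prop :=
  (1 ≤ f.kp ∧ f.kp + J ≤ f.ρ + 1 ∧ 2 ≤ f.kq ∧ f.kq + J ≤ f.ρ + 1 ∧ f.ρ + 1 ≤ f.kp + f.kq) ∧
  (0 < f.th0 ∧ 0 < f.thp ∧ 0 < f.thm ∧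
    f.thm + (bif f.o0J J then 0 else f.th0) + (bif f.opJ J then 0 else f.thp) ≤ 1000 ∧
    (bif f.o0J J then f.th0 else 0) + (bif f.opJ J then f.thp else 0) ≤ 1000) ∧
  (f.etJ J / 2 * (4 ^ f.ρ / g) * (if f.v0 = 0 then f.c0J J else f.c0bJ J) * 1000 / f.th0) ^ 20 ≤
    2 ^ f.m0 ∧
  (f.etJ J / 2 * (4 ^ f.ρ / g) * (if f.vp = 0 then f.cpJ J else f.cpbJ J) * 1000 / f.thp) ^ 20 ≤
    2 ^ f.mp ∧
  (f.etJ J * (4 ^ f.ρ / g) * f.bu J * 1000 / f.thm) ^ 20 ≤ 2 ^ f.mm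

def ratJ : ℚ := f.etJ J ^ 2 * f.cpbJ J * 50 / (49 * f.c0J J) * f.lm ^ (f.ρ + f.kq - 1) /
  (1 - f.lm) ^ (f.kp + f.kq - 2)

def PhJ : Prop := 0 < f.ph0 ∧ 0 < f.php ∧
  (bif f.o0J J then f.ph0 else 0) + (bif f.opJ J then f.php else 0) ≤ 1000

def M1 : Prop := f.PhJ J ∧
  (f.o0J J = true → (f.etJ J ^ 2 * f.c0bJ J * 500 / (f.bl J * f.ph0)) ^ 10 ≤ 2 ^ f.n0) ∧
  (f.opJ J = true → (f.etJ J ^ 2 * f.cpbJ J * 500 / (f.bl J * f.php)) ^ 10 ≤ 2 ^ f.n1)

def M2 : Prop := f.lam < 1000 ∧ f.PhJ J ∧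
  (f.o0J J = true → (f.etJ J ^ 2 * min (f.c0bJ J) (f.c0J J / (1 - f.lm) ^ f.kp) * 500 /
    (f.bl J * f.ph0)) ^ 10 ≤ 2 ^ f.n0) ∧
  (f.opJ J = true → (f.etJ J ^ 2 * f.cpbJ J * 500 /
    (f.bl J * f.php * (1 - f.lm) ^ (f.kp + f.kq - 2))) ^ 10 ≤ 2 ^ f.n1)

def M3 : Prop := f.o0J J = true ∧ f.opJ J = true ∧
  2 ^ f.n0 ≤ (49 / 100 * f.c0J J / (f.etJ J ^ 2 * f.bu J)) ^ 10

def M4 : Prop := f.lam < 1000 ∧ f.o0J J = true ∧ f.opJ J = false ∧ f.ratJ J < 1 ∧
  2 ^ f.n0 ≤ ((1 - f.ratJ J) * (49 / 100 * f.c0J J) / (f.etJ J ^ 2 * f.bu J)) ^ 10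

def M5 : Prop := f.lam < 1000 ∧ f.o0J J = false ∧ f.ratJ J ≤ 1

def M6 : Prop := f.o0J J = true ∧ f.opJ J = true ∧
  2 ^ f.n1 ≤ (f.cpJ J / (2 * f.etJ J ^ 2 * f.bu J)) ^ 10

def M7 : Prop := f.opJ J = false ∧ 0 < f.lam ∧ f.lam < 1000 ∧
  2 ^ f.tau * f.lam ^ 100 < 1000 ^ 100 ∧
  f.etJ J ^ 2 * f.c0bJ J * (1 - f.lm) ^ (f.kp + f.kq - 2) ≤ f.cpJ J * f.lm ^ (f.ρ + f.kq - 1)

def Good4 (g : ℕ) : Prop := (f.Base4 J g ∧ ContJ f.ρ f.kp f.kq J g) ∧
  (f.lam < 1000 → f.nz < 7 → f.Far) ∧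
  (f.nz = 0 → f.o0J J = false ∧ f.opJ J = false) ∧ (f.nz = 1 → f.M1 J) ∧
  (f.nz = 2 → f.M2 J) ∧ (f.nz = 3 → f.M3 J) ∧ (f.nz = 4 → f.M4 J) ∧ (f.nz = 5 → f.M5 J) ∧
  (f.nz = 6 → f.M6 J) ∧ (7 ≤ f.nz → f.M7 J)

instance (g : ℕ) : Decidable (f.Base4 J g) := by unfold Base4; infer_instance
instance : Decidable (f.PhJ J) := by unfold PhJ; infer_instance
instance : Decidable (f.M1 J) := by unfold M1; infer_instance
instance : Decidable (f.M2 J) := by unfold M2; infer_instance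
instance : Decidable (f.M3 J) := by unfold M3; infer_instance
instance : Decidable (f.M4 J) := by unfold M4; infer_instance
instance : Decidable (f.M5 J) := by unfold M5; infer_instance
instance : Decidable (f.M6 J) := by unfold M6; infer_instance
instance : Decidable (f.M7 J) := by unfold M7; infer_instance
instance (g : ℕ) : Decidable (f.Good4 J g) := by unfold Good4; infer_instance

theorem sd_eq (h : f.nz < 7) : (f.wnJ J).sd = f.sdJ := by
  obtain ⟨pr, ρ, kp, kq, nz, v0, vp, lam, th0, thp, thm, ph0, php, tau, m0, mp, mm, n0, n1⟩ := f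
  dsimp only at h
  interval_cases nz <;> rfl

end Fm2

namespace HFM

theorem splitJ (ρ kp kq J : ℕ) (x y z : ℝ) :
    (-1) ^ (kp + kq + J + 1) * (x + y + z) = (-1) ^ (kp + kq + J + 1) * x +
      (bif (kp + kq + J + ρ) % 2 == 0 then -((-1) ^ ρ * y) else (-1) ^ ρ * y) +
      (bif (kp + J + ρ) % 2 == 0 then -((-1) ^ (ρ + kq) * z) else (-1) ^ (ρ + kq) * z) := by
  have a : ∀ n : ℕ, (-1 : ℝ) ^ n * (-1) ^ n = 1 := fun n => by rw [← mul_pow]; simp
  rw [← sgn_eq, ← sgn_eq]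
  simp only [pow_add]
  linear_combination (-(-1) ^ kp * (-1) ^ kq * (-1) ^ J * (-1) ^ 1 * (y + z)) * a ρ

theorem nearX {u v w e l : ℝ} (i j ρ : ℕ) (u0 : 0 < u) (v0 : 0 < v) (e0 : 0 < e)
    (l0 : 0 < l) (h1 : l * u ≤ v) (h2 : v ≤ (1 - l) * w) :
    l ^ (ρ + j + 1) * (u ^ (ρ + j + 1) * v ^ (i + 1) / e) ≤
      (1 - l) ^ (i + j + 1) * (v ^ (ρ + 1) * w ^ (i + j + 1) / e) := by
  calc _ = (l * u) ^ (ρ + j + 1) * v ^ (i + 1) / e := by rw [mul_pow]; ring
    _ ≤ v ^ (ρ + j + 1) * v ^ (i + 1) / e := by gcongr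
    _ = v ^ (ρ + 1) * v ^ (i + j + 1) / e := by ring
    _ ≤ v ^ (ρ + 1) * ((1 - l) * w) ^ (i + j + 1) / e := by gcongr
    _ = _ := by rw [mul_pow]; ring

end HFM

open HFM Fm2 in
theorem fm4 (hM : S_JM) (hA : S_J0) (hU : S_JP) (hL : S_JINT) (J g : ℕ) :
    ∀ f : Fm2, f.Good4 J g → (f.wnJ J).Ok := by
  rintro ⟨pr, ρ, kp, kq, nz, v0, vp, lam, th0, thp, thm, ph0, php, tau, m0, mp, mm, n0, n1⟩
    ⟨⟨⟨⟨k1, k2, k3, k4, k5⟩, ⟨t1, t2, t3, w1, w2⟩, b0, bp, bm⟩, ct⟩,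
      gf, g0, g1, g2, g3, g4, g5, g6, g7⟩
    N a b c d e N1 _ H big hc sd
  obtain ⟨i, rfl⟩ : ∃ i, kp = i + 1 := ⟨kp - 1, by dsimp only at k1; omega⟩
  obtain ⟨j, rfl⟩ : ∃ j, kq = j + 2 := ⟨kq - 2, by dsimp only at k3; omega⟩
  have C := cf H N1 big pr
  have hq : 100 * qq pr b c ≤ d := by
    have := H.bc
    rcases pr with _ | pr <;> simp only [qq] <;> omega
  have pv := pair_v (N := N) (a := a) (b := b) (c := c) (d := d) pr
  set f : Fm2 := ⟨pr, ρ, i + 1, j + 2, nz, v0, vp, lam, th0, thp, thm, ph0, php, tau, m0, mp, mm,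
    n0, n1⟩ with hf
  have F : (f.ρ = ρ ∧ f.kp = i + 1 ∧ f.kq = j + 2) ∧ (f.m0 = m0 ∧ f.mp = mp ∧ f.mm = mm ∧
      f.n0 = n0 ∧ f.n1 = n1) ∧ (f.th0 = th0 ∧ f.thp = thp ∧ f.thm = thm ∧ f.ph0 = ph0 ∧
      f.php = php) ∧ f.tau = tau :=
    ⟨⟨rfl, rfl, rfl⟩, ⟨rfl, rfl, rfl, rfl, rfl⟩, ⟨rfl, rfl, rfl, rfl, rfl⟩, rfl⟩
  simp only [F] at b0 bp bm
  generalize pp pr a b = p, qq pr b c = q at C hq pv
  have N0 : (0 : ℝ) < N := by exact_mod_cast N1
  have p1 : (1 : ℝ) ≤ p := by exact_mod_cast C.p0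
  have pq : (p : ℝ) < q := by exact_mod_cast C.pq
  have qd : (q : ℝ) < d := by exact_mod_cast C.qd
  have de : (d : ℝ) ≤ e := by exact_mod_cast C.de
  have p0 : (0 : ℝ) < p := by linarith
  have q0 : (0 : ℝ) < q := by linarith
  have d0 : (0 : ℝ) < d := by linarith
  have e0 : (0 : ℝ) < e := by linarith
  have D0 : (0 : ℝ) < q - p := by linarith
  have ad : Adm ρ (i + 1) (j + 2) :=
    ⟨k1, (Nat.le_add_right _ _).trans k2, by omega, (Nat.le_add_right _ _).trans k4⟩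
  have R : RgJ ρ (i + 1) (j + 2) J N p q d e :=
    ⟨⟨ad, k3, k5, N0, p1, pq, by exact_mod_cast hq, de, by exact_mod_cast big⟩, k2, k4⟩
  obtain ⟨z, hz⟩ := hL ρ (i + 1) (j + 2) J g N p q d e k1 (by omega) k2 k4 ct C
  rw [scN, show i + 1 + (j + 2) - 1 = i + j + 2 by omega] at hz
  have g0' : (0 : ℝ) < g := by exact_mod_cast ct.1
  have lδ : lg (q - p) = logb 2 ((q : ℝ) - p) := by rw [lg]; push_cast; rfl
  have lu : logb 2 ((q : ℝ) / N) = lg q - lg N := logb_div q0.ne' N0.ne'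
  have lv : logb 2 ((p : ℝ) / N) = lg p - lg N := logb_div p0.ne' N0.ne'
  have lw : logb 2 ((p : ℝ) * q / (N * (q - p))) = lg p + lg q - lg N - lg (q - p) := by
    rw [logb_div (by positivity) (by positivity), logb_mul p0.ne' q0.ne', logb_mul N0.ne' D0.ne',
      lδ, lg, lg, lg]
    ring
  have r0 : 0 < √((d : ℝ) * e) := sqrt_pos.2 (by positivity)
  have lr : logb 2 √((d : ℝ) * e) = (lg d + lg e) / 2 := by
    rw [sqrt_eq_rpow, logb_rpow_eq_mul_logb_of_pos (by positivity), logb_mul d0.ne' e0.ne', lg, lg]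
    ring
  obtain ⟨G, hG⟩ : ∃ G : ℝ, G = √((d : ℝ) * e) * (d ^ ρ * N ^ (ρ + (i + 1) + (j + 2)) *
    (q - p) ^ (i + j + 2) / (p ^ (i + 1) * q ^ (j + 2))) := ⟨_, rfl⟩
  have G0 : 0 < G := by rw [hG]; positivity
  have lG : logb 2 G = (lg d + lg e) / 2 + ρ * lg d + (ρ + i + j + 3) * lg N +
      (i + j + 2) * lg (q - p) - (i + 1) * lg p - (j + 2) * lg q := by
    rw [hG, logb_mul r0.ne' (by positivity), lr, logb_div (by positivity) (by positivity),
      logb_mul (by positivity) (by positivity), logb_mul (by positivity) (by positivity),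
      logb_mul (by positivity) (by positivity), logb_pow, logb_pow, logb_pow, logb_pow, logb_pow,
      lδ, lg, lg, lg, lg, lg]
    push_cast
    ring
  have hz' : 4 ^ ρ / g * G * wwJ ρ (i + 1) (j + 2) J N p q d e = z := by
    rw [← hz, hG]; ring
  have u0 : 0 < (q : ℝ) / N := by positivity
  have v0' : 0 < (p : ℝ) / N := by positivity
  have w0 : 0 < (p : ℝ) * q / (N * (q - p)) := by positivity
  have fr : f.Far → 0 ≤ f.far.v N a b c d → (0 : ℝ) < f.lm ∧ (f.lm : ℝ) < 1 ∧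
      (p : ℝ) / N ≤ f.lm * (q / N) ∧ (p : ℝ) * q / (N * (q - p)) ≤ p / N / (1 - f.lm) := by
    rintro ⟨x1, x2, x3⟩ k
    rw [far, pv] at k
    simp only [F] at k
    have k1 := rat2 (p := p) (q := q) lam 1000 100 tau C.p0 (C.p0.trans C.pq)
      (by exact_mod_cast x1) (by norm_num) (by exact_mod_cast x3) (by push_cast at k ⊢; linarith)
    have k2 : (1000 : ℝ) * p ≤ lam * q := by exact_mod_cast k1
    have e1 : (f.lm : ℝ) = lam / 1000 := by rw [lm]; push_cast; rfl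
    have y1 : (0 : ℝ) < lam := by exact_mod_cast x1
    have y2 : (lam : ℝ) < 1000 := by exact_mod_cast x2
    rw [e1]
    refine ⟨by positivity, by linarith, ?_, ?_⟩
    · rw [← mul_div_assoc]; gcongr; linarith
    · rw [div_div, div_le_div_iff₀ (by positivity) (mul_pos N0 (by linarith))]
      have := mul_le_mul_of_nonneg_left k2 (mul_pos p0 N0).le
      linarith
  have sf : lam < 1000 → nz < 7 → 0 ≤ f.far.v N a b c d := fun h1 h2 => sd _ (by
    rw [sd_eq f J h2, sdJ, show Nat.blt f.lam 1000 = true from Nat.blt_eq.mpr h1]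
    exact List.mem_cons_self)
  have hl : (p : ℝ) ≤ f.lJ * q := by
    rw [lJ]
    split_ifs with h
    · have := (fr (gf h.1 h.2) (sf h.1 h.2)).2.2.1
      rwa [← mul_div_assoc, div_le_div_iff_of_pos_right N0] at this
    · push_cast; linarith
  obtain ⟨a0, a1, a2⟩ := hM _ _ _ _ _ _ _ _ _ _ R hl
  obtain ⟨a5, a3, a7⟩ := hA _ _ _ _ _ _ _ _ _ R
  obtain ⟨a6, a4, a8⟩ := hU _ _ _ _ _ _ _ _ _ R
  have sp := splitJ ρ (i + 1) (j + 2) J (tmJ ρ (i + 1) (j + 2) J N p q d e)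
    (t0J ρ (i + 1) (j + 2) J N p q d e) (tpJ ρ (i + 1) (j + 2) J N p q d e)
  rw [← a0] at sp
  have eE : eta (ρ + (i + 1) + (j + 2) + J) = (f.etJ J : ℝ) := by rw [eta, etJ]; push_cast; rfl
  have eB : be ρ (ρ + (i + 1) + (j + 2) + J) = (f.bqJ J : ℝ) := be3 _ _
  have eL : (f.bqJ J : ℝ) * ((i + 1 + J - 1).choose J : ℕ) = f.bl J := by rw [bl]; push_cast; rfl
  have eU : (f.bqJ J : ℝ) * (rc (1 : ℚ) f.lJ (fun _ _ => 1) J (i + 1) (j + 2) : ℚ) = f.bu J := by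
    rw [bu]; push_cast; rfl
  have c1 : ((nJ ρ (i + 1) (j + 2) J * (ρ + (j + 2) - 1).choose ρ : ℕ) : ℝ) = f.c0J J := by
    rw [c0J, Rat.cast_natCast]
  have c2 : ((nJ ρ (i + 1) (j + 2) J * (ρ + (i + 1) + (j + 2) - 1).choose ρ : ℕ) : ℝ) =
      f.c0bJ J := by rw [c0bJ, Rat.cast_natCast]; rfl
  have c3 : ((nJ ρ (i + 1) (j + 2) J * (i + 1 + (j + 2) - 2).choose (i + 1 - 1) : ℕ) : ℝ) =
      f.cpJ J := by rw [cpJ, Rat.cast_natCast]
  have c4 : ((nJ ρ (i + 1) (j + 2) J * (ρ + (i + 1) + (j + 2) - 1).choose (i + 1 - 1) : ℕ) : ℝ) =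
      f.cpbJ J := by rw [cpbJ, Rat.cast_natCast]; rfl
  have nj : 0 < nJ ρ (i + 1) (j + 2) J := Nat.choose_pos (by omega)
  have E0 : (0 : ℝ) < f.etJ J := by rw [← eE, eta]; positivity
  have C1 : (0 : ℝ) < f.c0J J := c1 ▸ Nat.cast_pos.2 (mul_pos nj (Nat.choose_pos (by omega)))
  have C2 : (0 : ℝ) ≤ f.c0bJ J := c2 ▸ Nat.cast_nonneg _
  have C3 : (0 : ℝ) < f.cpJ J := c3 ▸ Nat.cast_pos.2 (mul_pos nj (Nat.choose_pos (by omega)))
  have C4 : (0 : ℝ) < f.cpbJ J := c4 ▸ Nat.cast_pos.2 (mul_pos nj (Nat.choose_pos (by omega)))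
  have B0 : (0 : ℝ) < f.bl J := eL ▸ mul_pos (by exact_mod_cast bq_pos _ _)
    (Nat.cast_pos.2 (Nat.choose_pos (by omega)))
  rw [eE] at a1 a2 a3 a4 a5 a6 a7 a8
  rw [eB, eL] at a1
  rw [eB, eU] at a2
  rw [c1] at a3 a5
  rw [c3] at a4 a6
  rw [c2] at a7
  rw [c4] at a8
  rw [show ρ + (j + 2) - 1 = ρ + j + 1 by omega] at a3 a5 a7
  rw [show i + 1 + (j + 2) - 2 = i + j + 1 by omega] at a4 a6 a8
  have nr : f.M7 J → 0 ≤ f.near.v N a b c d → (0 : ℝ) < f.lm ∧ (f.lm : ℝ) < 1 ∧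
      f.lm * (q / N) ≤ (p : ℝ) / N ∧ (p : ℝ) / N ≤ (1 - f.lm) * (p * q / (N * (q - p))) := by
    rintro ⟨-, x1, x2, x3, -⟩ k
    rw [near, pv] at k
    simp only [F] at k
    have k1 := rat1 (p := p) (q := q) lam 1000 100 tau C.p0 (C.p0.trans C.pq)
      (by exact_mod_cast x1) (by norm_num) (by exact_mod_cast x3) (by push_cast at k ⊢; linarith)
    have k2 : (lam : ℝ) * q ≤ 1000 * p := by exact_mod_cast k1
    have e1 : (f.lm : ℝ) = lam / 1000 := by rw [lm]; push_cast; rfl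
    have y1 : (0 : ℝ) < lam := by exact_mod_cast x1
    have y2 : (lam : ℝ) < 1000 := by exact_mod_cast x2
    rw [e1]
    refine ⟨by positivity, by linarith, ?_, ?_⟩
    · rw [← mul_div_assoc]; gcongr; linarith
    · rw [← mul_div_assoc, div_le_div_iff₀ N0 (mul_pos N0 D0)]
      have := mul_le_mul_of_nonneg_left k2 (mul_pos p0 N0).le
      linarith
  have lX : ∀ (x y : ℝ) (m n : ℕ), 0 < x → 0 < y →
      logb 2 (x ^ m * y ^ n / e) = m * logb 2 x + n * logb 2 y - lg e := fun x y m n hx hy => by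
    rw [logb_div (by positivity) e0.ne', logb_mul (by positivity) (by positivity), logb_pow,
      logb_pow, lg]
  have x1 := lX _ _ (ρ + j + 1) (i + 1) u0 w0
  have x2 := lX _ _ (ρ + j + 1) (i + 1) u0 v0'
  have x3 := lX _ _ (ρ + 1) (i + j + 1) u0 w0
  have x4 := lX _ _ (ρ + 1) (i + j + 1) v0' w0
  have x5 : logb 2 (((p : ℝ) / N) ^ (ρ + i + j + 2) / e) =
      (ρ + i + j + 2 : ℕ) * logb 2 ((p : ℝ) / N) - lg e := by
    rw [logb_div (by positivity) e0.ne', logb_pow, lg]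
  have x6 : logb 2 (((N : ℝ) / p) ^ J / (d : ℝ) ^ (ρ + (i + 1) + (j + 2) + J)) =
      J * (lg N - lg p) - (ρ + i + j + 3 + J) * lg d := by
    rw [logb_div (by positivity) (by positivity), logb_pow, logb_pow, logb_div N0.ne' p0.ne', lg, lg,
      lg]
    push_cast
    ring
  have nx := fun l : ℝ => nearX (e := e) (l := l) (w := p * q / (N * (q - p))) i j ρ u0 v0' e0
  have fx := fun l : ℝ => farX (e := e) (l := l) i j ρ u0 v0' w0 e0
  rw [lu, lw] at x1 x3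
  rw [lu, lv] at x2
  rw [lv, lw] at x4
  rw [lv] at x5
  have P1 : 0 < ((q : ℝ) / N) ^ (ρ + j + 1) * (p * q / (N * (q - p))) ^ (i + 1) / e := by positivity
  have P2 : 0 < ((q : ℝ) / N) ^ (ρ + j + 1) * (p / N) ^ (i + 1) / e := by positivity
  have P3 : 0 < ((q : ℝ) / N) ^ (ρ + 1) * (p * q / (N * (q - p))) ^ (i + j + 1) / e := by positivity
  have P4 : 0 < ((p : ℝ) / N) ^ (ρ + 1) * (p * q / (N * (q - p))) ^ (i + j + 1) / e := by positivity
  have P5 : 0 < ((p : ℝ) / N) ^ (ρ + i + j + 2) / e := by positivity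
  have P6 : 0 < ((N : ℝ) / p) ^ J / (d : ℝ) ^ (ρ + (i + 1) + (j + 2) + J) := by positivity
  have ab : ∀ (n : ℕ) (t : ℝ), (-1) ^ n * t ≤ |t| := fun n t =>
    (le_abs_self _).trans (by rw [abs_mul, abs_neg_one_pow, one_mul])
  replace a3 := (ab ρ _).trans a3
  replace a7 := (ab ρ _).trans a7
  replace a4 := (ab (ρ + (j + 2)) _).trans a4
  replace a8 := (ab (ρ + (j + 2)) _).trans a8
  generalize ((q : ℝ) / N) ^ (ρ + j + 1) * (p * q / (N * (q - p))) ^ (i + 1) / e = X1 at *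
  generalize ((q : ℝ) / N) ^ (ρ + j + 1) * (p / N) ^ (i + 1) / e = X2 at *
  generalize ((q : ℝ) / N) ^ (ρ + 1) * (p * q / (N * (q - p))) ^ (i + j + 1) / e = X3 at *
  generalize ((p : ℝ) / N) ^ (ρ + 1) * (p * q / (N * (q - p))) ^ (i + j + 1) / e = X4 at *
  generalize ((p : ℝ) / N) ^ (ρ + i + j + 2) / e = X5 at *
  generalize ((N : ℝ) / p) ^ J / (d : ℝ) ^ (ρ + (i + 1) + (j + 2) + J) = X6 at *
  generalize (-1 : ℝ) ^ ρ * t0J ρ (i + 1) (j + 2) J N p q d e = A at *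
  generalize (-1 : ℝ) ^ (ρ + (j + 2)) * tpJ ρ (i + 1) (j + 2) J N p q d e = B at *
  generalize (-1 : ℝ) ^ (i + 1 + (j + 2) + J + 1) * tmJ ρ (i + 1) (j + 2) J N p q d e = M at *
  change _ = M + (bif (f.o0J J) then -A else A) + (bif (f.opJ J) then -B else B) at sp
  clear hz hG lX ab lr lu lv lw lδ c1 c2 c3 c4 eE eB r0 u0 v0' w0 hq hA hL hU H k1 k2 k5 big hc
    hM a0 eL eU hl nj
  have m0' : 0 < f.bl J / (f.etJ J) * X6 := by positivity
  have U0 : (0 : ℝ) < f.bu J :=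
    (mul_pos_iff_of_pos_right E0).1 ((mul_pos_iff_of_pos_right P6).1 (m0'.trans_le (a1.trans a2)))
  have A0 : 0 ≤ A := le_trans (by positivity) a5
  have B0' : 0 ≤ B := le_trans (by positivity) a6
  have es : ((f.sg : ℕ) : ℝ) = ρ + i + j + 3 := by rw [sg]; simp only [F]; push_cast; ring
  have v1 : (f.topJ J).v N a b c d = (2 * (i + j + J) + 5) * lg d - mm / 10 -
      2 * (ρ + i + j + 3 + J) * lg N + 2 * (i + 1 + J) * lg p + 2 * (j + 2) * lg q - 2 * (i + j + 2) * lg (q - p) := by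
    rw [topJ, pv]; simp only [F]; push_cast; rw [es]; ring
  have v2 : (f.mid0J J).v N a b c d = (ρ + i + j + 3 + J) * lg d + n0 / 10 -
      (ρ + i + j + 2 + J) * lg N + (i + 1 + J) * lg p + (ρ + j + 1) * lg q := by
    rw [mid0J, pv]; simp only [F]; push_cast; rw [es]; ring
  have v3 : (f.midpJ J).v N a b c d = (ρ + i + j + 3 + J) * lg d + n1 / 10 -
      (ρ + i + j + 2 + J) * lg N + (ρ + i + j + 2 + J) * lg p + (i + j + 1) * lg q - (i + j + 1) * lg (q - p) := by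
    rw [midpJ, pv]; simp only [F]; push_cast; rw [es]; ring
  have v4 : (f.midfJ J).v N a b c d = (ρ + i + j + 3 + J) * lg d + n1 / 10 -
      (ρ + i + j + 2 + J) * lg N + (ρ + i + j + 2 + J) * lg p := by
    rw [midfJ, pv]; simp only [F]; push_cast; rw [es]; ring
  have int : wwJ ρ (i + 1) (j + 2) J N p q d e ≠ 0 → lg e ≤ f.lo0.v N a b c d ∨
      lg e ≤ f.lop.v N a b c d ∨ (f.topJ J).v N a b c d ≤ lg e := by
    intro hw
    have F0 : (0 : ℝ) < 4 ^ ρ / g * G := by positivity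
    have z0 : z ≠ 0 := by
      rintro rfl
      exact mul_ne_zero F0.ne' hw (by simpa using hz')
    have z1 : (1 : ℝ) ≤ |(z : ℝ)| := by exact_mod_cast Int.one_le_abs z0
    have z2 : 1 ≤ |4 ^ ρ / g * G * ((-1) ^ (i + 1 + (j + 2) + J + 1) *
        wwJ ρ (i + 1) (j + 2) J N p q d e)| := by
      rwa [mul_left_comm, abs_mul, abs_neg_one_pow, one_mul, hz']
    have T1 : (0 : ℝ) < th0 := by exact_mod_cast t1
    have T2 : (0 : ℝ) < thp := by exact_mod_cast t2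
    have T3 : (0 : ℝ) < thm := by exact_mod_cast t3
    have lm : ∀ X : ℝ, 0 < X → logb 2 (G * X) = logb 2 G + logb 2 X := fun X h =>
      logb_mul G0.ne' h.ne'
    rcases core (M := 4 ^ ρ / g * G * M) (A := 4 ^ ρ / g * G * A) (B := 4 ^ ρ / g * G * B) (o0 := (f.o0J J))
      (op := (f.opJ J)) (mul_nonneg F0.le (m0'.le.trans a1)) (by positivity) (by positivity)
      (by rw [sp]; cases (f.o0J J) <;> cases (f.opJ J) <;> simp only [cond_true, cond_false] <;> ring) z2 w1 w2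
      with k | k | k
    · have := lg1 bm (mul_pos G0 P6) one_pos (by
        push_cast
        rw [div_mul_eq_mul_div, le_div_iff₀ T3]
        have := mul_le_mul_of_nonneg_left a2 F0.le
        linarith only [this, k])
      rw [lm _ P6, lG, x6, logb_one] at this
      push_cast at this
      exact Or.inr (Or.inr (by rw [v1]; linarith only [this]))
    · left
      rw [lo0]
      split_ifs at b0 ⊢
      · have := lg1 b0 (mul_pos G0 P1) one_pos (by
          push_cast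
          rw [div_mul_eq_mul_div, le_div_iff₀ T1]
          have := mul_le_mul_of_nonneg_left a3 F0.le
          linarith only [this, k])
        rw [lm _ P1, lG, x1, logb_one] at this
        rw [pv]; simp only [F]; push_cast at this ⊢; linarith only [this]
      · have := lg1 b0 (mul_pos G0 P2) one_pos (by
          push_cast
          rw [div_mul_eq_mul_div, le_div_iff₀ T1]
          have := mul_le_mul_of_nonneg_left a7 F0.le
          linarith only [this, k])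
        rw [lm _ P2, lG, x2, logb_one] at this
        rw [pv]; simp only [F]; push_cast at this ⊢; linarith only [this]
    · right; left
      rw [lop]
      split_ifs at bp ⊢
      · have := lg1 bp (mul_pos G0 P3) one_pos (by
          push_cast
          rw [div_mul_eq_mul_div, le_div_iff₀ T2]
          have := mul_le_mul_of_nonneg_left a4 F0.le
          linarith only [this, k])
        rw [lm _ P3, lG, x3, logb_one] at this
        rw [pv]; simp only [F]; push_cast at this ⊢; linarith only [this]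
      · have := lg1 bp (mul_pos G0 P4) one_pos (by
          push_cast
          rw [div_mul_eq_mul_div, le_div_iff₀ T2]
          have := mul_le_mul_of_nonneg_left a8 F0.le
          linarith only [this, k])
        rw [lm _ P4, lG, x4, logb_one] at this
        rw [pv]; simp only [F]; push_cast at this ⊢; linarith only [this]
  clear b0 bp bm w1 w2 t1 t2 t3 lG hz' x1 x3 v1 a4 G0 p1 pq qd de p0 q0 d0 e0 D0 N0 R ad
  have fin : ∀ L U : List Af, (0 = M + (bif (f.o0J J) then -A else A) + (bif (f.opJ J) then -B else B) →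
      wwJ ρ (i + 1) (j + 2) J N p q d e = 0 →
      (∃ l ∈ L, lg e ≤ l.v N a b c d) ∨ ∃ h ∈ U, h.v N a b c d ≤ lg e) →
      (∃ l ∈ f.lo0 :: f.lop :: L, lg e ≤ l.v N a b c d) ∨
        ∃ h ∈ f.topJ J :: U, h.v N a b c d ≤ lg e := by
    intro L U k
    by_cases hw : wwJ ρ (i + 1) (j + 2) J N p q d e = 0
    · rw [hw, mul_zero] at sp
      exact (k sp hw).imp (fun ⟨l, x, y⟩ => ⟨l, by simp [x], y⟩) fun ⟨l, x, y⟩ => ⟨l, by simp [x], y⟩
    · rcases int hw with x | x | x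
      · exact Or.inl ⟨_, by simp, x⟩
      · exact Or.inl ⟨_, by simp, x⟩
      · exact Or.inr ⟨_, by simp, x⟩
  have u1 : ∀ x : ℚ, 0 < ph0 → A ≤ (f.etJ J) / 2 * x * X2 →
      ((f.etJ J) ^ 2 * x * 500 / (f.bl J * ph0)) ^ 10 ≤ 2 ^ n0 →
      ph0 * (f.bl J / (f.etJ J) * X6) ≤ 1000 * A → lg e ≤ (f.mid0J J).v N a b c d := by
    intro x y h1 h2 h3
    have y' : (0 : ℝ) < ph0 := by exact_mod_cast y
    have := lg1 h2 P2 P6 (by
      push_cast
      rw [div_mul_eq_mul_div, le_div_iff₀ (by positivity)]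
      rw [div_mul_eq_mul_div, ← mul_div_assoc, div_le_iff₀ E0] at h3
      have := mul_le_mul_of_nonneg_right h1 E0.le
      linarith)
    rw [x2, x6] at this
    rw [v2]; push_cast at this; linarith only [this]
  have u2 : ∀ (x : ℚ) (X : ℝ), 0 < php → 0 < X → 0 < x → B ≤ (f.etJ J) / 2 * (f.cpbJ J) * (X / x) →
      ((f.etJ J) ^ 2 * (f.cpbJ J) * 500 / (f.bl J * php * x)) ^ 10 ≤ 2 ^ n1 →
      php * (f.bl J / (f.etJ J) * X6) ≤ 1000 * B → 10 * logb 2 X6 ≤ n1 + 10 * logb 2 X := by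
    intro x X y X0 x0 h1 h2 h3
    have y' : (0 : ℝ) < php := by exact_mod_cast y
    have x' : (0 : ℝ) < x := by exact_mod_cast x0
    have := lg1 h2 X0 P6 (by
      push_cast
      rw [div_mul_eq_mul_div, le_div_iff₀ (by positivity)]
      rw [div_mul_eq_mul_div, ← mul_div_assoc, div_le_iff₀ E0] at h3
      rw [← mul_div_assoc, le_div_iff₀ x'] at h1
      have h4 := mul_le_mul_of_nonneg_right h1 E0.le
      have h5 := mul_le_mul_of_nonneg_right h3 x'.le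
      linarith)
    exact_mod_cast this
  have u3 : ∀ x : ℚ, (0 : ℝ) < x → x * (49 / 100 / (f.etJ J) * (f.c0J J) * X2) ≤ M →
      2 ^ n0 ≤ (x * (49 / 100 * (f.c0J J)) / ((f.etJ J) ^ 2 * f.bu J)) ^ 10 → (f.mid0J J).v N a b c d ≤ lg e := by
    intro x x0 h1 h2
    have := lg2 (y := X6) h2 P2 (by push_cast; positivity) (by
      push_cast
      rw [div_mul_eq_mul_div, div_le_iff₀ (by positivity)]
      have h3 := mul_le_mul_of_nonneg_right (h1.trans a2) E0.le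
      rw [show (x : ℝ) * (49 / 100 / (f.etJ J) * (f.c0J J) * X2) * (f.etJ J) = x * (49 / 100 * (f.c0J J)) * X2 by
        field_simp] at h3
      linarith)
    rw [x2, x6] at this
    rw [v2]; push_cast at this; linarith only [this]
  have u4 : f.Far → 0 ≤ f.far.v N a b c d → B ≤ (f.ratJ J) * (49 / 100 / (f.etJ J) * (f.c0J J) * X2) := by
    intro h1 h2
    obtain ⟨y1, y2, y3, y4⟩ := fr h1 h2
    obtain ⟨-, y5, y6⟩ := fx _ y2 y3 y4
    have y7 : (0 : ℝ) < 1 - f.lm := by linarith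
    calc B ≤ (f.etJ J) / 2 * (f.cpbJ J) * (f.lm ^ (ρ + j + 1) * X2 / (1 - f.lm) ^ (i + j + 1)) :=
          a8.trans (by gcongr; exact y5.trans (by gcongr))
      _ = _ := by
        rw [ratJ]
        simp only [F]
        rw [show ρ + (j + 2) - 1 = ρ + j + 1 by omega, show i + 1 + (j + 2) - 2 = i + j + 1 by omega]
        push_cast
        field_simp
        ring
  obtain h | h | h | h | h | h | h | h :
    nz = 0 ∨ nz = 1 ∨ nz = 2 ∨ nz = 3 ∨ nz = 4 ∨ nz = 5 ∨ nz = 6 ∨ 7 ≤ nz := by omega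
  · subst h
    refine fin [] [] fun k _ => ?_
    rw [(g0 rfl).1, (g0 rfl).2, cond_false, cond_false] at k
    linarith
  · subst h
    obtain ⟨⟨y1, y2, y3⟩, y4, y5⟩ := g1 rfl
    refine fin _ [] fun k _ => Or.inl ?_
    rcases upper m0' a1 A0 B0' k y3 with ⟨x, y⟩ | ⟨x, y⟩
    · exact ⟨_, by simp [x], u1 _ y1 a7 (y4 x) y⟩
    · have := u2 1 X4 y2 P4 one_pos (by simpa using a8) (by rw [mul_one]; exact y5 x) y
      rw [x4, x6] at this
      exact ⟨f.midpJ J, by simp [x], by rw [v3]; push_cast at this; linarith only [this]⟩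
  · subst h
    obtain ⟨y0, ⟨y1, y2, y3⟩, y4, y5⟩ := g2 rfl
    obtain ⟨s1, s2, s3, s4⟩ := fr (gf y0 (show 2 < 7 by decide)) (sf y0 (by decide))
    obtain ⟨s5, s6, -⟩ := fx _ s2 s3 s4
    have s7 : (0 : ℝ) < 1 - f.lm := by linarith
    refine fin _ [] fun k _ => Or.inl ?_
    rcases upper m0' a1 A0 B0' k y3 with ⟨x, y⟩ | ⟨x, y⟩
    · refine ⟨_, by simp [x], u1 _ y1 ?_ (y4 x) y⟩
      rcases min_choice (f.c0bJ J) ((f.c0J J) / (1 - f.lm) ^ f.kp) with s | s <;> rw [s]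
      · exact a7
      · refine a3.trans ((mul_le_mul_of_nonneg_left s5 (by positivity)).trans (le_of_eq ?_))
        simp only [F]
        push_cast
        ring
    · have := u2 ((1 - f.lm) ^ (i + j + 1)) X5 y2 P5 (pow_pos (by exact_mod_cast s7) _)
        (a8.trans (by push_cast; gcongr))
        (by rw [show i + j + 1 = i + 1 + (j + 2) - 2 by omega]; exact y5 x) y
      rw [x5, x6] at this
      exact ⟨f.midfJ J, by simp [x], by rw [v4]; push_cast at this; linarith only [this]⟩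
  · subst h
    obtain ⟨y1, y2, y3⟩ := g3 rfl
    refine fin [] _ fun k _ => Or.inr ⟨_, List.mem_cons_self, u3 1 (by simp) ?_ (by
      rw [one_mul]; exact y3)⟩
    rw [y1, y2, cond_true, cond_true] at k
    push_cast
    linarith
  · subst h
    obtain ⟨y0, y1, y2, y3, y4⟩ := g4 rfl
    have s := u4 (gf y0 (show 4 < 7 by decide)) (sf y0 (by decide))
    have y5 : (f.ratJ J : ℝ) < 1 := by exact_mod_cast y3
    refine fin [] _ fun k _ => Or.inr ⟨_, List.mem_cons_self, u3 _ (by push_cast; linarith) ?_ y4⟩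
    rw [y1, y2, cond_true, cond_false] at k
    push_cast
    linarith
  · subst h
    obtain ⟨y0, y1, y3⟩ := g5 rfl
    have s := u4 (gf y0 (show 5 < 7 by decide)) (sf y0 (by decide))
    have y5 : (f.ratJ J : ℝ) ≤ 1 := by exact_mod_cast y3
    have y6 := mul_le_of_le_one_left (show 0 ≤ 49 / 100 / (f.etJ J : ℝ) * (f.c0J J) * X2 by positivity) y5
    refine fin [] [] fun k _ => ?_
    rw [y1, cond_false] at k
    cases h : (f.opJ J) <;> rw [h] at k <;> simp only [cond_true, cond_false] at k <;> linarith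
  · subst h
    obtain ⟨y1, y2, y3⟩ := g6 rfl
    refine fin [] _ fun k _ => Or.inr ⟨_, List.mem_cons_self, ?_⟩
    rw [y1, y2, cond_true, cond_true] at k
    have := lg2 (y := X6) y3 P4 (by push_cast; positivity) (by
      push_cast
      rw [div_mul_eq_mul_div, div_le_iff₀ (by positivity)]
      have h3 := mul_le_mul_of_nonneg_right (a6.trans ((show B ≤ M by linarith).trans a2)) E0.le
      rw [show 1 / 2 / (f.etJ J : ℝ) * (f.cpJ J) * X4 * (f.etJ J) = 1 / 2 * (f.cpJ J) * X4 by field_simp] at h3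
      linarith)
    rw [x4, x6] at this
    simp only [F] at this
    rw [v3]; push_cast at this; linarith only [this]
  · obtain ⟨k, rfl⟩ := Nat.exists_eq_add_of_le' h
    have y := g7 h
    obtain ⟨s1, s2, s3, s4⟩ := nr y (sd _ List.mem_cons_self)
    have s5 := nx _ s1 s3 s4
    obtain ⟨y1, -, -, -, y2⟩ := y
    have y3 := (Rat.cast_le (K := ℝ)).2 y2
    simp only [F] at y3
    rw [show ρ + (j + 2) - 1 = ρ + j + 1 by omega, show i + 1 + (j + 2) - 2 = i + j + 1 by omega] at y3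
    push_cast at y3
    have s7 : (0 : ℝ) < (1 - f.lm) ^ (i + j + 1) := pow_pos (by linarith) _
    have s8 : (f.etJ J : ℝ) ^ 2 * f.c0bJ J * X2 ≤ f.cpJ J * X4 := by
      refine le_of_mul_le_mul_left ?_ s7
      have h1 := mul_le_mul_of_nonneg_right y3 P2.le
      have h2 := mul_le_mul_of_nonneg_left s5 C3.le
      linarith
    have s9 : (f.etJ J : ℝ) / 2 * f.c0bJ J * X2 ≤ 1 / 2 / f.etJ J * f.cpJ J * X4 := by
      refine le_of_mul_le_mul_left ?_ E0
      rw [show (f.etJ J : ℝ) * (1 / 2 / f.etJ J * f.cpJ J * X4) = 1 / 2 * (f.cpJ J * X4) by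
        field_simp]
      linarith
    refine fin [] [] fun k _ => ?_
    rw [y1, cond_false] at k
    cases h : f.o0J J <;> rw [h] at k <;> simp only [cond_true, cond_false] at k <;> linarith

end Pool.Agent.MP_2339ce_nt.Q2

end
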