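import Pool.Agent.MP_2339ce_nt.Q2.HA2
import Pool.Agent.MP_2339ce_nt.Q2.HFM3
import Pool.Agent.MP_2339ce_nt.Q2.HFM4

/-! `D(-N)`-quintuples, block HP: entries of tables of windows, with shifted forms. -/

set_option autoImplicit false

namespace Pool.Agent.MP_2339ce_nt.Q2

open DQ

inductive El4 where
  | old (pr j : ℕ)
  | q (j : ℕ)
  | fm (g : ℕ) (f : Fm2)
  | fj (j g : ℕ) (f : Fm2)

def El4.wn : El4 → Wn
  | .old pr j => Q2.wn (pr, j)
  | .q j => wq j
  | .fm _ f => f.wn
  | .fj j _ f => f.wnJ j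

noncomputable def El4.good : El4 → Bool
  | .fm g f => decide (f.Good3 g)
  | .fj j g f => decide (f.Good4 j g)
  | _ => true

/-- the analytic and arithmetic inputs for the shifted forms -/
def S_J : Prop := S_JM ∧ S_J0 ∧ S_JP ∧ S_JINT

theorem El4.ok (H : S_J) (x : El4) (h : x.good = true) : x.wn.Ok := by
  cases x with
  | old pr j => exact allWn _
  | q j => exact allWq j
  | fm g f => exact fm3 (ta main bnd3) tl (tu bnd3) g f (of_decide_eq_true h)
  | fj j g f => exact fm4 H.1 H.2.1 H.2.2.1 H.2.2.2 j g f (of_decide_eq_true h)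

theorem tab_okJ {l : List Wn} (t : List El4) (h1 : t.all El4.good = true) (h2 : l = t.map El4.wn)
    (H : S_J) : ∀ w ∈ l, w.Ok := by
  subst h2
  intro w h
  obtain ⟨x, y, rfl⟩ := List.mem_map.1 h
  exact x.ok H (List.all_eq_true.1 h1 x y)

end Pool.Agent.MP_2339ce_nt.Q2
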