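import Pool.Agent.MP_2339ce_nt.Q2.HD2

/-! `D(-N)`-quintuples, block HP: shifted forms, data. -/

set_option autoImplicit false

namespace Pool.Agent.MP_2339ce_nt.Q2

namespace Fm2

variable (f : Fm2) (j : ℕ)

def topJ : Af :=
  pairAf f.pr (2 * (f.kp + f.kq + j) - 1) (-(10 * f.mm)) (-(2 * (f.sg + j))) (2 * (f.kp + j))
    (2 * f.kq) (2 - 2 * (f.kp + f.kq))

def mid0J : Af :=
  pairAf f.pr (f.sg + j) (10 * f.n0) (1 - (f.sg + j)) (f.kp + j) (f.kq + f.ρ - 1) 0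

def midpJ : Af :=
  pairAf f.pr (f.sg + j) (10 * f.n1) (1 - (f.sg + j)) (f.sg + j - 1) (f.kp + f.kq - 2)
    (2 - f.kp - f.kq)

def midfJ : Af := pairAf f.pr (f.sg + j) (10 * f.n1) (1 - (f.sg + j)) (f.sg + j - 1) 0 0

def o0J : Bool := (f.kp + f.kq + j + f.ρ) % 2 == 0

def opJ : Bool := (f.kp + j + f.ρ) % 2 == 0

def near : Af := pairAf f.pr 0 f.tau 0 1 (-1) 0

def sdJ : List Af := bif Nat.blt f.lam 1000 then [f.far] else []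

def wnJ : Wn :=
  match f.nz with
  | 0 => ⟨f.sdJ, [f.lo0, f.lop], [f.topJ j]⟩
  | 1 => ⟨f.sdJ, f.lo0 :: f.lop ::
      ((bif f.o0J j then [f.mid0J j] else []) ++ bif f.opJ j then [f.midpJ j] else []), [f.topJ j]⟩
  | 2 => ⟨f.sdJ, f.lo0 :: f.lop ::
      ((bif f.o0J j then [f.mid0J j] else []) ++ bif f.opJ j then [f.midfJ j] else []), [f.topJ j]⟩
  | 3 => ⟨f.sdJ, [f.lo0, f.lop], [f.topJ j, f.mid0J j]⟩
  | 4 => ⟨f.sdJ, [f.lo0, f.lop], [f.topJ j, f.mid0J j]⟩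
  | 5 => ⟨f.sdJ, [f.lo0, f.lop], [f.topJ j]⟩
  | 6 => ⟨f.sdJ, [f.lo0, f.lop], [f.topJ j, f.midpJ j]⟩
  | _ => ⟨[f.near], [f.lo0, f.lop], [f.topJ j]⟩

end Fm2

end Pool.Agent.MP_2339ce_nt.Q2
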