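import Pool.Agent.MP_2339ce_nt.Q2.HD4

/-! `D(-N)`-quintuples, block HP: the dense window without upper end, data. -/

set_option autoImplicit false

namespace Pool.Agent.MP_2339ce_nt.Q2

def tg (pr ρ k : ℕ) (u v : ℤ) : Fm2 :=
  ⟨pr, ρ, k, k, 0, 0, 0, 1000, 250, 250, 500, 1000, 1000, 0, u, u, v, 0, 0⟩

/-- the window of three families of shifted forms, from the index `i` on -/
def tw (pr i : ℕ) (u v : ℤ) : Wn :=
  ⟨[pairAf pr (4 * i) (-(1360 * i + 10 * u + 861)) (-(12 * i + 8)) (4 * i + 4) (-(4 * i + 4))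
      (-(12 * i)),
    pairAf pr (4 * i) (-(1360 * i + 10 * u + 861)) (-(12 * i + 8)) 4 (-(4 * i + 4)) (-(8 * i)),
    pairAf pr (4 * i + 2) (-(1360 * i + 10 * v + 3561)) (-(12 * i + 16)) (4 * i + 6) (-(4 * i + 4))
      (-(12 * i + 8)),
    pairAf pr (4 * i + 2) (-(1360 * i + 10 * v + 3561)) (-(12 * i + 16)) 6 (-(4 * i + 4))
      (-(8 * i + 8))],
   [pairAf pr (4 * i + 3) (1630 * i + 1930) 2 0 (8 * i) (4 * i - 2),
    pairAf pr (4 * i + 3) (1630 * i + 1930) 2 (4 * i - 4) (8 * i) 2], []⟩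

end Pool.Agent.MP_2339ce_nt.Q2
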