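import Pool.Agent.MP_2339ce_nt.Q2.HD

/-! `D(-N)`-quintuples, block HP: windows for a range of the ratio `p / q`, data. -/

set_option autoImplicit false

namespace Pool.Agent.MP_2339ce_nt.Q2

/-- a shifted form, possibly with one more pole at a node (`s`, `t`); the ratio `p / q` lies
between `la / 10000` and `lb / 10000` -/
structure Fi where
  (pr ρ kp kq j s t v ty la lb ta tb th : ℕ)
  (m0 mm n0 : ℤ)

namespace Fi

variable (f : Fi)

def sg : ℕ := f.ρ + f.kp + f.kq + f.j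

def lo : Af :=
  if f.v = 0 then pairAf f.pr (2 * f.ρ + 1 + f.s + f.t) (10 * f.m0) 2 f.s (2 * (f.ρ - 1) + f.t)
    (2 * (f.kp + f.kq - 1))
  else pairAf f.pr (2 * f.ρ + 1 + f.s + f.t) (10 * f.m0) 2 (2 * (f.ρ + f.kq - 1) + f.s)
    (2 * (f.kp - 2) + f.t) 2

def top : Af :=
  pairAf f.pr (2 * (f.kp + f.kq + f.j) - 1 - f.s - f.t) (-(10 * f.mm)) (-(2 * f.sg))
    (2 * (f.kp + f.j) - f.s) (2 * f.kq - f.t) (2 - 2 * (f.kp + f.kq))

def mid : Af :=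
  if f.v = 0 then pairAf f.pr f.sg f.n0 (1 - f.sg) (f.kp + f.j) (f.kq + f.ρ - 1) 0
  else pairAf f.pr f.sg f.n0 (1 - f.sg) (f.sg - 1) (f.kp + f.kq - 2) (2 - f.kp - f.kq)

def far : Af := pairAf f.pr 0 (-f.tb) 0 (-1) 1 0

def near : Af := pairAf f.pr 0 f.ta 0 1 (-1) 0

def sd : List Af :=
  (bif Nat.blt f.lb 10000 then [f.far] else []) ++ bif Nat.blt 0 f.la then [f.near] else []

def wn : Wn :=
  match f.ty with
  | 0 => ⟨f.sd, [f.lo], [f.top]⟩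
  | 1 => ⟨f.sd, [f.lo, f.mid], [f.top]⟩
  | _ => ⟨f.sd, [f.lo], [f.top, f.mid]⟩

end Fi

end Pool.Agent.MP_2339ce_nt.Q2
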