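import Pool.Agent.MP_2339ce_nt.Q2.HA5
import Pool.Agent.MP_2339ce_nt.Q2.HD6

/-! `D(-N)`-quintuples, block HP: the dense window without upper end, constants. -/

set_option autoImplicit false

noncomputable section

namespace Pool.Agent.MP_2339ce_nt.Q2

open DQ TNQ Real

namespace HT6

theorem dv {ρ h : ℕ} (hh : h ≤ ρ) : dn h ∣ 4 ^ h * nm ρ h := by
  obtain ⟨z, hz⟩ := INT.choose_mem (ρ + 1) h
  have p : (0 : ℝ) < dn h := by exact_mod_cast HG.dn_pos h
  rw [show (-1 / 2 : ℝ) + ((ρ + 1 : ℕ) : ℝ) = ρ + 1 / 2 by push_cast; ring, HG.cq_eq ρ h hh,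
    eq_intCast, ← mul_div_assoc, eq_div_iff p.ne'] at hz
  refine Int.natCast_dvd_natCast.1 ⟨z, ?_⟩
  have : ((4 ^ h * nm ρ h : ℕ) : ℝ) = (dn h : ℕ) * (z : ℝ) := by push_cast; linarith
  exact_mod_cast this

theorem allLe_of {n : ℕ} {f : ℕ → Bool} (h : ∀ i ≤ n, f i = true) : allLe n f = true := by
  induction n with
  | zero => exact h 0 le_rfl
  | succ n ih =>
    change (f (n + 1) && allLe n f) = true
    rw [h _ le_rfl, ih fun i hi => h i (by omega)]; rfl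

theorem ct1_of {z y : ℕ} (l m n : ℕ) (h : y ∣ z) : ct1 z y l m n = true :=
  allLe_of fun i _ => by
    rw [Nat.mod_eq_zero_of_dvd ((h.mul_right _).mul_right _)]; rfl

theorem cj1 {ρ k l j : ℕ} (hk : 1 ≤ k) (hl : 1 ≤ l) (h : k + j ≤ ρ + 1) : CtJ1 ρ k l j 1 := by
  refine allLe_of fun i hi => allLe_of fun t ht => ct1_of _ _ _ ?_
  obtain ⟨w, hw⟩ : ∃ w, ρ = j - i + i + t + w := ⟨ρ - (j - i + i + t), by omega⟩
  have e : 4 ^ ρ = 4 ^ (j - i) * 4 ^ i * 4 ^ t * 4 ^ w := by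
    rw [← pow_add, ← pow_add, ← pow_add, ← hw]
  have k1 := mul_dvd_mul (mul_dvd_mul (dv (ρ := k + l + j - 2) (h := j - i) (by omega))
    (dv (ρ := ρ) (h := i) (by omega))) (dv (ρ := ρ - i) (h := t) (by omega))
  rw [mul_one, e]
  exact k1.trans ⟨4 ^ w, by ring⟩

theorem cj {ρ k j : ℕ} (hk : 1 ≤ k) (h : k + j ≤ ρ + 1) : ContJ ρ k k j 1 := by
  refine ⟨one_pos, allLe_of fun t ht => ct1_of _ _ _ ?_, cj1 hk hk h, cj1 hk hk h⟩
  obtain ⟨w, rfl⟩ := Nat.exists_eq_add_of_le ht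
  rw [mul_one, pow_add]
  exact (dv ht).trans ⟨4 ^ w * bn j (t + w + k + k - 1 - t), by ring⟩

def ea (ρ k j : ℕ) : ℚ := (1001 / 1000) ^ (ρ + k + k + j) * 2 * 4 ^ ρ *
  (((ρ + k + k + j - 1).choose j : ℕ) * ((ρ + k - 1).choose ρ : ℕ))

def ma (ρ k j : ℕ) : ℚ := (1001 / 1000) ^ (ρ + k + k + j) * 2 * 4 ^ ρ *
  (beQ ρ (ρ + k + k + j) * rc 1 1 (fun _ _ => 1) j k k)

theorem good (pr ρ k j : ℕ) (u v : ℤ) (h2 : 2 ≤ k) (he : k % 2 = 0) (hs : k + j = ρ + 1)
    (hj : j ≤ k) (ha : ea ρ k j ^ 20 ≤ 2 ^ u) (hm : ma ρ k j ^ 20 ≤ 2 ^ v) :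
    (tg pr ρ k u v).Good4 j 1 := by
  have o0 : (tg pr ρ k u v).o0J j = false := by
    simp only [Fm2.o0J, tg, beq_eq_false_iff_ne]; omega
  have op : (tg pr ρ k u v).opJ j = false := by
    simp only [Fm2.opJ, tg, beq_eq_false_iff_ne]; omega
  have hc : (k + k - 2).choose (k - 1) ≤ (ρ + k - 1).choose ρ := by
    rw [show ρ + k - 1 = ρ + (k - 1) by omega, Nat.choose_symm_add]
    exact Nat.choose_le_choose _ (by omega)
  have hc' : (((k + k - 2).choose (k - 1) : ℕ) : ℚ) ≤ ((ρ + k - 1).choose ρ : ℕ) := by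
    exact_mod_cast hc
  refine ⟨⟨⟨?_, ?_, ?_, ?_, ?_⟩, cj (by simp only [tg]; omega) (by simp only [tg]; omega)⟩,
    by simp [tg], fun _ => ⟨o0, op⟩, ?_⟩
  · simp only [tg]; omega
  · rw [o0, op]; simp [tg]
  · refine le_trans (le_of_eq ?_) ha
    simp only [Fm2.etJ, Fm2.c0J, Fm2.sg, nJ, tg, if_true, ea]
    push_cast; ring
  · refine le_trans (pow_le_pow_left₀ ?_ ?_ 20) ha
    · simp only [Fm2.etJ, Fm2.cpJ, tg, if_true]; positivity
    · simp only [Fm2.etJ, Fm2.cpJ, Fm2.sg, nJ, tg, if_true, ea]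
      push_cast
      calc _ = (1001 / 1000 : ℚ) ^ (ρ + k + k + j) * 2 * 4 ^ ρ *
            (((ρ + k + k + j - 1).choose j : ℕ) * ((k + k - 2).choose (k - 1) : ℕ)) := by ring
        _ ≤ _ := by gcongr
  · refine le_trans (le_of_eq ?_) hm
    simp only [Fm2.etJ, Fm2.bu, Fm2.bqJ, Fm2.lJ, Fm2.sg, tg, ma, lt_self_iff_false, false_and,
      if_false]
    push_cast; ring
  · simp [tg]

def cc (i : ℕ) : ℚ := ((2 * i + 1).centralBinom : ℕ)

def bb (i : ℕ) : ℚ := beQ (2 * i + 1) (6 * i + 3)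

def xx (i : ℕ) : ℚ := (1001 / 1000) ^ (6 * i) * 16 ^ i * cc i * (3 * i + 1) ^ 2

def yy (i : ℕ) : ℚ := (1001 / 1000) ^ (6 * i) * 16 ^ i * bb i * (i * (4 * i + 1))

theorem cc_s (i : ℕ) :
    cc (i + 1) = cc i * (4 * (4 * i + 3) * (4 * i + 5) / ((2 * i + 2) * (2 * i + 3))) := by
  have h1 : (((2 * i + 1 + 1) * (2 * i + 1 + 1).centralBinom : ℕ) : ℚ) = _ :=
    congrArg _ (Nat.succ_mul_centralBinom_succ (2 * i + 1))
  have h2 : (((2 * i + 1 + 1 + 1) * (2 * i + 1 + 1 + 1).centralBinom : ℕ) : ℚ) = _ :=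
    congrArg _ (Nat.succ_mul_centralBinom_succ (2 * i + 1 + 1))
  rw [cc, cc, show 2 * (i + 1) + 1 = 2 * i + 1 + 1 + 1 by ring]
  push_cast at h1 h2
  field_simp
  linear_combination (2 * i + 2) * h2 + 2 * (4 * i + 5) * h1

theorem b2 (i : ℕ) : beQ (2 * i + 1) (6 * i + 5) =
    bb i * ((4 * i + 3 / 2) * (4 * i + 5 / 2) / ((6 * i + 4) * (6 * i + 5))) := by
  have r0 : (0 : ℚ) ≤ i := Nat.cast_nonneg _
  rw [HT5.be_s, HT5.be_s, bb]
  push_cast
  rw [abs_of_neg (by linarith), abs_of_neg (by linarith)]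
  field_simp
  ring

theorem b3 (i : ℕ) : beQ (2 * i + 2) (6 * i + 7) = beQ (2 * i + 1) (6 * i + 5) *
    ((2 * i + 5 / 2) * (4 * i + 7 / 2) / ((6 * i + 6) * (6 * i + 7))) := by
  have r0 : (0 : ℚ) ≤ i := Nat.cast_nonneg _
  rw [HT5.be_s, eq_div_of_mul_eq (by positivity) (HT5.be_d (2 * i + 1) (6 * i + 5))]
  push_cast
  rw [abs_of_neg (by linarith)]
  field_simp
  ring

theorem b4 (i : ℕ) : bb (i + 1) = beQ (2 * i + 2) (6 * i + 7) *
    ((4 * i + 9 / 2) * (2 * i + 7 / 2) / ((6 * i + 8) * (6 * i + 9))) := by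
  have r0 : (0 : ℚ) ≤ i := Nat.cast_nonneg _
  rw [bb, show 2 * (i + 1) + 1 = 2 * i + 2 + 1 by ring, show 6 * (i + 1) + 3 = 6 * i + 8 + 1 by ring,
    eq_div_of_mul_eq (by positivity) (HT5.be_d (2 * i + 2) (6 * i + 8)), HT5.be_s]
  push_cast
  rw [abs_of_neg (by linarith)]
  field_simp
  ring

theorem cc0 (i : ℕ) : 0 ≤ cc i := Nat.cast_nonneg _

theorem bb0 (i : ℕ) : 0 ≤ bb i := (HFM.bq_pos _ _).le

theorem xx_le (i : ℕ) : xx i ≤ 198 * 284 ^ i := by
  rcases le_or_gt i 16 with h | h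
  · revert i; unfold xx cc; decide +kernel
  · induction i, h using Nat.le_induction with
    | base => unfold xx cc; decide +kernel
    | succ i h ih =>
      obtain ⟨t, rfl⟩ := Nat.exists_eq_add_of_le h
      have t0 : (0 : ℚ) ≤ t := Nat.cast_nonneg _
      have c0 := cc0 (Nat.succ 16 + t)
      rw [pow_succ, ← mul_assoc]
      refine le_trans ?_ (mul_le_mul_of_nonneg_right ih (by norm_num))
      rw [xx, xx, cc_s]
      generalize cc (Nat.succ 16 + t) = y at c0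
      rw [Nat.mul_succ, pow_add, pow_succ (16 : ℚ)]
      generalize hA : ((1001 : ℚ) / 1000) ^ (6 * (Nat.succ 16 + t)) * 16 ^ (Nat.succ 16 + t) * y = A
      have A0 : 0 ≤ A := by rw [← hA]; positivity
      push_cast
      calc _ = A * ((1001 / 1000) ^ 6 * 16 * (4 * (4 * (17 + t) + 3) * (4 * (17 + t) + 5)) *
            (3 * (17 + t + 1) + 1) ^ 2 / ((2 * (17 + t) + 2) * (2 * (17 + t) + 3))) := by
            rw [← hA]; push_cast; ring
        _ ≤ A * ((3 * (17 + t) + 1) ^ 2 * 284) := by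
            refine mul_le_mul_of_nonneg_left ?_ A0
            rw [div_le_iff₀ (by positivity), ← sub_nonneg]
            ring_nf
            positivity
        _ = _ := by ring

theorem yy_le (i : ℕ) : yy i ≤ 1199 / 1000 * (1961 / 5000) ^ i := by
  rcases le_or_gt i 16 with h | h
  · revert i; unfold yy bb; decide +kernel
  · induction i, h using Nat.le_induction with
    | base => unfold yy bb; decide +kernel
    | succ i h ih =>
      obtain ⟨t, rfl⟩ := Nat.exists_eq_add_of_le h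
      have t0 : (0 : ℚ) ≤ t := Nat.cast_nonneg _
      have c0 := bb0 (Nat.succ 16 + t)
      rw [pow_succ, ← mul_assoc]
      refine le_trans ?_ (mul_le_mul_of_nonneg_right ih (by norm_num))
      rw [yy, yy, b4, b3, b2]
      generalize bb (Nat.succ 16 + t) = y at c0
      rw [Nat.mul_succ, pow_add, pow_succ (16 : ℚ)]
      generalize hA : ((1001 : ℚ) / 1000) ^ (6 * (Nat.succ 16 + t)) * 16 ^ (Nat.succ 16 + t) * y = A
      have A0 : 0 ≤ A := by rw [← hA]; positivity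
      push_cast
      calc _ = A * ((1001 / 1000) ^ 6 * 16 * ((4 * (17 + t) + 3 / 2) * (4 * (17 + t) + 5 / 2) *
            ((2 * (17 + t) + 5 / 2) * (4 * (17 + t) + 7 / 2)) *
            ((4 * (17 + t) + 9 / 2) * (2 * (17 + t) + 7 / 2))) *
            ((17 + t + 1) * (4 * (17 + t + 1) + 1)) / ((6 * (17 + t) + 4) * (6 * (17 + t) + 5) *
            ((6 * (17 + t) + 6) * (6 * (17 + t) + 7)) * ((6 * (17 + t) + 8) * (6 * (17 + t) + 9)))) := by
            rw [← hA]; push_cast; field_simp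
        _ ≤ A * ((17 + t) * (4 * (17 + t) + 1) * (1961 / 5000)) := by
            refine mul_le_mul_of_nonneg_left ?_ A0
            rw [div_le_iff₀ (by positivity), ← sub_nonneg]
            ring_nf
            positivity
        _ = _ := by ring

end HT6

end Pool.Agent.MP_2339ce_nt.Q2

end
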