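import Pool.Agent.MP_2339ce_nt.Q2.HL0
import Pool.Agent.MP_2339ce_nt.Q2.HLP

/-! `D(-N)`-quintuples, block HP: the sizes of the two errors with a small relative slack. -/

set_option autoImplicit false

noncomputable section

namespace Pool.Agent.MP_2339ce_nt.Q2

open DQ DQ.Sgn DQ.NNZC PowerSeries Real

theorem sqrt_up {u v ε : ℝ} (h0 : 0 ≤ u) (h1 : u ≤ v) (h2 : v ≤ ε) (h3 : ε < 1) :
    √(1 + -u) - √(1 + -v) ≤ (1 - ε)⁻¹ / 2 * (v - u) := by
  have e0 : 0 < 1 - ε := by linarith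
  have b : 1 - ε ≤ √(1 + -v) := le_sqrt_of_sq_le (by nlinarith)
  have a : √(1 + -v) ≤ √(1 + -u) := sqrt_le_sqrt (by linarith)
  have e : v - u = (√(1 + -u) - √(1 + -v)) * (√(1 + -u) + √(1 + -v)) := by
    have x := sq_sqrt (show 0 ≤ 1 + -u by linarith)
    have y := sq_sqrt (show 0 ≤ 1 + -v by linarith)
    linarith
  rw [inv_eq_one_div, div_div, div_mul_eq_mul_div, le_div_iff₀ (by linarith), one_mul]
  refine le_trans ?_ e.ge
  exact mul_le_mul_of_nonneg_left (by linarith) (by linarith)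

open HJ0 in
theorem l0z (h1 : S_JID) (ρ kp kq j : ℕ) (N p q d e ε c₁ c₂ : ℝ) (h : RgL ρ kp kq j N p q d e)
    (hq : q ≤ ε * d) (hN : N ≤ ε * (p * d)) (hε : ε ≤ 1 / 100) (hc : 0 ≤ c₁)
    (k1 : c₁ ≤ 2 - (1 + ε) ^ (ρ + 1)) (k2 : (1 - ε)⁻¹ * (1 + ε) ^ (ρ + 1) ≤ c₂) :
    (1 - ε) / 2 * c₁ * (nJ ρ kp kq j * pl ρ (kq - 1) (kp - 1) (p / q)) *
      ((q / N) ^ (ρ + kq - 1) * (p / N) ^ kp / e) ≤ (-1) ^ ρ * t0J ρ kp kq j N p q d e ∧
    (-1) ^ ρ * t0J ρ kp kq j N p q d e ≤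
      c₂ / 2 * (nJ ρ kp kq j * pl ρ (kq - 1) (kp - 1) (p / q)) *
        ((q / N) ^ (ρ + kq - 1) * (p / N) ^ kp / e) := by
  obtain ⟨m, rfl⟩ : ∃ m, kp = m + 1 := ⟨kp - 1, by have := h.p1; omega⟩
  obtain ⟨k, rfl⟩ : ∃ k, kq = k + 1 := ⟨kq - 1, by have := h.q1; omega⟩
  have N0 := h.n0
  have p1 := h.one
  have pq := h.pq
  have qd := h.qd
  have de := h.de
  have nd := h.nd
  have jr := h.jr
  have hρ := h.sm
  have p0 : 0 < p := by linarith
  have q0 : 0 < q := by linarith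
  have d0 : 0 < d := by linarith
  have e0 : 0 < e := by linarith
  have x0 : 0 < 1 / d := by positivity
  have lt : N / q < N / p := div_lt_div_of_pos_left N0 p0 pq
  have B0 : 0 < N / q := by positivity
  have ε0 : 0 < ε := (mul_pos_iff_of_pos_right d0).1 (q0.trans_le hq)
  have sm : ∀ z : ℝ, d ≤ z → N / p / z ≤ ε := fun z hz => by
    rw [div_div, div_le_iff₀ (mul_pos p0 (d0.trans_le hz))]
    exact hN.trans (by gcongr)
  have dq : N / d ≤ ε * (N / q) := by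
    rw [← mul_div_assoc, div_le_div_iff₀ d0 q0]
    nlinarith
  have d1 : 0 < N / d := by positivity
  have i1 : q / N = (N / q)⁻¹ := (inv_div _ _).symm
  have i2 : p / N = (N / p)⁻¹ := (inv_div _ _).symm
  have i3 : p / q = N / q / (N / p) := by field_simp
  simp only [t0J, t0, neg_div, nJ]
  rw [rc_mul, i1, i2, i3, ← div_div, ← div_div, show ρ + (k + 1) - 1 = ρ + k by omega,
    Nat.add_sub_cancel, Nat.add_sub_cancel]
  generalize N / p = A at *
  generalize N / q = B at *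
  generalize N / d = D at *
  have A0 : 0 < A := by linarith
  have s1 : A * (1 / d) ≤ ε := by simpa only [mul_one_div] using sm d le_rfl
  have s2 := sm e de
  have s3 : B * (1 / d) ≤ A * (1 / d) := by gcongr
  have s4 : B / e ≤ A / e := by gcongr
  have s5 : D / e ≤ ε * (B / e) := by rw [← mul_div_assoc]; gcongr
  have s6 : 0 < D / e := by positivity
  have s7 : 0 < B / e := by positivity
  obtain ⟨r1, -⟩ := h1 ρ j (m + 1) (k + 1) (1 / d) A B (by omega) (by omega) (by omega)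
    A0.ne' B0.ne' lt.ne' (by linarith) (by linarith)
  have u := upJ ρ (ρ + (m + 1) + (k + 1) + j - 1) j (k + 1) (m + 1) x0.le A0 B0
  rw [← r1] at u
  have s8 : ε * (B / e) ≤ B / e := mul_le_of_le_one_left s7.le (by linarith)
  have pw : (1 + 1 / d * B) ^ (ρ + 1) ≤ (1 + ε) ^ (ρ + 1) :=
    pow_le_pow_left₀ (by positivity) (by linarith) _
  have ie : 0 < (1 - ε)⁻¹ := inv_pos.2 (by linarith)
  have n1 : (1 - ε)⁻¹ / 2 * (1 + 1 / d * B) ^ (ρ + 1) ≤ c₂ / 2 := by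
    have := mul_le_mul_of_nonneg_left pw ie.le
    linarith
  have f : (1 - ε) / 2 * (B / e) ≤ √(1 + -(D / e)) - √(1 + -(B / e)) :=
    le_trans (by linarith) (sqrt_low (by linarith) (by linarith) s6.le)
  have f0 : 0 ≤ (1 - ε) / 2 * (B / e) := mul_nonneg (by linarith) s7.le
  have f1 : |√(1 + -(D / e)) - √(1 + -(B / e))| ≤ (1 - ε)⁻¹ / 2 * (B / e) := by
    rw [abs_of_nonneg (f0.trans f)]
    refine (sqrt_up s6.le (by linarith) (s4.trans s2) (by linarith)).trans ?_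
    exact mul_le_mul_of_nonneg_left (by linarith) (by positivity)
  have z := HL0.Z_le ρ k (m + 1) x0.le A0 B0
  have l2 := HL0.lowG' ρ (ρ + (m + 1) + (k + 1) + j - 1) j k (m + 1) x0.le A0 B0
    (c := c₁) (by linarith)
  rw [← r1, HL0.coeff_pl B0.ne' A0.ne'] at l2
  rw [HL0.coeff_pl B0.ne' A0.ne'] at z
  have P0 : 0 ≤ pl ρ k m (B / A) := Finset.sum_nonneg fun _ _ => by positivity
  generalize pl ρ k m (B / A) = P at *
  generalize rc A B (fun k l => rs ρ (1 / d) 0 (-B) (-A) (ρ + 1) l k) j (m + 1) (k + 1) = R at *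
  have c0 : (0 : ℝ) ≤ ((ρ + (m + 1) + (k + 1) + j - 1).choose j : ℕ) := Nat.cast_nonneg _
  generalize (((ρ + (m + 1) + (k + 1) + j - 1).choose j : ℕ) : ℝ) = c at *
  generalize (1 + 1 / d * B) ^ (ρ + 1) = E at *
  refine ⟨?_, (le_abs_self _).trans ?_⟩
  · have g := mul_le_mul f l2 (by positivity) (f0.trans f)
    refine le_trans (le_of_eq ?_) (g.trans_eq (mul_left_comm _ _ _))
    rw [pow_succ B⁻¹]; field_simp
  · rw [abs_mul, abs_neg_one_pow, one_mul, abs_mul]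
    refine (mul_le_mul f1 (u.trans (mul_le_mul_of_nonneg_left z c0)) (abs_nonneg _)
      (by positivity)).trans (le_trans (le_of_eq ?_) ((mul_le_mul_of_nonneg_right n1
        (show 0 ≤ c * P * (B⁻¹ ^ (ρ + k) * A⁻¹ ^ (m + 1) / e) by positivity)).trans_eq (by ring)))
    rw [pow_succ B⁻¹]; field_simp

open HJP HLP in
theorem lpz (h : S_JID) (ρ kp kq j : ℕ) (N p q d e ε c₁ c₂ : ℝ) (hR : RgL ρ kp kq j N p q d e)
    (hq : q ≤ ε * d) (hN : N ≤ ε * (p * d)) (hε : ε ≤ 1 / 100)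
    (et : c₁ ≤ (1 - ε) ^ (ρ + 1)) (k2 : (1 - ε)⁻¹ * ((1 + ε) ^ (ρ + 1) * (1 - ε)⁻¹) ≤ c₂) :
    1 / 2 * c₁ * (nJ ρ kp kq j * pl (kp - 1) (kq - 1) ρ (1 - p / q)) *
      ((p / N) ^ (ρ + 1) * (p * q / (N * (q - p))) ^ (kp + kq - 2) / e) ≤
      (-1) ^ (ρ + kq) * tpJ ρ kp kq j N p q d e ∧
    (-1) ^ (ρ + kq) * tpJ ρ kp kq j N p q d e ≤
      c₂ / 2 * (nJ ρ kp kq j * pl (kp - 1) (kq - 1) ρ (1 - p / q)) *
        ((p / N) ^ (ρ + 1) * (p * q / (N * (q - p))) ^ (kp + kq - 2) / e) := by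
  obtain ⟨m, rfl⟩ : ∃ m, kp = m + 1 := ⟨kp - 1, by have := hR.p1; omega⟩
  obtain ⟨k, rfl⟩ : ∃ k, kq = k + 1 := ⟨kq - 1, by have := hR.q1; omega⟩
  have jp := hR.jp
  have jr := hR.jr
  have N0 := hR.n0
  have p1 := hR.one
  have pq := hR.pq
  have qd := hR.qd
  have de := hR.de
  have nd := hR.nd
  have p0 : 0 < p := by linarith
  have q0 : 0 < q := by linarith
  have d0 : 0 < d := by linarith
  have e0 : 0 < e := by linarith
  have x0 : 0 < 1 / d := by positivity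
  have lt : N / q < N / p := div_lt_div_of_pos_left N0 p0 pq
  have B0 : 0 < N / q := by positivity
  have ε0 : 0 < ε := (mul_pos_iff_of_pos_right d0).1 (q0.trans_le hq)
  have sm : ∀ z : ℝ, d ≤ z → N / p / z ≤ ε := fun z hz => by
    rw [div_div, div_le_iff₀ (mul_pos p0 (d0.trans_le hz))]
    exact hN.trans (by gcongr)
  have i2 : p / N = (N / p)⁻¹ := (inv_div _ _).symm
  have i3 : p * q / (N * (q - p)) = (N / p - N / q)⁻¹ := by
    rw [div_sub_div _ _ p0.ne' q0.ne', inv_div]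
    congr 1
    ring
  have i4 : 1 - p / q = (N / p - N / q) / (N / p) := by field_simp
  have ef : (fun k l => tp ρ k l N p q d e) = fun k l =>
      ((√(1 + -(N / p / e)) - √(1 + -(N / q / e))) * √(1 + -(N / p) * (1 / d))) *
        rs ρ (1 / d) (-(N / p)) 0 (-(N / q)) k (ρ + 1) l := by
    funext k l
    rw [tp, ← div_div, ← div_div]
    simp only [neg_div]
    ring
  rw [tpJ, ef, rc_mul, i2, i3, i4, show m + 1 + (k + 1) - 2 = m + k by omega, Nat.add_sub_cancel,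
    Nat.add_sub_cancel]
  generalize N / p = A at *
  generalize N / q = B at *
  have A0 : 0 < A := by linarith
  have W0 : 0 < A - B := by linarith
  have s1 : A * (1 / d) ≤ ε := by simpa only [mul_one_div] using sm d le_rfl
  have s2 := sm e de
  have s3 : B * (1 / d) ≤ A * (1 / d) := by gcongr
  have s4 : B / e ≤ A / e := by gcongr
  have s7 : 0 < B / e := by positivity
  have s8 : 0 < B * (1 / d) := by positivity
  obtain ⟨-, -, -, hs, hn⟩ := h ρ j (m + 1) (k + 1) (1 / d) A B (by omega) (by omega) (by omega)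
    A0.ne' B0.ne' lt.ne' (by linarith) (by linarith)
  rw [hs]
  have hc : ∀ i ∈ Finset.range (j + 1), 0 ≤ cj ρ (m + 1 + (k + 1) + j - 2) j i :=
    fun i hi => cj_nn (by omega) (by omega) hi
  have hm : ∀ i ∈ Finset.range (j + 1), m ≤ ρ - i + 1 := fun i hi => by
    have := Finset.mem_range.1 hi; omega
  have e9 : 0 < 1 - ε := by linarith
  have ie : 0 < (1 - ε)⁻¹ := inv_pos.2 e9
  have pw : (1 + 1 / d * (A - B)) ^ (ρ + 1) ≤ (1 + ε) ^ (ρ + 1) :=
    pow_le_pow_left₀ (by positivity) (by linarith) _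
  have n2 : (1 - ε)⁻¹ / 2 * ((1 + 1 / d * (A - B)) ^ (ρ + 1) * (1 - ε)⁻¹) ≤ c₂ / 2 := by
    have := mul_le_mul_of_nonneg_left (mul_le_mul_of_nonneg_right pw ie.le) ie.le
    linarith
  have f2 : √(1 + -(B / e)) - √(1 + -(A / e)) ≤ (1 - ε)⁻¹ / 2 * ((A - B) / e) := by
    rw [sub_div]
    exact sqrt_up s7.le s4 s2 (by linarith)
  have f : (A / e - B / e) / 2 ≤ √(1 + -(B / e)) - √(1 + -(A / e)) :=
    sqrt_low (by linarith) s4 s7.le
  have f0 : 0 ≤ (A / e - B / e) / 2 := by linarith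
  have t : 1 - ε ≤ √(1 + -A * (1 / d)) := le_sqrt_of_sq_le (by nlinarith)
  have t' : √(1 + -A * (1 / d)) ≤ 1 :=
    (le_abs_self _).trans (TSIZE3.sqrt_le (u := -A * (1 / d)) (by linarith))
  have nn : (0 : ℝ) ≤ nJ ρ (m + 1) (k + 1) j := Nat.cast_nonneg _
  change _ = (nJ ρ (m + 1) (k + 1) j : ℝ) at hn
  generalize (nJ ρ (m + 1) (k + 1) j : ℝ) = n at *
  have nT := ((J_nn W0).pow (k + 1)).mul ((J_nn A0).pow (ρ + 1))
  have cT := coeffT (A := A) W0.ne' m k ρ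
  have T0 := nT m
  have l := sum_low (σ := (-1) ^ (ρ + 1 + (k + 1)))
    (F := fun i => rs (ρ - i) (1 / d) (-A) 0 (-B) (m + 1) (ρ + 1) (k + 1))
    (lo := (1 - ε) ^ ρ * coeff m (J (A - B) ^ (k + 1) * J A ^ (ρ + 1))) hc hn fun i hi => by
      rw [sgn _ _ _ _ B0 lt]
      refine le_trans ?_ (low (c := 1 - ε) nT x0.le e9.le (by linarith) (hm i hi))
      exact mul_le_mul_of_nonneg_right
        (pow_le_pow_of_le_one e9.le (by linarith) (Nat.sub_le _ _)) T0
  have u := sum_low (σ := -(-1) ^ (ρ + 1 + (k + 1)))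
    (F := fun i => rs (ρ - i) (1 / d) (-A) 0 (-B) (m + 1) (ρ + 1) (k + 1))
    (lo := -((1 + 1 / d * (A - B)) ^ (ρ + 1) * (1 - ε)⁻¹ *
      coeff m (J (A - B) ^ (k + 1) * J A ^ (ρ + 1)))) hc hn fun i hi => by
      rw [neg_mul, neg_le_neg_iff, sgn _ _ _ _ B0 lt]
      have := up (r := ρ - i) (α := -A) (c := 1 - ε)
        (((J_nn W0).pow k).mul ((J_nn A0).pow (ρ + 1))) W0 x0.le e9 (by linarith)
        (by linarith) (hm i hi)
      rw [← mul_assoc (J (A - B)), ← pow_succ'] at this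
      refine this.trans (mul_le_mul_of_nonneg_right (mul_le_mul_of_nonneg_right
        (pow_le_pow_right₀ ?_ (by omega)) ie.le) T0)
      have : 0 ≤ 1 / d * (A - B) := by positivity
      linarith
  rw [neg_mul, mul_neg, neg_le_neg_iff] at u
  have eT : (A - B) / e * coeff m (J (A - B) ^ (k + 1) * J A ^ (ρ + 1)) =
      pl m k ρ ((A - B) / A) * (A⁻¹ ^ (ρ + 1) * (A - B)⁻¹ ^ (m + k) / e) := by
    rw [cT, pow_succ (A - B)⁻¹]
    field_simp
  generalize coeff m (J (A - B) ^ (k + 1) * J A ^ (ρ + 1)) = T at *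
  generalize ∑ i ∈ Finset.range (j + 1), cj ρ (m + 1 + (k + 1) + j - 2) j i *
    rs (ρ - i) (1 / d) (-A) 0 (-B) (m + 1) (ρ + 1) (k + 1) = R at *
  have R0 : 0 ≤ (-1) ^ (ρ + 1 + (k + 1)) * R := le_trans (by positivity) l
  have e1 : ∀ z : ℝ, z * (n * pl m k ρ ((A - B) / A)) * (A⁻¹ ^ (ρ + 1) * (A - B)⁻¹ ^ (m + k) / e) =
      z * (n * ((A - B) / e * T)) := fun z => by rw [eT]; ring
  rw [e1, e1]
  constructor
  · have g := mul_le_mul f (mul_le_mul t l (by positivity) (sqrt_nonneg _)) (by positivity)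
      (f0.trans f)
    refine le_trans ?_ (g.trans_eq (by ring))
    calc _ = (A / e - B / e) / 2 * (c₁ * (n * T)) := by rw [sub_div]; ring
      _ ≤ (A / e - B / e) / 2 * ((1 - ε) ^ (ρ + 1) * (n * T)) := by gcongr
      _ = _ := by ring
  · have g := mul_le_mul f2 (mul_le_mul t' u R0 zero_le_one) (mul_nonneg (sqrt_nonneg _) R0)
      (by positivity)
    refine le_trans (le_of_eq (by ring)) (g.trans ?_)
    refine le_trans (le_of_eq (by ring)) (mul_le_mul_of_nonneg_right n2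
      (show 0 ≤ n * ((A - B) / e * T) by positivity))

end Pool.Agent.MP_2339ce_nt.Q2

end
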