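import Pool.Agent.MP_2339ce_nt.Q2.HZ1
import Pool.Agent.MP_2339ce_nt.Q2.HFI

/-! `D(-N)`-quintuples, block HP: the zeros of the form `(2; 3, 3)` for `q` near `2 p`. -/

set_option autoImplicit false

noncomputable section

namespace Pool.Agent.MP_2339ce_nt.Q2

open DQ TNQ Real

namespace HZ

theorem alg {t ε u A B X : ℝ} (t1 : 85 / 100 ≤ t) (t2 : t ≤ 123 / 100) (e0 : 0 < ε)
    (e1 : ε ≤ 1 / 100) (X0 : 0 < X) (u0 : 128 * ε ≤ u) (h : 1 ≤ t ∨ u ≤ (1 - t) / (1 + t))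
    (a1 : (1 - ε) / 2 * (1 - 4 * ε) * ((6 + 21 * t + 21 * t ^ 2) / (1 + t) ^ 2) * X ≤ A)
    (a2 : A ≤ (1 + 5 * ε) / 2 * ((6 + 21 * t + 21 * t ^ 2) / (1 + t) ^ 2) * X)
    (b1 : 1 / 2 * (1 - 3 * ε) * ((21 + 21 * t + 6 * t ^ 2) / (1 + t) ^ 2) * (t ^ 4 * X) ≤ B)
    (b2 : B ≤ (1 + 6 * ε) / 2 * ((21 + 21 * t + 6 * t ^ 2) / (1 + t) ^ 2) * (t ^ 4 * X)) :
    A - B ≤ 128 * ε * X ∨ 28 * u * X ≤ A - B := by
  have t0 : 0 < 1 + t := by linarith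
  have t3 : 0 < t := by linarith
  obtain ⟨α, hα⟩ : ∃ α, α = (6 + 21 * t + 21 * t ^ 2) / (1 + t) ^ 2 := ⟨_, rfl⟩
  obtain ⟨β, hβ⟩ : ∃ β, β = (21 + 21 * t + 6 * t ^ 2) / (1 + t) ^ 2 * t ^ 4 := ⟨_, rfl⟩
  have e : α - β = (1 - t) / (1 + t) * (6 * t ^ 4 + 21 * t ^ 3 + 27 * t ^ 2 + 21 * t + 6) := by
    rw [hα, hβ]; field_simp; ring
  have α0 : 0 ≤ α := by rw [hα]; positivity
  have β0 : 0 ≤ β := by rw [hβ]; positivity
  have α1 : α ≤ 13 := by rw [hα, div_le_iff₀ (by positivity)]; nlinarith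
  have β1 : β ≤ 40 := by
    have x : (21 + 21 * t + 6 * t ^ 2) / (1 + t) ^ 2 ≤ 16 := by
      rw [div_le_iff₀ (by positivity)]; nlinarith
    have y : t ^ 4 ≤ (123 / 100) ^ 4 := pow_le_pow_left₀ t3.le t2 4
    rw [hβ]
    exact (mul_le_mul x y (by positivity) (by norm_num)).trans (by norm_num)
  have s : 58 ≤ 6 * t ^ 4 + 21 * t ^ 3 + 27 * t ^ 2 + 21 * t + 6 := by
    have y4 : (85 / 100 : ℝ) ^ 4 ≤ t ^ 4 := pow_le_pow_left₀ (by norm_num) t1 4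
    have y3 : (85 / 100 : ℝ) ^ 3 ≤ t ^ 3 := pow_le_pow_left₀ (by norm_num) t1 3
    have y2 : (85 / 100 : ℝ) ^ 2 ≤ t ^ 2 := pow_le_pow_left₀ (by norm_num) t1 2
    norm_num at y4 y3 y2
    linarith
  rw [← hα] at a1 a2
  have b3 : 1 / 2 * (1 - 3 * ε) * β * X ≤ B := by rw [hβ]; linarith
  have b4 : B ≤ (1 + 6 * ε) / 2 * β * X := by rw [hβ]; linarith
  generalize 6 * t ^ 4 + 21 * t ^ 3 + 27 * t ^ 2 + 21 * t + 6 = S at e s
  have c1 := mul_le_mul_of_nonneg_left α1 e0.le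
  have c2 := mul_le_mul_of_nonneg_left β1 e0.le
  rcases h with h | h
  · left
    have z : α - β ≤ 0 := by
      rw [e]
      exact mul_nonpos_of_nonpos_of_nonneg
        (div_nonpos_of_nonpos_of_nonneg (by linarith) t0.le) (by linarith)
    have w : (1 + 5 * ε) / 2 * α - 1 / 2 * (1 - 3 * ε) * β ≤ 128 * ε := by linarith
    have := mul_le_mul_of_nonneg_right w X0.le
    linarith
  · right
    have z : u * 58 ≤ α - β := by
      rw [e]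
      exact mul_le_mul h s (by norm_num) (by linarith)
    have c3 : 0 ≤ ε * ε * α := by positivity
    have c4 := mul_le_mul_of_nonneg_left (show β ≤ 13 by linarith) e0.le
    have w : 28 * u ≤ (1 - ε) / 2 * (1 - 4 * ε) * α - (1 + 6 * ε) / 2 * β := by linarith
    have := mul_le_mul_of_nonneg_right w X0.le
    linarith

theorem eps {ε : ℝ} (e0 : 0 < ε) (e1 : ε ≤ 1 / 100) :
    1 - 4 * ε ≤ 2 - (1 + ε) ^ (2 + 1) ∧ (1 - ε)⁻¹ * (1 + ε) ^ (2 + 1) ≤ 1 + 5 * ε ∧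
      1 - 3 * ε ≤ (1 - ε) ^ (2 + 1) ∧ (1 - ε)⁻¹ * ((1 + ε) ^ (2 + 1) * (1 - ε)⁻¹) ≤ 1 + 6 * ε := by
  have i0 : 0 < 1 - ε := by linarith
  have x2 : ε * ε ≤ 1 / 100 * ε := mul_le_mul_of_nonneg_right e1 e0.le
  have x3 : ε * (ε * ε) ≤ 1 / 100 * (ε * ε) := mul_le_mul_of_nonneg_right e1 (by positivity)
  have x4 : 0 ≤ ε * (ε * ε) := by positivity
  have x5 : 0 ≤ ε * ε := by positivity
  rw [show 2 + 1 = 3 from rfl]
  refine ⟨by linarith, ?_, by linarith, ?_⟩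
  · rw [inv_mul_le_iff₀ i0]; linarith
  · rw [inv_mul_le_iff₀ i0, ← div_eq_mul_inv, div_le_iff₀ i0]; linarith

theorem plv (x : ℝ) : pl 2 2 2 x = 6 + 9 * x + 6 * x ^ 2 := by
  simp only [pl, Finset.sum_range_succ, Finset.sum_range_zero]
  norm_num [Nat.choose]

end HZ

open HZ in
theorem zero233 (hM : S_LM) (hJ : S_JID) {N p q d e : ℝ} (R : RgL 2 3 3 0 N p q d e)
    (hN : N ≤ p * q) (h1 : 46 * q ≤ 100 * p) (h2 : 100 * p ≤ 55 * q) (hd : 128 * q ^ 2 ≤ d)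
    (hw : q ≤ 2 * p ∨ 2 * p + 1 ≤ q) (hz : wwJ 2 3 3 0 N p q d e = 0) :
    e * N ^ 7 ≤ 94080 * (d ^ 7 * p ^ 3 * q ^ 5) ∨ 20216 * (d ^ 8 * p ^ 3 * q ^ 3) ≤ e * N ^ 7 := by
  have N0 := R.n0
  have p1 := R.one
  have pq := R.pq
  have qd := R.qd
  have de := R.de
  have p0 : 0 < p := by linarith
  have q0 : 0 < q := by linarith
  have d0 : 0 < d := by linarith
  have e0 : 0 < e := by linarith
  have w0 : 0 < q - p := by linarith
  have ε0 : 0 < q / d := by positivity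
  have ε1 : q / d ≤ 1 / 100 := by rw [div_le_div_iff₀ d0 (by norm_num)]; linarith
  have k1 : q ≤ q / d * d := by rw [div_mul_cancel₀ _ d0.ne']
  have k2 : N ≤ q / d * (p * d) := hN.trans (le_of_eq (by field_simp))
  have k3 : 128 * (q / d) ≤ 1 / q := by
    rw [← mul_div_assoc, div_le_div_iff₀ d0 q0]; linarith
  obtain ⟨a0, m1, m2, -⟩ := hM 2 3 3 0 N p q d e 0 1 R le_rfl (by simpa using p0.le)
    (by simpa using pq.le)
  obtain ⟨y1, y2, y3, y4⟩ := eps ε0 ε1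
  obtain ⟨a1, a2⟩ := l0z hJ 2 3 3 0 N p q d e (q / d) (1 - 4 * (q / d)) (1 + 5 * (q / d)) R k1 k2
    ε1 (by linarith) y1 y2
  obtain ⟨b1, b2⟩ := lpz hJ 2 3 3 0 N p q d e (q / d) (1 - 3 * (q / d)) (1 + 6 * (q / d)) R k1 k2
    ε1 y3 y4
  obtain ⟨t, ht⟩ : ∃ t, t = p / (q - p) := ⟨_, rfl⟩
  have t1 : 85 / 100 ≤ t := by rw [ht, le_div_iff₀ w0]; linarith
  have t2 : t ≤ 123 / 100 := by rw [ht, div_le_iff₀ w0]; linarith
  have t3 : 1 + t = q / (q - p) := by rw [ht]; field_simp; ring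
  have f1 : pl 2 2 2 (p / q) = (6 + 21 * t + 21 * t ^ 2) / (1 + t) ^ 2 := by
    rw [plv, t3, ht]; field_simp; ring
  have f2 : pl 2 2 2 (1 - p / q) = (21 + 21 * t + 6 * t ^ 2) / (1 + t) ^ 2 := by
    rw [plv, t3, ht]; field_simp; ring
  have f3 : (p / N) ^ 3 * (p * q / (N * (q - p))) ^ 4 / e =
      t ^ 4 * ((q / N) ^ 4 * (p / N) ^ 3 / e) := by rw [ht]; field_simp
  have f4 : 1 ≤ t ∨ 1 / q ≤ (1 - t) / (1 + t) := by
    refine hw.imp (fun h => ?_) fun h => ?_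
    · rw [ht, le_div_iff₀ w0]; linarith
    · have : (1 - t) / (1 + t) = (q - 2 * p) / q := by rw [t3, ht]; field_simp; ring
      rw [this]
      exact div_le_div_of_nonneg_right (by linarith) q0.le
  have be1 : be 2 8 = (beQ 2 8 : ℚ) := be3 _ _
  have be2 : (beQ 2 8 : ℚ) = 45 / 32768 := by decide +kernel
  norm_num [nJ, rc, eta, be1, be2] at a1 a2 b1 b2 m1 m2
  rw [f1] at a1 a2
  rw [f2, f3] at b1 b2
  have X0 : 0 < (q / N) ^ 4 * (p / N) ^ 3 / e := by positivity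
  have := alg (A := t0J 2 3 3 0 N p q d e) (B := -tpJ 2 3 3 0 N p q d e) t1 t2 ε0 ε1 X0 k3 f4
    (by linarith) (by linarith) (by linarith) (by linarith)
  have em : t0J 2 3 3 0 N p q d e - -tpJ 2 3 3 0 N p q d e = -tmJ 2 3 3 0 N p q d e := by linarith
  rw [em] at this
  have i8 : 0 < (d ^ 8)⁻¹ := by positivity
  refine this.imp (fun h => ?_) fun h => ?_
  · have y : 1 / 735 * (d ^ 8)⁻¹ ≤ 128 * (q / d) * ((q / N) ^ 4 * (p / N) ^ 3 / e) := by linarith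
    have := mul_le_mul_of_nonneg_right y (show 0 ≤ 735 * d ^ 8 * (e * N ^ 7) by positivity)
    refine le_trans (le_of_eq ?_) (this.trans (le_of_eq ?_)) <;> field_simp
    norm_num
  · have y : 28 * (1 / q) * ((q / N) ^ 4 * (p / N) ^ 3 / e) ≤ 1 / 722 * (d ^ 8)⁻¹ := by linarith
    have := mul_le_mul_of_nonneg_right y (show 0 ≤ 722 * d ^ 8 * (e * N ^ 7) by positivity)
    refine le_trans (le_of_eq ?_) (this.trans (le_of_eq ?_)) <;> field_simp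
    norm_num

end Pool.Agent.MP_2339ce_nt.Q2

end
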