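import Mathlib.Data.ZMod.Basic
import Mathlib.FieldTheory.Finite.Basic
import Pool.Agent.MP_2339ce_nt.Q2.Msk

/-! Project Q2: the primes of `PP N` divide a norm to an even power. -/

set_option autoImplicit false

namespace Pool.Agent.MP_2339ce_nt.Q2.Msk

theorem pk_no {N p : ℕ} (hp : p.Prime) (e : pk N p = true) (z : ZMod p) : z ^ 2 + N ≠ 0 := by
  have : NeZero p := ⟨hp.ne_zero⟩
  intro h
  have k1 : 1 ≤ (z.val * z.val + N) % p := Nat.le_of_ble_eq_true (al_ok e _ (ZMod.val_lt z))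
  have k2 : p ∣ z.val * z.val + N := (ZMod.natCast_eq_zero_iff _ _).1 (by
    push_cast
    rw [ZMod.natCast_zmod_val, ← sq, h])
  rw [Nat.mod_eq_zero_of_dvd k2] at k1
  omega

theorem pk_sq {N p K a b y r : ℕ} (hp : p.Prime) (e : pk N p = true)
    (h1 : K * b = y ^ 2 + N * r ^ 2) (h2 : a * b = r ^ 2 + N) : Nat.gcd K p ^ 2 ∣ K := by
  have := Fact.mk hp
  rcases (Nat.dvd_prime hp).1 (Nat.gcd_dvd_right K p) with g | g <;> rw [g]
  · simp
  have k0 : (K : ZMod p) = 0 := (ZMod.natCast_eq_zero_iff _ _).2 (g ▸ Nat.gcd_dvd_left K p)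
  have e1 := congrArg (Nat.cast : ℕ → ZMod p) h1
  have e2 := congrArg (Nat.cast : ℕ → ZMod p) h2
  push_cast at e1 e2
  rw [k0, zero_mul] at e1
  have k1 : (r : ZMod p) = 0 := by
    by_contra k
    refine pk_no hp e (y / r) ?_
    field_simp
    linear_combination -e1
  have k2 : (y : ZMod p) = 0 := by
    rw [k1] at e1
    exact pow_eq_zero_iff two_ne_zero |>.1 (by linear_combination -e1)
  have k3 : ¬ p ∣ b := fun k => pk_no hp e r (by
    rw [← e2, (ZMod.natCast_eq_zero_iff _ _).2 k, mul_zero])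
  refine Nat.Coprime.dvd_of_dvd_mul_right ((hp.coprime_iff_not_dvd.2 k3).pow_left 2) ?_
  rw [h1]
  exact Nat.dvd_add (pow_dvd_pow_of_dvd ((ZMod.natCast_eq_zero_iff _ _).1 k2) 2)
    ((pow_dvd_pow_of_dvd ((ZMod.natCast_eq_zero_iff _ _).1 k1) 2).mul_left N)

theorem pr_sq {N K a b y r : ℕ} (h1 : K * b = y ^ 2 + N * r ^ 2) (h2 : a * b = r ^ 2 + N)
    (L : List ℕ) (hL : ∀ p ∈ L, p.Prime) (hc : L.Pairwise Nat.Coprime) :
    pr N L ∣ L.prod ∧ Nat.gcd K (pr N L) ^ 2 ∣ K := by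
  induction L with
  | nil => exact ⟨dvd_rfl, by change Nat.gcd K 1 ^ 2 ∣ K; simp⟩
  | cons p L ih =>
    obtain ⟨c1, c2⟩ := List.pairwise_cons.1 hc
    obtain ⟨k1, k2⟩ := ih (fun q hq => hL q (List.mem_cons_of_mem _ hq)) c2
    have hp := hL p List.mem_cons_self
    have e0 : pr N (p :: L) = @Bool.rec (fun _ => ℕ) (pr N L) (p * pr N L) (pk N p) := rfl
    rw [e0, List.prod_cons]
    cases e : pk N p
    · exact ⟨k1.mul_left p, k2⟩
    have c3 : Nat.Coprime p (pr N L) := (Nat.coprime_list_prod_right_iff.2 c1).coprime_dvd_right k1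
    refine ⟨Nat.mul_dvd_mul_left p k1, ?_⟩
    change Nat.gcd K (p * pr N L) ^ 2 ∣ K
    rw [c3.gcd_mul, mul_pow]
    exact Nat.Coprime.mul_dvd_of_dvd_of_dvd (Nat.Coprime.pow 2 2
      ((c3.coprime_dvd_left (Nat.gcd_dvd_right K p)).coprime_dvd_right (Nat.gcd_dvd_right K _)))
      (pk_sq hp e h1 h2) k2

theorem PP_sq {N : ℕ} (hN : N < 256) (K a b y r : ℕ) (h1 : K * b = y ^ 2 + N * r ^ 2)
    (h2 : a * b = r ^ 2 + N) : Nat.gcd K (PP N) ^ 2 ∣ K := by
  have k := al_ok (c2a (N / 8) (by omega)) (N % 8) (by omega)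
  rw [Nat.div_add_mod] at k
  rw [Nat.eq_of_beq_eq_true k]
  refine (pr_sq h1 h2 PL ?_ (by decide +kernel)).2
  simp only [PL, List.forall_mem_cons]
  norm_num

end Pool.Agent.MP_2339ce_nt.Q2.Msk
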