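import Mathlib.Tactic.LinearCombination
import Mathlib.Tactic.Linarith
import Mathlib.Tactic.Positivity
import Mathlib.Tactic.Ring
import Pool.Agent.MP_2339ce_nt.Q2.NRSpec

/-! Block NR: the identities of a triple and the bound for `w`. -/

set_option autoImplicit false

namespace Pool.Agent.MP_2339ce_nt.NR

namespace Alg

variable {N a b c r s t x : ℕ}

theorem ab_cast (u v : ℕ) : (ab u v : ℤ) = |(u : ℤ) - v| := by
  have e : ab u v = u - v + (v - u) := rfl
  rcases abs_cases ((u : ℤ) - v) with h | h <;> omega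

theorem ww_cast : (ww N r s x : ℤ) = |2 * ((r : ℤ) * x) - N * s| := by
  rw [ww, ab_cast]; push_cast; rfl

theorem ww_sq : (ww N r s x : ℤ) ^ 2 = (2 * ((r : ℤ) * x) - N * s) ^ 2 := by rw [ww_cast, sq_abs]

theorem cb_cast : (cb N : ℤ) = (N : ℤ) * (N * N) := by
  have e : cb N = N * (N * N) := rfl
  rw [e]; push_cast; rfl

theorem casts (h : Tp N a b c r s t x) : (r : ℤ) ^ 2 + N = a * b ∧ (s : ℤ) ^ 2 + N = a * c ∧
    (t : ℤ) ^ 2 + N = b * c ∧ (x : ℤ) = a * t - r * s := by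
  have h4 : (x : ℤ) + r * s = a * t := by exact_mod_cast h.hx
  exact ⟨by exact_mod_cast h.hr, by exact_mod_cast h.hs, by exact_mod_cast h.ht,
    by linear_combination h4⟩

theorem lin (h : Tp N a b c r s t x) : (N : ℤ) * s - r * x = a * (b * s - r * t) := by
  obtain ⟨h1, -, -, h4⟩ := casts h
  linear_combination (s : ℤ) * h1 - r * h4

theorem quad (h : Tp N a b c r s t x) :
    (N : ℤ) * s ^ 2 - 2 * (r * x) * s = x ^ 2 + a ^ 2 * N - N * (r ^ 2 + N) := by
  obtain ⟨h1, h2, h3, h4⟩ := casts h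
  rw [h4]
  linear_combination ((s : ℤ) ^ 2 + N) * h1 + a * b * h2 - a ^ 2 * h3

theorem ypos (h : Tp N a b c r s t x) : (r : ℤ) * x ≤ N * s := by
  obtain ⟨h1, h2, h3, -⟩ := casts h
  have e : ((b : ℤ) * s) ^ 2 - (r * t) ^ 2 = N * (b * (c - b) + r ^ 2) := by
    linear_combination (b : ℤ) ^ 2 * h2 - (t ^ 2 + N) * h1 - (a * b - N) * h3
  have hbc : (0 : ℤ) ≤ (c : ℤ) - b := by have := h.hbc; omega
  have h5 : (r : ℤ) * t ≤ b * s := by
    refine abs_le_of_sq_le_sq' ?_ (by positivity) |>.2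
    have : 0 ≤ (N : ℤ) * (b * (c - b) + r ^ 2) := by positivity
    linarith
  have h6 : 0 ≤ (a : ℤ) * (b * s - r * t) := mul_nonneg (by positivity) (by linarith)
  linarith [lin h]

theorem both_iff (p q : Bool) : both p q = true ↔ p = true ∧ q = true := by
  cases p <;> simp [both]

end Alg

open Alg in
theorem alg_ok : S_ALG := by
  intro N a b c r s t x h
  obtain ⟨h1, h2, h3, h4⟩ := casts h
  have q := quad h
  have d1 : (a : ℤ) ∣ (r : ℤ) ^ 2 + N := ⟨b, h1⟩
  have d2 : (a : ℤ) ∣ (x : ℤ) ^ 2 - N * N := ⟨a * t ^ 2 - 2 * t * r * s + a * b * c - b * N - c * N,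
    by rw [h4]; linear_combination (s : ℤ) ^ 2 * h1 + (a * b - N) * h2⟩
  refine ⟨?_, by simpa using d1, by simpa using d2, ?_, ⟨N * s - r * x, ?_⟩,
    ⟨r * N ^ 2 - x * (2 * (r * x) - N * s), ?_⟩, ⟨N * x + r * (2 * (r * x) - N * s), ?_⟩⟩
  · obtain ⟨Y, hY⟩ := Nat.exists_eq_add_of_le (show r * x ≤ N * s by exact_mod_cast ypos h)
    have e : (Y : ℤ) = N * s - r * x := by
      have : (N : ℤ) * s = r * x + Y := by exact_mod_cast hY
      linarith
    refine ⟨Y, hY, ?_⟩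
    zify
    rw [e]
    linear_combination (N : ℤ) * q
  · have e : (ww N r s x : ℤ) ^ 2 + cb N - (0 : ℕ) = r ^ 2 * (x ^ 2 - N * N) +
        N ^ 2 * (r ^ 2 + N) + (N * s - r * x) * (N * s - 3 * (r * x)) := by
      rw [ww_sq, cb_cast]; push_cast; ring
    rw [e, Alg.lin h, mul_assoc]
    exact ((d2.mul_left _).add (d1.mul_left _)).add (dvd_mul_right _ _)
  · push_cast
    linear_combination (N : ℤ) * q
  · push_cast
    rw [ww_sq, cb_cast]
    linear_combination (N : ℤ) ^ 3 * q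
  · push_cast
    rw [ww_sq, cb_cast]
    linear_combination -(N : ℤ) ^ 2 * q

open Alg in
theorem wb_ok : R_WB := by
  intro _ N a b c r s t x r0 r1 x0 x1 Wb h hw l1 l2 l3 l4
  simp only [wOK, both_iff, Nat.blt_eq, Nat.ble_eq, Nat.mul_eq, Nat.add_eq, Nat.sub_eq] at hw
  obtain ⟨w1, w2, w3, w4⟩ := hw
  have q := quad h
  have y := ypos h
  have h1 := (casts h).1
  have k1 : (N : ℤ) * N + 1 ≤ 2 * x := by exact_mod_cast (show N * N + 1 ≤ 2 * x by omega)
  have k2 : (N : ℤ) * N * (r + N) ≤ Wb * (2 * x - 1) := by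
    have := ((Nat.mul_le_mul_left (N * N) (Nat.add_le_add_right l2.le N)).trans w2).trans
      (Nat.mul_le_mul_left Wb (show 2 * x0 - 1 ≤ 2 * x - 1 by omega))
    zify [show 1 ≤ 2 * x by omega] at this
    exact this
  have k3 : (N : ℤ) * (x + 1) ≤ 2 * (Wb * r) := by
    exact_mod_cast ((Nat.mul_le_mul_left N (show x + 1 ≤ x1 from l4)).trans w4).trans
      (Nat.mul_le_mul_left 2 (Nat.mul_le_mul_left Wb l1))
  have hr : (1 : ℤ) ≤ r := by exact_mod_cast w3.trans l1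
  have hN : (1 : ℤ) ≤ N := by exact_mod_cast h.hN
  have ha : (1 : ℤ) ≤ a := by exact_mod_cast h.ha
  have hb : (a : ℤ) < b := by exact_mod_cast h.hab
  have hx : (1 : ℤ) ≤ x := by nlinarith
  have k4 : (r : ℤ) * (2 * x - 1) ≤ N * s := by
    have e : ((N : ℤ) * s - r * x) ^ 2 - (r * (x - 1)) ^ 2 = r ^ 2 * (2 * x - (N * N + 1)) +
        N * ((x - 1) ^ 2 + (2 * x - (N * N + 1))) + a ^ 2 * N ^ 2 := by
      linear_combination (N : ℤ) * q
    have p : 0 ≤ 2 * (x : ℤ) - (N * N + 1) := by linarith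
    have : (r : ℤ) * (x - 1) ≤ N * s - r * x := by
      refine abs_le_of_sq_le_sq' ?_ (by linarith) |>.2
      have : 0 ≤ (r : ℤ) ^ 2 * (2 * x - (N * N + 1)) +
        N * ((x - 1) ^ 2 + (2 * x - (N * N + 1))) + a ^ 2 * N ^ 2 := by positivity
      linarith
    linarith
  have p : (0 : ℤ) < r * (2 * x - 1) := mul_pos (by linarith) (by linarith)
  zify
  rw [ww_cast]
  refine lt_of_mul_lt_mul_right ?_ p.le
  refine (mul_le_mul_of_nonneg_left k4 (abs_nonneg _)).trans_lt ?_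
  rcases abs_cases (2 * ((r : ℤ) * x) - N * s) with ⟨e, -⟩ | ⟨e, -⟩ <;> rw [e]
  · have m1 := mul_le_mul_of_nonneg_left k2 (show (0 : ℤ) ≤ r by linarith)
    have m2 : (0 : ℤ) < N * (x ^ 2 + a ^ 2 * N) := by positivity
    have m3 : 0 ≤ (N : ℤ) ^ 3 * (r - 1) := mul_nonneg (by positivity) (by linarith)
    have m4 := congrArg ((N : ℤ) * ·) q
    linarith
  · have m1 := mul_le_mul_of_nonneg_left k3 (show (0 : ℤ) ≤ 2 * x - 1 by linarith)
    have m2 : (0 : ℤ) < N ^ 2 * (a * (b - a)) :=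
      mul_pos (by positivity) (mul_pos (by linarith) (by linarith))
    have m3 : 0 ≤ (N : ℤ) * (x - 1) := mul_nonneg (by positivity) (by linarith)
    have m4 := congrArg ((N : ℤ) * ·) q
    have m5 := congrArg ((N : ℤ) ^ 2 * ·) h1
    linarith

end Pool.Agent.MP_2339ce_nt.NR
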