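import Pool.Agent.MP_2339ce_nt.Q2.NRSpec

/-! Block NR, row BASE: the shifted block patterns hit every solution. -/

set_option autoImplicit false

namespace Pool.Agent.MP_2339ce_nt.NR

namespace Base

theorem inv_mul (M i p u : ℕ) (h : M * i % p = 1) : M * (u * i % p) ≡ u [MOD p] := by
  have h1 : M * i ≡ 1 [MOD p] := by
    have h2 : M * i % p ≡ M * i [MOD p] := Nat.mod_modEq _ _
    rw [h] at h2
    exact h2.symm
  have h3 : M * (u * i % p) ≡ M * (u * i) [MOD p] := (Nat.mod_modEq _ _).mul_left M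
  have h4 : M * (u * i) = u * (M * i) := Nat.mul_left_comm _ _ _
  have h5 : u * (M * i) ≡ u * 1 [MOD p] := h1.mul_left u
  rw [Nat.mul_one] at h5
  rw [h4] at h3
  exact h3.trans h5

theorem pos_mod (W p x y : ℕ) (hy : y < W) : (W * x + y) % (W * p) = W * (x % p) + y := by
  have hW : 0 < W := by omega
  rw [Nat.mod_mul, Nat.mul_add_mod, Nat.mod_eq_of_lt hy, Nat.mul_add_div hW, Nat.div_eq_of_lt hy,
    Nat.add_zero, Nat.add_comm]

theorem pos_lt (W x y n : ℕ) (hy : y < W) (hx : x < n) : W * x + y < W * n := by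
  have h1 : W * (x + 1) ≤ W * n := Nat.mul_le_mul_left W hx
  rw [Nat.mul_succ] at h1
  omega

theorem one (hB : S_BIT) (hR : S_RW) (p i T S Q M pd K J J' A1 B1 A2 B2 Q1 Q2 h v k j : ℕ)
    (hp : 2 ≤ p) (hrow : RowOk p T S Q) (hpd : p ≤ pd) (hi : M * i % p = 1)
    (hsq : Sq A1 B1 A2 B2 Q1 Q2 (h + M * k) (v + M * j)) (hk : k < K) (hj' : j < J') (hj : j < J) :
    (ones ((K + pd) * J') &&& (bs1 p T S Q M (K + pd) J (M * M % p) (df p A1 B1) (df p A2 B2)
      (df p Q1 Q2) >>> (v * i % p * (K + pd)))).testBit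
        (h * i % p + ((K + pd) * j + k)) = true := by
  obtain ⟨b1, -, b3, b4, b5⟩ := hB
  have hs : h * i % p < p := Nat.mod_lt _ (by omega)
  have hg : v * i % p < p := Nat.mod_lt _ (by omega)
  have e1 := inv_mul M i p h hi
  have e2 := inv_mul M i p v hi
  generalize h * i % p = s at hs e1
  generalize v * i % p = g at hg e2
  have hy : k + s < K + pd := by omega
  generalize K + pd = W at hy
  have hW : 0 < W := by omega
  rw [Nat.testBit_and, Nat.testBit_shiftRight, Bool.and_eq_true]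
  constructor
  · rw [b1]
    have := pos_lt W j (k + s) J' hy hj'
    omega
  · have e3 : g * W + (s + (W * j + k)) = W * (j + g) + (k + s) := by
      rw [Nat.mul_add, Nat.mul_comm g W]
      omega
    rw [e3]
    refine b5 (W * (J + p)) (W * p) _ _ (Nat.mul_pos hW (by omega))
      (pos_lt W (j + g) (k + s) (J + p) hy (by omega)) ?_
    rw [pos_mod W p (j + g) (k + s) hy]
    refine b4 W p ((j + g) % p) (k + s) _ (Nat.mod_lt _ (by omega)) hy ?_
    have c1 : h + M * k ≡ M * (k + s) [MOD p] := by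
      rw [Nat.mul_add, Nat.add_comm]
      exact e1.symm.add_left _
    have c2 : v + M * j ≡ M * ((j + g) % p) [MOD p] := by
      have c3 : M * ((j + g) % p) ≡ M * (j + g) [MOD p] := (Nat.mod_modEq _ _).mul_left M
      refine Nat.ModEq.trans ?_ c3.symm
      rw [Nat.mul_add, Nat.add_comm]
      exact e2.symm.add_left _
    obtain ⟨r1, r2⟩ := hR p T S Q M (M * M % p) A1 B1 A2 B2 Q1 Q2 (h + M * k) (v + M * j) (k + s)
      (M * ((j + g) % p)) hp hrow hsq c1 c2 (Nat.mod_modEq _ _)
    exact b3 p W _ (k + s) (by omega) r1 (by omega) r2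

end Base

theorem base_ok : R_BASE := by
  intro hB hR M pd K J J' A1 B1 A2 B2 Q1 Q2 h v k j l hl hsq hk hj' hj
  induction l with
  | nil => exact trivial
  | cons p i T S Q L t ih =>
    obtain ⟨⟨hp, hrow, -, hpd, -, hi⟩, ht⟩ := hl
    exact ⟨Base.one hB hR p i T S Q M pd K J J' A1 B1 A2 B2 Q1 Q2 h v k j hp hrow hpd hi hsq hk
      hj' hj, ih ht⟩

end Pool.Agent.MP_2339ce_nt.NR
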