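import Mathlib.Data.ZMod.Basic
import Mathlib.Tactic.LinearCombination
import Mathlib.Tactic.Ring
import Pool.Agent.MP_2339ce_nt.Q2.NRSpec

/-! Block NR: row RW. -/

set_option autoImplicit false

noncomputable section

namespace Pool.Agent.MP_2339ce_nt.NR

theorem rw_df (hE : S_EXT) (p A B : ℕ) (hp : 0 < p) :
    ((df p A B : ℕ) : ZMod p) = (A : ZMod p) - (B : ZMod p) := by
  have h := (ZMod.intCast_eq_intCast_iff _ _ p).2 (hE.2.2.2.2.2 p A B hp).2
  simpa using h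

theorem rw_one (hB : S_BIT) (hE : S_EXT) : S_RW := by
  intro p T S Q M m2 A1 B1 A2 B2 Q1 Q2 h v k v' hp hR hS hh hv hm
  have hp0 : 0 < p := by omega
  refine ⟨hB.2.1 _ _ _, ?_⟩
  obtain ⟨z, hz⟩ := hS
  refine hR (((v' * v' + df p A2 B2) % p * m2) % p)
    ((v' * v' + df p A2 B2) % p * df p A1 B1 + df p Q1 Q2) (k % p) z.natAbs
    (Nat.mod_lt _ hp0) (Nat.mod_lt _ hp0) ?_
  rw [← ZMod.natCast_eq_natCast_iff] at hh hv hm ⊢
  have h1 : ((z.natAbs ^ 2 : ℕ) : ZMod p) = ((z ^ 2 : ℤ) : ZMod p) := by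
    rw [← Int.natAbs_sq z, ← Int.cast_natCast]
    push_cast
    rfl
  rw [h1, hz]
  simp only [Nat.cast_add, Nat.cast_mul, Nat.cast_pow, ZMod.natCast_mod, rw_df hE p _ _ hp0,
    Int.cast_sub, Int.cast_add, Int.cast_mul, Int.cast_pow, Int.cast_natCast] at hh hv hm ⊢
  rw [hh, hv, hm]
  ring

theorem rw_two (hB : S_BIT) (hW : S_RW) : S_QROW := by
  intro M pd len A1 B1 A2 B2 Q1 Q2 h v u k v' l
  induction l with
  | nil => intro _ _ _ _; trivial
  | cons p i T S Q L t ih =>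
    intro hl hS hk hc
    obtain ⟨⟨hp, hR, -, -, -, hi⟩, ht⟩ := hl
    obtain ⟨⟨hh, hv⟩, hc⟩ := hc
    refine ⟨?_, ih ht hS hk hc⟩
    have hp0 : 0 < p := by omega
    have hu := Nat.mod_lt (u * i) hp0
    have hi' : M * i ≡ 1 [MOD p] := by
      unfold Nat.ModEq
      rw [hi, Nat.mod_eq_of_lt (by omega)]
    have h1 : h ≡ M * (u * i % p + k) [MOD p] := by
      rw [← ZMod.natCast_eq_natCast_iff] at hh hi' ⊢
      simp only [Nat.cast_add, Nat.cast_mul, Nat.cast_one, ZMod.natCast_mod] at hh hi' ⊢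
      linear_combination hh - (u : ZMod p) * hi'
    obtain ⟨h2, h3⟩ := hW p T S Q M (M * M) A1 B1 A2 B2 Q1 Q2 h v (u * i % p + k) v' hp hR hS h1 hv
      (Nat.ModEq.refl _)
    exact hB.2.2.1 p len _ _ (by omega) h2 (by omega) h3

theorem rw_ok : R_RW := fun hB hE => ⟨rw_one hB hE, rw_two hB (rw_one hB hE)⟩

end Pool.Agent.MP_2339ce_nt.NR
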