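import Pool.Agent.MP_2339ce_nt.Q2.NRGSpec
import Pool.Agent.MP_2339ce_nt.Q2.NRBit
import Pool.Agent.MP_2339ce_nt.Q2.NRExt
import Pool.Agent.MP_2339ce_nt.Q2.NRRw
import Pool.Agent.MP_2339ce_nt.Q2.NRBase

/-! Block NR, second engine, row GBASE: the symmetric block patterns keep every solution. -/

set_option autoImplicit false

noncomputable section

namespace Pool.Agent.MP_2339ce_nt.NR

namespace GBase

/-- rows `X j` at the places `j` and `p - j` -/
def sym (W p : ℕ) (X : ℕ → ℕ) (n : ℕ) : ℕ :=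
  @Nat.rec (fun _ => ℕ) 0 (fun j r => (X j <<< (W * j) ||| X j <<< (W * (p - j))) ||| r) n

theorem shl_bit {x y : ℕ} (s : ℕ) (h : x.testBit y = true) : (x <<< s).testBit (s + y) = true := by
  rw [Nat.testBit_shiftLeft, Nat.add_sub_cancel_left, h, Bool.and_true, decide_eq_true_iff]
  exact Nat.le_add_right _ _

theorem sym_bit (W p : ℕ) (X : ℕ → ℕ) (j y : ℕ) (h : (X j).testBit y = true) (n : ℕ) (hj : j < n) :
    (sym W p X n).testBit (W * j + y) = true ∧ (sym W p X n).testBit (W * (p - j) + y) = true := by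
  induction n with
  | zero => omega
  | succ n ih =>
    have e : sym W p X (n + 1) = (X n <<< (W * n) ||| X n <<< (W * (p - n))) ||| sym W p X n := rfl
    rw [e, Nat.testBit_or, Nat.testBit_or, Nat.testBit_or, Nat.testBit_or]
    rcases Nat.lt_succ_iff_lt_or_eq.1 hj with k | rfl
    · rw [(ih k).1, (ih k).2, Bool.or_true, Bool.or_true]
      exact ⟨rfl, rfl⟩
    · rw [shl_bit _ h, shl_bit _ h, Bool.true_or, Bool.true_or, Bool.or_true, Bool.true_or]
      exact ⟨rfl, rfl⟩

theorem horS_eq (W p T S Q m2 e1 e2 q : ℕ) :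
    horS W (ones W) (rep p (Nat.add (Nat.div W p) (nat_lit 2))) p (ones p) T S Q m2 e1 e2 q =
      sym W p (fun j => ones W &&& per p W (rw2 p T S Q m2 e1 q ((m2 * (j * j) + e2) % p)))
        (p / 2 + 1) := rfl

theorem half (M p e j : ℕ) (hj : j < p) : ∃ j0, j0 < p / 2 + 1 ∧ (j = j0 ∨ j = p - j0) ∧
    (M * M % p * (j0 * j0) + e) % p = (M * j * (M * j) + e) % p := by
  by_cases k : j < p / 2 + 1
  · refine ⟨j, k, Or.inl rfl, ?_⟩
    change _ ≡ _ [MOD p]
    rw [← ZMod.natCast_eq_natCast_iff]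
    simp only [Nat.cast_add, Nat.cast_mul, ZMod.natCast_mod]
    ring
  · refine ⟨p - j, by omega, Or.inr (by omega), ?_⟩
    change _ ≡ _ [MOD p]
    rw [← ZMod.natCast_eq_natCast_iff]
    simp only [Nat.cast_add, Nat.cast_mul, ZMod.natCast_mod, Nat.cast_sub hj.le, ZMod.natCast_self]
    ring

open Base in
theorem one (p i T S Q M pd K J J' A1 B1 A2 B2 Q1 Q2 h v k j : ℕ)
    (hp : 2 ≤ p) (hrow : RowOk p T S Q) (hpd : p ≤ pd) (hi : M * i % p = 1)
    (hsq : Sq A1 B1 A2 B2 Q1 Q2 (h + M * k) (v + M * j)) (hk : k < K) (hj' : j < J') (hj : j < J) :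
    (ones ((K + pd) * J') &&& (bsS p T S Q M (K + pd) (ones (K + pd)) J A1 B1 A2 B2 Q1 Q2 >>>
      (v * i % p * (K + pd)))).testBit (h * i % p + ((K + pd) * j + k)) = true := by
  obtain ⟨b1, -, b3, -, b5⟩ := bit_ok
  have hs : h * i % p < p := Nat.mod_lt _ (by omega)
  have hg : v * i % p < p := Nat.mod_lt _ (by omega)
  have e1 := inv_mul M i p h hi
  have e2 := inv_mul M i p v hi
  generalize h * i % p = s at hs e1
  generalize v * i % p = g at hg e2
  have hy : k + s < K + pd := by omega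
  generalize K + pd = W at hy
  have hW : 0 < W := by omega
  rw [Nat.testBit_and, Nat.testBit_shiftRight, Bool.and_eq_true]
  constructor
  · rw [b1]
    have := pos_lt W j (k + s) J' hy hj'
    omega
  · have e3 : g * W + (s + (W * j + k)) = W * (j + g) + (k + s) := by
      rw [Nat.mul_add, Nat.mul_comm g W]
      omega
    rw [e3, bsS, frn_eq, frn_eq, frn_eq, frn_eq, frn_eq, frn_eq, horS_eq]
    refine b5 (W * (J + p)) (W * p) _ _ (Nat.mul_pos hW (by omega))
      (pos_lt W (j + g) (k + s) (J + p) hy (by omega)) ?_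
    rw [pos_mod W p (j + g) (k + s) hy]
    have c1 : h + M * k ≡ M * (k + s) [MOD p] := by
      rw [Nat.mul_add, Nat.add_comm]
      exact e1.symm.add_left _
    have c2 : v + M * j ≡ M * ((j + g) % p) [MOD p] := by
      have c3 : M * ((j + g) % p) ≡ M * (j + g) [MOD p] := (Nat.mod_modEq _ _).mul_left M
      refine Nat.ModEq.trans ?_ c3.symm
      rw [Nat.mul_add, Nat.add_comm]
      exact e2.symm.add_left _
    obtain ⟨r1, r2⟩ := (rw_ok bit_ok ext_ok).1 p T S Q M (M * M % p) A1 B1 A2 B2 Q1 Q2 (h + M * k)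
      (v + M * j) (k + s) (M * ((j + g) % p)) hp hrow hsq c1 c2 (Nat.mod_modEq _ _)
    have r3 := b3 p W _ (k + s) (by omega) r1 (by omega) r2
    obtain ⟨j0, u1, u2, u3⟩ := half M p (df p A2 B2) ((j + g) % p) (Nat.mod_lt _ (by omega))
    have r4 := sym_bit W p (fun j => ones W &&& per p W (rw2 p T S Q (M * M % p) (df p A1 B1)
      (df p Q1 Q2) ((M * M % p * (j * j) + df p A2 B2) % p))) j0 (k + s) (by
        rw [Nat.testBit_and, (b1 _ _).2 hy, Bool.true_and, u3]
        exact r3) _ u1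
    rcases u2 with u | u <;> rw [u]
    exacts [r4.1, r4.2]

theorem base (M pd K J A1 B1 A2 B2 Q1 Q2 : ℕ) (l : ML) : ∀ k : PL → Bool, Gp pd l →
    baseK M (K + pd) (ones (K + pd)) J A1 B1 A2 B2 Q1 Q2 l k = true →
      ∃ b, Bs M pd K J A1 B1 A2 B2 Q1 Q2 b ∧ k b = true := by
  induction l with
  | nil => exact fun k _ h => ⟨PL.nil, trivial, h⟩
  | cons p I T S Q L t ih =>
    intro k ⟨⟨hp, hrow, hpd⟩, ht⟩ h
    change frc (inv I M p) (fun i => @Bool.rec (fun _ => Bool)
      (baseK M (K + pd) (ones (K + pd)) J A1 B1 A2 B2 Q1 Q2 t k)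
      (baseK M (K + pd) (ones (K + pd)) J A1 B1 A2 B2 Q1 Q2 t fun t => k (PL.cons p i
        (bsS p T S Q M (K + pd) (ones (K + pd)) J A1 B1 A2 B2 Q1 Q2) t))
      (Nat.beq (M * i % p) 1)) = true at h
    rw [frc_eq] at h
    cases hb : Nat.beq (M * inv I M p % p) 1 with
    | false => rw [hb] at h; exact ih k ht h
    | true =>
      rw [hb] at h
      obtain ⟨b, h1, h2⟩ := ih _ ht h
      refine ⟨PL.cons _ _ _ b, ?_, h2⟩
      exact ⟨fun J' h v k j s k1 k2 k3 => one p _ T S Q M pd K J J' A1 B1 A2 B2 Q1 Q2 h v k j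
        hp hrow hpd (Nat.eq_of_beq_eq_true hb) s k1 k2 k3, h1⟩

theorem sha (W mo v : ℕ) (g0 : Sv) (l : PL) : ∀ k : Sv → Bool, shA W mo v g0 l k = true →
    ∃ g, k g = true ∧ ∀ u n, (l.All fun p i B =>
      (mo &&& (B >>> (v * i % p * W))).testBit (u * i % p + n) = true) → Kp g0 u n → Kp g u n := by
  induction l with
  | nil => exact fun k h => ⟨g0, h, fun _ _ _ e => e⟩
  | cons p i B t ih =>
    intro k h
    obtain ⟨g, h1, h2⟩ := ih _ h
    exact ⟨_, h1, fun u n a e acc c => h2 u n a.2 e _ (Ext.bit_land c a.1)⟩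

theorem shb (W mo v : ℕ) (l : PL) : ∀ k : Sv → Bool, shB W mo v l k = true →
    ∃ g, k g = true ∧ ∀ u n, (l.All fun p i B =>
      (mo &&& (B >>> (v * i % p * W))).testBit (u * i % p + n) = true) → Kp g u n := by
  induction l with
  | nil => exact fun k h => ⟨_, h, fun _ _ _ _ e => e⟩
  | cons p i B t ih =>
    intro k h
    obtain ⟨g, h1, h2⟩ := ih _ h
    refine ⟨_, h1, fun u n a acc c => ?_⟩
    have e : Nat.beq acc (nat_lit 0) = false := by
      cases acc with
      | zero => rw [Nat.zero_testBit] at c; exact absurd c Bool.false_ne_true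
      | succ m => rfl
    show (@Bool.rec (fun _ => ℕ) _ _ (Nat.beq acc (nat_lit 0))).testBit n = true
    rw [e]
    exact h2 u n a.2 _ (Ext.bit_land c a.1)

end GBase

theorem gbase_ok : S_GBASE := ⟨GBase.base, GBase.sha, GBase.shb⟩

end Pool.Agent.MP_2339ce_nt.NR
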