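import Pool.Agent.MP_2339ce_nt.Q2.NRGSpec

/-! Block NR, second engine: the collection of the roots. -/

set_option autoImplicit false

namespace Pool.Agent.MP_2339ce_nt.NR

namespace GCol

theorem lane_eq (L i : ℕ) : lane L i = L / 4294967296 ^ i % 4294967296 := by
  show 4294967295 &&& (L >>> (32 * i)) = _
  rw [Nat.and_comm, Nat.shiftRight_eq_div_pow, Nat.pow_mul]
  exact Nat.and_two_pow_sub_one_eq_mod _ 32

theorem dig_lt {B L z n i : ℕ} (hB : 0 < B) (hi : i < n) :
    (L + z * B ^ n) / B ^ i % B = L / B ^ i % B := by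
  obtain ⟨d, rfl⟩ := Nat.exists_eq_add_of_lt hi
  have e : z * B ^ (i + d + 1) = B ^ i * (B * (z * B ^ d)) := by
    rw [Nat.pow_succ, Nat.pow_add]
    ac_rfl
  rw [e, Nat.add_mul_div_left _ _ (Nat.pow_pos hB), Nat.add_mul_mod_self_left]

theorem dig_eq {B L z n : ℕ} (hL : L < B ^ n) (hz : z < B) : (L + z * B ^ n) / B ^ n % B = z := by
  rw [Nat.add_mul_div_right _ _ (by omega), Nat.div_eq_of_lt hL, Nat.zero_add, Nat.mod_eq_of_lt hz]

theorem dig_bd {B L z n : ℕ} (hL : L < B ^ n) (hz : z < B) : L + z * B ^ n < B ^ (n + 1) := by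
  have := Nat.mul_le_mul_right (B ^ n) (Nat.succ_le_of_lt hz)
  rw [Nat.succ_mul] at this
  rw [Nat.pow_succ, Nat.mul_comm _ B]
  omega

theorem co2_t (hb : ∀ n z y : ℕ, brk n z = true → n = y ^ 2 → y = z)
    {ih : ℕ → ℕ → ℕ → ℕ → Bool} {ok : ℕ → Bool} {L n w y z : ℕ}
    (h : co2 ih ok L n w y z = true) :
    (z * z = y ∧ ok z = true ∧ ih w (L + z * 4294967296 ^ n) (n + 1) (z + 1) = true) ∨
      ((∀ x, x ^ 2 = y → ok x ≠ true) ∧ ih w L n (z + 1) = true) := by
  unfold co2 at h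
  cases h1 : Nat.beq (Nat.mul z z) y <;> rw [h1] at h
  · cases h2 : brk y z <;> rw [h2] at h
    · exact absurd h Bool.false_ne_true
    · refine Or.inr ⟨fun x e _ => ?_, h⟩
      have := hb y z x h2 e.symm
      subst this
      exact Nat.ne_of_beq_eq_false h1 ((Nat.pow_two x).symm.trans e)
  · have e1 : z * z = y := Nat.eq_of_beq_eq_true h1
    cases h2 : ok z <;> rw [h2] at h
    · refine Or.inr ⟨fun x e k => ?_, h⟩
      rw [Nat.pow_two, ← e1] at e
      rw [Nat.mul_self_inj.1 e, h2] at k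
      exact absurd k Bool.false_ne_true
    · refine Or.inl ⟨e1, rfl, ?_⟩
      have e2 : z <<< (32 * n) = z * 4294967296 ^ n := by rw [Nat.shiftLeft_eq, Nat.pow_mul]
      rw [← e2]
      exact h

theorem col_succ (a δ U : ℕ) (ok : ℕ → Bool) (k : ℕ → ℕ → Bool) (fu acc L n s : ℕ) :
    colK a δ U ok k (fu + 1) acc L n s = @Bool.rec (fun _ => Bool)
      (co2 (colK a δ U ok k fu) ok L n (Nat.xor acc (Nat.shiftLeft (nat_lit 1) (ogA U acc)))
        (Nat.add (Nat.mul a (ogA U acc)) δ) (nwG (Nat.add (Nat.mul a (ogA U acc)) δ) s))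
      (frc L fun L => frc n fun n => k L n) (Nat.beq acc (nat_lit 0)) := rfl

theorem bit_or {acc o j : ℕ} (h : acc.testBit j = true) :
    j = o ∨ (Nat.xor acc (Nat.shiftLeft (nat_lit 1) o)).testBit j = true := by
  by_cases e : j = o
  · exact Or.inl e
  · refine Or.inr ?_
    show (acc ^^^ (1 <<< o)).testBit j = true
    rw [Nat.testBit_xor, h, Nat.one_shiftLeft, Nat.testBit_two_pow_of_ne (Ne.symm e)]
    rfl

theorem col (hb : ∀ n z y : ℕ, brk n z = true → n = y ^ 2 → y = z) {a δ U : ℕ} {ok : ℕ → Bool}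
    {k : ℕ → ℕ → Bool} (hk : ∀ z, ok z = true → z < 4294967296) (fu : ℕ) : ∀ acc L n s : ℕ,
    L < 4294967296 ^ n → colK a δ U ok k fu acc L n s = true →
      ∃ L1 n1, k L1 n1 = true ∧ n ≤ n1 ∧ (∀ i, i < n → lane L1 i = lane L i) ∧
        ∀ j z : ℕ, acc.testBit j = true → z ^ 2 = a * j + δ → ok z = true →
          ∃ i, i < n1 ∧ lane L1 i = z := by
  induction fu with
  | zero => intro acc L n s _ h; exact absurd (show false = true from h) Bool.false_ne_true
  | succ fu ih =>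
    intro acc L n s hL h
    rw [col_succ] at h
    generalize ogA U acc = o at h
    generalize nwG (Nat.add (Nat.mul a o) δ) s = z at h
    cases h1 : Nat.beq acc (nat_lit 0) <;> rw [h1] at h
    · rcases co2_t hb h with ⟨e1, e2, e3⟩ | ⟨e1, e2⟩
      · have hz := hk z e2
        obtain ⟨L1, n1, b1, b2, b3, b4⟩ := ih _ _ _ _ (dig_bd hL hz) e3
        refine ⟨L1, n1, b1, by omega, fun i hi => ?_, fun j x c1 c2 c3 => ?_⟩
        · rw [b3 i (by omega), lane_eq, lane_eq, dig_lt (by decide) hi]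
        · rcases bit_or (o := o) c1 with rfl | c4
          · refine ⟨n, b2, ?_⟩
            rw [b3 n (Nat.lt_succ_self n), lane_eq, dig_eq hL hz]
            exact Nat.mul_self_inj.1 (e1.trans (c2.symm.trans (Nat.pow_two x)))
          · exact b4 j x c4 c2 c3
      · obtain ⟨L1, n1, b1, b2, b3, b4⟩ := ih _ _ _ _ hL e2
        refine ⟨L1, n1, b1, b2, b3, fun j x c1 c2 c3 => ?_⟩
        rcases bit_or (o := o) c1 with rfl | c4
        · exact absurd c3 (e1 x c2)
        · exact b4 j x c4 c2 c3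
    · have h' : (frc L fun L => frc n fun n => k L n) = true := h
      rw [frc_eq, frc_eq] at h'
      refine ⟨L, n, h', le_rfl, fun _ _ => rfl, fun j x c1 => ?_⟩
      have e : acc = 0 := Nat.eq_of_beq_eq_true h1
      rw [e, Nat.zero_testBit] at c1
      exact absurd c1 Bool.false_ne_true

end GCol

theorem gcol_ok : R_GCOL := by
  intro hE a δ U fu acc s ok k hk h
  obtain ⟨L, n, b1, -, -, b4⟩ := GCol.col hE.2.2.1 hk fu acc 0 0 s Nat.one_pos h
  exact ⟨L, n, b1, b4⟩

end Pool.Agent.MP_2339ce_nt.NR
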