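import Pool.Agent.MP_2339ce_nt.Q2.NRTabL

/-! Block NR: the second engine, arranged for a fast evaluation. -/

set_option autoImplicit false

noncomputable section

namespace Pool.Agent.MP_2339ce_nt.NR

/-- `k n`, with `n` evaluated first -/
def frc (n : ℕ) (k : ℕ → Bool) : Bool :=
  @Nat.rec (fun _ => Bool) false (fun m _ => k m) (Nat.add n (nat_lit 1))

def frn (n : ℕ) (k : ℕ → ℕ) : ℕ :=
  @Nat.rec (fun _ => ℕ) (nat_lit 0) (fun m _ => k m) (Nat.add n (nat_lit 1))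

/-- a sieve: the class and the candidates give the candidates that are left -/
abbrev Sv : Type := ℕ → ℕ → ℕ

/-- the moduli in `(lo, pd]` that do not divide `Z` -/
def preK (Z lo pd : ℕ) (l : ML) : (ML → Bool) → Bool :=
  @ML.rec (fun _ => (ML → Bool) → Bool) (fun k => k ML.nil) (fun p I T S Q L _ ih k =>
    @Bool.rec (fun _ => Bool) (ih k) (@Bool.rec (fun _ => Bool) (ih k)
      (@Bool.rec (fun _ => Bool) (ih fun t => k (ML.cons p I T S Q L t)) (ih k)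
        (Nat.beq (Nat.mod Z p) (nat_lit 0))) (Nat.blt lo p)) (Nat.ble p pd)) l

/-- the moduli up to `pl` that do not divide `24`, with the data for patterns of length `len` -/
def prlK (len pl : ℕ) (l : ML) : (ML → Bool) → Bool :=
  @ML.rec (fun _ => (ML → Bool) → Bool) (fun k => k ML.nil) (fun p I _ _ _ L _ ih k =>
    @Bool.rec (fun _ => Bool) (ih k) (@Bool.rec (fun _ => Bool)
      (frc (ones p) fun op => frc (rep p (Nat.add (Nat.div len p) (nat_lit 2))) fun rp =>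
        ih fun t => k (ML.cons p I op rp (nat_lit 0) L t))
      (ih k) (Nat.beq (Nat.mod (nat_lit 24) p) (nat_lit 0))) (Nat.ble p pl)) l

def inv (I M p : ℕ) : ℕ :=
  Nat.mod (Nat.land (nat_lit 255) (Nat.shiftRight I (Nat.mul (nat_lit 8) (Nat.mod M p)))) p

/-- the moduli that divide `m` and are prime to `a`, with the inverse of `a` -/
def whK (a m : ℕ) (l : ML) : (ML → Bool) → Bool :=
  @ML.rec (fun _ => (ML → Bool) → Bool) (fun k => k ML.nil) (fun p I T S Q L _ ih k =>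
    @Bool.rec (fun _ => Bool) (ih k) (frc (inv I a p) fun i => @Bool.rec (fun _ => Bool) (ih k)
      (ih fun t => k (ML.cons p i T S Q L t)) (Nat.beq (Nat.mod (Nat.mul a i) p) (nat_lit 1)))
      (Nat.beq (Nat.mod m p) (nat_lit 0))) l

/-- the sieve for squares of the form `a j + δ` -/
def linC (a : ℕ) (l : ML) : (Sv → Bool) → Bool :=
  @ML.rec (fun _ => (Sv → Bool) → Bool) (fun k => k fun _ acc => acc) (fun p I op rp _ L _ ih k =>
    let i := inv I a p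
    @Bool.rec (fun _ => Bool) (ih k) (ih fun g => k fun u acc => g u (Nat.land acc (Nat.shiftRight
      (Nat.mul (Nat.land op (Nat.shiftRight L (Nat.mul i p))) rp) (Nat.mod (Nat.mul u i) p))))
      (Nat.beq (Nat.mod (Nat.mul a i) p) (nat_lit 1))) l

def horS (W oW rp p op T S Q m2 e1 e2 q : ℕ) : ℕ :=
  @Nat.rec (fun _ => ℕ) (nat_lit 0) (fun j r =>
    let D := Nat.mod (Nat.add (Nat.mul m2 (Nat.mul j j)) e2) p
    let g := Nat.mul (nat_lit 8) (Nat.mod (Nat.mul D m2) p)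
    let X := Nat.land oW (Nat.mul (Nat.land op (Nat.shiftRight Q (Nat.mul (Nat.add
      (Nat.land (nat_lit 255) (Nat.shiftRight S g)) (Nat.mod (Nat.mul (Nat.add (Nat.mul D e1) q)
        (Nat.land (nat_lit 255) (Nat.shiftRight T g))) p)) p))) rp)
    Nat.lor (Nat.lor (Nat.shiftLeft X (Nat.mul W j)) (Nat.shiftLeft X (Nat.mul W (Nat.sub p j)))) r)
    (Nat.add (Nat.div p (nat_lit 2)) (nat_lit 1))

def bsS (p T S Q M W oW J A1 B1 A2 B2 Q1 Q2 : ℕ) : ℕ :=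
  frn (Nat.mod (Nat.mul M M) p) fun m2 => frn (df p A1 B1) fun e1 => frn (df p A2 B2) fun e2 =>
    frn (df p Q1 Q2) fun q => frn (ones p) fun op =>
      frn (rep p (Nat.add (Nat.div W p) (nat_lit 2))) fun rp =>
        dbl (Nat.mul W (Nat.add J p)) (Nat.mul W p) (horS W oW rp p op T S Q m2 e1 e2 q)

def baseK (M W oW J A1 B1 A2 B2 Q1 Q2 : ℕ) (l : ML) : (PL → Bool) → Bool :=
  @ML.rec (fun _ => (PL → Bool) → Bool) (fun k => k PL.nil) (fun p I T S Q _ _ ih k =>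
    frc (inv I M p) fun i => @Bool.rec (fun _ => Bool) (ih k)
      (ih fun t => k (PL.cons p i (bsS p T S Q M W oW J A1 B1 A2 B2 Q1 Q2) t))
      (Nat.beq (Nat.mod (Nat.mul M i) p) (nat_lit 1))) l

/-- the patterns for the class `v`, without exit, followed by `g0` -/
def shA (W mo v : ℕ) (g0 : Sv) (l : PL) : (Sv → Bool) → Bool :=
  @PL.rec (fun _ => (Sv → Bool) → Bool) (fun k => k g0) (fun p i B _ ih k =>
    ih fun g => k fun u acc => g u (Nat.land acc (Nat.shiftRight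
      (Nat.land mo (Nat.shiftRight B (Nat.mul (Nat.mod (Nat.mul v i) p) W)))
      (Nat.mod (Nat.mul u i) p)))) l

/-- the same with the exit -/
def shB (W mo v : ℕ) (l : PL) : (Sv → Bool) → Bool :=
  @PL.rec (fun _ => (Sv → Bool) → Bool) (fun k => k fun _ acc => acc) (fun p i B _ ih k =>
    ih fun g => k fun u acc => @Bool.rec (fun _ => ℕ) (g u (Nat.land acc (Nat.shiftRight
      (Nat.land mo (Nat.shiftRight B (Nat.mul (Nat.mod (Nat.mul v i) p) W)))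
      (Nat.mod (Nat.mul u i) p)))) (nat_lit 0) (Nat.beq acc (nat_lit 0))) l

/-- a guess for the place of the lowest bit; nothing is proved about it -/
def ogA (U acc : ℕ) : ℕ :=
  let y := Nat.mod (Nat.gcd acc U) (nat_lit 4218691)
  Nat.mod (Nat.add
    (Nat.land (nat_lit 16777215) (Nat.shiftRight lgA (Nat.mul (nat_lit 24) (Nat.mod y (nat_lit 2039)))))
    (Nat.land (nat_lit 16777215) (Nat.shiftRight lgB (Nat.mul (nat_lit 24) (Nat.mod y (nat_lit 2069))))))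
    (nat_lit 2107292)

/-- the same for `acc < 2 ^ 2068` -/
def ogB (U acc : ℕ) : ℕ :=
  Nat.mod (Nat.land (nat_lit 16777215) (Nat.shiftRight lgB (Nat.mul (nat_lit 24)
    (Nat.mod (Nat.gcd acc U) (nat_lit 2069))))) (nat_lit 2068)

def exG (o : ℕ → ℕ) (f : ℕ → Bool) (fu : ℕ) : ℕ → Bool :=
  @Nat.rec (fun _ => ℕ → Bool) (fun _ => false)
    (fun _ ih acc => let n := o acc
      @Bool.rec (fun _ => Bool) false (let w := Nat.xor acc (Nat.shiftLeft (nat_lit 1) n)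
        @Bool.rec (fun _ => Bool) (ih w) true (Nat.beq w (nat_lit 0))) (f n)) fu

/-- `f n` holds at every bit `n` of `acc` -/
def extG (o : ℕ → ℕ) (f : ℕ → Bool) (acc : ℕ) : Bool :=
  @Bool.rec (fun _ => Bool) (exG o f (nat_lit 10000000) acc) true (Nat.beq acc (nat_lit 0))

/-- a guess for the square root; nothing is proved about it -/
def nwG (n s : ℕ) : ℕ :=
  @Nat.rec (fun _ => ℕ → ℕ) (fun s => s) (fun _ ih s => @Bool.rec (fun _ => ℕ)
    (ih (Nat.shiftRight (Nat.add s (Nat.div n s)) (nat_lit 1))) s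
    (Nat.ble s (Nat.shiftRight (Nat.add s (Nat.div n s)) (nat_lit 1)))) (nat_lit 300)
    (Nat.shiftRight (Nat.add s (Nat.div n s)) (nat_lit 1))

/-- `z ^ 2 ≤ n < (z + 1) ^ 2` -/
def brk (n z : ℕ) : Bool :=
  @Bool.rec (fun _ => Bool) false
    (Nat.ble n (Nat.add (Nat.mul z z) (Nat.mul (nat_lit 2) z))) (Nat.ble (Nat.mul z z) n)

def cl3 (a : ℕ) (f : ℕ → Bool) (n z : ℕ) : Bool :=
  @Bool.rec (fun _ => Bool) (brk n z)
    (@Bool.rec (fun _ => Bool) false (@Bool.rec (fun _ => Bool) (@Bool.rec (fun _ => Bool)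
      (f (Nat.sub a z)) true (Nat.beq z (nat_lit 0))) true (Nat.ble a (Nat.mul (nat_lit 2) z))) (f z))
    (Nat.beq (Nat.mul z z) n)

/-- the second argument -/
def kp (_a c : ℕ) : ℕ := c

/-- `f z` for all `z < a` with `z ^ 2 % a = δ`; `c` marks the candidates -/
def clG (a δ U c : ℕ) (f : ℕ → Bool) : Bool :=
  extG (ogA U) (fun j => cl3 a f (Nat.add (Nat.mul a j) δ)
    (nwG (Nat.add (Nat.mul a j) δ) (Nat.succ (Nat.shiftRight a (nat_lit 2))))) (kp a c)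

def rngF (f : ℕ → Bool) (t0 n : ℕ) : Bool :=
  @Nat.rec (fun _ => Bool) true (fun t ih =>
    @Bool.rec (fun _ => Bool) false ih (frc (Nat.add t0 t) f)) n

def rcG3 (a M W H δ1 v mk U UE c1 om Um : ℕ) (g : Sv) (wl : PL) (test : ℕ → ℕ → Bool) : Bool :=
  clG a δ1 UE c1 fun η => extG (ogB Um) (fun t =>
    let u := Nat.add η (Nat.mul a t)
    frc (Nat.add u (Nat.mul M (Nat.div (Nat.sub H u) M))) fun h =>
      extG (ogA U) (fun n => test (Nat.add h (Nat.mul M (Nat.mod n W)))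
        (Nat.add v (Nat.mul M (Nat.div n W)))) (g h mk))
    (an0 η wl om)

def rcG2 (a m M W H V1 A1 B1 A2 B2 Q1 Q2 δ1 mk U UE c1 om Um : ℕ) (wm : ML) (b0 bl : PL)
    (test : ℕ → ℕ → Bool) (v : ℕ) : Bool :=
  @Bool.rec (fun _ => Bool)
    (frc (ones (Nat.mul W (Nat.div (Nat.sub (Nat.add V1 (Nat.sub M 1)) v) M))) fun mo =>
      frc (Nat.land mo mk) fun mk1 => shB W mo v bl fun g0 => shA W mo v g0 b0 fun g =>
        rcG3 a M W H δ1 v mk1 U UE c1 om Um g (qrow a m A1 B1 A2 B2 Q1 Q2 v wm) test)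
    true (Nat.ble V1 v)

def rcG1 (a m M W J K H V0 V1 A1 B1 A2 B2 Q1 Q2 t0 tn E : ℕ) (s0 sm wl sl : ML)
    (test : ℕ → ℕ → Bool) : Bool :=
  linC a sl fun gl => frc (ones E) fun oE => frc (tw E) fun UE => frc (df a B1 A1) fun δ1 =>
    frc (gl δ1 oE) fun c1 => orr (clG a δ1 UE c1 fun _ => false)
      (frc (df a B2 A2) fun δ2 => whK a m wl fun wm => frc (ones W) fun oW =>
        baseK M W oW J A1 B1 A2 B2 Q1 Q2 s0 fun b0 => baseK M W oW J A1 B1 A2 B2 Q1 Q2 sm fun bl =>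
        frc (dbl (Nat.mul W J) W (ones K)) fun mk => frc (tw (Nat.mul W J)) fun U =>
        frc (ones m) fun om => frc (tw m) fun Um =>
        clG a δ2 UE (gl δ2 oE) fun ξ => rngF (fun t =>
          frc (fst M V0 (Nat.add ξ (Nat.mul a t)))
            (rcG2 a m M W H V1 A1 B1 A2 B2 Q1 Q2 δ1 mk U UE c1 om Um wm b0 bl test)) t0 tn)

def rectG (s0 sm wl sl : ML) (pd : ℕ) (test : ℕ → ℕ → Bool)
    (a m H0 H1 V0 V1 A1 B1 A2 B2 Q1 Q2 t0 tn : ℕ) : Bool :=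
  frc (Nat.mul a m) fun M => frc (Nat.succ (Nat.div (Nat.sub H1 H0) M)) fun K =>
    frc (Nat.add K pd) fun W => frc (Nat.succ (Nat.div (Nat.sub V1 V0) M)) fun J =>
      frc (Nat.add H0 (Nat.sub M 1)) fun H => frc Q1 fun Q1 => frc Q2 fun Q2 =>
        rcG1 a m M W J K H V0 V1 A1 B1 A2 B2 Q1 Q2 t0 tn (Nat.succ (Nat.div a 4)) s0 sm wl sl test

def rcoG (o : Bool) (s0 sm wl sl : ML) (pd : ℕ) (test : ℕ → ℕ → Bool)
    (a m H0 H1 V0 V1 A1 B1 A2 B2 Q1 Q2 t0 tn : ℕ) : Bool :=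
  @Bool.rec (fun _ => Bool) (rectG s0 sm wl sl pd test a m H0 H1 V0 V1 A1 B1 A2 B2 Q1 Q2 t0 tn)
    (rectG s0 sm wl sl pd (fun h v => test v h) a m V0 V1 H0 H1 A2 B2 A1 B1 Q1 Q2 t0 tn) o

/-- `f y` if `n = y ^ 2`; `z` is the guess for the root -/
def sqG (f : ℕ → Bool) (n z : ℕ) : Bool :=
  @Bool.rec (fun _ => Bool) (brk n z) (f z) (Nat.beq (Nat.mul z z) n)

def tG4 (ck : Ck) (N a r x s b c t : ℕ) : Bool :=
  @Bool.rec (fun _ => Bool) (@Bool.rec (fun _ => Bool) true (@Bool.rec (fun _ => Bool) true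
    (@Bool.rec (fun _ => Bool) true (@Bool.rec (fun _ => Bool) true
      (@Bool.rec (fun _ => Bool) (ck N a b c r s t) true (Nat.ble b a))
      (Nat.beq (Nat.mul a b) (Nat.add (Nat.mul r r) N)))
      (Nat.beq (Nat.mul a t) (Nat.add x (Nat.mul r s))))
      (Nat.beq (Nat.mul b c) (Nat.add (Nat.mul t t) N)))
      (Nat.beq (Nat.mul a c) (Nat.add (Nat.mul s s) N))) true (Nat.ble c b)

def tG3 (ck : Ck) (N a r x s : ℕ) : Bool :=
  tG4 ck N a r x s (Nat.div (Nat.add (Nat.mul r r) N) a) (Nat.div (Nat.add (Nat.mul s s) N) a)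
    (Nat.div (Nat.add x (Nat.mul r s)) a)

def tG2 (ck : Ck) (N a r x F : ℕ) : Bool :=
  sqG (fun Y => @Bool.rec (fun _ => Bool) true
    (tG3 ck N a r x (Nat.div (Nat.add (Nat.mul r x) Y) N))
    (Nat.beq (Nat.mod (Nat.add (Nat.mul r x) Y) N) (nat_lit 0))) F
    (nwG F (Nat.add (Nat.add (Nat.mul r x) x) (Nat.mul a N)))

/-- the test at the point `(r, x)`; `N2 = N ^ 2`, `q0 = a ^ 2 N ^ 2` -/
def tG0 (ck : Ck) (N N2 a q0 r0 r1 x0 x1 r x : ℕ) : Bool :=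
  @Bool.rec (fun _ => Bool) (@Bool.rec (fun _ => Bool) (@Bool.rec (fun _ => Bool) true
    (@Bool.rec (fun _ => Bool) true (@Bool.rec (fun _ => Bool)
      (tG2 ck N a r x (Nat.sub (Nat.add (Nat.mul (Nat.add (Nat.mul r r) N) (Nat.mul x x)) q0)
        (Nat.mul (Nat.add (Nat.mul r r) N) N2))) true (Nat.beq x N))
      (Nat.ble x0 x)) (Nat.ble r0 r)) true (Nat.ble x1 x)) true (Nat.ble r1 r)

def tGA2 (f : ℕ → ℕ → Bool) (N N2 a w x F : ℕ) : Bool :=
  sqG (u2 (fun r => f r x) N2 (Nat.mul x w)) F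
    (nwG F (Nat.add (Nat.mul x (Nat.add w (Nat.mul (nat_lit 16) N))) (Nat.mul a N2)))

/-- the test at the point `(w, x)`; `q1 = a ^ 2 N ^ 4` -/
def tGA (f : ℕ → ℕ → Bool) (N N2 N3 a q1 w x : ℕ) : Bool :=
  tGA2 f N N2 a w x (Nat.sub (Nat.add (Nat.mul (Nat.add (Nat.mul w w) N3) (Nat.mul x x)) q1)
    (Nat.mul (Nat.add (Nat.mul w w) N3) N2))

def tGB2 (f : ℕ → ℕ → Bool) (N r w F : ℕ) : Bool :=
  sqG (u2 (fun x => f r x) N (Nat.mul r w)) F
    (nwG F (Nat.mul (Nat.add r (nat_lit 16)) (Nat.add w (Nat.mul (nat_lit 16) N))))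

/-- the test at the point `(r, w)`; `q2 = a ^ 2 N ^ 3` -/
def tGB (f : ℕ → ℕ → Bool) (N N3 q2 r w : ℕ) : Bool :=
  tGB2 f N r w (Nat.sub (Nat.mul (Nat.add (Nat.mul r r) N) (Nat.add (Nat.mul w w) N3)) q2)

def jbG1 (s0 sm wl sl : ML) (lv : ℕ) (o : Bool) (m pd Wb N N2 N3 r0 r1 x0 x1 t0 tn a : ℕ)
    (f : ℕ → ℕ → Bool) : Bool :=
  @Bool.rec (fun _ => Bool)
    (@Bool.rec (fun _ => Bool)
      (rcoG o s0 sm wl sl pd (tGB f N N3 (Nat.mul (Nat.mul a a) N3)) a m r0 r1 0 Wb N 0 N3 0 0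
        (Nat.mul (Nat.mul a a) N3) t0 tn)
      (rcoG o s0 sm wl sl pd (tGA f N N2 N3 a (Nat.mul (Nat.mul a a) (Nat.mul N N3))) a m 0 Wb x0 x1
        N3 0 0 N2 (Nat.mul (Nat.mul a a) (Nat.mul N N3)) 0 t0 tn) (Nat.beq lv 1))
    (rcoG o s0 sm wl sl pd f a m r0 r1 x0 x1 N 0 0 N2 (Nat.mul (Nat.mul a a) N2) 0 t0 tn)
    (Nat.beq lv 0)

/-- a job for the sieve on rectangles -/
def jbG (ck : Ck) (ml wl : ML) (N P mk lv : ℕ) (o : Bool)
    (m p0 pd pl Z Wb a1 a2 r0 r1 x0 x1 u0 u1 : ℕ) : Bool :=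
  both (both (Nat.ble 1 a1) (both (Nat.ble 1 m)
    (both (Nat.ble p0 pd) (orr (Nat.beq lv 0) (wOK N r0 r1 x0 x1 Wb)))))
  (frc (Nat.sub u1 u0) fun tn => frc (Nat.mul N N) fun N2 => frc (cb N) fun N3 =>
    preK Z 0 p0 ml fun s0 => preK Z p0 pd ml fun sm => prlK (Nat.succ (Nat.div a2 4)) pl ml fun sl =>
      rngF (fun a => imp (el P mk a) (jbG1 s0 sm wl sl lv o m pd Wb N N2 N3 r0 r1 x0 x1 u0 tn a
        (tG0 ck N N2 a (Nat.mul (Nat.mul a a) N2) r0 r1 x0 x1))) a1 (Nat.sub a2 a1))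

/-! ### stacked rows -/

def lane (L j : ℕ) : ℕ :=
  Nat.land (nat_lit 4294967295) (Nat.shiftRight L (Nat.mul (nat_lit 32) j))

def co2 (ih : ℕ → ℕ → ℕ → ℕ → Bool) (ok : ℕ → Bool) (L n w y z : ℕ) : Bool :=
  @Bool.rec (fun _ => Bool) (@Bool.rec (fun _ => Bool) false (ih w L n (Nat.succ z)) (brk y z))
    (@Bool.rec (fun _ => Bool) (ih w L n (Nat.succ z))
      (ih w (Nat.add L (Nat.shiftLeft z (Nat.mul (nat_lit 32) n))) (Nat.add n (nat_lit 1))
        (Nat.succ z)) (ok z)) (Nat.beq (Nat.mul z z) y)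

/-- collects the roots `z` with `ok z` of the numbers `a j + δ` marked by `acc` -/
def colK (a δ U : ℕ) (ok : ℕ → Bool) (k : ℕ → ℕ → Bool) (fu : ℕ) : ℕ → ℕ → ℕ → ℕ → Bool :=
  @Nat.rec (fun _ => ℕ → ℕ → ℕ → ℕ → Bool) (fun _ _ _ _ => false)
    (fun _ ih acc L n s => @Bool.rec (fun _ => Bool)
      (co2 ih ok L n (Nat.xor acc (Nat.shiftLeft (nat_lit 1) (ogA U acc)))
        (Nat.add (Nat.mul a (ogA U acc)) δ) (nwG (Nat.add (Nat.mul a (ogA U acc)) δ) s))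
      (frc L fun L => frc n fun n => k L n) (Nat.beq acc (nat_lit 0))) fu

def al2 (P K : ℕ) : Bool :=
  Nat.beq (Nat.mod K (Nat.mul (Nat.gcd K P) (Nat.gcd K P))) (nat_lit 0)

/-- a local condition on the pair `a, x` -/
def alv (P N N2 a x : ℕ) : Bool :=
  al2 P (Nat.div (Nat.sub (Nat.add (Nat.mul x x) (Nat.mul N (Nat.mul a a))) N2) a)

def okS (P N N2 a x0 x1 z : ℕ) : Bool :=
  @Bool.rec (fun _ => Bool) (@Bool.rec (fun _ => Bool)
    (@Bool.rec (fun _ => Bool) false (alv P N N2 a z) (Nat.ble x0 z)) false (Nat.beq z N)) false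
    (Nat.ble x1 z)

def bsR (p T S Q M W oW N N2 q0 L n : ℕ) : ℕ :=
  let m2 := Nat.mod (Nat.mul M M) p
  let e1 := df p N (nat_lit 0)
  let e2 := df p (nat_lit 0) N2
  let q := df p q0 (nat_lit 0)
  let op := ones p
  let rp := rep p (Nat.add (Nat.div W p) (nat_lit 2))
  @Nat.rec (fun _ => ℕ) (nat_lit 0) (fun j r =>
    let D := Nat.mod (Nat.add (Nat.mul (lane L j) (lane L j)) e2) p
    let g := Nat.mul (nat_lit 8) (Nat.mod (Nat.mul D m2) p)
    Nat.lor (Nat.shiftLeft (Nat.land oW (Nat.mul (Nat.land op (Nat.shiftRight Q (Nat.mul (Nat.add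
      (Nat.land (nat_lit 255) (Nat.shiftRight S g)) (Nat.mod (Nat.mul (Nat.add (Nat.mul D e1) q)
        (Nat.land (nat_lit 255) (Nat.shiftRight T g))) p)) p))) rp)) (Nat.mul W j)) r) n

def stC (M W oW N N2 q0 L n : ℕ) (l : ML) : (Sv → Bool) → Bool :=
  @ML.rec (fun _ => (Sv → Bool) → Bool) (fun k => k fun _ acc => acc) (fun p I T S Q _ _ ih k =>
    let i := inv I M p
    @Bool.rec (fun _ => Bool) (ih k) (ih fun g => k fun u acc => @Bool.rec (fun _ => ℕ)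
      (g u (Nat.land acc (Nat.shiftRight (bsR p T S Q M W oW N N2 q0 L n)
        (Nat.mod (Nat.mul u i) p)))) (nat_lit 0) (Nat.beq acc (nat_lit 0)))
      (Nat.beq (Nat.mod (Nat.mul M i) p) (nat_lit 1))) l

/-- the rows `lane L j`, `j < n`, for all the classes of `r` -/
def stk2 (N N2 a W oW oK δ1 UE c1 L n : ℕ) (sm : ML) (test : ℕ → ℕ → Bool) : Bool :=
  frc (Nat.mul (Nat.mul a a) N2) fun q0 => stC a W oW N N2 q0 L n sm fun g =>
    frc (dbl (Nat.mul W n) W oK) fun mk => frc (tw (Nat.mul W n)) fun U =>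
      clG a δ1 UE c1 fun η => extG (ogA U) (fun b =>
        test (Nat.add η (Nat.mul a (Nat.mod b W))) (lane L (Nat.div b W))) (g η mk)

/-- `k` is called unless `- N` has no square root modulo `a` -/
def stk0 (N a len : ℕ) (sl : ML) (k : Sv → ℕ → ℕ → ℕ → Bool) : Bool :=
  frc (Nat.succ (Nat.div a 4)) fun E => both (Nat.ble E len) (linC a sl fun gl =>
    frc (tw E) fun UE => frc (df a 0 N) fun δ1 => frc (gl δ1 (ones E)) fun c1 =>
      orr (clG a δ1 UE c1 fun _ => false) (k gl δ1 UE c1))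

def stk1 (P N N2 a W oW oK x0 x1 len : ℕ) (sm sl : ML) (test : ℕ → ℕ → Bool) : Bool :=
  stk0 N a len sl fun gl δ1 UE c1 => frc (Nat.mod N2 a) fun δ =>
    frc (Nat.add δ (Nat.mul a (Nat.div (Nat.sub (Nat.mul x0 x0) δ) a))) fun δ2 =>
      frc (Nat.succ (Nat.div (Nat.sub (Nat.mul x1 x1) δ2) a)) fun E => both (Nat.ble E len)
        (frc (tw E) fun U => colK a δ2 U (okS P N N2 a x0 x1) (fun L n =>
          orr (Nat.beq n 0) (stk2 N N2 a W oW oK δ1 UE c1 L n sm test)) (nat_lit 1000000)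
          (gl δ2 (ones E)) 0 0 (Nat.succ x0))

/-- the common start of the two jobs with rows -/
def stS (ml : ML) (N pd pl Z len a1 r1 x1 : ℕ) (k : ℕ → ℕ → ℕ → ℕ → ML → ML → Bool) : Bool :=
  both (both (Nat.ble 1 a1) (Nat.ble x1 4294967296))
    (frc (Nat.mul N N) fun N2 => frc (Nat.succ (Nat.div r1 a1)) fun K => frc (Nat.add K pd) fun W =>
      frc (ones W) fun oW => frc (ones K) fun oK => preK Z 0 pd ml fun sm =>
        prlK len pl ml fun sl => k N2 W oW oK sm sl)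

/-- a job with stacked rows, one stack for each `a` -/
def jbS (ck : Ck) (ml : ML) (N P mk pd pl Z len a1 a2 r0 r1 x0 x1 : ℕ) : Bool :=
  stS ml N pd pl Z len a1 r1 x1 fun N2 W oW oK sm sl =>
    rngF (fun a => imp (el P mk a)
      (stk1 P N N2 a W oW oK x0 x1 len sm sl
        (tG0 ck N N2 a (Nat.mul (Nat.mul a a) N2) r0 r1 x0 x1))) a1 (Nat.sub a2 a1)

/-- `f d` for the divisors `d` of `D` in `[d0, d0 + n)` -/
def dvs (f : ℕ → Bool) (D d0 n : ℕ) : Bool :=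
  @Nat.rec (fun _ => Bool) true (fun t ih => @Bool.rec (fun _ => Bool) ih
    (@Bool.rec (fun _ => Bool) false ih (f (Nat.add d0 t)))
    (Nat.beq (Nat.mod D (Nat.add d0 t)) (nat_lit 0))) n

/-- a job with one row for each pair `a, x` -/
def jbP (ck : Ck) (ml : ML) (N P mk pd pl Z len a1 a2 r0 r1 x0 x1 : ℕ) : Bool :=
  stS ml N pd pl Z len a1 r1 x1 fun N2 W oW oK sm sl =>
    rngF (fun x => orr (Nat.beq x N) (frc (ab (Nat.mul x x) N2) fun D =>
      frc (Nat.succ (Nat.div D a2)) fun d0 => dvs (fun d => frc (Nat.div D d) fun a =>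
        imp (el P mk a) (imp (alv P N N2 a x) (stk0 N a len sl fun _ δ1 UE c1 =>
          stk2 N N2 a W oW oK δ1 UE c1 x 1 sm
            (tG0 ck N N2 a (Nat.mul (Nat.mul a a) N2) r0 r1 x0 x1))))
        D d0 (Nat.sub (Nat.succ (Nat.div D a1)) d0))) x0 (Nat.sub x1 x0)

/-- a plan: jobs at the leaves, cuts in `a`, `r`, `x` at the nodes -/
inductive Pg : Type
  | lg (lv : ℕ) (o : Bool) (m p0 pd pl Wb : ℕ) : Pg
  | ls (pd pl len : ℕ) : Pg
  | lp (pd pl len : ℕ) : Pg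
  | sk : Pg
  | na (c : ℕ) (l r : Pg) : Pg
  | nr (c : ℕ) (l r : Pg) : Pg
  | nx (c : ℕ) (l r : Pg) : Pg

/-- the box holds no triple with `x ≠ N` -/
def skp (N a1 a2 r0 r1 x0 x1 : ℕ) : Bool :=
  orr (Nat.ble (Nat.add (Nat.mul r1 r1) N) (Nat.mul a1 a1))
    (orr (both (Nat.ble N x0) (Nat.ble x1 (Nat.succ N)))
      (orr (both (Nat.ble (Nat.mul x1 x1) a1) (Nat.blt (Nat.mul N N) a1))
        (both (Nat.ble x1 N) (Nat.ble (Nat.mul (Nat.mul a2 a2) (Nat.mul N N))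
          (Nat.mul (Nat.add (Nat.mul r0 r0) N)
            (Nat.sub (Nat.mul N N) (Nat.mul (Nat.sub x1 1) (Nat.sub x1 1))))))))

def ru1 (ck : Ck) (ml wl : ML) (N P mk Z : ℕ) (pl : Pg) : ℕ → ℕ → ℕ → ℕ → ℕ → ℕ → Bool :=
  @Pg.rec (fun _ => ℕ → ℕ → ℕ → ℕ → ℕ → ℕ → Bool)
    (fun lv o m p0 pd pl Wb a1 a2 r0 r1 x0 x1 =>
      jbG ck ml wl N P mk lv o m p0 pd pl Z Wb a1 a2 r0 r1 x0 x1 (nat_lit 0) m)
    (fun pd pl len a1 a2 r0 r1 x0 x1 => jbS ck ml N P mk pd pl Z len a1 a2 r0 r1 x0 x1)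
    (fun pd pl len a1 a2 r0 r1 x0 x1 => jbP ck ml N P mk pd pl Z len a1 a2 r0 r1 x0 x1)
    (fun a1 a2 r0 r1 x0 x1 => skp N a1 a2 r0 r1 x0 x1)
    (fun c _ _ il ir a1 a2 r0 r1 x0 x1 => both (il a1 c r0 r1 x0 x1) (ir c a2 r0 r1 x0 x1))
    (fun c _ _ il ir a1 a2 r0 r1 x0 x1 => both (il a1 a2 r0 c x0 x1) (ir a1 a2 c r1 x0 x1))
    (fun c _ _ il ir a1 a2 r0 r1 x0 x1 => both (il a1 a2 r0 r1 x0 c) (ir a1 a2 r0 r1 c x1)) pl

end Pool.Agent.MP_2339ce_nt.NR
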