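import Pool.Agent.MP_2339ce_nt.Q2.NRSpec
import Pool.Agent.MP_2339ce_nt.Q2.NRG

/-! Block NR, second engine: the row statements. -/

set_option autoImplicit false

noncomputable section

namespace Pool.Agent.MP_2339ce_nt.NR

theorem frc_eq (n : ℕ) (k : ℕ → Bool) : frc n k = k n := (rfl : frc n k = k n).trans rfl

theorem frn_eq (n : ℕ) (k : ℕ → ℕ) : frn n k = k n := (rfl : frn n k = k n).trans rfl

/-- good tables for the moduli up to `pd` -/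
def Gp (pd : ℕ) (l : ML) : Prop := l.All fun p _ T S Q _ => 2 ≤ p ∧ RowOk p T S Q ∧ p ≤ pd

/-- good data for the patterns of length `len` -/
def Gl (len : ℕ) (l : ML) : Prop := l.All fun p _ op rp _ L =>
  2 ≤ p ∧ LinOk p L ∧ op = ones p ∧ rp = rep p (len / p + 2)

/-- the sieve keeps the bit `n` in the class `u` -/
def Kp (g : Sv) (u n : ℕ) : Prop :=
  ∀ acc : ℕ, acc.testBit n = true → (g u acc).testBit n = true

/-- the sieve keeps all squares `a j + δ` -/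
def Ls (a len : ℕ) (g : Sv) : Prop := ∀ δ j z : ℕ, z ^ 2 = a * j + δ → j < len → Kp g δ j

/-- `c` marks all the squares `a j + δ` with `j ≤ a / 4` -/
def Mk (a δ c : ℕ) : Prop := ∀ j z : ℕ, z ^ 2 = a * j + δ → j < a / 4 + 1 → c.testBit j = true

/-- the periodic patterns keep every solution -/
def Bs (M pd K J A1 B1 A2 B2 Q1 Q2 : ℕ) (l : PL) : Prop := l.All fun p i B =>
  ∀ J' h v k j : ℕ, Sq A1 B1 A2 B2 Q1 Q2 (h + M * k) (v + M * j) → k < K → j < J' → j < J →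
    (ones ((K + pd) * J') &&& (B >>> (v * i % p * (K + pd)))).testBit
      (h * i % p + ((K + pd) * j + k)) = true

def S_GPRE : Prop :=
  (∀ (Z lo pd pd' : ℕ) (l : ML) (k : ML → Bool), Good l → pd ≤ pd' → preK Z lo pd l k = true →
    ∃ t, Gp pd' t ∧ k t = true) ∧
  (∀ (len pl : ℕ) (l : ML) (k : ML → Bool), Good l → prlK len pl l k = true →
    ∃ t, Gl len t ∧ k t = true) ∧
  (∀ (a m : ℕ) (l : ML) (k : ML → Bool), Good l → 0 < m → whK a m l k = true →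
    ∃ t, Stp a m t ∧ (t.All fun p _ _ _ _ _ => p ∣ m) ∧ k t = true) ∧
  ∀ (a len : ℕ) (l : ML) (k : Sv → Bool), Gl len l → linC a l k = true →
    ∃ g, Ls a len g ∧ k g = true

def S_GEXT : Prop :=
  (∀ (o : ℕ → ℕ) (f : ℕ → Bool) (acc n : ℕ), extG o f acc = true → acc.testBit n = true →
    f n = true) ∧
  (∀ (f : ℕ → Bool) (t0 n t : ℕ), rngF f t0 n = true → t0 ≤ t → t < t0 + n → f t = true) ∧
  (∀ n z y : ℕ, brk n z = true → n = y ^ 2 → y = z) ∧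
  (∀ (f : ℕ → Bool) (y z : ℕ), sqG f (y ^ 2) z = true → f y = true) ∧
  (∀ (a A B U c h : ℕ) (f : ℕ → Bool), 0 < a → Mk a (df a B A) c → clG a (df a B A) U c f = true →
    (a : ℤ) ∣ (h : ℤ) ^ 2 + A - B → f (h % a) = true) ∧
  ∀ (f : ℕ → Bool) (D d0 n d : ℕ), dvs f D d0 n = true → d0 ≤ d → d < d0 + n → d ∣ D → f d = true

def S_GBASE : Prop :=
  (∀ (M pd K J A1 B1 A2 B2 Q1 Q2 : ℕ) (l : ML) (k : PL → Bool), Gp pd l →
    baseK M (K + pd) (ones (K + pd)) J A1 B1 A2 B2 Q1 Q2 l k = true →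
      ∃ b, Bs M pd K J A1 B1 A2 B2 Q1 Q2 b ∧ k b = true) ∧
  (∀ (W mo v : ℕ) (g0 : Sv) (l : PL) (k : Sv → Bool), shA W mo v g0 l k = true →
    ∃ g, k g = true ∧ ∀ u n, (l.All fun p i B =>
      (mo &&& (B >>> (v * i % p * W))).testBit (u * i % p + n) = true) → Kp g0 u n → Kp g u n) ∧
  ∀ (W mo v : ℕ) (l : PL) (k : Sv → Bool), shB W mo v l k = true →
    ∃ g, k g = true ∧ ∀ u n, (l.All fun p i B =>
      (mo &&& (B >>> (v * i % p * W))).testBit (u * i % p + n) = true) → Kp g u n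

def S_GRECT : Prop := ∀ (s0 sm wl sl : ML) (pd len : ℕ) (test : ℕ → ℕ → Bool)
  (a m H0 H1 V0 V1 A1 B1 A2 B2 Q1 Q2 t0 tn h v : ℕ), Gp pd s0 → Gp pd sm → Good wl → Gl len sl →
  0 < a → 0 < m → a / 4 + 1 ≤ len →
  rectG s0 sm wl sl pd test a m H0 H1 V0 V1 A1 B1 A2 B2 Q1 Q2 t0 tn = true →
  H0 ≤ h → h < H1 → V0 ≤ v → v < V1 → (a : ℤ) ∣ (h : ℤ) ^ 2 + A1 - B1 →
  (a : ℤ) ∣ (v : ℤ) ^ 2 + A2 - B2 → Sq A1 B1 A2 B2 Q1 Q2 h v →
  t0 ≤ v % (a * m) / a → v % (a * m) / a < t0 + tn → test h v = true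

def S_GTST : Prop := ∀ N a b c r s t x : ℕ, Tp N a b c r s t x →
  (∀ (ck : Ck) (r0 r1 x0 x1 : ℕ), tG0 ck N (N * N) a (a * a * (N * N)) r0 r1 x0 x1 r x = true →
    x ≠ N → r0 ≤ r → r < r1 → x0 ≤ x → x < x1 → ck N a b c r s t = true) ∧
  (∀ f : ℕ → ℕ → Bool, tGA f N (N * N) (cb N) a (a * a * (N * cb N)) (ww N r s x) x = true →
    f r x = true) ∧
  ∀ f : ℕ → ℕ → Bool, tGB f N (cb N) (a * a * cb N) r (ww N r s x) = true → f r x = true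

def S_GCOL : Prop := ∀ (a δ U fu acc s : ℕ) (ok : ℕ → Bool) (k : ℕ → ℕ → Bool),
  (∀ z, ok z = true → z < 4294967296) → colK a δ U ok k fu acc 0 0 s = true →
    ∃ L n, k L n = true ∧ ∀ j z : ℕ, acc.testBit j = true → z ^ 2 = a * j + δ → ok z = true →
      ∃ i, i < n ∧ lane L i = z

/-- `P` is a product of different primes that stay prime -/
def PI (N P : ℕ) : Prop :=
  ∀ K a b y r : ℕ, K * b = y ^ 2 + N * r ^ 2 → a * b = r ^ 2 + N → Nat.gcd K P ^ 2 ∣ K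

def S_GALV : Prop := ∀ P N a b c r s t x : ℕ, PI N P → Tp N a b c r s t x →
  alv P N (N * N) a x = true

def S_GSTK : Prop :=
  (∀ (N a K pd δ1 UE c1 L n i r : ℕ) (sm : ML) (test : ℕ → ℕ → Bool), Gp pd sm → 0 < a →
    δ1 = df a 0 N → Mk a δ1 c1 →
    stk2 N (N * N) a (K + pd) (ones (K + pd)) (ones K) δ1 UE c1 L n sm test = true →
    i < n → r / a < K → (a : ℤ) ∣ (r : ℤ) ^ 2 + N - (0 : ℕ) →
    Sq N 0 0 (N * N) (a * a * (N * N)) 0 r (lane L i) → test r (lane L i) = true) ∧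
  ∀ (N a len r : ℕ) (sl : ML) (k : Sv → ℕ → ℕ → ℕ → Bool), Gl len sl → 0 < a →
    stk0 N a len sl k = true → (a : ℤ) ∣ (r : ℤ) ^ 2 + N - (0 : ℕ) →
    ∃ gl UE c1, Ls a len gl ∧ Mk a (df a 0 N) c1 ∧ k gl (df a 0 N) UE c1 = true

def S_GJG : Prop := ∀ (ck : Ck) (ml wl : ML) (N P mk lv : ℕ) (o : Bool)
  (m p0 pd pl Z Wb a1 a2 r0 r1 x0 x1 u0 u1 : ℕ), Good ml → Good wl →
  jbG ck ml wl N P mk lv o m p0 pd pl Z Wb a1 a2 r0 r1 x0 x1 u0 u1 = true →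
    0 < m ∧ OkT ck N P mk lv o m a1 a2 r0 r1 x0 x1 u0 u1

def S_GJS : Prop := ∀ (ck : Ck) (ml : ML) (N P mk pd pl Z len a1 a2 r0 r1 x0 x1 : ℕ), Good ml →
  PI N P → (jbS ck ml N P mk pd pl Z len a1 a2 r0 r1 x0 x1 = true → Ok ck N P mk a1 a2 r0 r1 x0 x1) ∧
  (jbP ck ml N P mk pd pl Z len a1 a2 r0 r1 x0 x1 = true → Ok ck N P mk a1 a2 r0 r1 x0 x1)

def S_GSKP : Prop := ∀ (ck : Ck) (N P mk a1 a2 r0 r1 x0 x1 : ℕ),
  skp N a1 a2 r0 r1 x0 x1 = true → Ok ck N P mk a1 a2 r0 r1 x0 x1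

def R_GRECT : Prop := S_GPRE → S_GEXT → S_GBASE → S_GRECT

def R_GTST : Prop := S_GEXT → S_GTST ∧ S_GALV ∧ S_GSKP

def R_GCOL : Prop := S_GEXT → S_GCOL

def R_GSTK : Prop := S_GPRE → S_GEXT → S_GSTK

def R_GJS : Prop := S_GPRE → S_GEXT → S_GTST → S_GCOL → S_GALV → S_GSTK → S_GJS

end Pool.Agent.MP_2339ce_nt.NR
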