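import Mathlib.Tactic.Ring
import Mathlib.Tactic.Linarith
import Mathlib.Tactic.LinearCombination
import Pool.Agent.MP_2339ce_nt.Q2.NRGSpec
import Pool.Agent.MP_2339ce_nt.Q2.NRExt

/-! Block NR, second engine, row GEXT: the elementary loops. -/

set_option autoImplicit false

noncomputable section

namespace Pool.Agent.MP_2339ce_nt.NR

namespace GExt

theorem exG_ok (o : ℕ → ℕ) (f : ℕ → Bool) (n F : ℕ) : ∀ acc : ℕ, exG o f F acc = true →
    acc.testBit n = true → f n = true := by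
  induction F with
  | zero => exact fun acc h _ => absurd h Bool.false_ne_true
  | succ F ih =>
    intro acc h hb
    obtain ⟨h2, h3⟩ := (Ext.both_iff (f (o acc)) (orr (Nat.beq (acc ^^^ (1 <<< o acc)) 0)
      (exG o f F (acc ^^^ (1 <<< o acc))))).1 h
    by_cases hn : o acc = n
    · rw [← hn]
      exact h2
    · have k : (acc ^^^ (1 <<< o acc)).testBit n = true := by
        rw [Nat.testBit_xor, hb, Nat.one_shiftLeft, Nat.testBit_two_pow_of_ne hn]
        rfl
      rcases (Ext.orr_iff _ _).1 h3 with h0 | h1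
      · rw [Nat.eq_of_beq_eq_true h0] at k
        simp at k
      · exact ih _ h1 k

theorem extG_ok (o : ℕ → ℕ) (f : ℕ → Bool) (acc n : ℕ) (h : extG o f acc = true)
    (hb : acc.testBit n = true) : f n = true := by
  unfold extG at h
  generalize (nat_lit 10000000) = F at h
  rcases (Ext.orr_iff (Nat.beq acc 0) (exG o f F acc)).1 h with h0 | h1
  · rw [Nat.eq_of_beq_eq_true h0] at hb
    simp at hb
  · exact exG_ok o f n F acc h1 hb

theorem rngF_ok (f : ℕ → Bool) (t0 n t : ℕ) : rngF f t0 n = true → t0 ≤ t → t < t0 + n →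
    f t = true := by
  induction n with
  | zero => intro _ h1 h2; omega
  | succ n ih =>
    intro h h1 h2
    obtain ⟨h3, h4⟩ := (Ext.both_iff (frc (t0 + n) f) (rngF f t0 n)).1 h
    rw [frc_eq] at h3
    by_cases e : t = t0 + n
    · rw [e]
      exact h3
    · exact ih h4 h1 (by omega)

theorem brk_ok (n z y : ℕ) (h : brk n z = true) (e : n = y ^ 2) : y = z := by
  obtain ⟨h1, h2⟩ := (Ext.both_iff (Nat.ble (z * z) n) (Nat.ble n (z * z + 2 * z))).1 h
  have h3 := Nat.le_of_ble_eq_true h1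
  have h4 := Nat.le_of_ble_eq_true h2
  rw [e, pow_two] at h3 h4
  have h5 : z ≤ y := Nat.mul_self_le_mul_self_iff.1 h3
  have h6 : y < z + 1 := Nat.mul_self_lt_mul_self_iff.1 (by
    rw [show (z + 1) * (z + 1) = z * z + 2 * z + 1 by ring]
    exact Nat.lt_succ_of_le h4)
  omega

theorem sqG_ok (f : ℕ → Bool) (y z : ℕ) (h : sqG f (y ^ 2) z = true) : f y = true := by
  unfold sqG at h
  cases hb : Nat.beq (Nat.mul z z) (y ^ 2) with
  | true =>
    rw [hb] at h
    have h1 : z * z = y ^ 2 := Nat.eq_of_beq_eq_true hb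
    have h2 : z = y := Nat.mul_self_inj.1 (by rw [h1, pow_two])
    rw [← h2]
    exact h
  | false =>
    rw [hb] at h
    have h3 : z * z ≠ y ^ 2 := Nat.ne_of_beq_eq_false hb
    exact absurd (by rw [brk_ok _ z y h rfl, pow_two]) h3

theorem cl3_eq (a : ℕ) (f : ℕ → Bool) (n z : ℕ) : cl3 a f n z =
    sqG (fun y => both (f y) (orr (Nat.ble a (2 * y)) (orr (Nat.beq y 0) (f (a - y))))) n z := rfl

theorem clG_ok (a A B U c h : ℕ) (f : ℕ → Bool) (ha : 0 < a) (hm : Mk a (df a B A) c)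
    (hc : clG a (df a B A) U c f = true) (hd : (a : ℤ) ∣ (h : ℤ) ^ 2 + A - B) :
    f (h % a) = true := by
  obtain ⟨d1, d2⟩ := Ext.df_ok a B A ha
  have key : ∀ z : ℕ, 2 * z ≤ a → (a : ℤ) ∣ (z : ℤ) ^ 2 + A - B →
      f z = true ∧ (a ≤ 2 * z ∨ z = 0 ∨ f (a - z) = true) := fun z h2 k => by
    have e : z ^ 2 % a = df a B A := by
      rw [← Nat.mod_eq_of_lt d1]
      refine Int.natCast_modEq_iff.1 (Int.ModEq.trans ?_ d2.symm)
      refine (Int.modEq_iff_dvd.2 ?_).symm
      rwa [show ((z ^ 2 : ℕ) : ℤ) - (B - A) = (z : ℤ) ^ 2 + A - B by push_cast; ring]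
    have e1 : z ^ 2 = a * (z ^ 2 / a) + df a B A := by rw [← e, Nat.div_add_mod]
    have e2 : z ^ 2 / a < a / 4 + 1 := by
      refine Nat.lt_succ_of_le ((Nat.le_div_iff_mul_le (by omega)).2 ?_)
      refine Nat.le_of_mul_le_mul_right ?_ ha
      have := Nat.div_mul_le_self (z ^ 2) a
      nlinarith [Nat.mul_le_mul h2 h2]
    have e3 := extG_ok _ _ _ _ hc (hm _ z e1 e2)
    have e4 : Nat.add (Nat.mul a (z ^ 2 / a)) (df a B A) = z ^ 2 := e1.symm
    beta_reduce at e3
    rw [e4, cl3_eq] at e3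
    obtain ⟨k1, k2⟩ := (Ext.both_iff _ _).1 (sqG_ok _ _ _ e3)
    exact ⟨k1, ((Ext.orr_iff _ _).1 k2).imp Nat.le_of_ble_eq_true fun k3 =>
      ((Ext.orr_iff _ _).1 k3).imp Nat.eq_of_beq_eq_true id⟩
  have h1 := Nat.mod_lt h ha
  have h0 : (a : ℤ) ∣ ((h % a : ℕ) : ℤ) ^ 2 + A - B := by
    have e : (h : ℤ) = a * (h / a : ℕ) + (h % a : ℕ) := by exact_mod_cast (Nat.div_add_mod h a).symm
    obtain ⟨c, hc⟩ := hd
    exact ⟨c - (h / a : ℕ) * (h + (h % a : ℕ)), by
      linear_combination hc - ((h : ℤ) + (h % a : ℕ)) * e⟩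
  generalize h % a = z at h0 h1
  by_cases h2 : 2 * z ≤ a
  · exact (key z h2 h0).1
  · obtain ⟨c, hc'⟩ := h0
    rcases (key (a - z) (by omega) ⟨c + a - 2 * z, by
      rw [Nat.cast_sub h1.le]; linear_combination hc'⟩).2 with k | k | k
    · omega
    · omega
    · rwa [Nat.sub_sub_self h1.le] at k

theorem dvs_ok (f : ℕ → Bool) (D d0 n d : ℕ) : dvs f D d0 n = true → d0 ≤ d → d < d0 + n → d ∣ D →
    f d = true := by
  induction n with
  | zero => intro _ h1 h2; omega
  | succ n ih =>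
    intro h h1 h2 h3
    have e : dvs f D d0 (n + 1) = @Bool.rec (fun _ => Bool) (dvs f D d0 n)
        (both (f (d0 + n)) (dvs f D d0 n)) (Nat.beq (D % (d0 + n)) 0) := rfl
    rw [e] at h
    cases hb : Nat.beq (D % (d0 + n)) 0 with
    | true =>
      rw [hb] at h
      obtain ⟨h4, h5⟩ := (Ext.both_iff _ _).1 h
      by_cases q : d = d0 + n
      · rw [q]
        exact h4
      · exact ih h5 h1 (by omega) h3
    | false =>
      rw [hb] at h
      have q : d ≠ d0 + n := fun q =>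
        Nat.ne_of_beq_eq_false hb (Nat.mod_eq_zero_of_dvd (q ▸ h3))
      exact ih h h1 (by omega) h3

end GExt

theorem gext_ok : S_GEXT :=
  ⟨GExt.extG_ok, GExt.rngF_ok, GExt.brk_ok, GExt.sqG_ok, GExt.clG_ok, GExt.dvs_ok⟩

end Pool.Agent.MP_2339ce_nt.NR
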