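import Pool.Agent.MP_2339ce_nt.Q2.NRSpec

/-! Block NR: jobs, plans and the rules that join boxes. -/

set_option autoImplicit false

namespace Pool.Agent.MP_2339ce_nt.NR

theorem both_t {x y : Bool} (h : both x y = true) : x = true ∧ y = true := by
  cases x
  · exact absurd h (by simp [both])
  · exact ⟨rfl, h⟩

theorem imp_t {x y : Bool} (h : imp x y = true) (hx : x = true) : y = true := by
  subst hx; exact h

theorem orr_t {x y : Bool} (h : orr x y = true) : x = true ∨ y = true := by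
  cases x
  · exact Or.inr h
  · exact Or.inl rfl

theorem sq_swap {A1 B1 A2 B2 Q1 Q2 h v : ℕ} (H : Sq A1 B1 A2 B2 Q1 Q2 h v) :
    Sq A2 B2 A1 B1 Q1 Q2 v h := by
  obtain ⟨z, hz⟩ := H
  exact ⟨z, by rw [hz, Int.mul_comm]⟩

theorem rco_ok (hR : S_RECT) {o : Bool} {ml : ML} {p0 pd pl : ℕ} {test : ℕ → ℕ → Bool}
    {a m H0 H1 V0 V1 A1 B1 A2 B2 Q1 Q2 Z t0 tn h v : ℕ} (hG : Good ml)
    (H : rco o ml p0 pd pl test a m H0 H1 V0 V1 A1 B1 A2 B2 Q1 Q2 Z t0 tn = true)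
    (h1 : H0 ≤ h) (h2 : h < H1) (h3 : V0 ≤ v) (h4 : v < V1)
    (d1 : (a : ℤ) ∣ (h : ℤ) ^ 2 + A1 - B1) (d2 : (a : ℤ) ∣ (v : ℤ) ^ 2 + A2 - B2)
    (hS : Sq A1 B1 A2 B2 Q1 Q2 h v)
    (c1 : t0 ≤ (if o = true then h else v) % (a * m) / a)
    (c2 : (if o = true then h else v) % (a * m) / a < t0 + tn) : test h v = true := by
  cases o
  · exact hR ml p0 pd pl test a m H0 H1 V0 V1 A1 B1 A2 B2 Q1 Q2 Z t0 tn h v hG H h1 h2 h3 h4 d1 d2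
      hS c1 c2
  · exact hR ml p0 pd pl (fun h v => test v h) a m V0 V1 H0 H1 A2 B2 A1 B1 Q1 Q2 Z t0 tn v h hG H
      h3 h4 h1 h2 d2 d1 (sq_swap hS) c1 c2

variable {ck : Ck} {N P mk lv : ℕ} {o : Bool} {m a1 a2 r0 r1 x0 x1 u0 u1 : ℕ}

theorem ja (c : ℕ) (h1 : Ok ck N P mk a1 c r0 r1 x0 x1) (h2 : Ok ck N P mk c a2 r0 r1 x0 x1) :
    Ok ck N P mk a1 a2 r0 r1 x0 x1 := fun a b c' r s t x T e n k1 k2 k3 k4 k5 k6 =>
  (Nat.lt_or_ge a c).elim (fun k => h1 a b c' r s t x T e n k1 k k3 k4 k5 k6)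
    (fun k => h2 a b c' r s t x T e n k k2 k3 k4 k5 k6)

theorem jr (c : ℕ) (h1 : Ok ck N P mk a1 a2 r0 c x0 x1) (h2 : Ok ck N P mk a1 a2 c r1 x0 x1) :
    Ok ck N P mk a1 a2 r0 r1 x0 x1 := fun a b c' r s t x T e n k1 k2 k3 k4 k5 k6 =>
  (Nat.lt_or_ge r c).elim (fun k => h1 a b c' r s t x T e n k1 k2 k3 k k5 k6)
    (fun k => h2 a b c' r s t x T e n k1 k2 k k4 k5 k6)

theorem jx (c : ℕ) (h1 : Ok ck N P mk a1 a2 r0 r1 x0 c) (h2 : Ok ck N P mk a1 a2 r0 r1 c x1) :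
    Ok ck N P mk a1 a2 r0 r1 x0 x1 := fun a b c' r s t x T e n k1 k2 k3 k4 k5 k6 =>
  (Nat.lt_or_ge x c).elim (fun k => h1 a b c' r s t x T e n k1 k2 k3 k4 k5 k)
    (fun k => h2 a b c' r s t x T e n k1 k2 k3 k4 k k6)

theorem ju (c : ℕ) (h1 : OkT ck N P mk lv o m a1 a2 r0 r1 x0 x1 u0 c)
    (h2 : OkT ck N P mk lv o m a1 a2 r0 r1 x0 x1 c u1) :
    OkT ck N P mk lv o m a1 a2 r0 r1 x0 x1 u0 u1 :=
  fun a b c' r s t x T e n k1 k2 k3 k4 k5 k6 k7 k8 =>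
  (Nat.lt_or_ge (vv lv o N r s x % (a * m) / a) c).elim
    (fun k => h1 a b c' r s t x T e n k1 k2 k3 k4 k5 k6 k7 k)
    (fun k => h2 a b c' r s t x T e n k1 k2 k3 k4 k5 k6 k k8)

theorem ot (hm : Nat.ble 1 m = true) (h : OkT ck N P mk lv o m a1 a2 r0 r1 x0 x1 0 m) :
    Ok ck N P mk a1 a2 r0 r1 x0 x1 := by
  intro a b c r s t x T e n k1 k2 k3 k4 k5 k6
  have hm' : 0 < m := Nat.le_of_ble_eq_true hm
  refine h a b c r s t x T e n k1 k2 k3 k4 k5 k6 (Nat.zero_le _) ?_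
  exact Nat.div_lt_of_lt_mul (Nat.mod_lt _ (Nat.mul_pos T.ha hm'))

theorem job1 (hE : S_EXT) (hR : S_RECT) (hW : S_ROWS) (hA : S_ALG) (hT : S_TST) (hB : S_WB) :
    S_JOB := by
  intro ck ml N P mk j a1 a2 r0 r1 x0 x1 u0 u1 hG H a b c r s t x T e n k1 k2 k3 k4 k5 k6 k7 k8
  have H1 := imp_t (hE.2.2.2.1 _ _ _ a H k1 (by show a < a1 + (a2 - a1); omega)) e
  obtain ⟨-, d1, d2, d3, s0, s1, s2⟩ := hA N a b c r s t x T
  obtain ⟨q0, qA, qB⟩ := hT N a b c r s t x T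
  refine q0 ck r0 r1 x0 x1 ?_ n k3 k4 k5 k6
  have k9 : vv j.lv j.o N r s x % (a * j.m) / a < u0 + Nat.sub u1 u0 := by
    show _ < u0 + (u1 - u0); omega
  unfold jb1 at H1
  unfold vv at k7 k9
  cases e0 : Nat.beq j.lv 0
  · have n0 : j.lv ≠ 0 := Nat.ne_of_beq_eq_false e0
    rw [e0] at H1
    rw [if_neg n0] at k7 k9
    cases e3 : Nat.beq j.lv 3
    · rw [e3] at H1
      obtain ⟨w1, H2⟩ := both_t H1
      have hw := hB N a b c r s t x r0 r1 x0 x1 j.Wb T w1 k3 k4 k5 k6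
      cases e1 : Nat.beq j.lv 1
      · rw [e1] at H2
        rw [if_neg (Nat.ne_of_beq_eq_false e1)] at k7 k9
        exact qB _ (rco_ok hR hG H2 k3 k4 (Nat.zero_le _) hw d1 d3 s2 k7 k9)
      · rw [e1] at H2
        rw [if_pos (Nat.eq_of_beq_eq_true e1)] at k7 k9
        exact qA _ (rco_ok hR hG H2 (Nat.zero_le _) hw k5 k6 d3 d2 s1 k7 k9)
    · rw [e3] at H1
      exact hW ml j.pd j.pl _ N a r1 x0 x1 j.Z r x hG H1 k4 k5 k6 n d1 d2 s0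
  · rw [e0] at H1
    rw [if_pos (Nat.eq_of_beq_eq_true e0)] at k7 k9
    exact rco_ok hR hG H1 k3 k4 k5 k6 d1 d2 s0 k7 k9

theorem run1 (hJ : S_JOB) : S_RUN := by
  intro ck ml N P mk pl
  induction pl with
  | lf j =>
    intro a1 a2 r0 r1 x0 x1 hG H
    obtain ⟨h1, h2⟩ := both_t H
    exact ot h1 (hJ ck ml N P mk j a1 a2 r0 r1 x0 x1 0 j.m hG h2)
  | sk =>
    intro a1 a2 r0 r1 x0 x1 hG H a b c r s t x T e n k1 k2 k3 k4 k5 k6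
    exfalso
    rcases orr_t H with h | h
    · have h1 : r1 * r1 + N ≤ a1 * a1 := Nat.le_of_ble_eq_true h
      have h2 : r * r ≤ r1 * r1 := Nat.mul_le_mul k4.le k4.le
      have h3 : a1 * a1 ≤ a * a := Nat.mul_le_mul k1 k1
      have h4 : a * a < a * b := Nat.mul_lt_mul_of_pos_left T.hab T.ha
      have h5 := T.hr
      rw [Nat.pow_two] at h5
      omega
    · obtain ⟨h1, h2⟩ := both_t h
      have h3 : N ≤ x0 := Nat.le_of_ble_eq_true h1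
      have h4 : x1 ≤ N + 1 := Nat.le_of_ble_eq_true h2
      omega
  | na c l r il ir =>
    intro a1 a2 r0 r1 x0 x1 hG H
    obtain ⟨h1, h2⟩ := both_t H
    exact ja c (il _ _ _ _ _ _ hG h1) (ir _ _ _ _ _ _ hG h2)
  | nr c l r il ir =>
    intro a1 a2 r0 r1 x0 x1 hG H
    obtain ⟨h1, h2⟩ := both_t H
    exact jr c (il _ _ _ _ _ _ hG h1) (ir _ _ _ _ _ _ hG h2)
  | nx c l r il ir =>
    intro a1 a2 r0 r1 x0 x1 hG H
    obtain ⟨h1, h2⟩ := both_t H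
    exact jx c (il _ _ _ _ _ _ hG h1) (ir _ _ _ _ _ _ hG h2)

theorem job_ok : R_JOB := fun hE hR hW hA hT hB =>
  ⟨job1 hE hR hW hA hT hB, run1 (job1 hE hR hW hA hT hB)⟩

end Pool.Agent.MP_2339ce_nt.NR
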