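import Pool.Agent.MP_2339ce_nt.Q2.NRGSpec
import Pool.Agent.MP_2339ce_nt.Q2.NRJob
import Pool.Agent.MP_2339ce_nt.Q2.NRAlg
import Pool.Agent.MP_2339ce_nt.Q2.NRBit

/-! Block NR, second engine: the two jobs with rows. -/

set_option autoImplicit false

namespace Pool.Agent.MP_2339ce_nt.NR

namespace GJs

theorem st_e (hP : S_GPRE) {ml : ML} {N pd pl Z len a1 r1 x1 : ℕ}
    {k : ℕ → ℕ → ℕ → ℕ → ML → ML → Bool} (hG : Good ml)
    (H : stS ml N pd pl Z len a1 r1 x1 k = true) :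
    1 ≤ a1 ∧ x1 ≤ 4294967296 ∧ ∃ sm sl, Gp pd sm ∧ Gl len sl ∧
      k (N * N) (r1 / a1 + 1 + pd) (ones (r1 / a1 + 1 + pd)) (ones (r1 / a1 + 1)) sm sl = true := by
  unfold stS at H
  obtain ⟨h1, h2⟩ := both_t H
  obtain ⟨h3, h4⟩ := both_t h1
  rw [frc_eq, frc_eq, frc_eq, frc_eq, frc_eq] at h2
  obtain ⟨sm, g1, h5⟩ := hP.1 _ _ _ pd _ _ hG le_rfl h2
  obtain ⟨sl, g2, h6⟩ := hP.2.1 _ _ _ _ hG h5
  exact ⟨Nat.le_of_ble_eq_true h3, Nat.le_of_ble_eq_true h4, sm, sl, g1, g2, h6⟩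

theorem ok_lt {P N N2 a x0 x1 z : ℕ} (h : okS P N N2 a x0 x1 z = true) : z < x1 := by
  unfold okS at h
  cases e : Nat.ble x1 z
  · exact Nat.lt_of_not_le fun q => by rw [Nat.ble_eq_true_of_le q] at e; cases e
  · rw [e] at h; cases h

theorem ok_t {P N N2 a x0 x1 z : ℕ} (h : alv P N N2 a z = true) (n : z ≠ N) (k5 : x0 ≤ z)
    (k6 : z < x1) : okS P N N2 a x0 x1 z = true := by
  have e1 : Nat.ble x1 z = false :=
    Bool.eq_false_iff.2 fun q => Nat.not_le_of_lt k6 (Nat.le_of_ble_eq_true q)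
  have e2 : Nat.beq z N = false := Bool.eq_false_iff.2 fun q => n (Nat.eq_of_beq_eq_true q)
  unfold okS
  rw [e1, e2, Nat.ble_eq_true_of_le k5]
  exact h

theorem cl_e {a N x x0 x1 : ℕ} (ha : 0 < a)
    (d : (a : ℤ) ∣ (x : ℤ) ^ 2 + (0 : ℕ) - (N * N : ℕ)) (k5 : x0 ≤ x) (k6 : x < x1) :
    ∃ j, x ^ 2 = a * j + (N * N % a + a * ((x0 * x0 - N * N % a) / a)) ∧
      j < (x1 * x1 - (N * N % a + a * ((x0 * x0 - N * N % a) / a))) / a + 1 := by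
  have e : N * N ≡ x ^ 2 [MOD a] := Nat.modEq_iff_dvd.2 (by simpa using d)
  have e1 := Nat.div_add_mod (x ^ 2) a
  rw [← show N * N % a = x ^ 2 % a from e] at e1
  generalize N * N % a = δ at *
  have h1 : x0 * x0 ≤ x ^ 2 := by rw [sq]; exact Nat.mul_le_mul k5 k5
  have h3 : x ^ 2 ≤ x1 * x1 := by rw [sq]; exact Nat.mul_le_mul k6.le k6.le
  obtain ⟨j, hj⟩ := Nat.exists_eq_add_of_le
    (Nat.div_le_div_right (c := a) (show x0 * x0 - δ ≤ x ^ 2 by omega))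
  rw [hj, Nat.mul_add] at e1
  refine ⟨j, by omega, Nat.lt_succ_of_le ((Nat.le_div_iff_mul_le ha).2 ?_)⟩
  rw [Nat.mul_comm j a]
  omega

theorem dv_e {a N x a1 a2 : ℕ} (d : (a : ℤ) ∣ (x : ℤ) ^ 2 + (0 : ℕ) - (N * N : ℕ)) (n : x ≠ N)
    (h1 : 1 ≤ a1) (k1 : a1 ≤ a) (k2 : a < a2) :
    ∃ d, d ∣ ab (x * x) (N * N) ∧ ab (x * x) (N * N) / d = a ∧ ab (x * x) (N * N) / a2 + 1 ≤ d ∧
      d ≤ ab (x * x) (N * N) / a1 := by
  have e : a ∣ ab (x * x) (N * N) := by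
    rw [← Int.natCast_dvd_natCast, Alg.ab_cast, dvd_abs]
    simpa [sq] using d
  have p : 0 < ab (x * x) (N * N) := by
    have q : x * x ≠ N * N := fun q => n (Nat.mul_self_inj.1 q)
    show 0 < x * x - N * N + (N * N - x * x)
    omega
  obtain ⟨u, hu⟩ := e
  rw [hu] at p ⊢
  have q : 0 < u := Nat.pos_of_mul_pos_left p
  refine ⟨u, Nat.dvd_mul_left _ _, Nat.mul_div_cancel a q,
    (Nat.div_lt_iff_lt_mul (by omega)).2 ?_, (Nat.le_div_iff_mul_le h1).2 ?_⟩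
  · rw [Nat.mul_comm]; exact Nat.mul_lt_mul_of_pos_left k2 q
  · rw [Nat.mul_comm]; exact Nat.mul_le_mul_right u k1

theorem lane_z {x : ℕ} (h : x < 4294967296) : lane x 0 = x := by
  show (2 ^ 32 - 1) &&& (x >>> 0) = x
  rw [Nat.shiftRight_zero, Nat.and_comm, Nat.and_two_pow_sub_one_eq_mod]
  exact Nat.mod_eq_of_lt h

theorem s1_e (hC : S_GCOL) (hV : S_GALV) (hK : S_GSTK) {P N a b c r s t x K pd x0 x1 len : ℕ}
    {sm sl : ML} {test : ℕ → ℕ → Bool} (hI : PI N P) (T : Tp N a b c r s t x) (g1 : Gp pd sm)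
    (g2 : Gl len sl) (hx : x1 ≤ 4294967296)
    (H : stk1 P N (N * N) a (K + pd) (ones (K + pd)) (ones K) x0 x1 len sm sl test = true)
    (n : x ≠ N) (k : r / a < K) (k5 : x0 ≤ x) (k6 : x < x1) : test r x = true := by
  obtain ⟨-, d1, d2, -, s0, -⟩ := alg_ok N a b c r s t x T
  unfold stk1 at H
  obtain ⟨gl, UE, c1, l1, m1, h1⟩ := hK.2 N a len r sl _ g2 T.ha H d1
  rw [frc_eq, frc_eq, frc_eq] at h1
  obtain ⟨h2, h3⟩ := both_t h1
  rw [frc_eq] at h3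
  obtain ⟨L, m, h4, h5⟩ := hC _ _ _ _ _ _ _ _ (fun z q => (ok_lt q).trans_le hx) h3
  obtain ⟨j, e, hj⟩ := cl_e T.ha d2 k5 k6
  obtain ⟨i, hi, hl⟩ := h5 j x (l1 _ j x e (hj.trans_le (Nat.le_of_ble_eq_true h2)) _
    ((bit_ok.1 _ _).2 hj)) e (ok_t (hV P N a b c r s t x hI T) n k5 k6)
  rcases orr_t h4 with h6 | h6
  · have : m = 0 := Nat.eq_of_beq_eq_true h6
    omega
  · rw [← hl] at s0 ⊢
    exact hK.1 N a K pd _ UE c1 L m i r sm test g1 T.ha rfl m1 h6 hi k d1 s0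

end GJs

open GJs in
theorem gjs_ok : R_GJS := by
  intro hP hE hT hC hV hK ck ml N P mk pd pl Z len a1 a2 r0 r1 x0 x1 hG hI
  refine ⟨fun H a b c r s t x T e n k1 k2 k3 k4 k5 k6 => ?_,
    fun H a b c r s t x T e n k1 k2 k3 k4 k5 k6 => ?_⟩
  all_goals
    obtain ⟨h1, hx, sm, sl, g1, g2, h2⟩ := st_e hP hG H
    have k : r / a < r1 / a1 + 1 := Nat.lt_succ_of_le (Nat.div_le_div k4.le k1 (by omega))
    refine (hT N a b c r s t x T).1 ck r0 r1 x0 x1 ?_ n k3 k4 k5 k6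
  · exact s1_e hC hV hK hI T g1 g2 hx
      (imp_t (hE.2.1 _ _ _ a h2 k1 (by show a < a1 + (a2 - a1); omega)) e) n k k5 k6
  · obtain ⟨-, d1, d2, -, s0, -⟩ := alg_ok N a b c r s t x T
    rcases orr_t (hE.2.1 _ _ _ x h2 k5 (by show x < x0 + (x1 - x0); omega)) with h3 | h3
    · exact absurd (Nat.eq_of_beq_eq_true h3) n
    rw [frc_eq, frc_eq] at h3
    obtain ⟨d, q1, q2, q3, q4⟩ := dv_e d2 n h1 k1 k2
    have h4 := hE.2.2.2.2.2 _ _ _ _ d h3 q3 (by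
      show d < ab (x * x) (N * N) / a2 + 1 +
        (ab (x * x) (N * N) / a1 + 1 - (ab (x * x) (N * N) / a2 + 1))
      omega) q1
    rw [frc_eq, show Nat.div (ab (Nat.mul x x) (N * N)) d = a from q2] at h4
    obtain ⟨gl, UE, c1, -, m1, h5⟩ := hK.2 N a len r sl _ g2 T.ha
      (imp_t (imp_t h4 e) (hV P N a b c r s t x hI T)) d1
    have hl := lane_z (k6.trans_le hx)
    rw [← hl] at s0
    exact hl ▸ hK.1 N a _ pd _ UE c1 x 1 0 r sm _ g1 T.ha rfl m1 h5 Nat.one_pos k d1 s0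

end Pool.Agent.MP_2339ce_nt.NR
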