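import Mathlib.Tactic.Ring
import Mathlib.Tactic.Linarith
import Mathlib.Tactic.LinearCombination
import Pool.Agent.MP_2339ce_nt.Q2.NRSpec

/-! Block NR, row CLS: the square roots in a residue class. -/

set_option autoImplicit false

namespace Pool.Agent.MP_2339ce_nt.NR

theorem cls_hit (hb : S_BIT) {a δ len pd j z : ℕ} (hz : z ^ 2 = a * j + δ) (hj : j < len) (l : ML)
    (hl : Stp a pd l) : Hit δ j (lin len l) := by
  induction l with
  | nil => trivial
  | cons p i T S Q L t ih =>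
    obtain ⟨⟨h2, -, hL, -, hi, ha⟩, ht⟩ := hl
    have hp : 0 < p := by omega
    have h1 := Nat.mod_lt (δ * i) hp
    refine ⟨hb.2.2.1 p len _ _ (by omega) (hb.2.1 p L i) (by omega)
      (hL i _ (i * z) hi (Nat.mod_lt _ hp) ?_), ih ht⟩
    have e1 : a * i ≡ 1 [MOD p] := by
      unfold Nat.ModEq
      rw [ha, Nat.mod_eq_of_lt (by omega)]
    have e2 : (δ * i % p + j) % p ≡ δ * i + a * i * j [MOD p] :=
      (Nat.mod_modEq _ _).trans ((Nat.mod_modEq _ _).add (by simpa using (e1.mul_right j).symm))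
    rw [show (i * z) ^ 2 = i * (δ * i + a * i * j) by rw [mul_pow, hz]; ring]
    exact (e2.mul_left i).symm

theorem cls_ok : R_CLS := fun hb he => by
  have rt : ∀ (a δ E s len pd j z : ℕ) (l : ML) (f : ℕ → Bool), Stp a pd l → E ≤ len →
      rts a δ E s (lin len l) f = true → z ^ 2 = a * j + δ → j < E → f z = true :=
    fun a δ E s len pd j z l f hl hE h hz hj => he.2.2.1 f s z (hz ▸ he.2.1 _ _ _ j h
      (he.1 δ j _ _ (cls_hit hb hz (by omega) l hl) ((hb.1 E j).2 hj)).1)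
  refine ⟨rt, fun a A B len pd h l f ha hl hE hc hd => ?_⟩
  obtain ⟨d1, d2⟩ := he.2.2.2.2.2 a B A ha
  have key : ∀ z : ℕ, 2 * z ≤ a → (a : ℤ) ∣ (z : ℤ) ^ 2 + A - B → cl2 a f z = true := fun z h2 k => by
    have e : z ^ 2 % a = df a B A := by
      rw [← Nat.mod_eq_of_lt d1]
      refine Int.natCast_modEq_iff.1 (Int.ModEq.trans ?_ d2.symm)
      refine (Int.modEq_iff_dvd.2 ?_).symm
      rwa [show ((z ^ 2 : ℕ) : ℤ) - (B - A) = (z : ℤ) ^ 2 + A - B by push_cast; ring]
    refine rt a _ _ a len pd (z ^ 2 / a) z l _ hl hE hc (by rw [← e, Nat.div_add_mod]) ?_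
    refine Nat.lt_succ_of_le ((Nat.le_div_iff_mul_le (by omega)).2 ?_)
    refine Nat.le_of_mul_le_mul_right ?_ ha
    have := Nat.div_mul_le_self (z ^ 2) a
    nlinarith [Nat.mul_le_mul h2 h2]
  have h1 := Nat.mod_lt h ha
  have h0 : (a : ℤ) ∣ ((h % a : ℕ) : ℤ) ^ 2 + A - B := by
    have e : (h : ℤ) = a * (h / a : ℕ) + (h % a : ℕ) := by exact_mod_cast (Nat.div_add_mod h a).symm
    obtain ⟨c, hc⟩ := hd
    exact ⟨c - (h / a : ℕ) * (h + (h % a : ℕ)), by
      linear_combination hc - ((h : ℤ) + (h % a : ℕ)) * e⟩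
  generalize h % a = z at h0 h1
  by_cases h2 : 2 * z ≤ a
  · have := key z h2 h0
    unfold cl2 at this
    cases hf : f z
    · rw [hf] at this; exact this
    · rfl
  · obtain ⟨c, hc'⟩ := h0
    have := key (a - z) (by omega) ⟨c + a - 2 * z, by
      rw [Nat.cast_sub h1.le]; linear_combination hc'⟩
    have b1 : Nat.ble a (Nat.mul 2 (a - z)) = false := by
      rw [← Bool.not_eq_true, Nat.ble_eq, Nat.mul_eq]; omega
    have b2 : Nat.beq (a - z) 0 = false := by
      rw [← Bool.not_eq_true, Nat.beq_eq]; omega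
    unfold cl2 at this
    rw [b1, b2, Nat.sub_eq, Nat.sub_sub_self h1.le] at this
    cases hf : f (a - z)
    · rw [hf] at this; exact absurd this Bool.false_ne_true
    · rw [hf] at this; exact this

end Pool.Agent.MP_2339ce_nt.NR
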