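import Pool.Agent.MP_2339ce_nt.Q2.NRGSpec
import Pool.Agent.MP_2339ce_nt.Q2.NRBit
import Pool.Agent.MP_2339ce_nt.Q2.NRExt
import Pool.Agent.MP_2339ce_nt.Q2.NRCls

/-! Block NR, second engine, row GPRE: the lists of moduli. -/

set_option autoImplicit false

namespace Pool.Agent.MP_2339ce_nt.NR

namespace GPre

theorem cs {x y : Bool} (b : Bool) (h : @Bool.rec (fun _ => Bool) x y b = true) :
    x = true ∨ (b = true ∧ y = true) := by
  cases b
  · exact Or.inl h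
  · exact Or.inr ⟨rfl, h⟩

theorem cs' {x y : Bool} (b : Bool) (h : @Bool.rec (fun _ => Bool) x y b = true) :
    x = true ∨ y = true := (cs b h).imp id And.right

theorem pre (Z lo pd pd' : ℕ) (hp : pd ≤ pd') (l : ML) : ∀ k : ML → Bool, Good l →
    preK Z lo pd l k = true → ∃ t, Gp pd' t ∧ k t = true := by
  induction l with
  | nil => exact fun k _ h => ⟨ML.nil, trivial, h⟩
  | cons p I T S Q L t ih =>
    rintro k ⟨⟨h1, h2, -⟩, h4⟩ h
    rcases cs _ h with h | ⟨e, h⟩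
    · exact ih k h4 h
    rcases cs' _ h with h | h
    · exact ih k h4 h
    rcases cs' _ h with h | h
    · obtain ⟨u, a, b⟩ := ih _ h4 h
      exact ⟨ML.cons p I T S Q L u, ⟨⟨h1, h2, (Nat.le_of_ble_eq_true e).trans hp⟩, a⟩, b⟩
    · exact ih k h4 h

theorem prl (len pl : ℕ) (l : ML) : ∀ k : ML → Bool, Good l →
    prlK len pl l k = true → ∃ t, Gl len t ∧ k t = true := by
  induction l with
  | nil => exact fun k _ h => ⟨ML.nil, trivial, h⟩
  | cons p I T S Q L t ih =>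
    rintro k ⟨⟨h1, -, h3⟩, h4⟩ h
    rcases cs' _ h with h | h
    · exact ih k h4 h
    rcases cs' _ h with h | h
    · rw [frc_eq, frc_eq] at h
      obtain ⟨u, a, b⟩ := ih _ h4 h
      exact ⟨ML.cons p I _ _ _ L u, ⟨⟨h1, h3, rfl, rfl⟩, a⟩, b⟩
    · exact ih k h4 h

theorem wh (a m : ℕ) (hm : 0 < m) (l : ML) : ∀ k : ML → Bool, Good l → whK a m l k = true →
    ∃ t, Stp a m t ∧ (t.All fun p _ _ _ _ _ => p ∣ m) ∧ k t = true := by
  induction l with
  | nil => exact fun k _ h => ⟨ML.nil, trivial, trivial, h⟩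
  | cons p I T S Q L t ih =>
    rintro k ⟨⟨h1, h2, h3⟩, h4⟩ h
    rcases cs _ h with h | ⟨e, h⟩
    · exact ih k h4 h
    rw [frc_eq] at h
    rcases cs _ h with h | ⟨e', h⟩
    · exact ih k h4 h
    obtain ⟨u, x, y, z⟩ := ih _ h4 h
    have d : p ∣ m := Nat.dvd_of_mod_eq_zero (Nat.eq_of_beq_eq_true e)
    exact ⟨ML.cons p (inv I a p) T S Q L u, ⟨⟨h1, h2, h3, Nat.le_of_dvd hm d,
      Nat.mod_lt _ (by omega), Nat.eq_of_beq_eq_true e'⟩, x⟩, ⟨d, y⟩, z⟩

theorem hit {a δ len j z p i L : ℕ} (hz : z ^ 2 = a * j + δ) (hj : j < len) (h2 : 2 ≤ p)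
    (hL : LinOk p L) (hi : i < p) (ha : a * i % p = 1) :
    (per p len (cut p L i)).testBit (δ * i % p + j) = true := by
  have hp : 0 < p := by omega
  have h1 := Nat.mod_lt (δ * i) hp
  refine bit_ok.2.2.1 p len _ _ (by omega) (bit_ok.2.1 p L i) (by omega)
    (hL i _ (i * z) hi (Nat.mod_lt _ hp) ?_)
  have e1 : a * i ≡ 1 [MOD p] := by
    unfold Nat.ModEq
    rw [ha, Nat.mod_eq_of_lt (by omega)]
  have e2 : (δ * i % p + j) % p ≡ δ * i + a * i * j [MOD p] :=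
    (Nat.mod_modEq _ _).trans ((Nat.mod_modEq _ _).add (by simpa using (e1.mul_right j).symm))
  rw [show (i * z) ^ 2 = i * (δ * i + a * i * j) by rw [mul_pow, hz]; ring]
  exact (e2.mul_left i).symm

theorem lin (a len : ℕ) (l : ML) : ∀ k : Sv → Bool, Gl len l → linC a l k = true →
    ∃ g, Ls a len g ∧ k g = true := by
  induction l with
  | nil => exact fun k _ h => ⟨fun _ acc => acc, fun _ _ _ _ _ _ e => e, h⟩
  | cons p I op rp Q L t ih =>
    rintro k ⟨⟨h1, h2, rfl, rfl⟩, h4⟩ h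
    rcases cs _ h with h | ⟨e, h⟩
    · exact ih k h4 h
    obtain ⟨g, x, y⟩ := ih _ h4 h
    refine ⟨_, fun δ j z hz hj acc hb => x δ j z hz hj _ (Ext.bit_land hb ?_), y⟩
    exact hit (i := inv I a p) hz hj h1 h2 (Nat.mod_lt _ (by omega)) (Nat.eq_of_beq_eq_true e)

end GPre

theorem gpre_ok : S_GPRE :=
  ⟨fun Z lo pd pd' l k h1 h2 h3 => GPre.pre Z lo pd pd' h2 l k h1 h3,
    fun len pl l k => GPre.prl len pl l k, fun a m l k h1 h2 h3 => GPre.wh a m h2 l k h1 h3,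
    fun a len l k => GPre.lin a len l k⟩

end Pool.Agent.MP_2339ce_nt.NR
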