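import Pool.Agent.MP_2339ce_nt.Q2.NRSpec

/-! Block NR: the sieve on a rectangle is sound. -/

set_option autoImplicit false

noncomputable section

namespace Pool.Agent.MP_2339ce_nt.NR

theorem rect_both {x y : Bool} (h : both x y = true) : x = true ∧ y = true := by
  cases x
  · exact absurd h Bool.false_ne_true
  · exact ⟨rfl, h⟩

theorem rect_orr {x y : Bool} (h : orr x y = true) : x = true ∨ y = true := by
  cases x
  · exact Or.inr h
  · exact Or.inl rfl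

theorem rect_all {F G : ℕ → ℕ → ℕ → ℕ → ℕ → ℕ → Prop}
    (h : ∀ p I T S Q L, F p I T S Q L → G p I T S Q L) : ∀ l : ML, l.All F → l.All G := by
  intro l
  induction l with
  | nil => exact fun _ => trivial
  | cons p I T S Q L t ih => exact fun x => ⟨h _ _ _ _ _ _ x.1, ih x.2⟩

theorem rect_mod (a m v : ℕ) : v % a + a * (v % (a * m) / a) = v % (a * m) := by
  have h := Nat.mod_add_div (v % (a * m)) a
  rwa [Nat.mod_mod_of_dvd v (Nat.dvd_mul_right a m)] at h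

theorem rect_lt {W j k J : ℕ} (hj : j < J) (hk : k < W) : W * j + k < W * J :=
  lt_of_lt_of_le (Nat.add_lt_add_left hk _) (by
    rw [← Nat.mul_succ]; exact Nat.mul_le_mul_left W hj)

theorem rect_dv (a b : ℕ) : Nat.div a b = a / b := rfl

theorem rect_md (a b : ℕ) : Nat.mod a b = a % b := rfl

theorem rect_bk1 (hE : S_EXT) {M W y mk U : ℕ} {l0 l : PL} {test : ℕ → ℕ → Bool}
    {x j k : ℕ} (H : bk1 M W y mk U l0 l test x = true) (hW : k < W)
    (b0 : Hit x (W * j + k) l0) (b1 : Hit x (W * j + k) l) (hm : mk.testBit (W * j + k) = true) :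
    test (x + M * k) (y + M * j) = true := by
  unfold bk1 at H
  have H := hE.2.1 _ _ _ _ H (hE.1 _ _ _ _ b1 (hE.1 _ _ _ _ b0 hm).2).1
  simp only [Nat.add_eq, Nat.mul_eq, rect_md, rect_dv] at H
  rwa [Nat.mul_add_mod, Nat.mod_eq_of_lt hW, Nat.mul_add_div (by omega), Nat.div_eq_of_lt hW,
    Nat.add_zero] at H

theorem rect_rc3 (hB : S_BIT) (hE : S_EXT) {a m M W H0 δ y mk U : ℕ} {ll l0 l wl : PL}
    {test : ℕ → ℕ → Bool} {h n : ℕ} (H : rc3 a m M W H0 δ y mk U ll l0 l wl test = true)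
    (cl : ∀ f, cls a δ ll f = true → f (h % a) = true) (hn : n < m) (hit : Hit (h % a) n wl) :
    bk1 M W y mk U l0 l test (fst M H0 (h % a + a * n)) = true := by
  unfold rc3 at H
  have H := cl _ H
  beta_reduce at H
  have H := hE.2.1 _ _ _ _ H (hE.1 _ _ _ _ hit ((hB.1 m _).2 hn)).1
  exact H

theorem rect_rc1 (hE : S_EXT) {a m M W J K H0 V0 V1 A1 B1 A2 B2 Q1 Q2 t0 tn : ℕ} {s0 sm wm : ML}
    {ll : PL} {test : ℕ → ℕ → Bool} {h v t : ℕ}
    (H : rc1 a m M W J K H0 V0 V1 A1 B1 A2 B2 Q1 Q2 t0 tn s0 sm wm ll test = true)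
    (c1 : 0 < a → ∀ f, cls a (df a B1 A1) ll f = true → f (h % a) = true)
    (c2 : 0 < a → ∀ f, cls a (df a B2 A2) ll f = true → f (v % a) = true) (t1 : t0 ≤ t)
    (t2 : t < t0 + tn) : 0 < a ∧ 0 < m ∧
      rc2 a m M W H0 V1 A1 B1 A2 B2 Q1 Q2 (df a B1 A1) (dbl (W * J) W (ones K)) (tw (W * J)) wm ll
        (base M W J A1 B1 A2 B2 Q1 Q2 s0) (base M W J A1 B1 A2 B2 Q1 Q2 sm) test
        (fst M V0 (v % a + a * t)) = true := by
  unfold rc1 at H
  obtain ⟨ha, H⟩ := rect_both H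
  obtain ⟨hm, H⟩ := rect_both H
  have ha : 0 < a := Nat.le_of_ble_eq_true ha
  refine ⟨ha, Nat.le_of_ble_eq_true hm, ?_⟩
  rcases rect_orr H with H | H
  · exact absurd (c1 ha _ H) Bool.false_ne_true
  · have H := c2 ha _ H
    beta_reduce at H
    have H := hE.2.2.2.1 _ _ _ _ H t1 t2
    exact H

theorem rect_ok : R_RECT := by
  intro hS hB hE hC hQ hA ml p0 pd pl test a m H0 H1 V0 V1 A1 B1 A2 B2 Q1 Q2 Z t0 tn h v hG H
    h0 h1 v0 v1 d1 d2 sq t1 t2
  unfold rect rc0 at H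
  simp only [Nat.add_eq, Nat.mul_eq, Nat.sub_eq, rect_dv, Nat.succ_eq_add_one] at H
  have sl := hS.1 a 24 0 pl ml hG
  have c1 := fun ha f e => hC.2 a A1 B1 (a / 4 + 1) pl h _ f ha sl le_rfl e d1
  have c2 := fun ha f e => hC.2 a A2 B2 (a / 4 + 1) pl v _ f ha sl le_rfl e d2
  obtain ⟨ha, hm, H⟩ := rect_rc1 hE H c1 c2 t1 t2
  have hM : 0 < a * m := Nat.mul_pos ha hm
  obtain ⟨e1, j, e2⟩ := hE.2.2.2.2.1 (a * m) V0 v hM v0
  obtain ⟨e3, k, e4⟩ := hE.2.2.2.2.1 (a * m) H0 h hM h0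
  rw [rect_mod] at H
  generalize fst (a * m) V0 (v % (a * m)) = y at H e1 e2
  unfold rc2 at H
  rcases rect_orr H with H | H
  · have := Nat.le_of_ble_eq_true H
    omega
  unfold rc4 at H
  simp only [Nat.add_eq, Nat.mul_eq, Nat.sub_eq, rect_dv, Nat.land_eq] at H
  have sw := hS.2.2 a m m _ (hS.1 a 1 0 m ml hG)
  have hn : h % (a * m) / a < m := Nat.div_lt_of_lt_mul (Nat.mod_lt _ hM)
  have hit := hQ a m m A1 B1 A2 B2 Q1 Q2 h v (h % a) _ y _ sw.1 sq hn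
    (rect_all (fun p _ _ _ _ _ hp => by
      have hp' : p ∣ a * m := Dvd.dvd.mul_left hp a
      rw [rect_mod]
      refine ⟨((Nat.mod_modEq h (a * m)).of_dvd hp').symm, ?_⟩
      rw [e2]
      exact ((Nat.modEq_iff_dvd' (Nat.le_add_right _ _)).2
        (by rw [Nat.add_sub_cancel_left]; exact hp'.mul_right j)).symm) _ sw.2)
  have H := rect_rc3 hB hE H (c1 ha) hn hit
  rw [rect_mod] at H
  generalize fst (a * m) H0 (h % (a * m)) = x at H e3 e4
  have hk : k < (H1 - H0) / (a * m) + 1 :=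
    Nat.lt_succ_of_le ((Nat.le_div_iff_mul_le hM).2 (by rw [Nat.mul_comm]; omega))
  have hj : j < (V1 - V0) / (a * m) + 1 :=
    Nat.lt_succ_of_le ((Nat.le_div_iff_mul_le hM).2 (by rw [Nat.mul_comm]; omega))
  have hj' : j < (V1 + (a * m - 1) - y) / (a * m) :=
    (Nat.le_div_iff_mul_le hM).2 (by rw [Nat.succ_mul, Nat.mul_comm j]; omega)
  generalize (H1 - H0) / (a * m) + 1 = K at hk H
  have hW : k < K + pd := by omega
  subst e2 e4
  have bs := fun l hl => hA (a * m) pd K _ _ A1 B1 A2 B2 Q1 Q2 x y k j l hl sq hk hj' hj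
  refine rect_bk1 hE H hW
    (bs _ (hS.2.1 _ _ _ _ (Nat.min_le_right p0 pd) (hS.1 (a * m) Z 0 _ ml hG)))
    (bs _ (hS.1 (a * m) Z p0 pd ml hG)) ?_
  rw [Nat.testBit_and, (hB.1 _ _).2 (rect_lt hj' hW),
    hB.2.2.2.2 _ _ _ _ (by omega) (rect_lt hj hW)
      (by rw [Nat.mul_add_mod, Nat.mod_eq_of_lt hW]; exact (hB.1 _ _).2 hk)]
  rfl

end Pool.Agent.MP_2339ce_nt.NR
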