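import Pool.Agent.MP_2339ce_nt.Q2.NRGSpec
import Pool.Agent.MP_2339ce_nt.Q2.NRRect
import Pool.Agent.MP_2339ce_nt.Q2.NRBit
import Pool.Agent.MP_2339ce_nt.Q2.NRExt
import Pool.Agent.MP_2339ce_nt.Q2.NRRw

/-! Block NR, second engine: the sieve on a rectangle is sound. -/

set_option autoImplicit false

noncomputable section

namespace Pool.Agent.MP_2339ce_nt.NR

namespace GRect

theorem r3 (hE : S_GEXT) {a m M W H0 δ y mk U UE c1 Um : ℕ} {g : Sv} {wl : PL}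
    {test : ℕ → ℕ → Bool} {h n x j k : ℕ}
    (H : rcG3 a M W (H0 + (M - 1)) δ y mk U UE c1 (ones m) Um g wl test = true)
    (cl : ∀ f, clG a δ UE c1 f = true → f (h % a) = true) (hn : n < m) (hit : Hit (h % a) n wl)
    (e : fst M H0 (h % a + a * n) = x) (hW : k < W) (b : Kp g x (W * j + k))
    (hm : mk.testBit (W * j + k) = true) : test (x + M * k) (y + M * j) = true := by
  unfold rcG3 at H
  have H := cl _ H
  beta_reduce at H
  have H := hE.1 _ _ _ _ H (ext_ok.1 _ _ _ _ hit ((bit_ok.1 m _).2 hn)).2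
  change frc (fst M H0 (h % a + a * n)) _ = true at H
  rw [frc_eq, e] at H
  have H := hE.1 _ _ _ _ H (b _ hm)
  simp only [Nat.add_eq, Nat.mul_eq, rect_md, rect_dv] at H
  rwa [Nat.mul_add_mod, Nat.mod_eq_of_lt hW, Nat.mul_add_div (by omega), Nat.div_eq_of_lt hW,
    Nat.add_zero] at H

theorem r2 (hB : S_GBASE) {a m M W H V1 A1 B1 A2 B2 Q1 Q2 δ mk U UE c1 om Um : ℕ} {wm : ML}
    {b0 bl : PL} {test : ℕ → ℕ → Bool} {y : ℕ}
    (e : rcG2 a m M W H V1 A1 B1 A2 B2 Q1 Q2 δ mk U UE c1 om Um wm b0 bl test y = true)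
    (hy : y < V1) : ∃ g, rcG3 a M W H δ y (ones (W * ((V1 + (M - 1) - y) / M)) &&& mk) U UE c1 om Um
      g (qrow a m A1 B1 A2 B2 Q1 Q2 y wm) test = true ∧ ∀ u n,
      (b0.All fun p i B => (ones (W * ((V1 + (M - 1) - y) / M)) &&& (B >>> (y * i % p * W))).testBit
        (u * i % p + n) = true) →
      (bl.All fun p i B => (ones (W * ((V1 + (M - 1) - y) / M)) &&& (B >>> (y * i % p * W))).testBit
        (u * i % p + n) = true) → Kp g u n := by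
  unfold rcG2 at e
  rw [show Nat.ble V1 y = false from Bool.eq_false_iff.2 fun c =>
    absurd (Nat.le_of_ble_eq_true c) (by omega)] at e
  change frc _ _ = true at e
  rw [frc_eq, frc_eq] at e
  obtain ⟨g0, e, k0⟩ := hB.2.2 _ _ _ _ _ e
  obtain ⟨g, e, k1⟩ := hB.2.1 _ _ _ _ _ _ e
  exact ⟨g, e, fun u n h0 h1 => k1 u n h0 (k0 u n h1)⟩

theorem r1 (hP : S_GPRE) (hE : S_GEXT) (hB : S_GBASE)
    {a m M pd J K H V0 V1 A1 B1 A2 B2 Q1 Q2 t0 tn len : ℕ} {s0 sm wl sl : ML}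
    {test : ℕ → ℕ → Bool} {h v t : ℕ} (g0 : Gp pd s0) (g1 : Gp pd sm) (g2 : Good wl)
    (g3 : Gl len sl) (ha : 0 < a) (hm : 0 < m) (hl : a / 4 + 1 ≤ len)
    (e : rcG1 a m M (K + pd) J K H V0 V1 A1 B1 A2 B2 Q1 Q2 t0 tn (a / 4 + 1) s0 sm wl sl test = true)
    (d1 : (a : ℤ) ∣ (h : ℤ) ^ 2 + A1 - B1) (d2 : (a : ℤ) ∣ (v : ℤ) ^ 2 + A2 - B2) (t1 : t0 ≤ t)
    (t2 : t < t0 + tn) : ∃ UE c1 wm b0 bl,
      (∀ f, clG a (df a B1 A1) UE c1 f = true → f (h % a) = true) ∧ Stp a m wm ∧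
      (wm.All fun p _ _ _ _ _ => p ∣ m) ∧ Bs M pd K J A1 B1 A2 B2 Q1 Q2 b0 ∧
      Bs M pd K J A1 B1 A2 B2 Q1 Q2 bl ∧
      rcG2 a m M (K + pd) H V1 A1 B1 A2 B2 Q1 Q2 (df a B1 A1) (dbl ((K + pd) * J) (K + pd) (ones K))
        (tw ((K + pd) * J)) UE c1 (ones m) (tw m) wm b0 bl test
        (fst M V0 (v % a + a * t)) = true := by
  unfold rcG1 at e
  obtain ⟨gl, ls, e⟩ := hP.2.2.2 _ _ _ _ g3 e
  have mk : ∀ δ, Mk a δ (gl δ (ones (a / 4 + 1))) := fun δ j z h1 h2 =>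
    ls δ j z h1 (by omega) _ ((bit_ok.1 _ _).2 h2)
  rw [frc_eq, frc_eq, frc_eq, frc_eq] at e
  have c1 := fun U f => hE.2.2.2.2.1 a A1 B1 U _ h f ha (mk _)
  rcases rect_orr e with e | e
  · exact absurd (c1 _ _ e d1) Bool.false_ne_true
  rw [frc_eq] at e
  obtain ⟨wm, w1, w2, e⟩ := hP.2.2.1 _ _ _ _ g2 hm e
  rw [frc_eq] at e
  obtain ⟨b0, s0, e⟩ := hB.1 _ _ _ _ _ _ _ _ _ _ _ _ g0 e
  obtain ⟨bl, s1, e⟩ := hB.1 _ _ _ _ _ _ _ _ _ _ _ _ g1 e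
  rw [frc_eq, frc_eq, frc_eq, frc_eq] at e
  have e := hE.2.2.2.2.1 a A2 B2 _ _ v _ ha (mk _) e d2
  beta_reduce at e
  have e := hE.2.1 _ _ _ _ e t1 t2
  beta_reduce at e
  rw [frc_eq] at e
  exact ⟨_, _, wm, b0, bl, fun f k => c1 _ f k d1, w1, w2, s0, s1, e⟩

end GRect

open GRect in
theorem grect_ok : R_GRECT := by
  intro hP hE hB s0 sm wl sl pd len test a m H0 H1 V0 V1 A1 B1 A2 B2 Q1 Q2 t0 tn h v g0 g1 g2 g3
    ha hm hl H h0 h1 v0 v1 d1 d2 sq t1 t2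
  unfold rectG at H
  rw [frc_eq, frc_eq, frc_eq, frc_eq, frc_eq, frc_eq, frc_eq] at H
  simp only [Nat.add_eq, Nat.mul_eq, Nat.sub_eq, rect_dv, Nat.succ_eq_add_one] at H
  obtain ⟨UE, c1, wm, b0, bl, cl, w1, w2, s0, s1, H⟩ :=
    r1 hP hE hB g0 g1 g2 g3 ha hm hl H d1 d2 t1 t2
  have hM : 0 < a * m := Nat.mul_pos ha hm
  obtain ⟨e1, j, e2⟩ := ext_ok.2.2.2.2.1 (a * m) V0 v hM v0
  obtain ⟨e3, k, e4⟩ := ext_ok.2.2.2.2.1 (a * m) H0 h hM h0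
  rw [rect_mod] at H
  generalize fst (a * m) V0 (v % (a * m)) = y at H e1 e2
  obtain ⟨g, H, kp⟩ := r2 hB H (by omega)
  have hn : h % (a * m) / a < m := Nat.div_lt_of_lt_mul (Nat.mod_lt _ hM)
  have hit := (rw_ok bit_ok ext_ok).2 a m m A1 B1 A2 B2 Q1 Q2 h v (h % a) _ y _ w1 sq hn
    (rect_all (fun p _ _ _ _ _ hp => by
      have hp' : p ∣ a * m := Dvd.dvd.mul_left hp a
      rw [rect_mod]
      refine ⟨((Nat.mod_modEq h (a * m)).of_dvd hp').symm, ?_⟩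
      rw [e2]
      exact ((Nat.modEq_iff_dvd' (Nat.le_add_right _ _)).2
        (by rw [Nat.add_sub_cancel_left]; exact hp'.mul_right j)).symm) _ w2)
  rw [← rect_mod a m h] at e3 e4
  have H := fun x j k => r3 (x := x) (j := j) (k := k) hE H cl hn hit
  generalize fst (a * m) H0 (h % a + a * (h % (a * m) / a)) = x at H e3 e4
  have hk : k < (H1 - H0) / (a * m) + 1 :=
    Nat.lt_succ_of_le ((Nat.le_div_iff_mul_le hM).2 (by rw [Nat.mul_comm]; omega))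
  have hj : j < (V1 - V0) / (a * m) + 1 :=
    Nat.lt_succ_of_le ((Nat.le_div_iff_mul_le hM).2 (by rw [Nat.mul_comm]; omega))
  have hj' : j < (V1 + (a * m - 1) - y) / (a * m) :=
    (Nat.le_div_iff_mul_le hM).2 (by rw [Nat.succ_mul, Nat.mul_comm j]; omega)
  generalize (H1 - H0) / (a * m) + 1 = K at hk H kp s0 s1
  have hW : k < K + pd := by omega
  subst e2 e4
  have bs : ∀ l : PL, Bs (a * m) pd K ((V1 - V0) / (a * m) + 1) A1 B1 A2 B2 Q1 Q2 l →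
      l.All fun p i B => (ones ((K + pd) * ((V1 + (a * m - 1) - y) / (a * m))) &&&
        (B >>> (y * i % p * (K + pd)))).testBit (x * i % p + ((K + pd) * j + k)) = true := by
    intro l
    induction l with
    | nil => exact fun _ => trivial
    | cons p i B t ih => exact fun c => ⟨c.1 _ x y k j sq hk hj' hj, ih c.2⟩
  refine H x j k rfl hW (kp _ _ (bs _ s0) (bs _ s1)) ?_
  rw [Nat.testBit_and, (bit_ok.1 _ _).2 (rect_lt hj' hW),
    bit_ok.2.2.2.2 _ _ _ _ (by omega) (rect_lt hj hW)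
      (by rw [Nat.mul_add_mod, Nat.mod_eq_of_lt hW]; exact (bit_ok.1 _ _).2 hk)]
  rfl

end Pool.Agent.MP_2339ce_nt.NR
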