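import Pool.Agent.MP_2339ce_nt.Q2.NRGSpec
import Pool.Agent.MP_2339ce_nt.Q2.NRBit
import Pool.Agent.MP_2339ce_nt.Q2.NRExt
import Pool.Agent.MP_2339ce_nt.Q2.NRRw
import Pool.Agent.MP_2339ce_nt.Q2.NRBase
import Pool.Agent.MP_2339ce_nt.Q2.NRJob

/-! Block NR, second engine, row GSTK: the stacked rows. -/

set_option autoImplicit false

namespace Pool.Agent.MP_2339ce_nt.NR

namespace GStk

theorem bsR_eq (p T S Q M W N N2 q0 L n : ℕ) : bsR p T S Q M W (ones W) N N2 q0 L n =
    hor W (fun j => per p W (rw1 p T S Q (M * M % p) (df p N 0) (df p 0 N2) (df p q0 0)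
      (lane L j))) n := rfl

theorem one (p i0 T S Q a pd K N N2 q0 L n i r : ℕ) (hp : 2 ≤ p) (hrow : RowOk p T S Q)
    (hpd : p ≤ pd) (hi0 : a * i0 % p = 1) (hi : i < n) (hr : r / a < K)
    (hsq : Sq N 0 0 N2 q0 0 r (lane L i)) :
    (bsR p T S Q a (K + pd) (ones (K + pd)) N N2 q0 L n).testBit
      (r % a * i0 % p + ((K + pd) * i + r / a)) = true := by
  obtain ⟨-, -, b3, b4, -⟩ := bit_ok
  have hs : r % a * i0 % p < p := Nat.mod_lt _ (by omega)
  have e1 := Base.inv_mul a i0 p (r % a) hi0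
  generalize r % a * i0 % p = s at hs e1
  have hy : r / a + s < K + pd := by omega
  generalize K + pd = W at hy
  have e3 : s + (W * i + r / a) = W * i + (r / a + s) := by omega
  rw [bsR_eq, e3]
  refine b4 W n i (r / a + s) _ hi hy ?_
  have c1 : r ≡ a * (r / a + s) [MOD p] := by
    rw [Nat.mul_add]
    conv_lhs => rw [← Nat.div_add_mod r a]
    exact e1.symm.add_left _
  obtain ⟨r1, r2⟩ := (rw_ok bit_ok ext_ok).1 p T S Q a (a * a % p) N 0 0 N2 q0 0 r (lane L i)
    (r / a + s) (lane L i) hp hrow hsq c1 (Nat.ModEq.refl _) (Nat.mod_modEq _ _)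
  exact b3 p W _ (r / a + s) (by omega) r1 (by omega) r2

theorem stC_ok (M W oW N N2 q0 L n u b : ℕ) (l : ML) :
    (l.All fun p _ T S Q _ => ∀ i0, M * i0 % p = 1 →
      (bsR p T S Q M W oW N N2 q0 L n).testBit (u * i0 % p + b) = true) →
    ∀ k : Sv → Bool, stC M W oW N N2 q0 L n l k = true → ∃ g, k g = true ∧ Kp g u b := by
  induction l with
  | nil => exact fun _ k h => ⟨fun _ acc => acc, h, fun _ ha => ha⟩
  | cons p I T S Q L' t ih =>
    rintro ⟨h1, ht⟩ k h
    change @Bool.rec (fun _ => Bool) (stC M W oW N N2 q0 L n t k)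
      (stC M W oW N N2 q0 L n t fun g => k fun u acc => @Bool.rec (fun _ => ℕ)
        (g u (acc &&& (bsR p T S Q M W oW N N2 q0 L n >>> (u * inv I M p % p)))) 0
          (Nat.beq acc 0)) (Nat.beq (M * inv I M p % p) 1) = true at h
    cases hb : Nat.beq (M * inv I M p % p) 1 with
    | false =>
      rw [hb] at h
      exact ih ht k h
    | true =>
      rw [hb] at h
      obtain ⟨g, hg, hk⟩ := ih ht _ h
      refine ⟨_, hg, fun acc ha => ?_⟩
      cases hz : Nat.beq acc 0 with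
      | true =>
        rw [Nat.eq_of_beq_eq_true hz, Nat.zero_testBit] at ha
        exact absurd ha (by decide)
      | false =>
        refine hk _ ?_
        rw [Nat.testBit_and, Nat.testBit_shiftRight, ha, h1 _ (Nat.eq_of_beq_eq_true hb)]
        rfl

theorem all_mono {F G : ℕ → ℕ → ℕ → ℕ → ℕ → ℕ → Prop}
    (h : ∀ p I T S Q L, F p I T S Q L → G p I T S Q L) (l : ML) : l.All F → l.All G := by
  induction l with
  | nil => exact fun _ => trivial
  | cons p I T S Q L t ih => exact fun hl => ⟨h _ _ _ _ _ _ hl.1, ih hl.2⟩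

end GStk

theorem gstk_ok : R_GSTK := by
  rintro ⟨-, -, -, p4⟩ ⟨x1, -, -, -, x5, -⟩
  obtain ⟨b1, -, -, -, b5⟩ := bit_ok
  constructor
  · intro N a K pd δ1 UE c1 L n i r sm test hsm ha hδ hmk h hi hr hdv hsq
    subst hδ
    unfold stk2 at h
    rw [frc_eq] at h
    obtain ⟨g, hg, hk⟩ := GStk.stC_ok a (K + pd) (ones (K + pd)) N (N * N) _ L n (r % a)
      ((K + pd) * i + r / a) sm (GStk.all_mono (fun p _ T S Q _ hF i0 hi0 =>
        GStk.one p i0 T S Q a pd K N (N * N) _ L n i r hF.1 hF.2.1 hF.2.2 hi0 hi hr hsq) sm hsm) _ h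
    rw [frc_eq, frc_eq] at hg
    have hy : r / a < K + pd := by omega
    have hW : 0 < K + pd := Nat.lt_of_le_of_lt (Nat.zero_le _) hy
    have e1 : ((K + pd) * i + r / a) % (K + pd) = r / a := by
      rw [Nat.mul_add_mod, Nat.mod_eq_of_lt hy]
    have e2 : ((K + pd) * i + r / a) / (K + pd) = i := by
      rw [Nat.mul_add_div hW, Nat.div_eq_of_lt hy, Nat.add_zero]
    have h3 := x5 a N 0 UE c1 r _ ha hmk hg hdv
    have h4 : (dbl ((K + pd) * n) (K + pd) (ones K)).testBit ((K + pd) * i + r / a) = true :=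
      b5 _ _ _ _ hW (Base.pos_lt _ i _ n hy hi) (by rw [e1, b1]; exact hr)
    have h5 := x1 _ _ _ _ h3 (hk _ h4)
    change test (r % a + a * (((K + pd) * i + r / a) % (K + pd)))
      (lane L (((K + pd) * i + r / a) / (K + pd))) = true at h5
    rwa [e1, e2, Nat.mod_add_div] at h5
  · intro N a len r sl k hsl ha h hdv
    unfold stk0 at h
    rw [frc_eq] at h
    obtain ⟨h1, h2⟩ := both_t h
    have hE : a / 4 + 1 ≤ len := Nat.le_of_ble_eq_true h1
    obtain ⟨g, hL, hg⟩ := p4 a len sl _ hsl h2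
    rw [frc_eq, frc_eq, frc_eq] at hg
    have hmk : Mk a (df a 0 N) (g (df a 0 N) (ones (a / 4 + 1))) := fun j z hz hj =>
      hL _ j z hz (by omega) _ ((b1 _ _).2 hj)
    rcases orr_t hg with h3 | h3
    · exact absurd (x5 a N 0 _ _ r _ ha hmk h3 hdv) (by decide)
    · exact ⟨g, _, _, hL, hmk, h3⟩

end Pool.Agent.MP_2339ce_nt.NR
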