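import Mathlib.Tactic.LinearCombination
import Mathlib.Tactic.Zify
import Mathlib.Tactic.Ring
import Mathlib.Algebra.Order.Ring.Int
import Mathlib.Data.Nat.Cast.Order.Ring
import Mathlib.Algebra.Order.Ring.Abs
import Pool.Agent.MP_2339ce_nt.Q2.NRSpec

/-! Block NR, row TST: the tests reach the check. -/

set_option autoImplicit false

noncomputable section

namespace Pool.Agent.MP_2339ce_nt.NR

namespace Tst

theorem imp_e {x y : Bool} (h : imp x y = true) (hx : x = true) : y = true := by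
  subst hx; exact h

theorem both_e {x y : Bool} (h : both x y = true) : x = true ∧ y = true := by
  cases x
  · exact absurd h (by simp [both])
  · exact ⟨rfl, h⟩

theorem orr_e {x y : Bool} (h : orr x y = true) (hx : x ≠ true) : y = true := by
  cases x
  · exact h
  · exact absurd rfl hx

theorem dv_e {f : ℕ → Bool} {n u k : ℕ} (h : dv f n u = true) (hn : 0 < n) (e : u = n * k) :
    f k = true := by
  subst e
  have h1 := imp_e h (Nat.beq_eq ▸ (Nat.mul_mod_right n k))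
  have h2 : Nat.div (n * k) n = k := Nat.mul_div_cancel_left k hn
  rwa [h2] at h1

theorem ab_cast (u v : ℕ) : ((ab u v : ℕ) : ℤ) = |(u : ℤ) - v| := by
  change (((u - v) + (v - u) : ℕ) : ℤ) = _
  rcases abs_cases ((u : ℤ) - v) with h | h <;> omega

theorem u2_e {f : ℕ → Bool} {n P Z k : ℕ} {u v : ℤ} (h : u2 f n P Z = true) (hn : 0 < n)
    (e : ((n * k : ℕ) : ℤ) = u + v) (hP : (P : ℤ) = |u|) (hZ : (Z : ℤ) = |v|) : f k = true := by
  obtain ⟨h1, h2⟩ := both_e h
  have : P + Z = n * k ∨ ab P Z = n * k := by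
    change _ ∨ (P - Z) + (Z - P) = _
    generalize n * k = m at e
    rcases abs_cases u with a | a <;> rcases abs_cases v with b | b <;> omega
  rcases this with a | a
  · exact dv_e h1 hn a
  · exact dv_e h2 hn a

end Tst

open Tst in
theorem tst_ok : R_TST := by
  intro hE hA N a b c r s t x T
  obtain ⟨⟨Y, y1, y2⟩, -⟩ := hA N a b c r s t x T
  have hq := hE.2.2.1
  have hN := T.hN
  have ha := T.ha
  have hw : ((ww N r s x : ℕ) : ℤ) = |(r : ℤ) * x - Y| := by
    rw [ww, ab_cast, y1]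
    congr 1
    push_cast
    ring
  have hw2 : ((ww N r s x : ℕ) : ℤ) * (ww N r s x : ℕ) = ((r : ℤ) * x - Y) ^ 2 := by
    rw [hw, ← sq, sq_abs]
  have z2 : (Y : ℤ) ^ 2 + ((r : ℤ) ^ 2 + N) * N ^ 2 = ((r : ℤ) ^ 2 + N) * x ^ 2 + a ^ 2 * N ^ 2 := by
    exact_mod_cast y2
  refine ⟨fun ck r0 r1 x0 x1 h hx h1 h2 h3 h4 => ?_, fun f h => ?_, fun f h => ?_⟩
  · have k1 := orr_e (imp_e (imp_e (imp_e (imp_e h (Nat.blt_eq ▸ h2)) (Nat.blt_eq ▸ h4))
      (Nat.ble_eq ▸ h1)) (Nat.ble_eq ▸ h3)) (by rw [Ne, Nat.beq_eq]; exact hx)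
    have e : fq N (Nat.add (Nat.mul r r) N) x (Nat.mul (Nat.mul a a) (Nat.mul N N)) = Y ^ 2 := by
      change (r * r + N) * (x * x) + a * a * (N * N) - (r * r + N) * (N * N) = _
      refine Nat.sub_eq_of_eq_add ?_
      zify
      linear_combination -z2
    rw [t1, e] at k1
    have k0 := hq _ _ _ k1
    have k2 := dv_e (f := t3 ck N a r x) (u := r * x + Y) (k := s) k0 hN y1.symm
    have eb : Nat.div (Nat.add (Nat.mul r r) N) a = b := by
      change (r * r + N) / a = b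
      rw [← sq, T.hr, Nat.mul_div_cancel_left b ha]
    have ec : Nat.div (Nat.add (Nat.mul s s) N) a = c := by
      change (s * s + N) / a = c
      rw [← sq, T.hs, Nat.mul_div_cancel_left c ha]
    have et : Nat.div (Nat.add x (Nat.mul r s)) a = t := by
      change (x + r * s) / a = t
      rw [T.hx, Nat.mul_div_cancel_left t ha]
    rw [t3, eb, ec, et] at k2
    refine imp_e (imp_e (imp_e (imp_e (imp_e (imp_e k2 (Nat.blt_eq ▸ T.hbc)) ?_) ?_) ?_) ?_)
      (Nat.blt_eq ▸ T.hab)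
    · rw [Nat.beq_eq]; change a * c = s * s + N; rw [← sq, T.hs]
    · rw [Nat.beq_eq]; change b * c = t * t + N; rw [← sq, T.ht]
    · rw [Nat.beq_eq]; exact T.hx.symm
    · rw [Nat.beq_eq]; change a * b = r * r + N; rw [← sq, T.hr]
  · generalize ww N r s x = w at *
    obtain ⟨Z, hZ⟩ := Int.eq_ofNat_of_zero_le
      (abs_nonneg ((r : ℤ) * N ^ 2 - x * ((r : ℤ) * x - Y)))
    have hZ2 : (Z : ℤ) ^ 2 = ((r : ℤ) * N ^ 2 - x * ((r : ℤ) * x - Y)) ^ 2 := by
      rw [← hZ, sq_abs]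
    have e : fq N (Nat.add (Nat.mul w w) (cb N)) x (Nat.mul (Nat.mul a a) (Nat.mul N (cb N))) =
        Z ^ 2 := by
      change (w * w + N * (N * N)) * (x * x) + a * a * (N * (N * (N * N))) -
        (w * w + N * (N * N)) * (N * N) = _
      refine Nat.sub_eq_of_eq_add ?_
      zify
      linear_combination ((x : ℤ) ^ 2 - N ^ 2) * hw2 - hZ2 - (N : ℤ) ^ 2 * z2
    rw [tA, e] at h
    refine u2_e (k := r) (u := x * ((r : ℤ) * x - Y)) (hq _ _ _ h) (Nat.mul_pos hN hN) ?_ ?_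
      hZ.symm
    · change ((N * N * r : ℕ) : ℤ) = _
      push_cast
      ring
    · change ((x * w : ℕ) : ℤ) = _
      rw [Nat.cast_mul, hw, abs_mul, Nat.abs_cast]
  · generalize ww N r s x = w at *
    obtain ⟨Z, hZ⟩ := Int.eq_ofNat_of_zero_le
      (abs_nonneg ((N : ℤ) * x + r * ((r : ℤ) * x - Y)))
    have hZ2 : (Z : ℤ) ^ 2 = ((N : ℤ) * x + r * ((r : ℤ) * x - Y)) ^ 2 := by
      rw [← hZ, sq_abs]
    have e : Nat.sub (Nat.mul (Nat.add (Nat.mul r r) N) (Nat.add (Nat.mul w w) (cb N)))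
        (Nat.mul (Nat.mul a a) (cb N)) = Z ^ 2 := by
      change (r * r + N) * (w * w + N * (N * N)) - a * a * (N * (N * N)) = _
      refine Nat.sub_eq_of_eq_add ?_
      zify
      linear_combination ((r : ℤ) ^ 2 + N) * hw2 - hZ2 + (N : ℤ) * z2
    rw [tB, e] at h
    refine u2_e (k := x) (u := -(r * ((r : ℤ) * x - Y))) (hq _ _ _ h) hN ?_ ?_ hZ.symm
    · push_cast
      ring
    · change ((r * w : ℕ) : ℤ) = _
      rw [Nat.cast_mul, hw, abs_neg, abs_mul, Nat.abs_cast]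

end Pool.Agent.MP_2339ce_nt.NR
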