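import Pool.Agent.MP_2339ce_nt.Q2.NRGSpec
import Pool.Agent.MP_2339ce_nt.Q2.NRTst
import Pool.Agent.MP_2339ce_nt.Q2.NRAlg

/-! Block NR, second engine, row GTST: the tests, the local condition and the empty boxes. -/

set_option autoImplicit false

noncomputable section

namespace Pool.Agent.MP_2339ce_nt.NR

namespace GTst

open Tst

theorem rT {u v c : Bool} (h : @Bool.rec (fun _ => Bool) u v c = true) (hc : c = true) :
    v = true := by
  subst hc; exact h

theorem rF {u v c : Bool} (h : @Bool.rec (fun _ => Bool) u v c = true) (hc : c ≠ true) :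
    u = true := by
  cases c
  · exact h
  · exact absurd rfl hc

theorem nble {m n : ℕ} (h : n < m) : Nat.ble m n ≠ true := by
  rw [Ne, Nat.ble_eq]; omega

theorem orr_or {x y : Bool} (h : orr x y = true) : x = true ∨ y = true := by
  cases x
  · exact Or.inr h
  · exact Or.inl rfl

theorem tst (hE : S_GEXT) : S_GTST := by
  intro N a b c r s t x T
  obtain ⟨⟨Y, y1, y2⟩, -⟩ := alg_ok N a b c r s t x T
  have hq := hE.2.2.2.1
  have hN := T.hN
  have ha := T.ha
  have hw : ((ww N r s x : ℕ) : ℤ) = |(r : ℤ) * x - Y| := by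
    rw [ww, Tst.ab_cast, y1]
    congr 1
    push_cast
    ring
  have hw2 : ((ww N r s x : ℕ) : ℤ) * (ww N r s x : ℕ) = ((r : ℤ) * x - Y) ^ 2 := by
    rw [hw, ← sq, sq_abs]
  have z2 : (Y : ℤ) ^ 2 + ((r : ℤ) ^ 2 + N) * N ^ 2 = ((r : ℤ) ^ 2 + N) * x ^ 2 + a ^ 2 * N ^ 2 := by
    exact_mod_cast y2
  refine ⟨fun ck r0 r1 x0 x1 h hx h1 h2 h3 h4 => ?_, fun f h => ?_, fun f h => ?_⟩
  · have k1 := rF (rT (rT (rF (rF h (nble h2)) (nble h4)) (Nat.ble_eq ▸ h1)) (Nat.ble_eq ▸ h3))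
      (by rw [Ne, Nat.beq_eq]; exact hx)
    have e : Nat.sub (Nat.add (Nat.mul (Nat.add (Nat.mul r r) N) (Nat.mul x x)) (a * a * (N * N)))
        (Nat.mul (Nat.add (Nat.mul r r) N) (N * N)) = Y ^ 2 := by
      change (r * r + N) * (x * x) + a * a * (N * N) - (r * r + N) * (N * N) = _
      refine Nat.sub_eq_of_eq_add ?_
      zify
      linear_combination -z2
    rw [e, tG2] at k1
    have k0 := hq _ _ _ k1
    have k2 := dv_e (f := tG3 ck N a r x) (u := r * x + Y) (k := s) k0 hN y1.symm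
    have eb : Nat.div (Nat.add (Nat.mul r r) N) a = b := by
      change (r * r + N) / a = b
      rw [← sq, T.hr, Nat.mul_div_cancel_left b ha]
    have ec : Nat.div (Nat.add (Nat.mul s s) N) a = c := by
      change (s * s + N) / a = c
      rw [← sq, T.hs, Nat.mul_div_cancel_left c ha]
    have et : Nat.div (Nat.add x (Nat.mul r s)) a = t := by
      change (x + r * s) / a = t
      rw [T.hx, Nat.mul_div_cancel_left t ha]
    rw [tG3, eb, ec, et] at k2
    refine rF (rT (rT (rT (rT (rF k2 (nble T.hbc)) ?_) ?_) ?_) ?_) (nble T.hab)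
    · rw [Nat.beq_eq]; change a * c = s * s + N; rw [← sq, T.hs]
    · rw [Nat.beq_eq]; change b * c = t * t + N; rw [← sq, T.ht]
    · rw [Nat.beq_eq]; exact T.hx.symm
    · rw [Nat.beq_eq]; change a * b = r * r + N; rw [← sq, T.hr]
  · generalize ww N r s x = w at *
    obtain ⟨Z, hZ⟩ := Int.eq_ofNat_of_zero_le
      (abs_nonneg ((r : ℤ) * N ^ 2 - x * ((r : ℤ) * x - Y)))
    have hZ2 : (Z : ℤ) ^ 2 = ((r : ℤ) * N ^ 2 - x * ((r : ℤ) * x - Y)) ^ 2 := by
      rw [← hZ, sq_abs]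
    have e : Nat.sub (Nat.add (Nat.mul (Nat.add (Nat.mul w w) (cb N)) (Nat.mul x x))
        (a * a * (N * cb N))) (Nat.mul (Nat.add (Nat.mul w w) (cb N)) (N * N)) = Z ^ 2 := by
      change (w * w + N * (N * N)) * (x * x) + a * a * (N * (N * (N * N))) -
        (w * w + N * (N * N)) * (N * N) = _
      refine Nat.sub_eq_of_eq_add ?_
      zify
      linear_combination ((x : ℤ) ^ 2 - N ^ 2) * hw2 - hZ2 - (N : ℤ) ^ 2 * z2
    rw [tGA, e, tGA2] at h
    refine u2_e (k := r) (u := x * ((r : ℤ) * x - Y)) (hq _ _ _ h) (Nat.mul_pos hN hN) ?_ ?_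
      hZ.symm
    · push_cast
      ring
    · change ((x * w : ℕ) : ℤ) = _
      rw [Nat.cast_mul, hw, abs_mul, Nat.abs_cast]
  · generalize ww N r s x = w at *
    obtain ⟨Z, hZ⟩ := Int.eq_ofNat_of_zero_le
      (abs_nonneg ((N : ℤ) * x + r * ((r : ℤ) * x - Y)))
    have hZ2 : (Z : ℤ) ^ 2 = ((N : ℤ) * x + r * ((r : ℤ) * x - Y)) ^ 2 := by
      rw [← hZ, sq_abs]
    have e : Nat.sub (Nat.mul (Nat.add (Nat.mul r r) N) (Nat.add (Nat.mul w w) (cb N)))
        (a * a * cb N) = Z ^ 2 := by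
      change (r * r + N) * (w * w + N * (N * N)) - a * a * (N * (N * N)) = _
      refine Nat.sub_eq_of_eq_add ?_
      zify
      linear_combination ((r : ℤ) ^ 2 + N) * hw2 - hZ2 + (N : ℤ) * z2
    rw [tGB, e, tGB2] at h
    refine u2_e (k := x) (u := -(r * ((r : ℤ) * x - Y))) (hq _ _ _ h) hN ?_ ?_ hZ.symm
    · push_cast
      ring
    · change ((r * w : ℕ) : ℤ) = _
      rw [Nat.cast_mul, hw, abs_neg, abs_mul, Nat.abs_cast]

theorem galv : S_GALV := by
  intro P N a b c r s t x hP T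
  obtain ⟨-, -, ⟨k, hk⟩, -⟩ := alg_ok N a b c r s t x T
  obtain ⟨h1, -, -, -⟩ := Alg.casts T
  have q := Alg.quad T
  have l := Alg.lin T
  have ha : (0 : ℤ) < a := by exact_mod_cast T.ha
  have hb : (0 : ℤ) < b := by have := T.hab; omega
  push_cast at hk
  obtain ⟨y, hy⟩ := Int.eq_ofNat_of_zero_le (abs_nonneg ((b : ℤ) * s - r * t))
  have hy2 : (y : ℤ) ^ 2 = ((b : ℤ) * s - r * t) ^ 2 := by rw [← hy, sq_abs]
  have e1 : (a : ℤ) * (a * ((k + N * a) * b)) = a * (a * (y ^ 2 + N * r ^ 2)) := by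
    rw [hy2]
    linear_combination (-(N : ℤ)) * q + ((N : ℤ) * s - r * x + a * (b * s - r * t)) * l -
      (a : ℤ) * b * hk - ((x : ℤ) ^ 2 - N ^ 2 + N * a ^ 2) * h1
  have e2 : (k + N * a) * (b : ℤ) = y ^ 2 + N * r ^ 2 :=
    mul_left_cancel₀ ha.ne' (mul_left_cancel₀ ha.ne' e1)
  have e3 : 0 ≤ k + N * (a : ℤ) := by
    refine nonneg_of_mul_nonneg_left ?_ hb
    rw [e2]; positivity
  obtain ⟨K, hK⟩ := Int.eq_ofNat_of_zero_le e3
  have e4 : Nat.div (Nat.sub (Nat.add (Nat.mul x x) (Nat.mul N (Nat.mul a a))) (N * N)) a = K := by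
    change (x * x + N * (a * a) - N * N) / a = K
    have : x * x + N * (a * a) - N * N = a * K := by
      refine Nat.sub_eq_of_eq_add ?_
      zify
      rw [← hK]
      linear_combination hk
    rw [this, Nat.mul_div_cancel_left K T.ha]
  have e5 := hP K a b y r (by zify; rw [← hK, e2]) T.hr.symm
  rw [alv, e4, al2, Nat.beq_eq]
  rw [sq] at e5
  exact Nat.mod_eq_zero_of_dvd e5

theorem gskp : S_GSKP := by
  intro ck N P mk a1 a2 r0 r1 x0 x1 H a b c r s t x T _ n k1 k2 k3 k4 k5 k6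
  exfalso
  obtain ⟨⟨Y, -, y2⟩, -, d2, -⟩ := alg_ok N a b c r s t x T
  rcases orr_or H with h | H
  · have h1 : r1 * r1 + N ≤ a1 * a1 := Nat.le_of_ble_eq_true h
    have h2 : r * r ≤ r1 * r1 := Nat.mul_le_mul k4.le k4.le
    have h3 : a1 * a1 ≤ a * a := Nat.mul_le_mul k1 k1
    have h4 : a * a < a * b := Nat.mul_lt_mul_of_pos_left T.hab T.ha
    have h5 := T.hr
    rw [Nat.pow_two] at h5
    omega
  rcases orr_or H with h | H
  · obtain ⟨h1, h2⟩ := both_e h
    have h3 : N ≤ x0 := Nat.le_of_ble_eq_true h1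
    have h4 : x1 ≤ N + 1 := Nat.le_of_ble_eq_true h2
    omega
  rcases orr_or H with h | h
  · obtain ⟨h1, h2⟩ := both_e h
    have h3 : x1 * x1 ≤ a1 := Nat.le_of_ble_eq_true h1
    have h4 : N * N < a1 := Nat.blt_eq ▸ h2
    have h5 : x * x < x1 * x1 := Nat.mul_lt_mul'' k6 k6
    have h6 : x * x ≠ N * N := fun e => n (Nat.mul_self_inj.1 e)
    have h7 : (a : ℤ) ∣ ((x * x : ℕ) : ℤ) - (N * N : ℕ) := by
      have : ((x * x : ℕ) : ℤ) = (x : ℤ) ^ 2 + (0 : ℕ) := by push_cast; ring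
      rw [this]; exact d2
    generalize x * x = u at *
    generalize N * N = v at *
    have h8 := Int.eq_zero_of_abs_lt_dvd h7 (by rw [abs_lt]; omega)
    omega
  · obtain ⟨h1, h2⟩ := both_e h
    have h3 : x1 ≤ N := Nat.le_of_ble_eq_true h1
    have h4 : a2 * a2 * (N * N) ≤ (r0 * r0 + N) * (N * N - (x1 - 1) * (x1 - 1)) :=
      Nat.le_of_ble_eq_true h2
    have h5 : x * x ≤ (x1 - 1) * (x1 - 1) := Nat.mul_le_mul (by omega) (by omega)
    have h6 : (r0 * r0 + N) * (N * N - (x1 - 1) * (x1 - 1)) ≤ (r * r + N) * (N * N - x * x) :=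
      Nat.mul_le_mul (Nat.add_le_add_right (Nat.mul_le_mul k3 k3) N) (by omega)
    have h7 : a * a * (N * N) < a2 * a2 * (N * N) :=
      Nat.mul_lt_mul_of_pos_right (Nat.mul_lt_mul'' k2 k2) (Nat.mul_pos T.hN T.hN)
    simp only [Nat.pow_two] at y2
    rw [Nat.mul_sub (r * r + N)] at h6
    omega

end GTst

theorem gtst_ok : R_GTST := fun hE => ⟨GTst.tst hE, GTst.galv, GTst.gskp⟩

end Pool.Agent.MP_2339ce_nt.NR
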