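import Pool.Agent.MP_2339ce_nt.Q2.NRTab2
import Pool.Agent.MP_2339ce_nt.Q2.NRAlg
import Pool.Agent.MP_2339ce_nt.Q2.NRGPre
import Pool.Agent.MP_2339ce_nt.Q2.NRGExt
import Pool.Agent.MP_2339ce_nt.Q2.NRGBase
import Pool.Agent.MP_2339ce_nt.Q2.NRGRect
import Pool.Agent.MP_2339ce_nt.Q2.NRGTst
import Pool.Agent.MP_2339ce_nt.Q2.NRGCol
import Pool.Agent.MP_2339ce_nt.Q2.NRGStk
import Pool.Agent.MP_2339ce_nt.Q2.NRGJs
import Pool.Agent.MP_2339ce_nt.Q2.NRGJob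

/-! Block NR: the second engine is sound. -/

set_option autoImplicit false

namespace Pool.Agent.MP_2339ce_nt.NR

theorem good_mL : Good mL := (show mA = mL from rfl) ▸ tab_ok

theorem good_mW : Good mW :=
  good_mL.2.2.2.2.2.2.2.2.2.2.2.2.2.2.2.2.2.2.2.2.2.2.2.2.2

theorem all_jg : S_GJG :=
  gjg_ok gpre_ok gext_ok (grect_ok gpre_ok gext_ok gbase_ok) alg_ok (gtst_ok gext_ok).1
    (wb_ok alg_ok)

theorem all_js : S_GJS :=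
  gjs_ok gpre_ok gext_ok (gtst_ok gext_ok).1 (gcol_ok gext_ok) (gtst_ok gext_ok).2.1
    (gstk_ok gpre_ok gext_ok)

theorem all_ru {ck : Ck} {N P mk Z : ℕ} (hP : PI N P) {pl : Pg} {a1 a2 r0 r1 x0 x1 : ℕ}
    (h : ru1 ck mL mW N P mk Z pl a1 a2 r0 r1 x0 x1 = true) : Ok ck N P mk a1 a2 r0 r1 x0 x1 :=
  ru1_ok all_jg all_js (gtst_ok gext_ok).2.2 good_mL good_mW hP pl a1 a2 r0 r1 x0 x1 h

theorem all_jb {ck : Ck} {N P mk lv : ℕ} {o : Bool} {m p0 pd pl Z Wb a1 a2 r0 r1 x0 x1 u0 u1 : ℕ}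
    (h : jbG ck mL mW N P mk lv o m p0 pd pl Z Wb a1 a2 r0 r1 x0 x1 u0 u1 = true) :
    OkT ck N P mk lv o m a1 a2 r0 r1 x0 x1 u0 u1 :=
  (all_jg ck mL mW N P mk lv o m p0 pd pl Z Wb a1 a2 r0 r1 x0 x1 u0 u1 good_mL good_mW h).2

end Pool.Agent.MP_2339ce_nt.NR
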