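import Mathlib.Data.Nat.Basic
import Pool.Agent.MP_2339ce_nt.Q2.NRLog

/-! Block NR: a bit sieve that lists the triples which are not regular. -/

set_option autoImplicit false

noncomputable section

namespace Pool.Agent.MP_2339ce_nt.NR

/-- moduli with their tables -/
inductive ML : Type
  | nil : ML
  | cons (p I T S Q L : ℕ) (t : ML) : ML

/-- modulus, inverse of the step, pattern -/
inductive PL : Type
  | nil : PL
  | cons (p i B : ℕ) (t : PL) : PL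

def both (x y : Bool) : Bool := @Bool.rec (fun _ => Bool) false y x

/-- `x` implies `y` -/
def imp (x y : Bool) : Bool := @Bool.rec (fun _ => Bool) true y x

/-- `x` or `y` -/
def orr (x y : Bool) : Bool := @Bool.rec (fun _ => Bool) y true x

def tw (n : ℕ) : ℕ := Nat.shiftLeft 1 n

def ones (n : ℕ) : ℕ := Nat.sub (tw n) 1

/-- entry `g` of a table with lanes of eight bits -/
def lk (T g : ℕ) : ℕ := Nat.land 255 (Nat.shiftRight T (Nat.mul 8 g))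

/-- `p` bits of `Q` from place `k * p` -/
def cut (p Q k : ℕ) : ℕ := Nat.land (ones p) (Nat.shiftRight Q (Nat.mul k p))

/-- marks the `j < p` for which `g j ^ 2 + d` may be a square modulo `p` -/
def rowp (p T S Q g d : ℕ) : ℕ :=
  cut p Q (Nat.add (lk S g) (Nat.mod (Nat.mul d (lk T g)) p))

/-- the sum of `2 ^ (p i)` over `i < c` -/
def rep (p c : ℕ) : ℕ := Nat.div (ones (Nat.mul p c)) (ones p)

/-- a pattern of period `p` that is at least `len + p` bits long -/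
def per (p len w : ℕ) : ℕ := Nat.mul w (rep p (Nat.add (Nat.div len p) 2))

def st2 (M p T S Q L : ℕ) (ih : ML) (i : ℕ) : ML :=
  @Bool.rec (fun _ => ML) ih (ML.cons p i T S Q L ih) (Nat.beq (Nat.mod (Nat.mul M i) p) 1)

/-- keeps the moduli in `(lo, pd]` that are prime to `M` and do not divide `Z`; stores the inverse
of `M` -/
def stp (M Z lo pd : ℕ) (l : ML) : ML :=
  @ML.rec (fun _ => ML) ML.nil (fun p I T S Q L _ ih =>
    @Bool.rec (fun _ => ML) ih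
      (@Bool.rec (fun _ => ML) (st2 M p T S Q L ih (Nat.mod (lk I (Nat.mod M p)) p)) ih
        (Nat.beq (Nat.mod Z p) 0)) (both (Nat.ble p pd) (Nat.blt lo p))) l

/-- keeps the moduli that divide `m` -/
def whl (m : ℕ) (l : ML) : ML :=
  @ML.rec (fun _ => ML) ML.nil (fun p I T S Q L _ ih =>
    @Bool.rec (fun _ => ML) ih (ML.cons p I T S Q L ih) (Nat.beq (Nat.mod m p) 0)) l

/-- patterns of `a j + δ` -/
def lin (len : ℕ) (l : ML) : PL :=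
  @ML.rec (fun _ => PL) PL.nil (fun p i _ _ _ L _ ih => PL.cons p i (per p len (cut p L i)) ih) l

/-- `A - B` modulo `p` -/
def df (p A B : ℕ) : ℕ := Nat.mod (Nat.add A (Nat.mul (Nat.sub p 1) B)) p

def rw2 (p T S Q m2 e1 q D : ℕ) : ℕ :=
  rowp p T S Q (Nat.mod (Nat.mul D m2) p) (Nat.add (Nat.mul D e1) q)

/-- the pattern of `((M k) ^ 2 + e1) (v ^ 2 + e2) + q` in `k`; `m2 = M ^ 2` -/
def rw1 (p T S Q m2 e1 e2 q v : ℕ) : ℕ :=
  rw2 p T S Q m2 e1 q (Nat.mod (Nat.add (Nat.mul v v) e2) p)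

def qrow (M len A1 B1 A2 B2 Q1 Q2 v : ℕ) (l : ML) : PL :=
  @ML.rec (fun _ => PL) PL.nil (fun p i T S Q _ _ ih =>
    PL.cons p i
      (per p len (rw1 p T S Q (Nat.mul M M) (df p A1 B1) (df p A2 B2) (df p Q1 Q2) v)) ih) l

/-- rows `f 0, …, f (n - 1)` of width `W` -/
def hor (W : ℕ) (f : ℕ → ℕ) (n : ℕ) : ℕ :=
  @Nat.rec (fun _ => ℕ) 0 (fun j r =>
    Nat.lor (Nat.shiftLeft (Nat.land (ones W) (f j)) (Nat.mul W j)) r) n

/-- repeats the pattern `T` of length `P` up to the length `n` -/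
def dbl (n : ℕ) : ℕ → ℕ → ℕ :=
  @Nat.rec (fun _ => ℕ → ℕ → ℕ) (fun _ _ => ones n) (fun _ ih P T =>
    @Bool.rec (fun _ => ℕ) (ih (Nat.mul 2 P) (Nat.lor T (Nat.shiftLeft T P))) (Nat.land (ones n) T)
      (Nat.ble n P)) 40

def bs1 (p T S Q M W J m2 e1 e2 q : ℕ) : ℕ :=
  dbl (Nat.mul W (Nat.add J p)) (Nat.mul W p)
    (hor W (fun j => per p W (rw1 p T S Q m2 e1 e2 q (Nat.mul M j))) p)

def base (M W J A1 B1 A2 B2 Q1 Q2 : ℕ) (l : ML) : PL :=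
  @ML.rec (fun _ => PL) PL.nil (fun p i T S Q _ _ ih =>
    PL.cons p i (bs1 p T S Q M W J (Nat.mod (Nat.mul M M) p) (df p A1 B1) (df p A2 B2)
      (df p Q1 Q2)) ih) l

def shf (W mo v : ℕ) (l : PL) : PL :=
  @PL.rec (fun _ => PL) PL.nil (fun p i B _ ih =>
    PL.cons p i (Nat.land mo (Nat.shiftRight B (Nat.mul (Nat.mod (Nat.mul v i) p) W))) ih) l

/-- intersects `acc` with the shifted patterns -/
def ands (u : ℕ) (l : PL) : ℕ → ℕ :=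
  @PL.rec (fun _ => ℕ → ℕ) (fun acc => acc) (fun p i B _ ih acc =>
    @Bool.rec (fun _ => ℕ) (ih (Nat.land acc (Nat.shiftRight B (Nat.mod (Nat.mul u i) p)))) 0
      (Nat.beq acc 0)) l

/-- the same without the exit -/
def an0 (u : ℕ) (l : PL) : ℕ → ℕ :=
  @PL.rec (fun _ => ℕ → ℕ) (fun acc => acc) (fun p i B _ ih acc =>
    ih (Nat.land acc (Nat.shiftRight B (Nat.mod (Nat.mul u i) p)))) l

def lkb (T g : ℕ) : ℕ := Nat.land 16777215 (Nat.shiftRight T (Nat.mul 24 g))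

def og2 (y : ℕ) : ℕ :=
  Nat.mod (Nat.add (lkb lgA (Nat.mod y 2039)) (lkb lgB (Nat.mod y 2069))) 2107292

/-- a guess for the place of the lowest bit; nothing is proved about it -/
def og (U acc : ℕ) : ℕ := og2 (Nat.mod (Nat.gcd acc U) 4218691)

def ex2 (f ih : ℕ → Bool) (acc n : ℕ) : Bool := both (f n) (ih (Nat.xor acc (tw n)))

/-- `f n` holds at every bit `n` of `acc` -/
def ext (f : ℕ → Bool) (U : ℕ) : ℕ → Bool :=
  @Nat.rec (fun _ => ℕ → Bool) (fun acc => Nat.beq acc 0)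
    (fun _ ih acc => orr (Nat.beq acc 0) (ex2 f ih acc (og U acc))) 10000000

def nw2 (ih : ℕ → ℕ) (s t : ℕ) : ℕ := @Bool.rec (fun _ => ℕ) (ih t) s (Nat.ble s t)

def nws (n s : ℕ) : ℕ := Nat.shiftRight (Nat.add s (Nat.div n s)) 1

/-- a guess for the square root; nothing is proved about it -/
def nw (n s : ℕ) : ℕ :=
  @Nat.rec (fun _ => ℕ → ℕ) (fun s => s) (fun _ ih s => nw2 ih s (nws n s)) 300 (nws n s)

def sq2 (f : ℕ → Bool) (n s : ℕ) : Bool :=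
  @Bool.rec (fun _ => Bool)
    (both (Nat.ble (Nat.mul s s) n) (Nat.blt n (Nat.mul (Nat.succ s) (Nat.succ s)))) (f s)
    (Nat.beq (Nat.mul s s) n)

/-- `f` holds at the root of `n` if `n` is a square -/
def sqf (f : ℕ → Bool) (s n : ℕ) : Bool := sq2 f n (nw n s)

/-- `f z` for all `z` with `z ^ 2 = a j + δ`, `j < E`; `l` is a list of patterns `lin` -/
def rts (a δ E s : ℕ) (l : PL) (f : ℕ → Bool) : Bool :=
  ext (fun j => sqf f s (Nat.add (Nat.mul a j) δ)) (tw E) (ands δ l (ones E))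

def cl2 (a : ℕ) (f : ℕ → Bool) (z : ℕ) : Bool :=
  both (f z) (orr (Nat.ble a (Nat.mul 2 z)) (orr (Nat.beq z 0) (f (Nat.sub a z))))

/-- `f z` for all `z < a` with `z ^ 2 % a = δ` -/
def cls (a δ : ℕ) (l : PL) (f : ℕ → Bool) : Bool :=
  rts a δ (Nat.succ (Nat.div a 4)) a l (cl2 a f)

/-- `f t0, …, f (t0 + n - 1)` -/
def rng (f : ℕ → Bool) (t0 n : ℕ) : Bool :=
  @Nat.rec (fun _ => Bool) true (fun t ih => both (f (Nat.add t0 t)) ih) n

/-- the first number from `H` on in the class of `u` modulo `M` -/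
def fst (M H u : ℕ) : ℕ :=
  Nat.add u (Nat.mul M (Nat.div (Nat.sub (Nat.add H (Nat.sub M 1)) u) M))

def bk1 (M W v mk U : ℕ) (l0 l : PL) (test : ℕ → ℕ → Bool) (h : ℕ) : Bool :=
  ext (fun n => test (Nat.add h (Nat.mul M (Nat.mod n W))) (Nat.add v (Nat.mul M (Nat.div n W))))
    U (ands h l (an0 h l0 mk))

def rc3 (a m M W H0 δ1 v mk U : ℕ) (ll l0 l wl : PL) (test : ℕ → ℕ → Bool) : Bool :=
  cls a δ1 ll (fun η => ext
    (fun t => bk1 M W v mk U l0 l test (fst M H0 (Nat.add η (Nat.mul a t))))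
    (tw m) (ands η wl (ones m)))

def rc4 (a m M W H0 δ1 v mk U : ℕ) (ll b0 bl wl : PL) (test : ℕ → ℕ → Bool) (mo : ℕ) : Bool :=
  rc3 a m M W H0 δ1 v (Nat.land mo mk) U ll (shf W mo v b0) (shf W mo v bl) wl test

def rc2 (a m M W H0 V1 A1 B1 A2 B2 Q1 Q2 δ1 mk U : ℕ) (wm : ML) (ll b0 bl : PL)
    (test : ℕ → ℕ → Bool) (v : ℕ) : Bool :=
  orr (Nat.ble V1 v)
    (rc4 a m M W H0 δ1 v mk U ll b0 bl (qrow a m A1 B1 A2 B2 Q1 Q2 v wm) test
      (ones (Nat.mul W (Nat.div (Nat.sub (Nat.add V1 (Nat.sub M 1)) v) M))))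

def rc1 (a m M W J K H0 V0 V1 A1 B1 A2 B2 Q1 Q2 t0 tn : ℕ) (s0 sm wm : ML) (ll : PL)
    (test : ℕ → ℕ → Bool) : Bool :=
  both (Nat.ble 1 a) (both (Nat.ble 1 m)
    (orr (cls a (df a B1 A1) ll (fun _ => false))
      (cls a (df a B2 A2) ll (fun ξ => rng (fun t =>
        rc2 a m M W H0 V1 A1 B1 A2 B2 Q1 Q2 (df a B1 A1) (dbl (Nat.mul W J) W (ones K))
          (tw (Nat.mul W J)) wm ll (base M W J A1 B1 A2 B2 Q1 Q2 s0)
          (base M W J A1 B1 A2 B2 Q1 Q2 sm) test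
          (fst M V0 (Nat.add ξ (Nat.mul a t)))) t0 tn))))

def rc0 (p0 pd pl a m M K H0 V0 V1 A1 B1 A2 B2 Q1 Q2 Z t0 tn : ℕ) (ml : ML)
    (test : ℕ → ℕ → Bool) : Bool :=
  rc1 a m M (Nat.add K pd) (Nat.succ (Nat.div (Nat.sub V1 V0) M)) K H0 V0 V1 A1 B1 A2 B2 Q1 Q2 t0 tn
    (stp M Z 0 (Nat.min p0 pd) ml) (stp M Z p0 pd ml) (whl m (stp a 1 0 m ml))
    (lin (Nat.succ (Nat.div a 4)) (stp a 24 0 pl ml)) test

/-- the sieve on the rectangle `[H0, H1) × [V0, V1)`, classes `t0 ≤ v % (a m) / a < t0 + tn` -/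
def rect (ml : ML) (p0 pd pl : ℕ) (test : ℕ → ℕ → Bool)
    (a m H0 H1 V0 V1 A1 B1 A2 B2 Q1 Q2 Z t0 tn : ℕ) : Bool :=
  rc0 p0 pd pl a m (Nat.mul a m) (Nat.succ (Nat.div (Nat.sub H1 H0) (Nat.mul a m))) H0 V0 V1
    A1 B1 A2 B2 Q1 Q2 Z t0 tn ml test

def ro3 (a δ1 x mk U : ℕ) (ll l : PL) (test : ℕ → ℕ → Bool) : Bool :=
  cls a δ1 ll (fun η => ext (fun k => test (Nat.add η (Nat.mul a k)) x) U (ands η l mk))

def ro2 (N a K x0 δ1 q mk U : ℕ) (sz : ML) (ll : PL) (test : ℕ → ℕ → Bool) (x : ℕ) : Bool :=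
  orr (Nat.beq x N) (imp (Nat.ble x0 x)
    (ro3 a δ1 x mk U ll (qrow a K N 0 0 (Nat.mul N N) q 0 x sz) test))

def ro1 (N a E K x0 x1 : ℕ) (sz : ML) (ll : PL) (test : ℕ → ℕ → Bool) : Bool :=
  both (Nat.ble 1 a) (orr (cls a (df a 0 N) ll (fun _ => false))
    (rts a (Nat.mod (Nat.mul N N) a) E x1 ll
      (ro2 N a K x0 (df a 0 N) (Nat.mul (Nat.mul a a) (Nat.mul N N)) (ones K) (tw K) sz ll test)))

def ro0 (ml : ML) (pd pl : ℕ) (test : ℕ → ℕ → Bool) (N a E R x0 x1 Z : ℕ) : Bool :=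
  ro1 N a E (Nat.succ (Nat.div R a)) x0 x1 (stp a Z 0 pd ml)
    (lin (Nat.add E (Nat.succ (Nat.div a 4))) (stp a 24 0 pl ml)) test

/-- rows for all `x0 ≤ x < x1`, `x ≠ N`, each for `r < R` -/
def rows (ml : ML) (pd pl : ℕ) (test : ℕ → ℕ → Bool) (N a R x0 x1 Z : ℕ) : Bool :=
  ro0 ml pd pl test N a (Nat.succ (Nat.div (Nat.mul x1 x1) a)) R x0 x1 Z

/-! ### the tests -/

abbrev Ck : Type := ℕ → ℕ → ℕ → ℕ → ℕ → ℕ → ℕ → Bool

def t4 (ck : Ck) (N a b c r s t x : ℕ) : Bool :=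
  imp (Nat.blt b c) (imp (Nat.beq (Nat.mul a c) (Nat.add (Nat.mul s s) N))
    (imp (Nat.beq (Nat.mul b c) (Nat.add (Nat.mul t t) N))
      (imp (Nat.beq (Nat.mul a t) (Nat.add x (Nat.mul r s)))
        (imp (Nat.beq (Nat.mul a b) (Nat.add (Nat.mul r r) N))
          (imp (Nat.blt a b) (ck N a b c r s t))))))

def t3 (ck : Ck) (N a r x s : ℕ) : Bool :=
  t4 ck N a (Nat.div (Nat.add (Nat.mul r r) N) a) (Nat.div (Nat.add (Nat.mul s s) N) a) r s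
    (Nat.div (Nat.add x (Nat.mul r s)) a) x

/-- `f (u / n)` if `n` divides `u` -/
def dv (f : ℕ → Bool) (n u : ℕ) : Bool := imp (Nat.beq (Nat.mod u n) 0) (f (Nat.div u n))

/-- `E (x ^ 2 - N ^ 2) + q` -/
def fq (N E x q : ℕ) : ℕ :=
  Nat.sub (Nat.add (Nat.mul E (Nat.mul x x)) q) (Nat.mul E (Nat.mul N N))

def t1 (ck : Ck) (N a r x : ℕ) : Bool :=
  sqf (fun Y => dv (t3 ck N a r x) N (Nat.add (Nat.mul r x) Y))
    (Nat.add (Nat.mul (Nat.succ r) x) (Nat.mul a N))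
    (fq N (Nat.add (Nat.mul r r) N) x (Nat.mul (Nat.mul a a) (Nat.mul N N)))

/-- the test at the point `(r, x)` -/
def t0 (ck : Ck) (N a r0 r1 x0 x1 r x : ℕ) : Bool :=
  imp (Nat.blt r r1) (imp (Nat.blt x x1) (imp (Nat.ble r0 r) (imp (Nat.ble x0 x)
    (orr (Nat.beq x N) (t1 ck N a r x)))))

/-- the distance -/
def ab (u v : ℕ) : ℕ := Nat.add (Nat.sub u v) (Nat.sub v u)

def u2 (f : ℕ → Bool) (n P Y : ℕ) : Bool := both (dv f n (Nat.add P Y)) (dv f n (ab P Y))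

def cb (N : ℕ) : ℕ := Nat.mul N (Nat.mul N N)

/-- the test at the point `(w, x)` -/
def tA (f : ℕ → ℕ → Bool) (N a w x : ℕ) : Bool :=
  sqf (u2 (fun r => f r x) (Nat.mul N N) (Nat.mul x w))
    (Nat.add (Nat.mul x (Nat.add w (Nat.mul 16 N))) (Nat.mul a (Nat.mul N N)))
    (fq N (Nat.add (Nat.mul w w) (cb N)) x (Nat.mul (Nat.mul a a) (Nat.mul N (cb N))))

/-- the test at the point `(r, w)` -/
def tB (f : ℕ → ℕ → Bool) (N a r w : ℕ) : Bool :=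
  sqf (u2 (fun x => f r x) N (Nat.mul r w))
    (Nat.mul (Nat.add r 16) (Nat.add w (Nat.mul 16 N)))
    (Nat.sub (Nat.mul (Nat.add (Nat.mul r r) N) (Nat.add (Nat.mul w w) (cb N)))
      (Nat.mul (Nat.mul a a) (cb N)))

/-- the rectangle in one of the two orientations -/
def rco (o : Bool) (ml : ML) (p0 pd pl : ℕ) (test : ℕ → ℕ → Bool)
    (a m H0 H1 V0 V1 A1 B1 A2 B2 Q1 Q2 Z t0 tn : ℕ) : Bool :=
  @Bool.rec (fun _ => Bool) (rect ml p0 pd pl test a m H0 H1 V0 V1 A1 B1 A2 B2 Q1 Q2 Z t0 tn)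
    (rect ml p0 pd pl (fun h v => test v h) a m V0 V1 H0 H1 A2 B2 A1 B1 Q1 Q2 Z t0 tn) o

/-- the bound `Wb` for `|2 r x - N s|` on the box -/
def wOK (N r0 r1 x0 x1 Wb : ℕ) : Bool :=
  both (Nat.blt (Nat.mul N N) (Nat.mul 2 x0))
    (both (Nat.ble (Nat.mul (Nat.mul N N) (Nat.add r1 N)) (Nat.mul Wb (Nat.sub (Nat.mul 2 x0) 1)))
      (both (Nat.ble 1 r0) (Nat.ble (Nat.mul N x1) (Nat.mul 2 (Nat.mul Wb r0)))))

/-- the data of a job -/
structure Jb where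
  lv : ℕ
  o : Bool
  m : ℕ
  p0 : ℕ
  pd : ℕ
  pl : ℕ
  Z : ℕ
  Wb : ℕ

def jb1 (ml : ML) (lv : ℕ) (o : Bool) (m p0 pd pl Z Wb N r0 r1 x0 x1 t0 tn a : ℕ)
    (f : ℕ → ℕ → Bool) : Bool :=
  @Bool.rec (fun _ => Bool)
    (@Bool.rec (fun _ => Bool)
      (both (wOK N r0 r1 x0 x1 Wb)
        (@Bool.rec (fun _ => Bool)
          (rco o ml p0 pd pl (tB f N a) a m r0 r1 0 Wb N 0 (cb N) 0 0 (Nat.mul (Nat.mul a a) (cb N))
            Z t0 tn)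
          (rco o ml p0 pd pl (tA f N a) a m 0 Wb x0 x1 (cb N) 0 0 (Nat.mul N N)
            (Nat.mul (Nat.mul a a) (Nat.mul N (cb N))) 0 Z t0 tn) (Nat.beq lv 1)))
      (rows ml pd pl f N a r1 x0 x1 Z) (Nat.beq lv 3))
    (rco o ml p0 pd pl f a m r0 r1 x0 x1 N 0 0 (Nat.mul N N) (Nat.mul (Nat.mul a a) (Nat.mul N N)) 0
      Z t0 tn) (Nat.beq lv 0)

/-- the filter for the smallest element -/
def el (P mk a : ℕ) : Bool :=
  both (Nat.beq (Nat.land 1 (Nat.shiftRight mk (Nat.mod a 64))) 1) (Nat.beq (Nat.gcd a P) 1)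

def jbT (ck : Ck) (ml : ML) (N P mk : ℕ) (j : Jb) (a1 a2 r0 r1 x0 x1 u0 u1 : ℕ) : Bool :=
  rng (fun a => imp (el P mk a) (jb1 ml j.lv j.o j.m j.p0 j.pd j.pl j.Z j.Wb N r0 r1 x0 x1 u0
    (Nat.sub u1 u0) a (t0 ck N a r0 r1 x0 x1))) a1 (Nat.sub a2 a1)

/-- a plan: jobs at the leaves, cuts in `a`, `r`, `x` at the nodes -/
inductive Pl : Type
  | lf (j : Jb) : Pl
  | sk : Pl
  | na (c : ℕ) (l r : Pl) : Pl
  | nr (c : ℕ) (l r : Pl) : Pl
  | nx (c : ℕ) (l r : Pl) : Pl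

def run (ck : Ck) (ml : ML) (N P mk : ℕ) (pl : Pl) : ℕ → ℕ → ℕ → ℕ → ℕ → ℕ → Bool :=
  @Pl.rec (fun _ => ℕ → ℕ → ℕ → ℕ → ℕ → ℕ → Bool)
    (fun j a1 a2 r0 r1 x0 x1 =>
      both (Nat.ble 1 j.m) (jbT ck ml N P mk j a1 a2 r0 r1 x0 x1 0 j.m))
    (fun a1 _ _ r1 x0 x1 => orr (Nat.ble (Nat.add (Nat.mul r1 r1) N) (Nat.mul a1 a1))
      (both (Nat.ble N x0) (Nat.ble x1 (Nat.succ N))))
    (fun c _ _ il ir a1 a2 r0 r1 x0 x1 => both (il a1 c r0 r1 x0 x1) (ir c a2 r0 r1 x0 x1))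
    (fun c _ _ il ir a1 a2 r0 r1 x0 x1 => both (il a1 a2 r0 c x0 x1) (ir a1 a2 c r1 x0 x1))
    (fun c _ _ il ir a1 a2 r0 r1 x0 x1 => both (il a1 a2 r0 r1 x0 c) (ir a1 a2 r0 r1 c x1)) pl

end Pool.Agent.MP_2339ce_nt.NR
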