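import Pool.Agent.MP_2339ce_nt.Q2.NRGSpec
import Pool.Agent.MP_2339ce_nt.Q2.NRJob

/-! Block NR, second engine: jobs on rectangles and plans. -/

set_option autoImplicit false

namespace Pool.Agent.MP_2339ce_nt.NR

theorem rcoG_ok (hR : S_GRECT) {o : Bool} {s0 sm wl sl : ML} {pd len : ℕ} {test : ℕ → ℕ → Bool}
    {a m H0 H1 V0 V1 A1 B1 A2 B2 Q1 Q2 t0 tn h v : ℕ} (g0 : Gp pd s0) (g1 : Gp pd sm)
    (g2 : Good wl) (g3 : Gl len sl) (ha : 0 < a) (hm : 0 < m) (hl : a / 4 + 1 ≤ len)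
    (H : rcoG o s0 sm wl sl pd test a m H0 H1 V0 V1 A1 B1 A2 B2 Q1 Q2 t0 tn = true)
    (h1 : H0 ≤ h) (h2 : h < H1) (h3 : V0 ≤ v) (h4 : v < V1)
    (d1 : (a : ℤ) ∣ (h : ℤ) ^ 2 + A1 - B1) (d2 : (a : ℤ) ∣ (v : ℤ) ^ 2 + A2 - B2)
    (hS : Sq A1 B1 A2 B2 Q1 Q2 h v)
    (c1 : t0 ≤ (if o = true then h else v) % (a * m) / a)
    (c2 : (if o = true then h else v) % (a * m) / a < t0 + tn) : test h v = true := by
  cases o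
  · exact hR s0 sm wl sl pd len test a m H0 H1 V0 V1 A1 B1 A2 B2 Q1 Q2 t0 tn h v g0 g1 g2 g3 ha hm hl
      H h1 h2 h3 h4 d1 d2 hS c1 c2
  · exact hR s0 sm wl sl pd len (fun h v => test v h) a m V0 V1 H0 H1 A2 B2 A1 B1 Q1 Q2 t0 tn v h
      g0 g1 g2 g3 ha hm hl H h3 h4 h1 h2 d2 d1 (sq_swap hS) c1 c2

theorem gjg_ok (hP : S_GPRE) (hE : S_GEXT) (hR : S_GRECT) (hA : S_ALG) (hT : S_GTST) (hB : S_WB) :
    S_GJG := by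
  intro ck ml wl N P mk lv o m p0 pd pl Z Wb a1 a2 r0 r1 x0 x1 u0 u1 hG hW H
  obtain ⟨H0, H⟩ := both_t H
  obtain ⟨-, H0⟩ := both_t H0
  obtain ⟨c2, H0⟩ := both_t H0
  obtain ⟨c3, c4⟩ := both_t H0
  have hm : 0 < m := Nat.le_of_ble_eq_true c2
  refine ⟨hm, ?_⟩
  intro a b c r s t x T e n k1 k2 k3 k4 k5 k6 k7 k8
  rw [frc_eq, frc_eq, frc_eq] at H
  obtain ⟨s0, g0, H⟩ := hP.1 _ _ _ pd _ _ hG (Nat.le_of_ble_eq_true c3) H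
  obtain ⟨sm, g1, H⟩ := hP.1 _ _ _ pd _ _ hG le_rfl H
  obtain ⟨sl, g3, H⟩ := hP.2.1 _ _ _ _ hG H
  have H1 := imp_t (hE.2.1 _ _ _ a H k1 (by show a < a1 + (a2 - a1); omega)) e
  have hl : a / 4 + 1 ≤ Nat.succ (Nat.div a2 4) := Nat.succ_le_succ (Nat.div_le_div_right k2.le)
  obtain ⟨-, d1, d2, d3, s0', s1, s2⟩ := hA N a b c r s t x T
  obtain ⟨q0, qA, qB⟩ := hT N a b c r s t x T
  refine q0 ck r0 r1 x0 x1 ?_ n k3 k4 k5 k6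
  have k9 : vv lv o N r s x % (a * m) / a < u0 + Nat.sub u1 u0 := by
    show _ < u0 + (u1 - u0); omega
  unfold jbG1 at H1
  unfold vv at k7 k9
  cases e0 : Nat.beq lv 0
  · have n0 : lv ≠ 0 := Nat.ne_of_beq_eq_false e0
    rw [e0] at H1 c4
    rw [if_neg n0] at k7 k9
    have hw := hB N a b c r s t x r0 r1 x0 x1 Wb T c4 k3 k4 k5 k6
    cases e1 : Nat.beq lv 1
    · rw [e1] at H1
      rw [if_neg (Nat.ne_of_beq_eq_false e1)] at k7 k9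
      exact qB _ (rcoG_ok hR g0 g1 hW g3 T.ha hm hl H1 k3 k4 (Nat.zero_le _) hw d1 d3 s2 k7 k9)
    · rw [e1] at H1
      rw [if_pos (Nat.eq_of_beq_eq_true e1)] at k7 k9
      exact qA _ (rcoG_ok hR g0 g1 hW g3 T.ha hm hl H1 (Nat.zero_le _) hw k5 k6 d3 d2 s1 k7 k9)
  · rw [e0] at H1
    rw [if_pos (Nat.eq_of_beq_eq_true e0)] at k7 k9
    exact rcoG_ok hR g0 g1 hW g3 T.ha hm hl H1 k3 k4 k5 k6 d1 d2 s0' k7 k9

theorem ru1_ok (hJ : S_GJG) (hS : S_GJS) (hK : S_GSKP) {ck : Ck} {ml wl : ML} {N P mk Z : ℕ}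
    (hG : Good ml) (hW : Good wl) (hP : PI N P) (pl : Pg) : ∀ a1 a2 r0 r1 x0 x1 : ℕ,
    ru1 ck ml wl N P mk Z pl a1 a2 r0 r1 x0 x1 = true → Ok ck N P mk a1 a2 r0 r1 x0 x1 := by
  induction pl with
  | lg lv o m p0 pd pl Wb =>
    intro a1 a2 r0 r1 x0 x1 H
    obtain ⟨h1, h2⟩ := hJ ck ml wl N P mk lv o m p0 pd pl Z Wb a1 a2 r0 r1 x0 x1 0 m hG hW H
    exact ot (Nat.ble_eq_true_of_le h1) h2
  | ls pd pl len =>
    exact fun a1 a2 r0 r1 x0 x1 H => (hS ck ml N P mk pd pl Z len a1 a2 r0 r1 x0 x1 hG hP).1 H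
  | lp pd pl len =>
    exact fun a1 a2 r0 r1 x0 x1 H => (hS ck ml N P mk pd pl Z len a1 a2 r0 r1 x0 x1 hG hP).2 H
  | sk => exact fun a1 a2 r0 r1 x0 x1 H => hK ck N P mk a1 a2 r0 r1 x0 x1 H
  | na c l r il ir =>
    intro a1 a2 r0 r1 x0 x1 H
    obtain ⟨h1, h2⟩ := both_t H
    exact ja c (il _ _ _ _ _ _ h1) (ir _ _ _ _ _ _ h2)
  | nr c l r il ir =>
    intro a1 a2 r0 r1 x0 x1 H
    obtain ⟨h1, h2⟩ := both_t H
    exact jr c (il _ _ _ _ _ _ h1) (ir _ _ _ _ _ _ h2)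
  | nx c l r il ir =>
    intro a1 a2 r0 r1 x0 x1 H
    obtain ⟨h1, h2⟩ := both_t H
    exact jx c (il _ _ _ _ _ _ h1) (ir _ _ _ _ _ _ h2)

end Pool.Agent.MP_2339ce_nt.NR
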