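import Pool.Agent.MP_2339ce_nt.Q2.NRAll
import Pool.Agent.MP_2339ce_nt.Q2.MskP

/-! Block NR: regions, plans with keys, and the rules that join the runs. -/

set_option autoImplicit false

noncomputable section

namespace Pool.Agent.MP_2339ce_nt.NR

open Q2

/-- a region: a search tree in `a`, with lists of steps `r < R`, `x0 ≤ x < x1` at the leaves -/
inductive Lt : Type
  | nil : Lt
  | st (R x0 x1 : ℕ) (t : Lt) : Lt
  | nd (c : ℕ) (l u : Lt) : Lt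

def Lt.Mem (a r x : ℕ) : Lt → Prop
  | Lt.nil => False
  | Lt.st R x0 x1 t => (r < R ∧ x0 ≤ x ∧ x < x1) ∨ t.Mem a r x
  | Lt.nd c l u => (a < c ∧ l.Mem a r x) ∨ (c ≤ a ∧ u.Mem a r x)

/-- the region does not meet the box -/
def outT (a1 a2 r0 x0 x1 : ℕ) (L : Lt) : Bool :=
  @Lt.rec (fun _ => Bool) true
    (fun R y0 y1 _ ih => both (orr (Nat.ble y1 x0) (orr (Nat.ble x1 y0) (Nat.ble R r0))) ih)
    (fun c _ _ il iu => both (orr (Nat.ble c a1) il) (orr (Nat.ble a2 c) iu)) L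

/-- the check holds for the triples with `x ≠ N` in the box and in the region -/
def OkQ (ck : Ck) (L : Lt) (N a1 a2 r0 r1 x0 x1 : ℕ) : Prop :=
  ∀ a b c r s t x : ℕ, Tp N a b c r s t x → el (Msk.PP N) (Msk.mk N) a = true → x ≠ N →
    L.Mem a r x → a1 ≤ a → a < a2 → r0 ≤ r → r < r1 → x0 ≤ x → x < x1 → ck N a b c r s t = true

/-- a plan; every leaf owns an interval of keys -/
inductive Ph : Type
  | lg (lv : ℕ) (o : Bool) (m p0 pd pl Wb Y : ℕ) : Ph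
  | la (p : Pg) : Ph
  | lx (p : Pg) : Ph
  | l1 (p : Pg) : Ph
  | out : Ph
  | ne : Ph
  | s1 : Ph
  | na (k c : ℕ) (l r : Ph) : Ph
  | nr (k c : ℕ) (l r : Ph) : Ph
  | nx (k c : ℕ) (l r : Ph) : Ph

def nd3 (LO HI k lo hi : ℕ) (f g : ℕ → ℕ → Bool) : Bool :=
  both (both (Nat.blt LO k) (Nat.blt k HI))
    (@Bool.rec (fun _ => Bool) (@Bool.rec (fun _ => Bool) (both (f lo k) (g k hi)) (g lo hi)
      (Nat.ble k lo)) (f lo hi) (Nat.ble hi k))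

/-- runs the part of the plan with keys in `[lo, hi)`; the plan owns the keys in `[LO, HI)` -/
def ru2 (ck : Ck) (L : Lt) (N P mk Z : ℕ) (T : Ph) :
    ℕ → ℕ → ℕ → ℕ → ℕ → ℕ → ℕ → ℕ → ℕ → ℕ → Bool :=
  @Ph.rec (fun _ => ℕ → ℕ → ℕ → ℕ → ℕ → ℕ → ℕ → ℕ → ℕ → ℕ → Bool)
    (fun lv o m p0 pd pl Wb Y LO HI lo hi a1 a2 r0 r1 x0 x1 => both (Nat.ble m (Nat.sub HI LO))
      (frc (Nat.sub lo LO) fun u0 => frc (Nat.sub hi LO) fun u1 =>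
        jbG ck mL mW N P mk lv o m p0 pd pl Y Wb a1 a2 r0 r1 x0 x1 u0 u1))
    (fun p LO HI lo hi a1 a2 r0 r1 x0 x1 => both (Nat.ble a2 (Nat.add a1 (Nat.sub HI LO)))
      (frc (Nat.add a1 (Nat.sub lo LO)) fun b1 => frc (Nat.add a1 (Nat.sub hi LO)) fun b2 =>
        ru1 ck mL mW N P mk Z p b1 b2 r0 r1 x0 x1))
    (fun p LO HI lo hi a1 a2 r0 r1 x0 x1 => both (Nat.ble x1 (Nat.add x0 (Nat.sub HI LO)))
      (frc (Nat.add x0 (Nat.sub lo LO)) fun y0 => frc (Nat.add x0 (Nat.sub hi LO)) fun y1 =>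
        ru1 ck mL mW N P mk Z p a1 a2 r0 r1 y0 y1))
    (fun p _ _ _ _ a1 a2 r0 r1 x0 x1 => ru1 ck mL mW N P mk Z p a1 a2 r0 r1 x0 x1)
    (fun _ _ _ _ a1 a2 r0 _ x0 x1 => outT a1 a2 r0 x0 x1 L)
    (fun _ _ _ _ a1 a2 _ _ _ _ => rngF (fun a => imp (el P mk a) false) a1 (Nat.sub a2 a1))
    (fun _ _ _ _ a1 _ _ r1 _ _ =>
      Nat.ble (Nat.add (Nat.mul (Nat.sub r1 1) (Nat.sub r1 1)) N) (Nat.mul a1 a1))
    (fun k c _ _ il ir LO HI lo hi a1 a2 r0 r1 x0 x1 => nd3 LO HI k lo hi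
      (fun u v => il LO k u v a1 c r0 r1 x0 x1) (fun u v => ir k HI u v c a2 r0 r1 x0 x1))
    (fun k c _ _ il ir LO HI lo hi a1 a2 r0 r1 x0 x1 => nd3 LO HI k lo hi
      (fun u v => il LO k u v a1 a2 r0 c x0 x1) (fun u v => ir k HI u v a1 a2 c r1 x0 x1))
    (fun k c _ _ il ir LO HI lo hi a1 a2 r0 r1 x0 x1 => nd3 LO HI k lo hi
      (fun u v => il LO k u v a1 a2 r0 r1 x0 c) (fun u v => ir k HI u v a1 a2 r0 r1 c x1)) T

/-- one run -/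
def rn (ck : Ck) (L : Lt) (N Z K : ℕ) (T : Ph) (a1 a2 r0 r1 x0 x1 lo hi : ℕ) : Bool :=
  both (both (Nat.ble N 255) (Nat.ble lo hi))
    (frc N fun N => frc (Msk.PP N) fun P => frc (Msk.mk N) fun mk => frc Z fun Z =>
      ru2 ck L N P mk Z T 0 K lo hi a1 a2 r0 r1 x0 x1)

/-- what the runs for the keys in `[lo, hi)` give -/
def Wk (ck : Ck) (L : Lt) (N : ℕ) : Ph → ℕ → ℕ → ℕ → ℕ → ℕ → ℕ → ℕ → ℕ → ℕ → ℕ → Prop
  | Ph.lg lv o m _ _ _ _ _, LO, HI, lo, hi, a1, a2, r0, r1, x0, x1 => m ≤ HI - LO ∧ 0 < m ∧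
      OkT ck N (Msk.PP N) (Msk.mk N) lv o m a1 a2 r0 r1 x0 x1 (lo - LO) (hi - LO)
  | Ph.la _, LO, HI, lo, hi, a1, a2, r0, r1, x0, x1 => a2 ≤ a1 + (HI - LO) ∧
      OkQ ck L N (a1 + (lo - LO)) (a1 + (hi - LO)) r0 r1 x0 x1
  | Ph.lx _, LO, HI, lo, hi, a1, a2, r0, r1, x0, x1 => x1 ≤ x0 + (HI - LO) ∧
      OkQ ck L N a1 a2 r0 r1 (x0 + (lo - LO)) (x0 + (hi - LO))
  | Ph.l1 _, _, _, _, _, a1, a2, r0, r1, x0, x1 => OkQ ck L N a1 a2 r0 r1 x0 x1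
  | Ph.out, _, _, _, _, a1, a2, r0, r1, x0, x1 => OkQ ck L N a1 a2 r0 r1 x0 x1
  | Ph.ne, _, _, _, _, a1, a2, r0, r1, x0, x1 => OkQ ck L N a1 a2 r0 r1 x0 x1
  | Ph.s1, _, _, _, _, a1, a2, r0, r1, x0, x1 => OkQ ck L N a1 a2 r0 r1 x0 x1
  | Ph.na k c l r, LO, HI, lo, hi, a1, a2, r0, r1, x0, x1 => LO < k ∧ k < HI ∧
      (lo < k → Wk ck L N l LO k lo (min hi k) a1 c r0 r1 x0 x1) ∧
      (k < hi → Wk ck L N r k HI (max lo k) hi c a2 r0 r1 x0 x1)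
  | Ph.nr k c l r, LO, HI, lo, hi, a1, a2, r0, r1, x0, x1 => LO < k ∧ k < HI ∧
      (lo < k → Wk ck L N l LO k lo (min hi k) a1 a2 r0 c x0 x1) ∧
      (k < hi → Wk ck L N r k HI (max lo k) hi a1 a2 c r1 x0 x1)
  | Ph.nx k c l r, LO, HI, lo, hi, a1, a2, r0, r1, x0, x1 => LO < k ∧ k < HI ∧
      (lo < k → Wk ck L N l LO k lo (min hi k) a1 a2 r0 r1 x0 c) ∧
      (k < hi → Wk ck L N r k HI (max lo k) hi a1 a2 r0 r1 c x1)

variable {ck : Ck} {L : Lt} {N Z K : ℕ} {T : Ph} {a1 a2 r0 r1 x0 x1 lo : ℕ}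

theorem outT_ok {a r x : ℕ} (h : outT a1 a2 r0 x0 x1 L = true) (k1 : a1 ≤ a) (k2 : a < a2)
    (k3 : r0 ≤ r) (k5 : x0 ≤ x) (k6 : x < x1) : ¬ L.Mem a r x := by
  induction L with
  | nil => exact id
  | st R y0 y1 t ih =>
    obtain ⟨h1, h2⟩ := both_t h
    rintro (⟨g1, g2, g3⟩ | g)
    · rcases orr_t h1 with h1 | h1
      · have := Nat.le_of_ble_eq_true h1
        omega
      rcases orr_t h1 with h1 | h1 <;> have := Nat.le_of_ble_eq_true h1 <;> omega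
    · exact ih h2 g
  | nd c l u il iu =>
    obtain ⟨h1, h2⟩ := both_t h
    rintro (⟨g1, g⟩ | ⟨g1, g⟩)
    · rcases orr_t h1 with h1 | h1
      · have := Nat.le_of_ble_eq_true h1
        omega
      · exact il h1 g
    · rcases orr_t h2 with h2 | h2
      · have := Nat.le_of_ble_eq_true h2
        omega
      · exact iu h2 g

theorem qo (h : Ok ck N (Msk.PP N) (Msk.mk N) a1 a2 r0 r1 x0 x1) : OkQ ck L N a1 a2 r0 r1 x0 x1 :=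
  fun a b c r s t x T e n _ => h a b c r s t x T e n

theorem qa (c : ℕ) (h1 : OkQ ck L N a1 c r0 r1 x0 x1) (h2 : OkQ ck L N c a2 r0 r1 x0 x1) :
    OkQ ck L N a1 a2 r0 r1 x0 x1 := fun a b c' r s t x T e n m k1 k2 k3 k4 k5 k6 =>
  (Nat.lt_or_ge a c).elim (fun k => h1 a b c' r s t x T e n m k1 k k3 k4 k5 k6)
    (fun k => h2 a b c' r s t x T e n m k k2 k3 k4 k5 k6)

theorem qr (c : ℕ) (h1 : OkQ ck L N a1 a2 r0 c x0 x1) (h2 : OkQ ck L N a1 a2 c r1 x0 x1) :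
    OkQ ck L N a1 a2 r0 r1 x0 x1 := fun a b c' r s t x T e n m k1 k2 k3 k4 k5 k6 =>
  (Nat.lt_or_ge r c).elim (fun k => h1 a b c' r s t x T e n m k1 k2 k3 k k5 k6)
    (fun k => h2 a b c' r s t x T e n m k1 k2 k k4 k5 k6)

theorem qx (c : ℕ) (h1 : OkQ ck L N a1 a2 r0 r1 x0 c) (h2 : OkQ ck L N a1 a2 r0 r1 c x1) :
    OkQ ck L N a1 a2 r0 r1 x0 x1 := fun a b c' r s t x T e n m k1 k2 k3 k4 k5 k6 =>
  (Nat.lt_or_ge x c).elim (fun k => h1 a b c' r s t x T e n m k1 k2 k3 k4 k5 k)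
    (fun k => h2 a b c' r s t x T e n m k1 k2 k3 k4 k k6)

theorem nd3_ok {LO HI k lo hi : ℕ} {f g : ℕ → ℕ → Bool} {F G : ℕ → ℕ → Prop}
    (h : nd3 LO HI k lo hi f g = true) (hf : ∀ u v, f u v = true → F u v)
    (hg : ∀ u v, g u v = true → G u v) :
    LO < k ∧ k < HI ∧ (lo < k → F lo (min hi k)) ∧ (k < hi → G (max lo k) hi) := by
  obtain ⟨h1, h⟩ := both_t h
  obtain ⟨h1, h2⟩ := both_t h1
  refine ⟨Nat.blt_eq.mp h1, Nat.blt_eq.mp h2, ?_⟩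
  cases e1 : Nat.ble hi k
  · have k1 : k < hi := Nat.lt_of_not_le fun q =>
      Bool.false_ne_true (e1.symm.trans (Nat.ble_eq_true_of_le q))
    rw [e1] at h
    rw [Nat.min_eq_right k1.le]
    cases e2 : Nat.ble k lo
    · have k2 : lo < k := Nat.lt_of_not_le fun q =>
        Bool.false_ne_true (e2.symm.trans (Nat.ble_eq_true_of_le q))
      rw [e2] at h
      rw [Nat.max_eq_right k2.le]
      exact ⟨fun _ => hf _ _ (both_t h).1, fun _ => hg _ _ (both_t h).2⟩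
    · have k2 := Nat.le_of_ble_eq_true e2
      rw [e2] at h
      rw [Nat.max_eq_left k2]
      exact ⟨fun q => by omega, fun _ => hg _ _ h⟩
  · have k1 := Nat.le_of_ble_eq_true e1
    rw [e1] at h
    rw [Nat.min_eq_left k1]
    exact ⟨fun _ => hf _ _ h, fun q => by omega⟩

theorem ru2_ok (hP : PI N (Msk.PP N)) (T : Ph) : ∀ LO HI lo hi a1 a2 r0 r1 x0 x1 : ℕ,
    ru2 ck L N (Msk.PP N) (Msk.mk N) Z T LO HI lo hi a1 a2 r0 r1 x0 x1 = true →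
      Wk ck L N T LO HI lo hi a1 a2 r0 r1 x0 x1 := by
  induction T with
  | lg lv o m p0 pd pl Wb Y =>
    intro LO HI lo hi a1 a2 r0 r1 x0 x1 H
    obtain ⟨h1, h2⟩ := both_t H
    rw [frc_eq, frc_eq] at h2
    exact ⟨Nat.le_of_ble_eq_true h1, all_jg _ _ _ _ _ _ _ _ _ _ _ _ _ _ _ _ _ _ _ _ _ _
      good_mL good_mW h2⟩
  | la p =>
    intro LO HI lo hi a1 a2 r0 r1 x0 x1 H
    obtain ⟨h1, h2⟩ := both_t H
    rw [frc_eq, frc_eq] at h2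
    exact ⟨Nat.le_of_ble_eq_true h1, qo (all_ru hP h2)⟩
  | lx p =>
    intro LO HI lo hi a1 a2 r0 r1 x0 x1 H
    obtain ⟨h1, h2⟩ := both_t H
    rw [frc_eq, frc_eq] at h2
    exact ⟨Nat.le_of_ble_eq_true h1, qo (all_ru hP h2)⟩
  | l1 p => exact fun _ _ _ _ a1 a2 r0 r1 x0 x1 H => qo (all_ru hP H)
  | out =>
    exact fun _ _ _ _ a1 a2 r0 r1 x0 x1 H a b c r s t x _ _ _ m k1 k2 k3 _ k5 k6 =>
      absurd m (outT_ok H k1 k2 k3 k5 k6)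
  | ne =>
    exact fun _ _ _ _ a1 a2 r0 r1 x0 x1 H a b c r s t x _ e _ _ k1 k2 _ _ _ _ =>
      absurd (imp_t (gext_ok.2.1 _ _ _ a H k1 (by show a < a1 + (a2 - a1); omega)) e)
        Bool.false_ne_true
  | s1 =>
    intro _ _ _ _ a1 a2 r0 r1 x0 x1 H a b c r s t x T _ _ _ k1 _ _ k4 _ _
    have h1 : (r1 - 1) * (r1 - 1) + N ≤ a1 * a1 := Nat.le_of_ble_eq_true H
    have h2 : r * r ≤ (r1 - 1) * (r1 - 1) := Nat.mul_le_mul (by omega) (by omega)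
    have h3 : a1 * a1 ≤ a * a := Nat.mul_le_mul k1 k1
    have h4 : a * a < a * b := Nat.mul_lt_mul_of_pos_left T.hab T.ha
    have h5 := T.hr
    rw [Nat.pow_two] at h5
    omega
  | na k c l r il ir =>
    exact fun LO HI lo hi a1 a2 r0 r1 x0 x1 H =>
      nd3_ok (F := fun u v => Wk ck L N l LO k u v a1 c r0 r1 x0 x1)
        (G := fun u v => Wk ck L N r k HI u v c a2 r0 r1 x0 x1)
        (f := fun u v => ru2 ck L N (Msk.PP N) (Msk.mk N) Z l LO k u v a1 c r0 r1 x0 x1)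
        (g := fun u v => ru2 ck L N (Msk.PP N) (Msk.mk N) Z r k HI u v c a2 r0 r1 x0 x1) H
        (fun _ _ => il _ _ _ _ _ _ _ _ _ _) (fun _ _ => ir _ _ _ _ _ _ _ _ _ _)
  | nr k c l r il ir =>
    exact fun LO HI lo hi a1 a2 r0 r1 x0 x1 H =>
      nd3_ok (F := fun u v => Wk ck L N l LO k u v a1 a2 r0 c x0 x1)
        (G := fun u v => Wk ck L N r k HI u v a1 a2 c r1 x0 x1)
        (f := fun u v => ru2 ck L N (Msk.PP N) (Msk.mk N) Z l LO k u v a1 a2 r0 c x0 x1)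
        (g := fun u v => ru2 ck L N (Msk.PP N) (Msk.mk N) Z r k HI u v a1 a2 c r1 x0 x1) H
        (fun _ _ => il _ _ _ _ _ _ _ _ _ _) (fun _ _ => ir _ _ _ _ _ _ _ _ _ _)
  | nx k c l r il ir =>
    exact fun LO HI lo hi a1 a2 r0 r1 x0 x1 H =>
      nd3_ok (F := fun u v => Wk ck L N l LO k u v a1 a2 r0 r1 x0 c)
        (G := fun u v => Wk ck L N r k HI u v a1 a2 r0 r1 c x1)
        (f := fun u v => ru2 ck L N (Msk.PP N) (Msk.mk N) Z l LO k u v a1 a2 r0 r1 x0 c)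
        (g := fun u v => ru2 ck L N (Msk.PP N) (Msk.mk N) Z r k HI u v a1 a2 r0 r1 c x1) H
        (fun _ _ => il _ _ _ _ _ _ _ _ _ _) (fun _ _ => ir _ _ _ _ _ _ _ _ _ _)

theorem nd_join {LO HI k lo c hi : ℕ} {F G : ℕ → ℕ → Prop}
    (hF : ∀ u v w, u ≤ v → v ≤ w → F u v → F v w → F u w)
    (hG : ∀ u v w, u ≤ v → v ≤ w → G u v → G v w → G u w) (h1 : lo ≤ c) (h2 : c ≤ hi)
    (A : LO < k ∧ k < HI ∧ (lo < k → F lo (min c k)) ∧ (k < c → G (max lo k) c))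
    (B : LO < k ∧ k < HI ∧ (c < k → F c (min hi k)) ∧ (k < hi → G (max c k) hi)) :
    LO < k ∧ k < HI ∧ (lo < k → F lo (min hi k)) ∧ (k < hi → G (max lo k) hi) := by
  obtain ⟨a1, a2, a3, a4⟩ := A
  obtain ⟨-, -, b3, b4⟩ := B
  refine ⟨a1, a2, fun q => ?_, fun q => ?_⟩
  · have g := a3 q
    rcases Nat.lt_or_ge c k with e | e
    · rw [Nat.min_eq_left e.le] at g
      exact hF _ _ _ h1 (Nat.le_min.2 ⟨h2, e.le⟩) g (b3 e)
    · rw [Nat.min_eq_right e] at g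
      rwa [Nat.min_eq_right (e.trans h2)]
  · have g := b4 q
    rcases Nat.lt_or_ge k c with e | e
    · rw [Nat.max_eq_left e.le] at g
      exact hG _ _ _ (Nat.max_le.2 ⟨h1, e.le⟩) h2 (a4 e) g
    · rw [Nat.max_eq_right e] at g
      rwa [Nat.max_eq_right (h1.trans e)]

theorem wk_join (T : Ph) : ∀ LO HI a1 a2 r0 r1 x0 x1 lo c hi : ℕ, lo ≤ c → c ≤ hi →
    Wk ck L N T LO HI lo c a1 a2 r0 r1 x0 x1 → Wk ck L N T LO HI c hi a1 a2 r0 r1 x0 x1 →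
      Wk ck L N T LO HI lo hi a1 a2 r0 r1 x0 x1 := by
  induction T with
  | lg => exact fun _ _ _ _ _ _ _ _ _ _ _ _ _ A B => ⟨A.1, A.2.1, ju _ A.2.2 B.2.2⟩
  | la => exact fun _ _ _ _ _ _ _ _ _ _ _ _ _ A B => ⟨A.1, qa _ A.2 B.2⟩
  | lx => exact fun _ _ _ _ _ _ _ _ _ _ _ _ _ A B => ⟨A.1, qx _ A.2 B.2⟩
  | l1 => exact fun _ _ _ _ _ _ _ _ _ _ _ _ _ A _ => A
  | out => exact fun _ _ _ _ _ _ _ _ _ _ _ _ _ A _ => A
  | ne => exact fun _ _ _ _ _ _ _ _ _ _ _ _ _ A _ => A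
  | s1 => exact fun _ _ _ _ _ _ _ _ _ _ _ _ _ A _ => A
  | na k c l r il ir =>
    exact fun LO HI a1 a2 r0 r1 x0 x1 _ _ _ h1 h2 A B =>
      nd_join (F := fun u v => Wk ck L N l LO k u v a1 c r0 r1 x0 x1)
        (G := fun u v => Wk ck L N r k HI u v c a2 r0 r1 x0 x1)
        (il _ _ _ _ _ _ _ _) (ir _ _ _ _ _ _ _ _) h1 h2 A B
  | nr k c l r il ir =>
    exact fun LO HI a1 a2 r0 r1 x0 x1 _ _ _ h1 h2 A B =>
      nd_join (F := fun u v => Wk ck L N l LO k u v a1 a2 r0 c x0 x1)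
        (G := fun u v => Wk ck L N r k HI u v a1 a2 c r1 x0 x1)
        (il _ _ _ _ _ _ _ _) (ir _ _ _ _ _ _ _ _) h1 h2 A B
  | nx k c l r il ir =>
    exact fun LO HI a1 a2 r0 r1 x0 x1 _ _ _ h1 h2 A B =>
      nd_join (F := fun u v => Wk ck L N l LO k u v a1 a2 r0 r1 x0 c)
        (G := fun u v => Wk ck L N r k HI u v a1 a2 r0 r1 c x1)
        (il _ _ _ _ _ _ _ _) (ir _ _ _ _ _ _ _ _) h1 h2 A B

theorem wk_fin (T : Ph) : ∀ LO HI a1 a2 r0 r1 x0 x1 : ℕ,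
    Wk ck L N T LO HI LO HI a1 a2 r0 r1 x0 x1 → OkQ ck L N a1 a2 r0 r1 x0 x1 := by
  induction T with
  | lg lv o m =>
    intro LO HI a1 a2 r0 r1 x0 x1 ⟨h1, h2, h3⟩
    exact qo (ot (lv := lv) (o := o) (Nat.ble_eq_true_of_le h2)
      fun a b c r s t x T e n k1 k2 k3 k4 k5 k6 _ k8 =>
        h3 a b c r s t x T e n k1 k2 k3 k4 k5 k6 (by omega) (by omega))
  | la =>
    intro LO HI a1 a2 r0 r1 x0 x1 ⟨h1, h2⟩ a b c r s t x T e n m k1 k2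
    exact h2 a b c r s t x T e n m (by omega) (by omega)
  | lx =>
    intro LO HI a1 a2 r0 r1 x0 x1 ⟨h1, h2⟩ a b c r s t x T e n m k1 k2 k3 k4 k5 k6
    exact h2 a b c r s t x T e n m k1 k2 k3 k4 (by omega) (by omega)
  | l1 => exact fun _ _ _ _ _ _ _ _ A => A
  | out => exact fun _ _ _ _ _ _ _ _ A => A
  | ne => exact fun _ _ _ _ _ _ _ _ A => A
  | s1 => exact fun _ _ _ _ _ _ _ _ A => A
  | na k c l r il ir =>
    intro LO HI a1 a2 r0 r1 x0 x1 ⟨h1, h2, h3, h4⟩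
    rw [Nat.min_eq_right h2.le] at h3
    rw [Nat.max_eq_right h1.le] at h4
    exact qa c (il _ _ _ _ _ _ _ _ (h3 h1)) (ir _ _ _ _ _ _ _ _ (h4 h2))
  | nr k c l r il ir =>
    intro LO HI a1 a2 r0 r1 x0 x1 ⟨h1, h2, h3, h4⟩
    rw [Nat.min_eq_right h2.le] at h3
    rw [Nat.max_eq_right h1.le] at h4
    exact qr c (il _ _ _ _ _ _ _ _ (h3 h1)) (ir _ _ _ _ _ _ _ _ (h4 h2))
  | nx k c l r il ir =>
    intro LO HI a1 a2 r0 r1 x0 x1 ⟨h1, h2, h3, h4⟩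
    rw [Nat.min_eq_right h2.le] at h3
    rw [Nat.max_eq_right h1.le] at h4
    exact qx c (il _ _ _ _ _ _ _ _ (h3 h1)) (ir _ _ _ _ _ _ _ _ (h4 h2))

/-- the runs for the keys from `lo` on are done -/
def Wt (ck : Ck) (L : Lt) (N _Z K : ℕ) (T : Ph) (a1 a2 r0 r1 x0 x1 lo : ℕ) : Prop :=
  lo ≤ K ∧ Wk ck L N T 0 K lo K a1 a2 r0 r1 x0 x1

theorem rn_ok {hi : ℕ} (h : rn ck L N Z K T a1 a2 r0 r1 x0 x1 lo hi = true) :
    lo ≤ hi ∧ Wk ck L N T 0 K lo hi a1 a2 r0 r1 x0 x1 := by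
  obtain ⟨h1, h⟩ := both_t h
  obtain ⟨h1, h2⟩ := both_t h1
  rw [frc_eq, frc_eq, frc_eq, frc_eq] at h
  exact ⟨Nat.le_of_ble_eq_true h2, ru2_ok
    (Msk.PP_sq (Nat.lt_succ_of_le (Nat.le_of_ble_eq_true h1))) T _ _ _ _ _ _ _ _ _ _ h⟩

theorem je (h : rn ck L N Z K T a1 a2 r0 r1 x0 x1 lo K = true) :
    Wt ck L N Z K T a1 a2 r0 r1 x0 x1 lo := rn_ok h

theorem jn (c : ℕ) (h : rn ck L N Z K T a1 a2 r0 r1 x0 x1 lo c = true)
    (t : Wt ck L N Z K T a1 a2 r0 r1 x0 x1 c) : Wt ck L N Z K T a1 a2 r0 r1 x0 x1 lo :=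
  ⟨(rn_ok h).1.trans t.1, wk_join T _ _ _ _ _ _ _ _ _ _ _ (rn_ok h).1 t.1 (rn_ok h).2 t.2⟩

theorem fin (Z K : ℕ) (T : Ph) (h : Wt ck L N Z K T a1 a2 r0 r1 x0 x1 0) :
    OkQ ck L N a1 a2 r0 r1 x0 x1 := wk_fin T _ _ _ _ _ _ _ _ h.2

end Pool.Agent.MP_2339ce_nt.NR
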