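import Pool.Agent.MP_2339ce_nt.Q2.NRSpec

/-! Block NR, row ROWS. -/

set_option autoImplicit false

namespace Pool.Agent.MP_2339ce_nt.NR

theorem rows_both {x y : Bool} (h : both x y = true) : x = true ∧ y = true := by
  cases x
  · exact absurd h (by simp [both])
  · exact ⟨rfl, h⟩

theorem rows_orr {x y : Bool} (h : orr x y = true) (hx : x ≠ true) : y = true := by
  cases x
  · exact h
  · exact absurd rfl hx

theorem rows_imp {x y : Bool} (h : imp x y = true) (hx : x = true) : y = true := by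
  subst hx; exact h

theorem rows_all (F : ℕ → ℕ → ℕ → ℕ → ℕ → ℕ → Prop) (h : ∀ p I T S Q L, F p I T S Q L) (l : ML) :
    l.All F := by
  induction l with
  | nil => trivial
  | cons p I T S Q L t ih => exact ⟨h p I T S Q L, ih⟩

theorem rows_ok : R_ROWS := by
  intro hS hB hE hC hQ ml pd pl test N a R x0 x1 Z r x hg h hr h0 h1 hN d1 d2 hsq
  unfold rows ro0 ro1 at h
  obtain ⟨ha, h⟩ := rows_both h
  have ha' : 0 < a := Nat.le_of_ble_eq_true ha
  have s1 := hS.1 a 24 0 pl ml hg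
  have s2 := hS.1 a Z 0 pd ml hg
  have hlen : a / 4 + 1 ≤ Nat.add (Nat.succ (Nat.div (Nat.mul x1 x1) a)) (Nat.succ (Nat.div a 4)) :=
    Nat.le_add_left _ _
  have h2 := rows_orr h fun hc => by
    have := hC.2 a N 0 _ pl r _ _ ha' s1 hlen hc d1
    exact absurd this (by simp)
  have hm : x ^ 2 % a = N * N % a := by
    have h3 : (a : ℤ) ∣ ((x ^ 2 : ℕ) : ℤ) - ((N * N : ℕ) : ℤ) := by
      have e : ((x ^ 2 : ℕ) : ℤ) = (x : ℤ) ^ 2 + ((0 : ℕ) : ℤ) := by simp
      rw [e]; exact d2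
    exact (Nat.modEq_iff_dvd.2 h3).symm
  have hx : x ^ 2 = a * (x ^ 2 / a) + N * N % a := by
    rw [← hm]; exact (Nat.div_add_mod _ _).symm
  have hj : x ^ 2 / a < Nat.succ (Nat.div (Nat.mul x1 x1) a) :=
    Nat.lt_succ_of_le (Nat.div_le_div_right (by
      rw [Nat.pow_two]; exact Nat.mul_le_mul h1.le h1.le))
  have h3 := hC.1 a _ _ x1 _ pl (x ^ 2 / a) x _ _ s1 (Nat.le_add_right _ _) h2 hx hj
  unfold ro2 at h3
  have h4 := rows_imp (rows_orr h3 fun hc => hN (Nat.eq_of_beq_eq_true hc))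
    (Nat.ble_eq_true_of_le h0)
  unfold ro3 at h4
  have h5 := hC.2 a N 0 _ pl r _ _ ha' s1 hlen h4 d1
  have hk : r / a < Nat.succ (Nat.div R a) := Nat.lt_succ_of_le (Nat.div_le_div_right hr.le)
  have h6 := hQ a pd _ N 0 0 (N * N) (a * a * (N * N)) 0 r x (r % a) (r / a) x _ s2 hsq hk
    (rows_all _ (fun p _ _ _ _ _ => ⟨by rw [Nat.mod_add_div], Nat.ModEq.refl _⟩) _)
  have h7 := hE.2.1 _ _ _ (r / a) h5 (hE.1 _ _ _ _ h6 ((hB.1 _ _).2 hk)).1
  have e : Nat.add (r % a) (Nat.mul a (r / a)) = r := Nat.mod_add_div r a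
  rwa [e] at h7

end Pool.Agent.MP_2339ce_nt.NR
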