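import Pool.Agent.MP_2339ce_nt.Q2.RK
import Pool.Agent.MP_2339ce_nt.Q2.EQb
import Pool.Agent.MP_2339ce_nt.Q2.RMask
import Pool.Agent.MP_2339ce_nt.Q2.RMask2

/-! Block REG: the tables and the step functions. -/

set_option autoImplicit false
set_option maxRecDepth 100000

namespace Pool.Agent.MP_2339ce_nt.Q2.RG

def T0x0 : TL :=
  .cons (nat_lit 2) (nat_lit 4153) <|
  .cons (nat_lit 4) (nat_lit 2076) <|
  .cons (nat_lit 8) (nat_lit 1038) <|
  .cons (nat_lit 16) (nat_lit 519) <|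
  .cons (nat_lit 32) (nat_lit 259) <|
  .cons (nat_lit 64) (nat_lit 129) <|
  .nil

def J0 : TT :=
  .nil

def T1x0 : TL :=
  .cons (nat_lit 2) (nat_lit 8306) <|
  .cons (nat_lit 4) (nat_lit 4153) <|
  .cons (nat_lit 8) (nat_lit 2076) <|
  .cons (nat_lit 16) (nat_lit 1038) <|
  .cons (nat_lit 32) (nat_lit 519) <|
  .cons (nat_lit 64) (nat_lit 259) <|
  .nil

def J1 : TT :=
  .nil

def T2x0 : TL :=
  .cons (nat_lit 2) (nat_lit 14562) <|
  .cons (nat_lit 5) (nat_lit 5442) <|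
  .cons (nat_lit 10) (nat_lit 2721) <|
  .cons (nat_lit 21) (nat_lit 1360) <|
  .cons (nat_lit 42) (nat_lit 680) <|
  .cons (nat_lit 85) (nat_lit 340) <|
  .nil

def J2 : TT :=
  .nil

def T3x0 : TL :=
  .cons (nat_lit 2) (nat_lit 22851) <|
  .cons (nat_lit 3) (nat_lit 9475) <|
  .cons (nat_lit 6) (nat_lit 6841) <|
  .cons (nat_lit 13) (nat_lit 3420) <|
  .cons (nat_lit 26) (nat_lit 1710) <|
  .cons (nat_lit 53) (nat_lit 855) <|
  .cons (nat_lit 106) (nat_lit 427) <|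
  .nil

def J3 : TT :=
  .nil

def T4x0 : TL :=
  .cons (nat_lit 2) (nat_lit 33225) <|
  .cons (nat_lit 4) (nat_lit 16612) <|
  .cons (nat_lit 8) (nat_lit 8306) <|
  .cons (nat_lit 16) (nat_lit 4153) <|
  .cons (nat_lit 32) (nat_lit 2076) <|
  .cons (nat_lit 128) (nat_lit 1038) <|
  .nil

def J4 : TT :=
  .nil

def T5x0 : TL :=
  .cons (nat_lit 2) (nat_lit 47975) <|
  .cons (nat_lit 4) (nat_lit 28724) <|
  .cons (nat_lit 9) (nat_lit 9877) <|
  .cons (nat_lit 19) (nat_lit 4938) <|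
  .cons (nat_lit 38) (nat_lit 2469) <|
  .cons (nat_lit 154) (nat_lit 1234) <|
  .nil

def J5 : TT :=
  .nil

def T6x49 : TL :=
  .cons (nat_lit 162) (nat_lit 929) <|
  .cons (nat_lit 181) (nat_lit 815) <|
  .nil

def T6x42 : TL :=
  .cons (nat_lit 70) (nat_lit 2138) <|
  .cons (nat_lit 80) (nat_lit 1897) <|
  .cons (nat_lit 90) (nat_lit 1663) <|
  .cons (nat_lit 97) (nat_lit 1460) <|
  .cons (nat_lit 110) (nat_lit 1356) <|
  .cons (nat_lit 125) (nat_lit 1197) <|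
  .cons (nat_lit 142) (nat_lit 1054) <|
  T6x49

def T6x35 : TL :=
  .cons (nat_lit 45) (nat_lit 3358) <|
  .cons (nat_lit 46) (nat_lit 2929) <|
  .cons (nat_lit 49) (nat_lit 2867) <|
  .cons (nat_lit 52) (nat_lit 2695) <|
  .cons (nat_lit 55) (nat_lit 2542) <|
  .cons (nat_lit 58) (nat_lit 2406) <|
  .cons (nat_lit 62) (nat_lit 2284) <|
  T6x42

def T6x28 : TL :=
  .cons (nat_lit 30) (nat_lit 4980) <|
  .cons (nat_lit 32) (nat_lit 4658) <|
  .cons (nat_lit 34) (nat_lit 4376) <|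
  .cons (nat_lit 36) (nat_lit 4126) <|
  .cons (nat_lit 38) (nat_lit 3903) <|
  .cons (nat_lit 40) (nat_lit 3703) <|
  .cons (nat_lit 42) (nat_lit 3522) <|
  T6x35

def T6x21 : TL :=
  .cons (nat_lit 22) (nat_lit 6656) <|
  .cons (nat_lit 23) (nat_lit 6279) <|
  .cons (nat_lit 24) (nat_lit 6017) <|
  .cons (nat_lit 25) (nat_lit 5777) <|
  .cons (nat_lit 26) (nat_lit 5554) <|
  .cons (nat_lit 27) (nat_lit 5349) <|
  .cons (nat_lit 28) (nat_lit 5158) <|
  T6x28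

def T6x14 : TL :=
  .cons (nat_lit 15) (nat_lit 9763) <|
  .cons (nat_lit 16) (nat_lit 9152) <|
  .cons (nat_lit 17) (nat_lit 8614) <|
  .cons (nat_lit 18) (nat_lit 8135) <|
  .cons (nat_lit 19) (nat_lit 7707) <|
  .cons (nat_lit 20) (nat_lit 7322) <|
  .cons (nat_lit 21) (nat_lit 6973) <|
  T6x21

def T6x7 : TL :=
  .cons (nat_lit 8) (nat_lit 18561) <|
  .cons (nat_lit 9) (nat_lit 16498) <|
  .cons (nat_lit 10) (nat_lit 14848) <|
  .cons (nat_lit 11) (nat_lit 13499) <|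
  .cons (nat_lit 12) (nat_lit 12203) <|
  .cons (nat_lit 13) (nat_lit 11265) <|
  .cons (nat_lit 14) (nat_lit 10460) <|
  T6x14

def T6x0 : TL :=
  .cons (nat_lit 1) (nat_lit 146445) <|
  .cons (nat_lit 2) (nat_lit 73222) <|
  .cons (nat_lit 3) (nat_lit 48815) <|
  .cons (nat_lit 4) (nat_lit 36611) <|
  .cons (nat_lit 5) (nat_lit 28885) <|
  .cons (nat_lit 6) (nat_lit 24748) <|
  .cons (nat_lit 7) (nat_lit 21212) <|
  T6x7

def J6 : TT :=
  .cons (nat_lit 143) T6x49 <|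
  .cons (nat_lit 63) T6x42 <|
  .cons (nat_lit 43) T6x35 <|
  .cons (nat_lit 29) T6x28 <|
  .cons (nat_lit 22) T6x21 <|
  .cons (nat_lit 15) T6x14 <|
  .cons (nat_lit 8) T6x7 <|
  .nil

def T7x56 : TL :=
  .cons (nat_lit 300) (nat_lit 1298) <|
  .cons (nat_lit 326) (nat_lit 1099) <|
  .cons (nat_lit 355) (nat_lit 931) <|
  .cons (nat_lit 386) (nat_lit 786) <|
  .cons (nat_lit 420) (nat_lit 665) <|
  .cons (nat_lit 430) (nat_lit 562) <|
  .nil

def T7x49 : TL :=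
  .cons (nat_lit 160) (nat_lit 3374) <|
  .cons (nat_lit 183) (nat_lit 2955) <|
  .cons (nat_lit 210) (nat_lit 2585) <|
  .cons (nat_lit 216) (nat_lit 2254) <|
  .cons (nat_lit 234) (nat_lit 2115) <|
  .cons (nat_lit 254) (nat_lit 1803) <|
  .cons (nat_lit 276) (nat_lit 1532) <|
  T7x56

def T7x42 : TL :=
  .cons (nat_lit 69) (nat_lit 8225) <|
  .cons (nat_lit 78) (nat_lit 7285) <|
  .cons (nat_lit 88) (nat_lit 6455) <|
  .cons (nat_lit 100) (nat_lit 5729) <|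
  .cons (nat_lit 108) (nat_lit 5049) <|
  .cons (nat_lit 123) (nat_lit 4365) <|
  .cons (nat_lit 140) (nat_lit 3837) <|
  T7x49

def T7x35 : TL :=
  .cons (nat_lit 45) (nat_lit 12362) <|
  .cons (nat_lit 48) (nat_lit 11556) <|
  .cons (nat_lit 51) (nat_lit 10849) <|
  .cons (nat_lit 53) (nat_lit 10223) <|
  .cons (nat_lit 54) (nat_lit 9443) <|
  .cons (nat_lit 57) (nat_lit 9271) <|
  .cons (nat_lit 61) (nat_lit 8792) <|
  T7x42

def T7x28 : TL :=
  .cons (nat_lit 30) (nat_lit 18331) <|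
  .cons (nat_lit 32) (nat_lit 17148) <|
  .cons (nat_lit 34) (nat_lit 16109) <|
  .cons (nat_lit 36) (nat_lit 15188) <|
  .cons (nat_lit 38) (nat_lit 14367) <|
  .cons (nat_lit 40) (nat_lit 13630) <|
  .cons (nat_lit 42) (nat_lit 12966) <|
  T7x35

def T7x21 : TL :=
  .cons (nat_lit 22) (nat_lit 24501) <|
  .cons (nat_lit 23) (nat_lit 23435) <|
  .cons (nat_lit 24) (nat_lit 22459) <|
  .cons (nat_lit 25) (nat_lit 21561) <|
  .cons (nat_lit 26) (nat_lit 20731) <|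
  .cons (nat_lit 27) (nat_lit 19689) <|
  .cons (nat_lit 28) (nat_lit 18985) <|
  T7x28

def T7x14 : TL :=
  .cons (nat_lit 15) (nat_lit 35935) <|
  .cons (nat_lit 16) (nat_lit 33689) <|
  .cons (nat_lit 17) (nat_lit 31707) <|
  .cons (nat_lit 18) (nat_lit 29945) <|
  .cons (nat_lit 19) (nat_lit 28369) <|
  .cons (nat_lit 20) (nat_lit 26951) <|
  .cons (nat_lit 21) (nat_lit 25667) <|
  T7x21

def T7x7 : TL :=
  .cons (nat_lit 8) (nat_lit 67378) <|
  .cons (nat_lit 9) (nat_lit 59891) <|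
  .cons (nat_lit 10) (nat_lit 53902) <|
  .cons (nat_lit 11) (nat_lit 49002) <|
  .cons (nat_lit 12) (nat_lit 44918) <|
  .cons (nat_lit 13) (nat_lit 41463) <|
  .cons (nat_lit 14) (nat_lit 38501) <|
  T7x14

def T7x0 : TL :=
  .cons (nat_lit 1) (nat_lit 531606) <|
  .cons (nat_lit 2) (nat_lit 265803) <|
  .cons (nat_lit 3) (nat_lit 177202) <|
  .cons (nat_lit 4) (nat_lit 132901) <|
  .cons (nat_lit 5) (nat_lit 104857) <|
  .cons (nat_lit 6) (nat_lit 87381) <|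
  .cons (nat_lit 7) (nat_lit 77003) <|
  T7x7

def J7 : TT :=
  .cons (nat_lit 277) T7x56 <|
  .cons (nat_lit 141) T7x49 <|
  .cons (nat_lit 62) T7x42 <|
  .cons (nat_lit 43) T7x35 <|
  .cons (nat_lit 29) T7x28 <|
  .cons (nat_lit 22) T7x21 <|
  .cons (nat_lit 15) T7x14 <|
  .cons (nat_lit 8) T7x7 <|
  .nil

def T8x56 : TL :=
  .cons (nat_lit 320) (nat_lit 4013) <|
  .cons (nat_lit 366) (nat_lit 3501) <|
  .cons (nat_lit 420) (nat_lit 3062) <|
  .cons (nat_lit 482) (nat_lit 2669) <|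
  .cons (nat_lit 487) (nat_lit 2326) <|
  .nil

def T8x49 : TL :=
  .cons (nat_lit 139) (nat_lit 10067) <|
  .cons (nat_lit 158) (nat_lit 8845) <|
  .cons (nat_lit 181) (nat_lit 7788) <|
  .cons (nat_lit 206) (nat_lit 6804) <|
  .cons (nat_lit 235) (nat_lit 5982) <|
  .cons (nat_lit 244) (nat_lit 5247) <|
  .cons (nat_lit 279) (nat_lit 4587) <|
  T8x56

def T8x42 : TL :=
  .cons (nat_lit 61) (nat_lit 21458) <|
  .cons (nat_lit 69) (nat_lit 21112) <|
  .cons (nat_lit 78) (nat_lit 18699) <|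
  .cons (nat_lit 88) (nat_lit 16569) <|
  .cons (nat_lit 100) (nat_lit 14707) <|
  .cons (nat_lit 114) (nat_lit 12960) <|
  .cons (nat_lit 122) (nat_lit 11382) <|
  T8x49

def T8x35 : TL :=
  .cons (nat_lit 43) (nat_lit 32042) <|
  .cons (nat_lit 46) (nat_lit 30585) <|
  .cons (nat_lit 49) (nat_lit 28633) <|
  .cons (nat_lit 52) (nat_lit 26915) <|
  .cons (nat_lit 55) (nat_lit 25391) <|
  .cons (nat_lit 58) (nat_lit 24031) <|
  .cons (nat_lit 60) (nat_lit 22809) <|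
  T8x42

def T8x28 : TL :=
  .cons (nat_lit 30) (nat_lit 46405) <|
  .cons (nat_lit 31) (nat_lit 43411) <|
  .cons (nat_lit 33) (nat_lit 42055) <|
  .cons (nat_lit 35) (nat_lit 39581) <|
  .cons (nat_lit 37) (nat_lit 37382) <|
  .cons (nat_lit 39) (nat_lit 35414) <|
  .cons (nat_lit 41) (nat_lit 33644) <|
  T8x35

def T8x21 : TL :=
  .cons (nat_lit 22) (nat_lit 61171) <|
  .cons (nat_lit 23) (nat_lit 58511) <|
  .cons (nat_lit 24) (nat_lit 56073) <|
  .cons (nat_lit 25) (nat_lit 53830) <|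
  .cons (nat_lit 26) (nat_lit 51760) <|
  .cons (nat_lit 27) (nat_lit 49843) <|
  .cons (nat_lit 28) (nat_lit 48063) <|
  T8x28

def T8x14 : TL :=
  .cons (nat_lit 15) (nat_lit 89717) <|
  .cons (nat_lit 16) (nat_lit 84110) <|
  .cons (nat_lit 17) (nat_lit 79162) <|
  .cons (nat_lit 18) (nat_lit 74764) <|
  .cons (nat_lit 19) (nat_lit 70829) <|
  .cons (nat_lit 20) (nat_lit 67288) <|
  .cons (nat_lit 21) (nat_lit 64084) <|
  T8x21

def T8x7 : TL :=
  .cons (nat_lit 8) (nat_lit 168221) <|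
  .cons (nat_lit 9) (nat_lit 149529) <|
  .cons (nat_lit 10) (nat_lit 134576) <|
  .cons (nat_lit 11) (nat_lit 122342) <|
  .cons (nat_lit 12) (nat_lit 112147) <|
  .cons (nat_lit 13) (nat_lit 103520) <|
  .cons (nat_lit 14) (nat_lit 96126) <|
  T8x14

def T8x0 : TL :=
  .cons (nat_lit 1) (nat_lit 1116073) <|
  .cons (nat_lit 2) (nat_lit 789182) <|
  .cons (nat_lit 3) (nat_lit 442413) <|
  .cons (nat_lit 4) (nat_lit 331810) <|
  .cons (nat_lit 5) (nat_lit 265448) <|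
  .cons (nat_lit 6) (nat_lit 221206) <|
  .cons (nat_lit 7) (nat_lit 189605) <|
  T8x7

def J8 : TT :=
  .cons (nat_lit 280) T8x56 <|
  .cons (nat_lit 123) T8x49 <|
  .cons (nat_lit 61) T8x42 <|
  .cons (nat_lit 42) T8x35 <|
  .cons (nat_lit 29) T8x28 <|
  .cons (nat_lit 22) T8x21 <|
  .cons (nat_lit 15) T8x14 <|
  .cons (nat_lit 8) T8x7 <|
  .nil

def T9x63 : TL :=
  .cons (nat_lit 665) (nat_lit 3019) <|
  .cons (nat_lit 724) (nat_lit 2541) <|
  .cons (nat_lit 760) (nat_lit 2144) <|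
  .nil

def T9x56 : TL :=
  .cons (nat_lit 330) (nat_lit 8164) <|
  .cons (nat_lit 378) (nat_lit 7128) <|
  .cons (nat_lit 434) (nat_lit 6225) <|
  .cons (nat_lit 498) (nat_lit 5423) <|
  .cons (nat_lit 537) (nat_lit 4728) <|
  .cons (nat_lit 561) (nat_lit 3894) <|
  .cons (nat_lit 610) (nat_lit 3568) <|
  T9x63

def T9x49 : TL :=
  .cons (nat_lit 144) (nat_lit 18993) <|
  .cons (nat_lit 165) (nat_lit 17683) <|
  .cons (nat_lit 188) (nat_lit 15446) <|
  .cons (nat_lit 215) (nat_lit 13566) <|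
  .cons (nat_lit 246) (nat_lit 11870) <|
  .cons (nat_lit 268) (nat_lit 10380) <|
  .cons (nat_lit 288) (nat_lit 8771) <|
  T9x56

def T9x42 : TL :=
  .cons (nat_lit 67) (nat_lit 43713) <|
  .cons (nat_lit 72) (nat_lit 39308) <|
  .cons (nat_lit 82) (nat_lit 36615) <|
  .cons (nat_lit 93) (nat_lit 32204) <|
  .cons (nat_lit 106) (nat_lit 28435) <|
  .cons (nat_lit 121) (nat_lit 24980) <|
  .cons (nat_lit 134) (nat_lit 21909) <|
  T9x49

def T9x35 : TL :=
  .cons (nat_lit 42) (nat_lit 66103) <|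
  .cons (nat_lit 45) (nat_lit 63029) <|
  .cons (nat_lit 48) (nat_lit 58918) <|
  .cons (nat_lit 51) (nat_lit 55311) <|
  .cons (nat_lit 54) (nat_lit 52120) <|
  .cons (nat_lit 57) (nat_lit 49277) <|
  .cons (nat_lit 61) (nat_lit 46728) <|
  T9x42

def T9x28 : TL :=
  .cons (nat_lit 30) (nat_lit 93457) <|
  .cons (nat_lit 32) (nat_lit 87427) <|
  .cons (nat_lit 33) (nat_lit 82129) <|
  .cons (nat_lit 34) (nat_lit 79713) <|
  .cons (nat_lit 36) (nat_lit 77436) <|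
  .cons (nat_lit 38) (nat_lit 73250) <|
  .cons (nat_lit 40) (nat_lit 69493) <|
  T9x35

def T9x21 : TL :=
  .cons (nat_lit 22) (nat_lit 123193) <|
  .cons (nat_lit 23) (nat_lit 117837) <|
  .cons (nat_lit 24) (nat_lit 112927) <|
  .cons (nat_lit 25) (nat_lit 108410) <|
  .cons (nat_lit 26) (nat_lit 104240) <|
  .cons (nat_lit 27) (nat_lit 100380) <|
  .cons (nat_lit 28) (nat_lit 96795) <|
  T9x28

def T9x14 : TL :=
  .cons (nat_lit 15) (nat_lit 178196) <|
  .cons (nat_lit 16) (nat_lit 167059) <|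
  .cons (nat_lit 17) (nat_lit 159427) <|
  .cons (nat_lit 18) (nat_lit 150570) <|
  .cons (nat_lit 19) (nat_lit 142645) <|
  .cons (nat_lit 20) (nat_lit 135513) <|
  .cons (nat_lit 21) (nat_lit 129060) <|
  T9x21

def T9x7 : TL :=
  .cons (nat_lit 8) (nat_lit 334118) <|
  .cons (nat_lit 9) (nat_lit 296994) <|
  .cons (nat_lit 10) (nat_lit 267294) <|
  .cons (nat_lit 11) (nat_lit 242995) <|
  .cons (nat_lit 12) (nat_lit 222745) <|
  .cons (nat_lit 13) (nat_lit 205611) <|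
  .cons (nat_lit 14) (nat_lit 190924) <|
  T9x14

def T9x0 : TL :=
  .cons (nat_lit 1) (nat_lit 2097152) <|
  .cons (nat_lit 2) (nat_lit 1482910) <|
  .cons (nat_lit 3) (nat_lit 890982) <|
  .cons (nat_lit 4) (nat_lit 668236) <|
  .cons (nat_lit 5) (nat_lit 534589) <|
  .cons (nat_lit 6) (nat_lit 445491) <|
  .cons (nat_lit 7) (nat_lit 381849) <|
  T9x7

def J9 : TT :=
  .cons (nat_lit 611) T9x63 <|
  .cons (nat_lit 289) T9x56 <|
  .cons (nat_lit 135) T9x49 <|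
  .cons (nat_lit 62) T9x42 <|
  .cons (nat_lit 41) T9x35 <|
  .cons (nat_lit 29) T9x28 <|
  .cons (nat_lit 22) T9x21 <|
  .cons (nat_lit 15) T9x14 <|
  .cons (nat_lit 8) T9x7 <|
  .nil

def T10x63 : TL :=
  .cons (nat_lit 820) (nat_lit 5045) <|
  .cons (nat_lit 879) (nat_lit 2193) <|
  .cons (nat_lit 1009) (nat_lit 2046) <|
  .cons (nat_lit 1158) (nat_lit 1782) <|
  .cons (nat_lit 1160) (nat_lit 1553) <|
  .nil

def T10x56 : TL :=
  .cons (nat_lit 381) (nat_lit 13091) <|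
  .cons (nat_lit 437) (nat_lit 11446) <|
  .cons (nat_lit 501) (nat_lit 9982) <|
  .cons (nat_lit 574) (nat_lit 8709) <|
  .cons (nat_lit 581) (nat_lit 7604) <|
  .cons (nat_lit 666) (nat_lit 6631) <|
  .cons (nat_lit 764) (nat_lit 5786) <|
  T10x63

def T10x49 : TL :=
  .cons (nat_lit 167) (nat_lit 31879) <|
  .cons (nat_lit 190) (nat_lit 27894) <|
  .cons (nat_lit 217) (nat_lit 24535) <|
  .cons (nat_lit 248) (nat_lit 21496) <|
  .cons (nat_lit 284) (nat_lit 18820) <|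
  .cons (nat_lit 291) (nat_lit 16442) <|
  .cons (nat_lit 333) (nat_lit 14974) <|
  T10x56

def T10x42 : TL :=
  .cons (nat_lit 73) (nat_lit 68806) <|
  .cons (nat_lit 83) (nat_lit 65107) <|
  .cons (nat_lit 94) (nat_lit 57357) <|
  .cons (nat_lit 107) (nat_lit 50715) <|
  .cons (nat_lit 122) (nat_lit 44611) <|
  .cons (nat_lit 139) (nat_lit 39170) <|
  .cons (nat_lit 146) (nat_lit 34414) <|
  T10x49

def T10x35 : TL :=
  .cons (nat_lit 46) (nat_lit 111028) <|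
  .cons (nat_lit 49) (nat_lit 103941) <|
  .cons (nat_lit 52) (nat_lit 97704) <|
  .cons (nat_lit 55) (nat_lit 92174) <|
  .cons (nat_lit 58) (nat_lit 87236) <|
  .cons (nat_lit 62) (nat_lit 82800) <|
  .cons (nat_lit 70) (nat_lit 77543) <|
  T10x42

def T10x28 : TL :=
  .cons (nat_lit 32) (nat_lit 157588) <|
  .cons (nat_lit 34) (nat_lit 148037) <|
  .cons (nat_lit 36) (nat_lit 139578) <|
  .cons (nat_lit 37) (nat_lit 132033) <|
  .cons (nat_lit 39) (nat_lit 128559) <|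
  .cons (nat_lit 41) (nat_lit 122131) <|
  .cons (nat_lit 43) (nat_lit 116315) <|
  T10x35

def T10x21 : TL :=
  .cons (nat_lit 23) (nat_lit 212402) <|
  .cons (nat_lit 24) (nat_lit 203551) <|
  .cons (nat_lit 25) (nat_lit 195409) <|
  .cons (nat_lit 26) (nat_lit 187894) <|
  .cons (nat_lit 27) (nat_lit 180935) <|
  .cons (nat_lit 28) (nat_lit 174473) <|
  .cons (nat_lit 30) (nat_lit 168456) <|
  T10x28

def T10x14 : TL :=
  .cons (nat_lit 16) (nat_lit 301124) <|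
  .cons (nat_lit 17) (nat_lit 283411) <|
  .cons (nat_lit 18) (nat_lit 267666) <|
  .cons (nat_lit 19) (nat_lit 257118) <|
  .cons (nat_lit 20) (nat_lit 244262) <|
  .cons (nat_lit 21) (nat_lit 232630) <|
  .cons (nat_lit 22) (nat_lit 222056) <|
  T10x21

def T10x7 : TL :=
  .cons (nat_lit 9) (nat_lit 542805) <|
  .cons (nat_lit 10) (nat_lit 481799) <|
  .cons (nat_lit 11) (nat_lit 437999) <|
  .cons (nat_lit 12) (nat_lit 401499) <|
  .cons (nat_lit 13) (nat_lit 370614) <|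
  .cons (nat_lit 14) (nat_lit 344142) <|
  .cons (nat_lit 15) (nat_lit 321199) <|
  T10x14

def T10x0 : TL :=
  .cons (nat_lit 2) (nat_lit 2965820) <|
  .cons (nat_lit 3) (nat_lit 1564769) <|
  .cons (nat_lit 4) (nat_lit 1355130) <|
  .cons (nat_lit 5) (nat_lit 977049) <|
  .cons (nat_lit 6) (nat_lit 814207) <|
  .cons (nat_lit 7) (nat_lit 697892) <|
  .cons (nat_lit 8) (nat_lit 610655) <|
  T10x7

def J10 : TT :=
  .cons (nat_lit 765) T10x63 <|
  .cons (nat_lit 334) T10x56 <|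
  .cons (nat_lit 147) T10x49 <|
  .cons (nat_lit 71) T10x42 <|
  .cons (nat_lit 44) T10x35 <|
  .cons (nat_lit 31) T10x28 <|
  .cons (nat_lit 23) T10x21 <|
  .cons (nat_lit 16) T10x14 <|
  .cons (nat_lit 9) T10x7 <|
  .nil

def T11x63 : TL :=
  .cons (nat_lit 1154) (nat_lit 6679) <|
  .cons (nat_lit 1243) (nat_lit 5818) <|
  .nil

def T11x56 : TL :=
  .cons (nat_lit 501) (nat_lit 17141) <|
  .cons (nat_lit 574) (nat_lit 14956) <|
  .cons (nat_lit 621) (nat_lit 13057) <|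
  .cons (nat_lit 666) (nat_lit 10803) <|
  .cons (nat_lit 764) (nat_lit 10074) <|
  .cons (nat_lit 876) (nat_lit 8784) <|
  .cons (nat_lit 1005) (nat_lit 7662) <|
  T11x63

def T11x49 : TL :=
  .cons (nat_lit 217) (nat_lit 41550) <|
  .cons (nat_lit 248) (nat_lit 36404) <|
  .cons (nat_lit 284) (nat_lit 31871) <|
  .cons (nat_lit 310) (nat_lit 27845) <|
  .cons (nat_lit 333) (nat_lit 24141) <|
  .cons (nat_lit 381) (nat_lit 22479) <|
  .cons (nat_lit 437) (nat_lit 19654) <|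
  T11x56

def T11x42 : TL :=
  .cons (nat_lit 94) (nat_lit 97133) <|
  .cons (nat_lit 107) (nat_lit 85886) <|
  .cons (nat_lit 122) (nat_lit 75548) <|
  .cons (nat_lit 139) (nat_lit 66335) <|
  .cons (nat_lit 155) (nat_lit 58280) <|
  .cons (nat_lit 167) (nat_lit 50872) <|
  .cons (nat_lit 190) (nat_lit 47238) <|
  T11x49

def T11x35 : TL :=
  .cons (nat_lit 52) (nat_lit 163184) <|
  .cons (nat_lit 55) (nat_lit 153947) <|
  .cons (nat_lit 58) (nat_lit 145700) <|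
  .cons (nat_lit 62) (nat_lit 138291) <|
  .cons (nat_lit 70) (nat_lit 129511) <|
  .cons (nat_lit 77) (nat_lit 114918) <|
  .cons (nat_lit 83) (nat_lit 104605) <|
  T11x42

def T11x28 : TL :=
  .cons (nat_lit 36) (nat_lit 233120) <|
  .cons (nat_lit 38) (nat_lit 220519) <|
  .cons (nat_lit 39) (nat_lit 209210) <|
  .cons (nat_lit 41) (nat_lit 203980) <|
  .cons (nat_lit 43) (nat_lit 194267) <|
  .cons (nat_lit 46) (nat_lit 185436) <|
  .cons (nat_lit 49) (nat_lit 173600) <|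
  T11x35

def T11x21 : TL :=
  .cons (nat_lit 25) (nat_lit 326368) <|
  .cons (nat_lit 26) (nat_lit 313816) <|
  .cons (nat_lit 27) (nat_lit 302193) <|
  .cons (nat_lit 28) (nat_lit 291400) <|
  .cons (nat_lit 30) (nat_lit 281352) <|
  .cons (nat_lit 32) (nat_lit 263200) <|
  .cons (nat_lit 34) (nat_lit 247249) <|
  T11x28

def T11x14 : TL :=
  .cons (nat_lit 18) (nat_lit 526571) <|
  .cons (nat_lit 19) (nat_lit 498086) <|
  .cons (nat_lit 20) (nat_lit 407961) <|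
  .cons (nat_lit 21) (nat_lit 388534) <|
  .cons (nat_lit 22) (nat_lit 370873) <|
  .cons (nat_lit 23) (nat_lit 354748) <|
  .cons (nat_lit 24) (nat_lit 339967) <|
  T11x21

def T11x7 : TL :=
  .cons (nat_lit 9) (nat_lit 906580) <|
  .cons (nat_lit 10) (nat_lit 686564) <|
  .cons (nat_lit 11) (nat_lit 654613) <|
  .cons (nat_lit 12) (nat_lit 626744) <|
  .cons (nat_lit 13) (nat_lit 602156) <|
  .cons (nat_lit 14) (nat_lit 580252) <|
  .cons (nat_lit 16) (nat_lit 560577) <|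
  T11x14

def T11x0 : TL :=
  .cons (nat_lit 2) (nat_lit 4495343) <|
  .cons (nat_lit 3) (nat_lit 2577460) <|
  .cons (nat_lit 4) (nat_lit 2232146) <|
  .cons (nat_lit 5) (nat_lit 1631844) <|
  .cons (nat_lit 6) (nat_lit 1359870) <|
  .cons (nat_lit 7) (nat_lit 1165603) <|
  .cons (nat_lit 8) (nat_lit 1019902) <|
  T11x7

def J11 : TT :=
  .cons (nat_lit 1006) T11x63 <|
  .cons (nat_lit 438) T11x56 <|
  .cons (nat_lit 191) T11x49 <|
  .cons (nat_lit 84) T11x42 <|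
  .cons (nat_lit 50) T11x35 <|
  .cons (nat_lit 35) T11x28 <|
  .cons (nat_lit 25) T11x21 <|
  .cons (nat_lit 17) T11x14 <|
  .cons (nat_lit 9) T11x7 <|
  .nil

def T12x63 : TL :=
  .cons (nat_lit 1324) (nat_lit 8174) <|
  .cons (nat_lit 1443) (nat_lit 4029) <|
  .cons (nat_lit 1572) (nat_lit 3392) <|
  .cons (nat_lit 1713) (nat_lit 2859) <|
  .cons (nat_lit 1867) (nat_lit 2408) <|
  .cons (nat_lit 1871) (nat_lit 2027) <|
  .nil

def T12x56 : TL :=
  .cons (nat_lit 656) (nat_lit 20418) <|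
  .cons (nat_lit 662) (nat_lit 17808) <|
  .cons (nat_lit 759) (nat_lit 16238) <|
  .cons (nat_lit 871) (nat_lit 14165) <|
  .cons (nat_lit 999) (nat_lit 12346) <|
  .cons (nat_lit 1146) (nat_lit 10766) <|
  .cons (nat_lit 1316) (nat_lit 9386) <|
  T12x63

def T12x49 : TL :=
  .cons (nat_lit 282) (nat_lit 49867) <|
  .cons (nat_lit 323) (nat_lit 43699) <|
  .cons (nat_lit 331) (nat_lit 38169) <|
  .cons (nat_lit 379) (nat_lit 35240) <|
  .cons (nat_lit 435) (nat_lit 30789) <|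
  .cons (nat_lit 499) (nat_lit 26834) <|
  .cons (nat_lit 572) (nat_lit 23399) <|
  T12x56

def T12x42 : TL :=
  .cons (nat_lit 122) (nat_lit 116108) <|
  .cons (nat_lit 139) (nat_lit 101948) <|
  .cons (nat_lit 158) (nat_lit 89569) <|
  .cons (nat_lit 166) (nat_lit 78866) <|
  .cons (nat_lit 189) (nat_lit 74054) <|
  .cons (nat_lit 216) (nat_lit 65089) <|
  .cons (nat_lit 247) (nat_lit 56991) <|
  T12x49

def T12x35 : TL :=
  .cons (nat_lit 57) (nat_lit 231177) <|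
  .cons (nat_lit 61) (nat_lit 219219) <|
  .cons (nat_lit 69) (nat_lit 205076) <|
  .cons (nat_lit 78) (nat_lit 181639) <|
  .cons (nat_lit 83) (nat_lit 160946) <|
  .cons (nat_lit 94) (nat_lit 149282) <|
  .cons (nat_lit 107) (nat_lit 131996) <|
  T12x42

def T12x28 : TL :=
  .cons (nat_lit 40) (nat_lit 321530) <|
  .cons (nat_lit 41) (nat_lit 305846) <|
  .cons (nat_lit 42) (nat_lit 302732) <|
  .cons (nat_lit 45) (nat_lit 295691) <|
  .cons (nat_lit 48) (nat_lit 276407) <|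
  .cons (nat_lit 51) (nat_lit 259484) <|
  .cons (nat_lit 54) (nat_lit 244514) <|
  T12x35

def T12x21 : TL :=
  .cons (nat_lit 27) (nat_lit 464433) <|
  .cons (nat_lit 28) (nat_lit 447846) <|
  .cons (nat_lit 30) (nat_lit 432403) <|
  .cons (nat_lit 32) (nat_lit 404506) <|
  .cons (nat_lit 34) (nat_lit 379991) <|
  .cons (nat_lit 36) (nat_lit 358277) <|
  .cons (nat_lit 38) (nat_lit 338910) <|
  T12x28

def T12x14 : TL :=
  .cons (nat_lit 20) (nat_lit 744563) <|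
  .cons (nat_lit 21) (nat_lit 597128) <|
  .cons (nat_lit 22) (nat_lit 569986) <|
  .cons (nat_lit 23) (nat_lit 545204) <|
  .cons (nat_lit 24) (nat_lit 522487) <|
  .cons (nat_lit 25) (nat_lit 501588) <|
  .cons (nat_lit 26) (nat_lit 482296) <|
  T12x21

def T12x7 : TL :=
  .cons (nat_lit 10) (nat_lit 1187914) <|
  .cons (nat_lit 11) (nat_lit 978548) <|
  .cons (nat_lit 12) (nat_lit 936889) <|
  .cons (nat_lit 13) (nat_lit 900133) <|
  .cons (nat_lit 14) (nat_lit 867390) <|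
  .cons (nat_lit 16) (nat_lit 837979) <|
  .cons (nat_lit 18) (nat_lit 787144) <|
  T12x14

def T12x0 : TL :=
  .cons (nat_lit 2) (nat_lit 6401595) <|
  .cons (nat_lit 3) (nat_lit 3933872) <|
  .cons (nat_lit 4) (nat_lit 3406833) <|
  .cons (nat_lit 5) (nat_lit 2309318) <|
  .cons (nat_lit 6) (nat_lit 2108110) <|
  .cons (nat_lit 7) (nat_lit 1951730) <|
  .cons (nat_lit 8) (nat_lit 1825676) <|
  T12x7

def J12 : TT :=
  .cons (nat_lit 1317) T12x63 <|
  .cons (nat_lit 573) T12x56 <|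
  .cons (nat_lit 248) T12x49 <|
  .cons (nat_lit 108) T12x42 <|
  .cons (nat_lit 55) T12x35 <|
  .cons (nat_lit 39) T12x28 <|
  .cons (nat_lit 27) T12x21 <|
  .cons (nat_lit 19) T12x14 <|
  .cons (nat_lit 9) T12x7 <|
  .nil

def T13x63 : TL :=
  .cons (nat_lit 1460) (nat_lit 10657) <|
  .cons (nat_lit 1591) (nat_lit 9772) <|
  .cons (nat_lit 1734) (nat_lit 8230) <|
  .cons (nat_lit 1890) (nat_lit 6929) <|
  .cons (nat_lit 1978) (nat_lit 5833) <|
  .nil

def T13x56 : TL :=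
  .cons (nat_lit 699) (nat_lit 27791) <|
  .cons (nat_lit 750) (nat_lit 23637) <|
  .cons (nat_lit 860) (nat_lit 22032) <|
  .cons (nat_lit 987) (nat_lit 19217) <|
  .cons (nat_lit 1132) (nat_lit 16747) <|
  .cons (nat_lit 1300) (nat_lit 14603) <|
  .cons (nat_lit 1398) (nat_lit 12718) <|
  T13x63

def T13x49 : TL :=
  .cons (nat_lit 321) (nat_lit 66708) <|
  .cons (nat_lit 349) (nat_lit 58214) <|
  .cons (nat_lit 375) (nat_lit 51375) <|
  .cons (nat_lit 429) (nat_lit 47822) <|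
  .cons (nat_lit 491) (nat_lit 41817) <|
  .cons (nat_lit 563) (nat_lit 36547) <|
  .cons (nat_lit 646) (nat_lit 31881) <|
  T13x56

def T13x42 : TL :=
  .cons (nat_lit 139) (nat_lit 154525) <|
  .cons (nat_lit 158) (nat_lit 135761) <|
  .cons (nat_lit 174) (nat_lit 119538) <|
  .cons (nat_lit 187) (nat_lit 107114) <|
  .cons (nat_lit 214) (nat_lit 99707) <|
  .cons (nat_lit 245) (nat_lit 87185) <|
  .cons (nat_lit 280) (nat_lit 76199) <|
  T13x49

def T13x35 : TL :=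
  .cons (nat_lit 60) (nat_lit 333449) <|
  .cons (nat_lit 68) (nat_lit 311584) <|
  .cons (nat_lit 77) (nat_lit 275458) <|
  .cons (nat_lit 87) (nat_lit 243674) <|
  .cons (nat_lit 94) (nat_lit 215984) <|
  .cons (nat_lit 107) (nat_lit 200069) <|
  .cons (nat_lit 122) (nat_lit 175987) <|
  T13x42

def T13x28 : TL :=
  .cons (nat_lit 42) (nat_lit 463576) <|
  .cons (nat_lit 43) (nat_lit 442014) <|
  .cons (nat_lit 44) (nat_lit 431969) <|
  .cons (nat_lit 47) (nat_lit 422369) <|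
  .cons (nat_lit 50) (nat_lit 395971) <|
  .cons (nat_lit 53) (nat_lit 372679) <|
  .cons (nat_lit 56) (nat_lit 351974) <|
  T13x35

def T13x21 : TL :=
  .cons (nat_lit 28) (nat_lit 678808) <|
  .cons (nat_lit 30) (nat_lit 655401) <|
  .cons (nat_lit 32) (nat_lit 613117) <|
  .cons (nat_lit 34) (nat_lit 575958) <|
  .cons (nat_lit 36) (nat_lit 543046) <|
  .cons (nat_lit 38) (nat_lit 513692) <|
  .cons (nat_lit 40) (nat_lit 487349) <|
  T13x28

def T13x14 : TL :=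
  .cons (nat_lit 21) (nat_lit 1015558) <|
  .cons (nat_lit 22) (nat_lit 863938) <|
  .cons (nat_lit 23) (nat_lit 826375) <|
  .cons (nat_lit 24) (nat_lit 791943) <|
  .cons (nat_lit 25) (nat_lit 760265) <|
  .cons (nat_lit 26) (nat_lit 731024) <|
  .cons (nat_lit 27) (nat_lit 703949) <|
  T13x21

def T13x7 : TL :=
  .cons (nat_lit 11) (nat_lit 1403195) <|
  .cons (nat_lit 12) (nat_lit 1343457) <|
  .cons (nat_lit 13) (nat_lit 1290751) <|
  .cons (nat_lit 14) (nat_lit 1243799) <|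
  .cons (nat_lit 16) (nat_lit 1201624) <|
  .cons (nat_lit 18) (nat_lit 1128729) <|
  .cons (nat_lit 20) (nat_lit 1067671) <|
  T13x14

def T13x0 : TL :=
  .cons (nat_lit 2) (nat_lit 8928584) <|
  .cons (nat_lit 4) (nat_lit 5572912) <|
  .cons (nat_lit 5) (nat_lit 3452083) <|
  .cons (nat_lit 6) (nat_lit 3151306) <|
  .cons (nat_lit 7) (nat_lit 2917543) <|
  .cons (nat_lit 8) (nat_lit 2729111) <|
  .cons (nat_lit 10) (nat_lit 1751306) <|
  T13x7

def J13 : TT :=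
  .cons (nat_lit 1399) T13x63 <|
  .cons (nat_lit 647) T13x56 <|
  .cons (nat_lit 281) T13x49 <|
  .cons (nat_lit 123) T13x42 <|
  .cons (nat_lit 57) T13x35 <|
  .cons (nat_lit 41) T13x28 <|
  .cons (nat_lit 28) T13x21 <|
  .cons (nat_lit 21) T13x14 <|
  .cons (nat_lit 11) T13x7 <|
  .nil

def T14x63 : TL :=
  .cons (nat_lit 2074) (nat_lit 11664) <|
  .cons (nat_lit 2077) (nat_lit 10163) <|
  .cons (nat_lit 2263) (nat_lit 5705) <|
  .cons (nat_lit 2467) (nat_lit 4806) <|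
  .cons (nat_lit 2690) (nat_lit 4044) <|
  .cons (nat_lit 2933) (nat_lit 3401) <|
  .cons (nat_lit 2936) (nat_lit 2861) <|
  .nil

def T14x56 : TL :=
  .cons (nat_lit 903) (nat_lit 30742) <|
  .cons (nat_lit 1036) (nat_lit 26797) <|
  .cons (nat_lit 1189) (nat_lit 23360) <|
  .cons (nat_lit 1365) (nat_lit 20357) <|
  .cons (nat_lit 1468) (nat_lit 17734) <|
  .cons (nat_lit 1574) (nat_lit 14356) <|
  .cons (nat_lit 1807) (nat_lit 13389) <|
  T14x63

def T14x49 : TL :=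
  .cons (nat_lit 394) (nat_lit 71538) <|
  .cons (nat_lit 452) (nat_lit 66648) <|
  .cons (nat_lit 518) (nat_lit 58115) <|
  .cons (nat_lit 594) (nat_lit 50724) <|
  .cons (nat_lit 681) (nat_lit 44245) <|
  .cons (nat_lit 734) (nat_lit 38601) <|
  .cons (nat_lit 787) (nat_lit 32959) <|
  T14x56

def T14x42 : TL :=
  .cons (nat_lit 183) (nat_lit 163358) <|
  .cons (nat_lit 197) (nat_lit 147100) <|
  .cons (nat_lit 226) (nat_lit 136699) <|
  .cons (nat_lit 259) (nat_lit 119235) <|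
  .cons (nat_lit 296) (nat_lit 104101) <|
  .cons (nat_lit 339) (nat_lit 91132) <|
  .cons (nat_lit 367) (nat_lit 79607) <|
  T14x49

def T14x35 : TL :=
  .cons (nat_lit 80) (nat_lit 386538) <|
  .cons (nat_lit 91) (nat_lit 338817) <|
  .cons (nat_lit 98) (nat_lit 298306) <|
  .cons (nat_lit 112) (nat_lit 277214) <|
  .cons (nat_lit 128) (nat_lit 242869) <|
  .cons (nat_lit 146) (nat_lit 212746) <|
  .cons (nat_lit 167) (nat_lit 186695) <|
  T14x42

def T14x28 : TL :=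
  .cons (nat_lit 46) (nat_lit 596613) <|
  .cons (nat_lit 49) (nat_lit 583919) <|
  .cons (nat_lit 52) (nat_lit 548884) <|
  .cons (nat_lit 55) (nat_lit 517815) <|
  .cons (nat_lit 58) (nat_lit 490075) <|
  .cons (nat_lit 62) (nat_lit 465156) <|
  .cons (nat_lit 70) (nat_lit 435622) <|
  T14x35

def T14x21 : TL :=
  .cons (nat_lit 32) (nat_lit 873109) <|
  .cons (nat_lit 34) (nat_lit 820194) <|
  .cons (nat_lit 36) (nat_lit 773325) <|
  .cons (nat_lit 38) (nat_lit 731524) <|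
  .cons (nat_lit 40) (nat_lit 694010) <|
  .cons (nat_lit 42) (nat_lit 660156) <|
  .cons (nat_lit 45) (nat_lit 629451) <|
  T14x28

def T14x14 : TL :=
  .cons (nat_lit 23) (nat_lit 1176800) <|
  .cons (nat_lit 24) (nat_lit 1127766) <|
  .cons (nat_lit 25) (nat_lit 1082656) <|
  .cons (nat_lit 26) (nat_lit 1041015) <|
  .cons (nat_lit 27) (nat_lit 1002459) <|
  .cons (nat_lit 28) (nat_lit 966657) <|
  .cons (nat_lit 30) (nat_lit 933324) <|
  T14x21

def T14x7 : TL :=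
  .cons (nat_lit 12) (nat_lit 1860835) <|
  .cons (nat_lit 13) (nat_lit 1787832) <|
  .cons (nat_lit 14) (nat_lit 1722798) <|
  .cons (nat_lit 16) (nat_lit 1664381) <|
  .cons (nat_lit 18) (nat_lit 1563414) <|
  .cons (nat_lit 20) (nat_lit 1478841) <|
  .cons (nat_lit 22) (nat_lit 1406659) <|
  T14x14

def T14x0 : TL :=
  .cons (nat_lit 2) (nat_lit 11945798) <|
  .cons (nat_lit 4) (nat_lit 7456152) <|
  .cons (nat_lit 5) (nat_lit 4881983) <|
  .cons (nat_lit 6) (nat_lit 4456620) <|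
  .cons (nat_lit 7) (nat_lit 4126029) <|
  .cons (nat_lit 8) (nat_lit 3859546) <|
  .cons (nat_lit 11) (nat_lit 2459613) <|
  T14x7

def J14 : TT :=
  .cons (nat_lit 1808) T14x63 <|
  .cons (nat_lit 788) T14x56 <|
  .cons (nat_lit 368) T14x49 <|
  .cons (nat_lit 168) T14x42 <|
  .cons (nat_lit 71) T14x35 <|
  .cons (nat_lit 46) T14x28 <|
  .cons (nat_lit 31) T14x21 <|
  .cons (nat_lit 23) T14x14 <|
  .cons (nat_lit 12) T14x7 <|
  .nil

def T15x70 : TL :=
  .cons (nat_lit 3061) (nat_lit 6136) <|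
  .nil

def T15x63 : TL :=
  .cons (nat_lit 1883) (nat_lit 18174) <|
  .cons (nat_lit 2162) (nat_lit 15830) <|
  .cons (nat_lit 2165) (nat_lit 13788) <|
  .cons (nat_lit 2360) (nat_lit 12231) <|
  .cons (nat_lit 2573) (nat_lit 10294) <|
  .cons (nat_lit 2804) (nat_lit 8661) <|
  .cons (nat_lit 3057) (nat_lit 7293) <|
  T15x70

def T15x56 : TL :=
  .cons (nat_lit 820) (nat_lit 43502) <|
  .cons (nat_lit 941) (nat_lit 40587) <|
  .cons (nat_lit 1080) (nat_lit 35374) <|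
  .cons (nat_lit 1240) (nat_lit 30825) <|
  .cons (nat_lit 1423) (nat_lit 26851) <|
  .cons (nat_lit 1530) (nat_lit 23400) <|
  .cons (nat_lit 1640) (nat_lit 19480) <|
  T15x63

def T15x49 : TL :=
  .cons (nat_lit 382) (nat_lit 104610) <|
  .cons (nat_lit 410) (nat_lit 93248) <|
  .cons (nat_lit 470) (nat_lit 86896) <|
  .cons (nat_lit 539) (nat_lit 75826) <|
  .cons (nat_lit 618) (nat_lit 66137) <|
  .cons (nat_lit 709) (nat_lit 57696) <|
  .cons (nat_lit 765) (nat_lit 50301) <|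
  T15x56

def T15x42 : TL :=
  .cons (nat_lit 172) (nat_lit 244940) <|
  .cons (nat_lit 191) (nat_lit 215207) <|
  .cons (nat_lit 205) (nat_lit 191241) <|
  .cons (nat_lit 234) (nat_lit 178244) <|
  .cons (nat_lit 267) (nat_lit 156248) <|
  .cons (nat_lit 306) (nat_lit 137008) <|
  .cons (nat_lit 350) (nat_lit 119603) <|
  T15x49

def T15x35 : TL :=
  .cons (nat_lit 78) (nat_lit 531871) <|
  .cons (nat_lit 88) (nat_lit 471278) <|
  .cons (nat_lit 95) (nat_lit 418325) <|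
  .cons (nat_lit 102) (nat_lit 387822) <|
  .cons (nat_lit 116) (nat_lit 361465) <|
  .cons (nat_lit 132) (nat_lit 318213) <|
  .cons (nat_lit 151) (nat_lit 279932) <|
  T15x42

def T15x28 : TL :=
  .cons (nat_lit 47) (nat_lit 798226) <|
  .cons (nat_lit 48) (nat_lit 775645) <|
  .cons (nat_lit 51) (nat_lit 759815) <|
  .cons (nat_lit 54) (nat_lit 715980) <|
  .cons (nat_lit 57) (nat_lit 676926) <|
  .cons (nat_lit 61) (nat_lit 641913) <|
  .cons (nat_lit 69) (nat_lit 600499) <|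
  T15x35

def T15x21 : TL :=
  .cons (nat_lit 32) (nat_lit 1184464) <|
  .cons (nat_lit 34) (nat_lit 1112678) <|
  .cons (nat_lit 36) (nat_lit 1049097) <|
  .cons (nat_lit 38) (nat_lit 992389) <|
  .cons (nat_lit 40) (nat_lit 941497) <|
  .cons (nat_lit 42) (nat_lit 895570) <|
  .cons (nat_lit 45) (nat_lit 853916) <|
  T15x28

def T15x14 : TL :=
  .cons (nat_lit 23) (nat_lit 1761311) <|
  .cons (nat_lit 24) (nat_lit 1529933) <|
  .cons (nat_lit 25) (nat_lit 1468736) <|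
  .cons (nat_lit 26) (nat_lit 1412246) <|
  .cons (nat_lit 27) (nat_lit 1359940) <|
  .cons (nat_lit 28) (nat_lit 1311371) <|
  .cons (nat_lit 30) (nat_lit 1266151) <|
  T15x21

def T15x7 : TL :=
  .cons (nat_lit 12) (nat_lit 2438425) <|
  .cons (nat_lit 13) (nat_lit 2342763) <|
  .cons (nat_lit 14) (nat_lit 2257543) <|
  .cons (nat_lit 16) (nat_lit 2180994) <|
  .cons (nat_lit 18) (nat_lit 2048687) <|
  .cons (nat_lit 20) (nat_lit 1937864) <|
  .cons (nat_lit 22) (nat_lit 1843276) <|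
  T15x14

def T15x0 : TL :=
  .cons (nat_lit 2) (nat_lit 15331547) <|
  .cons (nat_lit 4) (nat_lit 9569419) <|
  .cons (nat_lit 5) (nat_lit 6531740) <|
  .cons (nat_lit 6) (nat_lit 5962635) <|
  .cons (nat_lit 7) (nat_lit 5520327) <|
  .cons (nat_lit 8) (nat_lit 5163793) <|
  .cons (nat_lit 11) (nat_lit 3313673) <|
  T15x7

def J15 : TT :=
  .cons (nat_lit 3058) T15x70 <|
  .cons (nat_lit 1641) T15x63 <|
  .cons (nat_lit 766) T15x56 <|
  .cons (nat_lit 351) T15x49 <|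
  .cons (nat_lit 152) T15x42 <|
  .cons (nat_lit 70) T15x35 <|
  .cons (nat_lit 46) T15x28 <|
  .cons (nat_lit 31) T15x21 <|
  .cons (nat_lit 23) T15x14 <|
  .cons (nat_lit 12) T15x7 <|
  .nil

def T16x63 : TL :=
  .cons (nat_lit 2257) (nat_lit 18455) <|
  .cons (nat_lit 2460) (nat_lit 18032) <|
  .cons (nat_lit 2681) (nat_lit 15180) <|
  .cons (nat_lit 2922) (nat_lit 12781) <|
  .cons (nat_lit 3186) (nat_lit 10761) <|
  .cons (nat_lit 3191) (nat_lit 9052) <|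
  .nil

def T16x56 : TL :=
  .cons (nat_lit 1126) (nat_lit 46676) <|
  .cons (nat_lit 1292) (nat_lit 40671) <|
  .cons (nat_lit 1483) (nat_lit 35449) <|
  .cons (nat_lit 1595) (nat_lit 30887) <|
  .cons (nat_lit 1710) (nat_lit 26063) <|
  .cons (nat_lit 1963) (nat_lit 24311) <|
  .cons (nat_lit 2253) (nat_lit 21180) <|
  T16x63

def T16x49 : TL :=
  .cons (nat_lit 489) (nat_lit 114781) <|
  .cons (nat_lit 561) (nat_lit 100258) <|
  .cons (nat_lit 644) (nat_lit 87413) <|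
  .cons (nat_lit 739) (nat_lit 76165) <|
  .cons (nat_lit 797) (nat_lit 66387) <|
  .cons (nat_lit 855) (nat_lit 57439) <|
  .cons (nat_lit 981) (nat_lit 53547) <|
  T16x56

def T16x42 : TL :=
  .cons (nat_lit 214) (nat_lit 252538) <|
  .cons (nat_lit 245) (nat_lit 234919) <|
  .cons (nat_lit 280) (nat_lit 205315) <|
  .cons (nat_lit 321) (nat_lit 179742) <|
  .cons (nat_lit 368) (nat_lit 156856) <|
  .cons (nat_lit 398) (nat_lit 136877) <|
  .cons (nat_lit 427) (nat_lit 123124) <|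
  T16x49

def T16x35 : TL :=
  .cons (nat_lit 99) (nat_lit 573951) <|
  .cons (nat_lit 107) (nat_lit 505076) <|
  .cons (nat_lit 122) (nat_lit 467663) <|
  .cons (nat_lit 139) (nat_lit 410631) <|
  .cons (nat_lit 158) (nat_lit 360769) <|
  .cons (nat_lit 181) (nat_lit 317658) <|
  .cons (nat_lit 199) (nat_lit 277514) <|
  T16x42

def T16x28 : TL :=
  .cons (nat_lit 50) (nat_lit 1010153) <|
  .cons (nat_lit 53) (nat_lit 990347) <|
  .cons (nat_lit 56) (nat_lit 935327) <|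
  .cons (nat_lit 60) (nat_lit 886099) <|
  .cons (nat_lit 68) (nat_lit 827995) <|
  .cons (nat_lit 77) (nat_lit 731995) <|
  .cons (nat_lit 87) (nat_lit 647534) <|
  T16x35

def T16x21 : TL :=
  .cons (nat_lit 36) (nat_lit 1423209) <|
  .cons (nat_lit 38) (nat_lit 1346279) <|
  .cons (nat_lit 40) (nat_lit 1277239) <|
  .cons (nat_lit 42) (nat_lit 1214935) <|
  .cons (nat_lit 45) (nat_lit 1158426) <|
  .cons (nat_lit 48) (nat_lit 1082877) <|
  .cons (nat_lit 49) (nat_lit 1016578) <|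
  T16x28

def T16x14 : TL :=
  .cons (nat_lit 25) (nat_lit 1992493) <|
  .cons (nat_lit 26) (nat_lit 1915859) <|
  .cons (nat_lit 27) (nat_lit 1844901) <|
  .cons (nat_lit 28) (nat_lit 1779012) <|
  .cons (nat_lit 30) (nat_lit 1717667) <|
  .cons (nat_lit 32) (nat_lit 1606849) <|
  .cons (nat_lit 34) (nat_lit 1509465) <|
  T16x21

def T16x7 : TL :=
  .cons (nat_lit 13) (nat_lit 3112797) <|
  .cons (nat_lit 14) (nat_lit 2999566) <|
  .cons (nat_lit 16) (nat_lit 2897856) <|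
  .cons (nat_lit 18) (nat_lit 2722062) <|
  .cons (nat_lit 20) (nat_lit 2574813) <|
  .cons (nat_lit 22) (nat_lit 2449135) <|
  .cons (nat_lit 24) (nat_lit 2340230) <|
  T16x14

def T16x0 : TL :=
  .cons (nat_lit 2) (nat_lit 20230098) <|
  .cons (nat_lit 4) (nat_lit 12281640) <|
  .cons (nat_lit 5) (nat_lit 8738995) <|
  .cons (nat_lit 6) (nat_lit 7977574) <|
  .cons (nat_lit 7) (nat_lit 7385798) <|
  .cons (nat_lit 8) (nat_lit 6908782) <|
  .cons (nat_lit 12) (nat_lit 4402830) <|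
  T16x7

def J16 : TT :=
  .cons (nat_lit 2254) T16x63 <|
  .cons (nat_lit 982) T16x56 <|
  .cons (nat_lit 428) T16x49 <|
  .cons (nat_lit 200) T16x42 <|
  .cons (nat_lit 88) T16x35 <|
  .cons (nat_lit 50) T16x28 <|
  .cons (nat_lit 35) T16x21 <|
  .cons (nat_lit 25) T16x14 <|
  .cons (nat_lit 13) T16x7 <|
  .nil

def T17x70 : TL :=
  .cons (nat_lit 4668) (nat_lit 5224) <|
  .cons (nat_lit 4672) (nat_lit 4396) <|
  .nil

def T17x63 : TL :=
  .cons (nat_lit 2777) (nat_lit 21152) <|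
  .cons (nat_lit 3027) (nat_lit 17809) <|
  .cons (nat_lit 3300) (nat_lit 14989) <|
  .cons (nat_lit 3305) (nat_lit 12613) <|
  .cons (nat_lit 3603) (nat_lit 8769) <|
  .cons (nat_lit 3928) (nat_lit 7379) <|
  .cons (nat_lit 4282) (nat_lit 6208) <|
  T17x70

def T17x56 : TL :=
  .cons (nat_lit 1339) (nat_lit 51424) <|
  .cons (nat_lit 1537) (nat_lit 44823) <|
  .cons (nat_lit 1652) (nat_lit 39053) <|
  .cons (nat_lit 1771) (nat_lit 32976) <|
  .cons (nat_lit 2034) (nat_lit 30761) <|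
  .cons (nat_lit 2337) (nat_lit 26785) <|
  .cons (nat_lit 2548) (nat_lit 25143) <|
  T17x63

def T17x49 : TL :=
  .cons (nat_lit 583) (nat_lit 126473) <|
  .cons (nat_lit 668) (nat_lit 110231) <|
  .cons (nat_lit 766) (nat_lit 96225) <|
  .cons (nat_lit 826) (nat_lit 83931) <|
  .cons (nat_lit 886) (nat_lit 72628) <|
  .cons (nat_lit 1017) (nat_lit 67716) <|
  .cons (nat_lit 1167) (nat_lit 59002) <|
  T17x56

def T17x42 : TL :=
  .cons (nat_lit 252) (nat_lit 294025) <|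
  .cons (nat_lit 289) (nat_lit 257999) <|
  .cons (nat_lit 331) (nat_lit 225081) <|
  .cons (nat_lit 379) (nat_lit 196607) <|
  .cons (nat_lit 413) (nat_lit 171773) <|
  .cons (nat_lit 443) (nat_lit 155495) <|
  .cons (nat_lit 508) (nat_lit 144989) <|
  T17x49

def T17x35 : TL :=
  .cons (nat_lit 111) (nat_lit 627632) <|
  .cons (nat_lit 126) (nat_lit 582801) <|
  .cons (nat_lit 144) (nat_lit 513966) <|
  .cons (nat_lit 165) (nat_lit 450163) <|
  .cons (nat_lit 188) (nat_lit 393215) <|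
  .cons (nat_lit 206) (nat_lit 345363) <|
  .cons (nat_lit 221) (nat_lit 315332) <|
  T17x42

def T17x28 : TL :=
  .cons (nat_lit 55) (nat_lit 1231580) <|
  .cons (nat_lit 58) (nat_lit 1165603) <|
  .cons (nat_lit 62) (nat_lit 1106335) <|
  .cons (nat_lit 70) (nat_lit 1036091) <|
  .cons (nat_lit 80) (nat_lit 919348) <|
  .cons (nat_lit 91) (nat_lit 805848) <|
  .cons (nat_lit 103) (nat_lit 709497) <|
  T17x35

def T17x21 : TL :=
  .cons (nat_lit 38) (nat_lit 1739868) <|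
  .cons (nat_lit 40) (nat_lit 1650644) <|
  .cons (nat_lit 42) (nat_lit 1570125) <|
  .cons (nat_lit 45) (nat_lit 1497095) <|
  .cons (nat_lit 48) (nat_lit 1399459) <|
  .cons (nat_lit 51) (nat_lit 1313778) <|
  .cons (nat_lit 52) (nat_lit 1255264) <|
  T17x28

def T17x14 : TL :=
  .cons (nat_lit 26) (nat_lit 2475966) <|
  .cons (nat_lit 27) (nat_lit 2384263) <|
  .cons (nat_lit 28) (nat_lit 2299111) <|
  .cons (nat_lit 30) (nat_lit 2219831) <|
  .cons (nat_lit 32) (nat_lit 2076616) <|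
  .cons (nat_lit 34) (nat_lit 1950761) <|
  .cons (nat_lit 36) (nat_lit 1839289) <|
  T17x21

def T17x7 : TL :=
  .cons (nat_lit 13) (nat_lit 3858958) <|
  .cons (nat_lit 14) (nat_lit 3718585) <|
  .cons (nat_lit 16) (nat_lit 3592494) <|
  .cons (nat_lit 18) (nat_lit 3374561) <|
  .cons (nat_lit 20) (nat_lit 3192015) <|
  .cons (nat_lit 22) (nat_lit 3036212) <|
  .cons (nat_lit 25) (nat_lit 2901201) <|
  T17x14

def T17x0 : TL :=
  .cons (nat_lit 2) (nat_lit 25606380) <|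
  .cons (nat_lit 4) (nat_lit 15120473) <|
  .cons (nat_lit 5) (nat_lit 11372420) <|
  .cons (nat_lit 6) (nat_lit 10381551) <|
  .cons (nat_lit 7) (nat_lit 9611449) <|
  .cons (nat_lit 8) (nat_lit 8990687) <|
  .cons (nat_lit 12) (nat_lit 5611674) <|
  T17x7

def J17 : TT :=
  .cons (nat_lit 4283) T17x70 <|
  .cons (nat_lit 2549) T17x63 <|
  .cons (nat_lit 1168) T17x56 <|
  .cons (nat_lit 509) T17x49 <|
  .cons (nat_lit 222) T17x42 <|
  .cons (nat_lit 104) T17x35 <|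
  .cons (nat_lit 53) T17x28 <|
  .cons (nat_lit 37) T17x21 <|
  .cons (nat_lit 26) T17x14 <|
  .cons (nat_lit 13) T17x7 <|
  .nil

def T18x63 : TL :=
  .cons (nat_lit 4799) (nat_lit 7339) <|
  .cons (nat_lit 4803) (nat_lit 6175) <|
  .nil

def T18x56 : TL :=
  .cons (nat_lit 2574) (nat_lit 26987) <|
  .cons (nat_lit 2955) (nat_lit 25173) <|
  .cons (nat_lit 3394) (nat_lit 21929) <|
  .cons (nat_lit 3397) (nat_lit 19093) <|
  .cons (nat_lit 3704) (nat_lit 12322) <|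
  .cons (nat_lit 4038) (nat_lit 10365) <|
  .cons (nat_lit 4402) (nat_lit 8721) <|
  T18x63

def T18x49 : TL :=
  .cons (nat_lit 1287) (nat_lit 68231) <|
  .cons (nat_lit 1477) (nat_lit 59437) <|
  .cons (nat_lit 1696) (nat_lit 51796) <|
  .cons (nat_lit 1699) (nat_lit 45112) <|
  .cons (nat_lit 1950) (nat_lit 41438) <|
  .cons (nat_lit 2238) (nat_lit 36107) <|
  .cons (nat_lit 2401) (nat_lit 31462) <|
  T18x56

def T18x42 : TL :=
  .cons (nat_lit 558) (nat_lit 165820) <|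
  .cons (nat_lit 640) (nat_lit 144759) <|
  .cons (nat_lit 734) (nat_lit 126240) <|
  .cons (nat_lit 842) (nat_lit 110095) <|
  .cons (nat_lit 850) (nat_lit 95990) <|
  .cons (nat_lit 976) (nat_lit 89959) <|
  .cons (nat_lit 1121) (nat_lit 78357) <|
  T18x49

def T18x35 : TL :=
  .cons (nat_lit 244) (nat_lit 383411) <|
  .cons (nat_lit 279) (nat_lit 334897) <|
  .cons (nat_lit 320) (nat_lit 293035) <|
  .cons (nat_lit 366) (nat_lit 255607) <|
  .cons (nat_lit 420) (nat_lit 223569) <|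
  .cons (nat_lit 425) (nat_lit 194893) <|
  .cons (nat_lit 487) (nat_lit 189953) <|
  T18x42

def T18x28 : TL :=
  .cons (nat_lit 107) (nat_lit 812376) <|
  .cons (nat_lit 122) (nat_lit 770327) <|
  .cons (nat_lit 139) (nat_lit 676385) <|
  .cons (nat_lit 158) (nat_lit 594252) <|
  .cons (nat_lit 181) (nat_lit 523241) <|
  .cons (nat_lit 206) (nat_lit 457117) <|
  .cons (nat_lit 213) (nat_lit 401910) <|
  T18x35

def T18x21 : TL :=
  .cons (nat_lit 54) (nat_lit 1519444) <|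
  .cons (nat_lit 57) (nat_lit 1491818) <|
  .cons (nat_lit 61) (nat_lit 1414655) <|
  .cons (nat_lit 69) (nat_lit 1323387) <|
  .cons (nat_lit 78) (nat_lit 1172142) <|
  .cons (nat_lit 88) (nat_lit 1038607) <|
  .cons (nat_lit 100) (nat_lit 921910) <|
  T18x28

def T18x14 : TL :=
  .cons (nat_lit 27) (nat_lit 2550866) <|
  .cons (nat_lit 31) (nat_lit 2504901) <|
  .cons (nat_lit 35) (nat_lit 2343120) <|
  .cons (nat_lit 40) (nat_lit 2209115) <|
  .cons (nat_lit 45) (nat_lit 2070035) <|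
  .cons (nat_lit 51) (nat_lit 1954297) <|
  .cons (nat_lit 53) (nat_lit 1838095) <|
  T18x21

def T18x7 : TL :=
  .cons (nat_lit 14) (nat_lit 4674311) <|
  .cons (nat_lit 16) (nat_lit 4515814) <|
  .cons (nat_lit 18) (nat_lit 4241868) <|
  .cons (nat_lit 20) (nat_lit 4012406) <|
  .cons (nat_lit 22) (nat_lit 3816559) <|
  .cons (nat_lit 25) (nat_lit 3646848) <|
  .cons (nat_lit 26) (nat_lit 3430007) <|
  T18x14

def T18x0 : TL :=
  .cons (nat_lit 2) (nat_lit 31744426) <|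
  .cons (nat_lit 4) (nat_lit 18232385) <|
  .cons (nat_lit 5) (nat_lit 14098476) <|
  .cons (nat_lit 6) (nat_lit 12870089) <|
  .cons (nat_lit 7) (nat_lit 11915387) <|
  .cons (nat_lit 8) (nat_lit 11145824) <|
  .cons (nat_lit 13) (nat_lit 6956836) <|
  T18x7

def J18 : TT :=
  .cons (nat_lit 4403) T18x63 <|
  .cons (nat_lit 2402) T18x56 <|
  .cons (nat_lit 1122) T18x49 <|
  .cons (nat_lit 488) T18x42 <|
  .cons (nat_lit 214) T18x35 <|
  .cons (nat_lit 101) T18x28 <|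
  .cons (nat_lit 54) T18x21 <|
  .cons (nat_lit 27) T18x14 <|
  .cons (nat_lit 14) T18x7 <|
  .nil

def T19x63 : TL :=
  .cons (nat_lit 3517) (nat_lit 23668) <|
  .cons (nat_lit 3834) (nat_lit 21602) <|
  .cons (nat_lit 4180) (nat_lit 18178) <|
  .cons (nat_lit 4558) (nat_lit 15294) <|
  .cons (nat_lit 4969) (nat_lit 12863) <|
  .cons (nat_lit 4973) (nat_lit 10823) <|
  .nil

def T19x56 : TL :=
  .cons (nat_lit 1759) (nat_lit 55213) <|
  .cons (nat_lit 2020) (nat_lit 50662) <|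
  .cons (nat_lit 2319) (nat_lit 44120) <|
  .cons (nat_lit 2486) (nat_lit 38433) <|
  .cons (nat_lit 2665) (nat_lit 33452) <|
  .cons (nat_lit 3060) (nat_lit 31206) <|
  .cons (nat_lit 3514) (nat_lit 27179) <|
  T19x63

def T19x49 : TL :=
  .cons (nat_lit 872) (nat_lit 134593) <|
  .cons (nat_lit 880) (nat_lit 117325) <|
  .cons (nat_lit 1010) (nat_lit 109989) <|
  .cons (nat_lit 1159) (nat_lit 95846) <|
  .cons (nat_lit 1331) (nat_lit 83534) <|
  .cons (nat_lit 1528) (nat_lit 72748) <|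
  .cons (nat_lit 1754) (nat_lit 63375) <|
  T19x56

def T19x42 : TL :=
  .cons (nat_lit 378) (nat_lit 313762) <|
  .cons (nat_lit 434) (nat_lit 274024) <|
  .cons (nat_lit 440) (nat_lit 238747) <|
  .cons (nat_lit 504) (nat_lit 232257) <|
  .cons (nat_lit 578) (nat_lit 202822) <|
  .cons (nat_lit 663) (nat_lit 176900) <|
  .cons (nat_lit 760) (nat_lit 154255) <|
  T19x49

def T19x35 : TL :=
  .cons (nat_lit 162) (nat_lit 726261) <|
  .cons (nat_lit 185) (nat_lit 637149) <|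
  .cons (nat_lit 212) (nat_lit 558361) <|
  .cons (nat_lit 220) (nat_lit 487583) <|
  .cons (nat_lit 251) (nat_lit 469933) <|
  .cons (nat_lit 288) (nat_lit 412124) <|
  .cons (nat_lit 330) (nat_lit 359360) <|
  T19x42

def T19x28 : TL :=
  .cons (nat_lit 70) (nat_lit 1648497) <|
  .cons (nat_lit 80) (nat_lit 1462751) <|
  .cons (nat_lit 91) (nat_lit 1282164) <|
  .cons (nat_lit 103) (nat_lit 1128862) <|
  .cons (nat_lit 110) (nat_lit 998608) <|
  .cons (nat_lit 125) (nat_lit 935633) <|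
  .cons (nat_lit 142) (nat_lit 824248) <|
  T19x35

def T19x21 : TL :=
  .cons (nat_lit 41) (nat_lit 2701395) <|
  .cons (nat_lit 47) (nat_lit 2535504) <|
  .cons (nat_lit 53) (nat_lit 2371747) <|
  .cons (nat_lit 54) (nat_lit 2236104) <|
  .cons (nat_lit 55) (nat_lit 1888278) <|
  .cons (nat_lit 58) (nat_lit 1854559) <|
  .cons (nat_lit 62) (nat_lit 1760259) <|
  T19x28

def T19x14 : TL :=
  .cons (nat_lit 20) (nat_lit 4905729) <|
  .cons (nat_lit 22) (nat_lit 4666279) <|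
  .cons (nat_lit 25) (nat_lit 4458784) <|
  .cons (nat_lit 27) (nat_lit 4193664) <|
  .cons (nat_lit 28) (nat_lit 3105345) <|
  .cons (nat_lit 32) (nat_lit 3051335) <|
  .cons (nat_lit 36) (nat_lit 2860434) <|
  T19x21

def T19x7 : TL :=
  .cons (nat_lit 10) (nat_lit 9078584) <|
  .cons (nat_lit 11) (nat_lit 8656090) <|
  .cons (nat_lit 12) (nat_lit 8287575) <|
  .cons (nat_lit 13) (nat_lit 7962445) <|
  .cons (nat_lit 14) (nat_lit 5715001) <|
  .cons (nat_lit 16) (nat_lit 5521216) <|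
  .cons (nat_lit 18) (nat_lit 5186279) <|
  T19x14

def T19x0 : TL :=
  .cons (nat_lit 2) (nat_lit 39903169) <|
  .cons (nat_lit 4) (nat_lit 21984753) <|
  .cons (nat_lit 5) (nat_lit 17721973) <|
  .cons (nat_lit 6) (nat_lit 16177874) <|
  .cons (nat_lit 7) (nat_lit 14977801) <|
  .cons (nat_lit 8) (nat_lit 14010450) <|
  .cons (nat_lit 9) (nat_lit 9569668) <|
  T19x7

def J19 : TT :=
  .cons (nat_lit 3515) T19x63 <|
  .cons (nat_lit 1755) T19x56 <|
  .cons (nat_lit 761) T19x49 <|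
  .cons (nat_lit 331) T19x42 <|
  .cons (nat_lit 143) T19x35 <|
  .cons (nat_lit 63) T19x28 <|
  .cons (nat_lit 37) T19x21 <|
  .cons (nat_lit 19) T19x14 <|
  .cons (nat_lit 10) T19x7 <|
  .nil

def T20x56 : TL :=
  .cons (nat_lit 4489) (nat_lit 21388) <|
  .cons (nat_lit 4894) (nat_lit 17991) <|
  .cons (nat_lit 5113) (nat_lit 15137) <|
  .nil

def T20x49 : TL :=
  .cons (nat_lit 2225) (nat_lit 57435) <|
  .cons (nat_lit 2555) (nat_lit 50004) <|
  .cons (nat_lit 2934) (nat_lit 43548) <|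
  .cons (nat_lit 3369) (nat_lit 37924) <|
  .cons (nat_lit 3615) (nat_lit 33029) <|
  .cons (nat_lit 3776) (nat_lit 27739) <|
  .cons (nat_lit 4117) (nat_lit 25424) <|
  T20x56

def T20x42 : TL :=
  .cons (nat_lit 968) (nat_lit 133809) <|
  .cons (nat_lit 1111) (nat_lit 124833) <|
  .cons (nat_lit 1275) (nat_lit 108780) <|
  .cons (nat_lit 1464) (nat_lit 94799) <|
  .cons (nat_lit 1681) (nat_lit 82569) <|
  .cons (nat_lit 1807) (nat_lit 71916) <|
  .cons (nat_lit 1937) (nat_lit 61564) <|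
  T20x49

def T20x35 : TL :=
  .cons (nat_lit 451) (nat_lit 306620) <|
  .cons (nat_lit 484) (nat_lit 278983) <|
  .cons (nat_lit 555) (nat_lit 260001) <|
  .cons (nat_lit 636) (nat_lit 226799) <|
  .cons (nat_lit 729) (nat_lit 197960) <|
  .cons (nat_lit 837) (nat_lit 172740) <|
  .cons (nat_lit 903) (nat_lit 150478) <|
  T20x42

def T20x28 : TL :=
  .cons (nat_lit 205) (nat_lit 706413) <|
  .cons (nat_lit 225) (nat_lit 620684) <|
  .cons (nat_lit 242) (nat_lit 565756) <|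
  .cons (nat_lit 277) (nat_lit 526176) <|
  .cons (nat_lit 317) (nat_lit 459931) <|
  .cons (nat_lit 363) (nat_lit 402078) <|
  .cons (nat_lit 416) (nat_lit 351266) <|
  T20x35

def T20x21 : TL :=
  .cons (nat_lit 88) (nat_lit 1596210) <|
  .cons (nat_lit 100) (nat_lit 1416860) <|
  .cons (nat_lit 112) (nat_lit 1248520) <|
  .cons (nat_lit 121) (nat_lit 1131512) <|
  .cons (nat_lit 138) (nat_lit 1048040) <|
  .cons (nat_lit 157) (nat_lit 919862) <|
  .cons (nat_lit 180) (nat_lit 809246) <|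
  T20x28

def T20x14 : TL :=
  .cons (nat_lit 48) (nat_lit 3000699) <|
  .cons (nat_lit 55) (nat_lit 2810986) <|
  .cons (nat_lit 56) (nat_lit 2629437) <|
  .cons (nat_lit 57) (nat_lit 2212291) <|
  .cons (nat_lit 61) (nat_lit 2174148) <|
  .cons (nat_lit 69) (nat_lit 2033880) <|
  .cons (nat_lit 78) (nat_lit 1801437) <|
  T20x21

def T20x7 : TL :=
  .cons (nat_lit 13) (nat_lit 9735206) <|
  .cons (nat_lit 14) (nat_lit 9381079) <|
  .cons (nat_lit 28) (nat_lit 5496188) <|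
  .cons (nat_lit 29) (nat_lit 3653909) <|
  .cons (nat_lit 33) (nat_lit 3592494) <|
  .cons (nat_lit 37) (nat_lit 3374561) <|
  .cons (nat_lit 42) (nat_lit 3192015) <|
  T20x14

def T20x0 : TL :=
  .cons (nat_lit 2) (nat_lit 48450224) <|
  .cons (nat_lit 4) (nat_lit 25963832) <|
  .cons (nat_lit 8) (nat_lit 19406007) <|
  .cons (nat_lit 9) (nat_lit 11700261) <|
  .cons (nat_lit 10) (nat_lit 11099843) <|
  .cons (nat_lit 11) (nat_lit 10583285) <|
  .cons (nat_lit 12) (nat_lit 10132724) <|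
  T20x7

def J20 : TT :=
  .cons (nat_lit 4118) T20x56 <|
  .cons (nat_lit 1938) T20x49 <|
  .cons (nat_lit 904) T20x42 <|
  .cons (nat_lit 417) T20x35 <|
  .cons (nat_lit 181) T20x28 <|
  .cons (nat_lit 79) T20x21 <|
  .cons (nat_lit 43) T20x14 <|
  .cons (nat_lit 13) T20x7 <|
  .nil

def T21x56 : TL :=
  .cons (nat_lit 6482) (nat_lit 9773) <|
  .cons (nat_lit 7067) (nat_lit 8221) <|
  .cons (nat_lit 7383) (nat_lit 6916) <|
  .nil

def T21x49 : TL :=
  .cons (nat_lit 3855) (nat_lit 34868) <|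
  .cons (nat_lit 4203) (nat_lit 31965) <|
  .cons (nat_lit 4583) (nat_lit 26892) <|
  .cons (nat_lit 4996) (nat_lit 22618) <|
  .cons (nat_lit 5220) (nat_lit 19034) <|
  .cons (nat_lit 5452) (nat_lit 12675) <|
  .cons (nat_lit 5945) (nat_lit 11620) <|
  T21x56

def T21x42 : TL :=
  .cons (nat_lit 1845) (nat_lit 84265) <|
  .cons (nat_lit 1978) (nat_lit 73213) <|
  .cons (nat_lit 2271) (nat_lit 68292) <|
  .cons (nat_lit 2607) (nat_lit 59485) <|
  .cons (nat_lit 2994) (nat_lit 51821) <|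
  .cons (nat_lit 3438) (nat_lit 45125) <|
  .cons (nat_lit 3691) (nat_lit 39299) <|
  T21x49

def T21x35 : TL :=
  .cons (nat_lit 857) (nat_lit 201875) <|
  .cons (nat_lit 922) (nat_lit 175993) <|
  .cons (nat_lit 989) (nat_lit 156935) <|
  .cons (nat_lit 1135) (nat_lit 146314) <|
  .cons (nat_lit 1303) (nat_lit 127510) <|
  .cons (nat_lit 1496) (nat_lit 111082) <|
  .cons (nat_lit 1718) (nat_lit 96761) <|
  T21x42

def T21x28 : TL :=
  .cons (nat_lit 370) (nat_lit 472563) <|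
  .cons (nat_lit 424) (nat_lit 412697) <|
  .cons (nat_lit 461) (nat_lit 360260) <|
  .cons (nat_lit 495) (nat_lit 326845) <|
  .cons (nat_lit 568) (nat_lit 304441) <|
  .cons (nat_lit 651) (nat_lit 265382) <|
  .cons (nat_lit 747) (nat_lit 231599) <|
  T21x35

def T21x21 : TL :=
  .cons (nat_lit 161) (nat_lit 1078244) <|
  .cons (nat_lit 184) (nat_lit 945127) <|
  .cons (nat_lit 211) (nat_lit 827625) <|
  .cons (nat_lit 230) (nat_lit 722220) <|
  .cons (nat_lit 247) (nat_lit 662816) <|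
  .cons (nat_lit 282) (nat_lit 617381) <|
  .cons (nat_lit 323) (nat_lit 541027) <|
  T21x28

def T21x14 : TL :=
  .cons (nat_lit 70) (nat_lit 2396869) <|
  .cons (nat_lit 80) (nat_lit 2126799) <|
  .cons (nat_lit 91) (nat_lit 1864232) <|
  .cons (nat_lit 103) (nat_lit 1641334) <|
  .cons (nat_lit 115) (nat_lit 1451949) <|
  .cons (nat_lit 124) (nat_lit 1319919) <|
  .cons (nat_lit 141) (nat_lit 1224885) <|
  T21x21

def T21x7 : TL :=
  .cons (nat_lit 37) (nat_lit 3999168) <|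
  .cons (nat_lit 42) (nat_lit 3782834) <|
  .cons (nat_lit 48) (nat_lit 3556107) <|
  .cons (nat_lit 55) (nat_lit 3331279) <|
  .cons (nat_lit 57) (nat_lit 3116126) <|
  .cons (nat_lit 58) (nat_lit 2603496) <|
  .cons (nat_lit 62) (nat_lit 2559369) <|
  T21x14

def T21x0 : TL :=
  .cons (nat_lit 2) (nat_lit 56824116) <|
  .cons (nat_lit 4) (nat_lit 28412058) <|
  .cons (nat_lit 8) (nat_lit 22446699) <|
  .cons (nat_lit 14) (nat_lit 12453086) <|
  .cons (nat_lit 28) (nat_lit 6183533) <|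
  .cons (nat_lit 29) (nat_lit 4330221) <|
  .cons (nat_lit 33) (nat_lit 4257439) <|
  T21x7

def J21 : TT :=
  .cons (nat_lit 5946) T21x56 <|
  .cons (nat_lit 3692) T21x49 <|
  .cons (nat_lit 1719) T21x42 <|
  .cons (nat_lit 748) T21x35 <|
  .cons (nat_lit 324) T21x28 <|
  .cons (nat_lit 142) T21x21 <|
  .cons (nat_lit 63) T21x14 <|
  .cons (nat_lit 34) T21x7 <|
  .nil

def T22x56 : TL :=
  .cons (nat_lit 5137) (nat_lit 28038) <|
  .cons (nat_lit 5367) (nat_lit 23592) <|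
  .cons (nat_lit 5605) (nat_lit 16154) <|
  .cons (nat_lit 6112) (nat_lit 14812) <|
  .cons (nat_lit 6664) (nat_lit 12457) <|
  .cons (nat_lit 7267) (nat_lit 10479) <|
  .cons (nat_lit 7590) (nat_lit 8812) <|
  .nil

def T22x49 : TL :=
  .cons (nat_lit 2502) (nat_lit 74755) <|
  .cons (nat_lit 2873) (nat_lit 65108) <|
  .cons (nat_lit 3299) (nat_lit 56703) <|
  .cons (nat_lit 3788) (nat_lit 49383) <|
  .cons (nat_lit 3964) (nat_lit 43221) <|
  .cons (nat_lit 4322) (nat_lit 39615) <|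
  .cons (nat_lit 4712) (nat_lit 33326) <|
  T22x56

def T22x42 : TL :=
  .cons (nat_lit 1089) (nat_lit 183855) <|
  .cons (nat_lit 1250) (nat_lit 160241) <|
  .cons (nat_lit 1435) (nat_lit 139618) <|
  .cons (nat_lit 1647) (nat_lit 121631) <|
  .cons (nat_lit 1891) (nat_lit 105984) <|
  .cons (nat_lit 1898) (nat_lit 92316) <|
  .cons (nat_lit 2179) (nat_lit 85816) <|
  T22x49

def T22x35 : TL :=
  .cons (nat_lit 475) (nat_lit 387405) <|
  .cons (nat_lit 545) (nat_lit 382521) <|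
  .cons (nat_lit 625) (nat_lit 333480) <|
  .cons (nat_lit 717) (nat_lit 290863) <|
  .cons (nat_lit 823) (nat_lit 253593) <|
  .cons (nat_lit 945) (nat_lit 220971) <|
  .cons (nat_lit 949) (nat_lit 192473) <|
  T22x42

def T22x28 : TL :=
  .cons (nat_lit 231) (nat_lit 896947) <|
  .cons (nat_lit 238) (nat_lit 784829) <|
  .cons (nat_lit 273) (nat_lit 761842) <|
  .cons (nat_lit 312) (nat_lit 664526) <|
  .cons (nat_lit 357) (nat_lit 581726) <|
  .cons (nat_lit 409) (nat_lit 508604) <|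
  .cons (nat_lit 469) (nat_lit 444098) <|
  T22x35

def T22x21 : TL :=
  .cons (nat_lit 99) (nat_lit 2069094) <|
  .cons (nat_lit 113) (nat_lit 1820803) <|
  .cons (nat_lit 119) (nat_lit 1597196) <|
  .cons (nat_lit 136) (nat_lit 1517336) <|
  .cons (nat_lit 155) (nat_lit 1329053) <|
  .cons (nat_lit 177) (nat_lit 1167181) <|
  .cons (nat_lit 202) (nat_lit 1022923) <|
  T22x28

def T22x14 : TL :=
  .cons (nat_lit 50) (nat_lit 4076991) <|
  .cons (nat_lit 57) (nat_lit 3829666) <|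
  .cons (nat_lit 59) (nat_lit 3591137) <|
  .cons (nat_lit 60) (nat_lit 3034672) <|
  .cons (nat_lit 68) (nat_lit 2984923) <|
  .cons (nat_lit 77) (nat_lit 2638845) <|
  .cons (nat_lit 87) (nat_lit 2334363) <|
  T22x21

def T22x7 : TL :=
  .cons (nat_lit 13) (nat_lit 13767660) <|
  .cons (nat_lit 14) (nat_lit 13266850) <|
  .cons (nat_lit 29) (nat_lit 6956836) <|
  .cons (nat_lit 30) (nat_lit 4993274) <|
  .cons (nat_lit 34) (nat_lit 4912077) <|
  .cons (nat_lit 39) (nat_lit 4622873) <|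
  .cons (nat_lit 44) (nat_lit 4324302) <|
  T22x14

def T22x0 : TL :=
  .cons (nat_lit 2) (nat_lit 67575643) <|
  .cons (nat_lit 4) (nat_lit 33787821) <|
  .cons (nat_lit 8) (nat_lit 25963832) <|
  .cons (nat_lit 9) (nat_lit 16546669) <|
  .cons (nat_lit 10) (nat_lit 15697548) <|
  .cons (nat_lit 11) (nat_lit 14967025) <|
  .cons (nat_lit 12) (nat_lit 14329835) <|
  T22x7

def J22 : TT :=
  .cons (nat_lit 4713) T22x56 <|
  .cons (nat_lit 2180) T22x49 <|
  .cons (nat_lit 950) T22x42 <|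
  .cons (nat_lit 470) T22x35 <|
  .cons (nat_lit 203) T22x28 <|
  .cons (nat_lit 88) T22x21 <|
  .cons (nat_lit 45) T22x14 <|
  .cons (nat_lit 13) T22x7 <|
  .nil

def T23x49 : TL :=
  .cons (nat_lit 4452) (nat_lit 44123) <|
  .cons (nat_lit 5113) (nat_lit 38416) <|
  .cons (nat_lit 5480) (nat_lit 33451) <|
  .cons (nat_lit 5874) (nat_lit 16959) <|
  .cons (nat_lit 6746) (nat_lit 15821) <|
  .cons (nat_lit 7748) (nat_lit 13776) <|
  .cons (nat_lit 7750) (nat_lit 11995) <|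
  .nil

def T23x42 : TL :=
  .cons (nat_lit 1938) (nat_lit 106030) <|
  .cons (nat_lit 2226) (nat_lit 98572) <|
  .cons (nat_lit 2556) (nat_lit 85825) <|
  .cons (nat_lit 2935) (nat_lit 74748) <|
  .cons (nat_lit 3370) (nat_lit 65099) <|
  .cons (nat_lit 3870) (nat_lit 56699) <|
  .cons (nat_lit 3876) (nat_lit 49375) <|
  T23x49

def T23x35 : TL :=
  .cons (nat_lit 962) (nat_lit 251025) <|
  .cons (nat_lit 969) (nat_lit 218702) <|
  .cons (nat_lit 1112) (nat_lit 211186) <|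
  .cons (nat_lit 1276) (nat_lit 184053) <|
  .cons (nat_lit 1465) (nat_lit 160415) <|
  .cons (nat_lit 1682) (nat_lit 139734) <|
  .cons (nat_lit 1931) (nat_lit 121717) <|
  T23x42

def T23x28 : TL :=
  .cons (nat_lit 417) (nat_lit 585069) <|
  .cons (nat_lit 478) (nat_lit 510885) <|
  .cons (nat_lit 485) (nat_lit 445825) <|
  .cons (nat_lit 556) (nat_lit 433354) <|
  .cons (nat_lit 637) (nat_lit 378115) <|
  .cons (nat_lit 730) (nat_lit 330110) <|
  .cons (nat_lit 838) (nat_lit 288112) <|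
  T23x35

def T23x21 : TL :=
  .cons (nat_lit 181) (nat_lit 1343083) <|
  .cons (nat_lit 206) (nat_lit 1173352) <|
  .cons (nat_lit 235) (nat_lit 1031643) <|
  .cons (nat_lit 243) (nat_lit 904873) <|
  .cons (nat_lit 278) (nat_lit 875205) <|
  .cons (nat_lit 318) (nat_lit 765412) <|
  .cons (nat_lit 364) (nat_lit 669436) <|
  T23x28

def T23x14 : TL :=
  .cons (nat_lit 78) (nat_lit 3008717) <|
  .cons (nat_lit 88) (nat_lit 2665951) <|
  .cons (nat_lit 100) (nat_lit 2366406) <|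
  .cons (nat_lit 114) (nat_lit 2085249) <|
  .cons (nat_lit 122) (nat_lit 1831392) <|
  .cons (nat_lit 139) (nat_lit 1736180) <|
  .cons (nat_lit 158) (nat_lit 1525358) <|
  T23x21

def T23x7 : TL :=
  .cons (nat_lit 40) (nat_lit 5217898) <|
  .cons (nat_lit 45) (nat_lit 4889393) <|
  .cons (nat_lit 51) (nat_lit 4616023) <|
  .cons (nat_lit 58) (nat_lit 4341554) <|
  .cons (nat_lit 60) (nat_lit 4075875) <|
  .cons (nat_lit 61) (nat_lit 3452626) <|
  .cons (nat_lit 69) (nat_lit 3396938) <|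
  T23x14

def T23x0 : TL :=
  .cons (nat_lit 2) (nat_lit 78707621) <|
  .cons (nat_lit 4) (nat_lit 39353810) <|
  .cons (nat_lit 8) (nat_lit 29414007) <|
  .cons (nat_lit 15) (nat_lit 17129740) <|
  .cons (nat_lit 30) (nat_lit 7772784) <|
  .cons (nat_lit 31) (nat_lit 5622973) <|
  .cons (nat_lit 35) (nat_lit 5534417) <|
  T23x7

def J23 : TT :=
  .cons (nat_lit 3877) T23x49 <|
  .cons (nat_lit 1932) T23x42 <|
  .cons (nat_lit 839) T23x35 <|
  .cons (nat_lit 365) T23x28 <|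
  .cons (nat_lit 159) T23x21 <|
  .cons (nat_lit 70) T23x14 <|
  .cons (nat_lit 36) T23x7 <|
  .nil

def T24x56 : TL :=
  .cons (nat_lit 5220) (nat_lit 44750) <|
  .cons (nat_lit 5595) (nat_lit 38964) <|
  .cons (nat_lit 5843) (nat_lit 31425) <|
  .cons (nat_lit 6371) (nat_lit 28814) <|
  .cons (nat_lit 6947) (nat_lit 24237) <|
  .cons (nat_lit 7575) (nat_lit 20385) <|
  .cons (nat_lit 7912) (nat_lit 17145) <|
  .nil

def T24x49 : TL :=
  .cons (nat_lit 2273) (nat_lit 113215) <|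
  .cons (nat_lit 2610) (nat_lit 98578) <|
  .cons (nat_lit 2997) (nat_lit 85854) <|
  .cons (nat_lit 3442) (nat_lit 74772) <|
  .cons (nat_lit 3953) (nat_lit 65108) <|
  .cons (nat_lit 3957) (nat_lit 56693) <|
  .cons (nat_lit 4545) (nat_lit 51398) <|
  T24x56

def T24x42 : TL :=
  .cons (nat_lit 990) (nat_lit 251027) <|
  .cons (nat_lit 1137) (nat_lit 242438) <|
  .cons (nat_lit 1305) (nat_lit 211121) <|
  .cons (nat_lit 1498) (nat_lit 183963) <|
  .cons (nat_lit 1720) (nat_lit 160277) <|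
  .cons (nat_lit 1975) (nat_lit 139602) <|
  .cons (nat_lit 1979) (nat_lit 121587) <|
  T24x49

def T24x35 : TL :=
  .cons (nat_lit 488) (nat_lit 586555) <|
  .cons (nat_lit 495) (nat_lit 512186) <|
  .cons (nat_lit 568) (nat_lit 498006) <|
  .cons (nat_lit 651) (nat_lit 434114) <|
  .cons (nat_lit 747) (nat_lit 378851) <|
  .cons (nat_lit 857) (nat_lit 330228) <|
  .cons (nat_lit 983) (nat_lit 287891) <|
  T24x42

def T24x28 : TL :=
  .cons (nat_lit 211) (nat_lit 1353833) <|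
  .cons (nat_lit 242) (nat_lit 1181411) <|
  .cons (nat_lit 248) (nat_lit 1030696) <|
  .cons (nat_lit 284) (nat_lit 1005859) <|
  .cons (nat_lit 325) (nat_lit 878803) <|
  .cons (nat_lit 372) (nat_lit 768279) <|
  .cons (nat_lit 426) (nat_lit 671472) <|
  T24x35

def T24x21 : TL :=
  .cons (nat_lit 91) (nat_lit 3049518) <|
  .cons (nat_lit 103) (nat_lit 2684902) <|
  .cons (nat_lit 117) (nat_lit 2375105) <|
  .cons (nat_lit 124) (nat_lit 2093313) <|
  .cons (nat_lit 141) (nat_lit 2003673) <|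
  .cons (nat_lit 161) (nat_lit 1763796) <|
  .cons (nat_lit 184) (nat_lit 1546044) <|
  T24x28

def T24x14 : TL :=
  .cons (nat_lit 45) (nat_lit 5597006) <|
  .cons (nat_lit 51) (nat_lit 5284073) <|
  .cons (nat_lit 58) (nat_lit 4969881) <|
  .cons (nat_lit 61) (nat_lit 4665752) <|
  .cons (nat_lit 62) (nat_lit 3984048) <|
  .cons (nat_lit 70) (nat_lit 3920809) <|
  .cons (nat_lit 80) (nat_lit 3479028) <|
  T24x21

def T24x7 : TL :=
  .cons (nat_lit 13) (nat_lit 18742111) <|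
  .cons (nat_lit 14) (nat_lit 18060350) <|
  .cons (nat_lit 15) (nat_lit 17447956) <|
  .cons (nat_lit 30) (nat_lit 8564870) <|
  .cons (nat_lit 31) (nat_lit 6436753) <|
  .cons (nat_lit 35) (nat_lit 6335381) <|
  .cons (nat_lit 40) (nat_lit 5973054) <|
  T24x14

def T24x0 : TL :=
  .cons (nat_lit 2) (nat_lit 90411314) <|
  .cons (nat_lit 4) (nat_lit 45205657) <|
  .cons (nat_lit 8) (nat_lit 33322654) <|
  .cons (nat_lit 9) (nat_lit 22525214) <|
  .cons (nat_lit 10) (nat_lit 21369294) <|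
  .cons (nat_lit 11) (nat_lit 20374823) <|
  .cons (nat_lit 12) (nat_lit 19507407) <|
  T24x7

def J24 : TT :=
  .cons (nat_lit 4546) T24x56 <|
  .cons (nat_lit 1980) T24x49 <|
  .cons (nat_lit 984) T24x42 <|
  .cons (nat_lit 427) T24x35 <|
  .cons (nat_lit 185) T24x28 <|
  .cons (nat_lit 81) T24x21 <|
  .cons (nat_lit 41) T24x14 <|
  .cons (nat_lit 13) T24x7 <|
  .nil

def T25x56 : TL :=
  .cons (nat_lit 8023) (nat_lit 20393) <|
  .nil

def T25x49 : TL :=
  .cons (nat_lit 4607) (nat_lit 57830) <|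
  .cons (nat_lit 5291) (nat_lit 50362) <|
  .cons (nat_lit 5673) (nat_lit 43853) <|
  .cons (nat_lit 5925) (nat_lit 37372) <|
  .cons (nat_lit 6460) (nat_lit 34261) <|
  .cons (nat_lit 7044) (nat_lit 28822) <|
  .cons (nat_lit 7680) (nat_lit 24242) <|
  T25x56

def T25x42 : TL :=
  .cons (nat_lit 2006) (nat_lit 137175) <|
  .cons (nat_lit 2303) (nat_lit 127414) <|
  .cons (nat_lit 2645) (nat_lit 110990) <|
  .cons (nat_lit 3037) (nat_lit 96644) <|
  .cons (nat_lit 3487) (nat_lit 84174) <|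
  .cons (nat_lit 4005) (nat_lit 73314) <|
  .cons (nat_lit 4012) (nat_lit 63834) <|
  T25x49

def T25x35 : TL :=
  .cons (nat_lit 998) (nat_lit 323514) <|
  .cons (nat_lit 1003) (nat_lit 282063) <|
  .cons (nat_lit 1151) (nat_lit 272983) <|
  .cons (nat_lit 1321) (nat_lit 237913) <|
  .cons (nat_lit 1516) (nat_lit 207319) <|
  .cons (nat_lit 1740) (nat_lit 180669) <|
  .cons (nat_lit 1997) (nat_lit 157424) <|
  T25x42

def T25x28 : TL :=
  .cons (nat_lit 434) (nat_lit 743485) <|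
  .cons (nat_lit 498) (nat_lit 647772) <|
  .cons (nat_lit 502) (nat_lit 564691) <|
  .cons (nat_lit 576) (nat_lit 560201) <|
  .cons (nat_lit 661) (nat_lit 488355) <|
  .cons (nat_lit 758) (nat_lit 425651) <|
  .cons (nat_lit 870) (nat_lit 371253) <|
  T25x35

def T25x21 : TL :=
  .cons (nat_lit 188) (nat_lit 1697476) <|
  .cons (nat_lit 215) (nat_lit 1490905) <|
  .cons (nat_lit 246) (nat_lit 1304542) <|
  .cons (nat_lit 251) (nat_lit 1140814) <|
  .cons (nat_lit 288) (nat_lit 1118179) <|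
  .cons (nat_lit 330) (nat_lit 975021) <|
  .cons (nat_lit 378) (nat_lit 851302) <|
  T25x28

def T25x14 : TL :=
  .cons (nat_lit 81) (nat_lit 3913627) <|
  .cons (nat_lit 92) (nat_lit 3436355) <|
  .cons (nat_lit 105) (nat_lit 3029905) <|
  .cons (nat_lit 120) (nat_lit 2658312) <|
  .cons (nat_lit 126) (nat_lit 2328770) <|
  .cons (nat_lit 144) (nat_lit 2218749) <|
  .cons (nat_lit 165) (nat_lit 1943318) <|
  T25x21

def T25x7 : TL :=
  .cons (nat_lit 41) (nat_lit 6674708) <|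
  .cons (nat_lit 47) (nat_lit 6264818) <|
  .cons (nat_lit 53) (nat_lit 5860201) <|
  .cons (nat_lit 60) (nat_lit 5525050) <|
  .cons (nat_lit 62) (nat_lit 5198382) <|
  .cons (nat_lit 63) (nat_lit 4472717) <|
  .cons (nat_lit 71) (nat_lit 4402830) <|
  T25x14

def T25x0 : TL :=
  .cons (nat_lit 2) (nat_lit 101718016) <|
  .cons (nat_lit 4) (nat_lit 50859008) <|
  .cons (nat_lit 8) (nat_lit 36973800) <|
  .cons (nat_lit 15) (nat_lit 22291648) <|
  .cons (nat_lit 31) (nat_lit 9372483) <|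
  .cons (nat_lit 32) (nat_lit 7177251) <|
  .cons (nat_lit 36) (nat_lit 7067668) <|
  T25x7

def J25 : TT :=
  .cons (nat_lit 7681) T25x56 <|
  .cons (nat_lit 4013) T25x49 <|
  .cons (nat_lit 1998) T25x42 <|
  .cons (nat_lit 871) T25x35 <|
  .cons (nat_lit 379) T25x28 <|
  .cons (nat_lit 166) T25x21 <|
  .cons (nat_lit 72) T25x14 <|
  .cons (nat_lit 37) T25x7 <|
  .nil

def T26x56 : TL :=
  .cons (nat_lit 8187) (nat_lit 25730) <|
  .cons (nat_lit 8192) (nat_lit 21639) <|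
  .nil

def T26x49 : TL :=
  .cons (nat_lit 4389) (nat_lit 71855) <|
  .cons (nat_lit 5041) (nat_lit 59888) <|
  .cons (nat_lit 5789) (nat_lit 52144) <|
  .cons (nat_lit 5793) (nat_lit 45407) <|
  .cons (nat_lit 6316) (nat_lit 43217) <|
  .cons (nat_lit 6886) (nat_lit 36357) <|
  .cons (nat_lit 7508) (nat_lit 30588) <|
  T26x56

def T26x42 : TL :=
  .cons (nat_lit 1905) (nat_lit 187045) <|
  .cons (nat_lit 2048) (nat_lit 162904) <|
  .cons (nat_lit 2351) (nat_lit 143361) <|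
  .cons (nat_lit 2699) (nat_lit 124892) <|
  .cons (nat_lit 3099) (nat_lit 108795) <|
  .cons (nat_lit 3559) (nat_lit 94757) <|
  .cons (nat_lit 4087) (nat_lit 82513) <|
  T26x49

def T26x35 : TL :=
  .cons (nat_lit 773) (nat_lit 472926) <|
  .cons (nat_lit 887) (nat_lit 412435) <|
  .cons (nat_lit 1018) (nat_lit 359488) <|
  .cons (nat_lit 1097) (nat_lit 313273) <|
  .cons (nat_lit 1259) (nat_lit 282783) <|
  .cons (nat_lit 1445) (nat_lit 246425) <|
  .cons (nat_lit 1659) (nat_lit 214727) <|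
  T26x42

def T26x28 : TL :=
  .cons (nat_lit 314) (nat_lit 1177023) <|
  .cons (nat_lit 360) (nat_lit 1027560) <|
  .cons (nat_lit 412) (nat_lit 896624) <|
  .cons (nat_lit 472) (nat_lit 783732) <|
  .cons (nat_lit 512) (nat_lit 684316) <|
  .cons (nat_lit 587) (nat_lit 622271) <|
  .cons (nat_lit 674) (nat_lit 542900) <|
  T26x35

def T26x21 : TL :=
  .cons (nat_lit 128) (nat_lit 2800222) <|
  .cons (nat_lit 146) (nat_lit 2474615) <|
  .cons (nat_lit 167) (nat_lit 2171601) <|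
  .cons (nat_lit 190) (nat_lit 1900150) <|
  .cons (nat_lit 217) (nat_lit 1671336) <|
  .cons (nat_lit 248) (nat_lit 1464336) <|
  .cons (nat_lit 274) (nat_lit 1282029) <|
  T26x28

def T26x14 : TL :=
  .cons (nat_lit 53) (nat_lit 6479804) <|
  .cons (nat_lit 60) (nat_lit 6109217) <|
  .cons (nat_lit 68) (nat_lit 5748010) <|
  .cons (nat_lit 77) (nat_lit 4626454) <|
  .cons (nat_lit 87) (nat_lit 4092632) <|
  .cons (nat_lit 99) (nat_lit 3627560) <|
  .cons (nat_lit 113) (nat_lit 3192253) <|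
  T26x21

def T26x7 : TL :=
  .cons (nat_lit 13) (nat_lit 23887957) <|
  .cons (nat_lit 14) (nat_lit 23019011) <|
  .cons (nat_lit 16) (nat_lit 22238477) <|
  .cons (nat_lit 32) (nat_lit 10256250) <|
  .cons (nat_lit 36) (nat_lit 7814937) <|
  .cons (nat_lit 41) (nat_lit 7380429) <|
  .cons (nat_lit 47) (nat_lit 6927201) <|
  T26x14

def T26x0 : TL :=
  .cons (nat_lit 2) (nat_lit 116036222) <|
  .cons (nat_lit 4) (nat_lit 58018111) <|
  .cons (nat_lit 8) (nat_lit 41025000) <|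
  .cons (nat_lit 9) (nat_lit 28709751) <|
  .cons (nat_lit 10) (nat_lit 27236461) <|
  .cons (nat_lit 11) (nat_lit 25968947) <|
  .cons (nat_lit 12) (nat_lit 24863373) <|
  T26x7

def J26 : TT :=
  .cons (nat_lit 7509) T26x56 <|
  .cons (nat_lit 4088) T26x49 <|
  .cons (nat_lit 1660) T26x42 <|
  .cons (nat_lit 675) T26x35 <|
  .cons (nat_lit 275) T26x28 <|
  .cons (nat_lit 114) T26x21 <|
  .cons (nat_lit 48) T26x14 <|
  .cons (nat_lit 13) T26x7 <|
  .nil

noncomputable def sf1 : ℕ → ℕ → ℕ → Bool :=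
  step3 1 436074685 64 64 (mk64 1) 9 (mk9 1) (EX.inL (EX.qf 1)) (jmp T0x0 J0)

noncomputable def sf3 : ℕ → ℕ → ℕ → Bool :=
  step0 3 436074685 64 (EX.inL (EX.qf 3)) (jmp T1x0 J1)

noncomputable def sf4 : ℕ → ℕ → ℕ → Bool :=
  step3 4 436074685 64 64 (mk64 4) 9 (mk9 4) (EX.inL (EX.qf 4)) (jmp T1x0 J1)

noncomputable def sf5 : ℕ → ℕ → ℕ → Bool :=
  step1 5 436074685 85 32 (mk32 5) (EX.inL (EX.qf 5)) (jmp T2x0 J2)

noncomputable def sf7 : ℕ → ℕ → ℕ → Bool :=
  step1 7 436074685 85 9 (mk9 7) (EX.inL (EX.qf 7)) (jmp T2x0 J2)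

noncomputable def sf8 : ℕ → ℕ → ℕ → Bool :=
  step0 8 436074685 106 (EX.inL (EX.qf 8)) (jmp T3x0 J3)

noncomputable def sf9 : ℕ → ℕ → ℕ → Bool :=
  step1 9 436074685 106 64 (mk64 9) (EX.inL (EX.qf 9)) (jmp T3x0 J3)

noncomputable def sf11 : ℕ → ℕ → ℕ → Bool :=
  step0 11 436074685 106 (EX.inL (EX.qf 11)) (jmp T3x0 J3)

noncomputable def sf12 : ℕ → ℕ → ℕ → Bool :=
  step1 12 436074685 128 32 (mk32 12) (EX.inL (EX.qf 12)) (jmp T4x0 J4)

noncomputable def sf13 : ℕ → ℕ → ℕ → Bool :=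
  step3 13 436074685 128 32 (mk32 13) 9 (mk9 13) (EX.inL (EX.qf 13)) (jmp T4x0 J4)

noncomputable def sf15 : ℕ → ℕ → ℕ → Bool :=
  step0 15 436074685 128 (EX.inL (EX.qf 15)) (jmp T4x0 J4)

noncomputable def sf16 : ℕ → ℕ → ℕ → Bool :=
  step1 16 436074685 128 9 (mk9 16) (EX.inL (EX.qf 16)) (jmp T4x0 J4)

noncomputable def sf17 : ℕ → ℕ → ℕ → Bool :=
  step1 17 24296004000 154 64 (mk64 17) (EX.inL (EX.qf 17)) (jmp T5x0 J5)

noncomputable def sf19 : ℕ → ℕ → ℕ → Bool :=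
  step1 19 24296004000 154 9 (mk9 19) (EX.inL (EX.qf 19)) (jmp T5x0 J5)

noncomputable def sf20 : ℕ → ℕ → ℕ → Bool :=
  step1 20 24296004000 154 64 (mk64 20) (EX.inL (EX.qf 20)) (jmp T5x0 J5)

noncomputable def sf21 : ℕ → ℕ → ℕ → Bool :=
  step1 21 24296004000 154 32 (mk32 21) (EX.inL (EX.qf 21)) (jmp T5x0 J5)

noncomputable def sf23 : ℕ → ℕ → ℕ → Bool :=
  step0 23 24296004000 154 (EX.inL (EX.qf 23)) (jmp T5x0 J5)

noncomputable def sf24 : ℕ → ℕ → ℕ → Bool :=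
  step0 24 24296004000 181 (EX.inL (EX.qf 24)) (jmp T6x0 J6)

noncomputable def sf25 : ℕ → ℕ → ℕ → Bool :=
  step3 25 24296004000 181 64 (mk64 25) 9 (mk9 25) (EX.inL (EX.qf 25)) (jmp T6x0 J6)

noncomputable def sf27 : ℕ → ℕ → ℕ → Bool :=
  step0 27 24296004000 181 (EX.inL (EX.qf 27)) (jmp T6x0 J6)

noncomputable def sf28 : ℕ → ℕ → ℕ → Bool :=
  step1 28 24296004000 181 9 (mk9 28) (EX.inL (EX.qf 28)) (jmp T6x0 J6)

noncomputable def sf29 : ℕ → ℕ → ℕ → Bool :=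
  step1 29 24296004000 181 32 (mk32 29) (EX.inL (EX.qf 29)) (jmp T6x0 J6)

noncomputable def sf31 : ℕ → ℕ → ℕ → Bool :=
  step1 31 24296004000 181 9 (mk9 31) (EX.inL (EX.qf 31)) (jmp T6x0 J6)

noncomputable def sf32 : ℕ → ℕ → ℕ → Bool :=
  step0 32 24296004000 181 (EX.inL (EX.qf 32)) (jmp T6x0 J6)

noncomputable def sf33 : ℕ → ℕ → ℕ → Bool :=
  step1 33 24296004000 430 64 (mk64 33) (EX.inL (EX.qf 33)) (jmp T7x0 J7)

noncomputable def sf35 : ℕ → ℕ → ℕ → Bool :=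
  step0 35 24296004000 430 (EX.inL (EX.qf 35)) (jmp T7x0 J7)

noncomputable def sf36 : ℕ → ℕ → ℕ → Bool :=
  step1 36 24296004000 430 64 (mk64 36) (EX.inL (EX.qf 36)) (jmp T7x0 J7)

noncomputable def sf37 : ℕ → ℕ → ℕ → Bool :=
  step3 37 24296004000 430 32 (mk32 37) 9 (mk9 37) (EX.inL (EX.qf 37)) (jmp T7x0 J7)

noncomputable def sf39 : ℕ → ℕ → ℕ → Bool :=
  step0 39 24296004000 430 (EX.inL (EX.qf 39)) (jmp T7x0 J7)

noncomputable def sf40 : ℕ → ℕ → ℕ → Bool :=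
  step1 40 24296004000 430 9 (mk9 40) (EX.inL (EX.qf 40)) (jmp T7x0 J7)

noncomputable def sf41 : ℕ → ℕ → ℕ → Bool :=
  step1 41 24296004000 430 64 (mk64 41) (EX.inL (EX.qf 41)) (jmp T7x0 J7)

noncomputable def sf43 : ℕ → ℕ → ℕ → Bool :=
  step1 43 24296004000 430 9 (mk9 43) (EX.inL (EX.qf 43)) (jmp T7x0 J7)

noncomputable def sf44 : ℕ → ℕ → ℕ → Bool :=
  step1 44 24296004000 430 32 (mk32 44) (EX.inL (EX.qf 44)) (jmp T7x0 J7)

noncomputable def sf45 : ℕ → ℕ → ℕ → Bool :=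
  step1 45 24296004000 430 32 (mk32 45) (EX.inL (EX.qf 45)) (jmp T7x0 J7)

noncomputable def sf47 : ℕ → ℕ → ℕ → Bool :=
  step0 47 41719418556 487 (EX.inL (EX.qf 47)) (jmp T8x0 J8)

noncomputable def sf48 : ℕ → ℕ → ℕ → Bool :=
  step0 48 41719418556 487 (EX.inL (EX.qf 48)) (jmp T8x0 J8)

noncomputable def sf49 : ℕ → ℕ → ℕ → Bool :=
  step3 49 41719418556 487 64 (mk64 49) 9 (mk9 49) (EX.inL (EX.qf 49)) (jmp T8x0 J8)

noncomputable def sf51 : ℕ → ℕ → ℕ → Bool :=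
  step0 51 41719418556 487 (EX.inL (EX.qf 51)) (jmp T8x0 J8)

noncomputable def sf52 : ℕ → ℕ → ℕ → Bool :=
  step3 52 41719418556 487 64 (mk64 52) 9 (mk9 52) (EX.inL (EX.qf 52)) (jmp T8x0 J8)

noncomputable def sf53 : ℕ → ℕ → ℕ → Bool :=
  step1 53 41719418556 487 32 (mk32 53) (EX.inL (EX.qf 53)) (jmp T8x0 J8)

noncomputable def sf55 : ℕ → ℕ → ℕ → Bool :=
  step1 55 41719418556 487 9 (mk9 55) (EX.inL (EX.qf 55)) (jmp T8x0 J8)

noncomputable def sf56 : ℕ → ℕ → ℕ → Bool :=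
  step0 56 41719418556 487 (EX.inL (EX.qf 56)) (jmp T8x0 J8)

noncomputable def sf57 : ℕ → ℕ → ℕ → Bool :=
  step1 57 41719418556 487 64 (mk64 57) (EX.inL (EX.qf 57)) (jmp T8x0 J8)

noncomputable def sf59 : ℕ → ℕ → ℕ → Bool :=
  step0 59 41719418556 760 (EX.inL (EX.qf 59)) (jmp T9x0 J9)

noncomputable def sf60 : ℕ → ℕ → ℕ → Bool :=
  step0 60 41719418556 760 (EX.inL (EX.qf 60)) (jmp T9x0 J9)

noncomputable def sf61 : ℕ → ℕ → ℕ → Bool :=
  step3 61 41719418556 760 32 (mk32 61) 9 (mk9 61) (EX.inL (EX.qf 61)) (jmp T9x0 J9)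

noncomputable def sf63 : ℕ → ℕ → ℕ → Bool :=
  step0 63 41719418556 760 (EX.inL (EX.qf 63)) (jmp T9x0 J9)

noncomputable def sf64 : ℕ → ℕ → ℕ → Bool :=
  step1 64 41719418556 760 9 (mk9 64) (EX.inL (EX.qf 64)) (jmp T9x0 J9)

noncomputable def sf65 : ℕ → ℕ → ℕ → Bool :=
  step1 65 41719418556 760 64 (mk64 65) (EX.inL (EX.qf 65)) (jmp T9x0 J9)

noncomputable def sf67 : ℕ → ℕ → ℕ → Bool :=
  step1 67 41719418556 760 9 (mk9 67) (EX.inL (EX.qf 67)) (jmp T9x0 J9)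

noncomputable def sf68 : ℕ → ℕ → ℕ → Bool :=
  step1 68 41719418556 760 64 (mk64 68) (EX.inL (EX.qf 68)) (jmp T9x0 J9)

noncomputable def sf69 : ℕ → ℕ → ℕ → Bool :=
  step1 69 41719418556 760 32 (mk32 69) (EX.inL (EX.qf 69)) (jmp T9x0 J9)

noncomputable def sf71 : ℕ → ℕ → ℕ → Bool :=
  step0 71 143275403201 1160 (EX.inL (EX.qf 71)) (jmp T10x0 J10)

noncomputable def sf72 : ℕ → ℕ → ℕ → Bool :=
  step0 72 143275403201 1160 (EX.inL (EX.qf 72)) (jmp T10x0 J10)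

noncomputable def sf73 : ℕ → ℕ → ℕ → Bool :=
  step3 73 143275403201 1160 64 (mk64 73) 9 (mk9 73) (EX.inL (EX.qf 73)) (jmp T10x0 J10)

noncomputable def sf75 : ℕ → ℕ → ℕ → Bool :=
  step0 75 143275403201 1160 (EX.inL (EX.qf 75)) (jmp T10x0 J10)

noncomputable def sf76 : ℕ → ℕ → ℕ → Bool :=
  step3 76 143275403201 1160 32 (mk32 76) 9 (mk9 76) (EX.inL (EX.qf 76)) (jmp T10x0 J10)

noncomputable def sf77 : ℕ → ℕ → ℕ → Bool :=
  step1 77 143275403201 1160 32 (mk32 77) (EX.inL (EX.qf 77)) (jmp T10x0 J10)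

noncomputable def sf79 : ℕ → ℕ → ℕ → Bool :=
  step1 79 143275403201 1160 9 (mk9 79) (EX.inL (EX.qf 79)) (jmp T10x0 J10)

noncomputable def sf80 : ℕ → ℕ → ℕ → Bool :=
  step0 80 143275403201 1160 (EX.inL (EX.qf 80)) (jmp T10x0 J10)

noncomputable def sf81 : ℕ → ℕ → ℕ → Bool :=
  step1 81 143275403201 1160 64 (mk64 81) (EX.inL (EX.qf 81)) (jmp T10x0 J10)

noncomputable def sf83 : ℕ → ℕ → ℕ → Bool :=
  step0 83 143275403201 1243 (EX.inL (EX.qf 83)) (jmp T11x0 J11)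

noncomputable def sf84 : ℕ → ℕ → ℕ → Bool :=
  step1 84 143275403201 1243 64 (mk64 84) (EX.inL (EX.qf 84)) (jmp T11x0 J11)

noncomputable def sf85 : ℕ → ℕ → ℕ → Bool :=
  step3 85 143275403201 1243 32 (mk32 85) 9 (mk9 85) (EX.inL (EX.qf 85)) (jmp T11x0 J11)

noncomputable def sf87 : ℕ → ℕ → ℕ → Bool :=
  step0 87 143275403201 1243 (EX.inL (EX.qf 87)) (jmp T11x0 J11)

noncomputable def sf88 : ℕ → ℕ → ℕ → Bool :=
  step1 88 143275403201 1243 9 (mk9 88) (EX.inL (EX.qf 88)) (jmp T11x0 J11)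

noncomputable def sf89 : ℕ → ℕ → ℕ → Bool :=
  step1 89 143275403201 1243 64 (mk64 89) (EX.inL (EX.qf 89)) (jmp T11x0 J11)

noncomputable def sf91 : ℕ → ℕ → ℕ → Bool :=
  step1 91 143275403201 1243 9 (mk9 91) (EX.inL (EX.qf 91)) (jmp T11x0 J11)

noncomputable def sf92 : ℕ → ℕ → ℕ → Bool :=
  step0 92 143275403201 1243 (EX.inL (EX.qf 92)) (jmp T11x0 J11)

noncomputable def sf93 : ℕ → ℕ → ℕ → Bool :=
  step1 93 143275403201 1243 32 (mk32 93) (EX.inL (EX.qf 93)) (jmp T11x0 J11)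

noncomputable def sf95 : ℕ → ℕ → ℕ → Bool :=
  step0 95 492045236319 1871 (EX.inL (EX.qf 95)) (jmp T12x0 J12)

noncomputable def sf96 : ℕ → ℕ → ℕ → Bool :=
  step0 96 492045236319 1871 (EX.inL (EX.qf 96)) (jmp T12x0 J12)

noncomputable def sf97 : ℕ → ℕ → ℕ → Bool :=
  step3 97 492045236319 1871 64 (mk64 97) 9 (mk9 97) (EX.inL (EX.qf 97)) (jmp T12x0 J12)

noncomputable def sf99 : ℕ → ℕ → ℕ → Bool :=
  step0 99 492045236319 1871 (EX.inL (EX.qf 99)) (jmp T12x0 J12)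

noncomputable def sf100 : ℕ → ℕ → ℕ → Bool :=
  step3 100 492045236319 1871 64 (mk64 100) 9 (mk9 100) (EX.inL (EX.qf 100)) (jmp T12x0 J12)

noncomputable def sf101 : ℕ → ℕ → ℕ → Bool :=
  step1 101 492045236319 1871 32 (mk32 101) (EX.inL (EX.qf 101)) (jmp T12x0 J12)

noncomputable def sf103 : ℕ → ℕ → ℕ → Bool :=
  step1 103 492045236319 1871 9 (mk9 103) (EX.inL (EX.qf 103)) (jmp T12x0 J12)

noncomputable def sf104 : ℕ → ℕ → ℕ → Bool :=
  step0 104 492045236319 1871 (EX.inL (EX.qf 104)) (jmp T12x0 J12)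

noncomputable def sf105 : ℕ → ℕ → ℕ → Bool :=
  step1 105 492045236319 1871 64 (mk64 105) (EX.inL (EX.qf 105)) (jmp T12x0 J12)

noncomputable def sf107 : ℕ → ℕ → ℕ → Bool :=
  step0 107 492045236319 1978 (EX.inL (EX.qf 107)) (jmp T13x0 J13)

noncomputable def sf108 : ℕ → ℕ → ℕ → Bool :=
  step1 108 492045236319 1978 32 (mk32 108) (EX.inL (EX.qf 108)) (jmp T13x0 J13)

noncomputable def sf109 : ℕ → ℕ → ℕ → Bool :=
  step3 109 492045236319 1978 32 (mk32 109) 9 (mk9 109) (EX.inL (EX.qf 109)) (jmp T13x0 J13)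

noncomputable def sf111 : ℕ → ℕ → ℕ → Bool :=
  step0 111 492045236319 1978 (EX.inL (EX.qf 111)) (jmp T13x0 J13)

noncomputable def sf112 : ℕ → ℕ → ℕ → Bool :=
  step1 112 492045236319 1978 9 (mk9 112) (EX.inL (EX.qf 112)) (jmp T13x0 J13)

noncomputable def sf113 : ℕ → ℕ → ℕ → Bool :=
  step1 113 492045236319 1978 64 (mk64 113) (EX.inL (EX.qf 113)) (jmp T13x0 J13)

noncomputable def sf115 : ℕ → ℕ → ℕ → Bool :=
  step1 115 492045236319 1978 9 (mk9 115) (EX.inL (EX.qf 115)) (jmp T13x0 J13)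

noncomputable def sf116 : ℕ → ℕ → ℕ → Bool :=
  step1 116 492045236319 1978 64 (mk64 116) (EX.inL (EX.qf 116)) (jmp T13x0 J13)

noncomputable def sf117 : ℕ → ℕ → ℕ → Bool :=
  step1 117 492045236319 1978 32 (mk32 117) (EX.inL (EX.qf 117)) (jmp T13x0 J13)

noncomputable def sf119 : ℕ → ℕ → ℕ → Bool :=
  step0 119 1450814290838 2936 (EX.inL (EX.qf 119)) (jmp T14x0 J14)

noncomputable def sf120 : ℕ → ℕ → ℕ → Bool :=
  step0 120 1450814290838 2936 (EX.inL (EX.qf 120)) (jmp T14x0 J14)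

noncomputable def sf121 : ℕ → ℕ → ℕ → Bool :=
  step3 121 1450814290838 2936 64 (mk64 121) 9 (mk9 121) (EX.inL (EX.qf 121)) (jmp T14x0 J14)

noncomputable def sf123 : ℕ → ℕ → ℕ → Bool :=
  step0 123 1450814290838 2936 (EX.inL (EX.qf 123)) (jmp T14x0 J14)

noncomputable def sf124 : ℕ → ℕ → ℕ → Bool :=
  step1 124 1450814290838 2936 9 (mk9 124) (EX.inL (EX.qf 124)) (jmp T14x0 J14)

noncomputable def sf125 : ℕ → ℕ → ℕ → Bool :=
  step1 125 1450814290838 2936 32 (mk32 125) (EX.inL (EX.qf 125)) (jmp T14x0 J14)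

noncomputable def sf127 : ℕ → ℕ → ℕ → Bool :=
  step1 127 1450814290838 2936 9 (mk9 127) (EX.inL (EX.qf 127)) (jmp T14x0 J14)

noncomputable def sf128 : ℕ → ℕ → ℕ → Bool :=
  step0 128 1450814290838 2936 (EX.inL (EX.qf 128)) (jmp T14x0 J14)

noncomputable def sf129 : ℕ → ℕ → ℕ → Bool :=
  step1 129 1450814290838 2936 64 (mk64 129) (EX.inL (EX.qf 129)) (jmp T14x0 J14)

noncomputable def sf131 : ℕ → ℕ → ℕ → Bool :=
  step0 131 1450814290838 3061 (EX.inL (EX.qf 131)) (jmp T15x0 J15)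

noncomputable def sf132 : ℕ → ℕ → ℕ → Bool :=
  step1 132 1450814290838 3061 64 (mk64 132) (EX.inL (EX.qf 132)) (jmp T15x0 J15)

noncomputable def sf133 : ℕ → ℕ → ℕ → Bool :=
  step3 133 1450814290838 3061 32 (mk32 133) 9 (mk9 133) (EX.inL (EX.qf 133)) (jmp T15x0 J15)

noncomputable def sf135 : ℕ → ℕ → ℕ → Bool :=
  step0 135 1450814290838 3061 (EX.inL (EX.qf 135)) (jmp T15x0 J15)

noncomputable def sf136 : ℕ → ℕ → ℕ → Bool :=
  step1 136 1450814290838 3061 9 (mk9 136) (EX.inL (EX.qf 136)) (jmp T15x0 J15)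

noncomputable def sf137 : ℕ → ℕ → ℕ → Bool :=
  step1 137 1450814290838 3061 64 (mk64 137) (EX.inL (EX.qf 137)) (jmp T15x0 J15)

noncomputable def sf139 : ℕ → ℕ → ℕ → Bool :=
  step1 139 1450814290838 3061 9 (mk9 139) (EX.inL (EX.qf 139)) (jmp T15x0 J15)

noncomputable def sf140 : ℕ → ℕ → ℕ → Bool :=
  step1 140 1450814290838 3061 32 (mk32 140) (EX.inL (EX.qf 140)) (jmp T15x0 J15)

noncomputable def sf141 : ℕ → ℕ → ℕ → Bool :=
  step1 141 1450814290838 3061 32 (mk32 141) (EX.inL (EX.qf 141)) (jmp T15x0 J15)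

noncomputable def sf143 : ℕ → ℕ → ℕ → Bool :=
  step0 143 3153300937809 3191 (EX.inL (EX.qf 143)) (jmp T16x0 J16)

noncomputable def sf144 : ℕ → ℕ → ℕ → Bool :=
  step0 144 3153300937809 3191 (EX.inL (EX.qf 144)) (jmp T16x0 J16)

noncomputable def sf145 : ℕ → ℕ → ℕ → Bool :=
  step3 145 3153300937809 3191 64 (mk64 145) 9 (mk9 145) (EX.inL (EX.qf 145)) (jmp T16x0 J16)

noncomputable def sf147 : ℕ → ℕ → ℕ → Bool :=
  step0 147 3153300937809 3191 (EX.inL (EX.qf 147)) (jmp T16x0 J16)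

noncomputable def sf148 : ℕ → ℕ → ℕ → Bool :=
  step3 148 3153300937809 3191 64 (mk64 148) 9 (mk9 148) (EX.inL (EX.qf 148)) (jmp T16x0 J16)

noncomputable def sf149 : ℕ → ℕ → ℕ → Bool :=
  step1 149 3153300937809 3191 32 (mk32 149) (EX.inL (EX.qf 149)) (jmp T16x0 J16)

noncomputable def sf151 : ℕ → ℕ → ℕ → Bool :=
  step1 151 3153300937809 3191 9 (mk9 151) (EX.inL (EX.qf 151)) (jmp T16x0 J16)

noncomputable def sf152 : ℕ → ℕ → ℕ → Bool :=
  step0 152 3153300937809 3191 (EX.inL (EX.qf 152)) (jmp T16x0 J16)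

noncomputable def sf153 : ℕ → ℕ → ℕ → Bool :=
  step1 153 3153300937809 3191 64 (mk64 153) (EX.inL (EX.qf 153)) (jmp T16x0 J16)

noncomputable def sf155 : ℕ → ℕ → ℕ → Bool :=
  step0 155 3153300937809 4672 (EX.inL (EX.qf 155)) (jmp T17x0 J17)

noncomputable def sf156 : ℕ → ℕ → ℕ → Bool :=
  step0 156 3153300937809 4672 (EX.inL (EX.qf 156)) (jmp T17x0 J17)

noncomputable def sf157 : ℕ → ℕ → ℕ → Bool :=
  step3 157 3153300937809 4672 32 (mk32 157) 9 (mk9 157) (EX.inL (EX.qf 157)) (jmp T17x0 J17)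

noncomputable def sf159 : ℕ → ℕ → ℕ → Bool :=
  step0 159 3153300937809 4672 (EX.inL (EX.qf 159)) (jmp T17x0 J17)

noncomputable def sf160 : ℕ → ℕ → ℕ → Bool :=
  step1 160 3153300937809 4672 9 (mk9 160) (EX.inL (EX.qf 160)) (jmp T17x0 J17)

noncomputable def sf161 : ℕ → ℕ → ℕ → Bool :=
  step1 161 3153300937809 4672 64 (mk64 161) (EX.inL (EX.qf 161)) (jmp T17x0 J17)

noncomputable def sf163 : ℕ → ℕ → ℕ → Bool :=
  step1 163 3153300937809 4672 9 (mk9 163) (EX.inL (EX.qf 163)) (jmp T17x0 J17)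

noncomputable def sf164 : ℕ → ℕ → ℕ → Bool :=
  step1 164 3153300937809 4672 64 (mk64 164) (EX.inL (EX.qf 164)) (jmp T17x0 J17)

noncomputable def sf165 : ℕ → ℕ → ℕ → Bool :=
  step1 165 3153300937809 4672 32 (mk32 165) (EX.inL (EX.qf 165)) (jmp T17x0 J17)

noncomputable def sf167 : ℕ → ℕ → ℕ → Bool :=
  step0 167 5803257163349 4803 (EX.inL (EX.qf 167)) (jmp T18x0 J18)

noncomputable def sf168 : ℕ → ℕ → ℕ → Bool :=
  step0 168 5803257163349 4803 (EX.inL (EX.qf 168)) (jmp T18x0 J18)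

noncomputable def sf169 : ℕ → ℕ → ℕ → Bool :=
  step3 169 5803257163349 4803 64 (mk64 169) 9 (mk9 169) (EX.inL (EX.qf 169)) (jmp T18x0 J18)

noncomputable def sf171 : ℕ → ℕ → ℕ → Bool :=
  step0 171 5803257163349 4803 (EX.inL (EX.qf 171)) (jmp T18x0 J18)

noncomputable def sf172 : ℕ → ℕ → ℕ → Bool :=
  step3 172 5803257163349 4803 32 (mk32 172) 9 (mk9 172) (EX.inL (EX.qf 172)) (jmp T18x0 J18)

noncomputable def sf173 : ℕ → ℕ → ℕ → Bool :=
  step1 173 5803257163349 4803 32 (mk32 173) (EX.inL (EX.qf 173)) (jmp T18x0 J18)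

noncomputable def sf175 : ℕ → ℕ → ℕ → Bool :=
  step1 175 5803257163349 4803 9 (mk9 175) (EX.inL (EX.qf 175)) (jmp T18x0 J18)

noncomputable def sf176 : ℕ → ℕ → ℕ → Bool :=
  step0 176 5803257163349 4803 (EX.inL (EX.qf 176)) (jmp T18x0 J18)

noncomputable def sf177 : ℕ → ℕ → ℕ → Bool :=
  step1 177 5803257163349 4973 64 (mk64 177) (EX.inL (EX.qf 177)) (jmp T19x0 J19)

noncomputable def sf179 : ℕ → ℕ → ℕ → Bool :=
  step0 179 5803257163349 4973 (EX.inL (EX.qf 179)) (jmp T19x0 J19)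

noncomputable def sf180 : ℕ → ℕ → ℕ → Bool :=
  step1 180 5803257163349 4973 64 (mk64 180) (EX.inL (EX.qf 180)) (jmp T19x0 J19)

noncomputable def sf181 : ℕ → ℕ → ℕ → Bool :=
  step3 181 5803257163349 4973 32 (mk32 181) 9 (mk9 181) (EX.inL (EX.qf 181)) (jmp T19x0 J19)

noncomputable def sf183 : ℕ → ℕ → ℕ → Bool :=
  step0 183 5803257163349 4973 (EX.inL (EX.qf 183)) (jmp T19x0 J19)

noncomputable def sf184 : ℕ → ℕ → ℕ → Bool :=
  step1 184 5803257163349 4973 9 (mk9 184) (EX.inL (EX.qf 184)) (jmp T19x0 J19)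

noncomputable def sf185 : ℕ → ℕ → ℕ → Bool :=
  step1 185 5803257163349 4973 64 (mk64 185) (EX.inL (EX.qf 185)) (jmp T19x0 J19)

noncomputable def sf187 : ℕ → ℕ → ℕ → Bool :=
  step1 187 5803257163349 4973 9 (mk9 187) (EX.inL (EX.qf 187)) (jmp T19x0 J19)

noncomputable def sf188 : ℕ → ℕ → ℕ → Bool :=
  step0 188 9427419075206 5113 (EX.inL (EX.qf 188)) (jmp T20x0 J20)

noncomputable def sf189 : ℕ → ℕ → ℕ → Bool :=
  step1 189 9427419075206 5113 32 (mk32 189) (EX.inL (EX.qf 189)) (jmp T20x0 J20)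

noncomputable def sf191 : ℕ → ℕ → ℕ → Bool :=
  step0 191 9427419075206 5113 (EX.inL (EX.qf 191)) (jmp T20x0 J20)

noncomputable def sf192 : ℕ → ℕ → ℕ → Bool :=
  step0 192 9427419075206 5113 (EX.inL (EX.qf 192)) (jmp T20x0 J20)

noncomputable def sf193 : ℕ → ℕ → ℕ → Bool :=
  step3 193 9427419075206 5113 64 (mk64 193) 9 (mk9 193) (EX.inL (EX.qf 193)) (jmp T20x0 J20)

noncomputable def sf195 : ℕ → ℕ → ℕ → Bool :=
  step0 195 9427419075206 5113 (EX.inL (EX.qf 195)) (jmp T20x0 J20)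

noncomputable def sf196 : ℕ → ℕ → ℕ → Bool :=
  step3 196 9427419075206 5113 64 (mk64 196) 9 (mk9 196) (EX.inL (EX.qf 196)) (jmp T20x0 J20)

noncomputable def sf197 : ℕ → ℕ → ℕ → Bool :=
  step1 197 9427419075206 5113 32 (mk32 197) (EX.inL (EX.qf 197)) (jmp T20x0 J20)

noncomputable def sf199 : ℕ → ℕ → ℕ → Bool :=
  step1 199 9427419075206 7383 9 (mk9 199) (EX.inL (EX.qf 199)) (jmp T21x0 J21)

noncomputable def sf200 : ℕ → ℕ → ℕ → Bool :=
  step0 200 9427419075206 7383 (EX.inL (EX.qf 200)) (jmp T21x0 J21)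

noncomputable def sf201 : ℕ → ℕ → ℕ → Bool :=
  step1 201 9427419075206 7383 64 (mk64 201) (EX.inL (EX.qf 201)) (jmp T21x0 J21)

noncomputable def sf203 : ℕ → ℕ → ℕ → Bool :=
  step0 203 9427419075206 7383 (EX.inL (EX.qf 203)) (jmp T21x0 J21)

noncomputable def sf204 : ℕ → ℕ → ℕ → Bool :=
  step1 204 9427419075206 7383 32 (mk32 204) (EX.inL (EX.qf 204)) (jmp T21x0 J21)

noncomputable def sf205 : ℕ → ℕ → ℕ → Bool :=
  step3 205 9427419075206 7383 32 (mk32 205) 9 (mk9 205) (EX.inL (EX.qf 205)) (jmp T21x0 J21)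

noncomputable def sf207 : ℕ → ℕ → ℕ → Bool :=
  step0 207 9427419075206 7383 (EX.inL (EX.qf 207)) (jmp T21x0 J21)

noncomputable def sf208 : ℕ → ℕ → ℕ → Bool :=
  step1 208 16188112345575 7590 9 (mk9 208) (EX.inL (EX.qf 208)) (jmp T22x0 J22)

noncomputable def sf209 : ℕ → ℕ → ℕ → Bool :=
  step1 209 16188112345575 7590 64 (mk64 209) (EX.inL (EX.qf 209)) (jmp T22x0 J22)

noncomputable def sf211 : ℕ → ℕ → ℕ → Bool :=
  step1 211 16188112345575 7590 9 (mk9 211) (EX.inL (EX.qf 211)) (jmp T22x0 J22)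

noncomputable def sf212 : ℕ → ℕ → ℕ → Bool :=
  step1 212 16188112345575 7590 64 (mk64 212) (EX.inL (EX.qf 212)) (jmp T22x0 J22)

noncomputable def sf213 : ℕ → ℕ → ℕ → Bool :=
  step1 213 16188112345575 7590 32 (mk32 213) (EX.inL (EX.qf 213)) (jmp T22x0 J22)

noncomputable def sf215 : ℕ → ℕ → ℕ → Bool :=
  step0 215 16188112345575 7590 (EX.inL (EX.qf 215)) (jmp T22x0 J22)

noncomputable def sf216 : ℕ → ℕ → ℕ → Bool :=
  step0 216 16188112345575 7590 (EX.inL (EX.qf 216)) (jmp T22x0 J22)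

noncomputable def sf217 : ℕ → ℕ → ℕ → Bool :=
  step3 217 16188112345575 7590 64 (mk64 217) 9 (mk9 217) (EX.inL (EX.qf 217)) (jmp T22x0 J22)

noncomputable def sf219 : ℕ → ℕ → ℕ → Bool :=
  step0 219 16188112345575 7750 (EX.inL (EX.qf 219)) (jmp T23x0 J23)

noncomputable def sf220 : ℕ → ℕ → ℕ → Bool :=
  step1 220 16188112345575 7750 9 (mk9 220) (EX.inL (EX.qf 220)) (jmp T23x0 J23)

noncomputable def sf221 : ℕ → ℕ → ℕ → Bool :=
  step1 221 16188112345575 7750 32 (mk32 221) (EX.inL (EX.qf 221)) (jmp T23x0 J23)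

noncomputable def sf223 : ℕ → ℕ → ℕ → Bool :=
  step1 223 16188112345575 7750 9 (mk9 223) (EX.inL (EX.qf 223)) (jmp T23x0 J23)

noncomputable def sf224 : ℕ → ℕ → ℕ → Bool :=
  step0 224 16188112345575 7750 (EX.inL (EX.qf 224)) (jmp T23x0 J23)

noncomputable def sf225 : ℕ → ℕ → ℕ → Bool :=
  step1 225 16188112345575 7750 64 (mk64 225) (EX.inL (EX.qf 225)) (jmp T23x0 J23)

noncomputable def sf227 : ℕ → ℕ → ℕ → Bool :=
  step0 227 16188112345575 7750 (EX.inL (EX.qf 227)) (jmp T23x0 J23)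

noncomputable def sf228 : ℕ → ℕ → ℕ → Bool :=
  step1 228 27414416489230 7912 64 (mk64 228) (EX.inL (EX.qf 228)) (jmp T24x0 J24)

noncomputable def sf229 : ℕ → ℕ → ℕ → Bool :=
  step3 229 27414416489230 7912 32 (mk32 229) 9 (mk9 229) (EX.inL (EX.qf 229)) (jmp T24x0 J24)

noncomputable def sf231 : ℕ → ℕ → ℕ → Bool :=
  step0 231 27414416489230 7912 (EX.inL (EX.qf 231)) (jmp T24x0 J24)

noncomputable def sf232 : ℕ → ℕ → ℕ → Bool :=
  step1 232 27414416489230 7912 9 (mk9 232) (EX.inL (EX.qf 232)) (jmp T24x0 J24)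

noncomputable def sf233 : ℕ → ℕ → ℕ → Bool :=
  step1 233 27414416489230 7912 64 (mk64 233) (EX.inL (EX.qf 233)) (jmp T24x0 J24)

noncomputable def sf235 : ℕ → ℕ → ℕ → Bool :=
  step1 235 27414416489230 7912 9 (mk9 235) (EX.inL (EX.qf 235)) (jmp T24x0 J24)

noncomputable def sf236 : ℕ → ℕ → ℕ → Bool :=
  step1 236 27414416489230 7912 32 (mk32 236) (EX.inL (EX.qf 236)) (jmp T24x0 J24)

noncomputable def sf237 : ℕ → ℕ → ℕ → Bool :=
  step1 237 27414416489230 8023 32 (mk32 237) (EX.inL (EX.qf 237)) (jmp T25x0 J25)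

noncomputable def sf239 : ℕ → ℕ → ℕ → Bool :=
  step0 239 27414416489230 8023 (EX.inL (EX.qf 239)) (jmp T25x0 J25)

noncomputable def sf240 : ℕ → ℕ → ℕ → Bool :=
  step0 240 27414416489230 8023 (EX.inL (EX.qf 240)) (jmp T25x0 J25)

noncomputable def sf241 : ℕ → ℕ → ℕ → Bool :=
  step3 241 27414416489230 8023 64 (mk64 241) 9 (mk9 241) (EX.inL (EX.qf 241)) (jmp T25x0 J25)

noncomputable def sf243 : ℕ → ℕ → ℕ → Bool :=
  step0 243 27414416489230 8023 (EX.inL (EX.qf 243)) (jmp T25x0 J25)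

noncomputable def sf244 : ℕ → ℕ → ℕ → Bool :=
  step3 244 27414416489230 8023 64 (mk64 244) 9 (mk9 244) (EX.inL (EX.qf 244)) (jmp T25x0 J25)

noncomputable def sf245 : ℕ → ℕ → ℕ → Bool :=
  step1 245 27414416489230 8023 32 (mk32 245) (EX.inL (EX.qf 245)) (jmp T25x0 J25)

noncomputable def sf247 : ℕ → ℕ → ℕ → Bool :=
  step1 247 27414416489230 8192 9 (mk9 247) (EX.inL (EX.qf 247)) (jmp T26x0 J26)

noncomputable def sf248 : ℕ → ℕ → ℕ → Bool :=
  step0 248 27414416489230 8192 (EX.inL (EX.qf 248)) (jmp T26x0 J26)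

noncomputable def sf249 : ℕ → ℕ → ℕ → Bool :=
  step1 249 27414416489230 8192 64 (mk64 249) (EX.inL (EX.qf 249)) (jmp T26x0 J26)

noncomputable def sf251 : ℕ → ℕ → ℕ → Bool :=
  step0 251 27414416489230 8192 (EX.inL (EX.qf 251)) (jmp T26x0 J26)

noncomputable def sf252 : ℕ → ℕ → ℕ → Bool :=
  step0 252 27414416489230 8192 (EX.inL (EX.qf 252)) (jmp T26x0 J26)

noncomputable def sf253 : ℕ → ℕ → ℕ → Bool :=
  step3 253 27414416489230 8192 32 (mk32 253) 9 (mk9 253) (EX.inL (EX.qf 253)) (jmp T26x0 J26)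

end Pool.Agent.MP_2339ce_nt.Q2.RG
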