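import Pool.Agent.MP_2339ce_nt.Q2.RMed

/-! Block REG: a faster form of the program. -/

set_option autoImplicit false

noncomputable section

namespace Pool.Agent.MP_2339ce_nt.Q2.RG

structure Bo (α : Type) : Type where
  v : α

abbrev B5 := ℕ → ℕ → ℕ → ℕ → ℕ → Bool

/-- `k x`, with `x` evaluated first -/
def fc (x : ℕ) (k : ℕ → Bool) : Bool :=
  @Nat.rec (fun _ => Bool) (k (nat_lit 0)) (fun y _ => k y) (Nat.add x (nat_lit 1))

/-- the tail of a search -/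
def tl (H : ℕ) (k : B2) (n m : ℕ) : Bool :=
  (e1 H k (e1 H k (e2 H k (e2 H k no))) n m)

def kb (T : ℕ) (_n m : ℕ) : Bool := Nat.ble T m

def tm (H T : ℕ) (n m : ℕ) : Bool :=
  (e4 H (kb T) (e4 H (kb T) (e4 H (kb T) no)) n m)

/-- the second stage -/
def stB : Bo B5 := ⟨fun TA TB H n m0 => by
  refine @Bool.rec (fun _ => Bool) false ?_ (Nat.ble TA m0)
  refine (?_ : ℕ → Bool) (Nat.mod n m0); intro m1
  refine (?_ : ℕ → Bool) (Nat.mod m0 m1); intro m2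
  refine (?_ : ℕ → Bool) (Nat.mod m1 m2); intro m3
  refine (?_ : ℕ → Bool) (Nat.mod m2 m3); intro m4
  refine (?_ : ℕ → Bool) (Nat.mod m3 m4); intro m5
  refine (?_ : ℕ → Bool) (Nat.mod m4 m5); intro m6
  refine (?_ : ℕ → Bool) (Nat.mod m5 m6); intro m7
  refine (?_ : ℕ → Bool) (Nat.mod m6 m7); intro m8
  refine (?_ : ℕ → Bool) (Nat.mod m7 m8); intro m9
  refine (?_ : ℕ → Bool) (Nat.mod m8 m9); intro m10
  refine @Bool.rec (fun _ => Bool) ?_ (Nat.ble TB m10) (Nat.ble m10 H)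
  refine (?_ : ℕ → Bool) (Nat.mod m9 m10); intro m11
  refine (?_ : ℕ → Bool) (Nat.mod m10 m11); intro m12
  refine (?_ : ℕ → Bool) (Nat.mod m11 m12); intro m13
  refine (?_ : ℕ → Bool) (Nat.mod m12 m13); intro m14
  exact @Bool.rec (fun _ => Bool) (tm H TB m13 m14) (Nat.ble TB m14) (Nat.ble m14 H)⟩

/-- the fast test of a regular triple with `s ≥ 5408`, else the test `O` -/
def nwB (W K5 W3 qq CN4 N1 : ℕ) (ST : B5) (O : Nd) : Bo Nd := ⟨fun a r b s t c R S => by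
  refine (?_ : Bool → Bool) (O a r b s t c R S); intro o
  refine @Bool.rec (fun _ => Bool) o (@Bool.rec (fun _ => Bool) o true ?_)
    (Nat.ble (nat_lit 5408) s)
  refine (?_ : ℕ → Bool) (Nat.mul W a); intro aW
  refine (?_ : ℕ → Bool) (Nat.sub b a); intro ba
  refine (?_ : ℕ → Bool) (Nat.sub (Nat.mul t R) (Nat.add (Nat.mul aW s)
    (Nat.mul ba (Nat.add (nat_lit 2) S)))); intro n1
  refine (?_ : ℕ → Bool) (Nat.sub (Nat.mul t S) (Nat.add (Nat.mul aW r)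
    (Nat.mul (Nat.sub c a) (Nat.add (nat_lit 2) R)))); intro n2
  refine (?_ : ℕ → Bool) (Nat.add qq (Nat.div n1 (Nat.mul K5 a))); intro Q
  refine (?_ : ℕ → Bool) (Nat.mul (Nat.mul Q (Nat.mul (nat_lit 16) c))
    (Nat.add (nat_lit 3) (Nat.div n2 n1))); intro U
  refine (?_ : ℕ → Bool) (Nat.mul t (Nat.add a a)); intro X
  refine (?_ : ℕ → Bool) (Nat.add (nat_lit 5) (Nat.div (Nat.mul CN4 ba)
    (Nat.pow (Nat.mul t r) (nat_lit 3)))); intro C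
  refine (?_ : ℕ → Bool) (Nat.div n1 (Nat.add qq (Nat.div (Nat.mul t n1) W3))); intro H
  refine (?_ : B2 → Bool) (ST
    (Nat.add U (Nat.div (Nat.mul C (Nat.mul X X)) (Nat.pow s (nat_lit 3))))
    (Nat.add U (Nat.div (Nat.mul N1 C) X)) (Nat.div n1 Q)); intro K
  refine (?_ : ℕ → Bool) (Nat.mod n2 n1); intro m0
  refine (?_ : ℕ → Bool) (Nat.mod n1 m0); intro m1
  refine (?_ : ℕ → Bool) (Nat.mod m0 m1); intro m2
  refine (?_ : ℕ → Bool) (Nat.mod m1 m2); intro m3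
  refine @Bool.rec (fun _ => Bool) ?_ (K m2 m3) (Nat.ble m3 H)
  refine (?_ : ℕ → Bool) (Nat.mod m2 m3); intro m4
  refine (?_ : ℕ → Bool) (Nat.mod m3 m4); intro m5
  exact @Bool.rec (fun _ => Bool) (tl H K m4 m5) (K m4 m5) (Nat.ble m5 H)⟩

/-- `√(s ^ 2 + N) W` up to two, by a closed formula for `s ≥ 5408` -/
def roF (c1 c2 c4 Wh : ℕ) (O : ℕ → ℕ) (s : ℕ) : ℕ := by
  refine @Bool.rec (fun _ => ℕ) (O s) ?_ (Nat.ble (nat_lit 5408) s)
  refine (?_ : ℕ → ℕ) (Nat.add s s); intro d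
  refine (?_ : ℕ → ℕ) (Nat.add c1 (Nat.mul d d)); intro u1
  refine (?_ : ℕ → ℕ) (Nat.sub (Nat.mul u1 u1) c2); intro u2
  exact Nat.sub (Nat.div (Nat.mul Wh (Nat.sub (Nat.mul u2 u2) c4)) (Nat.mul (Nat.mul d u1) u2))
    (nat_lit 1)

abbrev Tc := Lp → ℕ → ℕ → ℕ → ℕ → ℕ → ℕ → ℕ → SK → Bool

def tc (Am : ℕ) (ro : ℕ → ℕ) (L : TL) (ih : Lp) (a b s t c S B : ℕ) (k : SK) : Bool :=
  @Bool.rec (fun _ => Bool) (ih a s c S B TL.nil k) (t3 ro ih a b s t c S B k (dr b L))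
    (Nat.ble b Am)

/-- one triple -/
def onB (c1 c2 c4 Wh : ℕ) (O : ℕ → ℕ) (fl : ℕ → ℕ → ℕ → Bool) (NW : Nd) (TC : TL → Tc) :
    Bo (Lp → Lp) := ⟨fun ih a r b R B L k => by
  refine (?_ : ℕ → Bool) (Nat.add a r); intro s
  refine (?_ : ℕ → Bool) (Nat.add b r); intro t
  refine (?_ : ℕ → Bool) (Nat.add s t); intro c
  refine (?_ : ℕ → Bool) (by
    refine @Bool.rec (fun _ => ℕ) (O s) ?_ (Nat.ble (nat_lit 5408) s)
    refine (?_ : ℕ → ℕ) (Nat.add s s); intro d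
    refine (?_ : ℕ → ℕ) (Nat.add c1 (Nat.mul d d)); intro u1
    refine (?_ : ℕ → ℕ) (Nat.sub (Nat.mul u1 u1) c2); intro u2
    exact Nat.sub (Nat.div (Nat.mul Wh (Nat.sub (Nat.mul u2 u2) c4)) (Nat.mul (Nat.mul d u1) u2))
      (nat_lit 1)); intro S
  exact @Bool.rec (fun _ => Bool) false
    (@Bool.rec (fun _ => Bool) (pop ih k)
      (@TL.rec (fun _ => Tc) (fun ih a _ s _ c S B k => ih a s c S B TL.nil k)
        (fun A B' k' _ => TC (TL.cons A B' k')) L ih a b s t c S B k)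
      (Nat.ble c B))
    (@Bool.rec (fun _ => Bool) (NW a r b s t c R S) true (fl a b c))⟩

def it1 (one : Lp → Lp) (z : Lp) (f : ℕ) : Lp :=
  @Nat.rec (fun _ => Lp) z (fun _ ih => one ih) f

def it8 (one : Lp → Lp) (z : Lp) (f : ℕ) : Lp :=
  @Nat.rec (fun _ => Lp) (it1 one z (Nat.mod f (nat_lit 8)))
    (fun _ ih => one (one (one (one (one (one (one (one ih)))))))) (Nat.div f (nat_lit 8))

def bs (S' : ℕ) : Lp := fun a r b R B L k => cmp (SK.cons a r b R B L k) S'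

def ruF (N : ℕ) (ro : ℕ → ℕ) (one : Lp → Lp) (T : TL) (F S S' : ℕ) : Bool :=
  (@Bool.rec (fun _ => Bool) false (pop (it8 one (bs S') F) (dec N ro T (nat_lit 100) S)) (Nat.ble
    (Nat.succ S) (Nat.pow (nat_lit 2) (nat_lit 4000))))

def sF2 (N G Am : ℕ) (fl : ℕ → ℕ → ℕ → Bool) (I : ℕ → ℕ → ℕ → ℕ → Bool) (T : TL) (F S S' : ℕ)
    (W Wh CN K5 W3 qq CN4 N1 c1 c2 c4 : ℕ) : Bool :=
  @Bo.rec B5 (fun _ => Bool) (fun ST =>
    @Bo.rec Nd (fun _ => Bool) (fun NW =>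
      @Bo.rec (Lp → Lp) (fun _ => Bool) (fun one =>
        ruF N (roF c1 c2 c4 Wh (root N W)) one T F S S')
        (onB c1 c2 c4 Wh (root N W) fl NW (tc Am (roF c1 c2 c4 Wh (root N W)))))
      (nwB W K5 W3 qq CN4 N1 ST (nd2 N W CN G fl0 I))) stB

/-- the same use as `step` -/
def stepF (N G Am : ℕ) (fl : ℕ → ℕ → ℕ → Bool) (I : ℕ → ℕ → ℕ → ℕ → Bool) (T : TL)
    (F S S' : ℕ) : Bool :=
  fc N fun N => fc G fun G => fc Am fun Am =>
  fc (Nat.pow (nat_lit 2) (nat_lit 136)) fun W =>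
  fc (Nat.pow (nat_lit 2) (nat_lit 135)) fun Wh =>
  fc (Nat.succ (Nat.div (Nat.mul (Nat.pow N (nat_lit 4)) W) (nat_lit 64))) fun CN =>
  fc (Nat.div (Nat.mul (nat_lit 36) W) (Nat.mul (nat_lit 49) (Nat.add G (nat_lit 16)))) fun K5 =>
  fc (Nat.div (Nat.mul (nat_lit 9216) W) (nat_lit 25137)) fun W3 =>
  fc (Nat.add (Nat.div (Nat.mul (nat_lit 4) (Nat.add (Nat.div N (nat_lit 2)) (nat_lit 2)))
    (nat_lit 3)) (nat_lit 2)) fun qq =>
  fc (Nat.succ (Nat.div (Nat.mul (nat_lit 33) CN) (nat_lit 8))) fun CN4 =>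
  fc (Nat.succ N) fun N1 =>
  fc (Nat.mul (nat_lit 2) N) fun c1 =>
  fc (Nat.mul (nat_lit 2) (Nat.pow N (nat_lit 2))) fun c2 =>
  fc (Nat.mul (nat_lit 2) (Nat.pow N (nat_lit 4))) fun c4 =>
  sF2 N G Am fl I T F S S' W Wh CN K5 W3 qq CN4 N1 c1 c2 c4

end Pool.Agent.MP_2339ce_nt.Q2.RG

end
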