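import Pool.Agent.MP_2339ce_nt.Q2.RMedP
import Pool.Agent.MP_2339ce_nt.Q2.RFast

/-! Block REG: the faster program is sound. -/

set_option autoImplicit false

namespace Pool.Agent.MP_2339ce_nt.Q2.RG

namespace Fa

open Eu

theorem fc_eq (x : ℕ) (k : ℕ → Bool) : fc x k = k x := (rfl : fc x k = k x).trans rfl

theorem root_core {N s Wh u1 u2 u3 : ℤ} (n0 : 0 ≤ N) (n2 : N ≤ 256) (hs : 5408 ≤ s)
    (h1 : u1 = 2 * N + (s + s) * (s + s)) (h2 : u2 = u1 * u1 - 2 * N ^ 2)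
    (h3 : u3 = u2 * u2 - 2 * N ^ 4) (hW : Wh = 2 ^ 135) :
    (s + s) ^ 2 ≤ u1 ∧ (s + s) ^ 4 + 2 * N ^ 2 ≤ u2 ∧ 0 ≤ u3 ∧
    u3 ^ 2 = 4 * (s ^ 2 + N) * ((s + s) * u1 * u2) ^ 2 + 4 * N ^ 8 ∧
    4 * N ^ 8 * Wh ≤ u3 * ((s + s) * u1 * u2) ∧ (s + s) * u1 * u2 ≤ u3 := by
  have e : u3 ^ 2 = 4 * (s ^ 2 + N) * ((s + s) * u1 * u2) ^ 2 + 4 * N ^ 8 := by
    subst h1 h2 h3; ring
  generalize hd : s + s = d at *
  have d0 : 10816 ≤ d := by omega
  have a1 : d ^ 2 ≤ u1 := by nlinarith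
  have a2 : d ^ 4 + 2 * N ^ 2 ≤ u2 := by
    rw [h2, h1]; nlinarith [mul_nonneg n0 (sq_nonneg d)]
  have p2 : 0 < d ^ 2 := by positivity
  have p4 : 0 < d ^ 4 := by positivity
  have a3 : 0 ≤ u3 := by
    have : 2 * N ^ 2 ≤ u2 := by linarith
    have : (2 * N ^ 2) * (2 * N ^ 2) ≤ u2 * u2 := mul_self_le_mul_self (by positivity) this
    rw [h3]; nlinarith [sq_nonneg (N ^ 2)]
  have q1 : d * d ^ 2 * d ^ 4 ≤ d * u1 * u2 :=
    mul_le_mul (mul_le_mul_of_nonneg_left a1 (by omega)) (by nlinarith [sq_nonneg N]) p4.le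
      (mul_nonneg (by omega) (by linarith))
  generalize d * u1 * u2 = q at *
  have q7 : (10816 : ℤ) ^ 7 ≤ q := by
    have : (10816 : ℤ) ^ 7 ≤ d ^ 7 := pow_le_pow_left₀ (by norm_num) d0 7
    nlinarith
  have q0 : 0 < q := lt_of_lt_of_le (by norm_num) q7
  have b1 : 10816 * q ≤ u3 := by
    refine le_of_pow_le_pow_left₀ two_ne_zero a3 ?_
    have : (10816 : ℤ) ^ 2 ≤ 4 * (s ^ 2 + N) := by nlinarith
    have h8 : 0 ≤ N ^ 8 := by positivity
    nlinarith [mul_le_mul_of_nonneg_right this (sq_nonneg q)]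
  refine ⟨a1, a2, a3, e, ?_, by linarith⟩
  have h8 : N ^ 8 ≤ 256 ^ 8 := pow_le_pow_left₀ n0 n2 8
  have : (10816 : ℤ) ^ 7 * 10816 ^ 7 ≤ q * q := mul_self_le_mul_self (by norm_num) q7
  subst hW
  nlinarith [mul_le_mul_of_nonneg_right b1 q0.le]

theorem lo {P q y A M : ℕ} (t1 : y * q + q ≤ P) (t3 : M ≤ P * q) (t4 : P ^ 2 = A * q ^ 2 + M) :
    y ^ 2 * q ^ 2 ≤ A * q ^ 2 := by
  have t2 : q * q ≤ P * q := Nat.mul_le_mul_right _ (le_of_add_le_right t1)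
  obtain ⟨δ, hδ⟩ := Nat.exists_eq_add_of_le t1
  have t6 : P ^ 2 + q * q = 2 * (P * q) + (y * q + δ) ^ 2 := by rw [hδ]; ring
  have t7 : (y * q) ^ 2 ≤ (y * q + δ) ^ 2 := Nat.pow_le_pow_left (Nat.le_add_right _ _) 2
  rw [← mul_pow]
  omega

theorem rq_ok {N s Wh : ℕ} (n2 : N ≤ 256) (hs : 5408 ≤ s) (hW : Wh = 2 ^ 135) (u1 u2 : ℕ)
    (h1 : u1 = 2 * N + (s + s) * (s + s)) (h2 : u2 = u1 * u1 - 2 * N ^ 2) :
    RV (Wh * (u2 * u2 - 2 * N ^ 4) / ((s + s) * u1 * u2) - 1)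
      ((s ^ 2 + N) * ((2 * Wh) * (2 * Wh))) := by
  have g1 : 2 * N ^ 2 ≤ u1 * u1 := by rw [h1]; nlinarith [Nat.zero_le ((s + s) * (s + s))]
  have c1 : (u1 : ℤ) = 2 * N + (s + s) * (s + s) := by rw [h1]; push_cast; ring
  have c2 : (u2 : ℤ) = u1 * u1 - 2 * (N : ℤ) ^ 2 := by rw [h2, Nat.cast_sub g1]; push_cast; ring
  obtain ⟨a1, a2, a3, e, a4, a5⟩ := root_core (Wh := Wh) (Int.natCast_nonneg N)
    (by exact_mod_cast n2) (by exact_mod_cast hs) c1 c2 rfl (by rw [hW]; norm_num)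
  have g2 : 2 * N ^ 4 ≤ u2 * u2 := by zify; linarith
  have c3 : ((u2 * u2 - 2 * N ^ 4 : ℕ) : ℤ) = (u2 : ℤ) * u2 - 2 * (N : ℤ) ^ 4 := by
    rw [Nat.cast_sub g2]; push_cast; ring
  rw [← c3] at a3 e a4 a5
  generalize u2 * u2 - 2 * N ^ 4 = u3 at *
  have q0 : 0 < (s + s) * u1 * u2 := by
    have : (0 : ℤ) < (s + s) ^ 2 := by positivity
    have : (0 : ℤ) < (s + s) ^ 4 := by positivity
    have : 0 < u1 := by zify; linarith
    have : 0 < u2 := by zify; nlinarith [sq_nonneg (N : ℤ)]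
    positivity
  have cq : (((s + s) * u1 * u2 : ℕ) : ℤ) = (s + s) * u1 * u2 := by push_cast; ring
  rw [← cq] at e a4 a5
  generalize (s + s) * u1 * u2 = q at *
  have l1 := Nat.div_mul_le_self (Wh * u3) q
  have l2 := Nat.lt_mul_div_succ (Wh * u3) q0
  generalize Wh * u3 / q = y at *
  rcases y with _ | y
  · exact Or.inl rfl
  clear hW
  have e' : u3 ^ 2 = 4 * (s ^ 2 + N) * q ^ 2 + 4 * N ^ 8 := by exact_mod_cast e
  have a4' : 4 * N ^ 8 * Wh ≤ u3 * q := by exact_mod_cast a4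
  generalize s ^ 2 + N = n at *
  generalize N ^ 8 = M at *
  have q2 : 0 < q ^ 2 := by positivity
  refine Or.inr ⟨Nat.le_of_mul_le_mul_right (c := q ^ 2) ?_ q2,
    Nat.lt_of_mul_lt_mul_right (a := q ^ 2) ?_⟩
  · rw [Nat.add_sub_cancel]
    refine lo (P := Wh * u3) (M := 4 * M * Wh * Wh) ?_ ?_ ?_
    · rw [← Nat.succ_mul]; exact l1
    · calc 4 * M * Wh * Wh ≤ u3 * q * Wh := Nat.mul_le_mul_right _ a4'
        _ = _ := by ring
    · rw [mul_pow, e']; ring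
  · rw [Nat.add_sub_cancel]
    have t1 : (Wh * u3) ^ 2 < (q * (y + 1 + 1)) ^ 2 := Nat.pow_lt_pow_left l2 two_ne_zero
    have t4 : (Wh * u3) ^ 2 = n * (2 * Wh * (2 * Wh)) * q ^ 2 + 4 * M * Wh * Wh := by
      rw [mul_pow, e']; ring
    have t5 : (q * (y + 1 + 1)) ^ 2 = (y + 2) ^ 2 * q ^ 2 := by ring
    omega

theorem roF_ok {N W Wh : ℕ} (n2 : N ≤ 256) (hW : Wh = 2 ^ 135) (hw : W = 2 * Wh) (r : ℕ) :
    RO N W r (roF (2 * N) (2 * N ^ 2) (2 * N ^ 4) Wh (root N W) r) := by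
  unfold roF
  cases h : Nat.ble (nat_lit 5408) r
  · exact ⟨(root_ok N W r).1, fun h => by rw [h]; exact (root_ok N W 0).2.2⟩
  · have hr : 5408 ≤ r := Nat.le_of_ble_eq_true h
    exact ⟨hw ▸ rq_ok n2 hr hW _ _ rfl rfl, fun h0 => by omega⟩

theorem quo {h n e D K q0 : ℕ} (he : 48 * e ≤ n) (hK : 0 < K)
    (hh : ∀ y : ℕ, n < K * (y + 1) → 49 * h * n < 36 * D * (y + 1)) :
    4 * (h * (n + e) / D + q0) ≤ 3 * (4 * q0 / 3 + 2 + n / K) := by
  have l1 := Nat.div_mul_le_self (h * (n + e)) D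
  have l2 := hh _ (Nat.lt_mul_div_succ n hK)
  generalize h * (n + e) / D = z at *
  generalize n / K = y at *
  have l3 : h * (48 * e) ≤ h * n := Nat.mul_le_mul_left h he
  have : 4 * z * D < 3 * (y + 1) * D := by nlinarith
  have := Nat.lt_of_mul_lt_mul_right this
  omega

theorem hle {m n Q P : ℕ} (h : m ≤ n / P) (hQ : 4 * Q ≤ 3 * P) (q0 : 0 < Q) :
    m ≤ 3 * n / 4 / Q := by
  have l1 : m * P ≤ n := (Nat.mul_le_mul_right P h).trans (Nat.div_mul_le_self n P)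
  rw [Nat.le_div_iff_mul_le q0, Nat.le_div_iff_mul_le (by norm_num)]
  nlinarith [Nat.mul_le_mul_left m hQ]

theorem four_div {x y d : ℕ} (h : 4 * x ≤ y) : 4 * (x / d) ≤ y / d :=
  (Nat.mul_div_le_mul_div_assoc 4 x d).trans (Nat.div_le_div_right h)

theorem st_ok {n1 n2 TA TB H n m : ℕ} (hi : Iv n1 n2 n m) (h : stB.v TA TB H n m = true) :
    TA ≤ m ∧ ∃ n' m', Iv n1 n2 n' m' ∧ (m' ≤ n' ∨ n' = 0) ∧ m' ≤ H ∧ TB ≤ m' := by
  obtain ⟨h1, h2⟩ := rec_and h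
  refine ⟨Nat.le_of_ble_eq_true h1, ?_⟩
  obtain ⟨n', m', a, b, c, d⟩ :=
    gdj (gdj (gd2 (gd4 (gd4 (gd4 (gd4 (gd0 (k := kb TB) (H := H)))))))) n m hi h2
  exact ⟨n', m', a, b, c, Nat.le_of_ble_eq_true d⟩

theorem ari {N G W a s t c ba P CN m1 m2 n m n' m' : ℕ} (hw : W = 2 ^ 136) (hG : G ≤ 2 ^ 100)
    (n2 : N ≤ 256) (a0 : 0 < a) (hs : 4096 ≤ s) (st : s ≤ t) (hc : c ≤ 2 * t) (tc : t ≤ c)
    (hss : s ^ 2 + N = a * c) (i1 : Iv m1 m2 n m) (o1 : m ≤ n ∨ n = 0) (i2 : Iv m1 m2 n' m')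
    (o2 : m' ≤ n' ∨ n' = 0)
    (H1 : m ≤ m1 / (4 * (N / 2 + 2) / 3 + 2 + t * m1 / (9216 * W / 25137)))
    (H2 : m' ≤ m1 / (4 * (N / 2 + 2) / 3 + 2 + m1 / (36 * W / (49 * (G + 16)) * a)))
    (A1 : (4 * (N / 2 + 2) / 3 + 2 + m1 / (36 * W / (49 * (G + 16)) * a)) * (16 * c) *
      (3 + m2 / m1) + (5 + (33 * CN / 8 + 1) * ba / P) * (t * (a + a) * (t * (a + a))) / s ^ 3 ≤ m)
    (A2 : (4 * (N / 2 + 2) / 3 + 2 + m1 / (36 * W / (49 * (G + 16)) * a)) * (16 * c) *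
      (3 + m2 / m1) + (N + 1) * (5 + (33 * CN / 8 + 1) * ba / P) / (t * (a + a)) ≤ m') :
    NoP m1 m2 (((a + a) * t + 16) * (m1 + 2 * (t + c)) / (a * W) + (N / 2 + 2))
      ((CN * ba / P + 1) * (N * (s * s) + (a + a) * t * ((a + a) * t)) / s ^ 3 +
        ((G + 16) * (m1 + 2 * (t + c)) / (a * W) + (N / 2 + 2)) *
          (2 * (t + c) * ((m2 + 2 * (t + c)) / m1 + 2))) ∧
    NoP m1 m2 ((G + 16) * (m1 + 2 * (t + c)) / (a * W) + (N / 2 + 2))
      ((CN * ba / P + 1) * (N + 1) / ((a + a) * t) +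
        ((G + 16) * (m1 + 2 * (t + c)) / (a * W) + (N / 2 + 2)) *
          (2 * (t + c) * ((m2 + 2 * (t + c)) / m1 + 2))) ∧ 1 ≤ m1 := by
  have k5 : 0 < 36 * W / (49 * (G + 16)) := Nat.div_pos (by omega) (by omega)
  have k5' := Nat.div_mul_le_self (36 * W) (49 * (G + 16))
  have w3 : 0 < 9216 * W / 25137 := by omega
  have w3' := Nat.div_mul_le_self (9216 * W) 25137
  clear hw hG
  generalize 36 * W / (49 * (G + 16)) = K5 at *
  generalize 9216 * W / 25137 = W3 at *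
  rw [mul_comm t (a + a)] at A1 A2
  have hq : 2 ≤ N / 2 + 2 := Nat.le_add_left _ _
  generalize N / 2 + 2 = q0 at *
  have c0 : 0 < c := by omega
  have he : 48 * (2 * (t + c)) ≤ m1 := by
    have h2 : 2 ≤ 4 * q0 / 3 + 2 + m1 / (K5 * a) :=
      (Nat.le_add_left _ _).trans (Nat.le_add_right _ _)
    generalize 4 * q0 / 3 + 2 + m1 / (K5 * a) = Q at *
    have l1 : m' * Q ≤ m1 := (Nat.mul_le_mul_right Q H2).trans (Nat.div_mul_le_self _ _)
    have l2 : 2 * (16 * c) * 3 ≤ Q * (16 * c) * (3 + m2 / m1) :=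
      Nat.mul_le_mul (Nat.mul_le_mul_right _ h2) (Nat.le_add_right _ _)
    have l3 : m' * 2 ≤ m' * Q := Nat.mul_le_mul_left _ h2
    have l4 := le_of_add_le_left A2
    omega
  have m0 : 0 < m1 := by omega
  have q2 := quo (h := G + 16) (D := a * W) (q0 := q0) he (Nat.mul_pos k5 a0) fun y hy => by
    calc 49 * (G + 16) * m1 < 49 * (G + 16) * (K5 * a * (y + 1)) :=
          Nat.mul_lt_mul_of_pos_left hy (by omega)
      _ = K5 * (49 * (G + 16)) * (a * (y + 1)) := by ring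
      _ ≤ 36 * W * (a * (y + 1)) := Nat.mul_le_mul_right _ k5'
      _ = _ := by ring
  have q1 : 4 * (((a + a) * t + 16) * (m1 + 2 * (t + c)) / (a * W) + q0) ≤
      3 * (4 * q0 / 3 + 2 + t * m1 / W3) := by
    have l1 := Nat.div_mul_le_self (((a + a) * t + 16) * (m1 + 2 * (t + c))) (a * W)
    have l2 := Nat.lt_mul_div_succ (t * m1) w3
    generalize ((a + a) * t + 16) * (m1 + 2 * (t + c)) / (a * W) = z at *
    generalize t * m1 / W3 = y at *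
    have l3 : 256 * ((a + a) * t + 16) ≤ 513 * (a * t) := by
      have : 1 * 4096 ≤ a * t := Nat.mul_le_mul a0 (hs.trans st)
      rw [add_mul]; omega
    have l4 : 256 * ((a + a) * t + 16) * (48 * (m1 + 2 * (t + c))) ≤ 513 * (a * t) * (49 * m1) :=
      Nat.mul_le_mul l3 (by omega)
    have l5 : a * (t * m1) < a * (W3 * (y + 1)) := Nat.mul_lt_mul_of_pos_left l2 a0
    have l6 : W3 * 25137 * (a * (y + 1)) ≤ 9216 * W * (a * (y + 1)) := Nat.mul_le_mul_right _ w3'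
    have : 4 * z * (a * W) < 3 * (y + 1) * (a * W) := by nlinarith
    have := Nat.lt_of_mul_lt_mul_right this
    omega
  have hE : 2 * (t + c) * ((m2 + 2 * (t + c)) / m1 + 2) ≤ 4 * c * (3 + m2 / m1) := by
    refine Nat.mul_le_mul (by omega) ?_
    have : (m2 + 2 * (t + c)) / m1 ≤ (m2 + m1) / m1 := Nat.div_le_div_right (by omega)
    rw [Nat.add_div_right _ m0] at this
    omega
  have hC : 33 * (CN * ba / P + 1) ≤ 8 * (5 + (33 * CN / 8 + 1) * ba / P) := by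
    rcases Nat.eq_zero_or_pos P with h0 | h0
    · subst h0; simp
    have l1 := Nat.div_mul_le_self (CN * ba) P
    have l2 := Nat.lt_mul_div_succ ((33 * CN / 8 + 1) * ba) h0
    have l3 : 33 * CN * ba ≤ 8 * (33 * CN / 8 + 1) * ba := Nat.mul_le_mul_right _ (by omega)
    generalize CN * ba / P = z at *
    generalize (33 * CN / 8 + 1) * ba / P = y at *
    generalize 33 * CN / 8 + 1 = CN4 at *
    have : 33 * z * P < 8 * (y + 1) * P := by nlinarith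
    have := Nat.lt_of_mul_lt_mul_right this
    omega
  have g1 := hle H1 q1 (Nat.add_pos_right _ (by omega))
  have g2 := hle H2 q2 (Nat.add_pos_right _ (by omega))
  generalize 2 * (t + c) * ((m2 + 2 * (t + c)) / m1 + 2) = E at *
  generalize ((a + a) * t + 16) * (m1 + 2 * (t + c)) / (a * W) + q0 = Q1 at *
  generalize (G + 16) * (m1 + 2 * (t + c)) / (a * W) + q0 = Q2 at *
  have h2 : 2 ≤ 4 * q0 / 3 + 2 + m1 / (K5 * a) :=
      (Nat.le_add_left _ _).trans (Nat.le_add_right _ _)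
  generalize 4 * q0 / 3 + 2 + m1 / (K5 * a) = Q at *
  generalize CN * ba / P + 1 = C at *
  generalize 5 + (33 * CN / 8 + 1) * ba / P = C4 at *
  have hU : 4 * (Q2 * E) < Q * (16 * c) * (3 + m2 / m1) := by
    have l1 : 4 * Q2 * E ≤ 3 * Q * (4 * c * (3 + m2 / m1)) := Nat.mul_le_mul q2 hE
    have l2 : 0 < Q * c * (3 + m2 / m1) := by positivity
    generalize 3 + m2 / m1 = k at *
    nlinarith
  have x0 : 8192 ≤ (a + a) * t := by nlinarith
  have x1 : s * s ≤ (a + a) * t := by nlinarith [Nat.mul_le_mul_left a hc]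
  generalize (a + a) * t = X at *
  have v1 := four_div (d := s ^ 3) (x := C * (N * (s * s) + X * X)) (y := C4 * (X * X)) (by
    have l1 : N * (s * s) ≤ 256 * X := Nat.mul_le_mul n2 x1
    have l2 : 8192 * X ≤ X * X := Nat.mul_le_mul_right _ x0
    have l3 : C * (32 * (N * (s * s) + X * X)) ≤ C * (33 * (X * X)) :=
      Nat.mul_le_mul_left _ (by omega)
    have l4 : 33 * C * (X * X) ≤ 8 * C4 * (X * X) := Nat.mul_le_mul_right _ hC
    nlinarith)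
  have v2 := four_div (d := X) (x := C * (N + 1)) (y := (N + 1) * C4) (by
    have l4 : 4 * C * (N + 1) ≤ C4 * (N + 1) := Nat.mul_le_mul_right _ (by omega)
    nlinarith)
  exact ⟨finB i1 o1 (by omega) g1, finB i2 o2 (by omega) g2, m0⟩

theorem nw_ok {N W G a r b R S d x y z : ℕ} {O : Nd} (hw : W = 2 ^ 136) (hG : G ≤ 2 ^ 100)
    (h : (nwB W (36 * W / (49 * (G + 16))) (9216 * W / 25137) (4 * (N / 2 + 2) / 3 + 2)
      (33 * (N ^ 4 * W / 64 + 1) / 8 + 1) (N + 1) stB.v O).v a r b (a + r) (b + r)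
      (a + r + (b + r)) R S = true)
    (n1 : 1 ≤ N) (n2 : N ≤ 256) (ab : a < b) (hr : r ^ 2 + N = a * b) (oR : RO N W r R)
    (oS : RO N W (a + r) S) (E : Ex N a b (a + r + (b + r)) d x y z) (hx : x ≤ G) :
    O a r b (a + r) (b + r) (a + r + (b + r)) R S = true := by
  rcases rec_true h with ⟨-, h⟩ | ⟨hs, h⟩
  · exact h
  rcases rec_true h with ⟨-, h⟩ | ⟨h, -⟩
  · exact h
  exfalso
  have hs : 4096 ≤ a + r := le_trans (by norm_num) (Nat.le_of_ble_eq_true hs)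
  have a0 := Gen.apos n1 hr
  have T : Tr N a b (a + r + (b + r)) r (a + r) (b + r) :=
    ⟨n1, n2, ab, by omega, hr, by nlinarith, by nlinarith⟩
  have hR : RV R (a * b * (W * W)) := hr ▸ oR.1
  have hS : RV S (a * (a + r + (b + r)) * (W * W)) := T.hs ▸ oS.1
  have hC := fun k : 1 ≤ nn1 (a * W) a b (a + r) (b + r) R S => cv_ok.2 N W a b r T
    (Nat.pos_of_ne_zero fun e => by
      rw [oR.2 e] at k
      exact absurd (k.trans (Nat.sub_le _ _)) (by simp))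
  have L := fun m1 m2 => lin det ub N W a b _ r _ _ d x y z R S _ _ T E hR hS m1 m2
    (hC m1).1 (hC m1).2
  have hss := T.hs
  have st : a + r ≤ b + r := by omega
  have hc : a + r + (b + r) ≤ 2 * (b + r) := by omega
  have tc : b + r ≤ a + r + (b + r) := by omega
  clear hC hR hS oR oS T E
  generalize a + r + (b + r) = c at *
  generalize a + r = s at *
  generalize b + r = t at *
  have e1 : Nat.sub (Nat.mul t R) (Nat.add (Nat.mul (Nat.mul W a) s)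
      (Nat.mul (Nat.sub b a) (Nat.add (nat_lit 2) S))) = nn1 (a * W) a b s t R S := by
    show t * R - (W * a * s + (b - a) * (2 + S)) = t * R - (s * (a * W) + (b - a) * (S + 2))
    congr 1; ring
  have e2 : Nat.sub (Nat.mul t S) (Nat.add (Nat.mul (Nat.mul W a) r)
      (Nat.mul (Nat.sub c a) (Nat.add (nat_lit 2) R))) = nn2 (a * W) a c r t R S := by
    show t * S - (W * a * r + (c - a) * (2 + R)) = t * S - (r * (a * W) + (c - a) * (R + 2))
    congr 1; ring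
  rw [e1, e2] at h
  generalize nn1 (a * W) a b s t R S = m1 at *
  generalize nn2 (a * W) a c r t R S = m2 at *
  obtain ⟨n, m, i1, o1, H1, k1⟩ :=
    gd3 (gd2 (gd1 (gd1 (gd2 (gd2 gd0))))) m1 (m2 % m1) (iv_start m1 m2) h
  obtain ⟨A1, n', m', i2, o2, H2, A2⟩ := st_ok i1 k1
  clear h k1 e1 e2
  obtain ⟨p1, p2, m0⟩ := ari (N := N) (G := G) (W := W) (a := a) (s := s) (t := t) (c := c)
    (ba := b - a) (P := (r * t) ^ 3) (CN := N ^ 4 * W / 64 + 1) hw hG n2 a0 hs st hc tc hss i1 o1 i2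
    o2 H1 H2 (by rw [mul_comm r t]; exact A1) (by rw [mul_comm r t]; exact A2)
  have K := L m0 (nop_pos p1 (Nat.le_add_left 1 _))
  rcases le_total x ((a + a) * t) with h1 | h1
  · exact nop_ne p1 K.u1 (K.qN _ h1) (K.tl s _ K.s1 K.sx (K.qN G hx)) le_rfl
  · exact nop_ne p2 K.u1 (K.qN G hx) (K.th _ _ K.x1 le_rfl h1 (K.qN G hx)) le_rfl

theorem it_add (one : Lp → Lp) (z : Lp) (r q : ℕ) : it1 one z (r + 8 * q) =
    @Nat.rec (fun _ => Lp) (it1 one z r)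
      (fun _ ih => one (one (one (one (one (one (one (one ih)))))))) q := by
  induction q with
  | zero => rfl
  | succ q ih => exact congrArg (fun ih => one (one (one (one (one (one (one (one ih)))))))) ih

theorem it8_eq (one : Lp → Lp) (z : Lp) (f : ℕ) : it8 one z f = it1 one z f :=
  (it_add one z (f % 8) (f / 8)).symm.trans (by rw [Nat.mod_add_div])

/-- the test of a triple in the faster program -/
noncomputable def ndF (fl : ℕ → ℕ → ℕ → Bool) (NW : Nd) : Nd := fun a r b s t c R S =>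
  @Bool.rec (fun _ => Bool) (NW a r b s t c R S) true (fl a b c)

theorem on_eq (Am c1 c2 c4 Wh : ℕ) (O : ℕ → ℕ) (fl : ℕ → ℕ → ℕ → Bool) (NW : Nd) :
    (onB c1 c2 c4 Wh O fl NW (tc Am (roF c1 c2 c4 Wh O))).v = fun ih a r b R B L k =>
      t2 Am (roF c1 c2 c4 Wh O) (ndF fl NW) ih a r b R B L k (Nat.add a r) (Nat.add b r)
        (Nat.add (Nat.add a r) (Nat.add b r)) (roF c1 c2 c4 Wh O (Nat.add a r)) := by
  funext ih a r b R B L k
  cases L <;> rfl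

theorem it_loop (Am : ℕ) (ro : ℕ → ℕ) (nd : Nd) (S' F : ℕ) :
    it1 (fun ih a r b R B L k => t2 Am ro nd ih a r b R B L k (Nat.add a r) (Nat.add b r)
      (Nat.add (Nat.add a r) (Nat.add b r)) (ro (Nat.add a r))) (bs S') F = loop Am ro nd S' F :=
  rfl

theorem ru_eq (N Am c1 c2 c4 Wh : ℕ) (O : ℕ → ℕ) (fl : ℕ → ℕ → ℕ → Bool) (NW : Nd) (T : TL) :
    ruF N (roF c1 c2 c4 Wh O) (onB c1 c2 c4 Wh O fl NW (tc Am (roF c1 c2 c4 Wh O))).v T =
      run N Am (roF c1 c2 c4 Wh O) (ndF fl NW) T := by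
  funext F S S'
  unfold ruF run
  rw [it8_eq, on_eq, it_loop]

theorem sF2_eq (N G Am : ℕ) (fl : ℕ → ℕ → ℕ → Bool) (I : ℕ → ℕ → ℕ → ℕ → Bool) (T : TL)
    (F S S' W Wh CN K5 W3 qq CN4 N1 c1 c2 c4 : ℕ) :
    sF2 N G Am fl I T F S S' W Wh CN K5 W3 qq CN4 N1 c1 c2 c4 =
      run N Am (roF c1 c2 c4 Wh (root N W))
        (ndF fl (nwB W K5 W3 qq CN4 N1 stB.v (nd2 N W CN G fl0 I)).v) T F S S' := by
  rw [← ru_eq]
  unfold sF2
  generalize ruF = f
  rfl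

end Fa

open Fa in
/-- `S_REG` for the faster program -/
theorem s_regF (N G Am B : ℕ) (st : List (ℕ × ℕ)) (fl : ℕ → ℕ → ℕ → Bool) (n1 : 1 ≤ N)
    (n2 : N ≤ 256) (hG : G ≤ 2 ^ 100) (ha : anti Am st B = true) (hf : FO N fl)
    (hc : Ch (stepF N G Am fl (EX.inL (EX.qf N)) (toT st)) (roots N) 0) : RegE N G st := by
  intro a b c d e r s t x y z hT hE hcc hu hx s1 s2 s3 s4
  have e1 : c = a + r + (b + r) := by omega
  subst e1
  by_contra hI
  obtain ⟨W, hw⟩ : ∃ W : ℕ, W = 2 ^ 136 := ⟨_, rfl⟩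
  obtain ⟨Wh, hW⟩ : ∃ W : ℕ, W = 2 ^ 135 := ⟨_, rfl⟩
  have e2 : stepF N G Am fl (EX.inL (EX.qf N)) (toT st) =
      run N Am (roF (2 * N) (2 * N ^ 2) (2 * N ^ 4) Wh (root N W))
        (ndF fl (nwB W (36 * W / (49 * (G + 16))) (9216 * W / 25137) (4 * (N / 2 + 2) / 3 + 2)
          (33 * (N ^ 4 * W / 64 + 1) / 8 + 1) (N + 1) stB.v
          (nd2 N W (N ^ 4 * W / 64 + 1) G fl0 (EX.inL (EX.qf N)))).v) (toT st) := by
    funext F S S'
    have p1 : Nat.pow (nat_lit 2) (nat_lit 136) = W := hw.symm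
    have p2 : Nat.pow (nat_lit 2) (nat_lit 135) = Wh := hW.symm
    unfold stepF
    rw [p1, p2]
    simp only [fc_eq]
    exact sF2_eq ..
  rw [e2] at hc
  refine tree_ok N Am _ _ (toT st) (Reg.Bd N G st (EX.inL (EX.qf N))) (RO N W) n1 n2
    (roF_ok n2 hW (by rw [hw, hW]; norm_num)) ?_ ?_ ?_ hc a r b hT.hr hT.ab
    ⟨hT.ab, d, e, x, y, z, hu, hE, hx, s1, s2, s3, s4, hI⟩
  · rintro a r b R S hn hr hR hS ⟨ab, d, e, x, y, z, -, hE, hx, s1, s2, s3, s4, hI⟩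
    rcases Gen.br hn with h | h
    · rw [hf a b _ d e ⟨x, hE.hx⟩ ⟨y, hE.hy⟩ ⟨z, hE.hz⟩ s1 s2 s3 s4] at h
      cases h
    · rcases nd2_ok n1 n2 a r b R S d x y z (nw_ok hw hG h n1 n2 ab hr hR hS hE hx)
        ab hr hR hS hE hx with h | h
      · cases h
      · exact hI h
  · rintro a r b ⟨-, d, e, x, y, z, ⟨u, hu, h4, -⟩, -⟩
    exact h4.trans (Reg.anti_ok Am st B ha u hu).1
  · rintro a0 a r b ⟨-, d, e, x, y, z, ⟨u, hu, h4, h5⟩, -⟩ h6
    exact h5.trans ((Reg.anti_ok Am st B ha u hu).2.2 a0 (h6.trans h4))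

end Pool.Agent.MP_2339ce_nt.Q2.RG
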