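import Pool.Agent.MP_2339ce_nt.Q2.RProg

/-! Block REG: a faster walk through the tree; the program. -/

set_option autoImplicit false

noncomputable section

namespace Pool.Agent.MP_2339ce_nt.Q2.RG

inductive S2 : Type
  | bot (S : ℕ) : S2
  | cons (a r b R B : ℕ) (L : TL) (k : S2) : S2

abbrev Lq := ℕ → ℕ → ℕ → ℕ → ℕ → TL → S2 → Bool

abbrev B3 := ℕ → ℕ → ℕ → Bool

def cm (k : S2) : ℕ → Bool :=
  @S2.rec (fun _ => ℕ → Bool) (fun S0 S => Nat.beq S0 S) (fun a r _ _ _ _ _ ih S =>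
    (@Bool.rec (fun _ => Bool) false (@Bool.rec (fun _ => Bool) false (ih (Nat.div S (nat_lit
      1099511627776))) (Nat.beq r (Nat.mod S (nat_lit 1048576)))) (Nat.beq a (Nat.mod (Nat.div S
      (nat_lit 1048576)) (nat_lit 1048576))))) k

def q2 (N : ℕ) (ro : ℕ → ℕ) (ih : Lq) (k : S2) (a r : ℕ) (L : TL) : Bool :=
  (ih a r (Nat.div (Nat.add (Nat.mul r r) N) a) (ro r) (hB L) L k)

def q1 (N : ℕ) (ro : ℕ → ℕ) (jp : ℕ → TL) (ih : Lq) (S : ℕ) : Bool :=
  (@Bool.rec (fun _ => Bool) (q2 N ro ih (S2.bot (Nat.div S (nat_lit 1099511627776))) (Nat.mod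
    (Nat.div S (nat_lit 1048576)) (nat_lit 1048576)) (Nat.mod S (nat_lit 1048576)) (jp (Nat.mod
    (Nat.div S (nat_lit 1048576)) (nat_lit 1048576)))) true (Nat.beq S (nat_lit 0)))

/-- take the next frame -/
def pq (N : ℕ) (ro : ℕ → ℕ) (jp : ℕ → TL) (ih : Lq) (k : S2) : Bool :=
  @S2.rec (fun _ => Bool) (fun S => q1 N ro jp ih S) (fun a r b R B L k' _ => ih a r b R B L k') k

/-- at most `f` triples with the same first element -/
def sp (ro : ℕ → ℕ) (nd : Nd) (a B : ℕ) (p : Bool) (ct : B3) (f : ℕ) : B3 :=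
  @Nat.rec (fun _ => B3) ct (fun _ ih r b R =>
    (@Bool.rec (fun _ => Bool) false (@Bool.rec (fun _ => Bool) p (ih (Nat.add a r) (Nat.add
      (Nat.add a r) (Nat.add b r)) (ro (Nat.add a r))) (Nat.ble (Nat.add (Nat.add a r) (Nat.add b
      r)) B)) (nd a r b (Nat.add a r) (Nat.add b r) (Nat.add (Nat.add a r) (Nat.add b r)) R (ro
      (Nat.add a r))))) f

def v3 (ro : ℕ → ℕ) (ih : Lq) (a b s t c S B : ℕ) (k : S2) (L : TL) : Bool :=
  @TL.rec (fun _ => Bool) (ih a s c S B TL.nil k) (fun _ B' _ _ =>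
    @Bool.rec (fun _ => Bool) (ih a s c S B TL.nil k)
      (ih b t c (ro t) B' L (S2.cons a s c S B L k)) (Nat.ble c B')) L

def v2 (Am : ℕ) (ro : ℕ → ℕ) (nd : Nd) (p : Bool) (ih : Lq) (a r b R B : ℕ) (L : TL) (k : S2)
    (s t c S : ℕ) : Bool :=
  (@Bool.rec (fun _ => Bool) false (@Bool.rec (fun _ => Bool) p (@Bool.rec (fun _ => Bool) (ih a s
    c S B TL.nil k) (v3 ro ih a b s t c S B k (dr b L)) (Nat.ble b Am)) (Nat.ble c B)) (nd a r b s
    t c R S))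

def v1 (ro : ℕ → ℕ) (nd : Nd) (p : Bool) (ih : Lq) (a r b R B : ℕ) (k : S2) : Bool :=
  sp ro nd a B p (fun r b R => ih a r b R B TL.nil k) (nat_lit 32) r b R

def lp (Am : ℕ) (ro : ℕ → ℕ) (nd : Nd) (pp : Lq → S2 → Bool) (S' f : ℕ) : Lq :=
  @Nat.rec (fun _ => Lq) (fun a r b R B L k => cm (S2.cons a r b R B L k) S')
    (fun _ ih a r b R B L k =>
      @TL.rec (fun _ => Bool) (v1 ro nd (pp ih k) ih a r b R B k) (fun _ _ _ _ =>
        (v2 Am ro nd (pp ih k) ih a r b R B L k (Nat.add a r) (Nat.add b r) (Nat.add (Nat.add a r)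
          (Nat.add b r)) (ro (Nat.add a r)))) L) f

/-- `F` steps from the stack `S`; the stack `S'` remains -/
def run2 (N Am : ℕ) (ro : ℕ → ℕ) (jp : ℕ → TL) (nd : Nd) (F S S' : ℕ) : Bool :=
  q1 N ro jp (lp Am ro nd (pq N ro jp) S' F) S

def ps2 (rd : B3) (N a S r : ℕ) : ℕ :=
  (@Bool.rec (fun _ => ℕ) S (@Bool.rec (fun _ => ℕ) (ps N a S r) S (rd a (Nat.div (Nat.add (Nat.mul
    r r) N) a) (Nat.add (Nat.add a r) (Nat.add (Nat.div (Nat.add (Nat.mul r r) N) a) r)))) (Nat.beq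
    (Nat.mod (Nat.add (Nat.mul r r) N) a) (nat_lit 0)))

/-- the stack of the reduced forms that are not rejected by `rd` -/
def roots2 (rd : B3) (N : ℕ) : ℕ :=
  @Nat.rec (fun _ => ℕ) (nat_lit 0)
    (fun a S => @Nat.rec (fun _ => ℕ) S (fun r S1 => ps2 rd N a S1 r) a) (Nat.add (Nat.div N
      (nat_lit 2)) (nat_lit 2))

/-- a filter before the test -/
def ndx (fl : B3) (nd : Nd) (a r b s t c R S : ℕ) : Bool := (@Bool.rec (fun _ => Bool) (nd a r b s
  t c R S) true (fl a b c))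

inductive TT : Type
  | nil : TT
  | cons (A : ℕ) (L : TL) (k : TT) : TT

/-- a table of starting points for `dr` -/
def jmp (T : TL) (J : TT) (a : ℕ) : TL :=
  dr a (@TT.rec (fun _ => TL) T (fun A L _ ih => @Bool.rec (fun _ => TL) ih L (Nat.ble A a)) J)

end Pool.Agent.MP_2339ce_nt.Q2.RG

end
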