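import Pool.Agent.MP_2339ce_nt.Q2.RFast
import Pool.Agent.MP_2339ce_nt.Q2.RLoop

/-! Block REG: the fast parts put together; the program. -/

set_option autoImplicit false

noncomputable section

namespace Pool.Agent.MP_2339ce_nt.Q2.RG

def sH2 (N G : ℕ) (I : ℕ → ℕ → ℕ → ℕ → Bool) (k : (ℕ → ℕ) → Nd → Bool)
    (W Wh CN K5 W3 qq CN4 N1 c1 c2 c4 : ℕ) : Bool :=
  @Bo.rec B5 (fun _ => Bool) (fun ST =>
    @Bo.rec Nd (fun _ => Bool) (fun NW => k (roF c1 c2 c4 Wh (root N W)) NW)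
      (nwB W K5 W3 qq CN4 N1 ST (nd2 N W CN G fl0 I))) stB

def sH1 (N G : ℕ) (I : ℕ → ℕ → ℕ → ℕ → Bool) (k : (ℕ → ℕ) → Nd → Bool) : Bool :=
  fc (Nat.pow (nat_lit 2) (nat_lit 136)) fun W =>
  fc (Nat.pow (nat_lit 2) (nat_lit 135)) fun Wh =>
  fc (Nat.succ (Nat.div (Nat.mul (Nat.pow N (nat_lit 4)) W) (nat_lit 64))) fun CN =>
  fc (Nat.div (Nat.mul (nat_lit 36) W) (Nat.mul (nat_lit 49) (Nat.add G (nat_lit 16)))) fun K5 =>
  fc (Nat.div (Nat.mul (nat_lit 9216) W) (nat_lit 25137)) fun W3 =>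
  fc (Nat.add (Nat.div (Nat.mul (nat_lit 4) (Nat.add (Nat.div N (nat_lit 2)) (nat_lit 2))) (nat_lit
    3)) (nat_lit 2)) fun qq =>
  fc (Nat.succ (Nat.div (Nat.mul (nat_lit 33) CN) (nat_lit 8))) fun CN4 =>
  fc (Nat.succ N) fun N1 =>
  fc (Nat.mul (nat_lit 2) N) fun c1 =>
  fc (Nat.mul (nat_lit 2) (Nat.pow N (nat_lit 2))) fun c2 =>
  fc (Nat.mul (nat_lit 2) (Nat.pow N (nat_lit 4))) fun c4 =>
  sH2 N G I k W Wh CN K5 W3 qq CN4 N1 c1 c2 c4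

/-- a step without a filter -/
def stepA (N G Am : ℕ) (I : ℕ → ℕ → ℕ → ℕ → Bool) (jp : ℕ → TL) (F S S' : ℕ) : Bool :=
  fc N fun N => fc G fun G => fc Am fun Am =>
  sH1 N G I fun ro nd => run2 N Am ro jp nd F S S'

/-- a step with the filter `fl` -/
def stepB (N G Am : ℕ) (fl : B3) (I : ℕ → ℕ → ℕ → ℕ → Bool) (jp : ℕ → TL) (F S S' : ℕ) : Bool :=
  fc N fun N => fc G fun G => fc Am fun Am =>
  sH1 N G I fun ro nd => run2 N Am ro jp (ndx fl nd) F S S'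

end Pool.Agent.MP_2339ce_nt.Q2.RG

end
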