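import Pool.Agent.MP_2339ce_nt.Q2.RLoop
import Pool.Agent.MP_2339ce_nt.Q2.RMedP

/-! Block REG: the faster walk is sound. -/

set_option autoImplicit false

namespace Pool.Agent.MP_2339ce_nt.Q2.RG

open TreeA W2

namespace Loop

variable (N : ℕ) (T : TL) (Bd : ℕ → ℕ → ℕ → Prop) (P : ℕ → ℕ → Prop)

def All2 : S2 → Prop
  | S2.bot S => TreeA.Inv N Bd S
  | S2.cons a r b R B L k => (Good N T Bd P a r b R B L → Sub Bd a r b) ∧ All2 k

def Hq (ih : Lq) : Prop := ∀ a r b R B L k, ih a r b R B L k = true →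
  All2 N T Bd P (S2.cons a r b R B L k)

def Hn (nd : Nd) : Prop := ∀ a r b R S, nd a r b (a + r) (b + r) (a + r + (b + r)) R S = true →
  r ^ 2 + N = a * b → P r R → P (a + r) S → ¬ Bd a r b

variable {N T Bd P}

theorem cm_ok (k : S2) : ∀ S, cm k S = true → TreeA.Inv N Bd S → All2 N T Bd P k := by
  induction k with
  | bot S0 =>
    intro S h hS
    rw [← Nat.eq_of_beq_eq_true h] at hS
    exact hS
  | cons a r b R B L k ih =>
    intro S h hS
    obtain ⟨h1, h2⟩ := bf h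
    obtain ⟨h3, h4⟩ := bf h2
    have e1 : a = S / 1048576 % 1048576 := Nat.eq_of_beq_eq_true h1
    have e2 : r = S % 1048576 := Nat.eq_of_beq_eq_true h3
    rw [inv_iff, ← e1, ← e2] at hS
    exact ⟨fun g => hS.1 b g.eq g.le, ih _ h4 hS.2⟩

theorem q1_ok {ro : ℕ → ℕ} {jp : ℕ → TL} {ih : Lq} (hN : 1 ≤ N) (hP : ∀ r, P r (ro r))
    (hT : ∀ a0 a r b, Bd a r b → a0 ≤ a → b ≤ hB (dr a0 T)) (hJ : ∀ a, jp a = dr a T)
    (H : Hq N T Bd P ih) {S : ℕ} (h : q1 N ro jp ih S = true) : TreeA.Inv N Bd S := by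
  rcases br h with ⟨-, h1⟩ | ⟨h1, -⟩
  swap
  · rw [Nat.eq_of_beq_eq_true h1]
    exact inv_zero hN
  have h2 : q2 N ro ih (S2.bot (S / 1099511627776)) (S / 1048576 % 1048576) (S % 1048576)
    (jp (S / 1048576 % 1048576)) = true := h1
  rw [hJ] at h2
  obtain ⟨h3, h4⟩ := H _ _ _ _ _ _ _ h2
  refine inv_iff.2 ⟨?_, h4⟩
  generalize S / 1048576 % 1048576 = a at h3 ⊢
  generalize S % 1048576 = r at h3 ⊢
  intro b hb hab
  have h5 : Nat.div (Nat.add (Nat.mul r r) N) a = b := by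
    change (r * r + N) / a = b
    rw [← sq, hb, Nat.mul_div_cancel_left _ (Gen.apos hN hb)]
  rw [h5] at h3
  exact h3 ⟨hb, hab, hP _, fun a' r' b' h5 h6 => Nat.lt_succ_of_le (hT _ _ _ _ h5 h6),
    .inr ⟨a, hab, rfl⟩⟩

theorem e1 {a r b : ℕ} (h : r ^ 2 + N = a * b) : (a + r) ^ 2 + N = a * (a + r + (b + r)) := by
  nlinarith

theorem e2 {a r b : ℕ} (h : r ^ 2 + N = a * b) : (b + r) ^ 2 + N = b * (a + r + (b + r)) := by
  nlinarith

theorem nilE (hN : 1 ≤ N) (hT : ∀ a0 a r b, Bd a r b → a0 ≤ a → b ≤ hB (dr a0 T))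
    {a0 a r b : ℕ} (h0 : a0 ≤ b) (h2 : dr a0 T = TL.nil) (g : r ^ 2 + N = a * b) :
    Emp Bd b (a + r + (b + r)) := fun a' r' b' hb hab => by
  have h3 : b' ≤ hB TL.nil := h2 ▸ hT a0 a' r' b' hb (h0.trans hab)
  have h4 : b' ≤ 0 := h3
  have h5 := Gen.apos hN (g.trans (Nat.mul_comm a b))
  omega

theorem right {a r b R S B : ℕ} {L : TL} {k : S2} (nb : Good N T Bd P a r b R B L → ¬ Bd a r b)
    (hS : P (a + r) S) (hE : Good N T Bd P a r b R B L → Emp Bd b (a + r + (b + r)))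
    (h : All2 N T Bd P (S2.cons a (a + r) (a + r + (b + r)) S B TL.nil k)) :
    All2 N T Bd P (S2.cons a r b R B L k) := by
  refine ⟨fun g => sub_of (nb g) (h.1 ⟨e1 g.eq, by omega, hS, g.bd, .inl ⟨rfl, ?_⟩⟩)
    (sub_emp (hE g) (by omega)), h.2⟩
  intro a' r' b' hb hab
  have := hE g a' r' b' hb (by omega)
  omega

theorem last {a r b R B : ℕ} {L : TL} {k : S2} (nb : Good N T Bd P a r b R B L → ¬ Bd a r b)
    (h2 : B < a + r + (b + r)) (h : All2 N T Bd P k) : All2 N T Bd P (S2.cons a r b R B L k) := by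
  refine ⟨fun g => ?_, h⟩
  have h3 : Emp Bd a (a + r + (b + r)) := fun a' r' b' hb hab => by
    have := g.bd a' r' b' hb hab
    omega
  exact sub_of (nb g) (sub_emp h3 (by omega))
    (sub_emp (fun a' r' b' hb hab => h3 a' r' b' hb (g.le.trans hab)) (by omega))

theorem sp_ok {ro : ℕ → ℕ} {nd : Nd} (hN : 1 ≤ N) (hP : ∀ r, P r (ro r)) (hn : Hn N Bd P nd)
    (hT : ∀ a0 a r b, Bd a r b → a0 ≤ a → b ≤ hB (dr a0 T)) {a B : ℕ} {p : Bool} {ct : B3} {k : S2}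
    (hp : p = true → All2 N T Bd P k)
    (hc : ∀ r b R, ct r b R = true → All2 N T Bd P (S2.cons a r b R B TL.nil k)) (f : ℕ) :
    ∀ r b R, sp ro nd a B p ct f r b R = true → All2 N T Bd P (S2.cons a r b R B TL.nil k) := by
  induction f with
  | zero => exact hc
  | succ f ih =>
    intro r b R h
    obtain ⟨h1, h2⟩ := bf h
    have nb : Good N T Bd P a r b R B TL.nil → ¬ Bd a r b := fun g =>
      hn _ _ _ _ _ h1 g.eq g.ro (hP _)
    rcases br h2 with ⟨h3, h4⟩ | ⟨-, h4⟩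
    · exact last nb (ble_f h3) (hp h4)
    · refine right nb (hP _) (fun g => ?_) (ih _ _ _ h4)
      rcases g.vl with h3 | ⟨a0, h3, h5⟩
      exacts [h3.2, nilE hN hT h3 h5.symm g.eq]

theorem v2_ok {Am : ℕ} {ro : ℕ → ℕ} {nd : Nd} (hN : 1 ≤ N) (hP : ∀ r, P r (ro r))
    (hn : Hn N Bd P nd) (hA : ∀ a r b, Bd a r b → a ≤ Am)
    (hT : ∀ a0 a r b, Bd a r b → a0 ≤ a → b ≤ hB (dr a0 T)) {ih : Lq} (H : Hq N T Bd P ih)
    {a r b R B A0 B0 : ℕ} {L0 : TL} {k : S2} {p : Bool} (hp : p = true → All2 N T Bd P k)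
    (h : v2 Am ro nd p ih a r b R B (TL.cons A0 B0 L0) k (a + r) (b + r) (a + r + (b + r))
      (ro (a + r)) = true) : All2 N T Bd P (S2.cons a r b R B (TL.cons A0 B0 L0) k) := by
  obtain ⟨h1, h2⟩ := bf h
  have nb : Good N T Bd P a r b R B (TL.cons A0 B0 L0) → ¬ Bd a r b := fun g =>
    hn _ _ _ _ _ h1 g.eq g.ro (hP _)
  rcases br h2 with ⟨h3, h4⟩ | ⟨-, h4⟩
  · exact last nb (ble_f h3) (hp h4)
  rcases br h4 with ⟨h3, h5⟩ | ⟨-, h5⟩
  · refine right nb (hP _) (fun _ a' r' b' hb hab => ?_) (H _ _ _ _ _ _ _ h5)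
    have := hA _ _ _ hb
    have := ble_f h3
    omega
  have dd : Good N T Bd P a r b R B (TL.cons A0 B0 L0) → dr b (TL.cons A0 B0 L0) = dr b T :=
    fun g => by
      rcases g.vl with h3 | ⟨a0, h3, h4⟩
      · exact absurd h3.1 TL.noConfusion
      · rw [h4, dr_dr h3]
  generalize dr b (TL.cons A0 B0 L0) = L' at h5 dd
  cases L' with
  | nil =>
    exact right nb (hP _) (fun g => nilE hN hT le_rfl (dd g).symm g.eq) (H _ _ _ _ _ _ _ h5)
  | cons A1 B1 L1 =>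
    have bd : Good N T Bd P a r b R B (TL.cons A0 B0 L0) → Emp Bd b (B1 + 1) :=
      fun g a' r' b' hb hab => Nat.lt_succ_of_le (by
        have := hT b a' r' b' hb hab
        rwa [← dd g] at this)
    rcases br h5 with ⟨h6, h7⟩ | ⟨-, h7⟩
    · refine right nb (hP _) (fun g a' r' b' hb hab => ?_) (H _ _ _ _ _ _ _ h7)
      have := bd g a' r' b' hb hab
      have := ble_f h6
      omega
    · obtain ⟨h5, h6, h7⟩ := H _ _ _ _ _ _ _ h7
      exact ⟨fun g => sub_of (nb g)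
        (h6 ⟨e1 g.eq, by omega, hP _, g.bd, .inr ⟨b, by omega, dd g⟩⟩)
        (h5 ⟨e2 g.eq, by omega, hP _, bd g, .inr ⟨b, by omega, dd g⟩⟩), h7⟩

theorem run_ok {Am : ℕ} {ro : ℕ → ℕ} {jp : ℕ → TL} {nd : Nd} (hN : 1 ≤ N) (hP : ∀ r, P r (ro r))
    (hn : Hn N Bd P nd) (hA : ∀ a r b, Bd a r b → a ≤ Am)
    (hT : ∀ a0 a r b, Bd a r b → a0 ≤ a → b ≤ hB (dr a0 T)) (hJ : ∀ a, jp a = dr a T) (F s s' : ℕ)
    (h : run2 N Am ro jp nd F s s' = true) (hs : TreeA.Inv N Bd s') : TreeA.Inv N Bd s := by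
  refine q1_ok hN hP hT hJ ?_ h
  clear h
  induction F with
  | zero => exact fun a r b R B L k h => cm_ok _ _ h hs
  | succ F ih =>
    intro a r b R B L k h
    have hp : pq N ro jp (lp Am ro nd (pq N ro jp) s' F) k = true → All2 N T Bd P k := fun h => by
      cases k with
      | bot S => exact q1_ok hN hP hT hJ ih h
      | cons a r b R B L k => exact ih _ _ _ _ _ _ _ h
    cases L with
    | nil => exact sp_ok hN hP hn hT hp (fun r b R h => ih _ _ _ _ _ _ _ h) (nat_lit 32) r b R h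
    | cons A0 B0 L0 => exact v2_ok hN hP hn hA hT ih hp h

theorem ps2_ok {rd : B3} (hN : 1 ≤ N)
    (hd : ∀ a r b, rd a b (a + r + (b + r)) = true → r ^ 2 + N = a * b → Sub Bd a r b)
    {a S r : ℕ} (ha : a < 130) (hr : r < 130) (h : TreeA.Inv N Bd (ps2 rd N a S r)) :
    TreeA.Inv N Bd S ∧ Dg N Bd a r := by
  change TreeA.Inv N Bd (@Bool.rec (fun _ => ℕ) S (@Bool.rec (fun _ => ℕ) (ps N a S r) S
    (rd a ((r * r + N) / a) (a + r + ((r * r + N) / a + r)))) (Nat.beq ((r * r + N) % a) 0)) at h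
  cases h1 : Nat.beq ((r * r + N) % a) 0 <;> rw [h1] at h
  · refine ⟨h, fun b hb _ => absurd ?_ (Nat.ne_of_beq_eq_false h1)⟩
    rw [← sq, hb, Nat.mul_mod_right]
  cases h2 : rd a ((r * r + N) / a) (a + r + ((r * r + N) / a + r)) <;> rw [h2] at h
  · exact ps_ok ha hr h
  · refine ⟨h, fun b hb _ => hd a r b ?_ hb⟩
    rwa [← sq, hb, Nat.mul_div_cancel_left _ (Gen.apos hN hb)] at h2

theorem roots_ok {rd : B3} (hN : 1 ≤ N) (hN' : N ≤ 256)
    (hd : ∀ a r b, rd a b (a + r + (b + r)) = true → r ^ 2 + N = a * b → Sub Bd a r b)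
    (h : TreeA.Inv N Bd (roots2 rd N)) (a r : ℕ) : Dg N Bd a r := by
  have inner : ∀ a S, a < 130 → ∀ n, n ≤ a →
      TreeA.Inv N Bd (@Nat.rec (fun _ => ℕ) S (fun r S1 => ps2 rd N a S1 r) n) →
        TreeA.Inv N Bd S ∧ ∀ r < n, Dg N Bd a r := fun a S ha n => by
    induction n with
    | zero => exact fun _ h => ⟨h, fun r hr => absurd hr (Nat.not_lt_zero r)⟩
    | succ n ih =>
      intro hn h
      obtain ⟨h1, h2⟩ := ps2_ok (r := n) hN hd ha (by omega) h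
      obtain ⟨h3, h4⟩ := ih (by omega) h1
      refine ⟨h3, fun r hr => ?_⟩
      rcases Nat.lt_succ_iff_lt_or_eq.1 hr with h5 | rfl
      exacts [h4 r h5, h2]
  have outer : ∀ m, m ≤ 130 → TreeA.Inv N Bd (@Nat.rec (fun _ => ℕ) (nat_lit 0)
      (fun a S => @Nat.rec (fun _ => ℕ) S (fun r S1 => ps2 rd N a S1 r) a) m) →
        ∀ a < m, ∀ r < a, Dg N Bd a r := fun m => by
    induction m with
    | zero => exact fun _ _ a ha => absurd ha (Nat.not_lt_zero a)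
    | succ m ih =>
      intro hm h a ha
      obtain ⟨h1, h2⟩ := inner m _ (by omega) m le_rfl h
      rcases Nat.lt_succ_iff_lt_or_eq.1 ha with h5 | rfl
      exacts [ih (by omega) h1 a h5, h2]
  refine desc hN hN' (fun a _ r hr b hb hab => ?_) r a
  refine outer (N / 2 + 2) (by omega) h a ?_ r hr b hb hab
  obtain ⟨c, rfl⟩ := Nat.exists_eq_add_of_lt hr
  have : 2 * (r + c) + 1 ≤ N := by nlinarith
  omega

end Loop

/-- the starting points are right -/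
def JOk (T : TL) : TT → Prop
  | TT.nil => True
  | TT.cons A L k => dr A T = L ∧ JOk T k

theorem jmp_ok {T : TL} {J : TT} (h : JOk T J) (a : ℕ) : jmp T J a = dr a T := by
  induction J with
  | nil => rfl
  | cons A L k ih =>
    change dr a (@Bool.rec (fun _ => TL) _ L (Nat.ble A a)) = _
    cases h1 : Nat.ble A a
    · exact ih h.2
    · rw [← h.1]
      exact dr_dr (ble_t h1) T

/-- the filter is closed under the two maps of the tree -/
def Cl (f : B3) : Prop := ∀ a b c x, f a b c = true →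
  (x + b = 2 * a + 2 * c → f a c x = true) ∧ (x + a = 2 * b + 2 * c → f b c x = true)

theorem cl0 : Cl fl0 := fun _ _ _ _ h => absurd h Bool.false_ne_true

theorem ndx_ok {N W G : ℕ} {fl : B3} {I : ℕ → ℕ → ℕ → ℕ → Bool} {nd : Nd}
    (h : NdOk N W G fl0 I nd) : NdOk N W G fl I (ndx fl nd) := by
  intro a r b R S d x y z h1 ab hr oR oS E hx
  refine (Gen.br h1).imp_right fun u => ?_
  exact (h a r b R S d x y z u ab hr oR oS E hx).resolve_left Bool.false_ne_true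

theorem regH {N W G Am B : ℕ} {st : List (ℕ × ℕ)} {fl rd : B3} {nd : Nd} {ro : ℕ → ℕ}
    {jp : ℕ → TL} (n1 : 1 ≤ N) (n2 : N ≤ 256) (ha : anti Am st B = true) (hf : FO N fl)
    (hr : FO N rd) (hc : Cl rd) (hJ : ∀ a, jp a = dr a (toT st)) (ho : ∀ r, RO N W r (ro r))
    (h2 : NdOk N W G fl (EX.inL (EX.qf N)) nd)
    (h : Ch (run2 N Am ro jp nd) (roots2 rd N) 0) : RegE N G st := by
  intro a b c d e r s t x y z hT hE hcc hu hx s1 s2 s3 s4
  obtain rfl : c = a + r + (b + r) := by omega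
  by_contra hI
  have k : TreeA.Inv N (Reg.Bd N G st (EX.inL (EX.qf N))) (roots2 rd N) := by
    refine h _ (Loop.run_ok (T := toT st) (P := RO N W) n1 ho ?_ ?_ ?_ hJ) (inv_zero n1)
    · rintro a r b R S hn hr hR hS ⟨ab, d, e, x, y, z, -, hE, hx, s1, s2, s3, s4, hI⟩
      rcases h2 a r b R S d x y z hn ab hr hR hS hE hx with h | h
      · rw [hf a b _ d e ⟨x, hE.hx⟩ ⟨y, hE.hy⟩ ⟨z, hE.hz⟩ s1 s2 s3 s4] at h
        cases h
      · exact hI h
    · rintro a r b ⟨-, d, e, x, y, z, ⟨u, hu, h4, -⟩, -⟩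
      exact h4.trans (Reg.anti_ok Am st B ha u hu).1
    · rintro a0 a r b ⟨-, d, e, x, y, z, ⟨u, hu, h4, h5⟩, -⟩ h6
      exact h5.trans ((Reg.anti_ok Am st B ha u hu).2.2 a0 (h6.trans h4))
  refine Loop.roots_ok n1 n2 (fun a r b h1 _ q hq => ?_) k a r b hT.hr hT.ab.le _ .refl
    ⟨hT.ab, d, e, x, y, z, hu, hE, hx, s1, s2, s3, s4, hI⟩
  have k2 : rd q.1 q.2.2 (q.1 + q.2.1 + (q.2.2 + q.2.1)) = true := by
    induction hq with
    | refl => exact h1
    | tail _ h3 ih =>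
      rcases h3 with rfl | rfl
      · exact (hc _ _ _ _ ih).1 (by dsimp only; omega)
      · exact (hc _ _ _ _ ih).2 (by dsimp only; omega)
  rintro ⟨-, d, e, x, y, z, -, hE, -, s1, s2, s3, s4, -⟩
  rw [hr _ _ _ d e ⟨x, hE.hx⟩ ⟨y, hE.hy⟩ ⟨z, hE.hz⟩ s1 s2 s3 s4] at k2
  cases k2

theorem ro_root (N W r : ℕ) : RO N W r (root N W r) :=
  ⟨(root_ok N W r).1, fun h => by rw [h]; exact (root_ok N W 0).2.2⟩

end Pool.Agent.MP_2339ce_nt.Q2.RG
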