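import Pool.Agent.MP_2339ce_nt.Q2.RH
import Pool.Agent.MP_2339ce_nt.Q2.RFastP
import Pool.Agent.MP_2339ce_nt.Q2.RLoopP

/-! Block REG: soundness of the assembled program. -/

set_option autoImplicit false

namespace Pool.Agent.MP_2339ce_nt.Q2.RG

open Fa

theorem sH2_eq (N G : ℕ) (I : ℕ → ℕ → ℕ → ℕ → Bool) (k : (ℕ → ℕ) → Nd → Bool)
    (W Wh CN K5 W3 qq CN4 N1 c1 c2 c4 : ℕ) : sH2 N G I k W Wh CN K5 W3 qq CN4 N1 c1 c2 c4 =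
      k (roF c1 c2 c4 Wh (root N W)) (nwB W K5 W3 qq CN4 N1 stB.v (nd2 N W CN G fl0 I)).v := by
  unfold sH2
  rfl

theorem sH1_ok {N G : ℕ} (I : ℕ → ℕ → ℕ → ℕ → Bool) (n1 : 1 ≤ N) (n2 : N ≤ 256)
    (hG : G ≤ 2 ^ 100) : ∃ (W : ℕ) (ro : ℕ → ℕ) (nd : Nd), (∀ r, RO N W r (ro r)) ∧
      NdOk N W G fl0 I nd ∧ ∀ k, sH1 N G I k = k ro nd := by
  obtain ⟨W, hw⟩ : ∃ W : ℕ, W = 2 ^ 136 := ⟨_, rfl⟩
  obtain ⟨Wh, hW⟩ : ∃ W : ℕ, W = 2 ^ 135 := ⟨_, rfl⟩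
  refine ⟨W, roF (2 * N) (2 * N ^ 2) (2 * N ^ 4) Wh (root N W),
    (nwB W (36 * W / (49 * (G + 16))) (9216 * W / 25137) (4 * (N / 2 + 2) / 3 + 2)
      (33 * (N ^ 4 * W / 64 + 1) / 8 + 1) (N + 1) stB.v
      (nd2 N W (N ^ 4 * W / 64 + 1) G fl0 I)).v,
    roF_ok n2 hW (by rw [hw, hW]; norm_num), ?_, fun k => ?_⟩
  · intro a r b R S d x y z h ab hr oR oS E hx
    exact nd2_ok (W := W) n1 n2 a r b R S d x y z (nw_ok hw hG h n1 n2 ab hr oR oS E hx) ab hr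
      oR oS E hx
  · have p1 : Nat.pow (nat_lit 2) (nat_lit 136) = W := hw.symm
    have p2 : Nat.pow (nat_lit 2) (nat_lit 135) = Wh := hW.symm
    unfold sH1
    rw [p1, p2]
    simp only [fc_eq]
    exact sH2_eq ..

variable {N G Am B : ℕ} {st : List (ℕ × ℕ)} {fl rd : B3} {jp : ℕ → TL}

theorem regA (n1 : 1 ≤ N) (n2 : N ≤ 256) (hG : G ≤ 2 ^ 100) (ha : anti Am st B = true)
    (hr : FO N rd) (hc : Cl rd) (hJ : ∀ a, jp a = dr a (toT st))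
    (h : Ch (stepA N G Am (EX.inL (EX.qf N)) jp) (roots2 rd N) 0) : RegE N G st := by
  obtain ⟨W, ro, nd, h1, h2, h3⟩ := sH1_ok (EX.inL (EX.qf N)) n1 n2 hG
  have e : stepA N G Am (EX.inL (EX.qf N)) jp = run2 N Am ro jp nd := by
    funext F S S'
    unfold stepA
    simp only [fc_eq, h3]
  exact regH n1 n2 ha (fun _ _ _ _ _ _ _ _ _ _ _ _ => rfl) hr hc hJ h1 h2 (e ▸ h)

theorem regB (n1 : 1 ≤ N) (n2 : N ≤ 256) (hG : G ≤ 2 ^ 100) (ha : anti Am st B = true)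
    (hf : FO N fl) (hr : FO N rd) (hc : Cl rd) (hJ : ∀ a, jp a = dr a (toT st))
    (h : Ch (stepB N G Am fl (EX.inL (EX.qf N)) jp) (roots2 rd N) 0) : RegE N G st := by
  obtain ⟨W, ro, nd, h1, h2, h3⟩ := sH1_ok (EX.inL (EX.qf N)) n1 n2 hG
  have e : stepB N G Am fl (EX.inL (EX.qf N)) jp = run2 N Am ro jp (ndx fl nd) := by
    funext F S S'
    unfold stepB
    simp only [fc_eq, h3]
  exact regH n1 n2 ha hf hr hc hJ h1 (ndx_ok h2) (e ▸ h)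

end Pool.Agent.MP_2339ce_nt.Q2.RG
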