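/-! Project Q2, block RT: classes of `N` with a staircase for the regular triples. -/

set_option autoImplicit false

namespace Pool.Agent.MP_2339ce_nt.Q2

/-- for `N1 ≤ N ≤ N2`: a staircase for `(a, b)` and a bound for `x` -/
structure Cs where
  N1 : Nat
  N2 : Nat
  G : Nat
  st : List (Nat × Nat)

end Pool.Agent.MP_2339ce_nt.Q2
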