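import Pool.Agent.MP_2339ce_nt.Q2.RKP
import Pool.Agent.MP_2339ce_nt.Q2.RFlt2
import Pool.Agent.MP_2339ce_nt.Q2.RS0

/-! Block REG: from a chain of steps to the statement for one `N`. -/

set_option autoImplicit false

namespace Pool.Agent.MP_2339ce_nt.Q2.RG

def teq : TL → TL → Bool
  | .nil, .nil => true
  | .cons A B k, .cons A' B' k' => Nat.beq A A' && Nat.beq B B' && teq k k'
  | _, _ => false

theorem teq_eq : ∀ T T' : TL, teq T T' = true → T = T'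
  | .nil, .nil, _ => rfl
  | .cons A B k, .cons A' B' k', h => by
    simp only [teq, Bool.and_eq_true, Nat.beq_eq] at h
    rw [h.1.1, h.1.2, teq_eq k k' h.2]
  | .nil, .cons .., h => absurd h Bool.false_ne_true
  | .cons .., .nil, h => absurd h Bool.false_ne_true

noncomputable def jck (T : TL) : TT → Bool
  | .nil => true
  | .cons A L k => teq (dr A T) L && jck T k

theorem jck_ok (T : TL) : ∀ J, jck T J = true → JOk T J
  | .nil, _ => trivial
  | .cons A L k, h => by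
    simp only [jck, Bool.and_eq_true] at h
    exact ⟨teq_eq _ _ h.1, jck_ok T k h.2⟩

def ofT : TL → List (ℕ × ℕ)
  | .nil => []
  | .cons A B k => (A, B) :: ofT k

theorem toT_ofT : ∀ T, toT (ofT T) = T
  | .nil => rfl
  | .cons A B k => congrArg (TL.cons A B) (toT_ofT k)

/-- the data of a class are dominated by a table -/
noncomputable def tck (c : Cs) (G Am : ℕ) (T : TL) (J : TT) : Bool :=
  decide (c.G ≤ G) && decide (G ≤ 2 ^ 100) && anti Am (ofT T) (2 ^ 60) && jck T J &&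
    c.st.all fun u => (ofT T).any fun v => Nat.ble u.1 v.1 && Nat.ble u.2 v.2

/-- the statement for one `N` -/
def Out (L : List Cs) (N : ℕ) : Prop := ∃ c ∈ L, c.N1 ≤ N ∧ N ≤ c.N2 ∧ RegE N c.G c.st

variable {L : List Cs} {c : Cs} {N G Am m M m' M' : ℕ} {T : TL} {J : TT} {rd : B3}

theorem outG (hc : c ∈ L) (h : tck c G Am T J = true)
    (hN : (Nat.ble c.N1 N && Nat.ble N c.N2 && Nat.ble 1 N && Nat.ble N 256) = true)
    (k : 1 ≤ N → N ≤ 256 → G ≤ 2 ^ 100 → anti Am (ofT T) (2 ^ 60) = true →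
      (∀ a, jmp T J a = dr a (toT (ofT T))) → RegE N G (ofT T)) : Out L N := by
  simp only [tck, Bool.and_eq_true, decide_eq_true_eq, List.all_eq_true, List.any_eq_true,
    Nat.ble_eq] at h hN
  obtain ⟨⟨⟨⟨h1, h2⟩, h3⟩, h4⟩, h5⟩ := h
  refine ⟨c, hc, hN.1.1.1, hN.1.1.2, fun a b c d e r s t x y z hT hE hcc ⟨u, hu, u1, u2⟩ hx => ?_⟩
  obtain ⟨v, hv, v1, v2⟩ := h5 u hu
  exact k hN.1.2 hN.2 h2 h3 (fun a => by rw [toT_ofT]; exact jmp_ok (jck_ok T J h4) a)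
    a b c d e r s t x y z hT hE hcc ⟨v, hv, u1.trans v1, u2.trans v2⟩ (hx.trans h1)

/-- a filter for the roots -/
def Rd (N : ℕ) (rd : B3) : Prop := FO N rd ∧ Cl rd

theorem foA (N : ℕ) : FO N (flt 32 (mk32 N)) := fun a b c d e h1 h2 h3 h4 h5 h6 h7 => by
  have h := fo N a b c d e h1 h2 h3 h4 h5 h6 h7
  unfold fl2 at h
  cases k : flt 32 (mk32 N) a b c
  · rfl
  · rw [k] at h; exact h

theorem foB (N : ℕ) : FO N (flt 9 (mk9 N)) := fun a b c d e h1 h2 h3 h4 h5 h6 h7 => by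
  have h := fo N a b c d e h1 h2 h3 h4 h5 h6 h7
  unfold fl2 at h
  cases k : flt 32 (mk32 N) a b c
  · rw [k] at h; exact h
  · rw [k] at h; exact Bool.noConfusion h

theorem rdA (N : ℕ) : Rd N fl0 := ⟨fun _ _ _ _ _ _ _ _ _ _ _ _ => rfl, cl0⟩

theorem rdB (N : ℕ) (h : N % 8 = 3 ∨ N % 16 = 4 ∨ N % 16 = 8) : Rd N (flt 32 (mk32 N)) :=
  ⟨foA N, rd32 N h⟩

theorem rdC (N : ℕ) (h : N % 32 = 12) : Rd N (flt 32 om12) := ⟨fo12 N h, rd12⟩

theorem out0 (hc : c ∈ L) (h : tck c G Am T J = true)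
    (hN : (Nat.ble c.N1 N && Nat.ble N c.N2 && Nat.ble 1 N && Nat.ble N 256) = true) (hr : Rd N rd)
    (k : Ch (step0 N G Am (EX.inL (EX.qf N)) (jmp T J)) (roots2 rd N) 0) : Out L N :=
  outG hc h hN fun n1 n2 hG ha hJ => regA n1 n2 hG ha hr.1 hr.2 hJ (step0_eq .. ▸ k)

theorem out1 (hc : c ∈ L) (h : tck c G Am T J = true)
    (hN : (Nat.ble c.N1 N && Nat.ble N c.N2 && Nat.ble 1 N && Nat.ble N 256) = true) (hr : Rd N rd)
    (hf : FO N (flt m M))
    (k : Ch (step1 N G Am m M (EX.inL (EX.qf N)) (jmp T J)) (roots2 rd N) 0) : Out L N :=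
  outG hc h hN fun n1 n2 hG ha hJ => regB n1 n2 hG ha hf hr.1 hr.2 hJ (step1_eq .. ▸ k)

theorem out3 (hc : c ∈ L) (h : tck c G Am T J = true)
    (hN : (Nat.ble c.N1 N && Nat.ble N c.N2 && Nat.ble 1 N && Nat.ble N 256) = true) (hr : Rd N rd)
    (hf : FO N (flt m M)) (hf' : FO N (flt m' M'))
    (k : Ch (step3 N G Am m M m' M' (EX.inL (EX.qf N)) (jmp T J)) (roots2 rd N) 0) : Out L N :=
  outG hc h hN fun n1 n2 hG ha hJ => regB n1 n2 hG ha (fo2 hf hf') hr.1 hr.2 hJ (step3_eq .. ▸ k)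

end Pool.Agent.MP_2339ce_nt.Q2.RG
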