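import Pool.Agent.MP_2339ce_nt.Q2.RH

/-! Block REG: the walk along a first element, fused with the tests; the program. -/

set_option autoImplicit false

noncomputable section

namespace Pool.Agent.MP_2339ce_nt.Q2.RG

abbrev On := ℕ → ℕ → Bool → B3 → B3

def on0 (c1 c2 c4 Wh W K5 W3 qq CN4 N1 : ℕ) (O' : ℕ → ℕ) (ST : B5) (O : Nd) :
    Bo On := ⟨fun a B p ih r b R => by
  refine (?_ : ℕ → Bool) (Nat.add a r); intro s
  refine (?_ : ℕ → Bool) (Nat.add b r); intro t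
  refine (?_ : ℕ → Bool) (Nat.add s t); intro c
  refine (?_ : ℕ → Bool) (by
    refine @Bool.rec (fun _ => ℕ) (O' s) ?_ (Nat.ble (nat_lit 5408) s)
    refine (?_ : ℕ → ℕ) (Nat.add s s); intro d
    refine (?_ : ℕ → ℕ) (Nat.add c1 (Nat.mul d d)); intro u1
    refine (?_ : ℕ → ℕ) (Nat.sub (Nat.mul u1 u1) c2); intro u2
    exact Nat.sub (Nat.div (Nat.mul Wh (Nat.sub (Nat.mul u2 u2) c4)) (Nat.mul (Nat.mul d u1) u2))
      (nat_lit 1)); intro S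
  refine @Bool.rec (fun _ => Bool) false
    (@Bool.rec (fun _ => Bool) p (ih s c S) (Nat.ble c B)) ?_
  refine (?_ : Bool → Bool) (O a r b s t c R S); intro o
  refine @Bool.rec (fun _ => Bool) o (@Bool.rec (fun _ => Bool) o true ?_)
    (Nat.ble (nat_lit 5408) s)
  refine (?_ : ℕ → Bool) (Nat.mul W a); intro aW
  refine (?_ : ℕ → Bool) (Nat.sub b a); intro ba
  refine (?_ : ℕ → Bool) (Nat.sub (Nat.mul t R) (Nat.add (Nat.mul aW s)
    (Nat.mul ba (Nat.add (nat_lit 2) S)))); intro n1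
  refine (?_ : ℕ → Bool) (Nat.sub (Nat.mul t S) (Nat.add (Nat.mul aW r)
    (Nat.mul (Nat.sub c a) (Nat.add (nat_lit 2) R)))); intro n2
  refine (?_ : ℕ → Bool) (Nat.add qq (Nat.div n1 (Nat.mul K5 a))); intro Q
  refine (?_ : ℕ → Bool) (Nat.mul (Nat.mul Q (Nat.mul (nat_lit 16) c))
    (Nat.add (nat_lit 3) (Nat.div n2 n1))); intro U
  refine (?_ : ℕ → Bool) (Nat.mul t (Nat.add a a)); intro X
  refine (?_ : ℕ → Bool) (Nat.add (nat_lit 5) (Nat.div (Nat.mul CN4 ba)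
    (Nat.pow (Nat.mul t r) (nat_lit 3)))); intro C
  refine (?_ : ℕ → Bool) (Nat.div n1 (Nat.add qq (Nat.div (Nat.mul t n1) W3))); intro H
  refine (?_ : B2 → Bool) (ST
    (Nat.add U (Nat.div (Nat.mul C (Nat.mul X X)) (Nat.pow s (nat_lit 3))))
    (Nat.add U (Nat.div (Nat.mul N1 C) X)) (Nat.div n1 Q)); intro K
  refine (?_ : ℕ → Bool) (Nat.mod n2 n1); intro m0
  refine (?_ : ℕ → Bool) (Nat.mod n1 m0); intro m1
  refine (?_ : ℕ → Bool) (Nat.mod m0 m1); intro m2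
  refine (?_ : ℕ → Bool) (Nat.mod m1 m2); intro m3
  refine @Bool.rec (fun _ => Bool) ?_ (K m2 m3) (Nat.ble m3 H)
  refine (?_ : ℕ → Bool) (Nat.mod m2 m3); intro m4
  refine (?_ : ℕ → Bool) (Nat.mod m3 m4); intro m5
  exact @Bool.rec (fun _ => Bool) (tl H K m4 m5) (K m4 m5) (Nat.ble m5 H)⟩

def on1 (m M mm P : ℕ) (c1 c2 c4 Wh : ℕ) (O' : ℕ → ℕ) (O : Nd) :
    Bo On := ⟨fun a B p ih r b R => by
  refine (?_ : ℕ → Bool) (Nat.add a r); intro s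
  refine (?_ : ℕ → Bool) (Nat.add b r); intro t
  refine (?_ : ℕ → Bool) (Nat.add s t); intro c
  refine (?_ : ℕ → Bool) (by
    refine @Bool.rec (fun _ => ℕ) (O' s) ?_ (Nat.ble (nat_lit 5408) s)
    refine (?_ : ℕ → ℕ) (Nat.add s s); intro d
    refine (?_ : ℕ → ℕ) (Nat.add c1 (Nat.mul d d)); intro u1
    refine (?_ : ℕ → ℕ) (Nat.sub (Nat.mul u1 u1) c2); intro u2
    exact Nat.sub (Nat.div (Nat.mul Wh (Nat.sub (Nat.mul u2 u2) c4)) (Nat.mul (Nat.mul d u1) u2))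
      (nat_lit 1)); intro S
  refine @Bool.rec (fun _ => Bool) false
    (@Bool.rec (fun _ => Bool) p (ih s c S) (Nat.ble c B)) ?_
  refine @Bool.rec (fun _ => Bool) ?_ true
    (Nat.beq (Nat.mod (Nat.shiftRight (Nat.mod (Nat.shiftRight M (Nat.mul (Nat.mod a m) mm)) P)
      (Nat.add (Nat.mul (Nat.mod b m) m) (Nat.mod c m))) (nat_lit 2)) (nat_lit 1))
  exact O a r b s t c R S⟩

def on2 (m M mm P m' M' mm' P' : ℕ) (c1 c2 c4 Wh : ℕ) (O' : ℕ → ℕ) (O : Nd) :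
    Bo On := ⟨fun a B p ih r b R => by
  refine (?_ : ℕ → Bool) (Nat.add a r); intro s
  refine (?_ : ℕ → Bool) (Nat.add b r); intro t
  refine (?_ : ℕ → Bool) (Nat.add s t); intro c
  refine (?_ : ℕ → Bool) (by
    refine @Bool.rec (fun _ => ℕ) (O' s) ?_ (Nat.ble (nat_lit 5408) s)
    refine (?_ : ℕ → ℕ) (Nat.add s s); intro d
    refine (?_ : ℕ → ℕ) (Nat.add c1 (Nat.mul d d)); intro u1
    refine (?_ : ℕ → ℕ) (Nat.sub (Nat.mul u1 u1) c2); intro u2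
    exact Nat.sub (Nat.div (Nat.mul Wh (Nat.sub (Nat.mul u2 u2) c4)) (Nat.mul (Nat.mul d u1) u2))
      (nat_lit 1)); intro S
  refine @Bool.rec (fun _ => Bool) false
    (@Bool.rec (fun _ => Bool) p (ih s c S) (Nat.ble c B)) ?_
  refine @Bool.rec (fun _ => Bool) ?_ true (@Bool.rec (fun _ => Bool)
    (Nat.beq (Nat.mod (Nat.shiftRight (Nat.mod (Nat.shiftRight M' (Nat.mul (Nat.mod a m') mm')) P')
      (Nat.add (Nat.mul (Nat.mod b m') m') (Nat.mod c m'))) (nat_lit 2)) (nat_lit 1)) true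
    (Nat.beq (Nat.mod (Nat.shiftRight (Nat.mod (Nat.shiftRight M (Nat.mul (Nat.mod a m) mm)) P)
      (Nat.add (Nat.mul (Nat.mod b m) m) (Nat.mod c m))) (nat_lit 2)) (nat_lit 1)))
  exact O a r b s t c R S⟩

def lq (Am : ℕ) (ro : ℕ → ℕ) (nd : Nd) (on : On) (pp : Lq → S2 → Bool) (S' f : ℕ) : Lq :=
  @Nat.rec (fun _ => Lq) (fun a r b R B L k => cm (S2.cons a r b R B L k) S')
    (fun _ ih a r b R B L k =>
      @TL.rec (fun _ => Bool)
        (@Nat.rec (fun _ => B3) (fun r b R => ih a r b R B TL.nil k) (fun _ ih' =>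
          (fun o : B3 → B3 => o (o (o (o (o (o (o (o ih')))))))) (on a B (pp ih k)))
          (nat_lit 4) r b R)
        (fun _ _ _ _ => v2 Am ro nd (pp ih k) ih a r b R B L k (Nat.add a r) (Nat.add b r)
          (Nat.add (Nat.add a r) (Nat.add b r)) (ro (Nat.add a r))) L) f

def run3 (N Am : ℕ) (ro : ℕ → ℕ) (jp : ℕ → TL) (nd : Nd) (on : On) (F S S' : ℕ) : Bool :=
  q1 N ro jp (lq Am ro nd on (pq N ro jp) S' F) S

abbrev Kk := ℕ → ℕ → ℕ → ℕ → ℕ → ℕ → ℕ → ℕ → ℕ → ℕ → (ℕ → ℕ) → B5 → Nd → (ℕ → ℕ) → Nd → Bool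

def sK2 (N G : ℕ) (I : ℕ → ℕ → ℕ → ℕ → Bool) (k : Kk) (W Wh CN K5 W3 qq CN4 N1 c1 c2 c4 : ℕ) :
    Bool :=
  @Bo.rec B5 (fun _ => Bool) (fun ST =>
    @Bo.rec Nd (fun _ => Bool) (fun NW => k c1 c2 c4 Wh W K5 W3 qq CN4 N1 (root N W) ST
      (nd2 N W CN G fl0 I) (roF c1 c2 c4 Wh (root N W)) NW)
      (nwB W K5 W3 qq CN4 N1 ST (nd2 N W CN G fl0 I))) stB

def sK1 (N G : ℕ) (I : ℕ → ℕ → ℕ → ℕ → Bool) (k : Kk) : Bool :=
  fc (Nat.pow (nat_lit 2) (nat_lit 136)) fun W =>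
  fc (Nat.pow (nat_lit 2) (nat_lit 135)) fun Wh =>
  fc (Nat.succ (Nat.div (Nat.mul (Nat.pow N (nat_lit 4)) W) (nat_lit 64))) fun CN =>
  fc (Nat.div (Nat.mul (nat_lit 36) W) (Nat.mul (nat_lit 49) (Nat.add G (nat_lit 16)))) fun K5 =>
  fc (Nat.div (Nat.mul (nat_lit 9216) W) (nat_lit 25137)) fun W3 =>
  fc (Nat.add (Nat.div (Nat.mul (nat_lit 4) (Nat.add (Nat.div N (nat_lit 2)) (nat_lit 2))) (nat_lit
    3)) (nat_lit 2)) fun qq =>
  fc (Nat.succ (Nat.div (Nat.mul (nat_lit 33) CN) (nat_lit 8))) fun CN4 =>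
  fc (Nat.succ N) fun N1 =>
  fc (Nat.mul (nat_lit 2) N) fun c1 =>
  fc (Nat.mul (nat_lit 2) (Nat.pow N (nat_lit 2))) fun c2 =>
  fc (Nat.mul (nat_lit 2) (Nat.pow N (nat_lit 4))) fun c4 =>
  sK2 N G I k W Wh CN K5 W3 qq CN4 N1 c1 c2 c4

/-- a step without a filter -/
def step0 (N G Am : ℕ) (I : ℕ → ℕ → ℕ → ℕ → Bool) (jp : ℕ → TL) (F S S' : ℕ) : Bool :=
  fc N fun N => fc G fun G => fc Am fun Am =>
  sK1 N G I fun c1 c2 c4 Wh W K5 W3 qq CN4 N1 O' ST O ro nd =>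
    @Bo.rec On (fun _ => Bool) (fun on => run3 N Am ro jp nd on F S S')
      (on0 c1 c2 c4 Wh W K5 W3 qq CN4 N1 O' ST O)

/-- a step with one filter -/
def step1 (N G Am m M : ℕ) (I : ℕ → ℕ → ℕ → ℕ → Bool) (jp : ℕ → TL) (F S S' : ℕ) : Bool :=
  fc N fun N => fc G fun G => fc Am fun Am =>
  fc m fun m => fc M fun M => fc (Nat.mul m m) fun mm => fc (Nat.pow (nat_lit 2) mm) fun P =>
  sK1 N G I fun c1 c2 c4 Wh _ _ _ _ _ _ O' _ _ ro nd =>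
    @Bo.rec On (fun _ => Bool) (fun on => run3 N Am ro jp (ndx (flt m M) nd) on F S S')
      (on1 m M mm P c1 c2 c4 Wh O' nd)

/-- a step with two filters -/
def step3 (N G Am m M m' M' : ℕ) (I : ℕ → ℕ → ℕ → ℕ → Bool) (jp : ℕ → TL) (F S S' : ℕ) : Bool :=
  fc N fun N => fc G fun G => fc Am fun Am =>
  fc m fun m => fc M fun M => fc (Nat.mul m m) fun mm => fc (Nat.pow (nat_lit 2) mm) fun P =>
  fc m' fun m' => fc M' fun M' => fc (Nat.mul m' m') fun mm' =>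
  fc (Nat.pow (nat_lit 2) mm') fun P' =>
  sK1 N G I fun c1 c2 c4 Wh _ _ _ _ _ _ O' _ _ ro nd =>
    @Bo.rec On (fun _ => Bool) (fun on => run3 N Am ro jp (ndx (fl2 m M m' M') nd) on F S S')
      (on2 m M mm P m' M' mm' P' c1 c2 c4 Wh O' nd)

end Pool.Agent.MP_2339ce_nt.Q2.RG

end
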