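import Pool.Agent.MP_2339ce_nt.Q2.RK
import Pool.Agent.MP_2339ce_nt.Q2.RHP

/-! Block REG: soundness of the fused program. -/

set_option autoImplicit false

namespace Pool.Agent.MP_2339ce_nt.Q2.RG

open Fa

noncomputable def onS (ro : ℕ → ℕ) (nd : Nd) : On := fun a B p ih r b R =>
  @Bool.rec (fun _ => Bool) false
    (@Bool.rec (fun _ => Bool) p (ih (Nat.add a r) (Nat.add (Nat.add a r) (Nat.add b r))
      (ro (Nat.add a r))) (Nat.ble (Nat.add (Nat.add a r) (Nat.add b r)) B))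
    (nd a r b (Nat.add a r) (Nat.add b r) (Nat.add (Nat.add a r) (Nat.add b r)) R
      (ro (Nat.add a r)))

theorem it32 (o : B3 → B3) (z : B3) :
    @Nat.rec (fun _ => B3) z (fun _ ih => o (o (o (o (o (o (o (o ih)))))))) (nat_lit 4) =
      @Nat.rec (fun _ => B3) z (fun _ ih => o ih) (nat_lit 32) := rfl

theorem sp_eq (ro : ℕ → ℕ) (nd : Nd) (a B : ℕ) (p : Bool) (z : B3) (f : ℕ) :
    sp ro nd a B p z f = @Nat.rec (fun _ => B3) z (fun _ ih => onS ro nd a B p ih) f := rfl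

theorem run3_eq (N Am : ℕ) (ro : ℕ → ℕ) (jp : ℕ → TL) (nd : Nd) (F S S' : ℕ) :
    run3 N Am ro jp nd (onS ro nd) F S S' = run2 N Am ro jp nd F S S' := by
  refine congrArg (fun l => q1 N ro jp l S) (congrArg (fun g => @Nat.rec (fun _ => Lq)
    (fun a r b R B L k => cm (S2.cons a r b R B L k) S') g F) ?_)
  funext _ ih a r b R B L k
  refine congrArg (fun x => @TL.rec (fun _ => Bool) x (fun _ _ _ _ => v2 Am ro nd
    (pq N ro jp ih k) ih a r b R B L k (Nat.add a r) (Nat.add b r)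
    (Nat.add (Nat.add a r) (Nat.add b r)) (ro (Nat.add a r))) L) ?_
  unfold v1
  rw [sp_eq, ← it32]

theorem on0_eq (c1 c2 c4 Wh W K5 W3 qq CN4 N1 : ℕ) (O' : ℕ → ℕ) (ST : B5) (O : Nd) :
    (on0 c1 c2 c4 Wh W K5 W3 qq CN4 N1 O' ST O).v =
      onS (roF c1 c2 c4 Wh O') (nwB W K5 W3 qq CN4 N1 ST O).v := rfl

theorem on1_eq (m M c1 c2 c4 Wh : ℕ) (O' : ℕ → ℕ) (O : Nd) :
    (on1 m M (Nat.mul m m) (Nat.pow (nat_lit 2) (Nat.mul m m)) c1 c2 c4 Wh O' O).v =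
      onS (roF c1 c2 c4 Wh O') (ndx (flt m M) O) := rfl

theorem on2_eq (m M m' M' c1 c2 c4 Wh : ℕ) (O' : ℕ → ℕ) (O : Nd) :
    (on2 m M (Nat.mul m m) (Nat.pow (nat_lit 2) (Nat.mul m m)) m' M' (Nat.mul m' m')
      (Nat.pow (nat_lit 2) (Nat.mul m' m')) c1 c2 c4 Wh O' O).v =
      onS (roF c1 c2 c4 Wh O') (ndx (fl2 m M m' M') O) := rfl

theorem sK2_eq (N G : ℕ) (I : ℕ → ℕ → ℕ → ℕ → Bool) (k : Kk)
    (W Wh CN K5 W3 qq CN4 N1 c1 c2 c4 : ℕ) : sK2 N G I k W Wh CN K5 W3 qq CN4 N1 c1 c2 c4 =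
      k c1 c2 c4 Wh W K5 W3 qq CN4 N1 (root N W) stB.v (nd2 N W CN G fl0 I)
        (roF c1 c2 c4 Wh (root N W)) (nwB W K5 W3 qq CN4 N1 stB.v (nd2 N W CN G fl0 I)).v := by
  unfold sK2
  rfl

theorem sK1_eq (N G : ℕ) (I : ℕ → ℕ → ℕ → ℕ → Bool) (k : Kk) (k' : (ℕ → ℕ) → Nd → Bool)
    (h : ∀ c1 c2 c4 Wh W K5 W3 qq CN4 N1 O' ST O, k c1 c2 c4 Wh W K5 W3 qq CN4 N1 O' ST O
      (roF c1 c2 c4 Wh O') (nwB W K5 W3 qq CN4 N1 ST O).v =
        k' (roF c1 c2 c4 Wh O') (nwB W K5 W3 qq CN4 N1 ST O).v) :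
    sK1 N G I k = sH1 N G I k' := by
  unfold sK1 sH1
  generalize Nat.pow (nat_lit 2) (nat_lit 136) = W
  generalize Nat.pow (nat_lit 2) (nat_lit 135) = Wh
  simp only [fc_eq]
  rw [sK2_eq, sH2_eq, h]

variable (N G Am m M m' M' : ℕ) (I : ℕ → ℕ → ℕ → ℕ → Bool) (jp : ℕ → TL)

theorem step0_eq : step0 N G Am I jp = stepA N G Am I jp := by
  funext F S S'
  unfold step0 stepA
  simp only [fc_eq]
  refine sK1_eq _ _ _ _ _ fun c1 c2 c4 Wh W K5 W3 qq CN4 N1 O' ST O => ?_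
  rw [on0_eq, run3_eq]

theorem step1_eq : step1 N G Am m M I jp = stepB N G Am (flt m M) I jp := by
  funext F S S'
  unfold step1 stepB
  simp only [fc_eq]
  refine sK1_eq _ _ _ _ _ fun c1 c2 c4 Wh W K5 W3 qq CN4 N1 O' ST O => ?_
  rw [on1_eq, run3_eq]

theorem step3_eq : step3 N G Am m M m' M' I jp = stepB N G Am (fl2 m M m' M') I jp := by
  funext F S S'
  unfold step3 stepB
  simp only [fc_eq]
  refine sK1_eq _ _ _ _ _ fun c1 c2 c4 Wh W K5 W3 qq CN4 N1 O' ST O => ?_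
  rw [on2_eq, run3_eq]

end Pool.Agent.MP_2339ce_nt.Q2.RG
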