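import Pool.Agent.MP_2339ce_nt.Q2.RProg

/-! Block REG: a cheaper test for triples of medium size; the program. -/

set_option autoImplicit false

noncomputable section

namespace Pool.Agent.MP_2339ce_nt.Q2.RG

def e0 (H : ℕ) (k l : B2) (n m : ℕ) : Bool := (@Bool.rec (fun _ => Bool) (l n m) (k n m) (Nat.ble m
  H))

def ech (H : ℕ) (k : B2) (n m : ℕ) : Bool :=
  (e0 H k (e2 H k (e2 H k (e2 H k (e2 H k (e2 H k (e2 H k (e2 H k (e2 H k (e2 H k (e2 H k (e4 H k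
    (e4 H k (e4 H k no))))))))))))) n m)

def k6 (T G h : ℕ) (ih : ℕ → B2) (n m : ℕ) : Bool :=
  (@Bool.rec (fun _ => Bool) false (@Bool.rec (fun _ => Bool) false (@Bool.rec (fun _ => Bool) (ih
    h n m) true (Nat.ble G h)) (Nat.ble (Nat.succ (Nat.mul (nat_lit 4) T)) n)) (Nat.ble (Nat.succ
    T) m))

def u2 (n1 ne aW G q0 : ℕ) (ih : ℕ → B2) (g n m T h : ℕ) : Bool :=
  (@Bool.rec (fun _ => Bool) false (ech (Nat.div (Nat.div (Nat.mul (nat_lit 3) n1) (nat_lit 4))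
    (Nat.add (Nat.div (Nat.mul (Nat.add h (nat_lit 16)) ne) aW) q0)) (k6 T G h ih) n m) (Nat.ble g
    h))

def u1 (n1 ne aW G q0 : ℕ) (ih : ℕ → B2) (g n m T : ℕ) : Bool :=
  (u2 n1 ne aW G q0 ih g n m T (mn G (Nat.div aW (Nat.mul (nat_lit 4096) T))))

/-- the upper range in several stages -/
def up (N n1 ne aW C U G q0 f : ℕ) : ℕ → B2 :=
  @Nat.rec (fun _ => ℕ → B2) (fun _ _ _ => false)
    (fun _ ih g n m => (u1 n1 ne aW G q0 ih g n m (Nat.add (Nat.div (Nat.mul C (Nat.succ N)) g)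
      U))) f

def k5 (K : B2) (n1 T Q : ℕ) (l : B2) (n m q q1 p p1 : ℕ) : Bool :=
  (@Bool.rec (fun _ => Bool) false (@Bool.rec (fun _ => Bool) true (enum K n1 T Q n m q q1 p p1)
    (Nat.ble q1 Q)) (l n m))

def m2 (K : B2) (N aW C X G q0 n1 n2 ne Q U T : ℕ) : Bool :=
  (@Bool.rec (fun _ => Bool) false (@Bool.rec (fun _ => Bool) false (adv T Q (k5 K n1 T Q (up N n1
    ne aW C U G q0 (nat_lit 10) X)) (nat_lit 400) n1 n2 (nat_lit 0) (nat_lit 1) (nat_lit 1)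
    (nat_lit 0)) (Nat.ble (Nat.mul T Q) (Nat.mul (nat_lit 16) n1))) (Nat.ble (Nat.succ T) n1))

def m1 (K : B2) (N aW s C X G q0 n1 n2 ne Q U : ℕ) : Bool :=
  (m2 K N aW C X G q0 n1 n2 ne Q U (Nat.add (Nat.div (Nat.mul C (Nat.add (Nat.mul N (Nat.mul s s))
    (Nat.mul X X))) (Nat.pow s (nat_lit 3))) U))

def m0 (K : B2) (N aW s C X G q0 n1 n2 e Q : ℕ) : Bool :=
  (m1 K N aW s C X G q0 n1 n2 (Nat.add n1 e) Q (Nat.mul (Nat.add Q (Nat.add (Nat.div (Nat.mul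
    (Nat.add G (nat_lit 16)) (Nat.add n1 e)) aW) q0)) (Nat.mul e (Nat.add (Nat.div (Nat.add n2 e)
    n1) (nat_lit 2)))))

def md (K : B2) (N aW s C X G q0 n1 n2 e : ℕ) : Bool :=
  (@Bool.rec (fun _ => Bool) false (@Bool.rec (fun _ => Bool) false (@Bool.rec (fun _ => Bool)
    false (m0 K N aW s C X G q0 n1 n2 e (Nat.add (Nat.div (Nat.mul (Nat.add X (nat_lit 16))
    (Nat.add n1 e)) aW) q0)) (Nat.ble (nat_lit 1) n2)) (Nat.ble (nat_lit 1) n1)) (Nat.ble (Nat.mul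
    (Nat.mul C N) (nat_lit 65536)) aW))

/-- the medium test, then the slow one -/
def sl2 (N aW a b c r s t R S C X G : ℕ) (I : ℕ → Bool) : Bool :=
  (@Bool.rec (fun _ => Bool) (slow N aW a b c r s t R S C X G I) true (md (cand N (Nat.sub b a)
    (Nat.sub c a) t (Nat.mul (nat_lit 2) (Nat.sub (Nat.mul a t) (Nat.mul r s))) (Nat.mul (Nat.sub c
    a) (Nat.add (Nat.mul b s) (Nat.mul r t))) (Nat.mul (Nat.sub b a) (Nat.add (Nat.mul c r)
    (Nat.mul s t))) (fin N aW a b c R S I)) N aW s C X G (Nat.add (Nat.div N (nat_lit 2)) (nat_lit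
    2)) (nn1 aW a b s t R S) (nn2 aW a c r t R S) (Nat.mul (nat_lit 2) (Nat.add t c))))

def nd2 (N W CN G : ℕ) (fl : ℕ → ℕ → ℕ → Bool) (I : ℕ → ℕ → ℕ → ℕ → Bool) (a r b s t c R S : ℕ) :
    Bool :=
  (@Bool.rec (fun _ => Bool) (@Bool.rec (fun _ => Bool) (@Bool.rec (fun _ => Bool) (gen N W a b c r
    s t G (I a b c)) true (sl2 N (Nat.mul a W) a b c r s t R S (Nat.succ (Nat.div (Nat.mul CN
    (Nat.sub b a)) (Nat.pow (Nat.mul r t) (nat_lit 3)))) (Nat.mul (Nat.add a a) t) G (I a b c)))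
    true (f2 N (Nat.mul a W) s (Nat.succ (Nat.div (Nat.mul CN (Nat.sub b a)) (Nat.pow (Nat.mul r t)
    (nat_lit 3)))) (Nat.mul (Nat.add a a) t) G (Nat.add (Nat.div N (nat_lit 2)) (nat_lit 2))
    (Nat.sub (Nat.mul t R) (Nat.add (Nat.mul s (Nat.mul a W)) (Nat.mul (Nat.sub b a) (Nat.add S
    (nat_lit 2))))) (Nat.sub (Nat.mul t S) (Nat.add (Nat.mul r (Nat.mul a W)) (Nat.mul (Nat.sub c
    a) (Nat.add R (nat_lit 2))))) (Nat.mul (nat_lit 2) (Nat.add t c)))) true (fl a b c))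

def step2 (N G Am : ℕ) (fl : ℕ → ℕ → ℕ → Bool) (I : ℕ → ℕ → ℕ → ℕ → Bool) (T : TL) (F S S' : ℕ) :
    Bool :=
  (run N Am (root N (Nat.pow (nat_lit 2) (nat_lit 136))) (nd2 N (Nat.pow (nat_lit 2) (nat_lit 136))
    (Nat.succ (Nat.div (Nat.mul (Nat.pow N (nat_lit 4)) (Nat.pow (nat_lit 2) (nat_lit 136)))
    (nat_lit 64))) G fl I) T F S S')

end Pool.Agent.MP_2339ce_nt.Q2.RG

end
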