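import Pool.Agent.MP_2339ce_nt.Q2.TBSpec

/-! Project Q2, block TB: exact windows for the forms `W3` and `wc`. -/

set_option autoImplicit false

namespace Pool.Agent.MP_2339ce_nt.Q2.TB

/-- minus sixteen times the squared area of a triangle with squared sides `P, Q, R` -/
def He (P Q R : ℤ) : ℤ := P ^ 2 + Q ^ 2 + R ^ 2 - 2 * P * Q - 2 * P * R - 2 * Q * R

theorem he_aux (p q o : ℤ) (hp : 0 ≤ p) (ho : 0 ≤ o) (h : p + o < q) :
    8 * (p * q * o) ≤ He (p ^ 2) (q ^ 2) (o ^ 2) := by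
  obtain ⟨m, rfl⟩ : ∃ m, q = p + o + 1 + m := ⟨q - p - o - 1, by ring⟩
  have hm : 0 ≤ m := by omega
  have e : He (p ^ 2) ((p + o + 1 + m) ^ 2) (o ^ 2) - 8 * (p * (p + o + 1 + m) * o) =
      m * (2 * p + 2 * o + 1 + m) * (2 * o + 1 + m) * (2 * p + 1 + m) +
      (4 * p ^ 2 + 4 * o ^ 2 + 4 * p * o + 4 * p + 4 * o + 1 +
        m * (4 * p ^ 2 + 4 * o ^ 2 + 4 * p * o + 8 * p + 8 * o + 3) +
        m ^ 2 * (4 * p + 4 * o + 3) + m ^ 3) := by
    unfold He; ring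
  have : 0 ≤ m * (2 * p + 2 * o + 1 + m) * (2 * o + 1 + m) * (2 * p + 1 + m) +
      (4 * p ^ 2 + 4 * o ^ 2 + 4 * p * o + 4 * p + 4 * o + 1 +
        m * (4 * p ^ 2 + 4 * o ^ 2 + 4 * p * o + 8 * p + 8 * o + 3) +
        m ^ 2 * (4 * p + 4 * o + 3) + m ^ 3) := by positivity
  omega

/-- a positive value is at least `8 p q o` -/
theorem he_ge (p q o : ℤ) (hp : 0 ≤ p) (hq : 0 ≤ q) (ho : 0 ≤ o)
    (h : 0 < He (p ^ 2) (q ^ 2) (o ^ 2)) : 8 * (p * q * o) ≤ He (p ^ 2) (q ^ 2) (o ^ 2) := by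
  by_cases h1 : p + o < q
  · exact he_aux p q o hp ho h1
  by_cases h2 : q + o < p
  · have := he_aux q p o hq ho h2
    unfold He at *; linarith
  by_cases h3 : p + q < o
  · have := he_aux p o q hp hq h3
    unfold He at *; linarith
  exfalso
  have e : He (p ^ 2) (q ^ 2) (o ^ 2) =
      -((p + q + o) * (p + o - q) * (q + o - p) * (p + q - o)) := by unfold He; ring
  have a1 : 0 ≤ p + o - q := by omega
  have a2 : 0 ≤ q + o - p := by omega
  have a3 : 0 ≤ p + q - o := by omega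
  have : 0 ≤ (p + q + o) * (p + o - q) * (q + o - p) * (p + q - o) := by positivity
  omega

theorem he_ne (p q o : ℤ) (h : He (p ^ 2) (q ^ 2) (o ^ 2) ≠ 0) : p + q + o ≠ 0 := by
  intro h0
  apply h
  have : o = -p - q := by omega
  subst this; unfold He; ring

namespace Qd

variable (q : Qd)

/-- the two regular extensions, up to the factor `N ^ 2` -/
def Ep : ℤ := 2 * (q.a * q.b * q.c) + 2 * (q.r * q.s * q.t) - q.N * (q.a + q.b + q.c)
def Em : ℤ := 2 * (q.a * q.b * q.c) - 2 * (q.r * q.s * q.t) - q.N * (q.a + q.b + q.c)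
def V : ℤ := (q.b - q.a) * (q.c - q.a) * (q.c - q.b)
def P : ℤ := q.a * q.b * q.c

theorem eX : (q.a * q.t + q.r * q.s) ^ 2 = q.a * q.Ep + q.N ^ 2 := by
  unfold Ep
  linear_combination q.a ^ 2 * q.ht + q.s ^ 2 * q.hr + (q.a * q.b - q.N) * q.hs

theorem eY : (q.b * q.s + q.r * q.t) ^ 2 = q.b * q.Ep + q.N ^ 2 := by
  unfold Ep
  linear_combination q.b ^ 2 * q.hs + q.t ^ 2 * q.hr + (q.a * q.b - q.N) * q.ht

theorem eZ : (q.c * q.r + q.s * q.t) ^ 2 = q.c * q.Ep + q.N ^ 2 := by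
  unfold Ep
  linear_combination q.c ^ 2 * q.hr + q.t ^ 2 * q.hs + (q.a * q.c - q.N) * q.ht

theorem eX' : (q.a * q.t - q.r * q.s) ^ 2 = q.a * q.Em + q.N ^ 2 := by
  unfold Em
  linear_combination q.a ^ 2 * q.ht + q.s ^ 2 * q.hr + (q.a * q.b - q.N) * q.hs

theorem eY' : (q.b * q.s - q.r * q.t) ^ 2 = q.b * q.Em + q.N ^ 2 := by
  unfold Em
  linear_combination q.b ^ 2 * q.hs + q.t ^ 2 * q.hr + (q.a * q.b - q.N) * q.ht

theorem pos_aux (E Y : ℤ) (h : Y ^ 2 = q.b * E + q.N ^ 2) : 0 < q.N * q.d + E := by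
  have hb : 0 < q.b := lt_of_lt_of_le (by have := q.ha; omega) q.hb.le
  have hd : 0 < q.d := by have := q.hc; have := q.hd; omega
  have h1 : q.N ≤ q.a * q.d := by have := q.hx; nlinarith [sq_nonneg q.x]
  have h2 : q.a * q.d < q.b * q.d := mul_lt_mul_of_pos_right q.hb hd
  have hN := q.hN
  have h3 : 0 < q.b * (q.N * q.d + E) := by
    have : q.b * (q.N * q.d + E) = Y ^ 2 + q.N * (q.b * q.d - q.N) := by rw [h]; ring
    rw [this]
    have : 0 < q.N * (q.b * q.d - q.N) := mul_pos (by omega) (by omega)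
    positivity
  exact pos_of_mul_pos_left' h3 hb
  where pos_of_mul_pos_left' {u v : ℤ} (h : 0 < u * v) (hu : 0 < u) : 0 < v :=
    (pos_iff_pos_of_mul_pos h).1 hu

theorem Ep_pos : 0 < q.N * q.d + q.Ep := q.pos_aux _ _ q.eY
theorem Em_pos : 0 < q.N * q.d + q.Em := q.pos_aux _ _ q.eY'

theorem he3 : He (((q.c - q.b) * (q.a * q.t + q.r * q.s) * q.x) ^ 2)
    (((q.c - q.a) * (q.b * q.s + q.r * q.t) * q.y) ^ 2)
    (((q.b - q.a) * (q.c * q.r + q.s * q.t) * q.z) ^ 2) =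
    (q.V * q.N * (q.N * q.d + q.Ep)) ^ 2 := by
  simp only [mul_pow, q.eX, q.eY, q.eZ, q.hx, q.hy, q.hz]
  unfold He V; ring

theorem hec : He ((q.s * q.x) ^ 2) ((q.t * q.y) ^ 2) (((q.b - q.a) * q.z) ^ 2) =
    (q.b - q.a) ^ 2 * ((q.N * q.d + q.Ep) * (q.N * q.d + q.Em)) := by
  have e : (q.N * q.d + q.Ep) * (q.N * q.d + q.Em) =
      (q.N * q.d + 2 * (q.a * q.b * q.c) - q.N * (q.a + q.b + q.c)) ^ 2 -
        4 * (q.r ^ 2 * q.s ^ 2 * q.t ^ 2) := by unfold Ep Em; ring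
  rw [e]
  simp only [mul_pow, q.hr, q.hs, q.ht, q.hx, q.hy, q.hz]
  unfold He; ring

theorem V_pos : 0 < q.V := by
  have := q.hb; have := q.hc
  unfold V
  exact mul_pos (mul_pos (by omega) (by omega)) (by omega)

/-- the exact inequality behind the form `W3` -/
theorem w3_ineq : 8 * ((q.a * q.t + q.r * q.s) * (q.b * q.s + q.r * q.t) *
    (q.c * q.r + q.s * q.t) * (q.x * q.y * q.z)) ≤ q.V * q.N ^ 2 * (q.N * q.d + q.Ep) ^ 2 := by
  have ha := q.ha; have hb := q.hb; have hc := q.hc; have hN := q.hN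
  have r0 := q.r0; have s0 := q.s0; have t0 := q.t0
  have x0 := q.x0; have y0 := q.y0; have z0 := q.z0
  have a0 : 0 ≤ q.a := by omega
  have b0 : 0 ≤ q.b := by omega
  have c0 : 0 ≤ q.c := by omega
  have l1 : 0 ≤ q.c - q.b := by omega
  have l2 : 0 ≤ q.c - q.a := by omega
  have l3 : 0 ≤ q.b - q.a := by omega
  have hV := q.V_pos
  have hE := q.Ep_pos
  have N0 : 0 < q.N := by omega
  have h := he_ge ((q.c - q.b) * (q.a * q.t + q.r * q.s) * q.x)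
    ((q.c - q.a) * (q.b * q.s + q.r * q.t) * q.y)
    ((q.b - q.a) * (q.c * q.r + q.s * q.t) * q.z) (by positivity) (by positivity) (by positivity)
    (by rw [q.he3]; positivity)
  rw [q.he3] at h
  apply le_of_mul_le_mul_left _ hV
  unfold V at *
  linarith

/-- the exact inequality behind the form `wc` -/
theorem wc_ineq : 8 * (q.s * q.t * (q.x * q.y * q.z)) ≤
    (q.b - q.a) * ((q.N * q.d + q.Ep) * (q.N * q.d + q.Em)) := by
  have hb := q.hb
  have s0 := q.s0; have t0 := q.t0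
  have x0 := q.x0; have y0 := q.y0; have z0 := q.z0
  have l3 : 0 < q.b - q.a := by omega
  have hE := q.Ep_pos
  have hE' := q.Em_pos
  have h := he_ge (q.s * q.x) (q.t * q.y) ((q.b - q.a) * q.z) (by positivity) (by positivity)
    (by positivity) (by rw [q.hec]; positivity)
  rw [q.hec] at h
  apply le_of_mul_le_mul_left _ l3
  linarith

theorem w3_ne : (q.c - q.b) * (q.a * q.t + q.r * q.s) * q.x -
    (q.c - q.a) * (q.b * q.s + q.r * q.t) * q.y +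
    (q.b - q.a) * (q.c * q.r + q.s * q.t) * q.z ≠ 0 := by
  have h := he_ne ((q.c - q.b) * (q.a * q.t + q.r * q.s) * q.x)
    (-((q.c - q.a) * (q.b * q.s + q.r * q.t) * q.y))
    ((q.b - q.a) * (q.c * q.r + q.s * q.t) * q.z) (by
      rw [neg_sq, q.he3]
      have hV := q.V_pos
      have hE := q.Ep_pos
      have N0 : 0 < q.N := by have := q.hN; omega
      positivity)
  rwa [← sub_eq_add_neg] at h

theorem wc_ne : q.s * q.x - q.t * q.y + (q.b - q.a) * q.z ≠ 0 := by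
  have h := he_ne (q.s * q.x) (-(q.t * q.y)) ((q.b - q.a) * q.z) (by
      rw [neg_sq, q.hec]
      have hE := q.Ep_pos
      have hE' := q.Em_pos
      have l3 : 0 < q.b - q.a := by have := q.hb; omega
      positivity)
  rwa [← sub_eq_add_neg] at h

/-! ### windows for `1024 N ≤ a b` -/

structure Est (q : Qd) : Prop where
  P0 : 0 < q.P
  d0 : 0 < q.d
  E1 : 3993 * q.P ≤ 1000 * q.Ep
  E2 : q.Ep ≤ 4 * q.P
  xyz : 997 * (q.P * q.d ^ 3) ≤ 1000 * (q.x * q.y * q.z) ^ 2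
  st : 998 * (q.P * q.c) ≤ 1000 * (q.s * q.t) ^ 2
  Nc : 1024 * (q.N * q.c) ≤ q.P

theorem tri (u v w U V W : ℤ) (V0 : 0 ≤ V) (W0 : 0 ≤ W) (h1 : 1023 * U ≤ 1024 * u ^ 2)
    (h2 : 1023 * V ≤ 1024 * v ^ 2) (h3 : 1023 * W ≤ 1024 * w ^ 2) :
    1023 ^ 3 * (U * V * W) ≤ 1024 ^ 3 * (u * v * w) ^ 2 := by
  calc 1023 ^ 3 * (U * V * W) = (1023 * U) * (1023 * V) * (1023 * W) := by ring
    _ ≤ (1024 * u ^ 2) * (1024 * v ^ 2) * (1024 * w ^ 2) := by gcongr
    _ = _ := by ring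

theorem est (h : 1024 * q.N ≤ q.a * q.b) : q.Est := by
  have ha := q.ha; have hb := q.hb; have hc := q.hc; have hd := q.hd; have hN := q.hN
  have r0 := q.r0; have s0 := q.s0; have t0 := q.t0
  have a0 : 0 < q.a := by omega
  have b0 : 0 < q.b := by omega
  have c0 : 0 < q.c := by omega
  have d0 : 0 < q.d := by omega
  have P0 : 0 < q.P := by unfold P; positivity
  have ac : q.a * q.b ≤ q.a * q.c := by gcongr
  have bc : q.a * q.c ≤ q.b * q.c := by gcongr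
  have ad : q.a * q.c ≤ q.a * q.d := by gcongr
  have bd : q.a * q.d ≤ q.b * q.d := by gcongr
  have cd : q.b * q.d ≤ q.c * q.d := by gcongr
  have hr := q.hr; have hs := q.hs; have ht := q.ht
  have hx := q.hx; have hy := q.hy; have hz := q.hz
  have k1 := tri q.r q.s q.t (q.a * q.b) (q.a * q.c) (q.b * q.c) (by positivity)
    (by positivity) (by omega) (by omega) (by omega)
  have k2 := tri q.x q.y q.z (q.a * q.d) (q.b * q.d) (q.c * q.d) (by positivity)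
    (by positivity) (by omega) (by omega) (by omega)
  have e1 : q.a * q.b * (q.a * q.c) * (q.b * q.c) = q.P ^ 2 := by unfold P; ring
  have e2 : q.a * q.d * (q.b * q.d) * (q.c * q.d) = q.P * q.d ^ 3 := by unfold P; ring
  rw [e1] at k1; rw [e2] at k2
  have T0 : 0 ≤ q.r * q.s * q.t := by positivity
  have T1 : 998 * q.P ≤ 1000 * (q.r * q.s * q.t) := by
    apply abs_le_of_sq_le_sq' _ (by positivity) |>.2
    have := sq_nonneg q.P
    nlinarith
  have T2 : q.r * q.s * q.t ≤ q.P := by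
    apply abs_le_of_sq_le_sq' _ P0.le |>.2
    calc (q.r * q.s * q.t) ^ 2 = q.r ^ 2 * q.s ^ 2 * q.t ^ 2 := by ring
      _ ≤ (q.a * q.b) * (q.a * q.c) * (q.b * q.c) := by gcongr <;> omega
      _ = _ := e1
  have Nc : 1024 * (q.N * q.c) ≤ q.P := by
    calc 1024 * (q.N * q.c) = 1024 * q.N * q.c := by ring
      _ ≤ q.a * q.b * q.c := by gcongr
  have Na : q.N * q.a ≤ q.N * q.c := by gcongr; omega
  have Nb : q.N * q.b ≤ q.N * q.c := by gcongr
  have N0 : 0 < q.N * q.a := by positivity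
  have eE : q.Ep = 2 * q.P + 2 * (q.r * q.s * q.t) - (q.N * q.a + q.N * q.b + q.N * q.c) := by
    unfold Ep P; ring
  have Nb0 : 0 < q.N * q.b := by positivity
  have pd : 0 < q.P * q.d ^ 3 := by positivity
  refine ⟨P0, d0, by omega, by omega, by omega, ?_, Nc⟩
  have k3 : (1023 * (q.a * q.c)) * (1023 * (q.b * q.c)) ≤ (1024 * q.s ^ 2) * (1024 * q.t ^ 2) :=
    mul_le_mul (by omega) (by omega) (by positivity) (by positivity)
  have e3 : q.P * q.c = q.a * q.c * (q.b * q.c) := by unfold P; ring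
  have pc : 0 < q.P * q.c := by positivity
  nlinarith

theorem hold4 (m u v : ℤ) (hm : 0 ≤ m) (hu : 0 ≤ u) (hv : 0 ≤ v) :
    m ^ 3 * (u + v) ^ 4 ≤ (m + 1) ^ 3 * u ^ 4 + m ^ 3 * (m + 1) ^ 3 * v ^ 4 := by
  have : 0 ≤ (u - m * v) ^ 2 * ((3 * m ^ 2 + 3 * m + 1) * u ^ 2 +
    (2 * m ^ 3 + 6 * m ^ 2 + 2 * m) * (u * v) + m * (m ^ 3 + 3 * m ^ 2 + 3 * m) * v ^ 2) := by
    positivity
  linarith

theorem w3_key (h : q.Est) :
    63808 * (q.P ^ 2 * q.Ep ^ 3 * q.d ^ 3) ≤ 1000 * (q.V ^ 2 * q.N ^ 4 * (q.N * q.d + q.Ep) ^ 4) := by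
  have ha := q.ha; have hb := q.hb; have hc := q.hc
  have r0 := q.r0; have s0 := q.s0; have t0 := q.t0
  have x0 := q.x0; have y0 := q.y0; have z0 := q.z0
  have a0 : 0 < q.a := by omega
  have b0 : 0 < q.b := by omega
  have c0 : 0 < q.c := by omega
  have P0 := h.P0; have d0 := h.d0
  have E0 : 0 < q.Ep := by have := h.E1; omega
  have n0 := sq_nonneg q.N
  have k1 : q.P * q.Ep ^ 3 ≤ ((q.a * q.t + q.r * q.s) * (q.b * q.s + q.r * q.t) *
      (q.c * q.r + q.s * q.t)) ^ 2 := by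
    calc q.P * q.Ep ^ 3 = (q.a * q.Ep) * (q.b * q.Ep) * (q.c * q.Ep) := by unfold P; ring
      _ ≤ (q.a * q.Ep + q.N ^ 2) * (q.b * q.Ep + q.N ^ 2) * (q.c * q.Ep + q.N ^ 2) := by
        gcongr <;> omega
      _ = _ := by rw [← q.eX, ← q.eY, ← q.eZ]; ring
  have k2 := pow_le_pow_left₀ (by positivity) q.w3_ineq 2
  have k3 := mul_le_mul k1 h.xyz (by positivity) (by positivity)
  linarith

theorem E3 (h : q.Est) : 63664 * q.P ^ 3 ≤ 1000 * q.Ep ^ 3 := by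
  have P0 := h.P0
  have := pow_le_pow_left₀ (by positivity) h.E1 3
  have : 0 < q.P ^ 3 := by positivity
  linarith

/-- `W3`, sharp upper end -/
theorem w3_hi (h : 1024 * q.N ≤ q.a * q.b) (h1 : 131072 * (q.V ^ 2 * q.N ^ 4) ≤ q.P * q.d ^ 3)
    (h2 : q.V ^ 2 * q.N ^ 8 * q.d ≤ 3600 * q.P ^ 5) : False := by
  have e := q.est h
  have P0 := e.P0; have d0 := e.d0
  have E0 : 0 < q.Ep := by have := e.E1; omega
  have N0 : 0 < q.N := by have := q.hN; omega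
  have k0 := q.w3_key e
  have k1 := mul_le_mul_of_nonneg_left (hold4 31 (q.N * q.d) q.Ep (by norm_num) (by positivity) E0.le)
    (show 0 ≤ q.V ^ 2 * q.N ^ 4 by positivity)
  have k2 := mul_le_mul_of_nonneg_right h2 (show 0 ≤ q.d ^ 3 by positivity)
  have k3 := mul_le_mul_of_nonneg_right (q.E3 e) (show 0 ≤ q.P ^ 2 * q.d ^ 3 by positivity)
  have k4 := mul_le_mul_of_nonneg_right h1 (show 0 ≤ q.Ep ^ 4 by positivity)
  have k5 := mul_le_mul_of_nonneg_right e.E2 (show 0 ≤ q.P * q.d ^ 3 * q.Ep ^ 3 by positivity)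
  have k6 : 0 < q.P ^ 2 * q.Ep ^ 3 * q.d ^ 3 := by positivity
  linarith

/-- `W3`, sharp lower end -/
theorem w3_lo (h : 1024 * q.N ≤ q.a * q.b) (h1 : q.V ^ 2 * q.N ^ 4 ≤ 10 * (q.P * q.d ^ 3))
    (h2 : 4 * (q.V ^ 2 * q.N ^ 8 * q.d) ≤ q.P ^ 5) : False := by
  have e := q.est h
  have P0 := e.P0; have d0 := e.d0
  have E0 : 0 < q.Ep := by have := e.E1; omega
  have N0 : 0 < q.N := by have := q.hN; omega
  have k0 := q.w3_key e
  have k1 := mul_le_mul_of_nonneg_left (hold4 7 q.Ep (q.N * q.d) (by norm_num) E0.le (by positivity))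
    (show 0 ≤ q.V ^ 2 * q.N ^ 4 by positivity)
  have k2 := mul_le_mul_of_nonneg_right h2 (show 0 ≤ q.d ^ 3 by positivity)
  have k3 := mul_le_mul_of_nonneg_right (q.E3 e) (show 0 ≤ q.P ^ 2 * q.d ^ 3 by positivity)
  have k4 := mul_le_mul_of_nonneg_right h1 (show 0 ≤ q.Ep ^ 4 by positivity)
  have k5 := mul_le_mul_of_nonneg_right e.E2 (show 0 ≤ q.P * q.d ^ 3 * q.Ep ^ 3 by positivity)
  have k6 : 0 < q.P ^ 2 * q.Ep ^ 3 * q.d ^ 3 := by positivity
  linarith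

/-- `W3`, both ends sharp -/
theorem w3_win (h : 1024 * q.N ≤ q.a * q.b) (h0 : 64 * (q.V ^ 2 * q.N ^ 7) ≤ q.P ^ 4)
    (h1 : q.V ^ 2 * q.N ^ 4 ≤ 10 * (q.P * q.d ^ 3))
    (h2 : q.V ^ 2 * q.N ^ 8 * q.d ≤ 3600 * q.P ^ 5) : False := by
  by_cases h3 : 4 * (q.V ^ 2 * q.N ^ 8 * q.d) ≤ q.P ^ 5
  · exact q.w3_lo h h1 h3
  refine q.w3_hi h ?_ h2
  have e := q.est h
  have P0 := e.P0; have d0 := e.d0; have V0 := q.V_pos
  have N0 : 0 < q.N := by have := q.hN; omega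
  have k1 := pow_le_pow_left₀ (by positivity) (not_le.1 h3).le 3
  have k2 := pow_le_pow_left₀ (by positivity) h0 4
  have k3 := mul_le_mul_of_nonneg_left k1 P0.le
  apply le_of_mul_le_mul_left _ (show 0 < 64 * (q.V ^ 6 * q.N ^ 24) by positivity)
  have k4 : 0 < q.V ^ 8 * q.N ^ 28 := by positivity
  linarith

theorem wc_key (h : q.Est) : 63680000 * (q.P ^ 2 * q.c * q.d) ≤
    (q.b - q.a) ^ 2 * q.N ^ 2 * (1000 * (q.N * q.d) + 4001 * q.P) ^ 2 := by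
  have ha := q.ha; have hb := q.hb; have hc := q.hc; have hd := q.hd
  have s0 := q.s0; have t0 := q.t0
  have x0 := q.x0; have y0 := q.y0; have z0 := q.z0
  have a0 : 0 < q.a := by omega
  have b0 : 0 < q.b := by omega
  have c0 : 0 < q.c := by omega
  have l0 : 0 < q.b - q.a := by omega
  have N0 : 0 < q.N := by have := q.hN; omega
  have P0 := h.P0; have d0 := h.d0
  have e : (q.N * q.d + q.Ep) * (q.N * q.d + q.Em) = (q.N * q.d) ^ 2 +
      q.N * q.d * (4 * q.P - 2 * (q.N * (q.a + q.b + q.c))) +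
      q.N ^ 2 * ((q.c - q.a - q.b) ^ 2 - 4 * q.r ^ 2) := by
    have : (q.N * q.d + q.Ep) * (q.N * q.d + q.Em) =
      (q.N * q.d + 2 * (q.a * q.b * q.c) - q.N * (q.a + q.b + q.c)) ^ 2 -
        4 * (q.r ^ 2 * q.s ^ 2 * q.t ^ 2) := by unfold Ep Em; ring
    rw [this, q.hr, q.hs, q.ht]; unfold P; ring
  have k1 : (q.c - q.a - q.b) ^ 2 - 4 * q.r ^ 2 ≤ q.c * q.d := by
    have : (q.c - q.a - q.b) ^ 2 ≤ q.c ^ 2 := sq_le_sq' (by omega) (by omega)
    have : q.c * q.c ≤ q.c * q.d := by gcongr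
    nlinarith [sq_nonneg q.r]
  have k2 := mul_le_mul_of_nonneg_left k1 (sq_nonneg q.N)
  have k3 := mul_le_mul_of_nonneg_left h.Nc (show 0 ≤ q.N * q.d by positivity)
  have k4 : 0 < q.N * q.d * (q.N * (q.a + q.b + q.c)) := by positivity
  have k4' : 0 < q.N * q.d * q.P := by positivity
  have k5 : 1000 * ((q.N * q.d + q.Ep) * (q.N * q.d + q.Em)) ≤
      q.N * q.d * (1000 * (q.N * q.d) + 4001 * q.P) := by rw [e]; linarith
  have k6 := mul_le_mul_of_nonneg_left k5 l0.le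
  have k7 : 8000 * (q.s * q.t * (q.x * q.y * q.z)) ≤
      (q.b - q.a) * (q.N * q.d * (1000 * (q.N * q.d) + 4001 * q.P)) := by
    have := q.wc_ineq; linarith
  have k8 := pow_le_pow_left₀ (by positivity) k7 2
  have k9 := mul_le_mul h.st h.xyz (by positivity) (by positivity)
  apply le_of_mul_le_mul_left _ (show 0 < q.d ^ 2 by positivity)
  have : 0 < q.P ^ 2 * q.c * q.d ^ 3 := by positivity
  linarith

/-- `wc`, sharp upper end -/
theorem wc_hi (h : 1024 * q.N ≤ q.a * q.b) (h1 : 256 * (q.N ^ 2 * (q.b - q.a) ^ 2) ≤ q.c * q.d)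
    (h2 : (q.b - q.a) ^ 2 * q.N ^ 4 * q.d ≤ 59 * (q.P ^ 2 * q.c)) : False := by
  have e := q.est h
  have P0 := e.P0; have d0 := e.d0
  have c0 : 0 < q.c := by have := q.ha; have := q.hb; have := q.hc; omega
  have k0 := q.wc_key e
  have k1 := mul_nonneg (show 0 ≤ (q.b - q.a) ^ 2 * q.N ^ 2 by positivity)
    (sq_nonneg (1000 * (q.N * q.d) - 31 * (4001 * q.P)))
  have k2 := mul_le_mul_of_nonneg_right h2 d0.le
  have k3 := mul_le_mul_of_nonneg_right h1 (sq_nonneg q.P)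
  have k4 : 0 < q.P ^ 2 * q.c * q.d := by positivity
  linarith

/-- `wc`, sharp lower end -/
theorem wc_lo (h : 1024 * q.N ≤ q.a * q.b) (h1 : q.N ^ 2 * (q.b - q.a) ^ 2 ≤ 3 * (q.c * q.d))
    (h2 : 2 * ((q.b - q.a) ^ 2 * q.N ^ 4 * q.d) ≤ q.P ^ 2 * q.c) : False := by
  have e := q.est h
  have P0 := e.P0; have d0 := e.d0
  have c0 : 0 < q.c := by have := q.ha; have := q.hb; have := q.hc; omega
  have k0 := q.wc_key e
  have k1 := mul_nonneg (show 0 ≤ (q.b - q.a) ^ 2 * q.N ^ 2 by positivity)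
    (sq_nonneg (7 * (1000 * (q.N * q.d)) - 4001 * q.P))
  have k2 := mul_le_mul_of_nonneg_right h2 d0.le
  have k3 := mul_le_mul_of_nonneg_right h1 (sq_nonneg q.P)
  have k4 : 0 < q.P ^ 2 * q.c * q.d := by positivity
  linarith

/-- `wc`, both ends sharp -/
theorem wc_win (h : 1024 * q.N ≤ q.a * q.b) (h0 : 23 * (q.N ^ 3 * (q.b - q.a) ^ 2) ≤ q.P * q.c)
    (h1 : q.N ^ 2 * (q.b - q.a) ^ 2 ≤ 3 * (q.c * q.d))
    (h2 : (q.b - q.a) ^ 2 * q.N ^ 4 * q.d ≤ 59 * (q.P ^ 2 * q.c)) : False := by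
  by_cases h3 : 2 * ((q.b - q.a) ^ 2 * q.N ^ 4 * q.d) ≤ q.P ^ 2 * q.c
  · exact q.wc_lo h h1 h3
  refine q.wc_hi h ?_ h2
  have l0 : 0 < q.b - q.a := by have := q.hb; omega
  have c0 : 0 < q.c := by have := q.ha; have := q.hb; have := q.hc; omega
  have N0 : 0 < q.N := by have := q.hN; omega
  have k2 := pow_le_pow_left₀ (by positivity) h0 2
  have k3 := mul_le_mul_of_nonneg_left (not_le.1 h3).le c0.le
  apply le_of_mul_le_mul_left _ (show 0 < 2 * ((q.b - q.a) ^ 2 * q.N ^ 4) by positivity)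
  have k4 : 0 < (q.b - q.a) ^ 4 * q.N ^ 6 := by positivity
  linarith

end Qd

def fW3 : List Cl :=
  [⟨0, false, false, true, [⟨1, 1, 0, 1, 0⟩, ⟨-1, 1, 1, 0, 0⟩]⟩,
   ⟨0, true, true, false, [⟨1, 0, 0, 1, 0⟩, ⟨-1, 0, 1, 0, 0⟩]⟩,
   ⟨1, false, true, false, [⟨-1, 0, 1, 1, 0⟩, ⟨1, 1, 1, 0, 0⟩]⟩,
   ⟨1, true, false, true, [⟨-1, 0, 0, 1, 0⟩, ⟨1, 1, 0, 0, 0⟩]⟩,
   ⟨2, true, false, false, [⟨1, 0, 1, 1, 0⟩, ⟨-1, 1, 0, 1, 0⟩]⟩,
   ⟨2, false, true, true, [⟨1, 0, 1, 0, 0⟩, ⟨-1, 1, 0, 0, 0⟩]⟩]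

def fWc : List Cl :=
  [⟨0, false, true, false, [⟨1, 0, 0, 0, 0⟩]⟩, ⟨1, false, false, true, [⟨-1, 0, 0, 0, 0⟩]⟩,
   ⟨2, false, false, false, [⟨1, 0, 1, 0, 0⟩, ⟨-1, 1, 0, 0, 0⟩]⟩]

theorem fW3_ne (q : Qd) : W q fW3 ≠ 0 := by
  have h := q.w3_ne
  intro h0; apply h; rw [← h0]
  simp [W, fW3, Cl.val, T0.val]; ring

theorem fWc_ne (q : Qd) : W q fWc ≠ 0 := by
  have h := q.wc_ne
  intro h0; apply h; rw [← h0]
  simp [W, fWc, Cl.val, T0.val]; ring

end Pool.Agent.MP_2339ce_nt.Q2.TB
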