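import Pool.Agent.MP_2339ce_nt.Q2.RTP
import Pool.Agent.MP_2339ce_nt.Q2.TBW

/-! Project Q2, block RT: a form of degree five for regular triples. -/

set_option autoImplicit false

noncomputable section

namespace Pool.Agent.MP_2339ce_nt.Q2.TB.RT

def fu (a b r : ℤ) : ℤ :=
    4 * a ^ 3 * b + 3 * a ^ 2 * b ^ 2 + 16 * a ^ 2 * b * r + 12 * a ^ 2 * r ^ 2 +
    10 * a * b * r ^ 2 + 16 * a * r ^ 3 + 3 * r ^ 4

def fv (a b r : ℤ) : ℤ :=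
    2 * a ^ 3 * b ^ 2 + 4 * a ^ 2 * b ^ 3 + 21 * a ^ 2 * b ^ 2 * r + 20 * a ^ 2 * b * r ^ 2 +
    8 * a * b ^ 3 * r + 40 * a * b ^ 2 * r ^ 2 + 50 * a * b * r ^ 3 + 10 * a * r ^ 4 +
    8 * b ^ 2 * r ^ 3 + 20 * b * r ^ 4 + 9 * r ^ 5

def fw (a b r : ℤ) : ℤ :=
    -4 * a ^ 4 * b - 1 * a ^ 3 * b ^ 2 - 20 * a ^ 3 * b * r - 12 * a ^ 3 * r ^ 2 +
    4 * a ^ 2 * b ^ 3 + 13 * a ^ 2 * b ^ 2 * r - 18 * a ^ 2 * b * r ^ 2 - 28 * a ^ 2 * r ^ 3 +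
    8 * a * b ^ 3 * r + 32 * a * b ^ 2 * r ^ 2 + 18 * a * b * r ^ 3 - 13 * a * r ^ 4 +
    8 * b ^ 2 * r ^ 3 + 12 * b * r ^ 4 + 1 * r ^ 5

def gU : List Tm :=
  [tm 16 0 0 4 0, tm 32 1 0 3 0, tm 16 2 0 2 0, tm 16 0 1 2 0, tm 16 1 1 1 0, tm 4 2 1 0 0,
   tm 3 0 2 0 0]

def gV : List Tm :=
  [tm 16 0 0 7 0, tm 64 1 0 6 0, tm 80 2 0 5 0, tm 32 3 0 4 0, tm 40 0 1 5 0, tm 112 1 1 4 0,
   tm 92 2 1 3 0, tm 24 3 1 2 0, tm 32 0 2 3 0, tm 52 1 2 2 0, tm 21 2 2 1 0, tm 2 3 2 0 0,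
   tm 8 0 3 1 0, tm 4 1 3 0 0]

def gW : List Tm :=
  [tm 16 0 0 7 0, tm 48 1 0 6 0, tm 32 2 0 5 0, tm (-32) 3 0 4 0, tm (-48) 4 0 3 0,
   tm (-16) 5 0 2 0, tm 40 0 1 5 0, tm 88 1 1 4 0, tm 44 2 1 3 0, tm (-20) 3 1 2 0,
   tm (-20) 4 1 1 0, tm (-4) 5 1 0 0, tm 32 0 2 3 0, tm 44 1 2 2 0, tm 13 2 2 1 0,
   tm (-1) 3 2 0 0, tm 8 0 3 1 0, tm 4 1 3 0 0]

def g1 : List Tm :=
  [tm 3072 2 0 12 0, tm 18432 3 0 11 0, tm 41984 4 0 10 0, tm 40960 5 0 9 0, tm 1024 6 0 8 0,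
   tm (-38912) 7 0 7 0, tm (-41984) 8 0 6 0, tm (-20480) 9 0 5 0, tm (-4096) 10 0 4 0,
   tm 256 0 1 12 0, tm 1536 1 1 11 0, tm 15616 2 1 10 0, tm 64000 3 1 9 0, tm 114944 4 1 8 0,
   tm 92672 5 1 7 0, tm 8960 6 1 6 0, tm (-45568) 7 1 5 0, tm (-39424) 8 1 4 0,
   tm (-14336) 9 1 3 0, tm (-2048) 10 1 2 0, tm 1280 0 2 10 0, tm 6400 1 2 9 0,
   tm 30720 2 2 8 0, tm 84480 3 2 7 0, tm 113152 4 2 6 0, tm 70656 5 2 5 0, tm 8128 6 2 4 0,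
   tm (-15744) 7 2 3 0, tm (-9792) 8 2 2 0, tm (-2304) 9 2 1 0, tm (-256) 10 2 0 0,
   tm 2624 0 3 8 0, tm 10496 1 3 7 0, tm 29536 2 3 6 0, tm 51872 3 3 5 0, tm 47440 4 3 4 0,
   tm 20672 5 3 3 0, tm 2000 6 3 2 0, tm (-1440) 7 3 1 0, tm (-384) 8 3 0 0, tm 2816 0 4 6 0,
   tm 8448 1 4 5 0, tm 14128 2 4 4 0, tm 14176 3 4 3 0, tm 7496 4 4 2 0, tm 1816 5 4 1 0,
   tm 48 6 4 0 0, tm 1664 0 5 4 0, tm 3328 1 5 3 0, tm 2880 2 5 2 0, tm 1216 3 5 1 0,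
   tm 249 4 5 0 0, tm 512 0 6 2 0, tm 512 1 6 1 0, tm 112 2 6 0 0, tm 64 0 7 0 0]

def g0 : List Tm :=
  [tm 16384 0 0 20 0, tm 163840 1 0 19 0, tm 671744 2 0 18 0, tm 1376256 3 0 17 0,
   tm 1146880 4 0 16 0, tm (-851968) 5 0 15 0, tm (-2981888) 6 0 14 0, tm (-2621440) 7 0 13 0,
   tm (-180224) 8 0 12 0, tm 1474560 9 0 11 0, tm 1261568 10 0 10 0, tm 458752 11 0 9 0,
   tm 65536 12 0 8 0, tm 114688 0 1 18 0, tm 1032192 1 1 17 0, tm 3784704 2 1 16 0,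
   tm 6881280 3 1 15 0, tm 5013504 4 1 14 0, tm (-3440640) 5 1 13 0, tm (-10256384) 6 1 12 0,
   tm (-7864320) 7 1 11 0, tm (-737280) 8 1 10 0, tm 2801664 9 1 9 0, tm 2015232 10 1 8 0,
   tm 589824 11 1 7 0, tm 65536 12 1 6 0, tm 352256 0 2 16 0, tm 2818048 1 2 15 0,
   tm 9109504 2 2 14 0, tm 14450688 3 2 13 0, tm 8984576 4 2 12 0, tm (-5730304) 5 2 11 0,
   tm (-14039040) 6 2 10 0, tm (-9076736) 7 2 9 0, tm (-874496) 8 2 8 0, tm 1986560 9 2 7 0,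
   tm 1161216 10 2 6 0, tm 270336 11 2 5 0, tm 24576 12 2 4 0, tm 622592 0 3 14 0,
   tm 4358144 1 3 13 0, tm 12191744 2 3 12 0, tm 16494592 3 3 11 0, tm 8450048 4 3 10 0,
   tm (-5081088) 5 3 9 0, tm (-9733120) 6 3 8 0, tm (-5066752) 7 3 7 0, tm (-423936) 8 3 6 0,
   tm 645120 9 3 5 0, tm 291840 10 3 4 0, tm 53248 11 3 3 0, tm 4096 12 3 2 0,
   tm 697344 0 4 12 0, tm 4184064 1 4 11 0, tm 9879296 2 4 10 0, tm 11042560 3 4 9 0,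
   tm 4415232 4 4 8 0, tm (-2569728) 5 4 7 0, tm (-3583744) 6 4 6 0, tm (-1403136) 7 4 5 0,
   tm (-87744) 8 4 4 0, tm 92288 9 4 3 0, tm 29504 10 4 2 0, tm 3840 11 4 1 0, tm 256 12 4 0 0,
   tm 513024 0 5 10 0, tm 2565120 1 5 9 0, tm 4934144 2 5 8 0, tm 4345856 3 5 7 0,
   tm 1236352 4 5 6 0, tm (-727936) 5 5 5 0, tm (-663680) 6 5 4 0, tm (-174208) 7 5 3 0,
   tm (-6720) 8 5 2 0, tm 4288 9 5 1 0, tm 640 10 5 0 0, tm 247808 0 6 8 0, tm 991232 1 6 7 0,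
   tm 1471680 2 6 6 0, tm 945728 3 6 5 0, tm 158624 4 6 4 0, tm (-102528) 5 6 3 0,
   tm (-50544) 6 6 2 0, tm (-6864) 7 6 1 0, tm (-80) 8 6 0 0, tm 75776 0 7 6 0,
   tm 227328 1 7 5 0, tm 237632 2 7 4 0, tm 96384 3 7 3 0, tm 5328 4 7 2 0, tm (-4976) 5 7 1 0,
   tm (-760) 6 7 0 0, tm 13312 0 8 4 0, tm 26624 1 8 3 0, tm 16192 2 8 2 0, tm 2880 3 8 1 0,
   tm (-80) 4 8 0 0, tm 1024 0 9 2 0, tm 1024 1 9 1 0, tm 192 2 9 0 0]

def lam : List Tm := [tm 2 0 0 1 0, tm 1 1 0 0 0]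
def ss : List Tm := [tm 1 0 0 1 0, tm 1 1 0 0 0]
def s2 : List Tm := sq ss
def s3 : List Tm := mul ss s2
def s6 : List Tm := sq s3
def pP : List Tm := mul [tm (-1) 6 1 0 0, tm 1 6 0 0 1] (sq (mul lam gU))
def pQ : List Tm := mul [tm (-1) 2 1 0 0, tm 1 0 0 2 1, tm 1 0 1 0 1] (sq gV)
def pR : List Tm :=
  mul [tm (-1) 2 1 0 0, tm 1 0 0 2 1, tm 2 1 0 1 1, tm 1 2 0 0 1, tm 1 0 1 0 1] (sq gW)
def aE : List Tm := mul [tm 4 0 0 3 0, tm 4 1 0 2 0, tm 4 0 1 1 0] ss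
def lhs : List Tm :=
  add (sq (add (add pP pR) (mul [tm (-1) 0 0 0 0] pQ))) (mul (mul [tm (-4) 0 0 0 0] pP) pR)
def rhs : List Tm := mul (mul [tm 1 6 2 0 0] (mul (sq lam) (add aE [tm 1 0 1 0 1])))
  (add g0 (mul [tm 1 0 2 0 1] g1))

theorem c0 : eqL lhs rhs = true := by decide +kernel
theorem c1 : nn 0 0 4 (add gU (mul [tm (-16) 0 0 2 0] s2)) = true := by decide +kernel
theorem c2 : nn 0 0 7 (add gV (mul [tm (-16) 0 0 4 0] s3)) = true := by decide +kernel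
theorem c3 : nn 0 0 7 (add (mul [tm 10 0 0 0 0] gW) (mul [tm (-159) 0 0 4 0] s3)) = true := by
  decide +kernel
theorem c4 : nn2 12 g1 = true := by decide +kernel
theorem c5 : nn 0 0 20 (add g0 [tm (-1) 0 0 20 0]) = true := by decide +kernel
theorem c6 : nn2 12 (add (mul [tm 3108 2 0 6 0, tm 259 0 1 6 0] s6)
    (mul [tm (-1) 0 0 0 0] g1)) = true := by decide +kernel
theorem c7 : nn 0 0 20 (add (mul [tm 16600 0 0 10 0] (mul s6 (sq s2)))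
    (mul [tm (-1) 0 0 0 0] g0)) = true := by decide +kernel

/-- the real inequality at the end -/
theorem fin (N G r s T A B C : ℝ) (N0 : 0 < N) (G0 : 0 < G) (r0 : 0 < r) (T0 : 0 < T)
    (hs : r ≤ s) (hs' : 16 * s ≤ 17 * r) (hN : 1000 * N ≤ r ^ 2) (hG : 20 * G ≤ r ^ 2)
    (h0 : 8 * (N ^ 8 * G) ≤ r ^ 6) (h1 : 2 * (N ^ 6 * r ^ 2) ≤ T ^ 2)
    (h2 : 32768 * (N ^ 4 * r ^ 10) ≤ T ^ 6) (h3 : N ^ 10 * G ^ 2 * T ^ 2 ≤ 3370 * r ^ 14)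
    (hA : A = 259 * (N ^ 5 * G))
    (hB : B = 16600 * (N ^ 3 * r ^ 4 * s ^ 4) + 1038 * (N ^ 4 * G * r ^ 2 * s ^ 2))
    (hC : C = 66470 * (N ^ 2 * r ^ 6 * s ^ 6))
    (h : 16250 * (r ^ 5 * s ^ 2 * T ^ 3) ≤ A * T ^ 4 + B * T ^ 2 + C) : False := by
  have s0 : 0 < s := r0.trans_le hs
  have q1 : r ^ 2 ≤ s ^ 2 := by gcongr
  have q2 : 256 * s ^ 2 ≤ 289 * r ^ 2 := by nlinarith
  have q4 : 65536 * s ^ 4 ≤ 83521 * r ^ 4 := by nlinarith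
  have a1 : N ^ 5 * G * T ≤ 58.06 * r ^ 7 := by
    apply abs_le_of_sq_le_sq' _ (by positivity) |>.2
    have : 0 < r ^ 14 := by positivity
    linarith
  have a2 : 1.414 * (N ^ 3 * r) ≤ T := by
    apply abs_le_of_sq_le_sq' _ T0.le |>.2
    have : 0 < N ^ 6 * r ^ 2 := by positivity
    linarith
  have a3 : 181 * (N ^ 2 * r ^ 5) ≤ T ^ 3 := by
    apply abs_le_of_sq_le_sq' _ (by positivity) |>.2
    have : 0 < N ^ 4 * r ^ 10 := by positivity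
    linarith
  have Z0 : 0 < r ^ 5 * s ^ 2 := by positivity
  have b0 : B ≤ 16601 * (N ^ 3 * r ^ 4 * s ^ 4) := by
    have t1 := mul_le_mul hN (hG.trans q1) (by positivity) (by positivity)
    have t2 := mul_le_mul_of_nonneg_left t1 (show 0 ≤ N ^ 3 * r ^ 2 * s ^ 2 by positivity)
    have : 0 < N ^ 3 * r ^ 4 * s ^ 4 := by positivity
    rw [hB]; linarith
  have bA : A * T ≤ 15038 * (r ^ 5 * s ^ 2) := by
    have := mul_le_mul_of_nonneg_left q1 (show 0 ≤ r ^ 5 by positivity)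
    rw [hA]; linarith
  have bB : B ≤ 13260 * (r ^ 5 * s ^ 2 * T) := by
    have t1 := mul_le_mul_of_nonneg_left q2 (show 0 ≤ N ^ 3 * r ^ 4 * s ^ 2 by positivity)
    have t2 := mul_le_mul_of_nonneg_left a2 Z0.le
    have : 0 < r ^ 5 * s ^ 2 * T := by positivity
    linarith
  have bC : C ≤ 469 * (r ^ 5 * s ^ 2 * T ^ 3) := by
    have t1 := mul_le_mul_of_nonneg_left q4 (show 0 ≤ N ^ 2 * r ^ 6 * s ^ 2 by positivity)
    have t2 := mul_le_mul_of_nonneg_left a3 Z0.le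
    have : 0 < r ^ 5 * s ^ 2 * T ^ 3 := by positivity
    rw [hC]; linarith
  have A0 : 0 < A := by rw [hA]; positivity
  have AB : A * B ≤ 537500 * (r ^ 5 * s ^ 2) ^ 2 := by
    have t1 := mul_le_mul_of_nonneg_left b0 A0.le
    have t2 := mul_le_mul_of_nonneg_left h0 (show 0 ≤ r ^ 4 * s ^ 4 by positivity)
    have : 0 < r ^ 10 * s ^ 4 := by positivity
    rw [hA] at t1 ⊢; linarith
  have T3 : 0 < r ^ 5 * s ^ 2 * T ^ 3 := by positivity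
  have cB := mul_le_mul_of_nonneg_right bB (sq_nonneg T)
  have cA := mul_le_mul_of_nonneg_right bA (show 0 ≤ T ^ 3 by positivity)
  by_cases hc : A * T ≤ 734 * (r ^ 5 * s ^ 2)
  · have := mul_le_mul_of_nonneg_right hc (show 0 ≤ T ^ 3 by positivity)
    linarith
  · have hc' : B ≤ 734 * (r ^ 5 * s ^ 2 * T) := by
      by_contra hb
      have t1 := mul_lt_mul'' (not_le.1 hc) (not_le.1 hb) (by positivity) (by positivity)
      have t2 := mul_le_mul_of_nonneg_right AB T0.le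
      have : 0 < (r ^ 5 * s ^ 2) ^ 2 * T := by positivity
      linarith
    have := mul_le_mul_of_nonneg_right hc' (sq_nonneg T)
    linarith

theorem ident (x : Pt) (hx : x.Pos) :
    ((x.δ - x.β) * x.α ^ 6 * ((x.α + 2 * x.γ) * evL x gU) ^ 2 +
      (((x.α + x.γ) ^ 2 + x.β) * x.δ - x.α ^ 2 * x.β) * evL x gW ^ 2 -
      ((x.γ ^ 2 + x.β) * x.δ - x.α ^ 2 * x.β) * evL x gV ^ 2) ^ 2 -
    4 * ((x.δ - x.β) * x.α ^ 6 * ((x.α + 2 * x.γ) * evL x gU) ^ 2) *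
      ((((x.α + x.γ) ^ 2 + x.β) * x.δ - x.α ^ 2 * x.β) * evL x gW ^ 2) =
    x.α ^ 6 * x.β ^ 2 * (x.α + 2 * x.γ) ^ 2 *
      (4 * x.γ * (x.γ ^ 2 + x.α * x.γ + x.β) * (x.α + x.γ) + x.β * x.δ) *
      (evL x g0 + x.β ^ 2 * x.δ * evL x g1) := by
  have h := (eq_ok x _ _ c0).1
  simp only [lhs, rhs, pP, pQ, pR, aE, lam, ss, evL_add x hx, evL_mul x hx, evL_sq x hx, evL_cons,
    evL_nil, ev_tm] at h
  push_cast at h
  linear_combination h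

theorem bounds (x : Pt) (hx : x.Pos) (h1 : 16 * x.α ≤ x.γ) (h2 : 1000 * x.β ≤ x.γ ^ 2) :
    16 * (x.γ ^ 2 * (x.α + x.γ) ^ 2) ≤ evL x gU ∧ 16 * (x.γ ^ 4 * (x.α + x.γ) ^ 3) ≤ evL x gV ∧
    159 * (x.γ ^ 4 * (x.α + x.γ) ^ 3) ≤ 10 * evL x gW ∧ 0 ≤ evL x g1 ∧ x.γ ^ 20 ≤ evL x g0 ∧
    evL x g1 ≤ 259 * ((x.β + 12 * x.α ^ 2) * x.γ ^ 6 * (x.α + x.γ) ^ 6) ∧
    evL x g0 ≤ 16600 * (x.γ ^ 10 * (x.α + x.γ) ^ 10) := by
  have k1 := nn_ok x hx h1 h2 _ _ _ _ c1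
  have k2 := nn_ok x hx h1 h2 _ _ _ _ c2
  have k3 := nn_ok x hx h1 h2 _ _ _ _ c3
  have k4 := nn2_ok x hx h1 h2 _ _ c4
  have k5 := nn_ok x hx h1 h2 _ _ _ _ c5
  have k6 := nn2_ok x hx h1 h2 _ _ c6
  have k7 := nn_ok x hx h1 h2 _ _ _ _ c7
  simp only [s6, s3, s2, ss, evL_add x hx, evL_mul x hx, evL_sq x hx, evL_cons,
    evL_nil, ev_tm] at k1 k2 k3 k5 k6 k7
  push_cast at k1 k2 k3 k5 k6 k7
  refine ⟨?_, ?_, ?_, k4, ?_, ?_, ?_⟩ <;> linarith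

theorem vals (a b r d : ℤ) (x : Pt) (hx : x = ⟨a, (a * b - r ^ 2 : ℤ), r, (a * d : ℤ), 1⟩) :
    evL x gU = fu a b r ∧ evL x gV = a ^ 2 * fv a b r ∧ evL x gW = a ^ 2 * fw a b r := by
  subst hx
  simp only [gU, gV, gW, fu, fv, fw, evL_cons, evL_nil, ev_tm]
  push_cast
  refine ⟨?_, ?_, ?_⟩ <;> ring

theorem fin2 (a r N D U V W Q G0 G1 : ℝ) (A0 : 0 < a) (R0 : 0 < r) (NN : 0 < N) (D0 : 0 < D)
    (Q0 : 0 ≤ Q) (K2 : 16 * a ≤ r) (K3 : 1000 * N ≤ r ^ 2)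
    (m1 : 16 * (r ^ 2 * (a + r) ^ 2) ≤ U) (m2 : 16 * (r ^ 4 * (a + r) ^ 3) ≤ V)
    (m3 : 159 * (r ^ 4 * (a + r) ^ 3) ≤ 10 * W) (m4 : 0 ≤ G1) (G00 : 0 < G0)
    (m6 : G1 ≤ 259 * ((N + 12 * a ^ 2) * r ^ 6 * (a + r) ^ 6))
    (m7 : G0 ≤ 16600 * (r ^ 10 * (a + r) ^ 10))
    (t1 : 997 * ((r * (a + r)) ^ 2 * D ^ 3) ≤ 1000 * Q ^ 2)
    (e5 : 8 * (U * V * W * Q) ≤ N ^ 2 * (a + 2 * r) *
      (4 * r * (r ^ 2 + a * r + N) * (a + r) + N * D) * (G0 + N ^ 2 * D * G1))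
    (n0 : 8 * (N ^ 8 * (N + 12 * a ^ 2)) ≤ r ^ 6) (n1 : 2 * (N ^ 6 * r ^ 2) ≤ D)
    (n2 : 32768 * (N ^ 4 * r ^ 10) ≤ D ^ 3) (n3 : N ^ 10 * (N + 12 * a ^ 2) ^ 2 * D ≤ 3370 * r ^ 14)
    (n4 : 20 * (N + 12 * a ^ 2) ≤ r ^ 2) : False := by
  obtain ⟨T, T0, rfl⟩ : ∃ T : ℝ, 0 < T ∧ D = T ^ 2 :=
    ⟨√D, Real.sqrt_pos.2 D0, (Real.sq_sqrt D0.le).symm⟩
  have l2 : 4 * r * (r ^ 2 + a * r + N) * (a + r) ≤ 4.004 * (r ^ 2 * (a + r) ^ 2) := by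
    have t1 := mul_le_mul_of_nonneg_left K3 (show (0 : ℝ) ≤ r * (a + r) by positivity)
    have : (0 : ℝ) ≤ r ^ 2 * (a + r) * a := by positivity
    linarith
  have l2' : 0 ≤ 4 * r * (r ^ 2 + a * r + N) * (a + r) := by positivity
  have S0 : 0 < a + r := by positivity
  have S1 : r ≤ a + r := by linarith
  have S2 : 16 * (a + r) ≤ 17 * r := by linarith
  have S3 : a + 2 * r ≤ 2 * (a + r) := by linarith
  have S4 : 0 < a + 2 * r := by linarith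
  have G1' : 0 < N + 12 * a ^ 2 := by positivity
  generalize 4 * r * (r ^ 2 + a * r + N) * (a + r) = E at *
  generalize a + 2 * r = L at *
  generalize a + r = S at *
  generalize N + 12 * a ^ 2 = G at *
  have l1 : 0.9984 * (r * S * T ^ 3) ≤ Q := by
    apply abs_le_of_sq_le_sq' _ Q0 |>.2
    have : 0 < (r * S) ^ 2 * T ^ 6 := by positivity
    linarith
  have m3' : 15.9 * (r ^ 4 * S ^ 3) ≤ W := by linarith
  have U0 : 0 ≤ U := le_trans (by positivity) m1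
  have V0 : 0 ≤ V := le_trans (by positivity) m2
  have W0 : 0 ≤ W := le_trans (by positivity) m3'
  have j1 := mul_le_mul (mul_le_mul (mul_le_mul m1 m2 (by positivity) U0) m3' (by positivity)
    (mul_nonneg U0 V0)) l1 (by positivity) (mul_nonneg (mul_nonneg U0 V0) W0)
  have j2 : N ^ 2 * L * (E + N * T ^ 2) * (G0 + N ^ 2 * T ^ 2 * G1) ≤
      N ^ 2 * (2 * S) * (4.004 * (r ^ 2 * S ^ 2) + N * T ^ 2) *
      (16600 * (r ^ 10 * S ^ 10) + N ^ 2 * T ^ 2 * (259 * (G * r ^ 6 * S ^ 6))) := by gcongr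
  refine fin N G r S T _ _ _ NN G1' R0 T0 S1 S2 K3 n4 n0 n1 (by linarith) n3 rfl rfl rfl ?_
  apply le_of_mul_le_mul_left _ (show (0 : ℝ) < 2 * (r ^ 6 * S ^ 7) by positivity)
  have p1 : 0 < r ^ 11 * S ^ 9 * T ^ 3 := by positivity
  have p2 : 0 < N ^ 4 * G * r ^ 8 * S ^ 9 * T ^ 2 := by positivity
  have p3 : 0 < N ^ 2 * r ^ 12 * S ^ 13 := by positivity
  linarith

theorem posl {u v : ℝ} (h : 0 < u * v) (hu : 0 < u) : 0 < v := (pos_iff_pos_of_mul_pos h).1 hu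

/-- the window of the form of degree five -/
theorem f5_win (q : Qd) (hc : q.c = q.a + q.b + 2 * q.r) (h : 1024 * q.N ≤ q.a * q.b)
    (ha : 257 * q.a ≤ q.b) (h0 : 9 * (q.N ^ 8 * (q.N + 12 * q.a ^ 2)) ≤ (q.a * q.b) ^ 3)
    (h1 : 2 * (q.N ^ 6 * q.b) ≤ q.d) (h2 : 32768 * (q.N ^ 4 * q.a ^ 2 * q.b ^ 5) ≤ q.d ^ 3)
    (h3 : q.N ^ 10 * (q.N + 12 * q.a ^ 2) ^ 2 * q.d ≤ 3340 * (q.a ^ 6 * q.b ^ 7)) : False := by
  have e := q.est h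
  have xyz := e.xyz
  unfold Qd.P at xyz
  obtain ⟨N, a, b, c, d, r, s, t, x, y, z, hN, h1a, hab, hbc, hcd, r0, s0, t0, x0, y0, z0,
    hr, hs, ht, hx, hy, hz⟩ := q
  simp only at *
  clear e
  have a0 : 0 < a := by omega
  have b0 : 0 < b := by omega
  have d0 : 0 < d := by omega
  have N0 : 0 < N := by omega
  have k1 : 1023 * (a * b) ≤ 1024 * r ^ 2 := by omega
  have k2 : 16 * a ≤ r := by
    apply abs_le_of_sq_le_sq' _ r0 |>.2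
    nlinarith
  have k3 : 1000 * N ≤ r ^ 2 := by omega
  have k4 : r ^ 2 ≤ a * b := by omega
  have rp : 0 < r := by omega
  have g0' : 8 * (N ^ 8 * (N + 12 * a ^ 2)) ≤ r ^ 6 := by
    have := pow_le_pow_left₀ (by positivity) k1 3
    have : 0 < N ^ 8 * (N + 12 * a ^ 2) := by positivity
    linarith
  have g1' : 2 * (N ^ 6 * r ^ 2) ≤ a * d := by
    have t1 := mul_le_mul_of_nonneg_left h1 a0.le
    have t2 := mul_le_mul_of_nonneg_left k4 (show 0 ≤ N ^ 6 by positivity)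
    linarith
  have g2' : 32768 * (N ^ 4 * r ^ 10) ≤ (a * d) ^ 3 := by
    have t1 := mul_le_mul_of_nonneg_left h2 (show 0 ≤ a ^ 3 by positivity)
    have t2 := mul_le_mul_of_nonneg_left (pow_le_pow_left₀ (by positivity) k4 5)
      (show 0 ≤ N ^ 4 by positivity)
    linarith
  have g3' : N ^ 10 * (N + 12 * a ^ 2) ^ 2 * (a * d) ≤ 3370 * r ^ 14 := by
    have t1 := mul_le_mul_of_nonneg_left h3 a0.le
    have t2 := pow_le_pow_left₀ (by positivity) k1 7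
    have : 0 < r ^ 14 := by positivity
    linarith
  have g4' : 20 * (N + 12 * a ^ 2) ≤ r ^ 2 := by nlinarith
  have g5' : 997 * ((r * (a + r)) ^ 2 * (a * d) ^ 3) ≤ 1000 * (a ^ 2 * (x * y * z)) ^ 2 := by
    have t0 : (a + r) ^ 2 ≤ a * c := by rw [hc]; nlinarith
    have t1 := mul_le_mul k4 t0 (by positivity) (by positivity)
    have t2 := mul_le_mul_of_nonneg_right t1 (show 0 ≤ (a * d) ^ 3 by positivity)
    have t3 := mul_le_mul_of_nonneg_left xyz (show 0 ≤ a ^ 4 by positivity)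
    linarith
  obtain rfl : N = a * b - r ^ 2 := by omega
  obtain ⟨X, hX⟩ : ∃ X : Pt, X = ⟨a, (a * b - r ^ 2 : ℤ), r, (a * d : ℤ), 1⟩ := ⟨_, rfl⟩
  have xp : X.Pos := by
    subst hX
    exact ⟨Int.cast_pos.2 a0, Int.cast_pos.2 N0, Int.cast_pos.2 rp, Int.cast_pos.2 (mul_pos a0 d0),
      one_pos⟩
  obtain ⟨v1, v2, v3⟩ := vals a b r d X hX
  obtain ⟨m1, m2, m3, m4, m5, m6, m7⟩ := bounds X xp (by subst hX; dsimp only; exact_mod_cast k2)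
    (by subst hX; dsimp only; exact_mod_cast k3)
  have id := ident X xp
  rw [v1] at m1 id; rw [v2] at m2 id; rw [v3] at m3 id
  generalize evL X g0 = G0 at *
  generalize evL X g1 = G1 at *
  generalize fu a b r = U at *
  generalize fv a b r = V at *
  generalize fw a b r = W at *
  subst hX
  simp only at m1 m2 m3 m5 m6 m7 id
  generalize hN' : a * b - r ^ 2 = N at *
  have A0 : (0 : ℝ) < a := by exact_mod_cast a0
  have R0 : (0 : ℝ) < r := by exact_mod_cast rp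
  have NN : (0 : ℝ) < N := by exact_mod_cast N0
  have D0 : (0 : ℝ) < (a * d : ℤ) := by exact_mod_cast mul_pos a0 d0
  have U0 : (0 : ℝ) < U := lt_of_lt_of_le (by positivity) m1
  have V0 : (0 : ℝ) < V := posl (lt_of_lt_of_le (by positivity) m2) (by positivity)
  have W0 : (0 : ℝ) < W := posl
    (posl (lt_of_lt_of_le (by positivity) m3) (by positivity)) (by positivity)
  have G00 : 0 < G0 := lt_of_lt_of_le (by positivity) m5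
  have e1 : (a : ℝ) ^ 12 * (He (((a + 2 * r) * U * x) ^ 2) ((V * y) ^ 2) ((W * z) ^ 2) : ℤ) =
      (a : ℝ) ^ 6 * N ^ 2 * (a + 2 * r) ^ 2 *
      (4 * r * (r ^ 2 + a * r + N) * (a + r) + N * (a * d : ℤ)) *
      (G0 + N ^ 2 * (a * d : ℤ) * G1) := by
    rw [← id]
    simp only [He, mul_pow, hx, hy, hz, hc, ← hN']
    push_cast; ring
  have e2 : 0 < He (((a + 2 * r) * U * x) ^ 2) ((V * y) ^ 2) ((W * z) ^ 2) := by
    have : (0 : ℝ) < (a : ℝ) ^ 12 *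
        (He (((a + 2 * r) * U * x) ^ 2) ((V * y) ^ 2) ((W * z) ^ 2) : ℤ) := by rw [e1]; positivity
    exact_mod_cast posl this (by positivity)
  have U1 : 0 < U := by exact_mod_cast U0
  have V1 : 0 < V := by exact_mod_cast V0
  have W1 : 0 < W := by exact_mod_cast W0
  have e3 := he_ge _ _ _ (by positivity) (by positivity) (by positivity) e2
  have e4 : (a : ℝ) ^ 12 * (8 * ((a + 2 * r) * U * x * (V * y) * (W * z))) ≤ (a : ℝ) ^ 12 *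
      (He (((a + 2 * r) * U * x) ^ 2) ((V * y) ^ 2) ((W * z) ^ 2) : ℤ) :=
    mul_le_mul_of_nonneg_left (by exact_mod_cast e3) (by positivity)
  rw [e1] at e4
  have e5 : 8 * (U * (a ^ 2 * V) * (a ^ 2 * W) * (a ^ 2 * (x * y * z)) : ℝ) ≤ N ^ 2 * (a + 2 * r) *
      (4 * r * (r ^ 2 + a * r + N) * (a + r) + N * (a * d : ℤ)) *
      (G0 + N ^ 2 * (a * d : ℤ) * G1) := by
    apply le_of_mul_le_mul_left _ (show (0 : ℝ) < a ^ 6 * (a + 2 * r) by positivity)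
    linarith
  exact fin2 a r N (a * d : ℤ) U (a ^ 2 * V) (a ^ 2 * W) (a ^ 2 * (x * y * z)) G0 G1 A0 R0 NN D0
    (by exact_mod_cast (by positivity : 0 ≤ a ^ 2 * (x * y * z))) (by exact_mod_cast k2)
    (by exact_mod_cast k3) m1 m2 m3 m4 G00 m6 m7 (by exact_mod_cast g5') e5
    (by exact_mod_cast g0') (by exact_mod_cast g1') (by exact_mod_cast g2')
    (by exact_mod_cast g3') (by exact_mod_cast g4')

end Pool.Agent.MP_2339ce_nt.Q2.TB.RT
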