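import Pool.Agent.MP_2339ce_nt.Q2.RTc
import Pool.Agent.MP_2339ce_nt.Q2.RS

/-! Project Q2, block RT: staircases. -/

set_option autoImplicit false

noncomputable section

namespace Pool.Agent.MP_2339ce_nt.Q2.TB.RT

noncomputable def ca1_0 : List VW := k8 v416 v144 v418 v149 v426 v160 v441 v167 (k8 v452 v174 v464 v180 v469 v186 v476 v190 (k8 v480 v195 v485 v199 v488 v202 v493 v205 (k8 v496 v207 v212 v214 v218 v220 v224 v226 (k8 v229 v230 v232 v233 v235 v237 v239 v241 (k8 v244 v245 v247 v249 v251 v252 v254 v255 (k1 v256 (k1 v257 (k1 v259 (k1 v603 (k0))))))))))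
noncomputable def ca1_1 : List VW := k1 v1 (k1 v144 (k1 v418 (k1 v433 (k1 v160 (k1 v167 (k1 v586 (k0)))))))
noncomputable def ca1_2 : List VW := k1 v146 (k1 v0 (k1 v149 (k1 v160 (k1 v167 (k1 v586 (k0))))))
noncomputable def ca1_3 : List VW := k8 v1 v144 v422 v149 v426 v160 v441 v167 (k8 v452 v174 v464 v180 v469 v186 v476 v190 (k8 v480 v195 v485 v199 v488 v202 v493 v205 (k8 v496 v504 v212 v214 v511 v217 v220 v224 (k8 v226 v229 v230 v232 v233 v235 v237 v239 (k8 v241 v244 v245 v247 v249 v251 v252 v254 (k1 v255 (k1 v256 (k1 v257 (k1 v259 (k1 v603 (k0)))))))))))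
noncomputable def ca1_4 : List VW := k8 v416 v144 v422 v149 v426 v160 v441 v167 (k8 v452 v174 v464 v180 v469 v186 v476 v190 (k8 v480 v195 v485 v199 v488 v202 v493 v205 (k8 v496 v207 v212 v214 v218 v220 v224 v226 (k8 v229 v230 v232 v233 v235 v237 v239 v241 (k8 v244 v245 v247 v249 v251 v252 v254 v255 (k1 v256 (k1 v257 (k1 v259 (k1 v260 (k1 v261 (k1 v604 (k0))))))))))))
noncomputable def ca1_5 : List VW := k8 v416 v144 v421 v149 v426 v160 v441 v167 (k8 v452 v174 v464 v180 v469 v186 v476 v190 (k8 v480 v195 v485 v199 v488 v202 v493 v205 (k8 v496 v207 v212 v214 v218 v220 v224 v226 (k8 v228 v230 v232 v233 v235 v237 v239 v241 (k8 v244 v245 v247 v249 v251 v252 v254 v255 (k1 v256 (k1 v257 (k1 v259 (k1 v603 (k0))))))))))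
noncomputable def ca1_6 : List VW := k8 v416 v144 v421 v149 v426 v160 v441 v167 (k8 v452 v174 v464 v180 v469 v186 v476 v190 (k8 v480 v195 v485 v199 v488 v202 v493 v499 (k8 v208 v212 v214 v218 v220 v224 v226 v228 (k8 v230 v232 v233 v235 v237 v239 v241 v243 (k1 v245 (k1 v247 (k1 v249 (k1 v251 (k1 v600 (k0))))))))))
noncomputable def ca1_7 : List VW := k8 v1 v144 v417 v418 v149 v426 v160 v441 (k8 v167 v452 v174 v464 v180 v469 v186 v476 (k8 v190 v480 v195 v485 v199 v488 v202 v493 (k8 v205 v496 v504 v212 v214 v511 v217 v220 (k8 v224 v226 v229 v230 v232 v233 v235 v237 (k8 v239 v241 v244 v245 v247 v249 v251 v252 (k1 v254 (k1 v255 (k1 v256 (k1 v257 (k1 v259 (k1 v603 (k0))))))))))))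
noncomputable def ca1_8 : List VW := k8 v1 v144 v417 v418 v149 v426 v160 v441 (k8 v167 v452 v174 v464 v180 v469 v186 v476 (k8 v190 v480 v195 v485 v199 v488 v202 v493 (k8 v205 v496 v207 v212 v214 v218 v220 v224 (k8 v226 v228 v230 v232 v233 v235 v237 v239 (k8 v241 v244 v245 v247 v249 v251 v252 v254 (k1 v255 (k1 v256 (k1 v257 (k1 v259 (k1 v260 (k1 v261 (k1 v604 (k0)))))))))))))
noncomputable def ca1_9 : List VW := k8 v1 v147 v422 v149 v426 v160 v441 v167 (k8 v452 v174 v464 v180 v469 v186 v476 v190 (k8 v480 v195 v485 v199 v488 v202 v493 v205 (k8 v496 v207 v212 v214 v218 v220 v224 v226 (k8 v228 v230 v232 v233 v235 v237 v239 v241 (k8 v243 v245 v247 v249 v251 v252 v254 v255 (k1 v256 (k1 v257 (k1 v259 (k1 v603 (k0))))))))))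
noncomputable def ca1_10 : List VW := k8 v1 v147 v422 v149 v426 v160 v441 v167 (k8 v452 v174 v464 v180 v469 v186 v476 v190 (k8 v480 v195 v485 v199 v488 v202 v493 v205 (k8 v496 v207 v212 v214 v218 v220 v224 v226 (k8 v228 v230 v232 v233 v235 v237 v239 v241 (k8 v243 v245 v247 v249 v251 v252 v254 v601 (k0))))))
noncomputable def ca1_11 : List VW := k1 v1 (k1 v144 (k1 v420 (k1 v434 (k1 v160 (k1 v167 (k1 v586 (k0)))))))
noncomputable def ca1_12 : List VW := k8 v1 v144 v417 v418 v151 v427 v160 v441 (k8 v167 v452 v174 v464 v180 v469 v186 v476 (k8 v190 v480 v195 v485 v199 v488 v202 v493 (k8 v205 v496 v207 v212 v214 v218 v220 v224 (k8 v226 v228 v230 v232 v233 v235 v237 v239 (k8 v241 v243 v245 v247 v249 v251 v252 v254 (k1 v255 (k1 v256 (k1 v602 (k0)))))))))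
noncomputable def ca1_13 : List VW := k8 v1 v144 v417 v421 v151 v427 v160 v442 (k8 v167 v452 v174 v464 v180 v469 v186 v476 (k8 v190 v480 v195 v485 v199 v488 v202 v493 (k8 v205 v496 v207 v212 v214 v218 v220 v224 (k8 v226 v228 v230 v232 v233 v235 v237 v239 (k8 v241 v243 v245 v247 v249 v251 v252 v254 (k1 v255 (k1 v256 (k1 v257 (k1 v259 (k1 v260 (k1 v261 (k1 v604 (k0)))))))))))))
noncomputable def ca1_14 : List VW := k8 v1 v144 v417 v419 v151 v427 v160 v441 (k8 v167 v452 v174 v464 v180 v469 v186 v476 (k8 v190 v480 v195 v485 v199 v488 v202 v493 (k8 v205 v496 v207 v212 v214 v218 v220 v224 (k8 v226 v228 v230 v232 v233 v235 v237 v239 (k8 v241 v243 v245 v247 v249 v251 v252 v254 (k1 v255 (k1 v256 (k1 v257 (k1 v259 (k1 v603 (k0)))))))))))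
noncomputable def ca1_15 : List VW := k8 v1 v144 v417 v418 v149 v427 v160 v441 (k8 v167 v452 v174 v464 v180 v469 v186 v476 (k8 v190 v480 v195 v485 v199 v488 v202 v493 (k8 v205 v496 v207 v212 v214 v218 v220 v224 (k8 v226 v228 v230 v232 v233 v235 v237 v239 (k8 v241 v243 v245 v247 v249 v251 v252 v254 (k1 v601 (k0)))))))
noncomputable def ca1_16 : List VW := k8 v1 v144 v418 v149 v152 v160 v167 v586 (k0)
noncomputable def ca1_17 : List VW := k8 v1 v144 v417 v421 v149 v433 v426 v160 (k8 v443 v167 v452 v174 v464 v180 v470 v186 (k8 v476 v190 v480 v195 v485 v199 v488 v202 (k8 v493 v205 v496 v504 v212 v214 v218 v220 (k8 v224 v226 v228 v230 v232 v233 v235 v237 (k8 v239 v241 v243 v245 v247 v249 v251 v252 (k1 v254 (k1 v255 (k1 v256 (k1 v602 (k0))))))))))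
noncomputable def ca1_18 : List VW := k8 v1 v144 v417 v421 v149 v433 v426 v160 (k8 v443 v167 v453 v174 v464 v180 v470 v186 (k8 v476 v190 v480 v195 v485 v199 v488 v202 (k8 v493 v205 v496 v207 v502 v211 v214 v511 (k8 v217 v220 v224 v226 v228 v230 v232 v233 (k8 v235 v237 v239 v241 v243 v245 v247 v249 (k8 v251 v252 v254 v255 v256 v257 v259 v260 (k1 v261 (k1 v604 (k0)))))))))
noncomputable def ca1_19 : List VW := k8 v1 v144 v417 v422 v149 v433 v426 v160 (k8 v443 v167 v453 v174 v464 v180 v470 v186 (k8 v476 v190 v480 v195 v485 v199 v488 v202 (k8 v493 v205 v496 v207 v502 v211 v214 v218 (k8 v220 v224 v226 v228 v230 v232 v233 v235 (k8 v237 v239 v241 v243 v245 v247 v249 v251 (k8 v252 v254 v255 v256 v257 v259 v260 v261 (k1 v604 (k0))))))))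
noncomputable def ca1_20 : List VW := k8 v1 v144 v417 v421 v149 v433 v426 v160 (k8 v442 v167 v452 v174 v464 v180 v470 v186 (k8 v476 v190 v480 v195 v485 v199 v488 v202 (k8 v493 v205 v496 v207 v212 v214 v218 v220 (k8 v224 v226 v228 v230 v232 v233 v235 v237 (k8 v239 v241 v243 v245 v247 v249 v251 v252 (k1 v254 (k1 v255 (k1 v256 (k1 v257 (k1 v259 (k1 v603 (k0))))))))))))
noncomputable def ca1_21 : List VW := k8 v1 v144 v417 v419 v151 v427 v160 v442 (k8 v167 v452 v174 v464 v180 v469 v186 v476 (k8 v190 v480 v195 v485 v199 v488 v202 v493 (k8 v205 v496 v207 v212 v214 v218 v220 v224 (k8 v226 v228 v230 v232 v233 v235 v237 v239 (k8 v241 v243 v245 v247 v249 v251 v252 v254 (k1 v601 (k0)))))))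
noncomputable def ca1_22 : List VW := k8 v1 v144 v423 v418 v149 v433 v426 v160 (k8 v443 v167 v460 v452 v174 v464 v180 v470 (k8 v186 v476 v190 v480 v195 v485 v199 v488 (k8 v202 v493 v205 v496 v207 v502 v211 v214 (k8 v511 v217 v220 v224 v226 v228 v230 v231 (k8 v233 v235 v237 v239 v241 v243 v245 v247 (k8 v249 v251 v252 v254 v255 v256 v257 v259 (k1 v603 (k0))))))))
noncomputable def ca1_23 : List VW := k8 v1 v144 v423 v418 v149 v433 v426 v160 (k8 v443 v167 v460 v452 v174 v464 v180 v470 (k8 v186 v476 v190 v480 v195 v485 v199 v488 (k8 v202 v493 v205 v496 v207 v502 v211 v214 (k8 v511 v217 v220 v224 v226 v228 v230 v231 (k8 v233 v235 v237 v239 v241 v243 v245 v247 (k8 v249 v251 v252 v254 v255 v256 v257 v259 (k1 v260 (k1 v261 (k1 v604 (k0))))))))))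
noncomputable def ca1_24 : List VW := k8 v1 v144 v423 v418 v149 v433 v426 v160 (k8 v443 v169 v453 v174 v464 v180 v470 v186 (k8 v476 v190 v480 v195 v485 v199 v488 v202 (k8 v493 v205 v496 v207 v502 v211 v214 v511 (k8 v217 v220 v224 v226 v228 v230 v231 v233 (k8 v235 v237 v239 v241 v243 v245 v247 v249 (k8 v251 v252 v254 v255 v256 v257 v259 v260 (k1 v261 (k1 v604 (k0)))))))))
noncomputable def ca1_25 : List VW := k8 v1 v144 v423 v418 v149 v433 v426 v160 (k8 v443 v169 v453 v174 v464 v180 v470 v186 (k8 v476 v190 v480 v195 v485 v199 v488 v202 (k8 v493 v205 v496 v207 v502 v211 v214 v218 (k8 v220 v224 v226 v228 v230 v232 v233 v235 (k8 v237 v239 v241 v243 v245 v247 v249 v251 (k8 v252 v254 v255 v256 v257 v259 v260 v261 (k1 v604 (k0))))))))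
noncomputable def ca1_26 : List VW := k8 v1 v147 v423 v418 v149 v433 v426 v161 (k8 v444 v167 v460 v452 v174 v464 v180 v470 (k8 v186 v476 v190 v481 v195 v485 v199 v489 (k8 v202 v493 v205 v496 v207 v502 v211 v214 (k8 v511 v217 v220 v518 v223 v225 v524 v228 (k8 v230 v528 v231 v233 v235 v237 v239 v241 (k8 v243 v245 v247 v249 v251 v252 v254 v255 (k1 v256 (k1 v257 (k1 v259 (k1 v603 (k0)))))))))))
noncomputable def ca1_27 : List VW := k8 v1 v147 v423 v418 v149 v433 v426 v161 (k8 v444 v167 v460 v452 v174 v464 v180 v470 (k8 v186 v476 v190 v481 v195 v485 v199 v489 (k8 v202 v493 v205 v496 v207 v502 v211 v214 (k8 v511 v217 v220 v518 v223 v225 v524 v228 (k8 v230 v231 v233 v235 v237 v239 v241 v243 (k8 v245 v247 v249 v251 v252 v254 v255 v256 (k1 v257 (k1 v259 (k1 v260 (k1 v261 (k1 v604 (k0))))))))))))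
noncomputable def ca1_28 : List VW := k8 v1 v147 v423 v418 v149 v433 v426 v161 (k8 v444 v167 v460 v452 v174 v464 v180 v470 (k8 v186 v476 v190 v481 v195 v485 v199 v488 (k8 v202 v493 v205 v496 v207 v502 v211 v214 (k8 v511 v217 v220 v518 v223 v225 v228 v230 (k8 v231 v233 v235 v237 v239 v241 v243 v245 (k8 v247 v249 v251 v252 v254 v255 v256 v257 (k1 v259 (k1 v260 (k1 v261 (k1 v604 (k0)))))))))))
noncomputable def ca1_29 : List VW := k8 v1 v144 v423 v418 v149 v433 v426 v161 (k8 v444 v167 v460 v452 v174 v464 v180 v470 (k8 v186 v476 v190 v481 v195 v485 v199 v488 (k8 v202 v493 v205 v496 v207 v502 v211 v214 (k8 v511 v217 v220 v518 v223 v225 v228 v230 (k8 v231 v233 v235 v237 v239 v241 v243 v245 (k8 v247 v249 v251 v252 v254 v255 v256 v257 (k1 v259 (k1 v260 (k1 v261 (k1 v604 (k0)))))))))))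
noncomputable def ca1_30 : List VW := k8 v1 v144 v423 v418 v149 v433 v426 v160 (k8 v444 v167 v460 v452 v174 v464 v180 v470 (k8 v186 v476 v190 v481 v195 v485 v199 v488 (k8 v202 v493 v205 v496 v207 v502 v211 v214 (k8 v511 v217 v220 v518 v223 v226 v228 v230 (k8 v232 v233 v235 v237 v239 v241 v243 v245 (k8 v247 v249 v251 v252 v254 v255 v256 v257 (k1 v259 (k1 v260 (k1 v261 (k1 v604 (k0)))))))))))
noncomputable def ca1_31 : List VW := k8 v1 v144 v417 v419 v149 v426 v160 v441 (k8 v167 v452 v174 v464 v180 v184 v186 v476 (k1 v190 (k1 v196 (k1 v200 (k1 v589 (k0))))))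
noncomputable def ca1_32 : List VW := k8 v1 v144 v274 v423 v0 v149 v433 v291 (k8 v158 v160 v446 v441 v167 v460 v452 v174 (k8 v464 v182 v470 v186 v476 v190 v481 v195 (k8 v485 v199 v79 v202 v493 v205 v497 v207 (k8 v502 v211 v213 v511 v217 v219 v518 v223 (k8 v225 v524 v228 v230 v528 v231 v233 v531 (k8 v532 v536 v239 v241 v541 v543 v544 v545 (k1 v546 (k1 v252 (k1 v254 (k1 v255 (k1 v256 (k1 v602 (k0)))))))))))))
noncomputable def ca1_33 : List VW := k8 v1 v144 v274 v423 v0 v149 v433 v559 (k8 v158 v160 v446 v441 v167 v460 v452 v174 (k8 v465 v182 v470 v186 v476 v190 v481 v195 (k8 v485 v199 v489 v202 v493 v205 v497 v207 (k8 v502 v211 v213 v511 v217 v219 v518 v223 (k8 v225 v524 v228 v230 v528 v231 v233 v531 (k8 v532 v536 v239 v241 v541 v543 v544 v545 (k8 v546 v252 v254 v255 v256 v257 v259 v260 (k1 v261 (k1 v604 (k0))))))))))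
noncomputable def ca1_34 : List VW := k8 v1 v144 v274 v423 v0 v149 v433 v426 (k8 v160 v446 v441 v167 v460 v452 v174 v465 (k8 v180 v470 v186 v476 v190 v481 v195 v485 (k8 v199 v489 v202 v493 v205 v497 v207 v502 (k8 v211 v213 v511 v217 v219 v518 v223 v225 (k8 v524 v228 v230 v528 v231 v233 v531 v532 (k8 v536 v239 v241 v541 v543 v544 v545 v546 (k8 v252 v254 v255 v256 v257 v259 v260 v261 (k1 v604 (k0)))))))))
noncomputable def ca1_35 : List VW := k8 v1 v144 v274 v423 v0 v149 v433 v426 (k8 v160 v446 v441 v167 v460 v452 v174 v465 (k8 v180 v470 v186 v476 v190 v481 v195 v485 (k8 v199 v489 v202 v493 v205 v497 v207 v502 (k8 v211 v213 v511 v217 v219 v518 v223 v225 (k8 v524 v228 v230 v528 v231 v233 v531 v235 (k8 v237 v239 v241 v243 v245 v247 v249 v251 (k8 v252 v254 v255 v256 v257 v259 v260 v261 (k1 v604 (k0)))))))))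
noncomputable def ca1_36 : List VW := k8 v1 v144 v274 v423 v0 v149 v433 v426 (k8 v160 v446 v441 v167 v460 v452 v174 v465 (k8 v180 v470 v186 v476 v190 v481 v195 v485 (k8 v199 v489 v202 v493 v205 v497 v207 v502 (k8 v211 v213 v511 v217 v219 v518 v223 v225 (k8 v524 v228 v230 v528 v231 v233 v235 v237 (k8 v239 v241 v243 v245 v247 v249 v251 v252 (k8 v254 v255 v256 v257 v259 v260 v261 v604 (k0))))))))
noncomputable def ca1_37 : List VW := k8 v1 v144 v274 v423 v418 v149 v433 v426 (k8 v160 v446 v441 v167 v460 v452 v174 v465 (k8 v180 v470 v186 v476 v190 v481 v195 v485 (k8 v199 v489 v202 v493 v205 v497 v207 v502 (k8 v211 v214 v511 v217 v220 v518 v223 v225 (k8 v524 v228 v230 v528 v231 v233 v235 v237 (k8 v239 v241 v243 v245 v247 v249 v251 v252 (k8 v254 v255 v256 v257 v259 v260 v261 v604 (k0))))))))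
noncomputable def ca1_38 : List VW := k8 v1 v147 v423 v418 v149 v433 v426 v160 (k8 v446 v441 v167 v460 v452 v174 v465 v180 (k8 v470 v186 v476 v190 v481 v195 v485 v199 (k8 v489 v202 v493 v205 v496 v207 v502 v211 (k8 v214 v511 v217 v220 v518 v223 v225 v524 (k8 v228 v230 v528 v231 v233 v235 v237 v239 (k8 v241 v243 v245 v247 v249 v251 v252 v254 (k1 v255 (k1 v256 (k1 v257 (k1 v259 (k1 v260 (k1 v261 (k1 v604 (k0))))))))))))))
noncomputable def ca1_39 : List VW := k8 v1 v147 v423 v418 v149 v433 v426 v160 (k8 v436 v444 v167 v460 v452 v174 v465 v180 (k8 v470 v186 v476 v190 v481 v195 v485 v199 (k8 v489 v202 v493 v205 v496 v207 v502 v211 (k8 v214 v511 v217 v220 v518 v223 v225 v524 (k8 v228 v230 v528 v231 v233 v235 v237 v239 (k8 v241 v243 v245 v247 v249 v251 v252 v254 (k1 v255 (k1 v256 (k1 v257 (k1 v259 (k1 v260 (k1 v261 (k1 v604 (k0))))))))))))))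
noncomputable def ca1_40 : List VW := k8 v1 v147 v423 v418 v149 v433 v426 v161 (k8 v444 v167 v460 v452 v174 v464 v180 v470 (k8 v186 v476 v190 v481 v195 v485 v199 v489 (k8 v202 v493 v205 v496 v207 v502 v211 v213 (k8 v511 v217 v219 v518 v223 v225 v524 v228 (k8 v230 v231 v233 v235 v237 v239 v241 v243 (k1 v245 (k1 v247 (k1 v599 (k0)))))))))
noncomputable def ca1_41 : List VW := k8 v1 v144 v423 v0 v149 v433 v158 v160 (k8 v443 v167 v452 v174 v464 v180 v185 v186 (k8 v476 v190 v194 v195 v200 v203 v493 v205 (k1 v208 (k1 v502 (k1 v211 (k1 v213 (k1 v511 (k1 v592 (k0)))))))))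
noncomputable def ca1_42 : List VW := k8 v4 v144 v275 v0 v2 v10 v429 v560 (k8 v21 v160 v307 v264 v27 v165 v329 v42 (k8 v174 v338 v266 v51 v472 v59 v186 v62 (k8 v475 v63 v189 v71 v195 v484 v198 v78 (k8 v202 v492 v377 v86 v207 v501 v210 v213 (k8 v510 v99 v219 v103 v106 v107 v523 v111 (k8 v230 v112 v114 v233 v119 v237 v125 v241 (k8 v128 v129 v544 v249 v134 v135 v548 v601 (k0))))))))
noncomputable def ca1_43 : List VW := k8 v278 v144 v275 v274 v0 v149 v433 v293 (k8 v157 v160 v307 v167 v329 v43 v174 v338 (k8 v182 v58 v183 v186 v67 v192 v71 v195 (k8 v364 v200 v79 v202 v493 v205 v207 v502 (k8 v211 v213 v511 v99 v219 v518 v106 v225 (k8 v524 v111 v230 v528 v114 v233 v531 v119 (k8 v237 v536 v125 v241 v541 v246 v132 v249 (k1 v134 (k1 v252 (k1 v136 (k1 v601 (k0)))))))))))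
noncomputable def ca1_44 : List VW := k8 v278 v144 v275 v274 v280 v149 v433 v293 (k8 v157 v161 v307 v169 v329 v563 v173 v178 (k8 v464 v182 v473 v183 v188 v352 v67 v192 (k8 v71 v195 v485 v199 v79 v202 v493 v205 (k8 v86 v207 v502 v211 v213 v511 v217 v219 (k8 v518 v223 v225 v524 v111 v230 v528 v114 (k8 v233 v531 v119 v237 v536 v239 v241 v541 (k8 v243 v245 v544 v247 v249 v546 v252 v549 (k1 v255 (k1 v553 (k1 v257 (k1 v556 (k1 v260 (k1 v558 (k1 v604 (k0)))))))))))))))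
noncomputable def ca1_45 : List VW := k8 v277 v147 v274 v279 v149 v433 v292 v157 (k8 v161 v312 v167 v462 v562 v171 v174 v464 (k8 v182 v473 v184 v186 v476 v192 v190 v71 (k8 v195 v485 v199 v79 v202 v493 v205 v86 (k8 v207 v502 v211 v213 v511 v217 v219 v518 (k8 v223 v225 v524 v228 v230 v528 v114 v233 (k8 v531 v235 v237 v536 v239 v241 v541 v243 (k8 v245 v544 v247 v249 v546 v252 v254 v255 (k1 v256 (k1 v257 (k1 v259 (k1 v603 (k0))))))))))))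
noncomputable def ca1_46 : List VW := k8 v277 v147 v274 v284 v149 v433 v292 v157 (k8 v160 v446 v306 v167 v462 v35 v326 v42 (k8 v174 v465 v182 v473 v184 v186 v476 v192 (k8 v481 v195 v485 v199 v79 v202 v493 v205 (k8 v86 v207 v502 v211 v213 v511 v217 v219 (k8 v518 v223 v225 v524 v228 v230 v528 v114 (k8 v529 v531 v532 v536 v239 v241 v541 v543 (k8 v544 v545 v546 v252 v254 v255 v256 v257 (k1 v259 (k1 v260 (k1 v261 (k1 v604 (k0))))))))))))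
noncomputable def ca1_47 : List VW := k8 v276 v147 v274 v283 v149 v433 v291 v157 (k8 v160 v446 v305 v167 v460 v562 v326 v42 (k8 v174 v464 v182 v473 v184 v186 v476 v190 (k8 v481 v195 v485 v199 v79 v202 v493 v205 (k8 v86 v207 v502 v211 v213 v511 v217 v219 (k8 v518 v223 v225 v524 v228 v230 v528 v231 (k8 v233 v531 v532 v536 v538 v541 v543 v544 (k8 v545 v546 v252 v254 v255 v256 v257 v259 (k1 v260 (k1 v261 (k1 v604 (k0)))))))))))
noncomputable def ca1_48 : List VW := k8 v276 v147 v274 v283 v149 v433 v291 v157 (k8 v160 v446 v305 v167 v460 v562 v326 v170 (k8 v174 v464 v182 v473 v184 v186 v476 v190 (k8 v481 v195 v485 v199 v79 v202 v493 v205 (k8 v86 v207 v502 v211 v213 v511 v217 v219 (k8 v518 v223 v225 v524 v228 v230 v528 v231 (k8 v233 v531 v532 v536 v239 v241 v541 v543 (k8 v544 v545 v546 v252 v254 v255 v256 v257 (k1 v259 (k1 v260 (k1 v261 (k1 v604 (k0))))))))))))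
noncomputable def ca1_49 : List VW := k8 v276 v144 v274 v423 v0 v149 v433 v291 (k8 v157 v160 v446 v305 v167 v460 v452 v174 (k8 v464 v182 v470 v186 v476 v190 v481 v195 (k8 v485 v199 v79 v202 v493 v205 v86 v207 (k8 v502 v211 v213 v511 v217 v219 v518 v223 (k8 v225 v524 v228 v230 v528 v231 v233 v531 (k8 v532 v536 v239 v241 v541 v543 v544 v545 (k8 v546 v252 v254 v255 v256 v257 v259 v260 (k1 v261 (k1 v604 (k0))))))))))
noncomputable def ca1_50 : List VW := k8 v1 v144 v274 v283 v149 v433 v291 v157 (k8 v161 v305 v167 v460 v452 v174 v464 v182 (k8 v470 v186 v476 v190 v194 v195 v485 v199 (k8 v79 v202 v493 v205 v86 v207 v502 v211 (k8 v213 v511 v217 v219 v518 v223 v225 v524 (k8 v228 v230 v528 v529 v531 v532 v536 v538 (k1 v541 (k1 v543 (k1 v544 (k1 v599 (k0))))))))))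
noncomputable def ca1_51 : List VW := k8 v1 v144 v274 v283 v149 v433 v291 v157 (k8 v161 v305 v167 v460 v452 v174 v464 v180 (k8 v470 v186 v476 v190 v194 v195 v485 v199 (k8 v79 v202 v493 v205 v208 v502 v211 v213 (k8 v511 v217 v219 v518 v223 v225 v524 v525 (k1 v528 (k1 v529 (k1 v531 (k1 v532 (k1 v536 (k1 v597 (k0)))))))))))
noncomputable def ca1_52 : List VW := k8 v1 v144 v274 v423 v0 v149 v433 v426 (k8 v160 v444 v169 v453 v174 v464 v180 v470 (k8 v186 v476 v190 v194 v195 v485 v199 v203 (k8 v493 v205 v208 v502 v211 v213 v511 v217 (k1 v219 (k1 v518 (k1 v223 (k1 v225 (k1 v524 (k1 v594 (k0))))))))))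
noncomputable def ca1_53 : List VW := k8 v3 v275 v289 v13 v304 v16 v24 v319 (k1 v31 (k1 v46 (k1 v56 (k1 v567 (k0)))))
noncomputable def ca1_54 : List VW := k8 v3 v275 v0 v13 v304 v16 v21 v319 (k1 v31 (k1 v35 (k1 v42 (k1 v56 (k1 v59 (k1 v68 (k1 v568 (k0))))))))
noncomputable def ca1_55 : List VW := k8 v4 v7 v275 v0 v2 v12 v428 v15 (k8 v21 v310 v166 v30 v334 v35 v42 v341 (k1 v54 (k1 v59 (k1 v355 (k1 v66 (k1 v71 (k1 v367 (k1 v569 (k0)))))))))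
noncomputable def ca1_56 : List VW := k8 v4 v147 v275 v0 v2 v12 v432 v15 (k8 v21 v316 v265 v30 v334 v35 v42 v341 (k8 v266 v54 v58 v59 v355 v66 v71 v367 (k1 v75 (k1 v79 (k1 v80 (k1 v84 (k1 v86 (k1 v88 (k1 v571 (k0))))))))))
noncomputable def ca1_57 : List VW := k8 v4 v144 v275 v0 v2 v297 v294 v21 (k8 v160 v314 v265 v28 v165 v330 v42 v339 (k8 v266 v52 v346 v59 v353 v268 v64 v69 (k8 v71 v365 v73 v79 v373 v82 v86 v87 (k8 v91 v94 v213 v510 v99 v100 v104 v106 (k1 v107 (k1 v574 (k0)))))))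
noncomputable def ca1_58 : List VW := k8 v3 v144 v275 v0 v2 v297 v294 v22 (k8 v160 v308 v264 v28 v165 v330 v44 v339 (k8 v266 v52 v346 v59 v353 v267 v64 v69 (k8 v71 v365 v73 v77 v79 v202 v492 v82 (k8 v86 v382 v91 v94 v213 v510 v99 v100 (k8 v104 v106 v107 v108 v111 v230 v112 v114 (k1 v399 (k1 v119 (k1 v120 (k1 v122 (k1 v124 (k1 v241 (k1 v578 (k0)))))))))))))
noncomputable def ca1_59 : List VW := k8 v3 v144 v275 v0 v263 v10 v296 v293 (k8 v152 v160 v307 v264 v27 v332 v329 v42 (k8 v174 v464 v51 v473 v59 v186 v476 v63 (k8 v483 v195 v485 v199 v202 v493 v205 v207 (k8 v502 v211 v213 v511 v99 v100 v518 v106 (k1 v524 (k1 v594 (k0)))))))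
noncomputable def ca1_60 : List VW := k8 v3 v144 v275 v0 v149 v435 v153 v160 (k8 v307 v167 v329 v42 v174 v49 v182 v183 (k8 v186 v62 v192 v195 v200 v202 v493 v205 (k1 v207 (k1 v502 (k1 v591 (k0))))))
noncomputable def ca1_61 : List VW := k8 v4 v144 v274 v0 v149 v433 v153 v160 (k8 v305 v167 v460 v175 v464 v180 v187 v192 (k1 v588 (k0)))
noncomputable def ca1_62 : List VW := k8 v416 v144 v419 v149 v426 v160 v441 v167 (k8 v452 v174 v464 v180 v469 v186 v476 v190 (k8 v480 v195 v485 v199 v488 v202 v493 v205 (k8 v496 v504 v212 v214 v511 v217 v220 v224 (k8 v226 v229 v230 v232 v233 v235 v237 v239 (k8 v241 v244 v245 v247 v249 v251 v252 v254 (k1 v255 (k1 v256 (k1 v257 (k1 v259 (k1 v260 (k1 v261 (k1 v604 (k0)))))))))))))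
noncomputable def ca1_63 : List VW := k1 v144 (k1 v0 (k1 v149 (k1 v160 (k1 v167 (k1 v586 (k0))))))
noncomputable def ca1_64 : List VW := k8 v1 v144 v421 v149 v426 v160 v441 v167 (k8 v452 v174 v464 v180 v469 v186 v476 v190 (k8 v480 v195 v485 v199 v488 v202 v493 v205 (k8 v496 v504 v212 v214 v511 v217 v220 v224 (k8 v226 v229 v230 v232 v233 v235 v237 v239 (k8 v241 v244 v245 v247 v249 v251 v252 v254 (k1 v255 (k1 v256 (k1 v602 (k0)))))))))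
noncomputable def ca1_65 : List VW := k8 v416 v144 v422 v149 v426 v160 v441 v167 (k8 v452 v174 v464 v180 v469 v186 v476 v190 (k8 v480 v195 v485 v199 v488 v202 v493 v205 (k8 v496 v504 v212 v214 v511 v217 v220 v224 (k8 v226 v229 v230 v232 v233 v235 v237 v239 (k8 v241 v244 v245 v247 v249 v251 v252 v254 (k1 v255 (k1 v256 (k1 v257 (k1 v259 (k1 v603 (k0)))))))))))
noncomputable def ca1_66 : List VW := k8 v416 v144 v421 v149 v426 v160 v441 v167 (k8 v452 v174 v464 v180 v469 v186 v476 v190 (k8 v480 v195 v485 v199 v488 v202 v493 v205 (k8 v496 v504 v212 v214 v218 v220 v224 v226 (k8 v228 v230 v232 v233 v235 v237 v239 v241 (k8 v243 v245 v247 v249 v251 v252 v254 v255 (k1 v256 (k1 v602 (k0))))))))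
noncomputable def ca1_67 : List VW := k1 v1 (k1 v144 (k1 v418 (k1 v434 (k1 v163 (k1 v167 (k1 v586 (k0)))))))
noncomputable def ca1_68 : List VW := k8 v1 v144 v417 v418 v149 v426 v160 v441 (k8 v167 v452 v174 v464 v180 v469 v186 v476 (k8 v190 v480 v195 v485 v199 v488 v202 v493 (k8 v205 v496 v504 v212 v214 v511 v217 v220 (k8 v224 v226 v229 v230 v232 v233 v235 v237 (k8 v239 v241 v244 v245 v247 v249 v251 v252 (k1 v254 (k1 v255 (k1 v256 (k1 v602 (k0))))))))))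
noncomputable def ca1_69 : List VW := k8 v1 v144 v417 v418 v149 v426 v160 v441 (k8 v167 v452 v174 v464 v180 v469 v186 v476 (k8 v190 v480 v195 v485 v199 v488 v202 v493 (k8 v205 v496 v504 v212 v214 v511 v217 v220 (k8 v224 v226 v229 v230 v232 v233 v235 v237 (k8 v239 v241 v244 v245 v247 v249 v251 v252 (k8 v254 v255 v256 v257 v259 v260 v261 v604 (k0)))))))
noncomputable def ca1_70 : List VW := k8 v1 v147 v422 v149 v426 v160 v441 v167 (k8 v452 v174 v464 v180 v469 v186 v476 v190 (k8 v480 v195 v485 v199 v488 v202 v493 v205 (k8 v496 v504 v212 v214 v511 v217 v220 v224 (k8 v226 v229 v230 v232 v233 v235 v237 v239 (k8 v241 v244 v245 v247 v249 v251 v252 v254 (k1 v255 (k1 v256 (k1 v257 (k1 v259 (k1 v603 (k0)))))))))))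
noncomputable def ca1_71 : List VW := k1 v1 (k1 v144 (k1 v420 (k1 v434 (k1 v162 (k1 v167 (k1 v586 (k0)))))))
noncomputable def ca1_72 : List VW := k8 v1 v144 v417 v418 v151 v427 v160 v441 (k8 v167 v452 v174 v464 v180 v469 v186 v476 (k8 v190 v480 v195 v485 v199 v488 v202 v493 (k8 v205 v496 v504 v212 v214 v511 v217 v220 (k8 v224 v226 v229 v230 v232 v233 v235 v237 (k8 v239 v241 v243 v245 v247 v249 v251 v252 (k1 v254 (k1 v255 (k1 v256 (k1 v602 (k0))))))))))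
noncomputable def ca1_73 : List VW := k8 v1 v144 v417 v418 v151 v427 v160 v441 (k8 v167 v452 v174 v464 v180 v469 v186 v476 (k8 v190 v480 v195 v485 v199 v488 v202 v493 (k8 v205 v496 v207 v502 v211 v214 v511 v217 (k8 v220 v224 v226 v229 v230 v232 v233 v235 (k8 v237 v239 v241 v244 v245 v247 v249 v251 (k8 v252 v254 v255 v256 v257 v259 v260 v261 (k1 v604 (k0))))))))
noncomputable def ca1_74 : List VW := k8 v1 v144 v417 v419 v151 v427 v160 v441 (k8 v167 v452 v174 v464 v180 v469 v186 v476 (k8 v190 v480 v195 v485 v199 v488 v202 v493 (k8 v205 v496 v207 v502 v211 v214 v511 v217 (k8 v220 v224 v226 v228 v230 v232 v233 v235 (k8 v237 v239 v241 v243 v245 v247 v249 v251 (k8 v252 v254 v255 v256 v257 v259 v260 v261 (k1 v604 (k0))))))))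
noncomputable def ca1_75 : List VW := k8 v1 v144 v417 v419 v151 v427 v160 v441 (k8 v167 v452 v174 v464 v180 v469 v186 v476 (k8 v190 v480 v195 v485 v199 v488 v202 v493 (k8 v205 v496 v504 v212 v214 v218 v220 v224 (k8 v226 v228 v230 v232 v233 v235 v237 v239 (k8 v241 v243 v245 v247 v249 v251 v252 v254 (k1 v255 (k1 v256 (k1 v257 (k1 v259 (k1 v603 (k0)))))))))))
noncomputable def ca1_76 : List VW := k8 v1 v144 v417 v418 v149 v427 v160 v441 (k8 v167 v452 v174 v464 v180 v469 v186 v476 (k8 v190 v480 v195 v485 v199 v488 v202 v493 (k8 v205 v496 v207 v212 v214 v218 v220 v224 (k8 v226 v228 v230 v232 v233 v235 v237 v239 (k8 v241 v243 v245 v247 v249 v251 v252 v254 (k1 v255 (k1 v256 (k1 v602 (k0)))))))))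
noncomputable def ca1_77 : List VW := k8 v1 v144 v417 v421 v149 v433 v426 v160 (k8 v443 v167 v453 v174 v464 v180 v470 v186 (k8 v476 v190 v480 v195 v485 v199 v488 v202 (k8 v493 v205 v496 v207 v502 v211 v214 v511 (k8 v217 v220 v224 v226 v229 v230 v232 v233 (k8 v235 v237 v239 v241 v244 v245 v247 v249 (k8 v251 v252 v254 v255 v256 v257 v259 v260 (k1 v261 (k1 v604 (k0)))))))))
noncomputable def ca1_78 : List VW := k8 v1 v144 v417 v422 v149 v433 v426 v160 (k8 v443 v167 v453 v174 v464 v180 v470 v186 (k8 v476 v190 v480 v195 v485 v199 v488 v202 (k8 v493 v205 v496 v207 v212 v214 v218 v220 (k8 v224 v226 v228 v230 v232 v233 v235 v237 (k8 v239 v241 v243 v245 v247 v249 v251 v252 (k1 v254 (k1 v255 (k1 v256 (k1 v257 (k1 v259 (k1 v603 (k0))))))))))))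
noncomputable def ca1_79 : List VW := k8 v1 v144 v417 v421 v149 v433 v426 v160 (k8 v442 v167 v452 v174 v464 v180 v470 v186 (k8 v476 v190 v480 v195 v485 v199 v488 v202 (k8 v493 v205 v496 v207 v212 v214 v218 v220 (k8 v224 v226 v228 v230 v232 v233 v235 v237 (k8 v239 v241 v243 v245 v247 v249 v251 v252 (k1 v254 (k1 v255 (k1 v256 (k1 v602 (k0))))))))))
noncomputable def ca1_80 : List VW := k8 v1 v144 v417 v419 v151 v427 v160 v441 (k8 v167 v452 v174 v464 v180 v469 v186 v476 (k8 v190 v480 v195 v485 v199 v488 v202 v493 (k8 v205 v496 v207 v212 v214 v218 v220 v224 (k8 v226 v228 v230 v232 v233 v235 v237 v239 (k1 v241 (k1 v243 (k1 v245 (k1 v247 (k1 v249 (k1 v251 (k1 v600 (k0))))))))))))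
noncomputable def ca1_81 : List VW := k8 v1 v144 v423 v418 v149 v433 v426 v160 (k8 v443 v167 v460 v452 v174 v464 v180 v470 (k8 v186 v476 v190 v480 v195 v485 v199 v488 (k8 v202 v493 v205 v496 v207 v502 v211 v214 (k8 v511 v217 v220 v224 v226 v228 v230 v232 (k8 v233 v235 v237 v239 v241 v243 v245 v247 (k8 v249 v251 v252 v254 v255 v256 v257 v259 (k1 v603 (k0))))))))
noncomputable def ca1_82 : List VW := k8 v1 v144 v423 v418 v149 v433 v426 v160 (k8 v443 v167 v460 v452 v174 v464 v180 v470 (k8 v186 v476 v190 v480 v195 v485 v199 v488 (k8 v202 v493 v205 v496 v207 v502 v211 v214 (k8 v218 v220 v224 v226 v228 v230 v232 v233 (k8 v235 v237 v239 v241 v243 v245 v247 v249 (k8 v251 v252 v254 v255 v256 v257 v259 v260 (k1 v261 (k1 v604 (k0)))))))))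
noncomputable def ca1_83 : List VW := k8 v1 v144 v423 v418 v149 v433 v426 v160 (k8 v443 v169 v453 v174 v464 v180 v470 v186 (k8 v476 v190 v480 v195 v485 v199 v488 v202 (k8 v493 v205 v496 v207 v502 v211 v214 v218 (k8 v220 v224 v226 v228 v230 v232 v233 v235 (k8 v237 v239 v241 v243 v245 v247 v249 v251 (k1 v252 (k1 v254 (k1 v255 (k1 v256 (k1 v257 (k1 v259 (k1 v603 (k0)))))))))))))
noncomputable def ca1_84 : List VW := k8 v1 v144 v417 v422 v149 v433 v426 v160 (k8 v443 v167 v453 v174 v464 v180 v470 v186 (k8 v476 v190 v480 v195 v485 v199 v488 v202 (k8 v493 v205 v496 v207 v502 v211 v214 v218 (k8 v220 v224 v226 v228 v230 v232 v233 v235 (k8 v237 v239 v241 v243 v245 v247 v249 v251 (k1 v252 (k1 v254 (k1 v255 (k1 v256 (k1 v602 (k0)))))))))))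
noncomputable def ca1_85 : List VW := k8 v1 v144 v423 v418 v149 v433 v426 v161 (k8 v444 v167 v460 v452 v174 v465 v180 v470 (k8 v186 v476 v190 v481 v195 v485 v199 v488 (k8 v202 v493 v205 v496 v207 v502 v211 v214 (k8 v511 v217 v220 v518 v223 v226 v228 v230 (k8 v231 v233 v235 v237 v239 v241 v243 v245 (k8 v247 v249 v251 v252 v254 v255 v256 v257 (k1 v259 (k1 v260 (k1 v261 (k1 v604 (k0)))))))))))
noncomputable def ca1_86 : List VW := k8 v1 v144 v423 v418 v149 v433 v426 v161 (k8 v444 v167 v460 v452 v174 v465 v180 v470 (k8 v186 v476 v190 v481 v195 v485 v199 v488 (k8 v202 v493 v205 v496 v207 v502 v211 v214 (k8 v511 v217 v220 v518 v223 v225 v228 v230 (k8 v231 v233 v235 v237 v239 v241 v243 v245 (k8 v247 v249 v251 v252 v254 v255 v256 v257 (k1 v259 (k1 v260 (k1 v261 (k1 v604 (k0)))))))))))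
noncomputable def ca1_87 : List VW := k8 v1 v144 v423 v418 v149 v433 v426 v161 (k8 v444 v167 v460 v452 v174 v465 v180 v470 (k8 v186 v476 v190 v481 v195 v485 v199 v488 (k8 v202 v493 v205 v496 v207 v502 v211 v214 (k8 v511 v217 v220 v518 v223 v225 v228 v230 (k8 v231 v233 v235 v237 v239 v241 v243 v245 (k8 v247 v249 v251 v252 v254 v255 v256 v257 (k1 v259 (k1 v603 (k0)))))))))
noncomputable def ca1_88 : List VW := k8 v1 v144 v423 v418 v149 v433 v426 v160 (k8 v444 v167 v460 v452 v174 v464 v180 v470 (k8 v186 v476 v190 v481 v195 v485 v199 v488 (k8 v202 v493 v205 v496 v207 v502 v211 v214 (k8 v511 v217 v220 v224 v226 v228 v230 v231 (k8 v233 v235 v237 v239 v241 v243 v245 v247 (k1 v249 (k1 v251 (k1 v252 (k1 v254 (k1 v255 (k1 v256 (k1 v602 (k0)))))))))))))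
noncomputable def ca1_89 : List VW := k8 v1 v144 v423 v418 v149 v433 v426 v160 (k8 v443 v167 v453 v174 v464 v180 v470 v186 (k8 v476 v190 v480 v195 v485 v199 v488 v202 (k8 v493 v205 v496 v207 v502 v211 v214 v511 (k8 v217 v220 v224 v225 v228 v230 v231 v233 (k1 v235 (k1 v237 (k1 v239 (k1 v241 (k1 v243 (k1 v598 (k0)))))))))))
noncomputable def ca1_90 : List VW := k8 v1 v144 v274 v423 v279 v149 v433 v426 (k8 v160 v446 v441 v167 v460 v452 v174 v465 (k8 v180 v470 v186 v476 v190 v481 v195 v485 (k8 v199 v489 v202 v493 v205 v497 v207 v502 (k8 v211 v214 v511 v217 v220 v518 v223 v225 (k8 v524 v228 v230 v528 v231 v233 v531 v532 (k8 v537 v239 v241 v541 v543 v544 v545 v546 (k8 v547 v549 v255 v256 v257 v259 v260 v261 (k1 v604 (k0)))))))))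
noncomputable def ca1_91 : List VW := k8 v1 v147 v423 v418 v149 v433 v426 v160 (k8 v436 v444 v167 v460 v452 v174 v465 v180 (k8 v470 v186 v476 v190 v481 v195 v485 v199 (k8 v489 v202 v493 v205 v496 v207 v502 v211 (k8 v214 v511 v217 v220 v518 v223 v226 v524 (k8 v228 v230 v528 v231 v233 v235 v237 v239 (k8 v241 v243 v245 v247 v249 v251 v252 v254 (k1 v255 (k1 v256 (k1 v257 (k1 v259 (k1 v260 (k1 v261 (k1 v604 (k0))))))))))))))
noncomputable def ca1_92 : List VW := k8 v1 v144 v274 v422 v149 v433 v156 v160 (k8 v441 v167 v452 v174 v464 v180 v184 v186 (k1 v476 (k1 v190 (k1 v196 (k1 v200 (k1 v202 (k1 v493 (k1 v590 (k0)))))))))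
noncomputable def ca1_93 : List VW := k8 v277 v144 v275 v274 v279 v149 v433 v292 (k8 v157 v161 v312 v167 v460 v328 v39 v43 (k8 v178 v464 v182 v473 v183 v188 v351 v67 (k8 v192 v71 v195 v485 v199 v79 v202 v493 (k8 v205 v86 v207 v502 v211 v213 v511 v217 (k8 v219 v518 v223 v225 v524 v111 v230 v528 (k8 v114 v233 v531 v119 v237 v536 v239 v241 (k8 v541 v243 v245 v544 v247 v249 v546 v252 (k1 v549 (k1 v255 (k1 v553 (k1 v257 (k1 v556 (k1 v603 (k0))))))))))))))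
noncomputable def ca1_94 : List VW := k8 v277 v147 v274 v279 v149 v433 v292 v157 (k8 v161 v312 v167 v460 v328 v562 v170 v174 (k8 v464 v182 v473 v184 v186 v476 v192 v190 (k8 v71 v195 v485 v199 v79 v202 v493 v205 (k8 v86 v207 v502 v211 v213 v511 v217 v219 (k8 v518 v223 v225 v524 v228 v230 v528 v114 (k8 v233 v531 v235 v237 v536 v239 v241 v541 (k8 v243 v245 v544 v247 v249 v546 v252 v254 (k1 v255 (k1 v256 (k1 v602 (k0)))))))))))
noncomputable def ca1_95 : List VW := k8 v277 v147 v274 v284 v149 v433 v292 v157 (k8 v160 v446 v306 v167 v462 v562 v326 v42 (k8 v174 v465 v182 v473 v184 v186 v476 v192 (k8 v481 v195 v485 v199 v79 v202 v493 v205 (k8 v86 v207 v502 v211 v213 v511 v217 v219 (k8 v518 v223 v225 v524 v228 v230 v528 v114 (k8 v529 v531 v532 v536 v538 v541 v543 v544 (k8 v545 v546 v252 v254 v255 v256 v257 v259 (k1 v603 (k0)))))))))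
noncomputable def ca1_96 : List VW := k8 v276 v144 v275 v423 v0 v149 v433 v291 (k8 v157 v160 v446 v305 v167 v462 v562 v326 (k8 v43 v174 v465 v182 v473 v184 v186 v476 (k8 v192 v481 v195 v485 v199 v79 v202 v493 (k8 v205 v86 v207 v502 v211 v213 v511 v217 (k8 v219 v518 v223 v225 v524 v228 v230 v528 (k8 v231 v233 v531 v532 v536 v239 v241 v541 (k8 v543 v544 v545 v546 v252 v254 v255 v256 (k1 v257 (k1 v259 (k1 v603 (k0)))))))))))
noncomputable def ca1_97 : List VW := k8 v276 v144 v275 v423 v0 v149 v433 v291 (k8 v158 v160 v446 v317 v168 v460 v452 v174 (k8 v465 v182 v470 v186 v476 v190 v481 v195 (k8 v485 v199 v79 v202 v493 v205 v497 v207 (k8 v502 v211 v213 v511 v217 v219 v518 v223 (k8 v225 v524 v228 v230 v528 v231 v233 v531 (k8 v532 v536 v239 v241 v541 v543 v544 v545 (k8 v546 v252 v254 v255 v256 v257 v259 v260 (k1 v261 (k1 v604 (k0))))))))))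
noncomputable def ca1_98 : List VW := k8 v1 v144 v274 v423 v0 v149 v433 v559 (k8 v157 v160 v446 v441 v167 v460 v452 v174 (k8 v465 v182 v470 v186 v476 v190 v481 v195 (k8 v485 v199 v489 v202 v493 v205 v497 v207 (k8 v502 v211 v213 v511 v217 v220 v518 v223 (k8 v225 v524 v228 v230 v528 v231 v233 v531 (k8 v532 v536 v239 v241 v541 v543 v544 v545 (k8 v546 v252 v254 v255 v256 v257 v259 v260 (k1 v261 (k1 v604 (k0))))))))))
noncomputable def ca1_99 : List VW := k8 v1 v144 v274 v423 v0 v149 v433 v426 (k8 v160 v446 v441 v167 v460 v452 v174 v465 (k8 v182 v470 v186 v476 v190 v481 v195 v485 (k8 v199 v79 v203 v493 v205 v497 v207 v502 (k8 v211 v213 v511 v217 v219 v518 v223 v225 (k8 v524 v228 v230 v528 v231 v233 v531 v532 (k8 v536 v239 v241 v541 v543 v544 v545 v546 (k8 v252 v254 v255 v256 v257 v259 v260 v261 (k1 v604 (k0)))))))))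
noncomputable def ca1_100 : List VW := k8 v1 v144 v274 v423 v0 v149 v433 v426 (k8 v160 v446 v441 v167 v460 v452 v174 v465 (k8 v182 v470 v186 v476 v190 v481 v195 v485 (k8 v199 v489 v202 v493 v205 v497 v207 v502 (k8 v211 v213 v511 v217 v220 v518 v223 v225 (k8 v524 v228 v230 v528 v231 v233 v531 v532 (k8 v536 v239 v241 v541 v543 v544 v545 v546 (k8 v252 v254 v255 v256 v257 v259 v260 v261 (k1 v604 (k0)))))))))
noncomputable def ca1_101 : List VW := k8 v1 v144 v274 v423 v0 v149 v433 v426 (k8 v160 v446 v441 v167 v460 v452 v174 v465 (k8 v180 v470 v186 v476 v190 v481 v195 v485 (k8 v199 v489 v202 v493 v205 v497 v207 v502 (k8 v211 v213 v511 v217 v220 v518 v223 v225 (k8 v524 v228 v230 v528 v231 v233 v531 v532 (k8 v536 v239 v241 v541 v543 v544 v545 v546 (k8 v252 v254 v255 v256 v257 v259 v260 v261 (k1 v604 (k0)))))))))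
noncomputable def ca1_102 : List VW := k8 v1 v144 v274 v423 v0 v149 v433 v426 (k8 v160 v446 v441 v167 v460 v452 v174 v464 (k8 v180 v470 v186 v476 v190 v481 v195 v485 (k8 v199 v489 v202 v493 v205 v497 v207 v502 (k8 v211 v213 v511 v217 v219 v518 v223 v225 (k8 v524 v228 v230 v528 v231 v233 v531 v532 (k8 v536 v538 v541 v543 v544 v545 v546 v600 (k0)))))))
noncomputable def ca1_103 : List VW := k8 v1 v144 v274 v423 v0 v149 v433 v426 (k8 v160 v436 v444 v167 v460 v452 v174 v464 (k8 v180 v470 v186 v476 v190 v194 v195 v485 (k8 v199 v489 v202 v493 v205 v208 v502 v211 (k8 v213 v511 v217 v219 v518 v223 v225 v524 (k1 v525 (k1 v528 (k1 v529 (k1 v531 (k1 v532 (k1 v536 (k1 v597 (k0))))))))))))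
noncomputable def ca1_104 : List VW := k8 v1 v144 v274 v423 v0 v149 v433 v426 (k8 v160 v444 v169 v453 v174 v464 v180 v470 (k8 v186 v476 v190 v194 v195 v485 v199 v203 (k8 v493 v205 v207 v502 v211 v213 v511 v217 (k1 v219 (k1 v518 (k1 v593 (k0)))))))
noncomputable def ca1_105 : List VW := k8 v1 v144 v274 v422 v149 v433 v157 v160 (k8 v442 v167 v452 v174 v464 v180 v185 v186 (k8 v476 v190 v196 v200 v203 v493 v205 v207 (k1 v502 (k1 v591 (k0)))))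
noncomputable def ca1_106 : List VW := k8 v4 v147 v275 v282 v2 v302 v295 v15 (k8 v22 v161 v315 v265 v29 v165 v331 v44 (k8 v340 v266 v53 v347 v59 v186 v354 v268 (k8 v65 v69 v71 v366 v74 v77 v79 v374 (k8 v271 v83 v86 v383 v92 v94 v389 v97 (k8 v99 v101 v105 v106 v394 v109 v111 v397 (k8 v113 v114 v400 v119 v237 v406 v125 v241 (k1 v578 (k0))))))))
noncomputable def ca1_107 : List VW := k8 v3 v144 v275 v0 v2 v11 v429 v560 (k8 v21 v160 v308 v264 v28 v165 v330 v42 (k8 v174 v339 v266 v52 v346 v59 v186 v353 (k8 v267 v64 v69 v71 v365 v73 v77 v79 (k8 v202 v492 v379 v86 v382 v91 v94 v213 (k8 v510 v99 v100 v104 v106 v107 v108 v111 (k8 v230 v112 v114 v530 v118 v237 v122 v125 (k1 v241 (k1 v126 (k1 v128 (k1 v245 (k1 v132 (k1 v249 (k1 v580 (k0))))))))))))))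
noncomputable def ca1_108 : List VW := k8 v4 v144 v275 v280 v2 v10 v429 v560 (k8 v21 v160 v307 v264 v27 v165 v329 v42 (k8 v174 v338 v266 v51 v472 v59 v186 v67 (k8 v267 v63 v189 v71 v195 v484 v198 v78 (k8 v202 v492 v81 v498 v207 v501 v210 v213 (k8 v510 v99 v100 v517 v106 v107 v108 v111 (k8 v230 v112 v114 v115 v116 v119 v120 v122 (k8 v125 v241 v126 v128 v245 v132 v249 v134 (k8 v135 v136 v552 v140 v142 v260 v143 v262 (k1 v585 (k0))))))))))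
noncomputable def ca1_109 : List VW := k8 v4 v144 v275 v285 v2 v10 v429 v560 (k8 v290 v160 v313 v264 v27 v165 v329 v42 (k8 v174 v338 v266 v51 v472 v59 v186 v352 (k8 v267 v63 v189 v71 v195 v484 v198 v79 (k8 v202 v492 v378 v498 v207 v501 v210 v213 (k8 v510 v216 v219 v517 v106 v225 v523 v111 (k8 v230 v112 v114 v115 v530 v118 v238 v122 (k8 v125 v241 v126 v128 v245 v132 v249 v134 (k8 v135 v548 v255 v139 v140 v555 v260 v143 (k1 v604 (k0))))))))))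
noncomputable def ca1_110 : List VW := k8 v4 v144 v275 v285 v2 v10 v429 v560 (k8 v22 v160 v307 v264 v27 v165 v329 v42 (k8 v174 v338 v266 v51 v472 v59 v186 v352 (k8 v267 v63 v189 v71 v195 v484 v198 v78 (k8 v202 v492 v204 v86 v207 v501 v210 v213 (k8 v510 v99 v219 v517 v106 v107 v523 v111 (k8 v230 v112 v114 v115 v530 v118 v237 v122 (k8 v125 v241 v126 v128 v245 v132 v249 v134 (k1 v135 (k1 v548 (k1 v255 (k1 v138 (k1 v257 (k1 v141 (k1 v603 (k0)))))))))))))))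
noncomputable def ca1_111 : List VW := k8 v4 v144 v275 v285 v149 v429 v293 v157 (k8 v160 v307 v167 v329 v42 v174 v338 v182 (k8 v58 v59 v186 v352 v192 v71 v195 v364 (k8 v200 v79 v202 v492 v204 v86 v207 v501 (k8 v210 v213 v510 v216 v219 v517 v106 v225 (k8 v395 v526 v230 v112 v114 v115 v530 v118 (k8 v238 v122 v125 v241 v126 v128 v245 v132 (k1 v249 (k1 v134 (k1 v135 (k1 v548 (k1 v255 (k1 v138 (k1 v602 (k0))))))))))))))
noncomputable def ca1_112 : List VW := k8 v278 v144 v275 v274 v0 v149 v433 v293 (k8 v157 v160 v313 v167 v329 v43 v174 v338 (k8 v182 v58 v183 v186 v352 v192 v71 v195 (k8 v364 v200 v79 v202 v493 v205 v86 v207 (k8 v502 v211 v213 v511 v217 v219 v518 v106 (k8 v225 v524 v111 v230 v528 v114 v233 v531 (k8 v119 v237 v536 v125 v241 v541 v128 v245 (k8 v544 v132 v249 v134 v252 v136 v255 v139 (k1 v602 (k0)))))))))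
noncomputable def ca1_113 : List VW := k8 v278 v144 v275 v274 v0 v149 v433 v293 (k8 v157 v160 v313 v167 v329 v170 v174 v338 (k8 v182 v58 v183 v186 v352 v192 v71 v195 (k8 v364 v200 v79 v202 v493 v205 v86 v207 (k8 v502 v211 v213 v511 v217 v219 v518 v106 (k8 v225 v524 v111 v230 v528 v114 v233 v531 (k8 v119 v237 v536 v125 v241 v541 v128 v245 (k1 v544 (k1 v249 (k1 v134 (k1 v600 (k0)))))))))))
noncomputable def ca1_114 : List VW := k8 v277 v147 v274 v0 v149 v433 v15 v152 (k8 v163 v312 v167 v328 v39 v175 v337 v182 (k8 v184 v186 v67 v192 v71 v195 v200 v202 (k8 v493 v205 v207 v502 v211 v213 v511 v592 (k0))))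
noncomputable def ca1_115 : List VW := k8 v276 v144 v274 v279 v149 v435 v158 v161 (k8 v311 v167 v460 v172 v174 v464 v180 v185 (k8 v186 v350 v192 v194 v195 v200 v203 v493 (k1 v205 (k1 v207 (k1 v502 (k1 v211 (k1 v213 (k1 v511 (k1 v592 (k0))))))))))
noncomputable def ca1_116 : List VW := k8 v5 v275 v289 v13 v304 v19 v21 v319 (k8 v31 v40 v42 v56 v61 v68 v71 v76 (k1 v569 (k0)))
noncomputable def ca1_117 : List VW := k8 v3 v7 v275 v0 v2 v303 v15 v26 (k8 v321 v30 v35 v42 v341 v54 v59 v355 (k1 v66 (k1 v71 (k1 v367 (k1 v569 (k0))))))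
noncomputable def ca1_118 : List VW := k8 v3 v147 v275 v0 v2 v429 v15 v21 (k8 v310 v265 v30 v456 v43 v341 v266 v54 (k8 v58 v59 v355 v66 v71 v367 v75 v79 (k1 v375 (k1 v570 (k0)))))
noncomputable def ca1_119 : List VW := k8 v3 v144 v275 v0 v2 v298 v295 v21 (k8 v160 v309 v265 v29 v459 v43 v340 v266 (k8 v53 v58 v59 v354 v268 v65 v71 v366 (k1 v74 (k1 v79 (k1 v374 (k1 v83 (k1 v86 (k1 v89 (k1 v571 (k0))))))))))
noncomputable def ca1_120 : List VW := k8 v3 v144 v275 v0 v263 v11 v433 v561 (k8 v21 v160 v314 v265 v28 v332 v330 v42 (k8 v174 v339 v266 v52 v346 v59 v186 v353 (k8 v268 v64 v69 v71 v365 v73 v77 v79 (k8 v202 v493 v379 v86 v89 v502 v211 v213 (k8 v511 v99 v100 v518 v106 v107 v108 v111 (k8 v230 v398 v114 v531 v119 v120 v122 v125 (k1 v241 (k1 v126 (k1 v128 (k1 v129 (k1 v579 (k0))))))))))))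
noncomputable def ca1_121 : List VW := k8 v278 v144 v275 v274 v0 v149 v433 v293 (k8 v157 v161 v436 v313 v167 v460 v329 v170 (k8 v174 v338 v182 v345 v183 v186 v352 v192 (k8 v194 v195 v269 v200 v78 v203 v493 v205 (k8 v208 v502 v211 v213 v511 v217 v219 v518 (k1 v593 (k0))))))
noncomputable def ca1_122 : List VW := k8 v416 v144 v421 v149 v426 v160 v441 v167 (k8 v452 v174 v464 v180 v469 v186 v476 v190 (k8 v480 v195 v485 v199 v488 v202 v493 v205 (k8 v496 v504 v212 v214 v511 v217 v220 v224 (k8 v226 v229 v230 v232 v233 v235 v237 v239 (k8 v241 v244 v245 v247 v249 v251 v252 v254 (k1 v255 (k1 v256 (k1 v602 (k0)))))))))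
noncomputable def ca1_123 : List VW := k8 v416 v144 v421 v149 v426 v160 v441 v167 (k8 v452 v174 v464 v180 v469 v186 v476 v190 (k8 v480 v195 v485 v199 v488 v202 v493 v205 (k8 v496 v504 v212 v214 v511 v217 v220 v224 (k8 v226 v229 v230 v232 v233 v235 v237 v239 (k8 v241 v244 v245 v247 v249 v251 v252 v254 (k1 v255 (k1 v256 (k1 v257 (k1 v259 (k1 v260 (k1 v261 (k1 v604 (k0)))))))))))))
noncomputable def ca1_124 : List VW := k1 v145 (k1 v0 (k1 v149 (k1 v160 (k1 v167 (k1 v586 (k0))))))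
noncomputable def ca1_125 : List VW := k8 v1 v144 v417 v418 v149 v426 v160 v441 (k8 v167 v452 v174 v464 v180 v469 v186 v476 (k8 v190 v480 v195 v485 v199 v488 v202 v493 (k8 v205 v496 v504 v212 v214 v511 v217 v220 (k8 v224 v226 v229 v230 v232 v233 v235 v237 (k8 v239 v241 v244 v245 v247 v249 v251 v252 (k1 v254 (k1 v601 (k0))))))))
noncomputable def ca1_126 : List VW := k8 v1 v147 v422 v149 v426 v160 v441 v167 (k8 v452 v174 v464 v180 v469 v186 v476 v190 (k8 v480 v195 v485 v199 v488 v202 v493 v205 (k8 v496 v504 v212 v214 v511 v217 v220 v224 (k8 v226 v229 v230 v232 v233 v235 v237 v239 (k8 v241 v244 v245 v247 v249 v251 v252 v254 (k1 v255 (k1 v256 (k1 v602 (k0)))))))))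
noncomputable def ca1_127 : List VW := k8 v1 v147 v422 v149 v426 v160 v441 v167 (k8 v452 v174 v464 v180 v469 v186 v476 v190 (k8 v480 v195 v485 v199 v488 v202 v493 v205 (k8 v496 v504 v212 v214 v218 v220 v224 v226 (k8 v228 v230 v232 v233 v235 v237 v239 v241 (k1 v243 (k1 v245 (k1 v247 (k1 v249 (k1 v251 (k1 v600 (k0)))))))))))
noncomputable def ca1_128 : List VW := k8 v1 v144 v417 v418 v151 v427 v160 v441 (k8 v167 v452 v174 v464 v180 v469 v186 v476 (k8 v190 v480 v195 v485 v199 v488 v202 v493 (k8 v205 v496 v504 v212 v214 v511 v217 v220 (k8 v224 v226 v229 v230 v232 v233 v235 v237 (k8 v239 v241 v244 v245 v247 v249 v251 v252 (k1 v254 (k1 v255 (k1 v256 (k1 v602 (k0))))))))))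
noncomputable def ca1_129 : List VW := k8 v1 v144 v417 v418 v151 v427 v160 v441 (k8 v167 v452 v174 v464 v180 v469 v186 v476 (k8 v190 v480 v195 v485 v199 v488 v202 v493 (k8 v205 v496 v207 v502 v211 v214 v511 v516 (k8 v220 v224 v226 v229 v230 v232 v233 v235 (k8 v237 v239 v241 v244 v245 v247 v249 v251 (k8 v252 v254 v255 v256 v257 v259 v260 v261 (k1 v604 (k0))))))))
noncomputable def ca1_130 : List VW := k8 v1 v144 v417 v419 v151 v427 v160 v442 (k8 v167 v452 v174 v464 v180 v469 v186 v476 (k8 v190 v480 v195 v485 v199 v488 v202 v493 (k8 v205 v496 v207 v502 v211 v214 v511 v217 (k8 v220 v224 v226 v229 v230 v232 v233 v235 (k8 v237 v239 v241 v244 v245 v247 v249 v251 (k8 v252 v254 v255 v256 v257 v259 v260 v261 (k1 v604 (k0))))))))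
noncomputable def ca1_131 : List VW := k8 v1 v144 v417 v419 v151 v427 v160 v441 (k8 v167 v452 v174 v464 v180 v469 v186 v476 (k8 v190 v480 v195 v485 v199 v488 v202 v493 (k8 v205 v496 v207 v502 v211 v214 v511 v217 (k8 v220 v224 v226 v229 v230 v232 v233 v235 (k8 v237 v239 v241 v244 v245 v247 v249 v251 (k1 v252 (k1 v254 (k1 v255 (k1 v256 (k1 v257 (k1 v259 (k1 v603 (k0)))))))))))))
noncomputable def ca1_132 : List VW := k8 v1 v144 v417 v418 v149 v427 v160 v441 (k8 v167 v452 v174 v464 v180 v469 v186 v476 (k8 v190 v480 v195 v485 v199 v488 v202 v493 (k8 v205 v496 v504 v212 v214 v511 v217 v220 (k8 v224 v226 v228 v230 v232 v233 v235 v237 (k8 v239 v241 v243 v245 v247 v249 v251 v252 (k1 v254 (k1 v601 (k0))))))))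
noncomputable def ca1_133 : List VW := k8 v1 v144 v417 v421 v149 v433 v426 v160 (k8 v443 v167 v452 v174 v464 v180 v470 v186 (k8 v476 v190 v480 v195 v485 v199 v488 v202 (k8 v493 v205 v496 v207 v502 v211 v214 v511 (k8 v217 v220 v224 v226 v228 v230 v232 v233 (k8 v235 v237 v239 v241 v243 v245 v247 v249 (k1 v251 (k1 v252 (k1 v254 (k1 v601 (k0))))))))))
noncomputable def ca1_134 : List VW := k8 v1 v144 v417 v422 v149 v433 v426 v160 (k8 v443 v167 v453 v174 v464 v180 v470 v186 (k8 v476 v190 v480 v195 v485 v199 v488 v202 (k8 v493 v205 v496 v207 v502 v211 v214 v511 (k8 v217 v220 v224 v226 v229 v230 v232 v233 (k8 v235 v237 v239 v241 v243 v245 v247 v249 (k8 v251 v252 v254 v255 v256 v257 v259 v260 (k1 v261 (k1 v604 (k0)))))))))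
noncomputable def ca1_135 : List VW := k8 v1 v144 v417 v421 v149 v433 v426 v160 (k8 v443 v167 v453 v174 v464 v180 v470 v186 (k8 v476 v190 v480 v195 v485 v199 v488 v202 (k8 v493 v205 v496 v207 v502 v211 v214 v511 (k8 v217 v220 v224 v226 v228 v230 v232 v233 (k8 v235 v237 v239 v241 v243 v245 v247 v249 (k8 v251 v252 v254 v255 v256 v257 v259 v603 (k0)))))))
noncomputable def ca1_136 : List VW := k8 v1 v144 v417 v421 v149 v433 v426 v160 (k8 v442 v167 v452 v174 v464 v180 v470 v186 (k8 v476 v190 v480 v195 v485 v199 v488 v202 (k8 v493 v205 v496 v207 v502 v211 v214 v218 (k8 v220 v224 v226 v228 v230 v232 v233 v235 (k8 v237 v239 v241 v243 v245 v247 v249 v251 (k1 v252 (k1 v254 (k1 v255 (k1 v256 (k1 v602 (k0)))))))))))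
noncomputable def ca1_137 : List VW := k8 v1 v144 v418 v149 v426 v160 v441 v167 (k1 v175 (k1 v182 (k1 v587 (k0))))
noncomputable def ca1_138 : List VW := k8 v1 v144 v423 v418 v149 v433 v426 v160 (k8 v443 v167 v460 v452 v174 v464 v180 v470 (k8 v186 v476 v190 v480 v195 v485 v199 v488 (k8 v202 v493 v205 v496 v207 v502 v211 v214 (k8 v511 v217 v220 v224 v226 v228 v230 v232 (k8 v233 v235 v237 v239 v241 v243 v245 v247 (k8 v249 v251 v252 v254 v255 v256 v257 v259 (k1 v260 (k1 v261 (k1 v604 (k0))))))))))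
noncomputable def ca1_139 : List VW := k8 v1 v144 v423 v418 v149 v433 v426 v161 (k8 v444 v167 v460 v452 v174 v464 v180 v470 (k8 v186 v476 v190 v481 v195 v485 v199 v488 (k8 v202 v493 v205 v496 v207 v502 v211 v214 (k8 v511 v217 v220 v518 v223 v226 v228 v230 (k8 v231 v233 v235 v237 v239 v241 v243 v245 (k1 v247 (k1 v249 (k1 v251 (k1 v252 (k1 v254 (k1 v601 (k0))))))))))))
noncomputable def ca1_140 : List VW := k8 v1 v144 v423 v418 v149 v433 v426 v161 (k8 v444 v167 v460 v452 v174 v465 v180 v470 (k8 v186 v476 v190 v481 v195 v485 v199 v488 (k8 v202 v493 v205 v496 v207 v502 v211 v214 (k8 v511 v217 v220 v518 v223 v226 v228 v230 (k8 v232 v233 v235 v237 v239 v241 v243 v245 (k8 v247 v249 v251 v252 v254 v255 v256 v257 (k1 v259 (k1 v603 (k0)))))))))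
noncomputable def ca1_141 : List VW := k8 v1 v144 v423 v418 v149 v433 v426 v161 (k8 v444 v167 v460 v452 v174 v465 v180 v470 (k8 v186 v476 v190 v481 v195 v485 v199 v488 (k8 v202 v493 v205 v496 v207 v502 v211 v214 (k8 v511 v217 v220 v518 v223 v226 v228 v230 (k8 v232 v233 v235 v237 v239 v241 v243 v245 (k8 v247 v249 v251 v252 v254 v255 v256 v257 (k1 v259 (k1 v260 (k1 v261 (k1 v604 (k0)))))))))))
noncomputable def ca1_142 : List VW := k8 v1 v144 v423 v418 v149 v433 v426 v160 (k8 v444 v167 v460 v452 v174 v464 v180 v470 (k8 v186 v476 v190 v481 v195 v485 v199 v488 (k8 v202 v493 v205 v496 v207 v502 v211 v214 (k8 v511 v217 v220 v224 v226 v228 v230 v232 (k8 v233 v235 v237 v239 v241 v243 v245 v247 (k8 v249 v251 v252 v254 v255 v256 v257 v259 (k1 v603 (k0))))))))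
noncomputable def ca1_143 : List VW := k8 v1 v144 v417 v418 v149 v426 v160 v441 (k8 v167 v452 v174 v464 v180 v469 v479 v192 (k1 v196 (k1 v200 (k1 v589 (k0)))))
noncomputable def ca1_144 : List VW := k8 v1 v144 v274 v423 v279 v149 v433 v426 (k8 v160 v446 v441 v167 v460 v452 v174 v465 (k8 v180 v470 v186 v476 v190 v481 v195 v485 (k8 v199 v489 v202 v493 v205 v497 v207 v502 (k8 v211 v214 v511 v217 v220 v518 v223 v225 (k8 v524 v228 v230 v528 v231 v233 v235 v237 (k8 v239 v241 v243 v245 v247 v249 v251 v252 (k1 v254 (k1 v255 (k1 v256 (k1 v602 (k0)))))))))))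
noncomputable def ca1_145 : List VW := k8 v1 v147 v423 v418 v149 v433 v426 v160 (k8 v446 v441 v167 v460 v452 v174 v465 v180 (k8 v470 v186 v476 v190 v481 v195 v485 v199 (k8 v489 v202 v493 v205 v496 v207 v502 v211 (k8 v214 v511 v217 v220 v518 v223 v226 v524 (k8 v228 v230 v528 v231 v233 v235 v237 v239 (k8 v241 v243 v245 v247 v249 v251 v252 v254 (k1 v255 (k1 v256 (k1 v257 (k1 v259 (k1 v260 (k1 v261 (k1 v604 (k0))))))))))))))
noncomputable def ca1_146 : List VW := k8 v1 v144 v423 v418 v149 v433 v426 v160 (k8 v436 v444 v167 v460 v452 v174 v465 v180 (k8 v470 v186 v476 v190 v481 v195 v485 v199 (k8 v488 v202 v493 v205 v496 v207 v502 v211 (k8 v214 v511 v217 v220 v518 v223 v226 v228 (k8 v230 v231 v233 v235 v237 v239 v241 v243 (k8 v245 v247 v249 v251 v252 v254 v255 v256 (k1 v257 (k1 v259 (k1 v603 (k0))))))))))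
noncomputable def ca1_147 : List VW := k8 v1 v144 v423 v418 v149 v433 v426 v160 (k8 v444 v167 v460 v452 v174 v464 v180 v470 (k8 v186 v476 v190 v481 v195 v485 v199 v488 (k8 v202 v493 v205 v496 v207 v502 v211 v214 (k8 v511 v217 v220 v518 v223 v225 v228 v230 (k8 v231 v233 v235 v237 v239 v241 v243 v598 (k0))))))
noncomputable def ca1_148 : List VW := k8 v277 v144 v275 v274 v284 v149 v433 v292 (k8 v157 v160 v446 v306 v167 v460 v328 v35 (k8 v326 v42 v178 v465 v182 v473 v184 v186 (k8 v476 v192 v481 v195 v485 v199 v79 v202 (k8 v493 v205 v86 v207 v502 v211 v213 v511 (k8 v217 v219 v518 v223 v225 v524 v228 v230 (k8 v528 v114 v529 v531 v532 v536 v239 v241 (k8 v541 v543 v544 v545 v546 v252 v254 v255 (k1 v256 (k1 v257 (k1 v259 (k1 v603 (k0))))))))))))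
noncomputable def ca1_149 : List VW := k8 v276 v144 v275 v423 v0 v149 v433 v291 (k8 v157 v160 v446 v305 v167 v460 v327 v562 (k8 v326 v170 v174 v465 v182 v473 v184 v186 (k8 v476 v192 v481 v195 v485 v199 v79 v202 (k8 v493 v205 v86 v207 v502 v211 v213 v511 (k8 v217 v219 v518 v223 v225 v524 v228 v230 (k8 v528 v231 v233 v531 v532 v536 v239 v241 (k8 v541 v543 v544 v545 v546 v252 v254 v255 (k1 v256 (k1 v257 (k1 v259 (k1 v603 (k0))))))))))))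
noncomputable def ca1_150 : List VW := k8 v276 v144 v275 v423 v0 v149 v433 v291 (k8 v158 v160 v446 v317 v168 v460 v452 v174 (k8 v465 v182 v470 v186 v476 v190 v481 v195 (k8 v485 v199 v79 v202 v493 v205 v86 v208 (k8 v502 v211 v213 v511 v217 v219 v518 v223 (k8 v225 v524 v228 v230 v528 v231 v233 v531 (k8 v532 v536 v239 v241 v541 v543 v544 v545 (k8 v546 v252 v254 v255 v256 v257 v259 v260 (k1 v261 (k1 v604 (k0))))))))))
noncomputable def ca1_151 : List VW := k8 v1 v144 v275 v423 v0 v149 v433 v559 (k8 v157 v160 v446 v441 v167 v460 v452 v174 (k8 v465 v182 v470 v186 v476 v190 v481 v195 (k8 v485 v199 v489 v202 v493 v205 v497 v207 (k8 v502 v211 v214 v511 v217 v220 v518 v223 (k8 v225 v524 v228 v230 v528 v231 v233 v531 (k8 v532 v536 v239 v241 v541 v543 v544 v545 (k8 v546 v252 v254 v255 v256 v257 v259 v260 (k1 v261 (k1 v604 (k0))))))))))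
noncomputable def ca1_152 : List VW := k8 v1 v144 v274 v423 v0 v149 v433 v426 (k8 v160 v446 v441 v167 v460 v452 v174 v465 (k8 v182 v470 v186 v476 v190 v481 v195 v485 (k8 v199 v489 v202 v493 v205 v497 v207 v502 (k8 v211 v214 v511 v217 v220 v518 v223 v225 (k8 v524 v228 v230 v528 v231 v233 v531 v532 (k8 v536 v239 v241 v541 v543 v544 v545 v546 (k8 v252 v254 v255 v256 v257 v259 v260 v261 (k1 v604 (k0)))))))))
noncomputable def ca1_153 : List VW := k8 v1 v144 v274 v423 v0 v149 v433 v426 (k8 v160 v446 v441 v167 v460 v452 v174 v465 (k8 v180 v470 v186 v476 v190 v481 v195 v485 (k8 v199 v489 v202 v493 v205 v497 v207 v502 (k8 v211 v214 v511 v217 v220 v518 v223 v225 (k8 v524 v228 v230 v528 v231 v233 v531 v532 (k8 v536 v239 v241 v541 v543 v544 v545 v546 (k8 v252 v254 v255 v256 v257 v259 v260 v261 (k1 v604 (k0)))))))))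
noncomputable def ca1_154 : List VW := k8 v1 v144 v274 v423 v279 v149 v433 v426 (k8 v160 v446 v441 v167 v460 v452 v174 v465 (k8 v180 v470 v186 v476 v190 v481 v195 v485 (k8 v199 v489 v202 v493 v205 v497 v207 v502 (k8 v211 v214 v511 v217 v220 v518 v223 v225 (k8 v524 v228 v230 v528 v231 v233 v531 v532 (k8 v536 v239 v241 v541 v543 v544 v545 v546 (k8 v252 v254 v255 v256 v257 v259 v260 v261 (k1 v604 (k0)))))))))
noncomputable def ca1_155 : List VW := k8 v1 v144 v274 v423 v279 v149 v433 v426 (k8 v160 v446 v441 v167 v460 v452 v174 v465 (k8 v180 v470 v186 v476 v190 v481 v195 v485 (k8 v199 v489 v202 v493 v205 v497 v207 v502 (k8 v211 v214 v511 v217 v220 v518 v223 v225 (k8 v524 v228 v230 v528 v231 v233 v531 v532 (k8 v537 v239 v241 v243 v245 v247 v249 v251 (k8 v252 v254 v255 v256 v257 v259 v260 v261 (k1 v604 (k0)))))))))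
noncomputable def ca1_156 : List VW := k8 v1 v144 v274 v423 v279 v149 v433 v426 (k8 v160 v436 v444 v167 v460 v452 v174 v465 (k8 v180 v470 v186 v476 v190 v481 v195 v485 (k8 v199 v489 v202 v493 v205 v497 v207 v502 (k8 v211 v214 v511 v217 v220 v518 v223 v226 (k8 v524 v228 v230 v528 v231 v233 v531 v235 (k8 v237 v239 v241 v243 v245 v247 v249 v251 (k1 v252 (k1 v254 (k1 v601 (k0))))))))))
noncomputable def ca1_157 : List VW := k8 v278 v144 v275 v285 v2 v10 v429 v560 (k8 v290 v160 v307 v264 v27 v165 v329 v42 (k8 v174 v338 v266 v51 v472 v59 v186 v475 (k8 v63 v189 v71 v195 v484 v198 v79 v202 (k8 v492 v204 v86 v207 v501 v210 v213 v510 (k8 v99 v219 v517 v106 v225 v108 v526 v230 (k8 v112 v114 v115 v530 v118 v238 v122 v125 (k8 v241 v126 v128 v245 v132 v249 v134 v600 (k0))))))))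
noncomputable def ca1_158 : List VW := k8 v278 v144 v275 v274 v0 v149 v433 v293 (k8 v157 v160 v313 v167 v329 v170 v174 v338 (k8 v182 v58 v183 v186 v352 v192 v71 v195 (k8 v364 v200 v79 v202 v493 v205 v86 v207 (k8 v502 v211 v213 v511 v217 v219 v518 v106 (k8 v225 v524 v111 v230 v528 v114 v233 v531 (k8 v119 v237 v536 v125 v241 v541 v128 v245 (k8 v132 v249 v134 v252 v136 v255 v139 v602 (k0))))))))
noncomputable def ca1_159 : List VW := k8 v278 v144 v275 v274 v280 v149 v433 v293 (k8 v157 v161 v313 v167 v460 v35 v170 v174 (k8 v338 v182 v473 v183 v186 v352 v193 v190 (k8 v71 v195 v364 v200 v79 v202 v493 v205 (k8 v86 v207 v502 v211 v213 v511 v217 v219 (k8 v518 v223 v225 v524 v111 v230 v528 v114 (k8 v233 v531 v119 v237 v536 v125 v241 v541 (k8 v128 v245 v544 v132 v249 v134 v252 v136 (k1 v255 (k1 v139 (k1 v257 (k1 v142 (k1 v603 (k0)))))))))))))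
noncomputable def ca1_160 : List VW := k8 v278 v144 v275 v274 v280 v149 v433 v293 (k8 v157 v161 v436 v313 v167 v462 v563 v172 (k8 v178 v464 v182 v473 v184 v186 v477 v192 (k8 v483 v71 v195 v485 v199 v79 v202 v493 (k8 v205 v86 v207 v502 v211 v213 v511 v217 (k8 v219 v518 v223 v225 v524 v228 v230 v528 (k8 v114 v233 v531 v119 v237 v536 v239 v241 (k8 v541 v243 v245 v544 v247 v249 v546 v252 (k8 v549 v255 v553 v257 v556 v260 v558 v604 (k0)))))))))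
noncomputable def ca1_161 : List VW := k8 v277 v144 v275 v274 v284 v149 v433 v292 (k8 v157 v160 v446 v306 v167 v462 v562 v173 (k8 v178 v465 v182 v473 v184 v186 v477 v192 (k8 v357 v71 v195 v485 v199 v79 v202 v493 (k8 v205 v86 v207 v502 v211 v213 v511 v217 (k8 v219 v518 v223 v225 v524 v228 v230 v528 (k8 v114 v233 v531 v235 v237 v536 v239 v241 (k8 v541 v243 v245 v544 v247 v249 v546 v252 (k8 v549 v255 v553 v257 v556 v260 v558 v604 (k0)))))))))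
noncomputable def ca1_162 : List VW := k8 v277 v147 v274 v279 v149 v433 v292 v157 (k8 v161 v312 v167 v460 v35 v170 v174 v464 (k8 v182 v473 v184 v186 v476 v192 v481 v195 (k8 v485 v199 v79 v202 v493 v205 v86 v207 (k8 v502 v211 v213 v511 v217 v219 v518 v223 (k8 v225 v524 v111 v230 v528 v114 v233 v531 (k8 v532 v536 v538 v541 v543 v544 v545 v546 (k1 v600 (k0))))))))
noncomputable def ca1_163 : List VW := k8 v277 v147 v274 v279 v149 v433 v292 v157 (k8 v161 v312 v167 v460 v35 v170 v174 v464 (k8 v182 v473 v183 v187 v476 v190 v194 v195 (k8 v485 v199 v79 v202 v493 v205 v86 v207 (k8 v502 v211 v213 v511 v217 v219 v518 v223 (k8 v225 v524 v111 v230 v528 v529 v531 v532 (k1 v536 (k1 v538 (k1 v541 (k1 v598 (k0))))))))))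
noncomputable def ca1_164 : List VW := k8 v276 v147 v274 v279 v149 v433 v291 v157 (k8 v161 v311 v167 v460 v35 v170 v174 v464 (k8 v182 v473 v183 v187 v476 v190 v194 v195 (k8 v485 v199 v79 v202 v493 v205 v208 v502 (k8 v211 v213 v511 v217 v219 v518 v223 v225 (k1 v524 (k1 v525 (k1 v528 (k1 v595 (k0)))))))))
noncomputable def ca1_165 : List VW := k8 v1 v144 v274 v0 v149 v433 v156 v160 (k8 v305 v167 v452 v174 v464 v180 v183 v186 (k1 v476 (k1 v190 (k1 v196 (k1 v200 (k1 v589 (k0)))))))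
noncomputable def ca1_166 : List VW := k8 v4 v7 v275 v289 v13 v304 v20 v21 (k8 v319 v31 v35 v42 v56 v59 v68 v568 (k0))
noncomputable def ca1_167 : List VW := k8 v4 v424 v273 v0 v2 v12 v431 v15 (k8 v21 v316 v166 v30 v334 v35 v42 v341 (k8 v181 v54 v58 v59 v355 v66 v71 v367 (k1 v75 (k1 v79 (k1 v375 (k1 v570 (k0)))))))
noncomputable def ca1_168 : List VW := k8 v4 v424 v273 v0 v2 v12 v431 v15 (k8 v21 v23 v316 v166 v30 v334 v35 v42 (k8 v341 v181 v54 v58 v59 v355 v66 v71 (k8 v367 v75 v79 v80 v84 v86 v88 v571 (k0))))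
noncomputable def ca1_169 : List VW := k8 v4 v147 v275 v0 v2 v298 v295 v21 (k8 v161 v315 v166 v29 v164 v331 v42 v340 (k8 v181 v53 v58 v59 v354 v191 v65 v71 (k8 v366 v74 v79 v374 v83 v86 v89 v92 (k1 v94 (k1 v389 (k1 v572 (k0)))))))
noncomputable def ca1_170 : List VW := k8 v6 v147 v275 v282 v2 v298 v295 v22 (k8 v23 v324 v309 v265 v29 v333 v331 v42 (k8 v340 v266 v53 v347 v59 v354 v268 v65 (k8 v69 v71 v366 v74 v79 v374 v83 v86 (k8 v89 v92 v94 v389 v97 v99 v101 v105 (k1 v106 (k1 v394 (k1 v574 (k0))))))))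
noncomputable def ca1_171 : List VW := k8 v278 v3 v424 v273 v0 v2 v301 v294 (k8 v152 v21 v160 v323 v308 v265 v28 v457 (k8 v330 v42 v174 v339 v266 v52 v179 v346 (k8 v59 v186 v353 v268 v64 v359 v71 v365 (k8 v73 v77 v79 v373 v492 v82 v85 v86 (k8 v382 v91 v94 v389 v96 v99 v391 v104 (k8 v106 v107 v108 v111 v397 v112 v114 v115 (k8 v116 v119 v120 v122 v125 v408 v126 v128 (k8 v129 v130 v131 v412 v134 v135 v136 v137 (k1 v582 (k0))))))))))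
noncomputable def ca1_172 : List VW := k8 v4 v144 v275 v281 v2 v11 v432 v560 (k8 v21 v160 v323 v308 v264 v28 v456 v35 (k8 v42 v174 v339 v266 v52 v472 v59 v186 (k8 v353 v267 v64 v189 v71 v365 v269 v73 (k8 v77 v79 v373 v270 v82 v85 v86 v207 (k8 v501 v91 v94 v389 v96 v99 v391 v104 (k8 v106 v107 v108 v111 v230 v528 v114 v115 (k8 v116 v119 v120 v122 v125 v241 v126 v128 (k8 v129 v130 v132 v249 v134 v135 v136 v137 (k1 v139 (k1 v140 (k1 v142 (k1 v260 (k1 v143 (k1 v262 (k1 v585 (k0))))))))))))))))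
noncomputable def ca1_173 : List VW := k8 v4 v144 v275 v280 v2 v10 v429 v560 (k8 v21 v160 v313 v264 v27 v165 v329 v42 (k8 v174 v338 v266 v51 v472 v59 v186 v352 (k8 v267 v63 v189 v71 v195 v484 v198 v78 (k8 v202 v492 v81 v85 v86 v207 v501 v210 (k8 v213 v510 v99 v100 v517 v106 v107 v108 (k8 v111 v230 v112 v114 v115 v116 v119 v120 (k8 v122 v125 v241 v126 v128 v245 v132 v249 (k8 v134 v135 v136 v552 v257 v142 v260 v143 (k1 v262 (k1 v585 (k0)))))))))))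
noncomputable def ca1_174 : List VW := k8 v4 v144 v275 v280 v2 v429 v560 v21 (k8 v160 v307 v264 v27 v165 v329 v42 v174 (k8 v338 v266 v51 v472 v59 v186 v352 v267 (k8 v63 v189 v71 v195 v484 v198 v78 v202 (k8 v492 v81 v498 v207 v501 v210 v213 v510 (k8 v99 v100 v517 v106 v107 v108 v111 v230 (k8 v112 v114 v115 v116 v119 v120 v122 v125 (k8 v241 v126 v128 v245 v132 v249 v134 v135 (k1 v136 (k1 v552 (k1 v602 (k0)))))))))))
noncomputable def ca1_175 : List VW := k8 v4 v144 v275 v280 v2 v429 v560 v22 (k8 v160 v307 v264 v27 v165 v329 v42 v178 (k8 v463 v51 v472 v59 v186 v475 v63 v189 (k8 v71 v195 v484 v72 v490 v202 v492 v81 (k8 v498 v207 v501 v210 v213 v510 v99 v219 (k8 v517 v106 v107 v523 v111 v230 v112 v114 (k8 v115 v116 v119 v120 v404 v125 v241 v126 (k1 v128 (k1 v129 (k1 v544 (k1 v599 (k0)))))))))))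
noncomputable def ca1_176 : List VW := k8 v4 v144 v275 v280 v149 v433 v293 v157 (k8 v160 v307 v167 v329 v42 v174 v338 v182 (k8 v58 v59 v186 v62 v192 v71 v364 v200 (k8 v78 v202 v493 v205 v207 v502 v211 v213 (k8 v511 v99 v219 v103 v223 v225 v108 v111 (k1 v230 (k1 v528 (k1 v595 (k0))))))))
noncomputable def ca1_177 : List VW := k8 v278 v144 v275 v274 v0 v149 v433 v293 (k8 v157 v160 v307 v167 v329 v43 v174 v338 (k8 v182 v58 v183 v186 v352 v192 v71 v195 (k8 v364 v200 v78 v203 v493 v205 v207 v502 (k8 v211 v213 v511 v217 v219 v518 v106 v225 (k1 v524 (k1 v594 (k0)))))))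
noncomputable def ca1_178 : List VW := k8 v276 v144 v274 v0 v149 v433 v157 v160 (k8 v305 v167 v327 v38 v175 v336 v182 v183 (k8 v186 v350 v192 v196 v200 v202 v493 v590 (k0)))
noncomputable def ca1_179 : List VW := k8 v3 v275 v9 v13 v304 v15 v21 v319 (k1 v31 (k1 v42 (k1 v56 (k1 v567 (k0)))))
noncomputable def ca1_180 : List VW := k8 v3 v424 v273 v0 v2 v429 v15 v21 (k8 v310 v265 v30 v334 v43 v341 v54 v59 (k1 v355 (k1 v66 (k1 v71 (k1 v367 (k1 v569 (k0)))))))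
noncomputable def ca1_181 : List VW := k8 v3 v144 v275 v0 v2 v297 v294 v21 (k8 v308 v265 v28 v330 v42 v339 v266 v52 (k8 v58 v59 v353 v64 v71 v365 v73 v79 (k1 v373 (k1 v570 (k0)))))
noncomputable def ca1_182 : List VW := k8 v3 v144 v275 v0 v263 v11 v297 v294 (k8 v21 v160 v308 v265 v28 v462 v43 v174 (k8 v464 v52 v346 v59 v186 v476 v361 v71 (k8 v365 v73 v79 v373 v82 v86 v87 v91 (k1 v94 (k1 v511 (k1 v99 (k1 v100 (k1 v573 (k0)))))))))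
noncomputable def ca1_183 : List VW := k8 v4 v144 v275 v0 v149 v433 v293 v157 (k8 v160 v313 v167 v329 v42 v174 v338 v182 (k8 v185 v186 v352 v192 v71 v195 v200 v202 (k1 v493 (k1 v590 (k0)))))
noncomputable def ca1_184 : List VW := k8 v416 v144 v421 v149 v426 v160 v441 v167 (k8 v452 v174 v464 v180 v469 v186 v476 v190 (k8 v480 v195 v485 v199 v488 v202 v493 v205 (k8 v496 v207 v502 v211 v214 v511 v217 v220 (k8 v224 v226 v229 v230 v232 v233 v235 v237 (k8 v239 v241 v244 v245 v247 v249 v251 v252 (k8 v254 v255 v256 v257 v259 v260 v261 v604 (k0)))))))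
noncomputable def ca1_185 : List VW := k8 v416 v144 v417 v418 v149 v426 v160 v441 (k8 v167 v452 v174 v464 v180 v469 v186 v476 (k8 v190 v480 v195 v485 v199 v488 v202 v493 (k8 v205 v496 v504 v212 v214 v511 v217 v220 (k8 v224 v226 v229 v230 v232 v233 v235 v237 (k8 v239 v241 v244 v245 v247 v249 v251 v252 (k8 v254 v255 v256 v257 v259 v260 v261 v604 (k0)))))))
noncomputable def ca1_186 : List VW := k8 v1 v147 v422 v149 v426 v160 v441 v167 (k8 v452 v174 v464 v180 v469 v186 v476 v190 (k8 v480 v195 v485 v199 v488 v202 v493 v205 (k8 v496 v504 v212 v214 v511 v217 v220 v224 (k8 v226 v229 v230 v232 v233 v235 v237 v239 (k8 v241 v243 v245 v247 v249 v251 v252 v254 (k1 v601 (k0)))))))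
noncomputable def ca1_187 : List VW := k1 v1 (k1 v144 (k1 v420 (k1 v434 (k1 v163 (k1 v167 (k1 v586 (k0)))))))
noncomputable def ca1_188 : List VW := k8 v1 v144 v417 v418 v149 v427 v160 v441 (k8 v167 v452 v174 v464 v180 v469 v186 v476 (k8 v190 v480 v195 v485 v199 v488 v202 v493 (k8 v205 v496 v504 v212 v214 v511 v217 v220 (k8 v224 v226 v229 v230 v232 v233 v235 v237 (k8 v239 v241 v243 v245 v247 v249 v251 v252 (k1 v254 (k1 v601 (k0))))))))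
noncomputable def ca1_189 : List VW := k8 v1 v144 v417 v418 v149 v427 v160 v441 (k8 v167 v452 v174 v464 v180 v469 v186 v476 (k8 v190 v480 v195 v485 v199 v488 v202 v493 (k8 v205 v496 v504 v212 v214 v511 v217 v220 (k8 v224 v226 v229 v230 v232 v233 v235 v237 (k8 v239 v241 v244 v245 v247 v249 v251 v252 (k1 v254 (k1 v255 (k1 v256 (k1 v257 (k1 v259 (k1 v603 (k0))))))))))))
noncomputable def ca1_190 : List VW := k8 v1 v144 v417 v418 v149 v427 v160 v441 (k8 v167 v452 v174 v464 v180 v469 v186 v476 (k8 v190 v480 v195 v485 v199 v488 v202 v493 (k8 v205 v496 v207 v502 v211 v214 v511 v516 (k8 v220 v224 v226 v229 v230 v232 v233 v235 (k8 v237 v239 v241 v244 v245 v247 v249 v251 (k8 v252 v254 v255 v256 v257 v259 v260 v261 (k1 v604 (k0))))))))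
noncomputable def ca1_191 : List VW := k1 v146 (k1 v418 (k1 v433 (k1 v160 (k1 v167 (k1 v586 (k0))))))
noncomputable def ca1_192 : List VW := k8 v1 v144 v417 v421 v149 v433 v426 v160 (k8 v443 v167 v452 v174 v464 v180 v470 v186 (k8 v476 v190 v480 v195 v485 v199 v488 v202 (k8 v493 v205 v496 v207 v502 v211 v214 v511 (k8 v217 v220 v224 v226 v229 v230 v232 v233 (k8 v235 v237 v239 v241 v243 v245 v247 v249 (k1 v251 (k1 v252 (k1 v254 (k1 v601 (k0))))))))))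
noncomputable def ca1_193 : List VW := k8 v1 v144 v417 v422 v149 v433 v426 v160 (k8 v443 v167 v453 v174 v464 v180 v470 v186 (k8 v476 v190 v480 v195 v485 v199 v488 v202 (k8 v493 v205 v496 v207 v502 v211 v214 v511 (k8 v217 v220 v224 v226 v229 v230 v232 v233 (k8 v235 v237 v239 v241 v244 v245 v247 v249 (k8 v251 v252 v254 v255 v256 v257 v259 v260 (k1 v261 (k1 v604 (k0)))))))))
noncomputable def ca1_194 : List VW := k8 v1 v144 v417 v421 v149 v433 v426 v160 (k8 v443 v167 v453 v174 v464 v180 v470 v186 (k8 v476 v190 v480 v195 v485 v199 v488 v202 (k8 v493 v205 v496 v207 v502 v211 v214 v511 (k8 v217 v220 v224 v226 v229 v230 v232 v233 (k8 v235 v237 v239 v241 v244 v245 v247 v249 (k8 v251 v252 v254 v255 v256 v257 v259 v603 (k0)))))))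
noncomputable def ca1_195 : List VW := k8 v1 v144 v417 v421 v149 v433 v426 v160 (k8 v442 v167 v452 v174 v464 v180 v469 v186 (k8 v476 v190 v480 v195 v485 v199 v488 v202 (k8 v493 v205 v496 v207 v502 v211 v214 v511 (k8 v217 v220 v224 v226 v229 v230 v232 v233 (k8 v235 v237 v239 v241 v243 v245 v247 v249 (k1 v251 (k1 v252 (k1 v254 (k1 v255 (k1 v256 (k1 v602 (k0))))))))))))
noncomputable def ca1_196 : List VW := k8 v1 v144 v418 v149 v153 v162 v441 v586 (k0)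
noncomputable def ca1_197 : List VW := k8 v1 v144 v423 v418 v149 v433 v426 v160 (k8 v443 v167 v460 v452 v174 v464 v180 v470 (k8 v186 v476 v190 v480 v195 v485 v199 v488 (k8 v202 v493 v205 v496 v207 v502 v211 v214 (k8 v511 v217 v220 v224 v226 v229 v230 v232 (k8 v233 v235 v237 v239 v241 v244 v245 v247 (k8 v249 v251 v252 v254 v255 v256 v257 v259 (k1 v260 (k1 v261 (k1 v604 (k0))))))))))
noncomputable def ca1_198 : List VW := k8 v1 v144 v423 v418 v149 v433 v426 v160 (k8 v443 v169 v453 v174 v464 v180 v470 v186 (k8 v476 v190 v480 v195 v485 v199 v488 v202 (k8 v493 v205 v496 v207 v502 v211 v214 v511 (k8 v217 v220 v224 v226 v228 v230 v232 v233 (k8 v235 v237 v239 v241 v243 v245 v247 v249 (k8 v251 v252 v254 v255 v256 v257 v259 v603 (k0)))))))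
noncomputable def ca1_199 : List VW := k8 v1 v144 v417 v421 v149 v433 v426 v160 (k8 v443 v167 v453 v174 v464 v180 v470 v186 (k8 v476 v190 v480 v195 v485 v199 v488 v202 (k8 v493 v205 v496 v207 v502 v211 v214 v511 (k8 v217 v220 v224 v226 v228 v230 v232 v233 (k8 v235 v237 v239 v241 v243 v245 v247 v249 (k1 v251 (k1 v252 (k1 v254 (k1 v601 (k0))))))))))
noncomputable def ca1_200 : List VW := k8 v1 v144 v423 v418 v149 v433 v426 v161 (k8 v444 v167 v460 v452 v174 v465 v180 v470 (k8 v186 v476 v190 v481 v195 v485 v199 v488 (k8 v202 v493 v205 v496 v207 v502 v211 v214 (k8 v511 v217 v220 v224 v226 v228 v230 v232 (k8 v233 v235 v237 v239 v241 v243 v245 v247 (k8 v249 v251 v252 v254 v255 v256 v257 v259 (k1 v260 (k1 v261 (k1 v604 (k0))))))))))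
noncomputable def ca1_201 : List VW := k8 v1 v144 v423 v418 v149 v433 v426 v160 (k8 v444 v167 v460 v452 v174 v465 v180 v470 (k8 v186 v476 v190 v480 v195 v485 v199 v488 (k8 v202 v493 v205 v496 v207 v502 v211 v214 (k8 v511 v217 v220 v224 v226 v229 v230 v232 (k8 v233 v235 v237 v239 v241 v244 v245 v247 (k8 v249 v251 v252 v254 v255 v256 v257 v259 (k1 v260 (k1 v261 (k1 v604 (k0))))))))))
noncomputable def ca1_202 : List VW := k8 v1 v144 v274 v423 v418 v149 v433 v426 (k8 v160 v446 v441 v167 v460 v452 v174 v465 (k8 v180 v470 v186 v476 v190 v481 v195 v485 (k8 v199 v489 v202 v493 v205 v496 v207 v502 (k8 v211 v214 v511 v217 v220 v518 v223 v225 (k8 v524 v228 v230 v528 v231 v233 v235 v237 (k8 v239 v241 v243 v245 v247 v249 v251 v252 (k1 v254 (k1 v255 (k1 v256 (k1 v602 (k0)))))))))))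
noncomputable def ca1_203 : List VW := k8 v1 v144 v274 v423 v418 v149 v433 v426 (k8 v160 v446 v441 v167 v460 v452 v174 v465 (k8 v180 v470 v186 v476 v190 v481 v195 v485 (k8 v199 v489 v202 v493 v205 v497 v207 v502 (k8 v211 v214 v511 v217 v220 v518 v223 v226 (k8 v524 v228 v230 v528 v231 v233 v235 v237 (k8 v239 v241 v243 v245 v247 v249 v251 v252 (k8 v254 v255 v256 v257 v259 v260 v261 v604 (k0))))))))
noncomputable def ca1_204 : List VW := k8 v1 v147 v423 v418 v149 v433 v426 v160 (k8 v446 v441 v167 v460 v452 v174 v465 v180 (k8 v470 v186 v476 v190 v481 v195 v485 v199 (k8 v489 v202 v493 v205 v496 v207 v502 v211 (k8 v214 v511 v217 v220 v518 v223 v226 v524 (k8 v228 v230 v232 v233 v235 v237 v239 v241 (k8 v243 v245 v247 v249 v251 v252 v254 v255 (k1 v256 (k1 v257 (k1 v259 (k1 v260 (k1 v261 (k1 v604 (k0)))))))))))))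
noncomputable def ca1_205 : List VW := k8 v1 v144 v423 v418 v149 v433 v426 v160 (k8 v436 v444 v167 v460 v452 v174 v465 v180 (k8 v470 v186 v476 v190 v481 v195 v485 v199 (k8 v488 v202 v493 v205 v496 v207 v502 v211 (k8 v214 v511 v217 v220 v518 v223 v226 v228 (k8 v230 v232 v233 v235 v237 v239 v241 v243 (k8 v245 v247 v249 v251 v252 v254 v255 v256 (k1 v257 (k1 v259 (k1 v260 (k1 v261 (k1 v604 (k0))))))))))))
noncomputable def ca1_206 : List VW := k8 v1 v144 v417 v421 v149 v427 v160 v441 (k8 v167 v452 v174 v464 v180 v184 v186 v476 (k1 v190 (k1 v196 (k1 v200 (k1 v589 (k0))))))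
noncomputable def ca1_207 : List VW := k8 v276 v144 v275 v423 v0 v149 v433 v291 (k8 v157 v160 v446 v305 v168 v460 v452 v174 (k8 v465 v182 v470 v186 v476 v190 v481 v195 (k8 v485 v199 v489 v202 v493 v205 v86 v208 (k8 v502 v211 v214 v511 v217 v220 v518 v223 (k8 v225 v524 v228 v230 v528 v231 v233 v531 (k8 v235 v237 v536 v239 v241 v541 v543 v544 (k8 v545 v546 v547 v549 v255 v256 v257 v259 (k1 v603 (k0)))))))))
noncomputable def ca1_208 : List VW := k8 v1 v144 v275 v423 v0 v149 v433 v291 (k8 v158 v160 v446 v441 v167 v460 v452 v174 (k8 v465 v182 v470 v186 v476 v190 v481 v195 (k8 v485 v199 v489 v202 v493 v205 v497 v207 (k8 v502 v211 v213 v511 v217 v220 v518 v223 (k8 v225 v524 v228 v230 v528 v231 v233 v531 (k8 v532 v536 v239 v241 v541 v543 v544 v545 (k8 v546 v252 v254 v255 v256 v257 v259 v260 (k1 v261 (k1 v604 (k0))))))))))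
noncomputable def ca1_209 : List VW := k8 v1 v144 v275 v423 v0 v149 v433 v426 (k8 v160 v446 v441 v167 v460 v452 v174 v465 (k8 v182 v470 v186 v476 v190 v481 v195 v485 (k8 v199 v489 v202 v493 v205 v497 v207 v502 (k8 v211 v214 v511 v217 v220 v518 v223 v225 (k8 v524 v228 v230 v528 v231 v233 v531 v235 (k8 v237 v536 v239 v241 v541 v543 v544 v545 (k8 v546 v252 v254 v255 v256 v257 v259 v260 (k1 v261 (k1 v604 (k0))))))))))
noncomputable def ca1_210 : List VW := k8 v1 v144 v274 v423 v279 v149 v433 v426 (k8 v160 v446 v441 v167 v460 v452 v174 v465 (k8 v182 v470 v186 v476 v190 v481 v195 v485 (k8 v199 v489 v202 v493 v205 v497 v207 v502 (k8 v211 v214 v511 v217 v220 v518 v223 v225 (k8 v524 v228 v230 v528 v231 v233 v531 v235 (k8 v237 v536 v239 v241 v541 v543 v544 v545 (k8 v546 v252 v254 v255 v256 v257 v259 v260 (k1 v261 (k1 v604 (k0))))))))))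
noncomputable def ca1_211 : List VW := k8 v1 v144 v274 v423 v279 v149 v433 v426 (k8 v160 v446 v441 v167 v460 v452 v174 v465 (k8 v180 v470 v186 v476 v190 v481 v195 v485 (k8 v199 v489 v202 v493 v205 v497 v207 v502 (k8 v211 v214 v511 v217 v220 v518 v223 v225 (k8 v524 v228 v230 v528 v231 v233 v531 v235 (k8 v237 v536 v239 v241 v541 v543 v544 v545 (k8 v546 v547 v549 v255 v256 v257 v259 v260 (k1 v261 (k1 v604 (k0))))))))))
noncomputable def ca1_212 : List VW := k8 v1 v144 v274 v423 v287 v149 v433 v426 (k8 v160 v446 v441 v167 v460 v452 v174 v465 (k8 v180 v470 v186 v476 v190 v481 v195 v485 (k8 v199 v489 v202 v493 v205 v497 v207 v502 (k8 v211 v214 v511 v217 v220 v518 v223 v225 (k8 v524 v228 v230 v528 v231 v233 v235 v237 (k8 v239 v241 v243 v245 v247 v249 v251 v252 (k8 v254 v255 v256 v257 v259 v260 v261 v604 (k0))))))))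
noncomputable def ca1_213 : List VW := k8 v1 v144 v274 v423 v287 v149 v433 v426 (k8 v160 v446 v441 v167 v460 v452 v174 v465 (k8 v180 v470 v186 v476 v190 v481 v195 v485 (k8 v199 v489 v202 v493 v205 v497 v207 v502 (k8 v211 v214 v511 v217 v220 v518 v223 v226 (k8 v524 v228 v230 v528 v231 v233 v235 v237 (k8 v239 v241 v243 v245 v247 v249 v251 v252 (k8 v254 v255 v256 v257 v259 v260 v261 v604 (k0))))))))
noncomputable def ca1_214 : List VW := k8 v1 v147 v423 v279 v149 v433 v426 v160 (k8 v436 v443 v167 v460 v452 v174 v464 v180 (k8 v470 v186 v476 v190 v481 v195 v485 v199 (k8 v489 v202 v493 v205 v496 v207 v502 v211 (k8 v213 v511 v217 v219 v518 v223 v225 v524 (k8 v228 v230 v528 v231 v233 v235 v237 v239 (k1 v597 (k0)))))))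
noncomputable def ca1_215 : List VW := k8 v1 v147 v423 v0 v149 v433 v158 v160 (k8 v443 v167 v452 v174 v464 v180 v470 v186 (k8 v476 v190 v481 v487 v200 v203 v493 v205 (k1 v208 (k1 v502 (k1 v211 (k1 v213 (k1 v511 (k1 v592 (k0)))))))))
noncomputable def ca1_216 : List VW := k8 v4 v144 v275 v280 v2 v10 v429 v560 (k8 v22 v160 v313 v264 v27 v165 v329 v42 (k8 v174 v338 v266 v51 v472 v59 v186 v67 (k8 v267 v63 v189 v71 v195 v484 v198 v78 (k8 v202 v492 v81 v498 v207 v501 v210 v213 (k8 v510 v99 v100 v517 v106 v107 v523 v111 (k8 v230 v112 v114 v115 v116 v119 v120 v122 (k8 v125 v241 v128 v245 v132 v249 v134 v252 (k1 v136 (k1 v552 (k1 v140 (k1 v555 (k1 v603 (k0)))))))))))))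
noncomputable def ca1_217 : List VW := k8 v278 v144 v275 v285 v2 v10 v429 v560 (k8 v290 v160 v313 v264 v27 v165 v329 v42 (k8 v174 v338 v266 v51 v472 v59 v186 v475 (k8 v63 v189 v71 v195 v484 v198 v79 v202 (k8 v492 v204 v86 v207 v501 v210 v213 v510 (k8 v99 v219 v517 v106 v225 v108 v526 v230 (k8 v112 v114 v115 v530 v118 v238 v122 v125 (k8 v241 v126 v128 v245 v132 v249 v134 v600 (k0))))))))
noncomputable def ca1_218 : List VW := k8 v278 v144 v275 v274 v0 v149 v433 v293 (k8 v157 v161 v313 v169 v329 v170 v174 v338 (k8 v182 v58 v183 v186 v352 v192 v71 v195 (k8 v364 v200 v79 v202 v493 v205 v86 v207 (k8 v502 v211 v213 v511 v217 v219 v518 v106 (k8 v225 v524 v111 v230 v528 v114 v233 v531 (k8 v119 v237 v536 v125 v241 v541 v128 v245 (k1 v132 (k1 v249 (k1 v134 (k1 v252 (k1 v136 (k1 v601 (k0)))))))))))))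
noncomputable def ca1_219 : List VW := k8 v278 v144 v275 v274 v280 v149 v433 v293 (k8 v157 v161 v446 v307 v167 v460 v35 v170 (k8 v174 v338 v182 v473 v183 v186 v352 v193 (k8 v190 v71 v195 v364 v200 v79 v202 v493 (k8 v205 v86 v207 v502 v211 v213 v511 v217 (k8 v219 v518 v223 v225 v524 v111 v230 v528 (k8 v114 v233 v531 v119 v237 v536 v125 v241 (k8 v541 v128 v245 v544 v132 v249 v134 v252 (k1 v136 (k1 v255 (k1 v139 (k1 v602 (k0))))))))))))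
noncomputable def ca1_220 : List VW := k8 v277 v144 v275 v274 v279 v149 v433 v292 (k8 v157 v161 v446 v306 v167 v462 v35 v170 (k8 v174 v337 v182 v473 v184 v186 v477 v192 (k8 v357 v71 v195 v485 v199 v79 v202 v493 (k8 v205 v86 v207 v502 v211 v213 v511 v217 (k8 v219 v518 v223 v225 v524 v111 v230 v528 (k8 v114 v233 v531 v119 v237 v536 v239 v241 (k8 v541 v243 v245 v544 v247 v249 v546 v252 (k1 v549 (k1 v255 (k1 v553 (k1 v257 (k1 v556 (k1 v603 (k0))))))))))))))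
noncomputable def ca1_221 : List VW := k8 v277 v144 v275 v274 v284 v149 v433 v292 (k8 v157 v161 v446 v306 v167 v462 v562 v173 (k8 v178 v465 v182 v473 v184 v186 v351 v67 (k8 v192 v357 v71 v195 v485 v199 v79 v202 (k8 v493 v205 v86 v207 v502 v211 v213 v511 (k8 v217 v219 v518 v223 v225 v524 v228 v230 (k8 v528 v114 v233 v531 v235 v237 v536 v239 (k8 v241 v541 v243 v245 v544 v247 v249 v546 (k8 v252 v549 v255 v553 v257 v556 v260 v558 (k1 v604 (k0))))))))))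
noncomputable def ca1_222 : List VW := k8 v277 v144 v275 v274 v284 v149 v433 v292 (k8 v157 v160 v446 v306 v167 v462 v562 v170 (k8 v42 v178 v465 v182 v473 v184 v186 v476 (k8 v192 v481 v195 v485 v199 v79 v202 v493 (k8 v205 v86 v207 v502 v211 v213 v511 v217 (k8 v219 v518 v223 v225 v524 v228 v230 v528 (k8 v114 v233 v531 v532 v536 v239 v241 v541 (k8 v543 v544 v545 v546 v252 v549 v255 v256 (k1 v257 (k1 v259 (k1 v603 (k0)))))))))))
noncomputable def ca1_223 : List VW := k8 v277 v144 v275 v274 v284 v149 v433 v292 (k8 v157 v160 v446 v306 v167 v460 v562 v171 (k8 v42 v178 v465 v182 v473 v184 v186 v476 (k8 v192 v481 v195 v485 v199 v79 v202 v493 (k8 v205 v86 v207 v502 v211 v213 v511 v217 (k8 v219 v518 v223 v225 v524 v228 v230 v528 (k8 v231 v233 v531 v235 v237 v536 v239 v241 (k8 v541 v543 v544 v545 v546 v252 v549 v255 (k1 v256 (k1 v257 (k1 v259 (k1 v260 (k1 v261 (k1 v604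 (k0))))))))))))))
noncomputable def ca1_224 : List VW := k8 v276 v144 v275 v423 v0 v149 v433 v291 (k8 v157 v160 v446 v305 v167 v460 v562 v326 (k8 v42 v178 v465 v182 v473 v184 v186 v350 (k8 v476 v192 v481 v195 v485 v199 v79 v202 (k8 v493 v205 v86 v207 v502 v211 v213 v511 (k8 v217 v219 v518 v223 v225 v524 v228 v230 (k8 v528 v231 v233 v531 v235 v237 v536 v239 (k8 v241 v541 v543 v544 v545 v546 v547 v549 (k1 v255 (k1 v256 (k1 v257 (k1 v259 (k1 v260 (k1 v261 (k1 v604 (k0)))))))))))))))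
noncomputable def ca1_225 : List VW := k8 v276 v144 v275 v423 v0 v149 v433 v291 (k8 v157 v160 v446 v305 v167 v460 v562 v326 (k8 v42 v178 v465 v182 v473 v184 v186 v476 (k8 v192 v481 v195 v485 v199 v79 v202 v493 (k8 v205 v86 v207 v502 v211 v213 v511 v217 (k8 v219 v518 v223 v225 v524 v228 v230 v528 (k8 v231 v233 v531 v235 v237 v536 v239 v241 (k8 v541 v543 v544 v545 v546 v547 v549 v255 (k1 v256 (k1 v257 (k1 v259 (k1 v260 (k1 v261 (k1 v604 (k0))))))))))))))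
noncomputable def ca1_226 : List VW := k8 v276 v144 v275 v423 v0 v149 v433 v291 (k8 v157 v160 v446 v305 v167 v460 v452 v174 (k8 v465 v182 v470 v186 v476 v190 v481 v195 (k8 v485 v199 v79 v202 v493 v205 v86 v207 (k8 v502 v211 v213 v511 v217 v219 v518 v223 (k8 v225 v524 v228 v230 v528 v231 v233 v531 (k8 v532 v536 v239 v241 v541 v543 v544 v545 (k1 v546 (k1 v252 (k1 v254 (k1 v601 (k0)))))))))))
noncomputable def ca1_227 : List VW := k8 v276 v144 v275 v423 v0 v149 v433 v291 (k8 v157 v160 v446 v305 v167 v460 v452 v174 (k8 v465 v182 v470 v186 v476 v190 v481 v195 (k8 v485 v199 v79 v202 v493 v205 v86 v207 (k8 v502 v211 v213 v511 v217 v219 v518 v223 (k8 v225 v524 v228 v230 v528 v114 v529 v531 (k8 v532 v536 v538 v541 v543 v544 v545 v546 (k1 v600 (k0))))))))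
noncomputable def ca1_228 : List VW := k8 v1 v144 v274 v283 v149 v433 v291 v157 (k8 v161 v311 v167 v460 v452 v174 v464 v180 (k8 v470 v186 v476 v190 v194 v195 v485 v199 (k8 v79 v202 v493 v205 v208 v502 v211 v213 (k8 v511 v217 v219 v518 v223 v225 v524 v525 (k1 v528 (k1 v595 (k0)))))))
noncomputable def ca1_229 : List VW := k8 v1 v144 v274 v423 v0 v149 v433 v426 (k8 v161 v444 v167 v460 v173 v174 v464 v180 (k8 v470 v186 v476 v190 v194 v195 v485 v199 (k8 v203 v493 v205 v208 v502 v211 v213 v511 (k1 v217 (k1 v219 (k1 v518 (k1 v593 (k0))))))))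
noncomputable def ca1_230 : List VW := k8 v3 v275 v289 v13 v304 v16 v24 v319 (k1 v31 (k1 v47 (k1 v56 (k1 v567 (k0)))))
noncomputable def ca1_231 : List VW := k8 v4 v7 v275 v289 v13 v304 v16 v21 (k8 v319 v31 v36 v42 v56 v60 v68 v568 (k0))
noncomputable def ca1_232 : List VW := k8 v4 v424 v273 v0 v2 v12 v431 v15 (k8 v21 v310 v166 v30 v334 v35 v42 v341 (k8 v54 v58 v59 v355 v66 v71 v367 v569 (k0)))
noncomputable def ca1_233 : List VW := k8 v4 v424 v273 v0 v2 v12 v432 v15 (k8 v21 v23 v316 v265 v30 v334 v35 v42 (k8 v341 v266 v54 v58 v59 v355 v66 v71 (k8 v367 v75 v79 v80 v84 v86 v89 v571 (k0))))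
noncomputable def ca1_234 : List VW := k8 v4 v147 v275 v0 v2 v298 v295 v22 (k8 v161 v315 v265 v29 v165 v331 v42 v340 (k8 v266 v53 v347 v59 v354 v268 v65 v69 (k8 v71 v366 v74 v79 v374 v83 v86 v89 (k1 v92 (k1 v94 (k1 v213 (k1 v510 (k1 v99 (k1 v101 (k1 v573 (k0)))))))))))
noncomputable def ca1_235 : List VW := k8 v4 v144 v275 v0 v2 v429 v561 v21 (k8 v160 v314 v265 v28 v165 v330 v44 v339 (k8 v266 v52 v346 v59 v353 v268 v64 v69 (k8 v71 v195 v484 v198 v79 v202 v492 v82 (k8 v86 v87 v501 v210 v213 v510 v99 v100 (k8 v104 v106 v107 v108 v111 v230 v398 v114 (k1 v115 (k1 v576 (k0))))))))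
noncomputable def ca1_236 : List VW := k8 v3 v144 v275 v0 v263 v10 v296 v293 (k8 v152 v160 v307 v264 v27 v332 v329 v42 (k8 v174 v464 v51 v345 v59 v186 v476 v63 (k8 v483 v195 v485 v199 v202 v493 v205 v207 (k8 v502 v211 v213 v511 v99 v100 v103 v593 (k0)))))
noncomputable def ca1_237 : List VW := k8 v4 v144 v275 v0 v149 v300 v293 v152 (k8 v160 v307 v167 v329 v42 v174 v49 v182 (k8 v183 v186 v62 v192 v196 v200 v202 v493 (k1 v205 (k1 v207 (k1 v502 (k1 v591 (k0)))))))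
noncomputable def ca1_238 : List VW := k8 v276 v144 v274 v0 v149 v433 v153 v160 (k8 v305 v167 v460 v175 v49 v182 v183 v186 (k1 v192 (k1 v588 (k0))))

noncomputable def a8_0 : T5 :=
  (.nd 2 1858 .lw
  (.nd 2 2167 (.nd 2 2012 (.nd 2 1935 (.lf ⟨⟨0, 0, 0, 10015, 16, 1, 1⟩, 0, 0, 0, 0, [h5, h0 5884], 11, ca1_0, 0, 0⟩)
  (.lf ⟨⟨0, 0, 0, 13079, 16, 1, 1⟩, 0, 0, 0, 0, [h5, h0 5884, f9], 13, ca1_1, 0, 0⟩))
  (.lf ⟨⟨0, 0, 0, 17079, 16, 1, 1⟩, 0, 0, 0, 0, [h5, h0 5884, f9], 0, ca1_1, 0, 0⟩))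
  (.lf ⟨⟨0, 0, 0, 29226, 16, 1, 1⟩, 0, 0, 0, 0, [h5, h0 5884, f9], 0, ca1_2, 0, 0⟩)))

noncomputable def a8_1 : T5 :=
  (.nd 2 1633 .lw
  (.nd 2 1905 (.nd 2 1769 (.nd 2 1701 (.nd 2 1667 (.lf ⟨⟨0, 0, 0, 4592, 16, 2, 2⟩, 0, 0, 0, 0, [h5, h0 5882], 22, ca1_3, 0, 0⟩)
  (.lf ⟨⟨0, 0, 0, 5166, 16, 2, 1⟩, 0, 0, 0, 0, [h5, h0 5882], 17, ca1_4, 0, 0⟩))
  (.lf ⟨⟨0, 0, 0, 5812, 16, 2, 1⟩, 0, 0, 0, 0, [h5, h0 5882], 17, ca1_5, 0, 0⟩))
  (.lf ⟨⟨0, 0, 0, 7357, 16, 1, 1⟩, 0, 0, 0, 0, [h5, h0 5884], 17, ca1_6, 0, 0⟩))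
  (.lf ⟨⟨0, 0, 0, 11787, 16, 1, 1⟩, 0, 0, 0, 0, [h5, h0 5884, f8], 0, ca1_1, 0, 0⟩)))

noncomputable def a8_2 : T5 :=
  (.nd 2 1447 .lw
  (.nd 2 1688 (.nd 2 1567 (.nd 2 1507 (.nd 2 1477 (.lf ⟨⟨0, 0, 0, 2410, 16, 3, 2⟩, 42791, 256, 1, 0, [h5, h0 5880], 22, ca1_7, 0, 0⟩)
  (.lf ⟨⟨0, 0, 0, 2674, 16, 3, 2⟩, 47479, 256, 1, 0, [h5, h0 5880], 17, ca1_8, 0, 0⟩))
  (.lf ⟨⟨0, 0, 0, 2967, 16, 3, 2⟩, 58454, 256, 1, 0, [h5, h0 5880], 17, ca1_9, 0, 0⟩))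
  (.lf ⟨⟨0, 0, 0, 3653, 16, 2, 2⟩, 0, 0, 0, 0, [h5, h0 5882], 17, ca1_10, 0, 0⟩))
  (.lf ⟨⟨0, 0, 0, 5556, 16, 2, 1⟩, 0, 0, 0, 0, [h5, h0 5882, f11], 0, ca1_11, 0, 0⟩)))

noncomputable def a8_3 : T5 :=
  (.nd 2 1249 .lw
  (.nd 2 1457 (.nd 2 1353 (.nd 2 1301 (.nd 2 1275 (.lf ⟨⟨0, 0, 0, 1213, 16, 6, 4⟩, 21248, 256, 3, 0, [h5, h0 5874], 22, ca1_12, 0, 0⟩)
  (.lf ⟨⟨0, 0, 0, 1327, 16, 6, 4⟩, 23251, 256, 3, 0, [h5, h0 5874], 17, ca1_13, 0, 0⟩))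
  (.lf ⟨⟨0, 0, 0, 1453, 16, 5, 4⟩, 27843, 256, 2, 0, [h5, h0 5876], 17, ca1_14, 0, 0⟩))
  (.lf ⟨⟨0, 0, 0, 1740, 16, 4, 3⟩, 39925, 256, 1, 0, [h5, h0 5878], 17, ca1_15, 0, 0⟩))
  (.lf ⟨⟨0, 0, 0, 2495, 16, 3, 2⟩, 0, 0, 0, 0, [h5, h0 5880, f7], 0, ca1_16, 0, 0⟩)))

noncomputable def a8_4 : T5 :=
  (.nd 2 1049 .lw
  (.nd 2 1223 (.nd 2 1136 (.nd 2 1092 (.nd 2 1070 (.lf ⟨⟨0, 0, 0, 9708, 256, 12, 8⟩, 10442, 256, 6, 0, [h5, h0 5862], 22, ca1_17, 0, 0⟩)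
  (.lf ⟨⟨0, 0, 0, 10441, 256, 11, 7⟩, 11269, 256, 6, 0, [h5, h0 5864], 22, ca1_18, 0, 0⟩))
  (.lf ⟨⟨0, 0, 0, 11268, 256, 10, 7⟩, 13125, 256, 5, 0, [h5, h0 5866], 17, ca1_19, 0, 0⟩))
  (.lf ⟨⟨0, 0, 0, 13124, 256, 9, 6⟩, 17744, 256, 4, 0, [h5, h0 5868], 17, ca1_20, 0, 0⟩))
  (.lf ⟨⟨0, 0, 0, 1108, 16, 7, 5⟩, 0, 0, 0, 0, [h5, h0 5872], 17, ca1_21, 0, 0⟩)))

noncomputable def a8_5 : T5 :=
  (.nd 2 849 .lw
  (.nd 2 990 (.nd 2 919 (.nd 2 884 (.lf ⟨⟨117313, 256, 1, 4854, 256, 23, 15⟩, 5481, 256, 13, 1, [h5, h0 5844], 22, ca1_22, 0, 0⟩)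
  (.nd 2 901 (.lf ⟨⟨131984, 256, 1, 5480, 256, 20, 14⟩, 5813, 256, 12, 1, [h5, h0 5850], 17, ca1_23, 0, 0⟩)
  (.lf ⟨⟨149523, 256, 1, 5812, 256, 19, 13⟩, 6187, 256, 11, 1, [h5, h0 5852], 17, ca1_23, 0, 0⟩)))
  (.lf ⟨⟨0, 0, 0, 6186, 256, 18, 12⟩, 7913, 256, 9, 0, [h5, h0 5850], 17, ca1_24, 0, 0⟩))
  (.lf ⟨⟨0, 0, 0, 7912, 256, 14, 10⟩, 0, 0, 0, 0, [h5, h0 5858], 17, ca1_25, 0, 0⟩)))

noncomputable def a8_6 : T5 :=
  (.nd 2 645 .lw
  (.nd 2 752 (.nd 2 698 (.nd 2 671 (.lf ⟨⟨26802, 256, 8, 2393, 256, 46, 30⟩, 2620, 256, 26, 6, [h5, h0 5822], 22, ca1_26, 0, 0⟩)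
  (.nd 2 684 (.lf ⟨⟨29329, 256, 7, 2619, 256, 42, 27⟩, 2741, 256, 25, 6, [h5, h0 5828], 22, ca1_27, 0, 0⟩)
  (.nd 2 691 (.lf ⟨⟨30787, 256, 7, 2740, 256, 40, 26⟩, 2808, 256, 25, 6, [h5, h0 5832], 17, ca1_28, 0, 0⟩)
  (.lf ⟨⟨32317, 256, 6, 2807, 256, 39, 26⟩, 2877, 256, 24, 5, [h5, h0 5830], 17, ca1_28, 0, 0⟩))))
  (.nd 2 725 (.nd 2 711 (.lf ⟨⟨35365, 256, 6, 2876, 256, 38, 25⟩, 3009, 256, 23, 5, [h5, h0 5832], 17, ca1_29, 0, 0⟩)
  (.lf ⟨⟨38968, 256, 5, 3008, 256, 37, 24⟩, 3159, 256, 22, 4, [h5, h0 5830], 17, ca1_29, 0, 0⟩))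
  (.lf ⟨⟨46988, 256, 4, 3158, 256, 35, 23⟩, 3469, 256, 20, 4, [h5, h0 5832], 17, ca1_29, 0, 0⟩)))
  (.nd 2 801 (.lf ⟨⟨65992, 256, 3, 3468, 256, 32, 21⟩, 4111, 256, 17, 2, [h5, h0 5832], 17, ca1_29, 0, 0⟩)
  (.nd 2 934 (.lf ⟨⟨165906, 256, 1, 4110, 256, 27, 18⟩, 6518, 256, 11, 1, [h5, h0 5836], 17, ca1_30, 0, 0⟩)
  (.lf ⟨⟨0, 0, 0, 6517, 256, 17, 12⟩, 0, 0, 0, 0, [h5, h0 5852], 0, ca1_31, 0, 0⟩)))))

noncomputable def a8_7 : T5 :=
  (.nd 2 437 .lw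
  (.nd 2 500 (.nd 2 468 (.lf ⟨⟨6563, 256, 34, 1164, 256, 91, 58⟩, 1297, 256, 51, 23, [h5, h0 5818], 22, ca1_32, 0, 0⟩)
  (.nd 2 484 (.lf ⟨⟨7333, 256, 30, 1296, 256, 82, 53⟩, 1371, 256, 49, 21, [h5, h0 5824], 17, ca1_33, 0, 0⟩)
  (.lf ⟨⟨8192, 256, 27, 1370, 256, 78, 50⟩, 1449, 256, 46, 19, [h5, h0 5822], 17, ca1_34, 0, 0⟩)))
  (.nd 2 600 (.nd 2 550 (.nd 2 525 (.nd 2 512 (.lf ⟨⟨8903, 256, 25, 1448, 256, 74, 47⟩, 1510, 256, 45, 18, [h5, h0 5824], 17, ca1_34, 0, 0⟩)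
  (.lf ⟨⟨9742, 256, 23, 1509, 256, 71, 46⟩, 1580, 256, 43, 16, [h5, h0 5822], 17, ca1_35, 0, 0⟩))
  (.nd 2 537 (.lf ⟨⟨10587, 256, 21, 1579, 256, 68, 44⟩, 1647, 256, 41, 15, [h5, h0 5822], 17, ca1_36, 0, 0⟩)
  (.lf ⟨⟨11586, 256, 19, 1646, 256, 65, 42⟩, 1723, 256, 39, 14, [h5, h0 5822], 17, ca1_37, 0, 0⟩)))
  (.nd 2 575 (.nd 2 562 (.lf ⟨⟨12591, 256, 17, 1722, 256, 63, 40⟩, 1796, 256, 38, 13, [h5, h0 5820], 17, ca1_37, 0, 0⟩)
  (.lf ⟨⟨13778, 256, 16, 1795, 256, 60, 39⟩, 1879, 256, 36, 12, [h5, h0 5822], 17, ca1_37, 0, 0⟩))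
  (.nd 2 587 (.lf ⟨⟨14973, 256, 14, 1878, 256, 58, 37⟩, 1958, 256, 35, 11, [h5, h0 5820], 17, ca1_37, 0, 0⟩)
  (.lf ⟨⟨16384, 256, 13, 1957, 256, 55, 36⟩, 2048, 256, 33, 10, [h5, h0 5822], 17, ca1_37, 0, 0⟩))))
  (.nd 2 700 (.nd 2 650 (.nd 2 625 (.lf ⟨⟨19484, 256, 11, 2048, 256, 53, 34⟩, 2234, 256, 31, 9, [h5, h0 5820], 17, ca1_38, 0, 0⟩)
  (.lf ⟨⟨23171, 256, 9, 2233, 256, 49, 32⟩, 2436, 256, 28, 7, [h5, h0 5820], 17, ca1_39, 0, 0⟩))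
  (.lf ⟨⟨32768, 256, 6, 2435, 256, 45, 29⟩, 2897, 256, 24, 5, [h5, h0 5818], 0, ca1_40, 0, 0⟩))
  (.lf ⟨⟨0, 0, 0, 2896, 256, 38, 25⟩, 0, 0, 0, 0, [h5, h0 5810], 0, ca1_41, 0, 0⟩)))))

noncomputable def a8_8 : T5 :=
  (.nd 2 223 .lw
  (.nd 2 300 (.nd 2 261 (.lf ⟨⟨1563, 256, 154, 554, 256, 180, 110⟩, 633, 256, 97, 74, [h5, h0 5982], 17, ca1_42, 0, 0⟩)
  (.lf ⟨⟨2048, 256, 115, 632, 256, 160, 99⟩, 725, 256, 87, 61, [h5, h0 5918], 17, ca1_43, 0, 0⟩))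
  (.nd 2 400 (.nd 2 350 (.lf ⟨⟨2897, 256, 80, 724, 256, 141, 88⟩, 862, 256, 75, 46, [h5, h0 5856], 17, ca1_44, 0, 0⟩)
  (.nd 2 375 (.lf ⟨⟨3445, 256, 66, 861, 256, 120, 76⟩, 940, 256, 69, 40, [h5, h0 5858], 17, ca1_45, 0, 0⟩)
  (.lf ⟨⟨4096, 256, 55, 939, 256, 111, 70⟩, 1024, 256, 64, 35, [h5, h0 5844], 17, ca1_46, 0, 0⟩)))
  (.nd 2 500 (.nd 2 450 (.nd 2 425 (.nd 2 412 (.lf ⟨⟨4452, 256, 51, 1024, 256, 102, 65⟩, 1068, 256, 61, 32, [h5, h0 5848], 17, ca1_47, 0, 0⟩)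
  (.lf ⟨⟨4871, 256, 46, 1067, 256, 99, 63⟩, 1117, 256, 59, 30, [h5, h0 5840], 17, ca1_48, 0, 0⟩))
  (.nd 2 437 (.lf ⟨⟨5294, 256, 42, 1116, 256, 94, 60⟩, 1165, 256, 57, 28, [h5, h0 5838], 0, ca1_49, 0, 0⟩)
  (.lf ⟨⟨5793, 256, 39, 1164, 256, 91, 58⟩, 1218, 256, 55, 26, [h5, h0 5834], 0, ca1_50, 0, 0⟩)))
  (.lf ⟨⟨8192, 256, 27, 1217, 256, 87, 56⟩, 1449, 256, 46, 19, [h5, h0 5804], 0, ca1_51, 0, 0⟩))
  (.lf ⟨⟨0, 0, 0, 1448, 256, 74, 47⟩, 0, 0, 0, 0, [h5, h0 5738], 0, ca1_52, 0, 0⟩)))))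

noncomputable def a8_9 : T5 :=
  (.nd 2 99 (.nd 2 59 (.lf ⟨⟨386, 256, 942, 256, 256, 351, 200⟩, 315, 256, 171, 194, [h5, h0 7456], 0, ca1_53, 0, 0⟩)
  (.nd 2 93 (.lf ⟨⟨488, 256, 643, 314, 256, 296, 173⟩, 354, 256, 156, 167, [h5, h0 6914], 0, ca1_54, 0, 0⟩)
  (.lf ⟨⟨509, 256, 605, 353, 256, 268, 158⟩, 361, 256, 154, 163, [h5, h0 6886], 0, ca1_54, 0, 0⟩)))
  (.nd 2 159 (.nd 2 129 (.lf ⟨⟨626, 256, 455, 360, 256, 264, 155⟩, 401, 256, 142, 142, [h5, h0 6552], 0, ca1_55, 0, 0⟩)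
  (.lf ⟨⟨771, 256, 349, 400, 256, 241, 143⟩, 445, 256, 131, 123, [h5, h0 6348], 0, ca1_56, 0, 0⟩))
  (.nd 2 200 (.lf ⟨⟨1024, 256, 249, 444, 256, 220, 132⟩, 512, 256, 116, 101, [h5, h0 6146], 0, ca1_57, 0, 0⟩)
  (.nd 2 300 (.nd 2 250 (.lf ⟨⟨1449, 256, 168, 512, 256, 194, 117⟩, 609, 256, 101, 79, [h5, h0 5992], 0, ca1_58, 0, 0⟩)
  (.lf ⟨⟨2048, 256, 115, 608, 256, 166, 102⟩, 725, 256, 87, 61, [h5, h0 5906], 0, ca1_59, 0, 0⟩))
  (.nd 2 400 (.lf ⟨⟨4096, 256, 55, 724, 256, 141, 88⟩, 1024, 256, 64, 35, [h5, h0 5784], 0, ca1_60, 0, 0⟩)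
  (.lf ⟨⟨0, 0, 0, 1024, 256, 102, 65⟩, 0, 0, 0, 0, [h5, h0 5682], 0, ca1_61, 0, 0⟩))))))

theorem sa8 : SA cs8.st (bxL 552 586) :=
  sa_nd 100 (sa_rc 1 2 1 2 1245619004802 4018 a8_0 (by decide +kernel)) <|
  sa_nd 200 (sa_rc 2 4 1 1 1327241 2034 a8_1 (by decide +kernel)) <|
  sa_nd 293 (sa_rc 4 7 1 1 1327241 2034 a8_2 (by decide +kernel)) <|
  sa_nd 393 (sa_rc 8 15 1 1 1345769 2036 a8_3 (by decide +kernel)) <|
  sa_nd 493 (sa_rc 16 30 1 1 1345769 2036 a8_4 (by decide +kernel)) <|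
  sa_nd 593 (sa_rc 31 60 1 1 1345769 2036 a8_5 (by decide +kernel)) <|
  sa_nd 693 (sa_rc 61 121 1 1 1308969 2032 a8_6 (by decide +kernel)) <|
  sa_nd 793 (sa_rc 122 243 1 1 1238360 2024 a8_7 (by decide +kernel)) <|
  sa_nd 893 (sa_rc 244 487 1 1 1123835 2010 a8_8 (by decide +kernel)) <|
  sa_no a8_9 (by decide +kernel)

noncomputable def a9_0 : T5 :=
  (.nd 2 1949 .lw
  (.nd 2 2273 (.nd 2 2111 (.nd 2 2030 (.nd 2 1989 (.lf ⟨⟨0, 0, 0, 13729, 16, 1, 1⟩, 0, 0, 0, 0, [h5, h0 5884], 11, ca1_62, 0, 0⟩)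
  (.lf ⟨⟨0, 0, 0, 15771, 16, 1, 1⟩, 0, 0, 0, 0, [h5, h0 5884, f10], 13, ca1_1, 0, 0⟩))
  (.lf ⟨⟨0, 0, 0, 18179, 16, 1, 1⟩, 0, 0, 0, 0, [h5, h0 5884, f10], 13, ca1_1, 0, 0⟩))
  (.lf ⟨⟨0, 0, 0, 24070, 16, 1, 1⟩, 0, 0, 0, 0, [h5, h0 5884, f10], 0, ca1_1, 0, 0⟩))
  (.lf ⟨⟨0, 0, 0, 42201, 16, 1, 1⟩, 0, 0, 0, 0, [h5, h0 5884, f10], 0, ca1_63, 0, 0⟩)))

noncomputable def a9_1 : T5 :=
  (.nd 2 1734 .lw
  (.nd 2 2023 (.nd 2 1878 (.nd 2 1806 (.nd 2 1770 (.lf ⟨⟨0, 0, 0, 6517, 16, 2, 1⟩, 0, 0, 0, 0, [h5, h0 5882], 22, ca1_64, 0, 0⟩)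
  (.lf ⟨⟨0, 0, 0, 7383, 16, 1, 1⟩, 0, 0, 0, 0, [h5, h0 5884], 17, ca1_65, 0, 0⟩))
  (.lf ⟨⟨0, 0, 0, 8364, 16, 1, 1⟩, 0, 0, 0, 0, [h5, h0 5884], 17, ca1_66, 0, 0⟩))
  (.lf ⟨⟨0, 0, 0, 10734, 16, 1, 1⟩, 0, 0, 0, 0, [h5, h0 5884, f8], 26, ca1_67, 0, 0⟩))
  (.lf ⟨⟨0, 0, 0, 17743, 16, 1, 1⟩, 0, 0, 0, 0, [h5, h0 5884, f8], 0, ca1_1, 0, 0⟩)))

noncomputable def a9_2 : T5 :=
  (.nd 2 1520 .lw
  (.nd 2 1773 (.nd 2 1646 (.nd 2 1583 (.nd 2 1551 (.lf ⟨⟨0, 0, 0, 3104, 16, 3, 2⟩, 55301, 256, 1, 0, [h5, h0 5880], 22, ca1_68, 0, 0⟩)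
  (.lf ⟨⟨0, 0, 0, 3456, 16, 3, 2⟩, 61787, 256, 1, 0, [h5, h0 5880], 17, ca1_69, 0, 0⟩))
  (.lf ⟨⟨0, 0, 0, 3861, 16, 2, 2⟩, 0, 0, 0, 0, [h5, h0 5882], 17, ca1_70, 0, 0⟩))
  (.lf ⟨⟨0, 0, 0, 4803, 16, 2, 1⟩, 0, 0, 0, 0, [h5, h0 5882], 17, ca1_10, 0, 0⟩))
  (.lf ⟨⟨0, 0, 0, 7460, 16, 1, 1⟩, 0, 0, 0, 0, [h5, h0 5884, f11], 0, ca1_71, 0, 0⟩)))

noncomputable def a9_3 : T5 :=
  (.nd 2 1320 .lw
  (.nd 2 1540 (.nd 2 1430 (.nd 2 1375 (.nd 2 1347 (.lf ⟨⟨0, 0, 0, 1552, 16, 5, 3⟩, 27270, 256, 2, 0, [h5, h0 5876], 22, ca1_72, 0, 0⟩)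
  (.nd 2 1361 (.lf ⟨⟨0, 0, 0, 1704, 16, 5, 3⟩, 28626, 256, 2, 0, [h5, h0 5876], 22, ca1_73, 0, 0⟩)
  (.lf ⟨⟨0, 0, 0, 1789, 16, 4, 3⟩, 30049, 256, 2, 0, [h5, h0 5878], 17, ca1_74, 0, 0⟩)))
  (.lf ⟨⟨0, 0, 0, 1878, 16, 4, 3⟩, 36359, 256, 2, 0, [h5, h0 5878], 17, ca1_75, 0, 0⟩))
  (.lf ⟨⟨0, 0, 0, 2272, 16, 4, 3⟩, 53232, 256, 1, 0, [h5, h0 5878], 17, ca1_76, 0, 0⟩))
  (.lf ⟨⟨0, 0, 0, 3326, 16, 3, 2⟩, 0, 0, 0, 0, [h5, h0 5880, f7], 0, ca1_16, 0, 0⟩)))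

noncomputable def a9_4 : T5 :=
  (.nd 2 1122 .lw
  (.nd 2 1309 (.nd 2 1215 (.nd 2 1168 (.lf ⟨⟨0, 0, 0, 12503, 256, 9, 6⟩, 14665, 256, 4, 0, [h5, h0 5868], 22, ca1_77, 0, 0⟩)
  (.lf ⟨⟨0, 0, 0, 14664, 256, 8, 5⟩, 17259, 256, 4, 0, [h5, h0 5870], 17, ca1_78, 0, 0⟩))
  (.lf ⟨⟨0, 0, 0, 1078, 16, 7, 5⟩, 23905, 256, 3, 0, [h5, h0 5872], 17, ca1_79, 0, 0⟩))
  (.lf ⟨⟨0, 0, 0, 1494, 16, 5, 4⟩, 0, 0, 0, 0, [h5, h0 5876], 17, ca1_80, 0, 0⟩)))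

noncomputable def a9_5 : T5 :=
  (.nd 2 922 .lw
  (.nd 2 1075 (.nd 2 998 (.nd 2 960 (.lf ⟨⟨198669, 256, 1, 6251, 256, 18, 12⟩, 7132, 256, 10, 1, [h5, h0 5854], 22, ca1_81, 0, 0⟩)
  (.lf ⟨⟨0, 0, 0, 7131, 256, 16, 11⟩, 8136, 256, 8, 0, [h5, h0 5854], 17, ca1_82, 0, 0⟩))
  (.lf ⟨⟨0, 0, 0, 8135, 256, 14, 9⟩, 10624, 256, 6, 0, [h5, h0 5858], 17, ca1_83, 0, 0⟩))
  (.lf ⟨⟨0, 0, 0, 10623, 256, 11, 7⟩, 0, 0, 0, 0, [h5, h0 5864], 17, ca1_84, 0, 0⟩)))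

noncomputable def a9_6 : T5 :=
  (.nd 2 720 .lw
  (.nd 2 801 (.nd 2 760 (.lf ⟨⟨49668, 256, 4, 3104, 256, 35, 23⟩, 3566, 256, 19, 3, [h5, h0 5830], 22, ca1_85, 0, 0⟩)
  (.nd 2 780 (.lf ⟨⟨57053, 256, 3, 3565, 256, 31, 21⟩, 3822, 256, 18, 3, [h5, h0 5836], 17, ca1_86, 0, 0⟩)
  (.lf ⟨⟨65992, 256, 3, 3821, 256, 29, 19⟩, 4111, 256, 17, 2, [h5, h0 5838], 17, ca1_87, 0, 0⟩)))
  (.nd 2 934 (.nd 2 867 (.lf ⟨⟨104273, 256, 2, 4110, 256, 27, 18⟩, 5167, 256, 13, 1, [h5, h0 5838], 17, ca1_85, 0, 0⟩)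
  (.lf ⟨⟨165906, 256, 1, 5166, 256, 22, 14⟩, 6518, 256, 11, 1, [h5, h0 5846], 17, ca1_88, 0, 0⟩))
  (.lf ⟨⟨0, 0, 0, 6517, 256, 17, 12⟩, 0, 0, 0, 0, [h5, h0 5852], 0, ca1_89, 0, 0⟩))))

noncomputable def a9_7 : T5 :=
  (.nd 2 514 .lw
  (.nd 2 600 (.nd 2 557 (.lf ⟨⟨12162, 256, 18, 1520, 256, 70, 45⟩, 1765, 256, 39, 14, [h5, h0 5810], 22, ca1_90, 0, 0⟩)
  (.nd 2 578 (.lf ⟨⟨14067, 256, 15, 1764, 256, 61, 40⟩, 1898, 256, 36, 12, [h5, h0 5818], 17, ca1_37, 0, 0⟩)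
  (.lf ⟨⟨16384, 256, 13, 1897, 256, 57, 37⟩, 2048, 256, 33, 10, [h5, h0 5818], 17, ca1_37, 0, 0⟩)))
  (.nd 2 700 (.nd 2 650 (.nd 2 625 (.lf ⟨⟨19484, 256, 11, 2048, 256, 53, 34⟩, 2234, 256, 31, 9, [h5, h0 5820], 17, ca1_37, 0, 0⟩)
  (.lf ⟨⟨23171, 256, 9, 2233, 256, 49, 32⟩, 2436, 256, 28, 7, [h5, h0 5820], 17, ca1_38, 0, 0⟩))
  (.lf ⟨⟨32768, 256, 6, 2435, 256, 45, 29⟩, 2897, 256, 24, 5, [h5, h0 5818], 17, ca1_38, 0, 0⟩))
  (.nd 2 801 (.lf ⟨⟨65992, 256, 3, 2896, 256, 38, 25⟩, 4111, 256, 17, 2, [h5, h0 5820], 17, ca1_91, 0, 0⟩)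
  (.lf ⟨⟨0, 0, 0, 4110, 256, 27, 18⟩, 0, 0, 0, 0, [h5, h0 5832], 0, ca1_92, 0, 0⟩)))))

noncomputable def a9_8 : T5 :=
  (.nd 2 302 .lw
  (.nd 2 400 (.nd 2 351 (.lf ⟨⟨2917, 256, 79, 729, 256, 141, 87⟩, 865, 256, 74, 46, [h5, h0 5854], 17, ca1_93, 0, 0⟩)
  (.nd 2 375 (.lf ⟨⟨3445, 256, 66, 864, 256, 120, 75⟩, 940, 256, 69, 40, [h5, h0 5858], 17, ca1_94, 0, 0⟩)
  (.lf ⟨⟨4096, 256, 55, 939, 256, 111, 70⟩, 1024, 256, 64, 35, [h5, h0 5844], 17, ca1_95, 0, 0⟩)))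
  (.nd 2 500 (.nd 2 450 (.nd 2 425 (.lf ⟨⟨4871, 256, 46, 1024, 256, 102, 65⟩, 1117, 256, 59, 30, [h5, h0 5834], 17, ca1_96, 0, 0⟩)
  (.lf ⟨⟨5793, 256, 39, 1116, 256, 94, 60⟩, 1218, 256, 55, 26, [h5, h0 5828], 17, ca1_97, 0, 0⟩))
  (.nd 2 475 (.lf ⟨⟨6889, 256, 32, 1217, 256, 87, 56⟩, 1328, 256, 50, 22, [h5, h0 5820], 17, ca1_98, 0, 0⟩)
  (.nd 2 487 (.lf ⟨⟨7487, 256, 30, 1327, 256, 80, 51⟩, 1385, 256, 48, 21, [h5, h0 5828], 17, ca1_99, 0, 0⟩)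
  (.lf ⟨⟨8192, 256, 27, 1384, 256, 77, 49⟩, 1449, 256, 46, 19, [h5, h0 5824], 17, ca1_100, 0, 0⟩))))
  (.nd 2 600 (.nd 2 550 (.nd 2 525 (.nd 2 512 (.lf ⟨⟨8903, 256, 25, 1448, 256, 74, 47⟩, 1510, 256, 45, 18, [h5, h0 5824], 17, ca1_101, 0, 0⟩)
  (.lf ⟨⟨9742, 256, 23, 1509, 256, 71, 46⟩, 1580, 256, 43, 16, [h5, h0 5822], 0, ca1_102, 0, 0⟩))
  (.lf ⟨⟨11586, 256, 19, 1579, 256, 68, 44⟩, 1723, 256, 39, 14, [h5, h0 5816], 0, ca1_103, 0, 0⟩))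
  (.lf ⟨⟨16384, 256, 13, 1722, 256, 63, 40⟩, 2048, 256, 33, 10, [h5, h0 5806], 0, ca1_104, 0, 0⟩))
  (.lf ⟨⟨0, 0, 0, 2048, 256, 53, 34⟩, 0, 0, 0, 0, [h5, h0 5780], 0, ca1_105, 0, 0⟩)))))

noncomputable def a9_9 : T5 :=
  (.nd 2 135 .lw
  (.nd 2 200 (.lf ⟨⟨1024, 256, 249, 408, 256, 237, 141⟩, 512, 256, 116, 101, [h5, h0 6112], 17, ca1_106, 0, 0⟩)
  (.nd 2 300 (.nd 2 250 (.nd 2 225 (.lf ⟨⟨1218, 256, 204, 512, 256, 194, 117⟩, 559, 256, 108, 89, [h5, h0 6084], 12, ca1_107, 0, 0⟩)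
  (.nd 2 237 (.lf ⟨⟨1324, 256, 185, 558, 256, 179, 109⟩, 583, 256, 105, 84, [h5, h0 6066], 12, ca1_108, 0, 0⟩)
  (.lf ⟨⟨1449, 256, 168, 582, 256, 173, 106⟩, 609, 256, 101, 79, [h5, h0 6034], 12, ca1_109, 0, 0⟩)))
  (.nd 2 275 (.nd 2 262 (.lf ⟨⟨1574, 256, 153, 608, 256, 166, 102⟩, 635, 256, 97, 74, [h5, h0 6008], 12, ca1_110, 0, 0⟩)
  (.lf ⟨⟨1723, 256, 139, 634, 256, 160, 98⟩, 664, 256, 94, 69, [h5, h0 5982], 12, ca1_111, 0, 0⟩))
  (.lf ⟨⟨2048, 256, 115, 663, 256, 153, 95⟩, 725, 256, 87, 61, [h5, h0 5932], 12, ca1_112, 0, 0⟩)))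
  (.nd 2 400 (.nd 2 350 (.lf ⟨⟨2897, 256, 80, 724, 256, 141, 88⟩, 862, 256, 75, 46, [h5, h0 5856], 0, ca1_113, 0, 0⟩)
  (.lf ⟨⟨4096, 256, 55, 861, 256, 120, 76⟩, 1024, 256, 64, 35, [h5, h0 5826], 0, ca1_114, 0, 0⟩))
  (.lf ⟨⟨0, 0, 0, 1024, 256, 102, 65⟩, 0, 0, 0, 0, [h5, h0 5682], 0, ca1_115, 0, 0⟩)))))

noncomputable def a9_10 : T5 :=
  (.nd 2 99 (.lf ⟨⟨509, 256, 605, 256, 256, 351, 200⟩, 361, 256, 154, 163, [h5, h0 6720], 0, ca1_116, 0, 0⟩)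
  (.nd 2 159 (.nd 2 129 (.lf ⟨⟨626, 256, 455, 360, 256, 264, 155⟩, 401, 256, 142, 142, [h5, h0 6552], 0, ca1_117, 0, 0⟩)
  (.lf ⟨⟨771, 256, 349, 400, 256, 241, 143⟩, 445, 256, 131, 123, [h5, h0 6348], 0, ca1_118, 0, 0⟩))
  (.nd 2 200 (.lf ⟨⟨1024, 256, 249, 444, 256, 220, 132⟩, 512, 256, 116, 101, [h5, h0 6146], 0, ca1_119, 0, 0⟩)
  (.nd 2 300 (.lf ⟨⟨2048, 256, 115, 512, 256, 194, 117⟩, 725, 256, 87, 61, [h5, h0 5850], 0, ca1_120, 0, 0⟩)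
  (.lf ⟨⟨0, 0, 0, 724, 256, 141, 88⟩, 0, 0, 0, 0, [h5, h0 5604], 0, ca1_121, 0, 0⟩)))))

theorem sa9 : SA cs9.st (bxL 588 613) :=
  sa_nd 100 (sa_rc 1 2 1 2 4398046511104 4200 a9_0 (by decide +kernel)) <|
  sa_nd 200 (sa_rc 2 4 1 1 2672947 2135 a9_1 (by decide +kernel)) <|
  sa_nd 307 (sa_rc 4 8 1 1 2672947 2135 a9_2 (by decide +kernel)) <|
  sa_nd 407 (sa_rc 9 16 1 1 2672947 2135 a9_3 (by decide +kernel)) <|
  sa_nd 507 (sa_rc 17 33 1 1 2710260 2137 a9_4 (by decide +kernel)) <|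
  sa_nd 607 (sa_rc 34 67 1 1 2710260 2137 a9_5 (by decide +kernel)) <|
  sa_nd 707 (sa_rc 68 134 1 1 2672947 2135 a9_6 (by decide +kernel)) <|
  sa_nd 807 (sa_rc 135 268 1 1 2564062 2129 a9_7 (by decide +kernel)) <|
  sa_nd 907 (sa_rc 269 537 1 1 2359418 2117 a9_8 (by decide +kernel)) <|
  sa_nd 957 (sa_rc 538 760 2 1 1127124706 3007 a9_9 (by decide +kernel)) <|
  sa_no a9_10 (by decide +kernel)

noncomputable def a10_0 : T5 :=
  (.nd 2 2049 .lw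
  (.lf ⟨⟨0, 0, 0, 19416, 16, 1, 1⟩, 0, 0, 0, 0, [h5, h0 5884, f10], 26, ca1_1, 0, 0⟩))

noncomputable def a10_1 : T5 :=
  (.nd 2 1836 .lw
  (.nd 2 2142 (.nd 2 1989 (.nd 2 1912 (.nd 2 1874 (.lf ⟨⟨0, 0, 0, 9280, 16, 1, 1⟩, 0, 0, 0, 0, [h5, h0 5884], 11, ca1_122, 0, 0⟩)
  (.nd 2 1893 (.nd 2 1883 (.lf ⟨⟨0, 0, 0, 10586, 16, 1, 1⟩, 0, 0, 0, 0, [h5, h0 5884], 11, ca1_123, 0, 0⟩)
  (.lf ⟨⟨0, 0, 0, 10922, 16, 1, 1⟩, 0, 0, 0, 0, [h5, h0 5884, f9], 13, ca1_1, 0, 0⟩))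
  (.lf ⟨⟨0, 0, 0, 11307, 16, 1, 1⟩, 0, 0, 0, 0, [h5, h0 5884, f9], 13, ca1_1, 0, 0⟩)))
  (.lf ⟨⟨0, 0, 0, 12077, 16, 1, 1⟩, 0, 0, 0, 0, [h5, h0 5884, f9], 13, ca1_1, 0, 0⟩))
  (.lf ⟨⟨0, 0, 0, 15771, 16, 1, 1⟩, 0, 0, 0, 0, [h5, h0 5884, f9], 0, ca1_1, 0, 0⟩))
  (.lf ⟨⟨0, 0, 0, 26801, 16, 1, 1⟩, 0, 0, 0, 0, [h5, h0 5884, f9], 0, ca1_124, 0, 0⟩)))

noncomputable def a10_2 : T5 :=
  (.nd 2 1585 .lw
  (.nd 2 1849 (.nd 2 1717 (.nd 2 1651 (.nd 2 1618 (.lf ⟨⟨0, 0, 0, 3888, 16, 2, 2⟩, 69755, 256, 1, 0, [h5, h0 5882], 22, ca1_125, 0, 0⟩)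
  (.lf ⟨⟨0, 0, 0, 4359, 16, 2, 2⟩, 0, 0, 0, 0, [h5, h0 5882], 17, ca1_69, 0, 0⟩))
  (.lf ⟨⟨0, 0, 0, 4887, 16, 2, 1⟩, 0, 0, 0, 0, [h5, h0 5882], 17, ca1_126, 0, 0⟩))
  (.lf ⟨⟨0, 0, 0, 6144, 16, 2, 1⟩, 0, 0, 0, 0, [h5, h0 5882], 17, ca1_127, 0, 0⟩))
  (.lf ⟨⟨0, 0, 0, 9708, 16, 1, 1⟩, 0, 0, 0, 0, [h5, h0 5884, f11], 0, ca1_71, 0, 0⟩)))

noncomputable def a10_3 : T5 :=
  (.nd 2 1383 .lw
  (.nd 2 1613 (.nd 2 1498 (.nd 2 1440 (.nd 2 1411 (.lf ⟨⟨0, 0, 0, 1930, 16, 4, 3⟩, 34042, 256, 2, 0, [h5, h0 5878], 22, ca1_128, 0, 0⟩)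
  (.nd 2 1425 (.lf ⟨⟨0, 0, 0, 2127, 16, 4, 3⟩, 35734, 256, 2, 0, [h5, h0 5878], 22, ca1_129, 0, 0⟩)
  (.lf ⟨⟨0, 0, 0, 2233, 16, 4, 3⟩, 37641, 256, 1, 0, [h5, h0 5878], 17, ca1_130, 0, 0⟩)))
  (.lf ⟨⟨0, 0, 0, 2352, 16, 3, 2⟩, 46021, 256, 1, 0, [h5, h0 5880], 17, ca1_131, 0, 0⟩))
  (.lf ⟨⟨0, 0, 0, 2876, 16, 3, 2⟩, 68557, 256, 1, 0, [h5, h0 5880], 17, ca1_132, 0, 0⟩))
  (.lf ⟨⟨0, 0, 0, 4284, 16, 2, 2⟩, 0, 0, 0, 0, [h5, h0 5882, f7], 0, ca1_16, 0, 0⟩)))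

noncomputable def a10_4 : T5 :=
  (.nd 2 1185 .lw
  (.nd 2 1382 (.nd 2 1283 (.nd 2 1234 (.nd 2 1209 (.lf ⟨⟨0, 0, 0, 15554, 256, 8, 5⟩, 16904, 256, 4, 0, [h5, h0 5870], 22, ca1_133, 0, 0⟩)
  (.lf ⟨⟨0, 0, 0, 1056, 16, 7, 5⟩, 18433, 256, 3, 0, [h5, h0 5872], 17, ca1_134, 0, 0⟩))
  (.lf ⟨⟨0, 0, 0, 1152, 16, 6, 4⟩, 21845, 256, 3, 0, [h5, h0 5874], 17, ca1_135, 0, 0⟩))
  (.lf ⟨⟨0, 0, 0, 1365, 16, 6, 4⟩, 30787, 256, 2, 0, [h5, h0 5874], 17, ca1_136, 0, 0⟩))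
  (.lf ⟨⟨0, 0, 0, 1924, 16, 4, 3⟩, 0, 0, 0, 0, [h5, h0 5878, f6], 24, ca1_137, 0, 0⟩)))

noncomputable def a10_5 : T5 :=
  (.nd 2 985 .lw
  (.nd 2 1149 (.nd 2 1067 (.nd 2 1026 (.lf ⟨⟨0, 0, 0, 7777, 256, 15, 10⟩, 8965, 256, 8, 0, [h5, h0 5856], 22, ca1_138, 0, 0⟩)
  (.lf ⟨⟨0, 0, 0, 8964, 256, 13, 9⟩, 10334, 256, 7, 0, [h5, h0 5860], 17, ca1_82, 0, 0⟩))
  (.lf ⟨⟨0, 0, 0, 10333, 256, 11, 8⟩, 13730, 256, 5, 0, [h5, h0 5864], 17, ca1_83, 0, 0⟩))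
  (.lf ⟨⟨0, 0, 0, 13729, 256, 9, 6⟩, 0, 0, 0, 0, [h5, h0 5868], 17, ca1_84, 0, 0⟩)))

noncomputable def a10_6 : T5 :=
  (.nd 2 783 .lw
  (.nd 2 801 (.lf ⟨⟨65992, 256, 3, 3861, 256, 29, 19⟩, 4111, 256, 17, 2, [h5, h0 5838], 22, ca1_139, 0, 0⟩)
  (.nd 2 934 (.nd 2 867 (.nd 2 834 (.nd 2 817 (.lf ⟨⟨73732, 256, 3, 4110, 256, 27, 18⟩, 4345, 256, 16, 2, [h5, h0 5842], 22, ca1_140, 0, 0⟩)
  (.nd 2 825 (.lf ⟨⟨77936, 256, 2, 4344, 256, 26, 17⟩, 4467, 256, 16, 2, [h5, h0 5842], 17, ca1_141, 0, 0⟩)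
  (.lf ⟨⟨82953, 256, 2, 4466, 256, 25, 17⟩, 4609, 256, 15, 2, [h5, h0 5844], 17, ca1_141, 0, 0⟩)))
  (.nd 2 850 (.lf ⟨⟨92682, 256, 2, 4608, 256, 24, 16⟩, 4871, 256, 14, 2, [h5, h0 5846], 17, ca1_141, 0, 0⟩)
  (.lf ⟨⟨104273, 256, 2, 4870, 256, 23, 15⟩, 5167, 256, 13, 1, [h5, h0 5846], 17, ca1_141, 0, 0⟩)))
  (.lf ⟨⟨165906, 256, 1, 5166, 256, 22, 14⟩, 6518, 256, 11, 1, [h5, h0 5846], 17, ca1_141, 0, 0⟩))
  (.nd 2 1089 (.lf ⟨⟨0, 0, 0, 6517, 256, 17, 12⟩, 11152, 256, 6, 0, [h5, h0 5852], 17, ca1_142, 0, 0⟩)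
  (.lf ⟨⟨0, 0, 0, 11151, 256, 10, 7⟩, 0, 0, 0, 0, [h5, h0 5866], 0, ca1_143, 0, 0⟩)))))

noncomputable def a10_7 : T5 :=
  (.nd 2 579 .lw
  (.nd 2 600 (.lf ⟨⟨16384, 256, 13, 1904, 256, 57, 37⟩, 2048, 256, 33, 10, [h5, h0 5818], 22, ca1_144, 0, 0⟩)
  (.nd 2 700 (.nd 2 650 (.nd 2 625 (.nd 2 612 (.lf ⟨⟨17806, 256, 12, 2048, 256, 53, 34⟩, 2135, 256, 32, 9, [h5, h0 5822], 17, ca1_37, 0, 0⟩)
  (.lf ⟨⟨19484, 256, 11, 2134, 256, 51, 33⟩, 2234, 256, 31, 9, [h5, h0 5824], 17, ca1_37, 0, 0⟩))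
  (.nd 2 637 (.lf ⟨⟨21174, 256, 10, 2233, 256, 49, 32⟩, 2329, 256, 30, 8, [h5, h0 5824], 17, ca1_37, 0, 0⟩)
  (.lf ⟨⟨23171, 256, 9, 2328, 256, 47, 31⟩, 2436, 256, 28, 7, [h5, h0 5824], 17, ca1_37, 0, 0⟩)))
  (.nd 2 675 (.lf ⟨⟨27555, 256, 8, 2435, 256, 45, 29⟩, 2656, 256, 26, 6, [h5, h0 5824], 17, ca1_38, 0, 0⟩)
  (.lf ⟨⟨32768, 256, 6, 2655, 256, 41, 27⟩, 2897, 256, 24, 5, [h5, h0 5826], 17, ca1_38, 0, 0⟩)))
  (.nd 2 801 (.nd 2 750 (.lf ⟨⟨46341, 256, 4, 2896, 256, 38, 25⟩, 3445, 256, 20, 4, [h5, h0 5826], 17, ca1_145, 0, 0⟩)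
  (.lf ⟨⟨65992, 256, 3, 3444, 256, 32, 21⟩, 4111, 256, 17, 2, [h5, h0 5832], 17, ca1_146, 0, 0⟩))
  (.lf ⟨⟨0, 0, 0, 4110, 256, 27, 18⟩, 0, 0, 0, 0, [h5, h0 5832], 0, ca1_147, 0, 0⟩)))))

noncomputable def a10_8 : T5 :=
  (.nd 2 369 .lw
  (.nd 2 400 (.lf ⟨⟨4096, 256, 55, 919, 256, 113, 71⟩, 1024, 256, 64, 35, [h5, h0 5840], 17, ca1_148, 0, 0⟩)
  (.nd 2 500 (.nd 2 450 (.nd 2 425 (.lf ⟨⟨4871, 256, 46, 1024, 256, 102, 65⟩, 1117, 256, 59, 30, [h5, h0 5834], 17, ca1_149, 0, 0⟩)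
  (.lf ⟨⟨5793, 256, 39, 1116, 256, 94, 60⟩, 1218, 256, 55, 26, [h5, h0 5828], 17, ca1_150, 0, 0⟩))
  (.nd 2 475 (.lf ⟨⟨6889, 256, 32, 1217, 256, 87, 56⟩, 1328, 256, 50, 22, [h5, h0 5820], 17, ca1_151, 0, 0⟩)
  (.nd 2 487 (.lf ⟨⟨7487, 256, 30, 1327, 256, 80, 51⟩, 1385, 256, 48, 21, [h5, h0 5828], 17, ca1_100, 0, 0⟩)
  (.lf ⟨⟨8192, 256, 27, 1384, 256, 77, 49⟩, 1449, 256, 46, 19, [h5, h0 5824], 17, ca1_152, 0, 0⟩))))
  (.nd 2 600 (.nd 2 550 (.nd 2 525 (.nd 2 512 (.lf ⟨⟨8903, 256, 25, 1448, 256, 74, 47⟩, 1510, 256, 45, 18, [h5, h0 5824], 17, ca1_153, 0, 0⟩)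
  (.lf ⟨⟨9742, 256, 23, 1509, 256, 71, 46⟩, 1580, 256, 43, 16, [h5, h0 5822], 17, ca1_154, 0, 0⟩))
  (.nd 2 537 (.lf ⟨⟨10587, 256, 21, 1579, 256, 68, 44⟩, 1647, 256, 41, 15, [h5, h0 5822], 17, ca1_154, 0, 0⟩)
  (.lf ⟨⟨11586, 256, 19, 1646, 256, 65, 42⟩, 1723, 256, 39, 14, [h5, h0 5822], 17, ca1_90, 0, 0⟩)))
  (.nd 2 575 (.nd 2 562 (.lf ⟨⟨12591, 256, 17, 1722, 256, 63, 40⟩, 1796, 256, 38, 13, [h5, h0 5820], 17, ca1_90, 0, 0⟩)
  (.lf ⟨⟨13778, 256, 16, 1795, 256, 60, 39⟩, 1879, 256, 36, 12, [h5, h0 5822], 17, ca1_155, 0, 0⟩))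
  (.lf ⟨⟨16384, 256, 13, 1878, 256, 58, 37⟩, 2048, 256, 33, 10, [h5, h0 5816], 0, ca1_144, 0, 0⟩)))
  (.lf ⟨⟨0, 0, 0, 2048, 256, 53, 34⟩, 0, 0, 0, 0, [h5, h0 5780], 0, ca1_156, 0, 0⟩)))))

noncomputable def a10_9 : T5 :=
  (.nd 2 251 .lw
  (.nd 2 300 (.nd 2 275 (.lf ⟨⟨1723, 256, 139, 610, 256, 165, 102⟩, 664, 256, 94, 69, [h5, h0 5972], 17, ca1_157, 0, 0⟩)
  (.lf ⟨⟨2048, 256, 115, 663, 256, 153, 95⟩, 725, 256, 87, 61, [h5, h0 5932], 17, ca1_158, 0, 0⟩))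
  (.nd 2 400 (.nd 2 350 (.nd 2 325 (.lf ⟨⟨2436, 256, 96, 724, 256, 141, 88⟩, 790, 256, 80, 53, [h5, h0 5902], 17, ca1_159, 0, 0⟩)
  (.lf ⟨⟨2897, 256, 80, 789, 256, 131, 82⟩, 862, 256, 75, 46, [h5, h0 5876], 17, ca1_160, 0, 0⟩))
  (.nd 2 375 (.nd 2 362 (.lf ⟨⟨3148, 256, 73, 861, 256, 120, 76⟩, 898, 256, 72, 43, [h5, h0 5878], 17, ca1_161, 0, 0⟩)
  (.lf ⟨⟨3445, 256, 66, 897, 256, 116, 73⟩, 940, 256, 69, 40, [h5, h0 5866], 0, ca1_162, 0, 0⟩))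
  (.lf ⟨⟨4096, 256, 55, 939, 256, 111, 70⟩, 1024, 256, 64, 35, [h5, h0 5844], 0, ca1_163, 0, 0⟩)))
  (.nd 2 500 (.lf ⟨⟨8192, 256, 27, 1024, 256, 102, 65⟩, 1449, 256, 46, 19, [h5, h0 5774], 0, ca1_164, 0, 0⟩)
  (.lf ⟨⟨0, 0, 0, 1448, 256, 74, 47⟩, 0, 0, 0, 0, [h5, h0 5738], 0, ca1_165, 0, 0⟩)))))

noncomputable def a10_10 : T5 :=
  (.nd 2 41 .lw
  (.nd 2 99 (.lf ⟨⟨509, 256, 605, 295, 256, 312, 181⟩, 361, 256, 154, 163, [h5, h0 6798], 17, ca1_166, 0, 0⟩)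
  (.nd 2 159 (.nd 2 129 (.lf ⟨⟨626, 256, 455, 360, 256, 264, 155⟩, 401, 256, 142, 142, [h5, h0 6552], 17, ca1_167, 0, 0⟩)
  (.nd 2 144 (.nd 2 136 (.lf ⟨⟨658, 256, 426, 400, 256, 241, 143⟩, 411, 256, 139, 137, [h5, h0 6530], 17, ca1_168, 0, 0⟩)
  (.lf ⟨⟨695, 256, 397, 410, 256, 236, 140⟩, 422, 256, 136, 133, [h5, h0 6474], 17, ca1_169, 0, 0⟩))
  (.lf ⟨⟨771, 256, 349, 421, 256, 230, 138⟩, 445, 256, 131, 123, [h5, h0 6370], 0, ca1_170, 0, 0⟩)))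
  (.nd 2 200 (.lf ⟨⟨1024, 256, 249, 444, 256, 220, 132⟩, 512, 256, 116, 101, [h5, h0 6146], 0, ca1_171, 0, 0⟩)
  (.nd 2 300 (.nd 2 250 (.nd 2 225 (.lf ⟨⟨1218, 256, 204, 512, 256, 194, 117⟩, 559, 256, 108, 89, [h5, h0 6084], 0, ca1_172, 0, 0⟩)
  (.nd 2 237 (.lf ⟨⟨1324, 256, 185, 558, 256, 179, 109⟩, 583, 256, 105, 84, [h5, h0 6066], 0, ca1_173, 0, 0⟩)
  (.lf ⟨⟨1449, 256, 168, 582, 256, 173, 106⟩, 609, 256, 101, 79, [h5, h0 6034], 0, ca1_174, 0, 0⟩)))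
  (.nd 2 275 (.lf ⟨⟨1723, 256, 139, 608, 256, 166, 102⟩, 664, 256, 94, 69, [h5, h0 5970], 0, ca1_175, 0, 0⟩)
  (.lf ⟨⟨2048, 256, 115, 663, 256, 153, 95⟩, 725, 256, 87, 61, [h5, h0 5932], 0, ca1_176, 0, 0⟩)))
  (.nd 2 400 (.lf ⟨⟨4096, 256, 55, 724, 256, 141, 88⟩, 1024, 256, 64, 35, [h5, h0 5784], 0, ca1_177, 0, 0⟩)
  (.lf ⟨⟨0, 0, 0, 1024, 256, 102, 65⟩, 0, 0, 0, 0, [h5, h0 5682], 0, ca1_178, 0, 0⟩)))))))

noncomputable def a10_11 : T5 :=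
  (.nd 2 99 (.nd 2 59 (.lf ⟨⟨386, 256, 942, 256, 256, 351, 200⟩, 315, 256, 171, 194, [h5, h0 7456], 0, ca1_179, 0, 0⟩)
  (.lf ⟨⟨509, 256, 605, 314, 256, 296, 173⟩, 361, 256, 154, 163, [h5, h0 6830], 0, ca1_166, 0, 0⟩))
  (.nd 2 159 (.lf ⟨⟨771, 256, 349, 360, 256, 264, 155⟩, 445, 256, 131, 123, [h5, h0 6302], 0, ca1_180, 0, 0⟩)
  (.nd 2 200 (.lf ⟨⟨1024, 256, 249, 444, 256, 220, 132⟩, 512, 256, 116, 101, [h5, h0 6146], 0, ca1_181, 0, 0⟩)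
  (.nd 2 300 (.lf ⟨⟨2048, 256, 115, 512, 256, 194, 117⟩, 725, 256, 87, 61, [h5, h0 5850], 0, ca1_182, 0, 0⟩)
  (.lf ⟨⟨0, 0, 0, 724, 256, 141, 88⟩, 0, 0, 0, 0, [h5, h0 5604], 0, ca1_183, 0, 0⟩)))))

theorem sa10 : SA cs10.st (bxL 614 636) :=
  sa_nd 100 (sa_rc 1 2 0 1 2965820 2150 a10_0 (by decide +kernel)) <|
  sa_nd 200 (sa_rc 2 4 1 2 7345511021014 4274 a10_1 (by decide +kernel)) <|
  sa_nd 318 (sa_rc 4 9 1 1 4885246 2222 a10_2 (by decide +kernel)) <|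
  sa_nd 418 (sa_rc 10 18 1 1 4817990 2220 a10_3 (by decide +kernel)) <|
  sa_nd 518 (sa_rc 19 36 1 1 4885246 2222 a10_4 (by decide +kernel)) <|
  sa_nd 618 (sa_rc 37 72 1 1 4885246 2222 a10_5 (by decide +kernel)) <|
  sa_nd 718 (sa_rc 73 145 1 1 4817990 2220 a10_6 (by decide +kernel)) <|
  sa_nd 818 (sa_rc 146 290 1 1 4686241 2216 a10_7 (by decide +kernel)) <|
  sa_nd 918 (sa_rc 291 580 1 1 4372418 2206 a10_8 (by decide +kernel)) <|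
  sa_nd 968 (sa_rc 581 820 1 1 3859546 2188 a10_9 (by decide +kernel)) <|
  sa_nd 1018 (sa_rc 821 1160 1 1 1800542 2078 a10_10 (by decide +kernel)) <|
  sa_no a10_11 (by decide +kernel)

noncomputable def a11_0 : T5 :=
  (.nd 2 2109 .lw
  (.lf ⟨⟨0, 0, 0, 23904, 16, 1, 1⟩, 0, 0, 0, 0, [h5, h0 5884, f10], 26, ca1_1, 0, 0⟩))

noncomputable def a11_1 : T5 :=
  (.nd 2 1908 .lw
  (.nd 2 2226 (.nd 2 2067 (.nd 2 1987 (.nd 2 1947 (.lf ⟨⟨0, 0, 0, 11910, 16, 1, 1⟩, 0, 0, 0, 0, [h5, h0 5884], 11, ca1_184, 0, 0⟩)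
  (.lf ⟨⟨0, 0, 0, 13634, 16, 1, 1⟩, 0, 0, 0, 0, [h5, h0 5884, f9], 13, ca1_1, 0, 0⟩))
  (.lf ⟨⟨0, 0, 0, 15662, 16, 1, 1⟩, 0, 0, 0, 0, [h5, h0 5884, f9], 13, ca1_1, 0, 0⟩))
  (.lf ⟨⟨0, 0, 0, 20666, 16, 1, 1⟩, 0, 0, 0, 0, [h5, h0 5884, f9], 0, ca1_1, 0, 0⟩))
  (.lf ⟨⟨0, 0, 0, 35857, 16, 1, 1⟩, 0, 0, 0, 0, [h5, h0 5884, f9], 0, ca1_124, 0, 0⟩)))

noncomputable def a11_2 : T5 :=
  (.nd 2 1639 .lw
  (.nd 2 1912 (.nd 2 1775 (.nd 2 1707 (.nd 2 1673 (.lf ⟨⟨0, 0, 0, 4688, 16, 2, 1⟩, 0, 0, 0, 0, [h5, h0 5882], 22, ca1_125, 0, 0⟩)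
  (.lf ⟨⟨0, 0, 0, 5275, 16, 2, 1⟩, 0, 0, 0, 0, [h5, h0 5882], 17, ca1_185, 0, 0⟩))
  (.lf ⟨⟨0, 0, 0, 5934, 16, 2, 1⟩, 0, 0, 0, 0, [h5, h0 5882], 17, ca1_70, 0, 0⟩))
  (.lf ⟨⟨0, 0, 0, 7512, 16, 1, 1⟩, 0, 0, 0, 0, [h5, h0 5884], 17, ca1_186, 0, 0⟩))
  (.lf ⟨⟨0, 0, 0, 12077, 16, 1, 1⟩, 0, 0, 0, 0, [h5, h0 5884, f11], 0, ca1_187, 0, 0⟩)))

noncomputable def a11_3 : T5 :=
  (.nd 2 1462 .lw
  (.nd 2 1705 (.nd 2 1583 (.nd 2 1522 (.lf ⟨⟨0, 0, 0, 2538, 16, 3, 2⟩, 50013, 256, 1, 0, [h5, h0 5880], 11, ca1_188, 0, 0⟩)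
  (.nd 2 1552 (.nd 2 1537 (.lf ⟨⟨0, 0, 0, 3125, 16, 3, 2⟩, 52682, 256, 1, 0, [h5, h0 5880], 11, ca1_189, 0, 0⟩)
  (.nd 2 1544 (.lf ⟨⟨0, 0, 0, 3292, 16, 3, 2⟩, 53975, 256, 1, 0, [h5, h0 5880], 11, ca1_190, 0, 0⟩)
  (.lf ⟨⟨0, 0, 0, 3373, 16, 3, 2⟩, 55493, 256, 1, 0, [h5, h0 5880, f7], 12, ca1_16, 0, 0⟩)))
  (.lf ⟨⟨0, 0, 0, 3468, 16, 2, 2⟩, 61787, 256, 1, 0, [h5, h0 5882, f7], 12, ca1_16, 0, 0⟩)))
  (.lf ⟨⟨0, 0, 0, 3861, 16, 2, 2⟩, 0, 0, 0, 0, [h5, h0 5882, f7], 12, ca1_16, 0, 0⟩))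
  (.lf ⟨⟨0, 0, 0, 5893, 16, 2, 1⟩, 0, 0, 0, 0, [h5, h0 5882, f7], 0, ca1_191, 0, 0⟩)))

noncomputable def a11_4 : T5 :=
  (.nd 2 1239 .lw
  (.nd 2 1445 (.nd 2 1342 (.nd 2 1290 (.nd 2 1264 (.lf ⟨⟨0, 0, 0, 1172, 16, 6, 4⟩, 20453, 256, 3, 0, [h5, h0 5874], 22, ca1_192, 0, 0⟩)
  (.lf ⟨⟨0, 0, 0, 1278, 16, 6, 4⟩, 22382, 256, 3, 0, [h5, h0 5874], 17, ca1_193, 0, 0⟩))
  (.lf ⟨⟨0, 0, 0, 1398, 16, 5, 4⟩, 26802, 256, 2, 0, [h5, h0 5876], 17, ca1_194, 0, 0⟩))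
  (.lf ⟨⟨0, 0, 0, 1675, 16, 5, 3⟩, 38299, 256, 1, 0, [h5, h0 5876], 17, ca1_195, 0, 0⟩))
  (.lf ⟨⟨0, 0, 0, 2393, 16, 3, 2⟩, 0, 0, 0, 0, [h5, h0 5880, f6], 0, ca1_196, 0, 0⟩)))

noncomputable def a11_5 : T5 :=
  (.nd 2 1039 .lw
  (.nd 2 1212 (.nd 2 1125 (.nd 2 1082 (.lf ⟨⟨0, 0, 0, 9377, 256, 12, 8⟩, 10885, 256, 6, 0, [h5, h0 5862], 22, ca1_197, 0, 0⟩)
  (.lf ⟨⟨0, 0, 0, 10884, 256, 11, 7⟩, 12634, 256, 5, 0, [h5, h0 5864], 17, ca1_197, 0, 0⟩))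
  (.lf ⟨⟨0, 0, 0, 12633, 256, 9, 6⟩, 17080, 256, 4, 0, [h5, h0 5868], 17, ca1_198, 0, 0⟩))
  (.lf ⟨⟨0, 0, 0, 1067, 16, 7, 5⟩, 0, 0, 0, 0, [h5, h0 5872], 17, ca1_199, 0, 0⟩)))

noncomputable def a11_6 : T5 :=
  (.nd 2 839 .lw
  (.nd 2 978 (.nd 2 908 (.nd 2 873 (.lf ⟨⟨108701, 256, 2, 4688, 256, 24, 16⟩, 5276, 256, 13, 1, [h5, h0 5844], 22, ca1_140, 0, 0⟩)
  (.lf ⟨⟨138546, 256, 1, 5275, 256, 21, 14⟩, 5956, 256, 12, 1, [h5, h0 5848], 17, ca1_141, 0, 0⟩))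
  (.lf ⟨⟨0, 0, 0, 5955, 256, 19, 13⟩, 7591, 256, 9, 0, [h5, h0 5848], 17, ca1_200, 0, 0⟩))
  (.lf ⟨⟨0, 0, 0, 7590, 256, 15, 10⟩, 0, 0, 0, 0, [h5, h0 5856], 17, ca1_201, 0, 0⟩)))

noncomputable def a11_7 : T5 :=
  (.nd 2 635 .lw
  (.nd 2 740 (.nd 2 687 (.nd 2 661 (.lf ⟨⟨25007, 256, 8, 2312, 256, 47, 31⟩, 2531, 256, 27, 7, [h5, h0 5822], 22, ca1_202, 0, 0⟩)
  (.nd 2 674 (.lf ⟨⟨27365, 256, 8, 2530, 256, 43, 28⟩, 2647, 256, 26, 6, [h5, h0 5828], 17, ca1_203, 0, 0⟩)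
  (.lf ⟨⟨29945, 256, 7, 2646, 256, 41, 27⟩, 2769, 256, 25, 6, [h5, h0 5830], 17, ca1_38, 0, 0⟩)))
  (.nd 2 713 (.lf ⟨⟨35858, 256, 6, 2768, 256, 40, 26⟩, 3030, 256, 23, 5, [h5, h0 5828], 17, ca1_145, 0, 0⟩)
  (.lf ⟨⟨43238, 256, 5, 3029, 256, 36, 24⟩, 3327, 256, 21, 4, [h5, h0 5832], 17, ca1_145, 0, 0⟩)))
  (.nd 2 801 (.lf ⟨⟨65992, 256, 3, 3326, 256, 33, 22⟩, 4111, 256, 17, 2, [h5, h0 5830], 17, ca1_204, 0, 0⟩)
  (.nd 2 934 (.lf ⟨⟨165906, 256, 1, 4110, 256, 27, 18⟩, 6518, 256, 11, 1, [h5, h0 5836], 17, ca1_205, 0, 0⟩)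
  (.lf ⟨⟨0, 0, 0, 6517, 256, 17, 12⟩, 0, 0, 0, 0, [h5, h0 5852], 0, ca1_206, 0, 0⟩)))))

noncomputable def a11_8 : T5 :=
  (.nd 2 427 .lw
  (.nd 2 500 (.nd 2 463 (.lf ⟨⟨6339, 256, 35, 1124, 256, 94, 60⟩, 1274, 256, 52, 24, [h5, h0 5816], 22, ca1_207, 0, 0⟩)
  (.nd 2 481 (.lf ⟨⟨7182, 256, 31, 1273, 256, 83, 53⟩, 1356, 256, 49, 22, [h5, h0 5826], 17, ca1_208, 0, 0⟩)
  (.lf ⟨⟨8192, 256, 27, 1355, 256, 79, 50⟩, 1449, 256, 46, 19, [h5, h0 5820], 17, ca1_209, 0, 0⟩)))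
  (.nd 2 600 (.nd 2 550 (.nd 2 525 (.lf ⟨⟨9742, 256, 23, 1448, 256, 74, 47⟩, 1580, 256, 43, 16, [h5, h0 5816], 17, ca1_210, 0, 0⟩)
  (.lf ⟨⟨11586, 256, 19, 1579, 256, 68, 44⟩, 1723, 256, 39, 14, [h5, h0 5816], 17, ca1_211, 0, 0⟩))
  (.nd 2 575 (.lf ⟨⟨13778, 256, 16, 1722, 256, 63, 40⟩, 1879, 256, 36, 12, [h5, h0 5816], 17, ca1_90, 0, 0⟩)
  (.lf ⟨⟨16384, 256, 13, 1878, 256, 58, 37⟩, 2048, 256, 33, 10, [h5, h0 5816], 17, ca1_155, 0, 0⟩)))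
  (.nd 2 700 (.nd 2 650 (.nd 2 625 (.lf ⟨⟨19484, 256, 11, 2048, 256, 53, 34⟩, 2234, 256, 31, 9, [h5, h0 5820], 17, ca1_212, 0, 0⟩)
  (.lf ⟨⟨23171, 256, 9, 2233, 256, 49, 32⟩, 2436, 256, 28, 7, [h5, h0 5820], 17, ca1_213, 0, 0⟩))
  (.lf ⟨⟨32768, 256, 6, 2435, 256, 45, 29⟩, 2897, 256, 24, 5, [h5, h0 5818], 0, ca1_214, 0, 0⟩))
  (.lf ⟨⟨0, 0, 0, 2896, 256, 38, 25⟩, 0, 0, 0, 0, [h5, h0 5810], 0, ca1_215, 0, 0⟩)))))

noncomputable def a11_9 : T5 :=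
  (.nd 2 211 .lw
  (.nd 2 300 (.nd 2 255 (.lf ⟨⟨1500, 256, 161, 531, 256, 187, 114⟩, 620, 256, 99, 77, [h5, h0 5988], 17, ca1_216, 0, 0⟩)
  (.nd 2 277 (.lf ⟨⟨1747, 256, 137, 619, 256, 163, 100⟩, 669, 256, 93, 68, [h5, h0 5970], 17, ca1_217, 0, 0⟩)
  (.lf ⟨⟨2048, 256, 115, 668, 256, 152, 94⟩, 725, 256, 87, 61, [h5, h0 5934], 17, ca1_218, 0, 0⟩)))
  (.nd 2 400 (.nd 2 350 (.nd 2 325 (.lf ⟨⟨2436, 256, 96, 724, 256, 141, 88⟩, 790, 256, 80, 53, [h5, h0 5902], 17, ca1_219, 0, 0⟩)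
  (.lf ⟨⟨2897, 256, 80, 789, 256, 131, 82⟩, 862, 256, 75, 46, [h5, h0 5876], 17, ca1_220, 0, 0⟩))
  (.nd 2 375 (.lf ⟨⟨3445, 256, 66, 861, 256, 120, 76⟩, 940, 256, 69, 40, [h5, h0 5858], 17, ca1_221, 0, 0⟩)
  (.nd 2 387 (.lf ⟨⟨3744, 256, 61, 939, 256, 111, 70⟩, 979, 256, 67, 38, [h5, h0 5862], 17, ca1_222, 0, 0⟩)
  (.lf ⟨⟨4096, 256, 55, 978, 256, 107, 68⟩, 1024, 256, 64, 35, [h5, h0 5852], 17, ca1_223, 0, 0⟩))))
  (.nd 2 500 (.nd 2 450 (.nd 2 425 (.nd 2 412 (.lf ⟨⟨4452, 256, 51, 1024, 256, 102, 65⟩, 1068, 256, 61, 32, [h5, h0 5848], 17, ca1_224, 0, 0⟩)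
  (.nd 2 418 (.lf ⟨⟨4641, 256, 49, 1067, 256, 99, 63⟩, 1090, 256, 60, 31, [h5, h0 5848], 0, ca1_225, 0, 0⟩)
  (.lf ⟨⟨4871, 256, 46, 1089, 256, 97, 61⟩, 1117, 256, 59, 30, [h5, h0 5844], 0, ca1_226, 0, 0⟩)))
  (.lf ⟨⟨5793, 256, 39, 1116, 256, 94, 60⟩, 1218, 256, 55, 26, [h5, h0 5828], 0, ca1_227, 0, 0⟩))
  (.lf ⟨⟨8192, 256, 27, 1217, 256, 87, 56⟩, 1449, 256, 46, 19, [h5, h0 5804], 0, ca1_228, 0, 0⟩))
  (.lf ⟨⟨0, 0, 0, 1448, 256, 74, 47⟩, 0, 0, 0, 0, [h5, h0 5738], 0, ca1_229, 0, 0⟩)))))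

noncomputable def a11_10 : T5 :=
  (.nd 2 99 (.nd 2 59 (.lf ⟨⟨386, 256, 942, 256, 256, 351, 200⟩, 315, 256, 171, 194, [h5, h0 7456], 0, ca1_230, 0, 0⟩)
  (.lf ⟨⟨509, 256, 605, 314, 256, 296, 173⟩, 361, 256, 154, 163, [h5, h0 6830], 0, ca1_231, 0, 0⟩))
  (.nd 2 159 (.nd 2 129 (.lf ⟨⟨626, 256, 455, 360, 256, 264, 155⟩, 401, 256, 142, 142, [h5, h0 6552], 0, ca1_232, 0, 0⟩)
  (.lf ⟨⟨771, 256, 349, 400, 256, 241, 143⟩, 445, 256, 131, 123, [h5, h0 6348], 0, ca1_233, 0, 0⟩))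
  (.nd 2 200 (.lf ⟨⟨1024, 256, 249, 444, 256, 220, 132⟩, 512, 256, 116, 101, [h5, h0 6146], 0, ca1_234, 0, 0⟩)
  (.nd 2 300 (.nd 2 250 (.lf ⟨⟨1449, 256, 168, 512, 256, 194, 117⟩, 609, 256, 101, 79, [h5, h0 5992], 0, ca1_235, 0, 0⟩)
  (.lf ⟨⟨2048, 256, 115, 608, 256, 166, 102⟩, 725, 256, 87, 61, [h5, h0 5906], 0, ca1_236, 0, 0⟩))
  (.nd 2 400 (.lf ⟨⟨4096, 256, 55, 724, 256, 141, 88⟩, 1024, 256, 64, 35, [h5, h0 5784], 0, ca1_237, 0, 0⟩)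
  (.lf ⟨⟨0, 0, 0, 1024, 256, 102, 65⟩, 0, 0, 0, 0, [h5, h0 5682], 0, ca1_238, 0, 0⟩))))))

theorem sa11 : SA cs11.st (bxL 637 656) :=
  sa_nd 100 (sa_rc 1 2 0 1 4495343 2210 a11_0 (by decide +kernel)) <|
  sa_nd 200 (sa_rc 2 4 1 2 19929904076844 4418 a11_1 (by decide +kernel)) <|
  sa_nd 328 (sa_rc 4 9 1 1 8159221 2296 a11_2 (by decide +kernel)) <|
  sa_nd 428 (sa_rc 10 19 1 2 4713709537601 4210 a11_3 (by decide +kernel)) <|
  sa_nd 528 (sa_rc 20 38 1 1 8159221 2296 a11_4 (by decide +kernel)) <|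
  sa_nd 628 (sa_rc 39 77 1 1 8159221 2296 a11_5 (by decide +kernel)) <|
  sa_nd 728 (sa_rc 78 155 1 1 8159221 2296 a11_6 (by decide +kernel)) <|
  sa_nd 828 (sa_rc 156 310 1 1 7936106 2292 a11_7 (by decide +kernel)) <|
  sa_nd 928 (sa_rc 311 621 1 1 7508014 2284 a11_8 (by decide +kernel)) <|
  sa_nd 1028 (sa_rc 622 1243 1 1 6719861 2268 a11_9 (by decide +kernel)) <|
  sa_no a11_10 (by decide +kernel)

end Pool.Agent.MP_2339ce_nt.Q2.TB.RT
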