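import Pool.Agent.MP_2339ce_nt.Q2.RTc
import Pool.Agent.MP_2339ce_nt.Q2.RS

/-! Project Q2, block RT: staircases. -/

set_option autoImplicit false

noncomputable section

namespace Pool.Agent.MP_2339ce_nt.Q2.TB.RT

noncomputable def ca2_0 : List VW := k1 v1 (k1 v144 (k1 v418 (k1 v433 (k1 v160 (k1 v167 (k1 v586 (k0)))))))
noncomputable def ca2_1 : List VW := k8 v416 v144 v421 v149 v426 v160 v441 v167 (k8 v452 v174 v464 v180 v469 v186 v476 v190 (k8 v480 v195 v485 v199 v488 v202 v493 v205 (k8 v496 v504 v212 v214 v511 v217 v220 v224 (k8 v226 v229 v230 v232 v233 v235 v237 v239 (k8 v241 v244 v245 v247 v249 v251 v252 v254 (k1 v255 (k1 v256 (k1 v602 (k0)))))))))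
noncomputable def ca2_2 : List VW := k8 v416 v144 v421 v149 v426 v160 v441 v167 (k8 v452 v174 v464 v180 v469 v186 v476 v190 (k8 v480 v195 v485 v199 v488 v202 v493 v205 (k8 v496 v504 v212 v505 v513 v218 v514 v519 (k8 v224 v226 v229 v230 v232 v233 v235 v237 (k8 v239 v241 v244 v245 v247 v249 v251 v252 (k8 v254 v255 v256 v257 v259 v260 v261 v604 (k0)))))))
noncomputable def ca2_3 : List VW := k1 v145 (k1 v0 (k1 v149 (k1 v160 (k1 v167 (k1 v586 (k0))))))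
noncomputable def ca2_4 : List VW := k8 v416 v147 v422 v149 v426 v160 v441 v167 (k8 v452 v174 v464 v180 v469 v186 v476 v190 (k8 v480 v195 v485 v199 v488 v202 v493 v205 (k8 v496 v504 v212 v505 v513 v218 v514 v519 (k8 v224 v226 v229 v230 v232 v233 v235 v237 (k8 v239 v241 v244 v245 v247 v249 v251 v252 (k8 v254 v255 v256 v257 v259 v260 v261 v604 (k0)))))))
noncomputable def ca2_5 : List VW := k8 v1 v144 v418 v149 v152 v163 v167 v586 (k0)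
noncomputable def ca2_6 : List VW := k1 v1 (k1 v144 (k1 v0 (k1 v149 (k1 v163 (k1 v167 (k1 v586 (k0)))))))
noncomputable def ca2_7 : List VW := k8 v1 v144 v418 v149 v155 v160 v441 v586 (k0)
noncomputable def ca2_8 : List VW := k8 v1 v144 v417 v418 v149 v427 v160 v441 (k8 v167 v452 v174 v464 v180 v469 v186 v476 (k8 v190 v480 v195 v485 v199 v488 v202 v493 (k8 v205 v496 v504 v212 v214 v511 v217 v220 (k8 v224 v226 v229 v230 v232 v233 v235 v237 (k8 v239 v241 v244 v245 v247 v249 v251 v252 (k1 v254 (k1 v255 (k1 v256 (k1 v602 (k0))))))))))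
noncomputable def ca2_9 : List VW := k8 v1 v144 v417 v418 v149 v427 v160 v441 (k8 v167 v452 v174 v464 v180 v469 v186 v476 (k8 v190 v480 v195 v485 v199 v488 v202 v493 (k8 v205 v496 v207 v502 v211 v214 v511 v217 (k8 v514 v519 v224 v226 v229 v230 v232 v233 (k8 v235 v237 v239 v241 v244 v245 v247 v249 (k8 v251 v252 v254 v255 v256 v257 v259 v603 (k0)))))))
noncomputable def ca2_10 : List VW := k8 v1 v144 v418 v149 v152 v160 v167 v586 (k0)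
noncomputable def ca2_11 : List VW := k1 v146 (k1 v418 (k1 v433 (k1 v160 (k1 v167 (k1 v586 (k0))))))
noncomputable def ca2_12 : List VW := k8 v1 v144 v417 v421 v149 v433 v426 v160 (k8 v443 v167 v453 v174 v464 v180 v470 v186 (k8 v476 v190 v480 v195 v485 v199 v488 v202 (k8 v493 v205 v496 v207 v502 v211 v214 v511 (k8 v217 v220 v224 v226 v229 v230 v232 v233 (k8 v235 v237 v239 v241 v244 v245 v247 v249 (k1 v251 (k1 v252 (k1 v254 (k1 v255 (k1 v256 (k1 v602 (k0))))))))))))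
noncomputable def ca2_13 : List VW := k8 v1 v144 v417 v421 v149 v433 v426 v160 (k8 v443 v167 v453 v174 v464 v180 v470 v186 (k8 v476 v190 v480 v195 v485 v199 v488 v202 (k8 v493 v205 v496 v207 v502 v211 v505 v513 (k8 v218 v514 v519 v224 v226 v229 v230 v232 (k8 v233 v235 v237 v239 v241 v244 v245 v247 (k8 v249 v251 v252 v254 v255 v256 v257 v259 (k1 v260 (k1 v261 (k1 v604 (k0))))))))))
noncomputable def ca2_14 : List VW := k8 v1 v144 v417 v421 v149 v433 v426 v160 (k8 v443 v167 v453 v174 v464 v180 v470 v186 (k8 v476 v190 v480 v195 v485 v199 v488 v202 (k8 v493 v205 v496 v207 v502 v211 v214 v511 (k8 v217 v220 v224 v226 v229 v230 v232 v233 (k8 v235 v237 v239 v241 v244 v245 v247 v249 (k8 v251 v252 v254 v255 v256 v257 v259 v260 (k1 v261 (k1 v604 (k0)))))))))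
noncomputable def ca2_15 : List VW := k8 v1 v144 v417 v421 v149 v433 v426 v160 (k8 v442 v167 v452 v174 v464 v180 v469 v186 (k8 v476 v190 v480 v195 v485 v199 v488 v202 (k8 v493 v205 v496 v207 v502 v211 v214 v511 (k8 v217 v220 v224 v226 v229 v230 v232 v233 (k8 v235 v237 v239 v241 v244 v245 v247 v249 (k1 v251 (k1 v252 (k1 v254 (k1 v255 (k1 v256 (k1 v602 (k0))))))))))))
noncomputable def ca2_16 : List VW := k8 v1 v144 v418 v149 v152 v162 v441 v586 (k0)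
noncomputable def ca2_17 : List VW := k8 v1 v144 v423 v418 v149 v433 v426 v160 (k8 v443 v167 v460 v452 v174 v464 v180 v470 (k8 v186 v476 v190 v480 v195 v485 v199 v488 (k8 v202 v493 v205 v496 v207 v502 v508 v214 (k8 v511 v516 v219 v518 v223 v226 v229 v230 (k8 v232 v233 v235 v237 v239 v241 v244 v245 (k8 v247 v249 v251 v252 v254 v255 v256 v257 (k1 v259 (k1 v260 (k1 v261 (k1 v604 (k0)))))))))))
noncomputable def ca2_18 : List VW := k8 v1 v144 v423 v418 v149 v433 v426 v160 (k8 v443 v167 v460 v452 v174 v464 v180 v470 (k8 v186 v476 v190 v480 v195 v485 v199 v488 (k8 v202 v493 v205 v496 v207 v502 v211 v214 (k8 v511 v217 v220 v224 v226 v229 v230 v232 (k8 v233 v235 v237 v239 v241 v243 v245 v247 (k8 v249 v251 v252 v254 v255 v256 v257 v259 (k1 v603 (k0))))))))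
noncomputable def ca2_19 : List VW := k8 v1 v144 v423 v418 v149 v433 v426 v160 (k8 v443 v169 v453 v174 v464 v180 v470 v186 (k8 v476 v190 v480 v195 v485 v199 v488 v202 (k8 v493 v205 v496 v207 v502 v211 v214 v511 (k8 v217 v220 v224 v226 v228 v230 v232 v233 (k8 v235 v237 v239 v241 v243 v245 v247 v249 (k1 v251 (k1 v252 (k1 v254 (k1 v255 (k1 v256 (k1 v602 (k0))))))))))))
noncomputable def ca2_20 : List VW := k8 v1 v144 v417 v421 v149 v433 v426 v160 (k8 v443 v167 v452 v174 v464 v180 v470 v186 (k8 v476 v190 v480 v195 v485 v199 v488 v202 (k8 v493 v205 v496 v207 v502 v211 v214 v511 (k8 v217 v220 v224 v226 v228 v230 v232 v233 (k8 v235 v237 v239 v241 v243 v245 v247 v249 (k1 v251 (k1 v600 (k0))))))))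
noncomputable def ca2_21 : List VW := k8 v1 v144 v423 v418 v149 v433 v426 v161 (k8 v444 v167 v460 v452 v174 v465 v180 v470 (k8 v186 v476 v190 v481 v195 v485 v199 v488 (k8 v202 v493 v205 v496 v207 v502 v211 v214 (k8 v511 v217 v220 v518 v223 v226 v229 v230 (k8 v232 v233 v235 v237 v239 v241 v243 v245 (k8 v247 v249 v251 v252 v254 v255 v256 v257 (k1 v259 (k1 v260 (k1 v261 (k1 v604 (k0)))))))))))
noncomputable def ca2_22 : List VW := k8 v1 v144 v423 v418 v149 v433 v426 v161 (k8 v444 v167 v460 v452 v174 v465 v180 v470 (k8 v186 v476 v190 v481 v195 v485 v199 v488 (k8 v202 v493 v205 v496 v207 v502 v211 v214 (k8 v511 v217 v220 v224 v226 v228 v230 v232 (k8 v233 v235 v237 v239 v241 v243 v245 v247 (k8 v249 v251 v252 v254 v255 v256 v257 v259 (k1 v260 (k1 v261 (k1 v604 (k0))))))))))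
noncomputable def ca2_23 : List VW := k8 v1 v144 v423 v418 v149 v433 v426 v160 (k8 v444 v167 v460 v452 v174 v465 v180 v470 (k8 v186 v476 v190 v480 v195 v485 v199 v488 (k8 v202 v493 v205 v496 v207 v502 v211 v214 (k8 v511 v217 v220 v224 v226 v229 v230 v232 (k8 v233 v235 v237 v239 v241 v244 v245 v247 (k8 v249 v251 v252 v254 v255 v256 v257 v259 (k1 v260 (k1 v261 (k1 v604 (k0))))))))))
noncomputable def ca2_24 : List VW := k8 v1 v147 v423 v418 v149 v433 v426 v160 (k8 v438 v444 v167 v460 v452 v174 v465 v180 (k8 v470 v186 v476 v190 v481 v195 v485 v199 (k8 v489 v202 v493 v205 v496 v207 v502 v211 (k8 v214 v511 v217 v220 v518 v223 v226 v524 (k8 v228 v230 v528 v231 v233 v235 v237 v239 (k8 v241 v243 v245 v247 v249 v251 v252 v254 (k1 v255 (k1 v256 (k1 v257 (k1 v259 (k1 v603 (k0))))))))))))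
noncomputable def ca2_25 : List VW := k8 v1 v147 v423 v418 v149 v433 v426 v160 (k8 v446 v441 v167 v460 v452 v174 v465 v180 (k8 v470 v186 v476 v190 v481 v195 v485 v199 (k8 v489 v202 v493 v205 v496 v207 v502 v211 (k8 v214 v511 v217 v220 v518 v223 v226 v524 (k8 v228 v230 v528 v231 v233 v235 v237 v239 (k8 v241 v243 v245 v247 v249 v251 v252 v254 (k1 v255 (k1 v256 (k1 v257 (k1 v259 (k1 v260 (k1 v261 (k1 v604 (k0))))))))))))))
noncomputable def ca2_26 : List VW := k8 v1 v147 v423 v418 v149 v433 v426 v160 (k8 v446 v441 v167 v460 v452 v174 v465 v180 (k8 v470 v186 v476 v190 v481 v195 v485 v199 (k8 v489 v202 v493 v205 v496 v207 v502 v211 (k8 v214 v511 v217 v220 v518 v223 v226 v524 (k8 v228 v230 v232 v233 v235 v237 v239 v241 (k8 v243 v245 v247 v249 v251 v252 v254 v255 (k1 v256 (k1 v257 (k1 v259 (k1 v260 (k1 v261 (k1 v604 (k0)))))))))))))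
noncomputable def ca2_27 : List VW := k8 v1 v147 v423 v418 v149 v433 v426 v160 (k8 v446 v441 v167 v460 v452 v174 v465 v180 (k8 v470 v186 v476 v190 v481 v195 v485 v199 (k8 v488 v202 v493 v205 v496 v207 v502 v211 (k8 v214 v511 v217 v220 v518 v223 v226 v228 (k8 v230 v232 v233 v235 v237 v239 v241 v243 (k8 v245 v247 v249 v251 v252 v254 v255 v256 (k1 v257 (k1 v259 (k1 v260 (k1 v261 (k1 v604 (k0))))))))))))
noncomputable def ca2_28 : List VW := k8 v1 v144 v423 v418 v149 v433 v426 v160 (k8 v436 v444 v167 v460 v452 v174 v465 v180 (k8 v470 v186 v476 v190 v481 v195 v485 v199 (k8 v488 v202 v493 v205 v496 v207 v502 v211 (k8 v214 v511 v217 v220 v518 v223 v226 v228 (k8 v230 v232 v233 v235 v237 v239 v241 v243 (k8 v245 v247 v249 v251 v252 v254 v255 v256 (k1 v257 (k1 v259 (k1 v260 (k1 v261 (k1 v604 (k0))))))))))))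
noncomputable def ca2_29 : List VW := k8 v1 v144 v423 v418 v149 v433 v426 v161 (k8 v444 v167 v460 v452 v174 v465 v180 v470 (k8 v186 v476 v190 v481 v195 v485 v199 v488 (k8 v202 v493 v205 v496 v207 v502 v211 v214 (k8 v511 v217 v220 v518 v223 v226 v228 v230 (k8 v232 v233 v235 v237 v239 v241 v243 v245 (k8 v247 v249 v251 v252 v254 v255 v256 v602 (k0)))))))
noncomputable def ca2_30 : List VW := k8 v1 v144 v423 v418 v149 v433 v158 v160 (k8 v442 v167 v452 v174 v464 v180 v470 v186 (k8 v476 v190 v480 v487 v200 v203 v493 v205 (k1 v208 (k1 v502 (k1 v211 (k1 v213 (k1 v511 (k1 v592 (k0)))))))))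
noncomputable def ca2_31 : List VW := k8 v1 v144 v275 v423 v0 v149 v433 v291 (k8 v158 v160 v446 v441 v167 v460 v452 v174 (k8 v465 v182 v470 v186 v476 v190 v481 v195 (k8 v485 v199 v489 v202 v493 v205 v497 v207 (k8 v502 v211 v214 v511 v217 v220 v518 v223 (k8 v225 v524 v228 v230 v528 v231 v233 v531 (k8 v235 v237 v536 v239 v241 v541 v543 v544 (k1 v545 (k1 v546 (k1 v547 (k1 v549 (k1 v255 (k1 v256 (k1 v602 (k0))))))))))))))
noncomputable def ca2_32 : List VW := k8 v1 v144 v275 v423 v279 v149 v433 v426 (k8 v160 v446 v441 v167 v460 v452 v174 v465 (k8 v182 v470 v186 v476 v190 v481 v195 v485 (k8 v199 v489 v202 v493 v205 v497 v207 v502 (k8 v211 v214 v511 v217 v220 v518 v223 v225 (k8 v524 v228 v230 v528 v231 v233 v531 v235 (k8 v237 v536 v239 v241 v541 v543 v544 v545 (k8 v546 v547 v549 v255 v256 v257 v259 v260 (k1 v261 (k1 v604 (k0))))))))))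
noncomputable def ca2_33 : List VW := k8 v1 v144 v274 v423 v279 v149 v433 v426 (k8 v160 v446 v441 v167 v460 v452 v174 v465 (k8 v180 v470 v186 v476 v190 v481 v195 v485 (k8 v199 v489 v202 v493 v205 v497 v207 v502 (k8 v211 v214 v511 v217 v220 v518 v223 v225 (k8 v524 v228 v230 v528 v231 v233 v531 v532 (k8 v537 v239 v241 v541 v543 v544 v545 v546 (k8 v547 v549 v255 v256 v257 v259 v260 v261 (k1 v604 (k0)))))))))
noncomputable def ca2_34 : List VW := k8 v1 v144 v274 v423 v279 v149 v433 v426 (k8 v160 v446 v441 v167 v460 v452 v174 v465 (k8 v180 v470 v186 v476 v190 v481 v195 v485 (k8 v199 v489 v202 v493 v205 v497 v207 v502 (k8 v211 v214 v511 v217 v220 v518 v223 v225 (k8 v524 v228 v230 v528 v231 v233 v531 v532 (k8 v537 v239 v241 v541 v243 v245 v247 v249 (k8 v251 v252 v254 v255 v256 v257 v259 v260 (k1 v261 (k1 v604 (k0))))))))))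
noncomputable def ca2_35 : List VW := k8 v1 v144 v274 v423 v279 v149 v433 v426 (k8 v160 v446 v441 v167 v460 v452 v174 v465 (k8 v180 v470 v186 v476 v190 v481 v195 v485 (k8 v199 v489 v202 v493 v205 v497 v207 v502 (k8 v211 v214 v511 v217 v220 v518 v223 v225 (k8 v524 v228 v230 v528 v231 v233 v531 v532 (k8 v537 v239 v241 v243 v245 v247 v249 v251 (k8 v252 v254 v255 v256 v257 v259 v260 v261 (k1 v604 (k0)))))))))
noncomputable def ca2_36 : List VW := k8 v1 v144 v274 v423 v279 v149 v433 v426 (k8 v160 v446 v441 v167 v460 v452 v174 v465 (k8 v180 v470 v186 v476 v190 v481 v195 v485 (k8 v199 v489 v202 v493 v205 v497 v207 v502 (k8 v211 v214 v511 v217 v220 v518 v223 v225 (k8 v524 v228 v230 v528 v231 v233 v531 v235 (k8 v237 v239 v241 v243 v245 v247 v249 v251 (k8 v252 v254 v255 v256 v257 v259 v260 v261 (k1 v604 (k0)))))))))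
noncomputable def ca2_37 : List VW := k8 v1 v144 v274 v423 v287 v149 v433 v426 (k8 v160 v446 v441 v167 v460 v452 v174 v465 (k8 v180 v470 v186 v476 v190 v481 v195 v485 (k8 v199 v489 v202 v493 v205 v497 v207 v502 (k8 v211 v214 v511 v217 v220 v518 v223 v225 (k8 v524 v228 v230 v528 v231 v233 v235 v237 (k8 v239 v241 v243 v245 v247 v249 v251 v252 (k8 v254 v255 v256 v257 v259 v260 v261 v604 (k0))))))))
noncomputable def ca2_38 : List VW := k8 v1 v144 v274 v423 v418 v149 v433 v426 (k8 v160 v446 v441 v167 v460 v452 v174 v465 (k8 v180 v470 v186 v476 v190 v481 v195 v485 (k8 v199 v489 v202 v493 v205 v497 v207 v502 (k8 v211 v214 v511 v217 v220 v518 v223 v226 (k8 v524 v228 v230 v528 v231 v233 v235 v237 (k8 v239 v241 v243 v245 v247 v249 v251 v252 (k8 v254 v255 v256 v257 v259 v260 v261 v604 (k0))))))))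
noncomputable def ca2_39 : List VW := k8 v1 v144 v274 v423 v418 v149 v433 v426 (k8 v160 v446 v441 v167 v460 v452 v174 v465 (k8 v180 v470 v186 v476 v190 v481 v195 v485 (k8 v199 v489 v202 v493 v205 v496 v207 v502 (k8 v211 v214 v511 v217 v220 v518 v223 v226 (k8 v524 v228 v230 v528 v231 v233 v235 v237 (k8 v239 v241 v243 v245 v247 v249 v251 v252 (k1 v254 (k1 v255 (k1 v256 (k1 v257 (k1 v259 (k1 v603 (k0)))))))))))))
noncomputable def ca2_40 : List VW := k8 v1 v144 v274 v423 v418 v149 v433 v426 (k8 v160 v436 v444 v167 v460 v452 v174 v465 (k8 v180 v470 v186 v476 v190 v481 v195 v485 (k8 v199 v489 v202 v493 v205 v496 v207 v502 (k8 v211 v214 v511 v217 v220 v518 v223 v226 (k8 v524 v228 v230 v528 v231 v233 v235 v237 (k1 v239 (k1 v241 (k1 v243 (k1 v245 (k1 v247 (k1 v599 (k0))))))))))))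
noncomputable def ca2_41 : List VW := k8 v278 v144 v275 v274 v0 v149 v433 v293 (k8 v157 v161 v313 v169 v329 v170 v174 v338 (k8 v182 v58 v183 v186 v352 v192 v71 v195 (k8 v364 v200 v79 v202 v493 v81 v205 v86 (k8 v207 v502 v211 v213 v511 v217 v219 v518 (k8 v106 v225 v524 v111 v230 v528 v114 v233 (k8 v531 v119 v237 v536 v125 v241 v541 v128 (k1 v245 (k1 v132 (k1 v249 (k1 v134 (k1 v252 (k1 v136 (k1 v601 (k0))))))))))))))
noncomputable def ca2_42 : List VW := k8 v278 v144 v275 v274 v280 v149 v433 v293 (k8 v157 v161 v446 v307 v167 v460 v329 v170 (k8 v174 v338 v182 v58 v184 v186 v352 v192 (k8 v190 v71 v195 v364 v200 v79 v202 v493 (k8 v205 v86 v207 v502 v211 v213 v511 v217 (k8 v219 v518 v223 v225 v524 v111 v230 v528 (k8 v114 v233 v531 v119 v237 v536 v125 v241 (k8 v541 v128 v245 v544 v132 v249 v134 v252 (k1 v136 (k1 v601 (k0))))))))))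
noncomputable def ca2_43 : List VW := k8 v277 v144 v275 v274 v279 v149 v433 v292 (k8 v157 v161 v446 v306 v167 v462 v35 v170 (k8 v174 v337 v182 v473 v184 v186 v477 v192 (k8 v357 v71 v195 v485 v199 v79 v202 v493 (k8 v205 v86 v207 v502 v211 v213 v511 v217 (k8 v219 v518 v223 v225 v524 v111 v230 v528 (k8 v114 v233 v531 v119 v237 v536 v239 v241 (k8 v541 v243 v245 v544 v247 v249 v134 v252 (k1 v549 (k1 v255 (k1 v139 (k1 v602 (k0))))))))))))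
noncomputable def ca2_44 : List VW := k8 v277 v144 v275 v274 v284 v149 v433 v292 (k8 v157 v161 v446 v306 v167 v462 v562 v173 (k8 v178 v466 v182 v473 v184 v186 v351 v67 (k8 v192 v357 v71 v195 v485 v199 v79 v202 (k8 v493 v205 v86 v207 v502 v211 v213 v511 (k8 v217 v219 v518 v223 v225 v524 v228 v230 (k8 v528 v114 v233 v531 v235 v237 v536 v239 (k8 v241 v541 v243 v245 v544 v247 v249 v546 (k1 v252 (k1 v549 (k1 v255 (k1 v553 (k1 v257 (k1 v556 (k1 v603 (k0)))))))))))))))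
noncomputable def ca2_45 : List VW := k8 v277 v144 v275 v423 v0 v149 v433 v292 (k8 v157 v160 v446 v306 v167 v462 v562 v171 (k8 v174 v337 v464 v182 v473 v184 v186 v351 (k8 v476 v192 v481 v195 v485 v199 v79 v202 (k8 v493 v205 v86 v207 v502 v211 v213 v511 (k8 v217 v219 v518 v223 v225 v524 v228 v230 (k8 v528 v231 v233 v531 v235 v237 v536 v239 (k8 v241 v541 v543 v544 v545 v546 v547 v549 (k1 v255 (k1 v256 (k1 v257 (k1 v259 (k1 v260 (k1 v261 (k1 v604 (k0)))))))))))))))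
noncomputable def ca2_46 : List VW := k8 v276 v144 v275 v423 v0 v149 v433 v291 (k8 v157 v160 v446 v305 v167 v462 v562 v326 (k8 v42 v178 v465 v182 v473 v184 v186 v350 (k8 v476 v192 v481 v195 v485 v199 v79 v202 (k8 v493 v205 v86 v207 v502 v211 v214 v511 (k8 v217 v220 v518 v223 v225 v524 v228 v230 (k8 v528 v231 v233 v531 v235 v237 v536 v239 (k8 v241 v541 v543 v544 v545 v546 v547 v549 (k1 v255 (k1 v256 (k1 v257 (k1 v259 (k1 v260 (k1 v261 (k1 v604 (k0)))))))))))))))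
noncomputable def ca2_47 : List VW := k8 v276 v144 v275 v423 v0 v149 v433 v291 (k8 v157 v160 v446 v305 v167 v460 v452 v178 (k8 v465 v51 v180 v470 v186 v350 v476 v192 (k8 v481 v195 v485 v199 v489 v202 v493 v205 (k8 v86 v207 v502 v211 v214 v511 v217 v220 (k8 v518 v223 v225 v524 v228 v230 v528 v231 (k8 v233 v531 v235 v237 v536 v239 v241 v541 (k8 v243 v245 v544 v545 v546 v547 v549 v255 (k1 v256 (k1 v257 (k1 v259 (k1 v260 (k1 v261 (k1 v604 (k0))))))))))))))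
noncomputable def ca2_48 : List VW := k8 v1 v144 v275 v423 v0 v149 v433 v291 (k8 v157 v160 v446 v305 v168 v460 v452 v178 (k8 v465 v182 v180 v470 v186 v476 v190 v481 (k8 v195 v485 v199 v489 v202 v493 v205 v86 (k8 v208 v502 v211 v214 v511 v217 v220 v518 (k8 v223 v225 v524 v228 v230 v528 v231 v233 (k8 v531 v235 v237 v536 v239 v241 v541 v243 (k8 v245 v544 v545 v546 v547 v549 v255 v256 (k1 v257 (k1 v259 (k1 v260 (k1 v261 (k1 v604 (k0)))))))))))))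
noncomputable def ca2_49 : List VW := k8 v1 v144 v275 v423 v0 v149 v433 v291 (k8 v157 v160 v446 v305 v168 v460 v452 v174 (k8 v465 v182 v470 v186 v476 v190 v481 v195 (k8 v485 v199 v489 v202 v493 v205 v86 v208 (k8 v502 v211 v213 v511 v217 v219 v518 v223 (k8 v225 v524 v228 v230 v528 v231 v233 v531 (k8 v532 v536 v239 v241 v541 v543 v544 v545 (k1 v546 (k1 v600 (k0)))))))))
noncomputable def ca2_50 : List VW := k8 v1 v144 v275 v423 v279 v149 v433 v426 (k8 v160 v446 v441 v167 v460 v452 v174 v465 (k8 v182 v470 v186 v476 v190 v481 v195 v485 (k8 v199 v489 v202 v493 v205 v497 v207 v502 (k8 v211 v214 v511 v217 v220 v518 v223 v226 (k8 v524 v228 v230 v528 v231 v233 v531 v235 (k8 v237 v536 v239 v241 v541 v543 v544 v545 (k8 v546 v547 v549 v255 v256 v257 v259 v603 (k0))))))))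
noncomputable def ca2_51 : List VW := k8 v3 v275 v9 v13 v304 v15 v21 v319 (k1 v31 (k1 v42 (k1 v56 (k1 v567 (k0)))))
noncomputable def ca2_52 : List VW := k8 v4 v7 v275 v0 v13 v431 v16 v21 (k8 v319 v33 v41 v44 v57 v59 v68 v71 (k1 v76 (k1 v569 (k0))))
noncomputable def ca2_53 : List VW := k8 v4 v424 v273 v0 v2 v428 v15 v21 (k8 v310 v166 v30 v334 v35 v42 v341 v54 (k1 v60 (k1 v355 (k1 v66 (k1 v71 (k1 v367 (k1 v569 (k0))))))))
noncomputable def ca2_54 : List VW := k8 v4 v424 v273 v0 v2 v12 v431 v15 (k8 v21 v316 v166 v30 v334 v35 v42 v341 (k8 v181 v54 v58 v59 v355 v66 v71 v367 (k1 v75 (k1 v79 (k1 v375 (k1 v570 (k0)))))))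
noncomputable def ca2_55 : List VW := k8 v4 v424 v273 v0 v2 v12 v431 v15 (k8 v21 v23 v316 v166 v30 v334 v35 v42 (k8 v341 v181 v54 v58 v59 v355 v66 v71 (k1 v367 (k1 v75 (k1 v79 (k1 v375 (k1 v570 (k0))))))))
noncomputable def ca2_56 : List VW := k8 v6 v424 v273 v282 v2 v298 v295 v152 (k8 v21 v447 v315 v166 v29 v333 v331 v42 (k8 v340 v181 v53 v347 v59 v354 v191 v362 (k8 v71 v366 v74 v79 v374 v83 v86 v383 (k8 v92 v94 v389 v97 v99 v101 v105 v106 (k1 v394 (k1 v109 (k1 v110 (k1 v397 (k1 v575 (k0))))))))))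
noncomputable def ca2_57 : List VW := k8 v278 v3 v424 v273 v282 v2 v298 v295 (k8 v152 v21 v160 v324 v309 v265 v29 v333 (k8 v331 v42 v174 v340 v266 v53 v179 v347 (k8 v59 v186 v354 v268 v65 v360 v71 v366 (k8 v74 v77 v79 v374 v492 v83 v85 v86 (k8 v383 v92 v94 v389 v97 v99 v392 v105 (k8 v106 v394 v109 v111 v397 v113 v114 v115 (k8 v117 v119 v402 v123 v125 v408 v127 v128 (k1 v129 (k1 v130 (k1 v131 (k1 v413 (k1 v580 (k0)))))))))))))
noncomputable def ca2_58 : List VW := k8 v278 v3 v424 v273 v0 v2 v297 v294 (k8 v15 v22 v160 v323 v308 v265 v28 v332 (k8 v330 v42 v174 v339 v266 v52 v346 v59 (k8 v353 v268 v64 v69 v71 v365 v73 v77 (k8 v79 v373 v492 v379 v86 v382 v91 v94 (k8 v389 v96 v99 v100 v104 v106 v107 v108 (k8 v111 v397 v112 v114 v115 v116 v118 v237 (k1 v405 (k1 v125 (k1 v408 (k1 v578 (k0)))))))))))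
noncomputable def ca2_59 : List VW := k8 v278 v147 v275 v281 v2 v297 v294 v152 (k8 v21 v160 v323 v308 v265 v28 v332 v330 (k8 v42 v174 v339 v266 v52 v346 v59 v186 (k8 v353 v268 v64 v359 v71 v365 v73 v77 (k8 v79 v373 v492 v379 v86 v382 v91 v94 (k8 v389 v96 v99 v100 v104 v106 v107 v108 (k8 v111 v230 v528 v114 v115 v116 v118 v237 (k1 v403 (k1 v125 (k1 v241 (k1 v409 (k1 v128 (k1 v129 (k1 v579 (k0))))))))))))))
noncomputable def ca2_60 : List VW := k8 v278 v147 v275 v281 v2 v11 v432 v560 (k8 v21 v160 v323 v308 v264 v28 v456 v35 (k8 v42 v174 v339 v266 v52 v179 v58 v59 (k8 v186 v353 v267 v64 v359 v71 v365 v269 (k8 v73 v198 v79 v373 v270 v82 v85 v86 (k8 v207 v501 v91 v94 v389 v96 v99 v391 (k8 v104 v106 v107 v108 v111 v230 v528 v114 (k8 v115 v116 v119 v120 v122 v125 v241 v126 (k8 v128 v129 v130 v132 v249 v134 v135 v136 (k8 v137 v139 v140 v142 v260 v143 v262 v585 (k0))))))))))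
noncomputable def ca2_61 : List VW := k8 v4 v144 v275 v280 v2 v429 v560 v21 (k8 v161 v313 v264 v27 v165 v329 v42 v174 (k8 v338 v266 v51 v472 v59 v186 v352 v267 (k8 v63 v189 v71 v195 v484 v198 v78 v202 (k8 v492 v81 v85 v86 v207 v501 v210 v213 (k8 v510 v216 v219 v517 v106 v107 v108 v111 (k8 v230 v112 v114 v115 v116 v119 v120 v122 (k8 v125 v241 v126 v128 v245 v132 v249 v134 (k1 v135 (k1 v136 (k1 v552 (k1 v257 (k1 v142 (k1 v260 (k1 v584 (k0)))))))))))))))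
noncomputable def ca2_62 : List VW := k8 v4 v144 v275 v280 v2 v429 v560 v21 (k8 v160 v313 v264 v27 v165 v329 v42 v174 (k8 v338 v266 v51 v472 v59 v186 v352 v267 (k8 v63 v189 v71 v195 v484 v198 v78 v202 (k8 v492 v81 v498 v207 v501 v210 v213 v510 (k8 v216 v219 v517 v106 v107 v523 v111 v230 (k8 v112 v114 v115 v116 v119 v120 v122 v125 (k8 v241 v126 v128 v245 v132 v249 v134 v135 (k1 v136 (k1 v552 (k1 v602 (k0)))))))))))
noncomputable def ca2_63 : List VW := k8 v4 v144 v275 v280 v2 v429 v560 v22 (k8 v160 v313 v264 v27 v165 v329 v42 v174 (k8 v338 v266 v51 v472 v59 v186 v475 v63 (k8 v189 v71 v195 v484 v198 v78 v202 v492 (k8 v81 v498 v207 v501 v210 v213 v510 v216 (k8 v219 v517 v106 v107 v523 v111 v230 v112 (k8 v114 v115 v116 v119 v120 v536 v124 v241 (k1 v126 (k1 v128 (k1 v129 (k1 v544 (k1 v599 (k0))))))))))))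
noncomputable def ca2_64 : List VW := k8 v4 v144 v275 v280 v149 v433 v293 v157 (k8 v160 v307 v167 v329 v42 v174 v338 v182 (k8 v58 v59 v186 v62 v192 v71 v364 v200 (k8 v78 v202 v493 v205 v207 v502 v211 v213 (k8 v511 v99 v219 v103 v223 v225 v108 v111 (k1 v230 (k1 v528 (k1 v595 (k0))))))))
noncomputable def ca2_65 : List VW := k8 v278 v144 v275 v274 v0 v149 v433 v293 (k8 v157 v160 v313 v167 v329 v43 v174 v338 (k8 v182 v58 v183 v186 v352 v192 v71 v195 (k8 v364 v200 v78 v203 v493 v205 v207 v502 (k8 v211 v213 v511 v217 v219 v518 v106 v225 (k1 v524 (k1 v594 (k0)))))))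
noncomputable def ca2_66 : List VW := k8 v276 v144 v274 v0 v149 v433 v157 v160 (k8 v305 v167 v327 v38 v175 v336 v182 v185 (k8 v186 v350 v192 v196 v200 v202 v493 v590 (k0)))
noncomputable def ca2_67 : List VW := k8 v3 v275 v9 v13 v304 v15 v21 v319 (k1 v31 (k1 v43 (k1 v56 (k1 v567 (k0)))))
noncomputable def ca2_68 : List VW := k8 v3 v275 v0 v13 v304 v15 v21 v319 (k1 v31 (k1 v48 (k1 v56 (k1 v567 (k0)))))
noncomputable def ca2_69 : List VW := k8 v3 v275 v0 v2 v299 v15 v21 v310 (k1 v30 (k1 v45 (k1 v50 (k1 v54 (k1 v567 (k0))))))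
noncomputable def ca2_70 : List VW := k8 v4 v424 v273 v0 v2 v429 v15 v21 (k8 v310 v265 v30 v334 v35 v42 v341 v54 (k1 v58 (k1 v59 (k1 v355 (k1 v66 (k1 v71 (k1 v367 (k1 v569 (k0)))))))))
noncomputable def ca2_71 : List VW := k8 v3 v144 v275 v0 v2 v297 v294 v21 (k8 v314 v265 v28 v330 v42 v339 v266 v52 (k8 v58 v59 v353 v64 v71 v365 v73 v79 (k1 v373 (k1 v570 (k0)))))
noncomputable def ca2_72 : List VW := k8 v3 v144 v275 v0 v263 v11 v297 v294 (k8 v21 v160 v308 v265 v28 v332 v330 v42 (k8 v178 v464 v52 v346 v59 v186 v476 v361 (k8 v71 v365 v73 v79 v373 v82 v86 v87 (k1 v91 (k1 v94 (k1 v511 (k1 v99 (k1 v100 (k1 v573 (k0))))))))))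
noncomputable def ca2_73 : List VW := k8 v278 v144 v275 v0 v149 v433 v293 v157 (k8 v161 v313 v167 v329 v42 v174 v338 v182 (k8 v58 v59 v186 v352 v192 v71 v195 v200 (k1 v202 (k1 v493 (k1 v590 (k0))))))
noncomputable def ca2_74 : List VW := k1 v1 (k1 v144 (k1 v418 (k1 v434 (k1 v162 (k1 v167 (k1 v586 (k0)))))))
noncomputable def ca2_75 : List VW := k8 v416 v147 v422 v149 v426 v160 v441 v167 (k8 v452 v174 v464 v180 v469 v186 v476 v190 (k8 v480 v195 v485 v199 v488 v202 v493 v205 (k8 v496 v504 v212 v214 v511 v217 v220 v224 (k8 v226 v229 v230 v232 v233 v235 v237 v239 (k1 v241 (k1 v243 (k1 v245 (k1 v247 (k1 v249 (k1 v251 (k1 v600 (k0))))))))))))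
noncomputable def ca2_76 : List VW := k8 v416 v144 v422 v149 v426 v160 v441 v167 (k8 v452 v174 v464 v180 v469 v186 v476 v190 (k8 v480 v195 v485 v199 v488 v202 v493 v205 (k8 v496 v504 v212 v505 v513 v218 v514 v519 (k8 v224 v226 v229 v230 v232 v233 v235 v237 (k8 v239 v241 v244 v245 v247 v249 v251 v252 (k1 v254 (k1 v255 (k1 v256 (k1 v602 (k0))))))))))
noncomputable def ca2_77 : List VW := k8 v416 v144 v422 v149 v426 v160 v441 v167 (k8 v452 v174 v464 v180 v469 v186 v476 v190 (k8 v480 v195 v485 v199 v488 v202 v493 v205 (k8 v496 v504 v212 v505 v513 v218 v514 v519 (k8 v224 v226 v229 v230 v232 v233 v235 v237 (k8 v240 v241 v244 v245 v247 v249 v251 v252 (k1 v254 (k1 v255 (k1 v256 (k1 v257 (k1 v259 (k1 v603 (k0))))))))))))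
noncomputable def ca2_78 : List VW := k1 v1 (k1 v144 (k1 v420 (k1 v434 (k1 v162 (k1 v167 (k1 v586 (k0)))))))
noncomputable def ca2_79 : List VW := k1 v1 (k1 v144 (k1 v0 (k1 v149 (k1 v162 (k1 v167 (k1 v586 (k0)))))))
noncomputable def ca2_80 : List VW := k8 v1 v144 v417 v418 v149 v427 v160 v441 (k8 v167 v452 v174 v464 v180 v469 v186 v476 (k8 v190 v480 v195 v485 v199 v488 v202 v493 (k8 v205 v496 v207 v502 v211 v505 v513 v218 (k8 v514 v519 v224 v226 v229 v230 v232 v233 (k8 v235 v237 v239 v241 v244 v245 v247 v249 (k8 v251 v252 v254 v255 v256 v257 v259 v260 (k1 v261 (k1 v604 (k0)))))))))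
noncomputable def ca2_81 : List VW := k8 v1 v144 v417 v421 v149 v433 v426 v160 (k8 v443 v167 v452 v174 v464 v180 v470 v186 (k8 v476 v190 v480 v195 v485 v199 v488 v202 (k8 v493 v205 v496 v207 v502 v211 v214 v511 (k8 v516 v219 v224 v226 v229 v230 v232 v233 (k8 v235 v237 v239 v241 v244 v245 v247 v249 (k1 v251 (k1 v252 (k1 v254 (k1 v255 (k1 v256 (k1 v602 (k0))))))))))))
noncomputable def ca2_82 : List VW := k8 v1 v144 v417 v421 v149 v433 v426 v160 (k8 v443 v167 v453 v174 v464 v180 v470 v186 (k8 v476 v190 v480 v195 v485 v199 v488 v202 (k8 v493 v205 v496 v207 v502 v211 v214 v511 (k8 v516 v220 v224 v226 v229 v230 v232 v233 (k8 v235 v237 v239 v241 v244 v245 v247 v249 (k8 v251 v252 v254 v255 v256 v257 v259 v260 (k1 v261 (k1 v604 (k0)))))))))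
noncomputable def ca2_83 : List VW := k8 v1 v144 v417 v421 v149 v433 v426 v160 (k8 v443 v167 v453 v174 v464 v180 v469 v186 (k8 v476 v190 v480 v195 v485 v199 v488 v202 (k8 v493 v205 v496 v207 v502 v211 v214 v511 (k8 v217 v220 v224 v226 v229 v230 v232 v233 (k8 v235 v237 v239 v241 v244 v245 v247 v249 (k8 v251 v252 v254 v255 v256 v257 v259 v603 (k0)))))))
noncomputable def ca2_84 : List VW := k8 v1 v144 v417 v419 v149 v433 v426 v160 (k8 v442 v167 v452 v174 v464 v180 v469 v186 (k8 v476 v190 v480 v195 v485 v199 v488 v202 (k8 v493 v205 v496 v207 v502 v211 v214 v511 (k8 v217 v220 v224 v226 v229 v230 v232 v233 (k8 v235 v237 v239 v241 v243 v245 v247 v249 (k1 v251 (k1 v252 (k1 v254 (k1 v601 (k0))))))))))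
noncomputable def ca2_85 : List VW := k8 v1 v144 v423 v418 v149 v433 v426 v160 (k8 v443 v169 v453 v174 v464 v180 v470 v186 (k8 v476 v190 v480 v195 v485 v199 v488 v202 (k8 v493 v205 v496 v207 v502 v211 v214 v511 (k8 v217 v220 v224 v226 v229 v230 v232 v233 (k8 v235 v237 v239 v241 v243 v245 v247 v249 (k1 v251 (k1 v252 (k1 v254 (k1 v255 (k1 v256 (k1 v602 (k0))))))))))))
noncomputable def ca2_86 : List VW := k8 v1 v144 v423 v418 v149 v433 v426 v160 (k8 v443 v167 v460 v452 v174 v464 v180 v470 (k8 v186 v476 v190 v480 v195 v485 v199 v488 (k8 v202 v493 v205 v496 v207 v502 v211 v505 (k8 v513 v218 v514 v519 v224 v226 v229 v230 (k8 v232 v233 v235 v237 v239 v241 v244 v245 (k8 v247 v249 v251 v252 v254 v255 v256 v257 (k1 v259 (k1 v603 (k0)))))))))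
noncomputable def ca2_87 : List VW := k8 v1 v144 v423 v418 v149 v433 v426 v160 (k8 v443 v167 v460 v452 v174 v464 v180 v470 (k8 v186 v476 v190 v480 v195 v485 v199 v488 (k8 v202 v493 v205 v496 v207 v502 v211 v214 (k8 v511 v217 v220 v224 v226 v229 v230 v232 (k8 v233 v235 v237 v239 v241 v244 v245 v247 (k8 v249 v251 v252 v254 v255 v256 v257 v259 (k1 v260 (k1 v261 (k1 v604 (k0))))))))))
noncomputable def ca2_88 : List VW := k8 v1 v144 v417 v421 v149 v433 v426 v160 (k8 v443 v167 v452 v174 v464 v180 v470 v186 (k8 v476 v190 v480 v195 v485 v199 v488 v202 (k8 v493 v205 v496 v207 v502 v211 v214 v511 (k8 v217 v220 v224 v226 v229 v230 v232 v233 (k8 v235 v237 v239 v241 v243 v245 v247 v249 (k1 v251 (k1 v600 (k0))))))))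
noncomputable def ca2_89 : List VW := k8 v1 v144 v423 v418 v149 v433 v426 v161 (k8 v444 v167 v460 v452 v174 v465 v180 v470 (k8 v186 v476 v190 v481 v195 v485 v199 v488 (k8 v202 v493 v205 v496 v207 v502 v211 v505 (k8 v213 v511 v516 v219 v518 v223 v226 v229 (k8 v230 v232 v233 v235 v237 v239 v241 v243 (k8 v245 v247 v249 v251 v252 v254 v255 v256 (k1 v257 (k1 v259 (k1 v260 (k1 v261 (k1 v604 (k0))))))))))))
noncomputable def ca2_90 : List VW := k8 v1 v144 v423 v418 v149 v433 v426 v161 (k8 v444 v167 v460 v452 v174 v465 v180 v470 (k8 v186 v476 v190 v481 v195 v485 v199 v488 (k8 v202 v493 v205 v496 v207 v502 v211 v214 (k8 v511 v217 v220 v224 v226 v229 v230 v232 (k8 v233 v235 v237 v239 v241 v243 v245 v247 (k8 v249 v251 v252 v254 v255 v256 v257 v259 (k1 v260 (k1 v261 (k1 v604 (k0))))))))))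
noncomputable def ca2_91 : List VW := k8 v1 v144 v423 v418 v149 v433 v426 v161 (k8 v444 v167 v460 v452 v174 v465 v180 v470 (k8 v186 v476 v190 v480 v195 v485 v199 v488 (k8 v202 v493 v205 v496 v207 v502 v211 v214 (k8 v511 v217 v220 v224 v226 v229 v230 v232 (k8 v233 v235 v237 v239 v241 v243 v245 v247 (k8 v249 v251 v252 v254 v255 v256 v257 v259 (k1 v260 (k1 v261 (k1 v604 (k0))))))))))
noncomputable def ca2_92 : List VW := k8 v1 v144 v423 v418 v149 v433 v426 v160 (k8 v444 v167 v460 v452 v174 v465 v180 v470 (k8 v186 v476 v190 v480 v195 v485 v199 v488 (k8 v202 v493 v205 v496 v207 v502 v211 v214 (k8 v511 v217 v220 v224 v226 v229 v230 v232 (k8 v233 v235 v237 v239 v241 v244 v245 v247 (k8 v249 v251 v252 v254 v255 v256 v257 v259 (k1 v603 (k0))))))))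
noncomputable def ca2_93 : List VW := k8 v1 v147 v423 v418 v149 v433 v426 v160 (k8 v446 v441 v167 v460 v452 v174 v465 v180 (k8 v470 v186 v476 v190 v481 v195 v485 v199 (k8 v489 v202 v493 v205 v496 v207 v502 v211 (k8 v214 v511 v516 v219 v518 v223 v226 v524 (k8 v228 v230 v528 v231 v233 v235 v237 v239 (k8 v241 v243 v245 v247 v249 v251 v252 v254 (k1 v255 (k1 v256 (k1 v257 (k1 v259 (k1 v260 (k1 v261 (k1 v604 (k0))))))))))))))
noncomputable def ca2_94 : List VW := k8 v1 v147 v423 v418 v149 v433 v426 v160 (k8 v446 v441 v167 v460 v452 v174 v465 v180 (k8 v470 v186 v476 v190 v481 v195 v485 v199 (k8 v488 v202 v493 v205 v496 v207 v502 v211 (k8 v214 v511 v217 v220 v518 v223 v226 v524 (k8 v228 v230 v232 v233 v235 v237 v239 v241 (k8 v243 v245 v247 v249 v251 v252 v254 v255 (k1 v256 (k1 v257 (k1 v259 (k1 v260 (k1 v261 (k1 v604 (k0)))))))))))))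
noncomputable def ca2_95 : List VW := k8 v1 v144 v423 v418 v149 v433 v426 v160 (k8 v446 v441 v167 v460 v452 v174 v465 v180 (k8 v470 v186 v476 v190 v481 v195 v485 v199 (k8 v488 v202 v493 v205 v496 v207 v502 v211 (k8 v214 v511 v217 v220 v518 v223 v226 v228 (k8 v230 v232 v233 v235 v237 v239 v241 v243 (k8 v245 v247 v249 v251 v252 v254 v255 v256 (k1 v257 (k1 v259 (k1 v260 (k1 v261 (k1 v604 (k0))))))))))))
noncomputable def ca2_96 : List VW := k8 v1 v144 v423 v418 v149 v433 v426 v160 (k8 v436 v444 v167 v460 v452 v174 v465 v180 (k8 v470 v186 v476 v190 v481 v195 v485 v199 (k8 v488 v202 v493 v205 v496 v207 v502 v211 (k8 v214 v511 v217 v220 v518 v223 v226 v228 (k8 v230 v232 v233 v235 v237 v239 v241 v243 (k8 v245 v247 v249 v251 v252 v254 v255 v256 (k1 v257 (k1 v259 (k1 v603 (k0))))))))))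
noncomputable def ca2_97 : List VW := k8 v1 v144 v423 v418 v149 v433 v426 v161 (k8 v444 v167 v460 v452 v174 v465 v180 v470 (k8 v186 v476 v190 v481 v195 v485 v199 v488 (k8 v202 v493 v205 v496 v207 v502 v211 v214 (k8 v511 v217 v220 v224 v226 v228 v230 v232 (k8 v233 v235 v237 v239 v241 v243 v245 v247 (k1 v249 (k1 v251 (k1 v600 (k0)))))))))
noncomputable def ca2_98 : List VW := k8 v1 v144 v274 v423 v279 v149 v433 v426 (k8 v160 v446 v441 v167 v460 v452 v174 v465 (k8 v180 v470 v186 v476 v190 v481 v195 v485 (k8 v199 v489 v202 v493 v205 v497 v207 v502 (k8 v211 v214 v511 v217 v220 v518 v223 v226 (k8 v524 v228 v230 v528 v231 v233 v531 v235 (k8 v237 v536 v239 v241 v541 v243 v245 v544 (k8 v545 v546 v547 v549 v255 v256 v257 v259 (k1 v260 (k1 v261 (k1 v604 (k0)))))))))))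
noncomputable def ca2_99 : List VW := k8 v1 v144 v274 v423 v418 v149 v433 v426 (k8 v160 v446 v441 v167 v460 v452 v174 v465 (k8 v180 v470 v186 v476 v190 v481 v195 v485 (k8 v199 v489 v202 v493 v205 v497 v207 v502 (k8 v211 v214 v511 v217 v220 v518 v223 v226 (k8 v524 v228 v230 v528 v231 v233 v531 v532 (k8 v537 v239 v241 v243 v245 v247 v249 v251 (k8 v252 v254 v255 v256 v257 v259 v260 v261 (k1 v604 (k0)))))))))
noncomputable def ca2_100 : List VW := k8 v1 v144 v274 v423 v418 v149 v433 v426 (k8 v160 v446 v441 v167 v460 v452 v174 v465 (k8 v180 v470 v186 v476 v190 v481 v195 v485 (k8 v199 v489 v202 v493 v205 v497 v207 v502 (k8 v211 v214 v511 v217 v220 v518 v223 v226 (k8 v524 v228 v230 v528 v231 v233 v235 v237 (k8 v239 v241 v243 v245 v247 v249 v251 v252 (k1 v254 (k1 v255 (k1 v256 (k1 v257 (k1 v259 (k1 v603 (k0)))))))))))))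
noncomputable def ca2_101 : List VW := k8 v1 v144 v274 v423 v418 v149 v433 v426 (k8 v160 v446 v441 v167 v460 v452 v174 v465 (k8 v180 v470 v186 v476 v190 v481 v195 v485 (k8 v199 v489 v202 v493 v205 v496 v207 v502 (k8 v211 v214 v511 v217 v220 v518 v223 v226 (k8 v524 v228 v230 v528 v231 v233 v235 v237 (k8 v239 v241 v243 v245 v247 v249 v251 v252 (k8 v254 v255 v256 v257 v259 v260 v261 v604 (k0))))))))
noncomputable def ca2_102 : List VW := k8 v1 v147 v423 v418 v149 v433 v426 v160 (k8 v444 v167 v460 v452 v174 v464 v180 v470 (k8 v186 v476 v190 v481 v195 v485 v199 v488 (k8 v202 v493 v205 v496 v207 v502 v211 v213 (k8 v511 v217 v219 v518 v223 v225 v228 v230 (k1 v231 (k1 v595 (k0)))))))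
noncomputable def ca2_103 : List VW := k8 v1 v144 v423 v0 v149 v433 v158 v160 (k8 v442 v167 v452 v174 v464 v180 v185 v186 (k8 v476 v190 v194 v195 v200 v203 v493 v205 (k1 v207 (k1 v502 (k1 v591 (k0))))))
noncomputable def ca2_104 : List VW := k8 v277 v144 v275 v274 v279 v149 v433 v292 (k8 v157 v161 v446 v306 v167 v460 v328 v171 (k8 v174 v337 v182 v473 v184 v186 v351 v67 (k8 v192 v483 v71 v195 v485 v199 v79 v202 (k8 v493 v205 v86 v207 v502 v211 v213 v511 (k8 v217 v219 v518 v223 v225 v524 v228 v230 (k8 v528 v114 v233 v531 v119 v237 v536 v239 (k8 v241 v541 v243 v245 v544 v247 v249 v546 (k8 v134 v252 v549 v255 v553 v257 v556 v603 (k0)))))))))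
noncomputable def ca2_105 : List VW := k8 v277 v144 v275 v274 v284 v149 v433 v292 (k8 v157 v161 v446 v306 v167 v460 v328 v562 (k8 v171 v174 v337 v464 v182 v473 v184 v186 (k8 v351 v476 v192 v357 v194 v195 v485 v199 (k8 v79 v202 v493 v205 v86 v207 v502 v211 (k8 v213 v511 v217 v219 v518 v223 v225 v524 (k8 v228 v230 v528 v114 v233 v531 v235 v237 (k8 v536 v239 v241 v541 v243 v245 v544 v247 (k8 v249 v546 v252 v549 v255 v553 v257 v556 (k1 v603 (k0))))))))))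
noncomputable def ca2_106 : List VW := k8 v277 v144 v275 v423 v0 v149 v433 v292 (k8 v157 v160 v446 v306 v167 v462 v562 v171 (k8 v174 v337 v464 v182 v473 v184 v186 v351 (k8 v476 v192 v481 v195 v485 v199 v79 v202 (k8 v493 v205 v86 v207 v502 v211 v213 v511 (k8 v217 v219 v518 v223 v225 v524 v228 v230 (k8 v528 v231 v233 v531 v235 v237 v536 v239 (k8 v241 v541 v543 v544 v545 v546 v252 v549 (k1 v255 (k1 v256 (k1 v257 (k1 v259 (k1 v603 (k0)))))))))))))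
noncomputable def ca2_107 : List VW := k8 v276 v144 v275 v423 v0 v149 v433 v291 (k8 v157 v160 v446 v305 v167 v462 v562 v326 (k8 v170 v174 v336 v464 v182 v473 v184 v186 (k8 v350 v476 v192 v481 v195 v485 v199 v489 (k8 v202 v493 v205 v86 v207 v502 v211 v214 (k8 v511 v217 v220 v518 v223 v225 v524 v228 (k8 v230 v528 v231 v233 v531 v235 v237 v536 (k8 v239 v241 v541 v543 v544 v545 v546 v547 (k8 v549 v255 v256 v257 v259 v260 v261 v604 (k0)))))))))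
noncomputable def ca2_108 : List VW := k8 v276 v144 v275 v423 v0 v149 v433 v291 (k8 v157 v160 v446 v305 v167 v460 v452 v174 (k8 v336 v464 v182 v345 v470 v186 v350 v476 (k8 v192 v481 v195 v485 v199 v489 v202 v493 (k8 v205 v86 v207 v502 v211 v214 v511 v217 (k8 v220 v518 v223 v225 v524 v228 v230 v528 (k8 v231 v233 v531 v235 v237 v536 v239 v241 (k8 v541 v243 v245 v544 v545 v546 v547 v549 (k1 v255 (k1 v256 (k1 v257 (k1 v259 (k1 v260 (k1 v261 (k1 v604 (k0)))))))))))))))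
noncomputable def ca2_109 : List VW := k8 v1 v144 v275 v423 v0 v149 v433 v291 (k8 v157 v160 v446 v305 v168 v460 v452 v178 (k8 v465 v182 v180 v470 v186 v350 v476 v190 (k8 v481 v195 v485 v199 v489 v202 v493 v205 (k8 v86 v208 v502 v211 v214 v511 v217 v220 (k8 v518 v223 v225 v524 v228 v230 v528 v231 (k8 v233 v531 v235 v237 v536 v239 v241 v541 (k8 v243 v245 v544 v545 v546 v547 v549 v255 (k1 v256 (k1 v257 (k1 v259 (k1 v260 (k1 v261 (k1 v604 (k0))))))))))))))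
noncomputable def ca2_110 : List VW := k8 v1 v144 v275 v423 v0 v149 v433 v291 (k8 v157 v160 v446 v441 v167 v460 v452 v178 (k8 v465 v182 v180 v470 v186 v478 v476 v190 (k8 v481 v195 v485 v199 v489 v202 v493 v205 (k8 v497 v207 v502 v211 v214 v511 v217 v220 (k8 v518 v223 v225 v524 v228 v230 v528 v231 (k8 v233 v531 v235 v237 v536 v239 v241 v541 (k8 v243 v245 v544 v545 v546 v547 v549 v255 (k1 v256 (k1 v257 (k1 v259 (k1 v260 (k1 v261 (k1 v604 (k0))))))))))))))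
noncomputable def ca2_111 : List VW := k8 v1 v144 v275 v423 v279 v149 v433 v291 (k8 v157 v160 v446 v441 v167 v460 v452 v178 (k8 v465 v182 v180 v470 v186 v478 v476 v190 (k8 v481 v195 v485 v199 v489 v202 v493 v205 (k8 v497 v207 v502 v211 v214 v511 v217 v220 (k8 v518 v223 v225 v524 v228 v230 v528 v231 (k8 v233 v531 v235 v237 v536 v239 v241 v541 (k8 v243 v245 v544 v545 v546 v547 v549 v255 (k1 v256 (k1 v257 (k1 v259 (k1 v260 (k1 v261 (k1 v604 (k0))))))))))))))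
noncomputable def ca2_112 : List VW := k8 v1 v144 v275 v423 v279 v149 v433 v426 (k8 v160 v446 v441 v167 v460 v452 v178 v465 (k8 v182 v180 v470 v186 v478 v476 v190 v481 (k8 v195 v485 v199 v489 v202 v493 v205 v497 (k8 v207 v502 v211 v214 v511 v217 v220 v518 (k8 v223 v225 v524 v228 v230 v528 v231 v233 (k8 v531 v235 v237 v536 v239 v241 v541 v243 (k8 v245 v544 v545 v546 v547 v549 v255 v256 (k1 v257 (k1 v259 (k1 v260 (k1 v261 (k1 v604 (k0)))))))))))))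
noncomputable def ca2_113 : List VW := k8 v1 v144 v275 v423 v279 v149 v433 v426 (k8 v160 v446 v441 v167 v460 v452 v178 v465 (k8 v182 v180 v470 v186 v476 v190 v481 v195 (k8 v485 v199 v489 v202 v493 v205 v497 v207 (k8 v502 v211 v214 v511 v217 v220 v518 v223 (k8 v225 v524 v228 v230 v528 v231 v233 v531 (k8 v235 v237 v536 v239 v241 v541 v243 v245 (k8 v544 v545 v546 v547 v549 v255 v256 v257 (k1 v259 (k1 v260 (k1 v261 (k1 v604 (k0))))))))))))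
noncomputable def ca2_114 : List VW := k8 v1 v144 v275 v423 v279 v149 v433 v426 (k8 v160 v446 v441 v167 v460 v452 v174 v465 (k8 v182 v470 v186 v476 v190 v481 v195 v485 (k8 v199 v489 v202 v493 v205 v497 v207 v502 (k8 v211 v214 v511 v217 v220 v518 v223 v225 (k8 v524 v228 v230 v528 v231 v233 v531 v235 (k8 v237 v536 v239 v241 v541 v543 v544 v545 (k1 v546 (k1 v547 (k1 v549 (k1 v255 (k1 v256 (k1 v602 (k0)))))))))))))
noncomputable def ca2_115 : List VW := k8 v1 v144 v274 v423 v0 v149 v433 v426 (k8 v160 v446 v441 v167 v460 v452 v174 v465 (k8 v180 v470 v186 v476 v190 v481 v195 v485 (k8 v199 v489 v202 v493 v205 v497 v207 v502 (k8 v211 v213 v511 v217 v219 v518 v223 v225 (k8 v524 v228 v230 v528 v231 v233 v531 v532 (k1 v536 (k1 v239 (k1 v241 (k1 v541 (k1 v543 (k1 v544 (k1 v599 (k0)))))))))))))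
noncomputable def ca2_116 : List VW := k8 v1 v144 v274 v423 v0 v149 v433 v426 (k8 v160 v436 v443 v167 v460 v452 v174 v464 (k8 v180 v470 v186 v476 v190 v194 v195 v485 (k8 v199 v79 v202 v493 v205 v208 v502 v211 (k8 v213 v511 v217 v219 v518 v223 v225 v524 (k1 v594 (k0))))))
noncomputable def ca2_117 : List VW := k8 v1 v144 v274 v423 v0 v149 v433 v426 (k8 v160 v443 v167 v452 v174 v464 v180 v470 (k8 v186 v476 v190 v481 v487 v200 v203 v493 (k1 v205 (k1 v207 (k1 v502 (k1 v591 (k0)))))))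
noncomputable def ca2_118 : List VW := k8 v278 v3 v424 v273 v0 v2 v12 v432 (k8 v561 v21 v160 v324 v309 v265 v29 v333 (k8 v331 v42 v174 v340 v266 v53 v347 v59 (k8 v186 v354 v268 v65 v69 v71 v366 v74 (k8 v77 v79 v374 v492 v380 v86 v383 v92 (k8 v94 v389 v97 v99 v101 v105 v106 v225 (k8 v523 v111 v230 v528 v114 v115 v117 v118 (k1 v237 (k1 v406 (k1 v124 (k1 v241 (k1 v578 (k0))))))))))))
noncomputable def ca2_119 : List VW := k8 v4 v144 v275 v281 v2 v429 v560 v21 (k8 v161 v314 v264 v28 v165 v330 v42 v174 (k8 v339 v266 v52 v472 v59 v186 v353 v267 (k8 v64 v189 v71 v195 v484 v73 v77 v79 (k8 v373 v492 v379 v86 v382 v91 v94 v389 (k8 v96 v99 v100 v517 v106 v107 v108 v111 (k8 v230 v528 v114 v530 v119 v120 v122 v125 (k8 v241 v126 v128 v129 v130 v132 v249 v134 (k1 v135 (k1 v581 (k0))))))))))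
noncomputable def ca2_120 : List VW := k8 v4 v144 v275 v280 v2 v429 v560 v21 (k8 v161 v313 v264 v27 v165 v329 v42 v174 (k8 v338 v266 v51 v472 v59 v186 v352 v267 (k8 v63 v189 v71 v195 v484 v198 v78 v202 (k8 v492 v81 v85 v86 v207 v501 v210 v213 (k8 v510 v216 v219 v517 v106 v107 v108 v111 (k8 v230 v112 v114 v115 v116 v119 v120 v122 (k8 v125 v241 v126 v128 v129 v130 v132 v249 (k8 v134 v135 v136 v552 v257 v142 v260 v143 (k1 v262 (k1 v585 (k0)))))))))))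
noncomputable def ca2_121 : List VW := k8 v4 v144 v275 v280 v2 v10 v429 v560 (k8 v22 v161 v313 v264 v27 v165 v329 v42 (k8 v174 v338 v266 v51 v472 v59 v186 v352 (k8 v267 v63 v189 v71 v195 v484 v198 v78 (k8 v202 v492 v81 v498 v207 v501 v210 v213 (k8 v510 v216 v219 v517 v106 v107 v523 v111 (k8 v230 v112 v114 v115 v116 v119 v120 v122 (k8 v125 v241 v126 v128 v129 v130 v132 v249 (k8 v134 v252 v136 v552 v257 v142 v260 v143 (k1 v604 (k0))))))))))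
noncomputable def ca2_122 : List VW := k8 v278 v144 v275 v285 v2 v10 v429 v560 (k8 v22 v161 v313 v264 v27 v165 v329 v42 (k8 v174 v338 v266 v51 v472 v59 v186 v352 (k8 v267 v63 v189 v71 v195 v484 v198 v78 (k8 v202 v492 v81 v498 v207 v501 v210 v213 (k8 v510 v216 v219 v517 v106 v107 v523 v111 (k8 v230 v112 v114 v115 v116 v119 v120 v404 (k8 v125 v241 v126 v128 v129 v410 v132 v249 (k8 v134 v135 v548 v255 v139 v140 v555 v603 (k0)))))))))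
noncomputable def ca2_123 : List VW := k8 v278 v144 v275 v285 v2 v10 v429 v560 (k8 v290 v161 v313 v264 v27 v165 v329 v42 (k8 v174 v338 v266 v51 v472 v59 v186 v352 (k8 v267 v63 v189 v71 v195 v484 v198 v78 (k8 v202 v492 v378 v498 v207 v501 v210 v213 (k8 v510 v216 v219 v517 v222 v225 v108 v227 (k8 v230 v112 v114 v115 v530 v118 v237 v122 (k8 v125 v241 v126 v128 v129 v544 v131 v249 (k8 v134 v135 v548 v255 v139 v140 v555 v603 (k0)))))))))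
noncomputable def ca2_124 : List VW := k8 v278 v3 v424 v273 v0 v2 v430 v293 (k8 v157 v161 v313 v169 v329 v42 v174 v338 (k8 v182 v58 v59 v186 v352 v192 v69 v71 (k8 v195 v364 v200 v79 v202 v492 v378 v498 (k8 v207 v501 v210 v213 v510 v216 v219 v517 (k8 v222 v225 v108 v227 v230 v528 v114 v115 (k8 v530 v118 v238 v404 v125 v241 v409 v128 (k8 v245 v130 v132 v249 v134 v135 v548 v255 (k1 v139 (k1 v602 (k0))))))))))
noncomputable def ca2_125 : List VW := k8 v278 v144 v275 v274 v280 v149 v433 v293 (k8 v157 v161 v436 v313 v169 v329 v43 v174 (k8 v338 v182 v58 v183 v186 v352 v192 v69 (k8 v71 v195 v364 v200 v79 v202 v493 v205 (k8 v86 v207 v502 v211 v213 v511 v217 v219 (k8 v518 v223 v225 v524 v111 v230 v528 v114 (k8 v233 v401 v119 v121 v536 v125 v241 v541 (k8 v128 v245 v410 v132 v249 v134 v135 v549 (k1 v255 (k1 v139 (k1 v602 (k0)))))))))))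
noncomputable def ca2_126 : List VW := k8 v278 v144 v275 v274 v280 v149 v433 v293 (k8 v157 v161 v436 v313 v167 v460 v35 v42 (k8 v174 v338 v182 v345 v183 v186 v352 v192 (k8 v69 v71 v195 v364 v200 v79 v202 v493 (k8 v205 v86 v207 v502 v211 v213 v511 v217 (k8 v219 v518 v223 v225 v524 v111 v230 v528 (k8 v114 v233 v531 v119 v237 v536 v125 v241 (k8 v541 v128 v245 v544 v132 v249 v134 v252 (k1 v136 (k1 v601 (k0))))))))))
noncomputable def ca2_127 : List VW := k8 v278 v144 v275 v274 v280 v149 v433 v293 (k8 v157 v161 v437 v446 v307 v167 v460 v329 (k8 v170 v174 v338 v182 v345 v183 v186 v352 (k8 v192 v483 v71 v195 v364 v200 v79 v202 (k8 v493 v205 v86 v207 v502 v211 v213 v511 (k8 v217 v219 v518 v223 v225 v524 v228 v230 (k8 v528 v114 v233 v531 v119 v237 v536 v125 (k8 v241 v541 v128 v245 v544 v132 v249 v546 (k1 v252 (k1 v136 (k1 v255 (k1 v139 (k1 v602 (k0)))))))))))))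
noncomputable def ca2_128 : List VW := k8 v277 v144 v275 v274 v0 v149 v433 v292 (k8 v157 v160 v306 v167 v328 v39 v177 v337 (k8 v182 v58 v183 v186 v351 v192 v71 v195 (k8 v485 v199 v203 v493 v205 v207 v502 v211 (k1 v213 (k1 v511 (k1 v217 (k1 v219 (k1 v518 (k1 v593 (k0))))))))))
noncomputable def ca2_129 : List VW := k8 v276 v147 v274 v279 v149 v433 v291 v157 (k8 v160 v446 v305 v167 v460 v173 v174 v336 (k8 v182 v345 v184 v186 v350 v192 v357 v196 (k8 v485 v199 v203 v493 v205 v208 v502 v211 (k1 v213 (k1 v511 (k1 v217 (k1 v219 (k1 v518 (k1 v593 (k0))))))))))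
noncomputable def ca2_130 : List VW := k8 v3 v275 v289 v13 v304 v16 v24 v319 (k1 v31 (k1 v47 (k1 v56 (k1 v567 (k0)))))
noncomputable def ca2_131 : List VW := k8 v4 v7 v275 v0 v13 v304 v16 v21 (k8 v319 v31 v36 v42 v56 v59 v68 v568 (k0))
noncomputable def ca2_132 : List VW := k8 v4 v424 v273 v0 v2 v12 v431 v15 (k8 v21 v310 v166 v30 v334 v35 v42 v341 (k8 v54 v58 v59 v355 v66 v71 v367 v569 (k0)))
noncomputable def ca2_133 : List VW := k8 v4 v424 v273 v0 v2 v12 v432 v15 (k8 v21 v23 v316 v265 v30 v334 v35 v42 (k8 v341 v266 v54 v58 v59 v355 v66 v71 (k1 v367 (k1 v75 (k1 v79 (k1 v375 (k1 v570 (k0))))))))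
noncomputable def ca2_134 : List VW := k8 v4 v147 v275 v0 v2 v297 v294 v21 (k8 v160 v314 v265 v28 v165 v330 v42 v339 (k8 v266 v52 v346 v59 v353 v268 v64 v69 (k8 v71 v365 v73 v79 v373 v82 v86 v87 (k1 v91 (k1 v94 (k1 v389 (k1 v572 (k0))))))))
noncomputable def ca2_135 : List VW := k8 v4 v147 v275 v0 v263 v11 v433 v561 (k8 v21 v160 v323 v308 v265 v28 v332 v330 (k8 v42 v174 v339 v266 v52 v180 v58 v59 (k8 v186 v353 v268 v64 v359 v71 v195 v485 (k8 v73 v77 v79 v202 v493 v379 v86 v207 (k8 v502 v91 v94 v389 v96 v99 v100 v518 (k8 v223 v225 v524 v111 v230 v528 v114 v115 (k8 v116 v119 v120 v122 v125 v241 v126 v128 (k8 v129 v130 v132 v249 v134 v135 v136 v137 (k1 v582 (k0))))))))))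
noncomputable def ca2_136 : List VW := k8 v278 v144 v275 v274 v0 v149 v433 v293 (k8 v157 v160 v322 v446 v307 v167 v460 v329 (k8 v170 v174 v338 v182 v345 v183 v186 v352 (k8 v192 v69 v194 v195 v364 v200 v491 v203 (k8 v493 v205 v86 v207 v502 v211 v213 v511 (k1 v217 (k1 v219 (k1 v518 (k1 v223 (k1 v225 (k1 v524 (k1 v594 (k0))))))))))))

noncomputable def a12_0 : T5 :=
  (.nd 2 2160 .lw
  (.lf ⟨⟨0, 0, 0, 28526, 16, 1, 1⟩, 0, 0, 0, 0, [h5, h0 5884, f10], 26, ca2_0, 0, 0⟩))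

noncomputable def a12_1 : T5 :=
  (.nd 2 1969 .lw
  (.nd 2 2297 (.nd 2 2133 (.nd 2 2051 (.nd 2 2010 (.nd 2 1989 (.lf ⟨⟨0, 0, 0, 14715, 16, 1, 1⟩, 0, 0, 0, 0, [h5, h0 5884], 11, ca2_1, 0, 0⟩)
  (.nd 2 1999 (.lf ⟨⟨0, 0, 0, 15771, 16, 1, 1⟩, 0, 0, 0, 0, [h5, h0 5884], 11, ca2_2, 0, 0⟩)
  (.lf ⟨⟨0, 0, 0, 16327, 16, 1, 1⟩, 0, 0, 0, 0, [h5, h0 5884, f9], 13, ca2_0, 0, 0⟩)))
  (.lf ⟨⟨0, 0, 0, 16961, 16, 1, 1⟩, 0, 0, 0, 0, [h5, h0 5884, f9], 13, ca2_0, 0, 0⟩))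
  (.lf ⟨⟨0, 0, 0, 19551, 16, 1, 1⟩, 0, 0, 0, 0, [h5, h0 5884, f9], 13, ca2_0, 0, 0⟩))
  (.lf ⟨⟨0, 0, 0, 25977, 16, 1, 1⟩, 0, 0, 0, 0, [h5, h0 5884, f9], 0, ca2_0, 0, 0⟩))
  (.lf ⟨⟨0, 0, 0, 45861, 16, 1, 1⟩, 0, 0, 0, 0, [h5, h0 5884, f9], 0, ca2_3, 0, 0⟩)))

noncomputable def a12_2 : T5 :=
  (.nd 2 1779 .lw
  (.nd 2 2075 (.nd 2 1927 (.nd 2 1853 (.lf ⟨⟨0, 0, 0, 7616, 16, 1, 1⟩, 0, 0, 0, 0, [h5, h0 5884], 11, ca2_4, 0, 0⟩)
  (.lf ⟨⟨0, 0, 0, 9843, 16, 1, 1⟩, 0, 0, 0, 0, [h5, h0 5884, f8], 13, ca2_5, 0, 0⟩))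
  (.lf ⟨⟨0, 0, 0, 12721, 16, 1, 1⟩, 0, 0, 0, 0, [h5, h0 5884, f8], 13, ca2_5, 0, 0⟩))
  (.lf ⟨⟨0, 0, 0, 21247, 16, 1, 1⟩, 0, 0, 0, 0, [h5, h0 5884, f8], 0, ca2_6, 0, 0⟩)))

noncomputable def a12_3 : T5 :=
  (.nd 2 1680 .lw
  (.lf ⟨⟨0, 0, 0, 5404, 16, 2, 1⟩, 0, 0, 0, 0, [h5, h0 5882, f11], 26, ca2_7, 0, 0⟩))

noncomputable def a12_4 : T5 :=
  (.nd 2 1507 .lw
  (.nd 2 1758 (.nd 2 1632 (.nd 2 1569 (.lf ⟨⟨0, 0, 0, 2967, 16, 3, 2⟩, 58861, 256, 1, 0, [h5, h0 5880], 11, ca2_8, 0, 0⟩)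
  (.nd 2 1600 (.nd 2 1584 (.lf ⟨⟨0, 0, 0, 3678, 16, 2, 2⟩, 62001, 256, 1, 0, [h5, h0 5882], 11, ca2_9, 0, 0⟩)
  (.lf ⟨⟨0, 0, 0, 3875, 16, 2, 2⟩, 65536, 256, 1, 0, [h5, h0 5882, f7], 12, ca2_10, 0, 0⟩))
  (.lf ⟨⟨0, 0, 0, 4096, 16, 2, 2⟩, 73223, 256, 1, 0, [h5, h0 5882, f7], 12, ca2_10, 0, 0⟩)))
  (.lf ⟨⟨0, 0, 0, 4576, 16, 2, 2⟩, 0, 0, 0, 0, [h5, h0 5882, f7], 12, ca2_10, 0, 0⟩))
  (.lf ⟨⟨0, 0, 0, 7082, 16, 1, 1⟩, 0, 0, 0, 0, [h5, h0 5884, f7], 0, ca2_11, 0, 0⟩)))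

noncomputable def a12_5 : T5 :=
  (.nd 2 1283 .lw
  (.nd 2 1496 (.nd 2 1389 (.nd 2 1336 (.nd 2 1309 (.lf ⟨⟨0, 0, 0, 1365, 16, 6, 4⟩, 23905, 256, 3, 0, [h5, h0 5874], 22, ca2_12, 0, 0⟩)
  (.nd 2 1322 (.lf ⟨⟨0, 0, 0, 1494, 16, 5, 4⟩, 25007, 256, 2, 0, [h5, h0 5876], 22, ca2_13, 0, 0⟩)
  (.lf ⟨⟨0, 0, 0, 1562, 16, 5, 3⟩, 26250, 256, 2, 0, [h5, h0 5876], 17, ca2_14, 0, 0⟩)))
  (.lf ⟨⟨0, 0, 0, 1640, 16, 5, 3⟩, 31543, 256, 2, 0, [h5, h0 5876], 17, ca2_14, 0, 0⟩))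
  (.lf ⟨⟨0, 0, 0, 1971, 16, 4, 3⟩, 45703, 256, 1, 0, [h5, h0 5878], 17, ca2_15, 0, 0⟩))
  (.lf ⟨⟨0, 0, 0, 2856, 16, 3, 2⟩, 0, 0, 0, 0, [h5, h0 5880, f6], 0, ca2_16, 0, 0⟩)))

noncomputable def a12_6 : T5 :=
  (.nd 2 1085 .lw
  (.nd 2 1265 (.nd 2 1175 (.nd 2 1130 (.lf ⟨⟨0, 0, 0, 10998, 256, 11, 7⟩, 12855, 256, 5, 0, [h5, h0 5864], 22, ca2_17, 0, 0⟩)
  (.lf ⟨⟨0, 0, 0, 12854, 256, 9, 6⟩, 15025, 256, 4, 0, [h5, h0 5868], 17, ca2_18, 0, 0⟩))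
  (.lf ⟨⟨0, 0, 0, 15024, 256, 8, 5⟩, 20524, 256, 3, 0, [h5, h0 5870], 17, ca2_19, 0, 0⟩))
  (.lf ⟨⟨0, 0, 0, 1282, 16, 6, 4⟩, 0, 0, 0, 0, [h5, h0 5874], 17, ca2_20, 0, 0⟩)))

noncomputable def a12_7 : T5 :=
  (.nd 2 883 .lw
  (.nd 2 1030 (.nd 2 956 (.nd 2 919 (.lf ⟨⟨149523, 256, 1, 5461, 256, 21, 14⟩, 6187, 256, 11, 1, [h5, h0 5848], 22, ca2_21, 0, 0⟩)
  (.nd 2 937 (.nd 2 928 (.lf ⟨⟨159147, 256, 1, 6186, 256, 18, 12⟩, 6383, 256, 11, 1, [h5, h0 5854], 17, ca2_22, 0, 0⟩)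
  (.lf ⟨⟨169392, 256, 1, 6382, 256, 18, 12⟩, 6586, 256, 10, 1, [h5, h0 5854], 17, ca2_22, 0, 0⟩))
  (.lf ⟨⟨193236, 256, 1, 6585, 256, 17, 12⟩, 7034, 256, 10, 1, [h5, h0 5856], 17, ca2_22, 0, 0⟩)))
  (.lf ⟨⟨0, 0, 0, 7033, 256, 16, 11⟩, 9090, 256, 8, 0, [h5, h0 5854], 17, ca2_22, 0, 0⟩))
  (.lf ⟨⟨0, 0, 0, 9089, 256, 13, 9⟩, 0, 0, 0, 0, [h5, h0 5860], 17, ca2_23, 0, 0⟩)))

noncomputable def a12_8 : T5 :=
  (.nd 2 681 .lw
  (.nd 2 801 (.nd 2 741 (.nd 2 711 (.lf ⟨⟨35365, 256, 6, 2711, 256, 40, 27⟩, 3009, 256, 23, 5, [h5, h0 5828], 22, ca2_24, 0, 0⟩)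
  (.nd 2 726 (.nd 2 718 (.lf ⟨⟨37123, 256, 5, 3008, 256, 37, 24⟩, 3083, 256, 23, 5, [h5, h0 5832], 17, ca2_25, 0, 0⟩)
  (.lf ⟨⟨39239, 256, 5, 3082, 256, 36, 24⟩, 3170, 256, 22, 4, [h5, h0 5832], 17, ca2_25, 0, 0⟩))
  (.lf ⟨⟨43539, 256, 5, 3169, 256, 35, 23⟩, 3339, 256, 21, 4, [h5, h0 5834], 17, ca2_25, 0, 0⟩)))
  (.nd 2 771 (.lf ⟨⟨53603, 256, 4, 3338, 256, 33, 22⟩, 3705, 256, 19, 3, [h5, h0 5834], 17, ca2_26, 0, 0⟩)
  (.lf ⟨⟨65992, 256, 3, 3704, 256, 30, 20⟩, 4111, 256, 17, 2, [h5, h0 5836], 17, ca2_27, 0, 0⟩)))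
  (.nd 2 934 (.nd 2 867 (.lf ⟨⟨104273, 256, 2, 4110, 256, 27, 18⟩, 5167, 256, 13, 1, [h5, h0 5838], 17, ca2_28, 0, 0⟩)
  (.lf ⟨⟨165906, 256, 1, 5166, 256, 22, 14⟩, 6518, 256, 11, 1, [h5, h0 5846], 17, ca2_29, 0, 0⟩))
  (.lf ⟨⟨0, 0, 0, 6517, 256, 17, 12⟩, 0, 0, 0, 0, [h5, h0 5852], 0, ca2_30, 0, 0⟩))))

noncomputable def a12_9 : T5 :=
  (.nd 2 473 .lw
  (.nd 2 500 (.lf ⟨⟨8192, 256, 27, 1318, 256, 81, 52⟩, 1449, 256, 46, 19, [h5, h0 5816], 22, ca2_31, 0, 0⟩)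
  (.nd 2 600 (.nd 2 550 (.nd 2 525 (.nd 2 512 (.lf ⟨⟨8903, 256, 25, 1448, 256, 74, 47⟩, 1510, 256, 45, 18, [h5, h0 5824], 17, ca2_32, 0, 0⟩)
  (.lf ⟨⟨9742, 256, 23, 1509, 256, 71, 46⟩, 1580, 256, 43, 16, [h5, h0 5822], 17, ca2_32, 0, 0⟩))
  (.nd 2 537 (.lf ⟨⟨10587, 256, 21, 1579, 256, 68, 44⟩, 1647, 256, 41, 15, [h5, h0 5822], 17, ca2_32, 0, 0⟩)
  (.nd 2 543 (.lf ⟨⟨11037, 256, 20, 1646, 256, 65, 42⟩, 1681, 256, 40, 15, [h5, h0 5826], 17, ca2_32, 0, 0⟩)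
  (.lf ⟨⟨11586, 256, 19, 1680, 256, 64, 41⟩, 1723, 256, 39, 14, [h5, h0 5824], 17, ca2_32, 0, 0⟩))))
  (.nd 2 575 (.nd 2 562 (.lf ⟨⟨12591, 256, 17, 1722, 256, 63, 40⟩, 1796, 256, 38, 13, [h5, h0 5820], 17, ca2_33, 0, 0⟩)
  (.lf ⟨⟨13778, 256, 16, 1795, 256, 60, 39⟩, 1879, 256, 36, 12, [h5, h0 5822], 17, ca2_34, 0, 0⟩))
  (.nd 2 587 (.lf ⟨⟨14973, 256, 14, 1878, 256, 58, 37⟩, 1958, 256, 35, 11, [h5, h0 5820], 17, ca2_35, 0, 0⟩)
  (.lf ⟨⟨16384, 256, 13, 1957, 256, 55, 36⟩, 2048, 256, 33, 10, [h5, h0 5822], 17, ca2_35, 0, 0⟩))))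
  (.nd 2 700 (.nd 2 650 (.nd 2 625 (.nd 2 612 (.lf ⟨⟨17806, 256, 12, 2048, 256, 53, 34⟩, 2135, 256, 32, 9, [h5, h0 5822], 17, ca2_36, 0, 0⟩)
  (.lf ⟨⟨19484, 256, 11, 2134, 256, 51, 33⟩, 2234, 256, 31, 9, [h5, h0 5824], 17, ca2_37, 0, 0⟩))
  (.lf ⟨⟨23171, 256, 9, 2233, 256, 49, 32⟩, 2436, 256, 28, 7, [h5, h0 5820], 17, ca2_38, 0, 0⟩))
  (.nd 2 675 (.lf ⟨⟨27555, 256, 8, 2435, 256, 45, 29⟩, 2656, 256, 26, 6, [h5, h0 5824], 17, ca2_38, 0, 0⟩)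
  (.lf ⟨⟨32768, 256, 6, 2655, 256, 41, 27⟩, 2897, 256, 24, 5, [h5, h0 5826], 0, ca2_39, 0, 0⟩)))
  (.lf ⟨⟨0, 0, 0, 2896, 256, 38, 25⟩, 0, 0, 0, 0, [h5, h0 5810], 0, ca2_40, 0, 0⟩)))))

noncomputable def a12_10 : T5 :=
  (.nd 2 261 .lw
  (.nd 2 300 (.lf ⟨⟨2048, 256, 115, 632, 256, 160, 99⟩, 725, 256, 87, 61, [h5, h0 5918], 17, ca2_41, 0, 0⟩)
  (.nd 2 400 (.nd 2 350 (.nd 2 325 (.lf ⟨⟨2436, 256, 96, 724, 256, 141, 88⟩, 790, 256, 80, 53, [h5, h0 5902], 17, ca2_42, 0, 0⟩)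
  (.lf ⟨⟨2897, 256, 80, 789, 256, 131, 82⟩, 862, 256, 75, 46, [h5, h0 5876], 17, ca2_43, 0, 0⟩))
  (.nd 2 375 (.lf ⟨⟨3445, 256, 66, 861, 256, 120, 76⟩, 940, 256, 69, 40, [h5, h0 5858], 17, ca2_44, 0, 0⟩)
  (.lf ⟨⟨4096, 256, 55, 939, 256, 111, 70⟩, 1024, 256, 64, 35, [h5, h0 5844], 17, ca2_45, 0, 0⟩)))
  (.nd 2 500 (.nd 2 450 (.nd 2 425 (.lf ⟨⟨4871, 256, 46, 1024, 256, 102, 65⟩, 1117, 256, 59, 30, [h5, h0 5834], 17, ca2_46, 0, 0⟩)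
  (.lf ⟨⟨5793, 256, 39, 1116, 256, 94, 60⟩, 1218, 256, 55, 26, [h5, h0 5828], 17, ca2_47, 0, 0⟩))
  (.nd 2 475 (.nd 2 462 (.lf ⟨⟨6296, 256, 35, 1217, 256, 87, 56⟩, 1270, 256, 52, 24, [h5, h0 5830], 17, ca2_48, 0, 0⟩)
  (.lf ⟨⟨6889, 256, 32, 1269, 256, 84, 54⟩, 1328, 256, 50, 22, [h5, h0 5826], 0, ca2_48, 0, 0⟩))
  (.lf ⟨⟨8192, 256, 27, 1327, 256, 80, 51⟩, 1449, 256, 46, 19, [h5, h0 5818], 0, ca2_49, 0, 0⟩)))
  (.lf ⟨⟨0, 0, 0, 1448, 256, 74, 47⟩, 0, 0, 0, 0, [h5, h0 5738], 0, ca2_50, 0, 0⟩)))))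

noncomputable def a12_11 : T5 :=
  (.nd 2 10 .lw
  (.nd 2 99 (.nd 2 59 (.lf ⟨⟨386, 256, 942, 265, 256, 342, 196⟩, 315, 256, 171, 194, [h5, h0 7474], 17, ca2_51, 0, 0⟩)
  (.lf ⟨⟨509, 256, 605, 314, 256, 296, 173⟩, 361, 256, 154, 163, [h5, h0 6830], 17, ca2_52, 0, 0⟩))
  (.nd 2 159 (.nd 2 129 (.nd 2 114 (.lf ⟨⟨565, 256, 522, 360, 256, 264, 155⟩, 381, 256, 148, 152, [h5, h0 6706], 12, ca2_53, 0, 0⟩)
  (.lf ⟨⟨626, 256, 455, 380, 256, 252, 149⟩, 401, 256, 142, 142, [h5, h0 6576], 12, ca2_54, 0, 0⟩))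
  (.nd 2 144 (.nd 2 136 (.lf ⟨⟨658, 256, 426, 400, 256, 241, 143⟩, 411, 256, 139, 137, [h5, h0 6530], 12, ca2_55, 0, 0⟩)
  (.lf ⟨⟨695, 256, 397, 410, 256, 236, 140⟩, 422, 256, 136, 133, [h5, h0 6474], 17, ca2_56, 0, 0⟩))
  (.lf ⟨⟨771, 256, 349, 421, 256, 230, 138⟩, 445, 256, 131, 123, [h5, h0 6370], 17, ca2_57, 0, 0⟩)))
  (.nd 2 200 (.nd 2 179 (.lf ⟨⟨886, 256, 295, 444, 256, 220, 132⟩, 477, 256, 123, 112, [h5, h0 6260], 12, ca2_58, 0, 0⟩)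
  (.lf ⟨⟨1024, 256, 249, 476, 256, 207, 125⟩, 512, 256, 116, 101, [h5, h0 6172], 0, ca2_59, 0, 0⟩))
  (.nd 2 300 (.nd 2 250 (.nd 2 225 (.lf ⟨⟨1218, 256, 204, 512, 256, 194, 117⟩, 559, 256, 108, 89, [h5, h0 6084], 0, ca2_60, 0, 0⟩)
  (.nd 2 237 (.lf ⟨⟨1324, 256, 185, 558, 256, 179, 109⟩, 583, 256, 105, 84, [h5, h0 6066], 0, ca2_61, 0, 0⟩)
  (.lf ⟨⟨1449, 256, 168, 582, 256, 173, 106⟩, 609, 256, 101, 79, [h5, h0 6034], 0, ca2_62, 0, 0⟩)))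
  (.nd 2 275 (.lf ⟨⟨1723, 256, 139, 608, 256, 166, 102⟩, 664, 256, 94, 69, [h5, h0 5970], 0, ca2_63, 0, 0⟩)
  (.lf ⟨⟨2048, 256, 115, 663, 256, 153, 95⟩, 725, 256, 87, 61, [h5, h0 5932], 0, ca2_64, 0, 0⟩)))
  (.nd 2 400 (.lf ⟨⟨4096, 256, 55, 724, 256, 141, 88⟩, 1024, 256, 64, 35, [h5, h0 5784], 0, ca2_65, 0, 0⟩)
  (.lf ⟨⟨0, 0, 0, 1024, 256, 102, 65⟩, 0, 0, 0, 0, [h5, h0 5682], 0, ca2_66, 0, 0⟩)))))))

noncomputable def a12_12 : T5 :=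
  (.nd 2 99 (.nd 2 59 (.lf ⟨⟨386, 256, 942, 256, 256, 351, 200⟩, 315, 256, 171, 194, [h5, h0 7456], 0, ca2_67, 0, 0⟩)
  (.nd 2 93 (.lf ⟨⟨488, 256, 643, 314, 256, 296, 173⟩, 354, 256, 156, 167, [h5, h0 6914], 0, ca2_68, 0, 0⟩)
  (.lf ⟨⟨509, 256, 605, 353, 256, 268, 158⟩, 361, 256, 154, 163, [h5, h0 6886], 0, ca2_69, 0, 0⟩)))
  (.nd 2 159 (.lf ⟨⟨771, 256, 349, 360, 256, 264, 155⟩, 445, 256, 131, 123, [h5, h0 6302], 0, ca2_70, 0, 0⟩)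
  (.nd 2 200 (.lf ⟨⟨1024, 256, 249, 444, 256, 220, 132⟩, 512, 256, 116, 101, [h5, h0 6146], 0, ca2_71, 0, 0⟩)
  (.nd 2 300 (.lf ⟨⟨2048, 256, 115, 512, 256, 194, 117⟩, 725, 256, 87, 61, [h5, h0 5850], 0, ca2_72, 0, 0⟩)
  (.lf ⟨⟨0, 0, 0, 724, 256, 141, 88⟩, 0, 0, 0, 0, [h5, h0 5604], 0, ca2_73, 0, 0⟩)))))

theorem sa12 : SA cs12.st (bxL 656 673) :=
  sa_nd 100 (sa_rc 1 2 0 1 6401595 2261 a12_0 (by decide +kernel)) <|
  sa_nd 200 (sa_rc 2 4 1 2 46426057306790 4540 a12_1 (by decide +kernel)) <|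
  sa_nd 300 (sa_rc 4 8 1 2 26664767828654 4460 a12_2 (by decide +kernel)) <|
  sa_nd 337 (sa_rc 8 10 0 1 1187914 2018 a12_3 (by decide +kernel)) <|
  sa_nd 437 (sa_rc 11 20 1 2 10533134077941 4326 a12_4 (by decide +kernel)) <|
  sa_nd 537 (sa_rc 21 41 1 1 12539704 2358 a12_5 (by decide +kernel)) <|
  sa_nd 637 (sa_rc 42 82 1 1 12714752 2360 a12_6 (by decide +kernel)) <|
  sa_nd 737 (sa_rc 83 165 1 1 12539704 2358 a12_7 (by decide +kernel)) <|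
  sa_nd 837 (sa_rc 166 330 1 1 12367066 2356 a12_8 (by decide +kernel)) <|
  sa_nd 937 (sa_rc 331 661 1 1 11699957 2348 a12_9 (by decide +kernel)) <|
  sa_nd 1037 (sa_rc 662 1323 1 1 10766156 2336 a12_10 (by decide +kernel)) <|
  sa_nd 1087 (sa_rc 1324 1871 2 1 7074592968 3272 a12_11 (by decide +kernel)) <|
  sa_no a12_12 (by decide +kernel)

noncomputable def a13_0 : T5 :=
  (.nd 2 2208 .lw
  (.lf ⟨⟨0, 0, 0, 33689, 16, 1, 1⟩, 0, 0, 0, 0, [h5, h0 5884, f10], 26, ca2_0, 0, 0⟩))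

noncomputable def a13_1 : T5 :=
  (.nd 2 2040 .lw
  (.lf ⟨⟨0, 0, 0, 18820, 16, 1, 1⟩, 0, 0, 0, 0, [h5, h0 5884, f9], 26, ca2_74, 0, 0⟩))

noncomputable def a13_2 : T5 :=
  (.nd 2 1837 .lw
  (.nd 2 2143 (.nd 2 1990 (.nd 2 1913 (.nd 2 1875 (.lf ⟨⟨0, 0, 0, 9312, 16, 1, 1⟩, 0, 0, 0, 0, [h5, h0 5884], 11, ca2_75, 0, 0⟩)
  (.nd 2 1894 (.lf ⟨⟨0, 0, 0, 10623, 16, 1, 1⟩, 0, 0, 0, 0, [h5, h0 5884], 11, ca2_76, 0, 0⟩)
  (.nd 2 1903 (.lf ⟨⟨0, 0, 0, 11346, 16, 1, 1⟩, 0, 0, 0, 0, [h5, h0 5884], 11, ca2_77, 0, 0⟩)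
  (.lf ⟨⟨0, 0, 0, 11706, 16, 1, 1⟩, 0, 0, 0, 0, [h5, h0 5884, f8], 13, ca2_5, 0, 0⟩))))
  (.lf ⟨⟨0, 0, 0, 12119, 16, 1, 1⟩, 0, 0, 0, 0, [h5, h0 5884, f8], 13, ca2_5, 0, 0⟩))
  (.lf ⟨⟨0, 0, 0, 15825, 16, 1, 1⟩, 0, 0, 0, 0, [h5, h0 5884, f8], 0, ca2_78, 0, 0⟩))
  (.lf ⟨⟨0, 0, 0, 26894, 16, 1, 1⟩, 0, 0, 0, 0, [h5, h0 5884, f8], 0, ca2_79, 0, 0⟩)))

noncomputable def a13_3 : T5 :=
  (.nd 2 1728 .lw
  (.lf ⟨⟨0, 0, 0, 6382, 16, 2, 1⟩, 0, 0, 0, 0, [h5, h0 5882, f11], 26, ca2_7, 0, 0⟩))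

noncomputable def a13_4 : T5 :=
  (.nd 2 1547 .lw
  (.nd 2 1804 (.nd 2 1675 (.nd 2 1611 (.lf ⟨⟨0, 0, 0, 3408, 16, 3, 2⟩, 68083, 256, 1, 0, [h5, h0 5880], 11, ca2_80, 0, 0⟩)
  (.lf ⟨⟨0, 0, 0, 4255, 16, 2, 2⟩, 0, 0, 0, 0, [h5, h0 5882, f7], 12, ca2_10, 0, 0⟩))
  (.lf ⟨⟨0, 0, 0, 5311, 16, 2, 1⟩, 0, 0, 0, 0, [h5, h0 5882, f7], 12, ca2_10, 0, 0⟩))
  (.lf ⟨⟨0, 0, 0, 8306, 16, 1, 1⟩, 0, 0, 0, 0, [h5, h0 5884, f7], 0, ca2_11, 0, 0⟩)))

noncomputable def a13_5 : T5 :=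
  (.nd 2 1327 .lw
  (.nd 2 1548 (.nd 2 1437 (.nd 2 1382 (.nd 2 1354 (.lf ⟨⟨0, 0, 0, 1590, 16, 5, 3⟩, 27940, 256, 2, 0, [h5, h0 5876], 22, ca2_81, 0, 0⟩)
  (.lf ⟨⟨0, 0, 0, 1746, 16, 4, 3⟩, 30787, 256, 2, 0, [h5, h0 5878], 17, ca2_82, 0, 0⟩))
  (.lf ⟨⟨0, 0, 0, 1924, 16, 4, 3⟩, 37252, 256, 1, 0, [h5, h0 5878], 17, ca2_83, 0, 0⟩))
  (.lf ⟨⟨0, 0, 0, 2328, 16, 3, 2⟩, 54729, 256, 1, 0, [h5, h0 5880], 17, ca2_84, 0, 0⟩))
  (.lf ⟨⟨0, 0, 0, 3420, 16, 3, 2⟩, 0, 0, 0, 0, [h5, h0 5880, f6], 0, ca2_10, 0, 0⟩)))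

noncomputable def a13_6 : T5 :=
  (.nd 2 1127 .lw
  (.nd 2 1314 (.nd 2 1220 (.nd 2 1173 (.nd 2 1150 (.lf ⟨⟨0, 0, 0, 12721, 256, 9, 6⟩, 13778, 256, 5, 0, [h5, h0 5868], 22, ca2_85, 0, 0⟩)
  (.nd 2 1161 (.lf ⟨⟨0, 0, 0, 13777, 256, 9, 6⟩, 14313, 256, 5, 0, [h5, h0 5868], 22, ca2_86, 0, 0⟩)
  (.lf ⟨⟨0, 0, 0, 14312, 256, 8, 6⟩, 14921, 256, 4, 0, [h5, h0 5870], 17, ca2_87, 0, 0⟩)))
  (.lf ⟨⟨0, 0, 0, 14920, 256, 8, 5⟩, 17560, 256, 4, 0, [h5, h0 5870], 17, ca2_87, 0, 0⟩))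
  (.lf ⟨⟨0, 0, 0, 1097, 16, 7, 5⟩, 24323, 256, 3, 0, [h5, h0 5872], 17, ca2_85, 0, 0⟩))
  (.lf ⟨⟨0, 0, 0, 1520, 16, 5, 4⟩, 0, 0, 0, 0, [h5, h0 5876], 17, ca2_88, 0, 0⟩)))

noncomputable def a13_7 : T5 :=
  (.nd 2 927 .lw
  (.nd 2 1081 (.nd 2 1004 (.nd 2 965 (.lf ⟨⟨205675, 256, 1, 6360, 256, 18, 12⟩, 7257, 256, 9, 1, [h5, h0 5854], 22, ca2_89, 0, 0⟩)
  (.nd 2 984 (.lf ⟨⟨0, 0, 0, 7256, 256, 16, 11⟩, 7751, 256, 9, 0, [h5, h0 5854], 17, ca2_90, 0, 0⟩)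
  (.lf ⟨⟨0, 0, 0, 7750, 256, 15, 10⟩, 8307, 256, 8, 0, [h5, h0 5856], 17, ca2_91, 0, 0⟩)))
  (.lf ⟨⟨0, 0, 0, 8306, 256, 14, 9⟩, 10847, 256, 6, 0, [h5, h0 5858], 17, ca2_91, 0, 0⟩))
  (.lf ⟨⟨0, 0, 0, 10846, 256, 11, 7⟩, 0, 0, 0, 0, [h5, h0 5864], 17, ca2_92, 0, 0⟩)))

noncomputable def a13_8 : T5 :=
  (.nd 2 725 .lw
  (.nd 2 801 (.nd 2 763 (.lf ⟨⟨50711, 256, 4, 3158, 256, 35, 23⟩, 3604, 256, 19, 3, [h5, h0 5830], 22, ca2_93, 0, 0⟩)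
  (.nd 2 782 (.nd 2 772 (.lf ⟨⟨53975, 256, 4, 3603, 256, 31, 20⟩, 3718, 256, 19, 3, [h5, h0 5838], 17, ca2_26, 0, 0⟩)
  (.lf ⟨⟨57849, 256, 3, 3717, 256, 30, 20⟩, 3849, 256, 18, 3, [h5, h0 5838], 17, ca2_94, 0, 0⟩))
  (.lf ⟨⟨65992, 256, 3, 3848, 256, 29, 19⟩, 4111, 256, 17, 2, [h5, h0 5838], 17, ca2_27, 0, 0⟩)))
  (.nd 2 934 (.nd 2 867 (.nd 2 834 (.lf ⟨⟨82953, 256, 2, 4110, 256, 27, 18⟩, 4609, 256, 15, 2, [h5, h0 5840], 17, ca2_95, 0, 0⟩)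
  (.lf ⟨⟨104273, 256, 2, 4608, 256, 24, 16⟩, 5167, 256, 13, 1, [h5, h0 5844], 17, ca2_96, 0, 0⟩))
  (.lf ⟨⟨165906, 256, 1, 5166, 256, 22, 14⟩, 6518, 256, 11, 1, [h5, h0 5846], 17, ca2_96, 0, 0⟩))
  (.lf ⟨⟨0, 0, 0, 6517, 256, 17, 12⟩, 0, 0, 0, 0, [h5, h0 5852], 0, ca2_97, 0, 0⟩))))

noncomputable def a13_9 : T5 :=
  (.nd 2 519 .lw
  (.nd 2 600 (.nd 2 559 (.lf ⟨⟨12331, 256, 18, 1546, 256, 69, 45⟩, 1777, 256, 38, 13, [h5, h0 5810], 22, ca2_98, 0, 0⟩)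
  (.nd 2 579 (.nd 2 569 (.lf ⟨⟨13217, 256, 16, 1776, 256, 61, 39⟩, 1840, 256, 37, 13, [h5, h0 5822], 17, ca2_34, 0, 0⟩)
  (.lf ⟨⟨14165, 256, 15, 1839, 256, 59, 38⟩, 1905, 256, 36, 12, [h5, h0 5822], 17, ca2_34, 0, 0⟩))
  (.nd 2 589 (.lf ⟨⟨15182, 256, 14, 1904, 256, 57, 37⟩, 1972, 256, 35, 11, [h5, h0 5822], 17, ca2_35, 0, 0⟩)
  (.lf ⟨⟨16384, 256, 13, 1971, 256, 55, 36⟩, 2048, 256, 33, 10, [h5, h0 5822], 17, ca2_35, 0, 0⟩))))
  (.nd 2 700 (.nd 2 650 (.nd 2 625 (.lf ⟨⟨19484, 256, 11, 2048, 256, 53, 34⟩, 2234, 256, 31, 9, [h5, h0 5820], 17, ca2_99, 0, 0⟩)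
  (.lf ⟨⟨23171, 256, 9, 2233, 256, 49, 32⟩, 2436, 256, 28, 7, [h5, h0 5820], 17, ca2_38, 0, 0⟩))
  (.nd 2 675 (.lf ⟨⟨27555, 256, 8, 2435, 256, 45, 29⟩, 2656, 256, 26, 6, [h5, h0 5824], 17, ca2_38, 0, 0⟩)
  (.lf ⟨⟨32768, 256, 6, 2655, 256, 41, 27⟩, 2897, 256, 24, 5, [h5, h0 5826], 17, ca2_100, 0, 0⟩)))
  (.nd 2 801 (.nd 2 750 (.lf ⟨⟨46341, 256, 4, 2896, 256, 38, 25⟩, 3445, 256, 20, 4, [h5, h0 5826], 17, ca2_101, 0, 0⟩)
  (.lf ⟨⟨65992, 256, 3, 3444, 256, 32, 21⟩, 4111, 256, 17, 2, [h5, h0 5832], 0, ca2_102, 0, 0⟩))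
  (.lf ⟨⟨0, 0, 0, 4110, 256, 27, 18⟩, 0, 0, 0, 0, [h5, h0 5832], 0, ca2_103, 0, 0⟩)))))

noncomputable def a13_10 : T5 :=
  (.nd 2 307 .lw
  (.nd 2 400 (.nd 2 353 (.lf ⟨⟨2958, 256, 78, 741, 256, 138, 86⟩, 871, 256, 74, 45, [h5, h0 5856], 22, ca2_104, 0, 0⟩)
  (.nd 2 376 (.lf ⟨⟨3469, 256, 66, 870, 256, 119, 75⟩, 943, 256, 69, 40, [h5, h0 5860], 17, ca2_105, 0, 0⟩)
  (.lf ⟨⟨4096, 256, 55, 942, 256, 111, 70⟩, 1024, 256, 64, 35, [h5, h0 5844], 17, ca2_106, 0, 0⟩)))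
  (.nd 2 500 (.nd 2 450 (.nd 2 425 (.lf ⟨⟨4871, 256, 46, 1024, 256, 102, 65⟩, 1117, 256, 59, 30, [h5, h0 5834], 17, ca2_107, 0, 0⟩)
  (.lf ⟨⟨5793, 256, 39, 1116, 256, 94, 60⟩, 1218, 256, 55, 26, [h5, h0 5828], 17, ca2_108, 0, 0⟩))
  (.nd 2 475 (.nd 2 462 (.lf ⟨⟨6296, 256, 35, 1217, 256, 87, 56⟩, 1270, 256, 52, 24, [h5, h0 5830], 17, ca2_109, 0, 0⟩)
  (.lf ⟨⟨6889, 256, 32, 1269, 256, 84, 54⟩, 1328, 256, 50, 22, [h5, h0 5826], 17, ca2_110, 0, 0⟩))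
  (.nd 2 487 (.lf ⟨⟨7487, 256, 30, 1327, 256, 80, 51⟩, 1385, 256, 48, 21, [h5, h0 5828], 17, ca2_111, 0, 0⟩)
  (.lf ⟨⟨8192, 256, 27, 1384, 256, 77, 49⟩, 1449, 256, 46, 19, [h5, h0 5824], 17, ca2_112, 0, 0⟩))))
  (.nd 2 600 (.nd 2 550 (.nd 2 525 (.nd 2 512 (.lf ⟨⟨8903, 256, 25, 1448, 256, 74, 47⟩, 1510, 256, 45, 18, [h5, h0 5824], 17, ca2_113, 0, 0⟩)
  (.lf ⟨⟨9742, 256, 23, 1509, 256, 71, 46⟩, 1580, 256, 43, 16, [h5, h0 5822], 0, ca2_114, 0, 0⟩))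
  (.lf ⟨⟨11586, 256, 19, 1579, 256, 68, 44⟩, 1723, 256, 39, 14, [h5, h0 5816], 0, ca2_115, 0, 0⟩))
  (.lf ⟨⟨16384, 256, 13, 1722, 256, 63, 40⟩, 2048, 256, 33, 10, [h5, h0 5806], 0, ca2_116, 0, 0⟩))
  (.lf ⟨⟨0, 0, 0, 2048, 256, 53, 34⟩, 0, 0, 0, 0, [h5, h0 5780], 0, ca2_117, 0, 0⟩)))))

noncomputable def a13_11 : T5 :=
  (.nd 2 142 .lw
  (.nd 2 200 (.lf ⟨⟨1024, 256, 249, 418, 256, 232, 138⟩, 512, 256, 116, 101, [h5, h0 6122], 17, ca2_118, 0, 0⟩)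
  (.nd 2 300 (.nd 2 250 (.nd 2 225 (.lf ⟨⟨1218, 256, 204, 512, 256, 194, 117⟩, 559, 256, 108, 89, [h5, h0 6084], 12, ca2_119, 0, 0⟩)
  (.nd 2 237 (.lf ⟨⟨1324, 256, 185, 558, 256, 179, 109⟩, 583, 256, 105, 84, [h5, h0 6066], 12, ca2_120, 0, 0⟩)
  (.nd 2 243 (.lf ⟨⟨1380, 256, 177, 582, 256, 173, 106⟩, 595, 256, 103, 82, [h5, h0 6058], 12, ca2_121, 0, 0⟩)
  (.lf ⟨⟨1449, 256, 168, 594, 256, 169, 104⟩, 609, 256, 101, 79, [h5, h0 6042], 12, ca2_122, 0, 0⟩))))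
  (.nd 2 275 (.nd 2 262 (.lf ⟨⟨1574, 256, 153, 608, 256, 166, 102⟩, 635, 256, 97, 74, [h5, h0 6008], 12, ca2_123, 0, 0⟩)
  (.lf ⟨⟨1723, 256, 139, 634, 256, 160, 98⟩, 664, 256, 94, 69, [h5, h0 5982], 12, ca2_124, 0, 0⟩))
  (.nd 2 287 (.lf ⟨⟨1872, 256, 127, 663, 256, 153, 95⟩, 693, 256, 90, 65, [h5, h0 5964], 12, ca2_125, 0, 0⟩)
  (.lf ⟨⟨2048, 256, 115, 692, 256, 147, 91⟩, 725, 256, 87, 61, [h5, h0 5944], 12, ca2_126, 0, 0⟩))))
  (.nd 2 400 (.nd 2 350 (.lf ⟨⟨2897, 256, 80, 724, 256, 141, 88⟩, 862, 256, 75, 46, [h5, h0 5856], 0, ca2_127, 0, 0⟩)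
  (.lf ⟨⟨4096, 256, 55, 861, 256, 120, 76⟩, 1024, 256, 64, 35, [h5, h0 5826], 0, ca2_128, 0, 0⟩))
  (.lf ⟨⟨0, 0, 0, 1024, 256, 102, 65⟩, 0, 0, 0, 0, [h5, h0 5682], 0, ca2_129, 0, 0⟩)))))

noncomputable def a13_12 : T5 :=
  (.nd 2 99 (.nd 2 59 (.lf ⟨⟨386, 256, 942, 256, 256, 351, 200⟩, 315, 256, 171, 194, [h5, h0 7456], 0, ca2_130, 0, 0⟩)
  (.nd 2 93 (.lf ⟨⟨488, 256, 643, 314, 256, 296, 173⟩, 354, 256, 156, 167, [h5, h0 6914], 0, ca2_131, 0, 0⟩)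
  (.lf ⟨⟨509, 256, 605, 353, 256, 268, 158⟩, 361, 256, 154, 163, [h5, h0 6886], 0, ca2_131, 0, 0⟩)))
  (.nd 2 159 (.nd 2 129 (.lf ⟨⟨626, 256, 455, 360, 256, 264, 155⟩, 401, 256, 142, 142, [h5, h0 6552], 0, ca2_132, 0, 0⟩)
  (.lf ⟨⟨771, 256, 349, 400, 256, 241, 143⟩, 445, 256, 131, 123, [h5, h0 6348], 0, ca2_133, 0, 0⟩))
  (.nd 2 200 (.lf ⟨⟨1024, 256, 249, 444, 256, 220, 132⟩, 512, 256, 116, 101, [h5, h0 6146], 0, ca2_134, 0, 0⟩)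
  (.nd 2 300 (.lf ⟨⟨2048, 256, 115, 512, 256, 194, 117⟩, 725, 256, 87, 61, [h5, h0 5850], 0, ca2_135, 0, 0⟩)
  (.lf ⟨⟨0, 0, 0, 724, 256, 141, 88⟩, 0, 0, 0, 0, [h5, h0 5604], 0, ca2_136, 0, 0⟩)))))

theorem sa13 : SA cs13.st (bxL 674 689) :=
  sa_nd 100 (sa_rc 1 2 0 1 8928584 2309 a13_0 (by decide +kernel)) <|
  sa_nd 200 (sa_rc 2 4 0 1 5572912 2241 a13_1 (by decide +kernel)) <|
  sa_nd 300 (sa_rc 4 8 1 2 59584404269274 4576 a13_2 (by decide +kernel)) <|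
  sa_nd 345 (sa_rc 8 10 0 1 1751306 2074 a13_3 (by decide +kernel)) <|
  sa_nd 445 (sa_rc 11 21 1 2 21658521567107 4430 a13_4 (by decide +kernel)) <|
  sa_nd 545 (sa_rc 22 43 1 1 19006637 2418 a13_5 (by decide +kernel)) <|
  sa_nd 645 (sa_rc 44 87 1 1 19006637 2418 a13_6 (by decide +kernel)) <|
  sa_nd 745 (sa_rc 88 174 1 1 19006637 2418 a13_7 (by decide +kernel)) <|
  sa_nd 845 (sa_rc 175 349 1 1 18744967 2416 a13_8 (by decide +kernel)) <|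
  sa_nd 945 (sa_rc 350 699 1 1 17981374 2410 a13_9 (by decide +kernel)) <|
  sa_nd 1045 (sa_rc 700 1398 1 1 16546239 2398 a13_10 (by decide +kernel)) <|
  sa_nd 1095 (sa_rc 1399 1978 2 1 20859709277 3428 a13_11 (by decide +kernel)) <|
  sa_no a13_12 (by decide +kernel)

end Pool.Agent.MP_2339ce_nt.Q2.TB.RT
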