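import Pool.Agent.MP_2339ce_nt.Q2.RTc
import Pool.Agent.MP_2339ce_nt.Q2.RS

/-! Project Q2, block RT: staircases. -/

set_option autoImplicit false

noncomputable section

namespace Pool.Agent.MP_2339ce_nt.Q2.TB.RT

noncomputable def ca3_0 : List VW := k1 v1 (k1 v144 (k1 v418 (k1 v433 (k1 v160 (k1 v167 (k1 v586 (k0)))))))
noncomputable def ca3_1 : List VW := k1 v1 (k1 v144 (k1 v420 (k1 v434 (k1 v162 (k1 v167 (k1 v586 (k0)))))))
noncomputable def ca3_2 : List VW := k8 v416 v147 v422 v149 v426 v160 v441 v167 (k8 v452 v174 v464 v180 v469 v186 v476 v190 (k8 v480 v195 v485 v199 v488 v202 v493 v205 (k8 v496 v207 v502 v211 v214 v511 v217 v220 (k8 v224 v226 v229 v230 v232 v233 v235 v237 (k8 v239 v241 v244 v245 v247 v249 v251 v252 (k1 v254 (k1 v601 (k0))))))))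
noncomputable def ca3_3 : List VW := k8 v416 v147 v422 v149 v426 v160 v441 v167 (k8 v452 v174 v464 v180 v469 v186 v476 v190 (k8 v480 v195 v485 v199 v488 v202 v493 v205 (k8 v496 v504 v212 v505 v513 v218 v514 v519 (k8 v224 v226 v229 v230 v232 v233 v235 v237 (k8 v240 v241 v244 v245 v247 v249 v251 v252 (k1 v254 (k1 v255 (k1 v256 (k1 v257 (k1 v259 (k1 v603 (k0))))))))))))
noncomputable def ca3_4 : List VW := k8 v1 v144 v418 v149 v152 v163 v167 v586 (k0)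
noncomputable def ca3_5 : List VW := k1 v1 (k1 v144 (k1 v420 (k1 v434 (k1 v160 (k1 v167 (k1 v586 (k0)))))))
noncomputable def ca3_6 : List VW := k1 v1 (k1 v144 (k1 v0 (k1 v149 (k1 v162 (k1 v167 (k1 v586 (k0)))))))
noncomputable def ca3_7 : List VW := k8 v1 v144 v418 v149 v155 v160 v441 v586 (k0)
noncomputable def ca3_8 : List VW := k8 v1 v144 v417 v418 v149 v427 v160 v441 (k8 v167 v452 v174 v464 v180 v469 v186 v476 (k8 v190 v480 v195 v485 v199 v488 v202 v493 (k8 v205 v496 v504 v212 v214 v511 v217 v220 (k8 v224 v226 v229 v230 v232 v233 v235 v237 (k8 v239 v241 v243 v245 v247 v249 v251 v600 (k0))))))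
noncomputable def ca3_9 : List VW := k8 v1 v144 v417 v418 v149 v427 v160 v441 (k8 v167 v452 v174 v464 v180 v469 v186 v476 (k8 v190 v480 v195 v485 v199 v488 v202 v493 (k8 v205 v496 v207 v502 v211 v505 v513 v218 (k8 v514 v519 v224 v226 v229 v230 v232 v233 (k8 v235 v237 v239 v241 v244 v245 v247 v249 (k1 v251 (k1 v252 (k1 v254 (k1 v255 (k1 v256 (k1 v602 (k0))))))))))))
noncomputable def ca3_10 : List VW := k8 v1 v144 v417 v418 v151 v427 v160 v441 (k8 v167 v452 v174 v464 v180 v469 v186 v476 (k8 v190 v480 v195 v485 v199 v488 v202 v493 (k8 v205 v496 v207 v502 v211 v505 v513 v218 (k8 v514 v519 v224 v226 v229 v230 v232 v233 (k8 v235 v237 v240 v241 v244 v245 v247 v249 (k8 v251 v252 v254 v255 v256 v257 v259 v260 (k1 v261 (k1 v604 (k0)))))))))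
noncomputable def ca3_11 : List VW := k8 v1 v144 v418 v149 v152 v160 v167 v586 (k0)
noncomputable def ca3_12 : List VW := k1 v146 (k1 v418 (k1 v433 (k1 v160 (k1 v167 (k1 v586 (k0))))))
noncomputable def ca3_13 : List VW := k8 v1 v144 v417 v421 v149 v433 v426 v160 (k8 v443 v167 v453 v174 v464 v180 v470 v186 (k8 v476 v190 v480 v195 v485 v199 v488 v202 (k8 v493 v205 v496 v207 v502 v211 v505 v513 (k8 v218 v514 v519 v224 v226 v229 v230 v232 (k8 v233 v235 v237 v239 v241 v244 v245 v247 (k1 v249 (k1 v251 (k1 v252 (k1 v254 (k1 v255 (k1 v256 (k1 v602 (k0)))))))))))))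
noncomputable def ca3_14 : List VW := k8 v1 v144 v417 v421 v149 v433 v426 v160 (k8 v443 v167 v453 v174 v464 v180 v470 v186 (k8 v476 v190 v480 v195 v485 v199 v488 v202 (k8 v493 v205 v496 v207 v502 v211 v505 v513 (k8 v218 v514 v519 v224 v226 v229 v230 v232 (k8 v233 v235 v237 v240 v241 v244 v245 v247 (k8 v249 v251 v252 v254 v255 v256 v257 v259 (k1 v260 (k1 v261 (k1 v604 (k0))))))))))
noncomputable def ca3_15 : List VW := k8 v1 v144 v417 v421 v149 v433 v426 v160 (k8 v443 v167 v453 v174 v464 v180 v469 v186 (k8 v476 v190 v480 v195 v485 v199 v488 v202 (k8 v493 v205 v496 v207 v502 v211 v505 v513 (k8 v218 v514 v519 v224 v226 v229 v230 v232 (k8 v233 v235 v237 v239 v241 v244 v245 v247 (k8 v249 v251 v252 v254 v255 v256 v257 v259 (k1 v603 (k0))))))))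
noncomputable def ca3_16 : List VW := k8 v1 v144 v417 v419 v149 v433 v426 v160 (k8 v442 v167 v452 v174 v464 v180 v469 v186 (k8 v476 v190 v480 v195 v485 v199 v488 v202 (k8 v493 v205 v496 v207 v502 v211 v214 v511 (k8 v217 v220 v224 v226 v229 v230 v232 v233 (k8 v235 v237 v239 v241 v244 v245 v247 v249 (k1 v251 (k1 v252 (k1 v254 (k1 v601 (k0))))))))))
noncomputable def ca3_17 : List VW := k8 v1 v144 v423 v418 v149 v433 v426 v160 (k8 v443 v167 v460 v452 v174 v464 v180 v470 (k8 v186 v476 v190 v480 v195 v485 v199 v488 (k8 v202 v493 v205 v496 v207 v502 v211 v505 (k8 v213 v511 v516 v220 v518 v223 v226 v229 (k8 v230 v232 v233 v235 v237 v239 v241 v244 (k8 v245 v247 v249 v251 v252 v254 v255 v256 (k1 v257 (k1 v259 (k1 v260 (k1 v261 (k1 v604 (k0))))))))))))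
noncomputable def ca3_18 : List VW := k8 v1 v144 v423 v418 v149 v433 v426 v160 (k8 v443 v167 v460 v452 v174 v464 v180 v470 (k8 v186 v476 v190 v480 v195 v485 v199 v488 (k8 v202 v493 v205 v496 v207 v502 v211 v214 (k8 v511 v217 v220 v224 v226 v229 v230 v232 (k8 v233 v235 v237 v239 v241 v244 v245 v247 (k8 v249 v251 v252 v254 v255 v256 v257 v259 (k1 v603 (k0))))))))
noncomputable def ca3_19 : List VW := k8 v1 v144 v417 v422 v149 v433 v426 v160 (k8 v443 v169 v453 v174 v464 v180 v470 v186 (k8 v476 v190 v480 v195 v485 v199 v488 v202 (k8 v493 v205 v496 v207 v502 v211 v214 v511 (k8 v217 v220 v224 v226 v229 v230 v232 v233 (k8 v235 v237 v239 v241 v243 v245 v247 v249 (k1 v251 (k1 v252 (k1 v254 (k1 v255 (k1 v256 (k1 v602 (k0))))))))))))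
noncomputable def ca3_20 : List VW := k8 v1 v144 v417 v421 v149 v433 v426 v160 (k8 v443 v167 v452 v174 v464 v180 v470 v186 (k8 v476 v190 v480 v195 v485 v199 v488 v202 (k8 v493 v205 v496 v504 v212 v214 v511 v217 (k8 v220 v224 v226 v229 v230 v232 v233 v235 (k1 v237 (k1 v239 (k1 v241 (k1 v243 (k1 v245 (k1 v247 (k1 v599 (k0))))))))))))
noncomputable def ca3_21 : List VW := k8 v1 v144 v423 v418 v149 v433 v426 v161 (k8 v444 v167 v460 v452 v174 v465 v180 v470 (k8 v186 v476 v190 v481 v195 v485 v199 v488 (k8 v202 v493 v205 v496 v207 v502 v211 v505 (k8 v213 v511 v516 v219 v518 v223 v226 v229 (k8 v230 v232 v233 v235 v237 v239 v241 v244 (k8 v245 v247 v249 v251 v252 v254 v255 v256 (k1 v257 (k1 v259 (k1 v260 (k1 v261 (k1 v604 (k0))))))))))))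
noncomputable def ca3_22 : List VW := k8 v1 v144 v423 v418 v149 v433 v426 v161 (k8 v444 v167 v460 v452 v174 v465 v180 v470 (k8 v186 v476 v190 v480 v195 v485 v199 v488 (k8 v202 v493 v205 v496 v207 v502 v211 v214 (k8 v511 v217 v220 v224 v226 v229 v230 v232 (k8 v233 v235 v237 v239 v241 v243 v245 v247 (k8 v249 v251 v252 v254 v255 v256 v257 v259 (k1 v260 (k1 v261 (k1 v604 (k0))))))))))
noncomputable def ca3_23 : List VW := k8 v1 v144 v423 v418 v149 v433 v426 v161 (k8 v444 v167 v460 v452 v174 v465 v180 v470 (k8 v186 v476 v190 v480 v195 v485 v199 v488 (k8 v202 v493 v205 v496 v207 v502 v211 v214 (k8 v511 v217 v220 v224 v226 v229 v230 v232 (k8 v233 v235 v237 v239 v241 v243 v245 v247 (k8 v249 v251 v252 v254 v255 v256 v257 v259 (k1 v603 (k0))))))))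
noncomputable def ca3_24 : List VW := k8 v1 v144 v423 v418 v149 v433 v426 v160 (k8 v444 v167 v460 v452 v174 v464 v180 v470 (k8 v186 v476 v190 v480 v195 v485 v199 v488 (k8 v202 v493 v205 v496 v207 v502 v211 v214 (k8 v511 v217 v220 v224 v226 v229 v230 v232 (k8 v233 v235 v237 v239 v241 v243 v245 v247 (k1 v249 (k1 v251 (k1 v252 (k1 v254 (k1 v255 (k1 v256 (k1 v602 (k0)))))))))))))
noncomputable def ca3_25 : List VW := k8 v1 v147 v423 v418 v149 v433 v426 v160 (k8 v436 v444 v167 v460 v452 v174 v465 v180 (k8 v470 v186 v476 v190 v481 v195 v485 v199 (k8 v489 v202 v493 v205 v496 v207 v502 v211 (k8 v505 v213 v511 v516 v219 v518 v223 v226 (k8 v524 v228 v230 v232 v233 v235 v237 v239 (k8 v241 v243 v245 v247 v249 v251 v252 v254 (k1 v255 (k1 v256 (k1 v257 (k1 v259 (k1 v260 (k1 v261 (k1 v604 (k0))))))))))))))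
noncomputable def ca3_26 : List VW := k8 v1 v147 v423 v418 v149 v433 v426 v160 (k8 v446 v441 v167 v460 v452 v174 v465 v180 (k8 v470 v186 v476 v190 v481 v195 v485 v199 (k8 v488 v202 v493 v205 v496 v207 v502 v211 (k8 v214 v511 v217 v220 v518 v223 v226 v228 (k8 v230 v232 v233 v235 v237 v239 v241 v243 (k8 v245 v247 v249 v251 v252 v254 v255 v256 (k1 v257 (k1 v259 (k1 v260 (k1 v261 (k1 v604 (k0))))))))))))
noncomputable def ca3_27 : List VW := k8 v1 v144 v423 v418 v149 v433 v426 v160 (k8 v446 v441 v167 v460 v452 v174 v465 v180 (k8 v470 v186 v476 v190 v481 v195 v485 v199 (k8 v488 v202 v493 v205 v496 v207 v502 v211 (k8 v214 v511 v217 v220 v518 v223 v226 v228 (k8 v230 v232 v233 v235 v237 v239 v241 v243 (k8 v245 v247 v249 v251 v252 v254 v255 v256 (k1 v257 (k1 v259 (k1 v260 (k1 v261 (k1 v604 (k0))))))))))))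
noncomputable def ca3_28 : List VW := k8 v1 v144 v423 v418 v149 v433 v426 v160 (k8 v436 v444 v167 v460 v452 v174 v465 v180 (k8 v470 v186 v476 v190 v481 v195 v485 v199 (k8 v488 v202 v493 v205 v496 v207 v502 v211 (k8 v214 v511 v217 v220 v518 v223 v226 v228 (k8 v230 v232 v233 v235 v237 v239 v241 v243 (k8 v245 v247 v249 v251 v252 v254 v255 v256 (k1 v257 (k1 v259 (k1 v603 (k0))))))))))
noncomputable def ca3_29 : List VW := k8 v1 v144 v423 v418 v149 v433 v426 v160 (k8 v436 v443 v167 v460 v452 v174 v465 v180 (k8 v470 v186 v476 v190 v481 v195 v485 v199 (k8 v488 v202 v493 v205 v496 v207 v502 v211 (k8 v505 v213 v511 v516 v220 v518 v223 v226 (k8 v229 v230 v232 v233 v235 v237 v239 v241 (k8 v244 v245 v247 v249 v251 v252 v254 v255 (k1 v256 (k1 v257 (k1 v259 (k1 v260 (k1 v261 (k1 v604 (k0)))))))))))))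
noncomputable def ca3_30 : List VW := k8 v1 v144 v274 v423 v279 v149 v433 v426 (k8 v160 v446 v441 v167 v460 v452 v174 v465 (k8 v180 v470 v186 v476 v190 v481 v195 v485 (k8 v199 v489 v202 v493 v205 v497 v207 v502 (k8 v211 v214 v511 v516 v219 v518 v223 v226 (k8 v524 v228 v230 v528 v231 v233 v531 v532 (k8 v537 v239 v241 v541 v243 v245 v247 v249 (k8 v251 v252 v254 v255 v256 v257 v259 v260 (k1 v261 (k1 v604 (k0))))))))))
noncomputable def ca3_31 : List VW := k8 v1 v144 v274 v423 v418 v149 v433 v426 (k8 v160 v446 v441 v167 v460 v452 v174 v465 (k8 v180 v470 v186 v476 v190 v481 v195 v485 (k8 v199 v489 v202 v493 v205 v497 v207 v502 (k8 v211 v214 v511 v217 v220 v518 v223 v226 (k8 v524 v228 v230 v528 v231 v233 v531 v532 (k8 v537 v239 v241 v243 v245 v247 v249 v251 (k8 v252 v254 v255 v256 v257 v259 v260 v261 (k1 v604 (k0)))))))))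
noncomputable def ca3_32 : List VW := k8 v1 v144 v274 v423 v418 v149 v433 v426 (k8 v160 v446 v441 v167 v460 v452 v174 v465 (k8 v180 v470 v186 v476 v190 v481 v195 v485 (k8 v199 v489 v202 v493 v205 v497 v207 v502 (k8 v211 v214 v511 v217 v220 v518 v223 v226 (k8 v524 v228 v230 v528 v231 v233 v235 v237 (k8 v239 v241 v243 v245 v247 v249 v251 v252 (k8 v254 v255 v256 v257 v259 v260 v261 v604 (k0))))))))
noncomputable def ca3_33 : List VW := k8 v1 v144 v274 v423 v418 v149 v433 v426 (k8 v160 v446 v441 v167 v460 v452 v174 v465 (k8 v180 v470 v186 v476 v190 v481 v195 v485 (k8 v199 v489 v202 v493 v205 v496 v207 v502 (k8 v211 v214 v511 v217 v220 v518 v223 v226 (k8 v524 v228 v230 v528 v231 v233 v235 v237 (k8 v239 v241 v243 v245 v247 v249 v251 v252 (k1 v254 (k1 v255 (k1 v256 (k1 v257 (k1 v259 (k1 v603 (k0)))))))))))))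
noncomputable def ca3_34 : List VW := k8 v1 v147 v423 v418 v149 v433 v426 v160 (k8 v446 v441 v167 v460 v452 v174 v465 v180 (k8 v470 v186 v476 v190 v481 v195 v485 v199 (k8 v489 v202 v493 v205 v496 v207 v502 v211 (k8 v214 v511 v217 v220 v518 v223 v226 v524 (k8 v228 v230 v528 v231 v233 v235 v237 v239 (k8 v241 v243 v245 v247 v249 v251 v252 v254 (k1 v255 (k1 v256 (k1 v602 (k0))))))))))
noncomputable def ca3_35 : List VW := k8 v1 v144 v423 v418 v149 v433 v426 v160 (k8 v444 v169 v453 v174 v464 v180 v470 v186 (k8 v476 v190 v481 v195 v485 v199 v488 v202 (k8 v493 v205 v496 v207 v502 v211 v213 v511 (k1 v217 (k1 v219 (k1 v518 (k1 v223 (k1 v225 (k1 v228 (k1 v594 (k0)))))))))))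
noncomputable def ca3_36 : List VW := k8 v277 v144 v275 v274 v284 v149 v433 v292 (k8 v157 v161 v446 v306 v167 v460 v328 v562 (k8 v171 v174 v337 v464 v182 v473 v184 v186 (k8 v351 v476 v192 v357 v194 v195 v485 v199 (k8 v79 v202 v493 v205 v86 v207 v502 v211 (k8 v213 v511 v217 v219 v518 v223 v225 v524 (k8 v228 v230 v528 v114 v233 v531 v235 v237 (k8 v536 v239 v241 v541 v243 v245 v544 v247 (k8 v249 v546 v252 v549 v255 v553 v257 v556 (k1 v603 (k0))))))))))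
noncomputable def ca3_37 : List VW := k8 v277 v144 v275 v423 v0 v149 v433 v292 (k8 v157 v160 v446 v306 v167 v460 v328 v562 (k8 v171 v174 v337 v464 v182 v473 v184 v186 (k8 v351 v476 v192 v481 v195 v485 v199 v79 (k8 v202 v493 v205 v86 v207 v502 v211 v213 (k8 v511 v217 v219 v518 v223 v225 v524 v228 (k8 v230 v528 v114 v233 v531 v235 v237 v536 (k8 v239 v241 v541 v543 v544 v545 v546 v252 (k1 v549 (k1 v255 (k1 v256 (k1 v257 (k1 v259 (k1 v603 (k0))))))))))))))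
noncomputable def ca3_38 : List VW := k8 v276 v144 v275 v423 v0 v149 v433 v291 (k8 v157 v160 v446 v305 v167 v462 v562 v326 (k8 v170 v174 v336 v464 v182 v473 v184 v186 (k8 v350 v476 v192 v481 v195 v485 v199 v489 (k8 v202 v493 v205 v86 v207 v502 v211 v214 (k8 v511 v217 v220 v518 v223 v225 v524 v228 (k8 v230 v528 v231 v233 v531 v235 v237 v536 (k8 v239 v241 v541 v543 v544 v545 v546 v547 (k8 v549 v255 v256 v257 v259 v260 v261 v604 (k0)))))))))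
noncomputable def ca3_39 : List VW := k8 v276 v144 v275 v423 v0 v149 v433 v291 (k8 v157 v160 v446 v305 v167 v460 v452 v174 (k8 v336 v464 v182 v345 v470 v186 v350 v476 (k8 v192 v481 v195 v485 v199 v489 v202 v493 (k8 v205 v86 v207 v502 v211 v214 v511 v217 (k8 v220 v518 v223 v225 v524 v228 v230 v528 (k8 v231 v233 v531 v235 v237 v536 v239 v241 (k8 v541 v243 v245 v544 v545 v546 v547 v549 (k1 v255 (k1 v256 (k1 v257 (k1 v259 (k1 v260 (k1 v261 (k1 v604 (k0)))))))))))))))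
noncomputable def ca3_40 : List VW := k8 v1 v144 v275 v423 v279 v149 v433 v291 (k8 v158 v160 v446 v441 v167 v460 v452 v174 (k8 v336 v464 v182 v345 v470 v186 v478 v476 (k8 v192 v481 v195 v485 v199 v489 v202 v493 (k8 v205 v497 v207 v502 v211 v214 v511 v217 (k8 v220 v518 v223 v225 v524 v228 v230 v528 (k8 v231 v233 v531 v235 v237 v536 v239 v241 (k8 v541 v243 v245 v544 v545 v546 v547 v549 (k1 v255 (k1 v256 (k1 v257 (k1 v259 (k1 v260 (k1 v261 (k1 v604 (k0)))))))))))))))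
noncomputable def ca3_41 : List VW := k8 v1 v144 v275 v423 v279 v149 v433 v291 (k8 v157 v160 v446 v441 v167 v460 v452 v178 (k8 v465 v182 v180 v470 v186 v350 v476 v190 (k8 v481 v195 v485 v199 v489 v202 v493 v205 (k8 v86 v208 v502 v211 v214 v511 v217 v220 (k8 v518 v223 v225 v524 v228 v230 v528 v231 (k8 v233 v531 v235 v237 v536 v239 v241 v541 (k8 v243 v245 v544 v545 v546 v547 v549 v255 (k1 v256 (k1 v257 (k1 v259 (k1 v260 (k1 v261 (k1 v604 (k0))))))))))))))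
noncomputable def ca3_42 : List VW := k8 v1 v144 v275 v423 v279 v149 v433 v426 (k8 v160 v446 v441 v167 v460 v452 v178 v465 (k8 v182 v180 v470 v186 v478 v476 v190 v481 (k8 v195 v485 v199 v489 v202 v493 v205 v497 (k8 v207 v502 v211 v214 v511 v217 v220 v518 (k8 v223 v225 v524 v228 v230 v528 v231 v233 (k8 v531 v235 v237 v536 v239 v241 v541 v243 (k8 v245 v544 v545 v546 v547 v549 v255 v256 (k1 v257 (k1 v259 (k1 v260 (k1 v261 (k1 v604 (k0)))))))))))))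
noncomputable def ca3_43 : List VW := k8 v1 v144 v275 v423 v279 v149 v433 v426 (k8 v160 v446 v441 v167 v460 v452 v178 v465 (k8 v182 v180 v470 v186 v476 v190 v481 v195 (k8 v485 v199 v489 v202 v493 v205 v497 v207 (k8 v502 v211 v214 v511 v217 v220 v518 v223 (k8 v225 v524 v228 v230 v528 v231 v233 v531 (k8 v235 v237 v536 v239 v241 v541 v243 v245 (k8 v544 v545 v546 v547 v549 v255 v256 v257 (k1 v259 (k1 v260 (k1 v261 (k1 v604 (k0))))))))))))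
noncomputable def ca3_44 : List VW := k8 v1 v144 v274 v423 v279 v149 v433 v426 (k8 v160 v446 v441 v167 v460 v452 v178 v465 (k8 v182 v180 v470 v186 v476 v190 v481 v195 (k8 v485 v199 v489 v202 v493 v205 v497 v207 (k8 v502 v211 v214 v511 v217 v220 v518 v223 (k8 v226 v524 v228 v230 v528 v231 v233 v531 (k8 v235 v237 v536 v239 v241 v541 v243 v245 (k8 v544 v545 v546 v547 v549 v255 v256 v257 (k1 v259 (k1 v260 (k1 v261 (k1 v604 (k0))))))))))))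
noncomputable def ca3_45 : List VW := k8 v1 v144 v274 v423 v279 v149 v433 v426 (k8 v160 v446 v441 v167 v460 v452 v178 v465 (k8 v180 v470 v186 v476 v190 v481 v195 v485 (k8 v199 v489 v202 v493 v205 v497 v207 v502 (k8 v211 v214 v511 v217 v220 v518 v223 v226 (k8 v524 v228 v230 v528 v231 v233 v531 v235 (k8 v237 v536 v239 v241 v541 v243 v245 v544 (k8 v545 v546 v547 v549 v255 v256 v257 v259 (k1 v260 (k1 v261 (k1 v604 (k0)))))))))))
noncomputable def ca3_46 : List VW := k8 v1 v144 v274 v423 v0 v149 v433 v426 (k8 v160 v446 v441 v167 v460 v452 v174 v464 (k8 v180 v470 v186 v476 v190 v481 v195 v485 (k8 v199 v489 v202 v493 v205 v497 v207 v502 (k8 v211 v213 v511 v217 v219 v518 v223 v225 (k1 v524 (k1 v228 (k1 v230 (k1 v528 (k1 v529 (k1 v531 (k1 v596 (k0))))))))))))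
noncomputable def ca3_47 : List VW := k8 v1 v144 v274 v423 v279 v149 v433 v426 (k8 v160 v436 v444 v167 v460 v452 v174 v465 (k8 v180 v470 v186 v476 v190 v481 v195 v485 (k8 v199 v489 v202 v493 v205 v497 v207 v502 (k8 v211 v214 v511 v217 v220 v518 v223 v225 (k8 v524 v228 v230 v528 v231 v233 v531 v596 (k0))))))
noncomputable def ca3_48 : List VW := k8 v278 v144 v275 v285 v2 v10 v429 v560 (k8 v290 v161 v313 v264 v27 v165 v329 v42 (k8 v174 v338 v266 v51 v472 v59 v186 v352 (k8 v267 v63 v189 v71 v195 v484 v198 v78 (k8 v202 v492 v81 v204 v86 v207 v501 v210 (k8 v213 v510 v216 v219 v517 v106 v107 v523 (k8 v111 v230 v112 v114 v115 v530 v118 v237 (k8 v122 v125 v241 v126 v128 v129 v544 v131 (k8 v249 v134 v135 v548 v255 v139 v140 v555 (k1 v603 (k0))))))))))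
noncomputable def ca3_49 : List VW := k8 v278 v3 v424 v273 v0 v2 v430 v293 (k8 v157 v161 v313 v169 v329 v42 v174 v338 (k8 v182 v58 v59 v186 v352 v192 v71 v195 (k8 v364 v200 v78 v202 v492 v204 v86 v207 (k8 v501 v210 v213 v510 v216 v219 v517 v106 (k8 v225 v108 v227 v230 v112 v114 v115 v530 (k8 v118 v238 v122 v125 v241 v126 v128 v245 (k1 v130 (k1 v132 (k1 v249 (k1 v134 (k1 v600 (k0))))))))))))
noncomputable def ca3_50 : List VW := k8 v278 v144 v275 v274 v0 v149 v433 v293 (k8 v157 v161 v436 v313 v169 v329 v43 v174 (k8 v338 v182 v58 v183 v186 v352 v192 v71 (k8 v195 v364 v200 v79 v202 v493 v205 v86 (k8 v207 v502 v211 v213 v511 v217 v219 v518 (k8 v223 v225 v524 v111 v230 v528 v114 v233 (k8 v116 v535 v237 v536 v125 v241 v541 v128 (k8 v245 v130 v132 v249 v134 v135 v549 v601 (k0))))))))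
noncomputable def ca3_51 : List VW := k8 v278 v144 v275 v274 v280 v149 v433 v293 (k8 v157 v161 v436 v313 v167 v460 v35 v42 (k8 v174 v338 v182 v58 v183 v186 v352 v192 (k8 v69 v71 v195 v364 v200 v79 v202 v493 (k8 v205 v86 v207 v502 v211 v213 v511 v217 (k8 v219 v518 v223 v225 v524 v111 v230 v528 (k8 v114 v233 v401 v535 v237 v536 v125 v241 (k8 v541 v128 v245 v544 v132 v249 v134 v252 (k1 v136 (k1 v601 (k0))))))))))
noncomputable def ca3_52 : List VW := k8 v278 v144 v275 v274 v280 v149 v433 v293 (k8 v157 v161 v436 v313 v167 v460 v35 v43 (k8 v174 v338 v182 v473 v183 v186 v352 v192 (k8 v483 v71 v195 v364 v200 v79 v202 v493 (k8 v205 v86 v207 v502 v211 v213 v511 v217 (k8 v219 v518 v223 v225 v524 v111 v230 v528 (k8 v114 v233 v531 v119 v237 v536 v125 v241 (k8 v541 v128 v245 v544 v132 v249 v134 v252 (k1 v136 (k1 v255 (k1 v139 (k1 v602 (k0))))))))))))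
noncomputable def ca3_53 : List VW := k8 v278 v144 v275 v274 v280 v149 v433 v293 (k8 v157 v161 v437 v446 v307 v167 v460 v329 (k8 v170 v174 v338 v182 v473 v183 v186 v352 (k8 v192 v483 v71 v195 v364 v200 v79 v202 (k8 v493 v205 v86 v207 v502 v211 v213 v511 (k8 v217 v219 v518 v223 v225 v524 v111 v230 (k8 v528 v114 v233 v531 v119 v237 v536 v125 (k8 v241 v541 v128 v245 v544 v132 v249 v134 (k1 v252 (k1 v136 (k1 v255 (k1 v139 (k1 v602 (k0)))))))))))))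
noncomputable def ca3_54 : List VW := k8 v277 v144 v275 v274 v279 v149 v433 v292 (k8 v157 v161 v446 v306 v167 v460 v328 v170 (k8 v174 v337 v182 v473 v183 v188 v351 v192 (k8 v69 v357 v195 v364 v200 v79 v202 v493 (k8 v205 v86 v207 v502 v211 v213 v511 v217 (k8 v219 v518 v223 v225 v524 v228 v230 v528 (k8 v114 v233 v531 v119 v237 v536 v125 v241 (k8 v541 v128 v245 v544 v132 v249 v546 v253 (k1 v136 (k1 v255 (k1 v139 (k1 v257 (k1 v142 (k1 v603 (k0))))))))))))))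
noncomputable def ca3_55 : List VW := k8 v277 v144 v275 v274 v279 v149 v433 v292 (k8 v157 v161 v446 v306 v167 v462 v562 v170 (k8 v174 v337 v182 v473 v184 v186 v351 v67 (k8 v192 v483 v71 v195 v485 v199 v79 v202 (k8 v493 v205 v86 v207 v502 v211 v213 v511 (k8 v217 v219 v518 v223 v225 v524 v228 v230 (k8 v528 v114 v233 v531 v119 v237 v536 v239 (k8 v241 v541 v243 v245 v544 v247 v249 v546 (k8 v134 v252 v136 v255 v553 v257 v556 v260 (k1 v558 (k1 v604 (k0)))))))))))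
noncomputable def ca3_56 : List VW := k8 v277 v144 v275 v274 v279 v149 v433 v292 (k8 v157 v161 v446 v306 v167 v460 v328 v170 (k8 v174 v337 v182 v473 v183 v188 v351 v192 (k8 v357 v197 v364 v200 v79 v202 v493 v205 (k8 v86 v207 v502 v211 v213 v511 v217 v219 (k8 v518 v223 v225 v524 v228 v230 v528 v114 (k8 v233 v531 v119 v237 v536 v125 v241 v541 (k8 v128 v245 v544 v132 v249 v546 v252 v136 (k1 v601 (k0)))))))))
noncomputable def ca3_57 : List VW := k8 v277 v144 v275 v274 v279 v149 v433 v292 (k8 v157 v161 v446 v306 v167 v460 v328 v170 (k8 v174 v337 v182 v473 v183 v187 v476 v192 (k8 v357 v71 v195 v485 v199 v79 v202 v493 (k8 v205 v86 v207 v502 v211 v213 v511 v217 (k8 v219 v518 v223 v225 v524 v228 v230 v528 (k8 v114 v233 v531 v119 v237 v536 v125 v241 (k8 v541 v128 v245 v544 v132 v249 v546 v600 (k0))))))))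
noncomputable def ca3_58 : List VW := k8 v276 v144 v275 v423 v0 v149 v433 v291 (k8 v157 v161 v446 v305 v167 v460 v327 v172 (k8 v178 v465 v182 v473 v185 v186 v476 v192 (k8 v481 v195 v485 v199 v489 v202 v493 v205 (k8 v497 v207 v502 v211 v214 v511 v217 v220 (k8 v518 v223 v226 v524 v228 v230 v528 v231 (k8 v233 v531 v532 v536 v239 v241 v541 v543 (k1 v544 (k1 v599 (k0)))))))))
noncomputable def ca3_59 : List VW := k8 v3 v275 v9 v13 v304 v15 v21 v319 (k1 v31 (k1 v45 (k1 v56 (k1 v567 (k0)))))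
noncomputable def ca3_60 : List VW := k8 v4 v424 v275 v289 v13 v431 v19 v21 (k8 v319 v31 v335 v35 v42 v342 v55 v60 (k1 v68 (k1 v71 (k1 v76 (k1 v569 (k0))))))
noncomputable def ca3_61 : List VW := k8 v4 v424 v273 v0 v2 v428 v15 v21 (k8 v310 v166 v30 v334 v35 v42 v50 v181 (k1 v349 (k1 v59 (k1 v355 (k1 v66 (k1 v71 (k1 v367 (k1 v569 (k0)))))))))
noncomputable def ca3_62 : List VW := k8 v4 v424 v273 v0 v2 v12 v431 v15 (k8 v21 v316 v166 v30 v334 v35 v42 v341 (k8 v181 v54 v58 v59 v355 v66 v71 v367 (k1 v75 (k1 v79 (k1 v375 (k1 v570 (k0)))))))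
noncomputable def ca3_63 : List VW := k8 v4 v424 v273 v0 v2 v12 v431 v15 (k8 v21 v23 v316 v166 v30 v334 v35 v42 (k8 v341 v181 v54 v58 v59 v355 v66 v71 (k1 v367 (k1 v75 (k1 v79 (k1 v375 (k1 v570 (k0))))))))
noncomputable def ca3_64 : List VW := k8 v278 v3 v424 v273 v282 v2 v298 v295 (k8 v15 v22 v447 v315 v166 v29 v333 v331 (k8 v42 v340 v181 v53 v347 v59 v354 v191 (k8 v362 v71 v366 v74 v77 v79 v374 v83 (k8 v86 v383 v92 v94 v389 v97 v99 v101 (k1 v105 (k1 v106 (k1 v394 (k1 v574 (k0)))))))))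
noncomputable def ca3_65 : List VW := k8 v278 v3 v424 v273 v282 v2 v298 v295 (k8 v152 v21 v160 v324 v309 v265 v29 v333 (k8 v331 v42 v174 v340 v266 v53 v347 v59 (k8 v186 v354 v268 v65 v360 v71 v366 v74 (k8 v77 v79 v374 v492 v83 v85 v86 v383 (k8 v92 v94 v389 v97 v99 v101 v105 v106 (k8 v394 v109 v111 v397 v113 v114 v115 v117 (k8 v119 v402 v123 v125 v408 v127 v128 v129 (k1 v579 (k0)))))))))
noncomputable def ca3_66 : List VW := k8 v278 v3 v424 v273 v0 v2 v297 v294 (k8 v15 v22 v160 v323 v308 v265 v28 v332 (k8 v330 v42 v174 v339 v266 v52 v346 v59 (k8 v353 v268 v64 v69 v71 v365 v73 v77 (k8 v79 v373 v492 v379 v86 v382 v91 v94 (k8 v389 v96 v99 v100 v104 v106 v107 v108 (k8 v111 v397 v112 v114 v115 v116 v119 v120 (k1 v577 (k0))))))))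
noncomputable def ca3_67 : List VW := k8 v278 v147 v275 v286 v2 v429 v560 v21 (k8 v160 v323 v308 v264 v28 v456 v35 v42 (k8 v174 v339 v266 v52 v179 v346 v59 v186 (k8 v353 v267 v64 v359 v71 v365 v269 v73 (k8 v198 v79 v373 v270 v82 v85 v86 v207 (k8 v501 v91 v94 v389 v96 v99 v391 v104 (k8 v106 v107 v108 v111 v230 v528 v114 v115 (k8 v116 v119 v120 v122 v125 v241 v126 v128 (k8 v129 v130 v132 v249 v134 v135 v136 v137 (k1 v139 (k1 v140 (k1 v142 (k1 v260 (k1 v584 (k0))))))))))))))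
noncomputable def ca3_68 : List VW := k8 v278 v144 v275 v280 v263 v10 v433 v560 (k8 v22 v161 v313 v264 v27 v460 v35 v42 (k8 v178 v464 v51 v473 v59 v186 v352 v267 (k8 v63 v190 v71 v195 v485 v72 v491 v202 (k8 v493 v81 v499 v207 v502 v211 v213 v511 (k8 v217 v219 v518 v106 v107 v524 v111 v230 (k8 v112 v114 v115 v116 v119 v120 v404 v597 (k0)))))))
noncomputable def ca3_69 : List VW := k8 v278 v144 v275 v285 v149 v433 v293 v157 (k8 v160 v307 v167 v329 v42 v174 v338 v182 (k8 v58 v59 v186 v352 v192 v71 v195 v364 (k8 v200 v203 v493 v205 v207 v502 v211 v213 (k1 v511 (k1 v217 (k1 v219 (k1 v518 (k1 v593 (k0)))))))))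
noncomputable def ca3_70 : List VW := k8 v276 v144 v274 v0 v149 v433 v157 v160 (k8 v305 v167 v327 v38 v174 v336 v182 v183 (k1 v186 (k1 v350 (k1 v192 (k1 v196 (k1 v200 (k1 v589 (k0))))))))
noncomputable def ca3_71 : List VW := k8 v3 v275 v9 v13 v304 v15 v21 v319 (k1 v31 (k1 v43 (k1 v56 (k1 v567 (k0)))))
noncomputable def ca3_72 : List VW := k8 v3 v424 v273 v0 v2 v429 v15 v21 (k8 v310 v265 v30 v334 v43 v341 v54 v59 (k1 v355 (k1 v66 (k1 v71 (k1 v367 (k1 v569 (k0)))))))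
noncomputable def ca3_73 : List VW := k8 v3 v144 v275 v0 v2 v297 v294 v21 (k8 v308 v265 v28 v330 v42 v178 v463 v52 (k1 v58 (k1 v59 (k1 v353 (k1 v64 (k1 v71 (k1 v365 (k1 v569 (k0)))))))))
noncomputable def ca3_74 : List VW := k8 v3 v144 v275 v0 v263 v11 v297 v294 (k8 v21 v323 v441 v28 v462 v43 v174 v464 (k8 v52 v346 v59 v186 v476 v361 v71 v365 (k8 v73 v79 v373 v82 v86 v87 v91 v94 (k1 v389 (k1 v572 (k0))))))
noncomputable def ca3_75 : List VW := k8 v4 v144 v275 v0 v149 v296 v293 v157 (k8 v160 v313 v167 v329 v35 v177 v338 v182 (k8 v185 v186 v352 v192 v69 v196 v200 v202 (k1 v493 (k1 v590 (k0)))))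
noncomputable def ca3_76 : List VW := k1 v1 (k1 v144 (k1 v420 (k1 v434 (k1 v163 (k1 v167 (k1 v586 (k0)))))))
noncomputable def ca3_77 : List VW := k8 v416 v147 v422 v149 v426 v160 v441 v167 (k8 v452 v174 v464 v180 v469 v186 v476 v190 (k8 v480 v195 v485 v199 v488 v202 v493 v205 (k8 v496 v504 v212 v505 v513 v218 v514 v519 (k8 v224 v226 v229 v230 v232 v233 v235 v237 (k8 v239 v241 v244 v245 v247 v249 v251 v252 (k1 v254 (k1 v255 (k1 v256 (k1 v602 (k0))))))))))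
noncomputable def ca3_78 : List VW := k8 v416 v144 v422 v149 v426 v160 v441 v167 (k8 v452 v174 v464 v180 v469 v186 v476 v190 (k8 v480 v195 v485 v199 v488 v202 v493 v205 (k8 v496 v504 v212 v505 v513 v218 v514 v519 (k8 v224 v226 v229 v230 v232 v233 v235 v237 (k8 v240 v241 v244 v245 v248 v249 v251 v252 (k8 v254 v255 v256 v257 v259 v260 v261 v604 (k0)))))))
noncomputable def ca3_79 : List VW := k8 v1 v144 v418 v149 v155 v160 v167 v586 (k0)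
noncomputable def ca3_80 : List VW := k1 v1 (k1 v144 (k1 v418 (k1 v434 (k1 v160 (k1 v167 (k1 v586 (k0)))))))
noncomputable def ca3_81 : List VW := k1 v1 (k1 v144 (k1 v0 (k1 v149 (k1 v160 (k1 v167 (k1 v586 (k0)))))))
noncomputable def ca3_82 : List VW := k8 v1 v144 v417 v418 v151 v427 v160 v441 (k8 v167 v452 v174 v464 v180 v469 v186 v476 (k8 v190 v480 v195 v485 v199 v488 v202 v493 (k8 v205 v496 v207 v502 v211 v505 v513 v218 (k8 v514 v519 v224 v226 v229 v230 v232 v233 (k8 v235 v237 v239 v241 v244 v245 v247 v249 (k1 v251 (k1 v252 (k1 v254 (k1 v255 (k1 v256 (k1 v602 (k0))))))))))))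
noncomputable def ca3_83 : List VW := k8 v1 v144 v417 v418 v151 v427 v160 v441 (k8 v167 v452 v174 v464 v180 v469 v186 v476 (k8 v190 v480 v195 v485 v199 v488 v202 v493 (k8 v205 v496 v207 v502 v211 v505 v513 v218 (k8 v514 v519 v224 v226 v229 v230 v232 v233 (k8 v235 v237 v240 v241 v244 v245 v248 v249 (k8 v251 v252 v254 v255 v256 v257 v259 v260 (k1 v261 (k1 v604 (k0)))))))))
noncomputable def ca3_84 : List VW := k8 v1 v144 v417 v421 v149 v433 v426 v160 (k8 v443 v167 v453 v174 v464 v180 v470 v186 (k8 v476 v190 v480 v195 v485 v199 v488 v202 (k8 v493 v205 v496 v207 v502 v508 v214 v511 (k8 v516 v220 v518 v223 v226 v229 v230 v232 (k8 v233 v235 v237 v240 v241 v244 v245 v247 (k8 v249 v251 v252 v254 v255 v256 v257 v259 (k1 v260 (k1 v261 (k1 v604 (k0))))))))))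
noncomputable def ca3_85 : List VW := k8 v1 v144 v417 v419 v149 v433 v426 v160 (k8 v442 v167 v452 v174 v464 v180 v469 v186 (k8 v476 v190 v480 v195 v485 v199 v488 v202 (k8 v493 v205 v496 v207 v502 v211 v505 v513 (k8 v218 v514 v519 v224 v226 v229 v230 v232 (k8 v233 v235 v237 v239 v241 v244 v245 v247 (k1 v249 (k1 v251 (k1 v252 (k1 v254 (k1 v601 (k0)))))))))))
noncomputable def ca3_86 : List VW := k8 v1 v144 v423 v418 v149 v433 v426 v160 (k8 v443 v169 v453 v174 v464 v180 v470 v186 (k8 v476 v190 v480 v195 v485 v199 v488 v202 (k8 v493 v205 v496 v207 v502 v508 v214 v511 (k8 v516 v219 v224 v226 v229 v230 v232 v233 (k8 v235 v237 v239 v241 v243 v245 v247 v249 (k1 v251 (k1 v252 (k1 v254 (k1 v601 (k0))))))))))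
noncomputable def ca3_87 : List VW := k8 v1 v144 v423 v418 v149 v433 v426 v160 (k8 v444 v167 v460 v452 v174 v465 v180 v470 (k8 v186 v476 v190 v480 v195 v485 v199 v488 (k8 v202 v493 v205 v496 v207 v502 v211 v505 (k8 v213 v511 v516 v220 v518 v223 v226 v229 (k8 v230 v232 v233 v235 v237 v239 v241 v244 (k8 v245 v247 v249 v251 v252 v254 v255 v256 (k1 v257 (k1 v259 (k1 v260 (k1 v261 (k1 v604 (k0))))))))))))
noncomputable def ca3_88 : List VW := k8 v1 v144 v423 v418 v149 v433 v426 v160 (k8 v443 v167 v460 v452 v174 v464 v180 v470 (k8 v186 v476 v190 v480 v195 v485 v199 v488 (k8 v202 v493 v205 v496 v207 v502 v508 v214 (k8 v511 v516 v220 v518 v223 v226 v229 v230 (k8 v232 v233 v235 v237 v239 v241 v244 v245 (k8 v247 v249 v251 v252 v254 v255 v256 v257 (k1 v259 (k1 v603 (k0)))))))))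
noncomputable def ca3_89 : List VW := k8 v1 v144 v417 v422 v149 v433 v426 v160 (k8 v443 v169 v453 v174 v464 v180 v470 v186 (k8 v476 v190 v480 v195 v485 v199 v488 v202 (k8 v493 v205 v496 v207 v502 v211 v214 v511 (k8 v217 v220 v224 v226 v229 v230 v232 v233 (k8 v235 v237 v239 v241 v244 v245 v247 v249 (k1 v251 (k1 v252 (k1 v254 (k1 v255 (k1 v256 (k1 v602 (k0))))))))))))
noncomputable def ca3_90 : List VW := k8 v1 v144 v421 v149 v426 v160 v441 v460 (k1 v174 (k1 v464 (k1 v587 (k0))))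
noncomputable def ca3_91 : List VW := k8 v1 v144 v423 v418 v149 v433 v426 v161 (k8 v444 v167 v460 v452 v174 v465 v180 v470 (k8 v186 v476 v190 v480 v195 v485 v199 v488 (k8 v202 v493 v205 v496 v207 v502 v211 v505 (k8 v213 v511 v516 v220 v224 v226 v229 v230 (k8 v232 v233 v235 v237 v239 v241 v244 v245 (k8 v247 v249 v251 v252 v254 v255 v256 v257 (k1 v259 (k1 v260 (k1 v261 (k1 v604 (k0)))))))))))
noncomputable def ca3_92 : List VW := k8 v1 v147 v423 v418 v149 v433 v426 v160 (k8 v436 v444 v167 v460 v452 v174 v465 v180 (k8 v470 v186 v476 v190 v481 v195 v485 v199 (k8 v488 v202 v493 v205 v496 v207 v502 v211 (k8 v214 v511 v217 v220 v518 v223 v226 v524 (k8 v228 v230 v231 v233 v235 v237 v239 v241 (k1 v243 (k1 v245 (k1 v247 (k1 v249 (k1 v251 (k1 v600 (k0))))))))))))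
noncomputable def ca3_93 : List VW := k8 v1 v147 v423 v418 v149 v433 v426 v160 (k8 v446 v441 v167 v460 v452 v174 v465 v180 (k8 v470 v186 v476 v190 v481 v195 v485 v199 (k8 v489 v202 v493 v205 v496 v207 v502 v211 (k8 v505 v213 v511 v516 v219 v518 v223 v226 (k8 v524 v228 v230 v232 v233 v235 v237 v239 (k8 v241 v243 v245 v247 v249 v251 v252 v254 (k1 v255 (k1 v256 (k1 v257 (k1 v259 (k1 v260 (k1 v261 (k1 v604 (k0))))))))))))))
noncomputable def ca3_94 : List VW := k8 v1 v144 v423 v418 v149 v433 v426 v160 (k8 v446 v441 v167 v460 v452 v174 v465 v180 (k8 v470 v186 v476 v190 v481 v195 v485 v199 (k8 v488 v202 v493 v205 v496 v207 v502 v211 (k8 v214 v511 v217 v220 v518 v223 v226 v229 (k8 v230 v232 v233 v235 v237 v239 v241 v243 (k8 v245 v247 v249 v251 v252 v254 v255 v256 (k1 v257 (k1 v259 (k1 v260 (k1 v261 (k1 v604 (k0))))))))))))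
noncomputable def ca3_95 : List VW := k8 v1 v144 v423 v418 v149 v433 v426 v160 (k8 v446 v441 v167 v460 v452 v174 v465 v180 (k8 v470 v186 v476 v190 v481 v195 v485 v199 (k8 v488 v202 v493 v205 v496 v207 v502 v211 (k8 v214 v511 v516 v219 v518 v223 v226 v229 (k8 v230 v232 v233 v235 v237 v239 v241 v243 (k8 v245 v247 v249 v251 v252 v254 v255 v256 (k1 v257 (k1 v259 (k1 v260 (k1 v261 (k1 v604 (k0))))))))))))
noncomputable def ca3_96 : List VW := k8 v1 v144 v423 v418 v149 v433 v426 v160 (k8 v436 v444 v167 v460 v452 v174 v465 v180 (k8 v470 v186 v476 v190 v481 v195 v485 v199 (k8 v488 v202 v493 v205 v496 v207 v502 v211 (k8 v505 v213 v511 v516 v219 v518 v223 v226 (k8 v229 v230 v232 v233 v235 v237 v239 v241 (k8 v243 v245 v247 v249 v251 v252 v254 v255 (k1 v256 (k1 v257 (k1 v259 (k1 v603 (k0)))))))))))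
noncomputable def ca3_97 : List VW := k8 v1 v144 v417 v421 v149 v427 v160 v441 (k8 v167 v452 v174 v464 v180 v184 v186 v476 (k1 v190 (k1 v196 (k1 v200 (k1 v589 (k0))))))
noncomputable def ca3_98 : List VW := k8 v1 v144 v274 v423 v279 v149 v433 v426 (k8 v160 v446 v441 v167 v460 v452 v174 v465 (k8 v180 v470 v186 v476 v190 v481 v195 v485 (k8 v199 v489 v202 v493 v205 v497 v207 v502 (k8 v211 v214 v511 v217 v220 v518 v223 v225 (k8 v524 v228 v230 v528 v231 v233 v531 v532 (k8 v536 v239 v241 v243 v245 v247 v249 v251 (k1 v600 (k0))))))))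
noncomputable def ca3_99 : List VW := k8 v1 v144 v274 v423 v279 v149 v433 v426 (k8 v160 v446 v441 v167 v460 v452 v174 v465 (k8 v180 v470 v186 v476 v190 v481 v195 v485 (k8 v199 v489 v202 v493 v205 v497 v207 v502 (k8 v211 v214 v511 v217 v220 v518 v223 v226 (k8 v524 v228 v230 v528 v231 v233 v531 v532 (k8 v537 v239 v241 v541 v243 v245 v247 v249 (k8 v251 v252 v254 v255 v256 v257 v259 v603 (k0))))))))
noncomputable def ca3_100 : List VW := k8 v1 v144 v274 v423 v418 v149 v433 v426 (k8 v160 v446 v441 v167 v460 v452 v178 v465 (k8 v180 v470 v186 v476 v190 v481 v195 v485 (k8 v199 v489 v202 v493 v205 v497 v207 v502 (k8 v211 v214 v511 v217 v220 v518 v223 v226 (k8 v524 v228 v230 v528 v231 v233 v531 v532 (k8 v537 v239 v241 v243 v245 v247 v249 v251 (k8 v252 v254 v255 v256 v257 v259 v260 v261 (k1 v604 (k0)))))))))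
noncomputable def ca3_101 : List VW := k8 v1 v144 v274 v423 v418 v149 v433 v426 (k8 v160 v446 v441 v167 v460 v452 v174 v465 (k8 v180 v470 v186 v476 v190 v481 v195 v485 (k8 v199 v489 v202 v493 v205 v496 v207 v502 (k8 v211 v214 v511 v217 v220 v518 v223 v226 (k8 v524 v228 v230 v528 v231 v233 v235 v237 (k8 v239 v241 v243 v245 v247 v249 v251 v252 (k8 v254 v255 v256 v257 v259 v260 v261 v604 (k0))))))))
noncomputable def ca3_102 : List VW := k8 v1 v147 v423 v418 v149 v433 v426 v160 (k8 v446 v441 v167 v460 v452 v174 v465 v180 (k8 v470 v186 v476 v190 v481 v195 v485 v199 (k8 v489 v202 v493 v205 v496 v207 v502 v211 (k8 v214 v511 v217 v220 v518 v223 v226 v524 (k8 v228 v230 v528 v231 v233 v235 v237 v239 (k8 v241 v243 v245 v247 v249 v251 v252 v254 (k1 v255 (k1 v256 (k1 v257 (k1 v259 (k1 v603 (k0))))))))))))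
noncomputable def ca3_103 : List VW := k8 v1 v147 v423 v418 v149 v433 v426 v160 (k8 v436 v444 v167 v460 v452 v174 v465 v180 (k8 v470 v186 v476 v190 v481 v195 v485 v199 (k8 v489 v202 v493 v205 v496 v207 v502 v211 (k8 v505 v213 v511 v516 v219 v518 v223 v226 (k8 v524 v228 v230 v528 v231 v233 v235 v237 (k8 v239 v241 v244 v245 v247 v249 v251 v252 (k1 v254 (k1 v255 (k1 v256 (k1 v257 (k1 v259 (k1 v603 (k0)))))))))))))
noncomputable def ca3_104 : List VW := k8 v276 v144 v275 v423 v0 v149 v433 v291 (k8 v157 v160 v446 v305 v167 v460 v327 v562 (k8 v326 v42 v174 v336 v464 v182 v473 v184 (k8 v186 v350 v476 v192 v481 v195 v485 v199 (k8 v489 v202 v493 v205 v86 v207 v502 v211 (k8 v214 v511 v217 v220 v518 v223 v225 v524 (k8 v228 v230 v528 v231 v233 v531 v235 v237 (k8 v536 v239 v241 v541 v243 v245 v544 v545 (k8 v546 v547 v549 v255 v256 v257 v259 v260 (k1 v261 (k1 v604 (k0)))))))))))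
noncomputable def ca3_105 : List VW := k8 v1 v144 v275 v423 v279 v149 v433 v291 (k8 v157 v160 v446 v441 v167 v460 v452 v174 (k8 v336 v464 v182 v345 v470 v186 v350 v476 (k8 v192 v481 v195 v485 v199 v489 v202 v493 (k8 v205 v86 v208 v502 v211 v214 v511 v217 (k8 v220 v518 v223 v225 v524 v228 v230 v528 (k8 v231 v233 v531 v235 v237 v536 v239 v241 (k8 v541 v243 v245 v544 v545 v546 v547 v549 (k1 v255 (k1 v256 (k1 v257 (k1 v259 (k1 v260 (k1 v261 (k1 v604 (k0)))))))))))))))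
noncomputable def ca3_106 : List VW := k8 v1 v144 v275 v423 v279 v149 v433 v426 (k8 v160 v446 v441 v167 v460 v452 v174 v336 (k8 v464 v182 v345 v470 v186 v478 v476 v190 (k8 v481 v195 v485 v199 v489 v202 v493 v205 (k8 v497 v207 v502 v211 v214 v511 v217 v220 (k8 v518 v223 v225 v524 v228 v230 v528 v231 (k8 v233 v531 v235 v237 v536 v239 v241 v541 (k8 v243 v245 v544 v545 v546 v547 v549 v255 (k1 v256 (k1 v257 (k1 v259 (k1 v260 (k1 v261 (k1 v604 (k0))))))))))))))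
noncomputable def ca3_107 : List VW := k8 v1 v144 v275 v423 v279 v149 v433 v426 (k8 v160 v446 v441 v167 v460 v452 v178 v465 (k8 v182 v180 v470 v186 v478 v476 v190 v481 (k8 v195 v485 v199 v489 v202 v493 v205 v497 (k8 v207 v502 v211 v214 v511 v217 v220 v518 (k8 v223 v226 v524 v228 v230 v528 v231 v233 (k8 v531 v235 v237 v536 v239 v241 v541 v243 (k8 v245 v544 v545 v546 v547 v549 v255 v256 (k1 v257 (k1 v259 (k1 v260 (k1 v261 (k1 v604 (k0)))))))))))))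
noncomputable def ca3_108 : List VW := k8 v1 v144 v274 v423 v279 v149 v433 v426 (k8 v160 v446 v441 v167 v460 v452 v178 v465 (k8 v180 v470 v186 v476 v190 v481 v195 v485 (k8 v199 v489 v202 v493 v205 v497 v207 v502 (k8 v211 v214 v511 v516 v219 v518 v223 v226 (k8 v524 v228 v230 v528 v231 v233 v531 v235 (k8 v237 v536 v239 v241 v541 v243 v245 v544 (k8 v545 v546 v547 v549 v255 v256 v257 v259 (k1 v260 (k1 v261 (k1 v604 (k0)))))))))))
noncomputable def ca3_109 : List VW := k8 v1 v144 v274 v423 v279 v149 v433 v426 (k8 v160 v446 v441 v167 v460 v452 v178 v465 (k8 v180 v470 v186 v476 v190 v481 v195 v485 (k8 v199 v489 v202 v493 v205 v497 v207 v502 (k8 v211 v505 v213 v511 v516 v219 v518 v223 (k8 v226 v524 v228 v230 v528 v231 v233 v531 (k8 v235 v237 v536 v239 v241 v541 v243 v245 (k8 v544 v545 v546 v547 v549 v255 v256 v257 (k1 v259 (k1 v260 (k1 v261 (k1 v604 (k0))))))))))))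
noncomputable def ca3_110 : List VW := k8 v1 v144 v274 v423 v279 v149 v433 v426 (k8 v160 v446 v441 v167 v460 v452 v174 v465 (k8 v180 v470 v186 v476 v190 v481 v195 v485 (k8 v199 v489 v202 v493 v205 v497 v207 v502 (k8 v211 v214 v511 v217 v220 v518 v223 v226 (k8 v524 v228 v230 v528 v231 v233 v531 v532 (k8 v537 v239 v241 v541 v243 v245 v247 v249 (k1 v251 (k1 v252 (k1 v254 (k1 v255 (k1 v256 (k1 v602 (k0)))))))))))))
noncomputable def ca3_111 : List VW := k8 v1 v144 v274 v423 v279 v149 v433 v426 (k8 v160 v446 v441 v167 v460 v452 v174 v465 (k8 v180 v470 v186 v476 v190 v481 v195 v485 (k8 v199 v489 v202 v493 v205 v497 v207 v502 (k8 v211 v214 v511 v217 v220 v518 v223 v225 (k8 v524 v228 v230 v528 v231 v233 v531 v532 (k8 v536 v239 v241 v541 v543 v544 v545 v546 (k1 v600 (k0))))))))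
noncomputable def ca3_112 : List VW := k8 v1 v144 v274 v421 v149 v433 v157 v160 (k8 v442 v167 v452 v174 v464 v180 v184 v186 (k1 v476 (k1 v190 (k1 v196 (k1 v200 (k1 v202 (k1 v493 (k1 v590 (k0)))))))))
noncomputable def ca3_113 : List VW := k8 v278 v144 v275 v274 v0 v149 v433 v293 (k8 v157 v161 v436 v307 v169 v329 v43 v174 (k8 v338 v182 v58 v183 v186 v352 v192 v69 (k8 v71 v195 v364 v200 v79 v202 v493 v205 (k8 v86 v207 v502 v211 v213 v511 v217 v219 (k8 v518 v223 v225 v108 v228 v230 v528 v114 (k8 v233 v116 v535 v237 v404 v539 v241 v541 (k1 v128 (k1 v245 (k1 v130 (k1 v132 (k1 v249 (k1 v134 (k1 v600 (k0))))))))))))))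
noncomputable def ca3_114 : List VW := k8 v278 v144 v275 v274 v280 v149 v433 v293 (k8 v157 v161 v436 v313 v167 v460 v35 v43 (k8 v174 v338 v182 v345 v183 v186 v352 v192 (k8 v483 v71 v195 v364 v200 v79 v202 v493 (k8 v205 v86 v207 v502 v211 v213 v511 v217 (k8 v219 v518 v223 v225 v524 v111 v230 v528 (k8 v114 v233 v531 v119 v237 v536 v125 v241 (k8 v541 v128 v245 v544 v132 v249 v546 v253 (k1 v136 (k1 v255 (k1 v139 (k1 v602 (k0))))))))))))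
noncomputable def ca3_115 : List VW := k8 v278 v144 v275 v274 v280 v149 v433 v293 (k8 v157 v161 v446 v307 v167 v460 v35 v170 (k8 v174 v338 v182 v473 v183 v186 v352 v192 (k8 v483 v71 v195 v364 v200 v79 v202 v493 (k8 v205 v86 v207 v502 v211 v213 v511 v217 (k8 v219 v518 v223 v225 v524 v111 v230 v528 (k8 v114 v233 v531 v119 v237 v536 v125 v241 (k8 v541 v128 v245 v544 v132 v249 v134 v252 (k1 v136 (k1 v601 (k0))))))))))
noncomputable def ca3_116 : List VW := k8 v277 v144 v275 v274 v279 v149 v433 v292 (k8 v157 v161 v446 v306 v167 v460 v328 v170 (k8 v174 v337 v182 v473 v183 v187 v351 v192 (k8 v69 v357 v195 v364 v200 v79 v202 v493 (k8 v205 v86 v207 v502 v211 v213 v511 v217 (k8 v219 v518 v223 v225 v524 v228 v230 v528 (k8 v114 v233 v531 v119 v237 v536 v125 v241 (k8 v541 v128 v245 v544 v132 v249 v546 v252 (k1 v136 (k1 v255 (k1 v139 (k1 v602 (k0))))))))))))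
noncomputable def ca3_117 : List VW := k8 v277 v144 v275 v274 v279 v149 v433 v292 (k8 v157 v161 v446 v306 v167 v462 v562 v170 (k8 v174 v337 v182 v473 v184 v186 v351 v67 (k8 v192 v483 v71 v195 v485 v199 v79 v202 (k8 v493 v205 v86 v207 v502 v211 v213 v511 (k8 v217 v219 v518 v223 v225 v524 v228 v230 (k8 v528 v114 v233 v531 v119 v237 v536 v125 (k8 v241 v541 v243 v245 v544 v247 v249 v546 (k8 v134 v252 v136 v255 v553 v257 v556 v260 (k1 v558 (k1 v604 (k0)))))))))))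
noncomputable def ca3_118 : List VW := k8 v277 v144 v275 v274 v284 v149 v433 v292 (k8 v157 v161 v446 v306 v167 v462 v562 v170 (k8 v174 v337 v182 v473 v184 v186 v351 v67 (k8 v192 v483 v71 v195 v485 v199 v79 v202 (k8 v493 v205 v86 v207 v502 v211 v213 v511 (k8 v217 v219 v518 v223 v225 v524 v228 v230 (k8 v528 v114 v233 v531 v119 v237 v536 v239 (k8 v241 v541 v243 v245 v544 v247 v249 v546 (k8 v251 v252 v549 v255 v553 v257 v556 v603 (k0)))))))))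
noncomputable def ca3_119 : List VW := k8 v277 v144 v275 v274 v284 v149 v433 v292 (k8 v157 v161 v446 v306 v167 v460 v562 v170 (k8 v174 v337 v464 v182 v473 v184 v186 v351 (k8 v67 v192 v481 v195 v485 v199 v79 v202 (k8 v493 v205 v86 v207 v502 v211 v214 v511 (k8 v217 v220 v518 v223 v225 v524 v228 v230 (k8 v528 v114 v233 v531 v235 v237 v536 v239 (k8 v241 v541 v243 v245 v544 v545 v546 v547 (k8 v549 v255 v553 v257 v556 v260 v558 v604 (k0)))))))))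
noncomputable def ca3_120 : List VW := k8 v277 v144 v275 v274 v284 v149 v433 v292 (k8 v157 v160 v446 v306 v167 v460 v562 v170 (k8 v174 v337 v464 v182 v473 v184 v186 v351 (k8 v67 v192 v481 v195 v485 v199 v79 v202 (k8 v493 v205 v86 v207 v502 v211 v213 v511 (k8 v217 v219 v518 v223 v225 v524 v228 v230 (k8 v528 v114 v233 v531 v119 v237 v536 v239 (k8 v241 v541 v543 v544 v545 v546 v547 v549 (k1 v255 (k1 v553 (k1 v602 (k0)))))))))))
noncomputable def ca3_121 : List VW := k8 v276 v144 v275 v423 v0 v149 v433 v291 (k8 v157 v160 v446 v305 v167 v460 v562 v170 (k8 v174 v465 v182 v473 v184 v186 v476 v192 (k8 v481 v195 v485 v199 v489 v202 v493 v205 (k8 v86 v207 v502 v211 v213 v511 v217 v219 (k8 v518 v223 v225 v524 v228 v230 v528 v114 (k1 v233 (k1 v531 (k1 v532 (k1 v536 (k1 v538 (k1 v541 (k1 v598 (k0)))))))))))))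
noncomputable def ca3_122 : List VW := k8 v1 v144 v274 v279 v149 v433 v158 v160 (k8 v443 v167 v452 v174 v464 v180 v185 v186 (k8 v476 v190 v194 v195 v200 v203 v493 v590 (k0)))
noncomputable def ca3_123 : List VW := k8 v3 v424 v273 v0 v2 v428 v15 v21 (k8 v310 v166 v30 v458 v43 v341 v54 v58 (k1 v59 (k1 v355 (k1 v66 (k1 v71 (k1 v367 (k1 v569 (k0))))))))
noncomputable def ca3_124 : List VW := k8 v4 v424 v273 v0 v2 v12 v432 v15 (k8 v21 v161 v316 v265 v30 v456 v35 v42 (k8 v341 v266 v54 v58 v59 v355 v268 v66 (k8 v71 v367 v75 v79 v375 v84 v86 v384 (k1 v571 (k0)))))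
noncomputable def ca3_125 : List VW := k8 v278 v3 v424 v273 v0 v2 v11 v432 (k8 v561 v21 v160 v323 v308 v265 v28 v332 (k8 v330 v42 v174 v339 v266 v52 v179 v346 (k8 v59 v186 v353 v268 v64 v359 v71 v365 (k8 v269 v73 v77 v79 v373 v492 v379 v86 (k8 v382 v91 v94 v389 v96 v99 v391 v104 (k8 v106 v107 v108 v111 v230 v528 v114 v115 (k8 v116 v119 v120 v122 v125 v241 v409 v128 (k1 v129 (k1 v130 (k1 v131 (k1 v412 (k1 v134 (k1 v135 (k1 v581 (k0)))))))))))))))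
noncomputable def ca3_126 : List VW := k8 v4 v147 v275 v281 v2 v429 v560 v21 (k8 v160 v323 v308 v264 v28 v332 v330 v42 (k8 v174 v339 v266 v52 v472 v59 v186 v353 (k8 v267 v64 v189 v71 v195 v484 v73 v77 (k8 v79 v373 v492 v379 v86 v382 v91 v94 (k8 v389 v96 v99 v391 v104 v106 v107 v108 (k8 v111 v230 v528 v114 v530 v119 v120 v122 (k8 v125 v241 v126 v128 v129 v130 v132 v249 (k1 v134 (k1 v135 (k1 v581 (k0)))))))))))
noncomputable def ca3_127 : List VW := k8 v278 v144 v275 v280 v2 v429 v560 v22 (k8 v161 v313 v264 v27 v165 v329 v42 v174 (k8 v338 v266 v51 v472 v59 v186 v352 v267 (k8 v63 v189 v71 v195 v484 v72 v198 v79 (k8 v202 v492 v81 v85 v86 v207 v501 v90 (k8 v507 v213 v510 v216 v219 v517 v106 v107 (k8 v523 v111 v230 v528 v114 v115 v116 v119 (k8 v120 v122 v125 v241 v126 v128 v129 v130 (k8 v132 v249 v134 v252 v136 v552 v257 v142 (k1 v260 (k1 v143 (k1 v262 (k1 v585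 (k0)))))))))))))
noncomputable def ca3_128 : List VW := k8 v278 v144 v275 v285 v2 v429 v560 v22 (k8 v160 v322 v307 v264 v27 v165 v329 v42 (k8 v174 v338 v266 v51 v472 v59 v186 v352 (k8 v267 v63 v189 v71 v195 v484 v198 v78 (k8 v202 v492 v81 v498 v207 v501 v210 v213 (k8 v510 v216 v219 v517 v222 v225 v523 v111 (k8 v230 v528 v114 v115 v116 v119 v120 v536 (k8 v125 v241 v126 v128 v129 v410 v132 v249 (k8 v134 v135 v548 v255 v139 v140 v555 v260 (k1 v143 (k1 v604 (k0)))))))))))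
noncomputable def ca3_129 : List VW := k8 v278 v144 v275 v285 v2 v429 v560 v290 (k8 v160 v322 v307 v264 v27 v456 v35 v42 (k8 v174 v338 v266 v51 v472 v59 v186 v352 (k8 v267 v63 v189 v71 v195 v484 v198 v78 (k8 v202 v492 v378 v498 v207 v501 v210 v213 (k8 v510 v216 v219 v517 v222 v225 v108 v111 (k8 v230 v112 v114 v115 v530 v118 v237 v122 (k8 v125 v241 v126 v128 v129 v544 v131 v249 (k8 v134 v135 v548 v255 v139 v140 v555 v603 (k0)))))))))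
noncomputable def ca3_130 : List VW := k8 v278 v144 v275 v285 v2 v429 v293 v157 (k8 v161 v313 v169 v329 v42 v174 v338 v182 (k8 v58 v59 v186 v352 v192 v71 v364 v200 (k8 v78 v202 v492 v81 v498 v207 v501 v210 (k8 v213 v510 v216 v219 v517 v106 v225 v108 (k8 v227 v230 v112 v114 v115 v530 v118 v237 (k8 v122 v125 v241 v126 v128 v129 v544 v599 (k0)))))))
noncomputable def ca3_131 : List VW := k8 v278 v144 v275 v274 v0 v149 v433 v293 (k8 v157 v161 v313 v169 v329 v42 v174 v338 (k8 v182 v58 v59 v186 v352 v192 v71 v195 (k8 v364 v200 v78 v202 v493 v205 v86 v207 (k8 v502 v211 v213 v511 v217 v219 v518 v106 (k8 v225 v108 v228 v230 v112 v114 v115 v531 (k1 v118 (k1 v237 (k1 v122 (k1 v125 (k1 v241 (k1 v541 (k1 v598 (k0)))))))))))))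
noncomputable def ca3_132 : List VW := k8 v278 v144 v275 v274 v0 v149 v433 v293 (k8 v157 v161 v436 v313 v167 v460 v35 v43 (k8 v174 v338 v182 v345 v183 v186 v352 v192 (k8 v69 v71 v195 v364 v200 v79 v202 v493 (k8 v205 v86 v207 v502 v211 v213 v511 v217 (k8 v219 v518 v223 v225 v524 v228 v230 v528 (k1 v114 (k1 v233 (k1 v401 (k1 v534 (k1 v237 (k1 v536 (k1 v597 (k0)))))))))))))
noncomputable def ca3_133 : List VW := k8 v276 v147 v274 v0 v149 v435 v158 v160 (k8 v436 v305 v167 v460 v171 v174 v336 v182 (k8 v473 v187 v350 v192 v70 v196 v200 v203 (k1 v493 (k1 v205 (k1 v207 (k1 v502 (k1 v591 (k0))))))))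
noncomputable def ca3_134 : List VW := k8 v3 v275 v289 v13 v304 v15 v21 v319 (k1 v31 (k1 v47 (k1 v56 (k1 v567 (k0)))))
noncomputable def ca3_135 : List VW := k8 v3 v275 v0 v13 v304 v15 v21 v319 (k1 v31 (k1 v35 (k1 v42 (k1 v56 (k1 v59 (k1 v68 (k1 v568 (k0))))))))
noncomputable def ca3_136 : List VW := k8 v7 v275 v0 v2 v299 v15 v21 v310 (k1 v30 (k1 v35 (k1 v42 (k1 v341 (k1 v54 (k1 v567 (k0)))))))
noncomputable def ca3_137 : List VW := k8 v3 v424 v273 v0 v2 v303 v15 v21 (k8 v310 v166 v30 v334 v43 v341 v54 v59 (k1 v355 (k1 v66 (k1 v568 (k0)))))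
noncomputable def ca3_138 : List VW := k8 v3 v424 v273 v0 v2 v429 v15 v21 (k8 v310 v265 v30 v459 v43 v341 v266 v54 (k1 v58 (k1 v59 (k1 v355 (k1 v66 (k1 v71 (k1 v367 (k1 v569 (k0)))))))))
noncomputable def ca3_139 : List VW := k8 v3 v147 v275 v0 v2 v297 v294 v21 (k8 v323 v439 v28 v165 v330 v42 v339 v266 (k8 v52 v58 v59 v353 v64 v71 v365 v73 (k1 v79 (k1 v373 (k1 v82 (k1 v86 (k1 v87 (k1 v571 (k0)))))))))
noncomputable def ca3_140 : List VW := k8 v4 v144 v275 v0 v263 v11 v297 v294 (k8 v22 v160 v314 v265 v28 v332 v330 v44 (k8 v339 v266 v52 v346 v59 v353 v268 v64 (k8 v69 v71 v195 v485 v199 v79 v202 v493 (k8 v82 v86 v382 v91 v94 v511 v99 v100 (k1 v104 (k1 v106 (k1 v524 (k1 v111 (k1 v397 (k1 v575 (k0)))))))))))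
noncomputable def ca3_141 : List VW := k8 v278 v144 v275 v285 v149 v433 v293 v157 (k8 v160 v322 v313 v167 v460 v172 v174 v338 (k8 v182 v345 v183 v186 v352 v192 v194 v195 (k8 v269 v200 v79 v202 v493 v205 v207 v502 (k1 v591 (k0)))))
noncomputable def ca3_142 : List VW := k8 v416 v147 v422 v149 v426 v160 v441 v167 (k8 v452 v174 v464 v180 v469 v186 v476 v190 (k8 v480 v195 v485 v199 v488 v202 v493 v205 (k8 v496 v207 v502 v211 v505 v513 v218 v514 (k8 v519 v224 v226 v229 v230 v232 v233 v235 (k8 v237 v240 v241 v244 v245 v248 v249 v251 (k8 v252 v254 v255 v256 v257 v259 v260 v261 (k1 v604 (k0))))))))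
noncomputable def ca3_143 : List VW := k8 v1 v144 v417 v418 v151 v427 v160 v441 (k8 v167 v452 v174 v464 v180 v469 v186 v476 (k8 v190 v480 v195 v485 v199 v488 v202 v493 (k8 v205 v496 v207 v502 v211 v505 v513 v218 (k8 v514 v519 v224 v226 v229 v230 v232 v233 (k8 v235 v237 v240 v241 v244 v245 v248 v249 (k8 v251 v252 v254 v255 v256 v257 v259 v603 (k0)))))))
noncomputable def ca3_144 : List VW := k8 v1 v144 v417 v421 v149 v433 v426 v160 (k8 v443 v167 v453 v174 v464 v180 v470 v186 (k8 v476 v190 v480 v195 v485 v199 v488 v202 (k8 v493 v205 v496 v207 v502 v211 v505 v513 (k8 v218 v514 v519 v224 v226 v229 v230 v232 (k8 v233 v235 v237 v240 v241 v244 v245 v247 (k8 v249 v251 v252 v254 v255 v256 v257 v259 (k1 v603 (k0))))))))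
noncomputable def ca3_145 : List VW := k8 v1 v144 v417 v419 v149 v433 v426 v160 (k8 v443 v167 v453 v174 v464 v180 v470 v186 (k8 v476 v190 v480 v195 v485 v199 v488 v202 (k8 v493 v205 v496 v207 v502 v211 v505 v513 (k8 v218 v514 v519 v224 v226 v229 v230 v232 (k8 v233 v235 v237 v240 v241 v244 v245 v248 (k8 v249 v251 v252 v254 v255 v256 v257 v259 (k1 v260 (k1 v261 (k1 v604 (k0))))))))))
noncomputable def ca3_146 : List VW := k8 v1 v144 v417 v421 v149 v433 v426 v160 (k8 v443 v167 v453 v174 v464 v180 v469 v186 (k8 v476 v190 v480 v195 v485 v199 v488 v202 (k8 v493 v205 v496 v207 v502 v508 v214 v511 (k8 v516 v220 v518 v223 v226 v229 v230 v232 (k8 v233 v235 v237 v240 v241 v244 v245 v247 (k8 v249 v251 v252 v254 v255 v256 v257 v259 (k1 v260 (k1 v261 (k1 v604 (k0))))))))))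
noncomputable def ca3_147 : List VW := k8 v1 v144 v418 v149 v426 v160 v441 v586 (k0)
noncomputable def ca3_148 : List VW := k8 v1 v144 v417 v422 v149 v433 v426 v160 (k8 v443 v169 v453 v174 v464 v180 v470 v186 (k8 v476 v190 v480 v195 v485 v199 v488 v202 (k8 v493 v205 v496 v207 v502 v211 v505 v513 (k8 v218 v514 v519 v224 v226 v229 v230 v232 (k8 v233 v235 v237 v239 v241 v244 v245 v247 (k1 v249 (k1 v251 (k1 v252 (k1 v254 (k1 v255 (k1 v256 (k1 v602 (k0)))))))))))))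
noncomputable def ca3_149 : List VW := k8 v1 v144 v423 v418 v149 v433 v426 v160 (k8 v444 v167 v460 v452 v174 v464 v180 v470 (k8 v186 v476 v190 v480 v195 v485 v199 v488 (k8 v202 v493 v205 v496 v207 v502 v211 v505 (k8 v213 v511 v516 v220 v518 v223 v226 v229 (k8 v230 v232 v233 v235 v237 v239 v241 v244 (k8 v245 v247 v249 v251 v252 v254 v255 v256 (k1 v257 (k1 v259 (k1 v260 (k1 v261 (k1 v604 (k0))))))))))))
noncomputable def ca3_150 : List VW := k8 v1 v144 v423 v418 v149 v433 v426 v161 (k8 v444 v167 v460 v452 v174 v465 v180 v470 (k8 v186 v476 v190 v480 v195 v485 v199 v488 (k8 v202 v493 v205 v496 v207 v502 v211 v505 (k8 v213 v511 v516 v219 v518 v223 v226 v229 (k8 v230 v232 v233 v235 v237 v239 v241 v243 (k8 v245 v247 v249 v251 v252 v254 v255 v256 (k1 v602 (k0))))))))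
noncomputable def ca3_151 : List VW := k8 v1 v144 v423 v418 v149 v433 v426 v161 (k8 v444 v167 v460 v452 v174 v465 v180 v470 (k8 v186 v476 v190 v480 v195 v485 v199 v488 (k8 v202 v493 v205 v496 v207 v502 v211 v505 (k8 v213 v511 v516 v220 v518 v223 v226 v229 (k8 v230 v232 v233 v235 v237 v239 v241 v244 (k8 v245 v247 v249 v251 v252 v254 v255 v256 (k1 v257 (k1 v259 (k1 v260 (k1 v261 (k1 v604 (k0))))))))))))
noncomputable def ca3_152 : List VW := k8 v1 v144 v423 v418 v149 v433 v426 v161 (k8 v444 v167 v460 v452 v174 v465 v180 v470 (k8 v186 v476 v190 v480 v195 v485 v199 v488 (k8 v202 v493 v205 v496 v207 v502 v211 v505 (k8 v213 v511 v516 v220 v518 v223 v226 v229 (k8 v230 v232 v233 v235 v237 v239 v241 v244 (k8 v245 v247 v249 v251 v252 v254 v255 v256 (k1 v257 (k1 v259 (k1 v603 (k0))))))))))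
noncomputable def ca3_153 : List VW := k8 v1 v144 v423 v418 v149 v433 v426 v160 (k8 v444 v167 v460 v452 v174 v464 v180 v470 (k8 v186 v476 v190 v480 v195 v485 v199 v488 (k8 v202 v493 v205 v496 v207 v502 v508 v214 (k8 v511 v516 v219 v224 v226 v229 v230 v232 (k8 v233 v235 v237 v239 v241 v244 v245 v247 (k1 v249 (k1 v251 (k1 v252 (k1 v254 (k1 v601 (k0)))))))))))
noncomputable def ca3_154 : List VW := k8 v1 v144 v423 v418 v149 v433 v426 v160 (k8 v446 v441 v167 v460 v452 v174 v465 v180 (k8 v470 v186 v476 v190 v481 v195 v485 v199 (k8 v488 v202 v493 v205 v496 v207 v502 v211 (k8 v505 v213 v511 v516 v219 v518 v223 v226 (k8 v229 v230 v232 v233 v235 v237 v239 v241 (k8 v243 v245 v247 v249 v251 v252 v254 v255 (k1 v256 (k1 v257 (k1 v259 (k1 v260 (k1 v261 (k1 v604 (k0)))))))))))))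
noncomputable def ca3_155 : List VW := k8 v1 v144 v423 v418 v149 v433 v426 v160 (k8 v436 v444 v167 v460 v452 v174 v465 v180 (k8 v470 v186 v476 v190 v481 v195 v485 v199 (k8 v488 v202 v493 v205 v496 v207 v502 v211 (k8 v505 v213 v511 v516 v220 v518 v223 v226 (k8 v229 v230 v232 v233 v235 v237 v239 v241 (k8 v244 v245 v247 v249 v251 v252 v254 v255 (k1 v256 (k1 v257 (k1 v259 (k1 v260 (k1 v261 (k1 v604 (k0)))))))))))))
noncomputable def ca3_156 : List VW := k8 v1 v144 v274 v423 v279 v149 v433 v426 (k8 v160 v446 v441 v167 v460 v452 v174 v465 (k8 v180 v470 v186 v476 v190 v481 v195 v485 (k8 v199 v489 v202 v493 v205 v497 v207 v502 (k8 v211 v214 v511 v217 v220 v518 v223 v226 (k8 v524 v228 v230 v528 v231 v233 v531 v235 (k8 v237 v239 v241 v243 v245 v247 v249 v251 (k1 v252 (k1 v254 (k1 v255 (k1 v256 (k1 v602 (k0))))))))))))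
noncomputable def ca3_157 : List VW := k8 v1 v144 v274 v423 v418 v149 v433 v426 (k8 v160 v446 v441 v167 v460 v452 v174 v465 (k8 v180 v470 v186 v476 v190 v481 v195 v485 (k8 v199 v489 v202 v493 v205 v496 v207 v502 (k8 v211 v214 v511 v516 v219 v518 v223 v226 (k8 v524 v228 v230 v528 v231 v233 v235 v237 (k8 v239 v241 v243 v245 v247 v249 v251 v252 (k8 v254 v255 v256 v257 v259 v260 v261 v604 (k0))))))))
noncomputable def ca3_158 : List VW := k8 v1 v147 v423 v418 v149 v433 v426 v160 (k8 v446 v441 v167 v460 v452 v174 v465 v180 (k8 v470 v186 v476 v190 v481 v195 v485 v199 (k8 v489 v202 v493 v205 v496 v207 v502 v211 (k8 v505 v213 v511 v516 v219 v518 v223 v226 (k8 v524 v228 v230 v528 v231 v233 v235 v237 (k8 v239 v241 v243 v245 v247 v249 v251 v252 (k8 v254 v255 v256 v257 v259 v260 v261 v604 (k0))))))))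
noncomputable def ca3_159 : List VW := k8 v1 v144 v417 v422 v149 v433 v155 v160 (k8 v441 v167 v452 v174 v464 v180 v184 v186 (k1 v476 (k1 v190 (k1 v196 (k1 v200 (k1 v589 (k0)))))))
noncomputable def ca3_160 : List VW := k8 v276 v144 v275 v423 v279 v149 v433 v291 (k8 v158 v160 v446 v441 v167 v460 v452 v174 (k8 v336 v464 v182 v345 v470 v186 v478 v476 (k8 v192 v481 v195 v485 v199 v489 v202 v493 (k8 v205 v497 v207 v502 v211 v214 v511 v217 (k8 v220 v518 v223 v225 v524 v228 v230 v528 (k8 v231 v233 v531 v235 v237 v536 v239 v241 (k8 v541 v243 v245 v544 v545 v546 v547 v549 (k1 v255 (k1 v256 (k1 v257 (k1 v259 (k1 v260 (k1 v261 (k1 v604 (k0)))))))))))))))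
noncomputable def ca3_161 : List VW := k8 v1 v144 v275 v423 v279 v149 v433 v426 (k8 v160 v446 v441 v167 v460 v452 v174 v336 (k8 v464 v182 v473 v470 v186 v478 v476 v190 (k8 v481 v195 v485 v199 v489 v202 v493 v205 (k8 v497 v207 v502 v211 v214 v511 v217 v220 (k8 v518 v223 v225 v524 v228 v230 v528 v231 (k8 v233 v531 v235 v237 v536 v239 v241 v541 (k8 v243 v245 v544 v545 v546 v547 v549 v255 (k1 v256 (k1 v257 (k1 v259 (k1 v260 (k1 v261 (k1 v604 (k0))))))))))))))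
noncomputable def ca3_162 : List VW := k8 v1 v144 v275 v423 v279 v149 v433 v426 (k8 v160 v446 v441 v167 v460 v452 v174 v336 (k8 v464 v182 v180 v470 v186 v478 v476 v190 (k8 v481 v195 v485 v199 v489 v202 v493 v205 (k8 v497 v207 v502 v211 v214 v511 v516 v219 (k8 v518 v223 v226 v524 v228 v230 v528 v231 (k8 v233 v531 v235 v237 v536 v239 v241 v541 (k8 v243 v245 v544 v545 v546 v547 v549 v255 (k1 v256 (k1 v257 (k1 v259 (k1 v260 (k1 v261 (k1 v604 (k0))))))))))))))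
noncomputable def ca3_163 : List VW := k8 v1 v144 v275 v423 v279 v149 v433 v426 (k8 v160 v446 v441 v167 v460 v452 v178 v465 (k8 v182 v180 v470 v186 v478 v476 v190 v481 (k8 v195 v485 v199 v489 v202 v493 v205 v497 (k8 v207 v502 v211 v505 v213 v511 v516 v219 (k8 v518 v223 v226 v524 v228 v230 v528 v231 (k8 v233 v531 v235 v237 v536 v239 v241 v541 (k8 v243 v245 v544 v545 v546 v547 v549 v255 (k1 v256 (k1 v257 (k1 v259 (k1 v260 (k1 v261 (k1 v604 (k0))))))))))))))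
noncomputable def ca3_164 : List VW := k8 v1 v144 v274 v423 v279 v149 v433 v426 (k8 v160 v446 v441 v167 v460 v452 v178 v465 (k8 v180 v470 v186 v478 v476 v190 v481 v195 (k8 v485 v199 v489 v202 v493 v205 v497 v207 (k8 v502 v211 v505 v213 v511 v516 v219 v518 (k8 v223 v226 v524 v228 v230 v528 v231 v233 (k8 v531 v235 v237 v536 v239 v241 v541 v243 (k8 v245 v544 v545 v546 v547 v549 v255 v256 (k1 v257 (k1 v259 (k1 v260 (k1 v261 (k1 v604 (k0)))))))))))))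
noncomputable def ca3_165 : List VW := k8 v1 v144 v274 v423 v279 v149 v433 v426 (k8 v160 v446 v441 v167 v460 v452 v178 v465 (k8 v180 v470 v186 v478 v476 v190 v481 v195 (k8 v485 v199 v489 v202 v493 v205 v497 v207 (k8 v502 v211 v505 v213 v511 v516 v219 v518 (k8 v223 v226 v524 v228 v230 v528 v231 v233 (k8 v531 v235 v237 v536 v239 v241 v541 v243 (k8 v245 v247 v249 v251 v252 v254 v255 v256 (k1 v257 (k1 v259 (k1 v260 (k1 v261 (k1 v604 (k0)))))))))))))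
noncomputable def ca3_166 : List VW := k8 v1 v144 v274 v423 v279 v149 v433 v426 (k8 v160 v446 v441 v167 v460 v452 v178 v465 (k8 v180 v470 v186 v476 v190 v481 v195 v485 (k8 v199 v489 v202 v493 v205 v497 v207 v502 (k8 v211 v505 v213 v511 v516 v219 v518 v223 (k8 v226 v524 v228 v230 v528 v231 v233 v531 (k8 v235 v237 v536 v239 v241 v541 v243 v245 (k8 v247 v249 v251 v252 v254 v255 v256 v257 (k1 v259 (k1 v260 (k1 v261 (k1 v604 (k0))))))))))))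
noncomputable def ca3_167 : List VW := k8 v1 v144 v274 v423 v287 v149 v433 v426 (k8 v160 v446 v441 v167 v460 v452 v178 v465 (k8 v180 v470 v186 v476 v190 v481 v195 v485 (k8 v199 v489 v202 v493 v205 v497 v207 v502 (k8 v211 v505 v213 v511 v516 v219 v518 v223 (k8 v226 v524 v228 v230 v528 v231 v233 v531 (k8 v532 v537 v239 v241 v541 v243 v245 v247 (k8 v249 v251 v252 v254 v255 v256 v257 v259 (k1 v260 (k1 v261 (k1 v604 (k0)))))))))))
noncomputable def ca3_168 : List VW := k8 v1 v144 v274 v423 v279 v149 v433 v426 (k8 v160 v446 v441 v167 v460 v452 v174 v465 (k8 v180 v470 v186 v476 v190 v481 v195 v485 (k8 v199 v489 v202 v493 v205 v497 v207 v502 (k8 v211 v214 v511 v217 v220 v518 v223 v226 (k8 v524 v228 v230 v528 v231 v233 v531 v532 (k8 v537 v239 v241 v243 v245 v247 v249 v251 (k1 v252 (k1 v254 (k1 v601 (k0))))))))))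
noncomputable def ca3_169 : List VW := k8 v1 v144 v274 v423 v279 v149 v433 v426 (k8 v160 v436 v444 v167 v460 v452 v174 v464 (k8 v180 v470 v186 v476 v190 v481 v195 v485 (k8 v199 v489 v202 v493 v205 v496 v207 v502 (k8 v211 v213 v511 v217 v219 v518 v223 v225 (k1 v524 (k1 v228 (k1 v230 (k1 v528 (k1 v595 (k0))))))))))
noncomputable def ca3_170 : List VW := k8 v1 v147 v423 v0 v149 v433 v426 v160 (k8 v443 v167 v452 v174 v464 v180 v470 v186 (k8 v476 v190 v481 v487 v200 v203 v493 v205 (k1 v208 (k1 v502 (k1 v591 (k0))))))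
noncomputable def ca3_171 : List VW := k8 v277 v144 v275 v274 v279 v149 v433 v292 (k8 v157 v161 v446 v306 v167 v460 v328 v170 (k8 v174 v337 v182 v473 v183 v188 v351 v192 (k8 v69 v357 v195 v364 v200 v79 v202 v493 (k8 v205 v86 v207 v502 v211 v213 v511 v217 (k8 v219 v518 v223 v225 v524 v228 v230 v528 (k8 v114 v233 v531 v119 v237 v536 v125 v241 (k8 v541 v128 v245 v544 v132 v249 v546 v253 (k1 v136 (k1 v255 (k1 v139 (k1 v602 (k0))))))))))))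
noncomputable def ca3_172 : List VW := k8 v277 v144 v275 v274 v284 v149 v433 v292 (k8 v157 v161 v446 v306 v167 v460 v328 v171 (k8 v174 v337 v182 v473 v184 v186 v351 v67 (k8 v192 v483 v71 v195 v485 v199 v79 v202 (k8 v493 v205 v86 v207 v502 v211 v213 v511 (k8 v217 v219 v518 v223 v225 v524 v228 v230 (k8 v528 v114 v233 v531 v119 v237 v536 v125 (k8 v241 v541 v243 v245 v544 v132 v249 v546 (k8 v134 v252 v136 v255 v553 v257 v556 v603 (k0)))))))))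
noncomputable def ca3_173 : List VW := k8 v277 v144 v275 v274 v284 v149 v433 v292 (k8 v157 v161 v446 v306 v167 v462 v562 v170 (k8 v174 v337 v464 v182 v473 v184 v186 v351 (k8 v67 v192 v483 v71 v195 v485 v199 v79 (k8 v202 v493 v205 v86 v207 v502 v211 v214 (k8 v511 v217 v220 v518 v223 v225 v524 v228 (k8 v230 v528 v114 v233 v531 v119 v237 v536 (k8 v239 v241 v541 v243 v245 v544 v247 v249 (k8 v546 v251 v252 v549 v255 v553 v257 v556 (k1 v260 (k1 v558 (k1 v604 (k0))))))))))))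
noncomputable def ca3_174 : List VW := k8 v277 v144 v275 v423 v0 v149 v433 v292 (k8 v157 v161 v446 v306 v167 v460 v562 v170 (k8 v174 v337 v464 v182 v473 v184 v186 v351 (k8 v67 v192 v481 v195 v485 v199 v489 v202 (k8 v493 v205 v86 v207 v502 v211 v214 v511 (k8 v217 v220 v518 v223 v225 v524 v228 v230 (k8 v528 v114 v233 v531 v235 v237 v536 v239 (k8 v241 v541 v243 v245 v544 v545 v546 v547 (k1 v549 (k1 v255 (k1 v553 (k1 v257 (k1 v556 (k1 v603 (k0))))))))))))))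
noncomputable def ca3_175 : List VW := k8 v277 v144 v275 v423 v0 v149 v433 v292 (k8 v157 v160 v446 v306 v167 v460 v562 v170 (k8 v174 v337 v464 v182 v473 v184 v186 v351 (k8 v67 v192 v481 v195 v485 v199 v489 v202 (k8 v493 v205 v86 v207 v502 v211 v214 v511 (k8 v217 v220 v518 v223 v225 v524 v228 v230 (k8 v528 v114 v233 v531 v235 v237 v536 v239 (k8 v241 v541 v243 v245 v544 v545 v546 v547 (k8 v549 v255 v553 v257 v556 v260 v558 v604 (k0)))))))))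
noncomputable def ca3_176 : List VW := k8 v276 v144 v275 v423 v0 v149 v433 v291 (k8 v157 v160 v446 v305 v167 v460 v562 v171 (k8 v174 v336 v464 v182 v473 v184 v186 v350 (k8 v476 v192 v481 v195 v485 v199 v489 v202 (k8 v493 v205 v86 v207 v502 v211 v94 v213 (k8 v511 v516 v219 v518 v223 v225 v524 v228 (k8 v230 v528 v231 v233 v531 v235 v237 v536 (k8 v239 v241 v541 v243 v245 v544 v545 v546 (k8 v547 v549 v255 v553 v257 v259 v260 v558 (k1 v604 (k0))))))))))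
noncomputable def ca3_177 : List VW := k8 v276 v144 v275 v423 v0 v149 v433 v291 (k8 v157 v160 v446 v305 v167 v460 v562 v173 (k8 v178 v465 v182 v473 v184 v186 v476 v192 (k8 v481 v195 v485 v199 v489 v202 v493 v205 (k8 v86 v207 v502 v211 v214 v511 v217 v219 (k8 v518 v223 v225 v524 v228 v230 v528 v114 (k8 v233 v531 v532 v536 v239 v241 v541 v543 (k1 v544 (k1 v545 (k1 v546 (k1 v252 (k1 v549 (k1 v601 (k0)))))))))))))
noncomputable def ca3_178 : List VW := k8 v276 v144 v275 v423 v0 v149 v433 v291 (k8 v157 v160 v446 v305 v167 v460 v452 v174 (k8 v465 v182 v470 v186 v476 v190 v481 v195 (k8 v485 v199 v79 v202 v493 v205 v86 v207 (k8 v502 v211 v213 v511 v217 v219 v518 v223 (k8 v225 v524 v228 v230 v528 v114 v233 v531 (k1 v532 (k1 v536 (k1 v538 (k1 v541 (k1 v598 (k0)))))))))))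
noncomputable def ca3_179 : List VW := k8 v1 v147 v274 v283 v149 v433 v291 v157 (k8 v160 v436 v311 v167 v460 v452 v174 v464 (k8 v182 v470 v186 v476 v190 v194 v195 v485 (k8 v199 v79 v202 v493 v205 v208 v502 v211 (k8 v213 v511 v217 v219 v518 v223 v225 v524 (k1 v525 (k1 v528 (k1 v595 (k0))))))))
noncomputable def ca3_180 : List VW := k8 v1 v144 v274 v423 v0 v149 v433 v426 (k8 v160 v436 v443 v167 v460 v173 v174 v464 (k8 v180 v470 v186 v476 v190 v194 v195 v485 (k8 v491 v203 v493 v205 v208 v502 v211 v213 (k1 v511 (k1 v592 (k0))))))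
noncomputable def ca3_181 : List VW := k8 v278 v3 v424 v273 v0 v2 v12 v432 (k8 v561 v21 v160 v324 v309 v265 v29 v333 (k8 v331 v42 v174 v340 v266 v53 v347 v59 (k8 v186 v354 v268 v65 v189 v71 v366 v74 (k8 v77 v79 v374 v492 v380 v86 v383 v92 (k8 v94 v389 v97 v99 v101 v105 v106 v225 (k8 v523 v111 v230 v528 v114 v115 v117 v119 (k1 v402 (k1 v577 (k0)))))))))
noncomputable def ca3_182 : List VW := k8 v4 v147 v275 v281 v2 v429 v560 v21 (k8 v160 v323 v308 v264 v28 v332 v330 v42 (k8 v174 v339 v266 v52 v472 v59 v186 v353 (k8 v267 v64 v189 v71 v195 v484 v73 v77 (k8 v79 v373 v492 v379 v86 v382 v91 v94 (k8 v389 v96 v99 v391 v104 v106 v107 v108 (k8 v111 v230 v528 v114 v530 v119 v120 v122 (k8 v125 v241 v126 v128 v129 v130 v132 v249 (k1 v580 (k0)))))))))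
noncomputable def ca3_183 : List VW := k8 v278 v144 v275 v280 v2 v429 v560 v22 (k8 v160 v322 v307 v264 v27 v165 v329 v42 (k8 v174 v338 v266 v51 v472 v59 v186 v352 (k8 v267 v63 v189 v71 v195 v484 v72 v198 (k8 v79 v202 v492 v81 v85 v86 v207 v501 (k8 v210 v213 v510 v216 v219 v517 v106 v107 (k8 v523 v111 v230 v528 v114 v115 v116 v119 (k8 v120 v122 v125 v241 v126 v128 v129 v130 (k8 v132 v249 v134 v252 v136 v552 v257 v142 (k1 v260 (k1 v143 (k1 v262 (k1 v585 (k0)))))))))))))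
noncomputable def ca3_184 : List VW := k8 v278 v144 v275 v285 v2 v429 v560 v22 (k8 v160 v322 v307 v264 v27 v456 v35 v42 (k8 v174 v338 v266 v51 v472 v59 v186 v352 (k8 v267 v63 v358 v71 v195 v484 v198 v78 (k8 v202 v492 v81 v498 v207 v501 v210 v213 (k8 v510 v216 v219 v517 v222 v225 v523 v111 (k8 v230 v528 v114 v115 v116 v119 v120 v536 (k8 v125 v241 v126 v128 v129 v410 v132 v249 (k8 v134 v252 v136 v552 v257 v142 v260 v143 (k1 v604 (k0))))))))))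
noncomputable def ca3_185 : List VW := k8 v278 v144 v275 v285 v2 v429 v560 v290 (k8 v160 v322 v307 v264 v27 v456 v35 v42 (k8 v174 v338 v266 v51 v472 v59 v186 v352 (k8 v267 v63 v482 v70 v195 v484 v198 v78 (k8 v202 v492 v378 v498 v207 v501 v210 v213 (k8 v510 v216 v219 v517 v222 v225 v523 v111 (k8 v230 v112 v114 v115 v530 v118 v237 v122 (k8 v125 v241 v126 v128 v129 v544 v131 v249 (k1 v134 (k1 v135 (k1 v548 (k1 v255 (k1 v139 (k1 v602 (k0))))))))))))))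
noncomputable def ca3_186 : List VW := k8 v278 v3 v424 v273 v280 v2 v430 v293 (k8 v157 v160 v322 v436 v313 v167 v456 v35 (k8 v42 v174 v338 v182 v345 v183 v186 v352 (k8 v192 v69 v71 v195 v364 v200 v78 v202 (k8 v492 v378 v498 v207 v501 v210 v213 v510 (k8 v216 v219 v517 v222 v225 v523 v111 v230 (k8 v528 v114 v115 v530 v118 v238 v404 v125 (k8 v241 v409 v128 v245 v130 v132 v249 v134 (k1 v135 (k1 v548 (k1 v255 (k1 v139 (k1 v602 (k0)))))))))))))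
noncomputable def ca3_187 : List VW := k8 v278 v144 v275 v274 v280 v149 v433 v293 (k8 v157 v161 v436 v313 v167 v460 v35 v42 (k8 v174 v338 v182 v345 v183 v186 v352 v192 (k8 v69 v71 v195 v364 v200 v79 v202 v493 (k8 v205 v86 v207 v502 v211 v213 v511 v217 (k8 v219 v518 v223 v225 v524 v111 v230 v528 (k8 v114 v233 v116 v535 v237 v536 v125 v241 (k8 v541 v128 v245 v410 v132 v249 v134 v135 (k1 v549 (k1 v601 (k0))))))))))
noncomputable def ca3_188 : List VW := k8 v278 v144 v275 v274 v280 v149 v433 v293 (k8 v157 v161 v436 v313 v167 v460 v35 v42 (k8 v174 v338 v182 v345 v183 v186 v352 v192 (k8 v69 v71 v195 v364 v200 v79 v202 v493 (k8 v205 v86 v207 v502 v211 v213 v511 v217 (k8 v219 v518 v223 v225 v524 v111 v230 v528 (k8 v114 v233 v401 v535 v237 v536 v125 v241 (k8 v541 v128 v245 v544 v132 v249 v546 v600 (k0))))))))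
noncomputable def ca3_189 : List VW := k8 v278 v144 v275 v274 v280 v149 v433 v293 (k8 v157 v161 v436 v446 v307 v167 v460 v329 (k8 v170 v174 v338 v182 v345 v183 v186 v352 (k8 v192 v483 v71 v195 v364 v200 v79 v202 (k8 v493 v205 v86 v207 v502 v211 v213 v511 (k8 v217 v219 v518 v223 v225 v524 v228 v230 (k8 v528 v114 v233 v531 v119 v237 v536 v125 (k8 v241 v541 v128 v245 v544 v132 v249 v546 (k1 v252 (k1 v136 (k1 v601 (k0)))))))))))
noncomputable def ca3_190 : List VW := k8 v277 v144 v275 v274 v279 v149 v433 v292 (k8 v157 v160 v436 v306 v169 v328 v39 v177 (k8 v337 v182 v58 v183 v186 v351 v192 v194 (k8 v195 v364 v200 v79 v202 v493 v205 v86 (k8 v207 v502 v211 v213 v511 v217 v219 v518 (k8 v223 v225 v524 v111 v230 v528 v114 v233 (k1 v531 (k1 v596 (k0))))))))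
noncomputable def ca3_191 : List VW := k8 v277 v144 v275 v274 v0 v149 v433 v292 (k8 v157 v161 v312 v167 v328 v39 v177 v337 (k8 v182 v58 v183 v186 v351 v192 v71 v195 (k8 v364 v200 v79 v202 v493 v205 v207 v502 (k8 v211 v213 v511 v217 v219 v518 v106 v225 (k1 v524 (k1 v594 (k0)))))))
noncomputable def ca3_192 : List VW := k8 v276 v144 v275 v274 v283 v149 v433 v291 (k8 v157 v160 v446 v305 v167 v462 v173 v174 (k8 v336 v182 v345 v184 v186 v350 v192 v481 (k8 v195 v364 v200 v489 v202 v493 v205 v208 (k8 v502 v211 v213 v511 v217 v219 v518 v593 (k0)))))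
noncomputable def ca3_193 : List VW := k8 v5 v275 v289 v13 v304 v16 v24 v319 (k1 v33 (k1 v48 (k1 v56 (k1 v567 (k0)))))
noncomputable def ca3_194 : List VW := k8 v4 v7 v275 v0 v13 v304 v16 v21 (k8 v319 v31 v37 v42 v50 v56 v60 v68 (k1 v568 (k0)))
noncomputable def ca3_195 : List VW := k8 v3 v7 v275 v0 v2 v299 v16 v21 (k8 v321 v30 v35 v42 v341 v54 v59 v355 (k1 v568 (k0)))
noncomputable def ca3_196 : List VW := k8 v4 v424 v273 v0 v2 v428 v15 v21 (k8 v310 v166 v30 v334 v46 v341 v54 v59 (k1 v355 (k1 v66 (k1 v71 (k1 v367 (k1 v569 (k0)))))))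
noncomputable def ca3_197 : List VW := k8 v4 v424 v273 v0 v2 v12 v431 v15 (k8 v21 v310 v166 v30 v334 v35 v42 v341 (k8 v54 v58 v59 v355 v66 v71 v367 v569 (k0)))
noncomputable def ca3_198 : List VW := k8 v4 v424 v273 v0 v2 v428 v425 v23 (k8 v316 v166 v30 v334 v35 v42 v341 v181 (k8 v54 v58 v59 v355 v66 v71 v367 v75 (k1 v79 (k1 v375 (k1 v570 (k0))))))
noncomputable def ca3_199 : List VW := k8 v4 v424 v273 v0 v2 v298 v295 v21 (k8 v160 v315 v265 v29 v331 v42 v340 v266 (k8 v53 v58 v59 v354 v65 v71 v366 v74 (k1 v79 (k1 v374 (k1 v570 (k0))))))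
noncomputable def ca3_200 : List VW := k8 v4 v424 v273 v0 v2 v297 v294 v22 (k8 v23 v323 v308 v265 v28 v165 v330 v42 (k8 v339 v266 v52 v346 v59 v353 v268 v64 (k8 v69 v71 v365 v73 v79 v373 v82 v86 (k8 v89 v91 v94 v389 v96 v99 v100 v573 (k0)))))
noncomputable def ca3_201 : List VW := k8 v278 v147 v275 v281 v263 v11 v433 v561 (k8 v22 v160 v323 v308 v265 v28 v332 v330 (k8 v42 v174 v339 v266 v52 v180 v346 v59 (k8 v186 v353 v268 v64 v359 v71 v195 v485 (k8 v73 v199 v79 v202 v80 v271 v82 v85 (k8 v86 v207 v502 v91 v94 v389 v96 v99 (k8 v391 v104 v106 v107 v396 v111 v230 v528 (k8 v114 v115 v116 v119 v120 v122 v125 v241 (k8 v126 v128 v129 v130 v132 v412 v134 v135 (k1 v136 (k1 v137 (k1 v139 (k1 v140 (k1 v583 (k0))))))))))))))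
noncomputable def ca3_202 : List VW := k8 v278 v144 v275 v274 v0 v149 v433 v293 (k8 v157 v160 v322 v446 v307 v167 v460 v329 (k8 v170 v174 v338 v182 v345 v183 v186 v352 (k8 v192 v69 v194 v195 v364 v200 v491 v78 (k8 v203 v493 v205 v86 v207 v502 v211 v213 (k8 v511 v217 v219 v518 v223 v225 v524 v594 (k0))))))

noncomputable def a14_0 : T5 :=
  (.nd 2 2250 .lw
  (.lf ⟨⟨0, 0, 0, 38967, 16, 1, 1⟩, 0, 0, 0, 0, [h5, h0 5884, f10], 26, ca3_0, 0, 0⟩))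

noncomputable def a14_1 : T5 :=
  (.nd 2 2082 .lw
  (.lf ⟨⟨0, 0, 0, 21769, 16, 1, 1⟩, 0, 0, 0, 0, [h5, h0 5884, f9], 26, ca3_1, 0, 0⟩))

noncomputable def a14_2 : T5 :=
  (.nd 2 1887 .lw
  (.nd 2 2201 (.nd 2 2044 (.nd 2 1965 (.nd 2 1926 (.lf ⟨⟨0, 0, 0, 11074, 16, 1, 1⟩, 0, 0, 0, 0, [h5, h0 5884], 11, ca3_2, 0, 0⟩)
  (.nd 2 1945 (.lf ⟨⟨0, 0, 0, 12677, 16, 1, 1⟩, 0, 0, 0, 0, [h5, h0 5884], 11, ca3_3, 0, 0⟩)
  (.lf ⟨⟨0, 0, 0, 13540, 16, 1, 1⟩, 0, 0, 0, 0, [h5, h0 5884, f8], 13, ca3_4, 0, 0⟩)))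
  (.lf ⟨⟨0, 0, 0, 14512, 16, 1, 1⟩, 0, 0, 0, 0, [h5, h0 5884, f8], 13, ca3_4, 0, 0⟩))
  (.lf ⟨⟨0, 0, 0, 19082, 16, 1, 1⟩, 0, 0, 0, 0, [h5, h0 5884, f8], 0, ca3_5, 0, 0⟩))
  (.lf ⟨⟨0, 0, 0, 32881, 16, 1, 1⟩, 0, 0, 0, 0, [h5, h0 5884, f8], 0, ca3_6, 0, 0⟩)))

noncomputable def a14_3 : T5 :=
  (.nd 2 1770 .lw
  (.lf ⟨⟨0, 0, 0, 7383, 16, 1, 1⟩, 0, 0, 0, 0, [h5, h0 5884, f11], 26, ca3_7, 0, 0⟩))

noncomputable def a14_4 : T5 :=
  (.nd 2 1583 .lw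
  (.nd 2 1846 (.nd 2 1714 (.nd 2 1648 (.nd 2 1615 (.lf ⟨⟨0, 0, 0, 3861, 16, 2, 2⟩, 69034, 256, 1, 0, [h5, h0 5882], 11, ca3_8, 0, 0⟩)
  (.nd 2 1631 (.lf ⟨⟨0, 0, 0, 4314, 16, 2, 2⟩, 72970, 256, 1, 0, [h5, h0 5882], 11, ca3_9, 0, 0⟩)
  (.nd 2 1639 (.lf ⟨⟨0, 0, 0, 4560, 16, 2, 2⟩, 0, 0, 0, 0, [h5, h0 5882], 11, ca3_10, 0, 0⟩)
  (.lf ⟨⟨0, 0, 0, 4688, 16, 2, 1⟩, 0, 0, 0, 0, [h5, h0 5882, f7], 12, ca3_11, 0, 0⟩))))
  (.lf ⟨⟨0, 0, 0, 4837, 16, 2, 1⟩, 0, 0, 0, 0, [h5, h0 5882, f7], 12, ca3_11, 0, 0⟩))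
  (.lf ⟨⟨0, 0, 0, 6080, 16, 2, 1⟩, 0, 0, 0, 0, [h5, h0 5882, f7], 12, ca3_11, 0, 0⟩))
  (.lf ⟨⟨0, 0, 0, 9607, 16, 1, 1⟩, 0, 0, 0, 0, [h5, h0 5884, f7], 0, ca3_12, 0, 0⟩)))

noncomputable def a14_5 : T5 :=
  (.nd 2 1364 .lw
  (.nd 2 1591 (.nd 2 1477 (.nd 2 1420 (.nd 2 1392 (.lf ⟨⟨0, 0, 0, 1807, 16, 4, 3⟩, 31872, 256, 2, 0, [h5, h0 5878], 22, ca3_13, 0, 0⟩)
  (.lf ⟨⟨0, 0, 0, 1991, 16, 4, 3⟩, 35120, 256, 2, 0, [h5, h0 5878], 17, ca3_14, 0, 0⟩))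
  (.lf ⟨⟨0, 0, 0, 2194, 16, 4, 3⟩, 42791, 256, 1, 0, [h5, h0 5878], 17, ca3_15, 0, 0⟩))
  (.lf ⟨⟨0, 0, 0, 2674, 16, 3, 2⟩, 63524, 256, 1, 0, [h5, h0 5880], 17, ca3_16, 0, 0⟩))
  (.lf ⟨⟨0, 0, 0, 3970, 16, 2, 2⟩, 0, 0, 0, 0, [h5, h0 5882, f6], 0, ca3_11, 0, 0⟩)))

noncomputable def a14_6 : T5 :=
  (.nd 2 1166 .lw
  (.nd 2 1360 (.nd 2 1263 (.nd 2 1214 (.lf ⟨⟨0, 0, 0, 14562, 256, 8, 6⟩, 17199, 256, 4, 0, [h5, h0 5870], 22, ca3_17, 0, 0⟩)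
  (.lf ⟨⟨0, 0, 0, 1074, 16, 7, 5⟩, 20382, 256, 3, 0, [h5, h0 5872], 17, ca3_18, 0, 0⟩))
  (.lf ⟨⟨0, 0, 0, 1273, 16, 6, 4⟩, 28527, 256, 2, 0, [h5, h0 5874], 17, ca3_19, 0, 0⟩))
  (.lf ⟨⟨0, 0, 0, 1782, 16, 4, 3⟩, 0, 0, 0, 0, [h5, h0 5878], 17, ca3_20, 0, 0⟩)))

noncomputable def a14_7 : T5 :=
  (.nd 2 966 .lw
  (.nd 2 1127 (.nd 2 1046 (.nd 2 1006 (.lf ⟨⟨0, 0, 0, 7281, 256, 16, 10⟩, 8365, 256, 8, 0, [h5, h0 5854], 22, ca3_21, 0, 0⟩)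
  (.lf ⟨⟨0, 0, 0, 8364, 256, 14, 9⟩, 9608, 256, 7, 0, [h5, h0 5858], 17, ca3_22, 0, 0⟩))
  (.lf ⟨⟨0, 0, 0, 9607, 256, 12, 8⟩, 12722, 256, 5, 0, [h5, h0 5862], 17, ca3_23, 0, 0⟩))
  (.lf ⟨⟨0, 0, 0, 12721, 256, 9, 6⟩, 0, 0, 0, 0, [h5, h0 5868], 17, ca3_24, 0, 0⟩)))

noncomputable def a14_8 : T5 :=
  (.nd 2 764 .lw
  (.nd 2 801 (.lf ⟨⟨65992, 256, 3, 3615, 256, 31, 20⟩, 4111, 256, 17, 2, [h5, h0 5834], 22, ca3_25, 0, 0⟩)
  (.nd 2 934 (.nd 2 867 (.nd 2 834 (.nd 2 817 (.lf ⟨⟨73732, 256, 3, 4110, 256, 27, 18⟩, 4345, 256, 16, 2, [h5, h0 5842], 17, ca3_26, 0, 0⟩)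
  (.lf ⟨⟨82953, 256, 2, 4344, 256, 26, 17⟩, 4609, 256, 15, 2, [h5, h0 5842], 17, ca3_27, 0, 0⟩))
  (.lf ⟨⟨104273, 256, 2, 4608, 256, 24, 16⟩, 5167, 256, 13, 1, [h5, h0 5844], 17, ca3_27, 0, 0⟩))
  (.lf ⟨⟨165906, 256, 1, 5166, 256, 22, 14⟩, 6518, 256, 11, 1, [h5, h0 5846], 17, ca3_28, 0, 0⟩))
  (.lf ⟨⟨0, 0, 0, 6517, 256, 17, 12⟩, 0, 0, 0, 0, [h5, h0 5852], 17, ca3_29, 0, 0⟩))))

noncomputable def a14_9 : T5 :=
  (.nd 2 560 .lw
  (.nd 2 600 (.lf ⟨⟨16384, 256, 13, 1782, 256, 61, 39⟩, 2048, 256, 33, 10, [h5, h0 5810], 22, ca3_30, 0, 0⟩)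
  (.nd 2 700 (.nd 2 650 (.nd 2 625 (.lf ⟨⟨19484, 256, 11, 2048, 256, 53, 34⟩, 2234, 256, 31, 9, [h5, h0 5820], 17, ca3_31, 0, 0⟩)
  (.lf ⟨⟨23171, 256, 9, 2233, 256, 49, 32⟩, 2436, 256, 28, 7, [h5, h0 5820], 17, ca3_32, 0, 0⟩))
  (.lf ⟨⟨32768, 256, 6, 2435, 256, 45, 29⟩, 2897, 256, 24, 5, [h5, h0 5818], 17, ca3_32, 0, 0⟩))
  (.nd 2 801 (.nd 2 750 (.lf ⟨⟨46341, 256, 4, 2896, 256, 38, 25⟩, 3445, 256, 20, 4, [h5, h0 5826], 17, ca3_33, 0, 0⟩)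
  (.lf ⟨⟨65992, 256, 3, 3444, 256, 32, 21⟩, 4111, 256, 17, 2, [h5, h0 5832], 17, ca3_34, 0, 0⟩))
  (.lf ⟨⟨0, 0, 0, 4110, 256, 27, 18⟩, 0, 0, 0, 0, [h5, h0 5832], 0, ca3_35, 0, 0⟩)))))

noncomputable def a14_10 : T5 :=
  (.nd 2 348 .lw
  (.nd 2 400 (.nd 2 374 (.lf ⟨⟨3421, 256, 67, 855, 256, 121, 76⟩, 936, 256, 69, 40, [h5, h0 5858], 17, ca3_36, 0, 0⟩)
  (.lf ⟨⟨4096, 256, 55, 935, 256, 112, 70⟩, 1024, 256, 64, 35, [h5, h0 5842], 17, ca3_37, 0, 0⟩))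
  (.nd 2 500 (.nd 2 450 (.nd 2 425 (.lf ⟨⟨4871, 256, 46, 1024, 256, 102, 65⟩, 1117, 256, 59, 30, [h5, h0 5834], 17, ca3_38, 0, 0⟩)
  (.lf ⟨⟨5793, 256, 39, 1116, 256, 94, 60⟩, 1218, 256, 55, 26, [h5, h0 5828], 17, ca3_39, 0, 0⟩))
  (.nd 2 475 (.nd 2 462 (.lf ⟨⟨6296, 256, 35, 1217, 256, 87, 56⟩, 1270, 256, 52, 24, [h5, h0 5830], 17, ca3_40, 0, 0⟩)
  (.lf ⟨⟨6889, 256, 32, 1269, 256, 84, 54⟩, 1328, 256, 50, 22, [h5, h0 5826], 17, ca3_41, 0, 0⟩))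
  (.nd 2 487 (.lf ⟨⟨7487, 256, 30, 1327, 256, 80, 51⟩, 1385, 256, 48, 21, [h5, h0 5828], 17, ca3_42, 0, 0⟩)
  (.lf ⟨⟨8192, 256, 27, 1384, 256, 77, 49⟩, 1449, 256, 46, 19, [h5, h0 5824], 17, ca3_42, 0, 0⟩))))
  (.nd 2 600 (.nd 2 550 (.nd 2 525 (.nd 2 512 (.lf ⟨⟨8903, 256, 25, 1448, 256, 74, 47⟩, 1510, 256, 45, 18, [h5, h0 5824], 17, ca3_43, 0, 0⟩)
  (.lf ⟨⟨9742, 256, 23, 1509, 256, 71, 46⟩, 1580, 256, 43, 16, [h5, h0 5822], 17, ca3_43, 0, 0⟩))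
  (.nd 2 537 (.lf ⟨⟨10587, 256, 21, 1579, 256, 68, 44⟩, 1647, 256, 41, 15, [h5, h0 5822], 17, ca3_43, 0, 0⟩)
  (.lf ⟨⟨11586, 256, 19, 1646, 256, 65, 42⟩, 1723, 256, 39, 14, [h5, h0 5822], 17, ca3_44, 0, 0⟩)))
  (.nd 2 575 (.lf ⟨⟨13778, 256, 16, 1722, 256, 63, 40⟩, 1879, 256, 36, 12, [h5, h0 5816], 0, ca3_45, 0, 0⟩)
  (.lf ⟨⟨16384, 256, 13, 1878, 256, 58, 37⟩, 2048, 256, 33, 10, [h5, h0 5816], 0, ca3_46, 0, 0⟩)))
  (.lf ⟨⟨0, 0, 0, 2048, 256, 53, 34⟩, 0, 0, 0, 0, [h5, h0 5780], 0, ca3_47, 0, 0⟩)))))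

noncomputable def a14_11 : T5 :=
  (.nd 2 228 .lw
  (.nd 2 300 (.nd 2 264 (.lf ⟨⟨1596, 256, 151, 564, 256, 178, 108⟩, 640, 256, 97, 73, [h5, h0 5978], 17, ca3_48, 0, 0⟩)
  (.nd 2 282 (.nd 2 273 (.lf ⟨⟨1699, 256, 141, 639, 256, 159, 98⟩, 660, 256, 94, 70, [h5, h0 5990], 17, ca3_49, 0, 0⟩)
  (.lf ⟨⟨1808, 256, 132, 659, 256, 154, 95⟩, 681, 256, 92, 67, [h5, h0 5976], 17, ca3_50, 0, 0⟩))
  (.nd 2 291 (.lf ⟨⟨1925, 256, 123, 680, 256, 150, 93⟩, 702, 256, 89, 64, [h5, h0 5960], 17, ca3_51, 0, 0⟩)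
  (.lf ⟨⟨2048, 256, 115, 701, 256, 146, 90⟩, 725, 256, 87, 61, [h5, h0 5946], 17, ca3_52, 0, 0⟩))))
  (.nd 2 400 (.nd 2 350 (.nd 2 325 (.nd 2 312 (.lf ⟨⟨2226, 256, 105, 724, 256, 141, 88⟩, 755, 256, 84, 57, [h5, h0 5928], 17, ca3_53, 0, 0⟩)
  (.lf ⟨⟨2436, 256, 96, 754, 256, 136, 85⟩, 790, 256, 80, 53, [h5, h0 5912], 17, ca3_54, 0, 0⟩))
  (.nd 2 337 (.lf ⟨⟨2647, 256, 88, 789, 256, 131, 82⟩, 824, 256, 78, 50, [h5, h0 5900], 17, ca3_55, 0, 0⟩)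
  (.lf ⟨⟨2897, 256, 80, 823, 256, 126, 79⟩, 862, 256, 75, 46, [h5, h0 5886], 0, ca3_56, 0, 0⟩)))
  (.lf ⟨⟨4096, 256, 55, 861, 256, 120, 76⟩, 1024, 256, 64, 35, [h5, h0 5826], 0, ca3_57, 0, 0⟩))
  (.lf ⟨⟨0, 0, 0, 1024, 256, 102, 65⟩, 0, 0, 0, 0, [h5, h0 5682], 0, ca3_58, 0, 0⟩))))

noncomputable def a14_12 : T5 :=
  (.nd 2 99 (.nd 2 59 (.lf ⟨⟨386, 256, 942, 256, 256, 351, 200⟩, 315, 256, 171, 194, [h5, h0 7456], 17, ca3_59, 0, 0⟩)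
  (.lf ⟨⟨509, 256, 605, 314, 256, 296, 173⟩, 361, 256, 154, 163, [h5, h0 6830], 17, ca3_60, 0, 0⟩))
  (.nd 2 159 (.nd 2 129 (.nd 2 114 (.lf ⟨⟨565, 256, 522, 360, 256, 264, 155⟩, 381, 256, 148, 152, [h5, h0 6706], 12, ca3_61, 0, 0⟩)
  (.lf ⟨⟨626, 256, 455, 380, 256, 252, 149⟩, 401, 256, 142, 142, [h5, h0 6576], 12, ca3_62, 0, 0⟩))
  (.nd 2 144 (.nd 2 136 (.lf ⟨⟨658, 256, 426, 400, 256, 241, 143⟩, 411, 256, 139, 137, [h5, h0 6530], 12, ca3_63, 0, 0⟩)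
  (.lf ⟨⟨695, 256, 397, 410, 256, 236, 140⟩, 422, 256, 136, 133, [h5, h0 6474], 17, ca3_64, 0, 0⟩))
  (.lf ⟨⟨771, 256, 349, 421, 256, 230, 138⟩, 445, 256, 131, 123, [h5, h0 6370], 17, ca3_65, 0, 0⟩)))
  (.nd 2 200 (.lf ⟨⟨1024, 256, 249, 444, 256, 220, 132⟩, 512, 256, 116, 101, [h5, h0 6146], 0, ca3_66, 0, 0⟩)
  (.nd 2 300 (.nd 2 250 (.lf ⟨⟨1449, 256, 168, 512, 256, 194, 117⟩, 609, 256, 101, 79, [h5, h0 5992], 0, ca3_67, 0, 0⟩)
  (.lf ⟨⟨2048, 256, 115, 608, 256, 166, 102⟩, 725, 256, 87, 61, [h5, h0 5906], 0, ca3_68, 0, 0⟩))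
  (.nd 2 400 (.lf ⟨⟨4096, 256, 55, 724, 256, 141, 88⟩, 1024, 256, 64, 35, [h5, h0 5784], 0, ca3_69, 0, 0⟩)
  (.lf ⟨⟨0, 0, 0, 1024, 256, 102, 65⟩, 0, 0, 0, 0, [h5, h0 5682], 0, ca3_70, 0, 0⟩))))))

noncomputable def a14_13 : T5 :=
  (.nd 2 99 (.nd 2 59 (.lf ⟨⟨386, 256, 942, 256, 256, 351, 200⟩, 315, 256, 171, 194, [h5, h0 7456], 0, ca3_71, 0, 0⟩)
  (.lf ⟨⟨509, 256, 605, 314, 256, 296, 173⟩, 361, 256, 154, 163, [h5, h0 6830], 0, ca3_60, 0, 0⟩))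
  (.nd 2 159 (.lf ⟨⟨771, 256, 349, 360, 256, 264, 155⟩, 445, 256, 131, 123, [h5, h0 6302], 0, ca3_72, 0, 0⟩)
  (.nd 2 200 (.lf ⟨⟨1024, 256, 249, 444, 256, 220, 132⟩, 512, 256, 116, 101, [h5, h0 6146], 0, ca3_73, 0, 0⟩)
  (.nd 2 300 (.lf ⟨⟨2048, 256, 115, 512, 256, 194, 117⟩, 725, 256, 87, 61, [h5, h0 5850], 0, ca3_74, 0, 0⟩)
  (.lf ⟨⟨0, 0, 0, 724, 256, 141, 88⟩, 0, 0, 0, 0, [h5, h0 5604], 0, ca3_75, 0, 0⟩)))))

theorem sa14 : SA cs14.st (bxL 689 703) :=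
  sa_nd 100 (sa_rc 1 2 0 1 11945798 2351 a14_0 (by decide +kernel)) <|
  sa_nd 200 (sa_rc 2 4 0 1 7456152 2283 a14_1 (by decide +kernel)) <|
  sa_nd 300 (sa_rc 4 8 1 2 119168808538549 4676 a14_2 (by decide +kernel)) <|
  sa_nd 352 (sa_rc 8 11 0 1 2459613 2123 a14_3 (by decide +kernel)) <|
  sa_nd 452 (sa_rc 12 22 1 2 41552485233916 4524 a14_4 (by decide +kernel)) <|
  sa_nd 552 (sa_rc 23 45 1 1 27066406 2469 a14_5 (by decide +kernel)) <|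
  sa_nd 652 (sa_rc 46 91 1 1 27444239 2471 a14_6 (by decide +kernel)) <|
  sa_nd 752 (sa_rc 92 183 1 1 27444239 2471 a14_7 (by decide +kernel)) <|
  sa_nd 852 (sa_rc 184 367 1 1 27066406 2469 a14_8 (by decide +kernel)) <|
  sa_nd 952 (sa_rc 368 734 1 1 26326273 2465 a14_9 (by decide +kernel)) <|
  sa_nd 1052 (sa_rc 735 1468 1 1 24225112 2453 a14_10 (by decide +kernel)) <|
  sa_nd 1102 (sa_rc 1469 2076 1 1 21089184 2433 a14_11 (by decide +kernel)) <|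
  sa_nd 1152 (sa_rc 2077 2936 2 1 24635163576 3452 a14_12 (by decide +kernel)) <|
  sa_no a14_13 (by decide +kernel)

noncomputable def a15_0 : T5 :=
  (.nd 2 2286 .lw
  (.lf ⟨⟨0, 0, 0, 44146, 16, 1, 1⟩, 0, 0, 0, 0, [h5, h0 5884, f10], 26, ca3_0, 0, 0⟩))

noncomputable def a15_1 : T5 :=
  (.nd 2 2118 .lw
  (.lf ⟨⟨0, 0, 0, 24661, 16, 1, 1⟩, 0, 0, 0, 0, [h5, h0 5884, f9], 26, ca3_76, 0, 0⟩))

noncomputable def a15_2 : T5 :=
  (.nd 2 1929 .lw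
  (.nd 2 2250 (.nd 2 2089 (.nd 2 2009 (.nd 2 1969 (.lf ⟨⟨0, 0, 0, 12810, 16, 1, 1⟩, 0, 0, 0, 0, [h5, h0 5884], 11, ca3_77, 0, 0⟩)
  (.nd 2 1989 (.nd 2 1979 (.lf ⟨⟨0, 0, 0, 14715, 16, 1, 1⟩, 0, 0, 0, 0, [h5, h0 5884], 11, ca3_78, 0, 0⟩)
  (.lf ⟨⟨0, 0, 0, 15233, 16, 1, 1⟩, 0, 0, 0, 0, [h5, h0 5884, f8], 13, ca3_79, 0, 0⟩))
  (.lf ⟨⟨0, 0, 0, 15771, 16, 1, 1⟩, 0, 0, 0, 0, [h5, h0 5884, f8], 13, ca3_79, 0, 0⟩)))
  (.lf ⟨⟨0, 0, 0, 16903, 16, 1, 1⟩, 0, 0, 0, 0, [h5, h0 5884, f8], 13, ca3_79, 0, 0⟩))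
  (.lf ⟨⟨0, 0, 0, 22303, 16, 1, 1⟩, 0, 0, 0, 0, [h5, h0 5884, f8], 0, ca3_80, 0, 0⟩))
  (.lf ⟨⟨0, 0, 0, 38967, 16, 1, 1⟩, 0, 0, 0, 0, [h5, h0 5884, f8], 0, ca3_81, 0, 0⟩)))

noncomputable def a15_3 : T5 :=
  (.nd 2 1807 .lw
  (.lf ⟨⟨0, 0, 0, 8393, 16, 1, 1⟩, 0, 0, 0, 0, [h5, h0 5884, f11], 26, ca3_7, 0, 0⟩))

noncomputable def a15_4 : T5 :=
  (.nd 2 1613 .lw
  (.nd 2 1881 (.nd 2 1747 (.nd 2 1680 (.nd 2 1646 (.lf ⟨⟨0, 0, 0, 4284, 16, 2, 2⟩, 0, 0, 0, 0, [h5, h0 5882], 11, ca3_82, 0, 0⟩)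
  (.nd 2 1663 (.lf ⟨⟨0, 0, 0, 4803, 16, 2, 1⟩, 0, 0, 0, 0, [h5, h0 5882], 11, ca3_83, 0, 0⟩)
  (.lf ⟨⟨0, 0, 0, 5095, 16, 2, 1⟩, 0, 0, 0, 0, [h5, h0 5882, f7], 12, ca3_11, 0, 0⟩)))
  (.lf ⟨⟨0, 0, 0, 5404, 16, 2, 1⟩, 0, 0, 0, 0, [h5, h0 5882, f7], 12, ca3_11, 0, 0⟩))
  (.lf ⟨⟨0, 0, 0, 6817, 16, 2, 1⟩, 0, 0, 0, 0, [h5, h0 5882, f7], 12, ca3_11, 0, 0⟩))
  (.lf ⟨⟨0, 0, 0, 10846, 16, 1, 1⟩, 0, 0, 0, 0, [h5, h0 5884, f7], 0, ca3_12, 0, 0⟩)))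

noncomputable def a15_5 : T5 :=
  (.nd 2 1396 .lw
  (.nd 2 1628 (.nd 2 1512 (.nd 2 1454 (.nd 2 1425 (.lf ⟨⟨0, 0, 0, 2019, 16, 4, 3⟩, 35734, 256, 2, 0, [h5, h0 5878], 22, ca3_13, 0, 0⟩)
  (.nd 2 1439 (.nd 2 1432 (.lf ⟨⟨0, 0, 0, 2233, 16, 4, 3⟩, 36612, 256, 2, 0, [h5, h0 5878], 17, ca3_84, 0, 0⟩)
  (.lf ⟨⟨0, 0, 0, 2288, 16, 4, 3⟩, 37511, 256, 1, 0, [h5, h0 5878], 17, ca3_84, 0, 0⟩))
  (.lf ⟨⟨0, 0, 0, 2344, 16, 3, 2⟩, 39512, 256, 1, 0, [h5, h0 5880], 17, ca3_84, 0, 0⟩)))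
  (.lf ⟨⟨0, 0, 0, 2469, 16, 3, 2⟩, 48309, 256, 1, 0, [h5, h0 5880], 17, ca3_15, 0, 0⟩))
  (.lf ⟨⟨0, 0, 0, 3019, 16, 3, 2⟩, 72215, 256, 1, 0, [h5, h0 5880], 17, ca3_85, 0, 0⟩))
  (.lf ⟨⟨0, 0, 0, 4513, 16, 2, 2⟩, 0, 0, 0, 0, [h5, h0 5882, f6], 0, ca3_11, 0, 0⟩)))

noncomputable def a15_6 : T5 :=
  (.nd 2 1198 .lw
  (.nd 2 1397 (.nd 2 1297 (.nd 2 1247 (.nd 2 1222 (.lf ⟨⟨0, 0, 0, 16270, 256, 7, 5⟩, 17683, 256, 4, 0, [h5, h0 5872], 22, ca3_86, 0, 0⟩)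
  (.lf ⟨⟨0, 0, 0, 1105, 16, 7, 5⟩, 19283, 256, 3, 0, [h5, h0 5872], 17, ca3_87, 0, 0⟩))
  (.lf ⟨⟨0, 0, 0, 1205, 16, 6, 4⟩, 22931, 256, 3, 0, [h5, h0 5874], 17, ca3_88, 0, 0⟩))
  (.lf ⟨⟨0, 0, 0, 1433, 16, 5, 4⟩, 32430, 256, 2, 0, [h5, h0 5876], 17, ca3_89, 0, 0⟩))
  (.lf ⟨⟨0, 0, 0, 2026, 16, 4, 3⟩, 0, 0, 0, 0, [h5, h0 5878, f6], 24, ca3_90, 0, 0⟩)))

noncomputable def a15_7 : T5 :=
  (.nd 2 998 .lw
  (.nd 2 1164 (.nd 2 1081 (.nd 2 1039 (.lf ⟨⟨0, 0, 0, 8135, 256, 14, 9⟩, 9378, 256, 7, 0, [h5, h0 5858], 22, ca3_21, 0, 0⟩)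
  (.lf ⟨⟨0, 0, 0, 9377, 256, 12, 8⟩, 10847, 256, 6, 0, [h5, h0 5862], 17, ca3_91, 0, 0⟩))
  (.lf ⟨⟨0, 0, 0, 10846, 256, 11, 7⟩, 14463, 256, 5, 0, [h5, h0 5864], 17, ca3_23, 0, 0⟩))
  (.lf ⟨⟨0, 0, 0, 14462, 256, 8, 6⟩, 0, 0, 0, 0, [h5, h0 5870], 17, ca3_24, 0, 0⟩)))

noncomputable def a15_8 : T5 :=
  (.nd 2 796 .lw
  (.nd 2 801 (.lf ⟨⟨65992, 256, 3, 4039, 256, 28, 18⟩, 4111, 256, 17, 2, [h5, h0 5840], 22, ca3_92, 0, 0⟩)
  (.nd 2 934 (.nd 2 867 (.nd 2 834 (.lf ⟨⟨82953, 256, 2, 4110, 256, 27, 18⟩, 4609, 256, 15, 2, [h5, h0 5840], 22, ca3_93, 0, 0⟩)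
  (.nd 2 850 (.nd 2 842 (.lf ⟨⟨87683, 256, 2, 4608, 256, 24, 16⟩, 4738, 256, 15, 2, [h5, h0 5846], 17, ca3_27, 0, 0⟩)
  (.lf ⟨⟨92682, 256, 2, 4737, 256, 24, 16⟩, 4871, 256, 14, 2, [h5, h0 5846], 17, ca3_27, 0, 0⟩))
  (.lf ⟨⟨104273, 256, 2, 4870, 256, 23, 15⟩, 5167, 256, 13, 1, [h5, h0 5846], 17, ca3_94, 0, 0⟩)))
  (.lf ⟨⟨165906, 256, 1, 5166, 256, 22, 14⟩, 6518, 256, 11, 1, [h5, h0 5846], 17, ca3_95, 0, 0⟩))
  (.nd 2 1089 (.lf ⟨⟨0, 0, 0, 6517, 256, 17, 12⟩, 11152, 256, 6, 0, [h5, h0 5852], 17, ca3_96, 0, 0⟩)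
  (.lf ⟨⟨0, 0, 0, 11151, 256, 10, 7⟩, 0, 0, 0, 0, [h5, h0 5866], 0, ca3_97, 0, 0⟩)))))

noncomputable def a15_9 : T5 :=
  (.nd 2 592 .lw
  (.nd 2 600 (.lf ⟨⟨16384, 256, 13, 1991, 256, 54, 35⟩, 2048, 256, 33, 10, [h5, h0 5824], 22, ca3_98, 0, 0⟩)
  (.nd 2 700 (.nd 2 650 (.nd 2 625 (.lf ⟨⟨19484, 256, 11, 2048, 256, 53, 34⟩, 2234, 256, 31, 9, [h5, h0 5820], 22, ca3_99, 0, 0⟩)
  (.nd 2 637 (.lf ⟨⟨21174, 256, 10, 2233, 256, 49, 32⟩, 2329, 256, 30, 8, [h5, h0 5824], 17, ca3_100, 0, 0⟩)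
  (.nd 2 643 (.lf ⟨⟨22074, 256, 10, 2328, 256, 47, 31⟩, 2378, 256, 29, 8, [h5, h0 5828], 17, ca3_32, 0, 0⟩)
  (.lf ⟨⟨23171, 256, 9, 2377, 256, 46, 30⟩, 2436, 256, 28, 7, [h5, h0 5826], 17, ca3_32, 0, 0⟩))))
  (.nd 2 675 (.nd 2 662 (.lf ⟨⟨25181, 256, 8, 2435, 256, 45, 29⟩, 2539, 256, 27, 7, [h5, h0 5826], 17, ca3_32, 0, 0⟩)
  (.lf ⟨⟨27555, 256, 8, 2538, 256, 43, 28⟩, 2656, 256, 26, 6, [h5, h0 5828], 17, ca3_32, 0, 0⟩))
  (.lf ⟨⟨32768, 256, 6, 2655, 256, 41, 27⟩, 2897, 256, 24, 5, [h5, h0 5826], 17, ca3_32, 0, 0⟩)))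
  (.nd 2 801 (.nd 2 750 (.nd 2 725 (.lf ⟨⟨38968, 256, 5, 2896, 256, 38, 25⟩, 3159, 256, 22, 4, [h5, h0 5828], 17, ca3_101, 0, 0⟩)
  (.lf ⟨⟨46341, 256, 4, 3158, 256, 35, 23⟩, 3445, 256, 20, 4, [h5, h0 5832], 17, ca3_33, 0, 0⟩))
  (.lf ⟨⟨65992, 256, 3, 3444, 256, 32, 21⟩, 4111, 256, 17, 2, [h5, h0 5832], 17, ca3_102, 0, 0⟩))
  (.lf ⟨⟨0, 0, 0, 4110, 256, 27, 18⟩, 0, 0, 0, 0, [h5, h0 5832], 0, ca3_103, 0, 0⟩)))))

noncomputable def a15_10 : T5 :=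
  (.nd 2 382 .lw
  (.nd 2 400 (.lf ⟨⟨4096, 256, 55, 962, 256, 109, 69⟩, 1024, 256, 64, 35, [h5, h0 5848], 17, ca3_37, 0, 0⟩)
  (.nd 2 500 (.nd 2 450 (.nd 2 425 (.lf ⟨⟨4871, 256, 46, 1024, 256, 102, 65⟩, 1117, 256, 59, 30, [h5, h0 5834], 17, ca3_104, 0, 0⟩)
  (.lf ⟨⟨5793, 256, 39, 1116, 256, 94, 60⟩, 1218, 256, 55, 26, [h5, h0 5828], 17, ca3_39, 0, 0⟩))
  (.nd 2 475 (.nd 2 462 (.lf ⟨⟨6296, 256, 35, 1217, 256, 87, 56⟩, 1270, 256, 52, 24, [h5, h0 5830], 17, ca3_105, 0, 0⟩)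
  (.lf ⟨⟨6889, 256, 32, 1269, 256, 84, 54⟩, 1328, 256, 50, 22, [h5, h0 5826], 17, ca3_105, 0, 0⟩))
  (.nd 2 487 (.lf ⟨⟨7487, 256, 30, 1327, 256, 80, 51⟩, 1385, 256, 48, 21, [h5, h0 5828], 17, ca3_106, 0, 0⟩)
  (.lf ⟨⟨8192, 256, 27, 1384, 256, 77, 49⟩, 1449, 256, 46, 19, [h5, h0 5824], 17, ca3_106, 0, 0⟩))))
  (.nd 2 600 (.nd 2 550 (.nd 2 525 (.nd 2 512 (.lf ⟨⟨8903, 256, 25, 1448, 256, 74, 47⟩, 1510, 256, 45, 18, [h5, h0 5824], 17, ca3_42, 0, 0⟩)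
  (.lf ⟨⟨9742, 256, 23, 1509, 256, 71, 46⟩, 1580, 256, 43, 16, [h5, h0 5822], 17, ca3_42, 0, 0⟩))
  (.nd 2 537 (.lf ⟨⟨10587, 256, 21, 1579, 256, 68, 44⟩, 1647, 256, 41, 15, [h5, h0 5822], 17, ca3_42, 0, 0⟩)
  (.lf ⟨⟨11586, 256, 19, 1646, 256, 65, 42⟩, 1723, 256, 39, 14, [h5, h0 5822], 17, ca3_107, 0, 0⟩)))
  (.nd 2 575 (.nd 2 562 (.lf ⟨⟨12591, 256, 17, 1722, 256, 63, 40⟩, 1796, 256, 38, 13, [h5, h0 5820], 17, ca3_45, 0, 0⟩)
  (.lf ⟨⟨13778, 256, 16, 1795, 256, 60, 39⟩, 1879, 256, 36, 12, [h5, h0 5822], 17, ca3_108, 0, 0⟩))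
  (.nd 2 587 (.lf ⟨⟨14973, 256, 14, 1878, 256, 58, 37⟩, 1958, 256, 35, 11, [h5, h0 5820], 17, ca3_109, 0, 0⟩)
  (.lf ⟨⟨16384, 256, 13, 1957, 256, 55, 36⟩, 2048, 256, 33, 10, [h5, h0 5822], 0, ca3_110, 0, 0⟩))))
  (.nd 2 700 (.lf ⟨⟨32768, 256, 6, 2048, 256, 53, 34⟩, 2897, 256, 24, 5, [h5, h0 5802], 0, ca3_111, 0, 0⟩)
  (.lf ⟨⟨0, 0, 0, 2896, 256, 38, 25⟩, 0, 0, 0, 0, [h5, h0 5810], 0, ca3_112, 0, 0⟩))))))

noncomputable def a15_11 : T5 :=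
  (.nd 2 266 .lw
  (.nd 2 300 (.nd 2 283 (.lf ⟨⟨1821, 256, 131, 643, 256, 158, 97⟩, 683, 256, 91, 66, [h5, h0 5964], 22, ca3_113, 0, 0⟩)
  (.lf ⟨⟨2048, 256, 115, 682, 256, 149, 92⟩, 725, 256, 87, 61, [h5, h0 5940], 22, ca3_114, 0, 0⟩))
  (.nd 2 400 (.nd 2 350 (.nd 2 325 (.nd 2 312 (.lf ⟨⟨2226, 256, 105, 724, 256, 141, 88⟩, 755, 256, 84, 57, [h5, h0 5928], 17, ca3_115, 0, 0⟩)
  (.lf ⟨⟨2436, 256, 96, 754, 256, 136, 85⟩, 790, 256, 80, 53, [h5, h0 5912], 17, ca3_116, 0, 0⟩))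
  (.lf ⟨⟨2897, 256, 80, 789, 256, 131, 82⟩, 862, 256, 75, 46, [h5, h0 5876], 17, ca3_117, 0, 0⟩))
  (.nd 2 375 (.nd 2 362 (.lf ⟨⟨3148, 256, 73, 861, 256, 120, 76⟩, 898, 256, 72, 43, [h5, h0 5878], 17, ca3_118, 0, 0⟩)
  (.lf ⟨⟨3445, 256, 66, 897, 256, 116, 73⟩, 940, 256, 69, 40, [h5, h0 5866], 17, ca3_119, 0, 0⟩))
  (.lf ⟨⟨4096, 256, 55, 939, 256, 111, 70⟩, 1024, 256, 64, 35, [h5, h0 5844], 0, ca3_120, 0, 0⟩)))
  (.nd 2 500 (.lf ⟨⟨8192, 256, 27, 1024, 256, 102, 65⟩, 1449, 256, 46, 19, [h5, h0 5774], 0, ca3_121, 0, 0⟩)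
  (.lf ⟨⟨0, 0, 0, 1448, 256, 74, 47⟩, 0, 0, 0, 0, [h5, h0 5738], 0, ca3_122, 0, 0⟩)))))

noncomputable def a15_12 : T5 :=
  (.nd 2 99 .lw
  (.nd 2 159 (.nd 2 129 (.lf ⟨⟨626, 256, 455, 360, 256, 264, 155⟩, 401, 256, 142, 142, [h5, h0 6552], 17, ca3_123, 0, 0⟩)
  (.lf ⟨⟨771, 256, 349, 400, 256, 241, 143⟩, 445, 256, 131, 123, [h5, h0 6348], 17, ca3_124, 0, 0⟩))
  (.nd 2 200 (.lf ⟨⟨1024, 256, 249, 444, 256, 220, 132⟩, 512, 256, 116, 101, [h5, h0 6146], 17, ca3_125, 0, 0⟩)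
  (.nd 2 300 (.nd 2 250 (.nd 2 225 (.lf ⟨⟨1218, 256, 204, 512, 256, 194, 117⟩, 559, 256, 108, 89, [h5, h0 6084], 12, ca3_126, 0, 0⟩)
  (.nd 2 237 (.lf ⟨⟨1324, 256, 185, 558, 256, 179, 109⟩, 583, 256, 105, 84, [h5, h0 6066], 12, ca3_127, 0, 0⟩)
  (.lf ⟨⟨1449, 256, 168, 582, 256, 173, 106⟩, 609, 256, 101, 79, [h5, h0 6034], 12, ca3_128, 0, 0⟩)))
  (.nd 2 275 (.nd 2 262 (.lf ⟨⟨1574, 256, 153, 608, 256, 166, 102⟩, 635, 256, 97, 74, [h5, h0 6008], 0, ca3_129, 0, 0⟩)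
  (.lf ⟨⟨1723, 256, 139, 634, 256, 160, 98⟩, 664, 256, 94, 69, [h5, h0 5982], 0, ca3_130, 0, 0⟩))
  (.lf ⟨⟨2048, 256, 115, 663, 256, 153, 95⟩, 725, 256, 87, 61, [h5, h0 5932], 0, ca3_131, 0, 0⟩)))
  (.nd 2 400 (.lf ⟨⟨4096, 256, 55, 724, 256, 141, 88⟩, 1024, 256, 64, 35, [h5, h0 5784], 0, ca3_132, 0, 0⟩)
  (.lf ⟨⟨0, 0, 0, 1024, 256, 102, 65⟩, 0, 0, 0, 0, [h5, h0 5682], 0, ca3_133, 0, 0⟩))))))

noncomputable def a15_13 : T5 :=
  (.nd 2 99 (.nd 2 59 (.lf ⟨⟨386, 256, 942, 256, 256, 351, 200⟩, 315, 256, 171, 194, [h5, h0 7456], 0, ca3_134, 0, 0⟩)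
  (.nd 2 93 (.lf ⟨⟨488, 256, 643, 314, 256, 296, 173⟩, 354, 256, 156, 167, [h5, h0 6914], 0, ca3_135, 0, 0⟩)
  (.lf ⟨⟨509, 256, 605, 353, 256, 268, 158⟩, 361, 256, 154, 163, [h5, h0 6886], 0, ca3_136, 0, 0⟩)))
  (.nd 2 159 (.nd 2 129 (.lf ⟨⟨626, 256, 455, 360, 256, 264, 155⟩, 401, 256, 142, 142, [h5, h0 6552], 0, ca3_137, 0, 0⟩)
  (.lf ⟨⟨771, 256, 349, 400, 256, 241, 143⟩, 445, 256, 131, 123, [h5, h0 6348], 0, ca3_138, 0, 0⟩))
  (.nd 2 200 (.lf ⟨⟨1024, 256, 249, 444, 256, 220, 132⟩, 512, 256, 116, 101, [h5, h0 6146], 0, ca3_139, 0, 0⟩)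
  (.nd 2 300 (.lf ⟨⟨2048, 256, 115, 512, 256, 194, 117⟩, 725, 256, 87, 61, [h5, h0 5850], 0, ca3_140, 0, 0⟩)
  (.lf ⟨⟨0, 0, 0, 724, 256, 141, 88⟩, 0, 0, 0, 0, [h5, h0 5604], 0, ca3_141, 0, 0⟩)))))

theorem sa15 : SA cs15.st (bxL 703 715) :=
  sa_nd 100 (sa_rc 1 2 0 1 15331547 2387 a15_0 (by decide +kernel)) <|
  sa_nd 200 (sa_rc 2 4 0 1 9569419 2319 a15_1 (by decide +kernel)) <|
  sa_nd 300 (sa_rc 4 8 1 2 213318142629234 4760 a15_2 (by decide +kernel)) <|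
  sa_nd 358 (sa_rc 8 11 0 1 3313673 2166 a15_3 (by decide +kernel)) <|
  sa_nd 458 (sa_rc 12 23 1 2 71351055239861 4602 a15_4 (by decide +kernel)) <|
  sa_nd 558 (sa_rc 24 47 1 1 36718403 2513 a15_5 (by decide +kernel)) <|
  sa_nd 658 (sa_rc 48 95 1 1 37230973 2515 a15_6 (by decide +kernel)) <|
  sa_nd 758 (sa_rc 96 191 1 1 37230973 2515 a15_7 (by decide +kernel)) <|
  sa_nd 858 (sa_rc 192 382 1 1 36718403 2513 a15_8 (by decide +kernel)) <|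
  sa_nd 958 (sa_rc 383 765 1 1 35714336 2509 a15_9 (by decide +kernel)) <|
  sa_nd 1058 (sa_rc 766 1530 1 1 33322654 2499 a15_10 (by decide +kernel)) <|
  sa_nd 1108 (sa_rc 1531 2164 1 1 29824611 2483 a15_11 (by decide +kernel)) <|
  sa_nd 1158 (sa_rc 2165 3061 2 1 57386804851 3574 a15_12 (by decide +kernel)) <|
  sa_no a15_13 (by decide +kernel)

noncomputable def a16_0 : T5 :=
  (.nd 2 2326 .lw
  (.lf ⟨⟨0, 0, 0, 50710, 16, 1, 1⟩, 0, 0, 0, 0, [h5, h0 5884, f10], 26, ca3_0, 0, 0⟩))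

noncomputable def a16_1 : T5 :=
  (.nd 2 2154 .lw
  (.lf ⟨⟨0, 0, 0, 27939, 16, 1, 1⟩, 0, 0, 0, 0, [h5, h0 5884, f9], 26, ca3_76, 0, 0⟩))

noncomputable def a16_2 : T5 :=
  (.nd 2 1971 .lw
  (.nd 2 2299 (.nd 2 2135 (.nd 2 2053 (.nd 2 2012 (.lf ⟨⟨0, 0, 0, 14817, 16, 1, 1⟩, 0, 0, 0, 0, [h5, h0 5884], 11, ca3_142, 0, 0⟩)
  (.lf ⟨⟨0, 0, 0, 17079, 16, 1, 1⟩, 0, 0, 0, 0, [h5, h0 5884, f8], 13, ca3_79, 0, 0⟩))
  (.lf ⟨⟨0, 0, 0, 19687, 16, 1, 1⟩, 0, 0, 0, 0, [h5, h0 5884, f8], 13, ca3_79, 0, 0⟩))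
  (.lf ⟨⟨0, 0, 0, 26158, 16, 1, 1⟩, 0, 0, 0, 0, [h5, h0 5884, f8], 0, ca3_80, 0, 0⟩))
  (.lf ⟨⟨0, 0, 0, 46180, 16, 1, 1⟩, 0, 0, 0, 0, [h5, h0 5884, f8], 0, ca3_81, 0, 0⟩)))

noncomputable def a16_3 : T5 :=
  (.nd 2 1842 .lw
  (.lf ⟨⟨0, 0, 0, 9475, 16, 1, 1⟩, 0, 0, 0, 0, [h5, h0 5884, f11], 26, ca3_7, 0, 0⟩))

noncomputable def a16_4 : T5 :=
  (.nd 2 1645 .lw
  (.nd 2 1919 (.nd 2 1782 (.nd 2 1713 (.nd 2 1679 (.lf ⟨⟨0, 0, 0, 4787, 16, 2, 1⟩, 0, 0, 0, 0, [h5, h0 5882], 11, ca3_82, 0, 0⟩)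
  (.nd 2 1696 (.nd 2 1687 (.lf ⟨⟨0, 0, 0, 5386, 16, 2, 1⟩, 0, 0, 0, 0, [h5, h0 5882], 11, ca3_143, 0, 0⟩)
  (.lf ⟨⟨0, 0, 0, 5537, 16, 2, 1⟩, 0, 0, 0, 0, [h5, h0 5882, f7], 12, ca3_11, 0, 0⟩))
  (.lf ⟨⟨0, 0, 0, 5712, 16, 2, 1⟩, 0, 0, 0, 0, [h5, h0 5882, f7], 12, ca3_11, 0, 0⟩)))
  (.lf ⟨⟨0, 0, 0, 6059, 16, 2, 1⟩, 0, 0, 0, 0, [h5, h0 5882, f7], 12, ca3_11, 0, 0⟩))
  (.lf ⟨⟨0, 0, 0, 7696, 16, 1, 1⟩, 0, 0, 0, 0, [h5, h0 5884, f7], 12, ca3_11, 0, 0⟩))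
  (.lf ⟨⟨0, 0, 0, 12373, 16, 1, 1⟩, 0, 0, 0, 0, [h5, h0 5884, f7], 0, ca3_12, 0, 0⟩)))

noncomputable def a16_5 : T5 :=
  (.nd 2 1428 .lw
  (.nd 2 1666 (.nd 2 1547 (.nd 2 1487 (.nd 2 1457 (.lf ⟨⟨0, 0, 0, 2256, 16, 4, 3⟩, 39925, 256, 1, 0, [h5, h0 5878], 22, ca3_144, 0, 0⟩)
  (.nd 2 1472 (.nd 2 1464 (.lf ⟨⟨0, 0, 0, 2495, 16, 3, 2⟩, 40906, 256, 1, 0, [h5, h0 5880], 22, ca3_145, 0, 0⟩)
  (.lf ⟨⟨0, 0, 0, 2556, 16, 3, 2⟩, 42056, 256, 1, 0, [h5, h0 5880], 17, ca3_146, 0, 0⟩))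
  (.lf ⟨⟨0, 0, 0, 2628, 16, 3, 2⟩, 44300, 256, 1, 0, [h5, h0 5880], 17, ca3_146, 0, 0⟩)))
  (.lf ⟨⟨0, 0, 0, 2768, 16, 3, 2⟩, 54539, 256, 1, 0, [h5, h0 5880], 17, ca3_146, 0, 0⟩))
  (.lf ⟨⟨0, 0, 0, 3408, 16, 3, 2⟩, 0, 0, 0, 0, [h5, h0 5880, f6], 24, ca3_147, 0, 0⟩))
  (.lf ⟨⟨0, 0, 0, 5148, 16, 2, 1⟩, 0, 0, 0, 0, [h5, h0 5882, f6], 0, ca3_11, 0, 0⟩)))

noncomputable def a16_6 : T5 :=
  (.nd 2 1230 .lw
  (.nd 2 1435 (.nd 2 1332 (.nd 2 1281 (.nd 2 1255 (.lf ⟨⟨0, 0, 0, 1136, 16, 7, 5⟩, 19825, 256, 3, 0, [h5, h0 5872], 22, ca3_148, 0, 0⟩)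
  (.lf ⟨⟨0, 0, 0, 1239, 16, 6, 4⟩, 21694, 256, 3, 0, [h5, h0 5874], 17, ca3_149, 0, 0⟩))
  (.lf ⟨⟨0, 0, 0, 1355, 16, 6, 4⟩, 25889, 256, 2, 0, [h5, h0 5874], 17, ca3_149, 0, 0⟩))
  (.lf ⟨⟨0, 0, 0, 1618, 16, 5, 3⟩, 36994, 256, 1, 0, [h5, h0 5876], 17, ca3_148, 0, 0⟩))
  (.lf ⟨⟨0, 0, 0, 2312, 16, 3, 2⟩, 0, 0, 0, 0, [h5, h0 5880, f6], 0, ca3_147, 0, 0⟩)))

noncomputable def a16_7 : T5 :=
  (.nd 2 1030 .lw
  (.nd 2 1201 (.nd 2 1115 (.nd 2 1072 (.nd 2 1051 (.lf ⟨⟨0, 0, 0, 9089, 256, 13, 9⟩, 9776, 256, 7, 0, [h5, h0 5860], 22, ca3_150, 0, 0⟩)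
  (.lf ⟨⟨0, 0, 0, 9775, 256, 12, 8⟩, 10514, 256, 6, 0, [h5, h0 5862], 22, ca3_151, 0, 0⟩))
  (.lf ⟨⟨0, 0, 0, 10513, 256, 11, 7⟩, 12204, 256, 5, 0, [h5, h0 5864], 17, ca3_151, 0, 0⟩))
  (.lf ⟨⟨0, 0, 0, 12203, 256, 10, 6⟩, 16441, 256, 4, 0, [h5, h0 5866], 17, ca3_152, 0, 0⟩))
  (.lf ⟨⟨0, 0, 0, 1027, 16, 7, 5⟩, 0, 0, 0, 0, [h5, h0 5872], 17, ca3_153, 0, 0⟩)))

noncomputable def a16_8 : T5 :=
  (.nd 2 830 .lw
  (.nd 2 968 (.nd 2 899 (.nd 2 864 (.lf ⟨⟨102127, 256, 2, 4544, 256, 25, 16⟩, 5114, 256, 14, 1, [h5, h0 5842], 22, ca3_96, 0, 0⟩)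
  (.lf ⟨⟨130167, 256, 1, 5113, 256, 22, 15⟩, 5773, 256, 12, 1, [h5, h0 5846], 17, ca3_154, 0, 0⟩))
  (.lf ⟨⟨209996, 256, 1, 5772, 256, 19, 13⟩, 7333, 256, 9, 0, [h5, h0 5850], 17, ca3_154, 0, 0⟩))
  (.lf ⟨⟨0, 0, 0, 7332, 256, 15, 10⟩, 0, 0, 0, 0, [h5, h0 5856], 17, ca3_155, 0, 0⟩)))

noncomputable def a16_9 : T5 :=
  (.nd 2 626 .lw
  (.nd 2 730 (.nd 2 678 (.nd 2 652 (.lf ⟨⟨23494, 256, 9, 2241, 256, 49, 32⟩, 2453, 256, 28, 7, [h5, h0 5820], 22, ca3_156, 0, 0⟩)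
  (.nd 2 665 (.lf ⟨⟨25710, 256, 8, 2452, 256, 45, 29⟩, 2566, 256, 27, 7, [h5, h0 5826], 17, ca3_32, 0, 0⟩)
  (.lf ⟨⟨28134, 256, 7, 2565, 256, 43, 28⟩, 2684, 256, 26, 6, [h5, h0 5826], 17, ca3_32, 0, 0⟩)))
  (.nd 2 704 (.lf ⟨⟨33690, 256, 6, 2683, 256, 41, 27⟩, 2937, 256, 24, 5, [h5, h0 5826], 17, ca3_32, 0, 0⟩)
  (.lf ⟨⟨40343, 256, 5, 2936, 256, 37, 25⟩, 3214, 256, 22, 4, [h5, h0 5830], 17, ca3_101, 0, 0⟩)))
  (.nd 2 801 (.nd 2 765 (.lf ⟨⟨51419, 256, 4, 3213, 256, 34, 23⟩, 3629, 256, 19, 3, [h5, h0 5832], 17, ca3_157, 0, 0⟩)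
  (.lf ⟨⟨65992, 256, 3, 3628, 256, 31, 20⟩, 4111, 256, 17, 2, [h5, h0 5834], 17, ca3_102, 0, 0⟩))
  (.nd 2 934 (.lf ⟨⟨165906, 256, 1, 4110, 256, 27, 18⟩, 6518, 256, 11, 1, [h5, h0 5836], 17, ca3_158, 0, 0⟩)
  (.lf ⟨⟨0, 0, 0, 6517, 256, 17, 12⟩, 0, 0, 0, 0, [h5, h0 5852], 0, ca3_159, 0, 0⟩)))))

noncomputable def a16_10 : T5 :=
  (.nd 2 416 .lw
  (.nd 2 500 (.nd 2 458 (.nd 2 437 (.lf ⟨⟨5294, 256, 42, 1082, 256, 97, 62⟩, 1165, 256, 57, 28, [h5, h0 5832], 17, ca3_160, 0, 0⟩)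
  (.lf ⟨⟨6123, 256, 36, 1164, 256, 91, 58⟩, 1252, 256, 53, 25, [h5, h0 5826], 17, ca3_160, 0, 0⟩))
  (.nd 2 479 (.nd 2 468 (.lf ⟨⟨6563, 256, 34, 1251, 256, 85, 54⟩, 1297, 256, 51, 23, [h5, h0 5830], 17, ca3_160, 0, 0⟩)
  (.lf ⟨⟨7083, 256, 31, 1296, 256, 82, 53⟩, 1347, 256, 50, 22, [h5, h0 5828], 17, ca3_160, 0, 0⟩))
  (.nd 2 489 (.lf ⟨⟨7591, 256, 29, 1346, 256, 79, 51⟩, 1394, 256, 48, 21, [h5, h0 5828], 17, ca3_106, 0, 0⟩)
  (.lf ⟨⟨8192, 256, 27, 1393, 256, 77, 49⟩, 1449, 256, 46, 19, [h5, h0 5824], 17, ca3_106, 0, 0⟩))))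
  (.nd 2 600 (.nd 2 550 (.nd 2 525 (.nd 2 512 (.lf ⟨⟨8903, 256, 25, 1448, 256, 74, 47⟩, 1510, 256, 45, 18, [h5, h0 5824], 17, ca3_161, 0, 0⟩)
  (.lf ⟨⟨9742, 256, 23, 1509, 256, 71, 46⟩, 1580, 256, 43, 16, [h5, h0 5822], 17, ca3_161, 0, 0⟩))
  (.nd 2 537 (.lf ⟨⟨10587, 256, 21, 1579, 256, 68, 44⟩, 1647, 256, 41, 15, [h5, h0 5822], 17, ca3_162, 0, 0⟩)
  (.nd 2 543 (.lf ⟨⟨11037, 256, 20, 1646, 256, 65, 42⟩, 1681, 256, 40, 15, [h5, h0 5826], 17, ca3_107, 0, 0⟩)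
  (.lf ⟨⟨11586, 256, 19, 1680, 256, 64, 41⟩, 1723, 256, 39, 14, [h5, h0 5824], 17, ca3_163, 0, 0⟩))))
  (.nd 2 575 (.nd 2 562 (.lf ⟨⟨12591, 256, 17, 1722, 256, 63, 40⟩, 1796, 256, 38, 13, [h5, h0 5820], 17, ca3_163, 0, 0⟩)
  (.lf ⟨⟨13778, 256, 16, 1795, 256, 60, 39⟩, 1879, 256, 36, 12, [h5, h0 5822], 17, ca3_164, 0, 0⟩))
  (.nd 2 587 (.lf ⟨⟨14973, 256, 14, 1878, 256, 58, 37⟩, 1958, 256, 35, 11, [h5, h0 5820], 17, ca3_165, 0, 0⟩)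
  (.lf ⟨⟨16384, 256, 13, 1957, 256, 55, 36⟩, 2048, 256, 33, 10, [h5, h0 5822], 17, ca3_166, 0, 0⟩))))
  (.nd 2 700 (.nd 2 650 (.nd 2 625 (.nd 2 612 (.lf ⟨⟨17806, 256, 12, 2048, 256, 53, 34⟩, 2135, 256, 32, 9, [h5, h0 5822], 17, ca3_167, 0, 0⟩)
  (.lf ⟨⟨19484, 256, 11, 2134, 256, 51, 33⟩, 2234, 256, 31, 9, [h5, h0 5824], 17, ca3_167, 0, 0⟩))
  (.lf ⟨⟨23171, 256, 9, 2233, 256, 49, 32⟩, 2436, 256, 28, 7, [h5, h0 5820], 0, ca3_168, 0, 0⟩))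
  (.lf ⟨⟨32768, 256, 6, 2435, 256, 45, 29⟩, 2897, 256, 24, 5, [h5, h0 5818], 0, ca3_169, 0, 0⟩))
  (.lf ⟨⟨0, 0, 0, 2896, 256, 38, 25⟩, 0, 0, 0, 0, [h5, h0 5810], 0, ca3_170, 0, 0⟩)))))

noncomputable def a16_11 : T5 :=
  (.nd 2 302 .lw
  (.nd 2 400 (.nd 2 351 (.nd 2 326 (.lf ⟨⟨2453, 256, 95, 729, 256, 141, 87⟩, 793, 256, 80, 53, [h5, h0 5900], 22, ca3_171, 0, 0⟩)
  (.lf ⟨⟨2917, 256, 79, 792, 256, 130, 81⟩, 865, 256, 74, 46, [h5, h0 5876], 17, ca3_172, 0, 0⟩))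
  (.nd 2 375 (.lf ⟨⟨3445, 256, 66, 864, 256, 120, 75⟩, 940, 256, 69, 40, [h5, h0 5858], 17, ca3_173, 0, 0⟩)
  (.nd 2 387 (.lf ⟨⟨3744, 256, 61, 939, 256, 111, 70⟩, 979, 256, 67, 38, [h5, h0 5862], 17, ca3_174, 0, 0⟩)
  (.lf ⟨⟨4096, 256, 55, 978, 256, 107, 68⟩, 1024, 256, 64, 35, [h5, h0 5852], 17, ca3_175, 0, 0⟩))))
  (.nd 2 500 (.nd 2 450 (.nd 2 425 (.nd 2 412 (.lf ⟨⟨4452, 256, 51, 1024, 256, 102, 65⟩, 1068, 256, 61, 32, [h5, h0 5848], 17, ca3_176, 0, 0⟩)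
  (.lf ⟨⟨4871, 256, 46, 1067, 256, 99, 63⟩, 1117, 256, 59, 30, [h5, h0 5840], 0, ca3_177, 0, 0⟩))
  (.lf ⟨⟨5793, 256, 39, 1116, 256, 94, 60⟩, 1218, 256, 55, 26, [h5, h0 5828], 0, ca3_178, 0, 0⟩))
  (.lf ⟨⟨8192, 256, 27, 1217, 256, 87, 56⟩, 1449, 256, 46, 19, [h5, h0 5804], 0, ca3_179, 0, 0⟩))
  (.lf ⟨⟨0, 0, 0, 1448, 256, 74, 47⟩, 0, 0, 0, 0, [h5, h0 5738], 0, ca3_180, 0, 0⟩))))

noncomputable def a16_12 : T5 :=
  (.nd 2 149 .lw
  (.nd 2 200 (.lf ⟨⟨1024, 256, 249, 429, 256, 227, 136⟩, 512, 256, 116, 101, [h5, h0 6132], 17, ca3_181, 0, 0⟩)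
  (.nd 2 300 (.nd 2 250 (.nd 2 225 (.lf ⟨⟨1218, 256, 204, 512, 256, 194, 117⟩, 559, 256, 108, 89, [h5, h0 6084], 12, ca3_182, 0, 0⟩)
  (.nd 2 237 (.lf ⟨⟨1324, 256, 185, 558, 256, 179, 109⟩, 583, 256, 105, 84, [h5, h0 6066], 12, ca3_183, 0, 0⟩)
  (.lf ⟨⟨1449, 256, 168, 582, 256, 173, 106⟩, 609, 256, 101, 79, [h5, h0 6034], 12, ca3_184, 0, 0⟩)))
  (.nd 2 275 (.nd 2 262 (.lf ⟨⟨1574, 256, 153, 608, 256, 166, 102⟩, 635, 256, 97, 74, [h5, h0 6008], 12, ca3_185, 0, 0⟩)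
  (.lf ⟨⟨1723, 256, 139, 634, 256, 160, 98⟩, 664, 256, 94, 69, [h5, h0 5982], 12, ca3_186, 0, 0⟩))
  (.nd 2 287 (.lf ⟨⟨1872, 256, 127, 663, 256, 153, 95⟩, 693, 256, 90, 65, [h5, h0 5964], 12, ca3_187, 0, 0⟩)
  (.lf ⟨⟨2048, 256, 115, 692, 256, 147, 91⟩, 725, 256, 87, 61, [h5, h0 5944], 12, ca3_188, 0, 0⟩))))
  (.nd 2 400 (.nd 2 350 (.nd 2 325 (.lf ⟨⟨2436, 256, 96, 724, 256, 141, 88⟩, 790, 256, 80, 53, [h5, h0 5902], 0, ca3_189, 0, 0⟩)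
  (.lf ⟨⟨2897, 256, 80, 789, 256, 131, 82⟩, 862, 256, 75, 46, [h5, h0 5876], 0, ca3_190, 0, 0⟩))
  (.lf ⟨⟨4096, 256, 55, 861, 256, 120, 76⟩, 1024, 256, 64, 35, [h5, h0 5826], 0, ca3_191, 0, 0⟩))
  (.lf ⟨⟨0, 0, 0, 1024, 256, 102, 65⟩, 0, 0, 0, 0, [h5, h0 5682], 0, ca3_192, 0, 0⟩)))))

noncomputable def a16_13 : T5 :=
  (.nd 2 99 (.nd 2 59 (.lf ⟨⟨386, 256, 942, 256, 256, 351, 200⟩, 315, 256, 171, 194, [h5, h0 7456], 0, ca3_193, 0, 0⟩)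
  (.nd 2 93 (.lf ⟨⟨488, 256, 643, 314, 256, 296, 173⟩, 354, 256, 156, 167, [h5, h0 6914], 0, ca3_194, 0, 0⟩)
  (.lf ⟨⟨509, 256, 605, 353, 256, 268, 158⟩, 361, 256, 154, 163, [h5, h0 6886], 0, ca3_195, 0, 0⟩)))
  (.nd 2 159 (.nd 2 129 (.nd 2 114 (.lf ⟨⟨565, 256, 522, 360, 256, 264, 155⟩, 381, 256, 148, 152, [h5, h0 6706], 0, ca3_196, 0, 0⟩)
  (.lf ⟨⟨626, 256, 455, 380, 256, 252, 149⟩, 401, 256, 142, 142, [h5, h0 6576], 0, ca3_197, 0, 0⟩))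
  (.nd 2 144 (.lf ⟨⟨695, 256, 397, 400, 256, 241, 143⟩, 422, 256, 136, 133, [h5, h0 6464], 0, ca3_198, 0, 0⟩)
  (.lf ⟨⟨771, 256, 349, 421, 256, 230, 138⟩, 445, 256, 131, 123, [h5, h0 6370], 0, ca3_199, 0, 0⟩)))
  (.nd 2 200 (.lf ⟨⟨1024, 256, 249, 444, 256, 220, 132⟩, 512, 256, 116, 101, [h5, h0 6146], 0, ca3_200, 0, 0⟩)
  (.nd 2 300 (.lf ⟨⟨2048, 256, 115, 512, 256, 194, 117⟩, 725, 256, 87, 61, [h5, h0 5850], 0, ca3_201, 0, 0⟩)
  (.lf ⟨⟨0, 0, 0, 724, 256, 141, 88⟩, 0, 0, 0, 0, [h5, h0 5604], 0, ca3_202, 0, 0⟩)))))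

theorem sa16 : SA cs16.st (bxL 715 727) :=
  sa_nd 100 (sa_rc 1 2 0 1 20230098 2427 a16_0 (by decide +kernel)) <|
  sa_nd 200 (sa_rc 2 4 0 1 12281640 2355 a16_1 (by decide +kernel)) <|
  sa_nd 300 (sa_rc 4 8 1 2 381850171473908 4844 a16_2 (by decide +kernel)) <|
  sa_nd 364 (sa_rc 8 12 0 1 4402830 2207 a16_3 (by decide +kernel)) <|
  sa_nd 464 (sa_rc 13 24 1 2 125963580497452 4684 a16_4 (by decide +kernel)) <|
  sa_nd 564 (sa_rc 25 49 1 1 49812345 2557 a16_5 (by decide +kernel)) <|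
  sa_nd 664 (sa_rc 50 99 1 1 50507699 2559 a16_6 (by decide +kernel)) <|
  sa_nd 764 (sa_rc 100 199 1 1 50507699 2559 a16_7 (by decide +kernel)) <|
  sa_nd 864 (sa_rc 200 398 1 1 50507699 2559 a16_8 (by decide +kernel)) <|
  sa_nd 964 (sa_rc 399 797 1 1 49126563 2555 a16_9 (by decide +kernel)) <|
  sa_nd 1064 (sa_rc 798 1595 1 1 45836704 2545 a16_10 (by decide +kernel)) <|
  sa_nd 1114 (sa_rc 1596 2256 1 1 41597687 2531 a16_11 (by decide +kernel)) <|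
  sa_nd 1164 (sa_rc 2257 3191 2 1 91941681475 3642 a16_12 (by decide +kernel)) <|
  sa_no a16_13 (by decide +kernel)

end Pool.Agent.MP_2339ce_nt.Q2.TB.RT
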