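import Pool.Agent.MP_2339ce_nt.Q2.RTc
import Pool.Agent.MP_2339ce_nt.Q2.RS

/-! Project Q2, block RT: staircases. -/

set_option autoImplicit false

noncomputable section

namespace Pool.Agent.MP_2339ce_nt.Q2.TB.RT

noncomputable def ca4_0 : List VW := k1 v1 (k1 v144 (k1 v418 (k1 v433 (k1 v160 (k1 v167 (k1 v586 (k0)))))))
noncomputable def ca4_1 : List VW := k8 v1 v144 v418 v149 v155 v160 v167 v586 (k0)
noncomputable def ca4_2 : List VW := k8 v416 v144 v422 v149 v426 v160 v441 v167 (k8 v452 v174 v464 v180 v469 v186 v476 v190 (k8 v480 v195 v485 v199 v488 v202 v493 v205 (k8 v496 v207 v502 v211 v505 v513 v218 v514 (k8 v519 v224 v226 v229 v230 v232 v233 v235 (k8 v237 v240 v241 v244 v245 v248 v249 v251 (k1 v252 (k1 v254 (k1 v255 (k1 v256 (k1 v257 (k1 v259 (k1 v603 (k0)))))))))))))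
noncomputable def ca4_3 : List VW := k1 v1 (k1 v144 (k1 v418 (k1 v434 (k1 v160 (k1 v167 (k1 v586 (k0)))))))
noncomputable def ca4_4 : List VW := k1 v1 (k1 v144 (k1 v0 (k1 v149 (k1 v160 (k1 v167 (k1 v586 (k0)))))))
noncomputable def ca4_5 : List VW := k8 v1 v144 v418 v149 v155 v160 v441 v586 (k0)
noncomputable def ca4_6 : List VW := k8 v1 v144 v417 v418 v151 v427 v160 v442 (k8 v167 v452 v174 v464 v180 v469 v186 v476 (k8 v190 v480 v195 v485 v199 v488 v202 v493 (k8 v205 v496 v207 v502 v211 v505 v513 v218 (k8 v514 v519 v224 v226 v229 v230 v232 v233 (k8 v235 v237 v240 v241 v244 v245 v248 v249 (k8 v251 v252 v254 v255 v256 v257 v259 v260 (k1 v261 (k1 v604 (k0)))))))))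
noncomputable def ca4_7 : List VW := k8 v1 v144 v418 v149 v152 v160 v167 v586 (k0)
noncomputable def ca4_8 : List VW := k1 v145 (k1 v418 (k1 v433 (k1 v160 (k1 v167 (k1 v586 (k0))))))
noncomputable def ca4_9 : List VW := k8 v1 v144 v417 v421 v149 v433 v426 v160 (k8 v443 v167 v453 v174 v464 v180 v469 v186 (k8 v476 v190 v480 v195 v485 v199 v488 v202 (k8 v493 v205 v496 v207 v502 v211 v505 v513 (k8 v218 v514 v519 v224 v226 v229 v230 v232 (k8 v233 v235 v237 v240 v241 v244 v245 v247 (k8 v249 v251 v252 v254 v255 v256 v257 v259 (k1 v603 (k0))))))))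
noncomputable def ca4_10 : List VW := k8 v1 v144 v417 v421 v149 v433 v426 v160 (k8 v443 v167 v453 v174 v464 v180 v470 v186 (k8 v476 v190 v480 v195 v485 v199 v488 v202 (k8 v493 v205 v496 v207 v502 v508 v214 v511 (k8 v516 v220 v518 v223 v226 v229 v230 v232 (k8 v233 v235 v237 v240 v241 v244 v245 v248 (k8 v249 v251 v252 v254 v255 v256 v257 v259 (k1 v260 (k1 v261 (k1 v604 (k0))))))))))
noncomputable def ca4_11 : List VW := k8 v1 v144 v418 v149 v158 v160 v441 v586 (k0)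
noncomputable def ca4_12 : List VW := k8 v1 v144 v417 v422 v149 v433 v426 v160 (k8 v443 v169 v453 v174 v464 v180 v470 v186 (k8 v476 v190 v480 v195 v485 v199 v488 v202 (k8 v493 v205 v496 v207 v502 v211 v505 v513 (k8 v218 v514 v519 v224 v226 v229 v230 v232 (k8 v233 v235 v237 v239 v241 v244 v245 v247 (k1 v249 (k1 v251 (k1 v252 (k1 v254 (k1 v255 (k1 v256 (k1 v602 (k0)))))))))))))
noncomputable def ca4_13 : List VW := k8 v1 v144 v423 v418 v149 v433 v426 v160 (k8 v444 v167 v460 v452 v174 v465 v180 v470 (k8 v186 v476 v190 v480 v195 v485 v199 v488 (k8 v202 v493 v205 v496 v207 v502 v211 v505 (k8 v213 v511 v516 v220 v518 v223 v226 v229 (k8 v230 v232 v233 v235 v237 v239 v241 v244 (k8 v245 v247 v249 v251 v252 v254 v255 v256 (k1 v257 (k1 v259 (k1 v260 (k1 v261 (k1 v604 (k0))))))))))))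
noncomputable def ca4_14 : List VW := k8 v1 v144 v423 v418 v149 v433 v426 v160 (k8 v443 v167 v460 v452 v174 v464 v180 v470 (k8 v186 v476 v190 v480 v195 v485 v199 v488 (k8 v202 v493 v205 v496 v207 v502 v211 v505 (k8 v213 v511 v516 v220 v518 v223 v226 v229 (k8 v230 v232 v233 v235 v237 v239 v241 v244 (k8 v245 v247 v249 v251 v252 v254 v255 v256 (k1 v257 (k1 v259 (k1 v603 (k0))))))))))
noncomputable def ca4_15 : List VW := k8 v1 v144 v418 v149 v426 v160 v441 v586 (k0)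
noncomputable def ca4_16 : List VW := k8 v1 v144 v423 v418 v149 v433 v426 v161 (k8 v444 v167 v460 v452 v174 v465 v180 v470 (k8 v186 v476 v190 v480 v195 v485 v199 v488 (k8 v202 v493 v205 v496 v207 v502 v211 v505 (k8 v213 v511 v516 v219 v518 v223 v226 v229 (k8 v230 v232 v233 v235 v237 v239 v241 v243 (k8 v245 v247 v249 v251 v252 v254 v255 v256 (k1 v602 (k0))))))))
noncomputable def ca4_17 : List VW := k8 v1 v144 v423 v418 v149 v433 v426 v161 (k8 v444 v167 v460 v452 v174 v465 v180 v470 (k8 v186 v476 v190 v480 v195 v485 v199 v488 (k8 v202 v493 v205 v496 v207 v502 v211 v505 (k8 v213 v511 v516 v220 v518 v223 v226 v229 (k8 v230 v232 v233 v235 v237 v239 v241 v244 (k8 v245 v247 v249 v251 v252 v254 v255 v256 (k1 v257 (k1 v259 (k1 v260 (k1 v261 (k1 v604 (k0))))))))))))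
noncomputable def ca4_18 : List VW := k8 v1 v144 v423 v418 v149 v433 v426 v161 (k8 v444 v167 v460 v452 v174 v465 v180 v470 (k8 v186 v476 v190 v480 v195 v485 v199 v488 (k8 v202 v493 v205 v496 v207 v502 v211 v505 (k8 v213 v511 v516 v220 v518 v223 v226 v229 (k8 v230 v232 v233 v235 v237 v239 v241 v244 (k8 v245 v247 v249 v251 v252 v254 v255 v256 (k1 v257 (k1 v259 (k1 v603 (k0))))))))))
noncomputable def ca4_19 : List VW := k8 v1 v144 v423 v418 v149 v433 v426 v160 (k8 v443 v167 v460 v452 v174 v464 v180 v470 (k8 v186 v476 v190 v480 v195 v485 v199 v488 (k8 v202 v493 v205 v496 v207 v502 v211 v505 (k8 v513 v218 v514 v519 v224 v226 v229 v230 (k8 v232 v233 v235 v237 v239 v241 v244 v245 (k1 v247 (k1 v249 (k1 v251 (k1 v252 (k1 v254 (k1 v601 (k0))))))))))))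
noncomputable def ca4_20 : List VW := k8 v1 v144 v423 v418 v149 v433 v426 v160 (k8 v436 v444 v167 v460 v452 v174 v465 v180 (k8 v470 v186 v476 v190 v481 v195 v485 v199 (k8 v488 v202 v493 v205 v496 v207 v502 v211 (k8 v505 v213 v511 v516 v219 v518 v223 v226 (k8 v229 v230 v232 v233 v235 v237 v239 v241 (k8 v243 v245 v247 v249 v251 v252 v254 v255 (k1 v256 (k1 v257 (k1 v259 (k1 v603 (k0)))))))))))
noncomputable def ca4_21 : List VW := k8 v1 v144 v423 v418 v149 v433 v426 v160 (k8 v446 v441 v167 v460 v452 v174 v465 v180 (k8 v470 v186 v476 v190 v481 v195 v485 v199 (k8 v488 v202 v493 v205 v496 v207 v502 v211 (k8 v505 v213 v511 v516 v219 v518 v223 v226 (k8 v229 v230 v232 v233 v235 v237 v239 v241 (k8 v243 v245 v247 v249 v251 v252 v254 v255 (k1 v256 (k1 v257 (k1 v259 (k1 v260 (k1 v261 (k1 v604 (k0)))))))))))))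
noncomputable def ca4_22 : List VW := k8 v1 v144 v423 v418 v149 v433 v426 v160 (k8 v436 v444 v167 v460 v452 v174 v465 v180 (k8 v470 v186 v476 v190 v481 v195 v485 v199 (k8 v488 v202 v493 v205 v496 v207 v502 v211 (k8 v505 v213 v511 v516 v220 v518 v223 v226 (k8 v229 v230 v232 v233 v235 v237 v239 v241 (k8 v244 v245 v247 v249 v251 v252 v254 v255 (k1 v256 (k1 v257 (k1 v259 (k1 v260 (k1 v261 (k1 v604 (k0)))))))))))))
noncomputable def ca4_23 : List VW := k8 v1 v144 v274 v423 v287 v149 v433 v426 (k8 v160 v446 v441 v167 v460 v452 v174 v465 (k8 v180 v470 v186 v476 v190 v481 v195 v485 (k8 v199 v489 v202 v493 v205 v497 v207 v502 (k8 v211 v505 v213 v511 v516 v219 v518 v223 (k8 v226 v524 v228 v230 v528 v231 v233 v235 (k8 v237 v239 v241 v243 v245 v247 v249 v251 (k1 v252 (k1 v254 (k1 v255 (k1 v256 (k1 v257 (k1 v259 (k1 v603 (k0))))))))))))))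
noncomputable def ca4_24 : List VW := k8 v1 v144 v274 v423 v418 v149 v433 v426 (k8 v160 v446 v441 v167 v460 v452 v174 v465 (k8 v180 v470 v186 v476 v190 v481 v195 v485 (k8 v199 v489 v202 v493 v205 v497 v207 v502 (k8 v211 v505 v213 v511 v516 v219 v518 v223 (k8 v226 v524 v228 v230 v528 v231 v233 v235 (k8 v237 v239 v241 v243 v245 v247 v249 v251 (k8 v252 v254 v255 v256 v257 v259 v260 v261 (k1 v604 (k0)))))))))
noncomputable def ca4_25 : List VW := k8 v1 v147 v423 v418 v149 v433 v426 v160 (k8 v446 v441 v167 v460 v452 v174 v465 v180 (k8 v470 v186 v476 v190 v481 v195 v485 v199 (k8 v489 v202 v493 v205 v496 v207 v502 v211 (k8 v214 v511 v217 v220 v518 v223 v226 v524 (k8 v228 v230 v528 v231 v233 v235 v237 v239 (k8 v241 v243 v245 v247 v249 v251 v252 v254 (k1 v255 (k1 v256 (k1 v257 (k1 v259 (k1 v603 (k0))))))))))))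
noncomputable def ca4_26 : List VW := k8 v1 v147 v423 v418 v149 v433 v426 v160 (k8 v446 v441 v167 v460 v452 v174 v465 v180 (k8 v470 v186 v476 v190 v481 v195 v485 v199 (k8 v489 v202 v493 v205 v496 v207 v502 v211 (k8 v505 v213 v511 v516 v219 v518 v223 v226 (k8 v524 v228 v230 v528 v231 v233 v235 v237 (k8 v239 v241 v243 v245 v247 v249 v251 v252 (k1 v254 (k1 v255 (k1 v256 (k1 v257 (k1 v259 (k1 v603 (k0)))))))))))))
noncomputable def ca4_27 : List VW := k8 v1 v144 v423 v418 v149 v433 v157 v160 (k8 v442 v167 v452 v174 v464 v180 v185 v186 (k8 v476 v190 v194 v195 v200 v203 v493 v590 (k0)))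
noncomputable def ca4_28 : List VW := k8 v1 v144 v275 v423 v279 v149 v433 v291 (k8 v157 v160 v446 v305 v167 v460 v452 v174 (k8 v336 v464 v51 v180 v470 v186 v350 v476 (k8 v190 v481 v195 v485 v199 v489 v202 v493 (k8 v205 v86 v207 v502 v211 v214 v511 v217 (k8 v220 v518 v223 v225 v524 v228 v230 v528 (k8 v231 v233 v531 v235 v237 v536 v239 v241 (k8 v541 v243 v245 v544 v545 v546 v547 v549 (k1 v255 (k1 v256 (k1 v602 (k0)))))))))))
noncomputable def ca4_29 : List VW := k8 v1 v144 v275 v423 v279 v149 v433 v291 (k8 v158 v160 v446 v441 v167 v460 v452 v174 (k8 v336 v464 v182 v345 v470 v186 v478 v476 (k8 v190 v481 v195 v485 v199 v489 v202 v493 (k8 v205 v497 v207 v502 v211 v214 v511 v217 (k8 v220 v518 v223 v225 v524 v228 v230 v528 (k8 v231 v233 v531 v235 v237 v536 v239 v241 (k8 v541 v243 v245 v544 v545 v546 v547 v549 (k1 v255 (k1 v256 (k1 v257 (k1 v259 (k1 v260 (k1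 v261 (k1 v604 (k0)))))))))))))))
noncomputable def ca4_30 : List VW := k8 v1 v144 v275 v423 v279 v149 v433 v426 (k8 v160 v446 v441 v167 v460 v452 v174 v336 (k8 v464 v182 v345 v470 v186 v478 v476 v190 (k8 v481 v195 v485 v199 v489 v202 v493 v205 (k8 v497 v207 v502 v211 v214 v511 v217 v220 (k8 v518 v223 v225 v524 v228 v230 v528 v231 (k8 v233 v531 v235 v237 v536 v239 v241 v541 (k8 v243 v245 v544 v545 v546 v547 v549 v255 (k1 v256 (k1 v257 (k1 v259 (k1 v260 (k1 v261 (k1 v604 (k0))))))))))))))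
noncomputable def ca4_31 : List VW := k8 v1 v144 v275 v423 v279 v149 v433 v426 (k8 v160 v446 v441 v167 v460 v452 v174 v467 (k8 v464 v182 v473 v470 v186 v478 v476 v190 (k8 v481 v195 v485 v199 v489 v202 v493 v205 (k8 v497 v207 v502 v211 v214 v511 v217 v220 (k8 v518 v223 v226 v524 v228 v230 v528 v231 (k8 v233 v531 v235 v237 v536 v239 v241 v541 (k8 v243 v245 v544 v545 v546 v547 v549 v255 (k1 v256 (k1 v257 (k1 v259 (k1 v260 (k1 v261 (k1 v604 (k0))))))))))))))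
noncomputable def ca4_32 : List VW := k8 v1 v144 v275 v423 v279 v149 v433 v426 (k8 v160 v446 v441 v167 v460 v452 v174 v336 (k8 v464 v182 v473 v470 v186 v478 v476 v190 (k8 v481 v195 v485 v199 v489 v202 v493 v205 (k8 v497 v207 v502 v211 v505 v213 v511 v516 (k8 v219 v518 v223 v226 v524 v228 v230 v528 (k8 v231 v233 v531 v235 v237 v536 v239 v241 (k8 v541 v243 v245 v544 v545 v546 v547 v549 (k1 v255 (k1 v256 (k1 v257 (k1 v259 (k1 v260 (k1 v261 (k1 v604 (k0)))))))))))))))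
noncomputable def ca4_33 : List VW := k8 v1 v144 v275 v423 v279 v149 v433 v426 (k8 v160 v446 v441 v167 v460 v452 v178 v465 (k8 v182 v180 v470 v186 v478 v476 v190 v481 (k8 v195 v485 v199 v489 v202 v493 v205 v497 (k8 v207 v502 v211 v505 v213 v511 v516 v219 (k8 v518 v223 v226 v524 v228 v230 v528 v231 (k8 v233 v531 v235 v237 v536 v239 v241 v541 (k8 v243 v245 v544 v545 v546 v547 v549 v255 (k1 v256 (k1 v257 (k1 v259 (k1 v260 (k1 v261 (k1 v604 (k0))))))))))))))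
noncomputable def ca4_34 : List VW := k8 v1 v144 v274 v423 v279 v149 v433 v426 (k8 v160 v446 v441 v167 v460 v452 v178 v465 (k8 v180 v470 v186 v478 v476 v190 v481 v195 (k8 v485 v199 v489 v202 v493 v205 v497 v207 (k8 v502 v211 v505 v213 v511 v516 v219 v518 (k8 v223 v226 v524 v228 v230 v528 v231 v233 (k8 v531 v235 v237 v536 v239 v241 v541 v243 (k8 v245 v544 v545 v546 v547 v549 v255 v256 (k1 v257 (k1 v259 (k1 v260 (k1 v261 (k1 v604 (k0)))))))))))))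
noncomputable def ca4_35 : List VW := k8 v1 v144 v274 v423 v279 v149 v433 v426 (k8 v160 v446 v441 v167 v460 v452 v178 v465 (k8 v180 v470 v186 v478 v476 v190 v481 v195 (k8 v485 v199 v489 v202 v493 v205 v497 v207 (k8 v502 v211 v505 v213 v511 v516 v219 v518 (k8 v223 v226 v524 v228 v230 v528 v231 v233 (k8 v531 v235 v237 v536 v239 v241 v541 v243 (k8 v245 v247 v249 v251 v252 v254 v255 v256 (k1 v257 (k1 v259 (k1 v260 (k1 v261 (k1 v604 (k0)))))))))))))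
noncomputable def ca4_36 : List VW := k8 v1 v144 v274 v423 v279 v149 v433 v426 (k8 v160 v446 v441 v167 v460 v452 v178 v465 (k8 v180 v470 v186 v478 v476 v190 v481 v195 (k8 v485 v199 v489 v202 v493 v205 v497 v207 (k8 v502 v211 v505 v213 v511 v516 v219 v518 (k8 v223 v226 v524 v228 v230 v528 v231 v233 (k8 v531 v532 v537 v239 v241 v541 v243 v245 (k8 v247 v249 v251 v252 v254 v255 v256 v257 (k1 v259 (k1 v260 (k1 v261 (k1 v604 (k0))))))))))))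
noncomputable def ca4_37 : List VW := k8 v1 v144 v274 v423 v279 v149 v433 v426 (k8 v160 v446 v441 v167 v460 v452 v178 v465 (k8 v180 v470 v186 v476 v190 v481 v195 v485 (k8 v199 v489 v202 v493 v205 v497 v207 v502 (k8 v211 v505 v213 v511 v516 v219 v518 v223 (k8 v226 v524 v228 v230 v528 v231 v233 v531 (k8 v235 v237 v536 v239 v241 v541 v243 v245 (k8 v247 v249 v251 v252 v254 v255 v256 v257 (k1 v259 (k1 v260 (k1 v261 (k1 v604 (k0))))))))))))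
noncomputable def ca4_38 : List VW := k8 v1 v144 v274 v423 v279 v149 v433 v426 (k8 v160 v446 v441 v167 v460 v452 v174 v465 (k8 v180 v470 v186 v476 v190 v481 v195 v485 (k8 v199 v489 v202 v493 v205 v497 v207 v502 (k8 v211 v505 v213 v511 v516 v219 v518 v223 (k8 v226 v524 v228 v230 v528 v231 v233 v531 (k8 v235 v237 v239 v241 v243 v245 v247 v249 (k8 v251 v252 v254 v255 v256 v257 v259 v603 (k0))))))))
noncomputable def ca4_39 : List VW := k8 v1 v144 v274 v423 v279 v149 v433 v426 (k8 v160 v436 v443 v167 v460 v452 v174 v464 (k8 v180 v470 v186 v476 v190 v481 v195 v485 (k8 v199 v489 v202 v493 v205 v496 v207 v502 (k8 v211 v213 v511 v217 v219 v518 v223 v225 (k1 v524 (k1 v594 (k0)))))))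
noncomputable def ca4_40 : List VW := k8 v277 v144 v275 v274 v284 v149 v433 v292 (k8 v157 v161 v437 v446 v306 v167 v460 v328 (k8 v35 v170 v174 v337 v182 v473 v184 v186 (k8 v351 v67 v192 v483 v71 v195 v485 v199 (k8 v79 v202 v493 v205 v86 v207 v502 v211 (k8 v214 v511 v217 v220 v518 v223 v225 v524 (k8 v228 v230 v528 v114 v233 v531 v119 v237 (k8 v536 v239 v241 v541 v243 v245 v544 v247 (k8 v249 v546 v251 v252 v549 v255 v553 v257 (k1 v556 (k1 v260 (k1 v558 (k1 v604 (k0)))))))))))))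
noncomputable def ca4_41 : List VW := k8 v277 v144 v275 v423 v0 v149 v433 v292 (k8 v157 v161 v446 v306 v167 v462 v562 v170 (k8 v174 v337 v464 v182 v473 v184 v186 v351 (k8 v67 v192 v481 v195 v485 v199 v489 v202 (k8 v493 v205 v86 v207 v502 v211 v214 v511 (k8 v217 v220 v518 v223 v225 v524 v228 v230 (k8 v528 v114 v233 v531 v235 v237 v536 v239 (k8 v241 v541 v243 v245 v544 v545 v546 v547 (k1 v549 (k1 v255 (k1 v553 (k1 v257 (k1 v556 (k1 v603 (k0))))))))))))))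
noncomputable def ca4_42 : List VW := k8 v277 v144 v275 v423 v0 v149 v433 v292 (k8 v157 v161 v446 v306 v167 v462 v562 v170 (k8 v174 v337 v464 v182 v473 v184 v186 v351 (k8 v67 v192 v481 v195 v485 v199 v489 v202 (k8 v493 v205 v86 v207 v502 v211 v94 v213 (k8 v511 v516 v219 v518 v223 v225 v524 v228 (k8 v230 v528 v231 v233 v531 v235 v237 v536 (k8 v239 v241 v541 v243 v245 v544 v545 v546 (k8 v547 v549 v255 v553 v257 v556 v260 v558 (k1 v604 (k0))))))))))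
noncomputable def ca4_43 : List VW := k8 v276 v144 v275 v423 v0 v149 v433 v291 (k8 v157 v160 v446 v305 v167 v460 v562 v171 (k8 v174 v336 v464 v182 v473 v184 v186 v350 (k8 v476 v192 v481 v195 v485 v199 v489 v202 (k8 v493 v205 v86 v207 v502 v211 v94 v213 (k8 v511 v516 v219 v518 v223 v225 v524 v228 (k8 v230 v528 v231 v233 v531 v235 v237 v536 (k8 v239 v241 v541 v243 v245 v544 v545 v546 (k8 v547 v549 v255 v553 v257 v259 v260 v558 (k1 v604 (k0))))))))))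
noncomputable def ca4_44 : List VW := k8 v276 v144 v275 v423 v0 v149 v433 v291 (k8 v157 v160 v446 v305 v167 v460 v562 v326 (k8 v42 v174 v336 v464 v182 v473 v184 v186 (k8 v350 v476 v192 v481 v195 v485 v199 v489 (k8 v202 v493 v205 v86 v207 v502 v211 v94 (k8 v213 v511 v516 v219 v518 v223 v225 v524 (k8 v228 v230 v528 v231 v233 v531 v235 v237 (k8 v536 v239 v241 v541 v243 v245 v544 v545 (k8 v546 v547 v549 v255 v553 v257 v556 v557 (k1 v558 (k1 v604 (k0)))))))))))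
noncomputable def ca4_45 : List VW := k8 v276 v144 v275 v423 v0 v149 v433 v291 (k8 v157 v160 v446 v305 v167 v460 v452 v174 (k8 v336 v464 v182 v345 v470 v186 v350 v476 (k8 v192 v481 v195 v485 v199 v489 v202 v493 (k8 v205 v86 v207 v502 v211 v94 v213 v511 (k8 v516 v219 v518 v223 v225 v524 v228 v230 (k8 v528 v231 v233 v531 v235 v237 v536 v239 (k8 v241 v541 v243 v245 v544 v545 v546 v547 (k8 v549 v255 v256 v257 v259 v260 v261 v604 (k0)))))))))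
noncomputable def ca4_46 : List VW := k8 v1 v144 v275 v423 v0 v149 v433 v291 (k8 v157 v160 v446 v305 v167 v460 v452 v174 (k8 v336 v464 v182 v345 v470 v186 v350 v476 (k8 v192 v481 v195 v485 v199 v489 v202 v493 (k8 v205 v86 v207 v502 v211 v214 v511 v217 (k8 v220 v518 v223 v225 v524 v228 v230 v528 (k8 v231 v233 v531 v235 v237 v536 v239 v241 (k8 v541 v243 v245 v544 v545 v546 v547 v549 (k1 v255 (k1 v256 (k1 v602 (k0)))))))))))
noncomputable def ca4_47 : List VW := k8 v1 v144 v275 v423 v0 v149 v433 v291 (k8 v157 v160 v446 v305 v167 v460 v452 v178 (k8 v465 v182 v470 v186 v476 v190 v481 v195 (k8 v485 v199 v489 v202 v493 v205 v86 v207 (k8 v502 v211 v214 v511 v217 v220 v518 v223 (k8 v225 v524 v228 v230 v528 v231 v233 v531 (k8 v532 v536 v239 v241 v541 v543 v544 v545 (k1 v546 (k1 v600 (k0)))))))))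
noncomputable def ca4_48 : List VW := k8 v1 v144 v275 v423 v0 v149 v433 v426 (k8 v160 v446 v305 v167 v460 v452 v174 v465 (k8 v182 v470 v186 v476 v190 v481 v195 v485 (k8 v199 v489 v202 v493 v205 v497 v207 v502 (k8 v211 v214 v511 v217 v220 v518 v223 v225 (k8 v524 v228 v230 v528 v231 v233 v531 v596 (k0))))))
noncomputable def ca4_49 : List VW := k8 v4 v147 v275 v0 v2 v429 v560 v21 (k8 v161 v314 v264 v28 v165 v330 v42 v339 (k8 v266 v52 v346 v59 v353 v267 v64 v69 (k8 v71 v195 v484 v370 v79 v373 v82 v86 (k8 v382 v91 v94 v389 v96 v99 v100 v104 (k1 v106 (k1 v107 (k1 v108 (k1 v111 (k1 v397 (k1 v575 (k0)))))))))))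
noncomputable def ca4_50 : List VW := k8 v278 v147 v275 v281 v2 v429 v560 v21 (k8 v160 v323 v308 v264 v28 v332 v330 v42 (k8 v174 v339 v266 v52 v472 v59 v186 v353 (k8 v267 v64 v189 v71 v195 v484 v73 v198 (k8 v79 v373 v270 v82 v85 v86 v207 v501 (k8 v91 v94 v389 v96 v99 v391 v104 v106 (k8 v107 v108 v111 v230 v528 v114 v115 v116 (k8 v119 v120 v122 v125 v241 v126 v128 v129 (k8 v130 v132 v249 v134 v135 v136 v552 v415 (k1 v583 (k0))))))))))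
noncomputable def ca4_51 : List VW := k8 v278 v144 v275 v280 v2 v429 v560 v22 (k8 v160 v322 v307 v264 v27 v165 v329 v42 (k8 v174 v338 v266 v51 v472 v59 v186 v352 (k8 v267 v63 v189 v71 v195 v484 v72 v198 (k8 v79 v202 v492 v81 v85 v86 v207 v501 (k8 v210 v213 v510 v216 v219 v517 v106 v107 (k8 v108 v111 v230 v528 v114 v530 v119 v120 (k8 v122 v125 v241 v126 v128 v129 v130 v132 (k8 v249 v134 v252 v136 v552 v257 v142 v260 (k1 v584 (k0))))))))))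
noncomputable def ca4_52 : List VW := k8 v278 v144 v275 v285 v2 v429 v560 v22 (k8 v160 v322 v307 v264 v27 v456 v35 v42 (k8 v174 v338 v266 v51 v472 v59 v186 v352 (k8 v267 v63 v189 v71 v195 v484 v198 v78 (k8 v202 v492 v81 v498 v207 v501 v210 v213 (k8 v510 v216 v219 v517 v222 v225 v523 v111 (k8 v230 v528 v114 v115 v116 v119 v120 v404 (k8 v125 v241 v126 v128 v129 v410 v132 v249 (k1 v134 (k1 v252 (k1 v136 (k1 v552 (k1 v257 (k1 v142 (k1 v603 (k0)))))))))))))))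
noncomputable def ca4_53 : List VW := k8 v278 v144 v275 v285 v2 v10 v429 v560 (k8 v290 v160 v322 v313 v264 v27 v456 v35 (k8 v42 v174 v338 v266 v51 v472 v59 v186 (k8 v352 v267 v63 v482 v70 v195 v484 v198 (k8 v78 v202 v492 v81 v498 v207 v501 v210 (k8 v213 v510 v216 v219 v517 v222 v225 v523 (k8 v111 v230 v112 v114 v115 v530 v118 v237 (k8 v122 v125 v241 v126 v128 v129 v544 v131 (k1 v249 (k1 v134 (k1 v135 (k1 v548 (k1 v255 (k1 v139 (k1 v602 (k0)))))))))))))))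
noncomputable def ca4_54 : List VW := k8 v278 v3 v424 v273 v0 v2 v430 v293 (k8 v157 v160 v322 v436 v313 v167 v456 v35 (k8 v42 v174 v338 v182 v345 v183 v186 v352 (k8 v192 v69 v71 v195 v364 v200 v78 v202 (k8 v492 v378 v498 v207 v501 v210 v213 v510 (k8 v216 v219 v517 v222 v225 v523 v111 v230 (k8 v528 v114 v115 v530 v118 v237 v404 v125 (k8 v241 v409 v128 v245 v130 v132 v249 v134 (k1 v135 (k1 v548 (k1 v601 (k0)))))))))))
noncomputable def ca4_55 : List VW := k8 v278 v144 v275 v274 v280 v149 v433 v293 (k8 v157 v161 v437 v436 v313 v167 v460 v35 (k8 v42 v174 v338 v182 v345 v183 v186 v352 (k8 v192 v69 v71 v195 v364 v200 v79 v202 (k8 v493 v205 v86 v207 v502 v211 v213 v511 (k8 v217 v219 v518 v223 v225 v108 v527 v230 (k8 v528 v114 v233 v116 v535 v237 v536 v125 (k8 v241 v541 v128 v245 v410 v132 v249 v134 (k1 v135 (k1 v549 (k1 v601 (k0)))))))))))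
noncomputable def ca4_56 : List VW := k8 v278 v144 v275 v274 v280 v149 v433 v293 (k8 v157 v161 v436 v313 v167 v460 v35 v42 (k8 v174 v338 v182 v345 v183 v186 v352 v192 (k8 v69 v71 v195 v364 v200 v79 v202 v493 (k8 v205 v86 v207 v502 v211 v213 v511 v217 (k8 v219 v518 v223 v225 v524 v111 v230 v528 (k8 v114 v233 v401 v535 v237 v536 v125 v241 (k8 v541 v128 v245 v544 v132 v249 v134 v600 (k0))))))))
noncomputable def ca4_57 : List VW := k8 v278 v144 v275 v274 v280 v149 v433 v293 (k8 v157 v161 v437 v446 v307 v167 v460 v329 (k8 v170 v174 v338 v182 v345 v183 v186 v352 (k8 v192 v483 v71 v195 v364 v200 v79 v202 (k8 v493 v205 v86 v207 v502 v211 v213 v511 (k8 v217 v219 v518 v223 v225 v524 v228 v230 (k8 v528 v114 v233 v531 v119 v237 v536 v125 (k8 v241 v541 v128 v245 v544 v132 v249 v546 (k1 v252 (k1 v136 (k1 v601 (k0)))))))))))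
noncomputable def ca4_58 : List VW := k8 v277 v144 v275 v274 v279 v149 v433 v292 (k8 v157 v161 v446 v306 v167 v460 v328 v170 (k8 v174 v337 v182 v345 v184 v186 v351 v192 (k8 v69 v357 v195 v364 v200 v79 v202 v493 (k8 v205 v86 v207 v502 v211 v213 v511 v217 (k8 v219 v518 v223 v225 v524 v228 v230 v528 (k8 v114 v233 v531 v119 v237 v536 v125 v241 (k1 v541 (k1 v128 (k1 v245 (k1 v544 (k1 v599 (k0))))))))))))
noncomputable def ca4_59 : List VW := k8 v277 v144 v275 v274 v279 v149 v433 v292 (k8 v157 v160 v446 v306 v167 v460 v328 v170 (k8 v174 v337 v182 v473 v183 v187 v351 v192 (k8 v69 v357 v195 v364 v200 v79 v202 v493 (k8 v205 v86 v207 v502 v211 v213 v511 v217 (k8 v219 v518 v223 v225 v524 v228 v230 v528 (k8 v114 v233 v531 v119 v237 v536 v125 v241 (k1 v541 (k1 v598 (k0)))))))))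
noncomputable def ca4_60 : List VW := k8 v276 v144 v275 v423 v0 v149 v433 v291 (k8 v157 v161 v446 v305 v167 v460 v327 v171 (k8 v174 v465 v182 v473 v184 v187 v476 v192 (k8 v481 v195 v485 v199 v489 v202 v493 v205 (k8 v497 v207 v502 v211 v214 v511 v217 v220 (k8 v518 v223 v225 v524 v228 v230 v528 v231 (k1 v233 (k1 v531 (k1 v532 (k1 v536 (k1 v597 (k0)))))))))))
noncomputable def ca4_61 : List VW := k8 v3 v275 v289 v13 v304 v15 v21 v319 (k1 v31 (k1 v46 (k1 v56 (k1 v567 (k0)))))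
noncomputable def ca4_62 : List VW := k8 v4 v7 v275 v0 v13 v431 v16 v21 (k8 v319 v31 v36 v44 v57 v59 v68 v568 (k0))
noncomputable def ca4_63 : List VW := k8 v4 v424 v273 v0 v2 v12 v431 v15 (k8 v21 v310 v166 v30 v334 v35 v42 v50 (k8 v181 v349 v59 v355 v66 v71 v367 v569 (k0)))
noncomputable def ca4_64 : List VW := k8 v4 v424 v273 v0 v2 v12 v431 v15 (k8 v21 v310 v166 v30 v334 v35 v42 v341 (k8 v54 v58 v59 v355 v66 v71 v367 v569 (k0)))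
noncomputable def ca4_65 : List VW := k8 v4 v424 v273 v0 v2 v12 v431 v15 (k8 v21 v316 v166 v30 v334 v35 v42 v341 (k8 v181 v54 v58 v59 v355 v66 v71 v367 (k1 v75 (k1 v79 (k1 v375 (k1 v570 (k0)))))))
noncomputable def ca4_66 : List VW := k8 v4 v424 v273 v0 v2 v12 v431 v425 (k8 v21 v161 v316 v166 v30 v334 v35 v42 (k8 v341 v181 v54 v58 v59 v355 v66 v71 (k1 v367 (k1 v75 (k1 v79 (k1 v375 (k1 v570 (k0))))))))
noncomputable def ca4_67 : List VW := k8 v278 v3 v424 v273 v282 v2 v298 v295 (k8 v152 v23 v324 v309 v166 v29 v333 v331 (k8 v42 v340 v181 v53 v347 v59 v354 v191 (k8 v65 v69 v71 v366 v74 v77 v79 v374 (k8 v83 v86 v383 v92 v94 v389 v97 v99 (k1 v101 (k1 v105 (k1 v106 (k1 v394 (k1 v574 (k0))))))))))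
noncomputable def ca4_68 : List VW := k8 v6 v424 v273 v0 v2 v298 v295 v21 (k8 v324 v309 v265 v29 v333 v331 v42 v340 (k8 v266 v53 v347 v59 v354 v268 v65 v69 (k8 v71 v366 v74 v79 v374 v83 v86 v89 (k1 v92 (k1 v94 (k1 v389 (k1 v572 (k0))))))))
noncomputable def ca4_69 : List VW := k8 v278 v3 v424 v273 v0 v2 v297 v294 (k8 v15 v22 v160 v323 v308 v265 v28 v332 (k8 v330 v44 v339 v266 v52 v346 v59 v353 (k8 v268 v64 v69 v71 v365 v73 v77 v79 (k8 v373 v82 v86 v382 v91 v94 v389 v96 (k8 v99 v100 v104 v106 v107 v108 v111 v397 (k1 v112 (k1 v114 (k1 v115 (k1 v576 (k0))))))))))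
noncomputable def ca4_70 : List VW := k8 v278 v147 v275 v281 v2 v429 v560 v21 (k8 v160 v323 v308 v264 v28 v332 v330 v42 (k8 v174 v339 v266 v52 v179 v346 v59 v186 (k8 v353 v267 v64 v359 v71 v195 v484 v73 (k8 v198 v79 v373 v270 v82 v85 v86 v207 (k8 v501 v91 v94 v389 v96 v99 v391 v104 (k8 v106 v107 v108 v111 v230 v528 v114 v115 (k8 v116 v119 v120 v122 v125 v241 v126 v128 (k1 v129 (k1 v130 (k1 v132 (k1 v249 (k1 v134 (k1 v135 (k1 v581 (k0)))))))))))))))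
noncomputable def ca4_71 : List VW := k8 v278 v144 v275 v280 v263 v10 v433 v560 (k8 v22 v161 v313 v264 v27 v460 v35 v42 (k8 v178 v464 v51 v473 v59 v186 v352 v267 (k8 v63 v190 v71 v195 v485 v72 v491 v202 (k8 v493 v81 v499 v207 v502 v211 v213 v511 (k8 v217 v219 v518 v106 v107 v524 v111 v230 (k1 v112 (k1 v114 (k1 v531 (k1 v596 (k0))))))))))
noncomputable def ca4_72 : List VW := k8 v278 v144 v275 v285 v149 v433 v293 v157 (k8 v160 v313 v167 v329 v42 v174 v338 v182 (k8 v58 v59 v186 v352 v192 v71 v195 v364 (k8 v200 v203 v493 v205 v207 v502 v211 v213 (k1 v511 (k1 v592 (k0))))))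
noncomputable def ca4_73 : List VW := k8 v276 v147 v274 v0 v149 v433 v157 v160 (k8 v305 v167 v327 v38 v174 v336 v182 v183 (k1 v186 (k1 v350 (k1 v192 (k1 v196 (k1 v200 (k1 v589 (k0))))))))
noncomputable def ca4_74 : List VW := k8 v5 v275 v289 v13 v304 v17 v24 v319 (k1 v31 (k1 v40 (k1 v42 (k1 v56 (k1 v60 (k1 v68 (k1 v568 (k0))))))))
noncomputable def ca4_75 : List VW := k8 v3 v424 v273 v0 v2 v303 v561 v21 (k8 v310 v265 v30 v459 v43 v341 v54 v58 (k1 v59 (k1 v355 (k1 v66 (k1 v71 (k1 v367 (k1 v569 (k0))))))))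
noncomputable def ca4_76 : List VW := k8 v3 v144 v275 v0 v2 v297 v294 v21 (k8 v308 v265 v28 v330 v42 v178 v463 v52 (k1 v58 (k1 v59 (k1 v353 (k1 v64 (k1 v71 (k1 v365 (k1 v569 (k0)))))))))
noncomputable def ca4_77 : List VW := k8 v3 v144 v275 v0 v263 v11 v297 v294 (k8 v21 v323 v441 v28 v462 v43 v174 v464 (k8 v52 v346 v59 v186 v476 v361 v71 v365 (k8 v73 v79 v373 v82 v86 v87 v91 v94 (k1 v389 (k1 v572 (k0))))))
noncomputable def ca4_78 : List VW := k8 v4 v144 v275 v0 v149 v296 v293 v157 (k8 v160 v313 v167 v329 v35 v177 v338 v182 (k8 v185 v186 v352 v192 v69 v195 v200 v202 (k1 v493 (k1 v590 (k0)))))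
noncomputable def ca4_79 : List VW := k8 v416 v144 v422 v149 v426 v160 v441 v167 (k8 v452 v174 v464 v180 v469 v186 v476 v190 (k8 v480 v195 v485 v199 v488 v202 v493 v205 (k8 v496 v504 v212 v505 v513 v218 v514 v519 (k8 v224 v226 v229 v230 v232 v233 v235 v237 (k8 v240 v241 v244 v245 v247 v249 v251 v252 (k1 v254 (k1 v255 (k1 v256 (k1 v602 (k0))))))))))
noncomputable def ca4_80 : List VW := k8 v1 v144 v417 v418 v151 v427 v160 v441 (k8 v167 v452 v174 v464 v180 v469 v186 v476 (k8 v190 v480 v195 v485 v199 v488 v202 v493 (k8 v205 v496 v207 v502 v211 v505 v513 v218 (k8 v514 v519 v224 v226 v229 v230 v232 v233 (k8 v235 v237 v240 v241 v244 v245 v248 v249 (k8 v251 v252 v254 v255 v256 v257 v259 v603 (k0)))))))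
noncomputable def ca4_81 : List VW := k8 v1 v144 v417 v421 v149 v433 v426 v160 (k8 v443 v167 v452 v174 v464 v180 v469 v186 (k8 v476 v190 v480 v195 v485 v199 v488 v202 (k8 v493 v205 v496 v207 v502 v211 v505 v513 (k8 v218 v514 v519 v224 v226 v229 v230 v232 (k8 v233 v235 v237 v239 v241 v244 v245 v247 (k1 v249 (k1 v251 (k1 v252 (k1 v254 (k1 v255 (k1 v256 (k1 v602 (k0)))))))))))))
noncomputable def ca4_82 : List VW := k8 v1 v144 v417 v419 v149 v433 v426 v160 (k8 v443 v167 v452 v174 v464 v180 v469 v186 (k8 v476 v190 v480 v195 v485 v199 v488 v202 (k8 v493 v205 v496 v207 v502 v211 v505 v513 (k8 v218 v514 v519 v224 v226 v229 v230 v232 (k8 v233 v235 v237 v240 v241 v244 v245 v247 (k8 v249 v251 v252 v254 v255 v256 v257 v259 (k1 v603 (k0))))))))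
noncomputable def ca4_83 : List VW := k8 v1 v144 v417 v419 v149 v433 v426 v160 (k8 v443 v167 v452 v174 v464 v180 v469 v186 (k8 v476 v190 v480 v195 v485 v199 v488 v202 (k8 v493 v205 v496 v207 v502 v211 v505 v513 (k8 v218 v514 v519 v224 v226 v229 v230 v232 (k8 v233 v235 v237 v240 v241 v244 v245 v248 (k8 v249 v251 v252 v254 v255 v256 v257 v259 (k1 v260 (k1 v261 (k1 v604 (k0))))))))))
noncomputable def ca4_84 : List VW := k8 v1 v144 v418 v149 v156 v160 v441 v586 (k0)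
noncomputable def ca4_85 : List VW := k8 v1 v144 v418 v149 v154 v163 v441 v586 (k0)
noncomputable def ca4_86 : List VW := k8 v1 v144 v418 v149 v153 v163 v441 v586 (k0)
noncomputable def ca4_87 : List VW := k8 v1 v144 v417 v422 v149 v433 v426 v160 (k8 v443 v167 v460 v452 v174 v464 v180 v470 (k8 v186 v476 v190 v480 v195 v485 v199 v488 (k8 v202 v493 v205 v496 v207 v502 v211 v505 (k8 v213 v511 v516 v220 v518 v223 v226 v229 (k8 v230 v232 v233 v235 v237 v240 v241 v244 (k8 v245 v247 v249 v251 v252 v254 v255 v256 (k1 v257 (k1 v259 (k1 v260 (k1 v261 (k1 v604 (k0))))))))))))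
noncomputable def ca4_88 : List VW := k8 v1 v144 v423 v418 v149 v433 v426 v160 (k8 v444 v167 v460 v452 v174 v465 v180 v470 (k8 v186 v476 v190 v480 v195 v485 v199 v488 (k8 v202 v493 v205 v496 v207 v502 v211 v505 (k8 v213 v511 v516 v220 v518 v223 v226 v229 (k8 v230 v232 v233 v235 v237 v239 v241 v244 (k8 v245 v247 v249 v251 v252 v254 v255 v256 (k1 v602 (k0))))))))
noncomputable def ca4_89 : List VW := k8 v1 v144 v423 v418 v149 v433 v426 v160 (k8 v443 v169 v453 v174 v464 v180 v470 v186 (k8 v476 v190 v480 v195 v485 v199 v488 v202 (k8 v493 v205 v496 v207 v502 v508 v214 v511 (k8 v516 v219 v224 v226 v229 v230 v232 v233 (k8 v235 v237 v239 v241 v243 v245 v247 v249 (k1 v251 (k1 v600 (k0))))))))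
noncomputable def ca4_90 : List VW := k8 v1 v144 v274 v423 v418 v149 v433 v426 (k8 v160 v446 v441 v167 v460 v452 v174 v465 (k8 v180 v470 v186 v476 v190 v481 v195 v485 (k8 v199 v489 v202 v493 v205 v497 v207 v502 (k8 v211 v505 v213 v511 v516 v219 v518 v223 (k8 v226 v524 v228 v230 v528 v231 v233 v235 (k8 v237 v239 v241 v243 v245 v247 v249 v251 (k1 v252 (k1 v254 (k1 v255 (k1 v256 (k1 v257 (k1 v259 (k1 v603 (k0))))))))))))))
noncomputable def ca4_91 : List VW := k8 v1 v144 v274 v423 v418 v149 v433 v426 (k8 v160 v446 v441 v167 v460 v452 v178 v465 (k8 v180 v470 v186 v476 v190 v481 v195 v485 (k8 v199 v489 v202 v493 v205 v497 v207 v502 (k8 v211 v505 v213 v511 v516 v219 v518 v223 (k8 v226 v524 v228 v230 v528 v231 v233 v235 (k8 v237 v239 v241 v243 v245 v247 v249 v251 (k8 v252 v254 v255 v256 v257 v259 v260 v261 (k1 v604 (k0)))))))))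
noncomputable def ca4_92 : List VW := k8 v1 v147 v423 v418 v149 v433 v426 v160 (k8 v446 v441 v167 v460 v452 v174 v465 v180 (k8 v470 v186 v476 v190 v481 v195 v485 v199 (k8 v489 v202 v493 v205 v496 v207 v502 v211 (k8 v505 v213 v511 v516 v219 v518 v223 v226 (k8 v524 v228 v230 v528 v231 v233 v235 v237 (k8 v239 v241 v243 v245 v247 v249 v251 v252 (k8 v254 v255 v256 v257 v259 v260 v261 v604 (k0))))))))
noncomputable def ca4_93 : List VW := k8 v1 v144 v423 v418 v149 v433 v426 v160 (k8 v443 v167 v452 v174 v464 v180 v470 v186 (k8 v476 v190 v194 v195 v485 v491 v203 v493 (k1 v205 (k1 v208 (k1 v502 (k1 v211 (k1 v213 (k1 v511 (k1 v592 (k0))))))))))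
noncomputable def ca4_94 : List VW := k8 v1 v144 v275 v423 v279 v149 v433 v291 (k8 v157 v160 v446 v317 v168 v460 v452 v174 (k8 v336 v464 v182 v180 v470 v186 v350 v476 (k8 v190 v481 v195 v485 v199 v489 v202 v493 (k8 v205 v497 v207 v502 v211 v506 v213 v511 (k8 v516 v219 v518 v223 v225 v524 v228 v230 (k8 v528 v231 v233 v531 v235 v237 v536 v239 (k8 v241 v541 v243 v245 v544 v545 v546 v547 (k1 v549 (k1 v255 (k1 v256 (k1 v257 (k1 v259 (k1 v603 (k0))))))))))))))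
noncomputable def ca4_95 : List VW := k8 v1 v144 v275 v423 v279 v149 v433 v426 (k8 v160 v446 v441 v167 v460 v452 v174 v336 (k8 v464 v182 v473 v470 v186 v478 v476 v190 (k8 v481 v195 v485 v199 v489 v202 v493 v205 (k8 v497 v207 v502 v211 v214 v511 v217 v220 (k8 v518 v223 v225 v524 v228 v230 v528 v231 (k8 v233 v531 v235 v237 v536 v239 v241 v541 (k8 v243 v245 v544 v545 v546 v547 v549 v255 (k1 v256 (k1 v257 (k1 v259 (k1 v260 (k1 v261 (k1 v604 (k0))))))))))))))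
noncomputable def ca4_96 : List VW := k8 v1 v144 v275 v423 v279 v149 v433 v426 (k8 v160 v446 v441 v167 v460 v452 v174 v336 (k8 v464 v180 v470 v186 v478 v476 v190 v481 (k8 v195 v485 v199 v489 v202 v493 v205 v497 (k8 v207 v502 v211 v505 v213 v511 v516 v219 (k8 v518 v223 v226 v524 v228 v230 v528 v231 (k8 v233 v531 v235 v237 v536 v239 v241 v541 (k8 v243 v245 v544 v545 v546 v547 v549 v255 (k1 v256 (k1 v257 (k1 v259 (k1 v260 (k1 v261 (k1 v604 (k0))))))))))))))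
noncomputable def ca4_97 : List VW := k8 v1 v144 v274 v423 v287 v149 v433 v426 (k8 v160 v446 v441 v167 v460 v452 v178 v465 (k8 v180 v470 v186 v478 v476 v190 v481 v195 (k8 v485 v199 v489 v202 v493 v205 v497 v207 (k8 v502 v211 v505 v213 v511 v516 v219 v518 (k8 v223 v226 v524 v228 v230 v528 v231 v233 (k8 v531 v235 v237 v536 v239 v241 v541 v243 (k8 v245 v247 v249 v251 v252 v254 v255 v256 (k1 v257 (k1 v259 (k1 v260 (k1 v261 (k1 v604 (k0)))))))))))))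
noncomputable def ca4_98 : List VW := k8 v1 v144 v274 v423 v287 v149 v433 v426 (k8 v160 v446 v441 v167 v460 v452 v178 v465 (k8 v180 v470 v186 v476 v190 v481 v195 v485 (k8 v199 v489 v202 v493 v205 v497 v207 v502 (k8 v211 v505 v213 v511 v516 v219 v518 v223 (k8 v226 v524 v228 v230 v528 v231 v233 v531 (k8 v235 v237 v536 v239 v241 v243 v245 v247 (k8 v249 v251 v252 v254 v255 v256 v257 v259 (k1 v260 (k1 v261 (k1 v604 (k0)))))))))))
noncomputable def ca4_99 : List VW := k8 v1 v144 v274 v423 v279 v149 v433 v426 (k8 v160 v446 v441 v167 v460 v452 v174 v465 (k8 v180 v470 v186 v476 v190 v481 v195 v485 (k8 v199 v489 v202 v493 v205 v497 v207 v502 (k8 v211 v505 v213 v511 v516 v219 v518 v223 (k8 v226 v524 v228 v230 v528 v231 v233 v235 (k8 v237 v239 v241 v243 v245 v247 v249 v251 (k1 v252 (k1 v254 (k1 v255 (k1 v256 (k1 v602 (k0))))))))))))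
noncomputable def ca4_100 : List VW := k8 v1 v144 v274 v423 v279 v149 v433 v426 (k8 v160 v446 v441 v167 v460 v452 v174 v465 (k8 v180 v470 v186 v476 v190 v481 v195 v485 (k8 v199 v489 v202 v493 v205 v497 v207 v502 (k8 v211 v214 v511 v217 v220 v518 v223 v226 (k8 v524 v228 v230 v528 v231 v233 v235 v237 (k1 v239 (k1 v241 (k1 v243 (k1 v245 (k1 v247 (k1 v599 (k0))))))))))))
noncomputable def ca4_101 : List VW := k8 v277 v144 v275 v423 v0 v149 v433 v292 (k8 v157 v161 v446 v306 v167 v462 v562 v170 (k8 v174 v337 v464 v182 v473 v184 v186 v351 (k8 v476 v192 v481 v195 v485 v199 v489 v202 (k8 v493 v205 v86 v207 v502 v211 v94 v213 (k8 v511 v516 v219 v518 v223 v225 v524 v228 (k8 v230 v528 v231 v233 v531 v235 v237 v536 (k8 v239 v241 v541 v243 v245 v544 v545 v546 (k8 v547 v549 v255 v553 v257 v556 v557 v558 (k1 v604 (k0))))))))))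
noncomputable def ca4_102 : List VW := k8 v276 v144 v275 v423 v0 v149 v433 v291 (k8 v157 v161 v446 v305 v167 v460 v562 v326 (k8 v42 v174 v336 v464 v182 v473 v184 v187 (k8 v350 v476 v192 v481 v195 v485 v199 v489 (k8 v202 v493 v205 v86 v207 v502 v211 v94 (k8 v213 v511 v516 v219 v518 v223 v225 v524 (k8 v228 v230 v528 v231 v233 v531 v235 v237 (k8 v536 v239 v241 v541 v243 v245 v544 v545 (k8 v546 v547 v549 v255 v553 v257 v556 v260 (k1 v558 (k1 v604 (k0)))))))))))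
noncomputable def ca4_103 : List VW := k8 v276 v144 v275 v423 v279 v149 v433 v291 (k8 v157 v160 v446 v305 v167 v460 v452 v174 (k8 v336 v464 v182 v345 v470 v186 v350 v476 (k8 v192 v481 v195 v485 v199 v489 v202 v493 (k8 v205 v86 v207 v502 v211 v94 v213 v511 (k8 v516 v219 v518 v223 v225 v524 v228 v230 (k8 v528 v231 v233 v531 v235 v237 v536 v239 (k8 v241 v541 v243 v245 v544 v545 v546 v547 (k8 v549 v255 v256 v257 v259 v260 v261 v604 (k0)))))))))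
noncomputable def ca4_104 : List VW := k8 v1 v144 v275 v423 v279 v149 v433 v291 (k8 v157 v160 v446 v305 v168 v460 v452 v174 (k8 v336 v464 v182 v345 v470 v186 v350 v476 (k8 v192 v481 v195 v485 v199 v489 v202 v493 (k8 v205 v497 v207 v502 v211 v506 v213 v511 (k8 v516 v219 v518 v223 v225 v524 v228 v230 (k8 v528 v231 v233 v531 v235 v237 v536 v239 (k8 v241 v541 v243 v245 v544 v545 v546 v547 (k8 v549 v255 v256 v257 v259 v260 v261 v604 (k0)))))))))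
noncomputable def ca4_105 : List VW := k8 v1 v144 v275 v423 v0 v149 v433 v426 (k8 v160 v446 v305 v167 v460 v452 v178 v465 (k8 v182 v470 v186 v476 v190 v481 v195 v485 (k8 v199 v489 v202 v493 v205 v86 v207 v502 (k8 v211 v214 v511 v217 v220 v518 v223 v225 (k8 v524 v228 v230 v528 v231 v233 v531 v532 (k8 v536 v239 v241 v541 v543 v544 v545 v546 (k1 v600 (k0))))))))
noncomputable def ca4_106 : List VW := k8 v1 v144 v275 v423 v279 v149 v433 v426 (k8 v160 v446 v305 v167 v460 v452 v174 v467 (k8 v464 v182 v473 v185 v186 v478 v476 v190 (k8 v481 v195 v485 v199 v489 v202 v493 v205 (k8 v497 v207 v502 v211 v506 v213 v511 v516 (k8 v219 v518 v223 v226 v524 v228 v230 v528 (k8 v231 v233 v531 v235 v237 v536 v239 v241 (k8 v541 v243 v245 v544 v545 v546 v547 v549 (k1 v255 (k1 v256 (k1 v257 (k1 v259 (k1 v603 (k0)))))))))))))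
noncomputable def ca4_107 : List VW := k8 v278 v3 v424 v273 v280 v2 v429 v560 (k8 v290 v160 v322 v313 v264 v27 v456 v35 (k8 v42 v174 v338 v266 v51 v472 v59 v186 (k8 v352 v267 v63 v482 v70 v195 v484 v198 (k8 v78 v202 v492 v378 v498 v207 v501 v210 (k8 v213 v510 v216 v219 v517 v222 v225 v523 (k8 v111 v230 v528 v114 v115 v530 v118 v238 (k8 v404 v125 v241 v409 v128 v245 v130 v132 (k1 v249 (k1 v134 (k1 v135 (k1 v548 (k1 v601 (k0)))))))))))))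
noncomputable def ca4_108 : List VW := k8 v278 v144 v275 v274 v280 v149 v433 v293 (k8 v157 v160 v322 v436 v446 v307 v167 v460 (k8 v35 v42 v174 v338 v182 v345 v183 v186 (k8 v352 v192 v69 v71 v195 v364 v200 v79 (k8 v202 v493 v378 v499 v207 v502 v211 v213 (k8 v511 v217 v219 v518 v223 v225 v524 v228 (k8 v230 v528 v114 v233 v401 v534 v237 v536 (k8 v125 v241 v541 v128 v245 v544 v132 v249 (k1 v546 (k1 v253 (k1 v136 (k1 v255 (k1 v139 (k1 v602 (k0))))))))))))))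
noncomputable def ca4_109 : List VW := k8 v278 v144 v275 v274 v280 v149 v433 v293 (k8 v157 v161 v437 v436 v446 v307 v167 v460 (k8 v35 v42 v174 v338 v182 v345 v183 v186 (k8 v352 v192 v69 v71 v195 v364 v200 v79 (k8 v202 v493 v205 v86 v207 v502 v211 v213 (k8 v511 v217 v219 v518 v223 v225 v524 v111 (k8 v230 v528 v114 v233 v401 v535 v237 v536 (k8 v125 v241 v541 v128 v245 v544 v132 v249 (k1 v134 (k1 v252 (k1 v136 (k1 v601 (k0))))))))))))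
noncomputable def ca4_110 : List VW := k8 v278 v144 v275 v274 v280 v149 v433 v293 (k8 v157 v161 v437 v436 v446 v307 v167 v460 (k8 v329 v170 v174 v338 v182 v345 v183 v186 (k8 v352 v192 v69 v71 v195 v364 v200 v79 (k8 v202 v493 v205 v86 v207 v502 v211 v213 (k8 v511 v217 v219 v518 v223 v225 v524 v111 (k8 v230 v528 v114 v233 v531 v119 v237 v536 (k8 v125 v241 v541 v128 v245 v544 v132 v249 (k1 v134 (k1 v252 (k1 v136 (k1 v601 (k0))))))))))))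
noncomputable def ca4_111 : List VW := k8 v278 v144 v275 v274 v280 v149 v433 v293 (k8 v157 v161 v437 v446 v307 v167 v460 v329 (k8 v170 v174 v338 v182 v473 v183 v186 v352 (k8 v192 v483 v71 v195 v364 v200 v79 v202 (k8 v493 v205 v86 v207 v502 v211 v213 v511 (k8 v217 v219 v518 v223 v225 v524 v228 v230 (k8 v528 v114 v233 v531 v119 v237 v536 v125 (k8 v241 v541 v128 v245 v544 v132 v249 v546 (k1 v253 (k1 v136 (k1 v255 (k1 v139 (k1 v602 (k0)))))))))))))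
noncomputable def ca4_112 : List VW := k8 v278 v144 v275 v274 v280 v149 v433 v293 (k8 v157 v161 v437 v446 v307 v167 v460 v329 (k8 v170 v174 v338 v182 v473 v183 v188 v352 (k8 v192 v483 v71 v195 v364 v200 v79 v202 (k8 v493 v205 v86 v207 v502 v211 v213 v511 (k8 v217 v219 v518 v223 v225 v524 v228 v230 (k8 v528 v114 v233 v531 v119 v237 v536 v125 (k8 v241 v541 v128 v245 v544 v132 v249 v546 (k8 v134 v252 v136 v255 v139 v257 v142 v603 (k0)))))))))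
noncomputable def ca4_113 : List VW := k8 v277 v144 v275 v274 v284 v149 v433 v292 (k8 v157 v161 v437 v446 v306 v167 v460 v328 (k8 v171 v174 v337 v182 v473 v184 v186 v351 (k8 v67 v192 v483 v71 v195 v485 v199 v79 (k8 v202 v493 v205 v86 v207 v502 v211 v94 (k8 v213 v511 v516 v219 v518 v223 v225 v524 (k8 v228 v230 v528 v114 v233 v531 v119 v237 (k8 v536 v125 v241 v541 v243 v245 v544 v132 (k8 v250 v546 v134 v252 v549 v255 v553 v257 (k1 v142 (k1 v259 (k1 v260 (k1 v143 (k1 v604 (k0))))))))))))))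
noncomputable def ca4_114 : List VW := k8 v277 v144 v275 v274 v284 v149 v433 v292 (k8 v157 v161 v446 v306 v167 v460 v328 v171 (k8 v174 v337 v182 v473 v184 v186 v351 v67 (k8 v192 v483 v71 v195 v485 v199 v368 v79 (k8 v202 v493 v205 v86 v207 v502 v211 v94 (k8 v213 v511 v516 v219 v518 v223 v225 v524 (k8 v228 v230 v528 v114 v233 v531 v119 v237 (k8 v536 v125 v241 v541 v243 v245 v544 v132 (k8 v249 v546 v134 v252 v549 v255 v553 v257 (k1 v556 (k1 v260 (k1 v143 (k1 v604 (k0)))))))))))))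
noncomputable def ca4_115 : List VW := k8 v277 v144 v275 v274 v284 v149 v433 v292 (k8 v157 v160 v446 v306 v167 v460 v328 v170 (k8 v174 v337 v182 v473 v184 v186 v476 v192 (k8 v481 v195 v485 v199 v79 v202 v493 v205 (k8 v86 v207 v502 v211 v213 v511 v217 v219 (k8 v518 v223 v225 v524 v228 v230 v528 v114 (k8 v233 v531 v532 v536 v125 v241 v541 v543 (k1 v544 (k1 v545 (k1 v546 (k1 v600 (k0)))))))))))
noncomputable def ca4_116 : List VW := k8 v277 v144 v275 v274 v279 v149 v433 v292 (k8 v157 v160 v446 v306 v167 v460 v328 v170 (k8 v174 v337 v182 v473 v183 v187 v476 v192 (k8 v481 v195 v485 v199 v79 v202 v493 v205 (k8 v86 v207 v502 v211 v213 v511 v217 v219 (k8 v518 v223 v225 v524 v228 v230 v528 v114 (k1 v233 (k1 v531 (k1 v532 (k1 v536 (k1 v538 (k1 v541 (k1 v598 (k0)))))))))))))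
noncomputable def ca4_117 : List VW := k8 v276 v144 v275 v274 v283 v149 v433 v291 (k8 v157 v160 v446 v305 v167 v460 v327 v170 (k8 v174 v336 v182 v473 v183 v187 v476 v190 (k8 v481 v195 v485 v199 v79 v202 v493 v205 (k8 v86 v207 v502 v211 v213 v511 v217 v219 (k8 v518 v223 v225 v524 v228 v230 v528 v529 (k1 v531 (k1 v596 (k0))))))))
noncomputable def ca4_118 : List VW := k8 v1 v144 v274 v279 v149 v433 v158 v160 (k8 v311 v167 v452 v174 v336 v182 v185 v186 (k1 v350 (k1 v192 (k1 v196 (k1 v200 (k1 v202 (k1 v493 (k1 v590 (k0)))))))))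
noncomputable def ca4_119 : List VW := k8 v3 v275 v9 v13 v304 v15 v21 v319 (k1 v31 (k1 v43 (k1 v56 (k1 v567 (k0)))))
noncomputable def ca4_120 : List VW := k8 v4 v424 v275 v0 v13 v304 v20 v21 (k8 v319 v31 v335 v46 v50 v56 v59 v68 (k1 v568 (k0)))
noncomputable def ca4_121 : List VW := k8 v4 v424 v273 v0 v2 v12 v431 v15 (k8 v21 v316 v166 v30 v334 v35 v42 v341 (k8 v54 v58 v59 v355 v66 v71 v367 v569 (k0)))
noncomputable def ca4_122 : List VW := k8 v4 v424 v273 v0 v2 v12 v431 v15 (k8 v21 v316 v166 v30 v334 v35 v42 v341 (k8 v181 v54 v58 v59 v355 v66 v71 v367 (k1 v569 (k0))))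
noncomputable def ca4_123 : List VW := k8 v6 v424 v273 v0 v2 v298 v295 v22 (k8 v447 v315 v166 v29 v333 v331 v42 v340 (k8 v181 v53 v347 v59 v354 v191 v362 v71 (k8 v366 v74 v79 v374 v83 v86 v383 v92 (k1 v94 (k1 v389 (k1 v572 (k0)))))))
noncomputable def ca4_124 : List VW := k8 v278 v3 v424 v273 v282 v2 v298 v295 (k8 v15 v22 v160 v324 v309 v265 v29 v333 (k8 v331 v44 v340 v266 v53 v347 v59 v186 (k8 v354 v268 v65 v69 v71 v366 v74 v77 (k8 v79 v374 v83 v86 v383 v92 v94 v389 (k8 v97 v99 v101 v105 v106 v394 v109 v111 (k1 v397 (k1 v575 (k0))))))))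
noncomputable def ca4_125 : List VW := k8 v278 v3 v424 v273 v281 v2 v297 v294 (k8 v152 v21 v160 v323 v308 v265 v28 v332 (k8 v330 v42 v174 v339 v266 v52 v179 v346 (k8 v59 v186 v353 v268 v64 v359 v71 v365 (k8 v269 v73 v198 v79 v373 v271 v82 v85 (k8 v86 v382 v91 v94 v389 v96 v99 v391 (k8 v104 v106 v107 v108 v111 v397 v112 v114 (k8 v115 v116 v119 v120 v122 v125 v408 v126 (k8 v128 v129 v130 v132 v412 v134 v135 v581 (k0)))))))))
noncomputable def ca4_126 : List VW := k8 v278 v147 v275 v286 v2 v11 v432 v560 (k8 v21 v160 v323 v308 v264 v28 v456 v330 (k8 v42 v174 v339 v266 v52 v179 v346 v59 (k8 v186 v353 v267 v64 v359 v71 v365 v269 (k8 v73 v198 v79 v373 v270 v82 v85 v86 (k8 v207 v501 v91 v94 v389 v96 v99 v391 (k8 v104 v106 v107 v108 v111 v230 v528 v114 (k8 v115 v116 v119 v120 v122 v125 v241 v126 (k8 v128 v129 v130 v132 v249 v133 v134 v135 (k1 v136 (k1 v137 (k1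 v139 (k1 v257 (k1 v142 (k1 v260 (k1 v584 (k0))))))))))))))))
noncomputable def ca4_127 : List VW := k8 v278 v144 v275 v285 v2 v429 v560 v22 (k8 v160 v322 v307 v264 v27 v332 v329 v42 (k8 v174 v338 v266 v51 v472 v59 v186 v352 (k8 v267 v63 v358 v71 v195 v484 v72 v198 (k8 v79 v202 v492 v81 v85 v86 v207 v501 (k8 v90 v94 v388 v95 v99 v100 v517 v222 (k8 v225 v523 v111 v230 v528 v114 v115 v116 (k8 v119 v120 v122 v125 v241 v126 v128 v129 (k8 v130 v132 v249 v134 v135 v136 v552 v257 (k1 v142 (k1 v260 (k1 v584 (k0))))))))))))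
noncomputable def ca4_128 : List VW := k8 v278 v144 v275 v285 v2 v429 v560 v22 (k8 v160 v322 v307 v264 v27 v165 v329 v42 (k8 v174 v338 v266 v51 v472 v59 v186 v352 (k8 v267 v63 v189 v71 v195 v484 v198 v78 (k8 v202 v492 v81 v498 v207 v501 v210 v213 (k8 v510 v216 v219 v517 v106 v107 v523 v111 (k8 v230 v528 v114 v115 v116 v119 v120 v122 (k8 v125 v241 v126 v128 v129 v130 v132 v249 (k1 v134 (k1 v252 (k1 v136 (k1 v552 (k1 v602 (k0)))))))))))))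
noncomputable def ca4_129 : List VW := k8 v278 v144 v275 v274 v0 v263 v10 v433 (k8 v560 v290 v160 v322 v307 v264 v27 v332 (k8 v460 v35 v42 v174 v338 v266 v51 v473 (k8 v183 v186 v352 v267 v63 v483 v70 v195 (k8 v485 v199 v79 v202 v493 v378 v499 v207 (k8 v502 v211 v213 v511 v217 v219 v518 v223 (k8 v225 v524 v111 v230 v528 v114 v115 v531 (k8 v119 v121 v536 v125 v241 v126 v128 v245 (k8 v130 v132 v249 v133 v134 v135 v549 v255 (k1 v139 (k1 v602 (k0)))))))))))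
noncomputable def ca4_130 : List VW := k8 v278 v144 v275 v274 v0 v149 v433 v293 (k8 v157 v160 v436 v307 v167 v460 v35 v42 (k8 v174 v338 v182 v345 v183 v186 v352 v192 (k8 v194 v195 v364 v200 v78 v202 v493 v205 (k8 v208 v502 v211 v213 v511 v217 v219 v518 (k1 v223 (k1 v225 (k1 v108 (k1 v228 (k1 v230 (k1 v528 (k1 v595 (k0))))))))))))
noncomputable def ca4_131 : List VW := k8 v276 v147 v274 v0 v149 v435 v158 v161 (k8 v311 v167 v460 v170 v174 v336 v182 v185 (k8 v186 v350 v192 v70 v196 v200 v202 v493 (k1 v590 (k0))))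
noncomputable def ca4_132 : List VW := k8 v5 v7 v275 v289 v13 v304 v19 v21 (k8 v319 v31 v335 v48 v50 v56 v61 v68 (k1 v568 (k0)))
noncomputable def ca4_133 : List VW := k8 v4 v424 v273 v0 v2 v432 v561 v21 (k8 v310 v265 v30 v334 v35 v42 v341 v266 (k8 v54 v58 v59 v355 v66 v71 v367 v569 (k0)))
noncomputable def ca4_134 : List VW := k8 v3 v147 v275 v0 v2 v297 v294 v21 (k8 v323 v439 v28 v330 v42 v339 v266 v52 (k8 v58 v59 v353 v64 v71 v365 v73 v79 (k1 v373 (k1 v570 (k0)))))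
noncomputable def ca4_135 : List VW := k8 v3 v147 v275 v0 v263 v11 v297 v294 (k8 v22 v160 v314 v265 v28 v332 v330 v42 (k8 v339 v266 v52 v346 v59 v353 v268 v64 (k8 v69 v71 v195 v485 v199 v79 v373 v82 (k8 v86 v382 v91 v94 v511 v99 v518 v106 (k1 v107 (k1 v574 (k0)))))))
noncomputable def ca4_136 : List VW := k8 v278 v144 v275 v0 v149 v433 v293 v157 (k8 v160 v322 v307 v167 v460 v172 v174 v338 (k8 v182 v345 v183 v186 v352 v192 v194 v195 (k1 v200 (k1 v203 (k1 v493 (k1 v205 (k1 v207 (k1 v502 (k1 v591 (k0))))))))))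

noncomputable def a17_0 : T5 :=
  (.nd 2 2360 .lw
  (.lf ⟨⟨0, 0, 0, 57052, 16, 1, 1⟩, 0, 0, 0, 0, [h5, h0 5884, f10], 26, ca4_0, 0, 0⟩))

noncomputable def a17_1 : T5 :=
  (.nd 2 2184 .lw
  (.lf ⟨⟨0, 0, 0, 31000, 16, 1, 1⟩, 0, 0, 0, 0, [h5, h0 5884, f9], 26, ca4_1, 0, 0⟩))

noncomputable def a17_2 : T5 :=
  (.nd 2 2009 .lw
  (.nd 2 2343 (.nd 2 2176 (.nd 2 2092 (.nd 2 2050 (.lf ⟨⟨0, 0, 0, 16903, 16, 1, 1⟩, 0, 0, 0, 0, [h5, h0 5884], 11, ca4_2, 0, 0⟩)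
  (.lf ⟨⟨0, 0, 0, 19483, 16, 1, 1⟩, 0, 0, 0, 0, [h5, h0 5884, f8], 13, ca4_1, 0, 0⟩))
  (.lf ⟨⟨0, 0, 0, 22536, 16, 1, 1⟩, 0, 0, 0, 0, [h5, h0 5884, f8], 13, ca4_1, 0, 0⟩))
  (.lf ⟨⟨0, 0, 0, 30152, 16, 1, 1⟩, 0, 0, 0, 0, [h5, h0 5884, f8], 0, ca4_3, 0, 0⟩))
  (.lf ⟨⟨0, 0, 0, 53788, 16, 1, 1⟩, 0, 0, 0, 0, [h5, h0 5884, f8], 0, ca4_4, 0, 0⟩)))

noncomputable def a17_3 : T5 :=
  (.nd 2 1872 .lw
  (.lf ⟨⟨0, 0, 0, 10513, 16, 1, 1⟩, 0, 0, 0, 0, [h5, h0 5884, f11], 26, ca4_5, 0, 0⟩))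

noncomputable def a17_4 : T5 :=
  (.nd 2 1669 .lw
  (.nd 2 1947 (.nd 2 1808 (.nd 2 1738 (.nd 2 1703 (.lf ⟨⟨0, 0, 0, 5202, 16, 2, 1⟩, 0, 0, 0, 0, [h5, h0 5882], 11, ca4_6, 0, 0⟩)
  (.lf ⟨⟨0, 0, 0, 5853, 16, 2, 1⟩, 0, 0, 0, 0, [h5, h0 5882, f7], 12, ca4_7, 0, 0⟩))
  (.lf ⟨⟨0, 0, 0, 6608, 16, 2, 1⟩, 0, 0, 0, 0, [h5, h0 5882, f7], 12, ca4_7, 0, 0⟩))
  (.lf ⟨⟨0, 0, 0, 8422, 16, 1, 1⟩, 0, 0, 0, 0, [h5, h0 5884, f7], 12, ca4_7, 0, 0⟩))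
  (.lf ⟨⟨0, 0, 0, 13634, 16, 1, 1⟩, 0, 0, 0, 0, [h5, h0 5884, f7], 0, ca4_8, 0, 0⟩)))

noncomputable def a17_5 : T5 :=
  (.nd 2 1455 .lw
  (.nd 2 1697 (.nd 2 1576 (.nd 2 1515 (.nd 2 1485 (.lf ⟨⟨0, 0, 0, 2478, 16, 3, 2⟩, 43994, 256, 1, 0, [h5, h0 5880], 22, ca4_9, 0, 0⟩)
  (.nd 2 1500 (.nd 2 1492 (.lf ⟨⟨0, 0, 0, 2749, 16, 3, 2⟩, 45074, 256, 1, 0, [h5, h0 5880], 22, ca4_10, 0, 0⟩)
  (.lf ⟨⟨0, 0, 0, 2817, 16, 3, 2⟩, 46341, 256, 1, 0, [h5, h0 5880], 17, ca4_10, 0, 0⟩))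
  (.lf ⟨⟨0, 0, 0, 2896, 16, 3, 2⟩, 48814, 256, 1, 0, [h5, h0 5880], 17, ca4_10, 0, 0⟩)))
  (.lf ⟨⟨0, 0, 0, 3050, 16, 3, 2⟩, 60306, 256, 1, 0, [h5, h0 5880], 17, ca4_9, 0, 0⟩))
  (.lf ⟨⟨0, 0, 0, 3769, 16, 2, 2⟩, 0, 0, 0, 0, [h5, h0 5882, f6], 24, ca4_11, 0, 0⟩))
  (.lf ⟨⟨0, 0, 0, 5732, 16, 2, 1⟩, 0, 0, 0, 0, [h5, h0 5882, f6], 0, ca4_7, 0, 0⟩)))

noncomputable def a17_6 : T5 :=
  (.nd 2 1257 .lw
  (.nd 2 1466 (.nd 2 1361 (.nd 2 1309 (.nd 2 1283 (.lf ⟨⟨0, 0, 0, 1247, 16, 6, 4⟩, 21845, 256, 3, 0, [h5, h0 5874], 22, ca4_12, 0, 0⟩)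
  (.lf ⟨⟨0, 0, 0, 1365, 16, 6, 4⟩, 23905, 256, 3, 0, [h5, h0 5874], 17, ca4_13, 0, 0⟩))
  (.lf ⟨⟨0, 0, 0, 1494, 16, 5, 4⟩, 28626, 256, 2, 0, [h5, h0 5876], 17, ca4_14, 0, 0⟩))
  (.lf ⟨⟨0, 0, 0, 1789, 16, 4, 3⟩, 41190, 256, 1, 0, [h5, h0 5878], 17, ca4_12, 0, 0⟩))
  (.lf ⟨⟨0, 0, 0, 2574, 16, 3, 2⟩, 0, 0, 0, 0, [h5, h0 5880, f6], 0, ca4_15, 0, 0⟩)))

noncomputable def a17_7 : T5 :=
  (.nd 2 1057 .lw
  (.nd 2 1233 (.nd 2 1145 (.nd 2 1101 (.nd 2 1079 (.lf ⟨⟨0, 0, 0, 9981, 256, 12, 8⟩, 10773, 256, 6, 0, [h5, h0 5862], 22, ca4_16, 0, 0⟩)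
  (.lf ⟨⟨0, 0, 0, 10772, 256, 11, 7⟩, 11626, 256, 6, 0, [h5, h0 5864], 22, ca4_17, 0, 0⟩))
  (.lf ⟨⟨0, 0, 0, 11625, 256, 10, 7⟩, 13541, 256, 5, 0, [h5, h0 5866], 17, ca4_17, 0, 0⟩))
  (.lf ⟨⟨0, 0, 0, 13540, 256, 9, 6⟩, 18370, 256, 3, 0, [h5, h0 5868], 17, ca4_18, 0, 0⟩))
  (.lf ⟨⟨0, 0, 0, 1148, 16, 7, 4⟩, 0, 0, 0, 0, [h5, h0 5872], 17, ca4_19, 0, 0⟩)))

noncomputable def a17_8 : T5 :=
  (.nd 2 857 .lw
  (.nd 2 999 (.nd 2 928 (.nd 2 892 (.lf ⟨⟨124002, 256, 1, 4990, 256, 22, 15⟩, 5635, 256, 12, 1, [h5, h0 5846], 22, ca4_20, 0, 0⟩)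
  (.lf ⟨⟨159147, 256, 1, 5634, 256, 20, 13⟩, 6383, 256, 11, 1, [h5, h0 5850], 17, ca4_21, 0, 0⟩))
  (.lf ⟨⟨0, 0, 0, 6382, 256, 18, 12⟩, 8164, 256, 8, 0, [h5, h0 5850], 17, ca4_21, 0, 0⟩))
  (.lf ⟨⟨0, 0, 0, 8163, 256, 14, 9⟩, 0, 0, 0, 0, [h5, h0 5858], 17, ca4_22, 0, 0⟩)))

noncomputable def a17_9 : T5 :=
  (.nd 2 655 .lw
  (.nd 2 801 (.nd 2 728 (.nd 2 691 (.lf ⟨⟨30787, 256, 7, 2478, 256, 44, 29⟩, 2808, 256, 25, 6, [h5, h0 5824], 22, ca4_23, 0, 0⟩)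
  (.lf ⟨⟨39787, 256, 5, 2807, 256, 39, 26⟩, 3192, 256, 22, 4, [h5, h0 5826], 17, ca4_24, 0, 0⟩))
  (.nd 2 764 (.lf ⟨⟨51064, 256, 4, 3191, 256, 35, 23⟩, 3616, 256, 19, 3, [h5, h0 5830], 17, ca4_24, 0, 0⟩)
  (.lf ⟨⟨65992, 256, 3, 3615, 256, 31, 20⟩, 4111, 256, 17, 2, [h5, h0 5834], 17, ca4_25, 0, 0⟩)))
  (.nd 2 934 (.lf ⟨⟨165906, 256, 1, 4110, 256, 27, 18⟩, 6518, 256, 11, 1, [h5, h0 5836], 17, ca4_26, 0, 0⟩)
  (.lf ⟨⟨0, 0, 0, 6517, 256, 17, 12⟩, 0, 0, 0, 0, [h5, h0 5852], 0, ca4_27, 0, 0⟩))))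

noncomputable def a17_10 : T5 :=
  (.nd 2 445 .lw
  (.nd 2 500 (.nd 2 472 (.lf ⟨⟨6747, 256, 33, 1196, 256, 89, 56⟩, 1315, 256, 51, 23, [h5, h0 5820], 22, ca4_28, 0, 0⟩)
  (.nd 2 486 (.lf ⟨⟨7435, 256, 30, 1314, 256, 81, 52⟩, 1380, 256, 49, 21, [h5, h0 5826], 17, ca4_29, 0, 0⟩)
  (.lf ⟨⟨8192, 256, 27, 1379, 256, 77, 50⟩, 1449, 256, 46, 19, [h5, h0 5824], 17, ca4_30, 0, 0⟩)))
  (.nd 2 600 (.nd 2 550 (.nd 2 525 (.nd 2 512 (.lf ⟨⟨8903, 256, 25, 1448, 256, 74, 47⟩, 1510, 256, 45, 18, [h5, h0 5824], 17, ca4_31, 0, 0⟩)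
  (.lf ⟨⟨9742, 256, 23, 1509, 256, 71, 46⟩, 1580, 256, 43, 16, [h5, h0 5822], 17, ca4_31, 0, 0⟩))
  (.nd 2 537 (.lf ⟨⟨10587, 256, 21, 1579, 256, 68, 44⟩, 1647, 256, 41, 15, [h5, h0 5822], 17, ca4_32, 0, 0⟩)
  (.lf ⟨⟨11586, 256, 19, 1646, 256, 65, 42⟩, 1723, 256, 39, 14, [h5, h0 5822], 17, ca4_32, 0, 0⟩)))
  (.nd 2 575 (.nd 2 562 (.lf ⟨⟨12591, 256, 17, 1722, 256, 63, 40⟩, 1796, 256, 38, 13, [h5, h0 5820], 17, ca4_32, 0, 0⟩)
  (.lf ⟨⟨13778, 256, 16, 1795, 256, 60, 39⟩, 1879, 256, 36, 12, [h5, h0 5822], 17, ca4_33, 0, 0⟩))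
  (.nd 2 587 (.lf ⟨⟨14973, 256, 14, 1878, 256, 58, 37⟩, 1958, 256, 35, 11, [h5, h0 5820], 17, ca4_34, 0, 0⟩)
  (.lf ⟨⟨16384, 256, 13, 1957, 256, 55, 36⟩, 2048, 256, 33, 10, [h5, h0 5822], 17, ca4_35, 0, 0⟩))))
  (.nd 2 700 (.nd 2 650 (.nd 2 625 (.lf ⟨⟨19484, 256, 11, 2048, 256, 53, 34⟩, 2234, 256, 31, 9, [h5, h0 5820], 17, ca4_36, 0, 0⟩)
  (.lf ⟨⟨23171, 256, 9, 2233, 256, 49, 32⟩, 2436, 256, 28, 7, [h5, h0 5820], 17, ca4_37, 0, 0⟩))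
  (.lf ⟨⟨32768, 256, 6, 2435, 256, 45, 29⟩, 2897, 256, 24, 5, [h5, h0 5818], 0, ca4_38, 0, 0⟩))
  (.lf ⟨⟨0, 0, 0, 2896, 256, 38, 25⟩, 0, 0, 0, 0, [h5, h0 5810], 0, ca4_39, 0, 0⟩)))))

noncomputable def a17_11 : T5 :=
  (.nd 2 331 .lw
  (.nd 2 400 (.nd 2 365 (.lf ⟨⟨3214, 256, 71, 806, 256, 128, 80⟩, 908, 256, 71, 42, [h5, h0 5856], 17, ca4_40, 0, 0⟩)
  (.nd 2 382 (.lf ⟨⟨3616, 256, 63, 907, 256, 115, 72⟩, 963, 256, 67, 39, [h5, h0 5860], 17, ca4_41, 0, 0⟩)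
  (.lf ⟨⟨4096, 256, 55, 962, 256, 109, 69⟩, 1024, 256, 64, 35, [h5, h0 5848], 17, ca4_42, 0, 0⟩)))
  (.nd 2 500 (.nd 2 450 (.nd 2 425 (.nd 2 412 (.lf ⟨⟨4452, 256, 51, 1024, 256, 102, 65⟩, 1068, 256, 61, 32, [h5, h0 5848], 17, ca4_43, 0, 0⟩)
  (.lf ⟨⟨4871, 256, 46, 1067, 256, 99, 63⟩, 1117, 256, 59, 30, [h5, h0 5840], 17, ca4_44, 0, 0⟩))
  (.nd 2 437 (.lf ⟨⟨5294, 256, 42, 1116, 256, 94, 60⟩, 1165, 256, 57, 28, [h5, h0 5838], 17, ca4_45, 0, 0⟩)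
  (.lf ⟨⟨5793, 256, 39, 1164, 256, 91, 58⟩, 1218, 256, 55, 26, [h5, h0 5834], 0, ca4_46, 0, 0⟩)))
  (.lf ⟨⟨8192, 256, 27, 1217, 256, 87, 56⟩, 1449, 256, 46, 19, [h5, h0 5804], 0, ca4_47, 0, 0⟩))
  (.lf ⟨⟨0, 0, 0, 1448, 256, 74, 47⟩, 0, 0, 0, 0, [h5, h0 5738], 0, ca4_48, 0, 0⟩))))

noncomputable def a17_12 : T5 :=
  (.nd 2 192 .lw
  (.nd 2 200 (.lf ⟨⟨1024, 256, 249, 497, 256, 199, 120⟩, 512, 256, 116, 101, [h5, h0 6188], 17, ca4_49, 0, 0⟩)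
  (.nd 2 300 (.nd 2 250 (.nd 2 225 (.lf ⟨⟨1218, 256, 204, 512, 256, 194, 117⟩, 559, 256, 108, 89, [h5, h0 6084], 17, ca4_50, 0, 0⟩)
  (.nd 2 237 (.lf ⟨⟨1324, 256, 185, 558, 256, 179, 109⟩, 583, 256, 105, 84, [h5, h0 6066], 12, ca4_51, 0, 0⟩)
  (.lf ⟨⟨1449, 256, 168, 582, 256, 173, 106⟩, 609, 256, 101, 79, [h5, h0 6034], 12, ca4_52, 0, 0⟩)))
  (.nd 2 275 (.nd 2 262 (.lf ⟨⟨1574, 256, 153, 608, 256, 166, 102⟩, 635, 256, 97, 74, [h5, h0 6008], 12, ca4_53, 0, 0⟩)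
  (.lf ⟨⟨1723, 256, 139, 634, 256, 160, 98⟩, 664, 256, 94, 69, [h5, h0 5982], 12, ca4_54, 0, 0⟩))
  (.nd 2 287 (.lf ⟨⟨1872, 256, 127, 663, 256, 153, 95⟩, 693, 256, 90, 65, [h5, h0 5964], 12, ca4_55, 0, 0⟩)
  (.lf ⟨⟨2048, 256, 115, 692, 256, 147, 91⟩, 725, 256, 87, 61, [h5, h0 5944], 12, ca4_56, 0, 0⟩))))
  (.nd 2 400 (.nd 2 350 (.nd 2 325 (.lf ⟨⟨2436, 256, 96, 724, 256, 141, 88⟩, 790, 256, 80, 53, [h5, h0 5902], 12, ca4_57, 0, 0⟩)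
  (.lf ⟨⟨2897, 256, 80, 789, 256, 131, 82⟩, 862, 256, 75, 46, [h5, h0 5876], 12, ca4_58, 0, 0⟩))
  (.lf ⟨⟨4096, 256, 55, 861, 256, 120, 76⟩, 1024, 256, 64, 35, [h5, h0 5826], 0, ca4_59, 0, 0⟩))
  (.lf ⟨⟨0, 0, 0, 1024, 256, 102, 65⟩, 0, 0, 0, 0, [h5, h0 5682], 0, ca4_60, 0, 0⟩)))))

noncomputable def a17_13 : T5 :=
  (.nd 2 99 (.nd 2 59 (.lf ⟨⟨386, 256, 942, 256, 256, 351, 200⟩, 315, 256, 171, 194, [h5, h0 7456], 17, ca4_61, 0, 0⟩)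
  (.lf ⟨⟨509, 256, 605, 314, 256, 296, 173⟩, 361, 256, 154, 163, [h5, h0 6830], 12, ca4_62, 0, 0⟩))
  (.nd 2 159 (.nd 2 129 (.nd 2 114 (.lf ⟨⟨565, 256, 522, 360, 256, 264, 155⟩, 381, 256, 148, 152, [h5, h0 6706], 12, ca4_63, 0, 0⟩)
  (.nd 2 121 (.lf ⟨⟨593, 256, 489, 380, 256, 252, 149⟩, 390, 256, 145, 147, [h5, h0 6654], 12, ca4_64, 0, 0⟩)
  (.lf ⟨⟨626, 256, 455, 389, 256, 247, 146⟩, 401, 256, 142, 142, [h5, h0 6586], 12, ca4_65, 0, 0⟩)))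
  (.nd 2 144 (.nd 2 136 (.lf ⟨⟨658, 256, 426, 400, 256, 241, 143⟩, 411, 256, 139, 137, [h5, h0 6530], 12, ca4_66, 0, 0⟩)
  (.lf ⟨⟨695, 256, 397, 410, 256, 236, 140⟩, 422, 256, 136, 133, [h5, h0 6474], 17, ca4_67, 0, 0⟩))
  (.lf ⟨⟨771, 256, 349, 421, 256, 230, 138⟩, 445, 256, 131, 123, [h5, h0 6370], 0, ca4_68, 0, 0⟩)))
  (.nd 2 200 (.lf ⟨⟨1024, 256, 249, 444, 256, 220, 132⟩, 512, 256, 116, 101, [h5, h0 6146], 0, ca4_69, 0, 0⟩)
  (.nd 2 300 (.nd 2 250 (.lf ⟨⟨1449, 256, 168, 512, 256, 194, 117⟩, 609, 256, 101, 79, [h5, h0 5992], 0, ca4_70, 0, 0⟩)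
  (.lf ⟨⟨2048, 256, 115, 608, 256, 166, 102⟩, 725, 256, 87, 61, [h5, h0 5906], 0, ca4_71, 0, 0⟩))
  (.nd 2 400 (.lf ⟨⟨4096, 256, 55, 724, 256, 141, 88⟩, 1024, 256, 64, 35, [h5, h0 5784], 0, ca4_72, 0, 0⟩)
  (.lf ⟨⟨0, 0, 0, 1024, 256, 102, 65⟩, 0, 0, 0, 0, [h5, h0 5682], 0, ca4_73, 0, 0⟩))))))

noncomputable def a17_14 : T5 :=
  (.nd 2 99 (.lf ⟨⟨509, 256, 605, 256, 256, 351, 200⟩, 361, 256, 154, 163, [h5, h0 6720], 0, ca4_74, 0, 0⟩)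
  (.nd 2 159 (.lf ⟨⟨771, 256, 349, 360, 256, 264, 155⟩, 445, 256, 131, 123, [h5, h0 6302], 0, ca4_75, 0, 0⟩)
  (.nd 2 200 (.lf ⟨⟨1024, 256, 249, 444, 256, 220, 132⟩, 512, 256, 116, 101, [h5, h0 6146], 0, ca4_76, 0, 0⟩)
  (.nd 2 300 (.lf ⟨⟨2048, 256, 115, 512, 256, 194, 117⟩, 725, 256, 87, 61, [h5, h0 5850], 0, ca4_77, 0, 0⟩)
  (.lf ⟨⟨0, 0, 0, 724, 256, 141, 88⟩, 0, 0, 0, 0, [h5, h0 5604], 0, ca4_78, 0, 0⟩)))))

theorem sa17 : SA cs17.st (bxL 727 737) :=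
  sa_nd 100 (sa_rc 1 2 0 1 25606380 2461 a17_0 (by decide +kernel)) <|
  sa_nd 200 (sa_rc 2 4 0 1 15120473 2385 a17_1 (by decide +kernel)) <|
  sa_nd 300 (sa_rc 4 8 1 2 646659685440718 4920 a17_2 (by decide +kernel)) <|
  sa_nd 369 (sa_rc 8 12 0 1 5611674 2242 a17_3 (by decide +kernel)) <|
  sa_nd 469 (sa_rc 13 25 1 2 193590300612708 4746 a17_4 (by decide +kernel)) <|
  sa_nd 569 (sa_rc 26 51 1 1 64375125 2594 a17_5 (by decide +kernel)) <|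
  sa_nd 669 (sa_rc 52 103 1 1 65273768 2596 a17_6 (by decide +kernel)) <|
  sa_nd 769 (sa_rc 104 206 1 1 65273768 2596 a17_7 (by decide +kernel)) <|
  sa_nd 869 (sa_rc 207 413 1 1 65273768 2596 a17_8 (by decide +kernel)) <|
  sa_nd 969 (sa_rc 414 826 1 1 64375125 2594 a17_9 (by decide +kernel)) <|
  sa_nd 1069 (sa_rc 827 1652 1 1 60064115 2584 a17_10 (by decide +kernel)) <|
  sa_nd 1119 (sa_rc 1653 2336 1 1 54509335 2570 a17_11 (by decide +kernel)) <|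
  sa_nd 1169 (sa_rc 2337 3304 2 1 137438953472 3700 a17_12 (by decide +kernel)) <|
  sa_nd 1219 (sa_rc 3305 4672 2 1 95846054932 3648 a17_13 (by decide +kernel)) <|
  sa_no a17_14 (by decide +kernel)

noncomputable def a18_0 : T5 :=
  (.nd 2 2391 .lw
  (.lf ⟨⟨0, 0, 0, 63523, 16, 1, 1⟩, 0, 0, 0, 0, [h5, h0 5884, f10], 26, ca4_0, 0, 0⟩))

noncomputable def a18_1 : T5 :=
  (.nd 2 2211 .lw
  (.lf ⟨⟨0, 0, 0, 34041, 16, 1, 1⟩, 0, 0, 0, 0, [h5, h0 5884, f9], 26, ca4_1, 0, 0⟩))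

noncomputable def a18_2 : T5 :=
  (.nd 2 2040 .lw
  (.nd 2 2380 (.nd 2 2210 (.nd 2 2125 (.nd 2 2082 (.nd 2 2061 (.lf ⟨⟨0, 0, 0, 18820, 16, 1, 1⟩, 0, 0, 0, 0, [h5, h0 5884], 11, ca4_79, 0, 0⟩)
  (.nd 2 2071 (.lf ⟨⟨0, 0, 0, 20241, 16, 1, 1⟩, 0, 0, 0, 0, [h5, h0 5884], 11, ca4_2, 0, 0⟩)
  (.lf ⟨⟨0, 0, 0, 20954, 16, 1, 1⟩, 0, 0, 0, 0, [h5, h0 5884, f8], 13, ca4_1, 0, 0⟩)))
  (.lf ⟨⟨0, 0, 0, 21769, 16, 1, 1⟩, 0, 0, 0, 0, [h5, h0 5884, f8], 13, ca4_1, 0, 0⟩))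
  (.lf ⟨⟨0, 0, 0, 25267, 16, 1, 1⟩, 0, 0, 0, 0, [h5, h0 5884, f8], 13, ca4_1, 0, 0⟩))
  (.lf ⟨⟨0, 0, 0, 33923, 16, 1, 1⟩, 0, 0, 0, 0, [h5, h0 5884, f8], 0, ca4_0, 0, 0⟩))
  (.lf ⟨⟨0, 0, 0, 61147, 16, 1, 1⟩, 0, 0, 0, 0, [h5, h0 5884, f8], 0, ca4_4, 0, 0⟩)))

noncomputable def a18_3 : T5 :=
  (.nd 2 1899 .lw
  (.lf ⟨⟨0, 0, 0, 11545, 16, 1, 1⟩, 0, 0, 0, 0, [h5, h0 5884, f11], 26, ca4_5, 0, 0⟩))

noncomputable def a18_4 : T5 :=
  (.nd 2 1696 .lw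
  (.nd 2 1978 (.nd 2 1837 (.nd 2 1766 (.nd 2 1731 (.lf ⟨⟨0, 0, 0, 5712, 16, 2, 1⟩, 0, 0, 0, 0, [h5, h0 5882], 11, ca4_80, 0, 0⟩)
  (.lf ⟨⟨0, 0, 0, 6449, 16, 2, 1⟩, 0, 0, 0, 0, [h5, h0 5882, f7], 12, ca4_7, 0, 0⟩))
  (.lf ⟨⟨0, 0, 0, 7281, 16, 1, 1⟩, 0, 0, 0, 0, [h5, h0 5884, f7], 12, ca4_7, 0, 0⟩))
  (.lf ⟨⟨0, 0, 0, 9312, 16, 1, 1⟩, 0, 0, 0, 0, [h5, h0 5884, f7], 12, ca4_7, 0, 0⟩))
  (.lf ⟨⟨0, 0, 0, 15181, 16, 1, 1⟩, 0, 0, 0, 0, [h5, h0 5884, f7], 0, ca4_8, 0, 0⟩)))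

noncomputable def a18_5 : T5 :=
  (.nd 2 1506 .lw
  (.nd 2 1757 (.nd 2 1631 (.nd 2 1568 (.lf ⟨⟨0, 0, 0, 2957, 16, 3, 2⟩, 58657, 256, 1, 0, [h5, h0 5880], 11, ca4_81, 0, 0⟩)
  (.nd 2 1599 (.nd 2 1583 (.lf ⟨⟨0, 0, 0, 3666, 16, 2, 2⟩, 61787, 256, 1, 0, [h5, h0 5882], 11, ca4_82, 0, 0⟩)
  (.nd 2 1591 (.lf ⟨⟨0, 0, 0, 3861, 16, 2, 2⟩, 63524, 256, 1, 0, [h5, h0 5882], 11, ca4_83, 0, 0⟩)
  (.lf ⟨⟨0, 0, 0, 3970, 16, 2, 2⟩, 65310, 256, 1, 0, [h5, h0 5882, f6], 12, ca4_84, 0, 0⟩)))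
  (.lf ⟨⟨0, 0, 0, 4081, 16, 2, 2⟩, 72970, 256, 1, 0, [h5, h0 5882, f6], 12, ca4_85, 0, 0⟩)))
  (.lf ⟨⟨0, 0, 0, 4560, 16, 2, 2⟩, 0, 0, 0, 0, [h5, h0 5882, f6], 12, ca4_86, 0, 0⟩))
  (.lf ⟨⟨0, 0, 0, 7057, 16, 1, 1⟩, 0, 0, 0, 0, [h5, h0 5884, f6], 0, ca4_7, 0, 0⟩)))

noncomputable def a18_6 : T5 :=
  (.nd 2 1282 .lw
  (.nd 2 1495 (.nd 2 1388 (.nd 2 1335 (.nd 2 1308 (.lf ⟨⟨0, 0, 0, 1360, 16, 6, 4⟩, 23822, 256, 3, 0, [h5, h0 5874], 22, ca4_12, 0, 0⟩)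
  (.nd 2 1321 (.lf ⟨⟨0, 0, 0, 1488, 16, 5, 4⟩, 24920, 256, 2, 0, [h5, h0 5876], 22, ca4_87, 0, 0⟩)
  (.lf ⟨⟨0, 0, 0, 1557, 16, 5, 3⟩, 26159, 256, 2, 0, [h5, h0 5876], 17, ca4_13, 0, 0⟩)))
  (.lf ⟨⟨0, 0, 0, 1634, 16, 5, 3⟩, 31434, 256, 2, 0, [h5, h0 5876], 17, ca4_14, 0, 0⟩))
  (.lf ⟨⟨0, 0, 0, 1964, 16, 4, 3⟩, 45545, 256, 1, 0, [h5, h0 5878], 17, ca4_12, 0, 0⟩))
  (.lf ⟨⟨0, 0, 0, 2846, 16, 3, 2⟩, 0, 0, 0, 0, [h5, h0 5880, f6], 0, ca4_15, 0, 0⟩)))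

noncomputable def a18_7 : T5 :=
  (.nd 2 1084 .lw
  (.nd 2 1264 (.nd 2 1174 (.nd 2 1129 (.lf ⟨⟨0, 0, 0, 10960, 256, 11, 7⟩, 12811, 256, 5, 0, [h5, h0 5864], 22, ca4_17, 0, 0⟩)
  (.lf ⟨⟨0, 0, 0, 12810, 256, 9, 6⟩, 14973, 256, 4, 0, [h5, h0 5868], 17, ca4_18, 0, 0⟩))
  (.lf ⟨⟨0, 0, 0, 14972, 256, 8, 5⟩, 20453, 256, 3, 0, [h5, h0 5870], 17, ca4_88, 0, 0⟩))
  (.lf ⟨⟨0, 0, 0, 1278, 16, 6, 4⟩, 0, 0, 0, 0, [h5, h0 5874], 17, ca4_89, 0, 0⟩)))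

noncomputable def a18_8 : T5 :=
  (.nd 2 882 .lw
  (.nd 2 1029 (.nd 2 955 (.nd 2 918 (.lf ⟨⟨148490, 256, 1, 5442, 256, 21, 14⟩, 6166, 256, 11, 1, [h5, h0 5848], 22, ca4_22, 0, 0⟩)
  (.nd 2 936 (.lf ⟨⟨168222, 256, 1, 6165, 256, 18, 12⟩, 6563, 256, 11, 1, [h5, h0 5854], 17, ca4_21, 0, 0⟩)
  (.lf ⟨⟨191901, 256, 1, 6562, 256, 17, 12⟩, 7010, 256, 10, 1, [h5, h0 5856], 17, ca4_21, 0, 0⟩)))
  (.lf ⟨⟨0, 0, 0, 7009, 256, 16, 11⟩, 9059, 256, 8, 0, [h5, h0 5854], 17, ca4_21, 0, 0⟩))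
  (.lf ⟨⟨0, 0, 0, 9058, 256, 13, 9⟩, 0, 0, 0, 0, [h5, h0 5860], 17, ca4_22, 0, 0⟩)))

noncomputable def a18_9 : T5 :=
  (.nd 2 680 .lw
  (.nd 2 801 (.nd 2 740 (.nd 2 710 (.lf ⟨⟨35120, 256, 6, 2702, 256, 41, 27⟩, 2999, 256, 23, 5, [h5, h0 5826], 22, ca4_90, 0, 0⟩)
  (.nd 2 725 (.lf ⟨⟨38968, 256, 5, 2998, 256, 37, 24⟩, 3159, 256, 22, 4, [h5, h0 5830], 17, ca4_91, 0, 0⟩)
  (.lf ⟨⟨43238, 256, 5, 3158, 256, 35, 23⟩, 3327, 256, 21, 4, [h5, h0 5834], 17, ca4_91, 0, 0⟩)))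
  (.nd 2 770 (.lf ⟨⟨53232, 256, 4, 3326, 256, 33, 22⟩, 3692, 256, 19, 3, [h5, h0 5834], 17, ca4_91, 0, 0⟩)
  (.lf ⟨⟨65992, 256, 3, 3691, 256, 30, 20⟩, 4111, 256, 17, 2, [h5, h0 5836], 17, ca4_26, 0, 0⟩)))
  (.nd 2 934 (.lf ⟨⟨165906, 256, 1, 4110, 256, 27, 18⟩, 6518, 256, 11, 1, [h5, h0 5836], 17, ca4_92, 0, 0⟩)
  (.lf ⟨⟨0, 0, 0, 6517, 256, 17, 12⟩, 0, 0, 0, 0, [h5, h0 5852], 0, ca4_93, 0, 0⟩))))

noncomputable def a18_10 : T5 :=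
  (.nd 2 472 .lw
  (.nd 2 500 (.lf ⟨⟨8192, 256, 27, 1314, 256, 81, 52⟩, 1449, 256, 46, 19, [h5, h0 5816], 22, ca4_94, 0, 0⟩)
  (.nd 2 600 (.nd 2 550 (.nd 2 525 (.nd 2 512 (.lf ⟨⟨8903, 256, 25, 1448, 256, 74, 47⟩, 1510, 256, 45, 18, [h5, h0 5824], 17, ca4_95, 0, 0⟩)
  (.lf ⟨⟨9742, 256, 23, 1509, 256, 71, 46⟩, 1580, 256, 43, 16, [h5, h0 5822], 17, ca4_95, 0, 0⟩))
  (.nd 2 537 (.lf ⟨⟨10587, 256, 21, 1579, 256, 68, 44⟩, 1647, 256, 41, 15, [h5, h0 5822], 17, ca4_32, 0, 0⟩)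
  (.lf ⟨⟨11586, 256, 19, 1646, 256, 65, 42⟩, 1723, 256, 39, 14, [h5, h0 5822], 17, ca4_32, 0, 0⟩)))
  (.nd 2 575 (.nd 2 562 (.lf ⟨⟨12591, 256, 17, 1722, 256, 63, 40⟩, 1796, 256, 38, 13, [h5, h0 5820], 17, ca4_32, 0, 0⟩)
  (.lf ⟨⟨13778, 256, 16, 1795, 256, 60, 39⟩, 1879, 256, 36, 12, [h5, h0 5822], 17, ca4_32, 0, 0⟩))
  (.nd 2 587 (.lf ⟨⟨14973, 256, 14, 1878, 256, 58, 37⟩, 1958, 256, 35, 11, [h5, h0 5820], 17, ca4_96, 0, 0⟩)
  (.lf ⟨⟨16384, 256, 13, 1957, 256, 55, 36⟩, 2048, 256, 33, 10, [h5, h0 5822], 17, ca4_97, 0, 0⟩))))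
  (.nd 2 700 (.nd 2 650 (.nd 2 625 (.lf ⟨⟨19484, 256, 11, 2048, 256, 53, 34⟩, 2234, 256, 31, 9, [h5, h0 5820], 17, ca4_97, 0, 0⟩)
  (.lf ⟨⟨23171, 256, 9, 2233, 256, 49, 32⟩, 2436, 256, 28, 7, [h5, h0 5820], 17, ca4_97, 0, 0⟩))
  (.nd 2 675 (.lf ⟨⟨27555, 256, 8, 2435, 256, 45, 29⟩, 2656, 256, 26, 6, [h5, h0 5824], 17, ca4_98, 0, 0⟩)
  (.lf ⟨⟨32768, 256, 6, 2655, 256, 41, 27⟩, 2897, 256, 24, 5, [h5, h0 5826], 0, ca4_99, 0, 0⟩)))
  (.lf ⟨⟨0, 0, 0, 2896, 256, 38, 25⟩, 0, 0, 0, 0, [h5, h0 5810], 0, ca4_100, 0, 0⟩)))))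

noncomputable def a18_11 : T5 :=
  (.nd 2 360 .lw
  (.nd 2 400 (.lf ⟨⟨4096, 256, 55, 891, 256, 117, 73⟩, 1024, 256, 64, 35, [h5, h0 5832], 17, ca4_101, 0, 0⟩)
  (.nd 2 500 (.nd 2 450 (.nd 2 425 (.lf ⟨⟨4871, 256, 46, 1024, 256, 102, 65⟩, 1117, 256, 59, 30, [h5, h0 5834], 17, ca4_102, 0, 0⟩)
  (.lf ⟨⟨5793, 256, 39, 1116, 256, 94, 60⟩, 1218, 256, 55, 26, [h5, h0 5828], 17, ca4_103, 0, 0⟩))
  (.nd 2 475 (.nd 2 462 (.lf ⟨⟨6296, 256, 35, 1217, 256, 87, 56⟩, 1270, 256, 52, 24, [h5, h0 5830], 17, ca4_104, 0, 0⟩)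
  (.lf ⟨⟨6889, 256, 32, 1269, 256, 84, 54⟩, 1328, 256, 50, 22, [h5, h0 5826], 0, ca4_104, 0, 0⟩))
  (.lf ⟨⟨8192, 256, 27, 1327, 256, 80, 51⟩, 1449, 256, 46, 19, [h5, h0 5818], 0, ca4_105, 0, 0⟩)))
  (.lf ⟨⟨0, 0, 0, 1448, 256, 74, 47⟩, 0, 0, 0, 0, [h5, h0 5738], 0, ca4_106, 0, 0⟩))))

noncomputable def a18_12 : T5 :=
  (.nd 2 248 .lw
  (.nd 2 300 (.nd 2 274 (.lf ⟨⟨1711, 256, 140, 604, 256, 167, 102⟩, 662, 256, 94, 70, [h5, h0 5972], 22, ca4_107, 0, 0⟩)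
  (.nd 2 287 (.lf ⟨⟨1872, 256, 127, 661, 256, 154, 95⟩, 693, 256, 90, 65, [h5, h0 5962], 22, ca4_108, 0, 0⟩)
  (.nd 2 293 (.lf ⟨⟨1952, 256, 121, 692, 256, 147, 91⟩, 707, 256, 89, 63, [h5, h0 5960], 17, ca4_109, 0, 0⟩)
  (.lf ⟨⟨2048, 256, 115, 706, 256, 145, 90⟩, 725, 256, 87, 61, [h5, h0 5948], 17, ca4_110, 0, 0⟩))))
  (.nd 2 400 (.nd 2 350 (.nd 2 325 (.nd 2 312 (.lf ⟨⟨2226, 256, 105, 724, 256, 141, 88⟩, 755, 256, 84, 57, [h5, h0 5928], 17, ca4_111, 0, 0⟩)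
  (.lf ⟨⟨2436, 256, 96, 754, 256, 136, 85⟩, 790, 256, 80, 53, [h5, h0 5912], 17, ca4_112, 0, 0⟩))
  (.lf ⟨⟨2897, 256, 80, 789, 256, 131, 82⟩, 862, 256, 75, 46, [h5, h0 5876], 17, ca4_113, 0, 0⟩))
  (.nd 2 375 (.nd 2 362 (.lf ⟨⟨3148, 256, 73, 861, 256, 120, 76⟩, 898, 256, 72, 43, [h5, h0 5878], 0, ca4_114, 0, 0⟩)
  (.lf ⟨⟨3445, 256, 66, 897, 256, 116, 73⟩, 940, 256, 69, 40, [h5, h0 5866], 0, ca4_115, 0, 0⟩))
  (.lf ⟨⟨4096, 256, 55, 939, 256, 111, 70⟩, 1024, 256, 64, 35, [h5, h0 5844], 0, ca4_116, 0, 0⟩)))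
  (.nd 2 500 (.lf ⟨⟨8192, 256, 27, 1024, 256, 102, 65⟩, 1449, 256, 46, 19, [h5, h0 5774], 0, ca4_117, 0, 0⟩)
  (.lf ⟨⟨0, 0, 0, 1448, 256, 74, 47⟩, 0, 0, 0, 0, [h5, h0 5738], 0, ca4_118, 0, 0⟩)))))

noncomputable def a18_13 : T5 :=
  (.nd 2 35 .lw
  (.nd 2 99 (.nd 2 59 (.lf ⟨⟨386, 256, 942, 289, 256, 318, 184⟩, 315, 256, 171, 194, [h5, h0 7522], 17, ca4_119, 0, 0⟩)
  (.lf ⟨⟨509, 256, 605, 314, 256, 296, 173⟩, 361, 256, 154, 163, [h5, h0 6830], 17, ca4_120, 0, 0⟩))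
  (.nd 2 159 (.nd 2 129 (.nd 2 114 (.lf ⟨⟨565, 256, 522, 360, 256, 264, 155⟩, 381, 256, 148, 152, [h5, h0 6706], 17, ca4_121, 0, 0⟩)
  (.nd 2 121 (.lf ⟨⟨593, 256, 489, 380, 256, 252, 149⟩, 390, 256, 145, 147, [h5, h0 6654], 12, ca4_121, 0, 0⟩)
  (.lf ⟨⟨626, 256, 455, 389, 256, 247, 146⟩, 401, 256, 142, 142, [h5, h0 6586], 12, ca4_122, 0, 0⟩)))
  (.nd 2 144 (.nd 2 136 (.lf ⟨⟨658, 256, 426, 400, 256, 241, 143⟩, 411, 256, 139, 137, [h5, h0 6530], 12, ca4_66, 0, 0⟩)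
  (.lf ⟨⟨695, 256, 397, 410, 256, 236, 140⟩, 422, 256, 136, 133, [h5, h0 6474], 17, ca4_123, 0, 0⟩))
  (.lf ⟨⟨771, 256, 349, 421, 256, 230, 138⟩, 445, 256, 131, 123, [h5, h0 6370], 17, ca4_124, 0, 0⟩)))
  (.nd 2 200 (.lf ⟨⟨1024, 256, 249, 444, 256, 220, 132⟩, 512, 256, 116, 101, [h5, h0 6146], 12, ca4_125, 0, 0⟩)
  (.nd 2 300 (.nd 2 250 (.nd 2 225 (.lf ⟨⟨1218, 256, 204, 512, 256, 194, 117⟩, 559, 256, 108, 89, [h5, h0 6084], 0, ca4_126, 0, 0⟩)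
  (.nd 2 237 (.lf ⟨⟨1324, 256, 185, 558, 256, 179, 109⟩, 583, 256, 105, 84, [h5, h0 6066], 0, ca4_127, 0, 0⟩)
  (.lf ⟨⟨1449, 256, 168, 582, 256, 173, 106⟩, 609, 256, 101, 79, [h5, h0 6034], 0, ca4_128, 0, 0⟩)))
  (.lf ⟨⟨2048, 256, 115, 608, 256, 166, 102⟩, 725, 256, 87, 61, [h5, h0 5906], 0, ca4_129, 0, 0⟩))
  (.nd 2 400 (.lf ⟨⟨4096, 256, 55, 724, 256, 141, 88⟩, 1024, 256, 64, 35, [h5, h0 5784], 0, ca4_130, 0, 0⟩)
  (.lf ⟨⟨0, 0, 0, 1024, 256, 102, 65⟩, 0, 0, 0, 0, [h5, h0 5682], 0, ca4_131, 0, 0⟩)))))))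

noncomputable def a18_14 : T5 :=
  (.nd 2 99 (.lf ⟨⟨509, 256, 605, 256, 256, 351, 200⟩, 361, 256, 154, 163, [h5, h0 6720], 0, ca4_132, 0, 0⟩)
  (.nd 2 159 (.lf ⟨⟨771, 256, 349, 360, 256, 264, 155⟩, 445, 256, 131, 123, [h5, h0 6302], 0, ca4_133, 0, 0⟩)
  (.nd 2 200 (.lf ⟨⟨1024, 256, 249, 444, 256, 220, 132⟩, 512, 256, 116, 101, [h5, h0 6146], 0, ca4_134, 0, 0⟩)
  (.nd 2 300 (.lf ⟨⟨2048, 256, 115, 512, 256, 194, 117⟩, 725, 256, 87, 61, [h5, h0 5850], 0, ca4_135, 0, 0⟩)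
  (.lf ⟨⟨0, 0, 0, 724, 256, 141, 88⟩, 0, 0, 0, 0, [h5, h0 5604], 0, ca4_136, 0, 0⟩)))))

theorem sa18 : SA cs18.st (bxL 737 746) :=
  sa_nd 100 (sa_rc 1 2 0 1 31744426 2492 a18_0 (by decide +kernel)) <|
  sa_nd 200 (sa_rc 2 4 0 1 18232385 2412 a18_1 (by decide +kernel)) <|
  sa_nd 300 (sa_rc 4 8 1 2 993835221293353 4982 a18_2 (by decide +kernel)) <|
  sa_nd 373 (sa_rc 8 13 0 1 6956836 2273 a18_3 (by decide +kernel)) <|
  sa_nd 473 (sa_rc 14 26 1 2 305888670120180 4812 a18_4 (by decide +kernel)) <|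
  sa_nd 573 (sa_rc 27 53 1 2 175686906089640 4732 a18_5 (by decide +kernel)) <|
  sa_nd 673 (sa_rc 54 106 1 1 82050000 2629 a18_6 (by decide +kernel)) <|
  sa_nd 773 (sa_rc 107 212 1 1 83195375 2631 a18_7 (by decide +kernel)) <|
  sa_nd 873 (sa_rc 213 424 1 1 82050000 2629 a18_8 (by decide +kernel)) <|
  sa_nd 973 (sa_rc 425 849 1 1 80920393 2627 a18_9 (by decide +kernel)) <|
  sa_nd 1073 (sa_rc 850 1698 1 1 76555357 2619 a18_10 (by decide +kernel)) <|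
  sa_nd 1123 (sa_rc 1699 2401 1 1 70445294 2607 a18_11 (by decide +kernel)) <|
  sa_nd 1173 (sa_rc 2402 3396 1 1 64822889 2595 a18_12 (by decide +kernel)) <|
  sa_nd 1223 (sa_rc 3397 4803 2 1 142285727699 3705 a18_13 (by decide +kernel)) <|
  sa_no a18_14 (by decide +kernel)

end Pool.Agent.MP_2339ce_nt.Q2.TB.RT
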