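import Pool.Agent.MP_2339ce_nt.Q2.RTc
import Pool.Agent.MP_2339ce_nt.Q2.RS

/-! Project Q2, block RT: staircases. -/

set_option autoImplicit false

noncomputable section

namespace Pool.Agent.MP_2339ce_nt.Q2.TB.RT

noncomputable def ca5_0 : List VW := k1 v1 (k1 v144 (k1 v418 (k1 v433 (k1 v160 (k1 v167 (k1 v586 (k0)))))))
noncomputable def ca5_1 : List VW := k8 v1 v144 v418 v149 v155 v160 v167 v586 (k0)
noncomputable def ca5_2 : List VW := k8 v416 v144 v422 v149 v426 v160 v441 v167 (k8 v452 v174 v464 v180 v469 v186 v476 v190 (k8 v480 v195 v485 v199 v488 v202 v493 v205 (k8 v496 v504 v212 v505 v513 v218 v514 v519 (k8 v224 v226 v229 v230 v232 v233 v235 v237 (k8 v240 v241 v244 v245 v247 v249 v251 v252 (k1 v254 (k1 v255 (k1 v256 (k1 v602 (k0))))))))))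
noncomputable def ca5_3 : List VW := k8 v416 v144 v422 v149 v426 v160 v441 v167 (k8 v452 v174 v464 v180 v469 v186 v476 v190 (k8 v480 v195 v485 v199 v488 v202 v493 v205 (k8 v496 v207 v502 v211 v505 v513 v218 v514 (k8 v519 v224 v226 v229 v230 v232 v233 v235 (k8 v237 v240 v241 v244 v245 v248 v249 v251 (k8 v252 v254 v255 v256 v257 v259 v260 v261 (k1 v604 (k0))))))))
noncomputable def ca5_4 : List VW := k1 v1 (k1 v144 (k1 v0 (k1 v149 (k1 v160 (k1 v167 (k1 v586 (k0)))))))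
noncomputable def ca5_5 : List VW := k8 v1 v144 v417 v418 v149 v426 v160 v441 (k8 v167 v452 v174 v464 v180 v469 v186 v476 (k8 v190 v480 v195 v485 v199 v488 v202 v493 (k8 v205 v496 v207 v502 v211 v505 v513 v218 (k8 v514 v519 v224 v226 v229 v230 v232 v233 (k8 v235 v237 v240 v241 v244 v245 v248 v249 (k8 v251 v252 v254 v255 v256 v257 v259 v260 (k1 v261 (k1 v604 (k0)))))))))
noncomputable def ca5_6 : List VW := k8 v1 v144 v418 v149 v152 v160 v167 v586 (k0)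
noncomputable def ca5_7 : List VW := k1 v146 (k1 v0 (k1 v149 (k1 v162 (k1 v167 (k1 v586 (k0))))))
noncomputable def ca5_8 : List VW := k8 v1 v144 v417 v418 v151 v427 v160 v442 (k8 v167 v452 v174 v464 v180 v469 v186 v476 (k8 v190 v480 v195 v485 v199 v488 v202 v493 (k8 v205 v496 v207 v502 v211 v505 v513 v218 (k8 v514 v519 v224 v226 v229 v230 v232 v233 (k8 v235 v237 v240 v241 v244 v245 v248 v249 (k8 v251 v252 v254 v255 v256 v257 v259 v260 (k1 v261 (k1 v604 (k0)))))))))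
noncomputable def ca5_9 : List VW := k1 v145 (k1 v418 (k1 v433 (k1 v160 (k1 v167 (k1 v586 (k0))))))
noncomputable def ca5_10 : List VW := k8 v1 v144 v417 v421 v149 v433 v426 v160 (k8 v443 v167 v452 v174 v464 v180 v469 v186 (k8 v476 v190 v480 v195 v485 v199 v488 v202 (k8 v493 v205 v496 v207 v502 v211 v505 v513 (k8 v218 v514 v519 v224 v226 v229 v230 v232 (k8 v233 v235 v237 v239 v241 v244 v245 v247 (k1 v249 (k1 v251 (k1 v252 (k1 v254 (k1 v255 (k1 v256 (k1 v602 (k0)))))))))))))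
noncomputable def ca5_11 : List VW := k8 v1 v144 v417 v419 v149 v433 v426 v160 (k8 v443 v167 v452 v174 v464 v180 v469 v186 (k8 v476 v190 v480 v195 v485 v199 v488 v202 (k8 v493 v205 v496 v207 v502 v211 v505 v513 (k8 v218 v514 v519 v224 v226 v229 v230 v232 (k8 v233 v235 v237 v240 v241 v244 v245 v248 (k8 v249 v251 v252 v254 v255 v256 v257 v259 (k1 v603 (k0))))))))
noncomputable def ca5_12 : List VW := k8 v1 v144 v418 v149 v154 v163 v441 v586 (k0)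
noncomputable def ca5_13 : List VW := k8 v1 v144 v418 v149 v153 v163 v441 v586 (k0)
noncomputable def ca5_14 : List VW := k8 v1 v144 v417 v422 v149 v433 v426 v160 (k8 v443 v169 v453 v174 v464 v180 v470 v186 (k8 v476 v190 v480 v195 v485 v199 v488 v202 (k8 v493 v205 v496 v207 v502 v211 v505 v513 (k8 v218 v514 v519 v224 v226 v229 v230 v232 (k8 v233 v235 v237 v239 v241 v244 v245 v247 (k1 v249 (k1 v251 (k1 v252 (k1 v254 (k1 v255 (k1 v256 (k1 v602 (k0)))))))))))))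
noncomputable def ca5_15 : List VW := k8 v1 v144 v423 v418 v149 v433 v426 v160 (k8 v444 v167 v460 v452 v174 v465 v180 v470 (k8 v186 v476 v190 v480 v195 v485 v199 v488 (k8 v202 v493 v205 v496 v207 v502 v211 v505 (k8 v213 v511 v516 v220 v518 v223 v226 v229 (k8 v230 v232 v233 v235 v237 v239 v241 v244 (k8 v245 v247 v249 v251 v252 v254 v255 v256 (k1 v257 (k1 v259 (k1 v260 (k1 v261 (k1 v604 (k0))))))))))))
noncomputable def ca5_16 : List VW := k8 v1 v144 v423 v418 v149 v433 v426 v160 (k8 v443 v169 v453 v174 v464 v180 v470 v186 (k8 v476 v190 v480 v195 v485 v199 v488 v202 (k8 v493 v205 v496 v207 v502 v211 v505 v213 (k8 v511 v516 v220 v518 v223 v226 v229 v230 (k8 v232 v233 v235 v237 v239 v241 v244 v245 (k8 v247 v249 v251 v252 v254 v255 v256 v257 (k1 v259 (k1 v603 (k0)))))))))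
noncomputable def ca5_17 : List VW := k8 v1 v144 v417 v422 v149 v433 v426 v160 (k8 v443 v169 v453 v174 v464 v180 v470 v186 (k8 v476 v190 v480 v195 v485 v199 v488 v202 (k8 v493 v205 v496 v207 v502 v211 v505 v513 (k8 v218 v514 v519 v224 v226 v229 v230 v232 (k8 v233 v235 v237 v239 v241 v244 v245 v247 (k1 v249 (k1 v251 (k1 v252 (k1 v254 (k1 v601 (k0)))))))))))
noncomputable def ca5_18 : List VW := k8 v1 v144 v418 v149 v158 v160 v441 v586 (k0)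
noncomputable def ca5_19 : List VW := k8 v1 v144 v423 v418 v149 v433 v426 v161 (k8 v444 v167 v460 v452 v174 v465 v180 v470 (k8 v186 v476 v190 v480 v195 v485 v199 v488 (k8 v202 v493 v205 v496 v207 v502 v211 v505 (k8 v213 v511 v516 v219 v518 v223 v226 v229 (k8 v230 v232 v233 v235 v237 v239 v241 v244 (k8 v245 v247 v249 v251 v252 v254 v255 v256 (k1 v602 (k0))))))))
noncomputable def ca5_20 : List VW := k8 v1 v144 v423 v418 v149 v433 v426 v160 (k8 v436 v443 v167 v460 v452 v174 v465 v180 (k8 v470 v186 v476 v190 v480 v195 v485 v199 (k8 v488 v202 v493 v205 v496 v207 v502 v211 (k8 v505 v213 v511 v516 v220 v518 v223 v226 (k8 v229 v230 v232 v233 v235 v237 v239 v241 (k8 v244 v245 v247 v249 v251 v252 v254 v255 (k1 v256 (k1 v257 (k1 v259 (k1 v260 (k1 v261 (k1 v604 (k0)))))))))))))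
noncomputable def ca5_21 : List VW := k8 v1 v144 v423 v418 v149 v433 v426 v161 (k8 v444 v167 v460 v452 v174 v465 v180 v470 (k8 v186 v476 v190 v480 v195 v485 v199 v488 (k8 v202 v493 v205 v496 v207 v502 v211 v505 (k8 v213 v511 v516 v220 v518 v223 v226 v229 (k8 v230 v232 v233 v235 v237 v239 v241 v244 (k8 v245 v247 v249 v251 v252 v254 v255 v256 (k1 v257 (k1 v259 (k1 v260 (k1 v261 (k1 v604 (k0))))))))))))
noncomputable def ca5_22 : List VW := k8 v1 v144 v423 v418 v149 v433 v426 v161 (k8 v444 v167 v460 v452 v174 v465 v180 v470 (k8 v186 v476 v190 v480 v195 v485 v199 v488 (k8 v202 v493 v205 v496 v207 v502 v211 v505 (k8 v213 v511 v516 v220 v518 v223 v226 v229 (k8 v230 v232 v233 v235 v237 v239 v241 v244 (k8 v245 v247 v249 v251 v252 v254 v255 v256 (k1 v257 (k1 v259 (k1 v603 (k0))))))))))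
noncomputable def ca5_23 : List VW := k8 v1 v144 v423 v418 v149 v433 v426 v160 (k8 v443 v169 v453 v174 v464 v180 v470 v186 (k8 v476 v190 v480 v195 v485 v199 v488 v202 (k8 v493 v205 v496 v207 v502 v211 v505 v513 (k8 v218 v514 v519 v224 v226 v229 v230 v232 (k8 v233 v235 v237 v239 v241 v244 v245 v247 (k1 v249 (k1 v251 (k1 v252 (k1 v254 (k1 v601 (k0)))))))))))
noncomputable def ca5_24 : List VW := k8 v1 v144 v423 v418 v149 v433 v426 v160 (k8 v436 v444 v167 v460 v452 v174 v465 v180 (k8 v470 v186 v476 v190 v481 v195 v485 v199 (k8 v488 v202 v493 v205 v496 v207 v502 v211 (k8 v505 v213 v511 v516 v220 v518 v223 v226 (k8 v229 v230 v232 v233 v235 v237 v239 v241 (k8 v244 v245 v247 v249 v251 v252 v254 v255 (k1 v256 (k1 v257 (k1 v259 (k1 v260 (k1 v261 (k1 v604 (k0)))))))))))))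
noncomputable def ca5_25 : List VW := k8 v1 v144 v423 v418 v149 v433 v426 v160 (k8 v446 v441 v167 v460 v452 v174 v465 v180 (k8 v470 v186 v476 v190 v481 v195 v485 v199 (k8 v488 v202 v493 v205 v496 v207 v502 v211 (k8 v505 v213 v511 v516 v220 v518 v223 v226 (k8 v229 v230 v232 v233 v235 v237 v239 v241 (k8 v244 v245 v247 v249 v251 v252 v254 v255 (k1 v256 (k1 v257 (k1 v259 (k1 v260 (k1 v261 (k1 v604 (k0)))))))))))))
noncomputable def ca5_26 : List VW := k8 v1 v144 v423 v418 v149 v433 v426 v160 (k8 v436 v443 v167 v460 v452 v174 v465 v180 (k8 v470 v186 v476 v190 v481 v195 v485 v199 (k8 v488 v202 v493 v205 v496 v207 v502 v211 (k8 v505 v213 v511 v516 v220 v518 v223 v226 (k8 v229 v230 v232 v233 v235 v237 v239 v241 (k8 v244 v245 v247 v249 v251 v252 v254 v255 (k1 v256 (k1 v257 (k1 v259 (k1 v603 (k0)))))))))))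
noncomputable def ca5_27 : List VW := k8 v1 v144 v274 v423 v418 v149 v433 v426 (k8 v160 v446 v441 v167 v460 v452 v174 v465 (k8 v180 v470 v186 v476 v190 v481 v195 v485 (k8 v199 v489 v202 v493 v205 v497 v207 v502 (k8 v211 v505 v213 v511 v516 v219 v518 v223 (k8 v226 v524 v228 v230 v528 v231 v233 v235 (k8 v237 v239 v241 v243 v245 v247 v249 v251 (k1 v252 (k1 v254 (k1 v255 (k1 v256 (k1 v602 (k0))))))))))))
noncomputable def ca5_28 : List VW := k8 v1 v144 v274 v423 v418 v149 v433 v426 (k8 v160 v446 v441 v167 v460 v452 v174 v465 (k8 v180 v470 v186 v476 v190 v481 v195 v485 (k8 v199 v489 v202 v493 v205 v497 v207 v502 (k8 v211 v505 v213 v511 v516 v219 v518 v223 (k8 v226 v524 v228 v230 v528 v231 v233 v235 (k8 v237 v239 v241 v243 v245 v247 v249 v251 (k8 v252 v254 v255 v256 v257 v259 v260 v261 (k1 v604 (k0)))))))))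
noncomputable def ca5_29 : List VW := k8 v1 v147 v423 v418 v149 v433 v426 v160 (k8 v446 v441 v167 v460 v452 v174 v465 v180 (k8 v470 v186 v476 v190 v481 v195 v485 v199 (k8 v489 v202 v493 v205 v496 v207 v502 v211 (k8 v505 v213 v511 v516 v219 v518 v223 v226 (k8 v524 v228 v230 v528 v231 v233 v235 v237 (k8 v239 v241 v243 v245 v247 v249 v251 v252 (k8 v254 v255 v256 v257 v259 v260 v261 v604 (k0))))))))
noncomputable def ca5_30 : List VW := k8 v1 v144 v423 v418 v149 v433 v426 v160 (k8 v438 v444 v167 v460 v452 v174 v465 v180 (k8 v470 v186 v476 v190 v481 v195 v485 v199 (k8 v488 v202 v493 v205 v496 v207 v502 v211 (k8 v505 v213 v511 v516 v219 v518 v223 v226 (k8 v524 v228 v230 v232 v233 v235 v237 v239 (k8 v241 v243 v245 v247 v249 v251 v252 v254 (k1 v255 (k1 v256 (k1 v602 (k0))))))))))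
noncomputable def ca5_31 : List VW := k8 v1 v144 v423 v418 v149 v433 v426 v161 (k8 v444 v167 v460 v452 v174 v464 v180 v470 (k8 v186 v476 v190 v481 v195 v485 v199 v488 (k8 v202 v493 v205 v496 v207 v502 v211 v214 (k8 v511 v217 v220 v518 v223 v225 v228 v230 (k1 v231 (k1 v595 (k0)))))))
noncomputable def ca5_32 : List VW := k8 v1 v144 v275 v423 v279 v149 v433 v426 (k8 v160 v446 v441 v167 v460 v452 v174 v336 (k8 v464 v182 v345 v470 v186 v478 v476 v190 (k8 v481 v195 v485 v199 v489 v202 v493 v205 (k8 v497 v207 v502 v211 v214 v511 v217 v220 (k8 v518 v223 v225 v524 v228 v230 v528 v231 (k8 v233 v531 v235 v237 v536 v239 v241 v541 (k8 v243 v245 v544 v545 v546 v547 v549 v255 (k1 v256 (k1 v257 (k1 v259 (k1 v260 (k1 v261 (k1 v604 (k0))))))))))))))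
noncomputable def ca5_33 : List VW := k8 v1 v144 v275 v423 v279 v149 v433 v426 (k8 v160 v446 v441 v167 v460 v452 v174 v336 (k8 v464 v182 v345 v470 v186 v478 v476 v190 (k8 v481 v195 v485 v199 v489 v202 v493 v205 (k8 v497 v207 v502 v211 v506 v213 v511 v516 (k8 v219 v518 v223 v226 v524 v228 v230 v528 (k8 v231 v233 v531 v235 v237 v536 v239 v241 (k8 v541 v243 v245 v544 v545 v546 v547 v549 (k1 v255 (k1 v256 (k1 v257 (k1 v259 (k1 v603 (k0)))))))))))))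
noncomputable def ca5_34 : List VW := k8 v1 v144 v275 v423 v279 v149 v433 v426 (k8 v160 v446 v441 v167 v460 v452 v174 v336 (k8 v464 v182 v345 v470 v186 v478 v476 v190 (k8 v481 v195 v485 v199 v489 v202 v493 v205 (k8 v497 v207 v502 v211 v506 v213 v511 v516 (k8 v219 v518 v223 v226 v524 v228 v230 v528 (k8 v231 v233 v531 v235 v237 v536 v239 v241 (k8 v541 v243 v245 v544 v545 v546 v547 v549 (k1 v255 (k1 v256 (k1 v257 (k1 v259 (k1 v260 (k1 v261 (k1 v604 (k0)))))))))))))))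
noncomputable def ca5_35 : List VW := k8 v1 v144 v275 v423 v279 v149 v433 v426 (k8 v160 v446 v441 v167 v460 v452 v174 v336 (k8 v464 v182 v473 v470 v186 v478 v476 v190 (k8 v481 v195 v485 v199 v489 v202 v493 v205 (k8 v497 v207 v502 v211 v505 v213 v511 v516 (k8 v219 v518 v223 v226 v524 v228 v230 v528 (k8 v231 v233 v531 v235 v237 v536 v239 v241 (k8 v541 v243 v245 v544 v545 v546 v547 v549 (k1 v255 (k1 v256 (k1 v257 (k1 v259 (k1 v260 (k1 v261 (k1 v604 (k0)))))))))))))))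
noncomputable def ca5_36 : List VW := k8 v1 v144 v274 v423 v279 v149 v433 v426 (k8 v160 v446 v441 v167 v460 v452 v174 v467 (k8 v464 v180 v473 v185 v186 v478 v476 v190 (k8 v481 v195 v485 v199 v489 v202 v493 v205 (k8 v497 v207 v502 v211 v505 v213 v511 v516 (k8 v219 v518 v223 v226 v524 v228 v230 v528 (k8 v231 v233 v531 v235 v237 v536 v239 v241 (k8 v541 v243 v245 v247 v249 v251 v252 v254 (k1 v255 (k1 v256 (k1 v257 (k1 v259 (k1 v260 (k1 v261 (k1 v604 (k0)))))))))))))))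
noncomputable def ca5_37 : List VW := k8 v1 v144 v274 v423 v279 v149 v433 v426 (k8 v160 v446 v441 v167 v460 v452 v174 v467 (k8 v464 v180 v470 v186 v478 v476 v190 v481 (k8 v195 v485 v199 v489 v202 v493 v205 v497 (k8 v207 v502 v211 v505 v213 v511 v516 v219 (k8 v518 v223 v226 v524 v228 v230 v528 v231 (k8 v233 v531 v235 v237 v536 v239 v241 v541 (k8 v243 v245 v247 v249 v251 v252 v254 v255 (k1 v256 (k1 v257 (k1 v259 (k1 v260 (k1 v261 (k1 v604 (k0))))))))))))))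
noncomputable def ca5_38 : List VW := k8 v1 v144 v274 v423 v279 v149 v433 v426 (k8 v160 v446 v441 v167 v460 v452 v178 v465 (k8 v180 v470 v186 v478 v476 v190 v481 v195 (k8 v485 v199 v489 v202 v493 v205 v497 v207 (k8 v502 v211 v505 v213 v511 v516 v219 v518 (k8 v223 v226 v524 v228 v230 v528 v231 v233 (k8 v531 v235 v237 v536 v239 v241 v541 v243 (k8 v245 v247 v249 v251 v252 v254 v255 v256 (k1 v257 (k1 v259 (k1 v260 (k1 v261 (k1 v604 (k0)))))))))))))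
noncomputable def ca5_39 : List VW := k8 v1 v144 v274 v423 v279 v149 v433 v426 (k8 v160 v446 v441 v167 v460 v452 v178 v465 (k8 v180 v470 v186 v476 v190 v481 v195 v485 (k8 v199 v489 v202 v493 v205 v497 v207 v502 (k8 v211 v505 v213 v511 v516 v219 v518 v223 (k8 v226 v524 v228 v230 v528 v231 v233 v531 (k8 v235 v237 v536 v239 v241 v541 v243 v245 (k8 v247 v249 v251 v252 v254 v255 v256 v257 (k1 v259 (k1 v260 (k1 v261 (k1 v604 (k0))))))))))))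
noncomputable def ca5_40 : List VW := k8 v1 v144 v274 v423 v287 v149 v433 v426 (k8 v160 v446 v441 v167 v460 v452 v178 v465 (k8 v180 v470 v186 v476 v190 v481 v195 v485 (k8 v199 v489 v202 v493 v205 v497 v207 v502 (k8 v211 v505 v213 v511 v516 v219 v518 v223 (k8 v226 v524 v228 v230 v528 v231 v233 v531 (k8 v235 v237 v536 v239 v241 v243 v245 v247 (k8 v249 v251 v252 v254 v255 v256 v257 v259 (k1 v260 (k1 v261 (k1 v604 (k0)))))))))))
noncomputable def ca5_41 : List VW := k8 v1 v144 v274 v423 v287 v149 v433 v426 (k8 v160 v446 v441 v167 v460 v452 v178 v465 (k8 v180 v470 v186 v476 v190 v481 v195 v485 (k8 v199 v489 v202 v493 v205 v497 v207 v502 (k8 v211 v505 v213 v511 v516 v219 v518 v223 (k8 v226 v524 v228 v230 v528 v231 v233 v531 (k8 v235 v237 v239 v241 v243 v245 v247 v249 (k8 v251 v252 v254 v255 v256 v257 v259 v260 (k1 v261 (k1 v604 (k0))))))))))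
noncomputable def ca5_42 : List VW := k8 v1 v144 v274 v423 v287 v149 v433 v426 (k8 v160 v446 v441 v167 v460 v452 v174 v465 (k8 v180 v470 v186 v476 v190 v481 v195 v485 (k8 v199 v489 v202 v493 v205 v497 v207 v502 (k8 v211 v505 v213 v511 v516 v219 v518 v223 (k8 v226 v524 v228 v230 v528 v231 v233 v235 (k8 v237 v239 v241 v243 v245 v247 v249 v251 (k8 v252 v254 v255 v256 v257 v259 v260 v261 (k1 v604 (k0)))))))))
noncomputable def ca5_43 : List VW := k8 v1 v144 v274 v422 v149 v433 v157 v160 (k8 v442 v167 v452 v174 v464 v180 v185 v186 (k8 v476 v190 v194 v195 v200 v203 v493 v590 (k0)))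
noncomputable def ca5_44 : List VW := k8 v277 v144 v275 v423 v0 v149 v433 v292 (k8 v157 v161 v446 v306 v167 v462 v562 v170 (k8 v174 v337 v464 v182 v473 v184 v186 v351 (k8 v67 v192 v481 v195 v485 v199 v489 v202 (k8 v493 v205 v86 v207 v502 v211 v214 v511 (k8 v217 v220 v518 v223 v225 v524 v228 v230 (k8 v528 v114 v233 v531 v235 v237 v536 v239 (k8 v241 v541 v243 v245 v544 v545 v546 v547 (k1 v549 (k1 v255 (k1 v553 (k1 v257 (k1 v556 (k1 v603 (k0))))))))))))))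
noncomputable def ca5_45 : List VW := k8 v276 v144 v275 v423 v0 v149 v433 v291 (k8 v157 v161 v446 v305 v167 v462 v562 v326 (k8 v42 v174 v336 v464 v182 v473 v184 v187 (k8 v350 v476 v192 v481 v195 v485 v199 v489 (k8 v202 v493 v205 v86 v207 v502 v211 v94 (k8 v213 v511 v516 v219 v518 v223 v225 v524 (k8 v228 v230 v528 v231 v233 v531 v235 v237 (k8 v536 v239 v241 v541 v243 v245 v544 v545 (k8 v546 v547 v549 v255 v553 v257 v556 v557 (k1 v558 (k1 v604 (k0)))))))))))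
noncomputable def ca5_46 : List VW := k8 v276 v144 v275 v423 v0 v149 v433 v291 (k8 v157 v160 v446 v305 v167 v460 v452 v174 (k8 v336 v464 v182 v345 v470 v186 v350 v476 (k8 v192 v481 v195 v485 v199 v489 v202 v493 (k8 v205 v86 v207 v502 v211 v94 v213 v511 (k8 v516 v219 v518 v223 v225 v524 v228 v230 (k8 v528 v231 v233 v531 v235 v237 v536 v239 (k8 v241 v541 v243 v245 v544 v545 v546 v547 (k8 v549 v255 v256 v257 v259 v260 v261 v604 (k0)))))))))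
noncomputable def ca5_47 : List VW := k8 v1 v144 v275 v423 v279 v149 v433 v291 (k8 v157 v160 v446 v305 v167 v460 v452 v174 (k8 v336 v464 v182 v345 v470 v186 v350 v476 (k8 v192 v481 v195 v485 v199 v489 v202 v493 (k8 v205 v86 v207 v502 v211 v94 v213 v511 (k8 v516 v219 v518 v223 v225 v524 v228 v230 (k8 v528 v231 v233 v531 v235 v237 v536 v239 (k8 v241 v541 v243 v245 v544 v545 v546 v547 (k8 v549 v255 v256 v257 v259 v260 v261 v604 (k0)))))))))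
noncomputable def ca5_48 : List VW := k8 v1 v144 v275 v423 v279 v149 v433 v291 (k8 v157 v160 v446 v305 v167 v460 v452 v174 (k8 v336 v464 v182 v345 v470 v186 v350 v476 (k8 v192 v481 v195 v485 v199 v489 v202 v493 (k8 v205 v497 v207 v502 v211 v94 v214 v511 (k8 v516 v219 v518 v223 v225 v524 v228 v230 (k8 v528 v231 v233 v531 v235 v237 v536 v239 (k8 v241 v541 v243 v245 v544 v545 v546 v547 (k8 v549 v255 v256 v257 v259 v260 v261 v604 (k0)))))))))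
noncomputable def ca5_49 : List VW := k8 v1 v144 v275 v423 v279 v149 v433 v291 (k8 v157 v160 v446 v305 v168 v460 v452 v174 (k8 v336 v464 v182 v345 v470 v186 v350 v476 (k8 v192 v481 v195 v485 v199 v489 v202 v493 (k8 v205 v497 v207 v502 v211 v506 v213 v511 (k8 v516 v219 v518 v223 v226 v524 v228 v230 (k8 v528 v231 v233 v531 v235 v237 v536 v239 (k8 v241 v541 v243 v245 v544 v545 v546 v547 (k8 v549 v255 v256 v257 v259 v260 v261 v604 (k0)))))))))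
noncomputable def ca5_50 : List VW := k8 v1 v144 v275 v423 v279 v149 v433 v426 (k8 v160 v446 v305 v168 v460 v452 v174 v336 (k8 v464 v182 v345 v470 v186 v350 v476 v190 (k8 v481 v195 v485 v199 v489 v202 v493 v205 (k8 v497 v207 v502 v211 v506 v213 v511 v516 (k8 v219 v518 v223 v226 v524 v228 v230 v528 (k8 v231 v233 v531 v235 v237 v536 v239 v241 (k8 v541 v243 v245 v544 v545 v546 v547 v549 (k1 v255 (k1 v256 (k1 v257 (k1 v259 (k1 v260 (k1 v261 (k1 v604 (k0)))))))))))))))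
noncomputable def ca5_51 : List VW := k8 v1 v144 v275 v423 v279 v149 v433 v426 (k8 v160 v446 v317 v168 v460 v452 v174 v336 (k8 v464 v182 v345 v470 v186 v350 v476 v190 (k8 v481 v195 v485 v199 v489 v202 v493 v205 (k8 v497 v207 v502 v211 v506 v213 v511 v516 (k8 v219 v518 v223 v226 v524 v228 v230 v528 (k8 v231 v233 v531 v235 v237 v536 v239 v241 (k8 v541 v243 v245 v544 v545 v546 v547 v549 (k1 v255 (k1 v256 (k1 v257 (k1 v259 (k1 v603 (k0)))))))))))))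
noncomputable def ca5_52 : List VW := k8 v1 v144 v274 v422 v149 v433 v426 v160 (k8 v443 v167 v452 v174 v464 v180 v185 v186 (k8 v476 v190 v194 v195 v200 v203 v493 v590 (k0)))
noncomputable def ca5_53 : List VW := k8 v278 v144 v275 v274 v280 v149 v433 v293 (k8 v157 v161 v436 v313 v167 v460 v35 v42 (k8 v174 v338 v182 v345 v183 v186 v352 v192 (k8 v69 v71 v195 v364 v200 v79 v202 v493 (k8 v205 v86 v207 v502 v211 v213 v511 v217 (k8 v219 v518 v223 v225 v108 v228 v230 v528 (k8 v114 v233 v116 v535 v237 v404 v539 v241 (k8 v541 v128 v245 v410 v132 v249 v134 v600 (k0))))))))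
noncomputable def ca5_54 : List VW := k8 v278 v144 v275 v274 v280 v149 v433 v293 (k8 v157 v161 v436 v446 v307 v167 v460 v35 (k8 v43 v174 v338 v182 v345 v183 v186 v352 (k8 v192 v483 v71 v195 v364 v200 v79 v202 (k8 v493 v205 v86 v207 v502 v211 v213 v511 (k8 v217 v219 v518 v223 v225 v524 v228 v230 (k8 v528 v114 v233 v531 v119 v237 v536 v125 (k8 v241 v541 v128 v245 v544 v132 v249 v546 (k1 v253 (k1 v136 (k1 v601 (k0)))))))))))
noncomputable def ca5_55 : List VW := k8 v278 v144 v275 v274 v280 v149 v433 v293 (k8 v157 v161 v437 v446 v307 v167 v460 v329 (k8 v170 v174 v338 v182 v345 v183 v188 v352 (k8 v192 v483 v71 v195 v364 v200 v79 v202 (k8 v493 v205 v86 v207 v502 v211 v213 v511 (k8 v217 v219 v518 v223 v225 v524 v228 v230 (k8 v528 v114 v233 v531 v119 v237 v536 v125 (k8 v241 v541 v128 v245 v544 v132 v249 v546 (k8 v134 v252 v136 v255 v139 v257 v142 v603 (k0)))))))))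
noncomputable def ca5_56 : List VW := k8 v277 v144 v275 v274 v279 v149 v433 v292 (k8 v157 v161 v437 v446 v306 v167 v460 v328 (k8 v170 v174 v337 v182 v473 v183 v188 v351 (k8 v192 v69 v357 v195 v364 v200 v79 v202 (k8 v493 v205 v86 v207 v502 v211 v213 v511 (k8 v217 v219 v518 v223 v225 v524 v228 v230 (k8 v528 v114 v233 v531 v119 v237 v536 v125 (k8 v241 v541 v128 v245 v544 v132 v249 v546 (k1 v134 (k1 v252 (k1 v136 (k1 v255 (k1 v139 (k1 v602 (k0))))))))))))))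
noncomputable def ca5_57 : List VW := k8 v277 v144 v275 v274 v284 v149 v433 v292 (k8 v157 v161 v437 v446 v306 v167 v460 v328 (k8 v171 v174 v337 v182 v473 v184 v186 v351 (k8 v67 v192 v483 v71 v195 v485 v199 v79 (k8 v202 v493 v205 v86 v207 v502 v211 v94 (k8 v213 v511 v516 v219 v518 v223 v225 v524 (k8 v228 v230 v528 v114 v233 v531 v119 v237 (k8 v536 v125 v241 v541 v128 v245 v544 v132 (k8 v249 v546 v134 v252 v549 v255 v553 v257 (k1 v556 (k1 v260 (k1 v143 (k1 v604 (k0)))))))))))))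
noncomputable def ca5_58 : List VW := k8 v277 v144 v275 v274 v284 v149 v433 v292 (k8 v157 v161 v446 v306 v167 v460 v328 v171 (k8 v174 v337 v182 v473 v184 v186 v351 v67 (k8 v192 v483 v71 v195 v485 v199 v368 v79 (k8 v202 v493 v205 v86 v207 v502 v211 v94 (k8 v213 v511 v516 v219 v518 v223 v225 v524 (k8 v228 v230 v528 v114 v233 v531 v119 v237 (k8 v536 v239 v241 v541 v243 v245 v544 v247 (k8 v249 v546 v251 v252 v549 v255 v553 v257 (k1 v556 (k1 v603 (k0)))))))))))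
noncomputable def ca5_59 : List VW := k8 v277 v144 v275 v423 v0 v149 v433 v292 (k8 v157 v161 v446 v306 v167 v462 v562 v170 (k8 v174 v337 v464 v182 v473 v184 v186 v351 (k8 v67 v192 v481 v195 v485 v199 v489 v202 (k8 v493 v205 v86 v207 v502 v211 v94 v213 (k8 v511 v516 v219 v518 v223 v225 v524 v228 (k8 v230 v528 v231 v233 v531 v235 v237 v536 (k8 v239 v241 v541 v243 v245 v544 v545 v546 (k8 v547 v549 v255 v553 v257 v556 v557 v558 (k1 v604 (k0))))))))))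
noncomputable def ca5_60 : List VW := k8 v277 v144 v275 v274 v284 v149 v433 v292 (k8 v157 v160 v446 v306 v167 v460 v562 v170 (k8 v174 v337 v464 v182 v473 v184 v186 v351 (k8 v67 v192 v481 v195 v485 v199 v489 v202 (k8 v493 v205 v86 v207 v502 v211 v213 v511 (k8 v217 v219 v518 v223 v225 v524 v228 v230 (k8 v528 v114 v233 v531 v532 v536 v125 v538 (k1 v541 (k1 v543 (k1 v544 (k1 v545 (k1 v546 (k1 v600 (k0)))))))))))))
noncomputable def ca5_61 : List VW := k8 v276 v144 v275 v423 v0 v149 v433 v291 (k8 v157 v160 v446 v305 v167 v460 v562 v170 (k8 v174 v336 v464 v182 v473 v184 v186 v350 (k8 v67 v192 v481 v195 v485 v199 v489 v202 (k8 v493 v205 v86 v207 v502 v211 v214 v511 (k8 v217 v220 v518 v223 v225 v524 v228 v230 (k8 v528 v231 v233 v531 v235 v237 v536 v239 (k8 v241 v541 v543 v544 v545 v546 v547 v549 (k1 v601 (k0)))))))))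
noncomputable def ca5_62 : List VW := k8 v1 v144 v274 v283 v149 v433 v426 v160 (k8 v444 v167 v453 v174 v464 v180 v470 v186 (k8 v476 v190 v194 v195 v200 v203 v493 v205 (k1 v207 (k1 v502 (k1 v591 (k0))))))
noncomputable def ca5_63 : List VW := k8 v4 v424 v273 v0 v2 v12 v432 v561 (k8 v21 v325 v310 v265 v30 v456 v35 v42 (k8 v341 v266 v54 v58 v59 v355 v268 v66 (k8 v71 v367 v75 v79 v375 v84 v86 v89 (k1 v571 (k0)))))
noncomputable def ca5_64 : List VW := k8 v278 v3 v424 v273 v282 v2 v12 v432 (k8 v561 v21 v160 v324 v309 v265 v29 v333 (k8 v331 v42 v174 v340 v266 v53 v179 v347 (k8 v59 v186 v354 v268 v65 v360 v71 v366 (k8 v269 v74 v77 v79 v374 v492 v380 v86 (k8 v383 v272 v92 v94 v389 v97 v99 v392 (k8 v105 v106 v394 v109 v111 v230 v528 v114 (k8 v115 v117 v119 v237 v406 v124 v241 v540 (k1 v128 (k1 v129 (k1 v130 (k1 v131 (k1 v249 (k1 v580 (k0))))))))))))))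
noncomputable def ca5_65 : List VW := k8 v278 v147 v275 v281 v2 v429 v560 v21 (k8 v160 v323 v308 v264 v28 v332 v330 v42 (k8 v174 v339 v266 v52 v472 v59 v186 v353 (k8 v267 v64 v359 v71 v195 v484 v73 v198 (k8 v79 v373 v270 v82 v85 v86 v207 v501 (k8 v91 v94 v389 v96 v99 v391 v104 v106 (k8 v107 v108 v111 v230 v528 v114 v530 v119 (k8 v120 v122 v125 v241 v126 v128 v129 v130 (k1 v132 (k1 v249 (k1 v134 (k1 v135 (k1 v581 (k0)))))))))))))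
noncomputable def ca5_66 : List VW := k8 v278 v144 v275 v285 v2 v429 v560 v22 (k8 v160 v322 v307 v264 v27 v456 v35 v42 (k8 v174 v338 v266 v51 v472 v59 v186 v352 (k8 v267 v63 v358 v71 v195 v484 v72 v198 (k8 v79 v202 v492 v81 v85 v86 v207 v501 (k8 v210 v94 v388 v95 v515 v219 v517 v222 (k8 v225 v523 v111 v230 v528 v114 v115 v116 (k8 v119 v120 v122 v125 v241 v126 v128 v129 (k8 v130 v132 v249 v134 v252 v136 v552 v257 (k1 v142 (k1 v260 (k1 v143 (k1 v262 (k1 v585 (k0))))))))))))))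
noncomputable def ca5_67 : List VW := k8 v278 v144 v275 v285 v2 v429 v560 v22 (k8 v160 v322 v307 v264 v27 v456 v35 v42 (k8 v174 v338 v266 v51 v472 v59 v186 v352 (k8 v267 v63 v358 v71 v195 v484 v198 v79 (k8 v202 v492 v81 v498 v207 v501 v210 v213 (k8 v510 v216 v219 v517 v222 v225 v523 v111 (k8 v230 v528 v114 v115 v116 v119 v120 v122 (k8 v125 v241 v126 v128 v129 v410 v132 v249 (k1 v134 (k1 v252 (k1 v136 (k1 v552 (k1 v257 (k1 v142 (k1 v603 (k0)))))))))))))))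
noncomputable def ca5_68 : List VW := k8 v278 v144 v275 v285 v2 v429 v560 v290 (k8 v160 v322 v307 v264 v27 v456 v35 v42 (k8 v174 v338 v266 v51 v472 v59 v186 v352 (k8 v267 v63 v482 v70 v195 v484 v198 v79 (k8 v202 v492 v81 v498 v207 v501 v210 v213 (k8 v510 v216 v219 v517 v222 v225 v523 v111 (k8 v230 v528 v114 v115 v401 v119 v120 v536 (k8 v125 v241 v126 v128 v129 v410 v132 v249 (k1 v134 (k1 v252 (k1 v136 (k1 v552 (k1 v257 (k1 v142 (k1 v603 (k0)))))))))))))))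
noncomputable def ca5_69 : List VW := k8 v278 v3 v424 v273 v280 v2 v429 v560 (k8 v290 v160 v322 v307 v264 v27 v456 v35 (k8 v42 v174 v338 v266 v51 v472 v183 v186 (k8 v352 v267 v63 v482 v70 v195 v484 v198 (k8 v79 v202 v492 v81 v498 v207 v501 v210 (k8 v213 v510 v216 v219 v517 v222 v225 v523 (k8 v111 v230 v528 v114 v115 v530 v119 v120 (k8 v536 v125 v241 v126 v128 v129 v544 v131 (k8 v249 v133 v134 v135 v548 v255 v139 v140 (k1 v555 (k1 v603 (k0)))))))))))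
noncomputable def ca5_70 : List VW := k8 v278 v3 v424 v273 v0 v2 v429 v293 (k8 v157 v160 v322 v313 v167 v456 v35 v42 (k8 v174 v338 v182 v345 v183 v186 v352 v192 (k8 v69 v71 v195 v364 v200 v78 v202 v492 (k8 v378 v498 v207 v501 v210 v213 v510 v216 (k8 v219 v517 v222 v225 v523 v111 v230 v112 (k8 v114 v115 v530 v118 v237 v122 v125 v241 (k8 v126 v128 v245 v130 v132 v249 v134 v135 (k1 v548 (k1 v255 (k1 v139 (k1 v602 (k0))))))))))))
noncomputable def ca5_71 : List VW := k8 v278 v144 v275 v274 v0 v149 v433 v293 (k8 v157 v160 v322 v438 v313 v167 v460 v35 (k8 v42 v174 v338 v182 v345 v183 v186 v352 (k8 v192 v69 v71 v195 v364 v200 v78 v202 (k8 v493 v205 v86 v207 v502 v211 v213 v511 (k8 v217 v219 v518 v223 v225 v108 v228 v230 (k8 v528 v114 v233 v116 v534 v237 v404 v539 (k8 v241 v541 v128 v245 v130 v132 v249 v134 (k1 v600 (k0)))))))))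
noncomputable def ca5_72 : List VW := k8 v278 v144 v275 v274 v280 v149 v433 v293 (k8 v157 v161 v437 v446 v307 v167 v460 v329 (k8 v170 v174 v338 v182 v345 v183 v186 v352 (k8 v192 v69 v194 v195 v364 v200 v79 v202 (k8 v493 v205 v86 v207 v502 v211 v213 v511 (k8 v217 v219 v518 v223 v225 v524 v228 v230 (k8 v528 v114 v233 v531 v119 v237 v536 v125 (k1 v241 (k1 v541 (k1 v128 (k1 v245 (k1 v544 (k1 v599 (k0)))))))))))))
noncomputable def ca5_73 : List VW := k8 v276 v144 v275 v274 v279 v149 v433 v291 (k8 v157 v160 v436 v311 v167 v460 v172 v174 (k8 v336 v182 v345 v183 v186 v350 v192 v194 (k8 v195 v364 v200 v203 v493 v205 v207 v502 (k1 v591 (k0)))))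
noncomputable def ca5_74 : List VW := k8 v3 v275 v289 v13 v304 v16 v22 v319 (k1 v31 (k1 v48 (k1 v56 (k1 v567 (k0)))))
noncomputable def ca5_75 : List VW := k8 v4 v7 v275 v289 v13 v304 v16 v21 (k8 v319 v31 v36 v42 v50 v56 v60 v68 (k1 v568 (k0)))
noncomputable def ca5_76 : List VW := k8 v4 v424 v273 v0 v2 v431 v15 v21 (k8 v310 v166 v30 v334 v35 v42 v341 v54 (k1 v58 (k1 v59 (k1 v355 (k1 v66 (k1 v71 (k1 v367 (k1 v569 (k0)))))))))
noncomputable def ca5_77 : List VW := k8 v4 v424 v273 v0 v2 v429 v561 v23 (k8 v316 v265 v30 v334 v35 v42 v341 v266 (k8 v54 v58 v59 v355 v66 v71 v367 v75 (k1 v79 (k1 v375 (k1 v570 (k0))))))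
noncomputable def ca5_78 : List VW := k8 v4 v147 v275 v0 v2 v298 v295 v21 (k8 v160 v315 v265 v29 v165 v331 v42 v340 (k8 v266 v53 v347 v59 v354 v268 v65 v69 (k8 v71 v366 v74 v79 v374 v83 v86 v383 (k1 v571 (k0)))))
noncomputable def ca5_79 : List VW := k8 v4 v147 v275 v0 v263 v11 v433 v561 (k8 v21 v160 v323 v308 v265 v28 v332 v330 (k8 v42 v174 v339 v266 v52 v346 v59 v353 (k8 v268 v64 v190 v71 v365 v73 v77 v79 (k8 v202 v493 v379 v86 v89 v502 v211 v213 (k8 v511 v217 v219 v518 v106 v524 v111 v528 (k1 v114 (k1 v531 (k1 v119 (k1 v120 (k1 v577 (k0)))))))))))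
noncomputable def ca5_80 : List VW := k8 v278 v144 v275 v274 v0 v149 v433 v293 (k8 v157 v161 v446 v307 v167 v460 v329 v170 (k8 v174 v338 v182 v345 v183 v186 v352 v192 (k8 v69 v71 v195 v364 v200 v491 v202 v493 (k1 v205 (k1 v208 (k1 v502 (k1 v211 (k1 v213 (k1 v511 (k1 v592 (k0)))))))))))
noncomputable def ca5_81 : List VW := k8 v416 v144 v417 v418 v149 v426 v160 v441 (k8 v167 v452 v174 v464 v180 v469 v186 v476 (k8 v190 v480 v195 v485 v199 v488 v202 v493 (k8 v205 v496 v207 v502 v211 v505 v513 v218 (k8 v514 v519 v224 v226 v229 v230 v232 v233 (k8 v235 v237 v240 v241 v244 v245 v248 v249 (k8 v251 v252 v254 v255 v256 v257 v259 v260 (k1 v261 (k1 v604 (k0)))))))))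
noncomputable def ca5_82 : List VW := k8 v1 v144 v418 v149 v152 v162 v167 v586 (k0)
noncomputable def ca5_83 : List VW := k1 v146 (k1 v0 (k1 v149 (k1 v163 (k1 v167 (k1 v586 (k0))))))
noncomputable def ca5_84 : List VW := k8 v1 v144 v418 v149 v152 v163 v441 v586 (k0)
noncomputable def ca5_85 : List VW := k8 v1 v144 v417 v421 v149 v433 v426 v160 (k8 v443 v167 v452 v174 v464 v180 v469 v186 (k8 v476 v190 v480 v195 v485 v199 v488 v202 (k8 v493 v205 v496 v207 v502 v211 v505 v513 (k8 v218 v514 v519 v224 v226 v229 v230 v232 (k8 v233 v235 v237 v240 v241 v244 v245 v247 (k8 v249 v251 v252 v254 v255 v256 v257 v259 (k1 v603 (k0))))))))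
noncomputable def ca5_86 : List VW := k8 v1 v144 v417 v419 v149 v433 v426 v160 (k8 v443 v167 v452 v174 v464 v180 v469 v186 (k8 v476 v190 v480 v195 v485 v199 v488 v202 (k8 v493 v205 v496 v207 v502 v508 v214 v511 (k8 v516 v220 v518 v223 v226 v229 v230 v232 (k8 v233 v235 v237 v240 v241 v244 v245 v248 (k8 v249 v251 v252 v254 v255 v256 v257 v259 (k1 v260 (k1 v261 (k1 v604 (k0))))))))))
noncomputable def ca5_87 : List VW := k8 v1 v144 v417 v422 v149 v433 v426 v160 (k8 v443 v167 v460 v452 v174 v464 v180 v470 (k8 v186 v476 v190 v480 v195 v485 v199 v488 (k8 v202 v493 v205 v496 v207 v502 v211 v505 (k8 v213 v511 v516 v220 v518 v223 v226 v229 (k8 v230 v232 v233 v235 v237 v240 v241 v244 (k8 v245 v247 v249 v251 v252 v254 v255 v256 (k1 v257 (k1 v259 (k1 v603 (k0))))))))))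
noncomputable def ca5_88 : List VW := k8 v1 v144 v417 v422 v149 v433 v426 v160 (k8 v443 v167 v460 v452 v174 v464 v180 v470 (k8 v186 v476 v190 v480 v195 v485 v199 v488 (k8 v202 v493 v205 v496 v207 v502 v211 v505 (k8 v213 v511 v516 v220 v518 v223 v226 v229 (k8 v230 v232 v233 v235 v237 v240 v241 v244 (k8 v245 v248 v249 v251 v252 v254 v255 v256 (k1 v257 (k1 v259 (k1 v260 (k1 v261 (k1 v604 (k0))))))))))))
noncomputable def ca5_89 : List VW := k8 v1 v144 v423 v418 v149 v433 v426 v160 (k8 v443 v167 v460 v452 v174 v464 v180 v470 (k8 v186 v476 v190 v480 v195 v485 v199 v488 (k8 v202 v493 v205 v496 v207 v502 v211 v505 (k8 v213 v511 v516 v220 v518 v223 v226 v229 (k8 v230 v232 v233 v235 v237 v240 v241 v244 (k8 v245 v247 v249 v251 v252 v254 v255 v256 (k1 v257 (k1 v259 (k1 v260 (k1 v261 (k1 v604 (k0))))))))))))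
noncomputable def ca5_90 : List VW := k8 v1 v144 v417 v422 v149 v433 v426 v160 (k8 v443 v169 v453 v174 v464 v180 v470 v186 (k8 v476 v190 v480 v195 v485 v199 v488 v202 (k8 v493 v205 v496 v207 v502 v211 v505 v513 (k8 v218 v514 v519 v224 v226 v229 v230 v232 (k8 v233 v235 v237 v239 v241 v244 v245 v247 (k1 v249 (k1 v251 (k1 v600 (k0)))))))))
noncomputable def ca5_91 : List VW := k8 v1 v144 v423 v418 v149 v433 v426 v160 (k8 v436 v444 v167 v460 v452 v174 v465 v180 (k8 v470 v186 v476 v190 v481 v195 v485 v199 (k8 v488 v202 v493 v205 v496 v207 v502 v211 (k8 v505 v213 v511 v516 v220 v518 v223 v226 (k8 v229 v230 v232 v233 v235 v237 v239 v241 (k8 v244 v245 v247 v249 v251 v252 v254 v255 (k1 v256 (k1 v257 (k1 v259 (k1 v603 (k0)))))))))))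
noncomputable def ca5_92 : List VW := k8 v1 v147 v423 v418 v149 v433 v426 v160 (k8 v446 v441 v167 v460 v452 v174 v465 v180 (k8 v470 v186 v476 v190 v481 v195 v485 v199 (k8 v488 v202 v493 v205 v496 v207 v502 v211 (k8 v505 v213 v511 v516 v219 v518 v223 v226 (k8 v524 v228 v230 v232 v233 v235 v237 v239 (k8 v241 v243 v245 v247 v249 v251 v252 v254 (k1 v255 (k1 v256 (k1 v602 (k0))))))))))
noncomputable def ca5_93 : List VW := k8 v1 v144 v423 v418 v149 v433 v426 v160 (k8 v436 v443 v167 v460 v452 v174 v465 v180 (k8 v470 v186 v476 v190 v481 v195 v485 v199 (k8 v488 v202 v493 v205 v496 v207 v502 v211 (k8 v505 v213 v511 v516 v219 v518 v223 v226 (k8 v229 v230 v232 v233 v235 v237 v239 v241 (k8 v243 v245 v247 v249 v251 v252 v254 v601 (k0)))))))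
noncomputable def ca5_94 : List VW := k8 v1 v144 v275 v423 v279 v149 v433 v426 (k8 v160 v446 v441 v167 v460 v452 v174 v336 (k8 v464 v182 v473 v185 v186 v478 v476 v190 (k8 v481 v195 v485 v199 v489 v202 v493 v205 (k8 v497 v207 v502 v211 v506 v213 v511 v516 (k8 v219 v518 v223 v226 v524 v228 v230 v528 (k8 v231 v233 v531 v235 v237 v536 v239 v241 (k8 v541 v243 v245 v544 v545 v546 v547 v549 (k1 v551 (k1 v553 (k1 v258 (k1 v259 (k1 v260 (k1 v261 (k1 v604 (k0)))))))))))))))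
noncomputable def ca5_95 : List VW := k8 v1 v144 v275 v423 v279 v149 v433 v426 (k8 v160 v446 v441 v167 v460 v452 v174 v467 (k8 v464 v182 v473 v470 v186 v478 v476 v190 (k8 v481 v195 v485 v199 v489 v202 v493 v205 (k8 v497 v207 v502 v211 v505 v213 v511 v516 (k8 v219 v518 v223 v226 v524 v228 v230 v528 (k8 v231 v233 v531 v235 v237 v536 v239 v241 (k8 v541 v243 v245 v544 v545 v546 v547 v549 (k1 v255 (k1 v256 (k1 v257 (k1 v259 (k1 v260 (k1 v261 (k1 v604 (k0)))))))))))))))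
noncomputable def ca5_96 : List VW := k8 v1 v144 v274 v423 v418 v149 v433 v426 (k8 v160 v446 v441 v167 v460 v452 v178 v465 (k8 v180 v470 v186 v478 v476 v190 v481 v195 (k8 v485 v199 v489 v202 v493 v205 v497 v207 (k8 v502 v211 v505 v213 v511 v516 v219 v518 (k8 v223 v226 v524 v228 v230 v528 v231 v233 (k8 v531 v235 v237 v536 v239 v241 v243 v245 (k8 v247 v249 v251 v252 v254 v255 v256 v257 (k1 v259 (k1 v260 (k1 v261 (k1 v604 (k0))))))))))))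
noncomputable def ca5_97 : List VW := k8 v1 v144 v274 v423 v418 v149 v433 v426 (k8 v160 v446 v441 v167 v460 v452 v178 v465 (k8 v180 v470 v186 v476 v190 v481 v195 v485 (k8 v199 v489 v202 v493 v205 v497 v207 v502 (k8 v211 v505 v213 v511 v516 v219 v518 v223 (k8 v226 v524 v228 v230 v528 v231 v233 v235 (k8 v237 v239 v241 v243 v245 v247 v249 v251 (k8 v252 v254 v255 v256 v257 v259 v260 v261 (k1 v604 (k0)))))))))
noncomputable def ca5_98 : List VW := k8 v1 v147 v423 v287 v149 v433 v426 v160 (k8 v436 v443 v167 v460 v452 v174 v464 v180 (k8 v470 v186 v476 v190 v481 v195 v485 v199 (k8 v489 v202 v493 v205 v496 v207 v502 v211 (k8 v214 v511 v217 v219 v518 v223 v225 v524 (k1 v228 (k1 v230 (k1 v528 (k1 v595 (k0)))))))))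
noncomputable def ca5_99 : List VW := k8 v1 v144 v423 v279 v149 v433 v426 v160 (k8 v443 v167 v452 v174 v464 v180 v470 v186 (k8 v476 v190 v481 v487 v200 v203 v493 v205 (k1 v208 (k1 v502 (k1 v591 (k0))))))
noncomputable def ca5_100 : List VW := k8 v277 v144 v275 v274 v284 v149 v433 v292 (k8 v157 v161 v436 v446 v306 v167 v460 v328 (k8 v170 v174 v337 v182 v473 v184 v186 v351 (k8 v67 v192 v483 v71 v195 v485 v199 v368 (k8 v79 v202 v493 v205 v86 v207 v502 v211 (k8 v94 v213 v511 v516 v219 v518 v223 v225 (k8 v524 v228 v230 v528 v114 v233 v531 v119 (k8 v237 v536 v125 v241 v541 v128 v245 v544 (k8 v132 v249 v546 v134 v252 v549 v255 v553 (k1 v257 (k1 v556 (k1 v603 (k0))))))))))))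
noncomputable def ca5_101 : List VW := k8 v277 v144 v275 v274 v284 v149 v433 v292 (k8 v157 v161 v446 v306 v167 v462 v562 v170 (k8 v174 v337 v464 v182 v473 v184 v186 v351 (k8 v67 v192 v483 v71 v195 v485 v199 v79 (k8 v202 v493 v205 v86 v207 v502 v211 v214 (k8 v511 v217 v220 v518 v223 v225 v524 v228 (k8 v230 v528 v114 v233 v531 v119 v237 v536 (k8 v239 v241 v541 v243 v245 v544 v247 v249 (k8 v546 v251 v252 v549 v255 v553 v257 v556 (k1 v603 (k0))))))))))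
noncomputable def ca5_102 : List VW := k8 v276 v144 v275 v423 v0 v149 v433 v291 (k8 v157 v161 v446 v305 v167 v462 v562 v326 (k8 v42 v174 v336 v464 v182 v473 v184 v186 (k8 v350 v476 v192 v481 v195 v485 v199 v489 (k8 v202 v493 v205 v86 v207 v502 v211 v94 (k8 v213 v511 v516 v219 v518 v223 v225 v524 (k8 v228 v230 v528 v231 v233 v531 v235 v237 (k8 v536 v239 v241 v541 v243 v245 v544 v545 (k8 v546 v547 v549 v255 v553 v257 v556 v260 (k1 v558 (k1 v604 (k0)))))))))))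
noncomputable def ca5_103 : List VW := k8 v276 v144 v275 v423 v279 v149 v433 v291 (k8 v157 v160 v446 v305 v167 v460 v452 v174 (k8 v336 v464 v182 v345 v470 v186 v350 v476 (k8 v192 v481 v195 v485 v199 v489 v202 v493 (k8 v205 v86 v207 v502 v211 v94 v213 v511 (k8 v516 v219 v518 v223 v225 v524 v228 v230 (k8 v528 v231 v233 v531 v235 v237 v536 v239 (k8 v241 v541 v243 v245 v544 v545 v546 v547 (k8 v549 v255 v256 v257 v259 v260 v261 v604 (k0)))))))))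
noncomputable def ca5_104 : List VW := k8 v1 v144 v275 v423 v279 v149 v433 v291 (k8 v157 v160 v446 v305 v167 v460 v452 v174 (k8 v336 v464 v182 v345 v470 v186 v350 v476 (k8 v192 v481 v195 v485 v199 v489 v202 v493 (k8 v205 v497 v207 v502 v211 v506 v213 v511 (k8 v516 v219 v518 v223 v225 v524 v228 v230 (k8 v528 v231 v233 v531 v235 v237 v536 v239 (k8 v241 v541 v243 v245 v544 v545 v546 v547 (k8 v549 v255 v256 v257 v259 v260 v261 v604 (k0)))))))))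
noncomputable def ca5_105 : List VW := k8 v1 v144 v275 v423 v279 v149 v433 v426 (k8 v160 v446 v441 v167 v460 v452 v174 v336 (k8 v464 v182 v345 v470 v186 v350 v476 v190 (k8 v481 v195 v485 v199 v489 v202 v493 v205 (k8 v497 v207 v502 v211 v506 v213 v511 v516 (k8 v219 v518 v223 v226 v524 v228 v230 v528 (k8 v231 v233 v531 v235 v237 v536 v239 v241 (k8 v541 v243 v245 v544 v545 v546 v547 v549 (k1 v255 (k1 v256 (k1 v257 (k1 v259 (k1 v260 (k1 v261 (k1 v604 (k0)))))))))))))))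
noncomputable def ca5_106 : List VW := k8 v1 v144 v275 v423 v279 v149 v433 v426 (k8 v160 v446 v441 v167 v460 v452 v174 v336 (k8 v464 v182 v345 v470 v186 v350 v476 v190 (k8 v481 v195 v485 v199 v489 v202 v493 v205 (k8 v497 v207 v502 v211 v506 v213 v511 v516 (k8 v219 v518 v223 v226 v524 v228 v230 v528 (k8 v231 v233 v531 v235 v237 v536 v239 v241 (k8 v541 v243 v245 v544 v545 v546 v547 v549 (k1 v255 (k1 v256 (k1 v257 (k1 v259 (k1 v603 (k0)))))))))))))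
noncomputable def ca5_107 : List VW := k8 v1 v144 v275 v423 v279 v149 v433 v426 (k8 v160 v446 v441 v167 v460 v452 v174 v465 (k8 v182 v470 v186 v476 v190 v481 v195 v485 (k8 v199 v489 v202 v493 v205 v497 v207 v502 (k8 v211 v214 v511 v217 v220 v518 v223 v225 (k8 v524 v228 v230 v528 v231 v233 v531 v532 (k1 v536 (k1 v239 (k1 v241 (k1 v541 (k1 v543 (k1 v544 (k1 v599 (k0)))))))))))))
noncomputable def ca5_108 : List VW := k8 v1 v144 v274 v423 v0 v149 v433 v426 (k8 v160 v446 v305 v168 v460 v452 v174 v464 (k8 v180 v470 v186 v476 v190 v481 v195 v485 (k8 v199 v489 v202 v493 v205 v86 v208 v502 (k8 v211 v213 v511 v217 v219 v518 v223 v225 (k1 v524 (k1 v228 (k1 v230 (k1 v528 (k1 v595 (k0))))))))))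
noncomputable def ca5_109 : List VW := k8 v1 v144 v274 v423 v0 v149 v433 v426 (k8 v161 v444 v169 v453 v174 v464 v180 v470 (k8 v186 v476 v190 v194 v195 v485 v491 v202 (k8 v493 v205 v208 v502 v211 v213 v511 v592 (k0))))
noncomputable def ca5_110 : List VW := k8 v278 v3 v424 v273 v0 v2 v12 v432 (k8 v561 v21 v160 v324 v309 v265 v29 v333 (k8 v331 v42 v174 v340 v266 v53 v179 v347 (k8 v59 v186 v354 v268 v65 v360 v71 v366 (k8 v269 v74 v77 v79 v374 v492 v380 v86 (k8 v383 v92 v94 v389 v97 v99 v392 v105 (k8 v106 v225 v523 v111 v230 v528 v114 v115 (k1 v117 (k1 v119 (k1 v237 (k1 v406 (k1 v125 (k1 v408 (k1 v578 (k0))))))))))))))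
noncomputable def ca5_111 : List VW := k8 v278 v147 v275 v281 v2 v429 v560 v21 (k8 v160 v323 v308 v264 v28 v332 v330 v42 (k8 v174 v339 v266 v52 v179 v346 v59 v186 (k8 v353 v267 v64 v359 v71 v195 v484 v73 (k8 v198 v79 v373 v270 v82 v85 v86 v207 (k8 v501 v91 v94 v389 v96 v99 v391 v104 (k8 v106 v107 v108 v111 v230 v528 v114 v530 (k8 v119 v120 v122 v125 v241 v126 v128 v129 (k1 v130 (k1 v132 (k1 v249 (k1 v134 (k1 v135 (k1 v581 (k0))))))))))))))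
noncomputable def ca5_112 : List VW := k8 v278 v144 v275 v285 v2 v429 v560 v22 (k8 v160 v322 v307 v264 v27 v456 v35 v42 (k8 v174 v338 v266 v51 v472 v59 v186 v352 (k8 v267 v63 v358 v71 v195 v484 v198 v79 (k8 v202 v492 v81 v204 v86 v207 v501 v210 (k8 v213 v510 v216 v219 v517 v222 v225 v523 (k8 v111 v230 v528 v114 v115 v116 v119 v120 (k8 v122 v125 v241 v126 v128 v129 v410 v132 (k8 v249 v134 v252 v136 v552 v257 v142 v260 (k1 v143 (k1 v604 (k0)))))))))))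
noncomputable def ca5_113 : List VW := k8 v278 v144 v275 v285 v2 v429 v560 v290 (k8 v160 v322 v307 v264 v27 v456 v35 v42 (k8 v174 v338 v266 v51 v472 v59 v186 v352 (k8 v267 v63 v482 v70 v195 v484 v198 v79 (k8 v202 v492 v81 v498 v207 v501 v210 v213 (k8 v510 v216 v219 v517 v222 v225 v523 v111 (k8 v230 v528 v114 v115 v401 v119 v120 v536 (k8 v125 v241 v126 v128 v129 v410 v132 v249 (k8 v134 v135 v548 v255 v139 v140 v555 v603 (k0)))))))))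
noncomputable def ca5_114 : List VW := k8 v278 v3 v424 v273 v280 v2 v429 v560 (k8 v290 v160 v322 v313 v264 v27 v456 v35 (k8 v42 v174 v338 v266 v51 v472 v183 v186 (k8 v352 v267 v63 v482 v70 v195 v484 v198 (k8 v79 v202 v492 v81 v498 v207 v501 v210 (k8 v213 v510 v216 v219 v517 v222 v225 v523 (k8 v111 v230 v528 v114 v115 v530 v119 v120 (k8 v536 v125 v241 v126 v128 v129 v544 v131 (k8 v249 v133 v134 v135 v548 v255 v139 v140 (k1 v555 (k1 v603 (k0)))))))))))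
noncomputable def ca5_115 : List VW := k8 v278 v3 v424 v273 v280 v2 v429 v293 (k8 v157 v160 v322 v446 v307 v167 v456 v35 (k8 v42 v174 v338 v182 v345 v183 v186 v352 (k8 v192 v69 v71 v195 v364 v200 v79 v202 (k8 v492 v378 v498 v207 v501 v210 v213 v510 (k8 v216 v219 v517 v222 v225 v523 v227 v230 (k8 v528 v114 v115 v530 v119 v121 v536 v125 (k8 v241 v409 v128 v245 v130 v132 v249 v546 (k1 v253 (k1 v136 (k1 v137 (k1 v552 (k1 v602 (k0)))))))))))))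
noncomputable def ca5_116 : List VW := k8 v278 v144 v275 v274 v280 v149 v433 v293 (k8 v157 v160 v322 v446 v307 v167 v460 v35 (k8 v42 v174 v338 v182 v345 v183 v186 v352 (k8 v192 v69 v71 v195 v364 v200 v79 v202 (k8 v493 v378 v499 v207 v502 v211 v213 v511 (k8 v217 v219 v518 v223 v225 v524 v228 v230 (k8 v528 v114 v233 v116 v535 v237 v536 v125 (k8 v241 v541 v128 v245 v410 v132 v249 v546 (k1 v253 (k1 v136 (k1 v137 (k1 v553 (k1 v602 (k0)))))))))))))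
noncomputable def ca5_117 : List VW := k8 v278 v144 v275 v274 v280 v149 v433 v293 (k8 v157 v161 v436 v446 v307 v167 v460 v329 (k8 v170 v174 v338 v182 v345 v183 v186 v352 (k8 v192 v483 v71 v195 v364 v200 v79 v202 (k8 v493 v205 v86 v207 v502 v211 v213 v511 (k8 v217 v219 v518 v223 v225 v524 v228 v230 (k8 v528 v114 v233 v531 v119 v237 v536 v125 (k8 v241 v541 v128 v245 v544 v132 v249 v546 (k1 v600 (k0)))))))))
noncomputable def ca5_118 : List VW := k8 v278 v144 v275 v274 v280 v149 v433 v293 (k8 v157 v161 v437 v446 v307 v167 v460 v329 (k8 v170 v174 v338 v182 v345 v183 v186 v352 (k8 v192 v69 v194 v195 v364 v200 v79 v202 (k8 v493 v205 v86 v207 v502 v211 v213 v511 (k8 v217 v219 v518 v223 v225 v524 v228 v230 (k8 v528 v114 v233 v531 v119 v237 v536 v125 (k8 v241 v541 v128 v245 v544 v132 v249 v546 (k1 v600 (k0)))))))))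
noncomputable def ca5_119 : List VW := k8 v277 v144 v275 v274 v279 v149 v433 v292 (k8 v157 v160 v436 v306 v167 v460 v35 v39 (k8 v176 v337 v182 v345 v183 v186 v351 v192 (k8 v69 v194 v195 v364 v200 v79 v202 v493 (k8 v205 v86 v207 v502 v211 v213 v511 v217 (k8 v219 v518 v223 v225 v524 v111 v230 v528 (k1 v114 (k1 v233 (k1 v531 (k1 v596 (k0))))))))))
noncomputable def ca5_120 : List VW := k8 v277 v144 v275 v274 v279 v149 v433 v292 (k8 v157 v160 v436 v306 v169 v328 v39 v177 (k8 v337 v182 v58 v183 v186 v351 v192 v194 (k8 v195 v364 v200 v79 v202 v493 v205 v207 (k8 v502 v211 v213 v511 v217 v219 v518 v223 (k1 v225 (k1 v524 (k1 v594 (k0))))))))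
noncomputable def ca5_121 : List VW := k8 v276 v144 v275 v274 v283 v149 v433 v291 (k8 v157 v160 v446 v305 v167 v462 v173 v174 (k8 v336 v182 v345 v183 v187 v350 v192 v481 (k8 v195 v364 v200 v368 v203 v493 v205 v208 (k8 v502 v211 v213 v511 v217 v219 v518 v593 (k0)))))
noncomputable def ca5_122 : List VW := k8 v5 v275 v289 v13 v304 v16 v24 v319 (k1 v31 (k1 v36 (k1 v42 (k1 v56 (k1 v567 (k0))))))
noncomputable def ca5_123 : List VW := k8 v3 v275 v289 v13 v304 v16 v21 v319 (k1 v31 (k1 v35 (k1 v42 (k1 v56 (k1 v59 (k1 v68 (k1 v568 (k0))))))))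
noncomputable def ca5_124 : List VW := k8 v4 v7 v275 v0 v13 v304 v16 v21 (k8 v319 v31 v36 v42 v50 v56 v59 v68 (k1 v568 (k0)))
noncomputable def ca5_125 : List VW := k8 v3 v424 v275 v0 v2 v299 v20 v21 (k8 v310 v31 v36 v44 v57 v59 v68 v568 (k0))
noncomputable def ca5_126 : List VW := k8 v4 v424 v273 v0 v2 v12 v431 v15 (k8 v21 v310 v166 v30 v334 v35 v42 v341 (k8 v54 v58 v59 v355 v66 v71 v367 v569 (k0)))
noncomputable def ca5_127 : List VW := k8 v4 v424 v273 v0 v2 v428 v425 v23 (k8 v316 v166 v30 v334 v35 v42 v341 v181 (k8 v54 v58 v59 v355 v66 v71 v367 v75 (k1 v79 (k1 v375 (k1 v570 (k0))))))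
noncomputable def ca5_128 : List VW := k8 v4 v424 v273 v0 v2 v298 v295 v21 (k8 v160 v315 v265 v29 v165 v331 v42 v340 (k8 v266 v53 v58 v59 v354 v65 v71 v366 (k1 v74 (k1 v79 (k1 v374 (k1 v570 (k0)))))))
noncomputable def ca5_129 : List VW := k8 v278 v3 v424 v273 v0 v2 v298 v295 (k8 v22 v23 v324 v309 v265 v29 v333 v331 (k8 v42 v340 v266 v53 v347 v59 v354 v268 (k8 v65 v69 v71 v366 v74 v79 v374 v83 (k8 v86 v89 v92 v94 v389 v97 v99 v101 (k1 v573 (k0))))))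
noncomputable def ca5_130 : List VW := k8 v278 v147 v275 v281 v263 v11 v433 v561 (k8 v22 v160 v323 v308 v265 v28 v332 v330 (k8 v42 v174 v339 v266 v52 v180 v346 v59 (k8 v186 v353 v268 v64 v359 v71 v195 v485 (k8 v73 v199 v79 v373 v271 v82 v85 v86 (k8 v207 v502 v91 v94 v389 v96 v99 v391 (k8 v104 v106 v107 v396 v111 v230 v528 v114 (k8 v115 v116 v119 v120 v122 v125 v241 v126 (k8 v128 v129 v130 v132 v412 v134 v135 v136 (k1 v137 (k1 v582 (k0)))))))))))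
noncomputable def ca5_131 : List VW := k8 v278 v144 v275 v274 v280 v149 v433 v293 (k8 v157 v160 v322 v446 v307 v167 v460 v329 (k8 v170 v174 v338 v182 v345 v183 v186 v352 (k8 v192 v69 v194 v195 v364 v200 v491 v78 (k8 v203 v493 v205 v499 v207 v502 v211 v213 (k8 v511 v217 v219 v518 v223 v225 v524 v594 (k0))))))
noncomputable def ca5_132 : List VW := k1 v1 (k1 v144 (k1 v420 (k1 v434 (k1 v162 (k1 v167 (k1 v586 (k0)))))))
noncomputable def ca5_133 : List VW := k8 v1 v144 v418 v149 v155 v160 v441 v586 (k0)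
noncomputable def ca5_134 : List VW := k8 v1 v144 v417 v421 v149 v433 v426 v160 (k8 v443 v167 v452 v174 v464 v180 v469 v186 (k8 v476 v190 v480 v195 v485 v199 v488 v202 (k8 v493 v205 v496 v207 v502 v211 v505 v513 (k8 v218 v514 v519 v224 v226 v229 v230 v232 (k8 v233 v235 v237 v240 v241 v244 v245 v248 (k8 v249 v251 v252 v254 v255 v256 v257 v259 (k1 v603 (k0))))))))
noncomputable def ca5_135 : List VW := k8 v1 v144 v418 v149 v157 v160 v441 v586 (k0)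
noncomputable def ca5_136 : List VW := k8 v1 v144 v423 v418 v149 v433 v426 v161 (k8 v444 v167 v460 v452 v174 v465 v180 v470 (k8 v186 v476 v190 v480 v195 v485 v199 v488 (k8 v202 v493 v205 v496 v207 v502 v211 v505 (k8 v213 v511 v516 v220 v518 v223 v226 v229 (k8 v230 v232 v233 v235 v237 v240 v241 v244 (k8 v245 v248 v249 v251 v252 v254 v255 v256 (k1 v257 (k1 v259 (k1 v260 (k1 v261 (k1 v604 (k0))))))))))))
noncomputable def ca5_137 : List VW := k8 v1 v144 v423 v418 v149 v433 v426 v160 (k8 v444 v167 v460 v452 v174 v465 v180 v470 (k8 v186 v476 v190 v480 v195 v485 v199 v488 (k8 v202 v493 v205 v496 v207 v502 v211 v505 (k8 v213 v511 v516 v220 v518 v223 v226 v229 (k8 v230 v232 v233 v235 v237 v239 v241 v244 (k8 v245 v247 v249 v251 v252 v254 v255 v256 (k1 v602 (k0))))))))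
noncomputable def ca5_138 : List VW := k8 v1 v144 v423 v418 v149 v433 v426 v160 (k8 v436 v443 v167 v460 v452 v174 v465 v180 (k8 v470 v186 v476 v190 v481 v195 v485 v199 (k8 v488 v202 v493 v205 v496 v207 v502 v211 (k8 v505 v213 v511 v516 v220 v518 v223 v226 (k8 v229 v230 v232 v233 v235 v237 v239 v241 (k8 v244 v245 v247 v249 v251 v252 v254 v255 (k1 v256 (k1 v602 (k0)))))))))
noncomputable def ca5_139 : List VW := k8 v1 v144 v274 v423 v418 v149 v433 v426 (k8 v160 v446 v441 v167 v460 v452 v174 v465 (k8 v180 v470 v186 v476 v190 v481 v195 v485 (k8 v199 v489 v202 v493 v205 v496 v207 v502 (k8 v211 v505 v213 v511 v516 v219 v518 v223 (k8 v226 v524 v228 v230 v528 v231 v233 v235 (k8 v237 v239 v241 v243 v245 v247 v249 v251 (k1 v252 (k1 v254 (k1 v255 (k1 v256 (k1 v602 (k0))))))))))))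
noncomputable def ca5_140 : List VW := k8 v1 v147 v423 v418 v149 v433 v426 v160 (k8 v446 v441 v167 v460 v452 v174 v465 v180 (k8 v470 v186 v476 v190 v481 v195 v485 v199 (k8 v489 v202 v493 v205 v496 v207 v502 v211 (k8 v505 v213 v511 v516 v219 v518 v223 v226 (k8 v524 v228 v230 v232 v233 v235 v237 v239 (k8 v241 v243 v245 v247 v249 v251 v252 v254 (k1 v255 (k1 v256 (k1 v257 (k1 v259 (k1 v260 (k1 v261 (k1 v604 (k0))))))))))))))
noncomputable def ca5_141 : List VW := k8 v1 v147 v423 v418 v149 v433 v426 v160 (k8 v446 v441 v167 v460 v452 v174 v465 v180 (k8 v470 v186 v476 v190 v481 v195 v485 v199 (k8 v488 v202 v493 v205 v496 v207 v502 v211 (k8 v505 v213 v511 v516 v219 v518 v223 v226 (k8 v524 v228 v230 v232 v233 v235 v237 v239 (k8 v241 v243 v245 v247 v249 v251 v252 v254 (k1 v255 (k1 v256 (k1 v257 (k1 v259 (k1 v603 (k0))))))))))))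
noncomputable def ca5_142 : List VW := k8 v1 v144 v275 v423 v279 v149 v433 v426 (k8 v160 v446 v441 v167 v460 v452 v174 v336 (k8 v464 v182 v473 v184 v187 v478 v476 v190 (k8 v481 v195 v485 v199 v489 v202 v493 v205 (k8 v497 v207 v502 v211 v505 v213 v511 v516 (k8 v219 v518 v223 v226 v524 v228 v230 v528 (k8 v231 v233 v531 v235 v237 v536 v239 v241 (k8 v541 v243 v245 v544 v545 v546 v547 v549 (k1 v255 (k1 v256 (k1 v257 (k1 v259 (k1 v603 (k0)))))))))))))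
noncomputable def ca5_143 : List VW := k8 v1 v144 v274 v423 v418 v149 v433 v426 (k8 v160 v446 v441 v167 v460 v452 v178 v465 (k8 v180 v470 v186 v476 v190 v481 v195 v485 (k8 v199 v489 v202 v493 v205 v497 v207 v502 (k8 v211 v505 v213 v511 v516 v219 v518 v223 (k8 v226 v524 v228 v230 v528 v231 v233 v531 (k8 v235 v237 v239 v241 v243 v245 v247 v249 (k8 v251 v252 v254 v255 v256 v257 v259 v260 (k1 v261 (k1 v604 (k0))))))))))
noncomputable def ca5_144 : List VW := k8 v1 v144 v274 v423 v418 v149 v433 v426 (k8 v160 v446 v441 v167 v460 v452 v174 v465 (k8 v180 v470 v186 v476 v190 v481 v195 v485 (k8 v199 v489 v202 v493 v205 v496 v207 v502 (k8 v211 v214 v511 v217 v220 v518 v223 v226 (k8 v524 v228 v230 v528 v231 v233 v235 v237 (k8 v239 v241 v243 v245 v247 v249 v251 v600 (k0)))))))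
noncomputable def ca5_145 : List VW := k8 v1 v147 v423 v287 v149 v433 v426 v160 (k8 v444 v169 v453 v174 v464 v180 v470 v186 (k8 v476 v190 v481 v195 v485 v491 v203 v493 (k8 v205 v208 v502 v211 v213 v511 v217 v219 (k1 v518 (k1 v593 (k0))))))
noncomputable def ca5_146 : List VW := k8 v277 v144 v275 v274 v284 v149 v433 v292 (k8 v157 v161 v446 v306 v167 v460 v328 v170 (k8 v174 v337 v182 v473 v184 v186 v351 v67 (k8 v192 v483 v71 v195 v485 v199 v368 v79 (k8 v202 v493 v205 v86 v207 v502 v211 v214 (k8 v511 v217 v220 v518 v223 v225 v524 v228 (k8 v230 v528 v114 v233 v531 v119 v237 v536 (k8 v125 v241 v541 v243 v245 v544 v132 v249 (k1 v546 (k1 v134 (k1 v252 (k1 v549 (k1 v601 (k0)))))))))))))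
noncomputable def ca5_147 : List VW := k8 v277 v144 v275 v423 v0 v149 v433 v292 (k8 v157 v161 v446 v306 v167 v460 v328 v35 (k8 v171 v174 v337 v464 v182 v473 v184 v186 (k8 v351 v67 v192 v481 v195 v485 v199 v489 (k8 v202 v493 v205 v86 v207 v502 v211 v94 (k8 v213 v511 v516 v219 v518 v223 v225 v524 (k8 v228 v230 v528 v231 v233 v531 v235 v237 (k8 v536 v239 v241 v541 v243 v245 v544 v545 (k8 v546 v547 v549 v255 v553 v257 v556 v557 (k1 v558 (k1 v604 (k0)))))))))))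
noncomputable def ca5_148 : List VW := k8 v276 v144 v275 v423 v0 v149 v433 v291 (k8 v157 v161 v446 v305 v167 v462 v562 v326 (k8 v42 v174 v336 v464 v182 v473 v184 v186 (k8 v350 v476 v192 v481 v195 v485 v199 v489 (k8 v202 v493 v205 v86 v207 v502 v211 v94 (k8 v213 v511 v516 v219 v518 v223 v225 v524 (k8 v228 v230 v528 v231 v233 v531 v235 v237 (k8 v536 v239 v241 v541 v243 v245 v544 v545 (k8 v546 v547 v549 v255 v553 v257 v556 v603 (k0)))))))))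
noncomputable def ca5_149 : List VW := k8 v1 v144 v275 v423 v279 v149 v433 v291 (k8 v157 v160 v446 v441 v167 v460 v452 v174 (k8 v336 v464 v182 v345 v470 v186 v350 v476 (k8 v192 v481 v195 v485 v199 v489 v202 v493 (k8 v205 v497 v207 v502 v211 v506 v213 v511 (k8 v516 v219 v518 v223 v226 v524 v228 v230 (k8 v528 v231 v233 v531 v235 v237 v536 v239 (k8 v241 v541 v243 v245 v544 v545 v546 v547 (k8 v549 v255 v256 v257 v259 v260 v261 v604 (k0)))))))))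
noncomputable def ca5_150 : List VW := k8 v1 v144 v275 v423 v279 v149 v433 v426 (k8 v160 v446 v441 v167 v460 v452 v174 v336 (k8 v464 v182 v345 v470 v186 v350 v476 v192 (k8 v481 v195 v485 v199 v489 v202 v493 v205 (k8 v497 v207 v502 v211 v506 v213 v511 v516 (k8 v219 v518 v223 v226 v524 v228 v230 v528 (k8 v231 v233 v531 v235 v237 v536 v239 v241 (k8 v541 v243 v245 v544 v545 v546 v547 v549 (k1 v255 (k1 v256 (k1 v257 (k1 v259 (k1 v260 (k1 v261 (k1 v604 (k0)))))))))))))))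
noncomputable def ca5_151 : List VW := k8 v1 v144 v275 v423 v279 v149 v433 v426 (k8 v160 v446 v441 v167 v460 v452 v174 v336 (k8 v464 v182 v345 v470 v186 v478 v476 v190 (k8 v481 v195 v485 v199 v489 v202 v493 v205 (k8 v497 v207 v502 v211 v506 v213 v511 v516 (k8 v219 v518 v223 v226 v524 v228 v230 v528 (k8 v231 v233 v531 v235 v237 v536 v239 v241 (k8 v541 v243 v245 v544 v545 v546 v547 v549 (k1 v551 (k1 v553 (k1 v258 (k1 v259 (k1 v260 (k1 v261 (k1 v604 (k0)))))))))))))))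
noncomputable def ca5_152 : List VW := k8 v1 v144 v275 v423 v279 v149 v433 v426 (k8 v160 v446 v441 v167 v460 v452 v174 v336 (k8 v464 v182 v180 v470 v186 v476 v190 v481 (k8 v195 v485 v199 v489 v202 v493 v205 v497 (k8 v207 v502 v211 v506 v213 v511 v217 v220 (k8 v518 v223 v225 v524 v228 v230 v528 v231 (k8 v233 v531 v235 v237 v536 v239 v241 v541 (k8 v243 v245 v544 v545 v546 v547 v549 v601 (k0))))))))
noncomputable def ca5_153 : List VW := k8 v1 v144 v275 v423 v279 v149 v433 v426 (k8 v160 v446 v441 v167 v460 v452 v174 v465 (k8 v180 v470 v186 v476 v190 v481 v195 v485 (k8 v199 v489 v202 v493 v205 v497 v207 v502 (k8 v211 v214 v511 v217 v220 v518 v223 v225 (k8 v524 v228 v230 v528 v231 v233 v531 v532 (k1 v536 (k1 v239 (k1 v241 (k1 v541 (k1 v543 (k1 v544 (k1 v599 (k0)))))))))))))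
noncomputable def ca5_154 : List VW := k8 v1 v144 v274 v423 v0 v149 v433 v426 (k8 v160 v436 v443 v167 v460 v452 v174 v465 (k8 v180 v470 v186 v476 v190 v481 v195 v485 (k8 v199 v489 v202 v493 v205 v208 v502 v211 (k8 v213 v511 v217 v219 v518 v223 v225 v524 (k1 v594 (k0))))))
noncomputable def ca5_155 : List VW := k8 v278 v3 v424 v273 v0 v2 v429 v561 (k8 v21 v160 v323 v308 v265 v28 v332 v330 (k8 v42 v174 v339 v266 v52 v346 v59 v353 (k8 v268 v64 v189 v71 v365 v73 v77 v79 (k8 v373 v492 v379 v86 v382 v91 v94 v389 (k8 v96 v99 v100 v104 v106 v107 v108 v111 (k1 v230 (k1 v528 (k1 v114 (k1 v115 (k1 v576 (k0)))))))))))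
noncomputable def ca5_156 : List VW := k8 v278 v147 v275 v281 v2 v11 v432 v560 (k8 v21 v160 v323 v308 v264 v28 v332 v330 (k8 v42 v174 v339 v266 v52 v179 v346 v59 (k8 v186 v353 v267 v64 v359 v71 v195 v484 (k8 v73 v198 v79 v373 v270 v82 v85 v86 (k8 v207 v501 v91 v94 v389 v96 v99 v391 (k8 v104 v106 v107 v108 v111 v230 v528 v114 (k8 v530 v119 v120 v122 v125 v241 v126 v128 (k1 v129 (k1 v130 (k1 v132 (k1 v249 (k1 v134 (k1 v135 (k1 v581 (k0)))))))))))))))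
noncomputable def ca5_157 : List VW := k8 v278 v147 v275 v285 v2 v429 v560 v22 (k8 v160 v322 v307 v264 v27 v456 v35 v42 (k8 v174 v338 v266 v51 v472 v59 v186 v352 (k8 v267 v63 v358 v71 v195 v484 v72 v198 (k8 v79 v202 v492 v81 v85 v86 v207 v501 (k8 v210 v94 v388 v95 v515 v219 v517 v222 (k8 v225 v523 v111 v230 v528 v114 v115 v116 (k8 v119 v120 v122 v125 v241 v126 v128 v129 (k8 v130 v132 v249 v134 v252 v136 v552 v257 (k1 v142 (k1 v260 (k1 v143 (k1 v262 (k1 v585 (k0))))))))))))))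
noncomputable def ca5_158 : List VW := k8 v278 v144 v275 v274 v280 v149 v433 v293 (k8 v157 v160 v322 v436 v446 v307 v167 v460 (k8 v329 v43 v174 v338 v182 v345 v183 v186 (k8 v352 v192 v69 v71 v195 v364 v200 v79 (k8 v202 v493 v378 v499 v207 v502 v211 v213 (k8 v511 v217 v219 v518 v223 v225 v524 v228 (k8 v230 v528 v114 v233 v116 v535 v237 v536 (k8 v125 v241 v541 v128 v245 v410 v132 v249 (k1 v546 (k1 v253 (k1 v136 (k1 v137 (k1 v553 (k1 v602 (k0))))))))))))))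
noncomputable def ca5_159 : List VW := k8 v278 v144 v275 v274 v280 v149 v433 v293 (k8 v157 v161 v437 v446 v307 v167 v460 v329 (k8 v170 v174 v338 v182 v345 v183 v186 v352 (k8 v192 v483 v71 v195 v364 v200 v79 v202 (k8 v493 v205 v86 v207 v502 v211 v213 v511 (k8 v217 v219 v518 v223 v225 v524 v228 v230 (k8 v528 v114 v233 v531 v119 v237 v536 v125 (k8 v241 v541 v128 v245 v544 v132 v249 v546 (k1 v600 (k0)))))))))
noncomputable def ca5_160 : List VW := k8 v277 v144 v275 v274 v279 v149 v433 v292 (k8 v157 v161 v446 v306 v167 v460 v328 v170 (k8 v174 v337 v182 v345 v183 v187 v351 v192 (k8 v69 v357 v195 v364 v200 v79 v202 v493 (k8 v205 v86 v207 v502 v211 v213 v511 v217 (k8 v219 v518 v223 v225 v524 v228 v230 v528 (k8 v114 v233 v531 v119 v237 v536 v125 v241 (k8 v541 v128 v245 v544 v132 v249 v546 v600 (k0))))))))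
noncomputable def ca5_161 : List VW := k8 v277 v144 v275 v274 v279 v149 v433 v292 (k8 v157 v160 v446 v306 v167 v460 v328 v170 (k8 v174 v337 v182 v345 v183 v186 v351 v192 (k8 v69 v357 v195 v364 v200 v79 v202 v493 (k8 v205 v86 v207 v502 v211 v213 v511 v217 (k8 v219 v518 v223 v225 v524 v228 v230 v528 (k1 v114 (k1 v233 (k1 v531 (k1 v596 (k0))))))))))
noncomputable def ca5_162 : List VW := k8 v276 v144 v275 v423 v0 v149 v433 v291 (k8 v157 v161 v446 v305 v167 v460 v327 v170 (k8 v174 v465 v182 v345 v185 v186 v350 v192 (k8 v481 v195 v364 v200 v489 v202 v493 v205 (k8 v497 v207 v502 v211 v214 v511 v217 v220 (k8 v518 v223 v225 v524 v228 v230 v528 v231 (k1 v233 (k1 v531 (k1 v596 (k0)))))))))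
noncomputable def ca5_163 : List VW := k8 v3 v275 v289 v13 v304 v15 v21 v319 (k1 v33 (k1 v48 (k1 v56 (k1 v567 (k0)))))
noncomputable def ca5_164 : List VW := k8 v4 v424 v275 v0 v13 v431 v16 v21 (k8 v319 v31 v335 v46 v50 v56 v60 v68 (k1 v568 (k0)))
noncomputable def ca5_165 : List VW := k8 v4 v424 v273 v0 v2 v12 v431 v425 (k8 v21 v316 v166 v30 v334 v35 v42 v341 (k8 v54 v58 v59 v355 v66 v71 v367 v569 (k0)))
noncomputable def ca5_166 : List VW := k8 v4 v424 v273 v0 v2 v12 v431 v425 (k8 v23 v316 v166 v30 v334 v35 v42 v341 (k8 v181 v54 v58 v59 v355 v66 v71 v367 (k1 v75 (k1 v79 (k1 v375 (k1 v570 (k0)))))))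
noncomputable def ca5_167 : List VW := k8 v4 v424 v273 v0 v2 v12 v431 v425 (k8 v21 v325 v310 v166 v30 v334 v35 v42 (k8 v341 v181 v54 v58 v59 v355 v66 v71 (k1 v367 (k1 v75 (k1 v79 (k1 v375 (k1 v570 (k0))))))))
noncomputable def ca5_168 : List VW := k8 v4 v424 v273 v0 v2 v298 v295 v21 (k8 v324 v309 v166 v29 v164 v331 v42 v340 (k8 v181 v53 v58 v59 v354 v65 v71 v366 (k1 v74 (k1 v79 (k1 v374 (k1 v570 (k0)))))))
noncomputable def ca5_169 : List VW := k8 v6 v424 v273 v0 v2 v298 v295 v21 (k8 v324 v309 v265 v29 v333 v331 v42 v340 (k8 v266 v53 v347 v59 v354 v268 v65 v69 (k8 v71 v366 v74 v79 v374 v83 v86 v383 (k1 v571 (k0)))))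
noncomputable def ca5_170 : List VW := k8 v278 v3 v424 v273 v0 v2 v297 v294 (k8 v15 v22 v160 v323 v308 v265 v28 v332 (k8 v330 v44 v339 v266 v52 v346 v59 v353 (k8 v268 v64 v69 v71 v365 v73 v77 v79 (k8 v373 v82 v86 v382 v91 v94 v389 v96 (k8 v99 v100 v104 v106 v107 v108 v111 v397 (k1 v575 (k0)))))))
noncomputable def ca5_171 : List VW := k8 v278 v147 v275 v281 v2 v429 v560 v21 (k8 v160 v323 v308 v264 v28 v332 v330 v42 (k8 v174 v339 v266 v52 v179 v346 v59 v186 (k8 v353 v267 v64 v359 v71 v195 v484 v73 (k8 v77 v79 v373 v492 v379 v86 v382 v91 (k8 v94 v389 v96 v99 v391 v104 v106 v107 (k8 v108 v111 v230 v528 v114 v530 v119 v120 (k1 v122 (k1 v125 (k1 v241 (k1 v126 (k1 v128 (k1 v129 (k1 v579 (k0))))))))))))))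
noncomputable def ca5_172 : List VW := k8 v278 v144 v275 v280 v263 v10 v433 v560 (k8 v22 v161 v313 v264 v27 v332 v329 v42 (k8 v174 v464 v51 v473 v59 v186 v476 v63 (k8 v190 v71 v195 v485 v72 v491 v202 v493 (k8 v205 v207 v502 v211 v213 v511 v217 v219 (k1 v518 (k1 v106 (k1 v524 (k1 v594 (k0)))))))))
noncomputable def ca5_173 : List VW := k8 v278 v147 v275 v274 v285 v149 v433 v293 (k8 v157 v160 v322 v446 v307 v167 v460 v329 (k8 v170 v174 v467 v338 v182 v473 v185 v186 (k8 v478 v352 v192 v358 v194 v195 v364 v200 (k8 v491 v369 v202 v493 v81 v205 v499 v86 (k8 v207 v502 v211 v94 v213 v511 v217 v220 (k8 v518 v223 v225 v524 v228 v230 v528 v231 (k8 v233 v531 v235 v237 v536 v239 v241 v541 (k1 v598 (k0)))))))))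
noncomputable def ca5_174 : List VW := k8 v3 v275 v9 v13 v304 v15 v21 v319 (k1 v31 (k1 v46 (k1 v56 (k1 v567 (k0)))))
noncomputable def ca5_175 : List VW := k8 v4 v424 v275 v289 v13 v431 v19 v21 (k8 v319 v31 v335 v35 v42 v342 v55 v60 (k1 v68 (k1 v71 (k1 v76 (k1 v569 (k0))))))
noncomputable def ca5_176 : List VW := k8 v3 v424 v273 v0 v2 v303 v561 v21 (k8 v310 v265 v30 v459 v43 v341 v54 v58 (k1 v59 (k1 v355 (k1 v66 (k1 v568 (k0))))))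
noncomputable def ca5_177 : List VW := k8 v3 v147 v275 v0 v2 v297 v294 v21 (k8 v308 v265 v28 v330 v42 v174 v463 v52 (k1 v58 (k1 v59 (k1 v353 (k1 v64 (k1 v71 (k1 v365 (k1 v569 (k0)))))))))
noncomputable def ca5_178 : List VW := k8 v3 v144 v275 v0 v263 v11 v297 v294 (k8 v21 v323 v441 v28 v462 v43 v174 v464 (k8 v52 v346 v59 v186 v476 v361 v71 v365 (k1 v73 (k1 v79 (k1 v373 (k1 v82 (k1 v86 (k1 v382 (k1 v571 (k0))))))))))
noncomputable def ca5_179 : List VW := k8 v4 v144 v275 v0 v149 v296 v293 v157 (k8 v160 v313 v167 v329 v35 v175 v338 v182 (k8 v185 v186 v352 v192 v69 v195 v200 v589 (k0)))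

noncomputable def a19_0 : T5 :=
  (.nd 2 2424 .lw
  (.lf ⟨⟨0, 0, 0, 4451, 1, 1, 1⟩, 0, 0, 0, 0, [h5, h0 5884, f10], 26, ca5_0, 0, 0⟩))

noncomputable def a19_1 : T5 :=
  (.nd 2 2238 .lw
  (.lf ⟨⟨0, 0, 0, 37380, 16, 1, 1⟩, 0, 0, 0, 0, [h5, h0 5884, f9], 26, ca5_1, 0, 0⟩))

noncomputable def a19_2 : T5 :=
  (.nd 2 2073 .lw
  (.nd 2 2418 (.nd 2 2245 (.nd 2 2159 (.nd 2 2116 (.nd 2 2094 (.lf ⟨⟨0, 0, 0, 21100, 16, 1, 1⟩, 0, 0, 0, 0, [h5, h0 5884], 11, ca5_2, 0, 0⟩)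
  (.nd 2 2105 (.lf ⟨⟨0, 0, 0, 22693, 16, 1, 1⟩, 0, 0, 0, 0, [h5, h0 5884], 11, ca5_3, 0, 0⟩)
  (.lf ⟨⟨0, 0, 0, 23575, 16, 1, 1⟩, 0, 0, 0, 0, [h5, h0 5884, f8], 13, ca5_1, 0, 0⟩)))
  (.lf ⟨⟨0, 0, 0, 24491, 16, 1, 1⟩, 0, 0, 0, 0, [h5, h0 5884, f8], 13, ca5_1, 0, 0⟩))
  (.lf ⟨⟨0, 0, 0, 28427, 16, 1, 1⟩, 0, 0, 0, 0, [h5, h0 5884, f8], 13, ca5_1, 0, 0⟩))
  (.lf ⟨⟨0, 0, 0, 38298, 16, 1, 1⟩, 0, 0, 0, 0, [h5, h0 5884, f8], 0, ca5_0, 0, 0⟩))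
  (.lf ⟨⟨0, 0, 0, 4359, 1, 1, 1⟩, 0, 0, 0, 0, [h5, h0 5884, f8], 0, ca5_4, 0, 0⟩)))

noncomputable def a19_3 : T5 :=
  (.nd 2 1910 .lw
  (.nd 2 2228 (.nd 2 2069 (.nd 2 1989 (.nd 2 1949 (.nd 2 1929 (.lf ⟨⟨0, 0, 0, 11993, 16, 1, 1⟩, 0, 0, 0, 0, [h5, h0 5884], 11, ca5_5, 0, 0⟩)
  (.lf ⟨⟨0, 0, 0, 12810, 16, 1, 1⟩, 0, 0, 0, 0, [h5, h0 5884, f11], 13, ca5_1, 0, 0⟩))
  (.lf ⟨⟨0, 0, 0, 13729, 16, 1, 1⟩, 0, 0, 0, 0, [h5, h0 5884, f11], 13, ca5_1, 0, 0⟩))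
  (.lf ⟨⟨0, 0, 0, 15771, 16, 1, 1⟩, 0, 0, 0, 0, [h5, h0 5884, f11], 13, ca5_1, 0, 0⟩))
  (.lf ⟨⟨0, 0, 0, 20810, 16, 1, 1⟩, 0, 0, 0, 0, [h5, h0 5884, f11], 0, ca5_6, 0, 0⟩))
  (.lf ⟨⟨0, 0, 0, 36107, 16, 1, 1⟩, 0, 0, 0, 0, [h5, h0 5884, f11], 0, ca5_7, 0, 0⟩)))

noncomputable def a19_4 : T5 :=
  (.nd 2 1717 .lw
  (.nd 2 2003 (.nd 2 1860 (.nd 2 1788 (.nd 2 1752 (.lf ⟨⟨0, 0, 0, 6144, 16, 2, 1⟩, 0, 0, 0, 0, [h5, h0 5882], 11, ca5_8, 0, 0⟩)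
  (.lf ⟨⟨0, 0, 0, 6936, 16, 1, 1⟩, 0, 0, 0, 0, [h5, h0 5884, f7], 12, ca5_6, 0, 0⟩))
  (.lf ⟨⟨0, 0, 0, 7858, 16, 1, 1⟩, 0, 0, 0, 0, [h5, h0 5884, f7], 12, ca5_6, 0, 0⟩))
  (.lf ⟨⟨0, 0, 0, 10085, 16, 1, 1⟩, 0, 0, 0, 0, [h5, h0 5884, f7], 12, ca5_6, 0, 0⟩))
  (.lf ⟨⟨0, 0, 0, 16555, 16, 1, 1⟩, 0, 0, 0, 0, [h5, h0 5884, f7], 0, ca5_9, 0, 0⟩)))

noncomputable def a19_5 : T5 :=
  (.nd 2 1529 .lw
  (.nd 2 1783 (.nd 2 1656 (.nd 2 1592 (.lf ⟨⟨0, 0, 0, 3202, 16, 3, 2⟩, 63744, 256, 1, 0, [h5, h0 5880], 11, ca5_10, 0, 0⟩)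
  (.nd 2 1624 (.nd 2 1608 (.lf ⟨⟨0, 0, 0, 3983, 16, 2, 2⟩, 67379, 256, 1, 0, [h5, h0 5882], 11, ca5_11, 0, 0⟩)
  (.lf ⟨⟨0, 0, 0, 4211, 16, 2, 2⟩, 71221, 256, 1, 0, [h5, h0 5882, f6], 12, ca5_12, 0, 0⟩))
  (.lf ⟨⟨0, 0, 0, 4451, 16, 2, 2⟩, 0, 0, 0, 0, [h5, h0 5882, f6], 12, ca5_13, 0, 0⟩)))
  (.lf ⟨⟨0, 0, 0, 4973, 16, 2, 1⟩, 0, 0, 0, 0, [h5, h0 5882, f6], 12, ca5_13, 0, 0⟩))
  (.lf ⟨⟨0, 0, 0, 7723, 16, 1, 1⟩, 0, 0, 0, 0, [h5, h0 5884, f6], 0, ca5_6, 0, 0⟩)))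

noncomputable def a19_6 : T5 :=
  (.nd 2 1306 .lw
  (.nd 2 1523 (.nd 2 1414 (.nd 2 1360 (.nd 2 1333 (.lf ⟨⟨0, 0, 0, 1478, 16, 5, 4⟩, 25978, 256, 2, 0, [h5, h0 5876], 22, ca5_14, 0, 0⟩)
  (.lf ⟨⟨0, 0, 0, 1623, 16, 5, 3⟩, 28527, 256, 2, 0, [h5, h0 5876], 17, ca5_15, 0, 0⟩))
  (.lf ⟨⟨0, 0, 0, 1782, 16, 4, 3⟩, 34398, 256, 2, 0, [h5, h0 5878], 17, ca5_16, 0, 0⟩))
  (.lf ⟨⟨0, 0, 0, 2149, 16, 4, 3⟩, 50187, 256, 1, 0, [h5, h0 5878], 17, ca5_17, 0, 0⟩))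
  (.lf ⟨⟨0, 0, 0, 3136, 16, 3, 2⟩, 0, 0, 0, 0, [h5, h0 5880, f6], 0, ca5_18, 0, 0⟩)))

noncomputable def a19_7 : T5 :=
  (.nd 2 1106 .lw
  (.nd 2 1290 (.nd 2 1198 (.nd 2 1152 (.nd 2 1129 (.lf ⟨⟨0, 0, 0, 11828, 256, 10, 7⟩, 12811, 256, 5, 0, [h5, h0 5866], 22, ca5_19, 0, 0⟩)
  (.lf ⟨⟨0, 0, 0, 12810, 256, 9, 6⟩, 13874, 256, 5, 0, [h5, h0 5868], 17, ca5_20, 0, 0⟩))
  (.lf ⟨⟨0, 0, 0, 13873, 256, 8, 6⟩, 16271, 256, 4, 0, [h5, h0 5870], 17, ca5_21, 0, 0⟩))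
  (.lf ⟨⟨0, 0, 0, 16270, 256, 7, 5⟩, 22382, 256, 3, 0, [h5, h0 5872], 17, ca5_22, 0, 0⟩))
  (.lf ⟨⟨0, 0, 0, 1398, 16, 5, 4⟩, 0, 0, 0, 0, [h5, h0 5876], 17, ca5_23, 0, 0⟩)))

noncomputable def a19_8 : T5 :=
  (.nd 2 906 .lw
  (.nd 2 1057 (.nd 2 981 (.nd 2 943 (.lf ⟨⟨176585, 256, 1, 5914, 256, 19, 13⟩, 6724, 256, 10, 1, [h5, h0 5852], 22, ca5_24, 0, 0⟩)
  (.lf ⟨⟨0, 0, 0, 6723, 256, 17, 11⟩, 7670, 256, 9, 0, [h5, h0 5852], 17, ca5_25, 0, 0⟩))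
  (.lf ⟨⟨0, 0, 0, 7669, 256, 15, 10⟩, 9982, 256, 7, 0, [h5, h0 5856], 17, ca5_25, 0, 0⟩))
  (.lf ⟨⟨0, 0, 0, 9981, 256, 12, 8⟩, 0, 0, 0, 0, [h5, h0 5862], 17, ca5_26, 0, 0⟩)))

noncomputable def a19_9 : T5 :=
  (.nd 2 704 .lw
  (.nd 2 801 (.nd 2 752 (.nd 2 728 (.lf ⟨⟨39787, 256, 5, 2936, 256, 37, 25⟩, 3192, 256, 22, 4, [h5, h0 5830], 22, ca5_27, 0, 0⟩)
  (.nd 2 740 (.lf ⟨⟨43238, 256, 5, 3191, 256, 35, 23⟩, 3327, 256, 21, 4, [h5, h0 5834], 17, ca5_28, 0, 0⟩)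
  (.lf ⟨⟨46988, 256, 4, 3326, 256, 33, 22⟩, 3469, 256, 20, 4, [h5, h0 5836], 17, ca5_28, 0, 0⟩)))
  (.nd 2 776 (.lf ⟨⟨55493, 256, 4, 3468, 256, 32, 21⟩, 3770, 256, 18, 3, [h5, h0 5836], 17, ca5_28, 0, 0⟩)
  (.lf ⟨⟨65992, 256, 3, 3769, 256, 29, 19⟩, 4111, 256, 17, 2, [h5, h0 5838], 17, ca5_29, 0, 0⟩)))
  (.nd 2 934 (.nd 2 867 (.lf ⟨⟨104273, 256, 2, 4110, 256, 27, 18⟩, 5167, 256, 13, 1, [h5, h0 5838], 17, ca5_29, 0, 0⟩)
  (.lf ⟨⟨165906, 256, 1, 5166, 256, 22, 14⟩, 6518, 256, 11, 1, [h5, h0 5846], 17, ca5_30, 0, 0⟩))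
  (.lf ⟨⟨0, 0, 0, 6517, 256, 17, 12⟩, 0, 0, 0, 0, [h5, h0 5852], 0, ca5_31, 0, 0⟩))))

noncomputable def a19_10 : T5 :=
  (.nd 2 496 .lw
  (.nd 2 600 (.nd 2 500 (.lf ⟨⟨8192, 256, 27, 1428, 256, 75, 48⟩, 1449, 256, 46, 19, [h5, h0 5828], 17, ca5_32, 0, 0⟩)
  (.nd 2 550 (.nd 2 525 (.lf ⟨⟨9742, 256, 23, 1448, 256, 74, 47⟩, 1580, 256, 43, 16, [h5, h0 5816], 22, ca5_33, 0, 0⟩)
  (.nd 2 537 (.lf ⟨⟨10587, 256, 21, 1579, 256, 68, 44⟩, 1647, 256, 41, 15, [h5, h0 5822], 22, ca5_34, 0, 0⟩)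
  (.nd 2 543 (.lf ⟨⟨11037, 256, 20, 1646, 256, 65, 42⟩, 1681, 256, 40, 15, [h5, h0 5826], 17, ca5_35, 0, 0⟩)
  (.lf ⟨⟨11586, 256, 19, 1680, 256, 64, 41⟩, 1723, 256, 39, 14, [h5, h0 5824], 17, ca5_35, 0, 0⟩))))
  (.nd 2 575 (.nd 2 562 (.lf ⟨⟨12591, 256, 17, 1722, 256, 63, 40⟩, 1796, 256, 38, 13, [h5, h0 5820], 17, ca5_35, 0, 0⟩)
  (.nd 2 568 (.lf ⟨⟨13125, 256, 17, 1795, 256, 60, 39⟩, 1834, 256, 37, 13, [h5, h0 5826], 17, ca5_35, 0, 0⟩)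
  (.lf ⟨⟨13778, 256, 16, 1833, 256, 59, 38⟩, 1879, 256, 36, 12, [h5, h0 5824], 17, ca5_35, 0, 0⟩)))
  (.nd 2 587 (.lf ⟨⟨14973, 256, 14, 1878, 256, 58, 37⟩, 1958, 256, 35, 11, [h5, h0 5820], 17, ca5_35, 0, 0⟩)
  (.lf ⟨⟨16384, 256, 13, 1957, 256, 55, 36⟩, 2048, 256, 33, 10, [h5, h0 5822], 17, ca5_36, 0, 0⟩)))))
  (.nd 2 700 (.nd 2 650 (.nd 2 625 (.nd 2 612 (.lf ⟨⟨17806, 256, 12, 2048, 256, 53, 34⟩, 2135, 256, 32, 9, [h5, h0 5822], 17, ca5_37, 0, 0⟩)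
  (.lf ⟨⟨19484, 256, 11, 2134, 256, 51, 33⟩, 2234, 256, 31, 9, [h5, h0 5824], 17, ca5_38, 0, 0⟩))
  (.nd 2 637 (.lf ⟨⟨21174, 256, 10, 2233, 256, 49, 32⟩, 2329, 256, 30, 8, [h5, h0 5824], 17, ca5_38, 0, 0⟩)
  (.lf ⟨⟨23171, 256, 9, 2328, 256, 47, 31⟩, 2436, 256, 28, 7, [h5, h0 5824], 17, ca5_39, 0, 0⟩)))
  (.nd 2 675 (.lf ⟨⟨27555, 256, 8, 2435, 256, 45, 29⟩, 2656, 256, 26, 6, [h5, h0 5824], 17, ca5_40, 0, 0⟩)
  (.lf ⟨⟨32768, 256, 6, 2655, 256, 41, 27⟩, 2897, 256, 24, 5, [h5, h0 5826], 17, ca5_41, 0, 0⟩)))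
  (.nd 2 801 (.lf ⟨⟨65992, 256, 3, 2896, 256, 38, 25⟩, 4111, 256, 17, 2, [h5, h0 5820], 0, ca5_42, 0, 0⟩)
  (.lf ⟨⟨0, 0, 0, 4110, 256, 27, 18⟩, 0, 0, 0, 0, [h5, h0 5832], 0, ca5_43, 0, 0⟩)))))

noncomputable def a19_11 : T5 :=
  (.nd 2 384 .lw
  (.nd 2 400 (.lf ⟨⟨4096, 256, 55, 968, 256, 108, 68⟩, 1024, 256, 64, 35, [h5, h0 5850], 17, ca5_44, 0, 0⟩)
  (.nd 2 500 (.nd 2 450 (.nd 2 425 (.lf ⟨⟨4871, 256, 46, 1024, 256, 102, 65⟩, 1117, 256, 59, 30, [h5, h0 5834], 17, ca5_45, 0, 0⟩)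
  (.nd 2 437 (.lf ⟨⟨5294, 256, 42, 1116, 256, 94, 60⟩, 1165, 256, 57, 28, [h5, h0 5838], 17, ca5_46, 0, 0⟩)
  (.lf ⟨⟨5793, 256, 39, 1164, 256, 91, 58⟩, 1218, 256, 55, 26, [h5, h0 5834], 17, ca5_47, 0, 0⟩)))
  (.nd 2 475 (.nd 2 462 (.lf ⟨⟨6296, 256, 35, 1217, 256, 87, 56⟩, 1270, 256, 52, 24, [h5, h0 5830], 17, ca5_48, 0, 0⟩)
  (.lf ⟨⟨6889, 256, 32, 1269, 256, 84, 54⟩, 1328, 256, 50, 22, [h5, h0 5826], 17, ca5_49, 0, 0⟩))
  (.nd 2 487 (.lf ⟨⟨7487, 256, 30, 1327, 256, 80, 51⟩, 1385, 256, 48, 21, [h5, h0 5828], 17, ca5_50, 0, 0⟩)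
  (.lf ⟨⟨8192, 256, 27, 1384, 256, 77, 49⟩, 1449, 256, 46, 19, [h5, h0 5824], 0, ca5_50, 0, 0⟩))))
  (.nd 2 600 (.lf ⟨⟨16384, 256, 13, 1448, 256, 74, 47⟩, 2048, 256, 33, 10, [h5, h0 5784], 0, ca5_51, 0, 0⟩)
  (.lf ⟨⟨0, 0, 0, 2048, 256, 53, 34⟩, 0, 0, 0, 0, [h5, h0 5780], 0, ca5_52, 0, 0⟩)))))

noncomputable def a19_12 : T5 :=
  (.nd 2 274 .lw
  (.nd 2 300 (.nd 2 287 (.lf ⟨⟨1872, 256, 127, 661, 256, 154, 95⟩, 693, 256, 90, 65, [h5, h0 5962], 22, ca5_53, 0, 0⟩)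
  (.lf ⟨⟨2048, 256, 115, 692, 256, 147, 91⟩, 725, 256, 87, 61, [h5, h0 5944], 22, ca5_54, 0, 0⟩))
  (.nd 2 400 (.nd 2 350 (.nd 2 325 (.nd 2 312 (.lf ⟨⟨2226, 256, 105, 724, 256, 141, 88⟩, 755, 256, 84, 57, [h5, h0 5928], 22, ca5_55, 0, 0⟩)
  (.lf ⟨⟨2436, 256, 96, 754, 256, 136, 85⟩, 790, 256, 80, 53, [h5, h0 5912], 17, ca5_56, 0, 0⟩))
  (.lf ⟨⟨2897, 256, 80, 789, 256, 131, 82⟩, 862, 256, 75, 46, [h5, h0 5876], 17, ca5_57, 0, 0⟩))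
  (.nd 2 375 (.nd 2 362 (.lf ⟨⟨3148, 256, 73, 861, 256, 120, 76⟩, 898, 256, 72, 43, [h5, h0 5878], 17, ca5_58, 0, 0⟩)
  (.lf ⟨⟨3445, 256, 66, 897, 256, 116, 73⟩, 940, 256, 69, 40, [h5, h0 5866], 17, ca5_59, 0, 0⟩))
  (.nd 2 387 (.lf ⟨⟨3744, 256, 61, 939, 256, 111, 70⟩, 979, 256, 67, 38, [h5, h0 5862], 0, ca5_59, 0, 0⟩)
  (.lf ⟨⟨4096, 256, 55, 978, 256, 107, 68⟩, 1024, 256, 64, 35, [h5, h0 5852], 0, ca5_60, 0, 0⟩))))
  (.nd 2 500 (.lf ⟨⟨8192, 256, 27, 1024, 256, 102, 65⟩, 1449, 256, 46, 19, [h5, h0 5774], 0, ca5_61, 0, 0⟩)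
  (.lf ⟨⟨0, 0, 0, 1448, 256, 74, 47⟩, 0, 0, 0, 0, [h5, h0 5738], 0, ca5_62, 0, 0⟩)))))

noncomputable def a19_13 : T5 :=
  (.nd 2 111 .lw
  (.nd 2 200 (.nd 2 155 (.lf ⟨⟨750, 256, 361, 376, 256, 254, 150⟩, 439, 256, 132, 126, [h5, h0 6352], 17, ca5_63, 0, 0⟩)
  (.lf ⟨⟨1024, 256, 249, 438, 256, 222, 133⟩, 512, 256, 116, 101, [h5, h0 6142], 17, ca5_64, 0, 0⟩))
  (.nd 2 300 (.nd 2 250 (.nd 2 225 (.lf ⟨⟨1218, 256, 204, 512, 256, 194, 117⟩, 559, 256, 108, 89, [h5, h0 6084], 12, ca5_65, 0, 0⟩)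
  (.nd 2 237 (.lf ⟨⟨1324, 256, 185, 558, 256, 179, 109⟩, 583, 256, 105, 84, [h5, h0 6066], 12, ca5_66, 0, 0⟩)
  (.nd 2 243 (.lf ⟨⟨1380, 256, 177, 582, 256, 173, 106⟩, 595, 256, 103, 82, [h5, h0 6058], 12, ca5_67, 0, 0⟩)
  (.lf ⟨⟨1449, 256, 168, 594, 256, 169, 104⟩, 609, 256, 101, 79, [h5, h0 6042], 12, ca5_68, 0, 0⟩))))
  (.nd 2 275 (.nd 2 262 (.lf ⟨⟨1574, 256, 153, 608, 256, 166, 102⟩, 635, 256, 97, 74, [h5, h0 6008], 12, ca5_69, 0, 0⟩)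
  (.lf ⟨⟨1723, 256, 139, 634, 256, 160, 98⟩, 664, 256, 94, 69, [h5, h0 5982], 0, ca5_70, 0, 0⟩))
  (.lf ⟨⟨2048, 256, 115, 663, 256, 153, 95⟩, 725, 256, 87, 61, [h5, h0 5932], 0, ca5_71, 0, 0⟩)))
  (.nd 2 400 (.lf ⟨⟨4096, 256, 55, 724, 256, 141, 88⟩, 1024, 256, 64, 35, [h5, h0 5784], 0, ca5_72, 0, 0⟩)
  (.lf ⟨⟨0, 0, 0, 1024, 256, 102, 65⟩, 0, 0, 0, 0, [h5, h0 5682], 0, ca5_73, 0, 0⟩)))))

noncomputable def a19_14 : T5 :=
  (.nd 2 99 (.nd 2 59 (.lf ⟨⟨386, 256, 942, 256, 256, 351, 200⟩, 315, 256, 171, 194, [h5, h0 7456], 0, ca5_74, 0, 0⟩)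
  (.lf ⟨⟨509, 256, 605, 314, 256, 296, 173⟩, 361, 256, 154, 163, [h5, h0 6830], 0, ca5_75, 0, 0⟩))
  (.nd 2 159 (.nd 2 129 (.lf ⟨⟨626, 256, 455, 360, 256, 264, 155⟩, 401, 256, 142, 142, [h5, h0 6552], 0, ca5_76, 0, 0⟩)
  (.lf ⟨⟨771, 256, 349, 400, 256, 241, 143⟩, 445, 256, 131, 123, [h5, h0 6348], 0, ca5_77, 0, 0⟩))
  (.nd 2 200 (.lf ⟨⟨1024, 256, 249, 444, 256, 220, 132⟩, 512, 256, 116, 101, [h5, h0 6146], 0, ca5_78, 0, 0⟩)
  (.nd 2 300 (.lf ⟨⟨2048, 256, 115, 512, 256, 194, 117⟩, 725, 256, 87, 61, [h5, h0 5850], 0, ca5_79, 0, 0⟩)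
  (.lf ⟨⟨0, 0, 0, 724, 256, 141, 88⟩, 0, 0, 0, 0, [h5, h0 5604], 0, ca5_80, 0, 0⟩)))))

theorem sa19 : SA cs19.st (bxL 746 755) :=
  sa_nd 100 (sa_rc 1 2 0 1 39903169 2525 a19_0 (by decide +kernel)) <|
  sa_nd 200 (sa_rc 2 4 0 1 21984753 2439 a19_1 (by decide +kernel)) <|
  sa_nd 300 (sa_rc 4 8 1 2 1570341764013261 5048 a19_2 (by decide +kernel)) <|
  sa_nd 378 (sa_rc 8 13 1 2 824206974337398 4955 a19_3 (by decide +kernel)) <|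
  sa_nd 478 (sa_rc 14 27 1 2 457257448695091 4870 a19_4 (by decide +kernel)) <|
  sa_nd 578 (sa_rc 28 54 1 2 270008845646446 4794 a19_5 (by decide +kernel)) <|
  sa_nd 678 (sa_rc 55 109 1 1 103855328 2663 a19_6 (by decide +kernel)) <|
  sa_nd 778 (sa_rc 110 219 1 1 103855328 2663 a19_7 (by decide +kernel)) <|
  sa_nd 878 (sa_rc 220 439 1 1 103855328 2663 a19_8 (by decide +kernel)) <|
  sa_nd 978 (sa_rc 440 879 1 1 102425521 2661 a19_9 (by decide +kernel)) <|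
  sa_nd 1078 (sa_rc 880 1758 1 1 96900448 2653 a19_10 (by decide +kernel)) <|
  sa_nd 1128 (sa_rc 1759 2486 1 1 89166595 2641 a19_11 (by decide +kernel)) <|
  sa_nd 1178 (sa_rc 2487 3516 1 1 83195375 2631 a19_12 (by decide +kernel)) <|
  sa_nd 1228 (sa_rc 3517 4973 2 1 267361356123 3796 a19_13 (by decide +kernel)) <|
  sa_no a19_14 (by decide +kernel)

noncomputable def a20_0 : T5 :=
  (.nd 2 2452 .lw
  (.lf ⟨⟨0, 0, 0, 4904, 1, 1, 1⟩, 0, 0, 0, 0, [h5, h0 5884, f10], 26, ca5_0, 0, 0⟩))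

noncomputable def a20_1 : T5 :=
  (.nd 2 2262 .lw
  (.lf ⟨⟨0, 0, 0, 40622, 16, 1, 1⟩, 0, 0, 0, 0, [h5, h0 5884, f9], 26, ca5_1, 0, 0⟩))

noncomputable def a20_2 : T5 :=
  (.nd 2 2120 .lw
  (.lf ⟨⟨0, 0, 0, 24833, 16, 1, 1⟩, 0, 0, 0, 0, [h5, h0 5884, f8], 26, ca5_1, 0, 0⟩))

noncomputable def a20_3 : T5 :=
  (.nd 2 1933 .lw
  (.nd 2 2255 (.nd 2 2094 (.nd 2 2013 (.nd 2 1973 (.nd 2 1953 (.lf ⟨⟨0, 0, 0, 12988, 16, 1, 1⟩, 0, 0, 0, 0, [h5, h0 5884], 11, ca5_81, 0, 0⟩)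
  (.lf ⟨⟨0, 0, 0, 13921, 16, 1, 1⟩, 0, 0, 0, 0, [h5, h0 5884, f11], 13, ca5_1, 0, 0⟩))
  (.lf ⟨⟨0, 0, 0, 14920, 16, 1, 1⟩, 0, 0, 0, 0, [h5, h0 5884, f11], 13, ca5_1, 0, 0⟩))
  (.lf ⟨⟨0, 0, 0, 17139, 16, 1, 1⟩, 0, 0, 0, 0, [h5, h0 5884, f11], 13, ca5_1, 0, 0⟩))
  (.lf ⟨⟨0, 0, 0, 22693, 16, 1, 1⟩, 0, 0, 0, 0, [h5, h0 5884, f11], 0, ca5_82, 0, 0⟩))
  (.lf ⟨⟨0, 0, 0, 39649, 16, 1, 1⟩, 0, 0, 0, 0, [h5, h0 5884, f11], 0, ca5_83, 0, 0⟩)))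

noncomputable def a20_4 : T5 :=
  (.nd 2 1756 .lw
  (.lf ⟨⟨0, 0, 0, 7033, 16, 1, 1⟩, 0, 0, 0, 0, [h5, h0 5884, f7], 24, ca5_84, 0, 0⟩))

noncomputable def a20_5 : T5 :=
  (.nd 2 1549 .lw
  (.nd 2 1807 (.nd 2 1678 (.nd 2 1613 (.lf ⟨⟨0, 0, 0, 3432, 16, 3, 2⟩, 68557, 256, 1, 0, [h5, h0 5880], 11, ca5_85, 0, 0⟩)
  (.nd 2 1645 (.nd 2 1629 (.lf ⟨⟨0, 0, 0, 4284, 16, 2, 2⟩, 72466, 256, 1, 0, [h5, h0 5882], 11, ca5_86, 0, 0⟩)
  (.lf ⟨⟨0, 0, 0, 4529, 16, 2, 2⟩, 0, 0, 0, 0, [h5, h0 5882, f6], 12, ca5_13, 0, 0⟩))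
  (.lf ⟨⟨0, 0, 0, 4787, 16, 2, 1⟩, 0, 0, 0, 0, [h5, h0 5882, f6], 12, ca5_13, 0, 0⟩)))
  (.lf ⟨⟨0, 0, 0, 5367, 16, 2, 1⟩, 0, 0, 0, 0, [h5, h0 5882, f6], 12, ca5_13, 0, 0⟩))
  (.lf ⟨⟨0, 0, 0, 8393, 16, 1, 1⟩, 0, 0, 0, 0, [h5, h0 5884, f6], 0, ca5_6, 0, 0⟩)))

noncomputable def a20_6 : T5 :=
  (.nd 2 1326 .lw
  (.nd 2 1547 (.nd 2 1436 (.nd 2 1381 (.nd 2 1353 (.lf ⟨⟨0, 0, 0, 1584, 16, 5, 3⟩, 27843, 256, 2, 0, [h5, h0 5876], 22, ca5_87, 0, 0⟩)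
  (.nd 2 1367 (.lf ⟨⟨0, 0, 0, 1740, 16, 4, 3⟩, 29227, 256, 2, 0, [h5, h0 5878], 22, ca5_88, 0, 0⟩)
  (.lf ⟨⟨0, 0, 0, 1826, 16, 4, 3⟩, 30680, 256, 2, 0, [h5, h0 5878], 17, ca5_89, 0, 0⟩)))
  (.lf ⟨⟨0, 0, 0, 1917, 16, 4, 3⟩, 37123, 256, 1, 0, [h5, h0 5878], 17, ca5_89, 0, 0⟩))
  (.lf ⟨⟨0, 0, 0, 2320, 16, 3, 2⟩, 54539, 256, 1, 0, [h5, h0 5880], 17, ca5_14, 0, 0⟩))
  (.lf ⟨⟨0, 0, 0, 3408, 16, 3, 2⟩, 0, 0, 0, 0, [h5, h0 5880, f6], 0, ca5_18, 0, 0⟩)))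

noncomputable def a20_7 : T5 :=
  (.nd 2 1128 .lw
  (.nd 2 1316 (.nd 2 1222 (.nd 2 1175 (.nd 2 1151 (.lf ⟨⟨0, 0, 0, 12765, 256, 9, 6⟩, 13826, 256, 5, 0, [h5, h0 5868], 22, ca5_19, 0, 0⟩)
  (.lf ⟨⟨0, 0, 0, 13825, 256, 8, 6⟩, 15025, 256, 4, 0, [h5, h0 5870], 17, ca5_20, 0, 0⟩))
  (.lf ⟨⟨0, 0, 0, 15024, 256, 8, 5⟩, 17683, 256, 4, 0, [h5, h0 5870], 17, ca5_21, 0, 0⟩))
  (.lf ⟨⟨0, 0, 0, 1105, 16, 7, 5⟩, 24492, 256, 2, 0, [h5, h0 5872], 17, ca5_22, 0, 0⟩))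
  (.lf ⟨⟨0, 0, 0, 1530, 16, 5, 4⟩, 0, 0, 0, 0, [h5, h0 5876], 17, ca5_90, 0, 0⟩)))

noncomputable def a20_8 : T5 :=
  (.nd 2 928 .lw
  (.nd 2 1082 (.nd 2 1005 (.nd 2 966 (.lf ⟨⟨207105, 256, 1, 6382, 256, 18, 12⟩, 7282, 256, 9, 0, [h5, h0 5852], 22, ca5_24, 0, 0⟩)
  (.lf ⟨⟨0, 0, 0, 7281, 256, 16, 10⟩, 8336, 256, 8, 0, [h5, h0 5854], 17, ca5_25, 0, 0⟩))
  (.lf ⟨⟨0, 0, 0, 8335, 256, 14, 9⟩, 10885, 256, 6, 0, [h5, h0 5858], 17, ca5_91, 0, 0⟩))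
  (.lf ⟨⟨0, 0, 0, 10884, 256, 11, 7⟩, 0, 0, 0, 0, [h5, h0 5864], 17, ca5_26, 0, 0⟩)))

noncomputable def a20_9 : T5 :=
  (.nd 2 726 .lw
  (.nd 2 801 (.nd 2 763 (.lf ⟨⟨50711, 256, 4, 3169, 256, 35, 23⟩, 3604, 256, 19, 3, [h5, h0 5830], 22, ca5_28, 0, 0⟩)
  (.nd 2 782 (.lf ⟨⟨57849, 256, 3, 3603, 256, 31, 20⟩, 3849, 256, 18, 3, [h5, h0 5836], 17, ca5_28, 0, 0⟩)
  (.lf ⟨⟨65992, 256, 3, 3848, 256, 29, 19⟩, 4111, 256, 17, 2, [h5, h0 5838], 17, ca5_29, 0, 0⟩)))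
  (.nd 2 934 (.nd 2 867 (.lf ⟨⟨104273, 256, 2, 4110, 256, 27, 18⟩, 5167, 256, 13, 1, [h5, h0 5838], 17, ca5_29, 0, 0⟩)
  (.lf ⟨⟨165906, 256, 1, 5166, 256, 22, 14⟩, 6518, 256, 11, 1, [h5, h0 5846], 17, ca5_92, 0, 0⟩))
  (.lf ⟨⟨0, 0, 0, 6517, 256, 17, 12⟩, 0, 0, 0, 0, [h5, h0 5852], 0, ca5_93, 0, 0⟩))))

noncomputable def a20_10 : T5 :=
  (.nd 2 520 .lw
  (.nd 2 600 (.nd 2 560 (.lf ⟨⟨12417, 256, 18, 1552, 256, 69, 45⟩, 1783, 256, 38, 13, [h5, h0 5810], 22, ca5_94, 0, 0⟩)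
  (.nd 2 580 (.lf ⟨⟨14264, 256, 15, 1782, 256, 61, 39⟩, 1911, 256, 36, 12, [h5, h0 5818], 17, ca5_95, 0, 0⟩)
  (.lf ⟨⟨16384, 256, 13, 1910, 256, 57, 37⟩, 2048, 256, 33, 10, [h5, h0 5818], 17, ca5_95, 0, 0⟩)))
  (.nd 2 700 (.nd 2 650 (.nd 2 625 (.lf ⟨⟨19484, 256, 11, 2048, 256, 53, 34⟩, 2234, 256, 31, 9, [h5, h0 5820], 17, ca5_95, 0, 0⟩)
  (.lf ⟨⟨23171, 256, 9, 2233, 256, 49, 32⟩, 2436, 256, 28, 7, [h5, h0 5820], 17, ca5_38, 0, 0⟩))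
  (.lf ⟨⟨32768, 256, 6, 2435, 256, 45, 29⟩, 2897, 256, 24, 5, [h5, h0 5818], 17, ca5_96, 0, 0⟩))
  (.nd 2 801 (.nd 2 750 (.lf ⟨⟨46341, 256, 4, 2896, 256, 38, 25⟩, 3445, 256, 20, 4, [h5, h0 5826], 17, ca5_97, 0, 0⟩)
  (.lf ⟨⟨65992, 256, 3, 3444, 256, 32, 21⟩, 4111, 256, 17, 2, [h5, h0 5832], 0, ca5_98, 0, 0⟩))
  (.lf ⟨⟨0, 0, 0, 4110, 256, 27, 18⟩, 0, 0, 0, 0, [h5, h0 5832], 0, ca5_99, 0, 0⟩)))))

noncomputable def a20_11 : T5 :=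
  (.nd 2 308 .lw
  (.nd 2 400 (.nd 2 354 (.lf ⟨⟨2978, 256, 77, 744, 256, 138, 86⟩, 874, 256, 74, 45, [h5, h0 5854], 22, ca5_100, 0, 0⟩)
  (.nd 2 377 (.lf ⟨⟨3493, 256, 65, 873, 256, 119, 75⟩, 946, 256, 69, 40, [h5, h0 5858], 17, ca5_101, 0, 0⟩)
  (.lf ⟨⟨4096, 256, 55, 945, 256, 110, 70⟩, 1024, 256, 64, 35, [h5, h0 5846], 17, ca5_44, 0, 0⟩)))
  (.nd 2 500 (.nd 2 450 (.nd 2 425 (.lf ⟨⟨4871, 256, 46, 1024, 256, 102, 65⟩, 1117, 256, 59, 30, [h5, h0 5834], 17, ca5_102, 0, 0⟩)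
  (.lf ⟨⟨5793, 256, 39, 1116, 256, 94, 60⟩, 1218, 256, 55, 26, [h5, h0 5828], 17, ca5_103, 0, 0⟩))
  (.nd 2 475 (.nd 2 462 (.lf ⟨⟨6296, 256, 35, 1217, 256, 87, 56⟩, 1270, 256, 52, 24, [h5, h0 5830], 17, ca5_48, 0, 0⟩)
  (.lf ⟨⟨6889, 256, 32, 1269, 256, 84, 54⟩, 1328, 256, 50, 22, [h5, h0 5826], 17, ca5_104, 0, 0⟩))
  (.nd 2 487 (.lf ⟨⟨7487, 256, 30, 1327, 256, 80, 51⟩, 1385, 256, 48, 21, [h5, h0 5828], 17, ca5_50, 0, 0⟩)
  (.lf ⟨⟨8192, 256, 27, 1384, 256, 77, 49⟩, 1449, 256, 46, 19, [h5, h0 5824], 17, ca5_105, 0, 0⟩))))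
  (.nd 2 600 (.nd 2 550 (.nd 2 525 (.nd 2 512 (.lf ⟨⟨8903, 256, 25, 1448, 256, 74, 47⟩, 1510, 256, 45, 18, [h5, h0 5824], 17, ca5_105, 0, 0⟩)
  (.lf ⟨⟨9742, 256, 23, 1509, 256, 71, 46⟩, 1580, 256, 43, 16, [h5, h0 5822], 0, ca5_106, 0, 0⟩))
  (.lf ⟨⟨11586, 256, 19, 1579, 256, 68, 44⟩, 1723, 256, 39, 14, [h5, h0 5816], 0, ca5_107, 0, 0⟩))
  (.lf ⟨⟨16384, 256, 13, 1722, 256, 63, 40⟩, 2048, 256, 33, 10, [h5, h0 5806], 0, ca5_108, 0, 0⟩))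
  (.lf ⟨⟨0, 0, 0, 2048, 256, 53, 34⟩, 0, 0, 0, 0, [h5, h0 5780], 0, ca5_109, 0, 0⟩)))))

noncomputable def a20_12 : T5 :=
  (.nd 2 143 .lw
  (.nd 2 200 (.lf ⟨⟨1024, 256, 249, 420, 256, 231, 138⟩, 512, 256, 116, 101, [h5, h0 6124], 17, ca5_110, 0, 0⟩)
  (.nd 2 300 (.nd 2 250 (.nd 2 225 (.lf ⟨⟨1218, 256, 204, 512, 256, 194, 117⟩, 559, 256, 108, 89, [h5, h0 6084], 12, ca5_111, 0, 0⟩)
  (.nd 2 237 (.lf ⟨⟨1324, 256, 185, 558, 256, 179, 109⟩, 583, 256, 105, 84, [h5, h0 6066], 12, ca5_66, 0, 0⟩)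
  (.nd 2 243 (.lf ⟨⟨1380, 256, 177, 582, 256, 173, 106⟩, 595, 256, 103, 82, [h5, h0 6058], 12, ca5_112, 0, 0⟩)
  (.lf ⟨⟨1449, 256, 168, 594, 256, 169, 104⟩, 609, 256, 101, 79, [h5, h0 6042], 12, ca5_113, 0, 0⟩))))
  (.nd 2 275 (.nd 2 262 (.lf ⟨⟨1574, 256, 153, 608, 256, 166, 102⟩, 635, 256, 97, 74, [h5, h0 6008], 12, ca5_114, 0, 0⟩)
  (.lf ⟨⟨1723, 256, 139, 634, 256, 160, 98⟩, 664, 256, 94, 69, [h5, h0 5982], 12, ca5_115, 0, 0⟩))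
  (.nd 2 287 (.lf ⟨⟨1872, 256, 127, 663, 256, 153, 95⟩, 693, 256, 90, 65, [h5, h0 5964], 12, ca5_116, 0, 0⟩)
  (.nd 2 293 (.lf ⟨⟨1952, 256, 121, 692, 256, 147, 91⟩, 707, 256, 89, 63, [h5, h0 5960], 12, ca5_117, 0, 0⟩)
  (.lf ⟨⟨2048, 256, 115, 706, 256, 145, 90⟩, 725, 256, 87, 61, [h5, h0 5948], 12, ca5_117, 0, 0⟩)))))
  (.nd 2 400 (.nd 2 350 (.nd 2 325 (.lf ⟨⟨2436, 256, 96, 724, 256, 141, 88⟩, 790, 256, 80, 53, [h5, h0 5902], 0, ca5_118, 0, 0⟩)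
  (.lf ⟨⟨2897, 256, 80, 789, 256, 131, 82⟩, 862, 256, 75, 46, [h5, h0 5876], 0, ca5_119, 0, 0⟩))
  (.lf ⟨⟨4096, 256, 55, 861, 256, 120, 76⟩, 1024, 256, 64, 35, [h5, h0 5826], 0, ca5_120, 0, 0⟩))
  (.lf ⟨⟨0, 0, 0, 1024, 256, 102, 65⟩, 0, 0, 0, 0, [h5, h0 5682], 0, ca5_121, 0, 0⟩)))))

noncomputable def a20_13 : T5 :=
  (.nd 2 99 (.nd 2 59 (.lf ⟨⟨386, 256, 942, 256, 256, 351, 200⟩, 315, 256, 171, 194, [h5, h0 7456], 0, ca5_122, 0, 0⟩)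
  (.nd 2 93 (.nd 2 76 (.lf ⟨⟨434, 256, 771, 314, 256, 296, 173⟩, 334, 256, 164, 180, [h5, h0 7196], 0, ca5_123, 0, 0⟩)
  (.lf ⟨⟨488, 256, 643, 333, 256, 282, 165⟩, 354, 256, 156, 167, [h5, h0 6942], 0, ca5_124, 0, 0⟩))
  (.lf ⟨⟨509, 256, 605, 353, 256, 268, 158⟩, 361, 256, 154, 163, [h5, h0 6886], 0, ca5_125, 0, 0⟩)))
  (.nd 2 159 (.nd 2 129 (.nd 2 114 (.lf ⟨⟨565, 256, 522, 360, 256, 264, 155⟩, 381, 256, 148, 152, [h5, h0 6706], 0, ca5_126, 0, 0⟩)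
  (.lf ⟨⟨626, 256, 455, 380, 256, 252, 149⟩, 401, 256, 142, 142, [h5, h0 6576], 0, ca5_126, 0, 0⟩))
  (.nd 2 144 (.lf ⟨⟨695, 256, 397, 400, 256, 241, 143⟩, 422, 256, 136, 133, [h5, h0 6464], 0, ca5_127, 0, 0⟩)
  (.lf ⟨⟨771, 256, 349, 421, 256, 230, 138⟩, 445, 256, 131, 123, [h5, h0 6370], 0, ca5_128, 0, 0⟩)))
  (.nd 2 200 (.lf ⟨⟨1024, 256, 249, 444, 256, 220, 132⟩, 512, 256, 116, 101, [h5, h0 6146], 0, ca5_129, 0, 0⟩)
  (.nd 2 300 (.lf ⟨⟨2048, 256, 115, 512, 256, 194, 117⟩, 725, 256, 87, 61, [h5, h0 5850], 0, ca5_130, 0, 0⟩)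
  (.lf ⟨⟨0, 0, 0, 724, 256, 141, 88⟩, 0, 0, 0, 0, [h5, h0 5604], 0, ca5_131, 0, 0⟩)))))

theorem sa20 : SA cs20.st (bxL 755 763) :=
  sa_nd 100 (sa_rc 1 2 0 1 48450224 2553 a20_0 (by decide +kernel)) <|
  sa_nd 200 (sa_rc 2 4 0 1 25963832 2463 a20_1 (by decide +kernel)) <|
  sa_nd 300 (sa_rc 4 8 0 1 19406007 2421 a20_2 (by decide +kernel)) <|
  sa_nd 382 (sa_rc 8 14 1 2 1232065176307936 5013 a20_3 (by decide +kernel)) <|
  sa_nd 482 (sa_rc 15 28 0 1 5496188 2239 a20_4 (by decide +kernel)) <|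
  sa_nd 582 (sa_rc 29 56 1 2 387180601225417 4846 a20_5 (by decide +kernel)) <|
  sa_nd 682 (sa_rc 57 112 1 1 126100608 2691 a20_6 (by decide +kernel)) <|
  sa_nd 782 (sa_rc 113 225 1 1 127860907 2693 a20_7 (by decide +kernel)) <|
  sa_nd 882 (sa_rc 226 451 1 1 127860907 2693 a20_8 (by decide +kernel)) <|
  sa_nd 982 (sa_rc 452 903 1 1 126100608 2691 a20_9 (by decide +kernel)) <|
  sa_nd 1082 (sa_rc 904 1807 1 1 120963789 2685 a20_10 (by decide +kernel)) <|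
  sa_nd 1182 (sa_rc 1808 3615 1 1 111309385 2673 a20_11 (by decide +kernel)) <|
  sa_nd 1232 (sa_rc 3616 5113 2 1 362703572709 3840 a20_12 (by decide +kernel)) <|
  sa_no a20_13 (by decide +kernel)

noncomputable def a21_0 : T5 :=
  (.nd 2 2475 .lw
  (.lf ⟨⟨0, 0, 0, 5311, 1, 1, 1⟩, 0, 0, 0, 0, [h5, h0 5884, f10], 26, ca5_0, 0, 0⟩))

noncomputable def a21_1 : T5 :=
  (.nd 2 2275 .lw
  (.lf ⟨⟨0, 0, 0, 42494, 16, 1, 1⟩, 0, 0, 0, 0, [h5, h0 5884, f10], 26, ca5_132, 0, 0⟩))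

noncomputable def a21_2 : T5 :=
  (.nd 2 2141 .lw
  (.lf ⟨⟨0, 0, 0, 26708, 16, 1, 1⟩, 0, 0, 0, 0, [h5, h0 5884, f8], 26, ca5_1, 0, 0⟩))

noncomputable def a21_3 : T5 :=
  (.nd 2 1971 .lw
  (.lf ⟨⟨0, 0, 0, 14817, 16, 1, 1⟩, 0, 0, 0, 0, [h5, h0 5884, f11], 26, ca5_133, 0, 0⟩))

noncomputable def a21_4 : T5 :=
  (.nd 2 1770 .lw
  (.lf ⟨⟨0, 0, 0, 7383, 16, 1, 1⟩, 0, 0, 0, 0, [h5, h0 5884, f7], 24, ca5_84, 0, 0⟩))

noncomputable def a21_5 : T5 :=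
  (.nd 2 1569 .lw
  (.nd 2 1830 (.nd 2 1699 (.nd 2 1634 (.lf ⟨⟨0, 0, 0, 3678, 16, 2, 2⟩, 0, 0, 0, 0, [h5, h0 5882], 11, ca5_134, 0, 0⟩)
  (.lf ⟨⟨0, 0, 0, 4608, 16, 2, 2⟩, 0, 0, 0, 0, [h5, h0 5882, f6], 12, ca5_13, 0, 0⟩))
  (.lf ⟨⟨0, 0, 0, 5772, 16, 2, 1⟩, 0, 0, 0, 0, [h5, h0 5882, f6], 12, ca5_13, 0, 0⟩))
  (.lf ⟨⟨0, 0, 0, 9089, 16, 1, 1⟩, 0, 0, 0, 0, [h5, h0 5884, f6], 0, ca5_6, 0, 0⟩)))

noncomputable def a21_6 : T5 :=
  (.nd 2 1346 .lw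
  (.nd 2 1570 (.nd 2 1458 (.nd 2 1402 (.nd 2 1374 (.lf ⟨⟨0, 0, 0, 1698, 16, 5, 3⟩, 29945, 256, 2, 0, [h5, h0 5876], 22, ca5_87, 0, 0⟩)
  (.nd 2 1388 (.lf ⟨⟨0, 0, 0, 1871, 16, 4, 3⟩, 31434, 256, 2, 0, [h5, h0 5878], 22, ca5_88, 0, 0⟩)
  (.lf ⟨⟨0, 0, 0, 1964, 16, 4, 3⟩, 32996, 256, 2, 0, [h5, h0 5878], 17, ca5_89, 0, 0⟩)))
  (.lf ⟨⟨0, 0, 0, 2062, 16, 4, 3⟩, 40064, 256, 1, 0, [h5, h0 5878], 17, ca5_89, 0, 0⟩))
  (.lf ⟨⟨0, 0, 0, 2503, 16, 3, 2⟩, 59065, 256, 1, 0, [h5, h0 5880], 17, ca5_14, 0, 0⟩))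
  (.lf ⟨⟨0, 0, 0, 3691, 16, 2, 2⟩, 0, 0, 0, 0, [h5, h0 5882, f6], 0, ca5_135, 0, 0⟩)))

noncomputable def a21_7 : T5 :=
  (.nd 2 1148 .lw
  (.nd 2 1339 (.nd 2 1243 (.nd 2 1195 (.lf ⟨⟨0, 0, 0, 13682, 256, 9, 6⟩, 16103, 256, 4, 0, [h5, h0 5868], 22, ca5_136, 0, 0⟩)
  (.lf ⟨⟨0, 0, 0, 16102, 256, 7, 5⟩, 19017, 256, 3, 0, [h5, h0 5872], 17, ca5_136, 0, 0⟩))
  (.lf ⟨⟨0, 0, 0, 1188, 16, 6, 4⟩, 26524, 256, 2, 0, [h5, h0 5874], 17, ca5_137, 0, 0⟩))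
  (.lf ⟨⟨0, 0, 0, 1657, 16, 5, 3⟩, 0, 0, 0, 0, [h5, h0 5876], 17, ca5_90, 0, 0⟩)))

noncomputable def a21_8 : T5 :=
  (.nd 2 948 .lw
  (.nd 2 1106 (.nd 2 1027 (.nd 2 987 (.lf ⟨⟨0, 0, 0, 6841, 256, 17, 11⟩, 7832, 256, 9, 0, [h5, h0 5852], 22, ca5_24, 0, 0⟩)
  (.lf ⟨⟨0, 0, 0, 7831, 256, 15, 10⟩, 8996, 256, 8, 0, [h5, h0 5856], 17, ca5_25, 0, 0⟩))
  (.lf ⟨⟨0, 0, 0, 8995, 256, 13, 9⟩, 11829, 256, 6, 0, [h5, h0 5860], 17, ca5_91, 0, 0⟩))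
  (.lf ⟨⟨0, 0, 0, 11828, 256, 10, 7⟩, 0, 0, 0, 0, [h5, h0 5866], 17, ca5_138, 0, 0⟩)))

noncomputable def a21_9 : T5 :=
  (.nd 2 746 .lw
  (.nd 2 801 (.nd 2 773 (.lf ⟨⟨54351, 256, 4, 3396, 256, 33, 21⟩, 3731, 256, 19, 3, [h5, h0 5834], 22, ca5_139, 0, 0⟩)
  (.nd 2 787 (.lf ⟨⟨59889, 256, 3, 3730, 256, 30, 20⟩, 3916, 256, 18, 3, [h5, h0 5838], 17, ca5_28, 0, 0⟩)
  (.lf ⟨⟨65992, 256, 3, 3915, 256, 28, 19⟩, 4111, 256, 17, 2, [h5, h0 5840], 17, ca5_29, 0, 0⟩)))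
  (.nd 2 934 (.nd 2 867 (.nd 2 834 (.lf ⟨⟨82953, 256, 2, 4110, 256, 27, 18⟩, 4609, 256, 15, 2, [h5, h0 5840], 17, ca5_29, 0, 0⟩)
  (.lf ⟨⟨104273, 256, 2, 4608, 256, 24, 16⟩, 5167, 256, 13, 1, [h5, h0 5844], 17, ca5_140, 0, 0⟩))
  (.lf ⟨⟨165906, 256, 1, 5166, 256, 22, 14⟩, 6518, 256, 11, 1, [h5, h0 5846], 17, ca5_141, 0, 0⟩))
  (.lf ⟨⟨0, 0, 0, 6517, 256, 17, 12⟩, 0, 0, 0, 0, [h5, h0 5852], 17, ca5_25, 0, 0⟩))))

noncomputable def a21_10 : T5 :=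
  (.nd 2 540 .lw
  (.nd 2 600 (.nd 2 570 (.lf ⟨⟨13308, 256, 16, 1663, 256, 65, 42⟩, 1846, 256, 37, 12, [h5, h0 5812], 22, ca5_142, 0, 0⟩)
  (.nd 2 585 (.nd 2 577 (.lf ⟨⟨13970, 256, 16, 1845, 256, 59, 38⟩, 1892, 256, 36, 12, [h5, h0 5824], 17, ca5_95, 0, 0⟩)
  (.lf ⟨⟨14767, 256, 15, 1891, 256, 57, 37⟩, 1945, 256, 35, 11, [h5, h0 5824], 17, ca5_95, 0, 0⟩))
  (.nd 2 592 (.lf ⟨⟨15501, 256, 14, 1944, 256, 56, 36⟩, 1992, 256, 34, 11, [h5, h0 5824], 17, ca5_95, 0, 0⟩)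
  (.lf ⟨⟨16384, 256, 13, 1991, 256, 54, 35⟩, 2048, 256, 33, 10, [h5, h0 5824], 17, ca5_95, 0, 0⟩))))
  (.nd 2 700 (.nd 2 650 (.nd 2 625 (.nd 2 612 (.lf ⟨⟨17806, 256, 12, 2048, 256, 53, 34⟩, 2135, 256, 32, 9, [h5, h0 5822], 17, ca5_95, 0, 0⟩)
  (.lf ⟨⟨19484, 256, 11, 2134, 256, 51, 33⟩, 2234, 256, 31, 9, [h5, h0 5824], 17, ca5_95, 0, 0⟩))
  (.nd 2 637 (.lf ⟨⟨21174, 256, 10, 2233, 256, 49, 32⟩, 2329, 256, 30, 8, [h5, h0 5824], 17, ca5_37, 0, 0⟩)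
  (.lf ⟨⟨23171, 256, 9, 2328, 256, 47, 31⟩, 2436, 256, 28, 7, [h5, h0 5824], 17, ca5_37, 0, 0⟩)))
  (.nd 2 675 (.lf ⟨⟨27555, 256, 8, 2435, 256, 45, 29⟩, 2656, 256, 26, 6, [h5, h0 5824], 17, ca5_96, 0, 0⟩)
  (.lf ⟨⟨32768, 256, 6, 2655, 256, 41, 27⟩, 2897, 256, 24, 5, [h5, h0 5826], 17, ca5_143, 0, 0⟩)))
  (.nd 2 801 (.nd 2 750 (.lf ⟨⟨46341, 256, 4, 2896, 256, 38, 25⟩, 3445, 256, 20, 4, [h5, h0 5826], 17, ca5_143, 0, 0⟩)
  (.lf ⟨⟨65992, 256, 3, 3444, 256, 32, 21⟩, 4111, 256, 17, 2, [h5, h0 5832], 0, ca5_144, 0, 0⟩))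
  (.lf ⟨⟨0, 0, 0, 4110, 256, 27, 18⟩, 0, 0, 0, 0, [h5, h0 5832], 0, ca5_145, 0, 0⟩)))))

noncomputable def a21_11 : T5 :=
  (.nd 2 330 .lw
  (.nd 2 400 (.nd 2 365 (.lf ⟨⟨3214, 256, 71, 803, 256, 129, 80⟩, 908, 256, 71, 42, [h5, h0 5854], 22, ca5_146, 0, 0⟩)
  (.lf ⟨⟨4096, 256, 55, 907, 256, 115, 72⟩, 1024, 256, 64, 35, [h5, h0 5836], 17, ca5_147, 0, 0⟩))
  (.nd 2 500 (.nd 2 450 (.nd 2 425 (.lf ⟨⟨4871, 256, 46, 1024, 256, 102, 65⟩, 1117, 256, 59, 30, [h5, h0 5834], 17, ca5_148, 0, 0⟩)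
  (.lf ⟨⟨5793, 256, 39, 1116, 256, 94, 60⟩, 1218, 256, 55, 26, [h5, h0 5828], 17, ca5_103, 0, 0⟩))
  (.nd 2 475 (.lf ⟨⟨6889, 256, 32, 1217, 256, 87, 56⟩, 1328, 256, 50, 22, [h5, h0 5820], 17, ca5_149, 0, 0⟩)
  (.lf ⟨⟨8192, 256, 27, 1327, 256, 80, 51⟩, 1449, 256, 46, 19, [h5, h0 5818], 17, ca5_150, 0, 0⟩)))
  (.nd 2 600 (.nd 2 550 (.nd 2 525 (.lf ⟨⟨9742, 256, 23, 1448, 256, 74, 47⟩, 1580, 256, 43, 16, [h5, h0 5816], 17, ca5_151, 0, 0⟩)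
  (.nd 2 537 (.lf ⟨⟨10587, 256, 21, 1579, 256, 68, 44⟩, 1647, 256, 41, 15, [h5, h0 5822], 17, ca5_151, 0, 0⟩)
  (.lf ⟨⟨11586, 256, 19, 1646, 256, 65, 42⟩, 1723, 256, 39, 14, [h5, h0 5822], 0, ca5_152, 0, 0⟩)))
  (.lf ⟨⟨16384, 256, 13, 1722, 256, 63, 40⟩, 2048, 256, 33, 10, [h5, h0 5806], 0, ca5_153, 0, 0⟩))
  (.lf ⟨⟨0, 0, 0, 2048, 256, 53, 34⟩, 0, 0, 0, 0, [h5, h0 5780], 0, ca5_154, 0, 0⟩)))))

noncomputable def a21_12 : T5 :=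
  (.nd 2 173 .lw
  (.nd 2 200 (.lf ⟨⟨1024, 256, 249, 466, 256, 211, 127⟩, 512, 256, 116, 101, [h5, h0 6164], 17, ca5_155, 0, 0⟩)
  (.nd 2 300 (.nd 2 250 (.nd 2 225 (.lf ⟨⟨1218, 256, 204, 512, 256, 194, 117⟩, 559, 256, 108, 89, [h5, h0 6084], 12, ca5_156, 0, 0⟩)
  (.nd 2 237 (.lf ⟨⟨1324, 256, 185, 558, 256, 179, 109⟩, 583, 256, 105, 84, [h5, h0 6066], 12, ca5_157, 0, 0⟩)
  (.nd 2 243 (.lf ⟨⟨1380, 256, 177, 582, 256, 173, 106⟩, 595, 256, 103, 82, [h5, h0 6058], 12, ca5_112, 0, 0⟩)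
  (.lf ⟨⟨1449, 256, 168, 594, 256, 169, 104⟩, 609, 256, 101, 79, [h5, h0 6042], 12, ca5_68, 0, 0⟩))))
  (.nd 2 275 (.nd 2 262 (.lf ⟨⟨1574, 256, 153, 608, 256, 166, 102⟩, 635, 256, 97, 74, [h5, h0 6008], 12, ca5_114, 0, 0⟩)
  (.lf ⟨⟨1723, 256, 139, 634, 256, 160, 98⟩, 664, 256, 94, 69, [h5, h0 5982], 12, ca5_115, 0, 0⟩))
  (.nd 2 287 (.lf ⟨⟨1872, 256, 127, 663, 256, 153, 95⟩, 693, 256, 90, 65, [h5, h0 5964], 12, ca5_158, 0, 0⟩)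
  (.nd 2 293 (.lf ⟨⟨1952, 256, 121, 692, 256, 147, 91⟩, 707, 256, 89, 63, [h5, h0 5960], 12, ca5_159, 0, 0⟩)
  (.lf ⟨⟨2048, 256, 115, 706, 256, 145, 90⟩, 725, 256, 87, 61, [h5, h0 5948], 12, ca5_159, 0, 0⟩)))))
  (.nd 2 400 (.nd 2 350 (.nd 2 325 (.nd 2 312 (.lf ⟨⟨2226, 256, 105, 724, 256, 141, 88⟩, 755, 256, 84, 57, [h5, h0 5928], 12, ca5_159, 0, 0⟩)
  (.lf ⟨⟨2436, 256, 96, 754, 256, 136, 85⟩, 790, 256, 80, 53, [h5, h0 5912], 12, ca5_159, 0, 0⟩))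
  (.lf ⟨⟨2897, 256, 80, 789, 256, 131, 82⟩, 862, 256, 75, 46, [h5, h0 5876], 0, ca5_160, 0, 0⟩))
  (.lf ⟨⟨4096, 256, 55, 861, 256, 120, 76⟩, 1024, 256, 64, 35, [h5, h0 5826], 0, ca5_161, 0, 0⟩))
  (.lf ⟨⟨0, 0, 0, 1024, 256, 102, 65⟩, 0, 0, 0, 0, [h5, h0 5682], 0, ca5_162, 0, 0⟩)))))

noncomputable def a21_13 : T5 :=
  (.nd 2 99 (.nd 2 59 (.lf ⟨⟨386, 256, 942, 256, 256, 351, 200⟩, 315, 256, 171, 194, [h5, h0 7456], 17, ca5_163, 0, 0⟩)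
  (.lf ⟨⟨509, 256, 605, 314, 256, 296, 173⟩, 361, 256, 154, 163, [h5, h0 6830], 12, ca5_164, 0, 0⟩))
  (.nd 2 159 (.nd 2 129 (.nd 2 114 (.lf ⟨⟨565, 256, 522, 360, 256, 264, 155⟩, 381, 256, 148, 152, [h5, h0 6706], 12, ca5_126, 0, 0⟩)
  (.nd 2 121 (.lf ⟨⟨593, 256, 489, 380, 256, 252, 149⟩, 390, 256, 145, 147, [h5, h0 6654], 12, ca5_165, 0, 0⟩)
  (.lf ⟨⟨626, 256, 455, 389, 256, 247, 146⟩, 401, 256, 142, 142, [h5, h0 6586], 12, ca5_166, 0, 0⟩)))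
  (.nd 2 144 (.nd 2 136 (.lf ⟨⟨658, 256, 426, 400, 256, 241, 143⟩, 411, 256, 139, 137, [h5, h0 6530], 0, ca5_167, 0, 0⟩)
  (.lf ⟨⟨695, 256, 397, 410, 256, 236, 140⟩, 422, 256, 136, 133, [h5, h0 6474], 0, ca5_168, 0, 0⟩))
  (.lf ⟨⟨771, 256, 349, 421, 256, 230, 138⟩, 445, 256, 131, 123, [h5, h0 6370], 0, ca5_169, 0, 0⟩)))
  (.nd 2 200 (.lf ⟨⟨1024, 256, 249, 444, 256, 220, 132⟩, 512, 256, 116, 101, [h5, h0 6146], 0, ca5_170, 0, 0⟩)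
  (.nd 2 300 (.nd 2 250 (.lf ⟨⟨1449, 256, 168, 512, 256, 194, 117⟩, 609, 256, 101, 79, [h5, h0 5992], 0, ca5_171, 0, 0⟩)
  (.lf ⟨⟨2048, 256, 115, 608, 256, 166, 102⟩, 725, 256, 87, 61, [h5, h0 5906], 0, ca5_172, 0, 0⟩))
  (.lf ⟨⟨0, 0, 0, 724, 256, 141, 88⟩, 0, 0, 0, 0, [h5, h0 5604], 0, ca5_173, 0, 0⟩)))))

noncomputable def a21_14 : T5 :=
  (.nd 2 99 (.nd 2 59 (.lf ⟨⟨386, 256, 942, 256, 256, 351, 200⟩, 315, 256, 171, 194, [h5, h0 7456], 0, ca5_174, 0, 0⟩)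
  (.lf ⟨⟨509, 256, 605, 314, 256, 296, 173⟩, 361, 256, 154, 163, [h5, h0 6830], 0, ca5_175, 0, 0⟩))
  (.nd 2 159 (.lf ⟨⟨771, 256, 349, 360, 256, 264, 155⟩, 445, 256, 131, 123, [h5, h0 6302], 0, ca5_176, 0, 0⟩)
  (.nd 2 200 (.lf ⟨⟨1024, 256, 249, 444, 256, 220, 132⟩, 512, 256, 116, 101, [h5, h0 6146], 0, ca5_177, 0, 0⟩)
  (.nd 2 300 (.lf ⟨⟨2048, 256, 115, 512, 256, 194, 117⟩, 725, 256, 87, 61, [h5, h0 5850], 0, ca5_178, 0, 0⟩)
  (.lf ⟨⟨0, 0, 0, 724, 256, 141, 88⟩, 0, 0, 0, 0, [h5, h0 5604], 0, ca5_179, 0, 0⟩)))))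

theorem sa21 : SA cs21.st (bxL 762 770) :=
  sa_nd 100 (sa_rc 1 2 0 1 56824116 2576 a21_0 (by decide +kernel)) <|
  sa_nd 200 (sa_rc 2 4 0 1 28412058 2476 a21_1 (by decide +kernel)) <|
  sa_nd 300 (sa_rc 4 8 0 1 22446699 2442 a21_2 (by decide +kernel)) <|
  sa_nd 385 (sa_rc 8 14 0 1 12453086 2357 a21_3 (by decide +kernel)) <|
  sa_nd 485 (sa_rc 15 28 0 1 6183533 2256 a21_4 (by decide +kernel)) <|
  sa_nd 585 (sa_rc 29 57 1 2 543773811376194 4895 a21_5 (by decide +kernel)) <|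
  sa_nd 685 (sa_rc 58 115 1 1 151002793 2717 a21_6 (by decide +kernel)) <|
  sa_nd 785 (sa_rc 116 230 1 1 153110714 2719 a21_7 (by decide +kernel)) <|
  sa_nd 885 (sa_rc 231 461 1 1 153110714 2719 a21_8 (by decide +kernel)) <|
  sa_nd 985 (sa_rc 462 922 1 1 151002793 2717 a21_9 (by decide +kernel)) <|
  sa_nd 1085 (sa_rc 923 1845 1 1 144851561 2711 a21_10 (by decide +kernel)) <|
  sa_nd 1185 (sa_rc 1846 3691 1 1 135151286 2701 a21_11 (by decide +kernel)) <|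
  sa_nd 1235 (sa_rc 3692 5220 2 1 475284369234 3879 a21_12 (by decide +kernel)) <|
  sa_nd 1285 (sa_rc 5221 7383 2 1 345525205389 3833 a21_13 (by decide +kernel)) <|
  sa_no a21_14 (by decide +kernel)

end Pool.Agent.MP_2339ce_nt.Q2.TB.RT
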