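import Pool.Agent.MP_2339ce_nt.Q2.RTc
import Pool.Agent.MP_2339ce_nt.Q2.RS

/-! Project Q2, block RT: staircases. -/

set_option autoImplicit false

noncomputable section

namespace Pool.Agent.MP_2339ce_nt.Q2.TB.RT

noncomputable def ca6_0 : List VW := k1 v1 (k1 v144 (k1 v418 (k1 v433 (k1 v160 (k1 v167 (k1 v586 (k0)))))))
noncomputable def ca6_1 : List VW := k1 v1 (k1 v144 (k1 v418 (k1 v434 (k1 v160 (k1 v167 (k1 v586 (k0)))))))
noncomputable def ca6_2 : List VW := k8 v1 v144 v418 v149 v155 v160 v167 v586 (k0)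
noncomputable def ca6_3 : List VW := k8 v416 v144 v417 v418 v149 v426 v160 v441 (k8 v167 v452 v174 v464 v180 v469 v186 v476 (k8 v190 v480 v195 v485 v199 v488 v202 v493 (k8 v205 v496 v207 v502 v508 v214 v511 v516 (k8 v220 v518 v223 v226 v229 v230 v232 v233 (k8 v235 v237 v240 v241 v244 v245 v248 v249 (k8 v251 v252 v254 v255 v256 v257 v259 v260 (k1 v261 (k1 v604 (k0)))))))))
noncomputable def ca6_4 : List VW := k8 v1 v144 v418 v149 v152 v162 v167 v586 (k0)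
noncomputable def ca6_5 : List VW := k1 v1 (k1 v144 (k1 v0 (k1 v149 (k1 v163 (k1 v167 (k1 v586 (k0)))))))
noncomputable def ca6_6 : List VW := k8 v1 v144 v418 v149 v152 v163 v441 v586 (k0)
noncomputable def ca6_7 : List VW := k8 v1 v144 v417 v421 v149 v433 v426 v160 (k8 v443 v167 v452 v174 v464 v180 v469 v186 (k8 v476 v190 v480 v195 v485 v199 v488 v202 (k8 v493 v205 v496 v207 v502 v211 v505 v513 (k8 v218 v514 v519 v224 v226 v229 v230 v232 (k8 v233 v235 v237 v240 v241 v244 v245 v248 (k8 v249 v251 v252 v254 v255 v256 v257 v259 (k1 v603 (k0))))))))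
noncomputable def ca6_8 : List VW := k8 v1 v144 v418 v149 v153 v163 v441 v586 (k0)
noncomputable def ca6_9 : List VW := k8 v1 v144 v418 v149 v152 v160 v167 v586 (k0)
noncomputable def ca6_10 : List VW := k8 v1 v144 v417 v422 v149 v433 v426 v160 (k8 v443 v169 v453 v174 v464 v180 v470 v186 (k8 v476 v190 v480 v195 v485 v199 v488 v202 (k8 v493 v205 v496 v207 v502 v211 v505 v513 (k8 v218 v514 v519 v224 v226 v229 v230 v232 (k8 v233 v235 v237 v240 v241 v244 v245 v247 (k1 v249 (k1 v251 (k1 v252 (k1 v254 (k1 v255 (k1 v256 (k1 v602 (k0)))))))))))))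
noncomputable def ca6_11 : List VW := k8 v1 v144 v423 v418 v149 v433 v426 v160 (k8 v443 v167 v460 v452 v174 v464 v180 v470 (k8 v186 v476 v190 v480 v195 v485 v199 v488 (k8 v202 v493 v205 v496 v207 v502 v211 v505 (k8 v213 v511 v516 v220 v518 v223 v226 v229 (k8 v230 v232 v233 v235 v237 v240 v241 v244 (k8 v245 v247 v249 v251 v252 v254 v255 v256 (k1 v257 (k1 v259 (k1 v260 (k1 v261 (k1 v604 (k0))))))))))))
noncomputable def ca6_12 : List VW := k8 v1 v144 v423 v418 v149 v433 v426 v160 (k8 v443 v167 v460 v452 v174 v464 v180 v470 (k8 v186 v476 v190 v480 v195 v485 v199 v488 (k8 v202 v493 v205 v496 v207 v502 v211 v505 (k8 v213 v511 v516 v220 v518 v223 v226 v229 (k8 v230 v232 v233 v235 v237 v240 v241 v244 (k8 v245 v247 v249 v251 v252 v254 v255 v256 (k1 v257 (k1 v259 (k1 v603 (k0))))))))))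
noncomputable def ca6_13 : List VW := k8 v1 v144 v417 v421 v149 v433 v426 v160 (k8 v443 v167 v453 v174 v464 v180 v470 v186 (k8 v476 v190 v480 v195 v485 v199 v488 v202 (k8 v493 v205 v496 v207 v502 v211 v505 v513 (k8 v218 v514 v519 v224 v226 v229 v230 v232 (k8 v233 v235 v237 v239 v241 v244 v245 v247 (k1 v249 (k1 v251 (k1 v252 (k1 v254 (k1 v601 (k0)))))))))))
noncomputable def ca6_14 : List VW := k8 v1 v144 v418 v149 v154 v163 v441 v586 (k0)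
noncomputable def ca6_15 : List VW := k8 v1 v144 v423 v418 v149 v433 v426 v161 (k8 v444 v167 v460 v452 v174 v465 v180 v470 (k8 v186 v476 v190 v480 v195 v485 v199 v488 (k8 v202 v493 v205 v496 v207 v502 v211 v505 (k8 v213 v511 v516 v220 v518 v223 v226 v229 (k8 v230 v232 v233 v235 v237 v239 v241 v244 (k8 v245 v247 v249 v251 v252 v254 v255 v256 (k1 v602 (k0))))))))
noncomputable def ca6_16 : List VW := k8 v1 v144 v423 v418 v149 v433 v426 v161 (k8 v444 v167 v460 v452 v174 v465 v180 v470 (k8 v186 v476 v190 v480 v195 v485 v199 v488 (k8 v202 v493 v205 v496 v207 v502 v211 v505 (k8 v213 v511 v516 v220 v518 v223 v226 v229 (k8 v230 v232 v233 v235 v237 v240 v241 v244 (k8 v245 v247 v249 v251 v252 v254 v255 v256 (k1 v257 (k1 v259 (k1 v603 (k0))))))))))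
noncomputable def ca6_17 : List VW := k8 v1 v144 v423 v418 v149 v433 v426 v161 (k8 v444 v167 v460 v452 v174 v465 v180 v470 (k8 v186 v476 v190 v480 v195 v485 v199 v488 (k8 v202 v493 v205 v496 v207 v502 v211 v505 (k8 v213 v511 v516 v220 v518 v223 v226 v229 (k8 v230 v232 v233 v235 v237 v240 v241 v244 (k8 v245 v248 v249 v251 v252 v254 v255 v256 (k1 v257 (k1 v259 (k1 v260 (k1 v261 (k1 v604 (k0))))))))))))
noncomputable def ca6_18 : List VW := k8 v1 v144 v423 v418 v149 v433 v426 v161 (k8 v444 v167 v460 v452 v174 v465 v180 v470 (k8 v186 v476 v190 v480 v195 v485 v199 v488 (k8 v202 v493 v205 v496 v207 v502 v211 v505 (k8 v213 v511 v516 v220 v518 v223 v226 v229 (k8 v230 v232 v233 v235 v237 v239 v241 v244 (k8 v245 v247 v249 v251 v252 v254 v255 v256 (k1 v257 (k1 v259 (k1 v603 (k0))))))))))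
noncomputable def ca6_19 : List VW := k8 v1 v144 v417 v422 v149 v433 v426 v160 (k8 v443 v169 v453 v174 v464 v180 v470 v186 (k8 v476 v190 v480 v195 v485 v199 v488 v202 (k8 v493 v205 v496 v207 v502 v211 v505 v513 (k8 v218 v514 v519 v224 v226 v229 v230 v232 (k8 v233 v235 v237 v239 v241 v244 v245 v247 (k1 v249 (k1 v251 (k1 v600 (k0)))))))))
noncomputable def ca6_20 : List VW := k8 v1 v144 v423 v418 v149 v433 v426 v160 (k8 v436 v444 v167 v460 v452 v174 v465 v180 (k8 v470 v186 v476 v190 v481 v195 v485 v199 (k8 v488 v202 v493 v205 v496 v207 v502 v211 (k8 v505 v213 v511 v516 v220 v518 v223 v226 (k8 v229 v230 v232 v233 v235 v237 v239 v241 (k8 v244 v245 v247 v249 v251 v252 v254 v255 (k1 v256 (k1 v257 (k1 v259 (k1 v260 (k1 v261 (k1 v604 (k0)))))))))))))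
noncomputable def ca6_21 : List VW := k8 v1 v144 v423 v418 v149 v433 v426 v160 (k8 v446 v441 v167 v460 v452 v174 v465 v180 (k8 v470 v186 v476 v190 v481 v195 v485 v199 (k8 v488 v202 v493 v205 v496 v207 v502 v211 (k8 v505 v213 v511 v516 v220 v518 v223 v226 (k8 v229 v230 v232 v233 v235 v237 v239 v241 (k8 v244 v245 v247 v249 v251 v252 v254 v255 (k1 v256 (k1 v257 (k1 v259 (k1 v260 (k1 v261 (k1 v604 (k0)))))))))))))
noncomputable def ca6_22 : List VW := k8 v1 v144 v423 v418 v149 v433 v426 v160 (k8 v436 v443 v167 v460 v452 v174 v465 v180 (k8 v470 v186 v476 v190 v481 v195 v485 v199 (k8 v488 v202 v493 v205 v496 v207 v502 v211 (k8 v505 v213 v511 v516 v220 v518 v223 v226 (k8 v229 v230 v232 v233 v235 v237 v239 v241 (k8 v244 v245 v247 v249 v251 v252 v254 v255 (k1 v256 (k1 v257 (k1 v259 (k1 v603 (k0)))))))))))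
noncomputable def ca6_23 : List VW := k8 v1 v144 v274 v423 v418 v149 v433 v426 (k8 v160 v446 v441 v167 v460 v452 v174 v465 (k8 v180 v470 v186 v476 v190 v481 v195 v485 (k8 v199 v489 v202 v493 v205 v496 v207 v502 (k8 v211 v505 v213 v511 v516 v219 v518 v223 (k8 v226 v524 v228 v230 v528 v231 v233 v235 (k8 v237 v239 v241 v243 v245 v247 v249 v251 (k1 v252 (k1 v254 (k1 v255 (k1 v256 (k1 v257 (k1 v259 (k1 v603 (k0))))))))))))))
noncomputable def ca6_24 : List VW := k8 v1 v147 v423 v418 v149 v433 v426 v160 (k8 v446 v441 v167 v460 v452 v174 v465 v180 (k8 v470 v186 v476 v190 v481 v195 v485 v199 (k8 v489 v202 v493 v205 v496 v207 v502 v211 (k8 v505 v213 v511 v516 v219 v518 v223 v226 (k8 v524 v228 v230 v528 v231 v233 v235 v237 (k8 v239 v241 v243 v245 v247 v249 v251 v252 (k8 v254 v255 v256 v257 v259 v260 v261 v604 (k0))))))))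
noncomputable def ca6_25 : List VW := k8 v1 v147 v423 v418 v149 v433 v426 v160 (k8 v446 v441 v167 v460 v452 v174 v465 v180 (k8 v470 v186 v476 v190 v481 v195 v485 v199 (k8 v489 v202 v493 v205 v496 v207 v502 v211 (k8 v505 v213 v511 v516 v219 v518 v223 v226 (k8 v524 v228 v230 v232 v233 v235 v237 v239 (k8 v241 v243 v245 v247 v249 v251 v252 v254 (k1 v255 (k1 v256 (k1 v257 (k1 v259 (k1 v260 (k1 v261 (k1 v604 (k0))))))))))))))
noncomputable def ca6_26 : List VW := k8 v1 v147 v423 v418 v149 v433 v426 v160 (k8 v446 v441 v167 v460 v452 v174 v465 v180 (k8 v470 v186 v476 v190 v481 v195 v485 v199 (k8 v489 v202 v493 v205 v496 v207 v502 v211 (k8 v505 v213 v511 v516 v219 v518 v223 v226 (k8 v524 v228 v230 v232 v233 v235 v237 v239 (k8 v241 v243 v245 v247 v249 v251 v252 v254 (k1 v255 (k1 v256 (k1 v257 (k1 v259 (k1 v603 (k0))))))))))))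
noncomputable def ca6_27 : List VW := k8 v1 v144 v423 v418 v149 v433 v426 v160 (k8 v438 v444 v167 v460 v452 v174 v465 v180 (k8 v470 v186 v476 v190 v481 v195 v485 v199 (k8 v488 v202 v493 v205 v496 v207 v502 v211 (k8 v505 v213 v511 v516 v220 v518 v223 v226 (k8 v229 v230 v232 v233 v235 v237 v240 v241 (k8 v244 v245 v247 v249 v251 v252 v254 v255 (k1 v256 (k1 v257 (k1 v259 (k1 v260 (k1 v261 (k1 v604 (k0)))))))))))))
noncomputable def ca6_28 : List VW := k8 v1 v144 v275 v423 v279 v149 v433 v426 (k8 v160 v446 v441 v167 v460 v452 v178 v465 (k8 v182 v180 v470 v186 v476 v190 v481 v195 (k8 v485 v199 v489 v202 v493 v205 v497 v207 (k8 v502 v211 v505 v213 v511 v516 v219 v518 (k8 v223 v226 v524 v228 v230 v528 v231 v233 (k8 v531 v235 v237 v536 v239 v241 v541 v243 (k8 v245 v544 v545 v546 v547 v549 v255 v256 (k1 v602 (k0)))))))))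
noncomputable def ca6_29 : List VW := k8 v1 v144 v275 v423 v279 v149 v433 v426 (k8 v160 v446 v441 v167 v460 v452 v174 v467 (k8 v464 v180 v473 v185 v186 v478 v476 v190 (k8 v481 v195 v485 v199 v489 v202 v493 v205 (k8 v497 v207 v502 v211 v505 v213 v511 v516 (k8 v219 v518 v223 v226 v524 v228 v230 v528 (k8 v231 v233 v531 v235 v237 v536 v239 v241 (k8 v541 v243 v245 v544 v545 v546 v547 v549 (k1 v550 (k1 v553 (k1 v258 (k1 v259 (k1 v260 (k1 v261 (k1 v604 (k0)))))))))))))))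
noncomputable def ca6_30 : List VW := k8 v1 v144 v275 v423 v279 v149 v433 v426 (k8 v160 v446 v441 v167 v460 v452 v174 v467 (k8 v464 v180 v473 v470 v186 v478 v476 v190 (k8 v481 v195 v485 v199 v489 v202 v493 v205 (k8 v497 v207 v502 v211 v505 v213 v511 v516 (k8 v219 v518 v223 v226 v524 v228 v230 v528 (k8 v231 v233 v531 v235 v237 v536 v239 v241 (k8 v541 v243 v245 v247 v249 v251 v252 v254 (k1 v255 (k1 v256 (k1 v257 (k1 v259 (k1 v260 (k1 v261 (k1 v604 (k0)))))))))))))))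
noncomputable def ca6_31 : List VW := k8 v1 v144 v274 v423 v279 v149 v433 v426 (k8 v160 v446 v441 v167 v460 v452 v174 v467 (k8 v464 v180 v473 v470 v186 v478 v476 v190 (k8 v481 v195 v485 v199 v489 v202 v493 v205 (k8 v497 v207 v502 v211 v505 v213 v511 v516 (k8 v219 v518 v223 v226 v524 v228 v230 v528 (k8 v231 v233 v531 v235 v237 v536 v239 v241 (k8 v541 v243 v245 v247 v249 v251 v252 v254 (k1 v255 (k1 v256 (k1 v257 (k1 v259 (k1 v260 (k1 v261 (k1 v604 (k0)))))))))))))))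
noncomputable def ca6_32 : List VW := k8 v1 v144 v274 v423 v279 v149 v433 v426 (k8 v160 v446 v441 v167 v460 v452 v174 v467 (k8 v464 v180 v470 v186 v478 v476 v190 v481 (k8 v195 v485 v199 v489 v202 v493 v205 v497 (k8 v207 v502 v211 v505 v213 v511 v516 v219 (k8 v518 v223 v226 v524 v228 v230 v528 v231 (k8 v233 v531 v235 v237 v536 v239 v241 v541 (k8 v243 v245 v247 v249 v251 v252 v254 v255 (k1 v256 (k1 v257 (k1 v259 (k1 v260 (k1 v261 (k1 v604 (k0))))))))))))))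
noncomputable def ca6_33 : List VW := k8 v1 v144 v274 v423 v287 v149 v433 v426 (k8 v160 v446 v441 v167 v460 v452 v174 v467 (k8 v464 v180 v470 v186 v478 v476 v190 v481 (k8 v195 v485 v199 v489 v202 v493 v205 v497 (k8 v207 v502 v211 v505 v213 v511 v516 v219 (k8 v518 v223 v226 v524 v228 v230 v528 v231 (k8 v233 v531 v235 v237 v536 v239 v241 v243 (k8 v245 v247 v249 v251 v252 v254 v255 v256 (k1 v257 (k1 v259 (k1 v260 (k1 v261 (k1 v604 (k0)))))))))))))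
noncomputable def ca6_34 : List VW := k8 v1 v144 v274 v423 v418 v149 v433 v426 (k8 v160 v446 v441 v167 v460 v452 v178 v465 (k8 v180 v470 v186 v478 v476 v190 v481 v195 (k8 v485 v199 v489 v202 v493 v205 v497 v207 (k8 v502 v211 v505 v213 v511 v516 v219 v518 (k8 v223 v226 v524 v228 v230 v528 v231 v233 (k8 v531 v235 v237 v239 v241 v243 v245 v247 (k8 v249 v251 v252 v254 v255 v256 v257 v259 (k1 v260 (k1 v261 (k1 v604 (k0)))))))))))
noncomputable def ca6_35 : List VW := k8 v1 v144 v274 v423 v418 v149 v433 v426 (k8 v160 v446 v441 v167 v460 v452 v178 v465 (k8 v180 v470 v186 v476 v190 v481 v195 v485 (k8 v199 v489 v202 v493 v205 v497 v207 v502 (k8 v211 v505 v213 v511 v516 v219 v518 v223 (k8 v226 v524 v228 v230 v528 v231 v233 v531 (k8 v235 v237 v239 v241 v243 v245 v247 v249 (k8 v251 v252 v254 v255 v256 v257 v259 v260 (k1 v261 (k1 v604 (k0))))))))))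
noncomputable def ca6_36 : List VW := k8 v1 v144 v274 v423 v418 v149 v433 v426 (k8 v160 v446 v441 v167 v460 v452 v174 v465 (k8 v180 v470 v186 v476 v190 v481 v195 v485 (k8 v199 v489 v202 v493 v205 v497 v207 v502 (k8 v211 v505 v213 v511 v516 v219 v518 v223 (k8 v226 v524 v228 v230 v528 v231 v233 v235 (k8 v237 v239 v241 v243 v245 v247 v249 v251 (k1 v252 (k1 v254 (k1 v255 (k1 v256 (k1 v257 (k1 v259 (k1 v603 (k0))))))))))))))
noncomputable def ca6_37 : List VW := k8 v1 v147 v423 v418 v149 v433 v426 v160 (k8 v436 v443 v167 v460 v452 v174 v465 v180 (k8 v470 v186 v476 v190 v481 v195 v485 v199 (k8 v489 v202 v493 v205 v496 v207 v502 v211 (k8 v214 v511 v217 v220 v518 v223 v225 v524 (k1 v228 (k1 v230 (k1 v231 (k1 v595 (k0)))))))))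
noncomputable def ca6_38 : List VW := k8 v277 v144 v275 v423 v0 v149 v433 v292 (k8 v157 v161 v446 v306 v167 v460 v562 v170 (k8 v174 v337 v464 v182 v473 v184 v186 v351 (k8 v67 v192 v483 v194 v195 v485 v199 v491 (k8 v79 v202 v493 v205 v86 v207 v502 v211 (k8 v94 v213 v511 v516 v219 v518 v223 v225 (k8 v524 v228 v230 v528 v231 v233 v531 v235 (k8 v237 v536 v239 v241 v541 v243 v245 v544 (k8 v247 v249 v546 v251 v252 v549 v254 v255 (k1 v553 (k1 v258 (k1 v556 (k1 v259 (k1 v260 (k1 v558 (k1 v604 (k0))))))))))))))))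
noncomputable def ca6_39 : List VW := k8 v276 v144 v275 v423 v0 v149 v433 v291 (k8 v157 v161 v446 v305 v167 v462 v562 v326 (k8 v42 v174 v336 v464 v182 v473 v343 v184 (k8 v186 v350 v476 v192 v481 v195 v485 v199 (k8 v489 v202 v493 v205 v86 v207 v502 v211 (k8 v94 v213 v511 v516 v219 v518 v223 v225 (k8 v524 v228 v230 v528 v231 v233 v531 v235 (k8 v237 v536 v239 v241 v541 v243 v245 v544 (k8 v545 v546 v547 v549 v255 v553 v257 v556 (k1 v603 (k0))))))))))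
noncomputable def ca6_40 : List VW := k8 v276 v144 v275 v423 v279 v149 v433 v291 (k8 v157 v160 v446 v305 v167 v460 v452 v174 (k8 v336 v464 v182 v345 v470 v186 v350 v476 (k8 v192 v481 v195 v485 v199 v489 v202 v493 (k8 v205 v86 v207 v502 v211 v94 v213 v511 (k8 v516 v219 v518 v223 v225 v524 v228 v230 (k8 v528 v231 v233 v531 v235 v237 v536 v239 (k8 v241 v541 v243 v245 v544 v545 v546 v547 (k8 v549 v255 v256 v257 v259 v260 v261 v604 (k0)))))))))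
noncomputable def ca6_41 : List VW := k8 v1 v144 v275 v423 v279 v149 v433 v291 (k8 v157 v160 v446 v305 v168 v460 v452 v174 (k8 v336 v464 v182 v345 v470 v186 v350 v476 (k8 v192 v481 v195 v485 v199 v489 v202 v493 (k8 v205 v497 v207 v502 v211 v506 v213 v511 (k8 v516 v219 v518 v223 v226 v524 v228 v230 (k8 v528 v231 v233 v531 v235 v237 v536 v239 (k8 v241 v541 v243 v245 v544 v545 v546 v547 (k8 v549 v255 v256 v257 v259 v260 v261 v604 (k0)))))))))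
noncomputable def ca6_42 : List VW := k8 v1 v144 v275 v423 v279 v149 v433 v426 (k8 v160 v446 v441 v167 v460 v452 v174 v336 (k8 v464 v182 v345 v470 v186 v350 v476 v192 (k8 v481 v195 v485 v199 v489 v202 v493 v205 (k8 v497 v207 v502 v211 v506 v213 v511 v516 (k8 v219 v518 v223 v226 v524 v228 v230 v528 (k8 v231 v233 v531 v235 v237 v536 v239 v241 (k8 v541 v243 v245 v544 v545 v546 v547 v549 (k1 v255 (k1 v256 (k1 v257 (k1 v259 (k1 v260 (k1 v261 (k1 v604 (k0)))))))))))))))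
noncomputable def ca6_43 : List VW := k8 v1 v144 v275 v423 v279 v149 v433 v426 (k8 v160 v446 v441 v167 v460 v452 v174 v467 (k8 v464 v182 v473 v470 v186 v478 v476 v190 (k8 v481 v195 v485 v199 v489 v202 v493 v205 (k8 v497 v207 v502 v211 v506 v213 v511 v516 (k8 v219 v518 v223 v226 v524 v228 v230 v528 (k8 v231 v233 v531 v235 v237 v536 v239 v241 (k8 v541 v243 v245 v544 v545 v546 v547 v549 (k1 v255 (k1 v256 (k1 v257 (k1 v259 (k1 v260 (k1 v261 (k1 v604 (k0)))))))))))))))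
noncomputable def ca6_44 : List VW := k8 v1 v144 v275 v423 v279 v149 v433 v426 (k8 v160 v446 v441 v167 v460 v452 v174 v467 (k8 v464 v182 v345 v470 v186 v478 v476 v190 (k8 v481 v195 v485 v199 v489 v202 v493 v205 (k8 v497 v207 v502 v211 v506 v213 v511 v516 (k8 v219 v518 v223 v226 v524 v228 v230 v528 (k8 v231 v233 v531 v235 v237 v536 v239 v241 (k8 v541 v243 v245 v544 v545 v546 v547 v549 (k1 v551 (k1 v553 (k1 v258 (k1 v259 (k1 v260 (k1 v261 (k1 v604 (k0)))))))))))))))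
noncomputable def ca6_45 : List VW := k8 v1 v144 v274 v423 v279 v149 v433 v426 (k8 v160 v446 v441 v167 v460 v452 v174 v465 (k8 v180 v470 v186 v476 v190 v481 v195 v485 (k8 v199 v489 v202 v493 v205 v497 v207 v502 (k8 v211 v214 v511 v217 v220 v518 v223 v225 (k8 v524 v228 v230 v528 v231 v233 v531 v532 (k1 v536 (k1 v597 (k0))))))))
noncomputable def ca6_46 : List VW := k8 v1 v144 v274 v423 v279 v149 v433 v426 (k8 v160 v446 v441 v167 v460 v452 v174 v465 (k8 v180 v470 v186 v476 v190 v481 v195 v485 (k8 v199 v489 v202 v493 v205 v497 v207 v502 (k8 v211 v214 v511 v217 v220 v518 v223 v225 (k8 v524 v228 v230 v528 v231 v233 v531 v596 (k0))))))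
noncomputable def ca6_47 : List VW := k8 v278 v147 v275 v286 v2 v429 v560 v22 (k8 v160 v323 v308 v264 v28 v332 v330 v42 (k8 v174 v339 v266 v52 v179 v346 v59 v186 (k8 v353 v267 v64 v359 v71 v195 v484 v73 (k8 v198 v79 v373 v270 v82 v85 v86 v207 (k8 v501 v387 v94 v213 v510 v216 v99 v391 (k8 v104 v106 v107 v523 v111 v230 v528 v114 (k8 v115 v116 v119 v120 v122 v125 v241 v126 (k8 v128 v129 v130 v132 v249 v134 v252 v136 (k1 v137 (k1 v139 (k1 v140 (k1 v583 (k0)))))))))))))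
noncomputable def ca6_48 : List VW := k8 v278 v147 v275 v285 v2 v429 v560 v22 (k8 v160 v322 v307 v264 v27 v456 v35 v42 (k8 v174 v338 v266 v51 v472 v59 v186 v352 (k8 v267 v63 v358 v71 v195 v484 v72 v198 (k8 v79 v202 v492 v81 v85 v86 v207 v501 (k8 v210 v94 v388 v95 v515 v219 v517 v222 (k8 v225 v523 v111 v230 v528 v114 v115 v116 (k8 v119 v120 v122 v125 v241 v126 v128 v129 (k8 v130 v132 v249 v134 v252 v136 v552 v257 (k1 v142 (k1 v260 (k1 v143 (k1 v262 (k1 v585 (k0))))))))))))))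
noncomputable def ca6_49 : List VW := k8 v278 v144 v275 v285 v2 v429 v560 v22 (k8 v160 v322 v307 v264 v27 v456 v35 v42 (k8 v174 v338 v266 v51 v472 v59 v186 v352 (k8 v267 v63 v358 v71 v195 v484 v72 v198 (k8 v79 v202 v492 v81 v204 v86 v207 v501 (k8 v210 v213 v510 v216 v219 v517 v222 v225 (k8 v523 v111 v230 v528 v114 v115 v116 v119 (k8 v120 v122 v125 v241 v126 v128 v129 v410 (k8 v132 v249 v134 v252 v136 v552 v257 v142 (k1 v260 (k1 v143 (k1 v604 (k0))))))))))))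
noncomputable def ca6_50 : List VW := k8 v278 v144 v275 v285 v2 v429 v560 v290 (k8 v160 v322 v307 v264 v27 v456 v35 v42 (k8 v174 v338 v266 v51 v472 v183 v186 v352 (k8 v267 v63 v482 v70 v195 v484 v198 v79 (k8 v202 v492 v81 v498 v207 v501 v210 v213 (k8 v510 v216 v219 v517 v222 v225 v523 v111 (k8 v230 v528 v114 v115 v401 v119 v120 v536 (k8 v125 v241 v126 v128 v129 v410 v132 v249 (k1 v134 (k1 v252 (k1 v136 (k1 v552 (k1 v257 (k1 v142 (k1 v603 (k0)))))))))))))))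
noncomputable def ca6_51 : List VW := k8 v278 v3 v424 v273 v280 v2 v429 v560 (k8 v290 v160 v322 v313 v264 v27 v456 v35 (k8 v42 v174 v338 v266 v51 v472 v183 v186 (k8 v352 v267 v63 v482 v70 v195 v484 v198 (k8 v79 v202 v492 v81 v498 v207 v501 v210 (k8 v213 v510 v216 v219 v517 v222 v225 v523 (k8 v111 v230 v528 v114 v115 v530 v119 v120 (k8 v536 v125 v241 v126 v128 v129 v544 v131 (k8 v249 v133 v134 v135 v548 v255 v139 v140 (k1 v555 (k1 v603 (k0)))))))))))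
noncomputable def ca6_52 : List VW := k8 v278 v3 v424 v273 v280 v2 v430 v293 (k8 v157 v160 v322 v446 v307 v167 v456 v35 (k8 v42 v174 v338 v182 v345 v183 v186 v352 (k8 v192 v69 v71 v195 v364 v200 v79 v202 (k8 v492 v378 v498 v207 v501 v210 v213 v510 (k8 v216 v219 v517 v222 v225 v523 v227 v230 (k8 v528 v114 v115 v530 v119 v121 v536 v125 (k8 v241 v409 v128 v245 v130 v132 v249 v546 (k1 v253 (k1 v136 (k1 v137 (k1 v552 (k1 v602 (k0)))))))))))))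
noncomputable def ca6_53 : List VW := k8 v278 v144 v275 v274 v280 v149 v433 v293 (k8 v157 v160 v322 v436 v446 v307 v167 v460 (k8 v329 v43 v174 v338 v182 v345 v183 v186 (k8 v352 v192 v69 v71 v195 v364 v200 v79 (k8 v202 v493 v378 v499 v207 v502 v211 v213 (k8 v511 v217 v219 v518 v223 v225 v524 v228 (k8 v230 v528 v114 v233 v116 v535 v237 v404 (k8 v539 v241 v541 v128 v245 v410 v132 v249 (k1 v546 (k1 v253 (k1 v136 (k1 v137 (k1 v553 (k1 v602 (k0))))))))))))))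
noncomputable def ca6_54 : List VW := k8 v278 v144 v275 v274 v280 v149 v433 v293 (k8 v157 v160 v322 v436 v446 v307 v167 v460 (k8 v35 v42 v174 v338 v182 v345 v183 v186 (k8 v352 v192 v69 v71 v195 v364 v200 v79 (k8 v202 v493 v205 v86 v207 v502 v211 v213 (k8 v511 v217 v219 v518 v223 v225 v524 v228 (k8 v230 v528 v114 v233 v401 v534 v237 v536 (k8 v125 v241 v541 v128 v245 v544 v132 v249 (k1 v546 (k1 v600 (k0))))))))))
noncomputable def ca6_55 : List VW := k8 v278 v144 v275 v274 v280 v149 v433 v293 (k8 v157 v161 v437 v446 v307 v167 v460 v329 (k8 v170 v174 v338 v182 v345 v183 v186 v352 (k8 v192 v69 v71 v195 v364 v200 v79 v202 (k8 v493 v205 v86 v207 v502 v211 v213 v511 (k8 v217 v219 v518 v223 v225 v524 v228 v230 (k8 v528 v114 v233 v401 v535 v237 v536 v125 (k8 v241 v541 v128 v245 v544 v132 v249 v546 (k1 v600 (k0)))))))))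
noncomputable def ca6_56 : List VW := k8 v278 v144 v275 v274 v280 v149 v433 v293 (k8 v157 v161 v437 v446 v307 v167 v460 v329 (k8 v170 v174 v338 v182 v345 v183 v186 v352 (k8 v192 v483 v71 v195 v364 v200 v79 v202 (k8 v493 v205 v86 v207 v502 v211 v213 v511 (k8 v217 v219 v518 v223 v225 v524 v228 v230 (k8 v528 v114 v233 v531 v119 v237 v536 v125 (k8 v241 v541 v128 v245 v544 v132 v249 v546 (k1 v600 (k0)))))))))
noncomputable def ca6_57 : List VW := k8 v277 v144 v275 v274 v279 v149 v433 v292 (k8 v157 v161 v436 v446 v306 v167 v460 v328 (k8 v170 v174 v337 v182 v345 v183 v186 v351 (k8 v192 v69 v357 v195 v364 v200 v79 v202 (k8 v493 v205 v86 v207 v502 v211 v213 v511 (k8 v217 v219 v518 v223 v225 v524 v228 v230 (k8 v528 v114 v233 v531 v119 v237 v536 v125 (k8 v241 v541 v128 v245 v544 v132 v249 v546 (k1 v600 (k0)))))))))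
noncomputable def ca6_58 : List VW := k8 v277 v144 v275 v274 v279 v149 v433 v292 (k8 v157 v161 v446 v306 v167 v460 v328 v170 (k8 v174 v337 v182 v345 v184 v186 v351 v192 (k8 v69 v357 v195 v364 v200 v79 v202 v493 (k8 v205 v86 v207 v502 v211 v213 v511 v217 (k8 v219 v518 v223 v225 v524 v228 v230 v528 (k8 v114 v233 v531 v119 v237 v536 v125 v241 (k8 v541 v128 v245 v544 v132 v249 v546 v600 (k0))))))))
noncomputable def ca6_59 : List VW := k8 v277 v144 v275 v274 v284 v149 v433 v292 (k8 v157 v161 v446 v306 v167 v460 v328 v170 (k8 v174 v337 v182 v473 v184 v186 v351 v67 (k8 v192 v483 v71 v195 v485 v199 v368 v79 (k8 v202 v493 v205 v86 v207 v502 v211 v214 (k8 v511 v217 v220 v518 v223 v225 v524 v228 (k8 v230 v528 v231 v233 v531 v119 v237 v536 (k8 v125 v241 v541 v243 v245 v544 v132 v249 (k1 v546 (k1 v600 (k0))))))))))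
noncomputable def ca6_60 : List VW := k8 v276 v144 v275 v423 v0 v149 v433 v291 (k8 v157 v161 v437 v446 v305 v167 v460 v327 (k8 v171 v174 v467 v464 v182 v473 v185 v186 (k8 v478 v476 v192 v481 v195 v485 v199 v489 (k8 v202 v493 v205 v497 v207 v502 v211 v214 (k8 v511 v217 v220 v518 v223 v226 v524 v228 (k8 v230 v528 v231 v233 v531 v532 v536 v239 (k1 v241 (k1 v541 (k1 v543 (k1 v544 (k1 v545 (k1 v546 (k1 v600 (k0))))))))))))))
noncomputable def ca6_61 : List VW := k8 v3 v275 v289 v13 v304 v15 v21 v319 (k1 v31 (k1 v48 (k1 v56 (k1 v567 (k0)))))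
noncomputable def ca6_62 : List VW := k8 v4 v424 v275 v0 v13 v431 v16 v21 (k8 v319 v31 v335 v46 v50 v56 v60 v68 (k1 v568 (k0)))
noncomputable def ca6_63 : List VW := k8 v4 v424 v273 v0 v2 v12 v431 v15 (k8 v21 v310 v166 v30 v334 v35 v42 v341 (k8 v54 v58 v59 v355 v66 v71 v367 v569 (k0)))
noncomputable def ca6_64 : List VW := k8 v4 v424 v273 v0 v2 v12 v431 v425 (k8 v21 v316 v166 v30 v334 v35 v42 v341 (k8 v54 v58 v59 v355 v66 v71 v367 v569 (k0)))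
noncomputable def ca6_65 : List VW := k8 v4 v424 v273 v0 v2 v12 v431 v425 (k8 v23 v316 v166 v30 v334 v35 v42 v341 (k8 v181 v54 v58 v59 v355 v66 v71 v367 (k1 v75 (k1 v79 (k1 v375 (k1 v570 (k0)))))))
noncomputable def ca6_66 : List VW := k8 v4 v424 v273 v0 v2 v12 v431 v425 (k8 v21 v325 v310 v166 v30 v334 v35 v42 (k8 v341 v181 v54 v58 v59 v355 v66 v71 (k1 v367 (k1 v75 (k1 v79 (k1 v375 (k1 v570 (k0))))))))
noncomputable def ca6_67 : List VW := k8 v278 v3 v424 v273 v282 v2 v298 v295 (k8 v152 v23 v324 v309 v166 v29 v333 v331 (k8 v42 v340 v181 v53 v347 v59 v354 v191 (k8 v65 v69 v71 v366 v74 v77 v79 v374 (k8 v83 v86 v383 v92 v94 v389 v97 v99 (k1 v101 (k1 v573 (k0)))))))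
noncomputable def ca6_68 : List VW := k8 v278 v3 v424 v273 v282 v2 v298 v295 (k8 v152 v21 v160 v324 v309 v265 v29 v333 (k8 v331 v42 v174 v340 v266 v53 v347 v59 (k8 v186 v354 v268 v65 v360 v71 v366 v74 (k8 v77 v79 v374 v271 v83 v85 v86 v383 (k8 v92 v94 v389 v97 v99 v101 v105 v106 (k8 v394 v109 v111 v397 v113 v114 v115 v117 (k1 v119 (k1 v402 (k1 v577 (k0))))))))))
noncomputable def ca6_69 : List VW := k8 v278 v3 v424 v273 v0 v2 v297 v294 (k8 v152 v21 v160 v323 v308 v265 v28 v332 (k8 v330 v42 v174 v339 v266 v52 v179 v346 (k8 v59 v186 v353 v268 v64 v359 v71 v365 (k8 v73 v77 v79 v373 v271 v82 v85 v86 (k8 v382 v91 v94 v389 v96 v99 v100 v104 (k8 v106 v107 v108 v111 v397 v112 v114 v115 (k1 v116 (k1 v119 (k1 v120 (k1 v577 (k0)))))))))))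
noncomputable def ca6_70 : List VW := k8 v278 v3 v424 v273 v0 v2 v429 v560 (k8 v22 v160 v323 v308 v264 v28 v332 v330 (k8 v42 v174 v339 v266 v52 v179 v346 v59 (k8 v186 v353 v267 v64 v359 v71 v365 v269 (k8 v73 v198 v79 v202 v80 v492 v82 v85 (k8 v86 v207 v501 v387 v94 v213 v510 v216 (k8 v99 v391 v104 v106 v394 v108 v111 v230 (k8 v528 v114 v115 v116 v119 v120 v122 v125 (k8 v241 v409 v128 v129 v130 v132 v249 v133 (k8 v134 v252 v136 v255 v139 v257 v142 v260 (k1 v143 (k1 v262 (k1 v585 (k0)))))))))))))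
noncomputable def ca6_71 : List VW := k8 v278 v144 v275 v285 v263 v10 v433 v560 (k8 v290 v160 v322 v307 v264 v27 v460 v35 (k8 v42 v174 v338 v266 v51 v473 v59 v186 (k8 v352 v267 v63 v483 v70 v195 v485 v199 (k8 v79 v202 v493 v81 v499 v207 v502 v211 (k8 v213 v511 v217 v219 v518 v223 v225 v524 (k8 v111 v230 v528 v114 v115 v531 v119 v121 (k1 v536 (k1 v597 (k0)))))))))
noncomputable def ca6_72 : List VW := k8 v278 v147 v275 v423 v0 v149 v433 v293 (k8 v157 v160 v322 v446 v307 v167 v460 v329 (k8 v172 v174 v467 v338 v182 v473 v58 v185 (k8 v186 v478 v352 v192 v358 v194 v195 v364 (k8 v200 v491 v78 v369 v203 v372 v493 v81 (k8 v205 v499 v376 v208 v502 v90 v211 v385 (k8 v214 v511 v217 v516 v219 v518 v223 v106 (k8 v225 v524 v228 v230 v528 v231 v233 v531 (k8 v235 v237 v536 v239 v241 v541 v243 v245 (k8 v544 v247 v249 v546 v251 v252 v549 v136 (k1 v255 (k1 v553 (k1 v139 (k1 v257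 (k1 v556 (k1 v603 (k0))))))))))))))))
noncomputable def ca6_73 : List VW := k8 v3 v275 v289 v13 v304 v15 v21 v319 (k1 v31 (k1 v47 (k1 v56 (k1 v567 (k0)))))
noncomputable def ca6_74 : List VW := k8 v4 v424 v275 v289 v13 v304 v16 v21 (k8 v319 v31 v335 v46 v50 v56 v60 v68 (k1 v568 (k0)))
noncomputable def ca6_75 : List VW := k8 v4 v424 v273 v0 v2 v429 v561 v21 (k8 v310 v265 v30 v334 v35 v42 v341 v54 (k1 v58 (k1 v59 (k1 v355 (k1 v66 (k1 v71 (k1 v367 (k1 v569 (k0)))))))))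
noncomputable def ca6_76 : List VW := k8 v3 v147 v275 v0 v2 v297 v294 v21 (k8 v323 v439 v28 v330 v42 v339 v266 v52 (k8 v58 v59 v353 v64 v71 v365 v73 v79 (k1 v373 (k1 v570 (k0)))))
noncomputable def ca6_77 : List VW := k8 v3 v147 v275 v0 v263 v11 v297 v294 (k8 v21 v23 v323 v441 v28 v332 v330 v42 (k8 v174 v464 v52 v346 v59 v186 v476 v361 (k8 v71 v365 v73 v79 v373 v82 v86 v87 (k1 v91 (k1 v94 (k1 v389 (k1 v572 (k0))))))))
noncomputable def ca6_78 : List VW := k8 v278 v144 v275 v0 v149 v296 v293 v157 (k8 v160 v322 v307 v167 v460 v170 v174 v338 (k8 v182 v58 v59 v186 v352 v192 v69 v196 (k1 v200 (k1 v202 (k1 v493 (k1 v590 (k0)))))))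
noncomputable def ca6_79 : List VW := k8 v1 v144 v418 v149 v155 v160 v168 v586 (k0)
noncomputable def ca6_80 : List VW := k8 v1 v144 v418 v149 v155 v160 v441 v586 (k0)
noncomputable def ca6_81 : List VW := k8 v1 v144 v417 v421 v149 v433 v426 v160 (k8 v443 v167 v452 v174 v464 v180 v469 v186 (k8 v476 v190 v480 v195 v485 v199 v488 v202 (k8 v493 v205 v496 v207 v502 v508 v214 v511 (k8 v516 v220 v518 v223 v226 v229 v230 v232 (k8 v233 v236 v237 v240 v241 v244 v245 v248 (k8 v249 v251 v252 v254 v255 v256 v257 v259 (k1 v260 (k1 v261 (k1 v604 (k0))))))))))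
noncomputable def ca6_82 : List VW := k8 v1 v144 v417 v422 v149 v433 v426 v160 (k8 v443 v167 v460 v452 v174 v464 v180 v470 (k8 v186 v476 v190 v480 v195 v485 v199 v488 (k8 v202 v493 v205 v496 v207 v502 v211 v505 (k8 v213 v511 v516 v220 v518 v223 v226 v229 (k8 v230 v232 v233 v235 v237 v240 v241 v244 (k8 v245 v247 v249 v251 v252 v254 v255 v256 (k1 v257 (k1 v259 (k1 v603 (k0))))))))))
noncomputable def ca6_83 : List VW := k8 v1 v144 v417 v422 v149 v433 v426 v160 (k8 v443 v167 v460 v452 v174 v464 v180 v470 (k8 v186 v476 v190 v480 v195 v485 v199 v488 (k8 v202 v493 v205 v496 v207 v502 v211 v505 (k8 v213 v511 v516 v220 v518 v522 v226 v229 (k8 v230 v232 v233 v235 v237 v240 v241 v244 (k8 v245 v248 v249 v251 v252 v254 v255 v256 (k1 v257 (k1 v259 (k1 v260 (k1 v261 (k1 v604 (k0))))))))))))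
noncomputable def ca6_84 : List VW := k8 v1 v144 v423 v418 v149 v433 v426 v160 (k8 v443 v167 v460 v452 v174 v464 v180 v470 (k8 v186 v476 v190 v480 v195 v485 v199 v488 (k8 v202 v493 v205 v496 v207 v502 v211 v505 (k8 v213 v511 v516 v220 v518 v223 v226 v229 (k8 v230 v232 v233 v235 v237 v240 v241 v244 (k8 v245 v248 v249 v251 v252 v254 v255 v256 (k1 v257 (k1 v259 (k1 v260 (k1 v261 (k1 v604 (k0))))))))))))
noncomputable def ca6_85 : List VW := k8 v1 v144 v417 v421 v149 v433 v426 v160 (k8 v443 v169 v453 v174 v464 v180 v470 v186 (k8 v476 v190 v480 v195 v485 v199 v488 v202 (k8 v493 v205 v496 v207 v502 v211 v505 v513 (k8 v218 v514 v519 v224 v226 v229 v230 v232 (k8 v233 v235 v237 v239 v241 v244 v245 v247 (k1 v249 (k1 v251 (k1 v252 (k1 v254 (k1 v255 (k1 v256 (k1 v602 (k0)))))))))))))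
noncomputable def ca6_86 : List VW := k8 v1 v144 v423 v418 v149 v433 v426 v160 (k8 v436 v443 v167 v460 v452 v174 v465 v180 (k8 v470 v186 v476 v190 v480 v195 v485 v199 (k8 v488 v202 v493 v205 v496 v207 v502 v211 (k8 v505 v213 v511 v516 v220 v518 v223 v226 (k8 v229 v230 v232 v233 v235 v237 v239 v241 (k8 v244 v245 v247 v249 v251 v252 v254 v255 (k1 v256 (k1 v257 (k1 v259 (k1 v260 (k1 v261 (k1 v604 (k0)))))))))))))
noncomputable def ca6_87 : List VW := k8 v1 v144 v423 v418 v149 v433 v426 v161 (k8 v444 v167 v460 v452 v174 v465 v180 v470 (k8 v186 v476 v190 v480 v195 v485 v199 v488 (k8 v202 v493 v205 v496 v207 v502 v211 v505 (k8 v213 v511 v516 v220 v518 v223 v226 v229 (k8 v230 v232 v233 v235 v237 v239 v241 v244 (k8 v245 v247 v249 v251 v252 v254 v255 v256 (k1 v257 (k1 v259 (k1 v260 (k1 v261 (k1 v604 (k0))))))))))))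
noncomputable def ca6_88 : List VW := k8 v1 v144 v423 v418 v149 v433 v426 v160 (k8 v444 v167 v460 v452 v174 v465 v180 v470 (k8 v186 v476 v190 v480 v195 v485 v199 v488 (k8 v202 v493 v205 v496 v207 v502 v211 v505 (k8 v213 v511 v516 v220 v518 v223 v226 v229 (k8 v230 v232 v233 v235 v237 v239 v241 v244 (k8 v245 v247 v249 v251 v252 v254 v255 v256 (k1 v602 (k0))))))))
noncomputable def ca6_89 : List VW := k8 v1 v144 v423 v418 v149 v433 v426 v160 (k8 v436 v444 v167 v460 v452 v174 v465 v180 (k8 v470 v186 v476 v190 v481 v195 v485 v199 (k8 v488 v202 v493 v205 v496 v207 v502 v211 (k8 v505 v213 v511 v516 v220 v518 v223 v226 (k8 v229 v230 v232 v233 v235 v237 v240 v241 (k8 v244 v245 v247 v249 v251 v252 v254 v255 (k1 v256 (k1 v257 (k1 v259 (k1 v260 (k1 v261 (k1 v604 (k0)))))))))))))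
noncomputable def ca6_90 : List VW := k8 v1 v144 v423 v418 v149 v433 v426 v160 (k8 v438 v444 v167 v460 v452 v174 v465 v180 (k8 v470 v186 v476 v190 v481 v195 v485 v199 (k8 v488 v202 v493 v205 v496 v207 v502 v211 (k8 v505 v213 v511 v516 v220 v518 v223 v226 (k8 v229 v230 v232 v233 v235 v237 v239 v241 (k8 v244 v245 v247 v249 v251 v252 v254 v255 (k1 v256 (k1 v257 (k1 v259 (k1 v260 (k1 v261 (k1 v604 (k0)))))))))))))
noncomputable def ca6_91 : List VW := k8 v1 v144 v423 v418 v149 v433 v426 v160 (k8 v436 v444 v167 v460 v452 v174 v465 v180 (k8 v470 v186 v476 v190 v481 v195 v485 v199 (k8 v488 v202 v493 v205 v496 v207 v502 v211 (k8 v505 v213 v511 v516 v220 v518 v223 v226 (k8 v229 v230 v232 v233 v235 v237 v239 v241 (k8 v244 v245 v247 v249 v251 v252 v254 v255 (k1 v256 (k1 v257 (k1 v259 (k1 v603 (k0)))))))))))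
noncomputable def ca6_92 : List VW := k8 v1 v144 v423 v418 v149 v433 v426 v160 (k8 v436 v443 v167 v460 v452 v174 v465 v180 (k8 v470 v186 v476 v190 v480 v195 v485 v199 (k8 v488 v202 v493 v205 v496 v207 v502 v211 (k8 v505 v213 v511 v516 v220 v518 v223 v226 (k8 v229 v230 v232 v233 v235 v237 v239 v241 (k8 v244 v245 v247 v249 v251 v252 v254 v255 (k1 v256 (k1 v602 (k0)))))))))
noncomputable def ca6_93 : List VW := k8 v1 v144 v274 v423 v418 v149 v433 v426 (k8 v160 v446 v441 v167 v460 v452 v174 v465 (k8 v180 v470 v186 v476 v190 v481 v195 v485 (k8 v199 v489 v202 v493 v205 v496 v207 v502 (k8 v211 v505 v213 v511 v516 v219 v518 v223 (k8 v226 v524 v228 v230 v528 v231 v233 v235 (k8 v237 v239 v241 v243 v245 v247 v249 v251 (k1 v252 (k1 v254 (k1 v255 (k1 v256 (k1 v602 (k0))))))))))))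
noncomputable def ca6_94 : List VW := k8 v1 v147 v423 v418 v149 v433 v426 v160 (k8 v446 v441 v167 v460 v452 v174 v465 v180 (k8 v470 v186 v476 v190 v481 v195 v485 v199 (k8 v489 v202 v493 v205 v496 v207 v502 v211 (k8 v505 v213 v511 v516 v219 v518 v223 v226 (k8 v524 v228 v230 v232 v233 v235 v237 v239 (k8 v241 v244 v245 v247 v249 v251 v252 v254 (k1 v255 (k1 v256 (k1 v257 (k1 v259 (k1 v260 (k1 v261 (k1 v604 (k0))))))))))))))
noncomputable def ca6_95 : List VW := k8 v1 v144 v423 v418 v149 v433 v426 v160 (k8 v446 v441 v167 v460 v452 v174 v465 v180 (k8 v470 v186 v476 v190 v481 v195 v485 v199 (k8 v488 v202 v493 v205 v496 v207 v502 v211 (k8 v505 v213 v511 v516 v220 v518 v223 v226 (k8 v229 v230 v232 v233 v235 v237 v239 v241 (k8 v244 v245 v247 v249 v251 v252 v254 v255 (k1 v256 (k1 v257 (k1 v259 (k1 v603 (k0)))))))))))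
noncomputable def ca6_96 : List VW := k8 v1 v144 v417 v421 v151 v427 v160 v441 (k8 v167 v452 v174 v464 v180 v184 v186 v476 (k1 v190 (k1 v196 (k1 v200 (k1 v589 (k0))))))
noncomputable def ca6_97 : List VW := k8 v1 v144 v275 v423 v279 v149 v433 v426 (k8 v160 v446 v441 v167 v460 v452 v174 v467 (k8 v464 v180 v470 v186 v478 v476 v190 v481 (k8 v195 v485 v199 v489 v202 v493 v205 v497 (k8 v207 v502 v211 v505 v213 v511 v516 v219 (k8 v518 v223 v226 v524 v228 v230 v528 v231 (k8 v233 v531 v235 v237 v536 v239 v241 v541 (k8 v243 v245 v544 v545 v546 v547 v549 v255 (k1 v256 (k1 v602 (k0))))))))))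
noncomputable def ca6_98 : List VW := k8 v1 v147 v274 v423 v279 v149 v433 v426 (k8 v160 v446 v441 v167 v460 v452 v174 v467 (k8 v464 v180 v473 v470 v186 v478 v476 v190 (k8 v481 v195 v485 v199 v489 v202 v493 v205 (k8 v497 v207 v502 v211 v505 v213 v511 v516 (k8 v219 v518 v223 v226 v524 v228 v230 v528 (k8 v231 v233 v531 v235 v237 v536 v239 v241 (k8 v541 v243 v245 v247 v249 v251 v252 v254 (k1 v255 (k1 v256 (k1 v257 (k1 v259 (k1 v260 (k1 v261 (k1 v604 (k0)))))))))))))))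
noncomputable def ca6_99 : List VW := k8 v1 v144 v274 v423 v287 v149 v433 v426 (k8 v160 v446 v441 v167 v460 v452 v174 v467 (k8 v464 v180 v473 v185 v186 v478 v476 v190 (k8 v481 v195 v485 v199 v489 v202 v493 v205 (k8 v497 v207 v502 v211 v505 v213 v511 v516 (k8 v219 v518 v223 v226 v524 v228 v230 v528 (k8 v231 v233 v531 v235 v237 v536 v239 v241 (k8 v541 v243 v245 v247 v249 v251 v252 v254 (k1 v255 (k1 v256 (k1 v257 (k1 v259 (k1 v260 (k1 v261 (k1 v604 (k0)))))))))))))))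
noncomputable def ca6_100 : List VW := k8 v1 v147 v423 v418 v149 v433 v426 v160 (k8 v436 v444 v167 v460 v452 v174 v465 v180 (k8 v470 v186 v476 v190 v481 v195 v485 v199 (k8 v489 v202 v493 v205 v496 v207 v502 v211 (k8 v214 v511 v217 v220 v518 v223 v226 v524 (k8 v228 v230 v528 v231 v233 v235 v237 v239 (k1 v241 (k1 v243 (k1 v598 (k0)))))))))
noncomputable def ca6_101 : List VW := k8 v277 v144 v275 v423 v0 v149 v433 v292 (k8 v157 v161 v446 v306 v167 v460 v328 v35 (k8 v171 v174 v337 v464 v182 v473 v344 v59 (k8 v186 v351 v67 v192 v481 v195 v485 v199 (k8 v489 v202 v493 v205 v86 v207 v502 v211 (k8 v94 v213 v511 v516 v219 v518 v223 v225 (k8 v524 v228 v230 v528 v231 v233 v531 v235 (k8 v237 v536 v239 v241 v541 v243 v245 v544 (k8 v545 v546 v547 v549 v255 v553 v257 v556 (k1 v557 (k1 v558 (k1 v604 (k0))))))))))))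
noncomputable def ca6_102 : List VW := k8 v276 v144 v275 v423 v279 v149 v433 v291 (k8 v157 v161 v446 v305 v167 v462 v562 v326 (k8 v43 v174 v336 v464 v182 v473 v343 v184 (k8 v187 v350 v476 v192 v481 v195 v485 v199 (k8 v489 v202 v493 v205 v86 v207 v502 v211 (k8 v94 v213 v511 v516 v219 v518 v223 v225 (k8 v524 v228 v230 v528 v231 v233 v531 v235 (k8 v237 v536 v239 v241 v541 v243 v245 v544 (k8 v545 v546 v547 v549 v255 v553 v258 v556 (k1 v557 (k1 v558 (k1 v604 (k0))))))))))))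
noncomputable def ca6_103 : List VW := k8 v1 v144 v275 v423 v279 v149 v433 v291 (k8 v157 v160 v446 v441 v167 v460 v452 v174 (k8 v336 v464 v182 v345 v470 v186 v350 v476 (k8 v192 v481 v195 v485 v199 v489 v202 v493 (k8 v205 v497 v207 v502 v211 v506 v213 v511 (k8 v516 v219 v518 v223 v226 v524 v228 v230 (k8 v528 v231 v233 v531 v235 v237 v536 v239 (k8 v241 v541 v243 v245 v544 v545 v546 v547 (k8 v549 v255 v256 v257 v259 v260 v261 v604 (k0)))))))))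
noncomputable def ca6_104 : List VW := k8 v1 v144 v275 v423 v279 v149 v433 v426 (k8 v160 v446 v305 v168 v460 v452 v174 v336 (k8 v464 v182 v345 v470 v186 v350 v476 v192 (k8 v481 v195 v485 v199 v489 v202 v493 v205 (k8 v497 v207 v502 v211 v506 v213 v511 v516 (k8 v219 v518 v223 v226 v524 v228 v230 v528 (k8 v231 v233 v531 v235 v237 v536 v239 v241 (k8 v541 v243 v245 v544 v545 v546 v547 v549 (k1 v255 (k1 v256 (k1 v257 (k1 v259 (k1 v260 (k1 v261 (k1 v604 (k0)))))))))))))))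
noncomputable def ca6_105 : List VW := k8 v1 v144 v275 v423 v279 v149 v433 v426 (k8 v160 v446 v441 v167 v460 v452 v174 v336 (k8 v464 v182 v345 v470 v186 v350 v476 v190 (k8 v481 v195 v485 v199 v489 v202 v493 v205 (k8 v497 v207 v502 v211 v506 v213 v511 v516 (k8 v219 v518 v223 v226 v524 v228 v230 v528 (k8 v231 v233 v531 v235 v237 v536 v239 v241 (k8 v541 v243 v245 v544 v545 v546 v547 v549 (k1 v255 (k1 v256 (k1 v257 (k1 v259 (k1 v260 (k1 v261 (k1 v604 (k0)))))))))))))))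
noncomputable def ca6_106 : List VW := k8 v1 v144 v275 v423 v279 v149 v433 v426 (k8 v160 v446 v441 v167 v460 v452 v174 v467 (k8 v464 v182 v473 v185 v186 v478 v476 v190 (k8 v481 v195 v485 v199 v489 v202 v493 v205 (k8 v497 v207 v502 v211 v506 v213 v511 v516 (k8 v219 v518 v223 v226 v524 v228 v230 v528 (k8 v231 v233 v531 v235 v237 v536 v239 v241 (k8 v541 v243 v245 v544 v545 v546 v547 v549 (k1 v551 (k1 v553 (k1 v258 (k1 v259 (k1 v260 (k1 v261 (k1 v604 (k0)))))))))))))))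
noncomputable def ca6_107 : List VW := k8 v1 v144 v275 v423 v279 v149 v433 v426 (k8 v160 v446 v441 v167 v460 v452 v178 v465 (k8 v180 v470 v186 v476 v190 v481 v195 v485 (k8 v199 v489 v202 v493 v205 v497 v207 v502 (k8 v211 v505 v213 v511 v516 v219 v518 v223 (k8 v226 v524 v228 v230 v528 v231 v233 v531 (k8 v235 v237 v536 v239 v241 v541 v243 v245 (k1 v544 (k1 v545 (k1 v546 (k1 v547 (k1 v549 (k1 v601 (k0)))))))))))))
noncomputable def ca6_108 : List VW := k8 v1 v144 v275 v423 v279 v149 v433 v426 (k8 v160 v446 v441 v167 v460 v452 v178 v465 (k8 v180 v470 v186 v476 v190 v481 v195 v485 (k8 v199 v489 v202 v493 v205 v497 v207 v502 (k8 v211 v214 v511 v217 v220 v518 v223 v226 (k8 v524 v228 v230 v528 v231 v233 v531 v235 (k8 v237 v536 v239 v241 v541 v543 v544 v545 (k1 v546 (k1 v600 (k0)))))))))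
noncomputable def ca6_109 : List VW := k8 v278 v3 v424 v273 v0 v2 v429 v560 (k8 v290 v160 v322 v446 v439 v27 v456 v35 (k8 v42 v174 v338 v266 v51 v472 v183 v186 (k8 v352 v267 v63 v482 v70 v195 v484 v198 (k8 v79 v202 v492 v378 v498 v207 v501 v210 (k8 v213 v510 v216 v219 v517 v222 v225 v523 (k8 v111 v230 v528 v114 v115 v530 v119 v121 (k8 v536 v125 v241 v409 v128 v245 v130 v132 (k1 v249 (k1 v134 (k1 v600 (k0)))))))))))
noncomputable def ca6_110 : List VW := k8 v278 v144 v275 v274 v280 v149 v433 v293 (k8 v157 v160 v322 v436 v446 v307 v167 v460 (k8 v329 v170 v174 v338 v182 v345 v183 v186 (k8 v352 v192 v483 v71 v195 v364 v200 v79 (k8 v202 v493 v81 v205 v86 v207 v502 v211 (k8 v94 v213 v511 v516 v219 v518 v223 v225 (k8 v524 v228 v230 v528 v114 v233 v531 v119 (k8 v237 v536 v125 v241 v541 v128 v245 v544 (k8 v132 v249 v546 v134 v252 v549 v255 v139 (k1 v257 (k1 v142 (k1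 v260 (k1 v143 (k1 v604 (k0))))))))))))))
noncomputable def ca6_111 : List VW := k8 v278 v144 v275 v274 v280 v149 v433 v293 (k8 v157 v161 v437 v446 v307 v167 v460 v329 (k8 v170 v174 v338 v182 v345 v183 v186 v352 (k8 v192 v483 v71 v195 v364 v200 v79 v202 (k8 v493 v205 v86 v207 v502 v211 v213 v511 (k8 v217 v219 v518 v223 v225 v524 v228 v230 (k8 v528 v114 v233 v531 v119 v237 v536 v125 (k8 v241 v541 v128 v245 v544 v132 v249 v546 (k1 v253 (k1 v136 (k1 v601 (k0)))))))))))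
noncomputable def ca6_112 : List VW := k8 v278 v144 v275 v274 v280 v149 v433 v293 (k8 v157 v161 v437 v446 v307 v167 v460 v329 (k8 v170 v174 v338 v182 v345 v184 v186 v352 (k8 v192 v483 v71 v195 v364 v200 v79 v202 (k8 v493 v205 v86 v207 v502 v211 v215 v511 (k8 v217 v219 v518 v223 v225 v524 v228 v230 (k8 v528 v114 v233 v531 v119 v237 v536 v125 (k8 v241 v541 v128 v245 v544 v132 v249 v546 (k1 v134 (k1 v252 (k1 v549 (k1 v255 (k1 v139 (k1 v602 (k0))))))))))))))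
noncomputable def ca6_113 : List VW := k8 v277 v144 v275 v274 v284 v149 v433 v292 (k8 v157 v161 v437 v446 v306 v167 v460 v328 (k8 v170 v174 v337 v182 v473 v184 v186 v351 (k8 v67 v192 v483 v71 v195 v364 v201 v368 (k8 v79 v202 v493 v205 v86 v207 v502 v211 (k8 v94 v213 v511 v516 v219 v518 v223 v225 (k8 v524 v228 v230 v528 v114 v233 v531 v119 (k8 v237 v536 v125 v241 v541 v128 v245 v544 (k8 v132 v249 v546 v134 v252 v549 v255 v553 (k1 v257 (k1 v556 (k1 v603 (k0))))))))))))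
noncomputable def ca6_114 : List VW := k8 v277 v144 v275 v423 v0 v149 v433 v292 (k8 v157 v161 v437 v446 v306 v167 v460 v328 (k8 v171 v174 v337 v182 v473 v184 v186 v351 (k8 v67 v192 v483 v71 v195 v485 v199 v368 (k8 v79 v202 v493 v205 v86 v207 v502 v211 (k8 v94 v213 v511 v516 v219 v518 v223 v225 (k8 v524 v228 v230 v528 v231 v233 v531 v119 (k8 v237 v536 v239 v241 v541 v243 v245 v544 (k8 v247 v249 v546 v251 v252 v549 v255 v553 (k1 v257 (k1 v556 (k1 v259 (k1 v260 (k1 v558 (k1 v604 (k0)))))))))))))))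
noncomputable def ca6_115 : List VW := k8 v277 v144 v275 v274 v284 v149 v433 v292 (k8 v157 v160 v446 v306 v167 v460 v328 v170 (k8 v174 v337 v182 v473 v184 v186 v476 v192 (k8 v481 v195 v364 v200 v79 v202 v493 v205 (k8 v86 v207 v502 v211 v213 v511 v217 v219 (k8 v518 v223 v225 v524 v228 v230 v528 v114 (k1 v233 (k1 v531 (k1 v532 (k1 v536 (k1 v538 (k1 v541 (k1 v598 (k0)))))))))))))
noncomputable def ca6_116 : List VW := k8 v276 v144 v275 v274 v283 v149 v433 v291 (k8 v157 v160 v446 v305 v167 v460 v327 v170 (k8 v174 v336 v182 v473 v183 v187 v476 v192 (k8 v481 v195 v485 v199 v489 v202 v493 v205 (k8 v86 v207 v502 v211 v213 v511 v217 v219 (k8 v518 v223 v225 v524 v228 v230 v528 v529 (k1 v531 (k1 v596 (k0))))))))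
noncomputable def ca6_117 : List VW := k8 v1 v144 v274 v279 v149 v433 v426 v160 (k8 v443 v167 v452 v174 v336 v182 v185 v186 (k8 v350 v192 v194 v195 v200 v202 v493 v590 (k0)))
noncomputable def ca6_118 : List VW := k8 v3 v424 v275 v0 v13 v304 v20 v21 (k8 v319 v31 v36 v42 v57 v59 v68 v568 (k0))
noncomputable def ca6_119 : List VW := k8 v5 v424 v273 v0 v2 v12 v431 v425 (k8 v21 v325 v310 v166 v30 v334 v35 v42 (k8 v341 v181 v54 v58 v59 v355 v66 v71 (k1 v367 (k1 v75 (k1 v79 (k1 v375 (k1 v570 (k0))))))))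
noncomputable def ca6_120 : List VW := k8 v6 v424 v273 v0 v2 v12 v431 v425 (k8 v21 v325 v310 v166 v30 v455 v35 v42 (k8 v341 v181 v54 v471 v59 v355 v191 v363 (k8 v71 v367 v75 v79 v375 v84 v86 v384 (k1 v571 (k0)))))
noncomputable def ca6_121 : List VW := k8 v6 v424 v273 v0 v2 v298 v295 v21 (k8 v324 v309 v166 v29 v333 v331 v42 v340 (k8 v181 v53 v347 v59 v354 v191 v362 v71 (k8 v366 v74 v79 v374 v83 v86 v383 v571 (k0))))
noncomputable def ca6_122 : List VW := k8 v278 v3 v424 v273 v0 v2 v298 v295 (k8 v152 v23 v324 v309 v265 v29 v333 v331 (k8 v42 v340 v266 v53 v347 v59 v354 v268 (k8 v65 v69 v71 v366 v74 v79 v374 v83 (k8 v86 v383 v92 v94 v389 v97 v99 v101 (k1 v573 (k0))))))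
noncomputable def ca6_123 : List VW := k8 v278 v3 v424 v273 v281 v2 v297 v294 (k8 v152 v21 v160 v323 v308 v265 v28 v332 (k8 v330 v42 v174 v339 v266 v52 v179 v346 (k8 v59 v186 v353 v268 v64 v359 v71 v365 (k8 v73 v77 v79 v373 v271 v82 v85 v86 (k8 v382 v91 v94 v389 v96 v99 v100 v104 (k8 v106 v107 v108 v111 v397 v112 v114 v115 (k1 v116 (k1 v119 (k1 v120 (k1 v122 (k1 v125 (k1 v408 (k1 v578 (k0))))))))))))))
noncomputable def ca6_124 : List VW := k8 v278 v3 v424 v273 v0 v2 v297 v294 (k8 v152 v21 v160 v323 v308 v265 v28 v332 (k8 v330 v42 v174 v339 v266 v52 v179 v346 (k8 v59 v186 v353 v268 v64 v359 v71 v365 (k8 v269 v73 v77 v79 v373 v271 v82 v85 (k8 v86 v382 v91 v94 v389 v96 v99 v391 (k8 v104 v106 v107 v108 v111 v230 v528 v114 (k8 v115 v116 v119 v120 v122 v125 v241 v540 (k1 v128 (k1 v129 (k1 v579 (k0)))))))))))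
noncomputable def ca6_125 : List VW := k8 v278 v3 v424 v273 v0 v2 v11 v432 (k8 v560 v22 v160 v323 v308 v264 v28 v332 (k8 v330 v42 v174 v339 v266 v52 v179 v346 (k8 v59 v186 v353 v267 v64 v359 v71 v365 (k8 v269 v73 v198 v79 v202 v80 v492 v82 (k8 v85 v86 v382 v501 v387 v94 v213 v510 (k8 v216 v99 v391 v104 v106 v394 v108 v111 (k8 v230 v528 v114 v115 v116 v119 v120 v122 (k8 v125 v241 v409 v128 v129 v130 v132 v249 (k8 v133 v134 v252 v136 v137 v139 v257 v142 (k1 v260 (k1 v584 (k0))))))))))))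
noncomputable def ca6_126 : List VW := k8 v278 v147 v275 v285 v2 v429 v560 v22 (k8 v160 v322 v307 v264 v27 v332 v329 v42 (k8 v174 v338 v266 v51 v179 v345 v59 v186 (k8 v352 v267 v63 v358 v71 v195 v484 v72 (k8 v198 v79 v202 v492 v81 v85 v86 v207 (k8 v501 v210 v94 v388 v95 v515 v219 v517 (k8 v222 v225 v523 v111 v230 v528 v114 v115 (k8 v116 v119 v120 v122 v125 v241 v126 v128 (k8 v129 v130 v132 v249 v134 v252 v136 v552 (k1 v257 (k1 v583 (k0)))))))))))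
noncomputable def ca6_127 : List VW := k8 v278 v144 v275 v285 v2 v429 v560 v22 (k8 v160 v322 v307 v264 v27 v456 v35 v42 (k8 v174 v338 v266 v51 v472 v59 v186 v352 (k8 v267 v63 v358 v71 v195 v484 v198 v79 (k8 v202 v492 v81 v498 v207 v501 v210 v213 (k8 v510 v216 v219 v517 v222 v225 v523 v111 (k8 v230 v528 v114 v115 v116 v119 v120 v122 (k8 v125 v241 v126 v128 v129 v130 v132 v249 (k1 v134 (k1 v252 (k1 v136 (k1 v552 (k1 v602 (k0)))))))))))))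
noncomputable def ca6_128 : List VW := k8 v278 v144 v275 v274 v0 v263 v10 v433 (k8 v560 v290 v160 v322 v307 v264 v27 v461 (k8 v329 v42 v174 v338 v266 v51 v180 v345 (k8 v183 v186 v352 v267 v63 v483 v70 v195 (k8 v485 v72 v199 v79 v202 v493 v81 v205 (k8 v86 v207 v502 v211 v213 v511 v217 v219 (k8 v518 v223 v225 v524 v228 v230 v528 v114 (k8 v115 v531 v119 v121 v536 v125 v241 v126 (k8 v128 v245 v130 v132 v249 v133 v134 v135 (k1 v549 (k1 v255 (k1 v139 (k1 v602 (k0)))))))))))))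
noncomputable def ca6_129 : List VW := k8 v278 v144 v275 v274 v0 v149 v433 v293 (k8 v157 v161 v436 v313 v167 v460 v35 v42 (k8 v174 v338 v182 v345 v183 v186 v352 v192 (k8 v69 v71 v195 v364 v200 v78 v202 v493 (k8 v81 v499 v207 v502 v211 v213 v511 v217 (k8 v219 v518 v223 v225 v108 v228 v230 v528 (k1 v595 (k0)))))))
noncomputable def ca6_130 : List VW := k8 v276 v147 v274 v0 v149 v433 v291 v157 (k8 v160 v436 v305 v167 v460 v170 v174 v336 (k8 v182 v473 v187 v350 v192 v194 v195 v200 (k1 v203 (k1 v493 (k1 v590 (k0))))))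
noncomputable def ca6_131 : List VW := k8 v3 v7 v275 v0 v13 v304 v16 v21 (k8 v319 v31 v36 v42 v56 v59 v68 v568 (k0))
noncomputable def ca6_132 : List VW := k8 v5 v424 v273 v0 v2 v432 v561 v21 (k8 v316 v265 v30 v334 v35 v42 v341 v266 (k8 v54 v58 v59 v355 v66 v71 v367 v569 (k0)))
noncomputable def ca6_133 : List VW := k8 v3 v147 v275 v0 v2 v297 v294 v21 (k8 v160 v308 v265 v28 v165 v330 v42 v339 (k8 v266 v52 v58 v59 v353 v64 v71 v365 (k1 v73 (k1 v79 (k1 v373 (k1 v570 (k0)))))))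
noncomputable def ca6_134 : List VW := k8 v4 v147 v275 v0 v263 v11 v297 v294 (k8 v22 v161 v314 v265 v28 v332 v330 v42 (k8 v339 v266 v52 v346 v59 v353 v268 v64 (k8 v69 v71 v195 v485 v199 v79 v373 v82 (k8 v86 v382 v91 v94 v511 v99 v518 v106 (k1 v107 (k1 v574 (k0)))))))
noncomputable def ca6_135 : List VW := k8 v278 v144 v275 v285 v149 v433 v293 v157 (k8 v160 v322 v307 v167 v460 v172 v174 v338 (k8 v182 v345 v183 v186 v352 v192 v194 v195 (k8 v269 v200 v77 v203 v493 v205 v207 v502 (k1 v591 (k0)))))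

noncomputable def a22_0 : T5 :=
  (.nd 2 2500 .lw
  (.lf ⟨⟨0, 0, 0, 5792, 1, 1, 1⟩, 0, 0, 0, 0, [h5, h0 5884, f10], 26, ca6_0, 0, 0⟩))

noncomputable def a22_1 : T5 :=
  (.nd 2 2300 .lw
  (.lf ⟨⟨0, 0, 0, 46340, 16, 1, 1⟩, 0, 0, 0, 0, [h5, h0 5884, f10], 26, ca6_1, 0, 0⟩))

noncomputable def a22_2 : T5 :=
  (.nd 2 2162 .lw
  (.lf ⟨⟨0, 0, 0, 28724, 16, 1, 1⟩, 0, 0, 0, 0, [h5, h0 5884, f8], 26, ca6_2, 0, 0⟩))

noncomputable def a22_3 : T5 :=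
  (.nd 2 1972 .lw
  (.nd 2 2300 (.nd 2 2136 (.nd 2 2054 (.nd 2 2013 (.nd 2 1992 (.lf ⟨⟨0, 0, 0, 14868, 16, 1, 1⟩, 0, 0, 0, 0, [h5, h0 5884], 11, ca6_3, 0, 0⟩)
  (.lf ⟨⟨0, 0, 0, 15935, 16, 1, 1⟩, 0, 0, 0, 0, [h5, h0 5884, f11], 13, ca6_2, 0, 0⟩))
  (.lf ⟨⟨0, 0, 0, 17139, 16, 1, 1⟩, 0, 0, 0, 0, [h5, h0 5884, f11], 13, ca6_2, 0, 0⟩))
  (.lf ⟨⟨0, 0, 0, 19755, 16, 1, 1⟩, 0, 0, 0, 0, [h5, h0 5884, f11], 13, ca6_2, 0, 0⟩))
  (.lf ⟨⟨0, 0, 0, 26249, 16, 1, 1⟩, 0, 0, 0, 0, [h5, h0 5884, f11], 0, ca6_4, 0, 0⟩))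
  (.lf ⟨⟨0, 0, 0, 46340, 16, 1, 1⟩, 0, 0, 0, 0, [h5, h0 5884, f11], 0, ca6_5, 0, 0⟩)))

noncomputable def a22_4 : T5 :=
  (.nd 2 1783 .lw
  (.lf ⟨⟨0, 0, 0, 7723, 16, 1, 1⟩, 0, 0, 0, 0, [h5, h0 5884, f7], 24, ca6_6, 0, 0⟩))

noncomputable def a22_5 : T5 :=
  (.nd 2 1586 .lw
  (.nd 2 1850 (.nd 2 1718 (.nd 2 1652 (.lf ⟨⟨0, 0, 0, 3902, 16, 2, 2⟩, 0, 0, 0, 0, [h5, h0 5882], 11, ca6_7, 0, 0⟩)
  (.lf ⟨⟨0, 0, 0, 4904, 16, 2, 1⟩, 0, 0, 0, 0, [h5, h0 5882, f6], 12, ca6_8, 0, 0⟩))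
  (.lf ⟨⟨0, 0, 0, 6165, 16, 2, 1⟩, 0, 0, 0, 0, [h5, h0 5882, f6], 12, ca6_8, 0, 0⟩))
  (.lf ⟨⟨0, 0, 0, 9741, 16, 1, 1⟩, 0, 0, 0, 0, [h5, h0 5884, f6], 0, ca6_9, 0, 0⟩)))

noncomputable def a22_6 : T5 :=
  (.nd 2 1365 .lw
  (.nd 2 1592 (.nd 2 1478 (.nd 2 1421 (.nd 2 1393 (.lf ⟨⟨0, 0, 0, 1814, 16, 4, 3⟩, 31983, 256, 2, 0, [h5, h0 5878], 22, ca6_10, 0, 0⟩)
  (.lf ⟨⟨0, 0, 0, 1998, 16, 4, 3⟩, 35242, 256, 2, 0, [h5, h0 5878], 17, ca6_11, 0, 0⟩))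
  (.lf ⟨⟨0, 0, 0, 2202, 16, 4, 3⟩, 42939, 256, 1, 0, [h5, h0 5878], 17, ca6_12, 0, 0⟩))
  (.lf ⟨⟨0, 0, 0, 2683, 16, 3, 2⟩, 63744, 256, 1, 0, [h5, h0 5880], 17, ca6_13, 0, 0⟩))
  (.lf ⟨⟨0, 0, 0, 3983, 16, 2, 2⟩, 0, 0, 0, 0, [h5, h0 5882, f6], 0, ca6_14, 0, 0⟩)))

noncomputable def a22_7 : T5 :=
  (.nd 2 1165 .lw
  (.nd 2 1359 (.nd 2 1262 (.nd 2 1213 (.nd 2 1189 (.lf ⟨⟨0, 0, 0, 14512, 256, 8, 6⟩, 15772, 256, 4, 0, [h5, h0 5870], 22, ca6_15, 0, 0⟩)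
  (.nd 2 1201 (.lf ⟨⟨0, 0, 0, 15771, 256, 7, 5⟩, 16441, 256, 4, 0, [h5, h0 5872], 22, ca6_16, 0, 0⟩)
  (.lf ⟨⟨0, 0, 0, 1027, 16, 7, 5⟩, 17140, 256, 4, 0, [h5, h0 5872], 17, ca6_17, 0, 0⟩)))
  (.lf ⟨⟨0, 0, 0, 1071, 16, 7, 5⟩, 20312, 256, 3, 0, [h5, h0 5872], 17, ca6_17, 0, 0⟩))
  (.lf ⟨⟨0, 0, 0, 1269, 16, 6, 4⟩, 28428, 256, 2, 0, [h5, h0 5874], 17, ca6_18, 0, 0⟩))
  (.lf ⟨⟨0, 0, 0, 1776, 16, 4, 3⟩, 0, 0, 0, 0, [h5, h0 5878], 17, ca6_19, 0, 0⟩)))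

noncomputable def a22_8 : T5 :=
  (.nd 2 965 .lw
  (.nd 2 1125 (.nd 2 1045 (.nd 2 1005 (.lf ⟨⟨0, 0, 0, 7256, 256, 16, 11⟩, 8336, 256, 8, 0, [h5, h0 5854], 22, ca6_20, 0, 0⟩)
  (.nd 2 1025 (.lf ⟨⟨0, 0, 0, 8335, 256, 14, 9⟩, 8934, 256, 8, 0, [h5, h0 5858], 17, ca6_21, 0, 0⟩)
  (.lf ⟨⟨0, 0, 0, 8933, 256, 13, 9⟩, 9575, 256, 7, 0, [h5, h0 5860], 17, ca6_21, 0, 0⟩)))
  (.lf ⟨⟨0, 0, 0, 9574, 256, 12, 8⟩, 12634, 256, 5, 0, [h5, h0 5862], 17, ca6_21, 0, 0⟩))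
  (.lf ⟨⟨0, 0, 0, 12633, 256, 9, 6⟩, 0, 0, 0, 0, [h5, h0 5868], 17, ca6_22, 0, 0⟩)))

noncomputable def a22_9 : T5 :=
  (.nd 2 765 .lw
  (.nd 2 801 (.lf ⟨⟨65992, 256, 3, 3628, 256, 31, 20⟩, 4111, 256, 17, 2, [h5, h0 5834], 22, ca6_23, 0, 0⟩)
  (.nd 2 934 (.nd 2 867 (.nd 2 834 (.lf ⟨⟨82953, 256, 2, 4110, 256, 27, 18⟩, 4609, 256, 15, 2, [h5, h0 5840], 17, ca6_24, 0, 0⟩)
  (.lf ⟨⟨104273, 256, 2, 4608, 256, 24, 16⟩, 5167, 256, 13, 1, [h5, h0 5844], 17, ca6_25, 0, 0⟩))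
  (.lf ⟨⟨165906, 256, 1, 5166, 256, 22, 14⟩, 6518, 256, 11, 1, [h5, h0 5846], 17, ca6_26, 0, 0⟩))
  (.lf ⟨⟨0, 0, 0, 6517, 256, 17, 12⟩, 0, 0, 0, 0, [h5, h0 5852], 17, ca6_27, 0, 0⟩))))

noncomputable def a22_10 : T5 :=
  (.nd 2 559 .lw
  (.nd 2 600 (.nd 2 579 (.lf ⟨⟨14165, 256, 15, 1776, 256, 61, 39⟩, 1905, 256, 36, 12, [h5, h0 5818], 22, ca6_28, 0, 0⟩)
  (.lf ⟨⟨16384, 256, 13, 1904, 256, 57, 37⟩, 2048, 256, 33, 10, [h5, h0 5818], 22, ca6_29, 0, 0⟩))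
  (.nd 2 700 (.nd 2 650 (.nd 2 625 (.nd 2 612 (.lf ⟨⟨17806, 256, 12, 2048, 256, 53, 34⟩, 2135, 256, 32, 9, [h5, h0 5822], 17, ca6_30, 0, 0⟩)
  (.lf ⟨⟨19484, 256, 11, 2134, 256, 51, 33⟩, 2234, 256, 31, 9, [h5, h0 5824], 17, ca6_30, 0, 0⟩))
  (.nd 2 637 (.lf ⟨⟨21174, 256, 10, 2233, 256, 49, 32⟩, 2329, 256, 30, 8, [h5, h0 5824], 17, ca6_31, 0, 0⟩)
  (.lf ⟨⟨23171, 256, 9, 2328, 256, 47, 31⟩, 2436, 256, 28, 7, [h5, h0 5824], 17, ca6_32, 0, 0⟩)))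
  (.nd 2 675 (.lf ⟨⟨27555, 256, 8, 2435, 256, 45, 29⟩, 2656, 256, 26, 6, [h5, h0 5824], 17, ca6_33, 0, 0⟩)
  (.lf ⟨⟨32768, 256, 6, 2655, 256, 41, 27⟩, 2897, 256, 24, 5, [h5, h0 5826], 17, ca6_34, 0, 0⟩)))
  (.nd 2 801 (.nd 2 750 (.lf ⟨⟨46341, 256, 4, 2896, 256, 38, 25⟩, 3445, 256, 20, 4, [h5, h0 5826], 17, ca6_35, 0, 0⟩)
  (.lf ⟨⟨65992, 256, 3, 3444, 256, 32, 21⟩, 4111, 256, 17, 2, [h5, h0 5832], 17, ca6_36, 0, 0⟩))
  (.lf ⟨⟨0, 0, 0, 4110, 256, 27, 18⟩, 0, 0, 0, 0, [h5, h0 5832], 0, ca6_37, 0, 0⟩)))))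

noncomputable def a22_11 : T5 :=
  (.nd 2 349 .lw
  (.nd 2 400 (.lf ⟨⟨4096, 256, 55, 858, 256, 121, 76⟩, 1024, 256, 64, 35, [h5, h0 5824], 22, ca6_38, 0, 0⟩)
  (.nd 2 500 (.nd 2 450 (.nd 2 425 (.lf ⟨⟨4871, 256, 46, 1024, 256, 102, 65⟩, 1117, 256, 59, 30, [h5, h0 5834], 17, ca6_39, 0, 0⟩)
  (.lf ⟨⟨5793, 256, 39, 1116, 256, 94, 60⟩, 1218, 256, 55, 26, [h5, h0 5828], 17, ca6_40, 0, 0⟩))
  (.nd 2 475 (.lf ⟨⟨6889, 256, 32, 1217, 256, 87, 56⟩, 1328, 256, 50, 22, [h5, h0 5820], 17, ca6_41, 0, 0⟩)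
  (.lf ⟨⟨8192, 256, 27, 1327, 256, 80, 51⟩, 1449, 256, 46, 19, [h5, h0 5818], 17, ca6_42, 0, 0⟩)))
  (.nd 2 600 (.nd 2 550 (.nd 2 525 (.lf ⟨⟨9742, 256, 23, 1448, 256, 74, 47⟩, 1580, 256, 43, 16, [h5, h0 5816], 17, ca6_43, 0, 0⟩)
  (.nd 2 537 (.lf ⟨⟨10587, 256, 21, 1579, 256, 68, 44⟩, 1647, 256, 41, 15, [h5, h0 5822], 17, ca6_43, 0, 0⟩)
  (.lf ⟨⟨11586, 256, 19, 1646, 256, 65, 42⟩, 1723, 256, 39, 14, [h5, h0 5822], 17, ca6_43, 0, 0⟩)))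
  (.nd 2 575 (.lf ⟨⟨13778, 256, 16, 1722, 256, 63, 40⟩, 1879, 256, 36, 12, [h5, h0 5816], 0, ca6_44, 0, 0⟩)
  (.lf ⟨⟨16384, 256, 13, 1878, 256, 58, 37⟩, 2048, 256, 33, 10, [h5, h0 5816], 0, ca6_45, 0, 0⟩)))
  (.lf ⟨⟨0, 0, 0, 2048, 256, 53, 34⟩, 0, 0, 0, 0, [h5, h0 5780], 0, ca6_46, 0, 0⟩)))))

noncomputable def a22_12 : T5 :=
  (.nd 2 200 .lw
  (.nd 2 300 (.nd 2 250 (.nd 2 225 (.lf ⟨⟨1218, 256, 204, 512, 256, 194, 117⟩, 559, 256, 108, 89, [h5, h0 6084], 17, ca6_47, 0, 0⟩)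
  (.nd 2 237 (.lf ⟨⟨1324, 256, 185, 558, 256, 179, 109⟩, 583, 256, 105, 84, [h5, h0 6066], 12, ca6_48, 0, 0⟩)
  (.nd 2 243 (.lf ⟨⟨1380, 256, 177, 582, 256, 173, 106⟩, 595, 256, 103, 82, [h5, h0 6058], 12, ca6_49, 0, 0⟩)
  (.lf ⟨⟨1449, 256, 168, 594, 256, 169, 104⟩, 609, 256, 101, 79, [h5, h0 6042], 12, ca6_50, 0, 0⟩))))
  (.nd 2 275 (.nd 2 262 (.lf ⟨⟨1574, 256, 153, 608, 256, 166, 102⟩, 635, 256, 97, 74, [h5, h0 6008], 12, ca6_51, 0, 0⟩)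
  (.lf ⟨⟨1723, 256, 139, 634, 256, 160, 98⟩, 664, 256, 94, 69, [h5, h0 5982], 12, ca6_52, 0, 0⟩))
  (.nd 2 287 (.lf ⟨⟨1872, 256, 127, 663, 256, 153, 95⟩, 693, 256, 90, 65, [h5, h0 5964], 12, ca6_53, 0, 0⟩)
  (.nd 2 293 (.lf ⟨⟨1952, 256, 121, 692, 256, 147, 91⟩, 707, 256, 89, 63, [h5, h0 5960], 12, ca6_54, 0, 0⟩)
  (.lf ⟨⟨2048, 256, 115, 706, 256, 145, 90⟩, 725, 256, 87, 61, [h5, h0 5948], 12, ca6_55, 0, 0⟩)))))
  (.nd 2 400 (.nd 2 350 (.nd 2 325 (.nd 2 312 (.lf ⟨⟨2226, 256, 105, 724, 256, 141, 88⟩, 755, 256, 84, 57, [h5, h0 5928], 12, ca6_56, 0, 0⟩)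
  (.lf ⟨⟨2436, 256, 96, 754, 256, 136, 85⟩, 790, 256, 80, 53, [h5, h0 5912], 12, ca6_57, 0, 0⟩))
  (.lf ⟨⟨2897, 256, 80, 789, 256, 131, 82⟩, 862, 256, 75, 46, [h5, h0 5876], 12, ca6_58, 0, 0⟩))
  (.lf ⟨⟨4096, 256, 55, 861, 256, 120, 76⟩, 1024, 256, 64, 35, [h5, h0 5826], 12, ca6_59, 0, 0⟩))
  (.lf ⟨⟨0, 0, 0, 1024, 256, 102, 65⟩, 0, 0, 0, 0, [h5, h0 5682], 0, ca6_60, 0, 0⟩))))

noncomputable def a22_13 : T5 :=
  (.nd 2 8 .lw
  (.nd 2 99 (.nd 2 59 (.lf ⟨⟨386, 256, 942, 263, 256, 344, 197⟩, 315, 256, 171, 194, [h5, h0 7470], 17, ca6_61, 0, 0⟩)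
  (.lf ⟨⟨509, 256, 605, 314, 256, 296, 173⟩, 361, 256, 154, 163, [h5, h0 6830], 12, ca6_62, 0, 0⟩))
  (.nd 2 159 (.nd 2 129 (.nd 2 114 (.lf ⟨⟨565, 256, 522, 360, 256, 264, 155⟩, 381, 256, 148, 152, [h5, h0 6706], 12, ca6_63, 0, 0⟩)
  (.nd 2 121 (.lf ⟨⟨593, 256, 489, 380, 256, 252, 149⟩, 390, 256, 145, 147, [h5, h0 6654], 12, ca6_64, 0, 0⟩)
  (.lf ⟨⟨626, 256, 455, 389, 256, 247, 146⟩, 401, 256, 142, 142, [h5, h0 6586], 12, ca6_65, 0, 0⟩)))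
  (.nd 2 144 (.nd 2 136 (.lf ⟨⟨658, 256, 426, 400, 256, 241, 143⟩, 411, 256, 139, 137, [h5, h0 6530], 12, ca6_66, 0, 0⟩)
  (.lf ⟨⟨695, 256, 397, 410, 256, 236, 140⟩, 422, 256, 136, 133, [h5, h0 6474], 17, ca6_67, 0, 0⟩))
  (.lf ⟨⟨771, 256, 349, 421, 256, 230, 138⟩, 445, 256, 131, 123, [h5, h0 6370], 17, ca6_68, 0, 0⟩)))
  (.nd 2 200 (.lf ⟨⟨1024, 256, 249, 444, 256, 220, 132⟩, 512, 256, 116, 101, [h5, h0 6146], 0, ca6_69, 0, 0⟩)
  (.nd 2 300 (.nd 2 250 (.lf ⟨⟨1449, 256, 168, 512, 256, 194, 117⟩, 609, 256, 101, 79, [h5, h0 5992], 0, ca6_70, 0, 0⟩)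
  (.lf ⟨⟨2048, 256, 115, 608, 256, 166, 102⟩, 725, 256, 87, 61, [h5, h0 5906], 0, ca6_71, 0, 0⟩))
  (.lf ⟨⟨0, 0, 0, 724, 256, 141, 88⟩, 0, 0, 0, 0, [h5, h0 5604], 0, ca6_72, 0, 0⟩))))))

noncomputable def a22_14 : T5 :=
  (.nd 2 99 (.nd 2 59 (.lf ⟨⟨386, 256, 942, 256, 256, 351, 200⟩, 315, 256, 171, 194, [h5, h0 7456], 0, ca6_73, 0, 0⟩)
  (.lf ⟨⟨509, 256, 605, 314, 256, 296, 173⟩, 361, 256, 154, 163, [h5, h0 6830], 0, ca6_74, 0, 0⟩))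
  (.nd 2 159 (.lf ⟨⟨771, 256, 349, 360, 256, 264, 155⟩, 445, 256, 131, 123, [h5, h0 6302], 0, ca6_75, 0, 0⟩)
  (.nd 2 200 (.lf ⟨⟨1024, 256, 249, 444, 256, 220, 132⟩, 512, 256, 116, 101, [h5, h0 6146], 0, ca6_76, 0, 0⟩)
  (.nd 2 300 (.lf ⟨⟨2048, 256, 115, 512, 256, 194, 117⟩, 725, 256, 87, 61, [h5, h0 5850], 0, ca6_77, 0, 0⟩)
  (.lf ⟨⟨0, 0, 0, 724, 256, 141, 88⟩, 0, 0, 0, 0, [h5, h0 5604], 0, ca6_78, 0, 0⟩)))))

theorem sa22 : SA cs22.st (bxL 770 777) :=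
  sa_nd 100 (sa_rc 1 2 0 1 67575643 2601 a22_0 (by decide +kernel)) <|
  sa_nd 200 (sa_rc 2 4 0 1 33787821 2501 a22_1 (by decide +kernel)) <|
  sa_nd 300 (sa_rc 4 8 0 1 25963832 2463 a22_2 (by decide +kernel)) <|
  sa_nd 389 (sa_rc 8 14 1 2 2464130352615873 5113 a22_3 (by decide +kernel)) <|
  sa_nd 489 (sa_rc 15 29 0 1 6956836 2273 a22_4 (by decide +kernel)) <|
  sa_nd 589 (sa_rc 30 59 1 2 747983617157189 4941 a22_5 (by decide +kernel)) <|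
  sa_nd 689 (sa_rc 60 118 1 1 182080350 2744 a22_6 (by decide +kernel)) <|
  sa_nd 789 (sa_rc 119 237 1 1 182080350 2744 a22_7 (by decide +kernel)) <|
  sa_nd 889 (sa_rc 238 474 1 1 182080350 2744 a22_8 (by decide +kernel)) <|
  sa_nd 989 (sa_rc 475 948 1 1 182080350 2744 a22_9 (by decide +kernel)) <|
  sa_nd 1089 (sa_rc 949 1897 1 1 174663147 2738 a22_10 (by decide +kernel)) <|
  sa_nd 1189 (sa_rc 1898 3795 1 1 162966478 2728 a22_11 (by decide +kernel)) <|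
  sa_nd 1239 (sa_rc 3796 5367 2 1 622809502401 3918 a22_12 (by decide +kernel)) <|
  sa_nd 1289 (sa_rc 5368 7590 2 1 465503158353 3876 a22_13 (by decide +kernel)) <|
  sa_no a22_14 (by decide +kernel)

noncomputable def a23_0 : T5 :=
  (.nd 2 2522 .lw
  (.lf ⟨⟨0, 0, 0, 6251, 1, 1, 1⟩, 0, 0, 0, 0, [h5, h0 5884, f10], 26, ca6_0, 0, 0⟩))

noncomputable def a23_1 : T5 :=
  (.nd 2 2322 .lw
  (.lf ⟨⟨0, 0, 0, 50012, 16, 1, 1⟩, 0, 0, 0, 0, [h5, h0 5884, f10], 26, ca6_1, 0, 0⟩))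

noncomputable def a23_2 : T5 :=
  (.nd 2 2180 .lw
  (.lf ⟨⟨0, 0, 0, 30573, 16, 1, 1⟩, 0, 0, 0, 0, [h5, h0 5884, f8], 26, ca6_79, 0, 0⟩))

noncomputable def a23_3 : T5 :=
  (.nd 2 2010 .lw
  (.lf ⟨⟨0, 0, 0, 16961, 16, 1, 1⟩, 0, 0, 0, 0, [h5, h0 5884, f11], 26, ca6_80, 0, 0⟩))

noncomputable def a23_4 : T5 :=
  (.nd 2 1796 .lw
  (.lf ⟨⟨0, 0, 0, 8079, 16, 1, 1⟩, 0, 0, 0, 0, [h5, h0 5884, f7], 24, ca6_6, 0, 0⟩))

noncomputable def a23_5 : T5 :=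
  (.nd 2 1601 .lw
  (.nd 2 1867 (.nd 2 1734 (.nd 2 1667 (.lf ⟨⟨0, 0, 0, 4110, 16, 2, 2⟩, 0, 0, 0, 0, [h5, h0 5882], 11, ca6_81, 0, 0⟩)
  (.lf ⟨⟨0, 0, 0, 5166, 16, 2, 1⟩, 0, 0, 0, 0, [h5, h0 5882, f6], 12, ca6_8, 0, 0⟩))
  (.lf ⟨⟨0, 0, 0, 6517, 16, 2, 1⟩, 0, 0, 0, 0, [h5, h0 5882, f6], 12, ca6_8, 0, 0⟩))
  (.lf ⟨⟨0, 0, 0, 10333, 16, 1, 1⟩, 0, 0, 0, 0, [h5, h0 5884, f6], 0, ca6_9, 0, 0⟩)))

noncomputable def a23_6 : T5 :=
  (.nd 2 1380 .lw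
  (.nd 2 1610 (.nd 2 1495 (.nd 2 1437 (.nd 2 1408 (.lf ⟨⟨0, 0, 0, 1910, 16, 4, 3⟩, 33690, 256, 2, 0, [h5, h0 5878], 22, ca6_82, 0, 0⟩)
  (.nd 2 1422 (.lf ⟨⟨0, 0, 0, 2105, 16, 4, 3⟩, 35365, 256, 2, 0, [h5, h0 5878], 22, ca6_83, 0, 0⟩)
  (.lf ⟨⟨0, 0, 0, 2210, 16, 4, 3⟩, 37252, 256, 1, 0, [h5, h0 5878], 17, ca6_84, 0, 0⟩)))
  (.lf ⟨⟨0, 0, 0, 2328, 16, 3, 2⟩, 45545, 256, 1, 0, [h5, h0 5880], 17, ca6_84, 0, 0⟩))
  (.lf ⟨⟨0, 0, 0, 2846, 16, 3, 2⟩, 67848, 256, 1, 0, [h5, h0 5880], 17, ca6_85, 0, 0⟩))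
  (.lf ⟨⟨0, 0, 0, 4240, 16, 2, 2⟩, 0, 0, 0, 0, [h5, h0 5882, f6], 0, ca6_14, 0, 0⟩)))

noncomputable def a23_7 : T5 :=
  (.nd 2 1182 .lw
  (.nd 2 1379 (.nd 2 1280 (.nd 2 1231 (.nd 2 1206 (.lf ⟨⟨0, 0, 0, 15393, 256, 8, 5⟩, 16729, 256, 4, 0, [h5, h0 5870], 22, ca6_15, 0, 0⟩)
  (.lf ⟨⟨0, 0, 0, 1045, 16, 7, 5⟩, 18243, 256, 4, 0, [h5, h0 5872], 17, ca6_86, 0, 0⟩))
  (.lf ⟨⟨0, 0, 0, 1140, 16, 7, 5⟩, 21619, 256, 3, 0, [h5, h0 5872], 17, ca6_87, 0, 0⟩))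
  (.lf ⟨⟨0, 0, 0, 1351, 16, 6, 4⟩, 30468, 256, 2, 0, [h5, h0 5874], 17, ca6_88, 0, 0⟩))
  (.lf ⟨⟨0, 0, 0, 1904, 16, 4, 3⟩, 0, 0, 0, 0, [h5, h0 5878], 17, ca6_19, 0, 0⟩)))

noncomputable def a23_8 : T5 :=
  (.nd 2 982 .lw
  (.nd 2 1145 (.nd 2 1063 (.nd 2 1022 (.lf ⟨⟨0, 0, 0, 7696, 256, 15, 10⟩, 8842, 256, 8, 0, [h5, h0 5856], 22, ca6_89, 0, 0⟩)
  (.lf ⟨⟨0, 0, 0, 8841, 256, 13, 9⟩, 10191, 256, 7, 0, [h5, h0 5860], 17, ca6_90, 0, 0⟩))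
  (.lf ⟨⟨0, 0, 0, 10190, 256, 11, 8⟩, 13541, 256, 5, 0, [h5, h0 5864], 17, ca6_91, 0, 0⟩))
  (.lf ⟨⟨0, 0, 0, 13540, 256, 9, 6⟩, 0, 0, 0, 0, [h5, h0 5868], 17, ca6_92, 0, 0⟩)))

noncomputable def a23_9 : T5 :=
  (.nd 2 780 .lw
  (.nd 2 801 (.lf ⟨⟨65992, 256, 3, 3821, 256, 29, 19⟩, 4111, 256, 17, 2, [h5, h0 5838], 22, ca6_93, 0, 0⟩)
  (.nd 2 934 (.nd 2 867 (.nd 2 834 (.nd 2 817 (.lf ⟨⟨73732, 256, 3, 4110, 256, 27, 18⟩, 4345, 256, 16, 2, [h5, h0 5842], 22, ca6_24, 0, 0⟩)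
  (.nd 2 825 (.lf ⟨⟨77936, 256, 2, 4344, 256, 26, 17⟩, 4467, 256, 16, 2, [h5, h0 5842], 17, ca6_24, 0, 0⟩)
  (.lf ⟨⟨82953, 256, 2, 4466, 256, 25, 17⟩, 4609, 256, 15, 2, [h5, h0 5844], 17, ca6_24, 0, 0⟩)))
  (.nd 2 850 (.lf ⟨⟨92682, 256, 2, 4608, 256, 24, 16⟩, 4871, 256, 14, 2, [h5, h0 5846], 17, ca6_24, 0, 0⟩)
  (.lf ⟨⟨104273, 256, 2, 4870, 256, 23, 15⟩, 5167, 256, 13, 1, [h5, h0 5846], 17, ca6_25, 0, 0⟩)))
  (.lf ⟨⟨165906, 256, 1, 5166, 256, 22, 14⟩, 6518, 256, 11, 1, [h5, h0 5846], 17, ca6_94, 0, 0⟩))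
  (.nd 2 1089 (.lf ⟨⟨0, 0, 0, 6517, 256, 17, 12⟩, 11152, 256, 6, 0, [h5, h0 5852], 17, ca6_95, 0, 0⟩)
  (.lf ⟨⟨0, 0, 0, 11151, 256, 10, 7⟩, 0, 0, 0, 0, [h5, h0 5866], 0, ca6_96, 0, 0⟩)))))

noncomputable def a23_10 : T5 :=
  (.nd 2 576 .lw
  (.nd 2 600 (.lf ⟨⟨16384, 256, 13, 1884, 256, 57, 37⟩, 2048, 256, 33, 10, [h5, h0 5818], 22, ca6_97, 0, 0⟩)
  (.nd 2 700 (.nd 2 650 (.nd 2 625 (.nd 2 612 (.lf ⟨⟨17806, 256, 12, 2048, 256, 53, 34⟩, 2135, 256, 32, 9, [h5, h0 5822], 17, ca6_98, 0, 0⟩)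
  (.lf ⟨⟨19484, 256, 11, 2134, 256, 51, 33⟩, 2234, 256, 31, 9, [h5, h0 5824], 17, ca6_98, 0, 0⟩))
  (.nd 2 637 (.lf ⟨⟨21174, 256, 10, 2233, 256, 49, 32⟩, 2329, 256, 30, 8, [h5, h0 5824], 17, ca6_98, 0, 0⟩)
  (.lf ⟨⟨23171, 256, 9, 2328, 256, 47, 31⟩, 2436, 256, 28, 7, [h5, h0 5824], 17, ca6_98, 0, 0⟩)))
  (.nd 2 675 (.lf ⟨⟨27555, 256, 8, 2435, 256, 45, 29⟩, 2656, 256, 26, 6, [h5, h0 5824], 17, ca6_99, 0, 0⟩)
  (.lf ⟨⟨32768, 256, 6, 2655, 256, 41, 27⟩, 2897, 256, 24, 5, [h5, h0 5826], 17, ca6_34, 0, 0⟩)))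
  (.nd 2 801 (.nd 2 750 (.lf ⟨⟨46341, 256, 4, 2896, 256, 38, 25⟩, 3445, 256, 20, 4, [h5, h0 5826], 17, ca6_34, 0, 0⟩)
  (.lf ⟨⟨65992, 256, 3, 3444, 256, 32, 21⟩, 4111, 256, 17, 2, [h5, h0 5832], 17, ca6_36, 0, 0⟩))
  (.lf ⟨⟨0, 0, 0, 4110, 256, 27, 18⟩, 0, 0, 0, 0, [h5, h0 5832], 0, ca6_100, 0, 0⟩)))))

noncomputable def a23_11 : T5 :=
  (.nd 2 366 .lw
  (.nd 2 400 (.lf ⟨⟨4096, 256, 55, 910, 256, 114, 72⟩, 1024, 256, 64, 35, [h5, h0 5838], 17, ca6_101, 0, 0⟩)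
  (.nd 2 500 (.nd 2 450 (.nd 2 425 (.lf ⟨⟨4871, 256, 46, 1024, 256, 102, 65⟩, 1117, 256, 59, 30, [h5, h0 5834], 17, ca6_102, 0, 0⟩)
  (.lf ⟨⟨5793, 256, 39, 1116, 256, 94, 60⟩, 1218, 256, 55, 26, [h5, h0 5828], 17, ca6_40, 0, 0⟩))
  (.nd 2 475 (.lf ⟨⟨6889, 256, 32, 1217, 256, 87, 56⟩, 1328, 256, 50, 22, [h5, h0 5820], 17, ca6_103, 0, 0⟩)
  (.nd 2 487 (.lf ⟨⟨7487, 256, 30, 1327, 256, 80, 51⟩, 1385, 256, 48, 21, [h5, h0 5828], 17, ca6_104, 0, 0⟩)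
  (.lf ⟨⟨8192, 256, 27, 1384, 256, 77, 49⟩, 1449, 256, 46, 19, [h5, h0 5824], 17, ca6_105, 0, 0⟩))))
  (.nd 2 600 (.nd 2 550 (.nd 2 525 (.lf ⟨⟨9742, 256, 23, 1448, 256, 74, 47⟩, 1580, 256, 43, 16, [h5, h0 5816], 17, ca6_43, 0, 0⟩)
  (.nd 2 537 (.lf ⟨⟨10587, 256, 21, 1579, 256, 68, 44⟩, 1647, 256, 41, 15, [h5, h0 5822], 17, ca6_43, 0, 0⟩)
  (.lf ⟨⟨11586, 256, 19, 1646, 256, 65, 42⟩, 1723, 256, 39, 14, [h5, h0 5822], 17, ca6_43, 0, 0⟩)))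
  (.nd 2 575 (.nd 2 562 (.lf ⟨⟨12591, 256, 17, 1722, 256, 63, 40⟩, 1796, 256, 38, 13, [h5, h0 5820], 17, ca6_43, 0, 0⟩)
  (.lf ⟨⟨13778, 256, 16, 1795, 256, 60, 39⟩, 1879, 256, 36, 12, [h5, h0 5822], 17, ca6_106, 0, 0⟩))
  (.lf ⟨⟨16384, 256, 13, 1878, 256, 58, 37⟩, 2048, 256, 33, 10, [h5, h0 5816], 0, ca6_107, 0, 0⟩)))
  (.lf ⟨⟨0, 0, 0, 2048, 256, 53, 34⟩, 0, 0, 0, 0, [h5, h0 5780], 0, ca6_108, 0, 0⟩)))))

noncomputable def a23_12 : T5 :=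
  (.nd 2 250 .lw
  (.nd 2 300 (.nd 2 275 (.lf ⟨⟨1723, 256, 139, 608, 256, 166, 102⟩, 664, 256, 94, 69, [h5, h0 5970], 17, ca6_109, 0, 0⟩)
  (.lf ⟨⟨2048, 256, 115, 663, 256, 153, 95⟩, 725, 256, 87, 61, [h5, h0 5932], 22, ca6_110, 0, 0⟩))
  (.nd 2 400 (.nd 2 350 (.nd 2 325 (.nd 2 312 (.lf ⟨⟨2226, 256, 105, 724, 256, 141, 88⟩, 755, 256, 84, 57, [h5, h0 5928], 17, ca6_111, 0, 0⟩)
  (.lf ⟨⟨2436, 256, 96, 754, 256, 136, 85⟩, 790, 256, 80, 53, [h5, h0 5912], 17, ca6_112, 0, 0⟩))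
  (.lf ⟨⟨2897, 256, 80, 789, 256, 131, 82⟩, 862, 256, 75, 46, [h5, h0 5876], 17, ca6_113, 0, 0⟩))
  (.nd 2 375 (.lf ⟨⟨3445, 256, 66, 861, 256, 120, 76⟩, 940, 256, 69, 40, [h5, h0 5858], 17, ca6_114, 0, 0⟩)
  (.lf ⟨⟨4096, 256, 55, 939, 256, 111, 70⟩, 1024, 256, 64, 35, [h5, h0 5844], 0, ca6_115, 0, 0⟩)))
  (.nd 2 500 (.lf ⟨⟨8192, 256, 27, 1024, 256, 102, 65⟩, 1449, 256, 46, 19, [h5, h0 5774], 0, ca6_116, 0, 0⟩)
  (.lf ⟨⟨0, 0, 0, 1448, 256, 74, 47⟩, 0, 0, 0, 0, [h5, h0 5738], 0, ca6_117, 0, 0⟩)))))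

noncomputable def a23_13 : T5 :=
  (.nd 2 62 .lw
  (.nd 2 99 (.lf ⟨⟨509, 256, 605, 317, 256, 294, 171⟩, 361, 256, 154, 163, [h5, h0 6834], 17, ca6_118, 0, 0⟩)
  (.nd 2 159 (.nd 2 129 (.nd 2 114 (.lf ⟨⟨565, 256, 522, 360, 256, 264, 155⟩, 381, 256, 148, 152, [h5, h0 6706], 17, ca6_63, 0, 0⟩)
  (.nd 2 121 (.lf ⟨⟨593, 256, 489, 380, 256, 252, 149⟩, 390, 256, 145, 147, [h5, h0 6654], 22, ca6_65, 0, 0⟩)
  (.lf ⟨⟨626, 256, 455, 389, 256, 247, 146⟩, 401, 256, 142, 142, [h5, h0 6586], 22, ca6_119, 0, 0⟩)))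
  (.nd 2 144 (.nd 2 136 (.lf ⟨⟨658, 256, 426, 400, 256, 241, 143⟩, 411, 256, 139, 137, [h5, h0 6530], 22, ca6_120, 0, 0⟩)
  (.lf ⟨⟨695, 256, 397, 410, 256, 236, 140⟩, 422, 256, 136, 133, [h5, h0 6474], 17, ca6_121, 0, 0⟩))
  (.lf ⟨⟨771, 256, 349, 421, 256, 230, 138⟩, 445, 256, 131, 123, [h5, h0 6370], 17, ca6_122, 0, 0⟩)))
  (.nd 2 200 (.nd 2 179 (.lf ⟨⟨886, 256, 295, 444, 256, 220, 132⟩, 477, 256, 123, 112, [h5, h0 6260], 17, ca6_123, 0, 0⟩)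
  (.lf ⟨⟨1024, 256, 249, 476, 256, 207, 125⟩, 512, 256, 116, 101, [h5, h0 6172], 0, ca6_124, 0, 0⟩))
  (.nd 2 300 (.nd 2 250 (.nd 2 225 (.lf ⟨⟨1218, 256, 204, 512, 256, 194, 117⟩, 559, 256, 108, 89, [h5, h0 6084], 0, ca6_125, 0, 0⟩)
  (.nd 2 237 (.lf ⟨⟨1324, 256, 185, 558, 256, 179, 109⟩, 583, 256, 105, 84, [h5, h0 6066], 0, ca6_126, 0, 0⟩)
  (.lf ⟨⟨1449, 256, 168, 582, 256, 173, 106⟩, 609, 256, 101, 79, [h5, h0 6034], 0, ca6_127, 0, 0⟩)))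
  (.lf ⟨⟨2048, 256, 115, 608, 256, 166, 102⟩, 725, 256, 87, 61, [h5, h0 5906], 0, ca6_128, 0, 0⟩))
  (.nd 2 400 (.lf ⟨⟨4096, 256, 55, 724, 256, 141, 88⟩, 1024, 256, 64, 35, [h5, h0 5784], 0, ca6_129, 0, 0⟩)
  (.lf ⟨⟨0, 0, 0, 1024, 256, 102, 65⟩, 0, 0, 0, 0, [h5, h0 5682], 0, ca6_130, 0, 0⟩)))))))

noncomputable def a23_14 : T5 :=
  (.nd 2 99 (.nd 2 59 (.lf ⟨⟨386, 256, 942, 256, 256, 351, 200⟩, 315, 256, 171, 194, [h5, h0 7456], 0, ca6_73, 0, 0⟩)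
  (.lf ⟨⟨509, 256, 605, 314, 256, 296, 173⟩, 361, 256, 154, 163, [h5, h0 6830], 0, ca6_131, 0, 0⟩))
  (.nd 2 159 (.lf ⟨⟨771, 256, 349, 360, 256, 264, 155⟩, 445, 256, 131, 123, [h5, h0 6302], 0, ca6_132, 0, 0⟩)
  (.nd 2 200 (.lf ⟨⟨1024, 256, 249, 444, 256, 220, 132⟩, 512, 256, 116, 101, [h5, h0 6146], 0, ca6_133, 0, 0⟩)
  (.nd 2 300 (.lf ⟨⟨2048, 256, 115, 512, 256, 194, 117⟩, 725, 256, 87, 61, [h5, h0 5850], 0, ca6_134, 0, 0⟩)
  (.lf ⟨⟨0, 0, 0, 724, 256, 141, 88⟩, 0, 0, 0, 0, [h5, h0 5604], 0, ca6_135, 0, 0⟩)))))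

theorem sa23 : SA cs23.st (bxL 776 783) :=
  sa_nd 100 (sa_rc 1 2 0 1 78707621 2623 a23_0 (by decide +kernel)) <|
  sa_nd 200 (sa_rc 2 4 0 1 39353810 2523 a23_1 (by decide +kernel)) <|
  sa_nd 300 (sa_rc 4 8 0 1 29414007 2481 a23_2 (by decide +kernel)) <|
  sa_nd 392 (sa_rc 8 15 0 1 17129740 2403 a23_3 (by decide +kernel)) <|
  sa_nd 492 (sa_rc 16 30 0 1 7772784 2289 a23_4 (by decide +kernel)) <|
  sa_nd 592 (sa_rc 31 60 1 2 980152798116900 4980 a23_5 (by decide +kernel)) <|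
  sa_nd 692 (sa_rc 61 121 1 1 210610190 2765 a23_6 (by decide +kernel)) <|
  sa_nd 792 (sa_rc 122 242 1 1 213550198 2767 a23_7 (by decide +kernel)) <|
  sa_nd 892 (sa_rc 243 484 1 1 213550198 2767 a23_8 (by decide +kernel)) <|
  sa_nd 992 (sa_rc 485 968 1 1 210610190 2765 a23_9 (by decide +kernel)) <|
  sa_nd 1092 (sa_rc 969 1937 1 1 204851043 2761 a23_10 (by decide +kernel)) <|
  sa_nd 1192 (sa_rc 1938 3875 1 1 191132781 2751 a23_11 (by decide +kernel)) <|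
  sa_nd 1242 (sa_rc 3876 5480 1 1 171068631 2735 a23_12 (by decide +kernel)) <|
  sa_nd 1292 (sa_rc 5481 7750 1 1 92953122 2647 a23_13 (by decide +kernel)) <|
  sa_no a23_14 (by decide +kernel)

end Pool.Agent.MP_2339ce_nt.Q2.TB.RT
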