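import Pool.Agent.MP_2339ce_nt.Q2.RTc
import Pool.Agent.MP_2339ce_nt.Q2.RS

/-! Project Q2, block RT: staircases. -/

set_option autoImplicit false

noncomputable section

namespace Pool.Agent.MP_2339ce_nt.Q2.TB.RT

noncomputable def ca7_0 : List VW := k1 v1 (k1 v144 (k1 v418 (k1 v433 (k1 v160 (k1 v167 (k1 v586 (k0)))))))
noncomputable def ca7_1 : List VW := k1 v1 (k1 v144 (k1 v418 (k1 v434 (k1 v160 (k1 v167 (k1 v586 (k0)))))))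
noncomputable def ca7_2 : List VW := k8 v1 v144 v418 v149 v155 v160 v168 v586 (k0)
noncomputable def ca7_3 : List VW := k8 v416 v144 v417 v418 v149 v426 v160 v441 (k8 v167 v452 v174 v464 v180 v469 v186 v476 (k8 v190 v480 v195 v485 v199 v488 v202 v493 (k8 v205 v496 v207 v502 v211 v505 v513 v218 (k8 v514 v519 v224 v226 v229 v230 v232 v233 (k8 v235 v237 v240 v241 v244 v245 v248 v249 (k8 v251 v252 v254 v255 v256 v257 v259 v603 (k0)))))))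
noncomputable def ca7_4 : List VW := k8 v1 v144 v418 v149 v155 v160 v167 v586 (k0)
noncomputable def ca7_5 : List VW := k8 v1 v144 v418 v149 v152 v163 v167 v586 (k0)
noncomputable def ca7_6 : List VW := k1 v1 (k1 v144 (k1 v0 (k1 v149 (k1 v163 (k1 v167 (k1 v586 (k0)))))))
noncomputable def ca7_7 : List VW := k8 v1 v144 v418 v149 v152 v163 v441 v586 (k0)
noncomputable def ca7_8 : List VW := k8 v1 v144 v417 v421 v149 v433 v426 v160 (k8 v443 v167 v452 v174 v464 v180 v469 v186 (k8 v476 v190 v480 v195 v485 v199 v488 v202 (k8 v493 v205 v496 v207 v502 v211 v505 v513 (k8 v218 v514 v519 v224 v226 v229 v230 v232 (k8 v233 v235 v237 v239 v241 v244 v245 v247 (k1 v249 (k1 v251 (k1 v252 (k1 v254 (k1 v601 (k0)))))))))))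
noncomputable def ca7_9 : List VW := k8 v1 v144 v417 v421 v149 v433 v426 v160 (k8 v443 v167 v452 v174 v464 v180 v469 v186 (k8 v476 v190 v480 v195 v485 v199 v488 v202 (k8 v493 v205 v496 v207 v502 v211 v505 v513 (k8 v218 v514 v519 v224 v226 v229 v230 v232 (k8 v233 v235 v237 v240 v241 v244 v245 v248 (k8 v249 v251 v252 v254 v255 v256 v257 v259 (k1 v603 (k0))))))))
noncomputable def ca7_10 : List VW := k8 v1 v144 v417 v421 v149 v433 v426 v160 (k8 v443 v167 v453 v174 v464 v180 v469 v186 (k8 v476 v190 v480 v195 v485 v199 v488 v202 (k8 v493 v205 v496 v207 v502 v508 v214 v511 (k8 v516 v220 v518 v223 v226 v229 v230 v232 (k8 v233 v235 v237 v240 v241 v244 v245 v248 (k8 v249 v251 v252 v254 v255 v256 v257 v259 (k1 v260 (k1 v261 (k1 v604 (k0))))))))))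
noncomputable def ca7_11 : List VW := k8 v1 v144 v418 v149 v153 v163 v441 v586 (k0)
noncomputable def ca7_12 : List VW := k8 v1 v144 v418 v149 v152 v160 v167 v586 (k0)
noncomputable def ca7_13 : List VW := k8 v1 v144 v417 v422 v149 v433 v426 v160 (k8 v443 v167 v460 v452 v174 v464 v180 v470 (k8 v186 v476 v190 v480 v195 v485 v199 v488 (k8 v202 v493 v205 v496 v207 v502 v211 v505 (k8 v213 v511 v516 v220 v518 v223 v226 v229 (k8 v230 v232 v233 v235 v237 v240 v241 v244 (k8 v245 v247 v249 v251 v252 v254 v255 v256 (k1 v602 (k0))))))))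
noncomputable def ca7_14 : List VW := k8 v1 v144 v423 v418 v149 v433 v426 v160 (k8 v444 v167 v460 v452 v174 v465 v180 v470 (k8 v186 v476 v190 v480 v195 v485 v199 v488 (k8 v202 v493 v205 v496 v207 v502 v211 v505 (k8 v213 v511 v516 v220 v518 v223 v226 v229 (k8 v230 v232 v233 v235 v237 v240 v241 v244 (k8 v245 v248 v249 v251 v252 v254 v255 v256 (k1 v257 (k1 v259 (k1 v260 (k1 v261 (k1 v604 (k0))))))))))))
noncomputable def ca7_15 : List VW := k8 v1 v144 v417 v422 v149 v433 v426 v160 (k8 v443 v169 v453 v174 v464 v180 v470 v186 (k8 v476 v190 v480 v195 v485 v199 v488 v202 (k8 v493 v205 v496 v207 v502 v211 v505 v213 (k8 v511 v516 v220 v518 v223 v226 v229 v230 (k8 v232 v233 v235 v237 v240 v241 v244 v245 (k8 v247 v249 v251 v252 v254 v255 v256 v257 (k1 v259 (k1 v603 (k0)))))))))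
noncomputable def ca7_16 : List VW := k8 v1 v144 v417 v421 v149 v433 v426 v160 (k8 v443 v167 v453 v174 v464 v180 v470 v186 (k8 v476 v190 v480 v195 v485 v199 v488 v202 (k8 v493 v205 v496 v207 v502 v211 v505 v513 (k8 v218 v514 v519 v224 v226 v229 v230 v232 (k8 v233 v235 v237 v239 v241 v244 v245 v247 (k1 v249 (k1 v251 (k1 v252 (k1 v254 (k1 v601 (k0)))))))))))
noncomputable def ca7_17 : List VW := k8 v1 v144 v423 v418 v149 v433 v426 v161 (k8 v444 v167 v460 v452 v174 v465 v180 v470 (k8 v186 v476 v190 v480 v195 v485 v199 v488 (k8 v202 v493 v205 v496 v207 v502 v211 v505 (k8 v213 v511 v516 v220 v518 v223 v520 v225 (k8 v229 v230 v232 v233 v235 v237 v240 v241 (k8 v244 v245 v248 v249 v251 v252 v254 v255 (k1 v256 (k1 v257 (k1 v259 (k1 v260 (k1 v261 (k1 v604 (k0)))))))))))))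
noncomputable def ca7_18 : List VW := k8 v1 v144 v423 v418 v149 v433 v426 v161 (k8 v444 v167 v460 v452 v174 v465 v180 v470 (k8 v186 v476 v190 v480 v195 v485 v199 v488 (k8 v202 v493 v205 v496 v207 v502 v211 v505 (k8 v213 v511 v516 v220 v518 v223 v226 v229 (k8 v230 v232 v233 v235 v237 v239 v241 v244 (k8 v245 v247 v249 v251 v252 v254 v255 v256 (k1 v257 (k1 v259 (k1 v603 (k0))))))))))
noncomputable def ca7_19 : List VW := k8 v1 v144 v423 v418 v149 v433 v426 v160 (k8 v444 v167 v460 v452 v174 v465 v180 v470 (k8 v186 v476 v190 v480 v195 v485 v199 v488 (k8 v202 v493 v205 v496 v207 v502 v211 v505 (k8 v213 v511 v516 v220 v518 v223 v226 v229 (k8 v230 v232 v233 v235 v237 v239 v241 v244 (k8 v245 v247 v249 v251 v252 v254 v255 v256 (k1 v602 (k0))))))))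
noncomputable def ca7_20 : List VW := k8 v1 v144 v417 v422 v149 v433 v426 v160 (k8 v443 v169 v453 v174 v464 v180 v470 v186 (k8 v476 v190 v480 v195 v485 v199 v488 v202 (k8 v493 v205 v496 v207 v502 v211 v505 v513 (k8 v218 v514 v519 v224 v226 v229 v230 v232 (k8 v233 v235 v237 v239 v241 v244 v245 v247 (k1 v599 (k0)))))))
noncomputable def ca7_21 : List VW := k8 v1 v144 v423 v418 v149 v433 v426 v160 (k8 v436 v444 v167 v460 v452 v174 v465 v180 (k8 v470 v186 v476 v190 v481 v195 v485 v199 (k8 v488 v202 v493 v205 v496 v207 v502 v211 (k8 v505 v213 v511 v516 v220 v518 v223 v226 (k8 v229 v230 v232 v233 v235 v237 v239 v241 (k8 v244 v245 v247 v249 v251 v252 v254 v255 (k1 v256 (k1 v257 (k1 v259 (k1 v260 (k1 v261 (k1 v604 (k0)))))))))))))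
noncomputable def ca7_22 : List VW := k8 v1 v144 v423 v418 v149 v433 v426 v160 (k8 v436 v444 v167 v460 v452 v174 v465 v180 (k8 v470 v186 v476 v190 v481 v195 v485 v199 (k8 v488 v202 v493 v205 v496 v207 v502 v211 (k8 v505 v213 v511 v516 v220 v518 v223 v226 (k8 v229 v230 v232 v233 v235 v237 v239 v241 (k8 v244 v245 v247 v249 v251 v252 v254 v255 (k1 v256 (k1 v257 (k1 v259 (k1 v603 (k0)))))))))))
noncomputable def ca7_23 : List VW := k8 v1 v144 v423 v418 v149 v433 v426 v160 (k8 v436 v443 v167 v460 v452 v174 v465 v180 (k8 v470 v186 v476 v190 v480 v195 v485 v199 (k8 v488 v202 v493 v205 v496 v207 v502 v211 (k8 v505 v213 v511 v516 v220 v518 v223 v226 (k8 v229 v230 v232 v233 v235 v237 v239 v241 (k8 v244 v245 v247 v249 v251 v252 v254 v601 (k0)))))))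
noncomputable def ca7_24 : List VW := k8 v1 v147 v423 v418 v149 v433 v426 v160 (k8 v446 v441 v167 v460 v452 v174 v465 v180 (k8 v470 v186 v476 v190 v481 v195 v485 v199 (k8 v489 v202 v493 v205 v496 v207 v502 v211 (k8 v505 v213 v511 v516 v219 v518 v223 v226 (k8 v524 v228 v230 v528 v231 v233 v235 v237 (k8 v239 v241 v243 v245 v247 v249 v251 v600 (k0)))))))
noncomputable def ca7_25 : List VW := k8 v1 v147 v423 v418 v149 v433 v426 v160 (k8 v446 v441 v167 v460 v452 v174 v465 v180 (k8 v470 v186 v476 v190 v481 v195 v485 v199 (k8 v489 v202 v493 v205 v496 v207 v502 v211 (k8 v505 v213 v511 v516 v219 v518 v223 v226 (k8 v524 v228 v230 v528 v231 v233 v235 v237 (k8 v239 v241 v244 v245 v247 v249 v251 v252 (k8 v254 v255 v256 v257 v259 v260 v261 v604 (k0))))))))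
noncomputable def ca7_26 : List VW := k8 v1 v147 v423 v418 v149 v433 v426 v160 (k8 v446 v441 v167 v460 v452 v174 v465 v180 (k8 v470 v186 v476 v190 v481 v195 v485 v199 (k8 v489 v202 v493 v205 v496 v207 v502 v211 (k8 v505 v213 v511 v516 v219 v518 v223 v226 (k8 v524 v228 v230 v232 v233 v235 v237 v239 (k8 v241 v243 v245 v247 v249 v251 v252 v254 (k1 v255 (k1 v256 (k1 v257 (k1 v259 (k1 v260 (k1 v261 (k1 v604 (k0))))))))))))))
noncomputable def ca7_27 : List VW := k8 v1 v147 v423 v418 v149 v433 v426 v160 (k8 v446 v441 v167 v460 v452 v174 v465 v180 (k8 v470 v186 v476 v190 v481 v195 v485 v199 (k8 v489 v202 v493 v205 v496 v207 v502 v211 (k8 v505 v213 v511 v516 v220 v518 v223 v226 (k8 v524 v228 v230 v232 v233 v235 v237 v239 (k8 v241 v244 v245 v247 v249 v251 v252 v254 (k1 v255 (k1 v256 (k1 v257 (k1 v259 (k1 v260 (k1 v261 (k1 v604 (k0))))))))))))))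
noncomputable def ca7_28 : List VW := k8 v1 v144 v423 v418 v149 v433 v426 v160 (k8 v446 v441 v167 v460 v452 v174 v465 v180 (k8 v470 v186 v476 v190 v481 v195 v485 v199 (k8 v488 v202 v493 v205 v496 v207 v502 v211 (k8 v505 v213 v511 v516 v220 v518 v223 v226 (k8 v229 v230 v232 v233 v235 v237 v239 v241 (k8 v244 v245 v247 v249 v251 v252 v254 v255 (k1 v256 (k1 v257 (k1 v259 (k1 v603 (k0)))))))))))
noncomputable def ca7_29 : List VW := k8 v1 v144 v417 v422 v149 v433 v157 v160 (k8 v441 v167 v452 v174 v464 v180 v185 v186 (k1 v476 (k1 v483 (k1 v195 (k1 v200 (k1 v203 (k1 v493 (k1 v590 (k0)))))))))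
noncomputable def ca7_30 : List VW := k8 v1 v144 v275 v423 v279 v149 v433 v426 (k8 v160 v446 v441 v167 v460 v452 v174 v467 (k8 v464 v182 v473 v470 v186 v478 v476 v190 (k8 v481 v195 v485 v199 v489 v202 v493 v205 (k8 v497 v207 v502 v211 v505 v213 v511 v516 (k8 v219 v518 v223 v226 v524 v228 v230 v528 (k8 v231 v233 v531 v235 v237 v536 v239 v241 (k8 v541 v243 v245 v544 v545 v546 v547 v549 (k1 v255 (k1 v256 (k1 v257 (k1 v259 (k1 v260 (k1 v261 (k1 v604 (k0)))))))))))))))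
noncomputable def ca7_31 : List VW := k8 v1 v144 v275 v423 v279 v149 v433 v426 (k8 v160 v446 v441 v167 v460 v452 v174 v467 (k8 v464 v180 v470 v186 v478 v476 v190 v481 (k8 v195 v485 v199 v489 v202 v493 v205 v497 (k8 v207 v502 v211 v505 v213 v511 v516 v219 (k8 v518 v223 v226 v524 v228 v230 v528 v231 (k8 v233 v531 v235 v237 v536 v239 v241 v541 (k8 v243 v245 v544 v545 v546 v547 v549 v550 (k1 v553 (k1 v258 (k1 v259 (k1 v603 (k0))))))))))))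
noncomputable def ca7_32 : List VW := k8 v1 v147 v274 v423 v279 v149 v433 v426 (k8 v160 v446 v441 v167 v460 v452 v174 v467 (k8 v464 v180 v473 v470 v186 v478 v476 v190 (k8 v481 v195 v485 v199 v489 v202 v493 v205 (k8 v497 v207 v502 v211 v505 v213 v511 v516 (k8 v219 v518 v223 v226 v524 v228 v230 v528 (k8 v231 v233 v531 v235 v237 v536 v239 v241 (k8 v541 v243 v245 v247 v249 v251 v252 v254 (k1 v255 (k1 v256 (k1 v257 (k1 v259 (k1 v260 (k1 v261 (k1 v604 (k0)))))))))))))))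
noncomputable def ca7_33 : List VW := k8 v1 v144 v274 v423 v418 v149 v433 v426 (k8 v160 v446 v441 v167 v460 v452 v174 v467 (k8 v464 v180 v473 v470 v186 v478 v476 v190 (k8 v481 v195 v485 v199 v489 v202 v493 v205 (k8 v497 v207 v502 v211 v505 v213 v511 v516 (k8 v219 v518 v223 v226 v524 v228 v230 v528 (k8 v231 v233 v531 v235 v237 v536 v239 v241 (k8 v541 v243 v245 v247 v249 v251 v252 v254 (k1 v255 (k1 v256 (k1 v257 (k1 v259 (k1 v260 (k1 v261 (k1 v604 (k0)))))))))))))))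
noncomputable def ca7_34 : List VW := k8 v1 v144 v274 v423 v418 v149 v433 v426 (k8 v160 v446 v441 v167 v460 v452 v174 v467 (k8 v464 v180 v470 v186 v478 v476 v190 v481 (k8 v195 v485 v199 v489 v202 v493 v205 v497 (k8 v207 v502 v211 v505 v213 v511 v516 v219 (k8 v518 v223 v226 v524 v228 v230 v528 v231 (k8 v233 v531 v235 v237 v536 v239 v241 v243 (k8 v245 v247 v249 v251 v252 v254 v255 v256 (k1 v257 (k1 v259 (k1 v260 (k1 v261 (k1 v604 (k0)))))))))))))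
noncomputable def ca7_35 : List VW := k8 v1 v144 v274 v423 v418 v149 v433 v426 (k8 v160 v446 v441 v167 v460 v452 v178 v465 (k8 v180 v470 v186 v478 v476 v190 v481 v195 (k8 v485 v199 v489 v202 v493 v205 v497 v207 (k8 v502 v211 v505 v213 v511 v516 v219 v518 (k8 v223 v226 v524 v228 v230 v528 v231 v233 (k8 v531 v235 v237 v239 v241 v243 v245 v247 (k8 v249 v251 v252 v254 v255 v256 v257 v259 (k1 v260 (k1 v261 (k1 v604 (k0)))))))))))
noncomputable def ca7_36 : List VW := k8 v1 v144 v274 v423 v418 v149 v433 v426 (k8 v160 v446 v441 v167 v460 v452 v178 v465 (k8 v180 v470 v186 v476 v190 v481 v195 v485 (k8 v199 v489 v202 v493 v205 v497 v207 v502 (k8 v211 v505 v213 v511 v516 v219 v518 v223 (k8 v226 v524 v228 v230 v528 v231 v233 v235 (k8 v237 v239 v241 v243 v245 v247 v249 v251 (k1 v252 (k1 v254 (k1 v255 (k1 v256 (k1 v257 (k1 v259 (k1 v603 (k0))))))))))))))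
noncomputable def ca7_37 : List VW := k8 v1 v144 v274 v423 v418 v149 v433 v426 (k8 v160 v446 v441 v167 v460 v452 v174 v465 (k8 v180 v470 v186 v476 v190 v481 v195 v485 (k8 v199 v489 v202 v493 v205 v496 v207 v502 (k8 v211 v505 v213 v511 v516 v220 v518 v223 (k8 v226 v524 v228 v230 v528 v231 v233 v235 (k8 v237 v239 v241 v244 v245 v247 v249 v251 (k8 v252 v254 v255 v256 v257 v259 v260 v261 (k1 v604 (k0)))))))))
noncomputable def ca7_38 : List VW := k8 v277 v144 v275 v423 v0 v149 v433 v292 (k8 v157 v161 v446 v306 v167 v462 v562 v170 (k8 v174 v337 v464 v182 v473 v184 v186 v351 (k8 v67 v192 v481 v195 v485 v199 v489 v202 (k8 v493 v205 v86 v207 v502 v211 v214 v511 (k8 v217 v220 v518 v223 v225 v524 v228 v230 (k8 v528 v231 v233 v531 v235 v237 v536 v239 (k8 v241 v541 v243 v245 v544 v545 v546 v547 (k1 v549 (k1 v255 (k1 v553 (k1 v257 (k1 v556 (k1 v603 (k0))))))))))))))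
noncomputable def ca7_39 : List VW := k8 v276 v144 v275 v423 v0 v149 v433 v291 (k8 v157 v161 v446 v305 v167 v462 v562 v326 (k8 v42 v174 v336 v464 v182 v473 v343 v184 (k8 v187 v350 v476 v192 v481 v195 v485 v199 (k8 v489 v202 v493 v205 v86 v207 v502 v211 (k8 v94 v213 v511 v516 v219 v518 v223 v225 (k8 v524 v228 v230 v528 v231 v233 v531 v235 (k8 v237 v536 v239 v241 v541 v243 v245 v544 (k8 v545 v546 v547 v549 v255 v553 v257 v556 (k1 v260 (k1 v558 (k1 v604 (k0))))))))))))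
noncomputable def ca7_40 : List VW := k8 v276 v144 v275 v423 v279 v149 v433 v291 (k8 v157 v160 v446 v305 v167 v460 v452 v174 (k8 v336 v464 v182 v345 v470 v186 v350 v476 (k8 v192 v481 v195 v485 v199 v489 v202 v493 (k8 v205 v86 v207 v502 v211 v94 v213 v511 (k8 v516 v219 v518 v223 v225 v524 v228 v230 (k8 v528 v231 v233 v531 v235 v237 v536 v239 (k8 v241 v541 v243 v245 v544 v545 v546 v547 (k8 v549 v255 v256 v257 v259 v260 v261 v604 (k0)))))))))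
noncomputable def ca7_41 : List VW := k8 v1 v144 v275 v423 v279 v149 v433 v291 (k8 v157 v160 v446 v305 v168 v460 v452 v174 (k8 v336 v464 v182 v345 v470 v186 v350 v476 (k8 v192 v481 v195 v485 v199 v489 v202 v493 (k8 v205 v497 v207 v502 v211 v506 v213 v511 (k8 v516 v219 v518 v223 v226 v524 v228 v230 (k8 v528 v231 v233 v531 v235 v237 v536 v239 (k8 v241 v541 v243 v245 v544 v545 v546 v547 (k8 v549 v255 v256 v257 v259 v260 v261 v604 (k0)))))))))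
noncomputable def ca7_42 : List VW := k8 v1 v144 v275 v423 v279 v149 v433 v426 (k8 v160 v446 v305 v168 v460 v452 v174 v336 (k8 v464 v182 v345 v470 v186 v350 v476 v192 (k8 v481 v195 v485 v199 v489 v202 v493 v205 (k8 v497 v207 v502 v211 v506 v213 v511 v516 (k8 v219 v518 v223 v226 v524 v228 v230 v528 (k8 v231 v233 v531 v235 v237 v536 v239 v241 (k8 v541 v243 v245 v544 v545 v546 v547 v549 (k1 v255 (k1 v256 (k1 v257 (k1 v259 (k1 v260 (k1 v261 (k1 v604 (k0)))))))))))))))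
noncomputable def ca7_43 : List VW := k8 v1 v144 v275 v423 v279 v149 v433 v426 (k8 v160 v446 v441 v167 v460 v452 v174 v467 (k8 v464 v182 v473 v470 v186 v478 v476 v190 (k8 v481 v195 v485 v199 v489 v202 v493 v205 (k8 v497 v207 v502 v211 v506 v213 v511 v516 (k8 v219 v518 v223 v226 v524 v228 v230 v528 (k8 v231 v233 v531 v235 v237 v536 v239 v241 (k8 v541 v243 v245 v544 v545 v546 v547 v549 (k1 v551 (k1 v553 (k1 v258 (k1 v259 (k1 v260 (k1 v261 (k1 v604 (k0)))))))))))))))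
noncomputable def ca7_44 : List VW := k8 v1 v144 v275 v423 v279 v149 v433 v426 (k8 v160 v446 v441 v167 v460 v452 v174 v467 (k8 v464 v180 v473 v185 v186 v478 v476 v190 (k8 v481 v195 v485 v199 v489 v202 v493 v205 (k8 v497 v207 v502 v211 v505 v213 v511 v516 (k8 v219 v518 v223 v226 v524 v228 v230 v528 (k8 v231 v233 v531 v235 v237 v536 v239 v241 (k8 v541 v243 v245 v544 v545 v546 v547 v549 (k1 v255 (k1 v256 (k1 v257 (k1 v259 (k1 v603 (k0)))))))))))))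
noncomputable def ca7_45 : List VW := k8 v1 v144 v275 v423 v279 v149 v433 v426 (k8 v160 v446 v441 v167 v460 v452 v178 v465 (k8 v180 v470 v186 v476 v190 v481 v195 v485 (k8 v199 v489 v202 v493 v205 v497 v207 v502 (k8 v211 v214 v511 v217 v220 v518 v223 v226 (k8 v524 v228 v230 v528 v231 v233 v531 v235 (k8 v237 v536 v239 v241 v541 v543 v544 v545 (k1 v546 (k1 v600 (k0)))))))))
noncomputable def ca7_46 : List VW := k8 v1 v144 v274 v422 v149 v433 v158 v160 (k8 v443 v167 v452 v174 v464 v180 v185 v186 (k8 v476 v190 v194 v195 v200 v203 v493 v590 (k0)))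
noncomputable def ca7_47 : List VW := k8 v278 v144 v275 v274 v280 v149 v433 v293 (k8 v157 v160 v322 v446 v307 v167 v460 v329 (k8 v170 v174 v338 v182 v345 v183 v186 v352 (k8 v192 v69 v194 v195 v364 v200 v79 v202 (k8 v493 v378 v499 v209 v502 v211 v213 v511 (k8 v217 v219 v518 v223 v225 v524 v228 v230 (k8 v528 v114 v233 v401 v535 v237 v536 v125 (k8 v241 v541 v128 v245 v544 v132 v249 v546 (k1 v134 (k1 v252 (k1 v136 (k1 v601 (k0))))))))))))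
noncomputable def ca7_48 : List VW := k8 v278 v144 v275 v274 v280 v149 v433 v293 (k8 v157 v161 v437 v446 v307 v167 v460 v329 (k8 v170 v174 v338 v182 v345 v183 v186 v352 (k8 v192 v483 v71 v195 v364 v200 v79 v202 (k8 v493 v205 v86 v207 v502 v211 v213 v511 (k8 v217 v219 v518 v223 v225 v524 v228 v230 (k8 v528 v114 v233 v531 v119 v237 v536 v125 (k8 v241 v541 v128 v245 v544 v132 v249 v546 (k1 v600 (k0)))))))))
noncomputable def ca7_49 : List VW := k8 v277 v144 v275 v274 v279 v149 v433 v292 (k8 v157 v161 v437 v446 v306 v167 v460 v328 (k8 v170 v174 v337 v182 v345 v184 v186 v351 (k8 v192 v69 v357 v195 v364 v200 v79 v202 (k8 v493 v205 v86 v207 v502 v211 v213 v511 (k8 v217 v219 v518 v223 v225 v524 v228 v230 (k8 v528 v114 v233 v531 v119 v237 v536 v125 (k8 v241 v541 v128 v245 v544 v132 v249 v546 (k1 v134 (k1 v252 (k1 v136 (k1 v601 (k0))))))))))))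
noncomputable def ca7_50 : List VW := k8 v277 v144 v275 v274 v284 v149 v433 v292 (k8 v157 v161 v437 v446 v306 v167 v460 v328 (k8 v170 v174 v337 v182 v473 v184 v186 v351 (k8 v193 v483 v71 v195 v364 v200 v368 v79 (k8 v202 v493 v205 v86 v207 v502 v211 v94 (k8 v213 v511 v516 v219 v518 v223 v225 v524 (k8 v228 v230 v528 v114 v233 v531 v119 v237 (k8 v536 v125 v241 v541 v128 v245 v544 v132 (k8 v249 v546 v134 v252 v549 v255 v139 v257 (k1 v142 (k1 v603 (k0)))))))))))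
noncomputable def ca7_51 : List VW := k8 v277 v144 v275 v423 v0 v149 v433 v292 (k8 v157 v161 v437 v446 v306 v167 v460 v328 (k8 v171 v174 v337 v182 v473 v184 v186 v351 (k8 v67 v192 v483 v71 v195 v485 v199 v368 (k8 v79 v202 v493 v205 v86 v207 v502 v211 (k8 v94 v213 v511 v516 v219 v518 v223 v225 (k8 v524 v228 v230 v528 v231 v233 v531 v119 (k8 v237 v536 v239 v241 v541 v243 v245 v544 (k8 v247 v249 v546 v251 v252 v549 v255 v553 (k1 v257 (k1 v556 (k1 v603 (k0))))))))))))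
noncomputable def ca7_52 : List VW := k8 v277 v144 v275 v423 v0 v149 v433 v292 (k8 v157 v161 v446 v306 v167 v460 v328 v171 (k8 v174 v337 v182 v473 v184 v186 v351 v67 (k8 v192 v481 v195 v485 v199 v489 v202 v493 (k8 v205 v86 v207 v502 v211 v94 v213 v511 (k8 v516 v219 v518 v223 v225 v524 v228 v230 (k8 v528 v231 v233 v531 v119 v237 v536 v239 (k8 v241 v541 v243 v245 v544 v545 v546 v547 (k1 v549 (k1 v255 (k1 v553 (k1 v602 (k0))))))))))))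
noncomputable def ca7_53 : List VW := k8 v276 v144 v275 v423 v0 v149 v433 v291 (k8 v157 v160 v446 v305 v167 v460 v327 v171 (k8 v174 v336 v464 v182 v473 v184 v186 v476 (k8 v192 v481 v195 v485 v199 v489 v202 v493 (k8 v205 v86 v207 v502 v211 v214 v511 v217 (k8 v220 v518 v223 v225 v524 v228 v230 v528 (k8 v231 v233 v531 v532 v536 v239 v241 v541 (k1 v543 (k1 v544 (k1 v599 (k0))))))))))
noncomputable def ca7_54 : List VW := k8 v1 v147 v274 v279 v149 v433 v426 v161 (k8 v444 v167 v453 v174 v464 v180 v470 v186 (k8 v476 v190 v194 v195 v200 v203 v493 v205 (k1 v207 (k1 v502 (k1 v591 (k0))))))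
noncomputable def ca7_55 : List VW := k8 v7 v275 v0 v2 v299 v15 v21 v310 (k1 v30 (k1 v35 (k1 v42 (k1 v56 (k1 v59 (k1 v68 (k1 v568 (k0))))))))
noncomputable def ca7_56 : List VW := k8 v4 v424 v273 v0 v2 v428 v425 v21 (k8 v316 v166 v30 v334 v35 v42 v341 v54 (k1 v58 (k1 v59 (k1 v355 (k1 v66 (k1 v71 (k1 v367 (k1 v569 (k0)))))))))
noncomputable def ca7_57 : List VW := k8 v6 v424 v273 v0 v2 v12 v432 v561 (k8 v23 v325 v310 v265 v30 v456 v35 v42 (k8 v341 v266 v54 v472 v59 v355 v268 v66 (k8 v69 v71 v367 v75 v79 v375 v84 v86 (k1 v89 (k1 v93 (k1 v94 (k1 v389 (k1 v572 (k0)))))))))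
noncomputable def ca7_58 : List VW := k8 v278 v3 v424 v273 v281 v2 v11 v432 (k8 v561 v21 v160 v323 v308 v265 v28 v332 (k8 v330 v42 v174 v339 v266 v52 v179 v346 (k8 v59 v186 v353 v268 v64 v359 v71 v365 (k8 v269 v73 v198 v79 v373 v271 v82 v85 (k8 v86 v382 v272 v91 v94 v389 v96 v99 (k8 v391 v104 v106 v107 v108 v111 v230 v528 (k8 v114 v115 v116 v119 v120 v122 v125 v241 (k8 v540 v128 v129 v130 v132 v412 v134 v135 (k1 v581 (k0))))))))))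
noncomputable def ca7_59 : List VW := k8 v278 v147 v275 v281 v2 v429 v560 v22 (k8 v160 v323 v308 v264 v28 v332 v330 v42 (k8 v174 v339 v266 v52 v179 v346 v59 v186 (k8 v353 v267 v64 v359 v71 v195 v484 v73 (k8 v198 v79 v373 v270 v82 v85 v86 v207 (k8 v501 v91 v94 v389 v96 v99 v391 v104 (k8 v106 v107 v108 v111 v230 v528 v114 v530 (k8 v119 v120 v122 v125 v241 v126 v128 v129 (k1 v130 (k1 v132 (k1 v249 (k1 v133 (k1 v134 (k1 v135 (k1 v581 (k0)))))))))))))))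
noncomputable def ca7_60 : List VW := k8 v278 v147 v275 v285 v2 v429 v560 v22 (k8 v160 v322 v307 v264 v27 v456 v35 v42 (k8 v174 v338 v266 v51 v179 v345 v59 v186 (k8 v352 v267 v63 v358 v71 v195 v484 v72 (k8 v198 v79 v202 v492 v81 v204 v86 v207 (k8 v501 v386 v94 v388 v95 v515 v219 v517 (k8 v222 v225 v523 v111 v230 v528 v114 v115 (k8 v116 v119 v120 v122 v125 v241 v126 v128 (k8 v129 v130 v132 v249 v133 v134 v252 v136 (k1 v552 (k1 v257 (k1 v142 (k1 v260 (k1 v143 (k1 v262 (k1 v585 (k0))))))))))))))))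
noncomputable def ca7_61 : List VW := k8 v278 v144 v275 v285 v2 v429 v560 v290 (k8 v160 v322 v307 v264 v27 v456 v35 v42 (k8 v174 v338 v266 v51 v179 v345 v59 v186 (k8 v352 v267 v63 v358 v71 v195 v484 v72 (k8 v198 v79 v202 v492 v81 v204 v86 v207 (k8 v501 v90 v507 v213 v510 v515 v219 v517 (k8 v222 v225 v523 v111 v230 v528 v114 v115 (k8 v116 v119 v120 v404 v125 v241 v126 v128 (k8 v129 v410 v132 v249 v133 v134 v252 v136 (k1 v552 (k1 v257 (k1 v142 (k1 v260 (k1 v143 (k1 v604 (k0)))))))))))))))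
noncomputable def ca7_62 : List VW := k8 v278 v3 v424 v273 v280 v2 v429 v560 (k8 v290 v160 v322 v307 v264 v27 v456 v35 (k8 v42 v174 v338 v266 v51 v472 v183 v186 (k8 v352 v267 v63 v482 v70 v195 v484 v198 (k8 v79 v202 v492 v81 v204 v86 v207 v501 (k8 v90 v507 v213 v510 v216 v219 v517 v222 (k8 v225 v523 v111 v230 v528 v114 v115 v530 (k8 v119 v120 v536 v125 v241 v126 v128 v129 (k8 v410 v132 v249 v133 v134 v135 v548 v255 (k1 v139 (k1 v140 (k1 v555 (k1 v603 (k0)))))))))))))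
noncomputable def ca7_63 : List VW := k8 v278 v3 v424 v273 v0 v2 v429 v560 (k8 v290 v160 v322 v307 v264 v27 v456 v35 (k8 v42 v174 v338 v266 v51 v472 v183 v186 (k8 v352 v267 v63 v482 v70 v195 v484 v198 (k8 v79 v202 v492 v81 v204 v86 v207 v501 (k8 v210 v213 v510 v216 v219 v517 v222 v225 (k8 v523 v227 v230 v528 v114 v115 v530 v119 (k8 v120 v536 v125 v241 v126 v128 v129 v544 (k8 v131 v249 v133 v134 v135 v548 v255 v139 (k1 v140 (k1 v555 (k1 v603 (k0))))))))))))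
noncomputable def ca7_64 : List VW := k8 v278 v3 v424 v273 v0 v2 v429 v293 (k8 v157 v160 v322 v307 v167 v456 v35 v42 (k8 v174 v338 v182 v345 v183 v186 v352 v192 (k8 v69 v71 v195 v364 v200 v79 v202 v492 (k8 v81 v498 v207 v501 v210 v213 v510 v216 (k8 v219 v517 v222 v225 v523 v111 v230 v112 (k8 v114 v115 v530 v118 v237 v122 v125 v241 (k8 v126 v128 v129 v544 v131 v249 v134 v600 (k0))))))))
noncomputable def ca7_65 : List VW := k8 v278 v144 v275 v274 v0 v149 v433 v293 (k8 v157 v160 v322 v313 v167 v460 v35 v42 (k8 v174 v338 v182 v345 v183 v186 v352 v192 (k8 v69 v71 v195 v364 v200 v78 v202 v493 (k8 v205 v86 v207 v502 v211 v213 v511 v217 (k8 v219 v518 v223 v225 v524 v111 v230 v112 (k8 v231 v233 v116 v119 v121 v536 v124 v242 (k1 v541 (k1 v598 (k0)))))))))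
noncomputable def ca7_66 : List VW := k8 v278 v144 v275 v274 v280 v149 v433 v293 (k8 v157 v160 v322 v446 v307 v167 v460 v329 (k8 v170 v174 v338 v182 v345 v183 v186 v352 (k8 v192 v69 v194 v195 v364 v200 v79 v202 (k8 v493 v205 v86 v207 v502 v211 v213 v511 (k8 v217 v219 v518 v223 v225 v524 v228 v230 (k8 v528 v114 v233 v401 v235 v237 v536 v597 (k0)))))))
noncomputable def ca7_67 : List VW := k8 v276 v144 v275 v274 v279 v149 v433 v291 (k8 v157 v160 v436 v311 v167 v460 v172 v174 (k8 v336 v182 v345 v183 v186 v350 v192 v194 (k8 v195 v364 v200 v203 v493 v205 v207 v502 (k1 v591 (k0)))))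
noncomputable def ca7_68 : List VW := k8 v3 v275 v289 v13 v304 v16 v22 v319 (k1 v31 (k1 v35 (k1 v42 (k1 v56 (k1 v567 (k0))))))
noncomputable def ca7_69 : List VW := k8 v4 v7 v275 v0 v13 v304 v16 v21 (k8 v319 v31 v36 v44 v56 v59 v68 v568 (k0))
noncomputable def ca7_70 : List VW := k8 v4 v424 v273 v0 v2 v428 v425 v21 (k8 v310 v166 v30 v334 v35 v42 v341 v54 (k1 v58 (k1 v59 (k1 v355 (k1 v66 (k1 v71 (k1 v367 (k1 v569 (k0)))))))))
noncomputable def ca7_71 : List VW := k8 v4 v424 v273 v0 v2 v429 v561 v23 (k8 v316 v265 v30 v334 v35 v42 v341 v266 (k8 v54 v58 v59 v355 v66 v71 v367 v75 (k1 v79 (k1 v375 (k1 v570 (k0))))))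
noncomputable def ca7_72 : List VW := k8 v4 v424 v273 v0 v2 v297 v294 v21 (k8 v160 v314 v265 v28 v165 v330 v42 v339 (k8 v266 v52 v346 v59 v353 v268 v64 v69 (k8 v71 v365 v73 v79 v373 v82 v86 v382 (k1 v571 (k0)))))
noncomputable def ca7_73 : List VW := k8 v4 v147 v275 v0 v263 v11 v433 v561 (k8 v21 v160 v323 v308 v265 v28 v332 v330 (k8 v42 v174 v339 v266 v52 v346 v59 v353 (k8 v268 v64 v190 v71 v195 v485 v199 v79 (k8 v202 v493 v82 v499 v207 v502 v211 v213 (k8 v511 v217 v219 v518 v106 v524 v111 v528 (k1 v114 (k1 v115 (k1 v576 (k0)))))))))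
noncomputable def ca7_74 : List VW := k8 v278 v144 v275 v274 v0 v149 v433 v293 (k8 v157 v160 v322 v313 v167 v460 v329 v43 (k8 v174 v338 v182 v345 v183 v186 v352 v192 (k8 v194 v195 v364 v200 v491 v202 v493 v205 (k1 v208 (k1 v502 (k1 v211 (k1 v213 (k1 v511 (k1 v592 (k0))))))))))
noncomputable def ca7_75 : List VW := k8 v1 v144 v418 v149 v155 v160 v441 v586 (k0)
noncomputable def ca7_76 : List VW := k8 v1 v144 v417 v421 v149 v433 v426 v160 (k8 v443 v167 v452 v174 v464 v180 v469 v186 (k8 v476 v190 v480 v195 v485 v199 v488 v202 (k8 v493 v205 v496 v207 v502 v211 v505 v513 (k8 v218 v514 v519 v224 v226 v229 v230 v232 (k8 v233 v235 v237 v240 v241 v244 v245 v248 (k1 v249 (k1 v251 (k1 v252 (k1 v254 (k1 v255 (k1 v256 (k1 v602 (k0)))))))))))))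
noncomputable def ca7_77 : List VW := k8 v1 v144 v418 v149 v153 v162 v441 v586 (k0)
noncomputable def ca7_78 : List VW := k8 v1 v144 v423 v418 v149 v433 v426 v161 (k8 v444 v167 v460 v452 v174 v465 v180 v470 (k8 v186 v476 v190 v480 v195 v485 v199 v488 (k8 v202 v493 v205 v496 v207 v502 v211 v505 (k8 v213 v511 v516 v220 v518 v223 v226 v229 (k8 v230 v232 v233 v235 v237 v239 v241 v244 (k8 v245 v247 v249 v251 v252 v254 v255 v256 (k1 v602 (k0))))))))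
noncomputable def ca7_79 : List VW := k8 v1 v144 v423 v418 v149 v433 v426 v161 (k8 v444 v167 v460 v452 v174 v465 v180 v470 (k8 v186 v476 v190 v480 v195 v485 v199 v488 (k8 v202 v493 v205 v496 v207 v502 v211 v505 (k8 v213 v511 v516 v220 v518 v223 v226 v229 (k8 v230 v232 v233 v235 v237 v240 v241 v244 (k8 v245 v248 v249 v251 v252 v254 v255 v256 (k1 v257 (k1 v259 (k1 v260 (k1 v261 (k1 v604 (k0))))))))))))
noncomputable def ca7_80 : List VW := k8 v1 v144 v417 v422 v149 v433 v426 v160 (k8 v443 v169 v453 v174 v464 v180 v470 v186 (k8 v476 v190 v480 v195 v485 v199 v488 v202 (k8 v493 v205 v496 v207 v502 v211 v505 v513 (k8 v218 v514 v519 v224 v226 v229 v230 v232 (k8 v233 v235 v237 v239 v241 v244 v245 v247 (k1 v249 (k1 v251 (k1 v600 (k0)))))))))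
noncomputable def ca7_81 : List VW := k8 v1 v144 v423 v418 v149 v433 v426 v160 (k8 v436 v444 v167 v460 v452 v174 v465 v180 (k8 v470 v186 v476 v190 v481 v195 v485 v199 (k8 v488 v202 v493 v205 v496 v207 v502 v211 (k8 v505 v213 v511 v516 v220 v518 v223 v226 (k8 v229 v230 v232 v233 v235 v237 v240 v241 (k8 v244 v245 v247 v249 v251 v252 v254 v255 (k1 v256 (k1 v257 (k1 v259 (k1 v260 (k1 v261 (k1 v604 (k0)))))))))))))
noncomputable def ca7_82 : List VW := k8 v1 v144 v423 v418 v149 v433 v426 v160 (k8 v436 v443 v167 v460 v452 v174 v465 v180 (k8 v470 v186 v476 v190 v480 v195 v485 v199 (k8 v488 v202 v493 v205 v496 v207 v502 v211 (k8 v505 v213 v511 v516 v220 v518 v223 v226 (k8 v229 v230 v232 v233 v235 v237 v239 v241 (k8 v244 v245 v247 v249 v251 v252 v254 v255 (k1 v256 (k1 v602 (k0)))))))))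
noncomputable def ca7_83 : List VW := k8 v1 v147 v423 v418 v149 v433 v426 v160 (k8 v446 v441 v167 v460 v452 v174 v465 v180 (k8 v470 v186 v476 v190 v481 v195 v485 v199 (k8 v489 v202 v493 v205 v496 v207 v502 v211 (k8 v505 v213 v511 v516 v219 v518 v223 v226 (k8 v524 v228 v230 v528 v231 v233 v235 v237 (k8 v239 v241 v243 v245 v247 v249 v251 v252 (k1 v254 (k1 v255 (k1 v256 (k1 v257 (k1 v259 (k1 v603 (k0)))))))))))))
noncomputable def ca7_84 : List VW := k8 v1 v147 v423 v418 v149 v433 v426 v160 (k8 v446 v441 v167 v460 v452 v174 v465 v180 (k8 v470 v186 v476 v190 v481 v195 v485 v199 (k8 v489 v202 v493 v205 v496 v207 v502 v211 (k8 v505 v213 v511 v516 v220 v518 v223 v226 (k8 v524 v228 v230 v528 v231 v233 v235 v237 (k8 v239 v241 v243 v245 v247 v249 v251 v252 (k8 v254 v255 v256 v257 v259 v260 v261 v604 (k0))))))))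
noncomputable def ca7_85 : List VW := k8 v1 v144 v275 v423 v279 v149 v433 v426 (k8 v160 v446 v441 v167 v460 v452 v174 v467 (k8 v464 v180 v470 v186 v478 v476 v190 v481 (k8 v195 v485 v199 v489 v202 v493 v205 v497 (k8 v207 v502 v211 v505 v213 v511 v516 v219 (k8 v518 v223 v226 v524 v228 v230 v528 v231 (k8 v233 v531 v235 v237 v536 v239 v241 v541 (k8 v243 v245 v247 v249 v251 v252 v254 v255 (k1 v256 (k1 v602 (k0))))))))))
noncomputable def ca7_86 : List VW := k8 v1 v147 v274 v423 v418 v149 v433 v426 (k8 v160 v446 v441 v167 v460 v452 v174 v467 (k8 v464 v180 v473 v470 v186 v478 v476 v190 (k8 v481 v195 v485 v199 v489 v202 v493 v205 (k8 v497 v207 v502 v211 v505 v213 v511 v516 (k8 v219 v518 v223 v226 v524 v228 v230 v528 (k8 v231 v233 v531 v235 v237 v536 v239 v241 (k8 v541 v243 v245 v247 v249 v251 v252 v254 (k1 v255 (k1 v256 (k1 v257 (k1 v259 (k1 v260 (k1 v261 (k1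 v604 (k0)))))))))))))))
noncomputable def ca7_87 : List VW := k8 v1 v144 v274 v423 v418 v149 v433 v426 (k8 v160 v446 v441 v167 v460 v452 v174 v467 (k8 v464 v180 v473 v470 v186 v478 v476 v190 (k8 v481 v195 v485 v199 v489 v202 v493 v205 (k8 v497 v207 v502 v211 v505 v213 v511 v516 (k8 v219 v518 v223 v226 v524 v228 v230 v528 (k8 v231 v233 v531 v235 v237 v536 v239 v241 (k8 v243 v245 v247 v249 v251 v252 v254 v255 (k1 v256 (k1 v257 (k1 v259 (k1 v260 (k1 v261 (k1 v604 (k0))))))))))))))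
noncomputable def ca7_88 : List VW := k8 v1 v144 v274 v423 v287 v149 v433 v426 (k8 v160 v446 v441 v167 v460 v452 v174 v467 (k8 v464 v180 v473 v185 v186 v478 v476 v190 (k8 v481 v195 v485 v199 v489 v202 v493 v205 (k8 v497 v207 v502 v211 v505 v213 v511 v516 (k8 v219 v518 v223 v226 v524 v228 v230 v528 (k8 v231 v233 v531 v235 v237 v536 v239 v241 (k8 v243 v245 v247 v249 v251 v252 v254 v255 (k1 v256 (k1 v257 (k1 v259 (k1 v260 (k1 v261 (k1 v604 (k0))))))))))))))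
noncomputable def ca7_89 : List VW := k8 v1 v144 v274 v423 v418 v149 v433 v426 (k8 v160 v446 v441 v167 v460 v452 v174 v467 (k8 v464 v180 v470 v186 v478 v476 v190 v481 (k8 v195 v485 v199 v489 v202 v493 v205 v497 (k8 v207 v502 v211 v505 v213 v511 v516 v219 (k8 v518 v223 v226 v524 v228 v230 v528 v231 (k8 v233 v531 v235 v237 v239 v241 v243 v245 (k8 v247 v249 v251 v252 v254 v255 v256 v257 (k1 v259 (k1 v260 (k1 v261 (k1 v604 (k0))))))))))))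
noncomputable def ca7_90 : List VW := k8 v1 v144 v274 v423 v418 v149 v433 v426 (k8 v160 v446 v441 v167 v460 v452 v174 v465 (k8 v180 v470 v186 v476 v190 v481 v195 v485 (k8 v199 v489 v202 v493 v205 v496 v207 v502 (k8 v211 v505 v213 v511 v516 v219 v518 v223 (k8 v226 v524 v228 v230 v528 v231 v233 v235 (k8 v237 v239 v241 v243 v245 v247 v249 v251 (k1 v252 (k1 v254 (k1 v255 (k1 v256 (k1 v257 (k1 v259 (k1 v603 (k0))))))))))))))
noncomputable def ca7_91 : List VW := k8 v1 v144 v274 v422 v149 v433 v155 v160 (k8 v441 v167 v452 v174 v464 v180 v184 v186 (k1 v476 (k1 v190 (k1 v196 (k1 v200 (k1 v589 (k0)))))))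
noncomputable def ca7_92 : List VW := k8 v277 v144 v275 v423 v0 v149 v433 v292 (k8 v157 v160 v446 v306 v167 v462 v562 v170 (k8 v174 v337 v464 v182 v473 v184 v186 v351 (k8 v67 v192 v481 v195 v485 v199 v489 v202 (k8 v493 v205 v86 v207 v502 v211 v214 v511 (k8 v217 v220 v518 v223 v225 v524 v228 v230 (k8 v528 v231 v233 v531 v235 v237 v536 v239 (k8 v241 v541 v243 v245 v544 v545 v546 v547 (k1 v549 (k1 v255 (k1 v256 (k1 v602 (k0))))))))))))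
noncomputable def ca7_93 : List VW := k8 v276 v144 v275 v423 v279 v149 v433 v291 (k8 v157 v161 v446 v305 v167 v460 v327 v35 (k8 v326 v42 v174 v336 v464 v182 v473 v343 (k8 v184 v187 v350 v476 v192 v481 v195 v485 (k8 v199 v489 v202 v493 v205 v86 v207 v502 (k8 v211 v94 v213 v511 v516 v219 v518 v223 (k8 v225 v524 v228 v230 v528 v231 v233 v531 (k8 v235 v237 v536 v239 v241 v541 v243 v245 (k8 v544 v545 v546 v547 v549 v255 v553 v257 (k1 v556 (k1 v557 (k1 v558 (k1 v604 (k0)))))))))))))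
noncomputable def ca7_94 : List VW := k8 v1 v144 v275 v423 v279 v149 v433 v291 (k8 v157 v160 v446 v305 v167 v460 v452 v174 (k8 v336 v464 v182 v345 v470 v186 v350 v476 (k8 v192 v481 v195 v485 v199 v489 v202 v493 (k8 v205 v497 v207 v502 v211 v94 v214 v511 (k8 v516 v219 v518 v223 v225 v524 v228 v230 (k8 v528 v231 v233 v531 v235 v237 v536 v239 (k8 v241 v541 v243 v245 v544 v545 v546 v547 (k8 v549 v255 v256 v257 v259 v260 v261 v604 (k0)))))))))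
noncomputable def ca7_95 : List VW := k8 v1 v144 v275 v423 v279 v149 v433 v291 (k8 v157 v160 v446 v305 v168 v460 v452 v174 (k8 v336 v464 v182 v345 v470 v186 v350 v476 (k8 v192 v481 v195 v485 v199 v489 v202 v493 (k8 v205 v497 v207 v502 v211 v94 v214 v511 (k8 v516 v219 v518 v223 v226 v524 v228 v230 (k8 v528 v231 v233 v531 v235 v237 v536 v239 (k8 v241 v541 v243 v245 v544 v545 v546 v547 (k8 v549 v255 v256 v257 v259 v260 v261 v604 (k0)))))))))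
noncomputable def ca7_96 : List VW := k8 v1 v144 v275 v423 v279 v149 v433 v426 (k8 v160 v446 v441 v167 v460 v452 v174 v336 (k8 v464 v182 v345 v470 v186 v350 v476 v192 (k8 v481 v195 v485 v199 v489 v202 v493 v205 (k8 v497 v207 v502 v211 v506 v213 v511 v516 (k8 v219 v518 v223 v226 v524 v228 v230 v528 (k8 v231 v233 v531 v235 v237 v536 v239 v241 (k8 v541 v243 v245 v544 v545 v546 v547 v549 (k1 v255 (k1 v256 (k1 v257 (k1 v259 (k1 v260 (k1 v261 (k1 v604 (k0)))))))))))))))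
noncomputable def ca7_97 : List VW := k8 v1 v144 v274 v423 v279 v149 v433 v426 (k8 v160 v446 v441 v167 v460 v452 v174 v465 (k8 v180 v470 v186 v476 v190 v481 v195 v485 (k8 v199 v489 v202 v493 v205 v497 v207 v502 (k8 v211 v214 v511 v217 v220 v518 v223 v225 (k8 v524 v228 v230 v528 v231 v233 v531 v532 (k1 v536 (k1 v597 (k0))))))))
noncomputable def ca7_98 : List VW := k8 v1 v144 v274 v423 v279 v149 v433 v426 (k8 v160 v436 v443 v167 v460 v452 v174 v464 (k8 v180 v470 v186 v476 v190 v481 v195 v485 (k8 v199 v489 v202 v493 v205 v208 v502 v211 (k1 v213 (k1 v511 (k1 v217 (k1 v219 (k1 v518 (k1 v593 (k0))))))))))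
noncomputable def ca7_99 : List VW := k8 v1 v144 v274 v423 v0 v149 v433 v426 (k8 v160 v443 v167 v452 v174 v464 v180 v470 (k8 v186 v476 v190 v481 v487 v200 v203 v493 (k1 v205 (k1 v207 (k1 v502 (k1 v591 (k0)))))))
noncomputable def ca7_100 : List VW := k8 v278 v144 v275 v274 v280 v149 v433 v293 (k8 v157 v160 v322 v446 v307 v167 v460 v329 (k8 v170 v174 v338 v182 v345 v183 v186 v352 (k8 v192 v69 v71 v195 v364 v200 v79 v202 (k8 v493 v205 v86 v207 v502 v211 v213 v511 (k8 v217 v219 v518 v223 v225 v524 v228 v230 (k8 v528 v114 v233 v401 v534 v237 v536 v125 (k8 v241 v541 v128 v245 v544 v132 v249 v546 (k1 v600 (k0)))))))))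
noncomputable def ca7_101 : List VW := k8 v278 v144 v275 v274 v280 v149 v433 v293 (k8 v157 v161 v436 v446 v307 v167 v460 v329 (k8 v170 v174 v338 v182 v345 v183 v186 v352 (k8 v192 v483 v71 v195 v364 v200 v79 v202 (k8 v493 v205 v86 v207 v502 v211 v213 v511 (k8 v217 v219 v518 v223 v225 v524 v228 v230 (k8 v528 v114 v233 v531 v119 v237 v536 v125 (k8 v241 v541 v128 v245 v544 v132 v249 v546 (k1 v134 (k1 v252 (k1 v136 (k1 v601 (k0))))))))))))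
noncomputable def ca7_102 : List VW := k8 v277 v144 v275 v423 v0 v149 v433 v292 (k8 v157 v161 v437 v446 v306 v167 v460 v328 (k8 v171 v174 v337 v182 v473 v184 v186 v351 (k8 v67 v192 v483 v71 v195 v485 v199 v368 (k8 v79 v202 v493 v205 v86 v207 v502 v211 (k8 v94 v213 v511 v516 v219 v518 v223 v225 (k8 v524 v228 v230 v528 v231 v233 v531 v119 (k8 v237 v536 v239 v241 v541 v243 v245 v544 (k8 v247 v249 v546 v251 v252 v549 v255 v553 (k1 v257 (k1 v556 (k1 v259 (k1 v260 (k1 v558 (k1 v604 (k0)))))))))))))))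
noncomputable def ca7_103 : List VW := k8 v277 v144 v275 v423 v0 v149 v433 v292 (k8 v157 v161 v446 v306 v167 v460 v562 v170 (k8 v174 v337 v464 v182 v473 v184 v187 v351 (k8 v67 v192 v481 v195 v485 v199 v489 v202 (k8 v493 v205 v86 v207 v502 v211 v94 v213 (k8 v511 v516 v219 v518 v223 v225 v524 v228 (k8 v230 v528 v231 v233 v531 v235 v237 v536 (k8 v239 v241 v541 v243 v245 v544 v545 v546 (k8 v547 v549 v255 v553 v258 v556 v557 v558 (k1 v604 (k0))))))))))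
noncomputable def ca7_104 : List VW := k8 v276 v144 v275 v423 v0 v149 v433 v291 (k8 v157 v161 v446 v305 v167 v460 v562 v170 (k8 v174 v467 v464 v182 v473 v343 v59 v186 (k8 v350 v476 v192 v481 v195 v485 v199 v489 (k8 v202 v493 v205 v497 v207 v502 v211 v94 (k8 v213 v511 v516 v219 v518 v223 v226 v524 (k8 v228 v230 v528 v231 v233 v531 v235 v237 (k8 v536 v239 v241 v541 v243 v245 v544 v545 (k8 v546 v547 v549 v255 v553 v258 v556 v557 (k1 v558 (k1 v604 (k0)))))))))))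
noncomputable def ca7_105 : List VW := k8 v1 v147 v274 v283 v149 v433 v426 v160 (k8 v436 v311 v167 v460 v172 v174 v464 v180 (k8 v470 v186 v476 v190 v194 v195 v485 v199 (k1 v203 (k1 v493 (k1 v205 (k1 v208 (k1 v502 (k1 v591 (k0)))))))))
noncomputable def ca7_106 : List VW := k8 v6 v424 v273 v0 v2 v12 v432 v561 (k8 v21 v325 v310 v265 v30 v456 v35 v42 (k8 v341 v266 v54 v472 v59 v355 v268 v66 (k8 v69 v71 v367 v75 v79 v375 v84 v86 (k1 v384 (k1 v571 (k0))))))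
noncomputable def ca7_107 : List VW := k8 v278 v3 v424 v273 v281 v2 v11 v432 (k8 v561 v21 v160 v323 v308 v265 v28 v332 (k8 v330 v42 v174 v339 v266 v52 v179 v346 (k8 v59 v186 v353 v268 v64 v359 v71 v365 (k8 v269 v73 v77 v79 v373 v492 v379 v86 (k8 v382 v91 v94 v389 v96 v99 v391 v104 (k8 v106 v107 v108 v111 v230 v528 v114 v115 (k8 v116 v119 v120 v122 v125 v241 v409 v128 (k1 v129 (k1 v579 (k0))))))))))
noncomputable def ca7_108 : List VW := k8 v278 v147 v275 v281 v2 v429 v560 v22 (k8 v160 v323 v308 v264 v28 v332 v330 v42 (k8 v174 v339 v266 v52 v179 v346 v59 v186 (k8 v353 v267 v64 v359 v71 v195 v484 v73 (k8 v198 v79 v373 v270 v82 v85 v86 v207 (k8 v501 v91 v94 v389 v96 v99 v391 v104 (k8 v106 v107 v108 v111 v230 v528 v114 v530 (k8 v119 v120 v122 v125 v241 v126 v128 v129 (k1 v130 (k1 v132 (k1 v412 (k1 v134 (k1 v135 (k1 v581 (k0))))))))))))))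
noncomputable def ca7_109 : List VW := k8 v278 v147 v275 v285 v2 v429 v560 v22 (k8 v160 v322 v307 v264 v27 v456 v35 v42 (k8 v174 v338 v266 v51 v179 v345 v59 v186 (k8 v352 v267 v63 v358 v71 v195 v484 v72 (k8 v198 v79 v202 v492 v81 v204 v86 v207 (k8 v501 v210 v94 v388 v95 v515 v219 v517 (k8 v222 v225 v523 v111 v230 v528 v114 v115 (k8 v116 v119 v120 v122 v125 v241 v126 v128 (k8 v129 v130 v132 v249 v134 v252 v136 v552 (k1 v257 (k1 v142 (k1 v260 (k1 v143 (k1 v262 (k1 v585 (k0)))))))))))))))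
noncomputable def ca7_110 : List VW := k8 v278 v144 v275 v285 v2 v429 v560 v290 (k8 v160 v322 v307 v264 v27 v456 v35 v42 (k8 v174 v338 v266 v51 v179 v345 v59 v186 (k8 v352 v267 v63 v358 v71 v195 v484 v72 (k8 v198 v79 v202 v492 v81 v204 v86 v207 (k8 v501 v90 v507 v213 v510 v515 v219 v517 (k8 v222 v225 v523 v111 v230 v528 v114 v115 (k8 v116 v119 v120 v404 v125 v241 v126 v128 (k8 v129 v410 v132 v249 v134 v252 v136 v552 (k1 v257 (k1 v142 (k1 v603 (k0))))))))))))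
noncomputable def ca7_111 : List VW := k8 v278 v3 v424 v273 v280 v2 v429 v560 (k8 v290 v160 v322 v307 v264 v27 v456 v35 (k8 v42 v174 v338 v266 v51 v472 v183 v186 (k8 v352 v267 v63 v482 v70 v195 v484 v198 (k8 v79 v202 v492 v81 v204 v86 v207 v501 (k8 v90 v507 v213 v510 v216 v219 v517 v222 (k8 v225 v523 v111 v230 v528 v114 v115 v530 (k8 v119 v120 v536 v125 v241 v126 v128 v129 (k8 v410 v132 v249 v133 v134 v252 v136 v552 (k1 v257 (k1 v142 (k1 v603 (k0))))))))))))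
noncomputable def ca7_112 : List VW := k8 v278 v3 v424 v273 v280 v2 v429 v560 (k8 v290 v160 v322 v307 v264 v27 v456 v35 (k8 v42 v174 v338 v266 v51 v472 v183 v186 (k8 v352 v267 v63 v482 v70 v195 v484 v198 (k8 v79 v202 v492 v81 v204 v86 v207 v501 (k8 v90 v507 v213 v510 v216 v219 v517 v222 (k8 v225 v523 v227 v230 v528 v114 v115 v530 (k8 v119 v120 v536 v125 v241 v126 v128 v129 (k8 v544 v131 v249 v133 v134 v135 v548 v255 (k1 v139 (k1 v140 (k1 v555 (k1 v603 (k0)))))))))))))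
noncomputable def ca7_113 : List VW := k8 v278 v3 v424 v273 v280 v2 v429 v293 (k8 v157 v160 v322 v313 v167 v456 v35 v42 (k8 v174 v338 v182 v345 v183 v186 v352 v192 (k8 v69 v71 v195 v364 v200 v79 v202 v492 (k8 v378 v498 v207 v501 v210 v213 v510 v216 (k8 v219 v517 v222 v225 v523 v227 v230 v528 (k8 v114 v115 v530 v119 v121 v536 v125 v241 (k8 v409 v128 v245 v130 v132 v249 v133 v134 (k1 v135 (k1 v548 (k1 v255 (k1 v139 (k1 v602 (k0)))))))))))))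
noncomputable def ca7_114 : List VW := k8 v278 v144 v275 v274 v280 v149 v433 v293 (k8 v157 v160 v322 v446 v307 v167 v460 v329 (k8 v170 v174 v338 v182 v345 v183 v186 v352 (k8 v192 v69 v71 v195 v364 v200 v79 v202 (k8 v493 v81 v205 v86 v207 v502 v211 v213 (k8 v511 v217 v219 v518 v223 v225 v524 v228 (k8 v230 v528 v114 v233 v116 v535 v237 v404 (k8 v539 v241 v541 v128 v245 v410 v132 v249 (k1 v133 (k1 v134 (k1 v135 (k1 v549 (k1 v255 (k1 v139 (k1 v602 (k0)))))))))))))))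
noncomputable def ca7_115 : List VW := k8 v278 v144 v275 v274 v280 v149 v433 v293 (k8 v157 v160 v322 v437 v446 v307 v167 v460 (k8 v329 v170 v174 v338 v182 v345 v183 v187 (k8 v352 v192 v69 v194 v195 v364 v200 v491 (k8 v79 v202 v493 v81 v205 v86 v207 v502 (k8 v211 v94 v213 v511 v217 v220 v518 v223 (k8 v225 v524 v228 v230 v528 v231 v233 v531 (k8 v119 v237 v536 v125 v241 v541 v128 v245 (k8 v544 v132 v249 v546 v134 v252 v549 v601 (k0)))))))))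
noncomputable def ca7_116 : List VW := k8 v276 v144 v275 v274 v279 v149 v433 v291 (k8 v157 v160 v446 v305 v167 v460 v173 v174 (k8 v336 v182 v345 v183 v187 v350 v192 v481 (k8 v195 v364 v200 v368 v203 v493 v205 v208 (k1 v502 (k1 v211 (k1 v213 (k1 v511 (k1 v592 (k0)))))))))
noncomputable def ca7_117 : List VW := k8 v5 v275 v289 v13 v304 v16 v24 v319 (k1 v31 (k1 v36 (k1 v42 (k1 v56 (k1 v567 (k0))))))
noncomputable def ca7_118 : List VW := k8 v4 v7 v275 v0 v13 v304 v16 v21 (k8 v319 v31 v335 v48 v50 v56 v60 v68 (k1 v568 (k0)))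
noncomputable def ca7_119 : List VW := k8 v3 v424 v275 v0 v2 v303 v15 v21 (k8 v321 v30 v35 v42 v341 v54 v59 v355 (k1 v568 (k0)))
noncomputable def ca7_120 : List VW := k8 v4 v424 v273 v0 v2 v431 v425 v21 (k8 v310 v166 v30 v334 v35 v42 v341 v54 (k1 v58 (k1 v59 (k1 v355 (k1 v66 (k1 v71 (k1 v367 (k1 v569 (k0)))))))))
noncomputable def ca7_121 : List VW := k8 v4 v424 v273 v0 v2 v432 v561 v21 (k8 v325 v310 v265 v30 v334 v35 v42 v341 (k8 v266 v54 v58 v59 v355 v66 v71 v367 (k1 v75 (k1 v79 (k1 v375 (k1 v570 (k0)))))))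
noncomputable def ca7_122 : List VW := k8 v278 v3 v424 v273 v0 v2 v297 v294 (k8 v21 v323 v308 v265 v28 v165 v330 v42 (k8 v339 v266 v52 v346 v59 v353 v268 v64 (k8 v69 v71 v365 v73 v79 v373 v82 v86 (k1 v89 (k1 v91 (k1 v94 (k1 v389 (k1 v572 (k0)))))))))
noncomputable def ca7_123 : List VW := k8 v4 v147 v275 v0 v2 v297 v294 v22 (k8 v161 v314 v264 v28 v165 v330 v42 v339 (k8 v266 v52 v346 v59 v353 v267 v64 v69 (k8 v71 v195 v484 v198 v79 v373 v82 v86 (k8 v382 v91 v94 v389 v96 v99 v517 v106 (k1 v107 (k1 v574 (k0)))))))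
noncomputable def ca7_124 : List VW := k8 v4 v144 v275 v0 v263 v10 v296 v293 (k8 v152 v160 v307 v264 v27 v460 v563 v174 (k8 v464 v51 v345 v59 v186 v476 v63 v483 (k8 v195 v485 v199 v202 v493 v205 v86 v381 (k1 v90 (k1 v94 (k1 v511 (k1 v592 (k0))))))))
noncomputable def ca7_125 : List VW := k8 v278 v144 v275 v274 v0 v149 v433 v293 (k8 v157 v160 v322 v446 v307 v167 v460 v329 (k8 v170 v174 v338 v182 v345 v183 v186 v352 (k8 v192 v69 v71 v195 v364 v200 v491 v203 (k8 v493 v81 v499 v207 v502 v211 v213 v511 (k1 v217 (k1 v219 (k1 v518 (k1 v593 (k0)))))))))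
noncomputable def ca7_126 : List VW := k8 v416 v144 v417 v418 v149 v426 v160 v441 (k8 v167 v452 v174 v464 v180 v469 v186 v476 (k8 v190 v480 v195 v485 v199 v488 v202 v493 (k8 v205 v496 v207 v502 v508 v214 v511 v516 (k8 v220 v518 v223 v226 v229 v230 v232 v233 (k8 v235 v237 v240 v241 v244 v245 v248 v249 (k8 v251 v252 v254 v255 v256 v257 v259 v603 (k0)))))))
noncomputable def ca7_127 : List VW := k8 v416 v144 v417 v418 v149 v426 v160 v441 (k8 v167 v452 v174 v464 v180 v469 v186 v476 (k8 v190 v480 v195 v485 v199 v488 v202 v493 (k8 v205 v496 v207 v502 v508 v214 v511 v516 (k8 v220 v518 v522 v226 v229 v230 v232 v233 (k8 v236 v237 v240 v241 v244 v245 v248 v249 (k8 v251 v252 v254 v255 v256 v257 v259 v260 (k1 v261 (k1 v604 (k0)))))))))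
noncomputable def ca7_128 : List VW := k1 v1 (k1 v144 (k1 v0 (k1 v151 (k1 v163 (k1 v167 (k1 v586 (k0)))))))
noncomputable def ca7_129 : List VW := k8 v1 v144 v417 v421 v149 v433 v426 v160 (k8 v443 v167 v452 v174 v464 v180 v469 v186 (k8 v476 v190 v480 v195 v485 v199 v488 v202 (k8 v493 v205 v496 v207 v502 v211 v505 v513 (k8 v218 v514 v519 v224 v226 v229 v230 v232 (k8 v233 v235 v237 v240 v241 v244 v245 v247 (k1 v249 (k1 v251 (k1 v252 (k1 v254 (k1 v255 (k1 v256 (k1 v602 (k0)))))))))))))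
noncomputable def ca7_130 : List VW := k8 v1 v144 v417 v421 v149 v433 v426 v160 (k8 v443 v167 v453 v174 v464 v180 v469 v186 (k8 v476 v190 v480 v195 v485 v199 v488 v202 (k8 v493 v205 v496 v207 v502 v211 v505 v213 (k8 v511 v516 v220 v518 v522 v226 v229 v230 (k8 v232 v233 v236 v237 v240 v241 v244 v245 (k8 v248 v249 v251 v252 v254 v255 v256 v257 (k1 v259 (k1 v260 (k1 v261 (k1 v604 (k0)))))))))))
noncomputable def ca7_131 : List VW := k8 v1 v144 v417 v422 v149 v433 v426 v160 (k8 v443 v167 v460 v452 v174 v464 v180 v470 (k8 v186 v476 v190 v480 v195 v485 v199 v488 (k8 v202 v493 v205 v496 v207 v502 v211 v505 (k8 v213 v511 v516 v220 v518 v223 v226 v229 (k8 v230 v232 v233 v235 v237 v240 v241 v244 (k8 v245 v248 v249 v251 v252 v254 v255 v256 (k1 v602 (k0))))))))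
noncomputable def ca7_132 : List VW := k8 v1 v144 v423 v418 v149 v433 v426 v160 (k8 v444 v167 v460 v452 v174 v464 v180 v470 (k8 v186 v476 v190 v480 v195 v485 v199 v488 (k8 v202 v493 v205 v496 v207 v502 v211 v505 (k8 v213 v511 v516 v220 v518 v223 v226 v229 (k8 v230 v232 v233 v235 v237 v240 v241 v244 (k8 v245 v248 v249 v251 v252 v254 v255 v256 (k1 v257 (k1 v259 (k1 v260 (k1 v261 (k1 v604 (k0))))))))))))
noncomputable def ca7_133 : List VW := k8 v1 v144 v417 v421 v149 v433 v426 v160 (k8 v443 v167 v453 v174 v464 v180 v470 v186 (k8 v476 v190 v480 v195 v485 v199 v488 v202 (k8 v493 v205 v496 v207 v502 v211 v505 v513 (k8 v218 v514 v519 v224 v226 v229 v230 v232 (k8 v233 v235 v237 v240 v241 v244 v245 v247 (k1 v249 (k1 v251 (k1 v252 (k1 v254 (k1 v601 (k0)))))))))))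
noncomputable def ca7_134 : List VW := k8 v1 v144 v423 v418 v149 v433 v426 v161 (k8 v444 v167 v460 v452 v174 v465 v180 v470 (k8 v186 v476 v190 v480 v195 v485 v199 v488 (k8 v202 v493 v205 v496 v207 v502 v211 v505 (k8 v213 v511 v516 v220 v518 v223 v226 v229 (k8 v230 v232 v233 v235 v237 v240 v241 v244 (k8 v245 v247 v249 v251 v252 v254 v255 v256 (k1 v257 (k1 v259 (k1 v603 (k0))))))))))
noncomputable def ca7_135 : List VW := k8 v1 v144 v423 v418 v149 v433 v426 v161 (k8 v444 v167 v460 v452 v174 v465 v180 v470 (k8 v186 v476 v190 v480 v195 v485 v199 v488 (k8 v202 v493 v205 v496 v207 v502 v211 v505 (k8 v213 v511 v516 v220 v518 v223 v226 v229 (k8 v230 v232 v233 v235 v237 v240 v241 v244 (k8 v245 v247 v249 v251 v252 v254 v255 v256 (k1 v257 (k1 v259 (k1 v260 (k1 v261 (k1 v604 (k0))))))))))))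
noncomputable def ca7_136 : List VW := k8 v1 v147 v422 v149 v426 v160 v441 v461 (k1 v175 (k1 v464 (k1 v587 (k0))))
noncomputable def ca7_137 : List VW := k8 v1 v144 v423 v418 v149 v433 v426 v160 (k8 v446 v441 v167 v460 v452 v174 v465 v180 (k8 v470 v186 v476 v190 v481 v195 v485 v199 (k8 v488 v202 v493 v205 v496 v207 v502 v211 (k8 v505 v213 v511 v516 v220 v518 v223 v226 (k8 v229 v230 v232 v233 v235 v237 v239 v241 (k8 v244 v245 v247 v249 v251 v252 v254 v255 (k1 v256 (k1 v257 (k1 v259 (k1 v260 (k1 v261 (k1 v604 (k0)))))))))))))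
noncomputable def ca7_138 : List VW := k8 v1 v144 v423 v418 v149 v433 v426 v161 (k8 v444 v167 v460 v452 v174 v465 v180 v470 (k8 v186 v476 v190 v480 v195 v485 v199 v488 (k8 v202 v493 v205 v496 v207 v502 v211 v505 (k8 v213 v511 v516 v220 v518 v223 v226 v229 (k8 v230 v232 v233 v235 v237 v239 v241 v244 (k1 v245 (k1 v247 (k1 v249 (k1 v251 (k1 v252 (k1 v254 (k1 v601 (k0)))))))))))))
noncomputable def ca7_139 : List VW := k8 v1 v147 v423 v418 v149 v433 v426 v160 (k8 v446 v441 v167 v460 v452 v174 v465 v180 (k8 v470 v186 v476 v190 v481 v195 v485 v199 (k8 v489 v202 v493 v205 v496 v207 v502 v211 (k8 v505 v213 v511 v516 v219 v518 v223 v226 (k8 v524 v228 v230 v528 v231 v233 v235 v237 (k8 v239 v241 v244 v245 v247 v249 v251 v252 (k1 v254 (k1 v255 (k1 v256 (k1 v257 (k1 v259 (k1 v603 (k0)))))))))))))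
noncomputable def ca7_140 : List VW := k8 v1 v144 v417 v422 v149 v433 v156 v160 (k8 v441 v167 v452 v174 v464 v180 v185 v186 (k1 v476 (k1 v483 (k1 v195 (k1 v200 (k1 v203 (k1 v493 (k1 v590 (k0)))))))))
noncomputable def ca7_141 : List VW := k8 v1 v144 v274 v423 v279 v149 v433 v426 (k8 v160 v446 v441 v167 v460 v452 v174 v467 (k8 v464 v180 v470 v186 v478 v476 v190 v481 (k8 v195 v485 v199 v489 v202 v493 v205 v497 (k8 v207 v502 v211 v505 v213 v511 v516 v219 (k8 v518 v223 v226 v524 v228 v230 v528 v231 (k8 v233 v531 v235 v237 v536 v239 v241 v541 (k8 v243 v245 v247 v249 v251 v252 v254 v255 (k1 v256 (k1 v257 (k1 v259 (k1 v603 (k0))))))))))))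
noncomputable def ca7_142 : List VW := k8 v1 v144 v274 v423 v279 v149 v433 v426 (k8 v160 v446 v441 v167 v460 v452 v174 v467 (k8 v464 v180 v473 v185 v186 v478 v476 v190 (k8 v481 v195 v485 v199 v489 v202 v493 v205 (k8 v497 v207 v502 v211 v505 v213 v511 v516 (k8 v219 v518 v223 v226 v524 v228 v230 v528 (k8 v231 v233 v531 v235 v237 v536 v239 v241 (k8 v541 v243 v245 v247 v249 v251 v252 v254 (k1 v255 (k1 v256 (k1 v257 (k1 v259 (k1 v260 (k1 v261 (k1 v604 (k0)))))))))))))))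
noncomputable def ca7_143 : List VW := k8 v1 v144 v274 v423 v418 v149 v433 v426 (k8 v160 v446 v441 v167 v460 v452 v174 v467 (k8 v464 v180 v473 v470 v186 v478 v476 v190 (k8 v481 v195 v485 v199 v489 v202 v493 v205 (k8 v497 v207 v502 v211 v505 v213 v511 v516 (k8 v219 v518 v223 v226 v524 v228 v230 v528 (k8 v231 v233 v531 v235 v237 v239 v241 v243 (k8 v245 v247 v249 v251 v252 v254 v255 v256 (k1 v257 (k1 v259 (k1 v260 (k1 v261 (k1 v604 (k0)))))))))))))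
noncomputable def ca7_144 : List VW := k8 v1 v144 v274 v423 v418 v149 v433 v426 (k8 v160 v446 v441 v167 v460 v452 v174 v467 (k8 v464 v180 v470 v186 v478 v476 v190 v481 (k8 v195 v485 v199 v489 v202 v493 v205 v497 (k8 v207 v502 v211 v505 v213 v511 v516 v219 (k8 v518 v223 v226 v524 v228 v230 v528 v231 (k8 v233 v235 v237 v239 v241 v243 v245 v247 (k8 v249 v251 v252 v254 v255 v256 v257 v259 (k1 v260 (k1 v261 (k1 v604 (k0)))))))))))
noncomputable def ca7_145 : List VW := k8 v1 v144 v274 v423 v418 v149 v433 v426 (k8 v160 v446 v441 v167 v460 v452 v178 v465 (k8 v180 v470 v186 v476 v190 v481 v195 v485 (k8 v199 v489 v202 v493 v205 v496 v207 v502 (k8 v211 v505 v213 v511 v516 v219 v518 v223 (k8 v226 v524 v228 v230 v528 v231 v233 v235 (k8 v237 v239 v241 v244 v245 v247 v249 v251 (k8 v252 v254 v255 v256 v257 v259 v260 v261 (k1 v604 (k0)))))))))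
noncomputable def ca7_146 : List VW := k8 v1 v144 v423 v0 v149 v433 v157 v160 (k8 v441 v167 v452 v174 v464 v180 v184 v186 (k1 v476 (k1 v483 (k1 v195 (k1 v200 (k1 v589 (k0)))))))
noncomputable def ca7_147 : List VW := k8 v276 v144 v275 v423 v279 v149 v433 v291 (k8 v157 v160 v446 v305 v167 v460 v562 v326 (k8 v42 v174 v336 v464 v182 v473 v343 v184 (k8 v187 v350 v476 v192 v481 v195 v485 v199 (k8 v489 v202 v493 v205 v497 v207 v502 v211 (k8 v94 v213 v511 v516 v219 v518 v223 v226 (k8 v524 v228 v230 v528 v231 v233 v531 v235 (k8 v237 v536 v239 v241 v541 v243 v245 v544 (k8 v545 v546 v547 v549 v551 v553 v258 v556 (k1 v557 (k1 v558 (k1 v604 (k0))))))))))))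
noncomputable def ca7_148 : List VW := k8 v276 v144 v275 v423 v279 v149 v433 v291 (k8 v157 v161 v446 v317 v168 v460 v452 v174 (k8 v467 v464 v182 v345 v470 v186 v350 v476 (k8 v192 v481 v195 v485 v199 v489 v202 v493 (k8 v205 v497 v207 v502 v211 v506 v213 v511 (k8 v516 v219 v518 v223 v226 v524 v228 v230 (k8 v528 v231 v233 v531 v235 v237 v536 v239 (k8 v241 v541 v243 v245 v544 v545 v546 v547 (k8 v549 v255 v553 v258 v556 v557 v558 v604 (k0)))))))))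
noncomputable def ca7_149 : List VW := k8 v1 v144 v275 v423 v279 v149 v433 v426 (k8 v160 v446 v441 v167 v460 v452 v174 v467 (k8 v464 v182 v345 v470 v186 v350 v476 v192 (k8 v481 v195 v485 v199 v489 v202 v493 v205 (k8 v497 v207 v502 v211 v506 v213 v511 v516 (k8 v219 v518 v223 v226 v524 v228 v230 v528 (k8 v231 v233 v531 v235 v237 v536 v239 v241 (k8 v541 v243 v245 v544 v545 v546 v547 v549 (k1 v255 (k1 v256 (k1 v257 (k1 v259 (k1 v260 (k1 v261 (k1 v604 (k0)))))))))))))))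
noncomputable def ca7_150 : List VW := k8 v1 v144 v274 v423 v279 v149 v433 v426 (k8 v160 v446 v441 v167 v460 v452 v178 v465 (k8 v180 v470 v186 v476 v190 v481 v195 v485 (k8 v199 v489 v202 v493 v205 v497 v207 v502 (k8 v211 v214 v511 v217 v220 v518 v223 v226 (k8 v524 v228 v230 v528 v231 v233 v531 v532 (k8 v537 v239 v241 v541 v543 v544 v545 v546 (k1 v600 (k0))))))))
noncomputable def ca7_151 : List VW := k8 v1 v144 v274 v423 v279 v149 v433 v426 (k8 v160 v436 v444 v167 v460 v452 v174 v465 (k8 v180 v470 v186 v476 v190 v481 v195 v485 (k8 v199 v489 v202 v493 v205 v497 v207 v502 (k8 v211 v213 v511 v217 v219 v518 v223 v225 (k1 v524 (k1 v228 (k1 v230 (k1 v528 (k1 v595 (k0))))))))))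
noncomputable def ca7_152 : List VW := k8 v1 v144 v274 v423 v0 v149 v433 v426 (k8 v160 v444 v167 v453 v174 v464 v180 v470 (k8 v186 v476 v190 v194 v195 v485 v491 v202 (k1 v493 (k1 v205 (k1 v208 (k1 v502 (k1 v591 (k0))))))))
noncomputable def ca7_153 : List VW := k8 v278 v144 v275 v274 v280 v149 v433 v293 (k8 v157 v161 v437 v446 v307 v167 v460 v329 (k8 v170 v174 v338 v182 v345 v183 v186 v352 (k8 v192 v69 v71 v195 v364 v200 v79 v202 (k8 v493 v205 v86 v207 v502 v211 v213 v511 (k8 v217 v219 v518 v223 v225 v524 v228 v230 (k8 v528 v114 v233 v401 v535 v237 v536 v125 (k8 v241 v541 v128 v245 v544 v132 v249 v546 (k1 v600 (k0)))))))))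
noncomputable def ca7_154 : List VW := k8 v278 v144 v275 v274 v280 v149 v433 v293 (k8 v157 v161 v436 v446 v307 v167 v460 v329 (k8 v170 v174 v338 v182 v345 v183 v186 v352 (k8 v192 v483 v71 v195 v364 v200 v79 v202 (k8 v493 v205 v86 v207 v502 v211 v213 v511 (k8 v217 v219 v518 v223 v225 v524 v228 v230 (k8 v528 v114 v233 v531 v119 v237 v536 v125 (k8 v241 v541 v128 v245 v544 v132 v249 v546 (k1 v600 (k0)))))))))
noncomputable def ca7_155 : List VW := k8 v277 v144 v275 v274 v279 v149 v433 v292 (k8 v157 v161 v437 v446 v306 v167 v460 v328 (k8 v170 v174 v337 v182 v345 v184 v186 v351 (k8 v192 v69 v357 v195 v364 v200 v78 v79 (k8 v202 v493 v205 v86 v207 v502 v211 v94 (k8 v213 v511 v516 v219 v518 v223 v225 v524 (k8 v228 v230 v528 v114 v233 v531 v119 v237 (k8 v536 v125 v241 v541 v128 v245 v544 v132 (k8 v249 v546 v134 v252 v549 v255 v139 v602 (k0)))))))))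
noncomputable def ca7_156 : List VW := k8 v277 v144 v275 v274 v284 v149 v433 v292 (k8 v157 v161 v437 v446 v306 v167 v460 v328 (k8 v170 v174 v337 v182 v473 v184 v186 v351 (k8 v192 v69 v357 v195 v485 v199 v79 v202 (k8 v493 v205 v86 v207 v502 v211 v215 v511 (k8 v217 v221 v518 v223 v225 v524 v228 v230 (k8 v528 v114 v233 v531 v119 v237 v536 v125 (k8 v241 v541 v128 v245 v544 v132 v249 v546 (k1 v134 (k1 v252 (k1 v549 (k1 v255 (k1 v139 (k1 v602 (k0))))))))))))))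
noncomputable def ca7_157 : List VW := k8 v277 v144 v275 v274 v284 v149 v433 v292 (k8 v157 v161 v437 v446 v306 v167 v460 v328 (k8 v170 v174 v337 v182 v473 v184 v186 v351 (k8 v67 v192 v483 v71 v195 v364 v200 v368 (k8 v79 v202 v493 v205 v86 v207 v502 v211 (k8 v94 v213 v511 v516 v219 v518 v223 v225 (k8 v524 v228 v230 v528 v114 v233 v531 v119 (k8 v237 v536 v125 v241 v541 v128 v245 v544 (k8 v132 v249 v546 v134 v252 v549 v255 v553 (k1 v602 (k0))))))))))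
noncomputable def ca7_158 : List VW := k8 v277 v144 v275 v423 v0 v149 v433 v292 (k8 v157 v161 v446 v306 v167 v460 v562 v170 (k8 v174 v337 v464 v182 v473 v184 v186 v351 (k8 v67 v192 v481 v195 v485 v199 v489 v202 (k8 v493 v205 v86 v207 v502 v211 v94 v213 (k8 v511 v516 v219 v518 v223 v225 v524 v228 (k8 v230 v528 v231 v233 v531 v119 v237 v536 (k8 v239 v241 v541 v243 v245 v544 v545 v546 (k1 v547 (k1 v549 (k1 v255 (k1 v553 (k1 v257 (k1 v556 (k1 v603 (k0)))))))))))))))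
noncomputable def ca7_159 : List VW := k8 v277 v144 v275 v423 v0 v149 v433 v292 (k8 v157 v161 v446 v306 v167 v460 v562 v170 (k8 v174 v337 v464 v182 v473 v184 v187 v351 (k8 v67 v192 v481 v195 v485 v199 v489 v202 (k8 v493 v205 v86 v207 v502 v211 v94 v213 (k8 v511 v516 v219 v518 v223 v225 v524 v228 (k8 v230 v528 v231 v233 v531 v235 v237 v536 (k8 v239 v241 v541 v243 v245 v544 v545 v546 (k8 v547 v549 v551 v553 v258 v556 v557 v558 (k1 v604 (k0))))))))))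
noncomputable def ca7_160 : List VW := k8 v276 v144 v275 v423 v0 v149 v433 v291 (k8 v157 v161 v446 v305 v167 v460 v562 v170 (k8 v174 v336 v464 v182 v473 v184 v187 v350 (k8 v67 v192 v481 v195 v485 v199 v489 v202 (k8 v493 v205 v497 v207 v502 v211 v94 v213 (k8 v511 v516 v219 v518 v223 v225 v524 v228 (k8 v230 v528 v231 v233 v531 v235 v237 v536 (k8 v239 v241 v541 v243 v245 v544 v545 v546 (k8 v547 v549 v255 v553 v258 v556 v557 v558 (k1 v604 (k0))))))))))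
noncomputable def ca7_161 : List VW := k8 v276 v144 v275 v423 v0 v149 v433 v291 (k8 v157 v160 v446 v305 v167 v460 v452 v178 (k8 v465 v182 v470 v186 v476 v190 v481 v195 (k8 v485 v199 v489 v202 v493 v205 v86 v207 (k8 v502 v211 v213 v511 v217 v219 v518 v223 (k8 v225 v524 v228 v230 v528 v114 v233 v531 (k1 v532 (k1 v536 (k1 v597 (k0)))))))))
noncomputable def ca7_162 : List VW := k8 v1 v144 v275 v274 v283 v149 v433 v291 (k8 v157 v160 v438 v311 v167 v460 v452 v174 (k8 v464 v182 v470 v186 v476 v190 v481 v195 (k8 v485 v199 v79 v202 v493 v205 v86 v207 (k8 v502 v211 v213 v511 v217 v219 v518 v223 (k1 v225 (k1 v524 (k1 v594 (k0))))))))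
noncomputable def ca7_163 : List VW := k8 v1 v144 v275 v423 v0 v149 v433 v426 (k8 v160 v436 v443 v167 v460 v173 v174 v464 (k8 v180 v470 v186 v476 v190 v481 v195 v485 (k8 v199 v489 v202 v493 v205 v208 v502 v211 (k1 v213 (k1 v511 (k1 v592 (k0)))))))
noncomputable def ca7_164 : List VW := k8 v278 v3 v424 v273 v0 v2 v302 v295 (k8 v152 v21 v160 v324 v309 v265 v29 v333 (k8 v331 v42 v174 v340 v266 v53 v179 v347 (k8 v59 v186 v354 v268 v65 v360 v71 v366 (k8 v269 v74 v77 v79 v374 v492 v380 v86 (k8 v383 v92 v94 v389 v97 v99 v392 v105 (k8 v106 v394 v109 v111 v397 v113 v114 v115 (k8 v117 v119 v237 v406 v124 v241 v540 v128 (k1 v129 (k1 v579 (k0))))))))))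
noncomputable def ca7_165 : List VW := k8 v278 v3 v424 v273 v0 v2 v429 v560 (k8 v22 v160 v323 v308 v264 v28 v332 v330 (k8 v42 v174 v339 v266 v52 v179 v346 v59 (k8 v186 v353 v267 v64 v359 v71 v195 v484 (k8 v73 v198 v79 v373 v270 v82 v85 v86 (k8 v207 v501 v91 v94 v389 v96 v99 v391 (k8 v104 v106 v107 v108 v111 v230 v528 v114 (k8 v530 v119 v120 v122 v125 v241 v126 v128 (k8 v129 v130 v132 v249 v133 v134 v135 v581 (k0)))))))))
noncomputable def ca7_166 : List VW := k8 v278 v147 v275 v285 v2 v429 v560 v290 (k8 v160 v322 v307 v264 v27 v456 v35 v42 (k8 v174 v338 v266 v51 v179 v345 v59 v186 (k8 v352 v267 v63 v358 v71 v195 v484 v72 (k8 v198 v79 v202 v492 v81 v204 v86 v207 (k8 v501 v90 v507 v213 v510 v515 v219 v517 (k8 v222 v225 v523 v111 v230 v528 v114 v115 (k8 v116 v119 v120 v404 v125 v241 v126 v128 (k8 v129 v410 v132 v249 v133 v134 v252 v136 (k1 v552 (k1 v257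 (k1 v142 (k1 v260 (k1 v143 (k1 v604 (k0)))))))))))))))
noncomputable def ca7_167 : List VW := k8 v278 v3 v424 v273 v280 v2 v429 v560 (k8 v290 v160 v322 v307 v264 v27 v456 v35 (k8 v42 v174 v338 v266 v51 v472 v183 v186 (k8 v352 v267 v63 v482 v70 v195 v484 v72 (k8 v198 v79 v202 v492 v81 v204 v86 v207 (k8 v501 v90 v507 v213 v510 v216 v219 v517 (k8 v222 v225 v523 v111 v230 v528 v114 v115 (k8 v530 v119 v120 v536 v125 v241 v126 v128 (k8 v129 v410 v132 v249 v133 v134 v252 v136 (k1 v552 (k1 v257 (k1 v142 (k1 v603 (k0)))))))))))))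
noncomputable def ca7_168 : List VW := k8 v278 v3 v424 v273 v280 v2 v429 v560 (k8 v290 v160 v322 v313 v264 v27 v456 v35 (k8 v42 v174 v338 v266 v51 v472 v183 v186 (k8 v352 v267 v63 v482 v70 v195 v484 v72 (k8 v198 v79 v202 v492 v81 v204 v86 v207 (k8 v501 v90 v507 v213 v510 v216 v219 v517 (k8 v222 v225 v523 v227 v230 v528 v114 v115 (k8 v530 v119 v120 v536 v125 v241 v126 v128 (k8 v129 v544 v131 v249 v133 v134 v135 v548 (k1 v255 (k1 v139 (k1 v140 (k1 v555 (k1 v603 (k0))))))))))))))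
noncomputable def ca7_169 : List VW := k8 v278 v3 v424 v273 v280 v2 v429 v293 (k8 v157 v160 v322 v446 v307 v167 v456 v35 (k8 v42 v174 v338 v182 v345 v183 v186 v352 (k8 v192 v69 v71 v195 v364 v200 v79 v202 (k8 v492 v378 v498 v207 v501 v90 v507 v213 (k8 v510 v216 v219 v517 v222 v225 v523 v227 (k8 v230 v528 v114 v233 v116 v533 v237 v404 (k8 v125 v241 v409 v128 v245 v130 v132 v249 (k1 v133 (k1 v134 (k1 v135 (k1 v548 (k1 v255 (k1 v139 (k1 v602 (k0)))))))))))))))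
noncomputable def ca7_170 : List VW := k8 v278 v144 v275 v274 v280 v149 v433 v293 (k8 v157 v160 v322 v446 v307 v167 v460 v329 (k8 v170 v174 v338 v182 v345 v183 v186 v352 (k8 v192 v69 v71 v195 v364 v200 v79 v202 (k8 v493 v81 v205 v86 v207 v502 v90 v509 (k8 v213 v511 v516 v219 v518 v223 v225 v524 (k8 v228 v230 v528 v114 v233 v531 v119 v237 (k8 v536 v125 v241 v541 v128 v245 v544 v132 (k8 v249 v414 v134 v252 v549 v255 v139 v257 (k1 v142 (k1 v603 (k0)))))))))))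
noncomputable def ca7_171 : List VW := k8 v278 v144 v275 v274 v280 v149 v433 v293 (k8 v157 v160 v322 v437 v446 v307 v167 v460 (k8 v329 v170 v174 v338 v182 v345 v183 v186 (k8 v352 v192 v69 v194 v195 v485 v199 v369 (k8 v202 v493 v81 v205 v86 v207 v502 v211 (k8 v94 v213 v511 v217 v221 v518 v223 v225 (k8 v524 v228 v230 v528 v114 v233 v531 v119 (k8 v237 v536 v125 v241 v541 v128 v245 v544 (k8 v132 v249 v546 v134 v252 v549 v255 v139 (k1 v602 (k0))))))))))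
noncomputable def ca7_172 : List VW := k8 v277 v144 v275 v274 v279 v149 v433 v292 (k8 v157 v160 v436 v306 v169 v328 v39 v175 (k8 v337 v182 v345 v183 v186 v351 v192 v194 (k8 v195 v364 v200 v79 v202 v493 v205 v208 (k8 v502 v211 v213 v511 v217 v219 v518 v593 (k0)))))
noncomputable def ca7_173 : List VW := k8 v276 v144 v275 v274 v283 v149 v433 v291 (k8 v157 v160 v446 v305 v167 v460 v327 v170 (k8 v174 v336 v182 v345 v183 v187 v350 v192 (k8 v481 v195 v364 v200 v368 v203 v493 v205 (k8 v208 v502 v211 v213 v511 v217 v219 v518 (k1 v593 (k0))))))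
noncomputable def ca7_174 : List VW := k8 v5 v275 v289 v13 v304 v17 v24 v319 (k1 v31 (k1 v36 (k1 v42 (k1 v56 (k1 v59 (k1 v68 (k1 v568 (k0))))))))
noncomputable def ca7_175 : List VW := k8 v3 v7 v275 v0 v13 v304 v16 v21 (k8 v319 v31 v36 v42 v56 v59 v68 v568 (k0))
noncomputable def ca7_176 : List VW := k8 v4 v424 v275 v0 v13 v431 v16 v21 (k8 v319 v31 v335 v48 v50 v56 v60 v68 (k1 v568 (k0)))
noncomputable def ca7_177 : List VW := k8 v4 v424 v275 v0 v2 v303 v16 v21 (k8 v310 v31 v334 v45 v50 v56 v60 v68 (k1 v568 (k0)))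
noncomputable def ca7_178 : List VW := k8 v4 v424 v273 v0 v2 v431 v15 v21 (k8 v310 v166 v30 v334 v46 v341 v54 v60 (k1 v355 (k1 v66 (k1 v568 (k0)))))
noncomputable def ca7_179 : List VW := k8 v4 v424 v273 v0 v2 v431 v15 v21 (k8 v310 v166 v30 v334 v35 v42 v341 v54 (k1 v58 (k1 v59 (k1 v355 (k1 v66 (k1 v71 (k1 v367 (k1 v569 (k0)))))))))
noncomputable def ca7_180 : List VW := k8 v4 v424 v273 v0 v2 v431 v425 v21 (k8 v316 v166 v30 v334 v35 v42 v341 v181 (k8 v54 v58 v59 v355 v66 v71 v367 v569 (k0)))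
noncomputable def ca7_181 : List VW := k8 v6 v424 v273 v0 v2 v432 v561 v21 (k8 v325 v310 v265 v30 v334 v35 v42 v341 (k8 v266 v54 v58 v59 v356 v66 v71 v367 (k1 v75 (k1 v79 (k1 v375 (k1 v84 (k1 v86 (k1 v89 (k1 v571 (k0))))))))))
noncomputable def ca7_182 : List VW := k8 v278 v3 v424 v273 v0 v2 v297 v294 (k8 v22 v23 v323 v308 v265 v28 v332 v330 (k8 v42 v339 v266 v52 v346 v59 v353 v268 (k8 v64 v69 v71 v365 v73 v79 v373 v82 (k8 v86 v382 v91 v94 v389 v96 v99 v100 (k1 v573 (k0))))))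
noncomputable def ca7_183 : List VW := k8 v4 v147 v275 v0 v2 v429 v560 v21 (k8 v160 v323 v308 v264 v28 v165 v330 v42 (k8 v174 v339 v266 v52 v346 v59 v353 v267 (k8 v64 v69 v71 v195 v484 v198 v79 v202 (k8 v492 v379 v86 v382 v91 v94 v510 v216 (k1 v219 (k1 v517 (k1 v106 (k1 v523 (k1 v111 (k1 v397 (k1 v575 (k0))))))))))))
noncomputable def ca7_184 : List VW := k8 v4 v144 v275 v0 v263 v10 v433 v560 (k8 v21 v160 v307 v264 v27 v332 v329 v42 (k8 v174 v464 v51 v473 v59 v186 v476 v63 (k8 v190 v71 v364 v72 v491 v202 v493 v205 (k1 v86 (k1 v381 (k1 v90 (k1 v94 (k1 v511 (k1 v592 (k0))))))))))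
noncomputable def ca7_185 : List VW := k8 v278 v147 v275 v274 v280 v149 v433 v293 (k8 v157 v160 v322 v446 v307 v167 v460 v329 (k8 v170 v174 v338 v182 v345 v183 v186 v352 (k8 v192 v69 v194 v195 v364 v200 v491 v78 (k8 v202 v493 v81 v499 v207 v502 v211 v213 (k8 v511 v217 v219 v518 v223 v225 v524 v594 (k0))))))

noncomputable def a24_0 : T5 :=
  (.nd 2 2542 .lw
  (.lf ⟨⟨0, 0, 0, 6700, 1, 1, 1⟩, 0, 0, 0, 0, [h5, h0 5884, f10], 26, ca7_0, 0, 0⟩))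

noncomputable def a24_1 : T5 :=
  (.nd 2 2342 .lw
  (.lf ⟨⟨0, 0, 0, 53602, 16, 1, 1⟩, 0, 0, 0, 0, [h5, h0 5884, f10], 26, ca7_1, 0, 0⟩))

noncomputable def a24_2 : T5 :=
  (.nd 2 2198 .lw
  (.lf ⟨⟨0, 0, 0, 32541, 16, 1, 1⟩, 0, 0, 0, 0, [h5, h0 5884, f8], 26, ca7_2, 0, 0⟩))

noncomputable def a24_3 : T5 :=
  (.nd 2 2008 .lw
  (.nd 2 2342 (.nd 2 2175 (.nd 2 2091 (.nd 2 2049 (.nd 2 2028 (.lf ⟨⟨0, 0, 0, 16844, 16, 1, 1⟩, 0, 0, 0, 0, [h5, h0 5884], 11, ca7_3, 0, 0⟩)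
  (.lf ⟨⟨0, 0, 0, 18053, 16, 1, 1⟩, 0, 0, 0, 0, [h5, h0 5884, f11], 13, ca7_4, 0, 0⟩))
  (.lf ⟨⟨0, 0, 0, 19416, 16, 1, 1⟩, 0, 0, 0, 0, [h5, h0 5884, f11], 13, ca7_4, 0, 0⟩))
  (.lf ⟨⟨0, 0, 0, 22458, 16, 1, 1⟩, 0, 0, 0, 0, [h5, h0 5884, f11], 13, ca7_4, 0, 0⟩))
  (.lf ⟨⟨0, 0, 0, 30048, 16, 1, 1⟩, 0, 0, 0, 0, [h5, h0 5884, f11], 0, ca7_5, 0, 0⟩))
  (.lf ⟨⟨0, 0, 0, 53602, 16, 1, 1⟩, 0, 0, 0, 0, [h5, h0 5884, f11], 0, ca7_6, 0, 0⟩)))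

noncomputable def a24_4 : T5 :=
  (.nd 2 1807 .lw
  (.lf ⟨⟨0, 0, 0, 8393, 16, 1, 1⟩, 0, 0, 0, 0, [h5, h0 5884, f7], 24, ca7_7, 0, 0⟩))

noncomputable def a24_5 : T5 :=
  (.nd 2 1616 .lw
  (.nd 2 1885 (.nd 2 1750 (.nd 2 1683 (.nd 2 1649 (.lf ⟨⟨0, 0, 0, 4329, 16, 2, 2⟩, 0, 0, 0, 0, [h5, h0 5882], 11, ca7_8, 0, 0⟩)
  (.nd 2 1666 (.lf ⟨⟨0, 0, 0, 4854, 16, 2, 1⟩, 0, 0, 0, 0, [h5, h0 5882], 11, ca7_9, 0, 0⟩)
  (.nd 2 1674 (.lf ⟨⟨0, 0, 0, 5148, 16, 2, 1⟩, 0, 0, 0, 0, [h5, h0 5882], 11, ca7_10, 0, 0⟩)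
  (.lf ⟨⟨0, 0, 0, 5293, 16, 2, 1⟩, 0, 0, 0, 0, [h5, h0 5882, f6], 12, ca7_11, 0, 0⟩))))
  (.lf ⟨⟨0, 0, 0, 5461, 16, 2, 1⟩, 0, 0, 0, 0, [h5, h0 5882, f6], 12, ca7_11, 0, 0⟩))
  (.lf ⟨⟨0, 0, 0, 6888, 16, 2, 1⟩, 0, 0, 0, 0, [h5, h0 5882, f6], 12, ca7_11, 0, 0⟩))
  (.lf ⟨⟨0, 0, 0, 10998, 16, 1, 1⟩, 0, 0, 0, 0, [h5, h0 5884, f6], 0, ca7_12, 0, 0⟩)))

noncomputable def a24_6 : T5 :=
  (.nd 2 1397 .lw
  (.nd 2 1629 (.nd 2 1513 (.nd 2 1455 (.nd 2 1426 (.lf ⟨⟨0, 0, 0, 2026, 16, 4, 3⟩, 35858, 256, 2, 0, [h5, h0 5878], 22, ca7_13, 0, 0⟩)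
  (.lf ⟨⟨0, 0, 0, 2241, 16, 4, 3⟩, 39650, 256, 1, 0, [h5, h0 5878], 17, ca7_14, 0, 0⟩))
  (.lf ⟨⟨0, 0, 0, 2478, 16, 3, 2⟩, 48477, 256, 1, 0, [h5, h0 5880], 17, ca7_15, 0, 0⟩))
  (.lf ⟨⟨0, 0, 0, 3029, 16, 3, 2⟩, 72466, 256, 1, 0, [h5, h0 5880], 17, ca7_16, 0, 0⟩))
  (.lf ⟨⟨0, 0, 0, 4529, 16, 2, 2⟩, 0, 0, 0, 0, [h5, h0 5882, f6], 0, ca7_11, 0, 0⟩)))

noncomputable def a24_7 : T5 :=
  (.nd 2 1199 .lw
  (.nd 2 1398 (.nd 2 1298 (.nd 2 1248 (.lf ⟨⟨0, 0, 0, 16327, 256, 7, 5⟩, 19350, 256, 3, 0, [h5, h0 5872], 22, ca7_17, 0, 0⟩)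
  (.lf ⟨⟨0, 0, 0, 1209, 16, 6, 4⟩, 23011, 256, 3, 0, [h5, h0 5874], 17, ca7_18, 0, 0⟩))
  (.lf ⟨⟨0, 0, 0, 1438, 16, 5, 4⟩, 32542, 256, 2, 0, [h5, h0 5876], 17, ca7_19, 0, 0⟩))
  (.lf ⟨⟨0, 0, 0, 2033, 16, 4, 3⟩, 0, 0, 0, 0, [h5, h0 5878], 17, ca7_20, 0, 0⟩)))

noncomputable def a24_8 : T5 :=
  (.nd 2 999 .lw
  (.nd 2 1165 (.nd 2 1082 (.nd 2 1040 (.lf ⟨⟨0, 0, 0, 8163, 256, 14, 9⟩, 9411, 256, 7, 0, [h5, h0 5858], 22, ca7_21, 0, 0⟩)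
  (.lf ⟨⟨0, 0, 0, 9410, 256, 12, 8⟩, 10885, 256, 6, 0, [h5, h0 5862], 17, ca7_21, 0, 0⟩))
  (.lf ⟨⟨0, 0, 0, 10884, 256, 11, 7⟩, 14513, 256, 5, 0, [h5, h0 5864], 17, ca7_22, 0, 0⟩))
  (.lf ⟨⟨0, 0, 0, 14512, 256, 8, 6⟩, 0, 0, 0, 0, [h5, h0 5870], 17, ca7_23, 0, 0⟩)))

noncomputable def a24_9 : T5 :=
  (.nd 2 797 .lw
  (.nd 2 801 (.lf ⟨⟨65992, 256, 3, 4053, 256, 27, 18⟩, 4111, 256, 17, 2, [h5, h0 5842], 22, ca7_24, 0, 0⟩)
  (.nd 2 934 (.nd 2 867 (.nd 2 834 (.lf ⟨⟨82953, 256, 2, 4110, 256, 27, 18⟩, 4609, 256, 15, 2, [h5, h0 5840], 22, ca7_25, 0, 0⟩)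
  (.nd 2 850 (.lf ⟨⟨92682, 256, 2, 4608, 256, 24, 16⟩, 4871, 256, 14, 2, [h5, h0 5846], 17, ca7_25, 0, 0⟩)
  (.lf ⟨⟨104273, 256, 2, 4870, 256, 23, 15⟩, 5167, 256, 13, 1, [h5, h0 5846], 17, ca7_26, 0, 0⟩)))
  (.lf ⟨⟨165906, 256, 1, 5166, 256, 22, 14⟩, 6518, 256, 11, 1, [h5, h0 5846], 17, ca7_27, 0, 0⟩))
  (.nd 2 1089 (.lf ⟨⟨0, 0, 0, 6517, 256, 17, 12⟩, 11152, 256, 6, 0, [h5, h0 5852], 17, ca7_28, 0, 0⟩)
  (.lf ⟨⟨0, 0, 0, 11151, 256, 10, 7⟩, 0, 0, 0, 0, [h5, h0 5866], 0, ca7_29, 0, 0⟩)))))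

noncomputable def a24_10 : T5 :=
  (.nd 2 593 .lw
  (.nd 2 600 (.lf ⟨⟨16384, 256, 13, 1998, 256, 54, 35⟩, 2048, 256, 33, 10, [h5, h0 5824], 17, ca7_30, 0, 0⟩)
  (.nd 2 700 (.nd 2 650 (.nd 2 625 (.lf ⟨⟨19484, 256, 11, 2048, 256, 53, 34⟩, 2234, 256, 31, 9, [h5, h0 5820], 22, ca7_31, 0, 0⟩)
  (.nd 2 637 (.lf ⟨⟨21174, 256, 10, 2233, 256, 49, 32⟩, 2329, 256, 30, 8, [h5, h0 5824], 17, ca7_30, 0, 0⟩)
  (.lf ⟨⟨23171, 256, 9, 2328, 256, 47, 31⟩, 2436, 256, 28, 7, [h5, h0 5824], 17, ca7_32, 0, 0⟩)))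
  (.nd 2 675 (.lf ⟨⟨27555, 256, 8, 2435, 256, 45, 29⟩, 2656, 256, 26, 6, [h5, h0 5824], 17, ca7_33, 0, 0⟩)
  (.lf ⟨⟨32768, 256, 6, 2655, 256, 41, 27⟩, 2897, 256, 24, 5, [h5, h0 5826], 17, ca7_34, 0, 0⟩)))
  (.nd 2 801 (.nd 2 750 (.lf ⟨⟨46341, 256, 4, 2896, 256, 38, 25⟩, 3445, 256, 20, 4, [h5, h0 5826], 17, ca7_35, 0, 0⟩)
  (.lf ⟨⟨65992, 256, 3, 3444, 256, 32, 21⟩, 4111, 256, 17, 2, [h5, h0 5832], 17, ca7_36, 0, 0⟩))
  (.lf ⟨⟨0, 0, 0, 4110, 256, 27, 18⟩, 0, 0, 0, 0, [h5, h0 5832], 0, ca7_37, 0, 0⟩)))))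

noncomputable def a24_11 : T5 :=
  (.nd 2 383 .lw
  (.nd 2 400 (.lf ⟨⟨4096, 256, 55, 965, 256, 108, 68⟩, 1024, 256, 64, 35, [h5, h0 5850], 17, ca7_38, 0, 0⟩)
  (.nd 2 500 (.nd 2 450 (.nd 2 425 (.lf ⟨⟨4871, 256, 46, 1024, 256, 102, 65⟩, 1117, 256, 59, 30, [h5, h0 5834], 17, ca7_39, 0, 0⟩)
  (.lf ⟨⟨5793, 256, 39, 1116, 256, 94, 60⟩, 1218, 256, 55, 26, [h5, h0 5828], 17, ca7_40, 0, 0⟩))
  (.nd 2 475 (.lf ⟨⟨6889, 256, 32, 1217, 256, 87, 56⟩, 1328, 256, 50, 22, [h5, h0 5820], 17, ca7_41, 0, 0⟩)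
  (.nd 2 487 (.lf ⟨⟨7487, 256, 30, 1327, 256, 80, 51⟩, 1385, 256, 48, 21, [h5, h0 5828], 17, ca7_42, 0, 0⟩)
  (.lf ⟨⟨8192, 256, 27, 1384, 256, 77, 49⟩, 1449, 256, 46, 19, [h5, h0 5824], 17, ca7_43, 0, 0⟩))))
  (.nd 2 600 (.nd 2 550 (.nd 2 525 (.nd 2 512 (.lf ⟨⟨8903, 256, 25, 1448, 256, 74, 47⟩, 1510, 256, 45, 18, [h5, h0 5824], 17, ca7_43, 0, 0⟩)
  (.lf ⟨⟨9742, 256, 23, 1509, 256, 71, 46⟩, 1580, 256, 43, 16, [h5, h0 5822], 17, ca7_43, 0, 0⟩))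
  (.nd 2 537 (.lf ⟨⟨10587, 256, 21, 1579, 256, 68, 44⟩, 1647, 256, 41, 15, [h5, h0 5822], 17, ca7_43, 0, 0⟩)
  (.lf ⟨⟨11586, 256, 19, 1646, 256, 65, 42⟩, 1723, 256, 39, 14, [h5, h0 5822], 17, ca7_43, 0, 0⟩)))
  (.nd 2 575 (.nd 2 562 (.lf ⟨⟨12591, 256, 17, 1722, 256, 63, 40⟩, 1796, 256, 38, 13, [h5, h0 5820], 17, ca7_43, 0, 0⟩)
  (.lf ⟨⟨13778, 256, 16, 1795, 256, 60, 39⟩, 1879, 256, 36, 12, [h5, h0 5822], 17, ca7_43, 0, 0⟩))
  (.nd 2 587 (.lf ⟨⟨14973, 256, 14, 1878, 256, 58, 37⟩, 1958, 256, 35, 11, [h5, h0 5820], 17, ca7_43, 0, 0⟩)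
  (.lf ⟨⟨16384, 256, 13, 1957, 256, 55, 36⟩, 2048, 256, 33, 10, [h5, h0 5822], 0, ca7_44, 0, 0⟩))))
  (.nd 2 700 (.lf ⟨⟨32768, 256, 6, 2048, 256, 53, 34⟩, 2897, 256, 24, 5, [h5, h0 5802], 0, ca7_45, 0, 0⟩)
  (.lf ⟨⟨0, 0, 0, 2896, 256, 38, 25⟩, 0, 0, 0, 0, [h5, h0 5810], 0, ca7_46, 0, 0⟩))))))

noncomputable def a24_12 : T5 :=
  (.nd 2 269 .lw
  (.nd 2 300 (.lf ⟨⟨2048, 256, 115, 650, 256, 156, 96⟩, 725, 256, 87, 61, [h5, h0 5926], 22, ca7_47, 0, 0⟩)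
  (.nd 2 400 (.nd 2 350 (.nd 2 325 (.nd 2 312 (.lf ⟨⟨2226, 256, 105, 724, 256, 141, 88⟩, 755, 256, 84, 57, [h5, h0 5928], 17, ca7_48, 0, 0⟩)
  (.lf ⟨⟨2436, 256, 96, 754, 256, 136, 85⟩, 790, 256, 80, 53, [h5, h0 5912], 17, ca7_49, 0, 0⟩))
  (.lf ⟨⟨2897, 256, 80, 789, 256, 131, 82⟩, 862, 256, 75, 46, [h5, h0 5876], 17, ca7_50, 0, 0⟩))
  (.nd 2 375 (.lf ⟨⟨3445, 256, 66, 861, 256, 120, 76⟩, 940, 256, 69, 40, [h5, h0 5858], 17, ca7_51, 0, 0⟩)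
  (.lf ⟨⟨4096, 256, 55, 939, 256, 111, 70⟩, 1024, 256, 64, 35, [h5, h0 5844], 0, ca7_52, 0, 0⟩)))
  (.nd 2 500 (.lf ⟨⟨8192, 256, 27, 1024, 256, 102, 65⟩, 1449, 256, 46, 19, [h5, h0 5774], 0, ca7_53, 0, 0⟩)
  (.lf ⟨⟨0, 0, 0, 1448, 256, 74, 47⟩, 0, 0, 0, 0, [h5, h0 5738], 0, ca7_54, 0, 0⟩)))))

noncomputable def a24_13 : T5 :=
  (.nd 2 98 .lw
  (.nd 2 99 (.lf ⟨⟨509, 256, 605, 359, 256, 264, 156⟩, 361, 256, 154, 163, [h5, h0 6894], 17, ca7_55, 0, 0⟩)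
  (.nd 2 159 (.nd 2 129 (.lf ⟨⟨626, 256, 455, 360, 256, 264, 155⟩, 401, 256, 142, 142, [h5, h0 6552], 17, ca7_56, 0, 0⟩)
  (.lf ⟨⟨771, 256, 349, 400, 256, 241, 143⟩, 445, 256, 131, 123, [h5, h0 6348], 17, ca7_57, 0, 0⟩))
  (.nd 2 200 (.lf ⟨⟨1024, 256, 249, 444, 256, 220, 132⟩, 512, 256, 116, 101, [h5, h0 6146], 17, ca7_58, 0, 0⟩)
  (.nd 2 300 (.nd 2 250 (.nd 2 225 (.lf ⟨⟨1218, 256, 204, 512, 256, 194, 117⟩, 559, 256, 108, 89, [h5, h0 6084], 12, ca7_59, 0, 0⟩)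
  (.nd 2 237 (.lf ⟨⟨1324, 256, 185, 558, 256, 179, 109⟩, 583, 256, 105, 84, [h5, h0 6066], 12, ca7_60, 0, 0⟩)
  (.nd 2 243 (.lf ⟨⟨1380, 256, 177, 582, 256, 173, 106⟩, 595, 256, 103, 82, [h5, h0 6058], 12, ca7_61, 0, 0⟩)
  (.lf ⟨⟨1449, 256, 168, 594, 256, 169, 104⟩, 609, 256, 101, 79, [h5, h0 6042], 12, ca7_62, 0, 0⟩))))
  (.nd 2 275 (.nd 2 262 (.lf ⟨⟨1574, 256, 153, 608, 256, 166, 102⟩, 635, 256, 97, 74, [h5, h0 6008], 0, ca7_63, 0, 0⟩)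
  (.lf ⟨⟨1723, 256, 139, 634, 256, 160, 98⟩, 664, 256, 94, 69, [h5, h0 5982], 0, ca7_64, 0, 0⟩))
  (.lf ⟨⟨2048, 256, 115, 663, 256, 153, 95⟩, 725, 256, 87, 61, [h5, h0 5932], 0, ca7_65, 0, 0⟩)))
  (.nd 2 400 (.lf ⟨⟨4096, 256, 55, 724, 256, 141, 88⟩, 1024, 256, 64, 35, [h5, h0 5784], 0, ca7_66, 0, 0⟩)
  (.lf ⟨⟨0, 0, 0, 1024, 256, 102, 65⟩, 0, 0, 0, 0, [h5, h0 5682], 0, ca7_67, 0, 0⟩)))))))

noncomputable def a24_14 : T5 :=
  (.nd 2 99 (.nd 2 59 (.lf ⟨⟨386, 256, 942, 256, 256, 351, 200⟩, 315, 256, 171, 194, [h5, h0 7456], 0, ca7_68, 0, 0⟩)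
  (.nd 2 93 (.lf ⟨⟨488, 256, 643, 314, 256, 296, 173⟩, 354, 256, 156, 167, [h5, h0 6914], 0, ca7_69, 0, 0⟩)
  (.lf ⟨⟨509, 256, 605, 353, 256, 268, 158⟩, 361, 256, 154, 163, [h5, h0 6886], 0, ca7_69, 0, 0⟩)))
  (.nd 2 159 (.nd 2 129 (.lf ⟨⟨626, 256, 455, 360, 256, 264, 155⟩, 401, 256, 142, 142, [h5, h0 6552], 0, ca7_70, 0, 0⟩)
  (.lf ⟨⟨771, 256, 349, 400, 256, 241, 143⟩, 445, 256, 131, 123, [h5, h0 6348], 0, ca7_71, 0, 0⟩))
  (.nd 2 200 (.lf ⟨⟨1024, 256, 249, 444, 256, 220, 132⟩, 512, 256, 116, 101, [h5, h0 6146], 0, ca7_72, 0, 0⟩)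
  (.nd 2 300 (.lf ⟨⟨2048, 256, 115, 512, 256, 194, 117⟩, 725, 256, 87, 61, [h5, h0 5850], 0, ca7_73, 0, 0⟩)
  (.lf ⟨⟨0, 0, 0, 724, 256, 141, 88⟩, 0, 0, 0, 0, [h5, h0 5604], 0, ca7_74, 0, 0⟩)))))

theorem sa24 : SA cs24.st (bxL 783 789) :=
  sa_nd 100 (sa_rc 1 2 0 1 90411314 2643 a24_0 (by decide +kernel)) <|
  sa_nd 200 (sa_rc 2 4 0 1 45205657 2543 a24_1 (by decide +kernel)) <|
  sa_nd 300 (sa_rc 4 8 0 1 33322654 2499 a24_2 (by decide +kernel)) <|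
  sa_nd 395 (sa_rc 8 15 1 2 4566467535351157 5202 a24_3 (by decide +kernel)) <|
  sa_nd 495 (sa_rc 16 30 0 1 8564870 2303 a24_4 (by decide +kernel)) <|
  sa_nd 595 (sa_rc 31 61 1 2 1284385761425703 5019 a24_5 (by decide +kernel)) <|
  sa_nd 695 (sa_rc 62 123 1 1 247010991 2788 a24_6 (by decide +kernel)) <|
  sa_nd 795 (sa_rc 124 247 1 1 250459136 2790 a24_7 (by decide +kernel)) <|
  sa_nd 895 (sa_rc 248 494 1 1 250459136 2790 a24_8 (by decide +kernel)) <|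
  sa_nd 995 (sa_rc 495 989 1 1 247010991 2788 a24_9 (by decide +kernel)) <|
  sa_nd 1095 (sa_rc 990 1978 1 1 240256463 2784 a24_10 (by decide +kernel)) <|
  sa_nd 1195 (sa_rc 1979 3956 1 1 224167206 2774 a24_11 (by decide +kernel)) <|
  sa_nd 1245 (sa_rc 3957 5595 1 1 203436033 2760 a24_12 (by decide +kernel)) <|
  sa_nd 1295 (sa_rc 5596 7912 2 1 984090472636 3984 a24_13 (by decide +kernel)) <|
  sa_no a24_14 (by decide +kernel)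

noncomputable def a25_0 : T5 :=
  (.nd 2 2559 .lw
  (.lf ⟨⟨0, 0, 0, 7106, 1, 1, 1⟩, 0, 0, 0, 0, [h5, h0 5884, f10], 26, ca7_0, 0, 0⟩))

noncomputable def a25_1 : T5 :=
  (.nd 2 2359 .lw
  (.lf ⟨⟨0, 0, 0, 56855, 16, 1, 1⟩, 0, 0, 0, 0, [h5, h0 5884, f10], 26, ca7_1, 0, 0⟩))

noncomputable def a25_2 : T5 :=
  (.nd 2 2213 .lw
  (.lf ⟨⟨0, 0, 0, 34278, 16, 1, 1⟩, 0, 0, 0, 0, [h5, h0 5884, f8], 26, ca7_2, 0, 0⟩))

noncomputable def a25_3 : T5 :=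
  (.nd 2 2043 .lw
  (.lf ⟨⟨0, 0, 0, 19016, 16, 1, 1⟩, 0, 0, 0, 0, [h5, h0 5884, f11], 26, ca7_75, 0, 0⟩))

noncomputable def a25_4 : T5 :=
  (.nd 2 1818 .lw
  (.lf ⟨⟨0, 0, 0, 8719, 16, 1, 1⟩, 0, 0, 0, 0, [h5, h0 5884, f7], 24, ca7_75, 0, 0⟩))

noncomputable def a25_5 : T5 :=
  (.nd 2 1631 .lw
  (.nd 2 1902 (.nd 2 1766 (.nd 2 1698 (.nd 2 1664 (.lf ⟨⟨0, 0, 0, 4560, 16, 2, 2⟩, 0, 0, 0, 0, [h5, h0 5882], 11, ca7_8, 0, 0⟩)
  (.nd 2 1681 (.lf ⟨⟨0, 0, 0, 5113, 16, 2, 1⟩, 0, 0, 0, 0, [h5, h0 5882], 11, ca7_76, 0, 0⟩)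
  (.lf ⟨⟨0, 0, 0, 5423, 16, 2, 1⟩, 0, 0, 0, 0, [h5, h0 5882, f6], 12, ca7_11, 0, 0⟩)))
  (.lf ⟨⟨0, 0, 0, 5752, 16, 2, 1⟩, 0, 0, 0, 0, [h5, h0 5882, f6], 12, ca7_11, 0, 0⟩))
  (.lf ⟨⟨0, 0, 0, 7281, 16, 1, 1⟩, 0, 0, 0, 0, [h5, h0 5884, f6], 12, ca7_11, 0, 0⟩))
  (.lf ⟨⟨0, 0, 0, 11665, 16, 1, 1⟩, 0, 0, 0, 0, [h5, h0 5884, f6], 0, ca7_12, 0, 0⟩)))

noncomputable def a25_6 : T5 :=
  (.nd 2 1412 .lw
  (.nd 2 1647 (.nd 2 1529 (.nd 2 1470 (.nd 2 1441 (.lf ⟨⟨0, 0, 0, 2134, 16, 4, 3⟩, 37772, 256, 1, 0, [h5, h0 5878], 22, ca7_13, 0, 0⟩)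
  (.lf ⟨⟨0, 0, 0, 2360, 16, 3, 2⟩, 41765, 256, 1, 0, [h5, h0 5880], 17, ca7_14, 0, 0⟩))
  (.lf ⟨⟨0, 0, 0, 2610, 16, 3, 2⟩, 51241, 256, 1, 0, [h5, h0 5880], 17, ca7_15, 0, 0⟩))
  (.lf ⟨⟨0, 0, 0, 3202, 16, 3, 2⟩, 0, 0, 0, 0, [h5, h0 5880], 17, ca7_16, 0, 0⟩))
  (.lf ⟨⟨0, 0, 0, 4820, 16, 2, 1⟩, 0, 0, 0, 0, [h5, h0 5882, f6], 0, ca7_77, 0, 0⟩)))

noncomputable def a25_7 : T5 :=
  (.nd 2 1212 .lw
  (.nd 2 1414 (.nd 2 1313 (.nd 2 1262 (.nd 2 1237 (.lf ⟨⟨0, 0, 0, 1067, 16, 7, 5⟩, 18626, 256, 3, 0, [h5, h0 5872], 22, ca7_78, 0, 0⟩)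
  (.nd 2 1249 (.lf ⟨⟨0, 0, 0, 1164, 16, 6, 4⟩, 19417, 256, 3, 0, [h5, h0 5874], 22, ca7_79, 0, 0⟩)
  (.lf ⟨⟨0, 0, 0, 1213, 16, 6, 4⟩, 20312, 256, 3, 0, [h5, h0 5874], 17, ca7_79, 0, 0⟩)))
  (.lf ⟨⟨0, 0, 0, 1269, 16, 6, 4⟩, 24239, 256, 3, 0, [h5, h0 5874], 17, ca7_79, 0, 0⟩))
  (.lf ⟨⟨0, 0, 0, 1514, 16, 5, 4⟩, 34398, 256, 2, 0, [h5, h0 5876], 17, ca7_19, 0, 0⟩))
  (.lf ⟨⟨0, 0, 0, 2149, 16, 4, 3⟩, 0, 0, 0, 0, [h5, h0 5878], 0, ca7_80, 0, 0⟩)))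

noncomputable def a25_8 : T5 :=
  (.nd 2 1012 .lw
  (.nd 2 1180 (.nd 2 1096 (.nd 2 1054 (.lf ⟨⟨0, 0, 0, 8539, 256, 13, 9⟩, 9878, 256, 7, 0, [h5, h0 5860], 22, ca7_81, 0, 0⟩)
  (.nd 2 1075 (.nd 2 1064 (.lf ⟨⟨0, 0, 0, 9877, 256, 12, 8⟩, 10227, 256, 7, 0, [h5, h0 5862], 17, ca7_81, 0, 0⟩)
  (.lf ⟨⟨0, 0, 0, 10226, 256, 11, 8⟩, 10624, 256, 6, 0, [h5, h0 5864], 17, ca7_81, 0, 0⟩))
  (.lf ⟨⟨0, 0, 0, 10623, 256, 11, 7⟩, 11426, 256, 6, 0, [h5, h0 5864], 17, ca7_81, 0, 0⟩)))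
  (.lf ⟨⟨0, 0, 0, 11425, 256, 10, 7⟩, 15287, 256, 4, 0, [h5, h0 5866], 17, ca7_81, 0, 0⟩))
  (.lf ⟨⟨0, 0, 0, 15286, 256, 8, 5⟩, 0, 0, 0, 0, [h5, h0 5870], 17, ca7_82, 0, 0⟩)))

noncomputable def a25_9 : T5 :=
  (.nd 2 812 .lw
  (.nd 2 947 (.nd 2 879 (.nd 2 845 (.lf ⟨⟨89525, 256, 2, 4269, 256, 26, 17⟩, 4788, 256, 15, 2, [h5, h0 5842], 22, ca7_83, 0, 0⟩)
  (.lf ⟨⟨113317, 256, 1, 4787, 256, 23, 16⟩, 5387, 256, 13, 1, [h5, h0 5844], 17, ca7_84, 0, 0⟩))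
  (.lf ⟨⟨181550, 256, 1, 5386, 256, 21, 14⟩, 6818, 256, 10, 1, [h5, h0 5848], 17, ca7_27, 0, 0⟩))
  (.nd 2 1104 (.lf ⟨⟨0, 0, 0, 6817, 256, 17, 11⟩, 11747, 256, 6, 0, [h5, h0 5852], 17, ca7_28, 0, 0⟩)
  (.lf ⟨⟨0, 0, 0, 11746, 256, 10, 7⟩, 0, 0, 0, 0, [h5, h0 5866], 0, ca7_29, 0, 0⟩))))

noncomputable def a25_10 : T5 :=
  (.nd 2 608 .lw
  (.nd 2 709 (.nd 2 658 (.nd 2 633 (.lf ⟨⟨20595, 256, 10, 2105, 256, 52, 34⟩, 2297, 256, 30, 8, [h5, h0 5818], 22, ca7_85, 0, 0⟩)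
  (.nd 2 645 (.lf ⟨⟨22382, 256, 9, 2296, 256, 47, 31⟩, 2394, 256, 29, 8, [h5, h0 5826], 17, ca7_86, 0, 0⟩)
  (.lf ⟨⟨24492, 256, 9, 2393, 256, 46, 30⟩, 2504, 256, 28, 7, [h5, h0 5826], 17, ca7_86, 0, 0⟩)))
  (.nd 2 683 (.nd 2 670 (.lf ⟨⟨26616, 256, 8, 2503, 256, 44, 29⟩, 2611, 256, 26, 6, [h5, h0 5826], 17, ca7_87, 0, 0⟩)
  (.lf ⟨⟨29126, 256, 7, 2610, 256, 42, 27⟩, 2731, 256, 25, 6, [h5, h0 5828], 17, ca7_88, 0, 0⟩))
  (.lf ⟨⟨34878, 256, 6, 2730, 256, 40, 26⟩, 2989, 256, 23, 5, [h5, h0 5828], 17, ca7_89, 0, 0⟩)))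
  (.nd 2 801 (.nd 2 755 (.lf ⟨⟨47976, 256, 4, 2988, 256, 37, 24⟩, 3505, 256, 20, 4, [h5, h0 5828], 17, ca7_35, 0, 0⟩)
  (.lf ⟨⟨65992, 256, 3, 3504, 256, 32, 21⟩, 4111, 256, 17, 2, [h5, h0 5832], 17, ca7_36, 0, 0⟩))
  (.nd 2 934 (.lf ⟨⟨165906, 256, 1, 4110, 256, 27, 18⟩, 6518, 256, 11, 1, [h5, h0 5836], 17, ca7_90, 0, 0⟩)
  (.lf ⟨⟨0, 0, 0, 6517, 256, 17, 12⟩, 0, 0, 0, 0, [h5, h0 5852], 0, ca7_91, 0, 0⟩)))))

noncomputable def a25_11 : T5 :=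
  (.nd 2 398 .lw
  (.nd 2 500 (.nd 2 400 (.lf ⟨⟨4096, 256, 55, 1016, 256, 103, 65⟩, 1024, 256, 64, 35, [h5, h0 5860], 17, ca7_92, 0, 0⟩)
  (.nd 2 450 (.nd 2 425 (.lf ⟨⟨4871, 256, 46, 1024, 256, 102, 65⟩, 1117, 256, 59, 30, [h5, h0 5834], 17, ca7_93, 0, 0⟩)
  (.lf ⟨⟨5793, 256, 39, 1116, 256, 94, 60⟩, 1218, 256, 55, 26, [h5, h0 5828], 17, ca7_40, 0, 0⟩))
  (.nd 2 475 (.nd 2 462 (.lf ⟨⟨6296, 256, 35, 1217, 256, 87, 56⟩, 1270, 256, 52, 24, [h5, h0 5830], 17, ca7_94, 0, 0⟩)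
  (.lf ⟨⟨6889, 256, 32, 1269, 256, 84, 54⟩, 1328, 256, 50, 22, [h5, h0 5826], 17, ca7_95, 0, 0⟩))
  (.nd 2 487 (.lf ⟨⟨7487, 256, 30, 1327, 256, 80, 51⟩, 1385, 256, 48, 21, [h5, h0 5828], 17, ca7_96, 0, 0⟩)
  (.lf ⟨⟨8192, 256, 27, 1384, 256, 77, 49⟩, 1449, 256, 46, 19, [h5, h0 5824], 17, ca7_96, 0, 0⟩)))))
  (.nd 2 600 (.nd 2 550 (.nd 2 525 (.nd 2 512 (.lf ⟨⟨8903, 256, 25, 1448, 256, 74, 47⟩, 1510, 256, 45, 18, [h5, h0 5824], 17, ca7_96, 0, 0⟩)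
  (.lf ⟨⟨9742, 256, 23, 1509, 256, 71, 46⟩, 1580, 256, 43, 16, [h5, h0 5822], 17, ca7_43, 0, 0⟩))
  (.nd 2 537 (.lf ⟨⟨10587, 256, 21, 1579, 256, 68, 44⟩, 1647, 256, 41, 15, [h5, h0 5822], 17, ca7_43, 0, 0⟩)
  (.lf ⟨⟨11586, 256, 19, 1646, 256, 65, 42⟩, 1723, 256, 39, 14, [h5, h0 5822], 17, ca7_43, 0, 0⟩)))
  (.nd 2 575 (.nd 2 562 (.lf ⟨⟨12591, 256, 17, 1722, 256, 63, 40⟩, 1796, 256, 38, 13, [h5, h0 5820], 17, ca7_43, 0, 0⟩)
  (.lf ⟨⟨13778, 256, 16, 1795, 256, 60, 39⟩, 1879, 256, 36, 12, [h5, h0 5822], 17, ca7_43, 0, 0⟩))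
  (.nd 2 587 (.lf ⟨⟨14973, 256, 14, 1878, 256, 58, 37⟩, 1958, 256, 35, 11, [h5, h0 5820], 17, ca7_43, 0, 0⟩)
  (.lf ⟨⟨16384, 256, 13, 1957, 256, 55, 36⟩, 2048, 256, 33, 10, [h5, h0 5822], 17, ca7_43, 0, 0⟩))))
  (.nd 2 700 (.nd 2 650 (.nd 2 625 (.lf ⟨⟨19484, 256, 11, 2048, 256, 53, 34⟩, 2234, 256, 31, 9, [h5, h0 5820], 0, ca7_43, 0, 0⟩)
  (.lf ⟨⟨23171, 256, 9, 2233, 256, 49, 32⟩, 2436, 256, 28, 7, [h5, h0 5820], 0, ca7_97, 0, 0⟩))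
  (.lf ⟨⟨32768, 256, 6, 2435, 256, 45, 29⟩, 2897, 256, 24, 5, [h5, h0 5818], 0, ca7_98, 0, 0⟩))
  (.lf ⟨⟨0, 0, 0, 2896, 256, 38, 25⟩, 0, 0, 0, 0, [h5, h0 5810], 0, ca7_99, 0, 0⟩)))))

noncomputable def a25_12 : T5 :=
  (.nd 2 284 .lw
  (.nd 2 300 (.lf ⟨⟨2048, 256, 115, 685, 256, 149, 92⟩, 725, 256, 87, 61, [h5, h0 5940], 22, ca7_100, 0, 0⟩)
  (.nd 2 400 (.nd 2 350 (.nd 2 325 (.nd 2 312 (.lf ⟨⟨2226, 256, 105, 724, 256, 141, 88⟩, 755, 256, 84, 57, [h5, h0 5928], 22, ca7_101, 0, 0⟩)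
  (.lf ⟨⟨2436, 256, 96, 754, 256, 136, 85⟩, 790, 256, 80, 53, [h5, h0 5912], 17, ca7_49, 0, 0⟩))
  (.lf ⟨⟨2897, 256, 80, 789, 256, 131, 82⟩, 862, 256, 75, 46, [h5, h0 5876], 17, ca7_50, 0, 0⟩))
  (.nd 2 375 (.lf ⟨⟨3445, 256, 66, 861, 256, 120, 76⟩, 940, 256, 69, 40, [h5, h0 5858], 17, ca7_102, 0, 0⟩)
  (.lf ⟨⟨4096, 256, 55, 939, 256, 111, 70⟩, 1024, 256, 64, 35, [h5, h0 5844], 17, ca7_103, 0, 0⟩)))
  (.nd 2 500 (.lf ⟨⟨8192, 256, 27, 1024, 256, 102, 65⟩, 1449, 256, 46, 19, [h5, h0 5774], 0, ca7_104, 0, 0⟩)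
  (.lf ⟨⟨0, 0, 0, 1448, 256, 74, 47⟩, 0, 0, 0, 0, [h5, h0 5738], 0, ca7_105, 0, 0⟩)))))

noncomputable def a25_13 : T5 :=
  (.nd 2 121 .lw
  (.nd 2 200 (.nd 2 160 (.lf ⟨⟨777, 256, 345, 389, 256, 247, 146⟩, 446, 256, 130, 123, [h5, h0 6328], 17, ca7_106, 0, 0⟩)
  (.lf ⟨⟨1024, 256, 249, 445, 256, 219, 132⟩, 512, 256, 116, 101, [h5, h0 6148], 17, ca7_107, 0, 0⟩))
  (.nd 2 300 (.nd 2 250 (.nd 2 225 (.lf ⟨⟨1218, 256, 204, 512, 256, 194, 117⟩, 559, 256, 108, 89, [h5, h0 6084], 12, ca7_108, 0, 0⟩)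
  (.nd 2 237 (.lf ⟨⟨1324, 256, 185, 558, 256, 179, 109⟩, 583, 256, 105, 84, [h5, h0 6066], 12, ca7_109, 0, 0⟩)
  (.nd 2 243 (.lf ⟨⟨1380, 256, 177, 582, 256, 173, 106⟩, 595, 256, 103, 82, [h5, h0 6058], 12, ca7_110, 0, 0⟩)
  (.lf ⟨⟨1449, 256, 168, 594, 256, 169, 104⟩, 609, 256, 101, 79, [h5, h0 6042], 12, ca7_111, 0, 0⟩))))
  (.nd 2 275 (.nd 2 262 (.lf ⟨⟨1574, 256, 153, 608, 256, 166, 102⟩, 635, 256, 97, 74, [h5, h0 6008], 12, ca7_112, 0, 0⟩)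
  (.lf ⟨⟨1723, 256, 139, 634, 256, 160, 98⟩, 664, 256, 94, 69, [h5, h0 5982], 12, ca7_113, 0, 0⟩))
  (.lf ⟨⟨2048, 256, 115, 663, 256, 153, 95⟩, 725, 256, 87, 61, [h5, h0 5932], 0, ca7_114, 0, 0⟩)))
  (.nd 2 400 (.lf ⟨⟨4096, 256, 55, 724, 256, 141, 88⟩, 1024, 256, 64, 35, [h5, h0 5784], 0, ca7_115, 0, 0⟩)
  (.lf ⟨⟨0, 0, 0, 1024, 256, 102, 65⟩, 0, 0, 0, 0, [h5, h0 5682], 0, ca7_116, 0, 0⟩)))))

noncomputable def a25_14 : T5 :=
  (.nd 2 99 (.nd 2 59 (.lf ⟨⟨386, 256, 942, 256, 256, 351, 200⟩, 315, 256, 171, 194, [h5, h0 7456], 0, ca7_117, 0, 0⟩)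
  (.nd 2 93 (.lf ⟨⟨488, 256, 643, 314, 256, 296, 173⟩, 354, 256, 156, 167, [h5, h0 6914], 0, ca7_118, 0, 0⟩)
  (.lf ⟨⟨509, 256, 605, 353, 256, 268, 158⟩, 361, 256, 154, 163, [h5, h0 6886], 0, ca7_119, 0, 0⟩)))
  (.nd 2 159 (.nd 2 129 (.lf ⟨⟨626, 256, 455, 360, 256, 264, 155⟩, 401, 256, 142, 142, [h5, h0 6552], 0, ca7_120, 0, 0⟩)
  (.lf ⟨⟨771, 256, 349, 400, 256, 241, 143⟩, 445, 256, 131, 123, [h5, h0 6348], 0, ca7_121, 0, 0⟩))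
  (.nd 2 200 (.lf ⟨⟨1024, 256, 249, 444, 256, 220, 132⟩, 512, 256, 116, 101, [h5, h0 6146], 0, ca7_122, 0, 0⟩)
  (.nd 2 300 (.nd 2 250 (.lf ⟨⟨1449, 256, 168, 512, 256, 194, 117⟩, 609, 256, 101, 79, [h5, h0 5992], 0, ca7_123, 0, 0⟩)
  (.lf ⟨⟨2048, 256, 115, 608, 256, 166, 102⟩, 725, 256, 87, 61, [h5, h0 5906], 0, ca7_124, 0, 0⟩))
  (.lf ⟨⟨0, 0, 0, 724, 256, 141, 88⟩, 0, 0, 0, 0, [h5, h0 5604], 0, ca7_125, 0, 0⟩)))))

theorem sa25 : SA cs25.st (bxL 788 794) :=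
  sa_nd 100 (sa_rc 1 2 0 1 101718016 2660 a25_0 (by decide +kernel)) <|
  sa_nd 200 (sa_rc 2 4 0 1 50859008 2560 a25_1 (by decide +kernel)) <|
  sa_nd 300 (sa_rc 4 8 0 1 36973800 2514 a25_2 (by decide +kernel)) <|
  sa_nd 397 (sa_rc 8 15 0 1 22291648 2441 a25_3 (by decide +kernel)) <|
  sa_nd 497 (sa_rc 16 31 0 1 9372483 2316 a25_4 (by decide +kernel)) <|
  sa_nd 597 (sa_rc 32 62 1 2 1648413948674797 5055 a25_5 (by decide +kernel)) <|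
  sa_nd 697 (sa_rc 63 125 1 1 281781176 2807 a25_6 (by decide +kernel)) <|
  sa_nd 797 (sa_rc 126 250 1 1 281781176 2807 a25_7 (by decide +kernel)) <|
  sa_nd 897 (sa_rc 251 501 1 1 281781176 2807 a25_8 (by decide +kernel)) <|
  sa_nd 997 (sa_rc 502 1002 1 1 281781176 2807 a25_9 (by decide +kernel)) <|
  sa_nd 1097 (sa_rc 1003 2005 1 1 274075855 2803 a25_10 (by decide +kernel)) <|
  sa_nd 1197 (sa_rc 2006 4011 1 1 255721815 2793 a25_11 (by decide +kernel)) <|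
  sa_nd 1247 (sa_rc 4012 5673 1 1 232072445 2779 a25_12 (by decide +kernel)) <|
  sa_nd 1297 (sa_rc 5674 8023 2 1 1203188648738 4013 a25_13 (by decide +kernel)) <|
  sa_no a25_14 (by decide +kernel)

noncomputable def a26_0 : T5 :=
  (.nd 2 2578 .lw
  (.lf ⟨⟨0, 0, 0, 7590, 1, 1, 1⟩, 0, 0, 0, 0, [h5, h0 5884, f10], 26, ca7_0, 0, 0⟩))

noncomputable def a26_1 : T5 :=
  (.nd 2 2378 .lw
  (.lf ⟨⟨0, 0, 0, 60724, 16, 1, 1⟩, 0, 0, 0, 0, [h5, h0 5884, f10], 26, ca7_1, 0, 0⟩))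

noncomputable def a26_2 : T5 :=
  (.nd 2 2228 .lw
  (.lf ⟨⟨0, 0, 0, 36107, 16, 1, 1⟩, 0, 0, 0, 0, [h5, h0 5884, f8], 26, ca7_75, 0, 0⟩))

noncomputable def a26_3 : T5 :=
  (.nd 2 2035 .lw
  (.nd 2 2374 (.nd 2 2204 (.nd 2 2119 (.nd 2 2077 (.nd 2 2056 (.lf ⟨⟨0, 0, 0, 18496, 16, 1, 1⟩, 0, 0, 0, 0, [h5, h0 5884], 11, ca7_126, 0, 0⟩)
  (.nd 2 2066 (.lf ⟨⟨0, 0, 0, 19893, 16, 1, 1⟩, 0, 0, 0, 0, [h5, h0 5884], 11, ca7_127, 0, 0⟩)
  (.lf ⟨⟨0, 0, 0, 20594, 16, 1, 1⟩, 0, 0, 0, 0, [h5, h0 5884, f11], 13, ca7_4, 0, 0⟩)))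
  (.lf ⟨⟨0, 0, 0, 21395, 16, 1, 1⟩, 0, 0, 0, 0, [h5, h0 5884, f11], 13, ca7_4, 0, 0⟩))
  (.lf ⟨⟨0, 0, 0, 24747, 16, 1, 1⟩, 0, 0, 0, 0, [h5, h0 5884, f11], 13, ca7_4, 0, 0⟩))
  (.lf ⟨⟨0, 0, 0, 33225, 16, 1, 1⟩, 0, 0, 0, 0, [h5, h0 5884, f11], 0, ca7_5, 0, 0⟩))
  (.lf ⟨⟨0, 0, 0, 59888, 16, 1, 1⟩, 0, 0, 0, 0, [h5, h0 5884, f11], 0, ca7_128, 0, 0⟩)))

noncomputable def a26_4 : T5 :=
  (.nd 2 1828 .lw
  (.lf ⟨⟨0, 0, 0, 9026, 16, 1, 1⟩, 0, 0, 0, 0, [h5, h0 5884, f7], 24, ca7_75, 0, 0⟩))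

noncomputable def a26_5 : T5 :=
  (.nd 2 1641 .lw
  (.nd 2 1914 (.nd 2 1777 (.nd 2 1709 (.nd 2 1675 (.lf ⟨⟨0, 0, 0, 4721, 16, 2, 1⟩, 0, 0, 0, 0, [h5, h0 5882], 11, ca7_129, 0, 0⟩)
  (.nd 2 1692 (.lf ⟨⟨0, 0, 0, 5311, 16, 2, 1⟩, 0, 0, 0, 0, [h5, h0 5882], 11, ca7_130, 0, 0⟩)
  (.lf ⟨⟨0, 0, 0, 5634, 16, 2, 1⟩, 0, 0, 0, 0, [h5, h0 5882, f6], 12, ca7_11, 0, 0⟩)))
  (.lf ⟨⟨0, 0, 0, 5976, 16, 2, 1⟩, 0, 0, 0, 0, [h5, h0 5882, f6], 12, ca7_11, 0, 0⟩))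
  (.lf ⟨⟨0, 0, 0, 7564, 16, 1, 1⟩, 0, 0, 0, 0, [h5, h0 5884, f6], 12, ca7_11, 0, 0⟩))
  (.lf ⟨⟨0, 0, 0, 12161, 16, 1, 1⟩, 0, 0, 0, 0, [h5, h0 5884, f6], 0, ca7_12, 0, 0⟩)))

noncomputable def a26_6 : T5 :=
  (.nd 2 1424 .lw
  (.nd 2 1661 (.nd 2 1542 (.nd 2 1483 (.nd 2 1453 (.lf ⟨⟨0, 0, 0, 2225, 16, 4, 3⟩, 39376, 256, 1, 0, [h5, h0 5878], 22, ca7_131, 0, 0⟩)
  (.lf ⟨⟨0, 0, 0, 2460, 16, 3, 2⟩, 43690, 256, 1, 0, [h5, h0 5880], 17, ca7_132, 0, 0⟩))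
  (.lf ⟨⟨0, 0, 0, 2730, 16, 3, 2⟩, 53603, 256, 1, 0, [h5, h0 5880], 17, ca7_15, 0, 0⟩))
  (.lf ⟨⟨0, 0, 0, 3350, 16, 3, 2⟩, 0, 0, 0, 0, [h5, h0 5880], 17, ca7_133, 0, 0⟩))
  (.lf ⟨⟨0, 0, 0, 5060, 16, 2, 1⟩, 0, 0, 0, 0, [h5, h0 5882, f6], 0, ca7_77, 0, 0⟩)))

noncomputable def a26_7 : T5 :=
  (.nd 2 1224 .lw
  (.nd 2 1428 (.nd 2 1326 (.nd 2 1275 (.nd 2 1249 (.lf ⟨⟨0, 0, 0, 1112, 16, 7, 5⟩, 19417, 256, 3, 0, [h5, h0 5872], 22, ca7_134, 0, 0⟩)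
  (.nd 2 1262 (.lf ⟨⟨0, 0, 0, 1213, 16, 6, 4⟩, 20312, 256, 3, 0, [h5, h0 5874], 22, ca7_17, 0, 0⟩)
  (.lf ⟨⟨0, 0, 0, 1269, 16, 6, 4⟩, 21248, 256, 3, 0, [h5, h0 5874], 17, ca7_135, 0, 0⟩)))
  (.lf ⟨⟨0, 0, 0, 1327, 16, 6, 4⟩, 25356, 256, 2, 0, [h5, h0 5874], 17, ca7_135, 0, 0⟩))
  (.lf ⟨⟨0, 0, 0, 1584, 16, 5, 3⟩, 36108, 256, 2, 0, [h5, h0 5876], 17, ca7_19, 0, 0⟩))
  (.lf ⟨⟨0, 0, 0, 2256, 16, 4, 3⟩, 0, 0, 0, 0, [h5, h0 5878, f6], 0, ca7_136, 0, 0⟩)))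

noncomputable def a26_8 : T5 :=
  (.nd 2 1026 .lw
  (.nd 2 1197 (.nd 2 1111 (.nd 2 1068 (.lf ⟨⟨0, 0, 0, 8964, 256, 13, 9⟩, 10370, 256, 7, 0, [h5, h0 5860], 22, ca7_137, 0, 0⟩)
  (.lf ⟨⟨0, 0, 0, 10369, 256, 11, 8⟩, 12036, 256, 6, 0, [h5, h0 5864], 17, ca7_137, 0, 0⟩))
  (.lf ⟨⟨0, 0, 0, 12035, 256, 10, 7⟩, 16215, 256, 4, 0, [h5, h0 5866], 17, ca7_22, 0, 0⟩))
  (.lf ⟨⟨0, 0, 0, 16214, 256, 7, 5⟩, 0, 0, 0, 0, [h5, h0 5872], 17, ca7_138, 0, 0⟩)))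

noncomputable def a26_9 : T5 :=
  (.nd 2 824 .lw
  (.nd 2 961 (.nd 2 892 (.nd 2 858 (.lf ⟨⟨97967, 256, 2, 4451, 256, 25, 17⟩, 5008, 256, 14, 2, [h5, h0 5844], 22, ca7_139, 0, 0⟩)
  (.nd 2 875 (.lf ⟨⟨110218, 256, 2, 5007, 256, 22, 15⟩, 5312, 256, 13, 1, [h5, h0 5848], 17, ca7_27, 0, 0⟩)
  (.lf ⟨⟨124002, 256, 1, 5311, 256, 21, 14⟩, 5635, 256, 12, 1, [h5, h0 5848], 17, ca7_27, 0, 0⟩)))
  (.lf ⟨⟨200050, 256, 1, 5634, 256, 20, 13⟩, 7157, 256, 10, 1, [h5, h0 5850], 17, ca7_27, 0, 0⟩))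
  (.nd 2 1121 (.lf ⟨⟨0, 0, 0, 7156, 256, 16, 11⟩, 12460, 256, 5, 0, [h5, h0 5854], 17, ca7_28, 0, 0⟩)
  (.lf ⟨⟨0, 0, 0, 12459, 256, 9, 6⟩, 0, 0, 0, 0, [h5, h0 5868], 0, ca7_140, 0, 0⟩))))

noncomputable def a26_10 : T5 :=
  (.nd 2 620 .lw
  (.nd 2 723 (.nd 2 671 (.nd 2 645 (.lf ⟨⟨22382, 256, 9, 2194, 256, 50, 32⟩, 2394, 256, 29, 8, [h5, h0 5820], 22, ca7_141, 0, 0⟩)
  (.nd 2 658 (.lf ⟨⟨24492, 256, 9, 2393, 256, 46, 30⟩, 2504, 256, 28, 7, [h5, h0 5826], 22, ca7_142, 0, 0⟩)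
  (.nd 2 664 (.lf ⟨⟨25532, 256, 8, 2503, 256, 44, 29⟩, 2557, 256, 27, 7, [h5, h0 5828], 17, ca7_87, 0, 0⟩)
  (.lf ⟨⟨26802, 256, 8, 2556, 256, 43, 28⟩, 2620, 256, 26, 6, [h5, h0 5828], 17, ca7_87, 0, 0⟩))))
  (.nd 2 697 (.nd 2 684 (.nd 2 677 (.lf ⟨⟨27940, 256, 7, 2619, 256, 42, 27⟩, 2675, 256, 26, 6, [h5, h0 5828], 17, ca7_87, 0, 0⟩)
  (.lf ⟨⟨29329, 256, 7, 2674, 256, 41, 27⟩, 2741, 256, 25, 6, [h5, h0 5830], 17, ca7_87, 0, 0⟩))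
  (.lf ⟨⟨32094, 256, 6, 2740, 256, 40, 26⟩, 2867, 256, 24, 5, [h5, h0 5828], 17, ca7_143, 0, 0⟩))
  (.lf ⟨⟨38432, 256, 5, 2866, 256, 38, 25⟩, 3137, 256, 22, 4, [h5, h0 5828], 17, ca7_143, 0, 0⟩)))
  (.nd 2 801 (.nd 2 762 (.lf ⟨⟨50361, 256, 4, 3136, 256, 35, 23⟩, 3591, 256, 19, 3, [h5, h0 5830], 17, ca7_144, 0, 0⟩)
  (.lf ⟨⟨65992, 256, 3, 3590, 256, 31, 20⟩, 4111, 256, 17, 2, [h5, h0 5834], 17, ca7_36, 0, 0⟩))
  (.nd 2 934 (.lf ⟨⟨165906, 256, 1, 4110, 256, 27, 18⟩, 6518, 256, 11, 1, [h5, h0 5836], 17, ca7_145, 0, 0⟩)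
  (.lf ⟨⟨0, 0, 0, 6517, 256, 17, 12⟩, 0, 0, 0, 0, [h5, h0 5852], 0, ca7_146, 0, 0⟩)))))

noncomputable def a26_11 : T5 :=
  (.nd 2 412 .lw
  (.nd 2 500 (.nd 2 456 (.lf ⟨⟨6039, 256, 37, 1067, 256, 99, 63⟩, 1244, 256, 53, 25, [h5, h0 5812], 22, ca7_147, 0, 0⟩)
  (.nd 2 478 (.lf ⟨⟨7034, 256, 32, 1243, 256, 85, 55⟩, 1342, 256, 50, 22, [h5, h0 5824], 17, ca7_148, 0, 0⟩)
  (.lf ⟨⟨8192, 256, 27, 1341, 256, 79, 51⟩, 1449, 256, 46, 19, [h5, h0 5820], 17, ca7_149, 0, 0⟩)))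
  (.nd 2 600 (.nd 2 550 (.nd 2 525 (.lf ⟨⟨9742, 256, 23, 1448, 256, 74, 47⟩, 1580, 256, 43, 16, [h5, h0 5816], 17, ca7_43, 0, 0⟩)
  (.nd 2 537 (.lf ⟨⟨10587, 256, 21, 1579, 256, 68, 44⟩, 1647, 256, 41, 15, [h5, h0 5822], 17, ca7_43, 0, 0⟩)
  (.lf ⟨⟨11586, 256, 19, 1646, 256, 65, 42⟩, 1723, 256, 39, 14, [h5, h0 5822], 17, ca7_43, 0, 0⟩)))
  (.nd 2 575 (.lf ⟨⟨13778, 256, 16, 1722, 256, 63, 40⟩, 1879, 256, 36, 12, [h5, h0 5816], 17, ca7_43, 0, 0⟩)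
  (.lf ⟨⟨16384, 256, 13, 1878, 256, 58, 37⟩, 2048, 256, 33, 10, [h5, h0 5816], 17, ca7_43, 0, 0⟩)))
  (.nd 2 700 (.nd 2 650 (.nd 2 625 (.lf ⟨⟨19484, 256, 11, 2048, 256, 53, 34⟩, 2234, 256, 31, 9, [h5, h0 5820], 17, ca7_43, 0, 0⟩)
  (.lf ⟨⟨23171, 256, 9, 2233, 256, 49, 32⟩, 2436, 256, 28, 7, [h5, h0 5820], 0, ca7_150, 0, 0⟩))
  (.lf ⟨⟨32768, 256, 6, 2435, 256, 45, 29⟩, 2897, 256, 24, 5, [h5, h0 5818], 0, ca7_151, 0, 0⟩))
  (.lf ⟨⟨0, 0, 0, 2896, 256, 38, 25⟩, 0, 0, 0, 0, [h5, h0 5810], 0, ca7_152, 0, 0⟩)))))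

noncomputable def a26_12 : T5 :=
  (.nd 2 296 .lw
  (.nd 2 300 (.lf ⟨⟨2048, 256, 115, 714, 256, 143, 89⟩, 725, 256, 87, 61, [h5, h0 5952], 17, ca7_153, 0, 0⟩)
  (.nd 2 400 (.nd 2 350 (.nd 2 325 (.nd 2 312 (.lf ⟨⟨2226, 256, 105, 724, 256, 141, 88⟩, 755, 256, 84, 57, [h5, h0 5928], 22, ca7_154, 0, 0⟩)
  (.lf ⟨⟨2436, 256, 96, 754, 256, 136, 85⟩, 790, 256, 80, 53, [h5, h0 5912], 22, ca7_155, 0, 0⟩))
  (.nd 2 337 (.lf ⟨⟨2647, 256, 88, 789, 256, 131, 82⟩, 824, 256, 78, 50, [h5, h0 5900], 17, ca7_156, 0, 0⟩)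
  (.lf ⟨⟨2897, 256, 80, 823, 256, 126, 79⟩, 862, 256, 75, 46, [h5, h0 5886], 17, ca7_157, 0, 0⟩)))
  (.nd 2 375 (.lf ⟨⟨3445, 256, 66, 861, 256, 120, 76⟩, 940, 256, 69, 40, [h5, h0 5858], 17, ca7_102, 0, 0⟩)
  (.nd 2 387 (.lf ⟨⟨3744, 256, 61, 939, 256, 111, 70⟩, 979, 256, 67, 38, [h5, h0 5862], 17, ca7_158, 0, 0⟩)
  (.lf ⟨⟨4096, 256, 55, 978, 256, 107, 68⟩, 1024, 256, 64, 35, [h5, h0 5852], 17, ca7_159, 0, 0⟩))))
  (.nd 2 500 (.nd 2 450 (.nd 2 425 (.lf ⟨⟨4871, 256, 46, 1024, 256, 102, 65⟩, 1117, 256, 59, 30, [h5, h0 5834], 0, ca7_160, 0, 0⟩)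
  (.lf ⟨⟨5793, 256, 39, 1116, 256, 94, 60⟩, 1218, 256, 55, 26, [h5, h0 5828], 0, ca7_161, 0, 0⟩))
  (.lf ⟨⟨8192, 256, 27, 1217, 256, 87, 56⟩, 1449, 256, 46, 19, [h5, h0 5804], 0, ca7_162, 0, 0⟩))
  (.lf ⟨⟨0, 0, 0, 1448, 256, 74, 47⟩, 0, 0, 0, 0, [h5, h0 5738], 0, ca7_163, 0, 0⟩)))))

noncomputable def a26_13 : T5 :=
  (.nd 2 139 .lw
  (.nd 2 200 (.lf ⟨⟨1024, 256, 249, 414, 256, 234, 139⟩, 512, 256, 116, 101, [h5, h0 6118], 17, ca7_164, 0, 0⟩)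
  (.nd 2 300 (.nd 2 250 (.nd 2 225 (.lf ⟨⟨1218, 256, 204, 512, 256, 194, 117⟩, 559, 256, 108, 89, [h5, h0 6084], 12, ca7_165, 0, 0⟩)
  (.nd 2 237 (.lf ⟨⟨1324, 256, 185, 558, 256, 179, 109⟩, 583, 256, 105, 84, [h5, h0 6066], 12, ca7_60, 0, 0⟩)
  (.nd 2 243 (.lf ⟨⟨1380, 256, 177, 582, 256, 173, 106⟩, 595, 256, 103, 82, [h5, h0 6058], 12, ca7_166, 0, 0⟩)
  (.lf ⟨⟨1449, 256, 168, 594, 256, 169, 104⟩, 609, 256, 101, 79, [h5, h0 6042], 12, ca7_167, 0, 0⟩))))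
  (.nd 2 275 (.nd 2 262 (.lf ⟨⟨1574, 256, 153, 608, 256, 166, 102⟩, 635, 256, 97, 74, [h5, h0 6008], 12, ca7_168, 0, 0⟩)
  (.lf ⟨⟨1723, 256, 139, 634, 256, 160, 98⟩, 664, 256, 94, 69, [h5, h0 5982], 12, ca7_169, 0, 0⟩))
  (.lf ⟨⟨2048, 256, 115, 663, 256, 153, 95⟩, 725, 256, 87, 61, [h5, h0 5932], 12, ca7_170, 0, 0⟩)))
  (.nd 2 400 (.nd 2 350 (.lf ⟨⟨2897, 256, 80, 724, 256, 141, 88⟩, 862, 256, 75, 46, [h5, h0 5856], 0, ca7_171, 0, 0⟩)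
  (.lf ⟨⟨4096, 256, 55, 861, 256, 120, 76⟩, 1024, 256, 64, 35, [h5, h0 5826], 0, ca7_172, 0, 0⟩))
  (.lf ⟨⟨0, 0, 0, 1024, 256, 102, 65⟩, 0, 0, 0, 0, [h5, h0 5682], 0, ca7_173, 0, 0⟩)))))

noncomputable def a26_14 : T5 :=
  (.nd 2 99 (.nd 2 59 (.lf ⟨⟨386, 256, 942, 256, 256, 351, 200⟩, 315, 256, 171, 194, [h5, h0 7456], 0, ca7_174, 0, 0⟩)
  (.nd 2 93 (.nd 2 76 (.lf ⟨⟨434, 256, 771, 314, 256, 296, 173⟩, 334, 256, 164, 180, [h5, h0 7196], 0, ca7_175, 0, 0⟩)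
  (.lf ⟨⟨488, 256, 643, 333, 256, 282, 165⟩, 354, 256, 156, 167, [h5, h0 6942], 0, ca7_176, 0, 0⟩))
  (.lf ⟨⟨509, 256, 605, 353, 256, 268, 158⟩, 361, 256, 154, 163, [h5, h0 6886], 0, ca7_177, 0, 0⟩)))
  (.nd 2 159 (.nd 2 129 (.nd 2 114 (.nd 2 106 (.lf ⟨⟨534, 256, 565, 360, 256, 264, 155⟩, 370, 256, 151, 158, [h5, h0 6804], 0, ca7_178, 0, 0⟩)
  (.lf ⟨⟨565, 256, 522, 369, 256, 258, 153⟩, 381, 256, 148, 152, [h5, h0 6718], 0, ca7_179, 0, 0⟩))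
  (.lf ⟨⟨626, 256, 455, 380, 256, 252, 149⟩, 401, 256, 142, 142, [h5, h0 6576], 0, ca7_180, 0, 0⟩))
  (.lf ⟨⟨771, 256, 349, 400, 256, 241, 143⟩, 445, 256, 131, 123, [h5, h0 6348], 0, ca7_181, 0, 0⟩))
  (.nd 2 200 (.lf ⟨⟨1024, 256, 249, 444, 256, 220, 132⟩, 512, 256, 116, 101, [h5, h0 6146], 0, ca7_182, 0, 0⟩)
  (.nd 2 300 (.nd 2 250 (.lf ⟨⟨1449, 256, 168, 512, 256, 194, 117⟩, 609, 256, 101, 79, [h5, h0 5992], 0, ca7_183, 0, 0⟩)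
  (.lf ⟨⟨2048, 256, 115, 608, 256, 166, 102⟩, 725, 256, 87, 61, [h5, h0 5906], 0, ca7_184, 0, 0⟩))
  (.lf ⟨⟨0, 0, 0, 724, 256, 141, 88⟩, 0, 0, 0, 0, [h5, h0 5604], 0, ca7_185, 0, 0⟩)))))

theorem sa26 : SA cs26.st (bxL 794 799) :=
  sa_nd 100 (sa_rc 1 2 0 1 116036222 2679 a26_0 (by decide +kernel)) <|
  sa_nd 200 (sa_rc 2 4 0 1 58018111 2579 a26_1 (by decide +kernel)) <|
  sa_nd 300 (sa_rc 4 8 0 1 41025000 2529 a26_2 (by decide +kernel)) <|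
  sa_nd 400 (sa_rc 8 16 1 2 7418248396943860 5272 a26_3 (by decide +kernel)) <|
  sa_nd 500 (sa_rc 16 32 0 1 10256250 2329 a26_4 (by decide +kernel)) <|
  sa_nd 600 (sa_rc 32 64 1 2 2015417287959234 5084 a26_5 (by decide +kernel)) <|
  sa_nd 700 (sa_rc 64 128 1 1 319225354 2825 a26_6 (by decide +kernel)) <|
  sa_nd 800 (sa_rc 128 256 1 1 319225354 2825 a26_7 (by decide +kernel)) <|
  sa_nd 900 (sa_rc 256 512 1 1 323681574 2827 a26_8 (by decide +kernel)) <|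
  sa_nd 1000 (sa_rc 512 1024 1 1 319225354 2825 a26_9 (by decide +kernel)) <|
  sa_nd 1100 (sa_rc 1024 2048 1 1 310496120 2821 a26_10 (by decide +kernel)) <|
  sa_nd 1200 (sa_rc 2048 4096 1 1 293747228 2813 a26_11 (by decide +kernel)) <|
  sa_nd 1250 (sa_rc 4096 5792 1 1 262911134 2797 a26_12 (by decide +kernel)) <|
  sa_nd 1300 (sa_rc 5793 8192 2 1 1450814290837 4040 a26_13 (by decide +kernel)) <|
  sa_no a26_14 (by decide +kernel)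

end Pool.Agent.MP_2339ce_nt.Q2.TB.RT
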