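import Pool.Agent.MP_2339ce_nt.Q2.RTc

/-! Project Q2, block RT: bounds for the fourth element. -/

set_option autoImplicit false

noncomputable section

namespace Pool.Agent.MP_2339ce_nt.Q2.TB.RT

noncomputable def cb0 : List VW := k1 v3 (k1 v8 (k1 v22 (k1 v564 (k0))))
noncomputable def cb1 : List VW := k1 v3 (k1 v0 (k1 v21 (k1 v310 (k1 v564 (k0)))))
noncomputable def cb2 : List VW := k8 v278 v146 v144 v418 v149 v433 v155 v160 (k8 v441 v460 v174 v464 v180 v188 v192 v588 (k0))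
noncomputable def cb3 : List VW := k1 v3 (k1 v13 (k1 v18 (k1 v31 (k1 v564 (k0)))))
noncomputable def cb4 : List VW := k1 v3 (k1 v0 (k1 v12 (k1 v21 (k1 v310 (k1 v566 (k0))))))
noncomputable def cb5 : List VW := k8 v278 v144 v274 v418 v149 v433 v153 v163 (k8 v441 v167 v174 v182 v186 v192 v194 v485 (k1 v589 (k0)))
noncomputable def cb6 : List VW := k1 v3 (k1 v275 (k1 v13 (k1 v18 (k1 v320 (k1 v566 (k0))))))
noncomputable def cb7 : List VW := k8 v144 v0 v12 v433 v21 v310 v30 v586 (k0)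
noncomputable def cb8 : List VW := k8 v278 v144 v274 v280 v150 v433 v155 v160 (k8 v441 v167 v460 v43 v174 v464 v180 v184 (k8 v186 v476 v190 v195 v200 v202 v493 v205 (k8 v207 v502 v211 v213 v511 v217 v219 v518 (k1 v223 (k1 v225 (k1 v524 (k1 v594 (k0))))))))
noncomputable def cb9 : List VW := k1 v3 (k1 v275 (k1 v13 (k1 v22 (k1 v31 (k1 v566 (k0))))))
noncomputable def cb10 : List VW := k1 v3 (k1 v0 (k1 v12 (k1 v15 (k1 v21 (k1 v310 (k1 v566 (k0)))))))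
noncomputable def cb11 : List VW := k8 v144 v0 v12 v433 v21 v310 v30 v42 (k1 v464 (k1 v567 (k0)))
noncomputable def cb12 : List VW := k8 v144 v274 v0 v263 v11 v433 v21 v160 (k8 v441 v28 v460 v174 v464 v180 v186 v476 (k1 v588 (k0)))
noncomputable def cb13 : List VW := k8 v144 v274 v0 v149 v293 v152 v160 v307 (k1 v167 (k1 v42 (k1 v174 (k1 v182 (k1 v186 (k1 v192 (k1 v588 (k0))))))))
noncomputable def cb14 : List VW := k1 v3 (k1 v8 (k1 v24 (k1 v564 (k0))))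
noncomputable def cb15 : List VW := k1 v3 (k1 v0 (k1 v160 (k1 v566 (k0))))
noncomputable def cb16 : List VW := k1 v147 (k1 v149 (k1 v21 (k1 v167 (k1 v565 (k0)))))
noncomputable def cb17 : List VW := k8 v1 v144 v274 v422 v149 v427 v160 v441 (k8 v167 v174 v182 v186 v192 v194 v485 v589 (k0))
noncomputable def cb18 : List VW := k1 v3 (k1 v13 (k1 v21 (k1 v566 (k0))))
noncomputable def cb19 : List VW := k8 v278 v145 v144 v423 v418 v149 v433 v155 (k1 v160 (k1 v441 (k1 v460 (k1 v174 (k1 v464 (k1 v587 (k0)))))))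
noncomputable def cb20 : List VW := k1 v3 (k1 v13 (k1 v18 (k1 v319 (k1 v564 (k0)))))
noncomputable def cb21 : List VW := k1 v3 (k1 v0 (k1 v299 (k1 v21 (k1 v310 (k1 v566 (k0))))))
noncomputable def cb22 : List VW := k8 v278 v144 v274 v418 v149 v435 v153 v163 (k1 v441 (k1 v167 (k1 v177 (k1 v182 (k1 v186 (k1 v192 (k1 v588 (k0))))))))
noncomputable def cb23 : List VW := k8 v3 v0 v12 v15 v21 v310 v30 v566 (k0)
noncomputable def cb24 : List VW := k8 v144 v0 v11 v294 v21 v308 v28 v42 (k1 v339 (k1 v567 (k0)))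
noncomputable def cb25 : List VW := k8 v144 v0 v10 v433 v21 v307 v27 v43 (k1 v464 (k1 v587 (k0)))
noncomputable def cb26 : List VW := k8 v144 v0 v149 v293 v21 v307 v167 v42 (k1 v464 (k1 v587 (k0)))
noncomputable def cb27 : List VW := k8 v144 v274 v0 v149 v293 v152 v160 v307 (k1 v167 (k1 v170 (k1 v174 (k1 v182 (k1 v186 (k1 v192 (k1 v588 (k0))))))))
noncomputable def cb28 : List VW := k8 v276 v144 v274 v0 v149 v291 v152 v160 (k8 v305 v167 v462 v177 v336 v182 v59 v186 (k1 v192 (k1 v195 (k1 v200 (k1 v589 (k0))))))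
noncomputable def cb29 : List VW := k8 v1 v144 v274 v279 v151 v427 v160 v317 (k8 v168 v452 v174 v464 v473 v186 v192 v195 (k1 v200 (k1 v589 (k0))))
noncomputable def cb30 : List VW := k1 v3 (k1 v275 (k1 v13 (k1 v15 (k1 v21 (k1 v31 (k1 v566 (k0)))))))
noncomputable def cb31 : List VW := k8 v144 v0 v2 v429 v21 v310 v30 v42 (k1 v463 (k1 v567 (k0)))
noncomputable def cb32 : List VW := k1 v3 (k1 v13 (k1 v21 (k1 v564 (k0))))
noncomputable def cb33 : List VW := k1 v3 (k1 v0 (k1 v10 (k1 v22 (k1 v167 (k1 v566 (k0))))))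
noncomputable def cb34 : List VW := k8 v1 v144 v423 v419 v149 v426 v160 v441 (k8 v167 v452 v174 v464 v180 v469 v186 v476 (k8 v190 v480 v486 v200 v488 v495 v206 v496 (k8 v503 v211 v214 v218 v220 v224 v225 v228 (k1 v230 (k1 v231 (k1 v233 (k1 v235 (k1 v596 (k0)))))))))
noncomputable def cb35 : List VW := k1 v3 (k1 v0 (k1 v149 (k1 v21 (k1 v441 (k1 v586 (k0))))))
noncomputable def cb36 : List VW := k8 v1 v144 v423 v418 v149 v426 v160 v441 (k8 v167 v452 v174 v464 v180 v469 v186 v476 (k8 v190 v194 v195 v485 v491 v203 v493 v499 (k8 v207 v212 v213 v218 v219 v223 v225 v228 (k1 v594 (k0)))))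
noncomputable def cb37 : List VW := k1 v3 (k1 v275 (k1 v13 (k1 v18 (k1 v319 (k1 v564 (k0))))))
noncomputable def cb38 : List VW := k1 v3 (k1 v0 (k1 v12 (k1 v15 (k1 v21 (k1 v441 (k1 v566 (k0)))))))
noncomputable def cb39 : List VW := k8 v144 v0 v151 v154 v160 v307 v167 v586 (k0)
noncomputable def cb40 : List VW := k8 v1 v144 v423 v418 v149 v427 v160 v441 (k8 v167 v452 v174 v464 v180 v470 v186 v476 (k8 v190 v480 v487 v200 v488 v202 v493 v499 (k8 v208 v502 v211 v214 v218 v220 v224 v225 (k1 v228 (k1 v230 (k1 v231 (k1 v233 (k1 v235 (k1 v596 (k0))))))))))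
noncomputable def cb41 : List VW := k1 v3 (k1 v275 (k1 v13 (k1 v25 (k1 v31 (k1 v566 (k0))))))
noncomputable def cb42 : List VW := k8 v7 v0 v12 v433 v21 v310 v30 v566 (k0)
noncomputable def cb43 : List VW := k8 v144 v0 v11 v435 v22 v308 v28 v42 (k1 v464 (k1 v567 (k0)))
noncomputable def cb44 : List VW := k8 v144 v0 v10 v296 v293 v21 v317 v27 (k1 v35 (k1 v42 (k1 v338 (k1 v51 (k1 v587 (k0))))))
noncomputable def cb45 : List VW := k8 v3 v147 v0 v149 v293 v21 v307 v167 (k1 v177 (k1 v182 (k1 v587 (k0))))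
noncomputable def cb46 : List VW := k8 v278 v144 v274 v0 v149 v433 v154 v163 (k8 v307 v167 v460 v170 v174 v464 v180 v183 (k8 v186 v67 v192 v195 v200 v202 v493 v590 (k0)))
noncomputable def cb47 : List VW := k8 v1 v147 v423 v0 v149 v433 v426 v160 (k8 v444 v169 v453 v174 v464 v180 v470 v186 (k8 v476 v190 v194 v195 v485 v199 v489 v202 (k8 v493 v205 v207 v502 v211 v213 v511 v217 (k1 v219 (k1 v518 (k1 v223 (k1 v225 (k1 v524 (k1 v594 (k0))))))))))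
noncomputable def cb48 : List VW := k8 v1 v144 v274 v423 v418 v149 v433 v426 (k8 v160 v436 v444 v167 v460 v452 v174 v464 (k8 v180 v470 v186 v476 v190 v481 v195 v485 (k8 v199 v489 v202 v493 v205 v497 v207 v502 (k8 v211 v213 v511 v217 v220 v518 v223 v225 (k8 v524 v228 v230 v528 v231 v233 v235 v237 (k8 v239 v241 v243 v245 v247 v249 v251 v600 (k0)))))))
noncomputable def cb49 : List VW := k8 v3 v275 v9 v14 v20 v23 v32 v566 (k0)
noncomputable def cb50 : List VW := k8 v3 v144 v275 v0 v2 v429 v561 v23 (k8 v316 v265 v30 v456 v42 v174 v463 v54 (k8 v58 v59 v355 v66 v71 v367 v75 v79 (k1 v375 (k1 v570 (k0)))))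
noncomputable def cb51 : List VW := k8 v3 v144 v275 v0 v2 v429 v15 v21 (k8 v160 v308 v264 v28 v456 v42 v174 v463 (k8 v52 v346 v59 v186 v475 v64 v69 v71 (k8 v365 v73 v490 v202 v492 v204 v207 v501 (k8 v94 v213 v510 v99 v100 v104 v106 v107 (k1 v108 (k1 v111 (k1 v230 (k1 v528 (k1 v595 (k0))))))))))
noncomputable def cb52 : List VW := k8 v4 v144 v275 v285 v263 v10 v433 v15 (k8 v290 v160 v307 v264 v27 v461 v35 v42 (k8 v174 v464 v51 v473 v59 v186 v476 v63 (k8 v483 v195 v485 v199 v202 v493 v205 v207 (k8 v502 v211 v213 v511 v99 v219 v518 v106 (k1 v225 (k1 v108 (k1 v527 (k1 v230 (k1 v528 (k1 v595 (k0)))))))))))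
noncomputable def cb53 : List VW := k8 v278 v144 v275 v274 v0 v149 v433 v293 (k8 v157 v160 v307 v167 v329 v35 v170 v174 (k8 v464 v182 v473 v59 v186 v67 v192 v71 (k8 v195 v485 v199 v202 v493 v205 v207 v502 (k8 v211 v213 v511 v99 v219 v518 v106 v225 (k1 v524 (k1 v111 (k1 v230 (k1 v528 (k1 v233 (k1 v531 (k1 v596 (k0))))))))))))
noncomputable def cb54 : List VW := k8 v276 v144 v274 v279 v149 v433 v291 v155 (k8 v162 v305 v168 v460 v171 v174 v464 v180 (k8 v183 v187 v67 v192 v71 v195 v200 v202 (k8 v493 v205 v207 v502 v211 v213 v511 v217 (k1 v219 (k1 v518 (k1 v593 (k0)))))))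
noncomputable def cb55 : List VW := k1 v3 (k1 v0 (k1 v10 (k1 v21 (k1 v167 (k1 v565 (k0))))))
noncomputable def cb56 : List VW := k1 v3 (k1 v0 (k1 v10 (k1 v426 (k1 v441 (k1 v586 (k0))))))
noncomputable def cb57 : List VW := k8 v1 v144 v418 v149 v155 v160 v441 v586 (k0)
noncomputable def cb58 : List VW := k8 v1 v144 v418 v149 v426 v160 v441 v167 (k8 v452 v174 v464 v180 v184 v186 v476 v483 (k1 v195 (k1 v200 (k1 v203 (k1 v206 (k1 v590 (k0)))))))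
noncomputable def cb59 : List VW := k8 v416 v144 v421 v149 v426 v160 v441 v167 (k8 v452 v174 v464 v180 v469 v186 v476 v190 (k8 v194 v195 v485 v491 v203 v493 v499 v208 (k8 v212 v214 v218 v220 v224 v225 v228 v594 (k0))))
noncomputable def cb60 : List VW := k1 v144 (k1 v0 (k1 v151 (k1 v163 (k1 v167 (k1 v586 (k0))))))
noncomputable def cb61 : List VW := k8 v1 v144 v422 v149 v426 v160 v441 v167 (k1 v454 (k1 v468 (k1 v182 (k1 v187 (k1 v192 (k1 v588 (k0)))))))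
noncomputable def cb62 : List VW := k8 v1 v144 v423 v418 v149 v433 v426 v160 (k8 v442 v167 v452 v174 v464 v180 v469 v186 (k8 v476 v190 v480 v195 v485 v199 v488 v202 (k8 v493 v205 v496 v207 v212 v214 v218 v220 (k8 v224 v226 v228 v230 v232 v233 v235 v237 (k8 v239 v241 v243 v245 v247 v249 v251 v252 (k1 v254 (k1 v255 (k1 v256 (k1 v602 (k0))))))))))
noncomputable def cb63 : List VW := k1 v3 (k1 v9 (k1 v13 (k1 v18 (k1 v319 (k1 v564 (k0))))))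
noncomputable def cb64 : List VW := k1 v144 (k1 v0 (k1 v10 (k1 v435 (k1 v162 (k1 v167 (k1 v586 (k0)))))))
noncomputable def cb65 : List VW := k8 v1 v144 v274 v0 v149 v426 v160 v305 (k1 v167 (k1 v174 (k1 v182 (k1 v587 (k0)))))
noncomputable def cb66 : List VW := k8 v1 v144 v423 v418 v151 v427 v160 v441 (k8 v167 v452 v174 v464 v180 v470 v186 v476 (k8 v190 v194 v195 v485 v491 v203 v493 v205 (k1 v208 (k1 v502 (k1 v211 (k1 v213 (k1 v217 (k1 v592 (k0)))))))))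
noncomputable def cb67 : List VW := k8 v1 v144 v423 v418 v149 v433 v426 v160 (k8 v443 v167 v452 v174 v464 v180 v470 v186 (k8 v476 v190 v480 v195 v485 v199 v488 v202 (k8 v493 v205 v496 v207 v212 v214 v218 v220 (k8 v224 v225 v228 v230 v231 v233 v235 v237 (k1 v239 (k1 v597 (k0)))))))
noncomputable def cb68 : List VW := k1 v3 (k1 v275 (k1 v13 (k1 v21 (k1 v31 (k1 v566 (k0))))))
noncomputable def cb69 : List VW := k8 v144 v0 v12 v303 v15 v23 v442 v30 (k1 v35 (k1 v42 (k1 v464 (k1 v587 (k0)))))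
noncomputable def cb70 : List VW := k8 v278 v144 v274 v280 v149 v433 v156 v160 (k8 v441 v167 v460 v170 v174 v464 v180 v183 (k8 v187 v67 v192 v195 v200 v202 v493 v590 (k0)))
noncomputable def cb71 : List VW := k8 v1 v147 v423 v418 v149 v433 v426 v160 (k8 v443 v167 v453 v174 v464 v180 v470 v186 (k8 v476 v190 v194 v195 v485 v199 v488 v202 (k8 v493 v205 v208 v502 v211 v213 v511 v217 (k1 v219 (k1 v518 (k1 v223 (k1 v225 (k1 v228 (k1 v594 (k0))))))))))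
noncomputable def cb72 : List VW := k8 v1 v144 v423 v418 v149 v433 v426 v160 (k8 v444 v167 v460 v452 v174 v464 v180 v470 (k8 v186 v476 v190 v194 v195 v485 v199 v488 (k8 v202 v493 v205 v208 v502 v211 v213 v511 (k8 v217 v219 v223 v225 v228 v230 v231 v233 (k1 v235 (k1 v596 (k0)))))))
noncomputable def cb73 : List VW := k8 v3 v275 v9 v13 v304 v15 v21 v319 (k1 v31 (k1 v566 (k0)))
noncomputable def cb74 : List VW := k8 v3 v144 v275 v0 v2 v429 v15 v21 (k8 v316 v265 v30 v456 v42 v174 v463 v54 (k8 v58 v59 v355 v66 v71 v367 v75 v79 (k1 v375 (k1 v570 (k0)))))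
noncomputable def cb75 : List VW := k8 v3 v144 v275 v0 v2 v429 v15 v22 (k8 v160 v308 v264 v28 v459 v43 v174 v463 (k8 v52 v346 v59 v186 v475 v64 v482 v195 (k8 v484 v198 v202 v492 v204 v207 v501 v210 (k8 v213 v510 v99 v100 v104 v106 v523 v111 (k1 v230 (k1 v398 (k1 v595 (k0))))))))
noncomputable def cb76 : List VW := k8 v4 v144 v275 v280 v2 v429 v15 v290 (k8 v160 v307 v264 v27 v165 v329 v42 v174 (k8 v463 v51 v472 v59 v186 v475 v63 v482 (k8 v195 v484 v72 v490 v202 v492 v204 v207 (k8 v501 v210 v213 v510 v99 v219 v103 v106 (k8 v107 v523 v110 v230 v528 v234 v530 v596 (k0))))))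
noncomputable def cb77 : List VW := k8 v278 v144 v275 v274 v0 v149 v433 v293 (k8 v157 v160 v313 v167 v329 v43 v174 v338 (k8 v182 v58 v183 v186 v352 v192 v71 v195 (k8 v364 v200 v79 v202 v493 v205 v86 v207 (k8 v502 v211 v213 v511 v217 v219 v518 v106 (k8 v225 v524 v111 v230 v528 v114 v233 v531 (k8 v119 v237 v536 v125 v241 v541 v128 v245 (k1 v132 (k1 v599 (k0)))))))))
noncomputable def cb78 : List VW := k8 v278 v144 v275 v274 v285 v149 v433 v293 (k8 v157 v160 v436 v307 v167 v460 v563 v170 (k8 v174 v466 v182 v473 v184 v186 v476 v192 (k8 v483 v71 v195 v485 v199 v79 v202 v493 (k8 v205 v86 v207 v502 v211 v213 v511 v217 (k8 v219 v518 v223 v225 v524 v228 v230 v528 (k8 v114 v234 v531 v235 v237 v536 v239 v241 (k8 v541 v243 v245 v544 v247 v249 v546 v253 (k1 v549 (k1 v255 (k1 v553 (k1 v257 (k1 v556 (k1 v603 (k0))))))))))))))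
noncomputable def cb79 : List VW := k8 v276 v144 v275 v423 v0 v149 v433 v291 (k8 v157 v160 v438 v305 v167 v460 v562 v326 (k8 v42 v174 v465 v182 v473 v184 v186 v476 (k8 v190 v481 v195 v485 v199 v79 v202 v493 (k8 v205 v86 v207 v502 v211 v213 v511 v217 (k8 v219 v518 v223 v225 v524 v228 v230 v528 (k8 v231 v233 v531 v532 v536 v239 v241 v541 (k1 v543 (k1 v544 (k1 v545 (k1 v546 (k1 v252 (k1 v254 (k1 v601 (k0))))))))))))))
noncomputable def cb80 : List VW := k8 v1 v144 v275 v423 v0 v149 v433 v559 (k8 v157 v160 v446 v441 v167 v460 v452 v174 (k8 v465 v182 v470 v186 v476 v190 v481 v195 (k8 v485 v199 v79 v203 v493 v205 v497 v207 (k8 v502 v211 v213 v511 v217 v219 v518 v223 (k8 v225 v524 v228 v230 v528 v231 v233 v531 (k8 v532 v536 v538 v541 v543 v544 v545 v546 (k1 v252 (k1 v254 (k1 v601 (k0))))))))))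
noncomputable def cb81 : List VW := k8 v1 v144 v274 v423 v0 v149 v433 v426 (k8 v160 v446 v441 v167 v460 v452 v174 v464 (k8 v180 v470 v186 v476 v190 v194 v195 v485 (k8 v199 v489 v202 v493 v205 v497 v207 v502 (k8 v211 v213 v511 v217 v219 v518 v223 v225 (k8 v524 v228 v230 v528 v529 v531 v532 v536 (k1 v597 (k0)))))))
noncomputable def cb82 : List VW := k8 v3 v275 v9 v13 v304 v15 v21 v319 (k1 v31 (k1 v42 (k1 v56 (k1 v567 (k0)))))
noncomputable def cb83 : List VW := k8 v3 v147 v275 v0 v2 v429 v15 v21 (k8 v160 v310 v265 v30 v459 v42 v341 v266 (k8 v54 v472 v59 v355 v475 v363 v71 v367 (k8 v75 v79 v375 v84 v86 v88 v93 v94 (k1 v389 (k1 v572 (k0))))))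
noncomputable def cb84 : List VW := k8 v4 v144 v275 v281 v2 v429 v15 v22 (k8 v160 v308 v264 v28 v165 v330 v42 v174 (k8 v339 v266 v52 v472 v59 v186 v353 v267 (k8 v64 v189 v71 v195 v484 v198 v79 v202 (k8 v492 v82 v498 v207 v501 v210 v213 v510 (k8 v99 v100 v517 v106 v107 v108 v111 v230 (k8 v112 v114 v530 v118 v237 v122 v125 v241 (k8 v126 v128 v245 v132 v249 v134 v548 v255 (k1 v582 (k0)))))))))
noncomputable def cb85 : List VW := k8 v278 v144 v275 v285 v2 v10 v429 v560 (k8 v290 v160 v313 v264 v27 v165 v329 v42 (k8 v174 v338 v266 v51 v472 v59 v186 v352 (k8 v267 v63 v189 v71 v195 v484 v198 v78 (k8 v202 v492 v378 v498 v207 v501 v210 v213 (k8 v510 v216 v219 v517 v106 v107 v523 v111 (k8 v230 v112 v114 v115 v530 v118 v238 v122 (k8 v125 v241 v126 v128 v245 v132 v249 v134 (k1 v135 (k1 v548 (k1 v255 (k1 v139 (k1 v602 (k0)))))))))))))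
noncomputable def cb86 : List VW := k1 v3 (k1 v0 (k1 v10 (k1 v426 (k1 v441 (k1 v566 (k0))))))
noncomputable def cb87 : List VW := k8 v1 v144 v418 v149 v155 v160 v168 v586 (k0)
noncomputable def cb88 : List VW := k8 v416 v144 v417 v422 v151 v427 v160 v441 (k8 v167 v452 v174 v464 v180 v469 v186 v476 (k8 v190 v480 v195 v485 v199 v488 v202 v493 (k8 v205 v496 v207 v502 v211 v214 v511 v217 (k8 v220 v224 v226 v229 v230 v232 v233 v235 (k8 v237 v239 v241 v244 v245 v247 v249 v251 (k8 v252 v254 v255 v256 v257 v259 v260 v261 (k1 v604 (k0))))))))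
noncomputable def cb89 : List VW := k1 v3 (k1 v0 (k1 v22 (k1 v310 (k1 v566 (k0)))))
noncomputable def cb90 : List VW := k1 v3 (k1 v0 (k1 v149 (k1 v21 (k1 v441 (k1 v566 (k0))))))
noncomputable def cb91 : List VW := k1 v144 (k1 v0 (k1 v149 (k1 v160 (k1 v167 (k1 v586 (k0))))))
noncomputable def cb92 : List VW := k8 v1 v144 v421 v149 v426 v160 v441 v461 (k1 v175 (k1 v464 (k1 v587 (k0))))
noncomputable def cb93 : List VW := k8 v1 v144 v417 v418 v149 v426 v160 v441 (k8 v167 v452 v174 v464 v180 v185 v186 v476 (k8 v190 v480 v487 v200 v488 v495 v206 v208 (k1 v212 (k1 v213 (k1 v217 (k1 v592 (k0)))))))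
noncomputable def cb94 : List VW := k8 v1 v147 v422 v149 v426 v160 v441 v167 (k8 v452 v174 v464 v180 v469 v186 v476 v190 (k8 v194 v195 v485 v491 v203 v493 v205 v208 (k8 v212 v213 v218 v219 v224 v225 v228 v594 (k0))))
noncomputable def cb95 : List VW := k1 v144 (k1 v0 (k1 v10 (k1 v433 (k1 v160 (k1 v167 (k1 v586 (k0)))))))
noncomputable def cb96 : List VW := k8 v1 v144 v0 v149 v158 v160 v305 v167 (k1 v586 (k0))
noncomputable def cb97 : List VW := k8 v1 v144 v417 v419 v149 v427 v160 v441 (k8 v167 v452 v174 v464 v180 v184 v186 v476 (k1 v483 (k1 v195 (k1 v200 (k1 v203 (k1 v493 (k1 v590 (k0))))))))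
noncomputable def cb98 : List VW := k8 v7 v0 v12 v433 v21 v310 v30 v586 (k0)
noncomputable def cb99 : List VW := k8 v278 v144 v274 v0 v149 v433 v152 v160 (k8 v307 v167 v170 v178 v182 v186 v192 v588 (k0))
noncomputable def cb100 : List VW := k8 v1 v144 v423 v0 v149 v433 v426 v160 (k8 v441 v167 v452 v174 v464 v180 v185 v186 (k8 v476 v190 v194 v195 v200 v203 v493 v205 (k1 v207 (k1 v502 (k1 v591 (k0))))))
noncomputable def cb101 : List VW := k8 v1 v144 v423 v418 v149 v433 v426 v160 (k8 v446 v441 v167 v460 v452 v174 v465 v180 (k8 v470 v186 v476 v190 v481 v195 v485 v199 (k8 v488 v202 v493 v205 v496 v207 v502 v211 (k8 v214 v511 v217 v220 v224 v225 v228 v230 (k8 v231 v233 v235 v237 v239 v241 v243 v245 (k1 v247 (k1 v599 (k0))))))))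
noncomputable def cb102 : List VW := k1 v3 (k1 v275 (k1 v13 (k1 v304 (k1 v24 (k1 v31 (k1 v566 (k0)))))))
noncomputable def cb103 : List VW := k8 v144 v275 v0 v2 v303 v15 v21 v160 (k8 v439 v30 v35 v42 v341 v54 v59 v355 (k1 v568 (k0)))
noncomputable def cb104 : List VW := k8 v3 v144 v275 v0 v263 v11 v297 v294 (k8 v152 v160 v441 v28 v460 v42 v174 v464 (k8 v52 v473 v186 v476 v190 v195 v485 v199 (k1 v202 (k1 v493 (k1 v590 (k0))))))
noncomputable def cb105 : List VW := k8 v278 v147 v274 v280 v149 v433 v293 v157 (k8 v160 v313 v167 v329 v171 v174 v338 v182 (k8 v473 v59 v186 v476 v190 v71 v195 v485 (k8 v199 v79 v202 v493 v205 v207 v502 v211 (k8 v213 v511 v217 v219 v518 v106 v225 v524 (k1 v594 (k0))))))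
noncomputable def cb106 : List VW := k8 v276 v144 v275 v423 v0 v149 v433 v291 (k8 v157 v160 v436 v305 v168 v460 v562 v326 (k8 v170 v174 v464 v182 v473 v184 v186 v476 (k8 v190 v481 v195 v485 v199 v79 v202 v493 (k8 v205 v86 v207 v502 v211 v213 v511 v217 (k8 v219 v518 v223 v225 v524 v228 v230 v528 (k1 v529 (k1 v531 (k1 v532 (k1 v536 (k1 v597 (k0)))))))))))
noncomputable def cb107 : List VW := k8 v1 v144 v275 v423 v279 v149 v433 v426 (k8 v160 v446 v441 v167 v460 v452 v174 v465 (k8 v182 v470 v186 v476 v190 v481 v195 v485 (k8 v199 v489 v202 v493 v205 v497 v207 v502 (k8 v211 v213 v511 v217 v219 v518 v223 v225 (k8 v524 v228 v230 v528 v231 v233 v531 v532 (k8 v536 v239 v241 v541 v543 v544 v545 v546 (k1 v252 (k1 v254 (k1 v601 (k0))))))))))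
noncomputable def cb108 : List VW := k8 v1 v144 v274 v423 v418 v149 v433 v426 (k8 v160 v446 v441 v167 v460 v452 v174 v464 (k8 v180 v470 v186 v476 v190 v481 v195 v485 (k8 v199 v489 v202 v493 v205 v208 v502 v211 (k8 v213 v511 v217 v219 v518 v223 v225 v524 (k1 v525 (k1 v528 (k1 v529 (k1 v531 (k1 v596 (k0))))))))))
noncomputable def cb109 : List VW := k8 v3 v275 v289 v13 v304 v15 v21 v319 (k1 v31 (k1 v45 (k1 v56 (k1 v567 (k0)))))
noncomputable def cb110 : List VW := k8 v3 v147 v275 v0 v2 v429 v15 v21 (k8 v160 v310 v265 v30 v456 v35 v42 v341 (k8 v266 v54 v472 v59 v355 v475 v363 v71 (k8 v367 v75 v79 v375 v84 v86 v89 v93 (k1 v94 (k1 v389 (k1 v572 (k0)))))))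
noncomputable def cb111 : List VW := k8 v4 v144 v275 v281 v2 v429 v560 v22 (k8 v160 v314 v264 v28 v165 v330 v42 v174 (k8 v339 v266 v52 v472 v59 v186 v353 v267 (k8 v64 v189 v71 v195 v484 v198 v79 v202 (k8 v492 v82 v498 v207 v501 v210 v213 v510 (k8 v216 v219 v517 v106 v107 v523 v111 v230 (k8 v112 v114 v115 v116 v119 v120 v122 v125 (k8 v241 v126 v128 v245 v132 v249 v134 v135 (k1 v548 (k1 v601 (k0))))))))))
noncomputable def cb112 : List VW := k8 v278 v3 v424 v273 v0 v2 v10 v429 (k8 v560 v290 v161 v313 v264 v27 v165 v329 (k8 v42 v174 v338 v266 v51 v472 v59 v186 (k8 v352 v267 v63 v189 v71 v195 v484 v198 (k8 v79 v202 v492 v378 v498 v207 v501 v210 (k8 v213 v510 v216 v219 v517 v106 v225 v108 (k8 v526 v230 v112 v114 v115 v530 v118 v238 (k8 v122 v125 v241 v126 v128 v245 v132 v249 (k1 v134 (k1 v135 (k1 v548 (k1 v255 (k1 v139 (k1 v602 (k0))))))))))))))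
noncomputable def cb113 : List VW := k8 v278 v144 v275 v274 v0 v149 v433 v293 (k8 v157 v161 v313 v169 v329 v43 v174 v338 (k8 v182 v58 v183 v186 v352 v192 v71 v195 (k8 v364 v200 v79 v202 v493 v205 v86 v207 (k8 v502 v211 v213 v511 v217 v219 v518 v106 (k8 v225 v524 v111 v230 v528 v114 v233 v531 (k8 v119 v237 v536 v125 v241 v541 v128 v245 (k1 v132 (k1 v599 (k0)))))))))
noncomputable def cb114 : List VW := k8 v278 v144 v275 v274 v280 v149 v433 v293 (k8 v157 v161 v436 v313 v167 v460 v35 v170 (k8 v174 v338 v182 v473 v183 v186 v476 v192 (k8 v194 v195 v485 v199 v79 v202 v493 v205 (k8 v86 v207 v502 v211 v213 v511 v217 v219 (k8 v518 v223 v225 v524 v111 v230 v528 v114 (k8 v233 v531 v119 v237 v536 v239 v241 v541 (k1 v598 (k0))))))))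
noncomputable def cb115 : List VW := k1 v3 (k1 v8 (k1 v25 (k1 v564 (k0))))
noncomputable def cb116 : List VW := k1 v3 (k1 v0 (k1 v158 (k1 v307 (k1 v566 (k0)))))
noncomputable def cb117 : List VW := k1 v3 (k1 v0 (k1 v10 (k1 v157 (k1 v441 (k1 v566 (k0))))))
noncomputable def cb118 : List VW := k8 v416 v147 v422 v149 v426 v160 v441 v167 (k8 v452 v174 v464 v180 v469 v186 v476 v190 (k8 v480 v195 v485 v199 v488 v202 v493 v205 (k8 v496 v207 v502 v508 v214 v511 v516 v219 (k8 v518 v223 v226 v229 v230 v232 v233 v235 (k8 v237 v239 v241 v244 v245 v247 v249 v251 (k1 v252 (k1 v254 (k1 v255 (k1 v256 (k1 v602 (k0)))))))))))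
noncomputable def cb119 : List VW := k1 v3 (k1 v0 (k1 v149 (k1 v21 (k1 v167 (k1 v566 (k0))))))
noncomputable def cb120 : List VW := k8 v1 v144 v423 v422 v149 v426 v160 v441 (k8 v167 v452 v174 v464 v180 v469 v186 v476 (k8 v190 v480 v195 v485 v199 v488 v202 v493 (k8 v205 v496 v207 v502 v508 v214 v511 v516 (k8 v219 v518 v522 v225 v229 v230 v232 v233 (k8 v235 v237 v239 v241 v244 v245 v247 v249 (k8 v251 v252 v254 v255 v256 v257 v259 v260 (k1 v261 (k1 v604 (k0)))))))))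
noncomputable def cb121 : List VW := k1 v144 (k1 v0 (k1 v10 (k1 v433 (k1 v21 (k1 v441 (k1 v586 (k0)))))))
noncomputable def cb122 : List VW := k8 v1 v144 v423 v418 v149 v427 v160 v441 (k8 v167 v452 v174 v464 v180 v470 v186 v476 (k8 v190 v480 v195 v485 v199 v488 v202 v493 (k8 v205 v496 v207 v502 v508 v214 v511 v516 (k8 v219 v518 v522 v225 v229 v230 v232 v233 (k8 v235 v237 v239 v241 v244 v245 v247 v249 (k8 v251 v252 v254 v255 v256 v257 v259 v603 (k0)))))))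
noncomputable def cb123 : List VW := k1 v3 (k1 v0 (k1 v12 (k1 v433 (k1 v21 (k1 v441 (k1 v566 (k0)))))))
noncomputable def cb124 : List VW := k8 v145 v274 v0 v149 v293 v152 v160 v307 (k1 v167 (k1 v177 (k1 v182 (k1 v587 (k0)))))
noncomputable def cb125 : List VW := k8 v1 v147 v423 v418 v149 v433 v426 v160 (k8 v443 v169 v453 v174 v464 v180 v470 v186 (k8 v476 v190 v481 v195 v485 v199 v488 v202 (k8 v493 v205 v496 v207 v502 v508 v214 v511 (k8 v516 v219 v518 v522 v225 v229 v230 v232 (k8 v233 v235 v237 v239 v241 v243 v245 v247 (k8 v249 v251 v252 v254 v255 v256 v257 v259 (k1 v260 (k1 v261 (k1 v604 (k0))))))))))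
noncomputable def cb126 : List VW := k1 v3 (k1 v0 (k1 v12 (k1 v15 (k1 v21 (k1 v31 (k1 v566 (k0)))))))
noncomputable def cb127 : List VW := k8 v7 v0 v12 v299 v15 v21 v310 v30 (k1 v566 (k0))
noncomputable def cb128 : List VW := k8 v3 v147 v0 v2 v148 v295 v21 v309 (k1 v29 (k1 v42 (k1 v463 (k1 v567 (k0)))))
noncomputable def cb129 : List VW := k8 v144 v274 v0 v263 v11 v433 v152 v160 (k8 v441 v28 v330 v44 v464 v180 v59 v353 (k1 v64 (k1 v588 (k0))))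
noncomputable def cb130 : List VW := k8 v278 v144 v274 v280 v149 v433 v293 v157 (k8 v161 v307 v167 v460 v171 v174 v464 v180 (k8 v473 v59 v186 v476 v190 v71 v195 v485 (k8 v199 v79 v202 v493 v205 v207 v502 v211 (k1 v213 (k1 v511 (k1 v217 (k1 v219 (k1 v518 (k1 v593 (k0))))))))))
noncomputable def cb131 : List VW := k8 v1 v144 v275 v423 v418 v149 v433 v426 (k8 v160 v446 v441 v167 v460 v452 v174 v465 (k8 v182 v470 v186 v476 v190 v481 v195 v485 (k8 v199 v489 v202 v493 v205 v497 v207 v502 (k8 v211 v213 v511 v217 v219 v518 v223 v225 (k8 v524 v228 v230 v528 v231 v233 v531 v532 (k8 v536 v239 v241 v541 v543 v544 v545 v546 (k1 v252 (k1 v254 (k1 v601 (k0))))))))))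
noncomputable def cb132 : List VW := k8 v3 v275 v289 v13 v304 v15 v21 v319 (k1 v31 (k1 v43 (k1 v56 (k1 v567 (k0)))))
noncomputable def cb133 : List VW := k8 v3 v424 v275 v288 v2 v429 v15 v21 (k8 v160 v310 v265 v30 v456 v35 v42 v341 (k8 v266 v54 v472 v59 v355 v268 v66 v69 (k8 v71 v367 v75 v79 v375 v84 v86 v89 (k1 v93 (k1 v94 (k1 v213 (k1 v510 (k1 v99 (k1 v102 (k1 v573 (k0)))))))))))
noncomputable def cb134 : List VW := k8 v4 v144 v275 v281 v2 v429 v560 v22 (k8 v160 v314 v264 v28 v165 v330 v42 v174 (k8 v339 v266 v52 v472 v59 v186 v353 v267 (k8 v64 v189 v71 v195 v484 v198 v79 v202 (k8 v492 v82 v498 v207 v501 v210 v213 v510 (k8 v216 v219 v517 v106 v107 v523 v111 v230 (k8 v398 v114 v530 v119 v120 v122 v125 v241 (k1 v126 (k1 v128 (k1 v245 (k1 v132 (k1 v249 (k1 v134 (k1 v600 (k0))))))))))))))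
noncomputable def cb135 : List VW := k8 v278 v144 v275 v285 v2 v429 v560 v290 (k8 v160 v313 v264 v27 v165 v329 v42 v178 (k8 v463 v51 v472 v59 v186 v475 v63 v189 (k8 v71 v195 v484 v72 v490 v202 v492 v81 (k8 v498 v207 v501 v210 v213 v510 v216 v219 (k8 v517 v106 v225 v108 v227 v230 v112 v114 (k8 v115 v530 v118 v237 v122 v125 v241 v540 (k1 v598 (k0))))))))
noncomputable def cb136 : List VW := k8 v278 v144 v275 v274 v280 v149 v433 v293 (k8 v157 v161 v313 v167 v329 v43 v174 v338 (k8 v182 v58 v183 v186 v352 v192 v69 v71 (k8 v195 v364 v200 v79 v202 v493 v205 v86 (k8 v207 v502 v211 v213 v511 v217 v219 v518 (k8 v223 v225 v524 v111 v230 v528 v114 v233 (k8 v116 v535 v237 v536 v125 v241 v541 v598 (k0)))))))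
noncomputable def cb137 : List VW := k8 v278 v144 v275 v274 v280 v149 v433 v293 (k8 v157 v161 v446 v307 v167 v462 v35 v170 (k8 v174 v338 v182 v473 v183 v186 v476 v63 (k8 v190 v194 v195 v485 v199 v79 v202 v493 (k8 v205 v86 v207 v502 v211 v213 v511 v217 (k8 v219 v518 v223 v225 v524 v111 v230 v528 (k8 v114 v233 v531 v119 v237 v536 v239 v241 (k1 v541 (k1 v598 (k0)))))))))
noncomputable def cb138 : List VW := k8 v276 v147 v274 v279 v149 v433 v291 v157 (k8 v161 v311 v168 v460 v35 v326 v42 v174 (k8 v464 v182 v473 v184 v186 v476 v190 v194 (k8 v195 v485 v199 v79 v202 v493 v205 v207 (k8 v502 v211 v213 v511 v217 v219 v518 v223 (k1 v225 (k1 v524 (k1 v594 (k0))))))))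
noncomputable def cb139 : List VW := k1 v3 (k1 v0 (k1 v157 (k1 v307 (k1 v566 (k0)))))
noncomputable def cb140 : List VW := k1 v3 (k1 v0 (k1 v10 (k1 v157 (k1 v441 (k1 v565 (k0))))))
noncomputable def cb141 : List VW := k8 v416 v147 v422 v149 v426 v160 v441 v167 (k8 v452 v174 v464 v180 v469 v186 v476 v190 (k8 v480 v195 v485 v199 v488 v202 v493 v205 (k8 v496 v504 v212 v505 v512 v218 v514 v519 (k8 v224 v226 v229 v230 v232 v233 v235 v237 (k8 v239 v241 v244 v245 v247 v249 v251 v252 (k1 v254 (k1 v601 (k0))))))))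
noncomputable def cb142 : List VW := k8 v1 v144 v423 v418 v149 v426 v160 v441 (k8 v167 v452 v174 v464 v180 v469 v186 v476 (k8 v190 v480 v195 v485 v199 v488 v202 v493 (k8 v205 v496 v207 v502 v508 v214 v511 v516 (k8 v219 v518 v223 v226 v229 v230 v232 v233 (k8 v235 v237 v239 v241 v244 v245 v247 v249 (k1 v251 (k1 v600 (k0))))))))
noncomputable def cb143 : List VW := k1 v3 (k1 v13 (k1 v18 (k1 v32 (k1 v564 (k0)))))
noncomputable def cb144 : List VW := k1 v3 (k1 v0 (k1 v149 (k1 v22 (k1 v441 (k1 v586 (k0))))))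
noncomputable def cb145 : List VW := k8 v1 v144 v423 v418 v149 v426 v160 v441 (k8 v167 v452 v174 v464 v180 v470 v186 v476 (k8 v190 v480 v195 v485 v199 v488 v202 v493 (k8 v205 v496 v207 v502 v508 v214 v511 v516 (k8 v219 v518 v522 v226 v229 v230 v232 v233 (k8 v235 v237 v239 v241 v244 v245 v247 v249 (k1 v251 (k1 v252 (k1 v254 (k1 v601 (k0))))))))))
noncomputable def cb146 : List VW := k8 v3 v147 v0 v149 v293 v152 v160 v307 (k1 v167 (k1 v586 (k0)))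
noncomputable def cb147 : List VW := k8 v1 v144 v274 v0 v149 v426 v160 v441 (k1 v167 (k1 v170 (k1 v174 (k1 v464 (k1 v180 (k1 v587 (k0)))))))
noncomputable def cb148 : List VW := k8 v1 v147 v423 v418 v149 v433 v426 v160 (k8 v446 v441 v167 v460 v452 v174 v465 v180 (k8 v470 v186 v476 v190 v481 v195 v485 v199 (k8 v488 v202 v493 v205 v496 v207 v502 v211 (k8 v214 v511 v217 v220 v518 v223 v226 v228 (k8 v230 v231 v233 v235 v237 v239 v241 v243 (k8 v245 v247 v249 v251 v252 v254 v255 v256 (k1 v257 (k1 v259 (k1 v603 (k0))))))))))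
noncomputable def cb149 : List VW := k8 v144 v0 v12 v299 v15 v21 v310 v30 (k1 v42 (k1 v341 (k1 v567 (k0))))
noncomputable def cb150 : List VW := k8 v144 v274 v0 v263 v11 v433 v152 v160 (k1 v441 (k1 v28 (k1 v330 (k1 v42 (k1 v464 (k1 v52 (k1 v587 (k0))))))))
noncomputable def cb151 : List VW := k8 v278 v144 v274 v0 v149 v435 v154 v163 (k8 v307 v167 v329 v171 v174 v338 v182 v183 (k8 v186 v67 v192 v195 v200 v202 v493 v590 (k0)))
noncomputable def cb152 : List VW := k8 v1 v144 v274 v423 v0 v149 v433 v426 (k8 v161 v444 v167 v460 v452 v174 v464 v180 (k8 v470 v186 v476 v190 v194 v195 v485 v491 (k8 v202 v493 v205 v207 v502 v211 v213 v511 (k1 v592 (k0)))))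
noncomputable def cb153 : List VW := k8 v1 v144 v274 v423 v418 v149 v433 v426 (k8 v160 v446 v441 v167 v460 v452 v174 v465 (k8 v180 v470 v186 v476 v190 v481 v195 v485 (k8 v199 v489 v202 v493 v205 v497 v207 v502 (k8 v211 v213 v511 v217 v219 v518 v223 v225 (k8 v524 v228 v230 v528 v231 v233 v235 v237 (k1 v239 (k1 v241 (k1 v243 (k1 v245 (k1 v247 (k1 v599 (k0))))))))))))
noncomputable def cb154 : List VW := k8 v4 v424 v275 v288 v2 v12 v432 v15 (k8 v21 v160 v316 v265 v30 v456 v35 v42 (k8 v174 v341 v266 v54 v472 v59 v186 v355 (k8 v268 v66 v69 v71 v367 v75 v77 v79 (k8 v375 v84 v86 v89 v93 v94 v213 v510 (k1 v99 (k1 v102 (k1 v573 (k0))))))))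
noncomputable def cb155 : List VW := k8 v278 v147 v275 v286 v2 v429 v560 v22 (k8 v161 v314 v264 v28 v165 v330 v42 v174 (k8 v339 v266 v52 v472 v59 v186 v353 v267 (k8 v64 v189 v71 v195 v484 v198 v79 v202 (k8 v492 v82 v498 v207 v501 v210 v213 v510 (k8 v216 v219 v517 v106 v107 v523 v111 v230 (k8 v528 v114 v115 v116 v119 v120 v122 v125 (k8 v241 v126 v128 v129 v130 v132 v249 v134 (k1 v135 (k1 v548 (k1 v601 (k0)))))))))))
noncomputable def cb156 : List VW := k8 v278 v3 v424 v273 v280 v2 v429 v560 (k8 v290 v161 v313 v264 v27 v165 v329 v42 (k8 v174 v338 v266 v51 v472 v59 v186 v475 (k8 v63 v189 v71 v195 v484 v198 v78 v202 (k8 v492 v81 v498 v207 v501 v210 v213 v510 (k8 v216 v219 v517 v222 v225 v523 v111 v230 (k8 v112 v114 v115 v530 v118 v237 v122 v125 (k1 v241 (k1 v126 (k1 v128 (k1 v245 (k1 v544 (k1 v599 (k0)))))))))))))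
noncomputable def cb157 : List VW := k8 v278 v144 v275 v274 v280 v149 v433 v293 (k8 v157 v161 v436 v307 v167 v460 v35 v42 (k8 v174 v338 v182 v345 v183 v186 v352 v192 (k8 v69 v71 v195 v364 v200 v79 v202 v493 (k8 v205 v86 v207 v502 v211 v213 v511 v217 (k8 v219 v518 v223 v225 v524 v111 v230 v528 (k8 v114 v233 v401 v534 v237 v536 v125 v241 (k1 v541 (k1 v128 (k1 v245 (k1 v544 (k1 v599 (k0))))))))))))
noncomputable def cb158 : List VW := k8 v278 v144 v275 v274 v285 v149 v433 v293 (k8 v157 v161 v436 v313 v167 v460 v563 v170 (k8 v174 v338 v464 v182 v473 v184 v186 v352 (k8 v67 v192 v483 v71 v195 v485 v199 v491 (k8 v79 v202 v493 v205 v86 v207 v502 v211 (k8 v94 v213 v511 v217 v221 v518 v223 v225 (k8 v524 v228 v230 v528 v114 v233 v531 v235 (k8 v237 v536 v239 v241 v541 v243 v245 v544 (k8 v247 v249 v546 v251 v252 v549 v255 v553 (k1 v257 (k1 v556 (k1 v603 (k0))))))))))))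
noncomputable def cb159 : List VW := k8 v276 v144 v275 v423 v0 v149 v433 v291 (k8 v158 v160 v446 v441 v167 v460 v562 v326 (k8 v170 v174 v464 v182 v473 v184 v186 v476 (k8 v190 v194 v195 v485 v199 v79 v202 v493 (k8 v205 v497 v207 v502 v211 v213 v511 v217 (k8 v219 v518 v223 v225 v524 v228 v230 v528 (k1 v529 (k1 v531 (k1 v596 (k0)))))))))
noncomputable def cb160 : List VW := k8 v416 v144 v423 v418 v149 v426 v160 v441 (k8 v167 v452 v174 v464 v180 v469 v186 v476 (k8 v190 v480 v195 v485 v199 v488 v202 v493 (k8 v205 v496 v207 v502 v508 v214 v511 v516 (k8 v220 v518 v522 v226 v229 v230 v232 v233 (k8 v235 v237 v240 v241 v244 v245 v247 v249 (k1 v251 (k1 v252 (k1 v254 (k1 v255 (k1 v256 (k1 v602 (k0))))))))))))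
noncomputable def cb161 : List VW := k8 v1 v144 v417 v418 v149 v426 v160 v441 (k8 v167 v173 v174 v464 v473 v186 v192 v588 (k0))
noncomputable def cb162 : List VW := k8 v1 v144 v423 v418 v149 v433 v426 v160 (k8 v443 v169 v453 v174 v464 v180 v470 v186 (k8 v476 v190 v480 v195 v485 v199 v488 v202 (k8 v493 v205 v496 v207 v502 v211 v214 v511 (k8 v217 v220 v224 v226 v229 v230 v232 v233 (k8 v235 v237 v239 v241 v243 v245 v247 v249 (k1 v251 (k1 v252 (k1 v254 (k1 v255 (k1 v256 (k1 v602 (k0))))))))))))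
noncomputable def cb163 : List VW := k8 v144 v0 v149 v293 v152 v160 v307 v167 (k1 v586 (k0))
noncomputable def cb164 : List VW := k8 v1 v144 v274 v0 v149 v426 v160 v305 (k1 v167 (k1 v170 (k1 v174 (k1 v182 (k1 v587 (k0))))))
noncomputable def cb165 : List VW := k8 v1 v144 v423 v418 v149 v433 v426 v160 (k8 v443 v167 v453 v174 v464 v180 v470 v186 (k8 v476 v190 v480 v195 v485 v199 v488 v202 (k8 v493 v205 v496 v207 v502 v508 v214 v511 (k8 v516 v219 v518 v522 v226 v229 v230 v232 (k8 v233 v235 v237 v240 v241 v244 v245 v247 (k1 v249 (k1 v251 (k1 v252 (k1 v254 (k1 v255 (k1 v256 (k1 v602 (k0)))))))))))))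
noncomputable def cb166 : List VW := k1 v3 (k1 v275 (k1 v14 (k1 v25 (k1 v31 (k1 v566 (k0))))))
noncomputable def cb167 : List VW := k8 v7 v0 v12 v435 v22 v310 v30 v566 (k0)
noncomputable def cb168 : List VW := k8 v3 v147 v0 v263 v11 v301 v561 v160 (k1 v441 (k1 v28 (k1 v35 (k1 v42 (k1 v339 (k1 v52 (k1 v587 (k0))))))))
noncomputable def cb169 : List VW := k8 v278 v144 v274 v285 v149 v433 v293 v155 (k8 v160 v444 v167 v460 v170 v174 v464 v180 (k8 v184 v186 v476 v190 v71 v195 v201 v202 (k1 v493 (k1 v205 (k1 v207 (k1 v502 (k1 v591 (k0))))))))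
noncomputable def cb170 : List VW := k8 v1 v144 v274 v423 v418 v149 v433 v426 (k8 v160 v446 v441 v167 v460 v452 v178 v465 (k8 v180 v470 v186 v478 v476 v190 v481 v195 (k8 v485 v199 v489 v202 v493 v205 v497 v207 (k8 v502 v211 v214 v511 v217 v220 v518 v223 (k8 v225 v524 v228 v230 v528 v231 v233 v235 (k8 v237 v239 v241 v243 v245 v247 v249 v251 (k1 v252 (k1 v254 (k1 v255 (k1 v256 (k1 v257 (k1 v259 (k1 v603 (k0))))))))))))))
noncomputable def cb171 : List VW := k8 v3 v275 v289 v13 v304 v15 v21 v319 (k1 v31 (k1 v42 (k1 v56 (k1 v567 (k0)))))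
noncomputable def cb172 : List VW := k8 v3 v147 v275 v0 v2 v429 v15 v21 (k8 v160 v310 v265 v30 v459 v43 v341 v266 (k8 v54 v472 v59 v186 v475 v363 v71 v367 (k1 v75 (k1 v79 (k1 v375 (k1 v84 (k1 v86 (k1 v88 (k1 v571 (k0))))))))))
noncomputable def cb173 : List VW := k8 v278 v144 v275 v281 v2 v429 v560 v22 (k8 v160 v314 v264 v28 v165 v330 v42 v174 (k8 v339 v266 v52 v472 v59 v186 v475 v64 (k8 v189 v71 v195 v484 v73 v490 v202 v492 (k8 v82 v498 v207 v501 v210 v213 v510 v216 (k8 v219 v517 v106 v107 v108 v111 v230 v112 (k8 v114 v530 v118 v237 v122 v125 v241 v540 (k1 v598 (k0))))))))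
noncomputable def cb174 : List VW := k8 v278 v144 v275 v285 v2 v429 v560 v290 (k8 v161 v313 v264 v27 v165 v329 v42 v174 (k8 v338 v266 v51 v472 v59 v186 v475 v63 (k8 v189 v71 v195 v484 v72 v490 v202 v492 (k8 v81 v498 v207 v501 v210 v213 v510 v216 (k8 v219 v517 v106 v225 v108 v227 v230 v112 (k8 v114 v115 v530 v118 v237 v122 v125 v241 (k1 v540 (k1 v598 (k0)))))))))
noncomputable def cb175 : List VW := k8 v278 v144 v275 v274 v280 v149 v433 v293 (k8 v157 v161 v436 v307 v169 v329 v43 v174 (k8 v338 v182 v345 v183 v186 v352 v192 v69 (k8 v71 v195 v364 v200 v79 v202 v493 v205 (k8 v86 v207 v502 v211 v213 v511 v217 v219 (k8 v518 v223 v225 v524 v111 v230 v528 v114 (k8 v233 v116 v535 v237 v404 v539 v241 v541 (k1 v598 (k0))))))))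
noncomputable def cb176 : List VW := k8 v278 v144 v275 v274 v285 v149 v433 v293 (k8 v157 v161 v438 v313 v167 v460 v563 v170 (k8 v174 v338 v464 v182 v473 v184 v186 v477 (k8 v192 v483 v71 v195 v485 v199 v369 v79 (k8 v202 v493 v205 v86 v207 v502 v211 v213 (k8 v511 v217 v219 v518 v223 v225 v524 v228 (k8 v230 v528 v114 v233 v531 v235 v237 v536 (k8 v239 v241 v541 v243 v245 v544 v247 v249 (k1 v546 (k1 v251 (k1 v252 (k1 v549 (k1 v601 (k0)))))))))))))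
noncomputable def cb177 : List VW := k8 v276 v144 v275 v423 v0 v149 v433 v291 (k8 v157 v160 v446 v305 v168 v462 v562 v326 (k8 v172 v178 v465 v182 v473 v184 v186 v476 (k8 v192 v481 v195 v485 v199 v79 v202 v493 (k8 v205 v86 v207 v502 v211 v213 v511 v217 (k8 v219 v518 v223 v225 v524 v228 v230 v528 (k8 v231 v233 v531 v532 v536 v538 v541 v543 (k1 v544 (k1 v599 (k0)))))))))
noncomputable def cb178 : List VW := k8 v1 v144 v275 v423 v0 v149 v433 v426 (k8 v160 v446 v441 v167 v460 v452 v174 v464 (k8 v180 v470 v186 v476 v190 v194 v195 v485 (k8 v199 v489 v202 v493 v205 v497 v207 v502 (k8 v211 v213 v511 v217 v219 v518 v223 v225 (k1 v524 (k1 v525 (k1 v528 (k1 v595 (k0)))))))))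
noncomputable def cb179 : List VW := k8 v3 v424 v275 v288 v2 v429 v561 v21 (k8 v160 v316 v265 v30 v456 v35 v44 v341 (k8 v266 v54 v472 v59 v355 v268 v66 v69 (k8 v71 v367 v75 v79 v375 v84 v86 v89 (k1 v93 (k1 v94 (k1 v213 (k1 v510 (k1 v99 (k1 v102 (k1 v573 (k0)))))))))))
noncomputable def cb180 : List VW := k1 v3 (k1 v0 (k1 v21 (k1 v167 (k1 v565 (k0)))))
noncomputable def cb181 : List VW := k8 v416 v144 v423 v418 v149 v426 v160 v441 (k8 v167 v452 v174 v464 v180 v469 v186 v476 (k8 v190 v480 v195 v485 v199 v488 v202 v493 (k8 v205 v496 v207 v502 v508 v214 v511 v516 (k8 v220 v518 v522 v226 v229 v230 v232 v233 (k8 v235 v237 v240 v241 v244 v245 v248 v249 (k8 v251 v252 v254 v255 v256 v257 v259 v260 (k1 v261 (k1 v604 (k0)))))))))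
noncomputable def cb182 : List VW := k8 v1 v144 v418 v149 v426 v160 v441 v167 (k1 v175 (k1 v182 (k1 v587 (k0))))
noncomputable def cb183 : List VW := k8 v1 v144 v417 v418 v149 v426 v160 v441 (k8 v167 v452 v174 v464 v180 v185 v186 v476 (k8 v190 v480 v486 v200 v488 v494 v205 v208 (k1 v211 (k1 v591 (k0)))))
noncomputable def cb184 : List VW := k8 v416 v144 v417 v418 v149 v426 v160 v441 (k8 v167 v452 v174 v464 v180 v469 v186 v476 (k8 v190 v480 v195 v485 v199 v488 v202 v493 (k8 v499 v208 v212 v214 v218 v220 v224 v226 (k1 v228 (k1 v230 (k1 v231 (k1 v233 (k1 v235 (k1 v596 (k0))))))))))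
noncomputable def cb185 : List VW := k8 v1 v144 v417 v418 v149 v426 v160 v441 (k8 v167 v172 v174 v464 v473 v186 v192 v588 (k0))
noncomputable def cb186 : List VW := k8 v1 v144 v417 v419 v149 v427 v160 v441 (k8 v167 v452 v174 v464 v180 v469 v186 v476 (k8 v190 v480 v195 v485 v491 v203 v493 v499 (k1 v208 (k1 v212 (k1 v214 (k1 v218 (k1 v220 (k1 v224 (k1 v593 (k0))))))))))
noncomputable def cb187 : List VW := k8 v1 v144 v417 v419 v149 v427 v160 v441 (k8 v167 v452 v174 v464 v180 v469 v186 v476 (k8 v190 v480 v195 v485 v199 v488 v202 v493 (k8 v499 v208 v212 v214 v218 v220 v224 v225 (k1 v228 (k1 v594 (k0))))))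
noncomputable def cb188 : List VW := k8 v144 v0 v10 v433 v15 v163 v307 v167 (k1 v586 (k0))
noncomputable def cb189 : List VW := k8 v1 v144 v423 v418 v149 v433 v426 v160 (k8 v442 v167 v452 v174 v464 v180 v470 v186 (k8 v476 v190 v194 v195 v485 v491 v203 v493 (k1 v205 (k1 v208 (k1 v502 (k1 v211 (k1 v213 (k1 v217 (k1 v592 (k0))))))))))
noncomputable def cb190 : List VW := k8 v1 v144 v423 v418 v149 v433 v426 v160 (k8 v443 v169 v453 v174 v464 v180 v470 v186 (k8 v476 v190 v480 v195 v485 v199 v488 v202 (k8 v493 v205 v496 v504 v212 v214 v218 v220 (k8 v224 v225 v228 v230 v231 v233 v235 v596 (k0)))))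
noncomputable def cb191 : List VW := k1 v3 (k1 v275 (k1 v14 (k1 v24 (k1 v31 (k1 v566 (k0))))))
noncomputable def cb192 : List VW := k8 v3 v0 v12 v433 v21 v310 v30 v566 (k0)
noncomputable def cb193 : List VW := k8 v144 v0 v11 v297 v294 v21 v442 v28 (k1 v35 (k1 v42 (k1 v464 (k1 v587 (k0)))))
noncomputable def cb194 : List VW := k8 v278 v144 v274 v280 v149 v435 v156 v160 (k8 v307 v167 v460 v170 v174 v464 v180 v183 (k8 v186 v67 v192 v195 v200 v202 v493 v590 (k0)))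
noncomputable def cb195 : List VW := k8 v1 v144 v274 v423 v418 v149 v433 v426 (k8 v160 v436 v443 v167 v460 v452 v174 v464 (k8 v180 v470 v186 v476 v190 v481 v195 v485 (k8 v199 v489 v202 v493 v205 v496 v207 v502 (k8 v211 v213 v511 v217 v219 v518 v223 v225 (k1 v524 (k1 v594 (k0)))))))
noncomputable def cb196 : List VW := k8 v1 v147 v423 v418 v149 v433 v426 v160 (k8 v446 v441 v167 v460 v452 v174 v465 v180 (k8 v470 v186 v476 v190 v481 v195 v485 v199 (k8 v488 v202 v493 v205 v496 v207 v502 v211 (k8 v214 v511 v217 v220 v518 v223 v225 v228 (k1 v230 (k1 v231 (k1 v233 (k1 v235 (k1 v237 (k1 v239 (k1 v597 (k0))))))))))))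
noncomputable def cb197 : List VW := k8 v3 v147 v275 v0 v2 v429 v15 v21 (k8 v160 v310 v265 v30 v456 v42 v174 v463 (k8 v54 v58 v59 v355 v66 v71 v367 v75 (k1 v79 (k1 v375 (k1 v570 (k0))))))
noncomputable def cb198 : List VW := k8 v278 v144 v275 v274 v281 v263 v11 v433 (k8 v294 v152 v21 v161 v446 v441 v28 v332 (k8 v460 v35 v42 v174 v464 v52 v473 v59 (k8 v186 v476 v64 v190 v71 v195 v485 v199 (k8 v79 v202 v493 v205 v86 v207 v502 v211 (k8 v213 v511 v217 v219 v518 v223 v225 v108 (k8 v527 v230 v528 v114 v115 v531 v118 v238 (k1 v405 (k1 v125 (k1 v241 (k1 v541 (k1 v598 (k0))))))))))))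
noncomputable def cb199 : List VW := k8 v278 v144 v275 v274 v285 v149 v433 v293 (k8 v157 v161 v446 v307 v167 v460 v563 v170 (k8 v174 v338 v182 v473 v184 v186 v477 v192 (k8 v483 v71 v195 v485 v199 v79 v202 v493 (k8 v205 v86 v207 v502 v211 v213 v511 v217 (k8 v219 v518 v223 v225 v524 v228 v230 v528 (k8 v114 v233 v531 v119 v238 v536 v239 v241 (k8 v541 v243 v245 v544 v247 v249 v546 v600 (k0))))))))
noncomputable def cb200 : List VW := k8 v276 v144 v275 v423 v279 v149 v433 v291 (k8 v157 v160 v446 v305 v167 v460 v562 v326 (k8 v170 v174 v336 v464 v182 v473 v184 v186 (k8 v350 v476 v192 v481 v195 v485 v199 v489 (k8 v202 v493 v205 v497 v207 v502 v211 v506 (k8 v213 v511 v516 v219 v518 v223 v225 v524 (k8 v228 v230 v528 v231 v233 v531 v235 v237 (k8 v536 v239 v241 v541 v243 v245 v544 v545 (k1 v546 (k1 v547 (k1 v549 (k1 v255 (k1 v256 (k1 v602 (k0))))))))))))))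
noncomputable def cb201 : List VW := k8 v1 v147 v274 v423 v279 v149 v433 v426 (k8 v160 v446 v441 v167 v460 v452 v174 v465 (k8 v182 v470 v186 v476 v190 v481 v195 v485 (k8 v199 v489 v202 v493 v205 v497 v207 v502 (k8 v211 v213 v511 v217 v219 v518 v223 v225 (k8 v524 v228 v230 v528 v529 v531 v532 v536 (k1 v597 (k0)))))))
noncomputable def cb202 : List VW := k8 v7 v275 v289 v13 v304 v15 v21 v319 (k1 v31 (k1 v35 (k1 v42 (k1 v56 (k1 v567 (k0))))))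
noncomputable def cb203 : List VW := k8 v3 v424 v275 v0 v2 v12 v432 v15 (k8 v21 v160 v310 v265 v30 v456 v35 v42 (k8 v341 v266 v54 v472 v59 v355 v268 v66 (k8 v69 v71 v367 v75 v79 v375 v84 v86 (k1 v89 (k1 v93 (k1 v94 (k1 v389 (k1 v572 (k0)))))))))
noncomputable def cb204 : List VW := k8 v278 v147 v275 v274 v0 v263 v11 v433 (k8 v294 v152 v21 v160 v323 v308 v265 v28 (k8 v461 v330 v42 v174 v339 v266 v52 v473 (k8 v59 v186 v353 v268 v64 v190 v71 v195 (k8 v485 v73 v199 v79 v202 v493 v82 v205 (k8 v86 v207 v502 v211 v213 v511 v217 v219 (k8 v518 v106 v225 v524 v111 v230 v528 v114 (k8 v115 v531 v119 v120 v536 v125 v241 v126 (k8 v128 v129 v544 v131 v250 v134 v135 v549 (k1 v255 (k1 v139 (k1 v602 (k0))))))))))))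
noncomputable def cb205 : List VW := k1 v0 (k1 v160 (k1 v566 (k0)))
noncomputable def cb206 : List VW := k1 v144 (k1 v149 (k1 v21 (k1 v167 (k1 v565 (k0)))))
noncomputable def cb207 : List VW := k8 v1 v144 v423 v419 v149 v426 v160 v441 (k8 v167 v452 v174 v464 v180 v469 v186 v476 (k8 v190 v194 v195 v485 v491 v203 v493 v499 (k1 v208 (k1 v212 (k1 v214 (k1 v218 (k1 v220 (k1 v224 (k1 v593 (k0))))))))))
noncomputable def cb208 : List VW := k1 v3 (k1 v0 (k1 v10 (k1 v159 (k1 v313 (k1 v566 (k0))))))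
noncomputable def cb209 : List VW := k8 v1 v144 v418 v149 v158 v160 v441 v586 (k0)
noncomputable def cb210 : List VW := k8 v1 v144 v422 v149 v426 v160 v441 v167 (k8 v452 v174 v464 v180 v184 v186 v476 v483 (k1 v195 (k1 v200 (k1 v589 (k0)))))
noncomputable def cb211 : List VW := k8 v1 v144 v417 v418 v149 v426 v160 v441 (k8 v167 v452 v174 v464 v180 v469 v186 v476 (k8 v190 v480 v487 v200 v488 v202 v493 v499 (k8 v208 v212 v214 v218 v220 v224 v225 v228 (k1 v594 (k0)))))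
noncomputable def cb212 : List VW := k8 v1 v144 v274 v421 v149 v426 v160 v441 (k1 v167 (k1 v170 (k1 v174 (k1 v464 (k1 v587 (k0))))))
noncomputable def cb213 : List VW := k8 v1 v144 v423 v418 v149 v433 v426 v160 (k8 v443 v169 v453 v174 v464 v180 v470 v186 (k8 v476 v190 v480 v195 v485 v199 v488 v202 (k8 v493 v205 v496 v207 v502 v508 v214 v511 (k8 v516 v219 v224 v226 v229 v230 v232 v233 (k8 v235 v237 v239 v241 v243 v245 v247 v249 (k1 v251 (k1 v600 (k0))))))))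
noncomputable def cb214 : List VW := k1 v144 (k1 v0 (k1 v149 (k1 v154 (k1 v161 (k1 v168 (k1 v586 (k0)))))))
noncomputable def cb215 : List VW := k8 v1 v144 v274 v0 v149 v426 v160 v305 (k1 v167 (k1 v175 (k1 v182 (k1 v587 (k0)))))
noncomputable def cb216 : List VW := k1 v3 (k1 v275 (k1 v14 (k1 v21 (k1 v31 (k1 v566 (k0))))))
noncomputable def cb217 : List VW := k8 v144 v0 v12 v303 v15 v21 v441 v30 (k1 v35 (k1 v42 (k1 v464 (k1 v567 (k0)))))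
noncomputable def cb218 : List VW := k8 v278 v144 v274 v0 v149 v433 v153 v162 (k8 v307 v167 v460 v43 v174 v464 v180 v183 (k1 v186 (k1 v192 (k1 v195 (k1 v200 (k1 v589 (k0)))))))
noncomputable def cb219 : List VW := k8 v1 v144 v274 v423 v418 v149 v433 v426 (k8 v161 v444 v169 v453 v174 v464 v180 v470 (k8 v186 v476 v190 v194 v195 v485 v199 v489 (k8 v202 v493 v205 v208 v502 v211 v213 v511 (k1 v217 (k1 v219 (k1 v518 (k1 v593 (k0))))))))
noncomputable def cb220 : List VW := k8 v3 v275 v8 v13 v304 v15 v21 v319 (k1 v31 (k1 v566 (k0)))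
noncomputable def cb221 : List VW := k8 v3 v147 v275 v0 v2 v429 v15 v21 (k8 v310 v265 v30 v456 v42 v50 v463 v349 (k1 v59 (k1 v355 (k1 v66 (k1 v71 (k1 v367 (k1 v569 (k0))))))))
noncomputable def cb222 : List VW := k8 v278 v144 v275 v281 v263 v11 v433 v294 (k8 v152 v21 v160 v308 v265 v28 v332 v462 (k8 v170 v174 v464 v52 v473 v59 v186 v476 (k8 v64 v483 v195 v485 v199 v202 v493 v205 (k8 v207 v502 v211 v213 v511 v99 v100 v518 (k1 v593 (k0))))))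
noncomputable def cb223 : List VW := k8 v278 v144 v275 v274 v280 v149 v433 v293 (k8 v157 v160 v436 v313 v167 v460 v35 v170 (k8 v174 v338 v182 v473 v183 v188 v476 v192 (k8 v483 v71 v195 v485 v199 v79 v202 v493 (k8 v205 v86 v207 v502 v211 v213 v511 v217 (k8 v219 v518 v223 v225 v524 v228 v230 v528 (k1 v114 (k1 v233 (k1 v531 (k1 v119 (k1 v237 (k1 v536 (k1 v597 (k0)))))))))))))
noncomputable def cb224 : List VW := k8 v276 v144 v275 v423 v0 v149 v433 v291 (k8 v157 v160 v446 v305 v167 v460 v562 v326 (k8 v42 v174 v465 v182 v473 v184 v186 v476 (k8 v190 v481 v195 v485 v199 v489 v202 v493 (k8 v205 v86 v207 v502 v211 v213 v511 v217 (k8 v219 v518 v223 v225 v524 v228 v230 v528 (k8 v231 v233 v531 v532 v536 v538 v541 v598 (k0)))))))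
noncomputable def cb225 : List VW := k8 v1 v147 v274 v423 v279 v149 v433 v426 (k8 v160 v446 v441 v167 v460 v452 v174 v465 (k8 v182 v470 v186 v476 v190 v481 v195 v485 (k8 v199 v489 v202 v493 v205 v497 v207 v502 (k8 v211 v213 v511 v217 v219 v518 v223 v225 (k8 v524 v228 v230 v528 v231 v233 v531 v532 (k1 v536 (k1 v538 (k1 v541 (k1 v598 (k0))))))))))
noncomputable def cb226 : List VW := k8 v4 v424 v273 v0 v2 v429 v561 v21 (k8 v161 v316 v265 v30 v456 v35 v42 v174 (k8 v341 v266 v54 v472 v59 v186 v355 v268 (k8 v66 v69 v71 v367 v75 v77 v79 v375 (k8 v84 v86 v384 v93 v94 v389 v98 v99 (k1 v393 (k1 v573 (k0)))))))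
noncomputable def cb227 : List VW := k8 v278 v147 v275 v281 v2 v429 v560 v22 (k8 v160 v323 v308 v264 v28 v456 v35 v42 (k8 v174 v339 v266 v52 v472 v59 v186 v353 (k8 v267 v64 v189 v71 v195 v484 v73 v198 (k8 v79 v202 v492 v82 v85 v86 v207 v501 (k8 v91 v507 v213 v510 v216 v219 v517 v106 (k8 v107 v523 v111 v230 v528 v114 v530 v119 (k8 v120 v122 v125 v241 v126 v128 v245 v132 (k1 v249 (k1 v134 (k1 v252 (k1 v136 (k1 v552 (k1 v257 (k1 v583 (k0)))))))))))))))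
noncomputable def cb228 : List VW := k8 v278 v144 v275 v274 v0 v263 v10 v433 (k8 v560 v290 v160 v322 v313 v264 v27 v461 (k8 v329 v42 v174 v338 v266 v51 v473 v59 (k8 v186 v352 v267 v63 v190 v71 v195 v485 (k8 v72 v491 v202 v493 v81 v500 v207 v502 (k8 v211 v213 v511 v217 v219 v518 v106 v225 (k8 v524 v111 v230 v528 v114 v115 v531 v118 (k1 v237 (k1 v536 (k1 v597 (k0))))))))))
noncomputable def cb229 : List VW := k8 v278 v144 v275 v274 v0 v149 v433 v293 (k8 v157 v160 v436 v307 v169 v329 v170 v174 (k8 v338 v182 v58 v183 v186 v352 v192 v71 (k8 v195 v364 v200 v79 v202 v493 v205 v207 (k8 v502 v211 v213 v511 v217 v219 v518 v106 (k1 v225 (k1 v524 (k1 v111 (k1 v230 (k1 v528 (k1 v595 (k0)))))))))))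
noncomputable def cb230 : List VW := k1 v0 (k1 v21 (k1 v566 (k0)))
noncomputable def cb231 : List VW := k1 v3 (k1 v0 (k1 v426 (k1 v305 (k1 v566 (k0)))))
noncomputable def cb232 : List VW := k8 v416 v144 v423 v421 v149 v426 v160 v441 (k8 v167 v452 v174 v464 v180 v469 v186 v476 (k8 v190 v480 v486 v200 v488 v494 v206 v496 (k8 v503 v211 v214 v218 v220 v224 v225 v228 (k1 v594 (k0)))))
noncomputable def cb233 : List VW := k1 v3 (k1 v0 (k1 v10 (k1 v21 (k1 v167 (k1 v566 (k0))))))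
noncomputable def cb234 : List VW := k8 v1 v144 v421 v149 v426 v160 v441 v167 (k8 v452 v174 v464 v473 v187 v476 v483 v195 (k1 v200 (k1 v589 (k0))))
noncomputable def cb235 : List VW := k8 v1 v144 v274 v422 v149 v426 v160 v441 (k1 v167 (k1 v170 (k1 v174 (k1 v464 (k1 v587 (k0))))))
noncomputable def cb236 : List VW := k8 v1 v144 v417 v419 v149 v426 v160 v441 (k8 v167 v452 v174 v464 v180 v469 v186 v476 (k8 v190 v480 v195 v485 v199 v488 v202 v493 (k8 v205 v496 v207 v502 v508 v214 v511 v516 (k8 v220 v518 v522 v226 v229 v228 v230 v528 (k8 v231 v233 v531 v235 v237 v240 v241 v244 (k8 v245 v248 v249 v251 v252 v254 v255 v256 (k1 v257 (k1 v259 (k1 v603 (k0))))))))))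
noncomputable def cb237 : List VW := k1 v144 (k1 v0 (k1 v10 (k1 v433 (k1 v163 (k1 v441 (k1 v586 (k0)))))))
noncomputable def cb238 : List VW := k8 v145 v274 v0 v149 v426 v23 v449 v167 (k1 v586 (k0))
noncomputable def cb239 : List VW := k8 v1 v144 v417 v422 v149 v433 v426 v160 (k8 v441 v167 v452 v174 v464 v180 v470 v186 (k8 v476 v190 v194 v195 v485 v491 v202 v493 (k1 v205 (k1 v208 (k1 v502 (k1 v591 (k0)))))))
noncomputable def cb240 : List VW := k8 v1 v144 v423 v418 v149 v433 v426 v160 (k8 v444 v167 v460 v452 v174 v464 v180 v470 (k8 v186 v476 v190 v480 v195 v485 v199 v488 (k8 v202 v493 v205 v496 v207 v502 v211 v214 (k8 v218 v220 v224 v226 v228 v230 v231 v233 (k1 v235 (k1 v237 (k1 v239 (k1 v241 (k1 v243 (k1 v598 (k0)))))))))))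
noncomputable def cb241 : List VW := k1 v3 (k1 v275 (k1 v13 (k1 v24 (k1 v31 (k1 v566 (k0))))))
noncomputable def cb242 : List VW := k8 v144 v0 v12 v435 v22 v310 v30 v586 (k0)
noncomputable def cb243 : List VW := k8 v278 v144 v274 v0 v149 v433 v153 v160 (k8 v307 v167 v460 v177 v464 v474 v186 v192 (k1 v588 (k0)))
noncomputable def cb244 : List VW := k8 v1 v144 v423 v279 v149 v433 v426 v160 (k8 v443 v167 v452 v174 v464 v180 v470 v186 (k8 v476 v190 v481 v487 v200 v203 v493 v205 (k1 v207 (k1 v502 (k1 v591 (k0))))))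
noncomputable def cb245 : List VW := k8 v1 v144 v274 v423 v418 v149 v433 v426 (k8 v160 v446 v441 v167 v460 v452 v174 v465 (k8 v180 v470 v186 v476 v190 v481 v195 v485 (k8 v199 v488 v202 v493 v205 v496 v207 v502 (k8 v211 v214 v511 v217 v220 v518 v223 v226 (k8 v228 v230 v231 v233 v235 v237 v239 v241 (k1 v243 (k1 v245 (k1 v247 (k1 v249 (k1 v251 (k1 v600 (k0))))))))))))
noncomputable def cb246 : List VW := k8 v3 v275 v8 v13 v304 v15 v23 v34 (k1 v566 (k0))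
noncomputable def cb247 : List VW := k8 v144 v275 v0 v2 v429 v15 v21 v161 (k8 v440 v30 v334 v43 v341 v54 v59 v475 (k1 v568 (k0)))
noncomputable def cb248 : List VW := k8 v4 v144 v275 v0 v263 v11 v297 v294 (k8 v152 v160 v308 v265 v28 v460 v170 v174 (k8 v464 v52 v473 v186 v476 v190 v195 v485 (k1 v199 (k1 v202 (k1 v493 (k1 v205 (k1 v207 (k1 v502 (k1 v591 (k0))))))))))
noncomputable def cb249 : List VW := k8 v278 v144 v275 v274 v280 v149 v433 v293 (k8 v157 v160 v436 v307 v169 v329 v170 v174 (k8 v338 v182 v473 v183 v186 v352 v193 v194 (k8 v195 v364 v200 v79 v202 v493 v205 v207 (k8 v502 v211 v213 v511 v217 v219 v518 v223 (k1 v225 (k1 v524 (k1 v594 (k0))))))))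
noncomputable def cb250 : List VW := k8 v276 v144 v275 v423 v0 v149 v433 v291 (k8 v157 v160 v446 v305 v167 v460 v562 v326 (k8 v42 v174 v465 v182 v473 v184 v186 v476 (k8 v190 v481 v195 v485 v199 v489 v202 v493 (k8 v205 v86 v207 v502 v211 v213 v511 v217 (k8 v219 v518 v223 v225 v524 v228 v230 v528 (k1 v231 (k1 v233 (k1 v531 (k1 v532 (k1 v536 (k1 v597 (k0))))))))))))
noncomputable def cb251 : List VW := k8 v1 v144 v275 v423 v279 v149 v433 v426 (k8 v160 v446 v441 v167 v460 v452 v174 v336 (k8 v464 v182 v473 v470 v186 v478 v476 v190 (k8 v481 v195 v485 v199 v489 v202 v493 v205 (k8 v497 v207 v502 v211 v214 v511 v217 v220 (k8 v518 v223 v225 v524 v228 v230 v528 v231 (k8 v233 v531 v235 v237 v536 v239 v241 v541 (k1 v543 (k1 v544 (k1 v545 (k1 v546 (k1 v547 (k1 v549 (k1 v601 (k0))))))))))))))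
noncomputable def cb252 : List VW := k8 v1 v144 v274 v423 v418 v149 v433 v426 (k8 v160 v446 v441 v167 v460 v452 v174 v465 (k8 v180 v470 v186 v476 v190 v481 v195 v485 (k8 v199 v489 v202 v493 v205 v497 v207 v502 (k8 v211 v213 v511 v217 v219 v518 v223 v225 (k8 v524 v228 v230 v528 v231 v233 v531 v596 (k0))))))
noncomputable def cb253 : List VW := k8 v4 v424 v273 v0 v2 v429 v561 v21 (k8 v160 v325 v310 v265 v30 v456 v35 v42 (k8 v174 v341 v266 v54 v472 v59 v186 v355 (k8 v268 v66 v69 v71 v195 v484 v371 v79 (k8 v375 v84 v86 v384 v93 v94 v389 v98 (k1 v99 (k1 v102 (k1 v573 (k0))))))))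
noncomputable def cb254 : List VW := k8 v278 v147 v275 v286 v2 v301 v294 v152 (k8 v21 v160 v323 v308 v264 v28 v332 v330 (k8 v42 v174 v339 v266 v52 v472 v59 v186 (k8 v353 v267 v64 v359 v71 v195 v484 v73 (k8 v198 v79 v202 v492 v82 v204 v86 v207 (k8 v501 v210 v213 v510 v216 v219 v517 v222 (k8 v225 v523 v111 v230 v528 v114 v115 v116 (k8 v119 v120 v122 v125 v241 v126 v128 v129 (k1 v411 (k1 v132 (k1 v249 (k1 v134 (k1 v548 (k1 v601 (k0))))))))))))))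
noncomputable def cb255 : List VW := k8 v278 v3 v424 v273 v0 v2 v10 v429 (k8 v560 v290 v160 v322 v446 v439 v27 v456 (k8 v35 v42 v174 v338 v266 v51 v472 v183 (k8 v186 v352 v267 v63 v482 v70 v195 v484 (k8 v198 v79 v202 v492 v378 v498 v207 v501 (k8 v210 v213 v510 v216 v219 v517 v222 v225 (k8 v523 v111 v230 v528 v114 v115 v530 v119 (k8 v121 v536 v125 v241 v409 v128 v245 v130 (k8 v132 v249 v134 v135 v548 v255 v139 v602 (k0)))))))))
noncomputable def cb256 : List VW := k8 v278 v144 v275 v274 v280 v149 v433 v293 (k8 v157 v160 v322 v436 v313 v167 v460 v35 (k8 v43 v174 v338 v182 v345 v183 v186 v352 (k8 v192 v69 v71 v195 v364 v200 v79 v202 (k8 v493 v205 v86 v207 v502 v211 v213 v511 (k8 v217 v219 v518 v223 v225 v524 v228 v230 (k8 v528 v114 v233 v401 v235 v237 v536 v125 (k1 v241 (k1 v541 (k1 v128 (k1 v245 (k1 v544 (k1 v599 (k0)))))))))))))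
noncomputable def cb257 : List VW := k8 v278 v144 v275 v274 v280 v149 v433 v293 (k8 v157 v161 v437 v446 v307 v167 v460 v329 (k8 v170 v174 v338 v182 v473 v183 v188 v476 (k8 v192 v483 v71 v195 v485 v199 v79 v202 (k8 v493 v205 v86 v207 v502 v211 v213 v511 (k8 v217 v219 v518 v223 v225 v524 v228 v230 (k8 v528 v114 v233 v531 v119 v237 v536 v125 (k1 v242 (k1 v541 (k1 v598 (k0))))))))))

noncomputable def en0 : List (ℕ × ℕ) := [
  (2, 33225), (4, 16612), (8, 8306), (16, 4153), (32, 2076), (64, 1038), (128, 519)]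

noncomputable def b0_0 : T5 :=
  (.nd 2 1553 (.nd 2 300 (.nd 2 93 (.lf ⟨⟨488, 256, 643, 256, 256, 351, 200⟩, 0, 0, 0, 0, [], 0, cb0, 0, 0⟩)
  (.lf ⟨⟨2048, 256, 115, 353, 256, 268, 158⟩, 0, 0, 0, 0, [], 0, cb1, 0, 0⟩))
  (.lf ⟨⟨0, 0, 0, 724, 256, 141, 88⟩, 0, 0, 0, 0, [], 4, cb2, 0, 0⟩))
  .lw)

noncomputable def b0_1 : T5 :=
  (.nd 2 1203 (.nd 2 300 (.nd 2 93 (.lf ⟨⟨488, 256, 643, 256, 256, 351, 200⟩, 0, 0, 0, 0, [], 0, cb3, 0, 0⟩)
  (.lf ⟨⟨2048, 256, 115, 353, 256, 268, 158⟩, 0, 0, 0, 0, [], 0, cb4, 0, 0⟩))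
  (.lf ⟨⟨0, 0, 0, 724, 256, 141, 88⟩, 0, 0, 0, 0, [], 14, cb5, 0, 0⟩))
  .lw)

noncomputable def b0_2 : T5 :=
  (.nd 2 803 (.nd 2 300 (.nd 2 93 (.lf ⟨⟨488, 256, 643, 256, 256, 351, 200⟩, 0, 0, 0, 0, [], 0, cb6, 0, 0⟩)
  (.lf ⟨⟨2048, 256, 115, 353, 256, 268, 158⟩, 0, 0, 0, 0, [], 0, cb7, 0, 0⟩))
  (.lf ⟨⟨66914, 256, 3, 724, 256, 141, 88⟩, 0, 0, 0, 0, [], 14, cb8, 0, 0⟩))
  .lw)

noncomputable def b0_3 : T5 :=
  (.nd 2 403 (.nd 2 99 (.lf ⟨⟨509, 256, 605, 256, 256, 351, 200⟩, 0, 0, 0, 0, [], 0, cb9, 0, 0⟩)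
  (.nd 2 300 (.nd 2 200 (.nd 2 149 (.lf ⟨⟨720, 256, 380, 360, 256, 264, 155⟩, 0, 0, 0, 0, [], 0, cb10, 0, 0⟩)
  (.lf ⟨⟨1024, 256, 249, 429, 256, 227, 136⟩, 0, 0, 0, 0, [], 0, cb11, 0, 0⟩))
  (.lf ⟨⟨2048, 256, 115, 512, 256, 194, 117⟩, 725, 256, 87, 61, [], 0, cb12, 0, 0⟩))
  (.lf ⟨⟨4183, 256, 54, 724, 256, 141, 88⟩, 1035, 256, 63, 34, [], 14, cb13, 0, 0⟩)))
  .lw)

theorem sb0 : SB en0 5740 (bxL 0 400) :=
  sb_nd 200 (sb_rc 1 4 1 2 3104 b0_0 (by decide +kernel)) <|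
  sb_nd 400 (sb_rc 4 16 1 1 1602 b0_1 (by decide +kernel)) <|
  sb_nd 600 (sb_rc 16 64 0 1 1202 b0_2 (by decide +kernel)) <|
  sb_nd 701 (sb_rc 64 128 0 1 1002 b0_3 (by decide +kernel)) <|
  sb_no 128 (by decide +kernel)

noncomputable def en1 : List (ℕ × ℕ) := [
  (1, 531606), (2, 265803), (3, 177202), (4, 132901), (5, 104857), (6, 87381), (7, 77003),
  (8, 67378), (9, 59891), (10, 53902), (11, 49002), (12, 44918), (13, 41463), (14, 38501),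
  (15, 35935), (16, 33689), (17, 31707), (18, 29945), (19, 28369), (20, 26951), (21, 25667),
  (22, 24501), (23, 23435), (24, 22459), (25, 21561), (26, 20731), (27, 19689), (28, 18985),
  (30, 18331), (32, 17148), (34, 16109), (36, 15188), (38, 14367), (40, 13630), (42, 12966),
  (45, 12362), (48, 11556), (51, 10849), (53, 10223), (54, 9443), (57, 9271), (61, 8792),
  (65, 8225), (69, 7726), (73, 7285), (78, 6891), (83, 6455), (88, 6070), (94, 5729), (100, 5367),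
  (107, 5049), (108, 4405), (115, 4365), (123, 4101), (131, 3837), (140, 3604), (150, 3374),
  (160, 3151), (171, 2955), (183, 2766), (196, 2585), (210, 2415), (215, 2254), (216, 2135),
  (225, 2115), (234, 1950), (244, 1803), (254, 1659), (265, 1532), (276, 1408), (288, 1298),
  (300, 1192), (313, 1099), (326, 1010), (340, 931), (355, 856), (370, 786), (386, 723),
  (403, 665), (420, 610), (430, 562)]

noncomputable def b1_0 : T5 :=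
  (.nd 2 1903 (.nd 2 300 (.nd 2 93 (.lf ⟨⟨488, 256, 643, 256, 256, 351, 200⟩, 0, 0, 0, 0, [], 0, cb14, 0, 0⟩)
  (.lf ⟨⟨2048, 256, 115, 353, 256, 268, 158⟩, 0, 0, 0, 0, [], 0, cb15, 0, 0⟩))
  (.nd 2 600 (.lf ⟨⟨16384, 256, 13, 724, 256, 141, 88⟩, 0, 0, 0, 0, [], 0, cb16, 0, 0⟩)
  (.lf ⟨⟨0, 0, 0, 2048, 256, 53, 34⟩, 0, 0, 0, 0, [], 14, cb17, 0, 0⟩)))
  .lw)

noncomputable def b1_1 : T5 :=
  (.nd 2 1505 (.nd 2 300 (.nd 2 93 (.lf ⟨⟨488, 256, 643, 256, 256, 351, 200⟩, 0, 0, 0, 0, [], 0, cb18, 0, 0⟩)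
  (.lf ⟨⟨2048, 256, 115, 353, 256, 268, 158⟩, 0, 0, 0, 0, [], 0, cb4, 0, 0⟩))
  (.lf ⟨⟨0, 0, 0, 724, 256, 141, 88⟩, 0, 0, 0, 0, [], 9, cb19, 0, 0⟩))
  .lw)

noncomputable def b1_2 : T5 :=
  (.nd 2 1110 (.nd 2 300 (.nd 2 93 (.lf ⟨⟨488, 256, 643, 256, 256, 351, 200⟩, 0, 0, 0, 0, [], 0, cb20, 0, 0⟩)
  (.lf ⟨⟨2048, 256, 115, 353, 256, 268, 158⟩, 0, 0, 0, 0, [], 0, cb21, 0, 0⟩))
  (.lf ⟨⟨0, 0, 0, 724, 256, 141, 88⟩, 0, 0, 0, 0, [], 14, cb22, 0, 0⟩))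
  .lw)

noncomputable def b1_3 : T5 :=
  (.nd 2 702 (.nd 2 200 (.nd 2 93 (.lf ⟨⟨488, 256, 643, 256, 256, 351, 200⟩, 0, 0, 0, 0, [], 0, cb9, 0, 0⟩)
  (.lf ⟨⟨1024, 256, 249, 353, 256, 268, 158⟩, 0, 0, 0, 0, [], 0, cb23, 0, 0⟩))
  (.nd 2 500 (.nd 2 400 (.nd 2 300 (.nd 2 250 (.lf ⟨⟨1449, 256, 168, 512, 256, 194, 117⟩, 0, 0, 0, 0, [], 0, cb24, 0, 0⟩)
  (.nd 2 275 (.lf ⟨⟨1723, 256, 139, 608, 256, 166, 102⟩, 0, 0, 0, 0, [], 0, cb25, 0, 0⟩)
  (.lf ⟨⟨2048, 256, 115, 663, 256, 153, 95⟩, 0, 0, 0, 0, [], 0, cb26, 0, 0⟩)))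
  (.lf ⟨⟨4096, 256, 55, 724, 256, 141, 88⟩, 0, 0, 0, 0, [], 0, cb27, 0, 0⟩))
  (.lf ⟨⟨8192, 256, 27, 1024, 256, 102, 65⟩, 1449, 256, 46, 19, [], 0, cb28, 0, 0⟩))
  (.lf ⟨⟨33226, 256, 6, 1448, 256, 74, 47⟩, 2917, 256, 24, 5, [], 14, cb29, 0, 0⟩)))
  .lw)

noncomputable def b1_4 : T5 :=
  (.nd 2 270 (.nd 2 93 (.lf ⟨⟨488, 256, 643, 256, 256, 351, 200⟩, 354, 256, 156, 167, [], 14, cb30, 0, 0⟩)
  (.lf ⟨⟨1664, 256, 144, 353, 256, 268, 158⟩, 653, 256, 95, 71, [], 14, cb31, 0, 0⟩))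
  .lw)

theorem sb1 : SB en1 6900 (bxL 408 550) :=
  sb_nd 200 (sb_rc 1 4 1 1 1902 b1_0 (by decide +kernel)) <|
  sb_nd 400 (sb_rc 4 16 1 1 1904 b1_1 (by decide +kernel)) <|
  sb_nd 600 (sb_rc 16 64 1 1 1909 b1_2 (by decide +kernel)) <|
  sb_nd 800 (sb_rc 64 256 0 1 1301 b1_3 (by decide +kernel)) <|
  sb_nd 875 (sb_rc 256 430 2 1 2669 b1_4 (by decide +kernel)) <|
  sb_no 430 (by decide +kernel)

noncomputable def en2 : List (ℕ × ℕ) := [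
  (1, 2097152), (2, 1482910), (3, 890982), (4, 668236), (5, 534589), (6, 445491), (7, 381849),
  (8, 334118), (9, 296994), (10, 267294), (11, 242995), (12, 222745), (13, 205611), (14, 190924),
  (15, 178196), (16, 167059), (17, 159427), (18, 150570), (19, 142645), (20, 135513), (21, 129060),
  (22, 123193), (23, 117837), (24, 112927), (25, 108410), (26, 104240), (27, 100380), (28, 96795),
  (30, 93457), (32, 87427), (33, 82129), (34, 79713), (36, 77436), (38, 73250), (40, 69493),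
  (42, 66103), (45, 63029), (48, 58918), (51, 55311), (54, 52120), (57, 49277), (61, 46728),
  (65, 43713), (67, 41064), (68, 39308), (72, 38738), (77, 36615), (82, 34268), (87, 32204),
  (93, 30374), (99, 28435), (106, 26729), (113, 24980), (121, 23446), (129, 21909), (134, 20561),
  (135, 18993), (144, 18853), (154, 17683), (165, 16542), (176, 15446), (188, 14486), (201, 13566),
  (215, 12693), (230, 11870), (246, 11099), (263, 10380), (268, 9712), (269, 8771), (288, 8738),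
  (308, 8164), (330, 7635), (353, 7128), (378, 6665), (405, 6225), (434, 5811), (465, 5423),
  (498, 5063), (533, 4728), (537, 4418), (538, 3894), (561, 3879), (585, 3568), (610, 3282),
  (637, 3019), (665, 2769), (694, 2541), (724, 2333), (756, 2144), (760, 1966)]

noncomputable def b2_0 : T5 :=
  (.nd 2 2151 (.nd 2 300 (.nd 2 93 (.lf ⟨⟨488, 256, 643, 256, 256, 351, 200⟩, 0, 0, 0, 0, [], 0, cb32, 0, 0⟩)
  (.lf ⟨⟨2048, 256, 115, 353, 256, 268, 158⟩, 0, 0, 0, 0, [], 0, cb1, 0, 0⟩))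
  (.nd 2 600 (.lf ⟨⟨16384, 256, 13, 724, 256, 141, 88⟩, 0, 0, 0, 0, [], 0, cb33, 0, 0⟩)
  (.lf ⟨⟨0, 0, 0, 2048, 256, 53, 34⟩, 0, 0, 0, 0, [], 9, cb34, 0, 0⟩)))
  .lw)

noncomputable def b2_1 : T5 :=
  (.nd 2 1736 (.nd 2 300 (.nd 2 93 (.lf ⟨⟨488, 256, 643, 256, 256, 351, 200⟩, 0, 0, 0, 0, [], 0, cb3, 0, 0⟩)
  (.lf ⟨⟨2048, 256, 115, 353, 256, 268, 158⟩, 0, 0, 0, 0, [], 0, cb4, 0, 0⟩))
  (.nd 2 600 (.lf ⟨⟨16384, 256, 13, 724, 256, 141, 88⟩, 0, 0, 0, 0, [], 0, cb35, 0, 0⟩)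
  (.lf ⟨⟨0, 0, 0, 2048, 256, 53, 34⟩, 0, 0, 0, 0, [], 9, cb36, 0, 0⟩)))
  .lw)

noncomputable def b2_2 : T5 :=
  (.nd 2 1346 (.nd 2 300 (.nd 2 93 (.lf ⟨⟨488, 256, 643, 256, 256, 351, 200⟩, 0, 0, 0, 0, [], 0, cb37, 0, 0⟩)
  (.lf ⟨⟨2048, 256, 115, 353, 256, 268, 158⟩, 0, 0, 0, 0, [], 0, cb38, 0, 0⟩))
  (.nd 2 600 (.lf ⟨⟨16384, 256, 13, 724, 256, 141, 88⟩, 0, 0, 0, 0, [], 0, cb39, 0, 0⟩)
  (.lf ⟨⟨0, 0, 0, 2048, 256, 53, 34⟩, 0, 0, 0, 0, [], 9, cb40, 0, 0⟩)))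
  .lw)

noncomputable def b2_3 : T5 :=
  (.nd 2 944 (.nd 2 300 (.nd 2 93 (.lf ⟨⟨488, 256, 643, 256, 256, 351, 200⟩, 0, 0, 0, 0, [], 0, cb41, 0, 0⟩)
  (.nd 2 200 (.lf ⟨⟨1024, 256, 249, 353, 256, 268, 158⟩, 0, 0, 0, 0, [], 0, cb42, 0, 0⟩)
  (.nd 2 250 (.lf ⟨⟨1449, 256, 168, 512, 256, 194, 117⟩, 0, 0, 0, 0, [], 0, cb43, 0, 0⟩)
  (.nd 2 275 (.lf ⟨⟨1723, 256, 139, 608, 256, 166, 102⟩, 0, 0, 0, 0, [], 0, cb44, 0, 0⟩)
  (.lf ⟨⟨2048, 256, 115, 663, 256, 153, 95⟩, 0, 0, 0, 0, [], 0, cb45, 0, 0⟩)))))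
  (.nd 2 600 (.nd 2 500 (.lf ⟨⟨8192, 256, 27, 724, 256, 141, 88⟩, 0, 0, 0, 0, [], 0, cb46, 0, 0⟩)
  (.lf ⟨⟨16384, 256, 13, 1448, 256, 74, 47⟩, 2048, 256, 33, 10, [], 0, cb47, 0, 0⟩))
  (.lf ⟨⟨177813, 256, 1, 2048, 256, 53, 34⟩, 6747, 256, 10, 1, [], 7, cb48, 0, 0⟩)))
  .lw)

noncomputable def b2_4 : T5 :=
  (.nd 2 540 (.nd 2 200 (.nd 2 93 (.lf ⟨⟨488, 256, 643, 256, 256, 351, 200⟩, 0, 0, 0, 0, [], 0, cb49, 0, 0⟩)
  (.lf ⟨⟨1024, 256, 249, 353, 256, 268, 158⟩, 512, 256, 116, 101, [], 0, cb50, 0, 0⟩))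
  (.nd 2 400 (.nd 2 300 (.nd 2 250 (.lf ⟨⟨1449, 256, 168, 512, 256, 194, 117⟩, 609, 256, 101, 79, [], 9, cb51, 0, 0⟩)
  (.lf ⟨⟨2048, 256, 115, 608, 256, 166, 102⟩, 725, 256, 87, 61, [], 9, cb52, 0, 0⟩))
  (.lf ⟨⟨4096, 256, 55, 724, 256, 141, 88⟩, 1024, 256, 64, 35, [], 14, cb53, 0, 0⟩))
  (.lf ⟨⟨10810, 256, 20, 1024, 256, 102, 65⟩, 1664, 256, 41, 15, [], 14, cb54, 0, 0⟩)))
  .lw)

theorem sb2 : SB en2 7056 (bxL 552 613) :=
  sb_nd 200 (sb_rc 1 4 1 1 2150 b2_0 (by decide +kernel)) <|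
  sb_nd 400 (sb_rc 4 16 1 1 2135 b2_1 (by decide +kernel)) <|
  sb_nd 600 (sb_rc 16 64 1 1 2145 b2_2 (by decide +kernel)) <|
  sb_nd 800 (sb_rc 64 256 1 2 3686 b2_3 (by decide +kernel)) <|
  sb_nd 957 (sb_rc 256 760 1 1 2139 b2_4 (by decide +kernel)) <|
  sb_no 760 (by decide +kernel)

noncomputable def en3 : List (ℕ × ℕ) := [
  (2, 4495343), (3, 2577460), (4, 2232146), (5, 1631844), (6, 1359870), (7, 1165603), (8, 1019902),
  (9, 906580), (10, 686564), (11, 654613), (12, 626744), (13, 602156), (14, 580252), (16, 560577),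
  (18, 526571), (19, 498086), (20, 407961), (21, 388534), (22, 370873), (23, 354748), (24, 339967),
  (25, 326368), (26, 313816), (27, 302193), (28, 291400), (30, 281352), (32, 263200), (34, 247249),
  (36, 233120), (38, 220519), (39, 209210), (41, 203980), (43, 194267), (46, 185436), (49, 173600),
  (52, 163184), (55, 153947), (58, 145700), (62, 138291), (66, 129511), (70, 121779), (75, 114918),
  (77, 107358), (78, 104605), (83, 103281), (88, 97133), (94, 91676), (100, 85886), (107, 80784),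
  (114, 75548), (122, 70949), (130, 66335), (139, 62284), (148, 58280), (155, 54759), (156, 50872),
  (167, 50548), (178, 47238), (190, 44335), (203, 41550), (217, 38902), (232, 36404), (248, 34060),
  (265, 31871), (284, 29834), (304, 27845), (310, 26020), (311, 24141), (333, 24064), (356, 22479),
  (381, 21030), (408, 19654), (437, 18357), (468, 17141), (501, 16008), (536, 14956), (574, 13981),
  (615, 13057), (621, 12188), (622, 10803), (666, 10786), (713, 10074), (764, 9411), (818, 8784),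
  (876, 8204), (938, 7662), (1005, 7156), (1077, 6679), (1154, 6233), (1236, 5818), (1243, 5432)]

noncomputable def b3_0 : T5 :=
  (.nd 2 2261 (.nd 2 300 (.nd 2 93 (.lf ⟨⟨488, 256, 643, 256, 256, 351, 200⟩, 0, 0, 0, 0, [], 0, cb32, 0, 0⟩)
  (.lf ⟨⟨2048, 256, 115, 353, 256, 268, 158⟩, 0, 0, 0, 0, [], 0, cb1, 0, 0⟩))
  (.nd 2 600 (.lf ⟨⟨16384, 256, 13, 724, 256, 141, 88⟩, 0, 0, 0, 0, [], 0, cb55, 0, 0⟩)
  (.nd 2 801 (.lf ⟨⟨65992, 256, 3, 2048, 256, 53, 34⟩, 0, 0, 0, 0, [], 0, cb56, 0, 0⟩)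
  (.nd 2 1531 (.lf ⟨⟨0, 0, 0, 4110, 256, 27, 18⟩, 0, 0, 0, 0, [], 0, cb57, 0, 0⟩)
  (.nd 2 1896 (.lf ⟨⟨0, 0, 0, 3224, 16, 3, 2⟩, 0, 0, 0, 0, [], 0, cb58, 0, 0⟩)
  (.lf ⟨⟨0, 0, 0, 11425, 16, 1, 1⟩, 0, 0, 0, 0, [], 7, cb59, 0, 0⟩))))))
  .lw)

noncomputable def b3_1 : T5 :=
  (.nd 2 1911 (.nd 2 300 (.nd 2 93 (.lf ⟨⟨488, 256, 643, 256, 256, 351, 200⟩, 0, 0, 0, 0, [], 0, cb18, 0, 0⟩)
  (.lf ⟨⟨2048, 256, 115, 353, 256, 268, 158⟩, 0, 0, 0, 0, [], 0, cb4, 0, 0⟩))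
  (.nd 2 600 (.lf ⟨⟨16384, 256, 13, 724, 256, 141, 88⟩, 0, 0, 0, 0, [], 0, cb35, 0, 0⟩)
  (.nd 2 801 (.lf ⟨⟨65992, 256, 3, 2048, 256, 53, 34⟩, 0, 0, 0, 0, [], 0, cb60, 0, 0⟩)
  (.nd 2 1356 (.lf ⟨⟨0, 0, 0, 4110, 256, 27, 18⟩, 0, 0, 0, 0, [], 0, cb61, 0, 0⟩)
  (.lf ⟨⟨0, 0, 0, 1758, 16, 4, 3⟩, 0, 0, 0, 0, [], 14, cb62, 0, 0⟩)))))
  .lw)

noncomputable def b3_2 : T5 :=
  (.nd 2 1519 (.nd 2 300 (.nd 2 93 (.lf ⟨⟨488, 256, 643, 256, 256, 351, 200⟩, 0, 0, 0, 0, [], 0, cb63, 0, 0⟩)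
  (.lf ⟨⟨2048, 256, 115, 353, 256, 268, 158⟩, 0, 0, 0, 0, [], 0, cb21, 0, 0⟩))
  (.nd 2 600 (.lf ⟨⟨16384, 256, 13, 724, 256, 141, 88⟩, 0, 0, 0, 0, [], 0, cb64, 0, 0⟩)
  (.nd 2 801 (.lf ⟨⟨65992, 256, 3, 2048, 256, 53, 34⟩, 0, 0, 0, 0, [], 0, cb65, 0, 0⟩)
  (.nd 2 1160 (.lf ⟨⟨0, 0, 0, 4110, 256, 27, 18⟩, 0, 0, 0, 0, [], 9, cb66, 0, 0⟩)
  (.lf ⟨⟨0, 0, 0, 14263, 256, 8, 6⟩, 49496, 256, 1, 0, [], 14, cb67, 0, 0⟩)))))
  .lw)

noncomputable def b3_3 : T5 :=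
  (.nd 2 1106 (.nd 2 300 (.nd 2 93 (.lf ⟨⟨488, 256, 643, 256, 256, 351, 200⟩, 0, 0, 0, 0, [], 0, cb68, 0, 0⟩)
  (.lf ⟨⟨2048, 256, 115, 353, 256, 268, 158⟩, 0, 0, 0, 0, [], 0, cb69, 0, 0⟩))
  (.nd 2 600 (.lf ⟨⟨16384, 256, 13, 724, 256, 141, 88⟩, 0, 0, 0, 0, [], 0, cb70, 0, 0⟩)
  (.nd 2 801 (.lf ⟨⟨65992, 256, 3, 2048, 256, 53, 34⟩, 4111, 256, 17, 2, [], 9, cb71, 0, 0⟩)
  (.lf ⟨⟨0, 0, 0, 4110, 256, 27, 18⟩, 11829, 256, 6, 0, [], 14, cb72, 0, 0⟩))))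
  .lw)

noncomputable def b3_4 : T5 :=
  (.nd 2 703 (.nd 2 200 (.nd 2 93 (.lf ⟨⟨488, 256, 643, 256, 256, 351, 200⟩, 0, 0, 0, 0, [], 0, cb73, 0, 0⟩)
  (.lf ⟨⟨1024, 256, 249, 353, 256, 268, 158⟩, 512, 256, 116, 101, [], 0, cb74, 0, 0⟩))
  (.nd 2 500 (.nd 2 400 (.nd 2 300 (.nd 2 250 (.lf ⟨⟨1449, 256, 168, 512, 256, 194, 117⟩, 609, 256, 101, 79, [], 0, cb75, 0, 0⟩)
  (.nd 2 275 (.lf ⟨⟨1723, 256, 139, 608, 256, 166, 102⟩, 664, 256, 94, 69, [], 0, cb76, 0, 0⟩)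
  (.lf ⟨⟨2048, 256, 115, 663, 256, 153, 95⟩, 725, 256, 87, 61, [], 0, cb77, 0, 0⟩)))
  (.lf ⟨⟨4096, 256, 55, 724, 256, 141, 88⟩, 1024, 256, 64, 35, [], 9, cb78, 0, 0⟩))
  (.nd 2 450 (.lf ⟨⟨5793, 256, 39, 1024, 256, 102, 65⟩, 1218, 256, 55, 26, [], 9, cb79, 0, 0⟩)
  (.lf ⟨⟨8192, 256, 27, 1217, 256, 87, 56⟩, 1449, 256, 46, 19, [], 14, cb80, 0, 0⟩)))
  (.lf ⟨⟨33457, 256, 6, 1448, 256, 74, 47⟩, 2927, 256, 24, 5, [], 14, cb81, 0, 0⟩)))
  .lw)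

noncomputable def b3_5 : T5 :=
  (.nd 2 272 (.nd 2 93 (.lf ⟨⟨488, 256, 643, 256, 256, 351, 200⟩, 354, 256, 156, 167, [], 0, cb82, 0, 0⟩)
  (.nd 2 200 (.lf ⟨⟨1024, 256, 249, 353, 256, 268, 158⟩, 512, 256, 116, 101, [], 0, cb83, 0, 0⟩)
  (.nd 2 236 (.lf ⟨⟨1315, 256, 187, 512, 256, 194, 117⟩, 581, 256, 105, 85, [], 0, cb84, 0, 0⟩)
  (.lf ⟨⟨1687, 256, 142, 580, 256, 173, 106⟩, 658, 256, 94, 70, [], 14, cb85, 0, 0⟩))))
  .lw)

theorem sb3 : SB en3 7412 (bxL 614 656) :=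
  sb_nd 200 (sb_rc 1 4 1 2 4520 b3_0 (by decide +kernel)) <|
  sb_nd 400 (sb_rc 4 16 1 1 2310 b3_1 (by decide +kernel)) <|
  sb_nd 600 (sb_rc 16 64 1 1 2318 b3_2 (by decide +kernel)) <|
  sb_nd 800 (sb_rc 64 256 1 1 2305 b3_3 (by decide +kernel)) <|
  sb_nd 1000 (sb_rc 256 1024 1 1 2302 b3_4 (by decide +kernel)) <|
  sb_nd 1028 (sb_rc 1024 1243 0 1 1271 b3_5 (by decide +kernel)) <|
  sb_no 1243 (by decide +kernel)

noncomputable def en4 : List (ℕ × ℕ) := [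
  (2, 8928584), (4, 5572912), (5, 3452083), (6, 3151306), (7, 2917543), (8, 2729111),
  (10, 1751306), (11, 1403195), (12, 1343457), (13, 1290751), (14, 1243799), (16, 1201624),
  (18, 1128729), (20, 1067671), (21, 1015558), (22, 863938), (23, 826375), (24, 791943),
  (25, 760265), (26, 731024), (27, 703949), (28, 678808), (30, 655401), (32, 613117), (34, 575958),
  (36, 543046), (38, 513692), (40, 487349), (42, 463576), (43, 442014), (44, 431969), (47, 422369),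
  (50, 395971), (53, 372679), (56, 351974), (60, 333449), (64, 311584), (68, 292409), (72, 275458),
  (77, 260364), (82, 243674), (87, 228995), (88, 215984), (94, 213557), (100, 200069),
  (107, 188184), (114, 175987), (122, 165275), (130, 154525), (139, 145088), (148, 135761),
  (158, 127561), (169, 119538), (174, 111803), (175, 107114), (187, 106505), (200, 99707),
  (214, 93258), (229, 87185), (245, 81499), (262, 76199), (280, 71273), (300, 66708), (321, 62275),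
  (344, 58214), (349, 54333), (350, 51375), (375, 51228), (401, 47822), (429, 44729), (459, 41817),
  (491, 39089), (526, 36547), (563, 34120), (603, 31881), (646, 29770), (692, 27791), (699, 25947),
  (700, 23637), (750, 23603), (803, 22032), (860, 20579), (921, 19217), (987, 17946),
  (1057, 16747), (1132, 15639), (1213, 14603), (1300, 13629), (1393, 12718), (1398, 11869),
  (1399, 10657), (1460, 10642), (1524, 9772), (1591, 8969), (1661, 8230), (1734, 7551),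
  (1810, 6929), (1890, 6360), (1973, 5833), (1978, 5353)]

noncomputable def b4_0 : T5 :=
  (.nd 2 2360 (.nd 2 300 (.nd 2 93 (.lf ⟨⟨488, 256, 643, 256, 256, 351, 200⟩, 0, 0, 0, 0, [], 0, cb32, 0, 0⟩)
  (.lf ⟨⟨2048, 256, 115, 353, 256, 268, 158⟩, 0, 0, 0, 0, [], 0, cb15, 0, 0⟩))
  (.nd 2 600 (.lf ⟨⟨16384, 256, 13, 724, 256, 141, 88⟩, 0, 0, 0, 0, [], 0, cb16, 0, 0⟩)
  (.nd 2 801 (.lf ⟨⟨65992, 256, 3, 2048, 256, 53, 34⟩, 0, 0, 0, 0, [], 0, cb86, 0, 0⟩)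
  (.nd 2 1580 (.lf ⟨⟨0, 0, 0, 4110, 256, 27, 18⟩, 0, 0, 0, 0, [], 0, cb87, 0, 0⟩)
  (.lf ⟨⟨0, 0, 0, 3821, 16, 2, 2⟩, 0, 0, 0, 0, [], 7, cb88, 0, 0⟩)))))
  .lw)

noncomputable def b4_1 : T5 :=
  (.nd 2 2042 (.nd 2 300 (.nd 2 93 (.lf ⟨⟨488, 256, 643, 256, 256, 351, 200⟩, 0, 0, 0, 0, [], 0, cb18, 0, 0⟩)
  (.lf ⟨⟨2048, 256, 115, 353, 256, 268, 158⟩, 0, 0, 0, 0, [], 0, cb89, 0, 0⟩))
  (.nd 2 600 (.lf ⟨⟨16384, 256, 13, 724, 256, 141, 88⟩, 0, 0, 0, 0, [], 0, cb90, 0, 0⟩)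
  (.nd 2 801 (.lf ⟨⟨65992, 256, 3, 2048, 256, 53, 34⟩, 0, 0, 0, 0, [], 0, cb91, 0, 0⟩)
  (.nd 2 1421 (.lf ⟨⟨0, 0, 0, 4110, 256, 27, 18⟩, 0, 0, 0, 0, [], 0, cb92, 0, 0⟩)
  (.nd 2 1731 (.lf ⟨⟨0, 0, 0, 2202, 16, 4, 3⟩, 0, 0, 0, 0, [], 9, cb93, 0, 0⟩)
  (.lf ⟨⟨0, 0, 0, 6449, 16, 2, 1⟩, 0, 0, 0, 0, [], 14, cb94, 0, 0⟩))))))
  .lw)

noncomputable def b4_2 : T5 :=
  (.nd 2 1636 (.nd 2 300 (.nd 2 93 (.lf ⟨⟨488, 256, 643, 256, 256, 351, 200⟩, 0, 0, 0, 0, [], 0, cb20, 0, 0⟩)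
  (.lf ⟨⟨2048, 256, 115, 353, 256, 268, 158⟩, 0, 0, 0, 0, [], 0, cb4, 0, 0⟩))
  (.nd 2 600 (.lf ⟨⟨16384, 256, 13, 724, 256, 141, 88⟩, 0, 0, 0, 0, [], 0, cb95, 0, 0⟩)
  (.nd 2 801 (.lf ⟨⟨65992, 256, 3, 2048, 256, 53, 34⟩, 0, 0, 0, 0, [], 0, cb96, 0, 0⟩)
  (.nd 2 1218 (.lf ⟨⟨0, 0, 0, 4110, 256, 27, 18⟩, 0, 0, 0, 0, [], 0, cb97, 0, 0⟩)
  (.lf ⟨⟨0, 0, 0, 1089, 16, 7, 5⟩, 0, 0, 0, 0, [], 14, cb67, 0, 0⟩)))))
  .lw)

noncomputable def b4_3 : T5 :=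
  (.nd 2 1228 (.nd 2 300 (.nd 2 93 (.lf ⟨⟨488, 256, 643, 256, 256, 351, 200⟩, 0, 0, 0, 0, [], 0, cb68, 0, 0⟩)
  (.lf ⟨⟨2048, 256, 115, 353, 256, 268, 158⟩, 0, 0, 0, 0, [], 0, cb98, 0, 0⟩))
  (.nd 2 600 (.lf ⟨⟨16384, 256, 13, 724, 256, 141, 88⟩, 0, 0, 0, 0, [], 0, cb99, 0, 0⟩)
  (.nd 2 801 (.lf ⟨⟨65992, 256, 3, 2048, 256, 53, 34⟩, 4111, 256, 17, 2, [], 0, cb100, 0, 0⟩)
  (.lf ⟨⟨0, 0, 0, 4110, 256, 27, 18⟩, 18054, 256, 4, 0, [], 14, cb101, 0, 0⟩))))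
  .lw)

noncomputable def b4_4 : T5 :=
  (.nd 2 827 (.nd 2 300 (.nd 2 93 (.lf ⟨⟨488, 256, 643, 256, 256, 351, 200⟩, 0, 0, 0, 0, [], 0, cb102, 0, 0⟩)
  (.nd 2 200 (.lf ⟨⟨1024, 256, 249, 353, 256, 268, 158⟩, 512, 256, 116, 101, [], 0, cb103, 0, 0⟩)
  (.lf ⟨⟨2048, 256, 115, 512, 256, 194, 117⟩, 725, 256, 87, 61, [], 0, cb104, 0, 0⟩)))
  (.nd 2 600 (.nd 2 500 (.nd 2 400 (.lf ⟨⟨4096, 256, 55, 724, 256, 141, 88⟩, 1024, 256, 64, 35, [], 0, cb105, 0, 0⟩)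
  (.lf ⟨⟨8192, 256, 27, 1024, 256, 102, 65⟩, 1449, 256, 46, 19, [], 9, cb106, 0, 0⟩))
  (.lf ⟨⟨16384, 256, 13, 1448, 256, 74, 47⟩, 2048, 256, 33, 10, [], 14, cb107, 0, 0⟩))
  (.lf ⟨⟨79024, 256, 2, 2048, 256, 53, 34⟩, 4498, 256, 15, 2, [], 14, cb108, 0, 0⟩)))
  .lw)

noncomputable def b4_5 : T5 :=
  (.nd 2 409 (.nd 2 99 (.lf ⟨⟨509, 256, 605, 256, 256, 351, 200⟩, 361, 256, 154, 163, [], 0, cb109, 0, 0⟩)
  (.nd 2 300 (.nd 2 200 (.lf ⟨⟨1024, 256, 249, 360, 256, 264, 155⟩, 512, 256, 116, 101, [], 0, cb110, 0, 0⟩)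
  (.nd 2 250 (.lf ⟨⟨1449, 256, 168, 512, 256, 194, 117⟩, 609, 256, 101, 79, [], 9, cb111, 0, 0⟩)
  (.nd 2 275 (.lf ⟨⟨1723, 256, 139, 608, 256, 166, 102⟩, 664, 256, 94, 69, [], 14, cb112, 0, 0⟩)
  (.lf ⟨⟨2048, 256, 115, 663, 256, 153, 95⟩, 725, 256, 87, 61, [], 14, cb113, 0, 0⟩))))
  (.lf ⟨⟨4360, 256, 52, 724, 256, 141, 88⟩, 1057, 256, 62, 33, [], 14, cb114, 0, 0⟩)))
  .lw)

theorem sb4 : SB en4 7768 (bxL 656 689) :=
  sb_nd 200 (sb_rc 1 4 1 2 4718 b4_0 (by decide +kernel)) <|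
  sb_nd 400 (sb_rc 4 16 1 1 2441 b4_1 (by decide +kernel)) <|
  sb_nd 600 (sb_rc 16 64 1 1 2435 b4_2 (by decide +kernel)) <|
  sb_nd 800 (sb_rc 64 256 1 1 2427 b4_3 (by decide +kernel)) <|
  sb_nd 1000 (sb_rc 256 1024 1 1 2426 b4_4 (by decide +kernel)) <|
  sb_nd 1095 (sb_rc 1024 1978 1 1 2408 b4_5 (by decide +kernel)) <|
  sb_no 1978 (by decide +kernel)

noncomputable def en5 : List (ℕ × ℕ) := [
  (2, 15331547), (4, 9569419), (5, 6531740), (6, 5962635), (7, 5520327), (8, 5163793),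
  (11, 3313673), (12, 2438425), (13, 2342763), (14, 2257543), (16, 2180994), (18, 2048687),
  (20, 1937864), (22, 1843276), (23, 1761311), (24, 1529933), (25, 1468736), (26, 1412246),
  (27, 1359940), (28, 1311371), (30, 1266151), (32, 1184464), (34, 1112678), (36, 1049097),
  (38, 992389), (40, 941497), (42, 895570), (45, 853916), (47, 798226), (48, 775645), (51, 759815),
  (54, 715980), (57, 676926), (61, 641913), (65, 600499), (69, 564105), (73, 531871), (78, 503121),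
  (83, 471278), (88, 443225), (94, 418325), (95, 391904), (96, 387822), (102, 383824),
  (109, 361465), (116, 338463), (124, 318213), (132, 297847), (141, 279932), (151, 262189),
  (161, 244940), (172, 229820), (184, 215207), (191, 201248), (192, 191241), (205, 190250),
  (219, 178244), (234, 166901), (250, 156248), (267, 146288), (286, 137008), (306, 127938),
  (327, 119603), (350, 111946), (375, 104610), (382, 97655), (383, 93248), (410, 93006),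
  (439, 86896), (470, 81168), (503, 75826), (539, 70861), (577, 66137), (618, 61789), (662, 57696),
  (709, 53867), (759, 50301), (765, 46992), (766, 43502), (820, 43445), (878, 40587), (941, 37909),
  (1008, 35374), (1080, 33025), (1157, 30825), (1240, 28776), (1328, 26851), (1423, 25073),
  (1525, 23400), (1530, 21836), (1531, 19480), (1640, 19467), (1757, 18174), (1883, 16965),
  (2018, 15830), (2162, 14771), (2164, 13788), (2165, 12243), (2260, 12231), (2360, 11225),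
  (2464, 10294), (2573, 9444), (2686, 8661), (2804, 7948), (2928, 7293), (3057, 6689), (3061, 6136)]

noncomputable def b5_0 : T5 :=
  (.nd 2 2438 (.nd 2 300 (.nd 2 93 (.lf ⟨⟨488, 256, 643, 256, 256, 351, 200⟩, 0, 0, 0, 0, [], 0, cb115, 0, 0⟩)
  (.lf ⟨⟨2048, 256, 115, 353, 256, 268, 158⟩, 0, 0, 0, 0, [], 0, cb15, 0, 0⟩))
  (.nd 2 600 (.lf ⟨⟨16384, 256, 13, 724, 256, 141, 88⟩, 0, 0, 0, 0, [], 0, cb116, 0, 0⟩)
  (.nd 2 801 (.lf ⟨⟨65992, 256, 3, 2048, 256, 53, 34⟩, 0, 0, 0, 0, [], 0, cb117, 0, 0⟩)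
  (.lf ⟨⟨0, 0, 0, 4110, 256, 27, 18⟩, 0, 0, 0, 0, [], 4, cb118, 0, 0⟩))))
  .lw)

noncomputable def b5_1 : T5 :=
  (.nd 2 2131 (.nd 2 300 (.nd 2 93 (.lf ⟨⟨488, 256, 643, 256, 256, 351, 200⟩, 0, 0, 0, 0, [], 0, cb18, 0, 0⟩)
  (.lf ⟨⟨2048, 256, 115, 353, 256, 268, 158⟩, 0, 0, 0, 0, [], 0, cb1, 0, 0⟩))
  (.nd 2 600 (.lf ⟨⟨16384, 256, 13, 724, 256, 141, 88⟩, 0, 0, 0, 0, [], 0, cb119, 0, 0⟩)
  (.lf ⟨⟨0, 0, 0, 2048, 256, 53, 34⟩, 0, 0, 0, 0, [], 9, cb120, 0, 0⟩)))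
  .lw)

noncomputable def b5_2 : T5 :=
  (.nd 2 1729 (.nd 2 300 (.nd 2 93 (.lf ⟨⟨488, 256, 643, 256, 256, 351, 200⟩, 0, 0, 0, 0, [], 0, cb20, 0, 0⟩)
  (.lf ⟨⟨2048, 256, 115, 353, 256, 268, 158⟩, 0, 0, 0, 0, [], 0, cb4, 0, 0⟩))
  (.nd 2 600 (.lf ⟨⟨16384, 256, 13, 724, 256, 141, 88⟩, 0, 0, 0, 0, [], 0, cb121, 0, 0⟩)
  (.lf ⟨⟨0, 0, 0, 2048, 256, 53, 34⟩, 0, 0, 0, 0, [], 9, cb122, 0, 0⟩)))
  .lw)

noncomputable def b5_3 : T5 :=
  (.nd 2 1325 (.nd 2 300 (.nd 2 93 (.lf ⟨⟨488, 256, 643, 256, 256, 351, 200⟩, 0, 0, 0, 0, [], 0, cb68, 0, 0⟩)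
  (.lf ⟨⟨2048, 256, 115, 353, 256, 268, 158⟩, 0, 0, 0, 0, [], 0, cb123, 0, 0⟩))
  (.nd 2 600 (.lf ⟨⟨16384, 256, 13, 724, 256, 141, 88⟩, 0, 0, 0, 0, [], 0, cb124, 0, 0⟩)
  (.lf ⟨⟨0, 0, 0, 2048, 256, 53, 34⟩, 25268, 256, 2, 0, [], 9, cb125, 0, 0⟩)))
  .lw)

noncomputable def b5_4 : T5 :=
  (.nd 2 924 (.nd 2 300 (.nd 2 93 (.lf ⟨⟨488, 256, 643, 256, 256, 351, 200⟩, 0, 0, 0, 0, [], 0, cb30, 0, 0⟩)
  (.nd 2 200 (.nd 2 99 (.lf ⟨⟨509, 256, 605, 353, 256, 268, 158⟩, 0, 0, 0, 0, [], 0, cb126, 0, 0⟩)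
  (.nd 2 149 (.lf ⟨⟨720, 256, 380, 360, 256, 264, 155⟩, 0, 0, 0, 0, [], 0, cb127, 0, 0⟩)
  (.lf ⟨⟨1024, 256, 249, 429, 256, 227, 136⟩, 512, 256, 116, 101, [], 0, cb128, 0, 0⟩)))
  (.lf ⟨⟨2048, 256, 115, 512, 256, 194, 117⟩, 725, 256, 87, 61, [], 0, cb129, 0, 0⟩)))
  (.nd 2 600 (.nd 2 500 (.lf ⟨⟨8192, 256, 27, 724, 256, 141, 88⟩, 1449, 256, 46, 19, [], 0, cb130, 0, 0⟩)
  (.lf ⟨⟨16384, 256, 13, 1448, 256, 74, 47⟩, 2048, 256, 33, 10, [], 14, cb131, 0, 0⟩))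
  (.lf ⟨⟨154796, 256, 1, 2048, 256, 53, 34⟩, 6296, 256, 11, 1, [], 14, cb108, 0, 0⟩)))
  .lw)

noncomputable def b5_5 : T5 :=
  (.nd 2 510 (.nd 2 200 (.nd 2 93 (.lf ⟨⟨488, 256, 643, 256, 256, 351, 200⟩, 354, 256, 156, 167, [], 0, cb132, 0, 0⟩)
  (.lf ⟨⟨1024, 256, 249, 353, 256, 268, 158⟩, 512, 256, 116, 101, [], 9, cb133, 0, 0⟩))
  (.nd 2 400 (.nd 2 300 (.nd 2 250 (.lf ⟨⟨1449, 256, 168, 512, 256, 194, 117⟩, 609, 256, 101, 79, [], 9, cb134, 0, 0⟩)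
  (.nd 2 275 (.lf ⟨⟨1723, 256, 139, 608, 256, 166, 102⟩, 664, 256, 94, 69, [], 9, cb135, 0, 0⟩)
  (.lf ⟨⟨2048, 256, 115, 663, 256, 153, 95⟩, 725, 256, 87, 61, [], 9, cb136, 0, 0⟩)))
  (.lf ⟨⟨4096, 256, 55, 724, 256, 141, 88⟩, 1024, 256, 64, 35, [], 14, cb137, 0, 0⟩))
  (.lf ⟨⟨8780, 256, 25, 1024, 256, 102, 65⟩, 1500, 256, 45, 18, [], 14, cb138, 0, 0⟩)))
  .lw)

theorem sb5 : SB en5 8080 (bxL 689 715) :=
  sb_nd 200 (sb_rc 1 4 1 2 4874 b5_0 (by decide +kernel)) <|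
  sb_nd 400 (sb_rc 4 16 1 1 2530 b5_1 (by decide +kernel)) <|
  sb_nd 600 (sb_rc 16 64 1 1 2528 b5_2 (by decide +kernel)) <|
  sb_nd 800 (sb_rc 64 256 1 1 2524 b5_3 (by decide +kernel)) <|
  sb_nd 1000 (sb_rc 256 1024 1 1 2523 b5_4 (by decide +kernel)) <|
  sb_nd 1158 (sb_rc 1024 3061 1 1 2509 b5_5 (by decide +kernel)) <|
  sb_no 3061 (by decide +kernel)

noncomputable def en6 : List (ℕ × ℕ) := [
  (2, 25606380), (4, 15120473), (5, 11372420), (6, 10381551), (7, 9611449), (8, 8990687),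
  (12, 5611674), (13, 3858958), (14, 3718585), (16, 3592494), (18, 3374561), (20, 3192015),
  (22, 3036212), (25, 2901201), (26, 2475966), (27, 2384263), (28, 2299111), (30, 2219831),
  (32, 2076616), (34, 1950761), (36, 1839289), (38, 1739868), (40, 1650644), (42, 1570125),
  (45, 1497095), (48, 1399459), (51, 1313778), (52, 1255264), (55, 1231580), (58, 1165603),
  (62, 1106335), (66, 1036091), (70, 974235), (75, 919348), (80, 858865), (85, 805848),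
  (91, 758997), (97, 709497), (103, 666058), (104, 627632), (111, 621654), (118, 582801),
  (126, 548519), (135, 513966), (144, 479954), (154, 450163), (165, 421121), (176, 393215),
  (188, 368778), (201, 345363), (206, 323137), (207, 315332), (221, 313816), (236, 294025),
  (252, 275416), (270, 257999), (289, 240862), (309, 225081), (331, 210560), (354, 196607),
  (379, 183869), (406, 171773), (413, 160377), (414, 155495), (443, 155120), (474, 144989),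
  (508, 135526), (544, 126473), (583, 118119), (624, 110231), (668, 103000), (715, 96225),
  (766, 89909), (820, 83931), (826, 78410), (827, 72628), (886, 72541), (949, 67716),
  (1017, 63225), (1089, 59002), (1167, 55104), (1250, 51424), (1339, 48012), (1435, 44823),
  (1537, 41827), (1647, 39053), (1652, 36446), (1653, 32976), (1771, 32956), (1898, 30761),
  (2034, 28704), (2179, 26785), (2337, 25164), (2440, 25143), (2548, 23066), (2660, 21152),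
  (2777, 19409), (2899, 17809), (3027, 16342), (3161, 14989), (3300, 13746), (3304, 12613),
  (3305, 8774), (3451, 8769), (3603, 8043), (3762, 7379), (3928, 6768), (4101, 6208), (4282, 5696),
  (4471, 5224), (4668, 4792), (4672, 4396)]

noncomputable def b6_0 : T5 :=
  (.nd 2 2512 (.nd 2 300 (.nd 2 93 (.lf ⟨⟨488, 256, 643, 256, 256, 351, 200⟩, 0, 0, 0, 0, [], 0, cb14, 0, 0⟩)
  (.lf ⟨⟨2048, 256, 115, 353, 256, 268, 158⟩, 0, 0, 0, 0, [], 0, cb15, 0, 0⟩))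
  (.nd 2 600 (.lf ⟨⟨16384, 256, 13, 724, 256, 141, 88⟩, 0, 0, 0, 0, [], 0, cb139, 0, 0⟩)
  (.nd 2 801 (.lf ⟨⟨65992, 256, 3, 2048, 256, 53, 34⟩, 0, 0, 0, 0, [], 0, cb140, 0, 0⟩)
  (.lf ⟨⟨0, 0, 0, 4110, 256, 27, 18⟩, 0, 0, 0, 0, [], 4, cb141, 0, 0⟩))))
  .lw)

noncomputable def b6_1 : T5 :=
  (.nd 2 2211 (.nd 2 300 (.nd 2 93 (.lf ⟨⟨488, 256, 643, 256, 256, 351, 200⟩, 0, 0, 0, 0, [], 0, cb18, 0, 0⟩)
  (.lf ⟨⟨2048, 256, 115, 353, 256, 268, 158⟩, 0, 0, 0, 0, [], 0, cb1, 0, 0⟩))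
  (.nd 2 600 (.lf ⟨⟨16384, 256, 13, 724, 256, 141, 88⟩, 0, 0, 0, 0, [], 0, cb119, 0, 0⟩)
  (.nd 2 801 (.lf ⟨⟨65992, 256, 3, 2048, 256, 53, 34⟩, 0, 0, 0, 0, [], 0, cb35, 0, 0⟩)
  (.lf ⟨⟨0, 0, 0, 4110, 256, 27, 18⟩, 0, 0, 0, 0, [], 9, cb142, 0, 0⟩))))
  .lw)

noncomputable def b6_2 : T5 :=
  (.nd 2 1813 (.nd 2 300 (.nd 2 93 (.lf ⟨⟨488, 256, 643, 256, 256, 351, 200⟩, 0, 0, 0, 0, [], 0, cb143, 0, 0⟩)
  (.lf ⟨⟨2048, 256, 115, 353, 256, 268, 158⟩, 0, 0, 0, 0, [], 0, cb4, 0, 0⟩))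
  (.nd 2 600 (.lf ⟨⟨16384, 256, 13, 724, 256, 141, 88⟩, 0, 0, 0, 0, [], 0, cb144, 0, 0⟩)
  (.nd 2 801 (.lf ⟨⟨65992, 256, 3, 2048, 256, 53, 34⟩, 0, 0, 0, 0, [], 0, cb95, 0, 0⟩)
  (.lf ⟨⟨0, 0, 0, 4110, 256, 27, 18⟩, 0, 0, 0, 0, [], 9, cb145, 0, 0⟩))))
  .lw)

noncomputable def b6_3 : T5 :=
  (.nd 2 1407 (.nd 2 300 (.nd 2 93 (.lf ⟨⟨488, 256, 643, 256, 256, 351, 200⟩, 0, 0, 0, 0, [], 0, cb68, 0, 0⟩)
  (.lf ⟨⟨2048, 256, 115, 353, 256, 268, 158⟩, 0, 0, 0, 0, [], 0, cb123, 0, 0⟩))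
  (.nd 2 600 (.lf ⟨⟨16384, 256, 13, 724, 256, 141, 88⟩, 0, 0, 0, 0, [], 0, cb146, 0, 0⟩)
  (.nd 2 801 (.lf ⟨⟨65992, 256, 3, 2048, 256, 53, 34⟩, 4111, 256, 17, 2, [], 0, cb147, 0, 0⟩)
  (.lf ⟨⟨0, 0, 0, 4110, 256, 27, 18⟩, 33573, 256, 2, 0, [], 14, cb148, 0, 0⟩))))
  .lw)

noncomputable def b6_4 : T5 :=
  (.nd 2 1007 (.nd 2 300 (.nd 2 93 (.lf ⟨⟨488, 256, 643, 256, 256, 351, 200⟩, 0, 0, 0, 0, [], 0, cb30, 0, 0⟩)
  (.nd 2 200 (.lf ⟨⟨1024, 256, 249, 353, 256, 268, 158⟩, 0, 0, 0, 0, [], 0, cb149, 0, 0⟩)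
  (.lf ⟨⟨2048, 256, 115, 512, 256, 194, 117⟩, 725, 256, 87, 61, [], 0, cb150, 0, 0⟩)))
  (.nd 2 600 (.nd 2 500 (.lf ⟨⟨8192, 256, 27, 724, 256, 141, 88⟩, 1449, 256, 46, 19, [], 0, cb151, 0, 0⟩)
  (.lf ⟨⟨16384, 256, 13, 1448, 256, 74, 47⟩, 2048, 256, 33, 10, [], 0, cb152, 0, 0⟩))
  (.lf ⟨⟨0, 0, 0, 2048, 256, 53, 34⟩, 8394, 256, 8, 0, [], 14, cb153, 0, 0⟩)))
  .lw)

noncomputable def b6_5 : T5 :=
  (.nd 2 595 (.nd 2 200 (.nd 2 93 (.lf ⟨⟨488, 256, 643, 256, 256, 351, 200⟩, 354, 256, 156, 167, [], 0, cb109, 0, 0⟩)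
  (.lf ⟨⟨1024, 256, 249, 353, 256, 268, 158⟩, 512, 256, 116, 101, [], 9, cb154, 0, 0⟩))
  (.nd 2 400 (.nd 2 300 (.nd 2 250 (.lf ⟨⟨1449, 256, 168, 512, 256, 194, 117⟩, 609, 256, 101, 79, [], 9, cb155, 0, 0⟩)
  (.nd 2 275 (.lf ⟨⟨1723, 256, 139, 608, 256, 166, 102⟩, 664, 256, 94, 69, [], 9, cb156, 0, 0⟩)
  (.lf ⟨⟨2048, 256, 115, 663, 256, 153, 95⟩, 725, 256, 87, 61, [], 9, cb157, 0, 0⟩)))
  (.lf ⟨⟨4096, 256, 55, 724, 256, 141, 88⟩, 1024, 256, 64, 35, [], 9, cb158, 0, 0⟩))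
  (.lf ⟨⟨15826, 256, 14, 1024, 256, 102, 65⟩, 2013, 256, 34, 11, [], 14, cb159, 0, 0⟩)))
  .lw)

noncomputable def b6_6 : T5 :=
  (.nd 2 61 (.lf ⟨⟨391, 256, 920, 256, 256, 351, 200⟩, 317, 256, 170, 192, [], 14, cb73, 0, 0⟩)
  .lw)

theorem sb6 : SB en6 8304 (bxL 715 737) :=
  sb_nd 200 (sb_rc 1 4 1 2 5022 b6_0 (by decide +kernel)) <|
  sb_nd 400 (sb_rc 4 16 1 1 2610 b6_1 (by decide +kernel)) <|
  sb_nd 600 (sb_rc 16 64 1 1 2612 b6_2 (by decide +kernel)) <|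
  sb_nd 800 (sb_rc 64 256 1 1 2606 b6_3 (by decide +kernel)) <|
  sb_nd 1000 (sb_rc 256 1024 1 1 2606 b6_4 (by decide +kernel)) <|
  sb_nd 1200 (sb_rc 1024 4096 1 1 2594 b6_5 (by decide +kernel)) <|
  sb_nd 1219 (sb_rc 4096 4672 0 1 1260 b6_6 (by decide +kernel)) <|
  sb_no 4672 (by decide +kernel)

noncomputable def en7 : List (ℕ × ℕ) := [
  (2, 39903169), (4, 21984753), (5, 17721973), (6, 16177874), (7, 14977801), (8, 14010450),
  (9, 9569668), (10, 9078584), (11, 8656090), (12, 8287575), (13, 7962445), (14, 5715001),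
  (16, 5521216), (18, 5186279), (20, 4905729), (22, 4666279), (25, 4458784), (27, 4193664),
  (28, 3105345), (32, 3051335), (36, 2860434), (41, 2701395), (47, 2535504), (53, 2371747),
  (54, 2236104), (55, 1888278), (58, 1854559), (62, 1760259), (66, 1648497), (70, 1550079),
  (75, 1462751), (80, 1366517), (85, 1282164), (91, 1207620), (97, 1128862), (103, 1059748),
  (109, 998608), (110, 944139), (117, 935633), (125, 880129), (133, 824248), (142, 775039),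
  (152, 726261), (162, 678792), (173, 637149), (185, 596869), (198, 558361), (212, 521886),
  (219, 487583), (220, 472069), (235, 469933), (251, 440064), (269, 412124), (288, 384649),
  (308, 359360), (330, 336101), (353, 313762), (378, 293376), (405, 274024), (434, 255801),
  (439, 238747), (440, 232785), (471, 232257), (504, 217003), (540, 202822), (578, 189326),
  (619, 176900), (663, 165202), (710, 154255), (760, 144058), (814, 134593), (872, 125675),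
  (879, 117325), (880, 110114), (943, 109989), (1010, 102648), (1082, 95846), (1159, 89474),
  (1242, 83534), (1331, 77956), (1426, 72748), (1528, 67905), (1637, 63375), (1754, 59157),
  (1758, 55213), (1759, 50691), (1885, 50662), (2020, 47278), (2164, 44120), (2319, 41185),
  (2485, 38433), (2486, 35867), (2487, 33452), (2665, 33438), (2856, 31206), (3060, 29119),
  (3279, 27179), (3514, 25364), (3516, 23668), (3517, 21614), (3672, 21602), (3834, 19817),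
  (4003, 18178), (4180, 16676), (4365, 15294), (4558, 14025), (4759, 12863), (4969, 11800),
  (4973, 10823)]

noncomputable def b7_0 : T5 :=
  (.nd 2 2576 (.nd 2 300 (.nd 2 93 (.lf ⟨⟨488, 256, 643, 256, 256, 351, 200⟩, 0, 0, 0, 0, [], 0, cb14, 0, 0⟩)
  (.lf ⟨⟨2048, 256, 115, 353, 256, 268, 158⟩, 0, 0, 0, 0, [], 0, cb15, 0, 0⟩))
  (.nd 2 600 (.lf ⟨⟨16384, 256, 13, 724, 256, 141, 88⟩, 0, 0, 0, 0, [], 0, cb139, 0, 0⟩)
  (.nd 2 801 (.lf ⟨⟨65992, 256, 3, 2048, 256, 53, 34⟩, 0, 0, 0, 0, [], 0, cb140, 0, 0⟩)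
  (.lf ⟨⟨0, 0, 0, 4110, 256, 27, 18⟩, 0, 0, 0, 0, [], 4, cb160, 0, 0⟩))))
  .lw)

noncomputable def b7_1 : T5 :=
  (.nd 2 2275 (.nd 2 300 (.nd 2 93 (.lf ⟨⟨488, 256, 643, 256, 256, 351, 200⟩, 0, 0, 0, 0, [], 0, cb18, 0, 0⟩)
  (.lf ⟨⟨2048, 256, 115, 353, 256, 268, 158⟩, 0, 0, 0, 0, [], 0, cb1, 0, 0⟩))
  (.nd 2 600 (.lf ⟨⟨16384, 256, 13, 724, 256, 141, 88⟩, 0, 0, 0, 0, [], 0, cb35, 0, 0⟩)
  (.nd 2 801 (.lf ⟨⟨65992, 256, 3, 2048, 256, 53, 34⟩, 0, 0, 0, 0, [], 0, cb35, 0, 0⟩)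
  (.lf ⟨⟨0, 0, 0, 4110, 256, 27, 18⟩, 0, 0, 0, 0, [], 9, cb160, 0, 0⟩))))
  .lw)

noncomputable def b7_2 : T5 :=
  (.nd 2 1892 (.nd 2 300 (.nd 2 93 (.lf ⟨⟨488, 256, 643, 256, 256, 351, 200⟩, 0, 0, 0, 0, [], 0, cb3, 0, 0⟩)
  (.lf ⟨⟨2048, 256, 115, 353, 256, 268, 158⟩, 0, 0, 0, 0, [], 0, cb4, 0, 0⟩))
  (.nd 2 600 (.lf ⟨⟨16384, 256, 13, 724, 256, 141, 88⟩, 0, 0, 0, 0, [], 0, cb35, 0, 0⟩)
  (.nd 2 801 (.lf ⟨⟨65992, 256, 3, 2048, 256, 53, 34⟩, 0, 0, 0, 0, [], 0, cb95, 0, 0⟩)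
  (.nd 2 1346 (.lf ⟨⟨0, 0, 0, 4110, 256, 27, 18⟩, 0, 0, 0, 0, [], 0, cb161, 0, 0⟩)
  (.lf ⟨⟨0, 0, 0, 1698, 16, 5, 3⟩, 0, 0, 0, 0, [], 14, cb162, 0, 0⟩)))))
  .lw)

noncomputable def b7_3 : T5 :=
  (.nd 2 1474 (.nd 2 300 (.nd 2 93 (.lf ⟨⟨488, 256, 643, 256, 256, 351, 200⟩, 0, 0, 0, 0, [], 0, cb68, 0, 0⟩)
  (.lf ⟨⟨2048, 256, 115, 353, 256, 268, 158⟩, 0, 0, 0, 0, [], 0, cb38, 0, 0⟩))
  (.nd 2 600 (.lf ⟨⟨16384, 256, 13, 724, 256, 141, 88⟩, 0, 0, 0, 0, [], 0, cb163, 0, 0⟩)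
  (.nd 2 801 (.lf ⟨⟨65992, 256, 3, 2048, 256, 53, 34⟩, 4111, 256, 17, 2, [], 0, cb164, 0, 0⟩)
  (.lf ⟨⟨0, 0, 0, 4110, 256, 27, 18⟩, 42348, 256, 1, 0, [], 9, cb165, 0, 0⟩))))
  .lw)

noncomputable def b7_4 : T5 :=
  (.nd 2 1074 (.nd 2 300 (.nd 2 93 (.lf ⟨⟨488, 256, 643, 256, 256, 351, 200⟩, 0, 0, 0, 0, [], 0, cb166, 0, 0⟩)
  (.nd 2 200 (.lf ⟨⟨1024, 256, 249, 353, 256, 268, 158⟩, 0, 0, 0, 0, [], 0, cb167, 0, 0⟩)
  (.lf ⟨⟨2048, 256, 115, 512, 256, 194, 117⟩, 725, 256, 87, 61, [], 0, cb168, 0, 0⟩)))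
  (.nd 2 600 (.lf ⟨⟨16384, 256, 13, 724, 256, 141, 88⟩, 2048, 256, 33, 10, [], 0, cb169, 0, 0⟩)
  (.lf ⟨⟨0, 0, 0, 2048, 256, 53, 34⟩, 10587, 256, 6, 0, [], 14, cb170, 0, 0⟩)))
  .lw)

noncomputable def b7_5 : T5 :=
  (.nd 2 664 (.nd 2 200 (.nd 2 93 (.lf ⟨⟨488, 256, 643, 256, 256, 351, 200⟩, 354, 256, 156, 167, [], 0, cb171, 0, 0⟩)
  (.lf ⟨⟨1024, 256, 249, 353, 256, 268, 158⟩, 512, 256, 116, 101, [], 0, cb172, 0, 0⟩))
  (.nd 2 500 (.nd 2 400 (.nd 2 300 (.nd 2 250 (.lf ⟨⟨1449, 256, 168, 512, 256, 194, 117⟩, 609, 256, 101, 79, [], 0, cb173, 0, 0⟩)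
  (.nd 2 275 (.lf ⟨⟨1723, 256, 139, 608, 256, 166, 102⟩, 664, 256, 94, 69, [], 9, cb174, 0, 0⟩)
  (.lf ⟨⟨2048, 256, 115, 663, 256, 153, 95⟩, 725, 256, 87, 61, [], 9, cb175, 0, 0⟩)))
  (.lf ⟨⟨4096, 256, 55, 724, 256, 141, 88⟩, 1024, 256, 64, 35, [], 9, cb176, 0, 0⟩))
  (.lf ⟨⟨8192, 256, 27, 1024, 256, 102, 65⟩, 1449, 256, 46, 19, [], 14, cb177, 0, 0⟩))
  (.lf ⟨⟨25532, 256, 8, 1448, 256, 74, 47⟩, 2557, 256, 27, 7, [], 14, cb178, 0, 0⟩)))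
  .lw)

noncomputable def b7_6 : T5 :=
  (.nd 2 204 (.nd 2 93 (.lf ⟨⟨488, 256, 643, 256, 256, 351, 200⟩, 354, 256, 156, 167, [], 0, cb109, 0, 0⟩)
  (.lf ⟨⟨1053, 256, 241, 353, 256, 268, 158⟩, 520, 256, 115, 99, [], 9, cb179, 0, 0⟩))
  .lw)

theorem sb7 : SB en7 8480 (bxL 737 755) :=
  sb_nd 200 (sb_rc 1 4 1 2 5150 b7_0 (by decide +kernel)) <|
  sb_nd 400 (sb_rc 4 16 1 1 2674 b7_1 (by decide +kernel)) <|
  sb_nd 600 (sb_rc 16 64 1 1 2691 b7_2 (by decide +kernel)) <|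
  sb_nd 800 (sb_rc 64 256 1 1 2673 b7_3 (by decide +kernel)) <|
  sb_nd 1000 (sb_rc 256 1024 1 1 2673 b7_4 (by decide +kernel)) <|
  sb_nd 1200 (sb_rc 1024 4096 1 1 2663 b7_5 (by decide +kernel)) <|
  sb_nd 1228 (sb_rc 4096 4973 0 1 1403 b7_6 (by decide +kernel)) <|
  sb_no 4973 (by decide +kernel)

noncomputable def en8 : List (ℕ × ℕ) := [
  (2, 56824116), (4, 28412058), (8, 22446699), (14, 12453086), (28, 6183533), (29, 4330221),
  (33, 4257439), (37, 3999168), (42, 3782834), (48, 3556107), (55, 3331279), (57, 3116126),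
  (58, 2603496), (62, 2559369), (66, 2396869), (70, 2253773), (75, 2126799), (80, 1986878),
  (85, 1864232), (91, 1755846), (97, 1641334), (103, 1540844), (110, 1451949), (115, 1360385),
  (116, 1319919), (124, 1308638), (132, 1224885), (141, 1151208), (151, 1078244), (161, 1007307),
  (172, 945127), (184, 885033), (197, 827625), (211, 773286), (226, 722220), (230, 674496),
  (231, 662816), (247, 659959), (264, 617381), (282, 577776), (302, 541027), (323, 505315),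
  (346, 472563), (370, 441241), (396, 412697), (424, 385669), (454, 360260), (461, 336507),
  (462, 326845), (495, 326139), (530, 304441), (568, 284374), (608, 265382), (651, 247952),
  (697, 231599), (747, 216336), (800, 201875), (857, 188517), (918, 175993), (922, 164312),
  (923, 156935), (989, 156765), (1059, 146314), (1135, 136652), (1216, 127510), (1303, 119023),
  (1396, 111082), (1496, 103687), (1603, 96761), (1718, 90306), (1841, 84265), (1845, 78638),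
  (1846, 73213), (1978, 73173), (2119, 68292), (2271, 63750), (2433, 59485), (2607, 55526),
  (2794, 51821), (2994, 48354), (3208, 45125), (3438, 42116), (3684, 39299), (3691, 36676),
  (3692, 34868), (3855, 34849), (4025, 31965), (4203, 29322), (4389, 26892), (4583, 24661),
  (4785, 22618), (4996, 20749), (5217, 19034), (5220, 17456), (5221, 12675), (5452, 12670),
  (5693, 11620), (5945, 10657), (6208, 9773), (6482, 8962), (6768, 8221), (7067, 7541),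
  (7379, 6916), (7383, 6344)]

noncomputable def b8_0 : T5 :=
  (.nd 2 2627 (.nd 2 300 (.nd 2 93 (.lf ⟨⟨488, 256, 643, 256, 256, 351, 200⟩, 0, 0, 0, 0, [], 0, cb14, 0, 0⟩)
  (.lf ⟨⟨2048, 256, 115, 353, 256, 268, 158⟩, 0, 0, 0, 0, [], 0, cb15, 0, 0⟩))
  (.nd 2 600 (.lf ⟨⟨16384, 256, 13, 724, 256, 141, 88⟩, 0, 0, 0, 0, [], 0, cb180, 0, 0⟩)
  (.nd 2 801 (.lf ⟨⟨65992, 256, 3, 2048, 256, 53, 34⟩, 0, 0, 0, 0, [], 0, cb16, 0, 0⟩)
  (.lf ⟨⟨0, 0, 0, 4110, 256, 27, 18⟩, 0, 0, 0, 0, [], 4, cb181, 0, 0⟩))))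
  .lw)

noncomputable def b8_1 : T5 :=
  (.nd 2 2343 (.nd 2 300 (.nd 2 93 (.lf ⟨⟨488, 256, 643, 256, 256, 351, 200⟩, 0, 0, 0, 0, [], 0, cb18, 0, 0⟩)
  (.lf ⟨⟨2048, 256, 115, 353, 256, 268, 158⟩, 0, 0, 0, 0, [], 0, cb1, 0, 0⟩))
  (.nd 2 600 (.lf ⟨⟨16384, 256, 13, 724, 256, 141, 88⟩, 0, 0, 0, 0, [], 0, cb35, 0, 0⟩)
  (.nd 2 801 (.lf ⟨⟨65992, 256, 3, 2048, 256, 53, 34⟩, 0, 0, 0, 0, [], 0, cb35, 0, 0⟩)
  (.nd 2 1572 (.lf ⟨⟨0, 0, 0, 4110, 256, 27, 18⟩, 0, 0, 0, 0, [], 0, cb182, 0, 0⟩)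
  (.nd 2 1957 (.lf ⟨⟨0, 0, 0, 3717, 16, 2, 2⟩, 0, 0, 0, 0, [], 9, cb183, 0, 0⟩)
  (.lf ⟨⟨0, 0, 0, 14115, 16, 1, 1⟩, 0, 0, 0, 0, [], 14, cb184, 0, 0⟩))))))
  .lw)

noncomputable def b8_2 : T5 :=
  (.nd 2 1946 (.nd 2 300 (.nd 2 93 (.lf ⟨⟨488, 256, 643, 256, 256, 351, 200⟩, 0, 0, 0, 0, [], 0, cb3, 0, 0⟩)
  (.lf ⟨⟨2048, 256, 115, 353, 256, 268, 158⟩, 0, 0, 0, 0, [], 0, cb4, 0, 0⟩))
  (.nd 2 600 (.lf ⟨⟨16384, 256, 13, 724, 256, 141, 88⟩, 0, 0, 0, 0, [], 0, cb35, 0, 0⟩)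
  (.nd 2 801 (.lf ⟨⟨65992, 256, 3, 2048, 256, 53, 34⟩, 0, 0, 0, 0, [], 0, cb95, 0, 0⟩)
  (.nd 2 1373 (.lf ⟨⟨0, 0, 0, 4110, 256, 27, 18⟩, 0, 0, 0, 0, [], 0, cb185, 0, 0⟩)
  (.nd 2 1659 (.lf ⟨⟨0, 0, 0, 1865, 16, 4, 3⟩, 0, 0, 0, 0, [], 9, cb186, 0, 0⟩)
  (.lf ⟨⟨0, 0, 0, 5025, 16, 2, 1⟩, 0, 0, 0, 0, [], 14, cb187, 0, 0⟩))))))
  .lw)

noncomputable def b8_3 : T5 :=
  (.nd 2 1530 (.nd 2 300 (.nd 2 93 (.lf ⟨⟨488, 256, 643, 256, 256, 351, 200⟩, 0, 0, 0, 0, [], 0, cb68, 0, 0⟩)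
  (.lf ⟨⟨2048, 256, 115, 353, 256, 268, 158⟩, 0, 0, 0, 0, [], 0, cb38, 0, 0⟩))
  (.nd 2 600 (.lf ⟨⟨16384, 256, 13, 724, 256, 141, 88⟩, 0, 0, 0, 0, [], 0, cb188, 0, 0⟩)
  (.nd 2 801 (.lf ⟨⟨65992, 256, 3, 2048, 256, 53, 34⟩, 4111, 256, 17, 2, [], 0, cb164, 0, 0⟩)
  (.nd 2 1165 (.lf ⟨⟨0, 0, 0, 4110, 256, 27, 18⟩, 14513, 256, 5, 0, [], 9, cb189, 0, 0⟩)
  (.lf ⟨⟨0, 0, 0, 14512, 256, 8, 6⟩, 51419, 256, 1, 0, [], 14, cb190, 0, 0⟩)))))
  .lw)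

noncomputable def b8_4 : T5 :=
  (.nd 2 1130 (.nd 2 300 (.nd 2 93 (.lf ⟨⟨488, 256, 643, 256, 256, 351, 200⟩, 0, 0, 0, 0, [], 0, cb191, 0, 0⟩)
  (.nd 2 200 (.lf ⟨⟨1024, 256, 249, 353, 256, 268, 158⟩, 0, 0, 0, 0, [], 0, cb192, 0, 0⟩)
  (.lf ⟨⟨2048, 256, 115, 512, 256, 194, 117⟩, 725, 256, 87, 61, [], 0, cb193, 0, 0⟩)))
  (.nd 2 600 (.lf ⟨⟨16384, 256, 13, 724, 256, 141, 88⟩, 2048, 256, 33, 10, [], 0, cb194, 0, 0⟩)
  (.nd 2 801 (.lf ⟨⟨65992, 256, 3, 2048, 256, 53, 34⟩, 4111, 256, 17, 2, [], 9, cb195, 0, 0⟩)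
  (.lf ⟨⟨0, 0, 0, 4110, 256, 27, 18⟩, 12855, 256, 5, 0, [], 14, cb196, 0, 0⟩))))
  .lw)

noncomputable def b8_5 : T5 :=
  (.nd 2 722 (.nd 2 200 (.nd 2 93 (.lf ⟨⟨488, 256, 643, 256, 256, 351, 200⟩, 354, 256, 156, 167, [], 0, cb73, 0, 0⟩)
  (.lf ⟨⟨1024, 256, 249, 353, 256, 268, 158⟩, 512, 256, 116, 101, [], 0, cb197, 0, 0⟩))
  (.nd 2 500 (.nd 2 400 (.nd 2 300 (.lf ⟨⟨2048, 256, 115, 512, 256, 194, 117⟩, 725, 256, 87, 61, [], 0, cb198, 0, 0⟩)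
  (.lf ⟨⟨4096, 256, 55, 724, 256, 141, 88⟩, 1024, 256, 64, 35, [], 9, cb199, 0, 0⟩))
  (.lf ⟨⟨8192, 256, 27, 1024, 256, 102, 65⟩, 1449, 256, 46, 19, [], 9, cb200, 0, 0⟩))
  (.lf ⟨⟨38166, 256, 5, 1448, 256, 74, 47⟩, 3126, 256, 22, 4, [], 14, cb201, 0, 0⟩)))
  .lw)

noncomputable def b8_6 : T5 :=
  (.nd 2 293 (.nd 2 93 (.lf ⟨⟨488, 256, 643, 256, 256, 351, 200⟩, 354, 256, 156, 167, [], 9, cb202, 0, 0⟩)
  (.nd 2 200 (.lf ⟨⟨1024, 256, 249, 353, 256, 268, 158⟩, 512, 256, 116, 101, [], 9, cb203, 0, 0⟩)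
  (.lf ⟨⟨1952, 256, 121, 512, 256, 194, 117⟩, 707, 256, 89, 63, [], 14, cb204, 0, 0⟩)))
  .lw)

theorem sb8 : SB en8 8620 (bxL 755 770) :=
  sb_nd 200 (sb_rc 1 4 1 2 5252 b8_0 (by decide +kernel)) <|
  sb_nd 400 (sb_rc 4 16 1 1 2742 b8_1 (by decide +kernel)) <|
  sb_nd 600 (sb_rc 16 64 1 1 2745 b8_2 (by decide +kernel)) <|
  sb_nd 800 (sb_rc 64 256 1 1 2729 b8_3 (by decide +kernel)) <|
  sb_nd 1000 (sb_rc 256 1024 1 1 2729 b8_4 (by decide +kernel)) <|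
  sb_nd 1200 (sb_rc 1024 4096 1 1 2721 b8_5 (by decide +kernel)) <|
  sb_nd 1285 (sb_rc 4096 7383 2 1 3892 b8_6 (by decide +kernel)) <|
  sb_no 7383 (by decide +kernel)

noncomputable def en9 : List (ℕ × ℕ) := [
  (2, 78707621), (4, 39353810), (8, 29414007), (15, 17129740), (30, 7772784), (31, 5622973),
  (35, 5534417), (40, 5217898), (45, 4889393), (51, 4616023), (58, 4341554), (60, 4075875),
  (61, 3452626), (65, 3396938), (69, 3191063), (73, 3008717), (78, 2846083), (83, 2665951),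
  (88, 2507264), (94, 2366406), (100, 2216949), (107, 2085249), (114, 1950094), (121, 1831392),
  (122, 1750411), (130, 1736180), (139, 1630154), (148, 1525358), (158, 1433222), (169, 1343083),
  (181, 1256177), (193, 1173352), (206, 1100774), (220, 1031643), (235, 966290), (242, 904873),
  (243, 878807), (260, 875205), (278, 818199), (297, 765412), (318, 716611), (340, 669436),
  (364, 626246), (390, 585069), (417, 546164), (446, 510885), (478, 477740), (484, 445825),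
  (485, 434247), (519, 433354), (556, 405019), (595, 378115), (637, 353372), (682, 330110),
  (730, 308360), (782, 288112), (838, 268978), (898, 251025), (962, 234271), (968, 218702),
  (969, 211404), (1038, 211186), (1112, 197161), (1191, 184053), (1276, 171854), (1367, 160415),
  (1465, 149744), (1570, 139734), (1682, 130395), (1802, 121717), (1931, 113616), (1937, 106030),
  (1938, 98623), (2077, 98572), (2226, 91979), (2385, 85825), (2556, 80105), (2739, 74748),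
  (2935, 69756), (3145, 65099), (3370, 60754), (3611, 56699), (3870, 52916), (3875, 49375),
  (3876, 44135), (4154, 44123), (4452, 41171), (4771, 38416), (5113, 35848), (5479, 33451),
  (5480, 31216), (5481, 16959), (5874, 16956), (6295, 15821), (6746, 14763), (7230, 13776),
  (7748, 12854), (7750, 11995)]

noncomputable def b9_0 : T5 :=
  (.nd 2 2724 (.nd 2 300 (.nd 2 93 (.lf ⟨⟨488, 256, 643, 256, 256, 351, 200⟩, 0, 0, 0, 0, [], 0, cb0, 0, 0⟩)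
  (.lf ⟨⟨2048, 256, 115, 353, 256, 268, 158⟩, 0, 0, 0, 0, [], 0, cb205, 0, 0⟩))
  (.nd 2 600 (.lf ⟨⟨16384, 256, 13, 724, 256, 141, 88⟩, 0, 0, 0, 0, [], 0, cb180, 0, 0⟩)
  (.nd 2 801 (.lf ⟨⟨65992, 256, 3, 2048, 256, 53, 34⟩, 0, 0, 0, 0, [], 0, cb206, 0, 0⟩)
  (.lf ⟨⟨0, 0, 0, 4110, 256, 27, 18⟩, 0, 0, 0, 0, [], 9, cb207, 0, 0⟩))))
  .lw)

noncomputable def b9_1 : T5 :=
  (.nd 2 2332 (.nd 2 300 (.nd 2 93 (.lf ⟨⟨488, 256, 643, 256, 256, 351, 200⟩, 0, 0, 0, 0, [], 0, cb32, 0, 0⟩)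
  (.lf ⟨⟨2048, 256, 115, 353, 256, 268, 158⟩, 0, 0, 0, 0, [], 0, cb1, 0, 0⟩))
  (.nd 2 600 (.lf ⟨⟨16384, 256, 13, 724, 256, 141, 88⟩, 0, 0, 0, 0, [], 0, cb208, 0, 0⟩)
  (.nd 2 801 (.lf ⟨⟨65992, 256, 3, 2048, 256, 53, 34⟩, 0, 0, 0, 0, [], 0, cb35, 0, 0⟩)
  (.nd 2 1566 (.lf ⟨⟨0, 0, 0, 4110, 256, 27, 18⟩, 0, 0, 0, 0, [], 0, cb209, 0, 0⟩)
  (.nd 2 1949 (.lf ⟨⟨0, 0, 0, 3640, 16, 2, 2⟩, 0, 0, 0, 0, [], 0, cb210, 0, 0⟩)
  (.lf ⟨⟨0, 0, 0, 13729, 16, 1, 1⟩, 0, 0, 0, 0, [], 7, cb211, 0, 0⟩))))))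
  .lw)

noncomputable def b9_2 : T5 :=
  (.nd 2 1935 (.nd 2 300 (.nd 2 93 (.lf ⟨⟨488, 256, 643, 256, 256, 351, 200⟩, 0, 0, 0, 0, [], 0, cb3, 0, 0⟩)
  (.lf ⟨⟨2048, 256, 115, 353, 256, 268, 158⟩, 0, 0, 0, 0, [], 0, cb4, 0, 0⟩))
  (.nd 2 600 (.lf ⟨⟨16384, 256, 13, 724, 256, 141, 88⟩, 0, 0, 0, 0, [], 0, cb35, 0, 0⟩)
  (.nd 2 801 (.lf ⟨⟨65992, 256, 3, 2048, 256, 53, 34⟩, 0, 0, 0, 0, [], 0, cb95, 0, 0⟩)
  (.nd 2 1368 (.lf ⟨⟨0, 0, 0, 4110, 256, 27, 18⟩, 0, 0, 0, 0, [], 0, cb212, 0, 0⟩)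
  (.lf ⟨⟨0, 0, 0, 1833, 16, 4, 3⟩, 0, 0, 0, 0, [], 7, cb213, 0, 0⟩)))))
  .lw)

noncomputable def b9_3 : T5 :=
  (.nd 2 1578 (.nd 2 300 (.nd 2 93 (.lf ⟨⟨488, 256, 643, 256, 256, 351, 200⟩, 0, 0, 0, 0, [], 0, cb68, 0, 0⟩)
  (.lf ⟨⟨2048, 256, 115, 353, 256, 268, 158⟩, 0, 0, 0, 0, [], 0, cb10, 0, 0⟩))
  (.nd 2 600 (.lf ⟨⟨16384, 256, 13, 724, 256, 141, 88⟩, 0, 0, 0, 0, [], 0, cb214, 0, 0⟩)
  (.nd 2 801 (.lf ⟨⟨65992, 256, 3, 2048, 256, 53, 34⟩, 4111, 256, 17, 2, [], 0, cb215, 0, 0⟩)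
  (.lf ⟨⟨0, 0, 0, 4110, 256, 27, 18⟩, 60725, 256, 1, 0, [], 9, cb165, 0, 0⟩))))
  .lw)

noncomputable def b9_4 : T5 :=
  (.nd 2 1178 (.nd 2 300 (.nd 2 93 (.lf ⟨⟨488, 256, 643, 256, 256, 351, 200⟩, 0, 0, 0, 0, [], 0, cb216, 0, 0⟩)
  (.lf ⟨⟨2048, 256, 115, 353, 256, 268, 158⟩, 0, 0, 0, 0, [], 0, cb217, 0, 0⟩))
  (.nd 2 600 (.lf ⟨⟨16384, 256, 13, 724, 256, 141, 88⟩, 2048, 256, 33, 10, [], 0, cb218, 0, 0⟩)
  (.nd 2 801 (.lf ⟨⟨65992, 256, 3, 2048, 256, 53, 34⟩, 4111, 256, 17, 2, [], 9, cb219, 0, 0⟩)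
  (.lf ⟨⟨0, 0, 0, 4110, 256, 27, 18⟩, 15182, 256, 4, 0, [], 14, cb196, 0, 0⟩))))
  .lw)

noncomputable def b9_5 : T5 :=
  (.nd 2 772 (.nd 2 200 (.nd 2 93 (.lf ⟨⟨488, 256, 643, 256, 256, 351, 200⟩, 354, 256, 156, 167, [], 0, cb220, 0, 0⟩)
  (.lf ⟨⟨1024, 256, 249, 353, 256, 268, 158⟩, 512, 256, 116, 101, [], 0, cb221, 0, 0⟩))
  (.nd 2 500 (.nd 2 400 (.nd 2 300 (.lf ⟨⟨2048, 256, 115, 512, 256, 194, 117⟩, 725, 256, 87, 61, [], 0, cb222, 0, 0⟩)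
  (.lf ⟨⟨4096, 256, 55, 724, 256, 141, 88⟩, 1024, 256, 64, 35, [], 9, cb223, 0, 0⟩))
  (.lf ⟨⟨8192, 256, 27, 1024, 256, 102, 65⟩, 1449, 256, 46, 19, [], 9, cb224, 0, 0⟩))
  (.lf ⟨⟨53975, 256, 4, 1448, 256, 74, 47⟩, 3718, 256, 19, 3, [], 14, cb225, 0, 0⟩)))
  .lw)

noncomputable def b9_6 : T5 :=
  (.nd 2 346 (.nd 2 99 (.lf ⟨⟨509, 256, 605, 256, 256, 351, 200⟩, 361, 256, 154, 163, [], 0, cb202, 0, 0⟩)
  (.nd 2 300 (.nd 2 200 (.lf ⟨⟨1024, 256, 249, 360, 256, 264, 155⟩, 512, 256, 116, 101, [], 9, cb226, 0, 0⟩)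
  (.nd 2 250 (.lf ⟨⟨1449, 256, 168, 512, 256, 194, 117⟩, 609, 256, 101, 79, [], 14, cb227, 0, 0⟩)
  (.lf ⟨⟨2048, 256, 115, 608, 256, 166, 102⟩, 725, 256, 87, 61, [], 14, cb228, 0, 0⟩)))
  (.lf ⟨⟨2818, 256, 82, 724, 256, 141, 88⟩, 850, 256, 75, 47, [], 14, cb229, 0, 0⟩)))
  .lw)

theorem sb9 : SB en9 8776 (bxL 770 783) :=
  sb_nd 200 (sb_rc 1 4 1 1 2723 b9_0 (by decide +kernel)) <|
  sb_nd 400 (sb_rc 4 16 1 2 5262 b9_1 (by decide +kernel)) <|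
  sb_nd 600 (sb_rc 16 64 1 2 5069 b9_2 (by decide +kernel)) <|
  sb_nd 800 (sb_rc 64 256 1 1 2777 b9_3 (by decide +kernel)) <|
  sb_nd 1000 (sb_rc 256 1024 1 1 2777 b9_4 (by decide +kernel)) <|
  sb_nd 1200 (sb_rc 1024 4096 1 1 2771 b9_5 (by decide +kernel)) <|
  sb_nd 1292 (sb_rc 4096 7750 1 1 2745 b9_6 (by decide +kernel)) <|
  sb_no 7750 (by decide +kernel)

noncomputable def en10 : List (ℕ × ℕ) := [
  (2, 116036222), (4, 58018111), (8, 41025000), (9, 28709751), (10, 27236461), (11, 25968947),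
  (12, 24863373), (13, 23887957), (14, 23019011), (15, 22291648), (16, 22238477), (32, 10256250),
  (36, 7814937), (41, 7380429), (47, 6927201), (53, 6479804), (60, 6109217), (64, 5748010),
  (68, 4911159), (72, 4626454), (77, 4372950), (82, 4092632), (87, 3846088), (93, 3627560),
  (99, 3396014), (106, 3192253), (113, 2983414), (121, 2800222), (128, 2616601), (137, 2474615),
  (146, 2313227), (156, 2171601), (167, 2033282), (178, 1900150), (190, 1783381), (203, 1671336),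
  (217, 1564830), (232, 1464336), (248, 1370065), (256, 1282029), (274, 1259461), (293, 1177023),
  (314, 1100957), (336, 1027560), (360, 960479), (385, 896624), (412, 838553), (441, 783732),
  (472, 732311), (505, 684316), (512, 639686), (548, 622271), (587, 581466), (629, 542900),
  (674, 506706), (722, 472926), (773, 441528), (828, 412435), (887, 385072), (950, 359488),
  (1018, 335673), (1024, 313273), (1097, 302923), (1175, 282783), (1259, 264027), (1349, 246425),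
  (1445, 229997), (1548, 214727), (1659, 200449), (1778, 187045), (1905, 174534), (2041, 162904),
  (2048, 152054), (2194, 143361), (2351, 133825), (2519, 124892), (2699, 116566), (2892, 108795),
  (3099, 101537), (3321, 94757), (3559, 88424), (3814, 82513), (4087, 76997), (4096, 71855),
  (4389, 64171), (4704, 59888), (5041, 55879), (5402, 52144), (5789, 48660), (5792, 45407),
  (5793, 43231), (6049, 43217), (6316, 39637), (6595, 36357), (6886, 33346), (7190, 30588),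
  (7508, 28056), (7840, 25730), (8187, 23597), (8192, 21639)]

noncomputable def b10_0 : T5 :=
  (.nd 2 2780 (.nd 2 300 (.nd 2 93 (.lf ⟨⟨488, 256, 643, 256, 256, 351, 200⟩, 0, 0, 0, 0, [], 0, cb0, 0, 0⟩)
  (.lf ⟨⟨2048, 256, 115, 353, 256, 268, 158⟩, 0, 0, 0, 0, [], 0, cb230, 0, 0⟩))
  (.nd 2 600 (.lf ⟨⟨16384, 256, 13, 724, 256, 141, 88⟩, 0, 0, 0, 0, [], 0, cb180, 0, 0⟩)
  (.nd 2 801 (.lf ⟨⟨65992, 256, 3, 2048, 256, 53, 34⟩, 0, 0, 0, 0, [], 0, cb231, 0, 0⟩)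
  (.lf ⟨⟨0, 0, 0, 4110, 256, 27, 18⟩, 0, 0, 0, 0, [], 9, cb232, 0, 0⟩))))
  .lw)

noncomputable def b10_1 : T5 :=
  (.nd 2 2380 (.nd 2 300 (.nd 2 93 (.lf ⟨⟨488, 256, 643, 256, 256, 351, 200⟩, 0, 0, 0, 0, [], 0, cb32, 0, 0⟩)
  (.lf ⟨⟨2048, 256, 115, 353, 256, 268, 158⟩, 0, 0, 0, 0, [], 0, cb1, 0, 0⟩))
  (.nd 2 600 (.lf ⟨⟨16384, 256, 13, 724, 256, 141, 88⟩, 0, 0, 0, 0, [], 0, cb233, 0, 0⟩)
  (.nd 2 801 (.lf ⟨⟨65992, 256, 3, 2048, 256, 53, 34⟩, 0, 0, 0, 0, [], 0, cb35, 0, 0⟩)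
  (.nd 2 1590 (.lf ⟨⟨0, 0, 0, 4110, 256, 27, 18⟩, 0, 0, 0, 0, [], 0, cb209, 0, 0⟩)
  (.nd 2 1985 (.lf ⟨⟨0, 0, 0, 3956, 16, 2, 2⟩, 0, 0, 0, 0, [], 0, cb234, 0, 0⟩)
  (.lf ⟨⟨0, 0, 0, 15554, 16, 1, 1⟩, 0, 0, 0, 0, [], 7, cb211, 0, 0⟩))))))
  .lw)

noncomputable def b10_2 : T5 :=
  (.nd 2 2047 (.nd 2 300 (.nd 2 93 (.lf ⟨⟨488, 256, 643, 256, 256, 351, 200⟩, 0, 0, 0, 0, [], 0, cb3, 0, 0⟩)
  (.lf ⟨⟨2048, 256, 115, 353, 256, 268, 158⟩, 0, 0, 0, 0, [], 0, cb4, 0, 0⟩))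
  (.nd 2 600 (.lf ⟨⟨16384, 256, 13, 724, 256, 141, 88⟩, 0, 0, 0, 0, [], 0, cb90, 0, 0⟩)
  (.nd 2 801 (.lf ⟨⟨65992, 256, 3, 2048, 256, 53, 34⟩, 0, 0, 0, 0, [], 0, cb95, 0, 0⟩)
  (.nd 2 1424 (.lf ⟨⟨0, 0, 0, 4110, 256, 27, 18⟩, 0, 0, 0, 0, [], 0, cb235, 0, 0⟩)
  (.lf ⟨⟨0, 0, 0, 2225, 16, 4, 3⟩, 0, 0, 0, 0, [], 9, cb236, 0, 0⟩)))))
  .lw)

noncomputable def b10_3 : T5 :=
  (.nd 2 1647 (.nd 2 300 (.nd 2 93 (.lf ⟨⟨488, 256, 643, 256, 256, 351, 200⟩, 0, 0, 0, 0, [], 0, cb68, 0, 0⟩)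
  (.lf ⟨⟨2048, 256, 115, 353, 256, 268, 158⟩, 0, 0, 0, 0, [], 0, cb21, 0, 0⟩))
  (.nd 2 600 (.lf ⟨⟨16384, 256, 13, 724, 256, 141, 88⟩, 0, 0, 0, 0, [], 0, cb237, 0, 0⟩)
  (.nd 2 801 (.lf ⟨⟨65992, 256, 3, 2048, 256, 53, 34⟩, 4111, 256, 17, 2, [], 0, cb238, 0, 0⟩)
  (.nd 2 1224 (.lf ⟨⟨0, 0, 0, 4110, 256, 27, 18⟩, 17806, 256, 4, 0, [], 0, cb239, 0, 0⟩)
  (.lf ⟨⟨0, 0, 0, 1112, 16, 7, 5⟩, 0, 0, 0, 0, [], 14, cb240, 0, 0⟩)))))
  .lw)

noncomputable def b10_4 : T5 :=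
  (.nd 2 1238 (.nd 2 300 (.nd 2 93 (.lf ⟨⟨488, 256, 643, 256, 256, 351, 200⟩, 0, 0, 0, 0, [], 0, cb241, 0, 0⟩)
  (.lf ⟨⟨2048, 256, 115, 353, 256, 268, 158⟩, 0, 0, 0, 0, [], 0, cb242, 0, 0⟩))
  (.nd 2 600 (.lf ⟨⟨16384, 256, 13, 724, 256, 141, 88⟩, 2048, 256, 33, 10, [], 0, cb243, 0, 0⟩)
  (.nd 2 801 (.lf ⟨⟨65992, 256, 3, 2048, 256, 53, 34⟩, 4111, 256, 17, 2, [], 0, cb244, 0, 0⟩)
  (.lf ⟨⟨0, 0, 0, 4110, 256, 27, 18⟩, 18691, 256, 3, 0, [], 14, cb245, 0, 0⟩))))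
  .lw)

noncomputable def b10_5 : T5 :=
  (.nd 2 832 (.nd 2 300 (.nd 2 93 (.lf ⟨⟨488, 256, 643, 256, 256, 351, 200⟩, 354, 256, 156, 167, [], 0, cb246, 0, 0⟩)
  (.nd 2 200 (.lf ⟨⟨1024, 256, 249, 353, 256, 268, 158⟩, 512, 256, 116, 101, [], 0, cb247, 0, 0⟩)
  (.lf ⟨⟨2048, 256, 115, 512, 256, 194, 117⟩, 725, 256, 87, 61, [], 0, cb248, 0, 0⟩)))
  (.nd 2 600 (.nd 2 500 (.nd 2 400 (.lf ⟨⟨4096, 256, 55, 724, 256, 141, 88⟩, 1024, 256, 64, 35, [], 0, cb249, 0, 0⟩)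
  (.lf ⟨⟨8192, 256, 27, 1024, 256, 102, 65⟩, 1449, 256, 46, 19, [], 9, cb250, 0, 0⟩))
  (.lf ⟨⟨16384, 256, 13, 1448, 256, 74, 47⟩, 2048, 256, 33, 10, [], 14, cb251, 0, 0⟩))
  (.lf ⟨⟨81811, 256, 2, 2048, 256, 53, 34⟩, 4577, 256, 15, 2, [], 14, cb252, 0, 0⟩)))
  .lw)

noncomputable def b10_6 : T5 :=
  (.nd 2 415 (.nd 2 99 (.lf ⟨⟨509, 256, 605, 256, 256, 351, 200⟩, 361, 256, 154, 163, [], 0, cb202, 0, 0⟩)
  (.nd 2 300 (.nd 2 200 (.lf ⟨⟨1024, 256, 249, 360, 256, 264, 155⟩, 512, 256, 116, 101, [], 0, cb253, 0, 0⟩)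
  (.nd 2 250 (.lf ⟨⟨1449, 256, 168, 512, 256, 194, 117⟩, 609, 256, 101, 79, [], 9, cb254, 0, 0⟩)
  (.nd 2 275 (.lf ⟨⟨1723, 256, 139, 608, 256, 166, 102⟩, 664, 256, 94, 69, [], 14, cb255, 0, 0⟩)
  (.lf ⟨⟨2048, 256, 115, 663, 256, 153, 95⟩, 725, 256, 87, 61, [], 9, cb256, 0, 0⟩))))
  (.lf ⟨⟨4545, 256, 50, 724, 256, 141, 88⟩, 1079, 256, 61, 32, [], 14, cb257, 0, 0⟩)))
  .lw)

theorem sb10 : SB en10 8928 (bxL 783 799) :=
  sb_nd 200 (sb_rc 1 4 1 1 2779 b10_0 (by decide +kernel)) <|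
  sb_nd 400 (sb_rc 4 16 1 2 5358 b10_1 (by decide +kernel)) <|
  sb_nd 600 (sb_rc 16 64 1 1 2846 b10_2 (by decide +kernel)) <|
  sb_nd 800 (sb_rc 64 256 1 1 2846 b10_3 (by decide +kernel)) <|
  sb_nd 1000 (sb_rc 256 1024 1 1 2837 b10_4 (by decide +kernel)) <|
  sb_nd 1200 (sb_rc 1024 4096 1 1 2831 b10_5 (by decide +kernel)) <|
  sb_nd 1301 (sb_rc 4096 8248 1 1 2814 b10_6 (by decide +kernel)) <|
  sb_no 8192 (by decide +kernel)

end Pool.Agent.MP_2339ce_nt.Q2.TB.RT
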