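import Pool.Agent.MP_2339ce_nt.Q2.RTa0
import Pool.Agent.MP_2339ce_nt.Q2.RTa1
import Pool.Agent.MP_2339ce_nt.Q2.RTa2
import Pool.Agent.MP_2339ce_nt.Q2.RTa3
import Pool.Agent.MP_2339ce_nt.Q2.RTa4
import Pool.Agent.MP_2339ce_nt.Q2.RTa5
import Pool.Agent.MP_2339ce_nt.Q2.RTa6
import Pool.Agent.MP_2339ce_nt.Q2.RTa7
import Pool.Agent.MP_2339ce_nt.Q2.RTb

/-! Project Q2, block RT: the regular triples of a quintuple. -/

set_option autoImplicit false

noncomputable section

namespace Pool.Agent.MP_2339ce_nt.Q2.TB.RT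

theorem cs0_ok : CsOk cs0 := cs_ok sa0 sb0 (by decide +kernel)

theorem cs1_ok : CsOk cs1 := cs_ok sa1 sb0 (by decide +kernel)

theorem cs2_ok : CsOk cs2 := cs_ok sa2 sb0 (by decide +kernel)

theorem cs3_ok : CsOk cs3 := cs_ok sa3 sb0 (by decide +kernel)

theorem cs4_ok : CsOk cs4 := cs_ok sa4 sb0 (by decide +kernel)

theorem cs5_ok : CsOk cs5 := cs_ok sa5 sb1 (by decide +kernel)

theorem cs6_ok : CsOk cs6 := cs_ok sa6 sb1 (by decide +kernel)

theorem cs7_ok : CsOk cs7 := cs_ok sa7 sb1 (by decide +kernel)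

theorem cs8_ok : CsOk cs8 := cs_ok sa8 sb2 (by decide +kernel)

theorem cs9_ok : CsOk cs9 := cs_ok sa9 sb2 (by decide +kernel)

theorem cs10_ok : CsOk cs10 := cs_ok sa10 sb3 (by decide +kernel)

theorem cs11_ok : CsOk cs11 := cs_ok sa11 sb3 (by decide +kernel)

theorem cs12_ok : CsOk cs12 := cs_ok sa12 sb4 (by decide +kernel)

theorem cs13_ok : CsOk cs13 := cs_ok sa13 sb4 (by decide +kernel)

theorem cs14_ok : CsOk cs14 := cs_ok sa14 sb5 (by decide +kernel)

theorem cs15_ok : CsOk cs15 := cs_ok sa15 sb5 (by decide +kernel)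

theorem cs16_ok : CsOk cs16 := cs_ok sa16 sb6 (by decide +kernel)

theorem cs17_ok : CsOk cs17 := cs_ok sa17 sb6 (by decide +kernel)

theorem cs18_ok : CsOk cs18 := cs_ok sa18 sb7 (by decide +kernel)

theorem cs19_ok : CsOk cs19 := cs_ok sa19 sb7 (by decide +kernel)

theorem cs20_ok : CsOk cs20 := cs_ok sa20 sb8 (by decide +kernel)

theorem cs21_ok : CsOk cs21 := cs_ok sa21 sb8 (by decide +kernel)

theorem cs22_ok : CsOk cs22 := cs_ok sa22 sb9 (by decide +kernel)

theorem cs23_ok : CsOk cs23 := cs_ok sa23 sb9 (by decide +kernel)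

theorem cs24_ok : CsOk cs24 := cs_ok sa24 sb10 (by decide +kernel)

theorem cs25_ok : CsOk cs25 := cs_ok sa25 sb10 (by decide +kernel)

theorem cs26_ok : CsOk cs26 := cs_ok sa26 sb10 (by decide +kernel)

theorem csT_ok : ∀ C ∈ csT, CsOk C :=
  List.forall_mem_cons.2 <| And.intro cs0_ok <|
  List.forall_mem_cons.2 <| And.intro cs1_ok <|
  List.forall_mem_cons.2 <| And.intro cs2_ok <|
  List.forall_mem_cons.2 <| And.intro cs3_ok <|
  List.forall_mem_cons.2 <| And.intro cs4_ok <|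
  List.forall_mem_cons.2 <| And.intro cs5_ok <|
  List.forall_mem_cons.2 <| And.intro cs6_ok <|
  List.forall_mem_cons.2 <| And.intro cs7_ok <|
  List.forall_mem_cons.2 <| And.intro cs8_ok <|
  List.forall_mem_cons.2 <| And.intro cs9_ok <|
  List.forall_mem_cons.2 <| And.intro cs10_ok <|
  List.forall_mem_cons.2 <| And.intro cs11_ok <|
  List.forall_mem_cons.2 <| And.intro cs12_ok <|
  List.forall_mem_cons.2 <| And.intro cs13_ok <|
  List.forall_mem_cons.2 <| And.intro cs14_ok <|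
  List.forall_mem_cons.2 <| And.intro cs15_ok <|
  List.forall_mem_cons.2 <| And.intro cs16_ok <|
  List.forall_mem_cons.2 <| And.intro cs17_ok <|
  List.forall_mem_cons.2 <| And.intro cs18_ok <|
  List.forall_mem_cons.2 <| And.intro cs19_ok <|
  List.forall_mem_cons.2 <| And.intro cs20_ok <|
  List.forall_mem_cons.2 <| And.intro cs21_ok <|
  List.forall_mem_cons.2 <| And.intro cs22_ok <|
  List.forall_mem_cons.2 <| And.intro cs23_ok <|
  List.forall_mem_cons.2 <| And.intro cs24_ok <|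
  List.forall_mem_cons.2 <| And.intro cs25_ok <|
  List.forall_mem_cons.2 <| And.intro cs26_ok <|
  nofun

end Pool.Agent.MP_2339ce_nt.Q2.TB.RT
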