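import Pool.Agent.MP_2339ce_nt.Q2.TBMg

/-! Project Q2, block RT: products of polynomials and a test for non-negativity. -/

set_option autoImplicit false

noncomputable section

namespace Pool.Agent.MP_2339ce_nt.Q2.TB.RT

/-- the term `c a^i N^j r^k δ^l` -/
def tm (c : ℤ) (i j k l : ℕ) : Tm := ⟨c, ((l * 64 + j) * 64 + i) * 64 + k, i, j, k, l, 0⟩

def mulT (s : Tm) (P : List Tm) : List Tm :=
  @List.rec Tm (fun _ => List Tm) [] (fun t _ r =>
    ⟨Int.mul s.c t.c, Nat.add s.key t.key, Nat.add s.i t.i, Nat.add s.j t.j, Nat.add s.k t.k,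
      Nat.add s.l t.l, Nat.add s.m t.m⟩ :: r) P

def add (P Q : List Tm) : List Tm := mg 100000 P Q

def mul (P Q : List Tm) : List Tm :=
  @List.rec Tm (fun _ => List Tm) [] (fun s _ r => add (mulT s Q) r) P

def sq (P : List Tm) : List Tm := mul P P

theorem evL_nil (x : Pt) : evL x [] = 0 := rfl

theorem evL_cons (x : Pt) (t : Tm) (L : List Tm) : evL x (t :: L) = ev x t + evL x L := by
  simp [evL]

theorem ev_tm (x : Pt) (c : ℤ) (i j k l : ℕ) :
    ev x (tm c i j k l) = c * (x.α ^ i * x.β ^ j * x.γ ^ k * x.δ ^ l) := by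
  simp [ev, tm, mon]

theorem evL_mulT (x : Pt) (s : Tm) (P : List Tm) : evL x (mulT s P) = ev x s * evL x P := by
  induction P with
  | nil => simp [mulT, evL]
  | cons t P ih =>
    change evL x (_ :: mulT s P) = _
    rw [evL_cons, evL_cons, ih]
    simp only [ev, mon, Nat.add_eq, Int.mul_def, pow_add]
    push_cast; ring

theorem evL_add (x : Pt) (hx : x.Pos) (P Q : List Tm) : evL x (add P Q) = evL x P + evL x Q :=
  (mg_ok x _ P Q hx).1

theorem evL_mul (x : Pt) (hx : x.Pos) (P Q : List Tm) : evL x (mul P Q) = evL x P * evL x Q := by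
  induction P with
  | nil => simp [mul, evL]
  | cons t P ih =>
    change evL x (add (mulT t Q) (mul P Q)) = _
    rw [evL_add x hx, evL_mulT, ih, evL_cons]; ring

theorem evL_sq (x : Pt) (hx : x.Pos) (P : List Tm) : evL x (sq P) = evL x P ^ 2 := by
  rw [sq, evL_mul x hx, pow_two]

/-- the weight of a term relative to the monomial `a^i N^j r^k` -/
def wt (i j : ℕ) (t : Tm) : ℤ :=
  if t.c < 0 then t.c * (16 ^ (16 - (t.i - i)) * 1000 ^ (16 - (t.j - j)) : ℕ)
  else if t.i = i ∧ t.j = j then t.c * (16 ^ 16 * 1000 ^ 16 : ℕ) else 0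

def okT (i j k : ℕ) (t : Tm) : Bool :=
  decide (i ≤ t.i ∧ j ≤ t.j ∧ t.i ≤ i + 16 ∧ t.j ≤ j + 16 ∧ t.i + 2 * t.j + t.k = i + 2 * j + k ∧
    t.l = 0 ∧ t.m = 0)

def nn (i j k : ℕ) (L : List Tm) : Bool := L.all (okT i j k) && decide (0 ≤ (L.map (wt i j)).sum)

theorem wt_le (x : Pt) (hx : x.Pos) (h1 : 16 * x.α ≤ x.γ) (h2 : 1000 * x.β ≤ x.γ ^ 2) (i j k : ℕ)
    (t : Tm) (h : okT i j k t = true) :
    wt i j t * mon x i j k 0 0 ≤ 16 ^ 16 * 1000 ^ 16 * ev x t := by
  obtain ⟨p1, p2, p3, p4, p5⟩ := hx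
  obtain ⟨c, key, ti, tj, tk, tl, tn⟩ := t
  simp only [okT, decide_eq_true_eq] at h
  obtain ⟨k1, k2, k3, k4, k5, rfl, rfl⟩ := h
  obtain ⟨u, rfl⟩ := Nat.exists_eq_add_of_le k1
  obtain ⟨v, rfl⟩ := Nat.exists_eq_add_of_le k2
  obtain rfl : k = tk + u + 2 * v := by omega
  obtain ⟨u', hu⟩ : ∃ u', 16 = u' + u := ⟨16 - u, by omega⟩
  obtain ⟨v', hv⟩ : ∃ v', 16 = v' + v := ⟨16 - v, by omega⟩
  simp only [wt, ev, mon, Nat.add_sub_cancel_left, pow_zero, mul_one]
  split_ifs with hc he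
  · have hc' : (c : ℝ) ≤ 0 := by exact_mod_cast hc.le
    have e1 : 16 - u = u' := by omega
    have e2 : 16 - v = v' := by omega
    have f1 : (16 : ℝ) ^ 16 = 16 ^ u' * 16 ^ u := by rw [← pow_add, ← hu]
    have f2 : (1000 : ℝ) ^ 16 = 1000 ^ v' * 1000 ^ v := by rw [← pow_add, ← hv]
    have g1 := pow_le_pow_left₀ (by positivity) h1 u
    have g2 := pow_le_pow_left₀ (by positivity) h2 v
    have g3 := mul_le_mul g1 g2 (by positivity) (by positivity)
    have g4 := mul_le_mul_of_nonneg_left g3 (show 0 ≤ -(c : ℝ) * (16 ^ u' * 1000 ^ v') *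
      (x.α ^ i * x.β ^ j * x.γ ^ tk) from mul_nonneg (mul_nonneg (by linarith) (by positivity))
        (by positivity))
    rw [e1, e2, f1, f2]
    push_cast
    simp only [pow_add, mul_pow, pow_mul] at g4 ⊢
    linarith
  · obtain rfl : u = 0 := by omega
    obtain rfl : v = 0 := by omega
    push_cast
    simp only [add_zero]
    linarith
  · have hc' : (0 : ℝ) ≤ c := by exact_mod_cast not_lt.1 hc
    simp only [Int.cast_zero, zero_mul]
    positivity

theorem nn_ok (x : Pt) (hx : x.Pos) (h1 : 16 * x.α ≤ x.γ) (h2 : 1000 * x.β ≤ x.γ ^ 2) (i j k : ℕ)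
    (L : List Tm) (h : nn i j k L = true) : 0 ≤ evL x L := by
  simp only [nn, Bool.and_eq_true, List.all_eq_true, decide_eq_true_eq] at h
  obtain ⟨k1, k2⟩ := h
  have key : ((L.map (wt i j)).sum : ℤ) * mon x i j k 0 0 ≤ 16 ^ 16 * 1000 ^ 16 * evL x L := by
    clear k2
    induction L with
    | nil => simp [evL]
    | cons t L ih =>
      have a1 := wt_le x hx h1 h2 i j k t (k1 t List.mem_cons_self)
      have a2 := ih fun s hs => k1 s (List.mem_cons_of_mem _ hs)
      rw [List.map_cons, List.sum_cons, evL_cons]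
      push_cast
      push_cast at a2
      linarith
  have m0 : 0 < mon x i j k 0 0 := by
    obtain ⟨p1, p2, p3, p4, p5⟩ := hx
    unfold mon; positivity
  have k3 : (0 : ℝ) ≤ ((L.map (wt i j)).sum : ℤ) := by exact_mod_cast k2
  have := mul_nonneg k3 m0.le
  have h16 : (0 : ℝ) < 16 ^ 16 * 1000 ^ 16 := by positivity
  exact (mul_nonneg_iff_of_pos_left h16).1 (this.trans key)

theorem evL_filter (x : Pt) (p : Tm → Bool) (L : List Tm) :
    evL x L = evL x (L.filter p) + evL x (L.filter fun t => !p t) := by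
  induction L with
  | nil => simp [evL]
  | cons t L ih =>
    cases h : p t <;> simp only [List.filter_cons, h, Bool.not_true, Bool.not_false, if_true,
      Bool.false_eq_true, if_false, evL_cons] <;> linarith

/-- the test with the two leading monomials `a^2 r^k` and `N r^k` -/
def nn2 (k : ℕ) (L : List Tm) : Bool :=
  nn 2 0 k (L.filter fun t => Nat.ble 2 t.i) && nn 0 1 k (L.filter fun t => !Nat.ble 2 t.i)

theorem nn2_ok (x : Pt) (hx : x.Pos) (h1 : 16 * x.α ≤ x.γ) (h2 : 1000 * x.β ≤ x.γ ^ 2) (k : ℕ)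
    (L : List Tm) (h : nn2 k L = true) : 0 ≤ evL x L := by
  rw [nn2, Bool.and_eq_true] at h
  rw [evL_filter x (fun t => Nat.ble 2 t.i)]
  exact add_nonneg (nn_ok x hx h1 h2 _ _ _ _ h.1) (nn_ok x hx h1 h2 _ _ _ _ h.2)

end Pool.Agent.MP_2339ce_nt.Q2.TB.RT
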