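import Pool.Agent.MP_2339ce_nt.Q2.TCSpec
import Pool.Agent.MP_2339ce_nt.Q2.TBW

/-! Project Q2, block TC: the windows proved by hand. -/

set_option autoImplicit false

noncomputable section

namespace Pool.Agent.MP_2339ce_nt.Q2.TB

namespace Hw

/-- the part of a monomial with positive exponents -/
def M (q : Qd) (x : Af) : ℤ :=
  q.d ^ x.k.toNat * q.N ^ x.eN.toNat * q.a ^ x.ea.toNat * q.b ^ x.eb.toNat * q.c ^ x.ec.toNat *
    (q.b - q.a) ^ x.e1.toNat * (q.c - q.b) ^ x.e2.toNat * (q.c - q.a) ^ x.e3.toNat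

theorem lg_mul {u v : ℤ} (hu : 0 < u) (hv : 0 < v) : DQ.lg (u * v) = DQ.lg u + DQ.lg v := by
  simp only [DQ.lg, Int.cast_mul]
  exact Real.logb_mul (by exact_mod_cast hu.ne') (by exact_mod_cast hv.ne')

theorem lg_pow (u : ℤ) (n : ℕ) : DQ.lg (u ^ n) = n * DQ.lg u := by
  simp only [DQ.lg, Int.cast_pow, Real.logb_pow]

theorem lg_le {u v : ℤ} (hu : 0 < u) (hv : 0 < v) : DQ.lg u ≤ DQ.lg v ↔ u ≤ v := by
  rw [DQ.lg, DQ.lg, Real.logb_le_logb one_lt_two (by exact_mod_cast hu) (by exact_mod_cast hv),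
    Int.cast_le]

theorem lgM (q : Qd) (x : Af) : 0 < M q x ∧ DQ.lg (M q x) =
    x.k.toNat * DQ.lg q.d + x.eN.toNat * DQ.lg q.N + x.ea.toNat * DQ.lg q.a +
      x.eb.toNat * DQ.lg q.b + x.ec.toNat * DQ.lg q.c + x.e1.toNat * DQ.lg (q.b - q.a) +
      x.e2.toNat * DQ.lg (q.c - q.b) + x.e3.toNat * DQ.lg (q.c - q.a) := by
  have := q.hN; have := q.ha; have := q.hb; have := q.hc; have := q.hd
  have h1 : 0 < q.N := by omega
  have h2 : 0 < q.a := by omega
  have h3 : 0 < q.b := by omega
  have h4 : 0 < q.c := by omega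
  have h5 : 0 < q.d := by omega
  have h6 : 0 < q.b - q.a := by omega
  have h7 : 0 < q.c - q.b := by omega
  have h8 : 0 < q.c - q.a := by omega
  refine ⟨by unfold M; positivity, ?_⟩
  unfold M
  iterate 7 rw [lg_mul (by positivity) (by positivity)]
  simp only [lg_pow]

theorem tn (e : ℤ) : (e : ℝ) = (e.toNat : ℝ) - ((-e).toNat : ℝ) := by
  exact_mod_cast congrArg (Int.cast : ℤ → ℝ) (Int.toNat_sub_toNat_neg e).symm

theorem key (q : Qd) (x : Af) (h : x.v q.N q.a q.b q.c q.d ≤ 0) (A B : ℤ) (hA : 0 < A)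
    (hB : 0 < B) (k : A ^ 100 * 2 ^ (-x.m).toNat ≤ B ^ 100 * 2 ^ x.m.toNat) :
    A * M q x ≤ B * M q (Af.neg x) := by
  obtain ⟨p1, e1⟩ := lgM q x
  obtain ⟨p2, e2⟩ := lgM q (Af.neg x)
  have l2 : DQ.lg 2 = 1 := by simp [DQ.lg]
  rw [← lg_le (by positivity) (by positivity), lg_mul (by positivity) (by positivity),
    lg_mul (by positivity) (by positivity), lg_pow, lg_pow, lg_pow, lg_pow, l2] at k
  rw [← lg_le (by positivity) (by positivity), lg_mul hA p1, lg_mul hB p2, e1, e2]
  simp only [Af.neg]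
  rw [Af.v, tn x.k, tn x.m, tn x.eN, tn x.ea, tn x.eb, tn x.ec, tn x.e1, tn x.e2, tn x.e3] at h
  push_cast at k
  linarith

end Hw

open Hw in
theorem hw_ok (h1 : S_ST) (h2 : S_REGST) : S_HW := by
  intro i q hi h
  match i with
  | 0 =>
    simp only [hw, List.forall_mem_cons] at h
    have k1 := key q _ h.1 1024 1 (by decide) (by decide) (by decide +kernel)
    have k2 := key q _ h.2.1 64 1 (by decide) (by decide) (by decide +kernel)
    have k3 := key q _ h.2.2.1 1 10 (by decide) (by decide) (by decide +kernel)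
    have k4 := key q _ h.2.2.2.1 1 3600 (by decide) (by decide) (by decide +kernel)
    simp only [M, Af.neg, Int.reduceNeg, Int.reduceToNat, neg_neg, neg_zero] at k1 k2 k3 k4
    refine q.w3_win ?_ ?_ ?_ ?_ <;> (try simp only [Qd.V, Qd.P]) <;> linarith
  | 1 =>
    simp only [hw, List.forall_mem_cons] at h
    have k1 := key q _ h.1 1024 1 (by decide) (by decide) (by decide +kernel)
    have k2 := key q _ h.2.1 131072 1 (by decide) (by decide) (by decide +kernel)
    have k3 := key q _ h.2.2.1 1 3600 (by decide) (by decide) (by decide +kernel)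
    simp only [M, Af.neg, Int.reduceNeg, Int.reduceToNat, neg_neg, neg_zero] at k1 k2 k3
    refine q.w3_hi ?_ ?_ ?_ <;> (try simp only [Qd.V, Qd.P]) <;> linarith
  | 2 =>
    simp only [hw, List.forall_mem_cons] at h
    have k1 := key q _ h.1 1024 1 (by decide) (by decide) (by decide +kernel)
    have k2 := key q _ h.2.1 23 1 (by decide) (by decide) (by decide +kernel)
    have k3 := key q _ h.2.2.1 1 3 (by decide) (by decide) (by decide +kernel)
    have k4 := key q _ h.2.2.2.1 1 59 (by decide) (by decide) (by decide +kernel)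
    simp only [M, Af.neg, Int.reduceNeg, Int.reduceToNat, neg_neg, neg_zero] at k1 k2 k3 k4
    refine q.wc_win ?_ ?_ ?_ ?_ <;> (try simp only [Qd.P]) <;> linarith
  | 3 =>
    simp only [hw, List.forall_mem_cons] at h
    have k1 := key q _ h.1 1024 1 (by decide) (by decide) (by decide +kernel)
    have k2 := key q _ h.2.1 256 1 (by decide) (by decide) (by decide +kernel)
    have k3 := key q _ h.2.2.1 1 59 (by decide) (by decide) (by decide +kernel)
    simp only [M, Af.neg, Int.reduceNeg, Int.reduceToNat, neg_neg, neg_zero] at k1 k2 k3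
    refine q.wc_hi ?_ ?_ ?_ <;> (try simp only [Qd.P]) <;> linarith
  | 4 =>
    simp only [hw, List.forall_mem_cons] at h
    have k1 := key q _ h.1 64 1 (by decide) (by decide) (by decide +kernel)
    have k2 := key q _ h.2.1 5 1 (by decide) (by decide) (by decide +kernel)
    have k3 := key q _ h.2.2.1 4 1 (by decide) (by decide) (by decide +kernel)
    have k4 := key q _ h.2.2.2.1 10 34 (by decide) (by decide) (by decide +kernel)
    simp only [M, Af.neg, Int.reduceNeg, Int.reduceToNat, neg_neg, neg_zero] at k1 k2 k3 k4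
    refine h1 q ?_ ?_ ?_ ?_ <;> linarith
  | n + 5 =>
    simp only [hw, List.forall_mem_cons] at h
    have k1 := key q _ h.1 1024 1 (by decide) (by decide) (by decide +kernel)
    have k2 := key q _ h.2.1 100 398 (by decide) (by decide) (by decide +kernel)
    simp only [M, Af.neg, Int.reduceNeg, Int.reduceToNat, neg_neg, neg_zero] at k1 k2
    refine h2 q (hi.resolve_left (by omega)) ?_ ?_ <;> linarith

end Pool.Agent.MP_2339ce_nt.Q2.TB
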