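import Pool.Agent.MP_2339ce_nt.Q2.RTF
import Pool.Agent.MP_2339ce_nt.Q2.TCHw
import Pool.Agent.MP_2339ce_nt.Q2.TCChain
import Pool.Agent.MP_2339ce_nt.Q2.TCTree

/-! Project Q2, block RT: the cover tree for regular triples. -/

set_option autoImplicit false

noncomputable section

namespace Pool.Agent.MP_2339ce_nt.Q2.TB.RT

def f5c : List Af :=
  [⟨0, 1000, 1, -1, -1, 0, 0, 0, 0⟩, ⟨0, 801, 0, 1, -1, 0, 0, 0, 0⟩, ⟨-1, 100, 6, 0, 1, 0, 0, 0, 0⟩,
    ⟨-3, 1500, 4, 2, 5, 0, 0, 0, 0⟩]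

def hw2 (i : ℕ) : List Af :=
  match i with
  | 6 => ⟨0, 200, 1, -2, 0, 0, 0, 0, 0⟩ :: ⟨0, 679, 8, -1, -3, 0, 0, 0, 0⟩ ::
      ⟨1, -447, 10, -2, -7, 0, 0, 0, 0⟩ :: f5c
  | 7 => ⟨0, 0, 1, -2, 0, 0, 0, 0, 0⟩ :: ⟨0, 688, 8, -1, -3, 0, 0, 0, 0⟩ ::
      ⟨1, -430, 10, -2, -7, 0, 0, 0, 0⟩ :: f5c
  | 8 => ⟨0, 0, -1, 2, 0, 0, 0, 0, 0⟩ :: ⟨0, 688, 9, -3, -3, 0, 0, 0, 0⟩ ::
      ⟨1, -430, 12, -6, -7, 0, 0, 0, 0⟩ :: f5c
  | 9 => ⟨0, 200, -1, 2, 0, 0, 0, 0, 0⟩ :: ⟨0, 518, 9, -3, -3, 0, 0, 0, 0⟩ ::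
      ⟨1, -770, 12, -6, -7, 0, 0, 0, 0⟩ :: f5c
  | 10 => ⟨0, 359, -1, 2, 0, 0, 0, 0, 0⟩ :: ⟨0, 418, 9, -3, -3, 0, 0, 0, 0⟩ ::
      ⟨1, -970, 12, -6, -7, 0, 0, 0, 0⟩ :: f5c
  | 11 => ⟨0, -100, -1, 2, 0, 0, 0, 0, 0⟩ :: ⟨0, 782, 9, -3, -3, 0, 0, 0, 0⟩ ::
      ⟨1, -241, 12, -6, -7, 0, 0, 0, 0⟩ :: f5c
  | i => hw i

open Hw in
theorem f5g (q : Qd) (hc : q.c = q.a + q.b + 2 * q.r)
    (h : ∀ x ∈ f5c, x.v q.N q.a q.b q.c q.d ≤ 0) (u v Z : ℤ) (hu : 0 < u)
    (hG : u * (q.N + 12 * q.a ^ 2) ≤ v * Z) (h0 : 9 * v * (q.N ^ 8 * Z) ≤ u * (q.a * q.b) ^ 3)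
    (h3 : v ^ 2 * (q.N ^ 10 * Z ^ 2 * q.d) ≤ 3340 * u ^ 2 * (q.a ^ 6 * q.b ^ 7)) : False := by
  simp only [f5c, List.forall_mem_cons] at h
  have k1 := key q _ h.1 1024 1 (by decide) (by decide) (by decide +kernel)
  have k2 := key q _ h.2.1 257 1 (by decide) (by decide) (by decide +kernel)
  have k3 := key q _ h.2.2.1 2 1 (by decide) (by decide) (by decide +kernel)
  have k4 := key q _ h.2.2.2.1 32768 1 (by decide) (by decide) (by decide +kernel)
  simp only [M, Af.neg, Int.reduceNeg, Int.reduceToNat, neg_neg, neg_zero] at k1 k2 k3 k4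
  have N0 : 0 < q.N := by have := q.hN; omega
  have d0 : 0 < q.d := by have := q.ha; have := q.hb; have := q.hc; have := q.hd; omega
  refine f5_win q hc (by linarith) (by linarith) ?_ (by linarith) (by linarith) ?_
  · apply le_of_mul_le_mul_left _ hu
    have := mul_le_mul_of_nonneg_left hG (show 0 ≤ q.N ^ 8 by positivity)
    linarith
  · apply le_of_mul_le_mul_left _ (pow_pos hu 2)
    have := mul_le_mul_of_nonneg_left (pow_le_pow_left₀ (by positivity) hG 2)
      (show 0 ≤ q.N ^ 10 * q.d by positivity)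
    linarith

open Hw in
theorem hw2_ok (h3 : S_HW) (i : ℕ) (q : Qd) (hc : q.c = q.a + q.b + 2 * q.r)
    (h : ∀ x ∈ hw2 i, x.v q.N q.a q.b q.c q.d ≤ 0) : False := by
  have a0 : 0 < q.a := by have := q.ha; omega
  have a2 : 0 < q.a ^ 2 := by positivity
  have a4 : 0 < q.a ^ 4 := by positivity
  unfold hw2 at h
  split at h
  · rw [List.forall_mem_cons, List.forall_mem_cons, List.forall_mem_cons] at h
    have k1 := key q _ h.1 4 1 (by decide) (by decide) (by decide +kernel)
    have k2 := key q _ h.2.1 441 4 (by decide) (by decide) (by decide +kernel)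
    have k3 := key q _ h.2.2.1 2401 53440 (by decide) (by decide) (by decide +kernel)
    simp only [M, Af.neg, Int.reduceNeg, Int.reduceToNat, neg_neg, neg_zero] at k1 k2 k3
    have j2 := mul_le_mul_of_nonneg_left k2 a2.le
    have j3 := mul_le_mul_of_nonneg_left k3 a4.le
    exact f5g q hc h.2.2.2 4 49 (q.a ^ 2) (by decide) (by linarith) (by linarith) (by linarith)
  · rw [List.forall_mem_cons, List.forall_mem_cons, List.forall_mem_cons] at h
    have k1 := key q _ h.1 1 1 (by decide) (by decide) (by decide +kernel)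
    have k2 := key q _ h.2.1 117 1 (by decide) (by decide) (by decide +kernel)
    have k3 := key q _ h.2.2.1 169 3340 (by decide) (by decide) (by decide +kernel)
    simp only [M, Af.neg, Int.reduceNeg, Int.reduceToNat, neg_neg, neg_zero] at k1 k2 k3
    have j2 := mul_le_mul_of_nonneg_left k2 a2.le
    have j3 := mul_le_mul_of_nonneg_left k3 a4.le
    exact f5g q hc h.2.2.2 1 13 (q.a ^ 2) (by decide) (by linarith) (by linarith) (by linarith)
  · rw [List.forall_mem_cons, List.forall_mem_cons, List.forall_mem_cons] at h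
    have k1 := key q _ h.1 1 1 (by decide) (by decide) (by decide +kernel)
    have k2 := key q _ h.2.1 117 1 (by decide) (by decide) (by decide +kernel)
    have k3 := key q _ h.2.2.1 169 3340 (by decide) (by decide) (by decide +kernel)
    simp only [M, Af.neg, Int.reduceNeg, Int.reduceToNat, neg_neg, neg_zero] at k1 k2 k3
    exact f5g q hc h.2.2.2 1 13 q.N (by decide) (by linarith) (by linarith) (by linarith)
  · rw [List.forall_mem_cons, List.forall_mem_cons, List.forall_mem_cons] at h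
    have k1 := key q _ h.1 4 1 (by decide) (by decide) (by decide +kernel)
    have k2 := key q _ h.2.1 36 1 (by decide) (by decide) (by decide +kernel)
    have k3 := key q _ h.2.2.1 16 3340 (by decide) (by decide) (by decide +kernel)
    simp only [M, Af.neg, Int.reduceNeg, Int.reduceToNat, neg_neg, neg_zero] at k1 k2 k3
    exact f5g q hc h.2.2.2 1 4 q.N (by decide) (by linarith) (by linarith) (by linarith)
  · rw [List.forall_mem_cons, List.forall_mem_cons, List.forall_mem_cons] at h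
    have k1 := key q _ h.1 12 1 (by decide) (by decide) (by decide +kernel)
    have k2 := key q _ h.2.1 18 1 (by decide) (by decide) (by decide +kernel)
    have k3 := key q _ h.2.2.1 4 3340 (by decide) (by decide) (by decide +kernel)
    simp only [M, Af.neg, Int.reduceNeg, Int.reduceToNat, neg_neg, neg_zero] at k1 k2 k3
    exact f5g q hc h.2.2.2 1 2 q.N (by decide) (by linarith) (by linarith) (by linarith)
  · rw [List.forall_mem_cons, List.forall_mem_cons, List.forall_mem_cons] at h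
    have k1 := key q _ h.1 1 2 (by decide) (by decide) (by decide +kernel)
    have k2 := key q _ h.2.1 225 1 (by decide) (by decide) (by decide +kernel)
    have k3 := key q _ h.2.2.1 625 3340 (by decide) (by decide) (by decide +kernel)
    simp only [M, Af.neg, Int.reduceNeg, Int.reduceToNat, neg_neg, neg_zero] at k1 k2 k3
    exact f5g q hc h.2.2.2 1 25 q.N (by decide) (by linarith) (by linarith) (by linarith)
  · exact h3 i q (Or.inr hc) h

def hwOK2 (i : ℕ) (B : Bx) (U : Us) (lo hi : Lf) : Bool :=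
  (hw2 i).all fun x => le0 B (afL U x (@Bool.rec (fun _ => Lf) lo hi (isP x.k)))

def chain2 (B : Bx) (U : Us) (ws : List Wd) : Lf → Bool :=
  @List.rec Wd (fun _ => Lf → Bool) (fun _ => true) (fun w _ ih lo =>
    @Bool.rec (fun _ => Bool) false (ih w.hi) (hwOK2 w.id B U lo w.hi)) ws

def cl2 (wt : List Wn) (B : Bx) (D : Df) (ws : List Wd) (ix : List ℕ) (pr i : ℕ) : Bool :=
  dfOK true B D && chain2 (dfB true B D) (dfU true D) ws lfc &&
    hpOK wt ix pr i (dfB true B D) (dfU true D) (lastHi ws lfc)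

def chk2 (wt : List Wn) (T : Tr) : Bx → Bool :=
  @Tr.rec (fun _ => Bx → Bool)
    (fun ax t _ _ il ir B => @Bool.rec (fun _ => Bool) false (ir (B.rgt ax t)) (il (B.lft ax t)))
    (fun D ws ix pr i B => cl2 wt B D ws ix pr i)
    (fun ρ u v u' v' B => rcOK true B ρ u v u' v') (fun B => gpOK true B)
    (fun ax n B => emOK B ax n) T

theorem chain2_ok (h2 : S_AFL) (h3 : S_HW) (B : Bx) (U : Us) (ws : List Wd) (lo : Lf) (q : Qd)
    (hr : q.c = q.a + q.b + 2 * q.r) (hB : B.Mem q.N q.a q.b q.c) (hU : U.Ok q) :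
    chain2 B U ws lo = true → lo.val q.N q.a q.b q.c ≤ 600 * lg q.d →
      (lastHi ws lo).val q.N q.a q.b q.c ≤ 600 * lg q.d := by
  induction ws generalizing lo with
  | nil => exact fun _ hlo => hlo
  | cons w ws ih =>
    intro hch hlo
    change @Bool.rec (fun _ => Bool) false (chain2 B U ws w.hi) (hwOK2 w.id B U lo w.hi) = true
      at hch
    cases hw0 : hwOK2 w.id B U lo w.hi with
    | false => rw [hw0] at hch; exact absurd hch Bool.false_ne_true
    | true =>
      rw [hw0] at hch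
      show (lastHi ws w.hi).val q.N q.a q.b q.c ≤ 600 * lg q.d
      rcases le_total (600 * lg q.d) (w.hi.val q.N q.a q.b q.c) with hhi | hhi
      · refine (hw2_ok h3 w.id q hr fun x hx => ?_).elim
        have hx1 := List.all_eq_true.1 hw0 x hx
        cases hk : isP x.k with
        | true =>
          rw [hk] at hx1
          have hp : (0 : ℝ) ≤ (x.k : ℝ) := by exact_mod_cast ((chain_isP x.k).1 hk).le
          exact (h2 B U x w.hi q hB hU (mul_le_mul_of_nonneg_left hhi hp)).1 hx1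
        | false =>
          rw [hk] at hx1
          have hp : (x.k : ℝ) ≤ 0 := by exact_mod_cast chain_isP_false x.k hk
          exact (h2 B U x lo q hB hU (mul_le_mul_of_nonpos_left hlo hp)).1 hx1
      · exact ih w.hi hch hhi

open TB.Tree in
theorem tree2_ok (h0 : S_AFL) (h1 : S_HW) (h2 : S_HPC) (h3 : S_DF) (h4 : S_RC) (h5 : S_GP)
    (wt : List Wn) (hw : ∀ w ∈ wt, w.Ok) (T : Tr) (B : Bx) (acc : List Rc) :
    chk2 wt T B = true → Sem true B (rects T acc) := by
  induction T generalizing B acc with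
  | nd ax t l r il ir =>
    intro h
    change @Bool.rec (fun _ => Bool) false (chk2 wt r (B.rgt ax t))
      (chk2 wt l (B.lft ax t)) = true at h
    cases e : chk2 wt l (B.lft ax t) with
    | false => rw [e] at h; exact absurd h Bool.false_ne_true
    | true => rw [e] at h; exact nd (il _ _ e) (mono (ir _ acc h) (sub l _))
  | cl D ws ix pr i =>
    intro h q e j1 j2 j3 j4
    change cl2 wt B D ws ix pr i = true at h
    simp only [cl2, Bool.and_eq_true] at h
    obtain ⟨k1, k2⟩ := h3 true B D q j3.1 j4 h.1.1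
    have k3 : lg q.c ≤ lg q.d := lgm (by exact_mod_cast j2.a0.trans (j2.ab.trans j2.bc))
      (by exact_mod_cast j2.cd.le)
    exact (h2 wt ix pr i _ _ _ q e hw j1 j2 k1 k2 (chain2_ok h0 h1 _ _ ws lfc q (j3.1 rfl) k1 k2
      h.1.2 (by simp only [lfc, Lf.val]; push_cast; linarith)) h.2).elim
  | fn ρ u v u' v' =>
    exact fun h q e _ _ _ j => ⟨ρ, List.mem_cons_self, h4 true B ρ u v u' v' q j h⟩
  | gp => exact fun h q e j1 _ j3 j4 => ((h5 true B q j1 j3 j4).1 h).elim
  | em ax n => exact fun h q e j1 _ j3 j4 => ((h5 true B q j1 j3 j4).2 ax n h).elim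

end Pool.Agent.MP_2339ce_nt.Q2.TB.RT
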