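import Pool.Agent.MP_2339ce_nt.Q2.TBSpec

/-! Project Q2, block TB: linear forms on a box, and the logarithm of a quotient of monomials. -/

set_option autoImplicit false

namespace Pool.Agent.MP_2339ce_nt.Q2.TB

open Real

namespace Sup

theorem up_ge (e : ℤ) (lo hi : ℕ) (v : ℝ) (g : Bool) (h1 : (lo : ℝ) ≤ v)
    (h2 : g = false → v ≤ hi) (hb : (g && isP e) = false) : e * v ≤ up e lo hi := by
  cases e with
  | ofNat n =>
    have e1 : up (Int.ofNat n) lo hi = ((n * hi : ℕ) : ℤ) := rfl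
    have e2 : isP (Int.ofNat n) = Nat.ble 1 n := rfl
    rw [e1, Int.ofNat_eq_natCast]
    push_cast
    rcases Nat.eq_zero_or_pos n with rfl | hn
    · simp
    · rw [e2, Nat.ble_eq_true_of_le hn, Bool.and_true] at hb
      exact mul_le_mul_of_nonneg_left (h2 hb) (Nat.cast_nonneg n)
  | negSucc n =>
    have e1 : up (Int.negSucc n) lo hi = Int.negOfNat ((n + 1) * lo) := rfl
    rw [e1, Int.negOfNat_eq, Int.ofNat_eq_natCast, Int.negSucc_eq]
    push_cast
    have := mul_le_mul_of_nonneg_left h1 (show (0 : ℝ) ≤ n + 1 by positivity)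
    linarith

theorem lg_inv {a : ℤ} (h : 1 ≤ a) : lg (1 / √(a : ℝ)) = -(lg a / 2) := by
  have a0 : (0 : ℝ) ≤ a := by exact_mod_cast (show 0 ≤ a by omega)
  unfold lg logb
  rw [one_div, log_inv, log_sqrt a0]
  ring

theorem pos (q : Qd) : q.pt.Pos := by
  have h1 := q.hN
  have h2 := q.ha
  have h3 := q.hb
  have h4 := q.hc
  have h5 := q.hd
  have p : ∀ a : ℤ, 1 ≤ a → 0 < 1 / √(a : ℝ) := fun a h => by
    have : (0 : ℝ) < a := by exact_mod_cast (show 0 < a by omega)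
    positivity
  have n0 : (0 : ℝ) < q.N := by exact_mod_cast (show 0 < q.N by omega)
  exact ⟨p _ h2, p _ (by omega), p _ (by omega), p _ (by omega), div_pos n0 four_pos⟩

theorem mon_pos {x : Pt} (h : x.Pos) (i j k l m : ℕ) : 0 < mon x i j k l m := by
  obtain ⟨h1, h2, h3, h4, h5⟩ := h
  unfold mon
  positivity

theorem lg_mon (q : Qd) (i j k l m : ℕ) : lg (mon q.pt i j k l m) =
    -(i * (lg q.a / 2)) - j * (lg q.b / 2) - k * (lg q.c / 2) - l * (lg q.d / 2) +
      m * (lg q.N - 2) := by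
  obtain ⟨p1, p2, p3, p4, p5⟩ := pos q
  have h1 := q.hN
  have h2 := q.ha
  have h3 := q.hb
  have h4 := q.hc
  have h5 := q.hd
  have n0 : (0 : ℝ) < q.N := by exact_mod_cast (show 0 < q.N by omega)
  have ea : logb 2 q.pt.α = -(lg q.a / 2) := lg_inv h2
  have eb : logb 2 q.pt.β = -(lg q.b / 2) := lg_inv (show 1 ≤ q.b by omega)
  have ec : logb 2 q.pt.γ = -(lg q.c / 2) := lg_inv (show 1 ≤ q.c by omega)
  have ed : logb 2 q.pt.δ = -(lg q.d / 2) := lg_inv (show 1 ≤ q.d by omega)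
  have en : logb 2 q.pt.n = lg q.N - 2 := by
    show logb 2 ((q.N : ℝ) / 4) = logb 2 q.N - 2
    rw [logb_div n0.ne' four_ne_zero, show (4 : ℝ) = 2 ^ 2 by norm_num, logb_pow,
      logb_self_eq_one one_lt_two]
    norm_num
  show logb 2 (q.pt.α ^ i * q.pt.β ^ j * q.pt.γ ^ k * q.pt.δ ^ l * q.pt.n ^ m) = _
  rw [logb_mul (by positivity) (by positivity), logb_mul (by positivity) (by positivity),
    logb_mul (by positivity) (by positivity), logb_mul (by positivity) (by positivity),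
    logb_pow, logb_pow, logb_pow, logb_pow, logb_pow, ea, eb, ec, ed, en]
  ring

theorem fq2_val (g : Lf) (u eN ea eb ec N a b c : ℤ) : (fq2 g u eN ea eb ec).val N a b c =
    u * g.val N a b c - 200 * eN + 100 * (eN * lg N + ea * lg a + eb * lg b + ec * lg c) := by
  show ((u * g.m - 200 * eN : ℤ) : ℝ) + 100 * ((eN + u * g.eN : ℤ) * lg N +
    (ea + u * g.ea : ℤ) * lg a + (eb + u * g.eb : ℤ) * lg b + (ec + u * g.ec : ℤ) * lg c) = _
  unfold Lf.val
  push_cast
  ring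

theorem fq_val (g0 g1 : Lf) (s t : Tm) (N a b c : ℤ) : (fq g0 g1 s t).val N a b c =
    (s.l - t.l) * (if s.l ≤ t.l then g0 else g1).val N a b c - 2400 * (t.m - s.m) +
      (1200 * (t.m - s.m) * lg N + 600 * (s.i - t.i) * lg a + 600 * (s.j - t.j) * lg b +
        600 * (s.k - t.k) * lg c) := by
  have e : (@Bool.rec (fun _ => Lf) g1 g0 (Nat.ble s.l t.l)) = if s.l ≤ t.l then g0 else g1 := by
    cases h : Nat.ble s.l t.l
    · rw [if_neg (Nat.not_le_of_not_ble_eq_true (by rw [h]; exact Bool.false_ne_true))]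
    · rw [if_pos (Nat.le_of_ble_eq_true h)]
  unfold fq
  rw [fq2_val, e]
  simp only [Int.subNatNat_eq_coe, Int.mul_def]
  push_cast
  ring

end Sup

theorem sup_ok : S_SUP := by
  intro B f N a b c M hb
  have hb' : (B.fp && isP (f.ea + (f.eb + f.ec)) || B.fq && isP (f.eb + f.ec) ||
    B.fw && isP f.ec) = false := hb
  rw [Bool.or_eq_false_iff, Bool.or_eq_false_iff] at hb'
  have k0 := Sup.up_ge f.eN B.L1 B.L2 _ false M.L1 (fun _ => M.L2) rfl
  have k1 := Sup.up_ge _ B.p1 B.p2 _ _ M.p1 M.p2 hb'.1.1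
  have k2 := Sup.up_ge _ B.q1 B.q2 _ _ M.q1 M.q2 hb'.1.2
  have k3 := Sup.up_ge _ B.w1 B.w2 _ _ M.w1 M.w2 hb'.2
  have e : sup B f = f.m + up f.eN B.L1 B.L2 + up (f.ea + (f.eb + f.ec)) B.p1 B.p2 +
    up (f.eb + f.ec) B.q1 B.q2 + up f.ec B.w1 B.w2 := rfl
  rw [e]
  unfold Lf.val
  push_cast at k1 k2 ⊢
  linarith

theorem fq_ok : S_FQ := by
  intro B lo hi q s t ⟨_, h1, h2⟩
  have ps := Sup.mon_pos (Sup.pos q) s.i s.j s.k s.l s.m
  have pt := Sup.mon_pos (Sup.pos q) t.i t.j t.k t.l t.m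
  refine ⟨1200 * (lg (mon q.pt t.i t.j t.k t.l t.m) - lg (mon q.pt s.i s.j s.k s.l s.m)), ?_, ?_⟩
  · rw [mul_div_cancel_left₀ _ (by norm_num), rpow_sub two_pos, lg, lg,
      rpow_logb two_pos (by norm_num) pt, rpow_logb two_pos (by norm_num) ps,
      div_mul_cancel₀ _ ps.ne']
  · rw [Sup.lg_mon, Sup.lg_mon, Sup.fq_val, Sup.fq_val]
    by_cases h : s.l ≤ t.l
    · have u : (0 : ℝ) ≤ t.l - s.l := sub_nonneg.2 (by exact_mod_cast h)
      have k1 := mul_le_mul_of_nonneg_left h1 u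
      have k2 := mul_le_mul_of_nonneg_left h2 u
      rw [if_pos h, if_pos h]
      constructor <;> linarith
    · have u : (0 : ℝ) ≤ s.l - t.l := sub_nonneg.2 (by exact_mod_cast (not_le.1 h).le)
      have k1 := mul_le_mul_of_nonneg_left h1 u
      have k2 := mul_le_mul_of_nonneg_left h2 u
      rw [if_neg h, if_neg h]
      constructor <;> linarith

end Pool.Agent.MP_2339ce_nt.Q2.TB
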