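import Pool.Agent.MP_2339ce_nt.Q2.TCSpec
import Pool.Agent.MP_2339ce_nt.Q2.TBSup

/-! Project Q2, block TC, row AFL: upper bounds of monomials on a box. -/

set_option autoImplicit false

noncomputable section

namespace Pool.Agent.MP_2339ce_nt.Q2.TB

namespace Afl

theorem add_val (f g : Lf) (N a b c : ℤ) :
    (f.add g).val N a b c = f.val N a b c + g.val N a b c := by
  simp only [Lf.add, Lf.val, Int.add_def]
  push_cast
  ring

theorem smul_val (k : ℤ) (f : Lf) (N a b c : ℤ) :
    (Lf.smul k f).val N a b c = k * f.val N a b c := by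
  simp only [Lf.smul, Lf.val, Int.mul_def]
  push_cast
  ring

theorem pp_le (e : ℤ) {l u : ℝ} (h0 : 0 ≤ l) (h : 600 * l ≤ u) :
    (e : ℝ) * (600 * l) ≤ (pp e : ℝ) * u := by
  cases e with
  | ofNat n =>
    have : pp (Int.ofNat n) = Int.ofNat n := rfl
    rw [this]
    refine mul_le_mul_of_nonneg_left h ?_
    simp
  | negSucc n =>
    have : pp (Int.negSucc n) = 0 := rfl
    rw [this, Int.cast_zero, zero_mul]
    have h1 : ((Int.negSucc n : ℤ) : ℝ) ≤ 0 := by
      exact_mod_cast (Int.negSucc_lt_zero n).le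
    exact mul_nonpos_of_nonpos_of_nonneg h1 (by positivity)

theorem isP_false {e : ℤ} (h : isP e = false) : e ≤ 0 := by
  cases e with
  | ofNat n =>
    cases n with
    | zero => simp
    | succ m => exact absurd h (by simp [isP])
  | negSucc n => exact (Int.negSucc_lt_zero n).le

theorem lg_nonneg {a : ℤ} (h : 1 ≤ a) : 0 ≤ lg (a : ℝ) :=
  Real.logb_nonneg (by norm_num) (by exact_mod_cast h)

theorem bound (U : Us) (x : Af) (D : Lf) (q : Qd) (hU : U.Ok q)
    (hk : (x.k : ℝ) * (600 * lg q.d) ≤ x.k * D.val q.N q.a q.b q.c) :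
    600 * x.v q.N q.a q.b q.c q.d ≤ (afL U x D).val q.N q.a q.b q.c := by
  obtain ⟨h1, h2, h3⟩ := hU
  have hb := q.hb
  have hc := q.hc
  have g1 := pp_le x.e1 (lg_nonneg (a := q.b - q.a) (by omega)) h1
  have g2 := pp_le x.e2 (lg_nonneg (a := q.c - q.b) (by omega)) h2
  have g3 := pp_le x.e3 (lg_nonneg (a := q.c - q.a) (by omega)) h3
  simp only [afL, add_val, smul_val]
  simp only [Af.v, DQ.lg, lg, Lf.val] at *
  push_cast at *
  linarith

end Afl

theorem afl_ok : S_AFL := by
  intro B U x D q hB hU hk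
  have hb := Afl.bound U x D q hU hk
  constructor
  · intro h
    simp only [le0, Bool.and_eq_true, Bool.not_eq_true'] at h
    have h1 := sup_ok B _ _ _ _ _ hB h.1
    have h2 : ((sup B (afL U x D) : ℤ) : ℝ) ≤ 0 := by exact_mod_cast Afl.isP_false h.2
    linarith
  · intro h
    simp only [lt0, Bool.and_eq_true, Bool.not_eq_true'] at h
    have h1 := sup_ok B _ _ _ _ _ hB h.1
    have h3 : sup B (afL U x D) + 1 ≤ 0 := Afl.isP_false h.2
    have h2 : ((sup B (afL U x D) : ℤ) : ℝ) + 1 ≤ 0 := by exact_mod_cast h3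
    linarith

end Pool.Agent.MP_2339ce_nt.Q2.TB
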