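import Pool.Agent.MP_2339ce_nt.Q2.TCSpec

/-! Project Q2, block TC: rectangles, the gap leaf and the empty leaf. -/

set_option autoImplicit false

namespace Pool.Agent.MP_2339ce_nt.Q2.TB

namespace RC

theorem lg_mul {x y : ℤ} (hx : 0 < x) (hy : 0 < y) : lg (x * y : ℤ) = lg x + lg y := by
  rw [Int.cast_mul]
  exact Real.logb_mul (by exact_mod_cast hx.ne') (by exact_mod_cast hy.ne')

theorem lg_pow (x : ℤ) (n : ℕ) : lg (x ^ n : ℤ) = n * lg x := by
  rw [Int.cast_pow]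
  exact Real.logb_pow _ _ _

theorem lg_two (t : ℕ) : lg (2 ^ t : ℤ) = t := by
  rw [lg_pow, Int.cast_ofNat, lg, Real.logb_self_eq_one one_lt_two, mul_one]

theorem le_lg {x y : ℤ} (hx : 0 < x) (hy : 0 < y) (h : lg x ≤ lg y) : x ≤ y := by
  exact_mod_cast (Real.logb_le_logb one_lt_two (by exact_mod_cast hx) (by exact_mod_cast hy)).1 h

theorem lt_lg {x y : ℤ} (hx : 0 < x) (hy : 0 < y) (h : lg x < lg y) : x < y := by
  exact_mod_cast (Real.logb_lt_logb_iff one_lt_two (by exact_mod_cast hx)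
    (by exact_mod_cast hy)).1 h

theorem upr {x y : ℤ} (hx : 0 < x) (hy : 0 < y) {t : ℕ} (h : 100 * (lg y - lg x) ≤ t) :
    y ^ 100 ≤ 2 ^ t * x ^ 100 := le_lg (by positivity) (by positivity) (by
  rw [lg_mul (by positivity) (by positivity), lg_two, lg_pow, lg_pow]
  push_cast
  linarith)

theorem dn {x y : ℤ} (hx : 0 < x) (hy : 0 < y) {t : ℕ} (h : (t : ℝ) ≤ 100 * (lg y - lg x)) :
    2 ^ t * x ^ 100 ≤ y ^ 100 := le_lg (by positivity) (by positivity) (by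
  rw [lg_mul (by positivity) (by positivity), lg_two, lg_pow, lg_pow]
  push_cast
  linarith)

theorem up1 {y : ℤ} (hy : 0 < y) {t : ℕ} (h : 100 * lg y ≤ t) : y ^ 100 ≤ 2 ^ t :=
  le_lg (by positivity) (by positivity) (by rw [lg_two, lg_pow]; exact_mod_cast h)

theorem lo {x : ℤ} (hx : 0 < x) {n t : ℕ} (h : (t : ℝ) ≤ 100 * lg x)
    (h' : Nat.blt (n ^ 100) (2 ^ t) = true) : (n : ℤ) < x := by
  have h1 : (2 : ℤ) ^ t ≤ x ^ 100 :=
    le_lg (by positivity) (by positivity) (by rw [lg_two, lg_pow]; exact_mod_cast h)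
  have h2 : (n : ℤ) ^ 100 < 2 ^ t := by exact_mod_cast Nat.blt_eq.mp h'
  exact lt_of_pow_lt_pow_left₀ 100 hx.le (h2.trans_le h1)

theorem hi {x : ℤ} (hx : 0 < x) {n t : ℕ} (h : 100 * lg x ≤ t)
    (h' : Nat.blt (2 ^ t) ((n + 1) ^ 100) = true) : x ≤ n := by
  have h2 : (2 : ℤ) ^ t < (n + 1) ^ 100 := by exact_mod_cast Nat.blt_eq.mp h'
  have h3 : x < n + 1 := lt_of_pow_lt_pow_left₀ 100 (by omega) ((up1 hx h).trans_lt h2)
  omega

theorem sq {y w : ℤ} (hw : 0 < w) (hy : y ^ 2 ≤ w) {t R : ℕ} (h : 100 * lg w ≤ t)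
    (h' : Nat.ble (2 ^ t) (R ^ 200) = true) : y ≤ R := by
  have h2 : (2 : ℤ) ^ t ≤ R ^ 200 := by exact_mod_cast Nat.le_of_ble_eq_true h'
  refine le_of_pow_le_pow_left₀ (n := 200) (by norm_num) (by positivity) ?_
  rw [show y ^ 200 = (y ^ 2) ^ 100 by rw [← pow_mul]]
  exact (pow_le_pow_left₀ (sq_nonneg y) hy 100).trans ((up1 hw h).trans h2)

theorem rat {b c u v k : ℤ} (hb : 0 ≤ b) (h1 : c ^ 100 ≤ k * b ^ 100) (h2 : k * v ^ 200 ≤ u ^ 200) :
    c * v ^ 2 ≤ b * u ^ 2 := by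
  refine le_of_pow_le_pow_left₀ (n := 100) (by norm_num) (by positivity) ?_
  calc (c * v ^ 2) ^ 100 = c ^ 100 * v ^ 200 := by rw [mul_pow, ← pow_mul]
    _ ≤ k * b ^ 100 * v ^ 200 := mul_le_mul_of_nonneg_right h1 (by positivity)
    _ = b ^ 100 * (k * v ^ 200) := by rw [mul_comm k, mul_assoc]
    _ ≤ b ^ 100 * u ^ 200 := mul_le_mul_of_nonneg_left h2 (by positivity)
    _ = _ := by rw [mul_pow, ← pow_mul]

theorem rat' {b c u v k : ℤ} (hc : 0 ≤ c) (h1 : k * b ^ 100 ≤ c ^ 100)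
    (h2 : u ^ 200 ≤ k * v ^ 200) : b * u ^ 2 ≤ c * v ^ 2 := by
  refine le_of_pow_le_pow_left₀ (n := 100) (by norm_num) (by positivity) ?_
  calc (b * u ^ 2) ^ 100 = b ^ 100 * u ^ 200 := by rw [mul_pow, ← pow_mul]
    _ ≤ b ^ 100 * (k * v ^ 200) := mul_le_mul_of_nonneg_left h2 (by positivity)
    _ = k * b ^ 100 * v ^ 200 := by rw [← mul_assoc, mul_comm k]
    _ ≤ c ^ 100 * v ^ 200 := mul_le_mul_of_nonneg_right h1 (by positivity)
    _ = _ := by rw [mul_pow, ← pow_mul]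

theorem x1b {b c u v X N M y : ℤ} (hb : 0 < b) (hc : b < c) (hu : 0 ≤ u) (hv : 1 ≤ v) (hN : 0 < N)
    (hM : N ≤ M) (h1 : c * v ^ 2 ≤ b * u ^ 2) (h2 : (63 * X) ^ 2 * (b * c) ≤ (32 * N * (b + c)) ^ 2)
    (h3 : 32 * M * (u ^ 2 + v ^ 2) ≤ 63 * y * u * v) : X ≤ y := by
  have hc0 : 0 < c := hb.trans hc
  have hv0 : 0 < v := by omega
  have hu0 : 0 < u := hu.lt_of_ne fun h => by
    rw [← h] at h1
    have : 0 < c * v ^ 2 := by positivity
    simp only [ne_eq, OfNat.ofNat_ne_zero, not_false_eq_true, zero_pow, mul_zero] at h1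
    omega
  have k1 : b * v ^ 2 ≤ c * u ^ 2 :=
    (mul_le_mul_of_nonneg_right hc.le (sq_nonneg v)).trans
      (h1.trans (mul_le_mul_of_nonneg_right hc.le (sq_nonneg u)))
  have k2 : (b + c) ^ 2 * (u * v) ^ 2 ≤ (u ^ 2 + v ^ 2) ^ 2 * (b * c) := by
    nlinarith [mul_nonneg (sub_nonneg.2 h1) (sub_nonneg.2 k1)]
  have k3 : (63 * X * (u * v)) ^ 2 * (b * c) ≤ (32 * N * (u ^ 2 + v ^ 2)) ^ 2 * (b * c) :=
    calc (63 * X * (u * v)) ^ 2 * (b * c) = (63 * X) ^ 2 * (b * c) * (u * v) ^ 2 := by ring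
      _ ≤ (32 * N * (b + c)) ^ 2 * (u * v) ^ 2 := mul_le_mul_of_nonneg_right h2 (sq_nonneg _)
      _ = (32 * N) ^ 2 * ((b + c) ^ 2 * (u * v) ^ 2) := by ring
      _ ≤ (32 * N) ^ 2 * ((u ^ 2 + v ^ 2) ^ 2 * (b * c)) :=
        mul_le_mul_of_nonneg_left k2 (sq_nonneg _)
      _ = _ := by ring
  have k4 := le_of_pow_le_pow_left₀ two_ne_zero (by positivity)
    (le_of_mul_le_mul_right k3 (mul_pos hb hc0))
  have k5 : 32 * N * (u ^ 2 + v ^ 2) ≤ 32 * M * (u ^ 2 + v ^ 2) :=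
    mul_le_mul_of_nonneg_right (by omega) (by positivity)
  refine le_of_mul_le_mul_right (a := 63 * (u * v)) ?_ (by positivity)
  linarith

theorem x0b {b c u v X N M y : ℤ} (hb : 0 < b) (hv : 1 ≤ v) (hu : 0 ≤ u) (hy : 0 ≤ y) (hX : 0 ≤ X)
    (hM : M ≤ N) (h1 : b * u ^ 2 ≤ c * v ^ 2) (h2 : (63 * N) ^ 2 * c ≤ (128 * X) ^ 2 * b)
    (h3 : 128 * y * v ≤ 63 * M * u) : y ≤ X := by
  have hv0 : 0 < v := by omega
  have k1 : 128 * y * v ≤ 63 * N * u := h3.trans (mul_le_mul_of_nonneg_right (by omega) hu)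
  have k2 : (128 * y * v) ^ 2 * b ≤ (128 * X * v) ^ 2 * b :=
    calc (128 * y * v) ^ 2 * b ≤ (63 * N * u) ^ 2 * b :=
        mul_le_mul_of_nonneg_right (pow_le_pow_left₀ (by positivity) k1 2) hb.le
      _ = (63 * N) ^ 2 * (b * u ^ 2) := by ring
      _ ≤ (63 * N) ^ 2 * (c * v ^ 2) := mul_le_mul_of_nonneg_left h1 (sq_nonneg _)
      _ = (63 * N) ^ 2 * c * v ^ 2 := by ring
      _ ≤ (128 * X) ^ 2 * b * v ^ 2 := mul_le_mul_of_nonneg_right h2 (sq_nonneg _)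
      _ = _ := by ring
  have k3 := le_of_pow_le_pow_left₀ two_ne_zero (by positivity) (le_of_mul_le_mul_right k2 hb)
  refine le_of_mul_le_mul_right (a := 128 * v) ?_ (by positivity)
  linarith

theorem big_ok {B : Bx} {N a b c : ℤ} (hN : 0 < N) (ha : 0 < a) (hb : 0 < b) (m : B.Mem N a b c)
    (h : big B = true) : 64 * N ≤ a * b := by
  have h1 : (B.L2 : ℝ) + 600 ≤ 2 * B.p1 + B.q1 := by exact_mod_cast Nat.le_of_ble_eq_true h
  refine le_lg (by positivity) (by positivity) ?_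
  rw [lg_mul ha hb, lg_mul (by norm_num) hN, show (64 : ℤ) = 2 ^ 6 by norm_num, lg_two]
  push_cast
  linarith [m.L2, m.p1, m.q1]

end RC

open RC

theorem rc_ok (h : S_XW) : S_RC := by
  intro reg B ρ u v u' v' q m k
  have hN : 0 < q.N := q.hN
  have ha : 0 < q.a := q.ha
  have hb := ha.trans q.hb
  have hc := hb.trans q.hc
  simp only [rcOK, Bool.and_eq_true, Bool.or_eq_true, Bool.not_eq_true'] at k
  obtain ⟨⟨⟨⟨⟨⟨⟨k1, k2⟩, k3⟩, k4⟩, k5⟩, k6⟩, k7⟩, k8⟩ := k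
  have p2 := m.p2 k1
  have q2 := m.q2 k2
  have n1 : (ρ.N1 : ℤ) ≤ q.N := by have := lo hN m.L1 k3; omega
  have n2 := hi hN m.L2 k4
  refine ⟨n1, n2, by have := lo ha m.p1 k5; omega, hi ha p2 k6,
    sq (mul_pos ha hb) (by rw [q.hr]; omega) ?_ k7, fun hr => ?_⟩
  · rw [lg_mul ha hb]
    push_cast
    linarith
  obtain ⟨⟨j1, j2⟩, j3⟩ := k8.resolve_left (by simp [hr])
  obtain ⟨i1, i2, i3⟩ := h q
  have w2 := m.w2 j1
  simp only [x1OK, x0OK, Bool.and_eq_true, Bool.or_eq_true] at j2 j3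
  constructor
  · rcases j3 with j | ⟨⟨⟨l1, l2⟩, l3⟩, l4⟩
    · have := Nat.le_of_ble_eq_true j
      omega
    · exact x0b (v := v') hb (by exact_mod_cast Nat.le_of_ble_eq_true l2) (Int.natCast_nonneg u')
        (Int.natCast_nonneg _) (by omega) n1 (rat' hc.le (dn hb hc m.w1)
          (by exact_mod_cast Nat.le_of_ble_eq_true l3)) (i3 (big_ok hN ha hb m l1)).2
        (by exact_mod_cast Nat.le_of_ble_eq_true l4)
  · rcases j2 with j | ⟨⟨⟨l1, l2⟩, l3⟩, l4⟩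
    · refine sq (by positivity) i2 ?_ j
      rw [lg_mul (by positivity) hc, lg_mul (by positivity) hb, lg_pow]
      push_cast
      linarith
    · exact x1b (v := v) hb q.hc (Int.natCast_nonneg u)
        (by exact_mod_cast Nat.le_of_ble_eq_true l2) hN n2
        (rat hb.le (upr hb hc w2) (by exact_mod_cast Nat.le_of_ble_eq_true l3))
        (i3 (big_ok hN ha hb m l1)).1 (by exact_mod_cast Nat.le_of_ble_eq_true l4)

theorem gp_ok (h : S_GAP) : S_GP := by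
  intro reg B q h256 hr m
  have hN : 0 < q.N := q.hN
  have ha : 0 < q.a := q.ha
  have hb := ha.trans q.hb
  have hc := hb.trans q.hc
  refine ⟨fun k => ?_, fun ax n k => ?_⟩
  · simp only [gpOK, Bool.and_eq_true, Bool.not_eq_true'] at k
    obtain ⟨⟨⟨k1, k2⟩, k3⟩, k4⟩ := k
    have j1 : 2 * (B.L2 : ℝ) < B.p1 + B.q1 := by exact_mod_cast Nat.blt_eq.mp k4
    have j2 : (B.w2 : ℝ) ≤ (23 : ℕ) := by exact_mod_cast Nat.le_of_ble_eq_true k3
    have j3 := h q h256 (hr.2 k1) (lt_lg (by positivity) hb (by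
      rw [lg_pow]
      push_cast
      linarith [m.L2, m.p1, m.q1]))
    have j4 := upr hb hc ((m.w2 k2).trans j2)
    have j5 := pow_le_pow_left₀ (by positivity) j3 100
    rw [mul_pow, mul_pow] at j5
    have j6 := j5.trans (mul_le_mul_of_nonneg_left j4 (by positivity))
    rw [← mul_assoc] at j6
    exact absurd (le_of_mul_le_mul_right j6 (by positivity)) (by norm_num)
  · unfold emOK at k
    generalize Nat.beq ax 0 = g at k
    cases g
    · simp only [Bool.and_eq_true, Bool.not_eq_true'] at k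
      exact (lo ha m.p1 k.1.2).not_ge (hi ha (m.p2 k.1.1) k.2)
    · simp only [Bool.and_eq_true] at k
      exact (lo hN m.L1 k.1).not_ge (hi hN m.L2 k.2)

end Pool.Agent.MP_2339ce_nt.Q2.TB
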