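import Pool.Agent.MP_2339ce_nt.Q2.RTT
import Pool.Agent.MP_2339ce_nt.Q2.TCDf
import Pool.Agent.MP_2339ce_nt.Q2.TCRc
import Pool.Agent.MP_2339ce_nt.Q2.TCAfl

/-! Project Q2, block RT: leaves that are closed outside a rectangle. -/

set_option autoImplicit false

noncomputable section

namespace Pool.Agent.MP_2339ce_nt.Q2.TB.RT

/-- a lower bound for `c / b` and an upper bound for `(c - a) / c`, from `b / a ≤ (u / v) ^ 2` -/
def df2 (B : Bx) (u v w k : ℕ) : Bool :=
  (Nat.beq w 0 && Nat.beq k 0) ||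
    (!B.fq && Nat.ble (B.L2 + 1000) (2 * B.p1 + B.q1) && Nat.ble 1 v &&
      Nat.ble (2 ^ B.q2 * v ^ 200) (u ^ 200) &&
      Nat.ble (2 ^ w * (1000 * u ^ 2) ^ 100) ((1000 * u ^ 2 + 1000 * v ^ 2 + 1999 * (u * v)) ^ 100) &&
      Nat.ble (2 ^ k * (u * (u + 2 * v)) ^ 600) (((u + v) ^ 2) ^ 600))

def bx2 (B : Bx) (w : ℕ) : Bx := { B with w1 := w }

def us2 (U : Us) (k : ℕ) : Us := ⟨U.U1, U.U2, ⟨-(k : ℤ), 0, 0, 0, 6⟩⟩

def rcM (B : Bx) (ρ : Rc) (T : ℕ) : Bool :=
  !B.fp && Nat.blt ((ρ.N1 - 1) ^ 100) (2 ^ B.L1) && Nat.blt (2 ^ B.L2) ((ρ.N2 + 1) ^ 100) &&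
    Nat.blt ((ρ.a1 - 1) ^ 100) (2 ^ B.p1) && Nat.blt (2 ^ B.p2) ((ρ.a2 + 1) ^ 100) &&
    Nat.ble (2 ^ T) (ρ.R ^ 200)

def shf (f : Lf) (μ T : ℕ) : Lf := f.add (Lf.smul (Int.ofNat μ) ⟨Int.ofNat T, 0, -1, -1, 0⟩)

structure Lm where
  D : Df
  (u v w k : ℕ)
  ws : List Wd
  (μ T : ℕ)
  ix : List ℕ
  (pr i : ℕ)

def lm2 (wt : List Wn) (B : Bx) (U : Us) (x : Lm) : Bool :=
  chain2 B U x.ws lfc && hpOK wt x.ix x.pr x.i B U (shf (lastHi x.ws lfc) x.μ x.T)

def lmOK (wt : List Wn) (B : Bx) (x : Lm) : Bool :=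
  dfOK true B x.D && df2 B x.u x.v x.w x.k &&
    lm2 wt (bx2 (dfB true B x.D) x.w) (us2 (dfU true x.D) x.k) x

/-- a tree inside a box all of whose points with `lg (a b) ≥ T / 100` are excluded -/
inductive T3 where
  | nd (ax cut : ℕ) (l r : T3) : T3
  | lf (x : Lm) : T3
  | lw : T3

def chk3 (wt : List Wn) (T : ℕ) (t : T3) : Bx → Bool :=
  @T3.rec (fun _ => Bx → Bool)
    (fun ax s _ _ il ir B => @Bool.rec (fun _ => Bool) false (ir (B.rgt ax s)) (il (B.lft ax s)))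
    (fun x B => Nat.ble x.T T && lmOK wt B x)
    (fun B => !B.fp && !B.fq && Nat.blt (2 * B.p2 + B.q2) T) t

inductive T4 where
  | nd (ax cut : ℕ) (l r : T4) : T4
  | rc (ρ : Rc) (T : ℕ) (t : T3) : T4
  | no (t : T3) : T4

def chk4 (wt : List Wn) (t : T4) : Bx → Bool :=
  @T4.rec (fun _ => Bx → Bool)
    (fun ax s _ _ il ir B => @Bool.rec (fun _ => Bool) false (ir (B.rgt ax s)) (il (B.lft ax s)))
    (fun ρ T t B => rcM B ρ T && chk3 wt T t B) (fun t B => chk3 wt 0 t B) t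

def rects4 (t : T4) : List Rc → List Rc :=
  @T4.rec (fun _ => List Rc → List Rc) (fun _ _ _ _ il ir acc => il (ir acc))
    (fun ρ _ _ acc => ρ :: acc) (fun _ acc => acc) t

open DfA in
theorem low {a b r N u v : ℝ} {q w k : ℕ} (ha : 0 < a) (hb : 0 < b) (hr : 0 ≤ r) (hN : 0 ≤ N)
    (hrr : r ^ 2 = a * b - N) (hN' : 1024 * N ≤ a * b) (hu : 0 ≤ u) (hv : 0 < v)
    (hq : 100 * (lg b - lg a) ≤ q) (h1 : 2 ^ q * v ^ 200 ≤ u ^ 200)
    (h2 : 2 ^ w * (1000 * u ^ 2) ^ 100 ≤ (1000 * u ^ 2 + 1000 * v ^ 2 + 1999 * (u * v)) ^ 100)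
    (h3 : 2 ^ k * (u * (u + 2 * v)) ^ 600 ≤ ((u + v) ^ 2) ^ 600) :
    (w : ℝ) ≤ 100 * (lg (a + b + 2 * r) - lg b) ∧
      600 * lg (b + 2 * r) ≤ -(k : ℝ) + 600 * lg (a + b + 2 * r) := by
  have hu' : 0 < u := by
    rcases hu.eq_or_lt with h | h
    · subst h
      have h4 : 0 < 2 ^ q * v ^ 200 := by positivity
      simp only [ne_eq, OfNat.ofNat_ne_zero, not_false_eq_true, zero_pow] at h1
      exact absurd h1 (not_le.2 h4)
    · exact h
  have g1 := lg_up hv h1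
  have g2 := lg_up (by positivity) h2
  have g3 := lg_up (by positivity) h3
  clear h1 h2 h3
  push_cast at g1 g2 g3
  have e1 : b * v ^ 2 ≤ a * u ^ 2 := by
    refine le_of_lg (by positivity) (by positivity) ?_
    rw [lg_mul ha (by positivity), lg_mul hb (by positivity), lg_pow, lg_pow]
    push_cast
    linarith
  have e0 : r ^ 2 ≤ a * b := by linarith
  have e2 : 1999 * (b * v) ≤ 2000 * (r * u) := by
    refine (abs_le_of_sq_le_sq' ?_ (by positivity)).2
    have e3 : 1023 * (a * b) * u ^ 2 ≤ 1024 * r ^ 2 * u ^ 2 :=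
      mul_le_mul_of_nonneg_right (by linarith) (by positivity)
    have e4 : b * (b * v ^ 2) ≤ b * (a * u ^ 2) := mul_le_mul_of_nonneg_left e1 hb.le
    have : 0 ≤ a * b * u ^ 2 := by positivity
    linarith
  have e5 : r * v ≤ a * u := by
    refine (abs_le_of_sq_le_sq' ?_ (by positivity)).2
    have e3 : r ^ 2 * v ^ 2 ≤ a * b * v ^ 2 := mul_le_mul_of_nonneg_right e0 (by positivity)
    have e4 : a * (b * v ^ 2) ≤ a * (a * u ^ 2) := mul_le_mul_of_nonneg_left e1 ha.le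
    linarith
  constructor
  · have e3 : b * (1000 * u ^ 2 + 1000 * v ^ 2 + 1999 * (u * v)) ≤
        (a + b + 2 * r) * (1000 * u ^ 2) := by
      have e4 := mul_le_mul_of_nonneg_left e2 hu
      linarith
    have e4 := lg_le (by positivity) e3
    rw [lg_mul hb (by positivity), lg_mul (by positivity) (by positivity)] at e4
    linarith
  · have e3 : (b + 2 * r) * (u + v) ^ 2 ≤ (a + b + 2 * r) * (u * (u + 2 * v)) := by
      have e4 := mul_le_mul_of_nonneg_left e5 hv.le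
      linarith
    have e4 := lg_le (by positivity) e3
    rw [lg_mul (by positivity) (by positivity), lg_mul (by positivity) (by positivity)] at e4
    linarith

theorem df2_ok (B B' : Bx) (U : Us) (u v w k : ℕ) (q : Qd) (hc : q.c = q.a + q.b + 2 * q.r)
    (hB : B.Mem q.N q.a q.b q.c) (hB' : B'.Mem q.N q.a q.b q.c) (hU : U.Ok q)
    (h : df2 B u v w k = true) : (bx2 B' w).Mem q.N q.a q.b q.c ∧ (us2 U k).Ok q := by
  have hN : 0 < q.N := q.hN
  have ha : 0 < q.a := q.ha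
  have hb := ha.trans q.hb
  have a0 : (0 : ℝ) < q.a := by exact_mod_cast ha
  have b0 : (0 : ℝ) < q.b := by exact_mod_cast hb
  have bc : (q.b : ℝ) < q.c := by exact_mod_cast q.hc
  have ab : (q.a : ℝ) < q.b := by exact_mod_cast q.hb
  have key : (w : ℝ) ≤ 100 * (lg q.c - lg q.b) ∧
      600 * lg (q.c - q.a : ℝ) ≤ -(k : ℝ) + 600 * lg q.c := by
    simp only [df2, Bool.or_eq_true, Bool.and_eq_true, Nat.beq_eq, Nat.ble_eq,
      Bool.not_eq_true'] at h
    rcases h with ⟨rfl, rfl⟩ | ⟨⟨⟨⟨⟨k1, k2⟩, k3⟩, k4⟩, k5⟩, k6⟩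
    · have t1 := DfA.lg_le b0 bc.le
      have t2 := DfA.lg_le (show (0 : ℝ) < q.c - q.a by linarith)
        (show (q.c : ℝ) - q.a ≤ q.c by linarith)
      simp only [Nat.cast_zero]
      constructor <;> linarith
    · have hc' : (q.c : ℝ) = q.a + q.b + 2 * q.r := by exact_mod_cast hc
      have h1 : (B.L2 : ℝ) + 1000 ≤ 2 * B.p1 + B.q1 := by exact_mod_cast k2
      have big : 1024 * q.N ≤ q.a * q.b := by
        refine RC.le_lg (by positivity) (by positivity) ?_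
        rw [RC.lg_mul ha hb, RC.lg_mul (by norm_num) hN, show (1024 : ℤ) = 2 ^ 10 by norm_num,
          RC.lg_two]
        push_cast
        linarith [hB.L2, hB.p1, hB.q1]
      have := low (N := q.N) (r := q.r) (u := u) (v := v) (w := w) (k := k) a0 b0
        (by exact_mod_cast q.r0)
        (by exact_mod_cast hN.le) (by exact_mod_cast q.hr) (by exact_mod_cast big)
        (Nat.cast_nonneg _) (by exact_mod_cast k3) (hB.q2 k1) (by exact_mod_cast k4)
        (by exact_mod_cast k5) (by exact_mod_cast k6)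
      rw [← hc', show (q.b : ℝ) + 2 * q.r = q.c - q.a by linarith] at this
      exact this
  refine ⟨{ hB' with w1 := key.1 }, hU.1, hU.2.1, ?_⟩
  simp only [us2, Lf.val]
  push_cast
  linarith [key.2]

/-- no quintuple with a regular triple in the box and `lg (a b) ≥ T / 100` -/
def Emp (T : ℕ) (B : Bx) : Prop :=
  ∀ (q : Qd) (e : ℤ), q.N ≤ 256 → DQ.Qt (-q.N) q.a q.b q.c q.d e → Rg true q →
    B.Mem q.N q.a q.b q.c → (T : ℝ) ≤ 100 * (lg q.a + lg q.b) → False

open TB.Tree in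
theorem chk3_ok (h1 : S_HW) (h2 : S_HPC) (wt : List Wn) (hw : ∀ w ∈ wt, w.Ok) (T : ℕ) (t : T3)
    (B : Bx) : chk3 wt T t B = true → Emp T B := by
  induction t generalizing B with
  | nd ax s l r il ir =>
    intro h
    change @Bool.rec (fun _ => Bool) false (chk3 wt T r (B.rgt ax s))
      (chk3 wt T l (B.lft ax s)) = true at h
    cases e : chk3 wt T l (B.lft ax s) with
    | false => rw [e] at h; exact absurd h Bool.false_ne_true
    | true =>
      rw [e] at h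
      exact fun q e' j1 j2 j3 j4 => (split j4 ax s).elim (il _ e q e' j1 j2 j3)
        (ir _ h q e' j1 j2 j3)
  | lf x =>
    intro h q e j1 j2 j3 j4 j5
    change (Nat.ble x.T T && lmOK wt B x) = true at h
    simp only [lmOK, lm2, Bool.and_eq_true, Nat.ble_eq] at h
    obtain ⟨h0, ⟨h3, h4⟩, h5, h6⟩ := h
    obtain ⟨k1, k2⟩ := df_ok true B x.D q j3.1 j4 h3
    obtain ⟨m1, m2⟩ := df2_ok B _ _ _ _ _ _ q (j3.1 rfl) j4 k1 k2 h4
    have k3 : lg q.c ≤ lg q.d := lgm (by exact_mod_cast j2.a0.trans (j2.ab.trans j2.bc))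
      (by exact_mod_cast j2.cd.le)
    have k4 := chain2_ok afl_ok h1 _ _ x.ws lfc q (j3.1 rfl) m1 m2 h5
      (by simp only [lfc, Lf.val]; push_cast; linarith)
    refine h2 wt x.ix x.pr x.i _ _ _ q e hw j1 j2 m1 m2 (le_trans ?_ k4) h6
    have k5 : (x.T : ℝ) ≤ T := by exact_mod_cast h0
    have k6 := mul_nonneg (Nat.cast_nonneg (α := ℝ) x.μ)
      (show (0 : ℝ) ≤ 100 * (lg q.a + lg q.b) - x.T by linarith)
    rw [shf, Afl.add_val, Afl.smul_val]
    simp only [Lf.val, Int.ofNat_eq_natCast] at *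
    push_cast
    linarith
  | lw =>
    intro h q e _ _ _ j4 j5
    change (!B.fp && !B.fq && Nat.blt (2 * B.p2 + B.q2) T) = true at h
    simp only [Bool.and_eq_true, Bool.not_eq_true', Nat.blt_eq] at h
    have k : 2 * (B.p2 : ℝ) + B.q2 < T := by exact_mod_cast h.2
    linarith [j4.p2 h.1.1, j4.q2 h.1.2]

open TB.Tree in
theorem chk4_ok (h1 : S_HW) (h2 : S_HPC) (wt : List Wn) (hw : ∀ w ∈ wt, w.Ok) (t : T4)
    (B : Bx) (acc : List Rc) : chk4 wt t B = true → Sem true B (rects4 t acc) := by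
  have sub : ∀ (t : T4) (acc : List Rc), acc ⊆ rects4 t acc := by
    intro t
    induction t with
    | nd _ _ _ _ il ir => exact fun acc => List.Subset.trans (ir acc) (il _)
    | rc => exact fun acc => List.subset_cons_self _ _
    | no => exact fun acc => List.Subset.refl _
  induction t generalizing B acc with
  | nd ax s l r il ir =>
    intro h
    change @Bool.rec (fun _ => Bool) false (chk4 wt r (B.rgt ax s))
      (chk4 wt l (B.lft ax s)) = true at h
    cases e : chk4 wt l (B.lft ax s) with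
    | false => rw [e] at h; exact absurd h Bool.false_ne_true
    | true => rw [e] at h; exact nd (il _ _ e) (mono (ir _ acc h) (sub l _))
  | rc ρ T t =>
    intro h q e j1 j2 j3 m
    change (rcM B ρ T && chk3 wt T t B) = true at h
    simp only [rcM, Bool.and_eq_true, Bool.not_eq_true'] at h
    obtain ⟨⟨⟨⟨⟨⟨k1, k3⟩, k4⟩, k5⟩, k6⟩, k7⟩, k8⟩ := h
    have hN : 0 < q.N := q.hN
    have ha : 0 < q.a := q.ha
    have hb := ha.trans q.hb
    have k9 : 100 * (lg q.a + lg q.b) ≤ T :=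
      le_of_not_ge fun k => chk3_ok h1 h2 wt hw T t B k8 q e j1 j2 j3 m k
    refine ⟨ρ, List.mem_cons_self, by have := RC.lo hN m.L1 k3; omega, RC.hi hN m.L2 k4,
      by have := RC.lo ha m.p1 k5; omega, RC.hi ha (m.p2 k1) k6,
      RC.sq (mul_pos ha hb) (by rw [q.hr]; omega) ?_ k7, nofun⟩
    rw [RC.lg_mul ha hb]
    push_cast
    linarith
  | no t =>
    intro h q e j1 j2 j3 m
    refine (chk3_ok h1 h2 wt hw 0 t B h q e j1 j2 j3 m ?_).elim
    have t1 := Afl.lg_nonneg q.ha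
    have t2 := Afl.lg_nonneg (q.ha.trans q.hb.le)
    push_cast
    linarith

end Pool.Agent.MP_2339ce_nt.Q2.TB.RT
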