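import Pool.Agent.MP_2339ce_nt.Q2.TCSpec

/-! Project Q2, block TC: two gap windows proved by hand. -/

set_option autoImplicit false

namespace Pool.Agent.MP_2339ce_nt.Q2.TB

namespace TCSt

theorem lt2 {u v : ℤ} (hu : 0 ≤ u) (h : v ^ 2 < u ^ 2) : v < u := lt_of_pow_lt_pow_left₀ 2 hu h

theorem le2 {u v : ℤ} (hu : 0 ≤ u) (h : v ^ 2 ≤ u ^ 2) : v ≤ u :=
  le_of_pow_le_pow_left₀ two_ne_zero hu h

/-- the triple `b, c, d` is regular -/
theorem reg {N b c d t y z : ℤ} (hN : 1 ≤ N) (b0 : 0 < b) (hc : b < c) (hd : c < d) (t0 : 0 ≤ t)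
    (y0 : 0 ≤ y) (z0 : 0 ≤ z) (ht : t ^ 2 = b * c - N) (hy : y ^ 2 = b * d - N)
    (hz : z ^ 2 = c * d - N) (k1 : 64 * N ≤ b * c) (h2 : N ^ 2 < b)
    (h4 : 10 * (N ^ 2 * d) ≤ 34 * (b * c)) : d = b + c + 2 * t := by
  have c0 : 0 < c := b0.trans hc
  have d0 : 0 < d := c0.trans hd
  have m1 : b * c < b * d := mul_lt_mul_of_pos_left hd b0
  have m2 : b * b < b * c := mul_lt_mul_of_pos_left hc b0
  have m3 : c * c < c * d := mul_lt_mul_of_pos_left hd c0
  have m4 : 0 < b * b := mul_pos b0 b0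
  have eX : (b * z) ^ 2 - (t * y) ^ 2 = N * (b * c + b * d - b * b - N) := by
    rw [mul_pow, mul_pow, hz, ht, hy]
    ring
  have eY : (c * y) ^ 2 - (t * z) ^ 2 = N * (b * c + c * d - c * c - N) := by
    rw [mul_pow, mul_pow, hz, ht, hy]
    ring
  have X0 : t * y < b * z := lt2 (by positivity) (by
    have : 0 < N * (b * c + b * d - b * b - N) := mul_pos (by omega) (by omega)
    omega)
  have Y0 : t * z < c * y := lt2 (by positivity) (by
    have : 0 < N * (b * c + c * d - c * c - N) := mul_pos (by omega) (by omega)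
    omega)
  obtain ⟨X, hX⟩ : ∃ X, X = b * z - t * y := ⟨_, rfl⟩
  obtain ⟨E, hE⟩ : ∃ E, E = 2 * b * c * d - 2 * t * y * z - N * (b + c + d) := ⟨_, rfl⟩
  have X1 : 0 < X := by omega
  have fX : X ^ 2 = b * E + N ^ 2 := by
    rw [hX, hE]
    linear_combination b ^ 2 * hz + y ^ 2 * ht + (b * c - N) * hy
  have fY : (c * y - t * z) ^ 2 = c * E + N ^ 2 := by
    rw [hE]
    linear_combination c ^ 2 * hy + z ^ 2 * ht + (b * c - N) * hz
  have l1 : 63 * (b * c) * (63 * (b * d)) ≤ 64 * t ^ 2 * (64 * y ^ 2) :=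
    mul_le_mul (by omega) (by omega) (by positivity) (by positivity)
  have l2 : X * (2 * (t * y)) ≤ N * (b * (c + d)) :=
    calc _ ≤ X * (b * z + t * y) := mul_le_mul_of_nonneg_left (by omega) X1.le
      _ = N * (b * c + b * d - b * b - N) := by rw [hX]; linear_combination eX
      _ ≤ _ := mul_le_mul_of_nonneg_left (by rw [mul_add]; omega) (by omega)
  have l3 := pow_le_pow_left₀ (by positivity) l2 2
  have l4 : 10 * (N ^ 2 * (c + d) ^ 2) ≤ c * d * (30 * N ^ 2 + 34 * b) := by
    have u1 := mul_le_mul_of_nonneg_right h4 d0.le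
    have u2 := mul_le_mul_of_nonneg_left m3.le (sq_nonneg N)
    linarith
  have l5 : X ^ 2 < b + N ^ 2 := by
    by_contra hn
    have u1 := mul_le_mul (not_lt.1 hn) l1 (by positivity) (by positivity)
    have u2 := mul_le_mul_of_nonneg_left l4 m4.le
    have u3 : 0 < b * b * (c * d) * b := by positivity
    have u4 : 0 ≤ b * b * (c * d) * N ^ 2 := by positivity
    linarith
  have E0 : E = 0 := by
    have u1 : E < 1 := lt_of_mul_lt_mul_left (a := b) (by omega) b0.le
    have u2 : -1 < E := lt_of_mul_lt_mul_left (a := b) (by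
      have := sq_nonneg X
      omega) b0.le
    omega
  rw [E0, mul_zero, zero_add] at fX fY
  have gX : X = N := (le2 (by omega) fX.le).antisymm (le2 X1.le fX.ge)
  have gY : c * y - t * z = N := (le2 (by omega) fY.le).antisymm (le2 (by omega) fY.ge)
  have gy : y = t + b := mul_left_cancel₀ (show N ≠ 0 by omega) (by
    rw [hX] at gX
    linear_combination t * gX + b * gY + y * ht)
  refine mul_left_cancel₀ b0.ne' ?_
  rw [gy] at hy
  linear_combination ht - hy

end TCSt

open TCSt in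
theorem st_ok : S_ST := by
  rintro ⟨N, a, b, c, d, r, s, t, x, y, z, hN, ha, hb, hc, hd, r0, s0, t0, x0, y0, z0, hr, hs, ht,
    hx, hy, hz⟩ h1 h2 h3 h4
  dsimp only at h1 h2 h3 h4
  have a0 : 0 < a := by omega
  have b0 : 0 < b := by omega
  have c0 : 0 < c := by omega
  have m1 : a * b < a * c := mul_lt_mul_of_pos_left hc a0
  have m2 : a * c < b * c := mul_lt_mul_of_pos_right hb c0
  have m3 : a * a < a * b := mul_lt_mul_of_pos_left hb a0
  have m4 : 0 < a * a := mul_pos a0 a0
  have n2 : 0 < N ^ 2 := by positivity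
  have e := reg hN b0 hc hd t0 y0 z0 ht hy hz (by omega) (by omega) h4
  have eX : (a * t) ^ 2 - (r * s) ^ 2 = N * (a * b + a * c - a * a - N) := by
    rw [mul_pow, mul_pow, ht, hr, hs]
    ring
  have X0 : r * s < a * t := lt2 (by positivity) (by
    have : 0 < N * (a * b + a * c - a * a - N) := mul_pos (by omega) (by omega)
    omega)
  obtain ⟨X, hX⟩ : ∃ X, X = a * t - r * s := ⟨_, rfl⟩
  have X1 : 0 < X := by omega
  have fx : x ^ 2 = (r + s) ^ 2 + N + 2 * X := by
    rw [hx, hX, e]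
    linear_combination -hr - hs
  have g1 : r + s + 1 ≤ x := lt2 x0 (by omega)
  have g2 : 2 * (r + s) + 1 ≤ N + 2 * X := by
    have := pow_le_pow_left₀ (by positivity) g1 2
    linarith
  have g3 : 3 * N ≤ 2 * r := le2 (by omega) (by rw [mul_pow, mul_pow]; omega)
  have l2 : X * (2 * (r * s)) ≤ N * (2 * (a * c)) :=
    calc _ ≤ X * (a * t + r * s) := mul_le_mul_of_nonneg_left (by omega) X1.le
      _ = N * (a * b + a * c - a * a - N) := by rw [hX]; linear_combination eX
      _ ≤ _ := mul_le_mul_of_nonneg_left (by omega) (by omega)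
  have u1 : s * (2 * (r * s)) ≤ X * (2 * (r * s)) :=
    mul_le_mul_of_nonneg_right (by omega) (by positivity)
  have u2 : 3 * N * (63 * (a * c)) ≤ 2 * r * (64 * s ^ 2) :=
    mul_le_mul g3 (by omega) (by positivity) (by positivity)
  have u3 : 0 < N * (a * c) := by positivity
  linarith

open TCSt in
theorem regst_ok : S_REGST := by
  rintro ⟨N, a, b, c, d, r, s, t, x, y, z, hN, ha, hb, hc, hd, r0, s0, t0, x0, y0, z0, hr, hs, ht,
    hx, hy, hz⟩ h1 h2 h3
  dsimp only at h1 h2 h3
  have a0 : 0 < a := by omega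
  have b0 : 0 < b := by omega
  have c0 : 0 < c := by omega
  have d0 : 0 < d := by omega
  have N0 : 0 < N := by omega
  have m1 : a * b < a * d := mul_lt_mul_of_pos_left (by omega) a0
  have m2 : a * d < c * d := mul_lt_mul_of_pos_right (by omega) d0
  have e1 : (2 * (x * y)) ^ 2 - (2 * (r * d) + N) ^ 2 =
      4 * (N * d * (d - a - b - r)) + 3 * N ^ 2 := by
    linear_combination 4 * y ^ 2 * hx + 4 * (a * d - N) * hy - 4 * d ^ 2 * hr
  have e2 : (x + y) ^ 2 - z ^ 2 = 2 * (x * y) - (2 * (r * d) + N) := by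
    rw [h1] at hz
    linear_combination hx + hy - hz
  have p1 : 0 < N * d * (d - a - b - r) := mul_pos (mul_pos N0 d0) (by omega)
  have n2 : 0 < N ^ 2 := by positivity
  have g1 : 2 * (r * d) + N < 2 * (x * y) := lt2 (by positivity) (by omega)
  have g2 : z + 1 ≤ x + y := lt2 (by omega) (by omega)
  have g3 : 2 * (r * d) + N + 2 * z ≤ 2 * (x * y) := by
    have := pow_le_pow_left₀ (by positivity) g2 2
    linarith
  have g4 : d * (2 * (r * z)) ≤ d * (N * d) := by
    have u1 := pow_le_pow_left₀ (by positivity) g3 2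
    have u2 : N * N ≤ N * (a * d) := mul_le_mul_of_nonneg_left (by omega) N0.le
    have u3 : 0 ≤ N * d * (b + r) := by positivity
    have u4 : 0 ≤ N * z := by positivity
    have u5 := sq_nonneg z
    linarith
  have g5 := pow_le_pow_left₀ (by positivity) (le_of_mul_le_mul_left g4 d0) 2
  have l1 : 1023 * (a * b) * (1023 * (c * d)) ≤ 1024 * r ^ 2 * (1024 * z ^ 2) :=
    mul_le_mul (by omega) (by omega) (by positivity) (by positivity)
  have l2 := mul_le_mul_of_nonneg_right h3 d0.le
  have l3 : 0 < a * b * (c * d) := by positivity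
  linarith

end Pool.Agent.MP_2339ce_nt.Q2.TB
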