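import Pool.Agent.MP_2339ce_nt.Q2.RTU
import Pool.Agent.MP_2339ce_nt.Q2.RS0
import Pool.Agent.MP_2339ce_nt.Q2.TCFastB
import Pool.Agent.MP_2339ce_nt.Q2.TCSt
import Pool.Agent.MP_2339ce_nt.Q2.HP

/-! Project Q2, block RT: staircases for regular triples and the bound for the fourth element. -/

set_option autoImplicit false

noncomputable section

namespace Pool.Agent.MP_2339ce_nt.Q2.TB.RT

def shg (f : Lf) (μ : ℕ) (H : Lf) : Lf := f.add (Lf.smul (Int.negOfNat μ) H)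

/-- valid windows -/
def VW : Type := {w : Wn // w.Ok}

def wsOf (c : List VW) : List Wn :=
  @List.rec VW (fun _ => List Wn) [] (fun x _ r => x.1 :: r) c

theorem wsOf_ok (c : List VW) : ∀ w ∈ wsOf c, w.Ok := by
  induction c with
  | nil => exact nofun
  | cons x c ih => exact List.forall_mem_cons.2 ⟨x.2, ih⟩

theorem hpF_ok (ws : List Wn) (pr i : ℕ) (B : Bx) (U : Us) (D : Lf)
    (h : hpF ws pr i B U D = true) : hpOK ws (List.range ws.length) pr i B U D = true := by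
  have e : ((List.range ws.length).map fun j => ws.getD j wn0) = ws := by
    apply List.ext_getElem
    · simp
    · intro n h1 h2
      simp [h2]
  rw [← hpOKF_eq, hpOKF, e, h]
  simp

structure Ln where
  D : Df
  (u v w k : ℕ)
  ws : List Wd
  μ : ℕ
  ch : List VW
  (pr i : ℕ)

def chainF (B : Bx) (U : Us) (ws : List Wd) : Lf → Bool :=
  @List.rec Wd (fun _ => Lf → Bool) (fun _ => true) (fun w _ ih lo =>
    @Bool.rec (fun _ => Bool) false (ih w.hi)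
      (tstA 0 true B U lo w.hi fun t => allA t (hw2 w.id))) ws

def ln2 (S H : Lf) (B : Bx) (U : Us) (x : Ln) : Bool :=
  chainF B U x.ws S && hpF (wsOf x.ch) x.pr x.i B U (shg (lastHi x.ws S) x.μ H)

def lnOK (S H : Lf) (B : Bx) (x : Ln) : Bool :=
  dfOK true B x.D && df2 B x.u x.v x.w x.k &&
    ln2 S H (bx2 (dfB true B x.D) x.w) (us2 (dfU true x.D) x.k) x

inductive T5 where
  | nd (ax cut : ℕ) (l r : T5) : T5
  | lf (x : Ln) : T5
  | lw : T5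

def chk5 (S H : Lf) (t : T5) : Bx → Bool :=
  @T5.rec (fun _ => Bx → Bool)
    (fun ax s _ _ il ir B => @Bool.rec (fun _ => Bool) false (ir (B.rgt ax s)) (il (B.lft ax s)))
    (fun x B => lnOK S H B x) (fun B => lt0 B H) t

/-- the data of a quintuple with a regular triple in a box -/
structure Rq (B : Bx) (q : Qd) (e : ℤ) : Prop where
  hN : q.N ≤ 256
  qt : DQ.Qt (-q.N) q.a q.b q.c q.d e
  rg : q.c = q.a + q.b + 2 * q.r
  mem : B.Mem q.N q.a q.b q.c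

theorem Rq.split {B : Bx} {q : Qd} {e : ℤ} (h : Rq B q e) (ax s : ℕ) :
    Rq (B.lft ax s) q e ∨ Rq (B.rgt ax s) q e :=
  (Tree.split h.mem ax s).imp (fun k => ⟨h.hN, h.qt, h.rg, k⟩) fun k => ⟨h.hN, h.qt, h.rg, k⟩

theorem chainF_eq (B : Bx) (U : Us) (ws : List Wd) : chainF B U ws = chain2 B U ws := by
  induction ws with
  | nil => rfl
  | cons w ws ih =>
    funext lo
    change @Bool.rec (fun _ => Bool) false (chainF B U ws w.hi) _ =
      @Bool.rec (fun _ => Bool) false (chain2 B U ws w.hi) _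
    rw [ih, Fast.tstA_eq, Fast.allA_eq, hwOK2]
    congr 2
    funext x
    rw [Fast.tst0]
    rfl

theorem chk5_ok (S H : Lf) (t : T5) (B : Bx) (q : Qd)
    (e : ℤ) (j5 : S.val q.N q.a q.b q.c ≤ 600 * lg q.d) (j6 : 0 ≤ H.val q.N q.a q.b q.c) :
    chk5 S H t B = true → Rq B q e → False := by
  induction t generalizing B with
  | nd ax s l r il ir =>
    intro h
    change @Bool.rec (fun _ => Bool) false (chk5 S H r (B.rgt ax s))
      (chk5 S H l (B.lft ax s)) = true at h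
    cases e : chk5 S H l (B.lft ax s) with
    | false => rw [e] at h; exact absurd h Bool.false_ne_true
    | true =>
      rw [e] at h
      exact fun j => (j.split ax s).elim (il _ e) (ir _ h)
  | lf x =>
    intro h j
    change lnOK S H B x = true at h
    simp only [lnOK, ln2, Bool.and_eq_true, chainF_eq] at h
    obtain ⟨⟨h3, h4⟩, h5, h6⟩ := h
    obtain ⟨k1, k2⟩ := df_ok true B x.D q (fun _ => j.rg) j.mem h3
    obtain ⟨m1, m2⟩ := df2_ok B _ _ _ _ _ _ q j.rg j.mem k1 k2 h4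
    have k4 := chain2_ok afl_ok (hw_ok st_ok regst_ok) _ _ x.ws S q j.rg m1 m2 h5 j5
    refine hpc_ok allW afl_ok _ _ x.pr x.i _ _ _ q e (wsOf_ok x.ch) j.hN j.qt m1 m2
      (le_trans ?_ k4) (hpF_ok _ _ _ _ _ _ h6)
    have k6 := mul_nonneg (Nat.cast_nonneg (α := ℝ) x.μ) j6
    rw [shg, Afl.add_val, Afl.smul_val, Int.negOfNat_eq, Int.ofNat_eq_natCast]
    push_cast
    linarith
  | lw =>
    intro h j
    change lt0 B H = true at h
    simp only [lt0, Bool.and_eq_true, Bool.not_eq_true'] at h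
    have k1 := sup_ok B H _ _ _ _ j.mem h.1
    have k2 : sup B H + 1 ≤ 0 := Afl.isP_false h.2
    have k3 : ((sup B H : ℤ) : ℝ) + 1 ≤ 0 := by exact_mod_cast k2
    linarith

def InS (st : List (ℕ × ℕ)) (q : Qd) : Prop := ∃ s ∈ st, q.a ≤ s.1 ∧ q.b ≤ s.2

/-- the steps cover `lo ≤ a ≤ a2`, `a ^ α b ^ β ≤ M` -/
def cov (α β M a2 : ℕ) (st : List (ℕ × ℕ)) : ℕ → Bool :=
  @List.rec (ℕ × ℕ) (fun _ => ℕ → Bool) (fun _ => false) (fun s _ ih lo =>
    @Bool.rec (fun _ => Bool)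
      (Nat.blt M (lo ^ α * (s.2 + 1) ^ β) && (Nat.ble a2 s.1 || ih (s.1 + 1))) (ih lo)
      (Nat.blt s.1 lo)) st

theorem cov_ok (α β M a2 : ℕ) (q : Qd) (h1 : q.a ≤ a2) (h2 : q.a ^ α * q.b ^ β ≤ M)
    (st : List (ℕ × ℕ)) (lo : ℕ) (h3 : (lo : ℤ) ≤ q.a) : cov α β M a2 st lo = true → InS st q := by
  induction st generalizing lo with
  | nil => exact fun h => absurd h Bool.false_ne_true
  | cons s st ih =>
    intro h
    have up : InS st q → InS (s :: st) q := fun ⟨t, k1, k2⟩ => ⟨t, List.mem_cons_of_mem _ k1, k2⟩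
    change @Bool.rec (fun _ => Bool)
      (Nat.blt M (lo ^ α * (s.2 + 1) ^ β) && (Nat.ble a2 s.1 || cov α β M a2 st (s.1 + 1)))
      (cov α β M a2 st lo) (Nat.blt s.1 lo) = true at h
    cases e : Nat.blt s.1 lo with
    | true => rw [e] at h; exact up (ih lo h3 h)
    | false =>
      rw [e] at h
      simp only [Bool.and_eq_true, Bool.or_eq_true, Nat.blt_eq, Nat.ble_eq] at h
      by_cases k : q.a ≤ s.1
      · refine ⟨s, List.mem_cons_self, k, ?_⟩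
        have k1 : (M : ℤ) < lo ^ α * (s.2 + 1) ^ β := by exact_mod_cast h.1
        by_contra k2
        have k3 : ((s.2 : ℤ) + 1) ^ β ≤ q.b ^ β := pow_le_pow_left₀ (by positivity) (by omega) β
        have k4 : (lo : ℤ) ^ α ≤ q.a ^ α := pow_le_pow_left₀ (by positivity) h3 α
        have := mul_le_mul k4 k3 (by positivity) (le_trans (by positivity) k4)
        omega
      · rcases h.2 with k1 | k1
        · omega
        · exact up (ih _ (by push_cast; omega) k1)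

/-- every quintuple with a regular triple in the box is below the staircase -/
def SA (st : List (ℕ × ℕ)) (B : Bx) : Prop := ∀ (q : Qd) (e : ℤ), Rq B q e → InS st q

theorem lgm2 (q : Qd) (α β : ℕ) :
    lg (q.a ^ α * q.b ^ β : ℤ) = α * lg q.a + β * lg q.b := by
  have ha : 0 < q.a := q.ha
  have hb := ha.trans q.hb
  rw [RC.lg_mul (by positivity) (by positivity), RC.lg_pow, RC.lg_pow]

theorem cd (q : Qd) : lfc.val q.N q.a q.b q.c ≤ 600 * lg q.d := by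
  have k3 : lg q.c ≤ lg q.d := Tree.lgm
    (by exact_mod_cast (show 0 < q.c by have := q.ha; have := q.hb; have := q.hc; omega))
    (by exact_mod_cast q.hd.le)
  simp only [lfc, Lf.val]
  push_cast
  linarith

def aOK (B : Bx) (a1 a2 : ℕ) : Bool :=
  !B.fp && Nat.blt ((a1 - 1) ^ 100) (2 ^ B.p1) && Nat.blt (2 ^ B.p2) ((a2 + 1) ^ 100)

theorem aOK_ok {B : Bx} {a1 a2 : ℕ} {q : Qd} (m : B.Mem q.N q.a q.b q.c)
    (h : aOK B a1 a2 = true) : (a1 : ℤ) ≤ q.a ∧ q.a ≤ a2 := by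
  simp only [aOK, Bool.and_eq_true, Bool.not_eq_true'] at h
  exact ⟨by have := RC.lo q.ha m.p1 h.1.2; omega, RC.hi q.ha (m.p2 h.1.1) h.2⟩

def rcA (st : List (ℕ × ℕ)) (B : Bx) (a1 a2 α β M T : ℕ) (t : T5) : Bool :=
  aOK B a1 a2 && Nat.blt (2 ^ T) ((M + 1) ^ 100) && cov α β M a2 st a1 &&
    chk5 lfc ⟨Int.negOfNat T, 0, Int.ofNat α, Int.ofNat β, 0⟩ t B

theorem sa_rc {st : List (ℕ × ℕ)} {B : Bx}
    (a1 a2 α β M T : ℕ) (t : T5) (h : rcA st B a1 a2 α β M T t = true) : SA st B := by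
  intro q e j
  simp only [rcA, Bool.and_eq_true] at h
  obtain ⟨⟨⟨h1, h2⟩, h3⟩, h4⟩ := h
  have ha : 0 < q.a := q.ha
  have hb := ha.trans q.hb
  obtain ⟨k1, k2⟩ := aOK_ok j.mem h1
  refine cov_ok α β M a2 q k2 (RC.hi (by positivity) ?_ h2) st a1 k1 h3
  refine le_of_not_ge fun k => chk5_ok _ _ t B q e (cd q) ?_ h4 j
  rw [lgm2] at k
  simp only [Lf.val, Int.negOfNat_eq, Int.ofNat_eq_natCast]
  push_cast
  linarith

theorem sa_no {st : List (ℕ × ℕ)} {B : Bx} (t : T5)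
    (h : chk5 lfc ⟨0, 0, 0, 0, 0⟩ t B = true) : SA st B :=
  fun q e j => (chk5_ok _ _ t B q e (cd q) (by simp [Lf.val]) h j).elim

theorem sa_nd {st : List (ℕ × ℕ)} {B : Bx} (s : ℕ) (h1 : SA st (B.lft 1 s))
    (h2 : SA st (B.rgt 1 s)) : SA st B :=
  fun q e j => (j.split 1 s).elim (h1 q e) (h2 q e)

/-- below the staircase `lg (a d) ≤ Y / 100` -/
def SB (st : List (ℕ × ℕ)) (Y : ℕ) (B : Bx) : Prop :=
  ∀ (q : Qd) (e : ℤ), Rq B q e → InS st q → 100 * lg (q.a * q.d : ℤ) ≤ Y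

def rcB (st : List (ℕ × ℕ)) (Y : ℕ) (B : Bx) (a1 a2 α β T : ℕ) (t : T5) : Bool :=
  aOK B a1 a2 &&
    allA (fun s => Nat.blt s.1 a1 || Nat.ble ((min s.1 a2 ^ α * s.2 ^ β) ^ 100) (2 ^ T)) st &&
    chk5 ⟨Int.ofNat (6 * Y), 0, -6, 0, 0⟩ ⟨Int.ofNat T, 0, Int.negOfNat α, Int.negOfNat β, 0⟩ t B

theorem sb_rc {st : List (ℕ × ℕ)} {Y : ℕ} {B : Bx}
    (a1 a2 α β T : ℕ) (t : T5) (h : rcB st Y B a1 a2 α β T t = true) : SB st Y B := by
  intro q e j ⟨s, s1, s2, s3⟩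
  simp only [rcB, Bool.and_eq_true, Fast.allA_eq, List.all_eq_true, Bool.or_eq_true, Nat.blt_eq,
    Nat.ble_eq] at h
  obtain ⟨⟨h1, h2⟩, h4⟩ := h
  have ha : 0 < q.a := q.ha
  have hb := ha.trans q.hb
  have hd : 0 < q.d := by have := q.hc; have := q.hd; omega
  obtain ⟨k1, k2⟩ := aOK_ok j.mem h1
  have k3 : ((min s.1 a2 : ℕ) ^ α * s.2 ^ β : ℤ) ^ 100 ≤ 2 ^ T := by
    exact_mod_cast (h2 s s1).resolve_left (by omega)
  have k4 : (q.a ^ α * q.b ^ β) ^ 100 ≤ 2 ^ T := by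
    refine le_trans (pow_le_pow_left₀ (by positivity) (mul_le_mul
      (pow_le_pow_left₀ ha.le ?_ α) (pow_le_pow_left₀ hb.le s3 β) (by positivity)
      (by positivity)) 100) k3
    push_cast
    exact le_min s2 k2
  have k5 : lg ((q.a ^ α * q.b ^ β) ^ 100 : ℤ) ≤ lg (2 ^ T : ℤ) :=
    Tree.lgm (by exact_mod_cast (show 0 < (q.a ^ α * q.b ^ β) ^ 100 by positivity))
      (by exact_mod_cast k4)
  rw [RC.lg_pow, RC.lg_two, lgm2] at k5
  rw [RC.lg_mul ha hd]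
  refine le_of_not_ge fun k => chk5_ok _ _ t B q e ?_ ?_ h4 j
  all_goals
    simp only [Lf.val, Int.negOfNat_eq, Int.ofNat_eq_natCast]
    push_cast at k5 ⊢
    linarith

theorem sb_no {st : List (ℕ × ℕ)} {Y : ℕ} {B : Bx} (a : ℕ)
    (h : (Nat.blt (a ^ 100) (2 ^ B.p1) && allA (fun s => Nat.ble s.1 a) st) = true) : SB st Y B := by
  intro q e j ⟨s, s1, s2, _⟩
  simp only [Bool.and_eq_true, Fast.allA_eq, List.all_eq_true, Nat.ble_eq] at h
  have k1 := RC.lo q.ha j.mem.p1 h.1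
  have k2 := h.2 s s1
  omega

theorem sb_nd {st : List (ℕ × ℕ)} {Y : ℕ} {B : Bx} (s : ℕ) (h1 : SB st Y (B.lft 1 s))
    (h2 : SB st Y (B.rgt 1 s)) : SB st Y B :=
  fun q e j => (j.split 1 s).elim (h1 q e) (h2 q e)

def bxL (L1 L2 : ℕ) : Bx := ⟨L1, L2, 0, 0, 0, 0, 0, 0, true, true, true⟩

def CsOk (C : Cs) : Prop := ∀ (q : Qd) (e : ℤ), C.N1 ≤ q.N → q.N ≤ C.N2 →
  DQ.Qt (-q.N) q.a q.b q.c q.d e → q.c = q.a + q.b + 2 * q.r →
    (∃ s ∈ C.st, q.a ≤ s.1 ∧ q.b ≤ s.2) ∧ q.x ≤ C.G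

def nOK (C : Cs) (L1 L2 : ℕ) : Bool :=
  Nat.ble (2 ^ L1) (C.N1 ^ 100) && Nat.ble (C.N2 ^ 100) (2 ^ L2)

theorem nOK_ok {C : Cs} {L1 L2 : ℕ} (h : nOK C L1 L2 = true) (q : Qd) (h1 : C.N1 ≤ q.N)
    (h2 : q.N ≤ C.N2) : (bxL L1 L2).Mem q.N q.a q.b q.c := by
  simp only [nOK, Bool.and_eq_true, Nat.ble_eq] at h
  have hN : 0 < q.N := q.hN
  have k1 : (2 : ℤ) ^ L1 ≤ q.N ^ 100 :=
    le_trans (by exact_mod_cast h.1) (pow_le_pow_left₀ (by positivity) h1 100)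
  have k2 : q.N ^ 100 ≤ (2 : ℤ) ^ L2 :=
    le_trans (pow_le_pow_left₀ hN.le h2 100) (by exact_mod_cast h.2)
  have k3 : lg (2 ^ L1 : ℤ) ≤ lg (q.N ^ 100 : ℤ) :=
    Tree.lgm (by exact_mod_cast (show (0 : ℤ) < 2 ^ L1 by positivity)) (by exact_mod_cast k1)
  have k4 : lg (q.N ^ 100 : ℤ) ≤ lg (2 ^ L2 : ℤ) :=
    Tree.lgm (by exact_mod_cast (show (0 : ℤ) < q.N ^ 100 by positivity)) (by exact_mod_cast k2)
  rw [RC.lg_pow q.N, RC.lg_two] at k3 k4
  have a0 : (0 : ℝ) < q.a := by exact_mod_cast (show 0 < q.a from q.ha)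
  have ab : (q.a : ℝ) ≤ q.b := by exact_mod_cast q.hb.le
  have bc : (q.b : ℝ) ≤ q.c := by exact_mod_cast q.hc.le
  have t0 := Afl.lg_nonneg q.ha
  have t1 := Tree.lgm a0 ab
  have t2 := Tree.lgm (a0.trans_le ab) bc
  refine ⟨by exact_mod_cast k3, by exact_mod_cast k4, ?_, nofun, ?_, nofun, ?_, nofun⟩
  all_goals
    simp only [bxL, Nat.cast_zero]
    linarith

def csOK (C : Cs) (L1 L2 M1 M2 Y : ℕ) (en : List (ℕ × ℕ)) : Bool :=
  Nat.ble C.N2 256 && nOK C L1 L2 && nOK C M1 M2 && Nat.ble (2 ^ Y) (C.G ^ 200) &&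
    allA (fun s => en.any fun t => Nat.ble s.1 t.1 && Nat.ble s.2 t.2) C.st

theorem cs_ok {C : Cs} {L1 L2 M1 M2 Y : ℕ} {en : List (ℕ × ℕ)} (hA : SA C.st (bxL L1 L2))
    (hB : SB en Y (bxL M1 M2)) (h : csOK C L1 L2 M1 M2 Y en = true) : CsOk C := by
  intro q e h1 h2 h3 h4
  simp only [csOK, Bool.and_eq_true, Fast.allA_eq, List.all_eq_true, List.any_eq_true] at h
  obtain ⟨⟨⟨⟨k0, k1⟩, k2⟩, k3⟩, k4⟩ := h
  have k5 : q.N ≤ 256 := by have := Nat.le_of_ble_eq_true k0; omega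
  have m1 := hA q e ⟨k5, h3, h4, nOK_ok k1 q h1 h2⟩
  refine ⟨m1, ?_⟩
  obtain ⟨s, s1, s2, s3⟩ := m1
  obtain ⟨t, t1, t2, t3⟩ := k4 s s1
  have t4 := Nat.le_of_ble_eq_true t2
  have t5 := Nat.le_of_ble_eq_true t3
  have m2 := hB q e ⟨k5, h3, h4, nOK_ok k2 q h1 h2⟩ ⟨t, t1, by omega, by omega⟩
  have hd : 0 < q.d := by have := q.ha; have := q.hb; have := q.hc; have := q.hd; omega
  exact RC.sq (mul_pos q.ha hd) (by have := q.hN; rw [q.hx]; omega) m2 k3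

def wd (i : ℕ) (h : Lf) : Wd := ⟨1, i, h, z0, false⟩

def h5 : Wd := wd 5 ⟨1194, -12, 6, 6, 6⟩

def h0 (m : ℕ) : Wd := wd 0 ⟨Int.ofNat m, -48, 24, 12, 18⟩

def f6 : Wd := wd 6 ⟨2682, -60, 12, 42, 0⟩

def f7 : Wd := wd 7 ⟨2580, -60, 12, 42, 0⟩

def f8 : Wd := wd 8 ⟨2580, -72, 36, 42, 0⟩

def f9 : Wd := wd 9 ⟨4620, -72, 36, 42, 0⟩

def f10 : Wd := wd 10 ⟨5820, -72, 36, 42, 0⟩

def f11 : Wd := wd 11 ⟨1446, -72, 36, 42, 0⟩

def vw {l : List Wn} (h : ∀ w ∈ l, w.Ok) (n : ℕ) (w : Wn) (k : l[n]? = some w) : VW :=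
  ⟨w, h w (List.mem_of_getElem? k)⟩

end Pool.Agent.MP_2339ce_nt.Q2.TB.RT
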