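import Pool.Agent.MP_2339ce_nt.Q2.RTc
import Pool.Agent.MP_2339ce_nt.Q2.RS

/-! Project Q2, block RT: staircases. -/

set_option autoImplicit false

noncomputable section

namespace Pool.Agent.MP_2339ce_nt.Q2.TB.RT

noncomputable def ca0_0 : List VW := k1 v1 (k1 v144 (k1 v418 (k1 v149 (k1 v451 (k1 v441 (k1 v586 (k0)))))))
noncomputable def ca0_1 : List VW := k1 v144 (k1 v149 (k1 v160 (k1 v586 (k0))))
noncomputable def ca0_2 : List VW := k1 v144 (k1 v418 (k1 v433 (k1 v160 (k1 v586 (k0)))))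
noncomputable def ca0_3 : List VW := k1 v1 (k1 v144 (k1 v417 (k1 v149 (k1 v157 (k1 v448 (k1 v586 (k0)))))))
noncomputable def ca0_4 : List VW := k1 v1 (k1 v144 (k1 v418 (k1 v433 (k1 v160 (k1 v441 (k1 v586 (k0)))))))
noncomputable def ca0_5 : List VW := k1 v144 (k1 v149 (k1 v157 (k1 v441 (k1 v586 (k0)))))
noncomputable def ca0_6 : List VW := k1 v144 (k1 v418 (k1 v433 (k1 v160 (k1 v441 (k1 v586 (k0))))))
noncomputable def ca0_7 : List VW := k1 v3 (k1 v13 (k1 v21 (k1 v566 (k0))))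
noncomputable def ca0_8 : List VW := k1 v3 (k1 v0 (k1 v299 (k1 v21 (k1 v310 (k1 v566 (k0))))))
noncomputable def ca0_9 : List VW := k1 v1 (k1 v144 (k1 v417 (k1 v149 (k1 v157 (k1 v450 (k1 v586 (k0)))))))
noncomputable def ca0_10 : List VW := k1 v1 (k1 v144 (k1 v417 (k1 v149 (k1 v160 (k1 v167 (k1 v586 (k0)))))))
noncomputable def ca0_11 : List VW := k1 v144 (k1 v0 (k1 v149 (k1 v160 (k1 v167 (k1 v586 (k0))))))
noncomputable def ca0_12 : List VW := k1 v3 (k1 v0 (k1 v2 (k1 v21 (k1 v264 (k1 v566 (k0))))))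
noncomputable def ca0_13 : List VW := k1 v3 (k1 v0 (k1 v11 (k1 v21 (k1 v265 (k1 v566 (k0))))))
noncomputable def ca0_14 : List VW := k1 v3 (k1 v0 (k1 v149 (k1 v21 (k1 v167 (k1 v566 (k0))))))
noncomputable def ca0_15 : List VW := k1 v3 (k1 v275 (k1 v13 (k1 v25 (k1 v31 (k1 v566 (k0))))))
noncomputable def ca0_16 : List VW := k1 v1 (k1 v144 (k1 v418 (k1 v149 (k1 v160 (k1 v167 (k1 v586 (k0)))))))
noncomputable def ca0_17 : List VW := k1 v144 (k1 v0 (k1 v149 (k1 v157 (k1 v444 (k1 v586 (k0))))))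
noncomputable def ca0_18 : List VW := k8 v1 v144 v419 v149 v155 v160 v441 v586 (k0)
noncomputable def ca0_19 : List VW := k1 v144 (k1 v0 (k1 v149 (k1 v152 (k1 v160 (k1 v167 (k1 v586 (k0)))))))
noncomputable def ca0_20 : List VW := k1 v3 (k1 v0 (k1 v11 (k1 v15 (k1 v21 (k1 v441 (k1 v566 (k0)))))))
noncomputable def ca0_21 : List VW := k1 v3 (k1 v0 (k1 v12 (k1 v15 (k1 v21 (k1 v310 (k1 v566 (k0)))))))
noncomputable def ca0_22 : List VW := k8 v1 v144 v418 v149 v155 v160 v441 v460 (k1 v174 (k1 v464 (k1 v587 (k0))))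
noncomputable def ca0_23 : List VW := k8 v1 v144 v418 v149 v157 v160 v441 v460 (k1 v174 (k1 v464 (k1 v587 (k0))))
noncomputable def ca0_24 : List VW := k8 v1 v144 v421 v149 v158 v160 v441 v460 (k1 v174 (k1 v464 (k1 v587 (k0))))
noncomputable def ca0_25 : List VW := k8 v1 v144 v417 v418 v149 v426 v160 v441 (k1 v460 (k1 v174 (k1 v464 (k1 v587 (k0)))))
noncomputable def ca0_26 : List VW := k8 v145 v144 v274 v418 v149 v433 v152 v160 (k8 v441 v167 v170 v178 v182 v187 v192 v588 (k0))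
noncomputable def ca0_27 : List VW := k8 v144 v0 v10 v433 v21 v307 v27 v35 (k1 v42 (k1 v464 (k1 v587 (k0))))
noncomputable def ca0_28 : List VW := k8 v144 v274 v418 v149 v433 v152 v160 v441 (k1 v167 (k1 v170 (k1 v174 (k1 v182 (k1 v186 (k1 v192 (k1 v588 (k0))))))))
noncomputable def ca0_29 : List VW := k1 v3 (k1 v0 (k1 v12 (k1 v21 (k1 v310 (k1 v566 (k0))))))
noncomputable def ca0_30 : List VW := k1 v3 (k1 v0 (k1 v148 (k1 v21 (k1 v308 (k1 v566 (k0))))))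
noncomputable def ca0_31 : List VW := k8 v144 v0 v11 v294 v21 v308 v28 v42 (k1 v464 (k1 v567 (k0)))
noncomputable def ca0_32 : List VW := k8 v1 v144 v419 v149 v426 v160 v441 v167 (k8 v452 v174 v464 v180 v184 v186 v476 v190 (k8 v194 v487 v200 v203 v206 v208 v211 v213 (k8 v218 v219 v223 v225 v228 v230 v231 v233 (k1 v235 (k1 v596 (k0))))))
noncomputable def ca0_33 : List VW := k8 v1 v144 v421 v149 v426 v160 v441 v167 (k8 v452 v174 v464 v180 v184 v186 v476 v190 (k1 v196 (k1 v200 (k1 v203 (k1 v206 (k1 v207 (k1 v211 (k1 v591 (k0)))))))))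
noncomputable def ca0_34 : List VW := k8 v1 v144 v417 v419 v149 v426 v160 v441 (k8 v167 v452 v174 v464 v180 v185 v186 v476 (k8 v190 v480 v487 v200 v203 v493 v205 v208 (k8 v212 v213 v218 v219 v224 v225 v228 v230 (k8 v231 v233 v235 v237 v239 v241 v243 v245 (k1 v247 (k1 v599 (k0)))))))
noncomputable def ca0_35 : List VW := k8 v1 v144 v417 v422 v149 v433 v158 v160 (k8 v442 v167 v452 v174 v464 v180 v185 v186 (k8 v476 v190 v194 v195 v485 v199 v203 v493 (k8 v205 v208 v502 v211 v213 v218 v220 v224 (k8 v225 v228 v230 v231 v233 v235 v237 v239 (k8 v241 v243 v245 v247 v249 v251 v252 v254 (k1 v601 (k0)))))))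
noncomputable def ca0_36 : List VW := k8 v1 v144 v423 v0 v149 v433 v426 v160 (k8 v441 v167 v452 v174 v464 v180 v184 v186 (k8 v476 v190 v196 v200 v203 v493 v205 v207 (k8 v502 v211 v213 v511 v217 v219 v223 v225 (k1 v228 (k1 v230 (k1 v231 (k1 v595 (k0))))))))
noncomputable def ca0_37 : List VW := k8 v1 v144 v423 v0 v149 v433 v426 v160 (k8 v442 v167 v452 v174 v464 v180 v185 v186 (k8 v476 v190 v194 v195 v200 v203 v493 v205 (k8 v208 v502 v211 v213 v511 v217 v219 v223 (k8 v225 v228 v230 v231 v233 v235 v237 v239 (k1 v597 (k0))))))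
noncomputable def ca0_38 : List VW := k8 v1 v144 v423 v418 v149 v433 v158 v160 (k8 v443 v167 v452 v174 v464 v180 v470 v186 (k8 v476 v190 v194 v195 v485 v199 v203 v493 (k8 v205 v208 v502 v211 v213 v511 v217 v219 (k8 v224 v225 v228 v230 v231 v233 v235 v237 (k8 v239 v241 v243 v245 v247 v249 v251 v600 (k0))))))
noncomputable def ca0_39 : List VW := k8 v276 v144 v274 v279 v149 v433 v156 v162 (k8 v441 v167 v460 v171 v174 v464 v180 v184 (k8 v186 v476 v190 v196 v200 v202 v493 v205 (k8 v207 v502 v211 v213 v511 v217 v219 v518 (k1 v521 (k1 v524 (k1 v525 (k1 v528 (k1 v595 (k0)))))))))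
noncomputable def ca0_40 : List VW := k8 v1 v144 v274 v419 v149 v433 v158 v160 (k8 v442 v167 v452 v174 v464 v180 v184 v186 (k8 v476 v190 v71 v196 v200 v203 v493 v205 (k8 v207 v502 v211 v213 v511 v217 v219 v518 (k1 v521 (k1 v524 (k1 v525 (k1 v528 (k1 v233 (k1 v235 (k1 v596 (k0)))))))))))
noncomputable def ca0_41 : List VW := k8 v1 v144 v274 v279 v149 v426 v160 v317 (k8 v168 v173 v174 v464 v180 v187 v192 v588 (k0))
noncomputable def ca0_42 : List VW := k8 v7 v275 v0 v2 v11 v432 v22 v308 (k8 v445 v165 v42 v339 v52 v59 v353 v64 (k1 v71 (k1 v365 (k1 v569 (k0)))))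
noncomputable def ca0_43 : List VW := k8 v144 v275 v0 v2 v148 v294 v21 v160 (k8 v439 v28 v165 v42 v174 v463 v52 v472 (k8 v186 v475 v64 v71 v484 v79 v80 v492 (k1 v86 (k1 v501 (k1 v94 (k1 v510 (k1 v592 (k0))))))))
noncomputable def ca0_44 : List VW := k8 v145 v275 v0 v2 v10 v432 v152 v160 (k8 v307 v445 v165 v42 v174 v463 v51 v472 (k8 v186 v475 v189 v195 v484 v79 v202 v492 (k1 v86 (k1 v87 (k1 v90 (k1 v591 (k0)))))))
noncomputable def ca0_45 : List VW := k8 v145 v275 v0 v149 v293 v152 v160 v307 (k8 v169 v43 v174 v49 v182 v59 v186 v192 (k8 v195 v200 v202 v493 v86 v207 v90 v94 (k1 v213 (k1 v511 (k1 v592 (k0))))))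
noncomputable def ca0_46 : List VW := k8 v3 v144 v274 v0 v149 v435 v153 v163 (k8 v307 v167 v329 v42 v174 v49 v182 v59 (k8 v186 v62 v192 v196 v200 v202 v493 v205 (k8 v207 v502 v94 v213 v390 v516 v219 v518 (k1 v106 (k1 v225 (k1 v524 (k1 v594 (k0))))))))
noncomputable def ca0_47 : List VW := k8 v4 v144 v274 v0 v149 v433 v153 v162 (k8 v305 v167 v172 v174 v49 v182 v187 v192 (k1 v195 (k1 v200 (k1 v589 (k0)))))
noncomputable def ca0_48 : List VW := k1 v3 (k1 v275 (k1 v14 (k1 v24 (k1 v31 (k1 v566 (k0))))))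
noncomputable def ca0_49 : List VW := k1 v3 (k1 v0 (k1 v13 (k1 v15 (k1 v21 (k1 v31 (k1 v566 (k0)))))))
noncomputable def ca0_50 : List VW := k8 v3 v275 v0 v2 v303 v22 v310 v30 (k1 v42 (k1 v50 (k1 v567 (k0))))
noncomputable def ca0_51 : List VW := k8 v144 v0 v2 v429 v21 v308 v28 v42 (k1 v339 (k1 v567 (k0)))
noncomputable def ca0_52 : List VW := k8 v3 v147 v0 v263 v11 v294 v21 v308 (k1 v28 (k1 v43 (k1 v339 (k1 v52 (k1 v59 (k1 v353 (k1 v568 (k0))))))))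
noncomputable def ca0_53 : List VW := k8 v144 v274 v0 v149 v293 v21 v313 v167 (k1 v42 (k1 v464 (k1 v587 (k0))))
noncomputable def ca0_54 : List VW := k8 v1 v144 v421 v149 v426 v160 v441 v167 (k8 v452 v174 v464 v180 v185 v186 v476 v190 (k8 v480 v487 v200 v488 v202 v493 v499 v208 (k8 v212 v214 v218 v220 v224 v226 v228 v230 (k8 v232 v233 v235 v237 v239 v241 v243 v245 (k8 v247 v249 v251 v252 v254 v255 v256 v602 (k0))))))
noncomputable def ca0_55 : List VW := k8 v416 v144 v421 v149 v426 v160 v441 v167 (k8 v452 v174 v464 v180 v185 v186 v476 v190 (k8 v480 v487 v200 v488 v202 v493 v499 v208 (k8 v212 v214 v218 v220 v224 v226 v228 v230 (k8 v232 v233 v235 v237 v239 v241 v243 v245 (k8 v247 v249 v251 v252 v254 v255 v256 v257 (k1 v259 (k1 v260 (k1 v261 (k1 v604 (k0))))))))))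
noncomputable def ca0_56 : List VW := k8 v416 v144 v419 v149 v426 v160 v441 v167 (k8 v452 v174 v464 v180 v185 v186 v476 v190 (k8 v480 v487 v200 v488 v202 v493 v499 v208 (k8 v212 v214 v218 v220 v224 v226 v228 v230 (k8 v232 v233 v235 v237 v239 v241 v243 v245 (k8 v247 v249 v251 v252 v254 v255 v256 v257 (k1 v259 (k1 v603 (k0))))))))
noncomputable def ca0_57 : List VW := k8 v416 v144 v418 v149 v426 v160 v441 v167 (k8 v452 v174 v464 v180 v185 v186 v476 v190 (k8 v480 v487 v200 v488 v202 v493 v499 v208 (k8 v212 v214 v218 v220 v224 v226 v228 v230 (k8 v231 v233 v235 v237 v239 v241 v243 v245 (k1 v247 (k1 v249 (k1 v251 (k1 v600 (k0)))))))))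
noncomputable def ca0_58 : List VW := k1 v1 (k1 v144 (k1 v0 (k1 v149 (k1 v163 (k1 v167 (k1 v586 (k0)))))))
noncomputable def ca0_59 : List VW := k8 v1 v147 v422 v149 v426 v160 v441 v167 (k8 v452 v174 v464 v180 v469 v186 v476 v190 (k8 v480 v487 v200 v488 v202 v493 v499 v208 (k8 v212 v214 v218 v220 v224 v226 v228 v230 (k8 v232 v233 v235 v237 v239 v241 v243 v245 (k8 v247 v249 v251 v252 v254 v255 v256 v602 (k0))))))
noncomputable def ca0_60 : List VW := k8 v1 v144 v422 v149 v426 v160 v441 v167 (k8 v452 v174 v464 v180 v469 v186 v476 v190 (k8 v480 v487 v200 v488 v202 v493 v205 v496 (k8 v207 v212 v214 v218 v220 v224 v226 v228 (k8 v230 v232 v233 v235 v237 v239 v241 v243 (k8 v245 v247 v249 v251 v252 v254 v255 v256 (k1 v257 (k1 v259 (k1 v260 (k1 v261 (k1 v604 (k0)))))))))))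
noncomputable def ca0_61 : List VW := k8 v1 v144 v422 v149 v426 v160 v441 v167 (k8 v452 v174 v464 v180 v469 v186 v476 v190 (k8 v480 v487 v200 v488 v202 v493 v499 v208 (k8 v212 v214 v218 v220 v224 v226 v228 v230 (k8 v231 v233 v235 v237 v239 v241 v243 v245 (k8 v247 v249 v251 v252 v254 v255 v256 v257 (k1 v259 (k1 v603 (k0))))))))
noncomputable def ca0_62 : List VW := k8 v1 v144 v421 v149 v426 v160 v441 v167 (k8 v452 v174 v464 v180 v185 v186 v476 v190 (k8 v480 v487 v200 v488 v202 v493 v499 v208 (k8 v212 v214 v218 v220 v224 v226 v228 v230 (k8 v231 v233 v235 v237 v239 v241 v243 v245 (k1 v247 (k1 v249 (k1 v251 (k1 v252 (k1 v254 (k1 v601 (k0)))))))))))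
noncomputable def ca0_63 : List VW := k8 v1 v144 v418 v149 v155 v160 v167 v586 (k0)
noncomputable def ca0_64 : List VW := k8 v1 v144 v417 v418 v149 v426 v160 v441 (k8 v167 v452 v174 v464 v180 v469 v186 v476 (k8 v190 v480 v195 v485 v199 v488 v202 v493 (k8 v205 v496 v207 v212 v214 v218 v220 v224 (k8 v226 v228 v230 v232 v233 v235 v237 v239 (k8 v241 v243 v245 v247 v249 v251 v252 v254 (k1 v255 (k1 v256 (k1 v257 (k1 v259 (k1 v260 (k1 v261 (k1 v604 (k0)))))))))))))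
noncomputable def ca0_65 : List VW := k8 v1 v147 v422 v149 v426 v160 v441 v167 (k8 v452 v174 v464 v180 v469 v186 v476 v190 (k8 v480 v487 v200 v488 v202 v493 v499 v208 (k8 v212 v214 v218 v220 v224 v225 v228 v230 (k8 v231 v233 v235 v237 v239 v241 v243 v245 (k1 v247 (k1 v249 (k1 v251 (k1 v600 (k0)))))))))
noncomputable def ca0_66 : List VW := k1 v1 (k1 v144 (k1 v418 (k1 v434 (k1 v160 (k1 v167 (k1 v586 (k0)))))))
noncomputable def ca0_67 : List VW := k8 v1 v144 v417 v419 v149 v427 v160 v441 (k8 v167 v452 v174 v464 v180 v469 v186 v476 (k8 v190 v480 v195 v485 v199 v488 v202 v493 (k8 v205 v496 v207 v212 v214 v218 v220 v224 (k8 v226 v228 v230 v231 v233 v235 v237 v239 (k8 v241 v243 v245 v247 v249 v251 v252 v254 (k1 v255 (k1 v256 (k1 v257 (k1 v259 (k1 v260 (k1 v261 (k1 v604 (k0)))))))))))))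
noncomputable def ca0_68 : List VW := k8 v1 v144 v417 v421 v149 v427 v160 v441 (k8 v167 v452 v174 v464 v180 v469 v186 v476 (k8 v190 v480 v195 v485 v199 v488 v202 v493 (k8 v205 v496 v207 v212 v214 v218 v220 v224 (k8 v225 v228 v230 v231 v233 v235 v237 v239 (k8 v241 v243 v245 v247 v249 v251 v252 v254 (k1 v255 (k1 v256 (k1 v257 (k1 v259 (k1 v260 (k1 v261 (k1 v604 (k0)))))))))))))
noncomputable def ca0_69 : List VW := k8 v1 v144 v417 v419 v149 v427 v160 v441 (k8 v167 v452 v174 v464 v180 v469 v186 v476 (k8 v190 v194 v195 v485 v199 v488 v202 v493 (k8 v205 v496 v207 v212 v214 v218 v220 v224 (k8 v225 v228 v230 v231 v233 v235 v237 v239 (k8 v241 v243 v245 v247 v249 v251 v252 v254 (k1 v255 (k1 v256 (k1 v602 (k0)))))))))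
noncomputable def ca0_70 : List VW := k8 v1 v144 v417 v418 v149 v426 v160 v441 (k8 v167 v452 v174 v464 v180 v469 v186 v476 (k8 v190 v480 v487 v200 v488 v202 v493 v499 (k8 v208 v212 v214 v218 v220 v224 v225 v228 (k8 v230 v231 v233 v235 v237 v239 v241 v243 (k1 v245 (k1 v247 (k1 v249 (k1 v251 (k1 v600 (k0))))))))))
noncomputable def ca0_71 : List VW := k8 v1 v144 v417 v422 v149 v433 v426 v160 (k8 v443 v167 v453 v174 v464 v180 v470 v186 (k8 v476 v190 v480 v195 v485 v199 v488 v202 (k8 v493 v205 v496 v207 v502 v211 v214 v218 (k8 v220 v224 v225 v228 v230 v231 v233 v235 (k8 v237 v239 v241 v243 v245 v247 v249 v251 (k1 v252 (k1 v254 (k1 v255 (k1 v256 (k1 v257 (k1 v259 (k1 v603 (k0)))))))))))))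
noncomputable def ca0_72 : List VW := k8 v1 v144 v417 v422 v149 v433 v426 v160 (k8 v443 v167 v453 v174 v464 v180 v470 v186 (k8 v476 v190 v480 v195 v485 v199 v488 v202 (k8 v493 v205 v496 v207 v502 v211 v214 v218 (k8 v220 v224 v225 v228 v230 v231 v233 v235 (k8 v237 v239 v241 v243 v245 v247 v249 v251 (k8 v252 v254 v255 v256 v257 v259 v260 v261 (k1 v604 (k0))))))))
noncomputable def ca0_73 : List VW := k8 v1 v144 v423 v418 v149 v433 v426 v160 (k8 v443 v167 v453 v174 v464 v180 v470 v186 (k8 v476 v190 v480 v195 v485 v199 v488 v202 (k8 v493 v205 v208 v502 v211 v213 v218 v220 (k8 v224 v225 v228 v230 v231 v233 v235 v237 (k8 v239 v241 v243 v245 v247 v249 v251 v252 (k8 v254 v255 v256 v257 v259 v260 v261 v604 (k0)))))))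
noncomputable def ca0_74 : List VW := k8 v1 v144 v423 v418 v149 v433 v426 v160 (k8 v442 v167 v453 v174 v464 v180 v470 v186 (k8 v476 v190 v480 v195 v485 v199 v488 v202 (k8 v493 v205 v496 v207 v502 v211 v213 v218 (k8 v220 v224 v225 v228 v230 v231 v233 v235 (k8 v237 v239 v241 v243 v245 v247 v249 v251 (k8 v252 v254 v255 v256 v257 v259 v260 v261 (k1 v604 (k0))))))))
noncomputable def ca0_75 : List VW := k8 v1 v144 v417 v422 v149 v433 v426 v160 (k8 v442 v167 v452 v174 v464 v180 v470 v186 (k8 v476 v190 v480 v195 v485 v199 v488 v202 (k8 v493 v205 v496 v504 v212 v214 v218 v220 (k8 v224 v225 v228 v230 v231 v233 v235 v237 (k8 v239 v241 v243 v245 v247 v249 v251 v252 (k1 v254 (k1 v255 (k1 v256 (k1 v257 (k1 v259 (k1 v603 (k0))))))))))))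
noncomputable def ca0_76 : List VW := k8 v1 v144 v417 v421 v149 v433 v158 v160 (k8 v442 v167 v452 v174 v464 v180 v470 v186 (k8 v476 v190 v480 v195 v485 v199 v488 v202 (k8 v493 v205 v496 v504 v212 v214 v218 v220 (k8 v224 v225 v228 v230 v231 v233 v235 v237 (k8 v239 v241 v243 v245 v247 v249 v251 v252 (k1 v254 (k1 v255 (k1 v256 (k1 v257 (k1 v259 (k1 v603 (k0))))))))))))
noncomputable def ca0_77 : List VW := k8 v1 v144 v279 v149 v152 v160 v167 v586 (k0)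
noncomputable def ca0_78 : List VW := k8 v1 v144 v423 v418 v149 v433 v426 v160 (k8 v443 v169 v453 v174 v464 v180 v470 v186 (k8 v476 v190 v194 v195 v485 v199 v488 v202 (k8 v493 v205 v208 v502 v211 v213 v511 v217 (k8 v219 v518 v223 v225 v228 v230 v231 v233 (k8 v235 v237 v239 v241 v243 v245 v247 v249 (k1 v251 (k1 v252 (k1 v254 (k1 v601 (k0))))))))))
noncomputable def ca0_79 : List VW := k8 v1 v144 v423 v418 v149 v433 v426 v160 (k8 v443 v167 v460 v452 v174 v464 v180 v470 (k8 v186 v476 v190 v194 v195 v485 v199 v488 (k8 v202 v493 v205 v208 v502 v211 v213 v511 (k8 v217 v219 v518 v223 v225 v228 v230 v231 (k8 v233 v235 v237 v239 v241 v243 v245 v247 (k8 v249 v251 v252 v254 v255 v554 v259 v260 (k1 v261 (k1 v604 (k0)))))))))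
noncomputable def ca0_80 : List VW := k8 v1 v144 v423 v418 v149 v433 v426 v160 (k8 v443 v169 v453 v174 v464 v180 v470 v186 (k8 v476 v190 v194 v195 v485 v199 v488 v202 (k8 v493 v205 v208 v502 v211 v213 v511 v217 (k8 v219 v518 v223 v225 v228 v230 v231 v233 (k8 v235 v237 v239 v241 v243 v245 v247 v249 (k1 v251 (k1 v252 (k1 v254 (k1 v255 (k1 v554 (k1 v259 (k1 v603 (k0)))))))))))))
noncomputable def ca0_81 : List VW := k8 v1 v144 v423 v418 v149 v433 v426 v160 (k8 v443 v169 v453 v174 v464 v180 v470 v186 (k8 v476 v190 v194 v195 v485 v199 v488 v202 (k8 v493 v205 v208 v502 v211 v213 v511 v217 (k8 v219 v224 v225 v228 v230 v231 v233 v235 (k8 v237 v239 v241 v243 v245 v247 v249 v251 (k1 v252 (k1 v254 (k1 v255 (k1 v256 (k1 v257 (k1 v259 (k1 v603 (k0)))))))))))))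
noncomputable def ca0_82 : List VW := k8 v1 v144 v423 v418 v149 v433 v426 v160 (k8 v443 v167 v453 v174 v464 v180 v470 v186 (k8 v476 v190 v194 v195 v485 v199 v488 v202 (k8 v493 v205 v208 v502 v211 v213 v511 v217 (k8 v219 v224 v225 v228 v230 v231 v233 v235 (k8 v237 v239 v241 v243 v245 v247 v249 v251 (k1 v252 (k1 v254 (k1 v255 (k1 v256 (k1 v602 (k0)))))))))))
noncomputable def ca0_83 : List VW := k8 v1 v144 v417 v422 v149 v433 v426 v160 (k8 v443 v167 v453 v174 v464 v180 v470 v186 (k8 v476 v190 v480 v195 v485 v199 v488 v202 (k8 v493 v205 v496 v207 v502 v211 v213 v511 (k8 v217 v220 v224 v225 v228 v230 v231 v233 (k8 v235 v237 v239 v241 v243 v245 v247 v249 (k1 v251 (k1 v252 (k1 v254 (k1 v255 (k1 v256 (k1 v602 (k0))))))))))))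
noncomputable def ca0_84 : List VW := k8 v1 v147 v422 v149 v426 v160 v441 v167 (k1 v170 (k1 v174 (k1 v464 (k1 v180 (k1 v187 (k1 v192 (k1 v588 (k0))))))))
noncomputable def ca0_85 : List VW := k8 v276 v144 v274 v279 v149 v433 v291 v158 (k8 v160 v305 v168 v460 v326 v170 v174 v464 (k8 v180 v473 v59 v186 v476 v190 v71 v195 (k8 v485 v199 v79 v202 v493 v205 v208 v502 (k8 v211 v213 v511 v217 v219 v518 v223 v225 (k8 v524 v525 v528 v529 v531 v532 v536 v538 (k1 v541 (k1 v245 (k1 v247 (k1 v249 (k1 v251 (k1 v600 (k0))))))))))))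
noncomputable def ca0_86 : List VW := k8 v276 v144 v274 v283 v0 v149 v433 v559 (k8 v158 v161 v444 v167 v460 v452 v174 v464 (k8 v180 v470 v186 v476 v190 v71 v195 v485 (k8 v199 v489 v202 v493 v205 v208 v502 v211 (k8 v213 v511 v217 v219 v518 v223 v225 v524 (k8 v228 v230 v528 v529 v531 v532 v536 v538 (k8 v541 v543 v544 v249 v251 v252 v254 v255 (k1 v554 (k1 v556 (k1 v260 (k1 v261 (k1 v604 (k0))))))))))))
noncomputable def ca0_87 : List VW := k8 v1 v144 v274 v423 v0 v149 v433 v559 (k8 v158 v161 v444 v167 v460 v452 v174 v464 (k8 v180 v470 v186 v476 v190 v71 v196 v485 (k8 v199 v489 v202 v493 v205 v208 v502 v211 (k8 v213 v511 v217 v219 v518 v223 v225 v524 (k8 v228 v230 v528 v529 v531 v532 v536 v538 (k8 v541 v543 v544 v249 v251 v252 v254 v255 (k1 v554 (k1 v556 (k1 v260 (k1 v261 (k1 v604 (k0))))))))))))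
noncomputable def ca0_88 : List VW := k8 v1 v144 v274 v423 v0 v149 v433 v559 (k8 v15 v158 v161 v444 v167 v460 v452 v174 (k8 v464 v180 v470 v186 v476 v190 v71 v196 (k8 v485 v199 v489 v202 v493 v205 v208 v502 (k8 v211 v213 v511 v217 v219 v518 v223 v225 (k8 v524 v228 v230 v528 v529 v531 v532 v536 (k8 v538 v541 v543 v544 v249 v251 v252 v254 (k1 v255 (k1 v554 (k1 v556 (k1 v603 (k0)))))))))))
noncomputable def ca0_89 : List VW := k8 v1 v144 v274 v423 v0 v149 v433 v426 (k8 v161 v444 v167 v460 v452 v174 v464 v180 (k8 v470 v186 v476 v190 v194 v195 v485 v199 (k8 v489 v202 v493 v205 v208 v502 v211 v213 (k8 v511 v217 v219 v518 v223 v225 v524 v228 (k8 v230 v528 v529 v531 v532 v536 v538 v541 (k8 v543 v544 v249 v251 v252 v254 v255 v554 (k1 v556 (k1 v260 (k1 v261 (k1 v604 (k0)))))))))))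
noncomputable def ca0_90 : List VW := k8 v1 v144 v274 v423 v0 v149 v433 v426 (k8 v161 v444 v167 v460 v452 v174 v464 v180 (k8 v470 v186 v476 v190 v194 v195 v485 v199 (k8 v489 v202 v493 v205 v208 v502 v211 v213 (k8 v511 v217 v219 v518 v223 v225 v524 v228 (k8 v230 v528 v529 v531 v532 v536 v538 v541 (k8 v543 v544 v545 v546 v252 v254 v255 v554 (k1 v556 (k1 v260 (k1 v261 (k1 v604 (k0)))))))))))
noncomputable def ca0_91 : List VW := k8 v1 v147 v423 v0 v149 v433 v426 v160 (k8 v444 v167 v460 v452 v174 v464 v180 v470 (k8 v186 v476 v190 v194 v195 v485 v199 v489 (k8 v202 v493 v205 v208 v502 v211 v213 v511 (k8 v217 v219 v518 v223 v225 v524 v228 v230 (k8 v528 v529 v531 v532 v536 v538 v541 v543 (k8 v544 v249 v251 v252 v254 v255 v554 v556 (k1 v260 (k1 v261 (k1 v604 (k0))))))))))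
noncomputable def ca0_92 : List VW := k8 v1 v147 v423 v0 v149 v433 v426 v160 (k8 v444 v167 v460 v452 v174 v464 v180 v470 (k8 v186 v476 v190 v194 v195 v485 v199 v489 (k8 v202 v493 v205 v208 v502 v211 v213 v511 (k8 v217 v219 v518 v223 v225 v524 v228 v230 (k8 v528 v529 v531 v532 v536 v538 v541 v543 (k8 v544 v545 v546 v252 v254 v255 v554 v259 (k1 v260 (k1 v261 (k1 v604 (k0))))))))))
noncomputable def ca0_93 : List VW := k8 v1 v147 v423 v0 v149 v433 v426 v160 (k8 v444 v167 v460 v452 v174 v464 v180 v470 (k8 v186 v476 v190 v194 v195 v485 v199 v489 (k8 v202 v493 v205 v208 v502 v211 v213 v511 (k8 v217 v219 v518 v223 v225 v524 v228 v230 (k8 v528 v231 v233 v235 v237 v239 v241 v243 (k8 v245 v247 v249 v251 v252 v254 v255 v554 (k1 v259 (k1 v603 (k0)))))))))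
noncomputable def ca0_94 : List VW := k8 v1 v147 v423 v0 v149 v433 v426 v160 (k8 v444 v167 v460 v452 v174 v464 v180 v470 (k8 v186 v476 v190 v481 v195 v485 v199 v489 (k8 v202 v493 v205 v496 v207 v502 v211 v213 (k8 v511 v217 v219 v518 v223 v225 v524 v228 (k8 v230 v528 v231 v233 v235 v237 v239 v241 (k8 v243 v245 v247 v249 v251 v252 v254 v255 (k1 v256 (k1 v257 (k1 v259 (k1 v260 (k1 v261 (k1 v604 (k0)))))))))))))
noncomputable def ca0_95 : List VW := k8 v1 v147 v423 v418 v149 v433 v426 v160 (k8 v444 v167 v460 v452 v174 v464 v180 v470 (k8 v186 v476 v190 v481 v195 v485 v199 v488 (k8 v202 v493 v205 v496 v207 v502 v211 v213 (k8 v511 v217 v219 v518 v223 v225 v524 v228 (k8 v230 v231 v233 v235 v237 v239 v241 v243 (k8 v245 v247 v249 v251 v252 v254 v255 v256 (k1 v257 (k1 v259 (k1 v260 (k1 v261 (k1 v604 (k0))))))))))))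
noncomputable def ca0_96 : List VW := k8 v1 v144 v423 v0 v149 v433 v426 v160 (k8 v442 v167 v452 v174 v464 v180 v470 v186 (k8 v476 v190 v194 v195 v485 v199 v203 v493 (k8 v205 v208 v502 v211 v213 v511 v217 v219 (k8 v518 v223 v225 v228 v230 v231 v233 v235 (k1 v596 (k0))))))
noncomputable def ca0_97 : List VW := k8 v1 v144 v274 v422 v149 v433 v156 v162 (k8 v441 v167 v452 v174 v464 v180 v184 v186 (k8 v476 v190 v196 v200 v202 v493 v205 v207 (k1 v502 (k1 v211 (k1 v213 (k1 v511 (k1 v592 (k0))))))))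
noncomputable def ca0_98 : List VW := k8 v1 v144 v274 v419 v149 v426 v160 v441 (k8 v167 v452 v174 v464 v180 v184 v186 v192 (k1 v195 (k1 v200 (k1 v589 (k0)))))
noncomputable def ca0_99 : List VW := k8 v3 v144 v275 v0 v2 v10 v300 v293 (k8 v22 v160 v307 v264 v27 v456 v42 v174 (k8 v463 v51 v179 v59 v186 v475 v63 v69 (k8 v71 v195 v484 v198 v202 v492 v204 v207 (k8 v501 v94 v213 v95 v99 v100 v103 v106 (k8 v225 v111 v230 v114 v530 v121 v536 v407 (k1 v128 (k1 v598 (k0))))))))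
noncomputable def ca0_100 : List VW := k8 v3 v144 v275 v0 v2 v10 v429 v15 (k8 v22 v160 v307 v264 v27 v165 v35 v42 (k8 v174 v463 v51 v179 v59 v186 v475 v63 (k8 v482 v195 v484 v198 v202 v492 v204 v207 (k8 v501 v94 v213 v95 v99 v219 v103 v106 (k8 v107 v523 v110 v230 v114 v115 v530 v596 (k0))))))
noncomputable def ca0_101 : List VW := k8 v4 v144 v275 v280 v149 v433 v15 v157 (k8 v160 v307 v167 v329 v42 v174 v49 v182 (k8 v59 v186 v67 v192 v70 v197 v200 v202 (k8 v493 v205 v207 v502 v94 v213 v511 v99 (k8 v219 v518 v106 v225 v524 v111 v230 v114 (k1 v233 (k1 v119 (k1 v596 (k0))))))))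
noncomputable def ca0_102 : List VW := k8 v278 v147 v274 v0 v149 v433 v293 v157 (k8 v160 v307 v167 v462 v563 v42 v174 v464 (k8 v182 v473 v59 v186 v67 v192 v71 v195 (k8 v485 v199 v202 v493 v205 v207 v502 v211 (k8 v213 v511 v99 v219 v518 v106 v225 v524 (k8 v111 v230 v528 v233 v119 v237 v125 v239 (k1 v241 (k1 v541 (k1 v245 (k1 v544 (k1 v599 (k0)))))))))))
noncomputable def ca0_103 : List VW := k8 v277 v144 v274 v279 v149 v433 v292 v157 (k8 v160 v306 v167 v328 v35 v326 v42 v174 (k8 v464 v182 v473 v59 v186 v67 v192 v71 (k8 v195 v485 v199 v79 v202 v493 v205 v207 (k8 v502 v211 v213 v511 v217 v219 v518 v223 (k8 v225 v524 v228 v230 v528 v231 v233 v531 (k8 v237 v536 v239 v241 v541 v245 v544 v249 (k1 v251 (k1 v600 (k0)))))))))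
noncomputable def ca0_104 : List VW := k8 v276 v144 v274 v283 v149 v433 v291 v158 (k8 v161 v444 v167 v460 v326 v171 v174 v464 (k8 v182 v473 v59 v186 v476 v190 v71 v195 (k8 v485 v199 v79 v202 v493 v205 v208 v502 (k8 v211 v213 v511 v217 v219 v518 v223 v225 (k8 v524 v525 v528 v529 v531 v237 v536 v538 (k1 v541 (k1 v245 (k1 v544 (k1 v249 (k1 v251 (k1 v600 (k0))))))))))))
noncomputable def ca0_105 : List VW := k8 v1 v144 v274 v0 v149 v433 v155 v160 (k8 v305 v167 v452 v174 v464 v180 v183 v187 (k8 v67 v192 v196 v200 v202 v493 v205 v207 (k1 v502 (k1 v506 (k1 v511 (k1 v592 (k0)))))))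
noncomputable def ca0_106 : List VW := k8 v1 v144 v274 v279 v149 v433 v155 v160 (k8 v305 v167 v452 v174 v464 v180 v183 v187 (k1 v192 (k1 v196 (k1 v200 (k1 v202 (k1 v493 (k1 v590 (k0))))))))
noncomputable def ca0_107 : List VW := k8 v5 v275 v289 v13 v304 v16 v24 v319 (k1 v31 (k1 v47 (k1 v56 (k1 v59 (k1 v68 (k1 v568 (k0)))))))
noncomputable def ca0_108 : List VW := k8 v3 v7 v275 v0 v2 v303 v15 v21 (k8 v310 v265 v30 v35 v42 v341 v54 v59 (k1 v355 (k1 v66 (k1 v71 (k1 v367 (k1 v569 (k0)))))))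
noncomputable def ca0_109 : List VW := k8 v3 v144 v275 v0 v2 v297 v294 v21 (k8 v308 v265 v28 v330 v42 v339 v266 v52 (k8 v58 v59 v353 v64 v71 v365 v73 v79 (k1 v80 (k1 v82 (k1 v86 (k1 v87 (k1 v571 (k0))))))))
noncomputable def ca0_110 : List VW := k8 v3 v144 v275 v0 v263 v11 v297 v294 (k8 v21 v160 v308 v265 v28 v332 v330 v42 (k8 v178 v464 v52 v346 v59 v353 v476 v361 (k8 v71 v365 v73 v79 v202 v493 v82 v86 (k8 v87 v91 v94 v213 v511 v99 v100 v104 (k8 v106 v107 v108 v111 v397 v114 v115 v119 (k1 v120 (k1 v125 (k1 v241 (k1 v578 (k0))))))))))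
noncomputable def ca0_111 : List VW := k8 v4 v144 v274 v0 v149 v435 v157 v160 (k8 v307 v167 v329 v43 v174 v338 v182 v185 (k8 v186 v352 v192 v71 v195 v200 v202 v493 (k1 v205 (k1 v207 (k1 v502 (k1 v211 (k1 v213 (k1 v511 (k1 v592 (k0))))))))))
noncomputable def ca0_112 : List VW := k8 v416 v144 v419 v149 v426 v160 v441 v167 (k8 v452 v174 v464 v180 v469 v186 v476 v190 (k8 v480 v195 v485 v199 v488 v202 v493 v499 (k8 v208 v212 v214 v218 v220 v224 v226 v228 (k8 v230 v232 v233 v235 v237 v239 v241 v243 (k8 v245 v247 v249 v251 v252 v254 v255 v256 (k1 v602 (k0)))))))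
noncomputable def ca0_113 : List VW := k8 v416 v144 v419 v149 v426 v160 v441 v167 (k8 v452 v174 v464 v180 v469 v186 v476 v190 (k8 v480 v195 v485 v199 v488 v202 v493 v499 (k8 v208 v212 v214 v218 v220 v224 v226 v228 (k8 v230 v232 v233 v235 v237 v239 v241 v243 (k8 v245 v247 v249 v251 v252 v254 v255 v256 (k1 v257 (k1 v259 (k1 v603 (k0)))))))))
noncomputable def ca0_114 : List VW := k8 v416 v144 v419 v149 v426 v160 v441 v167 (k8 v452 v174 v464 v180 v469 v186 v476 v190 (k8 v194 v195 v485 v199 v488 v202 v493 v499 (k8 v208 v212 v214 v218 v220 v224 v226 v228 (k8 v230 v232 v233 v235 v237 v239 v241 v243 (k8 v245 v247 v249 v251 v252 v254 v255 v256 (k1 v602 (k0)))))))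
noncomputable def ca0_115 : List VW := k1 v1 (k1 v144 (k1 v418 (k1 v433 (k1 v160 (k1 v167 (k1 v586 (k0)))))))
noncomputable def ca0_116 : List VW := k1 v1 (k1 v144 (k1 v0 (k1 v149 (k1 v160 (k1 v167 (k1 v586 (k0)))))))
noncomputable def ca0_117 : List VW := k8 v1 v144 v422 v149 v426 v160 v441 v167 (k8 v452 v174 v464 v180 v469 v186 v476 v190 (k8 v480 v195 v485 v199 v488 v202 v493 v499 (k8 v208 v212 v214 v218 v220 v224 v226 v228 (k8 v230 v232 v233 v235 v237 v239 v241 v243 (k1 v245 (k1 v247 (k1 v249 (k1 v251 (k1 v252 (k1 v254 (k1 v601 (k0))))))))))))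
noncomputable def ca0_118 : List VW := k8 v416 v144 v422 v149 v426 v160 v441 v167 (k8 v452 v174 v464 v180 v469 v186 v476 v190 (k8 v480 v195 v485 v199 v488 v202 v493 v205 (k8 v496 v207 v212 v214 v218 v220 v224 v226 (k8 v228 v230 v232 v233 v235 v237 v239 v241 (k8 v243 v245 v247 v249 v251 v252 v254 v255 (k1 v256 (k1 v257 (k1 v259 (k1 v603 (k0))))))))))
noncomputable def ca0_119 : List VW := k8 v1 v144 v422 v149 v426 v160 v441 v167 (k8 v452 v174 v464 v180 v469 v186 v476 v190 (k8 v480 v195 v485 v199 v488 v202 v493 v499 (k8 v208 v212 v214 v218 v220 v224 v226 v228 (k8 v230 v232 v233 v235 v237 v239 v241 v243 (k8 v245 v247 v249 v251 v252 v254 v255 v256 (k1 v602 (k0)))))))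
noncomputable def ca0_120 : List VW := k8 v1 v144 v421 v149 v426 v160 v441 v167 (k8 v452 v174 v464 v180 v469 v186 v476 v190 (k8 v480 v487 v200 v488 v202 v493 v499 v208 (k8 v212 v214 v218 v220 v224 v226 v228 v230 (k8 v232 v233 v235 v237 v239 v241 v243 v245 (k1 v247 (k1 v249 (k1 v251 (k1 v600 (k0)))))))))
noncomputable def ca0_121 : List VW := k8 v1 v144 v417 v418 v149 v426 v160 v441 (k8 v167 v452 v174 v464 v180 v469 v186 v476 (k8 v190 v480 v195 v485 v199 v488 v202 v493 (k8 v205 v496 v207 v212 v214 v218 v220 v224 (k8 v226 v228 v230 v232 v233 v235 v237 v239 (k8 v241 v243 v245 v247 v249 v251 v252 v254 (k1 v255 (k1 v256 (k1 v257 (k1 v259 (k1 v603 (k0)))))))))))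
noncomputable def ca0_122 : List VW := k8 v1 v147 v422 v149 v426 v160 v441 v167 (k8 v452 v174 v464 v180 v469 v186 v476 v190 (k8 v480 v195 v485 v199 v488 v202 v493 v205 (k8 v496 v207 v212 v214 v218 v220 v224 v226 (k8 v228 v230 v232 v233 v235 v237 v239 v241 (k8 v243 v245 v247 v249 v251 v252 v254 v255 (k1 v256 (k1 v257 (k1 v259 (k1 v603 (k0))))))))))
noncomputable def ca0_123 : List VW := k8 v1 v147 v422 v149 v426 v160 v441 v167 (k8 v452 v174 v464 v180 v469 v186 v476 v190 (k8 v480 v487 v200 v488 v202 v493 v499 v208 (k8 v212 v214 v218 v220 v224 v226 v228 v230 (k8 v232 v233 v235 v237 v239 v241 v243 v245 (k1 v247 (k1 v249 (k1 v251 (k1 v600 (k0)))))))))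
noncomputable def ca0_124 : List VW := k8 v1 v144 v417 v421 v151 v427 v160 v442 (k8 v167 v452 v174 v464 v180 v469 v186 v476 (k8 v190 v480 v195 v485 v199 v488 v202 v493 (k8 v205 v496 v207 v212 v214 v218 v220 v224 (k8 v226 v228 v230 v232 v233 v235 v237 v239 (k8 v241 v243 v245 v247 v249 v251 v252 v254 (k1 v255 (k1 v256 (k1 v257 (k1 v259 (k1 v260 (k1 v261 (k1 v604 (k0)))))))))))))
noncomputable def ca0_125 : List VW := k8 v1 v144 v417 v419 v149 v427 v160 v441 (k8 v167 v452 v174 v464 v180 v469 v186 v476 (k8 v190 v480 v195 v485 v199 v488 v202 v493 (k8 v205 v496 v207 v212 v214 v218 v220 v224 (k8 v226 v228 v230 v232 v233 v235 v237 v239 (k8 v241 v243 v245 v247 v249 v251 v252 v254 (k1 v255 (k1 v256 (k1 v257 (k1 v259 (k1 v603 (k0)))))))))))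
noncomputable def ca0_126 : List VW := k8 v1 v144 v417 v418 v149 v427 v160 v441 (k8 v167 v452 v174 v464 v180 v469 v186 v476 (k8 v190 v480 v195 v485 v199 v488 v202 v493 (k8 v205 v496 v207 v212 v214 v218 v220 v224 (k8 v226 v228 v230 v231 v233 v235 v237 v239 (k8 v241 v243 v245 v247 v249 v251 v252 v254 (k1 v601 (k0)))))))
noncomputable def ca0_127 : List VW := k8 v1 v144 v418 v149 v155 v160 v441 v586 (k0)
noncomputable def ca0_128 : List VW := k8 v1 v144 v417 v422 v149 v433 v426 v160 (k8 v443 v167 v453 v174 v464 v180 v470 v186 (k8 v476 v190 v480 v195 v485 v199 v488 v202 (k8 v493 v205 v496 v207 v502 v211 v214 v218 (k8 v220 v224 v226 v228 v230 v231 v233 v235 (k8 v237 v239 v241 v243 v245 v247 v249 v251 (k1 v252 (k1 v254 (k1 v255 (k1 v256 (k1 v257 (k1 v259 (k1 v603 (k0)))))))))))))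
noncomputable def ca0_129 : List VW := k8 v1 v144 v417 v422 v149 v433 v426 v160 (k8 v443 v167 v453 v174 v464 v180 v470 v186 (k8 v476 v190 v480 v195 v485 v199 v488 v202 (k8 v493 v205 v496 v207 v502 v211 v214 v218 (k8 v220 v224 v226 v228 v230 v231 v233 v235 (k8 v237 v239 v241 v243 v245 v247 v249 v251 (k8 v252 v254 v255 v256 v257 v259 v260 v261 (k1 v604 (k0))))))))
noncomputable def ca0_130 : List VW := k8 v1 v144 v417 v422 v149 v433 v426 v160 (k8 v442 v167 v452 v174 v464 v180 v470 v186 (k8 v476 v190 v480 v195 v485 v199 v488 v202 (k8 v493 v205 v496 v504 v212 v214 v218 v220 (k8 v224 v226 v228 v230 v231 v233 v235 v237 (k8 v239 v241 v243 v245 v247 v249 v251 v252 (k1 v254 (k1 v255 (k1 v256 (k1 v602 (k0))))))))))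
noncomputable def ca0_131 : List VW := k8 v1 v144 v417 v421 v151 v427 v160 v442 (k8 v167 v452 v174 v464 v180 v470 v186 v476 (k8 v190 v480 v195 v485 v199 v488 v202 v493 (k8 v205 v496 v207 v212 v214 v218 v220 v224 (k8 v226 v228 v230 v231 v233 v235 v237 v239 (k8 v241 v243 v245 v247 v249 v251 v252 v254 (k1 v601 (k0)))))))
noncomputable def ca0_132 : List VW := k8 v1 v144 v423 v418 v149 v433 v426 v160 (k8 v443 v169 v453 v174 v464 v180 v470 v186 (k8 v476 v190 v481 v195 v485 v199 v488 v202 (k8 v493 v205 v496 v207 v502 v211 v214 v511 (k8 v217 v220 v224 v225 v228 v230 v231 v233 (k8 v235 v237 v239 v241 v243 v245 v247 v249 (k1 v251 (k1 v252 (k1 v254 (k1 v255 (k1 v256 (k1 v602 (k0))))))))))))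
noncomputable def ca0_133 : List VW := k8 v1 v144 v423 v418 v149 v433 v426 v160 (k8 v443 v167 v460 v452 v174 v464 v180 v470 (k8 v186 v476 v190 v481 v195 v485 v199 v488 (k8 v202 v493 v205 v496 v207 v502 v211 v214 (k8 v511 v217 v220 v224 v225 v228 v230 v231 (k8 v233 v235 v237 v239 v241 v243 v245 v247 (k8 v249 v251 v252 v254 v255 v256 v257 v259 (k1 v260 (k1 v261 (k1 v604 (k0))))))))))
noncomputable def ca0_134 : List VW := k8 v1 v144 v423 v418 v149 v433 v426 v160 (k8 v443 v167 v460 v452 v174 v464 v180 v470 (k8 v186 v476 v190 v480 v195 v485 v199 v488 (k8 v202 v493 v205 v496 v207 v502 v211 v214 (k8 v511 v217 v220 v224 v225 v228 v230 v231 (k8 v233 v235 v237 v239 v241 v243 v245 v247 (k8 v249 v251 v252 v254 v255 v256 v257 v259 (k1 v260 (k1 v261 (k1 v604 (k0))))))))))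
noncomputable def ca0_135 : List VW := k8 v1 v144 v423 v418 v149 v433 v426 v160 (k8 v443 v169 v453 v174 v464 v180 v470 v186 (k8 v476 v190 v480 v195 v485 v199 v488 v202 (k8 v493 v205 v496 v207 v502 v211 v214 v511 (k8 v217 v220 v224 v225 v228 v230 v231 v233 (k8 v235 v237 v239 v241 v243 v245 v247 v249 (k8 v251 v252 v254 v255 v256 v257 v259 v603 (k0)))))))
noncomputable def ca0_136 : List VW := k8 v1 v144 v423 v418 v149 v433 v426 v160 (k8 v443 v169 v453 v174 v464 v180 v470 v186 (k8 v476 v190 v480 v195 v485 v199 v488 v202 (k8 v493 v205 v496 v207 v502 v211 v214 v511 (k8 v217 v220 v224 v225 v228 v230 v231 v233 (k8 v235 v237 v239 v241 v243 v245 v247 v249 (k1 v251 (k1 v252 (k1 v254 (k1 v255 (k1 v256 (k1 v602 (k0))))))))))))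
noncomputable def ca0_137 : List VW := k8 v1 v144 v417 v422 v149 v433 v426 v160 (k8 v443 v167 v453 v174 v464 v180 v470 v186 (k8 v476 v190 v480 v195 v485 v199 v488 v202 (k8 v493 v205 v496 v207 v502 v211 v214 v218 (k8 v220 v224 v226 v228 v230 v232 v233 v235 (k8 v237 v239 v241 v243 v245 v247 v249 v251 (k8 v252 v254 v255 v256 v257 v259 v260 v261 (k1 v604 (k0))))))))
noncomputable def ca0_138 : List VW := k8 v1 v147 v423 v0 v149 v433 v426 v161 (k8 v444 v167 v460 v452 v174 v464 v180 v470 (k8 v186 v476 v190 v481 v195 v485 v199 v489 (k8 v202 v493 v205 v496 v207 v502 v211 v213 (k8 v511 v217 v219 v518 v223 v225 v524 v228 (k8 v230 v528 v231 v233 v235 v237 v239 v241 (k8 v243 v245 v247 v249 v251 v252 v254 v255 (k1 v256 (k1 v602 (k0)))))))))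
noncomputable def ca0_139 : List VW := k8 v1 v147 v423 v418 v149 v433 v426 v161 (k8 v444 v167 v460 v452 v174 v464 v180 v470 (k8 v186 v476 v190 v481 v195 v485 v199 v489 (k8 v202 v493 v205 v496 v207 v502 v211 v213 (k8 v511 v217 v220 v518 v223 v225 v524 v228 (k8 v230 v528 v231 v233 v235 v237 v239 v241 (k8 v243 v245 v247 v249 v251 v252 v254 v255 (k1 v256 (k1 v257 (k1 v259 (k1 v260 (k1 v261 (k1 v604 (k0)))))))))))))
noncomputable def ca0_140 : List VW := k8 v1 v147 v423 v418 v149 v433 v426 v161 (k8 v444 v167 v460 v452 v174 v464 v180 v470 (k8 v186 v476 v190 v481 v195 v485 v199 v489 (k8 v202 v493 v205 v496 v207 v502 v211 v213 (k8 v511 v217 v219 v518 v223 v225 v524 v228 (k8 v230 v231 v233 v235 v237 v239 v241 v243 (k8 v245 v247 v249 v251 v252 v254 v255 v256 (k1 v257 (k1 v259 (k1 v260 (k1 v261 (k1 v604 (k0))))))))))))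
noncomputable def ca0_141 : List VW := k8 v1 v147 v423 v418 v149 v433 v426 v161 (k8 v444 v167 v460 v452 v174 v464 v180 v470 (k8 v186 v476 v190 v481 v195 v485 v199 v489 (k8 v202 v493 v205 v496 v207 v502 v211 v213 (k8 v511 v217 v220 v518 v223 v225 v524 v228 (k8 v230 v231 v233 v235 v237 v239 v241 v243 (k8 v245 v247 v249 v251 v252 v254 v255 v256 (k1 v257 (k1 v259 (k1 v260 (k1 v261 (k1 v604 (k0))))))))))))
noncomputable def ca0_142 : List VW := k8 v1 v147 v423 v418 v149 v433 v426 v161 (k8 v444 v167 v460 v452 v174 v464 v180 v470 (k8 v186 v476 v190 v481 v195 v485 v199 v488 (k8 v202 v493 v205 v496 v207 v502 v211 v213 (k8 v511 v217 v220 v518 v223 v225 v228 v230 (k8 v231 v233 v235 v237 v239 v241 v243 v245 (k8 v247 v249 v251 v252 v254 v255 v256 v257 (k1 v259 (k1 v260 (k1 v261 (k1 v604 (k0)))))))))))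
noncomputable def ca0_143 : List VW := k8 v1 v144 v423 v418 v149 v433 v426 v160 (k8 v444 v167 v460 v452 v174 v464 v180 v470 (k8 v186 v476 v190 v481 v195 v485 v199 v488 (k8 v202 v493 v205 v496 v207 v502 v211 v213 (k8 v511 v217 v220 v518 v223 v225 v228 v230 (k8 v231 v233 v235 v237 v239 v241 v243 v245 (k8 v247 v249 v251 v252 v254 v255 v256 v257 (k1 v259 (k1 v603 (k0)))))))))
noncomputable def ca0_144 : List VW := k8 v1 v147 v423 v418 v149 v433 v426 v160 (k8 v444 v167 v460 v452 v174 v464 v180 v470 (k8 v186 v476 v190 v481 v195 v485 v199 v488 (k8 v202 v493 v205 v496 v207 v502 v211 v214 (k8 v511 v217 v220 v518 v223 v225 v228 v230 (k8 v231 v233 v235 v237 v239 v241 v243 v245 (k8 v247 v249 v251 v252 v254 v255 v256 v257 (k1 v259 (k1 v260 (k1 v261 (k1 v604 (k0)))))))))))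
noncomputable def ca0_145 : List VW := k8 v1 v144 v423 v418 v149 v433 v426 v160 (k8 v443 v169 v453 v174 v464 v180 v470 v186 (k8 v476 v190 v481 v195 v485 v199 v488 v202 (k8 v493 v205 v496 v207 v502 v211 v213 v511 (k8 v217 v220 v518 v223 v225 v228 v230 v231 (k8 v233 v235 v237 v239 v241 v243 v245 v247 (k1 v249 (k1 v251 (k1 v600 (k0)))))))))
noncomputable def ca0_146 : List VW := k8 v1 v144 v417 v422 v149 v433 v156 v162 (k8 v441 v167 v452 v174 v464 v180 v185 v186 (k8 v476 v190 v194 v195 v200 v203 v493 v205 (k1 v207 (k1 v502 (k1 v211 (k1 v213 (k1 v217 (k1 v592 (k0)))))))))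
noncomputable def ca0_147 : List VW := k8 v277 v147 v274 v279 v149 v433 v292 v157 (k8 v160 v306 v167 v328 v35 v326 v42 v174 (k8 v464 v182 v473 v59 v186 v476 v192 v71 (k8 v195 v485 v199 v79 v202 v493 v205 v208 (k8 v502 v211 v213 v511 v217 v219 v518 v106 (k8 v225 v524 v228 v230 v528 v114 v233 v531 (k8 v235 v237 v536 v239 v241 v541 v243 v245 (k1 v544 (k1 v249 (k1 v546 (k1 v252 (k1 v254 (k1 v553 (k1 v602 (k0))))))))))))))
noncomputable def ca0_148 : List VW := k8 v277 v147 v274 v279 v149 v433 v292 v158 (k8 v161 v306 v167 v462 v35 v326 v42 v174 (k8 v464 v182 v473 v184 v186 v476 v192 v71 (k8 v195 v485 v199 v79 v202 v493 v205 v86 (k8 v207 v502 v211 v213 v511 v217 v219 v518 (k8 v223 v225 v524 v228 v230 v528 v529 v531 (k8 v532 v536 v538 v541 v543 v544 v249 v546 (k1 v252 (k1 v254 (k1 v255 (k1 v554 (k1 v556 (k1 v603 (k0)))))))))))))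
noncomputable def ca0_149 : List VW := k8 v276 v144 v274 v283 v149 v433 v291 v158 (k8 v160 v311 v317 v168 v462 v326 v170 v174 (k8 v464 v182 v473 v184 v186 v476 v190 v71 (k8 v195 v485 v199 v79 v202 v493 v205 v86 (k8 v208 v502 v211 v213 v511 v217 v219 v518 (k8 v223 v225 v524 v228 v230 v528 v529 v531 (k8 v532 v536 v538 v541 v543 v544 v545 v546 (k1 v252 (k1 v254 (k1 v255 (k1 v256 (k1 v257 (k1 v259 (k1 v603 (k0))))))))))))))
noncomputable def ca0_150 : List VW := k8 v276 v144 v274 v423 v0 v149 v433 v559 (k8 v157 v160 v311 v441 v167 v460 v452 v174 (k8 v464 v182 v470 v186 v476 v190 v194 v195 (k8 v485 v199 v79 v203 v493 v205 v497 v207 (k8 v502 v211 v213 v511 v217 v219 v518 v223 (k8 v225 v524 v228 v230 v528 v529 v531 v532 (k8 v536 v538 v541 v543 v544 v545 v546 v252 (k1 v254 (k1 v255 (k1 v256 (k1 v257 (k1 v259 (k1 v603 (k0)))))))))))))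
noncomputable def ca0_151 : List VW := k8 v1 v144 v274 v423 v0 v149 v433 v559 (k8 v158 v160 v446 v441 v167 v460 v452 v174 (k8 v464 v182 v470 v186 v476 v190 v481 v195 (k8 v485 v199 v489 v202 v493 v205 v497 v207 (k8 v502 v211 v213 v511 v217 v219 v518 v223 (k8 v225 v524 v228 v230 v528 v231 v233 v531 (k8 v532 v536 v538 v541 v543 v544 v545 v546 (k8 v252 v254 v255 v256 v257 v259 v260 v261 (k1 v604 (k0)))))))))
noncomputable def ca0_152 : List VW := k8 v1 v144 v274 v423 v0 v149 v433 v426 (k8 v160 v446 v441 v167 v460 v452 v174 v464 (k8 v180 v470 v186 v476 v190 v481 v195 v485 (k8 v199 v489 v202 v493 v205 v497 v207 v502 (k8 v211 v213 v511 v217 v219 v518 v223 v225 (k8 v524 v228 v230 v528 v231 v233 v531 v532 (k8 v536 v239 v241 v541 v543 v544 v545 v546 (k8 v252 v254 v255 v256 v257 v259 v260 v261 (k1 v604 (k0)))))))))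
noncomputable def ca0_153 : List VW := k8 v1 v144 v274 v423 v0 v149 v433 v426 (k8 v160 v446 v441 v167 v460 v452 v174 v464 (k8 v180 v470 v186 v476 v190 v481 v195 v485 (k8 v199 v489 v202 v493 v205 v497 v207 v502 (k8 v211 v213 v511 v217 v219 v518 v223 v225 (k8 v524 v228 v230 v528 v231 v233 v531 v532 (k8 v536 v239 v241 v243 v245 v247 v249 v251 (k8 v252 v254 v255 v256 v257 v259 v260 v261 (k1 v604 (k0)))))))))
noncomputable def ca0_154 : List VW := k8 v1 v144 v274 v423 v0 v149 v433 v426 (k8 v160 v446 v441 v167 v460 v452 v174 v464 (k8 v180 v470 v186 v476 v190 v481 v195 v485 (k8 v199 v489 v202 v493 v205 v497 v207 v502 (k8 v211 v213 v511 v217 v219 v518 v223 v225 (k8 v524 v228 v230 v528 v231 v233 v235 v237 (k8 v239 v241 v243 v245 v247 v249 v251 v252 (k8 v254 v255 v256 v257 v259 v260 v261 v604 (k0))))))))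
noncomputable def ca0_155 : List VW := k8 v1 v147 v423 v0 v149 v433 v426 v161 (k8 v444 v167 v460 v452 v174 v464 v180 v470 (k8 v186 v476 v190 v194 v195 v485 v199 v489 (k8 v202 v493 v205 v208 v502 v211 v213 v511 (k8 v217 v219 v518 v223 v225 v524 v228 v230 (k8 v528 v529 v531 v532 v536 v538 v541 v542 (k1 v544 (k1 v599 (k0))))))))
noncomputable def ca0_156 : List VW := k8 v1 v147 v423 v0 v149 v433 v158 v160 (k8 v443 v167 v452 v174 v464 v180 v185 v186 (k8 v476 v190 v194 v195 v200 v203 v493 v205 (k8 v208 v502 v211 v213 v511 v217 v219 v518 (k1 v593 (k0)))))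
noncomputable def ca0_157 : List VW := k8 v3 v275 v289 v13 v304 v15 v21 v319 (k1 v31 (k1 v42 (k1 v56 (k1 v567 (k0)))))
noncomputable def ca0_158 : List VW := k8 v3 v147 v275 v0 v2 v12 v429 v15 (k8 v21 v23 v316 v265 v30 v459 v43 v341 (k8 v266 v54 v58 v59 v355 v268 v66 v71 (k8 v367 v75 v79 v375 v84 v86 v88 v93 (k1 v94 (k1 v389 (k1 v572 (k0)))))))
noncomputable def ca0_159 : List VW := k8 v3 v144 v275 v0 v2 v297 v294 v21 (k8 v160 v308 v265 v28 v165 v330 v42 v339 (k8 v266 v52 v346 v59 v353 v268 v64 v69 (k8 v71 v365 v73 v79 v373 v82 v86 v87 (k8 v91 v94 v213 v510 v99 v100 v104 v106 (k1 v107 (k1 v574 (k0)))))))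
noncomputable def ca0_160 : List VW := k8 v3 v144 v275 v0 v2 v11 v429 v15 (k8 v21 v160 v308 v264 v28 v165 v330 v44 (k8 v339 v266 v52 v346 v59 v353 v267 v64 (k8 v69 v71 v195 v484 v198 v79 v202 v492 (k8 v82 v86 v382 v91 v94 v213 v510 v99 (k8 v100 v104 v106 v107 v108 v111 v230 v112 (k8 v114 v233 v119 v237 v125 v241 v128 v129 (k1 v132 (k1 v249 (k1 v580 (k0))))))))))
noncomputable def ca0_161 : List VW := k8 v3 v144 v275 v280 v2 v10 v429 v15 (k8 v22 v160 v307 v264 v27 v165 v329 v42 (k8 v174 v338 v266 v51 v472 v59 v186 v62 (k8 v475 v63 v189 v71 v195 v484 v198 v78 (k8 v202 v492 v377 v86 v87 v501 v210 v213 (k8 v510 v99 v100 v103 v106 v107 v108 v111 (k8 v230 v112 v114 v233 v119 v237 v125 v241 (k8 v128 v245 v132 v249 v134 v135 v136 v552 (k1 v140 (k1 v142 (k1 v260 (k1 v143 (k1 v262 (k1 v585 (k0))))))))))))))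
noncomputable def ca0_162 : List VW := k8 v3 v144 v275 v280 v2 v10 v429 v15 (k8 v22 v160 v307 v264 v27 v165 v329 v42 (k8 v178 v463 v51 v472 v59 v186 v475 v63 (k8 v189 v71 v195 v484 v198 v78 v202 v492 (k8 v204 v86 v207 v501 v210 v213 v510 v99 (k8 v100 v517 v106 v107 v523 v111 v230 v112 (k8 v114 v115 v116 v119 v120 v122 v125 v241 (k8 v128 v245 v132 v249 v134 v135 v136 v137 (k1 v139 (k1 v140 (k1 v555 (k1 v260 (k1 v143 (k1 v604 (k0))))))))))))))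
noncomputable def ca0_163 : List VW := k8 v4 v144 v275 v285 v2 v10 v429 v15 (k8 v290 v160 v307 v264 v27 v165 v329 v42 (k8 v178 v463 v51 v179 v58 v59 v186 v475 (k8 v63 v189 v71 v195 v484 v198 v79 v202 (k8 v492 v204 v86 v207 v501 v210 v213 v510 (k8 v99 v219 v517 v106 v225 v523 v111 v230 (k8 v112 v114 v115 v530 v119 v121 v536 v125 (k8 v241 v126 v128 v245 v132 v249 v134 v135 (k8 v548 v255 v139 v140 v555 v260 v143 v604 (k0)))))))))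
noncomputable def ca0_164 : List VW := k8 v4 v144 v275 v274 v0 v149 v433 v293 (k8 v157 v160 v307 v167 v329 v43 v174 v338 (k8 v182 v58 v183 v186 v352 v192 v71 v195 (k8 v364 v200 v79 v202 v493 v205 v86 v207 (k8 v502 v211 v213 v511 v99 v219 v518 v106 (k8 v225 v524 v111 v230 v528 v114 v233 v531 (k8 v119 v237 v536 v125 v241 v541 v128 v245 (k8 v132 v249 v134 v252 v136 v255 v139 v602 (k0))))))))
noncomputable def ca0_165 : List VW := k8 v278 v147 v274 v280 v149 v433 v293 v157 (k8 v160 v307 v167 v329 v35 v170 v174 v338 (k8 v182 v473 v59 v186 v476 v192 v71 v195 (k8 v485 v199 v79 v202 v493 v205 v86 v207 (k8 v502 v211 v213 v511 v217 v219 v518 v223 (k8 v225 v524 v111 v230 v528 v114 v233 v531 (k8 v119 v237 v536 v239 v241 v541 v243 v245 (k8 v544 v247 v249 v134 v252 v136 v255 v553 (k1 v257 (k1 v556 (k1 v603 (k0)))))))))))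
noncomputable def ca0_166 : List VW := k8 v277 v144 v274 v0 v149 v433 v292 v157 (k8 v160 v306 v167 v328 v171 v174 v337 v182 (k8 v473 v59 v186 v476 v190 v71 v195 v485 (k8 v199 v203 v493 v205 v207 v502 v211 v213 (k8 v511 v99 v219 v518 v106 v225 v524 v111 (k1 v230 (k1 v528 (k1 v233 (k1 v531 (k1 v596 (k0))))))))))
noncomputable def ca0_167 : List VW := k8 v276 v144 v274 v283 v149 v433 v291 v157 (k8 v160 v446 v305 v167 v462 v173 v174 v464 (k8 v182 v473 v183 v187 v476 v190 v194 v195 (k8 v485 v199 v203 v493 v205 v208 v502 v211 (k8 v213 v511 v217 v219 v518 v223 v225 v524 (k1 v525 (k1 v528 (k1 v595 (k0))))))))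
noncomputable def ca0_168 : List VW := k8 v3 v275 v9 v13 v304 v15 v21 v319 (k1 v31 (k1 v45 (k1 v56 (k1 v567 (k0)))))
noncomputable def ca0_169 : List VW := k8 v3 v275 v0 v2 v299 v15 v21 v310 (k1 v30 (k1 v43 (k1 v341 (k1 v54 (k1 v59 (k1 v355 (k1 v568 (k0))))))))
noncomputable def ca0_170 : List VW := k8 v144 v275 v0 v2 v148 v294 v21 v318 (k8 v28 v35 v42 v339 v52 v59 v475 v568 (k0))
noncomputable def ca0_171 : List VW := k8 v3 v144 v275 v0 v263 v11 v297 v294 (k8 v21 v161 v442 v28 v330 v42 v174 v464 (k8 v348 v59 v353 v64 v71 v365 v73 v79 (k1 v373 (k1 v570 (k0)))))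
noncomputable def ca0_172 : List VW := k8 v3 v144 v274 v0 v149 v433 v153 v160 (k8 v307 v167 v329 v175 v49 v182 v58 v187 (k1 v192 (k1 v71 (k1 v485 (k1 v589 (k0))))))

noncomputable def a0_0 : T5 :=
  (.nd 2 1101 .lw
  (.lf ⟨⟨0, 0, 0, 11625, 256, 10, 7⟩, 0, 0, 0, 0, [h5, h0 5866], 17, ca0_0, 0, 0⟩))

noncomputable def a0_1 : T5 :=
  (.nd 2 901 .lw
  (.lf ⟨⟨0, 0, 0, 5812, 256, 19, 13⟩, 0, 0, 0, 0, [h5, h0 5848, f7], 24, ca0_1, 0, 0⟩))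

noncomputable def a0_2 : T5 :=
  (.nd 2 701 .lw
  (.lf ⟨⟨0, 0, 0, 2906, 256, 38, 25⟩, 0, 0, 0, 0, [h5, h0 5810], 17, ca0_0, 0, 0⟩))

noncomputable def a0_3 : T5 :=
  (.nd 2 501 .lw
  (.lf ⟨⟨0, 0, 0, 1453, 256, 74, 47⟩, 0, 0, 0, 0, [h5, h0 5738], 17, ca0_0, 0, 0⟩))

noncomputable def a0_4 : T5 :=
  (.nd 2 301 .lw
  (.lf ⟨⟨0, 0, 0, 726, 256, 141, 88⟩, 0, 0, 0, 0, [h5, h0 5604], 12, ca0_1, 0, 0⟩))

noncomputable def a0_5 : T5 :=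
  (.nd 2 101 .lw
  (.lf ⟨⟨0, 0, 0, 363, 256, 262, 154⟩, 0, 0, 0, 0, [h5, h0 5362], 12, ca0_2, 0, 0⟩))

noncomputable def a0_6 : T5 :=
  (.lf ⟨⟨0, 0, 0, 256, 256, 351, 200⟩, 0, 0, 0, 0, [h5, h0 5184], 0, ca0_2, 0, 0⟩)

theorem sa0 : SA cs0.st (bxL 0 100) :=
  sa_nd 100 (sa_rc 1 2 0 1 4153 1202 a0_0 (by decide +kernel)) <|
  sa_nd 200 (sa_rc 2 4 0 1 2076 1102 a0_1 (by decide +kernel)) <|
  sa_nd 300 (sa_rc 4 8 0 1 1038 1002 a0_2 (by decide +kernel)) <|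
  sa_nd 400 (sa_rc 8 16 0 1 519 902 a0_3 (by decide +kernel)) <|
  sa_nd 500 (sa_rc 16 32 0 1 259 802 a0_4 (by decide +kernel)) <|
  sa_nd 600 (sa_rc 32 64 0 1 129 702 a0_5 (by decide +kernel)) <|
  sa_no a0_6 (by decide +kernel)

noncomputable def a1_0 : T5 :=
  (.nd 2 1201 .lw
  (.lf ⟨⟨0, 0, 0, 1027, 16, 7, 5⟩, 0, 0, 0, 0, [h5, h0 5872, f11], 26, ca0_3, 0, 0⟩))

noncomputable def a1_1 : T5 :=
  (.nd 2 1001 .lw
  (.lf ⟨⟨0, 0, 0, 8220, 256, 14, 9⟩, 0, 0, 0, 0, [h5, h0 5858, f7], 24, ca0_1, 0, 0⟩))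

noncomputable def a1_2 : T5 :=
  (.nd 2 801 .lw
  (.lf ⟨⟨0, 0, 0, 4110, 256, 27, 18⟩, 0, 0, 0, 0, [h5, h0 5832, f6], 24, ca0_1, 0, 0⟩))

noncomputable def a1_3 : T5 :=
  (.nd 2 601 .lw
  (.lf ⟨⟨0, 0, 0, 2055, 256, 53, 34⟩, 0, 0, 0, 0, [h5, h0 5780], 17, ca0_4, 0, 0⟩))

noncomputable def a1_4 : T5 :=
  (.nd 2 401 .lw
  (.lf ⟨⟨0, 0, 0, 1027, 256, 102, 65⟩, 0, 0, 0, 0, [h5, h0 5682], 12, ca0_5, 0, 0⟩))

noncomputable def a1_5 : T5 :=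
  (.nd 2 201 .lw
  (.lf ⟨⟨0, 0, 0, 513, 256, 193, 117⟩, 0, 0, 0, 0, [h5, h0 5500], 12, ca0_6, 0, 0⟩))

noncomputable def a1_6 : T5 :=
  (.nd 2 99 (.lf ⟨⟨509, 256, 605, 256, 256, 351, 200⟩, 361, 256, 154, 163, [h5, h0 6720], 0, ca0_7, 0, 0⟩)
  (.lf ⟨⟨0, 0, 0, 360, 256, 264, 155⟩, 0, 0, 0, 0, [h5, h0 5358], 0, ca0_8, 0, 0⟩))

theorem sa1 : SA cs1.st (bxL 158 200) :=
  sa_nd 100 (sa_rc 1 2 0 1 8306 1302 a1_0 (by decide +kernel)) <|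
  sa_nd 200 (sa_rc 2 4 0 1 4153 1202 a1_1 (by decide +kernel)) <|
  sa_nd 300 (sa_rc 4 8 0 1 2076 1102 a1_2 (by decide +kernel)) <|
  sa_nd 400 (sa_rc 8 16 0 1 1038 1002 a1_3 (by decide +kernel)) <|
  sa_nd 500 (sa_rc 16 32 0 1 519 902 a1_4 (by decide +kernel)) <|
  sa_nd 600 (sa_rc 32 64 0 1 259 802 a1_5 (by decide +kernel)) <|
  sa_no a1_6 (by decide +kernel)

noncomputable def a2_0 : T5 :=
  (.nd 2 1282 .lw
  (.lf ⟨⟨0, 0, 0, 1360, 16, 6, 4⟩, 0, 0, 0, 0, [h5, h0 5874, f8], 26, ca0_9, 0, 0⟩))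

noncomputable def a2_1 : T5 :=
  (.nd 2 1082 .lw
  (.lf ⟨⟨0, 0, 0, 10884, 256, 11, 7⟩, 0, 0, 0, 0, [h5, h0 5864, f11], 26, ca0_10, 0, 0⟩))

noncomputable def a2_2 : T5 :=
  (.nd 2 999 .lw
  (.lf ⟨⟨0, 0, 0, 8163, 256, 14, 9⟩, 0, 0, 0, 0, [h5, h0 5858, f7], 24, ca0_5, 0, 0⟩))

noncomputable def a2_3 : T5 :=
  (.nd 2 799 .lw
  (.lf ⟨⟨0, 0, 0, 4081, 256, 27, 18⟩, 0, 0, 0, 0, [h5, h0 5832], 17, ca0_4, 0, 0⟩))

noncomputable def a2_4 : T5 :=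
  (.nd 2 599 .lw
  (.lf ⟨⟨0, 0, 0, 2040, 256, 53, 35⟩, 0, 0, 0, 0, [h5, h0 5780], 17, ca0_4, 0, 0⟩))

noncomputable def a2_5 : T5 :=
  (.nd 2 399 .lw
  (.lf ⟨⟨0, 0, 0, 1020, 256, 103, 65⟩, 0, 0, 0, 0, [h5, h0 5680], 12, ca0_11, 0, 0⟩))

noncomputable def a2_6 : T5 :=
  (.nd 2 199 .lw
  (.nd 2 200 (.lf ⟨⟨1024, 256, 249, 510, 256, 194, 118⟩, 512, 256, 116, 101, [h5, h0 6198], 17, ca0_12, 0, 0⟩)
  (.nd 2 300 (.lf ⟨⟨2048, 256, 115, 512, 256, 194, 117⟩, 725, 256, 87, 61, [h5, h0 5850], 17, ca0_13, 0, 0⟩)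
  (.lf ⟨⟨0, 0, 0, 724, 256, 141, 88⟩, 0, 0, 0, 0, [h5, h0 5604], 0, ca0_14, 0, 0⟩))))

noncomputable def a2_7 : T5 :=
  (.nd 2 99 (.lf ⟨⟨509, 256, 605, 256, 256, 351, 200⟩, 361, 256, 154, 163, [h5, h0 6720], 0, ca0_15, 0, 0⟩)
  (.lf ⟨⟨0, 0, 0, 360, 256, 264, 155⟩, 0, 0, 0, 0, [h5, h0 5358], 0, ca0_8, 0, 0⟩))

theorem sa2 : SA cs2.st (bxL 232 281) :=
  sa_nd 100 (sa_rc 1 2 0 1 14562 1383 a2_0 (by decide +kernel)) <|
  sa_nd 141 (sa_rc 2 2 0 1 4837 1224 a2_1 (by decide +kernel)) <|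
  sa_nd 241 (sa_rc 3 5 0 1 5442 1241 a2_2 (by decide +kernel)) <|
  sa_nd 341 (sa_rc 6 10 0 1 2721 1141 a2_3 (by decide +kernel)) <|
  sa_nd 441 (sa_rc 11 21 0 1 1360 1041 a2_4 (by decide +kernel)) <|
  sa_nd 541 (sa_rc 22 42 0 1 680 941 a2_5 (by decide +kernel)) <|
  sa_nd 641 (sa_rc 43 85 0 1 340 841 a2_6 (by decide +kernel)) <|
  sa_no a2_7 (by decide +kernel)

noncomputable def a3_0 : T5 :=
  (.nd 2 1347 .lw
  (.lf ⟨⟨0, 0, 0, 1704, 16, 5, 3⟩, 0, 0, 0, 0, [h5, h0 5876, f8], 26, ca0_10, 0, 0⟩))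

noncomputable def a3_1 : T5 :=
  (.nd 2 1147 .lw
  (.lf ⟨⟨0, 0, 0, 13634, 256, 9, 6⟩, 0, 0, 0, 0, [h5, h0 5868, f11], 26, ca0_16, 0, 0⟩))

noncomputable def a3_2 : T5 :=
  (.nd 2 1000 .lw
  (.lf ⟨⟨0, 0, 0, 8192, 256, 14, 9⟩, 0, 0, 0, 0, [h5, h0 5858, f7], 24, ca0_17, 0, 0⟩))

noncomputable def a3_3 : T5 :=
  (.nd 2 800 .lw
  (.lf ⟨⟨0, 0, 0, 4096, 256, 27, 18⟩, 0, 0, 0, 0, [h5, h0 5832], 17, ca0_18, 0, 0⟩))

noncomputable def a3_4 : T5 :=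
  (.nd 2 600 .lw
  (.lf ⟨⟨0, 0, 0, 2048, 256, 53, 34⟩, 0, 0, 0, 0, [h5, h0 5780], 17, ca0_18, 0, 0⟩))

noncomputable def a3_5 : T5 :=
  (.nd 2 400 .lw
  (.lf ⟨⟨0, 0, 0, 1024, 256, 102, 65⟩, 0, 0, 0, 0, [h5, h0 5682], 12, ca0_19, 0, 0⟩))

noncomputable def a3_6 : T5 :=
  (.nd 2 200 .lw
  (.nd 2 300 (.lf ⟨⟨2048, 256, 115, 512, 256, 194, 117⟩, 725, 256, 87, 61, [h5, h0 5850], 17, ca0_20, 0, 0⟩)
  (.lf ⟨⟨0, 0, 0, 724, 256, 141, 88⟩, 0, 0, 0, 0, [h5, h0 5604], 12, ca0_19, 0, 0⟩)))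

noncomputable def a3_7 : T5 :=
  (.nd 2 99 (.lf ⟨⟨509, 256, 605, 256, 256, 351, 200⟩, 361, 256, 154, 163, [h5, h0 6720], 0, ca0_15, 0, 0⟩)
  (.lf ⟨⟨0, 0, 0, 360, 256, 264, 155⟩, 0, 0, 0, 0, [h5, h0 5358], 0, ca0_21, 0, 0⟩))

theorem sa3 : SA cs3.st (bxL 300 346) :=
  sa_nd 100 (sa_rc 1 2 0 1 22851 1448 a3_0 (by decide +kernel)) <|
  sa_nd 173 (sa_rc 2 3 0 1 9475 1321 a3_1 (by decide +kernel)) <|
  sa_nd 273 (sa_rc 4 6 0 1 6841 1274 a3_2 (by decide +kernel)) <|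
  sa_nd 373 (sa_rc 7 13 0 1 3420 1174 a3_3 (by decide +kernel)) <|
  sa_nd 473 (sa_rc 14 26 0 1 1710 1074 a3_4 (by decide +kernel)) <|
  sa_nd 573 (sa_rc 27 53 0 1 855 974 a3_5 (by decide +kernel)) <|
  sa_nd 673 (sa_rc 54 106 0 1 427 874 a3_6 (by decide +kernel)) <|
  sa_no a3_7 (by decide +kernel)

noncomputable def a4_0 : T5 :=
  (.nd 2 1401 .lw
  (.lf ⟨⟨0, 0, 0, 2055, 16, 4, 3⟩, 0, 0, 0, 0, [h5, h0 5878], 17, ca0_22, 0, 0⟩))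

noncomputable def a4_1 : T5 :=
  (.nd 2 1201 .lw
  (.lf ⟨⟨0, 0, 0, 1027, 16, 7, 5⟩, 0, 0, 0, 0, [h5, h0 5872], 17, ca0_22, 0, 0⟩))

noncomputable def a4_2 : T5 :=
  (.nd 2 1001 .lw
  (.lf ⟨⟨0, 0, 0, 8220, 256, 14, 9⟩, 0, 0, 0, 0, [h5, h0 5858], 17, ca0_23, 0, 0⟩))

noncomputable def a4_3 : T5 :=
  (.nd 2 801 .lw
  (.lf ⟨⟨0, 0, 0, 4110, 256, 27, 18⟩, 0, 0, 0, 0, [h5, h0 5832], 17, ca0_24, 0, 0⟩))

noncomputable def a4_4 : T5 :=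
  (.nd 2 601 .lw
  (.lf ⟨⟨0, 0, 0, 2055, 256, 53, 34⟩, 0, 0, 0, 0, [h5, h0 5780], 17, ca0_25, 0, 0⟩))

noncomputable def a4_5 : T5 :=
  (.nd 2 401 .lw
  (.lf ⟨⟨0, 0, 0, 1027, 256, 102, 65⟩, 0, 0, 0, 0, [h5, h0 5682], 12, ca0_26, 0, 0⟩))

noncomputable def a4_6 : T5 :=
  (.nd 2 201 .lw
  (.nd 2 300 (.lf ⟨⟨2048, 256, 115, 513, 256, 193, 117⟩, 725, 256, 87, 61, [h5, h0 5852], 17, ca0_27, 0, 0⟩)
  (.lf ⟨⟨0, 0, 0, 724, 256, 141, 88⟩, 0, 0, 0, 0, [h5, h0 5604], 12, ca0_28, 0, 0⟩)))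

noncomputable def a4_7 : T5 :=
  (.nd 2 99 (.lf ⟨⟨509, 256, 605, 256, 256, 351, 200⟩, 361, 256, 154, 163, [h5, h0 6720], 0, ca0_15, 0, 0⟩)
  (.nd 2 159 (.lf ⟨⟨771, 256, 349, 360, 256, 264, 155⟩, 445, 256, 131, 123, [h5, h0 6302], 0, ca0_29, 0, 0⟩)
  (.nd 2 200 (.lf ⟨⟨1024, 256, 249, 444, 256, 220, 132⟩, 512, 256, 116, 101, [h5, h0 6146], 0, ca0_30, 0, 0⟩)
  (.lf ⟨⟨0, 0, 0, 512, 256, 194, 117⟩, 0, 0, 0, 0, [h5, h0 5498], 0, ca0_31, 0, 0⟩))))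

theorem sa4 : SA cs4.st (bxL 358 400) :=
  sa_nd 100 (sa_rc 1 2 0 1 33225 1502 a4_0 (by decide +kernel)) <|
  sa_nd 200 (sa_rc 2 4 0 1 16612 1402 a4_1 (by decide +kernel)) <|
  sa_nd 300 (sa_rc 4 8 0 1 8306 1302 a4_2 (by decide +kernel)) <|
  sa_nd 400 (sa_rc 8 16 0 1 4153 1202 a4_3 (by decide +kernel)) <|
  sa_nd 500 (sa_rc 16 32 0 1 2076 1102 a4_4 (by decide +kernel)) <|
  sa_nd 600 (sa_rc 32 64 0 1 1038 1002 a4_5 (by decide +kernel)) <|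
  sa_nd 700 (sa_rc 64 128 0 1 519 902 a4_6 (by decide +kernel)) <|
  sa_no a4_7 (by decide +kernel)

noncomputable def a5_0 : T5 :=
  (.nd 2 1454 .lw
  (.lf ⟨⟨0, 0, 0, 2469, 16, 3, 2⟩, 0, 0, 0, 0, [h5, h0 5880], 17, ca0_32, 0, 0⟩))

noncomputable def a5_1 : T5 :=
  (.nd 2 1253 .lw
  (.lf ⟨⟨0, 0, 0, 1230, 16, 6, 4⟩, 0, 0, 0, 0, [h5, h0 5874], 17, ca0_33, 0, 0⟩))

noncomputable def a5_2 : T5 :=
  (.nd 2 999 .lw
  (.lf ⟨⟨0, 0, 0, 8163, 256, 14, 9⟩, 0, 0, 0, 0, [h5, h0 5858], 17, ca0_34, 0, 0⟩))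

noncomputable def a5_3 : T5 :=
  (.nd 2 799 .lw
  (.lf ⟨⟨0, 0, 0, 4081, 256, 27, 18⟩, 0, 0, 0, 0, [h5, h0 5832], 17, ca0_35, 0, 0⟩))

noncomputable def a5_4 : T5 :=
  (.nd 2 599 .lw
  (.nd 2 600 (.lf ⟨⟨16384, 256, 13, 2040, 256, 53, 35⟩, 2048, 256, 33, 10, [h5, h0 5826], 17, ca0_36, 0, 0⟩)
  (.nd 2 700 (.lf ⟨⟨32768, 256, 6, 2048, 256, 53, 34⟩, 2897, 256, 24, 5, [h5, h0 5802], 17, ca0_37, 0, 0⟩)
  (.lf ⟨⟨0, 0, 0, 2896, 256, 38, 25⟩, 0, 0, 0, 0, [h5, h0 5810], 0, ca0_38, 0, 0⟩))))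

noncomputable def a5_5 : T5 :=
  (.nd 2 399 .lw
  (.nd 2 500 (.lf ⟨⟨8192, 256, 27, 1020, 256, 103, 65⟩, 1449, 256, 46, 19, [h5, h0 5772], 22, ca0_39, 0, 0⟩)
  (.nd 2 600 (.lf ⟨⟨16384, 256, 13, 1448, 256, 74, 47⟩, 2048, 256, 33, 10, [h5, h0 5784], 0, ca0_40, 0, 0⟩)
  (.lf ⟨⟨0, 0, 0, 2048, 256, 53, 34⟩, 0, 0, 0, 0, [h5, h0 5780], 0, ca0_41, 0, 0⟩))))

noncomputable def a5_6 : T5 :=
  (.nd 2 199 .lw
  (.nd 2 200 (.lf ⟨⟨1024, 256, 249, 510, 256, 194, 118⟩, 512, 256, 116, 101, [h5, h0 6198], 17, ca0_42, 0, 0⟩)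
  (.nd 2 300 (.nd 2 250 (.lf ⟨⟨1449, 256, 168, 512, 256, 194, 117⟩, 609, 256, 101, 79, [h5, h0 5992], 17, ca0_43, 0, 0⟩)
  (.nd 2 275 (.lf ⟨⟨1723, 256, 139, 608, 256, 166, 102⟩, 664, 256, 94, 69, [h5, h0 5970], 17, ca0_44, 0, 0⟩)
  (.lf ⟨⟨2048, 256, 115, 663, 256, 153, 95⟩, 725, 256, 87, 61, [h5, h0 5932], 17, ca0_45, 0, 0⟩)))
  (.nd 2 400 (.lf ⟨⟨4096, 256, 55, 724, 256, 141, 88⟩, 1024, 256, 64, 35, [h5, h0 5784], 0, ca0_46, 0, 0⟩)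
  (.lf ⟨⟨0, 0, 0, 1024, 256, 102, 65⟩, 0, 0, 0, 0, [h5, h0 5682], 0, ca0_47, 0, 0⟩)))))

noncomputable def a5_7 : T5 :=
  (.nd 2 99 (.nd 2 59 (.lf ⟨⟨386, 256, 942, 256, 256, 351, 200⟩, 315, 256, 171, 194, [h5, h0 7456], 0, ca0_48, 0, 0⟩)
  (.nd 2 93 (.lf ⟨⟨488, 256, 643, 314, 256, 296, 173⟩, 354, 256, 156, 167, [h5, h0 6914], 0, ca0_49, 0, 0⟩)
  (.lf ⟨⟨509, 256, 605, 353, 256, 268, 158⟩, 361, 256, 154, 163, [h5, h0 6886], 0, ca0_49, 0, 0⟩)))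
  (.nd 2 159 (.lf ⟨⟨771, 256, 349, 360, 256, 264, 155⟩, 445, 256, 131, 123, [h5, h0 6302], 0, ca0_50, 0, 0⟩)
  (.nd 2 200 (.lf ⟨⟨1024, 256, 249, 444, 256, 220, 132⟩, 512, 256, 116, 101, [h5, h0 6146], 0, ca0_51, 0, 0⟩)
  (.nd 2 300 (.lf ⟨⟨2048, 256, 115, 512, 256, 194, 117⟩, 725, 256, 87, 61, [h5, h0 5850], 0, ca0_52, 0, 0⟩)
  (.lf ⟨⟨0, 0, 0, 724, 256, 141, 88⟩, 0, 0, 0, 0, [h5, h0 5604], 0, ca0_53, 0, 0⟩)))))

theorem sa5 : SA cs5.st (bxL 408 453) :=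
  sa_nd 100 (sa_rc 1 2 0 1 47975 1555 a5_0 (by decide +kernel)) <|
  sa_nd 227 (sa_rc 2 4 0 1 28724 1481 a5_1 (by decide +kernel)) <|
  sa_nd 327 (sa_rc 5 9 0 1 9877 1327 a5_2 (by decide +kernel)) <|
  sa_nd 427 (sa_rc 10 19 0 1 4938 1227 a5_3 (by decide +kernel)) <|
  sa_nd 527 (sa_rc 20 38 0 1 2469 1127 a5_4 (by decide +kernel)) <|
  sa_nd 627 (sa_rc 39 77 0 1 1234 1027 a5_5 (by decide +kernel)) <|
  sa_nd 727 (sa_rc 78 154 0 1 617 927 a5_6 (by decide +kernel)) <|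
  sa_no a5_7 (by decide +kernel)

noncomputable def a6_0 : T5 :=
  (.nd 2 1515 .lw
  (.nd 2 1767 (.nd 2 1641 (.nd 2 1578 (.nd 2 1546 (.lf ⟨⟨0, 0, 0, 3050, 16, 3, 2⟩, 54351, 256, 1, 0, [h5, h0 5880], 22, ca0_54, 0, 0⟩)
  (.lf ⟨⟨0, 0, 0, 3396, 16, 3, 2⟩, 60725, 256, 1, 0, [h5, h0 5880], 17, ca0_55, 0, 0⟩))
  (.lf ⟨⟨0, 0, 0, 3795, 16, 2, 2⟩, 0, 0, 0, 0, [h5, h0 5882], 17, ca0_56, 0, 0⟩))
  (.lf ⟨⟨0, 0, 0, 4721, 16, 2, 1⟩, 0, 0, 0, 0, [h5, h0 5882], 17, ca0_57, 0, 0⟩))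
  (.lf ⟨⟨0, 0, 0, 7306, 16, 1, 1⟩, 0, 0, 0, 0, [h5, h0 5884, f9], 0, ca0_58, 0, 0⟩)))

noncomputable def a6_1 : T5 :=
  (.nd 2 1315 .lw
  (.nd 2 1534 (.nd 2 1424 (.nd 2 1369 (.nd 2 1342 (.lf ⟨⟨0, 0, 0, 1525, 16, 5, 4⟩, 26802, 256, 2, 0, [h5, h0 5876], 22, ca0_59, 0, 0⟩)
  (.nd 2 1355 (.lf ⟨⟨0, 0, 0, 1675, 16, 5, 3⟩, 28037, 256, 2, 0, [h5, h0 5876], 22, ca0_60, 0, 0⟩)
  (.lf ⟨⟨0, 0, 0, 1752, 16, 4, 3⟩, 29431, 256, 2, 0, [h5, h0 5878], 17, ca0_60, 0, 0⟩)))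
  (.lf ⟨⟨0, 0, 0, 1839, 16, 4, 3⟩, 35611, 256, 2, 0, [h5, h0 5878], 17, ca0_61, 0, 0⟩))
  (.lf ⟨⟨0, 0, 0, 2225, 16, 4, 3⟩, 52137, 256, 1, 0, [h5, h0 5878], 17, ca0_62, 0, 0⟩))
  (.lf ⟨⟨0, 0, 0, 3258, 16, 3, 2⟩, 0, 0, 0, 0, [h5, h0 5880, f8], 0, ca0_63, 0, 0⟩)))

noncomputable def a6_2 : T5 :=
  (.nd 2 1213 .lw
  (.nd 2 1415 (.nd 2 1314 (.lf ⟨⟨0, 0, 0, 1071, 16, 7, 5⟩, 24323, 256, 3, 0, [h5, h0 5872], 17, ca0_64, 0, 0⟩)
  (.lf ⟨⟨0, 0, 0, 1520, 16, 5, 4⟩, 34517, 256, 2, 0, [h5, h0 5876], 0, ca0_65, 0, 0⟩))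
  (.lf ⟨⟨0, 0, 0, 2157, 16, 4, 3⟩, 0, 0, 0, 0, [h5, h0 5878, f11], 0, ca0_66, 0, 0⟩)))

noncomputable def a6_3 : T5 :=
  (.nd 2 1017 .lw
  (.nd 2 1186 (.nd 2 1101 (.nd 2 1059 (.lf ⟨⟨0, 0, 0, 8689, 256, 13, 9⟩, 10051, 256, 7, 0, [h5, h0 5860], 22, ca0_67, 0, 0⟩)
  (.lf ⟨⟨0, 0, 0, 10050, 256, 11, 8⟩, 11626, 256, 6, 0, [h5, h0 5864], 17, ca0_68, 0, 0⟩))
  (.lf ⟨⟨0, 0, 0, 11625, 256, 10, 7⟩, 15609, 256, 4, 0, [h5, h0 5866], 17, ca0_69, 0, 0⟩))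
  (.lf ⟨⟨0, 0, 0, 15608, 256, 8, 5⟩, 0, 0, 0, 0, [h5, h0 5870], 17, ca0_70, 0, 0⟩)))

noncomputable def a6_4 : T5 :=
  (.nd 2 815 .lw
  (.nd 2 950 (.nd 2 882 (.nd 2 848 (.lf ⟨⟨91406, 256, 2, 4314, 256, 26, 17⟩, 4838, 256, 14, 2, [h5, h0 5842], 22, ca0_71, 0, 0⟩)
  (.nd 2 865 (.nd 2 856 (.lf ⟨⟨96618, 256, 2, 4837, 256, 23, 15⟩, 4974, 256, 14, 2, [h5, h0 5848], 22, ca0_72, 0, 0⟩)
  (.lf ⟨⟨102838, 256, 2, 4973, 256, 22, 15⟩, 5131, 256, 14, 1, [h5, h0 5848], 17, ca0_73, 0, 0⟩))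
  (.lf ⟨⟨115698, 256, 1, 5130, 256, 22, 15⟩, 5443, 256, 13, 1, [h5, h0 5846], 17, ca0_74, 0, 0⟩)))
  (.nd 2 916 (.lf ⟨⟨146446, 256, 1, 5442, 256, 21, 14⟩, 6123, 256, 11, 1, [h5, h0 5848], 17, ca0_74, 0, 0⟩)
  (.lf ⟨⟨185364, 256, 1, 6122, 256, 18, 12⟩, 6889, 256, 10, 1, [h5, h0 5854], 17, ca0_75, 0, 0⟩)))
  (.nd 2 1108 (.lf ⟨⟨0, 0, 0, 6888, 256, 16, 11⟩, 11911, 256, 6, 0, [h5, h0 5854], 17, ca0_76, 0, 0⟩)
  (.lf ⟨⟨0, 0, 0, 11910, 256, 10, 7⟩, 0, 0, 0, 0, [h5, h0 5866, f6], 0, ca0_77, 0, 0⟩))))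

noncomputable def a6_5 : T5 :=
  (.nd 2 613 .lw
  (.nd 2 715 (.nd 2 664 (.nd 2 638 (.lf ⟨⟨21322, 256, 10, 2142, 256, 51, 33⟩, 2337, 256, 29, 8, [h5, h0 5820], 22, ca0_78, 0, 0⟩)
  (.lf ⟨⟨25532, 256, 8, 2336, 256, 47, 31⟩, 2557, 256, 27, 7, [h5, h0 5822], 17, ca0_79, 0, 0⟩))
  (.nd 2 689 (.lf ⟨⟨30363, 256, 7, 2556, 256, 43, 28⟩, 2788, 256, 25, 6, [h5, h0 5826], 17, ca0_79, 0, 0⟩)
  (.lf ⟨⟨36359, 256, 6, 2787, 256, 39, 26⟩, 3051, 256, 23, 5, [h5, h0 5830], 17, ca0_80, 0, 0⟩)))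
  (.nd 2 801 (.nd 2 758 (.lf ⟨⟨48984, 256, 4, 3050, 256, 36, 24⟩, 3542, 256, 20, 3, [h5, h0 5828], 17, ca0_81, 0, 0⟩)
  (.lf ⟨⟨65992, 256, 3, 3541, 256, 31, 21⟩, 4111, 256, 17, 2, [h5, h0 5834], 17, ca0_82, 0, 0⟩))
  (.nd 2 934 (.lf ⟨⟨165906, 256, 1, 4110, 256, 27, 18⟩, 6518, 256, 11, 1, [h5, h0 5836], 17, ca0_83, 0, 0⟩)
  (.lf ⟨⟨0, 0, 0, 6517, 256, 17, 12⟩, 0, 0, 0, 0, [h5, h0 5852], 0, ca0_84, 0, 0⟩)))))

noncomputable def a6_6 : T5 :=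
  (.nd 2 403 .lw
  (.nd 2 500 (.nd 2 451 (.nd 2 427 (.lf ⟨⟨4939, 256, 46, 1034, 256, 102, 64⟩, 1125, 256, 59, 30, [h5, h0 5834], 22, ca0_85, 0, 0⟩)
  (.lf ⟨⟨5833, 256, 38, 1124, 256, 94, 60⟩, 1222, 256, 54, 26, [h5, h0 5826], 17, ca0_86, 0, 0⟩))
  (.nd 2 475 (.lf ⟨⟨6889, 256, 32, 1221, 256, 87, 55⟩, 1328, 256, 50, 22, [h5, h0 5820], 17, ca0_87, 0, 0⟩)
  (.nd 2 487 (.lf ⟨⟨7487, 256, 30, 1327, 256, 80, 51⟩, 1385, 256, 48, 21, [h5, h0 5828], 17, ca0_88, 0, 0⟩)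
  (.lf ⟨⟨8192, 256, 27, 1384, 256, 77, 49⟩, 1449, 256, 46, 19, [h5, h0 5824], 17, ca0_89, 0, 0⟩))))
  (.nd 2 600 (.nd 2 550 (.nd 2 525 (.lf ⟨⟨9742, 256, 23, 1448, 256, 74, 47⟩, 1580, 256, 43, 16, [h5, h0 5816], 17, ca0_90, 0, 0⟩)
  (.nd 2 537 (.lf ⟨⟨10587, 256, 21, 1579, 256, 68, 44⟩, 1647, 256, 41, 15, [h5, h0 5822], 17, ca0_91, 0, 0⟩)
  (.lf ⟨⟨11586, 256, 19, 1646, 256, 65, 42⟩, 1723, 256, 39, 14, [h5, h0 5822], 17, ca0_92, 0, 0⟩)))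
  (.nd 2 575 (.nd 2 562 (.lf ⟨⟨12591, 256, 17, 1722, 256, 63, 40⟩, 1796, 256, 38, 13, [h5, h0 5820], 17, ca0_93, 0, 0⟩)
  (.lf ⟨⟨13778, 256, 16, 1795, 256, 60, 39⟩, 1879, 256, 36, 12, [h5, h0 5822], 17, ca0_94, 0, 0⟩))
  (.lf ⟨⟨16384, 256, 13, 1878, 256, 58, 37⟩, 2048, 256, 33, 10, [h5, h0 5816], 17, ca0_94, 0, 0⟩)))
  (.nd 2 700 (.nd 2 650 (.nd 2 625 (.lf ⟨⟨19484, 256, 11, 2048, 256, 53, 34⟩, 2234, 256, 31, 9, [h5, h0 5820], 17, ca0_95, 0, 0⟩)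
  (.lf ⟨⟨23171, 256, 9, 2233, 256, 49, 32⟩, 2436, 256, 28, 7, [h5, h0 5820], 0, ca0_96, 0, 0⟩))
  (.lf ⟨⟨32768, 256, 6, 2435, 256, 45, 29⟩, 2897, 256, 24, 5, [h5, h0 5818], 0, ca0_97, 0, 0⟩))
  (.lf ⟨⟨0, 0, 0, 2896, 256, 38, 25⟩, 0, 0, 0, 0, [h5, h0 5810], 0, ca0_98, 0, 0⟩)))))

noncomputable def a6_7 : T5 :=
  (.nd 2 201 .lw
  (.nd 2 300 (.nd 2 250 (.lf ⟨⟨1449, 256, 168, 513, 256, 193, 117⟩, 609, 256, 101, 79, [h5, h0 5994], 17, ca0_99, 0, 0⟩)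
  (.nd 2 275 (.lf ⟨⟨1723, 256, 139, 608, 256, 166, 102⟩, 664, 256, 94, 69, [h5, h0 5970], 17, ca0_100, 0, 0⟩)
  (.lf ⟨⟨2048, 256, 115, 663, 256, 153, 95⟩, 725, 256, 87, 61, [h5, h0 5932], 17, ca0_101, 0, 0⟩)))
  (.nd 2 400 (.nd 2 350 (.lf ⟨⟨2897, 256, 80, 724, 256, 141, 88⟩, 862, 256, 75, 46, [h5, h0 5856], 17, ca0_102, 0, 0⟩)
  (.lf ⟨⟨4096, 256, 55, 861, 256, 120, 76⟩, 1024, 256, 64, 35, [h5, h0 5826], 17, ca0_103, 0, 0⟩))
  (.nd 2 500 (.nd 2 450 (.lf ⟨⟨5793, 256, 39, 1024, 256, 102, 65⟩, 1218, 256, 55, 26, [h5, h0 5812], 17, ca0_104, 0, 0⟩)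
  (.lf ⟨⟨8192, 256, 27, 1217, 256, 87, 56⟩, 1449, 256, 46, 19, [h5, h0 5804], 0, ca0_105, 0, 0⟩))
  (.lf ⟨⟨0, 0, 0, 1448, 256, 74, 47⟩, 0, 0, 0, 0, [h5, h0 5738], 0, ca0_106, 0, 0⟩)))))

noncomputable def a6_8 : T5 :=
  (.nd 2 99 (.lf ⟨⟨509, 256, 605, 256, 256, 351, 200⟩, 361, 256, 154, 163, [h5, h0 6720], 0, ca0_107, 0, 0⟩)
  (.nd 2 159 (.lf ⟨⟨771, 256, 349, 360, 256, 264, 155⟩, 445, 256, 131, 123, [h5, h0 6302], 0, ca0_108, 0, 0⟩)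
  (.nd 2 200 (.lf ⟨⟨1024, 256, 249, 444, 256, 220, 132⟩, 512, 256, 116, 101, [h5, h0 6146], 0, ca0_109, 0, 0⟩)
  (.nd 2 300 (.lf ⟨⟨2048, 256, 115, 512, 256, 194, 117⟩, 725, 256, 87, 61, [h5, h0 5850], 0, ca0_110, 0, 0⟩)
  (.lf ⟨⟨0, 0, 0, 724, 256, 141, 88⟩, 0, 0, 0, 0, [h5, h0 5604], 0, ca0_111, 0, 0⟩)))))

theorem sa6 : SA cs6.st (bxL 458 500) :=
  sa_nd 100 (sa_rc 1 2 1 1 146445 1716 a6_0 (by decide +kernel)) <|
  sa_nd 200 (sa_rc 2 4 1 1 146445 1716 a6_1 (by decide +kernel)) <|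
  sa_nd 250 (sa_rc 4 5 1 1 144428 1714 a6_2 (by decide +kernel)) <|
  sa_nd 350 (sa_rc 6 11 1 1 148489 1718 a6_3 (by decide +kernel)) <|
  sa_nd 450 (sa_rc 12 22 1 1 146445 1716 a6_4 (by decide +kernel)) <|
  sa_nd 550 (sa_rc 23 45 1 1 144428 1714 a6_5 (by decide +kernel)) <|
  sa_nd 650 (sa_rc 46 90 1 1 134756 1704 a6_6 (by decide +kernel)) <|
  sa_nd 750 (sa_rc 91 181 1 1 132901 1702 a6_7 (by decide +kernel)) <|
  sa_no a6_8 (by decide +kernel)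

noncomputable def a7_0 : T5 :=
  (.nd 2 1701 .lw
  (.nd 2 1984 (.nd 2 1842 (.nd 2 1771 (.nd 2 1736 (.lf ⟨⟨0, 0, 0, 5812, 16, 2, 1⟩, 0, 0, 0, 0, [h5, h0 5882], 22, ca0_112, 0, 0⟩)
  (.lf ⟨⟨0, 0, 0, 6562, 16, 2, 1⟩, 0, 0, 0, 0, [h5, h0 5882], 17, ca0_113, 0, 0⟩))
  (.lf ⟨⟨0, 0, 0, 7408, 16, 1, 1⟩, 0, 0, 0, 0, [h5, h0 5884], 17, ca0_114, 0, 0⟩))
  (.lf ⟨⟨0, 0, 0, 9475, 16, 1, 1⟩, 0, 0, 0, 0, [h5, h0 5884, f9], 26, ca0_115, 0, 0⟩))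
  (.lf ⟨⟨0, 0, 0, 15500, 16, 1, 1⟩, 0, 0, 0, 0, [h5, h0 5884, f9], 0, ca0_116, 0, 0⟩)))

noncomputable def a7_1 : T5 :=
  (.nd 2 1501 .lw
  (.nd 2 1751 (.nd 2 1626 (.nd 2 1563 (.nd 2 1532 (.lf ⟨⟨0, 0, 0, 2906, 16, 3, 2⟩, 51777, 256, 1, 0, [h5, h0 5880], 22, ca0_117, 0, 0⟩)
  (.lf ⟨⟨0, 0, 0, 3236, 16, 3, 2⟩, 57649, 256, 1, 0, [h5, h0 5880], 17, ca0_118, 0, 0⟩))
  (.lf ⟨⟨0, 0, 0, 3603, 16, 2, 2⟩, 71716, 256, 1, 0, [h5, h0 5882], 17, ca0_119, 0, 0⟩))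
  (.lf ⟨⟨0, 0, 0, 4482, 16, 2, 2⟩, 0, 0, 0, 0, [h5, h0 5882], 17, ca0_120, 0, 0⟩))
  (.lf ⟨⟨0, 0, 0, 6912, 16, 2, 1⟩, 0, 0, 0, 0, [h5, h0 5882, f8], 0, ca0_115, 0, 0⟩)))

noncomputable def a7_2 : T5 :=
  (.nd 2 1349 .lw
  (.nd 2 1573 (.nd 2 1461 (.nd 2 1405 (.nd 2 1377 (.lf ⟨⟨0, 0, 0, 1716, 16, 5, 3⟩, 30258, 256, 2, 0, [h5, h0 5876], 22, ca0_121, 0, 0⟩)
  (.lf ⟨⟨0, 0, 0, 1891, 16, 4, 3⟩, 33341, 256, 2, 0, [h5, h0 5878], 17, ca0_121, 0, 0⟩))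
  (.lf ⟨⟨0, 0, 0, 2083, 16, 4, 3⟩, 40483, 256, 1, 0, [h5, h0 5878], 17, ca0_122, 0, 0⟩))
  (.lf ⟨⟨0, 0, 0, 2530, 16, 3, 2⟩, 59682, 256, 1, 0, [h5, h0 5880], 17, ca0_123, 0, 0⟩))
  (.lf ⟨⟨0, 0, 0, 3730, 16, 2, 2⟩, 0, 0, 0, 0, [h5, h0 5882, f11], 0, ca0_66, 0, 0⟩)))

noncomputable def a7_3 : T5 :=
  (.nd 2 1153 .lw
  (.nd 2 1345 (.nd 2 1249 (.nd 2 1201 (.lf ⟨⟨0, 0, 0, 13921, 256, 8, 6⟩, 16441, 256, 4, 0, [h5, h0 5870], 22, ca0_124, 0, 0⟩)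
  (.lf ⟨⟨0, 0, 0, 1027, 16, 7, 5⟩, 19417, 256, 3, 0, [h5, h0 5872], 17, ca0_125, 0, 0⟩))
  (.lf ⟨⟨0, 0, 0, 1213, 16, 6, 4⟩, 27082, 256, 2, 0, [h5, h0 5874], 17, ca0_126, 0, 0⟩))
  (.lf ⟨⟨0, 0, 0, 1692, 16, 5, 3⟩, 0, 0, 0, 0, [h5, h0 5876, f7], 24, ca0_127, 0, 0⟩)))

noncomputable def a7_4 : T5 :=
  (.nd 2 953 .lw
  (.nd 2 1111 (.nd 2 1032 (.nd 2 992 (.lf ⟨⟨0, 0, 0, 6960, 256, 16, 11⟩, 7968, 256, 9, 0, [h5, h0 5854], 22, ca0_128, 0, 0⟩)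
  (.lf ⟨⟨0, 0, 0, 7967, 256, 14, 10⟩, 9153, 256, 7, 0, [h5, h0 5858], 17, ca0_129, 0, 0⟩))
  (.lf ⟨⟨0, 0, 0, 9152, 256, 13, 8⟩, 12036, 256, 6, 0, [h5, h0 5860], 17, ca0_130, 0, 0⟩))
  (.lf ⟨⟨0, 0, 0, 12035, 256, 10, 7⟩, 0, 0, 0, 0, [h5, h0 5866], 17, ca0_131, 0, 0⟩)))

noncomputable def a7_5 : T5 :=
  (.nd 2 751 .lw
  (.nd 2 801 (.nd 2 776 (.lf ⟨⟨55493, 256, 4, 3456, 256, 32, 21⟩, 3770, 256, 18, 3, [h5, h0 5836], 22, ca0_132, 0, 0⟩)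
  (.lf ⟨⟨65992, 256, 3, 3769, 256, 29, 19⟩, 4111, 256, 17, 2, [h5, h0 5838], 17, ca0_133, 0, 0⟩))
  (.nd 2 934 (.nd 2 867 (.nd 2 834 (.lf ⟨⟨82953, 256, 2, 4110, 256, 27, 18⟩, 4609, 256, 15, 2, [h5, h0 5840], 17, ca0_134, 0, 0⟩)
  (.lf ⟨⟨104273, 256, 2, 4608, 256, 24, 16⟩, 5167, 256, 13, 1, [h5, h0 5844], 17, ca0_135, 0, 0⟩))
  (.lf ⟨⟨165906, 256, 1, 5166, 256, 22, 14⟩, 6518, 256, 11, 1, [h5, h0 5846], 17, ca0_136, 0, 0⟩))
  (.lf ⟨⟨0, 0, 0, 6517, 256, 17, 12⟩, 0, 0, 0, 0, [h5, h0 5852], 17, ca0_137, 0, 0⟩))))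

noncomputable def a7_6 : T5 :=
  (.nd 2 545 .lw
  (.nd 2 600 (.nd 2 572 (.lf ⟨⟨13494, 256, 16, 1692, 256, 64, 41⟩, 1859, 256, 37, 12, [h5, h0 5814], 22, ca0_138, 0, 0⟩)
  (.nd 2 586 (.lf ⟨⟨14869, 256, 15, 1858, 256, 58, 38⟩, 1952, 256, 35, 11, [h5, h0 5822], 17, ca0_139, 0, 0⟩)
  (.lf ⟨⟨16384, 256, 13, 1951, 256, 56, 36⟩, 2048, 256, 33, 10, [h5, h0 5820], 17, ca0_139, 0, 0⟩)))
  (.nd 2 700 (.nd 2 650 (.nd 2 625 (.nd 2 612 (.lf ⟨⟨17806, 256, 12, 2048, 256, 53, 34⟩, 2135, 256, 32, 9, [h5, h0 5822], 17, ca0_139, 0, 0⟩)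
  (.lf ⟨⟨19484, 256, 11, 2134, 256, 51, 33⟩, 2234, 256, 31, 9, [h5, h0 5824], 17, ca0_140, 0, 0⟩))
  (.lf ⟨⟨23171, 256, 9, 2233, 256, 49, 32⟩, 2436, 256, 28, 7, [h5, h0 5820], 17, ca0_141, 0, 0⟩))
  (.nd 2 675 (.lf ⟨⟨27555, 256, 8, 2435, 256, 45, 29⟩, 2656, 256, 26, 6, [h5, h0 5824], 17, ca0_142, 0, 0⟩)
  (.lf ⟨⟨32768, 256, 6, 2655, 256, 41, 27⟩, 2897, 256, 24, 5, [h5, h0 5826], 17, ca0_143, 0, 0⟩)))
  (.nd 2 801 (.nd 2 750 (.lf ⟨⟨46341, 256, 4, 2896, 256, 38, 25⟩, 3445, 256, 20, 4, [h5, h0 5826], 17, ca0_144, 0, 0⟩)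
  (.lf ⟨⟨65992, 256, 3, 3444, 256, 32, 21⟩, 4111, 256, 17, 2, [h5, h0 5832], 0, ca0_145, 0, 0⟩))
  (.lf ⟨⟨0, 0, 0, 4110, 256, 27, 18⟩, 0, 0, 0, 0, [h5, h0 5832], 0, ca0_146, 0, 0⟩)))))

noncomputable def a7_7 : T5 :=
  (.nd 2 335 .lw
  (.nd 2 400 (.nd 2 367 (.lf ⟨⟨3259, 256, 70, 817, 256, 126, 79⟩, 914, 256, 71, 42, [h5, h0 5858], 17, ca0_147, 0, 0⟩)
  (.lf ⟨⟨4096, 256, 55, 913, 256, 114, 72⟩, 1024, 256, 64, 35, [h5, h0 5838], 17, ca0_148, 0, 0⟩))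
  (.nd 2 500 (.nd 2 450 (.nd 2 425 (.lf ⟨⟨4871, 256, 46, 1024, 256, 102, 65⟩, 1117, 256, 59, 30, [h5, h0 5834], 17, ca0_149, 0, 0⟩)
  (.lf ⟨⟨5793, 256, 39, 1116, 256, 94, 60⟩, 1218, 256, 55, 26, [h5, h0 5828], 17, ca0_150, 0, 0⟩))
  (.nd 2 475 (.lf ⟨⟨6889, 256, 32, 1217, 256, 87, 56⟩, 1328, 256, 50, 22, [h5, h0 5820], 17, ca0_151, 0, 0⟩)
  (.lf ⟨⟨8192, 256, 27, 1327, 256, 80, 51⟩, 1449, 256, 46, 19, [h5, h0 5818], 17, ca0_152, 0, 0⟩)))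
  (.nd 2 600 (.nd 2 550 (.nd 2 525 (.lf ⟨⟨9742, 256, 23, 1448, 256, 74, 47⟩, 1580, 256, 43, 16, [h5, h0 5816], 17, ca0_153, 0, 0⟩)
  (.lf ⟨⟨11586, 256, 19, 1579, 256, 68, 44⟩, 1723, 256, 39, 14, [h5, h0 5816], 17, ca0_154, 0, 0⟩))
  (.lf ⟨⟨16384, 256, 13, 1722, 256, 63, 40⟩, 2048, 256, 33, 10, [h5, h0 5806], 0, ca0_155, 0, 0⟩))
  (.lf ⟨⟨0, 0, 0, 2048, 256, 53, 34⟩, 0, 0, 0, 0, [h5, h0 5780], 0, ca0_156, 0, 0⟩)))))

noncomputable def a7_8 : T5 :=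
  (.nd 2 31 .lw
  (.nd 2 99 (.lf ⟨⟨509, 256, 605, 285, 256, 322, 185⟩, 361, 256, 154, 163, [h5, h0 6778], 17, ca0_157, 0, 0⟩)
  (.nd 2 159 (.lf ⟨⟨771, 256, 349, 360, 256, 264, 155⟩, 445, 256, 131, 123, [h5, h0 6302], 17, ca0_158, 0, 0⟩)
  (.nd 2 200 (.lf ⟨⟨1024, 256, 249, 444, 256, 220, 132⟩, 512, 256, 116, 101, [h5, h0 6146], 12, ca0_159, 0, 0⟩)
  (.nd 2 300 (.nd 2 250 (.nd 2 225 (.lf ⟨⟨1218, 256, 204, 512, 256, 194, 117⟩, 559, 256, 108, 89, [h5, h0 6084], 12, ca0_160, 0, 0⟩)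
  (.nd 2 237 (.lf ⟨⟨1324, 256, 185, 558, 256, 179, 109⟩, 583, 256, 105, 84, [h5, h0 6066], 12, ca0_161, 0, 0⟩)
  (.lf ⟨⟨1449, 256, 168, 582, 256, 173, 106⟩, 609, 256, 101, 79, [h5, h0 6034], 12, ca0_162, 0, 0⟩)))
  (.nd 2 275 (.lf ⟨⟨1723, 256, 139, 608, 256, 166, 102⟩, 664, 256, 94, 69, [h5, h0 5970], 12, ca0_163, 0, 0⟩)
  (.lf ⟨⟨2048, 256, 115, 663, 256, 153, 95⟩, 725, 256, 87, 61, [h5, h0 5932], 12, ca0_164, 0, 0⟩)))
  (.nd 2 400 (.nd 2 350 (.lf ⟨⟨2897, 256, 80, 724, 256, 141, 88⟩, 862, 256, 75, 46, [h5, h0 5856], 12, ca0_165, 0, 0⟩)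
  (.lf ⟨⟨4096, 256, 55, 861, 256, 120, 76⟩, 1024, 256, 64, 35, [h5, h0 5826], 0, ca0_166, 0, 0⟩))
  (.lf ⟨⟨0, 0, 0, 1024, 256, 102, 65⟩, 0, 0, 0, 0, [h5, h0 5682], 0, ca0_167, 0, 0⟩)))))))

noncomputable def a7_9 : T5 :=
  (.nd 2 99 (.lf ⟨⟨509, 256, 605, 256, 256, 351, 200⟩, 361, 256, 154, 163, [h5, h0 6720], 0, ca0_168, 0, 0⟩)
  (.nd 2 159 (.lf ⟨⟨771, 256, 349, 360, 256, 264, 155⟩, 445, 256, 131, 123, [h5, h0 6302], 0, ca0_169, 0, 0⟩)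
  (.nd 2 200 (.lf ⟨⟨1024, 256, 249, 444, 256, 220, 132⟩, 512, 256, 116, 101, [h5, h0 6146], 0, ca0_170, 0, 0⟩)
  (.nd 2 300 (.lf ⟨⟨2048, 256, 115, 512, 256, 194, 117⟩, 725, 256, 87, 61, [h5, h0 5850], 0, ca0_171, 0, 0⟩)
  (.lf ⟨⟨0, 0, 0, 724, 256, 141, 88⟩, 0, 0, 0, 0, [h5, h0 5604], 0, ca0_172, 0, 0⟩)))))

theorem sa7 : SA cs7.st (bxL 504 550) :=
  sa_nd 100 (sa_rc 1 2 1 1 531606 1902 a7_0 (by decide +kernel)) <|
  sa_nd 200 (sa_rc 2 4 1 1 531606 1902 a7_1 (by decide +kernel)) <|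
  sa_nd 275 (sa_rc 4 6 1 1 524288 1900 a7_2 (by decide +kernel)) <|
  sa_nd 375 (sa_rc 7 13 1 1 539027 1904 a7_3 (by decide +kernel)) <|
  sa_nd 475 (sa_rc 14 26 1 1 539027 1904 a7_4 (by decide +kernel)) <|
  sa_nd 575 (sa_rc 27 53 1 1 531606 1902 a7_5 (by decide +kernel)) <|
  sa_nd 675 (sa_rc 54 107 1 1 509951 1896 a7_6 (by decide +kernel)) <|
  sa_nd 775 (sa_rc 108 215 1 1 475801 1886 a7_7 (by decide +kernel)) <|
  sa_nd 875 (sa_rc 216 430 2 1 99624690 2657 a7_8 (by decide +kernel)) <|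
  sa_no a7_9 (by decide +kernel)

end Pool.Agent.MP_2339ce_nt.Q2.TB.RT
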