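import Pool.Agent.MP_2339ce_nt.Q2.HA7
import Pool.Agent.MP_2339ce_nt.Q2.RTV

/-! Project Q2, block RT: valid windows. -/

set_option autoImplicit false

noncomputable section

namespace Pool.Agent.MP_2339ce_nt.Q2.TB.RT

noncomputable def w87 : Wn := ⟨[⟨0, -159, 0, -1, 1, 0, 0, 0, 0⟩], [⟨29, 11320, 2, 0, 26, 0, 56, 0, 0⟩, ⟨29, 10450, 2, 56, 24, 0, 2, 0, 0⟩, ⟨43, 9270, -42, 42, 0, 0, 0, 0, 0⟩], [⟨57, 4870, -86, 28, 30, 0, -56, 0, 0⟩]⟩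
noncomputable def w88 : Wn := ⟨[⟨0, -93, 0, -1, 1, 0, 0, 0, 0⟩], [⟨29, 11320, 2, 0, 26, 0, 56, 0, 0⟩, ⟨29, 10450, 2, 56, 24, 0, 2, 0, 0⟩, ⟨43, 10610, -42, 42, 0, 0, 0, 0, 0⟩], [⟨57, 4870, -86, 28, 30, 0, -56, 0, 0⟩]⟩
noncomputable def w89 : Wn := ⟨[], [⟨29, 11320, 2, 0, 26, 0, 56, 0, 0⟩, ⟨29, 10450, 2, 56, 24, 0, 2, 0, 0⟩, ⟨43, 7690, -42, 42, 27, 0, -27, 0, 0⟩], [⟨57, 4870, -86, 28, 30, 0, -56, 0, 0⟩]⟩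
noncomputable def w90 : Wn := ⟨[⟨0, -201, 0, -1, 1, 0, 0, 0, 0⟩], [⟨29, 7420, 2, 0, 56, 0, 28, 0, 0⟩, ⟨29, 10270, 2, 56, 26, 0, 2, 0, 0⟩, ⟨44, 7450, -43, 15, 28, 0, 0, 0, 0⟩], [⟨59, 6160, -88, 30, 30, 0, -58, 0, 0⟩]⟩
noncomputable def w91 : Wn := ⟨[⟨0, -159, 0, -1, 1, 0, 0, 0, 0⟩], [⟨29, 7420, 2, 0, 56, 0, 28, 0, 0⟩, ⟨29, 10270, 2, 56, 26, 0, 2, 0, 0⟩, ⟨44, 7700, -43, 15, 28, 0, 0, 0, 0⟩], [⟨59, 6160, -88, 30, 30, 0, -58, 0, 0⟩]⟩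
noncomputable def w92 : Wn := ⟨[⟨0, -133, 0, -1, 1, 0, 0, 0, 0⟩], [⟨29, 7420, 2, 0, 56, 0, 28, 0, 0⟩, ⟨29, 10270, 2, 56, 26, 0, 2, 0, 0⟩, ⟨44, 7920, -43, 15, 28, 0, 0, 0, 0⟩], [⟨59, 6160, -88, 30, 30, 0, -58, 0, 0⟩]⟩
noncomputable def w93 : Wn := ⟨[⟨0, -93, 0, -1, 1, 0, 0, 0, 0⟩], [⟨29, 7420, 2, 0, 56, 0, 28, 0, 0⟩, ⟨29, 10270, 2, 56, 26, 0, 2, 0, 0⟩, ⟨44, 7920, -43, 15, 28, 0, 0, 0, 0⟩], [⟨59, 6160, -88, 30, 30, 0, -58, 0, 0⟩]⟩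
noncomputable def w94 : Wn := ⟨[], [⟨31, 9020, 2, 0, 60, 0, 30, 0, 0⟩, ⟨31, 12000, 2, 60, 28, 0, 2, 0, 0⟩], [⟨63, 5570, -94, 32, 32, 0, -62, 0, 0⟩]⟩
noncomputable def w95 : Wn := ⟨[⟨0, -201, 0, -1, 1, 0, 0, 0, 0⟩], [⟨33, 9870, 2, 0, 64, 0, 32, 0, 0⟩, ⟨33, 13020, 2, 64, 30, 0, 2, 0, 0⟩, ⟨50, 8480, -49, 17, 32, 0, 0, 0, 0⟩], [⟨67, 5610, -100, 34, 34, 0, -66, 0, 0⟩]⟩
noncomputable def w96 : Wn := ⟨[⟨0, -159, 0, -1, 1, 0, 0, 0, 0⟩], [⟨33, 9870, 2, 0, 64, 0, 32, 0, 0⟩, ⟨33, 13020, 2, 64, 30, 0, 2, 0, 0⟩, ⟨50, 8770, -49, 17, 32, 0, 0, 0, 0⟩], [⟨67, 5610, -100, 34, 34, 0, -66, 0, 0⟩]⟩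
noncomputable def w97 : Wn := ⟨[⟨0, -133, 0, -1, 1, 0, 0, 0, 0⟩], [⟨33, 9870, 2, 0, 64, 0, 32, 0, 0⟩, ⟨33, 13020, 2, 64, 30, 0, 2, 0, 0⟩, ⟨50, 9020, -49, 17, 32, 0, 0, 0, 0⟩], [⟨67, 5610, -100, 34, 34, 0, -66, 0, 0⟩]⟩
noncomputable def w98 : Wn := ⟨[], [⟨33, 9870, 2, 0, 64, 0, 32, 0, 0⟩, ⟨33, 13020, 2, 64, 30, 0, 2, 0, 0⟩, ⟨50, 9020, -49, 17, 32, 0, 0, 0, 0⟩], [⟨67, 5610, -100, 34, 34, 0, -66, 0, 0⟩]⟩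
noncomputable def w99 : Wn := ⟨[], [⟨35, 10290, 2, 0, 68, 0, 34, 0, 0⟩, ⟨35, 13560, 2, 68, 32, 0, 2, 0, 0⟩], [⟨71, 6210, -106, 36, 36, 0, -70, 0, 0⟩]⟩
noncomputable def w100 : Wn := ⟨[⟨0, -159, 0, -1, 1, 0, 0, 0, 0⟩], [⟨37, 14820, 2, 0, 34, 0, 72, 0, 0⟩, ⟨37, 13950, 2, 72, 32, 0, 2, 0, 0⟩, ⟨55, 11950, -54, 54, 0, 0, 0, 0, 0⟩], [⟨73, 5780, -110, 36, 38, 0, -72, 0, 0⟩]⟩
noncomputable def w101 : Wn := ⟨[⟨0, -133, 0, -1, 1, 0, 0, 0, 0⟩], [⟨37, 14820, 2, 0, 34, 0, 72, 0, 0⟩, ⟨37, 13950, 2, 72, 32, 0, 2, 0, 0⟩, ⟨55, 12480, -54, 54, 0, 0, 0, 0, 0⟩], [⟨73, 5780, -110, 36, 38, 0, -72, 0, 0⟩]⟩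
noncomputable def w102 : Wn := ⟨[⟨0, -93, 0, -1, 1, 0, 0, 0, 0⟩], [⟨37, 14820, 2, 0, 34, 0, 72, 0, 0⟩, ⟨37, 13950, 2, 72, 32, 0, 2, 0, 0⟩, ⟨55, 13680, -54, 54, 0, 0, 0, 0, 0⟩], [⟨73, 5780, -110, 36, 38, 0, -72, 0, 0⟩]⟩
noncomputable def w103 : Wn := ⟨[⟨0, -201, 0, -1, 1, 0, 0, 0, 0⟩], [⟨37, 11480, 2, 0, 72, 0, 36, 0, 0⟩, ⟨37, 14940, 2, 72, 34, 0, 2, 0, 0⟩, ⟨56, 9520, -55, 19, 36, 0, 0, 0, 0⟩], [⟨75, 5900, -112, 38, 38, 0, -74, 0, 0⟩]⟩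
noncomputable def w104 : Wn := ⟨[⟨0, -159, 0, -1, 1, 0, 0, 0, 0⟩], [⟨37, 11480, 2, 0, 72, 0, 36, 0, 0⟩, ⟨37, 14940, 2, 72, 34, 0, 2, 0, 0⟩, ⟨56, 9840, -55, 19, 36, 0, 0, 0, 0⟩], [⟨75, 5900, -112, 38, 38, 0, -74, 0, 0⟩]⟩
noncomputable def w105 : Wn := ⟨[⟨0, -133, 0, -1, 1, 0, 0, 0, 0⟩], [⟨37, 11480, 2, 0, 72, 0, 36, 0, 0⟩, ⟨37, 14940, 2, 72, 34, 0, 2, 0, 0⟩, ⟨56, 10120, -55, 19, 36, 0, 0, 0, 0⟩], [⟨75, 5900, -112, 38, 38, 0, -74, 0, 0⟩]⟩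
noncomputable def w106 : Wn := ⟨[], [⟨39, 10970, 2, 0, 76, 0, 38, 0, 0⟩, ⟨39, 14550, 2, 76, 36, 0, 2, 0, 0⟩], [⟨79, 7420, -118, 40, 40, 0, -78, 0, 0⟩]⟩
noncomputable def w107 : Wn := ⟨[⟨0, -159, 0, -1, 1, 0, 0, 0, 0⟩], [⟨41, 15840, 2, 0, 38, 0, 80, 0, 0⟩, ⟨41, 14970, 2, 80, 36, 0, 2, 0, 0⟩, ⟨61, 13290, -60, 60, 0, 0, 0, 0, 0⟩], [⟨81, 6960, -122, 40, 42, 0, -80, 0, 0⟩]⟩
noncomputable def w108 : Wn := ⟨[⟨0, -159, 0, -1, 1, 0, 0, 0, 0⟩], [⟨41, 11570, 2, 0, 80, 0, 40, 0, 0⟩, ⟨41, 15320, 2, 80, 38, 0, 2, 0, 0⟩, ⟨62, 10910, -61, 21, 40, 0, 0, 0, 0⟩], [⟨83, 7720, -124, 42, 42, 0, -82, 0, 0⟩]⟩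
noncomputable def w109 : Wn := ⟨[⟨0, -133, 0, -1, 1, 0, 0, 0, 0⟩], [⟨41, 11570, 2, 0, 80, 0, 40, 0, 0⟩, ⟨41, 15320, 2, 80, 38, 0, 2, 0, 0⟩, ⟨62, 11230, -61, 21, 40, 0, 0, 0, 0⟩], [⟨83, 7720, -124, 42, 42, 0, -82, 0, 0⟩]⟩
noncomputable def w110 : Wn := ⟨[], [⟨43, 16170, 2, 0, 40, 0, 84, 0, 0⟩, ⟨43, 13040, 2, 38, 84, 0, 2, 0, 0⟩, ⟨64, 11660, -63, 22, 41, 0, 0, 0, 0⟩], [⟨85, 6900, -128, 44, 42, 0, -84, 0, 0⟩]⟩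
noncomputable def w111 : Wn := ⟨[], [⟨43, 13270, 2, 0, 84, 0, 42, 0, 0⟩, ⟨43, 17150, 2, 84, 40, 0, 2, 0, 0⟩], [⟨87, 7030, -130, 44, 44, 0, -86, 0, 0⟩]⟩
noncomputable def w112 : Wn := ⟨[⟨0, -159, 0, -1, 1, 0, 0, 0, 0⟩], [⟨45, 13550, 2, 0, 88, 0, 44, 0, 0⟩, ⟨45, 17610, 2, 88, 42, 0, 2, 0, 0⟩, ⟨68, 11980, -67, 23, 44, 0, 0, 0, 0⟩], [⟨91, 7630, -136, 46, 46, 0, -90, 0, 0⟩]⟩
noncomputable def w113 : Wn := ⟨[⟨0, -133, 0, -1, 1, 0, 0, 0, 0⟩], [⟨45, 13550, 2, 0, 88, 0, 44, 0, 0⟩, ⟨45, 17610, 2, 88, 42, 0, 2, 0, 0⟩, ⟨68, 12330, -67, 23, 44, 0, 0, 0, 0⟩], [⟨91, 7630, -136, 46, 46, 0, -90, 0, 0⟩]⟩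
noncomputable def w114 : Wn := ⟨[], [⟨47, 13240, 2, 0, 92, 0, 46, 0, 0⟩, ⟨47, 17420, 2, 92, 44, 0, 2, 0, 0⟩], [⟨95, 8960, -142, 48, 48, 0, -94, 0, 0⟩]⟩
noncomputable def w115 : Wn := ⟨[], [⟨49, 18500, 2, 0, 46, 0, 96, 0, 0⟩, ⟨49, 14080, 2, 44, 96, 0, 2, 0, 0⟩], [⟨97, 8740, -146, 50, 48, 0, -96, 0, 0⟩]⟩
noncomputable def w116 : Wn := ⟨[⟨0, -159, 0, -1, 1, 0, 0, 0, 0⟩], [⟨49, 14050, 2, 0, 96, 0, 48, 0, 0⟩, ⟨49, 18410, 2, 96, 46, 0, 2, 0, 0⟩, ⟨74, 13050, -73, 25, 48, 0, 0, 0, 0⟩], [⟨99, 9040, -148, 50, 50, 0, -98, 0, 0⟩]⟩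
noncomputable def w117 : Wn := ⟨[⟨0, -93, 0, -1, 1, 0, 0, 0, 0⟩], [⟨49, 14050, 2, 0, 96, 0, 48, 0, 0⟩, ⟨49, 18410, 2, 96, 46, 0, 2, 0, 0⟩, ⟨74, 13430, -73, 25, 48, 0, 0, 0, 0⟩], [⟨99, 9040, -148, 50, 50, 0, -98, 0, 0⟩]⟩
noncomputable def w118 : Wn := ⟨[], [⟨51, 18990, 2, 0, 48, 0, 100, 0, 0⟩, ⟨51, 15260, 2, 46, 100, 0, 2, 0, 0⟩, ⟨76, 13870, -75, 26, 49, 0, 0, 0, 0⟩], [⟨101, 8490, -152, 52, 50, 0, -100, 0, 0⟩]⟩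
noncomputable def w119 : Wn := ⟨[], [⟨51, 15490, 2, 0, 100, 0, 50, 0, 0⟩, ⟨51, 19970, 2, 100, 48, 0, 2, 0, 0⟩], [⟨103, 8610, -154, 52, 52, 0, -102, 0, 0⟩]⟩
noncomputable def w120 : Wn := ⟨[⟨0, -159, 0, -1, 1, 0, 0, 0, 0⟩], [⟨53, 21340, 2, 0, 50, 0, 104, 0, 0⟩, ⟨53, 20470, 2, 104, 48, 0, 2, 0, 0⟩, ⟨79, 17310, -78, 78, 0, 0, 0, 0, 0⟩], [⟨105, 8070, -158, 52, 54, 0, -104, 0, 0⟩]⟩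
noncomputable def w121 : Wn := ⟨[⟨0, -159, 0, -1, 1, 0, 0, 0, 0⟩], [⟨53, 16990, 2, 0, 102, 0, 52, 0, 0⟩, ⟨53, 20470, 2, 104, 48, 0, 2, 0, 0⟩], [⟨105, 7900, -158, 52, 54, 0, -104, 0, 0⟩]⟩
noncomputable def w122 : Wn := ⟨[⟨0, -159, 0, -1, 1, 0, 0, 0, 0⟩], [⟨53, 15920, 2, 0, 104, 0, 52, 0, 0⟩, ⟨53, 20580, 2, 104, 50, 0, 2, 0, 0⟩, ⟨80, 14120, -79, 27, 52, 0, 0, 0, 0⟩], [⟨107, 9070, -160, 54, 54, 0, -106, 0, 0⟩]⟩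
noncomputable def w123 : Wn := ⟨[⟨0, -133, 0, -1, 1, 0, 0, 0, 0⟩], [⟨53, 15920, 2, 0, 104, 0, 52, 0, 0⟩, ⟨53, 20580, 2, 104, 50, 0, 2, 0, 0⟩, ⟨80, 14530, -79, 27, 52, 0, 0, 0, 0⟩], [⟨107, 9070, -160, 54, 54, 0, -106, 0, 0⟩]⟩
noncomputable def w124 : Wn := ⟨[], [⟨55, 21500, 2, 0, 52, 0, 108, 0, 0⟩, ⟨55, 17460, 2, 50, 108, 0, 2, 0, 0⟩, ⟨82, 14970, -81, 28, 53, 0, 0, 0, 0⟩], [⟨109, 8190, -164, 56, 54, 0, -108, 0, 0⟩]⟩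
noncomputable def w125 : Wn := ⟨[], [⟨55, 17690, 2, 0, 108, 0, 54, 0, 0⟩, ⟨55, 22480, 2, 108, 52, 0, 2, 0, 0⟩], [⟨111, 8310, -166, 56, 56, 0, -110, 0, 0⟩]⟩
noncomputable def w126 : Wn := ⟨[⟨0, -159, 0, -1, 1, 0, 0, 0, 0⟩], [⟨57, 17980, 2, 0, 112, 0, 56, 0, 0⟩, ⟨57, 22940, 2, 112, 54, 0, 2, 0, 0⟩, ⟨86, 15190, -85, 29, 56, 0, 0, 0, 0⟩], [⟨115, 8910, -172, 58, 58, 0, -114, 0, 0⟩]⟩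
noncomputable def w127 : Wn := ⟨[⟨0, -133, 0, -1, 1, 0, 0, 0, 0⟩], [⟨57, 17980, 2, 0, 112, 0, 56, 0, 0⟩, ⟨57, 22940, 2, 112, 54, 0, 2, 0, 0⟩, ⟨86, 15630, -85, 29, 56, 0, 0, 0, 0⟩], [⟨115, 8910, -172, 58, 58, 0, -114, 0, 0⟩]⟩
noncomputable def w128 : Wn := ⟨[], [⟨59, 18990, 2, 0, 116, 0, 58, 0, 0⟩, ⟨59, 24080, 2, 116, 56, 0, 2, 0, 0⟩], [⟨119, 8910, -178, 60, 60, 0, -118, 0, 0⟩]⟩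
noncomputable def w129 : Wn := ⟨[], [⟨61, 24880, 2, 0, 58, 0, 120, 0, 0⟩, ⟨61, 19550, 2, 56, 120, 0, 2, 0, 0⟩], [⟨121, 8980, -182, 62, 60, 0, -120, 0, 0⟩]⟩
noncomputable def w130 : Wn := ⟨[], [⟨61, 18830, 2, 0, 120, 0, 60, 0, 0⟩, ⟨61, 24100, 2, 120, 58, 0, 2, 0, 0⟩, ⟨92, 16750, -91, 31, 60, 0, 0, 0, 0⟩], [⟨123, 9960, -184, 62, 62, 0, -122, 0, 0⟩]⟩
noncomputable def w131 : Wn := ⟨[], [⟨63, 23990, 2, 0, 60, 0, 124, 0, 0⟩, ⟨63, 19350, 2, 58, 124, 0, 2, 0, 0⟩, ⟨94, 17180, -93, 32, 61, 0, 0, 0, 0⟩], [⟨125, 10110, -188, 64, 62, 0, -124, 0, 0⟩]⟩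
noncomputable def w132 : Wn := ⟨[], [⟨63, 19580, 2, 0, 124, 0, 62, 0, 0⟩, ⟨63, 24970, 2, 124, 60, 0, 2, 0, 0⟩], [⟨127, 10230, -190, 64, 64, 0, -126, 0, 0⟩]⟩
noncomputable def w133 : Wn := ⟨[], [⟨65, 19540, 2, 0, 128, 0, 64, 0, 0⟩, ⟨65, 25110, 2, 128, 62, 0, 2, 0, 0⟩, ⟨98, 17850, -97, 33, 64, 0, 0, 0, 0⟩], [⟨131, 11150, -196, 66, 66, 0, -130, 0, 0⟩]⟩
noncomputable def w134 : Wn := ⟨[], [⟨67, 19970, 2, 0, 132, 0, 66, 0, 0⟩, ⟨67, 25660, 2, 132, 64, 0, 2, 0, 0⟩], [⟨135, 11740, -202, 68, 68, 0, -134, 0, 0⟩]⟩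
noncomputable def w135 : Wn := ⟨[], [⟨69, 26530, 2, 0, 66, 0, 136, 0, 0⟩, ⟨69, 20600, 2, 64, 136, 0, 2, 0, 0⟩], [⟨137, 11740, -206, 70, 68, 0, -136, 0, 0⟩]⟩
noncomputable def w136 : Wn := ⟨[], [⟨71, 20990, 2, 0, 140, 0, 70, 0, 0⟩, ⟨71, 26990, 2, 140, 68, 0, 2, 0, 0⟩], [⟨143, 12610, -214, 72, 72, 0, -142, 0, 0⟩]⟩
noncomputable def w137 : Wn := ⟨[], [⟨73, 27910, 2, 0, 70, 0, 144, 0, 0⟩, ⟨73, 21680, 2, 68, 144, 0, 2, 0, 0⟩], [⟨145, 12560, -218, 74, 72, 0, -144, 0, 0⟩]⟩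
noncomputable def w138 : Wn := ⟨[], [⟨75, 28280, 2, 0, 72, 0, 148, 0, 0⟩, ⟨75, 22730, 2, 70, 148, 0, 2, 0, 0⟩, ⟨112, 20490, -111, 38, 73, 0, 0, 0, 0⟩], [⟨149, 12430, -224, 76, 74, 0, -148, 0, 0⟩]⟩
noncomputable def w139 : Wn := ⟨[], [⟨75, 22960, 2, 0, 148, 0, 74, 0, 0⟩, ⟨75, 29260, 2, 148, 72, 0, 2, 0, 0⟩], [⟨151, 12550, -226, 76, 76, 0, -150, 0, 0⟩]⟩
noncomputable def w140 : Wn := ⟨[], [⟨77, 30940, 2, 0, 74, 0, 152, 0, 0⟩, ⟨77, 30300, 2, 150, 74, 0, 2, 0, 0⟩], [⟨153, 11730, -230, 78, 76, 0, -152, 0, 0⟩]⟩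
noncomputable def w141 : Wn := ⟨[], [⟨79, 31100, 2, 0, 76, 0, 156, 0, 0⟩, ⟨79, 25250, 2, 74, 156, 0, 2, 0, 0⟩, ⟨118, 21590, -117, 40, 77, 0, 0, 0, 0⟩], [⟨157, 11810, -236, 80, 78, 0, -156, 0, 0⟩]⟩
noncomputable def w142 : Wn := ⟨[], [⟨79, 25480, 2, 0, 156, 0, 78, 0, 0⟩, ⟨79, 32080, 2, 156, 76, 0, 2, 0, 0⟩], [⟨159, 11930, -238, 80, 80, 0, -158, 0, 0⟩]⟩
noncomputable def w143 : Wn := ⟨[], [⟨83, 25190, 2, 0, 164, 0, 82, 0, 0⟩, ⟨83, 32090, 2, 164, 80, 0, 2, 0, 0⟩], [⟨167, 14120, -250, 84, 84, 0, -166, 0, 0⟩]⟩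
noncomputable def w144 : Wn := ⟨[], [⟨3, 810, 2, 0, 0, 0, 0, 6, 0⟩, ⟨3, 810, 2, 0, 4, 0, 0, 2, 0⟩], [⟨7, 880, -10, 0, 4, 4, 0, -6, 0⟩]⟩
noncomputable def w145 : Wn := ⟨[], [⟨3, 620, 2, 0, 0, 0, 0, 6, 0⟩, ⟨3, 620, 2, 0, 4, 0, 0, 2, 0⟩], [⟨7, 210, -10, 0, 4, 4, 0, -6, 0⟩]⟩
noncomputable def w146 : Wn := ⟨[], [⟨3, 1090, 2, 0, 0, 0, 0, 6, 0⟩, ⟨3, 450, 2, 0, 4, 0, 0, 2, 0⟩], [⟨7, 210, -10, 0, 4, 4, 0, -6, 0⟩]⟩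
noncomputable def w147 : Wn := ⟨[], [⟨3, 1940, 2, 0, 0, 0, 0, 6, 0⟩, ⟨3, 1300, 2, 0, 4, 0, 0, 2, 0⟩], [⟨7, 1060, -10, 0, 4, 4, 0, -6, 0⟩]⟩
noncomputable def w148 : Wn := ⟨[⟨0, -93, 0, 0, -1, 1, 0, 0, 0⟩], [⟨5, 970, 2, 0, 0, 2, 0, 10, 0⟩, ⟨5, 1830, 2, 0, 8, 2, 0, 2, 0⟩, ⟨8, 1300, -7, 0, 3, 4, 0, 0, 0⟩], [⟨11, 1600, -16, 0, 6, 6, 0, -10, 0⟩]⟩
noncomputable def w149 : Wn := ⟨[⟨0, 99, 0, 0, 1, -1, 0, 0, 0⟩], [⟨5, 970, 2, 0, 0, 2, 0, 10, 0⟩, ⟨5, 810, 2, 0, 2, 8, 0, 2, 0⟩], [⟨11, 1410, -16, 0, 6, 6, 0, -10, 0⟩]⟩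
noncomputable def w150 : Wn := ⟨[⟨0, 99, 0, 0, 1, -1, 0, 0, 0⟩], [⟨5, 970, 2, 0, 0, 2, 0, 10, 0⟩, ⟨5, 1170, 2, 0, 8, 2, 0, 2, 0⟩], [⟨11, 1410, -16, 0, 6, 6, 0, -10, 0⟩]⟩
noncomputable def w151 : Wn := ⟨[⟨0, 99, 0, 0, 1, -1, 0, 0, 0⟩], [⟨5, 970, 2, 0, 0, 2, 0, 10, 0⟩, ⟨5, 1830, 2, 0, 8, 2, 0, 2, 0⟩], [⟨11, 1600, -16, 0, 6, 6, 0, -10, 0⟩]⟩
noncomputable def w152 : Wn := ⟨[], [⟨7, 1500, 2, 0, 0, 10, 0, 6, 0⟩, ⟨7, 2310, 2, 0, 12, 2, 0, 2, 0⟩], [⟨13, 1540, -20, 0, 6, 8, 0, -12, 0⟩, ⟨10, 1490, -9, 0, 3, 6, 0, 0, 0⟩]⟩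
noncomputable def w153 : Wn := ⟨[], [⟨7, 2090, 2, 0, 0, 4, 0, 12, 0⟩, ⟨7, 1840, 2, 0, 12, 2, 0, 2, 0⟩], [⟨13, 1540, -20, 0, 6, 8, 0, -12, 0⟩, ⟨10, 1490, -9, 0, 3, 6, 0, 0, 0⟩]⟩
noncomputable def w154 : Wn := ⟨[], [⟨7, 2550, 2, 0, 0, 4, 0, 12, 0⟩, ⟨7, 1670, 2, 0, 12, 2, 0, 2, 0⟩], [⟨13, 1540, -20, 0, 6, 8, 0, -12, 0⟩, ⟨10, 1490, -9, 0, 3, 6, 0, 0, 0⟩]⟩
noncomputable def w155 : Wn := ⟨[], [⟨7, 2090, 2, 0, 0, 4, 0, 12, 0⟩, ⟨7, 1840, 2, 0, 12, 2, 0, 2, 0⟩], [⟨13, 1540, -20, 0, 6, 8, 0, -12, 0⟩, ⟨10, 1400, -9, 0, 9, 5, 0, -5, 0⟩]⟩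
noncomputable def w156 : Wn := ⟨[], [⟨7, 2550, 2, 0, 0, 4, 0, 12, 0⟩, ⟨7, 1670, 2, 0, 12, 2, 0, 2, 0⟩], [⟨13, 1540, -20, 0, 6, 8, 0, -12, 0⟩, ⟨10, 1400, -9, 0, 9, 5, 0, -5, 0⟩]⟩
noncomputable def w157 : Wn := ⟨[⟨0, 99, 0, 0, 1, -1, 0, 0, 0⟩], [⟨7, 1890, 2, 0, 0, 4, 0, 12, 0⟩, ⟨7, 1470, 2, 0, 2, 12, 0, 2, 0⟩], [⟨13, 1340, -20, 0, 8, 6, 0, -12, 0⟩]⟩
noncomputable def w158 : Wn := ⟨[⟨0, 99, 0, 0, 1, -1, 0, 0, 0⟩], [⟨7, 1890, 2, 0, 0, 4, 0, 12, 0⟩, ⟨7, 1290, 2, 0, 2, 12, 0, 2, 0⟩], [⟨13, 670, -20, 0, 8, 6, 0, -12, 0⟩]⟩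
noncomputable def w159 : Wn := ⟨[⟨0, 99, 0, 0, 1, -1, 0, 0, 0⟩], [⟨7, 1890, 2, 0, 0, 4, 0, 12, 0⟩, ⟨7, 2140, 2, 0, 2, 12, 0, 2, 0⟩], [⟨13, 1520, -20, 0, 8, 6, 0, -12, 0⟩]⟩
noncomputable def w160 : Wn := ⟨[], [⟨7, 2390, 2, 0, 0, 4, 0, 14, 0⟩, ⟨7, 2390, 2, 0, 12, 4, 0, 2, 0⟩], [⟨15, 1490, -22, 0, 8, 8, 0, -14, 0⟩]⟩
noncomputable def w161 : Wn := ⟨[], [⟨7, 3520, 2, 0, 0, 4, 0, 14, 0⟩, ⟨7, 2370, 2, 0, 4, 12, 0, 2, 0⟩], [⟨15, 1680, -22, 0, 8, 8, 0, -14, 0⟩]⟩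
noncomputable def w162 : Wn := ⟨[], [⟨7, 2850, 2, 0, 0, 4, 0, 14, 0⟩, ⟨7, 2220, 2, 0, 12, 4, 0, 2, 0⟩], [⟨15, 1490, -22, 0, 8, 8, 0, -14, 0⟩]⟩
noncomputable def w163 : Wn := ⟨[], [⟨7, 2670, 2, 0, 0, 4, 0, 14, 0⟩, ⟨7, 2030, 2, 0, 12, 4, 0, 2, 0⟩], [⟨15, 830, -22, 0, 8, 8, 0, -14, 0⟩]⟩
noncomputable def w164 : Wn := ⟨[⟨0, -133, 0, 0, -1, 1, 0, 0, 0⟩], [⟨9, 2640, 2, 0, 0, 6, 0, 18, 0⟩, ⟨9, 3510, 2, 0, 16, 6, 0, 2, 0⟩, ⟨14, 2400, -13, 0, 5, 8, 0, 0, 0⟩], [⟨19, 2120, -28, 0, 10, 10, 0, -18, 0⟩]⟩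
noncomputable def w165 : Wn := ⟨[⟨0, -93, 0, 0, -1, 1, 0, 0, 0⟩], [⟨9, 2640, 2, 0, 0, 6, 0, 18, 0⟩, ⟨9, 3510, 2, 0, 16, 6, 0, 2, 0⟩, ⟨14, 2400, -13, 0, 5, 8, 0, 0, 0⟩], [⟨19, 2120, -28, 0, 10, 10, 0, -18, 0⟩]⟩
noncomputable def w166 : Wn := ⟨[⟨0, -133, 0, 0, -1, 1, 0, 0, 0⟩], [⟨9, 2640, 2, 0, 0, 6, 0, 18, 0⟩, ⟨9, 3510, 2, 0, 16, 6, 0, 2, 0⟩], [⟨19, 2120, -28, 0, 10, 10, 0, -18, 0⟩, ⟨14, 1960, -13, 0, 5, 8, 0, 0, 0⟩]⟩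
noncomputable def w167 : Wn := ⟨[⟨0, 99, 0, 0, 1, -1, 0, 0, 0⟩], [⟨9, 2640, 2, 0, 0, 6, 0, 18, 0⟩, ⟨9, 2170, 2, 0, 6, 16, 0, 2, 0⟩], [⟨19, 1940, -28, 0, 10, 10, 0, -18, 0⟩]⟩
noncomputable def w168 : Wn := ⟨[⟨0, 99, 0, 0, 1, -1, 0, 0, 0⟩], [⟨9, 2640, 2, 0, 0, 6, 0, 18, 0⟩, ⟨9, 1990, 2, 0, 6, 16, 0, 2, 0⟩], [⟨19, 1280, -28, 0, 10, 10, 0, -18, 0⟩]⟩
noncomputable def w169 : Wn := ⟨[⟨0, 99, 0, 0, 1, -1, 0, 0, 0⟩], [⟨9, 2640, 2, 0, 0, 6, 0, 18, 0⟩, ⟨9, 3510, 2, 0, 16, 6, 0, 2, 0⟩], [⟨19, 2120, -28, 0, 10, 10, 0, -18, 0⟩]⟩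
noncomputable def w170 : Wn := ⟨[], [⟨11, 3920, 2, 0, 0, 8, 0, 20, 0⟩, ⟨11, 3690, 2, 0, 20, 6, 0, 2, 0⟩], [⟨21, 1910, -32, 0, 10, 12, 0, -20, 0⟩, ⟨16, 2350, -15, 0, 15, 9, 0, -9, 0⟩]⟩
noncomputable def w171 : Wn := ⟨[], [⟨11, 4380, 2, 0, 0, 8, 0, 20, 0⟩, ⟨11, 3520, 2, 0, 20, 6, 0, 2, 0⟩], [⟨21, 1910, -32, 0, 10, 12, 0, -20, 0⟩, ⟨16, 2350, -15, 0, 15, 9, 0, -9, 0⟩]⟩
noncomputable def w172 : Wn := ⟨[⟨0, 99, 0, 0, 1, -1, 0, 0, 0⟩], [⟨11, 3720, 2, 0, 0, 8, 0, 20, 0⟩, ⟨11, 3010, 2, 0, 6, 20, 0, 2, 0⟩], [⟨21, 1710, -32, 0, 12, 10, 0, -20, 0⟩]⟩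
noncomputable def w173 : Wn := ⟨[⟨0, 99, 0, 0, 1, -1, 0, 0, 0⟩], [⟨11, 3720, 2, 0, 0, 8, 0, 20, 0⟩, ⟨11, 2820, 2, 0, 6, 20, 0, 2, 0⟩], [⟨21, 1050, -32, 0, 12, 10, 0, -20, 0⟩]⟩

noncomputable def wt1 : List Wn := [
  w87, w88, w89, w90, w91, w92, w93, w94, w95, w96, w97, w98, w99, w100, w101, w102, w103, w104,
  w105, w106, w107, w108, w109, w110, w111, w112, w113, w114, w115, w116, w117, w118, w119, w120,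
  w121, w122, w123, w124, w125, w126, w127, w128, w129, w130, w131, w132, w133, w134, w135, w136,
  w137, w138, w139, w140, w141, w142, w143, w144, w145, w146, w147, w148, w149, w150, w151, w152,
  w153, w154, w155, w156, w157, w158, w159, w160, w161, w162, w163, w164, w165, w166, w167, w168,
  w169, w170, w171, w172, w173]

noncomputable def we1 : List El7 := [
  .fm 680 ⟨0, 14, 14, 15, 2, 1, 1, 334, 100, 1000, 900, 1000, 1000, 159, 1132, 1045, -487, 0, 927⟩,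
  .fm 680 ⟨0, 14, 14, 15, 2, 1, 1, 527, 100, 1000, 900, 1000, 1000, 93, 1132, 1045, -487, 0, 1061⟩,
  .fm 680 ⟨0, 14, 14, 15, 1, 1, 1, 1000, 100, 1000, 900, 1000, 1000, 0, 1132, 1045, -487, 0, 769⟩,
  .fm 38760 ⟨0, 14, 15, 15, 2, 0, 1, 250, 1000, 100, 900, 1000, 1000, 201, 742, 1027, -616, 745, 0⟩,
  .fm 38760 ⟨0, 14, 15, 15, 2, 0, 1, 334, 1000, 100, 900, 1000, 1000, 159, 742, 1027, -616, 770, 0⟩,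
  .fm 38760 ⟨0, 14, 15, 15, 2, 0, 1, 400, 1000, 100, 900, 1000, 1000, 133, 742, 1027, -616, 792, 0⟩,
  .fm 38760 ⟨0, 14, 15, 15, 2, 0, 1, 527, 1000, 100, 900, 1000, 1000, 93, 742, 1027, -616, 792, 0⟩,
  .fm 5168 ⟨0, 15, 16, 16, 0, 0, 1, 1000, 450, 50, 500, 1000, 1000, 0, 902, 1200, -557, 0, 0⟩,
  .fm 1938 ⟨0, 16, 17, 17, 2, 0, 1, 250, 1000, 100, 900, 1000, 1000, 201, 987, 1302, -561, 848, 0⟩,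
  .fm 1938 ⟨0, 16, 17, 17, 2, 0, 1, 334, 1000, 100, 900, 1000, 1000, 159, 987, 1302, -561, 877, 0⟩,
  .fm 1938 ⟨0, 16, 17, 17, 2, 0, 1, 400, 1000, 100, 900, 1000, 1000, 133, 987, 1302, -561, 902, 0⟩,
  .fm 1938 ⟨0, 16, 17, 17, 1, 0, 1, 1000, 1000, 100, 900, 1000, 1000, 0, 987, 1302, -561, 902, 0⟩,
  .fm 15732 ⟨0, 17, 18, 18, 0, 0, 1, 1000, 450, 50, 500, 1000, 1000, 0, 1029, 1356, -621, 0, 0⟩,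
  .fm 1748 ⟨0, 18, 18, 19, 2, 1, 1, 334, 100, 1000, 900, 1000, 1000, 159, 1482, 1395, -578, 0, 1195⟩,
  .fm 1748 ⟨0, 18, 18, 19, 2, 1, 1, 400, 100, 1000, 900, 1000, 1000, 133, 1482, 1395, -578, 0, 1248⟩,
  .fm 1748 ⟨0, 18, 18, 19, 2, 1, 1, 527, 100, 1000, 900, 1000, 1000, 93, 1482, 1395, -578, 0, 1368⟩,
  .fm 1748 ⟨0, 18, 19, 19, 2, 0, 1, 250, 1000, 100, 900, 1000, 1000, 201, 1148, 1494, -590, 952, 0⟩,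
  .fm 1748 ⟨0, 18, 19, 19, 2, 0, 1, 334, 1000, 100, 900, 1000, 1000, 159, 1148, 1494, -590, 984, 0⟩,
  .fm 1748 ⟨0, 18, 19, 19, 2, 0, 1, 400, 1000, 100, 900, 1000, 1000, 133, 1148, 1494, -590, 1012, 0⟩,
  .fm 354200 ⟨0, 19, 20, 20, 0, 0, 1, 1000, 450, 50, 500, 1000, 1000, 0, 1097, 1455, -742, 0, 0⟩,
  .fm 35420 ⟨0, 20, 20, 21, 2, 1, 1, 334, 100, 1000, 900, 1000, 1000, 159, 1584, 1497, -696, 0, 1329⟩,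
  .fm 318780 ⟨0, 20, 21, 21, 2, 0, 1, 334, 1000, 100, 900, 1000, 1000, 159, 1157, 1532, -772, 1091, 0⟩,
  .fm 318780 ⟨0, 20, 21, 21, 2, 0, 1, 400, 1000, 100, 900, 1000, 1000, 133, 1157, 1532, -772, 1123, 0⟩,
  .fm 30360 ⟨0, 21, 22, 21, 1, 1, 0, 1000, 1000, 500, 500, 1000, 1000, 0, 1617, 1304, -690, 1166, 0⟩,
  .fm 30360 ⟨0, 21, 22, 22, 0, 0, 1, 1000, 450, 50, 500, 1000, 1000, 0, 1327, 1715, -703, 0, 0⟩,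
  .fm 80040 ⟨0, 22, 23, 23, 2, 0, 1, 334, 1000, 100, 900, 1000, 1000, 159, 1355, 1761, -763, 1198, 0⟩,
  .fm 80040 ⟨0, 22, 23, 23, 2, 0, 1, 400, 1000, 100, 900, 1000, 1000, 133, 1355, 1761, -763, 1233, 0⟩,
  .fm 8414640 ⟨0, 23, 24, 24, 0, 0, 1, 1000, 450, 50, 500, 1000, 1000, 0, 1324, 1742, -896, 0, 0⟩,
  .fm 3506100 ⟨0, 24, 25, 24, 0, 1, 0, 1000, 50, 450, 500, 1000, 1000, 0, 1850, 1408, -874, 0, 0⟩,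
  .fm 3506100 ⟨0, 24, 25, 25, 2, 0, 1, 334, 1000, 100, 900, 1000, 1000, 159, 1405, 1841, -904, 1305, 0⟩,
  .fm 3506100 ⟨0, 24, 25, 25, 2, 0, 1, 527, 1000, 100, 900, 1000, 1000, 93, 1405, 1841, -904, 1343, 0⟩,
  .fm 841464 ⟨0, 25, 26, 25, 1, 1, 0, 1000, 1000, 500, 500, 1000, 1000, 0, 1899, 1526, -849, 1387, 0⟩,
  .fm 841464 ⟨0, 25, 26, 26, 0, 0, 1, 1000, 450, 50, 500, 1000, 1000, 0, 1549, 1997, -861, 0, 0⟩,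
  .fm 64728 ⟨0, 26, 26, 27, 2, 1, 1, 334, 100, 1000, 900, 1000, 1000, 159, 2134, 2047, -807, 0, 1731⟩,
  .fm 64728 ⟨0, 26, 26, 27, 5, 0, 1, 334, 500, 1000, 500, 1000, 1000, 159, 1699, 2047, -790, 0, 0⟩,
  .fm 1359288 ⟨0, 26, 27, 27, 2, 0, 1, 334, 1000, 100, 900, 1000, 1000, 159, 1592, 2058, -907, 1412, 0⟩,
  .fm 1359288 ⟨0, 26, 27, 27, 2, 0, 1, 400, 1000, 100, 900, 1000, 1000, 133, 1592, 2058, -907, 1453, 0⟩,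
  .fm 100688 ⟨0, 27, 28, 27, 1, 1, 0, 1000, 1000, 500, 500, 1000, 1000, 0, 2150, 1746, -819, 1497, 0⟩,
  .fm 100688 ⟨0, 27, 28, 28, 0, 0, 1, 1000, 450, 50, 500, 1000, 1000, 0, 1769, 2248, -831, 0, 0⟩,
  .fm 266104 ⟨0, 28, 29, 29, 2, 0, 1, 334, 1000, 100, 900, 1000, 1000, 159, 1798, 2294, -891, 1519, 0⟩,
  .fm 266104 ⟨0, 28, 29, 29, 2, 0, 1, 400, 1000, 100, 900, 1000, 1000, 133, 1798, 2294, -891, 1563, 0⟩,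
  .fm 275280 ⟨0, 29, 30, 30, 0, 0, 1, 1000, 450, 50, 500, 1000, 1000, 0, 1899, 2408, -891, 0, 0⟩,
  .fm 311984 ⟨0, 30, 31, 30, 0, 1, 0, 1000, 50, 450, 500, 1000, 1000, 0, 2488, 1955, -898, 0, 0⟩,
  .fm 3431824 ⟨0, 30, 31, 31, 1, 0, 1, 1000, 1000, 100, 900, 1000, 1000, 0, 1883, 2410, -996, 1675, 0⟩,
  .fm 9077728 ⟨0, 31, 32, 31, 1, 1, 0, 1000, 1000, 500, 500, 1000, 1000, 0, 2399, 1935, -1011, 1718, 0⟩,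
  .fm 9077728 ⟨0, 31, 32, 32, 0, 0, 1, 1000, 450, 50, 500, 1000, 1000, 0, 1958, 2497, -1023, 0, 0⟩,
  .fm 73189182 ⟨0, 32, 33, 33, 1, 0, 1, 1000, 1000, 100, 900, 1000, 1000, 0, 1954, 2511, -1115, 1785, 0⟩,
  .fm 589949164 ⟨0, 33, 34, 34, 0, 0, 1, 1000, 450, 50, 500, 1000, 1000, 0, 1997, 2566, -1174, 0, 0⟩,
  .fm 520543380 ⟨0, 34, 35, 34, 0, 1, 0, 1000, 50, 450, 500, 1000, 1000, 0, 2653, 2060, -1174, 0, 0⟩,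
  .fm 4194092376 ⟨0, 35, 36, 36, 0, 0, 1, 1000, 450, 50, 500, 1000, 1000, 0, 2099, 2699, -1261, 0, 0⟩,
  .fm 3029066716 ⟨0, 36, 37, 36, 0, 1, 0, 1000, 50, 450, 500, 1000, 1000, 0, 2791, 2168, -1256, 0, 0⟩,
  .fm 1146133352 ⟨0, 37, 38, 37, 1, 1, 0, 1000, 1000, 500, 500, 1000, 1000, 0, 2828, 2273, -1243, 2049, 0⟩,
  .fm 1146133352 ⟨0, 37, 38, 38, 0, 0, 1, 1000, 450, 50, 500, 1000, 1000, 0, 2296, 2926, -1255, 0, 0⟩,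
  .fm 60322808 ⟨0, 38, 39, 38, 0, 1, 1, 1000, 50, 450, 500, 1000, 1000, 0, 3094, 3030, -1173, 0, 0⟩,
  .fm 46402160 ⟨0, 39, 40, 39, 1, 1, 0, 1000, 1000, 500, 500, 1000, 1000, 0, 3110, 2525, -1181, 2159, 0⟩,
  .fm 46402160 ⟨0, 39, 40, 40, 0, 0, 1, 1000, 450, 50, 500, 1000, 1000, 0, 2548, 3208, -1193, 0, 0⟩,
  .fm 31869116664 ⟨0, 41, 42, 42, 0, 0, 1, 1000, 450, 50, 500, 1000, 1000, 0, 2519, 3209, -1412, 0, 0⟩,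
  .fm 2 ⟨1, 1, 2, 2, 0, 1, 1, 1000, 250, 250, 500, 1000, 1000, 0, 81, 81, -88, 0, 0⟩,
  .fm 2 ⟨1, 1, 2, 2, 0, 1, 1, 1000, 475, 475, 50, 1000, 1000, 0, 62, 62, -21, 0, 0⟩,
  .fm 2 ⟨1, 1, 2, 2, 0, 1, 1, 1000, 95, 855, 50, 1000, 1000, 0, 109, 45, -21, 0, 0⟩,
  .fm 2 ⟨1, 1, 2, 2, 0, 1, 1, 1000, 5, 45, 950, 1000, 1000, 0, 194, 130, -106, 0, 0⟩,
  .fm 6 ⟨1, 2, 3, 3, 2, 1, 1, 527, 1000, 50, 950, 1000, 1000, 93, 97, 183, -160, 130, 0⟩,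
  .fm 6 ⟨1, 2, 3, 3, 7, 1, 0, 1000, 1000, 500, 500, 1000, 1000, 0, 97, 81, -141, 0, 0⟩,
  .fm 6 ⟨1, 2, 3, 3, 7, 1, 1, 1000, 1000, 500, 500, 1000, 1000, 0, 97, 117, -141, 0, 0⟩,
  .fm 6 ⟨1, 2, 3, 3, 7, 1, 1, 1000, 1000, 50, 950, 1000, 1000, 0, 97, 183, -160, 0, 0⟩,
  .fm 4 ⟨1, 3, 3, 4, 3, 0, 1, 1000, 900, 100, 1000, 1000, 1000, 0, 150, 231, -154, 149, 0⟩,
  .fm 4 ⟨1, 3, 3, 4, 3, 1, 1, 1000, 500, 500, 1000, 1000, 1000, 0, 209, 184, -154, 149, 0⟩,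
  .fm 4 ⟨1, 3, 3, 4, 3, 1, 1, 1000, 100, 900, 1000, 1000, 1000, 0, 255, 167, -154, 149, 0⟩,
  .fm 4 ⟨1, 3, 3, 4, 6, 1, 1, 1000, 500, 500, 1000, 1000, 1000, 0, 209, 184, -154, 0, 140⟩,
  .fm 4 ⟨1, 3, 3, 4, 6, 1, 1, 1000, 100, 900, 1000, 1000, 1000, 0, 255, 167, -154, 0, 140⟩,
  .fm 4 ⟨1, 3, 4, 3, 7, 1, 0, 1000, 1000, 500, 500, 1000, 1000, 0, 189, 147, -134, 0, 0⟩,
  .fm 4 ⟨1, 3, 4, 3, 7, 1, 0, 1000, 1000, 950, 50, 1000, 1000, 0, 189, 129, -67, 0, 0⟩,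
  .fm 4 ⟨1, 3, 4, 3, 7, 1, 0, 1000, 1000, 50, 950, 1000, 1000, 0, 189, 214, -152, 0, 0⟩,
  .fm 4 ⟨1, 3, 4, 4, 0, 1, 1, 1000, 250, 250, 500, 1000, 1000, 0, 239, 239, -149, 0, 0⟩,
  .fm 4 ⟨1, 3, 4, 4, 0, 1, 0, 1000, 5, 45, 950, 1000, 1000, 0, 352, 237, -168, 0, 0⟩,
  .fm 4 ⟨1, 3, 4, 4, 0, 1, 1, 1000, 50, 450, 500, 1000, 1000, 0, 285, 222, -149, 0, 0⟩,
  .fm 4 ⟨1, 3, 4, 4, 0, 1, 1, 1000, 95, 855, 50, 1000, 1000, 0, 267, 203, -83, 0, 0⟩,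
  .fm 10 ⟨1, 4, 5, 5, 2, 1, 1, 400, 1000, 50, 950, 1000, 1000, 133, 264, 351, -212, 240, 0⟩,
  .fm 10 ⟨1, 4, 5, 5, 2, 1, 1, 527, 1000, 50, 950, 1000, 1000, 93, 264, 351, -212, 240, 0⟩,
  .fm 10 ⟨1, 4, 5, 5, 4, 1, 1, 400, 1000, 50, 950, 1000, 1000, 133, 264, 351, -212, 196, 0⟩,
  .fm 10 ⟨1, 4, 5, 5, 7, 1, 0, 1000, 1000, 500, 500, 1000, 1000, 0, 264, 217, -194, 0, 0⟩,
  .fm 10 ⟨1, 4, 5, 5, 7, 1, 0, 1000, 1000, 950, 50, 1000, 1000, 0, 264, 199, -128, 0, 0⟩,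
  .fm 10 ⟨1, 4, 5, 5, 7, 1, 1, 1000, 1000, 50, 950, 1000, 1000, 0, 264, 351, -212, 0, 0⟩,
  .fm 4 ⟨1, 5, 5, 6, 6, 1, 1, 1000, 500, 500, 1000, 1000, 1000, 0, 392, 369, -191, 0, 235⟩,
  .fm 4 ⟨1, 5, 5, 6, 6, 1, 1, 1000, 100, 900, 1000, 1000, 1000, 0, 438, 352, -191, 0, 235⟩,
  .fm 4 ⟨1, 5, 6, 5, 7, 1, 0, 1000, 1000, 500, 500, 1000, 1000, 0, 372, 301, -171, 0, 0⟩,
  .fm 4 ⟨1, 5, 6, 5, 7, 1, 0, 1000, 1000, 950, 50, 1000, 1000, 0, 372, 282, -105, 0, 0⟩]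

theorem wt1_ok : ∀ w ∈ wt1, w.Ok := tab_ok7 we1 (by decide +kernel) (by decide +kernel)

noncomputable def v87 : VW := vw wt1_ok 0 w87 rfl
noncomputable def v88 : VW := vw wt1_ok 1 w88 rfl
noncomputable def v89 : VW := vw wt1_ok 2 w89 rfl
noncomputable def v90 : VW := vw wt1_ok 3 w90 rfl
noncomputable def v91 : VW := vw wt1_ok 4 w91 rfl
noncomputable def v92 : VW := vw wt1_ok 5 w92 rfl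
noncomputable def v93 : VW := vw wt1_ok 6 w93 rfl
noncomputable def v94 : VW := vw wt1_ok 7 w94 rfl
noncomputable def v95 : VW := vw wt1_ok 8 w95 rfl
noncomputable def v96 : VW := vw wt1_ok 9 w96 rfl
noncomputable def v97 : VW := vw wt1_ok 10 w97 rfl
noncomputable def v98 : VW := vw wt1_ok 11 w98 rfl
noncomputable def v99 : VW := vw wt1_ok 12 w99 rfl
noncomputable def v100 : VW := vw wt1_ok 13 w100 rfl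
noncomputable def v101 : VW := vw wt1_ok 14 w101 rfl
noncomputable def v102 : VW := vw wt1_ok 15 w102 rfl
noncomputable def v103 : VW := vw wt1_ok 16 w103 rfl
noncomputable def v104 : VW := vw wt1_ok 17 w104 rfl
noncomputable def v105 : VW := vw wt1_ok 18 w105 rfl
noncomputable def v106 : VW := vw wt1_ok 19 w106 rfl
noncomputable def v107 : VW := vw wt1_ok 20 w107 rfl
noncomputable def v108 : VW := vw wt1_ok 21 w108 rfl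
noncomputable def v109 : VW := vw wt1_ok 22 w109 rfl
noncomputable def v110 : VW := vw wt1_ok 23 w110 rfl
noncomputable def v111 : VW := vw wt1_ok 24 w111 rfl
noncomputable def v112 : VW := vw wt1_ok 25 w112 rfl
noncomputable def v113 : VW := vw wt1_ok 26 w113 rfl
noncomputable def v114 : VW := vw wt1_ok 27 w114 rfl
noncomputable def v115 : VW := vw wt1_ok 28 w115 rfl
noncomputable def v116 : VW := vw wt1_ok 29 w116 rfl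
noncomputable def v117 : VW := vw wt1_ok 30 w117 rfl
noncomputable def v118 : VW := vw wt1_ok 31 w118 rfl
noncomputable def v119 : VW := vw wt1_ok 32 w119 rfl
noncomputable def v120 : VW := vw wt1_ok 33 w120 rfl
noncomputable def v121 : VW := vw wt1_ok 34 w121 rfl
noncomputable def v122 : VW := vw wt1_ok 35 w122 rfl
noncomputable def v123 : VW := vw wt1_ok 36 w123 rfl
noncomputable def v124 : VW := vw wt1_ok 37 w124 rfl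
noncomputable def v125 : VW := vw wt1_ok 38 w125 rfl
noncomputable def v126 : VW := vw wt1_ok 39 w126 rfl
noncomputable def v127 : VW := vw wt1_ok 40 w127 rfl
noncomputable def v128 : VW := vw wt1_ok 41 w128 rfl
noncomputable def v129 : VW := vw wt1_ok 42 w129 rfl
noncomputable def v130 : VW := vw wt1_ok 43 w130 rfl
noncomputable def v131 : VW := vw wt1_ok 44 w131 rfl
noncomputable def v132 : VW := vw wt1_ok 45 w132 rfl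
noncomputable def v133 : VW := vw wt1_ok 46 w133 rfl
noncomputable def v134 : VW := vw wt1_ok 47 w134 rfl
noncomputable def v135 : VW := vw wt1_ok 48 w135 rfl
noncomputable def v136 : VW := vw wt1_ok 49 w136 rfl
noncomputable def v137 : VW := vw wt1_ok 50 w137 rfl
noncomputable def v138 : VW := vw wt1_ok 51 w138 rfl
noncomputable def v139 : VW := vw wt1_ok 52 w139 rfl
noncomputable def v140 : VW := vw wt1_ok 53 w140 rfl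
noncomputable def v141 : VW := vw wt1_ok 54 w141 rfl
noncomputable def v142 : VW := vw wt1_ok 55 w142 rfl
noncomputable def v143 : VW := vw wt1_ok 56 w143 rfl
noncomputable def v144 : VW := vw wt1_ok 57 w144 rfl
noncomputable def v145 : VW := vw wt1_ok 58 w145 rfl
noncomputable def v146 : VW := vw wt1_ok 59 w146 rfl
noncomputable def v147 : VW := vw wt1_ok 60 w147 rfl
noncomputable def v148 : VW := vw wt1_ok 61 w148 rfl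
noncomputable def v149 : VW := vw wt1_ok 62 w149 rfl
noncomputable def v150 : VW := vw wt1_ok 63 w150 rfl
noncomputable def v151 : VW := vw wt1_ok 64 w151 rfl
noncomputable def v152 : VW := vw wt1_ok 65 w152 rfl
noncomputable def v153 : VW := vw wt1_ok 66 w153 rfl
noncomputable def v154 : VW := vw wt1_ok 67 w154 rfl
noncomputable def v155 : VW := vw wt1_ok 68 w155 rfl
noncomputable def v156 : VW := vw wt1_ok 69 w156 rfl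
noncomputable def v157 : VW := vw wt1_ok 70 w157 rfl
noncomputable def v158 : VW := vw wt1_ok 71 w158 rfl
noncomputable def v159 : VW := vw wt1_ok 72 w159 rfl
noncomputable def v160 : VW := vw wt1_ok 73 w160 rfl
noncomputable def v161 : VW := vw wt1_ok 74 w161 rfl
noncomputable def v162 : VW := vw wt1_ok 75 w162 rfl
noncomputable def v163 : VW := vw wt1_ok 76 w163 rfl
noncomputable def v164 : VW := vw wt1_ok 77 w164 rfl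
noncomputable def v165 : VW := vw wt1_ok 78 w165 rfl
noncomputable def v166 : VW := vw wt1_ok 79 w166 rfl
noncomputable def v167 : VW := vw wt1_ok 80 w167 rfl
noncomputable def v168 : VW := vw wt1_ok 81 w168 rfl
noncomputable def v169 : VW := vw wt1_ok 82 w169 rfl
noncomputable def v170 : VW := vw wt1_ok 83 w170 rfl
noncomputable def v171 : VW := vw wt1_ok 84 w171 rfl
noncomputable def v172 : VW := vw wt1_ok 85 w172 rfl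
noncomputable def v173 : VW := vw wt1_ok 86 w173 rfl

end Pool.Agent.MP_2339ce_nt.Q2.TB.RT
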