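import Pool.Agent.MP_2339ce_nt.Q2.HA7
import Pool.Agent.MP_2339ce_nt.Q2.RTV

/-! Project Q2, block RT: valid windows. -/

set_option autoImplicit false

noncomputable section

namespace Pool.Agent.MP_2339ce_nt.Q2.TB.RT

noncomputable def w174 : Wn := ⟨[], [⟨11, 3350, 2, 0, 0, 8, 0, 22, 0⟩, ⟨11, 3350, 2, 0, 20, 8, 0, 2, 0⟩], [⟨23, 2730, -34, 0, 12, 12, 0, -22, 0⟩]⟩
noncomputable def w175 : Wn := ⟨[], [⟨11, 3810, 2, 0, 0, 8, 0, 22, 0⟩, ⟨11, 2360, 2, 0, 8, 20, 0, 2, 0⟩], [⟨23, 2730, -34, 0, 12, 12, 0, -22, 0⟩]⟩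
noncomputable def w176 : Wn := ⟨[], [⟨11, 3810, 2, 0, 0, 8, 0, 22, 0⟩, ⟨11, 3180, 2, 0, 20, 8, 0, 2, 0⟩], [⟨23, 2730, -34, 0, 12, 12, 0, -22, 0⟩]⟩
noncomputable def w177 : Wn := ⟨[], [⟨11, 3630, 2, 0, 0, 8, 0, 22, 0⟩, ⟨11, 3000, 2, 0, 20, 8, 0, 2, 0⟩], [⟨23, 2070, -34, 0, 12, 12, 0, -22, 0⟩]⟩
noncomputable def w178 : Wn := ⟨[], [⟨11, 4480, 2, 0, 0, 8, 0, 22, 0⟩, ⟨11, 3840, 2, 0, 20, 8, 0, 2, 0⟩], [⟨23, 2920, -34, 0, 12, 12, 0, -22, 0⟩]⟩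
noncomputable def w179 : Wn := ⟨[⟨0, -93, 0, 0, -1, 1, 0, 0, 0⟩], [⟨13, 3220, 2, 0, 0, 24, 0, 12, 0⟩, ⟨13, 4860, 2, 0, 24, 10, 0, 2, 0⟩, ⟨20, 3500, -19, 0, 7, 12, 0, 0, 0⟩], [⟨27, 2760, -40, 0, 14, 14, 0, -26, 0⟩]⟩
noncomputable def w180 : Wn := ⟨[], [⟨13, 3220, 2, 0, 0, 24, 0, 12, 0⟩, ⟨13, 4860, 2, 0, 24, 10, 0, 2, 0⟩, ⟨20, 3500, -19, 0, 7, 12, 0, 0, 0⟩], [⟨27, 2760, -40, 0, 14, 14, 0, -26, 0⟩]⟩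
noncomputable def w181 : Wn := ⟨[⟨0, -133, 0, 0, -1, 1, 0, 0, 0⟩], [⟨13, 4190, 2, 0, 0, 10, 0, 26, 0⟩, ⟨13, 4390, 2, 0, 24, 10, 0, 2, 0⟩], [⟨27, 2590, -40, 0, 14, 14, 0, -26, 0⟩, ⟨20, 2950, -19, 0, 7, 12, 0, 0, 0⟩]⟩
noncomputable def w182 : Wn := ⟨[⟨0, 99, 0, 0, 1, -1, 0, 0, 0⟩], [⟨13, 4190, 2, 0, 0, 10, 0, 26, 0⟩, ⟨13, 4390, 2, 0, 24, 10, 0, 2, 0⟩], [⟨27, 2590, -40, 0, 14, 14, 0, -26, 0⟩]⟩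
noncomputable def w183 : Wn := ⟨[], [⟨15, 5260, 2, 0, 0, 12, 0, 28, 0⟩, ⟨15, 5040, 2, 0, 28, 10, 0, 2, 0⟩], [⟨29, 2780, -44, 0, 14, 16, 0, -28, 0⟩, ⟨22, 3400, -21, 0, 7, 14, 0, 0, 0⟩]⟩
noncomputable def w184 : Wn := ⟨[], [⟨15, 5720, 2, 0, 0, 12, 0, 28, 0⟩, ⟨15, 4870, 2, 0, 28, 10, 0, 2, 0⟩], [⟨29, 2780, -44, 0, 14, 16, 0, -28, 0⟩, ⟨22, 3300, -21, 0, 21, 13, 0, -13, 0⟩]⟩
noncomputable def w185 : Wn := ⟨[⟨0, 99, 0, 0, 1, -1, 0, 0, 0⟩], [⟨15, 5060, 2, 0, 0, 12, 0, 28, 0⟩, ⟨15, 4040, 2, 0, 10, 28, 0, 2, 0⟩], [⟨29, 2580, -44, 0, 16, 14, 0, -28, 0⟩]⟩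
noncomputable def w186 : Wn := ⟨[], [⟨15, 5570, 2, 0, 0, 12, 0, 30, 0⟩, ⟨15, 5570, 2, 0, 28, 12, 0, 2, 0⟩], [⟨31, 2710, -46, 0, 16, 16, 0, -30, 0⟩]⟩
noncomputable def w187 : Wn := ⟨[], [⟨15, 6030, 2, 0, 0, 12, 0, 30, 0⟩, ⟨15, 4270, 2, 0, 12, 28, 0, 2, 0⟩], [⟨31, 2710, -46, 0, 16, 16, 0, -30, 0⟩]⟩
noncomputable def w188 : Wn := ⟨[], [⟨15, 6030, 2, 0, 0, 12, 0, 30, 0⟩, ⟨15, 5400, 2, 0, 28, 12, 0, 2, 0⟩], [⟨31, 2710, -46, 0, 16, 16, 0, -30, 0⟩]⟩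
noncomputable def w189 : Wn := ⟨[⟨0, -93, 0, 0, -1, 1, 0, 0, 0⟩], [⟨17, 4220, 2, 0, 0, 32, 0, 16, 0⟩, ⟨17, 6160, 2, 0, 32, 14, 0, 2, 0⟩, ⟨26, 4610, -25, 0, 9, 16, 0, 0, 0⟩], [⟨35, 3660, -52, 0, 18, 18, 0, -34, 0⟩]⟩
noncomputable def w190 : Wn := ⟨[], [⟨17, 4220, 2, 0, 0, 32, 0, 16, 0⟩, ⟨17, 6160, 2, 0, 32, 14, 0, 2, 0⟩, ⟨26, 4610, -25, 0, 9, 16, 0, 0, 0⟩], [⟨35, 3660, -52, 0, 18, 18, 0, -34, 0⟩]⟩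
noncomputable def w191 : Wn := ⟨[⟨0, -133, 0, 0, -1, 1, 0, 0, 0⟩], [⟨17, 5500, 2, 0, 0, 14, 0, 34, 0⟩, ⟨17, 5700, 2, 0, 32, 14, 0, 2, 0⟩], [⟨35, 3490, -52, 0, 18, 18, 0, -34, 0⟩, ⟨26, 3920, -25, 0, 9, 16, 0, 0, 0⟩]⟩
noncomputable def w192 : Wn := ⟨[⟨0, 99, 0, 0, 1, -1, 0, 0, 0⟩], [⟨17, 5500, 2, 0, 0, 14, 0, 34, 0⟩, ⟨17, 4420, 2, 0, 14, 32, 0, 2, 0⟩], [⟨35, 3490, -52, 0, 18, 18, 0, -34, 0⟩]⟩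
noncomputable def w193 : Wn := ⟨[⟨0, 99, 0, 0, 1, -1, 0, 0, 0⟩], [⟨17, 5500, 2, 0, 0, 14, 0, 34, 0⟩, ⟨17, 5700, 2, 0, 32, 14, 0, 2, 0⟩], [⟨35, 3490, -52, 0, 18, 18, 0, -34, 0⟩]⟩
noncomputable def w194 : Wn := ⟨[⟨0, 99, 0, 0, 1, -1, 0, 0, 0⟩], [⟨19, 6290, 2, 0, 0, 16, 0, 36, 0⟩, ⟨19, 6490, 2, 0, 34, 16, 0, 2, 0⟩], [⟨37, 3560, -56, 0, 20, 18, 0, -36, 0⟩]⟩
noncomputable def w195 : Wn := ⟨[], [⟨19, 6800, 2, 0, 0, 16, 0, 38, 0⟩, ⟨19, 6800, 2, 0, 36, 16, 0, 2, 0⟩], [⟨39, 3690, -58, 0, 20, 20, 0, -38, 0⟩]⟩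
noncomputable def w196 : Wn := ⟨[], [⟨19, 7270, 2, 0, 0, 16, 0, 38, 0⟩, ⟨19, 5200, 2, 0, 16, 36, 0, 2, 0⟩], [⟨39, 3690, -58, 0, 20, 20, 0, -38, 0⟩]⟩
noncomputable def w197 : Wn := ⟨[], [⟨19, 7270, 2, 0, 0, 16, 0, 38, 0⟩, ⟨19, 6630, 2, 0, 36, 16, 0, 2, 0⟩], [⟨39, 3690, -58, 0, 20, 20, 0, -38, 0⟩]⟩
noncomputable def w198 : Wn := ⟨[⟨0, -93, 0, 0, -1, 1, 0, 0, 0⟩], [⟨21, 5480, 2, 0, 0, 40, 0, 20, 0⟩, ⟨21, 7730, 2, 0, 40, 18, 0, 2, 0⟩, ⟨32, 5710, -31, 0, 11, 20, 0, 0, 0⟩], [⟨43, 4300, -64, 0, 22, 22, 0, -42, 0⟩]⟩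
noncomputable def w199 : Wn := ⟨[], [⟨21, 5480, 2, 0, 0, 40, 0, 20, 0⟩, ⟨21, 7730, 2, 0, 40, 18, 0, 2, 0⟩, ⟨32, 5710, -31, 0, 11, 20, 0, 0, 0⟩], [⟨43, 4300, -64, 0, 22, 22, 0, -42, 0⟩]⟩
noncomputable def w200 : Wn := ⟨[⟨0, 99, 0, 0, 1, -1, 0, 0, 0⟩], [⟨21, 7060, 2, 0, 0, 18, 0, 42, 0⟩, ⟨21, 5680, 2, 0, 18, 40, 0, 2, 0⟩], [⟨43, 4130, -64, 0, 22, 22, 0, -42, 0⟩]⟩
noncomputable def w201 : Wn := ⟨[⟨0, 99, 0, 0, 1, -1, 0, 0, 0⟩], [⟨21, 7060, 2, 0, 0, 18, 0, 42, 0⟩, ⟨21, 7260, 2, 0, 40, 18, 0, 2, 0⟩], [⟨43, 4130, -64, 0, 22, 22, 0, -42, 0⟩]⟩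
noncomputable def w202 : Wn := ⟨[], [⟨23, 8580, 2, 0, 0, 20, 0, 46, 0⟩, ⟨23, 8580, 2, 0, 44, 20, 0, 2, 0⟩], [⟨47, 4110, -70, 0, 24, 24, 0, -46, 0⟩]⟩
noncomputable def w203 : Wn := ⟨[], [⟨23, 9040, 2, 0, 0, 20, 0, 46, 0⟩, ⟨23, 6670, 2, 0, 20, 44, 0, 2, 0⟩], [⟨47, 4110, -70, 0, 24, 24, 0, -46, 0⟩]⟩
noncomputable def w204 : Wn := ⟨[⟨0, -93, 0, 0, -1, 1, 0, 0, 0⟩], [⟨25, 7190, 2, 0, 0, 48, 0, 24, 0⟩, ⟨25, 9740, 2, 0, 48, 22, 0, 2, 0⟩, ⟨38, 6810, -37, 0, 13, 24, 0, 0, 0⟩], [⟨51, 4490, -76, 0, 26, 26, 0, -50, 0⟩]⟩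
noncomputable def w205 : Wn := ⟨[], [⟨25, 7190, 2, 0, 0, 48, 0, 24, 0⟩, ⟨25, 9740, 2, 0, 48, 22, 0, 2, 0⟩, ⟨38, 6810, -37, 0, 13, 24, 0, 0, 0⟩], [⟨51, 4490, -76, 0, 26, 26, 0, -50, 0⟩]⟩
noncomputable def w206 : Wn := ⟨[], [⟨25, 9070, 2, 0, 0, 22, 0, 50, 0⟩, ⟨25, 7390, 2, 0, 22, 48, 0, 2, 0⟩, ⟨38, 6810, -37, 0, 13, 24, 0, 0, 0⟩], [⟨51, 4320, -76, 0, 26, 26, 0, -50, 0⟩]⟩
noncomputable def w207 : Wn := ⟨[], [⟨27, 10140, 2, 0, 0, 24, 0, 54, 0⟩, ⟨27, 10140, 2, 0, 52, 24, 0, 2, 0⟩], [⟨55, 4760, -82, 0, 28, 28, 0, -54, 0⟩]⟩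
noncomputable def w208 : Wn := ⟨[], [⟨27, 10600, 2, 0, 0, 24, 0, 54, 0⟩, ⟨27, 7930, 2, 0, 24, 52, 0, 2, 0⟩], [⟨55, 4760, -82, 0, 28, 28, 0, -54, 0⟩]⟩
noncomputable def w209 : Wn := ⟨[], [⟨27, 10600, 2, 0, 0, 24, 0, 54, 0⟩, ⟨27, 9970, 2, 0, 52, 24, 0, 2, 0⟩], [⟨55, 4760, -82, 0, 28, 28, 0, -54, 0⟩]⟩
noncomputable def w210 : Wn := ⟨[⟨0, -93, 0, 0, -1, 1, 0, 0, 0⟩], [⟨29, 7420, 2, 0, 0, 56, 0, 28, 0⟩, ⟨29, 10270, 2, 0, 56, 26, 0, 2, 0⟩, ⟨44, 7920, -43, 0, 15, 28, 0, 0, 0⟩], [⟨59, 6160, -88, 0, 30, 30, 0, -58, 0⟩]⟩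
noncomputable def w211 : Wn := ⟨[], [⟨29, 7420, 2, 0, 0, 56, 0, 28, 0⟩, ⟨29, 10270, 2, 0, 56, 26, 0, 2, 0⟩, ⟨44, 7920, -43, 0, 15, 28, 0, 0, 0⟩], [⟨59, 6160, -88, 0, 30, 30, 0, -58, 0⟩]⟩
noncomputable def w212 : Wn := ⟨[], [⟨29, 9610, 2, 0, 0, 26, 0, 58, 0⟩, ⟨29, 7620, 2, 0, 26, 56, 0, 2, 0⟩, ⟨44, 7920, -43, 0, 15, 28, 0, 0, 0⟩], [⟨59, 5990, -88, 0, 30, 30, 0, -58, 0⟩]⟩
noncomputable def w213 : Wn := ⟨[], [⟨31, 11530, 2, 0, 0, 28, 0, 62, 0⟩, ⟨31, 11530, 2, 0, 60, 28, 0, 2, 0⟩], [⟨63, 5570, -94, 0, 32, 32, 0, -62, 0⟩]⟩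
noncomputable def w214 : Wn := ⟨[], [⟨31, 12000, 2, 0, 0, 28, 0, 62, 0⟩, ⟨31, 9020, 2, 0, 28, 60, 0, 2, 0⟩], [⟨63, 5570, -94, 0, 32, 32, 0, -62, 0⟩]⟩
noncomputable def w215 : Wn := ⟨[], [⟨31, 12000, 2, 0, 0, 28, 0, 62, 0⟩, ⟨31, 11360, 2, 0, 60, 28, 0, 2, 0⟩], [⟨63, 5570, -94, 0, 32, 32, 0, -62, 0⟩]⟩
noncomputable def w216 : Wn := ⟨[⟨0, -93, 0, 0, -1, 1, 0, 0, 0⟩], [⟨33, 9870, 2, 0, 0, 64, 0, 32, 0⟩, ⟨33, 13020, 2, 0, 64, 30, 0, 2, 0⟩, ⟨50, 9020, -49, 0, 17, 32, 0, 0, 0⟩], [⟨67, 5610, -100, 0, 34, 34, 0, -66, 0⟩]⟩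
noncomputable def w217 : Wn := ⟨[], [⟨33, 9870, 2, 0, 0, 64, 0, 32, 0⟩, ⟨33, 13020, 2, 0, 64, 30, 0, 2, 0⟩, ⟨50, 9020, -49, 0, 17, 32, 0, 0, 0⟩], [⟨67, 5610, -100, 0, 34, 34, 0, -66, 0⟩]⟩
noncomputable def w218 : Wn := ⟨[], [⟨33, 12360, 2, 0, 0, 30, 0, 66, 0⟩, ⟨33, 10070, 2, 0, 30, 64, 0, 2, 0⟩, ⟨50, 9020, -49, 0, 17, 32, 0, 0, 0⟩], [⟨67, 5440, -100, 0, 34, 34, 0, -66, 0⟩]⟩
noncomputable def w219 : Wn := ⟨[], [⟨35, 13100, 2, 0, 0, 32, 0, 70, 0⟩, ⟨35, 13100, 2, 0, 68, 32, 0, 2, 0⟩], [⟨71, 6210, -106, 0, 36, 36, 0, -70, 0⟩]⟩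
noncomputable def w220 : Wn := ⟨[], [⟨35, 13560, 2, 0, 0, 32, 0, 70, 0⟩, ⟨35, 10290, 2, 0, 32, 68, 0, 2, 0⟩], [⟨71, 6210, -106, 0, 36, 36, 0, -70, 0⟩]⟩
noncomputable def w221 : Wn := ⟨[], [⟨35, 13560, 2, 0, 0, 32, 0, 70, 0⟩, ⟨35, 12930, 2, 0, 68, 32, 0, 2, 0⟩], [⟨71, 6210, -106, 0, 36, 36, 0, -70, 0⟩]⟩
noncomputable def w222 : Wn := ⟨[⟨0, -93, 0, 0, -1, 1, 0, 0, 0⟩], [⟨37, 11480, 2, 0, 0, 72, 0, 36, 0⟩, ⟨37, 14940, 2, 0, 72, 34, 0, 2, 0⟩, ⟨56, 10120, -55, 0, 19, 36, 0, 0, 0⟩], [⟨75, 5900, -112, 0, 38, 38, 0, -74, 0⟩]⟩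
noncomputable def w223 : Wn := ⟨[], [⟨37, 11480, 2, 0, 0, 72, 0, 36, 0⟩, ⟨37, 14940, 2, 0, 72, 34, 0, 2, 0⟩, ⟨56, 10120, -55, 0, 19, 36, 0, 0, 0⟩], [⟨75, 5900, -112, 0, 38, 38, 0, -74, 0⟩]⟩
noncomputable def w224 : Wn := ⟨[], [⟨37, 14270, 2, 0, 0, 34, 0, 74, 0⟩, ⟨37, 11680, 2, 0, 34, 72, 0, 2, 0⟩, ⟨56, 10120, -55, 0, 19, 36, 0, 0, 0⟩], [⟨75, 5730, -112, 0, 38, 38, 0, -74, 0⟩]⟩
noncomputable def w225 : Wn := ⟨[], [⟨39, 14090, 2, 0, 0, 36, 0, 78, 0⟩, ⟨39, 14090, 2, 0, 76, 36, 0, 2, 0⟩], [⟨79, 7420, -118, 0, 40, 40, 0, -78, 0⟩]⟩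
noncomputable def w226 : Wn := ⟨[], [⟨39, 14550, 2, 0, 0, 36, 0, 78, 0⟩, ⟨39, 10970, 2, 0, 36, 76, 0, 2, 0⟩], [⟨79, 7420, -118, 0, 40, 40, 0, -78, 0⟩]⟩
noncomputable def w227 : Wn := ⟨[⟨0, -93, 0, 0, -1, 1, 0, 0, 0⟩], [⟨41, 11570, 2, 0, 0, 80, 0, 40, 0⟩, ⟨41, 15320, 2, 0, 80, 38, 0, 2, 0⟩, ⟨62, 11230, -61, 0, 21, 40, 0, 0, 0⟩], [⟨83, 7720, -124, 0, 42, 42, 0, -82, 0⟩]⟩
noncomputable def w228 : Wn := ⟨[], [⟨41, 11570, 2, 0, 0, 80, 0, 40, 0⟩, ⟨41, 15320, 2, 0, 80, 38, 0, 2, 0⟩, ⟨62, 11230, -61, 0, 21, 40, 0, 0, 0⟩], [⟨83, 7720, -124, 0, 42, 42, 0, -82, 0⟩]⟩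
noncomputable def w229 : Wn := ⟨[], [⟨41, 14660, 2, 0, 0, 38, 0, 82, 0⟩, ⟨41, 11770, 2, 0, 38, 80, 0, 2, 0⟩, ⟨62, 11230, -61, 0, 21, 40, 0, 0, 0⟩], [⟨83, 7550, -124, 0, 42, 42, 0, -82, 0⟩]⟩
noncomputable def w230 : Wn := ⟨[], [⟨43, 17150, 2, 0, 0, 40, 0, 86, 0⟩, ⟨43, 13270, 2, 0, 40, 84, 0, 2, 0⟩], [⟨87, 7030, -130, 0, 44, 44, 0, -86, 0⟩]⟩
noncomputable def w231 : Wn := ⟨[], [⟨45, 13550, 2, 0, 0, 88, 0, 44, 0⟩, ⟨45, 17610, 2, 0, 88, 42, 0, 2, 0⟩, ⟨68, 12330, -67, 0, 23, 44, 0, 0, 0⟩], [⟨91, 7630, -136, 0, 46, 46, 0, -90, 0⟩]⟩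
noncomputable def w232 : Wn := ⟨[], [⟨45, 16950, 2, 0, 0, 42, 0, 90, 0⟩, ⟨45, 13750, 2, 0, 42, 88, 0, 2, 0⟩, ⟨68, 12330, -67, 0, 23, 44, 0, 0, 0⟩], [⟨91, 7460, -136, 0, 46, 46, 0, -90, 0⟩]⟩
noncomputable def w233 : Wn := ⟨[], [⟨47, 17420, 2, 0, 0, 44, 0, 94, 0⟩, ⟨47, 13240, 2, 0, 44, 92, 0, 2, 0⟩], [⟨95, 8960, -142, 0, 48, 48, 0, -94, 0⟩]⟩
noncomputable def w234 : Wn := ⟨[], [⟨47, 17420, 2, 0, 0, 44, 0, 94, 0⟩, ⟨47, 16780, 2, 0, 92, 44, 0, 2, 0⟩], [⟨95, 8960, -142, 0, 48, 48, 0, -94, 0⟩]⟩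
noncomputable def w235 : Wn := ⟨[], [⟨49, 14050, 2, 0, 0, 96, 0, 48, 0⟩, ⟨49, 18410, 2, 0, 96, 46, 0, 2, 0⟩, ⟨74, 13430, -73, 0, 25, 48, 0, 0, 0⟩], [⟨99, 9040, -148, 0, 50, 50, 0, -98, 0⟩]⟩
noncomputable def w236 : Wn := ⟨[], [⟨49, 17750, 2, 0, 0, 46, 0, 98, 0⟩, ⟨49, 17950, 2, 0, 96, 46, 0, 2, 0⟩, ⟨74, 13430, -73, 0, 25, 48, 0, 0, 0⟩], [⟨99, 8870, -148, 0, 50, 50, 0, -98, 0⟩]⟩
noncomputable def w237 : Wn := ⟨[], [⟨51, 19970, 2, 0, 0, 48, 0, 102, 0⟩, ⟨51, 15490, 2, 0, 48, 100, 0, 2, 0⟩], [⟨103, 8610, -154, 0, 52, 52, 0, -102, 0⟩]⟩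
noncomputable def w238 : Wn := ⟨[], [⟨51, 19970, 2, 0, 0, 48, 0, 102, 0⟩, ⟨51, 19340, 2, 0, 100, 48, 0, 2, 0⟩], [⟨103, 8610, -154, 0, 52, 52, 0, -102, 0⟩]⟩
noncomputable def w239 : Wn := ⟨[], [⟨53, 15920, 2, 0, 0, 104, 0, 52, 0⟩, ⟨53, 20580, 2, 0, 104, 50, 0, 2, 0⟩, ⟨80, 14540, -79, 0, 27, 52, 0, 0, 0⟩], [⟨107, 9070, -160, 0, 54, 54, 0, -106, 0⟩]⟩
noncomputable def w240 : Wn := ⟨[], [⟨53, 19920, 2, 0, 0, 50, 0, 106, 0⟩, ⟨53, 16120, 2, 0, 50, 104, 0, 2, 0⟩, ⟨80, 14540, -79, 0, 27, 52, 0, 0, 0⟩], [⟨107, 8900, -160, 0, 54, 54, 0, -106, 0⟩]⟩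
noncomputable def w241 : Wn := ⟨[], [⟨55, 22480, 2, 0, 0, 52, 0, 110, 0⟩, ⟨55, 17690, 2, 0, 52, 108, 0, 2, 0⟩], [⟨111, 8310, -166, 0, 56, 56, 0, -110, 0⟩]⟩
noncomputable def w242 : Wn := ⟨[], [⟨55, 22480, 2, 0, 0, 52, 0, 110, 0⟩, ⟨55, 21840, 2, 0, 108, 52, 0, 2, 0⟩], [⟨111, 8310, -166, 0, 56, 56, 0, -110, 0⟩]⟩
noncomputable def w243 : Wn := ⟨[], [⟨57, 17980, 2, 0, 0, 112, 0, 56, 0⟩, ⟨57, 22940, 2, 0, 112, 54, 0, 2, 0⟩, ⟨86, 15640, -85, 0, 29, 56, 0, 0, 0⟩], [⟨115, 8910, -172, 0, 58, 58, 0, -114, 0⟩]⟩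
noncomputable def w244 : Wn := ⟨[], [⟨57, 22280, 2, 0, 0, 54, 0, 114, 0⟩, ⟨57, 18180, 2, 0, 54, 112, 0, 2, 0⟩, ⟨86, 15640, -85, 0, 29, 56, 0, 0, 0⟩], [⟨115, 8740, -172, 0, 58, 58, 0, -114, 0⟩]⟩
noncomputable def w245 : Wn := ⟨[], [⟨59, 24080, 2, 0, 0, 56, 0, 118, 0⟩, ⟨59, 18990, 2, 0, 56, 116, 0, 2, 0⟩], [⟨119, 8910, -178, 0, 60, 60, 0, -118, 0⟩]⟩
noncomputable def w246 : Wn := ⟨[], [⟨59, 24080, 2, 0, 0, 56, 0, 118, 0⟩, ⟨59, 23450, 2, 0, 116, 56, 0, 2, 0⟩], [⟨119, 8910, -178, 0, 60, 60, 0, -118, 0⟩]⟩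
noncomputable def w247 : Wn := ⟨[], [⟨61, 18830, 2, 0, 0, 120, 0, 60, 0⟩, ⟨61, 24100, 2, 0, 120, 58, 0, 2, 0⟩, ⟨92, 16750, -91, 0, 31, 60, 0, 0, 0⟩], [⟨123, 9960, -184, 0, 62, 62, 0, -122, 0⟩]⟩
noncomputable def w248 : Wn := ⟨[], [⟨61, 23440, 2, 0, 0, 58, 0, 122, 0⟩, ⟨61, 19030, 2, 0, 58, 120, 0, 2, 0⟩, ⟨92, 16750, -91, 0, 31, 60, 0, 0, 0⟩], [⟨123, 9790, -184, 0, 62, 62, 0, -122, 0⟩]⟩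
noncomputable def w249 : Wn := ⟨[], [⟨63, 24970, 2, 0, 0, 60, 0, 126, 0⟩, ⟨63, 19580, 2, 0, 60, 124, 0, 2, 0⟩], [⟨127, 10230, -190, 0, 64, 64, 0, -126, 0⟩]⟩
noncomputable def w250 : Wn := ⟨[], [⟨63, 24970, 2, 0, 0, 60, 0, 126, 0⟩, ⟨63, 24330, 2, 0, 124, 60, 0, 2, 0⟩], [⟨127, 10230, -190, 0, 64, 64, 0, -126, 0⟩]⟩
noncomputable def w251 : Wn := ⟨[], [⟨65, 19540, 2, 0, 0, 128, 0, 64, 0⟩, ⟨65, 25110, 2, 0, 128, 62, 0, 2, 0⟩, ⟨98, 17850, -97, 0, 33, 64, 0, 0, 0⟩], [⟨131, 11150, -196, 0, 66, 66, 0, -130, 0⟩]⟩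
noncomputable def w252 : Wn := ⟨[], [⟨67, 25660, 2, 0, 0, 64, 0, 134, 0⟩, ⟨67, 19970, 2, 0, 64, 132, 0, 2, 0⟩], [⟨135, 11740, -202, 0, 68, 68, 0, -134, 0⟩]⟩
noncomputable def w253 : Wn := ⟨[], [⟨67, 25660, 2, 0, 0, 64, 0, 134, 0⟩, ⟨67, 25020, 2, 0, 132, 64, 0, 2, 0⟩], [⟨135, 11740, -202, 0, 68, 68, 0, -134, 0⟩]⟩
noncomputable def w254 : Wn := ⟨[], [⟨69, 20570, 2, 0, 0, 136, 0, 68, 0⟩, ⟨69, 26440, 2, 0, 136, 66, 0, 2, 0⟩, ⟨104, 18950, -103, 0, 35, 68, 0, 0, 0⟩], [⟨139, 12030, -208, 0, 70, 70, 0, -138, 0⟩]⟩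
noncomputable def w255 : Wn := ⟨[], [⟨71, 26990, 2, 0, 0, 68, 0, 142, 0⟩, ⟨71, 20990, 2, 0, 68, 140, 0, 2, 0⟩], [⟨143, 12610, -214, 0, 72, 72, 0, -142, 0⟩]⟩
noncomputable def w256 : Wn := ⟨[], [⟨73, 21650, 2, 0, 0, 144, 0, 72, 0⟩, ⟨73, 27830, 2, 0, 144, 70, 0, 2, 0⟩, ⟨110, 20060, -109, 0, 37, 72, 0, 0, 0⟩], [⟨147, 12840, -220, 0, 74, 74, 0, -146, 0⟩]⟩
noncomputable def w257 : Wn := ⟨[], [⟨75, 28790, 2, 0, 0, 72, 0, 150, 0⟩, ⟨75, 28790, 2, 0, 148, 72, 0, 2, 0⟩], [⟨151, 12550, -226, 0, 76, 76, 0, -150, 0⟩]⟩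
noncomputable def w258 : Wn := ⟨[], [⟨75, 29260, 2, 0, 0, 72, 0, 150, 0⟩, ⟨75, 22960, 2, 0, 72, 148, 0, 2, 0⟩], [⟨151, 12550, -226, 0, 76, 76, 0, -150, 0⟩]⟩
noncomputable def w259 : Wn := ⟨[], [⟨77, 24060, 2, 0, 0, 152, 0, 76, 0⟩, ⟨77, 30540, 2, 0, 152, 74, 0, 2, 0⟩, ⟨116, 21160, -115, 0, 39, 76, 0, 0, 0⟩], [⟨155, 12340, -232, 0, 78, 78, 0, -154, 0⟩]⟩
noncomputable def w260 : Wn := ⟨[], [⟨79, 32080, 2, 0, 0, 76, 0, 158, 0⟩, ⟨79, 25480, 2, 0, 76, 156, 0, 2, 0⟩], [⟨159, 11930, -238, 0, 80, 80, 0, -158, 0⟩]⟩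

noncomputable def wt2 : List Wn := [
  w174, w175, w176, w177, w178, w179, w180, w181, w182, w183, w184, w185, w186, w187, w188, w189,
  w190, w191, w192, w193, w194, w195, w196, w197, w198, w199, w200, w201, w202, w203, w204, w205,
  w206, w207, w208, w209, w210, w211, w212, w213, w214, w215, w216, w217, w218, w219, w220, w221,
  w222, w223, w224, w225, w226, w227, w228, w229, w230, w231, w232, w233, w234, w235, w236, w237,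
  w238, w239, w240, w241, w242, w243, w244, w245, w246, w247, w248, w249, w250, w251, w252, w253,
  w254, w255, w256, w257, w258, w259, w260]

noncomputable def we2 : List El7 := [
  .fm 84 ⟨1, 5, 6, 6, 0, 1, 1, 1000, 250, 250, 500, 1000, 1000, 0, 335, 335, -273, 0, 0⟩,
  .fm 84 ⟨1, 5, 6, 6, 0, 1, 0, 1000, 50, 450, 500, 1000, 1000, 0, 381, 236, -273, 0, 0⟩,
  .fm 84 ⟨1, 5, 6, 6, 0, 1, 1, 1000, 50, 450, 500, 1000, 1000, 0, 381, 318, -273, 0, 0⟩,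
  .fm 84 ⟨1, 5, 6, 6, 0, 1, 1, 1000, 95, 855, 50, 1000, 1000, 0, 363, 300, -207, 0, 0⟩,
  .fm 84 ⟨1, 5, 6, 6, 0, 1, 1, 1000, 5, 45, 950, 1000, 1000, 0, 448, 384, -292, 0, 0⟩,
  .fm 28 ⟨1, 6, 7, 7, 2, 0, 1, 527, 1000, 100, 900, 1000, 1000, 93, 322, 486, -276, 350, 0⟩,
  .fm 28 ⟨1, 6, 7, 7, 1, 0, 1, 1000, 1000, 100, 900, 1000, 1000, 0, 322, 486, -276, 350, 0⟩,
  .fm 28 ⟨1, 6, 7, 7, 4, 1, 1, 400, 1000, 500, 500, 1000, 1000, 133, 419, 439, -259, 295, 0⟩,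
  .fm 28 ⟨1, 6, 7, 7, 7, 1, 1, 1000, 1000, 500, 500, 1000, 1000, 0, 419, 439, -259, 0, 0⟩,
  .fm 24 ⟨1, 7, 7, 8, 3, 1, 1, 1000, 500, 500, 1000, 1000, 1000, 0, 526, 504, -278, 340, 0⟩,
  .fm 24 ⟨1, 7, 7, 8, 6, 1, 1, 1000, 100, 900, 1000, 1000, 1000, 0, 572, 487, -278, 0, 330⟩,
  .fm 24 ⟨1, 7, 8, 7, 7, 1, 0, 1000, 1000, 500, 500, 1000, 1000, 0, 506, 404, -258, 0, 0⟩,
  .fm 24 ⟨1, 7, 8, 8, 0, 1, 1, 1000, 250, 250, 500, 1000, 1000, 0, 557, 557, -271, 0, 0⟩,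
  .fm 24 ⟨1, 7, 8, 8, 0, 1, 0, 1000, 50, 450, 500, 1000, 1000, 0, 603, 427, -271, 0, 0⟩,
  .fm 24 ⟨1, 7, 8, 8, 0, 1, 1, 1000, 50, 450, 500, 1000, 1000, 0, 603, 540, -271, 0, 0⟩,
  .fm 198 ⟨1, 8, 9, 9, 2, 0, 1, 527, 1000, 100, 900, 1000, 1000, 93, 422, 616, -366, 461, 0⟩,
  .fm 198 ⟨1, 8, 9, 9, 1, 0, 1, 1000, 1000, 100, 900, 1000, 1000, 0, 422, 616, -366, 461, 0⟩,
  .fm 198 ⟨1, 8, 9, 9, 4, 1, 1, 400, 1000, 500, 500, 1000, 1000, 133, 550, 570, -349, 392, 0⟩,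
  .fm 198 ⟨1, 8, 9, 9, 7, 1, 0, 1000, 1000, 500, 500, 1000, 1000, 0, 550, 442, -349, 0, 0⟩,
  .fm 198 ⟨1, 8, 9, 9, 7, 1, 1, 1000, 1000, 500, 500, 1000, 1000, 0, 550, 570, -349, 0, 0⟩,
  .fm 220 ⟨1, 9, 10, 9, 7, 1, 1, 1000, 1000, 500, 500, 1000, 1000, 0, 629, 649, -356, 0, 0⟩,
  .fm 220 ⟨1, 9, 10, 10, 0, 1, 1, 1000, 250, 250, 500, 1000, 1000, 0, 680, 680, -369, 0, 0⟩,
  .fm 220 ⟨1, 9, 10, 10, 0, 1, 0, 1000, 50, 450, 500, 1000, 1000, 0, 727, 520, -369, 0, 0⟩,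
  .fm 220 ⟨1, 9, 10, 10, 0, 1, 1, 1000, 50, 450, 500, 1000, 1000, 0, 727, 663, -369, 0, 0⟩,
  .fm 572 ⟨1, 10, 11, 11, 2, 0, 1, 527, 1000, 100, 900, 1000, 1000, 93, 548, 773, -430, 571, 0⟩,
  .fm 572 ⟨1, 10, 11, 11, 1, 0, 1, 1000, 1000, 100, 900, 1000, 1000, 0, 548, 773, -430, 571, 0⟩,
  .fm 572 ⟨1, 10, 11, 11, 7, 1, 0, 1000, 1000, 500, 500, 1000, 1000, 0, 706, 568, -413, 0, 0⟩,
  .fm 572 ⟨1, 10, 11, 11, 7, 1, 1, 1000, 1000, 500, 500, 1000, 1000, 0, 706, 726, -413, 0, 0⟩,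
  .fm 312 ⟨1, 11, 12, 12, 0, 1, 1, 1000, 250, 250, 500, 1000, 1000, 0, 858, 858, -411, 0, 0⟩,
  .fm 312 ⟨1, 11, 12, 12, 0, 1, 0, 1000, 50, 450, 500, 1000, 1000, 0, 904, 667, -411, 0, 0⟩,
  .fm 364 ⟨1, 12, 13, 13, 2, 0, 1, 527, 1000, 100, 900, 1000, 1000, 93, 719, 974, -449, 681, 0⟩,
  .fm 364 ⟨1, 12, 13, 13, 1, 0, 1, 1000, 1000, 100, 900, 1000, 1000, 0, 719, 974, -449, 681, 0⟩,
  .fm 364 ⟨1, 12, 13, 13, 1, 1, 0, 1000, 1000, 500, 500, 1000, 1000, 0, 907, 739, -432, 681, 0⟩,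
  .fm 952 ⟨1, 13, 14, 14, 0, 1, 1, 1000, 250, 250, 500, 1000, 1000, 0, 1014, 1014, -476, 0, 0⟩,
  .fm 952 ⟨1, 13, 14, 14, 0, 1, 0, 1000, 50, 450, 500, 1000, 1000, 0, 1060, 793, -476, 0, 0⟩,
  .fm 952 ⟨1, 13, 14, 14, 0, 1, 1, 1000, 50, 450, 500, 1000, 1000, 0, 1060, 997, -476, 0, 0⟩,
  .fm 38760 ⟨1, 14, 15, 15, 2, 0, 1, 527, 1000, 100, 900, 1000, 1000, 93, 742, 1027, -616, 792, 0⟩,
  .fm 38760 ⟨1, 14, 15, 15, 1, 0, 1, 1000, 1000, 100, 900, 1000, 1000, 0, 742, 1027, -616, 792, 0⟩,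
  .fm 38760 ⟨1, 14, 15, 15, 1, 1, 0, 1000, 1000, 500, 500, 1000, 1000, 0, 961, 762, -599, 792, 0⟩,
  .fm 5168 ⟨1, 15, 16, 16, 0, 1, 1, 1000, 250, 250, 500, 1000, 1000, 0, 1153, 1153, -557, 0, 0⟩,
  .fm 5168 ⟨1, 15, 16, 16, 0, 1, 0, 1000, 50, 450, 500, 1000, 1000, 0, 1200, 902, -557, 0, 0⟩,
  .fm 5168 ⟨1, 15, 16, 16, 0, 1, 1, 1000, 50, 450, 500, 1000, 1000, 0, 1200, 1136, -557, 0, 0⟩,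
  .fm 1938 ⟨1, 16, 17, 17, 2, 0, 1, 527, 1000, 100, 900, 1000, 1000, 93, 987, 1302, -561, 902, 0⟩,
  .fm 1938 ⟨1, 16, 17, 17, 1, 0, 1, 1000, 1000, 100, 900, 1000, 1000, 0, 987, 1302, -561, 902, 0⟩,
  .fm 1938 ⟨1, 16, 17, 17, 1, 1, 0, 1000, 1000, 500, 500, 1000, 1000, 0, 1236, 1007, -544, 902, 0⟩,
  .fm 15732 ⟨1, 17, 18, 18, 0, 1, 1, 1000, 250, 250, 500, 1000, 1000, 0, 1310, 1310, -621, 0, 0⟩,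
  .fm 15732 ⟨1, 17, 18, 18, 0, 1, 0, 1000, 50, 450, 500, 1000, 1000, 0, 1356, 1029, -621, 0, 0⟩,
  .fm 15732 ⟨1, 17, 18, 18, 0, 1, 1, 1000, 50, 450, 500, 1000, 1000, 0, 1356, 1293, -621, 0, 0⟩,
  .fm 1748 ⟨1, 18, 19, 19, 2, 0, 1, 527, 1000, 100, 900, 1000, 1000, 93, 1148, 1494, -590, 1012, 0⟩,
  .fm 1748 ⟨1, 18, 19, 19, 1, 0, 1, 1000, 1000, 100, 900, 1000, 1000, 0, 1148, 1494, -590, 1012, 0⟩,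
  .fm 1748 ⟨1, 18, 19, 19, 1, 1, 0, 1000, 1000, 500, 500, 1000, 1000, 0, 1427, 1168, -573, 1012, 0⟩,
  .fm 354200 ⟨1, 19, 20, 20, 0, 1, 1, 1000, 250, 250, 500, 1000, 1000, 0, 1409, 1409, -742, 0, 0⟩,
  .fm 354200 ⟨1, 19, 20, 20, 0, 1, 0, 1000, 50, 450, 500, 1000, 1000, 0, 1455, 1097, -742, 0, 0⟩,
  .fm 318780 ⟨1, 20, 21, 21, 2, 0, 1, 527, 1000, 100, 900, 1000, 1000, 93, 1157, 1532, -772, 1123, 0⟩,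
  .fm 318780 ⟨1, 20, 21, 21, 1, 0, 1, 1000, 1000, 100, 900, 1000, 1000, 0, 1157, 1532, -772, 1123, 0⟩,
  .fm 318780 ⟨1, 20, 21, 21, 1, 1, 0, 1000, 1000, 500, 500, 1000, 1000, 0, 1466, 1177, -755, 1123, 0⟩,
  .fm 30360 ⟨1, 21, 22, 22, 0, 1, 0, 1000, 50, 450, 500, 1000, 1000, 0, 1715, 1327, -703, 0, 0⟩,
  .fm 80040 ⟨1, 22, 23, 23, 1, 0, 1, 1000, 1000, 100, 900, 1000, 1000, 0, 1355, 1761, -763, 1233, 0⟩,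
  .fm 80040 ⟨1, 22, 23, 23, 1, 1, 0, 1000, 1000, 500, 500, 1000, 1000, 0, 1695, 1375, -746, 1233, 0⟩,
  .fm 8414640 ⟨1, 23, 24, 24, 0, 1, 0, 1000, 50, 450, 500, 1000, 1000, 0, 1742, 1324, -896, 0, 0⟩,
  .fm 8414640 ⟨1, 23, 24, 24, 0, 1, 1, 1000, 50, 450, 500, 1000, 1000, 0, 1742, 1678, -896, 0, 0⟩,
  .fm 3506100 ⟨1, 24, 25, 25, 1, 0, 1, 1000, 1000, 100, 900, 1000, 1000, 0, 1405, 1841, -904, 1343, 0⟩,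
  .fm 3506100 ⟨1, 24, 25, 25, 1, 1, 1, 1000, 1000, 500, 500, 1000, 1000, 0, 1775, 1795, -887, 1343, 0⟩,
  .fm 841464 ⟨1, 25, 26, 26, 0, 1, 0, 1000, 50, 450, 500, 1000, 1000, 0, 1997, 1549, -861, 0, 0⟩,
  .fm 841464 ⟨1, 25, 26, 26, 0, 1, 1, 1000, 50, 450, 500, 1000, 1000, 0, 1997, 1934, -861, 0, 0⟩,
  .fm 1359288 ⟨1, 26, 27, 27, 1, 0, 1, 1000, 1000, 100, 900, 1000, 1000, 0, 1592, 2058, -907, 1454, 0⟩,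
  .fm 1359288 ⟨1, 26, 27, 27, 1, 1, 0, 1000, 1000, 500, 500, 1000, 1000, 0, 1992, 1612, -890, 1454, 0⟩,
  .fm 100688 ⟨1, 27, 28, 28, 0, 1, 0, 1000, 50, 450, 500, 1000, 1000, 0, 2248, 1769, -831, 0, 0⟩,
  .fm 100688 ⟨1, 27, 28, 28, 0, 1, 1, 1000, 50, 450, 500, 1000, 1000, 0, 2248, 2184, -831, 0, 0⟩,
  .fm 266104 ⟨1, 28, 29, 29, 1, 0, 1, 1000, 1000, 100, 900, 1000, 1000, 0, 1798, 2294, -891, 1564, 0⟩,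
  .fm 266104 ⟨1, 28, 29, 29, 1, 1, 0, 1000, 1000, 500, 500, 1000, 1000, 0, 2228, 1818, -874, 1564, 0⟩,
  .fm 275280 ⟨1, 29, 30, 30, 0, 1, 0, 1000, 50, 450, 500, 1000, 1000, 0, 2408, 1899, -891, 0, 0⟩,
  .fm 275280 ⟨1, 29, 30, 30, 0, 1, 1, 1000, 50, 450, 500, 1000, 1000, 0, 2408, 2345, -891, 0, 0⟩,
  .fm 3431824 ⟨1, 30, 31, 31, 1, 0, 1, 1000, 1000, 100, 900, 1000, 1000, 0, 1883, 2410, -996, 1675, 0⟩,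
  .fm 3431824 ⟨1, 30, 31, 31, 1, 1, 0, 1000, 1000, 500, 500, 1000, 1000, 0, 2344, 1903, -979, 1675, 0⟩,
  .fm 9077728 ⟨1, 31, 32, 32, 0, 1, 0, 1000, 50, 450, 500, 1000, 1000, 0, 2497, 1958, -1023, 0, 0⟩,
  .fm 9077728 ⟨1, 31, 32, 32, 0, 1, 1, 1000, 50, 450, 500, 1000, 1000, 0, 2497, 2433, -1023, 0, 0⟩,
  .fm 73189182 ⟨1, 32, 33, 33, 1, 0, 1, 1000, 1000, 100, 900, 1000, 1000, 0, 1954, 2511, -1115, 1785, 0⟩,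
  .fm 589949164 ⟨1, 33, 34, 34, 0, 1, 0, 1000, 50, 450, 500, 1000, 1000, 0, 2566, 1997, -1174, 0, 0⟩,
  .fm 589949164 ⟨1, 33, 34, 34, 0, 1, 1, 1000, 50, 450, 500, 1000, 1000, 0, 2566, 2502, -1174, 0, 0⟩,
  .fm 520543380 ⟨1, 34, 35, 35, 1, 0, 1, 1000, 1000, 100, 900, 1000, 1000, 0, 2057, 2644, -1203, 1895, 0⟩,
  .fm 4194092376 ⟨1, 35, 36, 36, 0, 1, 0, 1000, 50, 450, 500, 1000, 1000, 0, 2699, 2099, -1261, 0, 0⟩,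
  .fm 3029066716 ⟨1, 36, 37, 37, 1, 0, 1, 1000, 1000, 100, 900, 1000, 1000, 0, 2165, 2783, -1284, 2006, 0⟩,
  .fm 1146133352 ⟨1, 37, 38, 38, 0, 1, 1, 1000, 250, 250, 500, 1000, 1000, 0, 2879, 2879, -1255, 0, 0⟩,
  .fm 1146133352 ⟨1, 37, 38, 38, 0, 1, 0, 1000, 50, 450, 500, 1000, 1000, 0, 2926, 2296, -1255, 0, 0⟩,
  .fm 180968424 ⟨1, 38, 39, 39, 1, 0, 1, 1000, 1000, 100, 900, 1000, 1000, 0, 2406, 3054, -1234, 2116, 0⟩,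
  .fm 46402160 ⟨1, 39, 40, 40, 0, 1, 0, 1000, 50, 450, 500, 1000, 1000, 0, 3208, 2548, -1193, 0, 0⟩]

theorem wt2_ok : ∀ w ∈ wt2, w.Ok := tab_ok7 we2 (by decide +kernel) (by decide +kernel)

noncomputable def v174 : VW := vw wt2_ok 0 w174 rfl
noncomputable def v175 : VW := vw wt2_ok 1 w175 rfl
noncomputable def v176 : VW := vw wt2_ok 2 w176 rfl
noncomputable def v177 : VW := vw wt2_ok 3 w177 rfl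
noncomputable def v178 : VW := vw wt2_ok 4 w178 rfl
noncomputable def v179 : VW := vw wt2_ok 5 w179 rfl
noncomputable def v180 : VW := vw wt2_ok 6 w180 rfl
noncomputable def v181 : VW := vw wt2_ok 7 w181 rfl
noncomputable def v182 : VW := vw wt2_ok 8 w182 rfl
noncomputable def v183 : VW := vw wt2_ok 9 w183 rfl
noncomputable def v184 : VW := vw wt2_ok 10 w184 rfl
noncomputable def v185 : VW := vw wt2_ok 11 w185 rfl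
noncomputable def v186 : VW := vw wt2_ok 12 w186 rfl
noncomputable def v187 : VW := vw wt2_ok 13 w187 rfl
noncomputable def v188 : VW := vw wt2_ok 14 w188 rfl
noncomputable def v189 : VW := vw wt2_ok 15 w189 rfl
noncomputable def v190 : VW := vw wt2_ok 16 w190 rfl
noncomputable def v191 : VW := vw wt2_ok 17 w191 rfl
noncomputable def v192 : VW := vw wt2_ok 18 w192 rfl
noncomputable def v193 : VW := vw wt2_ok 19 w193 rfl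
noncomputable def v194 : VW := vw wt2_ok 20 w194 rfl
noncomputable def v195 : VW := vw wt2_ok 21 w195 rfl
noncomputable def v196 : VW := vw wt2_ok 22 w196 rfl
noncomputable def v197 : VW := vw wt2_ok 23 w197 rfl
noncomputable def v198 : VW := vw wt2_ok 24 w198 rfl
noncomputable def v199 : VW := vw wt2_ok 25 w199 rfl
noncomputable def v200 : VW := vw wt2_ok 26 w200 rfl
noncomputable def v201 : VW := vw wt2_ok 27 w201 rfl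
noncomputable def v202 : VW := vw wt2_ok 28 w202 rfl
noncomputable def v203 : VW := vw wt2_ok 29 w203 rfl
noncomputable def v204 : VW := vw wt2_ok 30 w204 rfl
noncomputable def v205 : VW := vw wt2_ok 31 w205 rfl
noncomputable def v206 : VW := vw wt2_ok 32 w206 rfl
noncomputable def v207 : VW := vw wt2_ok 33 w207 rfl
noncomputable def v208 : VW := vw wt2_ok 34 w208 rfl
noncomputable def v209 : VW := vw wt2_ok 35 w209 rfl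
noncomputable def v210 : VW := vw wt2_ok 36 w210 rfl
noncomputable def v211 : VW := vw wt2_ok 37 w211 rfl
noncomputable def v212 : VW := vw wt2_ok 38 w212 rfl
noncomputable def v213 : VW := vw wt2_ok 39 w213 rfl
noncomputable def v214 : VW := vw wt2_ok 40 w214 rfl
noncomputable def v215 : VW := vw wt2_ok 41 w215 rfl
noncomputable def v216 : VW := vw wt2_ok 42 w216 rfl
noncomputable def v217 : VW := vw wt2_ok 43 w217 rfl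
noncomputable def v218 : VW := vw wt2_ok 44 w218 rfl
noncomputable def v219 : VW := vw wt2_ok 45 w219 rfl
noncomputable def v220 : VW := vw wt2_ok 46 w220 rfl
noncomputable def v221 : VW := vw wt2_ok 47 w221 rfl
noncomputable def v222 : VW := vw wt2_ok 48 w222 rfl
noncomputable def v223 : VW := vw wt2_ok 49 w223 rfl
noncomputable def v224 : VW := vw wt2_ok 50 w224 rfl
noncomputable def v225 : VW := vw wt2_ok 51 w225 rfl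
noncomputable def v226 : VW := vw wt2_ok 52 w226 rfl
noncomputable def v227 : VW := vw wt2_ok 53 w227 rfl
noncomputable def v228 : VW := vw wt2_ok 54 w228 rfl
noncomputable def v229 : VW := vw wt2_ok 55 w229 rfl
noncomputable def v230 : VW := vw wt2_ok 56 w230 rfl
noncomputable def v231 : VW := vw wt2_ok 57 w231 rfl
noncomputable def v232 : VW := vw wt2_ok 58 w232 rfl
noncomputable def v233 : VW := vw wt2_ok 59 w233 rfl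
noncomputable def v234 : VW := vw wt2_ok 60 w234 rfl
noncomputable def v235 : VW := vw wt2_ok 61 w235 rfl
noncomputable def v236 : VW := vw wt2_ok 62 w236 rfl
noncomputable def v237 : VW := vw wt2_ok 63 w237 rfl
noncomputable def v238 : VW := vw wt2_ok 64 w238 rfl
noncomputable def v239 : VW := vw wt2_ok 65 w239 rfl
noncomputable def v240 : VW := vw wt2_ok 66 w240 rfl
noncomputable def v241 : VW := vw wt2_ok 67 w241 rfl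
noncomputable def v242 : VW := vw wt2_ok 68 w242 rfl
noncomputable def v243 : VW := vw wt2_ok 69 w243 rfl
noncomputable def v244 : VW := vw wt2_ok 70 w244 rfl
noncomputable def v245 : VW := vw wt2_ok 71 w245 rfl
noncomputable def v246 : VW := vw wt2_ok 72 w246 rfl
noncomputable def v247 : VW := vw wt2_ok 73 w247 rfl
noncomputable def v248 : VW := vw wt2_ok 74 w248 rfl
noncomputable def v249 : VW := vw wt2_ok 75 w249 rfl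
noncomputable def v250 : VW := vw wt2_ok 76 w250 rfl
noncomputable def v251 : VW := vw wt2_ok 77 w251 rfl
noncomputable def v252 : VW := vw wt2_ok 78 w252 rfl
noncomputable def v253 : VW := vw wt2_ok 79 w253 rfl
noncomputable def v254 : VW := vw wt2_ok 80 w254 rfl
noncomputable def v255 : VW := vw wt2_ok 81 w255 rfl
noncomputable def v256 : VW := vw wt2_ok 82 w256 rfl
noncomputable def v257 : VW := vw wt2_ok 83 w257 rfl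
noncomputable def v258 : VW := vw wt2_ok 84 w258 rfl
noncomputable def v259 : VW := vw wt2_ok 85 w259 rfl
noncomputable def v260 : VW := vw wt2_ok 86 w260 rfl

end Pool.Agent.MP_2339ce_nt.Q2.TB.RT
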