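import Pool.Agent.MP_2339ce_nt.Q2.HA7
import Pool.Agent.MP_2339ce_nt.Q2.RTV

/-! Project Q2, block RT: valid windows. -/

set_option autoImplicit false

noncomputable section

namespace Pool.Agent.MP_2339ce_nt.Q2.TB.RT

noncomputable def w261 : Wn := ⟨[], [⟨81, 24300, 2, 0, 0, 160, 0, 80, 0⟩, ⟨81, 31080, 2, 0, 160, 78, 0, 2, 0⟩, ⟨122, 22260, -121, 0, 41, 80, 0, 0, 0⟩], [⟨163, 14000, -244, 0, 82, 82, 0, -162, 0⟩]⟩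
noncomputable def w262 : Wn := ⟨[], [⟨83, 31630, 2, 0, 0, 80, 0, 166, 0⟩, ⟨83, 31630, 2, 0, 164, 80, 0, 2, 0⟩], [⟨167, 14120, -250, 0, 84, 84, 0, -166, 0⟩]⟩
noncomputable def w263 : Wn := ⟨[⟨0, -201, 0, -1, 0, 1, 0, 0, 0⟩], [⟨5, 970, 2, 0, 0, 2, 0, 0, 10⟩, ⟨5, 1830, 2, 8, 0, 2, 0, 0, 2⟩], [⟨11, 1600, -16, 6, 0, 6, 0, 0, -10⟩, ⟨8, 1090, -7, 3, 0, 4, 0, 0, 0⟩]⟩
noncomputable def w264 : Wn := ⟨[⟨0, -301, 0, -1, 0, 1, 0, 0, 0⟩], [⟨9, 2640, 2, 0, 0, 6, 0, 0, 18⟩, ⟨9, 3510, 2, 16, 0, 6, 0, 0, 2⟩], [⟨19, 2120, -28, 10, 0, 10, 0, 0, -18⟩, ⟨14, 2040, -13, 5, 0, 8, 0, 0, 0⟩]⟩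
noncomputable def w265 : Wn := ⟨[⟨0, -201, 0, -1, 0, 1, 0, 0, 0⟩], [⟨9, 2640, 2, 0, 0, 6, 0, 0, 18⟩, ⟨9, 3510, 2, 16, 0, 6, 0, 0, 2⟩], [⟨19, 2120, -28, 10, 0, 10, 0, 0, -18⟩, ⟨14, 2040, -13, 5, 0, 8, 0, 0, 0⟩]⟩
noncomputable def w266 : Wn := ⟨[⟨0, -201, 0, -1, 0, 1, 0, 0, 0⟩], [⟨13, 3220, 2, 0, 0, 24, 0, 0, 12⟩, ⟨13, 4860, 2, 24, 0, 10, 0, 0, 2⟩], [⟨27, 2760, -40, 14, 0, 14, 0, 0, -26⟩, ⟨20, 2990, -19, 7, 0, 12, 0, 0, 0⟩]⟩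
noncomputable def w267 : Wn := ⟨[⟨0, -301, 0, -1, 0, 1, 0, 0, 0⟩], [⟨17, 4220, 2, 0, 0, 32, 0, 0, 16⟩, ⟨17, 6160, 2, 32, 0, 14, 0, 0, 2⟩], [⟨35, 3660, -52, 18, 0, 18, 0, 0, -34⟩, ⟨26, 3940, -25, 9, 0, 16, 0, 0, 0⟩]⟩
noncomputable def w268 : Wn := ⟨[⟨0, -201, 0, -1, 0, 1, 0, 0, 0⟩], [⟨17, 4220, 2, 0, 0, 32, 0, 0, 16⟩, ⟨17, 6160, 2, 32, 0, 14, 0, 0, 2⟩], [⟨35, 3660, -52, 18, 0, 18, 0, 0, -34⟩, ⟨26, 3940, -25, 9, 0, 16, 0, 0, 0⟩]⟩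
noncomputable def w269 : Wn := ⟨[⟨0, -201, 0, -1, 0, 1, 0, 0, 0⟩], [⟨21, 5480, 2, 0, 0, 40, 0, 0, 20⟩, ⟨21, 7730, 2, 40, 0, 18, 0, 0, 2⟩], [⟨43, 4300, -64, 22, 0, 22, 0, 0, -42⟩, ⟨32, 4890, -31, 11, 0, 20, 0, 0, 0⟩]⟩
noncomputable def w270 : Wn := ⟨[⟨0, -301, 0, -1, 0, 1, 0, 0, 0⟩], [⟨25, 7190, 2, 0, 0, 48, 0, 0, 24⟩, ⟨25, 9740, 2, 48, 0, 22, 0, 0, 2⟩], [⟨51, 4490, -76, 26, 0, 26, 0, 0, -50⟩, ⟨38, 5840, -37, 13, 0, 24, 0, 0, 0⟩]⟩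
noncomputable def w271 : Wn := ⟨[⟨0, -201, 0, -1, 0, 1, 0, 0, 0⟩], [⟨25, 7190, 2, 0, 0, 48, 0, 0, 24⟩, ⟨25, 9740, 2, 48, 0, 22, 0, 0, 2⟩], [⟨51, 4490, -76, 26, 0, 26, 0, 0, -50⟩, ⟨38, 5840, -37, 13, 0, 24, 0, 0, 0⟩]⟩
noncomputable def w272 : Wn := ⟨[⟨0, -201, 0, -1, 0, 1, 0, 0, 0⟩], [⟨29, 7420, 2, 0, 0, 56, 0, 0, 28⟩, ⟨29, 10270, 2, 56, 0, 26, 0, 0, 2⟩], [⟨59, 6160, -88, 30, 0, 30, 0, 0, -58⟩, ⟨44, 6780, -43, 15, 0, 28, 0, 0, 0⟩]⟩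
noncomputable def w273 : Wn := ⟨[⟨0, -93, 0, -1, 1, 0, 0, 0, 0⟩, ⟨0, -93, 0, 0, -1, 1, 0, 0, 0⟩], [⟨6, 953, -5, 1, 2, 2, 0, 0, 0⟩], [⟨9, 1237, -12, 2, 4, 4, -4, -6, -4⟩]⟩
noncomputable def w274 : Wn := ⟨[⟨0, -200, 0, -1, 1, 0, 0, 0, 0⟩], [⟨6, 811, -5, 1, 2, 4, 0, -2, 0⟩], [⟨9, 1237, -12, 2, 4, 4, -4, -6, -4⟩]⟩
noncomputable def w275 : Wn := ⟨[], [⟨3, 870, 2, 6, 0, 0, 2, 4, 2⟩, ⟨3, 870, 2, 0, 6, 0, 2, 2, 4⟩, ⟨6, 623, -5, 2, 2, 1, 0, 0, 0⟩], [⟨9, 1206, -12, 4, 4, 2, -6, -4, -4⟩]⟩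
noncomputable def w276 : Wn := ⟨[⟨0, -399, 0, -1, 1, 0, 0, 0, 0⟩], [⟨3, 210, 2, 0, 0, 0, 2, 0, 0⟩, ⟨3, 870, 2, 2, -2, 0, 2, 0, 0⟩, ⟨4, 620, -3, 2, 1, 0, 0, 0, 0⟩], [⟨5, 1160, -8, 4, 2, 0, -2, 0, 0⟩]⟩
noncomputable def w277 : Wn := ⟨[⟨0, -301, 0, -1, 1, 0, 0, 0, 0⟩], [⟨3, 210, 2, 0, 0, 0, 2, 0, 0⟩, ⟨3, 870, 2, 2, -2, 0, 2, 0, 0⟩, ⟨4, 630, -3, 2, 1, 0, 0, 0, 0⟩], [⟨5, 1150, -8, 4, 2, 0, -2, 0, 0⟩]⟩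
noncomputable def w278 : Wn := ⟨[], [⟨3, 210, 2, 0, 0, 0, 2, 0, 0⟩, ⟨3, 870, 2, 2, -2, 0, 2, 0, 0⟩, ⟨4, 710, -3, 2, 1, 0, 0, 0, 0⟩], [⟨5, 980, -8, 4, 2, 0, -2, 0, 0⟩]⟩
noncomputable def w279 : Wn := ⟨[⟨0, -301, 0, -1, 1, 0, 0, 0, 0⟩], [⟨5, 1270, 2, 0, 6, 0, 2, 0, 0⟩, ⟨5, 2050, 2, 6, 0, 0, 2, 0, 0⟩], [⟨9, 890, -14, 6, 4, 0, -6, 0, 0⟩]⟩
noncomputable def w280 : Wn := ⟨[⟨0, -201, 0, -1, 1, 0, 0, 0, 0⟩], [⟨5, 1270, 2, 0, 6, 0, 2, 0, 0⟩, ⟨5, 2050, 2, 6, 0, 0, 2, 0, 0⟩], [⟨9, 860, -14, 6, 4, 0, -6, 0, 0⟩]⟩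
noncomputable def w281 : Wn := ⟨[⟨0, -159, 0, -1, 1, 0, 0, 0, 0⟩], [⟨5, 1270, 2, 0, 6, 0, 2, 0, 0⟩, ⟨5, 2050, 2, 6, 0, 0, 2, 0, 0⟩], [⟨9, 850, -14, 6, 4, 0, -6, 0, 0⟩]⟩
noncomputable def w282 : Wn := ⟨[⟨0, -133, 0, -1, 1, 0, 0, 0, 0⟩], [⟨5, 1270, 2, 0, 6, 0, 2, 0, 0⟩, ⟨5, 2050, 2, 6, 0, 0, 2, 0, 0⟩], [⟨9, 830, -14, 6, 4, 0, -6, 0, 0⟩]⟩
noncomputable def w283 : Wn := ⟨[⟨0, -399, 0, -1, 1, 0, 0, 0, 0⟩], [⟨5, 1090, 2, 0, 6, 0, 2, 0, 0⟩, ⟨5, 1870, 2, 6, 0, 0, 2, 0, 0⟩], [⟨9, 250, -14, 6, 4, 0, -6, 0, 0⟩]⟩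
noncomputable def w284 : Wn := ⟨[⟨0, -301, 0, -1, 1, 0, 0, 0, 0⟩], [⟨5, 1090, 2, 0, 6, 0, 2, 0, 0⟩, ⟨5, 1870, 2, 6, 0, 0, 2, 0, 0⟩], [⟨9, 230, -14, 6, 4, 0, -6, 0, 0⟩]⟩
noncomputable def w285 : Wn := ⟨[⟨0, -201, 0, -1, 1, 0, 0, 0, 0⟩], [⟨5, 1090, 2, 0, 6, 0, 2, 0, 0⟩, ⟨5, 1870, 2, 6, 0, 0, 2, 0, 0⟩], [⟨9, 200, -14, 6, 4, 0, -6, 0, 0⟩]⟩
noncomputable def w286 : Wn := ⟨[⟨0, -159, 0, -1, 1, 0, 0, 0, 0⟩], [⟨5, 1090, 2, 0, 6, 0, 2, 0, 0⟩, ⟨5, 1870, 2, 6, 0, 0, 2, 0, 0⟩], [⟨9, 180, -14, 6, 4, 0, -6, 0, 0⟩]⟩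
noncomputable def w287 : Wn := ⟨[⟨0, -159, 0, -1, 1, 0, 0, 0, 0⟩], [⟨5, 1940, 2, 0, 6, 0, 2, 0, 0⟩, ⟨5, 2720, 2, 6, 0, 0, 2, 0, 0⟩], [⟨9, 1030, -14, 6, 4, 0, -6, 0, 0⟩]⟩
noncomputable def w288 : Wn := ⟨[⟨0, -93, 0, -1, 1, 0, 0, 0, 0⟩], [⟨5, 1790, 2, 0, 2, 0, 6, 0, 0⟩, ⟨5, 1590, 2, 6, 0, 0, 2, 0, 0⟩], [⟨9, 810, -14, 6, 4, 0, -6, 0, 0⟩]⟩
noncomputable def w289 : Wn := ⟨[], [⟨5, 1790, 2, 0, 2, 0, 6, 0, 0⟩, ⟨5, 1590, 2, 6, 0, 0, 2, 0, 0⟩], [⟨9, 730, -14, 6, 4, 0, -6, 0, 0⟩]⟩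
noncomputable def w290 : Wn := ⟨[⟨0, -201, 0, -1, 1, 0, 0, 0, 0⟩], [⟨7, 2400, 2, 0, 4, 0, 10, 0, 0⟩, ⟨7, 3070, 2, 10, 2, 0, 2, 0, 0⟩, ⟨10, 1700, -9, 4, 5, 0, 0, 0, 0⟩], [⟨13, 1140, -20, 8, 6, 0, -10, 0, 0⟩]⟩
noncomputable def w291 : Wn := ⟨[⟨0, -399, 0, -1, 1, 0, 0, 0, 0⟩], [⟨7, 1910, 2, 0, 10, 0, 4, 0, 0⟩, ⟨7, 2870, 2, 10, 2, 0, 2, 0, 0⟩], [⟨13, 1170, -20, 8, 6, 0, -10, 0, 0⟩, ⟨10, 1540, -9, 4, 5, 0, 0, 0, 0⟩]⟩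
noncomputable def w292 : Wn := ⟨[⟨0, -301, 0, -1, 1, 0, 0, 0, 0⟩], [⟨7, 1910, 2, 0, 10, 0, 4, 0, 0⟩, ⟨7, 2870, 2, 10, 2, 0, 2, 0, 0⟩], [⟨13, 1160, -20, 8, 6, 0, -10, 0, 0⟩, ⟨10, 1540, -9, 4, 5, 0, 0, 0, 0⟩]⟩
noncomputable def w293 : Wn := ⟨[⟨0, -201, 0, -1, 1, 0, 0, 0, 0⟩], [⟨7, 1910, 2, 0, 10, 0, 4, 0, 0⟩, ⟨7, 2870, 2, 10, 2, 0, 2, 0, 0⟩], [⟨13, 1130, -20, 8, 6, 0, -10, 0, 0⟩, ⟨10, 1520, -9, 4, 5, 0, 0, 0, 0⟩]⟩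
noncomputable def w294 : Wn := ⟨[⟨0, -159, 0, -1, 1, 0, 0, 0, 0⟩], [⟨7, 1910, 2, 0, 10, 0, 4, 0, 0⟩, ⟨7, 2870, 2, 10, 2, 0, 2, 0, 0⟩], [⟨13, 1110, -20, 8, 6, 0, -10, 0, 0⟩, ⟨10, 1500, -9, 4, 5, 0, 0, 0, 0⟩]⟩
noncomputable def w295 : Wn := ⟨[⟨0, -133, 0, -1, 1, 0, 0, 0, 0⟩], [⟨7, 2400, 2, 0, 4, 0, 10, 0, 0⟩, ⟨7, 3070, 2, 10, 2, 0, 2, 0, 0⟩], [⟨13, 1110, -20, 8, 6, 0, -10, 0, 0⟩, ⟨10, 1470, -9, 4, 5, 0, 0, 0, 0⟩]⟩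
noncomputable def w296 : Wn := ⟨[⟨0, -201, 0, -1, 1, 0, 0, 0, 0⟩], [⟨7, 1640, 2, 0, 8, 0, 2, 0, 0⟩, ⟨7, 2390, 2, 8, 0, 0, 2, 0, 0⟩], [⟨11, 1310, -18, 8, 4, 0, -6, 0, 0⟩]⟩
noncomputable def w297 : Wn := ⟨[⟨0, -159, 0, -1, 1, 0, 0, 0, 0⟩], [⟨7, 1640, 2, 0, 8, 0, 2, 0, 0⟩, ⟨7, 2390, 2, 8, 0, 0, 2, 0, 0⟩], [⟨11, 1280, -18, 8, 4, 0, -6, 0, 0⟩]⟩
noncomputable def w298 : Wn := ⟨[⟨0, -133, 0, -1, 1, 0, 0, 0, 0⟩], [⟨7, 1640, 2, 0, 8, 0, 2, 0, 0⟩, ⟨7, 2390, 2, 8, 0, 0, 2, 0, 0⟩], [⟨11, 1260, -18, 8, 4, 0, -6, 0, 0⟩]⟩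
noncomputable def w299 : Wn := ⟨[⟨0, -93, 0, -1, 1, 0, 0, 0, 0⟩], [⟨7, 1640, 2, 0, 8, 0, 2, 0, 0⟩, ⟨7, 2390, 2, 8, 0, 0, 2, 0, 0⟩], [⟨11, 1210, -18, 8, 4, 0, -6, 0, 0⟩]⟩
noncomputable def w300 : Wn := ⟨[⟨0, -201, 0, -1, 1, 0, 0, 0, 0⟩], [⟨7, 2300, 2, 0, 8, 0, 2, 0, 0⟩, ⟨7, 3050, 2, 8, 0, 0, 2, 0, 0⟩], [⟨11, 1500, -18, 8, 4, 0, -6, 0, 0⟩]⟩
noncomputable def w301 : Wn := ⟨[⟨0, -159, 0, -1, 1, 0, 0, 0, 0⟩], [⟨7, 2300, 2, 0, 8, 0, 2, 0, 0⟩, ⟨7, 3050, 2, 8, 0, 0, 2, 0, 0⟩], [⟨11, 1470, -18, 8, 4, 0, -6, 0, 0⟩]⟩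
noncomputable def w302 : Wn := ⟨[⟨0, -133, 0, -1, 1, 0, 0, 0, 0⟩], [⟨7, 2300, 2, 0, 8, 0, 2, 0, 0⟩, ⟨7, 3050, 2, 8, 0, 0, 2, 0, 0⟩], [⟨11, 1440, -18, 8, 4, 0, -6, 0, 0⟩]⟩
noncomputable def w303 : Wn := ⟨[⟨0, -93, 0, -1, 1, 0, 0, 0, 0⟩], [⟨7, 2300, 2, 0, 8, 0, 2, 0, 0⟩, ⟨7, 3050, 2, 8, 0, 0, 2, 0, 0⟩], [⟨11, 1400, -18, 8, 4, 0, -6, 0, 0⟩]⟩
noncomputable def w304 : Wn := ⟨[], [⟨7, 3400, 2, 0, 4, 0, 6, 0, 0⟩, ⟨7, 2420, 2, 8, 0, 0, 2, 0, 0⟩], [⟨11, 1250, -18, 8, 4, 0, -6, 0, 0⟩]⟩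
noncomputable def w305 : Wn := ⟨[⟨0, -399, 0, -1, 1, 0, 0, 0, 0⟩], [⟨9, 2000, 2, 0, 14, 0, 6, 0, 0⟩, ⟨9, 3080, 2, 14, 4, 0, 2, 0, 0⟩], [⟨17, 2100, -26, 10, 8, 0, -14, 0, 0⟩]⟩
noncomputable def w306 : Wn := ⟨[⟨0, -301, 0, -1, 1, 0, 0, 0, 0⟩], [⟨9, 2000, 2, 0, 14, 0, 6, 0, 0⟩, ⟨9, 3080, 2, 14, 4, 0, 2, 0, 0⟩], [⟨17, 2080, -26, 10, 8, 0, -14, 0, 0⟩]⟩
noncomputable def w307 : Wn := ⟨[⟨0, -201, 0, -1, 1, 0, 0, 0, 0⟩], [⟨9, 2000, 2, 0, 14, 0, 6, 0, 0⟩, ⟨9, 3080, 2, 14, 4, 0, 2, 0, 0⟩], [⟨17, 2050, -26, 10, 8, 0, -14, 0, 0⟩]⟩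
noncomputable def w308 : Wn := ⟨[⟨0, -159, 0, -1, 1, 0, 0, 0, 0⟩], [⟨9, 2000, 2, 0, 14, 0, 6, 0, 0⟩, ⟨9, 3080, 2, 14, 4, 0, 2, 0, 0⟩], [⟨17, 2030, -26, 10, 8, 0, -14, 0, 0⟩]⟩
noncomputable def w309 : Wn := ⟨[⟨0, -133, 0, -1, 1, 0, 0, 0, 0⟩], [⟨9, 2000, 2, 0, 14, 0, 6, 0, 0⟩, ⟨9, 3080, 2, 14, 4, 0, 2, 0, 0⟩], [⟨17, 2020, -26, 10, 8, 0, -14, 0, 0⟩]⟩
noncomputable def w310 : Wn := ⟨[⟨0, -93, 0, -1, 1, 0, 0, 0, 0⟩], [⟨9, 2000, 2, 0, 14, 0, 6, 0, 0⟩, ⟨9, 3080, 2, 14, 4, 0, 2, 0, 0⟩], [⟨17, 1990, -26, 10, 8, 0, -14, 0, 0⟩]⟩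
noncomputable def w311 : Wn := ⟨[⟨0, -399, 0, -1, 1, 0, 0, 0, 0⟩], [⟨9, 1820, 2, 0, 14, 0, 6, 0, 0⟩, ⟨9, 2900, 2, 14, 4, 0, 2, 0, 0⟩], [⟨17, 1430, -26, 10, 8, 0, -14, 0, 0⟩]⟩
noncomputable def w312 : Wn := ⟨[⟨0, -301, 0, -1, 1, 0, 0, 0, 0⟩], [⟨9, 1820, 2, 0, 14, 0, 6, 0, 0⟩, ⟨9, 2900, 2, 14, 4, 0, 2, 0, 0⟩], [⟨17, 1410, -26, 10, 8, 0, -14, 0, 0⟩]⟩
noncomputable def w313 : Wn := ⟨[⟨0, -201, 0, -1, 1, 0, 0, 0, 0⟩], [⟨9, 1820, 2, 0, 14, 0, 6, 0, 0⟩, ⟨9, 2900, 2, 14, 4, 0, 2, 0, 0⟩], [⟨17, 1380, -26, 10, 8, 0, -14, 0, 0⟩]⟩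
noncomputable def w314 : Wn := ⟨[⟨0, -159, 0, -1, 1, 0, 0, 0, 0⟩], [⟨9, 1820, 2, 0, 14, 0, 6, 0, 0⟩, ⟨9, 2900, 2, 14, 4, 0, 2, 0, 0⟩], [⟨17, 1370, -26, 10, 8, 0, -14, 0, 0⟩]⟩
noncomputable def w315 : Wn := ⟨[⟨0, -133, 0, -1, 1, 0, 0, 0, 0⟩], [⟨9, 1820, 2, 0, 14, 0, 6, 0, 0⟩, ⟨9, 2900, 2, 14, 4, 0, 2, 0, 0⟩], [⟨17, 1350, -26, 10, 8, 0, -14, 0, 0⟩]⟩
noncomputable def w316 : Wn := ⟨[⟨0, -93, 0, -1, 1, 0, 0, 0, 0⟩], [⟨9, 1820, 2, 0, 14, 0, 6, 0, 0⟩, ⟨9, 2900, 2, 14, 4, 0, 2, 0, 0⟩], [⟨17, 1330, -26, 10, 8, 0, -14, 0, 0⟩]⟩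
noncomputable def w317 : Wn := ⟨[⟨0, -201, 0, -1, 1, 0, 0, 0, 0⟩], [⟨9, 2670, 2, 0, 14, 0, 6, 0, 0⟩, ⟨9, 3750, 2, 14, 4, 0, 2, 0, 0⟩], [⟨17, 2230, -26, 10, 8, 0, -14, 0, 0⟩]⟩
noncomputable def w318 : Wn := ⟨[⟨0, -159, 0, -1, 1, 0, 0, 0, 0⟩], [⟨9, 2670, 2, 0, 14, 0, 6, 0, 0⟩, ⟨9, 3750, 2, 14, 4, 0, 2, 0, 0⟩], [⟨17, 2210, -26, 10, 8, 0, -14, 0, 0⟩]⟩
noncomputable def w319 : Wn := ⟨[], [⟨9, 2820, 2, 0, 6, 0, 14, 0, 0⟩, ⟨9, 2620, 2, 14, 4, 0, 2, 0, 0⟩], [⟨17, 1910, -26, 10, 8, 0, -14, 0, 0⟩]⟩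
noncomputable def w320 : Wn := ⟨[], [⟨9, 2630, 2, 0, 6, 0, 14, 0, 0⟩, ⟨9, 2430, 2, 14, 4, 0, 2, 0, 0⟩], [⟨17, 1250, -26, 10, 8, 0, -14, 0, 0⟩]⟩
noncomputable def w321 : Wn := ⟨[⟨0, -93, 0, -1, 1, 0, 0, 0, 0⟩], [⟨9, 3480, 2, 0, 6, 0, 14, 0, 0⟩, ⟨9, 3280, 2, 14, 4, 0, 2, 0, 0⟩], [⟨17, 2180, -26, 10, 8, 0, -14, 0, 0⟩]⟩
noncomputable def w322 : Wn := ⟨[⟨0, -201, 0, -1, 1, 0, 0, 0, 0⟩], [⟨9, 3440, 2, 0, 6, 0, 10, 0, 0⟩, ⟨9, 3950, 2, 12, 2, 0, 2, 0, 0⟩, ⟨12, 2130, -11, 5, 6, 0, 0, 0, 0⟩], [⟨15, 1050, -24, 10, 6, 0, -10, 0, 0⟩]⟩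
noncomputable def w323 : Wn := ⟨[⟨0, -159, 0, -1, 1, 0, 0, 0, 0⟩], [⟨9, 3440, 2, 0, 6, 0, 10, 0, 0⟩, ⟨9, 3950, 2, 12, 2, 0, 2, 0, 0⟩, ⟨12, 2190, -11, 5, 6, 0, 0, 0, 0⟩], [⟨15, 1020, -24, 10, 6, 0, -10, 0, 0⟩]⟩
noncomputable def w324 : Wn := ⟨[⟨0, -133, 0, -1, 1, 0, 0, 0, 0⟩], [⟨9, 3440, 2, 0, 6, 0, 10, 0, 0⟩, ⟨9, 3950, 2, 12, 2, 0, 2, 0, 0⟩, ⟨12, 2230, -11, 5, 6, 0, 0, 0, 0⟩], [⟨15, 1000, -24, 10, 6, 0, -10, 0, 0⟩]⟩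
noncomputable def w325 : Wn := ⟨[⟨0, -93, 0, -1, 1, 0, 0, 0, 0⟩], [⟨9, 3440, 2, 0, 6, 0, 10, 0, 0⟩, ⟨9, 3950, 2, 12, 2, 0, 2, 0, 0⟩, ⟨12, 2320, -11, 5, 6, 0, 0, 0, 0⟩], [⟨15, 950, -24, 10, 6, 0, -10, 0, 0⟩]⟩
noncomputable def w326 : Wn := ⟨[⟨0, -301, 0, -1, 1, 0, 0, 0, 0⟩], [⟨11, 4380, 2, 0, 8, 0, 18, 0, 0⟩, ⟨11, 5050, 2, 18, 6, 0, 2, 0, 0⟩, ⟨16, 2620, -15, 6, 9, 0, 0, 0, 0⟩], [⟨21, 1400, -32, 12, 10, 0, -18, 0, 0⟩]⟩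
noncomputable def w327 : Wn := ⟨[⟨0, -399, 0, -1, 1, 0, 0, 0, 0⟩], [⟨11, 3590, 2, 0, 18, 0, 8, 0, 0⟩, ⟨11, 4850, 2, 18, 6, 0, 2, 0, 0⟩], [⟨21, 1400, -32, 12, 10, 0, -18, 0, 0⟩, ⟨16, 2500, -15, 6, 9, 0, 0, 0, 0⟩]⟩
noncomputable def w328 : Wn := ⟨[⟨0, -301, 0, -1, 1, 0, 0, 0, 0⟩], [⟨11, 3590, 2, 0, 18, 0, 8, 0, 0⟩, ⟨11, 4850, 2, 18, 6, 0, 2, 0, 0⟩], [⟨21, 1390, -32, 12, 10, 0, -18, 0, 0⟩, ⟨16, 2490, -15, 6, 9, 0, 0, 0, 0⟩]⟩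
noncomputable def w329 : Wn := ⟨[⟨0, -201, 0, -1, 1, 0, 0, 0, 0⟩], [⟨11, 3590, 2, 0, 18, 0, 8, 0, 0⟩, ⟨11, 4850, 2, 18, 6, 0, 2, 0, 0⟩], [⟨21, 1360, -32, 12, 10, 0, -18, 0, 0⟩, ⟨16, 2470, -15, 6, 9, 0, 0, 0, 0⟩]⟩
noncomputable def w330 : Wn := ⟨[⟨0, -159, 0, -1, 1, 0, 0, 0, 0⟩], [⟨11, 3590, 2, 0, 18, 0, 8, 0, 0⟩, ⟨11, 4850, 2, 18, 6, 0, 2, 0, 0⟩], [⟨21, 1340, -32, 12, 10, 0, -18, 0, 0⟩, ⟨16, 2460, -15, 6, 9, 0, 0, 0, 0⟩]⟩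
noncomputable def w331 : Wn := ⟨[⟨0, -133, 0, -1, 1, 0, 0, 0, 0⟩], [⟨11, 3590, 2, 0, 18, 0, 8, 0, 0⟩, ⟨11, 4850, 2, 18, 6, 0, 2, 0, 0⟩], [⟨21, 1320, -32, 12, 10, 0, -18, 0, 0⟩, ⟨16, 2440, -15, 6, 9, 0, 0, 0, 0⟩]⟩
noncomputable def w332 : Wn := ⟨[⟨0, -159, 0, -1, 1, 0, 0, 0, 0⟩], [⟨11, 5970, 2, 0, 8, 0, 14, 0, 0⟩, ⟨11, 4960, 2, 16, 4, 0, 2, 0, 0⟩], [⟨19, 1140, -30, 12, 8, 0, -14, 0, 0⟩]⟩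
noncomputable def w333 : Wn := ⟨[⟨0, -133, 0, -1, 1, 0, 0, 0, 0⟩], [⟨11, 5970, 2, 0, 8, 0, 14, 0, 0⟩, ⟨11, 4960, 2, 16, 4, 0, 2, 0, 0⟩], [⟨19, 1120, -30, 12, 8, 0, -14, 0, 0⟩]⟩
noncomputable def w334 : Wn := ⟨[⟨0, -93, 0, -1, 1, 0, 0, 0, 0⟩], [⟨11, 5970, 2, 0, 8, 0, 14, 0, 0⟩, ⟨11, 4960, 2, 16, 4, 0, 2, 0, 0⟩], [⟨19, 1070, -30, 12, 8, 0, -14, 0, 0⟩]⟩
noncomputable def w335 : Wn := ⟨[], [⟨11, 5970, 2, 0, 8, 0, 14, 0, 0⟩, ⟨11, 4960, 2, 16, 4, 0, 2, 0, 0⟩], [⟨19, 920, -30, 12, 8, 0, -14, 0, 0⟩]⟩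
noncomputable def w336 : Wn := ⟨[⟨0, -399, 0, -1, 1, 0, 0, 0, 0⟩], [⟨13, 3880, 2, 0, 22, 0, 10, 0, 0⟩, ⟨13, 5270, 2, 22, 8, 0, 2, 0, 0⟩], [⟨25, 2120, -38, 14, 12, 0, -22, 0, 0⟩]⟩
noncomputable def w337 : Wn := ⟨[⟨0, -301, 0, -1, 1, 0, 0, 0, 0⟩], [⟨13, 3880, 2, 0, 22, 0, 10, 0, 0⟩, ⟨13, 5270, 2, 22, 8, 0, 2, 0, 0⟩], [⟨25, 2100, -38, 14, 12, 0, -22, 0, 0⟩]⟩
noncomputable def w338 : Wn := ⟨[⟨0, -201, 0, -1, 1, 0, 0, 0, 0⟩], [⟨13, 3880, 2, 0, 22, 0, 10, 0, 0⟩, ⟨13, 5270, 2, 22, 8, 0, 2, 0, 0⟩], [⟨25, 2070, -38, 14, 12, 0, -22, 0, 0⟩]⟩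
noncomputable def w339 : Wn := ⟨[⟨0, -159, 0, -1, 1, 0, 0, 0, 0⟩], [⟨13, 3880, 2, 0, 22, 0, 10, 0, 0⟩, ⟨13, 5270, 2, 22, 8, 0, 2, 0, 0⟩], [⟨25, 2050, -38, 14, 12, 0, -22, 0, 0⟩]⟩
noncomputable def w340 : Wn := ⟨[⟨0, -133, 0, -1, 1, 0, 0, 0, 0⟩], [⟨13, 3880, 2, 0, 22, 0, 10, 0, 0⟩, ⟨13, 5270, 2, 22, 8, 0, 2, 0, 0⟩], [⟨25, 2040, -38, 14, 12, 0, -22, 0, 0⟩]⟩
noncomputable def w341 : Wn := ⟨[⟨0, -93, 0, -1, 1, 0, 0, 0, 0⟩], [⟨13, 5000, 2, 0, 10, 0, 22, 0, 0⟩, ⟨13, 4800, 2, 22, 8, 0, 2, 0, 0⟩], [⟨25, 2010, -38, 14, 12, 0, -22, 0, 0⟩]⟩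
noncomputable def w342 : Wn := ⟨[], [⟨13, 5470, 2, 0, 10, 0, 22, 0, 0⟩, ⟨13, 3710, 2, 8, 22, 0, 2, 0, 0⟩], [⟨25, 1940, -38, 14, 12, 0, -22, 0, 0⟩]⟩
noncomputable def w343 : Wn := ⟨[⟨0, -399, 0, -1, 1, 0, 0, 0, 0⟩], [⟨15, 4400, 2, 0, 26, 0, 12, 0, 0⟩, ⟨15, 5970, 2, 26, 10, 0, 2, 0, 0⟩, ⟨22, 3550, -21, 8, 13, 0, 0, 0, 0⟩], [⟨29, 2490, -44, 16, 14, 0, -26, 0, 0⟩]⟩
noncomputable def w344 : Wn := ⟨[⟨0, -301, 0, -1, 1, 0, 0, 0, 0⟩], [⟨15, 4400, 2, 0, 26, 0, 12, 0, 0⟩, ⟨15, 5970, 2, 26, 10, 0, 2, 0, 0⟩, ⟨22, 3620, -21, 8, 13, 0, 0, 0, 0⟩], [⟨29, 2470, -44, 16, 14, 0, -26, 0, 0⟩]⟩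
noncomputable def w345 : Wn := ⟨[⟨0, -201, 0, -1, 1, 0, 0, 0, 0⟩], [⟨15, 4400, 2, 0, 26, 0, 12, 0, 0⟩, ⟨15, 5970, 2, 26, 10, 0, 2, 0, 0⟩], [⟨29, 2440, -44, 16, 14, 0, -26, 0, 0⟩, ⟨22, 3420, -21, 8, 13, 0, 0, 0, 0⟩]⟩
noncomputable def w346 : Wn := ⟨[⟨0, -159, 0, -1, 1, 0, 0, 0, 0⟩], [⟨15, 4400, 2, 0, 26, 0, 12, 0, 0⟩, ⟨15, 5970, 2, 26, 10, 0, 2, 0, 0⟩], [⟨29, 2420, -44, 16, 14, 0, -26, 0, 0⟩, ⟨22, 3410, -21, 8, 13, 0, 0, 0, 0⟩]⟩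
noncomputable def w347 : Wn := ⟨[⟨0, -133, 0, -1, 1, 0, 0, 0, 0⟩], [⟨15, 4400, 2, 0, 26, 0, 12, 0, 0⟩, ⟨15, 5970, 2, 26, 10, 0, 2, 0, 0⟩], [⟨29, 2410, -44, 16, 14, 0, -26, 0, 0⟩, ⟨22, 3400, -21, 8, 13, 0, 0, 0, 0⟩]⟩

noncomputable def wt3 : List Wn := [
  w261, w262, w263, w264, w265, w266, w267, w268, w269, w270, w271, w272, w273, w274, w275, w276,
  w277, w278, w279, w280, w281, w282, w283, w284, w285, w286, w287, w288, w289, w290, w291, w292,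
  w293, w294, w295, w296, w297, w298, w299, w300, w301, w302, w303, w304, w305, w306, w307, w308,
  w309, w310, w311, w312, w313, w314, w315, w316, w317, w318, w319, w320, w321, w322, w323, w324,
  w325, w326, w327, w328, w329, w330, w331, w332, w333, w334, w335, w336, w337, w338, w339, w340,
  w341, w342, w343, w344, w345, w346, w347]

noncomputable def we3 : List El7 := [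
  .fm 19797481564 ⟨1, 40, 41, 41, 1, 0, 1, 1000, 1000, 100, 900, 1000, 1000, 0, 2430, 3108, -1400, 2226, 0⟩,
  .fm 31869116664 ⟨1, 41, 42, 42, 0, 1, 1, 1000, 250, 250, 500, 1000, 1000, 0, 3163, 3163, -1412, 0, 0⟩,
  .fm 6 ⟨2, 2, 3, 3, 4, 1, 1, 250, 1000, 50, 950, 1000, 1000, 201, 97, 183, -160, 109, 0⟩,
  .fm 10 ⟨2, 4, 5, 5, 4, 1, 1, 125, 1000, 50, 950, 1000, 1000, 301, 264, 351, -212, 204, 0⟩,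
  .fm 10 ⟨2, 4, 5, 5, 4, 1, 1, 250, 1000, 50, 950, 1000, 1000, 201, 264, 351, -212, 204, 0⟩,
  .fm 28 ⟨2, 6, 7, 7, 4, 0, 1, 250, 1000, 100, 900, 1000, 1000, 201, 322, 486, -276, 299, 0⟩,
  .fm 198 ⟨2, 8, 9, 9, 4, 0, 1, 125, 1000, 100, 900, 1000, 1000, 301, 422, 616, -366, 394, 0⟩,
  .fm 198 ⟨2, 8, 9, 9, 4, 0, 1, 250, 1000, 100, 900, 1000, 1000, 201, 422, 616, -366, 394, 0⟩,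
  .fm 572 ⟨2, 10, 11, 11, 4, 0, 1, 250, 1000, 100, 900, 1000, 1000, 201, 548, 773, -430, 489, 0⟩,
  .fm 364 ⟨2, 12, 13, 13, 4, 0, 1, 125, 1000, 100, 900, 1000, 1000, 301, 719, 974, -449, 584, 0⟩,
  .fm 364 ⟨2, 12, 13, 13, 4, 0, 1, 250, 1000, 100, 900, 1000, 1000, 201, 719, 974, -449, 584, 0⟩,
  .fm 38760 ⟨2, 14, 15, 15, 4, 0, 1, 250, 1000, 100, 900, 1000, 1000, 201, 742, 1027, -616, 678, 0⟩,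
  .q 2,
  .q 3,
  .q 4,
  .fj 1 6 ⟨0, 1, 1, 1, 2, 1, 1, 63, 1000, 50, 950, 1000, 1000, 399, 21, 87, -116, 62, 0⟩,
  .fj 1 6 ⟨0, 1, 1, 1, 2, 1, 1, 125, 1000, 50, 950, 1000, 1000, 301, 21, 87, -115, 63, 0⟩,
  .fj 1 6 ⟨0, 1, 1, 1, 1, 1, 1, 1000, 1000, 50, 950, 1000, 1000, 0, 21, 87, -98, 71, 0⟩,
  .fj 1 4 ⟨0, 2, 2, 2, 0, 0, 1, 125, 450, 50, 500, 1000, 1000, 301, 127, 205, -89, 0, 0⟩,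
  .fj 1 4 ⟨0, 2, 2, 2, 0, 0, 1, 250, 450, 50, 500, 1000, 1000, 201, 127, 205, -86, 0, 0⟩,
  .fj 1 4 ⟨0, 2, 2, 2, 0, 0, 1, 334, 450, 50, 500, 1000, 1000, 159, 127, 205, -85, 0, 0⟩,
  .fj 1 4 ⟨0, 2, 2, 2, 0, 0, 1, 400, 450, 50, 500, 1000, 1000, 133, 127, 205, -83, 0, 0⟩,
  .fj 1 4 ⟨0, 2, 2, 2, 0, 0, 1, 63, 855, 95, 50, 1000, 1000, 399, 109, 187, -25, 0, 0⟩,
  .fj 1 4 ⟨0, 2, 2, 2, 0, 0, 1, 125, 855, 95, 50, 1000, 1000, 301, 109, 187, -23, 0, 0⟩,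
  .fj 1 4 ⟨0, 2, 2, 2, 0, 0, 1, 250, 855, 95, 50, 1000, 1000, 201, 109, 187, -20, 0, 0⟩,
  .fj 1 4 ⟨0, 2, 2, 2, 0, 0, 1, 334, 855, 95, 50, 1000, 1000, 159, 109, 187, -18, 0, 0⟩,
  .fj 1 4 ⟨0, 2, 2, 2, 0, 0, 1, 334, 45, 5, 950, 1000, 1000, 159, 194, 272, -103, 0, 0⟩,
  .fj 1 4 ⟨0, 2, 2, 2, 0, 1, 1, 527, 250, 250, 500, 1000, 1000, 93, 179, 159, -81, 0, 0⟩,
  .fj 1 4 ⟨0, 2, 2, 2, 0, 1, 1, 1000, 250, 250, 500, 1000, 1000, 0, 179, 159, -73, 0, 0⟩,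
  .fj 1 4 ⟨0, 3, 3, 3, 2, 1, 1, 250, 1000, 50, 950, 1000, 1000, 201, 240, 307, -114, 170, 0⟩,
  .fj 1 4 ⟨0, 3, 3, 3, 4, 0, 1, 63, 1000, 100, 900, 1000, 1000, 399, 191, 287, -117, 154, 0⟩,
  .fj 1 4 ⟨0, 3, 3, 3, 4, 0, 1, 125, 1000, 100, 900, 1000, 1000, 301, 191, 287, -116, 154, 0⟩,
  .fj 1 4 ⟨0, 3, 3, 3, 4, 0, 1, 250, 1000, 100, 900, 1000, 1000, 201, 191, 287, -113, 152, 0⟩,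
  .fj 1 4 ⟨0, 3, 3, 3, 4, 0, 1, 334, 1000, 100, 900, 1000, 1000, 159, 191, 287, -111, 150, 0⟩,
  .fj 1 4 ⟨0, 3, 3, 3, 4, 1, 1, 400, 1000, 50, 950, 1000, 1000, 133, 240, 307, -111, 147, 0⟩,
  .fj 2 28 ⟨0, 3, 2, 2, 0, 0, 1, 250, 450, 50, 500, 1000, 1000, 201, 164, 239, -131, 0, 0⟩,
  .fj 2 28 ⟨0, 3, 2, 2, 0, 0, 1, 334, 450, 50, 500, 1000, 1000, 159, 164, 239, -128, 0, 0⟩,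
  .fj 2 28 ⟨0, 3, 2, 2, 0, 0, 1, 400, 450, 50, 500, 1000, 1000, 133, 164, 239, -126, 0, 0⟩,
  .fj 2 28 ⟨0, 3, 2, 2, 0, 0, 1, 527, 450, 50, 500, 1000, 1000, 93, 164, 239, -121, 0, 0⟩,
  .fj 2 28 ⟨0, 3, 2, 2, 0, 0, 1, 250, 45, 5, 950, 1000, 1000, 201, 230, 305, -150, 0, 0⟩,
  .fj 2 28 ⟨0, 3, 2, 2, 0, 0, 1, 334, 45, 5, 950, 1000, 1000, 159, 230, 305, -147, 0, 0⟩,
  .fj 2 28 ⟨0, 3, 2, 2, 0, 0, 1, 400, 45, 5, 950, 1000, 1000, 133, 230, 305, -144, 0, 0⟩,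
  .fj 2 28 ⟨0, 3, 2, 2, 0, 0, 1, 527, 45, 5, 950, 1000, 1000, 93, 230, 305, -140, 0, 0⟩,
  .fj 2 28 ⟨0, 3, 2, 2, 0, 1, 1, 1000, 5, 45, 950, 1000, 1000, 0, 340, 242, -125, 0, 0⟩,
  .fj 1 120 ⟨0, 4, 4, 4, 0, 0, 1, 63, 450, 50, 500, 1000, 1000, 399, 200, 308, -210, 0, 0⟩,
  .fj 1 120 ⟨0, 4, 4, 4, 0, 0, 1, 125, 450, 50, 500, 1000, 1000, 301, 200, 308, -208, 0, 0⟩,
  .fj 1 120 ⟨0, 4, 4, 4, 0, 0, 1, 250, 450, 50, 500, 1000, 1000, 201, 200, 308, -205, 0, 0⟩,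
  .fj 1 120 ⟨0, 4, 4, 4, 0, 0, 1, 334, 450, 50, 500, 1000, 1000, 159, 200, 308, -203, 0, 0⟩,
  .fj 1 120 ⟨0, 4, 4, 4, 0, 0, 1, 400, 450, 50, 500, 1000, 1000, 133, 200, 308, -202, 0, 0⟩,
  .fj 1 120 ⟨0, 4, 4, 4, 0, 0, 1, 527, 450, 50, 500, 1000, 1000, 93, 200, 308, -199, 0, 0⟩,
  .fj 1 120 ⟨0, 4, 4, 4, 0, 0, 1, 63, 855, 95, 50, 1000, 1000, 399, 182, 290, -143, 0, 0⟩,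
  .fj 1 120 ⟨0, 4, 4, 4, 0, 0, 1, 125, 855, 95, 50, 1000, 1000, 301, 182, 290, -141, 0, 0⟩,
  .fj 1 120 ⟨0, 4, 4, 4, 0, 0, 1, 250, 855, 95, 50, 1000, 1000, 201, 182, 290, -138, 0, 0⟩,
  .fj 1 120 ⟨0, 4, 4, 4, 0, 0, 1, 334, 855, 95, 50, 1000, 1000, 159, 182, 290, -137, 0, 0⟩,
  .fj 1 120 ⟨0, 4, 4, 4, 0, 0, 1, 400, 855, 95, 50, 1000, 1000, 133, 182, 290, -135, 0, 0⟩,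
  .fj 1 120 ⟨0, 4, 4, 4, 0, 0, 1, 527, 855, 95, 50, 1000, 1000, 93, 182, 290, -133, 0, 0⟩,
  .fj 1 120 ⟨0, 4, 4, 4, 0, 0, 1, 250, 45, 5, 950, 1000, 1000, 201, 267, 375, -223, 0, 0⟩,
  .fj 1 120 ⟨0, 4, 4, 4, 0, 0, 1, 334, 45, 5, 950, 1000, 1000, 159, 267, 375, -221, 0, 0⟩,
  .fj 1 120 ⟨0, 4, 4, 4, 0, 1, 1, 1000, 250, 250, 500, 1000, 1000, 0, 282, 262, -191, 0, 0⟩,
  .fj 1 120 ⟨0, 4, 4, 4, 0, 1, 1, 1000, 475, 475, 50, 1000, 1000, 0, 263, 243, -125, 0, 0⟩,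
  .fj 1 120 ⟨0, 4, 4, 4, 0, 1, 1, 527, 25, 25, 950, 1000, 1000, 93, 348, 328, -218, 0, 0⟩,
  .fj 2 6 ⟨0, 4, 3, 3, 2, 1, 1, 250, 1000, 50, 950, 1000, 1000, 201, 344, 395, -105, 213, 0⟩,
  .fj 2 6 ⟨0, 4, 3, 3, 2, 1, 1, 334, 1000, 50, 950, 1000, 1000, 159, 344, 395, -102, 219, 0⟩,
  .fj 2 6 ⟨0, 4, 3, 3, 2, 1, 1, 400, 1000, 50, 950, 1000, 1000, 133, 344, 395, -100, 223, 0⟩,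
  .fj 2 6 ⟨0, 4, 3, 3, 2, 1, 1, 527, 1000, 50, 950, 1000, 1000, 93, 344, 395, -95, 232, 0⟩,
  .fj 1 4 ⟨0, 5, 5, 5, 2, 1, 1, 125, 1000, 50, 950, 1000, 1000, 301, 438, 505, -140, 262, 0⟩,
  .fj 1 4 ⟨0, 5, 5, 5, 4, 0, 1, 63, 1000, 100, 900, 1000, 1000, 399, 359, 485, -140, 250, 0⟩,
  .fj 1 4 ⟨0, 5, 5, 5, 4, 0, 1, 125, 1000, 100, 900, 1000, 1000, 301, 359, 485, -139, 249, 0⟩,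
  .fj 1 4 ⟨0, 5, 5, 5, 4, 0, 1, 250, 1000, 100, 900, 1000, 1000, 201, 359, 485, -136, 247, 0⟩,
  .fj 1 4 ⟨0, 5, 5, 5, 4, 0, 1, 334, 1000, 100, 900, 1000, 1000, 159, 359, 485, -134, 246, 0⟩,
  .fj 1 4 ⟨0, 5, 5, 5, 4, 0, 1, 400, 1000, 100, 900, 1000, 1000, 133, 359, 485, -132, 244, 0⟩,
  .fj 2 8 ⟨0, 5, 4, 4, 0, 1, 1, 334, 5, 45, 950, 1000, 1000, 159, 597, 496, -114, 0, 0⟩,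
  .fj 2 8 ⟨0, 5, 4, 4, 0, 1, 1, 400, 5, 45, 950, 1000, 1000, 133, 597, 496, -112, 0, 0⟩,
  .fj 2 8 ⟨0, 5, 4, 4, 0, 1, 1, 527, 5, 45, 950, 1000, 1000, 93, 597, 496, -107, 0, 0⟩,
  .fj 2 8 ⟨0, 5, 4, 4, 0, 1, 1, 1000, 5, 45, 950, 1000, 1000, 0, 597, 496, -92, 0, 0⟩,
  .fj 1 56 ⟨0, 6, 6, 6, 0, 0, 1, 63, 450, 50, 500, 1000, 1000, 399, 388, 527, -212, 0, 0⟩,
  .fj 1 56 ⟨0, 6, 6, 6, 0, 0, 1, 125, 450, 50, 500, 1000, 1000, 301, 388, 527, -210, 0, 0⟩,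
  .fj 1 56 ⟨0, 6, 6, 6, 0, 0, 1, 250, 450, 50, 500, 1000, 1000, 201, 388, 527, -207, 0, 0⟩,
  .fj 1 56 ⟨0, 6, 6, 6, 0, 0, 1, 334, 450, 50, 500, 1000, 1000, 159, 388, 527, -205, 0, 0⟩,
  .fj 1 56 ⟨0, 6, 6, 6, 0, 0, 1, 400, 450, 50, 500, 1000, 1000, 133, 388, 527, -204, 0, 0⟩,
  .fj 1 56 ⟨0, 6, 6, 6, 0, 1, 1, 527, 250, 250, 500, 1000, 1000, 93, 500, 480, -201, 0, 0⟩,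
  .fj 1 56 ⟨0, 6, 6, 6, 0, 1, 0, 1000, 50, 450, 500, 1000, 1000, 0, 547, 371, -194, 0, 0⟩,
  .fj 1 72 ⟨0, 7, 7, 7, 2, 0, 1, 63, 1000, 100, 900, 1000, 1000, 399, 440, 597, -249, 355, 0⟩,
  .fj 1 72 ⟨0, 7, 7, 7, 2, 0, 1, 125, 1000, 100, 900, 1000, 1000, 301, 440, 597, -247, 362, 0⟩,
  .fj 1 72 ⟨0, 7, 7, 7, 4, 0, 1, 250, 1000, 100, 900, 1000, 1000, 201, 440, 597, -244, 342, 0⟩,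
  .fj 1 72 ⟨0, 7, 7, 7, 4, 0, 1, 334, 1000, 100, 900, 1000, 1000, 159, 440, 597, -242, 341, 0⟩,
  .fj 1 72 ⟨0, 7, 7, 7, 4, 0, 1, 400, 1000, 100, 900, 1000, 1000, 133, 440, 597, -241, 340, 0⟩]

theorem wt3_ok : ∀ w ∈ wt3, w.Ok := tab_ok7 we3 (by decide +kernel) (by decide +kernel)

noncomputable def v261 : VW := vw wt3_ok 0 w261 rfl
noncomputable def v262 : VW := vw wt3_ok 1 w262 rfl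
noncomputable def v263 : VW := vw wt3_ok 2 w263 rfl
noncomputable def v264 : VW := vw wt3_ok 3 w264 rfl
noncomputable def v265 : VW := vw wt3_ok 4 w265 rfl
noncomputable def v266 : VW := vw wt3_ok 5 w266 rfl
noncomputable def v267 : VW := vw wt3_ok 6 w267 rfl
noncomputable def v268 : VW := vw wt3_ok 7 w268 rfl
noncomputable def v269 : VW := vw wt3_ok 8 w269 rfl
noncomputable def v270 : VW := vw wt3_ok 9 w270 rfl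
noncomputable def v271 : VW := vw wt3_ok 10 w271 rfl
noncomputable def v272 : VW := vw wt3_ok 11 w272 rfl
noncomputable def v273 : VW := vw wt3_ok 12 w273 rfl
noncomputable def v274 : VW := vw wt3_ok 13 w274 rfl
noncomputable def v275 : VW := vw wt3_ok 14 w275 rfl
noncomputable def v276 : VW := vw wt3_ok 15 w276 rfl
noncomputable def v277 : VW := vw wt3_ok 16 w277 rfl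
noncomputable def v278 : VW := vw wt3_ok 17 w278 rfl
noncomputable def v279 : VW := vw wt3_ok 18 w279 rfl
noncomputable def v280 : VW := vw wt3_ok 19 w280 rfl
noncomputable def v281 : VW := vw wt3_ok 20 w281 rfl
noncomputable def v282 : VW := vw wt3_ok 21 w282 rfl
noncomputable def v283 : VW := vw wt3_ok 22 w283 rfl
noncomputable def v284 : VW := vw wt3_ok 23 w284 rfl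
noncomputable def v285 : VW := vw wt3_ok 24 w285 rfl
noncomputable def v286 : VW := vw wt3_ok 25 w286 rfl
noncomputable def v287 : VW := vw wt3_ok 26 w287 rfl
noncomputable def v288 : VW := vw wt3_ok 27 w288 rfl
noncomputable def v289 : VW := vw wt3_ok 28 w289 rfl
noncomputable def v290 : VW := vw wt3_ok 29 w290 rfl
noncomputable def v291 : VW := vw wt3_ok 30 w291 rfl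
noncomputable def v292 : VW := vw wt3_ok 31 w292 rfl
noncomputable def v293 : VW := vw wt3_ok 32 w293 rfl
noncomputable def v294 : VW := vw wt3_ok 33 w294 rfl
noncomputable def v295 : VW := vw wt3_ok 34 w295 rfl
noncomputable def v296 : VW := vw wt3_ok 35 w296 rfl
noncomputable def v297 : VW := vw wt3_ok 36 w297 rfl
noncomputable def v298 : VW := vw wt3_ok 37 w298 rfl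
noncomputable def v299 : VW := vw wt3_ok 38 w299 rfl
noncomputable def v300 : VW := vw wt3_ok 39 w300 rfl
noncomputable def v301 : VW := vw wt3_ok 40 w301 rfl
noncomputable def v302 : VW := vw wt3_ok 41 w302 rfl
noncomputable def v303 : VW := vw wt3_ok 42 w303 rfl
noncomputable def v304 : VW := vw wt3_ok 43 w304 rfl
noncomputable def v305 : VW := vw wt3_ok 44 w305 rfl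
noncomputable def v306 : VW := vw wt3_ok 45 w306 rfl
noncomputable def v307 : VW := vw wt3_ok 46 w307 rfl
noncomputable def v308 : VW := vw wt3_ok 47 w308 rfl
noncomputable def v309 : VW := vw wt3_ok 48 w309 rfl
noncomputable def v310 : VW := vw wt3_ok 49 w310 rfl
noncomputable def v311 : VW := vw wt3_ok 50 w311 rfl
noncomputable def v312 : VW := vw wt3_ok 51 w312 rfl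
noncomputable def v313 : VW := vw wt3_ok 52 w313 rfl
noncomputable def v314 : VW := vw wt3_ok 53 w314 rfl
noncomputable def v315 : VW := vw wt3_ok 54 w315 rfl
noncomputable def v316 : VW := vw wt3_ok 55 w316 rfl
noncomputable def v317 : VW := vw wt3_ok 56 w317 rfl
noncomputable def v318 : VW := vw wt3_ok 57 w318 rfl
noncomputable def v319 : VW := vw wt3_ok 58 w319 rfl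
noncomputable def v320 : VW := vw wt3_ok 59 w320 rfl
noncomputable def v321 : VW := vw wt3_ok 60 w321 rfl
noncomputable def v322 : VW := vw wt3_ok 61 w322 rfl
noncomputable def v323 : VW := vw wt3_ok 62 w323 rfl
noncomputable def v324 : VW := vw wt3_ok 63 w324 rfl
noncomputable def v325 : VW := vw wt3_ok 64 w325 rfl
noncomputable def v326 : VW := vw wt3_ok 65 w326 rfl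
noncomputable def v327 : VW := vw wt3_ok 66 w327 rfl
noncomputable def v328 : VW := vw wt3_ok 67 w328 rfl
noncomputable def v329 : VW := vw wt3_ok 68 w329 rfl
noncomputable def v330 : VW := vw wt3_ok 69 w330 rfl
noncomputable def v331 : VW := vw wt3_ok 70 w331 rfl
noncomputable def v332 : VW := vw wt3_ok 71 w332 rfl
noncomputable def v333 : VW := vw wt3_ok 72 w333 rfl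
noncomputable def v334 : VW := vw wt3_ok 73 w334 rfl
noncomputable def v335 : VW := vw wt3_ok 74 w335 rfl
noncomputable def v336 : VW := vw wt3_ok 75 w336 rfl
noncomputable def v337 : VW := vw wt3_ok 76 w337 rfl
noncomputable def v338 : VW := vw wt3_ok 77 w338 rfl
noncomputable def v339 : VW := vw wt3_ok 78 w339 rfl
noncomputable def v340 : VW := vw wt3_ok 79 w340 rfl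
noncomputable def v341 : VW := vw wt3_ok 80 w341 rfl
noncomputable def v342 : VW := vw wt3_ok 81 w342 rfl
noncomputable def v343 : VW := vw wt3_ok 82 w343 rfl
noncomputable def v344 : VW := vw wt3_ok 83 w344 rfl
noncomputable def v345 : VW := vw wt3_ok 84 w345 rfl
noncomputable def v346 : VW := vw wt3_ok 85 w346 rfl
noncomputable def v347 : VW := vw wt3_ok 86 w347 rfl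

end Pool.Agent.MP_2339ce_nt.Q2.TB.RT
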