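import Pool.Agent.MP_2339ce_nt.Q2.HA7
import Pool.Agent.MP_2339ce_nt.Q2.RTV

/-! Project Q2, block RT: valid windows. -/

set_option autoImplicit false

noncomputable section

namespace Pool.Agent.MP_2339ce_nt.Q2.TB.RT

noncomputable def w348 : Wn := ⟨[⟨0, -159, 0, -1, 1, 0, 0, 0, 0⟩], [⟨15, 4900, 2, 0, 24, 0, 10, 0, 0⟩, ⟨15, 6220, 2, 24, 8, 0, 2, 0, 0⟩], [⟨27, 1880, -42, 16, 12, 0, -22, 0, 0⟩]⟩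
noncomputable def w349 : Wn := ⟨[⟨0, -93, 0, -1, 1, 0, 0, 0, 0⟩], [⟨15, 4900, 2, 0, 24, 0, 10, 0, 0⟩, ⟨15, 6220, 2, 24, 8, 0, 2, 0, 0⟩], [⟨27, 1800, -42, 16, 12, 0, -22, 0, 0⟩]⟩
noncomputable def w350 : Wn := ⟨[⟨0, -399, 0, -1, 1, 0, 0, 0, 0⟩], [⟨17, 5570, 2, 0, 30, 0, 14, 0, 0⟩, ⟨17, 7260, 2, 30, 12, 0, 2, 0, 0⟩], [⟨33, 2330, -50, 18, 16, 0, -30, 0, 0⟩]⟩
noncomputable def w351 : Wn := ⟨[⟨0, -301, 0, -1, 1, 0, 0, 0, 0⟩], [⟨17, 5570, 2, 0, 30, 0, 14, 0, 0⟩, ⟨17, 7260, 2, 30, 12, 0, 2, 0, 0⟩], [⟨33, 2320, -50, 18, 16, 0, -30, 0, 0⟩]⟩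
noncomputable def w352 : Wn := ⟨[⟨0, -201, 0, -1, 1, 0, 0, 0, 0⟩], [⟨17, 5570, 2, 0, 30, 0, 14, 0, 0⟩, ⟨17, 7260, 2, 30, 12, 0, 2, 0, 0⟩], [⟨33, 2290, -50, 18, 16, 0, -30, 0, 0⟩]⟩
noncomputable def w353 : Wn := ⟨[⟨0, -159, 0, -1, 1, 0, 0, 0, 0⟩], [⟨17, 5570, 2, 0, 30, 0, 14, 0, 0⟩, ⟨17, 7260, 2, 30, 12, 0, 2, 0, 0⟩], [⟨33, 2270, -50, 18, 16, 0, -30, 0, 0⟩]⟩
noncomputable def w354 : Wn := ⟨[⟨0, -133, 0, -1, 1, 0, 0, 0, 0⟩], [⟨17, 6990, 2, 0, 14, 0, 30, 0, 0⟩, ⟨17, 6790, 2, 30, 12, 0, 2, 0, 0⟩], [⟨33, 2250, -50, 18, 16, 0, -30, 0, 0⟩]⟩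
noncomputable def w355 : Wn := ⟨[], [⟨17, 7460, 2, 0, 14, 0, 30, 0, 0⟩, ⟨17, 5390, 2, 12, 30, 0, 2, 0, 0⟩], [⟨33, 2150, -50, 18, 16, 0, -30, 0, 0⟩]⟩
noncomputable def w356 : Wn := ⟨[⟨0, -93, 0, -1, 1, 0, 0, 0, 0⟩], [⟨17, 7460, 2, 0, 14, 0, 30, 0, 0⟩, ⟨17, 6620, 2, 30, 12, 0, 2, 0, 0⟩], [⟨33, 2230, -50, 18, 16, 0, -30, 0, 0⟩]⟩
noncomputable def w357 : Wn := ⟨[⟨0, -301, 0, -1, 1, 0, 0, 0, 0⟩], [⟨19, 5720, 2, 0, 34, 0, 16, 0, 0⟩, ⟨19, 7590, 2, 34, 14, 0, 2, 0, 0⟩, ⟨28, 4610, -27, 10, 17, 0, 0, 0, 0⟩], [⟨37, 3060, -56, 20, 18, 0, -34, 0, 0⟩]⟩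
noncomputable def w358 : Wn := ⟨[⟨0, -201, 0, -1, 1, 0, 0, 0, 0⟩], [⟨19, 5720, 2, 0, 34, 0, 16, 0, 0⟩, ⟨19, 7590, 2, 34, 14, 0, 2, 0, 0⟩], [⟨37, 3030, -56, 20, 18, 0, -34, 0, 0⟩, ⟨28, 4370, -27, 10, 17, 0, 0, 0, 0⟩]⟩
noncomputable def w359 : Wn := ⟨[⟨0, -159, 0, -1, 1, 0, 0, 0, 0⟩], [⟨19, 5720, 2, 0, 34, 0, 16, 0, 0⟩, ⟨19, 7590, 2, 34, 14, 0, 2, 0, 0⟩], [⟨37, 3010, -56, 20, 18, 0, -34, 0, 0⟩, ⟨28, 4360, -27, 10, 17, 0, 0, 0, 0⟩]⟩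
noncomputable def w360 : Wn := ⟨[⟨0, -133, 0, -1, 1, 0, 0, 0, 0⟩], [⟨19, 7120, 2, 0, 16, 0, 34, 0, 0⟩, ⟨19, 7120, 2, 34, 14, 0, 2, 0, 0⟩], [⟨37, 2830, -56, 20, 18, 0, -34, 0, 0⟩, ⟨28, 4350, -27, 10, 17, 0, 0, 0, 0⟩]⟩
noncomputable def w361 : Wn := ⟨[⟨0, -159, 0, -1, 1, 0, 0, 0, 0⟩], [⟨19, 6520, 2, 0, 32, 0, 14, 0, 0⟩, ⟨19, 8130, 2, 32, 12, 0, 2, 0, 0⟩], [⟨35, 2170, -54, 20, 16, 0, -30, 0, 0⟩]⟩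
noncomputable def w362 : Wn := ⟨[⟨0, -133, 0, -1, 1, 0, 0, 0, 0⟩], [⟨19, 6520, 2, 0, 32, 0, 14, 0, 0⟩, ⟨19, 8130, 2, 32, 12, 0, 2, 0, 0⟩], [⟨35, 2140, -54, 20, 16, 0, -30, 0, 0⟩]⟩
noncomputable def w363 : Wn := ⟨[⟨0, -93, 0, -1, 1, 0, 0, 0, 0⟩], [⟨19, 6520, 2, 0, 32, 0, 14, 0, 0⟩, ⟨19, 8130, 2, 32, 12, 0, 2, 0, 0⟩], [⟨35, 2090, -54, 20, 16, 0, -30, 0, 0⟩]⟩
noncomputable def w364 : Wn := ⟨[⟨0, -201, 0, -1, 1, 0, 0, 0, 0⟩], [⟨21, 5980, 2, 0, 38, 0, 18, 0, 0⟩, ⟨21, 7960, 2, 38, 16, 0, 2, 0, 0⟩], [⟨41, 3790, -62, 22, 20, 0, -38, 0, 0⟩]⟩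
noncomputable def w365 : Wn := ⟨[⟨0, -159, 0, -1, 1, 0, 0, 0, 0⟩], [⟨21, 7700, 2, 0, 18, 0, 38, 0, 0⟩, ⟨21, 7500, 2, 38, 16, 0, 2, 0, 0⟩], [⟨41, 3770, -62, 22, 20, 0, -38, 0, 0⟩]⟩
noncomputable def w366 : Wn := ⟨[⟨0, -133, 0, -1, 1, 0, 0, 0, 0⟩], [⟨21, 8160, 2, 0, 18, 0, 38, 0, 0⟩, ⟨21, 7330, 2, 38, 16, 0, 2, 0, 0⟩], [⟨41, 3750, -62, 22, 20, 0, -38, 0, 0⟩]⟩
noncomputable def w367 : Wn := ⟨[⟨0, -93, 0, -1, 1, 0, 0, 0, 0⟩], [⟨21, 8160, 2, 0, 18, 0, 38, 0, 0⟩, ⟨21, 7330, 2, 38, 16, 0, 2, 0, 0⟩], [⟨41, 3730, -62, 22, 20, 0, -38, 0, 0⟩]⟩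
noncomputable def w368 : Wn := ⟨[⟨0, -301, 0, -1, 1, 0, 0, 0, 0⟩], [⟨23, 7570, 2, 0, 42, 0, 20, 0, 0⟩, ⟨23, 9740, 2, 42, 18, 0, 2, 0, 0⟩, ⟨34, 5600, -33, 12, 21, 0, 0, 0, 0⟩], [⟨45, 3110, -68, 24, 22, 0, -42, 0, 0⟩]⟩
noncomputable def w369 : Wn := ⟨[⟨0, -201, 0, -1, 1, 0, 0, 0, 0⟩], [⟨23, 7570, 2, 0, 42, 0, 20, 0, 0⟩, ⟨23, 9740, 2, 42, 18, 0, 2, 0, 0⟩, ⟨34, 5850, -33, 12, 21, 0, 0, 0, 0⟩], [⟨45, 3080, -68, 24, 22, 0, -42, 0, 0⟩]⟩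
noncomputable def w370 : Wn := ⟨[⟨0, -133, 0, -1, 1, 0, 0, 0, 0⟩], [⟨23, 8370, 2, 0, 40, 0, 18, 0, 0⟩, ⟨23, 10280, 2, 40, 16, 0, 2, 0, 0⟩], [⟨43, 2200, -66, 24, 20, 0, -38, 0, 0⟩]⟩
noncomputable def w371 : Wn := ⟨[⟨0, -93, 0, -1, 1, 0, 0, 0, 0⟩], [⟨23, 8370, 2, 0, 40, 0, 18, 0, 0⟩, ⟨23, 10280, 2, 40, 16, 0, 2, 0, 0⟩], [⟨43, 2150, -66, 24, 20, 0, -38, 0, 0⟩]⟩
noncomputable def w372 : Wn := ⟨[⟨0, -201, 0, -1, 1, 0, 0, 0, 0⟩], [⟨25, 8410, 2, 0, 46, 0, 22, 0, 0⟩, ⟨25, 10700, 2, 46, 20, 0, 2, 0, 0⟩], [⟨49, 3250, -74, 26, 24, 0, -46, 0, 0⟩]⟩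
noncomputable def w373 : Wn := ⟨[⟨0, -159, 0, -1, 1, 0, 0, 0, 0⟩], [⟨25, 10440, 2, 0, 22, 0, 46, 0, 0⟩, ⟨25, 10240, 2, 46, 20, 0, 2, 0, 0⟩], [⟨49, 3230, -74, 26, 24, 0, -46, 0, 0⟩]⟩
noncomputable def w374 : Wn := ⟨[⟨0, -133, 0, -1, 1, 0, 0, 0, 0⟩], [⟨25, 10900, 2, 0, 22, 0, 46, 0, 0⟩, ⟨25, 10070, 2, 46, 20, 0, 2, 0, 0⟩], [⟨49, 3220, -74, 26, 24, 0, -46, 0, 0⟩]⟩
noncomputable def w375 : Wn := ⟨[⟨0, -93, 0, -1, 1, 0, 0, 0, 0⟩], [⟨25, 10900, 2, 0, 22, 0, 46, 0, 0⟩, ⟨25, 10070, 2, 46, 20, 0, 2, 0, 0⟩], [⟨49, 3190, -74, 26, 24, 0, -46, 0, 0⟩]⟩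
noncomputable def w376 : Wn := ⟨[], [⟨27, 8240, 2, 0, 50, 0, 24, 0, 0⟩, ⟨27, 10710, 2, 50, 22, 0, 2, 0, 0⟩, ⟨40, 7340, -39, 14, 25, 0, 0, 0, 0⟩], [⟨53, 4180, -80, 28, 26, 0, -50, 0, 0⟩]⟩
noncomputable def w377 : Wn := ⟨[⟨0, -201, 0, -1, 1, 0, 0, 0, 0⟩], [⟨27, 8240, 2, 0, 50, 0, 24, 0, 0⟩, ⟨27, 10710, 2, 50, 22, 0, 2, 0, 0⟩], [⟨53, 4320, -80, 28, 26, 0, -50, 0, 0⟩, ⟨40, 6270, -39, 14, 25, 0, 0, 0, 0⟩]⟩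
noncomputable def w378 : Wn := ⟨[⟨0, -201, 0, -1, 1, 0, 0, 0, 0⟩], [⟨27, 9710, 2, 0, 48, 0, 22, 0, 0⟩, ⟨27, 11930, 2, 48, 20, 0, 2, 0, 0⟩], [⟨51, 2830, -78, 28, 24, 0, -46, 0, 0⟩]⟩
noncomputable def w379 : Wn := ⟨[⟨0, -159, 0, -1, 1, 0, 0, 0, 0⟩], [⟨27, 9710, 2, 0, 48, 0, 22, 0, 0⟩, ⟨27, 11930, 2, 48, 20, 0, 2, 0, 0⟩], [⟨51, 2790, -78, 28, 24, 0, -46, 0, 0⟩]⟩
noncomputable def w380 : Wn := ⟨[⟨0, -133, 0, -1, 1, 0, 0, 0, 0⟩], [⟨27, 9710, 2, 0, 48, 0, 22, 0, 0⟩, ⟨27, 11930, 2, 48, 20, 0, 2, 0, 0⟩], [⟨51, 2760, -78, 28, 24, 0, -46, 0, 0⟩]⟩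
noncomputable def w381 : Wn := ⟨[⟨0, -201, 0, -1, 1, 0, 0, 0, 0⟩], [⟨29, 9500, 2, 0, 54, 0, 26, 0, 0⟩, ⟨29, 12090, 2, 54, 24, 0, 2, 0, 0⟩], [⟨57, 4070, -86, 30, 28, 0, -54, 0, 0⟩]⟩
noncomputable def w382 : Wn := ⟨[⟨0, -159, 0, -1, 1, 0, 0, 0, 0⟩], [⟨29, 12290, 2, 0, 26, 0, 54, 0, 0⟩, ⟨29, 11450, 2, 54, 24, 0, 2, 0, 0⟩], [⟨57, 4050, -86, 30, 28, 0, -54, 0, 0⟩]⟩
noncomputable def w383 : Wn := ⟨[⟨0, -133, 0, -1, 1, 0, 0, 0, 0⟩], [⟨29, 12290, 2, 0, 26, 0, 54, 0, 0⟩, ⟨29, 11450, 2, 54, 24, 0, 2, 0, 0⟩], [⟨57, 4040, -86, 30, 28, 0, -54, 0, 0⟩]⟩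
noncomputable def w384 : Wn := ⟨[⟨0, -93, 0, -1, 1, 0, 0, 0, 0⟩], [⟨29, 12290, 2, 0, 26, 0, 54, 0, 0⟩, ⟨29, 11450, 2, 54, 24, 0, 2, 0, 0⟩], [⟨57, 4010, -86, 30, 28, 0, -54, 0, 0⟩]⟩
noncomputable def w385 : Wn := ⟨[], [⟨31, 9690, 2, 0, 58, 0, 28, 0, 0⟩, ⟨31, 12460, 2, 58, 26, 0, 2, 0, 0⟩, ⟨46, 8450, -45, 16, 29, 0, 0, 0, 0⟩], [⟨61, 4630, -92, 32, 30, 0, -58, 0, 0⟩]⟩
noncomputable def w386 : Wn := ⟨[⟨0, -201, 0, -1, 1, 0, 0, 0, 0⟩], [⟨31, 10590, 2, 0, 56, 0, 26, 0, 0⟩, ⟨31, 13110, 2, 56, 24, 0, 2, 0, 0⟩], [⟨59, 3850, -90, 32, 28, 0, -54, 0, 0⟩]⟩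
noncomputable def w387 : Wn := ⟨[⟨0, -159, 0, -1, 1, 0, 0, 0, 0⟩], [⟨31, 10590, 2, 0, 56, 0, 26, 0, 0⟩, ⟨31, 13110, 2, 56, 24, 0, 2, 0, 0⟩], [⟨59, 3810, -90, 32, 28, 0, -54, 0, 0⟩]⟩
noncomputable def w388 : Wn := ⟨[⟨0, -201, 0, -1, 1, 0, 0, 0, 0⟩], [⟨33, 9900, 2, 0, 62, 0, 30, 0, 0⟩, ⟨33, 12790, 2, 62, 28, 0, 2, 0, 0⟩], [⟨65, 5570, -98, 34, 32, 0, -62, 0, 0⟩]⟩
noncomputable def w389 : Wn := ⟨[], [⟨33, 12990, 2, 0, 30, 0, 62, 0, 0⟩, ⟨33, 9710, 2, 28, 62, 0, 2, 0, 0⟩], [⟨65, 5440, -98, 34, 32, 0, -62, 0, 0⟩]⟩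
noncomputable def w390 : Wn := ⟨[⟨0, -201, 0, -1, 1, 0, 0, 0, 0⟩], [⟨35, 11520, 2, 0, 64, 0, 30, 0, 0⟩, ⟨35, 14340, 2, 64, 28, 0, 2, 0, 0⟩], [⟨67, 4820, -102, 36, 32, 0, -62, 0, 0⟩]⟩
noncomputable def w391 : Wn := ⟨[⟨0, -159, 0, -1, 1, 0, 0, 0, 0⟩], [⟨37, 15860, 2, 0, 34, 0, 70, 0, 0⟩, ⟨37, 15020, 2, 70, 32, 0, 2, 0, 0⟩], [⟨73, 4890, -110, 38, 36, 0, -70, 0, 0⟩]⟩
noncomputable def w392 : Wn := ⟨[⟨0, -133, 0, -1, 1, 0, 0, 0, 0⟩], [⟨37, 15860, 2, 0, 34, 0, 70, 0, 0⟩, ⟨37, 15020, 2, 70, 32, 0, 2, 0, 0⟩], [⟨73, 4880, -110, 38, 36, 0, -70, 0, 0⟩]⟩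
noncomputable def w393 : Wn := ⟨[⟨0, -93, 0, -1, 1, 0, 0, 0, 0⟩], [⟨37, 15860, 2, 0, 34, 0, 70, 0, 0⟩, ⟨37, 15020, 2, 70, 32, 0, 2, 0, 0⟩], [⟨73, 4850, -110, 38, 36, 0, -70, 0, 0⟩]⟩
noncomputable def w394 : Wn := ⟨[], [⟨41, 16710, 2, 0, 38, 0, 78, 0, 0⟩, ⟨41, 12820, 2, 36, 78, 0, 2, 0, 0⟩], [⟨81, 6130, -122, 42, 40, 0, -78, 0, 0⟩]⟩
noncomputable def w395 : Wn := ⟨[⟨0, -201, 0, -1, 1, 0, 0, 0, 0⟩], [⟨43, 14840, 2, 0, 80, 0, 38, 0, 0⟩, ⟨43, 18260, 2, 80, 36, 0, 2, 0, 0⟩], [⟨83, 5310, -126, 44, 40, 0, -78, 0, 0⟩]⟩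
noncomputable def w396 : Wn := ⟨[⟨0, -159, 0, -1, 1, 0, 0, 0, 0⟩], [⟨43, 14840, 2, 0, 80, 0, 38, 0, 0⟩, ⟨43, 18260, 2, 80, 36, 0, 2, 0, 0⟩], [⟨83, 5280, -126, 44, 40, 0, -78, 0, 0⟩]⟩
noncomputable def w397 : Wn := ⟨[⟨0, -93, 0, -1, 1, 0, 0, 0, 0⟩], [⟨45, 17810, 2, 0, 42, 0, 86, 0, 0⟩, ⟨45, 17610, 2, 86, 40, 0, 2, 0, 0⟩], [⟨89, 6840, -134, 46, 44, 0, -86, 0, 0⟩]⟩
noncomputable def w398 : Wn := ⟨[⟨0, -159, 0, -1, 1, 0, 0, 0, 0⟩], [⟨47, 17110, 2, 0, 88, 0, 42, 0, 0⟩, ⟨47, 20830, 2, 88, 40, 0, 2, 0, 0⟩], [⟨91, 4910, -138, 48, 44, 0, -86, 0, 0⟩]⟩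
noncomputable def w399 : Wn := ⟨[], [⟨49, 19020, 2, 0, 46, 0, 94, 0, 0⟩, ⟨49, 14520, 2, 44, 94, 0, 2, 0, 0⟩], [⟨97, 8230, -146, 50, 48, 0, -94, 0, 0⟩]⟩
noncomputable def w400 : Wn := ⟨[⟨0, -133, 0, -1, 1, 0, 0, 0, 0⟩], [⟨49, 19020, 2, 0, 46, 0, 94, 0, 0⟩, ⟨49, 18180, 2, 94, 44, 0, 2, 0, 0⟩], [⟨97, 8330, -146, 50, 48, 0, -94, 0, 0⟩]⟩
noncomputable def w401 : Wn := ⟨[⟨0, -201, 0, -1, 1, 0, 0, 0, 0⟩], [⟨51, 16960, 2, 0, 96, 0, 46, 0, 0⟩, ⟨51, 20990, 2, 96, 44, 0, 2, 0, 0⟩], [⟨99, 6990, -150, 52, 48, 0, -94, 0, 0⟩]⟩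
noncomputable def w402 : Wn := ⟨[⟨0, -93, 0, -1, 1, 0, 0, 0, 0⟩], [⟨53, 22020, 2, 0, 50, 0, 102, 0, 0⟩, ⟨53, 21820, 2, 102, 48, 0, 2, 0, 0⟩], [⟨105, 7040, -158, 54, 52, 0, -102, 0, 0⟩]⟩
noncomputable def w403 : Wn := ⟨[⟨0, -159, 0, -1, 1, 0, 0, 0, 0⟩], [⟨55, 18260, 2, 0, 104, 0, 52, 0, 0⟩, ⟨55, 21660, 2, 106, 48, 0, 2, 0, 0⟩], [⟨107, 7500, -162, 54, 54, 0, -104, 0, 0⟩]⟩
noncomputable def w404 : Wn := ⟨[⟨0, -201, 0, -1, 1, 0, 0, 0, 0⟩], [⟨55, 19150, 2, 0, 104, 0, 50, 0, 0⟩, ⟨55, 23470, 2, 104, 48, 0, 2, 0, 0⟩], [⟨107, 6710, -162, 56, 52, 0, -102, 0, 0⟩]⟩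
noncomputable def w405 : Wn := ⟨[⟨0, -159, 0, -1, 1, 0, 0, 0, 0⟩], [⟨55, 19150, 2, 0, 104, 0, 50, 0, 0⟩, ⟨55, 23470, 2, 104, 48, 0, 2, 0, 0⟩], [⟨107, 6680, -162, 56, 52, 0, -102, 0, 0⟩]⟩
noncomputable def w406 : Wn := ⟨[⟨0, -133, 0, -1, 1, 0, 0, 0, 0⟩], [⟨55, 19150, 2, 0, 104, 0, 50, 0, 0⟩, ⟨55, 23470, 2, 104, 48, 0, 2, 0, 0⟩], [⟨107, 6650, -162, 56, 52, 0, -102, 0, 0⟩]⟩
noncomputable def w407 : Wn := ⟨[⟨0, -201, 0, -1, 1, 0, 0, 0, 0⟩], [⟨57, 18570, 2, 0, 110, 0, 54, 0, 0⟩, ⟨57, 23270, 2, 110, 52, 0, 2, 0, 0⟩], [⟨113, 8310, -170, 58, 56, 0, -110, 0, 0⟩]⟩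
noncomputable def w408 : Wn := ⟨[], [⟨57, 23470, 2, 0, 54, 0, 110, 0, 0⟩, ⟨57, 18380, 2, 52, 110, 0, 2, 0, 0⟩], [⟨113, 8180, -170, 58, 56, 0, -110, 0, 0⟩]⟩
noncomputable def w409 : Wn := ⟨[⟨0, -159, 0, -1, 1, 0, 0, 0, 0⟩], [⟨59, 21540, 2, 0, 112, 0, 54, 0, 0⟩, ⟨59, 26160, 2, 112, 52, 0, 2, 0, 0⟩], [⟨115, 6190, -174, 60, 56, 0, -110, 0, 0⟩]⟩
noncomputable def w410 : Wn := ⟨[⟨0, -201, 0, -1, 1, 0, 0, 0, 0⟩], [⟨63, 21770, 2, 0, 120, 0, 58, 0, 0⟩, ⟨63, 26700, 2, 120, 56, 0, 2, 0, 0⟩], [⟨123, 7890, -186, 64, 60, 0, -118, 0, 0⟩]⟩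
noncomputable def w411 : Wn := ⟨[⟨0, -159, 0, -1, 1, 0, 0, 0, 0⟩], [⟨63, 21770, 2, 0, 120, 0, 58, 0, 0⟩, ⟨63, 26700, 2, 120, 56, 0, 2, 0, 0⟩], [⟨123, 7860, -186, 64, 60, 0, -118, 0, 0⟩]⟩
noncomputable def w412 : Wn := ⟨[⟨0, -159, 0, -1, 1, 0, 0, 0, 0⟩], [⟨65, 21290, 2, 0, 126, 0, 62, 0, 0⟩, ⟨65, 26600, 2, 126, 60, 0, 2, 0, 0⟩], [⟨129, 9380, -194, 66, 64, 0, -126, 0, 0⟩]⟩
noncomputable def w413 : Wn := ⟨[⟨0, -133, 0, -1, 1, 0, 0, 0, 0⟩], [⟨65, 21290, 2, 0, 126, 0, 62, 0, 0⟩, ⟨65, 26600, 2, 126, 60, 0, 2, 0, 0⟩], [⟨129, 9360, -194, 66, 64, 0, -126, 0, 0⟩]⟩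
noncomputable def w414 : Wn := ⟨[⟨0, -201, 0, -1, 1, 0, 0, 0, 0⟩], [⟨67, 22620, 2, 0, 128, 0, 62, 0, 0⟩, ⟨67, 27840, 2, 128, 60, 0, 2, 0, 0⟩], [⟨131, 8950, -198, 68, 64, 0, -126, 0, 0⟩]⟩
noncomputable def w415 : Wn := ⟨[⟨0, -159, 0, -1, 1, 0, 0, 0, 0⟩], [⟨77, 25580, 2, 0, 150, 0, 74, 0, 0⟩, ⟨77, 31790, 2, 150, 72, 0, 2, 0, 0⟩], [⟨153, 10800, -230, 78, 76, 0, -150, 0, 0⟩]⟩
noncomputable def w416 : Wn := ⟨[⟨0, 32, 0, 0, 1, -1, 0, 0, 0⟩], [⟨3, 320, 2, 0, 0, 0, 0, 4, 0⟩, ⟨3, 210, 2, 0, -2, 4, 0, 2, 0⟩], [⟨5, 680, -8, 0, 4, 2, 0, -4, 0⟩]⟩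
noncomputable def w417 : Wn := ⟨[], [⟨5, 920, 2, 0, 0, 2, 0, 4, 0⟩, ⟨5, 1670, 2, 0, 4, 0, 0, 2, 0⟩, ⟨6, 1070, -5, 0, 3, 2, 0, 0, 0⟩], [⟨7, 1060, -12, 0, 6, 2, 0, -4, 0⟩]⟩
noncomputable def w418 : Wn := ⟨[], [⟨5, 1790, 2, 0, 0, 2, 0, 6, 0⟩, ⟨5, 1590, 2, 0, 6, 0, 0, 2, 0⟩], [⟨9, 730, -14, 0, 6, 4, 0, -6, 0⟩]⟩
noncomputable def w419 : Wn := ⟨[], [⟨5, 1600, 2, 0, 0, 2, 0, 6, 0⟩, ⟨5, 1400, 2, 0, 6, 0, 0, 2, 0⟩], [⟨9, 60, -14, 0, 6, 4, 0, -6, 0⟩]⟩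
noncomputable def w420 : Wn := ⟨[], [⟨5, 2450, 2, 0, 0, 2, 0, 6, 0⟩, ⟨5, 2250, 2, 0, 6, 0, 0, 2, 0⟩], [⟨9, 910, -14, 0, 6, 4, 0, -6, 0⟩]⟩
noncomputable def w421 : Wn := ⟨[], [⟨5, 2250, 2, 0, 0, 2, 0, 6, 0⟩, ⟨5, 1150, 2, 0, 0, 6, 0, 2, 0⟩], [⟨9, 730, -14, 0, 6, 4, 0, -6, 0⟩]⟩
noncomputable def w422 : Wn := ⟨[], [⟨5, 2070, 2, 0, 0, 2, 0, 6, 0⟩, ⟨5, 970, 2, 0, 0, 6, 0, 2, 0⟩], [⟨9, 60, -14, 0, 6, 4, 0, -6, 0⟩]⟩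
noncomputable def w423 : Wn := ⟨[], [⟨5, 920, 2, 0, 0, 2, 0, 2, 0⟩, ⟨5, 1470, 2, 0, 4, -2, 0, 2, 0⟩, ⟨6, 1170, -5, 0, 3, 2, 0, 0, 0⟩], [⟨7, 1060, -12, 0, 6, 2, 0, -2, 0⟩]⟩
noncomputable def w424 : Wn := ⟨[⟨0, -93, 0, 0, -1, 1, 0, 0, 0⟩], [⟨5, 610, 2, 0, 0, 4, 0, 0, 0⟩, ⟨5, 1270, 2, 0, 4, -2, 0, 2, 0⟩], [⟨7, 1190, -12, 0, 6, 2, 0, -2, 0⟩, ⟨6, 860, -5, 0, 3, 2, 0, 0, 0⟩]⟩
noncomputable def w425 : Wn := ⟨[⟨0, -133, 0, 0, -1, 1, 0, 0, 0⟩], [⟨7, 1910, 2, 0, 0, 10, 0, 4, 0⟩, ⟨7, 2870, 2, 0, 10, 2, 0, 2, 0⟩], [⟨13, 1090, -20, 0, 8, 6, 0, -10, 0⟩, ⟨10, 1470, -9, 0, 4, 5, 0, 0, 0⟩]⟩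
noncomputable def w426 : Wn := ⟨[⟨0, 51, 0, 0, 1, -1, 0, 0, 0⟩], [⟨7, 2400, 2, 0, 0, 4, 0, 10, 0⟩, ⟨7, 1960, 2, 0, 2, 10, 0, 2, 0⟩], [⟨13, 820, -20, 0, 8, 6, 0, -10, 0⟩]⟩
noncomputable def w427 : Wn := ⟨[⟨0, 51, 0, 0, 1, -1, 0, 0, 0⟩], [⟨7, 2400, 2, 0, 0, 4, 0, 10, 0⟩, ⟨7, 1770, 2, 0, 2, 10, 0, 2, 0⟩], [⟨13, 160, -20, 0, 8, 6, 0, -10, 0⟩]⟩
noncomputable def w428 : Wn := ⟨[⟨0, -133, 0, 0, -1, 1, 0, 0, 0⟩], [⟨7, 1640, 2, 0, 0, 8, 0, 2, 0⟩, ⟨7, 2390, 2, 0, 8, 0, 0, 2, 0⟩], [⟨11, 1260, -18, 0, 8, 4, 0, -6, 0⟩]⟩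
noncomputable def w429 : Wn := ⟨[⟨0, -93, 0, 0, -1, 1, 0, 0, 0⟩], [⟨7, 1640, 2, 0, 0, 8, 0, 2, 0⟩, ⟨7, 2390, 2, 0, 8, 0, 0, 2, 0⟩], [⟨11, 1210, -18, 0, 8, 4, 0, -6, 0⟩]⟩
noncomputable def w430 : Wn := ⟨[⟨0, -93, 0, 0, -1, 1, 0, 0, 0⟩], [⟨7, 1450, 2, 0, 0, 8, 0, 2, 0⟩, ⟨7, 2200, 2, 0, 8, 0, 0, 2, 0⟩], [⟨11, 550, -18, 0, 8, 4, 0, -6, 0⟩]⟩
noncomputable def w431 : Wn := ⟨[⟨0, -133, 0, 0, -1, 1, 0, 0, 0⟩], [⟨7, 2300, 2, 0, 0, 8, 0, 2, 0⟩, ⟨7, 3050, 2, 0, 8, 0, 0, 2, 0⟩], [⟨11, 1440, -18, 0, 8, 4, 0, -6, 0⟩]⟩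
noncomputable def w432 : Wn := ⟨[⟨0, -93, 0, 0, -1, 1, 0, 0, 0⟩], [⟨7, 2300, 2, 0, 0, 8, 0, 2, 0⟩, ⟨7, 3050, 2, 0, 8, 0, 0, 2, 0⟩], [⟨11, 1400, -18, 0, 8, 4, 0, -6, 0⟩]⟩
noncomputable def w433 : Wn := ⟨[], [⟨7, 2740, 2, 0, 0, 4, 0, 6, 0⟩, ⟨7, 1440, 2, 0, 0, 8, 0, 2, 0⟩], [⟨11, 1060, -18, 0, 8, 4, 0, -6, 0⟩]⟩
noncomputable def w434 : Wn := ⟨[], [⟨7, 2550, 2, 0, 0, 4, 0, 6, 0⟩, ⟨7, 1250, 2, 0, 0, 8, 0, 2, 0⟩], [⟨11, 400, -18, 0, 8, 4, 0, -6, 0⟩]⟩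

noncomputable def wt4 : List Wn := [
  w348, w349, w350, w351, w352, w353, w354, w355, w356, w357, w358, w359, w360, w361, w362, w363,
  w364, w365, w366, w367, w368, w369, w370, w371, w372, w373, w374, w375, w376, w377, w378, w379,
  w380, w381, w382, w383, w384, w385, w386, w387, w388, w389, w390, w391, w392, w393, w394, w395,
  w396, w397, w398, w399, w400, w401, w402, w403, w404, w405, w406, w407, w408, w409, w410, w411,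
  w412, w413, w414, w415, w416, w417, w418, w419, w420, w421, w422, w423, w424, w425, w426, w427,
  w428, w429, w430, w431, w432, w433, w434]

noncomputable def we4 : List El7 := [
  .fj 2 120 ⟨0, 7, 6, 6, 0, 0, 1, 334, 450, 50, 500, 1000, 1000, 159, 490, 622, -188, 0, 0⟩,
  .fj 2 120 ⟨0, 7, 6, 6, 0, 0, 1, 527, 450, 50, 500, 1000, 1000, 93, 490, 622, -180, 0, 0⟩,
  .fj 1 48 ⟨0, 8, 8, 8, 0, 0, 1, 63, 450, 50, 500, 1000, 1000, 399, 557, 726, -233, 0, 0⟩,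
  .fj 1 48 ⟨0, 8, 8, 8, 0, 0, 1, 125, 450, 50, 500, 1000, 1000, 301, 557, 726, -232, 0, 0⟩,
  .fj 1 48 ⟨0, 8, 8, 8, 0, 0, 1, 250, 450, 50, 500, 1000, 1000, 201, 557, 726, -229, 0, 0⟩,
  .fj 1 48 ⟨0, 8, 8, 8, 0, 0, 1, 334, 450, 50, 500, 1000, 1000, 159, 557, 726, -227, 0, 0⟩,
  .fj 1 48 ⟨0, 8, 8, 8, 0, 1, 1, 400, 250, 250, 500, 1000, 1000, 133, 699, 679, -225, 0, 0⟩,
  .fj 1 48 ⟨0, 8, 8, 8, 0, 1, 0, 1000, 50, 450, 500, 1000, 1000, 0, 746, 539, -215, 0, 0⟩,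
  .fj 1 48 ⟨0, 8, 8, 8, 0, 1, 1, 527, 50, 450, 500, 1000, 1000, 93, 746, 662, -223, 0, 0⟩,
  .fj 1 220 ⟨0, 9, 9, 9, 2, 0, 1, 125, 1000, 100, 900, 1000, 1000, 301, 572, 759, -306, 461, 0⟩,
  .fj 1 220 ⟨0, 9, 9, 9, 4, 0, 1, 250, 1000, 100, 900, 1000, 1000, 201, 572, 759, -303, 437, 0⟩,
  .fj 1 220 ⟨0, 9, 9, 9, 4, 0, 1, 334, 1000, 100, 900, 1000, 1000, 159, 572, 759, -301, 436, 0⟩,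
  .fj 1 220 ⟨0, 9, 9, 9, 4, 1, 1, 400, 1000, 500, 500, 1000, 1000, 133, 712, 712, -283, 435, 0⟩,
  .fj 2 176 ⟨0, 9, 8, 8, 0, 0, 1, 334, 450, 50, 500, 1000, 1000, 159, 652, 813, -217, 0, 0⟩,
  .fj 2 176 ⟨0, 9, 8, 8, 0, 0, 1, 400, 450, 50, 500, 1000, 1000, 133, 652, 813, -214, 0, 0⟩,
  .fj 2 176 ⟨0, 9, 8, 8, 0, 0, 1, 527, 450, 50, 500, 1000, 1000, 93, 652, 813, -209, 0, 0⟩,
  .fj 1 3432 ⟨0, 10, 10, 10, 0, 0, 1, 250, 450, 50, 500, 1000, 1000, 201, 598, 796, -379, 0, 0⟩,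
  .fj 1 3432 ⟨0, 10, 10, 10, 0, 1, 1, 334, 250, 250, 500, 1000, 1000, 159, 770, 750, -377, 0, 0⟩,
  .fj 1 3432 ⟨0, 10, 10, 10, 0, 1, 1, 400, 50, 450, 500, 1000, 1000, 133, 816, 733, -375, 0, 0⟩,
  .fj 1 3432 ⟨0, 10, 10, 10, 0, 1, 1, 527, 50, 450, 500, 1000, 1000, 93, 816, 733, -373, 0, 0⟩,
  .fj 1 104 ⟨0, 11, 11, 11, 2, 0, 1, 125, 1000, 100, 900, 1000, 1000, 301, 757, 974, -311, 560, 0⟩,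
  .fj 1 104 ⟨0, 11, 11, 11, 2, 0, 1, 250, 1000, 100, 900, 1000, 1000, 201, 757, 974, -308, 585, 0⟩,
  .fj 2 104 ⟨0, 11, 10, 10, 0, 0, 1, 400, 450, 50, 500, 1000, 1000, 133, 837, 1028, -220, 0, 0⟩,
  .fj 2 104 ⟨0, 11, 10, 10, 0, 0, 1, 527, 450, 50, 500, 1000, 1000, 93, 837, 1028, -215, 0, 0⟩,
  .fj 1 208 ⟨0, 12, 12, 12, 0, 0, 1, 250, 450, 50, 500, 1000, 1000, 201, 841, 1070, -325, 0, 0⟩,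
  .fj 1 208 ⟨0, 12, 12, 12, 0, 1, 1, 334, 250, 250, 500, 1000, 1000, 159, 1044, 1024, -323, 0, 0⟩,
  .fj 1 208 ⟨0, 12, 12, 12, 0, 1, 1, 400, 50, 450, 500, 1000, 1000, 133, 1090, 1007, -322, 0, 0⟩,
  .fj 1 208 ⟨0, 12, 12, 12, 0, 1, 1, 527, 50, 450, 500, 1000, 1000, 93, 1090, 1007, -319, 0, 0⟩,
  .fj 1 2856 ⟨0, 13, 13, 13, 1, 0, 1, 1000, 1000, 100, 900, 1000, 1000, 0, 824, 1071, -418, 734, 0⟩,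
  .fj 1 2856 ⟨0, 13, 13, 13, 4, 0, 1, 250, 1000, 100, 900, 1000, 1000, 201, 824, 1071, -432, 627, 0⟩,
  .fj 2 336 ⟨0, 13, 12, 12, 0, 0, 1, 250, 450, 50, 500, 1000, 1000, 201, 971, 1193, -283, 0, 0⟩,
  .fj 2 336 ⟨0, 13, 12, 12, 0, 0, 1, 334, 450, 50, 500, 1000, 1000, 159, 971, 1193, -279, 0, 0⟩,
  .fj 2 336 ⟨0, 13, 12, 12, 0, 0, 1, 400, 450, 50, 500, 1000, 1000, 133, 971, 1193, -276, 0, 0⟩,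
  .fj 1 1360 ⟨0, 14, 14, 14, 0, 0, 1, 250, 450, 50, 500, 1000, 1000, 201, 950, 1209, -407, 0, 0⟩,
  .fj 1 1360 ⟨0, 14, 14, 14, 0, 1, 1, 334, 50, 450, 500, 1000, 1000, 159, 1229, 1145, -405, 0, 0⟩,
  .fj 1 1360 ⟨0, 14, 14, 14, 0, 1, 1, 400, 50, 450, 500, 1000, 1000, 133, 1229, 1145, -404, 0, 0⟩,
  .fj 1 1360 ⟨0, 14, 14, 14, 0, 1, 1, 527, 50, 450, 500, 1000, 1000, 93, 1229, 1145, -401, 0, 0⟩,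
  .fj 1 5168 ⟨0, 15, 15, 15, 1, 0, 1, 1000, 1000, 100, 900, 1000, 1000, 0, 969, 1246, -463, 845, 0⟩,
  .fj 2 5168 ⟨0, 15, 14, 14, 0, 0, 1, 250, 450, 50, 500, 1000, 1000, 201, 1059, 1311, -385, 0, 0⟩,
  .fj 2 5168 ⟨0, 15, 14, 14, 0, 0, 1, 334, 450, 50, 500, 1000, 1000, 159, 1059, 1311, -381, 0, 0⟩,
  .fj 1 93024 ⟨0, 16, 16, 16, 0, 0, 1, 250, 450, 50, 500, 1000, 1000, 201, 990, 1279, -557, 0, 0⟩,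
  .fj 1 93024 ⟨0, 16, 16, 16, 0, 1, 0, 1000, 50, 450, 500, 1000, 1000, 0, 1299, 971, -544, 0, 0⟩,
  .fj 2 63840 ⟨0, 17, 16, 16, 0, 0, 1, 250, 450, 50, 500, 1000, 1000, 201, 1152, 1434, -482, 0, 0⟩,
  .fj 1 3496 ⟨0, 18, 18, 18, 0, 1, 1, 334, 50, 450, 500, 1000, 1000, 159, 1586, 1502, -489, 0, 0⟩,
  .fj 1 3496 ⟨0, 18, 18, 18, 0, 1, 1, 400, 50, 450, 500, 1000, 1000, 133, 1586, 1502, -488, 0, 0⟩,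
  .fj 1 3496 ⟨0, 18, 18, 18, 0, 1, 1, 527, 50, 450, 500, 1000, 1000, 93, 1586, 1502, -485, 0, 0⟩,
  .fj 1 141680 ⟨0, 20, 20, 20, 0, 1, 0, 1000, 50, 450, 500, 1000, 1000, 0, 1671, 1282, -613, 0, 0⟩,
  .fj 2 60720 ⟨0, 21, 20, 20, 0, 0, 1, 250, 450, 50, 500, 1000, 1000, 201, 1484, 1826, -531, 0, 0⟩,
  .fj 2 60720 ⟨0, 21, 20, 20, 0, 0, 1, 334, 450, 50, 500, 1000, 1000, 159, 1484, 1826, -528, 0, 0⟩,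
  .fj 1 480240 ⟨0, 22, 22, 22, 0, 1, 1, 527, 250, 250, 500, 1000, 1000, 93, 1781, 1761, -684, 0, 0⟩,
  .fj 2 6960 ⟨0, 23, 22, 22, 0, 0, 1, 334, 450, 50, 500, 1000, 1000, 159, 1711, 2083, -491, 0, 0⟩,
  .fj 1 28048800 ⟨0, 24, 24, 24, 0, 1, 0, 1000, 50, 450, 500, 1000, 1000, 0, 1902, 1452, -823, 0, 0⟩,
  .fj 1 28048800 ⟨0, 24, 24, 24, 0, 1, 1, 400, 50, 450, 500, 1000, 1000, 133, 1902, 1818, -833, 0, 0⟩,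
  .fj 2 3365856 ⟨0, 25, 24, 24, 0, 0, 1, 250, 450, 50, 500, 1000, 1000, 201, 1696, 2099, -699, 0, 0⟩,
  .fj 1 129456 ⟨0, 26, 26, 26, 0, 1, 1, 527, 250, 250, 500, 1000, 1000, 93, 2202, 2182, -704, 0, 0⟩,
  .fj 1 503440 ⟨0, 27, 26, 27, 5, 0, 1, 334, 500, 1000, 500, 1000, 1000, 159, 1826, 2166, -750, 0, 0⟩,
  .fj 2 503440 ⟨0, 27, 26, 26, 0, 0, 1, 250, 450, 50, 500, 1000, 1000, 201, 1915, 2347, -671, 0, 0⟩,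
  .fj 2 503440 ⟨0, 27, 26, 26, 0, 0, 1, 334, 450, 50, 500, 1000, 1000, 159, 1915, 2347, -668, 0, 0⟩,
  .fj 2 503440 ⟨0, 27, 26, 26, 0, 0, 1, 400, 450, 50, 500, 1000, 1000, 133, 1915, 2347, -665, 0, 0⟩,
  .fj 1 3193248 ⟨0, 28, 28, 28, 0, 0, 1, 250, 450, 50, 500, 1000, 1000, 201, 1857, 2327, -831, 0, 0⟩,
  .fj 1 3193248 ⟨0, 28, 28, 28, 0, 1, 0, 1000, 50, 450, 500, 1000, 1000, 0, 2347, 1838, -818, 0, 0⟩,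
  .fj 2 36704 ⟨0, 29, 28, 28, 0, 0, 1, 334, 450, 50, 500, 1000, 1000, 159, 2154, 2616, -619, 0, 0⟩,
  .fj 2 4649568 ⟨0, 31, 30, 30, 0, 0, 1, 250, 450, 50, 500, 1000, 1000, 201, 2177, 2670, -789, 0, 0⟩,
  .fj 2 4649568 ⟨0, 31, 30, 30, 0, 0, 1, 334, 450, 50, 500, 1000, 1000, 159, 2177, 2670, -786, 0, 0⟩,
  .fj 1 18155456 ⟨0, 32, 32, 32, 0, 0, 1, 334, 450, 50, 500, 1000, 1000, 159, 2129, 2660, -938, 0, 0⟩,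
  .fj 1 18155456 ⟨0, 32, 32, 32, 0, 0, 1, 400, 450, 50, 500, 1000, 1000, 133, 2129, 2660, -936, 0, 0⟩,
  .fj 2 70971328 ⟨0, 33, 32, 32, 0, 0, 1, 250, 450, 50, 500, 1000, 1000, 201, 2262, 2784, -895, 0, 0⟩,
  .fj 1 120645616 ⟨0, 38, 38, 38, 0, 0, 1, 334, 450, 50, 500, 1000, 1000, 159, 2558, 3179, -1080, 0, 0⟩,
  .fj 0 2 ⟨1, 1, 2, 1, 7, 1, 0, 800, 1000, 500, 500, 1000, 1000, 32, 32, 21, -68, 0, 0⟩,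
  .fj 1 10 ⟨1, 2, 2, 1, 1, 1, 1, 1000, 1000, 50, 950, 1000, 1000, 0, 92, 167, -106, 107, 0⟩,
  .fj 1 4 ⟨1, 2, 2, 2, 0, 1, 1, 1000, 250, 250, 500, 1000, 1000, 0, 179, 159, -73, 0, 0⟩,
  .fj 1 4 ⟨1, 2, 2, 2, 0, 1, 1, 1000, 475, 475, 50, 1000, 1000, 0, 160, 140, -6, 0, 0⟩,
  .fj 1 4 ⟨1, 2, 2, 2, 0, 1, 1, 1000, 25, 25, 950, 1000, 1000, 0, 245, 225, -91, 0, 0⟩,
  .fj 1 4 ⟨1, 2, 2, 2, 0, 1, 0, 1000, 50, 450, 500, 1000, 1000, 0, 225, 115, -73, 0, 0⟩,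
  .fj 1 4 ⟨1, 2, 2, 2, 0, 1, 0, 1000, 95, 855, 50, 1000, 1000, 0, 207, 97, -6, 0, 0⟩,
  .fj 2 10 ⟨1, 2, 1, 1, 1, 1, 1, 1000, 1000, 50, 950, 1000, 1000, 0, 92, 147, -106, 117, 0⟩,
  .fj 2 10 ⟨1, 2, 1, 1, 4, 0, 1, 527, 1000, 100, 900, 1000, 1000, 93, 61, 127, -119, 86, 0⟩,
  .fj 1 4 ⟨1, 3, 3, 3, 4, 0, 1, 400, 1000, 100, 900, 1000, 1000, 133, 191, 287, -109, 147, 0⟩,
  .fj 1 4 ⟨1, 3, 3, 3, 7, 1, 0, 700, 1000, 500, 500, 1000, 1000, 51, 240, 196, -82, 0, 0⟩,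
  .fj 1 4 ⟨1, 3, 3, 3, 7, 1, 0, 700, 1000, 950, 50, 1000, 1000, 51, 240, 177, -16, 0, 0⟩,
  .fj 2 28 ⟨1, 3, 2, 2, 0, 0, 1, 400, 450, 50, 500, 1000, 1000, 133, 164, 239, -126, 0, 0⟩,
  .fj 2 28 ⟨1, 3, 2, 2, 0, 0, 1, 527, 450, 50, 500, 1000, 1000, 93, 164, 239, -121, 0, 0⟩,
  .fj 2 28 ⟨1, 3, 2, 2, 0, 0, 1, 527, 855, 95, 50, 1000, 1000, 93, 145, 220, -55, 0, 0⟩,
  .fj 2 28 ⟨1, 3, 2, 2, 0, 0, 1, 400, 45, 5, 950, 1000, 1000, 133, 230, 305, -144, 0, 0⟩,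
  .fj 2 28 ⟨1, 3, 2, 2, 0, 0, 1, 527, 45, 5, 950, 1000, 1000, 93, 230, 305, -140, 0, 0⟩,
  .fj 2 28 ⟨1, 3, 2, 2, 0, 1, 0, 1000, 50, 450, 500, 1000, 1000, 0, 274, 144, -106, 0, 0⟩,
  .fj 2 28 ⟨1, 3, 2, 2, 0, 1, 0, 1000, 95, 855, 50, 1000, 1000, 0, 255, 125, -40, 0, 0⟩]

theorem wt4_ok : ∀ w ∈ wt4, w.Ok := tab_ok7 we4 (by decide +kernel) (by decide +kernel)

noncomputable def v348 : VW := vw wt4_ok 0 w348 rfl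
noncomputable def v349 : VW := vw wt4_ok 1 w349 rfl
noncomputable def v350 : VW := vw wt4_ok 2 w350 rfl
noncomputable def v351 : VW := vw wt4_ok 3 w351 rfl
noncomputable def v352 : VW := vw wt4_ok 4 w352 rfl
noncomputable def v353 : VW := vw wt4_ok 5 w353 rfl
noncomputable def v354 : VW := vw wt4_ok 6 w354 rfl
noncomputable def v355 : VW := vw wt4_ok 7 w355 rfl
noncomputable def v356 : VW := vw wt4_ok 8 w356 rfl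
noncomputable def v357 : VW := vw wt4_ok 9 w357 rfl
noncomputable def v358 : VW := vw wt4_ok 10 w358 rfl
noncomputable def v359 : VW := vw wt4_ok 11 w359 rfl
noncomputable def v360 : VW := vw wt4_ok 12 w360 rfl
noncomputable def v361 : VW := vw wt4_ok 13 w361 rfl
noncomputable def v362 : VW := vw wt4_ok 14 w362 rfl
noncomputable def v363 : VW := vw wt4_ok 15 w363 rfl
noncomputable def v364 : VW := vw wt4_ok 16 w364 rfl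
noncomputable def v365 : VW := vw wt4_ok 17 w365 rfl
noncomputable def v366 : VW := vw wt4_ok 18 w366 rfl
noncomputable def v367 : VW := vw wt4_ok 19 w367 rfl
noncomputable def v368 : VW := vw wt4_ok 20 w368 rfl
noncomputable def v369 : VW := vw wt4_ok 21 w369 rfl
noncomputable def v370 : VW := vw wt4_ok 22 w370 rfl
noncomputable def v371 : VW := vw wt4_ok 23 w371 rfl
noncomputable def v372 : VW := vw wt4_ok 24 w372 rfl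
noncomputable def v373 : VW := vw wt4_ok 25 w373 rfl
noncomputable def v374 : VW := vw wt4_ok 26 w374 rfl
noncomputable def v375 : VW := vw wt4_ok 27 w375 rfl
noncomputable def v376 : VW := vw wt4_ok 28 w376 rfl
noncomputable def v377 : VW := vw wt4_ok 29 w377 rfl
noncomputable def v378 : VW := vw wt4_ok 30 w378 rfl
noncomputable def v379 : VW := vw wt4_ok 31 w379 rfl
noncomputable def v380 : VW := vw wt4_ok 32 w380 rfl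
noncomputable def v381 : VW := vw wt4_ok 33 w381 rfl
noncomputable def v382 : VW := vw wt4_ok 34 w382 rfl
noncomputable def v383 : VW := vw wt4_ok 35 w383 rfl
noncomputable def v384 : VW := vw wt4_ok 36 w384 rfl
noncomputable def v385 : VW := vw wt4_ok 37 w385 rfl
noncomputable def v386 : VW := vw wt4_ok 38 w386 rfl
noncomputable def v387 : VW := vw wt4_ok 39 w387 rfl
noncomputable def v388 : VW := vw wt4_ok 40 w388 rfl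
noncomputable def v389 : VW := vw wt4_ok 41 w389 rfl
noncomputable def v390 : VW := vw wt4_ok 42 w390 rfl
noncomputable def v391 : VW := vw wt4_ok 43 w391 rfl
noncomputable def v392 : VW := vw wt4_ok 44 w392 rfl
noncomputable def v393 : VW := vw wt4_ok 45 w393 rfl
noncomputable def v394 : VW := vw wt4_ok 46 w394 rfl
noncomputable def v395 : VW := vw wt4_ok 47 w395 rfl
noncomputable def v396 : VW := vw wt4_ok 48 w396 rfl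
noncomputable def v397 : VW := vw wt4_ok 49 w397 rfl
noncomputable def v398 : VW := vw wt4_ok 50 w398 rfl
noncomputable def v399 : VW := vw wt4_ok 51 w399 rfl
noncomputable def v400 : VW := vw wt4_ok 52 w400 rfl
noncomputable def v401 : VW := vw wt4_ok 53 w401 rfl
noncomputable def v402 : VW := vw wt4_ok 54 w402 rfl
noncomputable def v403 : VW := vw wt4_ok 55 w403 rfl
noncomputable def v404 : VW := vw wt4_ok 56 w404 rfl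
noncomputable def v405 : VW := vw wt4_ok 57 w405 rfl
noncomputable def v406 : VW := vw wt4_ok 58 w406 rfl
noncomputable def v407 : VW := vw wt4_ok 59 w407 rfl
noncomputable def v408 : VW := vw wt4_ok 60 w408 rfl
noncomputable def v409 : VW := vw wt4_ok 61 w409 rfl
noncomputable def v410 : VW := vw wt4_ok 62 w410 rfl
noncomputable def v411 : VW := vw wt4_ok 63 w411 rfl
noncomputable def v412 : VW := vw wt4_ok 64 w412 rfl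
noncomputable def v413 : VW := vw wt4_ok 65 w413 rfl
noncomputable def v414 : VW := vw wt4_ok 66 w414 rfl
noncomputable def v415 : VW := vw wt4_ok 67 w415 rfl
noncomputable def v416 : VW := vw wt4_ok 68 w416 rfl
noncomputable def v417 : VW := vw wt4_ok 69 w417 rfl
noncomputable def v418 : VW := vw wt4_ok 70 w418 rfl
noncomputable def v419 : VW := vw wt4_ok 71 w419 rfl
noncomputable def v420 : VW := vw wt4_ok 72 w420 rfl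
noncomputable def v421 : VW := vw wt4_ok 73 w421 rfl
noncomputable def v422 : VW := vw wt4_ok 74 w422 rfl
noncomputable def v423 : VW := vw wt4_ok 75 w423 rfl
noncomputable def v424 : VW := vw wt4_ok 76 w424 rfl
noncomputable def v425 : VW := vw wt4_ok 77 w425 rfl
noncomputable def v426 : VW := vw wt4_ok 78 w426 rfl
noncomputable def v427 : VW := vw wt4_ok 79 w427 rfl
noncomputable def v428 : VW := vw wt4_ok 80 w428 rfl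
noncomputable def v429 : VW := vw wt4_ok 81 w429 rfl
noncomputable def v430 : VW := vw wt4_ok 82 w430 rfl
noncomputable def v431 : VW := vw wt4_ok 83 w431 rfl
noncomputable def v432 : VW := vw wt4_ok 84 w432 rfl
noncomputable def v433 : VW := vw wt4_ok 85 w433 rfl
noncomputable def v434 : VW := vw wt4_ok 86 w434 rfl

end Pool.Agent.MP_2339ce_nt.Q2.TB.RT
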