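import Pool.Agent.MP_2339ce_nt.Q2.HA7
import Pool.Agent.MP_2339ce_nt.Q2.RTV

/-! Project Q2, block RT: valid windows. -/

set_option autoImplicit false

noncomputable section

namespace Pool.Agent.MP_2339ce_nt.Q2.TB.RT

noncomputable def w435 : Wn := ⟨[], [⟨7, 3400, 2, 0, 0, 4, 0, 6, 0⟩, ⟨7, 2420, 2, 0, 8, 0, 0, 2, 0⟩], [⟨11, 1250, -18, 0, 8, 4, 0, -6, 0⟩]⟩
noncomputable def w436 : Wn := ⟨[], [⟨9, 2680, 2, 0, 0, 14, 0, 4, 0⟩, ⟨9, 3950, 2, 0, 12, 4, 0, 2, 0⟩, ⟨12, 2220, -11, 0, 5, 6, 0, 0, 0⟩], [⟨15, 780, -24, 0, 10, 6, 0, -12, 0⟩]⟩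
noncomputable def w437 : Wn := ⟨[], [⟨9, 3440, 2, 0, 0, 6, 0, 12, 0⟩, ⟨9, 3480, 2, 0, 12, 4, 0, 2, 0⟩, ⟨12, 2220, -11, 0, 5, 6, 0, 0, 0⟩], [⟨15, 610, -24, 0, 10, 6, 0, -12, 0⟩]⟩
noncomputable def w438 : Wn := ⟨[], [⟨9, 3440, 2, 0, 0, 6, 0, 12, 0⟩, ⟨9, 4150, 2, 0, 12, 4, 0, 2, 0⟩, ⟨12, 2220, -11, 0, 5, 6, 0, 0, 0⟩], [⟨15, 800, -24, 0, 10, 6, 0, -12, 0⟩]⟩
noncomputable def w439 : Wn := ⟨[⟨0, -93, 0, 0, -1, 1, 0, 0, 0⟩], [⟨9, 2000, 2, 0, 0, 14, 0, 6, 0⟩, ⟨9, 3080, 2, 0, 14, 4, 0, 2, 0⟩], [⟨17, 1990, -26, 0, 10, 8, 0, -14, 0⟩]⟩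
noncomputable def w440 : Wn := ⟨[⟨0, -93, 0, 0, -1, 1, 0, 0, 0⟩], [⟨9, 1820, 2, 0, 0, 14, 0, 6, 0⟩, ⟨9, 2900, 2, 0, 14, 4, 0, 2, 0⟩], [⟨17, 1330, -26, 0, 10, 8, 0, -14, 0⟩]⟩
noncomputable def w441 : Wn := ⟨[], [⟨9, 2820, 2, 0, 0, 6, 0, 14, 0⟩, ⟨9, 2620, 2, 0, 14, 4, 0, 2, 0⟩], [⟨17, 1910, -26, 0, 10, 8, 0, -14, 0⟩]⟩
noncomputable def w442 : Wn := ⟨[], [⟨9, 2630, 2, 0, 0, 6, 0, 14, 0⟩, ⟨9, 2430, 2, 0, 14, 4, 0, 2, 0⟩], [⟨17, 1250, -26, 0, 10, 8, 0, -14, 0⟩]⟩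
noncomputable def w443 : Wn := ⟨[], [⟨9, 3280, 2, 0, 0, 6, 0, 14, 0⟩, ⟨9, 1840, 2, 0, 4, 14, 0, 2, 0⟩], [⟨17, 1910, -26, 0, 10, 8, 0, -14, 0⟩]⟩
noncomputable def w444 : Wn := ⟨[], [⟨9, 3100, 2, 0, 0, 6, 0, 14, 0⟩, ⟨9, 1650, 2, 0, 4, 14, 0, 2, 0⟩], [⟨17, 1250, -26, 0, 10, 8, 0, -14, 0⟩]⟩
noncomputable def w445 : Wn := ⟨[⟨0, -93, 0, 0, -1, 1, 0, 0, 0⟩], [⟨9, 3950, 2, 0, 0, 6, 0, 14, 0⟩, ⟨9, 3110, 2, 0, 14, 4, 0, 2, 0⟩], [⟨17, 2180, -26, 0, 10, 8, 0, -14, 0⟩]⟩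
noncomputable def w446 : Wn := ⟨[], [⟨9, 3440, 2, 0, 0, 6, 0, 10, 0⟩, ⟨9, 3950, 2, 0, 12, 2, 0, 2, 0⟩, ⟨12, 2320, -11, 0, 5, 6, 0, 0, 0⟩], [⟨15, 800, -24, 0, 10, 6, 0, -10, 0⟩]⟩
noncomputable def w447 : Wn := ⟨[⟨0, -133, 0, 0, -1, 1, 0, 0, 0⟩], [⟨9, 2830, 2, 0, 0, 12, 0, 4, 0⟩, ⟨9, 3750, 2, 0, 12, 2, 0, 2, 0⟩], [⟨15, 980, -24, 0, 10, 6, 0, -10, 0⟩, ⟨12, 1900, -11, 0, 5, 6, 0, 0, 0⟩]⟩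
noncomputable def w448 : Wn := ⟨[⟨0, 41, 0, 0, 1, -1, 0, 0, 0⟩], [⟨9, 3440, 2, 0, 0, 6, 0, 10, 0⟩, ⟨9, 2760, 2, 0, 2, 12, 0, 2, 0⟩], [⟨15, 610, -24, 0, 10, 6, 0, -10, 0⟩]⟩
noncomputable def w449 : Wn := ⟨[⟨0, 41, 0, 0, 1, -1, 0, 0, 0⟩], [⟨9, 3440, 2, 0, 0, 6, 0, 10, 0⟩, ⟨9, 2580, 2, 0, 2, 12, 0, 2, 0⟩], [⟨15, -50, -24, 0, 10, 6, 0, -10, 0⟩]⟩
noncomputable def w450 : Wn := ⟨[⟨0, 41, 0, 0, 1, -1, 0, 0, 0⟩], [⟨9, 3440, 2, 0, 0, 6, 0, 10, 0⟩, ⟨9, 3430, 2, 0, 2, 12, 0, 2, 0⟩], [⟨15, 800, -24, 0, 10, 6, 0, -10, 0⟩]⟩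
noncomputable def w451 : Wn := ⟨[], [⟨9, 3580, 2, 0, 0, 6, 0, 6, 0⟩, ⟨9, 2120, 2, 0, 0, 10, 0, 2, 0⟩], [⟨13, 180, -22, 0, 10, 4, 0, -6, 0⟩]⟩
noncomputable def w452 : Wn := ⟨[⟨0, 62, 0, 0, 1, -1, 0, 0, 0⟩], [⟨11, 4380, 2, 0, 0, 8, 0, 18, 0⟩, ⟨11, 3620, 2, 0, 6, 18, 0, 2, 0⟩], [⟨21, 1050, -32, 0, 12, 10, 0, -18, 0⟩]⟩
noncomputable def w453 : Wn := ⟨[⟨0, 62, 0, 0, 1, -1, 0, 0, 0⟩], [⟨11, 4380, 2, 0, 0, 8, 0, 18, 0⟩, ⟨11, 3430, 2, 0, 6, 18, 0, 2, 0⟩], [⟨21, 390, -32, 0, 12, 10, 0, -18, 0⟩]⟩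
noncomputable def w454 : Wn := ⟨[⟨0, 62, 0, 0, 1, -1, 0, 0, 0⟩], [⟨11, 4380, 2, 0, 0, 8, 0, 18, 0⟩, ⟨11, 4280, 2, 0, 6, 18, 0, 2, 0⟩], [⟨21, 1240, -32, 0, 12, 10, 0, -18, 0⟩]⟩
noncomputable def w455 : Wn := ⟨[⟨0, -133, 0, 0, -1, 1, 0, 0, 0⟩], [⟨11, 3900, 2, 0, 0, 16, 0, 6, 0⟩, ⟨11, 4930, 2, 0, 16, 4, 0, 2, 0⟩], [⟨19, 930, -30, 0, 12, 8, 0, -14, 0⟩]⟩
noncomputable def w456 : Wn := ⟨[⟨0, -93, 0, 0, -1, 1, 0, 0, 0⟩], [⟨11, 3900, 2, 0, 0, 16, 0, 6, 0⟩, ⟨11, 4930, 2, 0, 16, 4, 0, 2, 0⟩], [⟨19, 880, -30, 0, 12, 8, 0, -14, 0⟩]⟩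
noncomputable def w457 : Wn := ⟨[⟨0, -93, 0, 0, -1, 1, 0, 0, 0⟩], [⟨11, 3720, 2, 0, 0, 16, 0, 6, 0⟩, ⟨11, 4750, 2, 0, 16, 4, 0, 2, 0⟩], [⟨19, 220, -30, 0, 12, 8, 0, -14, 0⟩]⟩
noncomputable def w458 : Wn := ⟨[⟨0, -133, 0, 0, -1, 1, 0, 0, 0⟩], [⟨11, 4570, 2, 0, 0, 16, 0, 6, 0⟩, ⟨11, 5600, 2, 0, 16, 4, 0, 2, 0⟩], [⟨19, 1120, -30, 0, 12, 8, 0, -14, 0⟩]⟩
noncomputable def w459 : Wn := ⟨[⟨0, -93, 0, 0, -1, 1, 0, 0, 0⟩], [⟨11, 4570, 2, 0, 0, 16, 0, 6, 0⟩, ⟨11, 5600, 2, 0, 16, 4, 0, 2, 0⟩], [⟨19, 1070, -30, 0, 12, 8, 0, -14, 0⟩]⟩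
noncomputable def w460 : Wn := ⟨[], [⟨11, 5300, 2, 0, 0, 8, 0, 14, 0⟩, ⟨11, 3610, 2, 0, 4, 16, 0, 2, 0⟩], [⟨19, 730, -30, 0, 12, 8, 0, -14, 0⟩]⟩
noncomputable def w461 : Wn := ⟨[], [⟨11, 5120, 2, 0, 0, 8, 0, 14, 0⟩, ⟨11, 3420, 2, 0, 4, 16, 0, 2, 0⟩], [⟨19, 70, -30, 0, 12, 8, 0, -14, 0⟩]⟩
noncomputable def w462 : Wn := ⟨[], [⟨11, 5970, 2, 0, 0, 8, 0, 14, 0⟩, ⟨11, 4270, 2, 0, 4, 16, 0, 2, 0⟩], [⟨19, 920, -30, 0, 12, 8, 0, -14, 0⟩]⟩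
noncomputable def w463 : Wn := ⟨[⟨0, -93, 0, 0, -1, 1, 0, 0, 0⟩], [⟨13, 5000, 2, 0, 0, 10, 0, 22, 0⟩, ⟨13, 4800, 2, 0, 22, 8, 0, 2, 0⟩], [⟨25, 2010, -38, 0, 14, 12, 0, -22, 0⟩]⟩
noncomputable def w464 : Wn := ⟨[], [⟨13, 5000, 2, 0, 0, 10, 0, 22, 0⟩, ⟨13, 4800, 2, 0, 22, 8, 0, 2, 0⟩], [⟨25, 1940, -38, 0, 14, 12, 0, -22, 0⟩]⟩
noncomputable def w465 : Wn := ⟨[], [⟨13, 5470, 2, 0, 0, 10, 0, 22, 0⟩, ⟨13, 3710, 2, 0, 8, 22, 0, 2, 0⟩], [⟨25, 1940, -38, 0, 14, 12, 0, -22, 0⟩]⟩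
noncomputable def w466 : Wn := ⟨[], [⟨13, 5470, 2, 0, 0, 10, 0, 22, 0⟩, ⟨13, 4630, 2, 0, 22, 8, 0, 2, 0⟩], [⟨25, 1940, -38, 0, 14, 12, 0, -22, 0⟩]⟩
noncomputable def w467 : Wn := ⟨[], [⟨13, 4210, 2, 0, 0, 20, 0, 8, 0⟩, ⟨13, 5410, 2, 0, 20, 6, 0, 2, 0⟩, ⟨18, 3440, -17, 0, 7, 10, 0, 0, 0⟩], [⟨23, 1320, -36, 0, 14, 10, 0, -18, 0⟩]⟩
noncomputable def w468 : Wn := ⟨[⟨0, 51, 0, 0, 1, -1, 0, 0, 0⟩], [⟨13, 5120, 2, 0, 0, 10, 0, 18, 0⟩, ⟨13, 4090, 2, 0, 6, 20, 0, 2, 0⟩], [⟨23, 1150, -36, 0, 14, 10, 0, -18, 0⟩]⟩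
noncomputable def w469 : Wn := ⟨[], [⟨15, 4400, 2, 0, 0, 26, 0, 12, 0⟩, ⟨15, 5970, 2, 0, 26, 10, 0, 2, 0⟩, ⟨22, 4030, -21, 0, 8, 13, 0, 0, 0⟩], [⟨29, 2310, -44, 0, 16, 14, 0, -26, 0⟩]⟩
noncomputable def w470 : Wn := ⟨[⟨0, 62, 0, 0, 1, -1, 0, 0, 0⟩], [⟨15, 5500, 2, 0, 0, 12, 0, 26, 0⟩, ⟨15, 4430, 2, 0, 10, 26, 0, 2, 0⟩], [⟨29, 2140, -44, 0, 16, 14, 0, -26, 0⟩]⟩
noncomputable def w471 : Wn := ⟨[⟨0, -133, 0, 0, -1, 1, 0, 0, 0⟩], [⟨15, 4900, 2, 0, 0, 24, 0, 10, 0⟩, ⟨15, 6220, 2, 0, 24, 8, 0, 2, 0⟩], [⟨27, 1850, -42, 0, 16, 12, 0, -22, 0⟩]⟩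
noncomputable def w472 : Wn := ⟨[⟨0, -93, 0, 0, -1, 1, 0, 0, 0⟩], [⟨15, 4900, 2, 0, 0, 24, 0, 10, 0⟩, ⟨15, 6220, 2, 0, 24, 8, 0, 2, 0⟩], [⟨27, 1800, -42, 0, 16, 12, 0, -22, 0⟩]⟩
noncomputable def w473 : Wn := ⟨[], [⟨15, 6600, 2, 0, 0, 12, 0, 22, 0⟩, ⟨15, 4570, 2, 0, 8, 24, 0, 2, 0⟩], [⟨27, 1650, -42, 0, 16, 12, 0, -22, 0⟩]⟩
noncomputable def w474 : Wn := ⟨[], [⟨15, 6600, 2, 0, 0, 12, 0, 22, 0⟩, ⟨15, 5590, 2, 0, 24, 8, 0, 2, 0⟩], [⟨27, 1650, -42, 0, 16, 12, 0, -22, 0⟩]⟩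
noncomputable def w475 : Wn := ⟨[⟨0, -93, 0, 0, -1, 1, 0, 0, 0⟩], [⟨17, 6990, 2, 0, 0, 14, 0, 30, 0⟩, ⟨17, 6790, 2, 0, 30, 12, 0, 2, 0⟩], [⟨33, 2230, -50, 0, 18, 16, 0, -30, 0⟩]⟩
noncomputable def w476 : Wn := ⟨[], [⟨17, 7460, 2, 0, 0, 14, 0, 30, 0⟩, ⟨17, 5390, 2, 0, 12, 30, 0, 2, 0⟩], [⟨33, 2150, -50, 0, 18, 16, 0, -30, 0⟩]⟩
noncomputable def w477 : Wn := ⟨[], [⟨17, 7460, 2, 0, 0, 14, 0, 30, 0⟩, ⟨17, 6620, 2, 0, 30, 12, 0, 2, 0⟩], [⟨33, 2150, -50, 0, 18, 16, 0, -30, 0⟩]⟩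
noncomputable def w478 : Wn := ⟨[], [⟨17, 6400, 2, 0, 0, 28, 0, 12, 0⟩, ⟨17, 7900, 2, 0, 28, 10, 0, 2, 0⟩, ⟨24, 4550, -23, 0, 9, 14, 0, 0, 0⟩], [⟨31, 1040, -48, 0, 18, 14, 0, -26, 0⟩]⟩
noncomputable def w479 : Wn := ⟨[⟨0, 62, 0, 0, 1, -1, 0, 0, 0⟩], [⟨17, 7620, 2, 0, 0, 14, 0, 26, 0⟩, ⟨17, 6260, 2, 0, 10, 28, 0, 2, 0⟩], [⟨31, 870, -48, 0, 18, 14, 0, -26, 0⟩]⟩
noncomputable def w480 : Wn := ⟨[], [⟨19, 5720, 2, 0, 0, 34, 0, 16, 0⟩, ⟨19, 7590, 2, 0, 34, 14, 0, 2, 0⟩, ⟨28, 5140, -27, 0, 10, 17, 0, 0, 0⟩], [⟨37, 2890, -56, 0, 20, 18, 0, -34, 0⟩]⟩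
noncomputable def w481 : Wn := ⟨[⟨0, 73, 0, 0, 1, -1, 0, 0, 0⟩], [⟨19, 7120, 2, 0, 0, 16, 0, 34, 0⟩, ⟨19, 7120, 2, 0, 34, 14, 0, 2, 0⟩], [⟨37, 2720, -56, 0, 20, 18, 0, -34, 0⟩]⟩
noncomputable def w482 : Wn := ⟨[⟨0, -93, 0, 0, -1, 1, 0, 0, 0⟩], [⟨19, 6520, 2, 0, 0, 32, 0, 14, 0⟩, ⟨19, 8130, 2, 0, 32, 12, 0, 2, 0⟩], [⟨35, 2090, -54, 0, 20, 16, 0, -30, 0⟩]⟩
noncomputable def w483 : Wn := ⟨[], [⟨19, 8520, 2, 0, 0, 16, 0, 30, 0⟩, ⟨19, 6170, 2, 0, 12, 32, 0, 2, 0⟩], [⟨35, 1940, -54, 0, 20, 16, 0, -30, 0⟩]⟩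
noncomputable def w484 : Wn := ⟨[⟨0, -93, 0, 0, -1, 1, 0, 0, 0⟩], [⟨21, 7700, 2, 0, 0, 18, 0, 38, 0⟩, ⟨21, 7500, 2, 0, 38, 16, 0, 2, 0⟩], [⟨41, 3730, -62, 0, 22, 20, 0, -38, 0⟩]⟩
noncomputable def w485 : Wn := ⟨[], [⟨21, 8160, 2, 0, 0, 18, 0, 38, 0⟩, ⟨21, 7330, 2, 0, 38, 16, 0, 2, 0⟩], [⟨41, 3650, -62, 0, 22, 20, 0, -38, 0⟩]⟩
noncomputable def w486 : Wn := ⟨[], [⟨21, 6660, 2, 0, 0, 36, 0, 16, 0⟩, ⟨21, 8460, 2, 0, 36, 14, 0, 2, 0⟩, ⟨30, 5660, -29, 0, 11, 18, 0, 0, 0⟩], [⟨39, 2690, -60, 0, 22, 18, 0, -34, 0⟩]⟩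
noncomputable def w487 : Wn := ⟨[⟨0, 62, 0, 0, 1, -1, 0, 0, 0⟩], [⟨21, 8180, 2, 0, 0, 18, 0, 34, 0⟩, ⟨21, 6510, 2, 0, 14, 36, 0, 2, 0⟩], [⟨39, 2520, -60, 0, 22, 18, 0, -34, 0⟩]⟩
noncomputable def w488 : Wn := ⟨[], [⟨23, 7570, 2, 0, 0, 42, 0, 20, 0⟩, ⟨23, 9740, 2, 0, 42, 18, 0, 2, 0⟩, ⟨34, 6240, -33, 0, 12, 21, 0, 0, 0⟩], [⟨45, 2950, -68, 0, 24, 22, 0, -42, 0⟩]⟩
noncomputable def w489 : Wn := ⟨[⟨0, 73, 0, 0, 1, -1, 0, 0, 0⟩], [⟨23, 9270, 2, 0, 0, 20, 0, 42, 0⟩, ⟨23, 9270, 2, 0, 42, 18, 0, 2, 0⟩], [⟨45, 2780, -68, 0, 24, 22, 0, -42, 0⟩]⟩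
noncomputable def w490 : Wn := ⟨[⟨0, -93, 0, 0, -1, 1, 0, 0, 0⟩], [⟨23, 8370, 2, 0, 0, 40, 0, 18, 0⟩, ⟨23, 10280, 2, 0, 40, 16, 0, 2, 0⟩], [⟨43, 2150, -66, 0, 24, 20, 0, -38, 0⟩]⟩
noncomputable def w491 : Wn := ⟨[], [⟨23, 10670, 2, 0, 0, 20, 0, 38, 0⟩, ⟨23, 8010, 2, 0, 16, 40, 0, 2, 0⟩], [⟨43, 2000, -66, 0, 24, 20, 0, -38, 0⟩]⟩
noncomputable def w492 : Wn := ⟨[⟨0, -93, 0, 0, -1, 1, 0, 0, 0⟩], [⟨25, 10900, 2, 0, 0, 22, 0, 46, 0⟩, ⟨25, 10070, 2, 0, 46, 20, 0, 2, 0⟩], [⟨49, 3190, -74, 0, 26, 24, 0, -46, 0⟩]⟩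
noncomputable def w493 : Wn := ⟨[], [⟨25, 10900, 2, 0, 0, 22, 0, 46, 0⟩, ⟨25, 10070, 2, 0, 46, 20, 0, 2, 0⟩], [⟨49, 3120, -74, 0, 26, 24, 0, -46, 0⟩]⟩
noncomputable def w494 : Wn := ⟨[], [⟨25, 8710, 2, 0, 0, 44, 0, 20, 0⟩, ⟨25, 10810, 2, 0, 44, 18, 0, 2, 0⟩, ⟨36, 6760, -35, 0, 13, 22, 0, 0, 0⟩], [⟨47, 2540, -72, 0, 26, 22, 0, -42, 0⟩]⟩
noncomputable def w495 : Wn := ⟨[⟨0, 62, 0, 0, 1, -1, 0, 0, 0⟩], [⟨25, 10530, 2, 0, 0, 22, 0, 42, 0⟩, ⟨25, 8550, 2, 0, 18, 44, 0, 2, 0⟩], [⟨47, 2370, -72, 0, 26, 22, 0, -42, 0⟩]⟩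
noncomputable def w496 : Wn := ⟨[], [⟨27, 8240, 2, 0, 0, 50, 0, 24, 0⟩, ⟨27, 10710, 2, 0, 50, 22, 0, 2, 0⟩, ⟨40, 7340, -39, 0, 14, 25, 0, 0, 0⟩], [⟨53, 4180, -80, 0, 28, 26, 0, -50, 0⟩]⟩
noncomputable def w497 : Wn := ⟨[⟨0, 73, 0, 0, 1, -1, 0, 0, 0⟩], [⟨27, 10240, 2, 0, 0, 24, 0, 50, 0⟩, ⟨27, 8250, 2, 0, 22, 50, 0, 2, 0⟩], [⟨53, 4010, -80, 0, 28, 26, 0, -50, 0⟩]⟩
noncomputable def w498 : Wn := ⟨[⟨0, -93, 0, 0, -1, 1, 0, 0, 0⟩], [⟨27, 11850, 2, 0, 0, 24, 0, 46, 0⟩, ⟨27, 11460, 2, 0, 48, 20, 0, 2, 0⟩], [⟨51, 2710, -78, 0, 28, 24, 0, -46, 0⟩]⟩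
noncomputable def w499 : Wn := ⟨[], [⟨27, 12310, 2, 0, 0, 24, 0, 46, 0⟩, ⟨27, 9350, 2, 0, 20, 48, 0, 2, 0⟩], [⟨51, 2560, -78, 0, 28, 24, 0, -46, 0⟩]⟩
noncomputable def w500 : Wn := ⟨[], [⟨27, 12310, 2, 0, 0, 24, 0, 46, 0⟩, ⟨27, 11290, 2, 0, 48, 20, 0, 2, 0⟩], [⟨51, 2560, -78, 0, 28, 24, 0, -46, 0⟩]⟩
noncomputable def w501 : Wn := ⟨[⟨0, -93, 0, 0, -1, 1, 0, 0, 0⟩], [⟨29, 11820, 2, 0, 0, 26, 0, 54, 0⟩, ⟨29, 11620, 2, 0, 54, 24, 0, 2, 0⟩], [⟨57, 4010, -86, 0, 30, 28, 0, -54, 0⟩]⟩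
noncomputable def w502 : Wn := ⟨[], [⟨29, 12290, 2, 0, 0, 26, 0, 54, 0⟩, ⟨29, 11450, 2, 0, 54, 24, 0, 2, 0⟩], [⟨57, 3940, -86, 0, 30, 28, 0, -54, 0⟩]⟩
noncomputable def w503 : Wn := ⟨[], [⟨29, 10580, 2, 0, 0, 52, 0, 24, 0⟩, ⟨29, 12970, 2, 0, 52, 22, 0, 2, 0⟩, ⟨42, 7870, -41, 0, 15, 26, 0, 0, 0⟩], [⟨55, 2580, -84, 0, 30, 26, 0, -50, 0⟩]⟩
noncomputable def w504 : Wn := ⟨[⟨0, 62, 0, 0, 1, -1, 0, 0, 0⟩], [⟨29, 12700, 2, 0, 0, 26, 0, 50, 0⟩, ⟨29, 10410, 2, 0, 22, 52, 0, 2, 0⟩], [⟨55, 2410, -84, 0, 30, 26, 0, -50, 0⟩]⟩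
noncomputable def w505 : Wn := ⟨[], [⟨31, 9690, 2, 0, 0, 58, 0, 28, 0⟩, ⟨31, 12460, 2, 0, 58, 26, 0, 2, 0⟩, ⟨46, 8450, -45, 0, 16, 29, 0, 0, 0⟩], [⟨61, 4630, -92, 0, 32, 30, 0, -58, 0⟩]⟩
noncomputable def w506 : Wn := ⟨[⟨0, 73, 0, 0, 1, -1, 0, 0, 0⟩], [⟨31, 12000, 2, 0, 0, 28, 0, 58, 0⟩, ⟨31, 9700, 2, 0, 26, 58, 0, 2, 0⟩], [⟨61, 4460, -92, 0, 32, 30, 0, -58, 0⟩]⟩
noncomputable def w507 : Wn := ⟨[⟨0, -93, 0, 0, -1, 1, 0, 0, 0⟩], [⟨31, 13030, 2, 0, 0, 28, 0, 54, 0⟩, ⟨31, 12640, 2, 0, 56, 24, 0, 2, 0⟩], [⟨59, 3740, -90, 0, 32, 28, 0, -54, 0⟩]⟩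
noncomputable def w508 : Wn := ⟨[], [⟨31, 13500, 2, 0, 0, 28, 0, 54, 0⟩, ⟨31, 10220, 2, 0, 24, 56, 0, 2, 0⟩], [⟨59, 3580, -90, 0, 32, 28, 0, -54, 0⟩]⟩
noncomputable def w509 : Wn := ⟨[], [⟨31, 13500, 2, 0, 0, 28, 0, 54, 0⟩, ⟨31, 12470, 2, 0, 56, 24, 0, 2, 0⟩], [⟨59, 3580, -90, 0, 32, 28, 0, -54, 0⟩]⟩
noncomputable def w510 : Wn := ⟨[⟨0, -93, 0, 0, -1, 1, 0, 0, 0⟩], [⟨33, 9900, 2, 0, 0, 62, 0, 30, 0⟩, ⟨33, 12790, 2, 0, 62, 28, 0, 2, 0⟩], [⟨65, 5510, -98, 0, 34, 32, 0, -62, 0⟩]⟩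
noncomputable def w511 : Wn := ⟨[], [⟨33, 12990, 2, 0, 0, 30, 0, 62, 0⟩, ⟨33, 12160, 2, 0, 62, 28, 0, 2, 0⟩], [⟨65, 5440, -98, 0, 34, 32, 0, -62, 0⟩]⟩
noncomputable def w512 : Wn := ⟨[], [⟨33, 11470, 2, 0, 0, 60, 0, 28, 0⟩, ⟨33, 14170, 2, 0, 60, 26, 0, 2, 0⟩, ⟨48, 8970, -47, 0, 17, 30, 0, 0, 0⟩], [⟨63, 3590, -96, 0, 34, 30, 0, -58, 0⟩]⟩
noncomputable def w513 : Wn := ⟨[⟨0, 73, 0, 0, 1, -1, 0, 0, 0⟩], [⟨33, 13900, 2, 0, 0, 30, 0, 58, 0⟩, ⟨33, 11300, 2, 0, 26, 60, 0, 2, 0⟩], [⟨63, 3420, -96, 0, 34, 30, 0, -58, 0⟩]⟩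
noncomputable def w514 : Wn := ⟨[], [⟨35, 12210, 2, 0, 0, 66, 0, 32, 0⟩, ⟨35, 15280, 2, 0, 66, 30, 0, 2, 0⟩, ⟨52, 9550, -51, 0, 18, 33, 0, 0, 0⟩], [⟨69, 4010, -104, 0, 36, 34, 0, -66, 0⟩]⟩
noncomputable def w515 : Wn := ⟨[⟨0, -93, 0, 0, -1, 1, 0, 0, 0⟩], [⟨35, 11520, 2, 0, 0, 64, 0, 30, 0⟩, ⟨35, 14340, 2, 0, 64, 28, 0, 2, 0⟩], [⟨67, 4710, -102, 0, 36, 32, 0, -62, 0⟩]⟩
noncomputable def w516 : Wn := ⟨[], [⟨35, 14730, 2, 0, 0, 32, 0, 62, 0⟩, ⟨35, 11150, 2, 0, 28, 64, 0, 2, 0⟩], [⟨67, 4550, -102, 0, 36, 32, 0, -62, 0⟩]⟩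
noncomputable def w517 : Wn := ⟨[⟨0, -93, 0, 0, -1, 1, 0, 0, 0⟩], [⟨37, 15390, 2, 0, 0, 34, 0, 70, 0⟩, ⟨37, 15190, 2, 0, 70, 32, 0, 2, 0⟩], [⟨73, 4850, -110, 0, 38, 36, 0, -70, 0⟩]⟩
noncomputable def w518 : Wn := ⟨[], [⟨37, 15860, 2, 0, 0, 34, 0, 70, 0⟩, ⟨37, 15020, 2, 0, 70, 32, 0, 2, 0⟩], [⟨73, 4770, -110, 0, 38, 36, 0, -70, 0⟩]⟩
noncomputable def w519 : Wn := ⟨[⟨0, 73, 0, 0, 1, -1, 0, 0, 0⟩], [⟨37, 15890, 2, 0, 0, 34, 0, 66, 0⟩, ⟨37, 12980, 2, 0, 30, 68, 0, 2, 0⟩], [⟨71, 3640, -108, 0, 38, 34, 0, -66, 0⟩]⟩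
noncomputable def w520 : Wn := ⟨[], [⟨39, 12650, 2, 0, 0, 74, 0, 36, 0⟩, ⟨39, 16020, 2, 0, 74, 34, 0, 2, 0⟩, ⟨58, 10660, -57, 0, 20, 37, 0, 0, 0⟩], [⟨77, 5480, -116, 0, 40, 38, 0, -74, 0⟩]⟩
noncomputable def w521 : Wn := ⟨[⟨0, 73, 0, 0, 1, -1, 0, 0, 0⟩], [⟨39, 15560, 2, 0, 0, 36, 0, 74, 0⟩, ⟨39, 12650, 2, 0, 34, 74, 0, 2, 0⟩], [⟨77, 5310, -116, 0, 40, 38, 0, -74, 0⟩]⟩

noncomputable def wt5 : List Wn := [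
  w435, w436, w437, w438, w439, w440, w441, w442, w443, w444, w445, w446, w447, w448, w449, w450,
  w451, w452, w453, w454, w455, w456, w457, w458, w459, w460, w461, w462, w463, w464, w465, w466,
  w467, w468, w469, w470, w471, w472, w473, w474, w475, w476, w477, w478, w479, w480, w481, w482,
  w483, w484, w485, w486, w487, w488, w489, w490, w491, w492, w493, w494, w495, w496, w497, w498,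
  w499, w500, w501, w502, w503, w504, w505, w506, w507, w508, w509, w510, w511, w512, w513, w514,
  w515, w516, w517, w518, w519, w520, w521]

noncomputable def we5 : List El7 := [
  .fj 2 28 ⟨1, 3, 2, 2, 0, 1, 1, 1000, 5, 45, 950, 1000, 1000, 0, 340, 242, -125, 0, 0⟩,
  .fj 1 2 ⟨1, 4, 4, 3, 1, 0, 1, 1000, 1000, 100, 900, 1000, 1000, 0, 268, 395, -78, 222, 0⟩,
  .fj 1 2 ⟨1, 4, 4, 3, 1, 1, 1, 1000, 1000, 500, 500, 1000, 1000, 0, 344, 348, -61, 222, 0⟩,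
  .fj 1 2 ⟨1, 4, 4, 3, 1, 1, 1, 1000, 1000, 50, 950, 1000, 1000, 0, 344, 415, -80, 222, 0⟩,
  .fj 1 120 ⟨1, 4, 4, 4, 0, 0, 1, 527, 450, 50, 500, 1000, 1000, 93, 200, 308, -199, 0, 0⟩,
  .fj 1 120 ⟨1, 4, 4, 4, 0, 0, 1, 527, 855, 95, 50, 1000, 1000, 93, 182, 290, -133, 0, 0⟩,
  .fj 1 120 ⟨1, 4, 4, 4, 0, 1, 1, 1000, 250, 250, 500, 1000, 1000, 0, 282, 262, -191, 0, 0⟩,
  .fj 1 120 ⟨1, 4, 4, 4, 0, 1, 1, 1000, 475, 475, 50, 1000, 1000, 0, 263, 243, -125, 0, 0⟩,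
  .fj 1 120 ⟨1, 4, 4, 4, 0, 1, 0, 1000, 50, 450, 500, 1000, 1000, 0, 328, 184, -191, 0, 0⟩,
  .fj 1 120 ⟨1, 4, 4, 4, 0, 1, 0, 1000, 95, 855, 50, 1000, 1000, 0, 310, 165, -125, 0, 0⟩,
  .fj 1 120 ⟨1, 4, 4, 4, 0, 1, 1, 527, 5, 45, 950, 1000, 1000, 93, 395, 311, -218, 0, 0⟩,
  .fj 2 6 ⟨1, 4, 3, 3, 1, 1, 1, 1000, 1000, 50, 950, 1000, 1000, 0, 344, 395, -80, 232, 0⟩,
  .fj 2 6 ⟨1, 4, 3, 3, 4, 0, 1, 400, 1000, 100, 900, 1000, 1000, 133, 283, 375, -98, 190, 0⟩,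
  .fj 2 6 ⟨1, 4, 3, 3, 7, 1, 0, 750, 1000, 500, 500, 1000, 1000, 41, 344, 276, -61, 0, 0⟩,
  .fj 2 6 ⟨1, 4, 3, 3, 7, 1, 0, 750, 1000, 950, 50, 1000, 1000, 41, 344, 258, 5, 0, 0⟩,
  .fj 2 6 ⟨1, 4, 3, 3, 7, 1, 0, 750, 1000, 50, 950, 1000, 1000, 41, 344, 343, -80, 0, 0⟩,
  .fj 3 24 ⟨1, 4, 2, 2, 0, 1, 0, 1000, 95, 855, 50, 1000, 1000, 0, 358, 212, -18, 0, 0⟩,
  .fj 1 4 ⟨1, 5, 5, 5, 7, 1, 0, 650, 1000, 500, 500, 1000, 1000, 62, 438, 362, -105, 0, 0⟩,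
  .fj 1 4 ⟨1, 5, 5, 5, 7, 1, 0, 650, 1000, 950, 50, 1000, 1000, 62, 438, 343, -39, 0, 0⟩,
  .fj 1 4 ⟨1, 5, 5, 5, 7, 1, 0, 650, 1000, 50, 950, 1000, 1000, 62, 438, 428, -124, 0, 0⟩,
  .fj 2 8 ⟨1, 5, 4, 4, 0, 0, 1, 400, 450, 50, 500, 1000, 1000, 133, 390, 493, -93, 0, 0⟩,
  .fj 2 8 ⟨1, 5, 4, 4, 0, 0, 1, 527, 450, 50, 500, 1000, 1000, 93, 390, 493, -88, 0, 0⟩,
  .fj 2 8 ⟨1, 5, 4, 4, 0, 0, 1, 527, 855, 95, 50, 1000, 1000, 93, 372, 475, -22, 0, 0⟩,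
  .fj 2 8 ⟨1, 5, 4, 4, 0, 0, 1, 400, 45, 5, 950, 1000, 1000, 133, 457, 560, -112, 0, 0⟩,
  .fj 2 8 ⟨1, 5, 4, 4, 0, 0, 1, 527, 45, 5, 950, 1000, 1000, 93, 457, 560, -107, 0, 0⟩,
  .fj 2 8 ⟨1, 5, 4, 4, 0, 1, 0, 1000, 50, 450, 500, 1000, 1000, 0, 530, 361, -73, 0, 0⟩,
  .fj 2 8 ⟨1, 5, 4, 4, 0, 1, 0, 1000, 95, 855, 50, 1000, 1000, 0, 512, 342, -7, 0, 0⟩,
  .fj 2 8 ⟨1, 5, 4, 4, 0, 1, 0, 1000, 5, 45, 950, 1000, 1000, 0, 597, 427, -92, 0, 0⟩,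
  .fj 1 56 ⟨1, 6, 6, 6, 0, 1, 1, 527, 250, 250, 500, 1000, 1000, 93, 500, 480, -201, 0, 0⟩,
  .fj 1 56 ⟨1, 6, 6, 6, 0, 1, 1, 1000, 250, 250, 500, 1000, 1000, 0, 500, 480, -194, 0, 0⟩,
  .fj 1 56 ⟨1, 6, 6, 6, 0, 1, 0, 1000, 50, 450, 500, 1000, 1000, 0, 547, 371, -194, 0, 0⟩,
  .fj 1 56 ⟨1, 6, 6, 6, 0, 1, 1, 1000, 50, 450, 500, 1000, 1000, 0, 547, 463, -194, 0, 0⟩,
  .fj 2 28 ⟨1, 6, 5, 5, 1, 0, 1, 1000, 1000, 100, 900, 1000, 1000, 0, 421, 541, -132, 344, 0⟩,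
  .fj 2 28 ⟨1, 6, 5, 5, 7, 1, 0, 700, 1000, 500, 500, 1000, 1000, 51, 512, 409, -115, 0, 0⟩,
  .fj 1 72 ⟨1, 7, 7, 7, 1, 0, 1, 1000, 1000, 100, 900, 1000, 1000, 0, 440, 597, -231, 403, 0⟩,
  .fj 1 72 ⟨1, 7, 7, 7, 7, 1, 0, 650, 1000, 500, 500, 1000, 1000, 62, 550, 443, -214, 0, 0⟩,
  .fj 2 120 ⟨1, 7, 6, 6, 0, 0, 1, 400, 450, 50, 500, 1000, 1000, 133, 490, 622, -185, 0, 0⟩,
  .fj 2 120 ⟨1, 7, 6, 6, 0, 0, 1, 527, 450, 50, 500, 1000, 1000, 93, 490, 622, -180, 0, 0⟩,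
  .fj 2 120 ⟨1, 7, 6, 6, 0, 1, 0, 1000, 50, 450, 500, 1000, 1000, 0, 660, 457, -165, 0, 0⟩,
  .fj 2 120 ⟨1, 7, 6, 6, 0, 1, 1, 1000, 50, 450, 500, 1000, 1000, 0, 660, 559, -165, 0, 0⟩,
  .fj 1 48 ⟨1, 8, 8, 8, 0, 1, 1, 527, 250, 250, 500, 1000, 1000, 93, 699, 679, -223, 0, 0⟩,
  .fj 1 48 ⟨1, 8, 8, 8, 0, 1, 0, 1000, 50, 450, 500, 1000, 1000, 0, 746, 539, -215, 0, 0⟩,
  .fj 1 48 ⟨1, 8, 8, 8, 0, 1, 1, 1000, 50, 450, 500, 1000, 1000, 0, 746, 662, -215, 0, 0⟩,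
  .fj 2 6 ⟨1, 8, 7, 7, 1, 0, 1, 1000, 1000, 100, 900, 1000, 1000, 0, 640, 790, -104, 455, 0⟩,
  .fj 2 6 ⟨1, 8, 7, 7, 7, 1, 0, 650, 1000, 500, 500, 1000, 1000, 62, 762, 626, -87, 0, 0⟩,
  .fj 1 220 ⟨1, 9, 9, 9, 1, 0, 1, 1000, 1000, 100, 900, 1000, 1000, 0, 572, 759, -289, 514, 0⟩,
  .fj 1 220 ⟨1, 9, 9, 9, 7, 1, 1, 600, 1000, 500, 500, 1000, 1000, 73, 712, 712, -272, 0, 0⟩,
  .fj 2 176 ⟨1, 9, 8, 8, 0, 0, 1, 527, 450, 50, 500, 1000, 1000, 93, 652, 813, -209, 0, 0⟩,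
  .fj 2 176 ⟨1, 9, 8, 8, 0, 1, 0, 1000, 50, 450, 500, 1000, 1000, 0, 852, 617, -194, 0, 0⟩,
  .fj 1 3432 ⟨1, 10, 10, 10, 0, 1, 1, 527, 250, 250, 500, 1000, 1000, 93, 770, 750, -373, 0, 0⟩,
  .fj 1 3432 ⟨1, 10, 10, 10, 0, 1, 1, 1000, 50, 450, 500, 1000, 1000, 0, 816, 733, -365, 0, 0⟩,
  .fj 2 924 ⟨1, 10, 9, 9, 1, 0, 1, 1000, 1000, 100, 900, 1000, 1000, 0, 666, 846, -269, 566, 0⟩,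
  .fj 2 924 ⟨1, 10, 9, 9, 7, 1, 0, 650, 1000, 500, 500, 1000, 1000, 62, 818, 651, -252, 0, 0⟩,
  .fj 1 104 ⟨1, 11, 11, 11, 1, 0, 1, 1000, 1000, 100, 900, 1000, 1000, 0, 757, 974, -295, 624, 0⟩,
  .fj 1 104 ⟨1, 11, 11, 11, 7, 1, 1, 600, 1000, 500, 500, 1000, 1000, 73, 927, 927, -278, 0, 0⟩,
  .fj 2 104 ⟨1, 11, 10, 10, 0, 0, 1, 527, 450, 50, 500, 1000, 1000, 93, 837, 1028, -215, 0, 0⟩,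
  .fj 2 104 ⟨1, 11, 10, 10, 0, 1, 0, 1000, 50, 450, 500, 1000, 1000, 0, 1067, 801, -200, 0, 0⟩,
  .fj 1 208 ⟨1, 12, 12, 12, 0, 1, 1, 527, 50, 450, 500, 1000, 1000, 93, 1090, 1007, -319, 0, 0⟩,
  .fj 1 208 ⟨1, 12, 12, 12, 0, 1, 1, 1000, 50, 450, 500, 1000, 1000, 0, 1090, 1007, -312, 0, 0⟩,
  .fj 2 260 ⟨1, 12, 11, 11, 1, 0, 1, 1000, 1000, 100, 900, 1000, 1000, 0, 871, 1081, -254, 676, 0⟩,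
  .fj 2 260 ⟨1, 12, 11, 11, 7, 1, 0, 650, 1000, 500, 500, 1000, 1000, 62, 1053, 855, -237, 0, 0⟩,
  .fj 1 2856 ⟨1, 13, 13, 13, 1, 0, 1, 1000, 1000, 100, 900, 1000, 1000, 0, 824, 1071, -418, 734, 0⟩,
  .fj 1 2856 ⟨1, 13, 13, 13, 7, 1, 0, 600, 1000, 500, 500, 1000, 1000, 73, 1024, 825, -401, 0, 0⟩,
  .fj 2 336 ⟨1, 13, 12, 12, 0, 1, 1, 527, 250, 250, 500, 1000, 1000, 93, 1185, 1146, -271, 0, 0⟩,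
  .fj 2 336 ⟨1, 13, 12, 12, 0, 1, 0, 1000, 50, 450, 500, 1000, 1000, 0, 1231, 935, -256, 0, 0⟩,
  .fj 2 336 ⟨1, 13, 12, 12, 0, 1, 1, 1000, 50, 450, 500, 1000, 1000, 0, 1231, 1129, -256, 0, 0⟩,
  .fj 1 1360 ⟨1, 14, 14, 14, 0, 1, 1, 527, 250, 250, 500, 1000, 1000, 93, 1182, 1162, -401, 0, 0⟩,
  .fj 1 1360 ⟨1, 14, 14, 14, 0, 1, 1, 1000, 50, 450, 500, 1000, 1000, 0, 1229, 1145, -394, 0, 0⟩,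
  .fj 2 136 ⟨1, 14, 13, 13, 1, 0, 1, 1000, 1000, 100, 900, 1000, 1000, 0, 1058, 1297, -258, 787, 0⟩,
  .fj 2 136 ⟨1, 14, 13, 13, 7, 1, 0, 650, 1000, 500, 500, 1000, 1000, 62, 1270, 1041, -241, 0, 0⟩,
  .fj 1 5168 ⟨1, 15, 15, 15, 1, 0, 1, 1000, 1000, 100, 900, 1000, 1000, 0, 969, 1246, -463, 845, 0⟩,
  .fj 1 5168 ⟨1, 15, 15, 15, 7, 1, 0, 600, 1000, 500, 500, 1000, 1000, 73, 1200, 970, -446, 0, 0⟩,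
  .fj 2 5168 ⟨1, 15, 14, 14, 0, 1, 1, 527, 250, 250, 500, 1000, 1000, 93, 1303, 1264, -374, 0, 0⟩,
  .fj 2 5168 ⟨1, 15, 14, 14, 0, 1, 0, 1000, 50, 450, 500, 1000, 1000, 0, 1350, 1022, -358, 0, 0⟩,
  .fj 2 5168 ⟨1, 15, 14, 14, 0, 1, 1, 1000, 50, 450, 500, 1000, 1000, 0, 1350, 1247, -358, 0, 0⟩,
  .fj 1 93024 ⟨1, 16, 16, 16, 0, 0, 1, 527, 450, 50, 500, 1000, 1000, 93, 990, 1279, -551, 0, 0⟩,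
  .fj 1 93024 ⟨1, 16, 16, 16, 0, 1, 1, 1000, 50, 450, 500, 1000, 1000, 0, 1299, 1216, -544, 0, 0⟩,
  .fj 2 1938 ⟨1, 16, 15, 15, 1, 0, 1, 1000, 1000, 100, 900, 1000, 1000, 0, 1147, 1417, -359, 897, 0⟩,
  .fj 2 1938 ⟨1, 16, 15, 15, 7, 1, 0, 600, 1000, 500, 500, 1000, 1000, 73, 1390, 1130, -342, 0, 0⟩,
  .fj 1 228 ⟨1, 17, 17, 17, 1, 0, 1, 1000, 1000, 100, 900, 1000, 1000, 0, 1221, 1528, -401, 955, 0⟩,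
  .fj 2 63840 ⟨1, 17, 16, 16, 0, 0, 1, 527, 450, 50, 500, 1000, 1000, 93, 1152, 1434, -471, 0, 0⟩,
  .fj 2 63840 ⟨1, 17, 16, 16, 0, 1, 0, 1000, 50, 450, 500, 1000, 1000, 0, 1473, 1115, -455, 0, 0⟩,
  .fj 1 3496 ⟨1, 18, 18, 18, 0, 1, 1, 527, 250, 250, 500, 1000, 1000, 93, 1539, 1519, -485, 0, 0⟩,
  .fj 1 3496 ⟨1, 18, 18, 18, 0, 1, 1, 1000, 50, 450, 500, 1000, 1000, 0, 1586, 1502, -477, 0, 0⟩,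
  .fj 2 1748 ⟨1, 18, 17, 17, 7, 1, 0, 600, 1000, 500, 500, 1000, 1000, 73, 1589, 1298, -364, 0, 0⟩,
  .fj 1 13800 ⟨1, 19, 19, 19, 1, 0, 1, 1000, 1000, 100, 900, 1000, 1000, 0, 1265, 1602, -548, 1066, 0⟩,
  .fj 1 13800 ⟨1, 19, 19, 19, 7, 1, 0, 600, 1000, 500, 500, 1000, 1000, 73, 1556, 1265, -531, 0, 0⟩]

theorem wt5_ok : ∀ w ∈ wt5, w.Ok := tab_ok7 we5 (by decide +kernel) (by decide +kernel)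

noncomputable def v435 : VW := vw wt5_ok 0 w435 rfl
noncomputable def v436 : VW := vw wt5_ok 1 w436 rfl
noncomputable def v437 : VW := vw wt5_ok 2 w437 rfl
noncomputable def v438 : VW := vw wt5_ok 3 w438 rfl
noncomputable def v439 : VW := vw wt5_ok 4 w439 rfl
noncomputable def v440 : VW := vw wt5_ok 5 w440 rfl
noncomputable def v441 : VW := vw wt5_ok 6 w441 rfl
noncomputable def v442 : VW := vw wt5_ok 7 w442 rfl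
noncomputable def v443 : VW := vw wt5_ok 8 w443 rfl
noncomputable def v444 : VW := vw wt5_ok 9 w444 rfl
noncomputable def v445 : VW := vw wt5_ok 10 w445 rfl
noncomputable def v446 : VW := vw wt5_ok 11 w446 rfl
noncomputable def v447 : VW := vw wt5_ok 12 w447 rfl
noncomputable def v448 : VW := vw wt5_ok 13 w448 rfl
noncomputable def v449 : VW := vw wt5_ok 14 w449 rfl
noncomputable def v450 : VW := vw wt5_ok 15 w450 rfl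
noncomputable def v451 : VW := vw wt5_ok 16 w451 rfl
noncomputable def v452 : VW := vw wt5_ok 17 w452 rfl
noncomputable def v453 : VW := vw wt5_ok 18 w453 rfl
noncomputable def v454 : VW := vw wt5_ok 19 w454 rfl
noncomputable def v455 : VW := vw wt5_ok 20 w455 rfl
noncomputable def v456 : VW := vw wt5_ok 21 w456 rfl
noncomputable def v457 : VW := vw wt5_ok 22 w457 rfl
noncomputable def v458 : VW := vw wt5_ok 23 w458 rfl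
noncomputable def v459 : VW := vw wt5_ok 24 w459 rfl
noncomputable def v460 : VW := vw wt5_ok 25 w460 rfl
noncomputable def v461 : VW := vw wt5_ok 26 w461 rfl
noncomputable def v462 : VW := vw wt5_ok 27 w462 rfl
noncomputable def v463 : VW := vw wt5_ok 28 w463 rfl
noncomputable def v464 : VW := vw wt5_ok 29 w464 rfl
noncomputable def v465 : VW := vw wt5_ok 30 w465 rfl
noncomputable def v466 : VW := vw wt5_ok 31 w466 rfl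
noncomputable def v467 : VW := vw wt5_ok 32 w467 rfl
noncomputable def v468 : VW := vw wt5_ok 33 w468 rfl
noncomputable def v469 : VW := vw wt5_ok 34 w469 rfl
noncomputable def v470 : VW := vw wt5_ok 35 w470 rfl
noncomputable def v471 : VW := vw wt5_ok 36 w471 rfl
noncomputable def v472 : VW := vw wt5_ok 37 w472 rfl
noncomputable def v473 : VW := vw wt5_ok 38 w473 rfl
noncomputable def v474 : VW := vw wt5_ok 39 w474 rfl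
noncomputable def v475 : VW := vw wt5_ok 40 w475 rfl
noncomputable def v476 : VW := vw wt5_ok 41 w476 rfl
noncomputable def v477 : VW := vw wt5_ok 42 w477 rfl
noncomputable def v478 : VW := vw wt5_ok 43 w478 rfl
noncomputable def v479 : VW := vw wt5_ok 44 w479 rfl
noncomputable def v480 : VW := vw wt5_ok 45 w480 rfl
noncomputable def v481 : VW := vw wt5_ok 46 w481 rfl
noncomputable def v482 : VW := vw wt5_ok 47 w482 rfl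
noncomputable def v483 : VW := vw wt5_ok 48 w483 rfl
noncomputable def v484 : VW := vw wt5_ok 49 w484 rfl
noncomputable def v485 : VW := vw wt5_ok 50 w485 rfl
noncomputable def v486 : VW := vw wt5_ok 51 w486 rfl
noncomputable def v487 : VW := vw wt5_ok 52 w487 rfl
noncomputable def v488 : VW := vw wt5_ok 53 w488 rfl
noncomputable def v489 : VW := vw wt5_ok 54 w489 rfl
noncomputable def v490 : VW := vw wt5_ok 55 w490 rfl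
noncomputable def v491 : VW := vw wt5_ok 56 w491 rfl
noncomputable def v492 : VW := vw wt5_ok 57 w492 rfl
noncomputable def v493 : VW := vw wt5_ok 58 w493 rfl
noncomputable def v494 : VW := vw wt5_ok 59 w494 rfl
noncomputable def v495 : VW := vw wt5_ok 60 w495 rfl
noncomputable def v496 : VW := vw wt5_ok 61 w496 rfl
noncomputable def v497 : VW := vw wt5_ok 62 w497 rfl
noncomputable def v498 : VW := vw wt5_ok 63 w498 rfl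
noncomputable def v499 : VW := vw wt5_ok 64 w499 rfl
noncomputable def v500 : VW := vw wt5_ok 65 w500 rfl
noncomputable def v501 : VW := vw wt5_ok 66 w501 rfl
noncomputable def v502 : VW := vw wt5_ok 67 w502 rfl
noncomputable def v503 : VW := vw wt5_ok 68 w503 rfl
noncomputable def v504 : VW := vw wt5_ok 69 w504 rfl
noncomputable def v505 : VW := vw wt5_ok 70 w505 rfl
noncomputable def v506 : VW := vw wt5_ok 71 w506 rfl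
noncomputable def v507 : VW := vw wt5_ok 72 w507 rfl
noncomputable def v508 : VW := vw wt5_ok 73 w508 rfl
noncomputable def v509 : VW := vw wt5_ok 74 w509 rfl
noncomputable def v510 : VW := vw wt5_ok 75 w510 rfl
noncomputable def v511 : VW := vw wt5_ok 76 w511 rfl
noncomputable def v512 : VW := vw wt5_ok 77 w512 rfl
noncomputable def v513 : VW := vw wt5_ok 78 w513 rfl
noncomputable def v514 : VW := vw wt5_ok 79 w514 rfl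
noncomputable def v515 : VW := vw wt5_ok 80 w515 rfl
noncomputable def v516 : VW := vw wt5_ok 81 w516 rfl
noncomputable def v517 : VW := vw wt5_ok 82 w517 rfl
noncomputable def v518 : VW := vw wt5_ok 83 w518 rfl
noncomputable def v519 : VW := vw wt5_ok 84 w519 rfl
noncomputable def v520 : VW := vw wt5_ok 85 w520 rfl
noncomputable def v521 : VW := vw wt5_ok 86 w521 rfl

end Pool.Agent.MP_2339ce_nt.Q2.TB.RT
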