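import Pool.Agent.MP_2339ce_nt.Q2.HA7
import Pool.Agent.MP_2339ce_nt.Q2.RTV

/-! Project Q2, block RT: valid windows. -/

set_option autoImplicit false

noncomputable section

namespace Pool.Agent.MP_2339ce_nt.Q2.TB.RT

noncomputable def w522 : Wn := ⟨[], [⟨39, 18060, 2, 0, 0, 36, 0, 70, 0⟩, ⟨39, 14170, 2, 0, 32, 72, 0, 2, 0⟩], [⟨75, 3430, -114, 0, 40, 36, 0, -70, 0⟩]⟩
noncomputable def w523 : Wn := ⟨[⟨0, -93, 0, 0, -1, 1, 0, 0, 0⟩], [⟨41, 16710, 2, 0, 0, 38, 0, 78, 0⟩, ⟨41, 15870, 2, 0, 78, 36, 0, 2, 0⟩], [⟨81, 6200, -122, 0, 42, 40, 0, -78, 0⟩]⟩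
noncomputable def w524 : Wn := ⟨[], [⟨41, 16710, 2, 0, 0, 38, 0, 78, 0⟩, ⟨41, 15870, 2, 0, 78, 36, 0, 2, 0⟩], [⟨81, 6130, -122, 0, 42, 40, 0, -78, 0⟩]⟩
noncomputable def w525 : Wn := ⟨[⟨0, 73, 0, 0, 1, -1, 0, 0, 0⟩], [⟨43, 17250, 2, 0, 0, 40, 0, 82, 0⟩, ⟨43, 14040, 2, 0, 38, 82, 0, 2, 0⟩], [⟨85, 5830, -128, 0, 44, 42, 0, -82, 0⟩]⟩
noncomputable def w526 : Wn := ⟨[⟨0, -93, 0, 0, -1, 1, 0, 0, 0⟩], [⟨43, 18190, 2, 0, 0, 40, 0, 78, 0⟩, ⟨43, 17790, 2, 0, 80, 36, 0, 2, 0⟩], [⟨83, 5200, -126, 0, 44, 40, 0, -78, 0⟩]⟩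
noncomputable def w527 : Wn := ⟨[], [⟨43, 18650, 2, 0, 0, 40, 0, 78, 0⟩, ⟨43, 17620, 2, 0, 80, 36, 0, 2, 0⟩], [⟨83, 5040, -126, 0, 44, 40, 0, -78, 0⟩]⟩
noncomputable def w528 : Wn := ⟨[], [⟨45, 18270, 2, 0, 0, 42, 0, 86, 0⟩, ⟨45, 14080, 2, 0, 40, 86, 0, 2, 0⟩], [⟨89, 6770, -134, 0, 46, 44, 0, -86, 0⟩]⟩
noncomputable def w529 : Wn := ⟨[⟨0, 73, 0, 0, 1, -1, 0, 0, 0⟩], [⟨47, 18850, 2, 0, 0, 44, 0, 90, 0⟩, ⟨47, 15340, 2, 0, 42, 90, 0, 2, 0⟩], [⟨93, 6430, -140, 0, 48, 46, 0, -90, 0⟩]⟩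
noncomputable def w530 : Wn := ⟨[⟨0, -93, 0, 0, -1, 1, 0, 0, 0⟩], [⟨49, 18550, 2, 0, 0, 46, 0, 94, 0⟩, ⟨49, 18350, 2, 0, 94, 44, 0, 2, 0⟩], [⟨97, 8300, -146, 0, 50, 48, 0, -94, 0⟩]⟩
noncomputable def w531 : Wn := ⟨[], [⟨49, 19020, 2, 0, 0, 46, 0, 94, 0⟩, ⟨49, 18180, 2, 0, 94, 44, 0, 2, 0⟩], [⟨97, 8230, -146, 0, 50, 48, 0, -94, 0⟩]⟩
noncomputable def w532 : Wn := ⟨[⟨0, 73, 0, 0, 1, -1, 0, 0, 0⟩], [⟨51, 19800, 2, 0, 0, 48, 0, 98, 0⟩, ⟨51, 15990, 2, 0, 46, 98, 0, 2, 0⟩], [⟨101, 7680, -152, 0, 52, 50, 0, -98, 0⟩]⟩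
noncomputable def w533 : Wn := ⟨[⟨0, -93, 0, 0, -1, 1, 0, 0, 0⟩], [⟨51, 20920, 2, 0, 0, 48, 0, 94, 0⟩, ⟨51, 20520, 2, 0, 96, 44, 0, 2, 0⟩], [⟨99, 6880, -150, 0, 52, 48, 0, -94, 0⟩]⟩
noncomputable def w534 : Wn := ⟨[], [⟨51, 21380, 2, 0, 0, 48, 0, 94, 0⟩, ⟨51, 16580, 2, 0, 44, 96, 0, 2, 0⟩], [⟨99, 6720, -150, 0, 52, 48, 0, -94, 0⟩]⟩
noncomputable def w535 : Wn := ⟨[], [⟨51, 21380, 2, 0, 0, 48, 0, 94, 0⟩, ⟨51, 20350, 2, 0, 96, 44, 0, 2, 0⟩], [⟨99, 6720, -150, 0, 52, 48, 0, -94, 0⟩]⟩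
noncomputable def w536 : Wn := ⟨[], [⟨53, 22480, 2, 0, 0, 50, 0, 102, 0⟩, ⟨53, 17690, 2, 0, 48, 102, 0, 2, 0⟩], [⟨105, 6960, -158, 0, 54, 52, 0, -102, 0⟩]⟩
noncomputable def w537 : Wn := ⟨[], [⟨53, 18690, 2, 0, 0, 100, 0, 48, 0⟩, ⟨53, 22890, 2, 0, 100, 46, 0, 2, 0⟩, ⟨78, 14500, -77, 0, 27, 50, 0, 0, 0⟩], [⟨103, 5890, -156, 0, 54, 50, 0, -98, 0⟩]⟩
noncomputable def w538 : Wn := ⟨[⟨0, 73, 0, 0, 1, -1, 0, 0, 0⟩], [⟨55, 22650, 2, 0, 0, 52, 0, 106, 0⟩, ⟨55, 18540, 2, 0, 50, 106, 0, 2, 0⟩], [⟨109, 7040, -164, 0, 56, 54, 0, -106, 0⟩]⟩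
noncomputable def w539 : Wn := ⟨[], [⟨55, 23870, 2, 0, 0, 52, 0, 102, 0⟩, ⟨55, 22840, 2, 0, 104, 48, 0, 2, 0⟩], [⟨107, 6440, -162, 0, 56, 52, 0, -102, 0⟩]⟩
noncomputable def w540 : Wn := ⟨[⟨0, -93, 0, 0, -1, 1, 0, 0, 0⟩], [⟨57, 23470, 2, 0, 0, 54, 0, 110, 0⟩, ⟨57, 22640, 2, 0, 110, 52, 0, 2, 0⟩], [⟨113, 8260, -170, 0, 58, 56, 0, -110, 0⟩]⟩
noncomputable def w541 : Wn := ⟨[], [⟨57, 23470, 2, 0, 0, 54, 0, 110, 0⟩, ⟨57, 22640, 2, 0, 110, 52, 0, 2, 0⟩], [⟨113, 8180, -170, 0, 58, 56, 0, -110, 0⟩]⟩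
noncomputable def w542 : Wn := ⟨[], [⟨59, 20170, 2, 0, 0, 114, 0, 56, 0⟩, ⟨59, 25050, 2, 0, 114, 54, 0, 2, 0⟩, ⟨88, 16170, -87, 0, 30, 57, 0, 0, 0⟩], [⟨117, 7470, -176, 0, 60, 58, 0, -114, 0⟩]⟩
noncomputable def w543 : Wn := ⟨[⟨0, 73, 0, 0, 1, -1, 0, 0, 0⟩], [⟨59, 24590, 2, 0, 0, 56, 0, 114, 0⟩, ⟨59, 20170, 2, 0, 54, 114, 0, 2, 0⟩], [⟨117, 7300, -176, 0, 60, 58, 0, -114, 0⟩]⟩
noncomputable def w544 : Wn := ⟨[], [⟨61, 25860, 2, 0, 0, 58, 0, 118, 0⟩, ⟨61, 20460, 2, 0, 56, 118, 0, 2, 0⟩], [⟨121, 8000, -182, 0, 62, 60, 0, -118, 0⟩]⟩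
noncomputable def w545 : Wn := ⟨[⟨0, 73, 0, 0, 1, -1, 0, 0, 0⟩], [⟨63, 24860, 2, 0, 0, 60, 0, 122, 0⟩, ⟨63, 20140, 2, 0, 58, 122, 0, 2, 0⟩], [⟨125, 9230, -188, 0, 64, 62, 0, -122, 0⟩]⟩
noncomputable def w546 : Wn := ⟨[], [⟨65, 26800, 2, 0, 0, 62, 0, 126, 0⟩, ⟨65, 21100, 2, 0, 60, 126, 0, 2, 0⟩], [⟨129, 9260, -194, 0, 66, 64, 0, -126, 0⟩]⟩
noncomputable def w547 : Wn := ⟨[⟨0, 73, 0, 0, 1, -1, 0, 0, 0⟩], [⟨67, 27300, 2, 0, 0, 64, 0, 130, 0⟩, ⟨67, 22280, 2, 0, 62, 130, 0, 2, 0⟩], [⟨133, 9000, -200, 0, 68, 66, 0, -130, 0⟩]⟩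
noncomputable def w548 : Wn := ⟨[⟨0, -93, 0, 0, -1, 1, 0, 0, 0⟩], [⟨69, 26760, 2, 0, 0, 66, 0, 134, 0⟩, ⟨69, 26560, 2, 0, 134, 64, 0, 2, 0⟩], [⟨137, 11120, -206, 0, 70, 68, 0, -134, 0⟩]⟩
noncomputable def w549 : Wn := ⟨[], [⟨69, 27230, 2, 0, 0, 66, 0, 134, 0⟩, ⟨69, 21220, 2, 0, 64, 134, 0, 2, 0⟩], [⟨137, 11040, -206, 0, 70, 68, 0, -134, 0⟩]⟩
noncomputable def w550 : Wn := ⟨[], [⟨71, 23330, 2, 0, 0, 138, 0, 68, 0⟩, ⟨71, 29120, 2, 0, 138, 66, 0, 2, 0⟩, ⟨106, 19490, -105, 0, 36, 69, 0, 0, 0⟩], [⟨141, 10010, -212, 0, 72, 70, 0, -138, 0⟩]⟩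
noncomputable def w551 : Wn := ⟨[⟨0, 73, 0, 0, 1, -1, 0, 0, 0⟩], [⟨71, 28660, 2, 0, 0, 68, 0, 138, 0⟩, ⟨71, 28660, 2, 0, 138, 66, 0, 2, 0⟩], [⟨141, 9840, -212, 0, 72, 70, 0, -138, 0⟩]⟩
noncomputable def w552 : Wn := ⟨[⟨0, -93, 0, 0, -1, 1, 0, 0, 0⟩], [⟨73, 28280, 2, 0, 0, 70, 0, 142, 0⟩, ⟨73, 28080, 2, 0, 142, 68, 0, 2, 0⟩], [⟨145, 11800, -218, 0, 74, 72, 0, -142, 0⟩]⟩
noncomputable def w553 : Wn := ⟨[], [⟨73, 28750, 2, 0, 0, 70, 0, 142, 0⟩, ⟨73, 22440, 2, 0, 68, 142, 0, 2, 0⟩], [⟨145, 11720, -218, 0, 74, 72, 0, -142, 0⟩]⟩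
noncomputable def w554 : Wn := ⟨[⟨0, 73, 0, 0, 1, -1, 0, 0, 0⟩], [⟨75, 29200, 2, 0, 0, 72, 0, 146, 0⟩, ⟨75, 23580, 2, 0, 70, 146, 0, 2, 0⟩], [⟨149, 11500, -224, 0, 76, 74, 0, -146, 0⟩]⟩
noncomputable def w555 : Wn := ⟨[⟨0, -93, 0, 0, -1, 1, 0, 0, 0⟩], [⟨77, 31990, 2, 0, 0, 74, 0, 150, 0⟩, ⟨77, 31150, 2, 0, 150, 72, 0, 2, 0⟩], [⟨153, 10760, -230, 0, 78, 76, 0, -150, 0⟩]⟩
noncomputable def w556 : Wn := ⟨[], [⟨77, 31990, 2, 0, 0, 74, 0, 150, 0⟩, ⟨77, 31150, 2, 0, 150, 72, 0, 2, 0⟩], [⟨153, 10680, -230, 0, 78, 76, 0, -150, 0⟩]⟩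
noncomputable def w557 : Wn := ⟨[⟨0, 73, 0, 0, 1, -1, 0, 0, 0⟩], [⟨79, 32350, 2, 0, 0, 76, 0, 154, 0⟩, ⟨79, 26430, 2, 0, 74, 154, 0, 2, 0⟩], [⟨157, 10550, -236, 0, 80, 78, 0, -154, 0⟩]⟩
noncomputable def w558 : Wn := ⟨[], [⟨81, 32980, 2, 0, 0, 78, 0, 158, 0⟩, ⟨81, 32140, 2, 0, 158, 76, 0, 2, 0⟩], [⟨161, 11900, -242, 0, 82, 80, 0, -158, 0⟩]⟩
noncomputable def w559 : Wn := ⟨[⟨0, -399, 0, -1, 0, 1, 0, 0, 0⟩], [⟨7, 1910, 2, 0, 0, 10, 0, 0, 4⟩, ⟨7, 2870, 2, 10, 0, 2, 0, 0, 2⟩], [⟨13, 1170, -20, 8, 0, 6, 0, 0, -10⟩, ⟨10, 1540, -9, 4, 0, 5, 0, 0, 0⟩]⟩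
noncomputable def w560 : Wn := ⟨[⟨0, -301, 0, -1, 0, 1, 0, 0, 0⟩], [⟨7, 1910, 2, 0, 0, 10, 0, 0, 4⟩, ⟨7, 2870, 2, 10, 0, 2, 0, 0, 2⟩], [⟨13, 1160, -20, 8, 0, 6, 0, 0, -10⟩, ⟨10, 1540, -9, 4, 0, 5, 0, 0, 0⟩]⟩
noncomputable def w561 : Wn := ⟨[⟨0, -201, 0, -1, 0, 1, 0, 0, 0⟩], [⟨7, 1910, 2, 0, 0, 10, 0, 0, 4⟩, ⟨7, 2870, 2, 10, 0, 2, 0, 0, 2⟩], [⟨13, 1130, -20, 8, 0, 6, 0, 0, -10⟩, ⟨10, 1520, -9, 4, 0, 5, 0, 0, 0⟩]⟩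
noncomputable def w562 : Wn := ⟨[⟨0, -399, 0, -1, 0, 1, 0, 0, 0⟩], [⟨11, 3590, 2, 0, 0, 18, 0, 0, 8⟩, ⟨11, 4850, 2, 18, 0, 6, 0, 0, 2⟩], [⟨21, 1400, -32, 12, 0, 10, 0, 0, -18⟩, ⟨16, 2500, -15, 6, 0, 9, 0, 0, 0⟩]⟩
noncomputable def w563 : Wn := ⟨[⟨0, -301, 0, -1, 0, 1, 0, 0, 0⟩], [⟨11, 3590, 2, 0, 0, 18, 0, 0, 8⟩, ⟨11, 4850, 2, 18, 0, 6, 0, 0, 2⟩], [⟨21, 1390, -32, 12, 0, 10, 0, 0, -18⟩, ⟨16, 2490, -15, 6, 0, 9, 0, 0, 0⟩]⟩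
noncomputable def w564 : Wn := ⟨[⟨8, -3971, -36, 12, -16, 0, -36, 0, 0⟩, ⟨8, -3971, -36, 0, -16, 0, -24, 0, 0⟩, ⟨4, -1310, -12, 4, -4, 0, -12, 0, 0⟩, ⟨4, -1310, -12, 0, -4, 0, -8, 0, 0⟩], [⟨11, 3810, 2, 0, 20, 0, 10, 0, 0⟩, ⟨11, 3810, 2, 8, 20, 0, 2, 0, 0⟩], []⟩
noncomputable def w565 : Wn := ⟨[⟨8, -3971, -36, 0, 12, -16, 0, -36, 0⟩, ⟨8, -3971, -36, 0, 0, -16, 0, -24, 0⟩, ⟨4, -1310, -12, 0, 4, -4, 0, -12, 0⟩, ⟨4, -1310, -12, 0, 0, -4, 0, -8, 0⟩], [⟨11, 3810, 2, 0, 0, 20, 0, 10, 0⟩, ⟨11, 3810, 2, 0, 8, 20, 0, 2, 0⟩], []⟩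
noncomputable def w566 : Wn := ⟨[⟨8, -4591, -32, 12, -12, 0, -24, 0, 0⟩, ⟨8, -4591, -32, 4, -12, 0, -16, 0, 0⟩, ⟨10, -6551, -40, 14, -12, 0, -32, 0, 0⟩, ⟨10, -6551, -40, 6, -12, 0, -24, 0, 0⟩], [⟨11, 5190, 2, 0, 16, 0, 6, 0, 0⟩, ⟨11, 5190, 2, 4, 16, 0, 2, 0, 0⟩], []⟩
noncomputable def w567 : Wn := ⟨[⟨12, -5741, -44, 16, -16, 0, -36, 0, 0⟩, ⟨12, -5741, -44, 4, -16, 0, -24, 0, 0⟩, ⟨14, -7771, -52, 18, -16, 0, -44, 0, 0⟩, ⟨14, -7771, -52, 6, -16, 0, -32, 0, 0⟩], [⟨15, 6820, 2, 0, 24, 0, 10, 0, 0⟩, ⟨15, 6820, 2, 8, 24, 0, 2, 0, 0⟩], []⟩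
noncomputable def w568 : Wn := ⟨[⟨16, -6951, -56, 20, -20, 0, -48, 0, 0⟩, ⟨16, -6951, -56, 4, -20, 0, -32, 0, 0⟩, ⟨18, -9041, -64, 22, -20, 0, -56, 0, 0⟩, ⟨18, -9041, -64, 6, -20, 0, -40, 0, 0⟩], [⟨19, 8450, 2, 0, 32, 0, 14, 0, 0⟩, ⟨19, 8450, 2, 12, 32, 0, 2, 0, 0⟩], []⟩
noncomputable def w569 : Wn := ⟨[⟨20, -8191, -68, 24, -24, 0, -60, 0, 0⟩, ⟨20, -8191, -68, 4, -24, 0, -40, 0, 0⟩, ⟨22, -10331, -76, 26, -24, 0, -68, 0, 0⟩, ⟨22, -10331, -76, 6, -24, 0, -48, 0, 0⟩], [⟨23, 10080, 2, 0, 40, 0, 18, 0, 0⟩, ⟨23, 10080, 2, 16, 40, 0, 2, 0, 0⟩], []⟩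
noncomputable def w570 : Wn := ⟨[⟨24, -9451, -80, 28, -28, 0, -72, 0, 0⟩, ⟨24, -9451, -80, 4, -28, 0, -48, 0, 0⟩, ⟨26, -11631, -88, 30, -28, 0, -80, 0, 0⟩, ⟨26, -11631, -88, 6, -28, 0, -56, 0, 0⟩], [⟨27, 11710, 2, 0, 48, 0, 22, 0, 0⟩, ⟨27, 11710, 2, 20, 48, 0, 2, 0, 0⟩], []⟩
noncomputable def w571 : Wn := ⟨[⟨28, -10731, -92, 32, -32, 0, -84, 0, 0⟩, ⟨28, -10731, -92, 4, -32, 0, -56, 0, 0⟩, ⟨30, -12941, -100, 34, -32, 0, -92, 0, 0⟩, ⟨30, -12941, -100, 6, -32, 0, -64, 0, 0⟩], [⟨31, 13340, 2, 0, 56, 0, 26, 0, 0⟩, ⟨31, 13340, 2, 24, 56, 0, 2, 0, 0⟩], []⟩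
noncomputable def w572 : Wn := ⟨[⟨32, -12011, -104, 36, -36, 0, -96, 0, 0⟩, ⟨32, -12011, -104, 4, -36, 0, -64, 0, 0⟩, ⟨34, -14261, -112, 38, -36, 0, -104, 0, 0⟩, ⟨34, -14261, -112, 6, -36, 0, -72, 0, 0⟩], [⟨35, 14970, 2, 0, 64, 0, 30, 0, 0⟩, ⟨35, 14970, 2, 28, 64, 0, 2, 0, 0⟩], []⟩
noncomputable def w573 : Wn := ⟨[⟨36, -13311, -116, 40, -40, 0, -108, 0, 0⟩, ⟨36, -13311, -116, 4, -40, 0, -72, 0, 0⟩, ⟨38, -15581, -124, 42, -40, 0, -116, 0, 0⟩, ⟨38, -15581, -124, 6, -40, 0, -80, 0, 0⟩], [⟨39, 16600, 2, 0, 72, 0, 34, 0, 0⟩, ⟨39, 16600, 2, 32, 72, 0, 2, 0, 0⟩], []⟩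
noncomputable def w574 : Wn := ⟨[⟨40, -14611, -128, 44, -44, 0, -120, 0, 0⟩, ⟨40, -14611, -128, 4, -44, 0, -80, 0, 0⟩, ⟨42, -16911, -136, 46, -44, 0, -128, 0, 0⟩, ⟨42, -16911, -136, 6, -44, 0, -88, 0, 0⟩], [⟨43, 18230, 2, 0, 80, 0, 38, 0, 0⟩, ⟨43, 18230, 2, 36, 80, 0, 2, 0, 0⟩], []⟩
noncomputable def w575 : Wn := ⟨[⟨44, -15921, -140, 48, -48, 0, -132, 0, 0⟩, ⟨44, -15921, -140, 4, -48, 0, -88, 0, 0⟩, ⟨46, -18241, -148, 50, -48, 0, -140, 0, 0⟩, ⟨46, -18241, -148, 6, -48, 0, -96, 0, 0⟩], [⟨47, 19860, 2, 0, 88, 0, 42, 0, 0⟩, ⟨47, 19860, 2, 40, 88, 0, 2, 0, 0⟩], []⟩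
noncomputable def w576 : Wn := ⟨[⟨48, -17231, -152, 52, -52, 0, -144, 0, 0⟩, ⟨48, -17231, -152, 4, -52, 0, -96, 0, 0⟩, ⟨50, -19571, -160, 54, -52, 0, -152, 0, 0⟩, ⟨50, -19571, -160, 6, -52, 0, -104, 0, 0⟩], [⟨51, 21490, 2, 0, 96, 0, 46, 0, 0⟩, ⟨51, 21490, 2, 44, 96, 0, 2, 0, 0⟩], []⟩
noncomputable def w577 : Wn := ⟨[⟨52, -18541, -164, 56, -56, 0, -156, 0, 0⟩, ⟨52, -18541, -164, 4, -56, 0, -104, 0, 0⟩, ⟨54, -20911, -172, 58, -56, 0, -164, 0, 0⟩, ⟨54, -20911, -172, 6, -56, 0, -112, 0, 0⟩], [⟨55, 23120, 2, 0, 104, 0, 50, 0, 0⟩, ⟨55, 23120, 2, 48, 104, 0, 2, 0, 0⟩], []⟩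
noncomputable def w578 : Wn := ⟨[⟨56, -19861, -176, 60, -60, 0, -168, 0, 0⟩, ⟨56, -19861, -176, 4, -60, 0, -112, 0, 0⟩, ⟨58, -22241, -184, 62, -60, 0, -176, 0, 0⟩, ⟨58, -22241, -184, 6, -60, 0, -120, 0, 0⟩], [⟨59, 24750, 2, 0, 112, 0, 54, 0, 0⟩, ⟨59, 24750, 2, 52, 112, 0, 2, 0, 0⟩], []⟩
noncomputable def w579 : Wn := ⟨[⟨60, -21181, -188, 64, -64, 0, -180, 0, 0⟩, ⟨60, -21181, -188, 4, -64, 0, -120, 0, 0⟩, ⟨62, -23581, -196, 66, -64, 0, -188, 0, 0⟩, ⟨62, -23581, -196, 6, -64, 0, -128, 0, 0⟩], [⟨63, 26380, 2, 0, 120, 0, 58, 0, 0⟩, ⟨63, 26380, 2, 56, 120, 0, 2, 0, 0⟩], []⟩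
noncomputable def w580 : Wn := ⟨[⟨64, -22511, -200, 68, -68, 0, -192, 0, 0⟩, ⟨64, -22511, -200, 4, -68, 0, -128, 0, 0⟩, ⟨66, -24921, -208, 70, -68, 0, -200, 0, 0⟩, ⟨66, -24921, -208, 6, -68, 0, -136, 0, 0⟩], [⟨67, 28010, 2, 0, 128, 0, 62, 0, 0⟩, ⟨67, 28010, 2, 60, 128, 0, 2, 0, 0⟩], []⟩
noncomputable def w581 : Wn := ⟨[⟨68, -23831, -212, 72, -72, 0, -204, 0, 0⟩, ⟨68, -23831, -212, 4, -72, 0, -136, 0, 0⟩, ⟨70, -26271, -220, 74, -72, 0, -212, 0, 0⟩, ⟨70, -26271, -220, 6, -72, 0, -144, 0, 0⟩], [⟨71, 29640, 2, 0, 136, 0, 66, 0, 0⟩, ⟨71, 29640, 2, 64, 136, 0, 2, 0, 0⟩], []⟩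
noncomputable def w582 : Wn := ⟨[⟨72, -25161, -224, 76, -76, 0, -216, 0, 0⟩, ⟨72, -25161, -224, 4, -76, 0, -144, 0, 0⟩, ⟨74, -27611, -232, 78, -76, 0, -224, 0, 0⟩, ⟨74, -27611, -232, 6, -76, 0, -152, 0, 0⟩], [⟨75, 31270, 2, 0, 144, 0, 70, 0, 0⟩, ⟨75, 31270, 2, 68, 144, 0, 2, 0, 0⟩], []⟩
noncomputable def w583 : Wn := ⟨[⟨76, -26491, -236, 80, -80, 0, -228, 0, 0⟩, ⟨76, -26491, -236, 4, -80, 0, -152, 0, 0⟩, ⟨78, -28951, -244, 82, -80, 0, -236, 0, 0⟩, ⟨78, -28951, -244, 6, -80, 0, -160, 0, 0⟩], [⟨79, 32900, 2, 0, 152, 0, 74, 0, 0⟩, ⟨79, 32900, 2, 72, 152, 0, 2, 0, 0⟩], []⟩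
noncomputable def w584 : Wn := ⟨[⟨80, -27821, -248, 84, -84, 0, -240, 0, 0⟩, ⟨80, -27821, -248, 4, -84, 0, -160, 0, 0⟩, ⟨82, -30301, -256, 86, -84, 0, -248, 0, 0⟩, ⟨82, -30301, -256, 6, -84, 0, -168, 0, 0⟩], [⟨83, 34530, 2, 0, 160, 0, 78, 0, 0⟩, ⟨83, 34530, 2, 76, 160, 0, 2, 0, 0⟩], []⟩
noncomputable def w585 : Wn := ⟨[⟨84, -29151, -260, 88, -88, 0, -252, 0, 0⟩, ⟨84, -29151, -260, 4, -88, 0, -168, 0, 0⟩, ⟨86, -31641, -268, 90, -88, 0, -260, 0, 0⟩, ⟨86, -31641, -268, 6, -88, 0, -176, 0, 0⟩], [⟨87, 36160, 2, 0, 168, 0, 82, 0, 0⟩, ⟨87, 36160, 2, 80, 168, 0, 2, 0, 0⟩], []⟩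
noncomputable def w586 : Wn := ⟨[⟨8, -4591, -32, 0, 12, -12, 0, -24, 0⟩, ⟨8, -4591, -32, 0, 4, -12, 0, -16, 0⟩, ⟨10, -6551, -40, 0, 14, -12, 0, -32, 0⟩, ⟨10, -6551, -40, 0, 6, -12, 0, -24, 0⟩], [⟨11, 5190, 2, 0, 0, 16, 0, 6, 0⟩, ⟨11, 5190, 2, 0, 4, 16, 0, 2, 0⟩], []⟩
noncomputable def w587 : Wn := ⟨[⟨12, -5741, -44, 0, 16, -16, 0, -36, 0⟩, ⟨12, -5741, -44, 0, 4, -16, 0, -24, 0⟩, ⟨14, -7771, -52, 0, 18, -16, 0, -44, 0⟩, ⟨14, -7771, -52, 0, 6, -16, 0, -32, 0⟩], [⟨15, 6820, 2, 0, 0, 24, 0, 10, 0⟩, ⟨15, 6820, 2, 0, 8, 24, 0, 2, 0⟩], []⟩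
noncomputable def w588 : Wn := ⟨[⟨16, -6951, -56, 0, 20, -20, 0, -48, 0⟩, ⟨16, -6951, -56, 0, 4, -20, 0, -32, 0⟩, ⟨18, -9041, -64, 0, 22, -20, 0, -56, 0⟩, ⟨18, -9041, -64, 0, 6, -20, 0, -40, 0⟩], [⟨19, 8450, 2, 0, 0, 32, 0, 14, 0⟩, ⟨19, 8450, 2, 0, 12, 32, 0, 2, 0⟩], []⟩
noncomputable def w589 : Wn := ⟨[⟨20, -8191, -68, 0, 24, -24, 0, -60, 0⟩, ⟨20, -8191, -68, 0, 4, -24, 0, -40, 0⟩, ⟨22, -10331, -76, 0, 26, -24, 0, -68, 0⟩, ⟨22, -10331, -76, 0, 6, -24, 0, -48, 0⟩], [⟨23, 10080, 2, 0, 0, 40, 0, 18, 0⟩, ⟨23, 10080, 2, 0, 16, 40, 0, 2, 0⟩], []⟩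
noncomputable def w590 : Wn := ⟨[⟨24, -9451, -80, 0, 28, -28, 0, -72, 0⟩, ⟨24, -9451, -80, 0, 4, -28, 0, -48, 0⟩, ⟨26, -11631, -88, 0, 30, -28, 0, -80, 0⟩, ⟨26, -11631, -88, 0, 6, -28, 0, -56, 0⟩], [⟨27, 11710, 2, 0, 0, 48, 0, 22, 0⟩, ⟨27, 11710, 2, 0, 20, 48, 0, 2, 0⟩], []⟩
noncomputable def w591 : Wn := ⟨[⟨28, -10731, -92, 0, 32, -32, 0, -84, 0⟩, ⟨28, -10731, -92, 0, 4, -32, 0, -56, 0⟩, ⟨30, -12941, -100, 0, 34, -32, 0, -92, 0⟩, ⟨30, -12941, -100, 0, 6, -32, 0, -64, 0⟩], [⟨31, 13340, 2, 0, 0, 56, 0, 26, 0⟩, ⟨31, 13340, 2, 0, 24, 56, 0, 2, 0⟩], []⟩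
noncomputable def w592 : Wn := ⟨[⟨32, -12011, -104, 0, 36, -36, 0, -96, 0⟩, ⟨32, -12011, -104, 0, 4, -36, 0, -64, 0⟩, ⟨34, -14261, -112, 0, 38, -36, 0, -104, 0⟩, ⟨34, -14261, -112, 0, 6, -36, 0, -72, 0⟩], [⟨35, 14970, 2, 0, 0, 64, 0, 30, 0⟩, ⟨35, 14970, 2, 0, 28, 64, 0, 2, 0⟩], []⟩
noncomputable def w593 : Wn := ⟨[⟨36, -13311, -116, 0, 40, -40, 0, -108, 0⟩, ⟨36, -13311, -116, 0, 4, -40, 0, -72, 0⟩, ⟨38, -15581, -124, 0, 42, -40, 0, -116, 0⟩, ⟨38, -15581, -124, 0, 6, -40, 0, -80, 0⟩], [⟨39, 16600, 2, 0, 0, 72, 0, 34, 0⟩, ⟨39, 16600, 2, 0, 32, 72, 0, 2, 0⟩], []⟩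
noncomputable def w594 : Wn := ⟨[⟨40, -14611, -128, 0, 44, -44, 0, -120, 0⟩, ⟨40, -14611, -128, 0, 4, -44, 0, -80, 0⟩, ⟨42, -16911, -136, 0, 46, -44, 0, -128, 0⟩, ⟨42, -16911, -136, 0, 6, -44, 0, -88, 0⟩], [⟨43, 18230, 2, 0, 0, 80, 0, 38, 0⟩, ⟨43, 18230, 2, 0, 36, 80, 0, 2, 0⟩], []⟩
noncomputable def w595 : Wn := ⟨[⟨44, -15921, -140, 0, 48, -48, 0, -132, 0⟩, ⟨44, -15921, -140, 0, 4, -48, 0, -88, 0⟩, ⟨46, -18241, -148, 0, 50, -48, 0, -140, 0⟩, ⟨46, -18241, -148, 0, 6, -48, 0, -96, 0⟩], [⟨47, 19860, 2, 0, 0, 88, 0, 42, 0⟩, ⟨47, 19860, 2, 0, 40, 88, 0, 2, 0⟩], []⟩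
noncomputable def w596 : Wn := ⟨[⟨48, -17231, -152, 0, 52, -52, 0, -144, 0⟩, ⟨48, -17231, -152, 0, 4, -52, 0, -96, 0⟩, ⟨50, -19571, -160, 0, 54, -52, 0, -152, 0⟩, ⟨50, -19571, -160, 0, 6, -52, 0, -104, 0⟩], [⟨51, 21490, 2, 0, 0, 96, 0, 46, 0⟩, ⟨51, 21490, 2, 0, 44, 96, 0, 2, 0⟩], []⟩
noncomputable def w597 : Wn := ⟨[⟨52, -18541, -164, 0, 56, -56, 0, -156, 0⟩, ⟨52, -18541, -164, 0, 4, -56, 0, -104, 0⟩, ⟨54, -20911, -172, 0, 58, -56, 0, -164, 0⟩, ⟨54, -20911, -172, 0, 6, -56, 0, -112, 0⟩], [⟨55, 23120, 2, 0, 0, 104, 0, 50, 0⟩, ⟨55, 23120, 2, 0, 48, 104, 0, 2, 0⟩], []⟩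
noncomputable def w598 : Wn := ⟨[⟨56, -19861, -176, 0, 60, -60, 0, -168, 0⟩, ⟨56, -19861, -176, 0, 4, -60, 0, -112, 0⟩, ⟨58, -22241, -184, 0, 62, -60, 0, -176, 0⟩, ⟨58, -22241, -184, 0, 6, -60, 0, -120, 0⟩], [⟨59, 24750, 2, 0, 0, 112, 0, 54, 0⟩, ⟨59, 24750, 2, 0, 52, 112, 0, 2, 0⟩], []⟩
noncomputable def w599 : Wn := ⟨[⟨60, -21181, -188, 0, 64, -64, 0, -180, 0⟩, ⟨60, -21181, -188, 0, 4, -64, 0, -120, 0⟩, ⟨62, -23581, -196, 0, 66, -64, 0, -188, 0⟩, ⟨62, -23581, -196, 0, 6, -64, 0, -128, 0⟩], [⟨63, 26380, 2, 0, 0, 120, 0, 58, 0⟩, ⟨63, 26380, 2, 0, 56, 120, 0, 2, 0⟩], []⟩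
noncomputable def w600 : Wn := ⟨[⟨64, -22511, -200, 0, 68, -68, 0, -192, 0⟩, ⟨64, -22511, -200, 0, 4, -68, 0, -128, 0⟩, ⟨66, -24921, -208, 0, 70, -68, 0, -200, 0⟩, ⟨66, -24921, -208, 0, 6, -68, 0, -136, 0⟩], [⟨67, 28010, 2, 0, 0, 128, 0, 62, 0⟩, ⟨67, 28010, 2, 0, 60, 128, 0, 2, 0⟩], []⟩
noncomputable def w601 : Wn := ⟨[⟨68, -23831, -212, 0, 72, -72, 0, -204, 0⟩, ⟨68, -23831, -212, 0, 4, -72, 0, -136, 0⟩, ⟨70, -26271, -220, 0, 74, -72, 0, -212, 0⟩, ⟨70, -26271, -220, 0, 6, -72, 0, -144, 0⟩], [⟨71, 29640, 2, 0, 0, 136, 0, 66, 0⟩, ⟨71, 29640, 2, 0, 64, 136, 0, 2, 0⟩], []⟩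
noncomputable def w602 : Wn := ⟨[⟨72, -25161, -224, 0, 76, -76, 0, -216, 0⟩, ⟨72, -25161, -224, 0, 4, -76, 0, -144, 0⟩, ⟨74, -27611, -232, 0, 78, -76, 0, -224, 0⟩, ⟨74, -27611, -232, 0, 6, -76, 0, -152, 0⟩], [⟨75, 31270, 2, 0, 0, 144, 0, 70, 0⟩, ⟨75, 31270, 2, 0, 68, 144, 0, 2, 0⟩], []⟩
noncomputable def w603 : Wn := ⟨[⟨76, -26491, -236, 0, 80, -80, 0, -228, 0⟩, ⟨76, -26491, -236, 0, 4, -80, 0, -152, 0⟩, ⟨78, -28951, -244, 0, 82, -80, 0, -236, 0⟩, ⟨78, -28951, -244, 0, 6, -80, 0, -160, 0⟩], [⟨79, 32900, 2, 0, 0, 152, 0, 74, 0⟩, ⟨79, 32900, 2, 0, 72, 152, 0, 2, 0⟩], []⟩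
noncomputable def w604 : Wn := ⟨[⟨80, -27821, -248, 0, 84, -84, 0, -240, 0⟩, ⟨80, -27821, -248, 0, 4, -84, 0, -160, 0⟩, ⟨82, -30301, -256, 0, 86, -84, 0, -248, 0⟩, ⟨82, -30301, -256, 0, 6, -84, 0, -168, 0⟩], [⟨83, 34530, 2, 0, 0, 160, 0, 78, 0⟩, ⟨83, 34530, 2, 0, 76, 160, 0, 2, 0⟩], []⟩

noncomputable def wt6 : List Wn := [
  w522, w523, w524, w525, w526, w527, w528, w529, w530, w531, w532, w533, w534, w535, w536, w537,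
  w538, w539, w540, w541, w542, w543, w544, w545, w546, w547, w548, w549, w550, w551, w552, w553,
  w554, w555, w556, w557, w558, w559, w560, w561, w562, w563, w564, w565, w566, w567, w568, w569,
  w570, w571, w572, w573, w574, w575, w576, w577, w578, w579, w580, w581, w582, w583, w584, w585,
  w586, w587, w588, w589, w590, w591, w592, w593, w594, w595, w596, w597, w598, w599, w600, w601,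
  w602, w603, w604]

noncomputable def we6 : List El7 := [
  .fj 2 552 ⟨1, 19, 18, 18, 0, 1, 0, 1000, 50, 450, 500, 1000, 1000, 0, 1806, 1417, -343, 0, 0⟩,
  .fj 1 141680 ⟨1, 20, 20, 20, 0, 1, 1, 527, 50, 450, 500, 1000, 1000, 93, 1671, 1587, -620, 0, 0⟩,
  .fj 1 141680 ⟨1, 20, 20, 20, 0, 1, 1, 1000, 50, 450, 500, 1000, 1000, 0, 1671, 1587, -613, 0, 0⟩,
  .fj 1 30360 ⟨1, 21, 21, 21, 7, 1, 0, 600, 1000, 500, 500, 1000, 1000, 73, 1725, 1404, -583, 0, 0⟩,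
  .fj 2 60720 ⟨1, 21, 20, 20, 0, 1, 1, 527, 250, 250, 500, 1000, 1000, 93, 1819, 1779, -520, 0, 0⟩,
  .fj 2 60720 ⟨1, 21, 20, 20, 0, 1, 1, 1000, 50, 450, 500, 1000, 1000, 0, 1865, 1762, -504, 0, 0⟩,
  .fj 1 480240 ⟨1, 22, 22, 22, 0, 1, 0, 1000, 50, 450, 500, 1000, 1000, 0, 1827, 1408, -677, 0, 0⟩,
  .fj 1 90480 ⟨1, 23, 23, 23, 7, 1, 0, 600, 1000, 500, 500, 1000, 1000, 73, 1885, 1534, -643, 0, 0⟩,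
  .fj 1 28048800 ⟨1, 24, 24, 24, 0, 1, 1, 527, 250, 250, 500, 1000, 1000, 93, 1855, 1835, -830, 0, 0⟩,
  .fj 1 28048800 ⟨1, 24, 24, 24, 0, 1, 1, 1000, 50, 450, 500, 1000, 1000, 0, 1902, 1818, -823, 0, 0⟩,
  .fj 1 2524392 ⟨1, 25, 25, 25, 7, 1, 0, 600, 1000, 500, 500, 1000, 1000, 73, 1980, 1599, -768, 0, 0⟩,
  .fj 2 3365856 ⟨1, 25, 24, 24, 0, 1, 1, 527, 250, 250, 500, 1000, 1000, 93, 2092, 2052, -688, 0, 0⟩,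
  .fj 2 3365856 ⟨1, 25, 24, 24, 0, 1, 0, 1000, 50, 450, 500, 1000, 1000, 0, 2138, 1658, -672, 0, 0⟩,
  .fj 2 3365856 ⟨1, 25, 24, 24, 0, 1, 1, 1000, 50, 450, 500, 1000, 1000, 0, 2138, 2035, -672, 0, 0⟩,
  .fj 1 129456 ⟨1, 26, 26, 26, 0, 1, 0, 1000, 50, 450, 500, 1000, 1000, 0, 2248, 1769, -696, 0, 0⟩,
  .fj 2 64728 ⟨1, 26, 25, 25, 1, 0, 1, 1000, 1000, 100, 900, 1000, 1000, 0, 1869, 2289, -589, 1450, 0⟩,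
  .fj 1 100688 ⟨1, 27, 27, 27, 7, 1, 0, 600, 1000, 500, 500, 1000, 1000, 73, 2265, 1854, -704, 0, 0⟩,
  .fj 2 503440 ⟨1, 27, 26, 26, 0, 1, 1, 1000, 50, 450, 500, 1000, 1000, 0, 2387, 2284, -644, 0, 0⟩,
  .fj 1 3193248 ⟨1, 28, 28, 28, 0, 1, 1, 527, 50, 450, 500, 1000, 1000, 93, 2347, 2264, -826, 0, 0⟩,
  .fj 1 3193248 ⟨1, 28, 28, 28, 0, 1, 1, 1000, 50, 450, 500, 1000, 1000, 0, 2347, 2264, -818, 0, 0⟩,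
  .fj 1 91760 ⟨1, 29, 29, 29, 1, 0, 1, 1000, 1000, 100, 900, 1000, 1000, 0, 2017, 2505, -747, 1617, 0⟩,
  .fj 1 91760 ⟨1, 29, 29, 29, 7, 1, 0, 600, 1000, 500, 500, 1000, 1000, 73, 2459, 2017, -730, 0, 0⟩,
  .fj 1 623968 ⟨1, 30, 30, 30, 0, 1, 0, 1000, 50, 450, 500, 1000, 1000, 0, 2586, 2046, -800, 0, 0⟩,
  .fj 1 27233184 ⟨1, 31, 31, 31, 7, 1, 0, 600, 1000, 500, 500, 1000, 1000, 73, 2486, 2014, -923, 0, 0⟩,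
  .fj 1 18155456 ⟨1, 32, 32, 32, 0, 1, 0, 1000, 50, 450, 500, 1000, 1000, 0, 2680, 2110, -926, 0, 0⟩,
  .fj 1 4435708 ⟨1, 33, 33, 33, 7, 1, 0, 600, 1000, 500, 500, 1000, 1000, 73, 2730, 2228, -900, 0, 0⟩,
  .fj 1 3123260280 ⟨1, 34, 34, 34, 0, 1, 1, 527, 250, 250, 500, 1000, 1000, 93, 2676, 2656, -1112, 0, 0⟩,
  .fj 1 3123260280 ⟨1, 34, 34, 34, 0, 1, 0, 1000, 50, 450, 500, 1000, 1000, 0, 2723, 2122, -1104, 0, 0⟩,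
  .fj 1 29745336 ⟨1, 35, 35, 35, 1, 0, 1, 1000, 1000, 100, 900, 1000, 1000, 0, 2333, 2912, -1001, 1949, 0⟩,
  .fj 1 29745336 ⟨1, 35, 35, 35, 7, 1, 1, 600, 1000, 500, 500, 1000, 1000, 73, 2866, 2866, -984, 0, 0⟩,
  .fj 1 12116266864 ⟨1, 36, 36, 36, 0, 1, 1, 527, 250, 250, 500, 1000, 1000, 93, 2828, 2808, -1180, 0, 0⟩,
  .fj 1 12116266864 ⟨1, 36, 36, 36, 0, 1, 0, 1000, 50, 450, 500, 1000, 1000, 0, 2875, 2244, -1172, 0, 0⟩,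
  .fj 1 3438400056 ⟨1, 37, 37, 37, 7, 1, 0, 600, 1000, 500, 500, 1000, 1000, 73, 2920, 2358, -1150, 0, 0⟩,
  .fj 1 120645616 ⟨1, 38, 38, 38, 0, 1, 1, 527, 50, 450, 500, 1000, 1000, 93, 3199, 3115, -1076, 0, 0⟩,
  .fj 1 120645616 ⟨1, 38, 38, 38, 0, 1, 1, 1000, 50, 450, 500, 1000, 1000, 0, 3199, 3115, -1068, 0, 0⟩,
  .fj 1 46402160 ⟨1, 39, 39, 39, 7, 1, 0, 600, 1000, 500, 500, 1000, 1000, 73, 3235, 2643, -1055, 0, 0⟩,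
  .fj 1 2951177376 ⟨1, 40, 40, 40, 0, 1, 1, 1000, 50, 450, 500, 1000, 1000, 0, 3298, 3214, -1190, 0, 0⟩,
  .fj 1 4 ⟨2, 3, 3, 3, 4, 0, 1, 63, 1000, 100, 900, 1000, 1000, 399, 191, 287, -117, 154, 0⟩,
  .fj 1 4 ⟨2, 3, 3, 3, 4, 0, 1, 125, 1000, 100, 900, 1000, 1000, 301, 191, 287, -116, 154, 0⟩,
  .fj 1 4 ⟨2, 3, 3, 3, 4, 0, 1, 250, 1000, 100, 900, 1000, 1000, 201, 191, 287, -113, 152, 0⟩,
  .fj 1 4 ⟨2, 5, 5, 5, 4, 0, 1, 63, 1000, 100, 900, 1000, 1000, 399, 359, 485, -140, 250, 0⟩,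
  .fj 1 4 ⟨2, 5, 5, 5, 4, 0, 1, 125, 1000, 100, 900, 1000, 1000, 301, 359, 485, -139, 249, 0⟩,
  .sw 0 2 (381) (-145),
  .sw 1 2 (381) (-145),
  .tw 0 2 (101) (27),
  .tw 0 3 (80) (13),
  .tw 0 4 (65) (4),
  .tw 0 5 (53) (-3),
  .tw 0 6 (43) (-9),
  .tw 0 7 (35) (-14),
  .tw 0 8 (27) (-18),
  .tw 0 9 (21) (-22),
  .tw 0 10 (15) (-25),
  .tw 0 11 (10) (-28),
  .tw 0 12 (5) (-31),
  .tw 0 13 (0) (-33),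
  .tw 0 14 (-4) (-36),
  .tw 0 15 (-8) (-38),
  .tw 0 16 (-11) (-40),
  .tw 0 17 (-15) (-41),
  .tw 0 18 (-18) (-43),
  .tw 0 19 (-21) (-45),
  .tw 0 20 (-24) (-46),
  .tw 0 21 (-27) (-48),
  .tw 1 2 (101) (27),
  .tw 1 3 (80) (13),
  .tw 1 4 (65) (4),
  .tw 1 5 (53) (-3),
  .tw 1 6 (43) (-9),
  .tw 1 7 (35) (-14),
  .tw 1 8 (27) (-18),
  .tw 1 9 (21) (-22),
  .tw 1 10 (15) (-25),
  .tw 1 11 (10) (-28),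
  .tw 1 12 (5) (-31),
  .tw 1 13 (0) (-33),
  .tw 1 14 (-4) (-36),
  .tw 1 15 (-8) (-38),
  .tw 1 16 (-11) (-40),
  .tw 1 17 (-15) (-41),
  .tw 1 18 (-18) (-43),
  .tw 1 19 (-21) (-45),
  .tw 1 20 (-24) (-46)]

theorem wt6_ok : ∀ w ∈ wt6, w.Ok := tab_ok7 we6 (by decide +kernel) (by decide +kernel)

noncomputable def v522 : VW := vw wt6_ok 0 w522 rfl
noncomputable def v523 : VW := vw wt6_ok 1 w523 rfl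
noncomputable def v524 : VW := vw wt6_ok 2 w524 rfl
noncomputable def v525 : VW := vw wt6_ok 3 w525 rfl
noncomputable def v526 : VW := vw wt6_ok 4 w526 rfl
noncomputable def v527 : VW := vw wt6_ok 5 w527 rfl
noncomputable def v528 : VW := vw wt6_ok 6 w528 rfl
noncomputable def v529 : VW := vw wt6_ok 7 w529 rfl
noncomputable def v530 : VW := vw wt6_ok 8 w530 rfl
noncomputable def v531 : VW := vw wt6_ok 9 w531 rfl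
noncomputable def v532 : VW := vw wt6_ok 10 w532 rfl
noncomputable def v533 : VW := vw wt6_ok 11 w533 rfl
noncomputable def v534 : VW := vw wt6_ok 12 w534 rfl
noncomputable def v535 : VW := vw wt6_ok 13 w535 rfl
noncomputable def v536 : VW := vw wt6_ok 14 w536 rfl
noncomputable def v537 : VW := vw wt6_ok 15 w537 rfl
noncomputable def v538 : VW := vw wt6_ok 16 w538 rfl
noncomputable def v539 : VW := vw wt6_ok 17 w539 rfl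
noncomputable def v540 : VW := vw wt6_ok 18 w540 rfl
noncomputable def v541 : VW := vw wt6_ok 19 w541 rfl
noncomputable def v542 : VW := vw wt6_ok 20 w542 rfl
noncomputable def v543 : VW := vw wt6_ok 21 w543 rfl
noncomputable def v544 : VW := vw wt6_ok 22 w544 rfl
noncomputable def v545 : VW := vw wt6_ok 23 w545 rfl
noncomputable def v546 : VW := vw wt6_ok 24 w546 rfl
noncomputable def v547 : VW := vw wt6_ok 25 w547 rfl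
noncomputable def v548 : VW := vw wt6_ok 26 w548 rfl
noncomputable def v549 : VW := vw wt6_ok 27 w549 rfl
noncomputable def v550 : VW := vw wt6_ok 28 w550 rfl
noncomputable def v551 : VW := vw wt6_ok 29 w551 rfl
noncomputable def v552 : VW := vw wt6_ok 30 w552 rfl
noncomputable def v553 : VW := vw wt6_ok 31 w553 rfl
noncomputable def v554 : VW := vw wt6_ok 32 w554 rfl
noncomputable def v555 : VW := vw wt6_ok 33 w555 rfl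
noncomputable def v556 : VW := vw wt6_ok 34 w556 rfl
noncomputable def v557 : VW := vw wt6_ok 35 w557 rfl
noncomputable def v558 : VW := vw wt6_ok 36 w558 rfl
noncomputable def v559 : VW := vw wt6_ok 37 w559 rfl
noncomputable def v560 : VW := vw wt6_ok 38 w560 rfl
noncomputable def v561 : VW := vw wt6_ok 39 w561 rfl
noncomputable def v562 : VW := vw wt6_ok 40 w562 rfl
noncomputable def v563 : VW := vw wt6_ok 41 w563 rfl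
noncomputable def v564 : VW := vw wt6_ok 42 w564 rfl
noncomputable def v565 : VW := vw wt6_ok 43 w565 rfl
noncomputable def v566 : VW := vw wt6_ok 44 w566 rfl
noncomputable def v567 : VW := vw wt6_ok 45 w567 rfl
noncomputable def v568 : VW := vw wt6_ok 46 w568 rfl
noncomputable def v569 : VW := vw wt6_ok 47 w569 rfl
noncomputable def v570 : VW := vw wt6_ok 48 w570 rfl
noncomputable def v571 : VW := vw wt6_ok 49 w571 rfl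
noncomputable def v572 : VW := vw wt6_ok 50 w572 rfl
noncomputable def v573 : VW := vw wt6_ok 51 w573 rfl
noncomputable def v574 : VW := vw wt6_ok 52 w574 rfl
noncomputable def v575 : VW := vw wt6_ok 53 w575 rfl
noncomputable def v576 : VW := vw wt6_ok 54 w576 rfl
noncomputable def v577 : VW := vw wt6_ok 55 w577 rfl
noncomputable def v578 : VW := vw wt6_ok 56 w578 rfl
noncomputable def v579 : VW := vw wt6_ok 57 w579 rfl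
noncomputable def v580 : VW := vw wt6_ok 58 w580 rfl
noncomputable def v581 : VW := vw wt6_ok 59 w581 rfl
noncomputable def v582 : VW := vw wt6_ok 60 w582 rfl
noncomputable def v583 : VW := vw wt6_ok 61 w583 rfl
noncomputable def v584 : VW := vw wt6_ok 62 w584 rfl
noncomputable def v585 : VW := vw wt6_ok 63 w585 rfl
noncomputable def v586 : VW := vw wt6_ok 64 w586 rfl
noncomputable def v587 : VW := vw wt6_ok 65 w587 rfl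
noncomputable def v588 : VW := vw wt6_ok 66 w588 rfl
noncomputable def v589 : VW := vw wt6_ok 67 w589 rfl
noncomputable def v590 : VW := vw wt6_ok 68 w590 rfl
noncomputable def v591 : VW := vw wt6_ok 69 w591 rfl
noncomputable def v592 : VW := vw wt6_ok 70 w592 rfl
noncomputable def v593 : VW := vw wt6_ok 71 w593 rfl
noncomputable def v594 : VW := vw wt6_ok 72 w594 rfl
noncomputable def v595 : VW := vw wt6_ok 73 w595 rfl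
noncomputable def v596 : VW := vw wt6_ok 74 w596 rfl
noncomputable def v597 : VW := vw wt6_ok 75 w597 rfl
noncomputable def v598 : VW := vw wt6_ok 76 w598 rfl
noncomputable def v599 : VW := vw wt6_ok 77 w599 rfl
noncomputable def v600 : VW := vw wt6_ok 78 w600 rfl
noncomputable def v601 : VW := vw wt6_ok 79 w601 rfl
noncomputable def v602 : VW := vw wt6_ok 80 w602 rfl
noncomputable def v603 : VW := vw wt6_ok 81 w603 rfl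
noncomputable def v604 : VW := vw wt6_ok 82 w604 rfl

end Pool.Agent.MP_2339ce_nt.Q2.TB.RT
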