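import Pool.Agent.MP_2339ce_nt.Q2.RTw0
import Pool.Agent.MP_2339ce_nt.Q2.RTw1
import Pool.Agent.MP_2339ce_nt.Q2.RTw2
import Pool.Agent.MP_2339ce_nt.Q2.RTw3
import Pool.Agent.MP_2339ce_nt.Q2.RTw4
import Pool.Agent.MP_2339ce_nt.Q2.RTw5
import Pool.Agent.MP_2339ce_nt.Q2.RTw6

/-! Project Q2, block RT: chains of windows. -/

set_option autoImplicit false

noncomputable section

namespace Pool.Agent.MP_2339ce_nt.Q2.TB.RT

def k8 (a b c d e f g h : VW) (r : List VW) : List VW :=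
  a :: b :: c :: d :: e :: f :: g :: h :: r

def k1 (a : VW) (r : List VW) : List VW := a :: r

def k0 : List VW := []


end Pool.Agent.MP_2339ce_nt.Q2.TB.RT
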