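import Pool.Agent.MP_2339ce_nt.Q2.Top2
import Pool.Agent.MP_2339ce_nt.Q2.CkDef
import Pool.Agent.MP_2339ce_nt.Q2.RSpec

/-! Project Q2, top: the check of one triple, and the regular triples. -/

set_option autoImplicit false

namespace Pool.Agent.MP_2339ce_nt.Q2.Top

open TB

theorem le16 {N r u : ℕ} (hN : N ≤ 256) (h : r ^ 2 + N = u) : u ≤ (r + 16) ^ 2 := by
  rw [← h, add_sq]
  omega

theorem ckG_ok (hG : RG.S_GEN) (Y W : ℕ) {N : ℕ} (hN : N ≤ 254) :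
    CkOk (ckG Y W) N fun _ b c => Y ^ 2 * b ^ 3 * c := by
  intro a b c d r s t x y z h hd hc
  refine hG N W a b c r s t _ d x y z _ hc ⟨h.hN, by omega, h.ab, h.bc, h.hr, h.hs, h.ht⟩
    ⟨h.cd, h.hx, h.hy, h.hz⟩ ?_
  change x ≤ Y * (t + 16) * (r + 16) ^ 2
  have h1 := le16 (by omega) h.hr
  have h2 := le16 (by omega) h.ht
  have ha : 1 ≤ a := Nat.pos_of_ne_zero fun g => by
    have := h.hr
    have := h.hN
    subst g
    omega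
  refine le_of_pow_le_pow_left₀ two_ne_zero (Nat.zero_le _) ?_
  calc x ^ 2 ≤ a * d := h.hx ▸ Nat.le_add_right _ _
    _ ≤ a * (a * (Y ^ 2 * b ^ 3 * c)) :=
      Nat.mul_le_mul_left a (hd.trans (Nat.le_mul_of_pos_left _ ha))
    _ = Y ^ 2 * (b * c) * (a * b) ^ 2 := by ring
    _ ≤ Y ^ 2 * (t + 16) ^ 2 * ((r + 16) ^ 2) ^ 2 := by gcongr
    _ = _ := by ring

theorem lstE {N G : ℕ} {st : List (ℕ × ℕ)} (hN : N ≤ 254) (h1 : RG.RegE N G st)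
    (h2 : ∀ (q : Qd) (e : ℤ), q.N = N → DQ.Qt (-q.N) q.a q.b q.c q.d e →
      q.c = q.a + q.b + 2 * q.r → (∃ u ∈ st, q.a ≤ u.1 ∧ q.b ≤ u.2) ∧ q.x ≤ G) : Lst true N := by
  intro q e hq hQ hr
  obtain ⟨⟨u, hu, k1, k2⟩, k3⟩ := h2 q e hq hQ (hr.1 rfl)
  have k4 := hr.1 rfl
  obtain ⟨a, b, c, d, r, s, t, x, y, z, ea, eb, ec, ed, er, -, -, ex, h⟩ := nat q N hq
  rw [hq, ea, eb, ec, ed] at hQ
  rw [ea, eb, ec, ed]
  have k5 := hQ.de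
  lift e to ℕ using by omega
  exact h1 a b c d e r s t x y z ⟨h.hN, by omega, h.ab, h.bc, h.hr, h.hs, h.ht⟩
    ⟨h.cd, h.hx, h.hy, h.hz⟩ (by omega) ⟨u, hu, by omega, by omega⟩ (by omega)
    (sq_of hQ.s4) (sq_of hQ.s7) (sq_of hQ.s9) (sq_of hQ.s10)

end Pool.Agent.MP_2339ce_nt.Q2.Top
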