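import Pool.Agent.MP_2339ce_nt.Q2.RJ
import Pool.Agent.MP_2339ce_nt.Q2.RTM
import Pool.Agent.MP_2339ce_nt.Q2.Top3
import Pool.Agent.MP_2339ce_nt.Q2.Top2

/-! Project Q2, top: the regular triples are listed. -/

set_option autoImplicit false

namespace Pool.Agent.MP_2339ce_nt.Q2.Top

open TB

theorem lstT (h : ∀ N : ℕ, 1 ≤ N → N ≤ 254 → N % 4 ≠ 2 → RG.Out csT N) (N : ℕ) (h1 : 1 ≤ N)
    (h2 : N ≤ 254) (h3 : N % 4 ≠ 2) : Lst true N := by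
  obtain ⟨c, hc, k1, k2, k3⟩ := h N h1 h2 h3
  refine lstE h2 k3 fun q e hq hQ hr => RT.csT_ok c hc q e ?_ ?_ hQ hr
  · rw [hq]; exact_mod_cast k1
  · rw [hq]; exact_mod_cast k2

end Pool.Agent.MP_2339ce_nt.Q2.Top
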