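import Pool.Agent.MP_2339ce_nt.Q2.RSpec

/-! Block REG: the walk through the tree of the regular triples. -/

set_option autoImplicit false

noncomputable section

namespace Pool.Agent.MP_2339ce_nt.Q2.RG

namespace TreeA

/-- the two children -/
def Cd (p q : ℕ × ℕ × ℕ) : Prop :=
  q = (p.1, p.1 + p.2.1, p.1 + p.2.1 + (p.2.2 + p.2.1)) ∨
  q = (p.2.2, p.2.2 + p.2.1, p.1 + p.2.1 + (p.2.2 + p.2.1))

theorem mono {p q : ℕ × ℕ × ℕ} (h : Relation.ReflTransGen Cd p q) (hp : p.1 ≤ p.2.2) :
    p.1 ≤ q.1 ∧ p.2.2 ≤ q.2.2 ∧ q.1 ≤ q.2.2 := by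
  induction h with
  | refl => exact ⟨le_rfl, le_rfl, hp⟩
  | tail _ h ih =>
    rcases h with rfl | rfl <;> dsimp only <;> omega

theorem dr_dr {a b : ℕ} (h : a ≤ b) (T : TL) : dr b (dr a T) = dr b T := by
  induction T with
  | nil => rfl
  | cons A B k ih =>
    have e : ∀ x, dr x (TL.cons A B k) =
      @Bool.rec (fun _ => TL) (dr x k) (TL.cons A B k) (Nat.ble x A) := fun _ => rfl
    cases h1 : Nat.ble a A
    · have h2 : Nat.ble b A = false := by
        rw [Bool.eq_false_iff, Ne, Nat.ble_eq] at h1 ⊢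
        omega
      rw [e a, e b, h1, h2]
      exact ih
    · rw [e a, h1]

variable (N : ℕ) (T : TL) (Bd : ℕ → ℕ → ℕ → Prop) (P : ℕ → ℕ → Prop)

/-- no descendant is bad -/
def Sub (a r b : ℕ) : Prop := ∀ q, Relation.ReflTransGen Cd (a, r, b) q → ¬ Bd q.1 q.2.1 q.2.2

/-- bad triples with first entry from `a` on have last entry below `c` -/
def Emp (a c : ℕ) : Prop := ∀ a' r' b', Bd a' r' b' → a ≤ a' → b' < c

/-- valid frames -/
structure Good (a r b R B : ℕ) (L : TL) : Prop where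
  eq : r ^ 2 + N = a * b
  le : a ≤ b
  ro : P r R
  bd : Emp Bd a (B + 1)
  vl : (L = TL.nil ∧ Emp Bd b (a + r + (b + r))) ∨ ∃ a0, a0 ≤ b ∧ L = dr a0 T

/-- all valid frames have clean subtrees -/
def AllS : SK → Prop
  | SK.nil => True
  | SK.cons a r b R B L k => (Good N T Bd P a r b R B L → Sub Bd a r b) ∧ AllS k

/-- the pair `a, r` has a clean subtree -/
def Dg (a r : ℕ) : Prop := ∀ b, r ^ 2 + N = a * b → a ≤ b → Sub Bd a r b

/-- all digits have clean subtrees -/
def Inv (S : ℕ) : Prop := ∀ i, Dg N Bd ((· / 1099511627776)^[i] S / 1048576 % 1048576)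
  ((· / 1099511627776)^[i] S % 1048576)

variable {N T Bd P}

theorem sub_of {a r b : ℕ} (h : ¬ Bd a r b) (h1 : Sub Bd a (a + r) (a + r + (b + r)))
    (h2 : Sub Bd b (b + r) (a + r + (b + r))) : Sub Bd a r b := fun q hq => by
  rcases hq.cases_head with rfl | ⟨_, rfl | rfl, hq⟩
  exacts [h, h1 q hq, h2 q hq]

theorem sub_emp {a r b : ℕ} (h : Emp Bd a b) (hab : a ≤ b) : Sub Bd a r b := fun q hq hb => by
  have h1 := mono hq hab
  exact absurd (h _ _ _ hb h1.1) (not_lt.2 h1.2.1)

theorem inv_iff {S : ℕ} : Inv N Bd S ↔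
    Dg N Bd (S / 1048576 % 1048576) (S % 1048576) ∧ Inv N Bd (S / 1099511627776) :=
  ⟨fun h => ⟨h 0, fun i => h (i + 1)⟩, fun h i => by
    cases i with
    | zero => exact h.1
    | succ i => exact h.2 i⟩

theorem inv_zero (hN : 1 ≤ N) : Inv N Bd 0 := fun i b h => by
  rw [Function.iterate_fixed (f := (· / 1099511627776)) (Nat.zero_div _)] at h
  omega

theorem cmp_ok (k : SK) : ∀ S, cmp k S = true → Inv N Bd S → AllS N T Bd P k := by
  induction k with
  | nil => exact fun _ _ _ => trivial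
  | cons a r b R B L k ih =>
    intro S h hS
    change @Bool.rec (fun _ => Bool) false (@Bool.rec (fun _ => Bool) false
      (cmp k (S / 1099511627776)) (Nat.beq r (S % 1048576)))
      (Nat.beq a (S / 1048576 % 1048576)) = true at h
    cases h1 : Nat.beq a (S / 1048576 % 1048576) <;> rw [h1] at h
    · exact absurd h Bool.false_ne_true
    cases h2 : Nat.beq r (S % 1048576) <;> rw [h2] at h
    · exact absurd h Bool.false_ne_true
    rw [inv_iff, ← Nat.eq_of_beq_eq_true h1, ← Nat.eq_of_beq_eq_true h2] at hS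
    exact ⟨fun g => hS.1 b g.eq g.le, ih _ h hS.2⟩

theorem pop_ok {ih : Lp} (H : ∀ a r b R B L k, ih a r b R B L k = true →
    AllS N T Bd P (SK.cons a r b R B L k)) (k : SK) (h : pop ih k = true) : AllS N T Bd P k := by
  cases k with
  | nil => trivial
  | cons a r b R B L k => exact H _ _ _ _ _ _ _ h

theorem t2_ok {Am : ℕ} {ro : ℕ → ℕ} {nd : Nd} (hN : 1 ≤ N) (hP : ∀ r, P r (ro r))
    (hn : ∀ a r b R S, nd a r b (a + r) (b + r) (a + r + (b + r)) R S = true → r ^ 2 + N = a * b →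
      P r R → P (a + r) S → ¬ Bd a r b)
    (hA : ∀ a r b, Bd a r b → a ≤ Am) (hT : ∀ a0 a r b, Bd a r b → a0 ≤ a → b ≤ hB (dr a0 T))
    {ih : Lp} (H : ∀ a r b R B L k, ih a r b R B L k = true → AllS N T Bd P (SK.cons a r b R B L k))
    (a r b R B : ℕ) (L : TL) (k : SK)
    (h : t2 Am ro nd ih a r b R B L k (a + r) (b + r) (a + r + (b + r)) (ro (a + r)) = true) :
    AllS N T Bd P (SK.cons a r b R B L k) := by
  unfold t2 at h
  cases h1 : nd a r b (a + r) (b + r) (a + r + (b + r)) R (ro (a + r)) <;> rw [h1] at h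
  · exact absurd h Bool.false_ne_true
  have nb : Good N T Bd P a r b R B L → ¬ Bd a r b := fun g => hn _ _ _ _ _ h1 g.eq g.ro (hP _)
  have e1 : Good N T Bd P a r b R B L → (a + r) ^ 2 + N = a * (a + r + (b + r)) := fun g => by
    have := g.eq
    nlinarith
  have e2 : Good N T Bd P a r b R B L → (b + r) ^ 2 + N = b * (a + r + (b + r)) := fun g => by
    have := g.eq
    nlinarith
  have nil : ∀ a0, a0 ≤ b → dr a0 T = TL.nil → Good N T Bd P a r b R B L →
      Emp Bd b (a + r + (b + r)) := fun a0 h0 h2 g a' r' b' hb hab => by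
    have h3 : b' ≤ hB TL.nil := h2 ▸ hT a0 a' r' b' hb (h0.trans hab)
    have h4 : b' ≤ 0 := h3
    have h5 : b ≠ 0 := fun e => by
      have := g.eq
      rw [e, Nat.mul_zero] at this
      omega
    omega
  have right : (Good N T Bd P a r b R B L → Emp Bd b (a + r + (b + r))) →
      ih a (a + r) (a + r + (b + r)) (ro (a + r)) B TL.nil k = true →
      AllS N T Bd P (SK.cons a r b R B L k) := fun hE h2 => by
    obtain ⟨h3, h4⟩ := H _ _ _ _ _ _ _ h2
    refine ⟨fun g => sub_of (nb g) (h3 ⟨e1 g, by omega, hP _, g.bd, .inl ⟨rfl, ?_⟩⟩)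
      (sub_emp (hE g) (by omega)), h4⟩
    intro a' r' b' hb hab
    have := hE g a' r' b' hb (by omega)
    omega
  cases h2 : Nat.ble (a + r + (b + r)) B <;> rw [h2] at h
  · rw [Bool.eq_false_iff, Ne, Nat.ble_eq] at h2
    refine ⟨fun g => ?_, pop_ok H k h⟩
    have h3 : Emp Bd a (a + r + (b + r)) := fun a' r' b' hb hab => by
      have := g.bd a' r' b' hb hab
      omega
    exact sub_of (nb g) (sub_emp h3 (by omega))
      (sub_emp (fun a' r' b' hb hab => h3 a' r' b' hb (g.le.trans hab)) (by omega))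
  cases L with
  | nil =>
    refine right (fun g => ?_) h
    rcases g.vl with h3 | ⟨a0, h3, h4⟩
    exacts [h3.2, nil a0 h3 h4.symm g]
  | cons A0 B0 L0 =>
    have dd : Good N T Bd P a r b R B (TL.cons A0 B0 L0) → dr b (TL.cons A0 B0 L0) = dr b T :=
      fun g => by
        rcases g.vl with h3 | ⟨a0, h3, h4⟩
        · exact absurd h3.1 TL.noConfusion
        · rw [h4, dr_dr h3]
    cases h3 : Nat.ble b Am <;> rw [h3] at h
    · rw [Bool.eq_false_iff, Ne, Nat.ble_eq] at h3
      refine right (fun _ a' r' b' hb hab => ?_) h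
      have := hA _ _ _ hb
      omega
    change t3 ro ih a b (a + r) (b + r) (a + r + (b + r)) (ro (a + r)) B k
      (dr b (TL.cons A0 B0 L0)) = true at h
    generalize dr b (TL.cons A0 B0 L0) = L' at h dd
    cases L' with
    | nil => exact right (fun g => nil b le_rfl (dd g).symm g) h
    | cons A1 B1 L1 =>
      have bd : Good N T Bd P a r b R B (TL.cons A0 B0 L0) → Emp Bd b (B1 + 1) :=
        fun g a' r' b' hb hab => Nat.lt_succ_of_le (by
          have := hT b a' r' b' hb hab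
          rwa [← dd g] at this)
      change @Bool.rec (fun _ => Bool) _ _ (Nat.ble (a + r + (b + r)) B1) = true at h
      cases h4 : Nat.ble (a + r + (b + r)) B1 <;> rw [h4] at h
      · rw [Bool.eq_false_iff, Ne, Nat.ble_eq] at h4
        refine right (fun g a' r' b' hb hab => ?_) h
        have := bd g a' r' b' hb hab
        omega
      obtain ⟨h5, h6, h7⟩ := H _ _ _ _ _ _ _ h
      exact ⟨fun g => sub_of (nb g)
        (h6 ⟨e1 g, by omega, hP _, g.bd, .inr ⟨b, by omega, dd g⟩⟩)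
        (h5 ⟨e2 g, by omega, hP _, bd g, .inr ⟨b, by omega, dd g⟩⟩), h7⟩

theorem dec_ok {ro : ℕ → ℕ} (hN : 1 ≤ N) (hP : ∀ r, P r (ro r))
    (hT : ∀ a0 a r b, Bd a r b → a0 ≤ a → b ≤ hB (dr a0 T)) (f : ℕ) :
    ∀ S, S < 1099511627776 ^ f → AllS N T Bd P (dec N ro T f S) → Inv N Bd S := by
  induction f with
  | zero =>
    intro S hS _
    obtain rfl : S = 0 := by omega
    exact inv_zero hN
  | succ f ih =>
    intro S hS h
    change AllS N T Bd P (@Bool.rec (fun _ => SK) (d1 N ro T (dec N ro T f (S / 1099511627776))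
      (S / 1048576 % 1048576) (S % 1048576)) SK.nil (Nat.beq S 0)) at h
    cases h1 : Nat.beq S 0 <;> rw [h1] at h
    swap
    · rw [Nat.eq_of_beq_eq_true h1]
      exact inv_zero hN
    refine inv_iff.2 ⟨?_, ih _ (Nat.div_lt_of_lt_mul (by rwa [pow_succ'] at hS)) h.2⟩
    have h2 := h.1
    generalize S / 1048576 % 1048576 = a at h2 ⊢
    generalize S % 1048576 = r at h2 ⊢
    intro b hb hab
    have h3 : Nat.div (Nat.add (Nat.mul r r) N) a = b := by
      have h4 : a ≠ 0 := fun e => by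
        rw [e, Nat.zero_mul] at hb
        omega
      change (r * r + N) / a = b
      rw [← sq, hb, Nat.mul_div_cancel_left _ (Nat.pos_of_ne_zero h4)]
    rw [h3] at h2
    exact h2 ⟨hb, hab, hP _, fun a' r' b' h5 h6 => Nat.lt_succ_of_le (hT _ _ _ _ h5 h6),
      .inr ⟨a, hab, rfl⟩⟩

theorem ps_ok {a S r : ℕ} (ha : a < 130) (hr : r < 130) (h : Inv N Bd (ps N a S r)) :
    Inv N Bd S ∧ Dg N Bd a r := by
  change Inv N Bd (@Bool.rec (fun _ => ℕ) S (@Bool.rec (fun _ => ℕ) S
    (S * 1099511627776 + (a * 1048576 + r)) (Nat.ble (a * a) (r * r + N)))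
    (Nat.beq ((r * r + N) % a) 0)) at h
  cases h1 : Nat.beq ((r * r + N) % a) 0 <;> rw [h1] at h
  · refine ⟨h, fun b hb _ => absurd ?_ (Nat.ne_of_beq_eq_false h1)⟩
    rw [← sq, hb, Nat.mul_mod_right]
  cases h2 : Nat.ble (a * a) (r * r + N) <;> rw [h2] at h
  · rw [Bool.eq_false_iff, Ne, Nat.ble_eq] at h2
    refine ⟨h, fun b hb hab => absurd ?_ h2⟩
    rw [← sq r, hb]
    exact Nat.mul_le_mul_left _ hab
  have h3 : Inv N Bd (S * 1099511627776 + (a * 1048576 + r)) := h
  rw [inv_iff, show (S * 1099511627776 + (a * 1048576 + r)) / 1048576 % 1048576 = a by omega,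
    show (S * 1099511627776 + (a * 1048576 + r)) % 1048576 = r by omega,
    show (S * 1099511627776 + (a * 1048576 + r)) / 1099511627776 = S by omega] at h3
  exact h3.symm

theorem inner_ok {a S : ℕ} (ha : a < 130) (n : ℕ) (hn : n ≤ a)
    (h : Inv N Bd (@Nat.rec (fun _ => ℕ) S (fun r S1 => ps N a S1 r) n)) :
    Inv N Bd S ∧ ∀ r < n, Dg N Bd a r := by
  induction n with
  | zero => exact ⟨h, fun r hr => absurd hr (Nat.not_lt_zero r)⟩
  | succ n ih =>
    obtain ⟨h1, h2⟩ := ps_ok (r := n) ha (by omega) h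
    obtain ⟨h3, h4⟩ := ih (by omega) h1
    refine ⟨h3, fun r hr => ?_⟩
    rcases Nat.lt_succ_iff_lt_or_eq.1 hr with h5 | rfl
    exacts [h4 r h5, h2]

theorem outer_ok (m : ℕ) (hm : m ≤ 130) (h : Inv N Bd (@Nat.rec (fun _ => ℕ) (nat_lit 0)
    (fun a S => @Nat.rec (fun _ => ℕ) S (fun r S1 => ps N a S1 r) a) m)) :
    ∀ a < m, ∀ r < a, Dg N Bd a r := by
  induction m with
  | zero => exact fun a ha => absurd ha (Nat.not_lt_zero a)
  | succ m ih =>
    obtain ⟨h1, h2⟩ := inner_ok (a := m) (by omega) m le_rfl h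
    intro a ha
    rcases Nat.lt_succ_iff_lt_or_eq.1 ha with h5 | rfl
    exacts [ih (by omega) h1 a h5, h2]

theorem desc (hN : 1 ≤ N) (hN' : N ≤ 256) (h : ∀ a < 130, ∀ r < a, Dg N Bd a r) (r : ℕ) :
    ∀ a, Dg N Bd a r := by
  induction r using Nat.strong_induction_on with
  | _ r ih =>
    intro a b hb hab
    rcases Nat.lt_or_ge r a with h1 | h1
    · refine h a ?_ r h1 b hb hab
      obtain ⟨c, rfl⟩ := Nat.exists_eq_add_of_lt h1
      nlinarith
    obtain ⟨r0, rfl⟩ := Nat.exists_eq_add_of_le h1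
    have h2 : a ≠ 0 := fun e => by
      rw [e, Nat.zero_mul] at hb
      omega
    have h3 : a + r0 + r0 ≤ b := by
      by_contra h4
      have h5 : a * b ≤ a * (a + r0 + r0) := Nat.mul_le_mul_left _ (by omega)
      nlinarith
    obtain ⟨c, rfl⟩ := Nat.exists_eq_add_of_le h3
    have h4 : r0 ^ 2 + N = a * c := by nlinarith
    intro q hq
    rcases Nat.le_total a c with h5 | h5
    · exact ih r0 (by omega) a c h4 h5 q (hq.head (.inl (by
        simp only [Prod.mk.injEq, true_and]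
        omega)))
    · exact ih r0 (by omega) c a (h4.trans (Nat.mul_comm a c)) h5 q (hq.head (.inr (by
        simp only [Prod.mk.injEq, true_and]
        omega)))

end TreeA

open TreeA in
theorem tree_ok : S_TREE := by
  intro N Am ro nd T Bd P hN hN' hP hn hA hT hc a r b hb hab
  have h1 : TreeA.Inv N Bd (roots N) := by
    refine hc _ (fun F s s' h hs => ?_) (inv_zero hN)
    unfold run at h
    cases h2 : Nat.ble (Nat.succ s) (Nat.pow (nat_lit 2) (nat_lit 4000)) <;> rw [h2] at h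
    · exact absurd h Bool.false_ne_true
    have h3 : s < 1099511627776 ^ 100 := by
      have h4 : s < 2 ^ (40 * 100) := Nat.le_of_ble_eq_true h2
      rwa [pow_mul] at h4
    refine dec_ok hN hP hT 100 s h3 (pop_ok ?_ _ h)
    clear h
    induction F with
    | zero => exact fun a r b R B L k h => cmp_ok _ _ h hs
    | succ F ih => exact fun a r b R B L k h => t2_ok hN hP hn hA hT ih a r b R B L k h
  exact desc hN hN' (outer_ok (nat_lit 130) le_rfl h1) r a b hb hab.le _ .refl

end Pool.Agent.MP_2339ce_nt.Q2.RG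

end
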