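import Pool.Agent.MP_2339ce_nt.Q2.HA7
import Pool.Agent.MP_2339ce_nt.Q2.RTV

/-! Project Q2, block RT: valid windows. -/

set_option autoImplicit false

noncomputable section

namespace Pool.Agent.MP_2339ce_nt.Q2.TB.RT

noncomputable def w0 : Wn := ⟨[⟨0, -59, 0, -1, 1, 0, 0, 0, 0⟩], [⟨3, 1011, 2, 0, 0, 0, 6, 6, 6⟩, ⟨3, 1011, 2, 0, 10, 0, 0, 2, 6⟩], [⟨11, 1164, -14, 4, 4, 4, -6, -6, -6⟩]⟩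
noncomputable def w1 : Wn := ⟨[⟨0, 58, 0, 0, 1, -1, 0, 0, 0⟩], [⟨3, 723, 2, 0, 0, 2, 0, 2, 0⟩], [⟨5, 480, -8, 0, 4, 2, 0, -4, 0⟩]⟩
noncomputable def w2 : Wn := ⟨[⟨0, -93, 0, -1, 1, 0, 0, 0, 0⟩, ⟨0, -93, 0, 0, -1, 1, 0, 0, 0⟩], [⟨5, 1600, 2, 0, 10, 0, 2, 0, 0⟩, ⟨5, 1600, 2, 0, 0, 10, 0, 0, 2⟩], [⟨11, 800, -16, 6, 6, 0, -10, 0, 0⟩, ⟨11, 800, -16, 6, 0, 6, 0, 0, -10⟩]⟩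
noncomputable def w3 : Wn := ⟨[], [⟨3, 440, 2, 0, 4, 0, 2, 0, 0⟩, ⟨3, 1270, 2, 4, 0, 0, 2, 0, 0⟩], [⟨7, 880, -10, 4, 4, 0, -6, 0, 0⟩]⟩
noncomputable def w4 : Wn := ⟨[], [⟨3, 250, 2, 0, 4, 0, 2, 0, 0⟩, ⟨3, 1090, 2, 4, 0, 0, 2, 0, 0⟩], [⟨7, 210, -10, 4, 4, 0, -6, 0, 0⟩]⟩
noncomputable def w5 : Wn := ⟨[], [⟨3, 810, 2, 0, 0, 0, 6, 0, 0⟩, ⟨3, 810, 2, 4, 0, 0, 2, 0, 0⟩], [⟨7, 880, -10, 4, 4, 0, -6, 0, 0⟩]⟩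
noncomputable def w6 : Wn := ⟨[], [⟨3, 620, 2, 0, 0, 0, 6, 0, 0⟩, ⟨3, 620, 2, 4, 0, 0, 2, 0, 0⟩], [⟨7, 210, -10, 4, 4, 0, -6, 0, 0⟩]⟩
noncomputable def w7 : Wn := ⟨[], [⟨3, 1470, 2, 0, 0, 0, 6, 0, 0⟩, ⟨3, 1470, 2, 4, 0, 0, 2, 0, 0⟩], [⟨7, 1060, -10, 4, 4, 0, -6, 0, 0⟩]⟩
noncomputable def w8 : Wn := ⟨[], [⟨5, 2720, 2, 0, 2, 0, 8, 0, 0⟩, ⟨5, 1620, 2, 0, 8, 0, 2, 0, 0⟩], [⟨9, 1110, -14, 6, 4, 0, -8, 0, 0⟩]⟩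
noncomputable def w9 : Wn := ⟨[], [⟨5, 2050, 2, 0, 2, 0, 8, 0, 0⟩, ⟨5, 1420, 2, 6, 2, 0, 2, 0, 0⟩], [⟨9, 930, -14, 6, 4, 0, -8, 0, 0⟩]⟩
noncomputable def w10 : Wn := ⟨[⟨0, -201, 0, -1, 1, 0, 0, 0, 0⟩], [⟨5, 970, 2, 0, 2, 0, 10, 0, 0⟩, ⟨5, 1830, 2, 8, 2, 0, 2, 0, 0⟩, ⟨8, 1240, -7, 3, 4, 0, 0, 0, 0⟩], [⟨11, 1600, -16, 6, 6, 0, -10, 0, 0⟩]⟩
noncomputable def w11 : Wn := ⟨[⟨0, -159, 0, -1, 1, 0, 0, 0, 0⟩], [⟨5, 970, 2, 0, 2, 0, 10, 0, 0⟩, ⟨5, 1830, 2, 8, 2, 0, 2, 0, 0⟩, ⟨8, 1290, -7, 3, 4, 0, 0, 0, 0⟩], [⟨11, 1600, -16, 6, 6, 0, -10, 0, 0⟩]⟩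
noncomputable def w12 : Wn := ⟨[⟨0, -93, 0, -1, 1, 0, 0, 0, 0⟩], [⟨5, 970, 2, 0, 2, 0, 10, 0, 0⟩, ⟨5, 1830, 2, 8, 2, 0, 2, 0, 0⟩, ⟨8, 1300, -7, 3, 4, 0, 0, 0, 0⟩], [⟨11, 1600, -16, 6, 6, 0, -10, 0, 0⟩]⟩
noncomputable def w13 : Wn := ⟨[⟨0, 99, 0, 1, -1, 0, 0, 0, 0⟩], [⟨5, 970, 2, 0, 2, 0, 10, 0, 0⟩, ⟨5, 620, 2, 2, 8, 0, 2, 0, 0⟩], [⟨11, 750, -16, 6, 6, 0, -10, 0, 0⟩]⟩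
noncomputable def w14 : Wn := ⟨[⟨0, 99, 0, 1, -1, 0, 0, 0, 0⟩], [⟨5, 970, 2, 0, 2, 0, 10, 0, 0⟩, ⟨5, 1470, 2, 2, 8, 0, 2, 0, 0⟩], [⟨11, 1600, -16, 6, 6, 0, -10, 0, 0⟩]⟩
noncomputable def w15 : Wn := ⟨[], [⟨7, 1500, 2, 0, 10, 0, 6, 0, 0⟩, ⟨7, 2310, 2, 12, 2, 0, 2, 0, 0⟩], [⟨13, 1540, -20, 6, 8, 0, -12, 0, 0⟩, ⟨10, 1490, -9, 3, 6, 0, 0, 0, 0⟩]⟩
noncomputable def w16 : Wn := ⟨[], [⟨7, 2090, 2, 0, 4, 0, 12, 0, 0⟩, ⟨7, 1840, 2, 12, 2, 0, 2, 0, 0⟩], [⟨13, 1540, -20, 6, 8, 0, -12, 0, 0⟩, ⟨10, 1490, -9, 3, 6, 0, 0, 0, 0⟩]⟩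
noncomputable def w17 : Wn := ⟨[], [⟨7, 2550, 2, 0, 4, 0, 12, 0, 0⟩, ⟨7, 1670, 2, 12, 2, 0, 2, 0, 0⟩], [⟨13, 1540, -20, 6, 8, 0, -12, 0, 0⟩, ⟨10, 1490, -9, 3, 6, 0, 0, 0, 0⟩]⟩
noncomputable def w18 : Wn := ⟨[⟨0, 99, 0, 1, -1, 0, 0, 0, 0⟩], [⟨7, 1890, 2, 0, 4, 0, 12, 0, 0⟩, ⟨7, 1470, 2, 2, 12, 0, 2, 0, 0⟩], [⟨13, 1340, -20, 8, 6, 0, -12, 0, 0⟩]⟩
noncomputable def w19 : Wn := ⟨[⟨0, 99, 0, 1, -1, 0, 0, 0, 0⟩], [⟨7, 1890, 2, 0, 4, 0, 12, 0, 0⟩, ⟨7, 1290, 2, 2, 12, 0, 2, 0, 0⟩], [⟨13, 670, -20, 8, 6, 0, -12, 0, 0⟩]⟩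
noncomputable def w20 : Wn := ⟨[⟨0, 99, 0, 1, -1, 0, 0, 0, 0⟩], [⟨7, 1890, 2, 0, 4, 0, 12, 0, 0⟩, ⟨7, 1900, 2, 10, 4, 0, 2, 0, 0⟩], [⟨13, 670, -20, 8, 6, 0, -12, 0, 0⟩]⟩
noncomputable def w21 : Wn := ⟨[], [⟨7, 1700, 2, 0, 12, 0, 6, 0, 0⟩, ⟨7, 2850, 2, 12, 4, 0, 2, 0, 0⟩], [⟨15, 1490, -22, 8, 8, 0, -14, 0, 0⟩]⟩
noncomputable def w22 : Wn := ⟨[], [⟨7, 1520, 2, 0, 12, 0, 6, 0, 0⟩, ⟨7, 2670, 2, 12, 4, 0, 2, 0, 0⟩], [⟨15, 830, -22, 8, 8, 0, -14, 0, 0⟩]⟩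
noncomputable def w23 : Wn := ⟨[], [⟨7, 2370, 2, 0, 12, 0, 6, 0, 0⟩, ⟨7, 3520, 2, 12, 4, 0, 2, 0, 0⟩], [⟨15, 1680, -22, 8, 8, 0, -14, 0, 0⟩]⟩
noncomputable def w24 : Wn := ⟨[], [⟨7, 2390, 2, 0, 4, 0, 14, 0, 0⟩, ⟨7, 2390, 2, 12, 4, 0, 2, 0, 0⟩], [⟨15, 1490, -22, 8, 8, 0, -14, 0, 0⟩]⟩
noncomputable def w25 : Wn := ⟨[], [⟨7, 2200, 2, 0, 4, 0, 14, 0, 0⟩, ⟨7, 2200, 2, 12, 4, 0, 2, 0, 0⟩], [⟨15, 830, -22, 8, 8, 0, -14, 0, 0⟩]⟩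
noncomputable def w26 : Wn := ⟨[], [⟨7, 3050, 2, 0, 4, 0, 14, 0, 0⟩, ⟨7, 3050, 2, 12, 4, 0, 2, 0, 0⟩], [⟨15, 1680, -22, 8, 8, 0, -14, 0, 0⟩]⟩
noncomputable def w27 : Wn := ⟨[⟨0, -201, 0, -1, 1, 0, 0, 0, 0⟩], [⟨9, 2640, 2, 0, 6, 0, 18, 0, 0⟩, ⟨9, 3510, 2, 16, 6, 0, 2, 0, 0⟩, ⟨14, 2270, -13, 5, 8, 0, 0, 0, 0⟩], [⟨19, 2120, -28, 10, 10, 0, -18, 0, 0⟩]⟩
noncomputable def w28 : Wn := ⟨[⟨0, -159, 0, -1, 1, 0, 0, 0, 0⟩], [⟨9, 2640, 2, 0, 6, 0, 18, 0, 0⟩, ⟨9, 3510, 2, 16, 6, 0, 2, 0, 0⟩, ⟨14, 2360, -13, 5, 8, 0, 0, 0, 0⟩], [⟨19, 2120, -28, 10, 10, 0, -18, 0, 0⟩]⟩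
noncomputable def w29 : Wn := ⟨[⟨0, -133, 0, -1, 1, 0, 0, 0, 0⟩], [⟨9, 2640, 2, 0, 6, 0, 18, 0, 0⟩, ⟨9, 3510, 2, 16, 6, 0, 2, 0, 0⟩, ⟨14, 2400, -13, 5, 8, 0, 0, 0, 0⟩], [⟨19, 2120, -28, 10, 10, 0, -18, 0, 0⟩]⟩
noncomputable def w30 : Wn := ⟨[⟨0, -93, 0, -1, 1, 0, 0, 0, 0⟩], [⟨9, 2640, 2, 0, 6, 0, 18, 0, 0⟩, ⟨9, 3510, 2, 16, 6, 0, 2, 0, 0⟩, ⟨14, 2400, -13, 5, 8, 0, 0, 0, 0⟩], [⟨19, 2120, -28, 10, 10, 0, -18, 0, 0⟩]⟩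
noncomputable def w31 : Wn := ⟨[⟨0, 99, 0, 1, -1, 0, 0, 0, 0⟩], [⟨9, 2640, 2, 0, 6, 0, 18, 0, 0⟩, ⟨9, 2170, 2, 6, 16, 0, 2, 0, 0⟩], [⟨19, 1940, -28, 10, 10, 0, -18, 0, 0⟩]⟩
noncomputable def w32 : Wn := ⟨[⟨0, 99, 0, 1, -1, 0, 0, 0, 0⟩], [⟨9, 2640, 2, 0, 6, 0, 18, 0, 0⟩, ⟨9, 1990, 2, 6, 16, 0, 2, 0, 0⟩], [⟨19, 1280, -28, 10, 10, 0, -18, 0, 0⟩]⟩
noncomputable def w33 : Wn := ⟨[⟨0, 99, 0, 1, -1, 0, 0, 0, 0⟩], [⟨9, 2640, 2, 0, 6, 0, 18, 0, 0⟩, ⟨9, 2830, 2, 6, 16, 0, 2, 0, 0⟩], [⟨19, 2120, -28, 10, 10, 0, -18, 0, 0⟩]⟩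
noncomputable def w34 : Wn := ⟨[⟨0, 99, 0, 1, -1, 0, 0, 0, 0⟩], [⟨9, 2640, 2, 0, 6, 0, 18, 0, 0⟩, ⟨9, 2840, 2, 16, 6, 0, 2, 0, 0⟩], [⟨19, 1940, -28, 10, 10, 0, -18, 0, 0⟩]⟩
noncomputable def w35 : Wn := ⟨[], [⟨11, 3040, 2, 0, 18, 0, 10, 0, 0⟩, ⟨11, 4160, 2, 20, 6, 0, 2, 0, 0⟩], [⟨21, 1910, -32, 10, 12, 0, -20, 0, 0⟩, ⟨16, 2450, -15, 5, 10, 0, 0, 0, 0⟩]⟩
noncomputable def w36 : Wn := ⟨[], [⟨11, 3920, 2, 0, 8, 0, 20, 0, 0⟩, ⟨11, 3690, 2, 20, 6, 0, 2, 0, 0⟩], [⟨21, 1910, -32, 10, 12, 0, -20, 0, 0⟩, ⟨16, 2450, -15, 5, 10, 0, 0, 0, 0⟩]⟩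
noncomputable def w37 : Wn := ⟨[], [⟨11, 4380, 2, 0, 8, 0, 20, 0, 0⟩, ⟨11, 3520, 2, 20, 6, 0, 2, 0, 0⟩], [⟨21, 1910, -32, 10, 12, 0, -20, 0, 0⟩, ⟨16, 2450, -15, 5, 10, 0, 0, 0, 0⟩]⟩
noncomputable def w38 : Wn := ⟨[⟨0, -399, 0, -1, 1, 0, 0, 0, 0⟩], [⟨11, 3720, 2, 0, 8, 0, 20, 0, 0⟩, ⟨11, 4580, 2, 18, 8, 0, 2, 0, 0⟩, ⟨16, 2430, -15, 6, 9, 0, 0, 0, 0⟩], [⟨21, 1900, -32, 12, 10, 0, -20, 0, 0⟩]⟩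
noncomputable def w39 : Wn := ⟨[⟨0, -301, 0, -1, 1, 0, 0, 0, 0⟩], [⟨11, 3720, 2, 0, 8, 0, 20, 0, 0⟩, ⟨11, 4580, 2, 18, 8, 0, 2, 0, 0⟩, ⟨16, 2480, -15, 6, 9, 0, 0, 0, 0⟩], [⟨21, 1900, -32, 12, 10, 0, -20, 0, 0⟩]⟩
noncomputable def w40 : Wn := ⟨[⟨0, 99, 0, 1, -1, 0, 0, 0, 0⟩], [⟨11, 3720, 2, 0, 8, 0, 20, 0, 0⟩, ⟨11, 3010, 2, 6, 20, 0, 2, 0, 0⟩], [⟨21, 1710, -32, 12, 10, 0, -20, 0, 0⟩]⟩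
noncomputable def w41 : Wn := ⟨[⟨0, 99, 0, 1, -1, 0, 0, 0, 0⟩], [⟨11, 3720, 2, 0, 8, 0, 20, 0, 0⟩, ⟨11, 3730, 2, 18, 8, 0, 2, 0, 0⟩], [⟨21, 1050, -32, 12, 10, 0, -20, 0, 0⟩]⟩
noncomputable def w42 : Wn := ⟨[], [⟨11, 2360, 2, 0, 20, 0, 10, 0, 0⟩, ⟨11, 3810, 2, 20, 8, 0, 2, 0, 0⟩], [⟨23, 2730, -34, 12, 12, 0, -22, 0, 0⟩]⟩
noncomputable def w43 : Wn := ⟨[], [⟨11, 2170, 2, 0, 20, 0, 10, 0, 0⟩, ⟨11, 3630, 2, 20, 8, 0, 2, 0, 0⟩], [⟨23, 2070, -34, 12, 12, 0, -22, 0, 0⟩]⟩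
noncomputable def w44 : Wn := ⟨[], [⟨11, 3020, 2, 0, 20, 0, 10, 0, 0⟩, ⟨11, 4480, 2, 20, 8, 0, 2, 0, 0⟩], [⟨23, 2920, -34, 12, 12, 0, -22, 0, 0⟩]⟩
noncomputable def w45 : Wn := ⟨[], [⟨11, 3350, 2, 0, 8, 0, 22, 0, 0⟩, ⟨11, 3350, 2, 20, 8, 0, 2, 0, 0⟩], [⟨23, 2730, -34, 12, 12, 0, -22, 0, 0⟩]⟩
noncomputable def w46 : Wn := ⟨[], [⟨11, 3160, 2, 0, 8, 0, 22, 0, 0⟩, ⟨11, 3160, 2, 20, 8, 0, 2, 0, 0⟩], [⟨23, 2070, -34, 12, 12, 0, -22, 0, 0⟩]⟩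
noncomputable def w47 : Wn := ⟨[], [⟨11, 3810, 2, 0, 8, 0, 22, 0, 0⟩, ⟨11, 2360, 2, 8, 20, 0, 2, 0, 0⟩], [⟨23, 2730, -34, 12, 12, 0, -22, 0, 0⟩]⟩
noncomputable def w48 : Wn := ⟨[], [⟨11, 3630, 2, 0, 8, 0, 22, 0, 0⟩, ⟨11, 2170, 2, 8, 20, 0, 2, 0, 0⟩], [⟨23, 2070, -34, 12, 12, 0, -22, 0, 0⟩]⟩
noncomputable def w49 : Wn := ⟨[⟨0, -201, 0, -1, 1, 0, 0, 0, 0⟩], [⟨13, 4750, 2, 0, 10, 0, 24, 0, 0⟩, ⟨13, 3860, 2, 24, 8, 0, 2, 0, 0⟩, ⟨19, 3720, -18, 18, 0, 0, 0, 0, 0⟩], [⟨25, 2620, -38, 12, 14, 0, -24, 0, 0⟩]⟩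
noncomputable def w50 : Wn := ⟨[], [⟨13, 4950, 2, 0, 10, 0, 24, 0, 0⟩, ⟨13, 3250, 2, 8, 24, 0, 2, 0, 0⟩], [⟨25, 2450, -38, 14, 12, 0, -24, 0, 0⟩]⟩
noncomputable def w51 : Wn := ⟨[⟨0, -201, 0, -1, 1, 0, 0, 0, 0⟩], [⟨13, 3220, 2, 0, 24, 0, 12, 0, 0⟩, ⟨13, 4860, 2, 24, 10, 0, 2, 0, 0⟩, ⟨20, 3310, -19, 7, 12, 0, 0, 0, 0⟩], [⟨27, 2760, -40, 14, 14, 0, -26, 0, 0⟩]⟩
noncomputable def w52 : Wn := ⟨[⟨0, -159, 0, -1, 1, 0, 0, 0, 0⟩], [⟨13, 3220, 2, 0, 24, 0, 12, 0, 0⟩, ⟨13, 4860, 2, 24, 10, 0, 2, 0, 0⟩, ⟨20, 3430, -19, 7, 12, 0, 0, 0, 0⟩], [⟨27, 2760, -40, 14, 14, 0, -26, 0, 0⟩]⟩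
noncomputable def w53 : Wn := ⟨[⟨0, -133, 0, -1, 1, 0, 0, 0, 0⟩], [⟨13, 3220, 2, 0, 24, 0, 12, 0, 0⟩, ⟨13, 4860, 2, 24, 10, 0, 2, 0, 0⟩, ⟨20, 3500, -19, 7, 12, 0, 0, 0, 0⟩], [⟨27, 2760, -40, 14, 14, 0, -26, 0, 0⟩]⟩
noncomputable def w54 : Wn := ⟨[⟨0, -93, 0, -1, 1, 0, 0, 0, 0⟩], [⟨13, 3220, 2, 0, 24, 0, 12, 0, 0⟩, ⟨13, 4860, 2, 24, 10, 0, 2, 0, 0⟩, ⟨20, 3500, -19, 7, 12, 0, 0, 0, 0⟩], [⟨27, 2760, -40, 14, 14, 0, -26, 0, 0⟩]⟩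
noncomputable def w55 : Wn := ⟨[], [⟨13, 3220, 2, 0, 24, 0, 12, 0, 0⟩, ⟨13, 4860, 2, 24, 10, 0, 2, 0, 0⟩, ⟨20, 3500, -19, 7, 12, 0, 0, 0, 0⟩], [⟨27, 2760, -40, 14, 14, 0, -26, 0, 0⟩]⟩
noncomputable def w56 : Wn := ⟨[⟨0, 99, 0, 1, -1, 0, 0, 0, 0⟩], [⟨13, 4190, 2, 0, 10, 0, 26, 0, 0⟩, ⟨13, 3420, 2, 10, 24, 0, 2, 0, 0⟩], [⟨27, 2590, -40, 14, 14, 0, -26, 0, 0⟩]⟩
noncomputable def w57 : Wn := ⟨[⟨0, 99, 0, 1, -1, 0, 0, 0, 0⟩], [⟨13, 4190, 2, 0, 10, 0, 26, 0, 0⟩, ⟨13, 4390, 2, 24, 10, 0, 2, 0, 0⟩], [⟨27, 2590, -40, 14, 14, 0, -26, 0, 0⟩]⟩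
noncomputable def w58 : Wn := ⟨[], [⟨15, 4070, 2, 0, 26, 0, 14, 0, 0⟩, ⟨15, 5500, 2, 28, 10, 0, 2, 0, 0⟩], [⟨29, 2780, -44, 14, 16, 0, -28, 0, 0⟩, ⟨22, 3400, -21, 7, 14, 0, 0, 0, 0⟩]⟩
noncomputable def w59 : Wn := ⟨[], [⟨15, 4270, 2, 0, 28, 0, 14, 0, 0⟩, ⟨15, 6030, 2, 28, 12, 0, 2, 0, 0⟩], [⟨31, 2710, -46, 16, 16, 0, -30, 0, 0⟩]⟩
noncomputable def w60 : Wn := ⟨[], [⟨15, 5570, 2, 0, 12, 0, 30, 0, 0⟩, ⟨15, 5570, 2, 28, 12, 0, 2, 0, 0⟩], [⟨31, 2710, -46, 16, 16, 0, -30, 0, 0⟩]⟩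
noncomputable def w61 : Wn := ⟨[], [⟨15, 6030, 2, 0, 12, 0, 30, 0, 0⟩, ⟨15, 4270, 2, 12, 28, 0, 2, 0, 0⟩], [⟨31, 2710, -46, 16, 16, 0, -30, 0, 0⟩]⟩
noncomputable def w62 : Wn := ⟨[⟨0, -93, 0, -1, 1, 0, 0, 0, 0⟩], [⟨17, 7060, 2, 0, 14, 0, 32, 0, 0⟩, ⟨17, 6180, 2, 32, 12, 0, 2, 0, 0⟩, ⟨25, 6000, -24, 24, 0, 0, 0, 0, 0⟩], [⟨33, 2520, -50, 16, 18, 0, -32, 0, 0⟩]⟩
noncomputable def w63 : Wn := ⟨[⟨0, -201, 0, -1, 1, 0, 0, 0, 0⟩], [⟨17, 4220, 2, 0, 32, 0, 16, 0, 0⟩, ⟨17, 6160, 2, 32, 14, 0, 2, 0, 0⟩, ⟨26, 4340, -25, 9, 16, 0, 0, 0, 0⟩], [⟨35, 3660, -52, 18, 18, 0, -34, 0, 0⟩]⟩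
noncomputable def w64 : Wn := ⟨[⟨0, -159, 0, -1, 1, 0, 0, 0, 0⟩], [⟨17, 4220, 2, 0, 32, 0, 16, 0, 0⟩, ⟨17, 6160, 2, 32, 14, 0, 2, 0, 0⟩, ⟨26, 4490, -25, 9, 16, 0, 0, 0, 0⟩], [⟨35, 3660, -52, 18, 18, 0, -34, 0, 0⟩]⟩
noncomputable def w65 : Wn := ⟨[⟨0, -133, 0, -1, 1, 0, 0, 0, 0⟩], [⟨17, 4220, 2, 0, 32, 0, 16, 0, 0⟩, ⟨17, 6160, 2, 32, 14, 0, 2, 0, 0⟩, ⟨26, 4610, -25, 9, 16, 0, 0, 0, 0⟩], [⟨35, 3660, -52, 18, 18, 0, -34, 0, 0⟩]⟩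
noncomputable def w66 : Wn := ⟨[⟨0, -93, 0, -1, 1, 0, 0, 0, 0⟩], [⟨17, 4220, 2, 0, 32, 0, 16, 0, 0⟩, ⟨17, 6160, 2, 32, 14, 0, 2, 0, 0⟩, ⟨26, 4610, -25, 9, 16, 0, 0, 0, 0⟩], [⟨35, 3660, -52, 18, 18, 0, -34, 0, 0⟩]⟩
noncomputable def w67 : Wn := ⟨[⟨0, -201, 0, -1, 1, 0, 0, 0, 0⟩], [⟨17, 4220, 2, 0, 32, 0, 16, 0, 0⟩, ⟨17, 6160, 2, 32, 14, 0, 2, 0, 0⟩], [⟨35, 3660, -52, 18, 18, 0, -34, 0, 0⟩, ⟨26, 3940, -25, 9, 16, 0, 0, 0, 0⟩]⟩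
noncomputable def w68 : Wn := ⟨[⟨0, 99, 0, 1, -1, 0, 0, 0, 0⟩], [⟨17, 5500, 2, 0, 14, 0, 34, 0, 0⟩, ⟨17, 4420, 2, 14, 32, 0, 2, 0, 0⟩], [⟨35, 3490, -52, 18, 18, 0, -34, 0, 0⟩]⟩
noncomputable def w69 : Wn := ⟨[], [⟨19, 5000, 2, 0, 34, 0, 18, 0, 0⟩, ⟨19, 6740, 2, 36, 14, 0, 2, 0, 0⟩], [⟨37, 3760, -56, 18, 20, 0, -36, 0, 0⟩, ⟨28, 4350, -27, 9, 18, 0, 0, 0, 0⟩]⟩
noncomputable def w70 : Wn := ⟨[], [⟨19, 4770, 2, 0, 36, 0, 16, 0, 0⟩, ⟨19, 6950, 2, 34, 16, 0, 2, 0, 0⟩, ⟨28, 5040, -27, 10, 17, 0, 0, 0, 0⟩], [⟨37, 3730, -56, 20, 18, 0, -36, 0, 0⟩]⟩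
noncomputable def w71 : Wn := ⟨[], [⟨19, 5200, 2, 0, 36, 0, 18, 0, 0⟩, ⟨19, 7270, 2, 36, 16, 0, 2, 0, 0⟩], [⟨39, 3690, -58, 20, 20, 0, -38, 0, 0⟩]⟩
noncomputable def w72 : Wn := ⟨[⟨0, -201, 0, -1, 1, 0, 0, 0, 0⟩], [⟨21, 5480, 2, 0, 40, 0, 20, 0, 0⟩, ⟨21, 7730, 2, 40, 18, 0, 2, 0, 0⟩, ⟨32, 5370, -31, 11, 20, 0, 0, 0, 0⟩], [⟨43, 4300, -64, 22, 22, 0, -42, 0, 0⟩]⟩
noncomputable def w73 : Wn := ⟨[⟨0, -159, 0, -1, 1, 0, 0, 0, 0⟩], [⟨21, 5480, 2, 0, 40, 0, 20, 0, 0⟩, ⟨21, 7730, 2, 40, 18, 0, 2, 0, 0⟩, ⟨32, 5560, -31, 11, 20, 0, 0, 0, 0⟩], [⟨43, 4300, -64, 22, 22, 0, -42, 0, 0⟩]⟩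
noncomputable def w74 : Wn := ⟨[⟨0, -133, 0, -1, 1, 0, 0, 0, 0⟩], [⟨21, 5480, 2, 0, 40, 0, 20, 0, 0⟩, ⟨21, 7730, 2, 40, 18, 0, 2, 0, 0⟩, ⟨32, 5710, -31, 11, 20, 0, 0, 0, 0⟩], [⟨43, 4300, -64, 22, 22, 0, -42, 0, 0⟩]⟩
noncomputable def w75 : Wn := ⟨[⟨0, -93, 0, -1, 1, 0, 0, 0, 0⟩], [⟨21, 5480, 2, 0, 40, 0, 20, 0, 0⟩, ⟨21, 7730, 2, 40, 18, 0, 2, 0, 0⟩, ⟨32, 5710, -31, 11, 20, 0, 0, 0, 0⟩], [⟨43, 4300, -64, 22, 22, 0, -42, 0, 0⟩]⟩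
noncomputable def w76 : Wn := ⟨[⟨0, 99, 0, 1, -1, 0, 0, 0, 0⟩], [⟨21, 7060, 2, 0, 18, 0, 42, 0, 0⟩, ⟨21, 5680, 2, 18, 40, 0, 2, 0, 0⟩], [⟨43, 4130, -64, 22, 22, 0, -42, 0, 0⟩]⟩
noncomputable def w77 : Wn := ⟨[], [⟨23, 6790, 2, 0, 42, 0, 22, 0, 0⟩, ⟨23, 8830, 2, 44, 18, 0, 2, 0, 0⟩], [⟨45, 3870, -68, 22, 24, 0, -44, 0, 0⟩, ⟨34, 5300, -33, 11, 22, 0, 0, 0, 0⟩]⟩
noncomputable def w78 : Wn := ⟨[⟨0, -201, 0, -1, 1, 0, 0, 0, 0⟩], [⟨23, 6560, 2, 0, 44, 0, 20, 0, 0⟩, ⟨23, 9040, 2, 42, 20, 0, 2, 0, 0⟩, ⟨34, 5730, -33, 12, 21, 0, 0, 0, 0⟩], [⟨45, 3840, -68, 24, 22, 0, -44, 0, 0⟩]⟩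
noncomputable def w79 : Wn := ⟨[], [⟨23, 6670, 2, 0, 44, 0, 22, 0, 0⟩, ⟨23, 9040, 2, 44, 20, 0, 2, 0, 0⟩], [⟨47, 4110, -70, 24, 24, 0, -46, 0, 0⟩]⟩
noncomputable def w80 : Wn := ⟨[], [⟨25, 10380, 2, 0, 22, 0, 48, 0, 0⟩, ⟨25, 9750, 2, 46, 22, 0, 2, 0, 0⟩], [⟨49, 3630, -74, 26, 24, 0, -48, 0, 0⟩]⟩
noncomputable def w81 : Wn := ⟨[⟨0, -201, 0, -1, 1, 0, 0, 0, 0⟩], [⟨25, 7190, 2, 0, 48, 0, 24, 0, 0⟩, ⟨25, 9740, 2, 48, 22, 0, 2, 0, 0⟩, ⟨38, 6410, -37, 13, 24, 0, 0, 0, 0⟩], [⟨51, 4490, -76, 26, 26, 0, -50, 0, 0⟩]⟩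
noncomputable def w82 : Wn := ⟨[⟨0, -159, 0, -1, 1, 0, 0, 0, 0⟩], [⟨25, 7190, 2, 0, 48, 0, 24, 0, 0⟩, ⟨25, 9740, 2, 48, 22, 0, 2, 0, 0⟩, ⟨38, 6630, -37, 13, 24, 0, 0, 0, 0⟩], [⟨51, 4490, -76, 26, 26, 0, -50, 0, 0⟩]⟩
noncomputable def w83 : Wn := ⟨[⟨0, -133, 0, -1, 1, 0, 0, 0, 0⟩], [⟨25, 7190, 2, 0, 48, 0, 24, 0, 0⟩, ⟨25, 9740, 2, 48, 22, 0, 2, 0, 0⟩, ⟨38, 6810, -37, 13, 24, 0, 0, 0, 0⟩], [⟨51, 4490, -76, 26, 26, 0, -50, 0, 0⟩]⟩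
noncomputable def w84 : Wn := ⟨[⟨0, -93, 0, -1, 1, 0, 0, 0, 0⟩], [⟨25, 7190, 2, 0, 48, 0, 24, 0, 0⟩, ⟨25, 9740, 2, 48, 22, 0, 2, 0, 0⟩, ⟨38, 6810, -37, 13, 24, 0, 0, 0, 0⟩], [⟨51, 4490, -76, 26, 26, 0, -50, 0, 0⟩]⟩
noncomputable def w85 : Wn := ⟨[], [⟨27, 7730, 2, 0, 50, 0, 26, 0, 0⟩, ⟨27, 10070, 2, 52, 22, 0, 2, 0, 0⟩], [⟨53, 4830, -80, 26, 28, 0, -52, 0, 0⟩, ⟨40, 6250, -39, 13, 26, 0, 0, 0, 0⟩]⟩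
noncomputable def w86 : Wn := ⟨[], [⟨27, 7930, 2, 0, 52, 0, 26, 0, 0⟩, ⟨27, 10600, 2, 52, 24, 0, 2, 0, 0⟩], [⟨55, 4760, -82, 28, 28, 0, -54, 0, 0⟩]⟩

noncomputable def wt0 : List Wn := [
  w0, w1, w2, w3, w4, w5, w6, w7, w8, w9, w10, w11, w12, w13, w14, w15, w16, w17, w18, w19, w20,
  w21, w22, w23, w24, w25, w26, w27, w28, w29, w30, w31, w32, w33, w34, w35, w36, w37, w38, w39,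
  w40, w41, w42, w43, w44, w45, w46, w47, w48, w49, w50, w51, w52, w53, w54, w55, w56, w57, w58,
  w59, w60, w61, w62, w63, w64, w65, w66, w67, w68, w69, w70, w71, w72, w73, w74, w75, w76, w77,
  w78, w79, w80, w81, w82, w83, w84, w85, w86]

noncomputable def we0 : List El7 := [
  .old 0 0,
  .old 1 1,
  .old 0 2,
  .fm 2 ⟨0, 1, 2, 2, 0, 0, 1, 1000, 450, 50, 500, 1000, 1000, 0, 44, 127, -88, 0, 0⟩,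
  .fm 2 ⟨0, 1, 2, 2, 0, 0, 1, 1000, 855, 95, 50, 1000, 1000, 0, 25, 109, -21, 0, 0⟩,
  .fm 2 ⟨0, 1, 2, 2, 0, 1, 1, 1000, 250, 250, 500, 1000, 1000, 0, 81, 81, -88, 0, 0⟩,
  .fm 2 ⟨0, 1, 2, 2, 0, 1, 1, 1000, 475, 475, 50, 1000, 1000, 0, 62, 62, -21, 0, 0⟩,
  .fm 2 ⟨0, 1, 2, 2, 0, 1, 1, 1000, 25, 25, 950, 1000, 1000, 0, 147, 147, -106, 0, 0⟩,
  .fm 2 ⟨0, 2, 3, 2, 0, 1, 0, 1000, 5, 45, 950, 1000, 1000, 0, 272, 162, -111, 0, 0⟩,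
  .fm 2 ⟨0, 2, 3, 2, 0, 1, 1, 1000, 50, 450, 500, 1000, 1000, 0, 205, 142, -93, 0, 0⟩,
  .fm 6 ⟨0, 2, 3, 3, 2, 1, 1, 250, 1000, 50, 950, 1000, 1000, 201, 97, 183, -160, 124, 0⟩,
  .fm 6 ⟨0, 2, 3, 3, 2, 1, 1, 334, 1000, 50, 950, 1000, 1000, 159, 97, 183, -160, 129, 0⟩,
  .fm 6 ⟨0, 2, 3, 3, 2, 1, 1, 527, 1000, 50, 950, 1000, 1000, 93, 97, 183, -160, 130, 0⟩,
  .fm 6 ⟨0, 2, 3, 3, 7, 1, 0, 1000, 1000, 950, 50, 1000, 1000, 0, 97, 62, -75, 0, 0⟩,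
  .fm 6 ⟨0, 2, 3, 3, 7, 1, 0, 1000, 1000, 50, 950, 1000, 1000, 0, 97, 147, -160, 0, 0⟩,
  .fm 4 ⟨0, 3, 3, 4, 3, 0, 1, 1000, 900, 100, 1000, 1000, 1000, 0, 150, 231, -154, 149, 0⟩,
  .fm 4 ⟨0, 3, 3, 4, 3, 1, 1, 1000, 500, 500, 1000, 1000, 1000, 0, 209, 184, -154, 149, 0⟩,
  .fm 4 ⟨0, 3, 3, 4, 3, 1, 1, 1000, 100, 900, 1000, 1000, 1000, 0, 255, 167, -154, 149, 0⟩,
  .fm 4 ⟨0, 3, 4, 3, 7, 1, 0, 1000, 1000, 500, 500, 1000, 1000, 0, 189, 147, -134, 0, 0⟩,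
  .fm 4 ⟨0, 3, 4, 3, 7, 1, 0, 1000, 1000, 950, 50, 1000, 1000, 0, 189, 129, -67, 0, 0⟩,
  .fm 4 ⟨0, 3, 4, 3, 7, 1, 1, 1000, 1000, 950, 50, 1000, 1000, 0, 189, 190, -67, 0, 0⟩,
  .fm 4 ⟨0, 3, 4, 4, 0, 0, 1, 1000, 450, 50, 500, 1000, 1000, 0, 170, 285, -149, 0, 0⟩,
  .fm 4 ⟨0, 3, 4, 4, 0, 0, 1, 1000, 855, 95, 50, 1000, 1000, 0, 152, 267, -83, 0, 0⟩,
  .fm 4 ⟨0, 3, 4, 4, 0, 0, 1, 1000, 45, 5, 950, 1000, 1000, 0, 237, 352, -168, 0, 0⟩,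
  .fm 4 ⟨0, 3, 4, 4, 0, 1, 1, 1000, 250, 250, 500, 1000, 1000, 0, 239, 239, -149, 0, 0⟩,
  .fm 4 ⟨0, 3, 4, 4, 0, 1, 1, 1000, 475, 475, 50, 1000, 1000, 0, 220, 220, -83, 0, 0⟩,
  .fm 4 ⟨0, 3, 4, 4, 0, 1, 1, 1000, 25, 25, 950, 1000, 1000, 0, 305, 305, -168, 0, 0⟩,
  .fm 10 ⟨0, 4, 5, 5, 2, 1, 1, 250, 1000, 50, 950, 1000, 1000, 201, 264, 351, -212, 227, 0⟩,
  .fm 10 ⟨0, 4, 5, 5, 2, 1, 1, 334, 1000, 50, 950, 1000, 1000, 159, 264, 351, -212, 236, 0⟩,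
  .fm 10 ⟨0, 4, 5, 5, 2, 1, 1, 400, 1000, 50, 950, 1000, 1000, 133, 264, 351, -212, 240, 0⟩,
  .fm 10 ⟨0, 4, 5, 5, 2, 1, 1, 527, 1000, 50, 950, 1000, 1000, 93, 264, 351, -212, 240, 0⟩,
  .fm 10 ⟨0, 4, 5, 5, 7, 1, 0, 1000, 1000, 500, 500, 1000, 1000, 0, 264, 217, -194, 0, 0⟩,
  .fm 10 ⟨0, 4, 5, 5, 7, 1, 0, 1000, 1000, 950, 50, 1000, 1000, 0, 264, 199, -128, 0, 0⟩,
  .fm 10 ⟨0, 4, 5, 5, 7, 1, 0, 1000, 1000, 50, 950, 1000, 1000, 0, 264, 283, -212, 0, 0⟩,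
  .fm 10 ⟨0, 4, 5, 5, 7, 1, 1, 1000, 1000, 500, 500, 1000, 1000, 0, 264, 284, -194, 0, 0⟩,
  .fm 4 ⟨0, 5, 5, 6, 3, 0, 1, 1000, 900, 100, 1000, 1000, 1000, 0, 304, 416, -191, 245, 0⟩,
  .fm 4 ⟨0, 5, 5, 6, 3, 1, 1, 1000, 500, 500, 1000, 1000, 1000, 0, 392, 369, -191, 245, 0⟩,
  .fm 4 ⟨0, 5, 5, 6, 3, 1, 1, 1000, 100, 900, 1000, 1000, 1000, 0, 438, 352, -191, 245, 0⟩,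
  .fm 4 ⟨0, 5, 6, 5, 2, 1, 1, 63, 1000, 50, 950, 1000, 1000, 399, 372, 458, -190, 243, 0⟩,
  .fm 4 ⟨0, 5, 6, 5, 2, 1, 1, 125, 1000, 50, 950, 1000, 1000, 301, 372, 458, -190, 248, 0⟩,
  .fm 4 ⟨0, 5, 6, 5, 7, 1, 0, 1000, 1000, 500, 500, 1000, 1000, 0, 372, 301, -171, 0, 0⟩,
  .fm 4 ⟨0, 5, 6, 5, 7, 1, 1, 1000, 1000, 950, 50, 1000, 1000, 0, 372, 373, -105, 0, 0⟩,
  .fm 84 ⟨0, 5, 6, 6, 0, 0, 1, 1000, 450, 50, 500, 1000, 1000, 0, 236, 381, -273, 0, 0⟩,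
  .fm 84 ⟨0, 5, 6, 6, 0, 0, 1, 1000, 855, 95, 50, 1000, 1000, 0, 217, 363, -207, 0, 0⟩,
  .fm 84 ⟨0, 5, 6, 6, 0, 0, 1, 1000, 45, 5, 950, 1000, 1000, 0, 302, 448, -292, 0, 0⟩,
  .fm 84 ⟨0, 5, 6, 6, 0, 1, 1, 1000, 250, 250, 500, 1000, 1000, 0, 335, 335, -273, 0, 0⟩,
  .fm 84 ⟨0, 5, 6, 6, 0, 1, 1, 1000, 475, 475, 50, 1000, 1000, 0, 316, 316, -207, 0, 0⟩,
  .fm 84 ⟨0, 5, 6, 6, 0, 1, 0, 1000, 50, 450, 500, 1000, 1000, 0, 381, 236, -273, 0, 0⟩,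
  .fm 84 ⟨0, 5, 6, 6, 0, 1, 0, 1000, 95, 855, 50, 1000, 1000, 0, 363, 217, -207, 0, 0⟩,
  .fm 28 ⟨0, 6, 6, 7, 2, 1, 1, 250, 100, 1000, 900, 1000, 1000, 201, 475, 386, -262, 0, 372⟩,
  .fm 28 ⟨0, 6, 7, 6, 0, 1, 0, 1000, 50, 450, 500, 1000, 1000, 0, 495, 325, -245, 0, 0⟩,
  .fm 28 ⟨0, 6, 7, 7, 2, 0, 1, 250, 1000, 100, 900, 1000, 1000, 201, 322, 486, -276, 331, 0⟩,
  .fm 28 ⟨0, 6, 7, 7, 2, 0, 1, 334, 1000, 100, 900, 1000, 1000, 159, 322, 486, -276, 343, 0⟩,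
  .fm 28 ⟨0, 6, 7, 7, 2, 0, 1, 400, 1000, 100, 900, 1000, 1000, 133, 322, 486, -276, 350, 0⟩,
  .fm 28 ⟨0, 6, 7, 7, 2, 0, 1, 527, 1000, 100, 900, 1000, 1000, 93, 322, 486, -276, 350, 0⟩,
  .fm 28 ⟨0, 6, 7, 7, 1, 0, 1, 1000, 1000, 100, 900, 1000, 1000, 0, 322, 486, -276, 350, 0⟩,
  .fm 28 ⟨0, 6, 7, 7, 7, 1, 0, 1000, 1000, 500, 500, 1000, 1000, 0, 419, 342, -259, 0, 0⟩,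
  .fm 28 ⟨0, 6, 7, 7, 7, 1, 1, 1000, 1000, 500, 500, 1000, 1000, 0, 419, 439, -259, 0, 0⟩,
  .fm 24 ⟨0, 7, 7, 8, 3, 0, 1, 1000, 900, 100, 1000, 1000, 1000, 0, 407, 550, -278, 340, 0⟩,
  .fm 24 ⟨0, 7, 8, 8, 0, 0, 1, 1000, 450, 50, 500, 1000, 1000, 0, 427, 603, -271, 0, 0⟩,
  .fm 24 ⟨0, 7, 8, 8, 0, 1, 1, 1000, 250, 250, 500, 1000, 1000, 0, 557, 557, -271, 0, 0⟩,
  .fm 24 ⟨0, 7, 8, 8, 0, 1, 0, 1000, 50, 450, 500, 1000, 1000, 0, 603, 427, -271, 0, 0⟩,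
  .fm 6 ⟨0, 8, 8, 9, 2, 1, 1, 527, 100, 1000, 900, 1000, 1000, 93, 706, 618, -252, 0, 600⟩,
  .fm 198 ⟨0, 8, 9, 9, 2, 0, 1, 250, 1000, 100, 900, 1000, 1000, 201, 422, 616, -366, 434, 0⟩,
  .fm 198 ⟨0, 8, 9, 9, 2, 0, 1, 334, 1000, 100, 900, 1000, 1000, 159, 422, 616, -366, 449, 0⟩,
  .fm 198 ⟨0, 8, 9, 9, 2, 0, 1, 400, 1000, 100, 900, 1000, 1000, 133, 422, 616, -366, 461, 0⟩,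
  .fm 198 ⟨0, 8, 9, 9, 2, 0, 1, 527, 1000, 100, 900, 1000, 1000, 93, 422, 616, -366, 461, 0⟩,
  .fm 198 ⟨0, 8, 9, 9, 4, 0, 1, 250, 1000, 100, 900, 1000, 1000, 201, 422, 616, -366, 394, 0⟩,
  .fm 198 ⟨0, 8, 9, 9, 7, 1, 0, 1000, 1000, 500, 500, 1000, 1000, 0, 550, 442, -349, 0, 0⟩,
  .fm 220 ⟨0, 9, 9, 10, 3, 0, 1, 1000, 900, 100, 1000, 1000, 1000, 0, 500, 674, -376, 435, 0⟩,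
  .fm 220 ⟨0, 9, 10, 9, 1, 0, 1, 1000, 1000, 100, 900, 1000, 1000, 0, 477, 695, -373, 504, 0⟩,
  .fm 220 ⟨0, 9, 10, 10, 0, 0, 1, 1000, 450, 50, 500, 1000, 1000, 0, 520, 727, -369, 0, 0⟩,
  .fm 572 ⟨0, 10, 11, 11, 2, 0, 1, 250, 1000, 100, 900, 1000, 1000, 201, 548, 773, -430, 537, 0⟩,
  .fm 572 ⟨0, 10, 11, 11, 2, 0, 1, 334, 1000, 100, 900, 1000, 1000, 159, 548, 773, -430, 556, 0⟩,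
  .fm 572 ⟨0, 10, 11, 11, 2, 0, 1, 400, 1000, 100, 900, 1000, 1000, 133, 548, 773, -430, 571, 0⟩,
  .fm 572 ⟨0, 10, 11, 11, 2, 0, 1, 527, 1000, 100, 900, 1000, 1000, 93, 548, 773, -430, 571, 0⟩,
  .fm 572 ⟨0, 10, 11, 11, 7, 1, 0, 1000, 1000, 500, 500, 1000, 1000, 0, 706, 568, -413, 0, 0⟩,
  .fm 104 ⟨0, 11, 11, 12, 3, 0, 1, 1000, 900, 100, 1000, 1000, 1000, 0, 679, 883, -387, 530, 0⟩,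
  .fm 104 ⟨0, 11, 12, 11, 2, 0, 1, 250, 1000, 100, 900, 1000, 1000, 201, 656, 904, -384, 573, 0⟩,
  .fm 312 ⟨0, 11, 12, 12, 0, 0, 1, 1000, 450, 50, 500, 1000, 1000, 0, 667, 904, -411, 0, 0⟩,
  .fm 52 ⟨0, 12, 13, 12, 0, 1, 1, 1000, 50, 450, 500, 1000, 1000, 0, 1038, 975, -363, 0, 0⟩,
  .fm 364 ⟨0, 12, 13, 13, 2, 0, 1, 250, 1000, 100, 900, 1000, 1000, 201, 719, 974, -449, 641, 0⟩,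
  .fm 364 ⟨0, 12, 13, 13, 2, 0, 1, 334, 1000, 100, 900, 1000, 1000, 159, 719, 974, -449, 663, 0⟩,
  .fm 364 ⟨0, 12, 13, 13, 2, 0, 1, 400, 1000, 100, 900, 1000, 1000, 133, 719, 974, -449, 681, 0⟩,
  .fm 364 ⟨0, 12, 13, 13, 2, 0, 1, 527, 1000, 100, 900, 1000, 1000, 93, 719, 974, -449, 681, 0⟩,
  .fm 952 ⟨0, 13, 13, 14, 3, 0, 1, 1000, 900, 100, 1000, 1000, 1000, 0, 773, 1007, -483, 625, 0⟩,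
  .fm 952 ⟨0, 13, 14, 14, 0, 0, 1, 1000, 450, 50, 500, 1000, 1000, 0, 793, 1060, -476, 0, 0⟩]

theorem wt0_ok : ∀ w ∈ wt0, w.Ok := tab_ok7 we0 (by decide +kernel) (by decide +kernel)

noncomputable def v0 : VW := vw wt0_ok 0 w0 rfl
noncomputable def v1 : VW := vw wt0_ok 1 w1 rfl
noncomputable def v2 : VW := vw wt0_ok 2 w2 rfl
noncomputable def v3 : VW := vw wt0_ok 3 w3 rfl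
noncomputable def v4 : VW := vw wt0_ok 4 w4 rfl
noncomputable def v5 : VW := vw wt0_ok 5 w5 rfl
noncomputable def v6 : VW := vw wt0_ok 6 w6 rfl
noncomputable def v7 : VW := vw wt0_ok 7 w7 rfl
noncomputable def v8 : VW := vw wt0_ok 8 w8 rfl
noncomputable def v9 : VW := vw wt0_ok 9 w9 rfl
noncomputable def v10 : VW := vw wt0_ok 10 w10 rfl
noncomputable def v11 : VW := vw wt0_ok 11 w11 rfl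
noncomputable def v12 : VW := vw wt0_ok 12 w12 rfl
noncomputable def v13 : VW := vw wt0_ok 13 w13 rfl
noncomputable def v14 : VW := vw wt0_ok 14 w14 rfl
noncomputable def v15 : VW := vw wt0_ok 15 w15 rfl
noncomputable def v16 : VW := vw wt0_ok 16 w16 rfl
noncomputable def v17 : VW := vw wt0_ok 17 w17 rfl
noncomputable def v18 : VW := vw wt0_ok 18 w18 rfl
noncomputable def v19 : VW := vw wt0_ok 19 w19 rfl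
noncomputable def v20 : VW := vw wt0_ok 20 w20 rfl
noncomputable def v21 : VW := vw wt0_ok 21 w21 rfl
noncomputable def v22 : VW := vw wt0_ok 22 w22 rfl
noncomputable def v23 : VW := vw wt0_ok 23 w23 rfl
noncomputable def v24 : VW := vw wt0_ok 24 w24 rfl
noncomputable def v25 : VW := vw wt0_ok 25 w25 rfl
noncomputable def v26 : VW := vw wt0_ok 26 w26 rfl
noncomputable def v27 : VW := vw wt0_ok 27 w27 rfl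
noncomputable def v28 : VW := vw wt0_ok 28 w28 rfl
noncomputable def v29 : VW := vw wt0_ok 29 w29 rfl
noncomputable def v30 : VW := vw wt0_ok 30 w30 rfl
noncomputable def v31 : VW := vw wt0_ok 31 w31 rfl
noncomputable def v32 : VW := vw wt0_ok 32 w32 rfl
noncomputable def v33 : VW := vw wt0_ok 33 w33 rfl
noncomputable def v34 : VW := vw wt0_ok 34 w34 rfl
noncomputable def v35 : VW := vw wt0_ok 35 w35 rfl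
noncomputable def v36 : VW := vw wt0_ok 36 w36 rfl
noncomputable def v37 : VW := vw wt0_ok 37 w37 rfl
noncomputable def v38 : VW := vw wt0_ok 38 w38 rfl
noncomputable def v39 : VW := vw wt0_ok 39 w39 rfl
noncomputable def v40 : VW := vw wt0_ok 40 w40 rfl
noncomputable def v41 : VW := vw wt0_ok 41 w41 rfl
noncomputable def v42 : VW := vw wt0_ok 42 w42 rfl
noncomputable def v43 : VW := vw wt0_ok 43 w43 rfl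
noncomputable def v44 : VW := vw wt0_ok 44 w44 rfl
noncomputable def v45 : VW := vw wt0_ok 45 w45 rfl
noncomputable def v46 : VW := vw wt0_ok 46 w46 rfl
noncomputable def v47 : VW := vw wt0_ok 47 w47 rfl
noncomputable def v48 : VW := vw wt0_ok 48 w48 rfl
noncomputable def v49 : VW := vw wt0_ok 49 w49 rfl
noncomputable def v50 : VW := vw wt0_ok 50 w50 rfl
noncomputable def v51 : VW := vw wt0_ok 51 w51 rfl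
noncomputable def v52 : VW := vw wt0_ok 52 w52 rfl
noncomputable def v53 : VW := vw wt0_ok 53 w53 rfl
noncomputable def v54 : VW := vw wt0_ok 54 w54 rfl
noncomputable def v55 : VW := vw wt0_ok 55 w55 rfl
noncomputable def v56 : VW := vw wt0_ok 56 w56 rfl
noncomputable def v57 : VW := vw wt0_ok 57 w57 rfl
noncomputable def v58 : VW := vw wt0_ok 58 w58 rfl
noncomputable def v59 : VW := vw wt0_ok 59 w59 rfl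
noncomputable def v60 : VW := vw wt0_ok 60 w60 rfl
noncomputable def v61 : VW := vw wt0_ok 61 w61 rfl
noncomputable def v62 : VW := vw wt0_ok 62 w62 rfl
noncomputable def v63 : VW := vw wt0_ok 63 w63 rfl
noncomputable def v64 : VW := vw wt0_ok 64 w64 rfl
noncomputable def v65 : VW := vw wt0_ok 65 w65 rfl
noncomputable def v66 : VW := vw wt0_ok 66 w66 rfl
noncomputable def v67 : VW := vw wt0_ok 67 w67 rfl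
noncomputable def v68 : VW := vw wt0_ok 68 w68 rfl
noncomputable def v69 : VW := vw wt0_ok 69 w69 rfl
noncomputable def v70 : VW := vw wt0_ok 70 w70 rfl
noncomputable def v71 : VW := vw wt0_ok 71 w71 rfl
noncomputable def v72 : VW := vw wt0_ok 72 w72 rfl
noncomputable def v73 : VW := vw wt0_ok 73 w73 rfl
noncomputable def v74 : VW := vw wt0_ok 74 w74 rfl
noncomputable def v75 : VW := vw wt0_ok 75 w75 rfl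
noncomputable def v76 : VW := vw wt0_ok 76 w76 rfl
noncomputable def v77 : VW := vw wt0_ok 77 w77 rfl
noncomputable def v78 : VW := vw wt0_ok 78 w78 rfl
noncomputable def v79 : VW := vw wt0_ok 79 w79 rfl
noncomputable def v80 : VW := vw wt0_ok 80 w80 rfl
noncomputable def v81 : VW := vw wt0_ok 81 w81 rfl
noncomputable def v82 : VW := vw wt0_ok 82 w82 rfl
noncomputable def v83 : VW := vw wt0_ok 83 w83 rfl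
noncomputable def v84 : VW := vw wt0_ok 84 w84 rfl
noncomputable def v85 : VW := vw wt0_ok 85 w85 rfl
noncomputable def v86 : VW := vw wt0_ok 86 w86 rfl

end Pool.Agent.MP_2339ce_nt.Q2.TB.RT
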