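import Pool.Agent.MP_2339ce_nt.Q2.TBSpec

/-! Project Q2, block TB: the value of a class in the inverse variables. -/

set_option autoImplicit false

namespace Pool.Agent.MP_2339ce_nt.Q2.TB

namespace ConvP

theorem root {a b r N : ℤ} (ha : 1 ≤ a) (hb : 1 ≤ b) (hr : 0 ≤ r) (h : r ^ 2 = a * b - N) {u : ℝ}
    (hu : u = (1 / √(a : ℝ)) ^ 2 * (1 / √(b : ℝ)) ^ 2 * (N / 4)) :
    (r : ℝ) = √(a : ℝ) * √(b : ℝ) * √(1 - 4 * u) := by
  have ha' : (0 : ℝ) < a := by exact_mod_cast ha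
  have hb' : (0 : ℝ) < b := by exact_mod_cast hb
  have h' : (r : ℝ) ^ 2 = a * b - N := by exact_mod_cast h
  rw [← Real.sqrt_mul ha'.le, ← Real.sqrt_mul (mul_pos ha' hb').le, hu, div_pow, div_pow,
    Real.sq_sqrt ha'.le, Real.sq_sqrt hb'.le, eq_comm, Real.sqrt_eq_cases, ← sq, h']
  exact Or.inl ⟨by field_simp, by exact_mod_cast hr⟩

theorem pw {A : ℝ} (hA : 0 < A) {e h : ℕ} (he : e ≤ h) : (1 / A) ^ (h - e) = A ^ e * (1 / A) ^ h := by
  obtain ⟨w, rfl⟩ := Nat.exists_eq_add_of_le he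
  rw [Nat.add_sub_cancel_left, pow_add, ← mul_assoc, ← mul_pow, mul_one_div_cancel hA.ne', one_pow,
    one_mul]

theorem gate (g : Bool) {r : ℤ} {A B ρ : ℝ} (h : (r : ℝ) = A * B * ρ) :
    ((if g then r else 1 : ℤ) : ℝ) = A ^ bn g * B ^ bn g * if g then ρ else 1 := by
  cases g <;> simp [bn, h]

variable (q : Qd)

theorem last (v : ℕ) : ((if v = 0 then q.x else if v = 1 then q.y else q.z : ℤ) : ℝ) =
    √(q.a : ℝ) ^ bn (Nat.beq v 0) * √(q.b : ℝ) ^ bn (Nat.beq v 1) * √(q.c : ℝ) ^ bn (Nat.ble 2 v) *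
      √(q.d : ℝ) * √(1 - 4 * mon q.pt (sV v).i (sV v).j (sV v).k (sV v).l 1) := by
  have := q.ha
  have := q.hb
  have := q.hc
  have := q.hd
  rcases v with _ | _ | v
  · rw [if_pos rfl, root (N := q.N) q.ha (by omega) q.x0 q.hx
      (u := mon q.pt 2 0 0 2 1) (by simp [mon, Qd.pt])]
    simp [bn, sV, Nat.beq, Nat.ble]
  · rw [if_neg (by omega), if_pos rfl, root (N := q.N) (by omega) (by omega) q.y0 q.hy
      (u := mon q.pt 0 2 0 2 1) (by simp [mon, Qd.pt])]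
    simp [bn, sV, Nat.beq, Nat.ble]
  · rw [if_neg (by omega), if_neg (by omega), root (N := q.N) (by omega) (by omega) q.z0 q.hz
      (u := mon q.pt 0 0 2 2 1) (by simp [mon, Qd.pt])]
    simp [bn, sV, Nat.beq, Nat.ble]

theorem term (h : ℕ) (C : Cl) (u : T0) (h0 : e0 C u ≤ h) (h1 : e1 C u ≤ h) (h2 : e2 C u ≤ h) :
    ev q.pt (mk (u.c * 4 ^ u.l) (h - e0 C u) (h - e1 C u) (h - e2 C u) 0 u.l) = (u.val q : ℝ) *
      (√(q.a : ℝ) ^ (bn (Nat.beq C.v 0) + bn C.gr + bn C.gs) *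
        √(q.b : ℝ) ^ (bn (Nat.beq C.v 1) + bn C.gr + bn C.gt) *
        √(q.c : ℝ) ^ (bn (Nat.ble 2 C.v) + bn C.gs + bn C.gt) * √(q.d : ℝ) *
        mon q.pt h h h 1 0) := by
  have := q.ha
  have := q.hb
  have := q.hc
  have := q.hd
  have a0 : (0 : ℝ) < q.a := by exact_mod_cast (by omega : 0 < q.a)
  have b0 : (0 : ℝ) < q.b := by exact_mod_cast (by omega : 0 < q.b)
  have c0 : (0 : ℝ) < q.c := by exact_mod_cast (by omega : 0 < q.c)
  have d0 : √(q.d : ℝ) ≠ 0 := (Real.sqrt_pos.2 (by exact_mod_cast (by omega : 0 < q.d))).ne'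
  simp only [ev, mk, mon, Qd.pt, T0.val]
  rw [pw (Real.sqrt_pos.2 a0) h0, pw (Real.sqrt_pos.2 b0) h1, pw (Real.sqrt_pos.2 c0) h2]
  simp only [e0, e1, e2, pow_add, pow_mul, Real.sq_sqrt a0.le, Real.sq_sqrt b0.le,
    Real.sq_sqrt c0.le, div_pow (q.N : ℝ)]
  push_cast
  field_simp

end ConvP

open ConvP in
theorem conv_ok : S_CONV := by
  intro h C q hok
  have := q.ha
  have := q.hb
  have := q.hc
  simp only [okH, List.all_cons, List.all_nil, Bool.and_true, List.all_eq_true, Bool.and_eq_true,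
    Nat.ble_eq] at hok
  rw [evL, conv, List.map_map, Function.comp_def, List.map_congr_left fun u hu =>
    term q h C u (hok u hu).1.1 (hok u hu).1.2 (hok u hu).2, List.sum_map_mul_right, Cl.val]
  rw [Int.cast_mul, Int.cast_mul, Int.cast_mul, Int.cast_mul, Int.cast_list_sum, List.map_map,
    last, gate _ (root (N := q.N) q.ha (by omega) q.r0 q.hr (u := mon q.pt 2 2 0 0 1)
      (by simp [mon, Qd.pt])),
    gate _ (root (N := q.N) q.ha (by omega) q.s0 q.hs (u := mon q.pt 2 0 2 0 1)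
      (by simp [mon, Qd.pt])),
    gate _ (root (N := q.N) (by omega) (by omega) q.t0 q.ht (u := mon q.pt 0 2 2 0 1)
      (by simp [mon, Qd.pt]))]
  simp only [pow_add, Function.comp_def]
  ring

end Pool.Agent.MP_2339ce_nt.Q2.TB
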