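import Pool.Agent.MP_2339ce_nt.Q2.TBSpec

set_option autoImplicit false

noncomputable section

namespace Pool.Agent.MP_2339ce_nt.Q2.TB

namespace Exp

/-- the approximation together with the sign of the error terms -/
def Inv (x : Pt) (w : ℝ) (X : List Tm × List Tm) : Prop := (∀ t ∈ X.2, 0 ≤ t.c) ∧ Ap x w X

theorem pos (q : Qd) : q.pt.Pos := by
  have h : ∀ u : ℤ, 1 ≤ u → 0 < 1 / √(u : ℝ) := fun u hu =>
    one_div_pos.2 (Real.sqrt_pos.2 (by exact_mod_cast hu))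
  have := q.ha
  have := q.hb
  have := q.hc
  have := q.hd
  refine ⟨h _ (by omega), h _ (by omega), h _ (by omega), h _ (by omega), ?_⟩
  have : (0 : ℝ) < q.N := by exact_mod_cast q.hN
  exact div_pos this four_pos

theorem small {N u v : ℤ} (hu : 1 ≤ u) (hv : 1 ≤ v) (h : 2 * N ≤ u * v) :
    8 * ((1 / √(u : ℝ)) ^ 2 * (1 / √(v : ℝ)) ^ 2 * ((N : ℝ) / 4)) ≤ 1 := by
  have a : (0 : ℝ) < u := by exact_mod_cast hu
  have b : (0 : ℝ) < v := by exact_mod_cast hv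
  have c : 2 * (N : ℝ) ≤ u * v := by exact_mod_cast h
  rw [div_pow, div_pow, Real.sq_sqrt a.le, Real.sq_sqrt b.le,
    show 8 * (1 ^ 2 / (u : ℝ) * (1 ^ 2 / v) * (N / 4)) = 2 * N / (u * v) by field_simp; ring]
  exact div_le_one_of_le₀ c (mul_pos a b).le

theorem step (h1 : S_MG) (h3 : S_TAYL) (h4 : S_MUL) {x : Pt} (hx : x.Pos) {w : ℝ} (g : Bool)
    (s : St) (K : ℕ) {cap : ℕ} (hc : cap ≤ 20) (hs : 8 * mon x s.i s.j s.k s.l 1 ≤ 1)
    {X : List Tm × List Tm} (h : Inv x w X) :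
    Inv x (w * if g then √(1 - 4 * mon x s.i s.j s.k s.l 1) else 1) (mulR g s K cap X) := by
  cases g
  · rw [if_neg Bool.false_ne_true, mul_one]
    exact h
  · exact h4 h3 h1 x w s K cap X.1 X.2 hx hc hs h.1 h.2

theorem cls (h1 : S_MG) (h3 : S_TAYL) (h4 : S_MUL) (h5 : S_CONV) {h K cap : ℕ} (hK : K ≤ 19)
    (hc : cap ≤ 20) (q : Qd) (hq : 2 * q.N ≤ q.a * q.b) (C : Cl) (hC : okH h [C] = true) :
    Inv q.pt (C.val q * mon q.pt h h h 1 0) (expC h K cap C) := by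
  have ha := q.ha
  have hb := q.hb
  have hc' := q.hc
  have hd := q.hd
  have m : ∀ u v : ℤ, q.a ≤ u → q.b ≤ v →
      8 * ((1 / √(u : ℝ)) ^ 2 * (1 / √(v : ℝ)) ^ 2 * ((q.N : ℝ) / 4)) ≤ 1 := fun u v hu hv =>
    small (by omega) (by omega) (hq.trans (mul_le_mul hu hv (by omega) (by omega)))
  have r : 8 * mon q.pt sR.i sR.j sR.k sR.l 1 ≤ 1 := by
    simpa [mon, sR, Qd.pt] using m q.a q.b le_rfl le_rfl
  have s : 8 * mon q.pt sS.i sS.j sS.k sS.l 1 ≤ 1 := by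
    simpa [mon, sS, Qd.pt] using m q.a q.c le_rfl hc'.le
  have t : 8 * mon q.pt sT.i sT.j sT.k sT.l 1 ≤ 1 := by
    simpa [mon, sT, Qd.pt] using m q.b q.c hb.le hc'.le
  have v : 8 * mon q.pt (sV C.v).i (sV C.v).j (sV C.v).k (sV C.v).l 1 ≤ 1 := by
    unfold sV
    split_ifs
    · simpa [mon, Qd.pt] using m q.a q.d le_rfl (by omega)
    · simpa [mon, Qd.pt] using m q.b q.d hb.le (by omega)
    · simpa [mon, Qd.pt] using m q.c q.d (by omega) (by omega)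
  have i0 : Inv q.pt (evL q.pt (conv h C)) (conv h C, []) :=
    ⟨fun _ ht => absurd ht List.not_mem_nil, by simp [Ap, evA]⟩
  have k : K + 1 ≤ 20 := by omega
  rw [h5 h C q hC]
  exact step h1 h3 h4 (pos q) true _ K hc v (step h1 h3 h4 (pos q) C.gt sT K k t
    (step h1 h3 h4 (pos q) C.gs sS K k s (step h1 h3 h4 (pos q) C.gr sR K k r i0)))

theorem add (h1 : S_MG) {x : Pt} (hx : x.Pos) {w w' : ℝ} {X Y : List Tm × List Tm}
    (hX : Inv x w X) (hY : Inv x w' Y) : Inv x (w + w') (add2 X Y) := by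
  obtain ⟨e1, e2⟩ := (h1 x 100000 X.2 Y.2 hx).2.2 hX.1 hY.1
  refine ⟨e1, ?_⟩
  show |w + w' - evL x (mg 100000 X.1 Y.1)| ≤ evA x (mg 100000 X.2 Y.2)
  rw [e2, (h1 x 100000 X.1 Y.1 hx).1, add_sub_add_comm]
  exact (abs_add_le _ _).trans (add_le_add hX.2 hY.2)

end Exp

theorem exp_ok (h1 : S_MG) (h2 : S_EQ) (h3 : S_TAYL) (h4 : S_MUL) (h5 : S_CONV) : S_EXP := by
  intro h K cap F P E hF q hq
  simp only [expOK, Bool.and_eq_true, Nat.ble_eq] at hF
  obtain ⟨⟨⟨⟨k1, k2⟩, k3⟩, k4⟩, k5⟩ := hF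
  have key : ∀ F : List Cl, okH h F = true →
      Exp.Inv q.pt (W q F * mon q.pt h h h 1 0) (expand h K cap F) := fun F => by
    induction F with
    | nil => exact fun _ => ⟨fun _ ht => absurd ht List.not_mem_nil, by
        show |_ - evL _ []| ≤ evA _ []
        simp [W, evL, evA]⟩
    | cons C F ih =>
      intro hF
      have e : okH h (C :: F) = (okH h [C] && okH h F) := by
        simp only [okH, List.all_cons, List.all_nil, Bool.and_true]
      rw [e, Bool.and_eq_true] at hF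
      have := Exp.add h1 (Exp.pos q) (Exp.cls h1 h3 h4 h5 k2 k3 q hq C hF.1) (ih hF.2)
      rwa [← add_mul, ← Int.cast_add] at this
  have := (key F k1).2
  rw [Ap, (h2 q.pt _ _ k4).1, (h2 q.pt _ _ k5).2] at this
  exact this

end Pool.Agent.MP_2339ce_nt.Q2.TB
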