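import Pool.Agent.MP_2339ce_nt.Q2.TBSpec

/-! Project TB, row MG: merging and comparing lists of terms. -/

set_option autoImplicit false

namespace Pool.Agent.MP_2339ce_nt.Q2.TB

namespace MG

theorem same_mon (x : Pt) {s t : Tm} (h : same s t = true) :
    mon x s.i s.j s.k s.l s.m = mon x t.i t.j t.k t.l t.m := by
  unfold same at h
  cases h1 : Nat.beq s.i t.i <;> rw [h1] at h
  · exact absurd h (by simp)
  cases h2 : Nat.beq s.j t.j <;> rw [h2] at h
  · exact absurd h (by simp)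
  cases h3 : Nat.beq s.k t.k <;> rw [h3] at h
  · exact absurd h (by simp)
  cases h4 : Nat.beq s.l t.l <;> rw [h4] at h
  · exact absurd h (by simp)
  rw [Nat.eq_of_beq_eq_true h1, Nat.eq_of_beq_eq_true h2, Nat.eq_of_beq_eq_true h3,
    Nat.eq_of_beq_eq_true h4, Nat.eq_of_beq_eq_true h]

theorem evL_cons (x : Pt) (t : Tm) (L : List Tm) : evL x (t :: L) = ev x t + evL x L := by
  simp [evL]

theorem evA_cons (x : Pt) (t : Tm) (L : List Tm) : evA x (t :: L) = |ev x t| + evA x L := by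
  simp [evA]

theorem mon_pos {x : Pt} (h : x.Pos) (i j k l m : ℕ) : 0 < mon x i j k l m := by
  obtain ⟨a, b, c, d, e⟩ := h
  unfold mon
  positivity

theorem cons0_spec (x : Pt) (c : ℤ) (s : Tm) (r : List Tm) :
    evL x (cons0 c s r) = c * mon x s.i s.j s.k s.l s.m + evL x r ∧
    evA x (cons0 c s r) = |c * mon x s.i s.j s.k s.l s.m| + evA x r ∧
    (0 ≤ c → (∀ t ∈ r, 0 ≤ t.c) → ∀ t ∈ cons0 c s r, 0 ≤ t.c) := by
  unfold cons0
  cases h : Nat.beq (Int.natAbs c) 0
  · refine ⟨evL_cons _ _ _, evA_cons _ _ _, fun h1 h2 t ht => ?_⟩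
    rcases List.mem_cons.1 ht with rfl | ht
    · exact h1
    · exact h2 t ht
  · obtain rfl : c = 0 := Int.natAbs_eq_zero.1 (Nat.eq_of_beq_eq_true h)
    exact ⟨by simp, by simp, fun _ h2 => h2⟩

/-- the three properties of a merge -/
def Ok (x : Pt) (Z X Y : List Tm) : Prop :=
  evL x Z = evL x X + evL x Y ∧ evA x Z ≤ evA x X + evA x Y ∧
  ((∀ t ∈ X, 0 ≤ t.c) → (∀ t ∈ Y, 0 ≤ t.c) →
    (∀ t ∈ Z, 0 ≤ t.c) ∧ evA x Z = evA x X + evA x Y)

theorem ok_left {x : Pt} {Z X Y : List Tm} (s : Tm) (h : Ok x Z X Y) :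
    Ok x (s :: Z) (s :: X) Y := by
  obtain ⟨a, b, c⟩ := h
  refine ⟨by rw [evL_cons, evL_cons, a]; ring, by rw [evA_cons, evA_cons]; linarith,
    fun h1 h2 => ?_⟩
  obtain ⟨d, e⟩ := c (fun t ht => h1 t (List.mem_cons_of_mem _ ht)) h2
  refine ⟨fun t ht => ?_, by rw [evA_cons, evA_cons, e]; ring⟩
  rcases List.mem_cons.1 ht with rfl | ht
  · exact h1 _ List.mem_cons_self
  · exact d t ht

theorem ok_symm {x : Pt} {Z X Y : List Tm} (h : Ok x Z X Y) : Ok x Z Y X := by
  obtain ⟨a, b, c⟩ := h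
  refine ⟨by rw [a, add_comm], by rw [add_comm]; exact b, fun h1 h2 => ?_⟩
  obtain ⟨d, e⟩ := c h2 h1
  exact ⟨d, by rw [e, add_comm]⟩

theorem ok_same {x : Pt} (hx : x.Pos) {Z X Y : List Tm} {s t : Tm} (hs : same s t = true)
    (h : Ok x Z X Y) : Ok x (cons0 (Int.add s.c t.c) s Z) (s :: X) (t :: Y) := by
  obtain ⟨a, b, c⟩ := h
  obtain ⟨p, q, r⟩ := cons0_spec x (Int.add s.c t.c) s Z
  have e1 : ((Int.add s.c t.c : ℤ) : ℝ) * mon x s.i s.j s.k s.l s.m = ev x s + ev x t := by
    unfold ev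
    rw [← same_mon x hs, Int.add_def]
    push_cast
    ring
  rw [e1] at p q
  refine ⟨by rw [p, evL_cons, evL_cons, a]; ring, ?_, fun h1 h2 => ?_⟩
  · rw [q, evA_cons, evA_cons]
    linarith [abs_add_le (ev x s) (ev x t)]
  · obtain ⟨d, e⟩ := c (fun t ht => h1 t (List.mem_cons_of_mem _ ht))
      (fun t ht => h2 t (List.mem_cons_of_mem _ ht))
    have s0 := h1 s List.mem_cons_self
    have t0 := h2 t List.mem_cons_self
    have s1 : 0 ≤ ev x s := mul_nonneg (by exact_mod_cast s0) (mon_pos hx _ _ _ _ _).le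
    have t1 : 0 ≤ ev x t := mul_nonneg (by exact_mod_cast t0) (mon_pos hx _ _ _ _ _).le
    refine ⟨r (add_nonneg s0 t0) d, ?_⟩
    rw [q, evA_cons, evA_cons, e, abs_of_nonneg s1, abs_of_nonneg t1,
      abs_of_nonneg (add_nonneg s1 t1)]
    ring

theorem ok_mg {x : Pt} (hx : x.Pos) (f : ℕ) : ∀ X Y : List Tm, Ok x (mg f X Y) X Y := by
  induction f with
  | zero =>
    intro X Y
    have e : evA x (X ++ Y) = evA x X + evA x Y := by simp [evA]
    refine ⟨show evL x (X ++ Y) = _ by simp [evL], e.le, fun h1 h2 => ⟨fun t ht => ?_, e⟩⟩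
    rcases List.mem_append.1 ht with h | h
    · exact h1 t h
    · exact h2 t h
  | succ f ih =>
    intro X Y
    cases X with
    | nil =>
      change Ok x Y [] Y
      exact ⟨by simp [evL], by simp [evA], fun _ h2 => ⟨h2, by simp [evA]⟩⟩
    | cons s X =>
      cases Y with
      | nil =>
        change Ok x (s :: X) (s :: X) []
        exact ⟨by simp [evL], by simp [evA], fun h1 _ => ⟨h1, by simp [evA]⟩⟩
      | cons t Y =>
        change Ok x (mg2 (mg f) s X t Y) (s :: X) (t :: Y)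
        unfold mg2
        cases Nat.ble s.key t.key
        · exact ok_symm (ok_left t (ok_symm (ih (s :: X) Y)))
        cases Nat.beq s.key t.key
        · exact ok_left s (ih X (t :: Y))
        cases h : same s t
        · exact ok_left s (ih X (t :: Y))
        · exact ok_same hx h (ih X Y)

end MG

theorem mg_ok : S_MG := fun _ f X Y hx => MG.ok_mg hx f X Y

theorem eq_ok : S_EQ := by
  intro x X
  induction X with
  | nil =>
    intro Y h
    cases Y with
    | nil => exact ⟨rfl, rfl⟩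
    | cons t Y => exact absurd (show false = true from h) (by simp)
  | cons s X ih =>
    intro Y h
    cases Y with
    | nil => exact absurd (show false = true from h) (by simp)
    | cons t Y =>
      have h' : @Bool.rec (fun _ => Bool) false (@Bool.rec (fun _ => Bool) false (eqL X Y) (same s t))
          (Nat.beq (Int.natAbs (Int.sub s.c t.c)) 0) = true := h
      cases h1 : Nat.beq (Int.natAbs (Int.sub s.c t.c)) 0 <;> rw [h1] at h'
      · exact absurd h' (by simp)
      cases h2 : same s t <;> rw [h2] at h'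
      · exact absurd h' (by simp)
      obtain ⟨a, b⟩ := ih Y h'
      have e1 : s.c = t.c := sub_eq_zero.1 (Int.natAbs_eq_zero.1 (Nat.eq_of_beq_eq_true h1))
      have e2 : ev x s = ev x t := by
        unfold ev
        rw [e1, MG.same_mon x h2]
      rw [MG.evL_cons, MG.evL_cons, MG.evA_cons, MG.evA_cons, a, b, e2]
      exact ⟨rfl, rfl⟩

end Pool.Agent.MP_2339ce_nt.Q2.TB
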