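import Pool.Agent.MP_2339ce_nt.Q2.TBSpec

/-! Project Q2, block TB: multiplication by a square root series. -/

set_option autoImplicit false

namespace Pool.Agent.MP_2339ce_nt.Q2.TB

open Finset

namespace MulP

variable (x : Pt) (s : St) (K cap o : ℕ)

theorem evL_cons (t : Tm) (L : List Tm) : evL x (t :: L) = ev x t + evL x L := by simp [evL]

theorem evA_cons (t : Tm) (L : List Tm) : evA x (t :: L) = |ev x t| + evA x L := by simp [evA]

theorem mon_pos {x : Pt} (h : x.Pos) (i j k l m : ℕ) : 0 < mon x i j k l m := by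
  obtain ⟨h1, h2, h3, h4, h5⟩ := h
  unfold mon
  positivity

theorem ev_sh (c : ℤ) (t : Tm) : ev x (sh s o c t) =
    c * mon x t.i t.j t.k t.l t.m * mon x s.i s.j s.k s.l 1 ^ o := by
  simp only [ev, sh, mon, Nat.add_eq, Nat.mul_eq]
  ring

theorem cut_eq (t : Tm) : cut K cap t = min (K + 1 - t.m) cap := by
  unfold cut
  cases h : Nat.ble (Nat.sub (Nat.succ K) t.m) cap
  · exact (min_eq_right (Nat.le_of_lt (Nat.not_le.1 fun e =>
      Bool.false_ne_true (h.symm.trans (Nat.ble_eq_true_of_le e))))).symm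
  · exact (min_eq_left (Nat.le_of_ble_eq_true h)).symm

theorem evL_lev (q : ℤ) (t : Tm) (P : List Tm) : evL x (lev s K o q (t :: P)) =
    (if t.m + o ≤ K then ev x t * (q * mon x s.i s.j s.k s.l 1 ^ o) else 0) +
      evL x (lev s K o q P) := by
  change evL x (@Bool.rec (fun _ => List Tm) (lev s K o q P)
    (sh s o (Int.mul q t.c) t :: lev s K o q P) (Nat.ble (Nat.add t.m o) K)) = _
  cases h : Nat.ble (Nat.add t.m o) K
  · rw [if_neg fun e : t.m + o ≤ K =>
      Bool.false_ne_true (h.symm.trans (Nat.ble_eq_true_of_le e)), zero_add]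
  · rw [if_pos (show t.m + o ≤ K from Nat.le_of_ble_eq_true h)]
    refine (evL_cons x _ _).trans ?_
    rw [ev_sh, ev, Int.mul_def]
    push_cast
    ring

theorem err_cons (q : ℕ) (t : Tm) (P : List Tm) : err s K cap o q (t :: P) =
    if cut K cap t = o then sh s o ((q * t.c.natAbs : ℕ) : ℤ) t :: err s K cap o q P
    else err s K cap o q P := by
  change @Bool.rec (fun _ => List Tm) (err s K cap o q P)
    (sh s o (Int.ofNat (Nat.mul q (Int.natAbs t.c))) t :: err s K cap o q P)
      (Nat.beq (cut K cap t) o) = _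
  cases h : Nat.beq (cut K cap t) o
  · rw [if_neg (Nat.ne_of_beq_eq_false h)]
  · rw [if_pos (Nat.eq_of_beq_eq_true h)]
    rfl

theorem err_nonneg (q : ℕ) (P : List Tm) : ∀ t ∈ err s K cap o q P, 0 ≤ t.c := by
  induction P with
  | nil => exact fun _ h => absurd h List.not_mem_nil
  | cons t P ih =>
    rw [err_cons]
    split_ifs
    · exact List.forall_mem_cons.2 ⟨Int.natCast_nonneg _, ih⟩
    · exact ih

theorem evA_err (hx : x.Pos) (q : ℕ) (t : Tm) (P : List Tm) : evA x (err s K cap o q (t :: P)) =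
    (if cut K cap t = o then |ev x t| * (q * mon x s.i s.j s.k s.l 1 ^ o) else 0) +
      evA x (err s K cap o q P) := by
  rw [err_cons]
  split_ifs
  · have h1 := mon_pos hx t.i t.j t.k t.l t.m
    have h2 := mon_pos hx s.i s.j s.k s.l 1
    rw [evA_cons, ev_sh, abs_of_nonneg (by positivity), ev, abs_mul, abs_of_pos h1]
    push_cast
    ring
  · rw [zero_add]

theorem evL_mulP (hm : S_MG) (hx : x.Pos) (P : List Tm) (n : ℕ) :
    evL x (mulP s K n P) = ∑ o ∈ range n, evL x (lev s K o (cat o) P) := by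
  induction n with
  | zero => rfl
  | succ n ih =>
    rw [sum_range_succ, ← ih, add_comm (evL x _)]
    exact (hm x 100000 (lev s K n (cat n) P) (mulP s K n P) hx).1

/-- The first `n` levels of the error. -/
def mE (P E : List Tm) (n : ℕ) : List Tm :=
  @Nat.rec (fun _ => List Tm) E
    (fun o r => mg 100000 (err s K cap o (Nat.mul 2 (Nat.pow 4 o)) P) r) n

theorem evA_mE (hm : S_MG) (hx : x.Pos) (P E : List Tm) (hE : ∀ t ∈ E, 0 ≤ t.c) (n : ℕ) :
    (∀ t ∈ mE s K cap P E n, 0 ≤ t.c) ∧ evA x (mE s K cap P E n) =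
      evA x E + ∑ o ∈ range n, evA x (err s K cap o (2 * 4 ^ o) P) := by
  induction n with
  | zero => exact ⟨hE, (add_zero _).symm⟩
  | succ n ih =>
    have := (hm x 100000 (err s K cap n (2 * 4 ^ n) P) (mE s K cap P E n) hx).2.2
      (err_nonneg s K cap n _ P) ih.1
    refine ⟨this.1, this.2.trans ?_⟩
    rw [ih.2, sum_range_succ]
    ring

theorem key (ht : S_TAYL) (hx : x.Pos) (hc : cap ≤ 20) (hu : 8 * mon x s.i s.j s.k s.l 1 ≤ 1)
    (P : List Tm) : |evL x P * √(1 - 4 * mon x s.i s.j s.k s.l 1) -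
      ∑ o ∈ range cap, evL x (lev s K o (cat o) P)| ≤
        ∑ o ∈ range (cap + 1), evA x (err s K cap o (2 * 4 ^ o) P) := by
  induction P with
  | nil => simp [evL, evA, lev, err]
  | cons t P ih =>
    have c1 : cut K cap t ≤ cap := by rw [cut_eq]; exact min_le_right _ _
    have h1 := mul_le_mul_of_nonneg_left
      (ht (cut K cap t) _ (c1.trans hc) (mon_pos hx s.i s.j s.k s.l 1).le hu) (abs_nonneg (ev x t))
    have e : (range cap).filter (fun o => t.m + o ≤ K) = range (cut K cap t) := by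
      ext o
      rw [mem_filter, mem_range, mem_range, cut_eq]
      omega
    simp only [evL_lev, evA_err x s K cap _ hx, sum_add_distrib]
    rw [← sum_filter, e, ← mul_sum, sum_ite_eq, if_pos (mem_range.2 (Nat.lt_succ_of_le c1)),
      evL_cons, add_mul, add_sub_add_comm, ← mul_sub]
    refine (abs_add_le _ _).trans (add_le_add ?_ ih)
    rw [abs_mul]
    exact_mod_cast h1

end MulP

open MulP in
theorem mul_ok : S_MUL := by
  intro ht hm x w s K cap P E hx hc hu hE h
  have h1 := evA_mE x s K cap hm hx P E hE (cap + 1)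
  refine ⟨h1.1, ?_⟩
  have h2 := key x s K cap ht hx hc hu P
  have h3 : √(1 - 4 * mon x s.i s.j s.k s.l 1) ≤ 1 :=
    Real.sqrt_le_one.2 (by have := mon_pos hx s.i s.j s.k s.l 1; linarith)
  change |_ - evL x (mulP s K cap P)| ≤ evA x (mE s K cap P E (cap + 1))
  rw [h1.2, evL_mulP x s K hm hx]
  refine (abs_sub_le _ (evL x P * √(1 - 4 * mon x s.i s.j s.k s.l 1)) _).trans (add_le_add ?_ h2)
  rw [← sub_mul, abs_mul, abs_of_nonneg (Real.sqrt_nonneg _)]
  exact (mul_le_of_le_one_right (abs_nonneg _) h3).trans h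

end Pool.Agent.MP_2339ce_nt.Q2.TB
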