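import Mathlib.Analysis.SpecialFunctions.Log.Base
import Mathlib.Analysis.SpecialFunctions.Pow.Real
import Mathlib.Analysis.SpecialFunctions.Sqrt

/-! Project Q2, block TB: a checker for integer forms in `x, y, z`; definitions and rows. -/

set_option autoImplicit false

noncomputable section

namespace Pool.Agent.MP_2339ce_nt.Q2.TB

/-- the term `c α^i β^j γ^k δ^l n^m`; `key` only steers the merging -/
structure Tm where
  c : ℤ
  key : ℕ
  i : ℕ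
  j : ℕ
  k : ℕ
  l : ℕ
  m : ℕ

structure Pt where
  α : ℝ
  β : ℝ
  γ : ℝ
  δ : ℝ
  n : ℝ

def Pt.Pos (x : Pt) : Prop := 0 < x.α ∧ 0 < x.β ∧ 0 < x.γ ∧ 0 < x.δ ∧ 0 < x.n

def mon (x : Pt) (i j k l m : ℕ) : ℝ := x.α ^ i * x.β ^ j * x.γ ^ k * x.δ ^ l * x.n ^ m

def ev (x : Pt) (t : Tm) : ℝ := t.c * mon x t.i t.j t.k t.l t.m

def evL (x : Pt) (L : List Tm) : ℝ := (L.map (ev x)).sum

/-- the sum with the absolute values of the coefficients -/
def evA (x : Pt) (L : List Tm) : ℝ := (L.map fun t => |ev x t|).sum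

def same (s t : Tm) : Bool :=
  @Bool.rec (fun _ => Bool) false (@Bool.rec (fun _ => Bool) false (@Bool.rec (fun _ => Bool) false
    (@Bool.rec (fun _ => Bool) false (Nat.beq s.m t.m) (Nat.beq s.l t.l)) (Nat.beq s.k t.k))
    (Nat.beq s.j t.j)) (Nat.beq s.i t.i)

def cons0 (c : ℤ) (s : Tm) (r : List Tm) : List Tm :=
  @Bool.rec (fun _ => List Tm) (⟨c, s.key, s.i, s.j, s.k, s.l, s.m⟩ :: r) r
    (Nat.beq (Int.natAbs c) 0)

def mg2 (ih : List Tm → List Tm → List Tm) (s : Tm) (xs : List Tm) (t : Tm) (ys : List Tm) :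
    List Tm :=
  @Bool.rec (fun _ => List Tm) (t :: ih (s :: xs) ys)
    (@Bool.rec (fun _ => List Tm) (s :: ih xs (t :: ys))
      (@Bool.rec (fun _ => List Tm) (s :: ih xs (t :: ys)) (cons0 (Int.add s.c t.c) s (ih xs ys))
        (same s t)) (Nat.beq s.key t.key)) (Nat.ble s.key t.key)

/-- merge two lists, adding the coefficients of equal monomials -/
def mg (f : ℕ) : List Tm → List Tm → List Tm :=
  @Nat.rec (fun _ => List Tm → List Tm → List Tm) (fun xs ys => xs ++ ys)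
    (fun _ ih xs ys => @List.rec Tm (fun _ => List Tm) ys (fun s xs' _ =>
      @List.rec Tm (fun _ => List Tm) (s :: xs') (fun t ys' _ => mg2 ih s xs' t ys') ys) xs) f

def cat (o : ℕ) : ℤ :=
  [1, -2, -2, -4, -10, -28, -84, -264, -858, -2860, -9724, -33592, -117572, -416024, -1485800,
    -5348880, -19389690, -70715340, -259289580, -955277400, -3534526380].getD o 0

/-- a step monomial `α^i β^j γ^k δ^l n` -/
structure St where
  key : ℕ
  i : ℕ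
  j : ℕ
  k : ℕ
  l : ℕ

def sh (s : St) (o : ℕ) (c : ℤ) (t : Tm) : Tm :=
  ⟨c, Nat.add t.key (Nat.mul o s.key), Nat.add t.i (Nat.mul o s.i), Nat.add t.j (Nat.mul o s.j),
    Nat.add t.k (Nat.mul o s.k), Nat.add t.l (Nat.mul o s.l), Nat.add t.m o⟩

/-- the terms of order `o` of the product, for `t.m + o ≤ K` -/
def lev (s : St) (K o : ℕ) (q : ℤ) (P : List Tm) : List Tm :=
  @List.rec Tm (fun _ => List Tm) [] (fun t _ r =>
    @Bool.rec (fun _ => List Tm) r (sh s o (Int.mul q t.c) t :: r) (Nat.ble (Nat.add t.m o) K)) P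

/-- the order at which the series is cut for the term `t` -/
def cut (K cap : ℕ) (t : Tm) : ℕ :=
  @Bool.rec (fun _ => ℕ) cap (Nat.sub (Nat.succ K) t.m) (Nat.ble (Nat.sub (Nat.succ K) t.m) cap)

def err (s : St) (K cap o q : ℕ) (P : List Tm) : List Tm :=
  @List.rec Tm (fun _ => List Tm) [] (fun t _ r =>
    @Bool.rec (fun _ => List Tm) r (sh s o (Int.ofNat (Nat.mul q (Int.natAbs t.c))) t :: r)
      (Nat.beq (cut K cap t) o)) P

def mulP (s : St) (K cap : ℕ) (P : List Tm) : List Tm :=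
  @Nat.rec (fun _ => List Tm) [] (fun o r => mg 100000 (lev s K o (cat o) P) r) cap

def mulE (s : St) (K cap : ℕ) (P E : List Tm) : List Tm :=
  @Nat.rec (fun _ => List Tm) E
    (fun o r => mg 100000 (err s K cap o (Nat.mul 2 (Nat.pow 4 o)) P) r) (Nat.succ cap)

def mulR (g : Bool) (s : St) (K cap : ℕ) (X : List Tm × List Tm) : List Tm × List Tm :=
  @Bool.rec (fun _ => List Tm × List Tm) X (mulP s K cap X.1, mulE s K cap X.1 X.2) g

/-- the term `c a^i b^j c^k N^l` -/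
structure T0 where
  c : ℤ
  i : ℕ
  j : ℕ
  k : ℕ
  l : ℕ

/-- a polynomial times some of `r, s, t` times one of `x, y, z` (`v = 0`, `v = 1`, `v ≥ 2`) -/
structure Cl where
  v : ℕ
  gr : Bool
  gs : Bool
  gt : Bool
  P : List T0

/-- the numbers of a quadruple -/
structure Qd where
  N : ℤ
  a : ℤ
  b : ℤ
  c : ℤ
  d : ℤ
  r : ℤ
  s : ℤ
  t : ℤ
  x : ℤ
  y : ℤ
  z : ℤ
  hN : 1 ≤ N
  ha : 1 ≤ a
  hb : a < b
  hc : b < c
  hd : c < d
  r0 : 0 ≤ r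
  s0 : 0 ≤ s
  t0 : 0 ≤ t
  x0 : 0 ≤ x
  y0 : 0 ≤ y
  z0 : 0 ≤ z
  hr : r ^ 2 = a * b - N
  hs : s ^ 2 = a * c - N
  ht : t ^ 2 = b * c - N
  hx : x ^ 2 = a * d - N
  hy : y ^ 2 = b * d - N
  hz : z ^ 2 = c * d - N

def T0.val (q : Qd) (u : T0) : ℤ := u.c * q.a ^ u.i * q.b ^ u.j * q.c ^ u.k * q.N ^ u.l

def Cl.val (q : Qd) (C : Cl) : ℤ :=
  (C.P.map (T0.val q)).sum * (if C.gr then q.r else 1) * (if C.gs then q.s else 1) *
    (if C.gt then q.t else 1) * (if C.v = 0 then q.x else if C.v = 1 then q.y else q.z)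

def W (q : Qd) (F : List Cl) : ℤ := (F.map (Cl.val q)).sum

def Qd.pt (q : Qd) : Pt := ⟨1 / √q.a, 1 / √q.b, 1 / √q.c, 1 / √q.d, q.N / 4⟩

def bn (g : Bool) : ℕ := @Bool.rec (fun _ => ℕ) 0 1 g

def e0 (C : Cl) (u : T0) : ℕ := 2 * u.i + bn (Nat.beq C.v 0) + bn C.gr + bn C.gs
def e1 (C : Cl) (u : T0) : ℕ := 2 * u.j + bn (Nat.beq C.v 1) + bn C.gr + bn C.gt
def e2 (C : Cl) (u : T0) : ℕ := 2 * u.k + bn (Nat.ble 2 C.v) + bn C.gs + bn C.gt

def mk (c : ℤ) (i j k l m : ℕ) : Tm :=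
  ⟨c, (((m * 256 + l) * 256 + i) * 256 + j) * 256 + k, i, j, k, l, m⟩

def conv (h : ℕ) (C : Cl) : List Tm :=
  C.P.map fun u => mk (u.c * 4 ^ u.l) (h - e0 C u) (h - e1 C u) (h - e2 C u) 0 u.l

def okH (h : ℕ) (F : List Cl) : Bool :=
  F.all fun C => C.P.all fun u => Nat.ble (e0 C u) h && Nat.ble (e1 C u) h && Nat.ble (e2 C u) h

def sR : St := ⟨4295098880, 2, 2, 0, 0⟩
def sS : St := ⟨4295098370, 2, 0, 2, 0⟩
def sT : St := ⟨4294967810, 0, 2, 2, 0⟩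
def sV (v : ℕ) : St :=
  if v = 0 then ⟨4328652800, 2, 0, 0, 2⟩ else if v = 1 then ⟨4328522240, 0, 2, 0, 2⟩
  else ⟨4328521730, 0, 0, 2, 2⟩

def expC (h K cap : ℕ) (C : Cl) : List Tm × List Tm :=
  mulR true (sV C.v) K cap (mulR C.gt sT K (K + 1) (mulR C.gs sS K (K + 1)
    (mulR C.gr sR K (K + 1) (conv h C, []))))

def add2 (X Y : List Tm × List Tm) : List Tm × List Tm := (mg 100000 X.1 Y.1, mg 100000 X.2 Y.2)

def expand (h K cap : ℕ) (F : List Cl) : List Tm × List Tm :=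
  @List.rec Cl (fun _ => List Tm × List Tm) ([], []) (fun C _ r => add2 (expC h K cap C) r) F

def eqL (X : List Tm) : List Tm → Bool :=
  @List.rec Tm (fun _ => List Tm → Bool)
    (fun Y => @List.rec Tm (fun _ => Bool) true (fun _ _ _ => false) Y)
    (fun s _ ih Y => @List.rec Tm (fun _ => Bool) false (fun t Y' _ =>
      @Bool.rec (fun _ => Bool) false (@Bool.rec (fun _ => Bool) false (ih Y') (same s t))
        (Nat.beq (Int.natAbs (Int.sub s.c t.c)) 0)) Y) X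

/-- `(P, E)` is the expansion of `F` -/
def expOK (h K cap : ℕ) (F : List Cl) (P E : List Tm) : Bool :=
  okH h F && Nat.ble K 19 && Nat.ble cap 20 &&
    eqL (expand h K cap F).1 P && eqL (expand h K cap F).2 E

/-- `P` approximates the real number `w` with error at most `E` -/
def Ap (x : Pt) (w : ℝ) (X : List Tm × List Tm) : Prop := |w - evL x X.1| ≤ evA x X.2

def Good (h : ℕ) (F : List Cl) (P E : List Tm) : Prop :=
  ∀ q : Qd, 2 * q.N ≤ q.a * q.b → Ap q.pt (W q F * mon q.pt h h h 1 0) (P, E)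

/-- binary logarithm -/
def lg (x : ℝ) : ℝ := Real.logb 2 x

/-- a box for `lg N, lg a, lg (b / a), lg (c / b)` in hundredths of a bit; `fp, fq, fw` say that
the upper end is infinite -/
structure Bx where
  L1 : ℕ
  L2 : ℕ
  p1 : ℕ
  p2 : ℕ
  q1 : ℕ
  q2 : ℕ
  w1 : ℕ
  w2 : ℕ
  fp : Bool
  fq : Bool
  fw : Bool

structure Bx.Mem (B : Bx) (N a b c : ℤ) : Prop where
  L1 : (B.L1 : ℝ) ≤ 100 * lg N
  L2 : 100 * lg N ≤ B.L2
  p1 : (B.p1 : ℝ) ≤ 100 * lg a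
  p2 : B.fp = false → 100 * lg a ≤ B.p2
  q1 : (B.q1 : ℝ) ≤ 100 * (lg b - lg a)
  q2 : B.fq = false → 100 * (lg b - lg a) ≤ B.q2
  w1 : (B.w1 : ℝ) ≤ 100 * (lg c - lg b)
  w2 : B.fw = false → 100 * (lg c - lg b) ≤ B.w2

/-- the linear form `m + 100 (eN lg N + ea lg a + eb lg b + ec lg c)` -/
structure Lf where
  m : ℤ
  eN : ℤ
  ea : ℤ
  eb : ℤ
  ec : ℤ

def Lf.val (f : Lf) (N a b c : ℤ) : ℝ :=
  f.m + 100 * (f.eN * lg N + f.ea * lg a + f.eb * lg b + f.ec * lg c)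

/-- `e` times the upper end if `0 < e`, else times the lower end -/
def up (e : ℤ) (lo hi : ℕ) : ℤ :=
  @Int.rec (fun _ => ℤ) (fun n => Int.ofNat (Nat.mul n hi))
    (fun n => Int.negOfNat (Nat.mul (Nat.succ n) lo)) e

def isP (e : ℤ) : Bool :=
  @Int.rec (fun _ => Bool) (fun n => Nat.ble 1 n) (fun _ => false) e

def sup3 (B : Bx) (m eN cp cq cw : ℤ) : ℤ :=
  Int.add (Int.add (Int.add (Int.add m (up eN B.L1 B.L2)) (up cp B.p1 B.p2)) (up cq B.q1 B.q2))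
    (up cw B.w1 B.w2)

def bad3 (B : Bx) (cp cq cw : ℤ) : Bool :=
  (B.fp && isP cp) || (B.fq && isP cq) || (B.fw && isP cw)

/-- an upper bound of `f` on the box, when `bad B f = false` -/
def sup (B : Bx) (f : Lf) : ℤ :=
  sup3 B f.m f.eN (Int.add f.ea (Int.add f.eb f.ec)) (Int.add f.eb f.ec) f.ec

def bad (B : Bx) (f : Lf) : Bool :=
  bad3 B (Int.add f.ea (Int.add f.eb f.ec)) (Int.add f.eb f.ec) f.ec

def Lf.neg (f : Lf) : Lf := ⟨Int.neg f.m, Int.neg f.eN, Int.neg f.ea, Int.neg f.eb, Int.neg f.ec⟩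

def fq2 (g : Lf) (u eN ea eb ec : ℤ) : Lf :=
  ⟨Int.sub (Int.mul u g.m) (Int.mul 200 eN), Int.add eN (Int.mul u g.eN),
    Int.add ea (Int.mul u g.ea), Int.add eb (Int.mul u g.eb), Int.add ec (Int.mul u g.ec)⟩

/-- `1200 lg` of the monomial of `t` over that of `s`, with `600 lg d` replaced by `g1` when its
coefficient is positive and by `g0` otherwise -/
def fq (g0 g1 : Lf) (s t : Tm) : Lf :=
  fq2 (@Bool.rec (fun _ => Lf) g1 g0 (Nat.ble s.l t.l)) (Int.subNatNat s.l t.l)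
    (Int.mul 12 (Int.subNatNat t.m s.m)) (Int.mul 6 (Int.subNatNat s.i t.i))
    (Int.mul 6 (Int.subNatNat s.j t.j)) (Int.mul 6 (Int.subNatNat s.k t.k))

def tU (f : ℕ) : ℕ := [65536, 71468, 77936, 84990, 92682, 101071, 110218, 120194].getD f 0
def tL (f : ℕ) : ℕ := [65536, 71467, 77935, 84989, 92681, 101070, 110217, 120193].getD f 0

/-- `c 2^(f / 8) 2^16 / 2^4000`, rounded up, for `f ≤ 32800` -/
def ubN (c f : ℕ) : ℕ :=
  Nat.succ (Nat.shiftRight (Nat.shiftLeft (Nat.mul c (tU (Nat.mod f 8))) 100)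
    (Nat.sub 4100 (Nat.div f 8)))

def lbN (c f : ℕ) : ℕ :=
  Nat.shiftRight (Nat.shiftLeft (Nat.mul c (tL (Nat.mod f 8))) 100) (Nat.sub 4100 (Nat.div f 8))

/-- an upper bound of `c 2^(X / 1200) 2^56`, valid when it is below `2^72` -/
def ubX (c : ℕ) (X : ℤ) : ℕ :=
  @Int.rec (fun _ => ℕ) (fun n => @Bool.rec (fun _ => ℕ) (Nat.pow 2 72)
      (ubN c (Nat.div (Nat.add n 149) 150)) (Nat.ble n 4920000))
    (fun _ => Nat.succ (Nat.shiftRight c 3984)) (Int.add X 4848000)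

/-- a lower bound of `c 2^(X / 1200) 2^56` -/
def lbX (c : ℕ) (X : ℤ) : ℕ :=
  @Int.rec (fun _ => ℕ) (fun n => lbN c (Nat.div n 150)) (fun _ => 0) (Int.add X 4848000)

def ubT (B : Bx) (c : ℕ) (f : Lf) : ℕ :=
  @Bool.rec (fun _ => ℕ) (ubX c (sup B f)) (Nat.pow 2 72) (bad B f)

def lbT (B : Bx) (c : ℕ) (f : Lf) : ℕ :=
  @Bool.rec (fun _ => ℕ) (lbX c (Int.neg (sup B f.neg))) 0 (bad B f.neg)

def sumU (B : Bx) (lo hi : Lf) (s : Tm) (L : List Tm) : ℕ :=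
  @List.rec Tm (fun _ => ℕ) 0
    (fun t _ r => Nat.add (ubT B (Int.natAbs t.c) (fq lo hi s t)) r) L

def sumL (B : Bx) (lo hi : Lf) (s : Tm) (L : List Tm) : ℕ :=
  @List.rec Tm (fun _ => ℕ) 0
    (fun t _ r => Nat.add (lbT B (Int.natAbs t.c) (fq hi lo s t)) r) L

def pick (g : Bool) (L : List Tm) : List Tm :=
  @List.rec Tm (fun _ => List Tm) [] (fun t _ r =>
    @Bool.rec (fun _ => List Tm) r (t :: r)
      (@Bool.rec (fun _ => Bool) (!isP t.c) (isP t.c) g)) L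

def dom (B : Bx) : Bool := Nat.ble (B.L2 + 100) (2 * B.p1 + B.q1)

def upOK (h : ℕ) (P E : List Tm) (B : Bx) (lo hi : Lf) : Bool :=
  dom B && Nat.blt (sumU B lo hi (mk 1 h h h 1 0) P + sumU B lo hi (mk 1 h h h 1 0) E) (2 ^ 56)

def nzOK (P E : List Tm) (B : Bx) (lo hi : Lf) (s : Tm) (g : Bool) : Bool :=
  dom B && Nat.blt (sumU B lo hi s (pick (!g) P) + sumU B lo hi s E) (2 ^ 72) &&
    Nat.blt (sumU B lo hi s (pick (!g) P) + sumU B lo hi s E) (sumL B lo hi s (pick g P))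

/-- the quadruple lies in the box and `d` in the window -/
def In (B : Bx) (lo hi : Lf) (q : Qd) : Prop :=
  B.Mem q.N q.a q.b q.c ∧ lo.val q.N q.a q.b q.c ≤ 600 * lg q.d ∧
    600 * lg q.d ≤ hi.val q.N q.a q.b q.c

def S_TAYL : Prop := ∀ (o : ℕ) (u : ℝ), o ≤ 20 → 0 ≤ u → 8 * u ≤ 1 →
  |√(1 - 4 * u) - ∑ k ∈ Finset.range o, (cat k : ℝ) * u ^ k| ≤ 2 * 4 ^ o * u ^ o

def S_MG : Prop := ∀ (x : Pt) (f : ℕ) (X Y : List Tm), x.Pos →
  evL x (mg f X Y) = evL x X + evL x Y ∧ evA x (mg f X Y) ≤ evA x X + evA x Y ∧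
  ((∀ t ∈ X, 0 ≤ t.c) → (∀ t ∈ Y, 0 ≤ t.c) →
    (∀ t ∈ mg f X Y, 0 ≤ t.c) ∧ evA x (mg f X Y) = evA x X + evA x Y)

def S_EQ : Prop := ∀ (x : Pt) (X Y : List Tm), eqL X Y = true →
  evL x X = evL x Y ∧ evA x X = evA x Y

def S_MUL : Prop := S_TAYL → S_MG → ∀ (x : Pt) (w : ℝ) (s : St) (K cap : ℕ) (P E : List Tm),
  x.Pos → cap ≤ 20 → 8 * mon x s.i s.j s.k s.l 1 ≤ 1 → (∀ t ∈ E, 0 ≤ t.c) → Ap x w (P, E) →
    (∀ t ∈ mulE s K cap P E, 0 ≤ t.c) ∧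
    Ap x (w * √(1 - 4 * mon x s.i s.j s.k s.l 1)) (mulP s K cap P, mulE s K cap P E)

/-- the value of a class, in the inverse variables -/
def S_CONV : Prop := ∀ (h : ℕ) (C : Cl) (q : Qd), okH h [C] = true →
  (C.val q : ℝ) * mon q.pt h h h 1 0 = evL q.pt (conv h C) *
    (if C.gr then √(1 - 4 * mon q.pt 2 2 0 0 1) else 1) *
    (if C.gs then √(1 - 4 * mon q.pt 2 0 2 0 1) else 1) *
    (if C.gt then √(1 - 4 * mon q.pt 0 2 2 0 1) else 1) *
    √(1 - 4 * mon q.pt (sV C.v).i (sV C.v).j (sV C.v).k (sV C.v).l 1)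

def S_EXP : Prop := ∀ (h K cap : ℕ) (F : List Cl) (P E : List Tm),
  expOK h K cap F P E = true → Good h F P E

def S_SUP : Prop := ∀ (B : Bx) (f : Lf) (N a b c : ℤ), B.Mem N a b c → bad B f = false →
  f.val N a b c ≤ sup B f

def S_UBX : Prop := ∀ (c : ℕ) (X : ℤ) (y : ℝ),
  (y ≤ X → ubX c X < 2 ^ 72 → (c : ℝ) * 2 ^ (y / 1200) * 2 ^ 56 ≤ ubX c X) ∧
  (X ≤ y → (lbX c X : ℝ) ≤ (c : ℝ) * 2 ^ (y / 1200) * 2 ^ 56)

def S_FQ : Prop := ∀ (B : Bx) (lo hi : Lf) (q : Qd) (s t : Tm), In B lo hi q →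
  ∃ y : ℝ, mon q.pt t.i t.j t.k t.l t.m = 2 ^ (y / 1200) * mon q.pt s.i s.j s.k s.l s.m ∧
    y ≤ (fq lo hi s t).val q.N q.a q.b q.c ∧ (fq hi lo s t).val q.N q.a q.b q.c ≤ y

def S_SUM : Prop := ∀ (B : Bx) (lo hi : Lf) (q : Qd) (s : Tm) (L : List Tm), In B lo hi q →
  (sumU B lo hi s L < 2 ^ 72 →
    evA q.pt L * 2 ^ 56 ≤ sumU B lo hi s L * mon q.pt s.i s.j s.k s.l s.m) ∧
  sumL B lo hi s L * mon q.pt s.i s.j s.k s.l s.m ≤ evA q.pt L * 2 ^ 56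

def S_UP : Prop := ∀ (h : ℕ) (F : List Cl) (P E : List Tm) (B : Bx) (lo hi : Lf) (q : Qd),
  Good h F P E → upOK h P E B lo hi = true → In B lo hi q → W q F = 0

def S_NZ : Prop := ∀ (h : ℕ) (F : List Cl) (P E : List Tm) (B : Bx) (lo hi : Lf) (s : Tm)
  (g : Bool) (q : Qd), Good h F P E → nzOK P E B lo hi s g = true → In B lo hi q → W q F ≠ 0

end Pool.Agent.MP_2339ce_nt.Q2.TB
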