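import Pool.Agent.MP_2339ce_nt.Q2.TBSpec

/-! Project Q2, block TB: the sums of the termwise bounds. -/

set_option autoImplicit false

namespace Pool.Agent.MP_2339ce_nt.Q2.TB

namespace Sum

theorem mon_pos (q : Qd) (i j k l m : ℕ) : 0 < mon q.pt i j k l m := by
  have ha : (0 : ℝ) < q.a := by have := q.ha; exact_mod_cast (by omega : 0 < q.a)
  have hb : (0 : ℝ) < q.b := by
    have := q.ha; have := q.hb; exact_mod_cast (by omega : 0 < q.b)
  have hc : (0 : ℝ) < q.c := by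
    have := q.ha; have := q.hb; have := q.hc; exact_mod_cast (by omega : 0 < q.c)
  have hd : (0 : ℝ) < q.d := by
    have := q.ha; have := q.hb; have := q.hc; have := q.hd; exact_mod_cast (by omega : 0 < q.d)
  have hN : (0 : ℝ) < q.N := by have := q.hN; exact_mod_cast (by omega : 0 < q.N)
  unfold mon Qd.pt
  positivity

theorem abs_ev (q : Qd) (t : Tm) :
    |ev q.pt t| = (Int.natAbs t.c : ℝ) * mon q.pt t.i t.j t.k t.l t.m := by
  rw [ev, abs_mul, abs_of_pos (mon_pos q _ _ _ _ _), Nat.cast_natAbs, Int.cast_abs]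

theorem neg_val (f : Lf) (N a b c : ℤ) : f.neg.val N a b c = -f.val N a b c := by
  have e : ∀ z : ℤ, ((Int.neg z : ℤ) : ℝ) = -(z : ℝ) := fun z => Int.cast_neg z
  simp only [Lf.neg, Lf.val, e]
  ring

theorem termU (h1 : S_SUP) (h2 : S_UBX) (h3 : S_FQ) (B : Bx) (lo hi : Lf) (q : Qd) (s t : Tm)
    (h : In B lo hi q) (hl : ubT B (Int.natAbs t.c) (fq lo hi s t) < 2 ^ 72) :
    |ev q.pt t| * 2 ^ 56 ≤
      ubT B (Int.natAbs t.c) (fq lo hi s t) * mon q.pt s.i s.j s.k s.l s.m := by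
  obtain ⟨y, hy, hu, -⟩ := h3 B lo hi q s t h
  unfold ubT at hl ⊢
  cases hb : bad B (fq lo hi s t) with
  | true => rw [hb] at hl; exact absurd hl (lt_irrefl _)
  | false =>
    rw [hb] at hl
    have := (h2 (Int.natAbs t.c) (sup B (fq lo hi s t)) y).1
      (hu.trans (h1 B _ _ _ _ _ h.1 hb)) hl
    have hm := mon_pos q s.i s.j s.k s.l s.m
    rw [abs_ev, hy]
    show _ ≤ (ubX (Int.natAbs t.c) (sup B (fq lo hi s t)) : ℝ) * _
    calc _ = ((Int.natAbs t.c : ℝ) * 2 ^ (y / 1200) * 2 ^ 56) * mon q.pt s.i s.j s.k s.l s.m := by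
          ring
      _ ≤ _ := mul_le_mul_of_nonneg_right this hm.le

theorem termL (h1 : S_SUP) (h2 : S_UBX) (h3 : S_FQ) (B : Bx) (lo hi : Lf) (q : Qd) (s t : Tm)
    (h : In B lo hi q) :
    lbT B (Int.natAbs t.c) (fq hi lo s t) * mon q.pt s.i s.j s.k s.l s.m ≤
      |ev q.pt t| * 2 ^ 56 := by
  obtain ⟨y, hy, -, hu⟩ := h3 B lo hi q s t h
  unfold lbT
  cases hb : bad B (fq hi lo s t).neg with
  | true =>
    show ((0 : ℕ) : ℝ) * _ ≤ _
    rw [Nat.cast_zero, zero_mul]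
    positivity
  | false =>
    have h4 := h1 B _ _ _ _ _ h.1 hb
    rw [neg_val] at h4
    have h5 : ((Int.neg (sup B (fq hi lo s t).neg) : ℤ) : ℝ) ≤ y := by
      have e : ((Int.neg (sup B (fq hi lo s t).neg) : ℤ) : ℝ) =
        -((sup B (fq hi lo s t).neg : ℤ) : ℝ) := Int.cast_neg _
      rw [e]
      linarith
    have := (h2 (Int.natAbs t.c) (Int.neg (sup B (fq hi lo s t).neg)) y).2 h5
    have hm := mon_pos q s.i s.j s.k s.l s.m
    rw [abs_ev, hy]
    show (lbX (Int.natAbs t.c) (Int.neg (sup B (fq hi lo s t).neg)) : ℝ) * _ ≤ _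
    calc _ ≤ ((Int.natAbs t.c : ℝ) * 2 ^ (y / 1200) * 2 ^ 56) * mon q.pt s.i s.j s.k s.l s.m :=
          mul_le_mul_of_nonneg_right this hm.le
      _ = _ := by ring

end Sum

theorem sum_ok (h1 : S_SUP) (h2 : S_UBX) (h3 : S_FQ) : S_SUM := by
  intro B lo hi q s L h
  induction L with
  | nil => simp [evA, sumU, sumL]
  | cons t L ih =>
    have eU : sumU B lo hi s (t :: L) =
      ubT B (Int.natAbs t.c) (fq lo hi s t) + sumU B lo hi s L := rfl
    have eL : sumL B lo hi s (t :: L) =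
      lbT B (Int.natAbs t.c) (fq hi lo s t) + sumL B lo hi s L := rfl
    have eA : evA q.pt (t :: L) = |ev q.pt t| + evA q.pt L := by simp [evA]
    rw [eU, eL, eA]
    refine ⟨fun hl => ?_, ?_⟩
    · have a1 := Sum.termU h1 h2 h3 B lo hi q s t h (by omega)
      have a2 := ih.1 (by omega)
      rw [Nat.cast_add, add_mul, add_mul]
      exact add_le_add a1 a2
    · rw [Nat.cast_add, add_mul, add_mul]
      exact add_le_add (Sum.termL h1 h2 h3 B lo hi q s t h) ih.2

end Pool.Agent.MP_2339ce_nt.Q2.TB
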