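import Pool.Agent.MP_2339ce_nt.Q2.TBSpec

/-! Project Q2, block TB, row TAYL: the series of the square root. -/

set_option autoImplicit false

namespace Pool.Agent.MP_2339ce_nt.Q2.TB

theorem tayl_base (u : ℝ) (h0 : 0 ≤ u) (h1 : 8 * u ≤ 1) :
    |√(1 - 4 * u) - ∑ k ∈ Finset.range 20, (cat k : ℝ) * u ^ k| ≤ 2 * 4 ^ 20 * u ^ 20 := by
  have hp : ∀ k : ℕ, u ^ k ≤ (1 / 8) ^ k := fun k => pow_le_pow_left₀ h0 (by linarith) k
  have hT : ∑ k ∈ Finset.range 20, (cat k : ℝ) * u ^ k = (1) * u ^ 0 + (-2) * u ^ 1 + (-2) * u ^ 2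
      + (-4) * u ^ 3 + (-10) * u ^ 4 + (-28) * u ^ 5 + (-84) * u ^ 6 + (-264) * u ^ 7 + (-858) * u
      ^ 8 + (-2860) * u ^ 9 + (-9724) * u ^ 10 + (-33592) * u ^ 11 + (-117572) * u ^ 12 +
      (-416024) * u ^ 13 + (-1485800) * u ^ 14 + (-5348880) * u ^ 15 + (-19389690) * u ^ 16 +
      (-70715340) * u ^ 17 + (-259289580) * u ^ 18 + (-955277400) * u ^ 19 := by
    simp only [Finset.sum_range_succ, Finset.sum_range_zero, cat, List.getD_cons_zero,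
      List.getD_cons_succ]
    push_cast
    ring
  rw [hT]
  set T : ℝ := (1) * u ^ 0 + (-2) * u ^ 1 + (-2) * u ^ 2 + (-4) * u ^ 3 + (-10) * u ^ 4 + (-28) *
      u ^ 5 + (-84) * u ^ 6 + (-264) * u ^ 7 + (-858) * u ^ 8 + (-2860) * u ^ 9 + (-9724) * u ^ 10
      + (-33592) * u ^ 11 + (-117572) * u ^ 12 + (-416024) * u ^ 13 + (-1485800) * u ^ 14 +
      (-5348880) * u ^ 15 + (-19389690) * u ^ 16 + (-70715340) * u ^ 17 + (-259289580) * u ^ 18 +
      (-955277400) * u ^ 19 with hTd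
  set Q : ℝ := 7069052760 * u ^ 0 + 12118376160 * u ^ 1 + 31213999200 * u ^ 2 + 89410944000 * u ^
      3 + 268931355000 * u ^ 4 + 831320604576 * u ^ 5 + 2612721900096 * u ^ 6 + 8294355238400 * u
      ^ 7 + 26475285694000 * u ^ 8 + 84654518520000 * u ^ 9 + 270217223115840 * u ^ 10 +
      857933079843840 * u ^ 11 + 2697797379977700 * u ^ 12 + 8354817060870000 * u ^ 13 +
      25275076822800000 * u ^ 14 + 73716566916326400 * u ^ 15 + 202336618567208400 * u ^ 16 +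
      495386951658984000 * u ^ 17 + 912554910950760000 * u ^ 18 with hQd
  have hs0 : 0 ≤ √(1 - 4 * u) := Real.sqrt_nonneg _
  have hs2 : √(1 - 4 * u) ^ 2 = 1 - 4 * u := Real.sq_sqrt (by linarith)
  have hTQ : T ^ 2 = 1 - 4 * u + u ^ 20 * Q := by rw [hTd, hQd]; ring
  have hT1 : 1 / 2 ≤ T := by
    rw [hTd]
    linarith [hp 1, hp 2, hp 3, hp 4, hp 5, hp 6, hp 7, hp 8, hp 9, hp 10, hp 11, hp 12, hp 13, hp
        14, hp 15, hp 16, hp 17, hp 18, hp 19, pow_zero u]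
  have hQ0 : 0 ≤ Q := by rw [hQd]; positivity
  have hQ1 : Q ≤ 4 ^ 20 := by
    rw [hQd]
    linarith [hp 1, hp 2, hp 3, hp 4, hp 5, hp 6, hp 7, hp 8, hp 9, hp 10, hp 11, hp 12, hp 13, hp
        14, hp 15, hp 16, hp 17, hp 18, hp 19, pow_zero u]
  have hu : 0 ≤ u ^ 20 := pow_nonneg h0 _
  generalize √(1 - 4 * u) = s at hs0 hs2 ⊢
  have hQ2 : u ^ 20 * Q ≤ u ^ 20 * 4 ^ 20 := mul_le_mul_of_nonneg_left hQ1 hu
  have hQ3 : 0 ≤ u ^ 20 * Q := mul_nonneg hu hQ0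
  have hle : s ≤ T := by
    by_contra hc
    push Not at hc
    nlinarith
  rw [abs_sub_comm, abs_of_nonneg (by linarith)]
  have : (T - s) * (1 / 2) ≤ (T - s) * (T + s) :=
    mul_le_mul_of_nonneg_left (by linarith) (by linarith)
  nlinarith

theorem cat_le (o : ℕ) (h : o < 20) : |(cat o : ℝ)| ≤ 4 ^ o := by
  have : ∀ o < 20, |cat o| ≤ 4 ^ o := by decide
  exact_mod_cast this o h

theorem tayl : S_TAYL := by
  intro o u ho h0 h1
  induction ho using Nat.decreasingInduction with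
  | self => exact tayl_base u h0 h1
  | of_succ o ho ih =>
    rw [Finset.sum_range_succ] at ih
    have hu : 0 ≤ u ^ o := pow_nonneg h0 _
    have h2 : |(cat o : ℝ) * u ^ o| ≤ 4 ^ o * u ^ o := by
      rw [abs_mul, abs_of_nonneg hu]
      exact mul_le_mul_of_nonneg_right (cat_le o ho) hu
    have h3 : 2 * 4 ^ (o + 1) * u ^ (o + 1) ≤ 4 ^ o * u ^ o := by
      have h4 : (0 : ℝ) ≤ 4 ^ o * u ^ o := by positivity
      calc 2 * 4 ^ (o + 1) * u ^ (o + 1) = (4 ^ o * u ^ o) * (8 * u) := by ring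
        _ ≤ (4 ^ o * u ^ o) * 1 := mul_le_mul_of_nonneg_left h1 h4
        _ = _ := mul_one _
    have h5 := abs_add_le (√(1 - 4 * u) - (∑ k ∈ Finset.range o, (cat k : ℝ) * u ^ k +
      (cat o : ℝ) * u ^ o)) ((cat o : ℝ) * u ^ o)
    have h6 : √(1 - 4 * u) - (∑ k ∈ Finset.range o, (cat k : ℝ) * u ^ k + (cat o : ℝ) * u ^ o) +
      (cat o : ℝ) * u ^ o = √(1 - 4 * u) - ∑ k ∈ Finset.range o, (cat k : ℝ) * u ^ k := by ring
    rw [h6] at h5
    linarith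

end Pool.Agent.MP_2339ce_nt.Q2.TB
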