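import Mathlib.Algebra.Order.Floor.Semifield
import Mathlib.Tactic.IntervalCases
import Pool.Agent.MP_2339ce_nt.Q2.TBSpec

/-! Project Q2, block TB: bounds for powers of two. -/

set_option autoImplicit false

namespace Pool.Agent.MP_2339ce_nt.Q2.TB

namespace Ubx

theorem mono {s t : ℝ} (h : s ≤ t) : (2 : ℝ) ^ s ≤ 2 ^ t :=
  Real.rpow_le_rpow_of_exponent_le one_le_two h

theorem pos (s : ℝ) : 0 < (2 : ℝ) ^ s := Real.rpow_pos_of_pos two_pos s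

theorem shr (a k : ℕ) : ((Nat.shiftRight a k : ℕ) : ℝ) ≤ a * 2 ^ (-(k : ℝ)) ∧
    a * 2 ^ (-(k : ℝ)) ≤ ((Nat.succ (Nat.shiftRight a k) : ℕ) : ℝ) := by
  have e : Nat.shiftRight a k = a / 2 ^ k := Nat.shiftRight_eq_div_pow a k
  have e' : (a : ℝ) * 2 ^ (-(k : ℝ)) = a / ((2 ^ k : ℕ) : ℝ) := by
    rw [Real.rpow_neg two_pos.le, Real.rpow_natCast, div_eq_mul_inv, Nat.cast_pow, Nat.cast_two]
  rw [e, e', Nat.cast_succ]
  refine ⟨Nat.cast_div_le, ?_⟩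
  rw [← Nat.floor_div_eq_div (K := ℝ)]
  exact (Nat.lt_floor_add_one _).le

theorem shl (a k : ℕ) : ((Nat.shiftLeft a k : ℕ) : ℝ) = a * 2 ^ (k : ℝ) := by
  have e : Nat.shiftLeft a k = a * 2 ^ k := Nat.shiftLeft_eq a k
  rw [e, Real.rpow_natCast, Nat.cast_mul, Nat.cast_pow, Nat.cast_two]

theorem p8 (g : ℕ) : ((2 : ℝ) ^ ((g : ℝ) / 8 + 16)) ^ 8 = ((2 ^ g * 65536 ^ 8 : ℕ) : ℝ) := by
  rw [← Real.rpow_natCast, ← Real.rpow_mul two_pos.le,
    show ((g : ℝ) / 8 + 16) * (8 : ℕ) = ((g + 128 : ℕ) : ℝ) by push_cast; ring, Real.rpow_natCast,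
    pow_add]
  norm_num

theorem tab (g : ℕ) (h : g < 8) : (2 : ℝ) ^ ((g : ℝ) / 8 + 16) ≤ tU g ∧
    (tL g : ℝ) ≤ 2 ^ ((g : ℝ) / 8 + 16) := by
  have a : 2 ^ g * 65536 ^ 8 ≤ tU g ^ 8 ∧ tL g ^ 8 ≤ 2 ^ g * 65536 ^ 8 := by
    interval_cases g <;> norm_num [tU, tL]
  constructor
  · refine le_of_pow_le_pow_left₀ (n := 8) (by norm_num) (Nat.cast_nonneg _) ?_
    rw [p8]
    exact_mod_cast a.1
  · refine le_of_pow_le_pow_left₀ (n := 8) (by norm_num) (pos _).le ?_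
    rw [p8]
    exact_mod_cast a.2

theorem dm (f : ℕ) : (f : ℝ) = 8 * (f / 8 : ℕ) + (f % 8 : ℕ) := by
  exact_mod_cast (Nat.div_add_mod f 8).symm

theorem ub (c f : ℕ) (h : f ≤ 32800) : (c : ℝ) * 2 ^ ((f : ℝ) / 8 - 3984) ≤ ubN c f := by
  refine le_trans ?_ (shr _ _).2
  have h1 : f / 8 ≤ 4100 := by omega
  have h2 : ((Nat.sub 4100 (Nat.div f 8) : ℕ) : ℝ) = 4100 - (f / 8 : ℕ) := by
    exact_mod_cast Nat.cast_sub (R := ℝ) h1
  have h3 : ((Nat.mul c (tU (Nat.mod f 8)) : ℕ) : ℝ) = c * tU (f % 8) := Nat.cast_mul _ _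
  rw [shl, h2, h3, mul_assoc, mul_assoc, ← Real.rpow_add two_pos,
    show (f : ℝ) / 8 - 3984 = ((f % 8 : ℕ) : ℝ) / 8 + 16 +
      (((100 : ℕ) : ℝ) + -(4100 - ((f / 8 : ℕ) : ℝ))) by
      have := dm f; rw [Nat.cast_ofNat]; linarith, Real.rpow_add two_pos]
  exact mul_le_mul_of_nonneg_left (mul_le_mul_of_nonneg_right
    (tab _ (Nat.mod_lt _ (by norm_num))).1 (pos _).le) (Nat.cast_nonneg _)

theorem lb (c f : ℕ) : (lbN c f : ℝ) ≤ (c : ℝ) * 2 ^ ((f : ℝ) / 8 - 3984) := by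
  refine le_trans (shr _ _).1 ?_
  have h2 : (4100 : ℝ) - (f / 8 : ℕ) ≤ ((Nat.sub 4100 (Nat.div f 8) : ℕ) : ℝ) := by
    have : 4100 ≤ (4100 - f / 8) + f / 8 := by omega
    have k : (4100 : ℝ) ≤ ((4100 - f / 8 : ℕ) : ℝ) + (f / 8 : ℕ) := by exact_mod_cast this
    exact sub_le_iff_le_add.2 k
  have h3 : ((Nat.mul c (tL (Nat.mod f 8)) : ℕ) : ℝ) = c * tL (f % 8) := Nat.cast_mul _ _
  generalize ((Nat.sub 4100 (Nat.div f 8) : ℕ) : ℝ) = z at h2 ⊢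
  rw [shl, h3, mul_assoc, mul_assoc, ← Real.rpow_add two_pos,
    show (f : ℝ) / 8 - 3984 = ((f % 8 : ℕ) : ℝ) / 8 + 16 +
      (((100 : ℕ) : ℝ) + -(4100 - ((f / 8 : ℕ) : ℝ))) by
      have := dm f; rw [Nat.cast_ofNat]; linarith, Real.rpow_add two_pos (_ + 16)]
  exact mul_le_mul_of_nonneg_left (mul_le_mul (tab _ (Nat.mod_lt _ (by norm_num))).2
    (mono (by linarith)) (pos _).le (pos _).le) (Nat.cast_nonneg _)

theorem nrm (c y : ℝ) : c * 2 ^ (y / 1200) * 2 ^ 56 = c * 2 ^ (y / 1200 + 56) := by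
  rw [Real.rpow_add two_pos, mul_assoc, ← Real.rpow_natCast, Nat.cast_ofNat]

theorem ubq (c : ℕ) (Z : ℤ) (t : ℝ) (k l : ℕ) (hk : (k : ℝ) = 3984) (h : t ≤ Z / 1200 - 3984) :
    @Int.rec (fun _ => ℕ) (fun n => @Bool.rec (fun _ => ℕ) l
      (ubN c (Nat.div (Nat.add n 149) 150)) (Nat.ble n 4920000))
      (fun _ => Nat.succ (Nat.shiftRight c k)) Z < l →
    (c : ℝ) * 2 ^ t ≤ (@Int.rec (fun _ => ℕ) (fun n => @Bool.rec (fun _ => ℕ) l
      (ubN c (Nat.div (Nat.add n 149) 150)) (Nat.ble n 4920000))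
      (fun _ => Nat.succ (Nat.shiftRight c k)) Z : ℕ) := by
  cases Z with
  | ofNat n =>
    dsimp only
    cases e : Nat.ble n 4920000 with
    | false => exact fun h => absurd h (lt_irrefl _)
    | true =>
      have h1 : n ≤ 4920000 := Nat.le_of_ble_eq_true e
      have h2 : n ≤ 150 * ((n + 149) / 150) := by omega
      have h3 : (n : ℝ) ≤ 150 * (((n + 149) / 150 : ℕ) : ℝ) := by exact_mod_cast h2
      have h4 : ((Int.ofNat n : ℤ) : ℝ) = n := Int.cast_natCast n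
      exact fun _ => le_trans (mul_le_mul_of_nonneg_left (mono (by linarith)) (Nat.cast_nonneg _))
        (ub c ((n + 149) / 150) (by omega))
  | negSucc n =>
    have h4 : ((Int.negSucc n : ℤ) : ℝ) ≤ 0 := by exact_mod_cast (Int.negSucc_lt_zero n).le
    exact fun _ => le_trans (mul_le_mul_of_nonneg_left (mono (by linarith)) (Nat.cast_nonneg _))
      (shr c k).2

theorem lbq (c : ℕ) (Z : ℤ) (t : ℝ) (h : Z / 1200 - 3984 ≤ t) :
    ((@Int.rec (fun _ => ℕ) (fun n => lbN c (Nat.div n 150)) (fun _ => 0) Z : ℕ) : ℝ) ≤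
      c * 2 ^ t := by
  cases Z with
  | ofNat n =>
    have h3 : 150 * ((n / 150 : ℕ) : ℝ) ≤ n := by exact_mod_cast Nat.mul_div_le n 150
    have h4 : ((Int.ofNat n : ℤ) : ℝ) = n := Int.cast_natCast n
    exact le_trans (lb c (n / 150))
      (mul_le_mul_of_nonneg_left (mono (by linarith)) (Nat.cast_nonneg _))
  | negSucc n => exact Nat.cast_zero.trans_le (mul_nonneg (Nat.cast_nonneg _) (pos _).le)

end Ubx

theorem ubx_ok : S_UBX := by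
  intro c X y
  have e : ((Int.add X 4848000 : ℤ) : ℝ) = X + 4848000 := by
    rw [Int.add_def]; push_cast; rfl
  rw [Ubx.nrm]
  exact ⟨fun h => Ubx.ubq c _ _ 3984 _ Nat.cast_ofNat (by rw [e]; linarith),
    fun h => Ubx.lbq c _ _ (by rw [e]; linarith)⟩

end Pool.Agent.MP_2339ce_nt.Q2.TB
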