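import Pool.Agent.MP_2339ce_nt.Q2.TBSpec

/-! Project Q2, block TB: the rows UP and NZ. -/

set_option autoImplicit false

noncomputable section

namespace Pool.Agent.MP_2339ce_nt.Q2.TB

namespace UpNz

theorem pt_pos (q : Qd) : q.pt.Pos := by
  have h1 := q.ha
  have h2 := q.hb
  have h3 := q.hc
  have h4 := q.hd
  have h5 := q.hN
  have ha : (0 : ℝ) < q.a := by exact_mod_cast (by omega : (0 : ℤ) < q.a)
  have hb : (0 : ℝ) < q.b := by exact_mod_cast (by omega : (0 : ℤ) < q.b)
  have hc : (0 : ℝ) < q.c := by exact_mod_cast (by omega : (0 : ℤ) < q.c)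
  have hd : (0 : ℝ) < q.d := by exact_mod_cast (by omega : (0 : ℤ) < q.d)
  have hN : (0 : ℝ) < q.N := by exact_mod_cast (by omega : (0 : ℤ) < q.N)
  refine ⟨?_, ?_, ?_, ?_, ?_⟩ <;> simp only [Qd.pt] <;> positivity

theorem mon_pos {x : Pt} (hx : x.Pos) (i j k l m : ℕ) : 0 < mon x i j k l m := by
  obtain ⟨h1, h2, h3, h4, h5⟩ := hx
  unfold mon
  positivity

theorem two_le (B : Bx) (lo hi : Lf) (q : Qd) (hd : dom B = true) (hI : In B lo hi q) :
    2 * q.N ≤ q.a * q.b := by
  have h1 := q.ha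
  have h2 := q.hb
  have h5 := q.hN
  have ha : (0 : ℝ) < q.a := by exact_mod_cast (by omega : (0 : ℤ) < q.a)
  have hb : (0 : ℝ) < q.b := by exact_mod_cast (by omega : (0 : ℤ) < q.b)
  have hN : (0 : ℝ) < q.N := by exact_mod_cast (by omega : (0 : ℤ) < q.N)
  have hd' : B.L2 + 100 ≤ 2 * B.p1 + B.q1 := Nat.le_of_ble_eq_true hd
  have hr : (B.L2 : ℝ) + 100 ≤ 2 * B.p1 + B.q1 := by exact_mod_cast hd'
  have e1 := hI.1.L2
  have e2 := hI.1.p1
  have e3 := hI.1.q1
  have hl : Real.logb 2 (2 * (q.N : ℝ)) ≤ Real.logb 2 ((q.a : ℝ) * q.b) := by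
    rw [Real.logb_mul (by norm_num) hN.ne', Real.logb_mul ha.ne' hb.ne',
      Real.logb_self_eq_one (by norm_num)]
    unfold lg at e1 e2 e3
    linarith
  have := (Real.logb_le_logb (by norm_num : (1 : ℝ) < 2) (by positivity) (by positivity)).1 hl
  exact_mod_cast this

theorem abs_evL (x : Pt) (P : List Tm) : |evL x P| ≤ evA x P := by
  induction P with
  | nil => simp [evL, evA]
  | cons t P ih =>
    simp only [evL, evA, List.map_cons, List.sum_cons] at ih ⊢
    exact (abs_add_le _ _).trans (by linarith)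

theorem isP_iff (e : ℤ) : isP e = true ↔ 0 < e := by
  cases e with
  | ofNat n =>
    change Nat.ble 1 n = true ↔ _
    rw [Nat.ble_eq]
    simp only [Int.ofNat_eq_natCast]
    omega
  | negSucc n =>
    change false = true ↔ _
    have := Int.negSucc_lt_zero n
    constructor
    · intro h
      cases h
    · intro h
      omega

theorem pick_true (t : Tm) (P : List Tm) :
    pick true (t :: P) = @Bool.rec (fun _ => List Tm) (pick true P) (t :: pick true P) (isP t.c) :=
  rfl

theorem pick_false (t : Tm) (P : List Tm) :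
    pick false (t :: P) =
      @Bool.rec (fun _ => List Tm) (pick false P) (t :: pick false P) (!isP t.c) :=
  rfl

theorem evL_pick {x : Pt} (hx : x.Pos) (P : List Tm) :
    evL x P = evA x (pick true P) - evA x (pick false P) := by
  induction P with
  | nil => simp [evL, evA, pick]
  | cons t P ih =>
    rw [pick_true, pick_false]
    have hm := mon_pos hx t.i t.j t.k t.l t.m
    cases h : isP t.c with
    | true =>
      have h0 : (0 : ℝ) < t.c := by exact_mod_cast (isP_iff _).1 h
      have : |ev x t| = ev x t := abs_of_pos (mul_pos h0 hm)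
      simp only [evL, evA, List.map_cons, List.sum_cons, Bool.not_true] at ih ⊢
      linarith
    | false =>
      have h1 : ¬ 0 < t.c := fun h' => by
        rw [(isP_iff _).2 h'] at h
        cases h
      have h0 : (t.c : ℝ) ≤ 0 := by exact_mod_cast not_lt.1 h1
      have : |ev x t| = -ev x t := abs_of_nonpos (mul_nonpos_of_nonpos_of_nonneg h0 hm.le)
      simp only [evL, evA, List.map_cons, List.sum_cons, Bool.not_false] at ih ⊢
      linarith

end UpNz

open UpNz

theorem up_ok (h : S_SUM) : S_UP := by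
  intro n F P E B lo hi q hG hU hI
  unfold upOK at hU
  rw [Bool.and_eq_true, Nat.blt_eq] at hU
  obtain ⟨hd, hU⟩ := hU
  have hA := hG q (two_le B lo hi q hd hI)
  have h72 : (2 : ℕ) ^ 56 < 2 ^ 72 := by norm_num
  have h1 := (h B lo hi q (mk 1 n n n 1 0) P hI).1 (by omega)
  have h2 := (h B lo hi q (mk 1 n n n 1 0) E hI).1 (by omega)
  have hm := mon_pos (pt_pos q) n n n 1 0
  change _ ≤ _ * mon q.pt n n n 1 0 at h1 h2
  have hr : ((sumU B lo hi (mk 1 n n n 1 0) P : ℝ) + sumU B lo hi (mk 1 n n n 1 0) E) <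
      2 ^ 56 := by exact_mod_cast hU
  have h3 := abs_evL q.pt P
  unfold Ap at hA
  have h4 : |(W q F : ℝ) * mon q.pt n n n 1 0| ≤ evA q.pt P + evA q.pt E := by
    have := abs_sub_abs_le_abs_sub ((W q F : ℝ) * mon q.pt n n n 1 0) (evL q.pt P)
    linarith
  rw [abs_mul, abs_of_pos hm] at h4
  have h5 := mul_lt_mul_of_pos_right hr hm
  have h6 : |(W q F : ℝ)| * mon q.pt n n n 1 0 < 1 * mon q.pt n n n 1 0 := by
    have h7 : (0 : ℝ) < 2 ^ 56 := by positivity
    refine lt_of_mul_lt_mul_right ?_ h7.le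
    nlinarith
  have h8 : |(W q F : ℝ)| < 1 := lt_of_mul_lt_mul_right h6 hm.le
  have h9 : |W q F| < 1 := by exact_mod_cast h8
  exact Int.abs_lt_one_iff.1 h9

theorem nz_ok (h : S_SUM) : S_NZ := by
  intro n F P E B lo hi s g q hG hU hI hW
  unfold nzOK at hU
  rw [Bool.and_eq_true, Bool.and_eq_true, Nat.blt_eq, Nat.blt_eq] at hU
  obtain ⟨⟨hd, hU⟩, hL⟩ := hU
  have hA := hG q (two_le B lo hi q hd hI)
  have h1 := (h B lo hi q s (pick (!g) P) hI).1 (by omega)
  have h2 := (h B lo hi q s E hI).1 (by omega)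
  have h3 := (h B lo hi q s (pick g P) hI).2
  have hm := mon_pos (pt_pos q) s.i s.j s.k s.l s.m
  have hr : ((sumU B lo hi s (pick (!g) P) : ℝ) + sumU B lo hi s E) <
      sumL B lo hi s (pick g P) := by exact_mod_cast hL
  have h5 := mul_lt_mul_of_pos_right hr hm
  unfold Ap at hA
  rw [hW, Int.cast_zero, zero_mul, zero_sub, abs_neg, evL_pick (pt_pos q), abs_le] at hA
  have h4 : evA q.pt (pick g P) ≤ evA q.pt (pick (!g) P) + evA q.pt E := by
    cases g
    · simp only [Bool.not_false]
      linarith [hA.1]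
    · simp only [Bool.not_true]
      linarith [hA.2]
  nlinarith

end Pool.Agent.MP_2339ce_nt.Q2.TB
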