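import Pool.Agent.MP_2339ce_nt.Q2.TCSpec
import Pool.Agent.MP_2339ce_nt.Q2.TBSup
import Pool.Agent.MP_2339ce_nt.Q2.TBSum
import Pool.Agent.MP_2339ce_nt.Q2.TBUbx
import Pool.Agent.MP_2339ce_nt.Q2.TBMg
import Pool.Agent.MP_2339ce_nt.Q2.TBUpNz

/-! Project Q2, block TC, row CMP: compression of an expansion. -/

set_option autoImplicit false

namespace Pool.Agent.MP_2339ce_nt.Q2.TB

namespace Cmp

theorem sel_cons (g : Tm → ℝ) (j : ℕ) (t : Tm) (L : List Tm) (mask : ℕ) :
    ((sel j (t :: L) mask).map g).sum = (if mask % 8 = j then g t else 0) +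
      ((sel j L (Nat.shiftRight mask 3)).map g).sum := by
  have e : sel j (t :: L) mask = @Bool.rec (fun _ => List Tm) (sel j L (Nat.shiftRight mask 3))
    (t :: sel j L (Nat.shiftRight mask 3)) (Nat.beq (mask % 8) j) := rfl
  rw [e]
  cases h : Nat.beq (mask % 8) j
  · rw [if_neg (Nat.ne_of_beq_eq_false h), zero_add]
  · rw [if_pos (Nat.eq_of_beq_eq_true h)]
    exact List.sum_cons

theorem split (g : Tm → ℝ) (L : List Tm) (mask : ℕ) :
    (L.map g).sum = ∑ j ∈ Finset.range 8, ((sel j L mask).map g).sum := by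
  induction L generalizing mask with
  | nil => exact (Finset.sum_eq_zero fun _ _ => rfl).symm
  | cons t L ih =>
    simp only [sel_cons, Finset.sum_add_distrib]
    rw [← ih, Finset.sum_ite_eq, if_pos (Finset.mem_range.2 (Nat.mod_lt _ (by norm_num)))]
    exact List.sum_cons

theorem scl_ev (x : Pt) (L : List Tm) :
    evL x (scl L) = 4096 * evL x L ∧ evA x (scl L) = 4096 * evA x L := by
  induction L with
  | nil => simp [scl, evL, evA]
  | cons t L ih =>
    have e : scl (t :: L) = ⟨Int.mul 4096 t.c, t.key, t.i, t.j, t.k, t.l, t.m⟩ :: scl L := rfl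
    have e1 : ev x ⟨Int.mul 4096 t.c, t.key, t.i, t.j, t.k, t.l, t.m⟩ = 4096 * ev x t := by
      simp only [ev, Int.mul_def]
      push_cast
      ring
    rw [e, MG.evL_cons, MG.evA_cons, MG.evL_cons, MG.evA_cons, ih.1, ih.2, e1, abs_mul,
      abs_of_pos (by norm_num : (0 : ℝ) < 4096)]
    constructor <;> ring

theorem getD_le (x : Pt) (R : List Tm) (n : ℕ) :
    ∑ j ∈ Finset.range n, |ev x (R.getD j z0)| ≤ evA x R := by
  induction R generalizing n with
  | nil => simp [ev, z0, evA]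
  | cons t R ih =>
    rw [MG.evA_cons]
    cases n with
    | zero => simpa using add_nonneg (abs_nonneg (ev x t)) (by simpa using ih 0)
    | succ n =>
      rw [Finset.sum_range_succ', add_comm]
      exact add_le_add le_rfl (ih n)

theorem sumU_hi (B : Bx) (lo hi hi' : Lf) (s : Tm) (L : List Tm)
    (h : ∀ t ∈ L, Nat.ble s.l t.l = true) : sumU B lo hi s L = sumU B lo hi' s L := by
  induction L with
  | nil => rfl
  | cons t L ih =>
    have e : ∀ f, sumU B lo f s (t :: L) =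
      ubT B (Int.natAbs t.c) (fq lo f s t) + sumU B lo f s L := fun _ => rfl
    rw [e, e, ih fun u hu => h u (List.mem_cons_of_mem _ hu), fq, fq, h t List.mem_cons_self]

theorem grp_ok {B : Bx} {s : Tm} {L : List Tm} {q : Qd} (hB : B.Mem q.N q.a q.b q.c)
    (h : grp B s L = true) : 4096 * evA q.pt L ≤ |ev q.pt s| := by
  simp only [grp, grp2, Bool.and_eq_true, List.all_eq_true, Nat.blt_eq] at h
  obtain ⟨h1, h2, h3⟩ := h
  have h4 : In B lfc ⟨⌈600 * lg q.d⌉, 0, 0, 0, 0⟩ q := by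
    refine ⟨hB, ?_, by simpa [Lf.val] using Int.le_ceil _⟩
    have c0 : (0 : ℝ) < q.c := by
      have := q.ha; have := q.hb; have := q.hc; exact_mod_cast (by omega : 0 < q.c)
    have c1 : lg q.c ≤ lg q.d :=
      Real.logb_le_logb_of_le one_lt_two c0 (by exact_mod_cast q.hd.le)
    simp only [lfc, Lf.val]
    push_cast
    linarith
  have h5 := (sum_ok sup_ok ubx_ok fq_ok B lfc _ q s L h4).1
  rw [sumU_hi B lfc _ lfc s L h1] at h5
  have h6 := h5 h2
  have h7 : (sumU B lfc lfc s L : ℝ) * 4096 ≤ (Int.natAbs s.c : ℝ) * 2 ^ 56 := by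
    exact_mod_cast Nat.le_of_ble_eq_true h3
  have h8 := mul_le_mul_of_nonneg_right h7 (Sum.mon_pos q s.i s.j s.k s.l s.m).le
  rw [Sum.abs_ev]
  nlinarith

end Cmp

open Cmp in
theorem cmp_ok : S_CMP := by
  intro h F P E B mP mE R P' E' hG hc q hB hN
  simp only [cmpOK, Bool.and_eq_true, List.all_eq_true, List.mem_range] at hc
  obtain ⟨⟨h1, h2⟩, h3⟩ := hc
  refine ⟨W q F, ?_⟩
  have k0 : |W q F * mon q.pt h h h 1 0 - evL q.pt P| ≤ evA q.pt E := hG q hN
  have k1 : evL q.pt P = ∑ j ∈ Finset.range 7, evL q.pt (sel (j + 1) P mP) +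
      evL q.pt (sel 0 P mP) := (split _ P mP).trans (Finset.sum_range_succ' _ 7)
  have k2 : evA q.pt E = ∑ j ∈ Finset.range 7, evA q.pt (sel (j + 1) E mE) +
      evA q.pt (sel 0 E mE) := (split _ E mE).trans (Finset.sum_range_succ' _ 7)
  have k3 : evL q.pt P' = 4096 * evL q.pt (sel 0 P mP) :=
    (eq_ok _ _ _ h1).1.symm.trans (scl_ev _ _).1
  have k4 : evA q.pt E' = 4096 * evA q.pt (sel 0 E mE) + evA q.pt R := by
    rw [← (eq_ok _ _ _ h2).2, ← (scl_ev _ _).2]
    simp [evA]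
  have k5 : 4096 * (|∑ j ∈ Finset.range 7, evL q.pt (sel (j + 1) P mP)| +
      ∑ j ∈ Finset.range 7, evA q.pt (sel (j + 1) E mE)) ≤ evA q.pt R := by
    refine le_trans ?_ ((Finset.sum_le_sum fun j hj =>
      grp_ok hB (h3 j (Finset.mem_range.1 hj))).trans (getD_le q.pt R 7))
    rw [← Finset.mul_sum]
    refine mul_le_mul_of_nonneg_left ?_ (by norm_num)
    have e : ∀ X Y, evA q.pt (X ++ Y) = evA q.pt X + evA q.pt Y := fun X Y => by simp [evA]
    simp only [e, Finset.sum_add_distrib]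
    exact add_le_add ((Finset.abs_sum_le_sum_abs _ _).trans
      (Finset.sum_le_sum fun j _ => UpNz.abs_evL _ _)) le_rfl
  show |W q F * mon q.pt h h h 1 0 * 4096 - evL q.pt P'| ≤ evA q.pt E'
  rw [k1, k2] at k0
  rw [k3, k4]
  obtain ⟨k6, k7⟩ := abs_le.1 k0
  have k8 := le_abs_self (∑ j ∈ Finset.range 7, evL q.pt (sel (j + 1) P mP))
  have k9 := neg_abs_le (∑ j ∈ Finset.range 7, evL q.pt (sel (j + 1) P mP))
  exact abs_le.2 ⟨by linarith, by linarith⟩

end Pool.Agent.MP_2339ce_nt.Q2.TB
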