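import Pool.Agent.MP_2339ce_nt.Q2.TCSpec
import Pool.Agent.MP_2339ce_nt.Q2.TBSup

/-! Project Q2, block TC: windows for the fifth element from chains for a triple. -/

set_option autoImplicit false

namespace Pool.Agent.MP_2339ce_nt.Q2.TB

namespace Ew

theorem root {n : ℤ} (h : IsSquare n) : ∃ r : ℤ, 0 ≤ r ∧ r ^ 2 = n := by
  obtain ⟨r, hr⟩ := h
  exact ⟨|r|, abs_nonneg r, by rw [sq_abs, hr, sq]⟩

theorem lg_eq (a : ℤ) : DQ.lg a = lg (a : ℝ) := rfl

theorem smul_val (k : ℤ) (f : Lf) (N a b c : ℤ) :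
    (Lf.smul k f).val N a b c = k * f.val N a b c := by
  simp only [Lf.smul, Lf.val, Int.mul_def]
  push_cast
  ring

theorem add_val (f g : Lf) (N a b c : ℤ) :
    (f.add g).val N a b c = f.val N a b c + g.val N a b c := by
  simp only [Lf.add, Lf.val, Int.add_def]
  push_cast
  ring

theorem neg_val (f : Lf) (N a b c : ℤ) : f.neg.val N a b c = -f.val N a b c := by
  have h : ∀ x : ℤ, Int.neg x = -x := fun _ => rfl
  simp only [Lf.neg, Lf.val, h]
  push_cast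
  ring

theorem isP_false {e : ℤ} (h : isP e = false) : e ≤ 0 := by
  cases e with
  | ofNat n =>
    have h1 : Nat.ble 1 n = false := h
    have h2 : ¬ 1 ≤ n := fun h3 => by
      rw [Nat.ble_eq_true_of_le h3] at h1
      exact Bool.noConfusion h1
    have h4 : n = 0 := by omega
    subst h4
    exact le_refl _
  | negSucc n => exact (Int.negSucc_lt_zero n).le

theorem le0_ok {B : Bx} {f : Lf} {N a b c : ℤ} (hB : B.Mem N a b c) (h : le0 B f = true) :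
    f.val N a b c ≤ 0 := by
  simp only [le0, Bool.and_eq_true, Bool.not_eq_true'] at h
  have h1 := sup_ok B f N a b c hB h.1
  have h2 : ((sup B f : ℤ) : ℝ) ≤ 0 := by exact_mod_cast isP_false h.2
  linarith

theorem lg_mono {x y : ℤ} (hx : 0 < x) (hxy : x ≤ y) : lg (x : ℝ) ≤ lg (y : ℝ) := by
  unfold lg
  exact Real.logb_le_logb_of_le (by norm_num) (by exact_mod_cast hx) (by exact_mod_cast hxy)

theorem us0_ok (q : Qd) : us0.Ok q := by
  have ha := q.ha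
  have hb := q.hb
  have hc := q.hc
  have h1 := lg_mono (x := q.b - q.a) (y := q.b) (by omega) (by omega)
  have h2 := lg_mono (x := q.c - q.b) (y := q.c) (by omega) (by omega)
  have h3 := lg_mono (x := q.c - q.a) (y := q.c) (by omega) (by omega)
  refine ⟨?_, ?_, ?_⟩ <;> simp only [us0, Lf.val] <;> push_cast at h1 h2 h3 ⊢ <;> linarith

/-- the claim for a triple `P < Q < D` with fourth element `e` -/
theorem core (h1 : S_CHAIN) (cfs : List CF) (B : Bx) (lo hi : Lf) (ws : List Wd)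
    (hc : ∀ C ∈ cfs, C.Ok) (hok : eOK cfs B lo hi ws = true) (N P Q D e : ℤ) (hN : 1 ≤ N)
    (hP : 0 < P) (hQ : P < Q) (hD : Q < D) (he : D < e) (s1 : IsSquare (P * Q + -N))
    (s2 : IsSquare (P * D + -N)) (s3 : IsSquare (Q * D + -N)) (s4 : IsSquare (P * e + -N))
    (s5 : IsSquare (Q * e + -N)) (s6 : IsSquare (D * e + -N)) (hB : B.Mem N P Q D) :
    100 * lg (e : ℝ) ≤ lo.val N P Q D ∨ hi.val N P Q D ≤ 100 * lg (e : ℝ) := by
  obtain ⟨r, r0, hr⟩ := root s1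
  obtain ⟨s, s0, hs⟩ := root s2
  obtain ⟨t, t0, ht⟩ := root s3
  obtain ⟨x, x0, hx⟩ := root s4
  obtain ⟨y, y0, hy⟩ := root s5
  obtain ⟨z, z0, hz⟩ := root s6
  let q : Qd := ⟨N, P, Q, D, e, r, s, t, x, y, z, hN, hP, hQ, hD, he, r0, s0, t0, x0, y0, z0,
    by rw [hr]; ring, by rw [hs]; ring, by rw [ht]; ring, by rw [hx]; ring, by rw [hy]; ring,
    by rw [hz]; ring⟩
  simp only [eOK, Bool.and_eq_true] at hok
  rcases le_total (100 * lg (e : ℝ)) (lo.val N P Q D) with h | h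
  · exact Or.inl h
  · right
    have h2 : (lastHi ws (Lf.smul 6 lo)).val N P Q D ≤ 600 * lg (e : ℝ) := by
      refine h1 false cfs B us0 ws (Lf.smul 6 lo) q hc (fun h => Bool.noConfusion h) hB
        (us0_ok q) hok.1 ?_
      show (Lf.smul 6 lo).val N P Q D ≤ 600 * lg (e : ℝ)
      rw [smul_val]
      push_cast
      linarith
    have h3 := le0_ok hB hok.2
    rw [add_val, neg_val, smul_val] at h3
    push_cast at h3
    linarith

theorem trip_v (pr : ℕ) (N a b c d P Q : ℤ)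
    (h : (pr = 0 ∧ P = a ∧ Q = b) ∨ (pr = 1 ∧ P = b ∧ Q = c) ∨ (2 ≤ pr ∧ P = a ∧ Q = c))
    (m eN eP eQ eD : ℤ) :
    100 * (tripAf pr m eN eP eQ eD).v N a b c d = Lf.val ⟨m, eN, eP, eQ, eD⟩ N P Q d := by
  rcases h with ⟨h, rfl, rfl⟩ | ⟨h, rfl, rfl⟩ | ⟨h, rfl, rfl⟩
  · subst h
    simp only [tripAf, pairAf, Af.v, Lf.val, lg_eq]
    push_cast
    ring
  · subst h
    simp only [tripAf, pairAf, Af.v, Lf.val, lg_eq]
    push_cast
    ring
  · obtain ⟨k, rfl⟩ : ∃ k, pr = k + 2 := ⟨pr - 2, by omega⟩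
    simp only [tripAf, pairAf, Af.v, Lf.val, lg_eq]
    push_cast
    ring

theorem mem_of_sides (pr : ℕ) (B : Bx) (N a b c d P Q : ℤ)
    (h : (pr = 0 ∧ P = a ∧ Q = b) ∨ (pr = 1 ∧ P = b ∧ Q = c) ∨ (2 ≤ pr ∧ P = a ∧ Q = c))
    (hs : ∀ s ∈ bxSides pr B, 0 ≤ s.v N a b c d) : B.Mem N P Q d := by
  have key : ∀ m eN eP eQ eD : ℤ, tripAf pr m eN eP eQ eD ∈ bxSides pr B →
      0 ≤ (m : ℝ) + 100 * (eN * lg (N : ℝ) + eP * lg (P : ℝ) + eQ * lg (Q : ℝ) +
        eD * lg (d : ℝ)) := by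
    intro m eN eP eQ eD hm
    have h1 := hs _ hm
    have h2 := trip_v pr N a b c d P Q h m eN eP eQ eD
    simp only [Lf.val] at h2
    linarith
  refine ⟨?_, ?_, ?_, fun hf => ?_, ?_, fun hf => ?_, ?_, fun hf => ?_⟩
  · have := key (-(B.L1 : ℤ)) 1 0 0 0 (by simp [bxSides])
    push_cast at this
    linarith
  · have := key B.L2 (-1) 0 0 0 (by simp [bxSides])
    push_cast at this
    linarith
  · have := key (-(B.p1 : ℤ)) 0 1 0 0 (by simp [bxSides])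
    push_cast at this
    linarith
  · have := key B.p2 0 (-1) 0 0 (by simp [bxSides, hf])
    push_cast at this
    linarith
  · have := key (-(B.q1 : ℤ)) 0 (-1) 1 0 (by simp [bxSides])
    push_cast at this
    linarith
  · have := key B.q2 0 1 (-1) 0 (by simp [bxSides, hf])
    push_cast at this
    linarith
  · have := key (-(B.w1 : ℤ)) 0 0 (-1) 1 (by simp [bxSides])
    push_cast at this
    linarith
  · have := key B.w2 0 0 1 (-1) (by simp [bxSides, hf])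
    push_cast at this
    linarith

end Ew

theorem ew_ok (h1 : S_CHAIN) : S_EW := by
  intro cfs pr B lo hi ws hc hok N a b c d e hN _ hq _ _ hs
  have hab := hq.ab
  have hbc := hq.bc
  have hcd := hq.cd
  have ha := hq.a0
  have fin : ∀ P Q : ℤ,
      ((pr = 0 ∧ P = a ∧ Q = b) ∨ (pr = 1 ∧ P = b ∧ Q = c) ∨ (2 ≤ pr ∧ P = a ∧ Q = c)) →
      (100 * lg (e : ℝ) ≤ lo.val N P Q d ∨ hi.val N P Q d ≤ 100 * lg (e : ℝ)) →
      (∃ l ∈ (eWn pr B lo hi).lo, DQ.lg e ≤ l.v N a b c d) ∨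
        ∃ h ∈ (eWn pr B lo hi).hi, h.v N a b c d ≤ DQ.lg e := by
    intro P Q h h2
    have e1 := Ew.trip_v pr N a b c d P Q h lo.m lo.eN lo.ea lo.eb lo.ec
    have e2 := Ew.trip_v pr N a b c d P Q h hi.m hi.eN hi.ea hi.eb hi.ec
    have e3 : (⟨lo.m, lo.eN, lo.ea, lo.eb, lo.ec⟩ : Lf) = lo := rfl
    have e4 : (⟨hi.m, hi.eN, hi.ea, hi.eb, hi.ec⟩ : Lf) = hi := rfl
    rw [e3] at e1
    rw [e4] at e2
    rw [Ew.lg_eq]
    rcases h2 with h2 | h2
    · exact Or.inl ⟨_, List.mem_singleton.2 rfl, by linarith⟩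
    · exact Or.inr ⟨_, List.mem_singleton.2 rfl, by linarith⟩
  rcases Nat.lt_or_ge pr 2 with hp | hp
  · rcases Nat.lt_or_ge pr 1 with hp1 | hp1
    · have h0 : (pr = 0 ∧ a = a ∧ b = b) ∨ (pr = 1 ∧ a = b ∧ b = c) ∨ (2 ≤ pr ∧ a = a ∧ b = c) :=
        Or.inl ⟨by omega, rfl, rfl⟩
      exact fin a b h0 (Ew.core h1 cfs B lo hi ws hc hok N a b d e hN ha hab (by omega) hq.de
        hq.s1 hq.s3 hq.s6 hq.s4 hq.s7 hq.s10 (Ew.mem_of_sides pr B N a b c d a b h0 hs))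
    · have h0 : (pr = 0 ∧ b = a ∧ c = b) ∨ (pr = 1 ∧ b = b ∧ c = c) ∨ (2 ≤ pr ∧ b = a ∧ c = c) :=
        Or.inr (Or.inl ⟨by omega, rfl, rfl⟩)
      exact fin b c h0 (Ew.core h1 cfs B lo hi ws hc hok N b c d e hN (by omega) hbc hcd hq.de
        hq.s5 hq.s6 hq.s8 hq.s7 hq.s9 hq.s10 (Ew.mem_of_sides pr B N a b c d b c h0 hs))
  · have h0 : (pr = 0 ∧ a = a ∧ c = b) ∨ (pr = 1 ∧ a = b ∧ c = c) ∨ (2 ≤ pr ∧ a = a ∧ c = c) :=
      Or.inr (Or.inr ⟨hp, rfl, rfl⟩)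
    exact fin a c h0 (Ew.core h1 cfs B lo hi ws hc hok N a c d e hN ha (by omega) hcd hq.de
      hq.s2 hq.s3 hq.s8 hq.s4 hq.s9 hq.s10 (Ew.mem_of_sides pr B N a b c d a c h0 hs))

end Pool.Agent.MP_2339ce_nt.Q2.TB
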