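import Pool.Agent.MP_2339ce_nt.Q2.TDSpec
import Pool.Agent.MP_2339ce_nt.Q2.TCFastB

/-! Project Q2: faster copies of the checkers, with the same values. -/

set_option autoImplicit false

noncomputable section

namespace Pool.Agent.MP_2339ce_nt.Q2.TB

def upOK2 (h : ℕ) (P E : List Tm) (B : Bx) (lo hi : Lf) : Bool :=
  dom B && Nat.blt (sumU2 B lo hi (mk 1 h h h 1 0) P + sumU2 B lo hi (mk 1 h h h 1 0) E) (2 ^ 56)

def nz3 (Pu Pl E : List Tm) (B : Bx) (lo hi : Lf) (s : Tm) : Bool :=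
  frc (Nat.add (sumU2 B lo hi s Pu) (sumU2 B lo hi s E)) fun u =>
    dom B && Nat.blt u (2 ^ 72) && Nat.blt u (sumL2 B lo hi s Pl)

def nzOK2 (P E : List Tm) (B : Bx) (lo hi : Lf) (s : Tm) (g : Bool) : Bool :=
  @Bool.rec (fun _ => Bool) (nz3 (pick true P) (pick false P) E B lo hi s)
    (nz3 (pick false P) (pick true P) E B lo hi s) g

def sel2 (j : ℕ) (L : List Tm) : ℕ → List Tm :=
  @List.rec Tm (fun _ => ℕ → List Tm) (fun _ => []) (fun t _ ih mask =>
    @Bool.rec (fun _ => List Tm) (frc (Nat.shiftRight mask 3) ih)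
      (t :: frc (Nat.shiftRight mask 3) ih) (Nat.beq (Nat.mod mask 8) j)) L

def grpF (B : Bx) (s : Tm) (X Y : List Tm) : Bool :=
  frc s.l fun l => allA (fun t => Nat.ble l t.l) X && allA (fun t => Nat.ble l t.l) Y &&
    grp2 s (Nat.add (sumU2 B lfc lfc s X) (sumU2 B lfc lfc s Y))

def cmpOK2 (P E : List Tm) (B : Bx) (mP mE : ℕ) (R P' E' : List Tm) : Bool :=
  eqL (scl (sel2 0 P mP)) P' && eqL (scl (sel2 0 E mE) ++ R) E' &&
    (List.range 7).all fun j => frc (j + 1) fun j' =>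
      grpF B (R.getD j z0) (sel2 j' P mP) (sel2 j' E mE)

def winOK2 (C : CF) (X : Bx) (lo hi : Lf) (s : Tm) (g : Bool) : Bool :=
  subB X C.B &&
    Nat.blt (sumU2 X lo hi (mk 1 C.h C.h C.h 1 0) C.P + sumU2 X lo hi (mk 1 C.h C.h C.h 1 0) C.E)
      (2 ^ 68) && nzOK2 C.P C.E X lo hi s g

def wdOK2 (reg : Bool) (cfs : List CF) (B : Bx) (U : Us) (lo : Lf) (w : Wd) : Bool :=
  frc w.id fun n => @Bool.rec (fun _ => Bool) (hwOK2 reg n B U lo w.hi)
    (Nat.blt n cfs.length && winOK2 (cfs.getD n cf0) B lo w.hi w.s w.g) (Nat.beq w.ty 0)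

def chainOK2 (reg : Bool) (cfs : List CF) (B : Bx) (U : Us) (ws : List Wd) : Lf → Bool :=
  @List.rec Wd (fun _ => Lf → Bool) (fun _ => true) (fun w _ ih lo =>
    @Bool.rec (fun _ => Bool) false (ih w.hi) (wdOK2 reg cfs B U lo w)) ws

def clOK2 (reg : Bool) (cfs : List CF) (wt : List Wn) (B : Bx) (D : Df) (ws : List Wd)
    (ix : List ℕ) (pr i : ℕ) : Bool :=
  dfOK reg B D && chainOK2 reg cfs (dfB reg B D) (dfU reg D) ws lfc &&
    hpOKF wt ix pr i (dfB reg B D) (dfU reg D) (lastHi ws lfc)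

def chk2 (reg : Bool) (cfs : List CF) (wt : List Wn) (T : Tr) : Bx → Bool :=
  @Tr.rec (fun _ => Bx → Bool)
    (fun ax t _ _ il ir B => @Bool.rec (fun _ => Bool) false (ir (B.rgt ax t)) (il (B.lft ax t)))
    (fun D ws ix pr i B => clOK2 reg cfs wt B D ws ix pr i)
    (fun ρ u v u' v' B => rcOK reg B ρ u v u' v') (fun B => gpOK reg B)
    (fun ax n B => emOK B ax n) T

def eOK2 (cfs : List CF) (B : Bx) (lo hi : Lf) (ws : List Wd) : Bool :=
  chainOK2 false cfs B us0 ws (Lf.smul 6 lo) &&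
    le0 B ((Lf.smul 6 hi).add (lastHi ws (Lf.smul 6 lo)).neg)

def lvOK2 (cfs : List CF) (wt : List Wn) (B : Bx) (x : Lv) : Bool :=
  dfOK false B x.D &&
    (!x.sm || tstA 0 true B (dfU false x.D) x.h0 x.h0 fun t => allA t hw2) &&
    chainOK2 false cfs B (dfU false x.D) x.ws1 (st0 x.sm x.h0) &&
    chainOK2 false cfs B (dfU false x.D) x.ws2 (lastHi x.ws1 (st0 x.sm x.h0)) &&
    avOK B x.al x.be x.Dv (lastHi x.ws1 (st0 x.sm x.h0))
      (lastHi x.ws2 (lastHi x.ws1 (st0 x.sm x.h0))) &&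
    hpOKF wt x.ix x.pr x.i B (dfU false x.D) x.Dv

def chkD2 (cfs : List CF) (wt : List Wn) (T : Tr2) : Bx → Bool :=
  @Tr2.rec (fun _ => Bx → Bool)
    (fun ax t _ _ il ir B => @Bool.rec (fun _ => Bool) false (ir (B.rgt ax t)) (il (B.lft ax t)))
    (fun T B => chk2 false cfs wt T B) (fun x B => lvOK2 cfs wt B x) T

open Fast

theorem upOK2_eq : upOK2 = upOK := by
  funext h P E B lo hi
  rw [upOK2, sumU2_eq]
  rfl

theorem nzOK2_eq : nzOK2 = nzOK := by
  funext P E B lo hi s g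
  cases g <;> simp only [nzOK2, nz3, frc_eq, sumU2_eq, sumL2_eq] <;> rfl

theorem sel2_eq : sel2 = sel := rfl

theorem sumU_append (B : Bx) (lo hi : Lf) (s : Tm) (X Y : List Tm) :
    sumU B lo hi s (X ++ Y) = sumU B lo hi s X + sumU B lo hi s Y := by
  induction X with
  | nil => exact (Nat.zero_add _).symm
  | cons t X ih =>
    show Nat.add _ (sumU B lo hi s (X ++ Y)) = Nat.add _ (sumU B lo hi s X) + _
    rw [ih]
    exact (Nat.add_assoc _ _ _).symm

theorem grpF_eq (B : Bx) (s : Tm) (X Y : List Tm) : grpF B s X Y = grp B s (X ++ Y) := by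
  simp only [grpF, grp, frc_eq, allA_eq, sumU2_eq, List.all_append, sumU_append, Nat.add_eq]

theorem cmpOK2_eq : cmpOK2 = cmpOK := by
  funext P E B mP mE R P' E'
  simp only [cmpOK2, cmpOK, frc_eq, grpF_eq, sel2_eq]

theorem winOK2_eq : winOK2 = winOK := by
  funext C X lo hi s g
  rw [winOK2, sumU2_eq, nzOK2_eq]
  rfl

theorem wdOK2_eq : wdOK2 = wdOK := by
  funext reg cfs B U lo w
  rw [wdOK2, winOK2_eq, hwOK2_eq]
  rfl

theorem chainOK2_eq : chainOK2 = chainOK := by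
  funext reg cfs B U ws
  rw [chainOK2, wdOK2_eq]
  rfl

theorem clOK2_eq : clOK2 = clOK := by
  funext reg cfs wt B D ws ix pr i
  rw [clOK2, chainOK2_eq, hpOKF_eq]
  rfl

theorem chk2_eq : chk2 = chk := by
  funext reg cfs wt T
  rw [chk2, clOK2_eq]
  rfl

theorem eOK2_eq : eOK2 = eOK := by
  funext cfs B lo hi ws
  rw [eOK2, chainOK2_eq]
  rfl

theorem lvOK2_eq : lvOK2 = lvOK := by
  funext cfs wt B x
  rw [lvOK2, chainOK2_eq, hpOKF_eq, tstA_eq, allA_eq]
  have : tstS 0 true B (dfU false x.D) x.h0 x.h0 =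
      fun y => le0 B (afL (dfU false x.D) y x.h0) := by
    funext y
    rw [tst0, same_rec]
    rfl
  rw [this]
  rfl

theorem chkD2_eq : chkD2 = chkD := by
  funext cfs wt T
  rw [chkD2, chk2_eq, lvOK2_eq]
  rfl

end Pool.Agent.MP_2339ce_nt.Q2.TB
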