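import Pool.Agent.MP_2339ce_nt.Q2.TBSpec
import Pool.Agent.MP_2339ce_nt.Q2.SpecH

/-! Project Q2, block TC: compressed forms, windows, and the cover by boxes. -/

set_option autoImplicit false

noncomputable section

namespace Pool.Agent.MP_2339ce_nt.Q2.TB

/-- an expansion scaled by `4096`, valid on the box `B` -/
structure CF where
  h : ℕ
  P : List Tm
  E : List Tm
  B : Bx

def CF.Ok (C : CF) : Prop := ∀ q : Qd, C.B.Mem q.N q.a q.b q.c → 2 * q.N ≤ q.a * q.b →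
  ∃ w : ℤ, Ap q.pt (w * mon q.pt C.h C.h C.h 1 0 * 4096) (C.P, C.E)

/-- the terms whose octal digit in the mask is `j` -/
def sel (j : ℕ) (L : List Tm) : ℕ → List Tm :=
  @List.rec Tm (fun _ => ℕ → List Tm) (fun _ => []) (fun t _ ih mask =>
    @Bool.rec (fun _ => List Tm) (ih (Nat.shiftRight mask 3)) (t :: ih (Nat.shiftRight mask 3))
      (Nat.beq (Nat.mod mask 8) j)) L

def scl (L : List Tm) : List Tm :=
  L.map fun t => ⟨Int.mul 4096 t.c, t.key, t.i, t.j, t.k, t.l, t.m⟩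

def lfc : Lf := ⟨0, 0, 0, 0, 6⟩

def grp2 (s : Tm) (u : ℕ) : Bool :=
  Nat.blt u (2 ^ 72) && Nat.ble (u * 4096) (Int.natAbs s.c * 2 ^ 56)

def grp (B : Bx) (s : Tm) (L : List Tm) : Bool :=
  (L.all fun t => Nat.ble s.l t.l) && grp2 s (sumU B lfc lfc s L)

def z0 : Tm := ⟨0, 0, 0, 0, 0, 0, 0⟩

/-- digit `0`: the term is kept; digit `j + 1`: it is absorbed by the term number `j` of `R` -/
def cmpOK (P E : List Tm) (B : Bx) (mP mE : ℕ) (R P' E' : List Tm) : Bool :=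
  eqL (scl (sel 0 P mP)) P' && eqL (scl (sel 0 E mE) ++ R) E' &&
    (List.range 7).all fun j => grp B (R.getD j z0) (sel (j + 1) P mP ++ sel (j + 1) E mE)

def subB (X B : Bx) : Bool :=
  Nat.ble B.L1 X.L1 && Nat.ble X.L2 B.L2 && Nat.ble B.p1 X.p1 && Nat.ble B.q1 X.q1 &&
    Nat.ble B.w1 X.w1 && (B.fp || (!X.fp && Nat.ble X.p2 B.p2)) &&
    (B.fq || (!X.fq && Nat.ble X.q2 B.q2)) && (B.fw || (!X.fw && Nat.ble X.w2 B.w2))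

def winOK (C : CF) (X : Bx) (lo hi : Lf) (s : Tm) (g : Bool) : Bool :=
  subB X C.B &&
    Nat.blt (sumU X lo hi (mk 1 C.h C.h C.h 1 0) C.P + sumU X lo hi (mk 1 C.h C.h C.h 1 0) C.E)
      (2 ^ 68) && nzOK C.P C.E X lo hi s g

def Lf.add (f g : Lf) : Lf :=
  ⟨Int.add f.m g.m, Int.add f.eN g.eN, Int.add f.ea g.ea, Int.add f.eb g.eb, Int.add f.ec g.ec⟩

def Lf.smul (k : ℤ) (f : Lf) : Lf :=
  ⟨Int.mul k f.m, Int.mul k f.eN, Int.mul k f.ea, Int.mul k f.eb, Int.mul k f.ec⟩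

def pp (e : ℤ) : ℤ := @Int.rec (fun _ => ℤ) (fun n => Int.ofNat n) (fun _ => 0) e

/-- upper bounds for `600 lg (b - a)`, `600 lg (c - b)`, `600 lg (c - a)` -/
structure Us where
  U1 : Lf
  U2 : Lf
  U3 : Lf

def Us.Ok (U : Us) (q : Qd) : Prop :=
  600 * lg (q.b - q.a : ℤ) ≤ U.U1.val q.N q.a q.b q.c ∧
  600 * lg (q.c - q.b : ℤ) ≤ U.U2.val q.N q.a q.b q.c ∧
  600 * lg (q.c - q.a : ℤ) ≤ U.U3.val q.N q.a q.b q.c

/-- an upper bound of `600 x`, with `600 lg d` replaced by `D` -/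
def afL (U : Us) (x : Af) (D : Lf) : Lf :=
  ((((Lf.smul x.k D).add (Lf.smul 6 ⟨x.m, x.eN, x.ea, x.eb, x.ec⟩)).add
    (Lf.smul (pp x.e1) U.U1)).add (Lf.smul (pp x.e2) U.U2)).add (Lf.smul (pp x.e3) U.U3)

def le0 (B : Bx) (f : Lf) : Bool := !bad B f && !isP (sup B f)

def lt0 (B : Bx) (f : Lf) : Bool := !bad B f && !isP (Int.add (sup B f) 1)

def Af.neg (x : Af) : Af :=
  ⟨-x.k, -x.m, -x.eN, -x.ea, -x.eb, -x.ec, -x.e1, -x.e2, -x.e3⟩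

/-- the windows proved by hand: it is impossible that all the monomials of a list are `≤ 1` -/
def hw (i : ℕ) : List Af :=
  match i with
  | 0 => [⟨0, 1000, 1, -1, -1, 0, 0, 0, 0⟩, ⟨0, 600, 7, -4, -4, -4, 2, 2, 2⟩,
      ⟨-3, -332, 4, -1, -1, -1, 2, 2, 2⟩, ⟨1, -1181, 8, -5, -5, -5, 2, 2, 2⟩]
  | 1 => [⟨0, 1000, 1, -1, -1, 0, 0, 0, 0⟩, ⟨-3, 1700, 4, -1, -1, -1, 2, 2, 2⟩,
      ⟨1, -1181, 8, -5, -5, -5, 2, 2, 2⟩]
  | 2 => [⟨0, 1000, 1, -1, -1, 0, 0, 0, 0⟩, ⟨0, 453, 3, -1, -1, -2, 2, 0, 0⟩,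
      ⟨-1, -158, 2, 0, 0, -1, 2, 0, 0⟩, ⟨1, -588, 4, -2, -2, -3, 2, 0, 0⟩]
  | 3 => [⟨0, 1000, 1, -1, -1, 0, 0, 0, 0⟩, ⟨-1, 800, 2, 0, 0, -1, 2, 0, 0⟩,
      ⟨1, -588, 4, -2, -2, -3, 2, 0, 0⟩]
  | 4 => [⟨0, 600, 1, -1, -1, 0, 0, 0, 0⟩, ⟨0, 233, 2, 0, -1, 0, 0, 0, 0⟩,
      ⟨0, 200, 2, -1, -1, 0, 0, 0, 0⟩, ⟨1, -176, 2, 0, -1, -1, 0, 0, 0⟩]
  | _ => [⟨0, 1000, 1, -1, -1, 0, 0, 0, 0⟩, ⟨1, -199, 2, -1, -1, -1, 0, 0, 0⟩]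

def hwOK (reg : Bool) (i : ℕ) (B : Bx) (U : Us) (lo hi : Lf) : Bool :=
  (reg || Nat.ble i 4) &&
    (hw i).all fun x => le0 B (afL U x (@Bool.rec (fun _ => Lf) lo hi (isP x.k)))

/-- a window of a chain: a compressed form (`ty = 0`) or a window proved by hand -/
structure Wd where
  ty : ℕ
  id : ℕ
  hi : Lf
  s : Tm
  g : Bool

def cf0 : CF := ⟨0, [], [z0], ⟨1, 0, 0, 0, 0, 0, 0, 0, false, false, false⟩⟩

def wdOK (reg : Bool) (cfs : List CF) (B : Bx) (U : Us) (lo : Lf) (w : Wd) : Bool :=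
  @Bool.rec (fun _ => Bool) (hwOK reg w.id B U lo w.hi)
    (Nat.blt w.id cfs.length && winOK (cfs.getD w.id cf0) B lo w.hi w.s w.g) (Nat.beq w.ty 0)

def chainOK (reg : Bool) (cfs : List CF) (B : Bx) (U : Us) (ws : List Wd) : Lf → Bool :=
  @List.rec Wd (fun _ => Lf → Bool) (fun _ => true) (fun w _ ih lo =>
    @Bool.rec (fun _ => Bool) false (ih w.hi) (wdOK reg cfs B U lo w)) ws

def lastHi (ws : List Wd) : Lf → Lf :=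
  @List.rec Wd (fun _ => Lf → Lf) (fun lo => lo) (fun w _ ih _ => ih w.hi) ws

def wn0 : Wn := ⟨[], [], []⟩

def hpOK2 (ws : List Wn) (pr i : ℕ) (B : Bx) (U : Us) (D : Lf) : Bool :=
  ((sidesW ws).all fun s => !isP (Int.neg s.k) && le0 B (afL U (Af.neg s) D)) &&
    (linksW ws pr i).all fun M => !isP M.k && lt0 B (afL U M D)

def hpOK (wt : List Wn) (ix : List ℕ) (pr i : ℕ) (B : Bx) (U : Us) (D : Lf) : Bool :=
  (ix.all fun j => Nat.blt j wt.length) && hpOK2 (ix.map fun j => wt.getD j wn0) pr i B U D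

/-- data for the bounds of the differences -/
structure Df where
  u1 : ℕ
  v1 : ℕ
  k1 : ℕ
  u2 : ℕ
  v2 : ℕ
  k2 : ℕ
  w2 : ℕ

/-- `x / y ≤ 2 ^ (t / 100) ≤ u / v`, so `(x - y) / x ≤ (u - v) / u ≤ 2 ^ (-k / 600)` -/
def kOK (f : Bool) (t u v k : ℕ) : Bool :=
  Nat.beq k 0 || (!f && Nat.ble 1 v && Nat.ble v u && Nat.ble (2 ^ t * v ^ 100) (u ^ 100) &&
    Nat.ble ((u - v) ^ 600 * 2 ^ k) (u ^ 600))

def dfOK (reg : Bool) (B : Bx) (D : Df) : Bool :=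
  kOK B.fq B.q2 D.u1 D.v1 D.k1 &&
    @Bool.rec (fun _ => Bool) (kOK B.fw B.w2 D.u2 D.v2 D.k2)
      (Nat.ble 1 D.u2 && Nat.ble (D.u2 ^ 200) (2 ^ B.q1 * D.v2 ^ 200) &&
        Nat.ble ((D.u2 + D.v2) ^ 200) (2 ^ D.w2 * D.u2 ^ 200) &&
        Nat.ble ((2 * D.u2 + D.v2) ^ 600) (2 ^ D.k2 * (2 * D.u2) ^ 600)) reg

def dfB (reg : Bool) (B : Bx) (D : Df) : Bx :=
  @Bool.rec (fun _ => Bx) B { B with w2 := D.w2, fw := false } reg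

def dfU (reg : Bool) (D : Df) : Us :=
  ⟨⟨-(D.k1 : ℤ), 0, 0, 6, 0⟩,
    @Bool.rec (fun _ => Lf) ⟨-(D.k2 : ℤ), 0, 0, 0, 6⟩ ⟨600 + (D.k2 : ℤ), 0, 3, 3, 0⟩ reg,
    ⟨0, 0, 0, 0, 6⟩⟩

/-- a rectangle for `N, a, r` and `a t - r s` -/
structure Rc where
  N1 : ℕ
  N2 : ℕ
  a1 : ℕ
  a2 : ℕ
  R : ℕ
  x0 : ℕ
  x1 : ℕ

def Rc.Mem (ρ : Rc) (reg : Bool) (q : Qd) : Prop :=
  (ρ.N1 : ℤ) ≤ q.N ∧ q.N ≤ ρ.N2 ∧ (ρ.a1 : ℤ) ≤ q.a ∧ q.a ≤ ρ.a2 ∧ q.r ≤ ρ.R ∧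
    (reg = false → (ρ.x0 : ℤ) ≤ q.a * q.t - q.r * q.s ∧ q.a * q.t - q.r * q.s ≤ ρ.x1)

def big (B : Bx) : Bool := Nat.ble (B.L2 + 600) (2 * B.p1 + B.q1)

def x1OK (B : Bx) (ρ : Rc) (u v : ℕ) : Bool :=
  Nat.ble (2 ^ (4 * B.p2 + 2 * B.q2 + B.w2)) (ρ.x1 ^ 200) ||
    (big B && Nat.ble 1 v && Nat.ble (2 ^ B.w2 * v ^ 200) (u ^ 200) &&
      Nat.ble (32 * ρ.N2 * (u ^ 2 + v ^ 2)) (63 * ρ.x1 * u * v))

def x0OK (B : Bx) (ρ : Rc) (u v : ℕ) : Bool :=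
  Nat.ble ρ.x0 1 || (big B && Nat.ble 1 v && Nat.ble (u ^ 200) (2 ^ B.w1 * v ^ 200) &&
    Nat.ble (128 * ρ.x0 * v) (63 * ρ.N1 * u))

def rcOK (reg : Bool) (B : Bx) (ρ : Rc) (u v u' v' : ℕ) : Bool :=
  !B.fp && !B.fq && Nat.blt ((ρ.N1 - 1) ^ 100) (2 ^ B.L1) && Nat.blt (2 ^ B.L2) ((ρ.N2 + 1) ^ 100) &&
    Nat.blt ((ρ.a1 - 1) ^ 100) (2 ^ B.p1) && Nat.blt (2 ^ B.p2) ((ρ.a2 + 1) ^ 100) &&
    Nat.ble (2 ^ (2 * B.p2 + B.q2)) (ρ.R ^ 200) &&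
    (reg || (!B.fw && x1OK B ρ u v && x0OK B ρ u' v'))

def gpOK (reg : Bool) (B : Bx) : Bool :=
  !reg && !B.fw && Nat.ble B.w2 23 && Nat.blt (2 * B.L2) (B.p1 + B.q1)

/-- no integer `a` (`ax = 1`) or `N` (`ax = 0`) has its logarithm in the box -/
def emOK (B : Bx) (ax n : ℕ) : Bool :=
  @Bool.rec (fun _ => Bool)
    (!B.fp && Nat.blt (n ^ 100) (2 ^ B.p1) && Nat.blt (2 ^ B.p2) ((n + 1) ^ 100))
    (Nat.blt (n ^ 100) (2 ^ B.L1) && Nat.blt (2 ^ B.L2) ((n + 1) ^ 100)) (Nat.beq ax 0)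

inductive Tr where
  | nd (ax cut : ℕ) (l r : Tr) : Tr
  | cl (D : Df) (ws : List Wd) (ix : List ℕ) (pr i : ℕ) : Tr
  | fn (ρ : Rc) (u v u' v' : ℕ) : Tr
  | gp : Tr
  | em (ax n : ℕ) : Tr

def Bx.lft (B : Bx) (ax t : ℕ) : Bx :=
  match ax with
  | 0 => { B with L2 := t }
  | 1 => { B with p2 := t, fp := false }
  | 2 => { B with q2 := t, fq := false }
  | _ => { B with w2 := t, fw := false }

def Bx.rgt (B : Bx) (ax t : ℕ) : Bx :=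
  match ax with
  | 0 => { B with L1 := t }
  | 1 => { B with p1 := t }
  | 2 => { B with q1 := t }
  | _ => { B with w1 := t }

def clOK (reg : Bool) (cfs : List CF) (wt : List Wn) (B : Bx) (D : Df) (ws : List Wd)
    (ix : List ℕ) (pr i : ℕ) : Bool :=
  dfOK reg B D && chainOK reg cfs (dfB reg B D) (dfU reg D) ws lfc &&
    hpOK wt ix pr i (dfB reg B D) (dfU reg D) (lastHi ws lfc)

def chk (reg : Bool) (cfs : List CF) (wt : List Wn) (T : Tr) : Bx → Bool :=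
  @Tr.rec (fun _ => Bx → Bool)
    (fun ax t _ _ il ir B => @Bool.rec (fun _ => Bool) false (ir (B.rgt ax t)) (il (B.lft ax t)))
    (fun D ws ix pr i B => clOK reg cfs wt B D ws ix pr i)
    (fun ρ u v u' v' B => rcOK reg B ρ u v u' v') (fun B => gpOK reg B)
    (fun ax n B => emOK B ax n) T

def rects (T : Tr) : List Rc → List Rc :=
  @Tr.rec (fun _ => List Rc → List Rc) (fun _ _ _ _ il ir acc => il (ir acc))
    (fun _ _ _ _ _ acc => acc) (fun ρ _ _ _ _ acc => ρ :: acc) (fun acc => acc)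
    (fun _ _ acc => acc) T

def Rg (reg : Bool) (q : Qd) : Prop :=
  (reg = true → q.c = q.a + q.b + 2 * q.r) ∧ (reg = false → q.c ≠ q.a + q.b + 2 * q.r)

/-- every quintuple whose first elements lie in the box lies in one of the rectangles -/
def Sem (reg : Bool) (B : Bx) (rs : List Rc) : Prop :=
  ∀ (q : Qd) (e : ℤ), q.N ≤ 256 → DQ.Qt (-q.N) q.a q.b q.c q.d e → Rg reg q →
    B.Mem q.N q.a q.b q.c → ∃ ρ ∈ rs, ρ.Mem reg q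

def root : Bx := ⟨0, 799, 0, 0, 0, 0, 0, 0, true, true, true⟩

/-- a monomial in the triple `(a, b, d)`, `(b, c, d)` or `(a, c, d)` -/
def tripAf (pr : ℕ) (m eN eP eQ eD : ℤ) : Af := pairAf pr eD m eN eP eQ 0

def bxSides (pr : ℕ) (B : Bx) : List Af :=
  [tripAf pr (-(B.L1 : ℤ)) 1 0 0 0, tripAf pr B.L2 (-1) 0 0 0, tripAf pr (-(B.p1 : ℤ)) 0 1 0 0,
    tripAf pr (-(B.q1 : ℤ)) 0 (-1) 1 0, tripAf pr (-(B.w1 : ℤ)) 0 0 (-1) 1] ++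
  (if B.fp then [] else [tripAf pr B.p2 0 (-1) 0 0]) ++
  (if B.fq then [] else [tripAf pr B.q2 0 1 (-1) 0]) ++
  (if B.fw then [] else [tripAf pr B.w2 0 0 1 (-1)])

/-- the window for `e`; the ends are `lo / 100` and `hi / 100` -/
def eWn (pr : ℕ) (B : Bx) (lo hi : Lf) : Wn :=
  ⟨bxSides pr B, [tripAf pr lo.m lo.eN lo.ea lo.eb lo.ec], [tripAf pr hi.m hi.eN hi.ea hi.eb hi.ec]⟩

def us0 : Us := ⟨⟨0, 0, 0, 6, 0⟩, ⟨0, 0, 0, 0, 6⟩, ⟨0, 0, 0, 0, 6⟩⟩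

def eOK (cfs : List CF) (B : Bx) (lo hi : Lf) (ws : List Wd) : Bool :=
  chainOK false cfs B us0 ws (Lf.smul 6 lo) &&
    le0 B ((Lf.smul 6 hi).add (lastHi ws (Lf.smul 6 lo)).neg)

def S_CMP : Prop := ∀ (h : ℕ) (F : List Cl) (P E : List Tm) (B : Bx) (mP mE : ℕ)
  (R P' E' : List Tm), Good h F P E → cmpOK P E B mP mE R P' E' = true → CF.Ok ⟨h, P', E', B⟩

def S_WIN : Prop := ∀ (C : CF) (X : Bx) (lo hi : Lf) (s : Tm) (g : Bool) (q : Qd), C.Ok →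
  winOK C X lo hi s g = true → In X lo hi q → False

def S_AFL : Prop := ∀ (B : Bx) (U : Us) (x : Af) (D : Lf) (q : Qd), B.Mem q.N q.a q.b q.c →
  U.Ok q → (x.k : ℝ) * (600 * lg q.d) ≤ x.k * D.val q.N q.a q.b q.c →
    (le0 B (afL U x D) = true → x.v q.N q.a q.b q.c q.d ≤ 0) ∧
    (lt0 B (afL U x D) = true → x.v q.N q.a q.b q.c q.d < 0)

def S_ST : Prop := ∀ q : Qd, 64 * q.N ≤ q.a * q.b → 5 * q.N ^ 2 ≤ q.b →
  4 * q.N ^ 2 ≤ q.a * q.b → 10 * (q.N ^ 2 * q.d) ≤ 34 * (q.b * q.c) → False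

def S_REGST : Prop := ∀ q : Qd, q.c = q.a + q.b + 2 * q.r → 1024 * q.N ≤ q.a * q.b →
  100 * (q.N ^ 2 * q.d) ≤ 398 * (q.a * q.b * q.c) → False

def S_HW : Prop := ∀ (i : ℕ) (q : Qd), (i ≤ 4 ∨ q.c = q.a + q.b + 2 * q.r) →
  (∀ x ∈ hw i, x.v q.N q.a q.b q.c q.d ≤ 0) → False

def S_CHAIN : Prop := ∀ (reg : Bool) (cfs : List CF) (B : Bx) (U : Us) (ws : List Wd) (lo : Lf)
  (q : Qd), (∀ C ∈ cfs, C.Ok) → (reg = true → q.c = q.a + q.b + 2 * q.r) →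
    B.Mem q.N q.a q.b q.c → U.Ok q → chainOK reg cfs B U ws lo = true →
    lo.val q.N q.a q.b q.c ≤ 600 * lg q.d → (lastHi ws lo).val q.N q.a q.b q.c ≤ 600 * lg q.d

def S_HPC : Prop := ∀ (wt : List Wn) (ix : List ℕ) (pr i : ℕ) (B : Bx) (U : Us) (D : Lf) (q : Qd)
  (e : ℤ), (∀ w ∈ wt, w.Ok) → q.N ≤ 256 → DQ.Qt (-q.N) q.a q.b q.c q.d e →
    B.Mem q.N q.a q.b q.c → U.Ok q → D.val q.N q.a q.b q.c ≤ 600 * lg q.d →
    hpOK wt ix pr i B U D = true → False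

def S_DF : Prop := ∀ (reg : Bool) (B : Bx) (D : Df) (q : Qd),
  (reg = true → q.c = q.a + q.b + 2 * q.r) → B.Mem q.N q.a q.b q.c → dfOK reg B D = true →
    (dfB reg B D).Mem q.N q.a q.b q.c ∧ (dfU reg D).Ok q

def S_XW : Prop := ∀ q : Qd, 1 ≤ q.a * q.t - q.r * q.s ∧
  (q.a * q.t - q.r * q.s) ^ 2 ≤ q.a ^ 2 * q.b * q.c ∧ (64 * q.N ≤ q.a * q.b →
    (63 * (q.a * q.t - q.r * q.s)) ^ 2 * (q.b * q.c) ≤ (32 * q.N * (q.b + q.c)) ^ 2 ∧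
    (63 * q.N) ^ 2 * q.c ≤ (128 * (q.a * q.t - q.r * q.s)) ^ 2 * q.b)

def S_RC : Prop := ∀ (reg : Bool) (B : Bx) (ρ : Rc) (u v u' v' : ℕ) (q : Qd),
  B.Mem q.N q.a q.b q.c → rcOK reg B ρ u v u' v' = true → ρ.Mem reg q

def S_GAP : Prop := ∀ q : Qd, q.N ≤ 256 → q.c ≠ q.a + q.b + 2 * q.r → q.N ^ 2 < q.b →
  1175 * q.b ≤ 1000 * q.c

def S_GP : Prop := ∀ (reg : Bool) (B : Bx) (q : Qd), q.N ≤ 256 → Rg reg q →
  B.Mem q.N q.a q.b q.c → (gpOK reg B = true → False) ∧ ∀ ax n, emOK B ax n = true → False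

def S_TREE : Prop := ∀ (reg : Bool) (cfs : List CF) (wt : List Wn) (T : Tr) (B : Bx)
  (acc : List Rc), (∀ C ∈ cfs, C.Ok) → (∀ w ∈ wt, w.Ok) → chk reg cfs wt T B = true →
    Sem reg B (rects T acc)

def S_ND : Prop := ∀ (reg : Bool) (B : Bx) (ax t : ℕ) (r1 r2 : List Rc),
  Sem reg (B.lft ax t) r1 → Sem reg (B.rgt ax t) r2 → Sem reg B (r1 ++ r2)

def S_ROOT : Prop := ∀ q : Qd, q.N ≤ 254 → root.Mem q.N q.a q.b q.c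

def S_EW : Prop := ∀ (cfs : List CF) (pr : ℕ) (B : Bx) (lo hi : Lf) (ws : List Wd),
  (∀ C ∈ cfs, C.Ok) → eOK cfs B lo hi ws = true → (eWn pr B lo hi).Ok

end Pool.Agent.MP_2339ce_nt.Q2.TB
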