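import Pool.Agent.MP_2339ce_nt.Q2.TCSpec
import Pool.Agent.MP_2339ce_nt.Q2.TBSup
import Pool.Agent.MP_2339ce_nt.Q2.TBSum
import Pool.Agent.MP_2339ce_nt.Q2.TBUbx
import Pool.Agent.MP_2339ce_nt.Q2.TBUpNz

/-! Project Q2, block TC: the row WIN. -/

set_option autoImplicit false

noncomputable section

namespace Pool.Agent.MP_2339ce_nt.Q2.TB

namespace Win

theorem ble_r {a b : ℕ} (h : Nat.ble a b = true) : (a : ℝ) ≤ b := by
  exact_mod_cast Nat.le_of_ble_eq_true h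

theorem side {f g : Bool} {u v : ℕ} {y : ℝ} (h : (f || (!g && Nat.ble u v)) = true)
    (hy : g = false → y ≤ u) (hf : f = false) : y ≤ v := by
  subst hf
  rw [Bool.false_or, Bool.and_eq_true] at h
  have hg : g = false := by
    cases g
    · rfl
    · exact absurd h.1 (by decide)
  exact (hy hg).trans (ble_r h.2)

theorem sub_mem {X B : Bx} (h : subB X B = true) {N a b c : ℤ} (hm : X.Mem N a b c) :
    B.Mem N a b c := by
  unfold subB at h
  simp only [Bool.and_eq_true (a := _ && _), Bool.and_eq_true (a := Nat.ble _ _)] at h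
  obtain ⟨⟨⟨⟨⟨⟨⟨h1, h2⟩, h3⟩, h4⟩, h5⟩, h6⟩, h7⟩, h8⟩ := h
  exact ⟨(ble_r h1).trans hm.L1, hm.L2.trans (ble_r h2), (ble_r h3).trans hm.p1, side h6 hm.p2,
    (ble_r h4).trans hm.q1, side h7 hm.q2, (ble_r h5).trans hm.w1, side h8 hm.w2⟩

end Win

open UpNz in
theorem win_ok : S_WIN := by
  have h : S_SUM := sum_ok sup_ok ubx_ok fq_ok
  intro C B lo hi s g q hG hW hI
  unfold winOK at hW
  rw [Bool.and_eq_true, Bool.and_eq_true, Nat.blt_eq] at hW
  obtain ⟨⟨hs, hU⟩, hZ⟩ := hW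
  unfold nzOK at hZ
  rw [Bool.and_eq_true, Bool.and_eq_true, Nat.blt_eq, Nat.blt_eq] at hZ
  obtain ⟨⟨hd, hV⟩, hL⟩ := hZ
  obtain ⟨w, hA⟩ := hG q (Win.sub_mem hs hI.1) (two_le B lo hi q hd hI)
  unfold Ap at hA
  have hw : w = 0 := by
    have h72 : (2 : ℕ) ^ 68 < 2 ^ 72 := by norm_num
    have h1 := (h B lo hi q (mk 1 C.h C.h C.h 1 0) C.P hI).1 (by omega)
    have h2 := (h B lo hi q (mk 1 C.h C.h C.h 1 0) C.E hI).1 (by omega)
    have hm := mon_pos (pt_pos q) C.h C.h C.h 1 0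
    change _ ≤ _ * mon q.pt C.h C.h C.h 1 0 at h1 h2
    have hr : ((sumU B lo hi (mk 1 C.h C.h C.h 1 0) C.P : ℝ) +
        sumU B lo hi (mk 1 C.h C.h C.h 1 0) C.E) < 2 ^ 68 := by exact_mod_cast hU
    have h3 := abs_evL q.pt C.P
    have h4 : |(w : ℝ) * mon q.pt C.h C.h C.h 1 0 * 4096| ≤ evA q.pt C.P + evA q.pt C.E := by
      have := abs_sub_abs_le_abs_sub ((w : ℝ) * mon q.pt C.h C.h C.h 1 0 * 4096) (evL q.pt C.P)
      linarith
    rw [abs_mul, abs_mul, abs_of_pos hm, abs_of_pos (by norm_num : (0 : ℝ) < 4096)] at h4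
    have h5 := mul_lt_mul_of_pos_right hr hm
    have h6 : |(w : ℝ)| * mon q.pt C.h C.h C.h 1 0 < 1 * mon q.pt C.h C.h C.h 1 0 := by
      linarith
    have h8 : |(w : ℝ)| < 1 := lt_of_mul_lt_mul_right h6 hm.le
    have h9 : |w| < 1 := by exact_mod_cast h8
    exact Int.abs_lt_one_iff.1 h9
  have h1 := (h B lo hi q s (pick (!g) C.P) hI).1 (by omega)
  have h2 := (h B lo hi q s C.E hI).1 (by omega)
  have h3 := (h B lo hi q s (pick g C.P) hI).2
  have hm := mon_pos (pt_pos q) s.i s.j s.k s.l s.m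
  have hr : ((sumU B lo hi s (pick (!g) C.P) : ℝ) + sumU B lo hi s C.E) <
      sumL B lo hi s (pick g C.P) := by exact_mod_cast hL
  have h5 := mul_lt_mul_of_pos_right hr hm
  rw [hw, Int.cast_zero, zero_mul, zero_mul, zero_sub, abs_neg, evL_pick (pt_pos q), abs_le] at hA
  have h4 : evA q.pt (pick g C.P) ≤ evA q.pt (pick (!g) C.P) + evA q.pt C.E := by
    cases g
    · simp only [Bool.not_false]
      linarith [hA.1]
    · simp only [Bool.not_true]
      linarith [hA.2]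
  linarith

end Pool.Agent.MP_2339ce_nt.Q2.TB
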