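import Pool.Agent.MP_2339ce_nt.Q2.TCSpec

/-! Project Q2, block TC: the size of `a t - r s` and the gap for irregular triples. -/

set_option autoImplicit false

namespace Pool.Agent.MP_2339ce_nt.Q2.TB

namespace XW

theorem sub_pos_of_sq {u v : ℤ} (hu : 0 ≤ u) (h : v ^ 2 < u ^ 2) : 1 ≤ u - v := by
  have := lt_of_pow_lt_pow_left₀ 2 hu h
  omega

theorem sum_sq_ge {u v M : ℤ} (hu : 0 ≤ u) (hv : 0 ≤ v) (hM : 0 ≤ M) (h1 : M ≤ u ^ 2)
    (h2 : M ≤ v ^ 2) : 4 * M ≤ (u + v) ^ 2 := by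
  have h3 : M ^ 2 ≤ (u * v) ^ 2 := by
    calc M ^ 2 = M * M := by ring
      _ ≤ u ^ 2 * v ^ 2 := mul_le_mul h1 h2 hM (by positivity)
      _ = (u * v) ^ 2 := by ring
  have h4 : M ≤ u * v := le_of_pow_le_pow_left₀ two_ne_zero (mul_nonneg hu hv) h3
  nlinarith

theorem main (N a b c r s t : ℤ) (hN : 1 ≤ N) (ha : 1 ≤ a) (hb : a < b) (hc : b < c)
    (r0 : 0 ≤ r) (s0 : 0 ≤ s) (t0 : 0 ≤ t) (hr : r ^ 2 = a * b - N) (hs : s ^ 2 = a * c - N)
    (ht : t ^ 2 = b * c - N) : 1 ≤ a * t - r * s ∧ (a * t - r * s) ^ 2 ≤ a ^ 2 * b * c ∧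
      (64 * N ≤ a * b → (63 * (a * t - r * s)) ^ 2 * (b * c) ≤ (32 * N * (b + c)) ^ 2 ∧
        (63 * N) ^ 2 * c ≤ (128 * (a * t - r * s)) ^ 2 * b) := by
  have a0 : 0 < a := by omega
  have b0 : 0 < b := by omega
  have c0 : 0 < c := by omega
  have N0 : 0 < N := by omega
  have e1 : (a * t) ^ 2 = a ^ 2 * (b * c - N) := by rw [mul_pow, ht]
  have e2 : (r * s) ^ 2 = (a * b - N) * (a * c - N) := by rw [mul_pow, hr, hs]
  have hab : N ≤ a * b := by nlinarith [sq_nonneg r]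
  have hac : a * b < a * c := mul_lt_mul_of_pos_left hc a0
  have haa : a * a < a * b := mul_lt_mul_of_pos_left hb a0
  have hbc : a * c < b * c := mul_lt_mul_of_pos_right hb c0
  have at0 : 0 ≤ a * t := mul_nonneg a0.le t0
  have rs0 : 0 ≤ r * s := mul_nonneg r0 s0
  obtain ⟨P, hP⟩ : ∃ P, P = a * b + a * c - a * a - N := ⟨_, rfl⟩
  have P0 : 0 < P := by omega
  have e3 : (a * t) ^ 2 - (r * s) ^ 2 = N * P := by rw [e1, e2, hP]; ring
  have NP : 0 < N * P := mul_pos N0 P0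
  have h1 : 1 ≤ a * t - r * s := sub_pos_of_sq at0 (by omega)
  have e4 : (a * t - r * s) ^ 2 * (a * t + r * s) ^ 2 = (N * P) ^ 2 := by rw [← e3]; ring
  have u1 : (a * t) ^ 2 ≤ a ^ 2 * (b * c) := by
    rw [e1]; exact mul_le_mul_of_nonneg_left (by omega) (by positivity)
  have u2 : (r * s) ^ 2 ≤ a ^ 2 * (b * c) := by omega
  refine ⟨h1, ?_, fun h64 => ⟨?_, ?_⟩⟩
  · have : (a * t - r * s) ^ 2 ≤ (a * t) ^ 2 := pow_le_pow_left₀ (by omega) (by omega) 2
    calc _ ≤ (a * t) ^ 2 := this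
      _ ≤ a ^ 2 * (b * c) := u1
      _ = _ := by ring
  · have l2 : 63 ^ 2 * (a ^ 2 * (b * c)) ≤ (64 * (r * s)) ^ 2 := by
      calc 63 ^ 2 * (a ^ 2 * (b * c)) = (63 * (a * b)) * (63 * (a * c)) := by ring
        _ ≤ (64 * (a * b - N)) * (64 * (a * c - N)) :=
          mul_le_mul (by omega) (by omega) (by omega) (by omega)
        _ = (64 * (r * s)) ^ 2 := by rw [mul_pow, e2]; ring
    have l1 : 63 ^ 2 * (a ^ 2 * (b * c)) ≤ (64 * (a * t)) ^ 2 :=
      l2.trans (pow_le_pow_left₀ (by omega) (by omega) 2)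
    have l3 := sum_sq_ge (by omega) (by omega) (by positivity) l1 l2
    have l4 : 63 ^ 2 * (a ^ 2 * (b * c)) ≤ 32 ^ 2 * (a * t + r * s) ^ 2 := by nlinarith
    have l5 : P ≤ a * (b + c) := by
      have : 0 ≤ a * a := by positivity
      rw [mul_add]; omega
    have l6 : (N * P) ^ 2 ≤ (N * (a * (b + c))) ^ 2 :=
      pow_le_pow_left₀ NP.le (mul_le_mul_of_nonneg_left l5 N0.le) 2
    refine le_of_mul_le_mul_left ?_ (pow_pos a0 2)
    calc a ^ 2 * ((63 * (a * t - r * s)) ^ 2 * (b * c))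
        = (a * t - r * s) ^ 2 * (63 ^ 2 * (a ^ 2 * (b * c))) := by ring
      _ ≤ (a * t - r * s) ^ 2 * (32 ^ 2 * (a * t + r * s) ^ 2) :=
          mul_le_mul_of_nonneg_left l4 (by positivity)
      _ = 32 ^ 2 * (N * P) ^ 2 := by rw [← e4]; ring
      _ ≤ 32 ^ 2 * (N * (a * (b + c))) ^ 2 := by omega
      _ = _ := by ring
  · have l1 : (a * t + r * s) ^ 2 ≤ 4 * (a ^ 2 * (b * c)) := by
      nlinarith [sq_nonneg (a * t - r * s)]
    have l2 : 63 * (a * c) ≤ 64 * P := by omega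
    have l3 : (N * (63 * (a * c))) ^ 2 ≤ (N * (64 * P)) ^ 2 :=
      pow_le_pow_left₀ (by positivity) (mul_le_mul_of_nonneg_left l2 N0.le) 2
    refine le_of_mul_le_mul_left ?_ (mul_pos (pow_pos a0 2) c0)
    calc a ^ 2 * c * ((63 * N) ^ 2 * c) = (N * (63 * (a * c))) ^ 2 := by ring
      _ ≤ (N * (64 * P)) ^ 2 := l3
      _ = 64 ^ 2 * ((a * t - r * s) ^ 2 * (a * t + r * s) ^ 2) := by rw [e4]; ring
      _ ≤ 64 ^ 2 * ((a * t - r * s) ^ 2 * (4 * (a ^ 2 * (b * c)))) :=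
          mul_le_mul_of_nonneg_left (mul_le_mul_of_nonneg_left l1 (by positivity)) (by norm_num)
      _ = _ := by ring

theorem gap (N a b c r s t : ℤ) (hN : 1 ≤ N) (ha : 1 ≤ a) (hb : a < b) (hc : b < c)
    (r0 : 0 ≤ r) (s0 : 0 ≤ s) (t0 : 0 ≤ t) (hr : r ^ 2 = a * b - N) (hs : s ^ 2 = a * c - N)
    (ht : t ^ 2 = b * c - N) (h256 : N ≤ 256) (hreg : c ≠ a + b + 2 * r) (hNb : N ^ 2 < b) :
    1175 * b ≤ 1000 * c := by
  have a0 : 0 < a := by omega
  have b0 : 0 < b := by omega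
  have N0 : 0 < N := by omega
  have hx := (main N a b c r s t hN ha hb hc r0 s0 t0 hr hs ht).1
  have hbc : b * b < b * c := mul_lt_mul_of_pos_left hc b0
  have hab : N ≤ a * b := by nlinarith [sq_nonneg r]
  have hy : 1 ≤ b * s - r * t := by
    refine sub_pos_of_sq (mul_nonneg b0.le s0) ?_
    have e : (b * s) ^ 2 - (r * t) ^ 2 = N * (a * b - N + (b * c - b * b)) := by
      rw [mul_pow, mul_pow, hr, hs, ht]; ring
    have : 0 < N * (a * b - N + (b * c - b * b)) := mul_pos N0 (by omega)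
    omega
  obtain ⟨X, hX⟩ : ∃ X, X = a * t - r * s := ⟨_, rfl⟩
  obtain ⟨Y, hY⟩ : ∃ Y, Y = b * s - r * t := ⟨_, rfl⟩
  obtain ⟨E, hE⟩ : ∃ E, E = 2 * (a * b * c) - 2 * (r * s * t) - N * (a + b + c) := ⟨_, rfl⟩
  have eX : X ^ 2 = a * E + N ^ 2 := by
    rw [hX, hE]; linear_combination a ^ 2 * ht + s ^ 2 * hr + (a * b - N) * hs
  have eY : Y ^ 2 = b * E + N ^ 2 := by
    rw [hY, hE]; linear_combination b ^ 2 * hs + t ^ 2 * hr + (a * b - N) * ht
  have eS : N * s = r * X + a * Y := by rw [hX, hY]; linear_combination s * hr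
  rw [← hX] at hx
  rw [← hY] at hy
  have E0 : 0 ≤ E := by
    by_contra h
    have : b * E ≤ b * (-1) := mul_le_mul_of_nonneg_left (by omega) b0.le
    have := sq_nonneg Y
    omega
  have E1 : 1 ≤ E := by
    by_contra h
    have h0 : E = 0 := by omega
    rw [h0, mul_zero, zero_add] at eX eY
    have x1 : X = N := (pow_left_inj₀ (by omega) N0.le two_ne_zero).1 eX
    have y1 : Y = N := (pow_left_inj₀ (by omega) N0.le two_ne_zero).1 eY
    have s1 : s = r + a := mul_left_cancel₀ N0.ne' (by rw [eS, x1, y1]; ring)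
    refine hreg (mul_left_cancel₀ a0.ne' ?_)
    rw [s1] at hs
    linear_combination hr - hs
  have aE : 0 < a * E := mul_pos a0 (by omega)
  have x1 : 1 ≤ X - N := sub_pos_of_sq (by omega) (by omega)
  have aE1 : 2 * N + 1 ≤ a * E := by
    have : (N + 1) ^ 2 ≤ X ^ 2 := pow_le_pow_left₀ (by omega) (by omega) 2
    linear_combination this + eX
  have hu : r ^ 2 * (2 * N + 1) ≤ (a * Y) ^ 2 := by
    calc r ^ 2 * (2 * N + 1) ≤ (a * b) * (a * E) :=
          mul_le_mul (by omega) aE1 (by omega) (by omega)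
      _ ≤ (a * b) * (a * E) + (a * N) ^ 2 := le_add_of_nonneg_right (by positivity)
      _ = (a * Y) ^ 2 := by rw [mul_pow a Y, eY]; ring
  have u0 : 0 ≤ a * Y := mul_nonneg a0.le (by omega)
  have rX : r * (N + 1) ≤ r * X := mul_le_mul_of_nonneg_left (by omega) r0
  have hba : b ≤ a * b := le_mul_of_one_le_left b0.le ha
  refine le_of_mul_le_mul_left ?_ a0
  have g1 : a * (1175 * b) = 1175 * (a * b) := by ring
  have g2 : a * (1000 * c) = 1000 * (a * c) := by ring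
  rw [g1, g2]
  by_cases h11 : 11 ≤ N
  · have k0 : N * N ≤ N * 256 := mul_le_mul_of_nonneg_left h256 N0.le
    have k1 : (923 * N - 10000) ^ 2 ≤ 10000 ^ 2 * (2 * N + 1) := by
      linear_combination 923 ^ 2 * k0 + 366176 * N0.le
    have k2 : ((923 * N - 10000) * r) ^ 2 ≤ (10000 * (a * Y)) ^ 2 := by
      calc ((923 * N - 10000) * r) ^ 2 = (923 * N - 10000) ^ 2 * r ^ 2 := by ring
        _ ≤ 10000 ^ 2 * (2 * N + 1) * r ^ 2 := mul_le_mul_of_nonneg_right k1 (by positivity)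
        _ = 10000 ^ 2 * (r ^ 2 * (2 * N + 1)) := by ring
        _ ≤ 10000 ^ 2 * (a * Y) ^ 2 := by omega
        _ = _ := by ring
    have k3 : (923 * N - 10000) * r ≤ 10000 * (a * Y) :=
      le_of_pow_le_pow_left₀ two_ne_zero (by omega) k2
    have k4 : 10923 * r ≤ 10000 * s := by
      refine le_of_mul_le_mul_left ?_ N0
      linear_combination k3 + 10000 * rX - 10000 * eS
    have k5 : (10923 * r) ^ 2 ≤ (10000 * s) ^ 2 := pow_le_pow_left₀ (by omega) k4 2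
    rw [mul_pow, mul_pow, hr, hs] at k5
    have k6 : 11 * N ≤ N ^ 2 := by
      rw [sq]; exact mul_le_mul_of_nonneg_right h11 N0.le
    omega
  · have k2 : r ^ 2 ≤ (a * Y) ^ 2 :=
      (le_mul_of_one_le_right (sq_nonneg r) (by omega)).trans hu
    have k3 : r ≤ a * Y := le_of_pow_le_pow_left₀ two_ne_zero u0 k2
    have k4 : 12 * r ≤ 10 * s := by
      refine le_of_mul_le_mul_left ?_ N0
      have : r * N ≤ r * 10 := mul_le_mul_of_nonneg_left (by omega) r0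
      linear_combination 10 * k3 + 10 * rX - 10 * eS + 2 * this
    have k5 : (12 * r) ^ 2 ≤ (10 * s) ^ 2 := pow_le_pow_left₀ (by omega) k4 2
    rw [mul_pow, mul_pow, hr, hs] at k5
    have k6 : 2 * N ≤ N ^ 2 + 1 := by linear_combination sq_nonneg (N - 1)
    omega

end XW

theorem xw_ok : S_XW := fun q =>
  XW.main q.N q.a q.b q.c q.r q.s q.t q.hN q.ha q.hb q.hc q.r0 q.s0 q.t0 q.hr q.hs q.ht

theorem gap_ok : S_GAP := fun q =>
  XW.gap q.N q.a q.b q.c q.r q.s q.t q.hN q.ha q.hb q.hc q.r0 q.s0 q.t0 q.hr q.hs q.ht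

end Pool.Agent.MP_2339ce_nt.Q2.TB
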