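import Pool.Agent.MP_2339ce_nt.Q2.TCSpec

/-! Project Q2, block TD: a second kind of closed leaf, for unbounded boxes and for small `a b`. -/

set_option autoImplicit false

noncomputable section

namespace Pool.Agent.MP_2339ce_nt.Q2.TB

def hw2 : List Af :=
  [⟨0, 1000, 1, -1, 0, -1, 0, 0, 0⟩, ⟨0, 300, 1, 0, 0, -1, 1, 0, 0⟩,
    ⟨1, -588, 4, -2, -2, -3, 2, 0, 0⟩]

def st0 (sm : Bool) (h0 : Lf) : Lf := @Bool.rec (fun _ => Lf) lfc h0 sm

def avOK (B : Bx) (al be : ℕ) (D D1 D2 : Lf) : Bool :=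
  Nat.ble 1 (al + be) &&
    le0 B ((Lf.smul (Int.ofNat (al + be)) D).add
      ((Lf.smul (Int.ofNat al) D1).add (Lf.smul (Int.ofNat be) D2)).neg)

/-- data of a leaf of the second kind -/
structure Lv where
  D : Df
  sm : Bool
  h0 : Lf
  ws1 : List Wd
  ws2 : List Wd
  al : ℕ
  be : ℕ
  Dv : Lf
  ix : List ℕ
  pr : ℕ
  i : ℕ

def lvOK (cfs : List CF) (wt : List Wn) (B : Bx) (x : Lv) : Bool :=
  dfOK false B x.D && (!x.sm || hw2.all fun y => le0 B (afL (dfU false x.D) y x.h0)) &&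
    chainOK false cfs B (dfU false x.D) x.ws1 (st0 x.sm x.h0) &&
    chainOK false cfs B (dfU false x.D) x.ws2 (lastHi x.ws1 (st0 x.sm x.h0)) &&
    avOK B x.al x.be x.Dv (lastHi x.ws1 (st0 x.sm x.h0))
      (lastHi x.ws2 (lastHi x.ws1 (st0 x.sm x.h0))) &&
    hpOK wt x.ix x.pr x.i B (dfU false x.D) x.Dv

inductive Tr2 where
  | nd (ax cut : ℕ) (l r : Tr2) : Tr2
  | old (T : Tr) : Tr2
  | lv (x : Lv) : Tr2

def chkD (cfs : List CF) (wt : List Wn) (T : Tr2) : Bx → Bool :=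
  @Tr2.rec (fun _ => Bx → Bool)
    (fun ax t _ _ il ir B => @Bool.rec (fun _ => Bool) false (ir (B.rgt ax t)) (il (B.lft ax t)))
    (fun T B => chk false cfs wt T B) (fun x B => lvOK cfs wt B x) T

def rectsD (T : Tr2) : List Rc → List Rc :=
  @Tr2.rec (fun _ => List Rc → List Rc) (fun _ _ _ _ il ir acc => il (ir acc))
    (fun T acc => rects T acc) (fun _ acc => acc) T

def S_WC2 : Prop := ∀ q : Qd, 1024 * q.N ≤ q.a * q.c → 8 * (q.N * (q.b - q.a)) ≤ q.c →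
  (q.b - q.a) ^ 2 * q.N ^ 4 * q.d ≤ 59 * ((q.a * q.b) ^ 2 * q.c ^ 3) → False

def S_HW2 : Prop := ∀ q : Qd, (∀ x ∈ hw2, x.v q.N q.a q.b q.c q.d ≤ 0) → False

def S_TREE2 : Prop := ∀ (cfs : List CF) (wt : List Wn) (T : Tr2) (B : Bx) (acc : List Rc),
  (∀ C ∈ cfs, C.Ok) → (∀ w ∈ wt, w.Ok) → chkD cfs wt T B = true → Sem false B (rectsD T acc)

end Pool.Agent.MP_2339ce_nt.Q2.TB
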