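import Pool.Agent.MP_2339ce_nt.Q2.TDSpec
import Pool.Agent.MP_2339ce_nt.Q2.TCTree
import Pool.Agent.MP_2339ce_nt.Q2.TCEw

/-! Project Q2, block TD: the cover tree with leaves of the second kind. -/

set_option autoImplicit false

namespace Pool.Agent.MP_2339ce_nt.Q2.TB

open Tree

theorem Tree.sub2 (T : Tr2) : ∀ acc, acc ⊆ rectsD T acc := by
  induction T with
  | nd _ _ _ _ il ir => exact fun acc => List.Subset.trans (ir acc) (il _)
  | old T => exact sub T
  | lv => exact fun acc => List.Subset.refl _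

theorem tree2_ok (h0 : S_TREE) (h1 : S_CHAIN) (h2 : S_HPC) (h3 : S_DF) (h4 : S_AFL) (h5 : S_HW2) :
    S_TREE2 := by
  intro cfs wt T B acc hc hw
  induction T generalizing B acc with
  | nd ax t l r il ir =>
    intro h
    change @Bool.rec (fun _ => Bool) false (chkD cfs wt r (B.rgt ax t))
      (chkD cfs wt l (B.lft ax t)) = true at h
    cases e : chkD cfs wt l (B.lft ax t) with
    | false => rw [e] at h; exact absurd h Bool.false_ne_true
    | true => rw [e] at h; exact nd (il _ _ e) (mono (ir _ acc h) (sub2 l _))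
  | old T => exact h0 false cfs wt T B acc hc hw
  | lv x =>
    intro h q e j1 j2 j3 j4
    change lvOK cfs wt B x = true at h
    simp only [lvOK, avOK, Bool.and_eq_true, Bool.or_eq_true, Bool.not_eq_true', List.all_eq_true,
      Nat.ble_eq] at h
    obtain ⟨⟨⟨⟨⟨i1, i2⟩, i3⟩, i4⟩, i5, i6⟩, i7⟩ := h
    have k2 := (h3 false B x.D q j3.1 j4 i1).2
    have k3 : lg q.c ≤ lg q.d := lgm (by exact_mod_cast j2.a0.trans (j2.ab.trans j2.bc))
      (by exact_mod_cast j2.cd.le)
    have k4 : (st0 x.sm x.h0).val q.N q.a q.b q.c ≤ 600 * lg q.d := by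
      cases e' : x.sm with
      | false => simp only [st0, lfc, Lf.val]; push_cast; linarith
      | true =>
        refine le_of_not_ge fun k => h5 q fun y hy => (h4 B _ y x.h0 q j4 k2
          (mul_le_mul_of_nonneg_left k (Int.cast_nonneg ?_))).1
          (i2.resolve_left (e' ▸ nofun) y hy)
        exact (by decide : ∀ y ∈ hw2, 0 ≤ y.k) y hy
    have k5 := h1 false cfs B _ x.ws1 _ q hc j3.1 j4 k2 i3 k4
    have k6 := h1 false cfs B _ x.ws2 _ q hc j3.1 j4 k2 i4 k5
    have k7 := Ew.le0_ok j4 i6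
    simp only [Ew.add_val, Ew.neg_val, Ew.smul_val, Int.ofNat_eq_natCast, Int.cast_natCast,
      Nat.cast_add, Int.cast_add] at k7
    have k8 : (0 : ℝ) < x.al + x.be := by exact_mod_cast i5
    refine (h2 wt x.ix x.pr x.i B _ x.Dv q e hw j1 j2 j4 k2 (le_of_mul_le_mul_left ?_ k8) i7).elim
    have := mul_le_mul_of_nonneg_left k5 (Nat.cast_nonneg x.al)
    have := mul_le_mul_of_nonneg_left k6 (Nat.cast_nonneg x.be)
    linarith

end Pool.Agent.MP_2339ce_nt.Q2.TB
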