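import Pool.Agent.MP_2339ce_nt.Q2.TDSpec
import Pool.Agent.MP_2339ce_nt.Q2.TCHw

/-! Project Q2, block TD: the window of the form `wc` for small `a b`. -/

set_option autoImplicit false

noncomputable section

namespace Pool.Agent.MP_2339ce_nt.Q2.TB

namespace Wc2

theorem key (q : Qd) (h : 1024 * q.N ≤ q.a * q.c) : 63680000 * (q.P ^ 2 * q.c * q.d) ≤
    1000000 * ((q.N * (q.b - q.a)) ^ 2 * (q.N * q.d + 5 * q.P) ^ 2) := by
  have ha := q.ha; have hb := q.hb; have hc := q.hc; have hd := q.hd; have hN := q.hN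
  have s0 := q.s0; have t0 := q.t0
  have x0 := q.x0; have y0 := q.y0; have z0 := q.z0
  have a0 : 0 < q.a := by omega
  have b0 : 0 < q.b := by omega
  have c0 : 0 < q.c := by omega
  have d0 : 0 < q.d := by omega
  have l0 : 0 < q.b - q.a := by omega
  have N0 : 0 < q.N := by omega
  have P0 : 0 < q.P := by unfold Qd.P; positivity
  have bc : q.a * q.c ≤ q.b * q.c := by gcongr
  have ad : q.a * q.c ≤ q.a * q.d := by gcongr
  have bd : q.a * q.d ≤ q.b * q.d := by gcongr
  have cd : q.b * q.d ≤ q.c * q.d := by gcongr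
  have hr := q.hr; have hs := q.hs; have ht := q.ht
  have hx := q.hx; have hy := q.hy; have hz := q.hz
  have m2 := Qd.tri q.x q.y q.z (q.a * q.d) (q.b * q.d) (q.c * q.d) (by positivity)
    (by positivity) (by omega) (by omega) (by omega)
  have e2 : q.a * q.d * (q.b * q.d) * (q.c * q.d) = q.P * q.d ^ 3 := by unfold Qd.P; ring
  rw [e2] at m2
  have pd : 0 < q.P * q.d ^ 3 := by positivity
  have xyz : 997 * (q.P * q.d ^ 3) ≤ 1000 * (q.x * q.y * q.z) ^ 2 := by omega
  have m3 : (1023 * (q.a * q.c)) * (1023 * (q.b * q.c)) ≤ (1024 * q.s ^ 2) * (1024 * q.t ^ 2) :=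
    mul_le_mul (by omega) (by omega) (by positivity) (by positivity)
  have e3 : q.P * q.c = q.a * q.c * (q.b * q.c) := by unfold Qd.P; ring
  have pc : 0 < q.P * q.c := by positivity
  have st : 998 * (q.P * q.c) ≤ 1000 * (q.s * q.t) ^ 2 := by
    have e4 : (q.s * q.t) ^ 2 = q.s ^ 2 * q.t ^ 2 := by ring
    linarith
  have Nc : q.N * q.c ≤ q.P := by
    have : q.N ≤ q.a * q.b := by have := sq_nonneg q.r; omega
    unfold Qd.P
    gcongr
  have e : (q.N * q.d + q.Ep) * (q.N * q.d + q.Em) = (q.N * q.d) ^ 2 +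
      q.N * q.d * (4 * q.P - 2 * (q.N * (q.a + q.b + q.c))) +
      q.N ^ 2 * ((q.c - q.a - q.b) ^ 2 - 4 * q.r ^ 2) := by
    have : (q.N * q.d + q.Ep) * (q.N * q.d + q.Em) =
      (q.N * q.d + 2 * (q.a * q.b * q.c) - q.N * (q.a + q.b + q.c)) ^ 2 -
        4 * (q.r ^ 2 * q.s ^ 2 * q.t ^ 2) := by unfold Qd.Ep Qd.Em; ring
    rw [this, q.hr, q.hs, q.ht]; unfold Qd.P; ring
  have k1 : (q.c - q.a - q.b) ^ 2 - 4 * q.r ^ 2 ≤ q.c * q.d := by
    have h1 : (q.c - q.a - q.b) ^ 2 ≤ q.c ^ 2 := sq_le_sq' (by omega) (by omega)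
    have h2 : q.c * q.c ≤ q.c * q.d := by gcongr
    have h3 := sq_nonneg q.r
    linarith
  have k2 := mul_le_mul_of_nonneg_left k1 (sq_nonneg q.N)
  have k3 := mul_le_mul_of_nonneg_left Nc (show 0 ≤ q.N * q.d by positivity)
  have k4 : 0 < q.N * q.d * (q.N * (q.a + q.b + q.c)) := by positivity
  have k5 : (q.N * q.d + q.Ep) * (q.N * q.d + q.Em) ≤ q.N * q.d * (q.N * q.d + 5 * q.P) := by
    rw [e]; linarith
  have k7 := q.wc_ineq.trans (mul_le_mul_of_nonneg_left k5 l0.le)
  have k8 := pow_le_pow_left₀ (by positivity) k7 2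
  have k9 := mul_le_mul st xyz (by positivity) (by positivity)
  apply le_of_mul_le_mul_left _ (show 0 < q.d ^ 2 by positivity)
  have : 0 < q.P ^ 2 * q.c * q.d ^ 3 := by positivity
  linarith

end Wc2

theorem wc2_ok : S_WC2 := by
  intro q h1 h2 h3
  have ha := q.ha; have hb := q.hb; have hc := q.hc; have hd := q.hd; have hN := q.hN
  have a0 : 0 < q.a := by omega
  have b0 : 0 < q.b := by omega
  have c0 : 0 < q.c := by omega
  have d0 : 0 < q.d := by omega
  have l0 : 0 < q.b - q.a := by omega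
  have N0 : 0 < q.N := by omega
  have P0 : 0 < q.P := by unfold Qd.P; positivity
  have k0 := Wc2.key q h1
  have h3' : (q.N * (q.b - q.a)) ^ 2 * (q.N * q.d) ^ 2 ≤ 59 * (q.P ^ 2 * q.c * q.d) := by
    have := mul_le_mul_of_nonneg_right h3 d0.le
    unfold Qd.P
    linarith
  have k1 := pow_le_pow_left₀ (by positivity) h2 2
  have k2 := mul_le_mul_of_nonneg_right k1 (sq_nonneg q.P)
  have W0 : 0 < q.P ^ 2 * q.c * q.d := by positivity
  have pc : 0 ≤ q.P ^ 2 * q.c := by positivity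
  rcases le_total (16 * q.c) q.d with h | h
  · have k3 := mul_le_mul_of_nonneg_left h pc
    have k4 := mul_nonneg (sq_nonneg (q.N * (q.b - q.a))) (sq_nonneg (q.N * q.d - 155 * q.P))
    linarith
  · have k3 := mul_le_mul_of_nonneg_left (show q.c ≤ q.d by omega) pc
    have k4 := mul_nonneg (sq_nonneg (q.N * (q.b - q.a))) (sq_nonneg (q.N * q.d - 5 * q.P))
    have Nc : q.N * q.c ≤ q.P := by
      have : q.N ≤ q.a * q.b := by have := sq_nonneg q.r; have := q.hr; omega
      unfold Qd.P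
      gcongr
    have k5 := mul_le_mul_of_nonneg_right k1 (sq_nonneg (q.N * q.d))
    have k6 := mul_le_mul_of_nonneg_right (pow_le_pow_left₀ (by positivity) Nc 2) (sq_nonneg q.d)
    have k7 := mul_le_mul_of_nonneg_left h (show 0 ≤ q.P ^ 2 * q.d by positivity)
    linarith

open Hw in
theorem hw2_ok (h : S_WC2) : S_HW2 := by
  intro q h0
  simp only [hw2, List.forall_mem_cons] at h0
  have k1 := key q _ h0.1 1024 1 (by decide) (by decide) (by decide +kernel)
  have k2 := key q _ h0.2.1 8 1 (by decide) (by decide) (by decide +kernel)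
  have k3 := key q _ h0.2.2.1 1 59 (by decide) (by decide) (by decide +kernel)
  simp only [M, Af.neg, Int.reduceNeg, Int.reduceToNat, neg_neg, neg_zero] at k1 k2 k3
  refine h q ?_ ?_ ?_ <;> linarith

end Pool.Agent.MP_2339ce_nt.Q2.TB
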