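import Pool.Agent.MP_2339ce_nt.Q2.TEDef
import Pool.Agent.MP_2339ce_nt.Q2.TCCmp
import Pool.Agent.MP_2339ce_nt.Q2.TCWin
import Pool.Agent.MP_2339ce_nt.Q2.TCAfl
import Pool.Agent.MP_2339ce_nt.Q2.TCChain
import Pool.Agent.MP_2339ce_nt.Q2.TCDf
import Pool.Agent.MP_2339ce_nt.Q2.TCXw
import Pool.Agent.MP_2339ce_nt.Q2.TCRc
import Pool.Agent.MP_2339ce_nt.Q2.TCSt
import Pool.Agent.MP_2339ce_nt.Q2.TDWc
import Pool.Agent.MP_2339ce_nt.Q2.TDTree
import Pool.Agent.MP_2339ce_nt.Q2.HP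

/-! Project Q2, block TE: soundness of the checks of the data modules. -/

set_option autoImplicit false

noncomputable section

namespace Pool.Agent.MP_2339ce_nt.Q2.TB

theorem chain_all : S_CHAIN := chain_ok win_ok afl_ok (hw_ok st_ok regst_ok)

theorem hpc_all : S_HPC := hpc_ok allW afl_ok

theorem tree_all : S_TREE := tree_ok chain_all hpc_all df_ok (rc_ok xw_ok) (gp_ok gap_ok)

theorem tree2_all : S_TREE2 := tree2_ok tree_all chain_all hpc_all df_ok afl_ok (hw2_ok wc2_ok)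

theorem cmpAll_ok {h : ℕ} {F : List Cl} {P E : List Tm} {L : List Cm} (hG : Good h F P E)
    (hc : cmpAll h P E L = true) : AO (fun x : Cm => x.C.Ok) L := by
  rw [AO_iff]
  intro x hx
  rw [cmpAll, Fast.allA_eq, List.all_eq_true] at hc
  have := hc x hx
  rw [Bool.and_eq_true, cmpOK2_eq] at this
  have h1 := cmp_ok h F P E _ _ _ _ _ _ hG this.2
  rw [← Nat.eq_of_beq_eq_true this.1] at h1
  exact h1

theorem sem_sub {reg : Bool} {B : Bx} {r1 r2 : List Rc} (h : subAll r1 r2 = true)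
    (s : Sem reg B r1) : Sem reg B r2 := by
  intro q e h1 h2 h3 h4
  obtain ⟨x, hx, m⟩ := s q e h1 h2 h3 h4
  rw [subAll, List.all_eq_true] at h
  obtain ⟨y, hy, k⟩ := List.any_eq_true.1 (h x hx)
  simp only [subRc, Bool.and_eq_true, Nat.ble_eq] at k
  obtain ⟨m1, m2, m3, m4, m5, m6⟩ := m
  refine ⟨y, hy, by omega, by omega, by omega, by omega, by omega, fun hr => ?_⟩
  have := m6 hr
  constructor <;> omega

theorem topD_ok {cfs : List CF} {wt : List Wn} {rs : List Rc} {T : Tr2} {B : Bx}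
    (h1 : AO CF.Ok cfs) (h2 : AO Wn.Ok wt) (h : topD cfs wt rs T B = true) : Sem false B rs := by
  rw [topD, Bool.and_eq_true, chkD2_eq] at h
  exact sem_sub h.2 (tree2_all cfs wt T B [] ((AO_iff _ _).1 h1) ((AO_iff _ _).1 h2) h.1)

theorem sem_nd {reg : Bool} {B : Bx} (ax t : ℕ) {rs : List Rc} (h1 : Sem reg (B.lft ax t) rs)
    (h2 : Sem reg (B.rgt ax t) rs) : Sem reg B rs := by
  intro q e k1 k2 k3 k4
  obtain ⟨x, hx, m⟩ := nd_ok reg B ax t rs rs h1 h2 q e k1 k2 k3 k4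
  exact ⟨x, (List.mem_append.1 hx).elim id id, m⟩

theorem eAll_ok {cfs : List CF} {L : List Ew} (h1 : AO CF.Ok cfs) (h : eAll cfs L = true) :
    AO (fun x : Ew => x.wn.Ok) L := by
  rw [AO_iff]
  intro x hx
  rw [eAll, Fast.allA_eq, List.all_eq_true] at h
  have := h x hx
  rw [eOK2_eq] at this
  exact ew_ok chain_all cfs x.pr x.B x.lo x.hi x.ws ((AO_iff _ _).1 h1) this

end Pool.Agent.MP_2339ce_nt.Q2.TB
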