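import Pool.Agent.MP_2339ce_nt.Q2.TEDef

/-! Project Q2, block TF: a whole chain for `e`, checked once for a cell. -/

set_option autoImplicit false

noncomputable section

namespace Pool.Agent.MP_2339ce_nt.Q2.TB

/-- a cell, a lower bound for `600 lg d` and a chain of windows -/
structure Sw where
  B : Bx
  D : Df
  D0 : Lf
  ix : List ℕ
  pr : ℕ
  i : ℕ

def abcSides (B : Bx) : List Af :=
  [⟨0, -(B.L1 : ℤ), 1, 0, 0, 0, 0, 0, 0⟩, ⟨0, B.L2, -1, 0, 0, 0, 0, 0, 0⟩,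
    ⟨0, -(B.p1 : ℤ), 0, 1, 0, 0, 0, 0, 0⟩, ⟨0, -(B.q1 : ℤ), 0, -1, 1, 0, 0, 0, 0⟩,
    ⟨0, -(B.w1 : ℤ), 0, 0, -1, 1, 0, 0, 0⟩] ++
  (if B.fp then [] else [⟨0, B.p2, 0, -1, 0, 0, 0, 0, 0⟩]) ++
  (if B.fq then [] else [⟨0, B.q2, 0, 1, -1, 0, 0, 0, 0⟩]) ++
  (if B.fw then [] else [⟨0, B.w2, 0, 0, 1, -1, 0, 0, 0⟩])

def Sw.wn (x : Sw) : Wn :=
  ⟨⟨6, -x.D0.m, -x.D0.eN, -x.D0.ea, -x.D0.eb, -x.D0.ec, 0, 0, 0⟩ :: abcSides x.B, [], []⟩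

def swOK (wt : List Wn) (x : Sw) : Bool :=
  dfOK false x.B x.D && hpOKF wt x.ix x.pr x.i x.B (dfU false x.D) x.D0

def swAll (wt : List Wn) (L : List Sw) : Bool := allA (swOK wt) L

end Pool.Agent.MP_2339ce_nt.Q2.TB
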