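import Pool.Agent.MP_2339ce_nt.Q2.TFDef
import Pool.Agent.MP_2339ce_nt.Q2.TEGlue

/-! Project Q2, block TF: soundness. -/

set_option autoImplicit false

noncomputable section

namespace Pool.Agent.MP_2339ce_nt.Q2.TB

theorem mem_abc (B : Bx) (N a b c d : ℤ) (hs : ∀ s ∈ abcSides B, 0 ≤ s.v N a b c d) :
    B.Mem N a b c := by
  have key : ∀ m eN ea eb ec : ℤ, (⟨0, m, eN, ea, eb, ec, 0, 0, 0⟩ : Af) ∈ abcSides B →
      0 ≤ (m : ℝ) + 100 * (eN * lg (N : ℝ) + ea * lg (a : ℝ) + eb * lg (b : ℝ) +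
        ec * lg (c : ℝ)) := by
    intro m eN ea eb ec hm
    have h1 := hs _ hm
    simp only [Af.v, Ew.lg_eq] at h1
    push_cast at h1
    linarith
  refine ⟨?_, ?_, ?_, fun hf => ?_, ?_, fun hf => ?_, ?_, fun hf => ?_⟩
  · have := key (-(B.L1 : ℤ)) 1 0 0 0 (by simp [abcSides])
    push_cast at this
    linarith
  · have := key B.L2 (-1) 0 0 0 (by simp [abcSides])
    push_cast at this
    linarith
  · have := key (-(B.p1 : ℤ)) 0 1 0 0 (by simp [abcSides])
    push_cast at this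
    linarith
  · have := key B.p2 0 (-1) 0 0 (by simp [abcSides, hf])
    push_cast at this
    linarith
  · have := key (-(B.q1 : ℤ)) 0 (-1) 1 0 (by simp [abcSides])
    push_cast at this
    linarith
  · have := key B.q2 0 1 (-1) 0 (by simp [abcSides, hf])
    push_cast at this
    linarith
  · have := key (-(B.w1 : ℤ)) 0 0 (-1) 1 (by simp [abcSides])
    push_cast at this
    linarith
  · have := key B.w2 0 0 1 (-1) (by simp [abcSides, hf])
    push_cast at this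
    linarith

theorem sw_ok {wt : List Wn} (hw : ∀ w ∈ wt, w.Ok) (x : Sw) (h : swOK wt x = true) : x.wn.Ok := by
  intro N a b c d e hN hN2 hq _ _ hs
  exfalso
  rw [swOK, Bool.and_eq_true, hpOKF_eq] at h
  obtain ⟨r, r0, hr⟩ := Ew.root hq.s1
  obtain ⟨s, s0, hs'⟩ := Ew.root hq.s2
  obtain ⟨t, t0, ht⟩ := Ew.root hq.s5
  obtain ⟨u, u0, hu⟩ := Ew.root hq.s3
  obtain ⟨y, y0, hy⟩ := Ew.root hq.s6
  obtain ⟨z, z0, hz⟩ := Ew.root hq.s8
  let q : Qd := ⟨N, a, b, c, d, r, s, t, u, y, z, hN, hq.a0, hq.ab, hq.bc, hq.cd, r0, s0, t0, u0,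
    y0, z0, by rw [hr]; ring, by rw [hs']; ring, by rw [ht]; ring, by rw [hu]; ring,
    by rw [hy]; ring, by rw [hz]; ring⟩
  have hB : x.B.Mem q.N q.a q.b q.c :=
    mem_abc x.B N a b c d fun s hs1 => hs s (List.mem_cons_of_mem _ hs1)
  have hd := df_ok false x.B x.D q (fun k => Bool.noConfusion k) hB h.1
  have h1 := hs _ List.mem_cons_self
  refine hpc_all wt x.ix x.pr x.i x.B _ x.D0 q e hw hN2 hq hB hd.2 ?_ h.2
  show x.D0.val N a b c ≤ 600 * lg (d : ℝ)
  simp only [Af.v, Ew.lg_eq] at h1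
  push_cast at h1
  rw [Lf.val]
  linarith

theorem swAll_ok {wt : List Wn} {L : List Sw} (hw : AO Wn.Ok wt) (h : swAll wt L = true) :
    AO (fun x : Sw => x.wn.Ok) L := by
  rw [AO_iff]
  intro x hx
  rw [swAll, Fast.allA_eq, List.all_eq_true] at h
  exact sw_ok ((AO_iff _ _).1 hw) x (h x hx)

end Pool.Agent.MP_2339ce_nt.Q2.TB
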