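import Pool.Agent.MP_2339ce_nt.Q2.TGSpec
import Pool.Agent.MP_2339ce_nt.Q2.TCWin
import Pool.Agent.MP_2339ce_nt.Q2.TBMg
import Pool.Agent.MP_2339ce_nt.Q2.TCDf

/-! Project Q2, block TG: the row RG. -/

set_option autoImplicit false

noncomputable section

namespace Pool.Agent.MP_2339ce_nt.Q2.TB

namespace Rgx

def evP (L : List ℤ) (x : ℝ) : ℝ := L.foldr (fun c r => (c : ℝ) + x * r) 0

theorem evP_nil (x : ℝ) : evP [] x = 0 := rfl

theorem evP_cons (c : ℤ) (L : List ℤ) (x : ℝ) : evP (c :: L) x = c + x * evP L x := rfl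

theorem evP_add (x : ℝ) (X : List ℤ) : ∀ Y : List ℤ, evP (addP X Y) x = evP X x + evP Y x := by
  induction X with
  | nil => intro Y; rw [evP_nil, zero_add]; rfl
  | cons a X ih =>
    intro Y
    cases Y with
    | nil => rw [evP_nil, add_zero]; rfl
    | cons b Y =>
      have e : addP (a :: X) (b :: Y) = (a + b) :: addP X Y := rfl
      rw [e, evP_cons, evP_cons, evP_cons, ih]
      push_cast
      ring

theorem evP_map (x : ℝ) (n : ℕ) (L : List ℤ) :
    evP (L.map fun y => Int.mul (Int.ofNat n) y) x = n * evP L x := by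
  induction L with
  | nil => rw [List.map_nil, evP_nil, mul_zero]
  | cons a L ih =>
    have e : Int.mul (Int.ofNat n) a = (n : ℤ) * a := rfl
    rw [List.map_cons, evP_cons, evP_cons, ih, e]
    push_cast
    ring

theorem evP_shift (u : ℝ) (n : ℕ) (L : List ℤ) : evP (shiftP n L) u = evP L (n + u) := by
  induction L with
  | nil => rfl
  | cons a L ih =>
    have e : shiftP n (a :: L) = addP [a]
      (addP ((shiftP n L).map fun y => Int.mul (Int.ofNat n) y) (0 :: shiftP n L)) := rfl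
    rw [e, evP_add, evP_add, evP_map, evP_cons, evP_cons, evP_cons, evP_nil, ih]
    push_cast
    ring

theorem scl_cons (S : ℕ) (a : ℤ) (L : List ℤ) :
    sclP S (a :: L) = (a * ((S ^ L.length : ℕ) : ℤ)) :: sclP S L := rfl

theorem evP_scl0 (t : ℝ) (S : ℕ) (L : List ℤ) :
    S * evP (sclP S L) (S * t) = S ^ L.length * evP L t := by
  induction L with
  | nil =>
    have e : sclP S [] = [] := rfl
    rw [e, evP_nil, evP_nil, mul_zero, mul_zero]
  | cons a L ih =>
    rw [scl_cons, evP_cons, evP_cons, List.length_cons]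
    push_cast
    linear_combination (S * t) * ih

theorem evP_scl (t : ℝ) (S : ℕ) (L : List ℤ) :
    evP (sclP S L) (S * t) = ((Nat.pow S (Nat.pred L.length) : ℕ) : ℝ) * evP L t := by
  cases L with
  | nil =>
    have e : sclP S [] = [] := rfl
    rw [e, evP_nil, evP_nil, mul_zero]
  | cons a L =>
    have e : Nat.pow S (Nat.pred (a :: L).length) = S ^ L.length := rfl
    rw [scl_cons, evP_cons, evP_cons, e]
    push_cast
    linear_combination t * evP_scl0 t S L

theorem evP_abs {u : ℝ} {d : ℕ} (h : |u| ≤ d) (L : List ℤ) : |evP L u| ≤ absP d L := by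
  induction L with
  | nil => rw [evP_nil, abs_zero]; exact Nat.cast_nonneg _
  | cons a L ih =>
    have e : absP d (a :: L) = a.natAbs + d * absP d L := rfl
    rw [e, evP_cons]
    push_cast
    have h1 := abs_add_le (a : ℝ) (u * evP L u)
    rw [abs_mul] at h1
    have h2 : |u| * |evP L u| ≤ d * absP d L :=
      mul_le_mul h ih (abs_nonneg _) (Nat.cast_nonneg _)
    rw [Nat.cast_natAbs, Int.cast_abs]
    linarith

theorem evP_head (u : ℝ) (L : List ℤ) : evP L u = (L.headD 0 : ℤ) + u * evP L.tail u := by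
  cases L with
  | nil => simp [evP]
  | cons a L => rfl

theorem chk2 {u : ℝ} {d T : ℕ} {ds : List ℤ} {c e : ℤ} (hu : |u| ≤ d)
    (h : gchk2 d T ds c e = true) : |evP ds u - c * T| ≤ |(e : ℝ)| * T := by
  have h0 : (ds.headD 0 - c * (T : ℤ)).natAbs + d * absP d ds.tail ≤ e.natAbs * T :=
    Nat.le_of_ble_eq_true h
  have h1 : (((ds.headD 0 - c * (T : ℤ)).natAbs : ℕ) : ℝ) + d * absP d ds.tail ≤
    (e.natAbs : ℝ) * T := by exact_mod_cast h0
  rw [Nat.cast_natAbs, Nat.cast_natAbs, Int.cast_abs, Int.cast_abs] at h1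
  push_cast at h1
  have h2 : |u| * |evP ds.tail u| ≤ d * absP d ds.tail :=
    mul_le_mul hu (evP_abs hu _) (abs_nonneg _) (Nat.cast_nonneg _)
  have h3 := abs_add_le (((ds.headD 0 : ℤ) : ℝ) - c * T) (u * evP ds.tail u)
  rw [abs_mul] at h3
  have h4 : evP ds u - c * T = ((ds.headD 0 : ℤ) : ℝ) - c * T + u * evP ds.tail u := by
    rw [evP_head u ds]
    ring
  rw [h4]
  linarith

theorem chk {τ : ℝ} {S n d : ℕ} {cs : List ℤ} {c e : ℤ} (hS : 1 ≤ S) (hu : |S * τ - n| ≤ d)
    (h : gchk S n d cs c e = true) : |evP cs τ - c| ≤ |(e : ℝ)| := by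
  have h1 := chk2 hu h
  rw [evP_shift, add_sub_cancel, evP_scl] at h1
  have hT : (0 : ℝ) < ((Nat.pow S (Nat.pred cs.length) : ℕ) : ℝ) :=
    Nat.cast_pos.2 (Nat.pow_pos hS)
  generalize ((Nat.pow S (Nat.pred cs.length) : ℕ) : ℝ) = T at h1 hT
  rw [mul_comm T, ← sub_mul, abs_mul, abs_of_pos hT] at h1
  exact le_of_mul_le_mul_right h1 hT

theorem evP_rep (τ : ℝ) (c : ℤ) (e : ℕ) : evP (List.replicate e 0 ++ [c]) τ = c * τ ^ e := by
  induction e with
  | zero => simp [evP]
  | succ e ih =>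
    rw [List.replicate_succ, List.cons_append, evP_cons, ih]
    push_cast
    ring

/-- the ratio of the group -/
def tau (ax : Bool) (x : Pt) : ℝ :=
  @Bool.rec (fun _ => ℝ) ((x.β / x.α) ^ 2) ((x.γ / x.β) ^ 2) ax

theorem gok_mon {x : Pt} (hx : x.Pos) {ax : Bool} {s t : Tm} (h : gok ax s t = true) :
    mon x t.i t.j t.k t.l t.m = mon x s.i s.j s.k s.l s.m * tau ax x ^ gexp ax s t := by
  obtain ⟨ha, hb, hc, -, -⟩ := hx
  unfold gok at h
  generalize gexp ax s t = e at h
  cases ax
  · have h' : (Nat.beq t.m s.m && Nat.beq t.l s.l && (Nat.beq t.k s.k &&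
        Nat.beq (t.i + 2 * e) s.i && Nat.beq t.j (s.j + 2 * e))) = true := h
    simp only [Bool.and_eq_true, Nat.beq_eq] at h'
    obtain ⟨⟨h1, h2⟩, ⟨h3, h4⟩, h5⟩ := h'
    have e1 : tau false x = (x.β / x.α) ^ 2 := rfl
    rw [e1, h1, h2, h3, ← h4, h5, ← pow_mul, div_pow]
    unfold mon
    rw [pow_add, pow_add]
    field_simp
  · have h' : (Nat.beq t.m s.m && Nat.beq t.l s.l && (Nat.beq t.i s.i &&
        Nat.beq (t.j + 2 * e) s.j && Nat.beq t.k (s.k + 2 * e))) = true := h
    simp only [Bool.and_eq_true, Nat.beq_eq] at h'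
    obtain ⟨⟨h1, h2⟩, ⟨h3, h4⟩, h5⟩ := h'
    have e1 : tau true x = (x.γ / x.β) ^ 2 := rfl
    rw [e1, h1, h2, h3, ← h4, h5, ← pow_mul, div_pow]
    unfold mon
    rw [pow_add, pow_add]
    field_simp

theorem grp_ev {x : Pt} (hx : x.Pos) (ax : Bool) (s : Tm) (L : List Tm)
    (h : ∀ t ∈ L, gok ax s t = true) :
    evL x L = evP (gpoly ax s L) (tau ax x) * mon x s.i s.j s.k s.l s.m := by
  induction L with
  | nil =>
    have e : gpoly ax s [] = [] := rfl
    rw [e, evP_nil, zero_mul]
    rfl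
  | cons t L ih =>
    have e : gpoly ax s (t :: L) =
      addP (List.replicate (gexp ax s t) 0 ++ [t.c]) (gpoly ax s L) := rfl
    rw [List.forall_mem_cons] at h
    rw [e, evP_add, evP_rep, MG.evL_cons, ih h.2, ev, gok_mon hx h.1]
    ring

theorem evL_split (x : Pt) (p : Tm → Bool) (L : List Tm) :
    evL x L = evL x (L.filter p) + evL x (L.filter fun t => !p t) := by
  induction L with
  | nil => simp [evL]
  | cons t L ih =>
    rw [List.filter_cons, List.filter_cons, MG.evL_cons, ih]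
    cases p t
    · simp only [Bool.false_eq_true, if_false, Bool.not_false, if_true]
      rw [MG.evL_cons]
      ring
    · simp only [Bool.false_eq_true, if_false, Bool.not_true, if_true]
      rw [MG.evL_cons]
      ring

theorem run {x : Pt} (hx : x.Pos) {ax : Bool} {S n d : ℕ} (hS : 1 ≤ S)
    (hu : |S * tau ax x - n| ≤ d) (E : List Tm) (k : ℕ) : ∀ P P' E' : List Tm,
    rgRun ax S n d E k P P' E' = true → |evL x P - evL x P'| + evA x E ≤ evA x E' := by
  induction k with
  | zero =>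
    intro P P' E' h
    have h' : (eqL P P' && eqL E E') = true := h
    rw [Bool.and_eq_true] at h'
    rw [(eq_ok x _ _ h'.1).1, (eq_ok x _ _ h'.2).2, sub_self, abs_zero, zero_add]
  | succ k ih =>
    intro P P' E' h
    cases P' with
    | nil => exact absurd (show false = true from h) (by simp)
    | cons s P' =>
      cases E' with
      | nil => exact absurd (show false = true from h) (by simp)
      | cons u E' =>
        have h' : (same s u && gchk S n d (gpoly ax s (P.filter (gok ax s))) s.c u.c &&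
          rgRun ax S n d E k (P.filter fun t => !gok ax s t) P' E') = true := h
        rw [Bool.and_eq_true, Bool.and_eq_true] at h'
        obtain ⟨⟨h1, h2⟩, h3⟩ := h'
        have h4 := ih _ _ _ h3
        have h5 := chk hS hu h2
        have h6 := grp_ev hx ax s (P.filter (gok ax s)) fun t ht => (List.mem_filter.1 ht).2
        have hm := MG.mon_pos hx s.i s.j s.k s.l s.m
        rw [evL_split x (gok ax s) P, h6, MG.evL_cons, MG.evA_cons, ev, ev, ← MG.same_mon x h1,
          abs_mul, abs_of_pos hm]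
        generalize evP (gpoly ax s (P.filter (gok ax s))) (tau ax x) = A at h5
        generalize evL x (P.filter fun t => !gok ax s t) = R at h4
        generalize mon x s.i s.j s.k s.l s.m = M at hm
        have h7 := abs_add_le ((A - s.c) * M) (R - evL x P')
        rw [abs_mul, abs_of_pos hm] at h7
        have h8 := mul_le_mul_of_nonneg_right h5 hm.le
        have h9 : A * M + R - (s.c * M + evL x P') = (A - s.c) * M + (R - evL x P') := by ring
        rw [h9]
        linarith

open DfA in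
theorem tau_ok {x y : ℝ} (hx : 0 < x) (hy : 0 < y) {S n d t1 t2 : ℕ} {f : Bool}
    (h1 : (t1 : ℝ) ≤ 100 * (lg y - lg x)) (h2 : f = false → 100 * (lg y - lg x) ≤ t2)
    (h : tauOK S n d t1 t2 f = true) : 1 ≤ S ∧ |S * (x / y) - n| ≤ d := by
  simp only [tauOK, Bool.or_eq_true, Bool.and_eq_true, Nat.ble_eq, Bool.not_eq_true'] at h
  obtain ⟨⟨hS, h3⟩, h4⟩ := h
  have hS' : (0 : ℝ) < S := by exact_mod_cast hS
  have hq : 0 < S * (x / y) := by positivity
  have hl : lg (S * (x / y)) = lg S + lg x - lg y := by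
    have h5 := lg_mul hq hy
    rw [show S * (x / y) * y = S * x by field_simp, lg_mul hS' hx] at h5
    linarith
  refine ⟨hS, abs_le.2 ⟨?_, ?_⟩⟩
  · rcases le_or_gt n d with h5 | h5
    · have h6 : (n : ℝ) ≤ d := by exact_mod_cast h5
      linarith
    · rcases h4 with h4 | ⟨h4, h6⟩
      · omega
      · have h7 : (0 : ℝ) < (n : ℝ) - d := sub_pos.2 (by exact_mod_cast h5)
        have h8 : (2 : ℝ) ^ t2 * ((n : ℝ) - d) ^ 100 ≤ (S : ℝ) ^ 100 := by
          rw [mul_comm, ← Nat.cast_sub h5.le]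
          exact_mod_cast h6
        have h9 := lg_up h7 h8
        have h10 := h2 h4
        clear h8 h6 h3
        have h11 : (n : ℝ) - d ≤ S * (x / y) := by
          refine le_of_lg h7 hq ?_
          push_cast at h9
          linarith
        linarith
  · have h5 : 0 < n + d := by
      rcases Nat.eq_zero_or_pos (n + d) with h5 | h5
      · rw [h5, zero_pow (by norm_num), zero_mul] at h3
        exact absurd h3 (not_le.2 (Nat.pow_pos hS))
      · exact h5
    have h7 : (0 : ℝ) < (n : ℝ) + d := by exact_mod_cast h5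
    have h8 : (S : ℝ) ^ 100 ≤ (2 : ℝ) ^ t1 * ((n : ℝ) + d) ^ 100 := by
      rw [mul_comm]
      exact_mod_cast h3
    have h9 := lg_dn hS' h7 h8
    clear h8 h4 h3
    have h11 : S * (x / y) ≤ (n : ℝ) + d := by
      refine le_of_lg hq h7 ?_
      push_cast at h9
      linarith
    linarith

theorem ratio {x y : ℝ} (hx : 0 < x) (hy : 0 < y) : (1 / √y / (1 / √x)) ^ 2 = x / y := by
  rw [div_pow, div_pow, div_pow, Real.sq_sqrt hx.le, Real.sq_sqrt hy.le]
  field_simp

end Rgx

open Rgx in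
theorem rg_ok : S_RG := by
  intro x hC h q hm h2
  unfold rgOK at h
  rw [Bool.and_eq_true, Bool.and_eq_true, Bool.and_eq_true] at h
  obtain ⟨⟨⟨h3, h4⟩, h5⟩, h6⟩ := h
  obtain ⟨w, hA⟩ := hC q (Win.sub_mem h4 hm) h2
  have e1 := q.ha
  have e2 := q.hb
  have e3 := q.hc
  have ha : (0 : ℝ) < q.a := by exact_mod_cast (by omega : (0 : ℤ) < q.a)
  have hb : (0 : ℝ) < q.b := by exact_mod_cast (by omega : (0 : ℤ) < q.b)
  have hc : (0 : ℝ) < q.c := by exact_mod_cast (by omega : (0 : ℤ) < q.c)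
  have ht : 1 ≤ x.S ∧ |x.S * tau x.ax q.pt - x.n| ≤ x.d := by
    generalize x.ax = ax at h5
    cases ax
    · have e : tau false q.pt = (q.a : ℝ) / q.b := ratio ha hb
      rw [e]
      exact tau_ok ha hb hm.q1 hm.q2 h5
    · have e : tau true q.pt = (q.b : ℝ) / q.c := ratio hb hc
      rw [e]
      exact tau_ok hb hc hm.w1 hm.w2 h5
  have h7 := run (UpNz.pt_pos q) ht.1 ht.2 _ _ _ _ _ h6
  refine ⟨w, ?_⟩
  rw [← Nat.eq_of_beq_eq_true h3]
  unfold Ap at hA ⊢
  have h8 := abs_sub_le (w * mon q.pt x.C.h x.C.h x.C.h 1 0 * 4096) (evL q.pt x.C.P)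
    (evL q.pt x.C'.P)
  exact h8.trans (by linarith)

theorem rgAll_ok {L : List Rg2} (h1 : AO (fun x : Rg2 => x.C.Ok) L) (h : rgAll L = true) :
    AO (fun x : Rg2 => x.C'.Ok) L := by
  rw [AO_iff] at h1 ⊢
  unfold rgAll at h
  rw [Fast.allA_eq, List.all_eq_true] at h
  exact fun x hx => rg_ok x (h1 x hx) (h x hx)

end Pool.Agent.MP_2339ce_nt.Q2.TB
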