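import Pool.Agent.MP_2339ce_nt.Q2.TEDef

/-! Project Q2, block TG: terms that differ by powers of `a / b` (or `b / c`) are joined. -/

set_option autoImplicit false

noncomputable section

namespace Pool.Agent.MP_2339ce_nt.Q2.TB

def addP (X : List ℤ) : List ℤ → List ℤ :=
  @List.rec ℤ (fun _ => List ℤ → List ℤ) (fun Y => Y) (fun x X' ih Y =>
    @List.rec ℤ (fun _ => List ℤ) (x :: X') (fun y Y' _ => Int.add x y :: ih Y') Y) X

/-- the coefficients of `p (n + u)` -/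
def shiftP (n : ℕ) (L : List ℤ) : List ℤ :=
  @List.rec ℤ (fun _ => List ℤ) [] (fun c _ q =>
    addP [c] (addP (q.map fun y => Int.mul (Int.ofNat n) y) (0 :: q))) L

def absP (d : ℕ) (L : List ℤ) : ℕ :=
  @List.rec ℤ (fun _ => ℕ) 0 (fun c _ r => Nat.add (Int.natAbs c) (Nat.mul d r)) L

/-- the coefficients of `S ^ n p (x / S)`, where `n + 1` is the length -/
def sclP (S : ℕ) (L : List ℤ) : List ℤ :=
  @List.rec ℤ (fun _ => List ℤ) [] (fun c t r => Int.mul c (Int.ofNat (Nat.pow S t.length)) :: r) L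

/-- the exponent of `a / b` (`ax = false`) or `b / c` (`ax = true`) in `t / s` -/
def gexp (ax : Bool) (s t : Tm) : ℕ :=
  @Bool.rec (fun _ => ℕ) (Nat.div (Nat.sub t.j s.j) 2) (Nat.div (Nat.sub t.k s.k) 2) ax

def gok2 (ax : Bool) (s t : Tm) (e : ℕ) : Bool :=
  @Bool.rec (fun _ => Bool)
    (Nat.beq t.k s.k && Nat.beq (Nat.add t.i e) s.i && Nat.beq t.j (Nat.add s.j e))
    (Nat.beq t.i s.i && Nat.beq (Nat.add t.j e) s.j && Nat.beq t.k (Nat.add s.k e)) ax

def gok (ax : Bool) (s t : Tm) : Bool :=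
  Nat.beq t.m s.m && Nat.beq t.l s.l && gok2 ax s t (Nat.mul 2 (gexp ax s t))

def gpoly (ax : Bool) (s : Tm) (L : List Tm) : List ℤ :=
  @List.rec Tm (fun _ => List ℤ) [] (fun t _ r =>
    addP (List.replicate (gexp ax s t) 0 ++ [t.c]) r) L

def gchk2 (d T : ℕ) (ds : List ℤ) (c e : ℤ) : Bool :=
  Nat.ble (Nat.add (Int.natAbs (Int.sub (ds.headD 0) (Int.mul c (Int.ofNat T))))
    (Nat.mul d (absP d ds.tail))) (Nat.mul (Int.natAbs e) T)

/-- for `|S τ - n| ≤ d` the polynomial `cs` at `τ` is within `|e|` of `c` -/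
def gchk (S n d : ℕ) (cs : List ℤ) (c e : ℤ) : Bool :=
  gchk2 d (Nat.pow S (Nat.pred cs.length)) (shiftP n (sclP S cs)) c e

/-- `k` groups: the heads of `P'` and `E'` replace the terms of `P` in their group -/
def rgRun (ax : Bool) (S n d : ℕ) (E : List Tm) (k : ℕ) : List Tm → List Tm → List Tm → Bool :=
  @Nat.rec (fun _ => List Tm → List Tm → List Tm → Bool)
    (fun P P' E' => eqL P P' && eqL E E')
    (fun _ ih P P' E' => @List.rec Tm (fun _ => Bool) false (fun s P'' _ =>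
      @List.rec Tm (fun _ => Bool) false (fun u E'' _ =>
        same s u && gchk S n d (gpoly ax s (P.filter (gok ax s))) s.c u.c &&
          ih (P.filter fun t => !gok ax s t) P'' E'') E') P') k

/-- `(n - d) / S ≤ 2 ^ (-t2 / 100)` and `2 ^ (-t1 / 100) ≤ (n + d) / S` -/
def tauOK (S n d t1 t2 : ℕ) (f : Bool) : Bool :=
  Nat.ble 1 S && Nat.ble (S ^ 100) ((n + d) ^ 100 * 2 ^ t1) &&
    (Nat.ble n d || (!f && Nat.ble ((n - d) ^ 100 * 2 ^ t2) (S ^ 100)))

/-- a joined form `C'` of `C` -/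
structure Rg2 where
  C : CF
  C' : CF
  ax : Bool
  S : ℕ
  n : ℕ
  d : ℕ
  k : ℕ

def rgOK (x : Rg2) : Bool :=
  Nat.beq x.C.h x.C'.h && subB x.C'.B x.C.B &&
    @Bool.rec (fun _ => Bool) (tauOK x.S x.n x.d x.C'.B.q1 x.C'.B.q2 x.C'.B.fq)
      (tauOK x.S x.n x.d x.C'.B.w1 x.C'.B.w2 x.C'.B.fw) x.ax &&
    rgRun x.ax x.S x.n x.d x.C.E x.k x.C.P x.C'.P x.C'.E

def rgAll (L : List Rg2) : Bool := allA rgOK L

def S_RG : Prop := ∀ x : Rg2, x.C.Ok → rgOK x = true → x.C'.Ok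

end Pool.Agent.MP_2339ce_nt.Q2.TB
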