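import Pool.Agent.MP_2339ce_nt.Q2.TEDef

/-! Project Q2, block TH: compression in one pass, with a scale and a shift. -/

set_option autoImplicit false

noncomputable section

namespace Pool.Agent.MP_2339ce_nt.Q2.TB

structure Cm2 where
  C : CF
  mP : ℕ
  mE : ℕ
  sh : ℕ
  R : List Tm

structure Bo (α : Type) : Type where
  v : α

/-- the constants of one absorbing term -/
structure Pr where
  C : ℕ
  Cn : ℕ
  KN : ℕ
  Kp : ℕ
  Kq : ℕ
  Kw : ℕ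
  l : ℕ
  M : ℕ

def kl (s : Tm) : Tm := ⟨s.c, s.key, s.i, s.j, Nat.add s.k s.l, s.l, s.m⟩

def MM (j : ℕ) : ℕ := Nat.add (Nat.pow 2 560) (Nat.pow 2 (Nat.mul 80 j))

def prH (B : Bx) (sh : ℕ) (R : List Tm) (j : ℕ) : Pr :=
  @Pre.rec (fun _ => Pr) (fun C Cn KN Kp Kq Kw => frc (R.getD j z0).l fun l =>
    frc (MM j) fun M => ⟨C, Cn, KN, Kp, Kq, Kw, l, M⟩)
    (preU2 B 1 (hf B 0 0 0 0 0) (hf B (Nat.mul 1200 sh) 0 0 0 0) (hfS B (kl (R.getD j z0))))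

abbrev P8 := ℕ → ℕ → ℕ → ℕ → ℕ → ℕ → ℕ → ℕ → ℕ

abbrev T7 (α : Type) := ℤ → ℕ → ℕ → ℕ → ℕ → ℕ → ℕ → α

/-- the bound of one absorbed term, times `M` -/
def abH (Z : ℕ) (wp wq ww : ℕ → ℕ → ℕ) (a b g e DN Dp Dq Dw : ℕ) : Bo (T7 P8) :=
  ⟨fun c _ i j k l m C Cn KN Kp Kq Kw sl M => by
  refine @Bool.rec (fun _ => ℕ) Z (Nat.mul M ?_) (Nat.ble sl l)
  refine (?_ : ℕ → ℕ) (Nat.add k l); intro k
  refine (?_ : ℕ → ℕ) (Nat.add j k); intro jk
  refine (?_ : ℕ → ℕ) (Nat.add (Nat.add (Nat.add Cn (Nat.mul m (nat_lit 2400))) (Nat.mul i a))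
    (Nat.add (Nat.mul j b) (Nat.mul k g))); intro N
  refine (?_ : ℕ → ℕ) (Nat.add N (nat_lit 4920150)); intro H
  refine (?_ : ℕ → ℕ) (Nat.div (Nat.sub (Nat.add
    (Nat.add (Nat.add C (Nat.mul m e)) (Nat.sub KN (Nat.mul m DN)))
    (Nat.add (Nat.add (wp (Nat.sub Kp (Nat.mul (Nat.add i jk) Dp)) H)
      (wq (Nat.sub Kq (Nat.mul jk Dq)) H)) (ww (Nat.sub Kw (Nat.mul k Dw)) H))) N) (nat_lit 150))
  intro F
  exact @Bool.rec (fun _ => ℕ) (nat_lit 4722366482869645213696)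
    (Nat.succ (Nat.shiftRight (Nat.shiftLeft (Nat.mul
      (@Int.rec (fun _ => ℕ) (fun n => n) Nat.succ c) (Nat.mod (Nat.shiftRight
      (nat_lit 79883173738251535317398965124222089232384)
      (Nat.mul (nat_lit 17) (Nat.mod F (nat_lit 8)))) (nat_lit 131072))) (nat_lit 100))
      (Nat.sub (nat_lit 4100) (Nat.div F (nat_lit 8))))) (Nat.ble F (nat_lit 32800))⟩

/-- the second term is `sc` times the first -/
def eqH (sc : ℕ) : Bo (T7 (T7 Bool)) := ⟨fun c _ i j k l m c' _ i' j' k' l' m' =>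
  @Bool.rec (fun _ => Bool) false (@Bool.rec (fun _ => Bool) false (@Bool.rec (fun _ => Bool) false
    (@Bool.rec (fun _ => Bool) false (@Bool.rec (fun _ => Bool) false
      (@Int.rec (fun _ => ℤ → Bool)
        (fun n => @Int.rec (fun _ => Bool) (Nat.beq (Nat.mul sc n)) (fun _ => false))
        (fun n => @Int.rec (fun _ => Bool) (fun _ => false)
          (fun n' => Nat.beq (Nat.mul sc (Nat.succ n)) (Nat.succ n'))) c c')
      (Nat.beq m m')) (Nat.beq l l')) (Nat.beq k k')) (Nat.beq j j')) (Nat.beq i i')⟩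

abbrev Ih := ℕ → List Tm → ℕ

/-- one pass: `Z` is added when a test fails -/
def pasH (Z : ℕ) (AB : T7 P8) (EQ : T7 (T7 Bool)) (pr : ℕ → Pr) (fin L : List Tm) : Ih :=
  @List.rec Tm (fun _ => Ih) (fun _ Y => @Bool.rec (fun _ => ℕ) Z 0 (eqL fin Y))
    (fun t _ ih mask Y => @Nat.rec (fun _ => List Tm → Tm → Ih → ℕ → ℕ)
      (@List.rec Tm (fun _ => Tm → Ih → ℕ → ℕ) (fun _ _ _ => Z) (fun y Y' _ t ih mask =>
        @Bool.rec (fun _ => ℕ) Z (ih mask Y')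
          (@Tm.rec (fun _ => Bool) (@Tm.rec (fun _ => T7 Bool) EQ t) y)))
      (fun j _ Y t ih mask => Nat.add
        (@Pr.rec (fun _ => ℕ) (@Tm.rec (fun _ => P8) AB t) (pr j)) (ih mask Y))
      (Nat.mod mask (nat_lit 8)) Y t ih (Nat.shiftRight mask (nat_lit 3))) L

def sumH (Z sc : ℕ) (P E : List Tm) (B : Bx) (mP mE sh : ℕ) (R P' E' : List Tm) : ℕ :=
  cst B B.L2 fun wp wq ww a b g e DN Dp Dq Dw =>
    @Bo.rec (T7 P8) (fun _ => ℕ) (fun AB => @Bo.rec (T7 (T7 Bool)) (fun _ => ℕ) (fun EQ =>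
      Nat.add (pasH Z AB EQ (prH B sh R) [] P mP P') (pasH Z AB EQ (prH B sh R) R E mE E'))
      (eqH sc)) (abH Z wp wq ww a b g e DN Dp Dq Dw)

def gpH (w : ℕ) (s : Tm) (u : ℕ) : Bool :=
  Nat.blt u (2 ^ 72) && Nat.ble (u * w) (Int.natAbs s.c * 2 ^ 56)

def finH (Z w : ℕ) (R : List Tm) (v : ℕ) : Bool :=
  Nat.blt v Z && allA (fun j => gpH w (R.getD j z0) (v / 2 ^ (80 * j) % 2 ^ 80))
    [0, 1, 2, 3, 4, 5, 6]

/-- digit `0`: the term is kept, times `sc`; digit `j + 1`: it is absorbed by the term `j` of `R` -/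
def cmG (sc : ℕ) (P E : List Tm) (x : Cm2) : Bool :=
  wf x.C.B && frc (Nat.pow 2 640) fun Z => frc sc fun sc => frc x.sh fun sh =>
    frc (sumH Z sc P E x.C.B x.mP x.mE sh x.R x.C.P x.C.E) (finH Z (2 ^ sh * sc) x.R)

def cmTop (h : ℕ) (P E : List Tm) (L : List Cm2) : Bool :=
  allA (fun x => Nat.beq x.C.h h && cmG 4096 P E x) L

def cmSub (C0 : CF) (L : List Cm2) : Bool :=
  allA (fun x => Nat.beq x.C.h C0.h && subB x.C.B C0.B && cmG 1 C0.P C0.E x) L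

end Pool.Agent.MP_2339ce_nt.Q2.TB
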