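import Pool.Agent.MP_2339ce_nt.Q2.THDef
import Pool.Agent.MP_2339ce_nt.Q2.TCCmp
import Pool.Agent.MP_2339ce_nt.Q2.TCWin

/-! Project Q2, block TH: soundness of the compression in one pass. -/

set_option autoImplicit false

namespace Pool.Agent.MP_2339ce_nt.Q2.TB

namespace TH

open Fast

noncomputable def fs (sh : ℕ) (s t : Tm) : Lf :=
  ⟨(fq lfc lfc s t).m - 1200 * sh, (fq lfc lfc s t).eN, (fq lfc lfc s t).ea, (fq lfc lfc s t).eb,
    (fq lfc lfc s t).ec⟩

theorem term_ok {B : Bx} {q : Qd} (hB : B.Mem q.N q.a q.b q.c) (sh : ℕ) (s t : Tm)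
    (hl : s.l ≤ t.l) (hx : ubT B (Int.natAbs t.c) (fs sh s t) < 2 ^ 72) :
    |ev q.pt t| ≤ ubT B (Int.natAbs t.c) (fs sh s t) *
      (2 ^ sh * mon q.pt s.i s.j s.k s.l s.m / 2 ^ 56) := by
  have h4 : In B lfc ⟨⌈600 * lg q.d⌉, 0, 0, 0, 0⟩ q := by
    refine ⟨hB, ?_, by simpa [Lf.val] using Int.le_ceil _⟩
    have c0 : (0 : ℝ) < q.c := by
      have := q.ha; have := q.hb; have := q.hc; exact_mod_cast (by omega : 0 < q.c)
    have c1 : lg q.c ≤ lg q.d :=
      Real.logb_le_logb_of_le one_lt_two c0 (by exact_mod_cast q.hd.le)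
    simp only [lfc, Lf.val]
    push_cast
    linarith
  obtain ⟨y, hy, hu, -⟩ := fq_ok B lfc _ q s t h4
  have e : fq lfc ⟨⌈600 * lg q.d⌉, 0, 0, 0, 0⟩ s t = fq lfc lfc s t := by
    rw [fq, fq, Nat.ble_eq_true_of_le hl]
  rw [e] at hu
  have hv : y - 1200 * sh ≤ (fs sh s t).val q.N q.a q.b q.c := by
    simp only [fs, Lf.val] at hu ⊢
    push_cast
    linarith
  unfold ubT at hx ⊢
  cases hb : bad B (fs sh s t) with
  | true => rw [hb] at hx; exact absurd hx (lt_irrefl _)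
  | false =>
    rw [hb] at hx
    have h5 := (ubx_ok (Int.natAbs t.c) (sup B (fs sh s t)) _).1
      (hv.trans (sup_ok B _ _ _ _ _ hB hb)) hx
    have hm := Sum.mon_pos q s.i s.j s.k s.l s.m
    have e2 : (2 : ℝ) ^ (y / 1200) = 2 ^ ((y - 1200 * sh) / 1200) * 2 ^ sh := by
      rw [← Real.rpow_natCast, ← Real.rpow_add two_pos]
      congr 1
      ring
    rw [Sum.abs_ev, hy, e2]
    show _ ≤ (ubX (Int.natAbs t.c) (sup B (fs sh s t)) : ℝ) * _
    calc _ = ((Int.natAbs t.c : ℝ) * 2 ^ ((y - 1200 * sh) / 1200) * 2 ^ 56) *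
          (2 ^ sh * mon q.pt s.i s.j s.k s.l s.m / 2 ^ 56) := by ring
      _ ≤ _ := mul_le_mul_of_nonneg_right h5 (by positivity)

theorem frc' {α : Type} (x : ℕ) (k : ℕ → α) : frc x k = k x := (frc_eq x k).trans rfl

theorem nab (c : ℤ) : @Int.rec (fun _ => ℕ) (fun n => n) Nat.succ c = Int.natAbs c := by
  cases c <;> rfl

theorem ab_eq {B : Bx} (h : wf B = true) (Z sh : ℕ) (R : List Tm) (j : ℕ) (t : Tm) :
    @Pr.rec (fun _ => ℕ) (@Tm.rec (fun _ => P8) (abH Z (wt B.fp) (wt B.fq) (wt B.fw) (6 * B.p1)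
      (6 * B.p1 + 6 * B.q1) (6 * B.p1 + 6 * B.q1 + 6 * B.w1) (12 * B.L2) (12 * (B.L2 - B.L1))
      (6 * dd B.fp B.p1 B.p2) (6 * dd B.fq B.q1 B.q2) (6 * dd B.fw B.w1 B.w2)).v t) (prH B sh R j) =
    @Bool.rec (fun _ => ℕ) Z (MM j *
      ubT B (Int.natAbs t.c) (fs sh (R.getD j z0) t)) (Nat.ble (R.getD j z0).l t.l) := by
  unfold prH
  generalize R.getD j z0 = s
  generalize MM j = M
  obtain ⟨c, key, i, j', k, l, m⟩ := t
  simp only [frc_eq]
  generalize hp : preU2 B 1 _ _ _ = p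
  obtain ⟨C, Cn, KN, Kp, Kq, Kw⟩ := p
  show @Bool.rec (fun _ => ℕ) Z _ (Nat.ble s.l l) = @Bool.rec (fun _ => ℕ) Z _ (Nat.ble s.l l)
  cases h1 : Nat.ble s.l l with
  | false => rfl
  | true =>
    have h2 := Nat.le_of_ble_eq_true h1
    obtain ⟨e0, e1, e2, e3, e4⟩ := fq2_co lfc (Int.subNatNat s.l l) s ⟨c, key, i, j', k, l, m⟩
      (fq lfc lfc s ⟨c, key, i, j', k, l, m⟩) (by rw [fq, h1])
    have := termU B h (Int.natAbs c) i j' (k + l) m 1 (kl s) (fs sh s ⟨c, key, i, j', k, l, m⟩)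
      0 0 0 0 0 (1200 * sh) 0 0 0 0
      (by simp only [fs]; rw [e0]; simp only [lfc, kl]; push_cast; ring)
      (by simp only [fs]; rw [e1]; simp [lfc, kl]) (by simp only [fs]; rw [e2]; simp [lfc, kl])
      (by simp only [fs]; rw [e3]; simp [lfc, kl])
      (by
        simp only [fs]
        rw [e4]
        simp only [lfc, kl, Int.subNatNat_eq_coe, Nat.add_eq]
        push_cast
        ring)
    rw [show preU2 B 1 (hf B 0 0 0 0 0) (hf B (1200 * sh) 0 0 0 0) (hfS B (kl s)) = _ from hp]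
      at this
    rw [← this, ← nab]
    exact congrArg₂ Nat.mul rfl rfl

theorem and_e {p b : Bool} (h : @Bool.rec (fun _ => Bool) false p b = true) :
    b = true ∧ p = true := by
  cases b
  · cases h
  · exact ⟨rfl, h⟩

theorem eq_e (x : Pt) (sc : ℕ) (t y : Tm)
    (h : @Tm.rec (fun _ => Bool) (@Tm.rec (fun _ => T7 Bool) (eqH sc).v t) y = true) :
    ev x y = sc * ev x t := by
  obtain ⟨c, key, i, j, k, l, m⟩ := t
  obtain ⟨c', key', i', j', k', l', m'⟩ := y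
  obtain ⟨h1, g1⟩ := and_e h
  obtain ⟨h2, g2⟩ := and_e g1
  obtain ⟨h3, g3⟩ := and_e g2
  obtain ⟨h4, g4⟩ := and_e g3
  obtain ⟨h5, g⟩ := and_e g4
  clear h g1 g2 g3 g4
  obtain rfl := Nat.eq_of_beq_eq_true h1
  obtain rfl := Nat.eq_of_beq_eq_true h2
  obtain rfl := Nat.eq_of_beq_eq_true h3
  obtain rfl := Nat.eq_of_beq_eq_true h4
  obtain rfl := Nat.eq_of_beq_eq_true h5
  have e : c' = sc * c := by
    cases c with
    | ofNat n =>
      cases c' with
      | ofNat n' =>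
        have : sc * n = n' := Nat.eq_of_beq_eq_true g
        subst this
        rfl
      | negSucc n' => cases g
    | negSucc n =>
      cases c' with
      | ofNat n' => cases g
      | negSucc n' =>
        have : sc * (n + 1) = n' + 1 := Nat.eq_of_beq_eq_true g
        rw [Int.negSucc_eq, Int.negSucc_eq]
        zify at this
        linarith
  subst e
  simp only [ev]
  push_cast
  ring

theorem pas_ok (x : Pt) {Z sc : ℕ} {AB : T7 P8} {EQ : T7 (T7 Bool)} {pr : ℕ → Pr} (M : ℕ → ℕ)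
    (μ : ℕ → ℝ)
    (hA : ∀ (t : Tm) (j : ℕ), @Pr.rec (fun _ => ℕ) (@Tm.rec (fun _ => P8) AB t) (pr j) < Z →
      ∃ w : ℕ, @Pr.rec (fun _ => ℕ) (@Tm.rec (fun _ => P8) AB t) (pr j) = M j * w ∧
        (w < 2 ^ 72 → |ev x t| ≤ w * μ j))
    (hE : ∀ t y : Tm, @Tm.rec (fun _ => Bool) (@Tm.rec (fun _ => T7 Bool) EQ t) y = true →
      ev x y = sc * ev x t) (fin L : List Tm) : ∀ (mask : ℕ) (Y : List Tm),
    pasH Z AB EQ pr fin L mask Y < Z → ∃ u : ℕ → ℕ,
      pasH Z AB EQ pr fin L mask Y = ∑ j ∈ Finset.range 7, M j * u j ∧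
      ((∀ j < 7, u j < 2 ^ 72) →
        |sc * evL x L + evL x fin - evL x Y| ≤ sc * ∑ j ∈ Finset.range 7, u j * μ j ∧
        sc * evA x L + evA x fin ≤ evA x Y + sc * ∑ j ∈ Finset.range 7, u j * μ j) := by
  induction L with
  | nil =>
    intro mask Y h
    have e : pasH Z AB EQ pr fin [] mask Y = @Bool.rec (fun _ => ℕ) Z 0 (eqL fin Y) := rfl
    rw [e] at h ⊢
    cases h1 : eqL fin Y with
    | false => rw [h1] at h; exact absurd h (lt_irrefl _)
    | true =>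
      obtain ⟨e1, e2⟩ := eq_ok x _ _ h1
      refine ⟨fun _ => 0, by simp, fun _ => ?_⟩
      rw [e1, e2]
      simp [evL, evA]
  | cons t L ih =>
    intro mask Y h
    have s0 : (0 : ℝ) ≤ sc := Nat.cast_nonneg _
    have hd : Nat.mod mask (nat_lit 8) < 8 := Nat.mod_lt _ (by norm_num)
    have e : pasH Z AB EQ pr fin (t :: L) mask Y = @Nat.rec (fun _ => List Tm → Tm → Ih → ℕ → ℕ)
        _ _ (Nat.mod mask (nat_lit 8)) Y t (pasH Z AB EQ pr fin L)
        (Nat.shiftRight mask (nat_lit 3)) := rfl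
    rw [e] at h ⊢
    generalize Nat.mod mask (nat_lit 8) = d at h hd ⊢
    generalize Nat.shiftRight mask (nat_lit 3) = mask' at h ⊢
    rw [MG.evL_cons, MG.evA_cons]
    cases d with
    | zero =>
      cases Y with
      | nil => exact absurd h (lt_irrefl _)
      | cons y Y =>
        change @Bool.rec (fun _ => ℕ) Z (pasH Z AB EQ pr fin L mask' Y) _ < Z at h
        show ∃ u : ℕ → ℕ, @Bool.rec (fun _ => ℕ) Z (pasH Z AB EQ pr fin L mask' Y) _ = _ ∧ _
        cases h1 : @Tm.rec (fun _ => Bool) (@Tm.rec (fun _ => T7 Bool) EQ t) y with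
        | false => rw [h1] at h; exact absurd h (lt_irrefl _)
        | true =>
          rw [h1] at h
          obtain ⟨u, e1, e2⟩ := ih mask' Y h
          refine ⟨u, e1, fun hu => ?_⟩
          obtain ⟨k1, k2⟩ := e2 hu
          rw [MG.evL_cons, MG.evA_cons, hE t y h1, abs_mul, abs_of_nonneg s0]
          refine ⟨le_of_eq_of_le (congrArg _ (by ring)) k1, by linarith⟩
    | succ j =>
      change @Pr.rec (fun _ => ℕ) (@Tm.rec (fun _ => P8) AB t) (pr j) +
        pasH Z AB EQ pr fin L mask' Y < Z at h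
      show ∃ u : ℕ → ℕ, @Pr.rec (fun _ => ℕ) (@Tm.rec (fun _ => P8) AB t) (pr j) +
        pasH Z AB EQ pr fin L mask' Y = _ ∧ _
      obtain ⟨w, e3, e4⟩ := hA t j (by omega)
      obtain ⟨u, e1, e2⟩ := ih mask' Y (by omega)
      have hj : j ∈ Finset.range 7 := Finset.mem_range.2 (by omega)
      refine ⟨fun i => u i + if i = j then w else 0, ?_, fun hu => ?_⟩
      · rw [e3, e1]
        simp only [mul_add, Finset.sum_add_distrib, mul_ite, mul_zero, Finset.sum_ite_eq', hj,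
          if_true]
        ring
      · have hw : w < 2 ^ 72 := by
          have := hu j (by omega)
          simp only [if_true] at this
          omega
        obtain ⟨k1, k2⟩ := e2 fun i hi => lt_of_le_of_lt (Nat.le_add_right _ _) (hu i hi)
        have k3 := mul_le_mul_of_nonneg_left (e4 hw) s0
        have e5 : ∑ i ∈ Finset.range 7, ((u i + if i = j then w else 0 : ℕ) : ℝ) * μ i =
            ∑ i ∈ Finset.range 7, u i * μ i + w * μ j := by
          simp only [Nat.cast_add, Nat.cast_ite, Nat.cast_zero, add_mul, Finset.sum_add_distrib,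
            ite_mul, zero_mul, Finset.sum_ite_eq', hj, if_true]
        rw [e5]
        obtain ⟨k4, k5⟩ := abs_le.1 k1
        have k6 := mul_le_mul_of_nonneg_left (le_abs_self (ev x t)) s0
        have k7 := mul_le_mul_of_nonneg_left (neg_abs_le (ev x t)) s0
        exact ⟨abs_le.2 ⟨by linarith, by linarith⟩, by linarith⟩

theorem dig (X : ℕ) (u : ℕ → ℕ) (n : ℕ) (hu : ∀ j < n, u j < X) (T : ℕ) : ∀ j < n,
    (∑ i ∈ Finset.range n, X ^ i * u i + X ^ n * T) / X ^ j % X = u j := by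
  induction n generalizing T with
  | zero => exact fun j hj => absurd hj (Nat.not_lt_zero _)
  | succ n ih =>
    intro j hj
    have e : ∑ i ∈ Finset.range (n + 1), X ^ i * u i + X ^ (n + 1) * T =
        ∑ i ∈ Finset.range n, X ^ i * u i + X ^ n * (u n + X * T) := by
      rw [Finset.sum_range_succ]; ring
    rw [e]
    rcases Nat.lt_succ_iff_lt_or_eq.1 hj with h | rfl
    · exact ih (fun i hi => hu i (by omega)) _ j h
    · have x0 : 0 < X := lt_of_le_of_lt (Nat.zero_le _) (hu j hj)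
      have l : ∀ m ≤ j, ∑ i ∈ Finset.range m, X ^ i * u i < X ^ m := fun m hm => by
        induction m with
        | zero => simp
        | succ m ih =>
          have h1 := ih (by omega)
          have h2 : X ^ m * (u m + 1) ≤ X ^ m * X := Nat.mul_le_mul_left _ (hu m (by omega))
          rw [Finset.sum_range_succ, pow_succ]
          rw [mul_add, mul_one] at h2
          omega
      rw [Nat.add_mul_div_left _ _ (Nat.pow_pos x0), Nat.div_eq_of_lt (l j le_rfl), zero_add,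
        Nat.add_mul_mod_self_left, Nat.mod_eq_of_lt (hu j hj)]

theorem digit (u : ℕ → ℕ) (v : ℕ) (e : v = ∑ j ∈ Finset.range 7, MM j * u j)
    (h : v < 2 ^ 640) (j : ℕ) (hj : j < 7) : v / 2 ^ (80 * j) % 2 ^ 80 = u j := by
  have m : ∀ j, MM j = (2 ^ 80) ^ 7 + (2 ^ 80) ^ j := fun j => by
    unfold MM
    rw [Nat.add_eq, Nat.pow_eq, Nat.pow_eq, Nat.mul_eq, ← pow_mul, ← pow_mul]
  rw [show 640 = 80 * 8 from rfl, pow_mul] at h
  rw [pow_mul]
  generalize 2 ^ 80 = X at *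
  simp only [m, add_mul, Finset.sum_add_distrib, ← Finset.mul_sum] at e
  rw [e, add_comm]
  refine dig X u 7 (fun i hi => ?_) _ j hj
  have h1 : X ^ 7 * ∑ i ∈ Finset.range 7, u i < X ^ 7 * X := by
    rw [← pow_succ]
    exact lt_of_le_of_lt (Nat.le_add_right _ _) (e ▸ h)
  exact lt_of_le_of_lt (Finset.single_le_sum (fun _ _ => Nat.zero_le _) (Finset.mem_range.2 hi))
    (Nat.lt_of_mul_lt_mul_left h1)

theorem core {sc : ℕ} {P E : List Tm} {x : Cm2} {q : Qd} (hB : x.C.B.Mem q.N q.a q.b q.c)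
    (hc : cmG sc P E x = true) {w : ℝ} (hw : Ap q.pt w (P, E)) :
    Ap q.pt (w * sc) (x.C.P, x.C.E) := by
  rw [cmG, Bool.and_eq_true] at hc
  obtain ⟨h0, hc⟩ := hc
  have hZ : ∃ Z : ℕ, Z = 2 ^ 640 ∧ finH Z (2 ^ x.sh * sc) x.R
      (sumH Z sc P E x.C.B x.mP x.mE x.sh x.R x.C.P x.C.E) = true :=
    ⟨Nat.pow 2 640, rfl, by
      rw [frc', frc', frc', frc'] at hc
      exact hc⟩
  clear hc
  obtain ⟨Z, hZ, hc⟩ := hZ
  rw [finH, Bool.and_eq_true, Nat.blt_eq, allA_eq, List.all_eq_true] at hc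
  obtain ⟨h1, h2⟩ := hc
  simp only [sumH, cst, frc_eq, selW_eq] at h1 h2
  have H := pas_ok q.pt (Z := Z) (sc := sc) (EQ := (eqH sc).v) (pr := prH x.C.B x.sh x.R)
    MM
    (fun j => 2 ^ x.sh * mon q.pt (x.R.getD j z0).i (x.R.getD j z0).j (x.R.getD j z0).k
      (x.R.getD j z0).l (x.R.getD j z0).m / 2 ^ 56)
    (fun t j h => by
      rw [ab_eq h0] at h ⊢
      cases h3 : Nat.ble (x.R.getD j z0).l t.l with
      | false => rw [h3] at h; exact absurd h (lt_irrefl _)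
      | true => exact ⟨_, rfl, term_ok hB _ _ _ (Nat.le_of_ble_eq_true h3)⟩)
    (eq_e q.pt sc)
  obtain ⟨u1, a1, b1⟩ := H [] P x.mP x.C.P (lt_of_le_of_lt (Nat.le_add_right _ _) h1)
  obtain ⟨u2, a2, b2⟩ := H x.R E x.mE x.C.E (lt_of_le_of_lt (Nat.le_add_left _ _) h1)
  clear H
  obtain ⟨v, hv⟩ : ∃ v, v = ∑ j ∈ Finset.range 7, MM j * (u1 j + u2 j) := ⟨_, rfl⟩
  have e : Nat.add _ _ = v := (congrArg₂ Nat.add a1 a2).trans (by
    simp only [hv, mul_add, Finset.sum_add_distrib, Nat.add_eq])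
  replace h1 : v < Z := e ▸ h1
  replace h2 : ∀ j ∈ [0, 1, 2, 3, 4, 5, 6], gpH (2 ^ x.sh * sc) (x.R.getD j z0)
      (v / 2 ^ (80 * j) % 2 ^ 80) = true := e ▸ h2
  have hd := digit (fun j => u1 j + u2 j) v hv (lt_of_lt_of_eq h1 hZ)
  have h3 : ∀ j < 7, u1 j + u2 j < 2 ^ 72 ∧
      (u1 j + u2 j) * (2 ^ x.sh * sc) ≤ Int.natAbs (x.R.getD j z0).c * 2 ^ 56 := fun j hj => by
    have := h2 j (by interval_cases j <;> simp)
    rw [gpH, Bool.and_eq_true, Nat.blt_eq, Nat.ble_eq, hd j hj] at this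
    exact this
  obtain ⟨k1, -⟩ := b1 fun j hj => lt_of_le_of_lt (Nat.le_add_right _ _) (h3 j hj).1
  obtain ⟨-, k2⟩ := b2 fun j hj => lt_of_le_of_lt (Nat.le_add_left _ _) (h3 j hj).1
  have k3 := (Finset.sum_le_sum fun j (hj : j ∈ Finset.range 7) => show
    (sc : ℝ) * (u1 j * (2 ^ x.sh * mon q.pt (x.R.getD j z0).i (x.R.getD j z0).j (x.R.getD j z0).k
      (x.R.getD j z0).l (x.R.getD j z0).m / 2 ^ 56)) +
    sc * (u2 j * (2 ^ x.sh * mon q.pt (x.R.getD j z0).i (x.R.getD j z0).j (x.R.getD j z0).k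
      (x.R.getD j z0).l (x.R.getD j z0).m / 2 ^ 56)) ≤ |ev q.pt (x.R.getD j z0)| from by
      have h7 : ((u1 j : ℝ) + u2 j) * (2 ^ x.sh * sc) ≤
          (Int.natAbs (x.R.getD j z0).c : ℝ) * 2 ^ 56 := by
        exact_mod_cast (h3 j (Finset.mem_range.1 hj)).2
      generalize x.R.getD j z0 = s at h7 ⊢
      have h8 := mul_le_mul_of_nonneg_right h7 (Sum.mon_pos q s.i s.j s.k s.l s.m).le
      rw [Sum.abs_ev]
      linarith).trans (Cmp.getD_le q.pt x.R 7)
  rw [Finset.sum_add_distrib, ← Finset.mul_sum, ← Finset.mul_sum] at k3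
  have k0 : |w - evL q.pt P| ≤ evA q.pt E := hw
  have s0 : (0 : ℝ) ≤ sc := Nat.cast_nonneg _
  have e0 : evL q.pt [] = 0 := rfl
  rw [e0] at k1
  obtain ⟨k4, k5⟩ := abs_le.1 k0
  obtain ⟨k6, k7⟩ := abs_le.1 k1
  have k8 := mul_le_mul_of_nonneg_left k4 s0
  have k9 := mul_le_mul_of_nonneg_left k5 s0
  show |w * sc - evL q.pt x.C.P| ≤ evA q.pt x.C.E
  exact abs_le.2 ⟨by linarith, by linarith⟩

end TH

theorem cmTop_ok {h : ℕ} {F : List Cl} {P E : List Tm} {L : List Cm2} (hG : Good h F P E)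
    (hc : cmTop h P E L = true) : AO (fun x : Cm2 => x.C.Ok) L := by
  rw [AO_iff]
  intro x hx q hB hN
  rw [cmTop, Fast.allA_eq, List.all_eq_true] at hc
  have := hc x hx
  rw [Bool.and_eq_true] at this
  refine ⟨W q F, ?_⟩
  rw [Nat.eq_of_beq_eq_true this.1]
  simpa using TH.core hB this.2 (hG q hN)

theorem cmSub_ok {C0 : CF} {L : List Cm2} (hG : C0.Ok) (hc : cmSub C0 L = true) :
    AO (fun x : Cm2 => x.C.Ok) L := by
  rw [AO_iff]
  intro x hx q hB hN
  rw [cmSub, Fast.allA_eq, List.all_eq_true] at hc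
  have := hc x hx
  rw [Bool.and_eq_true, Bool.and_eq_true] at this
  obtain ⟨w, hw⟩ := hG q (Win.sub_mem this.1.2 hB) hN
  refine ⟨w, ?_⟩
  rw [Nat.eq_of_beq_eq_true this.1.1]
  simpa using TH.core hB this.2 hw

end Pool.Agent.MP_2339ce_nt.Q2.TB
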