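import Pool.Agent.MP_2339ce_nt.Q2.TISpec
import Pool.Agent.MP_2339ce_nt.Q2.TEGlue

/-! Project Q2, block TI: soundness. -/

set_option autoImplicit false

namespace Pool.Agent.MP_2339ce_nt.Q2.TB

namespace TI

theorem xb (q : Qd) (h : 64 * q.N ≤ q.b * q.c) :
    (63 * (q.a * q.t - q.r * q.s)) ^ 2 * (q.b * q.c) ≤ (32 * (2 * q.N) * (q.b + q.c)) ^ 2 := by
  have h1 := (xw_ok q).1
  have hN : 0 < q.N := q.hN
  have ha : 0 < q.a := q.ha
  have hb := ha.trans q.hb
  have hc := hb.trans q.hc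
  have e : (q.a * q.t - q.r * q.s) * (q.a * q.t + q.r * q.s) =
      q.N * (q.a * q.b + q.a * q.c - q.a ^ 2 - q.N) := by
    linear_combination q.a ^ 2 * q.ht - q.s ^ 2 * q.hr - (q.a * q.b - q.N) * q.hs
  have ht := q.ht
  have t0 := q.t0
  have k0 := mul_nonneg q.r0 q.s0
  generalize q.a * q.t - q.r * q.s = x at h1 e ⊢
  have k1 : x * q.t ≤ q.N * (q.b + q.c) := by
    refine le_of_mul_le_mul_left ?_ ha
    have k2 : 0 ≤ x * (q.r * q.s) := mul_nonneg (by omega) k0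
    have k3 : 0 ≤ q.N * (q.a ^ 2 + q.N) := by positivity
    linarith
  have k4 := pow_le_pow_left₀ (mul_nonneg (by omega) t0) k1 2
  have k5 : 63 * (q.b * q.c) ≤ 64 * q.t ^ 2 := by linarith
  have k6 := mul_le_mul_of_nonneg_left k5 (sq_nonneg x)
  have k7 := sq_nonneg (q.N * (q.b + q.c))
  linarith

theorem subE (T : Tr3) : ∀ acc, acc ⊆ rectsE T acc := by
  induction T with
  | nd _ _ _ _ il ir => exact fun acc => List.Subset.trans (ir acc) (il _)
  | old T => exact Tree.sub2 T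
  | f2 => exact fun acc => List.subset_cons_self _ _

end TI

open RC in
theorem rc2_ok : S_RC2 := by
  intro B ρ u v q m k
  have hN : 0 < q.N := q.hN
  have ha : 0 < q.a := q.ha
  have hb := ha.trans q.hb
  have hc := hb.trans q.hc
  simp only [rc2OK, Bool.and_eq_true, Bool.not_eq_true'] at k
  obtain ⟨⟨⟨⟨⟨⟨⟨⟨⟨⟨⟨⟨k1, k2⟩, j1⟩, k3⟩, k4⟩, k5⟩, k6⟩, k7⟩, k8⟩, l1⟩, l2⟩, l3⟩, l4⟩ := k
  have p2 := m.p2 k1
  have q2 := m.q2 k2
  have n1 : (ρ.N1 : ℤ) ≤ q.N := by have := lo hN m.L1 k3; omega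
  have n2 := hi hN m.L2 k4
  refine ⟨n1, n2, by have := lo ha m.p1 k5; omega, hi ha p2 k6,
    sq (mul_pos ha hb) (by rw [q.hr]; omega) ?_ k7, fun _ => ⟨?_, ?_⟩⟩
  · rw [lg_mul ha hb]
    push_cast
    linarith
  · have := Nat.le_of_ble_eq_true k8
    have := (xw_ok q).1
    omega
  · have h1 : (B.L2 : ℝ) + 600 ≤ 2 * (B.p1 + B.q1) + B.w1 := by
      exact_mod_cast Nat.le_of_ble_eq_true l1
    have h2 : 64 * q.N ≤ q.b * q.c := by
      refine le_lg (by positivity) (by positivity) ?_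
      rw [lg_mul hb hc, lg_mul (by norm_num) hN, show (64 : ℤ) = 2 ^ 6 by norm_num, lg_two]
      push_cast
      linarith [m.L2, m.p1, m.q1, m.w1]
    have h3 : 64 * (ρ.N2 : ℤ) * (u ^ 2 + v ^ 2) ≤ 63 * ρ.x1 * u * v := by
      exact_mod_cast Nat.le_of_ble_eq_true l4
    exact x1b (v := v) (M := 2 * ρ.N2) hb q.hc (Int.natCast_nonneg u)
      (by exact_mod_cast Nat.le_of_ble_eq_true l2) (mul_pos two_pos hN) (by omega)
      (rat hb.le (upr hb hc (m.w2 j1)) (by exact_mod_cast Nat.le_of_ble_eq_true l3))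
      (TI.xb q h2) (by linarith)

theorem treeE {cfs : List CF} {wt : List Wn} (h1 : AO CF.Ok cfs) (h2 : AO Wn.Ok wt) (T : Tr3) :
    ∀ (B : Bx) (acc : List Rc), chkE cfs wt T B = true → Sem false B (rectsE T acc) := by
  induction T with
  | nd ax t l r il ir =>
    intro B acc h
    change @Bool.rec (fun _ => Bool) false (chkE cfs wt r (B.rgt ax t))
      (chkE cfs wt l (B.lft ax t)) = true at h
    cases e : chkE cfs wt l (B.lft ax t) <;> rw [e] at h
    · exact absurd h Bool.false_ne_true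
    refine sem_nd ax t (il _ _ e) fun q e k1 k2 k3 k4 => ?_
    obtain ⟨x, hx, m⟩ := ir _ acc h q e k1 k2 k3 k4
    exact ⟨x, TI.subE l _ hx, m⟩
  | old T =>
    intro B acc h
    change chkD2 cfs wt T B = true at h
    rw [chkD2_eq] at h
    exact tree2_all cfs wt T B acc ((AO_iff _ _).1 h1) ((AO_iff _ _).1 h2) h
  | f2 ρ u v =>
    exact fun B acc h q _ _ _ _ m => ⟨ρ, List.mem_cons_self, rc2_ok B ρ u v q m h⟩

theorem topE_ok : S_TOPE := by
  intro cfs wt rs T B h1 h2 h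
  rw [topE, Bool.and_eq_true] at h
  exact sem_sub h.2 (treeE h1 h2 T B [] h.1)

end Pool.Agent.MP_2339ce_nt.Q2.TB
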