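import Pool.Agent.MP_2339ce_nt.Q2.TEDef

/-! Project Q2, block TI: a rectangle for boxes with small `a b`. -/

set_option autoImplicit false

noncomputable section

namespace Pool.Agent.MP_2339ce_nt.Q2.TB

/-- `64 N ≤ b c` and `√(c / b) ≤ u / v` give `63 x u v ≤ 64 N (u ^ 2 + v ^ 2)` -/
def rc2OK (B : Bx) (ρ : Rc) (u v : ℕ) : Bool :=
  !B.fp && !B.fq && !B.fw && Nat.blt ((ρ.N1 - 1) ^ 100) (2 ^ B.L1) &&
    Nat.blt (2 ^ B.L2) ((ρ.N2 + 1) ^ 100) && Nat.blt ((ρ.a1 - 1) ^ 100) (2 ^ B.p1) &&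
    Nat.blt (2 ^ B.p2) ((ρ.a2 + 1) ^ 100) && Nat.ble (2 ^ (2 * B.p2 + B.q2)) (ρ.R ^ 200) &&
    Nat.ble ρ.x0 1 && Nat.ble (B.L2 + 600) (2 * (B.p1 + B.q1) + B.w1) && Nat.ble 1 v &&
    Nat.ble (2 ^ B.w2 * v ^ 200) (u ^ 200) &&
    Nat.ble (64 * ρ.N2 * (u ^ 2 + v ^ 2)) (63 * ρ.x1 * u * v)

inductive Tr3 where
  | nd (ax cut : ℕ) (l r : Tr3) : Tr3
  | old (T : Tr2) : Tr3
  | f2 (ρ : Rc) (u v : ℕ) : Tr3

def chkE (cfs : List CF) (wt : List Wn) (T : Tr3) : Bx → Bool :=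
  @Tr3.rec (fun _ => Bx → Bool)
    (fun ax t _ _ il ir B => @Bool.rec (fun _ => Bool) false (ir (B.rgt ax t)) (il (B.lft ax t)))
    (fun T B => chkD2 cfs wt T B) (fun ρ u v B => rc2OK B ρ u v) T

def rectsE (T : Tr3) : List Rc → List Rc :=
  @Tr3.rec (fun _ => List Rc → List Rc) (fun _ _ _ _ il ir acc => il (ir acc))
    (fun T acc => rectsD T acc) (fun ρ _ _ acc => ρ :: acc) T

def topE (cfs : List CF) (wt : List Wn) (rs : List Rc) (T : Tr3) (B : Bx) : Bool :=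
  chkE cfs wt T B && subAll (rectsE T []) rs

def S_RC2 : Prop := ∀ (B : Bx) (ρ : Rc) (u v : ℕ) (q : Qd),
  B.Mem q.N q.a q.b q.c → rc2OK B ρ u v = true → ρ.Mem false q

def S_TOPE : Prop := ∀ (cfs : List CF) (wt : List Wn) (rs : List Rc) (T : Tr3) (B : Bx),
  AO CF.Ok cfs → AO Wn.Ok wt → topE cfs wt rs T B = true → Sem false B rs

end Pool.Agent.MP_2339ce_nt.Q2.TB
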