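import Pool.Agent.MP_2339ce_nt.Q2.TFDef
import Pool.Agent.MP_2339ce_nt.Q2.TGSpec
import Pool.Agent.MP_2339ce_nt.Q2.TISpec

/-! Project Q2, block TJ: the data are packed into natural numbers; nothing is proved about
the unpacking. -/

set_option autoImplicit false

noncomputable section

namespace Pool.Agent.MP_2339ce_nt.Q2.TB

def fx (n s m : ℕ) : ℕ := Nat.mod (Nat.shiftRight n s) m

def sz (x : ℕ) : ℤ :=
  @Bool.rec (fun _ => ℤ) (Int.negSucc (Nat.shiftRight x 1)) (Int.ofNat (Nat.shiftRight x 1))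
    (Nat.beq (Nat.mod x 2) 0)

def bt (n s : ℕ) : Bool := Nat.beq (fx n s 2) 1

def dTm (n : ℕ) : Tm :=
  ⟨sz (Nat.shiftRight n 40), 0, Nat.mod n 256, fx n 8 256, fx n 16 256, fx n 24 256, fx n 32 256⟩

def dTs (L : List ℕ) : List Tm := @List.rec ℕ (fun _ => List Tm) [] (fun n _ r => dTm n :: r) L

def dB (n : ℕ) : Bx :=
  ⟨Nat.mod n 65536, fx n 16 65536, fx n 32 65536, fx n 48 65536, fx n 64 65536, fx n 80 65536,
    fx n 96 65536, fx n 112 65536, bt n 128, bt n 129, bt n 130⟩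

def dCF (h b : ℕ) (P E : List ℕ) : CF := ⟨h, dTs P, dTs E, dB b⟩

def dL (n : ℕ) : Lf :=
  ⟨sz (Nat.mod n 4294967296), sz (fx n 32 4096), sz (fx n 44 4096), sz (fx n 56 4096),
    sz (fx n 68 4096)⟩

def dWd (n : ℕ) : Wd :=
  ⟨fx n 136 256, fx n 120 65536, dL n,
    ⟨0, 0, fx n 80 256, fx n 88 256, fx n 96 256, fx n 104 256, fx n 112 256⟩, bt n 144⟩

def dWs (k : ℕ) : ℕ → List Wd :=
  @Nat.rec (fun _ => ℕ → List Wd) (fun _ => []) (fun _ ih n =>
    frc (Nat.mod n 1461501637330902918203684832716283019655932542976) dWd ::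
      frc (Nat.shiftRight n 160) ih) k

def dIx (k : ℕ) : ℕ → List ℕ :=
  @Nat.rec (fun _ => ℕ → List ℕ) (fun _ => []) (fun _ ih n =>
    Nat.mod n 65536 :: frc (Nat.shiftRight n 16) ih) k

def dDf (n : ℕ) : Df :=
  ⟨Nat.mod n 65536, 1024, fx n 16 65536, fx n 32 65536, 1024, fx n 48 65536, 0⟩

def dSw (b n : ℕ) : Sw :=
  ⟨dB b, dDf n, frc (Nat.shiftRight n 64) dL, frc (Nat.shiftRight n 176) (dIx (fx n 162 256)),
    fx n 144 4, fx n 146 65536⟩

end Pool.Agent.MP_2339ce_nt.Q2.TB
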