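import Pool.Agent.MP_2339ce_nt.Q2.HA9
import Pool.Agent.MP_2339ce_nt.Q2.TEDef

/-! Project Q2, block TJ: tables of windows. -/

set_option autoImplicit false

namespace Pool.Agent.MP_2339ce_nt.Q2.TB

theorem tabA {l : List Wn} (t : List El9) (h1 : t.all El9.good = true) (h2 : l = t.map El9.wn) :
    AO Wn.Ok l := (AO_iff _ _).2 (tab_ok9 t h1 h2)

end Pool.Agent.MP_2339ce_nt.Q2.TB
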