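import Pool.Agent.MP_2339ce_nt.Q2.TJDef

/-! Project Q2, block TK: the cover tree as a list of numbers, checked with a stack of boxes. -/

set_option autoImplicit false

noncomputable section

namespace Pool.Agent.MP_2339ce_nt.Q2.TB

def nthA {α : Type} (d : α) (L : List α) : ℕ → α :=
  @List.rec α (fun _ => ℕ → α) (fun _ => d)
    (fun x _ ih n => @Nat.rec (fun _ => α) x (fun m _ => ih m) n) L

/-- a table with three levels -/
def lk3 {α : Type} (d : α) (T : List (List (List α))) (n : ℕ) : α :=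
  frc (Nat.mod n 32) (nthA d (frc (fx n 5 32) (nthA [] (frc (Nat.shiftRight n 10) (nthA [] T)))))

def selA {α : Type} (f : ℕ → α) (L : List ℕ) : List α :=
  @List.rec ℕ (fun _ => List α) [] (fun n _ r => frc n f :: r) L

/-- the three tests -/
structure Pl where
  win : CF → Bx → Lf → Lf → Tm → Bool → Bool
  hw : ℕ → Bx → Us → Lf → Lf → Bool
  hp : List Wn → ℕ → ℕ → Bx → Us → Lf → Bool

def pl0 : Pl := ⟨winOK2, hwOK2 false, hpF⟩

def an (a b : Bool) : Bool := @Bool.rec (fun _ => Bool) false b a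

def bxE : Bx := ⟨1, 0, 0, 0, 0, 0, 0, 0, false, false, false⟩
def wnE : Wn := ⟨[⟨0, -1, 0, 0, 0, 0, 0, 0, 0⟩], [], []⟩
def swE : Sw := ⟨bxE, ⟨0, 0, 0, 0, 0, 0, 0⟩, lfc, [], 0, 0⟩
def rcE : Rc := ⟨1, 0, 0, 0, 0, 0, 0⟩

def swK (P : Pl) (wf : ℕ → Wn) (x : Sw) : Bool :=
  an (dfOK false x.B x.D) (P.hp (selA wf x.ix) x.pr x.i x.B (dfU false x.D) x.D0)

def wdK (P : Pl) (cf : ℕ → CF) (B : Bx) (U : Us) (lo : Lf) (w : Wd) : Bool :=
  @Bool.rec (fun _ => Bool) (frc w.id fun n => P.hw n B U lo w.hi)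
    (P.win (frc w.id cf) B lo w.hi w.s w.g) (Nat.beq w.ty 0)

def chainK (P : Pl) (cf : ℕ → CF) (B : Bx) (U : Us) (ws : List Wd) : Lf → Bool :=
  @List.rec Wd (fun _ => Lf → Bool) (fun _ => true) (fun w _ ih lo =>
    @Bool.rec (fun _ => Bool) false (ih w.hi) (wdK P cf B U lo w)) ws

def swF (B : Bx) (D : Lf) (x : Sw) : Bool := an (subB B x.B) (le0 B (x.D0.add D.neg))

/-- the end of a closed leaf: a cell, or a chain of windows -/
def finK (P : Pl) (wf : ℕ → Wn) (sf : ℕ → Sw) (n s : ℕ) (B : Bx) (U : Us) (D : Lf) : Bool :=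
  @Bool.rec (fun _ => Bool)
    (P.hp (selA wf (frc (Nat.shiftRight n s) (dIx (fx n 98 256)))) (fx n 72 4) (fx n 74 65536)
      B U D) (swF B D (frc (fx n 74 65536) sf)) (bt n 3)

def clK (P : Pl) (cf : ℕ → CF) (B : Bx) (D : Df) (ws : List Wd) (k : Us → Lf → Bool) : Bool :=
  an (dfOK false B D) (an (chainK P cf B (dfU false D) ws lfc) (k (dfU false D) (lastHi ws lfc)))

def lvK (P : Pl) (cf : ℕ → CF) (B : Bx) (D : Df) (sm : Bool) (h0 : Lf) (w1 w2 : List Wd)
    (al be : ℕ) (Dv : Lf) (k : Us → Lf → Bool) : Bool :=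
  dfOK false B D && (!sm || tstA 0 true B (dfU false D) h0 h0 fun t => allA t hw2) &&
    chainK P cf B (dfU false D) w1 (st0 sm h0) &&
    chainK P cf B (dfU false D) w2 (lastHi w1 (st0 sm h0)) &&
    avOK B al be Dv (lastHi w1 (st0 sm h0)) (lastHi w2 (lastHi w1 (st0 sm h0))) &&
    k (dfU false D) Dv

/-- the rectangle `y` with a shorter range for `N` -/
def rcK (y : Rc) (n1 n2 : ℕ) (k : Rc → Bool) : Bool :=
  @Rc.rec (fun _ => Bool) (fun N1 N2 a1 a2 R x0 x1 =>
    an (Nat.ble N1 n1) (an (Nat.ble n2 N2) (k ⟨n1, n2, a1, a2, R, x0, x1⟩))) y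

def lfK (P : Pl) (cf : ℕ → CF) (wf : ℕ → Wn) (sf : ℕ → Sw) (rs : List Rc) (n g : ℕ)
    (B : Bx) : Bool :=
  @Bool.rec (fun _ => Bool) (@Bool.rec (fun _ => Bool) (@Bool.rec (fun _ => Bool)
    (@Bool.rec (fun _ => Bool) (@Bool.rec (fun _ => Bool)
      (emOK B (fx n 3 2) (Nat.shiftRight n 4)) (gpOK false B) (Nat.beq g 5))
      (rcK (frc (fx n 8 65536) (nthA rcE rs)) (fx n 80 256) (fx n 88 256) fun ρ =>
        rc2OK B ρ (fx n 24 1099511627776) (fx n 64 65536)) (Nat.beq g 4))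
      (frc (Nat.add 296 (Nat.mul 16 (fx n 98 256))) fun s =>
        lvK P cf B (frc (Nat.shiftRight n 8) dDf) (bt n 106) (frc (Nat.shiftRight n 136) dL)
          (frc (Nat.shiftRight n s) (dWs (fx n 90 256)))
          (frc (Nat.shiftRight n (Nat.add s (Nat.mul 160 (fx n 90 256)))) (dWs (fx n 128 256)))
          (fx n 112 256) (fx n 120 256) (frc (Nat.shiftRight n 216) dL)
          (finK P wf sf n 296 B)) (Nat.beq g 2))
    (rcK (frc (fx n 8 65536) (nthA rcE rs)) (fx n 136 256) (fx n 144 256) fun ρ =>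
      rcOK false B ρ (fx n 24 1099511627776) (fx n 64 65536) (fx n 80 1099511627776)
        (fx n 120 65536)) (Nat.beq g 3))
    (clK P cf B (frc (Nat.shiftRight n 8) dDf)
      (frc (Nat.shiftRight n (Nat.add 112 (Nat.mul 16 (fx n 98 256)))) (dWs (fx n 90 256)))
      (finK P wf sf n 112 B)) (Nat.beq g 1)

def subs (st : List Bx) : List Bx → Bool :=
  @List.rec Bx (fun _ => List Bx → Bool) (fun _ => true) (fun B _ ih fin =>
    @List.rec Bx (fun _ => Bool) false (fun Y r _ => an (subB B Y) (ih r)) fin) st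

/-- the boxes of `fin` are left for later -/
def runK (f : ℕ → ℕ → Bx → Bool) (fin : List Bx) (L : List ℕ) : List Bx → Bool :=
  @List.rec ℕ (fun _ => List Bx → Bool) (fun st => subs st fin)
    (fun n _ ih st => @List.rec Bx (fun _ => Bool) false (fun B s _ => @Bool.rec (fun _ => Bool)
      (@Bool.rec (fun _ => Bool) false (ih s) (f n (Nat.mod n 8) B))
      (frc (fx n 3 4) fun ax => frc (Nat.shiftRight n 5) fun t =>
        ih (B.lft ax t :: B.rgt ax t :: s)) (Nat.beq (Nat.mod n 8) 0)) st) L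

def topK (P : Pl) (CT : List (List (List CF))) (WT : List (List (List Wn)))
    (ST : List (List (List Sw))) (rs : List Rc) (L : List ℕ) (st fin : List Bx) : Bool :=
  runK (lfK P (lk3 cf0 CT) (lk3 wnE WT) (lk3 swE ST) rs) fin L st

def swT (P : Pl) (WT : List (List (List Wn))) (L : List Sw) : Bool := allA (swK P (lk3 wnE WT)) L

end Pool.Agent.MP_2339ce_nt.Q2.TB
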