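import Pool.Agent.MP_2339ce_nt.Q2.TCFastB

/-! Project Q2, block TK: a table lookup whose steps are shared between the calls. -/

set_option autoImplicit false

noncomputable section

namespace Pool.Agent.MP_2339ce_nt.Q2.TB

/-- the list without its first `j` members -/
def tlN {α : Type} (L : List α) (j : ℕ) : List α :=
  @Nat.rec (fun _ => List α) L
    (fun _ t => @List.rec α (fun _ => List α) [] (fun _ t' _ => t') t) j

def get2 {α : Type} (L : List α) (d : α) (j : ℕ) : α :=
  @List.rec α (fun _ => α) d (fun x _ _ => x) (tlN L j)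

/-- the member number `j`, or `d` -/
def getG {α : Type} (L : List α) (j : ℕ) (d : α) : α := frc j (get2 L d)

/-- `j` is less than the length -/
def inG {α : Type} (L : List α) (j : ℕ) : Bool :=
  frc j fun j => @List.rec α (fun _ => Bool) false (fun _ _ _ => true) (tlN L j)

def hpOKL (wt : List Wn) (ix : List ℕ) (pr i : ℕ) (B : Bx) (U : Us) (D : Lf) : Bool :=
  allA (inG wt) ix && hpF (ix.map fun j => getG wt j wn0) pr i B U D

theorem tlN_eq {α : Type} (L : List α) (j : ℕ) : tlN L j = L.drop j := by
  induction j with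
  | zero => rfl
  | succ j ih =>
    show @List.rec α (fun _ => List α) [] (fun _ t' _ => t') (tlN L j) = _
    rw [ih, ← List.tail_drop]
    cases L.drop j <;> rfl

theorem get2_eq {α : Type} (L : List α) (d : α) (j : ℕ) : get2 L d j = L.getD j d := by
  unfold get2
  rw [tlN_eq, List.getD_eq_getElem?_getD, ← List.head?_drop]
  cases L.drop j <;> rfl

theorem getG_eq {α : Type} (L : List α) (j : ℕ) (d : α) : getG L j d = L.getD j d :=
  get2_eq L d j

theorem inG_eq {α : Type} (L : List α) (j : ℕ) : inG L j = Nat.blt j L.length := by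
  show @List.rec α (fun _ => Bool) false (fun _ _ _ => true) (tlN L j) = _
  rw [tlN_eq]
  cases h : L.drop j with
  | nil =>
    have := List.drop_eq_nil_iff.1 h
    exact (Bool.eq_false_iff.2 fun h2 => by have := Nat.blt_eq.mp h2; omega).symm
  | cons x t =>
    have : ¬ L.length ≤ j := fun h2 => by rw [List.drop_eq_nil_iff.2 h2] at h; cases h
    exact (Nat.blt_eq.mpr (by omega)).symm

theorem hpOKL_eq : hpOKL = hpOKF := by
  funext wt ix pr i B U D
  simp only [hpOKL, hpOKF, getG_eq, Fast.allA_eq]
  congr 2
  funext j
  exact inG_eq wt j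

end Pool.Agent.MP_2339ce_nt.Q2.TB
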