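import Pool.Agent.MP_2339ce_nt.Q2.TXTay
import Pool.Agent.MP_2339ce_nt.Q2.TBConv
import Pool.Agent.MP_2339ce_nt.Q2.TBMg
import Pool.Agent.MP_2339ce_nt.Q2.TBExp

/-! Project Q2, block TX: the expansion with weighted truncation is correct. -/

set_option autoImplicit false

noncomputable section

namespace Pool.Agent.MP_2339ce_nt.Q2.TB

namespace TX

open Finset

def monK (x : Pt) (k : ℕ) : ℝ :=
  mon x (k / 1048576 % 1024) (k / 1024 % 1024) (k % 1024) (k / 1073741824 % 1024)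
    (k / 1099511627776 % 1024)

def evP (x : Pt) : PL → ℝ
  | .nil => 0
  | .cons k c tl => c * monK x k + evP x tl

def abP (x : Pt) : PL → ℝ
  | .nil => 0
  | .cons k c tl => |(c : ℝ)| * monK x k + abP x tl

def sm (D k : ℕ) : Prop :=
  k / 1048576 % 1024 ≤ D ∧ k / 1024 % 1024 ≤ D ∧ k % 1024 ≤ D ∧ k / 1073741824 % 1024 ≤ D ∧
    k / 1099511627776 % 1024 ≤ D

def Sm (D : ℕ) : PL → Prop
  | .nil => True
  | .cons k _ tl => sm D k ∧ Sm D tl

def fr (M : ℕ) : PL → PL
  | .nil => .nil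
  | .cons k c tl => if M ≤ k then .nil else .cons k c (fr M tl)

theorem frc_rw {α : Type} (x : ℕ) (k : ℕ → α) : frc x k = k x := (Fast.frc_eq x k).trans rfl

theorem ble_t {a b : ℕ} (h : a ≤ b) : Nat.ble a b = true := Nat.ble_eq_true_of_le h

theorem ble_f {a b : ℕ} (h : ¬ a ≤ b) : Nat.ble a b = false := by
  rw [← Bool.not_eq_true, Nat.ble_eq]; exact h

theorem eqm_ok (x : Pt) (D k : ℕ) (c : ℤ) (r : PL) :
    evP x (eqm k c r) = c * monK x k + evP x r ∧ (sm D k → Sm D r → Sm D (eqm k c r)) := by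
  unfold eqm
  cases h : Nat.beq (Int.natAbs c) 0
  · exact ⟨rfl, fun a b => ⟨a, b⟩⟩
  · obtain rfl : c = 0 := Int.natAbs_eq_zero.1 (Nat.eq_of_beq_eq_true h)
    exact ⟨by simp, fun _ b => b⟩

theorem mg_ok' (x : Pt) (D : ℕ) (X : PL) : ∀ Y : PL,
    evP x (mgX X Y) = evP x X + evP x Y ∧ (Sm D X → Sm D Y → Sm D (mgX X Y)) := by
  induction X with
  | nil => exact fun Y => ⟨(zero_add _).symm, fun _ h => h⟩
  | cons k c tl ih =>
    intro Y
    induction Y with
    | nil => exact ⟨(add_zero _).symm, fun h _ => h⟩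
    | cons k' c' tl' ih' =>
      have e : mgX (.cons k c tl) (.cons k' c' tl') = @Bool.rec (fun _ => PL)
        (.cons k' c' (mgX (.cons k c tl) tl')) (mg3 k c (mgX tl) k' c' tl') (Nat.ble k k') := rfl
      rw [e]
      by_cases h1 : k ≤ k'
      · rw [ble_t h1]
        show evP x (mg3 _ _ _ _ _ _) = _ ∧ (_ → _ → Sm D (mg3 _ _ _ _ _ _))
        unfold mg3
        by_cases h2 : k' ≤ k
        · obtain rfl : k = k' := le_antisymm h1 h2
          rw [ble_t h2]
          obtain ⟨a, b⟩ := eqm_ok x D k (Int.add c c') (mgX tl tl')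
          refine ⟨a.trans ?_, fun p q => b p.1 ((ih tl').2 p.2 q.2)⟩
          rw [(ih tl').1, Int.add_def, evP, evP]
          push_cast
          ring
        · rw [ble_f h2]
          refine ⟨?_, fun p q => ⟨p.1, (ih _).2 p.2 q⟩⟩
          show c * monK x k + evP x (mgX tl (.cons k' c' tl')) = _
          rw [(ih _).1, evP.eq_2 x k, add_assoc]
      · rw [ble_f h1]
        refine ⟨?_, fun p q => ⟨q.1, ih'.2 p q.2⟩⟩
        show c' * monK x k' + evP x (mgX (.cons k c tl) tl') = _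
        rw [ih'.1, evP.eq_2 x k']
        ring

theorem dig {v i j k l m : ℕ} (hi : i < 1024) (hj : j < 1024) (hk : k < 1024) (hl : l < 1024)
    (hm : m < 1024) : pk v i j k l m / 1048576 % 1024 = i ∧ pk v i j k l m / 1024 % 1024 = j ∧
      pk v i j k l m % 1024 = k ∧ pk v i j k l m / 1073741824 % 1024 = l ∧
      pk v i j k l m / 1099511627776 % 1024 = m := by
  unfold pk
  refine ⟨?_, ?_, ?_, ?_, ?_⟩ <;> omega

theorem pk_self (k : ℕ) : k = pk (k / 1125899906842624) (k / 1048576 % 1024) (k / 1024 % 1024)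
    (k % 1024) (k / 1073741824 % 1024) (k / 1099511627776 % 1024) := by
  unfold pk
  omega

/-- the step `sk` multiplies by `u` -/
def Step (x : Pt) (D sk : ℕ) (u : ℝ) : Prop := ∀ k o : ℕ, sm D k → o ≤ 60 →
  monK x (k + o * sk) = monK x k * u ^ o ∧ sm (D + 120) (k + o * sk)

theorem step_ok (x : Pt) {D : ℕ} (hD : D ≤ 900) (v : ℕ) (s : St) (h1 : s.i ≤ 2) (h2 : s.j ≤ 2)
    (h3 : s.k ≤ 2) (h4 : s.l ≤ 2) :
    Step x D (pk v s.i s.j s.k s.l 1) (mon x s.i s.j s.k s.l 1) := by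
  intro k o ⟨a, b, c, d, e⟩ ho
  have p1 := Nat.mul_le_mul ho h1
  have p2 := Nat.mul_le_mul ho h2
  have p3 := Nat.mul_le_mul ho h3
  have p4 := Nat.mul_le_mul ho h4
  have q : k + o * pk v s.i s.j s.k s.l 1 = pk (k / 1125899906842624 + o * v)
      (k / 1048576 % 1024 + o * s.i) (k / 1024 % 1024 + o * s.j) (k % 1024 + o * s.k)
      (k / 1073741824 % 1024 + o * s.l) (k / 1099511627776 % 1024 + o) := by
    conv_lhs => rw [pk_self k]
    unfold pk
    ring
  obtain ⟨f1, f2, f3, f4, f5⟩ := @dig (k / 1125899906842624 + o * v)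
    (k / 1048576 % 1024 + o * s.i) (k / 1024 % 1024 + o * s.j) (k % 1024 + o * s.k)
    (k / 1073741824 % 1024 + o * s.l) (k / 1099511627776 % 1024 + o)
    (by omega) (by omega) (by omega) (by omega) (by omega)
  unfold monK sm
  rw [q, f1, f2, f3, f4, f5]
  refine ⟨?_, by omega, by omega, by omega, by omega, by omega⟩
  unfold mon
  ring

theorem ngm_eq (Q : ℕ) (c : ℤ) : ngm Q c = -(Q * c) := by
  cases c with
  | ofNat n =>
    show @Nat.rec (fun _ => ℤ) (Int.ofNat 0) (fun p _ => Int.negSucc p) (Q * n) = -(Q * (n : ℤ))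
    rw [← Nat.cast_mul]
    cases Q * n <;> rfl
  | negSucc n =>
    show ((Q * (n + 1) : ℕ) : ℤ) = _
    rw [Int.negSucc_eq]
    push_cast
    ring

theorem abs_co (Q : ℕ) (c : ℤ) :
    ((Int.ofNat (Nat.mul Q (Int.natAbs c)) : ℤ) : ℝ) = Q * |(c : ℝ)| := by
  show (((Q * c.natAbs : ℕ) : ℤ) : ℝ) = _
  rw [Int.cast_natCast, Nat.cast_mul, Nat.cast_natAbs, Int.cast_abs]

section

variable {x : Pt} {D sk : ℕ} {u : ℝ} (S : Step x D sk u) {o : ℕ} (ho : o ≤ 60)
include S ho

theorem lev_ok (M Q : ℕ) (L : PL) (h : Sm D L) :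
    evP x (levX M (o * sk) Q L) = -(Q * u ^ o * evP x (fr M L)) ∧
      Sm (D + 120) (levX M (o * sk) Q L) := by
  induction L with
  | nil => exact ⟨by simp [levX, evP, fr], trivial⟩
  | cons k c tl ih =>
    have e : levX M (o * sk) Q (.cons k c tl) = @Bool.rec (fun _ => PL)
      (.cons (k + o * sk) (ngm Q c) (levX M (o * sk) Q tl)) .nil (Nat.ble M k) := rfl
    rw [e, fr]
    split_ifs with h1
    · rw [ble_t h1]
      exact ⟨by simp [evP], trivial⟩
    · rw [ble_f h1]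
      refine ⟨?_, (S k o h.1 ho).2, (ih h.2).2⟩
      rw [evP, evP, (ih h.2).1, (S k o h.1 ho).1, ngm_eq]
      push_cast
      ring

theorem err_ok (M Q : ℕ) (L : PL) (h : Sm D L) :
    evP x (errX M (o * sk) Q L) = Q * u ^ o * abP x (fr M L) := by
  induction L with
  | nil => simp [errX, evP, fr, abP]
  | cons k c tl ih =>
    have e : errX M (o * sk) Q (.cons k c tl) = @Bool.rec (fun _ => PL)
      (.cons (k + o * sk) (Int.ofNat (Nat.mul Q (Int.natAbs c))) (errX M (o * sk) Q tl)) .nil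
      (Nat.ble M k) := rfl
    rw [e, fr]
    split_ifs with h1
    · rw [ble_t h1]
      simp [evP, abP]
    · rw [ble_f h1]
      rw [evP, abP, ih h.2, (S k o h.1 ho).1, abs_co]
      ring

theorem all_ok (Q : ℕ) (L : PL) (h : Sm D L) :
    evP x (allX (o * sk) Q L) = Q * u ^ o * abP x L := by
  induction L with
  | nil => simp [allX, evP, abP]
  | cons k c tl ih =>
    show evP x (.cons (k + o * sk) (Int.ofNat (Nat.mul Q (Int.natAbs c)))
      (allX (o * sk) Q tl)) = _
    rw [evP, abP, ih h.2, (S k o h.1 ho).1, abs_co]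
    ring

end

theorem drp_cons (M k : ℕ) (c : ℤ) (tl : PL) :
    drpX M (.cons k c tl) = if M ≤ k then .cons k c tl else drpX M tl := by
  show @Bool.rec (fun _ => PL) (drpX M tl) (.cons k c tl) (Nat.ble M k) = _
  split_ifs with h
  · rw [ble_t h]
  · rw [ble_f h]

theorem drp_ok (x : Pt) (D M : ℕ) (L : PL) : evP x L = evP x (fr M L) + evP x (drpX M L) ∧
    (Sm D L → Sm D (drpX M L)) ∧ fr M (drpX M L) = .nil ∧
    ∀ M', M ≤ M' → evP x (fr M' L) = evP x (fr M L) + evP x (fr M' (drpX M L)) := by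
  induction L with
  | nil => exact ⟨(add_zero _).symm, fun h => h, rfl, fun _ _ => (add_zero _).symm⟩
  | cons k c tl ih =>
    rw [drp_cons, fr]
    split_ifs with h
    · exact ⟨(zero_add _).symm, fun h => h, by rw [fr, if_pos h], fun _ _ => (zero_add _).symm⟩
    · refine ⟨by rw [evP, evP, add_assoc, ← ih.1], fun p => ih.2.1 p.2, ih.2.2.1, fun M' h' => ?_⟩
      rw [fr, if_neg (by omega), evP, evP, ih.2.2.2 M' h', add_assoc]

theorem abs_le_ab {x : Pt} (hx : x.Pos) (L : PL) : |evP x L| ≤ abP x L := by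
  induction L with
  | nil => simp [evP, abP]
  | cons k c tl ih =>
    rw [evP, abP]
    refine (abs_add_le _ _).trans (add_le_add ?_ ih)
    rw [abs_mul, abs_of_pos (show 0 < monK x k from MG.mon_pos hx _ _ _ _ _)]

/-- the value of the orders `1, …, n` -/
def sv (x : Pt) (Lim sk : ℕ) (u : ℝ) (n : ℕ) (L : PL) : ℝ :=
  ∑ o ∈ range n, (aa o : ℝ) * u ^ (o + 1) * evP x (fr (Lim - (o + 1) * sk) L)

theorem goP_ok {x : Pt} {D sk : ℕ} {u : ℝ} (S : Step x D sk u) (Lim n : ℕ) (hn : n ≤ 60) (L : PL)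
    (h : Sm D L) (j : ℕ) (hj : j ≤ n) :
    evP x (goP Lim sk n L j) = sv x Lim sk u (n - j) L - sv x Lim sk u n L ∧
      Sm (D + 120) (goP Lim sk n L j) := by
  induction j with
  | zero => exact ⟨(sub_self _).symm, trivial⟩
  | succ j ih =>
    obtain ⟨a, b⟩ := ih (by omega)
    obtain ⟨c, d⟩ := lev_ok S (show n - j ≤ 60 by omega) (Lim - (n - j) * sk) (aa (n - j - 1)) L h
    obtain ⟨e, f⟩ := mg_ok' x (D + 120)
      (levX (Lim - (n - j) * sk) ((n - j) * sk) (aa (n - j - 1)) L) (goP Lim sk n L j)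
    refine ⟨e.trans ?_, f d b⟩
    obtain ⟨i, hi⟩ : ∃ i, n - j = i + 1 := ⟨n - j - 1, by omega⟩
    rw [a, c, show n - (j + 1) = i by omega, hi, sv, sum_range_succ, ← sv, Nat.add_sub_cancel]
    ring

theorem goE_ok {x : Pt} (hx : x.Pos) {D sk : ℕ} {u : ℝ} (S : Step x D sk u) (h0 : 0 ≤ u)
    (hu : 8 * u ≤ 1) (Lim n : ℕ) (hn : n < 60) : ∀ L : PL, Sm D L →
    |√(1 - 4 * u) * evP x L - (evP x L - sv x Lim sk u n L)| ≤ evP x (goE Lim sk n L) := by
  have key : ∀ (n : ℕ) (L : PL), n < 60 → |(√(1 - 4 * u) - tp n u) * evP x L| ≤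
      ((2 * aa n : ℕ) : ℝ) * u ^ (n + 1) * abP x L := fun n L hn => by
    rw [abs_mul]
    push_cast
    exact mul_le_mul (tay n (by omega) h0 hu) (abs_le_ab hx L) (abs_nonneg _) (by positivity)
  induction n with
  | zero =>
    intro L h
    have a := all_ok S (show 1 ≤ 60 by omega) 4 L h
    have b := key 0 L hn
    rw [one_mul] at a
    show _ ≤ evP x (allX sk 4 L)
    rw [a]
    refine le_of_eq_of_le ?_ b
    congr 1
    simp [sv, tp]
    ring
  | succ i ih =>
    intro L h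
    obtain ⟨a, b, c, d⟩ := drp_ok x D (Lim - (i + 1) * sk) L
    have e := err_ok S (show i + 2 ≤ 60 by omega) (Lim - (i + 1) * sk) (2 * aa (i + 1)) L h
    have f := (mg_ok' x 0 (errX (Lim - (i + 1) * sk) ((i + 1) * sk + sk) (2 * aa (i + 1)) L)
      (goE Lim sk i (drpX (Lim - (i + 1) * sk) L))).1
    have g := ih (by omega) _ (b h)
    have k := key (i + 1) (fr (Lim - (i + 1) * sk) L) hn
    have s : sv x Lim sk u (i + 1) L = (1 - tp (i + 1) u) * evP x (fr (Lim - (i + 1) * sk) L) +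
        sv x Lim sk u i (drpX (Lim - (i + 1) * sk) L) := by
      rw [tp, sub_sub_cancel, sum_mul, sv, sv, sum_range_succ, sum_range_succ, add_right_comm,
        ← sum_add_distrib]
      congr 1
      refine sum_congr rfl fun o ho => ?_
      rw [d (Lim - (o + 1) * sk) (Nat.sub_le_sub_left
        (Nat.mul_le_mul_right _ (by have := mem_range.1 ho; omega)) _), mul_add]
    rw [show (i + 1) * sk + sk = (i + 2) * sk by ring, e] at f
    rw [show (i + 2) * sk = (i + 1) * sk + sk by ring] at f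
    refine le_of_le_of_eq (le_trans (le_of_eq ?_) ((abs_add_le _ _).trans (add_le_add k g))) f.symm
    rw [s, a]
    congr 1
    ring

/-- small exponents, and `X.1` approximates `w` with error at most `X.2` -/
def Inv (x : Pt) (D : ℕ) (w : ℝ) (X : PL × PL) : Prop := Sm D X.1 ∧ |w - evP x X.1| ≤ evP x X.2

theorem Sm.mono {D D' : ℕ} (h : D ≤ D') {L : PL} (p : Sm D L) : Sm D' L := by
  induction L with
  | nil => trivial
  | cons k c tl ih =>
    obtain ⟨⟨a, b, c, d, e⟩, f⟩ := p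
    exact ⟨⟨a.trans h, b.trans h, c.trans h, d.trans h, e.trans h⟩, ih f⟩

theorem mul_ok' {x : Pt} (hx : x.Pos) {D sk : ℕ} {u : ℝ} (S : Step x D sk u) (h0 : 0 ≤ u)
    (hu : 8 * u ≤ 1) (g : Bool) (Lim : ℕ) {n : ℕ} (hn : n < 60) {w : ℝ} {X : PL × PL}
    (h : Inv x D w X) :
    Inv x (D + 120) (w * if g then √(1 - 4 * u) else 1) (mulX g Lim sk n X) := by
  cases g
  · rw [if_neg Bool.false_ne_true, mul_one]
    exact ⟨h.1.mono (Nat.le_add_right _ _), h.2⟩
  · obtain ⟨a, b⟩ := goP_ok S Lim n hn.le X.1 h.1 n le_rfl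
    obtain ⟨c, d⟩ := mg_ok' x (D + 120) X.1 (goP Lim sk n X.1 n)
    refine ⟨d (h.1.mono (Nat.le_add_right _ _)) b, ?_⟩
    show |w * √(1 - 4 * u) - evP x (mgX X.1 (goP Lim sk n X.1 n))| ≤
      evP x (mgX (goE Lim sk n X.1) X.2)
    have e := goE_ok hx S h0 hu Lim n hn X.1 h.1
    have r : √(1 - 4 * u) ≤ 1 := Real.sqrt_le_one.2 (by linarith)
    have f : |(w - evP x X.1) * √(1 - 4 * u)| ≤ evP x X.2 := by
      rw [abs_mul, abs_of_nonneg (Real.sqrt_nonneg _)]
      exact (mul_le_of_le_one_right (abs_nonneg _) r).trans h.2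
    rw [c, a, (mg_ok' x 0 _ _).1, Nat.sub_self, sv, sum_range_zero]
    refine le_trans (le_of_eq ?_) ((abs_add_le _ _).trans (add_le_add e f))
    congr 1
    ring

theorem add_ok {x : Pt} {D : ℕ} {w w' : ℝ} {X Y : PL × PL} (hX : Inv x D w X)
    (hY : Inv x D w' Y) : Inv x D (w + w') (addX X Y) := by
  refine ⟨(mg_ok' x D _ _).2 hX.1 hY.1, ?_⟩
  show |w + w' - evP x (mgX X.1 Y.1)| ≤ evP x (mgX X.2 Y.2)
  rw [(mg_ok' x D _ _).1, (mg_ok' x D _ _).1, add_sub_add_comm]
  exact (abs_add_le _ _).trans (add_le_add hX.2 hY.2)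

theorem conv_ok' (x : Pt) {h : ℕ} (hh : h ≤ 500) (w : Wt) (C : Cl) (hC : ∀ u ∈ C.P, u.l ≤ 500) :
    Inv x 500 (evL x (conv h C)) (convX h w C, .nil) := by
  suffices evP x (convX h w C) = evL x (conv h C) ∧ Sm 500 (convX h w C) from
    ⟨this.2, by rw [this.1, sub_self, abs_zero]; exact le_rfl⟩
  simp only [convX, conv, frc_rw, Wt.key]
  generalize C.P = P at hC
  induction P with
  | nil => exact ⟨by simp [evL, evP], trivial⟩
  | cons u P ih =>
    obtain ⟨a, b⟩ := ih fun v hv => hC v (List.mem_cons_of_mem _ hv)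
    have := hC u List.mem_cons_self
    obtain ⟨f1, f2, f3, f4, f5⟩ := @dig (w.pos (h - e0 C u) (h - e1 C u) (h - e2 C u) 0 u.l +
      w.wn * (1000 - u.l)) (h - e0 C u) (h - e1 C u) (h - e2 C u) 0 u.l
      (by omega) (by omega) (by omega) (by omega) (by omega)
    refine ⟨?_, ?_, b⟩
    · rw [List.map_cons, MG.evL_cons, ← a]
      show _ * monK x (pk _ _ _ _ _ _) + _ = _
      rw [monK, f1, f2, f3, f4, f5]
      rfl
    · show sm 500 (pk _ _ _ _ _ _)
      rw [sm, f1, f2, f3, f4, f5]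
      omega

theorem dec_ok (x : Pt) (L : PL) : evL x (dec L) = evP x L := by
  induction L with
  | nil => rfl
  | cons k c tl ih =>
    rw [evP, ← ih]
    exact MG.evL_cons _ _ _

theorem le_evA (x : Pt) (L : List Tm) : evL x L ≤ evA x L := by
  induction L with
  | nil => exact le_rfl
  | cons t L ih => rw [MG.evL_cons, MG.evA_cons]; exact add_le_add (le_abs_self _) ih

/-- the value of a class without the root `r` -/
def vl (x : Pt) (h : ℕ) (C : Cl) : ℝ :=
  evL x (conv h C) * (if C.gs then √(1 - 4 * mon x 2 0 2 0 1) else 1) *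
    (if C.gt then √(1 - 4 * mon x 0 2 2 0 1) else 1) *
    √(1 - 4 * mon x (sV C.v).i (sV C.v).j (sV C.v).k (sV C.v).l 1)

def vs (x : Pt) (h : ℕ) (g : Bool) : List Cl → ℝ
  | [] => 0
  | C :: F => (if C.gr = g then vl x h C else 0) + vs x h g F

theorem split (h : ℕ) (q : Qd) (F : List Cl) (hF : okH h F = true) :
    W q F * mon q.pt h h h 1 0 =
      vs q.pt h false F + vs q.pt h true F * √(1 - 4 * mon q.pt 2 2 0 0 1) := by
  induction F with
  | nil => simp [W, vs]
  | cons C F ih =>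
    have e : okH h (C :: F) = (okH h [C] && okH h F) := by
      simp only [okH, List.all_cons, List.all_nil, Bool.and_true]
    rw [e, Bool.and_eq_true] at hF
    have e2 : W q (C :: F) = C.val q + W q F := by simp [W]
    rw [e2, Int.cast_add, add_mul, ih hF.2, conv_ok h C q hF.1, vs, vs, vl]
    generalize (if C.gs = true then √(1 - 4 * mon q.pt 2 0 2 0 1) else 1) = a
    generalize (if C.gt = true then √(1 - 4 * mon q.pt 0 2 2 0 1) else 1) = b
    cases C.gr <;> simp <;> ring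

end TX

open TX

theorem expandX_good (h : ℕ) (w : Wt) (c cap : ℕ) (F : List Cl) (hF : okX h c cap F = true) :
    Good h F (expandX h w c cap F).1 (expandX h w c cap F).2 := by
  intro q hq
  simp only [okX, Bool.and_eq_true, Nat.ble_eq, List.all_eq_true] at hF
  obtain ⟨⟨⟨⟨k1, k2⟩, k3⟩, k4⟩, k5⟩ := hF
  have hx := Exp.pos q
  have ha := q.ha
  have hb := q.hb
  have hc := q.hc
  have hd := q.hd
  have m : ∀ u v : ℤ, q.a ≤ u → q.b ≤ v →
      8 * ((1 / √(u : ℝ)) ^ 2 * (1 / √(v : ℝ)) ^ 2 * ((q.N : ℝ) / 4)) ≤ 1 := fun u v hu hv =>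
    Exp.small (by omega) (by omega) (hq.trans (mul_le_mul hu hv (by omega) (by omega)))
  have r : 8 * mon q.pt sR.i sR.j sR.k sR.l 1 ≤ 1 := by
    simpa [mon, sR, Qd.pt] using m q.a q.b le_rfl le_rfl
  have s : 8 * mon q.pt sS.i sS.j sS.k sS.l 1 ≤ 1 := by
    simpa [mon, sS, Qd.pt] using m q.a q.c le_rfl hc.le
  have t : 8 * mon q.pt sT.i sT.j sT.k sT.l 1 ≤ 1 := by
    simpa [mon, sT, Qd.pt] using m q.b q.c hb.le hc.le
  have v : ∀ n, 8 * mon q.pt (sV n).i (sV n).j (sV n).k (sV n).l 1 ≤ 1 ∧ (sV n).i ≤ 2 ∧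
      (sV n).j ≤ 2 ∧ (sV n).k ≤ 2 ∧ (sV n).l ≤ 2 := fun n => by
    unfold sV
    split_ifs
    · exact ⟨by simpa [mon, Qd.pt] using m q.a q.d le_rfl (by omega), by simp⟩
    · exact ⟨by simpa [mon, Qd.pt] using m q.b q.d hb.le (by omega), by simp⟩
    · exact ⟨by simpa [mon, Qd.pt] using m q.c q.d (by omega) (by omega), by simp⟩
  have n1 : Nat.pred c < 60 := by rw [Nat.pred_eq_sub_one]; omega
  have n2 : Nat.pred cap < 60 := by rw [Nat.pred_eq_sub_one]; omega
  have p := fun i j k l => (MG.mon_pos hx i j k l 1).le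
  have key : ∀ (g : Bool) (G : List Cl), (∀ C ∈ G, ∀ u ∈ C.P, u.l ≤ 500) →
      Inv q.pt 860 (vs q.pt h g G) (sumS h w w.lim (Nat.pred c) (Nat.pred cap) g G) := by
    intro g G hG
    induction G with
    | nil => exact ⟨trivial, by simp [vs, sumS, evP]⟩
    | cons C G ih =>
      have i1 := ih fun C' h' => hG C' (List.mem_cons_of_mem _ h')
      have i2 : Inv q.pt 860 (vl q.pt h C) (expS h w w.lim (Nat.pred c) (Nat.pred cap) C) :=
        mul_ok' hx (step_ok q.pt (D := 740) (by omega) _ (sV C.v) (v _).2.1 (v _).2.2.1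
          (v _).2.2.2.1 (v _).2.2.2.2 : Step _ _ (w.st (sV C.v)) _) (p _ _ _ _) (v _).1 true _ n2
          (mul_ok' hx (step_ok q.pt (D := 620) (by omega) _ sT (by decide) (by decide) (by decide)
            (by decide) : Step _ _ (w.st sT) _) (p _ _ _ _) t C.gt _ n1
            (mul_ok' hx (step_ok q.pt (D := 500) (by omega) _ sS (by decide) (by decide)
              (by decide) (by decide) : Step _ _ (w.st sS) _) (p _ _ _ _) s C.gs _ n1
              (conv_ok' q.pt k2 w C (hG C List.mem_cons_self))))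
      show Inv _ _ _ (@Bool.rec (fun _ => PL × PL) _ (addX _ _) (C.gr == g))
      rw [vs]
      split_ifs with h1
      · rw [beq_iff_eq.2 h1]
        exact add_ok i2 i1
      · rw [beq_eq_false_iff_ne.2 h1, zero_add]
        exact i1
  have i0 := key false F k5
  have i3 := add_ok (⟨i0.1.mono (by omega), i0.2⟩ : Inv q.pt 980 _ _)
    (mul_ok' hx (step_ok q.pt (D := 860) (by omega) (w.pos sR.i sR.j sR.k sR.l 1 - w.wn) sR
      (by decide) (by decide) (by decide) (by decide) : Step _ _ (w.st sR) _) (p _ _ _ _) r true w.lim n1 (key true F k5))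
  rw [expandX, expX, frc_rw, frc_rw, frc_rw]
  refine le_trans ?_ (le_evA _ _)
  dsimp only
  rw [dec_ok, dec_ok, split h q F k1]
  exact i3.2

theorem expx_ok (h : ℕ) (w : Wt) (c cap : ℕ) (F : List Cl) (P E : List Tm)
    (hF : expOKX h w c cap F P E = true) : Good h F P E := by
  simp only [expOKX, Bool.and_eq_true] at hF
  intro q hq
  have := expandX_good h w c cap F hF.1.1 q hq
  rw [Ap, (eq_ok q.pt _ _ hF.1.2).1, (eq_ok q.pt _ _ hF.2).2] at this
  exact this

end Pool.Agent.MP_2339ce_nt.Q2.TB
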