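import Pool.Agent.MP_2339ce_nt.Q2.TKDef
import Pool.Agent.MP_2339ce_nt.Q2.TGOk
import Pool.Agent.MP_2339ce_nt.Q2.THOk
import Pool.Agent.MP_2339ce_nt.Q2.TIOk
import Pool.Agent.MP_2339ce_nt.Q2.TXExp

/-! Project Q2, block TK: soundness. -/

set_option autoImplicit false

namespace Pool.Agent.MP_2339ce_nt.Q2.TB

open Fast

theorem cmX_ok {h c cap : ℕ} {w : Wt} {F : List Cl} {L : List Cm2}
    (k : (okX h c cap F && cmTop h (expandX h w c cap F).1 (expandX h w c cap F).2 L) = true) :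
    AO (fun x : Cm2 => x.C.Ok) L := by
  rw [Bool.and_eq_true] at k
  exact cmTop_ok (expandX_good h w c cap F k.1) k.2

theorem nthA_ok {α : Type} {p : α → Prop} {d : α} (hd : p d) {L : List α} (h : AO p L) (n : ℕ) :
    p (nthA d L n) := by
  induction L generalizing n with
  | nil => exact hd
  | cons x L ih =>
    cases n with
    | zero => exact h.1
    | succ n => exact ih h.2 n

theorem lk3_ok {α : Type} {p : α → Prop} {d : α} (hd : p d) {T : List (List (List α))}
    (h : AO (AO (AO p)) T) (n : ℕ) : p (lk3 d T n) := by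
  simp only [lk3, frc_eq]
  exact nthA_ok hd (nthA_ok (p := AO p) (d := []) trivial
    (nthA_ok (p := AO (AO p)) (d := []) trivial h _) _) _

theorem selA_ok {α : Type} {p : α → Prop} {f : ℕ → α} (h : ∀ n, p (f n)) (L : List ℕ) :
    ∀ x ∈ selA f L, p x := by
  induction L with
  | nil => exact nofun
  | cons n L ih => exact List.forall_mem_cons.2 ⟨h n, ih⟩

theorem an_ok {a b : Bool} (h : an a b = true) : a = true ∧ b = true := by
  cases a
  exacts [absurd h Bool.false_ne_true, ⟨rfl, h⟩]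

structure Pl.Ok (P : Pl) : Prop where
  win : ∀ C X lo hi s g, P.win C X lo hi s g = true → winOK C X lo hi s g = true
  hw : ∀ i B U lo hi, P.hw i B U lo hi = true → hwOK false i B U lo hi = true
  hp : ∀ ws pr i B U D, P.hp ws pr i B U D = true → hpOK2 ws pr i B U D = true

theorem pl0_ok : pl0.Ok :=
  ⟨fun _ _ _ _ _ _ h => winOK2_eq ▸ h, fun _ _ _ _ _ h => hwOK2_eq ▸ h,
    fun _ _ _ _ _ _ h => hpF_eq ▸ h⟩

theorem bxE_no {N a b c : ℤ} (h : bxE.Mem N a b c) : False := by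
  have h1 := h.L1.trans h.L2
  simp only [bxE] at h1
  norm_num at h1

theorem cf0_ok : cf0.Ok := fun _ h => (bxE_no h).elim

theorem wnE_ok : wnE.Ok := by
  intro N a b c d e _ _ _ _ _ h
  have h1 := h _ List.mem_cons_self
  simp only [Af.v] at h1
  norm_num at h1

/-- the data of a quintuple in a box -/
structure Cx (B : Bx) (q : Qd) (e : ℤ) : Prop where
  hN : q.N ≤ 256
  qt : DQ.Qt (-q.N) q.a q.b q.c q.d e
  mem : B.Mem q.N q.a q.b q.c

def Sw.No (x : Sw) : Prop :=
  ∀ q e, Cx x.B q e → x.D0.val q.N q.a q.b q.c ≤ 600 * lg q.d → False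

section
variable {P : Pl} (hP : P.Ok) {cf : ℕ → CF} (hc : ∀ n, (cf n).Ok) {wf : ℕ → Wn}
  (hw : ∀ n, (wf n).Ok) {sf : ℕ → Sw} (hs : ∀ n, (sf n).No) {B : Bx} {q : Qd} {e : ℤ}

include hP hw in
theorem hpK_ok (j : Cx B q e) {U : Us} (hU : U.Ok q) {D : Lf} {ix : List ℕ} {pr i : ℕ}
    (hD : D.val q.N q.a q.b q.c ≤ 600 * lg q.d) (h : P.hp (selA wf ix) pr i B U D = true) :
    False := by
  have hv := selA_ok hw ix
  generalize selA wf ix = ws at h hv
  have k : ((List.range ws.length).map fun j => ws.getD j wn0) = ws := by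
    apply List.ext_getElem
    · simp
    · intro n h1 h2
      simp [h2]
  refine hpc_all ws (List.range ws.length) pr i B U D q e hv j.hN j.qt j.mem hU hD ?_
  rw [hpOK, k, hP.hp _ _ _ _ _ _ h]
  simp

include hP hw in
theorem swK_ok {x : Sw} (h : swK P wf x = true) : x.No := fun q _ j k =>
  hpK_ok hP hw j (df_ok false x.B x.D q nofun j.mem (an_ok h).1).2 k (an_ok h).2

include hP hc in
theorem chainK_ok (j : B.Mem q.N q.a q.b q.c) {U : Us} (hU : U.Ok q) (ws : List Wd) :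
    ∀ lo, chainK P cf B U ws lo = true → lo.val q.N q.a q.b q.c ≤ 600 * lg q.d →
      (lastHi ws lo).val q.N q.a q.b q.c ≤ 600 * lg q.d := by
  induction ws with
  | nil => exact fun _ _ h => h
  | cons w ws ih =>
    intro lo h k
    obtain ⟨h1, h2⟩ := an_ok (a := wdK P cf B U lo w) h
    refine ih w.hi h2 ?_
    rw [wdK, frc_eq, frc_eq] at h1
    cases t : Nat.beq w.ty 0 <;> rw [t] at h1
    · refine chain_all false [] B U [⟨1, w.id, w.hi, w.s, w.g⟩] lo q nofun nofun j hU ?_ k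
      change an (hwOK false w.id B U lo w.hi) true = true
      rw [hP.hw _ _ _ _ _ h1]
      rfl
    · refine chain_all false [cf w.id] B U [⟨0, 0, w.hi, w.s, w.g⟩] lo q
        (List.forall_mem_singleton.2 (hc _)) nofun j hU ?_ k
      change an (true && winOK (cf w.id) B lo w.hi w.s w.g) true = true
      rw [hP.win _ _ _ _ _ _ h1]
      rfl

include hP hw hs in
theorem finK_ok (j : Cx B q e) {U : Us} (hU : U.Ok q) {D : Lf} {n s : ℕ}
    (hD : D.val q.N q.a q.b q.c ≤ 600 * lg q.d) (h : finK P wf sf n s B U D = true) : False := by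
  rw [finK] at h
  cases t : bt n 3 <;> rw [t] at h
  · exact hpK_ok hP hw j hU hD h
  · simp only [frc_eq] at h
    obtain ⟨h1, h2⟩ := an_ok h
    have h3 := Ew.le0_ok j.mem h2
    rw [Ew.add_val, Ew.neg_val] at h3
    exact hs _ q e ⟨j.hN, j.qt, Win.sub_mem h1 j.mem⟩ (by linarith)

theorem lfc_ok (j : Cx B q e) : lfc.val q.N q.a q.b q.c ≤ 600 * lg q.d := by
  have k3 : lg q.c ≤ lg q.d := Tree.lgm
    (by exact_mod_cast j.qt.a0.trans (j.qt.ab.trans j.qt.bc)) (by exact_mod_cast j.qt.cd.le)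
  simp only [lfc, Lf.val]
  push_cast
  linarith

include hP hc in
theorem clK_ok (j : Cx B q e) {D : Df} {ws : List Wd} {k : Us → Lf → Bool}
    (hk : ∀ U V, U.Ok q → V.val q.N q.a q.b q.c ≤ 600 * lg q.d → k U V = true → False)
    (h : clK P cf B D ws k = true) : False :=
  have hU := (df_ok false B D q nofun j.mem (an_ok h).1).2
  hk _ _ hU (chainK_ok hP hc j.mem hU ws lfc (an_ok (an_ok h).2).1 (lfc_ok j)) (an_ok (an_ok h).2).2

include hP hc in
theorem lvK_ok (j : Cx B q e) {D : Df} {sm : Bool} {h0 Dv : Lf} {w1 w2 : List Wd} {al be : ℕ}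
    {k : Us → Lf → Bool}
    (hk : ∀ U V, U.Ok q → V.val q.N q.a q.b q.c ≤ 600 * lg q.d → k U V = true → False)
    (h : lvK P cf B D sm h0 w1 w2 al be Dv k = true) : False := by
  simp only [lvK, avOK, tstA_eq, allA_eq, tst0, same_rec, Bool.true_or, Bool.true_and,
    Bool.and_eq_true, Bool.or_eq_true, Bool.not_eq_true', List.all_eq_true, Nat.ble_eq] at h
  obtain ⟨⟨⟨⟨⟨i1, i2⟩, i3⟩, i4⟩, i5, i6⟩, i7⟩ := h
  have k2 := (df_ok false B D q nofun j.mem i1).2
  have k4 : (st0 sm h0).val q.N q.a q.b q.c ≤ 600 * lg q.d := by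
    cases e' : sm with
    | false => exact lfc_ok j
    | true =>
      refine le_of_not_ge fun k => hw2_ok wc2_ok q fun y hy => (afl_ok B _ y h0 q j.mem k2
        (mul_le_mul_of_nonneg_left k (Int.cast_nonneg ?_))).1
        (i2.resolve_left (e' ▸ nofun) y hy)
      exact (by decide : ∀ y ∈ hw2, 0 ≤ y.k) y hy
  have k5 := chainK_ok hP hc j.mem k2 w1 _ i3 k4
  have k6 := chainK_ok hP hc j.mem k2 w2 _ i4 k5
  have k7 := Ew.le0_ok j.mem i6
  simp only [Ew.add_val, Ew.neg_val, Ew.smul_val, Int.ofNat_eq_natCast, Int.cast_natCast,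
    Nat.cast_add, Int.cast_add] at k7
  have k8 : (0 : ℝ) < al + be := by exact_mod_cast i5
  refine hk _ _ k2 (le_of_mul_le_mul_left ?_ k8) i7
  have := mul_le_mul_of_nonneg_left k5 (Nat.cast_nonneg al)
  have := mul_le_mul_of_nonneg_left k6 (Nat.cast_nonneg be)
  linarith

theorem rcK_ok {rs : List Rc} {i n1 n2 : ℕ} {k : Rc → Bool}
    (hk : ∀ ρ, k ρ = true → ρ.Mem false q) (h : rcK (frc i (nthA rcE rs)) n1 n2 k = true) :
    ∃ ρ ∈ rs, ρ.Mem false q := by
  have h0 : nthA rcE rs i = rcE ∨ nthA rcE rs i ∈ rs :=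
    nthA_ok (p := fun y => y = rcE ∨ y ∈ rs) (Or.inl rfl)
      ((AO_iff _ _).2 fun _ h => Or.inr h) i
  rw [frc_eq] at h
  generalize nthA rcE rs i = y at h h0
  obtain ⟨N1, N2, a1, a2, R, x0, x1⟩ := y
  obtain ⟨h1, h2⟩ := an_ok h
  obtain ⟨h2, h3⟩ := an_ok h2
  obtain ⟨m1, m2, m⟩ := hk _ h3
  have h1 := Nat.le_of_ble_eq_true h1
  have h2 := Nat.le_of_ble_eq_true h2
  simp only at m1 m2
  rcases h0 with h0 | h0
  · injection h0
    omega
  · exact ⟨_, h0, by show (N1 : ℤ) ≤ _; omega, by show _ ≤ (N2 : ℤ); omega, m⟩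

include hP hc hw hs in
theorem lfK_ok {rs : List Rc} {n g : ℕ} (h : lfK P cf wf sf rs n g B = true) :
    Sem false B rs := by
  intro q e j1 j2 j3 j4
  have j : Cx B q e := ⟨j1, j2, j4⟩
  rw [lfK] at h
  cases t1 : Nat.beq g 1 <;> rw [t1] at h
  swap
  · exact (clK_ok hP hc j (fun _ _ hU hD => finK_ok hP hw hs j hU hD) h).elim
  cases t3 : Nat.beq g 3 <;> rw [t3] at h
  swap
  · exact rcK_ok (fun ρ k => rc_ok xw_ok false B ρ _ _ _ _ q j4 k) h
  cases t2 : Nat.beq g 2 <;> rw [t2] at h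
  swap
  · exact (lvK_ok hP hc j (fun _ _ hU hD => finK_ok hP hw hs j hU hD) (frc_eq _ _ ▸ h)).elim
  cases t4 : Nat.beq g 4 <;> rw [t4] at h
  swap
  · exact rcK_ok (fun ρ k => rc2_ok B ρ _ _ q j4 k) h
  cases t5 : Nat.beq g 5 <;> rw [t5] at h
  exacts [((gp_ok gap_ok false B q j1 j3 j4).2 _ _ h).elim,
    ((gp_ok gap_ok false B q j1 j3 j4).1 h).elim]

end

theorem subs_ok {rs : List Rc} (st : List Bx) : ∀ fin, subs st fin = true →
    (∀ B ∈ fin, Sem false B rs) → ∀ B ∈ st, Sem false B rs := by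
  induction st with
  | nil => exact fun _ _ _ => nofun
  | cons B s ih =>
    intro fin h k
    cases fin with
    | nil => exact absurd h Bool.false_ne_true
    | cons Y r =>
      rw [List.forall_mem_cons] at k ⊢
      exact ⟨fun q e j1 j2 j3 j4 => k.1 q e j1 j2 j3 (Win.sub_mem (an_ok h).1 j4),
        ih r (an_ok h).2 k.2⟩

theorem runK_ok {f : ℕ → ℕ → Bx → Bool} {rs : List Rc} {fin : List Bx}
    (hf : ∀ n g B, f n g B = true → Sem false B rs) (hn : ∀ B ∈ fin, Sem false B rs)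
    (L : List ℕ) : ∀ st, runK f fin L st = true → ∀ B ∈ st, Sem false B rs := by
  induction L with
  | nil => exact fun st h => subs_ok st fin h hn
  | cons n L ih =>
    intro st h
    cases st with
    | nil => exact nofun
    | cons B s =>
      change @Bool.rec (fun _ => Bool) (an (f n (Nat.mod n 8) B) (runK f fin L s))
        (frc (fx n 3 4) fun ax => frc (Nat.shiftRight n 5) fun t =>
          runK f fin L (B.lft ax t :: B.rgt ax t :: s)) (Nat.beq (Nat.mod n 8) 0) = true at h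
      cases t : Nat.beq (Nat.mod n 8) 0 <;> rw [t] at h
      · exact List.forall_mem_cons.2 ⟨hf _ _ _ (an_ok h).1, ih s (an_ok h).2⟩
      · rw [frc_eq, frc_eq] at h
        have k := ih _ h
        rw [List.forall_mem_cons, List.forall_mem_cons] at k
        exact List.forall_mem_cons.2 ⟨sem_nd _ _ k.1 k.2.1, k.2.2⟩

theorem swT_ok {P : Pl} (hP : P.Ok) {WT : List (List (List Wn))} (hw : AO (AO (AO Wn.Ok)) WT)
    {L : List Sw} (h : swT P WT L = true) : AO Sw.No L := by
  rw [swT, allA_eq, List.all_eq_true] at h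
  exact (AO_iff _ _).2 fun x hx => swK_ok hP (lk3_ok wnE_ok hw) (h x hx)

theorem topK_ok {P : Pl} (hP : P.Ok) {CT : List (List (List CF))} {WT : List (List (List Wn))}
    {ST : List (List (List Sw))} (hc : AO (AO (AO CF.Ok)) CT) (hw : AO (AO (AO Wn.Ok)) WT)
    (hs : AO (AO (AO Sw.No)) ST) {rs : List Rc} {L : List ℕ} {st fin : List Bx}
    (h : topK P CT WT ST rs L st fin = true) (k : AO (fun B => Sem false B rs) fin) :
    AO (fun B => Sem false B rs) st :=
  (AO_iff _ _).2 (runK_ok (fun _ _ _ => lfK_ok hP (lk3_ok cf0_ok hc) (lk3_ok wnE_ok hw)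
    (lk3_ok (fun _ _ j _ => bxE_no j.mem) hs)) ((AO_iff _ _).1 k) L _ h)

end Pool.Agent.MP_2339ce_nt.Q2.TB
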