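import Pool.Agent.MP_2339ce_nt.Q2.TCFast

/-! Project Q2: the test `winOK` for all the terms at once; every term has a lane of 512 bits. -/

set_option autoImplicit false

noncomputable section

namespace Pool.Agent.MP_2339ce_nt.Q2.TB

namespace KW

def pkA (f : Tm → ℕ) (L : List Tm) (z : ℕ) : ℕ :=
  @List.rec Tm (fun _ => ℕ) z (fun a _ r => Nat.add (f a) (Nat.shiftLeft r (nat_lit 512))) L

def cnA (L : List Tm) (z : ℕ) : ℕ := @List.rec Tm (fun _ => ℕ) z (fun _ _ r => Nat.succ r) L

def nab (c : ℤ) : ℕ := @Int.rec (fun _ => ℕ) (fun n => n) Nat.succ c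

def aN (i j k l m : ℕ) : ℕ :=
  Nat.sub (Nat.add (Nat.add (Nat.add (nat_lit 295147905179352825856)
    (Nat.mul i (nat_lit 475368975085586025561263702016)))
    (Nat.mul j (nat_lit 133804471191184214218189395221915730299584512)))
    (Nat.add (Nat.mul k (nat_lit 37662610412320218387485927723460216686009354582514506661888))
    (Nat.shiftLeft l (nat_lit 240)))) (Nat.mul m (nat_lit 3377699720525472))

def aT (t : Tm) : ℕ := @Tm.rec (fun _ => ℕ) (fun _ _ i j k l m => aN i j k l m) t

def rT (t : Tm) : ℕ :=
  @Tm.rec (fun _ => ℕ) (fun c _ i j k l m => Nat.add (aN i j k l m) (Nat.shiftLeft (nab c)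
    (nat_lit 288))) t

def okS (t : Tm) : Bool := @Tm.rec (fun _ => Bool) (fun _ _ i j k l m =>
  Nat.ble (Nat.add (Nat.add (Nat.add i j) (Nat.add k l)) m) (nat_lit 255)) t

def okT (t : Tm) : Bool := @Tm.rec (fun _ => Bool) (fun c _ i j k l m =>
  Nat.ble (Nat.add (Nat.shiftLeft (Nat.add (Nat.add (Nat.add i j) (Nat.add k l)) m)
    (nat_lit 24)) (nab c))
    (nat_lit 4294967295)) t

def okA (L : List Tm) : Bool :=
  @List.rec Tm (fun _ => Bool) true (fun a _ r => @Bool.rec (fun _ => Bool) false r (okT a)) L

def sgm (e : ℤ) (a b : ℕ) : ℕ :=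
  @Int.rec (fun _ => ℕ) (fun n => Nat.mul n a) (fun n => Nat.mul (Nat.succ n) b) e

def hV (f : Lf) : ℕ := @Lf.rec (fun _ => ℕ) (fun m eN ea eb ec =>
  Nat.add (Nat.add (Nat.add (nat_lit 25711008708143935752523726659215507924315720547918074489077760)
    (sgm m (nat_lit 1766847064778384329583297500742918515827483896875618958121606201292619777)
      (nat_lit 1766847064778384329583297500742918515827483896875618958121606201292619775)))
    (sgm eN (nat_lit 1809251394333065553493296640760748560207343510400633813116525031598619361280)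
      (nat_lit 1809251394333065553493296640760748560207343510400633813116524468648665939968)))
    (Nat.add (Nat.add
    (sgm ea (nat_lit 1809251394333065553493296640760748560207343510479861975630789087717186600960)
      (nat_lit 1809251394333065553493296640760748560207343510321405650602260412530098700288))
    (sgm eb (nat_lit 1809251394333065553493296640760770860952542041103003511349061736078692581376)
      (nat_lit 1809251394333065553493296640760726259462144979698264114883987764168592719872)))
    (sgm ec (nat_lit 1809251394333065559770398376147451624788331464310669927451417180542727094272)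
      (nat_lit 1809251394333065547216194905374045495626355556490597698781632319704558206976)))) f

def hI (f : Lf) : ℕ :=
  Nat.mod (hV f) (nat_lit 1766847064778384329583297500742918515827483896875618958121606201292619776)

def okL (f : Lf) : Bool :=
  Nat.ble (hV f)
    (nat_lit 1852673427797059126777135760139006525652319754650249024631321344126610074238976)

def r4 (L p q w : ℕ) : ℕ :=
  Nat.add (Nat.add (Nat.add w (Nat.shiftLeft q (nat_lit 48))) (Nat.shiftLeft p (nat_lit 96)))
    (Nat.add (Nat.shiftLeft L (nat_lit 144))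
      (nat_lit 6277101735386680763835789423207666416102355444464034512896))

def rH (X : Bx) : ℕ := @Bx.rec (fun _ => ℕ) (fun _ L _ p _ q _ w _ _ _ => r4 L p q w) X

def rL (X : Bx) : ℕ := @Bx.rec (fun _ => ℕ) (fun L _ p _ q _ w _ _ _ _ => r4 L p q w) X

def okB (X : Bx) : Bool := @Bx.rec (fun _ => Bool) (fun L1 L2 p1 p2 q1 q2 w1 w2 fp fq fw =>
  @Bool.rec (fun _ => Bool) (@Bool.rec (fun _ => Bool) (@Bool.rec (fun _ => Bool)
    (@Bool.rec (fun _ => Bool) false
      (Nat.ble (Nat.add L2 (nat_lit 100)) (Nat.add (Nat.mul (nat_lit 2) p1) q1))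
      (Nat.ble (Nat.add (Nat.add (Nat.add L1 L2) (Nat.add p1 p2))
        (Nat.add (Nat.add q1 q2) (Nat.add w1 w2))) (nat_lit 65535))) false fw) false fq) false fp) X

def cn (C : CF) : ℕ := cnA C.P (cnA C.E (nat_lit 0))

def shf (C : CF) : ℕ := Nat.mul (cn C) (nat_lit 512)

def o1 (C : CF) : ℕ :=
  Nat.div (Nat.sub (Nat.shiftLeft (nat_lit 1) (shf C)) (nat_lit 1))
    (nat_lit 13407807929942597099574024998205846127479365820592393377723561443721764030073546976801874298166903427690031858186486050853753882811946569946433649006084095)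

def dbl (C : CF) (a b : ℕ) : ℕ := Nat.add a (Nat.shiftLeft b (shf C))

def o2 (C : CF) : ℕ := dbl C (o1 C) (o1 C)

def r1 (C : CF) : ℕ := pkA rT C.P (pkA rT C.E (nat_lit 0))

def av (C : CF) : ℕ :=
  Nat.land (dbl C (r1 C) (r1 C)) (Nat.mul (o2 C)
    (nat_lit 497323236409786642155382248146820840100456150797347717440463976893159497012533375533055))

def cv (C : CF) : ℕ := Nat.sub (dbl C (r1 C) (r1 C)) (av C)

def oo (C : CF) : Tm := mk 1 C.h C.h C.h 1 0

def okC (C : CF) : Bool :=
  @Bool.rec (fun _ => Bool) false (@Bool.rec (fun _ => Bool) false (@Bool.rec (fun _ => Bool) false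
    (okS (oo C)) (Nat.ble (cn C) (nat_lit 64))) (okA C.E)) (okA C.P)

def xg (g : Bool) (t : Tm) : Bool := @Bool.rec (fun _ => Bool) (!isP t.c) (isP t.c) g

def fl (C : CF) (g : Bool) : ℕ := Nat.shiftLeft (pkA (fun t => bn (xg g t)) C.P (nat_lit 0)) (shf C)

def bz2 (o a sa mL : ℕ) : ℕ :=
  Nat.sub (Nat.add (Nat.add (Nat.mul o
    (nat_lit 452319750329613178961631523599903725923307812904091702237307024710970638336)) sa)
    (Nat.mul (Nat.land a mL) (nat_lit 2))) (Nat.add a (Nat.mul (Nat.land sa mL) (nat_lit 2)))

def bz (C : CF) (s : Tm) (g : Bool) : ℕ :=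
  bz2 (o2 C) (av C) (dbl C (Nat.mul (o1 C) (aT (oo C))) (Nat.mul (o1 C) (aT s))) (Nat.mul (fl C g)
    (nat_lit 497323236409786642155382248146820840100456150797347717440463976893159497012533375533055))

def dz1 (C : CF) (s : Tm) (g : Bool) : ℕ :=
  Nat.land (bz C s g) (Nat.mul (o2 C)
    (nat_lit 497323236409784875308317469762491256802955407878831889956567101274201375406332082913280))

def dz (C : CF) (s : Tm) (g : Bool) : ℕ := Nat.shiftRight (dz1 C s g) (nat_lit 240)

def relu2 (z y b : ℕ) : ℕ := Nat.land z (Nat.sub y (Nat.shiftRight y b))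

def relu (z G b : ℕ) : ℕ := relu2 z (Nat.land z G) b

def dp (C : CF) (s : Tm) (g : Bool) : ℕ := relu (dz C s g) (Nat.shiftLeft (o2 C)
  (nat_lit 8)) (nat_lit 8)

def dm (C : CF) (s : Tm) (g : Bool) : ℕ :=
  Nat.sub (Nat.add (dp C s g) (Nat.shiftLeft (o2 C) (nat_lit 8))) (dz C s g)

def base (C : CF) (s : Tm) (g : Bool) : ℕ :=
  Nat.sub (Nat.add (Nat.sub (bz C s g) (dz1 C s g)) (Nat.mul (dm C s g)
    (nat_lit 25711008708143935752523726659215507924315720547918074489077760)))
    (Nat.mul (dp C s g) (nat_lit 25711008708143935752523726659215507924315720547918074489077760))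

def pr2 (o G e ep RH RL : ℕ) : ℕ :=
  Nat.sub (Nat.add (Nat.mul ep RH) (Nat.mul o
    (nat_lit 5545339388241649420159926565595765569585980852800073966372562778867391280260298733578257610440969798437734207150035633951045844992)))
    (Nat.mul (Nat.sub (Nat.add ep G) e) RL)

def pr1 (o G e RH RL : ℕ) : ℕ := pr2 o G e (relu e G (nat_lit 40)) RH RL

def nz (fu f p : ℕ) : ℕ :=
  Nat.sub (Nat.add (Nat.add
    (Nat.mul fu (nat_lit 883423532751688512908494177802212261314561476301304403623156629731540992))
    (Nat.mul f (nat_lit 2650270597529137554333219063111319244517987430880924110783537689881739264)))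
    (Nat.land p (Nat.mul fu
      (nat_lit 1766847064778378052481562114062154680038060689209202855766161737258106880))))
    (Nat.land p (Nat.mul f
      (nat_lit 1766847064778378052481562114062154680038060689209202855766161737258106880)))

def msk (F o b V : ℕ) : ℕ :=
  Nat.land V (Nat.mul (Nat.land F (Nat.shiftLeft o b))
    (nat_lit 115792089237316195423570985008687907853269984665640564039457584007913129639935))

def stm (F o b a V : ℕ) : ℕ := Nat.add (Nat.shiftLeft V (nat_lit 16)) (Nat.mul (msk F o b V) a)

def stg (F o b a V : ℕ) : ℕ := Nat.add V (Nat.mul (msk F o b V) a)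

def ex (F o V : ℕ) : ℕ :=
  stg F o (nat_lit 225) (nat_lit 4294967295) (stg F o (nat_lit 224) (nat_lit 65535)
    (stg F o (nat_lit 223) (nat_lit 255) (stg F o (nat_lit 222) (nat_lit 15)
    (stg F o (nat_lit 221) (nat_lit 3) (stg F o (nat_lit 220) (nat_lit 1)
    (stm F o (nat_lit 219) (nat_lit 27146) (stm F o (nat_lit 218) (nat_lit 12400)
    (stm F o (nat_lit 217) (nat_lit 5932) V))))))))

def sm (V y : ℕ) : ℕ :=
  Nat.mod (Nat.land V (Nat.mul y
    (nat_lit 726838724295606890549323807888004534353641360687318060281490199180639288113397923326191050713763565560762521606266177933534601628614655)))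
    (nat_lit 13407807929942597099574024998205846127479365820592393377723561443721764030073546976801874298166903427690031858186486050853753882811946569946433649006084095)

def fin2 (u v : ℕ) : Bool :=
  @Bool.rec (fun _ => Bool) false
    (Nat.ble (Nat.succ (Nat.mul u (nat_lit 32769))) (Nat.shiftLeft v (nat_lit 15)))
    (Nat.ble u
      (nat_lit 2582249878086908589655919172003011874329705792829223512830659356540647622016841194629645353280137831435903171972747493376))

def fin (V a b c K : ℕ) : Bool :=
  @Bool.rec (fun _ => Bool) false (fin2 (Nat.add (sm V b) K) (sm V c)) (Nat.ble (Nat.add (sm V a) K)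
    (nat_lit 161390617380431786853494948250188242145606612051826469551916209783790476376052574664352834580008614464743948248296718336))

def kk (C : CF) : ℕ :=
  Nat.add (Nat.shiftLeft (Nat.mod (cv C)
    (nat_lit 13407807929942597099574024998205846127479365820592393377723561443721764030073546976801874298166903427690031858186486050853753882811946569946433649006084095))
    (nat_lit 48))
      (nat_lit 69992023193056381579920071267763883691301421788582797965624659405118495974380029543152421664737722368)

def co2 (o F V a b c K : ℕ) : Bool :=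
  @Bool.rec (fun _ => Bool) false (fin (ex F o V) a b c K) (Nat.beq (Nat.land F (Nat.mul o
    (nat_lit 463168356841424995025681380856083571065001415968013678467668046107238077562880))) (nat_lit 0))

def co1 (o f e RH RL V a b K : ℕ) : Bool :=
  co2 o (Nat.mul (relu (nz (Nat.sub o f) f (pr1 o (Nat.mul o
    (nat_lit 6901746346790588307363409716585871471935303933248958175837180059975680))
    e RH RL)) (Nat.shiftLeft o (nat_lit 240)) (nat_lit 48)) (nat_lit 223697)) V a b f K

def core (C : CF) (X : Bx) (lo hi : Lf) (s : Tm) (g : Bool) : Bool :=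
  co1 (o2 C) (fl C g) (Nat.sub (Nat.add (base C s g) (Nat.mul (dp C s g) (hI hi)))
    (Nat.mul (dm C s g) (hI lo))) (rH X) (rL X) (cv C) (o1 C)
    (Nat.sub (Nat.shiftLeft (o1 C) (shf C)) (fl C g)) (kk C)

def winF (C : CF) (X : Bx) (lo hi : Lf) (s : Tm) (g : Bool) : Bool :=
  @Bool.rec (fun _ => Bool) false (@Bool.rec (fun _ => Bool) false (@Bool.rec (fun _ => Bool) false
    (@Bool.rec (fun _ => Bool) false (@Bool.rec (fun _ => Bool) false
      (@Bool.rec (fun _ => Bool) false (core C X lo hi s g) (subB X C.B)) (okL hi)) (okL lo))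
      (okS s)) (okC C)) (okB X)

end KW

def winOK3 (C : CF) (X : Bx) (lo hi : Lf) (s : Tm) (g : Bool) : Bool :=
  @Bool.rec (fun _ => Bool) (winOK2 C X lo hi s g) true (KW.winF C X lo hi s g)

end Pool.Agent.MP_2339ce_nt.Q2.TB
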