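import Pool.Agent.MP_2339ce_nt.Q2.TKWL

/-! Project Q2: the part of `winOK3` that is run for every window. -/

set_option autoImplicit false
set_option exponentiation.threshold 600

namespace Pool.Agent.MP_2339ce_nt.Q2.TB.KW

variable {α : Type}

def mB (F : ℕ) : ℕ :=
  (65536 + 5932 * (F % 2)) * (65536 + 12400 * (F / 2 % 2)) * (65536 + 27146 * (F / 4 % 2)) *
    (1 + 1 * (F / 8 % 2)) * (1 + 3 * (F / 16 % 2)) * (1 + 15 * (F / 32 % 2)) *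
    (1 + 255 * (F / 64 % 2)) * (1 + 65535 * (F / 128 % 2)) * (1 + 4294967295 * (F / 256 % 2))

theorem mA_eq (y v : ℕ) : mA y v = v * mB (y / 2 ^ 217) := by
  have h1 : y / 2 ^ 218 = y / 2 ^ 217 / 2 := by omega
  have h2 : y / 2 ^ 219 = y / 2 ^ 217 / 4 := by omega
  have h3 : y / 2 ^ 220 = y / 2 ^ 217 / 8 := by omega
  have h4 : y / 2 ^ 221 = y / 2 ^ 217 / 16 := by omega
  have h5 : y / 2 ^ 222 = y / 2 ^ 217 / 32 := by omega
  have h6 : y / 2 ^ 223 = y / 2 ^ 217 / 64 := by omega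
  have h7 : y / 2 ^ 224 = y / 2 ^ 217 / 128 := by omega
  have h8 : y / 2 ^ 225 = y / 2 ^ 217 / 256 := by omega
  unfold mA mS mB
  rw [h1, h2, h3, h4, h5, h6, h7, h8]
  simp only [Nat.mul_assoc]

theorem mB_tab : ∀ F < 512, tU (F % 8) * 2 ^ 32 * 2 ^ (F / 8) ≤ mB F ∧
    mB F * 32768 ≤ tL (F % 8) * 2 ^ 32 * 2 ^ (F / 8) * 32769 := by decide +kernel

theorem tU_le : ∀ r < 8, tU r ≤ 2 ^ 17 := by decide

theorem ubN_eq (c F : ℕ) :
    ubN c F = c * tU (F % 8) * 2 ^ 100 / 2 ^ (4100 - F / 8) + 1 := by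
  show Nat.succ (((c * tU (F % 8)) <<< 100) >>> (4100 - F / 8)) = _
  rw [Nat.shiftLeft_eq, Nat.shiftRight_eq_div_pow]

theorem lbN_eq (c F : ℕ) : lbN c F = c * tL (F % 8) * 2 ^ 100 / 2 ^ (4100 - F / 8) := by
  show ((c * tL (F % 8)) <<< 100) >>> (4100 - F / 8) = _
  rw [Nat.shiftLeft_eq, Nat.shiftRight_eq_div_pow]

theorem ar1 {q A M : ℕ} (h1 : A * 2 ^ 32 ≤ M) (h2 : q * 2 ^ 108 ≤ A * 2 ^ 100) :
    (q + 1) * 2 ^ 40 ≤ 2 ^ 40 + M := by linarith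

theorem ar2 {q A c : ℕ} (h1 : A ≤ c * 2 ^ 17) (h2 : q * 2 ^ 109 ≤ A * 2 ^ 100) :
    (q + 1) * 2 ^ 40 ≤ 2 ^ 40 + c * 2 ^ 48 := by linarith

theorem ub_le (c : ℕ) (S : ℤ) (h : (S + 57749).toNat / 150 < 512) :
    ubX c S * 2 ^ 40 ≤ 2 ^ 40 + c * mB ((S + 57749).toNat / 150) := by
  have m0 : mB 0 = 2 ^ 48 := by decide
  unfold ubX
  have e0 : Int.add S 4848000 = S + 4848000 := rfl
  rw [e0]
  cases hY : S + 4848000 with
  | negSucc n =>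
    have e1 : (S + 57749).toNat / 150 = 0 := by omega
    have : c >>> 3984 ≤ c := Nat.shiftRight_le _ _
    rw [e1, m0]
    show (c >>> 3984 + 1) * 2 ^ 40 ≤ _
    omega
  | ofNat n =>
    rw [Int.ofNat_eq_natCast] at hY
    show @Bool.rec (fun _ => ℕ) (Nat.pow 2 72) (ubN c ((n + 149) / 150)) (Nat.ble n 4920000) * _ ≤ _
    rw [Nat.ble_eq_true_of_le (by omega)]
    show ubN c ((n + 149) / 150) * _ ≤ _
    rw [ubN_eq]
    have hq := Nat.div_mul_le_self (c * tU ((n + 149) / 150 % 8) * 2 ^ 100)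
      (2 ^ (4100 - (n + 149) / 150 / 8))
    generalize c * tU ((n + 149) / 150 % 8) * 2 ^ 100 / 2 ^ (4100 - (n + 149) / 150 / 8) = q at *
    by_cases hn : 4790400 ≤ n + 149
    · obtain ⟨F, hF⟩ : ∃ F, F = (S + 57749).toNat / 150 := ⟨_, rfl⟩
      rw [← hF] at h ⊢
      have e1 : (n + 149) / 150 % 8 = F % 8 := by omega
      have e2 : 108 = 4100 - (n + 149) / 150 / 8 + F / 8 := by omega
      have e3 : 2 ^ 108 = 2 ^ (4100 - (n + 149) / 150 / 8) * 2 ^ (F / 8) := by rw [← pow_add, ← e2]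
      rw [e1] at hq
      have h1 := Nat.mul_le_mul_left c (mB_tab F h).1
      have h2 := Nat.mul_le_mul_right (2 ^ (F / 8)) hq
      rw [Nat.mul_assoc q, ← e3] at h2
      have e4 : c * (tU (F % 8) * 2 ^ 32 * 2 ^ (F / 8)) = c * tU (F % 8) * 2 ^ (F / 8) * 2 ^ 32 := by
        ring
      have e5 : c * tU (F % 8) * 2 ^ 100 * 2 ^ (F / 8) = c * tU (F % 8) * 2 ^ (F / 8) * 2 ^ 100 := by
        ring
      rw [e4] at h1
      rw [e5] at h2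
      exact ar1 h1 h2
    · have e1 : (S + 57749).toNat / 150 = 0 := by omega
      have h1 : 2 ^ 109 ≤ 2 ^ (4100 - (n + 149) / 150 / 8) :=
        Nat.pow_le_pow_right (by norm_num) (by omega)
      have h2 := Nat.mul_le_mul_left q h1
      have h3 := Nat.mul_le_mul_left c (tU_le ((n + 149) / 150 % 8) (by omega))
      have h4 := h2.trans hq
      rw [e1, m0]
      exact ar2 h3 h4

theorem lb_ge (c : ℕ) (S : ℤ) (h : (57600 - S).toNat / 150 < 512) :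
    c * mB ((57600 - S).toNat / 150) * 32768 ≤ (lbX c (Int.neg S) + 1 + 256 * c) * 2 ^ 40 * 32769 := by
  have m0 : mB 0 = 2 ^ 48 := by decide
  by_cases hn : S ≤ 57600
  · obtain ⟨n, hY⟩ : ∃ n : ℕ, Int.add (Int.neg S) 4848000 = Int.ofNat n :=
      ⟨(-S + 4848000).toNat, by show -S + 4848000 = ((-S + 4848000).toNat : ℤ); omega⟩
    have hY' : -S + 4848000 = (n : ℤ) := hY
    unfold lbX
    rw [hY]
    show _ ≤ (lbN c (n / 150) + 1 + 256 * c) * _ * _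
    rw [lbN_eq]
    have hq := Nat.lt_div_mul_add (a := c * tL (n / 150 % 8) * 2 ^ 100)
      (Nat.two_pow_pos (4100 - n / 150 / 8))
    generalize c * tL (n / 150 % 8) * 2 ^ 100 / 2 ^ (4100 - n / 150 / 8) = q at *
    obtain ⟨F, hF⟩ : ∃ F, F = (57600 - S).toNat / 150 := ⟨_, rfl⟩
    rw [← hF] at h ⊢
    have e1 : n / 150 % 8 = F % 8 := by omega
    have e2 : 108 = 4100 - n / 150 / 8 + F / 8 := by omega
    have e3 : 2 ^ 108 = 2 ^ (4100 - n / 150 / 8) * 2 ^ (F / 8) := by rw [← pow_add, ← e2]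
    rw [e1] at hq
    have h1 := Nat.mul_le_mul_left c (mB_tab F h).2
    have h2 := Nat.mul_le_mul_right (2 ^ (F / 8)) hq.le
    rw [Nat.add_mul, Nat.mul_assoc q, ← e3] at h2
    have e4 : c * (tL (F % 8) * 2 ^ 32 * 2 ^ (F / 8) * 32769) =
        c * tL (F % 8) * 2 ^ (F / 8) * 2 ^ 32 * 32769 := by ring
    have e5 : c * tL (F % 8) * 2 ^ 100 * 2 ^ (F / 8) = c * tL (F % 8) * 2 ^ (F / 8) * 2 ^ 100 := by
      ring
    have e6 : c * (mB F * 32768) = c * mB F * 32768 := by ring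
    omega
  · have e1 : (57600 - S).toNat / 150 = 0 := by omega
    rw [e1, m0]
    omega

def Bd (Y : Lf) : Prop :=
  (-(3 * 2 ^ 27) ≤ Y.m ∧ Y.m ≤ 3 * 2 ^ 27) ∧ (-(3 * 2 ^ 27) ≤ Y.eN ∧ Y.eN ≤ 3 * 2 ^ 27) ∧
  (-(3 * 2 ^ 27) ≤ Y.ea + (Y.eb + Y.ec) ∧ Y.ea + (Y.eb + Y.ec) ≤ 3 * 2 ^ 27) ∧
  (-(3 * 2 ^ 27) ≤ Y.eb + Y.ec ∧ Y.eb + Y.ec ≤ 3 * 2 ^ 27) ∧
  (-(3 * 2 ^ 27) ≤ Y.ec ∧ Y.ec ≤ 3 * 2 ^ 27)

def fL (g : ℤ → ℕ) (Y : Lf) : ℕ :=
  f5 (g Y.m) (g Y.eN) (g (Y.ea + (Y.eb + Y.ec))) (g (Y.eb + Y.ec)) (g Y.ec)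

def eL : Lf → ℕ := fL fun y => (2 ^ 40 + y).toNat
def pL : Lf → ℕ := fL fun y => y.toNat
def nL : Lf → ℕ := fL fun y => (-y).toNat

def k5 : ℕ := f5 (2 ^ 40) (2 ^ 40) (2 ^ 40) (2 ^ 40) (2 ^ 40)

def b9 : ℕ := f5 (2 ^ 47) (2 ^ 47) (2 ^ 47) (2 ^ 47) (2 ^ 47) +
  2 ^ 240 * f5 (2 ^ 47) (2 ^ 47) (2 ^ 47) (2 ^ 47) 0

theorem tn {y : ℤ} (h : -(3 * 2 ^ 27) ≤ y ∧ y ≤ 3 * 2 ^ 27) : (2 ^ 40 + y).toNat < 2 ^ 41 ∧
    (2 ^ 40 + y).toNat - 2 ^ 40 = y.toNat ∧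
    (2 ^ 40 + y).toNat + (-y).toNat = y.toNat + 2 ^ 40 := by
  refine ⟨?_, ?_, ?_⟩ <;> omega

theorem f5_lt {a b c d e : ℕ} (ha : a < 2 ^ 41) (hb : b < 2 ^ 41) (hc : c < 2 ^ 41)
    (hd : d < 2 ^ 41) (he : e < 2 ^ 41) : f5 a b c d e < 2 ^ 512 := by
  unfold f5
  omega

theorem f5_sub {a b c d e a' b' c' d' e' x y z u v k : ℕ} (ha : a + a' = x + k)
    (hb : b + b' = y + k) (hc : c + c' = z + k) (hd : d + d' = u + k) (he : e + e' = v + k) :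
    f5 a b c d e ≤ f5 x y z u v + f5 k k k k k ∧
      f5 x y z u v + f5 k k k k k - f5 a b c d e = f5 a' b' c' d' e' := by
  unfold f5
  omega

theorem relu_e {Y : Lf} (h : Bd Y) : eL Y < 2 ^ 512 ∧ relu (eL Y) k5 40 = pL Y ∧
    eL Y ≤ pL Y + k5 ∧ pL Y + k5 - eL Y = nL Y := by
  obtain ⟨h0, h1, h2, h3, h4⟩ := h
  obtain ⟨a0, b0, c0⟩ := tn h0
  obtain ⟨a1, b1, c1⟩ := tn h1
  obtain ⟨a2, b2, c2⟩ := tn h2
  obtain ⟨a3, b3, c3⟩ := tn h3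
  obtain ⟨a4, b4, c4⟩ := tn h4
  simp only [eL, pL, nL, fL, k5]
  rw [relu5 a0 a1 a2 a3 a4, b0, b1, b2, b3, b4]
  exact ⟨f5_lt a0 a1 a2 a3 a4, rfl, f5_sub c0 c1 c2 c3 c4⟩

theorem up_pn (e : ℤ) (lo hi : ℕ) :
    up e lo hi = ((e.toNat * hi : ℕ) : ℤ) - (((-e).toNat * lo : ℕ) : ℤ) := by
  rw [Fast.up_eq]
  have : ((-e).toNat : ℤ) = e.toNat - e := by omega
  push_cast
  rw [this]
  ring

/-- the bounds of a box -/
def Sm (X : Bx) : Prop := X.L1 + X.L2 + (X.p1 + X.p2) + (X.q1 + X.q2 + (X.w1 + X.w2)) ≤ 65535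

def prL (X : Bx) (Y : Lf) : ℕ :=
  pL Y * f5 X.w2 X.q2 X.p2 X.L2 1 + b9 - nL Y * f5 X.w1 X.q1 X.p1 X.L1 1

theorem dot {X : Bx} {Y : Lf} (hX : Sm X) (h : Bd Y) :
    nL Y * f5 X.w1 X.q1 X.p1 X.L1 1 ≤ pL Y * f5 X.w2 X.q2 X.p2 X.L2 1 + b9 ∧ prL X Y < 2 ^ 512 ∧
    ((prL X Y / 2 ^ 192 % 2 ^ 48 : ℕ) : ℤ) = 2 ^ 47 + sup X Y := by
  obtain ⟨h0, h1, h2, h3, h4⟩ := h
  unfold Sm at hX
  have e : sup X Y = Y.m + up Y.eN X.L1 X.L2 + up (Y.ea + (Y.eb + Y.ec)) X.p1 X.p2 +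
    up (Y.eb + Y.ec) X.q1 X.q2 + up Y.ec X.w1 X.w2 := rfl
  obtain ⟨x, y, a1, a2, a3, a4⟩ := conv5 (a := Y.m.toNat) (b := Y.eN.toNat)
    (c := (Y.ea + (Y.eb + Y.ec)).toNat) (d := (Y.eb + Y.ec).toNat) (e := Y.ec.toNat) (L := X.L2)
    (p := X.p2) (q := X.q2) (w := X.w2) (by omega) (by omega) (by omega) (by omega) (by omega)
    (by omega) (by omega) (by omega) (by omega)
  obtain ⟨x', y', b1, b2, b3, b4⟩ := conv5 (a := (-Y.m).toNat) (b := (-Y.eN).toNat)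
    (c := (-(Y.ea + (Y.eb + Y.ec))).toNat) (d := (-(Y.eb + Y.ec)).toNat) (e := (-Y.ec).toNat)
    (L := X.L1) (p := X.p1) (q := X.q1) (w := X.w1) (by omega) (by omega) (by omega) (by omega)
    (by omega) (by omega) (by omega) (by omega) (by omega)
  have e1 : sup X Y = ((Y.m.toNat + Y.eN.toNat * X.L2 + (Y.ea + (Y.eb + Y.ec)).toNat * X.p2 +
      (Y.eb + Y.ec).toNat * X.q2 + Y.ec.toNat * X.w2 : ℕ) : ℤ) -
      (((-Y.m).toNat + (-Y.eN).toNat * X.L1 + (-(Y.ea + (Y.eb + Y.ec))).toNat * X.p1 +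
      (-(Y.eb + Y.ec)).toNat * X.q1 + (-Y.ec).toNat * X.w1 : ℕ) : ℤ) := by
    rw [e, up_pn, up_pn, up_pn, up_pn]
    have : Y.m = (Y.m.toNat : ℤ) - (-Y.m).toNat := by omega
    simp only [Nat.cast_add]
    linarith
  unfold prL pL nL fL
  rw [a1, b1, e1]
  clear a1 b1 e1 e h0 h1 h2 h3 h4 hX
  generalize Y.m.toNat + Y.eN.toNat * X.L2 + (Y.ea + (Y.eb + Y.ec)).toNat * X.p2 +
      (Y.eb + Y.ec).toNat * X.q2 + Y.ec.toNat * X.w2 = u at *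
  generalize (-Y.m).toNat + (-Y.eN).toNat * X.L1 + (-(Y.ea + (Y.eb + Y.ec))).toNat * X.p1 +
      (-(Y.eb + Y.ec)).toNat * X.q1 + (-Y.ec).toNat * X.w1 = v at *
  unfold b9 f5 at *
  omega

theorem pr1_pw {L : List α} {X : Bx} {Y : α → Lf} (hX : Sm X) (h : ∀ a ∈ L, Bd (Y a)) :
    pr1 (pw 512 (fun _ => 1) L) (pw 512 (fun _ => 1) L * k5) (pw 512 (fun a => eL (Y a)) L)
      (f5 X.w2 X.q2 X.p2 X.L2 1) (f5 X.w1 X.q1 X.p1 X.L1 1) = pw 512 (fun a => prL X (Y a)) L := by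
  show relu _ _ 40 * _ + pw 512 (fun _ => 1) L * b9 - (relu _ _ 40 + _ - _) * _ = _
  simp only [pw_mul, Nat.one_mul]
  rw [relu_pw (fun a ha => (relu_e (h a ha)).1) (fun _ _ => by decide) (fun _ _ => by decide),
    pw_congr fun a ha => (relu_e (h a ha)).2.1, pw_add, pw_sub fun a ha => (relu_e (h a ha)).2.2.1,
    pw_congr fun a ha => (relu_e (h a ha)).2.2.2, pw_mul, pw_mul, pw_add,
    pw_sub fun a ha => (dot hX (h a ha)).1]
  rfl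

def nV (f : Bool) (S : ℤ) : ℤ := @Bool.rec (fun _ => ℤ) (S + 57749) (57600 - S) f

theorem fm_lane (y : ℕ) (f : Bool) : y &&& (bn f * (2 ^ 192 * (2 ^ 48 - 1))) =
    2 ^ 192 * (y / 2 ^ 192 % 2 ^ 48) * bn f := by
  cases f
  · show y &&& (0 * _) = _ * 0
    rw [Nat.zero_mul, Nat.and_zero, Nat.mul_zero]
  · show y &&& (1 * _) = _ * 1
    rw [Nat.one_mul, Nat.mul_one, fld]

theorem bn_le (f : Bool) : bn f ≤ 1 := by cases f <;> decide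

theorem nz_pw {L : List α} {p : α → ℕ} {S : α → ℤ} (f : α → Bool) (hp : ∀ a ∈ L, p a < 2 ^ 512)
    (h : ∀ a ∈ L, ((p a / 2 ^ 192 % 2 ^ 48 : ℕ) : ℤ) = 2 ^ 47 + S a) :
    relu (nz (pw 512 (fun _ => 1) L - pw 512 (fun a => bn (f a)) L) (pw 512 (fun a => bn (f a)) L)
      (pw 512 p L)) (pw 512 (fun _ => 1) L <<< 240) 48 =
      pw 512 (fun a => 2 ^ 192 * (nV (f a) (S a)).toNat) L := by
  have e : pw 512 (fun _ => 1) L - pw 512 (fun a => bn (f a)) L =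
      pw 512 (fun a => bn (!f a)) L := by
    rw [pw_sub fun a _ => bn_le (f a)]
    exact pw_congr fun a _ => by cases f a <;> rfl
  have hb : ∀ g : Bool, bn g * (2 ^ 192 * (2 ^ 48 - 1)) < 2 ^ 512 := fun g => by
    have := bn_le g
    omega
  have e2 : ∀ u v : ℕ, nz u v (pw 512 p L) = u * (2 ^ 192 * (2 ^ 47 + 57749)) +
      v * (2 ^ 192 * (2 ^ 48 + 2 ^ 47 + 57600)) + (pw 512 p L &&& (u * (2 ^ 192 * (2 ^ 48 - 1)))) -
      (pw 512 p L &&& (v * (2 ^ 192 * (2 ^ 48 - 1)))) := fun _ _ => rfl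
  have e3 : nz (pw 512 (fun a => bn (!f a)) L) (pw 512 (fun a => bn (f a)) L) (pw 512 p L) =
      pw 512 (fun a => 2 ^ 192 * (2 ^ 48 + nV (f a) (S a)).toNat) L := by
    rw [e2, pw_mul, pw_mul, pw_mul, pw_mul, pw_land hp fun _ _ => hb _,
      pw_land hp fun _ _ => hb _, pw_add, pw_add, pw_sub]
    · refine pw_congr fun a ha => ?_
      have := h a ha
      rw [fm_lane, fm_lane]
      cases f a <;> simp only [Bool.not_false, Bool.not_true, bn, nV] <;> omega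
    · intro a ha
      rw [fm_lane, fm_lane]
      cases f a <;> simp only [Bool.not_false, Bool.not_true, bn] <;> omega
  have hz : ∀ a ∈ L, (2 ^ 48 + nV (f a) (S a)).toNat < 2 * 2 ^ 48 := fun a ha => by
    have := h a ha
    cases f a <;> simp only [nV] <;> omega
  rw [e, e3, pw_shl, relu_pw (fun a ha => by have := hz a ha; omega) (fun _ _ => by norm_num)
    fun _ _ => by norm_num]
  refine pw_congr fun a ha => ?_
  have e4 : (2 ^ 48 + nV (f a) (S a)).toNat - 2 ^ 48 = (nV (f a) (S a)).toNat := by omega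
  rw [Nat.one_mul, show 240 = 192 + 48 from rfl, relu1 192 48 _ (hz a ha), e4]

theorem nV_lt {f : Bool} {S : ℤ} {z : ℕ} (h : ((z % 2 ^ 48 : ℕ) : ℤ) = 2 ^ 47 + S) :
    (nV f S).toNat < 2 ^ 48 := by
  cases f <;> simp only [nV] <;> omega

theorem brec {a b : Bool} (h : @Bool.rec (fun _ => Bool) false b a = true) :
    a = true ∧ b = true := by
  cases a
  · cases h
  · exact ⟨rfl, h⟩

theorem ar3 {N : ℕ} (h : N < 2 ^ 48)
    (h1 : 2 ^ 226 * (2 ^ 192 * N * 223697 / 2 ^ 226 % 2 ^ 32) = 0) : N * 223697 < 2 ^ 34 := by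
  have e : 2 ^ 192 * N * 223697 / 2 ^ 226 = N * 223697 / 2 ^ 34 := by
    rw [Nat.mul_assoc, show 2 ^ 226 = 2 ^ 192 * 2 ^ 34 by norm_num,
      Nat.mul_div_mul_left _ _ (by norm_num)]
  rw [e, Nat.mod_eq_of_lt (by omega)] at h1
  omega

theorem co1_ok {L : List α} {X : Bx} {Y : α → Lf} {c : α → ℕ} (f p r : α → Bool) (K : ℕ)
    (hX : Sm X) (hY : ∀ a ∈ L, Bd (Y a)) (hc : ∀ a ∈ L, c a < 2 ^ 32) (hn : L.length ≤ 128)
    (h : co1 (pw 512 (fun _ => 1) L) (pw 512 (fun a => bn (f a)) L) (pw 512 (fun a => eL (Y a)) L)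
      (f5 X.w2 X.q2 X.p2 X.L2 1) (f5 X.w1 X.q1 X.p1 X.L1 1) (pw 512 (fun a => 2 ^ 288 * c a) L)
      (pw 512 (fun a => bn (p a)) L) (pw 512 (fun a => bn (r a)) L) K = true) :
    ∃ v : α → ℕ, (∀ a ∈ L, (f a = false → ubX (c a) (sup X (Y a)) * 2 ^ 40 ≤ 2 ^ 40 + v a) ∧
      (f a = true → v a * 32768 ≤
        (lbX (c a) (Int.neg (sup X (Y a))) + 1 + 256 * c a) * 2 ^ 40 * 32769)) ∧
      (L.map fun a => 2 ^ 288 * v a * bn (p a)).sum + K ≤ 2 ^ 396 ∧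
      (L.map fun a => 2 ^ 288 * v a * bn (r a)).sum + K ≤ 2 ^ 400 ∧
      ((L.map fun a => 2 ^ 288 * v a * bn (r a)).sum + K) * 32769 <
        (L.map fun a => 2 ^ 288 * v a * bn (f a)).sum * 32768 := by
  have hd := fun a ha => dot hX (hY a ha)
  have hN := fun a ha => nV_lt (f := f a) (hd a ha).2.2
  change co2 _ (relu (nz (_ - _) _ (pr1 _ (_ * k5) _ _ _)) (_ <<< 240) 48 * 223697) _ _ _ _ _
    = true at h
  rw [pr1_pw hX hY, nz_pw f (fun a ha => (hd a ha).2.1) fun a ha => (hd a ha).2.2, pw_mul] at h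
  have hφ : ∀ a ∈ L, 2 ^ 192 * (nV (f a) (sup X (Y a))).toNat * 223697 < 2 ^ 512 := fun a ha => by
    have := hN a ha
    omega
  obtain ⟨e1, e2⟩ := ex_pw hφ hc
  unfold co2 at h
  rw [e1] at h
  obtain ⟨hb, h⟩ := brec h
  have h0 := Nat.eq_of_beq_eq_true hb
  change pw 512 _ L &&& (pw 512 _ L * (2 ^ 226 * (2 ^ 32 - 1))) = 0 at h0
  rw [pw_mul, pw_land hφ fun _ _ => by norm_num] at h0
  have hF : ∀ a ∈ L, (nV (f a) (sup X (Y a))).toNat * 223697 < 2 ^ 34 := fun a ha => by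
    have h1 := pw_zero h0 a ha
    have h2 := hN a ha
    rw [Nat.one_mul, fld] at h1
    exact ar3 h2 h1
  refine ⟨fun a => mA (2 ^ 192 * (nV (f a) (sup X (Y a))).toNat * 223697) (c a), fun a ha => ?_, ?_⟩
  · have h1 := hF a ha
    have h2 : 2 ^ 192 * (nV (f a) (sup X (Y a))).toNat * 223697 / 2 ^ 217 =
        (nV (f a) (sup X (Y a))).toNat / 150 := by omega
    have h3 : (nV (f a) (sup X (Y a))).toNat / 150 < 512 := by omega
    simp only [mA_eq, h2]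
    constructor <;> intro hf <;> rw [hf] at h3 ⊢
    · exact ub_le _ _ h3
    · exact lb_ge _ _ h3
  · unfold fin fin2 at h
    rw [sm_pw p e2 hn, sm_pw r e2 hn, sm_pw f e2 hn] at h
    obtain ⟨a1, h⟩ := brec h
    obtain ⟨a2, a3⟩ := brec h
    exact ⟨Nat.le_of_ble_eq_true a1, Nat.le_of_ble_eq_true a2,
      (Nat.le_of_ble_eq_true a3).trans (Nat.shiftLeft_eq _ 15).le⟩

end Pool.Agent.MP_2339ce_nt.Q2.TB.KW
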