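import Pool.Agent.MP_2339ce_nt.Q2.TKW

/-! Project Q2: numbers cut into lanes of a fixed width. -/

set_option autoImplicit false
set_option exponentiation.threshold 600

namespace Pool.Agent.MP_2339ce_nt.Q2.TB.KW

variable {α : Type}

def pw (w : ℕ) (f : α → ℕ) : List α → ℕ
  | [] => 0
  | a :: L => f a + 2 ^ w * pw w f L

theorem pw_congr {w : ℕ} {f g : α → ℕ} {L : List α} (h : ∀ a ∈ L, f a = g a) :
    pw w f L = pw w g L := by
  induction L with
  | nil => rfl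
  | cons a L ih =>
    rw [List.forall_mem_cons] at h
    rw [pw, pw, h.1, ih h.2]

theorem pw_add (w : ℕ) (f g : α → ℕ) (L : List α) :
    pw w f L + pw w g L = pw w (fun a => f a + g a) L := by
  induction L with
  | nil => rfl
  | cons a L ih => rw [pw, pw, pw, ← ih]; ring

theorem pw_mul (w : ℕ) (f : α → ℕ) (L : List α) (c : ℕ) :
    pw w f L * c = pw w (fun a => f a * c) L := by
  induction L with
  | nil => exact Nat.zero_mul c
  | cons a L ih => rw [pw, pw, ← ih]; ring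

theorem pw_shl (w : ℕ) (f : α → ℕ) (L : List α) (k : ℕ) :
    pw w f L <<< k = pw w (fun a => f a * 2 ^ k) L := by
  rw [Nat.shiftLeft_eq, pw_mul]

theorem pw_sub {w : ℕ} {f g : α → ℕ} {L : List α} (h : ∀ a ∈ L, g a ≤ f a) :
    pw w f L - pw w g L = pw w (fun a => f a - g a) L := by
  have : pw w f L = pw w (fun a => f a - g a) L + pw w g L := by
    rw [pw_add]
    exact pw_congr fun a ha => (Nat.sub_add_cancel (h a ha)).symm
  omega

theorem land_step {w a b : ℕ} (r s : ℕ) (ha : a < 2 ^ w) (hb : b < 2 ^ w) :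
    (a + 2 ^ w * r) &&& (b + 2 ^ w * s) = (a &&& b) + 2 ^ w * (r &&& s) := by
  have hc : a &&& b < 2 ^ w := Nat.lt_of_le_of_lt Nat.and_le_left ha
  apply Nat.eq_of_testBit_eq
  intro i
  rw [Nat.testBit_and, Nat.add_comm a, Nat.add_comm b, Nat.add_comm (a &&& b),
    Nat.testBit_two_pow_mul_add _ ha, Nat.testBit_two_pow_mul_add _ hb,
    Nat.testBit_two_pow_mul_add _ hc]
  split_ifs <;> rw [Nat.testBit_and]

theorem pw_land {w : ℕ} {f g : α → ℕ} {L : List α} (hf : ∀ a ∈ L, f a < 2 ^ w)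
    (hg : ∀ a ∈ L, g a < 2 ^ w) : pw w f L &&& pw w g L = pw w (fun a => f a &&& g a) L := by
  induction L with
  | nil => exact Nat.zero_and _
  | cons a L ih =>
    rw [List.forall_mem_cons] at hf hg
    rw [pw, pw, pw, land_step _ _ hf.1 hg.1, ih hf.2 hg.2]

theorem pw_shr {w k : ℕ} {f : α → ℕ} {L : List α} (h : ∀ a ∈ L, 2 ^ k ∣ f a) :
    pw w f L >>> k = pw w (fun a => f a >>> k) L := by
  have : pw w f L = pw w (fun a => f a >>> k) L * 2 ^ k := by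
    rw [pw_mul]
    exact pw_congr fun a ha => by
      rw [Nat.shiftRight_eq_div_pow, Nat.div_mul_cancel (h a ha)]
  rw [this, Nat.shiftRight_eq_div_pow, Nat.mul_div_cancel _ (Nat.two_pow_pos k)]

theorem pw_mod {w : ℕ} {f : α → ℕ} {L : List α} (h : (L.map f).sum < 2 ^ w - 1) :
    pw w f L % (2 ^ w - 1) = (L.map f).sum := by
  have key : ∃ q, pw w f L = (L.map f).sum + (2 ^ w - 1) * q := by
    clear h
    induction L with
    | nil => exact ⟨0, rfl⟩
    | cons a L ih =>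
      obtain ⟨q, hq⟩ := ih
      refine ⟨q + pw w f L, ?_⟩
      obtain ⟨m, hm⟩ : ∃ m, 2 ^ w = m + 1 := ⟨2 ^ w - 1, by have := Nat.two_pow_pos w; omega⟩
      rw [pw, List.map_cons, List.sum_cons, hm, Nat.add_sub_cancel, Nat.mul_add, Nat.add_mul,
        Nat.one_mul]
      rw [hm, Nat.add_sub_cancel] at hq
      omega
  obtain ⟨q, hq⟩ := key
  rw [hq, Nat.add_mul_mod_self_left, Nat.mod_eq_of_lt h]

theorem pw_zero {w : ℕ} {f : α → ℕ} {L : List α} (h : pw w f L = 0) : ∀ a ∈ L, f a = 0 := by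
  induction L with
  | nil => intro a ha; cases ha
  | cons a L ih =>
    rw [pw, Nat.add_eq_zero_iff, Nat.mul_eq_zero] at h
    rw [List.forall_mem_cons]
    exact ⟨h.1, ih (h.2.resolve_left (Nat.two_pow_pos w).ne')⟩

theorem pw_append (w : ℕ) (f : α → ℕ) (L M : List α) :
    pw w f (L ++ M) = pw w f L + pw w f M <<< (L.length * w) := by
  induction L with
  | nil => simp [pw]
  | cons a L ih =>
    rw [List.cons_append, pw, pw, ih, Nat.shiftLeft_eq, Nat.shiftLeft_eq, List.length_cons]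
    ring

theorem pw_one {w : ℕ} (hw : 0 < w) (L : List α) :
    (1 <<< (L.length * w) - 1) / (2 ^ w - 1) = pw w (fun _ => 1) L := by
  have h1 : 1 < 2 ^ w := Nat.one_lt_two_pow hw.ne'
  obtain ⟨m, hm⟩ : ∃ m, 2 ^ w = m + 1 := ⟨2 ^ w - 1, by omega⟩
  have key : 2 ^ (L.length * w) = m * pw w (fun _ => 1) L + 1 := by
    induction L with
    | nil => simp [pw]
    | cons a L ih =>
      rw [pw, List.length_cons, Nat.succ_mul, pow_add, ih, hm]
      ring
  rw [Nat.one_shiftLeft, key, hm, Nat.add_sub_cancel, Nat.add_sub_cancel,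
    Nat.mul_div_cancel_left _ (by omega)]

theorem sum_le {f : α → ℕ} {L : List α} {B : ℕ} (h : ∀ a ∈ L, f a ≤ B) :
    (L.map f).sum ≤ L.length * B := by
  induction L with
  | nil => simp
  | cons a L ih =>
    rw [List.forall_mem_cons] at h
    have := ih h.2
    rw [List.map_cons, List.sum_cons, List.length_cons, Nat.succ_mul]
    omega

/-- the field of width `w` at the place `k` -/
theorem fld (y k w : ℕ) : y &&& (2 ^ k * (2 ^ w - 1)) = 2 ^ k * (y / 2 ^ k % 2 ^ w) := by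
  have h := land_step (w := k) (y / 2 ^ k) (2 ^ w - 1) (Nat.mod_lt y (Nat.two_pow_pos k))
    (Nat.two_pow_pos k)
  rw [Nat.mod_add_div, Nat.zero_add, Nat.and_zero, Nat.zero_add,
    Nat.and_two_pow_sub_one_eq_mod] at h
  exact h

theorem fld1 (y k : ℕ) : y &&& 2 ^ k = 2 ^ k * (y / 2 ^ k % 2) := by
  have h := fld y k 1
  rwa [pow_one, show 2 - 1 = 1 from rfl, Nat.mul_one] at h

theorem relu_eq (z G b : ℕ) : relu z G b = z &&& ((z &&& G) - (z &&& G) >>> b) := rfl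

theorem relu_pw {w b : ℕ} {f g : α → ℕ} {L : List α} (hf : ∀ a ∈ L, f a < 2 ^ w)
    (hg : ∀ a ∈ L, g a < 2 ^ w) (hd : ∀ a ∈ L, 2 ^ b ∣ g a) :
    relu (pw w f L) (pw w g L) b = pw w (fun a => relu (f a) (g a) b) L := by
  rw [relu_eq, pw_land hf hg, pw_shr, pw_sub, pw_land hf]
  · rfl
  · intro a ha
    exact Nat.lt_of_le_of_lt ((Nat.sub_le _ _).trans Nat.and_le_left) (hf a ha)
  · intro a _
    exact Nat.shiftRight_le _ _
  · intro a ha
    apply Nat.dvd_of_mod_eq_zero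
    rw [Nat.and_mod_two_pow, Nat.mod_eq_zero_of_dvd (hd a ha), Nat.and_zero]

theorem relu1 (k b z : ℕ) (h : z < 2 * 2 ^ b) :
    relu (2 ^ k * z) (2 ^ (k + b)) b = 2 ^ k * (z - 2 ^ b) := by
  have hb := Nat.two_pow_pos b
  have e : 2 ^ k * z / 2 ^ (k + b) = z / 2 ^ b := by
    rw [pow_add, Nat.mul_div_mul_left _ _ (Nat.two_pow_pos k)]
  rw [relu_eq, fld1, e]
  by_cases h1 : z < 2 ^ b
  · rw [Nat.div_eq_of_lt h1, Nat.sub_eq_zero_of_le h1.le]
    simp
  · have e1 : z / 2 ^ b = 1 := Nat.div_eq_of_lt_le (by omega) (by omega)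
    have e2 : 2 ^ (k + b) * (1 % 2) - (2 ^ (k + b) * (1 % 2)) >>> b = 2 ^ k * (2 ^ b - 1) := by
      rw [show 1 % 2 = 1 from rfl, Nat.mul_one, Nat.shiftRight_eq_div_pow, pow_add,
        Nat.mul_div_cancel _ hb, Nat.mul_sub_one]
    rw [e1, e2, fld, Nat.mul_div_cancel_left _ (Nat.two_pow_pos k),
      Nat.mod_eq_sub_mod (by omega), Nat.mod_eq_of_lt (by omega)]

theorem relu0 (b z : ℕ) (h : z < 2 * 2 ^ b) : relu z (2 ^ b) b = z - 2 ^ b := by
  have := relu1 0 b z h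
  rwa [pow_zero, Nat.one_mul, Nat.one_mul, Nat.zero_add] at this

def f5 (a b c d e : ℕ) : ℕ := a + 2 ^ 48 * b + 2 ^ 96 * c + 2 ^ 144 * d + 2 ^ 192 * e

theorem f5_eq (g : ℕ → ℕ) (a b c d e : ℕ) :
    pw 48 g [a, b, c, d, e] = f5 (g a) (g b) (g c) (g d) (g e) := by
  simp only [pw, f5]
  ring

theorem relu5 {a b c d e : ℕ} (ha : a < 2 ^ 41) (hb : b < 2 ^ 41) (hc : c < 2 ^ 41)
    (hd : d < 2 ^ 41) (he : e < 2 ^ 41) :
    relu (f5 a b c d e) (f5 (2 ^ 40) (2 ^ 40) (2 ^ 40) (2 ^ 40) (2 ^ 40)) 40 =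
      f5 (a - 2 ^ 40) (b - 2 ^ 40) (c - 2 ^ 40) (d - 2 ^ 40) (e - 2 ^ 40) := by
  have h : ∀ y ∈ [a, b, c, d, e], y < 2 ^ 41 := by
    simp only [List.forall_mem_cons]
    exact ⟨ha, hb, hc, hd, he, fun _ h => absurd h List.not_mem_nil⟩
  have := relu_pw (w := 48) (b := 40) (f := fun y => y) (g := fun _ => 2 ^ 40)
    (L := [a, b, c, d, e]) (fun y hy => (h y hy).trans (by norm_num)) (fun _ _ => by norm_num)
    fun _ _ => dvd_rfl
  rw [pw_congr (g := fun y => y - 2 ^ 40) fun y hy => relu0 40 y (h y hy), f5_eq, f5_eq,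
    f5_eq] at this
  exact this

/-- the product of two numbers with five fields -/
theorem conv5 {a b c d e L p q w : ℕ} (ha : a ≤ 3 * 2 ^ 27) (hb : b ≤ 3 * 2 ^ 27)
    (hc : c ≤ 3 * 2 ^ 27) (hd : d ≤ 3 * 2 ^ 27) (he : e ≤ 3 * 2 ^ 27) (hL : L ≤ 2 ^ 16)
    (hp : p ≤ 2 ^ 16) (hq : q ≤ 2 ^ 16) (hw : w ≤ 2 ^ 16) :
    ∃ x y, f5 a b c d e * f5 w q p L 1 =
      x + 2 ^ 192 * (a + b * L + c * p + d * q + e * w) + 2 ^ 240 * y ∧
      x ≤ f5 (15 * 2 ^ 43) (15 * 2 ^ 43) (15 * 2 ^ 43) (15 * 2 ^ 43) 0 ∧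
      y ≤ f5 (15 * 2 ^ 43) (15 * 2 ^ 43) (15 * 2 ^ 43) (15 * 2 ^ 43) 0 ∧
      a + b * L + c * p + d * q + e * w ≤ 15 * 2 ^ 43 := by
  have m := fun {x y : ℕ} (hx : x ≤ 3 * 2 ^ 27) (hy : y ≤ 2 ^ 16) => Nat.mul_le_mul hx hy
  refine ⟨f5 (a * w) (a * q + b * w) (a * p + b * q + c * w) (a * L + b * p + c * q + d * w) 0,
    f5 (b + c * L + d * p + e * q) (c + d * L + e * p) (d + e * L) e 0, ?_, ?_, ?_, ?_⟩
  · unfold f5
    ring
  · have := m ha hw; have := m ha hq; have := m hb hw; have := m ha hp; have := m hb hq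
    have := m hc hw; have := m ha hL; have := m hb hp; have := m hc hq; have := m hd hw
    unfold f5
    omega
  · have := m hc hL; have := m hd hp; have := m he hq; have := m hd hL; have := m he hp
    have := m he hL
    unfold f5
    omega
  · have := m hb hL; have := m hc hp; have := m hd hq; have := m he hw
    omega

theorem mskb {y k : ℕ} (h : y < 2 ^ k) (f : Bool) : y &&& (bn f * (2 ^ k - 1)) = y * bn f := by
  cases f
  · show y &&& (0 * _) = y * 0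
    rw [Nat.zero_mul, Nat.and_zero, Nat.mul_zero]
  · show y &&& (1 * _) = y * 1
    rw [Nat.one_mul, Nat.mul_one, Nat.and_two_pow_sub_one_eq_mod, Nat.mod_eq_of_lt h]

theorem msk_lane {y b v : ℕ} (h1 : 217 ≤ b) (h2 : b ≤ 288) (hv : v < 2 ^ 185) :
    (2 ^ 288 * v) &&& ((y &&& 1 * 2 ^ b) * (2 ^ 256 - 1)) = 2 ^ 288 * (v * (y / 2 ^ b % 2)) := by
  rw [Nat.one_mul, fld1]
  rcases Nat.mod_two_eq_zero_or_one (y / 2 ^ b) with h | h <;> rw [h]
  · simp
  · obtain ⟨r, hr⟩ : ∃ r, 288 = b + r := ⟨288 - b, by omega⟩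
    have e : 2 ^ 288 * v = 2 ^ b * (2 ^ r * v) := by rw [hr, pow_add, Nat.mul_assoc]
    have l : 2 ^ r * v < 2 ^ 256 :=
      calc 2 ^ r * v ≤ 2 ^ 71 * v :=
            Nat.mul_le_mul_right _ (Nat.pow_le_pow_right (by norm_num) (by omega))
        _ < 2 ^ 256 := by omega
    rw [Nat.mul_one, Nat.mul_one, fld, e, Nat.mul_div_cancel_left _ (Nat.two_pow_pos b),
      Nat.mod_eq_of_lt l]

theorem msk_pw {L : List α} {φ v : α → ℕ} {b : ℕ} (hφ : ∀ a ∈ L, φ a < 2 ^ 512) (h1 : 217 ≤ b)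
    (h2 : b ≤ 225) (hv : ∀ a ∈ L, v a < 2 ^ 185) :
    msk (pw 512 φ L) (pw 512 (fun _ => 1) L) b (pw 512 (fun a => 2 ^ 288 * v a) L) =
      pw 512 (fun a => 2 ^ 288 * (v a * (φ a / 2 ^ b % 2))) L := by
  have hb : 2 ^ b ≤ 2 ^ 225 := Nat.pow_le_pow_right (by norm_num) h2
  show pw 512 _ L &&& ((pw 512 φ L &&& (pw 512 (fun _ => 1) L <<< b)) * (2 ^ 256 - 1)) = _
  rw [pw_shl, pw_land hφ fun _ _ => by omega, pw_mul, pw_land]
  · exact pw_congr fun a ha => msk_lane h1 (by omega) (hv a ha)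
  · intro a ha
    have := hv a ha
    omega
  · intro a _
    have : φ a &&& 1 * 2 ^ b ≤ 1 * 2 ^ b := Nat.and_le_right
    omega

def mS (y b a0 a v : ℕ) : ℕ := v * (a0 + a * (y / 2 ^ b % 2))

theorem mS_lt {y b a0 a v k j : ℕ} (hv : v < 2 ^ k) (h : a0 + a ≤ 2 ^ j) :
    mS y b a0 a v < 2 ^ (k + j) := by
  have h1 : a * (y / 2 ^ b % 2) ≤ a * 1 := Nat.mul_le_mul_left _ (by omega)
  calc mS y b a0 a v ≤ v * 2 ^ j := Nat.mul_le_mul_left _ (by omega)
    _ < 2 ^ k * 2 ^ j := Nat.mul_lt_mul_of_pos_right hv (Nat.two_pow_pos j)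
    _ = _ := (pow_add _ _ _).symm

theorem stm_pw {L : List α} {φ v : α → ℕ} {b k : ℕ} (a : ℕ) (hφ : ∀ x ∈ L, φ x < 2 ^ 512)
    (h1 : 217 ≤ b) (h2 : b ≤ 225) (hv : ∀ x ∈ L, v x < 2 ^ k) (hk : k ≤ 185) :
    stm (pw 512 φ L) (pw 512 (fun _ => 1) L) b a (pw 512 (fun x => 2 ^ 288 * v x) L) =
      pw 512 (fun x => 2 ^ 288 * mS (φ x) b 65536 a (v x)) L := by
  show pw 512 _ L <<< 16 + msk _ _ _ _ * a = _
  rw [msk_pw hφ h1 h2 fun x hx => (hv x hx).trans_le (Nat.pow_le_pow_right (by norm_num) hk),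
    pw_shl, pw_mul, pw_add]
  exact pw_congr fun x _ => by unfold mS; ring

theorem stg_pw {L : List α} {φ v : α → ℕ} {b k : ℕ} (a : ℕ) (hφ : ∀ x ∈ L, φ x < 2 ^ 512)
    (h1 : 217 ≤ b) (h2 : b ≤ 225) (hv : ∀ x ∈ L, v x < 2 ^ k) (hk : k ≤ 185) :
    stg (pw 512 φ L) (pw 512 (fun _ => 1) L) b a (pw 512 (fun x => 2 ^ 288 * v x) L) =
      pw 512 (fun x => 2 ^ 288 * mS (φ x) b 1 a (v x)) L := by
  show pw 512 _ L + msk _ _ _ _ * a = _
  rw [msk_pw hφ h1 h2 fun x hx => (hv x hx).trans_le (Nat.pow_le_pow_right (by norm_num) hk),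
    pw_mul, pw_add]
  exact pw_congr fun x _ => by unfold mS; ring

def mA (y v : ℕ) : ℕ :=
  mS y 225 1 4294967295 (mS y 224 1 65535 (mS y 223 1 255 (mS y 222 1 15 (mS y 221 1 3
    (mS y 220 1 1 (mS y 219 65536 27146 (mS y 218 65536 12400 (mS y 217 65536 5932 v))))))))

theorem ex_pw {L : List α} {φ v : α → ℕ} (hφ : ∀ x ∈ L, φ x < 2 ^ 512)
    (h0 : ∀ x ∈ L, v x < 2 ^ 32) :
    ex (pw 512 φ L) (pw 512 (fun _ => 1) L) (pw 512 (fun x => 2 ^ 288 * v x) L) =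
      pw 512 (fun x => 2 ^ 288 * mA (φ x) (v x)) L ∧ ∀ x ∈ L, mA (φ x) (v x) < 2 ^ 146 := by
  have h1 := fun x hx => mS_lt (y := φ x) (b := 217) (a0 := 65536) (a := 5932) (j := 17)
    (h0 x hx) (by norm_num)
  have h2 := fun x hx => mS_lt (y := φ x) (b := 218) (a0 := 65536) (a := 12400) (j := 17)
    (h1 x hx) (by norm_num)
  have h3 := fun x hx => mS_lt (y := φ x) (b := 219) (a0 := 65536) (a := 27146) (j := 17)
    (h2 x hx) (by norm_num)
  have h4 := fun x hx => mS_lt (y := φ x) (b := 220) (a0 := 1) (a := 1) (j := 1)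
    (h3 x hx) (by norm_num)
  have h5 := fun x hx => mS_lt (y := φ x) (b := 221) (a0 := 1) (a := 3) (j := 2)
    (h4 x hx) (by norm_num)
  have h6 := fun x hx => mS_lt (y := φ x) (b := 222) (a0 := 1) (a := 15) (j := 4)
    (h5 x hx) (by norm_num)
  have h7 := fun x hx => mS_lt (y := φ x) (b := 223) (a0 := 1) (a := 255) (j := 8)
    (h6 x hx) (by norm_num)
  have h8 := fun x hx => mS_lt (y := φ x) (b := 224) (a0 := 1) (a := 65535) (j := 16)
    (h7 x hx) (by norm_num)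
  have h9 := fun x hx => mS_lt (y := φ x) (b := 225) (a0 := 1) (a := 4294967295) (j := 32)
    (h8 x hx) (by norm_num)
  refine ⟨?_, h9⟩
  show stg _ _ 225 4294967295 (stg _ _ 224 65535 (stg _ _ 223 255 (stg _ _ 222 15 (stg _ _ 221 3
    (stg _ _ 220 1 (stm _ _ 219 27146 (stm _ _ 218 12400 (stm _ _ 217 5932 _)))))))) = _
  rw [stm_pw _ hφ (by norm_num) (by norm_num) h0 (by norm_num),
    stm_pw _ hφ (by norm_num) (by norm_num) h1 (by norm_num),
    stm_pw _ hφ (by norm_num) (by norm_num) h2 (by norm_num),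
    stg_pw _ hφ (by norm_num) (by norm_num) h3 (by norm_num),
    stg_pw _ hφ (by norm_num) (by norm_num) h4 (by norm_num),
    stg_pw _ hφ (by norm_num) (by norm_num) h5 (by norm_num),
    stg_pw _ hφ (by norm_num) (by norm_num) h6 (by norm_num),
    stg_pw _ hφ (by norm_num) (by norm_num) h7 (by norm_num),
    stg_pw _ hφ (by norm_num) (by norm_num) h8 (by norm_num)]
  rfl

theorem sm_pw {L : List α} {v : α → ℕ} (f : α → Bool) (hv : ∀ x ∈ L, v x < 2 ^ 146)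
    (hn : L.length ≤ 128) :
    sm (pw 512 (fun x => 2 ^ 288 * v x) L) (pw 512 (fun x => bn (f x)) L) =
      (L.map fun x => 2 ^ 288 * v x * bn (f x)).sum := by
  have hb : ∀ x, bn (f x) ≤ 1 := fun x => by cases f x <;> decide
  show (pw 512 _ L &&& (pw 512 _ L * (2 ^ 448 - 1))) % (2 ^ 512 - 1) = _
  rw [pw_mul, pw_land (fun x hx => by have := hv x hx; omega) fun x _ => by have := hb x; omega,
    pw_congr fun x hx => mskb (by have := hv x hx; omega) (f x), pw_mod]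
  have := sum_le (B := 2 ^ 434) (L := L) (f := fun x => 2 ^ 288 * v x * bn (f x)) fun x hx => by
    have h1 := hv x hx
    have h2 := Nat.mul_le_mul_left (2 ^ 288 * v x) (hb x)
    omega
  omega

end Pool.Agent.MP_2339ce_nt.Q2.TB.KW
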