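import Pool.Agent.MP_2339ce_nt.Q2.TKWC

/-! Project Q2: `winOK3` implies `winOK`. -/

set_option autoImplicit false
set_option exponentiation.threshold 600

noncomputable section

namespace Pool.Agent.MP_2339ce_nt.Q2.TB

namespace KW

theorem nab_eq (c : ℤ) : nab c = Int.natAbs c := by cases c <;> rfl

theorem sgm_eq (e : ℤ) (a b : ℕ) : (sgm e a b : ℤ) = e.toNat * a + (-e).toNat * b := by
  cases e with
  | ofNat n =>
    have : (-(Int.ofNat n)).toNat = 0 := by rw [Int.ofNat_eq_natCast]; omega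
    rw [this]
    show ((n * a : ℕ) : ℤ) = (n : ℕ) * a + _
    push_cast; ring
  | negSucc n =>
    show (((n + 1) * b : ℕ) : ℤ) = ((0 : ℕ) : ℤ) * a + ((n + 1 : ℕ) : ℤ) * b
    push_cast; ring

def kh : ℕ := f5 (2 ^ 20) (2 ^ 12) (2 ^ 12) (2 ^ 12) (2 ^ 12)

def g5 (a b c d e : ℤ) : ℤ := a + 2 ^ 48 * b + 2 ^ 96 * c + 2 ^ 144 * d + 2 ^ 192 * e

def gL (f : Lf) : ℤ := g5 f.m f.eN (f.ea + (f.eb + f.ec)) (f.eb + f.ec) f.ec

def Bl (f : Lf) : Prop :=
  (-2 ^ 20 ≤ f.m ∧ f.m ≤ 2 ^ 20) ∧ (-2 ^ 10 ≤ f.eN ∧ f.eN ≤ 2 ^ 10) ∧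
  (-2 ^ 10 ≤ f.ea ∧ f.ea ≤ 2 ^ 10) ∧ (-2 ^ 10 ≤ f.eb ∧ f.eb ≤ 2 ^ 10) ∧
  (-2 ^ 10 ≤ f.ec ∧ f.ec ≤ 2 ^ 10)

theorem sg1 {e : ℤ} {a b T X : ℕ} (ha : a = T + X) (hb : b + X = T) :
    (sgm e a b : ℤ) = e * X + (e.natAbs * T : ℕ) := by
  have h1 : (e.natAbs : ℤ) = e.toNat + (-e).toNat := by omega
  have h2 : e = e.toNat - (-e).toNat := by omega
  rw [sgm_eq, Nat.cast_mul, h1, ha, ← hb]
  push_cast
  linear_combination (-(X : ℤ)) * h2

theorem sg2 {e : ℤ} {a b V : ℕ} (h : b ≤ a) (hV : sgm e a b ≤ V) : e.natAbs * b ≤ V := by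
  refine le_trans ?_ hV
  cases e with
  | ofNat n => exact Nat.mul_le_mul_left n h
  | negSucc n => exact le_rfl

theorem hI_ok {f : Lf} (h : okL f = true) : Bl f ∧ (hI f : ℤ) = kh + gL f := by
  obtain ⟨m, eN, ea, eb, ec⟩ := f
  have e : hV ⟨m, eN, ea, eb, ec⟩ = kh + sgm m (2 ^ 240 + 1) (2 ^ 240 - 1) +
    sgm eN (2 ^ 250 + 2 ^ 48) (2 ^ 250 - 2 ^ 48) +
    (sgm ea (2 ^ 250 + 2 ^ 96) (2 ^ 250 - 2 ^ 96) +
    sgm eb (2 ^ 250 + (2 ^ 96 + 2 ^ 144)) (2 ^ 250 - (2 ^ 96 + 2 ^ 144)) +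
    sgm ec (2 ^ 250 + (2 ^ 96 + 2 ^ 144 + 2 ^ 192)) (2 ^ 250 - (2 ^ 96 + 2 ^ 144 + 2 ^ 192))) := rfl
  have h1 : hV ⟨m, eN, ea, eb, ec⟩ ≤ 2 ^ 260 := Nat.le_of_ble_eq_true h
  have e1 : hI ⟨m, eN, ea, eb, ec⟩ = hV ⟨m, eN, ea, eb, ec⟩ % 2 ^ 240 := rfl
  rw [e1]
  rw [e] at h1 ⊢
  have a0 := sg2 (e := m) (a := 2 ^ 240 + 1) (b := 2 ^ 240 - 1) (V := 2 ^ 260) (by norm_num)
    (by omega)
  have a1 := sg2 (e := eN) (a := 2 ^ 250 + 2 ^ 48) (b := 2 ^ 250 - 2 ^ 48) (V := 2 ^ 260)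
    (by norm_num) (by omega)
  have a2 := sg2 (e := ea) (a := 2 ^ 250 + 2 ^ 96) (b := 2 ^ 250 - 2 ^ 96) (V := 2 ^ 260)
    (by norm_num) (by omega)
  have a3 := sg2 (e := eb) (a := 2 ^ 250 + (2 ^ 96 + 2 ^ 144)) (b := 2 ^ 250 - (2 ^ 96 + 2 ^ 144))
    (V := 2 ^ 260) (by norm_num) (by omega)
  have a4 := sg2 (e := ec) (a := 2 ^ 250 + (2 ^ 96 + 2 ^ 144 + 2 ^ 192))
    (b := 2 ^ 250 - (2 ^ 96 + 2 ^ 144 + 2 ^ 192)) (V := 2 ^ 260) (by norm_num) (by omega)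
  have hB : Bl ⟨m, eN, ea, eb, ec⟩ := by
    clear h1 e1 e h
    norm_num at a0 a1 a2 a3 a4
    exact ⟨by show _ ≤ m ∧ m ≤ _; omega, by show _ ≤ eN ∧ eN ≤ _; omega,
      by show _ ≤ ea ∧ ea ≤ _; omega, by show _ ≤ eb ∧ eb ≤ _; omega,
      by show _ ≤ ec ∧ ec ≤ _; omega⟩
  refine ⟨hB, ?_⟩
  obtain ⟨b0, b1, b2, b3, b4⟩ := hB
  have k : ((kh + sgm m (2 ^ 240 + 1) (2 ^ 240 - 1) +
      sgm eN (2 ^ 250 + 2 ^ 48) (2 ^ 250 - 2 ^ 48) +
      (sgm ea (2 ^ 250 + 2 ^ 96) (2 ^ 250 - 2 ^ 96) +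
      sgm eb (2 ^ 250 + (2 ^ 96 + 2 ^ 144)) (2 ^ 250 - (2 ^ 96 + 2 ^ 144)) +
      sgm ec (2 ^ 250 + (2 ^ 96 + 2 ^ 144 + 2 ^ 192))
        (2 ^ 250 - (2 ^ 96 + 2 ^ 144 + 2 ^ 192))) : ℕ) : ℤ) = kh + gL ⟨m, eN, ea, eb, ec⟩ +
      2 ^ 240 * (m.natAbs + 1024 * (eN.natAbs + ea.natAbs + eb.natAbs + ec.natAbs) : ℕ) := by
    simp only [Nat.cast_add]
    rw [sg1 (T := 2 ^ 240) (X := 1) rfl (by norm_num),
      sg1 (T := 2 ^ 250) (X := 2 ^ 48) rfl (by norm_num),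
      sg1 (T := 2 ^ 250) (X := 2 ^ 96) rfl (by norm_num),
      sg1 (T := 2 ^ 250) (X := 2 ^ 96 + 2 ^ 144) rfl (by norm_num),
      sg1 (T := 2 ^ 250) (X := 2 ^ 96 + 2 ^ 144 + 2 ^ 192) rfl (by norm_num)]
    unfold gL g5
    push_cast
    ring
  have l : 0 ≤ kh + gL ⟨m, eN, ea, eb, ec⟩ ∧ kh + gL ⟨m, eN, ea, eb, ec⟩ < 2 ^ 240 := by
    clear k a0 a1 a2 a3 a4 h1 e1 e h
    simp only [gL, g5, kh, f5] at *
    omega
  rw [Int.natCast_mod, k]
  push_cast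
  rw [show (1766847064778384329583297500742918515827483896875618958121606201292619776 : ℤ) = 2 ^ 240
    by norm_num, Int.add_mul_emod_self_left, Int.emod_eq_of_lt l.1 l.2]

theorem okB_ok {X : Bx} (h : okB X = true) :
    X.fp = false ∧ X.fq = false ∧ X.fw = false ∧ Sm X ∧ dom X = true := by
  obtain ⟨L1, L2, p1, p2, q1, q2, w1, w2, fp, fq, fw⟩ := X
  cases fp <;> cases fq <;> cases fw <;> first | cases h | skip
  obtain ⟨h1, h2⟩ := brec h
  exact ⟨rfl, rfl, rfl, Nat.le_of_ble_eq_true h1, h2⟩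

theorem r4_eq (L p q w : ℕ) : r4 L p q w = f5 w q p L 1 := by
  show w + q <<< 48 + p <<< 96 + (L <<< 144 + 2 ^ 192) = _
  simp only [Nat.shiftLeft_eq, f5]
  ring

def Sn (t : Tm) : Prop := t.i + t.j + (t.k + t.l) + t.m ≤ 255

theorem okS_ok {t : Tm} (h : okS t = true) : Sn t := Nat.le_of_ble_eq_true h

theorem okT_ok {t : Tm} (h : okT t = true) : Sn t ∧ Int.natAbs t.c < 2 ^ 32 := by
  have h1 : (t.i + t.j + (t.k + t.l) + t.m) <<< 24 + nab t.c ≤ 4294967295 :=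
    Nat.le_of_ble_eq_true h
  rw [Nat.shiftLeft_eq, nab_eq] at h1
  unfold Sn
  omega

theorem okA_ok {L : List Tm} (h : okA L = true) : ∀ t ∈ L, okT t = true := by
  induction L with
  | nil => intro t ht; cases ht
  | cons a L ih =>
    obtain ⟨h1, h2⟩ := brec h
    rw [List.forall_mem_cons]
    exact ⟨h1, ih h2⟩

theorem aT_eq {t : Tm} (h : Sn t) : (aT t : ℤ) = g5 (2400 * t.m) (2 ^ 20 - 12 * t.m)
    (6 * (t.i + t.j + t.k)) (6 * (t.j + t.k)) (6 * t.k) + 2 ^ 240 * t.l := by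
  have e : aT t = 2 ^ 68 + t.i * (6 * 2 ^ 96) + t.j * (6 * (2 ^ 96 + 2 ^ 144)) +
    (t.k * (6 * (2 ^ 96 + 2 ^ 144 + 2 ^ 192)) + t.l <<< 240) - t.m * (12 * 2 ^ 48 - 2400) := rfl
  rw [e, Nat.shiftLeft_eq]
  unfold Sn at h
  unfold g5
  norm_num
  omega

theorem pkA_eq (f : Tm → ℕ) (L : List Tm) (z : ℕ) :
    pkA f L z = pw 512 f L + z <<< (L.length * 512) := by
  induction L with
  | nil => simp [pkA, pw]
  | cons a L ih =>
    show f a + pkA f L z <<< 512 = _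
    rw [ih, pw, Nat.shiftLeft_eq, Nat.shiftLeft_eq, Nat.shiftLeft_eq, List.length_cons,
      Nat.succ_mul, pow_add]
    ring

theorem cnA_eq (L : List Tm) (z : ℕ) : cnA L z = L.length + z := by
  induction L with
  | nil => exact (Nat.zero_add z).symm
  | cons a L ih =>
    show cnA L z + 1 = L.length + 1 + z
    omega

theorem cn_eq (C : CF) : cn C = C.P.length + C.E.length := by
  rw [cn, cnA_eq, cnA_eq]
  rfl

/-- a lane: a term, the term to which it is compared, lower bound or not, second test or not -/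
structure Ln where
  t : Tm
  s : Tm
  f : Bool
  p : Bool

def u1 (C : CF) (t : Tm) : Ln := ⟨t, oo C, false, false⟩
def u2 (s : Tm) (g : Bool) (t : Tm) : Ln := ⟨t, s, xg g t, true⟩
def u3 (s t : Tm) : Ln := ⟨t, s, false, true⟩

def LL (C : CF) (s : Tm) (g : Bool) : List Ln :=
  (C.P.map (u1 C) ++ C.E.map (u1 C)) ++ (C.P.map (u2 s g) ++ C.E.map (u3 s))

theorem pw_map (φ : Ln → ℕ) (u : Tm → Ln) (L : List Tm) :
    pw 512 φ (L.map u) = pw 512 (fun t => φ (u t)) L := by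
  induction L with
  | nil => rfl
  | cons a L ih => rw [List.map_cons, pw, pw, ih]

def hf2 (C : CF) (a b : Tm → ℕ) : ℕ := pw 512 a C.P + pw 512 b C.E <<< (C.P.length * 512)

theorem pw_LL (C : CF) (s : Tm) (g : Bool) (φ : Ln → ℕ) : pw 512 φ (LL C s g) =
    dbl C (hf2 C (fun t => φ (u1 C t)) fun t => φ (u1 C t))
      (hf2 C (fun t => φ (u2 s g t)) fun t => φ (u3 s t)) := by
  rw [LL, pw_append, pw_append, pw_append, pw_map, pw_map, pw_map, pw_map, List.length_append,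
    List.length_map, List.length_map, List.length_map, ← cn_eq]
  rfl

theorem pw_nil (L : List Tm) : pw 512 (fun _ => 0) L = 0 := by
  induction L with
  | nil => rfl
  | cons a L ih => rw [pw, ih]; rfl

theorem hf2_c (C : CF) (c : ℕ) : hf2 C (fun _ => c) (fun _ => c) = o1 C * c := by
  have e : o1 C = (1 <<< (cn C * 512) - 1) / (2 ^ 512 - 1) := rfl
  rw [e, cn_eq, ← List.length_append, pw_one (by norm_num), pw_mul, pw_append]
  simp only [Nat.one_mul]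
  rfl

theorem r1_eq (C : CF) : r1 C = hf2 C rT rT := by
  rw [r1, pkA_eq, pkA_eq]
  show _ + (_ + 0 <<< _) <<< _ = _
  rw [Nat.zero_shiftLeft]
  rfl

section
variable (C : CF) (s : Tm) (g : Bool)

theorem o2_eq : o2 C = pw 512 (fun _ => 1) (LL C s g) := by
  rw [pw_LL, hf2_c, Nat.mul_one]
  rfl

theorem o1_eq : o1 C = pw 512 (fun a => bn (!a.p)) (LL C s g) := by
  rw [pw_LL]
  show _ = dbl C (hf2 C (fun _ => 1) fun _ => 1) (hf2 C (fun _ => 0) fun _ => 0)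
  rw [hf2_c, hf2_c, Nat.mul_one, Nat.mul_zero]
  show _ = _ + 0 <<< _
  rw [Nat.zero_shiftLeft]
  rfl

theorem o3_eq : o1 C <<< shf C = pw 512 (fun a => bn a.p) (LL C s g) := by
  rw [pw_LL]
  show _ = dbl C (hf2 C (fun _ => 0) fun _ => 0) (hf2 C (fun _ => 1) fun _ => 1)
  rw [hf2_c, hf2_c, Nat.mul_one, Nat.mul_zero]
  exact (Nat.zero_add _).symm

theorem r2_eq : dbl C (r1 C) (r1 C) = pw 512 (fun a => rT a.t) (LL C s g) := by
  rw [pw_LL, r1_eq]
  rfl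

theorem fl_eq : fl C g = pw 512 (fun a => bn a.f) (LL C s g) := by
  rw [pw_LL, fl, pkA_eq]
  show (_ + 0 <<< _) <<< _ = dbl C (hf2 C (fun _ => 0) fun _ => 0)
    (pw 512 (fun t => bn (xg g t)) C.P + pw 512 (fun _ => 0) C.E <<< _)
  rw [hf2_c, Nat.mul_zero, pw_nil]
  exact (Nat.zero_add _).symm

theorem sa_eq : dbl C (o1 C * aT (oo C)) (o1 C * aT s) = pw 512 (fun a => aT a.s) (LL C s g) := by
  rw [pw_LL, ← hf2_c, ← hf2_c]
  rfl

theorem sum_LL (φ : Ln → ℕ) : ((LL C s g).map φ).sum =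
    (C.P.map fun t => φ (u1 C t)).sum + (C.E.map fun t => φ (u1 C t)).sum +
      ((C.P.map fun t => φ (u2 s g t)).sum + (C.E.map fun t => φ (u3 s t)).sum) := by
  simp only [LL, List.map_append, List.sum_append, List.map_map]
  rfl

end

def Gd (a : Ln) : Prop := Sn a.t ∧ Sn a.s ∧ Int.natAbs a.t.c < 2 ^ 32 ∧ bn a.f ≤ bn a.p

theorem gd_LL {C : CF} {s : Tm} (g : Bool) (hC : okC C = true) (hs : okS s = true) :
    (∀ a ∈ LL C s g, Gd a) ∧ C.P.length + C.E.length ≤ 64 := by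
  obtain ⟨h1, hC⟩ := brec hC
  obtain ⟨h2, hC⟩ := brec hC
  obtain ⟨h3, h4⟩ := brec hC
  refine ⟨fun a ha => ?_, cn_eq C ▸ Nat.le_of_ble_eq_true h3⟩
  simp only [LL, List.mem_append, List.mem_map] at ha
  rcases ha with (⟨t, ht, rfl⟩ | ⟨t, ht, rfl⟩) | (⟨t, ht, rfl⟩ | ⟨t, ht, rfl⟩)
  · exact ⟨(okT_ok (okA_ok h1 t ht)).1, okS_ok h4, (okT_ok (okA_ok h1 t ht)).2, le_rfl⟩
  · exact ⟨(okT_ok (okA_ok h2 t ht)).1, okS_ok h4, (okT_ok (okA_ok h2 t ht)).2, le_rfl⟩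
  · exact ⟨(okT_ok (okA_ok h1 t ht)).1, okS_ok hs, (okT_ok (okA_ok h1 t ht)).2, bn_le _⟩
  · exact ⟨(okT_ok (okA_ok h2 t ht)).1, okS_ok hs, (okT_ok (okA_ok h2 t ht)).2, Nat.zero_le _⟩

def sg (f : Bool) (x y : ℕ) : ℤ := @Bool.rec (fun _ => ℤ) (x - y) (y - x) f

def dP (a : Ln) : ℕ := (sg a.f a.s.l a.t.l).toNat
def dM (a : Ln) : ℕ := (-sg a.f a.s.l a.t.l).toNat

def k6 : ℕ := k5 + 2 ^ 248

def bzL (a : Ln) : ℕ :=
  k6 + aT a.s + aT a.t * bn a.f * 2 - (aT a.t + aT a.s * bn a.f * 2)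

def zL (a : Ln) : ℕ := (256 + sg a.f a.s.l a.t.l).toNat

def bL (a : Ln) : ℕ := bzL a - 2 ^ 240 * zL a + dM a * kh - dP a * kh

def gD (a : Ln) : ℤ :=
  g5 (2400 * sg a.f a.s.m a.t.m) (-12 * sg a.f a.s.m a.t.m)
    (6 * (sg a.f a.s.i a.t.i + sg a.f a.s.j a.t.j + sg a.f a.s.k a.t.k))
    (6 * (sg a.f a.s.j a.t.j + sg a.f a.s.k a.t.k)) (6 * sg a.f a.s.k a.t.k)

theorem aT_lt {t : Tm} (h : Sn t) : aT t < 2 ^ 248 := by
  have := aT_eq h
  unfold Sn at h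
  unfold g5 at this
  omega

theorem sg_bd {x y : ℕ} (f : Bool) (hx : x ≤ 255) (hy : y ≤ 255) :
    -255 ≤ sg f x y ∧ sg f x y ≤ 255 := by
  cases f <;> simp only [sg] <;> omega

theorem bz_lane {a : Ln} (h : Gd a) :
    aT a.t + aT a.s * bn a.f * 2 ≤ k6 + aT a.s + aT a.t * bn a.f * 2 ∧
    (bzL a : ℤ) = k5 + gD a + 2 ^ 240 * zL a ∧ 2 ^ 231 ≤ k5 + gD a ∧ k5 + gD a < 2 ^ 240 ∧
    (-255 ≤ sg a.f a.s.l a.t.l ∧ sg a.f a.s.l a.t.l ≤ 255) := by
  obtain ⟨ht, hs, -, -⟩ := h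
  have a1 := aT_lt ht
  have a2 := aT_lt hs
  have e1 := aT_eq ht
  have e2 := aT_eq hs
  unfold Sn at ht hs
  have b1 := sg_bd a.f (x := a.s.i) (y := a.t.i) (by omega) (by omega)
  have b2 := sg_bd a.f (x := a.s.j) (y := a.t.j) (by omega) (by omega)
  have b3 := sg_bd a.f (x := a.s.k) (y := a.t.k) (by omega) (by omega)
  have b4 := sg_bd a.f (x := a.s.l) (y := a.t.l) (by omega) (by omega)
  have b5 := sg_bd a.f (x := a.s.m) (y := a.t.m) (by omega) (by omega)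
  have c1 : aT a.t + aT a.s * bn a.f * 2 ≤ k6 + aT a.s + aT a.t * bn a.f * 2 := by
    unfold k6
    cases a.f <;> simp only [bn] <;> omega
  refine ⟨c1, ?_, ?_, ?_, b4⟩
  · have e3 : (zL a : ℤ) = 256 + sg a.f a.s.l a.t.l := by unfold zL; omega
    rw [e3, bzL, Nat.cast_sub c1, gD]
    push_cast
    rw [e1, e2]
    unfold k6 g5
    cases a.f <;> simp only [bn, sg] <;> push_cast <;> ring
  · simp only [gD, g5, k5, f5]
    omega
  · simp only [gD, g5, k5, f5]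
    omega

theorem triple {C : CF} {s : Tm} {g : Bool} (h : ∀ a ∈ LL C s g, Gd a) :
    cv C = pw 512 (fun a => 2 ^ 288 * Int.natAbs a.t.c) (LL C s g) ∧
    dp C s g = pw 512 dP (LL C s g) ∧ dm C s g = pw 512 dM (LL C s g) ∧
    base C s g = pw 512 bL (LL C s g) := by
  have hr : ∀ t : Tm, rT t = aT t + 2 ^ 288 * Int.natAbs t.c := fun t => by
    rw [← nab_eq, Nat.mul_comm, ← Nat.shiftLeft_eq]
    rfl
  have ht := fun a ha => aT_lt (h a ha).1
  have hs := fun a ha => aT_lt (h a ha).2.1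
  have hb : ∀ a : Ln, bn a.f * (2 ^ 288 - 1) < 2 ^ 512 := fun a => by
    have := bn_le a.f
    omega
  have e1 : av C = pw 512 (fun a => aT a.t) (LL C s g) := by
    show dbl C _ _ &&& (o2 C * (2 ^ 288 - 1)) = _
    rw [r2_eq C s g, o2_eq C s g, pw_mul, pw_land _ fun _ _ => by norm_num]
    · refine pw_congr fun a ha => ?_
      have := ht a ha
      rw [Nat.one_mul, Nat.and_two_pow_sub_one_eq_mod, hr, Nat.add_mul_mod_self_left,
        Nat.mod_eq_of_lt (by omega)]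
    · intro a ha
      have := ht a ha
      have := (h a ha).2.2.1
      rw [hr]
      omega
  have e2 : bz C s g = pw 512 bzL (LL C s g) := by
    show o2 C * k6 + dbl C (o1 C * _) (o1 C * _) + (av C &&& (fl C g * (2 ^ 288 - 1))) * 2 -
      (av C + (dbl C (o1 C * _) (o1 C * _) &&& (fl C g * (2 ^ 288 - 1))) * 2) = _
    rw [sa_eq C s g, o2_eq C s g, e1, fl_eq C s g, pw_mul, pw_mul,
      pw_land (fun a ha => by have := ht a ha; omega) fun a _ => hb a,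
      pw_land (fun a ha => by have := hs a ha; omega) fun a _ => hb a,
      pw_congr fun a ha => mskb ((ht a ha).trans (by norm_num : 2 ^ 248 < 2 ^ 288)) a.f,
      pw_congr fun a ha => mskb ((hs a ha).trans (by norm_num : 2 ^ 248 < 2 ^ 288)) a.f,
      pw_mul, pw_mul, pw_add, pw_add, pw_add]
    simp only [Nat.one_mul]
    exact pw_sub fun a ha => (bz_lane (h a ha)).1
  have hz : ∀ a ∈ LL C s g, zL a < 2 * 2 ^ 8 := fun a ha => by
    have := (bz_lane (h a ha)).2.2.2.2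
    unfold zL
    omega
  have e3 : dz1 C s g = pw 512 (fun a => 2 ^ 240 * zL a) (LL C s g) := by
    show bz C s g &&& (o2 C * (2 ^ 240 * (2 ^ 48 - 1))) = _
    rw [e2, o2_eq C s g, pw_mul, pw_land _ fun _ _ => by norm_num]
    · refine pw_congr fun a ha => ?_
      obtain ⟨-, a1, a2, a3, -⟩ := bz_lane (h a ha)
      have := hz a ha
      rw [Nat.one_mul, fld]
      congr 1
      omega
    · intro a ha
      obtain ⟨-, a1, a2, a3, -⟩ := bz_lane (h a ha)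
      have := hz a ha
      omega
  have e4 : dz C s g = pw 512 zL (LL C s g) := by
    show dz1 C s g >>> 240 = _
    rw [e3, pw_shr fun a _ => Dvd.intro _ rfl]
    exact pw_congr fun a _ => by
      rw [Nat.shiftRight_eq_div_pow, Nat.mul_div_cancel_left _ (by norm_num)]
  have e5 : dp C s g = pw 512 dP (LL C s g) := by
    show relu (dz C s g) (o2 C <<< 8) 8 = _
    rw [e4, o2_eq C s g, pw_shl, relu_pw (fun a ha => by have := hz a ha; omega)
      (fun _ _ => by norm_num) fun _ _ => by norm_num]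
    refine pw_congr fun a ha => ?_
    rw [Nat.one_mul, relu0 8 _ (hz a ha)]
    unfold zL dP
    omega
  have e6 : dm C s g = pw 512 dM (LL C s g) := by
    show dp C s g + o2 C <<< 8 - dz C s g = _
    rw [e5, e4, o2_eq C s g, pw_shl, pw_add, pw_sub]
    · refine pw_congr fun a ha => ?_
      have := (bz_lane (h a ha)).2.2.2.2
      unfold zL dP dM
      omega
    · intro a ha
      unfold zL dP
      omega
  refine ⟨?_, e5, e6, ?_⟩
  · show dbl C _ _ - av C = _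
    rw [r2_eq C s g, e1, pw_sub fun a _ => by rw [hr]; omega]
    exact pw_congr fun a _ => by rw [hr]; omega
  · show bz C s g - dz1 C s g + dm C s g * kh - dp C s g * kh = _
    rw [e2, e3, e5, e6, pw_sub, pw_mul, pw_mul, pw_add, pw_sub]
    · rfl
    · intro a ha
      obtain ⟨-, a1, a2, a3, a4⟩ := bz_lane (h a ha)
      have : dP a ≤ 255 := by unfold dP; omega
      have : dP a * kh ≤ 255 * kh := Nat.mul_le_mul_right _ this
      have : 255 * kh ≤ 2 ^ 231 := by decide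
      omega
    · intro a ha
      obtain ⟨-, a1, a2, a3, a4⟩ := bz_lane (h a ha)
      omega

theorem bL_eq {a : Ln} (h : Gd a) : (bL a : ℤ) = k5 + gD a + dM a * kh - dP a * kh := by
  obtain ⟨-, a1, a2, a3, a4⟩ := bz_lane h
  have : dP a ≤ 255 := by unfold dP; omega
  have : dP a * kh ≤ 255 * kh := Nat.mul_le_mul_right _ this
  have : 255 * kh ≤ 2 ^ 231 := by decide
  rw [← Nat.cast_mul, ← Nat.cast_mul]
  unfold bL
  omega

def YY (lo hi : Lf) (a : Ln) : Lf :=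
  @Bool.rec (fun _ => Lf) (fq lo hi a.s a.t) (fq hi lo a.s a.t).neg a.f

theorem fq_co (x y : Lf) (s t : Tm) (u v : ℤ) (hu : u = ((s.l : ℤ) - t.l).toNat)
    (hv : v = (-((s.l : ℤ) - t.l)).toNat) :
    (fq x y s t).m = 2400 * ((s.m : ℤ) - t.m) + u * y.m - v * x.m ∧
    (fq x y s t).eN = -12 * ((s.m : ℤ) - t.m) + u * y.eN - v * x.eN ∧
    (fq x y s t).ea = 6 * ((s.i : ℤ) - t.i) + u * y.ea - v * x.ea ∧
    (fq x y s t).eb = 6 * ((s.j : ℤ) - t.j) + u * y.eb - v * x.eb ∧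
    (fq x y s t).ec = 6 * ((s.k : ℤ) - t.k) + u * y.ec - v * x.ec := by
  obtain ⟨e0, e1, e2, e3, e4⟩ := Fast.fq2_co (@Bool.rec (fun _ => Lf) y x (Nat.ble s.l t.l))
    (Int.subNatNat s.l t.l) s t (fq x y s t) rfl
  rw [e0, e1, e2, e3, e4, Int.subNatNat_eq_coe]
  cases h1 : Nat.ble s.l t.l with
  | true =>
    have h2 := Nat.le_of_ble_eq_true h1
    have h3 : u = 0 := by omega
    have h4 : v = -((s.l : ℤ) - t.l) := by omega
    rw [h3, h4]
    refine ⟨?_, ?_, ?_, ?_, ?_⟩ <;> ring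
  | false =>
    have h2 : ¬ s.l ≤ t.l := fun h3 => by rw [Nat.ble_eq_true_of_le h3] at h1; cases h1
    have h3 : u = (s.l : ℤ) - t.l := by omega
    have h4 : v = 0 := by omega
    rw [h3, h4]
    refine ⟨?_, ?_, ?_, ?_, ?_⟩ <;> ring

theorem YY_co (lo hi : Lf) (a : Ln) :
    (YY lo hi a).m = 2400 * sg a.f a.s.m a.t.m + dP a * hi.m - dM a * lo.m ∧
    (YY lo hi a).eN = -12 * sg a.f a.s.m a.t.m + dP a * hi.eN - dM a * lo.eN ∧
    (YY lo hi a).ea = 6 * sg a.f a.s.i a.t.i + dP a * hi.ea - dM a * lo.ea ∧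
    (YY lo hi a).eb = 6 * sg a.f a.s.j a.t.j + dP a * hi.eb - dM a * lo.eb ∧
    (YY lo hi a).ec = 6 * sg a.f a.s.k a.t.k + dP a * hi.ec - dM a * lo.ec := by
  obtain ⟨t, s, f, p⟩ := a
  cases f
  · exact fq_co lo hi s t _ _ rfl rfl
  · obtain ⟨e0, e1, e2, e3, e4⟩ := fq_co hi lo s t (dM ⟨t, s, true, p⟩) (dP ⟨t, s, true, p⟩)
      (by simp only [dM, sg, neg_sub]) (by simp only [dP, sg, neg_sub])
    refine ⟨?_, ?_, ?_, ?_, ?_⟩
    · show -(fq hi lo s t).m = _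
      rw [e0]; simp only [sg]; ring
    · show -(fq hi lo s t).eN = _
      rw [e1]; simp only [sg]; ring
    · show -(fq hi lo s t).ea = _
      rw [e2]; simp only [sg]; ring
    · show -(fq hi lo s t).eb = _
      rw [e3]; simp only [sg]; ring
    · show -(fq hi lo s t).ec = _
      rw [e4]; simp only [sg]; ring

theorem mb {u v : ℕ} {x y B : ℤ} (h : u + v ≤ 255) (hx : -B ≤ x ∧ x ≤ B) (hy : -B ≤ y ∧ y ≤ B) :
    -(255 * B) ≤ u * x - v * y ∧ u * x - v * y ≤ 255 * B := by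
  have hu : (0 : ℤ) ≤ u := Int.natCast_nonneg u
  have hv : (0 : ℤ) ≤ v := Int.natCast_nonneg v
  have h1 : (u : ℤ) + v ≤ 255 := by omega
  have h2 : 0 ≤ B := by omega
  have := mul_le_mul_of_nonneg_left hx.1 hu
  have := mul_le_mul_of_nonneg_left hx.2 hu
  have := mul_le_mul_of_nonneg_left hy.1 hv
  have := mul_le_mul_of_nonneg_left hy.2 hv
  have := mul_le_mul_of_nonneg_right h1 h2
  constructor <;> linarith

theorem e_lane {lo hi : Lf} {a : Ln} (h : Gd a) (hl : okL lo = true) (hh : okL hi = true) :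
    Bd (YY lo hi a) ∧ dM a * hI lo ≤ bL a + dP a * hI hi ∧
      bL a + dP a * hI hi - dM a * hI lo = eL (YY lo hi a) := by
  obtain ⟨⟨l0, l1, l2, l3, l4⟩, el⟩ := hI_ok hl
  obtain ⟨⟨h0, h1, h2, h3, h4⟩, eh⟩ := hI_ok hh
  obtain ⟨e0, e1, e2, e3, e4⟩ := YY_co lo hi a
  have eb := bL_eq h
  obtain ⟨ht, hs, -, -⟩ := h
  unfold Sn at ht hs
  have b1 := sg_bd a.f (x := a.s.i) (y := a.t.i) (by omega) (by omega)
  have b2 := sg_bd a.f (x := a.s.j) (y := a.t.j) (by omega) (by omega)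
  have b3 := sg_bd a.f (x := a.s.k) (y := a.t.k) (by omega) (by omega)
  have b4 := sg_bd a.f (x := a.s.l) (y := a.t.l) (by omega) (by omega)
  have b5 := sg_bd a.f (x := a.s.m) (y := a.t.m) (by omega) (by omega)
  have hd : dP a + dM a ≤ 255 := by unfold dP dM; omega
  have hB : Bd (YY lo hi a) := by
    have m0 := mb hd h0 l0
    have m1 := mb hd h1 l1
    have m2 := mb hd h2 l2
    have m3 := mb hd h3 l3
    have m4 := mb hd h4 l4
    unfold Bd
    rw [e0, e1, e2, e3, e4]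
    refine ⟨⟨?_, ?_⟩, ⟨?_, ?_⟩, ⟨?_, ?_⟩, ⟨?_, ?_⟩, ⟨?_, ?_⟩⟩ <;> linarith [m0.1, m0.2, m1.1, m1.2,
      m2.1, m2.2, m3.1, m3.2, m4.1, m4.2, b1.1, b1.2, b2.1, b2.2, b3.1, b3.2, b5.1, b5.2]
  have k1 : ((bL a + dP a * hI hi : ℕ) : ℤ) = (dM a * hI lo : ℕ) + (k5 + gL (YY lo hi a)) := by
    push_cast
    rw [eb, el, eh]
    unfold gL gD g5
    rw [e0, e1, e2, e3, e4]
    ring
  have k2 : (eL (YY lo hi a) : ℤ) = k5 + gL (YY lo hi a) := by
    obtain ⟨c0, c1, c2, c3, c4⟩ := hB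
    simp only [eL, fL, f5, k5, gL, g5]
    push_cast
    rw [Int.toNat_of_nonneg (by omega), Int.toNat_of_nonneg (by omega),
      Int.toNat_of_nonneg (by omega), Int.toNat_of_nonneg (by omega),
      Int.toNat_of_nonneg (by omega)]
    ring
  refine ⟨hB, ?_, ?_⟩ <;> omega

theorem sumU_eq (X : Bx) (lo hi : Lf) (s : Tm) (L : List Tm) : sumU X lo hi s L =
    (L.map fun t => ubT X (Int.natAbs t.c) (fq lo hi s t)).sum := by
  induction L with
  | nil => rfl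
  | cons t L ih => exact congrArg (Nat.add _) ih

theorem pick_cons (g : Bool) (t : Tm) (L : List Tm) : pick g (t :: L) =
    @Bool.rec (fun _ => List Tm) (pick g L) (t :: pick g L) (xg g t) := rfl

theorem xg_not (g : Bool) (t : Tm) : xg (!g) t = !xg g t := by
  cases g
  · exact (Bool.not_not _).symm
  · rfl

theorem su1 {X : Bx} {lo hi : Lf} {s : Tm} {v w : Tm → ℕ} {L : List Tm}
    (h : ∀ t ∈ L, ubT X (Int.natAbs t.c) (fq lo hi s t) * 2 ^ 40 ≤ 2 ^ 40 + v t)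
    (hw : ∀ t, w t = 2 ^ 288 * v t * 1) :
    sumU X lo hi s L * 2 ^ 328 ≤ L.length * 2 ^ 328 + (L.map w).sum := by
  induction L with
  | nil => exact (Nat.zero_mul _).le.trans (Nat.zero_le _)
  | cons t L ih =>
    rw [List.forall_mem_cons] at h
    have h1 := ih h.2
    have h2 := h.1
    show (ubT X (Int.natAbs t.c) (fq lo hi s t) + sumU X lo hi s L) * _ ≤ _
    rw [List.map_cons, List.sum_cons, List.length_cons, hw]
    linarith

theorem su2 {X : Bx} {lo hi : Lf} {s : Tm} {g : Bool} {v : Tm → ℕ} {L : List Tm}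
    (h : ∀ t ∈ L, (xg g t = false →
      ubT X (Int.natAbs t.c) (fq lo hi s t) * 2 ^ 40 ≤ 2 ^ 40 + v t) ∧ (xg g t = true →
      v t * 32768 ≤ (lbT X (Int.natAbs t.c) (fq hi lo s t) + 1 + 256 * Int.natAbs t.c) * 2 ^ 40 *
        32769)) : ∃ n m, n + m = L.length ∧ sumU X lo hi s (pick (!g) L) * 2 ^ 328 ≤
      n * 2 ^ 328 + (L.map fun t => 2 ^ 288 * v t * bn (!xg g t)).sum ∧
      (L.map fun t => 2 ^ 288 * v t * bn (xg g t)).sum * 32768 ≤
        ((sumL X lo hi s (pick g L) + m) * 2 ^ 328 +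
          (L.map fun t => 2 ^ 288 * Int.natAbs t.c).sum * 2 ^ 48) * 32769 := by
  induction L with
  | nil => exact ⟨0, 0, rfl, (Nat.zero_mul _).le.trans (Nat.zero_le _),
      (Nat.zero_mul _).le.trans (Nat.zero_le _)⟩
  | cons t L ih =>
    rw [List.forall_mem_cons] at h
    obtain ⟨n, m, h0, h1, h2⟩ := ih h.2
    simp only [List.map_cons, List.sum_cons, List.length_cons, pick_cons, xg_not]
    cases hx : xg g t
    · have h3 := h.1.1 hx
      refine ⟨n + 1, m, by omega, ?_, ?_⟩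
      · show (ubT X (Int.natAbs t.c) (fq lo hi s t) + sumU X lo hi s _) * _ ≤ _ + (_ * 1 + _)
        linarith
      · show (_ * 0 + _) * _ ≤ ((sumL X lo hi s (pick g L) + m) * _ + _) * _
        linarith [Nat.zero_le (Int.natAbs t.c)]
    · have h3 := h.1.2 hx
      refine ⟨n, m + 1, by omega, ?_, ?_⟩
      · show sumU X lo hi s (pick (!g) L) * _ ≤ _ + (_ * 0 + _)
        linarith
      · show (_ * 1 + _) * _ ≤
          ((lbT X (Int.natAbs t.c) (fq hi lo s t) + sumL X lo hi s _ + _) * _ + _) * _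
        linarith

theorem sum0 (L : List Tm) (v : Tm → ℕ) : (L.map fun t => v t * 0).sum = 0 := by simp

theorem winF_ok {C : CF} {X : Bx} {lo hi : Lf} {s : Tm} {g : Bool}
    (h : winF C X lo hi s g = true) : winOK C X lo hi s g = true := by
  obtain ⟨hB, h⟩ := brec h
  obtain ⟨hC, h⟩ := brec h
  obtain ⟨hs, h⟩ := brec h
  obtain ⟨hl, h⟩ := brec h
  obtain ⟨hh, h⟩ := brec h
  obtain ⟨hb, h⟩ := brec h
  obtain ⟨f1, f2, f3, hX, hd⟩ := okB_ok hB
  obtain ⟨hG, hn⟩ := gd_LL g hC hs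
  obtain ⟨e1, e2, e3, e4⟩ := triple hG
  have hn2 : (LL C s g).length ≤ 128 := by
    simp only [LL, List.length_append, List.length_map]
    omega
  have eH : rH X = f5 X.w2 X.q2 X.p2 X.L2 1 := r4_eq _ _ _ _
  have eL' : rL X = f5 X.w1 X.q1 X.p1 X.L1 1 := r4_eq _ _ _ _
  have eK : kk C = ((LL C s g).map fun a => 2 ^ 288 * Int.natAbs a.t.c).sum * 2 ^ 48 + 2 ^ 335 := by
    show (cv C % (2 ^ 512 - 1)) <<< 48 + 2 ^ 335 = _
    rw [e1, pw_mod, Nat.shiftLeft_eq]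
    have := sum_le (B := 2 ^ 320) (L := LL C s g) (f := fun a => 2 ^ 288 * Int.natAbs a.t.c)
      fun a ha => by have := (hG a ha).2.2.1; omega
    omega
  change co1 _ _ (base C s g + dp C s g * _ - dm C s g * _) _ _ _ _ (o1 C <<< shf C - _) _ = true
    at h
  rw [o3_eq C s g, e1, e2, e3, e4, eH, eL', o2_eq C s g, o1_eq C s g, fl_eq C s g, pw_mul, pw_mul,
    pw_add, pw_sub fun a ha => (e_lane (hG a ha) hl hh).2.1,
    pw_congr fun a ha => (e_lane (hG a ha) hl hh).2.2, pw_sub fun a ha => (hG a ha).2.2.2,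
    pw_congr (f := fun a : Ln => bn a.p - bn a.f) (g := fun a => bn (a.p && !a.f))
      fun a _ => by cases a.p <;> cases a.f <;> rfl] at h
  obtain ⟨v, hv, a1, a2, a3⟩ := co1_ok _ _ _ _ hX (fun a ha => (e_lane (hG a ha) hl hh).1)
    (fun a ha => (hG a ha).2.2.1) hn2 h
  have nb : ∀ f : Lf, bad X f = false := fun f => by
    unfold bad bad3
    rw [f1, f2, f3]
    rfl
  have eU : ∀ c f, ubT X c f = ubX c (sup X f) := fun c f => by rw [ubT, nb]
  have eL2 : ∀ c f, lbT X c f = lbX c (Int.neg (sup X f.neg)) := fun c f => by rw [lbT, nb]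
  have m1 : ∀ t ∈ C.P, u1 C t ∈ LL C s g := fun t ht => List.mem_append_left _
    (List.mem_append_left _ (List.mem_map_of_mem ht))
  have m2 : ∀ t ∈ C.E, u1 C t ∈ LL C s g := fun t ht => List.mem_append_left _
    (List.mem_append_right _ (List.mem_map_of_mem ht))
  have m3 : ∀ t ∈ C.P, u2 s g t ∈ LL C s g := fun t ht => List.mem_append_right _
    (List.mem_append_left _ (List.mem_map_of_mem ht))
  have m4 : ∀ t ∈ C.E, u3 s t ∈ LL C s g := fun t ht => List.mem_append_right _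
    (List.mem_append_right _ (List.mem_map_of_mem ht))
  have s1 := su1 (X := X) (lo := lo) (hi := hi) (s := oo C) (v := fun t => v (u1 C t)) (L := C.P)
    (fun t ht => by rw [eU]; exact (hv _ (m1 t ht)).1 rfl) fun _ => rfl
  have s2 := su1 (X := X) (lo := lo) (hi := hi) (s := oo C) (v := fun t => v (u1 C t)) (L := C.E)
    (fun t ht => by rw [eU]; exact (hv _ (m2 t ht)).1 rfl) fun _ => rfl
  have s4 := su1 (X := X) (lo := lo) (hi := hi) (s := s) (v := fun t => v (u3 s t)) (L := C.E)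
    (fun t ht => by rw [eU]; exact (hv _ (m4 t ht)).1 rfl) fun _ => rfl
  obtain ⟨n, m, h0, s3, s5⟩ := su2 (X := X) (lo := lo) (hi := hi) (s := s) (g := g)
    (v := fun t => v (u2 s g t)) (L := C.P) fun t ht => by
      have := hv _ (m3 t ht)
      rw [eU, eL2]
      constructor <;> intro hx
      · have e : YY lo hi (u2 s g t) = fq lo hi s t := by simp only [YY, u2, hx]
        have h1 := this.1 hx
        rw [e] at h1
        exact h1
      · have e : YY lo hi (u2 s g t) = (fq hi lo s t).neg := by simp only [YY, u2, hx]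
        have h1 := this.2 hx
        rw [e] at h1
        exact h1
  rw [eK, sum_LL, sum_LL] at a1 a2
  rw [eK, sum_LL, sum_LL, sum_LL] at a3
  change (C.P.map fun t => 2 ^ 288 * v (u1 C t) * 1).sum +
    (C.E.map fun t => 2 ^ 288 * v (u1 C t) * 1).sum + _ + _ ≤ _ at a1
  change _ + ((C.P.map fun t => 2 ^ 288 * v (u2 s g t) * bn (!xg g t)).sum +
    (C.E.map fun t => 2 ^ 288 * v (u3 s t) * 1).sum) + _ ≤ _ at a2
  change (_ + ((C.P.map fun t => 2 ^ 288 * v (u2 s g t) * bn (!xg g t)).sum +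
    (C.E.map fun t => 2 ^ 288 * v (u3 s t) * 1).sum) +
    (((C.P.map fun t => 2 ^ 288 * Int.natAbs t.c).sum + _ + _) * _ + _)) * _ <
    ((C.P.map fun t => 2 ^ 288 * v (u1 C t) * 0).sum +
      (C.E.map fun t => 2 ^ 288 * v (u1 C t) * 0).sum +
      ((C.P.map fun t => 2 ^ 288 * v (u2 s g t) * bn (xg g t)).sum +
        (C.E.map fun t => 2 ^ 288 * v (u3 s t) * 0).sum)) * _ at a3
  rw [sum0, sum0, sum0] at a3
  unfold winOK nzOK
  simp only [Bool.and_eq_true, Nat.blt_eq]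
  refine ⟨⟨hb, ?_⟩, ⟨hd, ?_⟩, ?_⟩
  · show sumU X lo hi (oo C) C.P + sumU X lo hi (oo C) C.E < _
    omega
  · omega
  · omega

end KW

theorem winOK3_ok {C : CF} {X : Bx} {lo hi : Lf} {s : Tm} {g : Bool}
    (h : winOK3 C X lo hi s g = true) : winOK C X lo hi s g = true := by
  unfold winOK3 at h
  cases hf : KW.winF C X lo hi s g with
  | true => exact KW.winF_ok hf
  | false =>
    rw [hf] at h
    exact winOK2_eq ▸ h

end Pool.Agent.MP_2339ce_nt.Q2.TB
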