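import Pool.Agent.MP_2339ce_nt.Q2.TKDef

/-! Project Q2, block TL: the chains are read directly from the numbers. -/

set_option autoImplicit false

noncomputable section

namespace Pool.Agent.MP_2339ce_nt.Q2.TB

def dS (n : ℕ) : Tm := ⟨0, 0, Nat.mod n 256, fx n 8 256, fx n 16 256, fx n 24 256, fx n 32 256⟩

def wdL (P : Pl) (cf : ℕ → CF) (B : Bx) (U : Us) (lo hi : Lf) (n : ℕ) : Bool :=
  frc (fx n 120 65536) fun i => @Bool.rec (fun _ => Bool) (P.hw i B U lo hi)
    (frc (fx n 80 1099511627776) fun s => @Bool.rec (fun _ => Bool)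
      (P.win (cf i) B lo hi (dS s) false) (P.win (cf i) B lo hi (dS s) true) (bt n 144))
    (Nat.beq (fx n 136 256) 0)

/-- a chain of `c` windows; the last bound goes to `k` -/
def chainL (P : Pl) (cf : ℕ → CF) (B : Bx) (U : Us) (k : Lf → Bool) (c : ℕ) : ℕ → Lf → Bool :=
  @Nat.rec (fun _ => ℕ → Lf → Bool) (fun _ lo => k lo) (fun _ ih n lo =>
    frc (Nat.mod n 1208925819614629174706176) fun h => @Bool.rec (fun _ => Bool) false
      (frc (Nat.shiftRight n 160) fun m => ih m (dL h)) (wdL P cf B U lo (dL h) n)) c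

def lvL (P : Pl) (cf : ℕ → CF) (B : Bx) (D : Df) (sm : Bool) (h0 : Lf) (c1 n1 c2 n2 al be : ℕ)
    (Dv : Lf) (k : Us → Lf → Bool) : Bool :=
  dfOK false B D && (!sm || tstA 0 true B (dfU false D) h0 h0 fun t => allA t hw2) &&
    chainL P cf B (dfU false D) (fun e1 => chainL P cf B (dfU false D)
      (fun e2 => avOK B al be Dv e1 e2) c2 n2 e1) c1 n1 (st0 sm h0) && k (dfU false D) Dv

def lfL (P : Pl) (cf : ℕ → CF) (wf : ℕ → Wn) (sf : ℕ → Sw) (rs : List Rc) (n g : ℕ)
    (B : Bx) : Bool :=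
  @Bool.rec (fun _ => Bool) (@Bool.rec (fun _ => Bool) (lfK P cf wf sf rs n g B)
      (frc (Nat.add 296 (Nat.mul 16 (fx n 98 256))) fun s => frc (fx n 8 18446744073709551616)
        fun d => lvL P cf B (dDf d) (bt n 106) (frc (Nat.shiftRight n 136) dL) (fx n 90 256)
          (Nat.shiftRight n s) (fx n 128 256)
          (Nat.shiftRight n (Nat.add s (Nat.mul 160 (fx n 90 256)))) (fx n 112 256) (fx n 120 256)
          (frc (Nat.shiftRight n 216) dL) (finK P wf sf n 296 B)) (Nat.beq g 2))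
    (frc (fx n 8 18446744073709551616) fun d => an (dfOK false B (dDf d))
      (frc (Nat.shiftRight n (Nat.add 112 (Nat.mul 16 (fx n 98 256)))) fun m =>
        chainL P cf B (dfU false (dDf d)) (finK P wf sf n 112 B (dfU false (dDf d)))
          (fx n 90 256) m lfc)) (Nat.beq g 1)

def topL (P : Pl) (CT : List (List (List CF))) (WT : List (List (List Wn)))
    (ST : List (List (List Sw))) (rs : List Rc) (L : List ℕ) (st fin : List Bx) : Bool :=
  runK (lfL P (lk3 cf0 CT) (lk3 wnE WT) (lk3 swE ST) rs) fin L st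

end Pool.Agent.MP_2339ce_nt.Q2.TB
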