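import Pool.Agent.MP_2339ce_nt.Q2.TLDef
import Pool.Agent.MP_2339ce_nt.Q2.TKOk

/-! Project Q2, block TL: soundness. -/

set_option autoImplicit false

namespace Pool.Agent.MP_2339ce_nt.Q2.TB

open Fast

section
variable {P : Pl} (hP : P.Ok) {cf : ℕ → CF} (hc : ∀ n, (cf n).Ok) {wf : ℕ → Wn}
  (hw : ∀ n, (wf n).Ok) {sf : ℕ → Sw} (hs : ∀ n, (sf n).No) {B : Bx} {q : Qd} {e : ℤ}

include hP hc in
theorem wdL_ok (j : B.Mem q.N q.a q.b q.c) {U : Us} (hU : U.Ok q) {lo hi : Lf} {n : ℕ}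
    (h : wdL P cf B U lo hi n = true) (k : lo.val q.N q.a q.b q.c ≤ 600 * lg q.d) :
    hi.val q.N q.a q.b q.c ≤ 600 * lg q.d := by
  refine chainK_ok hP hc j hU
    [⟨fx n 136 256, fx n 120 65536, hi, dS (fx n 80 1099511627776), bt n 144⟩] lo ?_ k
  change an (wdK P cf B U lo _) true = true
  simp only [wdL, frc_eq] at h
  simp only [wdK, frc_eq]
  generalize bt n 144 = g at h ⊢
  cases g <;> rw [show @Bool.rec (fun _ => Bool) _ _ (Nat.beq (fx n 136 256) 0) = true from h] <;>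
    rfl

include hP hc in
theorem chainL_ok (j : B.Mem q.N q.a q.b q.c) {U : Us} (hU : U.Ok q) {k : Lf → Bool} (c : ℕ) :
    ∀ n lo, chainL P cf B U k c n lo = true → lo.val q.N q.a q.b q.c ≤ 600 * lg q.d →
      ∃ V, k V = true ∧ V.val q.N q.a q.b q.c ≤ 600 * lg q.d := by
  induction c with
  | zero => exact fun _ lo h g => ⟨lo, h, g⟩
  | succ c ih =>
    intro n lo h g
    change frc (Nat.mod n 1208925819614629174706176) (fun h => an (wdL P cf B U lo (dL h) n)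
      (frc (Nat.shiftRight n 160) fun m => chainL P cf B U k c m (dL h))) = true at h
    rw [frc_eq, frc_eq] at h
    exact ih _ _ (an_ok h).2 (wdL_ok hP hc j hU (an_ok h).1 g)

include hP hc in
theorem lvL_ok (j : Cx B q e) {D : Df} {sm : Bool} {h0 Dv : Lf} {c1 n1 c2 n2 al be : ℕ}
    {k : Us → Lf → Bool}
    (hk : ∀ U V, U.Ok q → V.val q.N q.a q.b q.c ≤ 600 * lg q.d → k U V = true → False)
    (h : lvL P cf B D sm h0 c1 n1 c2 n2 al be Dv k = true) : False := by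
  simp only [lvL, tstA_eq, allA_eq, tst0, same_rec, Bool.true_or, Bool.true_and,
    Bool.and_eq_true, Bool.or_eq_true, Bool.not_eq_true', List.all_eq_true] at h
  obtain ⟨⟨⟨i1, i2⟩, i3⟩, i7⟩ := h
  have k2 := (df_ok false B D q nofun j.mem i1).2
  have k4 : (st0 sm h0).val q.N q.a q.b q.c ≤ 600 * lg q.d := by
    cases e' : sm with
    | false => exact lfc_ok j
    | true =>
      refine le_of_not_ge fun k => hw2_ok wc2_ok q fun y hy => (afl_ok B _ y h0 q j.mem k2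
        (mul_le_mul_of_nonneg_left k (Int.cast_nonneg ?_))).1
        (i2.resolve_left (e' ▸ nofun) y hy)
      exact (by decide : ∀ y ∈ hw2, 0 ≤ y.k) y hy
  obtain ⟨e1, i4, k5⟩ := chainL_ok hP hc j.mem k2 _ _ _ i3 k4
  obtain ⟨e2, i5, k6⟩ := chainL_ok hP hc j.mem k2 _ _ _ i4 k5
  simp only [avOK, Bool.and_eq_true, Nat.ble_eq] at i5
  have k7 := Ew.le0_ok j.mem i5.2
  simp only [Ew.add_val, Ew.neg_val, Ew.smul_val, Int.ofNat_eq_natCast, Int.cast_natCast,
    Nat.cast_add, Int.cast_add] at k7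
  have k8 : (0 : ℝ) < al + be := by exact_mod_cast i5.1
  refine hk _ _ k2 (le_of_mul_le_mul_left ?_ k8) i7
  have := mul_le_mul_of_nonneg_left k5 (Nat.cast_nonneg al)
  have := mul_le_mul_of_nonneg_left k6 (Nat.cast_nonneg be)
  linarith

include hP hc hw hs in
theorem lfL_ok {rs : List Rc} {n g : ℕ} (h : lfL P cf wf sf rs n g B = true) :
    Sem false B rs := by
  rw [lfL] at h
  cases t1 : Nat.beq g 1 <;> rw [t1] at h
  · cases t2 : Nat.beq g 2 <;> rw [t2] at h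
    · exact lfK_ok hP hc hw hs h
    · intro q e j1 j2 _ j4
      simp only [frc_eq] at h
      exact (lvL_ok hP hc ⟨j1, j2, j4⟩
        (fun _ _ hU hD => finK_ok hP hw hs ⟨j1, j2, j4⟩ hU hD) h).elim
  · intro q e j1 j2 _ j4
    simp only [frc_eq] at h
    have hU := (df_ok false B _ q nofun j4 (an_ok h).1).2
    obtain ⟨V, h1, h2⟩ := chainL_ok hP hc j4 hU _ _ _ (an_ok h).2 (lfc_ok ⟨j1, j2, j4⟩)
    exact (finK_ok hP hw hs ⟨j1, j2, j4⟩ hU h2 h1).elim

end

theorem topL_ok {P : Pl} (hP : P.Ok) {CT : List (List (List CF))} {WT : List (List (List Wn))}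
    {ST : List (List (List Sw))} (hc : AO (AO (AO CF.Ok)) CT) (hw : AO (AO (AO Wn.Ok)) WT)
    (hs : AO (AO (AO Sw.No)) ST) {rs : List Rc} {L : List ℕ} {st fin : List Bx}
    (h : topL P CT WT ST rs L st fin = true) (k : AO (fun B => Sem false B rs) fin) :
    AO (fun B => Sem false B rs) st :=
  (AO_iff _ _).2 (runK_ok (fun _ _ _ => lfL_ok hP (lk3_ok cf0_ok hc) (lk3_ok wnE_ok hw)
    (lk3_ok (fun _ _ j _ => bxE_no j.mem) hs)) ((AO_iff _ _).1 k) L _ h)

end Pool.Agent.MP_2339ce_nt.Q2.TB
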