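import Pool.Agent.MP_2339ce_nt.Q2.TVDef

/-! Project Q2, block TV: numbers written with digits in a large base. -/

set_option autoImplicit false

noncomputable section

namespace Pool.Agent.MP_2339ce_nt.Q2.TB.TV

theorem pk_nil (X h : ℕ) : pk X [] h = h := rfl

theorem pk_cons (X t : ℕ) (L : List ℕ) (h : ℕ) : pk X (t :: L) h = t + X * pk X L h := rfl

theorem pk_top (X : ℕ) (L : List ℕ) (h : ℕ) : pk X L h = pk X L 0 + X ^ L.length * h := by
  induction L with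
  | nil => simp [pk_nil]
  | cons t L ih => rw [pk_cons, pk_cons, ih, List.length_cons]; ring

theorem pk_lt (X : ℕ) (L : List ℕ) (hL : ∀ t ∈ L, t < X) : pk X L 0 < X ^ L.length := by
  induction L with
  | nil => simp [pk_nil]
  | cons t L ih =>
    have h1 := hL t (List.mem_cons_self ..)
    have h2 := ih fun s hs => hL s (List.mem_cons_of_mem _ hs)
    rw [pk_cons, List.length_cons, pow_succ']
    have := Nat.mul_le_mul_left X (Nat.succ_le_of_lt h2)
    rw [Nat.mul_succ] at this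
    omega

theorem land_dig (W a b r s : ℕ) (ha : a < 2 ^ W) (hb : b < 2 ^ W) :
    (a + 2 ^ W * r) &&& (b + 2 ^ W * s) = (a &&& b) + 2 ^ W * (r &&& s) := by
  have h0 : 0 < 2 ^ W := Nat.two_pow_pos W
  have h1 := Nat.mod_add_div ((a + 2 ^ W * r) &&& (b + 2 ^ W * s)) (2 ^ W)
  rw [Nat.and_mod_two_pow, Nat.and_div_two_pow, Nat.add_mul_mod_self_left,
    Nat.add_mul_mod_self_left, Nat.mod_eq_of_lt ha, Nat.mod_eq_of_lt hb,
    Nat.add_mul_div_left _ _ h0, Nat.add_mul_div_left _ _ h0, Nat.div_eq_of_lt ha,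
    Nat.div_eq_of_lt hb, Nat.zero_add, Nat.zero_add] at h1
  exact h1.symm

theorem sg01 {c t : ℕ} (h : t < 2 ^ (c + 1)) : t / 2 ^ c = 0 ∨ t / 2 ^ c = 1 := by
  have : t / 2 ^ c < 2 := Nat.div_lt_of_lt_mul (by rwa [← pow_succ])
  generalize t / 2 ^ c = z at this
  omega

theorem one1 {c t : ℕ} (h : t < 2 ^ (c + 1)) : t &&& 2 ^ c = 2 ^ c * (t / 2 ^ c) := by
  have h0 : 0 < 2 ^ c := Nat.two_pow_pos c
  have h1 := land_dig c (t % 2 ^ c) 0 (t / 2 ^ c) 1 (Nat.mod_lt _ h0) h0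
  rw [Nat.mod_add_div, Nat.zero_add, Nat.mul_one, Nat.and_zero, Nat.zero_add] at h1
  rw [h1]
  rcases sg01 h with e | e <;> rw [e] <;> rfl

theorem one2 {c t : ℕ} (h : t < 2 ^ (c + 1)) : t &&& ((2 ^ c - 1) * (t / 2 ^ c)) = t - 2 ^ c := by
  have h1 := Nat.mod_add_div t (2 ^ c)
  have h2 := Nat.mod_lt t (Nat.two_pow_pos c)
  rcases sg01 h with e | e
  · rw [e] at h1 ⊢
    rw [Nat.mul_zero, Nat.and_zero]
    omega
  · rw [e] at h1 ⊢
    rw [Nat.mul_one, Nat.and_two_pow_sub_one_eq_mod]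
    omega

theorem ms1 (W c : ℕ) (hc : c < W) (L : List ℕ) (h : ℕ) (hL : ∀ t ∈ L, t < 2 ^ (c + 1)) :
    pk (2 ^ W) L h &&& pk (2 ^ W) (List.replicate L.length (2 ^ c)) 0 =
      2 ^ c * pk (2 ^ W) (L.map (· / 2 ^ c)) 0 ∧
    pk (2 ^ W) L h &&& ((2 ^ c - 1) * pk (2 ^ W) (L.map (· / 2 ^ c)) 0) =
      pk (2 ^ W) (L.map (· - 2 ^ c)) 0 := by
  have p1 : 2 ^ (c + 1) ≤ 2 ^ W := Nat.pow_le_pow_right (by norm_num) hc
  have p2 : 2 ^ c < 2 ^ W := Nat.pow_lt_pow_right (by norm_num) hc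
  induction L with
  | nil => simp [pk_nil]
  | cons t L ih =>
    have h1 := hL t (List.mem_cons_self ..)
    obtain ⟨i1, i2⟩ := ih fun s hs => hL s (List.mem_cons_of_mem _ hs)
    simp only [List.length_cons, List.replicate_succ, List.map_cons, pk_cons]
    constructor
    · rw [land_dig W _ _ _ _ (by omega) p2, i1, one1 h1]
      ring
    · have e : (2 ^ c - 1) * (t / 2 ^ c + 2 ^ W * pk (2 ^ W) (L.map (· / 2 ^ c)) 0) =
          (2 ^ c - 1) * (t / 2 ^ c) + 2 ^ W * ((2 ^ c - 1) * pk (2 ^ W) (L.map (· / 2 ^ c)) 0) := by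
        ring
      have b : (2 ^ c - 1) * (t / 2 ^ c) < 2 ^ W := by
        rcases sg01 h1 with e | e <;> rw [e] <;> omega
      rw [e, land_dig W _ _ _ _ (by omega) b, i2, one2 h1]

/-- the positive parts of all the digits -/
theorem ms3 (W c : ℕ) (hc : c < W) (L : List ℕ) (h : ℕ) (hL : ∀ t ∈ L, t < 2 ^ (c + 1)) (D G : ℕ)
    (hD : D = pk (2 ^ W) L h) (hG : G = pk (2 ^ W) (List.replicate L.length (2 ^ c)) 0) :
    Nat.land D (Nat.sub (Nat.land D G) (Nat.shiftRight (Nat.land D G) c)) =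
      pk (2 ^ W) (L.map (· - 2 ^ c)) 0 := by
  obtain ⟨h1, h2⟩ := ms1 W c hc L h hL
  show D &&& ((D &&& G) - (D &&& G) >>> c) = _
  rw [hG, hD, h1, Nat.shiftRight_eq_div_pow, Nat.mul_div_cancel_left _ (Nat.two_pow_pos c), ← h2,
    Nat.sub_one_mul]

theorem pk_mod (m : ℕ) (L : List ℕ) : pk (m + 1) L 0 % m = L.sum % m := by
  induction L with
  | nil => rfl
  | cons t L ih =>
    rw [pk_cons, List.sum_cons, Nat.add_mul, Nat.one_mul, Nat.add_comm (m * _), ← Nat.add_assoc,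
      Nat.add_mul_mod_self_left, Nat.add_mod, ih, ← Nat.add_mod]

def bq (X : ℕ) (l : List (ℕ × ℕ)) : ℕ :=
  @List.rec (ℕ × ℕ) (fun _ => ℕ) 0 (fun p t r => p.2 * X ^ t.length + r) l

theorem dot1 (X a b : ℕ) (hX : 2 ≤ X) (l : List (ℕ × ℕ)) (h : ∀ p ∈ l, p.1 ≤ a ∧ p.2 ≤ b) :
    ∃ Lo Hi, X * (pk X (l.map Prod.fst) 0 * bq X l) =
      Lo + X ^ l.length * ((l.map fun p => p.1 * p.2).sum + X * Hi) ∧
      X * Lo ≤ l.length * (2 * a * b) * X ^ l.length ∧ X * bq X l ≤ 2 * b * X ^ l.length := by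
  induction l with
  | nil => exact ⟨0, 0, by simp [pk_nil, bq], by simp, by simp [bq]⟩
  | cons p l ih =>
    obtain ⟨ha, hb⟩ := h p (List.mem_cons_self ..)
    obtain ⟨Lo, Hi, e, b1, b2⟩ := ih fun s hs => h s (List.mem_cons_of_mem _ hs)
    have q : bq X (p :: l) = p.2 * X ^ l.length + bq X l := rfl
    simp only [List.map_cons, pk_cons, List.sum_cons, List.length_cons, q, pow_succ]
    generalize X ^ l.length = Z at *
    generalize pk X (l.map Prod.fst) 0 = Y at *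
    generalize bq X l = V at *
    generalize (l.map fun p => p.1 * p.2).sum = R at *
    refine ⟨X * (Lo + p.1 * V), Hi + Y * p.2, ?_, ?_, ?_⟩
    · have : X * ((p.1 + X * Y) * (p.2 * Z + V)) =
          X * (X * (Y * V)) + X * (p.1 * (p.2 * Z + V) + X * Y * p.2 * Z) := by ring
      rw [this, e]; ring
    · have t1 : p.1 * (X * V) ≤ a * (2 * b * Z) := Nat.mul_le_mul ha b2
      have t2 : X * Lo + p.1 * (X * V) ≤ l.length * (2 * a * b) * Z + a * (2 * b * Z) :=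
        Nat.add_le_add b1 t1
      calc X * (X * (Lo + p.1 * V)) = X * (X * Lo + p.1 * (X * V)) := by ring
        _ ≤ X * (l.length * (2 * a * b) * Z + a * (2 * b * Z)) := Nat.mul_le_mul_left X t2
        _ = _ := by ring
    · have t1 : X * (p.2 * Z) ≤ X * (b * Z) := Nat.mul_le_mul_left X (Nat.mul_le_mul_right Z hb)
      have t2 : 2 * (b * Z) ≤ X * (b * Z) := Nat.mul_le_mul_right _ hX
      calc X * (p.2 * Z + V) = X * (p.2 * Z) + X * V := by ring
        _ ≤ X * (b * Z) + X * (b * Z) :=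
          Nat.add_le_add t1 (le_trans b2 (le_trans (le_of_eq (by ring)) t2))
        _ = _ := by ring

/-- the middle digit of the product is the sum of the products -/
theorem dot2 (X a b n : ℕ) (hX : 2 ≤ X) (l : List (ℕ × ℕ)) (h : ∀ p ∈ l, p.1 ≤ a ∧ p.2 ≤ b)
    (hn : l.length = n + 1) (hb : (n + 1) * (2 * a * b) < X) :
    ∃ Hi, pk X (l.map Prod.fst) 0 * bq X l / X ^ n = (l.map fun p => p.1 * p.2).sum + X * Hi := by
  obtain ⟨Lo, Hi, e, b1, _⟩ := dot1 X a b hX l h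
  refine ⟨Hi, ?_⟩
  have x0 : 0 < X := by omega
  have z0 : 0 < X ^ (n + 1) := Nat.pow_pos x0
  rw [hn] at e b1
  have b3 : Lo < X ^ (n + 1) :=
    Nat.lt_of_mul_lt_mul_left (lt_of_le_of_lt b1 (Nat.mul_lt_mul_of_pos_right hb z0))
  rw [← Nat.mul_div_mul_left _ _ x0, e, ← pow_succ', Nat.add_mul_div_left _ _ z0,
    Nat.div_eq_of_lt b3, Nat.zero_add]

end Pool.Agent.MP_2339ce_nt.Q2.TB.TV
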