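import Pool.Agent.MP_2339ce_nt.Q2.TVPack

/-! Project Q2, block TV: the packed box and the test on the lanes. -/

set_option autoImplicit false

noncomputable section

namespace Pool.Agent.MP_2339ce_nt.Q2.TB.TV

open Fast

def cY : ℕ := Nat.pow 2 287

theorem cs3 : cT = 1024 * cM ∧ cM = 2 * cY ∧ cE = 1048576 * cY ∧ 2 ^ 212 ≤ cY ∧ m0P = cM + 1 ∧
    m0N + 1 = cM ∧ cM = cW ^ 6 ∧ cX = 4294967296 * cM ∧ cF = cW ^ 5 ∧ cW = 2 ^ 48 ∧
    cO = 2 ^ 48 - 1 ∧ cK = 2 ^ 43 ∧ cJ + 1 = 2 ^ 43 ∧ 2 ^ 289 = 4 * cY ∧ 2 ^ 1920 = cX ^ 6 ∧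
    2 ^ 2880 = cX ^ 9 ∧ 2 ^ 3200 = cX ^ 10 ∧ (10 + 1) * (2 * 8388608 * cM) < cX ∧
    cG = pk (2 ^ 48) (List.replicate 6 (2 ^ 44)) 0 ∧ 2 ^ 250 ≤ cC ∧ cC ≤ cM := by decide +kernel

theorem g_eq (B : Bx) : g1 B = B.L1 + (B.L2 - B.L1) * 2 ^ 48 ∧
    g2 B = B.p1 + dd B.fp B.p1 B.p2 * 2 ^ 96 ∧
    g3 B = g2 B + (B.q1 + dd B.fq B.q1 B.q2 * 2 ^ 144) ∧
    g4 B = g3 B + (B.w1 + dd B.fw B.w1 B.w2 * 2 ^ 192) :=
  ⟨congrArg (B.L1 + ·) (Nat.shiftLeft_eq _ 48), congrArg (B.p1 + ·) (Nat.shiftLeft_eq _ 96),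
    congrArg (fun z => g2 B + (B.q1 + z)) (Nat.shiftLeft_eq _ 144),
    congrArg (fun z => g3 B + (B.w1 + z)) (Nat.shiftLeft_eq _ 192)⟩

theorem sz_eq (B : Bx) : sz1 B = B.L2 + B.p1 + (B.q1 + B.w1) +
    (dd B.fp B.p1 B.p2 + (dd B.fq B.q1 B.q2 + dd B.fw B.w1 B.w2)) := rfl

theorem g_le {B : Bx} (hw : wf B = true) (hs : sz1 B < 262144) :
    g1 B ≤ 2 ^ 212 ∧ g2 B ≤ 2 ^ 212 ∧ g3 B ≤ 2 ^ 212 ∧ g4 B ≤ 2 ^ 212 := by
  obtain ⟨e1, e2, e3, e4⟩ := g_eq B
  have := (wf_iff hw).1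
  rw [sz_eq] at hs
  omega

def vz (B : Bx) (f : Lf) : ℤ := f.m + f.eN * g1 B + f.ea * g2 B + f.eb * g3 B + f.ec * g4 B

def nm (f : Lf) : ℤ := |f.m| + 1024 * (|f.eN| + |f.ea| + |f.eb| + |f.ec|)

theorem vP_sg (B : Bx) (f : Lf) : vP B f = sg m0P m0N f.m + sg (cT + g1 B) (cT - g1 B) f.eN +
    sg (cT + g2 B) (cT - g2 B) f.ea + sg (cT + g3 B) (cT - g3 B) f.eb +
    sg (cT + g4 B) (cT - g4 B) f.ec := by cases f; rfl

theorem vN_sg (B : Bx) (f : Lf) : vN B f = sg m0N m0P f.m + sg (cT - g1 B) (cT + g1 B) f.eN +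
    sg (cT - g2 B) (cT + g2 B) f.ea + sg (cT - g3 B) (cT + g3 B) f.eb +
    sg (cT - g4 B) (cT + g4 B) f.ec := by cases f; rfl

theorem v_eq {B : Bx} (hw : wf B = true) (hs : sz1 B < 262144) (f : Lf) :
    (vP B f : ℤ) = nm f * cM + vz B f ∧ (vN B f : ℤ) = nm f * cM - vz B f ∧
    (vP B f < cE → nm f < 1048576) ∧ (vN B f < cE → nm f < 1048576) := by
  obtain ⟨h1, h2, h3, h4⟩ := g_le hw hs
  obtain ⟨a1, a2, a3, a4, a5, a6, -⟩ := cs3
  have z : (0 : ℤ) < cY := by omega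
  rw [vP_sg, vN_sg]
  refine ⟨?_, ?_, fun h => ?_, fun h => ?_⟩
  · unfold nm vz
    rw [Nat.cast_add, Nat.cast_add, Nat.cast_add, Nat.cast_add,
      sg_eq (T := cM) (P := 1) f.m (by omega) (by omega),
      sg_eq (T := 1024 * cM) (P := g1 B) f.eN (by omega) (by omega),
      sg_eq (T := 1024 * cM) (P := g2 B) f.ea (by omega) (by omega),
      sg_eq (T := 1024 * cM) (P := g3 B) f.eb (by omega) (by omega),
      sg_eq (T := 1024 * cM) (P := g4 B) f.ec (by omega) (by omega)]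
    ring
  · unfold nm vz
    rw [Nat.cast_add, Nat.cast_add, Nat.cast_add, Nat.cast_add,
      sg_eq (T := cM) (P := -1) f.m (by omega) (by omega),
      sg_eq (T := 1024 * cM) (P := -g1 B) f.eN (by omega) (by omega),
      sg_eq (T := 1024 * cM) (P := -g2 B) f.ea (by omega) (by omega),
      sg_eq (T := 1024 * cM) (P := -g3 B) f.eb (by omega) (by omega),
      sg_eq (T := 1024 * cM) (P := -g4 B) f.ec (by omega) (by omega)]
    ring
  · refine lt_of_mul_lt_mul_right (a := (cY : ℤ)) ?_ z.le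
    have := sg_ge (z := cY) (p := m0P) (n := m0N) f.m (by omega) (by omega)
    have := sg_ge (z := 1024 * cY) (p := cT + g1 B) (n := cT - g1 B) f.eN (by omega) (by omega)
    have := sg_ge (z := 1024 * cY) (p := cT + g2 B) (n := cT - g2 B) f.ea (by omega) (by omega)
    have := sg_ge (z := 1024 * cY) (p := cT + g3 B) (n := cT - g3 B) f.eb (by omega) (by omega)
    have := sg_ge (z := 1024 * cY) (p := cT + g4 B) (n := cT - g4 B) f.ec (by omega) (by omega)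
    rw [a3] at h
    zify at h
    push_cast at *
    unfold nm
    linarith
  · refine lt_of_mul_lt_mul_right (a := (cY : ℤ)) ?_ z.le
    have := sg_ge (z := cY) (p := m0N) (n := m0P) f.m (by omega) (by omega)
    have := sg_ge (z := 1024 * cY) (p := cT - g1 B) (n := cT + g1 B) f.eN (by omega) (by omega)
    have := sg_ge (z := 1024 * cY) (p := cT - g2 B) (n := cT + g2 B) f.ea (by omega) (by omega)
    have := sg_ge (z := 1024 * cY) (p := cT - g3 B) (n := cT + g3 B) f.eb (by omega) (by omega)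
    have := sg_ge (z := 1024 * cY) (p := cT - g4 B) (n := cT + g4 B) f.ec (by omega) (by omega)
    rw [a3] at h
    zify at h
    push_cast at *
    unfold nm
    linarith

theorem ab (e : ℤ) {c Z : ℕ} (h : c ≤ Z) : |e * c| ≤ |e| * Z := by
  rw [abs_mul, abs_of_nonneg (Int.natCast_nonneg c)]
  exact mul_le_mul_of_nonneg_left (by exact_mod_cast h) (abs_nonneg e)

theorem tn (e : ℤ) (d : ℕ) : (e * d).toNat = e.toNat * d := by
  cases e with
  | ofNat a => exact (congrArg Int.toNat (Int.natCast_mul a d).symm).trans (Int.toNat_natCast _)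
  | negSucc a =>
    rw [Int.toNat_negSucc, Nat.zero_mul, Int.toNat_eq_zero]
    exact mul_nonpos_of_nonpos_of_nonneg (Int.negSucc_lt_zero a).le (Int.natCast_nonneg d)

/-- one lane of a coordinate whose upper end may be infinite -/
theorem lane (f : Bool) (lo hi : ℕ) (e : ℤ) (h : (f || Nat.ble lo hi) = true) (u : ℕ)
    (hu : u = (e * dd f lo hi).toNat) (ub : u < 2 ^ 48) (z : u &&& fl f = 0) :
    (f && isP e) = false ∧ (u : ℤ) = up e lo hi - e * lo := by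
  rw [tn] at hu
  have c := coord f lo hi u 1 e h hu
  have e1 : wt f u 1 = u := by
    cases f with
    | false => rfl
    | true => exact Nat.mul_one u
  rw [e1] at c
  have : (f && isP e) = false := by
    cases f with
    | false => rfl
    | true =>
      have e2 : fl true = 2 ^ 48 - 1 := cs3.2.2.2.2.2.2.2.2.2.2.1
      rw [e2, Nat.and_two_pow_sub_one_eq_mod, Nat.mod_eq_of_lt ub] at z
      cases h2 : (true && isP e) with
      | false => rfl
      | true => have := c.1 h2; omega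
  exact ⟨this, c.2 this⟩

theorem fl_lt (f : Bool) : fl f < 2 ^ 48 := by cases f <;> decide +kernel

def fin3 (F K T : ℕ) : Bool :=
  Nat.ble (Nat.add (Nat.mod (Nat.land T (Nat.sub (Nat.land T cG) (Nat.shiftRight (Nat.land T cG) 44)))
    cO) (Nat.land (Nat.land T (Nat.sub (Nat.land T cG) (Nat.shiftRight (Nat.land T cG) 44))) F)) K

theorem lanes {B : Bx} (hw : wf B = true) (hs : sz1 B < 262144) (F : Lf)
    (hF : nm F ≤ 17179869184) (kf : ℕ) (hk : kf ≤ 8192) (T : ℕ) (n : ℤ)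
    (hT : (T : ℤ) = vz B F + kf * cW ^ 5 + cC + n * cM) (δ K : ℕ) (hK : K + δ = 2 ^ 43)
    (t : fin3 (fmx B) K T = true) :
    kf = 0 ∧ (!bad B F && !isP (Int.add (sup B F) (Int.ofNat δ))) = true := by
  obtain ⟨e1, e2, e3, e4⟩ := g_eq B
  obtain ⟨w1, w2, w3, w4⟩ := wf_iff hw
  obtain ⟨-, -, -, -, -, -, a7, -, -, a10, a11, -, -, -, -, -, -, -, a19, -⟩ := cs3
  rw [sz_eq] at hs
  unfold nm at hF
  have n0 := abs_nonneg F.m
  have n1 := abs_nonneg F.eN
  have n2 := abs_nonneg F.ea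
  have n3 := abs_nonneg F.eb
  have n4 := abs_nonneg F.ec
  have s1 := abs_add_le F.eb F.ec
  have s2 := abs_add_le F.ea (F.eb + F.ec)
  obtain ⟨V, hV⟩ : ∃ V : ℤ, V = F.m + F.eN * B.L1 + (F.ea + (F.eb + F.ec)) * B.p1 +
    (F.eb + F.ec) * B.q1 + F.ec * B.w1 := ⟨_, rfl⟩
  have bV : |V| ≤ 4398046511104 := by
    have b1 := ab F.eN (c := B.L1) (Z := 262144) (by omega)
    have b2 := ab F.ea (c := B.p1) (Z := 262144) (by omega)
    have b3 := ab F.eb (c := B.p1 + B.q1) (Z := 262144) (by omega)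
    have b4 := ab F.ec (c := B.p1 + B.q1 + B.w1) (Z := 262144) (by omega)
    have b0 := le_abs_self F.m
    have b5 := neg_abs_le F.m
    rw [abs_le] at b1 b2 b3 b4 ⊢
    push_cast at b1 b2 b3 b4
    constructor <;> linarith
  have b1 := ab F.eN (c := B.L2 - B.L1) (Z := 262144) (by omega)
  have b2 := ab (F.ea + (F.eb + F.ec)) (c := dd B.fp B.p1 B.p2) (Z := 262144) (by omega)
  have b3 := ab (F.eb + F.ec) (c := dd B.fq B.q1 B.q2) (Z := 262144) (by omega)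
  have b4 := ab F.ec (c := dd B.fw B.w1 B.w2) (Z := 262144) (by omega)
  have l0 := up_lo F.eN _ _ w1
  rw [← tn] at l0
  have l1 := lane _ _ _ (F.ea + (F.eb + F.ec)) w2
  have l2 := lane _ _ _ (F.eb + F.ec) w3
  have l3 := lane _ _ _ F.ec w4
  have hz : vz B F = V + F.eN * (B.L2 - B.L1 : ℕ) * 2 ^ 48 +
      (F.ea + (F.eb + F.ec)) * dd B.fp B.p1 B.p2 * 2 ^ 96 +
      (F.eb + F.ec) * dd B.fq B.q1 B.q2 * 2 ^ 144 + F.ec * dd B.fw B.w1 B.w2 * 2 ^ 192 := by
    unfold vz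
    rw [e4, e3, e2, e1, hV]
    generalize B.L2 - B.L1 = d
    push_cast
    ring
  have es : Int.add (sup B F) (Int.ofNat δ) = F.m + up F.eN B.L1 B.L2 +
      up (F.ea + (F.eb + F.ec)) B.p1 B.p2 + up (F.eb + F.ec) B.q1 B.q2 + up F.ec B.w1 B.w2 +
      (δ : ℤ) := rfl
  have eb : bad B F = ((B.fp && isP (F.ea + (F.eb + F.ec))) || (B.fq && isP (F.eb + F.ec)) ||
    (B.fw && isP F.ec)) := rfl
  rw [es, eb]
  generalize F.eN * ((B.L2 - B.L1 : ℕ) : ℤ) = x1 at *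
  generalize (F.ea + (F.eb + F.ec)) * (dd B.fp B.p1 B.p2 : ℤ) = x2 at *
  generalize (F.eb + F.ec) * (dd B.fq B.q1 B.q2 : ℤ) = x3 at *
  generalize F.ec * (dd B.fw B.w1 B.w2 : ℤ) = x4 at *
  have c1 : |x1| ≤ 4398046511104 := by push_cast at b1; linarith
  have c2 : |x2| ≤ 4398046511104 := by push_cast at b2; linarith
  have c3 : |x3| ≤ 4398046511104 := by push_cast at b3; linarith
  have c4 : |x4| ≤ 4398046511104 := by push_cast at b4; linarith
  clear b1 b2 b3 b4 hF n0 n1 n2 n3 n4 s1 s2 hs e1 e2 e3 e4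
  rw [abs_le] at c1 c2 c3 c4 bV
  have eC : cC = pk (2 ^ 48) (List.replicate 6 (2 ^ 44)) 0 + 2 ^ 43 := by decide +kernel
  obtain ⟨L, hL⟩ : ∃ L, L = [(V + 26388279066624).toNat, (x1 + 17592186044416).toNat,
    (x2 + 17592186044416).toNat, (x3 + 17592186044416).toNat, (x4 + 17592186044416).toNat,
    kf + 17592186044416] := ⟨_, rfl⟩
  have bL : ∀ t ∈ L, t < 2 ^ (44 + 1) := by
    rw [hL]
    simp only [List.forall_mem_cons]
    refine ⟨?_, ?_, ?_, ?_, ?_, ?_, ?_⟩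
    all_goals first | omega | exact fun _ h => absurd h List.not_mem_nil
  have lL : L.length = 6 := by rw [hL]; rfl
  have eT : (T : ℤ) = pk (2 ^ 48) L 0 + n * cM := by
    rw [hT, hz, hL, eC, a10]
    simp only [List.replicate, pk_cons, pk_nil]
    omega
  have lt := pk_lt (2 ^ 48) L fun t ht => lt_trans (bL t ht) (by norm_num)
  have a8 : (2 ^ 48) ^ 6 = cM := by rw [a7, a10]
  rw [lL, a8] at lt
  have hn : 0 ≤ n := by
    by_contra h
    have : n * cM ≤ -1 * cM := mul_le_mul_of_nonneg_right (by omega) (Int.natCast_nonneg _)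
    omega
  have eT2 : T = pk (2 ^ 48) L n.toNat := by
    rw [pk_top, lL, a8]
    refine Nat.cast_injective (R := ℤ) ?_
    rw [Nat.cast_add, Nat.cast_mul, Int.toNat_of_nonneg hn, eT, mul_comm]
  have eP := ms3 48 44 (by norm_num) L _ bL T cG eT2 (by rw [lL]; exact a19)
  have eM : L.map (· - 2 ^ 44) = [(V + 8796093022208).toNat, x1.toNat, x2.toNat, x3.toNat,
      x4.toNat, kf] := by
    rw [hL]
    simp only [List.map_cons, List.map_nil, List.cons.injEq, and_true]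
    omega
  unfold fin3 at t
  rw [eP, eM] at t
  have t2 := Nat.le_of_ble_eq_true t
  have m1 := pk_mod (2 ^ 48 - 1) [(V + 8796093022208).toNat, x1.toNat, x2.toNat, x3.toNat,
    x4.toNat, kf]
  have m2 : pk (2 ^ 48) [(V + 8796093022208).toNat, x1.toNat, x2.toNat, x3.toNat, x4.toNat, kf] 0 &&&
      fmx B = 2 ^ 48 * (2 ^ 48 * ((x2.toNat &&& fl B.fp) + 2 ^ 48 * ((x3.toNat &&& fl B.fq) +
        2 ^ 48 * ((x4.toNat &&& fl B.fw) + 2 ^ 48 * kf)))) := by
    unfold fmx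
    rw [a10, a11]
    simp only [pk_cons, pk_nil]
    rw [land_dig _ _ _ _ _ (by omega) (by norm_num), land_dig _ _ _ _ _ (by omega) (by norm_num),
      land_dig _ _ _ _ _ (by omega) (fl_lt _), land_dig _ _ _ _ _ (by omega) (fl_lt _),
      land_dig _ _ _ _ _ (by omega) (fl_lt _), land_dig _ _ _ _ _ (by omega) (by norm_num),
      Nat.and_two_pow_sub_one_eq_mod, Nat.mod_eq_of_lt (a := kf) (by omega)]
    simp
  simp only [List.sum_cons, List.sum_nil] at m1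
  rw [Nat.mod_eq_of_lt (a := _ + _) (by omega)] at m1
  have t3 : pk (2 ^ 48) [(V + 8796093022208).toNat, x1.toNat, x2.toNat, x3.toNat, x4.toNat, kf] 0 %
      (2 ^ 48 - 1) + (pk (2 ^ 48) [(V + 8796093022208).toNat, x1.toNat, x2.toNat, x3.toNat,
        x4.toNat, kf] 0 &&& fmx B) ≤ K := by
    rw [← a11]; exact t2
  rw [show 2 ^ 48 - 1 + 1 = 2 ^ 48 by norm_num] at m1
  rw [m1, m2] at t3
  obtain ⟨k1, k2⟩ := l1 _ rfl (by omega) (by omega)
  obtain ⟨k3, k4⟩ := l2 _ rfl (by omega) (by omega)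
  obtain ⟨k5, k6⟩ := l3 _ rfl (by omega) (by omega)
  refine ⟨by omega, ?_⟩
  rw [k1, k3, k5]
  show (!isP _) = true
  rw [Bool.not_eq_true', ← Bool.not_eq_true, isP_iff]
  omega

end Pool.Agent.MP_2339ce_nt.Q2.TB.TV
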