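import Pool.Agent.MP_2339ce_nt.Q2.TKLook

/-! Project Q2, block TV: the affine tests by one product of packed numbers; definitions. -/

set_option autoImplicit false

noncomputable section

namespace Pool.Agent.MP_2339ce_nt.Q2.TB

namespace TV

structure Bo (α : Type) : Type where
  v : α

def kP : ℕ := Nat.sub (Nat.succ (Nat.pow 2 3528)) (Nat.pow 2 320)
def kN : ℕ := Nat.sub (Nat.add (Nat.pow 2 3528) (Nat.pow 2 320)) 1
def c2P : ℕ := Nat.add (Nat.pow 2 3528) (Nat.pow 2 640)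
def c2N : ℕ := Nat.sub (Nat.pow 2 3528) (Nat.pow 2 640)
def c3P : ℕ := Nat.add (Nat.pow 2 3528) (Nat.pow 2 960)
def c3N : ℕ := Nat.sub (Nat.pow 2 3528) (Nat.pow 2 960)
def c4P : ℕ := Nat.add (Nat.pow 2 3528) (Nat.pow 2 1280)
def c4N : ℕ := Nat.sub (Nat.pow 2 3528) (Nat.pow 2 1280)
def c5P : ℕ := Nat.add (Nat.pow 2 3520) (Nat.pow 2 1600)
def c5N : ℕ := Nat.sub (Nat.pow 2 3520) (Nat.pow 2 1600)
def c6P : ℕ := Nat.add (Nat.pow 2 3528) (Nat.pow 2 1920)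
def c6N : ℕ := Nat.sub (Nat.pow 2 3528) (Nat.pow 2 1920)
def c7P : ℕ := Nat.add (Nat.pow 2 3528) (Nat.pow 2 2240)
def c7N : ℕ := Nat.sub (Nat.pow 2 3528) (Nat.pow 2 2240)
def c8P : ℕ := Nat.add (Nat.pow 2 3528) (Nat.pow 2 2560)
def c8N : ℕ := Nat.sub (Nat.pow 2 3528) (Nat.pow 2 2560)
def c9P : ℕ := Nat.add (Nat.pow 2 3528) (Nat.pow 2 2880)
def c9N : ℕ := Nat.sub (Nat.pow 2 3528) (Nat.pow 2 2880)

/-- the packed coefficients, with their size on top -/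
def xP (x : Af) : ℕ := @Af.rec (fun _ => ℕ) (fun k m eN ea eb ec e1 e2 e3 =>
  (Nat.add (Nat.add (Nat.add (Nat.add (Nat.add (Nat.add (Nat.add (Nat.add (@Int.rec (fun _ => ℕ) (fun a => Nat.mul a kP) (fun a => Nat.mul (Nat.succ a) kN) k)
  (@Int.rec (fun _ => ℕ) (fun a => Nat.mul a c2P) (fun a => Nat.mul (Nat.succ a) c2N) e1))
  (@Int.rec (fun _ => ℕ) (fun a => Nat.mul a c3P) (fun a => Nat.mul (Nat.succ a) c3N) e2))
  (@Int.rec (fun _ => ℕ) (fun a => Nat.mul a c4P) (fun a => Nat.mul (Nat.succ a) c4N) e3))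
  (@Int.rec (fun _ => ℕ) (fun a => Nat.mul a c5P) (fun a => Nat.mul (Nat.succ a) c5N) m))
  (@Int.rec (fun _ => ℕ) (fun a => Nat.mul a c6P) (fun a => Nat.mul (Nat.succ a) c6N) eN))
  (@Int.rec (fun _ => ℕ) (fun a => Nat.mul a c7P) (fun a => Nat.mul (Nat.succ a) c7N) ea))
  (@Int.rec (fun _ => ℕ) (fun a => Nat.mul a c8P) (fun a => Nat.mul (Nat.succ a) c8N) eb))
  (@Int.rec (fun _ => ℕ) (fun a => Nat.mul a c9P) (fun a => Nat.mul (Nat.succ a) c9N) ec))) x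

/-- the same for the negative -/
def xN (x : Af) : ℕ := @Af.rec (fun _ => ℕ) (fun k m eN ea eb ec e1 e2 e3 =>
  (Nat.add (Nat.add (Nat.add (Nat.add (Nat.add (Nat.add (Nat.add (Nat.add (@Int.rec (fun _ => ℕ) (fun a => Nat.mul a kN) (fun a => Nat.mul (Nat.succ a) kP) k)
  (@Int.rec (fun _ => ℕ) (fun a => Nat.mul a c2N) (fun a => Nat.mul (Nat.succ a) c2P) e1))
  (@Int.rec (fun _ => ℕ) (fun a => Nat.mul a c3N) (fun a => Nat.mul (Nat.succ a) c3P) e2))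
  (@Int.rec (fun _ => ℕ) (fun a => Nat.mul a c4N) (fun a => Nat.mul (Nat.succ a) c4P) e3))
  (@Int.rec (fun _ => ℕ) (fun a => Nat.mul a c5N) (fun a => Nat.mul (Nat.succ a) c5P) m))
  (@Int.rec (fun _ => ℕ) (fun a => Nat.mul a c6N) (fun a => Nat.mul (Nat.succ a) c6P) eN))
  (@Int.rec (fun _ => ℕ) (fun a => Nat.mul a c7N) (fun a => Nat.mul (Nat.succ a) c7P) ea))
  (@Int.rec (fun _ => ℕ) (fun a => Nat.mul a c8N) (fun a => Nat.mul (Nat.succ a) c8P) eb))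
  (@Int.rec (fun _ => ℕ) (fun a => Nat.mul a c9N) (fun a => Nat.mul (Nat.succ a) c9P) ec))) x

/-- digits in base `X`, with `h` on top -/
def pk (X : ℕ) (L : List ℕ) (h : ℕ) : ℕ :=
  @List.rec ℕ (fun _ => ℕ) h (fun t _ r => Nat.add t (Nat.mul X r)) L

def cX : ℕ := Nat.pow 2 320
def cW : ℕ := Nat.pow 2 48
def cM : ℕ := Nat.pow 2 288
def cL : ℕ := Nat.pow 2 3539
def cB : ℕ := pk cX [8388608, 8388608, 8388608, 8388608, 8388608, 12582912, 12582912, 12582912,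
  12582912, 12582912, 8388609] 0
def cH : ℕ := pk cX (List.replicate 11 (Nat.pow 2 23)) 0
def cG : ℕ := pk cW (List.replicate 6 (Nat.pow 2 44)) 0
def cC : ℕ := Nat.add cG (Nat.pow 2 43)
def cO : ℕ := Nat.pred cW
def bdP : ℕ := xP ⟨4096, 0, 0, 0, 0, 0, 0, 0, 0⟩
def bdN : ℕ := xN ⟨-4096, 0, 0, 0, 0, 0, 0, 0, 0⟩

def xp (x : Af) : ℕ := by
  refine (?_ : ℕ → ℕ) (xP x); intro a
  exact @Bool.rec (fun _ => ℕ) a bdP (Nat.ble cL a)

def xn (x : Af) : ℕ := by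
  refine (?_ : ℕ → ℕ) (xN x); intro a
  exact Nat.add cB (@Bool.rec (fun _ => ℕ) a bdN (Nat.ble cL a))

/-- the positive parts of the digits -/
def msk (D : ℕ) : ℕ := by
  refine (?_ : ℕ → ℕ) (Nat.land D cH); intro H
  exact Nat.land D (Nat.sub H (Nat.shiftRight H (nat_lit 23)))

def yP (l h : Af) : ℕ := msk (Nat.add (xp l) (xn h))
def yS (s : Af) : ℕ := msk (xn s)
def yH (x : Af) : ℕ := msk (Nat.add cB (xp x))

def tK (X F K : ℕ) : Bo (ℕ → Bool) := ⟨fun Y => by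
  refine (?_ : ℕ → Bool) (Nat.shiftRight (Nat.mul Y X) (nat_lit 3200)); intro T
  refine (?_ : ℕ → Bool) (Nat.land T cG); intro H
  refine (?_ : ℕ → Bool) (Nat.land T (Nat.sub H (Nat.shiftRight H (nat_lit 44)))); intro P
  exact Nat.ble (Nat.add (Nat.mod P cO) (Nat.land P F)) K⟩

def g1 (B : Bx) : ℕ := Nat.add B.L1 (Nat.shiftLeft (Nat.sub B.L2 B.L1) (nat_lit 48))
def g2 (B : Bx) : ℕ := Nat.add B.p1 (Nat.shiftLeft (dd B.fp B.p1 B.p2) (nat_lit 96))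
def g3 (B : Bx) : ℕ :=
  Nat.add (g2 B) (Nat.add B.q1 (Nat.shiftLeft (dd B.fq B.q1 B.q2) (nat_lit 144)))
def g4 (B : Bx) : ℕ :=
  Nat.add (g3 B) (Nat.add B.w1 (Nat.shiftLeft (dd B.fw B.w1 B.w2) (nat_lit 192)))

def cT : ℕ := Nat.pow 2 298
def m0P : ℕ := Nat.succ cM
def m0N : ℕ := Nat.pred cM

/-- a linear form on the box: its value at the low corner and its four slopes -/
def vP (B : Bx) (f : Lf) : ℕ := @Lf.rec (fun _ => ℕ) (fun m eN ea eb ec =>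
  (Nat.add (Nat.add (Nat.add (Nat.add (@Int.rec (fun _ => ℕ) (fun a => Nat.mul a m0P)
    (fun a => Nat.mul (Nat.succ a) m0N) m)
  (@Int.rec (fun _ => ℕ) (fun a => Nat.mul a (Nat.add cT (g1 B)))
    (fun a => Nat.mul (Nat.succ a) (Nat.sub cT (g1 B))) eN))
  (@Int.rec (fun _ => ℕ) (fun a => Nat.mul a (Nat.add cT (g2 B)))
    (fun a => Nat.mul (Nat.succ a) (Nat.sub cT (g2 B))) ea))
  (@Int.rec (fun _ => ℕ) (fun a => Nat.mul a (Nat.add cT (g3 B)))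
    (fun a => Nat.mul (Nat.succ a) (Nat.sub cT (g3 B))) eb))
  (@Int.rec (fun _ => ℕ) (fun a => Nat.mul a (Nat.add cT (g4 B)))
    (fun a => Nat.mul (Nat.succ a) (Nat.sub cT (g4 B))) ec))) f

def vN (B : Bx) (f : Lf) : ℕ := @Lf.rec (fun _ => ℕ) (fun m eN ea eb ec =>
  (Nat.add (Nat.add (Nat.add (Nat.add (@Int.rec (fun _ => ℕ) (fun a => Nat.mul a m0N)
    (fun a => Nat.mul (Nat.succ a) m0P) m)
  (@Int.rec (fun _ => ℕ) (fun a => Nat.mul a (Nat.sub cT (g1 B)))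
    (fun a => Nat.mul (Nat.succ a) (Nat.add cT (g1 B))) eN))
  (@Int.rec (fun _ => ℕ) (fun a => Nat.mul a (Nat.sub cT (g2 B)))
    (fun a => Nat.mul (Nat.succ a) (Nat.add cT (g2 B))) ea))
  (@Int.rec (fun _ => ℕ) (fun a => Nat.mul a (Nat.sub cT (g3 B)))
    (fun a => Nat.mul (Nat.succ a) (Nat.add cT (g3 B))) eb))
  (@Int.rec (fun _ => ℕ) (fun a => Nat.mul a (Nat.sub cT (g4 B)))
    (fun a => Nat.mul (Nat.succ a) (Nat.add cT (g4 B))) ec))) f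

def sz1 (B : Bx) : ℕ :=
  Nat.add (Nat.add (Nat.add B.L2 B.p1) (Nat.add B.q1 B.w1))
    (Nat.add (dd B.fp B.p1 B.p2) (Nat.add (dd B.fq B.q1 B.q2) (dd B.fw B.w1 B.w2)))

/-- the sizes of the box and of the three forms -/
def szx (B : Bx) (U : Us) : ℕ :=
  Nat.add (Nat.add (Nat.shiftLeft (sz1 B) (nat_lit 289)) (vP B U.U1))
    (Nat.add (vP B U.U2) (vP B U.U3))

def hn (r v : ℕ) : ℕ := Nat.add (Nat.shiftLeft r (nat_lit 320)) v

def cm6 (B : Bx) : ℕ :=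
  hn (hn (hn (hn (hn 6 (Nat.mul 6 (g1 B))) (Nat.mul 6 (g2 B))) (Nat.mul 6 (g3 B)))
    (Nat.mul 6 (g4 B))) (Nat.sub cC (Nat.mul (nat_lit 25165824)
      (Nat.succ (Nat.add (Nat.add (g1 B) (g2 B)) (Nat.add (g3 B) (g4 B))))))

/-- the part of the packed box that does not depend on the ends of the window -/
def cmx (B : Bx) (U : Us) : ℕ :=
  Nat.add (Nat.shiftLeft (hn (hn (Nat.mod (vP B U.U1) cM) (Nat.mod (vP B U.U2) cM))
    (Nat.mod (vP B U.U3) cM)) (nat_lit 1920)) (cm6 B)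

def fl (f : Bool) : ℕ := @Bool.rec (fun _ => ℕ) 0 cO f

def fmx (B : Bx) : ℕ := pk cW [0, 0, fl B.fp, fl B.fq, fl B.fw, cO] 0

def bx (B : Bx) (U : Us) (v0 : ℕ) (lo : Lf) : ℕ :=
  Nat.add (Nat.shiftLeft (hn v0 (Nat.mod (vN B lo) cM)) (nat_lit 2880)) (cmx B U)

def cE : ℕ := Nat.pow 2 307
def cK : ℕ := Nat.pow 2 43
def cJ : ℕ := Nat.pred cK
def cF : ℕ := Nat.pow 2 240

def allY (t : ℕ → Bool) (y : Af → ℕ) (L : List Af) : Bool :=
  @List.rec Af (fun _ => Bool) true (fun x _ r => @Bool.rec (fun _ => Bool) false r (t (y x))) L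

def crossY (t : ℕ → Bool) (hs ls : List Af) : Bool :=
  @List.rec Af (fun _ => Bool) true (fun h _ r => @Bool.rec (fun _ => Bool) false r
    (@List.rec Af (fun _ => Bool) true (fun l _ r => @Bool.rec (fun _ => Bool) false r
      (t (yP l h))) ls)) hs

def endY (t : ℕ → Bool) (pr i : ℕ) (hs : List Af) : Bool :=
  @List.rec Af (fun _ => Bool) true (fun _ _ _ => frc pr fun pr => frc i fun i =>
    @Bool.rec (fun _ => Bool) false (crossY t hs [tlo pr i])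
      (t (yP (tlo pr (i + 1)) (thi pr i)))) hs

def goY (t0 t1 : ℕ → Bool) (wt : List Wn) (pr i : ℕ) (ix : List ℕ) : List Af → Bool :=
  @List.rec ℕ (fun _ => List Af → Bool) (endY t1 pr i)
    (fun j _ ih hs => @List.rec Wn (fun _ => Bool) false (fun w _ _ => @Wn.rec (fun _ => Bool)
      (fun sd lo hi => @Bool.rec (fun _ => Bool) false
        (@Bool.rec (fun _ => Bool) false (ih hi) (crossY t1 hs lo)) (allY t0 yS sd)) w)
      (tlN wt j)) ix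

def hpC (w z : Bool) (x f : ℕ) (A : (ℕ → Bool) → Bool) (G : (ℕ → Bool) → (ℕ → Bool) → Bool) :
    Bool :=
  @Bool.rec (fun _ => Bool) false (@Bool.rec (fun _ => Bool) (frc x fun X => frc f fun F =>
    @Bo.rec (ℕ → Bool) (fun _ => Bool) (fun t0 => @Bo.rec (ℕ → Bool) (fun _ => Bool) (fun t1 =>
      @Bool.rec (fun _ => Bool) false (G t0 t1) (A t1)) (tK X F cJ)) (tK X F cK)) false z) w

def hwC (r w z : Bool) (x f : ℕ) (A : (ℕ → Bool) → Bool) : Bool :=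
  @Bool.rec (fun _ => Bool) false (@Bool.rec (fun _ => Bool) false (@Bool.rec (fun _ => Bool)
    (frc x fun X => @Bo.rec (ℕ → Bool) (fun _ => Bool) A (tK X f cK)) false z) w) r

end TV

open TV

def hpOKG (wt : List Wn) (ix : List ℕ) (pr i : ℕ) (B : Bx) (U : Us) (D : Lf) : Bool :=
  hpC (wf B) (Nat.ble cE (Nat.add (szx B U) (vN B D))) (bx B U cF D) (fmx B)
    (fun t1 => allY t1 yH start) (fun t0 t1 => goY t0 t1 wt pr i ix [g5])

def hwG (reg : Bool) (i : ℕ) (B : Bx) (U : Us) (lo hi : Lf) : Bool :=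
  hwC (reg || Nat.ble i 4) (wf B) (Nat.ble cE (Nat.add (Nat.add (szx B U) (vN B lo)) (vP B hi)))
    (bx B U (Nat.mod (vP B hi) cM) lo) (fmx B) (fun t0 => allY t0 yH (hw i))

end Pool.Agent.MP_2339ce_nt.Q2.TB
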