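import Pool.Agent.MP_2339ce_nt.Q2.TVOk

/-! Project Q2, block TV: the packed test for a list of windows. -/

set_option autoImplicit false

noncomputable section

namespace Pool.Agent.MP_2339ce_nt.Q2.TB

open TV Fast

def goW (t0 t1 : ℕ → Bool) (pr i : ℕ) (ws : List Wn) : List Af → Bool :=
  @List.rec Wn (fun _ => List Af → Bool) (endY t1 pr i)
    (fun w _ ih hs => @Wn.rec (fun _ => Bool) (fun sd lo hi => @Bool.rec (fun _ => Bool) false
      (@Bool.rec (fun _ => Bool) false (ih hi) (crossY t1 hs lo)) (allY t0 yS sd)) w) ws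

def hpG (ws : List Wn) (pr i : ℕ) (B : Bx) (U : Us) (D : Lf) : Bool :=
  hpC (wf B) (Nat.ble cE (Nat.add (szx B U) (vN B D))) (bx B U cF D) (fmx B)
    (fun t1 => allY t1 yH start) (fun t0 t1 => goW t0 t1 pr i ws [g5])

theorem goW_ok {t0 t1 : ℕ → Bool} {p q : Af → Bool} (hq : ∀ s, t0 (yS s) = true → q s = true)
    (hp : ∀ l h, t1 (yP l h) = true → p (l.sub h) = true) (pr i : ℕ) (ws : List Wn)
    (hs : List Af) (h : goW t0 t1 pr i ws hs = true) :
    allA (fun w => allA q w.sd) ws = true ∧ (go pr i ws hs).all p = true := by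
  induction ws generalizing hs with
  | nil => exact (goY_ok hq hp [] pr i [] hs h).2
  | cons w ws ih =>
    have e3 : goW t0 t1 pr i (w :: ws) hs = @Bool.rec (fun _ => Bool) false
      (@Bool.rec (fun _ => Bool) false (goW t0 t1 pr i ws w.hi) (crossY t1 hs w.lo))
        (allY t0 yS w.sd) := rfl
    rw [e3] at h
    obtain ⟨h1, h2⟩ := and_e h
    obtain ⟨h3, h4⟩ := and_e h2
    obtain ⟨i2, i3⟩ := ih _ h4
    rw [go, List.all_append, i3, crossY_ok hp h3]
    refine ⟨?_, rfl⟩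
    rw [allA_eq, List.all_cons, ← allA_eq, i2, allA_eq, Bool.and_true, List.all_eq_true]
    exact fun s hs => hq s (allY_ok h1 s hs)

theorem hpG_ok {ws : List Wn} {pr i : ℕ} {B : Bx} {U : Us} {D : Lf}
    (h : hpG ws pr i B U D = true) : hpF ws pr i B U D = true := by
  unfold hpG at h
  obtain ⟨w, z, h3, h4⟩ := hpC_ok h
  have S : Sm B U D := (sm_of (z := 0) w (by rw [Nat.add_zero]; exact lt_ble z)).1
  have k0 : cK + 0 = 2 ^ 43 := cs3.2.2.2.2.2.2.2.2.2.2.2.1
  have k1 : cJ + 1 = 2 ^ 43 := cs3.2.2.2.2.2.2.2.2.2.2.2.2.1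
  obtain ⟨i2, i3⟩ := goW_ok (q := fun s => tstS 0 false B U D D (Af.neg s))
    (yS_ok S 0 cK k0) (yP_ok S 1 cJ k1) pr i ws _ h4
  have i4 : allA (tstS 1 false B U D D) start = true := by
    rw [allA_eq, List.all_eq_true]
    exact fun x hx => yH_ok S 1 cJ k1 x (allY_ok h3 x hx)
  unfold hpF
  rw [tstA_eq, tstA_eq, i2, i4, goA_eq, i3]
  rfl

end Pool.Agent.MP_2339ce_nt.Q2.TB
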