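import Pool.Agent.MP_2339ce_nt.Q2.TVBox

/-! Project Q2, block TV: the packed tests imply the tests of block TC. -/

set_option autoImplicit false

noncomputable section

namespace Pool.Agent.MP_2339ce_nt.Q2.TB

namespace TV

open Fast

def lin (a b c d e : ℕ) (x1 x2 x3 x4 x5 x6 : ℤ) : ℤ :=
  a * x1 - b * x2 + 6 * x3 + c * x4 + d * x5 + e * x6

theorem lin_le (a b c d e : ℕ) (x1 x2 x3 x4 x5 x6 : ℤ) : |lin a b c d e x1 x2 x3 x4 x5 x6| ≤
    a * |x1| + b * |x2| + 6 * |x3| + c * |x4| + d * |x5| + e * |x6| := by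
  have h : ∀ (n : ℕ) (x : ℤ), -(n * |x|) ≤ n * x ∧ n * x ≤ n * |x| := fun n x => by
    rw [← abs_le, abs_mul, abs_of_nonneg (Int.natCast_nonneg n)]
  have h1 := h a x1
  have h2 := h b x2
  have h3 := le_abs_self x3
  have h7 := neg_abs_le x3
  have h4 := h c x4
  have h5 := h d x5
  have h6 := h e x6
  unfold lin
  rw [abs_le]
  omega

def cmb (a b c d e : ℕ) (f1 f2 f3 f4 f5 f6 : Lf) : Lf :=
  ⟨lin a b c d e f1.m f2.m f3.m f4.m f5.m f6.m, lin a b c d e f1.eN f2.eN f3.eN f4.eN f5.eN f6.eN,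
    lin a b c d e f1.ea f2.ea f3.ea f4.ea f5.ea f6.ea,
    lin a b c d e f1.eb f2.eb f3.eb f4.eb f5.eb f6.eb,
    lin a b c d e f1.ec f2.ec f3.ec f4.ec f5.ec f6.ec⟩

theorem nm_cmb (a b c d e : ℕ) (f1 f2 f3 f4 f5 f6 : Lf) : nm (cmb a b c d e f1 f2 f3 f4 f5 f6) ≤
    a * nm f1 + b * nm f2 + 6 * nm f3 + c * nm f4 + d * nm f5 + e * nm f6 := by
  have h0 := lin_le a b c d e f1.m f2.m f3.m f4.m f5.m f6.m
  have h1 := lin_le a b c d e f1.eN f2.eN f3.eN f4.eN f5.eN f6.eN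
  have h2 := lin_le a b c d e f1.ea f2.ea f3.ea f4.ea f5.ea f6.ea
  have h3 := lin_le a b c d e f1.eb f2.eb f3.eb f4.eb f5.eb f6.eb
  have h4 := lin_le a b c d e f1.ec f2.ec f3.ec f4.ec f5.ec f6.ec
  simp only [nm, cmb]
  linarith

theorem vz_cmb (B : Bx) (a b c d e : ℕ) (f1 f2 f3 f4 f5 f6 : Lf) :
    vz B (cmb a b c d e f1 f2 f3 f4 f5 f6) =
      lin a b c d e (vz B f1) (vz B f2) (vz B f3) (vz B f4) (vz B f5) (vz B f6) := by
  simp only [vz, cmb, lin]
  ring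

def cmY (U : Us) (y : Af) (lo hi : Lf) : Lf :=
  cmb y.k.toNat (-y.k).toNat y.e1.toNat y.e2.toNat y.e3.toNat hi lo ⟨y.m, y.eN, y.ea, y.eb, y.ec⟩
    U.U1 U.U2 U.U3

theorem nm_cmY (U : Us) (y : Af) (lo hi : Lf) (hy : sw y ≤ 2097152) (h0 : nm hi ≤ 1048576)
    (h1 : nm lo ≤ 1048576) (h2 : nm U.U1 ≤ 1048576) (h3 : nm U.U2 ≤ 1048576)
    (h4 : nm U.U3 ≤ 1048576) : nm (cmY U y lo hi) ≤ 17179869184 := by
  refine le_trans (nm_cmb ..) ?_
  have t0 := mul_le_mul_of_nonneg_left h0 (Int.natCast_nonneg y.k.toNat)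
  have t1 := mul_le_mul_of_nonneg_left h1 (Int.natCast_nonneg (-y.k).toNat)
  have t2 := mul_le_mul_of_nonneg_left h2 (Int.natCast_nonneg y.e1.toNat)
  have t3 := mul_le_mul_of_nonneg_left h3 (Int.natCast_nonneg y.e2.toNat)
  have t4 := mul_le_mul_of_nonneg_left h4 (Int.natCast_nonneg y.e3.toNat)
  have k : ∀ e : ℤ, (e.toNat : ℤ) + (-e).toNat ≤ |e| := fun e => by
    have := le_abs_self e
    have := neg_abs_le e
    omega
  have k0 := k y.k
  have k1 := k y.e1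
  have k2 := k y.e2
  have k3 := k y.e3
  have := abs_nonneg y.m
  have := abs_nonneg y.eN
  have := abs_nonneg y.ea
  have := abs_nonneg y.eb
  have := abs_nonneg y.ec
  have e : nm ⟨y.m, y.eN, y.ea, y.eb, y.ec⟩ =
    |y.m| + 1024 * (|y.eN| + |y.ea| + |y.eb| + |y.ec|) := rfl
  unfold sw at hy
  have := Int.natCast_nonneg y.k.toNat
  have := Int.natCast_nonneg (-y.k).toNat
  have := Int.natCast_nonneg y.e1.toNat
  have := Int.natCast_nonneg (-y.e1).toNat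
  have := Int.natCast_nonneg y.e2.toNat
  have := Int.natCast_nonneg (-y.e2).toNat
  have := Int.natCast_nonneg y.e3.toNat
  have := Int.natCast_nonneg (-y.e3).toNat
  linarith

theorem shl (a n : ℕ) : Nat.shiftLeft a n = a * 2 ^ n := Nat.shiftLeft_eq a n

theorem hn_eq (r v : ℕ) : hn r v = r * cX + v :=
  (congrArg (· + v) (shl r 320)).trans (by rw [cx])

theorem bx_eq (B : Bx) (U : Us) (v0 : ℕ) (lo : Lf) (y0 y1 y2 y3 y4 y5 y6 y7 y8 y9 y10 : ℕ) :
    bx B U v0 lo = bq cX [(y0, v0), (y1, vN B lo % cM), (y2, vP B U.U1 % cM),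
      (y3, vP B U.U2 % cM), (y4, vP B U.U3 % cM), (y5, 6), (y6, 6 * g1 B), (y7, 6 * g2 B),
      (y8, 6 * g3 B), (y9, 6 * g4 B),
      (y10, cC - 25165824 * (g1 B + g2 B + (g3 B + g4 B) + 1))] := by
  obtain ⟨-, -, -, -, -, -, -, -, -, -, -, -, -, -, a1, a2, -⟩ := cs3
  have e1 : bx B U v0 lo = Nat.shiftLeft (hn v0 (vN B lo % cM)) 2880 + (Nat.shiftLeft (hn (hn
    (vP B U.U1 % cM) (vP B U.U2 % cM)) (vP B U.U3 % cM)) 1920 + hn (hn (hn (hn (hn 6 (6 * g1 B))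
      (6 * g2 B)) (6 * g3 B)) (6 * g4 B))
      (cC - 25165824 * (g1 B + g2 B + (g3 B + g4 B) + 1))) := by
    unfold bx cmx cm6; rfl
  rw [e1, shl, shl, a1, a2]
  simp only [hn_eq, bq, List.length_cons, List.length_nil]
  ring

theorem md (v : ℕ) (z a : ℤ) (h : (v : ℤ) = a * cM + z) : ∃ n : ℤ, ((v % cM : ℕ) : ℤ) = z + n * cM :=
  ⟨a - (v / cM : ℕ), by
    have := Nat.mod_add_div v cM
    zify at this
    push_cast
    linarith⟩

theorem tK_eq (X F K Y : ℕ) : (tK X F K).v Y = fin3 F K (Nat.shiftRight (Y * X) 3200) := by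
  unfold tK fin3; rfl

structure Sm (B : Bx) (U : Us) (lo : Lf) : Prop where
  w : wf B = true
  s : sz1 B < 262144
  l : vN B lo < cE
  u1 : vP B U.U1 < cE
  u2 : vP B U.U2 < cE
  u3 : vP B U.U3 < cE

theorem lt_ble {a b : ℕ} (h : Nat.ble a b = false) : b < a :=
  Nat.lt_of_not_le fun h2 => by rw [Nat.ble_eq_true_of_le h2] at h; cases h

theorem sm_of {B : Bx} {U : Us} {lo : Lf} {z : ℕ} (w : wf B = true)
    (h1 : szx B U + vN B lo + z < cE) : Sm B U lo ∧ z < cE := by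
  have e : szx B U = Nat.shiftLeft (sz1 B) 289 + vP B U.U1 + (vP B U.U2 + vP B U.U3) := by
    unfold szx; rfl
  obtain ⟨-, -, a3, a4, -, -, -, -, -, -, -, -, -, a, -⟩ := cs3
  rw [e, shl, a] at h1
  have : sz1 B < 262144 := by
    refine Nat.lt_of_mul_lt_mul_right (a := 4 * cY) ?_
    omega
  exact ⟨⟨w, this, by omega, by omega, by omega, by omega⟩, by omega⟩

theorem tk_ok {B : Bx} {U : Us} {lo : Lf} (S : Sm B U lo) (hi : Lf) (v0 kb : ℕ) (n0 : ℤ)
    (hv : (v0 : ℤ) = vz B hi + kb * cW ^ 5 + n0 * cM) (vb : v0 ≤ cM) (hk : kb ≤ 1)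
    (hh : nm hi ≤ 1048576) (y : Af) (hy : sw y ≤ 2097152) (δ K : ℕ) (hK : K + δ = 2 ^ 43)
    (t : (tK (bx B U v0 lo) (fmx B) K).v (pk cX (ysl y) 0) = true) :
    kb * y.k.toNat = 0 ∧ (!bad B (cmY U y lo hi) &&
      !isP (Int.add (sup B (cmY U y lo hi)) (Int.ofNat δ))) = true := by
  obtain ⟨h0, h1, h2, h3, h4, h5, h6, h7, h8, -⟩ := sw_bd (Z := 8192) hy
  rw [abs_le] at h0 h1 h2 h3 h4 h5 h6 h7 h8
  obtain ⟨q1, q2, q3, q4⟩ := g_le S.w S.s
  obtain ⟨-, a2, -, a4, -, -, -, a8, -, -, -, -, -, -, -, -, a17, a18, -, a20, a21⟩ := cs3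
  have m0 : 0 < cM := by omega
  obtain ⟨n1, r1⟩ := md _ (-vz B lo) _ ((v_eq S.w S.s lo).2.1.trans (sub_eq_add_neg _ _))
  obtain ⟨n2, r2⟩ := md _ _ _ (v_eq S.w S.s U.U1).1
  obtain ⟨n3, r3⟩ := md _ _ _ (v_eq S.w S.s U.U2).1
  obtain ⟨n4, r4⟩ := md _ _ _ (v_eq S.w S.s U.U3).1
  have b1 := Nat.mod_lt (vN B lo) m0
  have b2 := Nat.mod_lt (vP B U.U1) m0
  have b3 := Nat.mod_lt (vP B U.U2) m0
  have b4 := Nat.mod_lt (vP B U.U3) m0
  rw [tK_eq, bx_eq B U v0 lo y.k.toNat (-y.k).toNat y.e1.toNat y.e2.toNat y.e3.toNat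
    (y.m + 4194304).toNat (y.eN + 4194304).toNat (y.ea + 4194304).toNat (y.eb + 4194304).toNat
    (y.ec + 4194304).toNat 1] at t
  generalize vN B lo % cM = v1 at *
  generalize vP B U.U1 % cM = v2 at *
  generalize vP B U.U2 % cM = v3 at *
  generalize vP B U.U3 % cM = v4 at *
  obtain ⟨v10, hc⟩ : ∃ v, v = cC - 25165824 * (g1 B + g2 B + (g3 B + g4 B) + 1) := ⟨_, rfl⟩
  rw [← hc] at t
  obtain ⟨Hi, e⟩ := dot2 cX 8388608 cM 10 (by omega) [(y.k.toNat, v0), ((-y.k).toNat, v1),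
    (y.e1.toNat, v2), (y.e2.toNat, v3), (y.e3.toNat, v4), ((y.m + 4194304).toNat, 6),
    ((y.eN + 4194304).toNat, 6 * g1 B), ((y.ea + 4194304).toNat, 6 * g2 B),
    ((y.eb + 4194304).toNat, 6 * g3 B), ((y.ec + 4194304).toNat, 6 * g4 B), (1, v10)]
    (by
      simp only [List.forall_mem_cons]
      refine ⟨?_, ?_, ?_, ?_, ?_, ?_, ?_, ?_, ?_, ?_, ?_, ?_⟩
      all_goals first | omega | exact fun _ h => absurd h List.not_mem_nil) rfl a18
  rw [← a17, ← Nat.shiftRight_eq_div_pow] at e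
  have hF := nm_cmY U y lo hi hy hh ((v_eq S.w S.s lo).2.2.2 S.l).le
    ((v_eq S.w S.s _).2.2.1 S.u1).le ((v_eq S.w S.s _).2.2.1 S.u2).le
    ((v_eq S.w S.s _).2.2.1 S.u3).le
  have kf : kb * y.k.toNat ≤ 8192 :=
    le_trans (Nat.mul_le_mul_right _ hk) (by omega)
  refine lanes S.w S.s _ hF _ kf _ (y.k.toNat * n0 + (-y.k).toNat * n1 + y.e1.toNat * n2 +
    y.e2.toNat * n3 + y.e3.toNat * n4 + 4294967296 * Hi) ?_ δ K hK t
  refine (congrArg Nat.cast e).trans ?_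
  have c : (v10 : ℤ) = cC - 25165824 * (g1 B + g2 B + (g3 B + g4 B) + 1) := by omega
  simp only [List.map_cons, List.map_nil, List.sum_cons, List.sum_nil]
  unfold cmY
  rw [vz_cmb, a8]
  push_cast
  rw [Int.toNat_of_nonneg (a := y.m + 4194304) (by omega),
    Int.toNat_of_nonneg (a := y.eN + 4194304) (by omega),
    Int.toNat_of_nonneg (a := y.ea + 4194304) (by omega),
    Int.toNat_of_nonneg (a := y.eb + 4194304) (by omega),
    Int.toNat_of_nonneg (a := y.ec + 4194304) (by omega), hv, r1, r2, r3, r4, c]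
  simp only [lin, vz]
  ring

theorem pp_nat (e : ℤ) : pp e = e.toNat := by cases e <;> rfl

theorem cm_lo (U : Us) (y : Af) (lo hi : Lf) (h : y.k ≤ 0) : cmY U y lo hi = afL U y lo := by
  have e1 : (y.k.toNat : ℤ) = 0 := by omega
  have e2 : ((-y.k).toNat : ℤ) = -y.k := by omega
  simp only [cmY, cmb, lin, afL, Lf.add, Lf.smul, Int.add_def, Int.mul_def, pp_nat, e1, e2,
    Lf.mk.injEq]
  refine ⟨?_, ?_, ?_, ?_, ?_⟩ <;> ring

theorem cm_hi (U : Us) (y : Af) (lo hi : Lf) (h : 0 < y.k) : cmY U y lo hi = afL U y hi := by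
  have e1 : (y.k.toNat : ℤ) = y.k := by omega
  have e2 : ((-y.k).toNat : ℤ) = 0 := by omega
  simp only [cmY, cmb, lin, afL, Lf.add, Lf.smul, Int.add_def, Int.mul_def, pp_nat, e1, e2,
    Lf.mk.injEq]
  refine ⟨?_, ?_, ?_, ?_, ?_⟩ <;> ring

theorem notP {e : ℤ} (h : e ≤ 0) : isP e = false := by
  rw [← Bool.not_eq_true, isP_iff]; omega

theorem vz0 (B : Bx) (F W M : ℕ) (h : F = W ^ 5) :
    (F : ℤ) = vz B ⟨0, 0, 0, 0, 0⟩ + (1 : ℕ) * (W : ℤ) ^ 5 + 0 * M := by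
  have e : vz B ⟨0, 0, 0, 0, 0⟩ = 0 + 0 * (g1 B : ℤ) + 0 * g2 B + 0 * g3 B + 0 * g4 B := by
    unfold vz; rfl
  rw [h, e, Nat.cast_pow, Nat.cast_one]
  simp only [zero_mul, add_zero, zero_add, one_mul]

/-- the test in a chain of windows for `e` -/
theorem tp_ok {B : Bx} {U : Us} {D : Lf} (S : Sm B U D) (δ K : ℕ) (hK : K + δ = 2 ^ 43) (Z : ℕ)
    (s : ℤ) (y : Af) (hs : 0 ≤ s) (hZ : (Z : ℤ) = cB + s * cX ^ 11 + pz y) (hy : sw y ≤ 2097152)
    (t : (tK (bx B U cF D) (fmx B) K).v (msk Z) = true) :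
    y.k ≤ 0 ∧ tstS δ false B U D D y = true := by
  rw [msk_eq Z s y hs hZ hy] at t
  obtain ⟨h1, h2⟩ := tk_ok S ⟨0, 0, 0, 0, 0⟩ cF 1 0
    (vz0 B cF cW cM cs3.2.2.2.2.2.2.2.2.1) (by decide +kernel) le_rfl (by decide) y hy δ K hK t
  have k : y.k ≤ 0 := by omega
  rw [cm_lo _ _ _ _ k] at h2
  refine ⟨k, ?_⟩
  unfold tstS
  rw [notP k]
  exact h2

theorem yP_ok {B : Bx} {U : Us} {D : Lf} (S : Sm B U D) (δ K : ℕ) (hK : K + δ = 2 ^ 43) (l h : Af)
    (t : (tK (bx B U cF D) (fmx B) K).v (yP l h) = true) :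
    tstS δ false B U D D (l.sub h) = true := by
  obtain ⟨l', e1, b1, c1⟩ := xp_spec l
  obtain ⟨h', e2, b2, c2⟩ := xn_spec h
  have p1 := sw_bd (Z := 4096) b1
  have p2 := sw_bd (Z := 4096) b2
  obtain ⟨k, r⟩ := tp_ok S δ K hK (xp l + xn h) (sw l' + sw h') (l'.sub h') (by omega)
    (by rw [Nat.cast_add, e1, e2, pz_sub]; ring) (by have := sw_sub l' h'; omega) t
  have k2 : l'.k - h'.k ≤ 0 := k
  have q : ∀ y : Af, sw y < 1048576 → -4096 < y.k ∧ y.k < 4096 := fun y hy => by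
    have := sw_bd (y := y) (Z := 4096) (by omega)
    unfold sw at hy
    have := abs_nonneg y.m
    have := abs_nonneg y.e1
    have := abs_nonneg y.e2
    have := abs_nonneg y.e3
    have := abs_nonneg y.eN
    have := abs_nonneg y.ea
    have := abs_nonneg y.eb
    have := abs_nonneg y.ec
    rw [← abs_lt]
    omega
  rcases c1 with ⟨rfl, d1⟩ | d1 <;> rcases c2 with ⟨rfl, d2⟩ | d2
  · exact r
  · have := q _ d1; omega
  · have := q _ d2; omega
  · omega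

theorem yS_ok {B : Bx} {U : Us} {D : Lf} (S : Sm B U D) (δ K : ℕ) (hK : K + δ = 2 ^ 43) (s : Af)
    (t : (tK (bx B U cF D) (fmx B) K).v (yS s) = true) :
    tstS δ false B U D D (Af.neg s) = true := by
  obtain ⟨h', e2, b2, c2⟩ := xn_spec s
  have p2 := sw_bd (Z := 4096) b2
  obtain ⟨k, r⟩ := tp_ok S δ K hK (xn s) (sw h') (Af.neg h') (by omega)
    (by rw [e2, pz_neg]; ring) (by rw [sw_neg]; omega) t
  have k2 : -h'.k ≤ 0 := k
  rcases c2 with ⟨rfl, -⟩ | d2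
  · exact r
  · omega

theorem yH_ok {B : Bx} {U : Us} {D : Lf} (S : Sm B U D) (δ K : ℕ) (hK : K + δ = 2 ^ 43) (x : Af)
    (t : (tK (bx B U cF D) (fmx B) K).v (yH x) = true) : tstS δ false B U D D x = true := by
  obtain ⟨h', e2, b2, c2⟩ := xp_spec x
  have p2 := sw_bd (Z := 4096) b2
  obtain ⟨k, r⟩ := tp_ok S δ K hK (cB + xp x) (sw h') h' (by omega)
    (by rw [Nat.cast_add, e2]; ring) (by omega) t
  rcases c2 with ⟨rfl, -⟩ | d2
  · exact r
  · omega

theorem and_e {p b : Bool} (h : @Bool.rec (fun _ => Bool) false p b = true) :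
    b = true ∧ p = true := by
  cases b with
  | false => cases h
  | true => exact ⟨rfl, h⟩

theorem and_n {p b : Bool} (h : @Bool.rec (fun _ => Bool) p false b = true) :
    b = false ∧ p = true := by
  cases b with
  | false => exact ⟨rfl, h⟩
  | true => cases h

theorem allY_ok {t : ℕ → Bool} {y : Af → ℕ} {L : List Af} (h : allY t y L = true) :
    ∀ x ∈ L, t (y x) = true := by
  induction L with
  | nil => exact fun _ h => absurd h List.not_mem_nil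
  | cons x L ih =>
    obtain ⟨h1, h2⟩ := and_e h
    exact List.forall_mem_cons.2 ⟨h1, ih h2⟩

theorem crossY_ok {t : ℕ → Bool} {p : Af → Bool} (hp : ∀ l h, t (yP l h) = true → p (l.sub h) = true)
    {hs ls : List Af} (h : crossY t hs ls = true) : (cross hs ls).all p = true := by
  induction hs with
  | nil => rfl
  | cons x hs ih =>
    obtain ⟨h1, h2⟩ := and_e h
    have h3 := allY_ok (t := t) (y := fun l => yP l x) (L := ls) h1
    have h4 := ih h2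
    unfold cross at h4 ⊢
    rw [List.flatMap_cons, List.all_append, h4, Bool.and_true, List.all_map, List.all_eq_true]
    exact fun l hl => hp l x (h3 l hl)

theorem goY_ok {t0 t1 : ℕ → Bool} {p q : Af → Bool} (hq : ∀ s, t0 (yS s) = true → q s = true)
    (hp : ∀ l h, t1 (yP l h) = true → p (l.sub h) = true) (wt : List Wn) (pr i : ℕ) (ix : List ℕ)
    (hs : List Af) (h : goY t0 t1 wt pr i ix hs = true) :
    (ix.all fun j => Nat.blt j wt.length) = true ∧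
    allA (fun w => allA q w.sd) (ix.map fun j => wt.getD j wn0) = true ∧
    (go pr i (ix.map fun j => wt.getD j wn0) hs).all p = true := by
  induction ix generalizing hs with
  | nil =>
    refine ⟨rfl, rfl, ?_⟩
    cases hs with
    | nil => rfl
    | cons x hs =>
      obtain ⟨h1, h2⟩ := and_e h
      show ((tlo pr (i + 1)).sub (thi pr i) :: cross (x :: hs) [tlo pr i]).all p = true
      rw [List.all_cons, hp _ _ h1, crossY_ok hp h2]
      rfl
  | cons j ix ih =>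
    have e1 : inG wt j = @List.rec Wn (fun _ => Bool) false (fun _ _ _ => true) (tlN wt j) := rfl
    have e2 : get2 wt wn0 j = @List.rec Wn (fun _ => Wn) wn0 (fun x _ _ => x) (tlN wt j) := rfl
    have e3 : goY t0 t1 wt pr i (j :: ix) hs = @List.rec Wn (fun _ => Bool) false
      (fun w _ _ => @Bool.rec (fun _ => Bool) false (@Bool.rec (fun _ => Bool) false
        (goY t0 t1 wt pr i ix w.hi) (crossY t1 hs w.lo)) (allY t0 yS w.sd)) (tlN wt j) := rfl
    rw [inG_eq] at e1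
    rw [get2_eq] at e2
    rw [e3] at h
    generalize tlN wt j = T at e1 e2 h
    cases T with
    | nil => cases h
    | cons w T =>
      obtain ⟨h1, h2⟩ := and_e h
      obtain ⟨h3, h4⟩ := and_e h2
      obtain ⟨i1, i2, i3⟩ := ih _ h4
      have e4 : wt.getD j wn0 = w := e2
      have e5 : Nat.blt j wt.length = true := e1
      rw [List.all_cons, List.map_cons, e4, e5, i1, go, List.all_append, i3, crossY_ok hp h3]
      refine ⟨rfl, ?_, rfl⟩
      rw [allA_eq, List.all_cons, ← allA_eq, i2, allA_eq, Bool.and_true, List.all_eq_true]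
      exact fun s hs => hq s (allY_ok h1 s hs)

theorem hw_sw (i : ℕ) : ∀ x ∈ hw i, sw x < 1048576 ∧ xp x = xP x := by
  match i with
  | 0 => decide +kernel
  | 1 => decide +kernel
  | 2 => decide +kernel
  | 3 => decide +kernel
  | 4 => decide +kernel
  | n + 5 => exact (by decide +kernel : ∀ x ∈ hw 5, sw x < 1048576 ∧ xp x = xP x)

theorem frc' {α : Type} (x : ℕ) (k : ℕ → α) : frc x k = k x := (frc_eq x k).trans rfl

theorem hpC_ok {w z : Bool} {x f : ℕ} {A : (ℕ → Bool) → Bool} {G : (ℕ → Bool) → (ℕ → Bool) → Bool}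
    (h : hpC w z x f A G = true) : w = true ∧ z = false ∧ A (tK x f cJ).v = true ∧
      G (tK x f cK).v (tK x f cJ).v = true := by
  unfold hpC at h
  obtain ⟨h0, h1⟩ := and_e h
  obtain ⟨h2, h3⟩ := and_n h1
  rw [frc', frc'] at h3
  exact ⟨h0, h2, and_e h3⟩

theorem hwC_ok {r w z : Bool} {x f : ℕ} {A : (ℕ → Bool) → Bool} (h : hwC r w z x f A = true) :
    r = true ∧ w = true ∧ z = false ∧ A (tK x f cK).v = true := by
  unfold hwC at h
  obtain ⟨h0, h1⟩ := and_e h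
  obtain ⟨h2, h3⟩ := and_e h1
  obtain ⟨h4, h5⟩ := and_n h3
  rw [frc'] at h5
  exact ⟨h0, h2, h4, h5⟩

end TV

open TV Fast

theorem hpOKG_ok {wt : List Wn} {ix : List ℕ} {pr i : ℕ} {B : Bx} {U : Us} {D : Lf}
    (h : hpOKG wt ix pr i B U D = true) : hpOKF wt ix pr i B U D = true := by
  unfold hpOKG at h
  obtain ⟨w, z, h3, h4⟩ := hpC_ok h
  have S : Sm B U D := (sm_of (z := 0) w (by rw [Nat.add_zero]; exact lt_ble z)).1
  have k0 : cK + 0 = 2 ^ 43 := cs3.2.2.2.2.2.2.2.2.2.2.2.1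
  have k1 : cJ + 1 = 2 ^ 43 := cs3.2.2.2.2.2.2.2.2.2.2.2.2.1
  obtain ⟨i1, i2, i3⟩ := goY_ok (q := fun s => tstS 0 false B U D D (Af.neg s))
    (yS_ok S 0 cK k0) (yP_ok S 1 cJ k1) wt pr i ix _ h4
  have i4 : allA (tstS 1 false B U D D) start = true := by
    rw [allA_eq, List.all_eq_true]
    exact fun x hx => yH_ok S 1 cJ k1 x (allY_ok h3 x hx)
  unfold hpOKF hpF
  rw [tstA_eq, tstA_eq, i1, i2, i4, goA_eq, i3]
  rfl

theorem hwG_ok {reg : Bool} {i : ℕ} {B : Bx} {U : Us} {lo hi : Lf}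
    (h : hwG reg i B U lo hi = true) : hwOK2 reg i B U lo hi = true := by
  unfold hwG at h
  obtain ⟨r, w, z, h2⟩ := hwC_ok h
  obtain ⟨S, hz⟩ := sm_of w (lt_ble z)
  unfold hwOK2
  rw [r, tstA_eq, Bool.true_and, allA_eq, List.all_eq_true]
  intro x hx
  have t := allY_ok h2 x hx
  obtain ⟨b, e⟩ := hw_sw i x hx
  have p := sw_bd (y := x) (Z := 4096) (by omega)
  have e2 : yH x = pk cX (ysl x) 0 := msk_eq (cB + xp x) (sw x) x (by omega)
    (by rw [e, Nat.cast_add, (x_eq x).1]; ring) (by omega)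
  rw [e2] at t
  obtain ⟨n, hn⟩ := md _ _ _ (v_eq S.w S.s hi).1
  obtain ⟨-, h3⟩ := tk_ok S hi (vP B hi % cM) 0 n (by rw [hn]; ring)
    (Nat.mod_lt _ (by decide +kernel)).le (by norm_num) ((v_eq S.w S.s hi).2.2.1 hz).le x
    (by omega) 0 cK cs3.2.2.2.2.2.2.2.2.2.2.2.1 t
  unfold tstS
  cases hk : isP x.k with
  | true => rw [cm_hi _ _ _ _ ((isP_iff _).1 hk)] at h3; exact h3
  | false =>
    rw [cm_lo _ _ _ _ (by
      by_contra h4
      rw [(isP_iff _).2 (by omega)] at hk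
      cases hk)] at h3
    exact h3

end Pool.Agent.MP_2339ce_nt.Q2.TB
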