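import Pool.Agent.MP_2339ce_nt.Q2.TVBit

/-! Project Q2, block TV: the packed monomials and the packed forms. -/

set_option autoImplicit false

noncomputable section

namespace Pool.Agent.MP_2339ce_nt.Q2.TB.TV

def sg (p n : ℕ) (e : ℤ) : ℕ :=
  @Int.rec (fun _ => ℕ) (fun a => Nat.mul a p) (fun a => Nat.mul (Nat.succ a) n) e

theorem sg_eq {p n : ℕ} {T P : ℤ} (e : ℤ) (hp : (p : ℤ) = T + P) (hn : (n : ℤ) = T - P) :
    (sg p n e : ℤ) = |e| * T + e * P := by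
  cases e with
  | ofNat a =>
    show ((a * p : ℕ) : ℤ) = |(a : ℤ)| * T + (a : ℤ) * P
    rw [abs_of_nonneg (Int.natCast_nonneg a)]
    push_cast
    rw [hp]; ring
  | negSucc a =>
    show (((a + 1) * n : ℕ) : ℤ) = _
    rw [abs_of_neg (Int.negSucc_lt_zero a), Int.negSucc_eq]
    push_cast
    rw [hn]; ring

theorem sg_ge {p n z : ℕ} (e : ℤ) (hp : z ≤ p) (hn : z ≤ n) : |e| * z ≤ (sg p n e : ℤ) := by
  cases e with
  | ofNat a =>
    show |(a : ℤ)| * z ≤ ((a * p : ℕ) : ℤ)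
    rw [abs_of_nonneg (Int.natCast_nonneg a)]
    exact_mod_cast Nat.mul_le_mul_left a hp
  | negSucc a =>
    show _ ≤ (((a + 1) * n : ℕ) : ℤ)
    rw [abs_of_neg (Int.negSucc_lt_zero a), Int.negSucc_eq, neg_neg]
    exact_mod_cast Nat.mul_le_mul_left (a + 1) hn

def cZ : ℕ := Nat.pow 2 3519

theorem cs1 : kP + cX = 256 * cX ^ 11 + 1 ∧ kN + 1 = 256 * cX ^ 11 + cX ∧
    c2P = 256 * cX ^ 11 + cX ^ 2 ∧ c2N + cX ^ 2 = 256 * cX ^ 11 ∧
    c3P = 256 * cX ^ 11 + cX ^ 3 ∧ c3N + cX ^ 3 = 256 * cX ^ 11 ∧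
    c4P = 256 * cX ^ 11 + cX ^ 4 ∧ c4N + cX ^ 4 = 256 * cX ^ 11 ∧
    c5P = cX ^ 11 + cX ^ 5 ∧ c5N + cX ^ 5 = cX ^ 11 ∧
    c6P = 256 * cX ^ 11 + cX ^ 6 ∧ c6N + cX ^ 6 = 256 * cX ^ 11 ∧
    c7P = 256 * cX ^ 11 + cX ^ 7 ∧ c7N + cX ^ 7 = 256 * cX ^ 11 ∧
    c8P = 256 * cX ^ 11 + cX ^ 8 ∧ c8N + cX ^ 8 = 256 * cX ^ 11 ∧
    c9P = 256 * cX ^ 11 + cX ^ 9 ∧ c9N + cX ^ 9 = 256 * cX ^ 11 := by decide +kernel

theorem cs2 : 256 * cZ ≤ kP ∧ 256 * cZ ≤ kN ∧ 256 * cZ ≤ c2P ∧ 256 * cZ ≤ c2N ∧ 256 * cZ ≤ c3P ∧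
    256 * cZ ≤ c3N ∧ 256 * cZ ≤ c4P ∧ 256 * cZ ≤ c4N ∧ cZ ≤ c5P ∧ cZ ≤ c5N ∧ 256 * cZ ≤ c6P ∧
    256 * cZ ≤ c6N ∧ 256 * cZ ≤ c7P ∧ 256 * cZ ≤ c7N ∧ 256 * cZ ≤ c8P ∧ 256 * cZ ≤ c8N ∧
    256 * cZ ≤ c9P ∧ 256 * cZ ≤ c9N ∧ cL = 1048576 * cZ ∧ 0 < cZ := by decide +kernel

def pz (x : Af) : ℤ :=
  x.k * (1 - cX) + x.e1 * cX ^ 2 + x.e2 * cX ^ 3 + x.e3 * cX ^ 4 + x.m * cX ^ 5 + x.eN * cX ^ 6 +
    x.ea * cX ^ 7 + x.eb * cX ^ 8 + x.ec * cX ^ 9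

def sw (x : Af) : ℤ :=
  |x.m| + 256 * (|x.k| + |x.e1| + |x.e2| + |x.e3| + |x.eN| + |x.ea| + |x.eb| + |x.ec|)

theorem xP_sg (x : Af) : xP x = sg kP kN x.k + sg c2P c2N x.e1 + sg c3P c3N x.e2 +
    sg c4P c4N x.e3 + sg c5P c5N x.m + sg c6P c6N x.eN + sg c7P c7N x.ea + sg c8P c8N x.eb +
    sg c9P c9N x.ec := by cases x; rfl

theorem xN_sg (x : Af) : xN x = sg kN kP x.k + sg c2N c2P x.e1 + sg c3N c3P x.e2 +
    sg c4N c4P x.e3 + sg c5N c5P x.m + sg c6N c6P x.eN + sg c7N c7P x.ea + sg c8N c8P x.eb +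
    sg c9N c9P x.ec := by cases x; rfl

theorem x_eq (x : Af) : (xP x : ℤ) = sw x * cX ^ 11 + pz x ∧ (xN x : ℤ) = sw x * cX ^ 11 - pz x := by
  obtain ⟨a0, b0, a2, b2, a3, b3, a4, b4, a5, b5, a6, b6, a7, b7, a8, b8, a9, b9⟩ := cs1
  zify at a0 b0 a2 b2 a3 b3 a4 b4 a5 b5 a6 b6 a7 b7 a8 b8 a9 b9
  rw [xP_sg, xN_sg]
  unfold sw pz
  push_cast
  generalize (cX : ℤ) ^ 11 = Q at *
  constructor
  · rw [sg_eq (T := 256 * Q) (P := 1 - cX) _ (by linarith) (by linarith),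
      sg_eq _ a2 (by linarith), sg_eq _ a3 (by linarith), sg_eq _ a4 (by linarith),
      sg_eq _ a5 (by linarith), sg_eq _ a6 (by linarith), sg_eq _ a7 (by linarith),
      sg_eq _ a8 (by linarith), sg_eq _ a9 (by linarith)]
    ring
  · rw [sg_eq (T := 256 * Q) (P := cX - 1) _ (by linarith) (by linarith),
      sg_eq (T := 256 * Q) (P := -cX ^ 2) x.e1 (by linarith) (by linarith),
      sg_eq (T := 256 * Q) (P := -cX ^ 3) x.e2 (by linarith) (by linarith),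
      sg_eq (T := 256 * Q) (P := -cX ^ 4) x.e3 (by linarith) (by linarith),
      sg_eq (T := Q) (P := -cX ^ 5) x.m (by linarith) (by linarith),
      sg_eq (T := 256 * Q) (P := -cX ^ 6) x.eN (by linarith) (by linarith),
      sg_eq (T := 256 * Q) (P := -cX ^ 7) x.ea (by linarith) (by linarith),
      sg_eq (T := 256 * Q) (P := -cX ^ 8) x.eb (by linarith) (by linarith),
      sg_eq (T := 256 * Q) (P := -cX ^ 9) x.ec (by linarith) (by linarith)]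
    ring

theorem x_lt (x : Af) : (xP x < cL → sw x < 1048576) ∧ (xN x < cL → sw x < 1048576) := by
  obtain ⟨a0, b0, a2, b2, a3, b3, a4, b4, a5, b5, a6, b6, a7, b7, a8, b8, a9, b9, hL, hZ⟩ := cs2
  have z : (0 : ℤ) < cZ := by exact_mod_cast hZ
  constructor <;> intro h <;> refine lt_of_mul_lt_mul_right (a := (cZ : ℤ)) ?_ z.le
  · rw [xP_sg, hL] at h
    zify at h
    have := sg_ge x.k a0 b0
    have := sg_ge x.e1 a2 b2
    have := sg_ge x.e2 a3 b3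
    have := sg_ge x.e3 a4 b4
    have := sg_ge x.m a5 b5
    have := sg_ge x.eN a6 b6
    have := sg_ge x.ea a7 b7
    have := sg_ge x.eb a8 b8
    have := sg_ge x.ec a9 b9
    push_cast at *
    unfold sw
    linarith
  · rw [xN_sg, hL] at h
    zify at h
    have := sg_ge x.k b0 a0
    have := sg_ge x.e1 b2 a2
    have := sg_ge x.e2 b3 a3
    have := sg_ge x.e3 b4 a4
    have := sg_ge x.m b5 a5
    have := sg_ge x.eN b6 a6
    have := sg_ge x.ea b7 a7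
    have := sg_ge x.eb b8 a8
    have := sg_ge x.ec b9 a9
    push_cast at *
    unfold sw
    linarith

theorem xp_spec (x : Af) : ∃ y : Af, (xp x : ℤ) = sw y * cX ^ 11 + pz y ∧ sw y ≤ 1048576 ∧
    ((y = x ∧ sw y < 1048576) ∨ y.k = 4096) := by
  have e : xp x = @Bool.rec (fun _ => ℕ) (xP x) bdP (Nat.ble cL (xP x)) := by unfold xp; rfl
  rw [e]
  cases h : Nat.ble cL (xP x) with
  | true => exact ⟨_, (x_eq ⟨4096, 0, 0, 0, 0, 0, 0, 0, 0⟩).1, by decide, Or.inr rfl⟩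
  | false =>
    have := (x_lt x).1 (Nat.lt_of_not_le fun h2 => by rw [Nat.ble_eq_true_of_le h2] at h; cases h)
    exact ⟨x, (x_eq x).1, this.le, Or.inl ⟨rfl, this⟩⟩

theorem xn_spec (x : Af) : ∃ y : Af, (xn x : ℤ) = cB + (sw y * cX ^ 11 - pz y) ∧ sw y ≤ 1048576 ∧
    ((y = x ∧ sw y < 1048576) ∨ y.k = -4096) := by
  have e : xn x = cB + @Bool.rec (fun _ => ℕ) (xN x) bdN (Nat.ble cL (xN x)) := rfl
  rw [e, Nat.cast_add]
  cases h : Nat.ble cL (xN x) with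
  | true =>
    exact ⟨_, congrArg _ (x_eq ⟨-4096, 0, 0, 0, 0, 0, 0, 0, 0⟩).2, by decide, Or.inr rfl⟩
  | false =>
    have := (x_lt x).2 (Nat.lt_of_not_le fun h2 => by rw [Nat.ble_eq_true_of_le h2] at h; cases h)
    exact ⟨x, congrArg _ (x_eq x).2, this.le, Or.inl ⟨rfl, this⟩⟩

theorem sw_bd {y : Af} {Z : ℤ} (h : sw y ≤ 256 * Z) : |y.m| ≤ 256 * Z ∧ |y.k| ≤ Z ∧ |y.e1| ≤ Z ∧
    |y.e2| ≤ Z ∧ |y.e3| ≤ Z ∧ |y.eN| ≤ Z ∧ |y.ea| ≤ Z ∧ |y.eb| ≤ Z ∧ |y.ec| ≤ Z ∧ 0 ≤ sw y := by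
  unfold sw at *
  have := abs_nonneg y.m
  have := abs_nonneg y.k
  have := abs_nonneg y.e1
  have := abs_nonneg y.e2
  have := abs_nonneg y.e3
  have := abs_nonneg y.eN
  have := abs_nonneg y.ea
  have := abs_nonneg y.eb
  have := abs_nonneg y.ec
  omega

theorem sw_sub (x y : Af) : sw (x.sub y) ≤ sw x + sw y := by
  unfold sw Af.sub
  have := abs_sub x.m y.m
  have := abs_sub x.k y.k
  have := abs_sub x.e1 y.e1
  have := abs_sub x.e2 y.e2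
  have := abs_sub x.e3 y.e3
  have := abs_sub x.eN y.eN
  have := abs_sub x.ea y.ea
  have := abs_sub x.eb y.eb
  have := abs_sub x.ec y.ec
  dsimp only
  omega

theorem sw_neg (x : Af) : sw (Af.neg x) = sw x := by simp only [sw, Af.neg, abs_neg]

theorem pz_sub (x y : Af) : pz (x.sub y) = pz x - pz y := by simp only [pz, Af.sub]; ring

theorem pz_neg (x : Af) : pz (Af.neg x) = -pz x := by simp only [pz, Af.neg]; ring

def ysl (y : Af) : List ℕ :=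
  [y.k.toNat, (-y.k).toNat, y.e1.toNat, y.e2.toNat, y.e3.toNat, (y.m + 4194304).toNat,
    (y.eN + 4194304).toNat, (y.ea + 4194304).toNat, (y.eb + 4194304).toNat,
    (y.ec + 4194304).toNat, 1]

theorem cx : 2 ^ 320 = cX := by decide +kernel

theorem ch : cH = pk (2 ^ 320) (List.replicate 11 (2 ^ 23)) 0 := by decide +kernel

theorem msk_eq (D : ℕ) (S : ℤ) (y : Af) (hS : 0 ≤ S) (hD : (D : ℤ) = cB + S * cX ^ 11 + pz y)
    (hy : sw y ≤ 2097152) : msk D = pk cX (ysl y) 0 := by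
  obtain ⟨h0, h1, h2, h3, h4, h5, h6, h7, h8, _⟩ := sw_bd (Z := 8192) hy
  rw [abs_le] at h0 h1 h2 h3 h4 h5 h6 h7 h8
  have e : D = pk cX [(y.k + 8388608).toNat, (-y.k + 8388608).toNat, (y.e1 + 8388608).toNat,
      (y.e2 + 8388608).toNat, (y.e3 + 8388608).toNat, (y.m + 12582912).toNat,
      (y.eN + 12582912).toNat, (y.ea + 12582912).toNat, (y.eb + 12582912).toNat,
      (y.ec + 12582912).toNat, 8388609] S.toNat := by
    refine Nat.cast_injective (R := ℤ) ?_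
    rw [hD]
    simp only [cB, pz, pk_cons, pk_nil]
    push_cast
    rw [Int.toNat_of_nonneg hS, Int.toNat_of_nonneg (by omega), Int.toNat_of_nonneg (by omega),
      Int.toNat_of_nonneg (by omega), Int.toNat_of_nonneg (by omega),
      Int.toNat_of_nonneg (by omega), Int.toNat_of_nonneg (by omega),
      Int.toNat_of_nonneg (by omega), Int.toNat_of_nonneg (by omega),
      Int.toNat_of_nonneg (by omega), Int.toNat_of_nonneg (by omega)]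
    ring
  rw [← cx] at e
  refine (ms3 320 23 (by norm_num) _ _ ?_ D cH e ch).trans ?_
  · simp only [List.forall_mem_cons]
    refine ⟨?_, ?_, ?_, ?_, ?_, ?_, ?_, ?_, ?_, ?_, ?_, ?_⟩
    all_goals first | omega | exact fun _ h => absurd h List.not_mem_nil
  · rw [cx]
    refine congrArg (fun L => pk cX L 0) ?_
    simp only [ysl, List.map_cons, List.map_nil, List.cons.injEq, and_true]
    omega

end Pool.Agent.MP_2339ce_nt.Q2.TB.TV
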