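import Pool.Agent.MP_2339ce_nt.Q2.TCFastA

/-! Project Q2, block TX: a cheaper expansion with weighted truncation; programs. -/

set_option autoImplicit false

noncomputable section

namespace Pool.Agent.MP_2339ce_nt.Q2.TB

/-- lists of terms: packed exponents and coefficient -/
inductive PL where
  | nil : PL
  | cons (k : ℕ) (c : ℤ) (tl : PL) : PL

def eqm (k : ℕ) (c : ℤ) (r : PL) : PL :=
  @Bool.rec (fun _ => PL) (.cons k c r) r (Nat.beq (Int.natAbs c) 0)

def mg3 (k : ℕ) (c : ℤ) (ih : PL → PL) (k' : ℕ) (c' : ℤ) (tl' : PL) : PL :=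
  @Bool.rec (fun _ => PL) (.cons k c (ih (.cons k' c' tl'))) (eqm k (Int.add c c') (ih tl'))
    (Nat.ble k' k)

def mgX (X : PL) : PL → PL :=
  @PL.rec (fun _ => PL → PL) (fun Y => Y) (fun k c tl ih Y =>
    @PL.rec (fun _ => PL) (.cons k c tl) (fun k' c' tl' ih' =>
      @Bool.rec (fun _ => PL) (.cons k' c' ih') (mg3 k c ih k' c' tl') (Nat.ble k k')) Y) X

/-- `-Q c` -/
def ngm (Q : ℕ) (c : ℤ) : ℤ :=
  @Int.rec (fun _ => ℤ) (fun n => @Nat.rec (fun _ => ℤ) (Int.ofNat 0) (fun p _ => Int.negSucc p)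
    (Nat.mul Q n)) (fun n => frc (Nat.mul Q (Nat.succ n)) Int.ofNat) c

/-- the terms at the front with `k < M`, shifted by `K`, times `-Q` -/
def levX (M K Q : ℕ) (L : PL) : PL :=
  @PL.rec (fun _ => PL) .nil (fun k c _ ih => @Bool.rec (fun _ => PL)
    (.cons (Nat.add k K) (ngm Q c) ih) .nil (Nat.ble M k)) L

/-- the same terms with the absolute values of the coefficients -/
def errX (M K Q : ℕ) (L : PL) : PL :=
  @PL.rec (fun _ => PL) .nil (fun k c _ ih => @Bool.rec (fun _ => PL)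
    (.cons (Nat.add k K) (Int.ofNat (Nat.mul Q (Int.natAbs c))) ih) .nil (Nat.ble M k)) L

def allX (K Q : ℕ) (L : PL) : PL :=
  @PL.rec (fun _ => PL) .nil (fun k c _ ih =>
    .cons (Nat.add k K) (Int.ofNat (Nat.mul Q (Int.natAbs c))) ih) L

def drpX (M : ℕ) (L : PL) : PL :=
  @PL.rec (fun _ => PL) .nil (fun k c tl ih => @Bool.rec (fun _ => PL) ih (.cons k c tl)
    (Nat.ble M k)) L

/-- twice the Catalan numbers -/
def aa (n : ℕ) : ℕ :=
  @Nat.rec (fun _ => ℕ) 2 (fun n r => Nat.div (Nat.mul r (Nat.add (Nat.mul 4 n) 2)) (Nat.add n 2)) n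

/-- the orders `n - j + 1, …, n` -/
def goP (Lim sk n : ℕ) (L : PL) (j : ℕ) : PL :=
  @Nat.rec (fun _ => PL) .nil (fun i r => frc (Nat.sub n i) fun o => frc (Nat.mul o sk) fun K =>
    frc (Nat.sub Lim K) fun M => frc (aa (Nat.pred o)) fun Q => mgX (levX M K Q L) r) j

def goE (Lim sk n : ℕ) : PL → PL :=
  @Nat.rec (fun _ => PL → PL) (fun S => allX sk 4 S) (fun i ih S =>
    frc (Nat.mul (Nat.succ i) sk) fun K => frc (Nat.sub Lim K) fun M =>
    frc (Nat.add K sk) fun K' => frc (Nat.mul 2 (aa (Nat.succ i))) fun Q =>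
      mgX (errX M K' Q S) (ih (drpX M S))) n

/-- multiply by the series, with the orders `0, …, n` at most -/
def mulX (g : Bool) (Lim sk n : ℕ) (X : PL × PL) : PL × PL :=
  @Bool.rec (fun _ => PL × PL) X
    (frc sk fun sk => (mgX X.1 (goP Lim sk n X.1 n), mgX (goE Lim sk n X.1) X.2)) g

/-- weights of the exponents, and the bound -/
structure Wt where
  wi : ℕ
  wj : ℕ
  wk : ℕ
  wl : ℕ
  wm : ℕ
  wn : ℕ
  T : ℕ

def pk (v i j k l m : ℕ) : ℕ := ((((v * 1024 + m) * 1024 + l) * 1024 + i) * 1024 + j) * 1024 + k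

def Wt.pos (w : Wt) (i j k l m : ℕ) : ℕ := w.wi * i + w.wj * j + w.wk * k + w.wl * l + w.wm * m

def Wt.lim (w : Wt) : ℕ := (w.T + 1000 * w.wn + 1) * 2 ^ 50

def Wt.st (w : Wt) (s : St) : ℕ := pk (w.pos s.i s.j s.k s.l 1 - w.wn) s.i s.j s.k s.l 1

def Wt.key (w : Wt) (i j k m : ℕ) : ℕ := pk (w.pos i j k 0 m + w.wn * (1000 - m)) i j k 0 m

def convX (h : ℕ) (w : Wt) (C : Cl) : PL :=
  @List.rec T0 (fun _ => PL) .nil (fun u _ r =>
    frc (w.key (h - e0 C u) (h - e1 C u) (h - e2 C u) u.l) fun k =>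
      .cons k (u.c * 4 ^ u.l) r) C.P

def expS (h : ℕ) (w : Wt) (Lim n nv : ℕ) (C : Cl) : PL × PL :=
  mulX true Lim (w.st (sV C.v)) nv (mulX C.gt Lim (w.st sT) n (mulX C.gs Lim (w.st sS) n
    (convX h w C, .nil)))

def addX (X Y : PL × PL) : PL × PL := (mgX X.1 Y.1, mgX X.2 Y.2)

/-- the sum over the classes with `gr = g` -/
def sumS (h : ℕ) (w : Wt) (Lim n nv : ℕ) (g : Bool) (F : List Cl) : PL × PL :=
  @List.rec Cl (fun _ => PL × PL) (.nil, .nil) (fun C _ r =>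
    @Bool.rec (fun _ => PL × PL) r (addX (expS h w Lim n nv C) r) (C.gr == g)) F

def dec (L : PL) : List Tm :=
  @PL.rec (fun _ => List Tm) [] (fun k c _ ih => @Nat.rec (fun _ => List Tm) [] (fun l _ =>
    ⟨c, k, Nat.mod (Nat.div k (nat_lit 1048576)) (nat_lit 1024),
      Nat.mod (Nat.div k (nat_lit 1024)) (nat_lit 1024), Nat.mod k (nat_lit 1024), l,
      Nat.mod (Nat.div k (nat_lit 1099511627776)) (nat_lit 1024)⟩ :: ih)
    (Nat.succ (Nat.mod (Nat.div k (nat_lit 1073741824)) (nat_lit 1024)))) L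

def expX (h : ℕ) (w : Wt) (c cap : ℕ) (F : List Cl) : PL × PL :=
  frc w.lim fun Lim => frc (Nat.pred c) fun n => frc (Nat.pred cap) fun nv =>
    addX (sumS h w Lim n nv false F) (mulX true Lim (w.st sR) n (sumS h w Lim n nv true F))

/-- `c` and `cap` bound the number of orders of the series for `r, s, t` and for `x, y, z` -/
def expandX (h : ℕ) (w : Wt) (c cap : ℕ) (F : List Cl) : List Tm × List Tm :=
  (dec (expX h w c cap F).1, dec (expX h w c cap F).2)

def okX (h c cap : ℕ) (F : List Cl) : Bool :=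
  okH h F && Nat.ble h 500 && Nat.ble c 60 && Nat.ble cap 60 &&
    F.all fun C => C.P.all fun u => Nat.ble u.l 500

def expOKX (h : ℕ) (w : Wt) (c cap : ℕ) (F : List Cl) (P E : List Tm) : Bool :=
  okX h c cap F && eqL (expandX h w c cap F).1 P && eqL (expandX h w c cap F).2 E

end Pool.Agent.MP_2339ce_nt.Q2.TB
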