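import Pool.Agent.MP_2339ce_nt.Q2.TXDef
import Mathlib.Analysis.Calculus.Deriv.MeanValue
import Mathlib.Analysis.Calculus.Deriv.Pow
import Mathlib.Analysis.Calculus.Deriv.Inv

/-! Project Q2, block TX: the remainder of the series of the square root. -/

set_option autoImplicit false

noncomputable section

namespace Pool.Agent.MP_2339ce_nt.Q2.TB.TX

open Finset

theorem cmp (p p' : ℝ → ℝ) {u : ℝ} (h0 : 0 ≤ u) (hu : 8 * u ≤ 1)
    (hd : ∀ v, HasDerivAt p (p' v) v)
    (h : ∀ v, 0 ≤ v → v ≤ u → 0 ≤ (1 - 4 * v) * p' v + 2 * p v) : p 0 * √(1 - 4 * u) ≤ p u := by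
  have key : ∀ v, v ≤ u → HasDerivAt (fun y => p y / √(1 - 4 * y))
      (((1 - 4 * v) * p' v + 2 * p v) / √(1 - 4 * v) ^ 3) v := fun v hv => by
    have a : 0 < 1 - 4 * v := by linarith
    have b : 0 < √(1 - 4 * v) := Real.sqrt_pos.2 a
    have c : HasDerivAt (fun y : ℝ => 1 - 4 * y) (-4) v := by
      simpa using ((hasDerivAt_id v).const_mul (4 : ℝ)).const_sub 1
    have d := Real.sq_sqrt a.le
    refine ((hd v).fun_div (c.sqrt a.ne') b.ne').congr_deriv ?_
    generalize √(1 - 4 * v) = r at b d ⊢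
    rw [← d]
    field_simp
    ring
  have m : MonotoneOn (fun y => p y / √(1 - 4 * y)) (Set.Icc 0 u) := by
    refine monotoneOn_of_deriv_nonneg (convex_Icc _ _)
      (fun v hv => (key v hv.2).continuousAt.continuousWithinAt)
      (fun v hv => (key v (interior_subset hv).2).differentiableAt.differentiableWithinAt)
      fun v hv => ?_
    have hv' := interior_subset hv
    rw [(key v hv'.2).deriv]
    exact div_nonneg (h v hv'.1 hv'.2) (by positivity)
  have := m ⟨le_rfl, h0⟩ ⟨h0, le_rfl⟩ h0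
  simp only [mul_zero, sub_zero, Real.sqrt_one, div_one] at this
  rwa [le_div_iff₀ (Real.sqrt_pos.2 (by linarith))] at this

theorem aa_rec : ∀ n < 61, (n + 2) * aa (n + 1) = (4 * n + 2) * aa n := by decide +kernel

def tp (n : ℕ) (v : ℝ) : ℝ := 1 - ∑ o ∈ range n, (aa o : ℝ) * v ^ (o + 1)

def tp' (n : ℕ) (v : ℝ) : ℝ := -∑ o ∈ range n, (aa o : ℝ) * ((o + 1 : ℕ) * v ^ o)

theorem tp_deriv (n : ℕ) (v : ℝ) : HasDerivAt (tp n) (tp' n v) v :=
  (HasDerivAt.fun_sum fun o _ => (hasDerivAt_pow (o + 1) v).const_mul (aa o : ℝ)).const_sub 1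

theorem ode (n : ℕ) (hn : n ≤ 61) (v : ℝ) :
    (1 - 4 * v) * tp' n v + 2 * tp n v = (n + 1) * aa n * v ^ n := by
  induction n with
  | zero =>
    have : aa 0 = 2 := rfl
    simp [tp, tp', this]
  | succ n ih =>
    have e : ((n : ℝ) + 2) * aa (n + 1) = (4 * n + 2) * aa n := by
      exact_mod_cast aa_rec n (by omega)
    have := ih (by omega)
    unfold tp tp' at this ⊢
    rw [sum_range_succ, sum_range_succ]
    push_cast at this ⊢
    linear_combination this - v ^ (n + 1) * e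

theorem tay (n : ℕ) (hn : n ≤ 61) {u : ℝ} (h0 : 0 ≤ u) (hu : 8 * u ≤ 1) :
    |√(1 - 4 * u) - tp n u| ≤ 2 * aa n * u ^ (n + 1) := by
  have z : tp n 0 = 1 := by simp [tp]
  have a := cmp (tp n) (tp' n) h0 hu (tp_deriv n) fun v h1 _ => by rw [ode n hn]; positivity
  have b := cmp (fun v => 2 * aa n * v ^ (n + 1) - tp n v)
    (fun v => 2 * aa n * ((n + 1 : ℕ) * v ^ n) - tp' n v) h0 hu
    (fun v => ((hasDerivAt_pow (n + 1) v).const_mul (2 * aa n : ℝ)).fun_sub (tp_deriv n v))
    fun v h1 h2 => by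
      have e := ode n hn v
      have p : (0 : ℝ) ≤ aa n * v ^ n := by positivity
      have q : (0 : ℝ) ≤ (n + 1) * (1 - 8 * v) + 4 * v := by
        have : 0 ≤ 1 - 8 * v := by linarith
        positivity
      have := mul_nonneg p q
      push_cast
      rw [pow_succ]
      linarith
  simp only [z, zero_pow (Nat.succ_ne_zero n), mul_zero, zero_sub] at a b
  have c : (0 : ℝ) ≤ 2 * aa n * u ^ (n + 1) := by positivity
  rw [abs_le]
  constructor <;> linarith

end Pool.Agent.MP_2339ce_nt.Q2.TB.TX
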