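import Pool.Agent.MP_2339ce_nt.Q2.TopN
import Pool.Agent.MP_2339ce_nt.Q2.TCTree
import Pool.Agent.MP_2339ce_nt.Q2.EAll2
import Pool.Agent.MP_2339ce_nt.DQ.TNQ

/-! Project Q2, top: the blocks put together. -/

set_option autoImplicit false

namespace Pool.Agent.MP_2339ce_nt.Q2.Top

open TB

/-- the first four elements of a quintuple are listed -/
def Lst (reg : Bool) (N : ℕ) : Prop := ∀ (q : Qd) (e : ℤ), q.N = N →
  DQ.Qt (-q.N) q.a q.b q.c q.d e → Rg reg q →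
    EX.inL (EX.qf N) q.a.toNat q.b.toNat q.c.toNat q.d.toNat = true

/-- membership in one of the rectangles -/
def InR (rs : List Rc) (N a r w : ℕ) : Prop := ∃ ρ ∈ rs,
  ρ.N1 ≤ N ∧ N ≤ ρ.N2 ∧ ρ.a1 ≤ a ∧ a ≤ ρ.a2 ∧ r ≤ ρ.R ∧ ρ.x0 ≤ w ∧ w ≤ ρ.x1

theorem nat (q : Qd) (N : ℕ) (h : q.N = N) : ∃ a b c d r s t x y z : ℕ, q.a = a ∧ q.b = b ∧
    q.c = c ∧ q.d = d ∧ q.r = r ∧ q.s = s ∧ q.t = t ∧ q.x = x ∧ Nq N a b c d r s t x y z := by
  obtain ⟨M, a, b, c, d, r, s, t, x, y, z, hN, ha, hb, hc, hd, r0, s0, t0, x0, y0, z0, hr, hs, ht,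
    hx, hy, hz⟩ := q
  obtain rfl : M = N := h
  lift a to ℕ using by omega
  lift b to ℕ using by omega
  lift c to ℕ using by omega
  lift d to ℕ using by omega
  lift r to ℕ using r0
  lift s to ℕ using s0
  lift t to ℕ using t0
  lift x to ℕ using x0
  lift y to ℕ using y0
  lift z to ℕ using z0
  refine ⟨a, b, c, d, r, s, t, x, y, z, rfl, rfl, rfl, rfl, rfl, rfl, rfl, rfl, by omega, by omega,
    by omega, by omega, ?_, ?_, ?_, ?_, ?_, ?_⟩ <;> zify <;> linarith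

theorem lstR {N G : ℕ} {st : List (ℕ × ℕ)} (h1 : RegN N G st)
    (h2 : ∀ (q : Qd) (e : ℤ), q.N = N → DQ.Qt (-q.N) q.a q.b q.c q.d e →
      q.c = q.a + q.b + 2 * q.r → (∃ u ∈ st, q.a ≤ u.1 ∧ q.b ≤ u.2) ∧ q.x ≤ G) : Lst true N := by
  intro q e hN hq hr
  obtain ⟨⟨u, hu, k1, k2⟩, k3⟩ := h2 q e hN hq (hr.1 rfl)
  have k4 := hr.1 rfl
  obtain ⟨a, b, c, d, r, s, t, x, y, z, ea, eb, ec, ed, er, -, -, ex, h⟩ := nat q N hN
  rw [ea, eb, ec, ed]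
  exact h1 a b c d r s t x y z h (by omega) ⟨u, hu, by omega, by omega⟩ (by omega)

theorem wpos {N a b c d r s t x y z : ℕ} (h : Nq N a b c d r s t x y z) : r * s ≤ a * t := by
  refine Nat.le_of_not_lt fun k => ?_
  have k2 := Nat.mul_lt_mul'' k k
  have h1 := h.hr
  have h2 := h.hs
  have h3 := h.ht
  have h4 := h.ab
  have h5 := h.bc
  have h6 := h.hN
  zify at k2 h1 h2 h3 h4 h5 h6
  have e : (a * t : ℤ) * (a * t) - r * s * (r * s) = N * (r ^ 2 + a * (c - a)) := by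
    linear_combination (a : ℤ) ^ 2 * h3 - ((s : ℤ) ^ 2 + N) * h1 - ((a : ℤ) * b - N) * h2
  have : (0 : ℤ) ≤ N * (r ^ 2 + a * (c - a)) :=
    mul_nonneg h6.le (add_nonneg (sq_nonneg _) (mul_nonneg (by positivity) (by linarith)))
  linarith

theorem lstN {N : ℕ} {rs : List Rc} {D : ℕ → ℕ → ℕ → ℕ} (hN : N ≤ 254) (h1 : NrN N (InR rs N) D)
    (h2 : Sem false root rs) (h3 : ∀ ρ ∈ rs, ρ.R ≤ 2 ^ 34)
    (h4 : ∀ (a b c d : ℕ) (e : ℤ), DQ.Qt (-(N : ℤ)) a b c d e → a * b ≤ 2 ^ 70 → d ≤ D a b c) :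
    Lst false N := by
  intro q e hq hQ hr
  obtain ⟨ρ, hρ, k1, k2, k3, k4, k5, k6⟩ := h2 q e (by omega) hQ hr (root_ok q (by omega))
  obtain ⟨k6, k7⟩ := k6 rfl
  have k8 := hr.2 rfl
  obtain ⟨a, b, c, d, r, s, t, x, y, z, ea, eb, ec, ed, er, es, et, -, h⟩ := nat q N hq
  obtain ⟨w, hw⟩ := Nat.exists_eq_add_of_le (wpos h)
  rw [ea, er, es, et] at k6 k7
  rw [hq, ea, eb, ec, ed] at hQ
  rw [ea, eb, ec, ed]
  have k9 : (a * t : ℤ) = r * s + w := by exact_mod_cast hw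
  have k10 : r ^ 2 ≤ (2 ^ 34) ^ 2 := Nat.pow_le_pow_left (le_trans (by omega) (h3 ρ hρ)) 2
  refine h1 a b c d r s t x y z w h (by omega) (by omega)
    ⟨ρ, hρ, by omega, by omega, by omega, by omega, by omega, by omega, by omega⟩
    (h4 a b c d e hQ ?_)
  rw [← h.hr]
  omega

theorem root' {u v : ℤ} (h : IsSquare (u + -v)) : ∃ r : ℤ, 0 ≤ r ∧ r ^ 2 = u - v := by
  obtain ⟨r, hr⟩ := h
  exact ⟨|r|, abs_nonneg r, by rw [sq_abs]; linarith⟩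

theorem hh {N a e : ℕ} (h : IsSquare ((a : ℤ) * e + -(N : ℤ))) : EX.H N e a := by
  obtain ⟨r, r0, hr⟩ := root' h
  lift r to ℕ using r0
  exact ⟨r, by zify; linarith⟩

theorem noQt {N : ℕ} (h0 : 1 ≤ N) (hR : Lst true N) (hN : Lst false N) (hE : EX.Gd N (EX.qf N))
    (a b c d e : ℤ) : ¬ DQ.Qt (-(N : ℤ)) a b c d e := by
  intro h
  obtain ⟨r, r0, hr⟩ := root' h.s1
  obtain ⟨s, s0, hs⟩ := root' h.s2
  obtain ⟨t, t0, ht⟩ := root' h.s5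
  obtain ⟨x, x0, hx⟩ := root' h.s3
  obtain ⟨y, y0, hy⟩ := root' h.s6
  obtain ⟨z, z0, hz⟩ := root' h.s8
  have h1 := h.a0
  have h2 := h.ab
  have h3 := h.bc
  have h4 := h.cd
  have h5 := h.de
  let q : Qd := ⟨N, a, b, c, d, r, s, t, x, y, z, by omega, h1, h2, h3, h4, r0, s0, t0, x0, y0, z0,
    hr, hs, ht, hx, hy, hz⟩
  have k : EX.inL (EX.qf N) a.toNat b.toNat c.toNat d.toNat = true := by
    by_cases g : c = a + b + 2 * r
    · exact hR q e rfl h ⟨fun _ => g, nofun⟩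
    · exact hN q e rfl h ⟨nofun, fun _ => g⟩
  clear q hr hs ht hx hy hz
  lift a to ℕ using by omega
  lift b to ℕ using by omega
  lift c to ℕ using by omega
  lift d to ℕ using by omega
  lift e to ℕ using by omega
  have := hE a b c d k e (hh h.s4) (hh h.s7) (hh h.s9) (hh h.s10)
  omega

theorem fin (h : ∀ N : ℕ, 1 ≤ N → N ≤ 254 → ∀ a b c d e : ℤ, ¬ DQ.Qt (-(N : ℤ)) a b c d e) :
    IsGreatest {n : ℤ | n ≤ -1 ∧ ∃ s : Finset ℤ, s.card = 5 ∧ (∀ a ∈ s, a ≠ 0) ∧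
      ∀ a ∈ s, ∀ b ∈ s, a ≠ b → IsSquare (a * b + n)} (-255) := by
  refine ⟨⟨by norm_num, {8, 32, 77, 203, 528}, by decide, by decide, ?_⟩, ?_⟩
  · have k : ∀ a ∈ ({8, 32, 77, 203, 528} : Finset ℤ), ∀ b ∈ ({8, 32, 77, 203, 528} : Finset ℤ),
        a ≠ b → ∃ r ∈ ({1, 19, 37, 63, 47, 79, 129, 124, 201, 327} : Finset ℤ),
          a * b + -255 = r * r := by decide
    exact fun a ha b hb n => (k a ha b hb n).imp fun _ h => h.2
  · rintro n ⟨h1, s, h2, h3, h4⟩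
    refine le_of_not_gt fun k => DQ.no_set (n := n) (by omega) ?_ s h2 h3 h4
    have := h (-n).toNat (by omega) (by omega)
    rwa [show -(((-n).toNat : ℕ) : ℤ) = n by omega] at this

end Pool.Agent.MP_2339ce_nt.Q2.Top
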