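import Pool.Agent.MP_2339ce_nt.Q2.Top3
import Pool.Agent.MP_2339ce_nt.Q2.CkH
import Pool.Agent.MP_2339ce_nt.Q2.DB

/-! Project Q2, top: the check `ckH` and the triples that are not regular. -/

set_option autoImplicit false

namespace Pool.Agent.MP_2339ce_nt.Q2.Top

open TB

theorem ckH_ok (hG : RG.S_GEN) {N : ℕ} (hN : N ≤ 254) :
    CkOk ckH N fun _ b c => 2 ^ 25 * (N * b * c) ^ 2 := by
  intro a b c d r s t x y z h hd hc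
  refine hG N (wH b c (gH N a t)) a b c r s t (gH N a t) d x y z _ hc
    ⟨h.hN, by omega, h.ab, h.bc, h.hr, h.hs, h.ht⟩ ⟨h.cd, h.hx, h.hy, h.hz⟩ ?_
  change x ≤ (11586 * N) <<< (a.log2 / 2) * (t + 16) ^ 2
  rw [Nat.shiftLeft_eq]
  have h2 := le16 (by omega) h.ht
  have ha : a ≤ 4 * (2 ^ (a.log2 / 2)) ^ 2 := by
    rw [← pow_mul, show (4 : ℕ) = 2 ^ 2 from rfl, ← pow_add]
    exact Nat.lt_log2_self.le.trans (Nat.pow_le_pow_right two_pos (by omega))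
  generalize 2 ^ (a.log2 / 2) = m at ha ⊢
  refine le_of_pow_le_pow_left₀ two_ne_zero (Nat.zero_le _) ?_
  calc x ^ 2 ≤ a * d := h.hx ▸ Nat.le_add_right _ _
    _ ≤ 4 * m ^ 2 * (5793 ^ 2 * (N * b * c) ^ 2) :=
      Nat.mul_le_mul ha (hd.trans (Nat.mul_le_mul_right _ (by norm_num)))
    _ = (11586 * N * m) ^ 2 * (b * c) ^ 2 := by ring
    _ ≤ (11586 * N * m) ^ 2 * ((t + 16) ^ 2) ^ 2 := by gcongr
    _ = _ := by ring

theorem dH {N : ℕ} (h0 : 1 ≤ N) (hN : N ≤ 254) (a b c d : ℕ) (e : ℤ)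
    (h : DQ.Qt (-(N : ℤ)) a b c d e) (h3 : a * b ≤ 2 ^ 70) : d ≤ 2 ^ 25 * (N * b * c) ^ 2 := by
  exact_mod_cast DB.dbound (by exact_mod_cast h0) (by exact_mod_cast hN) h (by exact_mod_cast h3)

theorem lstH (hG : RG.S_GEN) {N : ℕ} {rs : List Rc} {L : List B5} (h0 : 1 ≤ N) (hN : N ≤ 254)
    (h2 : Sem false root rs) (h3 : ∀ ρ ∈ rs, ρ.R ≤ 2 ^ 34) (h5 : Cvd rs N L)
    (h7 : ∀ B ∈ L, NR.Ok ckH N (Msk.PP N) (Msk.mk N) B.a1 B.a2 0 B.R B.x0 B.x1) : Lst false N :=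
  lstS hN h2 h3 (dH h0 hN) h5 (ckH_ok hG hN) h7

end Pool.Agent.MP_2339ce_nt.Q2.Top
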