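import Pool.Agent.MP_2339ce_nt.Q2.Top4
import Pool.Agent.MP_2339ce_nt.Q2.CkIP

/-! Project Q2, top: the check `ckI` and the triples that are not regular. -/

set_option autoImplicit false

namespace Pool.Agent.MP_2339ce_nt.Q2.Top

open TB

theorem gI_ok {N a b c d r s t x y z : ℕ} (hN : N ≤ 254) (h : Nq N a b c d r s t x y z)
    (hd : d ≤ 2 ^ 25 * (N * b * c) ^ 2) : x ≤ CI.gI N a t := by
  change x ≤ 5793 * N * (a - (a - (a / 64 + 17))) * (t + 16) ^ 2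
  have h2 := le16 (by omega) h.ht
  have ha : a ≤ (a - (a - (a / 64 + 17))) ^ 2 := by
    rcases le_total a (a / 64 + 17) with k | k
    · rw [Nat.sub_eq_zero_of_le k, Nat.sub_zero, sq]
      exact Nat.le_mul_self a
    · rw [Nat.sub_sub_self k]
      have : a ≤ 64 * (a / 64) + 63 := by omega
      generalize a / 64 = j at this
      zify at this ⊢
      nlinarith [sq_nonneg ((j : ℤ) - 15)]
  generalize a - (a - (a / 64 + 17)) = m at ha ⊢
  refine le_of_pow_le_pow_left₀ two_ne_zero (Nat.zero_le _) ?_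
  calc x ^ 2 ≤ a * d := h.hx ▸ Nat.le_add_right _ _
    _ ≤ m ^ 2 * (5793 ^ 2 * (N * b * c) ^ 2) :=
      Nat.mul_le_mul ha (hd.trans (Nat.mul_le_mul_right _ (by norm_num)))
    _ = (5793 * N * m) ^ 2 * (b * c) ^ 2 := by ring
    _ ≤ (5793 * N * m) ^ 2 * ((t + 16) ^ 2) ^ 2 := by gcongr
    _ = _ := by ring

theorem ckI_ok {N : ℕ} (hN : N ≤ 254) : CkOk ckI N fun _ b c =>
    if CI.mb (Msk.mk N) b c = true then 2 ^ 25 * (N * b * c) ^ 2 else 0 := by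
  intro a b c d r s t x y z h hd hc
  have cd := h.cd
  by_cases k : CI.mb (Msk.mk N) b c = true
  · unfold ckI at hc
    rw [k] at hc
    exact CI.h0_ok hc ⟨h.hN, by omega, h.ab, h.bc, h.hr, h.hs, h.ht⟩ ⟨h.cd, h.hx, h.hy, h.hz⟩
      (gI_ok hN h (hd.trans (if_pos k).le))
  · have := hd.trans (if_neg k).le
    omega

theorem mb_ok {N a b c d : ℕ} {e : ℤ} (h : DQ.Qt (-(N : ℤ)) a b c d e) :
    CI.mb (Msk.mk N) b c = true := by
  have sy : ∀ {u v : ℕ}, Msk.Sq N u v → Msk.Sq N v u := fun ⟨x, k⟩ => ⟨x, k.trans (mul_comm _ _)⟩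
  have p1 := ((List.Perm.swap b a _).pairwise_iff sy).1 (pw h)
  have p2 := ((((List.Perm.swap c b _).cons a).trans (List.Perm.swap c a _)).pairwise_iff sy).1 (pw h)
  have h1 : Msk.mk N >>> (b % 64) % 2 = 1 := Nat.eq_of_beq_eq_true (Msk.mk_ok rfl p1)
  have h2 : Msk.mk N >>> (c % 64) % 2 = 1 := Nat.eq_of_beq_eq_true (Msk.mk_ok rfl p2)
  change Nat.beq (Msk.mk N >>> (b % 64) &&& Msk.mk N >>> (c % 64) &&& 1) 1 = true
  rw [Nat.and_one_is_mod, Nat.and_mod_two_eq_one.2 ⟨h1, h2⟩]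
  rfl

theorem lstI {N : ℕ} {rs : List Rc} {L : List B5} (h0 : 1 ≤ N) (hN : N ≤ 254)
    (h2 : Sem false root rs) (h3 : ∀ ρ ∈ rs, ρ.R ≤ 2 ^ 34) (h5 : Cvd rs N L)
    (h7 : ∀ B ∈ L, NR.Ok ckI N (Msk.PP N) (Msk.mk N) B.a1 B.a2 0 B.R B.x0 B.x1) : Lst false N :=
  lstS hN h2 h3 (fun a b c d e h k => (dH h0 hN a b c d e h k).trans (if_pos (mb_ok h)).ge) h5
    (ckI_ok hN) h7

end Pool.Agent.MP_2339ce_nt.Q2.Top
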