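import Pool.Agent.MP_2339ce_nt.Q2.Top5
import Pool.Agent.MP_2339ce_nt.Q2.CovT
import Pool.Agent.MP_2339ce_nt.Q2.EFinb
import Pool.Agent.MP_2339ce_nt.Q2.RTM

/-! Project Q2, top: what is left are the three computations. -/

set_option autoImplicit false

namespace Pool.Agent.MP_2339ce_nt.Q2.Top

open TB NR

theorem lstJ {N : ℕ} {T : Ct} (h0 : 1 ≤ N) (hN : N ≤ 254) (h2 : SemT T root)
    (h7 : OkQ ckI (T.get N) N 1 1099511627776 0 34359738368 1 1099511627776) : Lst false N :=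
  lstT hN h2 (fun a b c d e h k => (dH h0 hN a b c d e h k).trans (if_pos (mb_ok h)).ge)
    (ckI_ok hN) h7

theorem lstC {N : ℕ} (hN : N ≤ 254)
    (h : ∃ C ∈ csT, C.N1 ≤ N ∧ N ≤ C.N2 ∧ RG.RegE N C.G C.st) : Lst true N := by
  obtain ⟨C, h1, h2, h3, h4⟩ := h
  exact lstE hN h4 fun q e k1 k2 k3 => RT.csT_ok C h1 q e (by omega) (by omega) k2 k3

theorem all (hR : ∀ N : ℕ, 1 ≤ N → N ≤ 254 → N % 4 ≠ 2 →
      ∃ C ∈ csT, C.N1 ≤ N ∧ N ≤ C.N2 ∧ RG.RegE N C.G C.st)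
    (hL : ∀ N : ℕ, 1 ≤ N → N ≤ 254 → N % 4 ≠ 2 → Lst false N) :
    IsGreatest {n : ℤ | n ≤ -1 ∧ ∃ s : Finset ℤ, s.card = 5 ∧ (∀ a ∈ s, a ≠ 0) ∧
      ∀ a ∈ s, ∀ b ∈ s, a ≠ b → IsSquare (a * b + n)} (-255) :=
  fin fun N h1 h2 => (em (N % 4 = 2)).elim no0 fun h3 =>
    noQt h1 (lstC h2 (hR N h1 h2 h3)) (hL N h1 h2 h3) (EX.gdf N)

end Pool.Agent.MP_2339ce_nt.Q2.Top
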