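import Pool.Agent.MP_2339ce_nt.Q2.EQb

/-! Project Q2, top: what the two searches deliver for one `N`. -/

set_option autoImplicit false

namespace Pool.Agent.MP_2339ce_nt.Q2.Top

/-- the six equations of a quadruple -/
structure Nq (N a b c d r s t x y z : ℕ) : Prop where
  hN : 0 < N
  ab : a < b
  bc : b < c
  cd : c < d
  hr : r ^ 2 + N = a * b
  hs : s ^ 2 + N = a * c
  ht : t ^ 2 + N = b * c
  hx : x ^ 2 + N = a * d
  hy : y ^ 2 + N = b * d
  hz : z ^ 2 + N = c * d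

/-- regular triples under a staircase -/
def RegN (N G : ℕ) (st : List (ℕ × ℕ)) : Prop := ∀ a b c d r s t x y z : ℕ,
  Nq N a b c d r s t x y z → c = a + b + 2 * r → (∃ u ∈ st, a ≤ u.1 ∧ b ≤ u.2) → x ≤ G →
    EX.inL (EX.qf N) a b c d = true

/-- the other triples in a region `P` for `a`, `r`, `a t - r s` -/
def NrN (N : ℕ) (P : ℕ → ℕ → ℕ → Prop) (D : ℕ → ℕ → ℕ → ℕ) : Prop :=
  ∀ a b c d r s t x y z w : ℕ, Nq N a b c d r s t x y z → c ≠ a + b + 2 * r →
    w + r * s = a * t → P a r w → d ≤ D a b c → EX.inL (EX.qf N) a b c d = true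

end Pool.Agent.MP_2339ce_nt.Q2.Top
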